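import Pool.Agent.Lib.MP_a1b8b7_co.D.TT

/-!
# Identity of the G part, type 0, first flag 3
-/

set_option autoImplicit false
set_option maxRecDepth 1000000

namespace HR

namespace Dat

open Fl Fl.Tr Fl.GP

theorem cg_0_3_3 : chkBC 4 72 gt_0_3_3 [gb0, gb1, gb2, gb3] 3 3 = true := by decide +kernel

theorem cg_0_3_4 : chkBC 4 72 gt_0_3_4 [gb0, gb1, gb2, gb3] 3 4 = true := by decide +kernel

theorem cg_0_3_5 : chkBC 4 72 gt_0_3_5 [gb0, gb1, gb2, gb3] 3 5 = true := by decide +kernel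

theorem cg_0_3_6 : chkBC 4 72 gt_0_3_6 [gb0, gb1, gb2, gb3] 3 6 = true := by decide +kernel

theorem cg_0_3_7 : chkBC 4 72 gt_0_3_7 [gb0, gb1, gb2, gb3] 3 7 = true := by decide +kernel

end Dat

end HR
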