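import Pool.Agent.Lib.MP_a1b8b7_co.D.TT

/-!
# Identity of the G part, type 0, first flag 6
-/

set_option autoImplicit false
set_option maxRecDepth 1000000

namespace HR

namespace Dat

open Fl Fl.Tr Fl.GP

theorem cg_0_6_6 : chkBC 4 72 gt_0_6_6 [gb0, gb1, gb2, gb3] 6 6 = true := by decide +kernel

theorem cg_0_6_7 : chkBC 4 72 gt_0_6_7 [gb0, gb1, gb2, gb3] 6 7 = true := by decide +kernel

end Dat

end HR
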