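import Pool.Agent.Lib.MP_a1b8b7_co.D.TT

/-!
# Identity of the G part, type 1, first flag 1
-/

set_option autoImplicit false
set_option maxRecDepth 1000000

namespace HR

namespace Dat

open Fl Fl.Tr Fl.GP

theorem cg_1_1_1 : chkBC 4 72 gt_1_1_1 [gb4, gb5, gb6, gb7] 1 1 = true := by decide +kernel

theorem cg_1_1_2 : chkBC 4 72 gt_1_1_2 [gb4, gb5, gb6, gb7] 1 2 = true := by decide +kernel

theorem cg_1_1_3 : chkBC 4 72 gt_1_1_3 [gb4, gb5, gb6, gb7] 1 3 = true := by decide +kernel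

theorem cg_1_1_4 : chkBC 4 72 gt_1_1_4 [gb4, gb5, gb6, gb7] 1 4 = true := by decide +kernel

theorem cg_1_1_5 : chkBC 4 72 gt_1_1_5 [gb4, gb5, gb6, gb7] 1 5 = true := by decide +kernel

theorem cg_1_1_6 : chkBC 4 72 gt_1_1_6 [gb4, gb5, gb6, gb7] 1 6 = true := by decide +kernel

theorem cg_1_1_7 : chkBC 4 72 gt_1_1_7 [gb4, gb5, gb6, gb7] 1 7 = true := by decide +kernel

end Dat

end HR
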