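import Pool.Agent.Lib.MP_a1b8b7_co.B.OwnOK

set_option autoImplicit false

namespace HR

namespace Own

namespace H1

open Chk

def col : Fin 10 → Bool := ![true, false, false, false, false, false, false, false, false, false]

def trs : List ℕ := [nat_lit 1329, nat_lit 2145, nat_lit 2403, nat_lit 1346, nat_lit 2162, nat_lit 2420, nat_lit 2437]

def kt : ℕ := nat_lit 0x29000000cd0000035d000008cf0000188100003dd20000896a0000eecb0001bbf40002d9ac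

open Ex in
noncomputable def E : Ex := (a (a (a (a (u (nat_lit 9) (v (nat_lit 9) (v (nat_lit 9) (v (nat_lit 9) (k (nat_lit 0x263298)))))) (a (v (nat_lit 8) (a (u (nat_lit 9) (v (nat_lit 9) (v (nat_lit 9) (k (nat_lit 0x13197c))))) (v (nat_lit 8) (u (nat_lit 9) (v (nat_lit 9) (k (nat_lit 0x131964))))))) (u (nat_lit 8) (v (nat_lit 8) (a (v (nat_lit 9) (v (nat_lit 9) (k (nat_lit 0x131964)))) (v (nat_lit 8) (a (v (nat_lit 9) (k (nat_lit 0x13197c))) (v (nat_lit 8) (k (nat_lit 0x263298)))))))))) (a (v (nat_lit 7) (a (u (nat_lit 9) (v (nat_lit 9) (v (nat_lit 9) (k (nat_lit 0x98cac))))) (a (v (nat_lit 8) (u (nat_lit 9) (v (nat_lit 9) (k (nat_lit 0x98cca))))) (u (nat_lit 8) (v (nat_lit 8) (a (v (nat_lit 9) (k (nat_lit 0x98cca))) (v (nat_lit 8) (k (nat_lit 0x98cac))))))))) (a (u (nat_lit 7) (v (nat_lit 7) (a (v (nat_lit 9) (v (nat_lit 9) (k (nat_lit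 0x98cca)))) (a (v (nat_lit 8) (a (v (nat_lit 9) (k (nat_lit 0x131a78))) (v (nat_lit 8) (k (nat_lit 0x98cca))))) (v (nat_lit 7) (a (v (nat_lit 9) (k (nat_lit 0x98cb8))) (a (v (nat_lit 8) (k (nat_lit 0x98cb8))) (v (nat_lit 7) (k (nat_lit 0x13197c)))))))))) (v (nat_lit 6) (a (a (u (nat_lit 9) (v (nat_lit 9) (v (nat_lit 9) (k (nat_lit 0x98cac))))) (v (nat_lit 8) (u (nat_lit 9) (v (nat_lit 9) (k (nat_lit 0x98cca)))))) (a (u (nat_lit 8) (v (nat_lit 8) (a (v (nat_lit 9) (k (nat_lit 0x98cca))) (v (nat_lit 8) (k (nat_lit 0x98cac)))))) (a (u (nat_lit 7) (a (v (nat_lit 9) (v (nat_lit 9) (k (nat_lit 0x98cb8)))) (a (v (nat_lit 8) (a (v (nat_lit 9) (k (nat_lit 0x12e508))) (v (nat_lit 8) (k (nat_lit 0x98cb8))))) (v (nat_lit 7) (a (v (nat_lit 9) (k (nat_lit 0x98d2a))) (a (v (nat_lit 8) (k (nat_lit 0x98d2a))) (v (nat_lit 7) (k (nat_lit 0x131988)))))))))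 (v (nat_lit 6) (u (nat_lit 7) (a (v (nat_lit 9) (k (nat_lit 0x98c5e))) (a (v (nat_lit 8) (k (nat_lit 0x98c5e))) (v (nat_lit 7) (k (nat_lit 0x1319a0)))))))))))))) (a (a (u (nat_lit 6) (a (v (nat_lit 7) (a (v (nat_lit 9) (v (nat_lit 9) (k (nat_lit 0x98cb8)))) (a (v (nat_lit 8) (a (v (nat_lit 9) (k (nat_lit 0x12e508))) (v (nat_lit 8) (k (nat_lit 0x98cb8))))) (v (nat_lit 7) (a (v (nat_lit 9) (k (nat_lit 0x98c5e))) (v (nat_lit 8) (k (nat_lit 0x98c5e)))))))) (v (nat_lit 6) (a (a (v (nat_lit 9) (v (nat_lit 9) (k (nat_lit 0x98cca)))) (v (nat_lit 8) (a (v (nat_lit 9) (k (nat_lit 0x131a78))) (v (nat_lit 8) (k (nat_lit 0x98cca)))))) (a (v (nat_lit 7) (a (v (nat_lit 9) (k (nat_lit 0x98d2a))) (a (v (nat_lit 8) (k (nat_lit 0x98d2a))) (v (nat_lit 7) (k (nat_lit 0x1319a0)))))) (v (nat_lit 6) (a (a (v (nat_lit 9) (k (nat_lit 0x98cb8))) (v (nat_lit 8)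 (k (nat_lit 0x98cb8)))) (a (v (nat_lit 7) (k (nat_lit 0x131988))) (v (nat_lit 6) (k (nat_lit 0x13197c))))))))))) (a (v (nat_lit 5) (a (a (a (u (nat_lit 9) (v (nat_lit 9) (v (nat_lit 9) (k (nat_lit 0x13197c))))) (v (nat_lit 8) (a (u (nat_lit 9) (v (nat_lit 9) (k (nat_lit 0x26e740)))) (v (nat_lit 8) (u (nat_lit 9) (k (nat_lit 0x12beec))))))) (a (u (nat_lit 8) (a (v (nat_lit 9) (v (nat_lit 9) (k (nat_lit 0x12beec)))) (v (nat_lit 8) (a (v (nat_lit 9) (k (nat_lit 0x26e740))) (v (nat_lit 8) (k (nat_lit 0x13197c))))))) (v (nat_lit 7) (a (u (nat_lit 9) (v (nat_lit 9) (k (nat_lit 0x98c82)))) (u (nat_lit 8) (v (nat_lit 8) (k (nat_lit 0x98c82)))))))) (a (a (u (nat_lit 7) (v (nat_lit 7) (a (v (nat_lit 9) (k (nat_lit 0x98cfa))) (a (v (nat_lit 8) (k (nat_lit 0x98cfa))) (v (nat_lit 7) (k (nat_lit 0x1312e0))))))) (v (nat_lit 6) (a (a (u (nat_lit 9)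 (v (nat_lit 9) (k (nat_lit 0x98c82)))) (u (nat_lit 8) (v (nat_lit 8) (k (nat_lit 0x98c82))))) (a (u (nat_lit 7) (a (v (nat_lit 9) (k (nat_lit 0x98c94))) (a (v (nat_lit 8) (k (nat_lit 0x98c94))) (v (nat_lit 7) (k (nat_lit 0x134c64)))))) (v (nat_lit 6) (u (nat_lit 7) (k (nat_lit 0x12e67c)))))))) (a (u (nat_lit 6) (a (v (nat_lit 7) (a (v (nat_lit 9) (k (nat_lit 0x98c94))) (a (v (nat_lit 8) (k (nat_lit 0x98c94))) (v (nat_lit 7) (k (nat_lit 0x12e67c)))))) (v (nat_lit 6) (a (a (v (nat_lit 9) (k (nat_lit 0x98cfa))) (v (nat_lit 8) (k (nat_lit 0x98cfa)))) (a (v (nat_lit 7) (k (nat_lit 0x134c64))) (v (nat_lit 6) (k (nat_lit 0x1312e0)))))))) (v (nat_lit 5) (a (a (u (nat_lit 9) (v (nat_lit 9) (k (nat_lit 0x131964)))) (a (v (nat_lit 8) (u (nat_lit 9) (k (nat_lit 0x12beec)))) (u (nat_lit 8) (a (v (nat_lit 9) (k (nat_lit 0x12beec))) (v (nat_lit 8)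 (k (nat_lit 0x131964))))))) (a (u (nat_lit 7) (v (nat_lit 7) (k (nat_lit 0x131964)))) (a (v (nat_lit 6) (u (nat_lit 7) (k (nat_lit 0x1335c0)))) (u (nat_lit 6) (a (v (nat_lit 7) (k (nat_lit 0x1335c0))) (v (nat_lit 6) (k (nat_lit 0x131964))))))))))))) (u (nat_lit 5) (a (a (v (nat_lit 8) (a (v (nat_lit 9) (v (nat_lit 9) (k (nat_lit 0x12beec)))) (v (nat_lit 8) (v (nat_lit 9) (k (nat_lit 0x12beec)))))) (a (v (nat_lit 7) (v (nat_lit 8) (v (nat_lit 9) (k (nat_lit 0x1373dc))))) (u (nat_lit 7) (v (nat_lit 8) (v (nat_lit 9) (k (nat_lit 0x137418))))))) (a (a (v (nat_lit 6) (v (nat_lit 8) (v (nat_lit 9) (k (nat_lit 0x1373dc))))) (u (nat_lit 6) (v (nat_lit 8) (v (nat_lit 9) (k (nat_lit 0x137418)))))) (a (v (nat_lit 5) (a (a (v (nat_lit 9) (v (nat_lit 9) (k (nat_lit 0x131964)))) (v (nat_lit 8) (a (v (nat_lit 9) (k (nat_lit 0x26e740))) (v (nat_lit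 8) (k (nat_lit 0x131964)))))) (a (v (nat_lit 7) (a (v (nat_lit 9) (k (nat_lit 0x98d4e))) (v (nat_lit 8) (k (nat_lit 0x98d4e))))) (a (v (nat_lit 6) (a (v (nat_lit 9) (k (nat_lit 0x98d4e))) (a (v (nat_lit 8) (k (nat_lit 0x98d4e))) (v (nat_lit 7) (k (nat_lit 0x25f068)))))) (v (nat_lit 5) (a (a (v (nat_lit 9) (k (nat_lit 0x13197c))) (a (v (nat_lit 8) (k (nat_lit 0x13197c))) (v (nat_lit 7) (k (nat_lit 0x12f870))))) (a (a (u (nat_lit 7) (k (nat_lit 0x131aa8))) (v (nat_lit 6) (k (nat_lit 0x12f870)))) (a (u (nat_lit 6) (k (nat_lit 0x131aa8))) (v (nat_lit 5) (k (nat_lit 0x263298))))))))))) (u (nat_lit 5) (v (nat_lit 5) (a (v (nat_lit 7) (k (nat_lit 0x12ff84))) (v (nat_lit 6) (k (nat_lit 0x12ff84)))))))))))) (a (a (t (nat_lit 5) (nat_lit 8) (nat_lit 9) (u (nat_lit 5) (a (v (nat_lit 7) (v (nat_lit 7) (k (nat_lit 0xbde5ddc)))) (a (v (nat_lit 6)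 (a (v (nat_lit 7) (k (nat_lit 0x264d08))) (v (nat_lit 6) (k (nat_lit 0xbde5ddc))))) (u (nat_lit 5) (a (v (nat_lit 7) (k (nat_lit 0x132a8c))) (v (nat_lit 6) (k (nat_lit 0x132a8c))))))))) (v (nat_lit 4) (a (a (a (u (nat_lit 9) (v (nat_lit 9) (v (nat_lit 9) (k (nat_lit 0x98cac))))) (v (nat_lit 8) (u (nat_lit 9) (v (nat_lit 9) (k (nat_lit 0x98c82)))))) (a (u (nat_lit 8) (a (v (nat_lit 8) (a (v (nat_lit 9) (k (nat_lit 0x98d4e))) (v (nat_lit 8) (k (nat_lit 0x12f870))))) (u (nat_lit 8) (v (nat_lit 8) (k (nat_lit 0x12ff84)))))) (a (v (nat_lit 7) (a (a (u (nat_lit 9) (v (nat_lit 9) (k (nat_lit 0x122fc4)))) (v (nat_lit 8) (u (nat_lit 9) (k (nat_lit 0x9a93e))))) (a (u (nat_lit 8) (v (nat_lit 8) (k (nat_lit 0x98c94)))) (v (nat_lit 7) (u (nat_lit 9) (k (nat_lit 0x99efa))))))) (u (nat_lit 7) (a (v (nat_lit 9) (v (nat_lit 9) (k (nat_lit 0xa01e8))))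 (v (nat_lit 7) (a (a (v (nat_lit 9) (k (nat_lit 0x97a82))) (v (nat_lit 8) (k (nat_lit 0x9a044)))) (a (u (nat_lit 8) (k (nat_lit 0x9a086))) (v (nat_lit 7) (k (nat_lit 0x98cdc))))))))))) (a (a (v (nat_lit 6) (a (a (u (nat_lit 9) (v (nat_lit 9) (k (nat_lit 0x131958)))) (u (nat_lit 8) (v (nat_lit 8) (k (nat_lit 0x9b658))))) (a (v (nat_lit 7) (u (nat_lit 9) (k (nat_lit 0x94e8a)))) (a (u (nat_lit 7) (a (v (nat_lit 9) (k (nat_lit 0x97fce))) (a (v (nat_lit 8) (k (nat_lit 0x98cb2))) (v (nat_lit 7) (k (nat_lit 0x98ca0)))))) (v (nat_lit 6) (a (u (nat_lit 9) (k (nat_lit 0x98d6c))) (u (nat_lit 7) (k (nat_lit 0x9649e))))))))) (a (u (nat_lit 6) (a (v (nat_lit 8) (v (nat_lit 9) (k (nat_lit 0x92f0a)))) (a (v (nat_lit 7) (v (nat_lit 9) (k (nat_lit 0x9d8a2)))) (v (nat_lit 6) (a (v (nat_lit 8) (k (nat_lit 0x98730))) (a (v (nat_lit 7) (k (nat_lit 0x9b508)))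 (v (nat_lit 6) (k (nat_lit 0x99d08))))))))) (v (nat_lit 5) (a (a (u (nat_lit 9) (v (nat_lit 9) (k (nat_lit 0x98cca)))) (a (u (nat_lit 8) (a (v (nat_lit 9) (k (nat_lit 0x1373dc))) (v (nat_lit 8) (k (nat_lit 0x98d4e))))) (v (nat_lit 7) (a (u (nat_lit 9) (k (nat_lit 0x9a93e))) (u (nat_lit 8) (k (nat_lit 0x99378))))))) (a (u (nat_lit 7) (a (v (nat_lit 9) (k (nat_lit 0x93906))) (v (nat_lit 7) (k (nat_lit 0x98cfa))))) (a (v (nat_lit 6) (a (u (nat_lit 8) (k (nat_lit 0x95b92))) (u (nat_lit 7) (k (nat_lit 0x98aba))))) (u (nat_lit 6) (a (v (nat_lit 9) (k (nat_lit 0x9ea06))) (a (v (nat_lit 8) (k (nat_lit 0x9bcee))) (v (nat_lit 6) (k (nat_lit 0x97764)))))))))))) (a (u (nat_lit 5) (a (v (nat_lit 7) (v (nat_lit 8) (k (nat_lit 0x99378)))) (a (v (nat_lit 6) (v (nat_lit 8) (k (nat_lit 0x95b92)))) (v (nat_lit 5) (a (a (v (nat_lit 9) (k (nat_lit 0x98cca)))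 (v (nat_lit 8) (k (nat_lit 0x98c82)))) (a (v (nat_lit 7) (k (nat_lit 0x98c94))) (a (v (nat_lit 6) (k (nat_lit 0x9b658))) (v (nat_lit 5) (k (nat_lit 0x98cac)))))))))) (a (t (nat_lit 5) (nat_lit 8) (nat_lit 9) (u (nat_lit 8) (u (nat_lit 8) (k (nat_lit 0x132a8c))))) (v (nat_lit 4) (a (a (v (nat_lit 7) (u (nat_lit 9) (k (nat_lit 0x99efa)))) (u (nat_lit 7) (v (nat_lit 7) (k (nat_lit 0x98cdc))))) (a (v (nat_lit 6) (a (u (nat_lit 9) (k (nat_lit 0x98d6c))) (u (nat_lit 7) (k (nat_lit 0x98cdc))))) (a (u (nat_lit 6) (v (nat_lit 6) (k (nat_lit 0x98cc4)))) (t (nat_lit 5) (nat_lit 8) (nat_lit 9) (u (nat_lit 8) (k (nat_lit 0xbde5ddc)))))))))))))) (a (u (nat_lit 4) (a (a (a (u (nat_lit 8) (v (nat_lit 8) (v (nat_lit 8) (k (nat_lit 0x131aa8))))) (v (nat_lit 7) (a (v (nat_lit 9) (v (nat_lit 9) (k (nat_lit 0xa01e8)))) (v (nat_lit 8) (v (nat_lit 9) (k (nat_lit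 0x93906))))))) (a (u (nat_lit 7) (v (nat_lit 8) (u (nat_lit 9) (k (nat_lit 0x9c408))))) (v (nat_lit 6) (v (nat_lit 8) (v (nat_lit 9) (k (nat_lit 0x9ea06))))))) (a (a (u (nat_lit 6) (a (u (nat_lit 8) (v (nat_lit 8) (k (nat_lit 0x95df6)))) (v (nat_lit 6) (v (nat_lit 6) (k (nat_lit 0x9a554)))))) (v (nat_lit 5) (a (u (nat_lit 8) (v (nat_lit 9) (k (nat_lit 0x137418)))) (a (u (nat_lit 7) (u (nat_lit 9) (k (nat_lit 0x9c408)))) (v (nat_lit 6) (a (v (nat_lit 9) (k (nat_lit 0x92f0a))) (v (nat_lit 8) (k (nat_lit 0x9bcee))))))))) (a (u (nat_lit 5) (a (u (nat_lit 6) (v (nat_lit 6) (k (nat_lit 0x9a1e2)))) (v (nat_lit 5) (u (nat_lit 6) (k (nat_lit 0x95df6)))))) (v (nat_lit 4) (a (a (a (v (nat_lit 9) (v (nat_lit 9) (k (nat_lit 0x98cca)))) (v (nat_lit 8) (a (v (nat_lit 9) (k (nat_lit 0x98cfa))) (v (nat_lit 8) (k (nat_lit 0x131964)))))) (a (v (nat_lit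 7) (a (v (nat_lit 9) (k (nat_lit 0x97a82))) (a (v (nat_lit 8) (k (nat_lit 0x98cfa))) (v (nat_lit 7) (k (nat_lit 0x98cdc)))))) (v (nat_lit 6) (a (v (nat_lit 8) (k (nat_lit 0x97764))) (v (nat_lit 6) (k (nat_lit 0x98cc4))))))) (a (a (u (nat_lit 6) (u (nat_lit 8) (k (nat_lit 0x9a1e2)))) (v (nat_lit 5) (a (a (v (nat_lit 9) (k (nat_lit 0x131a78))) (v (nat_lit 8) (k (nat_lit 0x98cfa)))) (a (v (nat_lit 7) (k (nat_lit 0x9a044))) (a (v (nat_lit 6) (k (nat_lit 0x98730))) (v (nat_lit 5) (k (nat_lit 0x98cca)))))))) (a (u (nat_lit 5) (v (nat_lit 7) (k (nat_lit 0x9a086)))) (v (nat_lit 4) (a (a (v (nat_lit 9) (k (nat_lit 0x98cb8))) (a (v (nat_lit 8) (k (nat_lit 0x1312e0))) (v (nat_lit 7) (k (nat_lit 0x98cdc))))) (a (a (v (nat_lit 6) (k (nat_lit 0x99d08))) (u (nat_lit 6) (k (nat_lit 0x9a554)))) (a (v (nat_lit 5) (k (nat_lit 0x98cb8))) (v (nat_lit 4)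 (k (nat_lit 0x13197c))))))))))))))) (t (nat_lit 4) (nat_lit 7) (nat_lit 9) (a (a (v (nat_lit 8) (v (nat_lit 8) (u (nat_lit 9) (k (nat_lit 0x8a24ae))))) (a (v (nat_lit 5) (v (nat_lit 5) (u (nat_lit 9) (k (nat_lit 0x8a24ae))))) (u (nat_lit 5) (v (nat_lit 5) (u (nat_lit 7) (k (nat_lit 0x108198de))))))) (a (t (nat_lit 5) (nat_lit 8) (nat_lit 9) (u (nat_lit 5) (u (nat_lit 8) (k (nat_lit 0x4a64a44))))) (a (u (nat_lit 4) (a (a (u (nat_lit 8) (v (nat_lit 8) (k (nat_lit 0x108198de)))) (u (nat_lit 7) (u (nat_lit 8) (k (nat_lit 0x9a99e))))) (a (u (nat_lit 6) (a (u (nat_lit 9) (k (nat_lit 0x5ec59a8))) (u (nat_lit 8) (k (nat_lit 0x8355c2a))))) (u (nat_lit 5) (a (u (nat_lit 7) (k (nat_lit 0x9a99e))) (u (nat_lit 6) (k (nat_lit 0x6a3e456)))))))) (t (nat_lit 4) (nat_lit 7) (nat_lit 9) (t (nat_lit 5) (nat_lit 8) (nat_lit 9) (a (u (nat_lit 8) (k (nat_lit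 0x3f3a1d6))) (u (nat_lit 5) (k (nat_lit 0x3f3a1d6)))))))))))))) (a (a (a (v (nat_lit 3) (a (a (a (u (nat_lit 9) (v (nat_lit 9) (v (nat_lit 9) (k (nat_lit 0x98cac))))) (a (v (nat_lit 8) (u (nat_lit 9) (v (nat_lit 9) (k (nat_lit 0x98c82))))) (u (nat_lit 8) (a (v (nat_lit 8) (a (v (nat_lit 9) (k (nat_lit 0x98d4e))) (v (nat_lit 8) (k (nat_lit 0x12f870))))) (u (nat_lit 8) (v (nat_lit 8) (k (nat_lit 0x12ff84)))))))) (a (v (nat_lit 7) (a (u (nat_lit 9) (v (nat_lit 9) (k (nat_lit 0x131958)))) (a (u (nat_lit 8) (v (nat_lit 8) (k (nat_lit 0x9b658)))) (v (nat_lit 7) (u (nat_lit 9) (k (nat_lit 0x98d6c))))))) (a (u (nat_lit 7) (a (v (nat_lit 8) (v (nat_lit 9) (k (nat_lit 0x92f0a)))) (v (nat_lit 7) (a (v (nat_lit 8) (k (nat_lit 0x98730))) (v (nat_lit 7) (k (nat_lit 0x99d08))))))) (v (nat_lit 6) (a (a (u (nat_lit 9) (v (nat_lit 9) (k (nat_lit 0x122fc4))))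 (a (v (nat_lit 8) (u (nat_lit 9) (k (nat_lit 0x9a93e)))) (u (nat_lit 8) (v (nat_lit 8) (k (nat_lit 0x98c94)))))) (a (v (nat_lit 7) (u (nat_lit 9) (k (nat_lit 0x94e8a)))) (a (u (nat_lit 7) (a (v (nat_lit 9) (k (nat_lit 0x9d8a2))) (v (nat_lit 7) (k (nat_lit 0x9b508))))) (v (nat_lit 6) (u (nat_lit 9) (k (nat_lit 0x99efa))))))))))) (a (a (u (nat_lit 6) (a (v (nat_lit 9) (v (nat_lit 9) (k (nat_lit 0xa01e8)))) (a (v (nat_lit 7) (a (v (nat_lit 9) (k (nat_lit 0x97fce))) (a (v (nat_lit 8) (k (nat_lit 0x98cb2))) (v (nat_lit 7) (k (nat_lit 0x9649e)))))) (v (nat_lit 6) (a (a (v (nat_lit 9) (k (nat_lit 0x97a82))) (v (nat_lit 8) (k (nat_lit 0x9a044)))) (a (u (nat_lit 8) (k (nat_lit 0x9a086))) (a (v (nat_lit 7) (k (nat_lit 0x98ca0))) (v (nat_lit 6) (k (nat_lit 0x98cdc)))))))))) (a (v (nat_lit 5) (a (a (u (nat_lit 9) (v (nat_lit 9) (k (nat_lit 0x98cca))))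 (a (u (nat_lit 8) (a (v (nat_lit 9) (k (nat_lit 0x1373dc))) (v (nat_lit 8) (k (nat_lit 0x98d4e))))) (v (nat_lit 7) (u (nat_lit 8) (k (nat_lit 0x95b92)))))) (a (u (nat_lit 7) (a (v (nat_lit 9) (k (nat_lit 0x9ea06))) (a (v (nat_lit 8) (k (nat_lit 0x9bcee))) (v (nat_lit 7) (k (nat_lit 0x97764)))))) (a (v (nat_lit 6) (a (u (nat_lit 9) (k (nat_lit 0x9a93e))) (u (nat_lit 8) (k (nat_lit 0x99378))))) (u (nat_lit 6) (a (v (nat_lit 9) (k (nat_lit 0x93906))) (a (v (nat_lit 7) (k (nat_lit 0x98aba))) (v (nat_lit 6) (k (nat_lit 0x98cfa)))))))))) (u (nat_lit 5) (a (v (nat_lit 7) (v (nat_lit 8) (k (nat_lit 0x95b92)))) (a (v (nat_lit 6) (v (nat_lit 8) (k (nat_lit 0x99378)))) (v (nat_lit 5) (a (a (v (nat_lit 9) (k (nat_lit 0x98cca))) (v (nat_lit 8) (k (nat_lit 0x98c82)))) (a (v (nat_lit 7) (k (nat_lit 0x9b658))) (a (v (nat_lit 6) (k (nat_lit 0x98c94)))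 (v (nat_lit 5) (k (nat_lit 0x98cac)))))))))))) (a (a (t (nat_lit 5) (nat_lit 8) (nat_lit 9) (u (nat_lit 8) (u (nat_lit 8) (k (nat_lit 0x132a8c))))) (v (nat_lit 4) (a (a (u (nat_lit 8) (v (nat_lit 8) (k (nat_lit 0x25f068)))) (v (nat_lit 7) (u (nat_lit 9) (k (nat_lit 0x94e8a))))) (a (v (nat_lit 6) (a (u (nat_lit 9) (k (nat_lit 0x94e8a))) (u (nat_lit 7) (k (nat_lit 0x98952))))) (a (u (nat_lit 6) (v (nat_lit 7) (k (nat_lit 0x98952)))) (t (nat_lit 5) (nat_lit 8) (nat_lit 9) (u (nat_lit 8) (k (nat_lit 0x264d08))))))))) (a (u (nat_lit 4) (a (a (v (nat_lit 9) (v (nat_lit 9) (k (nat_lit 0x98cb8)))) (a (v (nat_lit 8) (a (v (nat_lit 9) (k (nat_lit 0x98c94))) (v (nat_lit 8) (k (nat_lit 0x1335c0))))) (v (nat_lit 7) (a (v (nat_lit 9) (k (nat_lit 0x97fce))) (a (v (nat_lit 8) (k (nat_lit 0x98aba))) (v (nat_lit 7) (k (nat_lit 0x98cdc)))))))) (a (v (nat_lit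 6) (a (v (nat_lit 9) (k (nat_lit 0x9d8a2))) (v (nat_lit 7) (k (nat_lit 0x98952))))) (a (v (nat_lit 5) (a (a (v (nat_lit 9) (k (nat_lit 0x12e508))) (v (nat_lit 8) (k (nat_lit 0x98c94)))) (a (v (nat_lit 7) (k (nat_lit 0x98cb2))) (v (nat_lit 5) (k (nat_lit 0x98cb8)))))) (v (nat_lit 4) (a (a (v (nat_lit 9) (k (nat_lit 0x98d2a))) (a (v (nat_lit 8) (k (nat_lit 0x134c64))) (v (nat_lit 7) (k (nat_lit 0x98ca0))))) (a (v (nat_lit 6) (k (nat_lit 0x9b508))) (a (v (nat_lit 5) (k (nat_lit 0x98d2a))) (v (nat_lit 4) (k (nat_lit 0x131988))))))))))) (v (nat_lit 3) (a (a (v (nat_lit 7) (u (nat_lit 9) (k (nat_lit 0x98d6c)))) (a (u (nat_lit 7) (v (nat_lit 7) (k (nat_lit 0x98cc4)))) (v (nat_lit 6) (u (nat_lit 9) (k (nat_lit 0x99efa)))))) (a (u (nat_lit 6) (a (v (nat_lit 7) (k (nat_lit 0x98cdc))) (v (nat_lit 6) (k (nat_lit 0x98cdc))))) (a (t (nat_lit 5) (nat_lit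 8) (nat_lit 9) (u (nat_lit 8) (k (nat_lit 0xbde5ddc)))) (u (nat_lit 4) (a (a (v (nat_lit 9) (k (nat_lit 0x98c5e))) (v (nat_lit 8) (k (nat_lit 0x12e67c)))) (a (v (nat_lit 7) (k (nat_lit 0x9649e))) (a (v (nat_lit 5) (k (nat_lit 0x98c5e))) (v (nat_lit 4) (k (nat_lit 0x1319a0)))))))))))))))) (a (u (nat_lit 3) (a (a (a (u (nat_lit 8) (v (nat_lit 8) (v (nat_lit 8) (k (nat_lit 0x131aa8))))) (v (nat_lit 7) (v (nat_lit 8) (v (nat_lit 9) (k (nat_lit 0x9ea06)))))) (a (u (nat_lit 7) (a (u (nat_lit 8) (v (nat_lit 8) (k (nat_lit 0x95df6)))) (v (nat_lit 7) (v (nat_lit 7) (k (nat_lit 0x9a554)))))) (a (v (nat_lit 6) (a (v (nat_lit 9) (v (nat_lit 9) (k (nat_lit 0xa01e8)))) (v (nat_lit 8) (v (nat_lit 9) (k (nat_lit 0x93906)))))) (u (nat_lit 6) (v (nat_lit 8) (u (nat_lit 9) (k (nat_lit 0x9c408)))))))) (a (a (v (nat_lit 5) (a (u (nat_lit 8) (v (nat_lit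 9) (k (nat_lit 0x137418)))) (a (v (nat_lit 7) (a (v (nat_lit 9) (k (nat_lit 0x92f0a))) (v (nat_lit 8) (k (nat_lit 0x9bcee))))) (u (nat_lit 6) (u (nat_lit 9) (k (nat_lit 0x9c408))))))) (u (nat_lit 5) (a (u (nat_lit 7) (v (nat_lit 7) (k (nat_lit 0x9a1e2)))) (v (nat_lit 5) (u (nat_lit 7) (k (nat_lit 0x95df6))))))) (a (v (nat_lit 4) (a (a (v (nat_lit 9) (v (nat_lit 9) (k (nat_lit 0x98cb8)))) (a (v (nat_lit 8) (a (v (nat_lit 9) (k (nat_lit 0x98c94))) (v (nat_lit 8) (k (nat_lit 0x1335c0))))) (v (nat_lit 7) (v (nat_lit 9) (k (nat_lit 0x9d8a2)))))) (a (v (nat_lit 6) (a (a (v (nat_lit 9) (k (nat_lit 0x97fce))) (v (nat_lit 8) (k (nat_lit 0x98aba)))) (a (v (nat_lit 7) (k (nat_lit 0x98952))) (v (nat_lit 6) (k (nat_lit 0x98cdc)))))) (a (v (nat_lit 5) (a (a (v (nat_lit 9) (k (nat_lit 0x12e508))) (v (nat_lit 8) (k (nat_lit 0x98c94)))) (a (v (nat_lit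 6) (k (nat_lit 0x98cb2))) (v (nat_lit 5) (k (nat_lit 0x98cb8)))))) (v (nat_lit 4) (a (a (v (nat_lit 9) (k (nat_lit 0x98c5e))) (v (nat_lit 8) (k (nat_lit 0x12e67c)))) (a (v (nat_lit 6) (k (nat_lit 0x9649e))) (v (nat_lit 5) (k (nat_lit 0x98c5e)))))))))) (a (t (nat_lit 4) (nat_lit 7) (nat_lit 9) (a (a (u (nat_lit 7) (a (u (nat_lit 9) (k (nat_lit 0x5ec59a8))) (u (nat_lit 8) (k (nat_lit 0x6a3e456))))) (u (nat_lit 6) (u (nat_lit 7) (k (nat_lit 0x749e686))))) (a (u (nat_lit 5) (u (nat_lit 7) (k (nat_lit 0x8355c2a)))) (u (nat_lit 4) (u (nat_lit 6) (k (nat_lit 0x749e686))))))) (v (nat_lit 3) (a (a (a (v (nat_lit 9) (v (nat_lit 9) (k (nat_lit 0x98cca)))) (v (nat_lit 8) (a (v (nat_lit 9) (k (nat_lit 0x98cfa))) (v (nat_lit 8) (k (nat_lit 0x131964)))))) (a (v (nat_lit 7) (a (v (nat_lit 8) (k (nat_lit 0x97764))) (v (nat_lit 7) (k (nat_lit 0x98cc4)))))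 (u (nat_lit 7) (u (nat_lit 8) (k (nat_lit 0x9a1e2)))))) (a (a (v (nat_lit 6) (a (v (nat_lit 9) (k (nat_lit 0x97a82))) (a (v (nat_lit 8) (k (nat_lit 0x98cfa))) (v (nat_lit 6) (k (nat_lit 0x98cdc)))))) (v (nat_lit 5) (a (a (v (nat_lit 9) (k (nat_lit 0x131a78))) (v (nat_lit 8) (k (nat_lit 0x98cfa)))) (a (v (nat_lit 7) (k (nat_lit 0x98730))) (a (v (nat_lit 6) (k (nat_lit 0x9a044))) (v (nat_lit 5) (k (nat_lit 0x98cca)))))))) (a (u (nat_lit 5) (v (nat_lit 6) (k (nat_lit 0x9a086)))) (a (v (nat_lit 4) (a (a (v (nat_lit 9) (k (nat_lit 0x98d2a))) (a (v (nat_lit 8) (k (nat_lit 0x134c64))) (v (nat_lit 7) (k (nat_lit 0x9b508))))) (a (v (nat_lit 6) (k (nat_lit 0x98ca0))) (a (v (nat_lit 5) (k (nat_lit 0x98d2a))) (v (nat_lit 4) (k (nat_lit 0x1319a0))))))) (v (nat_lit 3) (a (a (a (v (nat_lit 9) (k (nat_lit 0x98cb8))) (v (nat_lit 8) (k (nat_lit 0x1312e0))))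 (a (v (nat_lit 7) (k (nat_lit 0x99d08))) (u (nat_lit 7) (k (nat_lit 0x9a554))))) (a (a (v (nat_lit 6) (k (nat_lit 0x98cdc))) (v (nat_lit 5) (k (nat_lit 0x98cb8)))) (a (v (nat_lit 4) (k (nat_lit 0x131988))) (v (nat_lit 3) (k (nat_lit 0x13197c))))))))))))))))) (t (nat_lit 3) (nat_lit 6) (nat_lit 9) (a (a (v (nat_lit 8) (v (nat_lit 8) (u (nat_lit 9) (k (nat_lit 0x8a24ae))))) (a (v (nat_lit 5) (v (nat_lit 5) (u (nat_lit 9) (k (nat_lit 0x8a24ae))))) (u (nat_lit 5) (v (nat_lit 5) (u (nat_lit 6) (k (nat_lit 0x108198de))))))) (a (a (t (nat_lit 5) (nat_lit 8) (nat_lit 9) (u (nat_lit 5) (u (nat_lit 8) (k (nat_lit 0x4a64a44))))) (u (nat_lit 4) (a (u (nat_lit 6) (a (u (nat_lit 9) (k (nat_lit 0x5ec59a8))) (a (u (nat_lit 8) (k (nat_lit 0x6a3e456))) (u (nat_lit 7) (k (nat_lit 0x749e686)))))) (u (nat_lit 5) (u (nat_lit 6) (k (nat_lit 0x8355c2a)))))))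 (a (u (nat_lit 3) (a (a (u (nat_lit 8) (v (nat_lit 8) (k (nat_lit 0x108198de)))) (u (nat_lit 7) (a (u (nat_lit 9) (k (nat_lit 0x5ec59a8))) (u (nat_lit 8) (k (nat_lit 0x8355c2a)))))) (a (u (nat_lit 6) (u (nat_lit 8) (k (nat_lit 0x9a99e)))) (a (u (nat_lit 5) (a (u (nat_lit 7) (k (nat_lit 0x6a3e456))) (u (nat_lit 6) (k (nat_lit 0x9a99e))))) (u (nat_lit 4) (u (nat_lit 7) (k (nat_lit 0x749e686)))))))) (t (nat_lit 3) (nat_lit 6) (nat_lit 9) (t (nat_lit 5) (nat_lit 8) (nat_lit 9) (a (u (nat_lit 8) (k (nat_lit 0x3f3a1d6))) (u (nat_lit 5) (k (nat_lit 0x3f3a1d6)))))))))))) (a (v (nat_lit 2) (a (a (a (a (u (nat_lit 9) (a (v (nat_lit 9) (v (nat_lit 9) (k (nat_lit 0x12f870)))) (u (nat_lit 9) (v (nat_lit 9) (k (nat_lit 0x12ff84)))))) (v (nat_lit 8) (u (nat_lit 9) (v (nat_lit 9) (k (nat_lit 0x98d4e)))))) (a (u (nat_lit 8) (v (nat_lit 8) (a (v (nat_lit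 9) (k (nat_lit 0x98c82))) (v (nat_lit 8) (k (nat_lit 0x98cac)))))) (v (nat_lit 7) (a (u (nat_lit 9) (v (nat_lit 9) (k (nat_lit 0x98c94)))) (a (u (nat_lit 8) (a (v (nat_lit 9) (k (nat_lit 0x9a93e))) (v (nat_lit 8) (k (nat_lit 0x122fc4))))) (v (nat_lit 7) (u (nat_lit 8) (k (nat_lit 0x99efa))))))))) (a (a (u (nat_lit 7) (a (v (nat_lit 8) (v (nat_lit 8) (k (nat_lit 0xa01e8)))) (v (nat_lit 7) (a (a (v (nat_lit 9) (k (nat_lit 0x9a044))) (u (nat_lit 9) (k (nat_lit 0x9a086)))) (a (v (nat_lit 8) (k (nat_lit 0x97a82))) (v (nat_lit 7) (k (nat_lit 0x98cdc)))))))) (v (nat_lit 6) (a (a (u (nat_lit 9) (v (nat_lit 9) (k (nat_lit 0x9b658)))) (u (nat_lit 8) (v (nat_lit 8) (k (nat_lit 0x131958))))) (a (v (nat_lit 7) (u (nat_lit 8) (k (nat_lit 0x94e8a)))) (a (u (nat_lit 7) (a (v (nat_lit 9) (k (nat_lit 0x98cb2))) (a (v (nat_lit 8) (k (nat_lit 0x97fce)))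 (v (nat_lit 7) (k (nat_lit 0x98ca0)))))) (v (nat_lit 6) (a (u (nat_lit 8) (k (nat_lit 0x98d6c))) (u (nat_lit 7) (k (nat_lit 0x9649e)))))))))) (a (u (nat_lit 6) (a (v (nat_lit 8) (v (nat_lit 9) (k (nat_lit 0x92f0a)))) (a (v (nat_lit 7) (v (nat_lit 8) (k (nat_lit 0x9d8a2)))) (v (nat_lit 6) (a (v (nat_lit 9) (k (nat_lit 0x98730))) (a (v (nat_lit 7) (k (nat_lit 0x9b508))) (v (nat_lit 6) (k (nat_lit 0x99d08))))))))) (v (nat_lit 5) (a (a (u (nat_lit 9) (v (nat_lit 9) (k (nat_lit 0x98d4e)))) (a (v (nat_lit 8) (u (nat_lit 9) (k (nat_lit 0x1373dc)))) (u (nat_lit 8) (v (nat_lit 8) (k (nat_lit 0x98cca)))))) (a (a (v (nat_lit 7) (a (u (nat_lit 9) (k (nat_lit 0x99378))) (u (nat_lit 8) (k (nat_lit 0x9a93e))))) (u (nat_lit 7) (a (v (nat_lit 8) (k (nat_lit 0x93906))) (v (nat_lit 7) (k (nat_lit 0x98cfa)))))) (a (v (nat_lit 6) (a (u (nat_lit 9) (k (nat_lit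 0x95b92))) (u (nat_lit 7) (k (nat_lit 0x98aba))))) (u (nat_lit 6) (a (v (nat_lit 9) (k (nat_lit 0x9bcee))) (a (v (nat_lit 8) (k (nat_lit 0x9ea06))) (v (nat_lit 6) (k (nat_lit 0x97764))))))))))))) (a (a (a (u (nat_lit 5) (a (v (nat_lit 7) (v (nat_lit 9) (k (nat_lit 0x99378)))) (a (v (nat_lit 6) (v (nat_lit 9) (k (nat_lit 0x95b92)))) (v (nat_lit 5) (a (a (v (nat_lit 9) (k (nat_lit 0x98c82))) (v (nat_lit 8) (k (nat_lit 0x98cca)))) (a (v (nat_lit 7) (k (nat_lit 0x98c94))) (a (v (nat_lit 6) (k (nat_lit 0x9b658))) (v (nat_lit 5) (k (nat_lit 0x98cac)))))))))) (t (nat_lit 5) (nat_lit 8) (nat_lit 9) (u (nat_lit 9) (u (nat_lit 9) (k (nat_lit 0x132a8c)))))) (a (v (nat_lit 4) (a (a (a (u (nat_lit 9) (v (nat_lit 9) (k (nat_lit 0x98c94)))) (v (nat_lit 8) (u (nat_lit 9) (k (nat_lit 0x99378))))) (a (u (nat_lit 8) (a (v (nat_lit 9) (k (nat_lit 0x99378)))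 (v (nat_lit 8) (k (nat_lit 0x98c94))))) (v (nat_lit 7) (a (u (nat_lit 9) (k (nat_lit 0x139d1c))) (u (nat_lit 8) (k (nat_lit 0x139d1c))))))) (a (a (u (nat_lit 7) (a (v (nat_lit 9) (k (nat_lit 0x94ac4))) (a (v (nat_lit 8) (k (nat_lit 0x94ac4))) (v (nat_lit 7) (k (nat_lit 0x13194c)))))) (v (nat_lit 6) (u (nat_lit 7) (k (nat_lit 0x136110))))) (a (u (nat_lit 6) (a (a (v (nat_lit 9) (k (nat_lit 0x9a11c))) (v (nat_lit 8) (k (nat_lit 0x9a11c)))) (a (v (nat_lit 7) (k (nat_lit 0x12d320))) (v (nat_lit 6) (k (nat_lit 0x131a78)))))) (a (u (nat_lit 5) (a (a (v (nat_lit 9) (k (nat_lit 0x9a93e))) (v (nat_lit 8) (k (nat_lit 0x9a93e)))) (a (v (nat_lit 7) (k (nat_lit 0x139d1c))) (a (v (nat_lit 6) (k (nat_lit 0x12a608))) (v (nat_lit 5) (k (nat_lit 0x122fc4))))))) (v (nat_lit 4) (u (nat_lit 5) (k (nat_lit 0x99efa))))))))) (u (nat_lit 4) (a (a (v (nat_lit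 7) (v (nat_lit 9) (k (nat_lit 0x94ac4)))) (u (nat_lit 6) (u (nat_lit 9) (k (nat_lit 0x9771c))))) (a (v (nat_lit 5) (a (v (nat_lit 8) (k (nat_lit 0x93906))) (a (v (nat_lit 7) (k (nat_lit 0x94ac4))) (v (nat_lit 5) (k (nat_lit 0xa01e8)))))) (v (nat_lit 4) (a (a (v (nat_lit 9) (k (nat_lit 0x9a044))) (a (u (nat_lit 9) (k (nat_lit 0x9a086))) (v (nat_lit 8) (k (nat_lit 0x98cfa))))) (a (a (v (nat_lit 7) (k (nat_lit 0x13194c))) (v (nat_lit 6) (k (nat_lit 0x987a8)))) (a (v (nat_lit 5) (k (nat_lit 0x97a82))) (v (nat_lit 4) (k (nat_lit 0x98cdc)))))))))))) (a (a (t (nat_lit 4) (nat_lit 7) (nat_lit 9) (a (a (u (nat_lit 8) (u (nat_lit 8) (k (nat_lit 0x3dd3340)))) (u (nat_lit 7) (u (nat_lit 8) (k (nat_lit 0x49106f4))))) (a (u (nat_lit 5) (u (nat_lit 5) (k (nat_lit 0x3dd3340)))) (u (nat_lit 4) (u (nat_lit 5) (k (nat_lit 0x49106f4))))))) (v (nat_lit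 3) (a (a (a (u (nat_lit 9) (v (nat_lit 9) (k (nat_lit 0x9b658)))) (v (nat_lit 8) (u (nat_lit 9) (k (nat_lit 0x95b92))))) (a (u (nat_lit 8) (a (v (nat_lit 9) (k (nat_lit 0x95b92))) (v (nat_lit 8) (k (nat_lit 0x9b658))))) (a (v (nat_lit 7) (u (nat_lit 8) (k (nat_lit 0x12a608)))) (u (nat_lit 7) (v (nat_lit 7) (k (nat_lit 0x987a8))))))) (a (a (v (nat_lit 6) (a (u (nat_lit 9) (k (nat_lit 0x12a608))) (u (nat_lit 7) (k (nat_lit 0x9885c))))) (a (u (nat_lit 6) (a (v (nat_lit 7) (k (nat_lit 0x9885c))) (v (nat_lit 6) (k (nat_lit 0x987a8))))) (u (nat_lit 5) (v (nat_lit 5) (k (nat_lit 0x131958)))))) (a (v (nat_lit 4) (u (nat_lit 5) (k (nat_lit 0x94e8a)))) (a (u (nat_lit 4) (a (a (v (nat_lit 9) (k (nat_lit 0x98cb2))) (a (v (nat_lit 8) (k (nat_lit 0x98aba))) (v (nat_lit 7) (k (nat_lit 0x136110))))) (a (v (nat_lit 6) (k (nat_lit 0x9885c))) (a (v (nat_lit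 5) (k (nat_lit 0x97fce))) (v (nat_lit 4) (k (nat_lit 0x98ca0))))))) (v (nat_lit 3) (a (u (nat_lit 5) (k (nat_lit 0x98d6c))) (u (nat_lit 4) (k (nat_lit 0x9649e))))))))))) (a (u (nat_lit 3) (a (a (v (nat_lit 8) (v (nat_lit 9) (k (nat_lit 0x9bcee)))) (a (v (nat_lit 7) (v (nat_lit 9) (k (nat_lit 0x9a11c)))) (u (nat_lit 7) (u (nat_lit 9) (k (nat_lit 0x9771c)))))) (a (v (nat_lit 5) (a (v (nat_lit 9) (k (nat_lit 0x92f0a))) (a (v (nat_lit 8) (k (nat_lit 0x9ea06))) (v (nat_lit 7) (k (nat_lit 0x9a11c)))))) (a (v (nat_lit 4) (a (v (nat_lit 7) (k (nat_lit 0x12d320))) (a (v (nat_lit 6) (k (nat_lit 0x9885c))) (v (nat_lit 5) (k (nat_lit 0x9d8a2)))))) (v (nat_lit 3) (a (a (v (nat_lit 9) (k (nat_lit 0x98730))) (a (v (nat_lit 8) (k (nat_lit 0x97764))) (v (nat_lit 7) (k (nat_lit 0x131a78))))) (a (v (nat_lit 6) (k (nat_lit 0x987a8))) (a (v (nat_lit 4)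 (k (nat_lit 0x9b508))) (v (nat_lit 3) (k (nat_lit 0x99d08))))))))))) (a (t (nat_lit 3) (nat_lit 6) (nat_lit 9) (a (a (u (nat_lit 8) (v (nat_lit 9) (k (nat_lit 0x2aa3d04)))) (a (u (nat_lit 7) (v (nat_lit 9) (k (nat_lit 0x2efdec8)))) (u (nat_lit 6) (v (nat_lit 9) (k (nat_lit 0xc07ecc6)))))) (a (u (nat_lit 5) (v (nat_lit 9) (k (nat_lit 0x2aa3d04)))) (a (u (nat_lit 4) (a (v (nat_lit 9) (k (nat_lit 0x2efdec8))) (a (u (nat_lit 7) (k (nat_lit 0xd197294))) (u (nat_lit 6) (k (nat_lit 0x2ab3f7c)))))) (u (nat_lit 3) (a (v (nat_lit 9) (k (nat_lit 0xc07ecc6))) (a (u (nat_lit 7) (k (nat_lit 0x2ab3f7c))) (u (nat_lit 6) (k (nat_lit 0x6ff9714)))))))))) (v (nat_lit 2) (a (a (a (v (nat_lit 7) (u (nat_lit 8) (k (nat_lit 0x99efa)))) (u (nat_lit 7) (v (nat_lit 7) (k (nat_lit 0x98cdc))))) (a (v (nat_lit 6) (a (u (nat_lit 8) (k (nat_lit 0x98d6c))) (u (nat_lit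 7) (k (nat_lit 0x98cdc))))) (u (nat_lit 6) (v (nat_lit 6) (k (nat_lit 0x98cc4)))))) (a (a (t (nat_lit 5) (nat_lit 8) (nat_lit 9) (u (nat_lit 9) (k (nat_lit 0xbde5ddc)))) (v (nat_lit 4) (u (nat_lit 5) (k (nat_lit 0x99efa))))) (a (u (nat_lit 4) (v (nat_lit 4) (k (nat_lit 0x98cdc)))) (a (v (nat_lit 3) (a (u (nat_lit 5) (k (nat_lit 0x98d6c))) (u (nat_lit 4) (k (nat_lit 0x98cdc))))) (u (nat_lit 3) (v (nat_lit 3) (k (nat_lit 0x98cc4))))))))))))))) (a (u (nat_lit 2) (a (a (a (u (nat_lit 9) (v (nat_lit 9) (v (nat_lit 9) (k (nat_lit 0x131aa8))))) (a (v (nat_lit 7) (v (nat_lit 8) (a (v (nat_lit 9) (k (nat_lit 0x93906))) (v (nat_lit 8) (k (nat_lit 0xa01e8)))))) (u (nat_lit 7) (u (nat_lit 8) (v (nat_lit 9) (k (nat_lit 0x9c408))))))) (a (a (v (nat_lit 6) (v (nat_lit 8) (v (nat_lit 9) (k (nat_lit 0x9ea06))))) (u (nat_lit 6) (a (u (nat_lit 9) (v (nat_lit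 9) (k (nat_lit 0x95df6)))) (v (nat_lit 6) (v (nat_lit 6) (k (nat_lit 0x9a554))))))) (a (v (nat_lit 5) (a (v (nat_lit 8) (u (nat_lit 9) (k (nat_lit 0x137418)))) (a (u (nat_lit 7) (u (nat_lit 8) (k (nat_lit 0x9c408)))) (v (nat_lit 6) (a (v (nat_lit 9) (k (nat_lit 0x9bcee))) (v (nat_lit 8) (k (nat_lit 0x92f0a)))))))) (u (nat_lit 5) (a (u (nat_lit 6) (v (nat_lit 6) (k (nat_lit 0x9a1e2)))) (v (nat_lit 5) (u (nat_lit 6) (k (nat_lit 0x95df6))))))))) (a (a (v (nat_lit 4) (a (v (nat_lit 7) (v (nat_lit 8) (k (nat_lit 0x94ac4)))) (a (u (nat_lit 6) (u (nat_lit 8) (k (nat_lit 0x9771c)))) (v (nat_lit 5) (a (v (nat_lit 9) (k (nat_lit 0x93906))) (a (v (nat_lit 7) (k (nat_lit 0x94ac4))) (v (nat_lit 5) (k (nat_lit 0xa01e8))))))))) (a (u (nat_lit 4) (u (nat_lit 5) (a (v (nat_lit 9) (k (nat_lit 0x9c408))) (a (v (nat_lit 8) (k (nat_lit 0x9c408))) (u (nat_lit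 6) (k (nat_lit 0x12a4b8))))))) (t (nat_lit 4) (nat_lit 7) (nat_lit 9) (t (nat_lit 5) (nat_lit 8) (nat_lit 9) (a (u (nat_lit 9) (k (nat_lit 0x73108a4))) (a (u (nat_lit 8) (k (nat_lit 0x1a10ae6))) (u (nat_lit 5) (k (nat_lit 0x1a10ae6))))))))) (a (a (v (nat_lit 3) (a (a (v (nat_lit 8) (v (nat_lit 9) (k (nat_lit 0x9bcee)))) (v (nat_lit 6) (v (nat_lit 8) (k (nat_lit 0x9a11c))))) (a (u (nat_lit 6) (u (nat_lit 8) (k (nat_lit 0x9771c)))) (v (nat_lit 5) (a (v (nat_lit 9) (k (nat_lit 0x9ea06))) (a (v (nat_lit 8) (k (nat_lit 0x92f0a))) (v (nat_lit 6) (k (nat_lit 0x9a11c))))))))) (u (nat_lit 3) (a (a (u (nat_lit 9) (v (nat_lit 9) (k (nat_lit 0x95df6)))) (a (u (nat_lit 8) (v (nat_lit 8) (k (nat_lit 0x95df6)))) (u (nat_lit 7) (u (nat_lit 8) (k (nat_lit 0x12a4b8)))))) (a (u (nat_lit 6) (u (nat_lit 9) (k (nat_lit 0x12a4b8)))) (a (u (nat_lit 5) (a (v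 (nat_lit 7) (k (nat_lit 0x9771c))) (v (nat_lit 6) (k (nat_lit 0x9771c))))) (v (nat_lit 3) (a (u (nat_lit 8) (k (nat_lit 0x9a1e2))) (v (nat_lit 3) (k (nat_lit 0x9a554)))))))))) (a (t (nat_lit 3) (nat_lit 6) (nat_lit 9) (t (nat_lit 5) (nat_lit 8) (nat_lit 9) (u (nat_lit 9) (k (nat_lit 0x237cccc))))) (v (nat_lit 2) (a (a (a (v (nat_lit 9) (v (nat_lit 9) (k (nat_lit 0x131964)))) (a (v (nat_lit 8) (a (v (nat_lit 9) (k (nat_lit 0x98cfa))) (v (nat_lit 8) (k (nat_lit 0x98cca))))) (v (nat_lit 7) (a (v (nat_lit 9) (k (nat_lit 0x98cfa))) (a (v (nat_lit 8) (k (nat_lit 0x97a82))) (v (nat_lit 7) (k (nat_lit 0x98cdc)))))))) (a (v (nat_lit 6) (a (v (nat_lit 9) (k (nat_lit 0x97764))) (v (nat_lit 6) (k (nat_lit 0x98cc4))))) (a (u (nat_lit 6) (u (nat_lit 9) (k (nat_lit 0x9a1e2)))) (v (nat_lit 5) (a (a (v (nat_lit 9) (k (nat_lit 0x98cfa))) (v (nat_lit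 8) (k (nat_lit 0x131a78)))) (a (v (nat_lit 7) (k (nat_lit 0x9a044))) (a (v (nat_lit 6) (k (nat_lit 0x98730))) (v (nat_lit 5) (k (nat_lit 0x98cca)))))))))) (a (a (u (nat_lit 5) (v (nat_lit 7) (k (nat_lit 0x9a086)))) (a (v (nat_lit 4) (a (a (v (nat_lit 9) (k (nat_lit 0x98cfa))) (a (v (nat_lit 8) (k (nat_lit 0x9a044))) (u (nat_lit 8) (k (nat_lit 0x9a086))))) (a (a (v (nat_lit 7) (k (nat_lit 0x13194c))) (v (nat_lit 6) (k (nat_lit 0x987a8)))) (a (v (nat_lit 5) (k (nat_lit 0x97a82))) (v (nat_lit 4) (k (nat_lit 0x98cdc))))))) (t (nat_lit 4) (nat_lit 7) (nat_lit 9) (u (nat_lit 9) (k (nat_lit 0x132af8)))))) (a (a (v (nat_lit 3) (a (a (v (nat_lit 9) (k (nat_lit 0x97764))) (v (nat_lit 8) (k (nat_lit 0x98730)))) (a (v (nat_lit 7) (k (nat_lit 0x987a8))) (a (v (nat_lit 6) (k (nat_lit 0x131a78))) (v (nat_lit 3) (k (nat_lit 0x98cc4))))))) (u (nat_lit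 3) (u (nat_lit 9) (k (nat_lit 0x9a1e2))))) (a (t (nat_lit 3) (nat_lit 6) (nat_lit 9) (t (nat_lit 5) (nat_lit 8) (nat_lit 9) (k (nat_lit 0x1322e8)))) (v (nat_lit 2) (a (a (a (v (nat_lit 9) (k (nat_lit 0x1312e0))) (v (nat_lit 8) (k (nat_lit 0x98cb8)))) (a (v (nat_lit 7) (k (nat_lit 0x98cdc))) (a (v (nat_lit 6) (k (nat_lit 0x99d08))) (u (nat_lit 6) (k (nat_lit 0x9a554)))))) (a (a (v (nat_lit 5) (k (nat_lit 0x98cb8))) (v (nat_lit 4) (k (nat_lit 0x98cdc)))) (a (v (nat_lit 3) (k (nat_lit 0x99d08))) (a (u (nat_lit 3) (k (nat_lit 0x9a554))) (v (nat_lit 2) (k (nat_lit 0x13197c)))))))))))))))))) (t (nat_lit 2) (nat_lit 4) (nat_lit 5) (a (a (a (v (nat_lit 7) (a (u (nat_lit 9) (u (nat_lit 9) (k (nat_lit 0x3dd3340)))) (u (nat_lit 8) (u (nat_lit 8) (k (nat_lit 0x3dd3340)))))) (v (nat_lit 5) (v (nat_lit 6) (a (u (nat_lit 9) (k (nat_lit 0x2aa3d04)))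 (u (nat_lit 8) (k (nat_lit 0x2aa3d04))))))) (a (u (nat_lit 5) (a (v (nat_lit 9) (v (nat_lit 9) (k (nat_lit 0x8a24ae)))) (a (v (nat_lit 8) (v (nat_lit 8) (k (nat_lit 0x8a24ae)))) (u (nat_lit 7) (v (nat_lit 7) (k (nat_lit 0x132af8))))))) (a (t (nat_lit 5) (nat_lit 8) (nat_lit 9) (a (a (u (nat_lit 8) (u (nat_lit 9) (k (nat_lit 0x4a64a44)))) (u (nat_lit 7) (a (u (nat_lit 9) (k (nat_lit 0x1a10ae6))) (u (nat_lit 8) (k (nat_lit 0x1a10ae6)))))) (a (u (nat_lit 6) (v (nat_lit 6) (k (nat_lit 0x1322e8)))) (u (nat_lit 5) (a (u (nat_lit 7) (k (nat_lit 0x73108a4))) (u (nat_lit 6) (k (nat_lit 0x237cccc)))))))) (u (nat_lit 4) (a (u (nat_lit 8) (v (nat_lit 8) (k (nat_lit 0x108198de)))) (a (v (nat_lit 7) (u (nat_lit 9) (k (nat_lit 0x49106f4)))) (v (nat_lit 5) (v (nat_lit 6) (k (nat_lit 0xc07ecc6)))))))))) (a (a (t (nat_lit 4) (nat_lit 7) (nat_lit 9) (u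 (nat_lit 4) (v (nat_lit 4) (k (nat_lit 0x13725c))))) (u (nat_lit 3) (a (v (nat_lit 5) (v (nat_lit 6) (k (nat_lit 0x2efdec8)))) (v (nat_lit 3) (t (nat_lit 4) (nat_lit 7) (nat_lit 9) (k (nat_lit 0x1320c0))))))) (a (t (nat_lit 3) (nat_lit 6) (nat_lit 9) (u (nat_lit 3) (t (nat_lit 4) (nat_lit 7) (nat_lit 9) (k (nat_lit 0x98e14))))) (a (u (nat_lit 2) (a (a (u (nat_lit 9) (v (nat_lit 9) (k (nat_lit 0x108198de)))) (v (nat_lit 7) (u (nat_lit 8) (k (nat_lit 0x49106f4))))) (a (v (nat_lit 5) (v (nat_lit 6) (k (nat_lit 0xc07ecc6)))) (a (u (nat_lit 4) (a (u (nat_lit 9) (k (nat_lit 0x9a99e))) (a (u (nat_lit 8) (k (nat_lit 0x9a99e))) (v (nat_lit 6) (k (nat_lit 0x6ff9714)))))) (u (nat_lit 3) (a (a (u (nat_lit 9) (k (nat_lit 0x8355c2a))) (u (nat_lit 8) (k (nat_lit 0x6a3e456)))) (a (v (nat_lit 6) (k (nat_lit 0x2ab3f7c))) (u (nat_lit 5) (k (nat_lit 0x5ec59a8))))))))))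 (t (nat_lit 2) (nat_lit 4) (nat_lit 5) (t (nat_lit 5) (nat_lit 8) (nat_lit 9) (a (u (nat_lit 9) (k (nat_lit 0x3f3a1d6))) (u (nat_lit 8) (k (nat_lit 0x3f3a1d6)))))))))))))) (a (a (t (nat_lit 2) (nat_lit 7) (nat_lit 8) (a (a (a (u (nat_lit 8) (v (nat_lit 9) (v (nat_lit 9) (k (nat_lit 0x8a24ae))))) (a (v (nat_lit 5) (v (nat_lit 5) (u (nat_lit 8) (k (nat_lit 0x8a24ae))))) (u (nat_lit 5) (v (nat_lit 5) (u (nat_lit 7) (k (nat_lit 0x108198de))))))) (a (t (nat_lit 5) (nat_lit 8) (nat_lit 9) (u (nat_lit 5) (u (nat_lit 9) (k (nat_lit 0x4a64a44))))) (a (v (nat_lit 4) (a (u (nat_lit 9) (u (nat_lit 9) (k (nat_lit 0x3dd3340)))) (a (u (nat_lit 7) (u (nat_lit 9) (k (nat_lit 0x49106f4)))) (u (nat_lit 5) (u (nat_lit 5) (k (nat_lit 0x3dd3340))))))) (u (nat_lit 4) (a (t (nat_lit 5) (nat_lit 8) (nat_lit 9) (a (u (nat_lit 9) (k (nat_lit 0x1a10ae6))) (a (u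 (nat_lit 8) (k (nat_lit 0x73108a4))) (u (nat_lit 5) (k (nat_lit 0x1a10ae6)))))) (v (nat_lit 4) (u (nat_lit 8) (k (nat_lit 0x132af8))))))))) (a (a (t (nat_lit 4) (nat_lit 7) (nat_lit 9) (a (u (nat_lit 7) (v (nat_lit 7) (k (nat_lit 0x13725c)))) (u (nat_lit 6) (v (nat_lit 6) (k (nat_lit 0x1320c0)))))) (a (v (nat_lit 3) (a (a (v (nat_lit 8) (u (nat_lit 9) (k (nat_lit 0x2aa3d04)))) (u (nat_lit 7) (v (nat_lit 8) (k (nat_lit 0xc07ecc6))))) (a (u (nat_lit 6) (v (nat_lit 8) (k (nat_lit 0x2efdec8)))) (u (nat_lit 5) (v (nat_lit 8) (k (nat_lit 0x2aa3d04))))))) (u (nat_lit 3) (a (t (nat_lit 5) (nat_lit 8) (nat_lit 9) (u (nat_lit 8) (k (nat_lit 0x237cccc)))) (v (nat_lit 3) (t (nat_lit 5) (nat_lit 8) (nat_lit 9) (k (nat_lit 0x1322e8)))))))) (a (a (t (nat_lit 3) (nat_lit 6) (nat_lit 9) (t (nat_lit 4) (nat_lit 7) (nat_lit 9) (u (nat_lit 6) (k (nat_lit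 0x98e14))))) (u (nat_lit 2) (a (a (u (nat_lit 9) (v (nat_lit 9) (k (nat_lit 0x108198de)))) (a (u (nat_lit 7) (u (nat_lit 9) (k (nat_lit 0x9a99e)))) (u (nat_lit 6) (a (u (nat_lit 9) (k (nat_lit 0x8355c2a))) (u (nat_lit 8) (k (nat_lit 0x5ec59a8))))))) (a (u (nat_lit 5) (a (u (nat_lit 7) (k (nat_lit 0x9a99e))) (u (nat_lit 6) (k (nat_lit 0x6a3e456))))) (a (v (nat_lit 4) (u (nat_lit 5) (k (nat_lit 0x49106f4)))) (v (nat_lit 3) (a (v (nat_lit 8) (k (nat_lit 0xc07ecc6))) (a (u (nat_lit 7) (k (nat_lit 0x6ff9714))) (u (nat_lit 6) (k (nat_lit 0x2ab3f7c))))))))))) (a (t (nat_lit 2) (nat_lit 4) (nat_lit 5) (a (t (nat_lit 4) (nat_lit 7) (nat_lit 9) (a (u (nat_lit 7) (k (nat_lit 0x27d09f8))) (u (nat_lit 4) (k (nat_lit 0x27d09f8))))) (a (t (nat_lit 3) (nat_lit 6) (nat_lit 9) (a (u (nat_lit 6) (k (nat_lit 0x31a334))) (u (nat_lit 3) (k (nat_lit 0x31a334)))))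 (u (nat_lit 2) (a (t (nat_lit 4) (nat_lit 7) (nat_lit 9) (k (nat_lit 0x27d09f8))) (v (nat_lit 2) (k (nat_lit 0x13725c)))))))) (t (nat_lit 2) (nat_lit 7) (nat_lit 8) (t (nat_lit 5) (nat_lit 8) (nat_lit 9) (a (u (nat_lit 9) (k (nat_lit 0x3f3a1d6))) (u (nat_lit 5) (k (nat_lit 0x3f3a1d6))))))))))) (a (v (nat_lit 1) (a (a (a (a (u (nat_lit 9) (a (v (nat_lit 9) (v (nat_lit 9) (k (nat_lit 0x12f870)))) (u (nat_lit 9) (v (nat_lit 9) (k (nat_lit 0x12ff84)))))) (v (nat_lit 8) (u (nat_lit 9) (v (nat_lit 9) (k (nat_lit 0x98d4e)))))) (a (u (nat_lit 8) (v (nat_lit 8) (a (v (nat_lit 9) (k (nat_lit 0x98c82))) (v (nat_lit 8) (k (nat_lit 0x98cac)))))) (v (nat_lit 7) (a (u (nat_lit 9) (v (nat_lit 9) (k (nat_lit 0x9b658)))) (a (u (nat_lit 8) (v (nat_lit 8) (k (nat_lit 0x131958)))) (v (nat_lit 7) (u (nat_lit 8) (k (nat_lit 0x98d6c))))))))) (a (a (u (nat_lit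 7) (a (v (nat_lit 8) (v (nat_lit 9) (k (nat_lit 0x92f0a)))) (v (nat_lit 7) (a (v (nat_lit 9) (k (nat_lit 0x98730))) (v (nat_lit 7) (k (nat_lit 0x99d08))))))) (v (nat_lit 6) (a (a (u (nat_lit 9) (v (nat_lit 9) (k (nat_lit 0x98c94)))) (u (nat_lit 8) (a (v (nat_lit 9) (k (nat_lit 0x9a93e))) (v (nat_lit 8) (k (nat_lit 0x122fc4)))))) (a (v (nat_lit 7) (u (nat_lit 8) (k (nat_lit 0x94e8a)))) (a (u (nat_lit 7) (a (v (nat_lit 8) (k (nat_lit 0x9d8a2))) (v (nat_lit 7) (k (nat_lit 0x9b508))))) (v (nat_lit 6) (u (nat_lit 8) (k (nat_lit 0x99efa))))))))) (a (u (nat_lit 6) (a (v (nat_lit 8) (v (nat_lit 8) (k (nat_lit 0xa01e8)))) (a (v (nat_lit 7) (a (v (nat_lit 9) (k (nat_lit 0x98cb2))) (a (v (nat_lit 8) (k (nat_lit 0x97fce))) (v (nat_lit 7) (k (nat_lit 0x9649e)))))) (v (nat_lit 6) (a (a (v (nat_lit 9) (k (nat_lit 0x9a044))) (u (nat_lit 9) (k (nat_lit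 0x9a086)))) (a (v (nat_lit 8) (k (nat_lit 0x97a82))) (a (v (nat_lit 7) (k (nat_lit 0x98ca0))) (v (nat_lit 6) (k (nat_lit 0x98cdc)))))))))) (a (v (nat_lit 5) (a (a (u (nat_lit 9) (v (nat_lit 9) (k (nat_lit 0x98d4e)))) (a (v (nat_lit 8) (u (nat_lit 9) (k (nat_lit 0x1373dc)))) (u (nat_lit 8) (v (nat_lit 8) (k (nat_lit 0x98cca)))))) (a (a (v (nat_lit 7) (u (nat_lit 9) (k (nat_lit 0x95b92)))) (u (nat_lit 7) (a (v (nat_lit 9) (k (nat_lit 0x9bcee))) (a (v (nat_lit 8) (k (nat_lit 0x9ea06))) (v (nat_lit 7) (k (nat_lit 0x97764))))))) (a (v (nat_lit 6) (a (u (nat_lit 9) (k (nat_lit 0x99378))) (u (nat_lit 8) (k (nat_lit 0x9a93e))))) (u (nat_lit 6) (a (v (nat_lit 8) (k (nat_lit 0x93906))) (a (v (nat_lit 7) (k (nat_lit 0x98aba))) (v (nat_lit 6) (k (nat_lit 0x98cfa)))))))))) (u (nat_lit 5) (a (v (nat_lit 7) (v (nat_lit 9) (k (nat_lit 0x95b92)))) (a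 (v (nat_lit 6) (v (nat_lit 9) (k (nat_lit 0x99378)))) (v (nat_lit 5) (a (a (v (nat_lit 9) (k (nat_lit 0x98c82))) (v (nat_lit 8) (k (nat_lit 0x98cca)))) (a (v (nat_lit 7) (k (nat_lit 0x9b658))) (a (v (nat_lit 6) (k (nat_lit 0x98c94))) (v (nat_lit 5) (k (nat_lit 0x98cac)))))))))))))) (a (a (a (t (nat_lit 5) (nat_lit 8) (nat_lit 9) (u (nat_lit 9) (u (nat_lit 9) (k (nat_lit 0x132a8c))))) (v (nat_lit 4) (a (a (a (u (nat_lit 9) (v (nat_lit 9) (k (nat_lit 0x9b658)))) (v (nat_lit 8) (u (nat_lit 9) (k (nat_lit 0x95b92))))) (a (u (nat_lit 8) (a (v (nat_lit 9) (k (nat_lit 0x95b92))) (v (nat_lit 8) (k (nat_lit 0x9b658))))) (v (nat_lit 7) (u (nat_lit 9) (k (nat_lit 0x12a608)))))) (a (a (u (nat_lit 7) (v (nat_lit 7) (k (nat_lit 0x987a8)))) (v (nat_lit 6) (a (u (nat_lit 8) (k (nat_lit 0x12a608))) (u (nat_lit 7) (k (nat_lit 0x9885c)))))) (a (u (nat_lit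 6) (a (v (nat_lit 7) (k (nat_lit 0x9885c))) (v (nat_lit 6) (k (nat_lit 0x987a8))))) (a (u (nat_lit 5) (v (nat_lit 5) (k (nat_lit 0x131958)))) (v (nat_lit 4) (u (nat_lit 5) (k (nat_lit 0x98d6c)))))))))) (a (u (nat_lit 4) (a (a (v (nat_lit 8) (v (nat_lit 9) (k (nat_lit 0x9bcee)))) (v (nat_lit 6) (v (nat_lit 9) (k (nat_lit 0x9a11c))))) (a (u (nat_lit 6) (u (nat_lit 9) (k (nat_lit 0x9771c)))) (a (v (nat_lit 5) (a (v (nat_lit 9) (k (nat_lit 0x92f0a))) (a (v (nat_lit 8) (k (nat_lit 0x9ea06))) (v (nat_lit 6) (k (nat_lit 0x9a11c)))))) (v (nat_lit 4) (a (a (v (nat_lit 9) (k (nat_lit 0x98730))) (v (nat_lit 8) (k (nat_lit 0x97764)))) (a (v (nat_lit 7) (k (nat_lit 0x987a8))) (a (v (nat_lit 6) (k (nat_lit 0x131a78))) (v (nat_lit 4) (k (nat_lit 0x99d08))))))))))) (a (t (nat_lit 4) (nat_lit 7) (nat_lit 9) (a (a (u (nat_lit 8) (v (nat_lit 9) (k (nat_lit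 0x2aa3d04)))) (u (nat_lit 7) (v (nat_lit 9) (k (nat_lit 0xc07ecc6))))) (a (u (nat_lit 6) (v (nat_lit 9) (k (nat_lit 0x2efdec8)))) (a (u (nat_lit 5) (v (nat_lit 9) (k (nat_lit 0x2aa3d04)))) (u (nat_lit 4) (a (v (nat_lit 9) (k (nat_lit 0xc07ecc6))) (a (u (nat_lit 7) (k (nat_lit 0x6ff9714))) (u (nat_lit 6) (k (nat_lit 0x2ab3f7c)))))))))) (v (nat_lit 3) (a (a (a (u (nat_lit 9) (v (nat_lit 9) (k (nat_lit 0x98c94)))) (v (nat_lit 8) (u (nat_lit 9) (k (nat_lit 0x99378))))) (a (u (nat_lit 8) (a (v (nat_lit 9) (k (nat_lit 0x99378))) (v (nat_lit 8) (k (nat_lit 0x98c94))))) (a (u (nat_lit 7) (a (v (nat_lit 9) (k (nat_lit 0x9a11c))) (a (v (nat_lit 8) (k (nat_lit 0x9a11c))) (v (nat_lit 7) (k (nat_lit 0x131a78)))))) (v (nat_lit 6) (a (u (nat_lit 9) (k (nat_lit 0x139d1c))) (a (u (nat_lit 8) (k (nat_lit 0x139d1c))) (u (nat_lit 7) (k (nat_lit 0x12d320)))))))))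 (a (a (u (nat_lit 6) (a (a (v (nat_lit 9) (k (nat_lit 0x94ac4))) (v (nat_lit 8) (k (nat_lit 0x94ac4)))) (a (v (nat_lit 7) (k (nat_lit 0x136110))) (v (nat_lit 6) (k (nat_lit 0x13194c)))))) (u (nat_lit 5) (a (a (v (nat_lit 9) (k (nat_lit 0x9a93e))) (v (nat_lit 8) (k (nat_lit 0x9a93e)))) (a (v (nat_lit 7) (k (nat_lit 0x12a608))) (a (v (nat_lit 6) (k (nat_lit 0x139d1c))) (v (nat_lit 5) (k (nat_lit 0x122fc4)))))))) (a (v (nat_lit 4) (u (nat_lit 5) (k (nat_lit 0x94e8a)))) (a (u (nat_lit 4) (a (a (v (nat_lit 7) (k (nat_lit 0x9885c))) (v (nat_lit 6) (k (nat_lit 0x12d320)))) (a (v (nat_lit 5) (k (nat_lit 0x9d8a2))) (v (nat_lit 4) (k (nat_lit 0x9b508)))))) (v (nat_lit 3) (u (nat_lit 5) (k (nat_lit 0x99efa)))))))))))) (a (a (u (nat_lit 3) (a (a (u (nat_lit 7) (u (nat_lit 9) (k (nat_lit 0x9771c)))) (a (v (nat_lit 6) (v (nat_lit 9) (k (nat_lit 0x94ac4))))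 (v (nat_lit 5) (a (v (nat_lit 8) (k (nat_lit 0x93906))) (a (v (nat_lit 6) (k (nat_lit 0x94ac4))) (v (nat_lit 5) (k (nat_lit 0xa01e8)))))))) (a (v (nat_lit 4) (a (a (v (nat_lit 9) (k (nat_lit 0x98cb2))) (a (v (nat_lit 8) (k (nat_lit 0x98aba))) (v (nat_lit 7) (k (nat_lit 0x9885c))))) (a (v (nat_lit 6) (k (nat_lit 0x136110))) (a (v (nat_lit 5) (k (nat_lit 0x97fce))) (v (nat_lit 4) (k (nat_lit 0x9649e))))))) (a (t (nat_lit 4) (nat_lit 7) (nat_lit 9) (a (v (nat_lit 9) (k (nat_lit 0x2efdec8))) (a (u (nat_lit 7) (k (nat_lit 0x2ab3f7c))) (u (nat_lit 6) (k (nat_lit 0xd197294)))))) (v (nat_lit 3) (a (a (a (v (nat_lit 9) (k (nat_lit 0x9a044))) (u (nat_lit 9) (k (nat_lit 0x9a086)))) (a (v (nat_lit 8) (k (nat_lit 0x98cfa))) (v (nat_lit 7) (k (nat_lit 0x987a8))))) (a (a (v (nat_lit 6) (k (nat_lit 0x13194c))) (v (nat_lit 5) (k (nat_lit 0x97a82))))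 (a (v (nat_lit 4) (k (nat_lit 0x98ca0))) (v (nat_lit 3) (k (nat_lit 0x98cdc))))))))))) (t (nat_lit 3) (nat_lit 6) (nat_lit 9) (a (a (u (nat_lit 8) (u (nat_lit 8) (k (nat_lit 0x3dd3340)))) (u (nat_lit 6) (u (nat_lit 8) (k (nat_lit 0x49106f4))))) (a (u (nat_lit 5) (u (nat_lit 5) (k (nat_lit 0x3dd3340)))) (u (nat_lit 3) (u (nat_lit 5) (k (nat_lit 0x49106f4)))))))) (a (v (nat_lit 2) (a (a (a (u (nat_lit 9) (v (nat_lit 9) (k (nat_lit 0x25f068)))) (v (nat_lit 7) (u (nat_lit 8) (k (nat_lit 0x94e8a))))) (a (v (nat_lit 6) (a (u (nat_lit 8) (k (nat_lit 0x94e8a))) (u (nat_lit 7) (k (nat_lit 0x98952))))) (u (nat_lit 6) (v (nat_lit 7) (k (nat_lit 0x98952)))))) (a (a (t (nat_lit 5) (nat_lit 8) (nat_lit 9) (u (nat_lit 9) (k (nat_lit 0x264d08)))) (v (nat_lit 4) (u (nat_lit 5) (k (nat_lit 0x94e8a))))) (a (v (nat_lit 3) (a (u (nat_lit 5) (k (nat_lit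 0x94e8a))) (u (nat_lit 4) (k (nat_lit 0x98952))))) (u (nat_lit 3) (v (nat_lit 4) (k (nat_lit 0x98952)))))))) (a (u (nat_lit 2) (a (a (a (v (nat_lit 9) (v (nat_lit 9) (k (nat_lit 0x1335c0)))) (v (nat_lit 8) (a (v (nat_lit 9) (k (nat_lit 0x98c94))) (v (nat_lit 8) (k (nat_lit 0x98cb8)))))) (a (v (nat_lit 7) (a (v (nat_lit 9) (k (nat_lit 0x98aba))) (a (v (nat_lit 8) (k (nat_lit 0x97fce))) (v (nat_lit 7) (k (nat_lit 0x98cdc)))))) (v (nat_lit 6) (a (v (nat_lit 8) (k (nat_lit 0x9d8a2))) (v (nat_lit 7) (k (nat_lit 0x98952))))))) (a (a (v (nat_lit 5) (a (a (v (nat_lit 9) (k (nat_lit 0x98c94))) (v (nat_lit 8) (k (nat_lit 0x12e508)))) (a (v (nat_lit 7) (k (nat_lit 0x98cb2))) (v (nat_lit 5) (k (nat_lit 0x98cb8)))))) (v (nat_lit 4) (a (a (v (nat_lit 9) (k (nat_lit 0x98aba))) (a (v (nat_lit 8) (k (nat_lit 0x98cb2))) (v (nat_lit 7) (k (nat_lit 0x136110)))))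 (a (v (nat_lit 6) (k (nat_lit 0x9885c))) (a (v (nat_lit 5) (k (nat_lit 0x97fce))) (v (nat_lit 4) (k (nat_lit 0x98cdc)))))))) (a (v (nat_lit 3) (a (a (v (nat_lit 7) (k (nat_lit 0x9885c))) (v (nat_lit 6) (k (nat_lit 0x12d320)))) (a (v (nat_lit 5) (k (nat_lit 0x9d8a2))) (v (nat_lit 4) (k (nat_lit 0x98952)))))) (a (t (nat_lit 3) (nat_lit 6) (nat_lit 9) (t (nat_lit 4) (nat_lit 7) (nat_lit 9) (k (nat_lit 0x30bfacc)))) (v (nat_lit 2) (a (a (a (v (nat_lit 9) (k (nat_lit 0x134c64))) (v (nat_lit 8) (k (nat_lit 0x98d2a)))) (a (v (nat_lit 7) (k (nat_lit 0x98ca0))) (v (nat_lit 6) (k (nat_lit 0x9b508))))) (a (a (v (nat_lit 5) (k (nat_lit 0x98d2a))) (v (nat_lit 4) (k (nat_lit 0x98ca0)))) (a (v (nat_lit 3) (k (nat_lit 0x9b508))) (v (nat_lit 2) (k (nat_lit 0x131988)))))))))))) (v (nat_lit 1) (a (a (a (v (nat_lit 7) (u (nat_lit 8) (k (nat_lit 0x98d6c))))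 (u (nat_lit 7) (v (nat_lit 7) (k (nat_lit 0x98cc4))))) (a (v (nat_lit 6) (u (nat_lit 8) (k (nat_lit 0x99efa)))) (a (u (nat_lit 6) (a (v (nat_lit 7) (k (nat_lit 0x98cdc))) (v (nat_lit 6) (k (nat_lit 0x98cdc))))) (t (nat_lit 5) (nat_lit 8) (nat_lit 9) (u (nat_lit 9) (k (nat_lit 0xbde5ddc))))))) (a (a (v (nat_lit 4) (u (nat_lit 5) (k (nat_lit 0x98d6c)))) (u (nat_lit 4) (v (nat_lit 4) (k (nat_lit 0x98cc4))))) (a (v (nat_lit 3) (u (nat_lit 5) (k (nat_lit 0x99efa)))) (a (u (nat_lit 3) (a (v (nat_lit 4) (k (nat_lit 0x98cdc))) (v (nat_lit 3) (k (nat_lit 0x98cdc))))) (u (nat_lit 2) (a (a (v (nat_lit 9) (k (nat_lit 0x12e67c))) (a (v (nat_lit 8) (k (nat_lit 0x98c5e))) (v (nat_lit 7) (k (nat_lit 0x9649e))))) (a (v (nat_lit 5) (k (nat_lit 0x98c5e))) (a (v (nat_lit 4) (k (nat_lit 0x9649e))) (v (nat_lit 2) (k (nat_lit 0x1319a0)))))))))))))))))) (u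 (nat_lit 1) (a (a (a (a (u (nat_lit 9) (v (nat_lit 9) (v (nat_lit 9) (k (nat_lit 0x131aa8))))) (v (nat_lit 7) (v (nat_lit 8) (v (nat_lit 9) (k (nat_lit 0x9ea06)))))) (a (u (nat_lit 7) (a (u (nat_lit 9) (v (nat_lit 9) (k (nat_lit 0x95df6)))) (v (nat_lit 7) (v (nat_lit 7) (k (nat_lit 0x9a554)))))) (v (nat_lit 6) (v (nat_lit 8) (a (v (nat_lit 9) (k (nat_lit 0x93906))) (v (nat_lit 8) (k (nat_lit 0xa01e8)))))))) (a (a (u (nat_lit 6) (u (nat_lit 8) (v (nat_lit 9) (k (nat_lit 0x9c408))))) (v (nat_lit 5) (a (v (nat_lit 8) (u (nat_lit 9) (k (nat_lit 0x137418)))) (a (v (nat_lit 7) (a (v (nat_lit 9) (k (nat_lit 0x9bcee))) (v (nat_lit 8) (k (nat_lit 0x92f0a))))) (u (nat_lit 6) (u (nat_lit 8) (k (nat_lit 0x9c408)))))))) (a (u (nat_lit 5) (a (u (nat_lit 7) (v (nat_lit 7) (k (nat_lit 0x9a1e2)))) (v (nat_lit 5) (u (nat_lit 7) (k (nat_lit 0x95df6))))))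 (v (nat_lit 4) (a (a (v (nat_lit 8) (v (nat_lit 9) (k (nat_lit 0x9bcee)))) (v (nat_lit 7) (v (nat_lit 8) (k (nat_lit 0x9a11c))))) (a (u (nat_lit 7) (u (nat_lit 8) (k (nat_lit 0x9771c)))) (v (nat_lit 5) (a (v (nat_lit 9) (k (nat_lit 0x9ea06))) (a (v (nat_lit 8) (k (nat_lit 0x92f0a))) (v (nat_lit 7) (k (nat_lit 0x9a11c)))))))))))) (a (a (a (u (nat_lit 4) (a (a (u (nat_lit 9) (v (nat_lit 9) (k (nat_lit 0x95df6)))) (a (u (nat_lit 8) (v (nat_lit 8) (k (nat_lit 0x95df6)))) (u (nat_lit 7) (u (nat_lit 9) (k (nat_lit 0x12a4b8)))))) (a (u (nat_lit 6) (u (nat_lit 8) (k (nat_lit 0x12a4b8)))) (a (u (nat_lit 5) (a (v (nat_lit 7) (k (nat_lit 0x9771c))) (v (nat_lit 6) (k (nat_lit 0x9771c))))) (v (nat_lit 4) (a (u (nat_lit 8) (k (nat_lit 0x9a1e2))) (v (nat_lit 4) (k (nat_lit 0x9a554))))))))) (t (nat_lit 4) (nat_lit 7) (nat_lit 9) (t (nat_lit 5) (nat_lit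 8) (nat_lit 9) (u (nat_lit 9) (k (nat_lit 0x237cccc)))))) (a (v (nat_lit 3) (a (u (nat_lit 7) (u (nat_lit 8) (k (nat_lit 0x9771c)))) (a (v (nat_lit 6) (v (nat_lit 8) (k (nat_lit 0x94ac4)))) (v (nat_lit 5) (a (v (nat_lit 9) (k (nat_lit 0x93906))) (a (v (nat_lit 6) (k (nat_lit 0x94ac4))) (v (nat_lit 5) (k (nat_lit 0xa01e8))))))))) (u (nat_lit 3) (u (nat_lit 5) (a (v (nat_lit 9) (k (nat_lit 0x9c408))) (a (v (nat_lit 8) (k (nat_lit 0x9c408))) (u (nat_lit 7) (k (nat_lit 0x12a4b8))))))))) (a (a (t (nat_lit 3) (nat_lit 6) (nat_lit 9) (t (nat_lit 5) (nat_lit 8) (nat_lit 9) (a (u (nat_lit 9) (k (nat_lit 0x73108a4))) (a (u (nat_lit 8) (k (nat_lit 0x1a10ae6))) (u (nat_lit 5) (k (nat_lit 0x1a10ae6))))))) (v (nat_lit 2) (a (a (a (v (nat_lit 9) (v (nat_lit 9) (k (nat_lit 0x1335c0)))) (v (nat_lit 8) (a (v (nat_lit 9) (k (nat_lit 0x98c94))) (v (nat_lit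 8) (k (nat_lit 0x98cb8)))))) (a (v (nat_lit 7) (v (nat_lit 8) (k (nat_lit 0x9d8a2)))) (v (nat_lit 6) (a (a (v (nat_lit 9) (k (nat_lit 0x98aba))) (v (nat_lit 8) (k (nat_lit 0x97fce)))) (a (v (nat_lit 7) (k (nat_lit 0x98952))) (v (nat_lit 6) (k (nat_lit 0x98cdc)))))))) (a (a (v (nat_lit 5) (a (a (v (nat_lit 9) (k (nat_lit 0x98c94))) (v (nat_lit 8) (k (nat_lit 0x12e508)))) (a (v (nat_lit 6) (k (nat_lit 0x98cb2))) (v (nat_lit 5) (k (nat_lit 0x98cb8)))))) (v (nat_lit 4) (a (v (nat_lit 7) (k (nat_lit 0x12d320))) (a (v (nat_lit 6) (k (nat_lit 0x9885c))) (v (nat_lit 5) (k (nat_lit 0x9d8a2))))))) (a (v (nat_lit 3) (a (a (v (nat_lit 9) (k (nat_lit 0x98aba))) (a (v (nat_lit 8) (k (nat_lit 0x98cb2))) (v (nat_lit 7) (k (nat_lit 0x9885c))))) (a (a (v (nat_lit 6) (k (nat_lit 0x136110))) (v (nat_lit 5) (k (nat_lit 0x97fce)))) (a (v (nat_lit 4) (k (nat_lit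 0x98952))) (v (nat_lit 3) (k (nat_lit 0x98cdc))))))) (a (t (nat_lit 3) (nat_lit 6) (nat_lit 9) (t (nat_lit 4) (nat_lit 7) (nat_lit 9) (k (nat_lit 0x30bfacc)))) (v (nat_lit 2) (a (a (v (nat_lit 9) (k (nat_lit 0x12e67c))) (v (nat_lit 8) (k (nat_lit 0x98c5e)))) (a (v (nat_lit 6) (k (nat_lit 0x9649e))) (a (v (nat_lit 5) (k (nat_lit 0x98c5e))) (v (nat_lit 3) (k (nat_lit 0x9649e))))))))))))) (a (t (nat_lit 2) (nat_lit 4) (nat_lit 5) (a (a (v (nat_lit 5) (v (nat_lit 6) (k (nat_lit 0x2efdec8)))) (u (nat_lit 4) (a (a (u (nat_lit 9) (k (nat_lit 0x6a3e456))) (u (nat_lit 8) (k (nat_lit 0x8355c2a)))) (a (v (nat_lit 6) (k (nat_lit 0x2ab3f7c))) (u (nat_lit 5) (k (nat_lit 0x5ec59a8))))))) (a (u (nat_lit 3) (a (v (nat_lit 6) (k (nat_lit 0xd197294))) (u (nat_lit 4) (k (nat_lit 0x749e686))))) (u (nat_lit 2) (u (nat_lit 3) (k (nat_lit 0x749e686)))))))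 (a (t (nat_lit 2) (nat_lit 7) (nat_lit 8) (a (a (u (nat_lit 7) (a (u (nat_lit 9) (k (nat_lit 0x6a3e456))) (u (nat_lit 8) (k (nat_lit 0x5ec59a8))))) (u (nat_lit 6) (u (nat_lit 7) (k (nat_lit 0x749e686))))) (a (u (nat_lit 5) (u (nat_lit 7) (k (nat_lit 0x8355c2a)))) (a (v (nat_lit 3) (a (v (nat_lit 8) (k (nat_lit 0x2efdec8))) (a (u (nat_lit 7) (k (nat_lit 0x2ab3f7c))) (u (nat_lit 6) (k (nat_lit 0xd197294)))))) (u (nat_lit 2) (u (nat_lit 6) (k (nat_lit 0x749e686)))))))) (v (nat_lit 1) (a (a (a (v (nat_lit 9) (v (nat_lit 9) (k (nat_lit 0x131964)))) (a (v (nat_lit 8) (a (v (nat_lit 9) (k (nat_lit 0x98cfa))) (v (nat_lit 8) (k (nat_lit 0x98cca))))) (v (nat_lit 7) (a (v (nat_lit 9) (k (nat_lit 0x97764))) (v (nat_lit 7) (k (nat_lit 0x98cc4))))))) (a (a (u (nat_lit 7) (u (nat_lit 9) (k (nat_lit 0x9a1e2)))) (v (nat_lit 6) (a (v (nat_lit 9) (k (nat_lit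 0x98cfa))) (a (v (nat_lit 8) (k (nat_lit 0x97a82))) (v (nat_lit 6) (k (nat_lit 0x98cdc))))))) (a (v (nat_lit 5) (a (a (v (nat_lit 9) (k (nat_lit 0x98cfa))) (v (nat_lit 8) (k (nat_lit 0x131a78)))) (a (v (nat_lit 7) (k (nat_lit 0x98730))) (a (v (nat_lit 6) (k (nat_lit 0x9a044))) (v (nat_lit 5) (k (nat_lit 0x98cca))))))) (u (nat_lit 5) (v (nat_lit 6) (k (nat_lit 0x9a086))))))) (a (a (a (v (nat_lit 4) (a (a (v (nat_lit 9) (k (nat_lit 0x97764))) (v (nat_lit 8) (k (nat_lit 0x98730)))) (a (v (nat_lit 7) (k (nat_lit 0x131a78))) (a (v (nat_lit 6) (k (nat_lit 0x987a8))) (v (nat_lit 4) (k (nat_lit 0x98cc4))))))) (u (nat_lit 4) (u (nat_lit 9) (k (nat_lit 0x9a1e2))))) (a (t (nat_lit 4) (nat_lit 7) (nat_lit 9) (t (nat_lit 5) (nat_lit 8) (nat_lit 9) (k (nat_lit 0x1322e8)))) (v (nat_lit 3) (a (a (v (nat_lit 9) (k (nat_lit 0x98cfa))) (a (v (nat_lit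 8) (k (nat_lit 0x9a044))) (u (nat_lit 8) (k (nat_lit 0x9a086))))) (a (a (v (nat_lit 7) (k (nat_lit 0x987a8))) (v (nat_lit 6) (k (nat_lit 0x13194c)))) (a (v (nat_lit 5) (k (nat_lit 0x97a82))) (v (nat_lit 3) (k (nat_lit 0x98cdc))))))))) (a (a (t (nat_lit 3) (nat_lit 6) (nat_lit 9) (u (nat_lit 9) (k (nat_lit 0x132af8)))) (v (nat_lit 2) (a (a (a (v (nat_lit 9) (k (nat_lit 0x134c64))) (v (nat_lit 8) (k (nat_lit 0x98d2a)))) (a (v (nat_lit 7) (k (nat_lit 0x9b508))) (v (nat_lit 6) (k (nat_lit 0x98ca0))))) (a (a (v (nat_lit 5) (k (nat_lit 0x98d2a))) (v (nat_lit 4) (k (nat_lit 0x9b508)))) (a (v (nat_lit 3) (k (nat_lit 0x98ca0))) (v (nat_lit 2) (k (nat_lit 0x1319a0)))))))) (a (t (nat_lit 2) (nat_lit 7) (nat_lit 8) (t (nat_lit 2) (nat_lit 4) (nat_lit 5) (k (nat_lit 0x1320c0)))) (v (nat_lit 1) (a (a (a (v (nat_lit 9) (k (nat_lit 0x1312e0))) (v (nat_lit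 8) (k (nat_lit 0x98cb8)))) (a (v (nat_lit 7) (k (nat_lit 0x99d08))) (a (u (nat_lit 7) (k (nat_lit 0x9a554))) (v (nat_lit 6) (k (nat_lit 0x98cdc)))))) (a (a (v (nat_lit 5) (k (nat_lit 0x98cb8))) (a (v (nat_lit 4) (k (nat_lit 0x99d08))) (u (nat_lit 4) (k (nat_lit 0x9a554))))) (a (v (nat_lit 3) (k (nat_lit 0x98cdc))) (a (v (nat_lit 2) (k (nat_lit 0x131988))) (v (nat_lit 1) (k (nat_lit 0x13197c))))))))))))))))))))) (a (a (t (nat_lit 1) (nat_lit 3) (nat_lit 5) (a (a (a (v (nat_lit 6) (a (u (nat_lit 9) (u (nat_lit 9) (k (nat_lit 0x3dd3340)))) (u (nat_lit 8) (u (nat_lit 8) (k (nat_lit 0x3dd3340)))))) (a (v (nat_lit 5) (v (nat_lit 7) (a (u (nat_lit 9) (k (nat_lit 0x2aa3d04))) (u (nat_lit 8) (k (nat_lit 0x2aa3d04)))))) (u (nat_lit 5) (a (v (nat_lit 9) (v (nat_lit 9) (k (nat_lit 0x8a24ae)))) (a (v (nat_lit 8) (v (nat_lit 8) (k (nat_lit 0x8a24ae))))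 (u (nat_lit 6) (v (nat_lit 6) (k (nat_lit 0x132af8))))))))) (a (t (nat_lit 5) (nat_lit 8) (nat_lit 9) (a (a (u (nat_lit 8) (u (nat_lit 9) (k (nat_lit 0x4a64a44)))) (u (nat_lit 7) (v (nat_lit 7) (k (nat_lit 0x1322e8))))) (a (u (nat_lit 6) (a (u (nat_lit 9) (k (nat_lit 0x1a10ae6))) (u (nat_lit 8) (k (nat_lit 0x1a10ae6))))) (u (nat_lit 5) (a (u (nat_lit 7) (k (nat_lit 0x237cccc))) (u (nat_lit 6) (k (nat_lit 0x73108a4)))))))) (a (u (nat_lit 4) (v (nat_lit 5) (v (nat_lit 7) (k (nat_lit 0x2efdec8))))) (u (nat_lit 3) (a (u (nat_lit 8) (v (nat_lit 8) (k (nat_lit 0x108198de)))) (a (v (nat_lit 6) (u (nat_lit 9) (k (nat_lit 0x49106f4)))) (v (nat_lit 5) (v (nat_lit 7) (k (nat_lit 0xc07ecc6)))))))))) (a (a (t (nat_lit 3) (nat_lit 6) (nat_lit 9) (a (u (nat_lit 4) (v (nat_lit 4) (k (nat_lit 0x1320c0)))) (a (t (nat_lit 4) (nat_lit 7) (nat_lit 9) (u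 (nat_lit 4) (k (nat_lit 0x98e14)))) (u (nat_lit 3) (v (nat_lit 3) (k (nat_lit 0x13725c))))))) (a (u (nat_lit 2) (a (v (nat_lit 5) (v (nat_lit 7) (k (nat_lit 0x2efdec8)))) (a (u (nat_lit 4) (v (nat_lit 7) (k (nat_lit 0xd197294)))) (u (nat_lit 3) (a (a (u (nat_lit 9) (k (nat_lit 0x6a3e456))) (u (nat_lit 8) (k (nat_lit 0x8355c2a)))) (a (v (nat_lit 7) (k (nat_lit 0x2ab3f7c))) (a (u (nat_lit 5) (k (nat_lit 0x5ec59a8))) (u (nat_lit 4) (k (nat_lit 0x749e686)))))))))) (t (nat_lit 2) (nat_lit 4) (nat_lit 5) (a (a (v (nat_lit 6) (u (nat_lit 7) (k (nat_lit 0x30bfacc)))) (u (nat_lit 6) (v (nat_lit 7) (k (nat_lit 0x30bfacc))))) (a (u (nat_lit 3) (t (nat_lit 4) (nat_lit 7) (nat_lit 9) (k (nat_lit 0x98e14)))) (t (nat_lit 3) (nat_lit 6) (nat_lit 9) (u (nat_lit 4) (k (nat_lit 0x98e14))))))))) (a (t (nat_lit 2) (nat_lit 7) (nat_lit 8) (a (u (nat_lit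 3) (t (nat_lit 4) (nat_lit 7) (nat_lit 9) (k (nat_lit 0x31a334)))) (a (t (nat_lit 3) (nat_lit 6) (nat_lit 9) (u (nat_lit 7) (k (nat_lit 0x31a334)))) (u (nat_lit 2) (t (nat_lit 3) (nat_lit 6) (nat_lit 9) (k (nat_lit 0x31a334))))))) (a (u (nat_lit 1) (a (a (u (nat_lit 9) (v (nat_lit 9) (k (nat_lit 0x108198de)))) (a (v (nat_lit 6) (u (nat_lit 8) (k (nat_lit 0x49106f4)))) (v (nat_lit 5) (v (nat_lit 7) (k (nat_lit 0xc07ecc6)))))) (a (a (u (nat_lit 4) (a (a (u (nat_lit 9) (k (nat_lit 0x8355c2a))) (u (nat_lit 8) (k (nat_lit 0x6a3e456)))) (a (v (nat_lit 7) (k (nat_lit 0x2ab3f7c))) (u (nat_lit 5) (k (nat_lit 0x5ec59a8)))))) (u (nat_lit 3) (a (u (nat_lit 9) (k (nat_lit 0x9a99e))) (a (u (nat_lit 8) (k (nat_lit 0x9a99e))) (v (nat_lit 7) (k (nat_lit 0x6ff9714))))))) (a (u (nat_lit 2) (u (nat_lit 4) (k (nat_lit 0x749e686)))) (t (nat_lit 2) (nat_lit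 7) (nat_lit 8) (a (t (nat_lit 4) (nat_lit 7) (nat_lit 9) (k (nat_lit 0x31a334))) (t (nat_lit 2) (nat_lit 4) (nat_lit 5) (k (nat_lit 0x98e14))))))))) (t (nat_lit 1) (nat_lit 3) (nat_lit 5) (t (nat_lit 5) (nat_lit 8) (nat_lit 9) (a (u (nat_lit 9) (k (nat_lit 0x3f3a1d6))) (u (nat_lit 8) (k (nat_lit 0x3f3a1d6))))))))))) (t (nat_lit 1) (nat_lit 6) (nat_lit 8) (a (a (a (u (nat_lit 8) (v (nat_lit 9) (v (nat_lit 9) (k (nat_lit 0x8a24ae))))) (a (v (nat_lit 5) (v (nat_lit 5) (u (nat_lit 8) (k (nat_lit 0x8a24ae))))) (u (nat_lit 5) (v (nat_lit 5) (u (nat_lit 6) (k (nat_lit 0x108198de))))))) (a (a (t (nat_lit 5) (nat_lit 8) (nat_lit 9) (u (nat_lit 5) (u (nat_lit 9) (k (nat_lit 0x4a64a44))))) (v (nat_lit 4) (a (a (v (nat_lit 8) (u (nat_lit 9) (k (nat_lit 0x2aa3d04)))) (u (nat_lit 7) (v (nat_lit 8) (k (nat_lit 0x2efdec8))))) (a (u (nat_lit 6) (v (nat_lit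 8) (k (nat_lit 0xc07ecc6)))) (u (nat_lit 5) (v (nat_lit 8) (k (nat_lit 0x2aa3d04)))))))) (a (u (nat_lit 4) (a (t (nat_lit 5) (nat_lit 8) (nat_lit 9) (u (nat_lit 8) (k (nat_lit 0x237cccc)))) (v (nat_lit 4) (t (nat_lit 5) (nat_lit 8) (nat_lit 9) (k (nat_lit 0x1322e8)))))) (v (nat_lit 3) (a (u (nat_lit 9) (u (nat_lit 9) (k (nat_lit 0x3dd3340)))) (a (u (nat_lit 6) (u (nat_lit 9) (k (nat_lit 0x49106f4)))) (u (nat_lit 5) (u (nat_lit 5) (k (nat_lit 0x3dd3340)))))))))) (a (a (a (u (nat_lit 3) (a (t (nat_lit 5) (nat_lit 8) (nat_lit 9) (a (u (nat_lit 9) (k (nat_lit 0x1a10ae6))) (a (u (nat_lit 8) (k (nat_lit 0x73108a4))) (u (nat_lit 5) (k (nat_lit 0x1a10ae6)))))) (v (nat_lit 3) (u (nat_lit 8) (k (nat_lit 0x132af8)))))) (t (nat_lit 3) (nat_lit 6) (nat_lit 9) (a (u (nat_lit 7) (v (nat_lit 7) (k (nat_lit 0x1320c0)))) (a (u (nat_lit 6) (v (nat_lit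 6) (k (nat_lit 0x13725c)))) (t (nat_lit 4) (nat_lit 7) (nat_lit 9) (u (nat_lit 7) (k (nat_lit 0x98e14)))))))) (a (u (nat_lit 2) (a (u (nat_lit 6) (a (u (nat_lit 9) (k (nat_lit 0x6a3e456))) (a (u (nat_lit 8) (k (nat_lit 0x5ec59a8))) (u (nat_lit 7) (k (nat_lit 0x749e686)))))) (a (u (nat_lit 5) (u (nat_lit 6) (k (nat_lit 0x8355c2a)))) (v (nat_lit 4) (a (v (nat_lit 8) (k (nat_lit 0x2efdec8))) (a (u (nat_lit 7) (k (nat_lit 0xd197294))) (u (nat_lit 6) (k (nat_lit 0x2ab3f7c))))))))) (t (nat_lit 2) (nat_lit 4) (nat_lit 5) (a (t (nat_lit 4) (nat_lit 7) (nat_lit 9) (u (nat_lit 6) (k (nat_lit 0x31a334)))) (a (t (nat_lit 3) (nat_lit 6) (nat_lit 9) (u (nat_lit 4) (k (nat_lit 0x31a334)))) (u (nat_lit 2) (t (nat_lit 3) (nat_lit 6) (nat_lit 9) (k (nat_lit 0x31a334))))))))) (a (a (t (nat_lit 2) (nat_lit 7) (nat_lit 8) (a (a (t (nat_lit 4) (nat_lit 7)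 (nat_lit 9) (u (nat_lit 6) (k (nat_lit 0x98e14)))) (v (nat_lit 3) (u (nat_lit 4) (k (nat_lit 0x30bfacc))))) (a (u (nat_lit 3) (v (nat_lit 4) (k (nat_lit 0x30bfacc)))) (t (nat_lit 3) (nat_lit 6) (nat_lit 9) (u (nat_lit 7) (k (nat_lit 0x98e14))))))) (u (nat_lit 1) (a (a (a (u (nat_lit 9) (v (nat_lit 9) (k (nat_lit 0x108198de)))) (u (nat_lit 7) (a (u (nat_lit 9) (k (nat_lit 0x8355c2a))) (u (nat_lit 8) (k (nat_lit 0x5ec59a8)))))) (a (u (nat_lit 6) (u (nat_lit 9) (k (nat_lit 0x9a99e)))) (u (nat_lit 5) (a (u (nat_lit 7) (k (nat_lit 0x6a3e456))) (u (nat_lit 6) (k (nat_lit 0x9a99e))))))) (a (a (v (nat_lit 4) (a (v (nat_lit 8) (k (nat_lit 0xc07ecc6))) (a (u (nat_lit 7) (k (nat_lit 0x2ab3f7c))) (u (nat_lit 6) (k (nat_lit 0x6ff9714)))))) (v (nat_lit 3) (u (nat_lit 5) (k (nat_lit 0x49106f4))))) (a (u (nat_lit 2) (u (nat_lit 7) (k (nat_lit 0x749e686))))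 (a (t (nat_lit 2) (nat_lit 4) (nat_lit 5) (t (nat_lit 4) (nat_lit 7) (nat_lit 9) (k (nat_lit 0x31a334)))) (t (nat_lit 2) (nat_lit 7) (nat_lit 8) (t (nat_lit 2) (nat_lit 4) (nat_lit 5) (k (nat_lit 0x98e14)))))))))) (a (t (nat_lit 1) (nat_lit 3) (nat_lit 5) (a (a (t (nat_lit 4) (nat_lit 7) (nat_lit 9) (a (u (nat_lit 7) (k (nat_lit 0x31a334))) (u (nat_lit 4) (k (nat_lit 0x31a334))))) (a (t (nat_lit 3) (nat_lit 6) (nat_lit 9) (a (u (nat_lit 6) (k (nat_lit 0x27d09f8))) (u (nat_lit 3) (k (nat_lit 0x27d09f8))))) (u (nat_lit 2) (v (nat_lit 2) (k (nat_lit 0x1320c0)))))) (a (t (nat_lit 2) (nat_lit 4) (nat_lit 5) (u (nat_lit 2) (k (nat_lit 0x98e14)))) (a (t (nat_lit 2) (nat_lit 7) (nat_lit 8) (u (nat_lit 2) (k (nat_lit 0x98e14)))) (u (nat_lit 1) (a (t (nat_lit 3) (nat_lit 6) (nat_lit 9) (k (nat_lit 0x27d09f8))) (v (nat_lit 1) (k (nat_lit 0x13725c)))))))))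 (t (nat_lit 1) (nat_lit 6) (nat_lit 8) (t (nat_lit 5) (nat_lit 8) (nat_lit 9) (a (u (nat_lit 9) (k (nat_lit 0x3f3a1d6))) (u (nat_lit 5) (k (nat_lit 0x3f3a1d6)))))))))))) (a (v (nat_lit 0) (a (a (a (a (u (nat_lit 9) (v (nat_lit 9) (v (nat_lit 9) (k (nat_lit 0x263280))))) (a (v (nat_lit 8) (u (nat_lit 9) (v (nat_lit 9) (k (nat_lit 0x12bbec))))) (u (nat_lit 8) (v (nat_lit 8) (a (v (nat_lit 9) (k (nat_lit 0x12bbec))) (v (nat_lit 8) (k (nat_lit 0x263280)))))))) (a (v (nat_lit 7) (a (u (nat_lit 9) (v (nat_lit 9) (k (nat_lit 0x9d38c)))) (u (nat_lit 8) (v (nat_lit 8) (k (nat_lit 0x9d38c)))))) (a (u (nat_lit 7) (a (v (nat_lit 7) (a (v (nat_lit 9) (k (nat_lit 0x98cc4))) (a (v (nat_lit 8) (k (nat_lit 0x98cc4))) (v (nat_lit 7) (k (nat_lit 0x12b7fc)))))) (u (nat_lit 7) (v (nat_lit 7) (k (nat_lit 0x12e6b8)))))) (v (nat_lit 6) (a (a (u (nat_lit 9)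 (v (nat_lit 9) (k (nat_lit 0x9d38c)))) (u (nat_lit 8) (v (nat_lit 8) (k (nat_lit 0x9d38c))))) (a (u (nat_lit 7) (a (v (nat_lit 9) (k (nat_lit 0x98b32))) (a (v (nat_lit 8) (k (nat_lit 0x98b32))) (v (nat_lit 7) (k (nat_lit 0x131cd0)))))) (v (nat_lit 6) (u (nat_lit 7) (k (nat_lit 0x131700)))))))))) (a (a (u (nat_lit 6) (a (v (nat_lit 7) (a (v (nat_lit 9) (k (nat_lit 0x98b32))) (a (v (nat_lit 8) (k (nat_lit 0x98b32))) (v (nat_lit 7) (k (nat_lit 0x131700)))))) (a (v (nat_lit 6) (a (a (v (nat_lit 9) (k (nat_lit 0x98cc4))) (v (nat_lit 8) (k (nat_lit 0x98cc4)))) (a (v (nat_lit 7) (k (nat_lit 0x131cd0))) (v (nat_lit 6) (k (nat_lit 0x12b7fc)))))) (u (nat_lit 6) (v (nat_lit 6) (k (nat_lit 0x12e6b8))))))) (a (v (nat_lit 5) (a (a (u (nat_lit 9) (v (nat_lit 9) (k (nat_lit 0x12bbec)))) (a (v (nat_lit 8) (u (nat_lit 9) (k (nat_lit 0x25c5f0)))) (u (nat_lit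 8) (a (v (nat_lit 9) (k (nat_lit 0x25c5f0))) (v (nat_lit 8) (k (nat_lit 0x12bbec))))))) (a (u (nat_lit 7) (v (nat_lit 7) (k (nat_lit 0x131628)))) (a (v (nat_lit 6) (u (nat_lit 7) (k (nat_lit 0x1318a4)))) (u (nat_lit 6) (a (v (nat_lit 7) (k (nat_lit 0x1318a4))) (v (nat_lit 6) (k (nat_lit 0x131628))))))))) (u (nat_lit 5) (a (v (nat_lit 8) (v (nat_lit 9) (k (nat_lit 0x25c5f0)))) (a (u (nat_lit 8) (u (nat_lit 9) (k (nat_lit 0x73d9d0)))) (v (nat_lit 5) (a (a (v (nat_lit 9) (k (nat_lit 0x12bbec))) (v (nat_lit 8) (k (nat_lit 0x12bbec)))) (a (v (nat_lit 7) (k (nat_lit 0x130254))) (a (v (nat_lit 6) (k (nat_lit 0x130254))) (v (nat_lit 5) (k (nat_lit 0x263280)))))))))))) (a (v (nat_lit 4) (a (a (u (nat_lit 9) (v (nat_lit 9) (k (nat_lit 0x9d38c)))) (a (u (nat_lit 8) (v (nat_lit 8) (k (nat_lit 0x130254)))) (v (nat_lit 7) (u (nat_lit 9) (k (nat_lit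 0x131a3c)))))) (a (a (u (nat_lit 7) (a (v (nat_lit 9) (k (nat_lit 0x98c2e))) (v (nat_lit 7) (k (nat_lit 0x98cf4))))) (v (nat_lit 6) (u (nat_lit 9) (k (nat_lit 0x135588))))) (a (u (nat_lit 6) (v (nat_lit 9) (k (nat_lit 0x96f36)))) (u (nat_lit 5) (v (nat_lit 5) (k (nat_lit 0x9d38c)))))))) (a (u (nat_lit 4) (a (a (v (nat_lit 7) (v (nat_lit 9) (k (nat_lit 0x98c2e)))) (v (nat_lit 6) (v (nat_lit 9) (k (nat_lit 0x96f36))))) (a (v (nat_lit 4) (a (a (v (nat_lit 9) (k (nat_lit 0x98cc4))) (v (nat_lit 8) (k (nat_lit 0x131628)))) (a (v (nat_lit 7) (k (nat_lit 0x98cf4))) (a (v (nat_lit 5) (k (nat_lit 0x98cc4))) (v (nat_lit 4) (k (nat_lit 0x12b7fc))))))) (u (nat_lit 4) (v (nat_lit 4) (k (nat_lit 0x12e6b8))))))) (t (nat_lit 4) (nat_lit 7) (nat_lit 9) (u (nat_lit 4) (a (u (nat_lit 7) (k (nat_lit 0x64c4958))) (u (nat_lit 6) (k (nat_lit 0x763364a))))))))))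 (a (a (a (v (nat_lit 3) (a (a (a (u (nat_lit 9) (v (nat_lit 9) (k (nat_lit 0x9d38c)))) (u (nat_lit 8) (v (nat_lit 8) (k (nat_lit 0x130254))))) (a (v (nat_lit 7) (u (nat_lit 9) (k (nat_lit 0x135588)))) (u (nat_lit 7) (v (nat_lit 9) (k (nat_lit 0x96f36)))))) (a (a (v (nat_lit 6) (u (nat_lit 9) (k (nat_lit 0x131a3c)))) (u (nat_lit 6) (a (v (nat_lit 9) (k (nat_lit 0x98c2e))) (v (nat_lit 6) (k (nat_lit 0x98cf4)))))) (a (u (nat_lit 5) (v (nat_lit 5) (k (nat_lit 0x9d38c)))) (a (u (nat_lit 4) (a (a (v (nat_lit 9) (k (nat_lit 0x98b32))) (v (nat_lit 8) (k (nat_lit 0x1318a4)))) (a (v (nat_lit 5) (k (nat_lit 0x98b32))) (v (nat_lit 4) (k (nat_lit 0x131cd0)))))) (v (nat_lit 3) (u (nat_lit 4) (k (nat_lit 0x131700))))))))) (a (u (nat_lit 3) (a (a (v (nat_lit 7) (v (nat_lit 9) (k (nat_lit 0x96f36)))) (a (v (nat_lit 6) (v (nat_lit 9) (k (nat_lit 0x98c2e))))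 (v (nat_lit 4) (a (a (v (nat_lit 9) (k (nat_lit 0x98b32))) (v (nat_lit 8) (k (nat_lit 0x1318a4)))) (a (v (nat_lit 5) (k (nat_lit 0x98b32))) (v (nat_lit 4) (k (nat_lit 0x131700)))))))) (a (t (nat_lit 4) (nat_lit 7) (nat_lit 9) (u (nat_lit 7) (k (nat_lit 0x763364a)))) (a (v (nat_lit 3) (a (a (v (nat_lit 9) (k (nat_lit 0x98cc4))) (a (v (nat_lit 8) (k (nat_lit 0x131628))) (v (nat_lit 6) (k (nat_lit 0x98cf4))))) (a (v (nat_lit 5) (k (nat_lit 0x98cc4))) (a (v (nat_lit 4) (k (nat_lit 0x131cd0))) (v (nat_lit 3) (k (nat_lit 0x12b7fc))))))) (u (nat_lit 3) (v (nat_lit 3) (k (nat_lit 0x12e6b8)))))))) (t (nat_lit 3) (nat_lit 6) (nat_lit 9) (a (u (nat_lit 4) (u (nat_lit 6) (k (nat_lit 0x763364a)))) (u (nat_lit 3) (a (u (nat_lit 7) (k (nat_lit 0x763364a))) (u (nat_lit 6) (k (nat_lit 0x64c4958))))))))) (a (v (nat_lit 2) (a (a (a (u (nat_lit 9) (v (nat_lit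 9) (k (nat_lit 0x130254)))) (a (u (nat_lit 8) (v (nat_lit 8) (k (nat_lit 0x9d38c)))) (v (nat_lit 7) (u (nat_lit 8) (k (nat_lit 0x131a3c)))))) (a (u (nat_lit 7) (a (v (nat_lit 8) (k (nat_lit 0x98c2e))) (v (nat_lit 7) (k (nat_lit 0x98cf4))))) (a (v (nat_lit 6) (u (nat_lit 8) (k (nat_lit 0x135588)))) (u (nat_lit 6) (v (nat_lit 8) (k (nat_lit 0x96f36))))))) (a (a (u (nat_lit 5) (v (nat_lit 5) (k (nat_lit 0x9d38c)))) (a (v (nat_lit 4) (u (nat_lit 5) (k (nat_lit 0x131a3c)))) (u (nat_lit 4) (a (v (nat_lit 5) (k (nat_lit 0x98c2e))) (v (nat_lit 4) (k (nat_lit 0x98cf4))))))) (a (v (nat_lit 3) (u (nat_lit 5) (k (nat_lit 0x135588)))) (a (u (nat_lit 3) (v (nat_lit 5) (k (nat_lit 0x96f36)))) (t (nat_lit 3) (nat_lit 6) (nat_lit 9) (a (u (nat_lit 8) (k (nat_lit 0x31accc4))) (u (nat_lit 5) (k (nat_lit 0x31accc4)))))))))) (a (u (nat_lit 2) (a (a (a (v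 (nat_lit 7) (v (nat_lit 8) (k (nat_lit 0x98c2e)))) (v (nat_lit 6) (v (nat_lit 8) (k (nat_lit 0x96f36))))) (a (v (nat_lit 4) (v (nat_lit 5) (k (nat_lit 0x98c2e)))) (t (nat_lit 4) (nat_lit 7) (nat_lit 9) (t (nat_lit 5) (nat_lit 8) (nat_lit 9) (k (nat_lit 0x81b0a0c)))))) (a (a (v (nat_lit 3) (v (nat_lit 5) (k (nat_lit 0x96f36)))) (t (nat_lit 3) (nat_lit 6) (nat_lit 9) (t (nat_lit 5) (nat_lit 8) (nat_lit 9) (k (nat_lit 0xd695d8))))) (a (v (nat_lit 2) (a (a (v (nat_lit 9) (k (nat_lit 0x131628))) (a (v (nat_lit 8) (k (nat_lit 0x98cc4))) (v (nat_lit 7) (k (nat_lit 0x98cf4))))) (a (v (nat_lit 5) (k (nat_lit 0x98cc4))) (a (v (nat_lit 4) (k (nat_lit 0x98cf4))) (v (nat_lit 2) (k (nat_lit 0x12b7fc))))))) (u (nat_lit 2) (v (nat_lit 2) (k (nat_lit 0x12e6b8)))))))) (t (nat_lit 2) (nat_lit 4) (nat_lit 5) (a (v (nat_lit 6) (a (u (nat_lit 9) (k (nat_lit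 0x31accc4))) (u (nat_lit 8) (k (nat_lit 0x31accc4))))) (a (t (nat_lit 5) (nat_lit 8) (nat_lit 9) (a (u (nat_lit 7) (k (nat_lit 0x81b0a0c))) (u (nat_lit 6) (k (nat_lit 0xd695d8))))) (u (nat_lit 2) (a (u (nat_lit 4) (k (nat_lit 0x64c4958))) (u (nat_lit 3) (k (nat_lit 0x763364a))))))))))) (a (a (t (nat_lit 2) (nat_lit 7) (nat_lit 8) (a (a (u (nat_lit 4) (t (nat_lit 5) (nat_lit 8) (nat_lit 9) (k (nat_lit 0x81b0a0c)))) (v (nat_lit 3) (a (u (nat_lit 9) (k (nat_lit 0x31accc4))) (u (nat_lit 5) (k (nat_lit 0x31accc4)))))) (a (u (nat_lit 3) (t (nat_lit 5) (nat_lit 8) (nat_lit 9) (k (nat_lit 0xd695d8)))) (u (nat_lit 2) (a (u (nat_lit 7) (k (nat_lit 0x64c4958))) (u (nat_lit 6) (k (nat_lit 0x763364a)))))))) (a (v (nat_lit 1) (a (a (a (u (nat_lit 9) (v (nat_lit 9) (k (nat_lit 0x130254)))) (a (u (nat_lit 8) (v (nat_lit 8) (k (nat_lit 0x9d38c)))) (v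 (nat_lit 7) (u (nat_lit 8) (k (nat_lit 0x135588)))))) (a (a (u (nat_lit 7) (v (nat_lit 8) (k (nat_lit 0x96f36)))) (v (nat_lit 6) (u (nat_lit 8) (k (nat_lit 0x131a3c))))) (a (u (nat_lit 6) (a (v (nat_lit 8) (k (nat_lit 0x98c2e))) (v (nat_lit 6) (k (nat_lit 0x98cf4))))) (u (nat_lit 5) (v (nat_lit 5) (k (nat_lit 0x9d38c))))))) (a (a (v (nat_lit 4) (u (nat_lit 5) (k (nat_lit 0x135588)))) (a (u (nat_lit 4) (v (nat_lit 5) (k (nat_lit 0x96f36)))) (t (nat_lit 4) (nat_lit 7) (nat_lit 9) (a (u (nat_lit 8) (k (nat_lit 0x31accc4))) (u (nat_lit 5) (k (nat_lit 0x31accc4))))))) (a (a (v (nat_lit 3) (u (nat_lit 5) (k (nat_lit 0x131a3c)))) (u (nat_lit 3) (a (v (nat_lit 5) (k (nat_lit 0x98c2e))) (v (nat_lit 3) (k (nat_lit 0x98cf4)))))) (a (u (nat_lit 2) (a (a (v (nat_lit 9) (k (nat_lit 0x1318a4))) (v (nat_lit 8) (k (nat_lit 0x98b32)))) (a (v (nat_lit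 5) (k (nat_lit 0x98b32))) (v (nat_lit 2) (k (nat_lit 0x131cd0)))))) (v (nat_lit 1) (u (nat_lit 2) (k (nat_lit 0x131700))))))))) (u (nat_lit 1) (a (a (a (v (nat_lit 7) (v (nat_lit 8) (k (nat_lit 0x96f36)))) (v (nat_lit 6) (v (nat_lit 8) (k (nat_lit 0x98c2e))))) (a (v (nat_lit 4) (v (nat_lit 5) (k (nat_lit 0x96f36)))) (a (t (nat_lit 4) (nat_lit 7) (nat_lit 9) (t (nat_lit 5) (nat_lit 8) (nat_lit 9) (k (nat_lit 0xd695d8)))) (v (nat_lit 3) (v (nat_lit 5) (k (nat_lit 0x98c2e))))))) (a (a (t (nat_lit 3) (nat_lit 6) (nat_lit 9) (t (nat_lit 5) (nat_lit 8) (nat_lit 9) (k (nat_lit 0x81b0a0c)))) (a (v (nat_lit 2) (a (a (v (nat_lit 9) (k (nat_lit 0x1318a4))) (v (nat_lit 8) (k (nat_lit 0x98b32)))) (a (v (nat_lit 5) (k (nat_lit 0x98b32))) (v (nat_lit 2) (k (nat_lit 0x131700)))))) (t (nat_lit 2) (nat_lit 4) (nat_lit 5) (u (nat_lit 4) (k (nat_lit 0x763364a))))))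 (a (t (nat_lit 2) (nat_lit 7) (nat_lit 8) (u (nat_lit 7) (k (nat_lit 0x763364a)))) (a (v (nat_lit 1) (a (a (v (nat_lit 9) (k (nat_lit 0x131628))) (a (v (nat_lit 8) (k (nat_lit 0x98cc4))) (v (nat_lit 6) (k (nat_lit 0x98cf4))))) (a (a (v (nat_lit 5) (k (nat_lit 0x98cc4))) (v (nat_lit 3) (k (nat_lit 0x98cf4)))) (a (v (nat_lit 2) (k (nat_lit 0x131cd0))) (v (nat_lit 1) (k (nat_lit 0x12b7fc))))))) (u (nat_lit 1) (v (nat_lit 1) (k (nat_lit 0x12e6b8))))))))))) (a (t (nat_lit 1) (nat_lit 3) (nat_lit 5) (a (a (v (nat_lit 7) (a (u (nat_lit 9) (k (nat_lit 0x31accc4))) (u (nat_lit 8) (k (nat_lit 0x31accc4))))) (t (nat_lit 5) (nat_lit 8) (nat_lit 9) (a (u (nat_lit 7) (k (nat_lit 0xd695d8))) (u (nat_lit 6) (k (nat_lit 0x81b0a0c)))))) (a (u (nat_lit 2) (u (nat_lit 3) (k (nat_lit 0x763364a)))) (u (nat_lit 1) (a (u (nat_lit 4) (k (nat_lit 0x763364a)))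 (u (nat_lit 3) (k (nat_lit 0x64c4958)))))))) (a (t (nat_lit 1) (nat_lit 6) (nat_lit 8) (a (a (v (nat_lit 4) (a (u (nat_lit 9) (k (nat_lit 0x31accc4))) (u (nat_lit 5) (k (nat_lit 0x31accc4))))) (u (nat_lit 4) (t (nat_lit 5) (nat_lit 8) (nat_lit 9) (k (nat_lit 0xd695d8))))) (a (u (nat_lit 3) (t (nat_lit 5) (nat_lit 8) (nat_lit 9) (k (nat_lit 0x81b0a0c)))) (a (u (nat_lit 2) (u (nat_lit 6) (k (nat_lit 0x763364a)))) (u (nat_lit 1) (a (u (nat_lit 7) (k (nat_lit 0x763364a))) (u (nat_lit 6) (k (nat_lit 0x64c4958))))))))) (v (nat_lit 0) (a (a (a (u (nat_lit 9) (v (nat_lit 9) (k (nat_lit 0x26eda0)))) (u (nat_lit 8) (v (nat_lit 8) (k (nat_lit 0x26eda0))))) (a (v (nat_lit 6) (u (nat_lit 7) (k (nat_lit 0x131ed4)))) (u (nat_lit 6) (v (nat_lit 7) (k (nat_lit 0x131ed4)))))) (a (a (u (nat_lit 5) (v (nat_lit 5) (k (nat_lit 0x26eda0)))) (v (nat_lit 3)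 (u (nat_lit 4) (k (nat_lit 0x131ed4))))) (a (u (nat_lit 3) (v (nat_lit 4) (k (nat_lit 0x131ed4)))) (a (v (nat_lit 1) (u (nat_lit 2) (k (nat_lit 0x131ed4)))) (u (nat_lit 1) (v (nat_lit 2) (k (nat_lit 0x131ed4))))))))))))))) (u (nat_lit 0) (a (a (a (a (v (nat_lit 8) (v (nat_lit 8) (u (nat_lit 9) (k (nat_lit 0x12bebc))))) (u (nat_lit 8) (v (nat_lit 9) (v (nat_lit 9) (k (nat_lit 0x12bebc)))))) (a (v (nat_lit 7) (a (v (nat_lit 9) (v (nat_lit 9) (k (nat_lit 0x945d8)))) (a (v (nat_lit 8) (a (v (nat_lit 9) (k (nat_lit 0x1319ac))) (v (nat_lit 8) (k (nat_lit 0x945d8))))) (v (nat_lit 7) (v (nat_lit 7) (k (nat_lit 0x134874))))))) (a (v (nat_lit 6) (a (a (v (nat_lit 9) (v (nat_lit 9) (k (nat_lit 0x945d8)))) (v (nat_lit 8) (a (v (nat_lit 9) (k (nat_lit 0x1319ac))) (v (nat_lit 8) (k (nat_lit 0x945d8)))))) (a (v (nat_lit 7) (a (v (nat_lit 9) (k (nat_lit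 0x131cb8))) (a (v (nat_lit 8) (k (nat_lit 0x131cb8))) (v (nat_lit 7) (k (nat_lit 0x131958)))))) (v (nat_lit 6) (a (v (nat_lit 7) (k (nat_lit 0x131958))) (v (nat_lit 6) (k (nat_lit 0x134874)))))))) (v (nat_lit 5) (a (v (nat_lit 7) (a (v (nat_lit 9) (k (nat_lit 0x98fb2))) (v (nat_lit 8) (k (nat_lit 0x98fb2))))) (a (v (nat_lit 6) (a (v (nat_lit 9) (k (nat_lit 0x98fb2))) (v (nat_lit 8) (k (nat_lit 0x98fb2))))) (v (nat_lit 5) (a (a (u (nat_lit 9) (k (nat_lit 0x12bebc))) (u (nat_lit 8) (k (nat_lit 0x12bebc)))) (a (v (nat_lit 7) (k (nat_lit 0x132db0))) (v (nat_lit 6) (k (nat_lit 0x132db0)))))))))))) (a (a (u (nat_lit 5) (a (v (nat_lit 9) (v (nat_lit 9) (k (nat_lit 0x12bebc)))) (v (nat_lit 8) (v (nat_lit 8) (k (nat_lit 0x12bebc)))))) (a (v (nat_lit 4) (a (a (v (nat_lit 9) (v (nat_lit 9) (k (nat_lit 0x945d8)))) (a (v (nat_lit 8) (a (v (nat_lit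 9) (k (nat_lit 0x98fb2))) (v (nat_lit 8) (k (nat_lit 0x132db0))))) (v (nat_lit 7) (v (nat_lit 8) (k (nat_lit 0x9a170)))))) (a (v (nat_lit 6) (a (v (nat_lit 8) (k (nat_lit 0x98cac))) (a (v (nat_lit 7) (k (nat_lit 0x98b92))) (v (nat_lit 6) (k (nat_lit 0x98ca6)))))) (a (v (nat_lit 5) (a (a (v (nat_lit 9) (k (nat_lit 0x1319ac))) (a (v (nat_lit 8) (k (nat_lit 0x98fb2))) (v (nat_lit 7) (k (nat_lit 0x9a170))))) (a (u (nat_lit 7) (k (nat_lit 0x9a164))) (a (v (nat_lit 6) (k (nat_lit 0x98cac))) (v (nat_lit 5) (k (nat_lit 0x945d8))))))) (v (nat_lit 4) (a (v (nat_lit 6) (k (nat_lit 0x98ca6))) (v (nat_lit 4) (k (nat_lit 0x134874))))))))) (u (nat_lit 4) (a (v (nat_lit 7) (v (nat_lit 8) (k (nat_lit 0x9a164)))) (v (nat_lit 6) (v (nat_lit 7) (k (nat_lit 0x98b80)))))))) (a (t (nat_lit 4) (nat_lit 7) (nat_lit 9) (a (a (u (nat_lit 9) (v (nat_lit 9) (k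 (nat_lit 0x5eba38)))) (u (nat_lit 7) (u (nat_lit 8) (k (nat_lit 0x46cb738))))) (a (u (nat_lit 6) (u (nat_lit 8) (k (nat_lit 0x9a6fe)))) (a (u (nat_lit 5) (u (nat_lit 6) (k (nat_lit 0x81fbc3a)))) (u (nat_lit 4) (u (nat_lit 5) (k (nat_lit 0x46cb738)))))))) (a (v (nat_lit 3) (a (a (v (nat_lit 9) (v (nat_lit 9) (k (nat_lit 0x945d8)))) (a (v (nat_lit 8) (a (v (nat_lit 9) (k (nat_lit 0x98fb2))) (v (nat_lit 8) (k (nat_lit 0x132db0))))) (v (nat_lit 7) (a (v (nat_lit 8) (k (nat_lit 0x98cac))) (v (nat_lit 7) (k (nat_lit 0x98ca6))))))) (a (a (v (nat_lit 6) (a (v (nat_lit 8) (k (nat_lit 0x9a170))) (v (nat_lit 7) (k (nat_lit 0x98b92))))) (v (nat_lit 5) (a (a (v (nat_lit 9) (k (nat_lit 0x1319ac))) (a (v (nat_lit 8) (k (nat_lit 0x98fb2))) (v (nat_lit 7) (k (nat_lit 0x98cac))))) (a (v (nat_lit 6) (k (nat_lit 0x9a170))) (a (u (nat_lit 6) (k (nat_lit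 0x9a164))) (v (nat_lit 5) (k (nat_lit 0x945d8)))))))) (a (v (nat_lit 4) (a (a (v (nat_lit 9) (k (nat_lit 0x131cb8))) (a (v (nat_lit 7) (k (nat_lit 0x98b92))) (u (nat_lit 7) (k (nat_lit 0x98b80))))) (a (a (v (nat_lit 6) (k (nat_lit 0x98b92))) (u (nat_lit 6) (k (nat_lit 0x98b80)))) (a (v (nat_lit 5) (k (nat_lit 0x131cb8))) (v (nat_lit 4) (k (nat_lit 0x131958))))))) (v (nat_lit 3) (a (v (nat_lit 7) (k (nat_lit 0x98ca6))) (a (v (nat_lit 4) (k (nat_lit 0x131958))) (v (nat_lit 3) (k (nat_lit 0x134874)))))))))) (u (nat_lit 3) (a (v (nat_lit 6) (a (v (nat_lit 8) (k (nat_lit 0x9a164))) (v (nat_lit 7) (k (nat_lit 0x98b80))))) (t (nat_lit 4) (nat_lit 7) (nat_lit 9) (a (u (nat_lit 8) (k (nat_lit 0x81fbc3a))) (u (nat_lit 5) (k (nat_lit 0x9a6fe))))))))))) (a (a (a (t (nat_lit 3) (nat_lit 6) (nat_lit 9) (a (a (u (nat_lit 9) (v (nat_lit 9) (k (nat_lit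 0x5eba38)))) (a (u (nat_lit 7) (u (nat_lit 8) (k (nat_lit 0x9a6fe)))) (u (nat_lit 6) (u (nat_lit 8) (k (nat_lit 0x46cb738)))))) (a (u (nat_lit 5) (u (nat_lit 7) (k (nat_lit 0x81fbc3a)))) (a (u (nat_lit 4) (a (u (nat_lit 8) (k (nat_lit 0x81fbc3a))) (u (nat_lit 5) (k (nat_lit 0x9a6fe))))) (u (nat_lit 3) (u (nat_lit 5) (k (nat_lit 0x46cb738)))))))) (v (nat_lit 2) (a (a (a (v (nat_lit 9) (v (nat_lit 9) (k (nat_lit 0x132db0)))) (v (nat_lit 8) (a (v (nat_lit 9) (k (nat_lit 0x98fb2))) (v (nat_lit 8) (k (nat_lit 0x945d8)))))) (a (v (nat_lit 7) (v (nat_lit 9) (k (nat_lit 0x9a170)))) (a (v (nat_lit 6) (a (v (nat_lit 9) (k (nat_lit 0x98cac))) (a (v (nat_lit 7) (k (nat_lit 0x98b92))) (v (nat_lit 6) (k (nat_lit 0x98ca6)))))) (v (nat_lit 5) (a (a (v (nat_lit 9) (k (nat_lit 0x98fb2))) (a (v (nat_lit 8) (k (nat_lit 0x1319ac))) (v (nat_lit 7) (k (nat_lit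 0x9a170))))) (a (u (nat_lit 7) (k (nat_lit 0x9a164))) (a (v (nat_lit 6) (k (nat_lit 0x98cac))) (v (nat_lit 5) (k (nat_lit 0x945d8)))))))))) (a (a (v (nat_lit 4) (a (a (v (nat_lit 9) (k (nat_lit 0x9a170))) (v (nat_lit 8) (k (nat_lit 0x9a170)))) (a (v (nat_lit 7) (k (nat_lit 0x394cbc))) (v (nat_lit 6) (k (nat_lit 0x1352d0)))))) (u (nat_lit 4) (a (v (nat_lit 8) (k (nat_lit 0x9a164))) (v (nat_lit 6) (k (nat_lit 0x9a968)))))) (a (v (nat_lit 3) (a (a (a (v (nat_lit 9) (k (nat_lit 0x98cac))) (v (nat_lit 8) (k (nat_lit 0x98cac)))) (a (v (nat_lit 7) (k (nat_lit 0x1352d0))) (u (nat_lit 7) (k (nat_lit 0x9a968))))) (a (a (v (nat_lit 6) (k (nat_lit 0x1352d0))) (u (nat_lit 6) (k (nat_lit 0x9a968)))) (a (v (nat_lit 4) (k (nat_lit 0x98b92))) (v (nat_lit 3) (k (nat_lit 0x98ca6))))))) (a (u (nat_lit 3) (v (nat_lit 6) (k (nat_lit 0x9a968)))) (v (nat_lit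 2) (a (v (nat_lit 6) (k (nat_lit 0x98ca6))) (a (v (nat_lit 3) (k (nat_lit 0x98ca6))) (v (nat_lit 2) (k (nat_lit 0x134874)))))))))))) (a (u (nat_lit 2) (a (a (v (nat_lit 7) (v (nat_lit 9) (k (nat_lit 0x9a164)))) (v (nat_lit 6) (v (nat_lit 7) (k (nat_lit 0x98b80))))) (a (v (nat_lit 4) (a (v (nat_lit 9) (k (nat_lit 0x9a164))) (v (nat_lit 6) (k (nat_lit 0x9a968))))) (a (v (nat_lit 3) (a (v (nat_lit 7) (k (nat_lit 0x9a968))) (v (nat_lit 4) (k (nat_lit 0x98b80))))) (v (nat_lit 2) (t (nat_lit 3) (nat_lit 6) (nat_lit 9) (k (nat_lit 0x8083cb0)))))))) (a (t (nat_lit 2) (nat_lit 4) (nat_lit 5) (a (a (u (nat_lit 6) (v (nat_lit 6) (k (nat_lit 0x8083cb0)))) (u (nat_lit 5) (v (nat_lit 5) (k (nat_lit 0x5eba38))))) (a (u (nat_lit 4) (u (nat_lit 9) (k (nat_lit 0x46cb738)))) (a (u (nat_lit 3) (a (u (nat_lit 9) (k (nat_lit 0x9a6fe))) (u (nat_lit 8) (k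 (nat_lit 0x81fbc3a))))) (u (nat_lit 2) (u (nat_lit 8) (k (nat_lit 0x46cb738)))))))) (t (nat_lit 2) (nat_lit 7) (nat_lit 8) (a (a (u (nat_lit 8) (v (nat_lit 8) (k (nat_lit 0x5eba38)))) (a (u (nat_lit 7) (u (nat_lit 9) (k (nat_lit 0x46cb738)))) (u (nat_lit 6) (u (nat_lit 9) (k (nat_lit 0x9a6fe)))))) (a (u (nat_lit 5) (u (nat_lit 6) (k (nat_lit 0x81fbc3a)))) (a (u (nat_lit 3) (v (nat_lit 3) (k (nat_lit 0x8083cb0)))) (u (nat_lit 2) (u (nat_lit 5) (k (nat_lit 0x46cb738))))))))))) (a (a (v (nat_lit 1) (a (a (a (v (nat_lit 9) (v (nat_lit 9) (k (nat_lit 0x132db0)))) (v (nat_lit 8) (a (v (nat_lit 9) (k (nat_lit 0x98fb2))) (v (nat_lit 8) (k (nat_lit 0x945d8)))))) (a (v (nat_lit 7) (a (v (nat_lit 9) (k (nat_lit 0x98cac))) (v (nat_lit 7) (k (nat_lit 0x98ca6))))) (a (v (nat_lit 6) (a (v (nat_lit 9) (k (nat_lit 0x9a170))) (v (nat_lit 7) (k (nat_lit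 0x98b92))))) (v (nat_lit 5) (a (a (v (nat_lit 9) (k (nat_lit 0x98fb2))) (a (v (nat_lit 8) (k (nat_lit 0x1319ac))) (v (nat_lit 7) (k (nat_lit 0x98cac))))) (a (v (nat_lit 6) (k (nat_lit 0x9a170))) (a (u (nat_lit 6) (k (nat_lit 0x9a164))) (v (nat_lit 5) (k (nat_lit 0x945d8)))))))))) (a (a (v (nat_lit 4) (a (a (v (nat_lit 9) (k (nat_lit 0x98cac))) (a (v (nat_lit 8) (k (nat_lit 0x98cac))) (v (nat_lit 7) (k (nat_lit 0x1352d0))))) (a (a (u (nat_lit 7) (k (nat_lit 0x9a968))) (v (nat_lit 6) (k (nat_lit 0x1352d0)))) (a (u (nat_lit 6) (k (nat_lit 0x9a968))) (v (nat_lit 4) (k (nat_lit 0x98ca6))))))) (a (u (nat_lit 4) (v (nat_lit 7) (k (nat_lit 0x9a968)))) (v (nat_lit 3) (a (a (v (nat_lit 9) (k (nat_lit 0x9a170))) (v (nat_lit 8) (k (nat_lit 0x9a170)))) (a (v (nat_lit 7) (k (nat_lit 0x1352d0))) (a (v (nat_lit 6) (k (nat_lit 0x394cbc))) (v (nat_lit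 4) (k (nat_lit 0x98b92))))))))) (a (u (nat_lit 3) (a (v (nat_lit 8) (k (nat_lit 0x9a164))) (v (nat_lit 7) (k (nat_lit 0x9a968))))) (a (v (nat_lit 2) (a (a (a (v (nat_lit 8) (k (nat_lit 0x131cb8))) (v (nat_lit 7) (k (nat_lit 0x98b92)))) (a (u (nat_lit 7) (k (nat_lit 0x98b80))) (a (v (nat_lit 6) (k (nat_lit 0x98b92))) (u (nat_lit 6) (k (nat_lit 0x98b80)))))) (a (a (v (nat_lit 5) (k (nat_lit 0x131cb8))) (a (v (nat_lit 4) (k (nat_lit 0x98b92))) (u (nat_lit 4) (k (nat_lit 0x98b80))))) (a (v (nat_lit 3) (k (nat_lit 0x98b92))) (a (u (nat_lit 3) (k (nat_lit 0x98b80))) (v (nat_lit 2) (k (nat_lit 0x131958)))))))) (v (nat_lit 1) (a (a (v (nat_lit 7) (k (nat_lit 0x98ca6))) (v (nat_lit 4) (k (nat_lit 0x98ca6)))) (a (v (nat_lit 2) (k (nat_lit 0x131958))) (v (nat_lit 1) (k (nat_lit 0x134874))))))))))) (a (u (nat_lit 1) (a (a (v (nat_lit 6) (a (v (nat_lit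 9) (k (nat_lit 0x9a164))) (v (nat_lit 7) (k (nat_lit 0x98b80))))) (a (v (nat_lit 4) (v (nat_lit 6) (k (nat_lit 0x9a968)))) (v (nat_lit 3) (a (v (nat_lit 9) (k (nat_lit 0x9a164))) (a (v (nat_lit 7) (k (nat_lit 0x9a968))) (v (nat_lit 4) (k (nat_lit 0x98b80)))))))) (a (t (nat_lit 2) (nat_lit 4) (nat_lit 5) (a (u (nat_lit 9) (k (nat_lit 0x81fbc3a))) (u (nat_lit 8) (k (nat_lit 0x9a6fe))))) (a (t (nat_lit 2) (nat_lit 7) (nat_lit 8) (a (u (nat_lit 9) (k (nat_lit 0x81fbc3a))) (u (nat_lit 5) (k (nat_lit 0x9a6fe))))) (v (nat_lit 1) (t (nat_lit 4) (nat_lit 7) (nat_lit 9) (k (nat_lit 0x8083cb0)))))))) (t (nat_lit 1) (nat_lit 3) (nat_lit 5) (a (a (u (nat_lit 7) (v (nat_lit 7) (k (nat_lit 0x8083cb0)))) (a (u (nat_lit 5) (v (nat_lit 5) (k (nat_lit 0x5eba38)))) (u (nat_lit 4) (a (u (nat_lit 9) (k (nat_lit 0x9a6fe))) (u (nat_lit 8) (k (nat_lit 0x81fbc3a)))))))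 (a (u (nat_lit 3) (u (nat_lit 9) (k (nat_lit 0x46cb738)))) (a (u (nat_lit 2) (a (u (nat_lit 9) (k (nat_lit 0x81fbc3a))) (u (nat_lit 8) (k (nat_lit 0x9a6fe))))) (u (nat_lit 1) (u (nat_lit 8) (k (nat_lit 0x46cb738)))))))))) (a (t (nat_lit 1) (nat_lit 6) (nat_lit 8) (a (a (u (nat_lit 8) (v (nat_lit 8) (k (nat_lit 0x5eba38)))) (a (u (nat_lit 7) (u (nat_lit 9) (k (nat_lit 0x9a6fe)))) (u (nat_lit 6) (u (nat_lit 9) (k (nat_lit 0x46cb738)))))) (a (a (u (nat_lit 5) (u (nat_lit 7) (k (nat_lit 0x81fbc3a)))) (u (nat_lit 4) (v (nat_lit 4) (k (nat_lit 0x8083cb0))))) (a (u (nat_lit 2) (a (u (nat_lit 9) (k (nat_lit 0x81fbc3a))) (u (nat_lit 5) (k (nat_lit 0x9a6fe))))) (u (nat_lit 1) (u (nat_lit 5) (k (nat_lit 0x46cb738)))))))) (a (v (nat_lit 0) (a (a (a (a (v (nat_lit 9) (v (nat_lit 9) (k (nat_lit 0x262ff8)))) (u (nat_lit 9) (v (nat_lit 9) (k (nat_lit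 0x26ec38))))) (a (v (nat_lit 8) (a (v (nat_lit 9) (k (nat_lit 0x262e30))) (v (nat_lit 8) (k (nat_lit 0x262ff8))))) (a (u (nat_lit 8) (v (nat_lit 8) (k (nat_lit 0x26ec38)))) (v (nat_lit 7) (a (v (nat_lit 9) (k (nat_lit 0x98d78))) (a (v (nat_lit 8) (k (nat_lit 0x98d78))) (v (nat_lit 7) (k (nat_lit 0x131ba4))))))))) (a (a (u (nat_lit 7) (u (nat_lit 7) (k (nat_lit 0x131784)))) (a (v (nat_lit 6) (a (a (v (nat_lit 9) (k (nat_lit 0x98d78))) (v (nat_lit 8) (k (nat_lit 0x98d78)))) (a (v (nat_lit 7) (k (nat_lit 0x262ab8))) (v (nat_lit 6) (k (nat_lit 0x131ba4)))))) (u (nat_lit 6) (u (nat_lit 6) (k (nat_lit 0x131784)))))) (a (v (nat_lit 5) (a (a (v (nat_lit 9) (k (nat_lit 0x262e30))) (v (nat_lit 8) (k (nat_lit 0x262e30)))) (a (v (nat_lit 7) (k (nat_lit 0x131ae4))) (a (v (nat_lit 6) (k (nat_lit 0x131ae4))) (v (nat_lit 5) (k (nat_lit 0x262ff8)))))))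 (a (u (nat_lit 5) (v (nat_lit 5) (k (nat_lit 0x26ec38)))) (v (nat_lit 4) (a (a (v (nat_lit 9) (k (nat_lit 0x98d78))) (a (v (nat_lit 8) (k (nat_lit 0x131ae4))) (v (nat_lit 7) (k (nat_lit 0x131a84))))) (a (v (nat_lit 6) (k (nat_lit 0x131a30))) (a (v (nat_lit 5) (k (nat_lit 0x98d78))) (v (nat_lit 4) (k (nat_lit 0x131ba4))))))))))) (a (a (a (u (nat_lit 4) (u (nat_lit 4) (k (nat_lit 0x131784)))) (a (v (nat_lit 3) (a (a (v (nat_lit 9) (k (nat_lit 0x98d78))) (a (v (nat_lit 8) (k (nat_lit 0x131ae4))) (v (nat_lit 7) (k (nat_lit 0x131a30))))) (a (a (v (nat_lit 6) (k (nat_lit 0x131a84))) (v (nat_lit 5) (k (nat_lit 0x98d78)))) (a (v (nat_lit 4) (k (nat_lit 0x262ab8))) (v (nat_lit 3) (k (nat_lit 0x131ba4))))))) (u (nat_lit 3) (u (nat_lit 3) (k (nat_lit 0x131784)))))) (a (v (nat_lit 2) (a (a (a (v (nat_lit 9) (k (nat_lit 0x131ae4))) (v (nat_lit 8)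 (k (nat_lit 0x98d78)))) (a (v (nat_lit 7) (k (nat_lit 0x131a84))) (v (nat_lit 6) (k (nat_lit 0x131a30))))) (a (a (v (nat_lit 5) (k (nat_lit 0x98d78))) (v (nat_lit 4) (k (nat_lit 0x131a84)))) (a (v (nat_lit 3) (k (nat_lit 0x131a30))) (v (nat_lit 2) (k (nat_lit 0x131ba4))))))) (a (u (nat_lit 2) (u (nat_lit 2) (k (nat_lit 0x131784)))) (t (nat_lit 2) (nat_lit 4) (nat_lit 5) (t (nat_lit 4) (nat_lit 7) (nat_lit 9) (k (nat_lit 0x31584fc))))))) (a (a (t (nat_lit 2) (nat_lit 7) (nat_lit 8) (a (t (nat_lit 4) (nat_lit 7) (nat_lit 9) (k (nat_lit 0x31584fc))) (t (nat_lit 2) (nat_lit 4) (nat_lit 5) (k (nat_lit 0x31584fc))))) (a (v (nat_lit 1) (a (a (a (v (nat_lit 9) (k (nat_lit 0x131ae4))) (v (nat_lit 8) (k (nat_lit 0x98d78)))) (a (v (nat_lit 7) (k (nat_lit 0x131a30))) (v (nat_lit 6) (k (nat_lit 0x131a84))))) (a (a (v (nat_lit 5) (k (nat_lit 0x98d78)))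 (v (nat_lit 4) (k (nat_lit 0x131a30)))) (a (v (nat_lit 3) (k (nat_lit 0x131a84))) (a (v (nat_lit 2) (k (nat_lit 0x262ab8))) (v (nat_lit 1) (k (nat_lit 0x131ba4)))))))) (u (nat_lit 1) (u (nat_lit 1) (k (nat_lit 0x131784)))))) (a (t (nat_lit 1) (nat_lit 3) (nat_lit 5) (t (nat_lit 3) (nat_lit 6) (nat_lit 9) (k (nat_lit 0x31584fc)))) (a (t (nat_lit 1) (nat_lit 6) (nat_lit 8) (a (t (nat_lit 3) (nat_lit 6) (nat_lit 9) (k (nat_lit 0x31584fc))) (t (nat_lit 1) (nat_lit 3) (nat_lit 5) (k (nat_lit 0x31584fc))))) (v (nat_lit 0) (a (a (a (a (v (nat_lit 9) (k (nat_lit 0x262cb0))) (v (nat_lit 8) (k (nat_lit 0x262cb0)))) (a (v (nat_lit 7) (k (nat_lit 0x131bf8))) (u (nat_lit 7) (k (nat_lit 0x1319c4))))) (a (a (v (nat_lit 6) (k (nat_lit 0x131bf8))) (u (nat_lit 6) (k (nat_lit 0x1319c4)))) (a (v (nat_lit 5) (k (nat_lit 0x262cb0))) (v (nat_lit 4) (k (nat_lit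 0x131bf8)))))) (a (a (a (u (nat_lit 4) (k (nat_lit 0x1319c4))) (v (nat_lit 3) (k (nat_lit 0x131bf8)))) (a (u (nat_lit 3) (k (nat_lit 0x1319c4))) (v (nat_lit 2) (k (nat_lit 0x131bf8))))) (a (a (u (nat_lit 2) (k (nat_lit 0x1319c4))) (v (nat_lit 1) (k (nat_lit 0x131bf8)))) (a (u (nat_lit 1) (k (nat_lit 0x1319c4))) (v (nat_lit 0) (k (nat_lit 0x7296a8)))))))))))))) (u (nat_lit 0) (a (a (t (nat_lit 4) (nat_lit 7) (nat_lit 9) (a (a (u (nat_lit 8) (k (nat_lit 0x5fbc896))) (u (nat_lit 7) (k (nat_lit 0x192e436)))) (a (u (nat_lit 5) (k (nat_lit 0x5fbc896))) (u (nat_lit 4) (k (nat_lit 0x192e436)))))) (a (t (nat_lit 3) (nat_lit 6) (nat_lit 9) (a (a (u (nat_lit 8) (k (nat_lit 0x5fbc896))) (u (nat_lit 6) (k (nat_lit 0x192e436)))) (a (u (nat_lit 5) (k (nat_lit 0x5fbc896))) (u (nat_lit 3) (k (nat_lit 0x192e436)))))) (t (nat_lit 2) (nat_lit 4) (nat_lit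 5) (a (a (u (nat_lit 9) (k (nat_lit 0x5fbc896))) (u (nat_lit 8) (k (nat_lit 0x5fbc896)))) (a (u (nat_lit 4) (k (nat_lit 0x192e436))) (u (nat_lit 2) (k (nat_lit 0x192e436)))))))) (a (t (nat_lit 2) (nat_lit 7) (nat_lit 8) (a (a (u (nat_lit 9) (k (nat_lit 0x5fbc896))) (u (nat_lit 7) (k (nat_lit 0x192e436)))) (a (u (nat_lit 5) (k (nat_lit 0x5fbc896))) (u (nat_lit 2) (k (nat_lit 0x192e436)))))) (a (t (nat_lit 1) (nat_lit 3) (nat_lit 5) (a (a (u (nat_lit 9) (k (nat_lit 0x5fbc896))) (u (nat_lit 8) (k (nat_lit 0x5fbc896)))) (a (u (nat_lit 3) (k (nat_lit 0x192e436))) (u (nat_lit 1) (k (nat_lit 0x192e436)))))) (t (nat_lit 1) (nat_lit 6) (nat_lit 8) (a (a (u (nat_lit 9) (k (nat_lit 0x5fbc896))) (u (nat_lit 6) (k (nat_lit 0x192e436)))) (a (u (nat_lit 5) (k (nat_lit 0x5fbc896))) (u (nat_lit 1) (k (nat_lit 0x192e436)))))))))))))))))))))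

open Fl.Tr in
/-- the table -/
noncomputable def T : Fl.Tr := (c (c (c (c (c (c (c (c (c (c (m (nat_lit 0x21bb05648)) (c (p (nat_lit 0xd5f2d3a8)) (c (p (nat_lit 0x4bd04da8)) (c (m (nat_lit 0x3c09ab0)) (c (m (nat_lit 0x263298)) e))))) (c (c (p (nat_lit 0xd5f2d3a8)) (c (m (nat_lit 0x1442c868)) (c (m (nat_lit 0x1c8a0a28)) (c (m (nat_lit 0x7fa5d28)) e)))) (c (c (p (nat_lit 0x4bd04da8)) (c (m (nat_lit 0x1c8a0a28)) (c (m (nat_lit 0x121d4cd8)) e))) (c (c (m (nat_lit 0x3c09ab0)) (c (m (nat_lit 0x7fa5d28)) e)) (c (c (m (nat_lit 0x263298)) e) e))))) (c (c (c (p (nat_lit 0x131f34f3c)) (c (m (nat_lit 0x7fb50700)) (c (m (nat_lit 0x1a9b0c8)) (c (m (nat_lit 0x98cac)) e)))) (c (c (m (nat_lit 0x7fb50700)) (c (p (nat_lit 0x472397d0)) (c (m (nat_lit 0x106bc6e4)) e))) (c (c (m (nat_lit 0x1a9b0c8)) (c (m (nat_lit 0x106bc6e4)) e)) (c (c (m (nat_lit 0x98cac))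 e) e)))) (c (c (c (m (nat_lit 0x6594e70c)) (c (p (nat_lit 0x33d2bebc)) (c (m (nat_lit 0x3fd2ea0)) e))) (c (c (p (nat_lit 0x33d2bebc)) (c (m (nat_lit 0x8340d68)) e)) (c (c (m (nat_lit 0x3fd2ea0)) e) e))) (c (c (c (p (nat_lit 0x2ca7854)) (c (m (nat_lit 0x1cff14)) e)) (c (c (m (nat_lit 0x1cff14)) e) e)) (c (c (c (m (nat_lit 0x268bd8)) e) e) e))))) (c (c (c (c (p (nat_lit 0x131f34f3c)) (c (m (nat_lit 0x7fb50700)) (c (m (nat_lit 0x1a9b0c8)) (c (m (nat_lit 0x98cac)) e)))) (c (c (m (nat_lit 0x7fb50700)) (c (p (nat_lit 0x472397d0)) (c (m (nat_lit 0x106bc6e4)) e))) (c (c (m (nat_lit 0x1a9b0c8)) (c (m (nat_lit 0x106bc6e4)) e)) (c (c (m (nat_lit 0x98cac)) e) e)))) (c (c (c (m (nat_lit 0xd4aa1b68)) (c (p (nat_lit 0x2c333b98)) (c (m (nat_lit 0x263598)) e))) (c (c (p (nat_lit 0x2c333b98)) (c (m (nat_lit 0x4c0260)) e)) (c (c (m (nat_lit 0x263598))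 e) e))) (c (c (c (p (nat_lit 0xfb632d4)) (c (m (nat_lit 0x42e484)) e)) (c (c (m (nat_lit 0x42e484)) e) e)) (c (c (c (m (nat_lit 0x131988)) e) e) e)))) (c (c (c (c (m (nat_lit 0x6594e70c)) (c (p (nat_lit 0x33d2bebc)) (c (m (nat_lit 0x3fd2ea0)) e))) (c (c (p (nat_lit 0x33d2bebc)) (c (m (nat_lit 0x8340d68)) e)) (c (c (m (nat_lit 0x3fd2ea0)) e) e))) (c (c (c (p (nat_lit 0xfb632d4)) (c (m (nat_lit 0x42e484)) e)) (c (c (m (nat_lit 0x42e484)) e) e)) (c (c (c (m (nat_lit 0x72ad10)) e) e) e))) (c (c (c (c (p (nat_lit 0x2ca7854)) (c (m (nat_lit 0x1cff14)) e)) (c (c (m (nat_lit 0x1cff14)) e) e)) (c (c (c (m (nat_lit 0x131988)) e) e) e)) (c (c (c (c (m (nat_lit 0x268bd8)) e) e) e) e))))) (c (c (c (c (c (p (nat_lit 0xd5f2d3a8)) (c (m (nat_lit 0x1442c868)) (c (m (nat_lit 0x1c8a0a28)) (c (m (nat_lit 0x7fa5d28)) e)))) (c (c (m (nat_lit 0x1442c868))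 (c (m (nat_lit 0x130a6da8)) (c (p (nat_lit 0xbcad128)) e))) (c (c (m (nat_lit 0x1c8a0a28)) (c (p (nat_lit 0xbcad128)) e)) (c (c (m (nat_lit 0x7fa5d28)) e) e)))) (c (c (c (m (nat_lit 0x17c80a88)) (c (m (nat_lit 0x221e410)) (c (p (nat_lit 0x233b83c)) e))) (c (c (m (nat_lit 0x221e410)) (c (m (nat_lit 0x15eeb480)) e)) (c (c (p (nat_lit 0x233b83c)) e) e))) (c (c (c (p (nat_lit 0x24560f88)) (c (m (nat_lit 0x1a84a06c)) e)) (c (c (m (nat_lit 0x1a84a06c)) e) e)) (c (c (c (m (nat_lit 0x2901cd8)) e) e) e)))) (c (c (c (c (m (nat_lit 0x17c80a88)) (c (m (nat_lit 0x221e410)) (c (p (nat_lit 0x233b83c)) e))) (c (c (m (nat_lit 0x221e410)) (c (m (nat_lit 0x15eeb480)) e)) (c (c (p (nat_lit 0x233b83c)) e) e))) (c (c (c (p (nat_lit 0x4a516f70)) (c (m (nat_lit 0x9cac98)) e)) (c (c (m (nat_lit 0x9cac98)) e) e)) (c (c (c (m (nat_lit 0x897948)) e) e) e))) (c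 (c (c (c (p (nat_lit 0x24560f88)) (c (m (nat_lit 0x1a84a06c)) e)) (c (c (m (nat_lit 0x1a84a06c)) e) e)) (c (c (c (m (nat_lit 0x897948)) e) e) e)) (c (c (c (c (m (nat_lit 0x2901cd8)) e) e) e) e)))) (c (c (c (c (c (p (nat_lit 0x4bd04da8)) (c (m (nat_lit 0x1c8a0a28)) (c (m (nat_lit 0x121d4cd8)) e))) (c (c (m (nat_lit 0x1c8a0a28)) (c (p (nat_lit 0xbcad128)) e)) (c (c (m (nat_lit 0x121d4cd8)) e) e))) (c (c (c (m (nat_lit 0x36df1b50)) (c (p (nat_lit 0x151fbb58)) e)) (c (c (p (nat_lit 0x151fbb58)) e) e)) (c (c (c (p (nat_lit 0xd2a7ee0)) e) e) e))) (c (c (c (c (m (nat_lit 0x36df1b50)) (c (p (nat_lit 0x151fbb58)) e)) (c (c (p (nat_lit 0x151fbb58)) e) e)) (c (c (c (m (nat_lit 0x68a9e88)) e) e) e)) (c (c (c (c (p (nat_lit 0xd2a7ee0)) e) e) e) e))) (c (c (c (c (c (m (nat_lit 0x3c09ab0)) (c (m (nat_lit 0x7fa5d28)) e)) (c (c (m (nat_lit 0x7fa5d28))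 e) e)) (c (c (c (p (nat_lit 0x98f21b8)) e) e) e)) (c (c (c (c (p (nat_lit 0x98f21b8)) e) e) e) e)) (c (c (c (c (c (m (nat_lit 0x263298)) e) e) e) e) e))))) (c (c (c (c (c (c (p (nat_lit 0x131f34f3c)) (c (m (nat_lit 0x7fb50700)) (c (m (nat_lit 0x1a9b0c8)) (c (m (nat_lit 0x98cac)) e)))) (c (c (m (nat_lit 0x17c80a88)) (c (m (nat_lit 0x221e410)) (c (p (nat_lit 0x233b83c)) e))) (c (c (m (nat_lit 0x36df1b50)) (c (p (nat_lit 0x151fbb58)) e)) (c (c (p (nat_lit 0x98f21b8)) e) e)))) (c (c (c (m (nat_lit 0x2ba88744)) (c (m (nat_lit 0x271fea8)) (c (p (nat_lit 0xad648b8)) e))) (c (c (m (nat_lit 0xda83f44)) (c (p (nat_lit 0x61104a8)) e)) (c (c (p (nat_lit 0x125030a0)) e) e))) (c (c (c (p (nat_lit 0xd1463fc)) (c (p (nat_lit 0x200e380)) e)) (c (c (m (nat_lit 0x29a25b0)) e) e)) (c (c (c (m (nat_lit 0x29a0930)) e) e) e)))) (c (c (c (c (m (nat_lit 0x3ec51640))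 (c (p (nat_lit 0x4d607f18)) (c (m (nat_lit 0xbebcca8)) e))) (c (c (p (nat_lit 0x4a378988)) (c (m (nat_lit 0xfcb9e44)) e)) (c (c (m (nat_lit 0x9ecc25c)) e) e))) (c (c (c (p (nat_lit 0x34b2abc4)) (c (m (nat_lit 0xd97a684)) e)) (c (c (m (nat_lit 0xb738700)) e) e)) (c (c (c (m (nat_lit 0x98ca0)) e) e) e))) (c (c (c (c (p (nat_lit 0xc026070)) (c (m (nat_lit 0x63aad30)) e)) (c (c (m (nat_lit 0x13205b50)) e) e)) (c (c (c (m (nat_lit 0x7f01190)) e) e) e)) (c (c (c (c (p (nat_lit 0x84c)) e) e) e) e)))) (c (c (c (c (c (m (nat_lit 0x7fb50700)) (c (p (nat_lit 0x472397d0)) (c (m (nat_lit 0x106bc6e4)) e))) (c (c (m (nat_lit 0x221e410)) (c (m (nat_lit 0x15eeb480)) e)) (c (c (p (nat_lit 0x151fbb58)) e) e))) (c (c (c (m (nat_lit 0xda83f44)) (c (p (nat_lit 0x61104a8)) e)) (c (c (m (nat_lit 0x39ae18c)) e) e)) (c (c (c (m (nat_lit 0x4fa1f90)) e) e) e)))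 (c (c (c (c (p (nat_lit 0x4a378988)) (c (m (nat_lit 0xfcb9e44)) e)) (c (c (m (nat_lit 0x16e57d8)) e) e)) (c (c (c (m (nat_lit 0xd323924)) e) e) e)) (c (c (c (c (m (nat_lit 0x8bedec0)) e) e) e) e))) (c (c (c (c (c (m (nat_lit 0x1a9b0c8)) (c (m (nat_lit 0x106bc6e4)) e)) (c (c (p (nat_lit 0x233b83c)) e) e)) (c (c (c (p (nat_lit 0x125030a0)) e) e) e)) (c (c (c (c (m (nat_lit 0x9ecc25c)) e) e) e) e)) (c (c (c (c (c (m (nat_lit 0x98cac)) e) e) e) e) e)))) (c (c (c (c (c (c (m (nat_lit 0x6594e70c)) (c (p (nat_lit 0x33d2bebc)) (c (m (nat_lit 0x3fd2ea0)) e))) (c (c (p (nat_lit 0x24560f88)) (c (m (nat_lit 0x1a84a06c)) e)) (c (c (p (nat_lit 0xd2a7ee0)) e) e))) (c (c (c (p (nat_lit 0xd1463fc)) (c (p (nat_lit 0x200e380)) e)) (c (c (m (nat_lit 0x4fa1f90)) e) e)) (c (c (c (m (nat_lit 0x50d2da8)) e) e) e))) (c (c (c (c (p (nat_lit 0xc026070)) (c (m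 (nat_lit 0x63aad30)) e)) (c (c (m (nat_lit 0x8bedec0)) e) e)) (c (c (c (m (nat_lit 0x98cdc)) e) e) e)) (c (c (c (c (m (nat_lit 0x765ff0)) e) e) e) e))) (c (c (c (c (c (p (nat_lit 0x33d2bebc)) (c (m (nat_lit 0x8340d68)) e)) (c (c (m (nat_lit 0x1a84a06c)) e) e)) (c (c (c (m (nat_lit 0x29a25b0)) e) e) e)) (c (c (c (c (m (nat_lit 0x13205b50)) e) e) e) e)) (c (c (c (c (c (m (nat_lit 0x3fd2ea0)) e) e) e) e) e))) (c (c (c (c (c (c (p (nat_lit 0x2ca7854)) (c (m (nat_lit 0x1cff14)) e)) (c (c (m (nat_lit 0x2901cd8)) e) e)) (c (c (c (m (nat_lit 0x29a0930)) e) e) e)) (c (c (c (c (p (nat_lit 0x84c)) e) e) e) e)) (c (c (c (c (c (m (nat_lit 0x1cff14)) e) e) e) e) e)) (c (c (c (c (c (c (m (nat_lit 0x268bd8)) e) e) e) e) e) e))))) (c (c (c (c (c (c (c (p (nat_lit 0x131f34f3c)) (c (m (nat_lit 0x7fb50700)) (c (m (nat_lit 0x1a9b0c8)) (c (m (nat_lit 0x98cac))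 e)))) (c (c (m (nat_lit 0x17c80a88)) (c (m (nat_lit 0x221e410)) (c (p (nat_lit 0x233b83c)) e))) (c (c (m (nat_lit 0x36df1b50)) (c (p (nat_lit 0x151fbb58)) e)) (c (c (p (nat_lit 0x98f21b8)) e) e)))) (c (c (c (m (nat_lit 0x3ec51640)) (c (p (nat_lit 0x4d607f18)) (c (m (nat_lit 0xbebcca8)) e))) (c (c (p (nat_lit 0x4a378988)) (c (m (nat_lit 0xfcb9e44)) e)) (c (c (m (nat_lit 0x9ecc25c)) e) e))) (c (c (c (p (nat_lit 0xc026070)) (c (m (nat_lit 0x63aad30)) e)) (c (c (m (nat_lit 0x13205b50)) e) e)) (c (c (c (p (nat_lit 0x84c)) e) e) e)))) (c (c (c (c (m (nat_lit 0x2ba88744)) (c (m (nat_lit 0x271fea8)) (c (p (nat_lit 0xad648b8)) e))) (c (c (m (nat_lit 0xda83f44)) (c (p (nat_lit 0x61104a8)) e)) (c (c (p (nat_lit 0x125030a0)) e) e))) (c (c (c (p (nat_lit 0x34b2abc4)) (c (m (nat_lit 0xd97a684)) e)) (c (c (m (nat_lit 0xb738700)) e) e)) (c (c (c (m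 (nat_lit 0x7f01190)) e) e) e))) (c (c (c (c (p (nat_lit 0xd1463fc)) (c (p (nat_lit 0x200e380)) e)) (c (c (m (nat_lit 0x29a25b0)) e) e)) (c (c (c (m (nat_lit 0x98ca0)) e) e) e)) (c (c (c (c (m (nat_lit 0x29a0930)) e) e) e) e)))) (c (c (c (c (c (m (nat_lit 0x7fb50700)) (c (p (nat_lit 0x472397d0)) (c (m (nat_lit 0x106bc6e4)) e))) (c (c (m (nat_lit 0x221e410)) (c (m (nat_lit 0x15eeb480)) e)) (c (c (p (nat_lit 0x151fbb58)) e) e))) (c (c (c (p (nat_lit 0x4a378988)) (c (m (nat_lit 0xfcb9e44)) e)) (c (c (m (nat_lit 0x16e57d8)) e) e)) (c (c (c (m (nat_lit 0x8bedec0)) e) e) e))) (c (c (c (c (m (nat_lit 0xda83f44)) (c (p (nat_lit 0x61104a8)) e)) (c (c (m (nat_lit 0x39ae18c)) e) e)) (c (c (c (m (nat_lit 0xd323924)) e) e) e)) (c (c (c (c (m (nat_lit 0x4fa1f90)) e) e) e) e))) (c (c (c (c (c (m (nat_lit 0x1a9b0c8)) (c (m (nat_lit 0x106bc6e4)) e))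 (c (c (p (nat_lit 0x233b83c)) e) e)) (c (c (c (m (nat_lit 0x9ecc25c)) e) e) e)) (c (c (c (c (p (nat_lit 0x125030a0)) e) e) e) e)) (c (c (c (c (c (m (nat_lit 0x98cac)) e) e) e) e) e)))) (c (c (c (c (c (c (m (nat_lit 0xd4aa1b68)) (c (p (nat_lit 0x2c333b98)) (c (m (nat_lit 0x263598)) e))) (c (c (p (nat_lit 0x4a516f70)) (c (m (nat_lit 0x9cac98)) e)) (c (c (m (nat_lit 0x68a9e88)) e) e))) (c (c (c (p (nat_lit 0x34b2abc4)) (c (m (nat_lit 0xd97a684)) e)) (c (c (m (nat_lit 0xd323924)) e) e)) (c (c (c (m (nat_lit 0x98cdc)) e) e) e))) (c (c (c (c (p (nat_lit 0x34b2abc4)) (c (m (nat_lit 0xd97a684)) e)) (c (c (m (nat_lit 0xd323924)) e) e)) (c (c (c (m (nat_lit 0x2a6a6fb0)) e) e) e)) (c (c (c (c (m (nat_lit 0x98cdc)) e) e) e) e))) (c (c (c (c (c (p (nat_lit 0x2c333b98)) (c (m (nat_lit 0x4c0260)) e)) (c (c (m (nat_lit 0x9cac98)) e) e)) (c (c (c (m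 (nat_lit 0xb738700)) e) e) e)) (c (c (c (c (m (nat_lit 0xb738700)) e) e) e) e)) (c (c (c (c (c (m (nat_lit 0x263598)) e) e) e) e) e))) (c (c (c (c (c (c (p (nat_lit 0xfb632d4)) (c (m (nat_lit 0x42e484)) e)) (c (c (m (nat_lit 0x897948)) e) e)) (c (c (c (m (nat_lit 0x98ca0)) e) e) e)) (c (c (c (c (m (nat_lit 0x7f01190)) e) e) e) e)) (c (c (c (c (c (m (nat_lit 0x42e484)) e) e) e) e) e)) (c (c (c (c (c (c (m (nat_lit 0x131988)) e) e) e) e) e) e)))) (c (c (c (c (c (c (c (m (nat_lit 0x6594e70c)) (c (p (nat_lit 0x33d2bebc)) (c (m (nat_lit 0x3fd2ea0)) e))) (c (c (p (nat_lit 0x24560f88)) (c (m (nat_lit 0x1a84a06c)) e)) (c (c (p (nat_lit 0xd2a7ee0)) e) e))) (c (c (c (p (nat_lit 0xc026070)) (c (m (nat_lit 0x63aad30)) e)) (c (c (m (nat_lit 0x8bedec0)) e) e)) (c (c (c (m (nat_lit 0x765ff0)) e) e) e))) (c (c (c (c (p (nat_lit 0xd1463fc)) (c (p (nat_lit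 0x200e380)) e)) (c (c (m (nat_lit 0x4fa1f90)) e) e)) (c (c (c (m (nat_lit 0x98cdc)) e) e) e)) (c (c (c (c (m (nat_lit 0x50d2da8)) e) e) e) e))) (c (c (c (c (c (p (nat_lit 0x33d2bebc)) (c (m (nat_lit 0x8340d68)) e)) (c (c (m (nat_lit 0x1a84a06c)) e) e)) (c (c (c (m (nat_lit 0x13205b50)) e) e) e)) (c (c (c (c (m (nat_lit 0x29a25b0)) e) e) e) e)) (c (c (c (c (c (m (nat_lit 0x3fd2ea0)) e) e) e) e) e))) (c (c (c (c (c (c (p (nat_lit 0xfb632d4)) (c (m (nat_lit 0x42e484)) e)) (c (c (m (nat_lit 0x897948)) e) e)) (c (c (c (m (nat_lit 0x7f01190)) e) e) e)) (c (c (c (c (m (nat_lit 0x98ca0)) e) e) e) e)) (c (c (c (c (c (m (nat_lit 0x42e484)) e) e) e) e) e)) (c (c (c (c (c (c (m (nat_lit 0x72ad10)) e) e) e) e) e) e))) (c (c (c (c (c (c (c (p (nat_lit 0x2ca7854)) (c (m (nat_lit 0x1cff14)) e)) (c (c (m (nat_lit 0x2901cd8)) e) e)) (c (c (c (p (nat_lit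 0x84c)) e) e) e)) (c (c (c (c (m (nat_lit 0x29a0930)) e) e) e) e)) (c (c (c (c (c (m (nat_lit 0x1cff14)) e) e) e) e) e)) (c (c (c (c (c (c (m (nat_lit 0x131988)) e) e) e) e) e) e)) (c (c (c (c (c (c (c (m (nat_lit 0x268bd8)) e) e) e) e) e) e) e))))) (c (c (c (c (c (c (c (c (p (nat_lit 0x131f34f3c)) (c (m (nat_lit 0x17c80a88)) (c (m (nat_lit 0x36df1b50)) (c (p (nat_lit 0x98f21b8)) e)))) (c (c (m (nat_lit 0x7fb50700)) (c (m (nat_lit 0x221e410)) (c (p (nat_lit 0x151fbb58)) e))) (c (c (m (nat_lit 0x1a9b0c8)) (c (p (nat_lit 0x233b83c)) e)) (c (c (m (nat_lit 0x98cac)) e) e)))) (c (c (c (m (nat_lit 0x2ba88744)) (c (m (nat_lit 0xda83f44)) (c (p (nat_lit 0x125030a0)) e))) (c (c (m (nat_lit 0x271fea8)) (c (p (nat_lit 0x61104a8)) e)) (c (c (p (nat_lit 0xad648b8)) e) e))) (c (c (c (p (nat_lit 0xd1463fc)) (c (m (nat_lit 0x29a25b0)) e)) (c (c (p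 (nat_lit 0x200e380)) e) e)) (c (c (c (m (nat_lit 0x29a0930)) e) e) e)))) (c (c (c (c (m (nat_lit 0x3ec51640)) (c (p (nat_lit 0x4a378988)) (c (m (nat_lit 0x9ecc25c)) e))) (c (c (p (nat_lit 0x4d607f18)) (c (m (nat_lit 0xfcb9e44)) e)) (c (c (m (nat_lit 0xbebcca8)) e) e))) (c (c (c (p (nat_lit 0x34b2abc4)) (c (m (nat_lit 0xb738700)) e)) (c (c (m (nat_lit 0xd97a684)) e) e)) (c (c (c (m (nat_lit 0x98ca0)) e) e) e))) (c (c (c (c (p (nat_lit 0xc026070)) (c (m (nat_lit 0x13205b50)) e)) (c (c (m (nat_lit 0x63aad30)) e) e)) (c (c (c (m (nat_lit 0x7f01190)) e) e) e)) (c (c (c (c (p (nat_lit 0x84c)) e) e) e) e)))) (c (c (c (c (c (m (nat_lit 0x7fb50700)) (c (m (nat_lit 0x221e410)) (c (p (nat_lit 0x151fbb58)) e))) (c (c (p (nat_lit 0x472397d0)) (c (m (nat_lit 0x15eeb480)) e)) (c (c (m (nat_lit 0x106bc6e4)) e) e))) (c (c (c (m (nat_lit 0xda83f44))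 (c (m (nat_lit 0x39ae18c)) e)) (c (c (p (nat_lit 0x61104a8)) e) e)) (c (c (c (m (nat_lit 0x4fa1f90)) e) e) e))) (c (c (c (c (p (nat_lit 0x4a378988)) (c (m (nat_lit 0x16e57d8)) e)) (c (c (m (nat_lit 0xfcb9e44)) e) e)) (c (c (c (m (nat_lit 0xd323924)) e) e) e)) (c (c (c (c (m (nat_lit 0x8bedec0)) e) e) e) e))) (c (c (c (c (c (m (nat_lit 0x1a9b0c8)) (c (p (nat_lit 0x233b83c)) e)) (c (c (m (nat_lit 0x106bc6e4)) e) e)) (c (c (c (p (nat_lit 0x125030a0)) e) e) e)) (c (c (c (c (m (nat_lit 0x9ecc25c)) e) e) e) e)) (c (c (c (c (c (m (nat_lit 0x98cac)) e) e) e) e) e)))) (c (c (c (c (c (c (m (nat_lit 0x2ba88744)) (c (m (nat_lit 0xda83f44)) (c (p (nat_lit 0x125030a0)) e))) (c (c (m (nat_lit 0xda83f44)) (c (m (nat_lit 0x39ae18c)) e)) (c (c (p (nat_lit 0x125030a0)) e) e))) (c (c (c (m (nat_lit 0x1c3eab84)) (c (p (nat_lit 0xe9e2ff0)) e)) (c (c (p (nat_lit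 0xe9e2ff0)) e) e)) (c (c (c (m (nat_lit 0xa1ab388)) e) e) e))) (c (c (c (c (m (nat_lit 0x366db534)) (c (m (nat_lit 0xf62f34)) e)) (c (c (m (nat_lit 0xf62f34)) e) e)) (c (c (c (p (nat_lit 0x1a0cb0f8)) e) e) e)) (c (c (c (c (p (nat_lit 0x4569ac8)) e) e) e) e))) (c (c (c (c (c (m (nat_lit 0x271fea8)) (c (p (nat_lit 0x61104a8)) e)) (c (c (p (nat_lit 0x61104a8)) e) e)) (c (c (c (p (nat_lit 0xe9e2ff0)) e) e) e)) (c (c (c (c (m (nat_lit 0x11235ff0)) e) e) e) e)) (c (c (c (c (c (p (nat_lit 0xad648b8)) e) e) e) e) e))) (c (c (c (c (c (c (p (nat_lit 0xd1463fc)) (c (m (nat_lit 0x29a25b0)) e)) (c (c (m (nat_lit 0x4fa1f90)) e) e)) (c (c (c (m (nat_lit 0xa1ab388)) e) e) e)) (c (c (c (c (p (nat_lit 0x6f60f6c)) e) e) e) e)) (c (c (c (c (c (p (nat_lit 0x200e380)) e) e) e) e) e)) (c (c (c (c (c (c (m (nat_lit 0x29a0930)) e) e) e) e) e) e)))) (c (c (c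 (c (c (c (c (m (nat_lit 0x3ec51640)) (c (p (nat_lit 0x4a378988)) (c (m (nat_lit 0x9ecc25c)) e))) (c (c (p (nat_lit 0x4a378988)) (c (m (nat_lit 0x16e57d8)) e)) (c (c (m (nat_lit 0x9ecc25c)) e) e))) (c (c (c (m (nat_lit 0x366db534)) (c (m (nat_lit 0xf62f34)) e)) (c (c (m (nat_lit 0x11235ff0)) e) e)) (c (c (c (p (nat_lit 0x6f60f6c)) e) e) e))) (c (c (c (c (m (nat_lit 0x366db534)) (c (m (nat_lit 0x11235ff0)) e)) (c (c (m (nat_lit 0xf62f34)) e) e)) (c (c (c (m (nat_lit 0x1c14c78)) e) e) e)) (c (c (c (c (p (nat_lit 0x6f60f6c)) e) e) e) e))) (c (c (c (c (c (p (nat_lit 0x4d607f18)) (c (m (nat_lit 0xfcb9e44)) e)) (c (c (m (nat_lit 0xfcb9e44)) e) e)) (c (c (c (m (nat_lit 0xf62f34)) e) e) e)) (c (c (c (c (m (nat_lit 0xf62f34)) e) e) e) e)) (c (c (c (c (c (m (nat_lit 0xbebcca8)) e) e) e) e) e))) (c (c (c (c (c (c (p (nat_lit 0x34b2abc4)) (c (m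 (nat_lit 0xb738700)) e)) (c (c (m (nat_lit 0xd323924)) e) e)) (c (c (c (p (nat_lit 0x1a0cb0f8)) e) e) e)) (c (c (c (c (m (nat_lit 0x1c14c78)) e) e) e) e)) (c (c (c (c (c (m (nat_lit 0xd97a684)) e) e) e) e) e)) (c (c (c (c (c (c (m (nat_lit 0x98ca0)) e) e) e) e) e) e))) (c (c (c (c (c (c (c (p (nat_lit 0xc026070)) (c (m (nat_lit 0x13205b50)) e)) (c (c (m (nat_lit 0x8bedec0)) e) e)) (c (c (c (p (nat_lit 0x4569ac8)) e) e) e)) (c (c (c (c (p (nat_lit 0x6f60f6c)) e) e) e) e)) (c (c (c (c (c (m (nat_lit 0x63aad30)) e) e) e) e) e)) (c (c (c (c (c (c (m (nat_lit 0x7f01190)) e) e) e) e) e) e)) (c (c (c (c (c (c (c (p (nat_lit 0x84c)) e) e) e) e) e) e) e)))) (c (c (c (c (c (c (c (c (m (nat_lit 0x6594e70c)) (c (p (nat_lit 0x24560f88)) (c (p (nat_lit 0xd2a7ee0)) e))) (c (c (p (nat_lit 0x33d2bebc)) (c (m (nat_lit 0x1a84a06c)) e)) (c (c (m (nat_lit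 0x3fd2ea0)) e) e))) (c (c (c (p (nat_lit 0xd1463fc)) (c (m (nat_lit 0x4fa1f90)) e)) (c (c (p (nat_lit 0x200e380)) e) e)) (c (c (c (m (nat_lit 0x50d2da8)) e) e) e))) (c (c (c (c (p (nat_lit 0xc026070)) (c (m (nat_lit 0x8bedec0)) e)) (c (c (m (nat_lit 0x63aad30)) e) e)) (c (c (c (m (nat_lit 0x98cdc)) e) e) e)) (c (c (c (c (m (nat_lit 0x765ff0)) e) e) e) e))) (c (c (c (c (c (p (nat_lit 0x33d2bebc)) (c (m (nat_lit 0x1a84a06c)) e)) (c (c (m (nat_lit 0x8340d68)) e) e)) (c (c (c (m (nat_lit 0x29a25b0)) e) e) e)) (c (c (c (c (m (nat_lit 0x13205b50)) e) e) e) e)) (c (c (c (c (c (m (nat_lit 0x3fd2ea0)) e) e) e) e) e))) (c (c (c (c (c (c (p (nat_lit 0xd1463fc)) (c (m (nat_lit 0x4fa1f90)) e)) (c (c (m (nat_lit 0x29a25b0)) e) e)) (c (c (c (m (nat_lit 0xa1ab388)) e) e) e)) (c (c (c (c (p (nat_lit 0x6f60f6c)) e) e) e) e)) (c (c (c (c (c (p (nat_lit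 0x200e380)) e) e) e) e) e)) (c (c (c (c (c (c (m (nat_lit 0x50d2da8)) e) e) e) e) e) e))) (c (c (c (c (c (c (c (p (nat_lit 0xc026070)) (c (m (nat_lit 0x8bedec0)) e)) (c (c (m (nat_lit 0x13205b50)) e) e)) (c (c (c (p (nat_lit 0x6f60f6c)) e) e) e)) (c (c (c (c (p (nat_lit 0x4569ac8)) e) e) e) e)) (c (c (c (c (c (m (nat_lit 0x63aad30)) e) e) e) e) e)) (c (c (c (c (c (c (m (nat_lit 0x98cdc)) e) e) e) e) e) e)) (c (c (c (c (c (c (c (m (nat_lit 0x765ff0)) e) e) e) e) e) e) e))) (c (c (c (c (c (c (c (c (p (nat_lit 0x2ca7854)) (c (m (nat_lit 0x2901cd8)) e)) (c (c (m (nat_lit 0x1cff14)) e) e)) (c (c (c (m (nat_lit 0x29a0930)) e) e) e)) (c (c (c (c (p (nat_lit 0x84c)) e) e) e) e)) (c (c (c (c (c (m (nat_lit 0x1cff14)) e) e) e) e) e)) (c (c (c (c (c (c (m (nat_lit 0x29a0930)) e) e) e) e) e) e)) (c (c (c (c (c (c (c (p (nat_lit 0x84c)) e) e) e)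 e) e) e) e)) (c (c (c (c (c (c (c (c (m (nat_lit 0x268bd8)) e) e) e) e) e) e) e) e))))) (c (c (c (c (c (c (c (c (c (p (nat_lit 0x131f34f3c)) (c (m (nat_lit 0x17c80a88)) (c (m (nat_lit 0x36df1b50)) (c (p (nat_lit 0x98f21b8)) e)))) (c (c (m (nat_lit 0x7fb50700)) (c (m (nat_lit 0x221e410)) (c (p (nat_lit 0x151fbb58)) e))) (c (c (m (nat_lit 0x1a9b0c8)) (c (p (nat_lit 0x233b83c)) e)) (c (c (m (nat_lit 0x98cac)) e) e)))) (c (c (c (m (nat_lit 0x3ec51640)) (c (p (nat_lit 0x4a378988)) (c (m (nat_lit 0x9ecc25c)) e))) (c (c (p (nat_lit 0x4d607f18)) (c (m (nat_lit 0xfcb9e44)) e)) (c (c (m (nat_lit 0xbebcca8)) e) e))) (c (c (c (p (nat_lit 0xc026070)) (c (m (nat_lit 0x13205b50)) e)) (c (c (m (nat_lit 0x63aad30)) e) e)) (c (c (c (p (nat_lit 0x84c)) e) e) e)))) (c (c (c (c (m (nat_lit 0x2ba88744)) (c (m (nat_lit 0xda83f44)) (c (p (nat_lit 0x125030a0))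 e))) (c (c (m (nat_lit 0x271fea8)) (c (p (nat_lit 0x61104a8)) e)) (c (c (p (nat_lit 0xad648b8)) e) e))) (c (c (c (p (nat_lit 0x34b2abc4)) (c (m (nat_lit 0xb738700)) e)) (c (c (m (nat_lit 0xd97a684)) e) e)) (c (c (c (m (nat_lit 0x7f01190)) e) e) e))) (c (c (c (c (p (nat_lit 0xd1463fc)) (c (m (nat_lit 0x29a25b0)) e)) (c (c (p (nat_lit 0x200e380)) e) e)) (c (c (c (m (nat_lit 0x98ca0)) e) e) e)) (c (c (c (c (m (nat_lit 0x29a0930)) e) e) e) e)))) (c (c (c (c (c (m (nat_lit 0x7fb50700)) (c (m (nat_lit 0x221e410)) (c (p (nat_lit 0x151fbb58)) e))) (c (c (p (nat_lit 0x472397d0)) (c (m (nat_lit 0x15eeb480)) e)) (c (c (m (nat_lit 0x106bc6e4)) e) e))) (c (c (c (p (nat_lit 0x4a378988)) (c (m (nat_lit 0x16e57d8)) e)) (c (c (m (nat_lit 0xfcb9e44)) e) e)) (c (c (c (m (nat_lit 0x8bedec0)) e) e) e))) (c (c (c (c (m (nat_lit 0xda83f44)) (c (m (nat_lit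 0x39ae18c)) e)) (c (c (p (nat_lit 0x61104a8)) e) e)) (c (c (c (m (nat_lit 0xd323924)) e) e) e)) (c (c (c (c (m (nat_lit 0x4fa1f90)) e) e) e) e))) (c (c (c (c (c (m (nat_lit 0x1a9b0c8)) (c (p (nat_lit 0x233b83c)) e)) (c (c (m (nat_lit 0x106bc6e4)) e) e)) (c (c (c (m (nat_lit 0x9ecc25c)) e) e) e)) (c (c (c (c (p (nat_lit 0x125030a0)) e) e) e) e)) (c (c (c (c (c (m (nat_lit 0x98cac)) e) e) e) e) e)))) (c (c (c (c (c (c (m (nat_lit 0x3ec51640)) (c (p (nat_lit 0x4a378988)) (c (m (nat_lit 0x9ecc25c)) e))) (c (c (p (nat_lit 0x4a378988)) (c (m (nat_lit 0x16e57d8)) e)) (c (c (m (nat_lit 0x9ecc25c)) e) e))) (c (c (c (m (nat_lit 0x366db534)) (c (m (nat_lit 0x11235ff0)) e)) (c (c (m (nat_lit 0xf62f34)) e) e)) (c (c (c (p (nat_lit 0x6f60f6c)) e) e) e))) (c (c (c (c (m (nat_lit 0x366db534)) (c (m (nat_lit 0xf62f34)) e)) (c (c (m (nat_lit 0x11235ff0))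 e) e)) (c (c (c (m (nat_lit 0x1c14c78)) e) e) e)) (c (c (c (c (p (nat_lit 0x6f60f6c)) e) e) e) e))) (c (c (c (c (c (p (nat_lit 0x4d607f18)) (c (m (nat_lit 0xfcb9e44)) e)) (c (c (m (nat_lit 0xfcb9e44)) e) e)) (c (c (c (m (nat_lit 0xf62f34)) e) e) e)) (c (c (c (c (m (nat_lit 0xf62f34)) e) e) e) e)) (c (c (c (c (c (m (nat_lit 0xbebcca8)) e) e) e) e) e))) (c (c (c (c (c (c (p (nat_lit 0xc026070)) (c (m (nat_lit 0x13205b50)) e)) (c (c (m (nat_lit 0x8bedec0)) e) e)) (c (c (c (p (nat_lit 0x6f60f6c)) e) e) e)) (c (c (c (c (p (nat_lit 0x4569ac8)) e) e) e) e)) (c (c (c (c (c (m (nat_lit 0x63aad30)) e) e) e) e) e)) (c (c (c (c (c (c (p (nat_lit 0x84c)) e) e) e) e) e) e)))) (c (c (c (c (c (c (c (m (nat_lit 0x2ba88744)) (c (m (nat_lit 0xda83f44)) (c (p (nat_lit 0x125030a0)) e))) (c (c (m (nat_lit 0xda83f44)) (c (m (nat_lit 0x39ae18c)) e)) (c (c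 (p (nat_lit 0x125030a0)) e) e))) (c (c (c (m (nat_lit 0x366db534)) (c (m (nat_lit 0xf62f34)) e)) (c (c (m (nat_lit 0xf62f34)) e) e)) (c (c (c (p (nat_lit 0x4569ac8)) e) e) e))) (c (c (c (c (m (nat_lit 0x1c3eab84)) (c (p (nat_lit 0xe9e2ff0)) e)) (c (c (p (nat_lit 0xe9e2ff0)) e) e)) (c (c (c (p (nat_lit 0x1a0cb0f8)) e) e) e)) (c (c (c (c (m (nat_lit 0xa1ab388)) e) e) e) e))) (c (c (c (c (c (m (nat_lit 0x271fea8)) (c (p (nat_lit 0x61104a8)) e)) (c (c (p (nat_lit 0x61104a8)) e) e)) (c (c (c (m (nat_lit 0x11235ff0)) e) e) e)) (c (c (c (c (p (nat_lit 0xe9e2ff0)) e) e) e) e)) (c (c (c (c (c (p (nat_lit 0xad648b8)) e) e) e) e) e))) (c (c (c (c (c (c (p (nat_lit 0x34b2abc4)) (c (m (nat_lit 0xb738700)) e)) (c (c (m (nat_lit 0xd323924)) e) e)) (c (c (c (m (nat_lit 0x1c14c78)) e) e) e)) (c (c (c (c (p (nat_lit 0x1a0cb0f8)) e) e) e) e)) (c (c (c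 (c (c (m (nat_lit 0xd97a684)) e) e) e) e) e)) (c (c (c (c (c (c (m (nat_lit 0x7f01190)) e) e) e) e) e) e))) (c (c (c (c (c (c (c (p (nat_lit 0xd1463fc)) (c (m (nat_lit 0x29a25b0)) e)) (c (c (m (nat_lit 0x4fa1f90)) e) e)) (c (c (c (p (nat_lit 0x6f60f6c)) e) e) e)) (c (c (c (c (m (nat_lit 0xa1ab388)) e) e) e) e)) (c (c (c (c (c (p (nat_lit 0x200e380)) e) e) e) e) e)) (c (c (c (c (c (c (m (nat_lit 0x98ca0)) e) e) e) e) e) e)) (c (c (c (c (c (c (c (m (nat_lit 0x29a0930)) e) e) e) e) e) e) e)))) (c (c (c (c (c (c (c (c (m (nat_lit 0xd4aa1b68)) (c (p (nat_lit 0x4a516f70)) (c (m (nat_lit 0x68a9e88)) e))) (c (c (p (nat_lit 0x2c333b98)) (c (m (nat_lit 0x9cac98)) e)) (c (c (m (nat_lit 0x263598)) e) e))) (c (c (c (p (nat_lit 0x34b2abc4)) (c (m (nat_lit 0xd323924)) e)) (c (c (m (nat_lit 0xd97a684)) e) e)) (c (c (c (m (nat_lit 0x98cdc)) e) e) e)))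 (c (c (c (c (p (nat_lit 0x34b2abc4)) (c (m (nat_lit 0xd323924)) e)) (c (c (m (nat_lit 0xd97a684)) e) e)) (c (c (c (m (nat_lit 0x2a6a6fb0)) e) e) e)) (c (c (c (c (m (nat_lit 0x98cdc)) e) e) e) e))) (c (c (c (c (c (p (nat_lit 0x2c333b98)) (c (m (nat_lit 0x9cac98)) e)) (c (c (m (nat_lit 0x4c0260)) e) e)) (c (c (c (m (nat_lit 0xb738700)) e) e) e)) (c (c (c (c (m (nat_lit 0xb738700)) e) e) e) e)) (c (c (c (c (c (m (nat_lit 0x263598)) e) e) e) e) e))) (c (c (c (c (c (c (p (nat_lit 0x34b2abc4)) (c (m (nat_lit 0xd323924)) e)) (c (c (m (nat_lit 0xb738700)) e) e)) (c (c (c (p (nat_lit 0x1a0cb0f8)) e) e) e)) (c (c (c (c (m (nat_lit 0x1c14c78)) e) e) e) e)) (c (c (c (c (c (m (nat_lit 0xd97a684)) e) e) e) e) e)) (c (c (c (c (c (c (m (nat_lit 0x98cdc)) e) e) e) e) e) e))) (c (c (c (c (c (c (c (p (nat_lit 0x34b2abc4)) (c (m (nat_lit 0xd323924)) e))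 (c (c (m (nat_lit 0xb738700)) e) e)) (c (c (c (m (nat_lit 0x1c14c78)) e) e) e)) (c (c (c (c (p (nat_lit 0x1a0cb0f8)) e) e) e) e)) (c (c (c (c (c (m (nat_lit 0xd97a684)) e) e) e) e) e)) (c (c (c (c (c (c (m (nat_lit 0x2a6a6fb0)) e) e) e) e) e) e)) (c (c (c (c (c (c (c (m (nat_lit 0x98cdc)) e) e) e) e) e) e) e))) (c (c (c (c (c (c (c (c (p (nat_lit 0xfb632d4)) (c (m (nat_lit 0x897948)) e)) (c (c (m (nat_lit 0x42e484)) e) e)) (c (c (c (m (nat_lit 0x98ca0)) e) e) e)) (c (c (c (c (m (nat_lit 0x7f01190)) e) e) e) e)) (c (c (c (c (c (m (nat_lit 0x42e484)) e) e) e) e) e)) (c (c (c (c (c (c (m (nat_lit 0x98ca0)) e) e) e) e) e) e)) (c (c (c (c (c (c (c (m (nat_lit 0x7f01190)) e) e) e) e) e) e) e)) (c (c (c (c (c (c (c (c (m (nat_lit 0x131988)) e) e) e) e) e) e) e) e)))) (c (c (c (c (c (c (c (c (c (m (nat_lit 0x6594e70c)) (c (p (nat_lit 0x24560f88))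 (c (p (nat_lit 0xd2a7ee0)) e))) (c (c (p (nat_lit 0x33d2bebc)) (c (m (nat_lit 0x1a84a06c)) e)) (c (c (m (nat_lit 0x3fd2ea0)) e) e))) (c (c (c (p (nat_lit 0xc026070)) (c (m (nat_lit 0x8bedec0)) e)) (c (c (m (nat_lit 0x63aad30)) e) e)) (c (c (c (m (nat_lit 0x765ff0)) e) e) e))) (c (c (c (c (p (nat_lit 0xd1463fc)) (c (m (nat_lit 0x4fa1f90)) e)) (c (c (p (nat_lit 0x200e380)) e) e)) (c (c (c (m (nat_lit 0x98cdc)) e) e) e)) (c (c (c (c (m (nat_lit 0x50d2da8)) e) e) e) e))) (c (c (c (c (c (p (nat_lit 0x33d2bebc)) (c (m (nat_lit 0x1a84a06c)) e)) (c (c (m (nat_lit 0x8340d68)) e) e)) (c (c (c (m (nat_lit 0x13205b50)) e) e) e)) (c (c (c (c (m (nat_lit 0x29a25b0)) e) e) e) e)) (c (c (c (c (c (m (nat_lit 0x3fd2ea0)) e) e) e) e) e))) (c (c (c (c (c (c (p (nat_lit 0xc026070)) (c (m (nat_lit 0x8bedec0)) e)) (c (c (m (nat_lit 0x13205b50)) e) e)) (c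 (c (c (p (nat_lit 0x4569ac8)) e) e) e)) (c (c (c (c (p (nat_lit 0x6f60f6c)) e) e) e) e)) (c (c (c (c (c (m (nat_lit 0x63aad30)) e) e) e) e) e)) (c (c (c (c (c (c (m (nat_lit 0x765ff0)) e) e) e) e) e) e))) (c (c (c (c (c (c (c (p (nat_lit 0xd1463fc)) (c (m (nat_lit 0x4fa1f90)) e)) (c (c (m (nat_lit 0x29a25b0)) e) e)) (c (c (c (p (nat_lit 0x6f60f6c)) e) e) e)) (c (c (c (c (m (nat_lit 0xa1ab388)) e) e) e) e)) (c (c (c (c (c (p (nat_lit 0x200e380)) e) e) e) e) e)) (c (c (c (c (c (c (m (nat_lit 0x98cdc)) e) e) e) e) e) e)) (c (c (c (c (c (c (c (m (nat_lit 0x50d2da8)) e) e) e) e) e) e) e))) (c (c (c (c (c (c (c (c (p (nat_lit 0xfb632d4)) (c (m (nat_lit 0x897948)) e)) (c (c (m (nat_lit 0x42e484)) e) e)) (c (c (c (m (nat_lit 0x7f01190)) e) e) e)) (c (c (c (c (m (nat_lit 0x98ca0)) e) e) e) e)) (c (c (c (c (c (m (nat_lit 0x42e484)) e) e) e) e)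 e)) (c (c (c (c (c (c (m (nat_lit 0x7f01190)) e) e) e) e) e) e)) (c (c (c (c (c (c (c (m (nat_lit 0x98ca0)) e) e) e) e) e) e) e)) (c (c (c (c (c (c (c (c (m (nat_lit 0x72ad10)) e) e) e) e) e) e) e) e))) (c (c (c (c (c (c (c (c (c (p (nat_lit 0x2ca7854)) (c (m (nat_lit 0x2901cd8)) e)) (c (c (m (nat_lit 0x1cff14)) e) e)) (c (c (c (p (nat_lit 0x84c)) e) e) e)) (c (c (c (c (m (nat_lit 0x29a0930)) e) e) e) e)) (c (c (c (c (c (m (nat_lit 0x1cff14)) e) e) e) e) e)) (c (c (c (c (c (c (p (nat_lit 0x84c)) e) e) e) e) e) e)) (c (c (c (c (c (c (c (m (nat_lit 0x29a0930)) e) e) e) e) e) e) e)) (c (c (c (c (c (c (c (c (m (nat_lit 0x131988)) e) e) e) e) e) e) e) e)) (c (c (c (c (c (c (c (c (c (m (nat_lit 0x268bd8)) e) e) e) e) e) e) e) e) e))))) (c (c (c (c (c (c (c (c (c (c (p (nat_lit 0x1170a7100)) (c (m (nat_lit 0xfa519ef0)) (c (p (nat_lit 0x10684fb0))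 (c (p (nat_lit 0x9741f0)) e)))) (c (c (m (nat_lit 0xfa519ef0)) (c (p (nat_lit 0x8d0d7dc0)) (c (p (nat_lit 0x2d0)) e))) (c (c (p (nat_lit 0x10684fb0)) (c (p (nat_lit 0x2d0)) e)) (c (c (p (nat_lit 0x9741f0)) e) e)))) (c (c (c (m (nat_lit 0x5f6656ec)) (c (p (nat_lit 0x388380f0)) (c (p (nat_lit 0x4ba0d4)) e))) (c (c (p (nat_lit 0x388380f0)) (c (m (nat_lit 0x8ffd618)) e)) (c (c (p (nat_lit 0x4ba0d4)) e) e))) (c (c (c (m (nat_lit 0x110682fc)) (c (m (nat_lit 0x47643fc)) e)) (c (c (m (nat_lit 0x47643fc)) e) e)) (c (c (c (m (nat_lit 0x1319b8)) e) e) e)))) (c (c (c (c (m (nat_lit 0x5f6656ec)) (c (p (nat_lit 0x388380f0)) (c (p (nat_lit 0x4ba0d4)) e))) (c (c (p (nat_lit 0x388380f0)) (c (m (nat_lit 0x8ffd618)) e)) (c (c (p (nat_lit 0x4ba0d4)) e) e))) (c (c (c (p (nat_lit 0x33eea10)) (c (m (nat_lit 0x398118)) e)) (c (c (m (nat_lit 0x398118)) e) e))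 (c (c (c (m (nat_lit 0x394d28)) e) e) e))) (c (c (c (c (m (nat_lit 0x110682fc)) (c (m (nat_lit 0x47643fc)) e)) (c (c (m (nat_lit 0x47643fc)) e) e)) (c (c (c (m (nat_lit 0x394d28)) e) e) e)) (c (c (c (c (m (nat_lit 0x1319b8)) e) e) e) e)))) (c (c (c (c (c (m (nat_lit 0xfa519ef0)) (c (p (nat_lit 0x8d0d7dc0)) (c (p (nat_lit 0x2d0)) e))) (c (c (p (nat_lit 0x8d0d7dc0)) (c (m (nat_lit 0xe52ba0)) e)) (c (c (p (nat_lit 0x2d0)) e) e))) (c (c (c (p (nat_lit 0x69c60210)) (c (m (nat_lit 0x1435b894)) e)) (c (c (m (nat_lit 0x1435b894)) e) e)) (c (c (c (p (nat_lit 0x7f52688)) e) e) e))) (c (c (c (c (p (nat_lit 0x69c60210)) (c (m (nat_lit 0x1435b894)) e)) (c (c (m (nat_lit 0x1435b894)) e) e)) (c (c (c (m (nat_lit 0x20a52230)) e) e) e)) (c (c (c (c (p (nat_lit 0x7f52688)) e) e) e) e))) (c (c (c (c (c (p (nat_lit 0x10684fb0)) (c (p (nat_lit 0x2d0)) e))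 (c (c (p (nat_lit 0x2d0)) e) e)) (c (c (c (m (nat_lit 0x917cfe8)) e) e) e)) (c (c (c (c (m (nat_lit 0x917cfe8)) e) e) e) e)) (c (c (c (c (c (p (nat_lit 0x9741f0)) e) e) e) e) e)))) (c (c (c (c (c (c (m (nat_lit 0x5f6656ec)) (c (p (nat_lit 0x388380f0)) (c (p (nat_lit 0x4ba0d4)) e))) (c (c (p (nat_lit 0x69c60210)) (c (m (nat_lit 0x1435b894)) e)) (c (c (m (nat_lit 0x917cfe8)) e) e))) (c (c (c (p (nat_lit 0x729a860)) (c (m (nat_lit 0xa0ffd58)) e)) (c (c (m (nat_lit 0x14a2cb5c)) e) e)) (c (c (c (p (nat_lit 0x642bc64)) e) e) e))) (c (c (c (c (m (nat_lit 0xf1f1070)) (c (p (nat_lit 0x6bd7368)) e)) (c (c (m (nat_lit 0xcfae858)) e) e)) (c (c (c (p (nat_lit 0x7633638)) e) e) e)) (c (c (c (c (p (nat_lit 0xf61e654)) e) e) e) e))) (c (c (c (c (c (p (nat_lit 0x388380f0)) (c (m (nat_lit 0x8ffd618)) e)) (c (c (m (nat_lit 0x1435b894)) e) e)) (c (c (c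 (m (nat_lit 0x14a2cb5c)) e) e) e)) (c (c (c (c (m (nat_lit 0xcfae858)) e) e) e) e)) (c (c (c (c (c (p (nat_lit 0x4ba0d4)) e) e) e) e) e))) (c (c (c (c (c (c (m (nat_lit 0x110682fc)) (c (m (nat_lit 0x47643fc)) e)) (c (c (p (nat_lit 0x7f52688)) e) e)) (c (c (c (p (nat_lit 0x642bc64)) e) e) e)) (c (c (c (c (p (nat_lit 0xf61e654)) e) e) e) e)) (c (c (c (c (c (m (nat_lit 0x47643fc)) e) e) e) e) e)) (c (c (c (c (c (c (m (nat_lit 0x1319b8)) e) e) e) e) e) e)))) (c (c (c (c (c (c (c (m (nat_lit 0x5f6656ec)) (c (p (nat_lit 0x388380f0)) (c (p (nat_lit 0x4ba0d4)) e))) (c (c (p (nat_lit 0x69c60210)) (c (m (nat_lit 0x1435b894)) e)) (c (c (m (nat_lit 0x917cfe8)) e) e))) (c (c (c (m (nat_lit 0xf1f1070)) (c (p (nat_lit 0x6bd7368)) e)) (c (c (m (nat_lit 0xcfae858)) e) e)) (c (c (c (p (nat_lit 0xf61e654)) e) e) e))) (c (c (c (c (p (nat_lit 0x729a860))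 (c (m (nat_lit 0xa0ffd58)) e)) (c (c (m (nat_lit 0x14a2cb5c)) e) e)) (c (c (c (p (nat_lit 0x7633638)) e) e) e)) (c (c (c (c (p (nat_lit 0x642bc64)) e) e) e) e))) (c (c (c (c (c (p (nat_lit 0x388380f0)) (c (m (nat_lit 0x8ffd618)) e)) (c (c (m (nat_lit 0x1435b894)) e) e)) (c (c (c (m (nat_lit 0xcfae858)) e) e) e)) (c (c (c (c (m (nat_lit 0x14a2cb5c)) e) e) e) e)) (c (c (c (c (c (p (nat_lit 0x4ba0d4)) e) e) e) e) e))) (c (c (c (c (c (c (p (nat_lit 0x33eea10)) (c (m (nat_lit 0x398118)) e)) (c (c (m (nat_lit 0x20a52230)) e) e)) (c (c (c (p (nat_lit 0x7633638)) e) e) e)) (c (c (c (c (p (nat_lit 0x7633638)) e) e) e) e)) (c (c (c (c (c (m (nat_lit 0x398118)) e) e) e) e) e)) (c (c (c (c (c (c (m (nat_lit 0x394d28)) e) e) e) e) e) e))) (c (c (c (c (c (c (c (m (nat_lit 0x110682fc)) (c (m (nat_lit 0x47643fc)) e)) (c (c (p (nat_lit 0x7f52688)) e)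 e)) (c (c (c (p (nat_lit 0xf61e654)) e) e) e)) (c (c (c (c (p (nat_lit 0x642bc64)) e) e) e) e)) (c (c (c (c (c (m (nat_lit 0x47643fc)) e) e) e) e) e)) (c (c (c (c (c (c (m (nat_lit 0x394d28)) e) e) e) e) e) e)) (c (c (c (c (c (c (c (m (nat_lit 0x1319b8)) e) e) e) e) e) e) e)))) (c (c (c (c (c (c (c (c (m (nat_lit 0x5f6656ec)) (c (p (nat_lit 0x69c60210)) (c (m (nat_lit 0x917cfe8)) e))) (c (c (p (nat_lit 0x388380f0)) (c (m (nat_lit 0x1435b894)) e)) (c (c (p (nat_lit 0x4ba0d4)) e) e))) (c (c (c (p (nat_lit 0x729a860)) (c (m (nat_lit 0x14a2cb5c)) e)) (c (c (m (nat_lit 0xa0ffd58)) e) e)) (c (c (c (p (nat_lit 0x642bc64)) e) e) e))) (c (c (c (c (m (nat_lit 0xf1f1070)) (c (m (nat_lit 0xcfae858)) e)) (c (c (p (nat_lit 0x6bd7368)) e) e)) (c (c (c (p (nat_lit 0x7633638)) e) e) e)) (c (c (c (c (p (nat_lit 0xf61e654)) e) e) e) e))) (c (c (c (c (c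 (p (nat_lit 0x388380f0)) (c (m (nat_lit 0x1435b894)) e)) (c (c (m (nat_lit 0x8ffd618)) e) e)) (c (c (c (m (nat_lit 0x14a2cb5c)) e) e) e)) (c (c (c (c (m (nat_lit 0xcfae858)) e) e) e) e)) (c (c (c (c (c (p (nat_lit 0x4ba0d4)) e) e) e) e) e))) (c (c (c (c (c (c (p (nat_lit 0x729a860)) (c (m (nat_lit 0x14a2cb5c)) e)) (c (c (m (nat_lit 0x14a2cb5c)) e) e)) (c (c (c (m (nat_lit 0x394cbc)) e) e) e)) e) (c (c (c (c (c (m (nat_lit 0xa0ffd58)) e) e) e) e) e)) (c (c (c (c (c (c (p (nat_lit 0x642bc64)) e) e) e) e) e) e))) (c (c (c (c (c (c (c (m (nat_lit 0xf1f1070)) (c (m (nat_lit 0xcfae858)) e)) (c (c (m (nat_lit 0xcfae858)) e) e)) e) e) (c (c (c (c (c (p (nat_lit 0x6bd7368)) e) e) e) e) e)) (c (c (c (c (c (c (p (nat_lit 0x7633638)) e) e) e) e) e) e)) (c (c (c (c (c (c (c (p (nat_lit 0xf61e654)) e) e) e) e) e) e) e))) (c (c (c (c (c (c (c (c (m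 (nat_lit 0x110682fc)) (c (p (nat_lit 0x7f52688)) e)) (c (c (m (nat_lit 0x47643fc)) e) e)) (c (c (c (p (nat_lit 0x642bc64)) e) e) e)) (c (c (c (c (p (nat_lit 0xf61e654)) e) e) e) e)) (c (c (c (c (c (m (nat_lit 0x47643fc)) e) e) e) e) e)) (c (c (c (c (c (c (p (nat_lit 0x642bc64)) e) e) e) e) e) e)) (c (c (c (c (c (c (c (p (nat_lit 0xf61e654)) e) e) e) e) e) e) e)) (c (c (c (c (c (c (c (c (m (nat_lit 0x1319b8)) e) e) e) e) e) e) e) e)))) (c (c (c (c (c (c (c (c (c (m (nat_lit 0x5f6656ec)) (c (p (nat_lit 0x69c60210)) (c (m (nat_lit 0x917cfe8)) e))) (c (c (p (nat_lit 0x388380f0)) (c (m (nat_lit 0x1435b894)) e)) (c (c (p (nat_lit 0x4ba0d4)) e) e))) (c (c (c (m (nat_lit 0xf1f1070)) (c (m (nat_lit 0xcfae858)) e)) (c (c (p (nat_lit 0x6bd7368)) e) e)) (c (c (c (p (nat_lit 0xf61e654)) e) e) e))) (c (c (c (c (p (nat_lit 0x729a860)) (c (m (nat_lit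 0x14a2cb5c)) e)) (c (c (m (nat_lit 0xa0ffd58)) e) e)) (c (c (c (p (nat_lit 0x7633638)) e) e) e)) (c (c (c (c (p (nat_lit 0x642bc64)) e) e) e) e))) (c (c (c (c (c (p (nat_lit 0x388380f0)) (c (m (nat_lit 0x1435b894)) e)) (c (c (m (nat_lit 0x8ffd618)) e) e)) (c (c (c (m (nat_lit 0xcfae858)) e) e) e)) (c (c (c (c (m (nat_lit 0x14a2cb5c)) e) e) e) e)) (c (c (c (c (c (p (nat_lit 0x4ba0d4)) e) e) e) e) e))) (c (c (c (c (c (c (m (nat_lit 0xf1f1070)) (c (m (nat_lit 0xcfae858)) e)) (c (c (m (nat_lit 0xcfae858)) e) e)) e) e) (c (c (c (c (c (p (nat_lit 0x6bd7368)) e) e) e) e) e)) (c (c (c (c (c (c (p (nat_lit 0xf61e654)) e) e) e) e) e) e))) (c (c (c (c (c (c (c (p (nat_lit 0x729a860)) (c (m (nat_lit 0x14a2cb5c)) e)) (c (c (m (nat_lit 0x14a2cb5c)) e) e)) e) (c (c (c (c (m (nat_lit 0x394cbc)) e) e) e) e)) (c (c (c (c (c (m (nat_lit 0xa0ffd58)) e)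 e) e) e) e)) (c (c (c (c (c (c (p (nat_lit 0x7633638)) e) e) e) e) e) e)) (c (c (c (c (c (c (c (p (nat_lit 0x642bc64)) e) e) e) e) e) e) e))) (c (c (c (c (c (c (c (c (p (nat_lit 0x33eea10)) (c (m (nat_lit 0x20a52230)) e)) (c (c (m (nat_lit 0x398118)) e) e)) (c (c (c (p (nat_lit 0x7633638)) e) e) e)) (c (c (c (c (p (nat_lit 0x7633638)) e) e) e) e)) (c (c (c (c (c (m (nat_lit 0x398118)) e) e) e) e) e)) (c (c (c (c (c (c (p (nat_lit 0x7633638)) e) e) e) e) e) e)) (c (c (c (c (c (c (c (p (nat_lit 0x7633638)) e) e) e) e) e) e) e)) (c (c (c (c (c (c (c (c (m (nat_lit 0x394d28)) e) e) e) e) e) e) e) e))) (c (c (c (c (c (c (c (c (c (m (nat_lit 0x110682fc)) (c (p (nat_lit 0x7f52688)) e)) (c (c (m (nat_lit 0x47643fc)) e) e)) (c (c (c (p (nat_lit 0xf61e654)) e) e) e)) (c (c (c (c (p (nat_lit 0x642bc64)) e) e) e) e)) (c (c (c (c (c (m (nat_lit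 0x47643fc)) e) e) e) e) e)) (c (c (c (c (c (c (p (nat_lit 0xf61e654)) e) e) e) e) e) e)) (c (c (c (c (c (c (c (p (nat_lit 0x642bc64)) e) e) e) e) e) e) e)) (c (c (c (c (c (c (c (c (m (nat_lit 0x394d28)) e) e) e) e) e) e) e) e)) (c (c (c (c (c (c (c (c (c (m (nat_lit 0x1319b8)) e) e) e) e) e) e) e) e) e)))) (c (c (c (c (c (c (c (c (c (c (m (nat_lit 0x6d3129f8)) (c (p (nat_lit 0x42a61790)) (c (m (nat_lit 0x263160)) e))) (c (c (p (nat_lit 0x42a61790)) (c (m (nat_lit 0x1e405a80)) e)) (c (c (m (nat_lit 0x263160)) e) e))) (c (c (c (p (nat_lit 0x2defdf9c)) (c (m (nat_lit 0xaadbf40)) e)) (c (c (m (nat_lit 0xaadbf40)) e) e)) (c (c (c (m (nat_lit 0x6618090)) e) e) e))) (c (c (c (c (p (nat_lit 0x2defdf9c)) (c (m (nat_lit 0xaadbf40)) e)) (c (c (m (nat_lit 0xaadbf40)) e) e)) (c (c (c (m (nat_lit 0x4c6860)) e) e) e)) (c (c (c (c (m (nat_lit 0x6618090))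 e) e) e) e))) (c (c (c (c (c (p (nat_lit 0x42a61790)) (c (m (nat_lit 0x1e405a80)) e)) (c (c (m (nat_lit 0x1e405a80)) e) e)) (c (c (c (m (nat_lit 0x1235b608)) e) e) e)) (c (c (c (c (m (nat_lit 0x1235b608)) e) e) e) e)) (c (c (c (c (c (m (nat_lit 0x263160)) e) e) e) e) e))) (c (c (c (c (c (c (p (nat_lit 0x2defdf9c)) (c (m (nat_lit 0xaadbf40)) e)) (c (c (m (nat_lit 0x1235b608)) e) e)) (c (c (c (m (nat_lit 0xc7971e4)) e) e) e)) (c (c (c (c (m (nat_lit 0x131a30)) e) e) e) e)) (c (c (c (c (c (m (nat_lit 0xaadbf40)) e) e) e) e) e)) (c (c (c (c (c (c (m (nat_lit 0x6618090)) e) e) e) e) e) e))) (c (c (c (c (c (c (c (p (nat_lit 0x2defdf9c)) (c (m (nat_lit 0xaadbf40)) e)) (c (c (m (nat_lit 0x1235b608)) e) e)) (c (c (c (m (nat_lit 0x131a30)) e) e) e)) (c (c (c (c (m (nat_lit 0xc7971e4)) e) e) e) e)) (c (c (c (c (c (m (nat_lit 0xaadbf40)) e) e)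 e) e) e)) (c (c (c (c (c (c (m (nat_lit 0x4c6860)) e) e) e) e) e) e)) (c (c (c (c (c (c (c (m (nat_lit 0x6618090)) e) e) e) e) e) e) e))) (c (c (c (c (c (c (c (c (p (nat_lit 0x2defdf9c)) (c (m (nat_lit 0x1235b608)) e)) (c (c (m (nat_lit 0xaadbf40)) e) e)) (c (c (c (m (nat_lit 0xc7971e4)) e) e) e)) (c (c (c (c (m (nat_lit 0x131a30)) e) e) e) e)) (c (c (c (c (c (m (nat_lit 0xaadbf40)) e) e) e) e) e)) (c (c (c (c (c (c (m (nat_lit 0xc7971e4)) e) e) e) e) e) e)) (c (c (c (c (c (c (c (m (nat_lit 0x131a30)) e) e) e) e) e) e) e)) (c (c (c (c (c (c (c (c (m (nat_lit 0x6618090)) e) e) e) e) e) e) e) e))) (c (c (c (c (c (c (c (c (c (p (nat_lit 0x2defdf9c)) (c (m (nat_lit 0x1235b608)) e)) (c (c (m (nat_lit 0xaadbf40)) e) e)) (c (c (c (m (nat_lit 0x131a30)) e) e) e)) (c (c (c (c (m (nat_lit 0xc7971e4)) e) e) e) e)) (c (c (c (c (c (m (nat_lit 0xaadbf40))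 e) e) e) e) e)) (c (c (c (c (c (c (m (nat_lit 0x131a30)) e) e) e) e) e) e)) (c (c (c (c (c (c (c (m (nat_lit 0xc7971e4)) e) e) e) e) e) e) e)) (c (c (c (c (c (c (c (c (m (nat_lit 0x4c6860)) e) e) e) e) e) e) e) e)) (c (c (c (c (c (c (c (c (c (m (nat_lit 0x6618090)) e) e) e) e) e) e) e) e) e))) (c (c (c (c (c (c (c (c (c (c (m (nat_lit 0x3f0)) (c (m (nat_lit 0x262cb0)) e)) (c (c (m (nat_lit 0x262cb0)) e) e)) (c (c (c (m (nat_lit 0x234)) e) e) e)) (c (c (c (c (m (nat_lit 0x234)) e) e) e) e)) (c (c (c (c (c (m (nat_lit 0x262cb0)) e) e) e) e) e)) (c (c (c (c (c (c (m (nat_lit 0x234)) e) e) e) e) e) e)) (c (c (c (c (c (c (c (m (nat_lit 0x234)) e) e) e) e) e) e) e)) (c (c (c (c (c (c (c (c (m (nat_lit 0x234)) e) e) e) e) e) e) e) e)) (c (c (c (c (c (c (c (c (c (m (nat_lit 0x234)) e) e) e) e) e) e) e) e) e)) (c (c (c (c (c (c (c (c (c (c (m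 (nat_lit 0x7296a8)) e) e) e) e) e) e) e) e) e) e)))))

theorem c1 : trsOK col trs = true := by decide +kernel
theorem c2 : Nat.ble (Nat.mul (nat_lit 41) (nat_lit 4556)) (nat_lit 4294967295) = true := by decide +kernel
theorem c3 : Nat.beq (tabK (nat_lit 41) (List.ofFn s10)) kt = true := by decide +kernel
theorem c4 : okE trs E = true := by decide +kernel
theorem c5 : dE E (nat_lit 4) = true := by decide +kernel
theorem c6 : cmpK (nat_lit 10) (nat_lit 4) kt E T = true := by decide +kernel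
theorem c7 : bndK (nat_lit 10) (nat_lit 4) (Nat.pow (nat_lit 2) (nat_lit 41)) E T = true := by decide +kernel

theorem c0 : Fl.codeB col = 1 := by decide +kernel

theorem own : Fl.OwnOK 4 T 1 :=
  own_ok c0 c1 c2 c3 c4 c5 c6 c7

end H1

end Own

end HR
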