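import Pool.Agent.Lib.MP_a1b8b7_co.B.OwnOK

set_option autoImplicit false

namespace HR

namespace Own

namespace H11

open Chk

def col : Fin 10 → Bool := ![true, true, false, true, false, false, false, false, false, false]

def trs : List ℕ := [nat_lit 1346, nat_lit 2162, nat_lit 2420, nat_lit 2437]

def kt : ℕ := nat_lit 0x28000000c80000034800000898000017e800003c50000086100000e8f80001b1200002c7e0

open Ex in
noncomputable def E : Ex := (a (a (a (a (u (nat_lit 9) (v (nat_lit 9) (v (nat_lit 9) (v (nat_lit 9) (k (nat_lit 0x13194c)))))) (v (nat_lit 8) (a (u (nat_lit 9) (v (nat_lit 9) (v (nat_lit 9) (k (nat_lit 0x98c94))))) (v (nat_lit 8) (u (nat_lit 9) (v (nat_lit 9) (k (nat_lit 0x98c94)))))))) (a (u (nat_lit 8) (v (nat_lit 8) (a (v (nat_lit 9) (v (nat_lit 9) (k (nat_lit 0x98c94)))) (v (nat_lit 8) (a (v (nat_lit 9) (k (nat_lit 0x98c94)))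 (v (nat_lit 8) (k (nat_lit 0x13194c)))))))) (a (v (nat_lit 7) (a (a (u (nat_lit 9) (v (nat_lit 9) (v (nat_lit 9) (k (nat_lit 0x98c94))))) (v (nat_lit 8) (u (nat_lit 9) (v (nat_lit 9) (k (nat_lit 0x131910)))))) (a (u (nat_lit 8) (v (nat_lit 8) (a (v (nat_lit 9) (k (nat_lit 0x131910))) (v (nat_lit 8) (k (nat_lit 0x98c94)))))) (v (nat_lit 7) (a (u (nat_lit 9) (v (nat_lit 9) (k (nat_lit 0x98c94)))) (u (nat_lit 8) (v (nat_lit 8) (k (nat_lit 0x98c94))))))))) (u (nat_lit 7) (v (nat_lit 7) (a (v (nat_lit 9) (v (nat_lit 9) (k (nat_lit 0x98c94)))) (a (v (nat_lit 8) (a (v (nat_lit 9) (k (nat_lit 0x131910))) (v (nat_lit 8) (k (nat_lit 0x98c94))))) (v (nat_lit 7) (a (v (nat_lit 9) (k (nat_lit 0x98c94))) (a (v (nat_lit 8) (k (nat_lit 0x98c94))) (v (nat_lit 7) (k (nat_lit 0x13194c))))))))))))) (a (a (v (nat_lit 6) (a (a (u (nat_lit 9) (v (nat_lit 9)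 (v (nat_lit 9) (k (nat_lit 0x132120))))) (a (v (nat_lit 8) (a (u (nat_lit 9) (v (nat_lit 9) (k (nat_lit 0x98ef8)))) (v (nat_lit 8) (u (nat_lit 9) (k (nat_lit 0x98fa0)))))) (u (nat_lit 8) (a (v (nat_lit 9) (v (nat_lit 9) (k (nat_lit 0x98fa0)))) (v (nat_lit 8) (a (v (nat_lit 9) (k (nat_lit 0x98ef8))) (v (nat_lit 8) (k (nat_lit 0x132120))))))))) (a (v (nat_lit 7) (a (u (nat_lit 9) (v (nat_lit 9) (k (nat_lit 0x98ef8)))) (a (u (nat_lit 8) (v (nat_lit 8) (k (nat_lit 0x98ef8)))) (v (nat_lit 7) (a (u (nat_lit 9) (k (nat_lit 0x98fa0))) (u (nat_lit 8) (k (nat_lit 0x98fa0)))))))) (a (u (nat_lit 7) (a (v (nat_lit 9) (v (nat_lit 9) (k (nat_lit 0x98fa0)))) (a (v (nat_lit 8) (v (nat_lit 8) (k (nat_lit 0x98fa0)))) (v (nat_lit 7) (a (v (nat_lit 9) (k (nat_lit 0x98ef8))) (a (v (nat_lit 8) (k (nat_lit 0x98ef8))) (v (nat_lit 7) (k (nat_lit 0x132120)))))))))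 (v (nat_lit 6) (a (a (u (nat_lit 9) (v (nat_lit 9) (k (nat_lit 0x132498)))) (a (v (nat_lit 8) (u (nat_lit 9) (k (nat_lit 0x98eec)))) (u (nat_lit 8) (a (v (nat_lit 9) (k (nat_lit 0x98eec))) (v (nat_lit 8) (k (nat_lit 0x132498))))))) (a (v (nat_lit 7) (a (u (nat_lit 9) (k (nat_lit 0x98eec))) (u (nat_lit 8) (k (nat_lit 0x98eec))))) (a (u (nat_lit 7) (a (v (nat_lit 9) (k (nat_lit 0x98eec))) (a (v (nat_lit 8) (k (nat_lit 0x98eec))) (v (nat_lit 7) (k (nat_lit 0x132498)))))) (v (nat_lit 6) (a (u (nat_lit 9) (k (nat_lit 0x133d70))) (a (u (nat_lit 8) (k (nat_lit 0x133d70))) (u (nat_lit 7) (k (nat_lit 0x133d70)))))))))))))) (a (u (nat_lit 6) (a (v (nat_lit 7) (v (nat_lit 8) (v (nat_lit 9) (k (nat_lit 0x394b30))))) (a (v (nat_lit 6) (v (nat_lit 6) (a (a (v (nat_lit 9) (k (nat_lit 0x130608))) (v (nat_lit 8) (k (nat_lit 0x130608)))) (a (v (nat_lit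 7) (k (nat_lit 0x130608))) (v (nat_lit 6) (k (nat_lit 0xe57d9c))))))) (u (nat_lit 6) (v (nat_lit 6) (v (nat_lit 6) (k (nat_lit 0x39b94c)))))))) (v (nat_lit 5) (a (a (v (nat_lit 7) (a (a (u (nat_lit 9) (v (nat_lit 9) (k (nat_lit 0x98cb2)))) (v (nat_lit 8) (u (nat_lit 9) (k (nat_lit 0x9853e))))) (a (u (nat_lit 8) (a (v (nat_lit 9) (k (nat_lit 0x9853e))) (v (nat_lit 8) (k (nat_lit 0x98cb2))))) (v (nat_lit 7) (a (u (nat_lit 9) (k (nat_lit 0x97b90))) (u (nat_lit 8) (k (nat_lit 0x97b90)))))))) (u (nat_lit 7) (a (v (nat_lit 9) (v (nat_lit 9) (k (nat_lit 0x98cc4)))) (a (v (nat_lit 8) (a (v (nat_lit 9) (k (nat_lit 0x12eaf0))) (v (nat_lit 8) (k (nat_lit 0x98cc4))))) (v (nat_lit 7) (a (v (nat_lit 9) (k (nat_lit 0x99de6))) (a (v (nat_lit 8) (k (nat_lit 0x99de6))) (v (nat_lit 7) (k (nat_lit 0x131310)))))))))) (a (v (nat_lit 6) (a (u (nat_lit 9) (v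 (nat_lit 9) (k (nat_lit 0x99096)))) (a (u (nat_lit 8) (v (nat_lit 8) (k (nat_lit 0x99096)))) (v (nat_lit 6) (a (u (nat_lit 9) (k (nat_lit 0x98cca))) (a (u (nat_lit 8) (k (nat_lit 0x98cca))) (u (nat_lit 7) (k (nat_lit 0x131b50))))))))) (a (u (nat_lit 6) (a (v (nat_lit 7) (a (v (nat_lit 9) (k (nat_lit 0x98bf8))) (a (v (nat_lit 8) (k (nat_lit 0x98bf8))) (v (nat_lit 7) (k (nat_lit 0x131988)))))) (v (nat_lit 6) (v (nat_lit 6) (k (nat_lit 0x131cd0)))))) (v (nat_lit 5) (a (a (v (nat_lit 8) (u (nat_lit 9) (k (nat_lit 0x98d84)))) (a (u (nat_lit 8) (v (nat_lit 9) (k (nat_lit 0x98d84)))) (v (nat_lit 7) (a (u (nat_lit 9) (k (nat_lit 0x987f0))) (u (nat_lit 8) (k (nat_lit 0x987f0))))))) (a (u (nat_lit 7) (a (v (nat_lit 9) (k (nat_lit 0x995c4))) (a (v (nat_lit 8) (k (nat_lit 0x995c4))) (v (nat_lit 7) (k (nat_lit 0x12f774)))))) (a (v (nat_lit 6) (a (u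 (nat_lit 9) (k (nat_lit 0x9883e))) (u (nat_lit 8) (k (nat_lit 0x9883e))))) (u (nat_lit 6) (a (v (nat_lit 9) (k (nat_lit 0x96b64))) (a (v (nat_lit 8) (k (nat_lit 0x96b64))) (v (nat_lit 7) (k (nat_lit 0x134b5c)))))))))))))))) (a (u (nat_lit 5) (a (a (v (nat_lit 9) (v (nat_lit 9) (v (nat_lit 9) (k (nat_lit 0x98cac))))) (a (v (nat_lit 8) (a (v (nat_lit 9) (v (nat_lit 9) (k (nat_lit 0x98cbe)))) (v (nat_lit 8) (a (v (nat_lit 9) (k (nat_lit 0x98cbe))) (v (nat_lit 8) (k (nat_lit 0x98cac))))))) (v (nat_lit 7) (a (v (nat_lit 8) (v (nat_lit 9) (k (nat_lit 0x135714)))) (v (nat_lit 7) (a (v (nat_lit 9) (k (nat_lit 0x98bf2))) (a (v (nat_lit 8) (k (nat_lit 0x98bf2))) (v (nat_lit 7) (k (nat_lit 0x1318c8)))))))))) (a (v (nat_lit 6) (a (v (nat_lit 9) (v (nat_lit 9) (k (nat_lit 0x98d2a)))) (a (v (nat_lit 8) (a (v (nat_lit 9) (k (nat_lit 0x1320a8))) (v (nat_lit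 8) (k (nat_lit 0x98d2a))))) (v (nat_lit 6) (v (nat_lit 6) (k (nat_lit 0x131d78))))))) (a (u (nat_lit 6) (u (nat_lit 6) (v (nat_lit 6) (k (nat_lit 0x131c70))))) (v (nat_lit 5) (a (a (v (nat_lit 9) (v (nat_lit 9) (k (nat_lit 0x98ca6)))) (v (nat_lit 8) (v (nat_lit 8) (k (nat_lit 0x98ca6))))) (a (v (nat_lit 7) (v (nat_lit 7) (k (nat_lit 0x133b0c)))) (a (v (nat_lit 6) (a (a (v (nat_lit 9) (k (nat_lit 0x9b78a))) (v (nat_lit 8) (k (nat_lit 0x9b78a)))) (a (v (nat_lit 7) (k (nat_lit 0x12f624))) (v (nat_lit 6) (k (nat_lit 0x134c64)))))) (v (nat_lit 5) (a (a (v (nat_lit 9) (k (nat_lit 0x98c88))) (v (nat_lit 8) (k (nat_lit 0x98c88)))) (a (v (nat_lit 7) (k (nat_lit 0x1310b8))) (a (v (nat_lit 6) (k (nat_lit 0x1315a4))) (v (nat_lit 5) (k (nat_lit 0x131910))))))))))))))) (a (t (nat_lit 5) (nat_lit 8) (nat_lit 9) (a (v (nat_lit 6) (v (nat_lit 6) (a (u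 (nat_lit 9) (k (nat_lit 0x99162))) (u (nat_lit 8) (k (nat_lit 0x99162)))))) (u (nat_lit 5) (a (a (u (nat_lit 9) (v (nat_lit 9) (k (nat_lit 0x273552c)))) (u (nat_lit 8) (a (u (nat_lit 9) (k (nat_lit 0x6693aec))) (v (nat_lit 8) (k (nat_lit 0x273552c)))))) (a (v (nat_lit 5) (a (v (nat_lit 7) (k (nat_lit 0x132120))) (a (u (nat_lit 6) (k (nat_lit 0x150e8854))) (v (nat_lit 5) (k (nat_lit 0x3469c50)))))) (u (nat_lit 5) (v (nat_lit 6) (k (nat_lit 0x135660))))))))) (v (nat_lit 4) (a (a (a (v (nat_lit 8) (a (u (nat_lit 9) (v (nat_lit 9) (k (nat_lit 0x98cb2)))) (v (nat_lit 8) (u (nat_lit 9) (k (nat_lit 0x97b90)))))) (u (nat_lit 8) (a (v (nat_lit 9) (v (nat_lit 9) (k (nat_lit 0x98cc4)))) (v (nat_lit 8) (a (v (nat_lit 9) (k (nat_lit 0x99de6))) (v (nat_lit 8) (k (nat_lit 0x131310)))))))) (a (v (nat_lit 7) (a (v (nat_lit 8) (u (nat_lit 9) (k (nat_lit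 0x9853e)))) (a (u (nat_lit 8) (a (v (nat_lit 9) (k (nat_lit 0x12eaf0))) (v (nat_lit 8) (k (nat_lit 0x99de6))))) (v (nat_lit 7) (u (nat_lit 8) (k (nat_lit 0x98cc4))))))) (u (nat_lit 7) (a (v (nat_lit 8) (a (v (nat_lit 9) (k (nat_lit 0x9853e))) (v (nat_lit 8) (k (nat_lit 0x97b90))))) (v (nat_lit 7) (v (nat_lit 8) (k (nat_lit 0x98cb2)))))))) (a (a (v (nat_lit 6) (a (u (nat_lit 9) (v (nat_lit 9) (k (nat_lit 0x99096)))) (a (u (nat_lit 7) (v (nat_lit 7) (k (nat_lit 0x99096)))) (v (nat_lit 6) (a (u (nat_lit 9) (k (nat_lit 0x98cca))) (a (u (nat_lit 8) (k (nat_lit 0x131b50))) (u (nat_lit 7) (k (nat_lit 0x98cca))))))))) (u (nat_lit 6) (a (v (nat_lit 8) (a (v (nat_lit 9) (k (nat_lit 0x98bf8))) (v (nat_lit 8) (k (nat_lit 0x131988))))) (a (v (nat_lit 7) (v (nat_lit 8) (k (nat_lit 0x98bf8)))) (v (nat_lit 6) (v (nat_lit 6) (k (nat_lit 0x131cd0))))))))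 (a (v (nat_lit 5) (a (a (v (nat_lit 7) (u (nat_lit 8) (k (nat_lit 0x9abea)))) (u (nat_lit 7) (v (nat_lit 8) (k (nat_lit 0x9abea))))) (a (v (nat_lit 6) (u (nat_lit 9) (k (nat_lit 0x132528)))) (u (nat_lit 6) (a (a (v (nat_lit 9) (k (nat_lit 0x139d4c))) (v (nat_lit 8) (k (nat_lit 0x96978)))) (a (v (nat_lit 7) (k (nat_lit 0x96978))) (v (nat_lit 6) (k (nat_lit 0x131ef8))))))))) (a (u (nat_lit 5) (a (a (v (nat_lit 9) (v (nat_lit 9) (k (nat_lit 0x98cd6)))) (v (nat_lit 7) (a (v (nat_lit 9) (k (nat_lit 0x98dd8))) (v (nat_lit 7) (k (nat_lit 0x98be6)))))) (a (v (nat_lit 6) (a (v (nat_lit 9) (k (nat_lit 0x949c2))) (a (v (nat_lit 7) (k (nat_lit 0x9b28c))) (v (nat_lit 6) (k (nat_lit 0x98c2e)))))) (v (nat_lit 5) (a (v (nat_lit 7) (k (nat_lit 0x98cfa))) (v (nat_lit 5) (k (nat_lit 0x98e56)))))))) (v (nat_lit 4) (a (a (a (v (nat_lit 8) (u (nat_lit 9) (k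 (nat_lit 0x987f0)))) (u (nat_lit 8) (a (v (nat_lit 9) (k (nat_lit 0x995c4))) (v (nat_lit 8) (k (nat_lit 0x12f774)))))) (a (v (nat_lit 7) (a (u (nat_lit 9) (k (nat_lit 0x98d84))) (u (nat_lit 8) (k (nat_lit 0x995c4))))) (u (nat_lit 7) (a (v (nat_lit 9) (k (nat_lit 0x98d84))) (v (nat_lit 8) (k (nat_lit 0x987f0))))))) (a (a (v (nat_lit 6) (a (u (nat_lit 9) (k (nat_lit 0x9883e))) (u (nat_lit 7) (k (nat_lit 0x9883e))))) (u (nat_lit 6) (a (v (nat_lit 9) (k (nat_lit 0x96b64))) (a (v (nat_lit 8) (k (nat_lit 0x134b5c))) (v (nat_lit 7) (k (nat_lit 0x96b64))))))) (a (u (nat_lit 5) (a (a (v (nat_lit 9) (k (nat_lit 0x98c9a))) (v (nat_lit 7) (k (nat_lit 0x98afc)))) (a (v (nat_lit 6) (k (nat_lit 0x98934))) (v (nat_lit 5) (k (nat_lit 0x98c46)))))) (a (t (nat_lit 5) (nat_lit 8) (nat_lit 9) (u (nat_lit 5) (k (nat_lit 0x2d8f8e0)))) (v (nat_lit 4) (u (nat_lit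 5) (k (nat_lit 0x98ac6)))))))))))))))))) (a (a (a (u (nat_lit 4) (a (a (a (v (nat_lit 9) (v (nat_lit 9) (v (nat_lit 9) (k (nat_lit 0x98cac))))) (v (nat_lit 8) (v (nat_lit 8) (a (v (nat_lit 9) (k (nat_lit 0x98bf2))) (v (nat_lit 8) (k (nat_lit 0x1318c8))))))) (a (v (nat_lit 7) (a (v (nat_lit 9) (v (nat_lit 9) (k (nat_lit 0x98cbe)))) (a (v (nat_lit 8) (a (v (nat_lit 9) (k (nat_lit 0x135714))) (v (nat_lit 8) (k (nat_lit 0x98bf2))))) (v (nat_lit 7) (a (v (nat_lit 9) (k (nat_lit 0x98cbe))) (v (nat_lit 7) (k (nat_lit 0x98cac)))))))) (v (nat_lit 6) (a (v (nat_lit 9) (v (nat_lit 9) (k (nat_lit 0x98d2a)))) (a (v (nat_lit 7) (a (v (nat_lit 9) (k (nat_lit 0x1320a8))) (v (nat_lit 7) (k (nat_lit 0x98d2a))))) (v (nat_lit 6) (v (nat_lit 6) (k (nat_lit 0x131d78))))))))) (a (a (u (nat_lit 6) (u (nat_lit 6) (v (nat_lit 6) (k (nat_lit 0x131c70))))) (v (nat_lit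 5) (a (a (v (nat_lit 9) (v (nat_lit 9) (k (nat_lit 0x98cd6)))) (v (nat_lit 8) (a (v (nat_lit 9) (k (nat_lit 0x98dd8))) (v (nat_lit 8) (k (nat_lit 0x98be6)))))) (a (v (nat_lit 6) (a (v (nat_lit 9) (k (nat_lit 0x949c2))) (a (v (nat_lit 8) (k (nat_lit 0x9b28c))) (v (nat_lit 6) (k (nat_lit 0x98c2e)))))) (v (nat_lit 5) (a (a (v (nat_lit 9) (k (nat_lit 0x98c9a))) (v (nat_lit 8) (k (nat_lit 0x98afc)))) (a (v (nat_lit 6) (k (nat_lit 0x98934))) (v (nat_lit 5) (k (nat_lit 0x98ac6)))))))))) (a (u (nat_lit 5) (a (u (nat_lit 7) (u (nat_lit 8) (k (nat_lit 0x135744)))) (u (nat_lit 6) (v (nat_lit 6) (k (nat_lit 0x131d00)))))) (a (t (nat_lit 5) (nat_lit 8) (nat_lit 9) (a (a (u (nat_lit 9) (u (nat_lit 9) (k (nat_lit 0x994c2)))) (v (nat_lit 7) (u (nat_lit 9) (k (nat_lit 0x99f42))))) (a (u (nat_lit 7) (v (nat_lit 7) (k (nat_lit 0xc3f320a)))) (u (nat_lit 5)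 (a (u (nat_lit 8) (k (nat_lit 0x54fb172))) (v (nat_lit 7) (k (nat_lit 0x90b69a6)))))))) (v (nat_lit 4) (a (a (v (nat_lit 9) (v (nat_lit 9) (k (nat_lit 0x98ca6)))) (a (v (nat_lit 8) (v (nat_lit 8) (k (nat_lit 0x133b0c)))) (v (nat_lit 7) (v (nat_lit 7) (k (nat_lit 0x98ca6)))))) (a (a (v (nat_lit 6) (a (a (v (nat_lit 9) (k (nat_lit 0x9b78a))) (v (nat_lit 8) (k (nat_lit 0x12f624)))) (a (v (nat_lit 7) (k (nat_lit 0x9b78a))) (v (nat_lit 6) (k (nat_lit 0x134c64)))))) (v (nat_lit 5) (a (v (nat_lit 8) (k (nat_lit 0x98cfa))) (v (nat_lit 5) (k (nat_lit 0x98c46)))))) (a (t (nat_lit 5) (nat_lit 8) (nat_lit 9) (a (u (nat_lit 9) (k (nat_lit 0x99b28))) (a (u (nat_lit 8) (k (nat_lit 0xee9cd94))) (v (nat_lit 7) (k (nat_lit 0x9fa02)))))) (v (nat_lit 4) (a (a (v (nat_lit 9) (k (nat_lit 0x98c88))) (a (v (nat_lit 8) (k (nat_lit 0x1310b8))) (v (nat_lit 7) (k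 (nat_lit 0x98c88))))) (a (v (nat_lit 6) (k (nat_lit 0x1315a4))) (a (v (nat_lit 5) (k (nat_lit 0x98e56))) (v (nat_lit 4) (k (nat_lit 0x131910)))))))))))))))) (a (t (nat_lit 4) (nat_lit 7) (nat_lit 9) (a (a (v (nat_lit 6) (v (nat_lit 6) (a (u (nat_lit 9) (k (nat_lit 0x99162))) (u (nat_lit 7) (k (nat_lit 0x99162)))))) (u (nat_lit 5) (a (a (u (nat_lit 9) (u (nat_lit 9) (k (nat_lit 0x994c2)))) (v (nat_lit 8) (u (nat_lit 9) (k (nat_lit 0x99f42))))) (a (u (nat_lit 8) (v (nat_lit 8) (k (nat_lit 0xc3f320a)))) (v (nat_lit 5) (a (u (nat_lit 9) (k (nat_lit 0x99b28))) (a (v (nat_lit 8) (k (nat_lit 0x9fa02))) (u (nat_lit 7) (k (nat_lit 0xee9cd94)))))))))) (a (t (nat_lit 5) (nat_lit 8) (nat_lit 9) (a (u (nat_lit 9) (v (nat_lit 9) (k (nat_lit 0x69f189c)))) (a (u (nat_lit 6) (v (nat_lit 6) (k (nat_lit 0x1434360)))) (u (nat_lit 5) (a (u (nat_lit 9) (k (nat_lit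 0x29a0b16))) (u (nat_lit 7) (k (nat_lit 0x9915c)))))))) (u (nat_lit 4) (a (a (u (nat_lit 9) (v (nat_lit 9) (k (nat_lit 0x273552c)))) (a (u (nat_lit 7) (a (u (nat_lit 9) (k (nat_lit 0x6693aec))) (v (nat_lit 7) (k (nat_lit 0x273552c))))) (v (nat_lit 5) (v (nat_lit 5) (k (nat_lit 0x2d8f8e0)))))) (a (a (u (nat_lit 5) (a (v (nat_lit 8) (k (nat_lit 0x90b69a6))) (u (nat_lit 7) (k (nat_lit 0x54fb172))))) (t (nat_lit 5) (nat_lit 8) (nat_lit 9) (a (u (nat_lit 9) (k (nat_lit 0x29a0b16))) (u (nat_lit 8) (k (nat_lit 0x9915c)))))) (a (v (nat_lit 4) (a (v (nat_lit 8) (k (nat_lit 0x132120))) (a (u (nat_lit 6) (k (nat_lit 0x150e8854))) (v (nat_lit 4) (k (nat_lit 0x3469c50)))))) (u (nat_lit 4) (v (nat_lit 6) (k (nat_lit 0x135660))))))))))) (v (nat_lit 3) (a (a (a (v (nat_lit 7) (a (v (nat_lit 8) (u (nat_lit 9) (k (nat_lit 0x137d9c)))) (a (u (nat_lit 8)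 (v (nat_lit 9) (k (nat_lit 0x95cfa)))) (v (nat_lit 7) (u (nat_lit 8) (k (nat_lit 0x998e8))))))) (u (nat_lit 7) (v (nat_lit 8) (a (v (nat_lit 9) (k (nat_lit 0x95cfa))) (v (nat_lit 8) (k (nat_lit 0x998e8))))))) (a (v (nat_lit 6) (a (u (nat_lit 9) (v (nat_lit 9) (k (nat_lit 0x12f4d4)))) (v (nat_lit 6) (a (u (nat_lit 9) (k (nat_lit 0x12d740))) (a (u (nat_lit 8) (k (nat_lit 0x98f46))) (u (nat_lit 7) (k (nat_lit 0x98f46)))))))) (a (u (nat_lit 6) (a (a (v (nat_lit 9) (v (nat_lit 9) (k (nat_lit 0x13518c)))) (v (nat_lit 8) (a (v (nat_lit 9) (k (nat_lit 0x98d90))) (v (nat_lit 8) (k (nat_lit 0x98d0c)))))) (a (v (nat_lit 7) (a (v (nat_lit 9) (k (nat_lit 0x98d90))) (a (v (nat_lit 8) (k (nat_lit 0x131a00))) (v (nat_lit 7) (k (nat_lit 0x98d0c)))))) (v (nat_lit 6) (a (a (v (nat_lit 9) (k (nat_lit 0x1350a8))) (v (nat_lit 8) (k (nat_lit 0x99036)))) (a (v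 (nat_lit 7) (k (nat_lit 0x99036))) (v (nat_lit 6) (k (nat_lit 0x131e5c))))))))) (v (nat_lit 5) (a (a (v (nat_lit 8) (u (nat_lit 9) (k (nat_lit 0x97b72)))) (u (nat_lit 8) (v (nat_lit 8) (k (nat_lit 0x98e26))))) (a (v (nat_lit 7) (u (nat_lit 8) (k (nat_lit 0x99450)))) (a (u (nat_lit 7) (a (v (nat_lit 9) (k (nat_lit 0x98d06))) (v (nat_lit 7) (k (nat_lit 0x98e98))))) (u (nat_lit 6) (a (a (v (nat_lit 9) (k (nat_lit 0x99fc6))) (v (nat_lit 8) (k (nat_lit 0x98e38)))) (a (v (nat_lit 7) (k (nat_lit 0x98e08))) (v (nat_lit 6) (k (nat_lit 0x97c20))))))))))))) (a (a (u (nat_lit 5) (a (v (nat_lit 7) (v (nat_lit 8) (k (nat_lit 0x98cbe)))) (a (v (nat_lit 6) (v (nat_lit 6) (k (nat_lit 0x9a0c8)))) (v (nat_lit 5) (a (a (v (nat_lit 9) (k (nat_lit 0x98e92))) (v (nat_lit 8) (k (nat_lit 0x98e74)))) (a (v (nat_lit 7) (k (nat_lit 0x98f2e))) (a (v (nat_lit 6) (k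 (nat_lit 0x992f4))) (v (nat_lit 5) (k (nat_lit 0x98dd8)))))))))) (a (t (nat_lit 5) (nat_lit 8) (nat_lit 9) (a (u (nat_lit 7) (a (u (nat_lit 9) (k (nat_lit 0xab25d4))) (u (nat_lit 7) (k (nat_lit 0x300c3e4))))) (a (u (nat_lit 6) (a (u (nat_lit 7) (k (nat_lit 0x207c5c4))) (u (nat_lit 6) (k (nat_lit 0x2682cc))))) (u (nat_lit 5) (u (nat_lit 5) (k (nat_lit 0xb27e6ec))))))) (v (nat_lit 4) (a (a (u (nat_lit 8) (a (v (nat_lit 9) (k (nat_lit 0x98d06))) (v (nat_lit 8) (k (nat_lit 0x98e98))))) (a (v (nat_lit 7) (u (nat_lit 9) (k (nat_lit 0x97b72)))) (u (nat_lit 7) (a (v (nat_lit 8) (k (nat_lit 0x99450))) (v (nat_lit 7) (k (nat_lit 0x98e26))))))) (a (u (nat_lit 6) (a (a (v (nat_lit 9) (k (nat_lit 0x99fc6))) (v (nat_lit 8) (k (nat_lit 0x98e08)))) (a (v (nat_lit 7) (k (nat_lit 0x98e38))) (v (nat_lit 6) (k (nat_lit 0x97c20)))))) (a (u (nat_lit 5) (a (v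 (nat_lit 9) (k (nat_lit 0x9794a))) (a (v (nat_lit 7) (k (nat_lit 0x951b4))) (v (nat_lit 6) (k (nat_lit 0x991f8)))))) (v (nat_lit 4) (u (nat_lit 5) (k (nat_lit 0x991da)))))))))) (a (u (nat_lit 4) (a (a (v (nat_lit 7) (v (nat_lit 8) (k (nat_lit 0x98cbe)))) (v (nat_lit 6) (v (nat_lit 6) (k (nat_lit 0x9a0c8))))) (a (v (nat_lit 5) (a (a (v (nat_lit 9) (k (nat_lit 0x9794a))) (v (nat_lit 8) (k (nat_lit 0x951b4)))) (a (v (nat_lit 6) (k (nat_lit 0x991f8))) (v (nat_lit 5) (k (nat_lit 0x991da)))))) (a (t (nat_lit 5) (nat_lit 8) (nat_lit 9) (t (nat_lit 5) (nat_lit 8) (nat_lit 9) (k (nat_lit 0x5417cf4)))) (v (nat_lit 4) (a (a (v (nat_lit 9) (k (nat_lit 0x98e92))) (v (nat_lit 8) (k (nat_lit 0x98f2e)))) (a (v (nat_lit 7) (k (nat_lit 0x98e74))) (a (v (nat_lit 6) (k (nat_lit 0x992f4))) (v (nat_lit 4) (k (nat_lit 0x98dd8))))))))))) (a (t (nat_lit 4) (nat_lit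 7) (nat_lit 9) (a (a (u (nat_lit 8) (a (u (nat_lit 9) (k (nat_lit 0xab25d4))) (u (nat_lit 8) (k (nat_lit 0x300c3e4))))) (u (nat_lit 6) (a (u (nat_lit 8) (k (nat_lit 0x207c5c4))) (u (nat_lit 6) (k (nat_lit 0x2682cc)))))) (a (u (nat_lit 4) (u (nat_lit 4) (k (nat_lit 0xb27e6ec)))) (t (nat_lit 4) (nat_lit 7) (nat_lit 9) (u (nat_lit 5) (k (nat_lit 0x5417cf4))))))) (v (nat_lit 3) (a (a (u (nat_lit 9) (v (nat_lit 9) (k (nat_lit 0x132a50)))) (t (nat_lit 5) (nat_lit 8) (nat_lit 9) (u (nat_lit 9) (k (nat_lit 0x9a7a0))))) (a (u (nat_lit 4) (u (nat_lit 5) (k (nat_lit 0x133698)))) (a (t (nat_lit 4) (nat_lit 7) (nat_lit 9) (u (nat_lit 9) (k (nat_lit 0x9a7a0)))) (v (nat_lit 3) (a (u (nat_lit 5) (k (nat_lit 0x98e44))) (u (nat_lit 4) (k (nat_lit 0x98e44)))))))))))))))) (a (u (nat_lit 3) (a (a (a (v (nat_lit 9) (v (nat_lit 9) (v (nat_lit 9) (k (nat_lit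 0x131934))))) (v (nat_lit 8) (a (v (nat_lit 9) (v (nat_lit 9) (k (nat_lit 0x98c88)))) (v (nat_lit 8) (a (v (nat_lit 9) (k (nat_lit 0x98c94))) (v (nat_lit 8) (k (nat_lit 0x98b8c)))))))) (a (v (nat_lit 7) (a (v (nat_lit 9) (v (nat_lit 9) (k (nat_lit 0x98c88)))) (v (nat_lit 7) (a (v (nat_lit 9) (k (nat_lit 0x98c94))) (v (nat_lit 7) (k (nat_lit 0x98b8c))))))) (a (u (nat_lit 6) (v (nat_lit 6) (u (nat_lit 9) (k (nat_lit 0x133d4c))))) (v (nat_lit 5) (a (v (nat_lit 9) (v (nat_lit 9) (k (nat_lit 0x98c6a)))) (a (v (nat_lit 8) (v (nat_lit 9) (k (nat_lit 0x9a092)))) (v (nat_lit 6) (u (nat_lit 9) (k (nat_lit 0x96b8e)))))))))) (a (a (u (nat_lit 5) (v (nat_lit 6) (v (nat_lit 9) (k (nat_lit 0x9c1b0))))) (a (t (nat_lit 5) (nat_lit 8) (nat_lit 9) (u (nat_lit 5) (a (u (nat_lit 9) (k (nat_lit 0xe45ecda))) (u (nat_lit 8) (k (nat_lit 0x17289e4)))))) (v (nat_lit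 4) (a (a (v (nat_lit 9) (v (nat_lit 9) (k (nat_lit 0x98c6a)))) (v (nat_lit 7) (v (nat_lit 9) (k (nat_lit 0x9a092))))) (a (v (nat_lit 6) (u (nat_lit 9) (k (nat_lit 0x96b8e)))) (a (u (nat_lit 5) (a (v (nat_lit 8) (k (nat_lit 0x97b48))) (a (v (nat_lit 7) (k (nat_lit 0x95fee))) (v (nat_lit 5) (k (nat_lit 0x96eee)))))) (v (nat_lit 4) (u (nat_lit 5) (k (nat_lit 0x9aa88)))))))))) (a (u (nat_lit 4) (a (v (nat_lit 6) (v (nat_lit 9) (k (nat_lit 0x9c1b0)))) (a (v (nat_lit 5) (a (v (nat_lit 8) (k (nat_lit 0x95fee))) (a (v (nat_lit 7) (k (nat_lit 0x97b48))) (v (nat_lit 5) (k (nat_lit 0x9aa88)))))) (v (nat_lit 4) (v (nat_lit 5) (k (nat_lit 0x96eee))))))) (a (t (nat_lit 4) (nat_lit 7) (nat_lit 9) (u (nat_lit 4) (a (u (nat_lit 9) (k (nat_lit 0xe45ecda))) (u (nat_lit 7) (k (nat_lit 0x17289e4)))))) (v (nat_lit 3) (a (a (a (v (nat_lit 9) (v (nat_lit 9) (k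 (nat_lit 0x131028)))) (a (v (nat_lit 8) (a (v (nat_lit 9) (k (nat_lit 0x9834c))) (v (nat_lit 8) (k (nat_lit 0x98d78))))) (u (nat_lit 8) (u (nat_lit 9) (k (nat_lit 0x99654)))))) (a (v (nat_lit 7) (a (v (nat_lit 9) (k (nat_lit 0x9834c))) (a (v (nat_lit 8) (k (nat_lit 0x131a18))) (v (nat_lit 7) (k (nat_lit 0x98d78)))))) (a (u (nat_lit 7) (u (nat_lit 9) (k (nat_lit 0x99654)))) (v (nat_lit 6) (a (a (v (nat_lit 9) (k (nat_lit 0x132804))) (u (nat_lit 9) (k (nat_lit 0x133554)))) (a (v (nat_lit 8) (k (nat_lit 0x99714))) (a (v (nat_lit 7) (k (nat_lit 0x99714))) (v (nat_lit 6) (k (nat_lit 0x132504)))))))))) (a (a (v (nat_lit 5) (a (a (v (nat_lit 9) (k (nat_lit 0x98e80))) (a (v (nat_lit 8) (k (nat_lit 0x98e8c))) (v (nat_lit 7) (k (nat_lit 0x96e2e))))) (a (u (nat_lit 7) (k (nat_lit 0x98406))) (a (v (nat_lit 6) (k (nat_lit 0x992e8))) (v (nat_lit 5)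 (k (nat_lit 0x98d06))))))) (a (u (nat_lit 5) (v (nat_lit 7) (k (nat_lit 0x9756c)))) (t (nat_lit 5) (nat_lit 8) (nat_lit 9) (t (nat_lit 5) (nat_lit 8) (nat_lit 9) (k (nat_lit 0x9a938)))))) (a (a (v (nat_lit 4) (a (a (v (nat_lit 9) (k (nat_lit 0x98e80))) (a (v (nat_lit 8) (k (nat_lit 0x96e2e))) (u (nat_lit 8) (k (nat_lit 0x98406))))) (a (a (v (nat_lit 7) (k (nat_lit 0x98e8c))) (v (nat_lit 6) (k (nat_lit 0x992e8)))) (a (v (nat_lit 5) (k (nat_lit 0x133644))) (v (nat_lit 4) (k (nat_lit 0x98d06))))))) (u (nat_lit 4) (v (nat_lit 8) (k (nat_lit 0x9756c))))) (a (t (nat_lit 4) (nat_lit 7) (nat_lit 9) (t (nat_lit 4) (nat_lit 7) (nat_lit 9) (k (nat_lit 0x9a938)))) (v (nat_lit 3) (a (a (v (nat_lit 9) (k (nat_lit 0x131c4c))) (v (nat_lit 8) (k (nat_lit 0x98fa0)))) (a (v (nat_lit 7) (k (nat_lit 0x98fa0))) (a (v (nat_lit 6) (k (nat_lit 0x13695c))) (v (nat_lit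 3) (k (nat_lit 0x131a00))))))))))))))))) (a (v (nat_lit 2) (a (a (a (u (nat_lit 9) (v (nat_lit 9) (v (nat_lit 9) (k (nat_lit 0x131310))))) (a (v (nat_lit 8) (a (u (nat_lit 9) (v (nat_lit 9) (k (nat_lit 0x99de6)))) (v (nat_lit 8) (u (nat_lit 9) (k (nat_lit 0x98cc4)))))) (u (nat_lit 8) (a (v (nat_lit 9) (v (nat_lit 9) (k (nat_lit 0x97b90)))) (v (nat_lit 8) (v (nat_lit 9) (k (nat_lit 0x98cb2)))))))) (a (a (v (nat_lit 7) (a (a (u (nat_lit 9) (v (nat_lit 9) (k (nat_lit 0x99de6)))) (v (nat_lit 8) (u (nat_lit 9) (k (nat_lit 0x12eaf0))))) (a (u (nat_lit 8) (v (nat_lit 9) (k (nat_lit 0x9853e)))) (v (nat_lit 7) (u (nat_lit 9) (k (nat_lit 0x98cc4))))))) (u (nat_lit 7) (a (v (nat_lit 9) (v (nat_lit 9) (k (nat_lit 0x97b90)))) (a (v (nat_lit 8) (v (nat_lit 9) (k (nat_lit 0x9853e)))) (v (nat_lit 7) (v (nat_lit 9) (k (nat_lit 0x98cb2)))))))) (a (v (nat_lit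 6) (a (u (nat_lit 8) (v (nat_lit 8) (k (nat_lit 0x99096)))) (a (u (nat_lit 7) (v (nat_lit 7) (k (nat_lit 0x99096)))) (v (nat_lit 6) (a (u (nat_lit 9) (k (nat_lit 0x131b50))) (a (u (nat_lit 8) (k (nat_lit 0x98cca))) (u (nat_lit 7) (k (nat_lit 0x98cca))))))))) (u (nat_lit 6) (a (a (v (nat_lit 9) (v (nat_lit 9) (k (nat_lit 0x131988)))) (v (nat_lit 8) (v (nat_lit 9) (k (nat_lit 0x98bf8))))) (a (v (nat_lit 7) (v (nat_lit 9) (k (nat_lit 0x98bf8)))) (v (nat_lit 6) (v (nat_lit 6) (k (nat_lit 0x131cd0)))))))))) (a (a (a (v (nat_lit 5) (a (a (v (nat_lit 7) (u (nat_lit 9) (k (nat_lit 0x9abea)))) (u (nat_lit 7) (v (nat_lit 9) (k (nat_lit 0x9abea))))) (a (v (nat_lit 6) (u (nat_lit 8) (k (nat_lit 0x132528)))) (u (nat_lit 6) (a (a (v (nat_lit 9) (k (nat_lit 0x96978))) (v (nat_lit 8) (k (nat_lit 0x139d4c)))) (a (v (nat_lit 7) (k (nat_lit 0x96978))) (v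 (nat_lit 6) (k (nat_lit 0x131ef8))))))))) (u (nat_lit 5) (a (a (v (nat_lit 8) (v (nat_lit 8) (k (nat_lit 0x98cd6)))) (v (nat_lit 7) (a (v (nat_lit 8) (k (nat_lit 0x98dd8))) (v (nat_lit 7) (k (nat_lit 0x98be6)))))) (a (v (nat_lit 6) (a (v (nat_lit 8) (k (nat_lit 0x949c2))) (a (v (nat_lit 7) (k (nat_lit 0x9b28c))) (v (nat_lit 6) (k (nat_lit 0x98c2e)))))) (v (nat_lit 5) (a (v (nat_lit 7) (k (nat_lit 0x98cfa))) (v (nat_lit 5) (k (nat_lit 0x98e56))))))))) (a (v (nat_lit 4) (a (a (v (nat_lit 8) (u (nat_lit 9) (k (nat_lit 0x9abea)))) (a (u (nat_lit 8) (v (nat_lit 9) (k (nat_lit 0x9abea)))) (v (nat_lit 6) (u (nat_lit 7) (k (nat_lit 0x132528)))))) (a (u (nat_lit 6) (a (a (v (nat_lit 9) (k (nat_lit 0x96978))) (v (nat_lit 8) (k (nat_lit 0x96978)))) (a (v (nat_lit 7) (k (nat_lit 0x139d4c))) (v (nat_lit 6) (k (nat_lit 0x131ef8)))))) (a (u (nat_lit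 5) (a (v (nat_lit 7) (k (nat_lit 0x13140c))) (a (v (nat_lit 6) (k (nat_lit 0x131f40))) (v (nat_lit 5) (k (nat_lit 0x131934)))))) (v (nat_lit 4) (u (nat_lit 5) (k (nat_lit 0x98bda)))))))) (u (nat_lit 4) (a (a (v (nat_lit 8) (v (nat_lit 8) (k (nat_lit 0x98be6)))) (a (v (nat_lit 7) (a (v (nat_lit 8) (k (nat_lit 0x98dd8))) (v (nat_lit 7) (k (nat_lit 0x98cd6))))) (v (nat_lit 6) (a (v (nat_lit 8) (k (nat_lit 0x9b28c))) (a (v (nat_lit 7) (k (nat_lit 0x949c2))) (v (nat_lit 6) (k (nat_lit 0x98c2e)))))))) (a (v (nat_lit 5) (a (v (nat_lit 8) (k (nat_lit 0x13140c))) (a (v (nat_lit 6) (k (nat_lit 0x131f40))) (v (nat_lit 5) (k (nat_lit 0x98bda)))))) (a (t (nat_lit 5) (nat_lit 8) (nat_lit 9) (t (nat_lit 5) (nat_lit 8) (nat_lit 9) (k (nat_lit 0x2a413dc)))) (v (nat_lit 4) (a (v (nat_lit 8) (k (nat_lit 0x98cfa))) (a (v (nat_lit 5) (k (nat_lit 0x131934)))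 (v (nat_lit 4) (k (nat_lit 0x98e56)))))))))))) (a (a (t (nat_lit 4) (nat_lit 7) (nat_lit 9) (t (nat_lit 4) (nat_lit 7) (nat_lit 9) (u (nat_lit 5) (k (nat_lit 0x2a413dc))))) (v (nat_lit 3) (a (a (a (u (nat_lit 9) (v (nat_lit 9) (k (nat_lit 0x1340dc)))) (v (nat_lit 8) (u (nat_lit 9) (k (nat_lit 0x968c4))))) (a (u (nat_lit 8) (a (v (nat_lit 9) (k (nat_lit 0x97a5e))) (v (nat_lit 8) (k (nat_lit 0x98d12))))) (a (v (nat_lit 7) (a (u (nat_lit 9) (k (nat_lit 0x968c4))) (u (nat_lit 8) (k (nat_lit 0x9bb86))))) (u (nat_lit 7) (a (v (nat_lit 9) (k (nat_lit 0x97a5e))) (a (v (nat_lit 8) (k (nat_lit 0x9bb86))) (v (nat_lit 7) (k (nat_lit 0x98d12))))))))) (a (a (u (nat_lit 6) (a (a (v (nat_lit 9) (k (nat_lit 0x12c39c))) (v (nat_lit 8) (k (nat_lit 0x98dd8)))) (a (v (nat_lit 7) (k (nat_lit 0x98dd8))) (v (nat_lit 6) (k (nat_lit 0x1316f4)))))) (a (u (nat_lit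 5) (a (a (v (nat_lit 9) (k (nat_lit 0x9880e))) (v (nat_lit 8) (k (nat_lit 0x96150)))) (a (v (nat_lit 7) (k (nat_lit 0x9aa0a))) (a (v (nat_lit 6) (k (nat_lit 0x9a02c))) (v (nat_lit 5) (k (nat_lit 0x92c16))))))) (t (nat_lit 5) (nat_lit 8) (nat_lit 9) (u (nat_lit 7) (k (nat_lit 0xf2cf38e)))))) (a (v (nat_lit 4) (u (nat_lit 5) (k (nat_lit 0x9c05a)))) (a (u (nat_lit 4) (a (a (v (nat_lit 9) (k (nat_lit 0x9880e))) (a (v (nat_lit 8) (k (nat_lit 0x9aa0a))) (v (nat_lit 7) (k (nat_lit 0x96150))))) (a (v (nat_lit 6) (k (nat_lit 0x9a02c))) (a (v (nat_lit 5) (k (nat_lit 0x9c05a))) (v (nat_lit 4) (k (nat_lit 0x92c16))))))) (t (nat_lit 4) (nat_lit 7) (nat_lit 9) (u (nat_lit 8) (k (nat_lit 0xf2cf38e)))))))))) (a (u (nat_lit 3) (v (nat_lit 3) (a (a (v (nat_lit 9) (k (nat_lit 0x131b68))) (a (v (nat_lit 8) (k (nat_lit 0x98d30))) (v (nat_lit 7) (k (nat_lit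 0x98d30))))) (a (v (nat_lit 6) (k (nat_lit 0x16e138))) (a (v (nat_lit 5) (k (nat_lit 0x98d36))) (v (nat_lit 4) (k (nat_lit 0x98d36)))))))) (v (nat_lit 2) (a (a (a (u (nat_lit 9) (v (nat_lit 9) (k (nat_lit 0x12f774)))) (a (v (nat_lit 8) (u (nat_lit 9) (k (nat_lit 0x995c4)))) (u (nat_lit 8) (v (nat_lit 9) (k (nat_lit 0x987f0)))))) (a (a (v (nat_lit 7) (a (u (nat_lit 9) (k (nat_lit 0x995c4))) (u (nat_lit 8) (k (nat_lit 0x98d84))))) (u (nat_lit 7) (a (v (nat_lit 9) (k (nat_lit 0x987f0))) (v (nat_lit 8) (k (nat_lit 0x98d84)))))) (a (v (nat_lit 6) (a (u (nat_lit 8) (k (nat_lit 0x9883e))) (u (nat_lit 7) (k (nat_lit 0x9883e))))) (u (nat_lit 6) (a (v (nat_lit 9) (k (nat_lit 0x134b5c))) (a (v (nat_lit 8) (k (nat_lit 0x96b64))) (v (nat_lit 7) (k (nat_lit 0x96b64))))))))) (a (a (a (u (nat_lit 5) (a (a (v (nat_lit 8) (k (nat_lit 0x98c9a))) (v (nat_lit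 7) (k (nat_lit 0x98afc)))) (a (v (nat_lit 6) (k (nat_lit 0x98934))) (v (nat_lit 5) (k (nat_lit 0x98c46)))))) (t (nat_lit 5) (nat_lit 8) (nat_lit 9) (u (nat_lit 5) (k (nat_lit 0x2d8f8e0))))) (a (v (nat_lit 4) (u (nat_lit 5) (k (nat_lit 0x98bda)))) (u (nat_lit 4) (a (a (v (nat_lit 8) (k (nat_lit 0x98afc))) (v (nat_lit 7) (k (nat_lit 0x98c9a)))) (a (v (nat_lit 6) (k (nat_lit 0x98934))) (a (v (nat_lit 5) (k (nat_lit 0x98bda))) (v (nat_lit 4) (k (nat_lit 0x98c46))))))))) (a (a (t (nat_lit 4) (nat_lit 7) (nat_lit 9) (u (nat_lit 4) (k (nat_lit 0x2d8f8e0)))) (v (nat_lit 3) (a (u (nat_lit 5) (k (nat_lit 0x96e40))) (u (nat_lit 4) (k (nat_lit 0x96e40)))))) (a (u (nat_lit 3) (v (nat_lit 3) (k (nat_lit 0x1319a0)))) (v (nat_lit 2) (a (u (nat_lit 5) (k (nat_lit 0x98ac6))) (u (nat_lit 4) (k (nat_lit 0x98ac6))))))))))))))) (u (nat_lit 2) (a (a (a (v (nat_lit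 9) (v (nat_lit 9) (v (nat_lit 9) (k (nat_lit 0x1318c8))))) (a (v (nat_lit 8) (a (v (nat_lit 9) (v (nat_lit 9) (k (nat_lit 0x98bf2)))) (v (nat_lit 8) (v (nat_lit 8) (k (nat_lit 0x98cac)))))) (v (nat_lit 7) (a (v (nat_lit 9) (v (nat_lit 9) (k (nat_lit 0x98bf2)))) (a (v (nat_lit 8) (a (v (nat_lit 9) (k (nat_lit 0x135714))) (v (nat_lit 8) (k (nat_lit 0x98cbe))))) (v (nat_lit 7) (a (v (nat_lit 8) (k (nat_lit 0x98cbe))) (v (nat_lit 7) (k (nat_lit 0x98cac)))))))))) (a (a (v (nat_lit 6) (a (v (nat_lit 8) (v (nat_lit 8) (k (nat_lit 0x98d2a)))) (a (v (nat_lit 7) (a (v (nat_lit 8) (k (nat_lit 0x1320a8))) (v (nat_lit 7) (k (nat_lit 0x98d2a))))) (v (nat_lit 6) (v (nat_lit 6) (k (nat_lit 0x131d78))))))) (u (nat_lit 6) (u (nat_lit 6) (v (nat_lit 6) (k (nat_lit 0x131c70)))))) (a (v (nat_lit 5) (a (a (v (nat_lit 9) (v (nat_lit 9) (k (nat_lit 0x98be6))))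 (v (nat_lit 8) (a (v (nat_lit 9) (k (nat_lit 0x98dd8))) (v (nat_lit 8) (k (nat_lit 0x98cd6)))))) (a (v (nat_lit 6) (a (v (nat_lit 9) (k (nat_lit 0x9b28c))) (a (v (nat_lit 8) (k (nat_lit 0x949c2))) (v (nat_lit 6) (k (nat_lit 0x98c2e)))))) (v (nat_lit 5) (a (a (v (nat_lit 9) (k (nat_lit 0x98afc))) (v (nat_lit 8) (k (nat_lit 0x98c9a)))) (a (v (nat_lit 6) (k (nat_lit 0x98934))) (v (nat_lit 5) (k (nat_lit 0x98ac6))))))))) (u (nat_lit 5) (a (u (nat_lit 7) (u (nat_lit 9) (k (nat_lit 0x135744)))) (u (nat_lit 6) (v (nat_lit 6) (k (nat_lit 0x131d00))))))))) (a (a (a (t (nat_lit 5) (nat_lit 8) (nat_lit 9) (a (a (u (nat_lit 8) (u (nat_lit 8) (k (nat_lit 0x994c2)))) (v (nat_lit 7) (u (nat_lit 8) (k (nat_lit 0x99f42))))) (a (u (nat_lit 7) (v (nat_lit 7) (k (nat_lit 0xc3f320a)))) (u (nat_lit 5) (a (u (nat_lit 9) (k (nat_lit 0x54fb172))) (v (nat_lit 7)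 (k (nat_lit 0x90b69a6)))))))) (v (nat_lit 4) (a (a (v (nat_lit 9) (v (nat_lit 9) (k (nat_lit 0x98be6)))) (a (v (nat_lit 7) (a (v (nat_lit 9) (k (nat_lit 0x98dd8))) (v (nat_lit 7) (k (nat_lit 0x98cd6))))) (v (nat_lit 6) (a (v (nat_lit 9) (k (nat_lit 0x9b28c))) (a (v (nat_lit 7) (k (nat_lit 0x949c2))) (v (nat_lit 6) (k (nat_lit 0x98c2e)))))))) (a (v (nat_lit 5) (a (v (nat_lit 9) (k (nat_lit 0x13140c))) (a (v (nat_lit 6) (k (nat_lit 0x131f40))) (v (nat_lit 5) (k (nat_lit 0x98bda)))))) (a (t (nat_lit 5) (nat_lit 8) (nat_lit 9) (t (nat_lit 5) (nat_lit 8) (nat_lit 9) (k (nat_lit 0x2a413dc)))) (v (nat_lit 4) (a (a (v (nat_lit 9) (k (nat_lit 0x98afc))) (v (nat_lit 7) (k (nat_lit 0x98c9a)))) (a (v (nat_lit 6) (k (nat_lit 0x98934))) (a (v (nat_lit 5) (k (nat_lit 0x98bda))) (v (nat_lit 4) (k (nat_lit 0x98ac6)))))))))))) (a (u (nat_lit 4) (a (u (nat_lit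 8) (u (nat_lit 9) (k (nat_lit 0x135744)))) (a (u (nat_lit 6) (v (nat_lit 6) (k (nat_lit 0x131d00)))) (t (nat_lit 5) (nat_lit 8) (nat_lit 9) (a (u (nat_lit 9) (k (nat_lit 0x4e9860a))) (u (nat_lit 8) (k (nat_lit 0x4e9860a)))))))) (t (nat_lit 4) (nat_lit 7) (nat_lit 9) (a (a (u (nat_lit 8) (v (nat_lit 8) (k (nat_lit 0xc3f320a)))) (u (nat_lit 7) (a (v (nat_lit 8) (k (nat_lit 0x99f42))) (u (nat_lit 7) (k (nat_lit 0x994c2)))))) (a (u (nat_lit 5) (a (u (nat_lit 9) (k (nat_lit 0x4e9860a))) (u (nat_lit 7) (k (nat_lit 0x4e9860a))))) (a (u (nat_lit 4) (a (u (nat_lit 9) (k (nat_lit 0x54fb172))) (v (nat_lit 8) (k (nat_lit 0x90b69a6))))) (t (nat_lit 4) (nat_lit 7) (nat_lit 9) (v (nat_lit 5) (k (nat_lit 0x2a413dc)))))))))) (a (a (v (nat_lit 3) (a (a (v (nat_lit 9) (v (nat_lit 9) (k (nat_lit 0x12ff24)))) (a (v (nat_lit 8) (v (nat_lit 8) (k (nat_lit 0x337670a))))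 (v (nat_lit 7) (a (v (nat_lit 8) (k (nat_lit 0x12b7b4))) (v (nat_lit 7) (k (nat_lit 0x337670a))))))) (a (a (v (nat_lit 6) (v (nat_lit 6) (k (nat_lit 0x1320fc)))) (v (nat_lit 5) (a (a (v (nat_lit 9) (k (nat_lit 0x99396))) (v (nat_lit 8) (k (nat_lit 0x9b892)))) (a (v (nat_lit 7) (k (nat_lit 0x975a2))) (a (v (nat_lit 6) (k (nat_lit 0x9939c))) (v (nat_lit 5) (k (nat_lit 0x9f28e)))))))) (a (v (nat_lit 4) (a (a (v (nat_lit 9) (k (nat_lit 0x99396))) (a (v (nat_lit 8) (k (nat_lit 0x975a2))) (v (nat_lit 7) (k (nat_lit 0x9b892))))) (a (v (nat_lit 6) (k (nat_lit 0x9939c))) (a (v (nat_lit 5) (k (nat_lit 0x12b76c))) (v (nat_lit 4) (k (nat_lit 0x9f28e))))))) (v (nat_lit 3) (v (nat_lit 3) (k (nat_lit 0x131e98)))))))) (u (nat_lit 3) (a (a (v (nat_lit 9) (v (nat_lit 9) (k (nat_lit 0x131f94)))) (v (nat_lit 8) (v (nat_lit 9) (k (nat_lit 0x9572a))))) (a (v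 (nat_lit 7) (v (nat_lit 9) (k (nat_lit 0x9572a)))) (u (nat_lit 6) (v (nat_lit 9) (k (nat_lit 0x136ecc)))))))) (a (v (nat_lit 2) (a (a (a (v (nat_lit 9) (v (nat_lit 9) (k (nat_lit 0x133b0c)))) (v (nat_lit 8) (v (nat_lit 8) (k (nat_lit 0x98ca6))))) (a (v (nat_lit 7) (v (nat_lit 7) (k (nat_lit 0x98ca6)))) (a (v (nat_lit 6) (a (a (v (nat_lit 9) (k (nat_lit 0x12f624))) (v (nat_lit 8) (k (nat_lit 0x9b78a)))) (a (v (nat_lit 7) (k (nat_lit 0x9b78a))) (v (nat_lit 6) (k (nat_lit 0x134c64)))))) (v (nat_lit 5) (a (v (nat_lit 9) (k (nat_lit 0x98cfa))) (v (nat_lit 5) (k (nat_lit 0x98c46)))))))) (a (a (t (nat_lit 5) (nat_lit 8) (nat_lit 9) (a (u (nat_lit 9) (k (nat_lit 0xee9cd94))) (a (u (nat_lit 8) (k (nat_lit 0x99b28))) (v (nat_lit 7) (k (nat_lit 0x9fa02)))))) (a (v (nat_lit 4) (a (v (nat_lit 9) (k (nat_lit 0x98cfa))) (a (v (nat_lit 5) (k (nat_lit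 0x131934))) (v (nat_lit 4) (k (nat_lit 0x98c46)))))) (t (nat_lit 4) (nat_lit 7) (nat_lit 9) (a (u (nat_lit 9) (k (nat_lit 0xee9cd94))) (a (v (nat_lit 8) (k (nat_lit 0x9fa02))) (u (nat_lit 7) (k (nat_lit 0x99b28)))))))) (a (v (nat_lit 3) (a (a (v (nat_lit 9) (k (nat_lit 0x131d00))) (a (v (nat_lit 8) (k (nat_lit 0x96ff0))) (v (nat_lit 7) (k (nat_lit 0x96ff0))))) (a (v (nat_lit 6) (k (nat_lit 0x132720))) (a (v (nat_lit 5) (k (nat_lit 0x9ad28))) (v (nat_lit 4) (k (nat_lit 0x9ad28))))))) (a (u (nat_lit 3) (a (u (nat_lit 8) (k (nat_lit 0x9a77c))) (u (nat_lit 7) (k (nat_lit 0x9a77c))))) (v (nat_lit 2) (a (a (a (v (nat_lit 9) (k (nat_lit 0x1310b8))) (v (nat_lit 8) (k (nat_lit 0x98c88)))) (a (v (nat_lit 7) (k (nat_lit 0x98c88))) (v (nat_lit 6) (k (nat_lit 0x1315a4))))) (a (a (v (nat_lit 5) (k (nat_lit 0x98e56))) (v (nat_lit 4) (k (nat_lit 0x98e56))))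 (a (v (nat_lit 3) (k (nat_lit 0x131c40))) (v (nat_lit 2) (k (nat_lit 0x131910)))))))))))) (u (nat_lit 2) (t (nat_lit 4) (nat_lit 7) (nat_lit 9) (t (nat_lit 5) (nat_lit 8) (nat_lit 9) (k (nat_lit 0x13aca78))))))))))))) (a (a (t (nat_lit 2) (nat_lit 4) (nat_lit 5) (a (a (a (u (nat_lit 5) (a (v (nat_lit 6) (v (nat_lit 6) (k (nat_lit 0xb1d80b4)))) (u (nat_lit 5) (v (nat_lit 7) (k (nat_lit 0x132f00)))))) (t (nat_lit 5) (nat_lit 8) (nat_lit 9) (u (nat_lit 5) (u (nat_lit 5) (k (nat_lit 0xa564074)))))) (a (v (nat_lit 4) (t (nat_lit 5) (nat_lit 8) (nat_lit 9) (u (nat_lit 5) (k (nat_lit 0x99438))))) (u (nat_lit 4) (a (v (nat_lit 6) (v (nat_lit 6) (k (nat_lit 0xb1d80b4)))) (a (u (nat_lit 5) (u (nat_lit 5) (k (nat_lit 0x98dcc)))) (u (nat_lit 4) (a (v (nat_lit 8) (k (nat_lit 0x132f00))) (u (nat_lit 5) (k (nat_lit 0x98dcc)))))))))) (a (a (t (nat_lit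 4) (nat_lit 7) (nat_lit 9) (u (nat_lit 4) (a (v (nat_lit 5) (k (nat_lit 0x99438))) (u (nat_lit 4) (k (nat_lit 0xa564074)))))) (v (nat_lit 3) (a (t (nat_lit 5) (nat_lit 8) (nat_lit 9) (u (nat_lit 7) (k (nat_lit 0x11a4626)))) (a (t (nat_lit 4) (nat_lit 7) (nat_lit 9) (u (nat_lit 8) (k (nat_lit 0x11a4626)))) (v (nat_lit 3) (a (u (nat_lit 5) (k (nat_lit 0x99402))) (u (nat_lit 4) (k (nat_lit 0x99402))))))))) (a (v (nat_lit 2) (a (t (nat_lit 5) (nat_lit 8) (nat_lit 9) (u (nat_lit 5) (k (nat_lit 0x99438)))) (t (nat_lit 4) (nat_lit 7) (nat_lit 9) (u (nat_lit 4) (k (nat_lit 0x99438)))))) (a (u (nat_lit 2) (a (a (v (nat_lit 6) (v (nat_lit 6) (k (nat_lit 0xb1d80b4)))) (u (nat_lit 5) (u (nat_lit 5) (k (nat_lit 0x98dcc))))) (a (u (nat_lit 4) (u (nat_lit 4) (k (nat_lit 0x98dcc)))) (a (v (nat_lit 3) (v (nat_lit 3) (k (nat_lit 0x133f38)))) (u (nat_lit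 2) (a (v (nat_lit 9) (k (nat_lit 0x132f00))) (a (u (nat_lit 5) (k (nat_lit 0x98dcc))) (u (nat_lit 4) (k (nat_lit 0x98dcc)))))))))) (t (nat_lit 2) (nat_lit 4) (nat_lit 5) (a (t (nat_lit 5) (nat_lit 8) (nat_lit 9) (u (nat_lit 5) (k (nat_lit 0x1320cc)))) (t (nat_lit 4) (nat_lit 7) (nat_lit 9) (u (nat_lit 4) (k (nat_lit 0x1320cc))))))))))) (a (t (nat_lit 2) (nat_lit 7) (nat_lit 8) (a (a (a (v (nat_lit 6) (v (nat_lit 6) (a (u (nat_lit 8) (k (nat_lit 0x99162))) (u (nat_lit 7) (k (nat_lit 0x99162)))))) (u (nat_lit 5) (a (u (nat_lit 9) (v (nat_lit 9) (k (nat_lit 0xc3f320a)))) (a (u (nat_lit 8) (a (v (nat_lit 9) (k (nat_lit 0x99f42))) (u (nat_lit 8) (k (nat_lit 0x994c2))))) (v (nat_lit 5) (a (v (nat_lit 9) (k (nat_lit 0x9fa02))) (a (u (nat_lit 8) (k (nat_lit 0x99b28))) (u (nat_lit 7) (k (nat_lit 0xee9cd94)))))))))) (a (t (nat_lit 5) (nat_lit 8)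 (nat_lit 9) (a (u (nat_lit 8) (v (nat_lit 8) (k (nat_lit 0x69f189c)))) (a (u (nat_lit 6) (v (nat_lit 6) (k (nat_lit 0x1434360)))) (u (nat_lit 5) (a (u (nat_lit 8) (k (nat_lit 0x29a0b16))) (u (nat_lit 7) (k (nat_lit 0x9915c)))))))) (u (nat_lit 4) (a (a (u (nat_lit 9) (v (nat_lit 9) (k (nat_lit 0xc3f320a)))) (u (nat_lit 7) (a (v (nat_lit 9) (k (nat_lit 0x99f42))) (u (nat_lit 7) (k (nat_lit 0x994c2)))))) (a (u (nat_lit 5) (a (u (nat_lit 8) (k (nat_lit 0x4e9860a))) (u (nat_lit 7) (k (nat_lit 0x4e9860a))))) (a (v (nat_lit 4) (a (v (nat_lit 9) (k (nat_lit 0x9fa02))) (a (u (nat_lit 8) (k (nat_lit 0xee9cd94))) (u (nat_lit 7) (k (nat_lit 0x99b28)))))) (u (nat_lit 4) (t (nat_lit 5) (nat_lit 8) (nat_lit 9) (k (nat_lit 0x13aca78)))))))))) (a (a (t (nat_lit 4) (nat_lit 7) (nat_lit 9) (a (a (u (nat_lit 7) (v (nat_lit 7) (k (nat_lit 0x69f189c)))) (u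 (nat_lit 6) (v (nat_lit 6) (k (nat_lit 0x1434360))))) (a (u (nat_lit 5) (u (nat_lit 5) (k (nat_lit 0x13aca78)))) (u (nat_lit 4) (a (u (nat_lit 8) (k (nat_lit 0x9915c))) (u (nat_lit 7) (k (nat_lit 0x29a0b16)))))))) (u (nat_lit 3) (a (u (nat_lit 9) (v (nat_lit 9) (k (nat_lit 0x132a2c)))) (a (u (nat_lit 5) (u (nat_lit 8) (k (nat_lit 0xe11b5b2)))) (u (nat_lit 4) (u (nat_lit 7) (k (nat_lit 0xe11b5b2)))))))) (a (u (nat_lit 2) (a (a (a (u (nat_lit 8) (v (nat_lit 8) (k (nat_lit 0x273552c)))) (u (nat_lit 7) (a (u (nat_lit 8) (k (nat_lit 0x6693aec))) (v (nat_lit 7) (k (nat_lit 0x273552c)))))) (a (v (nat_lit 5) (v (nat_lit 5) (k (nat_lit 0x2d8f8e0)))) (a (u (nat_lit 5) (a (v (nat_lit 9) (k (nat_lit 0x90b69a6))) (u (nat_lit 7) (k (nat_lit 0x54fb172))))) (t (nat_lit 5) (nat_lit 8) (nat_lit 9) (a (u (nat_lit 9) (k (nat_lit 0x9915c))) (u (nat_lit 8)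 (k (nat_lit 0x29a0b16)))))))) (a (a (v (nat_lit 4) (v (nat_lit 4) (k (nat_lit 0x2d8f8e0)))) (u (nat_lit 4) (a (v (nat_lit 9) (k (nat_lit 0x90b69a6))) (u (nat_lit 8) (k (nat_lit 0x54fb172)))))) (a (t (nat_lit 4) (nat_lit 7) (nat_lit 9) (a (u (nat_lit 9) (k (nat_lit 0x9915c))) (u (nat_lit 7) (k (nat_lit 0x29a0b16))))) (a (v (nat_lit 2) (a (v (nat_lit 9) (k (nat_lit 0x132120))) (a (u (nat_lit 6) (k (nat_lit 0x150e8854))) (v (nat_lit 2) (k (nat_lit 0x3469c50)))))) (u (nat_lit 2) (v (nat_lit 6) (k (nat_lit 0x135660))))))))) (a (t (nat_lit 2) (nat_lit 4) (nat_lit 5) (a (u (nat_lit 2) (a (v (nat_lit 5) (k (nat_lit 0x99438))) (a (v (nat_lit 4) (k (nat_lit 0x99438))) (u (nat_lit 2) (k (nat_lit 0xa564074)))))) (t (nat_lit 2) (nat_lit 4) (nat_lit 5) (u (nat_lit 2) (k (nat_lit 0x1320cc)))))) (t (nat_lit 2) (nat_lit 7) (nat_lit 8) (a (v (nat_lit 4)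 (u (nat_lit 5) (k (nat_lit 0x2a413dc)))) (u (nat_lit 4) (v (nat_lit 5) (k (nat_lit 0x2a413dc))))))))))) (v (nat_lit 1) (a (a (a (a (v (nat_lit 7) (a (v (nat_lit 8) (u (nat_lit 9) (k (nat_lit 0x95cfa)))) (a (u (nat_lit 8) (v (nat_lit 9) (k (nat_lit 0x137d9c)))) (v (nat_lit 7) (u (nat_lit 9) (k (nat_lit 0x998e8))))))) (u (nat_lit 7) (a (v (nat_lit 9) (v (nat_lit 9) (k (nat_lit 0x998e8)))) (v (nat_lit 8) (v (nat_lit 9) (k (nat_lit 0x95cfa))))))) (a (v (nat_lit 6) (a (u (nat_lit 8) (v (nat_lit 8) (k (nat_lit 0x12f4d4)))) (v (nat_lit 6) (a (u (nat_lit 9) (k (nat_lit 0x98f46))) (a (u (nat_lit 8) (k (nat_lit 0x12d740))) (u (nat_lit 7) (k (nat_lit 0x98f46)))))))) (u (nat_lit 6) (a (a (v (nat_lit 9) (v (nat_lit 9) (k (nat_lit 0x98d0c)))) (v (nat_lit 8) (a (v (nat_lit 9) (k (nat_lit 0x98d90))) (v (nat_lit 8) (k (nat_lit 0x13518c)))))) (a (v (nat_lit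 7) (a (v (nat_lit 9) (k (nat_lit 0x131a00))) (a (v (nat_lit 8) (k (nat_lit 0x98d90))) (v (nat_lit 7) (k (nat_lit 0x98d0c)))))) (v (nat_lit 6) (a (a (v (nat_lit 9) (k (nat_lit 0x99036))) (v (nat_lit 8) (k (nat_lit 0x1350a8)))) (a (v (nat_lit 7) (k (nat_lit 0x99036))) (v (nat_lit 6) (k (nat_lit 0x131e5c))))))))))) (a (a (v (nat_lit 5) (a (a (u (nat_lit 9) (v (nat_lit 9) (k (nat_lit 0x98e26)))) (u (nat_lit 8) (v (nat_lit 9) (k (nat_lit 0x97b72))))) (a (v (nat_lit 7) (u (nat_lit 9) (k (nat_lit 0x99450)))) (a (u (nat_lit 7) (a (v (nat_lit 8) (k (nat_lit 0x98d06))) (v (nat_lit 7) (k (nat_lit 0x98e98))))) (u (nat_lit 6) (a (a (v (nat_lit 9) (k (nat_lit 0x98e38))) (v (nat_lit 8) (k (nat_lit 0x99fc6)))) (a (v (nat_lit 7) (k (nat_lit 0x98e08))) (v (nat_lit 6) (k (nat_lit 0x97c20)))))))))) (u (nat_lit 5) (a (v (nat_lit 7) (v (nat_lit 9) (k (nat_lit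 0x98cbe)))) (a (v (nat_lit 6) (v (nat_lit 6) (k (nat_lit 0x9a0c8)))) (v (nat_lit 5) (a (a (v (nat_lit 9) (k (nat_lit 0x98e74))) (v (nat_lit 8) (k (nat_lit 0x98e92)))) (a (v (nat_lit 7) (k (nat_lit 0x98f2e))) (a (v (nat_lit 6) (k (nat_lit 0x992f4))) (v (nat_lit 5) (k (nat_lit 0x98dd8))))))))))) (a (t (nat_lit 5) (nat_lit 8) (nat_lit 9) (a (u (nat_lit 7) (a (u (nat_lit 8) (k (nat_lit 0xab25d4))) (u (nat_lit 7) (k (nat_lit 0x300c3e4))))) (a (u (nat_lit 6) (a (u (nat_lit 7) (k (nat_lit 0x207c5c4))) (u (nat_lit 6) (k (nat_lit 0x2682cc))))) (u (nat_lit 5) (u (nat_lit 5) (k (nat_lit 0xb27e6ec))))))) (v (nat_lit 4) (a (a (a (u (nat_lit 9) (v (nat_lit 9) (k (nat_lit 0x98d12)))) (v (nat_lit 8) (u (nat_lit 9) (k (nat_lit 0x97a5e))))) (a (u (nat_lit 8) (a (v (nat_lit 9) (k (nat_lit 0x968c4))) (v (nat_lit 8) (k (nat_lit 0x1340dc))))) (v (nat_lit 7)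 (a (u (nat_lit 9) (k (nat_lit 0x9bb86))) (u (nat_lit 8) (k (nat_lit 0x968c4))))))) (a (a (u (nat_lit 7) (a (v (nat_lit 9) (k (nat_lit 0x9bb86))) (a (v (nat_lit 8) (k (nat_lit 0x97a5e))) (v (nat_lit 7) (k (nat_lit 0x98d12)))))) (u (nat_lit 6) (a (a (v (nat_lit 9) (k (nat_lit 0x98dd8))) (v (nat_lit 8) (k (nat_lit 0x12c39c)))) (a (v (nat_lit 7) (k (nat_lit 0x98dd8))) (v (nat_lit 6) (k (nat_lit 0x1316f4))))))) (a (u (nat_lit 5) (a (a (v (nat_lit 9) (k (nat_lit 0x96150))) (v (nat_lit 8) (k (nat_lit 0x9880e)))) (a (v (nat_lit 7) (k (nat_lit 0x9aa0a))) (a (v (nat_lit 6) (k (nat_lit 0x9a02c))) (v (nat_lit 5) (k (nat_lit 0x92c16))))))) (a (t (nat_lit 5) (nat_lit 8) (nat_lit 9) (u (nat_lit 7) (k (nat_lit 0xf2cf38e)))) (v (nat_lit 4) (u (nat_lit 5) (k (nat_lit 0x96e40)))))))))))) (a (a (a (u (nat_lit 4) (a (a (v (nat_lit 9) (v (nat_lit 9) (k (nat_lit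 0x337670a)))) (a (v (nat_lit 8) (v (nat_lit 8) (k (nat_lit 0x12ff24)))) (v (nat_lit 7) (a (v (nat_lit 9) (k (nat_lit 0x12b7b4))) (v (nat_lit 7) (k (nat_lit 0x337670a))))))) (a (v (nat_lit 6) (v (nat_lit 6) (k (nat_lit 0x1320fc)))) (a (v (nat_lit 5) (a (a (v (nat_lit 9) (k (nat_lit 0x9b892))) (v (nat_lit 8) (k (nat_lit 0x99396)))) (a (v (nat_lit 7) (k (nat_lit 0x975a2))) (a (v (nat_lit 6) (k (nat_lit 0x9939c))) (v (nat_lit 5) (k (nat_lit 0x9f28e))))))) (v (nat_lit 4) (a (a (v (nat_lit 9) (k (nat_lit 0x96ff0))) (a (v (nat_lit 8) (k (nat_lit 0x131d00))) (v (nat_lit 7) (k (nat_lit 0x96ff0))))) (a (v (nat_lit 6) (k (nat_lit 0x132720))) (a (v (nat_lit 5) (k (nat_lit 0x9ad28))) (v (nat_lit 4) (k (nat_lit 0x131c40))))))))))) (v (nat_lit 3) (a (a (u (nat_lit 5) (a (u (nat_lit 7) (k (nat_lit 0x1326cc))) (v (nat_lit 5) (k (nat_lit 0x13a3dc))))) (u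 (nat_lit 4) (v (nat_lit 6) (k (nat_lit 0x9a164))))) (a (t (nat_lit 4) (nat_lit 7) (nat_lit 9) (a (u (nat_lit 9) (k (nat_lit 0xa78cb0c))) (a (u (nat_lit 7) (k (nat_lit 0x9bf88))) (u (nat_lit 5) (k (nat_lit 0x158858a)))))) (v (nat_lit 3) (u (nat_lit 4) (k (nat_lit 0x9929a)))))))) (a (u (nat_lit 3) (a (a (a (v (nat_lit 8) (a (v (nat_lit 9) (k (nat_lit 0x98e6e))) (v (nat_lit 8) (k (nat_lit 0x98df0))))) (v (nat_lit 7) (a (v (nat_lit 8) (k (nat_lit 0x98f40))) (v (nat_lit 7) (k (nat_lit 0x98ce8)))))) (a (v (nat_lit 6) (a (a (u (nat_lit 9) (k (nat_lit 0x9d728))) (v (nat_lit 8) (k (nat_lit 0x997f8)))) (a (v (nat_lit 7) (k (nat_lit 0x99156))) (a (u (nat_lit 7) (k (nat_lit 0x3b033ca))) (v (nat_lit 6) (k (nat_lit 0x99d38))))))) (v (nat_lit 5) (a (a (v (nat_lit 9) (k (nat_lit 0x98e26))) (v (nat_lit 7) (k (nat_lit 0x99516)))) (a (v (nat_lit 6) (k (nat_lit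 0x99372))) (v (nat_lit 5) (k (nat_lit 0x9490e)))))))) (a (a (t (nat_lit 5) (nat_lit 8) (nat_lit 9) (a (v (nat_lit 9) (k (nat_lit 0x994a4))) (a (u (nat_lit 7) (k (nat_lit 0x270d332))) (u (nat_lit 6) (k (nat_lit 0x39038fa)))))) (v (nat_lit 4) (a (a (v (nat_lit 9) (k (nat_lit 0x98d3c))) (a (v (nat_lit 8) (k (nat_lit 0x98d90))) (v (nat_lit 7) (k (nat_lit 0x98d30))))) (a (v (nat_lit 6) (k (nat_lit 0x9adfa))) (a (v (nat_lit 5) (k (nat_lit 0x98cca))) (v (nat_lit 4) (k (nat_lit 0x98c70)))))))) (a (v (nat_lit 3) (a (a (v (nat_lit 9) (k (nat_lit 0x9a452))) (a (v (nat_lit 8) (k (nat_lit 0x9df08))) (v (nat_lit 7) (k (nat_lit 0x99444))))) (a (a (v (nat_lit 6) (k (nat_lit 0x9a308))) (v (nat_lit 5) (k (nat_lit 0x94f0e)))) (a (v (nat_lit 4) (k (nat_lit 0x9e148))) (v (nat_lit 3) (k (nat_lit 0x98b5c))))))) (u (nat_lit 3) (a (a (v (nat_lit 8) (k (nat_lit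 0x9c0f6))) (v (nat_lit 6) (k (nat_lit 0xa851c)))) (a (t (nat_lit 5) (nat_lit 8) (nat_lit 9) (k (nat_lit 0x6045156))) (v (nat_lit 4) (k (nat_lit 0x9b95e)))))))))) (v (nat_lit 2) (a (a (a (u (nat_lit 9) (v (nat_lit 9) (k (nat_lit 0x98e98)))) (v (nat_lit 8) (u (nat_lit 9) (k (nat_lit 0x98d06))))) (a (v (nat_lit 7) (u (nat_lit 8) (k (nat_lit 0x97b72)))) (a (u (nat_lit 7) (a (v (nat_lit 9) (k (nat_lit 0x99450))) (v (nat_lit 7) (k (nat_lit 0x98e26))))) (u (nat_lit 6) (a (a (v (nat_lit 9) (k (nat_lit 0x98e08))) (v (nat_lit 8) (k (nat_lit 0x99fc6)))) (a (v (nat_lit 7) (k (nat_lit 0x98e38))) (v (nat_lit 6) (k (nat_lit 0x97c20))))))))) (a (a (u (nat_lit 5) (a (v (nat_lit 8) (k (nat_lit 0x9794a))) (a (v (nat_lit 7) (k (nat_lit 0x951b4))) (v (nat_lit 6) (k (nat_lit 0x991f8)))))) (v (nat_lit 4) (u (nat_lit 5) (k (nat_lit 0x9c05a))))) (a (u (nat_lit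 4) (a (a (v (nat_lit 9) (k (nat_lit 0x975a2))) (a (v (nat_lit 8) (k (nat_lit 0x99396))) (v (nat_lit 7) (k (nat_lit 0x9b892))))) (a (v (nat_lit 6) (k (nat_lit 0x9939c))) (a (v (nat_lit 5) (k (nat_lit 0x12b76c))) (v (nat_lit 4) (k (nat_lit 0x9ad28))))))) (a (u (nat_lit 3) (a (v (nat_lit 6) (k (nat_lit 0x981ba))) (a (v (nat_lit 4) (k (nat_lit 0x98c8e))) (v (nat_lit 3) (k (nat_lit 0x98fe2)))))) (v (nat_lit 2) (a (u (nat_lit 5) (k (nat_lit 0x991da))) (u (nat_lit 4) (k (nat_lit 0x9f28e)))))))))))) (a (a (u (nat_lit 2) (a (a (a (v (nat_lit 7) (v (nat_lit 9) (k (nat_lit 0x98cbe)))) (v (nat_lit 6) (v (nat_lit 6) (k (nat_lit 0x9a0c8))))) (a (v (nat_lit 5) (a (a (v (nat_lit 9) (k (nat_lit 0x951b4))) (v (nat_lit 8) (k (nat_lit 0x9794a)))) (a (v (nat_lit 6) (k (nat_lit 0x991f8))) (v (nat_lit 5) (k (nat_lit 0x991da)))))) (t (nat_lit 5) (nat_lit 8) (nat_lit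 9) (t (nat_lit 5) (nat_lit 8) (nat_lit 9) (k (nat_lit 0x5417cf4)))))) (a (a (v (nat_lit 4) (a (a (v (nat_lit 9) (k (nat_lit 0x9aa0a))) (a (v (nat_lit 8) (k (nat_lit 0x9880e))) (v (nat_lit 7) (k (nat_lit 0x96150))))) (a (v (nat_lit 6) (k (nat_lit 0x9a02c))) (a (v (nat_lit 5) (k (nat_lit 0x9c05a))) (v (nat_lit 4) (k (nat_lit 0x96e40))))))) (v (nat_lit 3) (v (nat_lit 6) (k (nat_lit 0x9a164))))) (a (u (nat_lit 3) (t (nat_lit 5) (nat_lit 8) (nat_lit 9) (k (nat_lit 0x6a6e54c)))) (v (nat_lit 2) (a (a (v (nat_lit 9) (k (nat_lit 0x98f2e))) (a (v (nat_lit 8) (k (nat_lit 0x98e92))) (v (nat_lit 7) (k (nat_lit 0x98e74))))) (a (v (nat_lit 6) (k (nat_lit 0x992f4))) (a (v (nat_lit 4) (k (nat_lit 0x92c16))) (v (nat_lit 2) (k (nat_lit 0x98dd8))))))))))) (t (nat_lit 2) (nat_lit 4) (nat_lit 5) (a (t (nat_lit 5) (nat_lit 8) (nat_lit 9) (u (nat_lit 7) (k (nat_lit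 0x11a4626)))) (v (nat_lit 3) (u (nat_lit 5) (k (nat_lit 0x131fd0))))))) (a (t (nat_lit 2) (nat_lit 7) (nat_lit 8) (a (a (a (u (nat_lit 9) (u (nat_lit 9) (k (nat_lit 0x300c3e4)))) (u (nat_lit 8) (u (nat_lit 9) (k (nat_lit 0xab25d4))))) (a (u (nat_lit 6) (a (u (nat_lit 9) (k (nat_lit 0x207c5c4))) (u (nat_lit 6) (k (nat_lit 0x2682cc))))) (v (nat_lit 4) (u (nat_lit 9) (k (nat_lit 0xf2cf38e)))))) (a (a (v (nat_lit 3) (a (u (nat_lit 8) (k (nat_lit 0xa78cb0c))) (a (u (nat_lit 7) (k (nat_lit 0x9bf88))) (u (nat_lit 5) (k (nat_lit 0x158858a)))))) (u (nat_lit 2) (u (nat_lit 2) (k (nat_lit 0xb27e6ec))))) (a (t (nat_lit 2) (nat_lit 4) (nat_lit 5) (u (nat_lit 9) (k (nat_lit 0x11a4626)))) (t (nat_lit 2) (nat_lit 7) (nat_lit 8) (u (nat_lit 5) (k (nat_lit 0x5417cf4)))))))) (v (nat_lit 1) (a (a (a (u (nat_lit 8) (v (nat_lit 8) (k (nat_lit 0x132a50)))) (t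 (nat_lit 5) (nat_lit 8) (nat_lit 9) (u (nat_lit 8) (k (nat_lit 0x9a7a0))))) (a (u (nat_lit 3) (a (a (v (nat_lit 9) (k (nat_lit 0x97104))) (a (v (nat_lit 8) (k (nat_lit 0x979d4))) (v (nat_lit 7) (k (nat_lit 0x989c4))))) (a (a (v (nat_lit 6) (k (nat_lit 0x99162))) (v (nat_lit 5) (k (nat_lit 0x9cac8)))) (a (v (nat_lit 4) (k (nat_lit 0x989ca))) (v (nat_lit 3) (k (nat_lit 0x98ce8))))))) (v (nat_lit 2) (u (nat_lit 3) (k (nat_lit 0x96150)))))) (a (a (u (nat_lit 2) (a (u (nat_lit 5) (k (nat_lit 0x133698))) (v (nat_lit 3) (k (nat_lit 0x9929a))))) (t (nat_lit 2) (nat_lit 4) (nat_lit 5) (a (u (nat_lit 5) (k (nat_lit 0x99402))) (a (u (nat_lit 4) (k (nat_lit 0x133f38))) (u (nat_lit 2) (k (nat_lit 0x99402))))))) (a (t (nat_lit 2) (nat_lit 7) (nat_lit 8) (u (nat_lit 8) (k (nat_lit 0x9a7a0)))) (v (nat_lit 1) (a (a (u (nat_lit 5) (k (nat_lit 0x98e44)))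 (u (nat_lit 4) (k (nat_lit 0x131e98)))) (a (u (nat_lit 3) (k (nat_lit 0x98e8c))) (u (nat_lit 2) (k (nat_lit 0x98e44))))))))))))))))) (a (u (nat_lit 1) (a (a (a (a (v (nat_lit 9) (v (nat_lit 9) (v (nat_lit 9) (k (nat_lit 0x98b8c))))) (v (nat_lit 8) (a (v (nat_lit 9) (v (nat_lit 9) (k (nat_lit 0x98c94)))) (v (nat_lit 8) (a (v (nat_lit 9) (k (nat_lit 0x98c88))) (v (nat_lit 8) (k (nat_lit 0x131934)))))))) (a (v (nat_lit 7) (a (v (nat_lit 8) (v (nat_lit 8) (k (nat_lit 0x98c88)))) (v (nat_lit 7) (a (v (nat_lit 8) (k (nat_lit 0x98c94))) (v (nat_lit 7) (k (nat_lit 0x98b8c))))))) (u (nat_lit 6) (v (nat_lit 6) (u (nat_lit 8) (k (nat_lit 0x133d4c))))))) (a (a (v (nat_lit 5) (a (v (nat_lit 8) (a (v (nat_lit 9) (k (nat_lit 0x9a092))) (v (nat_lit 8) (k (nat_lit 0x98c6a))))) (v (nat_lit 6) (u (nat_lit 8) (k (nat_lit 0x96b8e)))))) (u (nat_lit 5) (v (nat_lit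 6) (v (nat_lit 8) (k (nat_lit 0x9c1b0)))))) (a (t (nat_lit 5) (nat_lit 8) (nat_lit 9) (u (nat_lit 5) (a (u (nat_lit 9) (k (nat_lit 0x17289e4))) (u (nat_lit 8) (k (nat_lit 0xe45ecda)))))) (u (nat_lit 4) (a (a (v (nat_lit 8) (a (v (nat_lit 9) (k (nat_lit 0x9572a))) (v (nat_lit 8) (k (nat_lit 0x131f94))))) (v (nat_lit 7) (v (nat_lit 8) (k (nat_lit 0x9572a))))) (a (u (nat_lit 6) (v (nat_lit 8) (k (nat_lit 0x136ecc)))) (v (nat_lit 4) (a (u (nat_lit 9) (k (nat_lit 0x9a77c))) (u (nat_lit 7) (k (nat_lit 0x9a77c))))))))))) (a (a (a (t (nat_lit 4) (nat_lit 7) (nat_lit 9) (a (u (nat_lit 8) (v (nat_lit 8) (k (nat_lit 0x132a2c)))) (u (nat_lit 5) (u (nat_lit 9) (k (nat_lit 0xe11b5b2)))))) (v (nat_lit 3) (a (a (a (v (nat_lit 9) (v (nat_lit 9) (k (nat_lit 0x98df0)))) (v (nat_lit 8) (v (nat_lit 9) (k (nat_lit 0x98e6e))))) (a (v (nat_lit 7) (a (v (nat_lit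 9) (k (nat_lit 0x98f40))) (v (nat_lit 7) (k (nat_lit 0x98ce8))))) (v (nat_lit 6) (a (a (v (nat_lit 9) (k (nat_lit 0x997f8))) (u (nat_lit 8) (k (nat_lit 0x9d728)))) (a (v (nat_lit 7) (k (nat_lit 0x99156))) (a (u (nat_lit 7) (k (nat_lit 0x3b033ca))) (v (nat_lit 6) (k (nat_lit 0x99d38))))))))) (a (a (v (nat_lit 5) (a (a (v (nat_lit 8) (k (nat_lit 0x98e26))) (v (nat_lit 7) (k (nat_lit 0x99516)))) (a (v (nat_lit 6) (k (nat_lit 0x99372))) (v (nat_lit 5) (k (nat_lit 0x9490e)))))) (t (nat_lit 5) (nat_lit 8) (nat_lit 9) (a (v (nat_lit 8) (k (nat_lit 0x994a4))) (a (u (nat_lit 7) (k (nat_lit 0x270d332))) (u (nat_lit 6) (k (nat_lit 0x39038fa))))))) (a (v (nat_lit 4) (v (nat_lit 6) (k (nat_lit 0x981ba)))) (a (u (nat_lit 4) (t (nat_lit 5) (nat_lit 8) (nat_lit 9) (k (nat_lit 0x6a6e54c)))) (v (nat_lit 3) (a (a (v (nat_lit 9) (k (nat_lit 0x979d4))) (a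 (v (nat_lit 8) (k (nat_lit 0x97104))) (v (nat_lit 7) (k (nat_lit 0x989c4))))) (a (a (v (nat_lit 6) (k (nat_lit 0x99162))) (v (nat_lit 5) (k (nat_lit 0x9cac8)))) (a (v (nat_lit 4) (k (nat_lit 0x96150))) (v (nat_lit 3) (k (nat_lit 0x98e8c))))))))))))) (a (u (nat_lit 3) (v (nat_lit 3) (v (nat_lit 6) (k (nat_lit 0x43a1c12))))) (v (nat_lit 2) (a (a (v (nat_lit 8) (v (nat_lit 8) (k (nat_lit 0x98c6a)))) (a (v (nat_lit 7) (v (nat_lit 8) (k (nat_lit 0x9a092)))) (v (nat_lit 6) (u (nat_lit 8) (k (nat_lit 0x96b8e)))))) (a (u (nat_lit 5) (a (v (nat_lit 9) (k (nat_lit 0x97b48))) (a (v (nat_lit 7) (k (nat_lit 0x95fee))) (v (nat_lit 5) (k (nat_lit 0x96eee)))))) (a (v (nat_lit 3) (a (a (v (nat_lit 9) (k (nat_lit 0x98d90))) (a (v (nat_lit 8) (k (nat_lit 0x98d3c))) (v (nat_lit 7) (k (nat_lit 0x98d30))))) (a (a (v (nat_lit 6) (k (nat_lit 0x9adfa))) (v (nat_lit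 5) (k (nat_lit 0x98cca)))) (a (v (nat_lit 4) (k (nat_lit 0x98c8e))) (v (nat_lit 3) (k (nat_lit 0x989ca))))))) (v (nat_lit 2) (a (u (nat_lit 5) (k (nat_lit 0x9aa88))) (v (nat_lit 3) (k (nat_lit 0x98c70))))))))))) (a (a (u (nat_lit 2) (a (a (v (nat_lit 6) (v (nat_lit 8) (k (nat_lit 0x9c1b0)))) (v (nat_lit 5) (a (v (nat_lit 9) (k (nat_lit 0x95fee))) (a (v (nat_lit 7) (k (nat_lit 0x97b48))) (v (nat_lit 5) (k (nat_lit 0x9aa88))))))) (a (t (nat_lit 4) (nat_lit 7) (nat_lit 9) (u (nat_lit 7) (k (nat_lit 0xe11b5b2)))) (v (nat_lit 2) (v (nat_lit 5) (k (nat_lit 0x96eee))))))) (t (nat_lit 2) (nat_lit 7) (nat_lit 8) (u (nat_lit 2) (a (u (nat_lit 8) (k (nat_lit 0xe45ecda))) (u (nat_lit 7) (k (nat_lit 0x17289e4))))))) (a (v (nat_lit 1) (a (a (a (a (v (nat_lit 9) (v (nat_lit 9) (k (nat_lit 0x98d78)))) (v (nat_lit 8) (a (v (nat_lit 9) (k (nat_lit 0x9834c)))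 (v (nat_lit 8) (k (nat_lit 0x131028)))))) (a (u (nat_lit 8) (u (nat_lit 9) (k (nat_lit 0x99654)))) (v (nat_lit 7) (a (v (nat_lit 9) (k (nat_lit 0x131a18))) (a (v (nat_lit 8) (k (nat_lit 0x9834c))) (v (nat_lit 7) (k (nat_lit 0x98d78)))))))) (a (a (u (nat_lit 7) (u (nat_lit 8) (k (nat_lit 0x99654)))) (v (nat_lit 6) (a (a (v (nat_lit 9) (k (nat_lit 0x99714))) (v (nat_lit 8) (k (nat_lit 0x132804)))) (a (u (nat_lit 8) (k (nat_lit 0x133554))) (a (v (nat_lit 7) (k (nat_lit 0x99714))) (v (nat_lit 6) (k (nat_lit 0x132504)))))))) (a (v (nat_lit 5) (a (a (v (nat_lit 9) (k (nat_lit 0x98e8c))) (a (v (nat_lit 8) (k (nat_lit 0x98e80))) (v (nat_lit 7) (k (nat_lit 0x96e2e))))) (a (u (nat_lit 7) (k (nat_lit 0x98406))) (a (v (nat_lit 6) (k (nat_lit 0x992e8))) (v (nat_lit 5) (k (nat_lit 0x98d06))))))) (u (nat_lit 5) (v (nat_lit 7) (k (nat_lit 0x9756c)))))))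 (a (a (a (t (nat_lit 5) (nat_lit 8) (nat_lit 9) (t (nat_lit 5) (nat_lit 8) (nat_lit 9) (k (nat_lit 0x9a938)))) (v (nat_lit 4) (a (a (v (nat_lit 9) (k (nat_lit 0x98d30))) (a (v (nat_lit 8) (k (nat_lit 0x131b68))) (v (nat_lit 7) (k (nat_lit 0x98d30))))) (a (v (nat_lit 6) (k (nat_lit 0x16e138))) (a (v (nat_lit 5) (k (nat_lit 0x98d36))) (v (nat_lit 4) (k (nat_lit 0x1319a0)))))))) (a (v (nat_lit 3) (a (a (v (nat_lit 9) (k (nat_lit 0x9df08))) (a (v (nat_lit 8) (k (nat_lit 0x9a452))) (v (nat_lit 7) (k (nat_lit 0x99444))))) (a (a (v (nat_lit 6) (k (nat_lit 0x9a308))) (v (nat_lit 5) (k (nat_lit 0x94f0e)))) (a (v (nat_lit 4) (k (nat_lit 0x98fe2))) (v (nat_lit 3) (k (nat_lit 0x98ce8))))))) (u (nat_lit 3) (v (nat_lit 6) (k (nat_lit 0x43a1c12)))))) (a (a (v (nat_lit 2) (a (a (a (v (nat_lit 9) (k (nat_lit 0x96e2e))) (u (nat_lit 9) (k (nat_lit 0x98406))))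 (a (v (nat_lit 8) (k (nat_lit 0x98e80))) (v (nat_lit 7) (k (nat_lit 0x98e8c))))) (a (a (v (nat_lit 6) (k (nat_lit 0x992e8))) (v (nat_lit 5) (k (nat_lit 0x133644)))) (a (v (nat_lit 4) (k (nat_lit 0x98d36))) (a (v (nat_lit 3) (k (nat_lit 0x9e148))) (v (nat_lit 2) (k (nat_lit 0x98d06)))))))) (u (nat_lit 2) (v (nat_lit 9) (k (nat_lit 0x9756c))))) (a (t (nat_lit 2) (nat_lit 7) (nat_lit 8) (t (nat_lit 2) (nat_lit 7) (nat_lit 8) (k (nat_lit 0x9a938)))) (v (nat_lit 1) (a (a (v (nat_lit 9) (k (nat_lit 0x98fa0))) (a (v (nat_lit 8) (k (nat_lit 0x131c4c))) (v (nat_lit 7) (k (nat_lit 0x98fa0))))) (a (v (nat_lit 6) (k (nat_lit 0x13695c))) (a (v (nat_lit 3) (k (nat_lit 0x98b5c))) (v (nat_lit 1) (k (nat_lit 0x131a00)))))))))))) (u (nat_lit 1) (a (v (nat_lit 3) (a (v (nat_lit 9) (k (nat_lit 0x9c0f6))) (a (v (nat_lit 6) (k (nat_lit 0xa851c))) (t (nat_lit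 5) (nat_lit 8) (nat_lit 9) (k (nat_lit 0x6045156)))))) (v (nat_lit 2) (v (nat_lit 3) (k (nat_lit 0x9b95e))))))))))) (a (v (nat_lit 0) (a (a (a (a (v (nat_lit 8) (v (nat_lit 8) (u (nat_lit 9) (k (nat_lit 0x998e8))))) (u (nat_lit 8) (v (nat_lit 9) (v (nat_lit 9) (k (nat_lit 0x998e8)))))) (a (v (nat_lit 7) (a (v (nat_lit 8) (u (nat_lit 9) (k (nat_lit 0x95cfa)))) (u (nat_lit 8) (v (nat_lit 9) (k (nat_lit 0x95cfa)))))) (a (u (nat_lit 7) (v (nat_lit 8) (v (nat_lit 9) (k (nat_lit 0x137d9c))))) (v (nat_lit 6) (a (u (nat_lit 7) (v (nat_lit 7) (k (nat_lit 0x12f4d4)))) (v (nat_lit 6) (a (u (nat_lit 9) (k (nat_lit 0x98f46))) (a (u (nat_lit 8) (k (nat_lit 0x98f46))) (u (nat_lit 7) (k (nat_lit 0x12d740))))))))))) (a (a (u (nat_lit 6) (a (a (v (nat_lit 9) (v (nat_lit 9) (k (nat_lit 0x98d0c)))) (v (nat_lit 8) (a (v (nat_lit 9) (k (nat_lit 0x131a00)))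 (v (nat_lit 8) (k (nat_lit 0x98d0c)))))) (a (v (nat_lit 7) (a (v (nat_lit 9) (k (nat_lit 0x98d90))) (a (v (nat_lit 8) (k (nat_lit 0x98d90))) (v (nat_lit 7) (k (nat_lit 0x13518c)))))) (v (nat_lit 6) (a (a (v (nat_lit 9) (k (nat_lit 0x99036))) (v (nat_lit 8) (k (nat_lit 0x99036)))) (a (v (nat_lit 7) (k (nat_lit 0x1350a8))) (v (nat_lit 6) (k (nat_lit 0x131e5c))))))))) (v (nat_lit 5) (a (a (u (nat_lit 9) (v (nat_lit 9) (k (nat_lit 0x98d12)))) (a (v (nat_lit 8) (u (nat_lit 9) (k (nat_lit 0x9bb86)))) (u (nat_lit 8) (a (v (nat_lit 9) (k (nat_lit 0x9bb86))) (v (nat_lit 8) (k (nat_lit 0x98d12))))))) (a (v (nat_lit 7) (a (u (nat_lit 9) (k (nat_lit 0x97a5e))) (u (nat_lit 8) (k (nat_lit 0x97a5e))))) (a (u (nat_lit 7) (a (v (nat_lit 9) (k (nat_lit 0x968c4))) (a (v (nat_lit 8) (k (nat_lit 0x968c4))) (v (nat_lit 7) (k (nat_lit 0x1340dc)))))) (u (nat_lit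 6) (a (a (v (nat_lit 9) (k (nat_lit 0x98dd8))) (v (nat_lit 8) (k (nat_lit 0x98dd8)))) (a (v (nat_lit 7) (k (nat_lit 0x12c39c))) (v (nat_lit 6) (k (nat_lit 0x1316f4))))))))))) (a (u (nat_lit 5) (a (a (v (nat_lit 9) (v (nat_lit 9) (k (nat_lit 0x337670a)))) (v (nat_lit 8) (a (v (nat_lit 9) (k (nat_lit 0x12b7b4))) (v (nat_lit 8) (k (nat_lit 0x337670a)))))) (a (v (nat_lit 7) (v (nat_lit 7) (k (nat_lit 0x12ff24)))) (a (v (nat_lit 6) (v (nat_lit 6) (k (nat_lit 0x1320fc)))) (v (nat_lit 5) (a (a (v (nat_lit 9) (k (nat_lit 0x96ff0))) (v (nat_lit 8) (k (nat_lit 0x96ff0)))) (a (v (nat_lit 7) (k (nat_lit 0x131d00))) (a (v (nat_lit 6) (k (nat_lit 0x132720))) (v (nat_lit 5) (k (nat_lit 0x131c40))))))))))) (a (v (nat_lit 4) (a (a (a (u (nat_lit 9) (v (nat_lit 9) (k (nat_lit 0x98e26)))) (v (nat_lit 8) (u (nat_lit 9) (k (nat_lit 0x99450))))) (a (u (nat_lit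 8) (v (nat_lit 8) (k (nat_lit 0x98e98)))) (v (nat_lit 7) (u (nat_lit 8) (k (nat_lit 0x98d06)))))) (a (a (u (nat_lit 7) (v (nat_lit 9) (k (nat_lit 0x97b72)))) (u (nat_lit 6) (a (a (v (nat_lit 9) (k (nat_lit 0x98e38))) (v (nat_lit 8) (k (nat_lit 0x98e08)))) (a (v (nat_lit 7) (k (nat_lit 0x99fc6))) (v (nat_lit 6) (k (nat_lit 0x97c20))))))) (a (u (nat_lit 5) (a (a (v (nat_lit 9) (k (nat_lit 0x9b892))) (v (nat_lit 8) (k (nat_lit 0x975a2)))) (a (v (nat_lit 7) (k (nat_lit 0x99396))) (a (v (nat_lit 6) (k (nat_lit 0x9939c))) (v (nat_lit 5) (k (nat_lit 0x9ad28))))))) (v (nat_lit 4) (u (nat_lit 5) (k (nat_lit 0x9f28e)))))))) (u (nat_lit 4) (a (a (v (nat_lit 8) (v (nat_lit 9) (k (nat_lit 0x98cbe)))) (v (nat_lit 6) (v (nat_lit 6) (k (nat_lit 0x9a0c8))))) (a (v (nat_lit 5) (a (a (v (nat_lit 9) (k (nat_lit 0x96150))) (v (nat_lit 8) (k (nat_lit 0x9aa0a))))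 (a (v (nat_lit 7) (k (nat_lit 0x9880e))) (a (v (nat_lit 6) (k (nat_lit 0x9a02c))) (v (nat_lit 5) (k (nat_lit 0x96e40))))))) (v (nat_lit 4) (a (a (v (nat_lit 9) (k (nat_lit 0x98e74))) (a (v (nat_lit 8) (k (nat_lit 0x98f2e))) (v (nat_lit 7) (k (nat_lit 0x98e92))))) (a (v (nat_lit 6) (k (nat_lit 0x992f4))) (a (v (nat_lit 5) (k (nat_lit 0x92c16))) (v (nat_lit 4) (k (nat_lit 0x98dd8)))))))))))))) (a (a (a (t (nat_lit 4) (nat_lit 7) (nat_lit 9) (a (a (u (nat_lit 8) (u (nat_lit 8) (k (nat_lit 0x300c3e4)))) (u (nat_lit 7) (u (nat_lit 8) (k (nat_lit 0xab25d4))))) (a (u (nat_lit 6) (a (u (nat_lit 8) (k (nat_lit 0x207c5c4))) (u (nat_lit 6) (k (nat_lit 0x2682cc))))) (a (v (nat_lit 5) (u (nat_lit 8) (k (nat_lit 0xf2cf38e)))) (u (nat_lit 4) (u (nat_lit 4) (k (nat_lit 0xb27e6ec)))))))) (v (nat_lit 3) (a (a (u (nat_lit 5) (v (nat_lit 6) (k (nat_lit 0x9a164))))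 (t (nat_lit 5) (nat_lit 8) (nat_lit 9) (a (u (nat_lit 9) (k (nat_lit 0xa78cb0c))) (u (nat_lit 8) (k (nat_lit 0x9bf88)))))) (a (u (nat_lit 4) (a (u (nat_lit 8) (k (nat_lit 0x1326cc))) (a (t (nat_lit 5) (nat_lit 8) (nat_lit 9) (k (nat_lit 0x158858a))) (v (nat_lit 4) (k (nat_lit 0x13a3dc)))))) (v (nat_lit 3) (u (nat_lit 5) (k (nat_lit 0x9929a)))))))) (a (u (nat_lit 3) (a (a (a (v (nat_lit 8) (v (nat_lit 8) (k (nat_lit 0x98ce8)))) (v (nat_lit 7) (a (v (nat_lit 9) (k (nat_lit 0x98e6e))) (a (v (nat_lit 8) (k (nat_lit 0x98f40))) (v (nat_lit 7) (k (nat_lit 0x98df0))))))) (a (v (nat_lit 6) (a (a (u (nat_lit 9) (k (nat_lit 0x9d728))) (v (nat_lit 8) (k (nat_lit 0x99156)))) (a (u (nat_lit 8) (k (nat_lit 0x3b033ca))) (a (v (nat_lit 7) (k (nat_lit 0x997f8))) (v (nat_lit 6) (k (nat_lit 0x99d38))))))) (v (nat_lit 5) (a (a (v (nat_lit 9) (k (nat_lit 0x98d3c)))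 (v (nat_lit 8) (k (nat_lit 0x98d30)))) (a (v (nat_lit 7) (k (nat_lit 0x98d90))) (a (v (nat_lit 6) (k (nat_lit 0x9adfa))) (v (nat_lit 5) (k (nat_lit 0x98c70))))))))) (a (a (v (nat_lit 4) (a (a (v (nat_lit 9) (k (nat_lit 0x98e26))) (v (nat_lit 8) (k (nat_lit 0x99516)))) (a (v (nat_lit 6) (k (nat_lit 0x99372))) (a (v (nat_lit 5) (k (nat_lit 0x98cca))) (v (nat_lit 4) (k (nat_lit 0x9490e))))))) (t (nat_lit 4) (nat_lit 7) (nat_lit 9) (a (v (nat_lit 9) (k (nat_lit 0x994a4))) (a (u (nat_lit 8) (k (nat_lit 0x270d332))) (u (nat_lit 6) (k (nat_lit 0x39038fa))))))) (a (v (nat_lit 3) (a (a (v (nat_lit 9) (k (nat_lit 0x9a452))) (a (v (nat_lit 8) (k (nat_lit 0x99444))) (v (nat_lit 7) (k (nat_lit 0x9df08))))) (a (a (v (nat_lit 6) (k (nat_lit 0x9a308))) (v (nat_lit 5) (k (nat_lit 0x9e148)))) (a (v (nat_lit 4) (k (nat_lit 0x94f0e))) (v (nat_lit 3) (k (nat_lit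 0x98b5c))))))) (u (nat_lit 3) (a (a (v (nat_lit 7) (k (nat_lit 0x9c0f6))) (v (nat_lit 6) (k (nat_lit 0xa851c)))) (a (v (nat_lit 5) (k (nat_lit 0x9b95e))) (t (nat_lit 4) (nat_lit 7) (nat_lit 9) (k (nat_lit 0x6045156)))))))))) (a (v (nat_lit 2) (a (a (a (u (nat_lit 9) (v (nat_lit 9) (k (nat_lit 0x98e98)))) (u (nat_lit 8) (a (v (nat_lit 9) (k (nat_lit 0x99450))) (v (nat_lit 8) (k (nat_lit 0x98e26)))))) (a (v (nat_lit 7) (u (nat_lit 9) (k (nat_lit 0x98d06)))) (a (u (nat_lit 7) (v (nat_lit 8) (k (nat_lit 0x97b72)))) (u (nat_lit 6) (a (a (v (nat_lit 9) (k (nat_lit 0x98e08))) (v (nat_lit 8) (k (nat_lit 0x98e38)))) (a (v (nat_lit 7) (k (nat_lit 0x99fc6))) (v (nat_lit 6) (k (nat_lit 0x97c20))))))))) (a (a (u (nat_lit 5) (a (a (v (nat_lit 9) (k (nat_lit 0x975a2))) (v (nat_lit 8) (k (nat_lit 0x9b892)))) (a (v (nat_lit 7) (k (nat_lit 0x99396))) (a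 (v (nat_lit 6) (k (nat_lit 0x9939c))) (v (nat_lit 5) (k (nat_lit 0x9ad28))))))) (v (nat_lit 4) (u (nat_lit 5) (k (nat_lit 0x12b76c))))) (a (u (nat_lit 4) (a (a (v (nat_lit 8) (k (nat_lit 0x951b4))) (v (nat_lit 7) (k (nat_lit 0x9794a)))) (a (v (nat_lit 6) (k (nat_lit 0x991f8))) (v (nat_lit 5) (k (nat_lit 0x9c05a)))))) (a (u (nat_lit 3) (a (v (nat_lit 6) (k (nat_lit 0x981ba))) (a (v (nat_lit 5) (k (nat_lit 0x98c8e))) (v (nat_lit 3) (k (nat_lit 0x98fe2)))))) (v (nat_lit 2) (a (u (nat_lit 5) (k (nat_lit 0x9f28e))) (u (nat_lit 4) (k (nat_lit 0x991da)))))))))) (u (nat_lit 2) (a (a (a (v (nat_lit 8) (v (nat_lit 9) (k (nat_lit 0x98cbe)))) (v (nat_lit 6) (v (nat_lit 6) (k (nat_lit 0x9a0c8))))) (a (v (nat_lit 5) (a (a (v (nat_lit 9) (k (nat_lit 0x9aa0a))) (v (nat_lit 8) (k (nat_lit 0x96150)))) (a (v (nat_lit 7) (k (nat_lit 0x9880e))) (a (v (nat_lit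 6) (k (nat_lit 0x9a02c))) (v (nat_lit 5) (k (nat_lit 0x96e40))))))) (v (nat_lit 4) (a (a (v (nat_lit 9) (k (nat_lit 0x951b4))) (v (nat_lit 7) (k (nat_lit 0x9794a)))) (a (v (nat_lit 6) (k (nat_lit 0x991f8))) (a (v (nat_lit 5) (k (nat_lit 0x9c05a))) (v (nat_lit 4) (k (nat_lit 0x991da))))))))) (a (a (t (nat_lit 4) (nat_lit 7) (nat_lit 9) (t (nat_lit 4) (nat_lit 7) (nat_lit 9) (k (nat_lit 0x5417cf4)))) (v (nat_lit 3) (v (nat_lit 6) (k (nat_lit 0x9a164))))) (a (u (nat_lit 3) (t (nat_lit 4) (nat_lit 7) (nat_lit 9) (k (nat_lit 0x6a6e54c)))) (v (nat_lit 2) (a (a (v (nat_lit 9) (k (nat_lit 0x98f2e))) (a (v (nat_lit 8) (k (nat_lit 0x98e74))) (v (nat_lit 7) (k (nat_lit 0x98e92))))) (a (v (nat_lit 6) (k (nat_lit 0x992f4))) (a (v (nat_lit 5) (k (nat_lit 0x92c16))) (v (nat_lit 2) (k (nat_lit 0x98dd8)))))))))))))) (a (a (t (nat_lit 2) (nat_lit 4) (nat_lit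 5) (a (t (nat_lit 4) (nat_lit 7) (nat_lit 9) (u (nat_lit 8) (k (nat_lit 0x11a4626)))) (v (nat_lit 3) (u (nat_lit 4) (k (nat_lit 0x131fd0)))))) (t (nat_lit 2) (nat_lit 7) (nat_lit 8) (a (a (a (u (nat_lit 9) (u (nat_lit 9) (k (nat_lit 0x300c3e4)))) (u (nat_lit 7) (u (nat_lit 9) (k (nat_lit 0xab25d4))))) (a (u (nat_lit 6) (a (u (nat_lit 9) (k (nat_lit 0x207c5c4))) (u (nat_lit 6) (k (nat_lit 0x2682cc))))) (v (nat_lit 5) (u (nat_lit 9) (k (nat_lit 0xf2cf38e)))))) (a (a (v (nat_lit 3) (a (u (nat_lit 8) (k (nat_lit 0x9bf88))) (a (u (nat_lit 7) (k (nat_lit 0xa78cb0c))) (u (nat_lit 4) (k (nat_lit 0x158858a)))))) (u (nat_lit 2) (u (nat_lit 2) (k (nat_lit 0xb27e6ec))))) (a (t (nat_lit 2) (nat_lit 4) (nat_lit 5) (u (nat_lit 9) (k (nat_lit 0x11a4626)))) (t (nat_lit 2) (nat_lit 7) (nat_lit 8) (u (nat_lit 4) (k (nat_lit 0x5417cf4))))))))) (a (v (nat_lit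 1) (a (a (a (u (nat_lit 5) (v (nat_lit 6) (k (nat_lit 0x9a164)))) (t (nat_lit 5) (nat_lit 8) (nat_lit 9) (a (u (nat_lit 9) (k (nat_lit 0x9bf88))) (u (nat_lit 8) (k (nat_lit 0xa78cb0c)))))) (a (u (nat_lit 4) (v (nat_lit 6) (k (nat_lit 0x9a164)))) (t (nat_lit 4) (nat_lit 7) (nat_lit 9) (a (u (nat_lit 9) (k (nat_lit 0x9bf88))) (u (nat_lit 7) (k (nat_lit 0xa78cb0c))))))) (a (a (u (nat_lit 3) (a (a (v (nat_lit 8) (k (nat_lit 0x98e68))) (v (nat_lit 7) (k (nat_lit 0x98e68)))) (a (v (nat_lit 6) (k (nat_lit 0x1322a0))) (v (nat_lit 3) (k (nat_lit 0x131b20)))))) (v (nat_lit 2) (u (nat_lit 3) (k (nat_lit 0x1319d0))))) (a (u (nat_lit 2) (a (a (u (nat_lit 9) (k (nat_lit 0x1326cc))) (t (nat_lit 5) (nat_lit 8) (nat_lit 9) (k (nat_lit 0x158858a)))) (a (t (nat_lit 4) (nat_lit 7) (nat_lit 9) (k (nat_lit 0x158858a))) (v (nat_lit 2) (k (nat_lit 0x13a3dc))))))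 (a (t (nat_lit 2) (nat_lit 4) (nat_lit 5) (u (nat_lit 2) (k (nat_lit 0x131fd0)))) (v (nat_lit 1) (a (u (nat_lit 5) (k (nat_lit 0x9929a))) (u (nat_lit 3) (k (nat_lit 0x98c70)))))))))) (a (u (nat_lit 1) (a (a (a (v (nat_lit 9) (v (nat_lit 9) (k (nat_lit 0x98ce8)))) (v (nat_lit 7) (a (v (nat_lit 9) (k (nat_lit 0x98f40))) (a (v (nat_lit 8) (k (nat_lit 0x98e6e))) (v (nat_lit 7) (k (nat_lit 0x98df0))))))) (a (v (nat_lit 6) (a (a (v (nat_lit 9) (k (nat_lit 0x99156))) (u (nat_lit 9) (k (nat_lit 0x3b033ca)))) (a (u (nat_lit 8) (k (nat_lit 0x9d728))) (a (v (nat_lit 7) (k (nat_lit 0x997f8))) (v (nat_lit 6) (k (nat_lit 0x99d38))))))) (a (v (nat_lit 5) (a (a (v (nat_lit 9) (k (nat_lit 0x98d30))) (v (nat_lit 8) (k (nat_lit 0x98d3c)))) (a (v (nat_lit 7) (k (nat_lit 0x98d90))) (a (v (nat_lit 6) (k (nat_lit 0x9adfa))) (v (nat_lit 5) (k (nat_lit 0x98c70)))))))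 (v (nat_lit 4) (a (v (nat_lit 6) (k (nat_lit 0x981ba))) (v (nat_lit 5) (k (nat_lit 0x98c8e)))))))) (a (a (v (nat_lit 3) (a (a (v (nat_lit 9) (k (nat_lit 0x98e68))) (v (nat_lit 7) (k (nat_lit 0x98e68)))) (a (v (nat_lit 6) (k (nat_lit 0x1322a0))) (a (v (nat_lit 4) (k (nat_lit 0x1319d0))) (v (nat_lit 3) (k (nat_lit 0x98c70))))))) (a (u (nat_lit 3) (v (nat_lit 6) (k (nat_lit 0x11600d0)))) (v (nat_lit 2) (a (a (v (nat_lit 9) (k (nat_lit 0x99516))) (v (nat_lit 8) (k (nat_lit 0x98e26)))) (a (v (nat_lit 6) (k (nat_lit 0x99372))) (a (v (nat_lit 5) (k (nat_lit 0x98cca))) (v (nat_lit 2) (k (nat_lit 0x9490e))))))))) (a (t (nat_lit 2) (nat_lit 7) (nat_lit 8) (a (a (u (nat_lit 9) (k (nat_lit 0x270d332))) (v (nat_lit 8) (k (nat_lit 0x994a4)))) (a (u (nat_lit 6) (k (nat_lit 0x39038fa))) (u (nat_lit 4) (k (nat_lit 0x6a6e54c)))))) (a (v (nat_lit 1) (a (a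 (a (v (nat_lit 9) (k (nat_lit 0x99444))) (v (nat_lit 8) (k (nat_lit 0x9a452)))) (a (v (nat_lit 7) (k (nat_lit 0x9df08))) (v (nat_lit 6) (k (nat_lit 0x9a308))))) (a (a (v (nat_lit 5) (k (nat_lit 0x9e148))) (v (nat_lit 4) (k (nat_lit 0x98fe2)))) (a (v (nat_lit 3) (k (nat_lit 0x131b20))) (a (v (nat_lit 2) (k (nat_lit 0x94f0e))) (v (nat_lit 1) (k (nat_lit 0x98b5c)))))))) (u (nat_lit 1) (a (a (v (nat_lit 7) (k (nat_lit 0x9c0f6))) (v (nat_lit 6) (k (nat_lit 0xa851c)))) (a (v (nat_lit 5) (k (nat_lit 0x9b95e))) (t (nat_lit 2) (nat_lit 7) (nat_lit 8) (k (nat_lit 0x6045156))))))))))) (v (nat_lit 0) (a (a (a (u (nat_lit 7) (v (nat_lit 7) (k (nat_lit 0x132a50)))) (t (nat_lit 4) (nat_lit 7) (nat_lit 9) (u (nat_lit 7) (k (nat_lit 0x9a7a0))))) (a (u (nat_lit 3) (a (a (v (nat_lit 9) (k (nat_lit 0x97104))) (a (v (nat_lit 8) (k (nat_lit 0x989c4))) (v (nat_lit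 7) (k (nat_lit 0x979d4))))) (a (a (v (nat_lit 6) (k (nat_lit 0x99162))) (v (nat_lit 5) (k (nat_lit 0x989ca)))) (a (v (nat_lit 4) (k (nat_lit 0x9cac8))) (v (nat_lit 3) (k (nat_lit 0x98ce8))))))) (a (v (nat_lit 2) (u (nat_lit 3) (k (nat_lit 0x96150)))) (u (nat_lit 2) (a (u (nat_lit 4) (k (nat_lit 0x133698))) (v (nat_lit 3) (k (nat_lit 0x9929a)))))))) (a (a (t (nat_lit 2) (nat_lit 4) (nat_lit 5) (a (u (nat_lit 5) (k (nat_lit 0x133f38))) (a (u (nat_lit 4) (k (nat_lit 0x99402))) (u (nat_lit 2) (k (nat_lit 0x99402)))))) (t (nat_lit 2) (nat_lit 7) (nat_lit 8) (u (nat_lit 7) (k (nat_lit 0x9a7a0))))) (a (v (nat_lit 1) (a (u (nat_lit 4) (k (nat_lit 0x9929a))) (u (nat_lit 3) (k (nat_lit 0x98c70))))) (a (u (nat_lit 1) (a (a (a (v (nat_lit 9) (k (nat_lit 0x989c4))) (v (nat_lit 8) (k (nat_lit 0x97104)))) (a (v (nat_lit 7) (k (nat_lit 0x979d4))) (v (nat_lit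 6) (k (nat_lit 0x99162))))) (a (a (v (nat_lit 5) (k (nat_lit 0x989ca))) (v (nat_lit 4) (k (nat_lit 0x96150)))) (a (v (nat_lit 3) (k (nat_lit 0x98c70))) (a (v (nat_lit 2) (k (nat_lit 0x9cac8))) (v (nat_lit 1) (k (nat_lit 0x98ce8)))))))) (v (nat_lit 0) (a (a (u (nat_lit 5) (k (nat_lit 0x131e98))) (u (nat_lit 4) (k (nat_lit 0x98e44)))) (a (u (nat_lit 3) (k (nat_lit 0x98e8c))) (a (u (nat_lit 2) (k (nat_lit 0x98e44))) (u (nat_lit 1) (k (nat_lit 0x98e8c)))))))))))))))))) (u (nat_lit 0) (a (a (a (a (v (nat_lit 9) (v (nat_lit 9) (v (nat_lit 9) (k (nat_lit 0x98b8c))))) (v (nat_lit 8) (v (nat_lit 8) (v (nat_lit 8) (k (nat_lit 0x98b8c)))))) (a (v (nat_lit 7) (a (v (nat_lit 9) (v (nat_lit 9) (k (nat_lit 0x98c94)))) (a (v (nat_lit 8) (v (nat_lit 8) (k (nat_lit 0x98c94)))) (v (nat_lit 7) (a (v (nat_lit 9) (k (nat_lit 0x98c88))) (a (v (nat_lit 8) (k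 (nat_lit 0x98c88))) (v (nat_lit 7) (k (nat_lit 0x131934))))))))) (u (nat_lit 6) (v (nat_lit 6) (u (nat_lit 7) (k (nat_lit 0x133d4c))))))) (a (a (u (nat_lit 5) (a (v (nat_lit 7) (a (v (nat_lit 9) (k (nat_lit 0x9572a))) (a (v (nat_lit 8) (k (nat_lit 0x9572a))) (v (nat_lit 7) (k (nat_lit 0x131f94)))))) (a (u (nat_lit 6) (v (nat_lit 7) (k (nat_lit 0x136ecc)))) (v (nat_lit 5) (a (u (nat_lit 9) (k (nat_lit 0x9a77c))) (u (nat_lit 8) (k (nat_lit 0x9a77c)))))))) (t (nat_lit 5) (nat_lit 8) (nat_lit 9) (u (nat_lit 7) (v (nat_lit 7) (k (nat_lit 0x132a2c)))))) (a (v (nat_lit 4) (a (v (nat_lit 7) (a (v (nat_lit 9) (k (nat_lit 0x9a092))) (v (nat_lit 7) (k (nat_lit 0x98c6a))))) (v (nat_lit 6) (u (nat_lit 7) (k (nat_lit 0x96b8e)))))) (a (u (nat_lit 4) (a (v (nat_lit 6) (v (nat_lit 7) (k (nat_lit 0x9c1b0)))) (t (nat_lit 5) (nat_lit 8) (nat_lit 9) (u (nat_lit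 9) (k (nat_lit 0xe11b5b2)))))) (t (nat_lit 4) (nat_lit 7) (nat_lit 9) (u (nat_lit 4) (a (u (nat_lit 9) (k (nat_lit 0x17289e4))) (u (nat_lit 7) (k (nat_lit 0xe45ecda)))))))))) (a (a (a (v (nat_lit 3) (a (a (a (v (nat_lit 9) (v (nat_lit 9) (k (nat_lit 0x98df0)))) (v (nat_lit 8) (a (v (nat_lit 9) (k (nat_lit 0x98f40))) (v (nat_lit 8) (k (nat_lit 0x98ce8)))))) (a (v (nat_lit 7) (v (nat_lit 9) (k (nat_lit 0x98e6e)))) (v (nat_lit 6) (a (a (v (nat_lit 9) (k (nat_lit 0x997f8))) (v (nat_lit 8) (k (nat_lit 0x99156)))) (a (u (nat_lit 8) (k (nat_lit 0x3b033ca))) (a (u (nat_lit 7) (k (nat_lit 0x9d728))) (v (nat_lit 6) (k (nat_lit 0x99d38))))))))) (a (a (v (nat_lit 5) (v (nat_lit 6) (k (nat_lit 0x981ba)))) (v (nat_lit 4) (a (a (v (nat_lit 8) (k (nat_lit 0x99516))) (v (nat_lit 7) (k (nat_lit 0x98e26)))) (a (v (nat_lit 6) (k (nat_lit 0x99372))) (v (nat_lit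 4) (k (nat_lit 0x9490e))))))) (a (t (nat_lit 4) (nat_lit 7) (nat_lit 9) (a (a (u (nat_lit 8) (k (nat_lit 0x270d332))) (v (nat_lit 7) (k (nat_lit 0x994a4)))) (a (u (nat_lit 6) (k (nat_lit 0x39038fa))) (u (nat_lit 5) (k (nat_lit 0x6a6e54c)))))) (v (nat_lit 3) (a (a (v (nat_lit 9) (k (nat_lit 0x979d4))) (a (v (nat_lit 8) (k (nat_lit 0x989c4))) (v (nat_lit 7) (k (nat_lit 0x97104))))) (a (a (v (nat_lit 6) (k (nat_lit 0x99162))) (v (nat_lit 5) (k (nat_lit 0x96150)))) (a (v (nat_lit 4) (k (nat_lit 0x9cac8))) (v (nat_lit 3) (k (nat_lit 0x98e8c))))))))))) (u (nat_lit 3) (v (nat_lit 3) (v (nat_lit 6) (k (nat_lit 0x43a1c12)))))) (a (v (nat_lit 2) (a (a (v (nat_lit 7) (a (v (nat_lit 8) (k (nat_lit 0x9a092))) (v (nat_lit 7) (k (nat_lit 0x98c6a))))) (v (nat_lit 6) (u (nat_lit 7) (k (nat_lit 0x96b8e))))) (a (u (nat_lit 4) (a (v (nat_lit 9) (k (nat_lit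 0x97b48))) (a (v (nat_lit 8) (k (nat_lit 0x95fee))) (v (nat_lit 4) (k (nat_lit 0x96eee)))))) (a (v (nat_lit 3) (a (a (v (nat_lit 9) (k (nat_lit 0x98d90))) (a (v (nat_lit 8) (k (nat_lit 0x98d30))) (v (nat_lit 7) (k (nat_lit 0x98d3c))))) (a (a (v (nat_lit 6) (k (nat_lit 0x9adfa))) (v (nat_lit 5) (k (nat_lit 0x98c8e)))) (a (v (nat_lit 4) (k (nat_lit 0x98cca))) (v (nat_lit 3) (k (nat_lit 0x989ca))))))) (v (nat_lit 2) (a (u (nat_lit 4) (k (nat_lit 0x9aa88))) (v (nat_lit 3) (k (nat_lit 0x98c70))))))))) (u (nat_lit 2) (a (a (v (nat_lit 6) (v (nat_lit 7) (k (nat_lit 0x9c1b0)))) (t (nat_lit 5) (nat_lit 8) (nat_lit 9) (u (nat_lit 8) (k (nat_lit 0xe11b5b2))))) (a (v (nat_lit 4) (a (v (nat_lit 9) (k (nat_lit 0x95fee))) (a (v (nat_lit 8) (k (nat_lit 0x97b48))) (v (nat_lit 4) (k (nat_lit 0x9aa88)))))) (v (nat_lit 2) (v (nat_lit 4) (k (nat_lit 0x96eee)))))))))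 (a (a (t (nat_lit 2) (nat_lit 7) (nat_lit 8) (u (nat_lit 2) (a (u (nat_lit 8) (k (nat_lit 0x17289e4))) (u (nat_lit 7) (k (nat_lit 0xe45ecda)))))) (v (nat_lit 1) (a (a (a (v (nat_lit 9) (v (nat_lit 9) (k (nat_lit 0x98ce8)))) (v (nat_lit 8) (a (v (nat_lit 9) (k (nat_lit 0x98f40))) (v (nat_lit 8) (k (nat_lit 0x98df0)))))) (a (v (nat_lit 7) (v (nat_lit 8) (k (nat_lit 0x98e6e)))) (a (v (nat_lit 6) (a (a (v (nat_lit 9) (k (nat_lit 0x99156))) (u (nat_lit 9) (k (nat_lit 0x3b033ca)))) (a (v (nat_lit 8) (k (nat_lit 0x997f8))) (a (u (nat_lit 7) (k (nat_lit 0x9d728))) (v (nat_lit 6) (k (nat_lit 0x99d38))))))) (v (nat_lit 5) (v (nat_lit 6) (k (nat_lit 0x981ba))))))) (a (a (v (nat_lit 4) (a (a (v (nat_lit 9) (k (nat_lit 0x98d30))) (a (v (nat_lit 8) (k (nat_lit 0x98d90))) (v (nat_lit 7) (k (nat_lit 0x98d3c))))) (a (v (nat_lit 6) (k (nat_lit 0x9adfa)))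 (a (v (nat_lit 5) (k (nat_lit 0x98c8e))) (v (nat_lit 4) (k (nat_lit 0x98c70))))))) (a (v (nat_lit 3) (a (a (v (nat_lit 9) (k (nat_lit 0x98e68))) (v (nat_lit 8) (k (nat_lit 0x98e68)))) (a (v (nat_lit 6) (k (nat_lit 0x1322a0))) (a (v (nat_lit 5) (k (nat_lit 0x1319d0))) (v (nat_lit 3) (k (nat_lit 0x98c70))))))) (u (nat_lit 3) (v (nat_lit 6) (k (nat_lit 0x11600d0)))))) (a (v (nat_lit 2) (a (a (v (nat_lit 9) (k (nat_lit 0x99516))) (v (nat_lit 7) (k (nat_lit 0x98e26)))) (a (v (nat_lit 6) (k (nat_lit 0x99372))) (a (v (nat_lit 4) (k (nat_lit 0x98cca))) (v (nat_lit 2) (k (nat_lit 0x9490e))))))) (a (t (nat_lit 2) (nat_lit 7) (nat_lit 8) (a (a (u (nat_lit 9) (k (nat_lit 0x270d332))) (v (nat_lit 7) (k (nat_lit 0x994a4)))) (a (u (nat_lit 6) (k (nat_lit 0x39038fa))) (u (nat_lit 5) (k (nat_lit 0x6a6e54c)))))) (v (nat_lit 1) (a (a (a (v (nat_lit 9) (k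 (nat_lit 0x989c4))) (v (nat_lit 8) (k (nat_lit 0x979d4)))) (a (v (nat_lit 7) (k (nat_lit 0x97104))) (v (nat_lit 6) (k (nat_lit 0x99162))))) (a (a (v (nat_lit 5) (k (nat_lit 0x96150))) (v (nat_lit 4) (k (nat_lit 0x989ca)))) (a (v (nat_lit 3) (k (nat_lit 0x98c70))) (a (v (nat_lit 2) (k (nat_lit 0x9cac8))) (v (nat_lit 1) (k (nat_lit 0x98e8c)))))))))))))) (a (u (nat_lit 1) (a (v (nat_lit 3) (v (nat_lit 6) (k (nat_lit 0x11600d0)))) (v (nat_lit 1) (v (nat_lit 6) (k (nat_lit 0x43a1c12)))))) (a (v (nat_lit 0) (a (a (a (a (v (nat_lit 9) (v (nat_lit 9) (k (nat_lit 0x98d78)))) (v (nat_lit 8) (a (v (nat_lit 9) (k (nat_lit 0x131a18))) (v (nat_lit 8) (k (nat_lit 0x98d78)))))) (a (v (nat_lit 7) (a (v (nat_lit 9) (k (nat_lit 0x9834c))) (a (v (nat_lit 8) (k (nat_lit 0x9834c))) (v (nat_lit 7) (k (nat_lit 0x131028)))))) (u (nat_lit 7) (a (u (nat_lit 9) (k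 (nat_lit 0x99654))) (u (nat_lit 8) (k (nat_lit 0x99654))))))) (a (a (v (nat_lit 6) (a (a (v (nat_lit 9) (k (nat_lit 0x99714))) (v (nat_lit 8) (k (nat_lit 0x99714)))) (a (v (nat_lit 7) (k (nat_lit 0x132804))) (a (u (nat_lit 7) (k (nat_lit 0x133554))) (v (nat_lit 6) (k (nat_lit 0x132504))))))) (v (nat_lit 5) (a (a (v (nat_lit 9) (k (nat_lit 0x98d30))) (v (nat_lit 8) (k (nat_lit 0x98d30)))) (a (v (nat_lit 7) (k (nat_lit 0x131b68))) (a (v (nat_lit 6) (k (nat_lit 0x16e138))) (v (nat_lit 5) (k (nat_lit 0x1319a0)))))))) (a (v (nat_lit 4) (a (a (v (nat_lit 9) (k (nat_lit 0x98e8c))) (a (v (nat_lit 8) (k (nat_lit 0x96e2e))) (u (nat_lit 8) (k (nat_lit 0x98406))))) (a (a (v (nat_lit 7) (k (nat_lit 0x98e80))) (v (nat_lit 6) (k (nat_lit 0x992e8)))) (a (v (nat_lit 5) (k (nat_lit 0x98d36))) (v (nat_lit 4) (k (nat_lit 0x98d06))))))) (u (nat_lit 4) (v (nat_lit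 8) (k (nat_lit 0x9756c))))))) (a (a (a (t (nat_lit 4) (nat_lit 7) (nat_lit 9) (t (nat_lit 4) (nat_lit 7) (nat_lit 9) (k (nat_lit 0x9a938)))) (v (nat_lit 3) (a (a (v (nat_lit 9) (k (nat_lit 0x9df08))) (a (v (nat_lit 8) (k (nat_lit 0x99444))) (v (nat_lit 7) (k (nat_lit 0x9a452))))) (a (a (v (nat_lit 6) (k (nat_lit 0x9a308))) (v (nat_lit 5) (k (nat_lit 0x98fe2)))) (a (v (nat_lit 4) (k (nat_lit 0x94f0e))) (v (nat_lit 3) (k (nat_lit 0x98ce8)))))))) (a (u (nat_lit 3) (v (nat_lit 6) (k (nat_lit 0x43a1c12)))) (v (nat_lit 2) (a (a (a (v (nat_lit 9) (k (nat_lit 0x96e2e))) (u (nat_lit 9) (k (nat_lit 0x98406)))) (a (v (nat_lit 8) (k (nat_lit 0x98e8c))) (v (nat_lit 7) (k (nat_lit 0x98e80))))) (a (a (v (nat_lit 6) (k (nat_lit 0x992e8))) (v (nat_lit 5) (k (nat_lit 0x98d36)))) (a (v (nat_lit 4) (k (nat_lit 0x133644))) (a (v (nat_lit 3) (k (nat_lit 0x9e148)))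 (v (nat_lit 2) (k (nat_lit 0x98d06)))))))))) (a (a (u (nat_lit 2) (v (nat_lit 9) (k (nat_lit 0x9756c)))) (t (nat_lit 2) (nat_lit 7) (nat_lit 8) (t (nat_lit 2) (nat_lit 7) (nat_lit 8) (k (nat_lit 0x9a938))))) (a (v (nat_lit 1) (a (a (a (v (nat_lit 9) (k (nat_lit 0x99444))) (v (nat_lit 8) (k (nat_lit 0x9df08)))) (a (v (nat_lit 7) (k (nat_lit 0x9a452))) (v (nat_lit 6) (k (nat_lit 0x9a308))))) (a (a (v (nat_lit 5) (k (nat_lit 0x98fe2))) (v (nat_lit 4) (k (nat_lit 0x9e148)))) (a (v (nat_lit 3) (k (nat_lit 0x131b20))) (a (v (nat_lit 2) (k (nat_lit 0x94f0e))) (v (nat_lit 1) (k (nat_lit 0x98ce8)))))))) (a (u (nat_lit 1) (v (nat_lit 6) (k (nat_lit 0x43a1c12)))) (v (nat_lit 0) (a (a (v (nat_lit 9) (k (nat_lit 0x98fa0))) (a (v (nat_lit 8) (k (nat_lit 0x98fa0))) (v (nat_lit 7) (k (nat_lit 0x131c4c))))) (a (a (v (nat_lit 6) (k (nat_lit 0x13695c)))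 (v (nat_lit 3) (k (nat_lit 0x98b5c)))) (a (v (nat_lit 1) (k (nat_lit 0x98b5c))) (v (nat_lit 0) (k (nat_lit 0x131a00))))))))))))) (u (nat_lit 0) (a (v (nat_lit 3) (a (v (nat_lit 9) (k (nat_lit 0x9c0f6))) (a (v (nat_lit 6) (k (nat_lit 0xa851c))) (t (nat_lit 4) (nat_lit 7) (nat_lit 9) (k (nat_lit 0x6045156)))))) (a (v (nat_lit 2) (v (nat_lit 3) (k (nat_lit 0x9b95e)))) (v (nat_lit 1) (a (a (v (nat_lit 8) (k (nat_lit 0x9c0f6))) (v (nat_lit 6) (k (nat_lit 0xa851c)))) (a (v (nat_lit 4) (k (nat_lit 0x9b95e))) (t (nat_lit 2) (nat_lit 7) (nat_lit 8) (k (nat_lit 0x6045156))))))))))))))))))))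

open Fl.Tr in
/-- the table -/
noncomputable def T : Fl.Tr := (c (c (c (c (c (c (c (c (c (c (m (nat_lit 0xd13968c8)) (c (p (nat_lit 0xad06c31c)) (c (m (nat_lit 0x3d80af20)) (c (p (nat_lit 0xa352e8c)) (c (m (nat_lit 0x6b231e8)) e))))) (c (c (p (nat_lit 0xad06c31c)) (c (p (nat_lit 0x817d04c)) (c (m (nat_lit 0xc750114)) (c (m (nat_lit 0x6a8a530)) e)))) (c (c (m (nat_lit 0x3d80af20)) (c (m (nat_lit 0xc750114)) (c (m (nat_lit 0x131928)) e))) (c (c (p (nat_lit 0xa352e8c)) (c (m (nat_lit 0x6a8a530)) e)) (c (c (m (nat_lit 0x6b231e8)) e) e))))) (c (c (c (p (nat_lit 0xad06c31c)) (c (p (nat_lit 0x817d04c)) (c (m (nat_lit 0xc750114)) (c (m (nat_lit 0x6a8a530)) e)))) (c (c (p (nat_lit 0x817d04c)) (c (p (nat_lit 0x47a7f38)) (c (m (nat_lit 0x6b231ac)) e))) (c (c (m (nat_lit 0xc750114)) (c (m (nat_lit 0x6b231ac)) e)) (c (c (m (nat_lit 0x6a8a530)) e)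 e)))) (c (c (c (m (nat_lit 0x3d80af20)) (c (m (nat_lit 0xc750114)) (c (m (nat_lit 0x131928)) e))) (c (c (m (nat_lit 0xc750114)) (c (m (nat_lit 0x6b231ac)) e)) (c (c (m (nat_lit 0x131928)) e) e))) (c (c (c (p (nat_lit 0xa352e8c)) (c (m (nat_lit 0x6a8a530)) e)) (c (c (m (nat_lit 0x6a8a530)) e) e)) (c (c (c (m (nat_lit 0x6b231e8)) e) e) e))))) (c (c (c (c (p (nat_lit 0x43c2b34)) (c (m (nat_lit 0x4f98978)) (c (p (nat_lit 0x17c9e14)) (c (m (nat_lit 0x132120)) e)))) (c (c (m (nat_lit 0x4f98978)) (c (p (nat_lit 0x3f008b8)) (c (m (nat_lit 0x131e98)) e))) (c (c (p (nat_lit 0x17c9e14)) (c (m (nat_lit 0x131e98)) e)) (c (c (m (nat_lit 0x132120)) e) e)))) (c (c (c (m (nat_lit 0x4f98978)) (c (p (nat_lit 0x3f008b8)) (c (m (nat_lit 0x131e98)) e))) (c (c (p (nat_lit 0x3f008b8)) (c (m (nat_lit 0x394b30)) e)) (c (c (m (nat_lit 0x131e98)) e) e))) (c (c (c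 (p (nat_lit 0x17c9e14)) (c (m (nat_lit 0x131e98)) e)) (c (c (m (nat_lit 0x131e98)) e) e)) (c (c (c (m (nat_lit 0x132120)) e) e) e)))) (c (c (c (c (m (nat_lit 0x2607b4c0)) (c (p (nat_lit 0x592fb90)) (c (m (nat_lit 0x1698abc)) e))) (c (c (p (nat_lit 0x592fb90)) (c (m (nat_lit 0x3f00abc)) e)) (c (c (m (nat_lit 0x1698abc)) e) e))) (c (c (c (p (nat_lit 0x592fb90)) (c (m (nat_lit 0x3f00abc)) e)) (c (c (m (nat_lit 0x3f00abc)) e) e)) (c (c (c (m (nat_lit 0x1698abc)) e) e) e))) (c (c (c (c (p (nat_lit 0x11e710c)) (c (m (nat_lit 0x264378)) e)) (c (c (m (nat_lit 0x264378)) e) e)) (c (c (c (m (nat_lit 0x264378)) e) e) e)) (c (c (c (c (m (nat_lit 0xabc450)) e) e) e) e))))) (c (c (c (c (c (p (nat_lit 0x4210b300)) (c (m (nat_lit 0x3691c440)) (c (p (nat_lit 0x1df66004)) (c (m (nat_lit 0x1a4d9c8)) e)))) (c (c (m (nat_lit 0x3691c440)) (c (p (nat_lit 0x75c1260))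 (c (p (nat_lit 0xae369e4)) e))) (c (c (p (nat_lit 0x1df66004)) (c (p (nat_lit 0xae369e4)) e)) (c (c (m (nat_lit 0x1a4d9c8)) e) e)))) (c (c (c (p (nat_lit 0x4b043800)) (c (m (nat_lit 0x1ccd568c)) (c (p (nat_lit 0x82707a8)) e))) (c (c (m (nat_lit 0x1ccd568c)) (c (p (nat_lit 0x5212ae8)) e)) (c (c (p (nat_lit 0x82707a8)) e) e))) (c (c (c (m (nat_lit 0x1f0d2de8)) (c (m (nat_lit 0x982b0)) e)) (c (c (m (nat_lit 0x982b0)) e) e)) (c (c (c (m (nat_lit 0x262bd8)) e) e) e)))) (c (c (c (c (p (nat_lit 0x129b8560)) (c (m (nat_lit 0x13deda84)) (c (m (nat_lit 0x131dc0)) e))) (c (c (m (nat_lit 0x13deda84)) (c (m (nat_lit 0x1320a8)) e)) (c (c (m (nat_lit 0x131dc0)) e) e))) (c (c (c (p (nat_lit 0x2acebb0)) (c (m (nat_lit 0x98bf8)) e)) (c (c (m (nat_lit 0x98bf8)) e) e)) (c (c (c (m (nat_lit 0x131988)) e) e) e))) (c (c (c (c (p (nat_lit 0x2fbbd5a8)) (c (m (nat_lit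 0x156618c)) e)) (c (c (m (nat_lit 0x156618c)) e) e)) (c (c (c (m (nat_lit 0x299a210)) e) e) e)) (c (c (c (c (m (nat_lit 0x3956b8)) e) e) e) e)))) (c (c (c (c (c (p (nat_lit 0x5220b7c0)) (c (m (nat_lit 0x29c630c4)) (c (p (nat_lit 0x50d6ec4)) e))) (c (c (m (nat_lit 0x29c630c4)) (c (m (nat_lit 0x5557f80)) e)) (c (c (p (nat_lit 0x50d6ec4)) e) e))) (c (c (c (m (nat_lit 0x4f7cbc08)) (c (p (nat_lit 0x12a196d0)) e)) (c (c (p (nat_lit 0x12a196d0)) e) e)) (c (c (c (p (nat_lit 0x1efb55d8)) e) e) e))) (c (c (c (c (m (nat_lit 0x2a1ddb40)) (c (p (nat_lit 0x15053388)) e)) (c (c (p (nat_lit 0x15053388)) e) e)) (c (c (c (m (nat_lit 0x264180)) e) e) e)) (c (c (c (c (m (nat_lit 0xb30cd18)) e) e) e) e))) (c (c (c (c (c (m (nat_lit 0x37548420)) (c (p (nat_lit 0x6f2f6d0)) e)) (c (c (p (nat_lit 0x6f2f6d0)) e) e)) (c (c (c (m (nat_lit 0x1302d8)) e) e) e)) (c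 (c (c (c (p (nat_lit 0x150ec910)) e) e) e) e)) (c (c (c (c (c (p (nat_lit 0x6e96a48)) e) e) e) e) e))))) (c (c (c (c (c (c (p (nat_lit 0x4210b300)) (c (m (nat_lit 0x3691c440)) (c (p (nat_lit 0x1df66004)) (c (m (nat_lit 0x1a4d9c8)) e)))) (c (c (p (nat_lit 0x4b043800)) (c (m (nat_lit 0x1ccd568c)) (c (p (nat_lit 0x82707a8)) e))) (c (c (m (nat_lit 0x1f0d2de8)) (c (m (nat_lit 0x982b0)) e)) (c (c (m (nat_lit 0x262bd8)) e) e)))) (c (c (c (m (nat_lit 0x3691c440)) (c (p (nat_lit 0x75c1260)) (c (p (nat_lit 0xae369e4)) e))) (c (c (m (nat_lit 0x1ccd568c)) (c (p (nat_lit 0x5212ae8)) e)) (c (c (m (nat_lit 0x982b0)) e) e))) (c (c (c (p (nat_lit 0x1df66004)) (c (p (nat_lit 0xae369e4)) e)) (c (c (p (nat_lit 0x82707a8)) e) e)) (c (c (c (m (nat_lit 0x1a4d9c8)) e) e) e)))) (c (c (c (c (p (nat_lit 0x129b8560)) (c (m (nat_lit 0x13deda84)) (c (m (nat_lit 0x131dc0))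 e))) (c (c (p (nat_lit 0x2acebb0)) (c (m (nat_lit 0x98bf8)) e)) (c (c (m (nat_lit 0x131988)) e) e))) (c (c (c (m (nat_lit 0x13deda84)) (c (m (nat_lit 0x1320a8)) e)) (c (c (m (nat_lit 0x98bf8)) e) e)) (c (c (c (m (nat_lit 0x131dc0)) e) e) e))) (c (c (c (c (p (nat_lit 0x2fbbd5a8)) (c (m (nat_lit 0x156618c)) e)) (c (c (m (nat_lit 0x299a210)) e) e)) (c (c (c (m (nat_lit 0x156618c)) e) e) e)) (c (c (c (c (m (nat_lit 0x3956b8)) e) e) e) e)))) (c (c (c (c (c (p (nat_lit 0xc0eafb4)) (c (p (nat_lit 0x9b600ac)) (c (m (nat_lit 0x19145a0)) e))) (c (c (m (nat_lit 0x15b716ec)) (c (p (nat_lit 0x65f6610)) e)) (c (c (m (nat_lit 0x34bb910)) e) e))) (c (c (c (m (nat_lit 0x15b716ec)) (c (p (nat_lit 0x65f6610)) e)) (c (c (m (nat_lit 0x2396610)) e) e)) (c (c (c (m (nat_lit 0x34bb910)) e) e) e))) (c (c (c (c (p (nat_lit 0x18fc3c0)) (c (m (nat_lit 0x3955f8))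 e)) (c (c (m (nat_lit 0x131c04)) e) e)) (c (c (c (m (nat_lit 0x131c04)) e) e) e)) (c (c (c (c (m (nat_lit 0x17b7991c)) e) e) e) e))) (c (c (c (c (c (m (nat_lit 0x231980e8)) (c (p (nat_lit 0x9cad664)) e)) (c (c (p (nat_lit 0x5fdfeac)) e) e)) (c (c (c (p (nat_lit 0x164d8730)) e) e) e)) (c (c (c (c (m (nat_lit 0x98934)) e) e) e) e)) (c (c (c (c (c (p (nat_lit 0xa09c3bc)) e) e) e) e) e)))) (c (c (c (c (c (c (p (nat_lit 0x5220b7c0)) (c (m (nat_lit 0x29c630c4)) (c (p (nat_lit 0x50d6ec4)) e))) (c (c (m (nat_lit 0x4f7cbc08)) (c (p (nat_lit 0x12a196d0)) e)) (c (c (p (nat_lit 0x1efb55d8)) e) e))) (c (c (c (m (nat_lit 0x29c630c4)) (c (m (nat_lit 0x5557f80)) e)) (c (c (p (nat_lit 0x12a196d0)) e) e)) (c (c (c (p (nat_lit 0x50d6ec4)) e) e) e))) (c (c (c (c (m (nat_lit 0x2a1ddb40)) (c (p (nat_lit 0x15053388)) e)) (c (c (m (nat_lit 0x264180)) e) e)) (c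 (c (c (p (nat_lit 0x15053388)) e) e) e)) (c (c (c (c (m (nat_lit 0xb30cd18)) e) e) e) e))) (c (c (c (c (c (m (nat_lit 0x231980e8)) (c (p (nat_lit 0x9cad664)) e)) (c (c (p (nat_lit 0x164d8730)) e) e)) (c (c (c (p (nat_lit 0x5fdfeac)) e) e) e)) (c (c (c (c (m (nat_lit 0x98934)) e) e) e) e)) (c (c (c (c (c (m (nat_lit 0x6118fec)) e) e) e) e) e))) (c (c (c (c (c (c (m (nat_lit 0x37548420)) (c (p (nat_lit 0x6f2f6d0)) e)) (c (c (m (nat_lit 0x1302d8)) e) e)) (c (c (c (p (nat_lit 0x6f2f6d0)) e) e) e)) (c (c (c (c (p (nat_lit 0x150ec910)) e) e) e) e)) (c (c (c (c (c (p (nat_lit 0xa09c3bc)) e) e) e) e) e)) (c (c (c (c (c (c (p (nat_lit 0x6e96a48)) e) e) e) e) e) e))))) (c (c (c (c (c (c (c (p (nat_lit 0x115a628)) (c (m (nat_lit 0xaaad7dc)) (c (p (nat_lit 0x25f20d5c)) (c (m (nat_lit 0x131934)) e)))) (c (c (m (nat_lit 0x19610d54)) (c (p (nat_lit 0xf13ac28))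 (c (p (nat_lit 0xb4c378)) e))) (c (c (p (nat_lit 0x1535dde0)) (c (p (nat_lit 0x2f73750)) e)) (c (c (m (nat_lit 0x98b8c)) e) e)))) (c (c (c (m (nat_lit 0x19610d54)) (c (p (nat_lit 0xf13ac28)) (c (p (nat_lit 0xb4c378)) e))) (c (c (p (nat_lit 0x86ced70)) (c (p (nat_lit 0x1301418)) e)) (c (c (p (nat_lit 0x2f72afc)) e) e))) (c (c (c (p (nat_lit 0x1535dde0)) (c (p (nat_lit 0x2f73750)) e)) (c (c (p (nat_lit 0x2f72afc)) e) e)) (c (c (c (m (nat_lit 0x98b8c)) e) e) e)))) (c (c (c (c (p (nat_lit 0x1cdd59c4)) (c (m (nat_lit 0xb7d77d8)) (c (m (nat_lit 0x264660)) e))) (c (c (m (nat_lit 0xb8a1c6c)) (c (p (nat_lit 0x1fe3834)) e)) (c (c (m (nat_lit 0x98d0c)) e) e))) (c (c (c (m (nat_lit 0xb8a1c6c)) (c (p (nat_lit 0x1fe3834)) e)) (c (c (p (nat_lit 0x3fc7188)) e) e)) (c (c (c (m (nat_lit 0x98d0c)) e) e) e))) (c (c (c (c (p (nat_lit 0x4c0ddc)) (c (p (nat_lit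 0x13a064)) e)) (c (c (p (nat_lit 0x136350)) e) e)) (c (c (c (p (nat_lit 0x136350)) e) e) e)) (c (c (c (c (m (nat_lit 0x131e5c)) e) e) e) e)))) (c (c (c (c (c (p (nat_lit 0x55440)) (c (p (nat_lit 0x2629a0c4)) (c (m (nat_lit 0x1390f638)) e))) (c (c (p (nat_lit 0x258882a8)) (c (m (nat_lit 0x10e5d8e8)) e)) (c (c (m (nat_lit 0xf8dcdbc)) e) e))) (c (c (c (p (nat_lit 0xa3d9a78)) (c (m (nat_lit 0xafba740)) e)) (c (c (m (nat_lit 0x1059630c)) e) e)) (c (c (c (m (nat_lit 0x24a47a8)) e) e) e))) (c (c (c (c (m (nat_lit 0x5ab9328)) (c (p (nat_lit 0x98d78)) e)) (c (c (m (nat_lit 0x98e38)) e) e)) (c (c (c (p (nat_lit 0x1fe37bc)) e) e) e)) (c (c (c (c (p (nat_lit 0x1365e4)) e) e) e) e))) (c (c (c (c (c (m (nat_lit 0xb3393e8)) (c (m (nat_lit 0x3279480)) e)) (c (c (p (nat_lit 0x9abce94)) e) e)) (c (c (c (m (nat_lit 0x123d554)) e) e) e)) (c (c (c (c (m (nat_lit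 0x992f4)) e) e) e) e)) (c (c (c (c (c (p (nat_lit 0xb1e5914)) e) e) e) e) e)))) (c (c (c (c (c (c (p (nat_lit 0x55440)) (c (p (nat_lit 0x2629a0c4)) (c (m (nat_lit 0x1390f638)) e))) (c (c (p (nat_lit 0xa3d9a78)) (c (m (nat_lit 0xafba740)) e)) (c (c (m (nat_lit 0x24a47a8)) e) e))) (c (c (c (p (nat_lit 0x258882a8)) (c (m (nat_lit 0x10e5d8e8)) e)) (c (c (m (nat_lit 0x1059630c)) e) e)) (c (c (c (m (nat_lit 0xf8dcdbc)) e) e) e))) (c (c (c (c (m (nat_lit 0x5ab9328)) (c (p (nat_lit 0x98d78)) e)) (c (c (p (nat_lit 0x1fe37bc)) e) e)) (c (c (c (m (nat_lit 0x98e38)) e) e) e)) (c (c (c (c (p (nat_lit 0x1365e4)) e) e) e) e))) (c (c (c (c (c (p (nat_lit 0x9ffc558)) (c (m (nat_lit 0x1518e664)) e)) (c (c (m (nat_lit 0xb93b68c)) e) e)) (c (c (c (m (nat_lit 0xb93b68c)) e) e) e)) (c (c (c (c (m (nat_lit 0x1323f0)) e) e) e) e)) (c (c (c (c (c (m (nat_lit 0x537f558))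 e) e) e) e) e))) (c (c (c (c (c (c (m (nat_lit 0xb3393e8)) (c (m (nat_lit 0x3279480)) e)) (c (c (m (nat_lit 0x123d554)) e) e)) (c (c (c (p (nat_lit 0x9abce94)) e) e) e)) (c (c (c (c (m (nat_lit 0x992f4)) e) e) e) e)) (c (c (c (c (c (m (nat_lit 0x537f558)) e) e) e) e) e)) (c (c (c (c (c (c (p (nat_lit 0xb1e5914)) e) e) e) e) e) e)))) (c (c (c (c (c (c (c (m (nat_lit 0x4cfefc)) (c (p (nat_lit 0x99aa4c)) (c (m (nat_lit 0x4cdc28)) e))) (c (c (p (nat_lit 0x39a560)) (c (m (nat_lit 0x3013b0)) e)) (c (c (m (nat_lit 0x1336b0)) e) e))) (c (c (c (p (nat_lit 0x39a560)) (c (m (nat_lit 0x3013b0)) e)) (c (c (m (nat_lit 0x131a18)) e) e)) (c (c (c (m (nat_lit 0x1336b0)) e) e) e))) (c (c (c (c (m (nat_lit 0x860e158)) (c (p (nat_lit 0xd50)) e)) (c (c (m (nat_lit 0x99714)) e) e)) (c (c (c (m (nat_lit 0x99714)) e) e) e)) (c (c (c (c (m (nat_lit 0x132504))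 e) e) e) e))) (c (c (c (c (c (p (nat_lit 0x4366c8)) (c (m (nat_lit 0x268890)) e)) (c (c (m (nat_lit 0x1ce0fc)) e) e)) (c (c (c (p (nat_lit 0x98b44)) e) e) e)) (c (c (c (c (m (nat_lit 0x992e8)) e) e) e) e)) (c (c (c (c (c (m (nat_lit 0x1cca40)) e) e) e) e) e))) (c (c (c (c (c (c (p (nat_lit 0x4366c8)) (c (m (nat_lit 0x268890)) e)) (c (c (p (nat_lit 0x98b44)) e) e)) (c (c (c (m (nat_lit 0x1ce0fc)) e) e) e)) (c (c (c (c (m (nat_lit 0x992e8)) e) e) e) e)) (c (c (c (c (c (m (nat_lit 0x1327b0)) e) e) e) e) e)) (c (c (c (c (c (c (m (nat_lit 0x1cca40)) e) e) e) e) e) e))) (c (c (c (c (c (c (c (p (nat_lit 0x4c7238)) (c (m (nat_lit 0x131c4c)) e)) (c (c (m (nat_lit 0x98fa0)) e) e)) (c (c (c (m (nat_lit 0x98fa0)) e) e) e)) (c (c (c (c (m (nat_lit 0x13695c)) e) e) e) e)) (c (c (c (c (c (m (nat_lit 0x98e44)) e) e) e) e) e)) (c (c (c (c (c (c (m (nat_lit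 0x98e44)) e) e) e) e) e) e)) (c (c (c (c (c (c (c (m (nat_lit 0x131a00)) e) e) e) e) e) e) e))))) (c (c (c (c (c (c (c (c (p (nat_lit 0x4210b300)) (c (p (nat_lit 0x4b043800)) (c (m (nat_lit 0x1f0d2de8)) (c (m (nat_lit 0x262bd8)) e)))) (c (c (m (nat_lit 0x3691c440)) (c (m (nat_lit 0x1ccd568c)) (c (m (nat_lit 0x982b0)) e))) (c (c (p (nat_lit 0x1df66004)) (c (p (nat_lit 0x82707a8)) e)) (c (c (m (nat_lit 0x1a4d9c8)) e) e)))) (c (c (c (m (nat_lit 0x3691c440)) (c (m (nat_lit 0x1ccd568c)) (c (m (nat_lit 0x982b0)) e))) (c (c (p (nat_lit 0x75c1260)) (c (p (nat_lit 0x5212ae8)) e)) (c (c (p (nat_lit 0xae369e4)) e) e))) (c (c (c (p (nat_lit 0x1df66004)) (c (p (nat_lit 0x82707a8)) e)) (c (c (p (nat_lit 0xae369e4)) e) e)) (c (c (c (m (nat_lit 0x1a4d9c8)) e) e) e)))) (c (c (c (c (p (nat_lit 0x129b8560)) (c (p (nat_lit 0x2acebb0)) (c (m (nat_lit 0x131988))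 e))) (c (c (m (nat_lit 0x13deda84)) (c (m (nat_lit 0x98bf8)) e)) (c (c (m (nat_lit 0x131dc0)) e) e))) (c (c (c (m (nat_lit 0x13deda84)) (c (m (nat_lit 0x98bf8)) e)) (c (c (m (nat_lit 0x1320a8)) e) e)) (c (c (c (m (nat_lit 0x131dc0)) e) e) e))) (c (c (c (c (p (nat_lit 0x2fbbd5a8)) (c (m (nat_lit 0x299a210)) e)) (c (c (m (nat_lit 0x156618c)) e) e)) (c (c (c (m (nat_lit 0x156618c)) e) e) e)) (c (c (c (c (m (nat_lit 0x3956b8)) e) e) e) e)))) (c (c (c (c (c (p (nat_lit 0xc0eafb4)) (c (m (nat_lit 0x15b716ec)) (c (m (nat_lit 0x34bb910)) e))) (c (c (p (nat_lit 0x9b600ac)) (c (p (nat_lit 0x65f6610)) e)) (c (c (m (nat_lit 0x19145a0)) e) e))) (c (c (c (m (nat_lit 0x15b716ec)) (c (m (nat_lit 0x2396610)) e)) (c (c (p (nat_lit 0x65f6610)) e) e)) (c (c (c (m (nat_lit 0x34bb910)) e) e) e))) (c (c (c (c (p (nat_lit 0x18fc3c0)) (c (m (nat_lit 0x131c04))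 e)) (c (c (m (nat_lit 0x3955f8)) e) e)) (c (c (c (m (nat_lit 0x131c04)) e) e) e)) (c (c (c (c (m (nat_lit 0x17b7991c)) e) e) e) e))) (c (c (c (c (c (m (nat_lit 0x231980e8)) (c (p (nat_lit 0x5fdfeac)) e)) (c (c (p (nat_lit 0x9cad664)) e) e)) (c (c (c (p (nat_lit 0x164d8730)) e) e) e)) (c (c (c (c (m (nat_lit 0x98934)) e) e) e) e)) (c (c (c (c (c (p (nat_lit 0xa09c3bc)) e) e) e) e) e)))) (c (c (c (c (c (c (p (nat_lit 0xc0eafb4)) (c (m (nat_lit 0x15b716ec)) (c (m (nat_lit 0x34bb910)) e))) (c (c (m (nat_lit 0x15b716ec)) (c (m (nat_lit 0x2396610)) e)) (c (c (m (nat_lit 0x34bb910)) e) e))) (c (c (c (p (nat_lit 0x9b600ac)) (c (p (nat_lit 0x65f6610)) e)) (c (c (p (nat_lit 0x65f6610)) e) e)) (c (c (c (m (nat_lit 0x19145a0)) e) e) e))) (c (c (c (c (p (nat_lit 0x18fc3c0)) (c (m (nat_lit 0x131c04)) e)) (c (c (m (nat_lit 0x131c04)) e) e)) (c (c (c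 (m (nat_lit 0x3955f8)) e) e) e)) (c (c (c (c (m (nat_lit 0x17b7991c)) e) e) e) e))) (c (c (c (c (c (p (nat_lit 0x37cdc118)) (c (m (nat_lit 0x1f799310)) e)) (c (c (m (nat_lit 0x1f799310)) e) e)) (c (c (c (m (nat_lit 0x1f799310)) e) e) e)) (c (c (c (c (m (nat_lit 0x395dc0)) e) e) e) e)) (c (c (c (c (c (m (nat_lit 0x48013c8)) e) e) e) e) e))) (c (c (c (c (c (c (m (nat_lit 0x231980e8)) (c (p (nat_lit 0x5fdfeac)) e)) (c (c (p (nat_lit 0x164d8730)) e) e)) (c (c (c (p (nat_lit 0x9cad664)) e) e) e)) (c (c (c (c (m (nat_lit 0x98934)) e) e) e) e)) (c (c (c (c (c (m (nat_lit 0x48013c8)) e) e) e) e) e)) (c (c (c (c (c (c (p (nat_lit 0xa09c3bc)) e) e) e) e) e) e)))) (c (c (c (c (c (c (c (m (nat_lit 0x3cb1bb08)) (c (p (nat_lit 0x211414e0)) (c (p (nat_lit 0x9c0)) e))) (c (c (p (nat_lit 0x2f0932b0)) (c (m (nat_lit 0x1050c5ac)) e)) (c (c (m (nat_lit 0x340f41c))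 e) e))) (c (c (c (p (nat_lit 0x2f0932b0)) (c (m (nat_lit 0x1050c5ac)) e)) (c (c (m (nat_lit 0x20b4a228)) e) e)) (c (c (c (m (nat_lit 0x340f41c)) e) e) e))) (c (c (c (c (p (nat_lit 0x63bb98)) (c (m (nat_lit 0x263268)) e)) (c (c (m (nat_lit 0x98dd8)) e) e)) (c (c (c (m (nat_lit 0x98dd8)) e) e) e)) (c (c (c (c (m (nat_lit 0x2637f0)) e) e) e) e))) (c (c (c (c (c (p (nat_lit 0x1e922f8c)) (c (m (nat_lit 0x131ba4)) e)) (c (c (m (nat_lit 0xe24cf94)) e) e)) (c (c (c (m (nat_lit 0x105a5960)) e) e) e)) (c (c (c (c (m (nat_lit 0x1333c8)) e) e) e) e)) (c (c (c (c (c (m (nat_lit 0x131ea4)) e) e) e) e) e))) (c (c (c (c (c (c (p (nat_lit 0x1e922f8c)) (c (m (nat_lit 0x131ba4)) e)) (c (c (m (nat_lit 0x105a5960)) e) e)) (c (c (c (m (nat_lit 0xe24cf94)) e) e) e)) (c (c (c (c (m (nat_lit 0x1333c8)) e) e) e) e)) (c (c (c (c (c (m (nat_lit 0x263820)) e) e) e)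 e) e)) (c (c (c (c (c (c (m (nat_lit 0x131ea4)) e) e) e) e) e) e))) (c (c (c (c (c (c (c (p (nat_lit 0x4cba08)) (c (m (nat_lit 0x131b68)) e)) (c (c (m (nat_lit 0x98d30)) e) e)) (c (c (c (m (nat_lit 0x98d30)) e) e) e)) (c (c (c (c (m (nat_lit 0x16e138)) e) e) e) e)) (c (c (c (c (c (m (nat_lit 0x266070)) e) e) e) e) e)) (c (c (c (c (c (c (m (nat_lit 0x266070)) e) e) e) e) e) e)) (c (c (c (c (c (c (c (m (nat_lit 0x131e98)) e) e) e) e) e) e) e)))) (c (c (c (c (c (c (c (c (p (nat_lit 0x5220b7c0)) (c (m (nat_lit 0x4f7cbc08)) (c (p (nat_lit 0x1efb55d8)) e))) (c (c (m (nat_lit 0x29c630c4)) (c (p (nat_lit 0x12a196d0)) e)) (c (c (p (nat_lit 0x50d6ec4)) e) e))) (c (c (c (m (nat_lit 0x29c630c4)) (c (p (nat_lit 0x12a196d0)) e)) (c (c (m (nat_lit 0x5557f80)) e) e)) (c (c (c (p (nat_lit 0x50d6ec4)) e) e) e))) (c (c (c (c (m (nat_lit 0x2a1ddb40)) (c (m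 (nat_lit 0x264180)) e)) (c (c (p (nat_lit 0x15053388)) e) e)) (c (c (c (p (nat_lit 0x15053388)) e) e) e)) (c (c (c (c (m (nat_lit 0xb30cd18)) e) e) e) e))) (c (c (c (c (c (m (nat_lit 0x231980e8)) (c (p (nat_lit 0x164d8730)) e)) (c (c (p (nat_lit 0x9cad664)) e) e)) (c (c (c (p (nat_lit 0x5fdfeac)) e) e) e)) (c (c (c (c (m (nat_lit 0x98934)) e) e) e) e)) (c (c (c (c (c (m (nat_lit 0x6118fec)) e) e) e) e) e))) (c (c (c (c (c (c (m (nat_lit 0x231980e8)) (c (p (nat_lit 0x164d8730)) e)) (c (c (p (nat_lit 0x5fdfeac)) e) e)) (c (c (c (p (nat_lit 0x9cad664)) e) e) e)) (c (c (c (c (m (nat_lit 0x98934)) e) e) e) e)) (c (c (c (c (c (m (nat_lit 0x48013c8)) e) e) e) e) e)) (c (c (c (c (c (c (m (nat_lit 0x6118fec)) e) e) e) e) e) e))) (c (c (c (c (c (c (c (p (nat_lit 0x5f7a38)) (c (m (nat_lit 0x131d00)) e)) (c (c (m (nat_lit 0x13176c)) e) e)) (c (c (c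 (m (nat_lit 0x13176c)) e) e) e)) (c (c (c (c (m (nat_lit 0x132720)) e) e) e) e)) (c (c (c (c (c (m (nat_lit 0x131b68)) e) e) e) e) e)) (c (c (c (c (c (c (m (nat_lit 0x131b68)) e) e) e) e) e) e)) (c (c (c (c (c (c (c (m (nat_lit 0x2658d8)) e) e) e) e) e) e) e))) (c (c (c (c (c (c (c (c (m (nat_lit 0x37548420)) (c (m (nat_lit 0x1302d8)) e)) (c (c (p (nat_lit 0x6f2f6d0)) e) e)) (c (c (c (p (nat_lit 0x6f2f6d0)) e) e) e)) (c (c (c (c (p (nat_lit 0x150ec910)) e) e) e) e)) (c (c (c (c (c (p (nat_lit 0xa09c3bc)) e) e) e) e) e)) (c (c (c (c (c (c (p (nat_lit 0xa09c3bc)) e) e) e) e) e) e)) (c (c (c (c (c (c (c (m (nat_lit 0x131c40)) e) e) e) e) e) e) e)) (c (c (c (c (c (c (c (c (p (nat_lit 0x6e96a48)) e) e) e) e) e) e) e) e))))) (c (c (c (c (c (c (c (c (c (p (nat_lit 0x115a628)) (c (m (nat_lit 0x19610d54)) (c (p (nat_lit 0x1535dde0)) (c (m (nat_lit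 0x98b8c)) e)))) (c (c (m (nat_lit 0xaaad7dc)) (c (p (nat_lit 0xf13ac28)) (c (p (nat_lit 0x2f73750)) e))) (c (c (p (nat_lit 0x25f20d5c)) (c (p (nat_lit 0xb4c378)) e)) (c (c (m (nat_lit 0x131934)) e) e)))) (c (c (c (m (nat_lit 0x19610d54)) (c (p (nat_lit 0x86ced70)) (c (p (nat_lit 0x2f72afc)) e))) (c (c (p (nat_lit 0xf13ac28)) (c (p (nat_lit 0x1301418)) e)) (c (c (p (nat_lit 0xb4c378)) e) e))) (c (c (c (p (nat_lit 0x1535dde0)) (c (p (nat_lit 0x2f72afc)) e)) (c (c (p (nat_lit 0x2f73750)) e) e)) (c (c (c (m (nat_lit 0x98b8c)) e) e) e)))) (c (c (c (c (p (nat_lit 0x1cdd59c4)) (c (m (nat_lit 0xb8a1c6c)) (c (m (nat_lit 0x98d0c)) e))) (c (c (m (nat_lit 0xb7d77d8)) (c (p (nat_lit 0x1fe3834)) e)) (c (c (m (nat_lit 0x264660)) e) e))) (c (c (c (m (nat_lit 0xb8a1c6c)) (c (p (nat_lit 0x3fc7188)) e)) (c (c (p (nat_lit 0x1fe3834)) e) e)) (c (c (c (m (nat_lit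 0x98d0c)) e) e) e))) (c (c (c (c (p (nat_lit 0x4c0ddc)) (c (p (nat_lit 0x136350)) e)) (c (c (p (nat_lit 0x13a064)) e) e)) (c (c (c (p (nat_lit 0x136350)) e) e) e)) (c (c (c (c (m (nat_lit 0x131e5c)) e) e) e) e)))) (c (c (c (c (c (p (nat_lit 0x55440)) (c (p (nat_lit 0x258882a8)) (c (m (nat_lit 0xf8dcdbc)) e))) (c (c (p (nat_lit 0x2629a0c4)) (c (m (nat_lit 0x10e5d8e8)) e)) (c (c (m (nat_lit 0x1390f638)) e) e))) (c (c (c (p (nat_lit 0xa3d9a78)) (c (m (nat_lit 0x1059630c)) e)) (c (c (m (nat_lit 0xafba740)) e) e)) (c (c (c (m (nat_lit 0x24a47a8)) e) e) e))) (c (c (c (c (m (nat_lit 0x5ab9328)) (c (m (nat_lit 0x98e38)) e)) (c (c (p (nat_lit 0x98d78)) e) e)) (c (c (c (p (nat_lit 0x1fe37bc)) e) e) e)) (c (c (c (c (p (nat_lit 0x1365e4)) e) e) e) e))) (c (c (c (c (c (m (nat_lit 0xb3393e8)) (c (p (nat_lit 0x9abce94)) e)) (c (c (m (nat_lit 0x3279480))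 e) e)) (c (c (c (m (nat_lit 0x123d554)) e) e) e)) (c (c (c (c (m (nat_lit 0x992f4)) e) e) e) e)) (c (c (c (c (c (p (nat_lit 0xb1e5914)) e) e) e) e) e)))) (c (c (c (c (c (c (m (nat_lit 0x3cb1bb08)) (c (p (nat_lit 0x2f0932b0)) (c (m (nat_lit 0x340f41c)) e))) (c (c (p (nat_lit 0x211414e0)) (c (m (nat_lit 0x1050c5ac)) e)) (c (c (p (nat_lit 0x9c0)) e) e))) (c (c (c (p (nat_lit 0x2f0932b0)) (c (m (nat_lit 0x20b4a228)) e)) (c (c (m (nat_lit 0x1050c5ac)) e) e)) (c (c (c (m (nat_lit 0x340f41c)) e) e) e))) (c (c (c (c (p (nat_lit 0x63bb98)) (c (m (nat_lit 0x98dd8)) e)) (c (c (m (nat_lit 0x263268)) e) e)) (c (c (c (m (nat_lit 0x98dd8)) e) e) e)) (c (c (c (c (m (nat_lit 0x2637f0)) e) e) e) e))) (c (c (c (c (c (p (nat_lit 0x1e922f8c)) (c (m (nat_lit 0xe24cf94)) e)) (c (c (m (nat_lit 0x131ba4)) e) e)) (c (c (c (m (nat_lit 0x105a5960)) e) e) e)) (c (c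 (c (c (m (nat_lit 0x1333c8)) e) e) e) e)) (c (c (c (c (c (m (nat_lit 0x131ea4)) e) e) e) e) e))) (c (c (c (c (c (c (p (nat_lit 0x5f7a38)) (c (m (nat_lit 0x13176c)) e)) (c (c (m (nat_lit 0x131d00)) e) e)) (c (c (c (m (nat_lit 0x13176c)) e) e) e)) (c (c (c (c (m (nat_lit 0x132720)) e) e) e) e)) (c (c (c (c (c (m (nat_lit 0x131b68)) e) e) e) e) e)) (c (c (c (c (c (c (m (nat_lit 0x131c40)) e) e) e) e) e) e)))) (c (c (c (c (c (c (c (p (nat_lit 0x19ab0f08)) (c (m (nat_lit 0x1afa28a4)) (c (m (nat_lit 0xa8beda0)) e))) (c (c (m (nat_lit 0x1afa28a4)) (c (m (nat_lit 0x264624)) e)) (c (c (m (nat_lit 0xa8beda0)) e) e))) (c (c (c (p (nat_lit 0x12e7faa4)) (c (m (nat_lit 0x5aa7370)) e)) (c (c (m (nat_lit 0x5aa7370)) e) e)) (c (c (c (m (nat_lit 0x2698e0)) e) e) e))) (c (c (c (c (m (nat_lit 0x19252a94)) (c (p (nat_lit 0x720b124)) e)) (c (c (p (nat_lit 0x720b124))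 e) e)) (c (c (c (p (nat_lit 0x74d44e8)) e) e) e)) (c (c (c (c (m (nat_lit 0x133a70)) e) e) e) e))) (c (c (c (c (c (m (nat_lit 0x2e63a898)) (c (m (nat_lit 0x16ba854)) e)) (c (c (m (nat_lit 0x16ba854)) e) e)) (c (c (c (p (nat_lit 0x23097f0)) e) e) e)) (c (c (c (c (p (nat_lit 0x70d4b10)) e) e) e) e)) (c (c (c (c (c (m (nat_lit 0x3955c8)) e) e) e) e) e))) (c (c (c (c (c (c (p (nat_lit 0x5474910)) (c (m (nat_lit 0x3db72fc)) e)) (c (c (p (nat_lit 0x69d57bc)) e) e)) (c (c (c (m (nat_lit 0x134cb8)) e) e) e)) (c (c (c (c (m (nat_lit 0x1cd118)) e) e) e) e)) (c (c (c (c (c (p (nat_lit 0x531b328)) e) e) e) e) e)) (c (c (c (c (c (c (m (nat_lit 0x98c70)) e) e) e) e) e) e))) (c (c (c (c (c (c (c (m (nat_lit 0x5de1a08)) (c (p (nat_lit 0x5f13330)) e)) (c (c (p (nat_lit 0x5fac240)) e) e)) (c (c (c (m (nat_lit 0x131e08)) e) e) e)) (c (c (c (c (p (nat_lit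 0x4316cc4)) e) e) e) e)) (c (c (c (c (c (p (nat_lit 0x5f13780)) e) e) e) e) e)) (c (c (c (c (c (c (m (nat_lit 0x131bd4)) e) e) e) e) e) e)) (c (c (c (c (c (c (c (m (nat_lit 0x1319e8)) e) e) e) e) e) e) e)))) (c (c (c (c (c (c (c (c (p (nat_lit 0x55440)) (c (p (nat_lit 0xa3d9a78)) (c (m (nat_lit 0x24a47a8)) e))) (c (c (p (nat_lit 0x2629a0c4)) (c (m (nat_lit 0xafba740)) e)) (c (c (m (nat_lit 0x1390f638)) e) e))) (c (c (c (p (nat_lit 0x258882a8)) (c (m (nat_lit 0x1059630c)) e)) (c (c (m (nat_lit 0x10e5d8e8)) e) e)) (c (c (c (m (nat_lit 0xf8dcdbc)) e) e) e))) (c (c (c (c (m (nat_lit 0x5ab9328)) (c (p (nat_lit 0x1fe37bc)) e)) (c (c (p (nat_lit 0x98d78)) e) e)) (c (c (c (m (nat_lit 0x98e38)) e) e) e)) (c (c (c (c (p (nat_lit 0x1365e4)) e) e) e) e))) (c (c (c (c (c (p (nat_lit 0x9ffc558)) (c (m (nat_lit 0xb93b68c)) e)) (c (c (m (nat_lit 0x1518e664))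 e) e)) (c (c (c (m (nat_lit 0xb93b68c)) e) e) e)) (c (c (c (c (m (nat_lit 0x1323f0)) e) e) e) e)) (c (c (c (c (c (m (nat_lit 0x537f558)) e) e) e) e) e))) (c (c (c (c (c (c (p (nat_lit 0x1e922f8c)) (c (m (nat_lit 0x105a5960)) e)) (c (c (m (nat_lit 0x131ba4)) e) e)) (c (c (c (m (nat_lit 0xe24cf94)) e) e) e)) (c (c (c (c (m (nat_lit 0x1333c8)) e) e) e) e)) (c (c (c (c (c (m (nat_lit 0x263820)) e) e) e) e) e)) (c (c (c (c (c (c (m (nat_lit 0x131b68)) e) e) e) e) e) e))) (c (c (c (c (c (c (c (p (nat_lit 0x5474910)) (c (p (nat_lit 0x69d57bc)) e)) (c (c (m (nat_lit 0x3db72fc)) e) e)) (c (c (c (m (nat_lit 0x134cb8)) e) e) e)) (c (c (c (c (m (nat_lit 0x1cd118)) e) e) e) e)) (c (c (c (c (c (p (nat_lit 0x531b328)) e) e) e) e) e)) (c (c (c (c (c (c (m (nat_lit 0x13191c)) e) e) e) e) e) e)) (c (c (c (c (c (c (c (m (nat_lit 0x1319ac)) e) e) e) e) e)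 e) e))) (c (c (c (c (c (c (c (c (m (nat_lit 0xb3393e8)) (c (m (nat_lit 0x123d554)) e)) (c (c (m (nat_lit 0x3279480)) e) e)) (c (c (c (p (nat_lit 0x9abce94)) e) e) e)) (c (c (c (c (m (nat_lit 0x992f4)) e) e) e) e)) (c (c (c (c (c (m (nat_lit 0x537f558)) e) e) e) e) e)) (c (c (c (c (c (c (m (nat_lit 0x131ea4)) e) e) e) e) e) e)) (c (c (c (c (c (c (c (m (nat_lit 0x98c70)) e) e) e) e) e) e) e)) (c (c (c (c (c (c (c (c (p (nat_lit 0xb1e5914)) e) e) e) e) e) e) e) e)))) (c (c (c (c (c (c (c (c (c (m (nat_lit 0x4cfefc)) (c (p (nat_lit 0x39a560)) (c (m (nat_lit 0x1336b0)) e))) (c (c (p (nat_lit 0x99aa4c)) (c (m (nat_lit 0x3013b0)) e)) (c (c (m (nat_lit 0x4cdc28)) e) e))) (c (c (c (p (nat_lit 0x39a560)) (c (m (nat_lit 0x131a18)) e)) (c (c (m (nat_lit 0x3013b0)) e) e)) (c (c (c (m (nat_lit 0x1336b0)) e) e) e))) (c (c (c (c (m (nat_lit 0x860e158))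 (c (m (nat_lit 0x99714)) e)) (c (c (p (nat_lit 0xd50)) e) e)) (c (c (c (m (nat_lit 0x99714)) e) e) e)) (c (c (c (c (m (nat_lit 0x132504)) e) e) e) e))) (c (c (c (c (c (p (nat_lit 0x4366c8)) (c (m (nat_lit 0x1ce0fc)) e)) (c (c (m (nat_lit 0x268890)) e) e)) (c (c (c (p (nat_lit 0x98b44)) e) e) e)) (c (c (c (c (m (nat_lit 0x992e8)) e) e) e) e)) (c (c (c (c (c (m (nat_lit 0x1cca40)) e) e) e) e) e))) (c (c (c (c (c (c (p (nat_lit 0x4cba08)) (c (m (nat_lit 0x98d30)) e)) (c (c (m (nat_lit 0x131b68)) e) e)) (c (c (c (m (nat_lit 0x98d30)) e) e) e)) (c (c (c (c (m (nat_lit 0x16e138)) e) e) e) e)) (c (c (c (c (c (m (nat_lit 0x266070)) e) e) e) e) e)) (c (c (c (c (c (c (m (nat_lit 0x2658d8)) e) e) e) e) e) e))) (c (c (c (c (c (c (c (m (nat_lit 0x5de1a08)) (c (p (nat_lit 0x5fac240)) e)) (c (c (p (nat_lit 0x5f13330)) e) e)) (c (c (c (m (nat_lit 0x131e08))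 e) e) e)) (c (c (c (c (p (nat_lit 0x4316cc4)) e) e) e) e)) (c (c (c (c (c (p (nat_lit 0x5f13780)) e) e) e) e) e)) (c (c (c (c (c (c (m (nat_lit 0x1319ac)) e) e) e) e) e) e)) (c (c (c (c (c (c (c (m (nat_lit 0x1319d0)) e) e) e) e) e) e) e))) (c (c (c (c (c (c (c (c (p (nat_lit 0x4366c8)) (c (p (nat_lit 0x98b44)) e)) (c (c (m (nat_lit 0x268890)) e) e)) (c (c (c (m (nat_lit 0x1ce0fc)) e) e) e)) (c (c (c (c (m (nat_lit 0x992e8)) e) e) e) e)) (c (c (c (c (c (m (nat_lit 0x1327b0)) e) e) e) e) e)) (c (c (c (c (c (c (m (nat_lit 0x266070)) e) e) e) e) e) e)) (c (c (c (c (c (c (c (m (nat_lit 0x131bd4)) e) e) e) e) e) e) e)) (c (c (c (c (c (c (c (c (m (nat_lit 0x1cca40)) e) e) e) e) e) e) e) e))) (c (c (c (c (c (c (c (c (c (p (nat_lit 0x4c7238)) (c (m (nat_lit 0x98fa0)) e)) (c (c (m (nat_lit 0x131c4c)) e) e)) (c (c (c (m (nat_lit 0x98fa0)) e) e)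 e)) (c (c (c (c (m (nat_lit 0x13695c)) e) e) e) e)) (c (c (c (c (c (m (nat_lit 0x98e44)) e) e) e) e) e)) (c (c (c (c (c (c (m (nat_lit 0x131e98)) e) e) e) e) e) e)) (c (c (c (c (c (c (c (m (nat_lit 0x1319e8)) e) e) e) e) e) e) e)) (c (c (c (c (c (c (c (c (m (nat_lit 0x98e44)) e) e) e) e) e) e) e) e)) (c (c (c (c (c (c (c (c (c (m (nat_lit 0x131a00)) e) e) e) e) e) e) e) e) e))))) (c (c (c (c (c (c (c (c (c (c (p (nat_lit 0x115a628)) (c (m (nat_lit 0x19610d54)) (c (p (nat_lit 0x1535dde0)) (c (m (nat_lit 0x98b8c)) e)))) (c (c (m (nat_lit 0x19610d54)) (c (p (nat_lit 0x86ced70)) (c (p (nat_lit 0x2f72afc)) e))) (c (c (p (nat_lit 0x1535dde0)) (c (p (nat_lit 0x2f72afc)) e)) (c (c (m (nat_lit 0x98b8c)) e) e)))) (c (c (c (m (nat_lit 0xaaad7dc)) (c (p (nat_lit 0xf13ac28)) (c (p (nat_lit 0x2f73750)) e))) (c (c (p (nat_lit 0xf13ac28)) (c (p (nat_lit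 0x1301418)) e)) (c (c (p (nat_lit 0x2f73750)) e) e))) (c (c (c (p (nat_lit 0x25f20d5c)) (c (p (nat_lit 0xb4c378)) e)) (c (c (p (nat_lit 0xb4c378)) e) e)) (c (c (c (m (nat_lit 0x131934)) e) e) e)))) (c (c (c (c (p (nat_lit 0x1cdd59c4)) (c (m (nat_lit 0xb8a1c6c)) (c (m (nat_lit 0x98d0c)) e))) (c (c (m (nat_lit 0xb8a1c6c)) (c (p (nat_lit 0x3fc7188)) e)) (c (c (m (nat_lit 0x98d0c)) e) e))) (c (c (c (m (nat_lit 0xb7d77d8)) (c (p (nat_lit 0x1fe3834)) e)) (c (c (p (nat_lit 0x1fe3834)) e) e)) (c (c (c (m (nat_lit 0x264660)) e) e) e))) (c (c (c (c (p (nat_lit 0x4c0ddc)) (c (p (nat_lit 0x136350)) e)) (c (c (p (nat_lit 0x136350)) e) e)) (c (c (c (p (nat_lit 0x13a064)) e) e) e)) (c (c (c (c (m (nat_lit 0x131e5c)) e) e) e) e)))) (c (c (c (c (c (m (nat_lit 0x3cb1bb08)) (c (p (nat_lit 0x2f0932b0)) (c (m (nat_lit 0x340f41c)) e))) (c (c (p (nat_lit 0x2f0932b0))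 (c (m (nat_lit 0x20b4a228)) e)) (c (c (m (nat_lit 0x340f41c)) e) e))) (c (c (c (p (nat_lit 0x211414e0)) (c (m (nat_lit 0x1050c5ac)) e)) (c (c (m (nat_lit 0x1050c5ac)) e) e)) (c (c (c (p (nat_lit 0x9c0)) e) e) e))) (c (c (c (c (p (nat_lit 0x63bb98)) (c (m (nat_lit 0x98dd8)) e)) (c (c (m (nat_lit 0x98dd8)) e) e)) (c (c (c (m (nat_lit 0x263268)) e) e) e)) (c (c (c (c (m (nat_lit 0x2637f0)) e) e) e) e))) (c (c (c (c (c (p (nat_lit 0x5f7a38)) (c (m (nat_lit 0x13176c)) e)) (c (c (m (nat_lit 0x13176c)) e) e)) (c (c (c (m (nat_lit 0x131d00)) e) e) e)) (c (c (c (c (m (nat_lit 0x132720)) e) e) e) e)) (c (c (c (c (c (m (nat_lit 0x131c40)) e) e) e) e) e)))) (c (c (c (c (c (c (p (nat_lit 0x55440)) (c (p (nat_lit 0x258882a8)) (c (m (nat_lit 0xf8dcdbc)) e))) (c (c (p (nat_lit 0xa3d9a78)) (c (m (nat_lit 0x1059630c)) e)) (c (c (m (nat_lit 0x24a47a8)) e)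 e))) (c (c (c (p (nat_lit 0x2629a0c4)) (c (m (nat_lit 0x10e5d8e8)) e)) (c (c (m (nat_lit 0xafba740)) e) e)) (c (c (c (m (nat_lit 0x1390f638)) e) e) e))) (c (c (c (c (m (nat_lit 0x5ab9328)) (c (m (nat_lit 0x98e38)) e)) (c (c (p (nat_lit 0x1fe37bc)) e) e)) (c (c (c (p (nat_lit 0x98d78)) e) e) e)) (c (c (c (c (p (nat_lit 0x1365e4)) e) e) e) e))) (c (c (c (c (c (p (nat_lit 0x1e922f8c)) (c (m (nat_lit 0xe24cf94)) e)) (c (c (m (nat_lit 0x105a5960)) e) e)) (c (c (c (m (nat_lit 0x131ba4)) e) e) e)) (c (c (c (c (m (nat_lit 0x1333c8)) e) e) e) e)) (c (c (c (c (c (m (nat_lit 0x131b68)) e) e) e) e) e))) (c (c (c (c (c (c (m (nat_lit 0xb3393e8)) (c (p (nat_lit 0x9abce94)) e)) (c (c (m (nat_lit 0x123d554)) e) e)) (c (c (c (m (nat_lit 0x3279480)) e) e) e)) (c (c (c (c (m (nat_lit 0x992f4)) e) e) e) e)) (c (c (c (c (c (m (nat_lit 0x131ea4)) e) e) e) e)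 e)) (c (c (c (c (c (c (p (nat_lit 0xb1e5914)) e) e) e) e) e) e)))) (c (c (c (c (c (c (c (p (nat_lit 0x19ab0f08)) (c (m (nat_lit 0x1afa28a4)) (c (m (nat_lit 0xa8beda0)) e))) (c (c (p (nat_lit 0x12e7faa4)) (c (m (nat_lit 0x5aa7370)) e)) (c (c (m (nat_lit 0x2698e0)) e) e))) (c (c (c (m (nat_lit 0x1afa28a4)) (c (m (nat_lit 0x264624)) e)) (c (c (m (nat_lit 0x5aa7370)) e) e)) (c (c (c (m (nat_lit 0xa8beda0)) e) e) e))) (c (c (c (c (m (nat_lit 0x19252a94)) (c (p (nat_lit 0x720b124)) e)) (c (c (p (nat_lit 0x74d44e8)) e) e)) (c (c (c (p (nat_lit 0x720b124)) e) e) e)) (c (c (c (c (m (nat_lit 0x133a70)) e) e) e) e))) (c (c (c (c (c (p (nat_lit 0x5474910)) (c (m (nat_lit 0x3db72fc)) e)) (c (c (m (nat_lit 0x134cb8)) e) e)) (c (c (c (p (nat_lit 0x69d57bc)) e) e) e)) (c (c (c (c (m (nat_lit 0x1cd118)) e) e) e) e)) (c (c (c (c (c (m (nat_lit 0x98c70))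 e) e) e) e) e))) (c (c (c (c (c (c (m (nat_lit 0x2e63a898)) (c (m (nat_lit 0x16ba854)) e)) (c (c (p (nat_lit 0x23097f0)) e) e)) (c (c (c (m (nat_lit 0x16ba854)) e) e) e)) (c (c (c (c (p (nat_lit 0x70d4b10)) e) e) e) e)) (c (c (c (c (c (p (nat_lit 0x531b328)) e) e) e) e) e)) (c (c (c (c (c (c (m (nat_lit 0x3955c8)) e) e) e) e) e) e))) (c (c (c (c (c (c (c (m (nat_lit 0x5de1a08)) (c (p (nat_lit 0x5f13330)) e)) (c (c (m (nat_lit 0x131e08)) e) e)) (c (c (c (p (nat_lit 0x5fac240)) e) e) e)) (c (c (c (c (p (nat_lit 0x4316cc4)) e) e) e) e)) (c (c (c (c (c (m (nat_lit 0x131bd4)) e) e) e) e) e)) (c (c (c (c (c (c (p (nat_lit 0x5f13780)) e) e) e) e) e) e)) (c (c (c (c (c (c (c (m (nat_lit 0x1319e8)) e) e) e) e) e) e) e)))) (c (c (c (c (c (c (c (c (p (nat_lit 0x55440)) (c (p (nat_lit 0xa3d9a78)) (c (m (nat_lit 0x24a47a8)) e))) (c (c (p (nat_lit 0x258882a8))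 (c (m (nat_lit 0x1059630c)) e)) (c (c (m (nat_lit 0xf8dcdbc)) e) e))) (c (c (c (p (nat_lit 0x2629a0c4)) (c (m (nat_lit 0xafba740)) e)) (c (c (m (nat_lit 0x10e5d8e8)) e) e)) (c (c (c (m (nat_lit 0x1390f638)) e) e) e))) (c (c (c (c (m (nat_lit 0x5ab9328)) (c (p (nat_lit 0x1fe37bc)) e)) (c (c (m (nat_lit 0x98e38)) e) e)) (c (c (c (p (nat_lit 0x98d78)) e) e) e)) (c (c (c (c (p (nat_lit 0x1365e4)) e) e) e) e))) (c (c (c (c (c (p (nat_lit 0x1e922f8c)) (c (m (nat_lit 0x105a5960)) e)) (c (c (m (nat_lit 0xe24cf94)) e) e)) (c (c (c (m (nat_lit 0x131ba4)) e) e) e)) (c (c (c (c (m (nat_lit 0x1333c8)) e) e) e) e)) (c (c (c (c (c (m (nat_lit 0x131b68)) e) e) e) e) e))) (c (c (c (c (c (c (p (nat_lit 0x9ffc558)) (c (m (nat_lit 0xb93b68c)) e)) (c (c (m (nat_lit 0xb93b68c)) e) e)) (c (c (c (m (nat_lit 0x1518e664)) e) e) e)) (c (c (c (c (m (nat_lit 0x1323f0))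 e) e) e) e)) (c (c (c (c (c (m (nat_lit 0x263820)) e) e) e) e) e)) (c (c (c (c (c (c (m (nat_lit 0x537f558)) e) e) e) e) e) e))) (c (c (c (c (c (c (c (p (nat_lit 0x5474910)) (c (p (nat_lit 0x69d57bc)) e)) (c (c (m (nat_lit 0x134cb8)) e) e)) (c (c (c (m (nat_lit 0x3db72fc)) e) e) e)) (c (c (c (c (m (nat_lit 0x1cd118)) e) e) e) e)) (c (c (c (c (c (m (nat_lit 0x13191c)) e) e) e) e) e)) (c (c (c (c (c (c (p (nat_lit 0x531b328)) e) e) e) e) e) e)) (c (c (c (c (c (c (c (m (nat_lit 0x1319ac)) e) e) e) e) e) e) e))) (c (c (c (c (c (c (c (c (m (nat_lit 0xb3393e8)) (c (m (nat_lit 0x123d554)) e)) (c (c (p (nat_lit 0x9abce94)) e) e)) (c (c (c (m (nat_lit 0x3279480)) e) e) e)) (c (c (c (c (m (nat_lit 0x992f4)) e) e) e) e)) (c (c (c (c (c (m (nat_lit 0x131ea4)) e) e) e) e) e)) (c (c (c (c (c (c (m (nat_lit 0x537f558)) e) e) e) e) e) e)) (c (c (c (c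 (c (c (c (m (nat_lit 0x98c70)) e) e) e) e) e) e) e)) (c (c (c (c (c (c (c (c (p (nat_lit 0xb1e5914)) e) e) e) e) e) e) e) e)))) (c (c (c (c (c (c (c (c (c (p (nat_lit 0x19ab0f08)) (c (p (nat_lit 0x12e7faa4)) (c (m (nat_lit 0x2698e0)) e))) (c (c (m (nat_lit 0x1afa28a4)) (c (m (nat_lit 0x5aa7370)) e)) (c (c (m (nat_lit 0xa8beda0)) e) e))) (c (c (c (m (nat_lit 0x1afa28a4)) (c (m (nat_lit 0x5aa7370)) e)) (c (c (m (nat_lit 0x264624)) e) e)) (c (c (c (m (nat_lit 0xa8beda0)) e) e) e))) (c (c (c (c (m (nat_lit 0x19252a94)) (c (p (nat_lit 0x74d44e8)) e)) (c (c (p (nat_lit 0x720b124)) e) e)) (c (c (c (p (nat_lit 0x720b124)) e) e) e)) (c (c (c (c (m (nat_lit 0x133a70)) e) e) e) e))) (c (c (c (c (c (p (nat_lit 0x5474910)) (c (m (nat_lit 0x134cb8)) e)) (c (c (m (nat_lit 0x3db72fc)) e) e)) (c (c (c (p (nat_lit 0x69d57bc)) e) e) e)) (c (c (c (c (m (nat_lit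 0x1cd118)) e) e) e) e)) (c (c (c (c (c (m (nat_lit 0x98c70)) e) e) e) e) e))) (c (c (c (c (c (c (p (nat_lit 0x5474910)) (c (m (nat_lit 0x134cb8)) e)) (c (c (p (nat_lit 0x69d57bc)) e) e)) (c (c (c (m (nat_lit 0x3db72fc)) e) e) e)) (c (c (c (c (m (nat_lit 0x1cd118)) e) e) e) e)) (c (c (c (c (c (m (nat_lit 0x13191c)) e) e) e) e) e)) (c (c (c (c (c (c (m (nat_lit 0x98c70)) e) e) e) e) e) e))) (c (c (c (c (c (c (c (p (nat_lit 0x395160)) (c (m (nat_lit 0x131cd0)) e)) (c (c (m (nat_lit 0x131cd0)) e) e)) (c (c (c (m (nat_lit 0x131cd0)) e) e) e)) (c (c (c (c (p (nat_lit 0x3089a90)) e) e) e) e)) (c (c (c (c (c (m (nat_lit 0x1319d0)) e) e) e) e) e)) (c (c (c (c (c (c (m (nat_lit 0x1319d0)) e) e) e) e) e) e)) (c (c (c (c (c (c (c (m (nat_lit 0x263400)) e) e) e) e) e) e) e))) (c (c (c (c (c (c (c (c (m (nat_lit 0x2e63a898)) (c (p (nat_lit 0x23097f0))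 e)) (c (c (m (nat_lit 0x16ba854)) e) e)) (c (c (c (m (nat_lit 0x16ba854)) e) e) e)) (c (c (c (c (p (nat_lit 0x70d4b10)) e) e) e) e)) (c (c (c (c (c (p (nat_lit 0x531b328)) e) e) e) e) e)) (c (c (c (c (c (c (p (nat_lit 0x531b328)) e) e) e) e) e) e)) (c (c (c (c (c (c (c (m (nat_lit 0x1319d0)) e) e) e) e) e) e) e)) (c (c (c (c (c (c (c (c (m (nat_lit 0x3955c8)) e) e) e) e) e) e) e) e))) (c (c (c (c (c (c (c (c (c (m (nat_lit 0x5de1a08)) (c (m (nat_lit 0x131e08)) e)) (c (c (p (nat_lit 0x5f13330)) e) e)) (c (c (c (p (nat_lit 0x5fac240)) e) e) e)) (c (c (c (c (p (nat_lit 0x4316cc4)) e) e) e) e)) (c (c (c (c (c (m (nat_lit 0x131bd4)) e) e) e) e) e)) (c (c (c (c (c (c (m (nat_lit 0x1319ac)) e) e) e) e) e) e)) (c (c (c (c (c (c (c (m (nat_lit 0x263400)) e) e) e) e) e) e) e)) (c (c (c (c (c (c (c (c (p (nat_lit 0x5f13780)) e) e) e) e) e) e) e)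 e)) (c (c (c (c (c (c (c (c (c (m (nat_lit 0x1319e8)) e) e) e) e) e) e) e) e) e)))) (c (c (c (c (c (c (c (c (c (c (m (nat_lit 0x4cfefc)) (c (p (nat_lit 0x39a560)) (c (m (nat_lit 0x1336b0)) e))) (c (c (p (nat_lit 0x39a560)) (c (m (nat_lit 0x131a18)) e)) (c (c (m (nat_lit 0x1336b0)) e) e))) (c (c (c (p (nat_lit 0x99aa4c)) (c (m (nat_lit 0x3013b0)) e)) (c (c (m (nat_lit 0x3013b0)) e) e)) (c (c (c (m (nat_lit 0x4cdc28)) e) e) e))) (c (c (c (c (m (nat_lit 0x860e158)) (c (m (nat_lit 0x99714)) e)) (c (c (m (nat_lit 0x99714)) e) e)) (c (c (c (p (nat_lit 0xd50)) e) e) e)) (c (c (c (c (m (nat_lit 0x132504)) e) e) e) e))) (c (c (c (c (c (p (nat_lit 0x4cba08)) (c (m (nat_lit 0x98d30)) e)) (c (c (m (nat_lit 0x98d30)) e) e)) (c (c (c (m (nat_lit 0x131b68)) e) e) e)) (c (c (c (c (m (nat_lit 0x16e138)) e) e) e) e)) (c (c (c (c (c (m (nat_lit 0x2658d8))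 e) e) e) e) e))) (c (c (c (c (c (c (p (nat_lit 0x4366c8)) (c (m (nat_lit 0x1ce0fc)) e)) (c (c (p (nat_lit 0x98b44)) e) e)) (c (c (c (m (nat_lit 0x268890)) e) e) e)) (c (c (c (c (m (nat_lit 0x992e8)) e) e) e) e)) (c (c (c (c (c (m (nat_lit 0x266070)) e) e) e) e) e)) (c (c (c (c (c (c (m (nat_lit 0x1cca40)) e) e) e) e) e) e))) (c (c (c (c (c (c (c (m (nat_lit 0x5de1a08)) (c (p (nat_lit 0x5fac240)) e)) (c (c (m (nat_lit 0x131e08)) e) e)) (c (c (c (p (nat_lit 0x5f13330)) e) e) e)) (c (c (c (c (p (nat_lit 0x4316cc4)) e) e) e) e)) (c (c (c (c (c (m (nat_lit 0x1319ac)) e) e) e) e) e)) (c (c (c (c (c (c (p (nat_lit 0x5f13780)) e) e) e) e) e) e)) (c (c (c (c (c (c (c (m (nat_lit 0x1319d0)) e) e) e) e) e) e) e))) (c (c (c (c (c (c (c (c (p (nat_lit 0x4366c8)) (c (p (nat_lit 0x98b44)) e)) (c (c (m (nat_lit 0x1ce0fc)) e) e)) (c (c (c (m (nat_lit 0x268890))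 e) e) e)) (c (c (c (c (m (nat_lit 0x992e8)) e) e) e) e)) (c (c (c (c (c (m (nat_lit 0x266070)) e) e) e) e) e)) (c (c (c (c (c (c (m (nat_lit 0x1327b0)) e) e) e) e) e) e)) (c (c (c (c (c (c (c (m (nat_lit 0x131bd4)) e) e) e) e) e) e) e)) (c (c (c (c (c (c (c (c (m (nat_lit 0x1cca40)) e) e) e) e) e) e) e) e))) (c (c (c (c (c (c (c (c (c (m (nat_lit 0x5de1a08)) (c (m (nat_lit 0x131e08)) e)) (c (c (p (nat_lit 0x5fac240)) e) e)) (c (c (c (p (nat_lit 0x5f13330)) e) e) e)) (c (c (c (c (p (nat_lit 0x4316cc4)) e) e) e) e)) (c (c (c (c (c (m (nat_lit 0x1319ac)) e) e) e) e) e)) (c (c (c (c (c (c (m (nat_lit 0x131bd4)) e) e) e) e) e) e)) (c (c (c (c (c (c (c (m (nat_lit 0x263400)) e) e) e) e) e) e) e)) (c (c (c (c (c (c (c (c (p (nat_lit 0x5f13780)) e) e) e) e) e) e) e) e)) (c (c (c (c (c (c (c (c (c (m (nat_lit 0x1319d0)) e) e) e) e) e) e) e) e)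 e))) (c (c (c (c (c (c (c (c (c (c (p (nat_lit 0x4c7238)) (c (m (nat_lit 0x98fa0)) e)) (c (c (m (nat_lit 0x98fa0)) e) e)) (c (c (c (m (nat_lit 0x131c4c)) e) e) e)) (c (c (c (c (m (nat_lit 0x13695c)) e) e) e) e)) (c (c (c (c (c (m (nat_lit 0x131e98)) e) e) e) e) e)) (c (c (c (c (c (c (m (nat_lit 0x98e44)) e) e) e) e) e) e)) (c (c (c (c (c (c (c (m (nat_lit 0x1319e8)) e) e) e) e) e) e) e)) (c (c (c (c (c (c (c (c (m (nat_lit 0x98e44)) e) e) e) e) e) e) e) e)) (c (c (c (c (c (c (c (c (c (m (nat_lit 0x1319e8)) e) e) e) e) e) e) e) e) e)) (c (c (c (c (c (c (c (c (c (c (m (nat_lit 0x131a00)) e) e) e) e) e) e) e) e) e) e)))))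

theorem c1 : trsOK col trs = true := by decide +kernel
theorem c2 : Nat.ble (Nat.mul (nat_lit 40) (nat_lit 4556)) (nat_lit 4294967295) = true := by decide +kernel
theorem c3 : Nat.beq (tabK (nat_lit 40) (List.ofFn s10)) kt = true := by decide +kernel
theorem c4 : okE trs E = true := by decide +kernel
theorem c5 : dE E (nat_lit 4) = true := by decide +kernel
theorem c6 : cmpK (nat_lit 10) (nat_lit 4) kt E T = true := by decide +kernel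
theorem c7 : bndK (nat_lit 10) (nat_lit 4) (Nat.pow (nat_lit 2) (nat_lit 40)) E T = true := by decide +kernel

theorem c0 : Fl.codeB col = 11 := by decide +kernel

theorem own : Fl.OwnOK 4 T 11 :=
  own_ok c0 c1 c2 c3 c4 c5 c6 c7

end H11

end Own

end HR
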