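import Pool.Agent.Lib.MP_a1b8b7_co.B.OwnOK

set_option autoImplicit false

namespace HR

namespace Own

namespace H116

open Chk

def col : Fin 10 → Bool := ![false, false, true, false, true, true, true, false, false, false]

def trs : List ℕ := [nat_lit 1346]

def kt : ℕ := nat_lit 0x27000000c300000333000008610000174f00003ace000082b60000e3250001a64c0002b614

open Ex in
noncomputable def E : Ex := (a (a (a (a (u (nat_lit 9) (v (nat_lit 9) (v (nat_lit 9) (v (nat_lit 9) (k (nat_lit 0x131a24)))))) (v (nat_lit 8) (a (u (nat_lit 9) (v (nat_lit 9) (v (nat_lit 9) (k (nat_lit 0x98d90))))) (v (nat_lit 8) (u (nat_lit 9) (v (nat_lit 9) (k (nat_lit 0x98dc0)))))))) (a (u (nat_lit 8) (v (nat_lit 8) (a (v (nat_lit 9) (v (nat_lit 9) (k (nat_lit 0x98dc0)))) (v (nat_lit 8) (a (v (nat_lit 9) (k (nat_lit 0x98d90))) (v (nat_lit 8) (k (nat_lit 0x131a24))))))))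 (a (v (nat_lit 7) (a (a (u (nat_lit 9) (v (nat_lit 9) (v (nat_lit 9) (k (nat_lit 0x98d90))))) (v (nat_lit 8) (v (nat_lit 8) (u (nat_lit 9) (k (nat_lit 0x98dde)))))) (a (u (nat_lit 8) (a (v (nat_lit 9) (v (nat_lit 9) (k (nat_lit 0x98dde)))) (v (nat_lit 8) (v (nat_lit 8) (k (nat_lit 0x98d90)))))) (v (nat_lit 7) (a (u (nat_lit 9) (v (nat_lit 9) (k (nat_lit 0x98dc0)))) (a (v (nat_lit 8) (u (nat_lit 9) (k (nat_lit 0x98dde)))) (u (nat_lit 8) (a (v (nat_lit 9) (k (nat_lit 0x98dde))) (v (nat_lit 8) (k (nat_lit 0x98dc0))))))))))) (u (nat_lit 7) (a (v (nat_lit 8) (a (v (nat_lit 9) (v (nat_lit 9) (k (nat_lit 0x98dde)))) (v (nat_lit 8) (v (nat_lit 9) (k (nat_lit 0x98dde)))))) (v (nat_lit 7) (a (v (nat_lit 9) (v (nat_lit 9) (k (nat_lit 0x98dc0)))) (a (v (nat_lit 8) (v (nat_lit 8) (k (nat_lit 0x98dc0)))) (v (nat_lit 7) (a (v (nat_lit 9) (k (nat_lit 0x98d90)))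 (a (v (nat_lit 8) (k (nat_lit 0x98d90))) (v (nat_lit 7) (k (nat_lit 0x131a24)))))))))))))) (a (a (v (nat_lit 6) (a (a (u (nat_lit 9) (v (nat_lit 9) (v (nat_lit 9) (k (nat_lit 0x131acc))))) (a (v (nat_lit 8) (u (nat_lit 9) (v (nat_lit 9) (k (nat_lit 0x99054))))) (u (nat_lit 8) (v (nat_lit 8) (a (v (nat_lit 9) (k (nat_lit 0x99054))) (v (nat_lit 8) (k (nat_lit 0x131acc)))))))) (a (v (nat_lit 7) (a (u (nat_lit 9) (v (nat_lit 9) (k (nat_lit 0x99054)))) (a (v (nat_lit 8) (u (nat_lit 9) (k (nat_lit 0x132534)))) (u (nat_lit 8) (a (v (nat_lit 9) (k (nat_lit 0x132534))) (v (nat_lit 8) (k (nat_lit 0x99054)))))))) (a (u (nat_lit 7) (a (v (nat_lit 8) (v (nat_lit 9) (k (nat_lit 0x132534)))) (v (nat_lit 7) (a (v (nat_lit 9) (k (nat_lit 0x99054))) (a (v (nat_lit 8) (k (nat_lit 0x99054))) (v (nat_lit 7) (k (nat_lit 0x131acc)))))))) (v (nat_lit 6) (a (a (u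 (nat_lit 9) (v (nat_lit 9) (k (nat_lit 0x131a0c)))) (v (nat_lit 8) (u (nat_lit 9) (k (nat_lit 0x98cb8))))) (a (u (nat_lit 8) (a (v (nat_lit 9) (k (nat_lit 0x98cb8))) (v (nat_lit 8) (k (nat_lit 0x131a0c))))) (a (v (nat_lit 7) (a (u (nat_lit 9) (k (nat_lit 0x98cb8))) (u (nat_lit 8) (k (nat_lit 0x98cb8))))) (u (nat_lit 7) (a (v (nat_lit 9) (k (nat_lit 0x98cb8))) (a (v (nat_lit 8) (k (nat_lit 0x98cb8))) (v (nat_lit 7) (k (nat_lit 0x131a0c)))))))))))))) (u (nat_lit 6) (a (v (nat_lit 6) (v (nat_lit 6) (a (a (v (nat_lit 9) (k (nat_lit 0x131a54))) (v (nat_lit 8) (k (nat_lit 0x131a54)))) (a (v (nat_lit 7) (k (nat_lit 0x131a54))) (v (nat_lit 6) (k (nat_lit 0x729468))))))) (u (nat_lit 6) (a (v (nat_lit 6) (v (nat_lit 6) (k (nat_lit 0x729978)))) (u (nat_lit 6) (v (nat_lit 6) (k (nat_lit 0x729bb8))))))))) (a (v (nat_lit 5) (a (a (u (nat_lit 9) (v (nat_lit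 9) (v (nat_lit 9) (k (nat_lit 0x98d6c))))) (a (u (nat_lit 8) (v (nat_lit 8) (v (nat_lit 8) (k (nat_lit 0x98d6c))))) (v (nat_lit 7) (a (u (nat_lit 9) (v (nat_lit 9) (k (nat_lit 0x98e98)))) (a (u (nat_lit 8) (v (nat_lit 8) (k (nat_lit 0x98e98)))) (v (nat_lit 7) (a (u (nat_lit 9) (k (nat_lit 0x98dd8))) (u (nat_lit 8) (k (nat_lit 0x98dd8)))))))))) (a (a (u (nat_lit 7) (a (v (nat_lit 9) (v (nat_lit 9) (k (nat_lit 0x98c88)))) (a (v (nat_lit 8) (v (nat_lit 8) (k (nat_lit 0x98c88)))) (v (nat_lit 7) (v (nat_lit 7) (k (nat_lit 0x131b68))))))) (v (nat_lit 6) (a (u (nat_lit 9) (v (nat_lit 9) (k (nat_lit 0x27c20b8)))) (u (nat_lit 8) (v (nat_lit 8) (k (nat_lit 0x27c20b8))))))) (a (u (nat_lit 6) (a (a (v (nat_lit 9) (v (nat_lit 9) (k (nat_lit 0x98cb8)))) (v (nat_lit 8) (v (nat_lit 8) (k (nat_lit 0x98cb8))))) (a (v (nat_lit 7) (a (v (nat_lit 9) (k (nat_lit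 0x98bf8))) (a (v (nat_lit 8) (k (nat_lit 0x98bf8))) (v (nat_lit 7) (k (nat_lit 0x1319f4)))))) (a (v (nat_lit 6) (v (nat_lit 6) (k (nat_lit 0x261480)))) (u (nat_lit 6) (v (nat_lit 6) (k (nat_lit 0x261cf0)))))))) (v (nat_lit 5) (a (a (u (nat_lit 9) (v (nat_lit 9) (k (nat_lit 0x98e68)))) (u (nat_lit 8) (v (nat_lit 8) (k (nat_lit 0x98e68))))) (a (u (nat_lit 7) (v (nat_lit 7) (k (nat_lit 0x131a3c)))) (u (nat_lit 6) (a (a (v (nat_lit 9) (k (nat_lit 0x98d54))) (v (nat_lit 8) (k (nat_lit 0x98d54)))) (a (v (nat_lit 7) (k (nat_lit 0x131964))) (v (nat_lit 6) (k (nat_lit 0x263e20))))))))))))) (a (u (nat_lit 5) (a (a (v (nat_lit 8) (a (v (nat_lit 9) (v (nat_lit 9) (k (nat_lit 0x98d18)))) (v (nat_lit 8) (v (nat_lit 9) (k (nat_lit 0x98d18)))))) (v (nat_lit 7) (a (v (nat_lit 8) (v (nat_lit 9) (k (nat_lit 0x131a78)))) (v (nat_lit 7) (a (v (nat_lit 9) (k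 (nat_lit 0x98c28))) (v (nat_lit 8) (k (nat_lit 0x98c28)))))))) (a (v (nat_lit 6) (a (a (v (nat_lit 8) (v (nat_lit 9) (k (nat_lit 0x131bf8)))) (v (nat_lit 7) (a (v (nat_lit 9) (k (nat_lit 0x98f1c))) (v (nat_lit 8) (k (nat_lit 0x98f1c)))))) (a (u (nat_lit 7) (v (nat_lit 7) (k (nat_lit 0x3ed43bf0)))) (v (nat_lit 6) (a (v (nat_lit 9) (k (nat_lit 0x98cac))) (a (v (nat_lit 8) (k (nat_lit 0x98cac))) (v (nat_lit 7) (k (nat_lit 0x132168))))))))) (a (v (nat_lit 5) (a (a (v (nat_lit 8) (v (nat_lit 9) (k (nat_lit 0x131ab4)))) (v (nat_lit 7) (a (v (nat_lit 9) (k (nat_lit 0x98db4))) (v (nat_lit 8) (k (nat_lit 0x98db4)))))) (a (v (nat_lit 6) (v (nat_lit 6) (k (nat_lit 0x262710)))) (a (u (nat_lit 6) (a (v (nat_lit 9) (k (nat_lit 0x98d6c))) (v (nat_lit 8) (k (nat_lit 0x98d6c))))) (v (nat_lit 5) (a (a (v (nat_lit 9) (k (nat_lit 0x98dcc))) (a (v (nat_lit 8)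 (k (nat_lit 0x98dcc))) (v (nat_lit 7) (k (nat_lit 0x13155c))))) (a (v (nat_lit 6) (k (nat_lit 0x262d88))) (a (u (nat_lit 6) (k (nat_lit 0x2635c8))) (v (nat_lit 5) (k (nat_lit 0x2631c0))))))))))) (u (nat_lit 5) (v (nat_lit 6) (v (nat_lit 7) (k (nat_lit 0x152e14))))))))) (v (nat_lit 4) (a (a (a (u (nat_lit 9) (v (nat_lit 9) (v (nat_lit 9) (k (nat_lit 0x98d6c))))) (v (nat_lit 8) (a (u (nat_lit 9) (v (nat_lit 9) (k (nat_lit 0x98e98)))) (v (nat_lit 8) (u (nat_lit 9) (k (nat_lit 0x98dd8))))))) (a (u (nat_lit 8) (a (v (nat_lit 9) (v (nat_lit 9) (k (nat_lit 0x98c88)))) (v (nat_lit 8) (v (nat_lit 8) (k (nat_lit 0x131b68)))))) (a (v (nat_lit 7) (v (nat_lit 7) (u (nat_lit 8) (k (nat_lit 0x98c88))))) (u (nat_lit 7) (a (v (nat_lit 8) (v (nat_lit 8) (k (nat_lit 0x98dd8)))) (v (nat_lit 7) (a (v (nat_lit 8) (k (nat_lit 0x98e98))) (v (nat_lit 7) (k (nat_lit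 0x98d6c)))))))))) (a (a (v (nat_lit 6) (a (u (nat_lit 9) (v (nat_lit 9) (k (nat_lit 0x27c20b8)))) (u (nat_lit 7) (v (nat_lit 7) (k (nat_lit 0x27c20b8)))))) (u (nat_lit 6) (a (a (v (nat_lit 9) (v (nat_lit 9) (k (nat_lit 0x98cb8)))) (v (nat_lit 8) (a (v (nat_lit 9) (k (nat_lit 0x98bf8))) (v (nat_lit 8) (k (nat_lit 0x1319f4)))))) (a (v (nat_lit 7) (a (v (nat_lit 8) (k (nat_lit 0x98bf8))) (v (nat_lit 7) (k (nat_lit 0x98cb8))))) (a (v (nat_lit 6) (v (nat_lit 6) (k (nat_lit 0x261480)))) (u (nat_lit 6) (v (nat_lit 6) (k (nat_lit 0x261cf0))))))))) (a (v (nat_lit 5) (a (a (u (nat_lit 9) (v (nat_lit 9) (k (nat_lit 0x131b08)))) (u (nat_lit 8) (v (nat_lit 8) (k (nat_lit 0x98cf4))))) (a (u (nat_lit 7) (v (nat_lit 7) (k (nat_lit 0x98cf4)))) (u (nat_lit 6) (a (a (v (nat_lit 9) (k (nat_lit 0x131988))) (v (nat_lit 8) (k (nat_lit 0x98f28)))) (a (v (nat_lit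 7) (k (nat_lit 0x98f28))) (v (nat_lit 6) (k (nat_lit 0x2634d8))))))))) (a (u (nat_lit 5) (a (v (nat_lit 8) (v (nat_lit 9) (k (nat_lit 0x98d60)))) (a (v (nat_lit 7) (v (nat_lit 8) (k (nat_lit 0x98cb8)))) (v (nat_lit 5) (a (a (v (nat_lit 9) (k (nat_lit 0x98c1c))) (a (v (nat_lit 8) (k (nat_lit 0x98d90))) (v (nat_lit 7) (k (nat_lit 0x99348))))) (a (v (nat_lit 6) (k (nat_lit 0x131e80))) (a (u (nat_lit 6) (k (nat_lit 0x131400))) (v (nat_lit 5) (k (nat_lit 0x1319f4)))))))))) (v (nat_lit 4) (a (a (u (nat_lit 9) (v (nat_lit 9) (k (nat_lit 0x98e68)))) (u (nat_lit 8) (v (nat_lit 8) (k (nat_lit 0x131a3c))))) (a (u (nat_lit 7) (v (nat_lit 7) (k (nat_lit 0x98e68)))) (a (u (nat_lit 6) (a (a (v (nat_lit 9) (k (nat_lit 0x98d54))) (v (nat_lit 8) (k (nat_lit 0x131964)))) (a (v (nat_lit 7) (k (nat_lit 0x98d54))) (v (nat_lit 6) (k (nat_lit 0x263e20)))))) (u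 (nat_lit 5) (a (u (nat_lit 6) (k (nat_lit 0x1328d0))) (v (nat_lit 5) (k (nat_lit 0x1318c8)))))))))))))))))) (a (a (a (u (nat_lit 4) (a (a (v (nat_lit 8) (v (nat_lit 8) (v (nat_lit 9) (k (nat_lit 0x98c28))))) (a (v (nat_lit 7) (a (v (nat_lit 9) (v (nat_lit 9) (k (nat_lit 0x98d18)))) (a (v (nat_lit 8) (a (v (nat_lit 9) (k (nat_lit 0x131a78))) (v (nat_lit 8) (k (nat_lit 0x98c28))))) (v (nat_lit 7) (v (nat_lit 9) (k (nat_lit 0x98d18))))))) (v (nat_lit 6) (a (a (v (nat_lit 8) (v (nat_lit 9) (k (nat_lit 0x98f1c)))) (u (nat_lit 8) (v (nat_lit 8) (k (nat_lit 0x3ed43bf0))))) (a (v (nat_lit 7) (a (v (nat_lit 9) (k (nat_lit 0x131bf8))) (v (nat_lit 8) (k (nat_lit 0x98f1c))))) (v (nat_lit 6) (a (v (nat_lit 9) (k (nat_lit 0x98cac))) (a (v (nat_lit 8) (k (nat_lit 0x132168))) (v (nat_lit 7) (k (nat_lit 0x98cac))))))))))) (a (a (v (nat_lit 5) (a (v (nat_lit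 7) (a (v (nat_lit 9) (k (nat_lit 0x98d60))) (v (nat_lit 8) (k (nat_lit 0x98cb8))))) (v (nat_lit 5) (u (nat_lit 6) (k (nat_lit 0x1328d0)))))) (u (nat_lit 5) (a (u (nat_lit 6) (a (u (nat_lit 8) (k (nat_lit 0x98fe8))) (u (nat_lit 7) (k (nat_lit 0x98fe8))))) (v (nat_lit 5) (v (nat_lit 7) (k (nat_lit 0x9924c))))))) (a (v (nat_lit 4) (a (a (v (nat_lit 8) (v (nat_lit 9) (k (nat_lit 0x98db4)))) (a (v (nat_lit 7) (a (v (nat_lit 9) (k (nat_lit 0x131ab4))) (v (nat_lit 8) (k (nat_lit 0x98db4))))) (v (nat_lit 6) (v (nat_lit 6) (k (nat_lit 0x262710)))))) (a (a (u (nat_lit 6) (a (v (nat_lit 9) (k (nat_lit 0x98d6c))) (v (nat_lit 7) (k (nat_lit 0x98d6c))))) (v (nat_lit 5) (a (a (v (nat_lit 9) (k (nat_lit 0x98c1c))) (a (v (nat_lit 8) (k (nat_lit 0x99348))) (v (nat_lit 7) (k (nat_lit 0x98d90))))) (a (v (nat_lit 6) (k (nat_lit 0x131e80))) (a (u (nat_lit 6)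 (k (nat_lit 0x131400))) (v (nat_lit 5) (k (nat_lit 0x1318c8)))))))) (a (u (nat_lit 5) (v (nat_lit 8) (k (nat_lit 0x9924c)))) (v (nat_lit 4) (a (a (v (nat_lit 9) (k (nat_lit 0x98dcc))) (a (v (nat_lit 8) (k (nat_lit 0x13155c))) (v (nat_lit 7) (k (nat_lit 0x98dcc))))) (a (a (v (nat_lit 6) (k (nat_lit 0x262d88))) (u (nat_lit 6) (k (nat_lit 0x2635c8)))) (a (v (nat_lit 5) (k (nat_lit 0x1319f4))) (v (nat_lit 4) (k (nat_lit 0x2631c0))))))))))) (u (nat_lit 4) (v (nat_lit 6) (v (nat_lit 8) (k (nat_lit 0x152e14))))))))) (v (nat_lit 3) (a (a (a (u (nat_lit 9) (v (nat_lit 9) (v (nat_lit 9) (k (nat_lit 0x131b80))))) (a (v (nat_lit 8) (v (nat_lit 8) (u (nat_lit 9) (k (nat_lit 0x99fcc))))) (u (nat_lit 8) (a (v (nat_lit 9) (v (nat_lit 9) (k (nat_lit 0x98d60)))) (v (nat_lit 8) (a (v (nat_lit 9) (k (nat_lit 0x999d8))) (v (nat_lit 8) (k (nat_lit 0x999f0)))))))))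 (a (v (nat_lit 7) (a (u (nat_lit 8) (v (nat_lit 9) (k (nat_lit 0x992d0)))) (v (nat_lit 7) (a (u (nat_lit 9) (k (nat_lit 0x99fcc))) (u (nat_lit 8) (k (nat_lit 0x1f92fa2))))))) (a (u (nat_lit 7) (a (v (nat_lit 9) (v (nat_lit 9) (k (nat_lit 0x98d60)))) (a (v (nat_lit 8) (a (v (nat_lit 9) (k (nat_lit 0x992d0))) (v (nat_lit 8) (k (nat_lit 0x1f92fa2))))) (v (nat_lit 7) (a (v (nat_lit 9) (k (nat_lit 0x999d8))) (v (nat_lit 7) (k (nat_lit 0x999f0)))))))) (v (nat_lit 6) (a (a (u (nat_lit 9) (v (nat_lit 9) (k (nat_lit 0x131b20)))) (u (nat_lit 8) (v (nat_lit 9) (k (nat_lit 0x98e80))))) (a (u (nat_lit 7) (v (nat_lit 9) (k (nat_lit 0x98e80)))) (v (nat_lit 6) (a (u (nat_lit 9) (k (nat_lit 0x1319d0))) (a (u (nat_lit 8) (k (nat_lit 0x98ca6))) (u (nat_lit 7) (k (nat_lit 0x98ca6)))))))))))) (a (a (u (nat_lit 6) (a (a (v (nat_lit 8) (u (nat_lit 9) (k (nat_lit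 0x56ea89e)))) (u (nat_lit 8) (v (nat_lit 8) (k (nat_lit 0x99b22))))) (a (v (nat_lit 7) (u (nat_lit 9) (k (nat_lit 0x56ea89e)))) (a (u (nat_lit 7) (v (nat_lit 7) (k (nat_lit 0x99b22)))) (v (nat_lit 6) (a (v (nat_lit 8) (k (nat_lit 0x13ab5c))) (a (v (nat_lit 7) (k (nat_lit 0x13ab5c))) (v (nat_lit 6) (k (nat_lit 0x131a54)))))))))) (a (v (nat_lit 5) (a (a (u (nat_lit 9) (v (nat_lit 9) (k (nat_lit 0x98e2c)))) (a (v (nat_lit 8) (u (nat_lit 9) (k (nat_lit 0x989c4)))) (u (nat_lit 8) (v (nat_lit 9) (k (nat_lit 0x99990)))))) (a (a (v (nat_lit 7) (u (nat_lit 8) (k (nat_lit 0xb1a32)))) (u (nat_lit 7) (v (nat_lit 9) (k (nat_lit 0x98fb8))))) (a (v (nat_lit 6) (a (u (nat_lit 8) (k (nat_lit 0x9910e))) (u (nat_lit 7) (k (nat_lit 0x98efe))))) (v (nat_lit 5) (a (u (nat_lit 7) (k (nat_lit 0x983d0))) (u (nat_lit 6) (k (nat_lit 0x98d54))))))))) (u (nat_lit 5)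 (a (a (v (nat_lit 9) (v (nat_lit 9) (k (nat_lit 0x98fac)))) (v (nat_lit 8) (v (nat_lit 8) (k (nat_lit 0x98e2c))))) (a (v (nat_lit 7) (a (v (nat_lit 8) (k (nat_lit 0x9887a))) (v (nat_lit 7) (k (nat_lit 0x98e38))))) (a (v (nat_lit 6) (a (v (nat_lit 9) (k (nat_lit 0x131a48))) (a (v (nat_lit 8) (k (nat_lit 0x1316c4))) (v (nat_lit 6) (k (nat_lit 0x98cac)))))) (v (nat_lit 5) (a (a (v (nat_lit 9) (k (nat_lit 0x131af0))) (v (nat_lit 8) (k (nat_lit 0x131cb8)))) (a (v (nat_lit 7) (k (nat_lit 0x99174))) (a (u (nat_lit 6) (k (nat_lit 0x98d6c))) (v (nat_lit 5) (k (nat_lit 0x98dcc))))))))))))) (a (v (nat_lit 4) (a (a (a (u (nat_lit 9) (v (nat_lit 9) (k (nat_lit 0x98e2c)))) (u (nat_lit 8) (v (nat_lit 9) (k (nat_lit 0x98fb8))))) (a (v (nat_lit 7) (u (nat_lit 9) (k (nat_lit 0x989c4)))) (u (nat_lit 7) (a (v (nat_lit 9) (k (nat_lit 0x99990))) (v (nat_lit 8)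 (k (nat_lit 0xb1a32))))))) (a (a (v (nat_lit 6) (a (u (nat_lit 8) (k (nat_lit 0x98efe))) (u (nat_lit 7) (k (nat_lit 0x9910e))))) (v (nat_lit 5) (a (u (nat_lit 8) (k (nat_lit 0x98d7e))) (a (u (nat_lit 7) (k (nat_lit 0x98d7e))) (u (nat_lit 6) (k (nat_lit 0x131988))))))) (a (u (nat_lit 5) (a (a (v (nat_lit 9) (k (nat_lit 0x130db8))) (v (nat_lit 8) (k (nat_lit 0x98526)))) (a (v (nat_lit 7) (k (nat_lit 0x997bc))) (v (nat_lit 5) (k (nat_lit 0x98c1c)))))) (v (nat_lit 4) (a (u (nat_lit 8) (k (nat_lit 0x983d0))) (u (nat_lit 6) (k (nat_lit 0x98d54))))))))) (a (u (nat_lit 4) (a (a (v (nat_lit 9) (v (nat_lit 9) (k (nat_lit 0x98fac)))) (a (v (nat_lit 8) (v (nat_lit 8) (k (nat_lit 0x98e38)))) (v (nat_lit 7) (a (v (nat_lit 8) (k (nat_lit 0x9887a))) (v (nat_lit 7) (k (nat_lit 0x98e2c))))))) (a (v (nat_lit 6) (a (v (nat_lit 9) (k (nat_lit 0x131a48))) (a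 (v (nat_lit 7) (k (nat_lit 0x1316c4))) (v (nat_lit 6) (k (nat_lit 0x98cac)))))) (a (v (nat_lit 5) (a (v (nat_lit 9) (k (nat_lit 0x130db8))) (a (v (nat_lit 8) (k (nat_lit 0x997bc))) (v (nat_lit 7) (k (nat_lit 0x98526)))))) (v (nat_lit 4) (a (a (v (nat_lit 9) (k (nat_lit 0x131af0))) (a (v (nat_lit 8) (k (nat_lit 0x99174))) (v (nat_lit 7) (k (nat_lit 0x131cb8))))) (a (u (nat_lit 6) (k (nat_lit 0x98d6c))) (a (v (nat_lit 5) (k (nat_lit 0x98c1c))) (v (nat_lit 4) (k (nat_lit 0x98dcc))))))))))) (v (nat_lit 3) (a (a (a (u (nat_lit 9) (v (nat_lit 9) (k (nat_lit 0x131b44)))) (v (nat_lit 8) (u (nat_lit 9) (k (nat_lit 0x99ac8))))) (a (u (nat_lit 8) (v (nat_lit 8) (k (nat_lit 0x99588)))) (a (v (nat_lit 7) (a (u (nat_lit 9) (k (nat_lit 0x99ac8))) (u (nat_lit 8) (k (nat_lit 0x997b6))))) (u (nat_lit 7) (a (v (nat_lit 8) (k (nat_lit 0x997b6))) (a (u (nat_lit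 8) (k (nat_lit 0x131b74))) (v (nat_lit 7) (k (nat_lit 0x99588))))))))) (a (a (v (nat_lit 6) (a (u (nat_lit 9) (k (nat_lit 0x1319b8))) (a (u (nat_lit 8) (k (nat_lit 0x984e4))) (u (nat_lit 7) (k (nat_lit 0x984e4)))))) (a (v (nat_lit 5) (u (nat_lit 6) (k (nat_lit 0x98cb8)))) (u (nat_lit 5) (a (v (nat_lit 9) (k (nat_lit 0x98fac))) (a (v (nat_lit 8) (k (nat_lit 0x98e2c))) (v (nat_lit 7) (k (nat_lit 0x98f9a)))))))) (a (v (nat_lit 4) (u (nat_lit 6) (k (nat_lit 0x98cb8)))) (a (u (nat_lit 4) (a (v (nat_lit 9) (k (nat_lit 0x98fac))) (a (v (nat_lit 8) (k (nat_lit 0x98f9a))) (v (nat_lit 7) (k (nat_lit 0x98e2c)))))) (v (nat_lit 3) (a (u (nat_lit 8) (k (nat_lit 0x98bf8))) (u (nat_lit 7) (k (nat_lit 0x98bf8)))))))))))))))) (a (u (nat_lit 3) (a (a (a (v (nat_lit 8) (v (nat_lit 8) (v (nat_lit 8) (k (nat_lit 0x98bf8))))) (v (nat_lit 7) (a (v (nat_lit 8) (a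 (v (nat_lit 9) (k (nat_lit 0x1319d0))) (v (nat_lit 8) (k (nat_lit 0x98e0e))))) (v (nat_lit 7) (a (v (nat_lit 8) (k (nat_lit 0x98e0e))) (v (nat_lit 7) (k (nat_lit 0x98bf8)))))))) (a (v (nat_lit 6) (a (a (v (nat_lit 9) (v (nat_lit 9) (k (nat_lit 0x1319b8)))) (a (v (nat_lit 8) (a (v (nat_lit 9) (k (nat_lit 0x9939c))) (v (nat_lit 8) (k (nat_lit 0x984e4))))) (u (nat_lit 8) (v (nat_lit 8) (k (nat_lit 0x984d2)))))) (a (v (nat_lit 7) (a (v (nat_lit 9) (k (nat_lit 0x9939c))) (a (v (nat_lit 8) (k (nat_lit 0x131bf8))) (v (nat_lit 7) (k (nat_lit 0x984e4)))))) (a (u (nat_lit 7) (v (nat_lit 7) (k (nat_lit 0x984d2)))) (v (nat_lit 6) (a (v (nat_lit 9) (k (nat_lit 0x1319d0))) (a (v (nat_lit 8) (k (nat_lit 0x98ca6))) (v (nat_lit 7) (k (nat_lit 0x98ca6)))))))))) (u (nat_lit 6) (a (v (nat_lit 8) (u (nat_lit 9) (k (nat_lit 0x98562)))) (v (nat_lit 7) (u (nat_lit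 9) (k (nat_lit 0x98562)))))))) (a (a (v (nat_lit 5) (a (v (nat_lit 7) (v (nat_lit 8) (k (nat_lit 0x98fb8)))) (a (v (nat_lit 6) (a (v (nat_lit 8) (k (nat_lit 0x9910e))) (v (nat_lit 7) (k (nat_lit 0x98c3a))))) (v (nat_lit 5) (v (nat_lit 7) (k (nat_lit 0x98a96))))))) (u (nat_lit 5) (v (nat_lit 5) (u (nat_lit 7) (k (nat_lit 0x99456)))))) (a (v (nat_lit 4) (a (v (nat_lit 7) (v (nat_lit 8) (k (nat_lit 0x98fb8)))) (a (v (nat_lit 6) (a (v (nat_lit 8) (k (nat_lit 0x98c3a))) (v (nat_lit 7) (k (nat_lit 0x9910e))))) (v (nat_lit 4) (v (nat_lit 8) (k (nat_lit 0x98a96))))))) (a (u (nat_lit 4) (v (nat_lit 4) (u (nat_lit 8) (k (nat_lit 0x99456))))) (v (nat_lit 3) (a (a (a (v (nat_lit 9) (v (nat_lit 9) (k (nat_lit 0x131b44)))) (v (nat_lit 8) (v (nat_lit 8) (k (nat_lit 0x99588))))) (a (v (nat_lit 7) (a (v (nat_lit 8) (k (nat_lit 0x1321ec))) (v (nat_lit 7)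 (k (nat_lit 0x99588))))) (v (nat_lit 6) (a (a (v (nat_lit 9) (k (nat_lit 0x131b20))) (u (nat_lit 8) (k (nat_lit 0x984d2)))) (a (u (nat_lit 7) (k (nat_lit 0x984d2))) (v (nat_lit 6) (k (nat_lit 0x131a0c)))))))) (a (a (u (nat_lit 6) (a (v (nat_lit 8) (k (nat_lit 0x99b22))) (v (nat_lit 7) (k (nat_lit 0x99b22))))) (v (nat_lit 5) (a (a (v (nat_lit 9) (k (nat_lit 0x98e2c))) (v (nat_lit 7) (k (nat_lit 0x83a3426)))) (a (v (nat_lit 6) (k (nat_lit 0x27c20b8))) (v (nat_lit 5) (k (nat_lit 0x98e68))))))) (a (v (nat_lit 4) (a (a (v (nat_lit 9) (k (nat_lit 0x98e2c))) (v (nat_lit 8) (k (nat_lit 0x83a3426)))) (a (v (nat_lit 6) (k (nat_lit 0x27c20b8))) (a (v (nat_lit 5) (k (nat_lit 0x131b08))) (v (nat_lit 4) (k (nat_lit 0x98e68))))))) (v (nat_lit 3) (a (a (v (nat_lit 9) (k (nat_lit 0x131b80))) (a (v (nat_lit 8) (k (nat_lit 0x999f0))) (v (nat_lit 7) (k (nat_lit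 0x999f0))))) (a (a (v (nat_lit 6) (k (nat_lit 0x131acc))) (v (nat_lit 5) (k (nat_lit 0x98d6c)))) (a (v (nat_lit 4) (k (nat_lit 0x98d6c))) (v (nat_lit 3) (k (nat_lit 0x131a24)))))))))))))))) (a (v (nat_lit 2) (a (a (a (u (nat_lit 9) (v (nat_lit 9) (v (nat_lit 9) (k (nat_lit 0x131b68))))) (a (v (nat_lit 8) (v (nat_lit 8) (u (nat_lit 9) (k (nat_lit 0x98c88))))) (u (nat_lit 8) (a (v (nat_lit 9) (v (nat_lit 9) (k (nat_lit 0x98dd8)))) (v (nat_lit 8) (a (v (nat_lit 9) (k (nat_lit 0x98e98))) (v (nat_lit 8) (k (nat_lit 0x98d6c))))))))) (a (a (v (nat_lit 7) (v (nat_lit 7) (u (nat_lit 9) (k (nat_lit 0x98c88))))) (u (nat_lit 7) (a (v (nat_lit 9) (v (nat_lit 9) (k (nat_lit 0x98dd8)))) (v (nat_lit 7) (a (v (nat_lit 9) (k (nat_lit 0x98e98))) (v (nat_lit 7) (k (nat_lit 0x98d6c)))))))) (a (v (nat_lit 6) (a (u (nat_lit 8) (v (nat_lit 8) (k (nat_lit 0x27c20b8))))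 (u (nat_lit 7) (v (nat_lit 7) (k (nat_lit 0x27c20b8)))))) (u (nat_lit 6) (a (a (v (nat_lit 9) (v (nat_lit 9) (k (nat_lit 0x1319f4)))) (v (nat_lit 8) (a (v (nat_lit 9) (k (nat_lit 0x98bf8))) (v (nat_lit 8) (k (nat_lit 0x98cb8)))))) (a (v (nat_lit 7) (a (v (nat_lit 9) (k (nat_lit 0x98bf8))) (v (nat_lit 7) (k (nat_lit 0x98cb8))))) (a (v (nat_lit 6) (v (nat_lit 6) (k (nat_lit 0x261480)))) (u (nat_lit 6) (v (nat_lit 6) (k (nat_lit 0x261cf0))))))))))) (a (a (v (nat_lit 5) (a (a (u (nat_lit 9) (v (nat_lit 9) (k (nat_lit 0x98cf4)))) (u (nat_lit 8) (v (nat_lit 8) (k (nat_lit 0x131b08))))) (a (u (nat_lit 7) (v (nat_lit 7) (k (nat_lit 0x98cf4)))) (u (nat_lit 6) (a (a (v (nat_lit 9) (k (nat_lit 0x98f28))) (v (nat_lit 8) (k (nat_lit 0x131988)))) (a (v (nat_lit 7) (k (nat_lit 0x98f28))) (v (nat_lit 6) (k (nat_lit 0x2634d8))))))))) (a (u (nat_lit 5) (a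 (v (nat_lit 8) (v (nat_lit 9) (k (nat_lit 0x98d60)))) (a (v (nat_lit 7) (v (nat_lit 9) (k (nat_lit 0x98cb8)))) (v (nat_lit 5) (a (a (v (nat_lit 9) (k (nat_lit 0x98d90))) (a (v (nat_lit 8) (k (nat_lit 0x98c1c))) (v (nat_lit 7) (k (nat_lit 0x99348))))) (a (v (nat_lit 6) (k (nat_lit 0x131e80))) (a (u (nat_lit 6) (k (nat_lit 0x131400))) (v (nat_lit 5) (k (nat_lit 0x1319f4)))))))))) (v (nat_lit 4) (a (a (u (nat_lit 9) (v (nat_lit 9) (k (nat_lit 0x98cf4)))) (a (u (nat_lit 8) (v (nat_lit 8) (k (nat_lit 0x98cf4)))) (u (nat_lit 7) (v (nat_lit 7) (k (nat_lit 0x131b08)))))) (a (u (nat_lit 6) (a (a (v (nat_lit 9) (k (nat_lit 0x98f28))) (v (nat_lit 8) (k (nat_lit 0x98f28)))) (a (v (nat_lit 7) (k (nat_lit 0x131988))) (v (nat_lit 6) (k (nat_lit 0x2634d8)))))) (a (u (nat_lit 5) (a (v (nat_lit 7) (k (nat_lit 0x131b80))) (a (v (nat_lit 6) (k (nat_lit 0x264180)))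 (v (nat_lit 5) (k (nat_lit 0x262518)))))) (v (nat_lit 4) (u (nat_lit 5) (k (nat_lit 0x132294)))))))))) (a (a (u (nat_lit 4) (a (a (v (nat_lit 8) (v (nat_lit 9) (k (nat_lit 0x98cb8)))) (v (nat_lit 7) (v (nat_lit 9) (k (nat_lit 0x98d60))))) (a (v (nat_lit 5) (a (v (nat_lit 8) (k (nat_lit 0x131b80))) (a (v (nat_lit 6) (k (nat_lit 0x264180))) (v (nat_lit 5) (k (nat_lit 0x132294)))))) (v (nat_lit 4) (a (a (v (nat_lit 9) (k (nat_lit 0x98d90))) (a (v (nat_lit 8) (k (nat_lit 0x99348))) (v (nat_lit 7) (k (nat_lit 0x98c1c))))) (a (a (v (nat_lit 6) (k (nat_lit 0x131e80))) (u (nat_lit 6) (k (nat_lit 0x131400)))) (a (v (nat_lit 5) (k (nat_lit 0x262518))) (v (nat_lit 4) (k (nat_lit 0x1319f4)))))))))) (v (nat_lit 3) (a (a (a (u (nat_lit 9) (v (nat_lit 9) (k (nat_lit 0x131e8c)))) (u (nat_lit 8) (a (v (nat_lit 9) (k (nat_lit 0x98c28))) (v (nat_lit 8) (k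 (nat_lit 0x83a3426)))))) (a (v (nat_lit 7) (u (nat_lit 8) (k (nat_lit 0x9ab6c)))) (a (u (nat_lit 7) (a (v (nat_lit 9) (k (nat_lit 0x98c28))) (a (v (nat_lit 8) (k (nat_lit 0x9ab6c))) (v (nat_lit 7) (k (nat_lit 0x83a3426)))))) (v (nat_lit 6) (a (u (nat_lit 9) (k (nat_lit 0x131d48))) (a (u (nat_lit 8) (k (nat_lit 0x98c3a))) (u (nat_lit 7) (k (nat_lit 0x98c3a))))))))) (a (a (v (nat_lit 5) (a (u (nat_lit 7) (k (nat_lit 0x9919e))) (u (nat_lit 6) (k (nat_lit 0x98f28))))) (u (nat_lit 5) (a (a (v (nat_lit 9) (k (nat_lit 0x131898))) (v (nat_lit 8) (k (nat_lit 0x98526)))) (a (v (nat_lit 7) (k (nat_lit 0x9893a))) (v (nat_lit 5) (k (nat_lit 0x98d90))))))) (a (v (nat_lit 4) (a (u (nat_lit 8) (k (nat_lit 0x9919e))) (u (nat_lit 6) (k (nat_lit 0x98f28))))) (a (u (nat_lit 4) (a (a (v (nat_lit 9) (k (nat_lit 0x131898))) (v (nat_lit 8) (k (nat_lit 0x9893a))))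 (a (v (nat_lit 7) (k (nat_lit 0x98526))) (v (nat_lit 4) (k (nat_lit 0x98d90)))))) (v (nat_lit 3) (u (nat_lit 6) (k (nat_lit 0x1319f4)))))))))) (a (u (nat_lit 3) (a (a (v (nat_lit 7) (v (nat_lit 8) (k (nat_lit 0x131934)))) (v (nat_lit 6) (a (v (nat_lit 9) (k (nat_lit 0x131d48))) (a (v (nat_lit 8) (k (nat_lit 0x98efe))) (v (nat_lit 7) (k (nat_lit 0x98efe))))))) (a (v (nat_lit 5) (a (v (nat_lit 8) (k (nat_lit 0x98d7e))) (v (nat_lit 7) (k (nat_lit 0x9919e))))) (a (v (nat_lit 4) (a (v (nat_lit 8) (k (nat_lit 0x9919e))) (v (nat_lit 7) (k (nat_lit 0x98d7e))))) (v (nat_lit 3) (a (a (v (nat_lit 9) (k (nat_lit 0x131e8c))) (v (nat_lit 5) (k (nat_lit 0x98cf4)))) (a (v (nat_lit 4) (k (nat_lit 0x98cf4))) (v (nat_lit 3) (k (nat_lit 0x131b68)))))))))) (v (nat_lit 2) (a (a (a (u (nat_lit 9) (v (nat_lit 9) (k (nat_lit 0x131a3c)))) (u (nat_lit 8) (v (nat_lit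 8) (k (nat_lit 0x98e68))))) (a (u (nat_lit 7) (v (nat_lit 7) (k (nat_lit 0x98e68)))) (u (nat_lit 6) (a (a (v (nat_lit 9) (k (nat_lit 0x131964))) (v (nat_lit 8) (k (nat_lit 0x98d54)))) (a (v (nat_lit 7) (k (nat_lit 0x98d54))) (v (nat_lit 6) (k (nat_lit 0x263e20)))))))) (a (a (u (nat_lit 5) (a (u (nat_lit 6) (k (nat_lit 0x1328d0))) (v (nat_lit 5) (k (nat_lit 0x1318c8))))) (v (nat_lit 4) (u (nat_lit 5) (k (nat_lit 0x132294))))) (a (u (nat_lit 4) (a (u (nat_lit 6) (k (nat_lit 0x1328d0))) (a (v (nat_lit 5) (k (nat_lit 0x132294))) (v (nat_lit 4) (k (nat_lit 0x1318c8)))))) (a (v (nat_lit 3) (a (u (nat_lit 8) (k (nat_lit 0x98a96))) (a (u (nat_lit 7) (k (nat_lit 0x98a96))) (u (nat_lit 6) (k (nat_lit 0x131964)))))) (u (nat_lit 3) (a (v (nat_lit 8) (k (nat_lit 0x983d0))) (a (v (nat_lit 7) (k (nat_lit 0x983d0))) (v (nat_lit 3) (k (nat_lit 0x131a3c))))))))))))))))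 (u (nat_lit 2) (a (a (a (v (nat_lit 8) (v (nat_lit 9) (v (nat_lit 9) (k (nat_lit 0x98c28))))) (v (nat_lit 7) (a (v (nat_lit 9) (v (nat_lit 9) (k (nat_lit 0x98c28)))) (a (v (nat_lit 8) (a (v (nat_lit 9) (k (nat_lit 0x131a78))) (v (nat_lit 8) (k (nat_lit 0x98d18))))) (v (nat_lit 7) (v (nat_lit 8) (k (nat_lit 0x98d18)))))))) (a (v (nat_lit 6) (a (a (u (nat_lit 9) (v (nat_lit 9) (k (nat_lit 0x3ed43bf0)))) (v (nat_lit 8) (v (nat_lit 9) (k (nat_lit 0x98f1c))))) (a (v (nat_lit 7) (a (v (nat_lit 9) (k (nat_lit 0x98f1c))) (v (nat_lit 8) (k (nat_lit 0x131bf8))))) (v (nat_lit 6) (a (v (nat_lit 9) (k (nat_lit 0x132168))) (a (v (nat_lit 8) (k (nat_lit 0x98cac))) (v (nat_lit 7) (k (nat_lit 0x98cac))))))))) (a (v (nat_lit 5) (a (v (nat_lit 7) (a (v (nat_lit 9) (k (nat_lit 0x98cb8))) (v (nat_lit 8) (k (nat_lit 0x98d60))))) (v (nat_lit 5) (u (nat_lit 6)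 (k (nat_lit 0x1328d0)))))) (u (nat_lit 5) (a (u (nat_lit 6) (a (u (nat_lit 9) (k (nat_lit 0x98fe8))) (u (nat_lit 7) (k (nat_lit 0x98fe8))))) (v (nat_lit 5) (v (nat_lit 7) (k (nat_lit 0x9924c))))))))) (a (a (v (nat_lit 4) (a (a (v (nat_lit 8) (v (nat_lit 9) (k (nat_lit 0x98cb8)))) (v (nat_lit 7) (v (nat_lit 8) (k (nat_lit 0x98d60))))) (a (v (nat_lit 5) (a (v (nat_lit 9) (k (nat_lit 0x131b80))) (a (v (nat_lit 6) (k (nat_lit 0x264180))) (v (nat_lit 5) (k (nat_lit 0x132294)))))) (v (nat_lit 4) (a (u (nat_lit 6) (k (nat_lit 0x1328d0))) (v (nat_lit 5) (k (nat_lit 0x132294)))))))) (a (u (nat_lit 4) (a (u (nat_lit 6) (a (u (nat_lit 9) (k (nat_lit 0x98fe8))) (u (nat_lit 8) (k (nat_lit 0x98fe8))))) (a (u (nat_lit 5) (v (nat_lit 6) (k (nat_lit 0x7274a0)))) (v (nat_lit 4) (v (nat_lit 8) (k (nat_lit 0x9924c))))))) (v (nat_lit 3) (a (a (a (v (nat_lit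 9) (v (nat_lit 9) (k (nat_lit 0x13164c)))) (v (nat_lit 8) (v (nat_lit 8) (k (nat_lit 0x98f9a))))) (a (v (nat_lit 7) (a (u (nat_lit 8) (k (nat_lit 0x99846))) (v (nat_lit 7) (k (nat_lit 0x98f9a))))) (u (nat_lit 7) (v (nat_lit 8) (k (nat_lit 0x99846)))))) (a (a (v (nat_lit 6) (a (v (nat_lit 9) (k (nat_lit 0x262f98))) (a (u (nat_lit 9) (k (nat_lit 0x7e9a590))) (v (nat_lit 6) (k (nat_lit 0x132168)))))) (v (nat_lit 5) (a (v (nat_lit 8) (k (nat_lit 0x997bc))) (v (nat_lit 7) (k (nat_lit 0x9893a)))))) (a (v (nat_lit 4) (a (v (nat_lit 8) (k (nat_lit 0x9893a))) (a (v (nat_lit 7) (k (nat_lit 0x997bc))) (v (nat_lit 5) (k (nat_lit 0x131b80)))))) (v (nat_lit 3) (a (v (nat_lit 9) (k (nat_lit 0x13164c))) (a (v (nat_lit 8) (k (nat_lit 0x98e38))) (v (nat_lit 7) (k (nat_lit 0x98e38)))))))))))) (a (u (nat_lit 3) (a (a (v (nat_lit 6) (v (nat_lit 9) (k (nat_lit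 0x7e9a590)))) (u (nat_lit 5) (u (nat_lit 6) (k (nat_lit 0x98fe8))))) (a (u (nat_lit 4) (u (nat_lit 6) (k (nat_lit 0x98fe8)))) (v (nat_lit 3) (v (nat_lit 6) (k (nat_lit 0x3ed43bf0))))))) (a (v (nat_lit 2) (a (a (a (v (nat_lit 8) (v (nat_lit 9) (k (nat_lit 0x98db4)))) (v (nat_lit 7) (a (v (nat_lit 9) (k (nat_lit 0x98db4))) (v (nat_lit 8) (k (nat_lit 0x131ab4)))))) (a (v (nat_lit 6) (v (nat_lit 6) (k (nat_lit 0x262710)))) (a (u (nat_lit 6) (a (v (nat_lit 8) (k (nat_lit 0x98d6c))) (v (nat_lit 7) (k (nat_lit 0x98d6c))))) (v (nat_lit 5) (a (a (v (nat_lit 9) (k (nat_lit 0x99348))) (a (v (nat_lit 8) (k (nat_lit 0x98c1c))) (v (nat_lit 7) (k (nat_lit 0x98d90))))) (a (v (nat_lit 6) (k (nat_lit 0x131e80))) (a (u (nat_lit 6) (k (nat_lit 0x131400))) (v (nat_lit 5) (k (nat_lit 0x1318c8)))))))))) (a (a (u (nat_lit 5) (v (nat_lit 9) (k (nat_lit 0x9924c))))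 (a (v (nat_lit 4) (a (a (v (nat_lit 9) (k (nat_lit 0x99348))) (a (v (nat_lit 8) (k (nat_lit 0x98d90))) (v (nat_lit 7) (k (nat_lit 0x98c1c))))) (a (a (v (nat_lit 6) (k (nat_lit 0x131e80))) (u (nat_lit 6) (k (nat_lit 0x131400)))) (a (v (nat_lit 5) (k (nat_lit 0x262518))) (v (nat_lit 4) (k (nat_lit 0x1318c8))))))) (u (nat_lit 4) (v (nat_lit 9) (k (nat_lit 0x9924c)))))) (a (v (nat_lit 3) (a (a (v (nat_lit 9) (k (nat_lit 0x263730))) (a (v (nat_lit 8) (k (nat_lit 0x99174))) (v (nat_lit 7) (k (nat_lit 0x99174))))) (a (a (v (nat_lit 5) (k (nat_lit 0x99348))) (u (nat_lit 5) (k (nat_lit 0x9924c)))) (a (v (nat_lit 4) (k (nat_lit 0x99348))) (u (nat_lit 4) (k (nat_lit 0x9924c))))))) (a (u (nat_lit 3) (a (u (nat_lit 8) (k (nat_lit 0x99456))) (u (nat_lit 7) (k (nat_lit 0x99456))))) (v (nat_lit 2) (a (a (a (v (nat_lit 9) (k (nat_lit 0x13155c))) (v (nat_lit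 8) (k (nat_lit 0x98dcc)))) (a (v (nat_lit 7) (k (nat_lit 0x98dcc))) (v (nat_lit 6) (k (nat_lit 0x262d88))))) (a (a (u (nat_lit 6) (k (nat_lit 0x2635c8))) (v (nat_lit 5) (k (nat_lit 0x1319f4)))) (a (v (nat_lit 4) (k (nat_lit 0x1319f4))) (a (v (nat_lit 3) (k (nat_lit 0x13155c))) (v (nat_lit 2) (k (nat_lit 0x2631c0))))))))))))) (u (nat_lit 2) (a (v (nat_lit 6) (v (nat_lit 9) (k (nat_lit 0x152e14)))) (v (nat_lit 3) (v (nat_lit 6) (k (nat_lit 0x152e14)))))))))))))) (a (a (t (nat_lit 2) (nat_lit 4) (nat_lit 5) (a (a (a (v (nat_lit 6) (a (a (u (nat_lit 9) (v (nat_lit 9) (k (nat_lit 0x29f1f3c)))) (v (nat_lit 8) (u (nat_lit 9) (k (nat_lit 0x1ef8340))))) (a (u (nat_lit 8) (a (v (nat_lit 9) (k (nat_lit 0x1ef8340))) (v (nat_lit 8) (k (nat_lit 0x29f1f3c))))) (a (v (nat_lit 7) (a (u (nat_lit 9) (k (nat_lit 0x1ef8340))) (u (nat_lit 8) (k (nat_lit 0x1ef8340)))))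 (u (nat_lit 7) (a (v (nat_lit 9) (k (nat_lit 0x1ef8340))) (a (v (nat_lit 8) (k (nat_lit 0x1ef8340))) (v (nat_lit 7) (k (nat_lit 0x29f1f3c)))))))))) (v (nat_lit 5) (a (v (nat_lit 7) (a (u (nat_lit 9) (k (nat_lit 0x2432c10))) (u (nat_lit 8) (k (nat_lit 0x2432c10))))) (u (nat_lit 7) (v (nat_lit 7) (k (nat_lit 0xa025f4))))))) (a (u (nat_lit 5) (a (a (v (nat_lit 8) (u (nat_lit 9) (k (nat_lit 0x335fdd2)))) (u (nat_lit 8) (v (nat_lit 9) (k (nat_lit 0x335fdd2))))) (a (u (nat_lit 6) (v (nat_lit 6) (k (nat_lit 0x4ce79f80)))) (a (v (nat_lit 5) (v (nat_lit 7) (k (nat_lit 0xe90b11c)))) (u (nat_lit 5) (u (nat_lit 6) (k (nat_lit 0x19108140)))))))) (v (nat_lit 4) (a (a (v (nat_lit 8) (u (nat_lit 9) (k (nat_lit 0x2432c10)))) (u (nat_lit 8) (v (nat_lit 8) (k (nat_lit 0xa025f4))))) (a (u (nat_lit 7) (v (nat_lit 8) (k (nat_lit 0x2432c10)))) (u (nat_lit 5) (v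 (nat_lit 8) (k (nat_lit 0x91857a8))))))))) (a (a (u (nat_lit 4) (a (a (v (nat_lit 7) (u (nat_lit 9) (k (nat_lit 0x335fdd2)))) (a (u (nat_lit 7) (v (nat_lit 9) (k (nat_lit 0x335fdd2)))) (u (nat_lit 6) (v (nat_lit 6) (k (nat_lit 0x4ce79f80)))))) (a (a (v (nat_lit 5) (v (nat_lit 7) (k (nat_lit 0x91857a8)))) (u (nat_lit 5) (u (nat_lit 5) (k (nat_lit 0x131d6c))))) (a (v (nat_lit 4) (v (nat_lit 8) (k (nat_lit 0xe90b11c)))) (u (nat_lit 4) (a (u (nat_lit 6) (k (nat_lit 0x19108140))) (u (nat_lit 5) (k (nat_lit 0x131d6c))))))))) (v (nat_lit 3) (a (v (nat_lit 7) (u (nat_lit 8) (k (nat_lit 0x5295cf0)))) (a (u (nat_lit 7) (v (nat_lit 8) (k (nat_lit 0x5295cf0)))) (u (nat_lit 6) (v (nat_lit 9) (k (nat_lit 0x22bb748)))))))) (a (u (nat_lit 3) (v (nat_lit 3) (v (nat_lit 6) (k (nat_lit 0x29f1f3c))))) (a (v (nat_lit 2) (a (a (u (nat_lit 9) (v (nat_lit 9) (k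 (nat_lit 0xa025f4)))) (a (u (nat_lit 8) (v (nat_lit 9) (k (nat_lit 0x2432c10)))) (u (nat_lit 7) (v (nat_lit 9) (k (nat_lit 0x2432c10)))))) (a (a (u (nat_lit 5) (v (nat_lit 9) (k (nat_lit 0x91857a8)))) (u (nat_lit 4) (v (nat_lit 9) (k (nat_lit 0x91857a8))))) (a (v (nat_lit 3) (a (u (nat_lit 5) (k (nat_lit 0x91857a8))) (u (nat_lit 4) (k (nat_lit 0x91857a8))))) (u (nat_lit 3) (v (nat_lit 3) (k (nat_lit 0xa025f4)))))))) (u (nat_lit 2) (a (a (a (v (nat_lit 7) (u (nat_lit 8) (k (nat_lit 0x335fdd2)))) (u (nat_lit 7) (v (nat_lit 8) (k (nat_lit 0x335fdd2))))) (a (u (nat_lit 6) (v (nat_lit 6) (k (nat_lit 0x4ce79f80)))) (v (nat_lit 5) (v (nat_lit 7) (k (nat_lit 0x91857a8)))))) (a (a (u (nat_lit 5) (u (nat_lit 5) (k (nat_lit 0x131d6c)))) (v (nat_lit 4) (v (nat_lit 8) (k (nat_lit 0x91857a8))))) (a (u (nat_lit 4) (a (u (nat_lit 5) (k (nat_lit 0x2403b418)))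 (u (nat_lit 4) (k (nat_lit 0x131d6c))))) (a (v (nat_lit 2) (a (v (nat_lit 9) (k (nat_lit 0xe90b11c))) (v (nat_lit 3) (k (nat_lit 0xe90b11c))))) (u (nat_lit 2) (a (u (nat_lit 6) (k (nat_lit 0x19108140))) (a (u (nat_lit 5) (k (nat_lit 0x131d6c))) (u (nat_lit 4) (k (nat_lit 0x131d6c)))))))))))))))) (v (nat_lit 1) (a (a (a (a (u (nat_lit 9) (v (nat_lit 9) (v (nat_lit 9) (k (nat_lit 0x999f0))))) (v (nat_lit 8) (a (u (nat_lit 9) (v (nat_lit 9) (k (nat_lit 0x999d8)))) (v (nat_lit 8) (u (nat_lit 9) (k (nat_lit 0x98d60))))))) (a (u (nat_lit 8) (a (v (nat_lit 9) (v (nat_lit 9) (k (nat_lit 0x99fcc)))) (v (nat_lit 8) (v (nat_lit 8) (k (nat_lit 0x131b80)))))) (v (nat_lit 7) (a (v (nat_lit 8) (u (nat_lit 9) (k (nat_lit 0x992d0)))) (v (nat_lit 7) (a (u (nat_lit 9) (k (nat_lit 0x1f92fa2))) (u (nat_lit 8) (k (nat_lit 0x99fcc))))))))) (a (a (u (nat_lit 7)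 (a (v (nat_lit 9) (v (nat_lit 9) (k (nat_lit 0x1f92fa2)))) (a (v (nat_lit 8) (a (v (nat_lit 9) (k (nat_lit 0x992d0))) (v (nat_lit 8) (k (nat_lit 0x98d60))))) (v (nat_lit 7) (a (v (nat_lit 8) (k (nat_lit 0x999d8))) (v (nat_lit 7) (k (nat_lit 0x999f0)))))))) (v (nat_lit 6) (a (a (v (nat_lit 8) (u (nat_lit 9) (k (nat_lit 0x98e80)))) (u (nat_lit 8) (v (nat_lit 8) (k (nat_lit 0x131b20))))) (a (u (nat_lit 7) (v (nat_lit 8) (k (nat_lit 0x98e80)))) (v (nat_lit 6) (a (u (nat_lit 9) (k (nat_lit 0x98ca6))) (a (u (nat_lit 8) (k (nat_lit 0x1319d0))) (u (nat_lit 7) (k (nat_lit 0x98ca6)))))))))) (a (u (nat_lit 6) (a (a (u (nat_lit 9) (v (nat_lit 9) (k (nat_lit 0x99b22)))) (u (nat_lit 8) (v (nat_lit 9) (k (nat_lit 0x56ea89e))))) (a (v (nat_lit 7) (u (nat_lit 8) (k (nat_lit 0x56ea89e)))) (a (u (nat_lit 7) (v (nat_lit 7) (k (nat_lit 0x99b22)))) (v (nat_lit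 6) (a (v (nat_lit 9) (k (nat_lit 0x13ab5c))) (a (v (nat_lit 7) (k (nat_lit 0x13ab5c))) (v (nat_lit 6) (k (nat_lit 0x131a54)))))))))) (v (nat_lit 5) (a (a (v (nat_lit 8) (u (nat_lit 9) (k (nat_lit 0x99990)))) (a (u (nat_lit 8) (a (v (nat_lit 9) (k (nat_lit 0x989c4))) (v (nat_lit 8) (k (nat_lit 0x98e2c))))) (v (nat_lit 7) (u (nat_lit 9) (k (nat_lit 0xb1a32)))))) (a (u (nat_lit 7) (v (nat_lit 8) (k (nat_lit 0x98fb8)))) (a (v (nat_lit 6) (a (u (nat_lit 9) (k (nat_lit 0x9910e))) (u (nat_lit 7) (k (nat_lit 0x98efe))))) (v (nat_lit 5) (a (u (nat_lit 7) (k (nat_lit 0x983d0))) (u (nat_lit 6) (k (nat_lit 0x98d54)))))))))))) (a (a (a (u (nat_lit 5) (a (a (v (nat_lit 9) (v (nat_lit 9) (k (nat_lit 0x98e2c)))) (v (nat_lit 8) (v (nat_lit 8) (k (nat_lit 0x98fac))))) (a (v (nat_lit 7) (a (v (nat_lit 9) (k (nat_lit 0x9887a))) (v (nat_lit 7) (k (nat_lit 0x98e38)))))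 (a (v (nat_lit 6) (a (v (nat_lit 9) (k (nat_lit 0x1316c4))) (a (v (nat_lit 8) (k (nat_lit 0x131a48))) (v (nat_lit 6) (k (nat_lit 0x98cac)))))) (v (nat_lit 5) (a (a (v (nat_lit 9) (k (nat_lit 0x131cb8))) (v (nat_lit 8) (k (nat_lit 0x131af0)))) (a (v (nat_lit 7) (k (nat_lit 0x99174))) (a (u (nat_lit 6) (k (nat_lit 0x98d6c))) (v (nat_lit 5) (k (nat_lit 0x98dcc))))))))))) (v (nat_lit 4) (a (a (a (u (nat_lit 9) (v (nat_lit 9) (k (nat_lit 0x83a3426)))) (v (nat_lit 8) (u (nat_lit 9) (k (nat_lit 0x98c28))))) (a (u (nat_lit 8) (v (nat_lit 8) (k (nat_lit 0x131e8c)))) (v (nat_lit 7) (u (nat_lit 9) (k (nat_lit 0x9ab6c)))))) (a (a (u (nat_lit 7) (a (v (nat_lit 9) (k (nat_lit 0x9ab6c))) (a (v (nat_lit 8) (k (nat_lit 0x98c28))) (v (nat_lit 7) (k (nat_lit 0x83a3426)))))) (v (nat_lit 6) (a (u (nat_lit 9) (k (nat_lit 0x98c3a))) (a (u (nat_lit 8) (k (nat_lit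 0x131d48))) (u (nat_lit 7) (k (nat_lit 0x98c3a))))))) (a (v (nat_lit 5) (a (u (nat_lit 7) (k (nat_lit 0x9919e))) (u (nat_lit 6) (k (nat_lit 0x98f28))))) (a (u (nat_lit 5) (a (a (v (nat_lit 9) (k (nat_lit 0x98526))) (v (nat_lit 8) (k (nat_lit 0x131898)))) (a (v (nat_lit 7) (k (nat_lit 0x9893a))) (v (nat_lit 5) (k (nat_lit 0x98d90)))))) (v (nat_lit 4) (a (u (nat_lit 9) (k (nat_lit 0x98a96))) (a (u (nat_lit 7) (k (nat_lit 0x98a96))) (u (nat_lit 6) (k (nat_lit 0x131964)))))))))))) (a (u (nat_lit 4) (a (a (a (v (nat_lit 9) (v (nat_lit 9) (k (nat_lit 0x98f9a)))) (v (nat_lit 8) (v (nat_lit 8) (k (nat_lit 0x13164c))))) (a (v (nat_lit 7) (a (u (nat_lit 9) (k (nat_lit 0x99846))) (v (nat_lit 7) (k (nat_lit 0x98f9a))))) (u (nat_lit 7) (v (nat_lit 9) (k (nat_lit 0x99846)))))) (a (a (v (nat_lit 6) (a (v (nat_lit 8) (k (nat_lit 0x262f98))) (a (u (nat_lit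 8) (k (nat_lit 0x7e9a590))) (v (nat_lit 6) (k (nat_lit 0x132168)))))) (v (nat_lit 5) (a (v (nat_lit 9) (k (nat_lit 0x997bc))) (v (nat_lit 7) (k (nat_lit 0x9893a)))))) (a (v (nat_lit 4) (a (a (v (nat_lit 9) (k (nat_lit 0x99174))) (a (v (nat_lit 8) (k (nat_lit 0x263730))) (v (nat_lit 7) (k (nat_lit 0x99174))))) (a (v (nat_lit 5) (k (nat_lit 0x99348))) (a (u (nat_lit 5) (k (nat_lit 0x9924c))) (v (nat_lit 4) (k (nat_lit 0x13155c))))))) (u (nat_lit 4) (v (nat_lit 6) (k (nat_lit 0x152e14)))))))) (v (nat_lit 3) (a (a (a (v (nat_lit 8) (u (nat_lit 9) (k (nat_lit 0x66eb338)))) (u (nat_lit 8) (v (nat_lit 9) (k (nat_lit 0x66eb338))))) (a (u (nat_lit 7) (a (a (v (nat_lit 9) (k (nat_lit 0x9903c))) (u (nat_lit 9) (k (nat_lit 0x985b0)))) (a (v (nat_lit 8) (k (nat_lit 0x9903c))) (a (u (nat_lit 8) (k (nat_lit 0x985b0))) (v (nat_lit 7) (k (nat_lit 0x1321ec)))))))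 (v (nat_lit 6) (a (u (nat_lit 9) (k (nat_lit 0x9939c))) (a (u (nat_lit 8) (k (nat_lit 0x9939c))) (u (nat_lit 7) (k (nat_lit 0x131bf8)))))))) (a (a (v (nat_lit 5) (u (nat_lit 7) (k (nat_lit 0x131934)))) (u (nat_lit 5) (a (v (nat_lit 6) (k (nat_lit 0x131bf8))) (v (nat_lit 5) (k (nat_lit 0x131ab4)))))) (a (v (nat_lit 4) (a (u (nat_lit 7) (k (nat_lit 0x98fb8))) (a (u (nat_lit 6) (k (nat_lit 0x98bf8))) (u (nat_lit 5) (k (nat_lit 0x98d60)))))) (a (u (nat_lit 4) (a (v (nat_lit 7) (k (nat_lit 0x9887a))) (a (v (nat_lit 6) (k (nat_lit 0x98f1c))) (v (nat_lit 4) (k (nat_lit 0x98db4)))))) (v (nat_lit 3) (a (u (nat_lit 7) (k (nat_lit 0x98e0e))) (u (nat_lit 5) (k (nat_lit 0x98d18)))))))))))) (a (a (u (nat_lit 3) (a (a (a (v (nat_lit 9) (v (nat_lit 9) (k (nat_lit 0x99ac8)))) (v (nat_lit 8) (v (nat_lit 9) (k (nat_lit 0x66eb338))))) (a (v (nat_lit 7) (a (v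 (nat_lit 8) (k (nat_lit 0x9903c))) (v (nat_lit 7) (k (nat_lit 0x997b6))))) (a (u (nat_lit 7) (v (nat_lit 8) (k (nat_lit 0x1319b8)))) (v (nat_lit 6) (a (v (nat_lit 8) (k (nat_lit 0x98e80))) (v (nat_lit 6) (k (nat_lit 0x98cb8)))))))) (a (a (u (nat_lit 6) (a (v (nat_lit 9) (k (nat_lit 0x56ea89e))) (u (nat_lit 9) (k (nat_lit 0x98562))))) (v (nat_lit 5) (a (v (nat_lit 9) (k (nat_lit 0x989c4))) (a (v (nat_lit 8) (k (nat_lit 0x99990))) (v (nat_lit 7) (k (nat_lit 0x9ab6c))))))) (a (u (nat_lit 5) (v (nat_lit 7) (k (nat_lit 0x99846)))) (a (v (nat_lit 4) (a (v (nat_lit 8) (k (nat_lit 0x98c28))) (v (nat_lit 7) (k (nat_lit 0xb1a32))))) (v (nat_lit 3) (a (a (v (nat_lit 8) (k (nat_lit 0x999d8))) (v (nat_lit 6) (k (nat_lit 0x99054)))) (a (v (nat_lit 4) (k (nat_lit 0x98e98))) (v (nat_lit 3) (k (nat_lit 0x98d90))))))))))) (v (nat_lit 2) (a (a (a (v (nat_lit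 8) (u (nat_lit 9) (k (nat_lit 0x98fb8)))) (a (u (nat_lit 8) (v (nat_lit 8) (k (nat_lit 0x98e2c)))) (v (nat_lit 7) (u (nat_lit 8) (k (nat_lit 0x989c4)))))) (a (u (nat_lit 7) (a (v (nat_lit 9) (k (nat_lit 0xb1a32))) (v (nat_lit 8) (k (nat_lit 0x99990))))) (a (v (nat_lit 6) (a (u (nat_lit 9) (k (nat_lit 0x98efe))) (u (nat_lit 7) (k (nat_lit 0x9910e))))) (v (nat_lit 5) (a (u (nat_lit 9) (k (nat_lit 0x98d7e))) (a (u (nat_lit 7) (k (nat_lit 0x98d7e))) (u (nat_lit 6) (k (nat_lit 0x131988))))))))) (a (a (u (nat_lit 5) (a (a (v (nat_lit 9) (k (nat_lit 0x98526))) (v (nat_lit 8) (k (nat_lit 0x130db8)))) (a (v (nat_lit 7) (k (nat_lit 0x997bc))) (v (nat_lit 5) (k (nat_lit 0x98c1c)))))) (a (v (nat_lit 4) (a (u (nat_lit 9) (k (nat_lit 0x9919e))) (u (nat_lit 6) (k (nat_lit 0x98f28))))) (u (nat_lit 4) (a (a (v (nat_lit 9) (k (nat_lit 0x9893a))) (v (nat_lit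 7) (k (nat_lit 0x997bc)))) (a (v (nat_lit 5) (k (nat_lit 0x131b80))) (v (nat_lit 4) (k (nat_lit 0x99348)))))))) (a (v (nat_lit 3) (a (a (u (nat_lit 7) (k (nat_lit 0x98fb8))) (u (nat_lit 6) (k (nat_lit 0x98bf8)))) (a (u (nat_lit 5) (k (nat_lit 0x98d60))) (u (nat_lit 4) (k (nat_lit 0x98cb8)))))) (a (u (nat_lit 3) (v (nat_lit 8) (k (nat_lit 0x98fb8)))) (v (nat_lit 2) (a (u (nat_lit 9) (k (nat_lit 0x983d0))) (u (nat_lit 6) (k (nat_lit 0x98d54))))))))))) (a (u (nat_lit 2) (a (a (a (v (nat_lit 9) (v (nat_lit 9) (k (nat_lit 0x98e38)))) (v (nat_lit 8) (v (nat_lit 8) (k (nat_lit 0x98fac))))) (a (v (nat_lit 7) (a (v (nat_lit 9) (k (nat_lit 0x9887a))) (v (nat_lit 7) (k (nat_lit 0x98e2c))))) (v (nat_lit 6) (a (v (nat_lit 8) (k (nat_lit 0x131a48))) (a (v (nat_lit 7) (k (nat_lit 0x1316c4))) (v (nat_lit 6) (k (nat_lit 0x98cac)))))))) (a (a (v (nat_lit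 5) (a (v (nat_lit 9) (k (nat_lit 0x997bc))) (a (v (nat_lit 8) (k (nat_lit 0x130db8))) (v (nat_lit 7) (k (nat_lit 0x98526)))))) (v (nat_lit 4) (a (v (nat_lit 9) (k (nat_lit 0x9893a))) (a (v (nat_lit 8) (k (nat_lit 0x131898))) (v (nat_lit 7) (k (nat_lit 0x98526))))))) (a (u (nat_lit 4) (v (nat_lit 4) (k (nat_lit 0x9924c)))) (a (v (nat_lit 3) (a (a (v (nat_lit 7) (k (nat_lit 0x9887a))) (v (nat_lit 6) (k (nat_lit 0x98f1c)))) (a (v (nat_lit 4) (k (nat_lit 0x98cb8))) (v (nat_lit 3) (k (nat_lit 0x98c28)))))) (v (nat_lit 2) (a (a (a (v (nat_lit 9) (k (nat_lit 0x99174))) (v (nat_lit 8) (k (nat_lit 0x131af0)))) (a (v (nat_lit 7) (k (nat_lit 0x131cb8))) (u (nat_lit 6) (k (nat_lit 0x98d6c))))) (a (a (v (nat_lit 5) (k (nat_lit 0x98c1c))) (v (nat_lit 4) (k (nat_lit 0x98d90)))) (a (v (nat_lit 3) (k (nat_lit 0x98db4))) (v (nat_lit 2) (k (nat_lit 0x98dcc))))))))))))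 (a (t (nat_lit 2) (nat_lit 4) (nat_lit 5) (a (a (v (nat_lit 7) (u (nat_lit 9) (k (nat_lit 0x5295cf0)))) (a (u (nat_lit 7) (v (nat_lit 9) (k (nat_lit 0x5295cf0)))) (u (nat_lit 6) (v (nat_lit 8) (k (nat_lit 0x22bb748)))))) (a (a (v (nat_lit 4) (u (nat_lit 5) (k (nat_lit 0x91857a8)))) (u (nat_lit 4) (v (nat_lit 4) (k (nat_lit 0xe90b11c))))) (a (u (nat_lit 3) (a (a (v (nat_lit 7) (k (nat_lit 0x5295cf0))) (v (nat_lit 6) (k (nat_lit 0x1ef8340)))) (a (u (nat_lit 5) (k (nat_lit 0x335fdd2))) (v (nat_lit 4) (k (nat_lit 0x2432c10)))))) (u (nat_lit 2) (v (nat_lit 4) (k (nat_lit 0x91857a8)))))))) (v (nat_lit 1) (a (a (a (u (nat_lit 9) (v (nat_lit 9) (k (nat_lit 0x99588)))) (a (u (nat_lit 8) (a (v (nat_lit 9) (k (nat_lit 0x99ac8))) (v (nat_lit 8) (k (nat_lit 0x131b44))))) (v (nat_lit 7) (a (u (nat_lit 9) (k (nat_lit 0x997b6))) (u (nat_lit 8) (k (nat_lit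 0x99ac8))))))) (a (a (u (nat_lit 7) (a (v (nat_lit 9) (k (nat_lit 0x997b6))) (a (u (nat_lit 9) (k (nat_lit 0x131b74))) (v (nat_lit 7) (k (nat_lit 0x99588)))))) (v (nat_lit 6) (a (u (nat_lit 9) (k (nat_lit 0x984e4))) (a (u (nat_lit 8) (k (nat_lit 0x1319b8))) (u (nat_lit 7) (k (nat_lit 0x984e4))))))) (a (v (nat_lit 5) (u (nat_lit 6) (k (nat_lit 0x98cb8)))) (u (nat_lit 5) (a (v (nat_lit 9) (k (nat_lit 0x98e2c))) (a (v (nat_lit 8) (k (nat_lit 0x98fac))) (v (nat_lit 7) (k (nat_lit 0x98f9a))))))))) (a (a (v (nat_lit 4) (u (nat_lit 6) (k (nat_lit 0x1319f4)))) (a (u (nat_lit 4) (a (v (nat_lit 9) (k (nat_lit 0x98e38))) (a (v (nat_lit 8) (k (nat_lit 0x13164c))) (v (nat_lit 7) (k (nat_lit 0x98e38)))))) (v (nat_lit 3) (a (u (nat_lit 7) (k (nat_lit 0x98e0e))) (a (u (nat_lit 5) (k (nat_lit 0x98d18))) (u (nat_lit 4) (k (nat_lit 0x98c28)))))))) (a (a (u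 (nat_lit 3) (a (a (v (nat_lit 9) (k (nat_lit 0x99fcc))) (v (nat_lit 8) (k (nat_lit 0x98d60)))) (a (v (nat_lit 7) (k (nat_lit 0x1f92fa2))) (a (v (nat_lit 4) (k (nat_lit 0x98dd8))) (v (nat_lit 3) (k (nat_lit 0x98dc0))))))) (v (nat_lit 2) (a (u (nat_lit 6) (k (nat_lit 0x98cb8))) (u (nat_lit 3) (k (nat_lit 0x98c88)))))) (a (u (nat_lit 2) (a (v (nat_lit 9) (k (nat_lit 0x98f9a))) (a (v (nat_lit 8) (k (nat_lit 0x98fac))) (v (nat_lit 7) (k (nat_lit 0x98e2c)))))) (v (nat_lit 1) (a (u (nat_lit 9) (k (nat_lit 0x98bf8))) (u (nat_lit 7) (k (nat_lit 0x98bf8))))))))))))))))) (a (u (nat_lit 1) (a (a (a (v (nat_lit 9) (v (nat_lit 9) (v (nat_lit 9) (k (nat_lit 0x98bf8))))) (a (v (nat_lit 7) (a (v (nat_lit 9) (v (nat_lit 9) (k (nat_lit 0x98e0e)))) (a (v (nat_lit 8) (v (nat_lit 9) (k (nat_lit 0x1319d0)))) (v (nat_lit 7) (a (v (nat_lit 9) (k (nat_lit 0x98e0e)))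 (v (nat_lit 7) (k (nat_lit 0x98bf8)))))))) (v (nat_lit 6) (a (a (v (nat_lit 9) (v (nat_lit 9) (k (nat_lit 0x984e4)))) (a (u (nat_lit 9) (v (nat_lit 9) (k (nat_lit 0x984d2)))) (v (nat_lit 8) (a (v (nat_lit 9) (k (nat_lit 0x9939c))) (v (nat_lit 8) (k (nat_lit 0x1319b8))))))) (a (v (nat_lit 7) (a (v (nat_lit 9) (k (nat_lit 0x131bf8))) (a (v (nat_lit 8) (k (nat_lit 0x9939c))) (v (nat_lit 7) (k (nat_lit 0x984e4)))))) (a (u (nat_lit 7) (v (nat_lit 7) (k (nat_lit 0x984d2)))) (v (nat_lit 6) (a (v (nat_lit 9) (k (nat_lit 0x98ca6))) (a (v (nat_lit 8) (k (nat_lit 0x1319d0))) (v (nat_lit 7) (k (nat_lit 0x98ca6)))))))))))) (a (a (u (nat_lit 6) (a (u (nat_lit 8) (v (nat_lit 9) (k (nat_lit 0x98562)))) (v (nat_lit 7) (u (nat_lit 8) (k (nat_lit 0x98562)))))) (v (nat_lit 5) (a (v (nat_lit 7) (v (nat_lit 9) (k (nat_lit 0x98fb8)))) (a (v (nat_lit 6) (a (v (nat_lit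 9) (k (nat_lit 0x9910e))) (v (nat_lit 7) (k (nat_lit 0x98c3a))))) (v (nat_lit 5) (v (nat_lit 7) (k (nat_lit 0x98a96)))))))) (a (u (nat_lit 5) (v (nat_lit 5) (u (nat_lit 7) (k (nat_lit 0x99456))))) (v (nat_lit 4) (a (a (v (nat_lit 7) (v (nat_lit 9) (k (nat_lit 0x131934)))) (v (nat_lit 6) (a (v (nat_lit 9) (k (nat_lit 0x98efe))) (a (v (nat_lit 8) (k (nat_lit 0x131d48))) (v (nat_lit 7) (k (nat_lit 0x98efe))))))) (a (v (nat_lit 5) (a (v (nat_lit 9) (k (nat_lit 0x98d7e))) (v (nat_lit 7) (k (nat_lit 0x9919e))))) (v (nat_lit 4) (a (v (nat_lit 9) (k (nat_lit 0x983d0))) (v (nat_lit 7) (k (nat_lit 0x983d0))))))))))) (a (a (u (nat_lit 4) (a (v (nat_lit 6) (v (nat_lit 8) (k (nat_lit 0x7e9a590)))) (a (u (nat_lit 5) (u (nat_lit 6) (k (nat_lit 0x98fe8)))) (v (nat_lit 4) (a (u (nat_lit 9) (k (nat_lit 0x99456))) (u (nat_lit 7) (k (nat_lit 0x99456))))))))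 (a (v (nat_lit 3) (a (a (a (v (nat_lit 8) (a (v (nat_lit 9) (k (nat_lit 0x66eb338))) (v (nat_lit 8) (k (nat_lit 0x99ac8))))) (v (nat_lit 7) (a (v (nat_lit 9) (k (nat_lit 0x9903c))) (v (nat_lit 7) (k (nat_lit 0x997b6)))))) (a (u (nat_lit 7) (v (nat_lit 9) (k (nat_lit 0x1319b8)))) (v (nat_lit 6) (a (v (nat_lit 9) (k (nat_lit 0x98e80))) (v (nat_lit 6) (k (nat_lit 0x98cb8))))))) (a (a (u (nat_lit 6) (a (v (nat_lit 8) (k (nat_lit 0x56ea89e))) (u (nat_lit 8) (k (nat_lit 0x98562))))) (v (nat_lit 5) (a (v (nat_lit 9) (k (nat_lit 0x99990))) (a (v (nat_lit 8) (k (nat_lit 0x989c4))) (v (nat_lit 7) (k (nat_lit 0x9ab6c))))))) (a (u (nat_lit 5) (v (nat_lit 7) (k (nat_lit 0x99846)))) (a (v (nat_lit 4) (v (nat_lit 9) (k (nat_lit 0x98fb8)))) (v (nat_lit 3) (a (a (v (nat_lit 9) (k (nat_lit 0x98d60))) (v (nat_lit 8) (k (nat_lit 0x99fcc)))) (a (v (nat_lit 7)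 (k (nat_lit 0x1f92fa2))) (v (nat_lit 4) (k (nat_lit 0x98c88))))))))))) (u (nat_lit 3) (v (nat_lit 7) (a (v (nat_lit 9) (k (nat_lit 0x985b0))) (a (v (nat_lit 8) (k (nat_lit 0x985b0))) (v (nat_lit 7) (k (nat_lit 0x131b74))))))))) (a (a (v (nat_lit 2) (a (a (v (nat_lit 7) (v (nat_lit 9) (k (nat_lit 0x98fb8)))) (v (nat_lit 6) (a (v (nat_lit 9) (k (nat_lit 0x98c3a))) (v (nat_lit 7) (k (nat_lit 0x9910e)))))) (a (v (nat_lit 4) (a (v (nat_lit 9) (k (nat_lit 0x9919e))) (v (nat_lit 7) (k (nat_lit 0x98d7e))))) (a (v (nat_lit 3) (a (v (nat_lit 9) (k (nat_lit 0x98c28))) (a (v (nat_lit 7) (k (nat_lit 0xb1a32))) (v (nat_lit 3) (k (nat_lit 0x98dd8)))))) (v (nat_lit 2) (v (nat_lit 9) (k (nat_lit 0x98a96)))))))) (u (nat_lit 2) (a (u (nat_lit 4) (u (nat_lit 6) (k (nat_lit 0x98fe8)))) (v (nat_lit 2) (u (nat_lit 9) (k (nat_lit 0x99456))))))) (a (t (nat_lit 2)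 (nat_lit 4) (nat_lit 5) (a (v (nat_lit 3) (a (v (nat_lit 7) (k (nat_lit 0x5295cf0))) (a (v (nat_lit 6) (k (nat_lit 0x1ef8340))) (u (nat_lit 5) (k (nat_lit 0x335fdd2)))))) (v (nat_lit 2) (v (nat_lit 3) (k (nat_lit 0x2432c10)))))) (v (nat_lit 1) (a (a (a (v (nat_lit 9) (v (nat_lit 9) (k (nat_lit 0x99588)))) (a (v (nat_lit 8) (v (nat_lit 8) (k (nat_lit 0x131b44)))) (v (nat_lit 7) (a (v (nat_lit 9) (k (nat_lit 0x1321ec))) (v (nat_lit 7) (k (nat_lit 0x99588))))))) (a (v (nat_lit 6) (a (a (u (nat_lit 9) (k (nat_lit 0x984d2))) (v (nat_lit 8) (k (nat_lit 0x131b20)))) (a (u (nat_lit 7) (k (nat_lit 0x984d2))) (v (nat_lit 6) (k (nat_lit 0x131a0c)))))) (a (u (nat_lit 6) (a (v (nat_lit 9) (k (nat_lit 0x99b22))) (v (nat_lit 7) (k (nat_lit 0x99b22))))) (v (nat_lit 5) (a (a (v (nat_lit 8) (k (nat_lit 0x98e2c))) (v (nat_lit 7) (k (nat_lit 0x83a3426)))) (a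 (v (nat_lit 6) (k (nat_lit 0x27c20b8))) (v (nat_lit 5) (k (nat_lit 0x98e68))))))))) (a (a (v (nat_lit 4) (a (v (nat_lit 8) (k (nat_lit 0x131e8c))) (a (v (nat_lit 5) (k (nat_lit 0x98cf4))) (v (nat_lit 4) (k (nat_lit 0x131a3c)))))) (a (u (nat_lit 4) (v (nat_lit 6) (k (nat_lit 0x3ed43bf0)))) (v (nat_lit 3) (a (v (nat_lit 9) (k (nat_lit 0x999d8))) (a (v (nat_lit 6) (k (nat_lit 0x99054))) (v (nat_lit 3) (k (nat_lit 0x98dc0)))))))) (a (v (nat_lit 2) (a (a (v (nat_lit 9) (k (nat_lit 0x83a3426))) (a (v (nat_lit 8) (k (nat_lit 0x98e2c))) (v (nat_lit 6) (k (nat_lit 0x27c20b8))))) (a (a (v (nat_lit 5) (k (nat_lit 0x131b08))) (v (nat_lit 4) (k (nat_lit 0x98cf4)))) (a (v (nat_lit 3) (k (nat_lit 0x98e98))) (v (nat_lit 2) (k (nat_lit 0x98e68))))))) (a (t (nat_lit 2) (nat_lit 4) (nat_lit 5) (a (v (nat_lit 6) (k (nat_lit 0x29f1f3c))) (v (nat_lit 4) (k (nat_lit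 0xa025f4))))) (v (nat_lit 1) (a (a (a (v (nat_lit 9) (k (nat_lit 0x999f0))) (v (nat_lit 8) (k (nat_lit 0x131b80)))) (a (v (nat_lit 7) (k (nat_lit 0x999f0))) (v (nat_lit 6) (k (nat_lit 0x131acc))))) (a (a (v (nat_lit 5) (k (nat_lit 0x98d6c))) (v (nat_lit 4) (k (nat_lit 0x131b68)))) (a (v (nat_lit 3) (k (nat_lit 0x98d90))) (a (v (nat_lit 2) (k (nat_lit 0x98d6c))) (v (nat_lit 1) (k (nat_lit 0x131a24)))))))))))))))))) (a (v (nat_lit 0) (a (a (a (a (u (nat_lit 9) (v (nat_lit 9) (v (nat_lit 9) (k (nat_lit 0x999f0))))) (v (nat_lit 8) (v (nat_lit 8) (u (nat_lit 9) (k (nat_lit 0x1f92fa2)))))) (a (u (nat_lit 8) (a (v (nat_lit 9) (v (nat_lit 9) (k (nat_lit 0x1f92fa2)))) (v (nat_lit 8) (v (nat_lit 8) (k (nat_lit 0x999f0)))))) (v (nat_lit 7) (a (a (u (nat_lit 9) (v (nat_lit 9) (k (nat_lit 0x999d8)))) (v (nat_lit 8) (u (nat_lit 9) (k (nat_lit 0x992d0)))))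 (a (u (nat_lit 8) (a (v (nat_lit 9) (k (nat_lit 0x992d0))) (v (nat_lit 8) (k (nat_lit 0x999d8))))) (v (nat_lit 7) (a (u (nat_lit 9) (k (nat_lit 0x98d60))) (u (nat_lit 8) (k (nat_lit 0x98d60)))))))))) (a (a (u (nat_lit 7) (a (v (nat_lit 9) (v (nat_lit 9) (k (nat_lit 0x99fcc)))) (a (v (nat_lit 8) (v (nat_lit 8) (k (nat_lit 0x99fcc)))) (v (nat_lit 7) (v (nat_lit 7) (k (nat_lit 0x131b80))))))) (v (nat_lit 6) (a (v (nat_lit 7) (a (u (nat_lit 9) (k (nat_lit 0x98e80))) (u (nat_lit 8) (k (nat_lit 0x98e80))))) (a (u (nat_lit 7) (v (nat_lit 7) (k (nat_lit 0x131b20)))) (v (nat_lit 6) (a (u (nat_lit 9) (k (nat_lit 0x98ca6))) (a (u (nat_lit 8) (k (nat_lit 0x98ca6))) (u (nat_lit 7) (k (nat_lit 0x1319d0)))))))))) (a (u (nat_lit 6) (a (a (u (nat_lit 9) (v (nat_lit 9) (k (nat_lit 0x99b22)))) (u (nat_lit 8) (v (nat_lit 8) (k (nat_lit 0x99b22))))) (a (u (nat_lit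 7) (a (v (nat_lit 9) (k (nat_lit 0x56ea89e))) (v (nat_lit 8) (k (nat_lit 0x56ea89e))))) (v (nat_lit 6) (a (v (nat_lit 9) (k (nat_lit 0x13ab5c))) (a (v (nat_lit 8) (k (nat_lit 0x13ab5c))) (v (nat_lit 6) (k (nat_lit 0x131a54))))))))) (a (v (nat_lit 5) (a (a (u (nat_lit 9) (v (nat_lit 9) (k (nat_lit 0x83a3426)))) (a (v (nat_lit 8) (u (nat_lit 9) (k (nat_lit 0x9ab6c)))) (u (nat_lit 8) (a (v (nat_lit 9) (k (nat_lit 0x9ab6c))) (v (nat_lit 8) (k (nat_lit 0x83a3426))))))) (a (a (v (nat_lit 7) (a (u (nat_lit 9) (k (nat_lit 0x98c28))) (u (nat_lit 8) (k (nat_lit 0x98c28))))) (u (nat_lit 7) (v (nat_lit 7) (k (nat_lit 0x131e8c))))) (a (v (nat_lit 6) (a (u (nat_lit 9) (k (nat_lit 0x98c3a))) (a (u (nat_lit 8) (k (nat_lit 0x98c3a))) (u (nat_lit 7) (k (nat_lit 0x131d48)))))) (v (nat_lit 5) (a (u (nat_lit 9) (k (nat_lit 0x98a96))) (a (u (nat_lit 8) (k (nat_lit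 0x98a96))) (u (nat_lit 6) (k (nat_lit 0x131964)))))))))) (u (nat_lit 5) (a (a (v (nat_lit 9) (v (nat_lit 9) (k (nat_lit 0x98f9a)))) (a (v (nat_lit 8) (a (u (nat_lit 9) (k (nat_lit 0x99846))) (v (nat_lit 8) (k (nat_lit 0x98f9a))))) (u (nat_lit 8) (v (nat_lit 9) (k (nat_lit 0x99846)))))) (a (a (v (nat_lit 7) (v (nat_lit 7) (k (nat_lit 0x13164c)))) (v (nat_lit 6) (a (v (nat_lit 7) (k (nat_lit 0x262f98))) (a (u (nat_lit 7) (k (nat_lit 0x7e9a590))) (v (nat_lit 6) (k (nat_lit 0x132168))))))) (a (v (nat_lit 5) (a (a (v (nat_lit 9) (k (nat_lit 0x99174))) (v (nat_lit 8) (k (nat_lit 0x99174)))) (a (v (nat_lit 7) (k (nat_lit 0x263730))) (v (nat_lit 5) (k (nat_lit 0x13155c)))))) (u (nat_lit 5) (v (nat_lit 6) (k (nat_lit 0x152e14)))))))))))) (a (a (a (v (nat_lit 4) (a (a (v (nat_lit 8) (u (nat_lit 9) (k (nat_lit 0xb1a32)))) (a (v (nat_lit 7) (a (u (nat_lit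 9) (k (nat_lit 0x99990))) (u (nat_lit 8) (k (nat_lit 0x98fb8))))) (u (nat_lit 7) (a (v (nat_lit 9) (k (nat_lit 0x989c4))) (v (nat_lit 7) (k (nat_lit 0x98e2c))))))) (a (a (v (nat_lit 6) (a (u (nat_lit 9) (k (nat_lit 0x9910e))) (u (nat_lit 8) (k (nat_lit 0x98efe))))) (v (nat_lit 5) (a (u (nat_lit 8) (k (nat_lit 0x9919e))) (u (nat_lit 6) (k (nat_lit 0x98f28)))))) (a (u (nat_lit 5) (a (v (nat_lit 9) (k (nat_lit 0x997bc))) (a (v (nat_lit 8) (k (nat_lit 0x9893a))) (v (nat_lit 5) (k (nat_lit 0x99348)))))) (v (nat_lit 4) (a (u (nat_lit 8) (k (nat_lit 0x983d0))) (u (nat_lit 6) (k (nat_lit 0x98d54))))))))) (u (nat_lit 4) (a (a (v (nat_lit 9) (v (nat_lit 9) (k (nat_lit 0x98e2c)))) (a (v (nat_lit 8) (a (v (nat_lit 9) (k (nat_lit 0x9887a))) (v (nat_lit 8) (k (nat_lit 0x98e38))))) (v (nat_lit 7) (v (nat_lit 7) (k (nat_lit 0x98fac)))))) (a (a (v (nat_lit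 6) (a (v (nat_lit 9) (k (nat_lit 0x1316c4))) (a (v (nat_lit 7) (k (nat_lit 0x131a48))) (v (nat_lit 6) (k (nat_lit 0x98cac)))))) (v (nat_lit 5) (a (v (nat_lit 9) (k (nat_lit 0x98526))) (a (v (nat_lit 8) (k (nat_lit 0x9893a))) (v (nat_lit 7) (k (nat_lit 0x131898))))))) (a (u (nat_lit 5) (v (nat_lit 5) (k (nat_lit 0x9924c)))) (v (nat_lit 4) (a (a (v (nat_lit 9) (k (nat_lit 0x131cb8))) (a (v (nat_lit 8) (k (nat_lit 0x99174))) (v (nat_lit 7) (k (nat_lit 0x131af0))))) (a (u (nat_lit 6) (k (nat_lit 0x98d6c))) (a (v (nat_lit 5) (k (nat_lit 0x98d90))) (v (nat_lit 4) (k (nat_lit 0x98dcc)))))))))))) (a (v (nat_lit 3) (a (a (a (u (nat_lit 8) (a (v (nat_lit 9) (k (nat_lit 0x9903c))) (a (u (nat_lit 9) (k (nat_lit 0x985b0))) (v (nat_lit 8) (k (nat_lit 0x1321ec)))))) (v (nat_lit 7) (a (u (nat_lit 9) (k (nat_lit 0x66eb338))) (u (nat_lit 8) (k (nat_lit 0x9903c))))))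 (a (u (nat_lit 7) (a (v (nat_lit 9) (k (nat_lit 0x66eb338))) (u (nat_lit 8) (k (nat_lit 0x985b0))))) (v (nat_lit 6) (a (u (nat_lit 9) (k (nat_lit 0x9939c))) (a (u (nat_lit 8) (k (nat_lit 0x131bf8))) (u (nat_lit 7) (k (nat_lit 0x9939c)))))))) (a (a (v (nat_lit 5) (a (u (nat_lit 8) (k (nat_lit 0x98fb8))) (u (nat_lit 6) (k (nat_lit 0x98bf8))))) (u (nat_lit 5) (a (v (nat_lit 8) (k (nat_lit 0x9887a))) (a (v (nat_lit 6) (k (nat_lit 0x98f1c))) (v (nat_lit 5) (k (nat_lit 0x98db4))))))) (a (v (nat_lit 4) (u (nat_lit 8) (k (nat_lit 0x131934)))) (a (u (nat_lit 4) (a (v (nat_lit 6) (k (nat_lit 0x131bf8))) (a (v (nat_lit 5) (k (nat_lit 0x98d60))) (v (nat_lit 4) (k (nat_lit 0x131ab4)))))) (v (nat_lit 3) (a (u (nat_lit 8) (k (nat_lit 0x98e0e))) (u (nat_lit 4) (k (nat_lit 0x98d18)))))))))) (a (u (nat_lit 3) (a (a (a (v (nat_lit 9) (v (nat_lit 9) (k (nat_lit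 0x99ac8)))) (v (nat_lit 8) (v (nat_lit 8) (k (nat_lit 0x997b6))))) (a (v (nat_lit 7) (a (v (nat_lit 9) (k (nat_lit 0x66eb338))) (a (v (nat_lit 8) (k (nat_lit 0x9903c))) (u (nat_lit 8) (k (nat_lit 0x1319b8)))))) (v (nat_lit 6) (a (v (nat_lit 7) (k (nat_lit 0x98e80))) (v (nat_lit 6) (k (nat_lit 0x98cb8))))))) (a (a (u (nat_lit 6) (a (v (nat_lit 9) (k (nat_lit 0x56ea89e))) (u (nat_lit 9) (k (nat_lit 0x98562))))) (v (nat_lit 5) (a (v (nat_lit 8) (k (nat_lit 0xb1a32))) (v (nat_lit 7) (k (nat_lit 0x98c28)))))) (a (v (nat_lit 4) (a (v (nat_lit 9) (k (nat_lit 0x989c4))) (a (v (nat_lit 8) (k (nat_lit 0x9ab6c))) (v (nat_lit 7) (k (nat_lit 0x99990)))))) (a (u (nat_lit 4) (v (nat_lit 8) (k (nat_lit 0x99846)))) (v (nat_lit 3) (a (a (v (nat_lit 7) (k (nat_lit 0x999d8))) (v (nat_lit 6) (k (nat_lit 0x99054)))) (a (v (nat_lit 5) (k (nat_lit 0x98e98))) (v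 (nat_lit 3) (k (nat_lit 0x98d90))))))))))) (v (nat_lit 2) (a (a (a (u (nat_lit 8) (v (nat_lit 9) (k (nat_lit 0xb1a32)))) (v (nat_lit 7) (a (u (nat_lit 9) (k (nat_lit 0x98fb8))) (u (nat_lit 8) (k (nat_lit 0x99990)))))) (a (u (nat_lit 7) (a (v (nat_lit 8) (k (nat_lit 0x989c4))) (v (nat_lit 7) (k (nat_lit 0x98e2c))))) (a (v (nat_lit 6) (a (u (nat_lit 9) (k (nat_lit 0x98efe))) (u (nat_lit 8) (k (nat_lit 0x9910e))))) (v (nat_lit 5) (a (u (nat_lit 9) (k (nat_lit 0x9919e))) (u (nat_lit 6) (k (nat_lit 0x98f28)))))))) (a (a (u (nat_lit 5) (a (v (nat_lit 9) (k (nat_lit 0x9893a))) (a (v (nat_lit 8) (k (nat_lit 0x997bc))) (v (nat_lit 5) (k (nat_lit 0x99348)))))) (a (v (nat_lit 4) (a (a (u (nat_lit 9) (k (nat_lit 0x98d7e))) (u (nat_lit 8) (k (nat_lit 0x98d7e)))) (a (u (nat_lit 6) (k (nat_lit 0x131988))) (u (nat_lit 5) (k (nat_lit 0x131b80)))))) (u (nat_lit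 4) (a (a (v (nat_lit 9) (k (nat_lit 0x98526))) (v (nat_lit 8) (k (nat_lit 0x997bc)))) (a (v (nat_lit 7) (k (nat_lit 0x130db8))) (v (nat_lit 4) (k (nat_lit 0x98c1c)))))))) (a (v (nat_lit 3) (a (a (u (nat_lit 8) (k (nat_lit 0x98fb8))) (u (nat_lit 6) (k (nat_lit 0x98bf8)))) (a (u (nat_lit 5) (k (nat_lit 0x98cb8))) (u (nat_lit 4) (k (nat_lit 0x98d60)))))) (a (u (nat_lit 3) (v (nat_lit 7) (k (nat_lit 0x98fb8)))) (v (nat_lit 2) (a (u (nat_lit 9) (k (nat_lit 0x983d0))) (u (nat_lit 6) (k (nat_lit 0x98d54))))))))))))) (a (a (u (nat_lit 2) (a (a (a (v (nat_lit 9) (v (nat_lit 9) (k (nat_lit 0x98e38)))) (v (nat_lit 8) (a (v (nat_lit 9) (k (nat_lit 0x9887a))) (v (nat_lit 8) (k (nat_lit 0x98e2c)))))) (a (v (nat_lit 7) (v (nat_lit 7) (k (nat_lit 0x98fac)))) (v (nat_lit 6) (a (v (nat_lit 8) (k (nat_lit 0x1316c4))) (a (v (nat_lit 7) (k (nat_lit 0x131a48)))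 (v (nat_lit 6) (k (nat_lit 0x98cac)))))))) (a (a (v (nat_lit 5) (a (v (nat_lit 9) (k (nat_lit 0x9893a))) (a (v (nat_lit 8) (k (nat_lit 0x98526))) (v (nat_lit 7) (k (nat_lit 0x131898)))))) (u (nat_lit 5) (v (nat_lit 5) (k (nat_lit 0x9924c))))) (a (v (nat_lit 4) (a (v (nat_lit 9) (k (nat_lit 0x997bc))) (a (v (nat_lit 8) (k (nat_lit 0x98526))) (v (nat_lit 7) (k (nat_lit 0x130db8)))))) (a (v (nat_lit 3) (a (a (v (nat_lit 8) (k (nat_lit 0x9887a))) (v (nat_lit 6) (k (nat_lit 0x98f1c)))) (a (v (nat_lit 5) (k (nat_lit 0x98cb8))) (v (nat_lit 3) (k (nat_lit 0x98c28)))))) (v (nat_lit 2) (a (a (a (v (nat_lit 9) (k (nat_lit 0x99174))) (v (nat_lit 8) (k (nat_lit 0x131cb8)))) (a (v (nat_lit 7) (k (nat_lit 0x131af0))) (u (nat_lit 6) (k (nat_lit 0x98d6c))))) (a (a (v (nat_lit 5) (k (nat_lit 0x98d90))) (v (nat_lit 4) (k (nat_lit 0x98c1c)))) (a (v (nat_lit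 3) (k (nat_lit 0x98db4))) (v (nat_lit 2) (k (nat_lit 0x98dcc)))))))))))) (t (nat_lit 2) (nat_lit 4) (nat_lit 5) (a (a (v (nat_lit 8) (u (nat_lit 9) (k (nat_lit 0x5295cf0)))) (a (u (nat_lit 8) (v (nat_lit 9) (k (nat_lit 0x5295cf0)))) (u (nat_lit 6) (v (nat_lit 7) (k (nat_lit 0x22bb748)))))) (a (a (u (nat_lit 5) (v (nat_lit 5) (k (nat_lit 0xe90b11c)))) (u (nat_lit 4) (v (nat_lit 5) (k (nat_lit 0x91857a8))))) (a (u (nat_lit 3) (a (a (v (nat_lit 8) (k (nat_lit 0x5295cf0))) (v (nat_lit 6) (k (nat_lit 0x1ef8340)))) (a (v (nat_lit 5) (k (nat_lit 0x2432c10))) (u (nat_lit 4) (k (nat_lit 0x335fdd2)))))) (u (nat_lit 2) (v (nat_lit 5) (k (nat_lit 0x91857a8))))))))) (a (v (nat_lit 1) (a (a (a (u (nat_lit 9) (v (nat_lit 9) (k (nat_lit 0x1321ec)))) (a (v (nat_lit 8) (u (nat_lit 9) (k (nat_lit 0x9903c)))) (u (nat_lit 8) (u (nat_lit 9) (k (nat_lit 0x985b0))))))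 (a (a (v (nat_lit 7) (a (u (nat_lit 9) (k (nat_lit 0x9903c))) (u (nat_lit 8) (k (nat_lit 0x66eb338))))) (u (nat_lit 7) (a (u (nat_lit 9) (k (nat_lit 0x985b0))) (v (nat_lit 8) (k (nat_lit 0x66eb338)))))) (a (v (nat_lit 6) (a (u (nat_lit 9) (k (nat_lit 0x131bf8))) (a (u (nat_lit 8) (k (nat_lit 0x9939c))) (u (nat_lit 7) (k (nat_lit 0x9939c)))))) (v (nat_lit 5) (a (u (nat_lit 9) (k (nat_lit 0x98fb8))) (u (nat_lit 6) (k (nat_lit 0x98bf8)))))))) (a (a (a (u (nat_lit 5) (a (v (nat_lit 9) (k (nat_lit 0x9887a))) (a (v (nat_lit 6) (k (nat_lit 0x98f1c))) (v (nat_lit 5) (k (nat_lit 0x98db4)))))) (v (nat_lit 4) (a (u (nat_lit 9) (k (nat_lit 0x98fb8))) (a (u (nat_lit 6) (k (nat_lit 0x98bf8))) (u (nat_lit 5) (k (nat_lit 0x98cb8))))))) (a (u (nat_lit 4) (a (a (v (nat_lit 9) (k (nat_lit 0x9887a))) (v (nat_lit 6) (k (nat_lit 0x98f1c)))) (a (v (nat_lit 5)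 (k (nat_lit 0x98cb8))) (v (nat_lit 4) (k (nat_lit 0x98db4)))))) (v (nat_lit 3) (a (a (u (nat_lit 9) (k (nat_lit 0x1319d0))) (u (nat_lit 8) (k (nat_lit 0x1319d0)))) (a (u (nat_lit 7) (k (nat_lit 0x1319d0))) (a (u (nat_lit 5) (k (nat_lit 0x131a78))) (u (nat_lit 4) (k (nat_lit 0x131a78))))))))) (a (a (u (nat_lit 3) (a (v (nat_lit 8) (k (nat_lit 0x992d0))) (a (v (nat_lit 7) (k (nat_lit 0x992d0))) (v (nat_lit 6) (k (nat_lit 0x132534)))))) (v (nat_lit 2) (u (nat_lit 9) (k (nat_lit 0x131934))))) (a (u (nat_lit 2) (a (a (v (nat_lit 6) (k (nat_lit 0x131bf8))) (v (nat_lit 5) (k (nat_lit 0x98d60)))) (a (v (nat_lit 4) (k (nat_lit 0x98d60))) (a (v (nat_lit 3) (k (nat_lit 0x131a78))) (v (nat_lit 2) (k (nat_lit 0x131ab4))))))) (v (nat_lit 1) (a (a (u (nat_lit 9) (k (nat_lit 0x98e0e))) (u (nat_lit 4) (k (nat_lit 0x98c28)))) (a (u (nat_lit 3) (k (nat_lit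 0x98dde))) (u (nat_lit 2) (k (nat_lit 0x98d18))))))))))) (a (u (nat_lit 1) (a (a (a (v (nat_lit 9) (v (nat_lit 9) (k (nat_lit 0x997b6)))) (a (v (nat_lit 8) (v (nat_lit 8) (k (nat_lit 0x99ac8)))) (v (nat_lit 7) (a (v (nat_lit 9) (k (nat_lit 0x9903c))) (a (u (nat_lit 9) (k (nat_lit 0x1319b8))) (v (nat_lit 8) (k (nat_lit 0x66eb338)))))))) (a (v (nat_lit 6) (a (v (nat_lit 7) (k (nat_lit 0x98e80))) (v (nat_lit 6) (k (nat_lit 0x98cb8))))) (a (u (nat_lit 6) (a (v (nat_lit 8) (k (nat_lit 0x56ea89e))) (u (nat_lit 8) (k (nat_lit 0x98562))))) (v (nat_lit 5) (a (v (nat_lit 9) (k (nat_lit 0xb1a32))) (v (nat_lit 7) (k (nat_lit 0x98c28)))))))) (a (a (v (nat_lit 4) (v (nat_lit 7) (k (nat_lit 0x98fb8)))) (a (v (nat_lit 3) (a (a (v (nat_lit 9) (k (nat_lit 0x992d0))) (v (nat_lit 7) (k (nat_lit 0x992d0)))) (a (v (nat_lit 6) (k (nat_lit 0x132534))) (v (nat_lit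 3) (k (nat_lit 0x98dde)))))) (v (nat_lit 2) (a (v (nat_lit 9) (k (nat_lit 0x9ab6c))) (a (v (nat_lit 8) (k (nat_lit 0x989c4))) (v (nat_lit 7) (k (nat_lit 0x99990)))))))) (a (u (nat_lit 2) (v (nat_lit 9) (k (nat_lit 0x99846)))) (a (t (nat_lit 2) (nat_lit 4) (nat_lit 5) (a (a (v (nat_lit 9) (k (nat_lit 0x5295cf0))) (v (nat_lit 6) (k (nat_lit 0x1ef8340)))) (a (v (nat_lit 5) (k (nat_lit 0x2432c10))) (u (nat_lit 2) (k (nat_lit 0x335fdd2)))))) (v (nat_lit 1) (a (a (v (nat_lit 7) (k (nat_lit 0x999d8))) (v (nat_lit 6) (k (nat_lit 0x99054)))) (a (v (nat_lit 5) (k (nat_lit 0x98e98))) (v (nat_lit 1) (k (nat_lit 0x98d90))))))))))) (v (nat_lit 0) (a (a (a (a (u (nat_lit 9) (v (nat_lit 9) (k (nat_lit 0x99588)))) (v (nat_lit 8) (u (nat_lit 9) (k (nat_lit 0x997b6))))) (a (u (nat_lit 8) (a (v (nat_lit 9) (k (nat_lit 0x997b6))) (a (u (nat_lit 9) (k (nat_lit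 0x131b74))) (v (nat_lit 8) (k (nat_lit 0x99588)))))) (u (nat_lit 7) (a (v (nat_lit 9) (k (nat_lit 0x99ac8))) (a (v (nat_lit 8) (k (nat_lit 0x99ac8))) (v (nat_lit 7) (k (nat_lit 0x131b44)))))))) (a (a (v (nat_lit 6) (a (u (nat_lit 9) (k (nat_lit 0x984e4))) (a (u (nat_lit 8) (k (nat_lit 0x984e4))) (u (nat_lit 7) (k (nat_lit 0x1319b8)))))) (v (nat_lit 5) (u (nat_lit 6) (k (nat_lit 0x1319f4))))) (a (u (nat_lit 5) (a (v (nat_lit 9) (k (nat_lit 0x98e38))) (a (v (nat_lit 8) (k (nat_lit 0x98e38))) (v (nat_lit 7) (k (nat_lit 0x13164c)))))) (v (nat_lit 4) (u (nat_lit 6) (k (nat_lit 0x98cb8))))))) (a (a (a (u (nat_lit 4) (a (v (nat_lit 9) (k (nat_lit 0x98e2c))) (a (v (nat_lit 8) (k (nat_lit 0x98f9a))) (v (nat_lit 7) (k (nat_lit 0x98fac)))))) (v (nat_lit 3) (a (u (nat_lit 8) (k (nat_lit 0x98e0e))) (a (u (nat_lit 5) (k (nat_lit 0x98c28))) (u (nat_lit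 4) (k (nat_lit 0x98d18))))))) (a (u (nat_lit 3) (a (a (v (nat_lit 9) (k (nat_lit 0x99fcc))) (v (nat_lit 8) (k (nat_lit 0x1f92fa2)))) (a (v (nat_lit 7) (k (nat_lit 0x98d60))) (a (v (nat_lit 5) (k (nat_lit 0x98dd8))) (v (nat_lit 3) (k (nat_lit 0x98dc0))))))) (v (nat_lit 2) (a (u (nat_lit 6) (k (nat_lit 0x98cb8))) (u (nat_lit 3) (k (nat_lit 0x98c88))))))) (a (a (u (nat_lit 2) (a (v (nat_lit 9) (k (nat_lit 0x98f9a))) (a (v (nat_lit 8) (k (nat_lit 0x98e2c))) (v (nat_lit 7) (k (nat_lit 0x98fac)))))) (v (nat_lit 1) (a (a (u (nat_lit 9) (k (nat_lit 0x98e0e))) (u (nat_lit 5) (k (nat_lit 0x98c28)))) (a (u (nat_lit 3) (k (nat_lit 0x98dde))) (u (nat_lit 2) (k (nat_lit 0x98d18))))))) (a (u (nat_lit 1) (a (a (v (nat_lit 9) (k (nat_lit 0x1f92fa2))) (a (v (nat_lit 8) (k (nat_lit 0x99fcc))) (v (nat_lit 7) (k (nat_lit 0x98d60))))) (a (a (v (nat_lit 5) (k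 (nat_lit 0x98dd8))) (v (nat_lit 4) (k (nat_lit 0x98c88)))) (a (v (nat_lit 3) (k (nat_lit 0x98dde))) (v (nat_lit 1) (k (nat_lit 0x98dc0))))))) (v (nat_lit 0) (a (u (nat_lit 9) (k (nat_lit 0x98bf8))) (u (nat_lit 8) (k (nat_lit 0x98bf8)))))))))))))))) (u (nat_lit 0) (a (a (a (a (v (nat_lit 9) (v (nat_lit 9) (v (nat_lit 9) (k (nat_lit 0x98bf8))))) (v (nat_lit 8) (a (v (nat_lit 9) (v (nat_lit 9) (k (nat_lit 0x98e0e)))) (v (nat_lit 8) (a (v (nat_lit 9) (k (nat_lit 0x98e0e))) (v (nat_lit 8) (k (nat_lit 0x98bf8)))))))) (a (v (nat_lit 7) (v (nat_lit 8) (v (nat_lit 9) (k (nat_lit 0x1319d0))))) (v (nat_lit 6) (a (a (v (nat_lit 9) (v (nat_lit 9) (k (nat_lit 0x984e4)))) (a (u (nat_lit 9) (v (nat_lit 9) (k (nat_lit 0x984d2)))) (v (nat_lit 8) (a (v (nat_lit 9) (k (nat_lit 0x131bf8))) (v (nat_lit 8) (k (nat_lit 0x984e4))))))) (a (u (nat_lit 8) (v (nat_lit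 8) (k (nat_lit 0x984d2)))) (a (v (nat_lit 7) (a (v (nat_lit 9) (k (nat_lit 0x9939c))) (a (v (nat_lit 8) (k (nat_lit 0x9939c))) (v (nat_lit 7) (k (nat_lit 0x1319b8)))))) (v (nat_lit 6) (a (v (nat_lit 9) (k (nat_lit 0x98ca6))) (a (v (nat_lit 8) (k (nat_lit 0x98ca6))) (v (nat_lit 7) (k (nat_lit 0x1319d0)))))))))))) (a (a (u (nat_lit 6) (u (nat_lit 7) (a (v (nat_lit 9) (k (nat_lit 0x98562))) (v (nat_lit 8) (k (nat_lit 0x98562)))))) (v (nat_lit 5) (a (v (nat_lit 8) (v (nat_lit 9) (k (nat_lit 0x131934)))) (a (v (nat_lit 6) (a (v (nat_lit 9) (k (nat_lit 0x98efe))) (a (v (nat_lit 8) (k (nat_lit 0x98efe))) (v (nat_lit 7) (k (nat_lit 0x131d48)))))) (v (nat_lit 5) (a (v (nat_lit 9) (k (nat_lit 0x983d0))) (v (nat_lit 8) (k (nat_lit 0x983d0))))))))) (a (u (nat_lit 5) (a (v (nat_lit 6) (v (nat_lit 7) (k (nat_lit 0x7e9a590)))) (v (nat_lit 5) (a (u (nat_lit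 9) (k (nat_lit 0x99456))) (u (nat_lit 8) (k (nat_lit 0x99456))))))) (v (nat_lit 4) (a (a (v (nat_lit 8) (v (nat_lit 9) (k (nat_lit 0x98fb8)))) (v (nat_lit 6) (a (v (nat_lit 9) (k (nat_lit 0x9910e))) (v (nat_lit 8) (k (nat_lit 0x98c3a)))))) (a (v (nat_lit 5) (a (v (nat_lit 9) (k (nat_lit 0x98d7e))) (v (nat_lit 8) (k (nat_lit 0x9919e))))) (v (nat_lit 4) (v (nat_lit 8) (k (nat_lit 0x98a96)))))))))) (a (a (a (u (nat_lit 4) (a (u (nat_lit 5) (u (nat_lit 6) (k (nat_lit 0x98fe8)))) (v (nat_lit 4) (u (nat_lit 8) (k (nat_lit 0x99456)))))) (v (nat_lit 3) (a (a (a (v (nat_lit 8) (a (v (nat_lit 9) (k (nat_lit 0x9903c))) (v (nat_lit 8) (k (nat_lit 0x997b6))))) (u (nat_lit 8) (v (nat_lit 9) (k (nat_lit 0x1319b8))))) (a (v (nat_lit 7) (a (v (nat_lit 9) (k (nat_lit 0x66eb338))) (v (nat_lit 7) (k (nat_lit 0x99ac8))))) (v (nat_lit 6) (a (v (nat_lit 9) (k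 (nat_lit 0x98e80))) (v (nat_lit 6) (k (nat_lit 0x98cb8))))))) (a (a (u (nat_lit 6) (a (v (nat_lit 7) (k (nat_lit 0x56ea89e))) (u (nat_lit 7) (k (nat_lit 0x98562))))) (v (nat_lit 5) (v (nat_lit 9) (k (nat_lit 0x98fb8))))) (a (v (nat_lit 4) (a (v (nat_lit 9) (k (nat_lit 0x99990))) (a (v (nat_lit 8) (k (nat_lit 0x9ab6c))) (v (nat_lit 7) (k (nat_lit 0x989c4)))))) (a (u (nat_lit 4) (v (nat_lit 8) (k (nat_lit 0x99846)))) (v (nat_lit 3) (a (a (v (nat_lit 9) (k (nat_lit 0x98d60))) (v (nat_lit 8) (k (nat_lit 0x1f92fa2)))) (a (v (nat_lit 7) (k (nat_lit 0x99fcc))) (v (nat_lit 5) (k (nat_lit 0x98c88)))))))))))) (a (u (nat_lit 3) (a (v (nat_lit 8) (a (v (nat_lit 9) (k (nat_lit 0x985b0))) (v (nat_lit 8) (k (nat_lit 0x131b74))))) (v (nat_lit 7) (v (nat_lit 8) (k (nat_lit 0x985b0)))))) (v (nat_lit 2) (a (a (v (nat_lit 8) (v (nat_lit 9) (k (nat_lit 0x98fb8))))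 (v (nat_lit 6) (a (v (nat_lit 9) (k (nat_lit 0x98c3a))) (v (nat_lit 8) (k (nat_lit 0x9910e)))))) (a (v (nat_lit 5) (a (v (nat_lit 9) (k (nat_lit 0x9919e))) (v (nat_lit 8) (k (nat_lit 0x98d7e))))) (a (v (nat_lit 3) (a (v (nat_lit 9) (k (nat_lit 0x98c28))) (a (v (nat_lit 8) (k (nat_lit 0xb1a32))) (v (nat_lit 3) (k (nat_lit 0x98dd8)))))) (v (nat_lit 2) (v (nat_lit 9) (k (nat_lit 0x98a96)))))))))) (a (a (u (nat_lit 2) (a (u (nat_lit 5) (u (nat_lit 6) (k (nat_lit 0x98fe8)))) (v (nat_lit 2) (u (nat_lit 9) (k (nat_lit 0x99456)))))) (t (nat_lit 2) (nat_lit 4) (nat_lit 5) (a (v (nat_lit 3) (a (v (nat_lit 8) (k (nat_lit 0x5295cf0))) (a (v (nat_lit 6) (k (nat_lit 0x1ef8340))) (u (nat_lit 4) (k (nat_lit 0x335fdd2)))))) (v (nat_lit 2) (v (nat_lit 3) (k (nat_lit 0x2432c10))))))) (a (v (nat_lit 1) (a (a (a (v (nat_lit 9) (v (nat_lit 9) (k (nat_lit 0x997b6))))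 (a (v (nat_lit 8) (a (v (nat_lit 9) (k (nat_lit 0x9903c))) (u (nat_lit 9) (k (nat_lit 0x1319b8))))) (v (nat_lit 7) (a (v (nat_lit 8) (k (nat_lit 0x66eb338))) (v (nat_lit 7) (k (nat_lit 0x99ac8))))))) (a (v (nat_lit 6) (a (v (nat_lit 8) (k (nat_lit 0x98e80))) (v (nat_lit 6) (k (nat_lit 0x98cb8))))) (a (u (nat_lit 6) (a (v (nat_lit 7) (k (nat_lit 0x56ea89e))) (u (nat_lit 7) (k (nat_lit 0x98562))))) (v (nat_lit 5) (v (nat_lit 8) (k (nat_lit 0x98fb8))))))) (a (a (v (nat_lit 4) (a (v (nat_lit 9) (k (nat_lit 0xb1a32))) (v (nat_lit 8) (k (nat_lit 0x98c28))))) (a (v (nat_lit 3) (a (a (v (nat_lit 9) (k (nat_lit 0x992d0))) (v (nat_lit 8) (k (nat_lit 0x992d0)))) (a (v (nat_lit 6) (k (nat_lit 0x132534))) (v (nat_lit 3) (k (nat_lit 0x98dde)))))) (v (nat_lit 2) (a (v (nat_lit 9) (k (nat_lit 0x9ab6c))) (a (v (nat_lit 8) (k (nat_lit 0x99990))) (v (nat_lit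 7) (k (nat_lit 0x989c4)))))))) (a (u (nat_lit 2) (v (nat_lit 9) (k (nat_lit 0x99846)))) (a (t (nat_lit 2) (nat_lit 4) (nat_lit 5) (a (a (v (nat_lit 9) (k (nat_lit 0x5295cf0))) (v (nat_lit 6) (k (nat_lit 0x1ef8340)))) (a (v (nat_lit 4) (k (nat_lit 0x2432c10))) (u (nat_lit 2) (k (nat_lit 0x335fdd2)))))) (v (nat_lit 1) (a (a (v (nat_lit 9) (k (nat_lit 0x1f92fa2))) (a (v (nat_lit 8) (k (nat_lit 0x98d60))) (v (nat_lit 7) (k (nat_lit 0x99fcc))))) (a (v (nat_lit 5) (k (nat_lit 0x98c88))) (a (v (nat_lit 4) (k (nat_lit 0x98dd8))) (v (nat_lit 3) (k (nat_lit 0x98dde)))))))))))) (a (u (nat_lit 1) (a (v (nat_lit 9) (v (nat_lit 9) (k (nat_lit 0x131b74)))) (a (v (nat_lit 8) (v (nat_lit 9) (k (nat_lit 0x985b0)))) (v (nat_lit 7) (v (nat_lit 9) (k (nat_lit 0x985b0))))))) (v (nat_lit 0) (a (a (a (v (nat_lit 9) (v (nat_lit 9) (k (nat_lit 0x99588)))) (a (v (nat_lit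 8) (a (v (nat_lit 9) (k (nat_lit 0x1321ec))) (v (nat_lit 8) (k (nat_lit 0x99588))))) (v (nat_lit 7) (v (nat_lit 7) (k (nat_lit 0x131b44)))))) (a (v (nat_lit 6) (a (a (u (nat_lit 9) (k (nat_lit 0x984d2))) (u (nat_lit 8) (k (nat_lit 0x984d2)))) (a (v (nat_lit 7) (k (nat_lit 0x131b20))) (v (nat_lit 6) (k (nat_lit 0x131a0c)))))) (a (u (nat_lit 6) (a (v (nat_lit 9) (k (nat_lit 0x99b22))) (v (nat_lit 8) (k (nat_lit 0x99b22))))) (v (nat_lit 5) (a (v (nat_lit 7) (k (nat_lit 0x131e8c))) (v (nat_lit 5) (k (nat_lit 0x131a3c)))))))) (a (a (u (nat_lit 5) (v (nat_lit 6) (k (nat_lit 0x3ed43bf0)))) (a (v (nat_lit 4) (a (a (v (nat_lit 8) (k (nat_lit 0x83a3426))) (v (nat_lit 7) (k (nat_lit 0x98e2c)))) (a (v (nat_lit 6) (k (nat_lit 0x27c20b8))) (a (v (nat_lit 5) (k (nat_lit 0x98cf4))) (v (nat_lit 4) (k (nat_lit 0x98e68))))))) (v (nat_lit 3) (a (v (nat_lit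 9) (k (nat_lit 0x999d8))) (a (v (nat_lit 6) (k (nat_lit 0x99054))) (v (nat_lit 3) (k (nat_lit 0x98dc0)))))))) (a (a (v (nat_lit 2) (a (a (v (nat_lit 9) (k (nat_lit 0x83a3426))) (a (v (nat_lit 7) (k (nat_lit 0x98e2c))) (v (nat_lit 6) (k (nat_lit 0x27c20b8))))) (a (a (v (nat_lit 5) (k (nat_lit 0x98cf4))) (v (nat_lit 4) (k (nat_lit 0x131b08)))) (a (v (nat_lit 3) (k (nat_lit 0x98e98))) (v (nat_lit 2) (k (nat_lit 0x98e68))))))) (t (nat_lit 2) (nat_lit 4) (nat_lit 5) (a (v (nat_lit 6) (k (nat_lit 0x29f1f3c))) (v (nat_lit 5) (k (nat_lit 0xa025f4)))))) (a (v (nat_lit 1) (a (a (v (nat_lit 8) (k (nat_lit 0x999d8))) (v (nat_lit 6) (k (nat_lit 0x99054)))) (a (v (nat_lit 4) (k (nat_lit 0x98e98))) (v (nat_lit 1) (k (nat_lit 0x98dc0)))))) (v (nat_lit 0) (a (a (a (v (nat_lit 9) (k (nat_lit 0x999f0))) (v (nat_lit 8) (k (nat_lit 0x999f0)))) (a (v (nat_lit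 7) (k (nat_lit 0x131b80))) (a (v (nat_lit 6) (k (nat_lit 0x131acc))) (v (nat_lit 5) (k (nat_lit 0x131b68)))))) (a (a (v (nat_lit 4) (k (nat_lit 0x98d6c))) (v (nat_lit 3) (k (nat_lit 0x98d90)))) (a (v (nat_lit 2) (k (nat_lit 0x98d6c))) (a (v (nat_lit 1) (k (nat_lit 0x98d90))) (v (nat_lit 0) (k (nat_lit 0x131a24))))))))))))))))))))))))

open Fl.Tr in
/-- the table -/
noncomputable def T : Fl.Tr := (c (c (c (c (c (c (c (c (c (c (m (nat_lit 0x6f352980)) (c (m (nat_lit 0x66c10b0)) (c (p (nat_lit 0x131b74)) (c (p (nat_lit 0x263214)) (c (m (nat_lit 0x131a24)) e))))) (c (c (m (nat_lit 0x66c10b0)) (c (p (nat_lit 0x66bfc40)) (c (p (nat_lit 0x39507c)) (c (m (nat_lit 0x98d90)) e)))) (c (c (p (nat_lit 0x131b74)) (c (p (nat_lit 0x39507c)) (c (m (nat_lit 0x131b80)) e))) (c (c (p (nat_lit 0x263214)) (c (m (nat_lit 0x98d90)) e)) (c (c (m (nat_lit 0x131a24))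 e) e))))) (c (c (c (m (nat_lit 0x66c10b0)) (c (p (nat_lit 0x66bfc40)) (c (p (nat_lit 0x39507c)) (c (m (nat_lit 0x98d90)) e)))) (c (c (p (nat_lit 0x66bfc40)) (c (p (nat_lit 0x729cd8)) (c (m (nat_lit 0x131bbc)) e))) (c (c (p (nat_lit 0x39507c)) (c (m (nat_lit 0x131bbc)) e)) (c (c (m (nat_lit 0x98d90)) e) e)))) (c (c (c (p (nat_lit 0x131b74)) (c (p (nat_lit 0x39507c)) (c (m (nat_lit 0x131b80)) e))) (c (c (p (nat_lit 0x39507c)) (c (m (nat_lit 0x131bbc)) e)) (c (c (m (nat_lit 0x131b80)) e) e))) (c (c (c (p (nat_lit 0x263214)) (c (m (nat_lit 0x98d90)) e)) (c (c (m (nat_lit 0x98d90)) e) e)) (c (c (c (m (nat_lit 0x131a24)) e) e) e))))) (c (c (c (c (m (nat_lit 0x9b130948)) (c (p (nat_lit 0x40680888)) (c (m (nat_lit 0x3c0ee80c)) (c (m (nat_lit 0x131acc)) e)))) (c (c (p (nat_lit 0x40680888)) (c (p (nat_lit 0x464d480)) (c (m (nat_lit 0x99054)) e)))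 (c (c (m (nat_lit 0x3c0ee80c)) (c (m (nat_lit 0x99054)) e)) (c (c (m (nat_lit 0x131acc)) e) e)))) (c (c (c (p (nat_lit 0x40680888)) (c (p (nat_lit 0x464d480)) (c (m (nat_lit 0x99054)) e))) (c (c (p (nat_lit 0x464d480)) (c (m (nat_lit 0x396f9c)) e)) (c (c (m (nat_lit 0x99054)) e) e))) (c (c (c (m (nat_lit 0x3c0ee80c)) (c (m (nat_lit 0x99054)) e)) (c (c (m (nat_lit 0x99054)) e) e)) (c (c (c (m (nat_lit 0x131acc)) e) e) e)))) (c (c (c (c (p (nat_lit 0xe5d1a4d0)) (c (p (nat_lit 0x85bbac)) (c (m (nat_lit 0x131a0c)) e))) (c (c (p (nat_lit 0x85bbac)) (c (m (nat_lit 0x131970)) e)) (c (c (m (nat_lit 0x131a0c)) e) e))) (c (c (c (p (nat_lit 0x85bbac)) (c (m (nat_lit 0x131970)) e)) (c (c (m (nat_lit 0x131970)) e) e)) (c (c (c (m (nat_lit 0x131a0c)) e) e) e))) (c (c (c (c (p (nat_lit 0xe534a0)) (c (m (nat_lit 0x131a54)) e)) (c (c (m (nat_lit 0x131a54))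 e) e)) (c (c (c (m (nat_lit 0x131a54)) e) e) e)) (c (c (c (c (m (nat_lit 0x7296a8)) e) e) e) e))))) (c (c (c (c (c (p (nat_lit 0xc6192198)) (c (p (nat_lit 0x9ab8274)) (c (p (nat_lit 0x1ca6ac)) (c (m (nat_lit 0x98d6c)) e)))) (c (c (p (nat_lit 0x9ab8274)) (c (m (nat_lit 0xcb1c360)) (c (m (nat_lit 0x98d18)) e))) (c (c (p (nat_lit 0x1ca6ac)) (c (m (nat_lit 0x98d18)) e)) (c (c (m (nat_lit 0x98d6c)) e) e)))) (c (c (c (m (nat_lit 0x1f68c720)) (c (m (nat_lit 0x3ef7d80)) (c (m (nat_lit 0x131b20)) e))) (c (c (m (nat_lit 0x3ef7d80)) (c (m (nat_lit 0x131a78)) e)) (c (c (m (nat_lit 0x131b20)) e) e))) (c (c (c (p (nat_lit 0xd97700)) (c (m (nat_lit 0x131a00)) e)) (c (c (m (nat_lit 0x131a00)) e) e)) (c (c (c (m (nat_lit 0x131b68)) e) e) e)))) (c (c (c (c (p (nat_lit 0xb64c1f50)) (c (p (nat_lit 0x8fa492c)) (c (m (nat_lit 0x524ccac)) e))) (c (c (p (nat_lit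 0x8fa492c)) (c (m (nat_lit 0x3f22278)) e)) (c (c (m (nat_lit 0x524ccac)) e) e))) (c (c (c (m (nat_lit 0x40570200)) (c (m (nat_lit 0x3f22194)) e)) (c (c (m (nat_lit 0x3f22194)) e) e)) (c (c (c (p (nat_lit 0x3c2202c0)) e) e) e))) (c (c (c (c (m (nat_lit 0x1339e7c50)) (c (m (nat_lit 0x98cac)) e)) (c (c (m (nat_lit 0x98cac)) e) e)) (c (c (c (m (nat_lit 0x132168)) e) e) e)) (c (c (c (c (p (nat_lit 0x870)) e) e) e) e)))) (c (c (c (c (c (m (nat_lit 0x6fa7ed28)) (c (m (nat_lit 0x30fc990)) (c (m (nat_lit 0x98e68)) e))) (c (c (m (nat_lit 0x30fc990)) (c (p (nat_lit 0x658e0f0)) e)) (c (c (m (nat_lit 0x98e68)) e) e))) (c (c (c (p (nat_lit 0x34c4f1d8)) (c (m (nat_lit 0x24cb9c4)) e)) (c (c (m (nat_lit 0x24cb9c4)) e) e)) (c (c (c (m (nat_lit 0xb34030)) e) e) e))) (c (c (c (c (m (nat_lit 0x1b63780)) (c (p (nat_lit 0x18)) e)) (c (c (p (nat_lit 0x18)) e) e))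 (c (c (c (p (nat_lit 0x214b0)) e) e) e)) (c (c (c (c (p (nat_lit 0x4c9b3a50)) e) e) e) e))) (c (c (c (c (c (p (nat_lit 0x1936b810)) (c (m (nat_lit 0x98dcc)) e)) (c (c (m (nat_lit 0x98dcc)) e) e)) (c (c (c (m (nat_lit 0xea3c678)) e) e) e)) (c (c (c (c (m (nat_lit 0x19107900)) e) e) e) e)) (c (c (c (c (c (m (nat_lit 0x2631c0)) e) e) e) e) e))))) (c (c (c (c (c (c (p (nat_lit 0xc6192198)) (c (p (nat_lit 0x9ab8274)) (c (p (nat_lit 0x1ca6ac)) (c (m (nat_lit 0x98d6c)) e)))) (c (c (m (nat_lit 0x1f68c720)) (c (m (nat_lit 0x3ef7d80)) (c (m (nat_lit 0x131b20)) e))) (c (c (p (nat_lit 0xd97700)) (c (m (nat_lit 0x131a00)) e)) (c (c (m (nat_lit 0x131b68)) e) e)))) (c (c (c (p (nat_lit 0x9ab8274)) (c (m (nat_lit 0xcb1c360)) (c (m (nat_lit 0x98d18)) e))) (c (c (m (nat_lit 0x3ef7d80)) (c (m (nat_lit 0x131a78)) e)) (c (c (m (nat_lit 0x131a00)) e) e))) (c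 (c (c (p (nat_lit 0x1ca6ac)) (c (m (nat_lit 0x98d18)) e)) (c (c (m (nat_lit 0x131b20)) e) e)) (c (c (c (m (nat_lit 0x98d6c)) e) e) e)))) (c (c (c (c (p (nat_lit 0xb64c1f50)) (c (p (nat_lit 0x8fa492c)) (c (m (nat_lit 0x524ccac)) e))) (c (c (m (nat_lit 0x40570200)) (c (m (nat_lit 0x3f22194)) e)) (c (c (p (nat_lit 0x3c2202c0)) e) e))) (c (c (c (p (nat_lit 0x8fa492c)) (c (m (nat_lit 0x3f22278)) e)) (c (c (m (nat_lit 0x3f22194)) e) e)) (c (c (c (m (nat_lit 0x524ccac)) e) e) e))) (c (c (c (c (m (nat_lit 0x1339e7c50)) (c (m (nat_lit 0x98cac)) e)) (c (c (m (nat_lit 0x132168)) e) e)) (c (c (c (m (nat_lit 0x98cac)) e) e) e)) (c (c (c (c (p (nat_lit 0x870)) e) e) e) e)))) (c (c (c (c (c (m (nat_lit 0xd1329068)) (c (m (nat_lit 0x60c7860)) (c (m (nat_lit 0x131b08)) e))) (c (c (p (nat_lit 0x2be6e4b4)) (c (p (nat_lit 0x41f4234)) e)) (c (c (m (nat_lit 0xa9b2e8))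 e) e))) (c (c (c (p (nat_lit 0x2be6e4b4)) (c (p (nat_lit 0x41f4234)) e)) (c (c (m (nat_lit 0x4997190)) e) e)) (c (c (c (m (nat_lit 0xa9b2e8)) e) e) e))) (c (c (c (c (m (nat_lit 0x34f479a8)) (c (m (nat_lit 0x131988)) e)) (c (c (p (nat_lit 0xc0)) e) e)) (c (c (c (p (nat_lit 0xc0)) e) e) e)) (c (c (c (c (p (nat_lit 0x99a90a28)) e) e) e) e))) (c (c (c (c (c (p (nat_lit 0x3dad1bcc)) (c (m (nat_lit 0x98c1c)) e)) (c (c (m (nat_lit 0x921e538)) e) e)) (c (c (c (m (nat_lit 0x17a909c0)) e) e) e)) (c (c (c (c (m (nat_lit 0x18fd62f0)) e) e) e) e)) (c (c (c (c (c (m (nat_lit 0x263760)) e) e) e) e) e)))) (c (c (c (c (c (c (m (nat_lit 0x6fa7ed28)) (c (m (nat_lit 0x30fc990)) (c (m (nat_lit 0x98e68)) e))) (c (c (p (nat_lit 0x34c4f1d8)) (c (m (nat_lit 0x24cb9c4)) e)) (c (c (m (nat_lit 0xb34030)) e) e))) (c (c (c (m (nat_lit 0x30fc990)) (c (p (nat_lit 0x658e0f0))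 e)) (c (c (m (nat_lit 0x24cb9c4)) e) e)) (c (c (c (m (nat_lit 0x98e68)) e) e) e))) (c (c (c (c (m (nat_lit 0x1b63780)) (c (p (nat_lit 0x18)) e)) (c (c (p (nat_lit 0x214b0)) e) e)) (c (c (c (p (nat_lit 0x18)) e) e) e)) (c (c (c (c (p (nat_lit 0x4c9b3a50)) e) e) e) e))) (c (c (c (c (c (p (nat_lit 0x3dad1bcc)) (c (m (nat_lit 0x98c1c)) e)) (c (c (m (nat_lit 0x17a909c0)) e) e)) (c (c (c (m (nat_lit 0x921e538)) e) e) e)) (c (c (c (c (m (nat_lit 0x18fd62f0)) e) e) e) e)) (c (c (c (c (c (m (nat_lit 0x4c6c68)) e) e) e) e) e))) (c (c (c (c (c (c (p (nat_lit 0x1936b810)) (c (m (nat_lit 0x98dcc)) e)) (c (c (m (nat_lit 0xea3c678)) e) e)) (c (c (c (m (nat_lit 0x98dcc)) e) e) e)) (c (c (c (c (m (nat_lit 0x19107900)) e) e) e) e)) (c (c (c (c (c (m (nat_lit 0x263760)) e) e) e) e) e)) (c (c (c (c (c (c (m (nat_lit 0x2631c0)) e) e) e) e) e) e))))) (c (c (c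 (c (c (c (c (m (nat_lit 0x66c10b0)) (c (m (nat_lit 0x20583d8)) (c (p (nat_lit 0x5f8728)) (c (m (nat_lit 0x131b80)) e)))) (c (c (p (nat_lit 0x9df368)) (c (p (nat_lit 0x109ad78)) (c (m (nat_lit 0x98d60)) e))) (c (c (p (nat_lit 0x22926cc)) (c (m (nat_lit 0x1339a4)) e)) (c (c (m (nat_lit 0x1325e8)) e) e)))) (c (c (c (p (nat_lit 0x9df368)) (c (p (nat_lit 0x109ad78)) (c (m (nat_lit 0x98d60)) e))) (c (c (p (nat_lit 0xa52b0d4)) (c (m (nat_lit 0x263f70)) e)) (c (c (m (nat_lit 0x202bdb0)) e) e))) (c (c (c (p (nat_lit 0x22926cc)) (c (m (nat_lit 0x1339a4)) e)) (c (c (m (nat_lit 0x202bdb0)) e) e)) (c (c (c (m (nat_lit 0x1325e8)) e) e) e)))) (c (c (c (c (p (nat_lit 0x40680888)) (c (m (nat_lit 0xd0ebf70)) (c (m (nat_lit 0x2634d8)) e))) (c (c (m (nat_lit 0xac9c440)) (c (p (nat_lit 0x5520120)) e)) (c (c (p (nat_lit 0x99b10)) e) e))) (c (c (c (m (nat_lit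 0xac9c440)) (c (p (nat_lit 0x5520120)) e)) (c (c (m (nat_lit 0x131bf8)) e) e)) (c (c (c (p (nat_lit 0x99b10)) e) e) e))) (c (c (c (c (p (nat_lit 0x85bbac)) (c (m (nat_lit 0x2633a0)) e)) (c (c (m (nat_lit 0x26c4a8)) e) e)) (c (c (c (m (nat_lit 0x26c4a8)) e) e) e)) (c (c (c (c (m (nat_lit 0x131a54)) e) e) e) e)))) (c (c (c (c (c (p (nat_lit 0x9ab8274)) (c (p (nat_lit 0x28b4ed8)) (c (m (nat_lit 0x131dd8)) e))) (c (c (p (nat_lit 0xa8c1998)) (c (m (nat_lit 0x132354)) e)) (c (c (m (nat_lit 0x98e2c)) e) e))) (c (c (c (p (nat_lit 0x12be4f88)) (c (m (nat_lit 0x98fb8)) e)) (c (c (m (nat_lit 0xa70ec44)) e) e)) (c (c (c (m (nat_lit 0x98e38)) e) e) e))) (c (c (c (c (p (nat_lit 0x8fa492c)) (c (m (nat_lit 0x23ed190)) e)) (c (c (m (nat_lit 0x2638e0)) e) e)) (c (c (c (m (nat_lit 0x131b38)) e) e) e)) (c (c (c (c (m (nat_lit 0x98cac)) e) e) e) e))) (c (c (c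 (c (c (m (nat_lit 0x30fc990)) (c (m (nat_lit 0x131af0)) e)) (c (c (m (nat_lit 0x131cb8)) e) e)) (c (c (c (m (nat_lit 0x263430)) e) e) e)) (c (c (c (c (p (nat_lit 0x18)) e) e) e) e)) (c (c (c (c (c (m (nat_lit 0x98dcc)) e) e) e) e) e)))) (c (c (c (c (c (c (p (nat_lit 0x9ab8274)) (c (p (nat_lit 0x28b4ed8)) (c (m (nat_lit 0x131dd8)) e))) (c (c (p (nat_lit 0x12be4f88)) (c (m (nat_lit 0x98fb8)) e)) (c (c (m (nat_lit 0x98e38)) e) e))) (c (c (c (p (nat_lit 0xa8c1998)) (c (m (nat_lit 0x132354)) e)) (c (c (m (nat_lit 0xa70ec44)) e) e)) (c (c (c (m (nat_lit 0x98e2c)) e) e) e))) (c (c (c (c (p (nat_lit 0x8fa492c)) (c (m (nat_lit 0x23ed190)) e)) (c (c (m (nat_lit 0x131b38)) e) e)) (c (c (c (m (nat_lit 0x2638e0)) e) e) e)) (c (c (c (c (m (nat_lit 0x98cac)) e) e) e) e))) (c (c (c (c (c (m (nat_lit 0x60c7860)) (c (m (nat_lit 0x261b70)) e)) (c (c (m (nat_lit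 0x1caa60)) e) e)) (c (c (c (m (nat_lit 0x1caa60)) e) e) e)) (c (c (c (c (m (nat_lit 0x131988)) e) e) e) e)) (c (c (c (c (c (m (nat_lit 0x98c1c)) e) e) e) e) e))) (c (c (c (c (c (c (m (nat_lit 0x30fc990)) (c (m (nat_lit 0x131af0)) e)) (c (c (m (nat_lit 0x263430)) e) e)) (c (c (c (m (nat_lit 0x131cb8)) e) e) e)) (c (c (c (c (p (nat_lit 0x18)) e) e) e) e)) (c (c (c (c (c (m (nat_lit 0x98c1c)) e) e) e) e) e)) (c (c (c (c (c (c (m (nat_lit 0x98dcc)) e) e) e) e) e) e)))) (c (c (c (c (c (c (c (p (nat_lit 0x131b74)) (c (p (nat_lit 0x5f8728)) (c (m (nat_lit 0x263688)) e))) (c (c (p (nat_lit 0x22926cc)) (c (m (nat_lit 0x99ac8)) e)) (c (c (m (nat_lit 0x132b10)) e) e))) (c (c (c (p (nat_lit 0x22926cc)) (c (m (nat_lit 0x99ac8)) e)) (c (c (m (nat_lit 0x1335e4)) e) e)) (c (c (c (m (nat_lit 0x132b10)) e) e) e))) (c (c (c (c (m (nat_lit 0x3c0ee80c)) (c (m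 (nat_lit 0x2634d8)) e)) (c (c (p (nat_lit 0x99b10)) e) e)) (c (c (c (p (nat_lit 0x99b10)) e) e) e)) (c (c (c (c (m (nat_lit 0x131a0c)) e) e) e) e))) (c (c (c (c (c (p (nat_lit 0x1ca6ac)) (c (m (nat_lit 0x131dd8)) e)) (c (c (m (nat_lit 0x98e2c)) e) e)) (c (c (c (m (nat_lit 0x843c3c0)) e) e) e)) (c (c (c (c (m (nat_lit 0x524ccac)) e) e) e) e)) (c (c (c (c (c (m (nat_lit 0x98e68)) e) e) e) e) e))) (c (c (c (c (c (c (p (nat_lit 0x1ca6ac)) (c (m (nat_lit 0x131dd8)) e)) (c (c (m (nat_lit 0x843c3c0)) e) e)) (c (c (c (m (nat_lit 0x98e2c)) e) e) e)) (c (c (c (c (m (nat_lit 0x524ccac)) e) e) e) e)) (c (c (c (c (c (m (nat_lit 0x131b08)) e) e) e) e) e)) (c (c (c (c (c (c (m (nat_lit 0x98e68)) e) e) e) e) e) e))) (c (c (c (c (c (c (c (p (nat_lit 0x263214)) (c (m (nat_lit 0x131b80)) e)) (c (c (m (nat_lit 0x1325e8)) e) e)) (c (c (c (m (nat_lit 0x1325e8))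 e) e) e)) (c (c (c (c (m (nat_lit 0x131acc)) e) e) e) e)) (c (c (c (c (c (m (nat_lit 0x98d6c)) e) e) e) e) e)) (c (c (c (c (c (c (m (nat_lit 0x98d6c)) e) e) e) e) e) e)) (c (c (c (c (c (c (c (m (nat_lit 0x131a24)) e) e) e) e) e) e) e))))) (c (c (c (c (c (c (c (c (p (nat_lit 0xc6192198)) (c (m (nat_lit 0x1f68c720)) (c (p (nat_lit 0xd97700)) (c (m (nat_lit 0x131b68)) e)))) (c (c (p (nat_lit 0x9ab8274)) (c (m (nat_lit 0x3ef7d80)) (c (m (nat_lit 0x131a00)) e))) (c (c (p (nat_lit 0x1ca6ac)) (c (m (nat_lit 0x131b20)) e)) (c (c (m (nat_lit 0x98d6c)) e) e)))) (c (c (c (p (nat_lit 0x9ab8274)) (c (m (nat_lit 0x3ef7d80)) (c (m (nat_lit 0x131a00)) e))) (c (c (m (nat_lit 0xcb1c360)) (c (m (nat_lit 0x131a78)) e)) (c (c (m (nat_lit 0x98d18)) e) e))) (c (c (c (p (nat_lit 0x1ca6ac)) (c (m (nat_lit 0x131b20)) e)) (c (c (m (nat_lit 0x98d18)) e) e)) (c (c (c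 (m (nat_lit 0x98d6c)) e) e) e)))) (c (c (c (c (p (nat_lit 0xb64c1f50)) (c (m (nat_lit 0x40570200)) (c (p (nat_lit 0x3c2202c0)) e))) (c (c (p (nat_lit 0x8fa492c)) (c (m (nat_lit 0x3f22194)) e)) (c (c (m (nat_lit 0x524ccac)) e) e))) (c (c (c (p (nat_lit 0x8fa492c)) (c (m (nat_lit 0x3f22194)) e)) (c (c (m (nat_lit 0x3f22278)) e) e)) (c (c (c (m (nat_lit 0x524ccac)) e) e) e))) (c (c (c (c (m (nat_lit 0x1339e7c50)) (c (m (nat_lit 0x132168)) e)) (c (c (m (nat_lit 0x98cac)) e) e)) (c (c (c (m (nat_lit 0x98cac)) e) e) e)) (c (c (c (c (p (nat_lit 0x870)) e) e) e) e)))) (c (c (c (c (c (m (nat_lit 0xd1329068)) (c (p (nat_lit 0x2be6e4b4)) (c (m (nat_lit 0xa9b2e8)) e))) (c (c (m (nat_lit 0x60c7860)) (c (p (nat_lit 0x41f4234)) e)) (c (c (m (nat_lit 0x131b08)) e) e))) (c (c (c (p (nat_lit 0x2be6e4b4)) (c (m (nat_lit 0x4997190)) e)) (c (c (p (nat_lit 0x41f4234))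 e) e)) (c (c (c (m (nat_lit 0xa9b2e8)) e) e) e))) (c (c (c (c (m (nat_lit 0x34f479a8)) (c (p (nat_lit 0xc0)) e)) (c (c (m (nat_lit 0x131988)) e) e)) (c (c (c (p (nat_lit 0xc0)) e) e) e)) (c (c (c (c (p (nat_lit 0x99a90a28)) e) e) e) e))) (c (c (c (c (c (p (nat_lit 0x3dad1bcc)) (c (m (nat_lit 0x921e538)) e)) (c (c (m (nat_lit 0x98c1c)) e) e)) (c (c (c (m (nat_lit 0x17a909c0)) e) e) e)) (c (c (c (c (m (nat_lit 0x18fd62f0)) e) e) e) e)) (c (c (c (c (c (m (nat_lit 0x263760)) e) e) e) e) e)))) (c (c (c (c (c (c (m (nat_lit 0xd1329068)) (c (p (nat_lit 0x2be6e4b4)) (c (m (nat_lit 0xa9b2e8)) e))) (c (c (p (nat_lit 0x2be6e4b4)) (c (m (nat_lit 0x4997190)) e)) (c (c (m (nat_lit 0xa9b2e8)) e) e))) (c (c (c (m (nat_lit 0x60c7860)) (c (p (nat_lit 0x41f4234)) e)) (c (c (p (nat_lit 0x41f4234)) e) e)) (c (c (c (m (nat_lit 0x131b08)) e) e) e))) (c (c (c (c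 (m (nat_lit 0x34f479a8)) (c (p (nat_lit 0xc0)) e)) (c (c (p (nat_lit 0xc0)) e) e)) (c (c (c (m (nat_lit 0x131988)) e) e) e)) (c (c (c (c (p (nat_lit 0x99a90a28)) e) e) e) e))) (c (c (c (c (c (p (nat_lit 0x9166a0b8)) (c (m (nat_lit 0x1243cad0)) e)) (c (c (m (nat_lit 0x1243cad0)) e) e)) (c (c (c (m (nat_lit 0x1243cad0)) e) e) e)) (c (c (c (c (m (nat_lit 0xe53920)) e) e) e) e)) (c (c (c (c (c (m (nat_lit 0x24765930)) e) e) e) e) e))) (c (c (c (c (c (c (p (nat_lit 0x3dad1bcc)) (c (m (nat_lit 0x921e538)) e)) (c (c (m (nat_lit 0x17a909c0)) e) e)) (c (c (c (m (nat_lit 0x98c1c)) e) e) e)) (c (c (c (c (m (nat_lit 0x18fd62f0)) e) e) e) e)) (c (c (c (c (c (m (nat_lit 0x24765930)) e) e) e) e) e)) (c (c (c (c (c (c (m (nat_lit 0x263760)) e) e) e) e) e) e)))) (c (c (c (c (c (c (c (m (nat_lit 0x1f68c720)) (c (p (nat_lit 0x2c48d60)) (c (m (nat_lit 0x2634d8))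 e))) (c (c (p (nat_lit 0x12be4f88)) (c (m (nat_lit 0x98c28)) e)) (c (c (m (nat_lit 0x843c3c0)) e) e))) (c (c (c (p (nat_lit 0x12be4f88)) (c (m (nat_lit 0x98c28)) e)) (c (c (m (nat_lit 0xa65f960)) e) e)) (c (c (c (m (nat_lit 0x843c3c0)) e) e) e))) (c (c (c (c (m (nat_lit 0x40570200)) (c (p (nat_lit 0xd5b29b0)) e)) (c (c (m (nat_lit 0x131b38)) e) e)) (c (c (c (m (nat_lit 0x131b38)) e) e) e)) (c (c (c (c (m (nat_lit 0x132168)) e) e) e) e))) (c (c (c (c (c (p (nat_lit 0x2be6e4b4)) (c (m (nat_lit 0x131898)) e)) (c (c (m (nat_lit 0x1caa60)) e) e)) (c (c (c (m (nat_lit 0x2635b0)) e) e) e)) (c (c (c (c (p (nat_lit 0xc0)) e) e) e) e)) (c (c (c (c (c (m (nat_lit 0x921e538)) e) e) e) e) e))) (c (c (c (c (c (c (p (nat_lit 0x2be6e4b4)) (c (m (nat_lit 0x131898)) e)) (c (c (m (nat_lit 0x2635b0)) e) e)) (c (c (c (m (nat_lit 0x1caa60)) e) e) e)) (c (c (c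 (c (p (nat_lit 0xc0)) e) e) e) e)) (c (c (c (c (c (m (nat_lit 0x1243cad0)) e) e) e) e) e)) (c (c (c (c (c (c (m (nat_lit 0x921e538)) e) e) e) e) e) e))) (c (c (c (c (c (c (c (p (nat_lit 0xd97700)) (c (m (nat_lit 0x2634d8)) e)) (c (c (m (nat_lit 0x98e38)) e) e)) (c (c (c (m (nat_lit 0x98e38)) e) e) e)) (c (c (c (c (p (nat_lit 0x3c2202c0)) e) e) e) e)) (c (c (c (c (c (m (nat_lit 0xa9b2e8)) e) e) e) e) e)) (c (c (c (c (c (c (m (nat_lit 0xa9b2e8)) e) e) e) e) e) e)) (c (c (c (c (c (c (c (m (nat_lit 0x131b68)) e) e) e) e) e) e) e)))) (c (c (c (c (c (c (c (c (m (nat_lit 0x6fa7ed28)) (c (p (nat_lit 0x34c4f1d8)) (c (m (nat_lit 0xb34030)) e))) (c (c (m (nat_lit 0x30fc990)) (c (m (nat_lit 0x24cb9c4)) e)) (c (c (m (nat_lit 0x98e68)) e) e))) (c (c (c (m (nat_lit 0x30fc990)) (c (m (nat_lit 0x24cb9c4)) e)) (c (c (p (nat_lit 0x658e0f0)) e) e)) (c (c (c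 (m (nat_lit 0x98e68)) e) e) e))) (c (c (c (c (m (nat_lit 0x1b63780)) (c (p (nat_lit 0x214b0)) e)) (c (c (p (nat_lit 0x18)) e) e)) (c (c (c (p (nat_lit 0x18)) e) e) e)) (c (c (c (c (p (nat_lit 0x4c9b3a50)) e) e) e) e))) (c (c (c (c (c (p (nat_lit 0x3dad1bcc)) (c (m (nat_lit 0x17a909c0)) e)) (c (c (m (nat_lit 0x98c1c)) e) e)) (c (c (c (m (nat_lit 0x921e538)) e) e) e)) (c (c (c (c (m (nat_lit 0x18fd62f0)) e) e) e) e)) (c (c (c (c (c (m (nat_lit 0x4c6c68)) e) e) e) e) e))) (c (c (c (c (c (c (p (nat_lit 0x3dad1bcc)) (c (m (nat_lit 0x17a909c0)) e)) (c (c (m (nat_lit 0x921e538)) e) e)) (c (c (c (m (nat_lit 0x98c1c)) e) e) e)) (c (c (c (c (m (nat_lit 0x18fd62f0)) e) e) e) e)) (c (c (c (c (c (m (nat_lit 0x24765930)) e) e) e) e) e)) (c (c (c (c (c (c (m (nat_lit 0x4c6c68)) e) e) e) e) e) e))) (c (c (c (c (c (c (c (p (nat_lit 0x34c4f1d8)) (c (m (nat_lit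 0x263730)) e)) (c (c (m (nat_lit 0x263430)) e) e)) (c (c (c (m (nat_lit 0x263430)) e) e) e)) (c (c (c (c (p (nat_lit 0x214b0)) e) e) e) e)) (c (c (c (c (c (m (nat_lit 0x17a909c0)) e) e) e) e) e)) (c (c (c (c (c (c (m (nat_lit 0x17a909c0)) e) e) e) e) e) e)) (c (c (c (c (c (c (c (m (nat_lit 0xb34030)) e) e) e) e) e) e) e))) (c (c (c (c (c (c (c (c (p (nat_lit 0x1936b810)) (c (m (nat_lit 0xea3c678)) e)) (c (c (m (nat_lit 0x98dcc)) e) e)) (c (c (c (m (nat_lit 0x98dcc)) e) e) e)) (c (c (c (c (m (nat_lit 0x19107900)) e) e) e) e)) (c (c (c (c (c (m (nat_lit 0x263760)) e) e) e) e) e)) (c (c (c (c (c (c (m (nat_lit 0x263760)) e) e) e) e) e) e)) (c (c (c (c (c (c (c (m (nat_lit 0xea3c678)) e) e) e) e) e) e) e)) (c (c (c (c (c (c (c (c (m (nat_lit 0x2631c0)) e) e) e) e) e) e) e) e))))) (c (c (c (c (c (c (c (c (c (m (nat_lit 0x66c10b0)) (c (p (nat_lit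 0x9df368)) (c (p (nat_lit 0x22926cc)) (c (m (nat_lit 0x1325e8)) e)))) (c (c (m (nat_lit 0x20583d8)) (c (p (nat_lit 0x109ad78)) (c (m (nat_lit 0x1339a4)) e))) (c (c (p (nat_lit 0x5f8728)) (c (m (nat_lit 0x98d60)) e)) (c (c (m (nat_lit 0x131b80)) e) e)))) (c (c (c (p (nat_lit 0x9df368)) (c (p (nat_lit 0xa52b0d4)) (c (m (nat_lit 0x202bdb0)) e))) (c (c (p (nat_lit 0x109ad78)) (c (m (nat_lit 0x263f70)) e)) (c (c (m (nat_lit 0x98d60)) e) e))) (c (c (c (p (nat_lit 0x22926cc)) (c (m (nat_lit 0x202bdb0)) e)) (c (c (m (nat_lit 0x1339a4)) e) e)) (c (c (c (m (nat_lit 0x1325e8)) e) e) e)))) (c (c (c (c (p (nat_lit 0x40680888)) (c (m (nat_lit 0xac9c440)) (c (p (nat_lit 0x99b10)) e))) (c (c (m (nat_lit 0xd0ebf70)) (c (p (nat_lit 0x5520120)) e)) (c (c (m (nat_lit 0x2634d8)) e) e))) (c (c (c (m (nat_lit 0xac9c440)) (c (m (nat_lit 0x131bf8)) e)) (c (c (p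 (nat_lit 0x5520120)) e) e)) (c (c (c (p (nat_lit 0x99b10)) e) e) e))) (c (c (c (c (p (nat_lit 0x85bbac)) (c (m (nat_lit 0x26c4a8)) e)) (c (c (m (nat_lit 0x2633a0)) e) e)) (c (c (c (m (nat_lit 0x26c4a8)) e) e) e)) (c (c (c (c (m (nat_lit 0x131a54)) e) e) e) e)))) (c (c (c (c (c (p (nat_lit 0x9ab8274)) (c (p (nat_lit 0xa8c1998)) (c (m (nat_lit 0x98e2c)) e))) (c (c (p (nat_lit 0x28b4ed8)) (c (m (nat_lit 0x132354)) e)) (c (c (m (nat_lit 0x131dd8)) e) e))) (c (c (c (p (nat_lit 0x12be4f88)) (c (m (nat_lit 0xa70ec44)) e)) (c (c (m (nat_lit 0x98fb8)) e) e)) (c (c (c (m (nat_lit 0x98e38)) e) e) e))) (c (c (c (c (p (nat_lit 0x8fa492c)) (c (m (nat_lit 0x2638e0)) e)) (c (c (m (nat_lit 0x23ed190)) e) e)) (c (c (c (m (nat_lit 0x131b38)) e) e) e)) (c (c (c (c (m (nat_lit 0x98cac)) e) e) e) e))) (c (c (c (c (c (m (nat_lit 0x30fc990)) (c (m (nat_lit 0x131cb8))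 e)) (c (c (m (nat_lit 0x131af0)) e) e)) (c (c (c (m (nat_lit 0x263430)) e) e) e)) (c (c (c (c (p (nat_lit 0x18)) e) e) e) e)) (c (c (c (c (c (m (nat_lit 0x98dcc)) e) e) e) e) e)))) (c (c (c (c (c (c (m (nat_lit 0x1f68c720)) (c (p (nat_lit 0x12be4f88)) (c (m (nat_lit 0x843c3c0)) e))) (c (c (p (nat_lit 0x2c48d60)) (c (m (nat_lit 0x98c28)) e)) (c (c (m (nat_lit 0x2634d8)) e) e))) (c (c (c (p (nat_lit 0x12be4f88)) (c (m (nat_lit 0xa65f960)) e)) (c (c (m (nat_lit 0x98c28)) e) e)) (c (c (c (m (nat_lit 0x843c3c0)) e) e) e))) (c (c (c (c (m (nat_lit 0x40570200)) (c (m (nat_lit 0x131b38)) e)) (c (c (p (nat_lit 0xd5b29b0)) e) e)) (c (c (c (m (nat_lit 0x131b38)) e) e) e)) (c (c (c (c (m (nat_lit 0x132168)) e) e) e) e))) (c (c (c (c (c (p (nat_lit 0x2be6e4b4)) (c (m (nat_lit 0x1caa60)) e)) (c (c (m (nat_lit 0x131898)) e) e)) (c (c (c (m (nat_lit 0x2635b0))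 e) e) e)) (c (c (c (c (p (nat_lit 0xc0)) e) e) e) e)) (c (c (c (c (c (m (nat_lit 0x921e538)) e) e) e) e) e))) (c (c (c (c (c (c (p (nat_lit 0x34c4f1d8)) (c (m (nat_lit 0x263430)) e)) (c (c (m (nat_lit 0x263730)) e) e)) (c (c (c (m (nat_lit 0x263430)) e) e) e)) (c (c (c (c (p (nat_lit 0x214b0)) e) e) e) e)) (c (c (c (c (c (m (nat_lit 0x17a909c0)) e) e) e) e) e)) (c (c (c (c (c (c (m (nat_lit 0xea3c678)) e) e) e) e) e) e)))) (c (c (c (c (c (c (c (p (nat_lit 0x66bfc40)) (c (p (nat_lit 0x109ad78)) (c (m (nat_lit 0x99ac8)) e))) (c (c (p (nat_lit 0x109ad78)) (c (m (nat_lit 0x19bacce0)) e)) (c (c (m (nat_lit 0x99ac8)) e) e))) (c (c (c (p (nat_lit 0xa52b0d4)) (c (p (nat_lit 0x1304a0)) e)) (c (c (p (nat_lit 0x1304a0)) e) e)) (c (c (c (m (nat_lit 0x1335e4)) e) e) e))) (c (c (c (c (p (nat_lit 0x464d480)) (c (p (nat_lit 0x5520120)) e)) (c (c (p (nat_lit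 0x5520120)) e) e)) (c (c (c (m (nat_lit 0x131bf8)) e) e) e)) (c (c (c (c (m (nat_lit 0x131970)) e) e) e) e))) (c (c (c (c (c (m (nat_lit 0xcb1c360)) (c (m (nat_lit 0x132354)) e)) (c (c (m (nat_lit 0x132354)) e) e)) (c (c (c (m (nat_lit 0xa65f960)) e) e) e)) (c (c (c (c (m (nat_lit 0x3f22278)) e) e) e) e)) (c (c (c (c (c (p (nat_lit 0x658e0f0)) e) e) e) e) e))) (c (c (c (c (c (c (m (nat_lit 0x3ef7d80)) (c (m (nat_lit 0x98fb8)) e)) (c (c (m (nat_lit 0x98c28)) e) e)) (c (c (c (m (nat_lit 0xa70ec44)) e) e) e)) (c (c (c (c (m (nat_lit 0x3f22194)) e) e) e) e)) (c (c (c (c (c (p (nat_lit 0x41f4234)) e) e) e) e) e)) (c (c (c (c (c (c (m (nat_lit 0x24cb9c4)) e) e) e) e) e) e))) (c (c (c (c (c (c (c (p (nat_lit 0x39507c)) (c (m (nat_lit 0x98d60)) e)) (c (c (m (nat_lit 0x1339a4)) e) e)) (c (c (c (m (nat_lit 0x202bdb0)) e) e) e)) (c (c (c (c (m (nat_lit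 0x99054)) e) e) e) e)) (c (c (c (c (c (m (nat_lit 0x98d18)) e) e) e) e) e)) (c (c (c (c (c (c (m (nat_lit 0x131b20)) e) e) e) e) e) e)) (c (c (c (c (c (c (c (m (nat_lit 0x98d90)) e) e) e) e) e) e) e)))) (c (c (c (c (c (c (c (c (p (nat_lit 0x9ab8274)) (c (p (nat_lit 0x12be4f88)) (c (m (nat_lit 0x98e38)) e))) (c (c (p (nat_lit 0x28b4ed8)) (c (m (nat_lit 0x98fb8)) e)) (c (c (m (nat_lit 0x131dd8)) e) e))) (c (c (c (p (nat_lit 0xa8c1998)) (c (m (nat_lit 0xa70ec44)) e)) (c (c (m (nat_lit 0x132354)) e) e)) (c (c (c (m (nat_lit 0x98e2c)) e) e) e))) (c (c (c (c (p (nat_lit 0x8fa492c)) (c (m (nat_lit 0x131b38)) e)) (c (c (m (nat_lit 0x23ed190)) e) e)) (c (c (c (m (nat_lit 0x2638e0)) e) e) e)) (c (c (c (c (m (nat_lit 0x98cac)) e) e) e) e))) (c (c (c (c (c (m (nat_lit 0x60c7860)) (c (m (nat_lit 0x1caa60)) e)) (c (c (m (nat_lit 0x261b70)) e) e)) (c (c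 (c (m (nat_lit 0x1caa60)) e) e) e)) (c (c (c (c (m (nat_lit 0x131988)) e) e) e) e)) (c (c (c (c (c (m (nat_lit 0x98c1c)) e) e) e) e) e))) (c (c (c (c (c (c (p (nat_lit 0x2be6e4b4)) (c (m (nat_lit 0x2635b0)) e)) (c (c (m (nat_lit 0x131898)) e) e)) (c (c (c (m (nat_lit 0x1caa60)) e) e) e)) (c (c (c (c (p (nat_lit 0xc0)) e) e) e) e)) (c (c (c (c (c (m (nat_lit 0x1243cad0)) e) e) e) e) e)) (c (c (c (c (c (c (m (nat_lit 0x17a909c0)) e) e) e) e) e) e))) (c (c (c (c (c (c (c (m (nat_lit 0x3ef7d80)) (c (m (nat_lit 0x98c28)) e)) (c (c (m (nat_lit 0x98fb8)) e) e)) (c (c (c (m (nat_lit 0xa70ec44)) e) e) e)) (c (c (c (c (m (nat_lit 0x3f22194)) e) e) e) e)) (c (c (c (c (c (p (nat_lit 0x41f4234)) e) e) e) e) e)) (c (c (c (c (c (c (m (nat_lit 0x4997190)) e) e) e) e) e) e)) (c (c (c (c (c (c (c (m (nat_lit 0x131a00)) e) e) e) e) e) e) e))) (c (c (c (c (c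 (c (c (c (m (nat_lit 0x30fc990)) (c (m (nat_lit 0x263430)) e)) (c (c (m (nat_lit 0x131af0)) e) e)) (c (c (c (m (nat_lit 0x131cb8)) e) e) e)) (c (c (c (c (p (nat_lit 0x18)) e) e) e) e)) (c (c (c (c (c (m (nat_lit 0x98c1c)) e) e) e) e) e)) (c (c (c (c (c (c (m (nat_lit 0x921e538)) e) e) e) e) e) e)) (c (c (c (c (c (c (c (m (nat_lit 0x24cb9c4)) e) e) e) e) e) e) e)) (c (c (c (c (c (c (c (c (m (nat_lit 0x98dcc)) e) e) e) e) e) e) e) e)))) (c (c (c (c (c (c (c (c (c (p (nat_lit 0x131b74)) (c (p (nat_lit 0x22926cc)) (c (m (nat_lit 0x132b10)) e))) (c (c (p (nat_lit 0x5f8728)) (c (m (nat_lit 0x99ac8)) e)) (c (c (m (nat_lit 0x263688)) e) e))) (c (c (c (p (nat_lit 0x22926cc)) (c (m (nat_lit 0x1335e4)) e)) (c (c (m (nat_lit 0x99ac8)) e) e)) (c (c (c (m (nat_lit 0x132b10)) e) e) e))) (c (c (c (c (m (nat_lit 0x3c0ee80c)) (c (p (nat_lit 0x99b10)) e))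 (c (c (m (nat_lit 0x2634d8)) e) e)) (c (c (c (p (nat_lit 0x99b10)) e) e) e)) (c (c (c (c (m (nat_lit 0x131a0c)) e) e) e) e))) (c (c (c (c (c (p (nat_lit 0x1ca6ac)) (c (m (nat_lit 0x98e2c)) e)) (c (c (m (nat_lit 0x131dd8)) e) e)) (c (c (c (m (nat_lit 0x843c3c0)) e) e) e)) (c (c (c (c (m (nat_lit 0x524ccac)) e) e) e) e)) (c (c (c (c (c (m (nat_lit 0x98e68)) e) e) e) e) e))) (c (c (c (c (c (c (p (nat_lit 0xd97700)) (c (m (nat_lit 0x98e38)) e)) (c (c (m (nat_lit 0x2634d8)) e) e)) (c (c (c (m (nat_lit 0x98e38)) e) e) e)) (c (c (c (c (p (nat_lit 0x3c2202c0)) e) e) e) e)) (c (c (c (c (c (m (nat_lit 0xa9b2e8)) e) e) e) e) e)) (c (c (c (c (c (c (m (nat_lit 0xb34030)) e) e) e) e) e) e))) (c (c (c (c (c (c (c (p (nat_lit 0x39507c)) (c (m (nat_lit 0x1339a4)) e)) (c (c (m (nat_lit 0x98d60)) e) e)) (c (c (c (m (nat_lit 0x202bdb0)) e) e) e)) (c (c (c (c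 (m (nat_lit 0x99054)) e) e) e) e)) (c (c (c (c (c (m (nat_lit 0x98d18)) e) e) e) e) e)) (c (c (c (c (c (c (m (nat_lit 0x131a00)) e) e) e) e) e) e)) (c (c (c (c (c (c (c (m (nat_lit 0x131b80)) e) e) e) e) e) e) e))) (c (c (c (c (c (c (c (c (p (nat_lit 0x1ca6ac)) (c (m (nat_lit 0x843c3c0)) e)) (c (c (m (nat_lit 0x131dd8)) e) e)) (c (c (c (m (nat_lit 0x98e2c)) e) e) e)) (c (c (c (c (m (nat_lit 0x524ccac)) e) e) e) e)) (c (c (c (c (c (m (nat_lit 0x131b08)) e) e) e) e) e)) (c (c (c (c (c (c (m (nat_lit 0xa9b2e8)) e) e) e) e) e) e)) (c (c (c (c (c (c (c (m (nat_lit 0x131b20)) e) e) e) e) e) e) e)) (c (c (c (c (c (c (c (c (m (nat_lit 0x98e68)) e) e) e) e) e) e) e) e))) (c (c (c (c (c (c (c (c (c (p (nat_lit 0x263214)) (c (m (nat_lit 0x1325e8)) e)) (c (c (m (nat_lit 0x131b80)) e) e)) (c (c (c (m (nat_lit 0x1325e8)) e) e) e)) (c (c (c (c (m (nat_lit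 0x131acc)) e) e) e) e)) (c (c (c (c (c (m (nat_lit 0x98d6c)) e) e) e) e) e)) (c (c (c (c (c (c (m (nat_lit 0x131b68)) e) e) e) e) e) e)) (c (c (c (c (c (c (c (m (nat_lit 0x98d90)) e) e) e) e) e) e) e)) (c (c (c (c (c (c (c (c (m (nat_lit 0x98d6c)) e) e) e) e) e) e) e) e)) (c (c (c (c (c (c (c (c (c (m (nat_lit 0x131a24)) e) e) e) e) e) e) e) e) e))))) (c (c (c (c (c (c (c (c (c (c (m (nat_lit 0x66c10b0)) (c (p (nat_lit 0x9df368)) (c (p (nat_lit 0x22926cc)) (c (m (nat_lit 0x1325e8)) e)))) (c (c (p (nat_lit 0x9df368)) (c (p (nat_lit 0xa52b0d4)) (c (m (nat_lit 0x202bdb0)) e))) (c (c (p (nat_lit 0x22926cc)) (c (m (nat_lit 0x202bdb0)) e)) (c (c (m (nat_lit 0x1325e8)) e) e)))) (c (c (c (m (nat_lit 0x20583d8)) (c (p (nat_lit 0x109ad78)) (c (m (nat_lit 0x1339a4)) e))) (c (c (p (nat_lit 0x109ad78)) (c (m (nat_lit 0x263f70)) e)) (c (c (m (nat_lit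 0x1339a4)) e) e))) (c (c (c (p (nat_lit 0x5f8728)) (c (m (nat_lit 0x98d60)) e)) (c (c (m (nat_lit 0x98d60)) e) e)) (c (c (c (m (nat_lit 0x131b80)) e) e) e)))) (c (c (c (c (p (nat_lit 0x40680888)) (c (m (nat_lit 0xac9c440)) (c (p (nat_lit 0x99b10)) e))) (c (c (m (nat_lit 0xac9c440)) (c (m (nat_lit 0x131bf8)) e)) (c (c (p (nat_lit 0x99b10)) e) e))) (c (c (c (m (nat_lit 0xd0ebf70)) (c (p (nat_lit 0x5520120)) e)) (c (c (p (nat_lit 0x5520120)) e) e)) (c (c (c (m (nat_lit 0x2634d8)) e) e) e))) (c (c (c (c (p (nat_lit 0x85bbac)) (c (m (nat_lit 0x26c4a8)) e)) (c (c (m (nat_lit 0x26c4a8)) e) e)) (c (c (c (m (nat_lit 0x2633a0)) e) e) e)) (c (c (c (c (m (nat_lit 0x131a54)) e) e) e) e)))) (c (c (c (c (c (m (nat_lit 0x1f68c720)) (c (p (nat_lit 0x12be4f88)) (c (m (nat_lit 0x843c3c0)) e))) (c (c (p (nat_lit 0x12be4f88)) (c (m (nat_lit 0xa65f960)) e)) (c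 (c (m (nat_lit 0x843c3c0)) e) e))) (c (c (c (p (nat_lit 0x2c48d60)) (c (m (nat_lit 0x98c28)) e)) (c (c (m (nat_lit 0x98c28)) e) e)) (c (c (c (m (nat_lit 0x2634d8)) e) e) e))) (c (c (c (c (m (nat_lit 0x40570200)) (c (m (nat_lit 0x131b38)) e)) (c (c (m (nat_lit 0x131b38)) e) e)) (c (c (c (p (nat_lit 0xd5b29b0)) e) e) e)) (c (c (c (c (m (nat_lit 0x132168)) e) e) e) e))) (c (c (c (c (c (p (nat_lit 0x34c4f1d8)) (c (m (nat_lit 0x263430)) e)) (c (c (m (nat_lit 0x263430)) e) e)) (c (c (c (m (nat_lit 0x263730)) e) e) e)) (c (c (c (c (p (nat_lit 0x214b0)) e) e) e) e)) (c (c (c (c (c (m (nat_lit 0xea3c678)) e) e) e) e) e)))) (c (c (c (c (c (c (p (nat_lit 0x9ab8274)) (c (p (nat_lit 0xa8c1998)) (c (m (nat_lit 0x98e2c)) e))) (c (c (p (nat_lit 0x12be4f88)) (c (m (nat_lit 0xa70ec44)) e)) (c (c (m (nat_lit 0x98e38)) e) e))) (c (c (c (p (nat_lit 0x28b4ed8))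 (c (m (nat_lit 0x132354)) e)) (c (c (m (nat_lit 0x98fb8)) e) e)) (c (c (c (m (nat_lit 0x131dd8)) e) e) e))) (c (c (c (c (p (nat_lit 0x8fa492c)) (c (m (nat_lit 0x2638e0)) e)) (c (c (m (nat_lit 0x131b38)) e) e)) (c (c (c (m (nat_lit 0x23ed190)) e) e) e)) (c (c (c (c (m (nat_lit 0x98cac)) e) e) e) e))) (c (c (c (c (c (p (nat_lit 0x2be6e4b4)) (c (m (nat_lit 0x1caa60)) e)) (c (c (m (nat_lit 0x2635b0)) e) e)) (c (c (c (m (nat_lit 0x131898)) e) e) e)) (c (c (c (c (p (nat_lit 0xc0)) e) e) e) e)) (c (c (c (c (c (m (nat_lit 0x17a909c0)) e) e) e) e) e))) (c (c (c (c (c (c (m (nat_lit 0x30fc990)) (c (m (nat_lit 0x131cb8)) e)) (c (c (m (nat_lit 0x263430)) e) e)) (c (c (c (m (nat_lit 0x131af0)) e) e) e)) (c (c (c (c (p (nat_lit 0x18)) e) e) e) e)) (c (c (c (c (c (m (nat_lit 0x921e538)) e) e) e) e) e)) (c (c (c (c (c (c (m (nat_lit 0x98dcc)) e) e) e) e)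 e) e)))) (c (c (c (c (c (c (c (p (nat_lit 0x66bfc40)) (c (p (nat_lit 0x109ad78)) (c (m (nat_lit 0x99ac8)) e))) (c (c (p (nat_lit 0xa52b0d4)) (c (p (nat_lit 0x1304a0)) e)) (c (c (m (nat_lit 0x1335e4)) e) e))) (c (c (c (p (nat_lit 0x109ad78)) (c (m (nat_lit 0x19bacce0)) e)) (c (c (p (nat_lit 0x1304a0)) e) e)) (c (c (c (m (nat_lit 0x99ac8)) e) e) e))) (c (c (c (c (p (nat_lit 0x464d480)) (c (p (nat_lit 0x5520120)) e)) (c (c (m (nat_lit 0x131bf8)) e) e)) (c (c (c (p (nat_lit 0x5520120)) e) e) e)) (c (c (c (c (m (nat_lit 0x131970)) e) e) e) e))) (c (c (c (c (c (m (nat_lit 0x3ef7d80)) (c (m (nat_lit 0x98fb8)) e)) (c (c (m (nat_lit 0xa70ec44)) e) e)) (c (c (c (m (nat_lit 0x98c28)) e) e) e)) (c (c (c (c (m (nat_lit 0x3f22194)) e) e) e) e)) (c (c (c (c (c (m (nat_lit 0x24cb9c4)) e) e) e) e) e))) (c (c (c (c (c (c (m (nat_lit 0xcb1c360)) (c (m (nat_lit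 0x132354)) e)) (c (c (m (nat_lit 0xa65f960)) e) e)) (c (c (c (m (nat_lit 0x132354)) e) e) e)) (c (c (c (c (m (nat_lit 0x3f22278)) e) e) e) e)) (c (c (c (c (c (p (nat_lit 0x41f4234)) e) e) e) e) e)) (c (c (c (c (c (c (p (nat_lit 0x658e0f0)) e) e) e) e) e) e))) (c (c (c (c (c (c (c (p (nat_lit 0x39507c)) (c (m (nat_lit 0x98d60)) e)) (c (c (m (nat_lit 0x202bdb0)) e) e)) (c (c (c (m (nat_lit 0x1339a4)) e) e) e)) (c (c (c (c (m (nat_lit 0x99054)) e) e) e) e)) (c (c (c (c (c (m (nat_lit 0x131b20)) e) e) e) e) e)) (c (c (c (c (c (c (m (nat_lit 0x98d18)) e) e) e) e) e) e)) (c (c (c (c (c (c (c (m (nat_lit 0x98d90)) e) e) e) e) e) e) e)))) (c (c (c (c (c (c (c (c (p (nat_lit 0x9ab8274)) (c (p (nat_lit 0x12be4f88)) (c (m (nat_lit 0x98e38)) e))) (c (c (p (nat_lit 0xa8c1998)) (c (m (nat_lit 0xa70ec44)) e)) (c (c (m (nat_lit 0x98e2c)) e) e))) (c (c (c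 (p (nat_lit 0x28b4ed8)) (c (m (nat_lit 0x98fb8)) e)) (c (c (m (nat_lit 0x132354)) e) e)) (c (c (c (m (nat_lit 0x131dd8)) e) e) e))) (c (c (c (c (p (nat_lit 0x8fa492c)) (c (m (nat_lit 0x131b38)) e)) (c (c (m (nat_lit 0x2638e0)) e) e)) (c (c (c (m (nat_lit 0x23ed190)) e) e) e)) (c (c (c (c (m (nat_lit 0x98cac)) e) e) e) e))) (c (c (c (c (c (p (nat_lit 0x2be6e4b4)) (c (m (nat_lit 0x2635b0)) e)) (c (c (m (nat_lit 0x1caa60)) e) e)) (c (c (c (m (nat_lit 0x131898)) e) e) e)) (c (c (c (c (p (nat_lit 0xc0)) e) e) e) e)) (c (c (c (c (c (m (nat_lit 0x17a909c0)) e) e) e) e) e))) (c (c (c (c (c (c (m (nat_lit 0x60c7860)) (c (m (nat_lit 0x1caa60)) e)) (c (c (m (nat_lit 0x1caa60)) e) e)) (c (c (c (m (nat_lit 0x261b70)) e) e) e)) (c (c (c (c (m (nat_lit 0x131988)) e) e) e) e)) (c (c (c (c (c (m (nat_lit 0x1243cad0)) e) e) e) e) e)) (c (c (c (c (c (c (m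 (nat_lit 0x98c1c)) e) e) e) e) e) e))) (c (c (c (c (c (c (c (m (nat_lit 0x3ef7d80)) (c (m (nat_lit 0x98c28)) e)) (c (c (m (nat_lit 0xa70ec44)) e) e)) (c (c (c (m (nat_lit 0x98fb8)) e) e) e)) (c (c (c (c (m (nat_lit 0x3f22194)) e) e) e) e)) (c (c (c (c (c (m (nat_lit 0x4997190)) e) e) e) e) e)) (c (c (c (c (c (c (p (nat_lit 0x41f4234)) e) e) e) e) e) e)) (c (c (c (c (c (c (c (m (nat_lit 0x131a00)) e) e) e) e) e) e) e))) (c (c (c (c (c (c (c (c (m (nat_lit 0x30fc990)) (c (m (nat_lit 0x263430)) e)) (c (c (m (nat_lit 0x131cb8)) e) e)) (c (c (c (m (nat_lit 0x131af0)) e) e) e)) (c (c (c (c (p (nat_lit 0x18)) e) e) e) e)) (c (c (c (c (c (m (nat_lit 0x921e538)) e) e) e) e) e)) (c (c (c (c (c (c (m (nat_lit 0x98c1c)) e) e) e) e) e) e)) (c (c (c (c (c (c (c (m (nat_lit 0x24cb9c4)) e) e) e) e) e) e) e)) (c (c (c (c (c (c (c (c (m (nat_lit 0x98dcc))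 e) e) e) e) e) e) e) e)))) (c (c (c (c (c (c (c (c (c (p (nat_lit 0x66bfc40)) (c (p (nat_lit 0xa52b0d4)) (c (m (nat_lit 0x1335e4)) e))) (c (c (p (nat_lit 0x109ad78)) (c (p (nat_lit 0x1304a0)) e)) (c (c (m (nat_lit 0x99ac8)) e) e))) (c (c (c (p (nat_lit 0x109ad78)) (c (p (nat_lit 0x1304a0)) e)) (c (c (m (nat_lit 0x19bacce0)) e) e)) (c (c (c (m (nat_lit 0x99ac8)) e) e) e))) (c (c (c (c (p (nat_lit 0x464d480)) (c (m (nat_lit 0x131bf8)) e)) (c (c (p (nat_lit 0x5520120)) e) e)) (c (c (c (p (nat_lit 0x5520120)) e) e) e)) (c (c (c (c (m (nat_lit 0x131970)) e) e) e) e))) (c (c (c (c (c (m (nat_lit 0x3ef7d80)) (c (m (nat_lit 0xa70ec44)) e)) (c (c (m (nat_lit 0x98fb8)) e) e)) (c (c (c (m (nat_lit 0x98c28)) e) e) e)) (c (c (c (c (m (nat_lit 0x3f22194)) e) e) e) e)) (c (c (c (c (c (m (nat_lit 0x24cb9c4)) e) e) e) e) e))) (c (c (c (c (c (c (m (nat_lit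 0x3ef7d80)) (c (m (nat_lit 0xa70ec44)) e)) (c (c (m (nat_lit 0x98c28)) e) e)) (c (c (c (m (nat_lit 0x98fb8)) e) e) e)) (c (c (c (c (m (nat_lit 0x3f22194)) e) e) e) e)) (c (c (c (c (c (m (nat_lit 0x4997190)) e) e) e) e) e)) (c (c (c (c (c (c (m (nat_lit 0x24cb9c4)) e) e) e) e) e) e))) (c (c (c (c (c (c (c (p (nat_lit 0x729cd8)) (c (m (nat_lit 0x263f70)) e)) (c (c (m (nat_lit 0x263f70)) e) e)) (c (c (c (m (nat_lit 0x263f70)) e) e) e)) (c (c (c (c (m (nat_lit 0x396f9c)) e) e) e) e)) (c (c (c (c (c (m (nat_lit 0x131a78)) e) e) e) e) e)) (c (c (c (c (c (c (m (nat_lit 0x131a78)) e) e) e) e) e) e)) (c (c (c (c (c (c (c (m (nat_lit 0x131bbc)) e) e) e) e) e) e) e))) (c (c (c (c (c (c (c (c (m (nat_lit 0xcb1c360)) (c (m (nat_lit 0xa65f960)) e)) (c (c (m (nat_lit 0x132354)) e) e)) (c (c (c (m (nat_lit 0x132354)) e) e) e)) (c (c (c (c (m (nat_lit 0x3f22278))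 e) e) e) e)) (c (c (c (c (c (p (nat_lit 0x41f4234)) e) e) e) e) e)) (c (c (c (c (c (c (p (nat_lit 0x41f4234)) e) e) e) e) e) e)) (c (c (c (c (c (c (c (m (nat_lit 0x131a78)) e) e) e) e) e) e) e)) (c (c (c (c (c (c (c (c (p (nat_lit 0x658e0f0)) e) e) e) e) e) e) e) e))) (c (c (c (c (c (c (c (c (c (p (nat_lit 0x39507c)) (c (m (nat_lit 0x202bdb0)) e)) (c (c (m (nat_lit 0x98d60)) e) e)) (c (c (c (m (nat_lit 0x1339a4)) e) e) e)) (c (c (c (c (m (nat_lit 0x99054)) e) e) e) e)) (c (c (c (c (c (m (nat_lit 0x131b20)) e) e) e) e) e)) (c (c (c (c (c (c (m (nat_lit 0x131a00)) e) e) e) e) e) e)) (c (c (c (c (c (c (c (m (nat_lit 0x131bbc)) e) e) e) e) e) e) e)) (c (c (c (c (c (c (c (c (m (nat_lit 0x98d18)) e) e) e) e) e) e) e) e)) (c (c (c (c (c (c (c (c (c (m (nat_lit 0x98d90)) e) e) e) e) e) e) e) e) e)))) (c (c (c (c (c (c (c (c (c (c (p (nat_lit 0x131b74))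 (c (p (nat_lit 0x22926cc)) (c (m (nat_lit 0x132b10)) e))) (c (c (p (nat_lit 0x22926cc)) (c (m (nat_lit 0x1335e4)) e)) (c (c (m (nat_lit 0x132b10)) e) e))) (c (c (c (p (nat_lit 0x5f8728)) (c (m (nat_lit 0x99ac8)) e)) (c (c (m (nat_lit 0x99ac8)) e) e)) (c (c (c (m (nat_lit 0x263688)) e) e) e))) (c (c (c (c (m (nat_lit 0x3c0ee80c)) (c (p (nat_lit 0x99b10)) e)) (c (c (p (nat_lit 0x99b10)) e) e)) (c (c (c (m (nat_lit 0x2634d8)) e) e) e)) (c (c (c (c (m (nat_lit 0x131a0c)) e) e) e) e))) (c (c (c (c (c (p (nat_lit 0xd97700)) (c (m (nat_lit 0x98e38)) e)) (c (c (m (nat_lit 0x98e38)) e) e)) (c (c (c (m (nat_lit 0x2634d8)) e) e) e)) (c (c (c (c (p (nat_lit 0x3c2202c0)) e) e) e) e)) (c (c (c (c (c (m (nat_lit 0xb34030)) e) e) e) e) e))) (c (c (c (c (c (c (p (nat_lit 0x1ca6ac)) (c (m (nat_lit 0x98e2c)) e)) (c (c (m (nat_lit 0x843c3c0)) e) e)) (c (c (c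 (m (nat_lit 0x131dd8)) e) e) e)) (c (c (c (c (m (nat_lit 0x524ccac)) e) e) e) e)) (c (c (c (c (c (m (nat_lit 0xa9b2e8)) e) e) e) e) e)) (c (c (c (c (c (c (m (nat_lit 0x98e68)) e) e) e) e) e) e))) (c (c (c (c (c (c (c (p (nat_lit 0x39507c)) (c (m (nat_lit 0x1339a4)) e)) (c (c (m (nat_lit 0x202bdb0)) e) e)) (c (c (c (m (nat_lit 0x98d60)) e) e) e)) (c (c (c (c (m (nat_lit 0x99054)) e) e) e) e)) (c (c (c (c (c (m (nat_lit 0x131a00)) e) e) e) e) e)) (c (c (c (c (c (c (m (nat_lit 0x98d18)) e) e) e) e) e) e)) (c (c (c (c (c (c (c (m (nat_lit 0x131b80)) e) e) e) e) e) e) e))) (c (c (c (c (c (c (c (c (p (nat_lit 0x1ca6ac)) (c (m (nat_lit 0x843c3c0)) e)) (c (c (m (nat_lit 0x98e2c)) e) e)) (c (c (c (m (nat_lit 0x131dd8)) e) e) e)) (c (c (c (c (m (nat_lit 0x524ccac)) e) e) e) e)) (c (c (c (c (c (m (nat_lit 0xa9b2e8)) e) e) e) e) e)) (c (c (c (c (c (c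 (m (nat_lit 0x131b08)) e) e) e) e) e) e)) (c (c (c (c (c (c (c (m (nat_lit 0x131b20)) e) e) e) e) e) e) e)) (c (c (c (c (c (c (c (c (m (nat_lit 0x98e68)) e) e) e) e) e) e) e) e))) (c (c (c (c (c (c (c (c (c (p (nat_lit 0x39507c)) (c (m (nat_lit 0x202bdb0)) e)) (c (c (m (nat_lit 0x1339a4)) e) e)) (c (c (c (m (nat_lit 0x98d60)) e) e) e)) (c (c (c (c (m (nat_lit 0x99054)) e) e) e) e)) (c (c (c (c (c (m (nat_lit 0x131a00)) e) e) e) e) e)) (c (c (c (c (c (c (m (nat_lit 0x131b20)) e) e) e) e) e) e)) (c (c (c (c (c (c (c (m (nat_lit 0x131bbc)) e) e) e) e) e) e) e)) (c (c (c (c (c (c (c (c (m (nat_lit 0x98d18)) e) e) e) e) e) e) e) e)) (c (c (c (c (c (c (c (c (c (m (nat_lit 0x131b80)) e) e) e) e) e) e) e) e) e))) (c (c (c (c (c (c (c (c (c (c (p (nat_lit 0x263214)) (c (m (nat_lit 0x1325e8)) e)) (c (c (m (nat_lit 0x1325e8)) e) e)) (c (c (c (m (nat_lit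 0x131b80)) e) e) e)) (c (c (c (c (m (nat_lit 0x131acc)) e) e) e) e)) (c (c (c (c (c (m (nat_lit 0x131b68)) e) e) e) e) e)) (c (c (c (c (c (c (m (nat_lit 0x98d6c)) e) e) e) e) e) e)) (c (c (c (c (c (c (c (m (nat_lit 0x98d90)) e) e) e) e) e) e) e)) (c (c (c (c (c (c (c (c (m (nat_lit 0x98d6c)) e) e) e) e) e) e) e) e)) (c (c (c (c (c (c (c (c (c (m (nat_lit 0x98d90)) e) e) e) e) e) e) e) e) e)) (c (c (c (c (c (c (c (c (c (c (m (nat_lit 0x131a24)) e) e) e) e) e) e) e) e) e) e)))))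

theorem c1 : trsOK col trs = true := by decide +kernel
theorem c2 : Nat.ble (Nat.mul (nat_lit 39) (nat_lit 4556)) (nat_lit 4294967295) = true := by decide +kernel
theorem c3 : Nat.beq (tabK (nat_lit 39) (List.ofFn s10)) kt = true := by decide +kernel
theorem c4 : okE trs E = true := by decide +kernel
theorem c5 : dE E (nat_lit 4) = true := by decide +kernel
theorem c6 : cmpK (nat_lit 10) (nat_lit 4) kt E T = true := by decide +kernel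
theorem c7 : bndK (nat_lit 10) (nat_lit 4) (Nat.pow (nat_lit 2) (nat_lit 39)) E T = true := by decide +kernel

theorem c0 : Fl.codeB col = 116 := by decide +kernel

theorem own : Fl.OwnOK 4 T 116 :=
  own_ok c0 c1 c2 c3 c4 c5 c6 c7

end H116

end Own

end HR
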