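import Pool.Agent.Lib.MP_a1b8b7_co.D.Tab
import Pool.Agent.Lib.MP_a1b8b7_co.B.Asm
import Pool.Agent.Lib.MP_a1b8b7_co.D.O116

/-!
# Main check for the colouring 116
-/

set_option autoImplicit false
set_option maxRecDepth 1000000

namespace HR

namespace Dat

open Fl Fl.Tr

namespace H116

theorem hm : mainS GD e TD Own.H116.T (nat_lit 4) (nat_lit 0) (nat_lit 0) (nat_lit 1) (nat_lit 0) (nat_lit 1) (nat_lit 1) (nat_lit 1) (nat_lit 0) (nat_lit 0) (nat_lit 0)
  (nat_lit 1) (nat_lit 1) (nat_lit 0) (nat_lit 1) (nat_lit 0) (nat_lit 0) (nat_lit 0) (nat_lit 1) (nat_lit 1) (nat_lit 1) = true := by decide +kernel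

theorem loc : LocOK 4 GD e TD 116 :=
  locOK_own 4 GD e TD Own.H116.T ![0, 0, 1, 0, 1, 1, 1, 0, 0, 0] 116 (by decide) (by decide) hm Own.H116.own

end H116

end Dat

end HR
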