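import Pool.Agent.Lib.MP_a1b8b7_co.B.OwnOK

set_option autoImplicit false

namespace HR

namespace Own

namespace H12

open Chk

def col : Fin 10 → Bool := ![false, false, true, true, false, false, false, false, false, false]

def trs : List ℕ := [nat_lit 1888, nat_lit 2145, nat_lit 2420, nat_lit 2437]

def kt : ℕ := nat_lit 0x28000000c80000034800000898000017e800003c50000086100000e8f80001b1200002c7e0

open Ex in
noncomputable def E : Ex := (a (a (a (a (u (nat_lit 9) (v (nat_lit 9) (v (nat_lit 9) (v (nat_lit 9) (k (nat_lit 0x131994)))))) (v (nat_lit 8) (a (u (nat_lit 9) (a (v (nat_lit 9) (v (nat_lit 9) (k (nat_lit 0x98526)))) (u (nat_lit 9) (v (nat_lit 9) (k (nat_lit 0x98436)))))) (v (nat_lit 8) (u (nat_lit 9) (v (nat_lit 9) (k (nat_lit 0x98d00)))))))) (a (u (nat_lit 8) (a (v (nat_lit 8) (a (v (nat_lit 9) (v (nat_lit 9) (k (nat_lit 0x98d00))))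 (v (nat_lit 8) (a (v (nat_lit 9) (k (nat_lit 0x98526))) (v (nat_lit 8) (k (nat_lit 0x131994))))))) (u (nat_lit 8) (v (nat_lit 8) (v (nat_lit 9) (k (nat_lit 0x98436))))))) (a (v (nat_lit 7) (a (a (u (nat_lit 9) (a (v (nat_lit 9) (v (nat_lit 9) (k (nat_lit 0x98526)))) (u (nat_lit 9) (v (nat_lit 9) (k (nat_lit 0x98436)))))) (v (nat_lit 8) (u (nat_lit 9) (v (nat_lit 9) (k (nat_lit 0x1319d0)))))) (a (u (nat_lit 8) (v (nat_lit 8) (a (v (nat_lit 9) (k (nat_lit 0x98df6))) (v (nat_lit 8) (k (nat_lit 0x131c28)))))) (v (nat_lit 7) (a (u (nat_lit 9) (v (nat_lit 9) (k (nat_lit 0x98d00)))) (a (u (nat_lit 8) (v (nat_lit 8) (k (nat_lit 0x13197c)))) (v (nat_lit 7) (u (nat_lit 8) (k (nat_lit 0x1316dc)))))))))) (u (nat_lit 7) (a (v (nat_lit 8) (v (nat_lit 8) (v (nat_lit 8) (k (nat_lit 0x1316dc))))) (a (v (nat_lit 7) (a (v (nat_lit 9) (v (nat_lit 9) (k (nat_lit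 0x98d00)))) (a (v (nat_lit 8) (a (v (nat_lit 9) (k (nat_lit 0x98df6))) (v (nat_lit 8) (k (nat_lit 0x13197c))))) (v (nat_lit 7) (a (v (nat_lit 9) (k (nat_lit 0x98526))) (a (v (nat_lit 8) (k (nat_lit 0x131c28))) (v (nat_lit 7) (k (nat_lit 0x131994))))))))) (u (nat_lit 7) (v (nat_lit 7) (v (nat_lit 9) (k (nat_lit 0x98436))))))))))) (a (a (v (nat_lit 6) (a (a (u (nat_lit 9) (v (nat_lit 9) (v (nat_lit 9) (k (nat_lit 0x131c28))))) (a (v (nat_lit 8) (u (nat_lit 9) (v (nat_lit 9) (k (nat_lit 0x98df6))))) (u (nat_lit 8) (a (v (nat_lit 8) (a (v (nat_lit 9) (k (nat_lit 0x1319d0))) (v (nat_lit 8) (k (nat_lit 0x98526))))) (u (nat_lit 8) (v (nat_lit 8) (k (nat_lit 0x98436)))))))) (a (v (nat_lit 7) (a (u (nat_lit 9) (v (nat_lit 9) (k (nat_lit 0x98df6)))) (a (v (nat_lit 8) (u (nat_lit 9) (k (nat_lit 0x131958)))) (u (nat_lit 8) (a (v (nat_lit 9) (k (nat_lit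 0x131958))) (v (nat_lit 8) (k (nat_lit 0x98df6)))))))) (a (u (nat_lit 7) (a (v (nat_lit 8) (v (nat_lit 9) (k (nat_lit 0x131958)))) (a (v (nat_lit 7) (a (v (nat_lit 9) (k (nat_lit 0x1319d0))) (a (v (nat_lit 8) (k (nat_lit 0x98df6))) (v (nat_lit 7) (k (nat_lit 0x98526)))))) (u (nat_lit 7) (v (nat_lit 7) (k (nat_lit 0x98436))))))) (v (nat_lit 6) (a (a (u (nat_lit 9) (v (nat_lit 9) (k (nat_lit 0x13197c)))) (u (nat_lit 8) (v (nat_lit 8) (k (nat_lit 0x98d00))))) (a (u (nat_lit 7) (v (nat_lit 7) (k (nat_lit 0x98d00)))) (v (nat_lit 6) (u (nat_lit 9) (k (nat_lit 0x1316dc))))))))))) (a (u (nat_lit 6) (a (a (v (nat_lit 9) (v (nat_lit 9) (v (nat_lit 9) (k (nat_lit 0x1316dc))))) (v (nat_lit 7) (v (nat_lit 8) (v (nat_lit 9) (k (nat_lit 0x131958)))))) (a (v (nat_lit 6) (a (a (v (nat_lit 9) (v (nat_lit 9) (k (nat_lit 0x13197c)))) (v (nat_lit 8) (a (v (nat_lit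 9) (k (nat_lit 0x98df6))) (v (nat_lit 8) (k (nat_lit 0x98d00)))))) (a (v (nat_lit 7) (a (v (nat_lit 9) (k (nat_lit 0x98df6))) (a (v (nat_lit 8) (k (nat_lit 0x1319d0))) (v (nat_lit 7) (k (nat_lit 0x98d00)))))) (v (nat_lit 6) (a (a (v (nat_lit 9) (k (nat_lit 0x131c28))) (v (nat_lit 8) (k (nat_lit 0x98526)))) (a (v (nat_lit 7) (k (nat_lit 0x98526))) (v (nat_lit 6) (k (nat_lit 0x131994))))))))) (u (nat_lit 6) (v (nat_lit 6) (a (v (nat_lit 8) (k (nat_lit 0x98436))) (v (nat_lit 7) (k (nat_lit 0x98436))))))))) (v (nat_lit 5) (a (a (u (nat_lit 9) (a (v (nat_lit 9) (v (nat_lit 9) (k (nat_lit 0x98f3a)))) (u (nat_lit 9) (v (nat_lit 9) (k (nat_lit 0x7cd61b4)))))) (a (u (nat_lit 8) (a (v (nat_lit 8) (v (nat_lit 8) (k (nat_lit 0x98f3a)))) (u (nat_lit 8) (v (nat_lit 8) (k (nat_lit 0x7cd61b4)))))) (v (nat_lit 7) (a (a (u (nat_lit 9) (v (nat_lit 9) (k (nat_lit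 0x9b3b8)))) (v (nat_lit 8) (u (nat_lit 9) (k (nat_lit 0x95ca6))))) (a (u (nat_lit 8) (a (v (nat_lit 9) (k (nat_lit 0x9c46e))) (v (nat_lit 8) (k (nat_lit 0x98fb8))))) (v (nat_lit 7) (a (u (nat_lit 9) (k (nat_lit 0x97560))) (u (nat_lit 8) (k (nat_lit 0x9a122)))))))))) (a (a (u (nat_lit 7) (v (nat_lit 7) (a (u (nat_lit 8) (k (nat_lit 0x1ff2024))) (v (nat_lit 7) (k (nat_lit 0x9872a)))))) (v (nat_lit 6) (a (a (u (nat_lit 9) (v (nat_lit 9) (k (nat_lit 0x98fb8)))) (v (nat_lit 8) (u (nat_lit 9) (k (nat_lit 0x9c46e))))) (a (u (nat_lit 8) (a (v (nat_lit 9) (k (nat_lit 0x95ca6))) (v (nat_lit 8) (k (nat_lit 0x9b3b8))))) (a (u (nat_lit 7) (v (nat_lit 8) (k (nat_lit 0x98fd0)))) (v (nat_lit 6) (a (u (nat_lit 9) (k (nat_lit 0x9a122))) (a (u (nat_lit 8) (k (nat_lit 0x97560))) (u (nat_lit 7) (k (nat_lit 0x989c4))))))))))) (a (u (nat_lit 6) (a (v (nat_lit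 7) (a (v (nat_lit 9) (k (nat_lit 0x98fd0))) (v (nat_lit 7) (k (nat_lit 0x989c4))))) (v (nat_lit 6) (a (u (nat_lit 9) (k (nat_lit 0x1ff2024))) (v (nat_lit 6) (k (nat_lit 0x9872a))))))) (v (nat_lit 5) (a (a (u (nat_lit 9) (v (nat_lit 9) (k (nat_lit 0x994c8)))) (a (v (nat_lit 8) (u (nat_lit 9) (k (nat_lit 0x98da2)))) (u (nat_lit 8) (a (v (nat_lit 9) (k (nat_lit 0x98da2))) (v (nat_lit 8) (k (nat_lit 0x994c8))))))) (a (a (v (nat_lit 7) (u (nat_lit 9) (k (nat_lit 0x980a0)))) (u (nat_lit 7) (v (nat_lit 8) (k (nat_lit 0x99714))))) (a (v (nat_lit 6) (a (u (nat_lit 8) (k (nat_lit 0x980a0))) (u (nat_lit 7) (k (nat_lit 0x99402))))) (u (nat_lit 6) (a (v (nat_lit 9) (k (nat_lit 0x99714))) (v (nat_lit 7) (k (nat_lit 0x99402))))))))))))))) (a (u (nat_lit 5) (a (a (v (nat_lit 8) (a (v (nat_lit 9) (v (nat_lit 9) (k (nat_lit 0x98bd4)))) (v (nat_lit 8) (v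 (nat_lit 9) (k (nat_lit 0x98bd4)))))) (a (v (nat_lit 7) (a (v (nat_lit 9) (v (nat_lit 9) (k (nat_lit 0x96ab6)))) (a (v (nat_lit 8) (v (nat_lit 9) (k (nat_lit 0x99042)))) (v (nat_lit 7) (a (v (nat_lit 9) (k (nat_lit 0x9a59c))) (u (nat_lit 8) (k (nat_lit 0x9916e)))))))) (u (nat_lit 7) (v (nat_lit 7) (v (nat_lit 8) (k (nat_lit 0x99a92))))))) (a (v (nat_lit 6) (a (v (nat_lit 8) (a (v (nat_lit 9) (k (nat_lit 0x99042))) (v (nat_lit 8) (k (nat_lit 0x96ab6))))) (v (nat_lit 6) (a (u (nat_lit 9) (k (nat_lit 0x9916e))) (v (nat_lit 8) (k (nat_lit 0x9a59c))))))) (a (u (nat_lit 6) (v (nat_lit 6) (v (nat_lit 9) (k (nat_lit 0x99a92))))) (v (nat_lit 5) (a (a (v (nat_lit 8) (v (nat_lit 9) (k (nat_lit 0x132594)))) (v (nat_lit 7) (a (v (nat_lit 9) (k (nat_lit 0x9a014))) (a (v (nat_lit 8) (k (nat_lit 0x98c4c))) (v (nat_lit 7) (k (nat_lit 0x99528))))))) (a (v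 (nat_lit 6) (a (a (v (nat_lit 9) (k (nat_lit 0x98c4c))) (v (nat_lit 8) (k (nat_lit 0x9a014)))) (a (v (nat_lit 7) (k (nat_lit 0x1315bc))) (v (nat_lit 6) (k (nat_lit 0x99528)))))) (v (nat_lit 5) (a (a (v (nat_lit 9) (k (nat_lit 0x9911a))) (v (nat_lit 8) (k (nat_lit 0x9911a)))) (a (v (nat_lit 7) (k (nat_lit 0x98c64))) (a (v (nat_lit 6) (k (nat_lit 0x98c64))) (v (nat_lit 5) (k (nat_lit 0x132000)))))))))))))) (a (t (nat_lit 5) (nat_lit 8) (nat_lit 9) (a (a (v (nat_lit 7) (v (nat_lit 7) (u (nat_lit 8) (k (nat_lit 0x99156))))) (a (u (nat_lit 7) (u (nat_lit 7) (a (u (nat_lit 9) (k (nat_lit 0x9a482))) (v (nat_lit 7) (k (nat_lit 0x299fcbe)))))) (v (nat_lit 6) (v (nat_lit 6) (u (nat_lit 9) (k (nat_lit 0x99156))))))) (a (u (nat_lit 6) (u (nat_lit 6) (a (u (nat_lit 8) (k (nat_lit 0x9a482))) (v (nat_lit 6) (k (nat_lit 0x299fcbe)))))) (a (v (nat_lit 5)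 (a (a (u (nat_lit 8) (u (nat_lit 9) (k (nat_lit 0x4336464)))) (u (nat_lit 7) (u (nat_lit 9) (k (nat_lit 0x2e43bda))))) (a (u (nat_lit 6) (u (nat_lit 8) (k (nat_lit 0x2e43bda)))) (v (nat_lit 5) (a (u (nat_lit 9) (k (nat_lit 0x1702b5a))) (u (nat_lit 8) (k (nat_lit 0x1702b5a)))))))) (u (nat_lit 5) (a (u (nat_lit 7) (v (nat_lit 7) (k (nat_lit 0x2d11058)))) (u (nat_lit 6) (v (nat_lit 6) (k (nat_lit 0x2d11058)))))))))) (v (nat_lit 4) (a (a (a (u (nat_lit 9) (a (v (nat_lit 9) (v (nat_lit 9) (k (nat_lit 0x98f3a)))) (u (nat_lit 9) (v (nat_lit 9) (k (nat_lit 0x7cd61b4)))))) (v (nat_lit 8) (a (u (nat_lit 9) (v (nat_lit 9) (k (nat_lit 0x9b3b8)))) (v (nat_lit 8) (u (nat_lit 9) (k (nat_lit 0x97560))))))) (a (u (nat_lit 8) (v (nat_lit 8) (v (nat_lit 8) (k (nat_lit 0x9872a))))) (a (v (nat_lit 7) (v (nat_lit 8) (u (nat_lit 9) (k (nat_lit 0x95ca6))))) (u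 (nat_lit 7) (a (a (v (nat_lit 8) (a (v (nat_lit 9) (k (nat_lit 0x9c46e))) (v (nat_lit 8) (k (nat_lit 0x9a122))))) (u (nat_lit 8) (v (nat_lit 8) (k (nat_lit 0x1ff2024))))) (a (v (nat_lit 7) (a (v (nat_lit 8) (k (nat_lit 0x98fb8))) (v (nat_lit 7) (k (nat_lit 0x98f3a))))) (u (nat_lit 7) (v (nat_lit 7) (k (nat_lit 0x7cd61b4)))))))))) (a (a (v (nat_lit 6) (a (a (u (nat_lit 9) (v (nat_lit 9) (k (nat_lit 0x98fb8)))) (v (nat_lit 7) (a (u (nat_lit 9) (k (nat_lit 0x9c46e))) (u (nat_lit 8) (k (nat_lit 0x98fd0)))))) (a (u (nat_lit 7) (a (v (nat_lit 9) (k (nat_lit 0x95ca6))) (v (nat_lit 7) (k (nat_lit 0x9b3b8))))) (v (nat_lit 6) (a (u (nat_lit 9) (k (nat_lit 0x9a122))) (a (u (nat_lit 8) (k (nat_lit 0x989c4))) (u (nat_lit 7) (k (nat_lit 0x97560))))))))) (u (nat_lit 6) (a (v (nat_lit 8) (a (v (nat_lit 9) (k (nat_lit 0x98fd0))) (v (nat_lit 8) (k (nat_lit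 0x989c4))))) (v (nat_lit 6) (a (u (nat_lit 9) (k (nat_lit 0x1ff2024))) (v (nat_lit 6) (k (nat_lit 0x9872a)))))))) (a (v (nat_lit 5) (a (a (u (nat_lit 9) (v (nat_lit 9) (k (nat_lit 0x133f80)))) (v (nat_lit 8) (u (nat_lit 9) (k (nat_lit 0x9bd9c))))) (a (v (nat_lit 7) (u (nat_lit 9) (k (nat_lit 0x9bd9c)))) (a (v (nat_lit 6) (a (u (nat_lit 9) (k (nat_lit 0x12b34c))) (a (u (nat_lit 8) (k (nat_lit 0x9c870))) (u (nat_lit 7) (k (nat_lit 0x9c870)))))) (u (nat_lit 6) (a (v (nat_lit 9) (k (nat_lit 0x137f1c))) (a (v (nat_lit 8) (k (nat_lit 0x95580))) (v (nat_lit 7) (k (nat_lit 0x95580)))))))))) (a (u (nat_lit 5) (a (a (v (nat_lit 9) (v (nat_lit 9) (k (nat_lit 0x99dce)))) (a (v (nat_lit 8) (v (nat_lit 8) (k (nat_lit 0x99d44)))) (u (nat_lit 8) (v (nat_lit 9) (k (nat_lit 0x9bda8)))))) (a (v (nat_lit 7) (v (nat_lit 8) (k (nat_lit 0x17ba4f0)))) (a (v (nat_lit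 6) (a (v (nat_lit 9) (k (nat_lit 0x9a458))) (v (nat_lit 6) (k (nat_lit 0x9acd4))))) (v (nat_lit 5) (v (nat_lit 6) (k (nat_lit 0x99018)))))))) (v (nat_lit 4) (a (a (a (u (nat_lit 9) (v (nat_lit 9) (k (nat_lit 0x994c8)))) (v (nat_lit 8) (u (nat_lit 9) (k (nat_lit 0x980a0))))) (a (v (nat_lit 7) (a (u (nat_lit 9) (k (nat_lit 0x98da2))) (u (nat_lit 8) (k (nat_lit 0x99714))))) (u (nat_lit 7) (a (v (nat_lit 9) (k (nat_lit 0x98da2))) (v (nat_lit 7) (k (nat_lit 0x994c8))))))) (a (a (v (nat_lit 6) (a (u (nat_lit 8) (k (nat_lit 0x99402))) (u (nat_lit 7) (k (nat_lit 0x980a0))))) (u (nat_lit 6) (a (v (nat_lit 9) (k (nat_lit 0x99714))) (v (nat_lit 8) (k (nat_lit 0x99402)))))) (a (u (nat_lit 5) (a (a (v (nat_lit 9) (k (nat_lit 0x98f8e))) (v (nat_lit 8) (k (nat_lit 0x988ce)))) (a (u (nat_lit 8) (k (nat_lit 0x9936c))) (a (v (nat_lit 7) (k (nat_lit 0x98ed4)))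 (v (nat_lit 5) (k (nat_lit 0x98f0a))))))) (v (nat_lit 4) (u (nat_lit 5) (k (nat_lit 0x98ff4))))))))))))))))) (a (a (a (u (nat_lit 4) (a (a (a (v (nat_lit 8) (a (v (nat_lit 9) (v (nat_lit 9) (k (nat_lit 0x96ab6)))) (v (nat_lit 8) (v (nat_lit 9) (k (nat_lit 0x9a59c)))))) (v (nat_lit 7) (a (a (v (nat_lit 9) (v (nat_lit 9) (k (nat_lit 0x98bd4)))) (v (nat_lit 8) (v (nat_lit 9) (k (nat_lit 0x99042))))) (a (u (nat_lit 8) (v (nat_lit 8) (k (nat_lit 0x99a92)))) (v (nat_lit 7) (v (nat_lit 9) (k (nat_lit 0x98bd4)))))))) (a (u (nat_lit 7) (v (nat_lit 8) (v (nat_lit 8) (k (nat_lit 0x9916e))))) (a (v (nat_lit 6) (a (v (nat_lit 7) (a (v (nat_lit 9) (k (nat_lit 0x99042))) (v (nat_lit 7) (k (nat_lit 0x96ab6))))) (v (nat_lit 6) (a (u (nat_lit 9) (k (nat_lit 0x9916e))) (v (nat_lit 7) (k (nat_lit 0x9a59c))))))) (u (nat_lit 6) (v (nat_lit 6) (v (nat_lit 9)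 (k (nat_lit 0x99a92)))))))) (a (a (v (nat_lit 5) (a (a (v (nat_lit 9) (v (nat_lit 9) (k (nat_lit 0x99dce)))) (v (nat_lit 7) (a (v (nat_lit 8) (k (nat_lit 0x17ba4f0))) (v (nat_lit 7) (k (nat_lit 0x99d44)))))) (a (u (nat_lit 7) (v (nat_lit 9) (k (nat_lit 0x9bda8)))) (a (v (nat_lit 6) (a (v (nat_lit 9) (k (nat_lit 0x9a458))) (v (nat_lit 6) (k (nat_lit 0x9acd4))))) (v (nat_lit 5) (a (a (v (nat_lit 9) (k (nat_lit 0x98f8e))) (v (nat_lit 8) (k (nat_lit 0x98ed4)))) (a (v (nat_lit 7) (k (nat_lit 0x988ce))) (a (u (nat_lit 7) (k (nat_lit 0x9936c))) (v (nat_lit 5) (k (nat_lit 0x98ff4))))))))))) (u (nat_lit 5) (v (nat_lit 5) (v (nat_lit 7) (k (nat_lit 0x9881a)))))) (a (t (nat_lit 5) (nat_lit 8) (nat_lit 9) (a (v (nat_lit 7) (u (nat_lit 8) (k (nat_lit 0x99690)))) (u (nat_lit 5) (u (nat_lit 9) (k (nat_lit 0x99264)))))) (a (v (nat_lit 4) (a (a (v (nat_lit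 8) (a (v (nat_lit 9) (k (nat_lit 0x9a014))) (v (nat_lit 8) (k (nat_lit 0x99528))))) (a (v (nat_lit 7) (a (v (nat_lit 9) (k (nat_lit 0x132594))) (v (nat_lit 8) (k (nat_lit 0x98c4c))))) (v (nat_lit 6) (a (a (v (nat_lit 9) (k (nat_lit 0x98c4c))) (v (nat_lit 8) (k (nat_lit 0x1315bc)))) (a (v (nat_lit 7) (k (nat_lit 0x9a014))) (v (nat_lit 6) (k (nat_lit 0x99528)))))))) (a (v (nat_lit 5) (a (v (nat_lit 6) (k (nat_lit 0x99018))) (v (nat_lit 5) (k (nat_lit 0x98f0a))))) (a (u (nat_lit 5) (v (nat_lit 8) (k (nat_lit 0x9881a)))) (v (nat_lit 4) (a (a (v (nat_lit 9) (k (nat_lit 0x9911a))) (v (nat_lit 8) (k (nat_lit 0x98c64)))) (a (v (nat_lit 7) (k (nat_lit 0x9911a))) (a (v (nat_lit 6) (k (nat_lit 0x98c64))) (v (nat_lit 4) (k (nat_lit 0x132000))))))))))) (u (nat_lit 4) (t (nat_lit 5) (nat_lit 8) (nat_lit 9) (u (nat_lit 9) (k (nat_lit 0x99150))))))))))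 (a (t (nat_lit 4) (nat_lit 7) (nat_lit 9) (a (a (a (u (nat_lit 8) (u (nat_lit 8) (a (u (nat_lit 9) (k (nat_lit 0x9a482))) (v (nat_lit 8) (k (nat_lit 0x299fcbe)))))) (u (nat_lit 7) (v (nat_lit 8) (v (nat_lit 8) (k (nat_lit 0x99156)))))) (a (v (nat_lit 6) (v (nat_lit 6) (u (nat_lit 9) (k (nat_lit 0x99156))))) (u (nat_lit 6) (u (nat_lit 6) (a (u (nat_lit 7) (k (nat_lit 0x9a482))) (v (nat_lit 6) (k (nat_lit 0x299fcbe)))))))) (a (a (u (nat_lit 5) (a (u (nat_lit 7) (v (nat_lit 8) (k (nat_lit 0x99690)))) (u (nat_lit 5) (u (nat_lit 9) (k (nat_lit 0x99150)))))) (t (nat_lit 5) (nat_lit 8) (nat_lit 9) (a (u (nat_lit 6) (v (nat_lit 6) (k (nat_lit 0x134bb0)))) (t (nat_lit 5) (nat_lit 8) (nat_lit 9) (u (nat_lit 9) (k (nat_lit 0x186c97e))))))) (a (v (nat_lit 4) (a (a (u (nat_lit 8) (u (nat_lit 9) (k (nat_lit 0x2e43bda)))) (u (nat_lit 7) (u (nat_lit 9)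 (k (nat_lit 0x4336464))))) (a (u (nat_lit 6) (u (nat_lit 7) (k (nat_lit 0x2e43bda)))) (a (t (nat_lit 5) (nat_lit 8) (nat_lit 9) (u (nat_lit 5) (k (nat_lit 0x1918c4a)))) (v (nat_lit 4) (a (u (nat_lit 9) (k (nat_lit 0x1702b5a))) (u (nat_lit 7) (k (nat_lit 0x1702b5a))))))))) (a (u (nat_lit 4) (a (a (u (nat_lit 8) (v (nat_lit 8) (k (nat_lit 0x2d11058)))) (u (nat_lit 6) (v (nat_lit 6) (k (nat_lit 0x2d11058))))) (a (u (nat_lit 5) (u (nat_lit 9) (k (nat_lit 0x99264)))) (t (nat_lit 5) (nat_lit 8) (nat_lit 9) (v (nat_lit 5) (k (nat_lit 0x1918c4a))))))) (t (nat_lit 4) (nat_lit 7) (nat_lit 9) (t (nat_lit 5) (nat_lit 8) (nat_lit 9) (u (nat_lit 9) (k (nat_lit 0x186c97e)))))))))) (v (nat_lit 3) (a (a (a (u (nat_lit 8) (v (nat_lit 8) (v (nat_lit 8) (k (nat_lit 0x131c28))))) (a (v (nat_lit 7) (a (u (nat_lit 8) (a (v (nat_lit 9) (k (nat_lit 0x98eec))) (v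 (nat_lit 8) (k (nat_lit 0x131f94))))) (v (nat_lit 7) (u (nat_lit 8) (k (nat_lit 0x131574)))))) (u (nat_lit 7) (a (v (nat_lit 8) (a (v (nat_lit 9) (k (nat_lit 0x98eec))) (v (nat_lit 8) (k (nat_lit 0x131574))))) (v (nat_lit 7) (a (v (nat_lit 8) (k (nat_lit 0x131f94))) (v (nat_lit 7) (k (nat_lit 0x131c28))))))))) (a (v (nat_lit 6) (a (a (u (nat_lit 9) (v (nat_lit 9) (k (nat_lit 0x12f6b4)))) (v (nat_lit 8) (u (nat_lit 9) (k (nat_lit 0x98d0c))))) (a (v (nat_lit 7) (a (u (nat_lit 9) (k (nat_lit 0x98d0c))) (u (nat_lit 8) (k (nat_lit 0x98eec))))) (a (u (nat_lit 7) (v (nat_lit 8) (k (nat_lit 0x98eec)))) (v (nat_lit 6) (u (nat_lit 9) (k (nat_lit 0x1318ec)))))))) (a (u (nat_lit 6) (a (a (v (nat_lit 9) (v (nat_lit 9) (k (nat_lit 0x1318ec)))) (v (nat_lit 8) (v (nat_lit 9) (k (nat_lit 0x98d0c))))) (a (v (nat_lit 7) (v (nat_lit 9) (k (nat_lit 0x98d0c))))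 (v (nat_lit 6) (v (nat_lit 9) (k (nat_lit 0x12f6b4))))))) (v (nat_lit 5) (a (a (u (nat_lit 8) (v (nat_lit 9) (k (nat_lit 0x99138)))) (v (nat_lit 7) (u (nat_lit 8) (k (nat_lit 0x9a176))))) (a (u (nat_lit 7) (a (v (nat_lit 9) (k (nat_lit 0x9b196))) (v (nat_lit 8) (k (nat_lit 0x954c6))))) (a (v (nat_lit 6) (a (u (nat_lit 9) (k (nat_lit 0x97020))) (a (u (nat_lit 8) (k (nat_lit 0x99012))) (u (nat_lit 7) (k (nat_lit 0x98d4e)))))) (u (nat_lit 6) (a (v (nat_lit 8) (k (nat_lit 0x997da))) (v (nat_lit 6) (k (nat_lit 0x98fac)))))))))))) (a (a (u (nat_lit 5) (a (u (nat_lit 8) (u (nat_lit 9) (k (nat_lit 0x98be0)))) (v (nat_lit 5) (a (a (v (nat_lit 9) (k (nat_lit 0x99114))) (v (nat_lit 8) (k (nat_lit 0x99264)))) (a (v (nat_lit 7) (k (nat_lit 0x99354))) (a (v (nat_lit 6) (k (nat_lit 0x9903c))) (v (nat_lit 5) (k (nat_lit 0x98b02))))))))) (a (t (nat_lit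 5) (nat_lit 8) (nat_lit 9) (a (u (nat_lit 8) (u (nat_lit 8) (k (nat_lit 0xa27bae0)))) (v (nat_lit 5) (u (nat_lit 8) (k (nat_lit 0x2bf4b08)))))) (v (nat_lit 4) (a (a (a (u (nat_lit 8) (v (nat_lit 9) (k (nat_lit 0x9b196)))) (v (nat_lit 7) (u (nat_lit 8) (k (nat_lit 0x954c6))))) (a (u (nat_lit 7) (a (v (nat_lit 9) (k (nat_lit 0x99138))) (v (nat_lit 8) (k (nat_lit 0x9a176))))) (v (nat_lit 6) (a (u (nat_lit 9) (k (nat_lit 0x97020))) (a (u (nat_lit 8) (k (nat_lit 0x98d4e))) (u (nat_lit 7) (k (nat_lit 0x99012)))))))) (a (a (u (nat_lit 6) (a (v (nat_lit 7) (k (nat_lit 0x997da))) (v (nat_lit 6) (k (nat_lit 0x98fac))))) (u (nat_lit 5) (a (v (nat_lit 9) (k (nat_lit 0x99036))) (a (v (nat_lit 8) (k (nat_lit 0x1794df2))) (v (nat_lit 5) (k (nat_lit 0x9a236))))))) (a (t (nat_lit 5) (nat_lit 8) (nat_lit 9) (u (nat_lit 8) (k (nat_lit 0x997f2)))) (v (nat_lit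 4) (u (nat_lit 5) (k (nat_lit 0x97b4e)))))))))) (a (u (nat_lit 4) (a (u (nat_lit 7) (u (nat_lit 9) (k (nat_lit 0x98be0)))) (a (v (nat_lit 5) (a (v (nat_lit 9) (k (nat_lit 0x99036))) (a (v (nat_lit 7) (k (nat_lit 0x1794df2))) (v (nat_lit 5) (k (nat_lit 0x97b4e)))))) (v (nat_lit 4) (a (a (v (nat_lit 9) (k (nat_lit 0x99114))) (a (v (nat_lit 8) (k (nat_lit 0x99354))) (v (nat_lit 7) (k (nat_lit 0x99264))))) (a (v (nat_lit 6) (k (nat_lit 0x9903c))) (a (v (nat_lit 5) (k (nat_lit 0x9a236))) (v (nat_lit 4) (k (nat_lit 0x98b02)))))))))) (a (t (nat_lit 4) (nat_lit 7) (nat_lit 9) (a (u (nat_lit 7) (u (nat_lit 7) (k (nat_lit 0xa27bae0)))) (a (v (nat_lit 5) (u (nat_lit 7) (k (nat_lit 0x997f2)))) (v (nat_lit 4) (u (nat_lit 7) (k (nat_lit 0x2bf4b08))))))) (v (nat_lit 3) (a (a (a (u (nat_lit 9) (v (nat_lit 9) (k (nat_lit 0x131988)))) (u (nat_lit 8) (v (nat_lit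 8) (k (nat_lit 0x131274))))) (a (v (nat_lit 7) (u (nat_lit 8) (k (nat_lit 0x1319ac)))) (a (u (nat_lit 7) (a (v (nat_lit 8) (k (nat_lit 0x1319ac))) (v (nat_lit 7) (k (nat_lit 0x131274))))) (v (nat_lit 6) (u (nat_lit 9) (k (nat_lit 0x133614))))))) (a (a (u (nat_lit 6) (a (v (nat_lit 9) (k (nat_lit 0x133614))) (v (nat_lit 6) (k (nat_lit 0x131988))))) (a (u (nat_lit 5) (v (nat_lit 5) (k (nat_lit 0x23575eba)))) (t (nat_lit 5) (nat_lit 8) (nat_lit 9) (u (nat_lit 9) (k (nat_lit 0xa21134c)))))) (a (v (nat_lit 4) (u (nat_lit 5) (k (nat_lit 0xa7b639e)))) (a (u (nat_lit 4) (a (v (nat_lit 5) (k (nat_lit 0xa7b639e))) (v (nat_lit 4) (k (nat_lit 0x23575eba))))) (t (nat_lit 4) (nat_lit 7) (nat_lit 9) (u (nat_lit 9) (k (nat_lit 0xa21134c)))))))))))))))) (a (u (nat_lit 3) (a (a (a (v (nat_lit 9) (v (nat_lit 9) (v (nat_lit 9) (k (nat_lit 0x131970))))) (a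 (v (nat_lit 8) (a (v (nat_lit 9) (v (nat_lit 9) (k (nat_lit 0x98da8)))) (v (nat_lit 8) (v (nat_lit 9) (k (nat_lit 0x98c94)))))) (v (nat_lit 7) (a (v (nat_lit 9) (v (nat_lit 9) (k (nat_lit 0x98da8)))) (a (v (nat_lit 8) (v (nat_lit 9) (k (nat_lit 0x1314d8)))) (v (nat_lit 7) (v (nat_lit 9) (k (nat_lit 0x98c94))))))))) (a (v (nat_lit 6) (a (a (v (nat_lit 9) (v (nat_lit 9) (k (nat_lit 0x133cc8)))) (v (nat_lit 8) (v (nat_lit 8) (k (nat_lit 0x98c94))))) (a (v (nat_lit 7) (a (v (nat_lit 8) (k (nat_lit 0x1314d8))) (v (nat_lit 7) (k (nat_lit 0x98c94))))) (v (nat_lit 6) (a (a (v (nat_lit 9) (k (nat_lit 0x133cc8))) (v (nat_lit 8) (k (nat_lit 0x98da8)))) (a (v (nat_lit 7) (k (nat_lit 0x98da8))) (v (nat_lit 6) (k (nat_lit 0x131970))))))))) (a (v (nat_lit 5) (a (a (v (nat_lit 9) (v (nat_lit 9) (k (nat_lit 0x9906c)))) (v (nat_lit 8) (v (nat_lit 8) (k (nat_lit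 0x98fb8))))) (a (v (nat_lit 7) (a (v (nat_lit 9) (k (nat_lit 0x9702c))) (a (v (nat_lit 8) (k (nat_lit 0x9bf34))) (v (nat_lit 7) (k (nat_lit 0x98e62)))))) (a (v (nat_lit 6) (v (nat_lit 7) (k (nat_lit 0x99a56)))) (v (nat_lit 5) (a (v (nat_lit 7) (k (nat_lit 0x98b20))) (v (nat_lit 5) (k (nat_lit 0x9925e))))))))) (u (nat_lit 5) (v (nat_lit 6) (u (nat_lit 9) (k (nat_lit 0x9aca4)))))))) (a (a (t (nat_lit 5) (nat_lit 8) (nat_lit 9) (a (u (nat_lit 7) (v (nat_lit 8) (k (nat_lit 0x200f2c8)))) (v (nat_lit 6) (u (nat_lit 9) (k (nat_lit 0x99144)))))) (a (v (nat_lit 4) (a (a (v (nat_lit 9) (v (nat_lit 9) (k (nat_lit 0x9906c)))) (a (v (nat_lit 8) (a (v (nat_lit 9) (k (nat_lit 0x9702c))) (v (nat_lit 8) (k (nat_lit 0x98e62))))) (v (nat_lit 7) (a (v (nat_lit 8) (k (nat_lit 0x9bf34))) (v (nat_lit 7) (k (nat_lit 0x98fb8))))))) (a (v (nat_lit 6) (v (nat_lit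 8) (k (nat_lit 0x99a56)))) (a (v (nat_lit 5) (v (nat_lit 6) (k (nat_lit 0x132108)))) (v (nat_lit 4) (a (v (nat_lit 8) (k (nat_lit 0x98b20))) (v (nat_lit 4) (k (nat_lit 0x9925e))))))))) (u (nat_lit 4) (v (nat_lit 6) (u (nat_lit 9) (k (nat_lit 0x9aca4))))))) (a (t (nat_lit 4) (nat_lit 7) (nat_lit 9) (a (v (nat_lit 7) (u (nat_lit 8) (k (nat_lit 0x200f2c8)))) (v (nat_lit 6) (u (nat_lit 9) (k (nat_lit 0x99144)))))) (a (v (nat_lit 3) (a (a (a (v (nat_lit 8) (a (v (nat_lit 9) (k (nat_lit 0x98d96))) (v (nat_lit 8) (k (nat_lit 0x13206c))))) (v (nat_lit 7) (a (v (nat_lit 9) (k (nat_lit 0x98d96))) (v (nat_lit 7) (k (nat_lit 0x13206c)))))) (a (v (nat_lit 6) (a (a (v (nat_lit 9) (k (nat_lit 0x25f170))) (u (nat_lit 9) (k (nat_lit 0x131844)))) (a (v (nat_lit 8) (k (nat_lit 0x98d96))) (v (nat_lit 7) (k (nat_lit 0x98d96)))))) (a (u (nat_lit 6) (v (nat_lit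 9) (k (nat_lit 0x131844)))) (v (nat_lit 5) (a (a (v (nat_lit 9) (k (nat_lit 0x98f70))) (v (nat_lit 8) (k (nat_lit 0x98fe8)))) (a (v (nat_lit 7) (k (nat_lit 0x98e26))) (v (nat_lit 6) (k (nat_lit 0x98fdc))))))))) (a (a (t (nat_lit 5) (nat_lit 8) (nat_lit 9) (u (nat_lit 7) (k (nat_lit 0x9df3e)))) (v (nat_lit 4) (a (a (v (nat_lit 9) (k (nat_lit 0x98f70))) (v (nat_lit 8) (k (nat_lit 0x98e26)))) (a (v (nat_lit 7) (k (nat_lit 0x98fe8))) (a (v (nat_lit 6) (k (nat_lit 0x98fdc))) (v (nat_lit 5) (k (nat_lit 0x131f70)))))))) (a (u (nat_lit 4) (t (nat_lit 5) (nat_lit 8) (nat_lit 9) (k (nat_lit 0x3abf3fc)))) (a (t (nat_lit 4) (nat_lit 7) (nat_lit 9) (a (u (nat_lit 8) (k (nat_lit 0x9df3e))) (u (nat_lit 5) (k (nat_lit 0x3abf3fc))))) (v (nat_lit 3) (a (a (a (v (nat_lit 9) (k (nat_lit 0x1319dc))) (v (nat_lit 8) (k (nat_lit 0x4c5588)))) (a (v (nat_lit 7)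 (k (nat_lit 0x4c5588))) (v (nat_lit 6) (k (nat_lit 0x1319dc))))) (a (a (v (nat_lit 5) (k (nat_lit 0x98dea))) (u (nat_lit 5) (k (nat_lit 0x98cee)))) (a (v (nat_lit 4) (k (nat_lit 0x98dea))) (a (u (nat_lit 4) (k (nat_lit 0x98cee))) (v (nat_lit 3) (k (nat_lit 0x263268))))))))))))) (u (nat_lit 3) (a (a (v (nat_lit 5) (v (nat_lit 9) (k (nat_lit 0x9a170)))) (a (u (nat_lit 5) (v (nat_lit 5) (k (nat_lit 0x3182e8d2)))) (v (nat_lit 4) (a (v (nat_lit 9) (k (nat_lit 0x9a170))) (u (nat_lit 5) (k (nat_lit 0x16e2b8e4))))))) (a (u (nat_lit 4) (a (v (nat_lit 5) (k (nat_lit 0x16e2b8e4))) (v (nat_lit 4) (k (nat_lit 0x3182e8d2))))) (a (v (nat_lit 3) (a (a (v (nat_lit 8) (k (nat_lit 0x131088))) (v (nat_lit 7) (k (nat_lit 0x131088)))) (a (t (nat_lit 5) (nat_lit 8) (nat_lit 9) (k (nat_lit 0x98ee0))) (t (nat_lit 4) (nat_lit 7) (nat_lit 9) (k (nat_lit 0x98ee0))))))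 (u (nat_lit 3) (a (v (nat_lit 5) (k (nat_lit 0x98f70))) (v (nat_lit 4) (k (nat_lit 0x98f70)))))))))))))) (a (v (nat_lit 2) (a (a (a (u (nat_lit 9) (v (nat_lit 9) (v (nat_lit 9) (k (nat_lit 0x131c28))))) (a (v (nat_lit 7) (a (u (nat_lit 8) (a (v (nat_lit 9) (k (nat_lit 0x98d0c))) (v (nat_lit 8) (k (nat_lit 0x12f6b4))))) (v (nat_lit 7) (u (nat_lit 8) (k (nat_lit 0x1318ec)))))) (u (nat_lit 7) (a (v (nat_lit 8) (a (v (nat_lit 9) (k (nat_lit 0x98d0c))) (v (nat_lit 8) (k (nat_lit 0x1318ec))))) (v (nat_lit 7) (v (nat_lit 8) (k (nat_lit 0x12f6b4)))))))) (a (a (v (nat_lit 6) (a (a (u (nat_lit 9) (v (nat_lit 9) (k (nat_lit 0x131f94)))) (v (nat_lit 8) (u (nat_lit 9) (k (nat_lit 0x98eec))))) (a (v (nat_lit 7) (a (u (nat_lit 9) (k (nat_lit 0x98eec))) (u (nat_lit 8) (k (nat_lit 0x98d0c))))) (a (u (nat_lit 7) (v (nat_lit 8) (k (nat_lit 0x98d0c)))) (v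 (nat_lit 6) (u (nat_lit 9) (k (nat_lit 0x131574)))))))) (u (nat_lit 6) (a (a (v (nat_lit 9) (v (nat_lit 9) (k (nat_lit 0x131574)))) (v (nat_lit 8) (v (nat_lit 9) (k (nat_lit 0x98eec))))) (a (v (nat_lit 7) (v (nat_lit 9) (k (nat_lit 0x98eec)))) (v (nat_lit 6) (a (v (nat_lit 9) (k (nat_lit 0x131f94))) (v (nat_lit 6) (k (nat_lit 0x131c28))))))))) (a (v (nat_lit 5) (a (a (v (nat_lit 8) (u (nat_lit 9) (k (nat_lit 0x99138)))) (v (nat_lit 7) (a (u (nat_lit 9) (k (nat_lit 0x99012))) (u (nat_lit 8) (k (nat_lit 0x97020)))))) (a (u (nat_lit 7) (a (v (nat_lit 9) (k (nat_lit 0x997da))) (v (nat_lit 7) (k (nat_lit 0x98fac))))) (a (v (nat_lit 6) (u (nat_lit 9) (k (nat_lit 0x9a176)))) (u (nat_lit 6) (a (v (nat_lit 9) (k (nat_lit 0x954c6))) (a (v (nat_lit 8) (k (nat_lit 0x9b196))) (v (nat_lit 7) (k (nat_lit 0x98d4e)))))))))) (u (nat_lit 5) (a (u (nat_lit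 8) (u (nat_lit 9) (k (nat_lit 0x98be0)))) (v (nat_lit 5) (a (a (v (nat_lit 9) (k (nat_lit 0x99264))) (v (nat_lit 8) (k (nat_lit 0x99114)))) (a (v (nat_lit 7) (k (nat_lit 0x9903c))) (a (v (nat_lit 6) (k (nat_lit 0x99354))) (v (nat_lit 5) (k (nat_lit 0x98b02)))))))))))) (a (a (t (nat_lit 5) (nat_lit 8) (nat_lit 9) (a (u (nat_lit 9) (u (nat_lit 9) (k (nat_lit 0xa27bae0)))) (v (nat_lit 5) (u (nat_lit 9) (k (nat_lit 0x2bf4b08)))))) (a (v (nat_lit 4) (a (a (a (v (nat_lit 8) (u (nat_lit 9) (k (nat_lit 0x99012)))) (u (nat_lit 8) (a (v (nat_lit 9) (k (nat_lit 0x997da))) (v (nat_lit 8) (k (nat_lit 0x98fac)))))) (a (v (nat_lit 7) (u (nat_lit 9) (k (nat_lit 0x99138)))) (u (nat_lit 7) (v (nat_lit 8) (k (nat_lit 0x97020)))))) (a (a (v (nat_lit 6) (u (nat_lit 9) (k (nat_lit 0x9a176)))) (u (nat_lit 6) (a (v (nat_lit 9) (k (nat_lit 0x954c6))) (a (v (nat_lit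 8) (k (nat_lit 0x98d4e))) (v (nat_lit 7) (k (nat_lit 0x9b196))))))) (a (u (nat_lit 5) (a (v (nat_lit 9) (k (nat_lit 0x999ba))) (v (nat_lit 6) (k (nat_lit 0x7016d0c))))) (v (nat_lit 4) (u (nat_lit 5) (k (nat_lit 0x984c6)))))))) (u (nat_lit 4) (a (u (nat_lit 7) (u (nat_lit 9) (k (nat_lit 0x98be0)))) (a (v (nat_lit 5) (a (v (nat_lit 9) (k (nat_lit 0x999ba))) (a (v (nat_lit 6) (k (nat_lit 0x7016d0c))) (v (nat_lit 5) (k (nat_lit 0x984c6)))))) (v (nat_lit 4) (a (a (v (nat_lit 9) (k (nat_lit 0x99264))) (v (nat_lit 8) (k (nat_lit 0x9903c)))) (a (v (nat_lit 7) (k (nat_lit 0x99114))) (a (v (nat_lit 6) (k (nat_lit 0x99354))) (v (nat_lit 4) (k (nat_lit 0x98b02)))))))))))) (a (a (t (nat_lit 4) (nat_lit 7) (nat_lit 9) (a (u (nat_lit 9) (u (nat_lit 9) (k (nat_lit 0xa27bae0)))) (v (nat_lit 4) (u (nat_lit 9) (k (nat_lit 0x2bf4b08)))))) (v (nat_lit 3) (a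 (a (a (u (nat_lit 9) (v (nat_lit 9) (k (nat_lit 0x131a30)))) (u (nat_lit 8) (v (nat_lit 8) (k (nat_lit 0x131a30))))) (a (v (nat_lit 7) (u (nat_lit 8) (k (nat_lit 0x132660)))) (a (u (nat_lit 7) (a (v (nat_lit 8) (k (nat_lit 0x132660))) (v (nat_lit 7) (k (nat_lit 0x131a30))))) (v (nat_lit 6) (u (nat_lit 9) (k (nat_lit 0x132660))))))) (a (a (u (nat_lit 6) (a (v (nat_lit 9) (k (nat_lit 0x132660))) (v (nat_lit 6) (k (nat_lit 0x131a30))))) (a (u (nat_lit 5) (v (nat_lit 5) (k (nat_lit 0x134598)))) (t (nat_lit 5) (nat_lit 8) (nat_lit 9) (a (u (nat_lit 9) (k (nat_lit 0x74997c))) (u (nat_lit 8) (k (nat_lit 0x74997c))))))) (a (v (nat_lit 4) (u (nat_lit 5) (k (nat_lit 0x9c8a0)))) (a (u (nat_lit 4) (a (v (nat_lit 5) (k (nat_lit 0x9c8a0))) (v (nat_lit 4) (k (nat_lit 0x134598))))) (t (nat_lit 4) (nat_lit 7) (nat_lit 9) (a (u (nat_lit 9) (k (nat_lit 0x74997c)))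 (u (nat_lit 7) (k (nat_lit 0x74997c))))))))))) (a (u (nat_lit 3) (a (a (a (v (nat_lit 8) (v (nat_lit 9) (k (nat_lit 0x98cac)))) (v (nat_lit 7) (v (nat_lit 9) (k (nat_lit 0x98cac))))) (a (v (nat_lit 6) (a (v (nat_lit 9) (k (nat_lit 0x261ab0))) (a (v (nat_lit 8) (k (nat_lit 0x98cac))) (v (nat_lit 7) (k (nat_lit 0x98cac)))))) (v (nat_lit 5) (a (a (v (nat_lit 9) (k (nat_lit 0x9b08e))) (u (nat_lit 8) (k (nat_lit 0x126aaeb0)))) (a (u (nat_lit 7) (k (nat_lit 0x99bd0))) (v (nat_lit 6) (k (nat_lit 0x6cb49a8)))))))) (a (a (u (nat_lit 5) (u (nat_lit 8) (k (nat_lit 0x96b82)))) (v (nat_lit 4) (a (a (v (nat_lit 9) (k (nat_lit 0x9b08e))) (u (nat_lit 8) (k (nat_lit 0x99bd0)))) (a (u (nat_lit 7) (k (nat_lit 0x126aaeb0))) (v (nat_lit 6) (k (nat_lit 0x6cb49a8))))))) (a (u (nat_lit 4) (u (nat_lit 7) (k (nat_lit 0x96b82)))) (v (nat_lit 3) (a (a (a (v (nat_lit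 9) (k (nat_lit 0x133d7c))) (v (nat_lit 8) (k (nat_lit 0x131d9c)))) (a (u (nat_lit 8) (k (nat_lit 0x131e14))) (v (nat_lit 7) (k (nat_lit 0x131d9c))))) (a (a (u (nat_lit 7) (k (nat_lit 0x131e14))) (v (nat_lit 6) (k (nat_lit 0x133d7c)))) (a (v (nat_lit 5) (k (nat_lit 0x98c9a))) (a (v (nat_lit 4) (k (nat_lit 0x98c9a))) (v (nat_lit 3) (k (nat_lit 0x262dd0)))))))))))) (v (nat_lit 2) (a (a (a (u (nat_lit 9) (v (nat_lit 9) (k (nat_lit 0x131274)))) (a (u (nat_lit 8) (v (nat_lit 8) (k (nat_lit 0x131988)))) (v (nat_lit 7) (u (nat_lit 8) (k (nat_lit 0x133614)))))) (a (u (nat_lit 7) (a (v (nat_lit 8) (k (nat_lit 0x133614))) (v (nat_lit 7) (k (nat_lit 0x131988))))) (a (v (nat_lit 6) (u (nat_lit 9) (k (nat_lit 0x1319ac)))) (u (nat_lit 6) (a (v (nat_lit 9) (k (nat_lit 0x1319ac))) (v (nat_lit 6) (k (nat_lit 0x131274)))))))) (a (a (u (nat_lit 5) (v (nat_lit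 5) (k (nat_lit 0x23575eba)))) (a (t (nat_lit 5) (nat_lit 8) (nat_lit 9) (u (nat_lit 8) (k (nat_lit 0xa21134c)))) (v (nat_lit 4) (u (nat_lit 5) (k (nat_lit 0x44cd2d6)))))) (a (u (nat_lit 4) (a (v (nat_lit 5) (k (nat_lit 0x44cd2d6))) (v (nat_lit 4) (k (nat_lit 0x23575eba))))) (a (t (nat_lit 4) (nat_lit 7) (nat_lit 9) (u (nat_lit 7) (k (nat_lit 0xa21134c)))) (u (nat_lit 3) (a (a (u (nat_lit 8) (k (nat_lit 0x133b84))) (u (nat_lit 7) (k (nat_lit 0x133b84)))) (a (v (nat_lit 5) (k (nat_lit 0x17e1862))) (a (v (nat_lit 4) (k (nat_lit 0x17e1862))) (v (nat_lit 3) (k (nat_lit 0x739921e0))))))))))))))))) (u (nat_lit 2) (a (a (a (v (nat_lit 8) (a (v (nat_lit 9) (v (nat_lit 9) (k (nat_lit 0x98c94)))) (v (nat_lit 8) (a (v (nat_lit 9) (k (nat_lit 0x98da8))) (v (nat_lit 8) (k (nat_lit 0x131970))))))) (a (v (nat_lit 7) (a (v (nat_lit 9) (v (nat_lit 9) (k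 (nat_lit 0x98c94)))) (a (v (nat_lit 8) (v (nat_lit 8) (k (nat_lit 0x133cc8)))) (v (nat_lit 7) (a (v (nat_lit 9) (k (nat_lit 0x98da8))) (a (v (nat_lit 8) (k (nat_lit 0x133cc8))) (v (nat_lit 7) (k (nat_lit 0x131970))))))))) (v (nat_lit 6) (a (v (nat_lit 8) (a (v (nat_lit 9) (k (nat_lit 0x1314d8))) (v (nat_lit 8) (k (nat_lit 0x98da8))))) (a (v (nat_lit 7) (a (v (nat_lit 9) (k (nat_lit 0x1314d8))) (v (nat_lit 7) (k (nat_lit 0x98da8))))) (v (nat_lit 6) (a (v (nat_lit 8) (k (nat_lit 0x98c94))) (v (nat_lit 7) (k (nat_lit 0x98c94)))))))))) (a (v (nat_lit 5) (a (a (v (nat_lit 9) (v (nat_lit 9) (k (nat_lit 0x98fb8)))) (v (nat_lit 8) (v (nat_lit 8) (k (nat_lit 0x9906c))))) (a (v (nat_lit 6) (a (a (v (nat_lit 9) (k (nat_lit 0x9bf34))) (v (nat_lit 8) (k (nat_lit 0x9702c)))) (a (v (nat_lit 7) (k (nat_lit 0x99a56))) (v (nat_lit 6) (k (nat_lit 0x98e62))))))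 (v (nat_lit 5) (a (v (nat_lit 6) (k (nat_lit 0x98b20))) (v (nat_lit 5) (k (nat_lit 0x9925e)))))))) (a (u (nat_lit 5) (v (nat_lit 7) (u (nat_lit 8) (k (nat_lit 0x9aca4))))) (t (nat_lit 5) (nat_lit 8) (nat_lit 9) (a (v (nat_lit 7) (u (nat_lit 8) (k (nat_lit 0x99144)))) (u (nat_lit 6) (v (nat_lit 9) (k (nat_lit 0x200f2c8))))))))) (a (a (v (nat_lit 4) (a (a (v (nat_lit 9) (v (nat_lit 9) (k (nat_lit 0x98fb8)))) (v (nat_lit 7) (v (nat_lit 7) (k (nat_lit 0x9906c))))) (a (v (nat_lit 6) (a (a (v (nat_lit 9) (k (nat_lit 0x9bf34))) (v (nat_lit 8) (k (nat_lit 0x99a56)))) (a (v (nat_lit 7) (k (nat_lit 0x9702c))) (v (nat_lit 6) (k (nat_lit 0x98e62)))))) (a (v (nat_lit 5) (a (a (v (nat_lit 9) (k (nat_lit 0x131fc4))) (a (v (nat_lit 8) (k (nat_lit 0x992d6))) (u (nat_lit 8) (k (nat_lit 0x990ba))))) (a (a (v (nat_lit 7) (k (nat_lit 0x992d6))) (u (nat_lit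 7) (k (nat_lit 0x990ba)))) (a (v (nat_lit 6) (k (nat_lit 0x131bc8))) (v (nat_lit 5) (k (nat_lit 0x997da))))))) (v (nat_lit 4) (a (v (nat_lit 6) (k (nat_lit 0x98b20))) (a (v (nat_lit 5) (k (nat_lit 0x997da))) (v (nat_lit 4) (k (nat_lit 0x9925e)))))))))) (a (u (nat_lit 4) (u (nat_lit 7) (v (nat_lit 8) (k (nat_lit 0x9aca4))))) (t (nat_lit 4) (nat_lit 7) (nat_lit 9) (a (a (u (nat_lit 7) (v (nat_lit 8) (k (nat_lit 0x99144)))) (u (nat_lit 6) (v (nat_lit 9) (k (nat_lit 0x200f2c8))))) (a (t (nat_lit 5) (nat_lit 8) (nat_lit 9) (t (nat_lit 5) (nat_lit 8) (nat_lit 9) (k (nat_lit 0x10b0564)))) (t (nat_lit 4) (nat_lit 7) (nat_lit 9) (t (nat_lit 5) (nat_lit 8) (nat_lit 9) (k (nat_lit 0x10b0564))))))))) (a (a (v (nat_lit 3) (a (a (a (v (nat_lit 8) (v (nat_lit 9) (k (nat_lit 0x98cac)))) (v (nat_lit 7) (a (v (nat_lit 9) (k (nat_lit 0x98cac))) (v (nat_lit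 8) (k (nat_lit 0x261ab0)))))) (a (v (nat_lit 6) (a (v (nat_lit 8) (k (nat_lit 0x98cac))) (v (nat_lit 7) (k (nat_lit 0x98cac))))) (v (nat_lit 5) (a (a (u (nat_lit 9) (k (nat_lit 0x126aaeb0))) (v (nat_lit 8) (k (nat_lit 0x9b08e)))) (a (v (nat_lit 7) (k (nat_lit 0x6cb49a8))) (u (nat_lit 6) (k (nat_lit 0x99bd0)))))))) (a (a (u (nat_lit 5) (u (nat_lit 9) (k (nat_lit 0x96b82)))) (v (nat_lit 4) (a (a (u (nat_lit 9) (k (nat_lit 0x126aaeb0))) (v (nat_lit 8) (k (nat_lit 0x6cb49a8)))) (a (v (nat_lit 7) (k (nat_lit 0x9b08e))) (a (u (nat_lit 6) (k (nat_lit 0x99bd0))) (v (nat_lit 5) (k (nat_lit 0x12d560)))))))) (a (u (nat_lit 4) (u (nat_lit 9) (k (nat_lit 0x96b82)))) (a (t (nat_lit 4) (nat_lit 7) (nat_lit 9) (t (nat_lit 5) (nat_lit 8) (nat_lit 9) (k (nat_lit 0x7416420)))) (v (nat_lit 3) (a (a (u (nat_lit 9) (k (nat_lit 0x133b84))) (u (nat_lit 6) (k (nat_lit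 0x133b84)))) (a (v (nat_lit 5) (k (nat_lit 0x17e1862))) (v (nat_lit 4) (k (nat_lit 0x17e1862))))))))))) (u (nat_lit 3) (u (nat_lit 3) (a (v (nat_lit 5) (k (nat_lit 0x9c88920))) (v (nat_lit 4) (k (nat_lit 0x9c88920))))))) (a (v (nat_lit 2) (a (a (a (v (nat_lit 9) (v (nat_lit 9) (k (nat_lit 0x13206c)))) (v (nat_lit 8) (v (nat_lit 9) (k (nat_lit 0x98d96))))) (a (v (nat_lit 7) (a (v (nat_lit 9) (k (nat_lit 0x98d96))) (a (v (nat_lit 8) (k (nat_lit 0x25f170))) (u (nat_lit 8) (k (nat_lit 0x131844)))))) (a (u (nat_lit 7) (v (nat_lit 8) (k (nat_lit 0x131844)))) (v (nat_lit 6) (a (v (nat_lit 8) (k (nat_lit 0x98d96))) (a (v (nat_lit 7) (k (nat_lit 0x98d96))) (v (nat_lit 6) (k (nat_lit 0x13206c))))))))) (a (a (v (nat_lit 5) (a (a (v (nat_lit 9) (k (nat_lit 0x98fe8))) (v (nat_lit 8) (k (nat_lit 0x98f70)))) (a (v (nat_lit 7) (k (nat_lit 0x98fdc))) (v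 (nat_lit 6) (k (nat_lit 0x98e26)))))) (a (t (nat_lit 5) (nat_lit 8) (nat_lit 9) (u (nat_lit 6) (k (nat_lit 0x9df3e)))) (v (nat_lit 4) (a (a (v (nat_lit 9) (k (nat_lit 0x98fe8))) (v (nat_lit 8) (k (nat_lit 0x98fdc)))) (a (v (nat_lit 7) (k (nat_lit 0x98f70))) (a (v (nat_lit 6) (k (nat_lit 0x98e26))) (v (nat_lit 5) (k (nat_lit 0x132534))))))))) (a (t (nat_lit 4) (nat_lit 7) (nat_lit 9) (u (nat_lit 6) (k (nat_lit 0x9df3e)))) (a (v (nat_lit 3) (a (a (a (v (nat_lit 9) (k (nat_lit 0x131d9c))) (u (nat_lit 9) (k (nat_lit 0x131e14)))) (a (v (nat_lit 8) (k (nat_lit 0x133d7c))) (v (nat_lit 7) (k (nat_lit 0x133d7c))))) (a (a (v (nat_lit 6) (k (nat_lit 0x131d9c))) (u (nat_lit 6) (k (nat_lit 0x131e14)))) (a (v (nat_lit 5) (k (nat_lit 0x98c9a))) (a (v (nat_lit 4) (k (nat_lit 0x98c9a))) (v (nat_lit 3) (k (nat_lit 0x739921e0)))))))) (v (nat_lit 2) (a (a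 (a (v (nat_lit 9) (k (nat_lit 0x4c5588))) (v (nat_lit 8) (k (nat_lit 0x1319dc)))) (a (v (nat_lit 7) (k (nat_lit 0x1319dc))) (a (v (nat_lit 6) (k (nat_lit 0x4c5588))) (v (nat_lit 5) (k (nat_lit 0x98dea)))))) (a (a (u (nat_lit 5) (k (nat_lit 0x98cee))) (v (nat_lit 4) (k (nat_lit 0x98dea)))) (a (u (nat_lit 4) (k (nat_lit 0x98cee))) (a (v (nat_lit 3) (k (nat_lit 0x262dd0))) (v (nat_lit 2) (k (nat_lit 0x263268))))))))))))) (u (nat_lit 2) (a (a (v (nat_lit 5) (v (nat_lit 8) (k (nat_lit 0x9a170)))) (a (u (nat_lit 5) (v (nat_lit 5) (k (nat_lit 0x3182e8d2)))) (v (nat_lit 4) (v (nat_lit 7) (k (nat_lit 0x9a170)))))) (a (a (u (nat_lit 4) (v (nat_lit 4) (k (nat_lit 0x3182e8d2)))) (u (nat_lit 3) (a (v (nat_lit 5) (k (nat_lit 0x9c88920))) (a (v (nat_lit 4) (k (nat_lit 0x9c88920))) (u (nat_lit 3) (k (nat_lit 0x4c3320))))))) (a (v (nat_lit 2) (a (a (v (nat_lit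 9) (k (nat_lit 0x131088))) (v (nat_lit 6) (k (nat_lit 0x131088)))) (a (t (nat_lit 5) (nat_lit 8) (nat_lit 9) (k (nat_lit 0x98ee0))) (t (nat_lit 4) (nat_lit 7) (nat_lit 9) (k (nat_lit 0x98ee0)))))) (u (nat_lit 2) (a (v (nat_lit 5) (k (nat_lit 0x98f70))) (v (nat_lit 4) (k (nat_lit 0x98f70))))))))))))))))) (a (a (v (nat_lit 1) (a (a (a (a (u (nat_lit 9) (v (nat_lit 9) (v (nat_lit 9) (k (nat_lit 0x9872a))))) (u (nat_lit 8) (a (v (nat_lit 9) (v (nat_lit 9) (k (nat_lit 0x97560)))) (a (v (nat_lit 8) (a (v (nat_lit 9) (k (nat_lit 0x9b3b8))) (v (nat_lit 8) (k (nat_lit 0x98f3a))))) (u (nat_lit 8) (v (nat_lit 8) (k (nat_lit 0x7cd61b4)))))))) (a (v (nat_lit 7) (a (u (nat_lit 8) (v (nat_lit 8) (k (nat_lit 0x98fb8)))) (v (nat_lit 7) (a (u (nat_lit 9) (k (nat_lit 0x989c4))) (u (nat_lit 8) (k (nat_lit 0x9a122))))))) (u (nat_lit 7) (a (v (nat_lit 9) (v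 (nat_lit 9) (k (nat_lit 0x989c4)))) (a (v (nat_lit 8) (v (nat_lit 9) (k (nat_lit 0x98fd0)))) (v (nat_lit 7) (a (u (nat_lit 8) (k (nat_lit 0x1ff2024))) (v (nat_lit 7) (k (nat_lit 0x9872a)))))))))) (a (a (v (nat_lit 6) (a (u (nat_lit 8) (v (nat_lit 9) (k (nat_lit 0x95ca6)))) (v (nat_lit 7) (a (u (nat_lit 9) (k (nat_lit 0x98fd0))) (u (nat_lit 8) (k (nat_lit 0x9c46e))))))) (u (nat_lit 6) (a (a (v (nat_lit 9) (v (nat_lit 9) (k (nat_lit 0x9a122)))) (a (u (nat_lit 9) (v (nat_lit 9) (k (nat_lit 0x1ff2024)))) (v (nat_lit 8) (v (nat_lit 9) (k (nat_lit 0x9c46e)))))) (a (v (nat_lit 7) (a (v (nat_lit 8) (k (nat_lit 0x95ca6))) (v (nat_lit 7) (k (nat_lit 0x97560))))) (a (v (nat_lit 6) (a (v (nat_lit 9) (k (nat_lit 0x98fb8))) (a (v (nat_lit 7) (k (nat_lit 0x9b3b8))) (v (nat_lit 6) (k (nat_lit 0x98f3a)))))) (u (nat_lit 6) (v (nat_lit 6) (k (nat_lit 0x7cd61b4)))))))))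 (a (v (nat_lit 5) (a (a (u (nat_lit 8) (a (v (nat_lit 9) (k (nat_lit 0x9bd9c))) (v (nat_lit 8) (k (nat_lit 0x133f80))))) (v (nat_lit 7) (a (u (nat_lit 9) (k (nat_lit 0x9c870))) (u (nat_lit 8) (k (nat_lit 0x12b34c)))))) (a (u (nat_lit 7) (a (v (nat_lit 9) (k (nat_lit 0x95580))) (v (nat_lit 8) (k (nat_lit 0x137f1c))))) (a (v (nat_lit 6) (a (u (nat_lit 8) (k (nat_lit 0x9bd9c))) (u (nat_lit 7) (k (nat_lit 0x95580))))) (u (nat_lit 6) (v (nat_lit 7) (k (nat_lit 0x9c870)))))))) (u (nat_lit 5) (a (a (v (nat_lit 9) (v (nat_lit 9) (k (nat_lit 0x99d44)))) (v (nat_lit 8) (a (u (nat_lit 9) (k (nat_lit 0x9bda8))) (v (nat_lit 8) (k (nat_lit 0x99dce)))))) (a (v (nat_lit 7) (a (v (nat_lit 8) (k (nat_lit 0x9a458))) (v (nat_lit 7) (k (nat_lit 0x9acd4))))) (a (v (nat_lit 6) (v (nat_lit 9) (k (nat_lit 0x17ba4f0)))) (v (nat_lit 5) (v (nat_lit 7) (k (nat_lit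 0x99018))))))))))) (a (a (a (v (nat_lit 4) (v (nat_lit 4) (u (nat_lit 5) (k (nat_lit 0x981d8))))) (u (nat_lit 4) (a (a (v (nat_lit 9) (v (nat_lit 9) (k (nat_lit 0x98f0a)))) (a (v (nat_lit 8) (a (v (nat_lit 9) (k (nat_lit 0x98b14))) (v (nat_lit 8) (k (nat_lit 0x98dd2))))) (v (nat_lit 7) (a (v (nat_lit 8) (k (nat_lit 0x996c0))) (v (nat_lit 7) (k (nat_lit 0x98f0a))))))) (a (v (nat_lit 6) (a (a (v (nat_lit 9) (k (nat_lit 0x996c0))) (v (nat_lit 8) (k (nat_lit 0x131af0)))) (a (v (nat_lit 7) (k (nat_lit 0x98b14))) (v (nat_lit 6) (k (nat_lit 0x98dd2)))))) (a (v (nat_lit 5) (a (v (nat_lit 8) (k (nat_lit 0x98e8c))) (a (v (nat_lit 6) (k (nat_lit 0x98e44))) (v (nat_lit 5) (k (nat_lit 0x98e2c)))))) (v (nat_lit 4) (a (v (nat_lit 8) (k (nat_lit 0x98988))) (a (v (nat_lit 6) (k (nat_lit 0x98988))) (v (nat_lit 5) (k (nat_lit 0x9a320))))))))))) (a (t (nat_lit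 4) (nat_lit 7) (nat_lit 9) (v (nat_lit 4) (a (a (u (nat_lit 9) (k (nat_lit 0x2491d88))) (u (nat_lit 8) (k (nat_lit 0x5236b0)))) (a (u (nat_lit 7) (k (nat_lit 0x2491d88))) (u (nat_lit 6) (k (nat_lit 0x5236b0))))))) (v (nat_lit 3) (a (a (a (u (nat_lit 9) (v (nat_lit 9) (k (nat_lit 0x98fac)))) (v (nat_lit 8) (u (nat_lit 9) (k (nat_lit 0x997da))))) (a (u (nat_lit 8) (v (nat_lit 9) (k (nat_lit 0x99012)))) (a (v (nat_lit 7) (u (nat_lit 8) (k (nat_lit 0x9a176)))) (u (nat_lit 7) (a (v (nat_lit 9) (k (nat_lit 0x98d4e))) (v (nat_lit 8) (k (nat_lit 0x954c6)))))))) (a (a (v (nat_lit 6) (a (u (nat_lit 8) (k (nat_lit 0x99138))) (u (nat_lit 7) (k (nat_lit 0x9b196))))) (u (nat_lit 6) (v (nat_lit 9) (k (nat_lit 0x97020))))) (a (u (nat_lit 5) (a (v (nat_lit 8) (k (nat_lit 0x999ba))) (v (nat_lit 7) (k (nat_lit 0x7016d0c))))) (a (u (nat_lit 4) (a (v (nat_lit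 7) (k (nat_lit 0x25ac9dc))) (u (nat_lit 4) (k (nat_lit 0x551a972))))) (v (nat_lit 3) (a (u (nat_lit 5) (k (nat_lit 0x44cd2d6))) (u (nat_lit 4) (k (nat_lit 0x2e64070)))))))))))) (a (a (u (nat_lit 3) (a (a (v (nat_lit 8) (v (nat_lit 8) (k (nat_lit 0x98fb8)))) (a (v (nat_lit 7) (a (v (nat_lit 9) (k (nat_lit 0x99a56))) (a (v (nat_lit 8) (k (nat_lit 0x9bf34))) (v (nat_lit 7) (k (nat_lit 0x98e62)))))) (v (nat_lit 6) (a (v (nat_lit 7) (k (nat_lit 0x9702c))) (v (nat_lit 6) (k (nat_lit 0x9906c))))))) (a (a (v (nat_lit 5) (a (a (v (nat_lit 9) (k (nat_lit 0x992d6))) (a (u (nat_lit 9) (k (nat_lit 0x990ba))) (v (nat_lit 8) (k (nat_lit 0x131fc4))))) (a (a (v (nat_lit 7) (k (nat_lit 0x131bc8))) (v (nat_lit 6) (k (nat_lit 0x992d6)))) (a (u (nat_lit 6) (k (nat_lit 0x990ba))) (v (nat_lit 5) (k (nat_lit 0x997da))))))) (v (nat_lit 4) (a (v (nat_lit 9) (k (nat_lit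 0x994a4))) (a (v (nat_lit 6) (k (nat_lit 0x994a4))) (u (nat_lit 5) (k (nat_lit 0x9a50c))))))) (a (v (nat_lit 3) (a (a (v (nat_lit 9) (k (nat_lit 0x98fdc))) (a (v (nat_lit 8) (k (nat_lit 0x98fe8))) (v (nat_lit 7) (k (nat_lit 0x98e26))))) (a (a (v (nat_lit 6) (k (nat_lit 0x98f70))) (v (nat_lit 5) (k (nat_lit 0x132534)))) (a (v (nat_lit 4) (k (nat_lit 0x132618))) (v (nat_lit 3) (k (nat_lit 0x98dea))))))) (u (nat_lit 3) (a (v (nat_lit 6) (k (nat_lit 0x9a170))) (a (u (nat_lit 4) (k (nat_lit 0x9bdfc))) (u (nat_lit 3) (k (nat_lit 0x98f70)))))))))) (v (nat_lit 2) (a (a (a (v (nat_lit 8) (u (nat_lit 9) (k (nat_lit 0x9b196)))) (v (nat_lit 7) (a (u (nat_lit 9) (k (nat_lit 0x98d4e))) (u (nat_lit 8) (k (nat_lit 0x97020)))))) (a (u (nat_lit 7) (v (nat_lit 7) (k (nat_lit 0x98fac)))) (a (v (nat_lit 6) (a (u (nat_lit 9) (k (nat_lit 0x954c6))) (u (nat_lit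 7) (k (nat_lit 0x997da))))) (u (nat_lit 6) (a (v (nat_lit 9) (k (nat_lit 0x9a176))) (a (v (nat_lit 8) (k (nat_lit 0x99138))) (v (nat_lit 7) (k (nat_lit 0x99012))))))))) (a (a (u (nat_lit 5) (a (v (nat_lit 9) (k (nat_lit 0x1794df2))) (a (v (nat_lit 8) (k (nat_lit 0x99036))) (v (nat_lit 5) (k (nat_lit 0x9a236)))))) (a (t (nat_lit 5) (nat_lit 8) (nat_lit 9) (u (nat_lit 9) (k (nat_lit 0x997f2)))) (u (nat_lit 4) (a (v (nat_lit 9) (k (nat_lit 0x25ac9dc))) (a (v (nat_lit 5) (k (nat_lit 0x9a314))) (u (nat_lit 4) (k (nat_lit 0x551a972)))))))) (a (v (nat_lit 3) (a (u (nat_lit 5) (k (nat_lit 0x9c8a0))) (u (nat_lit 4) (k (nat_lit 0x132960))))) (a (u (nat_lit 3) (a (a (v (nat_lit 9) (k (nat_lit 0x6cb49a8))) (a (u (nat_lit 8) (k (nat_lit 0x126aaeb0))) (u (nat_lit 7) (k (nat_lit 0x99bd0))))) (a (v (nat_lit 6) (k (nat_lit 0x9b08e))) (a (v (nat_lit 5) (k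 (nat_lit 0x12d560))) (v (nat_lit 3) (k (nat_lit 0x98c9a))))))) (v (nat_lit 2) (a (u (nat_lit 5) (k (nat_lit 0xa7b639e))) (a (u (nat_lit 4) (k (nat_lit 0x2e64070))) (u (nat_lit 3) (k (nat_lit 0x17e1862)))))))))))) (a (u (nat_lit 2) (a (a (a (v (nat_lit 9) (v (nat_lit 9) (k (nat_lit 0x98e62)))) (v (nat_lit 8) (a (v (nat_lit 9) (k (nat_lit 0x9702c))) (v (nat_lit 8) (k (nat_lit 0x9906c)))))) (a (v (nat_lit 7) (v (nat_lit 9) (k (nat_lit 0x99a56)))) (a (v (nat_lit 6) (a (v (nat_lit 9) (k (nat_lit 0x9bf34))) (v (nat_lit 6) (k (nat_lit 0x98fb8))))) (v (nat_lit 5) (v (nat_lit 7) (k (nat_lit 0x132108))))))) (a (a (v (nat_lit 4) (a (v (nat_lit 8) (k (nat_lit 0x994a4))) (a (v (nat_lit 7) (k (nat_lit 0x994a4))) (u (nat_lit 5) (k (nat_lit 0x9a50c)))))) (a (t (nat_lit 4) (nat_lit 7) (nat_lit 9) (u (nat_lit 5) (k (nat_lit 0x9918c)))) (v (nat_lit 3) (a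 (a (u (nat_lit 9) (k (nat_lit 0x99bd0))) (v (nat_lit 8) (k (nat_lit 0x9b08e)))) (a (v (nat_lit 7) (k (nat_lit 0x6cb49a8))) (a (u (nat_lit 6) (k (nat_lit 0x126aaeb0))) (v (nat_lit 3) (k (nat_lit 0x17e1862))))))))) (a (u (nat_lit 3) (u (nat_lit 3) (k (nat_lit 0x9c88920)))) (a (v (nat_lit 2) (a (a (a (v (nat_lit 9) (k (nat_lit 0x98e26))) (v (nat_lit 8) (k (nat_lit 0x98f70)))) (a (v (nat_lit 7) (k (nat_lit 0x98fdc))) (v (nat_lit 6) (k (nat_lit 0x98fe8))))) (a (a (v (nat_lit 5) (k (nat_lit 0x131f70))) (v (nat_lit 4) (k (nat_lit 0x132618)))) (a (v (nat_lit 3) (k (nat_lit 0x98c9a))) (v (nat_lit 2) (k (nat_lit 0x98dea))))))) (u (nat_lit 2) (a (a (v (nat_lit 8) (k (nat_lit 0x9a170))) (u (nat_lit 5) (k (nat_lit 0x16e2b8e4)))) (a (u (nat_lit 4) (k (nat_lit 0x9bdfc))) (a (u (nat_lit 3) (k (nat_lit 0x9c88920))) (u (nat_lit 2) (k (nat_lit 0x98f70))))))))))))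 (v (nat_lit 1) (a (a (a (u (nat_lit 8) (a (v (nat_lit 9) (k (nat_lit 0x980a0))) (v (nat_lit 8) (k (nat_lit 0x994c8))))) (a (v (nat_lit 7) (u (nat_lit 9) (k (nat_lit 0x99402)))) (u (nat_lit 7) (a (v (nat_lit 9) (k (nat_lit 0x99402))) (v (nat_lit 8) (k (nat_lit 0x99714))))))) (a (v (nat_lit 6) (a (u (nat_lit 9) (k (nat_lit 0x99714))) (u (nat_lit 8) (k (nat_lit 0x98da2))))) (a (u (nat_lit 6) (a (v (nat_lit 8) (k (nat_lit 0x98da2))) (a (v (nat_lit 7) (k (nat_lit 0x980a0))) (v (nat_lit 6) (k (nat_lit 0x994c8)))))) (u (nat_lit 5) (a (a (v (nat_lit 9) (k (nat_lit 0x988ce))) (u (nat_lit 9) (k (nat_lit 0x9936c)))) (a (v (nat_lit 8) (k (nat_lit 0x98f8e))) (a (v (nat_lit 6) (k (nat_lit 0x98ed4))) (v (nat_lit 5) (k (nat_lit 0x98f0a)))))))))) (a (a (v (nat_lit 4) (u (nat_lit 5) (k (nat_lit 0x981d8)))) (a (u (nat_lit 4) (a (a (v (nat_lit 9) (k (nat_lit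 0x993fc))) (a (v (nat_lit 8) (k (nat_lit 0x98934))) (v (nat_lit 7) (k (nat_lit 0x993fc))))) (a (v (nat_lit 6) (k (nat_lit 0x98934))) (a (v (nat_lit 5) (k (nat_lit 0x988f8))) (v (nat_lit 4) (k (nat_lit 0x131e20))))))) (v (nat_lit 3) (a (u (nat_lit 5) (k (nat_lit 0x984c6))) (u (nat_lit 4) (k (nat_lit 0x9ad6a))))))) (a (a (u (nat_lit 3) (a (v (nat_lit 7) (k (nat_lit 0x98b20))) (v (nat_lit 5) (k (nat_lit 0x997da))))) (v (nat_lit 2) (a (u (nat_lit 5) (k (nat_lit 0x97b4e))) (u (nat_lit 4) (k (nat_lit 0x9ad6a)))))) (a (u (nat_lit 2) (v (nat_lit 9) (k (nat_lit 0x98b20)))) (v (nat_lit 1) (a (a (u (nat_lit 5) (k (nat_lit 0x98ff4))) (u (nat_lit 4) (k (nat_lit 0x1313a0)))) (a (u (nat_lit 3) (k (nat_lit 0x9925e))) (u (nat_lit 2) (k (nat_lit 0x9925e)))))))))))))))) (a (u (nat_lit 1) (a (a (a (a (v (nat_lit 8) (a (v (nat_lit 9) (v (nat_lit 9) (k (nat_lit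 0x9a59c)))) (v (nat_lit 8) (v (nat_lit 9) (k (nat_lit 0x96ab6)))))) (v (nat_lit 7) (v (nat_lit 7) (u (nat_lit 8) (k (nat_lit 0x9916e)))))) (a (u (nat_lit 7) (v (nat_lit 7) (v (nat_lit 8) (k (nat_lit 0x99a92))))) (v (nat_lit 6) (a (a (u (nat_lit 9) (v (nat_lit 9) (k (nat_lit 0x99a92)))) (v (nat_lit 8) (a (v (nat_lit 9) (k (nat_lit 0x99042))) (v (nat_lit 8) (k (nat_lit 0x98bd4)))))) (a (v (nat_lit 7) (a (v (nat_lit 8) (k (nat_lit 0x99042))) (v (nat_lit 7) (k (nat_lit 0x9a59c))))) (v (nat_lit 6) (a (v (nat_lit 8) (k (nat_lit 0x98bd4))) (v (nat_lit 7) (k (nat_lit 0x96ab6)))))))))) (a (a (u (nat_lit 6) (v (nat_lit 9) (v (nat_lit 9) (k (nat_lit 0x9916e))))) (v (nat_lit 5) (a (a (v (nat_lit 8) (v (nat_lit 8) (k (nat_lit 0x99dce)))) (v (nat_lit 7) (a (v (nat_lit 8) (k (nat_lit 0x9a458))) (v (nat_lit 7) (k (nat_lit 0x9acd4)))))) (a (v (nat_lit 6)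 (a (v (nat_lit 9) (k (nat_lit 0x17ba4f0))) (v (nat_lit 6) (k (nat_lit 0x99d44))))) (a (u (nat_lit 6) (v (nat_lit 8) (k (nat_lit 0x9bda8)))) (v (nat_lit 5) (a (a (v (nat_lit 9) (k (nat_lit 0x98ed4))) (v (nat_lit 8) (k (nat_lit 0x98f8e)))) (a (v (nat_lit 6) (k (nat_lit 0x988ce))) (a (u (nat_lit 6) (k (nat_lit 0x9936c))) (v (nat_lit 5) (k (nat_lit 0x98ff4)))))))))))) (a (u (nat_lit 5) (v (nat_lit 5) (v (nat_lit 6) (k (nat_lit 0x9881a))))) (t (nat_lit 5) (nat_lit 8) (nat_lit 9) (a (v (nat_lit 6) (u (nat_lit 9) (k (nat_lit 0x99690)))) (u (nat_lit 5) (u (nat_lit 8) (k (nat_lit 0x99264))))))))) (a (a (a (v (nat_lit 4) (a (a (v (nat_lit 9) (v (nat_lit 9) (k (nat_lit 0x98dd2)))) (a (v (nat_lit 8) (a (v (nat_lit 9) (k (nat_lit 0x98b14))) (v (nat_lit 8) (k (nat_lit 0x98f0a))))) (v (nat_lit 7) (a (v (nat_lit 9) (k (nat_lit 0x131af0))) (a (v (nat_lit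 8) (k (nat_lit 0x996c0))) (v (nat_lit 7) (k (nat_lit 0x98dd2)))))))) (a (v (nat_lit 6) (a (v (nat_lit 9) (k (nat_lit 0x996c0))) (a (v (nat_lit 7) (k (nat_lit 0x98b14))) (v (nat_lit 6) (k (nat_lit 0x98f0a)))))) (a (v (nat_lit 5) (a (v (nat_lit 9) (k (nat_lit 0x98e8c))) (a (v (nat_lit 7) (k (nat_lit 0x98e44))) (v (nat_lit 5) (k (nat_lit 0x98e2c)))))) (v (nat_lit 4) (a (a (v (nat_lit 9) (k (nat_lit 0x98934))) (a (v (nat_lit 8) (k (nat_lit 0x993fc))) (v (nat_lit 7) (k (nat_lit 0x98934))))) (a (v (nat_lit 6) (k (nat_lit 0x993fc))) (a (v (nat_lit 5) (k (nat_lit 0x988f8))) (v (nat_lit 4) (k (nat_lit 0x1313a0))))))))))) (t (nat_lit 4) (nat_lit 7) (nat_lit 9) (u (nat_lit 7) (u (nat_lit 9) (k (nat_lit 0xb18a18)))))) (a (v (nat_lit 3) (a (a (u (nat_lit 6) (u (nat_lit 8) (k (nat_lit 0x98be0)))) (v (nat_lit 5) (a (v (nat_lit 8) (k (nat_lit 0x999ba)))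 (a (v (nat_lit 7) (k (nat_lit 0x7016d0c))) (v (nat_lit 5) (k (nat_lit 0x984c6))))))) (a (v (nat_lit 4) (a (v (nat_lit 8) (k (nat_lit 0x25ac9dc))) (a (v (nat_lit 5) (k (nat_lit 0x9a314))) (v (nat_lit 4) (k (nat_lit 0x9ad6a)))))) (v (nat_lit 3) (a (v (nat_lit 5) (k (nat_lit 0x44cd2d6))) (v (nat_lit 4) (k (nat_lit 0x2e64070)))))))) (u (nat_lit 3) (a (u (nat_lit 6) (v (nat_lit 9) (k (nat_lit 0x9aca4)))) (a (v (nat_lit 3) (v (nat_lit 3) (k (nat_lit 0x98cee)))) (u (nat_lit 3) (v (nat_lit 4) (k (nat_lit 0x9bdfc))))))))) (a (a (v (nat_lit 2) (a (a (u (nat_lit 6) (u (nat_lit 8) (k (nat_lit 0x98be0)))) (a (v (nat_lit 5) (a (v (nat_lit 8) (k (nat_lit 0x99036))) (a (v (nat_lit 6) (k (nat_lit 0x1794df2))) (v (nat_lit 5) (k (nat_lit 0x97b4e)))))) (v (nat_lit 4) (a (v (nat_lit 6) (k (nat_lit 0x25ac9dc))) (v (nat_lit 4) (k (nat_lit 0x9ad6a))))))) (a (v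 (nat_lit 3) (a (v (nat_lit 5) (k (nat_lit 0x9c8a0))) (v (nat_lit 4) (k (nat_lit 0x132960))))) (a (u (nat_lit 3) (u (nat_lit 8) (k (nat_lit 0x96b82)))) (v (nat_lit 2) (a (v (nat_lit 5) (k (nat_lit 0xa7b639e))) (v (nat_lit 4) (k (nat_lit 0x2e64070))))))))) (u (nat_lit 2) (a (a (v (nat_lit 7) (u (nat_lit 8) (k (nat_lit 0x9aca4)))) (v (nat_lit 3) (u (nat_lit 6) (k (nat_lit 0x96b82))))) (a (v (nat_lit 2) (a (t (nat_lit 5) (nat_lit 8) (nat_lit 9) (k (nat_lit 0x3abf3fc))) (v (nat_lit 2) (k (nat_lit 0x98cee))))) (u (nat_lit 2) (a (v (nat_lit 5) (k (nat_lit 0x16e2b8e4))) (v (nat_lit 4) (k (nat_lit 0x9bdfc))))))))) (a (v (nat_lit 1) (a (a (a (v (nat_lit 9) (v (nat_lit 9) (k (nat_lit 0x99528)))) (a (v (nat_lit 8) (v (nat_lit 9) (k (nat_lit 0x9a014)))) (v (nat_lit 7) (a (v (nat_lit 9) (k (nat_lit 0x1315bc))) (a (v (nat_lit 8) (k (nat_lit 0x98c4c)))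 (v (nat_lit 7) (k (nat_lit 0x99528)))))))) (a (v (nat_lit 6) (a (v (nat_lit 9) (k (nat_lit 0x98c4c))) (a (v (nat_lit 8) (k (nat_lit 0x132594))) (v (nat_lit 7) (k (nat_lit 0x9a014)))))) (a (v (nat_lit 5) (a (v (nat_lit 7) (k (nat_lit 0x99018))) (v (nat_lit 5) (k (nat_lit 0x98f0a))))) (u (nat_lit 5) (v (nat_lit 9) (k (nat_lit 0x9881a))))))) (a (a (v (nat_lit 4) (a (a (v (nat_lit 9) (k (nat_lit 0x98988))) (v (nat_lit 7) (k (nat_lit 0x98988)))) (a (v (nat_lit 5) (k (nat_lit 0x9a320))) (v (nat_lit 4) (k (nat_lit 0x131e20)))))) (a (v (nat_lit 3) (a (a (v (nat_lit 9) (k (nat_lit 0x9903c))) (v (nat_lit 8) (k (nat_lit 0x99264)))) (a (v (nat_lit 7) (k (nat_lit 0x99354))) (a (v (nat_lit 6) (k (nat_lit 0x99114))) (v (nat_lit 3) (k (nat_lit 0x23575eba))))))) (u (nat_lit 3) (u (nat_lit 3) (k (nat_lit 0x3182e8d2)))))) (a (v (nat_lit 2) (a (a (v (nat_lit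 9) (k (nat_lit 0x99354))) (a (v (nat_lit 8) (k (nat_lit 0x99114))) (v (nat_lit 7) (k (nat_lit 0x9903c))))) (a (a (v (nat_lit 6) (k (nat_lit 0x99264))) (v (nat_lit 5) (k (nat_lit 0x9a236)))) (a (v (nat_lit 3) (k (nat_lit 0x134598))) (v (nat_lit 2) (k (nat_lit 0x23575eba))))))) (a (u (nat_lit 2) (u (nat_lit 2) (k (nat_lit 0x3182e8d2)))) (v (nat_lit 1) (a (a (v (nat_lit 9) (k (nat_lit 0x98c64))) (a (v (nat_lit 8) (k (nat_lit 0x9911a))) (v (nat_lit 7) (k (nat_lit 0x98c64))))) (a (a (v (nat_lit 6) (k (nat_lit 0x9911a))) (v (nat_lit 3) (k (nat_lit 0x98b02)))) (a (v (nat_lit 2) (k (nat_lit 0x98b02))) (v (nat_lit 1) (k (nat_lit 0x132000)))))))))))) (u (nat_lit 1) (a (t (nat_lit 5) (nat_lit 8) (nat_lit 9) (u (nat_lit 8) (k (nat_lit 0x99150)))) (a (v (nat_lit 3) (v (nat_lit 4) (k (nat_lit 0x551a972)))) (v (nat_lit 2) (v (nat_lit 4) (k (nat_lit 0x551a972))))))))))))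 (t (nat_lit 1) (nat_lit 6) (nat_lit 8) (a (a (a (a (u (nat_lit 9) (u (nat_lit 9) (v (nat_lit 9) (k (nat_lit 0x299fcbe))))) (u (nat_lit 8) (u (nat_lit 9) (u (nat_lit 9) (k (nat_lit 0x9a482)))))) (a (v (nat_lit 7) (v (nat_lit 7) (u (nat_lit 8) (k (nat_lit 0x99156))))) (u (nat_lit 7) (u (nat_lit 7) (v (nat_lit 7) (k (nat_lit 0x299fcbe))))))) (a (a (u (nat_lit 6) (a (v (nat_lit 9) (v (nat_lit 9) (k (nat_lit 0x99156)))) (u (nat_lit 7) (u (nat_lit 7) (k (nat_lit 0x9a482)))))) (u (nat_lit 5) (a (u (nat_lit 6) (v (nat_lit 9) (k (nat_lit 0x99690)))) (u (nat_lit 5) (u (nat_lit 8) (k (nat_lit 0x99150))))))) (a (t (nat_lit 5) (nat_lit 8) (nat_lit 9) (a (u (nat_lit 7) (v (nat_lit 7) (k (nat_lit 0x134bb0)))) (t (nat_lit 5) (nat_lit 8) (nat_lit 9) (u (nat_lit 8) (k (nat_lit 0x186c97e)))))) (u (nat_lit 4) (u (nat_lit 6) (u (nat_lit 8) (k (nat_lit 0xb18a18))))))))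 (a (a (a (t (nat_lit 4) (nat_lit 7) (nat_lit 9) (t (nat_lit 5) (nat_lit 8) (nat_lit 9) (a (u (nat_lit 7) (k (nat_lit 0x2c54acc))) (u (nat_lit 6) (k (nat_lit 0x2c54acc)))))) (v (nat_lit 3) (a (u (nat_lit 8) (u (nat_lit 8) (k (nat_lit 0xa27bae0)))) (v (nat_lit 3) (u (nat_lit 6) (k (nat_lit 0xa21134c))))))) (a (u (nat_lit 3) (a (a (u (nat_lit 7) (v (nat_lit 8) (k (nat_lit 0x200f2c8)))) (a (u (nat_lit 6) (v (nat_lit 9) (k (nat_lit 0x99144)))) (t (nat_lit 5) (nat_lit 8) (nat_lit 9) (t (nat_lit 5) (nat_lit 8) (nat_lit 9) (k (nat_lit 0x10b0564)))))) (a (v (nat_lit 4) (u (nat_lit 5) (k (nat_lit 0x9918c)))) (a (v (nat_lit 3) (u (nat_lit 7) (k (nat_lit 0x9df3e)))) (u (nat_lit 3) (a (t (nat_lit 4) (nat_lit 7) (nat_lit 9) (k (nat_lit 0x133dd0))) (v (nat_lit 3) (k (nat_lit 0x98ee0))))))))) (v (nat_lit 2) (a (a (u (nat_lit 6) (u (nat_lit 6) (k (nat_lit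 0xa27bae0)))) (v (nat_lit 5) (u (nat_lit 6) (k (nat_lit 0x997f2))))) (a (v (nat_lit 3) (a (u (nat_lit 8) (k (nat_lit 0x74997c))) (u (nat_lit 6) (k (nat_lit 0x74997c))))) (a (u (nat_lit 3) (t (nat_lit 5) (nat_lit 8) (nat_lit 9) (k (nat_lit 0x7416420)))) (v (nat_lit 2) (u (nat_lit 8) (k (nat_lit 0xa21134c)))))))))) (a (a (u (nat_lit 2) (a (a (v (nat_lit 7) (u (nat_lit 8) (k (nat_lit 0x99144)))) (v (nat_lit 6) (u (nat_lit 9) (k (nat_lit 0x200f2c8))))) (a (v (nat_lit 2) (a (u (nat_lit 9) (k (nat_lit 0x9df3e))) (u (nat_lit 5) (k (nat_lit 0x3abf3fc))))) (u (nat_lit 2) (a (t (nat_lit 4) (nat_lit 7) (nat_lit 9) (k (nat_lit 0x133dd0))) (v (nat_lit 2) (k (nat_lit 0x98ee0)))))))) (v (nat_lit 1) (a (a (u (nat_lit 8) (u (nat_lit 9) (k (nat_lit 0x2e43bda)))) (a (u (nat_lit 6) (a (u (nat_lit 8) (k (nat_lit 0x4336464))) (u (nat_lit 7) (k (nat_lit 0x2e43bda)))))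 (t (nat_lit 5) (nat_lit 8) (nat_lit 9) (u (nat_lit 5) (k (nat_lit 0x1918c4a)))))) (a (a (v (nat_lit 4) (a (a (u (nat_lit 9) (k (nat_lit 0x5236b0))) (u (nat_lit 8) (k (nat_lit 0x2491d88)))) (a (u (nat_lit 7) (k (nat_lit 0x5236b0))) (u (nat_lit 6) (k (nat_lit 0x2491d88)))))) (v (nat_lit 3) (u (nat_lit 8) (k (nat_lit 0x2bf4b08))))) (a (v (nat_lit 2) (u (nat_lit 6) (k (nat_lit 0x2bf4b08)))) (v (nat_lit 1) (a (u (nat_lit 8) (k (nat_lit 0x1702b5a))) (u (nat_lit 6) (k (nat_lit 0x1702b5a)))))))))) (a (u (nat_lit 1) (a (a (u (nat_lit 9) (v (nat_lit 9) (k (nat_lit 0x2d11058)))) (u (nat_lit 7) (v (nat_lit 7) (k (nat_lit 0x2d11058))))) (a (u (nat_lit 5) (u (nat_lit 8) (k (nat_lit 0x99264)))) (t (nat_lit 5) (nat_lit 8) (nat_lit 9) (v (nat_lit 5) (k (nat_lit 0x1918c4a))))))) (t (nat_lit 1) (nat_lit 6) (nat_lit 8) (a (t (nat_lit 5) (nat_lit 8) (nat_lit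 9) (u (nat_lit 8) (k (nat_lit 0x186c97e)))) (u (nat_lit 3) (t (nat_lit 5) (nat_lit 8) (nat_lit 9) (k (nat_lit 0x10b0564))))))))))))) (a (v (nat_lit 0) (a (a (a (a (u (nat_lit 9) (v (nat_lit 9) (v (nat_lit 9) (k (nat_lit 0x9872a))))) (v (nat_lit 8) (v (nat_lit 8) (u (nat_lit 9) (k (nat_lit 0x989c4)))))) (a (u (nat_lit 8) (a (v (nat_lit 9) (v (nat_lit 9) (k (nat_lit 0x989c4)))) (v (nat_lit 8) (v (nat_lit 8) (k (nat_lit 0x9872a)))))) (v (nat_lit 7) (u (nat_lit 8) (v (nat_lit 9) (k (nat_lit 0x98fd0))))))) (a (a (u (nat_lit 7) (a (a (v (nat_lit 9) (v (nat_lit 9) (k (nat_lit 0x97560)))) (v (nat_lit 8) (v (nat_lit 8) (k (nat_lit 0x9a122))))) (a (u (nat_lit 8) (v (nat_lit 8) (k (nat_lit 0x1ff2024)))) (a (v (nat_lit 7) (a (v (nat_lit 9) (k (nat_lit 0x9b3b8))) (a (v (nat_lit 8) (k (nat_lit 0x98fb8))) (v (nat_lit 7) (k (nat_lit 0x98f3a)))))) (u (nat_lit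 7) (v (nat_lit 7) (k (nat_lit 0x7cd61b4)))))))) (v (nat_lit 6) (a (v (nat_lit 8) (u (nat_lit 9) (k (nat_lit 0x98fd0)))) (u (nat_lit 7) (a (v (nat_lit 9) (k (nat_lit 0x95ca6))) (v (nat_lit 8) (k (nat_lit 0x9c46e)))))))) (a (u (nat_lit 6) (a (a (v (nat_lit 9) (v (nat_lit 9) (k (nat_lit 0x9a122)))) (a (u (nat_lit 9) (v (nat_lit 9) (k (nat_lit 0x1ff2024)))) (v (nat_lit 8) (v (nat_lit 8) (k (nat_lit 0x97560)))))) (a (v (nat_lit 7) (a (v (nat_lit 9) (k (nat_lit 0x9c46e))) (v (nat_lit 8) (k (nat_lit 0x95ca6))))) (a (v (nat_lit 6) (a (v (nat_lit 9) (k (nat_lit 0x98fb8))) (a (v (nat_lit 8) (k (nat_lit 0x9b3b8))) (v (nat_lit 6) (k (nat_lit 0x98f3a)))))) (u (nat_lit 6) (v (nat_lit 6) (k (nat_lit 0x7cd61b4)))))))) (a (u (nat_lit 5) (a (a (v (nat_lit 9) (v (nat_lit 9) (k (nat_lit 0x98f0a)))) (v (nat_lit 8) (v (nat_lit 8) (k (nat_lit 0x98f0a))))) (a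 (v (nat_lit 7) (a (v (nat_lit 9) (k (nat_lit 0x98b14))) (a (v (nat_lit 8) (k (nat_lit 0x996c0))) (v (nat_lit 7) (k (nat_lit 0x98dd2)))))) (a (v (nat_lit 6) (a (a (v (nat_lit 9) (k (nat_lit 0x996c0))) (v (nat_lit 8) (k (nat_lit 0x98b14)))) (a (v (nat_lit 7) (k (nat_lit 0x131af0))) (v (nat_lit 6) (k (nat_lit 0x98dd2)))))) (v (nat_lit 5) (a (v (nat_lit 7) (k (nat_lit 0x98988))) (v (nat_lit 6) (k (nat_lit 0x98988))))))))) (t (nat_lit 5) (nat_lit 8) (nat_lit 9) (v (nat_lit 5) (a (a (u (nat_lit 9) (k (nat_lit 0x2491d88))) (u (nat_lit 8) (k (nat_lit 0x2491d88)))) (a (u (nat_lit 7) (k (nat_lit 0x5236b0))) (u (nat_lit 6) (k (nat_lit 0x5236b0))))))))))) (a (a (a (v (nat_lit 4) (a (a (a (v (nat_lit 8) (u (nat_lit 9) (k (nat_lit 0x9c870)))) (u (nat_lit 8) (v (nat_lit 9) (k (nat_lit 0x95580))))) (a (v (nat_lit 7) (u (nat_lit 8) (k (nat_lit 0x137f1c))))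 (u (nat_lit 7) (a (v (nat_lit 9) (k (nat_lit 0x9bd9c))) (a (v (nat_lit 8) (k (nat_lit 0x12b34c))) (v (nat_lit 7) (k (nat_lit 0x133f80)))))))) (a (a (v (nat_lit 6) (a (u (nat_lit 8) (k (nat_lit 0x95580))) (u (nat_lit 7) (k (nat_lit 0x9bd9c))))) (u (nat_lit 6) (v (nat_lit 8) (k (nat_lit 0x9c870))))) (a (u (nat_lit 5) (a (v (nat_lit 7) (k (nat_lit 0x98e8c))) (a (v (nat_lit 6) (k (nat_lit 0x98e44))) (v (nat_lit 5) (k (nat_lit 0x9a320)))))) (v (nat_lit 4) (u (nat_lit 5) (k (nat_lit 0x98e2c)))))))) (u (nat_lit 4) (a (a (v (nat_lit 9) (v (nat_lit 9) (k (nat_lit 0x99d44)))) (a (v (nat_lit 8) (v (nat_lit 8) (k (nat_lit 0x9acd4)))) (v (nat_lit 7) (a (u (nat_lit 9) (k (nat_lit 0x9bda8))) (a (v (nat_lit 8) (k (nat_lit 0x9a458))) (v (nat_lit 7) (k (nat_lit 0x99dce)))))))) (a (v (nat_lit 6) (v (nat_lit 9) (k (nat_lit 0x17ba4f0)))) (a (v (nat_lit 5) (v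 (nat_lit 5) (k (nat_lit 0x981d8)))) (v (nat_lit 4) (v (nat_lit 8) (k (nat_lit 0x99018))))))))) (a (v (nat_lit 3) (a (a (a (u (nat_lit 9) (v (nat_lit 9) (k (nat_lit 0x98fac)))) (u (nat_lit 8) (v (nat_lit 9) (k (nat_lit 0x98d4e))))) (a (v (nat_lit 7) (a (u (nat_lit 9) (k (nat_lit 0x997da))) (u (nat_lit 8) (k (nat_lit 0x954c6))))) (u (nat_lit 7) (a (v (nat_lit 9) (k (nat_lit 0x99012))) (v (nat_lit 8) (k (nat_lit 0x9a176))))))) (a (a (v (nat_lit 6) (a (u (nat_lit 8) (k (nat_lit 0x9b196))) (u (nat_lit 7) (k (nat_lit 0x99138))))) (u (nat_lit 6) (v (nat_lit 9) (k (nat_lit 0x97020))))) (a (u (nat_lit 5) (a (v (nat_lit 8) (k (nat_lit 0x25ac9dc))) (u (nat_lit 5) (k (nat_lit 0x551a972))))) (a (u (nat_lit 4) (a (v (nat_lit 8) (k (nat_lit 0x7016d0c))) (v (nat_lit 7) (k (nat_lit 0x999ba))))) (v (nat_lit 3) (a (u (nat_lit 5) (k (nat_lit 0x2e64070))) (u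 (nat_lit 4) (k (nat_lit 0x44cd2d6)))))))))) (a (u (nat_lit 3) (a (a (a (v (nat_lit 8) (a (v (nat_lit 9) (k (nat_lit 0x99a56))) (v (nat_lit 8) (k (nat_lit 0x98e62))))) (v (nat_lit 7) (a (v (nat_lit 8) (k (nat_lit 0x9bf34))) (v (nat_lit 7) (k (nat_lit 0x98fb8)))))) (a (v (nat_lit 6) (a (v (nat_lit 8) (k (nat_lit 0x9702c))) (v (nat_lit 6) (k (nat_lit 0x9906c))))) (v (nat_lit 5) (a (v (nat_lit 9) (k (nat_lit 0x994a4))) (v (nat_lit 6) (k (nat_lit 0x994a4))))))) (a (a (v (nat_lit 4) (a (a (v (nat_lit 9) (k (nat_lit 0x992d6))) (a (u (nat_lit 9) (k (nat_lit 0x990ba))) (v (nat_lit 8) (k (nat_lit 0x131bc8))))) (a (a (v (nat_lit 7) (k (nat_lit 0x131fc4))) (v (nat_lit 6) (k (nat_lit 0x992d6)))) (a (u (nat_lit 6) (k (nat_lit 0x990ba))) (v (nat_lit 4) (k (nat_lit 0x997da))))))) (u (nat_lit 4) (v (nat_lit 5) (k (nat_lit 0x9a50c))))) (a (v (nat_lit 3)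 (a (a (v (nat_lit 9) (k (nat_lit 0x98fdc))) (a (v (nat_lit 8) (k (nat_lit 0x98e26))) (v (nat_lit 7) (k (nat_lit 0x98fe8))))) (a (a (v (nat_lit 6) (k (nat_lit 0x98f70))) (v (nat_lit 5) (k (nat_lit 0x132618)))) (a (v (nat_lit 4) (k (nat_lit 0x132534))) (v (nat_lit 3) (k (nat_lit 0x98dea))))))) (u (nat_lit 3) (a (v (nat_lit 6) (k (nat_lit 0x9a170))) (a (u (nat_lit 5) (k (nat_lit 0x9bdfc))) (u (nat_lit 3) (k (nat_lit 0x98f70)))))))))) (v (nat_lit 2) (a (a (a (v (nat_lit 8) (u (nat_lit 9) (k (nat_lit 0x98d4e)))) (a (u (nat_lit 8) (v (nat_lit 8) (k (nat_lit 0x98fac)))) (v (nat_lit 7) (u (nat_lit 9) (k (nat_lit 0x9b196)))))) (a (u (nat_lit 7) (v (nat_lit 8) (k (nat_lit 0x97020)))) (a (v (nat_lit 6) (a (u (nat_lit 9) (k (nat_lit 0x954c6))) (u (nat_lit 8) (k (nat_lit 0x997da))))) (u (nat_lit 6) (a (v (nat_lit 9) (k (nat_lit 0x9a176))) (a (v (nat_lit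 8) (k (nat_lit 0x99012))) (v (nat_lit 7) (k (nat_lit 0x99138))))))))) (a (a (u (nat_lit 5) (a (v (nat_lit 9) (k (nat_lit 0x25ac9dc))) (u (nat_lit 5) (k (nat_lit 0x551a972))))) (a (v (nat_lit 4) (u (nat_lit 5) (k (nat_lit 0x9a314)))) (u (nat_lit 4) (a (v (nat_lit 9) (k (nat_lit 0x1794df2))) (a (v (nat_lit 7) (k (nat_lit 0x99036))) (v (nat_lit 4) (k (nat_lit 0x9a236)))))))) (a (a (t (nat_lit 4) (nat_lit 7) (nat_lit 9) (u (nat_lit 9) (k (nat_lit 0x997f2)))) (v (nat_lit 3) (a (u (nat_lit 5) (k (nat_lit 0x132960))) (u (nat_lit 4) (k (nat_lit 0x9c8a0)))))) (a (u (nat_lit 3) (a (a (v (nat_lit 9) (k (nat_lit 0x6cb49a8))) (a (u (nat_lit 8) (k (nat_lit 0x99bd0))) (u (nat_lit 7) (k (nat_lit 0x126aaeb0))))) (a (v (nat_lit 6) (k (nat_lit 0x9b08e))) (a (v (nat_lit 4) (k (nat_lit 0x12d560))) (v (nat_lit 3) (k (nat_lit 0x98c9a))))))) (v (nat_lit 2) (a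 (u (nat_lit 5) (k (nat_lit 0x2e64070))) (a (u (nat_lit 4) (k (nat_lit 0xa7b639e))) (u (nat_lit 3) (k (nat_lit 0x17e1862)))))))))))))) (a (a (u (nat_lit 2) (a (a (a (v (nat_lit 9) (v (nat_lit 9) (k (nat_lit 0x98e62)))) (v (nat_lit 8) (v (nat_lit 9) (k (nat_lit 0x99a56))))) (a (v (nat_lit 7) (a (v (nat_lit 9) (k (nat_lit 0x9702c))) (v (nat_lit 7) (k (nat_lit 0x9906c))))) (a (v (nat_lit 6) (a (v (nat_lit 9) (k (nat_lit 0x9bf34))) (v (nat_lit 6) (k (nat_lit 0x98fb8))))) (v (nat_lit 5) (a (v (nat_lit 8) (k (nat_lit 0x994a4))) (v (nat_lit 7) (k (nat_lit 0x994a4)))))))) (a (a (v (nat_lit 4) (v (nat_lit 8) (k (nat_lit 0x132108)))) (a (u (nat_lit 4) (a (v (nat_lit 5) (k (nat_lit 0x9a50c))) (t (nat_lit 5) (nat_lit 8) (nat_lit 9) (k (nat_lit 0x9918c))))) (v (nat_lit 3) (a (a (u (nat_lit 9) (k (nat_lit 0x99bd0))) (v (nat_lit 8) (k (nat_lit 0x6cb49a8))))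 (a (v (nat_lit 7) (k (nat_lit 0x9b08e))) (a (u (nat_lit 6) (k (nat_lit 0x126aaeb0))) (v (nat_lit 3) (k (nat_lit 0x17e1862))))))))) (a (u (nat_lit 3) (u (nat_lit 3) (k (nat_lit 0x9c88920)))) (a (v (nat_lit 2) (a (a (a (v (nat_lit 9) (k (nat_lit 0x98e26))) (v (nat_lit 8) (k (nat_lit 0x98fdc)))) (a (v (nat_lit 7) (k (nat_lit 0x98f70))) (v (nat_lit 6) (k (nat_lit 0x98fe8))))) (a (a (v (nat_lit 5) (k (nat_lit 0x132618))) (v (nat_lit 4) (k (nat_lit 0x131f70)))) (a (v (nat_lit 3) (k (nat_lit 0x98c9a))) (v (nat_lit 2) (k (nat_lit 0x98dea))))))) (u (nat_lit 2) (a (a (v (nat_lit 7) (k (nat_lit 0x9a170))) (u (nat_lit 5) (k (nat_lit 0x9bdfc)))) (a (u (nat_lit 4) (k (nat_lit 0x16e2b8e4))) (a (u (nat_lit 3) (k (nat_lit 0x9c88920))) (u (nat_lit 2) (k (nat_lit 0x98f70)))))))))))) (v (nat_lit 1) (a (a (a (v (nat_lit 8) (u (nat_lit 9) (k (nat_lit 0x95580))))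 (a (u (nat_lit 8) (v (nat_lit 9) (k (nat_lit 0x9c870)))) (v (nat_lit 7) (u (nat_lit 9) (k (nat_lit 0x95580)))))) (a (u (nat_lit 7) (v (nat_lit 9) (k (nat_lit 0x9c870)))) (a (v (nat_lit 6) (u (nat_lit 9) (k (nat_lit 0x137f1c)))) (u (nat_lit 6) (a (a (v (nat_lit 9) (k (nat_lit 0x12b34c))) (v (nat_lit 8) (k (nat_lit 0x9bd9c)))) (a (v (nat_lit 7) (k (nat_lit 0x9bd9c))) (v (nat_lit 6) (k (nat_lit 0x133f80))))))))) (a (a (u (nat_lit 5) (a (v (nat_lit 7) (k (nat_lit 0x98e44))) (a (v (nat_lit 6) (k (nat_lit 0x98e8c))) (v (nat_lit 5) (k (nat_lit 0x9a320)))))) (a (v (nat_lit 4) (u (nat_lit 5) (k (nat_lit 0x1326c0)))) (u (nat_lit 4) (a (a (v (nat_lit 8) (k (nat_lit 0x98e44))) (v (nat_lit 6) (k (nat_lit 0x98e8c)))) (a (v (nat_lit 5) (k (nat_lit 0x1326c0))) (v (nat_lit 4) (k (nat_lit 0x9a320)))))))) (a (a (v (nat_lit 3) (a (u (nat_lit 5) (k (nat_lit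 0x9a314))) (u (nat_lit 4) (k (nat_lit 0x9a314))))) (u (nat_lit 3) (a (v (nat_lit 9) (k (nat_lit 0x132108))) (v (nat_lit 3) (k (nat_lit 0x131f70)))))) (a (u (nat_lit 2) (a (a (a (v (nat_lit 9) (k (nat_lit 0x131bc8))) (v (nat_lit 8) (k (nat_lit 0x992d6)))) (a (u (nat_lit 8) (k (nat_lit 0x990ba))) (v (nat_lit 7) (k (nat_lit 0x992d6))))) (a (a (u (nat_lit 7) (k (nat_lit 0x990ba))) (v (nat_lit 6) (k (nat_lit 0x131fc4)))) (a (v (nat_lit 3) (k (nat_lit 0x12d560))) (v (nat_lit 2) (k (nat_lit 0x132534))))))) (v (nat_lit 1) (a (u (nat_lit 5) (k (nat_lit 0x98e2c))) (a (u (nat_lit 4) (k (nat_lit 0x988f8))) (u (nat_lit 2) (k (nat_lit 0x997da)))))))))))) (a (u (nat_lit 1) (a (a (a (v (nat_lit 9) (v (nat_lit 9) (k (nat_lit 0x9acd4)))) (v (nat_lit 8) (v (nat_lit 8) (k (nat_lit 0x99d44))))) (a (v (nat_lit 7) (v (nat_lit 8) (k (nat_lit 0x17ba4f0)))) (a (v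 (nat_lit 6) (a (v (nat_lit 9) (k (nat_lit 0x9a458))) (a (u (nat_lit 8) (k (nat_lit 0x9bda8))) (v (nat_lit 6) (k (nat_lit 0x99dce)))))) (v (nat_lit 5) (v (nat_lit 5) (k (nat_lit 0x981d8))))))) (a (a (v (nat_lit 4) (a (a (v (nat_lit 9) (k (nat_lit 0x98e44))) (v (nat_lit 7) (k (nat_lit 0x98e8c)))) (a (v (nat_lit 5) (k (nat_lit 0x1326c0))) (v (nat_lit 4) (k (nat_lit 0x988f8)))))) (a (v (nat_lit 3) (a (v (nat_lit 8) (k (nat_lit 0x1794df2))) (a (v (nat_lit 6) (k (nat_lit 0x99036))) (v (nat_lit 3) (k (nat_lit 0xa7b639e)))))) (u (nat_lit 3) (a (v (nat_lit 5) (k (nat_lit 0x9a50c))) (a (t (nat_lit 5) (nat_lit 8) (nat_lit 9) (k (nat_lit 0x9918c))) (u (nat_lit 3) (k (nat_lit 0x16e2b8e4)))))))) (a (v (nat_lit 2) (a (a (v (nat_lit 9) (k (nat_lit 0x7016d0c))) (v (nat_lit 6) (k (nat_lit 0x999ba)))) (a (v (nat_lit 4) (k (nat_lit 0x9a314))) (a (v (nat_lit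 3) (k (nat_lit 0x9c8a0))) (v (nat_lit 2) (k (nat_lit 0x44cd2d6))))))) (a (u (nat_lit 2) (v (nat_lit 5) (k (nat_lit 0x9a50c)))) (v (nat_lit 1) (a (v (nat_lit 9) (k (nat_lit 0x99018))) (a (v (nat_lit 4) (k (nat_lit 0x9a320))) (v (nat_lit 3) (k (nat_lit 0x9a236))))))))))) (a (t (nat_lit 1) (nat_lit 6) (nat_lit 8) (a (t (nat_lit 4) (nat_lit 7) (nat_lit 9) (u (nat_lit 5) (k (nat_lit 0x132360)))) (v (nat_lit 3) (u (nat_lit 8) (k (nat_lit 0x997f2)))))) (v (nat_lit 0) (a (a (a (a (v (nat_lit 8) (u (nat_lit 9) (k (nat_lit 0x99402)))) (u (nat_lit 8) (v (nat_lit 9) (k (nat_lit 0x99402))))) (a (v (nat_lit 7) (u (nat_lit 8) (k (nat_lit 0x99714)))) (u (nat_lit 7) (a (v (nat_lit 9) (k (nat_lit 0x980a0))) (v (nat_lit 7) (k (nat_lit 0x994c8))))))) (a (a (v (nat_lit 6) (a (u (nat_lit 9) (k (nat_lit 0x99714))) (u (nat_lit 7) (k (nat_lit 0x98da2))))) (u (nat_lit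 6) (a (v (nat_lit 8) (k (nat_lit 0x980a0))) (a (v (nat_lit 7) (k (nat_lit 0x98da2))) (v (nat_lit 6) (k (nat_lit 0x994c8))))))) (a (u (nat_lit 5) (a (a (v (nat_lit 9) (k (nat_lit 0x993fc))) (v (nat_lit 8) (k (nat_lit 0x993fc)))) (a (v (nat_lit 7) (k (nat_lit 0x98934))) (a (v (nat_lit 6) (k (nat_lit 0x98934))) (v (nat_lit 5) (k (nat_lit 0x131e20))))))) (v (nat_lit 4) (u (nat_lit 5) (k (nat_lit 0x988f8))))))) (a (a (a (u (nat_lit 4) (a (a (v (nat_lit 9) (k (nat_lit 0x988ce))) (a (u (nat_lit 9) (k (nat_lit 0x9936c))) (v (nat_lit 7) (k (nat_lit 0x98f8e))))) (a (v (nat_lit 6) (k (nat_lit 0x98ed4))) (a (v (nat_lit 5) (k (nat_lit 0x981d8))) (v (nat_lit 4) (k (nat_lit 0x98f0a))))))) (v (nat_lit 3) (a (u (nat_lit 5) (k (nat_lit 0x9ad6a))) (u (nat_lit 4) (k (nat_lit 0x984c6)))))) (a (u (nat_lit 3) (a (v (nat_lit 8) (k (nat_lit 0x98b20))) (v (nat_lit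 4) (k (nat_lit 0x997da))))) (v (nat_lit 2) (a (u (nat_lit 5) (k (nat_lit 0x9ad6a))) (u (nat_lit 4) (k (nat_lit 0x97b4e))))))) (a (a (u (nat_lit 2) (v (nat_lit 9) (k (nat_lit 0x98b20)))) (v (nat_lit 1) (a (u (nat_lit 5) (k (nat_lit 0x988f8))) (a (u (nat_lit 4) (k (nat_lit 0x98e2c))) (u (nat_lit 2) (k (nat_lit 0x997da))))))) (a (u (nat_lit 1) (a (a (a (v (nat_lit 8) (k (nat_lit 0x988ce))) (u (nat_lit 8) (k (nat_lit 0x9936c)))) (a (v (nat_lit 7) (k (nat_lit 0x98ed4))) (v (nat_lit 6) (k (nat_lit 0x98f8e))))) (a (a (v (nat_lit 5) (k (nat_lit 0x981d8))) (v (nat_lit 4) (k (nat_lit 0x98e2c)))) (a (v (nat_lit 3) (k (nat_lit 0x97b4e))) (a (v (nat_lit 2) (k (nat_lit 0x984c6))) (v (nat_lit 1) (k (nat_lit 0x98f0a)))))))) (v (nat_lit 0) (a (a (u (nat_lit 5) (k (nat_lit 0x1313a0))) (u (nat_lit 4) (k (nat_lit 0x98ff4)))) (a (u (nat_lit 3) (k (nat_lit 0x9925e)))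 (a (u (nat_lit 2) (k (nat_lit 0x9925e))) (u (nat_lit 1) (k (nat_lit 0x98ff4)))))))))))))))))) (a (u (nat_lit 0) (a (a (a (a (v (nat_lit 7) (a (v (nat_lit 9) (v (nat_lit 9) (k (nat_lit 0x9a59c)))) (a (u (nat_lit 8) (v (nat_lit 8) (k (nat_lit 0x99a92)))) (v (nat_lit 7) (v (nat_lit 9) (k (nat_lit 0x96ab6))))))) (u (nat_lit 7) (v (nat_lit 8) (v (nat_lit 8) (k (nat_lit 0x9916e)))))) (a (v (nat_lit 6) (a (a (u (nat_lit 9) (v (nat_lit 9) (k (nat_lit 0x99a92)))) (v (nat_lit 8) (v (nat_lit 8) (k (nat_lit 0x9a59c))))) (a (v (nat_lit 7) (a (v (nat_lit 9) (k (nat_lit 0x99042))) (a (v (nat_lit 8) (k (nat_lit 0x99042))) (v (nat_lit 7) (k (nat_lit 0x98bd4)))))) (v (nat_lit 6) (a (v (nat_lit 8) (k (nat_lit 0x96ab6))) (v (nat_lit 7) (k (nat_lit 0x98bd4)))))))) (u (nat_lit 6) (v (nat_lit 9) (v (nat_lit 9) (k (nat_lit 0x9916e))))))) (a (a (v (nat_lit 5) (a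 (a (v (nat_lit 9) (v (nat_lit 9) (k (nat_lit 0x98dd2)))) (v (nat_lit 8) (a (v (nat_lit 9) (k (nat_lit 0x131af0))) (v (nat_lit 8) (k (nat_lit 0x98dd2)))))) (a (v (nat_lit 7) (a (v (nat_lit 9) (k (nat_lit 0x98b14))) (a (v (nat_lit 8) (k (nat_lit 0x996c0))) (v (nat_lit 7) (k (nat_lit 0x98f0a)))))) (a (v (nat_lit 6) (a (v (nat_lit 9) (k (nat_lit 0x996c0))) (a (v (nat_lit 8) (k (nat_lit 0x98b14))) (v (nat_lit 6) (k (nat_lit 0x98f0a)))))) (v (nat_lit 5) (a (a (v (nat_lit 9) (k (nat_lit 0x98934))) (v (nat_lit 8) (k (nat_lit 0x98934)))) (a (v (nat_lit 7) (k (nat_lit 0x993fc))) (a (v (nat_lit 6) (k (nat_lit 0x993fc))) (v (nat_lit 5) (k (nat_lit 0x1313a0))))))))))) (t (nat_lit 5) (nat_lit 8) (nat_lit 9) (u (nat_lit 8) (u (nat_lit 9) (k (nat_lit 0xb18a18)))))) (a (v (nat_lit 4) (a (a (v (nat_lit 8) (v (nat_lit 8) (k (nat_lit 0x9acd4)))) (a (v (nat_lit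 7) (a (v (nat_lit 8) (k (nat_lit 0x9a458))) (v (nat_lit 7) (k (nat_lit 0x99dce))))) (v (nat_lit 6) (a (v (nat_lit 9) (k (nat_lit 0x17ba4f0))) (v (nat_lit 6) (k (nat_lit 0x99d44))))))) (a (u (nat_lit 6) (v (nat_lit 7) (k (nat_lit 0x9bda8)))) (a (v (nat_lit 5) (a (v (nat_lit 9) (k (nat_lit 0x98e8c))) (a (v (nat_lit 8) (k (nat_lit 0x98e44))) (v (nat_lit 5) (k (nat_lit 0x988f8)))))) (v (nat_lit 4) (a (a (v (nat_lit 9) (k (nat_lit 0x98ed4))) (a (v (nat_lit 7) (k (nat_lit 0x98f8e))) (v (nat_lit 6) (k (nat_lit 0x988ce))))) (a (u (nat_lit 6) (k (nat_lit 0x9936c))) (a (v (nat_lit 5) (k (nat_lit 0x98e2c))) (v (nat_lit 4) (k (nat_lit 0x98ff4))))))))))) (a (u (nat_lit 4) (v (nat_lit 4) (v (nat_lit 6) (k (nat_lit 0x9881a))))) (t (nat_lit 4) (nat_lit 7) (nat_lit 9) (a (v (nat_lit 6) (u (nat_lit 9) (k (nat_lit 0x99690)))) (u (nat_lit 4) (u (nat_lit 7)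 (k (nat_lit 0x99264)))))))))) (a (a (a (v (nat_lit 3) (a (a (u (nat_lit 6) (u (nat_lit 7) (k (nat_lit 0x98be0)))) (v (nat_lit 5) (a (v (nat_lit 7) (k (nat_lit 0x25ac9dc))) (v (nat_lit 5) (k (nat_lit 0x9ad6a)))))) (a (v (nat_lit 4) (a (a (v (nat_lit 8) (k (nat_lit 0x7016d0c))) (v (nat_lit 7) (k (nat_lit 0x999ba)))) (a (v (nat_lit 5) (k (nat_lit 0x9a314))) (v (nat_lit 4) (k (nat_lit 0x984c6)))))) (v (nat_lit 3) (a (v (nat_lit 5) (k (nat_lit 0x2e64070))) (v (nat_lit 4) (k (nat_lit 0x44cd2d6)))))))) (u (nat_lit 3) (a (u (nat_lit 6) (v (nat_lit 9) (k (nat_lit 0x9aca4)))) (a (v (nat_lit 3) (v (nat_lit 3) (k (nat_lit 0x98cee)))) (u (nat_lit 3) (v (nat_lit 5) (k (nat_lit 0x9bdfc)))))))) (a (v (nat_lit 2) (a (a (u (nat_lit 6) (u (nat_lit 7) (k (nat_lit 0x98be0)))) (a (v (nat_lit 5) (a (v (nat_lit 6) (k (nat_lit 0x25ac9dc))) (v (nat_lit 5) (k (nat_lit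 0x9ad6a))))) (v (nat_lit 4) (a (v (nat_lit 7) (k (nat_lit 0x99036))) (a (v (nat_lit 6) (k (nat_lit 0x1794df2))) (v (nat_lit 4) (k (nat_lit 0x97b4e)))))))) (a (v (nat_lit 3) (a (v (nat_lit 5) (k (nat_lit 0x132960))) (v (nat_lit 4) (k (nat_lit 0x9c8a0))))) (a (u (nat_lit 3) (u (nat_lit 7) (k (nat_lit 0x96b82)))) (v (nat_lit 2) (a (v (nat_lit 5) (k (nat_lit 0x2e64070))) (v (nat_lit 4) (k (nat_lit 0xa7b639e))))))))) (u (nat_lit 2) (a (a (u (nat_lit 7) (v (nat_lit 8) (k (nat_lit 0x9aca4)))) (v (nat_lit 3) (u (nat_lit 6) (k (nat_lit 0x96b82))))) (a (v (nat_lit 2) (a (t (nat_lit 4) (nat_lit 7) (nat_lit 9) (k (nat_lit 0x3abf3fc))) (v (nat_lit 2) (k (nat_lit 0x98cee))))) (u (nat_lit 2) (a (v (nat_lit 5) (k (nat_lit 0x9bdfc))) (v (nat_lit 4) (k (nat_lit 0x16e2b8e4)))))))))) (a (a (v (nat_lit 1) (a (a (a (v (nat_lit 9) (v (nat_lit 9) (k (nat_lit 0x9acd4))))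 (v (nat_lit 7) (a (v (nat_lit 8) (k (nat_lit 0x17ba4f0))) (v (nat_lit 7) (k (nat_lit 0x99d44)))))) (a (v (nat_lit 6) (a (v (nat_lit 9) (k (nat_lit 0x9a458))) (a (u (nat_lit 7) (k (nat_lit 0x9bda8))) (v (nat_lit 6) (k (nat_lit 0x99dce)))))) (a (v (nat_lit 5) (a (v (nat_lit 9) (k (nat_lit 0x98e44))) (a (v (nat_lit 8) (k (nat_lit 0x98e8c))) (v (nat_lit 5) (k (nat_lit 0x988f8)))))) (v (nat_lit 4) (a (v (nat_lit 5) (k (nat_lit 0x1326c0))) (v (nat_lit 4) (k (nat_lit 0x981d8)))))))) (a (a (v (nat_lit 3) (a (v (nat_lit 7) (k (nat_lit 0x1794df2))) (a (v (nat_lit 6) (k (nat_lit 0x99036))) (v (nat_lit 3) (k (nat_lit 0xa7b639e)))))) (u (nat_lit 3) (a (v (nat_lit 4) (k (nat_lit 0x9a50c))) (a (t (nat_lit 4) (nat_lit 7) (nat_lit 9) (k (nat_lit 0x9918c))) (u (nat_lit 3) (k (nat_lit 0x16e2b8e4))))))) (a (v (nat_lit 2) (a (a (v (nat_lit 9) (k (nat_lit 0x7016d0c)))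 (v (nat_lit 6) (k (nat_lit 0x999ba)))) (a (v (nat_lit 5) (k (nat_lit 0x9a314))) (a (v (nat_lit 3) (k (nat_lit 0x9c8a0))) (v (nat_lit 2) (k (nat_lit 0x44cd2d6))))))) (a (u (nat_lit 2) (v (nat_lit 4) (k (nat_lit 0x9a50c)))) (v (nat_lit 1) (a (a (a (v (nat_lit 8) (k (nat_lit 0x98ed4))) (v (nat_lit 7) (k (nat_lit 0x988ce)))) (a (u (nat_lit 7) (k (nat_lit 0x9936c))) (v (nat_lit 6) (k (nat_lit 0x98f8e))))) (a (a (v (nat_lit 5) (k (nat_lit 0x98e2c))) (v (nat_lit 4) (k (nat_lit 0x981d8)))) (a (v (nat_lit 3) (k (nat_lit 0x97b4e))) (a (v (nat_lit 2) (k (nat_lit 0x984c6))) (v (nat_lit 1) (k (nat_lit 0x98ff4))))))))))))) (u (nat_lit 1) (v (nat_lit 1) (v (nat_lit 7) (k (nat_lit 0x9881a)))))) (a (t (nat_lit 1) (nat_lit 6) (nat_lit 8) (a (a (v (nat_lit 7) (u (nat_lit 8) (k (nat_lit 0x99690)))) (t (nat_lit 4) (nat_lit 7) (nat_lit 9) (a (v (nat_lit 5) (k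 (nat_lit 0x132360))) (t (nat_lit 5) (nat_lit 8) (nat_lit 9) (k (nat_lit 0x131ce8)))))) (a (u (nat_lit 3) (v (nat_lit 3) (k (nat_lit 0x3abf3fc)))) (a (u (nat_lit 2) (v (nat_lit 4) (k (nat_lit 0x9918c)))) (u (nat_lit 1) (u (nat_lit 6) (k (nat_lit 0x99264)))))))) (a (v (nat_lit 0) (a (a (a (v (nat_lit 9) (v (nat_lit 9) (k (nat_lit 0x99528)))) (a (v (nat_lit 8) (a (v (nat_lit 9) (k (nat_lit 0x1315bc))) (v (nat_lit 8) (k (nat_lit 0x99528))))) (v (nat_lit 7) (a (v (nat_lit 9) (k (nat_lit 0x9a014))) (v (nat_lit 8) (k (nat_lit 0x98c4c))))))) (a (a (v (nat_lit 6) (a (v (nat_lit 9) (k (nat_lit 0x98c4c))) (a (v (nat_lit 8) (k (nat_lit 0x9a014))) (v (nat_lit 7) (k (nat_lit 0x132594)))))) (v (nat_lit 5) (a (v (nat_lit 9) (k (nat_lit 0x98988))) (a (v (nat_lit 8) (k (nat_lit 0x98988))) (v (nat_lit 5) (k (nat_lit 0x131e20))))))) (a (v (nat_lit 4) (a (v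 (nat_lit 8) (k (nat_lit 0x99018))) (a (v (nat_lit 5) (k (nat_lit 0x9a320))) (v (nat_lit 4) (k (nat_lit 0x98f0a)))))) (u (nat_lit 4) (v (nat_lit 9) (k (nat_lit 0x9881a))))))) (a (a (v (nat_lit 3) (a (a (v (nat_lit 9) (k (nat_lit 0x9903c))) (v (nat_lit 8) (k (nat_lit 0x99354)))) (a (v (nat_lit 7) (k (nat_lit 0x99264))) (a (v (nat_lit 6) (k (nat_lit 0x99114))) (v (nat_lit 3) (k (nat_lit 0x23575eba))))))) (a (u (nat_lit 3) (u (nat_lit 3) (k (nat_lit 0x3182e8d2)))) (v (nat_lit 2) (a (a (v (nat_lit 9) (k (nat_lit 0x99354))) (a (v (nat_lit 8) (k (nat_lit 0x9903c))) (v (nat_lit 7) (k (nat_lit 0x99114))))) (a (a (v (nat_lit 6) (k (nat_lit 0x99264))) (v (nat_lit 4) (k (nat_lit 0x9a236)))) (a (v (nat_lit 3) (k (nat_lit 0x134598))) (v (nat_lit 2) (k (nat_lit 0x23575eba))))))))) (a (a (u (nat_lit 2) (u (nat_lit 2) (k (nat_lit 0x3182e8d2)))) (v (nat_lit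 1) (a (a (v (nat_lit 9) (k (nat_lit 0x99018))) (v (nat_lit 5) (k (nat_lit 0x9a320)))) (a (v (nat_lit 3) (k (nat_lit 0x9a236))) (v (nat_lit 1) (k (nat_lit 0x98f0a))))))) (a (u (nat_lit 1) (v (nat_lit 8) (k (nat_lit 0x9881a)))) (v (nat_lit 0) (a (a (v (nat_lit 9) (k (nat_lit 0x98c64))) (a (v (nat_lit 8) (k (nat_lit 0x98c64))) (v (nat_lit 7) (k (nat_lit 0x9911a))))) (a (a (v (nat_lit 6) (k (nat_lit 0x9911a))) (v (nat_lit 3) (k (nat_lit 0x98b02)))) (a (v (nat_lit 2) (k (nat_lit 0x98b02))) (v (nat_lit 0) (k (nat_lit 0x132000)))))))))))) (u (nat_lit 0) (a (a (t (nat_lit 4) (nat_lit 7) (nat_lit 9) (u (nat_lit 7) (k (nat_lit 0x99150)))) (v (nat_lit 3) (v (nat_lit 5) (k (nat_lit 0x551a972))))) (a (v (nat_lit 2) (v (nat_lit 5) (k (nat_lit 0x551a972)))) (t (nat_lit 1) (nat_lit 6) (nat_lit 8) (u (nat_lit 6) (k (nat_lit 0x99150))))))))))))) (t (nat_lit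 0) (nat_lit 6) (nat_lit 7) (a (a (a (a (u (nat_lit 9) (u (nat_lit 9) (v (nat_lit 9) (k (nat_lit 0x299fcbe))))) (u (nat_lit 8) (u (nat_lit 8) (v (nat_lit 8) (k (nat_lit 0x299fcbe)))))) (a (u (nat_lit 7) (a (u (nat_lit 9) (u (nat_lit 9) (k (nat_lit 0x9a482)))) (v (nat_lit 8) (v (nat_lit 8) (k (nat_lit 0x99156)))))) (u (nat_lit 6) (a (v (nat_lit 9) (v (nat_lit 9) (k (nat_lit 0x99156)))) (u (nat_lit 8) (u (nat_lit 8) (k (nat_lit 0x9a482)))))))) (a (a (u (nat_lit 5) (u (nat_lit 6) (u (nat_lit 7) (k (nat_lit 0xb18a18))))) (u (nat_lit 4) (a (u (nat_lit 6) (v (nat_lit 9) (k (nat_lit 0x99690)))) (u (nat_lit 4) (u (nat_lit 7) (k (nat_lit 0x99150))))))) (a (t (nat_lit 4) (nat_lit 7) (nat_lit 9) (a (u (nat_lit 8) (v (nat_lit 8) (k (nat_lit 0x134bb0)))) (a (t (nat_lit 5) (nat_lit 8) (nat_lit 9) (a (u (nat_lit 8) (k (nat_lit 0x2c54acc))) (u (nat_lit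 6) (k (nat_lit 0x2c54acc))))) (t (nat_lit 4) (nat_lit 7) (nat_lit 9) (u (nat_lit 7) (k (nat_lit 0x186c97e))))))) (v (nat_lit 3) (a (u (nat_lit 7) (u (nat_lit 7) (k (nat_lit 0xa27bae0)))) (v (nat_lit 3) (u (nat_lit 6) (k (nat_lit 0xa21134c))))))))) (a (a (a (u (nat_lit 3) (a (a (v (nat_lit 7) (u (nat_lit 8) (k (nat_lit 0x200f2c8)))) (a (u (nat_lit 6) (v (nat_lit 9) (k (nat_lit 0x99144)))) (u (nat_lit 4) (v (nat_lit 5) (k (nat_lit 0x9918c)))))) (a (t (nat_lit 4) (nat_lit 7) (nat_lit 9) (t (nat_lit 4) (nat_lit 7) (nat_lit 9) (k (nat_lit 0x10b0564)))) (a (v (nat_lit 3) (u (nat_lit 8) (k (nat_lit 0x9df3e)))) (u (nat_lit 3) (a (t (nat_lit 5) (nat_lit 8) (nat_lit 9) (k (nat_lit 0x133dd0))) (v (nat_lit 3) (k (nat_lit 0x98ee0))))))))) (v (nat_lit 2) (a (a (u (nat_lit 6) (u (nat_lit 6) (k (nat_lit 0xa27bae0)))) (v (nat_lit 4) (u (nat_lit 6) (k (nat_lit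 0x997f2))))) (a (v (nat_lit 3) (a (u (nat_lit 7) (k (nat_lit 0x74997c))) (u (nat_lit 6) (k (nat_lit 0x74997c))))) (a (u (nat_lit 3) (t (nat_lit 4) (nat_lit 7) (nat_lit 9) (k (nat_lit 0x7416420)))) (v (nat_lit 2) (u (nat_lit 7) (k (nat_lit 0xa21134c))))))))) (a (u (nat_lit 2) (a (a (u (nat_lit 7) (v (nat_lit 8) (k (nat_lit 0x99144)))) (v (nat_lit 6) (u (nat_lit 9) (k (nat_lit 0x200f2c8))))) (a (v (nat_lit 2) (a (u (nat_lit 9) (k (nat_lit 0x9df3e))) (u (nat_lit 4) (k (nat_lit 0x3abf3fc))))) (u (nat_lit 2) (a (t (nat_lit 5) (nat_lit 8) (nat_lit 9) (k (nat_lit 0x133dd0))) (v (nat_lit 2) (k (nat_lit 0x98ee0)))))))) (v (nat_lit 1) (a (u (nat_lit 4) (t (nat_lit 5) (nat_lit 8) (nat_lit 9) (k (nat_lit 0x132360)))) (v (nat_lit 3) (u (nat_lit 7) (k (nat_lit 0x997f2)))))))) (a (a (u (nat_lit 1) (a (a (u (nat_lit 7) (v (nat_lit 8) (k (nat_lit 0x99690))))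 (a (v (nat_lit 4) (t (nat_lit 5) (nat_lit 8) (nat_lit 9) (k (nat_lit 0x132360)))) (t (nat_lit 4) (nat_lit 7) (nat_lit 9) (t (nat_lit 5) (nat_lit 8) (nat_lit 9) (k (nat_lit 0x131ce8)))))) (a (u (nat_lit 3) (v (nat_lit 3) (k (nat_lit 0x3abf3fc)))) (a (u (nat_lit 2) (v (nat_lit 5) (k (nat_lit 0x9918c)))) (u (nat_lit 1) (u (nat_lit 6) (k (nat_lit 0x99150)))))))) (t (nat_lit 1) (nat_lit 6) (nat_lit 8) (a (a (u (nat_lit 9) (v (nat_lit 9) (k (nat_lit 0x134bb0)))) (a (t (nat_lit 5) (nat_lit 8) (nat_lit 9) (a (u (nat_lit 9) (k (nat_lit 0x2c54acc))) (u (nat_lit 7) (k (nat_lit 0x2c54acc))))) (u (nat_lit 4) (t (nat_lit 5) (nat_lit 8) (nat_lit 9) (k (nat_lit 0x131ce8)))))) (a (t (nat_lit 4) (nat_lit 7) (nat_lit 9) (a (u (nat_lit 9) (k (nat_lit 0x2c54acc))) (a (u (nat_lit 8) (k (nat_lit 0x2c54acc))) (u (nat_lit 5) (k (nat_lit 0x131ce8)))))) (a (u (nat_lit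 2) (v (nat_lit 3) (k (nat_lit 0x7416420)))) (t (nat_lit 1) (nat_lit 6) (nat_lit 8) (a (u (nat_lit 6) (k (nat_lit 0x186c97e))) (u (nat_lit 2) (k (nat_lit 0x10b0564)))))))))) (a (v (nat_lit 0) (a (a (a (u (nat_lit 7) (u (nat_lit 9) (k (nat_lit 0x2e43bda)))) (u (nat_lit 6) (a (u (nat_lit 8) (k (nat_lit 0x2e43bda))) (u (nat_lit 7) (k (nat_lit 0x4336464)))))) (a (v (nat_lit 5) (a (a (u (nat_lit 9) (k (nat_lit 0x5236b0))) (u (nat_lit 8) (k (nat_lit 0x5236b0)))) (a (u (nat_lit 7) (k (nat_lit 0x2491d88))) (u (nat_lit 6) (k (nat_lit 0x2491d88)))))) (t (nat_lit 4) (nat_lit 7) (nat_lit 9) (u (nat_lit 4) (k (nat_lit 0x1918c4a)))))) (a (a (v (nat_lit 3) (u (nat_lit 7) (k (nat_lit 0x2bf4b08)))) (v (nat_lit 2) (u (nat_lit 6) (k (nat_lit 0x2bf4b08))))) (a (t (nat_lit 1) (nat_lit 6) (nat_lit 8) (u (nat_lit 1) (k (nat_lit 0x1918c4a)))) (v (nat_lit 0) (a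 (u (nat_lit 7) (k (nat_lit 0x1702b5a))) (u (nat_lit 6) (k (nat_lit 0x1702b5a))))))))) (a (u (nat_lit 0) (a (a (u (nat_lit 9) (v (nat_lit 9) (k (nat_lit 0x2d11058)))) (a (u (nat_lit 8) (v (nat_lit 8) (k (nat_lit 0x2d11058)))) (u (nat_lit 4) (u (nat_lit 7) (k (nat_lit 0x99264)))))) (a (t (nat_lit 4) (nat_lit 7) (nat_lit 9) (v (nat_lit 4) (k (nat_lit 0x1918c4a)))) (a (u (nat_lit 1) (u (nat_lit 6) (k (nat_lit 0x99264)))) (t (nat_lit 1) (nat_lit 6) (nat_lit 8) (v (nat_lit 1) (k (nat_lit 0x1918c4a)))))))) (t (nat_lit 0) (nat_lit 6) (nat_lit 7) (a (t (nat_lit 4) (nat_lit 7) (nat_lit 9) (u (nat_lit 7) (k (nat_lit 0x186c97e)))) (a (u (nat_lit 3) (t (nat_lit 4) (nat_lit 7) (nat_lit 9) (k (nat_lit 0x10b0564)))) (t (nat_lit 1) (nat_lit 6) (nat_lit 8) (a (u (nat_lit 6) (k (nat_lit 0x186c97e))) (u (nat_lit 2) (k (nat_lit 0x10b0564)))))))))))))))))))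

open Fl.Tr in
/-- the table -/
noncomputable def T : Fl.Tr := (c (c (c (c (c (c (c (c (c (c (m (nat_lit 0x2e1880c0)) (c (p (nat_lit 0x3d94d42c)) (c (m (nat_lit 0x1c346a84)) (c (p (nat_lit 0x951a71c)) (c (m (nat_lit 0x320ac90)) e))))) (c (c (p (nat_lit 0x3d94d42c)) (c (m (nat_lit 0x4dda7208)) (c (p (nat_lit 0x1c04004c)) (c (m (nat_lit 0x1fa60ac)) e)))) (c (c (m (nat_lit 0x1c346a84)) (c (p (nat_lit 0x1c04004c)) (c (m (nat_lit 0x333f600)) e))) (c (c (p (nat_lit 0x951a71c)) (c (m (nat_lit 0x1fa60ac)) e)) (c (c (m (nat_lit 0x320ac90)) e) e))))) (c (c (c (p (nat_lit 0x3d94d42c)) (c (m (nat_lit 0x4dda7208)) (c (p (nat_lit 0x1c04004c)) (c (m (nat_lit 0x1fa60ac)) e)))) (c (c (m (nat_lit 0x39aac730)) (c (p (nat_lit 0x44b07160)) (c (m (nat_lit 0x1156b6a8)) e))) (c (c (p (nat_lit 0xd530684)) (c (m (nat_lit 0xccc042c)) e)) (c (c (p (nat_lit 0x50dc678))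 e) e)))) (c (c (c (m (nat_lit 0x1c346a84)) (c (p (nat_lit 0x1c04004c)) (c (m (nat_lit 0x333f600)) e))) (c (c (p (nat_lit 0xd530684)) (c (m (nat_lit 0xccc042c)) e)) (c (c (m (nat_lit 0xb883ae0)) e) e))) (c (c (c (p (nat_lit 0x951a71c)) (c (m (nat_lit 0x1fa60ac)) e)) (c (c (p (nat_lit 0x50dc678)) e) e)) (c (c (c (m (nat_lit 0x320ac90)) e) e) e))))) (c (c (c (c (p (nat_lit 0x3d94d42c)) (c (m (nat_lit 0x39aac730)) (c (p (nat_lit 0xd530684)) (c (p (nat_lit 0x50dc678)) e)))) (c (c (m (nat_lit 0x4dda7208)) (c (p (nat_lit 0x44b07160)) (c (m (nat_lit 0xccc042c)) e))) (c (c (p (nat_lit 0x1c04004c)) (c (m (nat_lit 0x1156b6a8)) e)) (c (c (m (nat_lit 0x1fa60ac)) e) e)))) (c (c (c (m (nat_lit 0x4dda7208)) (c (p (nat_lit 0x44b07160)) (c (m (nat_lit 0xccc042c)) e))) (c (c (p (nat_lit 0x44b07160)) (c (m (nat_lit 0x1676bbc0)) e)) (c (c (m (nat_lit 0xccc042c))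 e) e))) (c (c (c (p (nat_lit 0x1c04004c)) (c (m (nat_lit 0x1156b6a8)) e)) (c (c (m (nat_lit 0xccc042c)) e) e)) (c (c (c (m (nat_lit 0x1fa60ac)) e) e) e)))) (c (c (c (c (m (nat_lit 0x1c346a84)) (c (p (nat_lit 0xd530684)) (c (m (nat_lit 0xb883ae0)) e))) (c (c (p (nat_lit 0x1c04004c)) (c (m (nat_lit 0xccc042c)) e)) (c (c (m (nat_lit 0x333f600)) e) e))) (c (c (c (p (nat_lit 0x1c04004c)) (c (m (nat_lit 0xccc042c)) e)) (c (c (m (nat_lit 0x1156b6a8)) e) e)) (c (c (c (m (nat_lit 0x333f600)) e) e) e))) (c (c (c (c (p (nat_lit 0x951a71c)) (c (p (nat_lit 0x50dc678)) e)) (c (c (m (nat_lit 0x1fa60ac)) e) e)) (c (c (c (m (nat_lit 0x1fa60ac)) e) e) e)) (c (c (c (c (m (nat_lit 0x320ac90)) e) e) e) e))))) (c (c (c (c (c (p (nat_lit 0xbfc3f2c8)) (c (m (nat_lit 0x12241584)) (c (m (nat_lit 0x3ec8f5c)) (c (p (nat_lit 0x32f7600)) e)))) (c (c (m (nat_lit 0x12241584))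 (c (p (nat_lit 0xd491fd8)) (c (p (nat_lit 0x11c4594)) e))) (c (c (m (nat_lit 0x3ec8f5c)) (c (p (nat_lit 0x11c4594)) e)) (c (c (p (nat_lit 0x32f7600)) e) e)))) (c (c (c (m (nat_lit 0x1c4dc714)) (c (p (nat_lit 0x14f5ae68)) (c (m (nat_lit 0x34a088c)) e))) (c (c (p (nat_lit 0x152bd904)) (c (m (nat_lit 0x89f6f34)) e)) (c (c (m (nat_lit 0x98fb8)) e) e))) (c (c (c (p (nat_lit 0x21c97e0)) (c (p (nat_lit 0x12d875c)) e)) (c (c (m (nat_lit 0x39c8868)) e) e)) (c (c (c (p (nat_lit 0x2907594)) e) e) e)))) (c (c (c (c (m (nat_lit 0x1c4dc714)) (c (p (nat_lit 0x152bd904)) (c (m (nat_lit 0x98fb8)) e))) (c (c (p (nat_lit 0x14f5ae68)) (c (m (nat_lit 0x89f6f34)) e)) (c (c (m (nat_lit 0x34a088c)) e) e))) (c (c (c (p (nat_lit 0x2426d270)) (c (m (nat_lit 0x86c8d1c)) e)) (c (c (m (nat_lit 0x86c8d1c)) e) e)) (c (c (c (m (nat_lit 0x9315cd8)) e) e) e))) (c (c (c (c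 (p (nat_lit 0x21c97e0)) (c (m (nat_lit 0x39c8868)) e)) (c (c (p (nat_lit 0x12d875c)) e) e)) (c (c (c (m (nat_lit 0x9315cd8)) e) e) e)) (c (c (c (c (p (nat_lit 0x2907594)) e) e) e) e)))) (c (c (c (c (c (m (nat_lit 0x64442328)) (c (p (nat_lit 0x342adac)) (c (m (nat_lit 0x30a1af0)) e))) (c (c (p (nat_lit 0x342adac)) (c (p (nat_lit 0x12cccd8)) e)) (c (c (m (nat_lit 0x30a1af0)) e) e))) (c (c (c (m (nat_lit 0x162324c)) (c (p (nat_lit 0x140c058)) e)) (c (c (m (nat_lit 0x132360)) e) e)) (c (c (c (p (nat_lit 0x2c77b30)) e) e) e))) (c (c (c (c (m (nat_lit 0x162324c)) (c (m (nat_lit 0x132360)) e)) (c (c (p (nat_lit 0x140c058)) e) e)) (c (c (c (m (nat_lit 0x263dc0)) e) e) e)) (c (c (c (c (p (nat_lit 0x2c77b30)) e) e) e) e))) (c (c (c (c (c (p (nat_lit 0x32ccef8)) (c (m (nat_lit 0x179bc74)) e)) (c (c (m (nat_lit 0x179bc74)) e) e)) (c (c (c (m (nat_lit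 0x98c64)) e) e) e)) (c (c (c (c (m (nat_lit 0x98c64)) e) e) e) e)) (c (c (c (c (c (m (nat_lit 0x132000)) e) e) e) e) e))))) (c (c (c (c (c (c (p (nat_lit 0xbfc3f2c8)) (c (m (nat_lit 0x12241584)) (c (m (nat_lit 0x3ec8f5c)) (c (p (nat_lit 0x32f7600)) e)))) (c (c (m (nat_lit 0x1c4dc714)) (c (p (nat_lit 0x14f5ae68)) (c (m (nat_lit 0x34a088c)) e))) (c (c (p (nat_lit 0x21c97e0)) (c (p (nat_lit 0x12d875c)) e)) (c (c (p (nat_lit 0x2907594)) e) e)))) (c (c (c (m (nat_lit 0x12241584)) (c (p (nat_lit 0xd491fd8)) (c (p (nat_lit 0x11c4594)) e))) (c (c (p (nat_lit 0x152bd904)) (c (m (nat_lit 0x89f6f34)) e)) (c (c (m (nat_lit 0x39c8868)) e) e))) (c (c (c (m (nat_lit 0x3ec8f5c)) (c (p (nat_lit 0x11c4594)) e)) (c (c (m (nat_lit 0x98fb8)) e) e)) (c (c (c (p (nat_lit 0x32f7600)) e) e) e)))) (c (c (c (c (m (nat_lit 0x1c4dc714)) (c (p (nat_lit 0x152bd904))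 (c (m (nat_lit 0x98fb8)) e))) (c (c (p (nat_lit 0x2426d270)) (c (m (nat_lit 0x86c8d1c)) e)) (c (c (m (nat_lit 0x9315cd8)) e) e))) (c (c (c (p (nat_lit 0x14f5ae68)) (c (m (nat_lit 0x89f6f34)) e)) (c (c (m (nat_lit 0x86c8d1c)) e) e)) (c (c (c (m (nat_lit 0x34a088c)) e) e) e))) (c (c (c (c (p (nat_lit 0x21c97e0)) (c (m (nat_lit 0x39c8868)) e)) (c (c (m (nat_lit 0x9315cd8)) e) e)) (c (c (c (p (nat_lit 0x12d875c)) e) e) e)) (c (c (c (c (p (nat_lit 0x2907594)) e) e) e) e)))) (c (c (c (c (c (m (nat_lit 0x4a010e4c)) (c (p (nat_lit 0x1a64defc)) (c (m (nat_lit 0x977de70)) e))) (c (c (p (nat_lit 0x127e22c8)) (c (m (nat_lit 0x63a3de8)) e)) (c (c (m (nat_lit 0x99d44)) e) e))) (c (c (c (p (nat_lit 0x127e22c8)) (c (m (nat_lit 0x63a3de8)) e)) (c (c (m (nat_lit 0xbb804bc)) e) e)) (c (c (c (m (nat_lit 0x99d44)) e) e) e))) (c (c (c (c (p (nat_lit 0x11987ebc))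 (c (m (nat_lit 0x397b18)) e)) (c (c (m (nat_lit 0x5c3ed58)) e) e)) (c (c (c (m (nat_lit 0x5c3ed58)) e) e) e)) (c (c (c (c (m (nat_lit 0x5d774c0)) e) e) e) e))) (c (c (c (c (c (p (nat_lit 0x7764210)) (c (m (nat_lit 0x4c69554)) e)) (c (c (m (nat_lit 0x98ed4)) e) e)) (c (c (c (m (nat_lit 0x31985dc)) e) e) e)) (c (c (c (c (m (nat_lit 0x99018)) e) e) e) e)) (c (c (c (c (c (m (nat_lit 0x98ff4)) e) e) e) e) e)))) (c (c (c (c (c (c (m (nat_lit 0x64442328)) (c (p (nat_lit 0x342adac)) (c (m (nat_lit 0x30a1af0)) e))) (c (c (m (nat_lit 0x162324c)) (c (p (nat_lit 0x140c058)) e)) (c (c (p (nat_lit 0x2c77b30)) e) e))) (c (c (c (p (nat_lit 0x342adac)) (c (p (nat_lit 0x12cccd8)) e)) (c (c (m (nat_lit 0x132360)) e) e)) (c (c (c (m (nat_lit 0x30a1af0)) e) e) e))) (c (c (c (c (m (nat_lit 0x162324c)) (c (m (nat_lit 0x132360)) e)) (c (c (m (nat_lit 0x263dc0))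 e) e)) (c (c (c (p (nat_lit 0x140c058)) e) e) e)) (c (c (c (c (p (nat_lit 0x2c77b30)) e) e) e) e))) (c (c (c (c (c (p (nat_lit 0x7764210)) (c (m (nat_lit 0x4c69554)) e)) (c (c (m (nat_lit 0x31985dc)) e) e)) (c (c (c (m (nat_lit 0x98ed4)) e) e) e)) (c (c (c (c (m (nat_lit 0x99018)) e) e) e) e)) (c (c (c (c (c (m (nat_lit 0x33636a8)) e) e) e) e) e))) (c (c (c (c (c (c (p (nat_lit 0x32ccef8)) (c (m (nat_lit 0x179bc74)) e)) (c (c (m (nat_lit 0x98c64)) e) e)) (c (c (c (m (nat_lit 0x179bc74)) e) e) e)) (c (c (c (c (m (nat_lit 0x98c64)) e) e) e) e)) (c (c (c (c (c (m (nat_lit 0x98ff4)) e) e) e) e) e)) (c (c (c (c (c (c (m (nat_lit 0x132000)) e) e) e) e) e) e))))) (c (c (c (c (c (c (c (m (nat_lit 0x25871610)) (c (p (nat_lit 0x7433b5c)) (c (p (nat_lit 0x96a87d4)) (c (m (nat_lit 0x131970)) e)))) (c (c (p (nat_lit 0x340ad0f0)) (c (m (nat_lit 0x8d70e18))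 (c (m (nat_lit 0x114930c)) e))) (c (c (m (nat_lit 0x3a74d470)) (c (p (nat_lit 0x6fd1e20)) e)) (c (c (p (nat_lit 0x12264ed0)) e) e)))) (c (c (c (p (nat_lit 0x340ad0f0)) (c (m (nat_lit 0x8d70e18)) (c (m (nat_lit 0x114930c)) e))) (c (c (p (nat_lit 0x656e2c0)) (c (p (nat_lit 0x3dbb2e0)) e)) (c (c (p (nat_lit 0x3dbb088)) e) e))) (c (c (c (m (nat_lit 0x3a74d470)) (c (p (nat_lit 0x6fd1e20)) e)) (c (c (p (nat_lit 0x3dbb088)) e) e)) (c (c (c (p (nat_lit 0x12264ed0)) e) e) e)))) (c (c (c (c (p (nat_lit 0x7433b5c)) (c (p (nat_lit 0x80b0aa0)) (c (m (nat_lit 0x23c34a8)) e))) (c (c (m (nat_lit 0x8d70e18)) (c (m (nat_lit 0x42c0d20)) e)) (c (c (p (nat_lit 0x6fd1e20)) e) e))) (c (c (c (m (nat_lit 0x8d70e18)) (c (m (nat_lit 0x42c0d20)) e)) (c (c (p (nat_lit 0x3dbb2e0)) e) e)) (c (c (c (p (nat_lit 0x6fd1e20)) e) e) e))) (c (c (c (c (p (nat_lit 0x96a87d4))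 (c (m (nat_lit 0x23c34a8)) e)) (c (c (m (nat_lit 0x114930c)) e) e)) (c (c (c (m (nat_lit 0x114930c)) e) e) e)) (c (c (c (c (m (nat_lit 0x131970)) e) e) e) e)))) (c (c (c (c (c (m (nat_lit 0x920a45a8)) (c (m (nat_lit 0x9c6a8c0)) (c (m (nat_lit 0x9906c)) e))) (c (c (m (nat_lit 0xa4ccd0c)) (c (m (nat_lit 0x4e872e8)) e)) (c (c (p (nat_lit 0x43dcff4)) e) e))) (c (c (c (p (nat_lit 0x152c4510)) (c (m (nat_lit 0x1cb9b4)) e)) (c (c (p (nat_lit 0x1e43d58)) e) e)) (c (c (c (m (nat_lit 0x132654)) e) e) e))) (c (c (c (c (p (nat_lit 0x42bc538)) (c (m (nat_lit 0x21f9648)) e)) (c (c (m (nat_lit 0x43f3d7c)) e) e)) (c (c (c (m (nat_lit 0x1327a4)) e) e) e)) (c (c (c (c (m (nat_lit 0x1149510)) e) e) e) e))) (c (c (c (c (c (p (nat_lit 0x66f65a90)) (c (m (nat_lit 0x99114)) e)) (c (c (m (nat_lit 0x3d3e2d0)) e) e)) (c (c (c (m (nat_lit 0x131e74)) e) e) e)) (c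 (c (c (c (m (nat_lit 0x11495a0)) e) e) e) e)) (c (c (c (c (c (m (nat_lit 0x131d60)) e) e) e) e) e)))) (c (c (c (c (c (c (m (nat_lit 0x920a45a8)) (c (m (nat_lit 0x9c6a8c0)) (c (m (nat_lit 0x9906c)) e))) (c (c (p (nat_lit 0x152c4510)) (c (m (nat_lit 0x1cb9b4)) e)) (c (c (m (nat_lit 0x132654)) e) e))) (c (c (c (m (nat_lit 0xa4ccd0c)) (c (m (nat_lit 0x4e872e8)) e)) (c (c (p (nat_lit 0x1e43d58)) e) e)) (c (c (c (p (nat_lit 0x43dcff4)) e) e) e))) (c (c (c (c (p (nat_lit 0x42bc538)) (c (m (nat_lit 0x21f9648)) e)) (c (c (m (nat_lit 0x1327a4)) e) e)) (c (c (c (m (nat_lit 0x43f3d7c)) e) e) e)) (c (c (c (c (m (nat_lit 0x1149510)) e) e) e) e))) (c (c (c (c (c (p (nat_lit 0x5bc0ebe8)) (c (m (nat_lit 0x13206c)) e)) (c (c (m (nat_lit 0x1795458)) e) e)) (c (c (c (m (nat_lit 0x1795458)) e) e) e)) (c (c (c (c (p (nat_lit 0x210)) e) e) e) e)) (c (c (c (c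 (c (m (nat_lit 0x131d84)) e) e) e) e) e))) (c (c (c (c (c (c (p (nat_lit 0x66f65a90)) (c (m (nat_lit 0x99114)) e)) (c (c (m (nat_lit 0x131e74)) e) e)) (c (c (c (m (nat_lit 0x3d3e2d0)) e) e) e)) (c (c (c (c (m (nat_lit 0x11495a0)) e) e) e) e)) (c (c (c (c (c (m (nat_lit 0x131d84)) e) e) e) e) e)) (c (c (c (c (c (c (m (nat_lit 0x131d60)) e) e) e) e) e) e)))) (c (c (c (c (c (c (c (m (nat_lit 0x18a12fc8)) (c (p (nat_lit 0x20df054c)) (c (m (nat_lit 0x14554020)) e))) (c (c (p (nat_lit 0xcc26b20)) (c (m (nat_lit 0xa0d83d4)) e)) (c (c (m (nat_lit 0x2632e0)) e) e))) (c (c (c (p (nat_lit 0xcc26b20)) (c (m (nat_lit 0xa0d83d4)) e)) (c (c (p (nat_lit 0x27c540)) e) e)) (c (c (c (m (nat_lit 0x2632e0)) e) e) e))) (c (c (c (c (p (nat_lit 0x20df054c)) (c (p (nat_lit 0x4e90)) e)) (c (c (m (nat_lit 0xa0d83d4)) e) e)) (c (c (c (m (nat_lit 0xa0d83d4)) e) e)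 e)) (c (c (c (c (m (nat_lit 0x14554020)) e) e) e) e))) (c (c (c (c (c (p (nat_lit 0x8b7176a4)) (c (m (nat_lit 0x6750d50)) e)) (c (c (m (nat_lit 0x98fe8)) e) e)) (c (c (c (p (nat_lit 0x3bf82e4)) e) e) e)) (c (c (c (c (p (nat_lit 0x9adf4)) e) e) e) e)) (c (c (c (c (c (m (nat_lit 0x54da478c)) e) e) e) e) e))) (c (c (c (c (c (c (p (nat_lit 0x8b7176a4)) (c (m (nat_lit 0x6750d50)) e)) (c (c (p (nat_lit 0x3bf82e4)) e) e)) (c (c (c (m (nat_lit 0x98fe8)) e) e) e)) (c (c (c (c (p (nat_lit 0x9adf4)) e) e) e) e)) (c (c (c (c (c (m (nat_lit 0x3b77707c)) e) e) e) e) e)) (c (c (c (c (c (c (m (nat_lit 0x54da478c)) e) e) e) e) e) e))) (c (c (c (c (c (c (c (m (nat_lit 0x263cd0)) (c (p (nat_lit 0x3e4)) e)) (c (c (m (nat_lit 0x262740)) e) e)) (c (c (c (m (nat_lit 0x262740)) e) e) e)) (c (c (c (c (p (nat_lit 0x3e4)) e) e) e) e)) (c (c (c (c (c (m (nat_lit 0x18c))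 e) e) e) e) e)) (c (c (c (c (c (c (m (nat_lit 0x18c)) e) e) e) e) e) e)) (c (c (c (c (c (c (c (m (nat_lit 0x263268)) e) e) e) e) e) e) e))))) (c (c (c (c (c (c (c (c (m (nat_lit 0x25871610)) (c (p (nat_lit 0x340ad0f0)) (c (m (nat_lit 0x3a74d470)) (c (p (nat_lit 0x12264ed0)) e)))) (c (c (p (nat_lit 0x7433b5c)) (c (m (nat_lit 0x8d70e18)) (c (p (nat_lit 0x6fd1e20)) e))) (c (c (p (nat_lit 0x96a87d4)) (c (m (nat_lit 0x114930c)) e)) (c (c (m (nat_lit 0x131970)) e) e)))) (c (c (c (p (nat_lit 0x7433b5c)) (c (m (nat_lit 0x8d70e18)) (c (p (nat_lit 0x6fd1e20)) e))) (c (c (p (nat_lit 0x80b0aa0)) (c (m (nat_lit 0x42c0d20)) e)) (c (c (m (nat_lit 0x23c34a8)) e) e))) (c (c (c (p (nat_lit 0x96a87d4)) (c (m (nat_lit 0x114930c)) e)) (c (c (m (nat_lit 0x23c34a8)) e) e)) (c (c (c (m (nat_lit 0x131970)) e) e) e)))) (c (c (c (c (p (nat_lit 0x340ad0f0)) (c (p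 (nat_lit 0x656e2c0)) (c (p (nat_lit 0x3dbb088)) e))) (c (c (m (nat_lit 0x8d70e18)) (c (p (nat_lit 0x3dbb2e0)) e)) (c (c (m (nat_lit 0x114930c)) e) e))) (c (c (c (m (nat_lit 0x8d70e18)) (c (p (nat_lit 0x3dbb2e0)) e)) (c (c (m (nat_lit 0x42c0d20)) e) e)) (c (c (c (m (nat_lit 0x114930c)) e) e) e))) (c (c (c (c (m (nat_lit 0x3a74d470)) (c (p (nat_lit 0x3dbb088)) e)) (c (c (p (nat_lit 0x6fd1e20)) e) e)) (c (c (c (p (nat_lit 0x6fd1e20)) e) e) e)) (c (c (c (c (p (nat_lit 0x12264ed0)) e) e) e) e)))) (c (c (c (c (c (m (nat_lit 0x920a45a8)) (c (m (nat_lit 0xa4ccd0c)) (c (p (nat_lit 0x43dcff4)) e))) (c (c (m (nat_lit 0x9c6a8c0)) (c (m (nat_lit 0x4e872e8)) e)) (c (c (m (nat_lit 0x9906c)) e) e))) (c (c (c (p (nat_lit 0x42bc538)) (c (m (nat_lit 0x43f3d7c)) e)) (c (c (m (nat_lit 0x21f9648)) e) e)) (c (c (c (m (nat_lit 0x1149510)) e) e) e))) (c (c (c (c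 (p (nat_lit 0x152c4510)) (c (p (nat_lit 0x1e43d58)) e)) (c (c (m (nat_lit 0x1cb9b4)) e) e)) (c (c (c (m (nat_lit 0x1327a4)) e) e) e)) (c (c (c (c (m (nat_lit 0x132654)) e) e) e) e))) (c (c (c (c (c (p (nat_lit 0x66f65a90)) (c (m (nat_lit 0x3d3e2d0)) e)) (c (c (m (nat_lit 0x99114)) e) e)) (c (c (c (m (nat_lit 0x11495a0)) e) e) e)) (c (c (c (c (m (nat_lit 0x131e74)) e) e) e) e)) (c (c (c (c (c (m (nat_lit 0x131d60)) e) e) e) e) e)))) (c (c (c (c (c (c (m (nat_lit 0x920a45a8)) (c (m (nat_lit 0xa4ccd0c)) (c (p (nat_lit 0x43dcff4)) e))) (c (c (p (nat_lit 0x42bc538)) (c (m (nat_lit 0x43f3d7c)) e)) (c (c (m (nat_lit 0x1149510)) e) e))) (c (c (c (m (nat_lit 0x9c6a8c0)) (c (m (nat_lit 0x4e872e8)) e)) (c (c (m (nat_lit 0x21f9648)) e) e)) (c (c (c (m (nat_lit 0x9906c)) e) e) e))) (c (c (c (c (p (nat_lit 0x152c4510)) (c (p (nat_lit 0x1e43d58)) e))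 (c (c (m (nat_lit 0x1327a4)) e) e)) (c (c (c (m (nat_lit 0x1cb9b4)) e) e) e)) (c (c (c (c (m (nat_lit 0x132654)) e) e) e) e))) (c (c (c (c (c (p (nat_lit 0x42c1950)) (c (m (nat_lit 0x45268c8)) e)) (c (c (m (nat_lit 0x2160ce4)) e) e)) (c (c (c (m (nat_lit 0x2160ce4)) e) e) e)) (c (c (c (c (m (nat_lit 0xe15f5e0)) e) e) e) e)) (c (c (c (c (c (m (nat_lit 0x11e2204)) e) e) e) e) e))) (c (c (c (c (c (c (p (nat_lit 0x66f65a90)) (c (m (nat_lit 0x3d3e2d0)) e)) (c (c (m (nat_lit 0x11495a0)) e) e)) (c (c (c (m (nat_lit 0x99114)) e) e) e)) (c (c (c (c (m (nat_lit 0x131e74)) e) e) e) e)) (c (c (c (c (c (m (nat_lit 0x11e2204)) e) e) e) e) e)) (c (c (c (c (c (c (m (nat_lit 0x131d60)) e) e) e) e) e) e)))) (c (c (c (c (c (c (c (m (nat_lit 0x1f7873a0)) (c (p (nat_lit 0x200d7e00)) (c (m (nat_lit 0x83db148)) e))) (c (c (p (nat_lit 0x200d7e00)) (c (m (nat_lit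 0xf7f1490)) e)) (c (c (m (nat_lit 0x83db148)) e) e))) (c (c (c (p (nat_lit 0x200d7e00)) (c (m (nat_lit 0xf7f1490)) e)) (c (c (m (nat_lit 0xecf2fb0)) e) e)) (c (c (c (m (nat_lit 0x83db148)) e) e) e))) (c (c (c (c (p (nat_lit 0x200d7e00)) (c (m (nat_lit 0xecf2fb0)) e)) (c (c (m (nat_lit 0xf7f1490)) e) e)) (c (c (c (m (nat_lit 0xf7f1490)) e) e) e)) (c (c (c (c (m (nat_lit 0x83db148)) e) e) e) e))) (c (c (c (c (c (p (nat_lit 0x12057b28)) (c (p (nat_lit 0xaa19504)) e)) (c (c (p (nat_lit 0xaa19504)) e) e)) (c (c (c (m (nat_lit 0xe0311f8)) e) e) e)) (c (c (c (c (m (nat_lit 0xe0311f8)) e) e) e) e)) (c (c (c (c (c (m (nat_lit 0x134598)) e) e) e) e) e))) (c (c (c (c (c (c (p (nat_lit 0x12057b28)) (c (p (nat_lit 0xaa19504)) e)) (c (c (m (nat_lit 0xe0311f8)) e) e)) (c (c (c (p (nat_lit 0xaa19504)) e) e) e)) (c (c (c (c (m (nat_lit 0xe0311f8)) e) e)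 e) e)) (c (c (c (c (c (m (nat_lit 0x767cac0)) e) e) e) e) e)) (c (c (c (c (c (c (m (nat_lit 0x134598)) e) e) e) e) e) e))) (c (c (c (c (c (c (c (p (nat_lit 0x72da3640)) (c (m (nat_lit 0x1f8)) e)) (c (c (p (nat_lit 0x78)) e) e)) (c (c (c (p (nat_lit 0x78)) e) e) e)) (c (c (c (c (m (nat_lit 0x1f8)) e) e) e) e)) (c (c (c (c (c (m (nat_lit 0xb502e1c)) e) e) e) e) e)) (c (c (c (c (c (c (m (nat_lit 0xb502e1c)) e) e) e) e) e) e)) (c (c (c (c (c (c (c (m (nat_lit 0x262dd0)) e) e) e) e) e) e) e)))) (c (c (c (c (c (c (c (c (m (nat_lit 0x18a12fc8)) (c (p (nat_lit 0xcc26b20)) (c (m (nat_lit 0x2632e0)) e))) (c (c (p (nat_lit 0x20df054c)) (c (m (nat_lit 0xa0d83d4)) e)) (c (c (m (nat_lit 0x14554020)) e) e))) (c (c (c (p (nat_lit 0x20df054c)) (c (m (nat_lit 0xa0d83d4)) e)) (c (c (p (nat_lit 0x4e90)) e) e)) (c (c (c (m (nat_lit 0x14554020)) e) e) e))) (c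 (c (c (c (p (nat_lit 0xcc26b20)) (c (p (nat_lit 0x27c540)) e)) (c (c (m (nat_lit 0xa0d83d4)) e) e)) (c (c (c (m (nat_lit 0xa0d83d4)) e) e) e)) (c (c (c (c (m (nat_lit 0x2632e0)) e) e) e) e))) (c (c (c (c (c (p (nat_lit 0x8b7176a4)) (c (m (nat_lit 0x98fe8)) e)) (c (c (m (nat_lit 0x6750d50)) e) e)) (c (c (c (p (nat_lit 0x9adf4)) e) e) e)) (c (c (c (c (p (nat_lit 0x3bf82e4)) e) e) e) e)) (c (c (c (c (c (m (nat_lit 0x54da478c)) e) e) e) e) e))) (c (c (c (c (c (c (p (nat_lit 0x8b7176a4)) (c (m (nat_lit 0x98fe8)) e)) (c (c (p (nat_lit 0x9adf4)) e) e)) (c (c (c (m (nat_lit 0x6750d50)) e) e) e)) (c (c (c (c (p (nat_lit 0x3bf82e4)) e) e) e) e)) (c (c (c (c (c (m (nat_lit 0x8accae0)) e) e) e) e) e)) (c (c (c (c (c (c (m (nat_lit 0x54da478c)) e) e) e) e) e) e))) (c (c (c (c (c (c (c (p (nat_lit 0x72da3640)) (c (p (nat_lit 0x78)) e)) (c (c (m (nat_lit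 0x1f8)) e) e)) (c (c (c (m (nat_lit 0x1f8)) e) e) e)) (c (c (c (c (p (nat_lit 0x78)) e) e) e) e)) (c (c (c (c (c (m (nat_lit 0xb502e1c)) e) e) e) e) e)) (c (c (c (c (c (c (m (nat_lit 0xb502e1c)) e) e) e) e) e) e)) (c (c (c (c (c (c (c (m (nat_lit 0xe6e610a0)) e) e) e) e) e) e) e))) (c (c (c (c (c (c (c (c (m (nat_lit 0x263cd0)) (c (m (nat_lit 0x262740)) e)) (c (c (p (nat_lit 0x3e4)) e) e)) (c (c (c (p (nat_lit 0x3e4)) e) e) e)) (c (c (c (c (m (nat_lit 0x262740)) e) e) e) e)) (c (c (c (c (c (m (nat_lit 0x18c)) e) e) e) e) e)) (c (c (c (c (c (c (m (nat_lit 0x18c)) e) e) e) e) e) e)) (c (c (c (c (c (c (c (m (nat_lit 0x262dd0)) e) e) e) e) e) e) e)) (c (c (c (c (c (c (c (c (m (nat_lit 0x263268)) e) e) e) e) e) e) e) e))))) (c (c (c (c (c (c (c (c (c (p (nat_lit 0xbfc3f2c8)) (c (m (nat_lit 0x1c4dc714)) (c (p (nat_lit 0x21c97e0)) (c (p (nat_lit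 0x2907594)) e)))) (c (c (m (nat_lit 0x12241584)) (c (p (nat_lit 0x14f5ae68)) (c (p (nat_lit 0x12d875c)) e))) (c (c (m (nat_lit 0x3ec8f5c)) (c (m (nat_lit 0x34a088c)) e)) (c (c (p (nat_lit 0x32f7600)) e) e)))) (c (c (c (m (nat_lit 0x1c4dc714)) (c (p (nat_lit 0x2426d270)) (c (m (nat_lit 0x9315cd8)) e))) (c (c (p (nat_lit 0x152bd904)) (c (m (nat_lit 0x86c8d1c)) e)) (c (c (m (nat_lit 0x98fb8)) e) e))) (c (c (c (p (nat_lit 0x21c97e0)) (c (m (nat_lit 0x9315cd8)) e)) (c (c (m (nat_lit 0x39c8868)) e) e)) (c (c (c (p (nat_lit 0x2907594)) e) e) e)))) (c (c (c (c (m (nat_lit 0x12241584)) (c (p (nat_lit 0x152bd904)) (c (m (nat_lit 0x39c8868)) e))) (c (c (p (nat_lit 0xd491fd8)) (c (m (nat_lit 0x89f6f34)) e)) (c (c (p (nat_lit 0x11c4594)) e) e))) (c (c (c (p (nat_lit 0x14f5ae68)) (c (m (nat_lit 0x86c8d1c)) e)) (c (c (m (nat_lit 0x89f6f34)) e) e)) (c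 (c (c (p (nat_lit 0x12d875c)) e) e) e))) (c (c (c (c (m (nat_lit 0x3ec8f5c)) (c (m (nat_lit 0x98fb8)) e)) (c (c (p (nat_lit 0x11c4594)) e) e)) (c (c (c (m (nat_lit 0x34a088c)) e) e) e)) (c (c (c (c (p (nat_lit 0x32f7600)) e) e) e) e)))) (c (c (c (c (c (m (nat_lit 0x4a010e4c)) (c (p (nat_lit 0x127e22c8)) (c (m (nat_lit 0x99d44)) e))) (c (c (p (nat_lit 0x1a64defc)) (c (m (nat_lit 0x63a3de8)) e)) (c (c (m (nat_lit 0x977de70)) e) e))) (c (c (c (p (nat_lit 0x11987ebc)) (c (m (nat_lit 0x5c3ed58)) e)) (c (c (m (nat_lit 0x397b18)) e) e)) (c (c (c (m (nat_lit 0x5d774c0)) e) e) e))) (c (c (c (c (p (nat_lit 0x127e22c8)) (c (m (nat_lit 0xbb804bc)) e)) (c (c (m (nat_lit 0x63a3de8)) e) e)) (c (c (c (m (nat_lit 0x5c3ed58)) e) e) e)) (c (c (c (c (m (nat_lit 0x99d44)) e) e) e) e))) (c (c (c (c (c (p (nat_lit 0x7764210)) (c (m (nat_lit 0x98ed4)) e)) (c (c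 (m (nat_lit 0x4c69554)) e) e)) (c (c (c (m (nat_lit 0x99018)) e) e) e)) (c (c (c (c (m (nat_lit 0x31985dc)) e) e) e) e)) (c (c (c (c (c (m (nat_lit 0x98ff4)) e) e) e) e) e)))) (c (c (c (c (c (c (m (nat_lit 0x170bec90)) (c (p (nat_lit 0x114622c8)) (c (m (nat_lit 0x25c3a64)) e))) (c (c (p (nat_lit 0x114622c8)) (c (m (nat_lit 0xb78388)) e)) (c (c (m (nat_lit 0x25c3a64)) e) e))) (c (c (c (p (nat_lit 0x114622c8)) (c (m (nat_lit 0xb2df640)) e)) (c (c (m (nat_lit 0x68eb108)) e) e)) (c (c (c (m (nat_lit 0x25c3a64)) e) e) e))) (c (c (c (c (p (nat_lit 0x114622c8)) (c (m (nat_lit 0x68eb108)) e)) (c (c (m (nat_lit 0xb2df640)) e) e)) (c (c (c (m (nat_lit 0xb78388)) e) e) e)) (c (c (c (c (m (nat_lit 0x25c3a64)) e) e) e) e))) (c (c (c (c (c (p (nat_lit 0x6107328)) (c (m (nat_lit 0x98e8c)) e)) (c (c (m (nat_lit 0x98e8c)) e) e)) (c (c (c (m (nat_lit 0x32e7688))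 e) e) e)) (c (c (c (c (m (nat_lit 0x32e7688)) e) e) e) e)) (c (c (c (c (c (m (nat_lit 0x131c58)) e) e) e) e) e))) (c (c (c (c (c (c (p (nat_lit 0x55cca40)) (c (m (nat_lit 0x252a6bc)) e)) (c (c (m (nat_lit 0x655434)) e) e)) (c (c (c (m (nat_lit 0x252a6bc)) e) e) e)) (c (c (c (c (m (nat_lit 0x655434)) e) e) e) e)) (c (c (c (c (c (m (nat_lit 0x1cadf0)) e) e) e) e) e)) (c (c (c (c (c (c (m (nat_lit 0x1313a0)) e) e) e) e) e) e)))) (c (c (c (c (c (c (c (m (nat_lit 0x920a45a8)) (c (p (nat_lit 0x42bc538)) (c (m (nat_lit 0x1149510)) e))) (c (c (m (nat_lit 0xa4ccd0c)) (c (m (nat_lit 0x43f3d7c)) e)) (c (c (p (nat_lit 0x43dcff4)) e) e))) (c (c (c (p (nat_lit 0x152c4510)) (c (m (nat_lit 0x1327a4)) e)) (c (c (p (nat_lit 0x1e43d58)) e) e)) (c (c (c (m (nat_lit 0x132654)) e) e) e))) (c (c (c (c (m (nat_lit 0x9c6a8c0)) (c (m (nat_lit 0x21f9648)) e)) (c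 (c (m (nat_lit 0x4e872e8)) e) e)) (c (c (c (m (nat_lit 0x1cb9b4)) e) e) e)) (c (c (c (c (m (nat_lit 0x9906c)) e) e) e) e))) (c (c (c (c (c (p (nat_lit 0x42c1950)) (c (m (nat_lit 0x2160ce4)) e)) (c (c (m (nat_lit 0x45268c8)) e) e)) (c (c (c (m (nat_lit 0xe15f5e0)) e) e) e)) (c (c (c (c (m (nat_lit 0x2160ce4)) e) e) e) e)) (c (c (c (c (c (m (nat_lit 0x11e2204)) e) e) e) e) e))) (c (c (c (c (c (c (m (nat_lit 0x15597090)) (c (m (nat_lit 0x994a4)) e)) (c (c (m (nat_lit 0x25ac9dc)) e) e)) (c (c (c (m (nat_lit 0x25ac9dc)) e) e) e)) (c (c (c (c (m (nat_lit 0x994a4)) e) e) e) e)) (c (c (c (c (c (p (nat_lit 0x99384)) e) e) e) e) e)) (c (c (c (c (c (c (p (nat_lit 0x547fc08)) e) e) e) e) e) e))) (c (c (c (c (c (c (c (p (nat_lit 0x8b7176a4)) (c (p (nat_lit 0x9adf4)) e)) (c (c (m (nat_lit 0x98fe8)) e) e)) (c (c (c (p (nat_lit 0x3bf82e4)) e) e) e)) (c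 (c (c (c (m (nat_lit 0x6750d50)) e) e) e) e)) (c (c (c (c (c (m (nat_lit 0x8accae0)) e) e) e) e) e)) (c (c (c (c (c (c (m (nat_lit 0x5dfe520)) e) e) e) e) e) e)) (c (c (c (c (c (c (c (m (nat_lit 0x18c)) e) e) e) e) e) e) e)))) (c (c (c (c (c (c (c (c (m (nat_lit 0x920a45a8)) (c (p (nat_lit 0x152c4510)) (c (m (nat_lit 0x132654)) e))) (c (c (m (nat_lit 0x9c6a8c0)) (c (m (nat_lit 0x1cb9b4)) e)) (c (c (m (nat_lit 0x9906c)) e) e))) (c (c (c (p (nat_lit 0x42bc538)) (c (m (nat_lit 0x1327a4)) e)) (c (c (m (nat_lit 0x21f9648)) e) e)) (c (c (c (m (nat_lit 0x1149510)) e) e) e))) (c (c (c (c (m (nat_lit 0xa4ccd0c)) (c (p (nat_lit 0x1e43d58)) e)) (c (c (m (nat_lit 0x4e872e8)) e) e)) (c (c (c (m (nat_lit 0x43f3d7c)) e) e) e)) (c (c (c (c (p (nat_lit 0x43dcff4)) e) e) e) e))) (c (c (c (c (c (p (nat_lit 0x5bc0ebe8)) (c (m (nat_lit 0x1795458)) e)) (c (c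 (m (nat_lit 0x13206c)) e) e)) (c (c (c (p (nat_lit 0x210)) e) e) e)) (c (c (c (c (m (nat_lit 0x1795458)) e) e) e) e)) (c (c (c (c (c (m (nat_lit 0x131d84)) e) e) e) e) e))) (c (c (c (c (c (c (m (nat_lit 0x15597090)) (c (m (nat_lit 0x25ac9dc)) e)) (c (c (m (nat_lit 0x994a4)) e) e)) (c (c (c (m (nat_lit 0x994a4)) e) e) e)) (c (c (c (c (m (nat_lit 0x25ac9dc)) e) e) e) e)) (c (c (c (c (c (p (nat_lit 0x99384)) e) e) e) e) e)) (c (c (c (c (c (c (p (nat_lit 0x547fc08)) e) e) e) e) e) e))) (c (c (c (c (c (c (c (p (nat_lit 0x12057b28)) (c (m (nat_lit 0xe0311f8)) e)) (c (c (p (nat_lit 0xaa19504)) e) e)) (c (c (c (m (nat_lit 0xe0311f8)) e) e) e)) (c (c (c (c (p (nat_lit 0xaa19504)) e) e) e) e)) (c (c (c (c (c (m (nat_lit 0x767cac0)) e) e) e) e) e)) (c (c (c (c (c (c (m (nat_lit 0x2652c0)) e) e) e) e) e) e)) (c (c (c (c (c (c (c (m (nat_lit 0xb502e1c))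 e) e) e) e) e) e) e))) (c (c (c (c (c (c (c (c (p (nat_lit 0x8b7176a4)) (c (p (nat_lit 0x3bf82e4)) e)) (c (c (m (nat_lit 0x6750d50)) e) e)) (c (c (c (p (nat_lit 0x9adf4)) e) e) e)) (c (c (c (c (m (nat_lit 0x98fe8)) e) e) e) e)) (c (c (c (c (c (m (nat_lit 0x3b77707c)) e) e) e) e) e)) (c (c (c (c (c (c (m (nat_lit 0x5dfe520)) e) e) e) e) e) e)) (c (c (c (c (c (c (c (m (nat_lit 0xb502e1c)) e) e) e) e) e) e) e)) (c (c (c (c (c (c (c (c (m (nat_lit 0x18c)) e) e) e) e) e) e) e) e)))) (c (c (c (c (c (c (c (c (c (m (nat_lit 0x64442328)) (c (m (nat_lit 0x162324c)) (c (p (nat_lit 0x2c77b30)) e))) (c (c (p (nat_lit 0x342adac)) (c (p (nat_lit 0x140c058)) e)) (c (c (m (nat_lit 0x30a1af0)) e) e))) (c (c (c (m (nat_lit 0x162324c)) (c (m (nat_lit 0x263dc0)) e)) (c (c (m (nat_lit 0x132360)) e) e)) (c (c (c (p (nat_lit 0x2c77b30)) e) e) e))) (c (c (c (c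 (p (nat_lit 0x342adac)) (c (m (nat_lit 0x132360)) e)) (c (c (p (nat_lit 0x12cccd8)) e) e)) (c (c (c (p (nat_lit 0x140c058)) e) e) e)) (c (c (c (c (m (nat_lit 0x30a1af0)) e) e) e) e))) (c (c (c (c (c (p (nat_lit 0x7764210)) (c (m (nat_lit 0x31985dc)) e)) (c (c (m (nat_lit 0x4c69554)) e) e)) (c (c (c (m (nat_lit 0x99018)) e) e) e)) (c (c (c (c (m (nat_lit 0x98ed4)) e) e) e) e)) (c (c (c (c (c (m (nat_lit 0x33636a8)) e) e) e) e) e))) (c (c (c (c (c (c (p (nat_lit 0x55cca40)) (c (m (nat_lit 0x655434)) e)) (c (c (m (nat_lit 0x252a6bc)) e) e)) (c (c (c (m (nat_lit 0x655434)) e) e) e)) (c (c (c (c (m (nat_lit 0x252a6bc)) e) e) e) e)) (c (c (c (c (c (m (nat_lit 0x1cadf0)) e) e) e) e) e)) (c (c (c (c (c (c (m (nat_lit 0x263c40)) e) e) e) e) e) e))) (c (c (c (c (c (c (c (p (nat_lit 0x66f65a90)) (c (m (nat_lit 0x11495a0)) e)) (c (c (m (nat_lit 0x3d3e2d0))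 e) e)) (c (c (c (m (nat_lit 0x131e74)) e) e) e)) (c (c (c (c (m (nat_lit 0x99114)) e) e) e) e)) (c (c (c (c (c (m (nat_lit 0x11e2204)) e) e) e) e) e)) (c (c (c (c (c (c (p (nat_lit 0x547fc08)) e) e) e) e) e) e)) (c (c (c (c (c (c (c (m (nat_lit 0x54da478c)) e) e) e) e) e) e) e))) (c (c (c (c (c (c (c (c (p (nat_lit 0x66f65a90)) (c (m (nat_lit 0x131e74)) e)) (c (c (m (nat_lit 0x99114)) e) e)) (c (c (c (m (nat_lit 0x11495a0)) e) e) e)) (c (c (c (c (m (nat_lit 0x3d3e2d0)) e) e) e) e)) (c (c (c (c (c (m (nat_lit 0x131d84)) e) e) e) e) e)) (c (c (c (c (c (c (p (nat_lit 0x547fc08)) e) e) e) e) e) e)) (c (c (c (c (c (c (c (m (nat_lit 0x134598)) e) e) e) e) e) e) e)) (c (c (c (c (c (c (c (c (m (nat_lit 0x54da478c)) e) e) e) e) e) e) e) e))) (c (c (c (c (c (c (c (c (c (p (nat_lit 0x32ccef8)) (c (m (nat_lit 0x98c64)) e)) (c (c (m (nat_lit 0x179bc74))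 e) e)) (c (c (c (m (nat_lit 0x98c64)) e) e) e)) (c (c (c (c (m (nat_lit 0x179bc74)) e) e) e) e)) (c (c (c (c (c (m (nat_lit 0x98ff4)) e) e) e) e) e)) (c (c (c (c (c (c (m (nat_lit 0x1313a0)) e) e) e) e) e) e)) (c (c (c (c (c (c (c (m (nat_lit 0x131d60)) e) e) e) e) e) e) e)) (c (c (c (c (c (c (c (c (m (nat_lit 0x131d60)) e) e) e) e) e) e) e) e)) (c (c (c (c (c (c (c (c (c (m (nat_lit 0x132000)) e) e) e) e) e) e) e) e) e))))) (c (c (c (c (c (c (c (c (c (c (p (nat_lit 0xbfc3f2c8)) (c (m (nat_lit 0x1c4dc714)) (c (p (nat_lit 0x21c97e0)) (c (p (nat_lit 0x2907594)) e)))) (c (c (m (nat_lit 0x1c4dc714)) (c (p (nat_lit 0x2426d270)) (c (m (nat_lit 0x9315cd8)) e))) (c (c (p (nat_lit 0x21c97e0)) (c (m (nat_lit 0x9315cd8)) e)) (c (c (p (nat_lit 0x2907594)) e) e)))) (c (c (c (m (nat_lit 0x12241584)) (c (p (nat_lit 0x14f5ae68)) (c (p (nat_lit 0x12d875c))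 e))) (c (c (p (nat_lit 0x152bd904)) (c (m (nat_lit 0x86c8d1c)) e)) (c (c (m (nat_lit 0x39c8868)) e) e))) (c (c (c (m (nat_lit 0x3ec8f5c)) (c (m (nat_lit 0x34a088c)) e)) (c (c (m (nat_lit 0x98fb8)) e) e)) (c (c (c (p (nat_lit 0x32f7600)) e) e) e)))) (c (c (c (c (m (nat_lit 0x12241584)) (c (p (nat_lit 0x152bd904)) (c (m (nat_lit 0x39c8868)) e))) (c (c (p (nat_lit 0x14f5ae68)) (c (m (nat_lit 0x86c8d1c)) e)) (c (c (p (nat_lit 0x12d875c)) e) e))) (c (c (c (p (nat_lit 0xd491fd8)) (c (m (nat_lit 0x89f6f34)) e)) (c (c (m (nat_lit 0x89f6f34)) e) e)) (c (c (c (p (nat_lit 0x11c4594)) e) e) e))) (c (c (c (c (m (nat_lit 0x3ec8f5c)) (c (m (nat_lit 0x98fb8)) e)) (c (c (m (nat_lit 0x34a088c)) e) e)) (c (c (c (p (nat_lit 0x11c4594)) e) e) e)) (c (c (c (c (p (nat_lit 0x32f7600)) e) e) e) e)))) (c (c (c (c (c (m (nat_lit 0x170bec90)) (c (p (nat_lit 0x114622c8))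 (c (m (nat_lit 0x25c3a64)) e))) (c (c (p (nat_lit 0x114622c8)) (c (m (nat_lit 0xb2df640)) e)) (c (c (m (nat_lit 0x25c3a64)) e) e))) (c (c (c (p (nat_lit 0x114622c8)) (c (m (nat_lit 0xb78388)) e)) (c (c (m (nat_lit 0x68eb108)) e) e)) (c (c (c (m (nat_lit 0x25c3a64)) e) e) e))) (c (c (c (c (p (nat_lit 0x114622c8)) (c (m (nat_lit 0x68eb108)) e)) (c (c (m (nat_lit 0xb78388)) e) e)) (c (c (c (m (nat_lit 0xb2df640)) e) e) e)) (c (c (c (c (m (nat_lit 0x25c3a64)) e) e) e) e))) (c (c (c (c (c (p (nat_lit 0x55cca40)) (c (m (nat_lit 0x252a6bc)) e)) (c (c (m (nat_lit 0x252a6bc)) e) e)) (c (c (c (m (nat_lit 0x655434)) e) e) e)) (c (c (c (c (m (nat_lit 0x655434)) e) e) e) e)) (c (c (c (c (c (m (nat_lit 0x1313a0)) e) e) e) e) e)))) (c (c (c (c (c (c (m (nat_lit 0x4a010e4c)) (c (p (nat_lit 0x127e22c8)) (c (m (nat_lit 0x99d44)) e))) (c (c (p (nat_lit 0x11987ebc))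 (c (m (nat_lit 0x5c3ed58)) e)) (c (c (m (nat_lit 0x5d774c0)) e) e))) (c (c (c (p (nat_lit 0x1a64defc)) (c (m (nat_lit 0x63a3de8)) e)) (c (c (m (nat_lit 0x397b18)) e) e)) (c (c (c (m (nat_lit 0x977de70)) e) e) e))) (c (c (c (c (p (nat_lit 0x127e22c8)) (c (m (nat_lit 0xbb804bc)) e)) (c (c (m (nat_lit 0x5c3ed58)) e) e)) (c (c (c (m (nat_lit 0x63a3de8)) e) e) e)) (c (c (c (c (m (nat_lit 0x99d44)) e) e) e) e))) (c (c (c (c (c (p (nat_lit 0x6107328)) (c (m (nat_lit 0x98e8c)) e)) (c (c (m (nat_lit 0x32e7688)) e) e)) (c (c (c (m (nat_lit 0x98e8c)) e) e) e)) (c (c (c (c (m (nat_lit 0x32e7688)) e) e) e) e)) (c (c (c (c (c (m (nat_lit 0x1cadf0)) e) e) e) e) e))) (c (c (c (c (c (c (p (nat_lit 0x7764210)) (c (m (nat_lit 0x98ed4)) e)) (c (c (m (nat_lit 0x99018)) e) e)) (c (c (c (m (nat_lit 0x4c69554)) e) e) e)) (c (c (c (c (m (nat_lit 0x31985dc)) e)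 e) e) e)) (c (c (c (c (c (m (nat_lit 0x131c58)) e) e) e) e) e)) (c (c (c (c (c (c (m (nat_lit 0x98ff4)) e) e) e) e) e) e)))) (c (c (c (c (c (c (c (m (nat_lit 0x920a45a8)) (c (p (nat_lit 0x42bc538)) (c (m (nat_lit 0x1149510)) e))) (c (c (p (nat_lit 0x152c4510)) (c (m (nat_lit 0x1327a4)) e)) (c (c (m (nat_lit 0x132654)) e) e))) (c (c (c (m (nat_lit 0xa4ccd0c)) (c (m (nat_lit 0x43f3d7c)) e)) (c (c (p (nat_lit 0x1e43d58)) e) e)) (c (c (c (p (nat_lit 0x43dcff4)) e) e) e))) (c (c (c (c (m (nat_lit 0x9c6a8c0)) (c (m (nat_lit 0x21f9648)) e)) (c (c (m (nat_lit 0x1cb9b4)) e) e)) (c (c (c (m (nat_lit 0x4e872e8)) e) e) e)) (c (c (c (c (m (nat_lit 0x9906c)) e) e) e) e))) (c (c (c (c (c (m (nat_lit 0x15597090)) (c (m (nat_lit 0x994a4)) e)) (c (c (m (nat_lit 0x25ac9dc)) e) e)) (c (c (c (m (nat_lit 0x25ac9dc)) e) e) e)) (c (c (c (c (m (nat_lit 0x994a4))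 e) e) e) e)) (c (c (c (c (c (p (nat_lit 0x547fc08)) e) e) e) e) e))) (c (c (c (c (c (c (p (nat_lit 0x42c1950)) (c (m (nat_lit 0x2160ce4)) e)) (c (c (m (nat_lit 0xe15f5e0)) e) e)) (c (c (c (m (nat_lit 0x45268c8)) e) e) e)) (c (c (c (c (m (nat_lit 0x2160ce4)) e) e) e) e)) (c (c (c (c (c (p (nat_lit 0x99384)) e) e) e) e) e)) (c (c (c (c (c (c (m (nat_lit 0x11e2204)) e) e) e) e) e) e))) (c (c (c (c (c (c (c (p (nat_lit 0x8b7176a4)) (c (p (nat_lit 0x9adf4)) e)) (c (c (p (nat_lit 0x3bf82e4)) e) e)) (c (c (c (m (nat_lit 0x98fe8)) e) e) e)) (c (c (c (c (m (nat_lit 0x6750d50)) e) e) e) e)) (c (c (c (c (c (m (nat_lit 0x5dfe520)) e) e) e) e) e)) (c (c (c (c (c (c (m (nat_lit 0x8accae0)) e) e) e) e) e) e)) (c (c (c (c (c (c (c (m (nat_lit 0x18c)) e) e) e) e) e) e) e)))) (c (c (c (c (c (c (c (c (m (nat_lit 0x920a45a8)) (c (p (nat_lit 0x152c4510)) (c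 (m (nat_lit 0x132654)) e))) (c (c (p (nat_lit 0x42bc538)) (c (m (nat_lit 0x1327a4)) e)) (c (c (m (nat_lit 0x1149510)) e) e))) (c (c (c (m (nat_lit 0x9c6a8c0)) (c (m (nat_lit 0x1cb9b4)) e)) (c (c (m (nat_lit 0x21f9648)) e) e)) (c (c (c (m (nat_lit 0x9906c)) e) e) e))) (c (c (c (c (m (nat_lit 0xa4ccd0c)) (c (p (nat_lit 0x1e43d58)) e)) (c (c (m (nat_lit 0x43f3d7c)) e) e)) (c (c (c (m (nat_lit 0x4e872e8)) e) e) e)) (c (c (c (c (p (nat_lit 0x43dcff4)) e) e) e) e))) (c (c (c (c (c (m (nat_lit 0x15597090)) (c (m (nat_lit 0x25ac9dc)) e)) (c (c (m (nat_lit 0x994a4)) e) e)) (c (c (c (m (nat_lit 0x994a4)) e) e) e)) (c (c (c (c (m (nat_lit 0x25ac9dc)) e) e) e) e)) (c (c (c (c (c (p (nat_lit 0x547fc08)) e) e) e) e) e))) (c (c (c (c (c (c (p (nat_lit 0x5bc0ebe8)) (c (m (nat_lit 0x1795458)) e)) (c (c (p (nat_lit 0x210)) e) e)) (c (c (c (m (nat_lit 0x13206c))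 e) e) e)) (c (c (c (c (m (nat_lit 0x1795458)) e) e) e) e)) (c (c (c (c (c (p (nat_lit 0x99384)) e) e) e) e) e)) (c (c (c (c (c (c (m (nat_lit 0x131d84)) e) e) e) e) e) e))) (c (c (c (c (c (c (c (p (nat_lit 0x12057b28)) (c (m (nat_lit 0xe0311f8)) e)) (c (c (m (nat_lit 0xe0311f8)) e) e)) (c (c (c (p (nat_lit 0xaa19504)) e) e) e)) (c (c (c (c (p (nat_lit 0xaa19504)) e) e) e) e)) (c (c (c (c (c (m (nat_lit 0x2652c0)) e) e) e) e) e)) (c (c (c (c (c (c (m (nat_lit 0x767cac0)) e) e) e) e) e) e)) (c (c (c (c (c (c (c (m (nat_lit 0xb502e1c)) e) e) e) e) e) e) e))) (c (c (c (c (c (c (c (c (p (nat_lit 0x8b7176a4)) (c (p (nat_lit 0x3bf82e4)) e)) (c (c (p (nat_lit 0x9adf4)) e) e)) (c (c (c (m (nat_lit 0x6750d50)) e) e) e)) (c (c (c (c (m (nat_lit 0x98fe8)) e) e) e) e)) (c (c (c (c (c (m (nat_lit 0x5dfe520)) e) e) e) e) e)) (c (c (c (c (c (c (m (nat_lit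 0x3b77707c)) e) e) e) e) e) e)) (c (c (c (c (c (c (c (m (nat_lit 0xb502e1c)) e) e) e) e) e) e) e)) (c (c (c (c (c (c (c (c (m (nat_lit 0x18c)) e) e) e) e) e) e) e) e)))) (c (c (c (c (c (c (c (c (c (m (nat_lit 0x4a010e4c)) (c (p (nat_lit 0x11987ebc)) (c (m (nat_lit 0x5d774c0)) e))) (c (c (p (nat_lit 0x127e22c8)) (c (m (nat_lit 0x5c3ed58)) e)) (c (c (m (nat_lit 0x99d44)) e) e))) (c (c (c (p (nat_lit 0x127e22c8)) (c (m (nat_lit 0x5c3ed58)) e)) (c (c (m (nat_lit 0xbb804bc)) e) e)) (c (c (c (m (nat_lit 0x99d44)) e) e) e))) (c (c (c (c (p (nat_lit 0x1a64defc)) (c (m (nat_lit 0x397b18)) e)) (c (c (m (nat_lit 0x63a3de8)) e) e)) (c (c (c (m (nat_lit 0x63a3de8)) e) e) e)) (c (c (c (c (m (nat_lit 0x977de70)) e) e) e) e))) (c (c (c (c (c (p (nat_lit 0x6107328)) (c (m (nat_lit 0x32e7688)) e)) (c (c (m (nat_lit 0x98e8c)) e) e)) (c (c (c (m (nat_lit 0x32e7688))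 e) e) e)) (c (c (c (c (m (nat_lit 0x98e8c)) e) e) e) e)) (c (c (c (c (c (m (nat_lit 0x1cadf0)) e) e) e) e) e))) (c (c (c (c (c (c (p (nat_lit 0x6107328)) (c (m (nat_lit 0x32e7688)) e)) (c (c (m (nat_lit 0x32e7688)) e) e)) (c (c (c (m (nat_lit 0x98e8c)) e) e) e)) (c (c (c (c (m (nat_lit 0x98e8c)) e) e) e) e)) (c (c (c (c (c (m (nat_lit 0xe59c20)) e) e) e) e) e)) (c (c (c (c (c (c (m (nat_lit 0x1cadf0)) e) e) e) e) e) e))) (c (c (c (c (c (c (c (p (nat_lit 0x5bc0ebe8)) (c (p (nat_lit 0x210)) e)) (c (c (m (nat_lit 0x1795458)) e) e)) (c (c (c (m (nat_lit 0x1795458)) e) e) e)) (c (c (c (c (m (nat_lit 0x13206c)) e) e) e) e)) (c (c (c (c (c (p (nat_lit 0x99384)) e) e) e) e) e)) (c (c (c (c (c (c (p (nat_lit 0x99384)) e) e) e) e) e) e)) (c (c (c (c (c (c (c (m (nat_lit 0x3b77707c)) e) e) e) e) e) e) e))) (c (c (c (c (c (c (c (c (p (nat_lit 0x42c1950))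 (c (m (nat_lit 0xe15f5e0)) e)) (c (c (m (nat_lit 0x2160ce4)) e) e)) (c (c (c (m (nat_lit 0x2160ce4)) e) e) e)) (c (c (c (c (m (nat_lit 0x45268c8)) e) e) e) e)) (c (c (c (c (c (p (nat_lit 0x99384)) e) e) e) e) e)) (c (c (c (c (c (c (p (nat_lit 0x99384)) e) e) e) e) e) e)) (c (c (c (c (c (c (c (m (nat_lit 0x767cac0)) e) e) e) e) e) e) e)) (c (c (c (c (c (c (c (c (m (nat_lit 0x8accae0)) e) e) e) e) e) e) e) e))) (c (c (c (c (c (c (c (c (c (p (nat_lit 0x7764210)) (c (m (nat_lit 0x99018)) e)) (c (c (m (nat_lit 0x98ed4)) e) e)) (c (c (c (m (nat_lit 0x31985dc)) e) e) e)) (c (c (c (c (m (nat_lit 0x4c69554)) e) e) e) e)) (c (c (c (c (c (m (nat_lit 0x131c58)) e) e) e) e) e)) (c (c (c (c (c (c (m (nat_lit 0x1cadf0)) e) e) e) e) e) e)) (c (c (c (c (c (c (c (m (nat_lit 0x131d84)) e) e) e) e) e) e) e)) (c (c (c (c (c (c (c (c (m (nat_lit 0x11e2204))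 e) e) e) e) e) e) e) e)) (c (c (c (c (c (c (c (c (c (m (nat_lit 0x98ff4)) e) e) e) e) e) e) e) e) e)))) (c (c (c (c (c (c (c (c (c (c (m (nat_lit 0x64442328)) (c (m (nat_lit 0x162324c)) (c (p (nat_lit 0x2c77b30)) e))) (c (c (m (nat_lit 0x162324c)) (c (m (nat_lit 0x263dc0)) e)) (c (c (p (nat_lit 0x2c77b30)) e) e))) (c (c (c (p (nat_lit 0x342adac)) (c (p (nat_lit 0x140c058)) e)) (c (c (m (nat_lit 0x132360)) e) e)) (c (c (c (m (nat_lit 0x30a1af0)) e) e) e))) (c (c (c (c (p (nat_lit 0x342adac)) (c (m (nat_lit 0x132360)) e)) (c (c (p (nat_lit 0x140c058)) e) e)) (c (c (c (p (nat_lit 0x12cccd8)) e) e) e)) (c (c (c (c (m (nat_lit 0x30a1af0)) e) e) e) e))) (c (c (c (c (c (p (nat_lit 0x55cca40)) (c (m (nat_lit 0x655434)) e)) (c (c (m (nat_lit 0x655434)) e) e)) (c (c (c (m (nat_lit 0x252a6bc)) e) e) e)) (c (c (c (c (m (nat_lit 0x252a6bc)) e) e) e)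 e)) (c (c (c (c (c (m (nat_lit 0x263c40)) e) e) e) e) e))) (c (c (c (c (c (c (p (nat_lit 0x7764210)) (c (m (nat_lit 0x31985dc)) e)) (c (c (m (nat_lit 0x99018)) e) e)) (c (c (c (m (nat_lit 0x4c69554)) e) e) e)) (c (c (c (c (m (nat_lit 0x98ed4)) e) e) e) e)) (c (c (c (c (c (m (nat_lit 0x1cadf0)) e) e) e) e) e)) (c (c (c (c (c (c (m (nat_lit 0x33636a8)) e) e) e) e) e) e))) (c (c (c (c (c (c (c (p (nat_lit 0x66f65a90)) (c (m (nat_lit 0x11495a0)) e)) (c (c (m (nat_lit 0x131e74)) e) e)) (c (c (c (m (nat_lit 0x3d3e2d0)) e) e) e)) (c (c (c (c (m (nat_lit 0x99114)) e) e) e) e)) (c (c (c (c (c (p (nat_lit 0x547fc08)) e) e) e) e) e)) (c (c (c (c (c (c (m (nat_lit 0x11e2204)) e) e) e) e) e) e)) (c (c (c (c (c (c (c (m (nat_lit 0x54da478c)) e) e) e) e) e) e) e))) (c (c (c (c (c (c (c (c (p (nat_lit 0x66f65a90)) (c (m (nat_lit 0x131e74)) e)) (c (c (m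 (nat_lit 0x11495a0)) e) e)) (c (c (c (m (nat_lit 0x99114)) e) e) e)) (c (c (c (c (m (nat_lit 0x3d3e2d0)) e) e) e) e)) (c (c (c (c (c (p (nat_lit 0x547fc08)) e) e) e) e) e)) (c (c (c (c (c (c (m (nat_lit 0x131d84)) e) e) e) e) e) e)) (c (c (c (c (c (c (c (m (nat_lit 0x134598)) e) e) e) e) e) e) e)) (c (c (c (c (c (c (c (c (m (nat_lit 0x54da478c)) e) e) e) e) e) e) e) e))) (c (c (c (c (c (c (c (c (c (p (nat_lit 0x7764210)) (c (m (nat_lit 0x99018)) e)) (c (c (m (nat_lit 0x31985dc)) e) e)) (c (c (c (m (nat_lit 0x98ed4)) e) e) e)) (c (c (c (c (m (nat_lit 0x4c69554)) e) e) e) e)) (c (c (c (c (c (m (nat_lit 0x1cadf0)) e) e) e) e) e)) (c (c (c (c (c (c (m (nat_lit 0x131c58)) e) e) e) e) e) e)) (c (c (c (c (c (c (c (m (nat_lit 0x131d84)) e) e) e) e) e) e) e)) (c (c (c (c (c (c (c (c (m (nat_lit 0x11e2204)) e) e) e) e) e) e) e) e)) (c (c (c (c (c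 (c (c (c (c (m (nat_lit 0x33636a8)) e) e) e) e) e) e) e) e) e))) (c (c (c (c (c (c (c (c (c (c (p (nat_lit 0x32ccef8)) (c (m (nat_lit 0x98c64)) e)) (c (c (m (nat_lit 0x98c64)) e) e)) (c (c (c (m (nat_lit 0x179bc74)) e) e) e)) (c (c (c (c (m (nat_lit 0x179bc74)) e) e) e) e)) (c (c (c (c (c (m (nat_lit 0x1313a0)) e) e) e) e) e)) (c (c (c (c (c (c (m (nat_lit 0x98ff4)) e) e) e) e) e) e)) (c (c (c (c (c (c (c (m (nat_lit 0x131d60)) e) e) e) e) e) e) e)) (c (c (c (c (c (c (c (c (m (nat_lit 0x131d60)) e) e) e) e) e) e) e) e)) (c (c (c (c (c (c (c (c (c (m (nat_lit 0x98ff4)) e) e) e) e) e) e) e) e) e)) (c (c (c (c (c (c (c (c (c (c (m (nat_lit 0x132000)) e) e) e) e) e) e) e) e) e) e)))))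

theorem c1 : trsOK col trs = true := by decide +kernel
theorem c2 : Nat.ble (Nat.mul (nat_lit 40) (nat_lit 4556)) (nat_lit 4294967295) = true := by decide +kernel
theorem c3 : Nat.beq (tabK (nat_lit 40) (List.ofFn s10)) kt = true := by decide +kernel
theorem c4 : okE trs E = true := by decide +kernel
theorem c5 : dE E (nat_lit 4) = true := by decide +kernel
theorem c6 : cmpK (nat_lit 10) (nat_lit 4) kt E T = true := by decide +kernel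
theorem c7 : bndK (nat_lit 10) (nat_lit 4) (Nat.pow (nat_lit 2) (nat_lit 40)) E T = true := by decide +kernel

theorem c0 : Fl.codeB col = 12 := by decide +kernel

theorem own : Fl.OwnOK 4 T 12 :=
  own_ok c0 c1 c2 c3 c4 c5 c6 c7

end H12

end Own

end HR
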