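import Pool.Agent.Lib.MP_a1b8b7_co.B.OwnOK

set_option autoImplicit false

namespace HR

namespace Own

namespace H13

open Chk

def col : Fin 10 → Bool := ![true, false, true, true, false, false, false, false, false, false]

def trs : List ℕ := [nat_lit 2145, nat_lit 2420, nat_lit 2437]

def kt : ℕ := nat_lit 0x27000000c300000333000008610000174f00003ace000082b60000e3250001a64c0002b614

open Ex in
noncomputable def E : Ex := (a (a (a (a (u (nat_lit 9) (a (v (nat_lit 9) (v (nat_lit 9) (v (nat_lit 9) (k (nat_lit 0x996a2))))) (u (nat_lit 9) (v (nat_lit 9) (v (nat_lit 9) (k (nat_lit 0x9c0ae))))))) (v (nat_lit 8) (a (u (nat_lit 9) (a (v (nat_lit 9) (v (nat_lit 9) (k (nat_lit 0x99156)))) (u (nat_lit 9) (v (nat_lit 9) (k (nat_lit 0x75e20e6)))))) (v (nat_lit 8) (u (nat_lit 9) (v (nat_lit 9) (k (nat_lit 0x99636)))))))) (a (u (nat_lit 8) (a (v (nat_lit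 8) (a (v (nat_lit 9) (v (nat_lit 9) (k (nat_lit 0x99636)))) (a (u (nat_lit 9) (u (nat_lit 9) (k (nat_lit 0x2a17ec8)))) (v (nat_lit 8) (a (v (nat_lit 9) (k (nat_lit 0x99156))) (v (nat_lit 8) (k (nat_lit 0x996a2)))))))) (u (nat_lit 8) (a (u (nat_lit 9) (v (nat_lit 9) (k (nat_lit 0x2a17ec8)))) (v (nat_lit 8) (a (v (nat_lit 9) (k (nat_lit 0x75e20e6))) (v (nat_lit 8) (k (nat_lit 0x9c0ae))))))))) (a (v (nat_lit 7) (a (u (nat_lit 8) (v (nat_lit 8) (v (nat_lit 8) (k (nat_lit 0x99462))))) (v (nat_lit 7) (a (u (nat_lit 9) (v (nat_lit 9) (k (nat_lit 0x998be)))) (u (nat_lit 8) (a (v (nat_lit 9) (k (nat_lit 0x99078))) (v (nat_lit 8) (k (nat_lit 0x99522))))))))) (u (nat_lit 7) (a (v (nat_lit 9) (v (nat_lit 9) (v (nat_lit 9) (k (nat_lit 0x99168))))) (a (v (nat_lit 8) (a (v (nat_lit 9) (v (nat_lit 9) (k (nat_lit 0x98fe8)))) (v (nat_lit 8) (v (nat_lit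 9) (k (nat_lit 0x98f76)))))) (v (nat_lit 7) (v (nat_lit 7) (a (v (nat_lit 9) (k (nat_lit 0x98fb8))) (a (v (nat_lit 8) (k (nat_lit 0x992b2))) (v (nat_lit 7) (k (nat_lit 0x945540))))))))))))) (a (a (v (nat_lit 6) (a (a (u (nat_lit 9) (v (nat_lit 9) (v (nat_lit 9) (k (nat_lit 0x99462))))) (v (nat_lit 7) (a (a (u (nat_lit 9) (v (nat_lit 9) (k (nat_lit 0x994b0)))) (v (nat_lit 8) (u (nat_lit 9) (k (nat_lit 0x3b309fa))))) (a (u (nat_lit 8) (a (v (nat_lit 9) (k (nat_lit 0x3b309fa))) (v (nat_lit 8) (k (nat_lit 0x994b0))))) (v (nat_lit 7) (a (u (nat_lit 9) (k (nat_lit 0x9916e))) (u (nat_lit 8) (k (nat_lit 0x990d2))))))))) (a (u (nat_lit 7) (v (nat_lit 7) (a (v (nat_lit 8) (k (nat_lit 0x99126))) (v (nat_lit 7) (k (nat_lit 0x991b6)))))) (v (nat_lit 6) (a (a (u (nat_lit 9) (v (nat_lit 9) (k (nat_lit 0x99522)))) (v (nat_lit 8) (u (nat_lit 9) (k (nat_lit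 0x99078))))) (a (u (nat_lit 8) (v (nat_lit 8) (k (nat_lit 0x998be)))) (a (v (nat_lit 7) (a (u (nat_lit 9) (k (nat_lit 0x990d2))) (u (nat_lit 8) (k (nat_lit 0x9916e))))) (u (nat_lit 7) (v (nat_lit 7) (k (nat_lit 0x118216e))))))))))) (a (u (nat_lit 6) (a (v (nat_lit 8) (a (v (nat_lit 9) (v (nat_lit 9) (k (nat_lit 0x98f76)))) (v (nat_lit 8) (a (v (nat_lit 9) (k (nat_lit 0x98fe8))) (v (nat_lit 8) (k (nat_lit 0x99168))))))) (v (nat_lit 6) (a (v (nat_lit 7) (a (v (nat_lit 9) (k (nat_lit 0x99126))) (v (nat_lit 7) (k (nat_lit 0x118216e))))) (v (nat_lit 6) (a (a (v (nat_lit 9) (k (nat_lit 0x992b2))) (v (nat_lit 8) (k (nat_lit 0x98fb8)))) (a (v (nat_lit 7) (k (nat_lit 0x991b6))) (v (nat_lit 6) (k (nat_lit 0x945540)))))))))) (v (nat_lit 5) (a (a (a (u (nat_lit 9) (v (nat_lit 9) (v (nat_lit 9) (k (nat_lit 0x99a44))))) (v (nat_lit 8) (u (nat_lit 9)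 (v (nat_lit 9) (k (nat_lit 0x9939c)))))) (a (u (nat_lit 8) (v (nat_lit 8) (a (v (nat_lit 9) (k (nat_lit 0x9939c))) (v (nat_lit 8) (k (nat_lit 0x99a44)))))) (v (nat_lit 7) (u (nat_lit 9) (v (nat_lit 9) (k (nat_lit 0x997aa))))))) (a (a (u (nat_lit 7) (a (u (nat_lit 9) (v (nat_lit 9) (k (nat_lit 0x99d38)))) (v (nat_lit 7) (v (nat_lit 7) (k (nat_lit 0x98df0)))))) (v (nat_lit 6) (a (u (nat_lit 8) (v (nat_lit 8) (k (nat_lit 0x997aa)))) (a (v (nat_lit 7) (a (u (nat_lit 9) (k (nat_lit 0x9953a))) (u (nat_lit 8) (k (nat_lit 0x9953a))))) (u (nat_lit 7) (v (nat_lit 7) (k (nat_lit 0x9940e)))))))) (a (u (nat_lit 6) (a (u (nat_lit 8) (v (nat_lit 8) (k (nat_lit 0x99d38)))) (v (nat_lit 6) (a (v (nat_lit 7) (k (nat_lit 0x9940e))) (v (nat_lit 6) (k (nat_lit 0x98df0))))))) (v (nat_lit 5) (a (a (u (nat_lit 9) (v (nat_lit 9) (k (nat_lit 0x998b2)))) (v (nat_lit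 8) (u (nat_lit 9) (k (nat_lit 0xa57b0))))) (a (u (nat_lit 8) (a (v (nat_lit 9) (k (nat_lit 0xa57b0))) (v (nat_lit 8) (k (nat_lit 0x998b2))))) (a (v (nat_lit 6) (u (nat_lit 7) (k (nat_lit 0x99408)))) (u (nat_lit 6) (v (nat_lit 7) (k (nat_lit 0x99408)))))))))))))) (a (u (nat_lit 5) (a (a (v (nat_lit 7) (a (v (nat_lit 8) (a (v (nat_lit 9) (k (nat_lit 0x9cc00))) (v (nat_lit 8) (k (nat_lit 0x990c6))))) (v (nat_lit 7) (a (v (nat_lit 9) (k (nat_lit 0x99696))) (v (nat_lit 8) (k (nat_lit 0x99192))))))) (a (u (nat_lit 7) (a (v (nat_lit 8) (v (nat_lit 9) (k (nat_lit 0x9a002)))) (a (v (nat_lit 7) (u (nat_lit 8) (k (nat_lit 0x9161cd6)))) (u (nat_lit 7) (u (nat_lit 9) (k (nat_lit 0x6609522))))))) (v (nat_lit 6) (a (a (v (nat_lit 9) (v (nat_lit 9) (k (nat_lit 0x990c6)))) (v (nat_lit 8) (v (nat_lit 9) (k (nat_lit 0x9cc00))))) (a (v (nat_lit 7) (v (nat_lit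 7) (k (nat_lit 0x990a2)))) (v (nat_lit 6) (a (v (nat_lit 9) (k (nat_lit 0x99192))) (a (v (nat_lit 8) (k (nat_lit 0x99696))) (v (nat_lit 7) (k (nat_lit 0x990a2))))))))))) (a (u (nat_lit 6) (a (v (nat_lit 8) (v (nat_lit 9) (k (nat_lit 0x9a002)))) (a (v (nat_lit 6) (u (nat_lit 9) (k (nat_lit 0x9161cd6)))) (u (nat_lit 6) (u (nat_lit 8) (k (nat_lit 0x6609522))))))) (a (v (nat_lit 5) (a (a (v (nat_lit 7) (a (v (nat_lit 9) (k (nat_lit 0x9957c))) (a (v (nat_lit 8) (k (nat_lit 0x99b16))) (v (nat_lit 7) (k (nat_lit 0x99492)))))) (u (nat_lit 7) (a (v (nat_lit 8) (k (nat_lit 0x9c906))) (u (nat_lit 7) (k (nat_lit 0x2c43f96)))))) (a (v (nat_lit 6) (a (a (v (nat_lit 9) (k (nat_lit 0x99b16))) (v (nat_lit 8) (k (nat_lit 0x9957c)))) (a (v (nat_lit 7) (k (nat_lit 0x1332d8))) (v (nat_lit 6) (k (nat_lit 0x99492)))))) (a (u (nat_lit 6) (a (v (nat_lit 9) (k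 (nat_lit 0x9c906))) (u (nat_lit 6) (k (nat_lit 0x2c43f96))))) (v (nat_lit 5) (a (a (v (nat_lit 9) (k (nat_lit 0x99540))) (a (v (nat_lit 8) (k (nat_lit 0x99540))) (v (nat_lit 7) (k (nat_lit 0x990de))))) (a (a (u (nat_lit 7) (k (nat_lit 0x99b10))) (v (nat_lit 6) (k (nat_lit 0x990de)))) (a (u (nat_lit 6) (k (nat_lit 0x99b10))) (v (nat_lit 5) (k (nat_lit 0x1323d8))))))))))) (u (nat_lit 5) (u (nat_lit 5) (v (nat_lit 5) (k (nat_lit 0x42f8bb0))))))))) (a (t (nat_lit 5) (nat_lit 8) (nat_lit 9) (a (a (u (nat_lit 9) (u (nat_lit 9) (v (nat_lit 9) (k (nat_lit 0x996a2))))) (a (u (nat_lit 8) (u (nat_lit 8) (v (nat_lit 8) (k (nat_lit 0x996a2))))) (u (nat_lit 7) (u (nat_lit 9) (u (nat_lit 9) (k (nat_lit 0x673e642))))))) (a (a (u (nat_lit 6) (u (nat_lit 8) (u (nat_lit 8) (k (nat_lit 0x673e642))))) (v (nat_lit 5) (a (u (nat_lit 8) (u (nat_lit 9) (k (nat_lit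 0x46910e8)))) (a (u (nat_lit 7) (v (nat_lit 7) (k (nat_lit 0x990cc)))) (u (nat_lit 6) (v (nat_lit 6) (k (nat_lit 0x990cc)))))))) (a (u (nat_lit 5) (a (v (nat_lit 7) (v (nat_lit 7) (k (nat_lit 0x9a998)))) (a (v (nat_lit 6) (v (nat_lit 6) (k (nat_lit 0x9a998)))) (v (nat_lit 5) (a (u (nat_lit 7) (k (nat_lit 0x211854))) (u (nat_lit 6) (k (nat_lit 0x211854)))))))) (t (nat_lit 5) (nat_lit 8) (nat_lit 9) (a (u (nat_lit 9) (u (nat_lit 9) (k (nat_lit 0x99d32)))) (a (u (nat_lit 8) (u (nat_lit 8) (k (nat_lit 0x99d32)))) (u (nat_lit 5) (a (u (nat_lit 7) (k (nat_lit 0x145af46))) (a (u (nat_lit 6) (k (nat_lit 0x145af46))) (u (nat_lit 5) (k (nat_lit 0x1339e0))))))))))))) (v (nat_lit 4) (a (a (a (u (nat_lit 9) (a (v (nat_lit 9) (v (nat_lit 9) (k (nat_lit 0x9900c)))) (u (nat_lit 9) (v (nat_lit 9) (k (nat_lit 0x16aa006)))))) (v (nat_lit 8) (a (u (nat_lit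 9) (v (nat_lit 9) (k (nat_lit 0x99eee)))) (v (nat_lit 8) (u (nat_lit 9) (k (nat_lit 0xcac9260))))))) (a (u (nat_lit 8) (a (v (nat_lit 9) (v (nat_lit 9) (k (nat_lit 0xf6d8f0)))) (v (nat_lit 8) (v (nat_lit 8) (k (nat_lit 0x98c9a)))))) (a (v (nat_lit 7) (a (u (nat_lit 9) (v (nat_lit 9) (k (nat_lit 0x99450)))) (a (u (nat_lit 8) (v (nat_lit 9) (k (nat_lit 0x99228)))) (v (nat_lit 7) (u (nat_lit 8) (k (nat_lit 0x99852))))))) (u (nat_lit 7) (v (nat_lit 8) (v (nat_lit 8) (k (nat_lit 0x999fc)))))))) (a (a (v (nat_lit 6) (a (u (nat_lit 9) (u (nat_lit 9) (k (nat_lit 0x9baba)))) (v (nat_lit 6) (a (u (nat_lit 8) (k (nat_lit 0x9944a))) (u (nat_lit 7) (k (nat_lit 0x95ae4))))))) (a (u (nat_lit 6) (v (nat_lit 6) (v (nat_lit 6) (k (nat_lit 0x98d84))))) (v (nat_lit 5) (a (u (nat_lit 7) (a (v (nat_lit 9) (k (nat_lit 0x9945c))) (v (nat_lit 8) (k (nat_lit 0x9d33e)))))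 (v (nat_lit 6) (a (u (nat_lit 8) (k (nat_lit 0x9bece))) (u (nat_lit 7) (k (nat_lit 0x9a3e6))))))))) (a (u (nat_lit 5) (a (a (v (nat_lit 9) (v (nat_lit 9) (k (nat_lit 0x991c8)))) (v (nat_lit 8) (a (v (nat_lit 9) (k (nat_lit 0x99336))) (v (nat_lit 8) (k (nat_lit 0x99cae)))))) (a (v (nat_lit 5) (a (a (v (nat_lit 9) (k (nat_lit 0x99b04))) (v (nat_lit 8) (k (nat_lit 0x95dd2)))) (a (v (nat_lit 7) (k (nat_lit 0x99b4c))) (v (nat_lit 5) (k (nat_lit 0x9820e)))))) (u (nat_lit 5) (u (nat_lit 9) (k (nat_lit 0x1465740))))))) (a (t (nat_lit 5) (nat_lit 8) (nat_lit 9) (a (u (nat_lit 9) (u (nat_lit 9) (k (nat_lit 0xcee68)))) (a (u (nat_lit 8) (u (nat_lit 8) (k (nat_lit 0x5041a16)))) (t (nat_lit 5) (nat_lit 8) (nat_lit 9) (u (nat_lit 5) (k (nat_lit 0x9905a))))))) (v (nat_lit 4) (a (a (v (nat_lit 7) (a (u (nat_lit 9) (k (nat_lit 0x993ea))) (u (nat_lit 8)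 (k (nat_lit 0x9a626))))) (a (u (nat_lit 7) (v (nat_lit 7) (k (nat_lit 0x5549ac)))) (v (nat_lit 6) (u (nat_lit 9) (k (nat_lit 0x9cfa8)))))) (a (a (u (nat_lit 6) (a (v (nat_lit 8) (k (nat_lit 0x99efa))) (v (nat_lit 7) (k (nat_lit 0x9c54c))))) (u (nat_lit 5) (a (a (v (nat_lit 8) (k (nat_lit 0x9977a))) (v (nat_lit 7) (k (nat_lit 0x9a4a0)))) (a (v (nat_lit 6) (k (nat_lit 0x990cc))) (v (nat_lit 5) (k (nat_lit 0x99258))))))) (a (t (nat_lit 5) (nat_lit 8) (nat_lit 9) (u (nat_lit 9) (k (nat_lit 0x21072a2)))) (v (nat_lit 4) (u (nat_lit 5) (k (nat_lit 0x99024))))))))))))))))) (a (a (a (u (nat_lit 4) (a (a (a (v (nat_lit 7) (v (nat_lit 7) (a (v (nat_lit 9) (k (nat_lit 0x9926a))) (a (v (nat_lit 8) (k (nat_lit 0x99138))) (v (nat_lit 7) (k (nat_lit 0x98e62))))))) (u (nat_lit 7) (u (nat_lit 7) (v (nat_lit 7) (k (nat_lit 0x99768)))))) (a (v (nat_lit 6)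 (a (a (v (nat_lit 9) (v (nat_lit 9) (k (nat_lit 0x98fe8)))) (v (nat_lit 8) (a (v (nat_lit 9) (k (nat_lit 0xa76ece))) (v (nat_lit 8) (k (nat_lit 0x98dde)))))) (a (v (nat_lit 7) (a (v (nat_lit 9) (k (nat_lit 0x9a26c))) (a (v (nat_lit 8) (k (nat_lit 0x9cac8))) (v (nat_lit 7) (k (nat_lit 0x9939c)))))) (v (nat_lit 6) (a (v (nat_lit 9) (k (nat_lit 0x9903c))) (a (v (nat_lit 8) (k (nat_lit 0x98f8e))) (v (nat_lit 7) (k (nat_lit 0x96ffc))))))))) (u (nat_lit 6) (v (nat_lit 6) (u (nat_lit 7) (k (nat_lit 0x4426ede))))))) (a (a (v (nat_lit 5) (a (v (nat_lit 7) (v (nat_lit 7) (k (nat_lit 0x993b4)))) (a (v (nat_lit 6) (a (a (v (nat_lit 9) (k (nat_lit 0x99462))) (v (nat_lit 8) (k (nat_lit 0x998e2)))) (a (v (nat_lit 7) (k (nat_lit 0x99cfc))) (v (nat_lit 6) (k (nat_lit 0x9912c)))))) (v (nat_lit 5) (a (a (v (nat_lit 8) (k (nat_lit 0x9cc00))) (v (nat_lit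 7) (k (nat_lit 0x98f04)))) (a (v (nat_lit 6) (k (nat_lit 0x99156))) (v (nat_lit 5) (k (nat_lit 0x9a32c))))))))) (t (nat_lit 5) (nat_lit 8) (nat_lit 9) (v (nat_lit 6) (u (nat_lit 9) (k (nat_lit 0x99930)))))) (a (v (nat_lit 4) (a (a (a (v (nat_lit 9) (v (nat_lit 9) (k (nat_lit 0x99342)))) (u (nat_lit 9) (u (nat_lit 9) (k (nat_lit 0x35a1c62))))) (a (v (nat_lit 8) (a (v (nat_lit 9) (k (nat_lit 0x99588))) (v (nat_lit 8) (k (nat_lit 0x991e0))))) (v (nat_lit 6) (a (u (nat_lit 9) (k (nat_lit 0x9cfa8))) (v (nat_lit 6) (k (nat_lit 0x994b0))))))) (a (a (u (nat_lit 6) (u (nat_lit 8) (k (nat_lit 0x9b7cc)))) (v (nat_lit 5) (v (nat_lit 9) (k (nat_lit 0x99546))))) (a (t (nat_lit 5) (nat_lit 8) (nat_lit 9) (u (nat_lit 8) (k (nat_lit 0x9942c)))) (v (nat_lit 4) (a (a (v (nat_lit 9) (k (nat_lit 0x99144))) (v (nat_lit 8) (k (nat_lit 0x98724)))) (a (v (nat_lit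 7) (k (nat_lit 0x990c0))) (a (v (nat_lit 6) (k (nat_lit 0x98baa))) (v (nat_lit 4) (k (nat_lit 0x98f76))))))))))) (u (nat_lit 4) (a (t (nat_lit 5) (nat_lit 8) (nat_lit 9) (v (nat_lit 8) (k (nat_lit 0xd27c0fe)))) (v (nat_lit 4) (a (v (nat_lit 9) (k (nat_lit 0x18677832))) (a (u (nat_lit 7) (k (nat_lit 0x2eebe410))) (v (nat_lit 6) (k (nat_lit 0x11a7b1e)))))))))))) (t (nat_lit 4) (nat_lit 7) (nat_lit 9) (a (a (a (u (nat_lit 8) (u (nat_lit 8) (u (nat_lit 9) (k (nat_lit 0x99600))))) (u (nat_lit 7) (a (v (nat_lit 9) (v (nat_lit 9) (k (nat_lit 0x99d20)))) (u (nat_lit 7) (u (nat_lit 8) (k (nat_lit 0x31bee8c))))))) (a (v (nat_lit 6) (v (nat_lit 6) (u (nat_lit 7) (k (nat_lit 0x9b8ce))))) (a (u (nat_lit 6) (a (v (nat_lit 9) (v (nat_lit 9) (k (nat_lit 0x99114)))) (u (nat_lit 6) (u (nat_lit 8) (k (nat_lit 0x9a032)))))) (v (nat_lit 5) (u (nat_lit 6)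 (u (nat_lit 9) (k (nat_lit 0x9a560)))))))) (a (a (u (nat_lit 5) (a (v (nat_lit 9) (v (nat_lit 9) (k (nat_lit 0x252ef34)))) (v (nat_lit 6) (a (u (nat_lit 9) (k (nat_lit 0x994b0))) (v (nat_lit 6) (k (nat_lit 0x990ba))))))) (t (nat_lit 5) (nat_lit 8) (nat_lit 9) (u (nat_lit 9) (u (nat_lit 9) (k (nat_lit 0x9967e)))))) (a (v (nat_lit 4) (u (nat_lit 7) (v (nat_lit 7) (k (nat_lit 0x990ae))))) (a (u (nat_lit 4) (a (u (nat_lit 7) (v (nat_lit 9) (k (nat_lit 0x1a24da8)))) (u (nat_lit 4) (a (a (u (nat_lit 7) (k (nat_lit 0x777a26))) (u (nat_lit 6) (k (nat_lit 0xcb9a06)))) (a (u (nat_lit 5) (k (nat_lit 0x1a2f0d4))) (u (nat_lit 4) (k (nat_lit 0x49a5ede)))))))) (t (nat_lit 4) (nat_lit 7) (nat_lit 9) (a (a (u (nat_lit 9) (u (nat_lit 9) (k (nat_lit 0x1a243d6)))) (a (v (nat_lit 7) (u (nat_lit 8) (k (nat_lit 0x98f2e)))) (u (nat_lit 6) (u (nat_lit 8) (k (nat_lit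 0x98e74)))))) (a (u (nat_lit 5) (v (nat_lit 5) (k (nat_lit 0x9921c)))) (a (t (nat_lit 5) (nat_lit 8) (nat_lit 9) (u (nat_lit 7) (k (nat_lit 0x98e20)))) (t (nat_lit 4) (nat_lit 7) (nat_lit 9) (a (a (u (nat_lit 8) (k (nat_lit 0x99198))) (u (nat_lit 7) (k (nat_lit 0x98d9c)))) (a (u (nat_lit 6) (k (nat_lit 0xaba24e))) (u (nat_lit 5) (k (nat_lit 0x11ef104)))))))))))))))) (a (v (nat_lit 3) (a (a (a (u (nat_lit 9) (v (nat_lit 9) (v (nat_lit 9) (k (nat_lit 0x991b0))))) (a (v (nat_lit 8) (u (nat_lit 9) (v (nat_lit 9) (k (nat_lit 0x9965a))))) (u (nat_lit 8) (a (v (nat_lit 8) (a (v (nat_lit 9) (k (nat_lit 0x9957c))) (v (nat_lit 8) (k (nat_lit 0x99846))))) (u (nat_lit 8) (v (nat_lit 8) (k (nat_lit 0xbea9118)))))))) (a (a (v (nat_lit 7) (v (nat_lit 7) (u (nat_lit 8) (k (nat_lit 0x996e4))))) (u (nat_lit 7) (a (v (nat_lit 9) (v (nat_lit 9) (k (nat_lit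 0x99312)))) (a (v (nat_lit 8) (a (v (nat_lit 9) (k (nat_lit 0x96a26))) (v (nat_lit 8) (k (nat_lit 0x99216))))) (v (nat_lit 7) (a (v (nat_lit 9) (k (nat_lit 0x988a4))) (a (v (nat_lit 8) (k (nat_lit 0x97ad0))) (v (nat_lit 7) (k (nat_lit 0x9e62e)))))))))) (a (v (nat_lit 6) (a (a (u (nat_lit 9) (v (nat_lit 9) (k (nat_lit 0x9c8e8)))) (v (nat_lit 8) (u (nat_lit 9) (k (nat_lit 0x988aa))))) (a (u (nat_lit 8) (a (v (nat_lit 9) (k (nat_lit 0x99e40))) (a (u (nat_lit 9) (k (nat_lit 0x2183910))) (v (nat_lit 8) (k (nat_lit 0x97a58)))))) (a (u (nat_lit 7) (a (v (nat_lit 9) (k (nat_lit 0x995c4))) (a (v (nat_lit 8) (k (nat_lit 0x999f0))) (u (nat_lit 7) (k (nat_lit 0x4111fec)))))) (v (nat_lit 6) (a (u (nat_lit 9) (k (nat_lit 0x9b6be))) (a (u (nat_lit 8) (k (nat_lit 0x9997e))) (u (nat_lit 7) (k (nat_lit 0x463350)))))))))) (u (nat_lit 6) (a (v (nat_lit 9)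 (v (nat_lit 9) (k (nat_lit 0xdfd97c)))) (a (v (nat_lit 8) (a (v (nat_lit 9) (k (nat_lit 0x9bb50))) (v (nat_lit 8) (k (nat_lit 0x9acc8))))) (v (nat_lit 6) (v (nat_lit 6) (k (nat_lit 0x9a8f6)))))))))) (a (a (v (nat_lit 5) (a (a (u (nat_lit 9) (v (nat_lit 9) (k (nat_lit 0x998b2)))) (u (nat_lit 8) (a (v (nat_lit 9) (k (nat_lit 0x9d002))) (v (nat_lit 8) (k (nat_lit 0x99a1a)))))) (a (u (nat_lit 7) (a (v (nat_lit 9) (k (nat_lit 0x99fcc))) (a (v (nat_lit 8) (k (nat_lit 0xb926f8))) (v (nat_lit 7) (k (nat_lit 0x18d04ca)))))) (a (v (nat_lit 6) (a (u (nat_lit 8) (k (nat_lit 0x9506a))) (u (nat_lit 7) (k (nat_lit 0x99e1c))))) (u (nat_lit 6) (a (v (nat_lit 9) (k (nat_lit 0x9a1be))) (a (v (nat_lit 8) (k (nat_lit 0xc4ae2))) (v (nat_lit 7) (k (nat_lit 0xbb878ea)))))))))) (a (u (nat_lit 5) (a (v (nat_lit 6) (a (v (nat_lit 9) (k (nat_lit 0x98760))) (a (v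 (nat_lit 8) (k (nat_lit 0x9e850))) (v (nat_lit 6) (k (nat_lit 0x9c444)))))) (v (nat_lit 5) (a (a (v (nat_lit 9) (k (nat_lit 0x994ec))) (v (nat_lit 8) (k (nat_lit 0xa6df4)))) (a (v (nat_lit 6) (k (nat_lit 0x994ec))) (v (nat_lit 5) (k (nat_lit 0x9b8e6)))))))) (t (nat_lit 5) (nat_lit 8) (nat_lit 9) (a (a (u (nat_lit 9) (u (nat_lit 9) (k (nat_lit 0x7041d8)))) (u (nat_lit 8) (u (nat_lit 8) (k (nat_lit 0x38eed26))))) (a (u (nat_lit 6) (u (nat_lit 9) (k (nat_lit 0x99600)))) (t (nat_lit 5) (nat_lit 8) (nat_lit 9) (u (nat_lit 5) (k (nat_lit 0x16f6584))))))))) (a (a (v (nat_lit 4) (a (a (v (nat_lit 6) (a (u (nat_lit 9) (k (nat_lit 0x99378))) (a (u (nat_lit 8) (k (nat_lit 0x99d68))) (u (nat_lit 7) (k (nat_lit 0x27c5508)))))) (u (nat_lit 6) (v (nat_lit 6) (k (nat_lit 0xa2b9a))))) (a (u (nat_lit 5) (a (v (nat_lit 6) (k (nat_lit 0x966ea))) (u (nat_lit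 5) (k (nat_lit 0x9830a))))) (t (nat_lit 5) (nat_lit 8) (nat_lit 9) (u (nat_lit 9) (k (nat_lit 0x4a9a780))))))) (u (nat_lit 4) (a (v (nat_lit 6) (a (v (nat_lit 7) (k (nat_lit 0x9b094))) (v (nat_lit 6) (k (nat_lit 0x8fa9c))))) (a (v (nat_lit 5) (v (nat_lit 6) (k (nat_lit 0x9c222)))) (v (nat_lit 4) (v (nat_lit 6) (k (nat_lit 0x993e4)))))))) (a (t (nat_lit 4) (nat_lit 7) (nat_lit 9) (a (a (u (nat_lit 7) (u (nat_lit 7) (k (nat_lit 0x506e9aa)))) (u (nat_lit 6) (u (nat_lit 7) (k (nat_lit 0xa092c))))) (a (t (nat_lit 5) (nat_lit 8) (nat_lit 9) (u (nat_lit 5) (k (nat_lit 0x1b3008a)))) (t (nat_lit 4) (nat_lit 7) (nat_lit 9) (a (u (nat_lit 9) (k (nat_lit 0x990ae))) (u (nat_lit 8) (k (nat_lit 0xf19c4a)))))))) (v (nat_lit 3) (a (a (a (u (nat_lit 9) (v (nat_lit 9) (k (nat_lit 0x52cc770)))) (u (nat_lit 7) (a (v (nat_lit 9) (k (nat_lit 0xe639a))) (v (nat_lit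 8) (k (nat_lit 0x9a122)))))) (a (v (nat_lit 6) (u (nat_lit 7) (k (nat_lit 0x9b16c)))) (u (nat_lit 6) (v (nat_lit 6) (k (nat_lit 0xa174146)))))) (a (a (u (nat_lit 5) (a (v (nat_lit 6) (k (nat_lit 0x9966c))) (a (v (nat_lit 5) (k (nat_lit 0x371e428))) (u (nat_lit 5) (k (nat_lit 0x994da)))))) (t (nat_lit 5) (nat_lit 8) (nat_lit 9) (a (u (nat_lit 9) (k (nat_lit 0xab1128))) (a (u (nat_lit 8) (k (nat_lit 0x1bca9b0))) (u (nat_lit 7) (k (nat_lit 0x9973e))))))) (a (u (nat_lit 4) (a (a (v (nat_lit 9) (k (nat_lit 0x99840))) (a (v (nat_lit 8) (k (nat_lit 0x992d0))) (v (nat_lit 7) (k (nat_lit 0x99a74))))) (a (v (nat_lit 6) (k (nat_lit 0x9ad10))) (a (v (nat_lit 5) (k (nat_lit 0x80038d4))) (v (nat_lit 4) (k (nat_lit 0x113d18))))))) (a (t (nat_lit 4) (nat_lit 7) (nat_lit 9) (a (u (nat_lit 9) (k (nat_lit 0xc47ffe2))) (u (nat_lit 6) (k (nat_lit 0x31a4348)))))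 (v (nat_lit 3) (a (u (nat_lit 5) (k (nat_lit 0x99768))) (u (nat_lit 4) (k (nat_lit 0x99072))))))))))))))) (a (u (nat_lit 3) (a (a (a (v (nat_lit 7) (a (v (nat_lit 8) (u (nat_lit 9) (k (nat_lit 0x96c36)))) (v (nat_lit 7) (a (v (nat_lit 9) (k (nat_lit 0x9a620))) (v (nat_lit 8) (k (nat_lit 0xa077c))))))) (u (nat_lit 7) (u (nat_lit 7) (v (nat_lit 8) (k (nat_lit 0x6043c7a)))))) (a (v (nat_lit 6) (a (a (v (nat_lit 9) (v (nat_lit 9) (k (nat_lit 0x99c3c)))) (v (nat_lit 8) (a (v (nat_lit 9) (k (nat_lit 0x96fd2))) (v (nat_lit 8) (k (nat_lit 0x99654)))))) (a (v (nat_lit 7) (v (nat_lit 7) (k (nat_lit 0x99240)))) (v (nat_lit 6) (a (v (nat_lit 9) (k (nat_lit 0x96e22))) (a (v (nat_lit 8) (k (nat_lit 0x987f6))) (v (nat_lit 6) (k (nat_lit 0x98fb2))))))))) (a (u (nat_lit 6) (v (nat_lit 6) (a (v (nat_lit 8) (k (nat_lit 0x16c142f4))) (v (nat_lit 7) (k (nat_lit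 0x9ce04)))))) (v (nat_lit 5) (a (v (nat_lit 7) (v (nat_lit 7) (k (nat_lit 0x9c5ca)))) (a (v (nat_lit 6) (a (v (nat_lit 9) (k (nat_lit 0x9a6fe))) (a (v (nat_lit 8) (k (nat_lit 0x9b370))) (v (nat_lit 6) (k (nat_lit 0x963f0)))))) (v (nat_lit 5) (a (v (nat_lit 7) (k (nat_lit 0x98fc4))) (v (nat_lit 5) (k (nat_lit 0x97bea))))))))))) (a (a (u (nat_lit 5) (a (u (nat_lit 7) (u (nat_lit 9) (k (nat_lit 0x5ba5d82)))) (u (nat_lit 6) (u (nat_lit 7) (k (nat_lit 0x9942c)))))) (v (nat_lit 4) (a (a (v (nat_lit 9) (v (nat_lit 9) (k (nat_lit 0x991c2)))) (v (nat_lit 8) (a (v (nat_lit 9) (k (nat_lit 0x99342))) (v (nat_lit 8) (k (nat_lit 0x315a50)))))) (a (v (nat_lit 7) (a (v (nat_lit 9) (k (nat_lit 0x997a4))) (a (v (nat_lit 8) (k (nat_lit 0x9992a))) (v (nat_lit 7) (k (nat_lit 0x99b52)))))) (a (v (nat_lit 5) (a (a (v (nat_lit 9) (k (nat_lit 0x99186))) (v (nat_lit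 8) (k (nat_lit 0x9914a)))) (a (v (nat_lit 7) (k (nat_lit 0x99204))) (v (nat_lit 5) (k (nat_lit 0x9823e)))))) (v (nat_lit 4) (a (a (v (nat_lit 9) (k (nat_lit 0x98ffa))) (v (nat_lit 8) (k (nat_lit 0x99354)))) (a (v (nat_lit 7) (k (nat_lit 0x992ac))) (a (v (nat_lit 5) (k (nat_lit 0x99414))) (v (nat_lit 4) (k (nat_lit 0x99198)))))))))))) (a (t (nat_lit 4) (nat_lit 7) (nat_lit 9) (a (a (u (nat_lit 8) (u (nat_lit 8) (k (nat_lit 0x99288)))) (v (nat_lit 6) (v (nat_lit 6) (k (nat_lit 0x9a9b0))))) (a (t (nat_lit 5) (nat_lit 8) (nat_lit 9) (t (nat_lit 5) (nat_lit 8) (nat_lit 9) (k (nat_lit 0x995a6)))) (a (u (nat_lit 4) (u (nat_lit 8) (k (nat_lit 0x99b6a)))) (t (nat_lit 4) (nat_lit 7) (nat_lit 9) (a (u (nat_lit 6) (k (nat_lit 0x992ac))) (t (nat_lit 4) (nat_lit 7) (nat_lit 9) (k (nat_lit 0x7b4e6c))))))))) (a (v (nat_lit 3) (a (a (a (v (nat_lit 9)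 (v (nat_lit 9) (k (nat_lit 0x99a1a)))) (v (nat_lit 8) (a (v (nat_lit 9) (k (nat_lit 0x9945c))) (v (nat_lit 8) (k (nat_lit 0x99180)))))) (a (v (nat_lit 7) (v (nat_lit 7) (k (nat_lit 0x9908a)))) (v (nat_lit 6) (a (v (nat_lit 9) (k (nat_lit 0x99420))) (a (v (nat_lit 8) (k (nat_lit 0x9919e))) (v (nat_lit 6) (k (nat_lit 0x99216)))))))) (a (a (v (nat_lit 5) (a (a (v (nat_lit 9) (k (nat_lit 0x99450))) (a (u (nat_lit 9) (k (nat_lit 0x9b49c))) (v (nat_lit 8) (k (nat_lit 0x99d0e))))) (a (v (nat_lit 7) (k (nat_lit 0x96792))) (a (v (nat_lit 6) (k (nat_lit 0x9902a))) (v (nat_lit 5) (k (nat_lit 0x9ad46))))))) (v (nat_lit 4) (a (a (v (nat_lit 9) (k (nat_lit 0x98b92))) (a (u (nat_lit 9) (k (nat_lit 0xe7285d8))) (v (nat_lit 8) (k (nat_lit 0x98d9c))))) (a (a (v (nat_lit 7) (k (nat_lit 0x996de))) (v (nat_lit 6) (k (nat_lit 0x9921c)))) (a (v (nat_lit 5)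 (k (nat_lit 0x11ff544))) (v (nat_lit 4) (k (nat_lit 0x999d2)))))))) (a (t (nat_lit 4) (nat_lit 7) (nat_lit 9) (t (nat_lit 4) (nat_lit 7) (nat_lit 9) (k (nat_lit 0xa0921b6)))) (v (nat_lit 3) (a (a (v (nat_lit 9) (k (nat_lit 0x997b0))) (a (v (nat_lit 8) (k (nat_lit 0x99a56))) (u (nat_lit 8) (k (nat_lit 0xd66cce6))))) (a (a (v (nat_lit 7) (k (nat_lit 0x98be0))) (v (nat_lit 6) (k (nat_lit 0x99270)))) (a (v (nat_lit 4) (k (nat_lit 0x254170e))) (v (nat_lit 3) (k (nat_lit 0x132dbc))))))))))) (u (nat_lit 3) (a (a (u (nat_lit 9) (v (nat_lit 9) (k (nat_lit 0xad4d2)))) (a (v (nat_lit 7) (a (v (nat_lit 9) (k (nat_lit 0x98e38))) (v (nat_lit 7) (k (nat_lit 0xcd62d7a))))) (v (nat_lit 6) (a (v (nat_lit 8) (k (nat_lit 0x9a452))) (v (nat_lit 7) (k (nat_lit 0x3444fc0))))))) (a (a (v (nat_lit 5) (v (nat_lit 7) (k (nat_lit 0x96f90)))) (t (nat_lit 4) (nat_lit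 7) (nat_lit 9) (a (v (nat_lit 7) (k (nat_lit 0x9a1a6))) (u (nat_lit 4) (k (nat_lit 0x9ad58)))))) (a (v (nat_lit 3) (a (v (nat_lit 4) (k (nat_lit 0x992b8))) (t (nat_lit 4) (nat_lit 7) (nat_lit 9) (k (nat_lit 0x9972c))))) (u (nat_lit 3) (v (nat_lit 7) (k (nat_lit 0x993b4))))))))))))) (v (nat_lit 2) (a (a (a (a (u (nat_lit 9) (a (v (nat_lit 9) (v (nat_lit 9) (k (nat_lit 0x99846)))) (u (nat_lit 9) (v (nat_lit 9) (k (nat_lit 0xbea9118)))))) (v (nat_lit 8) (u (nat_lit 9) (v (nat_lit 9) (k (nat_lit 0x9957c)))))) (a (u (nat_lit 8) (v (nat_lit 8) (a (v (nat_lit 9) (k (nat_lit 0x9965a))) (v (nat_lit 8) (k (nat_lit 0x991b0)))))) (v (nat_lit 7) (a (a (u (nat_lit 9) (v (nat_lit 9) (k (nat_lit 0x97a58)))) (v (nat_lit 8) (u (nat_lit 9) (k (nat_lit 0x99e40))))) (a (u (nat_lit 8) (a (v (nat_lit 9) (k (nat_lit 0x988aa))) (a (u (nat_lit 9) (k (nat_lit 0x2183910)))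 (v (nat_lit 8) (k (nat_lit 0x9c8e8)))))) (v (nat_lit 7) (a (u (nat_lit 9) (k (nat_lit 0x9997e))) (u (nat_lit 8) (k (nat_lit 0x9b6be)))))))))) (a (a (u (nat_lit 7) (a (v (nat_lit 9) (v (nat_lit 9) (k (nat_lit 0x9acc8)))) (a (v (nat_lit 8) (a (v (nat_lit 9) (k (nat_lit 0x9bb50))) (v (nat_lit 8) (k (nat_lit 0xdfd97c))))) (v (nat_lit 7) (v (nat_lit 7) (k (nat_lit 0x9a8f6))))))) (v (nat_lit 6) (v (nat_lit 6) (u (nat_lit 9) (k (nat_lit 0x996e4)))))) (a (u (nat_lit 6) (a (a (v (nat_lit 9) (v (nat_lit 9) (k (nat_lit 0x99216)))) (v (nat_lit 8) (a (v (nat_lit 9) (k (nat_lit 0x96a26))) (v (nat_lit 8) (k (nat_lit 0x99312)))))) (a (v (nat_lit 7) (a (v (nat_lit 9) (k (nat_lit 0x999f0))) (a (v (nat_lit 8) (k (nat_lit 0x995c4))) (v (nat_lit 7) (k (nat_lit 0x463350)))))) (a (v (nat_lit 6) (a (v (nat_lit 9) (k (nat_lit 0x97ad0))) (a (v (nat_lit 8) (k (nat_lit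 0x988a4))) (v (nat_lit 6) (k (nat_lit 0x9e62e)))))) (u (nat_lit 6) (v (nat_lit 7) (k (nat_lit 0x4111fec)))))))) (v (nat_lit 5) (a (a (u (nat_lit 9) (v (nat_lit 9) (k (nat_lit 0x99a1a)))) (a (v (nat_lit 8) (u (nat_lit 9) (k (nat_lit 0x9d002)))) (u (nat_lit 8) (v (nat_lit 8) (k (nat_lit 0x998b2)))))) (a (a (v (nat_lit 7) (u (nat_lit 9) (k (nat_lit 0x9506a)))) (u (nat_lit 7) (a (v (nat_lit 9) (k (nat_lit 0xc4ae2))) (v (nat_lit 8) (k (nat_lit 0x9a1be)))))) (a (v (nat_lit 6) (u (nat_lit 7) (k (nat_lit 0xbb878ea)))) (u (nat_lit 6) (a (a (v (nat_lit 9) (k (nat_lit 0xb926f8))) (v (nat_lit 8) (k (nat_lit 0x99fcc)))) (a (v (nat_lit 7) (k (nat_lit 0x99e1c))) (v (nat_lit 6) (k (nat_lit 0x18d04ca))))))))))))) (a (a (a (u (nat_lit 5) (a (v (nat_lit 7) (a (v (nat_lit 9) (k (nat_lit 0x9e850))) (a (v (nat_lit 8) (k (nat_lit 0x98760))) (v (nat_lit 7) (k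 (nat_lit 0x9c444)))))) (v (nat_lit 5) (a (a (v (nat_lit 9) (k (nat_lit 0xa6df4))) (v (nat_lit 8) (k (nat_lit 0x994ec)))) (a (v (nat_lit 7) (k (nat_lit 0x994ec))) (v (nat_lit 5) (k (nat_lit 0x9b8e6)))))))) (t (nat_lit 5) (nat_lit 8) (nat_lit 9) (a (a (u (nat_lit 9) (u (nat_lit 9) (k (nat_lit 0x38eed26)))) (u (nat_lit 8) (u (nat_lit 8) (k (nat_lit 0x7041d8))))) (a (u (nat_lit 7) (u (nat_lit 8) (k (nat_lit 0x99600)))) (t (nat_lit 5) (nat_lit 8) (nat_lit 9) (u (nat_lit 5) (k (nat_lit 0x16f6584)))))))) (a (v (nat_lit 4) (a (v (nat_lit 6) (a (u (nat_lit 8) (k (nat_lit 0x72a8cd8))) (u (nat_lit 7) (k (nat_lit 0xd7e93fe))))) (a (u (nat_lit 6) (a (v (nat_lit 9) (k (nat_lit 0x99420))) (a (v (nat_lit 8) (k (nat_lit 0x99924))) (v (nat_lit 7) (k (nat_lit 0x96f9c)))))) (u (nat_lit 5) (u (nat_lit 7) (k (nat_lit 0x9b166))))))) (u (nat_lit 4) (a (a (v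 (nat_lit 9) (v (nat_lit 9) (k (nat_lit 0x97548)))) (u (nat_lit 7) (v (nat_lit 7) (k (nat_lit 0x99e1c))))) (a (v (nat_lit 6) (u (nat_lit 7) (k (nat_lit 0x969ba)))) (a (v (nat_lit 5) (v (nat_lit 6) (k (nat_lit 0x992be)))) (u (nat_lit 4) (a (a (v (nat_lit 9) (k (nat_lit 0x976ec))) (v (nat_lit 8) (k (nat_lit 0x97fce)))) (a (v (nat_lit 5) (k (nat_lit 0x572fa78))) (v (nat_lit 4) (k (nat_lit 0x99c00)))))))))))) (a (a (t (nat_lit 4) (nat_lit 7) (nat_lit 9) (a (a (u (nat_lit 9) (u (nat_lit 9) (k (nat_lit 0x99e40)))) (u (nat_lit 8) (u (nat_lit 9) (k (nat_lit 0x2416344))))) (a (u (nat_lit 5) (a (v (nat_lit 9) (k (nat_lit 0xa1f40))) (v (nat_lit 6) (k (nat_lit 0x36ddf8e))))) (v (nat_lit 4) (a (u (nat_lit 9) (k (nat_lit 0x99228))) (a (u (nat_lit 8) (k (nat_lit 0xe1f282c))) (u (nat_lit 7) (k (nat_lit 0x113d6d2))))))))) (v (nat_lit 3) (a (a (v (nat_lit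 6) (u (nat_lit 7) (k (nat_lit 0xab6ea)))) (u (nat_lit 6) (v (nat_lit 7) (k (nat_lit 0xab6ea))))) (a (u (nat_lit 5) (a (a (v (nat_lit 9) (k (nat_lit 0x98ac6))) (v (nat_lit 8) (k (nat_lit 0x98ac6)))) (a (u (nat_lit 7) (k (nat_lit 0x9ac7a))) (a (u (nat_lit 6) (k (nat_lit 0x9ac7a))) (v (nat_lit 5) (k (nat_lit 0x13773c))))))) (a (u (nat_lit 4) (v (nat_lit 6) (k (nat_lit 0x9ae66)))) (v (nat_lit 3) (u (nat_lit 4) (k (nat_lit 0x9a2b4))))))))) (a (u (nat_lit 3) (a (a (a (v (nat_lit 9) (v (nat_lit 9) (k (nat_lit 0x990a8)))) (v (nat_lit 8) (v (nat_lit 9) (k (nat_lit 0x994c2))))) (a (u (nat_lit 8) (u (nat_lit 9) (k (nat_lit 0x97353a2)))) (a (v (nat_lit 7) (a (v (nat_lit 9) (k (nat_lit 0x9b4d8))) (a (v (nat_lit 8) (k (nat_lit 0x9967e))) (v (nat_lit 7) (k (nat_lit 0x996c0)))))) (u (nat_lit 6) (a (u (nat_lit 8) (k (nat_lit 0x1590f30c))) (v (nat_lit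 6) (k (nat_lit 0x8264700)))))))) (a (a (v (nat_lit 5) (a (a (v (nat_lit 9) (k (nat_lit 0x99e64))) (u (nat_lit 8) (k (nat_lit 0x3659d06)))) (a (v (nat_lit 7) (k (nat_lit 0x9affe))) (v (nat_lit 5) (k (nat_lit 0x97fda)))))) (t (nat_lit 5) (nat_lit 8) (nat_lit 9) (a (v (nat_lit 6) (k (nat_lit 0x9ec04))) (u (nat_lit 5) (k (nat_lit 0x99744)))))) (a (v (nat_lit 4) (u (nat_lit 8) (k (nat_lit 0x312396)))) (a (v (nat_lit 3) (a (a (a (v (nat_lit 9) (k (nat_lit 0x9934e))) (u (nat_lit 9) (k (nat_lit 0x1dbd815e)))) (a (v (nat_lit 8) (k (nat_lit 0x9993c))) (v (nat_lit 7) (k (nat_lit 0x995e8))))) (a (a (v (nat_lit 6) (k (nat_lit 0x9932a))) (u (nat_lit 6) (k (nat_lit 0xdedfe96)))) (a (v (nat_lit 5) (k (nat_lit 0x99690))) (a (v (nat_lit 4) (k (nat_lit 0x998d0))) (v (nat_lit 3) (k (nat_lit 0x989f4)))))))) (u (nat_lit 3) (v (nat_lit 3) (k (nat_lit 0x11df6b7c)))))))))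 (v (nat_lit 2) (a (a (a (u (nat_lit 8) (v (nat_lit 8) (k (nat_lit 0x52cc770)))) (u (nat_lit 7) (v (nat_lit 7) (k (nat_lit 0xa174146))))) (a (u (nat_lit 6) (a (v (nat_lit 9) (k (nat_lit 0x9a122))) (a (v (nat_lit 8) (k (nat_lit 0xe639a))) (v (nat_lit 7) (k (nat_lit 0x9b16c)))))) (u (nat_lit 5) (a (v (nat_lit 7) (k (nat_lit 0x9966c))) (a (v (nat_lit 5) (k (nat_lit 0x371e428))) (u (nat_lit 5) (k (nat_lit 0x994da)))))))) (a (a (t (nat_lit 5) (nat_lit 8) (nat_lit 9) (a (u (nat_lit 9) (k (nat_lit 0x1bca9b0))) (a (u (nat_lit 8) (k (nat_lit 0xab1128))) (u (nat_lit 6) (k (nat_lit 0x9973e)))))) (t (nat_lit 4) (nat_lit 7) (nat_lit 9) (u (nat_lit 5) (k (nat_lit 0x9a3f2))))) (a (u (nat_lit 3) (a (a (u (nat_lit 8) (k (nat_lit 0x9a53c))) (v (nat_lit 5) (k (nat_lit 0x999a8)))) (a (v (nat_lit 3) (k (nat_lit 0x992e2))) (u (nat_lit 3) (k (nat_lit 0xb6c8b24))))))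 (v (nat_lit 2) (u (nat_lit 5) (k (nat_lit 0x99768)))))))))))))))) (a (a (u (nat_lit 2) (a (a (a (v (nat_lit 7) (a (v (nat_lit 9) (v (nat_lit 9) (k (nat_lit 0x99654)))) (a (v (nat_lit 8) (a (v (nat_lit 9) (k (nat_lit 0x96fd2))) (v (nat_lit 8) (k (nat_lit 0x99c3c))))) (v (nat_lit 7) (a (v (nat_lit 9) (k (nat_lit 0x987f6))) (a (v (nat_lit 8) (k (nat_lit 0x96e22))) (v (nat_lit 7) (k (nat_lit 0x98fb2))))))))) (a (u (nat_lit 7) (v (nat_lit 7) (v (nat_lit 9) (k (nat_lit 0x16c142f4))))) (v (nat_lit 6) (a (u (nat_lit 8) (v (nat_lit 9) (k (nat_lit 0x96c36)))) (a (u (nat_lit 7) (v (nat_lit 7) (k (nat_lit 0x9ce04)))) (v (nat_lit 6) (a (v (nat_lit 9) (k (nat_lit 0xa077c))) (a (v (nat_lit 8) (k (nat_lit 0x9a620))) (v (nat_lit 7) (k (nat_lit 0x99240))))))))))) (a (u (nat_lit 6) (u (nat_lit 6) (v (nat_lit 9) (k (nat_lit 0x6043c7a))))) (a (v (nat_lit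 5) (a (v (nat_lit 7) (a (v (nat_lit 9) (k (nat_lit 0x9b370))) (a (v (nat_lit 8) (k (nat_lit 0x9a6fe))) (v (nat_lit 7) (k (nat_lit 0x963f0)))))) (a (v (nat_lit 6) (v (nat_lit 6) (k (nat_lit 0x9c5ca)))) (v (nat_lit 5) (a (v (nat_lit 6) (k (nat_lit 0x98fc4))) (v (nat_lit 5) (k (nat_lit 0x97bea)))))))) (u (nat_lit 5) (u (nat_lit 6) (a (u (nat_lit 8) (k (nat_lit 0x5ba5d82))) (u (nat_lit 7) (k (nat_lit 0x9942c))))))))) (a (a (v (nat_lit 4) (a (a (v (nat_lit 9) (v (nat_lit 9) (k (nat_lit 0x9ac2c)))) (a (v (nat_lit 8) (a (v (nat_lit 9) (k (nat_lit 0x992ac))) (v (nat_lit 8) (k (nat_lit 0x3f83eec))))) (v (nat_lit 7) (a (v (nat_lit 9) (k (nat_lit 0x9971a))) (a (v (nat_lit 8) (k (nat_lit 0x99a08))) (v (nat_lit 7) (k (nat_lit 0x9f9ba)))))))) (a (v (nat_lit 6) (v (nat_lit 6) (k (nat_lit 0x99144)))) (a (v (nat_lit 5) (a (a (v (nat_lit 9) (k (nat_lit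 0x996e4))) (v (nat_lit 8) (k (nat_lit 0x99180)))) (a (v (nat_lit 7) (k (nat_lit 0x99fa2))) (v (nat_lit 5) (k (nat_lit 0x9975c)))))) (v (nat_lit 4) (a (a (v (nat_lit 9) (k (nat_lit 0x97134))) (a (v (nat_lit 8) (k (nat_lit 0x984a2))) (v (nat_lit 7) (k (nat_lit 0x999f6))))) (a (v (nat_lit 6) (k (nat_lit 0x98c40))) (a (v (nat_lit 5) (k (nat_lit 0x9834c))) (v (nat_lit 4) (k (nat_lit 0x98cac))))))))))) (a (u (nat_lit 4) (a (t (nat_lit 5) (nat_lit 8) (nat_lit 9) (v (nat_lit 7) (k (nat_lit 0x7115370)))) (a (v (nat_lit 4) (u (nat_lit 8) (k (nat_lit 0x1640e5c)))) (u (nat_lit 4) (u (nat_lit 4) (k (nat_lit 0x98b80))))))) (t (nat_lit 4) (nat_lit 7) (nat_lit 9) (a (v (nat_lit 7) (u (nat_lit 9) (k (nat_lit 0x9be2c)))) (a (t (nat_lit 5) (nat_lit 8) (nat_lit 9) (u (nat_lit 7) (k (nat_lit 0xa2d2c)))) (u (nat_lit 4) (v (nat_lit 5) (k (nat_lit 0x99300)))))))))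 (a (v (nat_lit 3) (a (a (a (v (nat_lit 8) (a (v (nat_lit 9) (k (nat_lit 0x994c2))) (v (nat_lit 8) (k (nat_lit 0x990a8))))) (u (nat_lit 8) (u (nat_lit 9) (k (nat_lit 0x97353a2))))) (a (u (nat_lit 7) (a (u (nat_lit 9) (k (nat_lit 0x1590f30c))) (v (nat_lit 7) (k (nat_lit 0x8264700))))) (v (nat_lit 6) (a (v (nat_lit 9) (k (nat_lit 0x9967e))) (a (v (nat_lit 8) (k (nat_lit 0x9b4d8))) (v (nat_lit 6) (k (nat_lit 0x996c0)))))))) (a (a (v (nat_lit 5) (a (a (u (nat_lit 9) (k (nat_lit 0x3659d06))) (v (nat_lit 8) (k (nat_lit 0x99e64)))) (a (v (nat_lit 6) (k (nat_lit 0x9affe))) (v (nat_lit 5) (k (nat_lit 0x97fda)))))) (t (nat_lit 5) (nat_lit 8) (nat_lit 9) (a (v (nat_lit 7) (k (nat_lit 0x9ec04))) (u (nat_lit 5) (k (nat_lit 0x99744)))))) (a (v (nat_lit 4) (a (a (v (nat_lit 9) (k (nat_lit 0x996f0))) (a (v (nat_lit 8) (k (nat_lit 0x99762))) (u (nat_lit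 8) (k (nat_lit 0x7224f18))))) (a (a (v (nat_lit 7) (k (nat_lit 0x99bc4))) (v (nat_lit 6) (k (nat_lit 0x97bd8)))) (a (v (nat_lit 5) (k (nat_lit 0x9ad34))) (v (nat_lit 4) (k (nat_lit 0x99648))))))) (a (t (nat_lit 4) (nat_lit 7) (nat_lit 9) (u (nat_lit 6) (k (nat_lit 0x99816)))) (v (nat_lit 3) (a (u (nat_lit 9) (k (nat_lit 0x9a53c))) (a (v (nat_lit 5) (k (nat_lit 0x999a8))) (v (nat_lit 4) (k (nat_lit 0xdff3b9c))))))))))) (a (v (nat_lit 2) (a (a (a (v (nat_lit 9) (v (nat_lit 9) (k (nat_lit 0x99180)))) (v (nat_lit 8) (a (v (nat_lit 9) (k (nat_lit 0x9945c))) (v (nat_lit 8) (k (nat_lit 0x99a1a)))))) (a (v (nat_lit 7) (a (v (nat_lit 9) (k (nat_lit 0x9919e))) (a (v (nat_lit 8) (k (nat_lit 0x99420))) (v (nat_lit 7) (k (nat_lit 0x99216)))))) (a (v (nat_lit 6) (v (nat_lit 6) (k (nat_lit 0x9908a)))) (v (nat_lit 5) (a (a (v (nat_lit 9) (k (nat_lit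 0x99d0e))) (a (v (nat_lit 8) (k (nat_lit 0x99450))) (u (nat_lit 8) (k (nat_lit 0x9b49c))))) (a (v (nat_lit 7) (k (nat_lit 0x9902a))) (a (v (nat_lit 6) (k (nat_lit 0x96792))) (v (nat_lit 5) (k (nat_lit 0x9ad46)))))))))) (a (a (v (nat_lit 4) (a (a (v (nat_lit 9) (k (nat_lit 0x9914a))) (a (v (nat_lit 8) (k (nat_lit 0x9910e))) (v (nat_lit 7) (k (nat_lit 0x992e2))))) (a (v (nat_lit 6) (k (nat_lit 0x99342))) (a (v (nat_lit 5) (k (nat_lit 0x99486))) (v (nat_lit 4) (k (nat_lit 0x9937e))))))) (u (nat_lit 4) (t (nat_lit 5) (nat_lit 8) (nat_lit 9) (k (nat_lit 0x4c956d8))))) (a (v (nat_lit 3) (a (a (a (v (nat_lit 9) (k (nat_lit 0x9993c))) (v (nat_lit 8) (k (nat_lit 0x9934e)))) (a (u (nat_lit 8) (k (nat_lit 0x1dbd815e))) (v (nat_lit 7) (k (nat_lit 0x9932a))))) (a (a (u (nat_lit 7) (k (nat_lit 0xdedfe96))) (v (nat_lit 6) (k (nat_lit 0x995e8)))) (a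 (v (nat_lit 5) (k (nat_lit 0x99690))) (a (v (nat_lit 4) (k (nat_lit 0x99504))) (v (nat_lit 3) (k (nat_lit 0x992e2)))))))) (a (u (nat_lit 3) (v (nat_lit 3) (k (nat_lit 0x206543c4)))) (v (nat_lit 2) (a (a (a (v (nat_lit 9) (k (nat_lit 0x99a56))) (u (nat_lit 9) (k (nat_lit 0xd66cce6)))) (a (v (nat_lit 8) (k (nat_lit 0x997b0))) (v (nat_lit 7) (k (nat_lit 0x99270))))) (a (a (v (nat_lit 6) (k (nat_lit 0x98be0))) (v (nat_lit 4) (k (nat_lit 0x99264)))) (a (v (nat_lit 3) (k (nat_lit 0x989f4))) (v (nat_lit 2) (k (nat_lit 0x132dbc)))))))))))) (u (nat_lit 2) (a (a (a (u (nat_lit 8) (v (nat_lit 8) (k (nat_lit 0xad4d2)))) (v (nat_lit 7) (v (nat_lit 9) (k (nat_lit 0x9a452))))) (a (v (nat_lit 6) (a (v (nat_lit 8) (k (nat_lit 0x98e38))) (a (v (nat_lit 7) (k (nat_lit 0x3444fc0))) (v (nat_lit 6) (k (nat_lit 0xcd62d7a)))))) (a (v (nat_lit 5) (v (nat_lit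 6) (k (nat_lit 0x96f90)))) (v (nat_lit 4) (t (nat_lit 5) (nat_lit 8) (nat_lit 9) (k (nat_lit 0x15308a0))))))) (a (a (u (nat_lit 4) (v (nat_lit 4) (k (nat_lit 0x12bb3fb0)))) (t (nat_lit 4) (nat_lit 7) (nat_lit 9) (a (v (nat_lit 7) (k (nat_lit 0x2497164))) (u (nat_lit 4) (k (nat_lit 0x48d956)))))) (a (v (nat_lit 3) (a (t (nat_lit 4) (nat_lit 7) (nat_lit 9) (k (nat_lit 0xd6e5418))) (v (nat_lit 3) (k (nat_lit 0xb6c8b24))))) (a (v (nat_lit 2) (v (nat_lit 3) (k (nat_lit 0x11df6b7c)))) (u (nat_lit 2) (v (nat_lit 6) (k (nat_lit 0x993b4)))))))))))))) (a (v (nat_lit 1) (a (a (a (a (u (nat_lit 9) (v (nat_lit 9) (v (nat_lit 9) (k (nat_lit 0x98c9a))))) (v (nat_lit 8) (v (nat_lit 8) (u (nat_lit 9) (k (nat_lit 0xf6d8f0)))))) (a (u (nat_lit 8) (a (v (nat_lit 9) (v (nat_lit 9) (k (nat_lit 0xcac9260)))) (a (v (nat_lit 8) (a (v (nat_lit 9) (k (nat_lit 0x99eee)))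 (v (nat_lit 8) (k (nat_lit 0x9900c))))) (u (nat_lit 8) (v (nat_lit 8) (k (nat_lit 0x16aa006))))))) (v (nat_lit 7) (a (u (nat_lit 8) (u (nat_lit 8) (k (nat_lit 0x9baba)))) (v (nat_lit 7) (u (nat_lit 9) (k (nat_lit 0x9944a)))))))) (a (a (u (nat_lit 7) (v (nat_lit 7) (v (nat_lit 7) (k (nat_lit 0x98d84))))) (v (nat_lit 6) (a (v (nat_lit 8) (u (nat_lit 9) (k (nat_lit 0x99228)))) (a (u (nat_lit 8) (v (nat_lit 8) (k (nat_lit 0x99450)))) (v (nat_lit 6) (u (nat_lit 9) (k (nat_lit 0x99852)))))))) (a (u (nat_lit 6) (a (v (nat_lit 9) (v (nat_lit 9) (k (nat_lit 0x999fc)))) (v (nat_lit 7) (v (nat_lit 7) (k (nat_lit 0x95ae4)))))) (a (v (nat_lit 5) (a (v (nat_lit 7) (u (nat_lit 9) (k (nat_lit 0x9bece)))) (u (nat_lit 6) (a (v (nat_lit 9) (k (nat_lit 0x9d33e))) (a (v (nat_lit 8) (k (nat_lit 0x9945c))) (v (nat_lit 7) (k (nat_lit 0x9a3e6)))))))) (u (nat_lit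 5) (a (a (v (nat_lit 9) (v (nat_lit 9) (k (nat_lit 0x99cae)))) (v (nat_lit 8) (a (v (nat_lit 9) (k (nat_lit 0x99336))) (v (nat_lit 8) (k (nat_lit 0x991c8)))))) (a (v (nat_lit 5) (a (a (v (nat_lit 9) (k (nat_lit 0x95dd2))) (v (nat_lit 8) (k (nat_lit 0x99b04)))) (a (v (nat_lit 6) (k (nat_lit 0x99b4c))) (v (nat_lit 5) (k (nat_lit 0x9820e)))))) (u (nat_lit 5) (u (nat_lit 8) (k (nat_lit 0x1465740))))))))))) (a (a (a (t (nat_lit 5) (nat_lit 8) (nat_lit 9) (a (u (nat_lit 9) (u (nat_lit 9) (k (nat_lit 0x5041a16)))) (a (u (nat_lit 8) (u (nat_lit 8) (k (nat_lit 0xcee68)))) (t (nat_lit 5) (nat_lit 8) (nat_lit 9) (u (nat_lit 5) (k (nat_lit 0x9905a))))))) (v (nat_lit 4) (a (a (a (u (nat_lit 9) (v (nat_lit 9) (k (nat_lit 0x9ba90)))) (v (nat_lit 8) (u (nat_lit 9) (k (nat_lit 0x9981c))))) (a (u (nat_lit 8) (a (v (nat_lit 9) (k (nat_lit 0x9981c))) (v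 (nat_lit 8) (k (nat_lit 0x9ba90))))) (a (v (nat_lit 7) (u (nat_lit 9) (k (nat_lit 0x2043378)))) (u (nat_lit 7) (a (v (nat_lit 9) (k (nat_lit 0x9fcf6))) (a (v (nat_lit 8) (k (nat_lit 0x94590))) (v (nat_lit 7) (k (nat_lit 0x965d6))))))))) (a (a (v (nat_lit 6) (a (u (nat_lit 8) (k (nat_lit 0x2043378))) (u (nat_lit 7) (k (nat_lit 0x9df9e))))) (u (nat_lit 6) (a (a (v (nat_lit 9) (k (nat_lit 0x94590))) (v (nat_lit 8) (k (nat_lit 0x9fcf6)))) (a (v (nat_lit 7) (k (nat_lit 0x9df9e))) (v (nat_lit 6) (k (nat_lit 0x965d6))))))) (a (u (nat_lit 5) (a (a (v (nat_lit 9) (k (nat_lit 0x95d66))) (v (nat_lit 8) (k (nat_lit 0x95d66)))) (a (v (nat_lit 7) (k (nat_lit 0x9ae18))) (a (v (nat_lit 6) (k (nat_lit 0x9ae18))) (v (nat_lit 5) (k (nat_lit 0x12e76c))))))) (a (t (nat_lit 5) (nat_lit 8) (nat_lit 9) (a (a (u (nat_lit 9) (k (nat_lit 0x9924c))) (u (nat_lit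 8) (k (nat_lit 0x9924c)))) (a (u (nat_lit 7) (k (nat_lit 0x99c0c))) (u (nat_lit 6) (k (nat_lit 0x99c0c)))))) (v (nat_lit 4) (u (nat_lit 5) (k (nat_lit 0x98022)))))))))) (a (u (nat_lit 4) (a (a (a (v (nat_lit 9) (v (nat_lit 9) (k (nat_lit 0x986f4)))) (v (nat_lit 8) (v (nat_lit 9) (k (nat_lit 0x994b0))))) (a (u (nat_lit 8) (a (v (nat_lit 8) (k (nat_lit 0x9bb74))) (u (nat_lit 8) (k (nat_lit 0x99c12))))) (v (nat_lit 7) (a (v (nat_lit 9) (k (nat_lit 0x99fae))) (a (v (nat_lit 8) (k (nat_lit 0x9df92))) (v (nat_lit 7) (k (nat_lit 0x9bca6)))))))) (a (a (v (nat_lit 6) (a (a (v (nat_lit 9) (k (nat_lit 0x9a272))) (v (nat_lit 8) (k (nat_lit 0x9e604)))) (a (u (nat_lit 8) (k (nat_lit 0x9cc12))) (a (v (nat_lit 7) (k (nat_lit 0x94536))) (v (nat_lit 6) (k (nat_lit 0x9f76e))))))) (v (nat_lit 5) (a (a (v (nat_lit 9) (k (nat_lit 0x9d086))) (v (nat_lit 8)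 (k (nat_lit 0x9976e)))) (a (v (nat_lit 7) (k (nat_lit 0x9977a))) (a (v (nat_lit 6) (k (nat_lit 0x97a64))) (v (nat_lit 5) (k (nat_lit 0x9b6c4)))))))) (a (u (nat_lit 5) (u (nat_lit 8) (k (nat_lit 0x116991ae)))) (a (v (nat_lit 4) (a (a (v (nat_lit 9) (k (nat_lit 0x97218))) (a (v (nat_lit 8) (k (nat_lit 0x97a4c))) (v (nat_lit 7) (k (nat_lit 0x98de4))))) (a (v (nat_lit 6) (k (nat_lit 0x9a3c8))) (a (v (nat_lit 5) (k (nat_lit 0x99372))) (v (nat_lit 4) (k (nat_lit 0x98aa8))))))) (u (nat_lit 4) (a (u (nat_lit 9) (k (nat_lit 0x9989a))) (u (nat_lit 8) (k (nat_lit 0x99802d4)))))))))) (t (nat_lit 4) (nat_lit 7) (nat_lit 9) (a (a (u (nat_lit 6) (u (nat_lit 6) (k (nat_lit 0x9b36a)))) (v (nat_lit 5) (u (nat_lit 6) (k (nat_lit 0x2f9eaa6))))) (a (t (nat_lit 5) (nat_lit 8) (nat_lit 9) (a (u (nat_lit 6) (k (nat_lit 0xb5f6e))) (u (nat_lit 5) (k (nat_lit 0x99426)))))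 (a (u (nat_lit 4) (v (nat_lit 9) (k (nat_lit 0x9953a)))) (t (nat_lit 4) (nat_lit 7) (nat_lit 9) (a (u (nat_lit 9) (k (nat_lit 0x9937e))) (u (nat_lit 5) (k (nat_lit 0x99d6e))))))))))) (a (a (v (nat_lit 3) (a (a (a (v (nat_lit 7) (u (nat_lit 9) (k (nat_lit 0x72a8cd8)))) (u (nat_lit 7) (a (v (nat_lit 9) (k (nat_lit 0x99924))) (v (nat_lit 8) (k (nat_lit 0x99420)))))) (a (v (nat_lit 6) (u (nat_lit 7) (k (nat_lit 0x96f9c)))) (u (nat_lit 6) (v (nat_lit 7) (k (nat_lit 0xd7e93fe)))))) (a (a (u (nat_lit 5) (u (nat_lit 6) (k (nat_lit 0x9b166)))) (v (nat_lit 4) (u (nat_lit 5) (k (nat_lit 0x9a728))))) (a (u (nat_lit 4) (a (a (v (nat_lit 9) (k (nat_lit 0x971e2))) (a (u (nat_lit 9) (k (nat_lit 0xb5c329c))) (v (nat_lit 8) (k (nat_lit 0x96468))))) (a (v (nat_lit 7) (k (nat_lit 0x9bd1e))) (a (v (nat_lit 6) (k (nat_lit 0x9cf96))) (v (nat_lit 5) (k (nat_lit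 0x98838))))))) (v (nat_lit 3) (u (nat_lit 4) (k (nat_lit 0xd0fe72)))))))) (u (nat_lit 3) (a (a (a (v (nat_lit 9) (v (nat_lit 9) (k (nat_lit 0x3f83eec)))) (v (nat_lit 8) (a (v (nat_lit 9) (k (nat_lit 0x992ac))) (v (nat_lit 8) (k (nat_lit 0x9ac2c)))))) (a (v (nat_lit 7) (v (nat_lit 7) (k (nat_lit 0x99144)))) (v (nat_lit 6) (a (v (nat_lit 9) (k (nat_lit 0x99a08))) (a (v (nat_lit 8) (k (nat_lit 0x9971a))) (v (nat_lit 6) (k (nat_lit 0x9f9ba)))))))) (a (a (v (nat_lit 5) (a (a (v (nat_lit 9) (k (nat_lit 0x99180))) (v (nat_lit 8) (k (nat_lit 0x996e4)))) (a (v (nat_lit 6) (k (nat_lit 0x99fa2))) (v (nat_lit 5) (k (nat_lit 0x9975c)))))) (v (nat_lit 4) (a (a (v (nat_lit 9) (k (nat_lit 0x9af74))) (a (v (nat_lit 8) (k (nat_lit 0x9be62))) (v (nat_lit 7) (k (nat_lit 0x9dc92))))) (a (v (nat_lit 6) (k (nat_lit 0x99a1a))) (a (v (nat_lit 5) (k (nat_lit 0x9b2f8)))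 (v (nat_lit 4) (k (nat_lit 0x9951c)))))))) (a (t (nat_lit 4) (nat_lit 7) (nat_lit 9) (t (nat_lit 4) (nat_lit 7) (nat_lit 9) (k (nat_lit 0x9addc)))) (a (v (nat_lit 3) (a (a (v (nat_lit 9) (k (nat_lit 0x9910e))) (a (v (nat_lit 8) (k (nat_lit 0x9914a))) (v (nat_lit 7) (k (nat_lit 0x99342))))) (a (a (v (nat_lit 6) (k (nat_lit 0x992e2))) (v (nat_lit 5) (k (nat_lit 0x99486)))) (a (v (nat_lit 4) (k (nat_lit 0x9939c))) (v (nat_lit 3) (k (nat_lit 0x99264))))))) (u (nat_lit 3) (t (nat_lit 5) (nat_lit 8) (nat_lit 9) (k (nat_lit 0x15308a0)))))))))) (a (v (nat_lit 2) (a (a (a (v (nat_lit 7) (a (u (nat_lit 9) (k (nat_lit 0x99d68))) (u (nat_lit 8) (k (nat_lit 0x99378))))) (u (nat_lit 7) (v (nat_lit 7) (k (nat_lit 0xa2b9a))))) (a (u (nat_lit 6) (v (nat_lit 7) (k (nat_lit 0x27c5508)))) (a (u (nat_lit 5) (a (v (nat_lit 7) (k (nat_lit 0x966ea))) (u (nat_lit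 5) (k (nat_lit 0x9830a))))) (t (nat_lit 5) (nat_lit 8) (nat_lit 9) (u (nat_lit 8) (k (nat_lit 0x4a9a780))))))) (a (a (v (nat_lit 4) (u (nat_lit 5) (k (nat_lit 0x9a728)))) (u (nat_lit 4) (a (a (v (nat_lit 9) (k (nat_lit 0x9a8f6))) (v (nat_lit 8) (k (nat_lit 0x9a4b2)))) (a (v (nat_lit 7) (k (nat_lit 0x9645c))) (a (v (nat_lit 6) (k (nat_lit 0x98ca0))) (v (nat_lit 5) (k (nat_lit 0x97fbc)))))))) (a (v (nat_lit 3) (u (nat_lit 4) (k (nat_lit 0x9a3b6)))) (a (u (nat_lit 3) (a (a (a (v (nat_lit 9) (k (nat_lit 0x99762))) (u (nat_lit 9) (k (nat_lit 0x7224f18)))) (a (v (nat_lit 8) (k (nat_lit 0x996f0))) (v (nat_lit 7) (k (nat_lit 0x97bd8))))) (a (a (v (nat_lit 6) (k (nat_lit 0x99bc4))) (v (nat_lit 5) (k (nat_lit 0x9ad34)))) (a (v (nat_lit 4) (k (nat_lit 0x9a962))) (v (nat_lit 3) (k (nat_lit 0x99504))))))) (v (nat_lit 2) (a (u (nat_lit 4) (k (nat_lit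 0x99660))) (u (nat_lit 3) (k (nat_lit 0xdff3b9c)))))))))) (a (u (nat_lit 2) (a (a (a (v (nat_lit 9) (v (nat_lit 9) (k (nat_lit 0x315a50)))) (v (nat_lit 8) (a (v (nat_lit 9) (k (nat_lit 0x99342))) (v (nat_lit 8) (k (nat_lit 0x991c2)))))) (a (v (nat_lit 6) (a (v (nat_lit 9) (k (nat_lit 0x9992a))) (a (v (nat_lit 8) (k (nat_lit 0x997a4))) (v (nat_lit 6) (k (nat_lit 0x99b52)))))) (v (nat_lit 5) (a (a (v (nat_lit 9) (k (nat_lit 0x9914a))) (v (nat_lit 8) (k (nat_lit 0x99186)))) (a (v (nat_lit 6) (k (nat_lit 0x99204))) (v (nat_lit 5) (k (nat_lit 0x9823e)))))))) (a (a (v (nat_lit 4) (a (a (v (nat_lit 9) (k (nat_lit 0x9be62))) (a (v (nat_lit 8) (k (nat_lit 0x9af74))) (v (nat_lit 7) (k (nat_lit 0x99a1a))))) (a (v (nat_lit 6) (k (nat_lit 0x9dc92))) (a (v (nat_lit 5) (k (nat_lit 0x9b2f8))) (v (nat_lit 4) (k (nat_lit 0x9a212))))))) (t (nat_lit 4) (nat_lit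 7) (nat_lit 9) (t (nat_lit 4) (nat_lit 7) (nat_lit 9) (k (nat_lit 0x35ec70a))))) (a (v (nat_lit 3) (a (u (nat_lit 9) (k (nat_lit 0x312396))) (v (nat_lit 4) (k (nat_lit 0x9a962))))) (a (v (nat_lit 2) (a (a (a (v (nat_lit 9) (k (nat_lit 0x98d9c))) (v (nat_lit 8) (k (nat_lit 0x98b92)))) (a (u (nat_lit 8) (k (nat_lit 0xe7285d8))) (v (nat_lit 7) (k (nat_lit 0x9921c))))) (a (a (v (nat_lit 6) (k (nat_lit 0x996de))) (v (nat_lit 5) (k (nat_lit 0x11ff544)))) (a (v (nat_lit 4) (k (nat_lit 0x9939c))) (a (v (nat_lit 3) (k (nat_lit 0x998d0))) (v (nat_lit 2) (k (nat_lit 0x254170e)))))))) (u (nat_lit 2) (v (nat_lit 2) (k (nat_lit 0x992b8))))))))) (v (nat_lit 1) (a (a (a (v (nat_lit 7) (u (nat_lit 8) (k (nat_lit 0x9cfa8)))) (a (u (nat_lit 7) (v (nat_lit 9) (k (nat_lit 0x99efa)))) (v (nat_lit 6) (a (u (nat_lit 9) (k (nat_lit 0x9a626))) (a (u (nat_lit 8)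 (k (nat_lit 0x993ea))) (u (nat_lit 7) (k (nat_lit 0x9c54c)))))))) (a (a (u (nat_lit 6) (v (nat_lit 6) (k (nat_lit 0x5549ac)))) (u (nat_lit 5) (a (a (v (nat_lit 9) (k (nat_lit 0x9977a))) (v (nat_lit 7) (k (nat_lit 0x990cc)))) (a (v (nat_lit 6) (k (nat_lit 0x9a4a0))) (v (nat_lit 5) (k (nat_lit 0x99258))))))) (a (t (nat_lit 5) (nat_lit 8) (nat_lit 9) (u (nat_lit 8) (k (nat_lit 0x21072a2)))) (v (nat_lit 4) (u (nat_lit 5) (k (nat_lit 0x98022))))))) (a (a (u (nat_lit 4) (a (a (v (nat_lit 9) (k (nat_lit 0x9d0ce))) (a (v (nat_lit 8) (k (nat_lit 0x9c2a6))) (u (nat_lit 8) (k (nat_lit 0x9a3f8))))) (a (a (v (nat_lit 7) (k (nat_lit 0x98d90))) (v (nat_lit 6) (k (nat_lit 0x993ba)))) (a (v (nat_lit 5) (k (nat_lit 0x9a116))) (v (nat_lit 4) (k (nat_lit 0x98fd0))))))) (a (t (nat_lit 4) (nat_lit 7) (nat_lit 9) (u (nat_lit 6) (k (nat_lit 0x6d40814)))) (v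 (nat_lit 3) (u (nat_lit 4) (k (nat_lit 0x9a278)))))) (a (a (u (nat_lit 3) (a (a (v (nat_lit 9) (k (nat_lit 0x984a2))) (a (v (nat_lit 8) (k (nat_lit 0x97134))) (v (nat_lit 7) (k (nat_lit 0x98c40))))) (a (a (v (nat_lit 6) (k (nat_lit 0x999f6))) (v (nat_lit 5) (k (nat_lit 0x9834c)))) (a (v (nat_lit 4) (k (nat_lit 0x9a212))) (v (nat_lit 3) (k (nat_lit 0x9937e))))))) (v (nat_lit 2) (a (u (nat_lit 4) (k (nat_lit 0x993b4))) (u (nat_lit 3) (k (nat_lit 0x99648)))))) (a (u (nat_lit 2) (a (a (v (nat_lit 9) (k (nat_lit 0x99354))) (a (v (nat_lit 8) (k (nat_lit 0x98ffa))) (v (nat_lit 6) (k (nat_lit 0x992ac))))) (a (v (nat_lit 5) (k (nat_lit 0x99414))) (a (v (nat_lit 4) (k (nat_lit 0x9951c))) (v (nat_lit 2) (k (nat_lit 0x999d2))))))) (v (nat_lit 1) (a (a (u (nat_lit 5) (k (nat_lit 0x99024))) (u (nat_lit 4) (k (nat_lit 0x98cca)))) (a (u (nat_lit 3) (k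 (nat_lit 0x98cac))) (u (nat_lit 2) (k (nat_lit 0x99198))))))))))))))))) (u (nat_lit 1) (a (a (a (v (nat_lit 7) (a (v (nat_lit 9) (v (nat_lit 9) (k (nat_lit 0x98dde)))) (a (v (nat_lit 8) (a (v (nat_lit 9) (k (nat_lit 0xa76ece))) (v (nat_lit 8) (k (nat_lit 0x98fe8))))) (v (nat_lit 7) (a (v (nat_lit 9) (k (nat_lit 0x98f8e))) (v (nat_lit 8) (k (nat_lit 0x9903c)))))))) (a (v (nat_lit 6) (a (v (nat_lit 7) (a (v (nat_lit 9) (k (nat_lit 0x9cac8))) (a (v (nat_lit 8) (k (nat_lit 0x9a26c))) (v (nat_lit 7) (k (nat_lit 0x96ffc)))))) (v (nat_lit 6) (a (a (v (nat_lit 9) (k (nat_lit 0x99138))) (v (nat_lit 8) (k (nat_lit 0x9926a)))) (a (v (nat_lit 7) (k (nat_lit 0x9939c))) (v (nat_lit 6) (k (nat_lit 0x98e62)))))))) (u (nat_lit 6) (a (u (nat_lit 7) (v (nat_lit 7) (k (nat_lit 0x4426ede)))) (u (nat_lit 6) (v (nat_lit 6) (k (nat_lit 0x99768)))))))) (a (a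 (v (nat_lit 5) (a (v (nat_lit 7) (a (v (nat_lit 9) (k (nat_lit 0x998e2))) (a (v (nat_lit 8) (k (nat_lit 0x99462))) (v (nat_lit 7) (k (nat_lit 0x9912c)))))) (a (v (nat_lit 6) (a (v (nat_lit 7) (k (nat_lit 0x99cfc))) (v (nat_lit 6) (k (nat_lit 0x993b4))))) (v (nat_lit 5) (a (a (v (nat_lit 9) (k (nat_lit 0x9cc00))) (v (nat_lit 7) (k (nat_lit 0x99156)))) (a (v (nat_lit 6) (k (nat_lit 0x98f04))) (v (nat_lit 5) (k (nat_lit 0x9a32c))))))))) (t (nat_lit 5) (nat_lit 8) (nat_lit 9) (v (nat_lit 7) (u (nat_lit 8) (k (nat_lit 0x99930)))))) (a (v (nat_lit 4) (a (a (u (nat_lit 9) (a (v (nat_lit 9) (k (nat_lit 0x9bb74))) (u (nat_lit 9) (k (nat_lit 0x99c12))))) (a (v (nat_lit 8) (a (v (nat_lit 9) (k (nat_lit 0x994b0))) (v (nat_lit 8) (k (nat_lit 0x986f4))))) (v (nat_lit 7) (a (a (v (nat_lit 9) (k (nat_lit 0x9e604))) (u (nat_lit 9) (k (nat_lit 0x9cc12))))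 (a (v (nat_lit 8) (k (nat_lit 0x9a272))) (v (nat_lit 7) (k (nat_lit 0x9f76e)))))))) (a (a (v (nat_lit 6) (a (a (v (nat_lit 9) (k (nat_lit 0x9df92))) (v (nat_lit 8) (k (nat_lit 0x99fae)))) (a (v (nat_lit 7) (k (nat_lit 0x94536))) (v (nat_lit 6) (k (nat_lit 0x9bca6)))))) (v (nat_lit 5) (a (a (v (nat_lit 9) (k (nat_lit 0x9976e))) (v (nat_lit 8) (k (nat_lit 0x9d086)))) (a (v (nat_lit 7) (k (nat_lit 0x97a64))) (a (v (nat_lit 6) (k (nat_lit 0x9977a))) (v (nat_lit 5) (k (nat_lit 0x9b6c4)))))))) (a (u (nat_lit 5) (u (nat_lit 9) (k (nat_lit 0x116991ae)))) (v (nat_lit 4) (a (a (v (nat_lit 9) (k (nat_lit 0x9c2a6))) (a (u (nat_lit 9) (k (nat_lit 0x9a3f8))) (v (nat_lit 8) (k (nat_lit 0x9d0ce))))) (a (a (v (nat_lit 7) (k (nat_lit 0x993ba))) (v (nat_lit 6) (k (nat_lit 0x98d90)))) (a (v (nat_lit 5) (k (nat_lit 0x9a116))) (v (nat_lit 4) (k (nat_lit 0x98cca)))))))))))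 (u (nat_lit 4) (a (a (v (nat_lit 7) (v (nat_lit 7) (k (nat_lit 0x9f138)))) (v (nat_lit 6) (v (nat_lit 6) (k (nat_lit 0x9f138))))) (a (t (nat_lit 5) (nat_lit 8) (nat_lit 9) (u (nat_lit 5) (k (nat_lit 0x1323a8)))) (v (nat_lit 4) (a (v (nat_lit 8) (k (nat_lit 0x994ef3c))) (a (u (nat_lit 8) (k (nat_lit 0xe74fb6))) (v (nat_lit 5) (k (nat_lit 0x9ab06)))))))))))) (a (a (t (nat_lit 4) (nat_lit 7) (nat_lit 9) (a (a (v (nat_lit 6) (u (nat_lit 7) (k (nat_lit 0x99888)))) (u (nat_lit 6) (v (nat_lit 6) (k (nat_lit 0x99234))))) (a (u (nat_lit 4) (u (nat_lit 4) (k (nat_lit 0x1f07e4a)))) (t (nat_lit 4) (nat_lit 7) (nat_lit 9) (t (nat_lit 5) (nat_lit 8) (nat_lit 9) (k (nat_lit 0xa192e))))))) (a (v (nat_lit 3) (a (a (v (nat_lit 8) (v (nat_lit 8) (k (nat_lit 0x97548)))) (a (u (nat_lit 6) (a (v (nat_lit 7) (k (nat_lit 0x969ba))) (v (nat_lit 6) (k (nat_lit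 0x99e1c))))) (v (nat_lit 5) (v (nat_lit 7) (k (nat_lit 0x992be)))))) (a (v (nat_lit 4) (a (a (v (nat_lit 9) (k (nat_lit 0x9a4b2))) (a (v (nat_lit 8) (k (nat_lit 0x9a8f6))) (v (nat_lit 7) (k (nat_lit 0x98ca0))))) (a (v (nat_lit 6) (k (nat_lit 0x9645c))) (a (v (nat_lit 5) (k (nat_lit 0x97fbc))) (v (nat_lit 4) (k (nat_lit 0x993b4))))))) (a (t (nat_lit 4) (nat_lit 7) (nat_lit 9) (u (nat_lit 7) (k (nat_lit 0x99a08)))) (v (nat_lit 3) (v (nat_lit 4) (k (nat_lit 0x99660)))))))) (u (nat_lit 3) (a (t (nat_lit 5) (nat_lit 8) (nat_lit 9) (v (nat_lit 6) (k (nat_lit 0x7115370)))) (a (t (nat_lit 4) (nat_lit 7) (nat_lit 9) (v (nat_lit 6) (k (nat_lit 0x3b19b4c)))) (v (nat_lit 3) (a (t (nat_lit 5) (nat_lit 8) (nat_lit 9) (k (nat_lit 0x4c956d8))) (t (nat_lit 4) (nat_lit 7) (nat_lit 9) (k (nat_lit 0x99dce)))))))))) (a (a (v (nat_lit 2) (a (a (a (v (nat_lit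 7) (v (nat_lit 7) (k (nat_lit 0x8fa9c)))) (v (nat_lit 6) (v (nat_lit 7) (k (nat_lit 0x9b094))))) (a (v (nat_lit 5) (v (nat_lit 7) (k (nat_lit 0x9c222)))) (v (nat_lit 4) (a (a (v (nat_lit 9) (k (nat_lit 0x96468))) (a (v (nat_lit 8) (k (nat_lit 0x971e2))) (u (nat_lit 8) (k (nat_lit 0xb5c329c))))) (a (a (v (nat_lit 7) (k (nat_lit 0x9cf96))) (v (nat_lit 6) (k (nat_lit 0x9bd1e)))) (a (v (nat_lit 5) (k (nat_lit 0x98838))) (v (nat_lit 4) (k (nat_lit 0x9a278))))))))) (a (a (t (nat_lit 4) (nat_lit 7) (nat_lit 9) (v (nat_lit 4) (k (nat_lit 0x9a470)))) (v (nat_lit 3) (a (v (nat_lit 7) (k (nat_lit 0x9ae66))) (v (nat_lit 4) (k (nat_lit 0x9a3b6)))))) (a (u (nat_lit 3) (t (nat_lit 4) (nat_lit 7) (nat_lit 9) (k (nat_lit 0x9a56c)))) (v (nat_lit 2) (a (a (a (v (nat_lit 9) (k (nat_lit 0x992d0))) (v (nat_lit 8) (k (nat_lit 0x99840)))) (a (v (nat_lit 7) (k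 (nat_lit 0x9ad10))) (v (nat_lit 6) (k (nat_lit 0x99a74))))) (a (a (v (nat_lit 5) (k (nat_lit 0x80038d4))) (v (nat_lit 4) (k (nat_lit 0xd0fe72)))) (a (t (nat_lit 4) (nat_lit 7) (nat_lit 9) (k (nat_lit 0x99444))) (a (v (nat_lit 3) (k (nat_lit 0x9a2b4))) (v (nat_lit 2) (k (nat_lit 0x99072)))))))))))) (u (nat_lit 2) (t (nat_lit 4) (nat_lit 7) (nat_lit 9) (u (nat_lit 4) (k (nat_lit 0x9d05c)))))) (a (v (nat_lit 1) (a (a (a (v (nat_lit 9) (v (nat_lit 9) (k (nat_lit 0x991e0)))) (a (v (nat_lit 8) (a (v (nat_lit 9) (k (nat_lit 0x99588))) (v (nat_lit 8) (k (nat_lit 0x99342))))) (u (nat_lit 8) (u (nat_lit 8) (k (nat_lit 0x35a1c62)))))) (a (v (nat_lit 7) (a (u (nat_lit 8) (k (nat_lit 0x9cfa8))) (v (nat_lit 7) (k (nat_lit 0x994b0))))) (a (u (nat_lit 7) (u (nat_lit 9) (k (nat_lit 0x9b7cc)))) (v (nat_lit 5) (v (nat_lit 8) (k (nat_lit 0x99546))))))) (a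 (a (t (nat_lit 5) (nat_lit 8) (nat_lit 9) (u (nat_lit 9) (k (nat_lit 0x9942c)))) (a (v (nat_lit 4) (a (a (v (nat_lit 9) (k (nat_lit 0x97a4c))) (a (v (nat_lit 8) (k (nat_lit 0x97218))) (v (nat_lit 7) (k (nat_lit 0x9a3c8))))) (a (v (nat_lit 6) (k (nat_lit 0x98de4))) (a (v (nat_lit 5) (k (nat_lit 0x99372))) (v (nat_lit 4) (k (nat_lit 0x98fd0))))))) (u (nat_lit 4) (a (v (nat_lit 9) (k (nat_lit 0x994ef3c))) (a (u (nat_lit 9) (k (nat_lit 0xe74fb6))) (v (nat_lit 5) (k (nat_lit 0x9ab06)))))))) (a (a (t (nat_lit 4) (nat_lit 7) (nat_lit 9) (t (nat_lit 4) (nat_lit 7) (nat_lit 9) (k (nat_lit 0x99090)))) (u (nat_lit 3) (a (u (nat_lit 9) (k (nat_lit 0x1640e5c))) (u (nat_lit 3) (k (nat_lit 0x12bb3fb0)))))) (a (v (nat_lit 2) (a (v (nat_lit 7) (k (nat_lit 0x993e4))) (v (nat_lit 2) (k (nat_lit 0x113d18))))) (v (nat_lit 1) (a (a (v (nat_lit 9) (k (nat_lit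 0x98724))) (a (v (nat_lit 8) (k (nat_lit 0x99144))) (v (nat_lit 7) (k (nat_lit 0x98baa))))) (a (v (nat_lit 6) (k (nat_lit 0x990c0))) (a (v (nat_lit 4) (k (nat_lit 0x98aa8))) (v (nat_lit 1) (k (nat_lit 0x98f76)))))))))))) (u (nat_lit 1) (a (a (t (nat_lit 5) (nat_lit 8) (nat_lit 9) (v (nat_lit 9) (k (nat_lit 0xd27c0fe)))) (a (v (nat_lit 4) (a (u (nat_lit 9) (k (nat_lit 0x99802d4))) (u (nat_lit 8) (k (nat_lit 0x9989a))))) (t (nat_lit 4) (nat_lit 7) (nat_lit 9) (a (a (u (nat_lit 9) (k (nat_lit 0x9950a))) (u (nat_lit 8) (k (nat_lit 0x53a4e78)))) (a (u (nat_lit 7) (k (nat_lit 0xb037d20))) (v (nat_lit 5) (k (nat_lit 0xdec030)))))))) (a (v (nat_lit 3) (a (v (nat_lit 9) (k (nat_lit 0x97fce))) (a (v (nat_lit 8) (k (nat_lit 0x976ec))) (v (nat_lit 5) (k (nat_lit 0x572fa78)))))) (a (v (nat_lit 1) (a (a (v (nat_lit 8) (k (nat_lit 0x18677832))) (v (nat_lit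 7) (k (nat_lit 0x11a7b1e)))) (a (u (nat_lit 6) (k (nat_lit 0x2eebe410))) (v (nat_lit 3) (k (nat_lit 0x99c00)))))) (u (nat_lit 1) (u (nat_lit 3) (k (nat_lit 0x98b80))))))))))))))) (a (t (nat_lit 1) (nat_lit 6) (nat_lit 8) (a (a (a (a (u (nat_lit 8) (u (nat_lit 9) (u (nat_lit 9) (k (nat_lit 0x99600))))) (u (nat_lit 7) (a (v (nat_lit 8) (v (nat_lit 8) (k (nat_lit 0x99114)))) (u (nat_lit 7) (u (nat_lit 9) (k (nat_lit 0x9a032))))))) (a (u (nat_lit 6) (a (v (nat_lit 8) (v (nat_lit 8) (k (nat_lit 0x99d20)))) (a (v (nat_lit 7) (v (nat_lit 7) (k (nat_lit 0x9b8ce)))) (u (nat_lit 6) (u (nat_lit 9) (k (nat_lit 0x31bee8c))))))) (v (nat_lit 5) (u (nat_lit 7) (u (nat_lit 8) (k (nat_lit 0x9a560))))))) (a (a (u (nat_lit 5) (a (v (nat_lit 8) (v (nat_lit 8) (k (nat_lit 0x252ef34)))) (v (nat_lit 7) (a (u (nat_lit 8) (k (nat_lit 0x994b0))) (v (nat_lit 7)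 (k (nat_lit 0x990ba))))))) (t (nat_lit 5) (nat_lit 8) (nat_lit 9) (u (nat_lit 8) (u (nat_lit 8) (k (nat_lit 0x9967e)))))) (a (v (nat_lit 4) (a (a (u (nat_lit 7) (u (nat_lit 7) (k (nat_lit 0x9b36a)))) (v (nat_lit 5) (u (nat_lit 7) (k (nat_lit 0x2f9eaa6))))) (a (t (nat_lit 5) (nat_lit 8) (nat_lit 9) (a (u (nat_lit 7) (k (nat_lit 0xb5f6e))) (u (nat_lit 5) (k (nat_lit 0x99426))))) (v (nat_lit 4) (u (nat_lit 7) (k (nat_lit 0x6d40814))))))) (u (nat_lit 4) (a (u (nat_lit 7) (v (nat_lit 7) (k (nat_lit 0x99234)))) (a (u (nat_lit 6) (v (nat_lit 7) (k (nat_lit 0x99888)))) (u (nat_lit 4) (a (a (u (nat_lit 9) (k (nat_lit 0x53a4e78))) (u (nat_lit 8) (k (nat_lit 0x9950a)))) (a (u (nat_lit 6) (k (nat_lit 0xb037d20))) (v (nat_lit 5) (k (nat_lit 0xdec030)))))))))))) (a (a (a (t (nat_lit 4) (nat_lit 7) (nat_lit 9) (a (u (nat_lit 5) (a (v (nat_lit 7) (k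 (nat_lit 0x5d7b528))) (v (nat_lit 6) (k (nat_lit 0x5d7b528))))) (t (nat_lit 5) (nat_lit 8) (nat_lit 9) (a (u (nat_lit 7) (k (nat_lit 0x99042))) (u (nat_lit 6) (k (nat_lit 0x99042))))))) (v (nat_lit 3) (a (u (nat_lit 8) (a (u (nat_lit 9) (k (nat_lit 0x2416344))) (u (nat_lit 8) (k (nat_lit 0x99e40))))) (a (u (nat_lit 5) (a (v (nat_lit 8) (k (nat_lit 0xa1f40))) (v (nat_lit 7) (k (nat_lit 0x36ddf8e))))) (v (nat_lit 3) (a (u (nat_lit 5) (k (nat_lit 0x9a3f2))) (u (nat_lit 4) (k (nat_lit 0x99444))))))))) (a (u (nat_lit 3) (a (v (nat_lit 6) (u (nat_lit 8) (k (nat_lit 0x9be2c)))) (a (t (nat_lit 5) (nat_lit 8) (nat_lit 9) (u (nat_lit 6) (k (nat_lit 0xa2d2c)))) (u (nat_lit 3) (v (nat_lit 6) (k (nat_lit 0x2497164))))))) (v (nat_lit 2) (a (a (u (nat_lit 6) (a (u (nat_lit 7) (k (nat_lit 0xa092c))) (u (nat_lit 6) (k (nat_lit 0x506e9aa))))) (t (nat_lit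 5) (nat_lit 8) (nat_lit 9) (u (nat_lit 5) (k (nat_lit 0x1b3008a))))) (a (u (nat_lit 4) (u (nat_lit 6) (k (nat_lit 0x99a08)))) (a (u (nat_lit 3) (a (u (nat_lit 7) (k (nat_lit 0x99816))) (u (nat_lit 3) (k (nat_lit 0xd6e5418))))) (v (nat_lit 2) (a (u (nat_lit 8) (k (nat_lit 0xc47ffe2))) (u (nat_lit 7) (k (nat_lit 0x31a4348))))))))))) (a (a (u (nat_lit 2) (a (a (u (nat_lit 9) (u (nat_lit 9) (k (nat_lit 0x99288)))) (a (v (nat_lit 7) (v (nat_lit 7) (k (nat_lit 0x9a9b0)))) (t (nat_lit 5) (nat_lit 8) (nat_lit 9) (t (nat_lit 5) (nat_lit 8) (nat_lit 9) (k (nat_lit 0x995a6)))))) (a (a (u (nat_lit 4) (v (nat_lit 7) (k (nat_lit 0x3b19b4c)))) (v (nat_lit 3) (u (nat_lit 4) (k (nat_lit 0x9a56c))))) (a (v (nat_lit 2) (u (nat_lit 4) (k (nat_lit 0x99dce)))) (u (nat_lit 2) (a (v (nat_lit 6) (k (nat_lit 0x9a1a6))) (v (nat_lit 2) (k (nat_lit 0x9972c)))))))))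 (v (nat_lit 1) (a (u (nat_lit 6) (v (nat_lit 6) (k (nat_lit 0x990ae)))) (v (nat_lit 3) (a (a (u (nat_lit 9) (k (nat_lit 0xe1f282c))) (u (nat_lit 8) (k (nat_lit 0x99228)))) (a (u (nat_lit 6) (k (nat_lit 0x113d6d2))) (u (nat_lit 4) (k (nat_lit 0x9a470))))))))) (a (u (nat_lit 1) (a (a (u (nat_lit 6) (v (nat_lit 8) (k (nat_lit 0x1a24da8)))) (a (v (nat_lit 4) (v (nat_lit 8) (k (nat_lit 0x9953a)))) (t (nat_lit 4) (nat_lit 7) (nat_lit 9) (t (nat_lit 4) (nat_lit 7) (nat_lit 9) (k (nat_lit 0x1c9f1a0)))))) (a (u (nat_lit 3) (a (v (nat_lit 5) (k (nat_lit 0x99300))) (a (u (nat_lit 4) (k (nat_lit 0x9d05c))) (u (nat_lit 3) (k (nat_lit 0x48d956)))))) (a (u (nat_lit 2) (a (u (nat_lit 9) (k (nat_lit 0x99b6a))) (u (nat_lit 2) (k (nat_lit 0x9ad58))))) (u (nat_lit 1) (a (a (u (nat_lit 7) (k (nat_lit 0xcb9a06))) (u (nat_lit 6) (k (nat_lit 0x777a26)))) (a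 (u (nat_lit 5) (k (nat_lit 0x1a2f0d4))) (a (u (nat_lit 4) (k (nat_lit 0x1f07e4a))) (u (nat_lit 1) (k (nat_lit 0x49a5ede))))))))))) (t (nat_lit 1) (nat_lit 6) (nat_lit 8) (a (a (a (u (nat_lit 8) (u (nat_lit 8) (k (nat_lit 0x1a243d6)))) (a (u (nat_lit 7) (u (nat_lit 9) (k (nat_lit 0x98e74)))) (v (nat_lit 6) (u (nat_lit 9) (k (nat_lit 0x98f2e)))))) (a (u (nat_lit 5) (v (nat_lit 5) (k (nat_lit 0x9921c)))) (a (t (nat_lit 5) (nat_lit 8) (nat_lit 9) (u (nat_lit 6) (k (nat_lit 0x98e20)))) (v (nat_lit 4) (a (u (nat_lit 8) (k (nat_lit 0x9937e))) (u (nat_lit 5) (k (nat_lit 0x99d6e)))))))) (a (a (u (nat_lit 4) (a (t (nat_lit 5) (nat_lit 8) (nat_lit 9) (k (nat_lit 0xa192e))) (v (nat_lit 4) (k (nat_lit 0x99090))))) (a (t (nat_lit 4) (nat_lit 7) (nat_lit 9) (u (nat_lit 4) (k (nat_lit 0x1c9f1a0)))) (u (nat_lit 3) (v (nat_lit 4) (k (nat_lit 0x35ec70a))))))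 (a (v (nat_lit 2) (a (u (nat_lit 9) (k (nat_lit 0xf19c4a))) (u (nat_lit 8) (k (nat_lit 0x990ae))))) (a (u (nat_lit 2) (a (u (nat_lit 7) (k (nat_lit 0x992ac))) (a (v (nat_lit 4) (k (nat_lit 0x9addc))) (v (nat_lit 2) (k (nat_lit 0xa0921b6)))))) (t (nat_lit 1) (nat_lit 6) (nat_lit 8) (a (a (u (nat_lit 9) (k (nat_lit 0x99198))) (u (nat_lit 7) (k (nat_lit 0xaba24e)))) (a (u (nat_lit 6) (k (nat_lit 0x98d9c))) (a (u (nat_lit 5) (k (nat_lit 0x11ef104))) (u (nat_lit 2) (k (nat_lit 0x7b4e6c))))))))))))))))) (a (v (nat_lit 0) (a (a (a (a (u (nat_lit 9) (v (nat_lit 9) (v (nat_lit 9) (k (nat_lit 0x98a72))))) (v (nat_lit 8) (a (u (nat_lit 9) (v (nat_lit 9) (k (nat_lit 0x9aaa6)))) (v (nat_lit 8) (u (nat_lit 9) (k (nat_lit 0x9efac))))))) (a (u (nat_lit 8) (a (v (nat_lit 9) (v (nat_lit 9) (k (nat_lit 0x9efac)))) (v (nat_lit 8) (a (v (nat_lit 9) (k (nat_lit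 0x9aaa6))) (v (nat_lit 8) (k (nat_lit 0x98a72))))))) (v (nat_lit 7) (u (nat_lit 9) (v (nat_lit 9) (k (nat_lit 0x99108))))))) (a (a (v (nat_lit 6) (a (u (nat_lit 8) (v (nat_lit 8) (k (nat_lit 0x99108)))) (v (nat_lit 7) (a (u (nat_lit 9) (k (nat_lit 0x9917a))) (u (nat_lit 8) (k (nat_lit 0x9917a))))))) (v (nat_lit 5) (a (u (nat_lit 9) (v (nat_lit 9) (k (nat_lit 0x96d98)))) (u (nat_lit 8) (v (nat_lit 8) (k (nat_lit 0x96d98))))))) (a (u (nat_lit 5) (a (a (v (nat_lit 9) (v (nat_lit 9) (k (nat_lit 0x9d1e2)))) (v (nat_lit 8) (a (v (nat_lit 9) (k (nat_lit 0x1310e8))) (v (nat_lit 8) (k (nat_lit 0x9d1e2)))))) (a (u (nat_lit 6) (u (nat_lit 7) (k (nat_lit 0x45170ac)))) (a (v (nat_lit 5) (a (v (nat_lit 9) (k (nat_lit 0x9ce94))) (a (v (nat_lit 8) (k (nat_lit 0x9ce94))) (v (nat_lit 5) (k (nat_lit 0x12ff84)))))) (u (nat_lit 5) (u (nat_lit 5) (k (nat_lit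 0x132780)))))))) (a (t (nat_lit 5) (nat_lit 8) (nat_lit 9) (a (v (nat_lit 6) (u (nat_lit 7) (k (nat_lit 0x996ea)))) (a (u (nat_lit 6) (v (nat_lit 7) (k (nat_lit 0x996ea)))) (t (nat_lit 5) (nat_lit 8) (nat_lit 9) (a (u (nat_lit 9) (k (nat_lit 0x993a2))) (a (u (nat_lit 8) (k (nat_lit 0x993a2))) (u (nat_lit 5) (k (nat_lit 0x1320e4))))))))) (v (nat_lit 4) (a (v (nat_lit 7) (u (nat_lit 9) (k (nat_lit 0xbf1f6)))) (v (nat_lit 6) (u (nat_lit 9) (k (nat_lit 0x99b04)))))))))) (a (a (a (u (nat_lit 4) (a (a (v (nat_lit 8) (v (nat_lit 8) (k (nat_lit 0x9cfd2)))) (v (nat_lit 7) (v (nat_lit 7) (k (nat_lit 0x99264))))) (a (v (nat_lit 5) (v (nat_lit 7) (k (nat_lit 0x98a78)))) (a (t (nat_lit 5) (nat_lit 8) (nat_lit 9) (u (nat_lit 5) (k (nat_lit 0xbf909ee)))) (v (nat_lit 4) (u (nat_lit 6) (k (nat_lit 0x99894)))))))) (t (nat_lit 4) (nat_lit 7) (nat_lit 9)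 (a (a (u (nat_lit 8) (a (v (nat_lit 9) (k (nat_lit 0x2adc4be))) (u (nat_lit 8) (k (nat_lit 0x99d5c))))) (u (nat_lit 7) (u (nat_lit 8) (k (nat_lit 0x37a3bd4))))) (a (u (nat_lit 5) (u (nat_lit 8) (k (nat_lit 0x9957c)))) (a (v (nat_lit 4) (a (u (nat_lit 9) (k (nat_lit 0x992f4))) (u (nat_lit 8) (k (nat_lit 0x9bc9a))))) (t (nat_lit 4) (nat_lit 7) (nat_lit 9) (u (nat_lit 8) (k (nat_lit 0x9bc94))))))))) (a (v (nat_lit 3) (a (a (v (nat_lit 8) (u (nat_lit 9) (k (nat_lit 0xb7489c0)))) (a (u (nat_lit 7) (v (nat_lit 7) (k (nat_lit 0x99edc)))) (v (nat_lit 6) (a (u (nat_lit 9) (k (nat_lit 0x9ac4a))) (a (u (nat_lit 8) (k (nat_lit 0xa0fa4))) (u (nat_lit 7) (k (nat_lit 0x12eb2cc)))))))) (a (a (u (nat_lit 6) (v (nat_lit 7) (k (nat_lit 0xefaa3e)))) (u (nat_lit 5) (u (nat_lit 5) (k (nat_lit 0x58f18fe))))) (a (u (nat_lit 4) (a (a (v (nat_lit 9) (k (nat_lit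 0x9a470))) (v (nat_lit 8) (k (nat_lit 0x96f96)))) (a (u (nat_lit 7) (k (nat_lit 0x3351a56))) (a (v (nat_lit 6) (k (nat_lit 0x9b226))) (v (nat_lit 5) (k (nat_lit 0x98dba))))))) (v (nat_lit 3) (u (nat_lit 4) (k (nat_lit 0x61c058a)))))))) (a (u (nat_lit 3) (a (a (v (nat_lit 9) (v (nat_lit 9) (k (nat_lit 0x995b2)))) (a (v (nat_lit 6) (v (nat_lit 9) (k (nat_lit 0x993ae)))) (t (nat_lit 5) (nat_lit 8) (nat_lit 9) (v (nat_lit 9) (k (nat_lit 0x99480)))))) (a (a (v (nat_lit 4) (a (u (nat_lit 9) (k (nat_lit 0x9e9d0))) (a (u (nat_lit 8) (k (nat_lit 0x6929f0a))) (v (nat_lit 4) (k (nat_lit 0x99a26)))))) (u (nat_lit 4) (a (v (nat_lit 8) (k (nat_lit 0x961c2))) (a (v (nat_lit 7) (k (nat_lit 0x99156))) (v (nat_lit 5) (k (nat_lit 0x98d36))))))) (a (t (nat_lit 4) (nat_lit 7) (nat_lit 9) (u (nat_lit 8) (k (nat_lit 0x99750)))) (v (nat_lit 3) (a (u (nat_lit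 8) (k (nat_lit 0x9ebda))) (a (u (nat_lit 7) (k (nat_lit 0x116fd99c))) (v (nat_lit 3) (k (nat_lit 0x996cc)))))))))) (v (nat_lit 2) (a (a (a (u (nat_lit 8) (v (nat_lit 9) (k (nat_lit 0xb7489c0)))) (v (nat_lit 7) (a (u (nat_lit 9) (k (nat_lit 0xa0fa4))) (u (nat_lit 8) (k (nat_lit 0x9ac4a)))))) (a (v (nat_lit 6) (u (nat_lit 7) (k (nat_lit 0xefaa3e)))) (u (nat_lit 6) (a (v (nat_lit 7) (k (nat_lit 0x12eb2cc))) (v (nat_lit 6) (k (nat_lit 0x99edc))))))) (a (a (u (nat_lit 5) (u (nat_lit 5) (k (nat_lit 0x58f18fe)))) (u (nat_lit 4) (a (u (nat_lit 8) (k (nat_lit 0x288330c))) (a (u (nat_lit 7) (k (nat_lit 0x1055cd1e))) (u (nat_lit 4) (k (nat_lit 0x6616f8c))))))) (a (t (nat_lit 4) (nat_lit 7) (nat_lit 9) (u (nat_lit 8) (k (nat_lit 0x9ac50)))) (a (v (nat_lit 3) (u (nat_lit 5) (k (nat_lit 0x13683c)))) (u (nat_lit 3) (a (a (v (nat_lit 9) (k (nat_lit 0x9d53c)))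 (a (u (nat_lit 8) (k (nat_lit 0x9a74c))) (u (nat_lit 7) (k (nat_lit 0x2f36496))))) (a (a (v (nat_lit 6) (k (nat_lit 0x99f24))) (u (nat_lit 6) (k (nat_lit 0x99d1f10)))) (a (u (nat_lit 5) (k (nat_lit 0x9f9a8))) (u (nat_lit 4) (k (nat_lit 0x13a413e6))))))))))))))) (a (a (u (nat_lit 2) (a (a (a (v (nat_lit 8) (v (nat_lit 8) (k (nat_lit 0x995b2)))) (v (nat_lit 7) (v (nat_lit 8) (k (nat_lit 0x993ae))))) (a (t (nat_lit 5) (nat_lit 8) (nat_lit 9) (v (nat_lit 8) (k (nat_lit 0x99480)))) (v (nat_lit 4) (u (nat_lit 9) (k (nat_lit 0x99edc)))))) (a (a (v (nat_lit 3) (a (a (u (nat_lit 9) (k (nat_lit 0x9a74c))) (a (v (nat_lit 8) (k (nat_lit 0x9d53c))) (v (nat_lit 7) (k (nat_lit 0x99f24))))) (a (u (nat_lit 7) (k (nat_lit 0x99d1f10))) (a (u (nat_lit 6) (k (nat_lit 0x2f36496))) (u (nat_lit 5) (k (nat_lit 0x9f9a8))))))) (u (nat_lit 3) (v (nat_lit 3) (k (nat_lit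 0x99786))))) (a (v (nat_lit 2) (a (a (u (nat_lit 9) (k (nat_lit 0x9ebda))) (u (nat_lit 6) (k (nat_lit 0x116fd99c)))) (a (u (nat_lit 3) (k (nat_lit 0x99786))) (v (nat_lit 2) (k (nat_lit 0x996cc)))))) (u (nat_lit 2) (t (nat_lit 4) (nat_lit 7) (nat_lit 9) (k (nat_lit 0x663d45e)))))))) (v (nat_lit 1) (a (a (a (v (nat_lit 7) (u (nat_lit 8) (k (nat_lit 0x99b04)))) (v (nat_lit 6) (u (nat_lit 8) (k (nat_lit 0xbf1f6))))) (a (v (nat_lit 4) (u (nat_lit 5) (k (nat_lit 0x134724)))) (u (nat_lit 4) (a (a (v (nat_lit 9) (k (nat_lit 0x95f3a))) (a (u (nat_lit 9) (k (nat_lit 0xa5dbd56))) (v (nat_lit 8) (k (nat_lit 0x9a70a))))) (a (v (nat_lit 7) (k (nat_lit 0x98e5c))) (a (v (nat_lit 6) (k (nat_lit 0x9953a))) (v (nat_lit 5) (k (nat_lit 0x3abcb4))))))))) (a (a (v (nat_lit 3) (u (nat_lit 4) (k (nat_lit 0x9e41e)))) (u (nat_lit 3) (u (nat_lit 8) (k (nat_lit 0x99edc)))))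 (a (v (nat_lit 2) (u (nat_lit 4) (k (nat_lit 0x9d056)))) (a (u (nat_lit 2) (a (u (nat_lit 9) (k (nat_lit 0x6929f0a))) (u (nat_lit 8) (k (nat_lit 0x9e9d0))))) (v (nat_lit 1) (a (u (nat_lit 4) (k (nat_lit 0x996ae))) (u (nat_lit 2) (k (nat_lit 0x99a26))))))))))) (a (u (nat_lit 1) (a (a (a (v (nat_lit 9) (v (nat_lit 9) (k (nat_lit 0x9cfd2)))) (v (nat_lit 6) (v (nat_lit 6) (k (nat_lit 0x99264))))) (a (v (nat_lit 5) (v (nat_lit 6) (k (nat_lit 0x98a78)))) (a (t (nat_lit 5) (nat_lit 8) (nat_lit 9) (u (nat_lit 5) (k (nat_lit 0xbf909ee)))) (v (nat_lit 4) (a (a (v (nat_lit 9) (k (nat_lit 0x9a70a))) (a (v (nat_lit 8) (k (nat_lit 0x95f3a))) (u (nat_lit 8) (k (nat_lit 0xa5dbd56))))) (a (a (v (nat_lit 7) (k (nat_lit 0x9953a))) (v (nat_lit 6) (k (nat_lit 0x98e5c)))) (a (v (nat_lit 5) (k (nat_lit 0x3abcb4))) (v (nat_lit 4) (k (nat_lit 0x996ae))))))))))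 (a (a (t (nat_lit 4) (nat_lit 7) (nat_lit 9) (t (nat_lit 4) (nat_lit 7) (nat_lit 9) (k (nat_lit 0x9905a)))) (a (v (nat_lit 3) (a (u (nat_lit 9) (k (nat_lit 0x288330c))) (a (u (nat_lit 6) (k (nat_lit 0x1055cd1e))) (v (nat_lit 4) (k (nat_lit 0x9d056)))))) (v (nat_lit 2) (a (a (v (nat_lit 9) (k (nat_lit 0x96f96))) (a (v (nat_lit 8) (k (nat_lit 0x9a470))) (v (nat_lit 7) (k (nat_lit 0x9b226))))) (a (a (u (nat_lit 6) (k (nat_lit 0x3351a56))) (v (nat_lit 5) (k (nat_lit 0x98dba)))) (a (v (nat_lit 4) (k (nat_lit 0x9e41e))) (v (nat_lit 2) (k (nat_lit 0x61c058a))))))))) (a (u (nat_lit 2) (a (a (v (nat_lit 9) (k (nat_lit 0x961c2))) (v (nat_lit 6) (k (nat_lit 0x99156)))) (a (v (nat_lit 5) (k (nat_lit 0x98d36))) (v (nat_lit 3) (k (nat_lit 0x13a413e6)))))) (a (v (nat_lit 1) (u (nat_lit 7) (k (nat_lit 0x99894)))) (u (nat_lit 1) (v (nat_lit 3) (k (nat_lit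 0x6616f8c))))))))) (a (t (nat_lit 1) (nat_lit 6) (nat_lit 8) (a (a (a (u (nat_lit 9) (u (nat_lit 9) (k (nat_lit 0x99d5c)))) (v (nat_lit 8) (u (nat_lit 9) (k (nat_lit 0x2adc4be))))) (a (u (nat_lit 6) (u (nat_lit 9) (k (nat_lit 0x37a3bd4)))) (u (nat_lit 5) (u (nat_lit 9) (k (nat_lit 0x9957c)))))) (a (a (v (nat_lit 3) (u (nat_lit 9) (k (nat_lit 0x9ac50)))) (u (nat_lit 3) (u (nat_lit 3) (k (nat_lit 0x663d45e))))) (a (u (nat_lit 2) (u (nat_lit 9) (k (nat_lit 0x99750)))) (a (v (nat_lit 1) (a (u (nat_lit 9) (k (nat_lit 0x9bc9a))) (u (nat_lit 8) (k (nat_lit 0x992f4))))) (t (nat_lit 1) (nat_lit 6) (nat_lit 8) (a (u (nat_lit 9) (k (nat_lit 0x9bc94))) (u (nat_lit 4) (k (nat_lit 0x9905a)))))))))) (v (nat_lit 0) (a (a (a (u (nat_lit 9) (v (nat_lit 9) (k (nat_lit 0x9aeae)))) (a (u (nat_lit 8) (v (nat_lit 8) (k (nat_lit 0x9aeae)))) (t (nat_lit 5) (nat_lit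 8) (nat_lit 9) (a (u (nat_lit 7) (k (nat_lit 0x535063e))) (u (nat_lit 6) (k (nat_lit 0x535063e))))))) (a (a (v (nat_lit 4) (u (nat_lit 5) (k (nat_lit 0x999a2)))) (u (nat_lit 4) (a (u (nat_lit 7) (k (nat_lit 0x1792ad8a))) (v (nat_lit 5) (k (nat_lit 0x9a03e)))))) (a (t (nat_lit 4) (nat_lit 7) (nat_lit 9) (a (u (nat_lit 9) (k (nat_lit 0x26a4d4))) (u (nat_lit 8) (k (nat_lit 0x5e2b52c))))) (v (nat_lit 3) (u (nat_lit 4) (k (nat_lit 0x9f3c0))))))) (a (a (u (nat_lit 3) (a (a (u (nat_lit 8) (k (nat_lit 0x529a196))) (v (nat_lit 6) (k (nat_lit 0x996c6)))) (a (v (nat_lit 5) (k (nat_lit 0x9971a))) (u (nat_lit 3) (k (nat_lit 0x992f4)))))) (a (v (nat_lit 2) (u (nat_lit 4) (k (nat_lit 0x816bc4)))) (u (nat_lit 2) (a (a (u (nat_lit 9) (k (nat_lit 0x529a196))) (v (nat_lit 7) (k (nat_lit 0x996c6)))) (a (v (nat_lit 5) (k (nat_lit 0x9971a))) (a (v (nat_lit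 4) (k (nat_lit 0x1f531faa))) (u (nat_lit 2) (k (nat_lit 0x992f4))))))))) (a (a (v (nat_lit 1) (a (u (nat_lit 5) (k (nat_lit 0x999a2))) (a (u (nat_lit 4) (k (nat_lit 0x9a128))) (u (nat_lit 3) (k (nat_lit 0x1f531faa)))))) (u (nat_lit 1) (a (a (u (nat_lit 6) (k (nat_lit 0x1792ad8a))) (v (nat_lit 5) (k (nat_lit 0x9a03e)))) (a (v (nat_lit 4) (k (nat_lit 0x9a128))) (a (v (nat_lit 3) (k (nat_lit 0x816bc4))) (v (nat_lit 2) (k (nat_lit 0x9f3c0)))))))) (a (t (nat_lit 1) (nat_lit 6) (nat_lit 8) (a (u (nat_lit 9) (k (nat_lit 0x5e2b52c))) (u (nat_lit 8) (k (nat_lit 0x26a4d4))))) (v (nat_lit 0) (a (u (nat_lit 5) (k (nat_lit 0x133200))) (a (u (nat_lit 4) (k (nat_lit 0x999fc))) (u (nat_lit 1) (k (nat_lit 0x999fc))))))))))))))))) (u (nat_lit 0) (a (a (a (a (v (nat_lit 9) (v (nat_lit 9) (v (nat_lit 9) (k (nat_lit 0x99378))))) (v (nat_lit 8) (a (v (nat_lit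 9) (v (nat_lit 9) (k (nat_lit 0x9911a)))) (v (nat_lit 8) (a (v (nat_lit 9) (k (nat_lit 0x9911a))) (v (nat_lit 8) (k (nat_lit 0x99378)))))))) (a (v (nat_lit 7) (a (v (nat_lit 9) (v (nat_lit 9) (k (nat_lit 0x995be)))) (a (v (nat_lit 8) (a (v (nat_lit 9) (k (nat_lit 0x9a13a))) (v (nat_lit 8) (k (nat_lit 0x99054))))) (v (nat_lit 7) (a (v (nat_lit 9) (k (nat_lit 0x991da))) (a (v (nat_lit 8) (k (nat_lit 0x992dc))) (v (nat_lit 7) (k (nat_lit 0x99198))))))))) (u (nat_lit 7) (v (nat_lit 7) (v (nat_lit 9) (k (nat_lit 0x9d57188))))))) (a (a (v (nat_lit 6) (a (a (v (nat_lit 9) (v (nat_lit 9) (k (nat_lit 0x99054)))) (v (nat_lit 8) (a (v (nat_lit 9) (k (nat_lit 0x9a13a))) (v (nat_lit 8) (k (nat_lit 0x995be)))))) (a (v (nat_lit 7) (a (v (nat_lit 9) (k (nat_lit 0x998e2))) (a (v (nat_lit 8) (k (nat_lit 0x998e2))) (v (nat_lit 7) (k (nat_lit 0x99144))))))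 (v (nat_lit 6) (a (a (v (nat_lit 9) (k (nat_lit 0x992dc))) (v (nat_lit 8) (k (nat_lit 0x991da)))) (a (v (nat_lit 7) (k (nat_lit 0x99144))) (v (nat_lit 6) (k (nat_lit 0x99198))))))))) (u (nat_lit 6) (v (nat_lit 6) (v (nat_lit 8) (k (nat_lit 0x9d57188)))))) (a (v (nat_lit 5) (a (a (v (nat_lit 9) (v (nat_lit 9) (k (nat_lit 0x9b1f6)))) (v (nat_lit 8) (a (v (nat_lit 9) (k (nat_lit 0x134ee0))) (v (nat_lit 8) (k (nat_lit 0x9b1f6)))))) (a (v (nat_lit 7) (a (v (nat_lit 9) (k (nat_lit 0x993e4))) (a (v (nat_lit 8) (k (nat_lit 0x996c0))) (v (nat_lit 7) (k (nat_lit 0x99294)))))) (a (v (nat_lit 6) (a (a (v (nat_lit 9) (k (nat_lit 0x996c0))) (v (nat_lit 8) (k (nat_lit 0x993e4)))) (a (v (nat_lit 7) (k (nat_lit 0x133da0))) (v (nat_lit 6) (k (nat_lit 0x99294)))))) (v (nat_lit 5) (a (a (v (nat_lit 9) (k (nat_lit 0x95c82))) (v (nat_lit 8) (k (nat_lit 0x95c82))))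 (a (v (nat_lit 7) (k (nat_lit 0x991c8))) (a (v (nat_lit 6) (k (nat_lit 0x991c8))) (v (nat_lit 5) (k (nat_lit 0x1332c0))))))))))) (a (t (nat_lit 5) (nat_lit 8) (nat_lit 9) (a (u (nat_lit 9) (u (nat_lit 9) (k (nat_lit 0x99684)))) (a (u (nat_lit 8) (a (u (nat_lit 9) (k (nat_lit 0x2f0e20))) (u (nat_lit 8) (k (nat_lit 0x99684))))) (v (nat_lit 6) (v (nat_lit 7) (k (nat_lit 0x1337b8))))))) (v (nat_lit 4) (a (a (v (nat_lit 9) (v (nat_lit 9) (k (nat_lit 0x99054)))) (a (v (nat_lit 8) (a (v (nat_lit 9) (k (nat_lit 0x990c0))) (v (nat_lit 8) (k (nat_lit 0xdbb9400))))) (v (nat_lit 7) (a (v (nat_lit 9) (k (nat_lit 0x9996c))) (a (v (nat_lit 8) (k (nat_lit 0x99462))) (v (nat_lit 7) (k (nat_lit 0x50d30c)))))))) (a (v (nat_lit 6) (a (a (v (nat_lit 9) (k (nat_lit 0x99486))) (v (nat_lit 8) (k (nat_lit 0x994e0)))) (a (v (nat_lit 7) (k (nat_lit 0x994c2))) (v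 (nat_lit 6) (k (nat_lit 0x990c6)))))) (a (v (nat_lit 5) (a (a (v (nat_lit 9) (k (nat_lit 0x990c0))) (v (nat_lit 8) (k (nat_lit 0x991ce)))) (a (v (nat_lit 7) (k (nat_lit 0x997da))) (a (v (nat_lit 6) (k (nat_lit 0x99258))) (v (nat_lit 5) (k (nat_lit 0x98f3a))))))) (v (nat_lit 4) (a (a (v (nat_lit 9) (k (nat_lit 0x98ec8))) (a (v (nat_lit 8) (k (nat_lit 0x995be))) (v (nat_lit 7) (k (nat_lit 0x9a164))))) (a (v (nat_lit 6) (k (nat_lit 0x99006))) (a (v (nat_lit 5) (k (nat_lit 0x98f76))) (v (nat_lit 4) (k (nat_lit 0x98f70))))))))))))))) (a (a (a (t (nat_lit 4) (nat_lit 7) (nat_lit 9) (a (v (nat_lit 7) (u (nat_lit 9) (k (nat_lit 0x99de6)))) (a (t (nat_lit 5) (nat_lit 8) (nat_lit 9) (u (nat_lit 5) (k (nat_lit 0x1064a0)))) (u (nat_lit 4) (a (v (nat_lit 6) (k (nat_lit 0x99b52))) (v (nat_lit 5) (k (nat_lit 0x134aee2)))))))) (v (nat_lit 3) (a (a (a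 (v (nat_lit 9) (v (nat_lit 9) (k (nat_lit 0x99162)))) (v (nat_lit 8) (a (v (nat_lit 9) (k (nat_lit 0x991b6))) (v (nat_lit 8) (k (nat_lit 0x98fb8)))))) (a (v (nat_lit 7) (a (v (nat_lit 9) (k (nat_lit 0x991f8))) (a (v (nat_lit 8) (k (nat_lit 0x98fe2))) (v (nat_lit 7) (k (nat_lit 0x98f4c)))))) (v (nat_lit 6) (a (a (v (nat_lit 9) (k (nat_lit 0x99198))) (v (nat_lit 8) (k (nat_lit 0x998a0)))) (a (v (nat_lit 7) (k (nat_lit 0x99312))) (v (nat_lit 6) (k (nat_lit 0x99108)))))))) (a (a (v (nat_lit 5) (a (a (v (nat_lit 9) (k (nat_lit 0x9947a))) (v (nat_lit 8) (k (nat_lit 0x99420)))) (a (v (nat_lit 7) (k (nat_lit 0x999a2))) (a (v (nat_lit 6) (k (nat_lit 0x99114))) (v (nat_lit 5) (k (nat_lit 0x993ea))))))) (t (nat_lit 5) (nat_lit 8) (nat_lit 9) (t (nat_lit 5) (nat_lit 8) (nat_lit 9) (k (nat_lit 0x99018))))) (a (v (nat_lit 4) (a (a (v (nat_lit 9) (k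 (nat_lit 0x994c2))) (a (v (nat_lit 8) (k (nat_lit 0x997d4))) (v (nat_lit 7) (k (nat_lit 0x995a0))))) (a (v (nat_lit 6) (k (nat_lit 0x9949e))) (a (v (nat_lit 5) (k (nat_lit 0x99246))) (v (nat_lit 4) (k (nat_lit 0x98f6a))))))) (a (t (nat_lit 4) (nat_lit 7) (nat_lit 9) (a (v (nat_lit 9) (k (nat_lit 0x99138))) (a (u (nat_lit 7) (k (nat_lit 0x9a884))) (t (nat_lit 5) (nat_lit 8) (nat_lit 9) (k (nat_lit 0x99042)))))) (v (nat_lit 3) (a (a (a (v (nat_lit 9) (k (nat_lit 0x990d2))) (v (nat_lit 8) (k (nat_lit 0x98fac)))) (a (v (nat_lit 7) (k (nat_lit 0x9904e))) (v (nat_lit 6) (k (nat_lit 0x99402))))) (a (a (v (nat_lit 5) (k (nat_lit 0x99234))) (t (nat_lit 5) (nat_lit 8) (nat_lit 9) (k (nat_lit 0x98f7c)))) (a (v (nat_lit 4) (k (nat_lit 0x9903c))) (a (t (nat_lit 4) (nat_lit 7) (nat_lit 9) (k (nat_lit 0x99012))) (v (nat_lit 3) (k (nat_lit 0x98ef8))))))))))))))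 (a (u (nat_lit 3) (a (u (nat_lit 9) (v (nat_lit 9) (k (nat_lit 0x9e1ea)))) (a (v (nat_lit 7) (v (nat_lit 9) (k (nat_lit 0x4f37f46)))) (v (nat_lit 6) (v (nat_lit 7) (k (nat_lit 0x10b53a0))))))) (a (v (nat_lit 2) (a (a (a (v (nat_lit 9) (v (nat_lit 9) (k (nat_lit 0x98fb8)))) (v (nat_lit 8) (a (v (nat_lit 9) (k (nat_lit 0x991b6))) (v (nat_lit 8) (k (nat_lit 0x99162)))))) (a (v (nat_lit 7) (a (v (nat_lit 9) (k (nat_lit 0x998a0))) (a (v (nat_lit 8) (k (nat_lit 0x99198))) (v (nat_lit 7) (k (nat_lit 0x99108)))))) (a (v (nat_lit 6) (a (a (v (nat_lit 9) (k (nat_lit 0x98fe2))) (v (nat_lit 8) (k (nat_lit 0x991f8)))) (a (v (nat_lit 7) (k (nat_lit 0x99312))) (v (nat_lit 6) (k (nat_lit 0x98f4c)))))) (v (nat_lit 5) (a (a (v (nat_lit 9) (k (nat_lit 0x99420))) (v (nat_lit 8) (k (nat_lit 0x9947a)))) (a (v (nat_lit 7) (k (nat_lit 0x99114))) (a (v (nat_lit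 6) (k (nat_lit 0x999a2))) (v (nat_lit 5) (k (nat_lit 0x993ea)))))))))) (a (a (t (nat_lit 5) (nat_lit 8) (nat_lit 9) (t (nat_lit 5) (nat_lit 8) (nat_lit 9) (k (nat_lit 0x99018)))) (a (v (nat_lit 4) (a (a (v (nat_lit 9) (k (nat_lit 0x9937e))) (a (v (nat_lit 8) (k (nat_lit 0x99228))) (v (nat_lit 7) (k (nat_lit 0x991e0))))) (a (v (nat_lit 6) (k (nat_lit 0x99318))) (a (v (nat_lit 5) (k (nat_lit 0x99378))) (v (nat_lit 4) (k (nat_lit 0x9932a))))))) (u (nat_lit 4) (t (nat_lit 5) (nat_lit 8) (nat_lit 9) (k (nat_lit 0x9927c)))))) (a (t (nat_lit 4) (nat_lit 7) (nat_lit 9) (u (nat_lit 4) (k (nat_lit 0x9955e)))) (a (v (nat_lit 3) (a (a (v (nat_lit 9) (k (nat_lit 0x99318))) (a (v (nat_lit 8) (k (nat_lit 0x99318))) (v (nat_lit 7) (k (nat_lit 0x991f2))))) (a (a (v (nat_lit 6) (k (nat_lit 0x991f2))) (v (nat_lit 5) (k (nat_lit 0x13215c)))) (a (v (nat_lit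 4) (k (nat_lit 0x9913e))) (v (nat_lit 3) (k (nat_lit 0x995b2))))))) (v (nat_lit 2) (a (a (a (v (nat_lit 9) (k (nat_lit 0x98fac))) (v (nat_lit 8) (k (nat_lit 0x990d2)))) (a (v (nat_lit 7) (k (nat_lit 0x99402))) (v (nat_lit 6) (k (nat_lit 0x9904e))))) (a (a (v (nat_lit 5) (k (nat_lit 0x99234))) (t (nat_lit 5) (nat_lit 8) (nat_lit 9) (k (nat_lit 0x98f7c)))) (a (v (nat_lit 4) (k (nat_lit 0x993de))) (a (v (nat_lit 3) (k (nat_lit 0x995b2))) (v (nat_lit 2) (k (nat_lit 0x98ef8))))))))))))) (u (nat_lit 2) (a (u (nat_lit 8) (v (nat_lit 8) (k (nat_lit 0x9e1ea)))) (v (nat_lit 6) (a (v (nat_lit 8) (k (nat_lit 0x4f37f46))) (v (nat_lit 7) (k (nat_lit 0x10b53a0)))))))))) (a (a (v (nat_lit 1) (a (a (a (v (nat_lit 9) (v (nat_lit 9) (k (nat_lit 0xdbb9400)))) (v (nat_lit 8) (a (v (nat_lit 9) (k (nat_lit 0x990c0))) (v (nat_lit 8) (k (nat_lit 0x99054))))))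 (a (v (nat_lit 7) (a (v (nat_lit 9) (k (nat_lit 0x994e0))) (a (v (nat_lit 8) (k (nat_lit 0x99486))) (v (nat_lit 7) (k (nat_lit 0x990c6)))))) (a (v (nat_lit 6) (a (a (v (nat_lit 9) (k (nat_lit 0x99462))) (v (nat_lit 8) (k (nat_lit 0x9996c)))) (a (v (nat_lit 7) (k (nat_lit 0x994c2))) (v (nat_lit 6) (k (nat_lit 0x50d30c)))))) (v (nat_lit 5) (a (a (v (nat_lit 9) (k (nat_lit 0x991ce))) (v (nat_lit 8) (k (nat_lit 0x990c0)))) (a (v (nat_lit 7) (k (nat_lit 0x99258))) (a (v (nat_lit 6) (k (nat_lit 0x997da))) (v (nat_lit 5) (k (nat_lit 0x98f3a)))))))))) (a (a (v (nat_lit 4) (a (a (v (nat_lit 9) (k (nat_lit 0x9b4f6))) (a (v (nat_lit 8) (k (nat_lit 0x9b4f6))) (v (nat_lit 7) (k (nat_lit 0x99252))))) (a (a (v (nat_lit 6) (k (nat_lit 0x99252))) (v (nat_lit 5) (k (nat_lit 0x1321d4)))) (a (u (nat_lit 5) (k (nat_lit 0x13293c))) (v (nat_lit 4) (k (nat_lit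 0x98fac))))))) (u (nat_lit 4) (a (u (nat_lit 7) (k (nat_lit 0x9a0d4))) (u (nat_lit 5) (k (nat_lit 0x2d1e98a)))))) (a (v (nat_lit 3) (a (a (v (nat_lit 9) (k (nat_lit 0x99228))) (a (v (nat_lit 8) (k (nat_lit 0x9937e))) (v (nat_lit 7) (k (nat_lit 0x99318))))) (a (a (v (nat_lit 6) (k (nat_lit 0x991e0))) (v (nat_lit 5) (k (nat_lit 0x99378)))) (a (v (nat_lit 4) (k (nat_lit 0x988ec))) (v (nat_lit 3) (k (nat_lit 0x993de))))))) (a (v (nat_lit 2) (a (a (a (v (nat_lit 9) (k (nat_lit 0x997d4))) (v (nat_lit 8) (k (nat_lit 0x994c2)))) (a (v (nat_lit 7) (k (nat_lit 0x9949e))) (v (nat_lit 6) (k (nat_lit 0x995a0))))) (a (a (v (nat_lit 5) (k (nat_lit 0x99246))) (v (nat_lit 4) (k (nat_lit 0x988ec)))) (a (v (nat_lit 3) (k (nat_lit 0x9913e))) (v (nat_lit 2) (k (nat_lit 0x9903c))))))) (v (nat_lit 1) (a (a (a (v (nat_lit 9) (k (nat_lit 0x995be))) (v (nat_lit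 8) (k (nat_lit 0x98ec8)))) (a (v (nat_lit 7) (k (nat_lit 0x99006))) (v (nat_lit 6) (k (nat_lit 0x9a164))))) (a (a (v (nat_lit 5) (k (nat_lit 0x98f76))) (v (nat_lit 4) (k (nat_lit 0x98fac)))) (a (v (nat_lit 3) (k (nat_lit 0x9932a))) (a (v (nat_lit 2) (k (nat_lit 0x98f6a))) (v (nat_lit 1) (k (nat_lit 0x98f70))))))))))))) (u (nat_lit 1) (a (v (nat_lit 4) (a (u (nat_lit 6) (k (nat_lit 0x9a0d4))) (u (nat_lit 5) (k (nat_lit 0x2d1e98a))))) (v (nat_lit 3) (a (t (nat_lit 5) (nat_lit 8) (nat_lit 9) (k (nat_lit 0x9927c))) (t (nat_lit 4) (nat_lit 7) (nat_lit 9) (k (nat_lit 0x99534)))))))) (a (t (nat_lit 1) (nat_lit 6) (nat_lit 8) (a (a (v (nat_lit 6) (u (nat_lit 8) (k (nat_lit 0x99de6)))) (t (nat_lit 5) (nat_lit 8) (nat_lit 9) (u (nat_lit 5) (k (nat_lit 0x1064a0))))) (a (v (nat_lit 2) (a (a (v (nat_lit 8) (k (nat_lit 0x99138))) (u (nat_lit 6) (k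 (nat_lit 0x9a884)))) (a (t (nat_lit 5) (nat_lit 8) (nat_lit 9) (k (nat_lit 0x99042))) (a (u (nat_lit 4) (k (nat_lit 0x99534))) (v (nat_lit 2) (k (nat_lit 0x99012))))))) (u (nat_lit 1) (a (v (nat_lit 7) (k (nat_lit 0x99b52))) (a (v (nat_lit 5) (k (nat_lit 0x134aee2))) (v (nat_lit 3) (k (nat_lit 0x9955e))))))))) (a (v (nat_lit 0) (a (a (a (a (v (nat_lit 9) (v (nat_lit 9) (k (nat_lit 0x97a04)))) (v (nat_lit 8) (a (v (nat_lit 9) (k (nat_lit 0x13281c))) (v (nat_lit 8) (k (nat_lit 0x97a04)))))) (a (v (nat_lit 7) (a (v (nat_lit 9) (k (nat_lit 0x9930c))) (a (v (nat_lit 8) (k (nat_lit 0x99060))) (v (nat_lit 7) (k (nat_lit 0x99000)))))) (v (nat_lit 6) (a (a (v (nat_lit 9) (k (nat_lit 0x99060))) (v (nat_lit 8) (k (nat_lit 0x9930c)))) (a (v (nat_lit 7) (k (nat_lit 0x132078))) (v (nat_lit 6) (k (nat_lit 0x99000)))))))) (a (a (v (nat_lit 5) (a (a (v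 (nat_lit 9) (k (nat_lit 0x9a23c))) (v (nat_lit 8) (k (nat_lit 0x9a23c)))) (a (v (nat_lit 7) (k (nat_lit 0x98f9a))) (a (v (nat_lit 6) (k (nat_lit 0x98f9a))) (v (nat_lit 5) (k (nat_lit 0x131e38))))))) (t (nat_lit 5) (nat_lit 8) (nat_lit 9) (t (nat_lit 5) (nat_lit 8) (nat_lit 9) (k (nat_lit 0x132078))))) (a (v (nat_lit 4) (a (a (v (nat_lit 9) (k (nat_lit 0x9926a))) (a (v (nat_lit 8) (k (nat_lit 0x98fbe))) (v (nat_lit 7) (k (nat_lit 0x9911a))))) (a (v (nat_lit 6) (k (nat_lit 0x990d8))) (a (v (nat_lit 5) (k (nat_lit 0x98286))) (v (nat_lit 4) (k (nat_lit 0x98f94))))))) (t (nat_lit 4) (nat_lit 7) (nat_lit 9) (t (nat_lit 5) (nat_lit 8) (nat_lit 9) (k (nat_lit 0x98f16))))))) (a (a (a (v (nat_lit 3) (a (a (v (nat_lit 9) (k (nat_lit 0x9a10a))) (a (v (nat_lit 8) (k (nat_lit 0x9899a))) (v (nat_lit 7) (k (nat_lit 0x2220e58))))) (a (v (nat_lit 6) (k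 (nat_lit 0x992fa))) (a (v (nat_lit 5) (k (nat_lit 0x98f76))) (v (nat_lit 3) (k (nat_lit 0x996d8))))))) (u (nat_lit 3) (v (nat_lit 3) (k (nat_lit 0x9905a))))) (a (v (nat_lit 2) (a (a (a (v (nat_lit 9) (k (nat_lit 0x9899a))) (v (nat_lit 8) (k (nat_lit 0x9a10a)))) (a (v (nat_lit 7) (k (nat_lit 0x992fa))) (v (nat_lit 6) (k (nat_lit 0x2220e58))))) (a (a (v (nat_lit 5) (k (nat_lit 0x98f76))) (v (nat_lit 4) (k (nat_lit 0x99636)))) (a (v (nat_lit 3) (k (nat_lit 0x132bd0))) (v (nat_lit 2) (k (nat_lit 0x996d8))))))) (u (nat_lit 2) (v (nat_lit 2) (k (nat_lit 0x9905a)))))) (a (a (v (nat_lit 1) (a (a (v (nat_lit 9) (k (nat_lit 0x98fbe))) (a (v (nat_lit 8) (k (nat_lit 0x9926a))) (v (nat_lit 7) (k (nat_lit 0x990d8))))) (a (a (v (nat_lit 6) (k (nat_lit 0x9911a))) (v (nat_lit 5) (k (nat_lit 0x98286)))) (a (v (nat_lit 3) (k (nat_lit 0x99636))) (v (nat_lit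 1) (k (nat_lit 0x98f94))))))) (u (nat_lit 1) (t (nat_lit 4) (nat_lit 7) (nat_lit 9) (k (nat_lit 0x9a9b0))))) (a (t (nat_lit 1) (nat_lit 6) (nat_lit 8) (a (t (nat_lit 5) (nat_lit 8) (nat_lit 9) (k (nat_lit 0x98f16))) (u (nat_lit 4) (k (nat_lit 0x9a9b0))))) (v (nat_lit 0) (a (a (a (v (nat_lit 9) (k (nat_lit 0x99168))) (v (nat_lit 8) (k (nat_lit 0x99168)))) (a (v (nat_lit 7) (k (nat_lit 0x9987c))) (a (v (nat_lit 6) (k (nat_lit 0x9987c))) (v (nat_lit 5) (k (nat_lit 0x131ab4)))))) (a (a (t (nat_lit 5) (nat_lit 8) (nat_lit 9) (k (nat_lit 0x131bc8))) (a (v (nat_lit 4) (k (nat_lit 0x98f94))) (v (nat_lit 3) (k (nat_lit 0x99618))))) (a (v (nat_lit 2) (k (nat_lit 0x99618))) (a (v (nat_lit 1) (k (nat_lit 0x98f94))) (v (nat_lit 0) (k (nat_lit 0x131f4c))))))))))))) (u (nat_lit 0) (a (a (a (u (nat_lit 9) (v (nat_lit 9) (k (nat_lit 0x9df68)))) (u (nat_lit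 8) (v (nat_lit 8) (k (nat_lit 0x9df68))))) (a (u (nat_lit 7) (u (nat_lit 9) (k (nat_lit 0x9cade20)))) (a (u (nat_lit 6) (u (nat_lit 8) (k (nat_lit 0x9cade20)))) (v (nat_lit 5) (a (a (u (nat_lit 9) (k (nat_lit 0x98a2a))) (u (nat_lit 8) (k (nat_lit 0x98a2a)))) (a (u (nat_lit 7) (k (nat_lit 0xa28b2))) (u (nat_lit 6) (k (nat_lit 0xa28b2))))))))) (a (a (u (nat_lit 5) (v (nat_lit 5) (k (nat_lit 0x1f693698)))) (a (v (nat_lit 3) (u (nat_lit 8) (k (nat_lit 0x2f6f34)))) (u (nat_lit 3) (a (v (nat_lit 9) (k (nat_lit 0x9a1a6))) (u (nat_lit 3) (k (nat_lit 0x121c832a))))))) (a (v (nat_lit 2) (u (nat_lit 9) (k (nat_lit 0x2f6f34)))) (a (u (nat_lit 2) (a (v (nat_lit 8) (k (nat_lit 0x9a1a6))) (u (nat_lit 2) (k (nat_lit 0x121c832a))))) (u (nat_lit 0) (a (v (nat_lit 5) (k (nat_lit 0x9885234))) (v (nat_lit 0) (k (nat_lit 0x131d54)))))))))))))))))))))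

open Fl.Tr in
/-- the table -/
noncomputable def T : Fl.Tr := (c (c (c (c (c (c (c (c (c (c (p (nat_lit 0x6115098)) (c (p (nat_lit 0x24dd5f20)) (c (m (nat_lit 0x63622ec)) (c (p (nat_lit 0x470703c)) (c (p (nat_lit 0x1bf3834)) e))))) (c (c (p (nat_lit 0x24dd5f20)) (c (m (nat_lit 0xf0d3b60)) (c (p (nat_lit 0x1d84e68)) (c (p (nat_lit 0x771657c)) e)))) (c (c (m (nat_lit 0x63622ec)) (c (p (nat_lit 0x1d84e68)) (c (m (nat_lit 0x5561b98)) e))) (c (c (p (nat_lit 0x470703c)) (c (p (nat_lit 0x771657c)) e)) (c (c (p (nat_lit 0x1bf3834)) e) e))))) (c (c (c (p (nat_lit 0x2879d7b0)) (c (p (nat_lit 0x1e068970)) (c (p (nat_lit 0x1080a050)) (c (m (nat_lit 0x34c125c)) e)))) (c (c (m (nat_lit 0x2cdc7d70)) (c (p (nat_lit 0x1b5451b4)) (c (m (nat_lit 0x6ad4204)) e))) (c (c (p (nat_lit 0x2d3bbec)) (c (m (nat_lit 0x132744)) e)) (c (c (m (nat_lit 0xbec7c4)) e)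 e)))) (c (c (c (m (nat_lit 0x1a0737c8)) (c (m (nat_lit 0x20db5b84)) (c (p (nat_lit 0x15f48e4)) e))) (c (c (p (nat_lit 0x20d95574)) (c (m (nat_lit 0x37b9edc)) e)) (c (c (m (nat_lit 0x132564)) e) e))) (c (c (c (p (nat_lit 0x65f51f4)) (c (m (nat_lit 0x2fc6ac)) e)) (c (c (m (nat_lit 0x3423024)) e) e)) (c (c (c (m (nat_lit 0x9de2dc)) e) e) e))))) (c (c (c (c (p (nat_lit 0x2879d7b0)) (c (m (nat_lit 0x2cdc7d70)) (c (p (nat_lit 0x2d3bbec)) (c (m (nat_lit 0xbec7c4)) e)))) (c (c (p (nat_lit 0x1e068970)) (c (p (nat_lit 0x1b5451b4)) (c (m (nat_lit 0x132744)) e))) (c (c (p (nat_lit 0x1080a050)) (c (m (nat_lit 0x6ad4204)) e)) (c (c (m (nat_lit 0x34c125c)) e) e)))) (c (c (c (m (nat_lit 0x10835d30)) (c (p (nat_lit 0x115e5928)) (c (m (nat_lit 0x21f9cf0)) e))) (c (c (p (nat_lit 0x115e5928)) (c (m (nat_lit 0x752faa8)) e)) (c (c (m (nat_lit 0x21f9cf0)) e)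 e))) (c (c (c (p (nat_lit 0xf554c4c)) (c (m (nat_lit 0x21fa8cc)) e)) (c (c (m (nat_lit 0x1cdc94)) e) e)) (c (c (c (m (nat_lit 0xb53404)) e) e) e)))) (c (c (c (c (m (nat_lit 0x1a0737c8)) (c (p (nat_lit 0x20d95574)) (c (m (nat_lit 0x132564)) e))) (c (c (m (nat_lit 0x20db5b84)) (c (m (nat_lit 0x37b9edc)) e)) (c (c (p (nat_lit 0x15f48e4)) e) e))) (c (c (c (p (nat_lit 0xf554c4c)) (c (m (nat_lit 0x1cdc94)) e)) (c (c (m (nat_lit 0x21fa8cc)) e) e)) (c (c (c (m (nat_lit 0x243b478)) e) e) e))) (c (c (c (c (p (nat_lit 0x65f51f4)) (c (m (nat_lit 0x3423024)) e)) (c (c (m (nat_lit 0x2fc6ac)) e) e)) (c (c (c (m (nat_lit 0xb53404)) e) e) e)) (c (c (c (c (m (nat_lit 0x9de2dc)) e) e) e) e))))) (c (c (c (c (c (p (nat_lit 0x1c58c628)) (c (p (nat_lit 0x1d2d0358)) (c (p (nat_lit 0x4c8c5a0)) (c (m (nat_lit 0x35512f8)) e)))) (c (c (p (nat_lit 0x1d2d0358)) (c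 (m (nat_lit 0x1290ced0)) (c (p (nat_lit 0x472b7b0)) e))) (c (c (p (nat_lit 0x4c8c5a0)) (c (p (nat_lit 0x472b7b0)) e)) (c (c (m (nat_lit 0x35512f8)) e) e)))) (c (c (c (m (nat_lit 0x53c3c4)) (c (p (nat_lit 0x228b1fc)) (c (m (nat_lit 0xaddeb50)) e))) (c (c (p (nat_lit 0x9cb9bb0)) (c (m (nat_lit 0x35612dc)) e)) (c (c (p (nat_lit 0x14f5890)) e) e))) (c (c (c (p (nat_lit 0xf4780a4)) (c (p (nat_lit 0x2d3d4dc)) e)) (c (c (m (nat_lit 0xf1dbef0)) e) e)) (c (c (c (m (nat_lit 0x1320d14)) e) e) e)))) (c (c (c (c (m (nat_lit 0x53c3c4)) (c (p (nat_lit 0x9cb9bb0)) (c (p (nat_lit 0x14f5890)) e))) (c (c (p (nat_lit 0x228b1fc)) (c (m (nat_lit 0x35612dc)) e)) (c (c (m (nat_lit 0xaddeb50)) e) e))) (c (c (c (p (nat_lit 0xc0f4398)) (c (m (nat_lit 0x5d7a094)) e)) (c (c (m (nat_lit 0x5d7a094)) e) e)) (c (c (c (m (nat_lit 0x5fdfad4)) e) e) e))) (c (c (c (c (p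 (nat_lit 0xf4780a4)) (c (m (nat_lit 0xf1dbef0)) e)) (c (c (p (nat_lit 0x2d3d4dc)) e) e)) (c (c (c (m (nat_lit 0x5fdfad4)) e) e) e)) (c (c (c (c (m (nat_lit 0x1320d14)) e) e) e) e)))) (c (c (c (c (c (m (nat_lit 0x246fa920)) (c (m (nat_lit 0xa1559f0)) (c (p (nat_lit 0x9ac44)) e))) (c (c (m (nat_lit 0xa1559f0)) (c (p (nat_lit 0x47ad548)) e)) (c (c (p (nat_lit 0x9ac44)) e) e))) (c (c (c (p (nat_lit 0x1baf278)) (c (p (nat_lit 0x28fbd2c)) e)) (c (c (p (nat_lit 0x2aca4d0)) e) e)) (c (c (c (m (nat_lit 0x2eaa0a8)) e) e) e))) (c (c (c (c (p (nat_lit 0x1baf278)) (c (p (nat_lit 0x2aca4d0)) e)) (c (c (p (nat_lit 0x28fbd2c)) e) e)) (c (c (c (m (nat_lit 0x265ae8)) e) e) e)) (c (c (c (c (m (nat_lit 0x2eaa0a8)) e) e) e) e))) (c (c (c (c (c (p (nat_lit 0x9ad8b00)) (c (p (nat_lit 0x1cde80)) e)) (c (c (p (nat_lit 0x1cde80)) e) e)) (c (c (c (p (nat_lit 0x166d1cc))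 e) e) e)) (c (c (c (c (p (nat_lit 0x166d1cc)) e) e) e) e)) (c (c (c (c (c (m (nat_lit 0x42f75a8)) e) e) e) e) e))))) (c (c (c (c (c (c (p (nat_lit 0xc663eab4)) (c (m (nat_lit 0x2bd42f58)) (c (m (nat_lit 0x52c548)) (c (p (nat_lit 0x4bc1c8c)) e)))) (c (c (m (nat_lit 0xbb49c1c)) (c (m (nat_lit 0x11e1e884)) (c (m (nat_lit 0x106a7c0)) e))) (c (c (m (nat_lit 0x2ee1aa0)) (c (m (nat_lit 0x9861918)) e)) (c (c (p (nat_lit 0x4e6e0d0)) e) e)))) (c (c (c (m (nat_lit 0x627ee950)) (c (m (nat_lit 0x2b15af4)) (c (p (nat_lit 0x4a3ded0)) e))) (c (c (p (nat_lit 0x91165f8)) (c (m (nat_lit 0x7e2604)) e)) (c (c (m (nat_lit 0x1e87b4c)) e) e))) (c (c (c (p (nat_lit 0xbf68320)) (c (p (nat_lit 0x142bca8)) e)) (c (c (m (nat_lit 0x35ec1dc)) e) e)) (c (c (c (m (nat_lit 0x395f4c)) e) e) e)))) (c (c (c (c (m (nat_lit 0x53f943b4)) (c (p (nat_lit 0x1728c660)) (c (m (nat_lit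 0x202b3fc)) e))) (c (c (p (nat_lit 0x2ab7d8f0)) (c (m (nat_lit 0x43c5e94)) e)) (c (c (m (nat_lit 0x3a7778)) e) e))) (c (c (c (p (nat_lit 0x12eb7a90)) (c (m (nat_lit 0x4245ff0)) e)) (c (c (m (nat_lit 0x395e848)) e) e)) (c (c (c (m (nat_lit 0x1f934e8)) e) e) e))) (c (c (c (c (p (nat_lit 0x27a3e168)) (c (m (nat_lit 0x1e72b4c)) e)) (c (c (m (nat_lit 0x3a00f8)) e) e)) (c (c (c (m (nat_lit 0x61f4ba4)) e) e) e)) (c (c (c (c (m (nat_lit 0x98d84)) e) e) e) e)))) (c (c (c (c (c (m (nat_lit 0x170f6850)) (c (p (nat_lit 0x1d441ed4)) (c (m (nat_lit 0x5ac5f7c)) e))) (c (c (m (nat_lit 0x224c5488)) (c (m (nat_lit 0x264810)) e)) (c (c (p (nat_lit 0x4d3a24c)) e) e))) (c (c (c (p (nat_lit 0xb09c304)) (c (m (nat_lit 0x6d656b4)) e)) (c (c (m (nat_lit 0x8f062bc)) e) e)) (c (c (c (m (nat_lit 0x3798300)) e) e) e))) (c (c (c (c (p (nat_lit 0x7807e6c)) (c (p (nat_lit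 0x9aab8)) e)) (c (c (m (nat_lit 0x6259e78)) e) e)) (c (c (c (m (nat_lit 0x8f9d060)) e) e) e)) (c (c (c (c (m (nat_lit 0x6081dec)) e) e) e) e))) (c (c (c (c (c (p (nat_lit 0x1bbf700)) (c (m (nat_lit 0x1763730)) e)) (c (c (m (nat_lit 0x2fdeac)) e) e)) (c (c (c (m (nat_lit 0x264e88)) e) e) e)) (c (c (c (c (m (nat_lit 0x13257c)) e) e) e) e)) (c (c (c (c (c (m (nat_lit 0x1cb594)) e) e) e) e) e)))) (c (c (c (c (c (c (m (nat_lit 0xc2cca948)) (c (m (nat_lit 0xbc56374)) (c (m (nat_lit 0x3d1de70)) e))) (c (c (p (nat_lit 0xa9f48d4)) (c (p (nat_lit 0x5c049c0)) e)) (c (c (p (nat_lit 0xb4aac10)) e) e))) (c (c (c (p (nat_lit 0x80a81858)) (c (p (nat_lit 0xfb08a4)) e)) (c (c (m (nat_lit 0x70d8050)) e) e)) (c (c (c (m (nat_lit 0xf2fd54)) e) e) e))) (c (c (c (c (p (nat_lit 0x29dd5c3c)) (c (m (nat_lit 0x808cf68)) e)) (c (c (m (nat_lit 0xebddedc)) e) e))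 (c (c (c (m (nat_lit 0x9ac4e50)) e) e) e)) (c (c (c (c (m (nat_lit 0xce09400)) e) e) e) e))) (c (c (c (c (c (p (nat_lit 0x872ea94)) (c (m (nat_lit 0x719cbc8)) e)) (c (c (p (nat_lit 0xe067de0)) e) e)) (c (c (c (m (nat_lit 0x512f6a0)) e) e) e)) (c (c (c (c (p (nat_lit 0xd52f64)) e) e) e) e)) (c (c (c (c (c (m (nat_lit 0x132474)) e) e) e) e) e))) (c (c (c (c (c (c (p (nat_lit 0x48b4b25c)) (c (p (nat_lit 0x13c38810)) e)) (c (c (m (nat_lit 0x1318bc)) e) e)) (c (c (c (m (nat_lit 0x3410db70)) e) e) e)) (c (c (c (c (m (nat_lit 0x664ce0)) e) e) e) e)) (c (c (c (c (c (m (nat_lit 0x2cb71fc)) e) e) e) e) e)) (c (c (c (c (c (c (m (nat_lit 0x4a3ee54)) e) e) e) e) e) e))))) (c (c (c (c (c (c (c (m (nat_lit 0x19623648)) (c (m (nat_lit 0x18be96b0)) (c (p (nat_lit 0xfa6faf4)) (c (m (nat_lit 0x27c498)) e)))) (c (c (p (nat_lit 0xaa1b8a4)) (c (p (nat_lit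 0x3f643bc)) (c (m (nat_lit 0x9e1c18)) e))) (c (c (m (nat_lit 0x2311197c)) (c (p (nat_lit 0x5b392c0)) e)) (c (c (p (nat_lit 0xf798438)) e) e)))) (c (c (c (m (nat_lit 0x78e9b98)) (c (p (nat_lit 0x1b745b54)) (c (m (nat_lit 0x1983558)) e))) (c (c (p (nat_lit 0x13599828)) (c (m (nat_lit 0x1f661d0)) e)) (c (c (m (nat_lit 0x1cba44)) e) e))) (c (c (c (m (nat_lit 0x2484a9c8)) (c (p (nat_lit 0x3783ef4)) e)) (c (c (m (nat_lit 0x712f1f4)) e) e)) (c (c (c (p (nat_lit 0x481b510)) e) e) e)))) (c (c (c (c (p (nat_lit 0x1799f880)) (c (m (nat_lit 0xf279780)) (c (m (nat_lit 0xe015f4)) e))) (c (c (m (nat_lit 0x26d3b0e8)) (c (p (nat_lit 0x4470d74)) e)) (c (c (p (nat_lit 0xcc24)) e) e))) (c (c (c (m (nat_lit 0x103446c0)) (c (p (nat_lit 0x1398c0)) e)) (c (c (m (nat_lit 0x999f0)) e) e)) (c (c (c (p (nat_lit 0x41b2984)) e) e) e))) (c (c (c (c (m (nat_lit 0x4141d4c))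 (c (m (nat_lit 0x12a164)) e)) (c (c (p (nat_lit 0x16c20cd8)) e) e)) (c (c (c (m (nat_lit 0x460efc)) e) e) e)) (c (c (c (c (m (nat_lit 0x1338a8)) e) e) e) e)))) (c (c (c (c (c (p (nat_lit 0xfc4cd70)) (c (p (nat_lit 0x13fa694)) (c (m (nat_lit 0x2cee834)) e))) (c (c (p (nat_lit 0x15c1914)) (c (m (nat_lit 0x4aec6e0)) e)) (c (c (p (nat_lit 0x20bce48)) e) e))) (c (c (c (p (nat_lit 0xe85c90c)) (c (p (nat_lit 0x3ea91e0)) e)) (c (c (m (nat_lit 0x5ed325c)) e) e)) (c (c (c (m (nat_lit 0x196ca94)) e) e) e))) (c (c (c (c (m (nat_lit 0x6ff5424)) (c (m (nat_lit 0x133a1c)) e)) (c (c (m (nat_lit 0x292920)) e) e)) (c (c (c (m (nat_lit 0xf266268)) e) e) e)) (c (c (c (c (m (nat_lit 0x8fb08)) e) e) e) e))) (c (c (c (c (c (p (nat_lit 0x6313980)) (c (m (nat_lit 0x4a4f624)) e)) (c (c (m (nat_lit 0x2e938fc)) e) e)) (c (c (c (m (nat_lit 0x1c625f4)) e) e) e)) (c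 (c (c (c (m (nat_lit 0x994ec)) e) e) e) e)) (c (c (c (c (c (m (nat_lit 0x1829a54)) e) e) e) e) e)))) (c (c (c (c (c (c (p (nat_lit 0x6e73480)) (c (p (nat_lit 0x15e9d870)) (c (m (nat_lit 0x641db88)) e))) (c (c (p (nat_lit 0x844c7c4)) (c (m (nat_lit 0x6b33a0c)) e)) (c (c (m (nat_lit 0x3a34988)) e) e))) (c (c (c (p (nat_lit 0xede3730)) (c (m (nat_lit 0x3008f88)) e)) (c (c (m (nat_lit 0x1f66d28)) e) e)) (c (c (c (p (nat_lit 0x38b6314)) e) e) e))) (c (c (c (c (p (nat_lit 0x5b80a5c)) (c (p (nat_lit 0x991e0)) e)) (c (c (m (nat_lit 0x6c72b7c)) e) e)) (c (c (c (m (nat_lit 0x268d718)) e) e) e)) (c (c (c (c (m (nat_lit 0x37b96f0)) e) e) e) e))) (c (c (c (c (c (p (nat_lit 0x9561288)) (c (m (nat_lit 0x67964dc)) e)) (c (c (m (nat_lit 0x1cfbd20)) e) e)) (c (c (c (m (nat_lit 0x99204)) e) e) e)) (c (c (c (c (m (nat_lit 0x13290c)) e) e) e) e)) (c (c (c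 (c (c (m (nat_lit 0x1bc9564)) e) e) e) e) e))) (c (c (c (c (c (c (p (nat_lit 0xcaff098)) (c (m (nat_lit 0x1850bec)) e)) (c (c (m (nat_lit 0x104cb08)) e) e)) (c (c (c (m (nat_lit 0x17b7df0)) e) e) e)) (c (c (c (c (m (nat_lit 0x138)) e) e) e) e)) (c (c (c (c (c (m (nat_lit 0x99414)) e) e) e) e) e)) (c (c (c (c (c (c (m (nat_lit 0x84e004)) e) e) e) e) e) e)))) (c (c (c (c (c (c (c (p (nat_lit 0x1393a2e0)) (c (p (nat_lit 0x3368af00)) (c (m (nat_lit 0x1c3d691c)) e))) (c (c (m (nat_lit 0xd7628fc)) (c (m (nat_lit 0x2714f34)) e)) (c (c (m (nat_lit 0x1c63b30)) e) e))) (c (c (c (p (nat_lit 0x23a45f30)) (c (m (nat_lit 0x205f0e48)) e)) (c (c (m (nat_lit 0x133860)) e) e)) (c (c (c (p (nat_lit 0x2cd1ce0)) e) e) e))) (c (c (c (c (p (nat_lit 0xb744010)) (c (m (nat_lit 0x323d768)) e)) (c (c (p (nat_lit 0x2498418)) e) e)) (c (c (c (p (nat_lit 0x205b0c))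 e) e) e)) (c (c (c (c (m (nat_lit 0x7d761f8)) e) e) e) e))) (c (c (c (c (c (p (nat_lit 0x9239934)) (c (m (nat_lit 0xaaf0dc)) e)) (c (c (m (nat_lit 0x1cfeab0)) e) e)) (c (c (c (m (nat_lit 0x98f40)) e) e) e)) (c (c (c (c (m (nat_lit 0x1cca88)) e) e) e) e)) (c (c (c (c (c (m (nat_lit 0x371fc94)) e) e) e) e) e))) (c (c (c (c (c (c (p (nat_lit 0x2570448c)) (c (m (nat_lit 0x12048ea0)) e)) (c (c (m (nat_lit 0x1cb4b0)) e) e)) (c (c (c (m (nat_lit 0x14258070)) e) e) e)) (c (c (c (c (m (nat_lit 0x33716b8)) e) e) e) e)) (c (c (c (c (c (m (nat_lit 0x9202e18)) e) e) e) e) e)) (c (c (c (c (c (c (m (nat_lit 0xa2da5f8)) e) e) e) e) e) e))) (c (c (c (c (c (c (c (m (nat_lit 0xd407f84)) (c (m (nat_lit 0x84)) e)) (c (c (p (nat_lit 0xd5d3290)) e) e)) (c (c (c (m (nat_lit 0x98868)) e) e) e)) (c (c (c (c (m (nat_lit 0x99270)) e) e) e) e)) (c (c (c (c (c (m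 (nat_lit 0x99768)) e) e) e) e) e)) (c (c (c (c (c (c (m (nat_lit 0x24a7d9c)) e) e) e) e) e) e)) (c (c (c (c (c (c (c (m (nat_lit 0x132dbc)) e) e) e) e) e) e) e))))) (c (c (c (c (c (c (c (c (m (nat_lit 0x19623648)) (c (p (nat_lit 0xaa1b8a4)) (c (m (nat_lit 0x2311197c)) (c (p (nat_lit 0xf798438)) e)))) (c (c (m (nat_lit 0x18be96b0)) (c (p (nat_lit 0x3f643bc)) (c (p (nat_lit 0x5b392c0)) e))) (c (c (p (nat_lit 0xfa6faf4)) (c (m (nat_lit 0x9e1c18)) e)) (c (c (m (nat_lit 0x27c498)) e) e)))) (c (c (c (p (nat_lit 0x1799f880)) (c (m (nat_lit 0x26d3b0e8)) (c (p (nat_lit 0xcc24)) e))) (c (c (m (nat_lit 0xf279780)) (c (p (nat_lit 0x4470d74)) e)) (c (c (m (nat_lit 0xe015f4)) e) e))) (c (c (c (m (nat_lit 0x4141d4c)) (c (p (nat_lit 0x16c20cd8)) e)) (c (c (m (nat_lit 0x12a164)) e) e)) (c (c (c (m (nat_lit 0x1338a8)) e) e) e)))) (c (c (c (c (m (nat_lit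 0x78e9b98)) (c (p (nat_lit 0x13599828)) (c (m (nat_lit 0x1cba44)) e))) (c (c (p (nat_lit 0x1b745b54)) (c (m (nat_lit 0x1f661d0)) e)) (c (c (m (nat_lit 0x1983558)) e) e))) (c (c (c (m (nat_lit 0x103446c0)) (c (m (nat_lit 0x999f0)) e)) (c (c (p (nat_lit 0x1398c0)) e) e)) (c (c (c (m (nat_lit 0x460efc)) e) e) e))) (c (c (c (c (m (nat_lit 0x2484a9c8)) (c (m (nat_lit 0x712f1f4)) e)) (c (c (p (nat_lit 0x3783ef4)) e) e)) (c (c (c (p (nat_lit 0x41b2984)) e) e) e)) (c (c (c (c (p (nat_lit 0x481b510)) e) e) e) e)))) (c (c (c (c (c (p (nat_lit 0xfc4cd70)) (c (p (nat_lit 0x15c1914)) (c (p (nat_lit 0x20bce48)) e))) (c (c (p (nat_lit 0x13fa694)) (c (m (nat_lit 0x4aec6e0)) e)) (c (c (m (nat_lit 0x2cee834)) e) e))) (c (c (c (m (nat_lit 0x6ff5424)) (c (m (nat_lit 0x292920)) e)) (c (c (m (nat_lit 0x133a1c)) e) e)) (c (c (c (m (nat_lit 0x8fb08)) e) e) e)))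 (c (c (c (c (p (nat_lit 0xe85c90c)) (c (m (nat_lit 0x5ed325c)) e)) (c (c (p (nat_lit 0x3ea91e0)) e) e)) (c (c (c (m (nat_lit 0xf266268)) e) e) e)) (c (c (c (c (m (nat_lit 0x196ca94)) e) e) e) e))) (c (c (c (c (c (p (nat_lit 0x6313980)) (c (m (nat_lit 0x2e938fc)) e)) (c (c (m (nat_lit 0x4a4f624)) e) e)) (c (c (c (m (nat_lit 0x994ec)) e) e) e)) (c (c (c (c (m (nat_lit 0x1c625f4)) e) e) e) e)) (c (c (c (c (c (m (nat_lit 0x1829a54)) e) e) e) e) e)))) (c (c (c (c (c (c (m (nat_lit 0x219c6ab0)) (c (p (nat_lit 0x6273c9c)) (c (m (nat_lit 0x13155c)) e))) (c (c (m (nat_lit 0x5c4ed60)) (c (m (nat_lit 0xbe75794)) e)) (c (c (m (nat_lit 0x401ecc8)) e) e))) (c (c (c (p (nat_lit 0x19551a8)) (c (p (nat_lit 0x5fe3eb4)) e)) (c (c (m (nat_lit 0x35ba64c)) e) e)) (c (c (c (m (nat_lit 0x1143270)) e) e) e))) (c (c (c (c (p (nat_lit 0x18176ec8)) (c (m (nat_lit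 0x99420)) e)) (c (c (m (nat_lit 0x73de7ac)) e) e)) (c (c (c (m (nat_lit 0x9ccfe94)) e) e) e)) (c (c (c (c (m (nat_lit 0x9a518)) e) e) e) e))) (c (c (c (c (c (m (nat_lit 0x126943e0)) (c (m (nat_lit 0xa2324)) e)) (c (c (m (nat_lit 0x99180)) e) e)) (c (c (c (p (nat_lit 0x7252560)) e) e) e)) (c (c (c (c (m (nat_lit 0x377724c)) e) e) e) e)) (c (c (c (c (c (m (nat_lit 0x9975c)) e) e) e) e) e))) (c (c (c (c (c (c (p (nat_lit 0x369f9f9c)) (c (m (nat_lit 0x98c70)) e)) (c (c (m (nat_lit 0xf833b5c)) e) e)) (c (c (c (m (nat_lit 0x11d70c8)) e) e) e)) (c (c (c (c (m (nat_lit 0x98c40)) e) e) e) e)) (c (c (c (c (c (p (nat_lit 0x5730a2c)) e) e) e) e) e)) (c (c (c (c (c (c (p (nat_lit 0x99ad4)) e) e) e) e) e) e)))) (c (c (c (c (c (c (c (p (nat_lit 0x9378e028)) (c (m (nat_lit 0x1022b0e0)) (c (m (nat_lit 0x990a8)) e))) (c (c (m (nat_lit 0x1022b0e0)) (c (m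 (nat_lit 0x12f9d0c8)) e)) (c (c (m (nat_lit 0x990a8)) e) e))) (c (c (c (m (nat_lit 0x1b4b7074)) (c (m (nat_lit 0x15a493e8)) e)) (c (c (m (nat_lit 0x9ea6c)) e) e)) (c (c (c (p (nat_lit 0x81cb040)) e) e) e))) (c (c (c (c (m (nat_lit 0x1b4b7074)) (c (m (nat_lit 0x9ea6c)) e)) (c (c (m (nat_lit 0x15a493e8)) e) e)) (c (c (c (m (nat_lit 0x23da8)) e) e) e)) (c (c (c (c (p (nat_lit 0x81cb040)) e) e) e) e))) (c (c (c (c (c (m (nat_lit 0x6cb2a58)) (c (p (nat_lit 0x365a264)) e)) (c (c (p (nat_lit 0x365a264)) e) e)) (c (c (c (m (nat_lit 0x9ef88)) e) e) e)) (c (c (c (c (m (nat_lit 0x9ef88)) e) e) e) e)) (c (c (c (c (c (m (nat_lit 0x134868)) e) e) e) e) e))) (c (c (c (c (c (c (m (nat_lit 0x22269b04)) (c (m (nat_lit 0x996f0)) e)) (c (c (p (nat_lit 0x75380b8)) e) e)) (c (c (c (m (nat_lit 0x99bc4)) e) e) e)) (c (c (c (c (p (nat_lit 0x1344)) e) e) e) e))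 (c (c (c (c (c (m (nat_lit 0x9ad34)) e) e) e) e) e)) (c (c (c (c (c (c (m (nat_lit 0x99648)) e) e) e) e) e) e))) (c (c (c (c (c (c (c (m (nat_lit 0x93fa5510)) (c (p (nat_lit 0x1dbd934c)) e)) (c (c (p (nat_lit 0xd64badc)) e) e)) (c (c (c (m (nat_lit 0x995e8)) e) e) e)) (c (c (c (c (p (nat_lit 0x1b52bf84)) e) e) e) e)) (c (c (c (c (c (m (nat_lit 0x133038)) e) e) e) e) e)) (c (c (c (c (c (c (m (nat_lit 0xe127720)) e) e) e) e) e) e)) (c (c (c (c (c (c (c (p (nat_lit 0x11d5e188)) e) e) e) e) e) e) e)))) (c (c (c (c (c (c (c (c (p (nat_lit 0x1393a2e0)) (c (m (nat_lit 0xd7628fc)) (c (m (nat_lit 0x1c63b30)) e))) (c (c (p (nat_lit 0x3368af00)) (c (m (nat_lit 0x2714f34)) e)) (c (c (m (nat_lit 0x1c3d691c)) e) e))) (c (c (c (p (nat_lit 0xb744010)) (c (p (nat_lit 0x2498418)) e)) (c (c (m (nat_lit 0x323d768)) e) e)) (c (c (c (m (nat_lit 0x7d761f8))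 e) e) e))) (c (c (c (c (p (nat_lit 0x23a45f30)) (c (m (nat_lit 0x133860)) e)) (c (c (m (nat_lit 0x205f0e48)) e) e)) (c (c (c (p (nat_lit 0x205b0c)) e) e) e)) (c (c (c (c (p (nat_lit 0x2cd1ce0)) e) e) e) e))) (c (c (c (c (c (p (nat_lit 0x9239934)) (c (m (nat_lit 0x1cfeab0)) e)) (c (c (m (nat_lit 0xaaf0dc)) e) e)) (c (c (c (m (nat_lit 0x1cca88)) e) e) e)) (c (c (c (c (m (nat_lit 0x98f40)) e) e) e) e)) (c (c (c (c (c (m (nat_lit 0x371fc94)) e) e) e) e) e))) (c (c (c (c (c (c (p (nat_lit 0xe1e5200)) (c (p (nat_lit 0x5c9f4d8)) e)) (c (c (p (nat_lit 0x61c6c38)) e) e)) (c (c (c (p (nat_lit 0x1f7052c)) e) e) e)) (c (c (c (c (p (nat_lit 0xa8c)) e) e) e) e)) (c (c (c (c (c (p (nat_lit 0x6092700)) e) e) e) e) e)) (c (c (c (c (c (c (m (nat_lit 0x130dac84)) e) e) e) e) e) e))) (c (c (c (c (c (c (c (m (nat_lit 0x93fa5510)) (c (p (nat_lit 0xd64badc))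 e)) (c (c (p (nat_lit 0x1dbd934c)) e) e)) (c (c (c (p (nat_lit 0x1b52bf84)) e) e) e)) (c (c (c (c (m (nat_lit 0x995e8)) e) e) e) e)) (c (c (c (c (c (m (nat_lit 0x133038)) e) e) e) e) e)) (c (c (c (c (c (c (p (nat_lit 0xd64bf14)) e) e) e) e) e) e)) (c (c (c (c (c (c (c (p (nat_lit 0x372b3448)) e) e) e) e) e) e) e))) (c (c (c (c (c (c (c (c (m (nat_lit 0xd407f84)) (c (p (nat_lit 0xd5d3290)) e)) (c (c (m (nat_lit 0x84)) e) e)) (c (c (c (m (nat_lit 0x99270)) e) e) e)) (c (c (c (c (m (nat_lit 0x98868)) e) e) e) e)) (c (c (c (c (c (m (nat_lit 0x99768)) e) e) e) e) e)) (c (c (c (c (c (c (m (nat_lit 0x99264)) e) e) e) e) e) e)) (c (c (c (c (c (c (c (p (nat_lit 0x11d5e188)) e) e) e) e) e) e) e)) (c (c (c (c (c (c (c (c (m (nat_lit 0x132dbc)) e) e) e) e) e) e) e) e))))) (c (c (c (c (c (c (c (c (c (p (nat_lit 0xc663eab4)) (c (m (nat_lit 0xbb49c1c))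 (c (m (nat_lit 0x2ee1aa0)) (c (p (nat_lit 0x4e6e0d0)) e)))) (c (c (m (nat_lit 0x2bd42f58)) (c (m (nat_lit 0x11e1e884)) (c (m (nat_lit 0x9861918)) e))) (c (c (m (nat_lit 0x52c548)) (c (m (nat_lit 0x106a7c0)) e)) (c (c (p (nat_lit 0x4bc1c8c)) e) e)))) (c (c (c (m (nat_lit 0x53f943b4)) (c (p (nat_lit 0x2ab7d8f0)) (c (m (nat_lit 0x3a7778)) e))) (c (c (p (nat_lit 0x1728c660)) (c (m (nat_lit 0x43c5e94)) e)) (c (c (m (nat_lit 0x202b3fc)) e) e))) (c (c (c (p (nat_lit 0x27a3e168)) (c (m (nat_lit 0x3a00f8)) e)) (c (c (m (nat_lit 0x1e72b4c)) e) e)) (c (c (c (m (nat_lit 0x98d84)) e) e) e)))) (c (c (c (c (m (nat_lit 0x627ee950)) (c (p (nat_lit 0x91165f8)) (c (m (nat_lit 0x1e87b4c)) e))) (c (c (m (nat_lit 0x2b15af4)) (c (m (nat_lit 0x7e2604)) e)) (c (c (p (nat_lit 0x4a3ded0)) e) e))) (c (c (c (p (nat_lit 0x12eb7a90)) (c (m (nat_lit 0x395e848)) e))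 (c (c (m (nat_lit 0x4245ff0)) e) e)) (c (c (c (m (nat_lit 0x61f4ba4)) e) e) e))) (c (c (c (c (p (nat_lit 0xbf68320)) (c (m (nat_lit 0x35ec1dc)) e)) (c (c (p (nat_lit 0x142bca8)) e) e)) (c (c (c (m (nat_lit 0x1f934e8)) e) e) e)) (c (c (c (c (m (nat_lit 0x395f4c)) e) e) e) e)))) (c (c (c (c (c (m (nat_lit 0x170f6850)) (c (m (nat_lit 0x224c5488)) (c (p (nat_lit 0x4d3a24c)) e))) (c (c (p (nat_lit 0x1d441ed4)) (c (m (nat_lit 0x264810)) e)) (c (c (m (nat_lit 0x5ac5f7c)) e) e))) (c (c (c (p (nat_lit 0x7807e6c)) (c (m (nat_lit 0x6259e78)) e)) (c (c (p (nat_lit 0x9aab8)) e) e)) (c (c (c (m (nat_lit 0x6081dec)) e) e) e))) (c (c (c (c (p (nat_lit 0xb09c304)) (c (m (nat_lit 0x8f062bc)) e)) (c (c (m (nat_lit 0x6d656b4)) e) e)) (c (c (c (m (nat_lit 0x8f9d060)) e) e) e)) (c (c (c (c (m (nat_lit 0x3798300)) e) e) e) e))) (c (c (c (c (c (p (nat_lit 0x1bbf700))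 (c (m (nat_lit 0x2fdeac)) e)) (c (c (m (nat_lit 0x1763730)) e) e)) (c (c (c (m (nat_lit 0x13257c)) e) e) e)) (c (c (c (c (m (nat_lit 0x264e88)) e) e) e) e)) (c (c (c (c (c (m (nat_lit 0x1cb594)) e) e) e) e) e)))) (c (c (c (c (c (c (m (nat_lit 0xbab6fa48)) (c (p (nat_lit 0x3d8454c8)) (c (m (nat_lit 0x4da300)) e))) (c (c (p (nat_lit 0x3d8454c8)) (c (m (nat_lit 0x789a968)) e)) (c (c (m (nat_lit 0x4da300)) e) e))) (c (c (c (p (nat_lit 0x303b5a88)) (c (m (nat_lit 0x267645c)) e)) (c (c (m (nat_lit 0x7774c2c)) e) e)) (c (c (c (p (nat_lit 0x1cec)) e) e) e))) (c (c (c (c (p (nat_lit 0x303b5a88)) (c (m (nat_lit 0x7774c2c)) e)) (c (c (m (nat_lit 0x267645c)) e) e)) (c (c (c (m (nat_lit 0x73adf18)) e) e) e)) (c (c (c (c (p (nat_lit 0x1cec)) e) e) e) e))) (c (c (c (c (c (p (nat_lit 0x2c019030)) (c (m (nat_lit 0x11dda280)) e)) (c (c (m (nat_lit 0x11dda280))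 e) e)) (c (c (c (m (nat_lit 0x93458b8)) e) e) e)) (c (c (c (c (m (nat_lit 0x93458b8)) e) e) e) e)) (c (c (c (c (c (m (nat_lit 0x4ca0e8)) e) e) e) e) e))) (c (c (c (c (c (c (p (nat_lit 0x327993c0)) (c (m (nat_lit 0x75b3808)) e)) (c (c (m (nat_lit 0x68252a0)) e) e)) (c (c (c (m (nat_lit 0x8d7a7fc)) e) e) e)) (c (c (c (c (m (nat_lit 0x1087a478)) e) e) e) e)) (c (c (c (c (c (p (nat_lit 0xb7fff0)) e) e) e) e) e)) (c (c (c (c (c (c (m (nat_lit 0x20395bc)) e) e) e) e) e) e)))) (c (c (c (c (c (c (c (m (nat_lit 0x219c6ab0)) (c (m (nat_lit 0x5c4ed60)) (c (m (nat_lit 0x401ecc8)) e))) (c (c (p (nat_lit 0x6273c9c)) (c (m (nat_lit 0xbe75794)) e)) (c (c (m (nat_lit 0x13155c)) e) e))) (c (c (c (p (nat_lit 0x18176ec8)) (c (m (nat_lit 0x73de7ac)) e)) (c (c (m (nat_lit 0x99420)) e) e)) (c (c (c (m (nat_lit 0x9a518)) e) e) e))) (c (c (c (c (p (nat_lit 0x19551a8))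 (c (m (nat_lit 0x35ba64c)) e)) (c (c (p (nat_lit 0x5fe3eb4)) e) e)) (c (c (c (m (nat_lit 0x9ccfe94)) e) e) e)) (c (c (c (c (m (nat_lit 0x1143270)) e) e) e) e))) (c (c (c (c (c (m (nat_lit 0x126943e0)) (c (m (nat_lit 0x99180)) e)) (c (c (m (nat_lit 0xa2324)) e) e)) (c (c (c (m (nat_lit 0x377724c)) e) e) e)) (c (c (c (c (p (nat_lit 0x7252560)) e) e) e) e)) (c (c (c (c (c (m (nat_lit 0x9975c)) e) e) e) e) e))) (c (c (c (c (c (c (m (nat_lit 0x46e090c)) (c (p (nat_lit 0xb2c10dc)) e)) (c (c (m (nat_lit 0x6edcea0)) e) e)) (c (c (c (m (nat_lit 0x26e800)) e) e) e)) (c (c (c (c (m (nat_lit 0x33c35a0)) e) e) e) e)) (c (c (c (c (c (m (nat_lit 0x266214)) e) e) e) e) e)) (c (c (c (c (c (c (m (nat_lit 0x1cd6ac)) e) e) e) e) e) e))) (c (c (c (c (c (c (c (p (nat_lit 0xe1e5200)) (c (p (nat_lit 0x61c6c38)) e)) (c (c (p (nat_lit 0x5c9f4d8)) e) e)) (c (c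 (c (p (nat_lit 0xa8c)) e) e) e)) (c (c (c (c (p (nat_lit 0x1f7052c)) e) e) e) e)) (c (c (c (c (c (p (nat_lit 0x6092700)) e) e) e) e) e)) (c (c (c (c (c (c (m (nat_lit 0xe41ee4)) e) e) e) e) e) e)) (c (c (c (c (c (c (c (m (nat_lit 0x99264)) e) e) e) e) e) e) e)))) (c (c (c (c (c (c (c (c (p (nat_lit 0x6e73480)) (c (p (nat_lit 0x844c7c4)) (c (m (nat_lit 0x3a34988)) e))) (c (c (p (nat_lit 0x15e9d870)) (c (m (nat_lit 0x6b33a0c)) e)) (c (c (m (nat_lit 0x641db88)) e) e))) (c (c (c (p (nat_lit 0x5b80a5c)) (c (m (nat_lit 0x6c72b7c)) e)) (c (c (p (nat_lit 0x991e0)) e) e)) (c (c (c (m (nat_lit 0x37b96f0)) e) e) e))) (c (c (c (c (p (nat_lit 0xede3730)) (c (m (nat_lit 0x1f66d28)) e)) (c (c (m (nat_lit 0x3008f88)) e) e)) (c (c (c (m (nat_lit 0x268d718)) e) e) e)) (c (c (c (c (p (nat_lit 0x38b6314)) e) e) e) e))) (c (c (c (c (c (p (nat_lit 0x9561288))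 (c (m (nat_lit 0x1cfbd20)) e)) (c (c (m (nat_lit 0x67964dc)) e) e)) (c (c (c (m (nat_lit 0x13290c)) e) e) e)) (c (c (c (c (m (nat_lit 0x99204)) e) e) e) e)) (c (c (c (c (c (m (nat_lit 0x1bc9564)) e) e) e) e) e))) (c (c (c (c (c (c (m (nat_lit 0x46e090c)) (c (m (nat_lit 0x6edcea0)) e)) (c (c (p (nat_lit 0xb2c10dc)) e) e)) (c (c (c (m (nat_lit 0x33c35a0)) e) e) e)) (c (c (c (c (m (nat_lit 0x26e800)) e) e) e) e)) (c (c (c (c (c (m (nat_lit 0x266214)) e) e) e) e) e)) (c (c (c (c (c (c (m (nat_lit 0x3858060)) e) e) e) e) e) e))) (c (c (c (c (c (c (c (m (nat_lit 0x22269b04)) (c (p (nat_lit 0x75380b8)) e)) (c (c (m (nat_lit 0x996f0)) e) e)) (c (c (c (p (nat_lit 0x1344)) e) e) e)) (c (c (c (c (m (nat_lit 0x99bc4)) e) e) e) e)) (c (c (c (c (c (m (nat_lit 0x9ad34)) e) e) e) e) e)) (c (c (c (c (c (c (m (nat_lit 0x134f58)) e) e) e) e) e) e)) (c (c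 (c (c (c (c (c (p (nat_lit 0xd64bf14)) e) e) e) e) e) e) e))) (c (c (c (c (c (c (c (c (p (nat_lit 0x2570448c)) (c (m (nat_lit 0x1cb4b0)) e)) (c (c (m (nat_lit 0x12048ea0)) e) e)) (c (c (c (m (nat_lit 0x33716b8)) e) e) e)) (c (c (c (c (m (nat_lit 0x14258070)) e) e) e) e)) (c (c (c (c (c (m (nat_lit 0x9202e18)) e) e) e) e) e)) (c (c (c (c (c (c (m (nat_lit 0xe41ee4)) e) e) e) e) e) e)) (c (c (c (c (c (c (c (m (nat_lit 0xe127720)) e) e) e) e) e) e) e)) (c (c (c (c (c (c (c (c (m (nat_lit 0x24a7d9c)) e) e) e) e) e) e) e) e)))) (c (c (c (c (c (c (c (c (c (m (nat_lit 0xc2cca948)) (c (p (nat_lit 0xa9f48d4)) (c (p (nat_lit 0xb4aac10)) e))) (c (c (m (nat_lit 0xbc56374)) (c (p (nat_lit 0x5c049c0)) e)) (c (c (m (nat_lit 0x3d1de70)) e) e))) (c (c (c (p (nat_lit 0x29dd5c3c)) (c (m (nat_lit 0xebddedc)) e)) (c (c (m (nat_lit 0x808cf68)) e) e)) (c (c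 (c (m (nat_lit 0xce09400)) e) e) e))) (c (c (c (c (p (nat_lit 0x80a81858)) (c (m (nat_lit 0x70d8050)) e)) (c (c (p (nat_lit 0xfb08a4)) e) e)) (c (c (c (m (nat_lit 0x9ac4e50)) e) e) e)) (c (c (c (c (m (nat_lit 0xf2fd54)) e) e) e) e))) (c (c (c (c (c (p (nat_lit 0x872ea94)) (c (p (nat_lit 0xe067de0)) e)) (c (c (m (nat_lit 0x719cbc8)) e) e)) (c (c (c (p (nat_lit 0xd52f64)) e) e) e)) (c (c (c (c (m (nat_lit 0x512f6a0)) e) e) e) e)) (c (c (c (c (c (m (nat_lit 0x132474)) e) e) e) e) e))) (c (c (c (c (c (c (p (nat_lit 0x327993c0)) (c (m (nat_lit 0x68252a0)) e)) (c (c (m (nat_lit 0x75b3808)) e) e)) (c (c (c (m (nat_lit 0x1087a478)) e) e) e)) (c (c (c (c (m (nat_lit 0x8d7a7fc)) e) e) e) e)) (c (c (c (c (c (p (nat_lit 0xb7fff0)) e) e) e) e) e)) (c (c (c (c (c (c (m (nat_lit 0x3ba2400)) e) e) e) e) e) e))) (c (c (c (c (c (c (c (p (nat_lit 0x369f9f9c))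 (c (m (nat_lit 0xf833b5c)) e)) (c (c (m (nat_lit 0x98c70)) e) e)) (c (c (c (m (nat_lit 0x98c40)) e) e) e)) (c (c (c (c (m (nat_lit 0x11d70c8)) e) e) e) e)) (c (c (c (c (c (p (nat_lit 0x5730a2c)) e) e) e) e) e)) (c (c (c (c (c (c (m (nat_lit 0x3858060)) e) e) e) e) e) e)) (c (c (c (c (c (c (c (m (nat_lit 0x130dac84)) e) e) e) e) e) e) e))) (c (c (c (c (c (c (c (c (p (nat_lit 0xcaff098)) (c (m (nat_lit 0x104cb08)) e)) (c (c (m (nat_lit 0x1850bec)) e) e)) (c (c (c (m (nat_lit 0x138)) e) e) e)) (c (c (c (c (m (nat_lit 0x17b7df0)) e) e) e) e)) (c (c (c (c (c (m (nat_lit 0x99414)) e) e) e) e) e)) (c (c (c (c (c (c (m (nat_lit 0x1cd6ac)) e) e) e) e) e) e)) (c (c (c (c (c (c (c (m (nat_lit 0x99648)) e) e) e) e) e) e) e)) (c (c (c (c (c (c (c (c (m (nat_lit 0xa2da5f8)) e) e) e) e) e) e) e) e))) (c (c (c (c (c (c (c (c (c (p (nat_lit 0x48b4b25c))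 (c (m (nat_lit 0x1318bc)) e)) (c (c (p (nat_lit 0x13c38810)) e) e)) (c (c (c (m (nat_lit 0x664ce0)) e) e) e)) (c (c (c (c (m (nat_lit 0x3410db70)) e) e) e) e)) (c (c (c (c (c (m (nat_lit 0x2cb71fc)) e) e) e) e) e)) (c (c (c (c (c (c (m (nat_lit 0x20395bc)) e) e) e) e) e) e)) (c (c (c (c (c (c (c (p (nat_lit 0x99ad4)) e) e) e) e) e) e) e)) (c (c (c (c (c (c (c (c (m (nat_lit 0x84e004)) e) e) e) e) e) e) e) e)) (c (c (c (c (c (c (c (c (c (m (nat_lit 0x4a3ee54)) e) e) e) e) e) e) e) e) e))))) (c (c (c (c (c (c (c (c (c (c (m (nat_lit 0x968c5908)) (c (p (nat_lit 0x35316af8)) (c (p (nat_lit 0x3aa6118)) (c (m (nat_lit 0x264810)) e)))) (c (c (p (nat_lit 0x35316af8)) (c (m (nat_lit 0x331a70)) (c (m (nat_lit 0x3206eec)) e))) (c (c (p (nat_lit 0x3aa6118)) (c (m (nat_lit 0x3206eec)) e)) (c (c (m (nat_lit 0x264810)) e) e)))) (c (c (c (p (nat_lit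 0x1cb67ac4)) (c (m (nat_lit 0x2301e0a0)) (c (m (nat_lit 0x988e0)) e))) (c (c (m (nat_lit 0x6fb1be8)) (c (p (nat_lit 0xaf5cb4)) e)) (c (c (p (nat_lit 0xd08)) e) e))) (c (c (c (m (nat_lit 0x35d6a68)) (c (p (nat_lit 0x9d57d94)) e)) (c (c (p (nat_lit 0x366ec64)) e) e)) (c (c (c (m (nat_lit 0x99198)) e) e) e)))) (c (c (c (c (p (nat_lit 0x1cb67ac4)) (c (m (nat_lit 0x6fb1be8)) (c (p (nat_lit 0xd08)) e))) (c (c (m (nat_lit 0x2301e0a0)) (c (p (nat_lit 0xaf5cb4)) e)) (c (c (m (nat_lit 0x988e0)) e) e))) (c (c (c (p (nat_lit 0x2743bc0)) (c (m (nat_lit 0x398fe8)) e)) (c (c (m (nat_lit 0x398fe8)) e) e)) (c (c (c (m (nat_lit 0x99144)) e) e) e))) (c (c (c (c (m (nat_lit 0x35d6a68)) (c (p (nat_lit 0x366ec64)) e)) (c (c (p (nat_lit 0x9d57d94)) e) e)) (c (c (c (m (nat_lit 0x99144)) e) e) e)) (c (c (c (c (m (nat_lit 0x99198)) e) e) e) e)))) (c (c (c (c (c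 (m (nat_lit 0x2e6b0480)) (c (m (nat_lit 0x1849f470)) (c (m (nat_lit 0x3c6b7c)) e))) (c (c (m (nat_lit 0x1849f470)) (c (m (nat_lit 0x6e0a00)) e)) (c (c (m (nat_lit 0x3c6b7c)) e) e))) (c (c (c (p (nat_lit 0x32cf484)) (c (p (nat_lit 0x6d0bc)) e)) (c (c (p (nat_lit 0x10635c)) e) e)) (c (c (c (m (nat_lit 0x99294)) e) e) e))) (c (c (c (c (p (nat_lit 0x32cf484)) (c (p (nat_lit 0x10635c)) e)) (c (c (p (nat_lit 0x6d0bc)) e) e)) (c (c (c (m (nat_lit 0x48b13d8)) e) e) e)) (c (c (c (c (m (nat_lit 0x99294)) e) e) e) e))) (c (c (c (c (c (p (nat_lit 0x277eceb8)) (c (m (nat_lit 0x329be0)) e)) (c (c (m (nat_lit 0x329be0)) e) e)) (c (c (c (p (nat_lit 0x6d2d8)) e) e) e)) (c (c (c (c (p (nat_lit 0x6d2d8)) e) e) e) e)) (c (c (c (c (c (m (nat_lit 0x4c7aa8)) e) e) e) e) e)))) (c (c (c (c (c (c (p (nat_lit 0x23fc86b0)) (c (m (nat_lit 0x90eed94)) (c (m (nat_lit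 0x132348)) e))) (c (c (m (nat_lit 0x2060a534)) (c (m (nat_lit 0x2d48b40)) e)) (c (c (m (nat_lit 0xdc556d0)) e) e))) (c (c (c (m (nat_lit 0x334695c)) (c (m (nat_lit 0x158070)) e)) (c (c (p (nat_lit 0x35371b0)) e) e)) (c (c (c (m (nat_lit 0x5a6570)) e) e) e))) (c (c (c (c (p (nat_lit 0x1302d8)) (c (m (nat_lit 0x99438)) e)) (c (c (m (nat_lit 0x1cb594)) e) e)) (c (c (c (p (nat_lit 0x690)) e) e) e)) (c (c (c (c (m (nat_lit 0x132120)) e) e) e) e))) (c (c (c (c (c (m (nat_lit 0x176fa5b8)) (c (p (nat_lit 0xd348cb0)) e)) (c (c (p (nat_lit 0xc09723c)) e) e)) (c (c (c (p (nat_lit 0x1218c90)) e) e) e)) (c (c (c (c (m (nat_lit 0x99258)) e) e) e) e)) (c (c (c (c (c (p (nat_lit 0xbffdf54)) e) e) e) e) e))) (c (c (c (c (c (c (p (nat_lit 0x39c450)) (c (m (nat_lit 0x1321bc)) e)) (c (c (m (nat_lit 0x1d0eec)) e) e)) (c (c (c (m (nat_lit 0x9a164)) e) e) e))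 (c (c (c (c (p (nat_lit 0x9a3e0)) e) e) e) e)) (c (c (c (c (c (p (nat_lit 0x12b1f6c)) e) e) e) e) e)) (c (c (c (c (c (c (m (nat_lit 0x98f70)) e) e) e) e) e) e)))) (c (c (c (c (c (c (c (p (nat_lit 0xa8c6d014)) (c (m (nat_lit 0x244c470)) (c (m (nat_lit 0x434f10)) e))) (c (c (m (nat_lit 0xe1222c)) (c (m (nat_lit 0xba47568)) e)) (c (c (m (nat_lit 0x131fd0)) e) e))) (c (c (c (m (nat_lit 0x1b439b0c)) (c (p (nat_lit 0x4e07458)) e)) (c (c (m (nat_lit 0x988d4)) e) e)) (c (c (c (m (nat_lit 0x985a4)) e) e) e))) (c (c (c (c (m (nat_lit 0x1ebb0fa4)) (c (m (nat_lit 0x267de0)) e)) (c (c (m (nat_lit 0x13a844)) e) e)) (c (c (c (m (nat_lit 0x11c9c7c)) e) e) e)) (c (c (c (c (m (nat_lit 0x99108)) e) e) e) e))) (c (c (c (c (c (m (nat_lit 0xb0b7db4)) (c (m (nat_lit 0x2fd96c)) e)) (c (c (m (nat_lit 0x1cb450)) e) e)) (c (c (c (m (nat_lit 0x1329e4)) e) e) e))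 (c (c (c (c (m (nat_lit 0x99114)) e) e) e) e)) (c (c (c (c (c (p (nat_lit 0x57bf4fc)) e) e) e) e) e))) (c (c (c (c (c (c (m (nat_lit 0x9db17a0)) (c (m (nat_lit 0x1c70dc)) e)) (c (c (p (nat_lit 0x6890070)) e) e)) (c (c (c (p (nat_lit 0x33ebe90)) e) e) e)) (c (c (c (c (m (nat_lit 0x1346c4)) e) e) e) e)) (c (c (c (c (c (m (nat_lit 0x13230c)) e) e) e) e) e)) (c (c (c (c (c (c (m (nat_lit 0x132990)) e) e) e) e) e) e))) (c (c (c (c (c (c (c (m (nat_lit 0x35e7754c)) (c (m (nat_lit 0x1cb060)) e)) (c (c (p (nat_lit 0x65aa110)) e) e)) (c (c (c (p (nat_lit 0x115cb93c)) e) e) e)) (c (c (c (c (p (nat_lit 0x65a405c)) e) e) e) e)) (c (c (c (c (c (m (nat_lit 0x1321b0)) e) e) e) e) e)) (c (c (c (c (c (c (m (nat_lit 0x62f25d8)) e) e) e) e) e) e)) (c (c (c (c (c (c (c (m (nat_lit 0x1325c4)) e) e) e) e) e) e) e)))) (c (c (c (c (c (c (c (c (p (nat_lit 0xa8c6d014))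 (c (m (nat_lit 0xe1222c)) (c (m (nat_lit 0x131fd0)) e))) (c (c (m (nat_lit 0x244c470)) (c (m (nat_lit 0xba47568)) e)) (c (c (m (nat_lit 0x434f10)) e) e))) (c (c (c (m (nat_lit 0x1ebb0fa4)) (c (m (nat_lit 0x13a844)) e)) (c (c (m (nat_lit 0x267de0)) e) e)) (c (c (c (m (nat_lit 0x99108)) e) e) e))) (c (c (c (c (m (nat_lit 0x1b439b0c)) (c (m (nat_lit 0x988d4)) e)) (c (c (p (nat_lit 0x4e07458)) e) e)) (c (c (c (m (nat_lit 0x11c9c7c)) e) e) e)) (c (c (c (c (m (nat_lit 0x985a4)) e) e) e) e))) (c (c (c (c (c (m (nat_lit 0xb0b7db4)) (c (m (nat_lit 0x1cb450)) e)) (c (c (m (nat_lit 0x2fd96c)) e) e)) (c (c (c (m (nat_lit 0x99114)) e) e) e)) (c (c (c (c (m (nat_lit 0x1329e4)) e) e) e) e)) (c (c (c (c (c (p (nat_lit 0x57bf4fc)) e) e) e) e) e))) (c (c (c (c (c (c (m (nat_lit 0x401f6688)) (c (p (nat_lit 0x133338)) e)) (c (c (p (nat_lit 0x2881c44)) e)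 e)) (c (c (c (p (nat_lit 0x1055d09c)) e) e) e)) (c (c (c (c (p (nat_lit 0x21c)) e) e) e) e)) (c (c (c (c (c (m (nat_lit 0xfc)) e) e) e) e) e)) (c (c (c (c (c (c (p (nat_lit 0x66171c0)) e) e) e) e) e) e))) (c (c (c (c (c (c (c (m (nat_lit 0x407d0c00)) (c (m (nat_lit 0x9c108)) e)) (c (c (m (nat_lit 0x9c108)) e) e)) (c (c (c (p (nat_lit 0xc7d5290)) e) e) e)) (c (c (c (c (p (nat_lit 0xc7d5290)) e) e) e) e)) (c (c (c (c (c (m (nat_lit 0x129648)) e) e) e) e) e)) (c (c (c (c (c (c (p (nat_lit 0x139a82a8)) e) e) e) e) e) e)) (c (c (c (c (c (c (c (p (nat_lit 0x1d4)) e) e) e) e) e) e) e))) (c (c (c (c (c (c (c (c (m (nat_lit 0x35e7754c)) (c (p (nat_lit 0x65aa110)) e)) (c (c (m (nat_lit 0x1cb060)) e) e)) (c (c (c (p (nat_lit 0x65a405c)) e) e) e)) (c (c (c (c (p (nat_lit 0x115cb93c)) e) e) e) e)) (c (c (c (c (c (m (nat_lit 0x1321b0)) e) e) e) e)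 e)) (c (c (c (c (c (c (p (nat_lit 0x65a4080)) e) e) e) e) e) e)) (c (c (c (c (c (c (c (p (nat_lit 0x1d4)) e) e) e) e) e) e) e)) (c (c (c (c (c (c (c (c (m (nat_lit 0x1325c4)) e) e) e) e) e) e) e) e)))) (c (c (c (c (c (c (c (c (c (p (nat_lit 0x23fc86b0)) (c (m (nat_lit 0x2060a534)) (c (m (nat_lit 0xdc556d0)) e))) (c (c (m (nat_lit 0x90eed94)) (c (m (nat_lit 0x2d48b40)) e)) (c (c (m (nat_lit 0x132348)) e) e))) (c (c (c (p (nat_lit 0x1302d8)) (c (m (nat_lit 0x1cb594)) e)) (c (c (m (nat_lit 0x99438)) e) e)) (c (c (c (m (nat_lit 0x132120)) e) e) e))) (c (c (c (c (m (nat_lit 0x334695c)) (c (p (nat_lit 0x35371b0)) e)) (c (c (m (nat_lit 0x158070)) e) e)) (c (c (c (p (nat_lit 0x690)) e) e) e)) (c (c (c (c (m (nat_lit 0x5a6570)) e) e) e) e))) (c (c (c (c (c (m (nat_lit 0x176fa5b8)) (c (p (nat_lit 0xc09723c)) e)) (c (c (p (nat_lit 0xd348cb0)) e)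 e)) (c (c (c (m (nat_lit 0x99258)) e) e) e)) (c (c (c (c (p (nat_lit 0x1218c90)) e) e) e) e)) (c (c (c (c (c (p (nat_lit 0xbffdf54)) e) e) e) e) e))) (c (c (c (c (c (c (m (nat_lit 0xef15a00)) (c (p (nat_lit 0xa2de168)) e)) (c (c (p (nat_lit 0xa2de168)) e) e)) (c (c (c (m (nat_lit 0x397770)) e) e) e)) (c (c (c (c (m (nat_lit 0x397770)) e) e) e) e)) (c (c (c (c (c (m (nat_lit 0x62c8c38)) e) e) e) e) e)) (c (c (c (c (c (c (m (nat_lit 0x1cb6b4)) e) e) e) e) e) e))) (c (c (c (c (c (c (c (m (nat_lit 0x401f6688)) (c (p (nat_lit 0x2881c44)) e)) (c (c (p (nat_lit 0x133338)) e) e)) (c (c (c (p (nat_lit 0x21c)) e) e) e)) (c (c (c (c (p (nat_lit 0x1055d09c)) e) e) e) e)) (c (c (c (c (c (m (nat_lit 0xfc)) e) e) e) e) e)) (c (c (c (c (c (c (m (nat_lit 0x13a82c)) e) e) e) e) e) e)) (c (c (c (c (c (c (c (p (nat_lit 0x65a4080)) e) e) e) e) e) e) e)))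 (c (c (c (c (c (c (c (c (m (nat_lit 0x9db17a0)) (c (p (nat_lit 0x6890070)) e)) (c (c (m (nat_lit 0x1c70dc)) e) e)) (c (c (c (m (nat_lit 0x1346c4)) e) e) e)) (c (c (c (c (p (nat_lit 0x33ebe90)) e) e) e) e)) (c (c (c (c (c (m (nat_lit 0x13230c)) e) e) e) e) e)) (c (c (c (c (c (c (m (nat_lit 0x13a82c)) e) e) e) e) e) e)) (c (c (c (c (c (c (c (p (nat_lit 0x139a82a8)) e) e) e) e) e) e) e)) (c (c (c (c (c (c (c (c (m (nat_lit 0x62f25d8)) e) e) e) e) e) e) e) e))) (c (c (c (c (c (c (c (c (c (p (nat_lit 0x39c450)) (c (m (nat_lit 0x1d0eec)) e)) (c (c (m (nat_lit 0x1321bc)) e) e)) (c (c (c (p (nat_lit 0x9a3e0)) e) e) e)) (c (c (c (c (m (nat_lit 0x9a164)) e) e) e) e)) (c (c (c (c (c (p (nat_lit 0x12b1f6c)) e) e) e) e) e)) (c (c (c (c (c (c (m (nat_lit 0x1cb6b4)) e) e) e) e) e) e)) (c (c (c (c (c (c (c (p (nat_lit 0x66171c0)) e) e) e) e) e) e) e))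 (c (c (c (c (c (c (c (c (m (nat_lit 0x132990)) e) e) e) e) e) e) e) e)) (c (c (c (c (c (c (c (c (c (m (nat_lit 0x98f70)) e) e) e) e) e) e) e) e) e)))) (c (c (c (c (c (c (c (c (c (c (p (nat_lit 0x5a7e6738)) (c (p (nat_lit 0x7fb6234)) (c (m (nat_lit 0x605c7c)) e))) (c (c (p (nat_lit 0x7fb6234)) (c (m (nat_lit 0xc11f190)) e)) (c (c (m (nat_lit 0x605c7c)) e) e))) (c (c (c (m (nat_lit 0x160c16c4)) (c (p (nat_lit 0x45c10ec)) e)) (c (c (m (nat_lit 0xb2adae0)) e) e)) (c (c (c (m (nat_lit 0x99000)) e) e) e))) (c (c (c (c (m (nat_lit 0x160c16c4)) (c (m (nat_lit 0xb2adae0)) e)) (c (c (p (nat_lit 0x45c10ec)) e) e)) (c (c (c (m (nat_lit 0x132078)) e) e) e)) (c (c (c (c (m (nat_lit 0x99000)) e) e) e) e))) (c (c (c (c (c (p (nat_lit 0x4719a3b0)) (c (m (nat_lit 0x42fc6c)) e)) (c (c (m (nat_lit 0x42fc6c)) e) e)) (c (c (c (m (nat_lit 0x5524da0)) e) e)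 e)) (c (c (c (c (m (nat_lit 0x5524da0)) e) e) e) e)) (c (c (c (c (c (m (nat_lit 0x1f8f7548)) e) e) e) e) e))) (c (c (c (c (c (c (p (nat_lit 0xddcd234)) (c (m (nat_lit 0x39c654)) e)) (c (c (m (nat_lit 0x5ec2a50)) e) e)) (c (c (c (p (nat_lit 0x17891c70)) e) e) e)) (c (c (c (c (p (nat_lit 0x18d8)) e) e) e) e)) (c (c (c (c (c (m (nat_lit 0x264b7c)) e) e) e) e) e)) (c (c (c (c (c (c (m (nat_lit 0x98f94)) e) e) e) e) e) e))) (c (c (c (c (c (c (c (m (nat_lit 0x28baf95c)) (c (m (nat_lit 0x1342b0)) e)) (c (c (p (nat_lit 0x4f0a8c8)) e) e)) (c (c (c (m (nat_lit 0x2220e58)) e) e) e)) (c (c (c (c (m (nat_lit 0x1329c0)) e) e) e) e)) (c (c (c (c (c (m (nat_lit 0x132690)) e) e) e) e) e)) (c (c (c (c (c (c (m (nat_lit 0x9f3c0)) e) e) e) e) e) e)) (c (c (c (c (c (c (c (p (nat_lit 0x12260fa0)) e) e) e) e) e) e) e))) (c (c (c (c (c (c (c (c (m (nat_lit 0x28baf95c))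 (c (p (nat_lit 0x4f0a8c8)) e)) (c (c (m (nat_lit 0x1342b0)) e) e)) (c (c (c (m (nat_lit 0x1329c0)) e) e) e)) (c (c (c (c (m (nat_lit 0x2220e58)) e) e) e) e)) (c (c (c (c (c (m (nat_lit 0x132690)) e) e) e) e) e)) (c (c (c (c (c (c (m (nat_lit 0x1fde21a4)) e) e) e) e) e) e)) (c (c (c (c (c (c (c (m (nat_lit 0x132bd0)) e) e) e) e) e) e) e)) (c (c (c (c (c (c (c (c (p (nat_lit 0x12260fa0)) e) e) e) e) e) e) e) e))) (c (c (c (c (c (c (c (c (c (p (nat_lit 0xddcd234)) (c (m (nat_lit 0x5ec2a50)) e)) (c (c (m (nat_lit 0x39c654)) e) e)) (c (c (c (p (nat_lit 0x18d8)) e) e) e)) (c (c (c (c (p (nat_lit 0x17891c70)) e) e) e) e)) (c (c (c (c (c (m (nat_lit 0x264b7c)) e) e) e) e) e)) (c (c (c (c (c (c (p (nat_lit 0x1110)) e) e) e) e) e) e)) (c (c (c (c (c (c (c (m (nat_lit 0x1fde21a4)) e) e) e) e) e) e) e)) (c (c (c (c (c (c (c (c (m (nat_lit 0x9f3c0))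 e) e) e) e) e) e) e) e)) (c (c (c (c (c (c (c (c (c (m (nat_lit 0x98f94)) e) e) e) e) e) e) e) e) e))) (c (c (c (c (c (c (c (c (c (c (p (nat_lit 0x85f908)) (c (m (nat_lit 0x1cad30)) e)) (c (c (m (nat_lit 0x1cad30)) e) e)) (c (c (c (m (nat_lit 0x9987c)) e) e) e)) (c (c (c (c (m (nat_lit 0x9987c)) e) e) e) e)) (c (c (c (c (c (m (nat_lit 0x9c1bab0)) e) e) e) e) e)) (c (c (c (c (c (c (m (nat_lit 0x132990)) e) e) e) e) e) e)) (c (c (c (c (c (c (c (m (nat_lit 0x99618)) e) e) e) e) e) e) e)) (c (c (c (c (c (c (c (c (m (nat_lit 0x99618)) e) e) e) e) e) e) e) e)) (c (c (c (c (c (c (c (c (c (m (nat_lit 0x132990)) e) e) e) e) e) e) e) e) e)) (c (c (c (c (c (c (c (c (c (c (m (nat_lit 0x263ca0)) e) e) e) e) e) e) e) e) e) e)))))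

theorem c1 : trsOK col trs = true := by decide +kernel
theorem c2 : Nat.ble (Nat.mul (nat_lit 39) (nat_lit 4556)) (nat_lit 4294967295) = true := by decide +kernel
theorem c3 : Nat.beq (tabK (nat_lit 39) (List.ofFn s10)) kt = true := by decide +kernel
theorem c4 : okE trs E = true := by decide +kernel
theorem c5 : dE E (nat_lit 4) = true := by decide +kernel
theorem c6 : cmpK (nat_lit 10) (nat_lit 4) kt E T = true := by decide +kernel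
theorem c7 : bndK (nat_lit 10) (nat_lit 4) (Nat.pow (nat_lit 2) (nat_lit 39)) E T = true := by decide +kernel

theorem c0 : Fl.codeB col = 13 := by decide +kernel

theorem own : Fl.OwnOK 4 T 13 :=
  own_ok c0 c1 c2 c3 c4 c5 c6 c7

end H13

end Own

end HR
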