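import Pool.Agent.Lib.MP_a1b8b7_co.B.OwnOK

set_option autoImplicit false

namespace HR

namespace Own

namespace H15

open Chk

def col : Fin 10 → Bool := ![true, true, true, true, false, false, false, false, false, false]

def trs : List ℕ := [nat_lit 528, nat_lit 2420, nat_lit 2437]

def kt : ℕ := nat_lit 0x27000000c300000333000008610000174f00003ace000082b60000e3250001a64c0002b614

open Ex in
noncomputable def E : Ex := (a (a (a (a (u (nat_lit 9) (v (nat_lit 9) (v (nat_lit 9) (v (nat_lit 9) (k (nat_lit 0x131f58)))))) (v (nat_lit 8) (a (u (nat_lit 9) (u (nat_lit 9) (v (nat_lit 9) (k (nat_lit 0x9913e))))) (v (nat_lit 8) (v (nat_lit 8) (u (nat_lit 9) (k (nat_lit 0x995ee)))))))) (a (u (nat_lit 8) (a (v (nat_lit 9) (v (nat_lit 9) (v (nat_lit 9) (k (nat_lit 0x98c82))))) (v (nat_lit 8) (a (v (nat_lit 9) (v (nat_lit 9) (k (nat_lit 0x993ea))))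 (v (nat_lit 8) (v (nat_lit 8) (k (nat_lit 0x98e98)))))))) (a (v (nat_lit 7) (a (u (nat_lit 9) (u (nat_lit 9) (v (nat_lit 9) (k (nat_lit 0x9913e))))) (a (u (nat_lit 8) (a (v (nat_lit 9) (v (nat_lit 9) (k (nat_lit 0x9a080)))) (v (nat_lit 8) (a (v (nat_lit 9) (k (nat_lit 0x99150))) (v (nat_lit 8) (k (nat_lit 0x9912c))))))) (v (nat_lit 7) (a (u (nat_lit 8) (v (nat_lit 8) (k (nat_lit 0x9935a)))) (v (nat_lit 7) (u (nat_lit 9) (k (nat_lit 0x995ee))))))))) (u (nat_lit 7) (a (v (nat_lit 9) (v (nat_lit 9) (v (nat_lit 9) (k (nat_lit 0x98c82))))) (a (v (nat_lit 8) (v (nat_lit 9) (v (nat_lit 9) (k (nat_lit 0x9a080))))) (v (nat_lit 7) (a (v (nat_lit 9) (v (nat_lit 9) (k (nat_lit 0x993ea)))) (a (v (nat_lit 8) (a (v (nat_lit 9) (k (nat_lit 0x99150))) (v (nat_lit 8) (k (nat_lit 0x9935a))))) (v (nat_lit 7) (a (v (nat_lit 8) (k (nat_lit 0x9912c))) (v (nat_lit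 7) (k (nat_lit 0x98e98)))))))))))))) (a (a (v (nat_lit 6) (a (a (u (nat_lit 9) (v (nat_lit 9) (v (nat_lit 9) (k (nat_lit 0x132438))))) (a (v (nat_lit 8) (u (nat_lit 9) (v (nat_lit 9) (k (nat_lit 0x9901e))))) (u (nat_lit 8) (v (nat_lit 8) (a (v (nat_lit 9) (k (nat_lit 0x99126))) (v (nat_lit 8) (k (nat_lit 0x99486)))))))) (a (v (nat_lit 7) (a (u (nat_lit 9) (v (nat_lit 9) (k (nat_lit 0x9901e)))) (a (v (nat_lit 8) (u (nat_lit 9) (k (nat_lit 0x131d48)))) (u (nat_lit 8) (v (nat_lit 8) (k (nat_lit 0x9990c))))))) (a (u (nat_lit 7) (v (nat_lit 7) (a (v (nat_lit 9) (k (nat_lit 0x99126))) (a (v (nat_lit 8) (k (nat_lit 0x9990c))) (v (nat_lit 7) (k (nat_lit 0x99486))))))) (v (nat_lit 6) (a (a (u (nat_lit 8) (u (nat_lit 9) (k (nat_lit 0x10a3dba)))) (v (nat_lit 7) (u (nat_lit 8) (k (nat_lit 0x9998a))))) (a (u (nat_lit 7) (a (u (nat_lit 9) (k (nat_lit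 0x10a3dba))) (v (nat_lit 8) (k (nat_lit 0x9998a))))) (v (nat_lit 6) (a (u (nat_lit 9) (k (nat_lit 0x132768))) (a (u (nat_lit 8) (k (nat_lit 0x99132))) (u (nat_lit 7) (k (nat_lit 0x99132))))))))))))) (a (u (nat_lit 6) (a (a (v (nat_lit 9) (v (nat_lit 9) (v (nat_lit 9) (k (nat_lit 0x131730))))) (v (nat_lit 8) (a (v (nat_lit 9) (v (nat_lit 9) (k (nat_lit 0x995e2)))) (v (nat_lit 8) (a (v (nat_lit 9) (k (nat_lit 0x99378))) (v (nat_lit 8) (k (nat_lit 0x1a41068)))))))) (a (v (nat_lit 7) (a (v (nat_lit 9) (v (nat_lit 9) (k (nat_lit 0x995e2)))) (v (nat_lit 7) (a (v (nat_lit 9) (k (nat_lit 0x99378))) (v (nat_lit 7) (k (nat_lit 0x1a41068))))))) (a (v (nat_lit 6) (a (a (v (nat_lit 9) (v (nat_lit 9) (k (nat_lit 0x131d18)))) (v (nat_lit 8) (a (v (nat_lit 9) (k (nat_lit 0x99228))) (v (nat_lit 8) (k (nat_lit 0x990c0)))))) (a (v (nat_lit 7) (a (v (nat_lit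 9) (k (nat_lit 0x99228))) (a (v (nat_lit 8) (k (nat_lit 0x1327e0))) (v (nat_lit 7) (k (nat_lit 0x990c0)))))) (v (nat_lit 6) (a (a (v (nat_lit 9) (k (nat_lit 0x131ee0))) (v (nat_lit 8) (k (nat_lit 0x99084)))) (a (v (nat_lit 7) (k (nat_lit 0x99084))) (v (nat_lit 6) (k (nat_lit 0x132168))))))))) (u (nat_lit 6) (a (v (nat_lit 6) (a (v (nat_lit 8) (k (nat_lit 0x99d6e))) (v (nat_lit 7) (k (nat_lit 0x99d6e))))) (u (nat_lit 6) (v (nat_lit 6) (k (nat_lit 0x262680)))))))))) (v (nat_lit 5) (a (a (u (nat_lit 7) (a (v (nat_lit 7) (a (v (nat_lit 9) (k (nat_lit 0x993fc))) (a (v (nat_lit 8) (k (nat_lit 0x990a8))) (u (nat_lit 8) (k (nat_lit 0x99af2)))))) (u (nat_lit 7) (a (v (nat_lit 8) (k (nat_lit 0x95ad65c))) (v (nat_lit 7) (k (nat_lit 0x3077e14))))))) (v (nat_lit 6) (a (u (nat_lit 9) (v (nat_lit 9) (k (nat_lit 0x99240)))) (a (u (nat_lit 8) (a (u (nat_lit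 9) (k (nat_lit 0x9af02))) (u (nat_lit 8) (k (nat_lit 0x6328ce0))))) (v (nat_lit 7) (a (u (nat_lit 9) (k (nat_lit 0x9905a))) (u (nat_lit 8) (k (nat_lit 0x99048))))))))) (a (u (nat_lit 6) (v (nat_lit 6) (a (a (v (nat_lit 9) (k (nat_lit 0x991d4))) (v (nat_lit 8) (k (nat_lit 0x98fb2)))) (a (v (nat_lit 7) (k (nat_lit 0x99138))) (v (nat_lit 6) (k (nat_lit 0x985da))))))) (v (nat_lit 5) (a (a (u (nat_lit 9) (v (nat_lit 9) (k (nat_lit 0x98cdc)))) (u (nat_lit 8) (a (v (nat_lit 9) (k (nat_lit 0x98cc4))) (v (nat_lit 8) (k (nat_lit 0x997fe)))))) (a (u (nat_lit 7) (a (v (nat_lit 9) (k (nat_lit 0x98cb2))) (a (v (nat_lit 8) (k (nat_lit 0x3e7b418))) (v (nat_lit 7) (k (nat_lit 0x9beec)))))) (a (v (nat_lit 6) (a (u (nat_lit 9) (k (nat_lit 0x995b2))) (a (u (nat_lit 8) (k (nat_lit 0x9b30a))) (u (nat_lit 7) (k (nat_lit 0xc14977e)))))) (u (nat_lit 6) (a (v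 (nat_lit 7) (k (nat_lit 0x1d3a72))) (v (nat_lit 6) (k (nat_lit 0xb5f3e)))))))))))))) (a (u (nat_lit 5) (a (a (v (nat_lit 9) (v (nat_lit 9) (v (nat_lit 9) (k (nat_lit 0x98c94))))) (a (v (nat_lit 8) (a (v (nat_lit 9) (v (nat_lit 9) (k (nat_lit 0x98fb8)))) (v (nat_lit 8) (a (v (nat_lit 9) (k (nat_lit 0x98fd0))) (v (nat_lit 8) (k (nat_lit 0x991e6))))))) (v (nat_lit 7) (a (v (nat_lit 9) (v (nat_lit 9) (k (nat_lit 0x98f88)))) (a (v (nat_lit 8) (a (v (nat_lit 9) (k (nat_lit 0x98f64))) (v (nat_lit 8) (k (nat_lit 0x98de4))))) (v (nat_lit 7) (v (nat_lit 7) (k (nat_lit 0x988e6))))))))) (a (v (nat_lit 6) (a (v (nat_lit 8) (a (v (nat_lit 9) (k (nat_lit 0x99306))) (v (nat_lit 8) (k (nat_lit 0x98f5e))))) (a (v (nat_lit 7) (v (nat_lit 7) (k (nat_lit 0x990d2)))) (v (nat_lit 6) (v (nat_lit 6) (k (nat_lit 0x9910e))))))) (a (u (nat_lit 6) (v (nat_lit 6)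 (v (nat_lit 8) (k (nat_lit 0x99684))))) (v (nat_lit 5) (a (v (nat_lit 6) (v (nat_lit 7) (k (nat_lit 0x96b88)))) (v (nat_lit 5) (a (a (v (nat_lit 9) (k (nat_lit 0x98f22))) (v (nat_lit 8) (k (nat_lit 0x99042)))) (a (v (nat_lit 7) (k (nat_lit 0x98ae4))) (a (v (nat_lit 6) (k (nat_lit 0x98c0a))) (v (nat_lit 5) (k (nat_lit 0x98cee))))))))))))) (a (t (nat_lit 5) (nat_lit 8) (nat_lit 9) (a (a (u (nat_lit 8) (u (nat_lit 8) (u (nat_lit 9) (k (nat_lit 0x9953a))))) (a (u (nat_lit 7) (a (u (nat_lit 8) (u (nat_lit 9) (k (nat_lit 0x9912c)))) (u (nat_lit 7) (a (u (nat_lit 8) (k (nat_lit 0x98fdc))) (u (nat_lit 7) (k (nat_lit 0x145e354))))))) (u (nat_lit 6) (a (u (nat_lit 9) (u (nat_lit 9) (k (nat_lit 0x23846a6)))) (u (nat_lit 6) (a (u (nat_lit 9) (k (nat_lit 0x91c3f26))) (u (nat_lit 6) (k (nat_lit 0x99444))))))))) (a (v (nat_lit 5) (u (nat_lit 6) (u (nat_lit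 6) (k (nat_lit 0x99c8a))))) (a (u (nat_lit 5) (a (a (u (nat_lit 9) (u (nat_lit 9) (k (nat_lit 0x9969c)))) (u (nat_lit 8) (u (nat_lit 8) (k (nat_lit 0x3a0d6ee))))) (a (u (nat_lit 7) (v (nat_lit 9) (k (nat_lit 0x9998a)))) (a (u (nat_lit 6) (u (nat_lit 8) (k (nat_lit 0xb1ccc)))) (v (nat_lit 5) (v (nat_lit 5) (k (nat_lit 0x9f8e2)))))))) (t (nat_lit 5) (nat_lit 8) (nat_lit 9) (a (u (nat_lit 9) (v (nat_lit 9) (k (nat_lit 0x9b22c)))) (t (nat_lit 5) (nat_lit 8) (nat_lit 9) (u (nat_lit 6) (k (nat_lit 0xf0b45a)))))))))) (v (nat_lit 4) (a (a (a (u (nat_lit 8) (a (v (nat_lit 8) (v (nat_lit 9) (k (nat_lit 0x993fc)))) (u (nat_lit 8) (v (nat_lit 8) (k (nat_lit 0x3077e14)))))) (v (nat_lit 7) (u (nat_lit 8) (a (v (nat_lit 8) (k (nat_lit 0x990a8))) (u (nat_lit 8) (k (nat_lit 0x95ad65c))))))) (a (u (nat_lit 7) (u (nat_lit 8) (v (nat_lit 8) (k (nat_lit 0x99af2)))))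 (v (nat_lit 6) (a (u (nat_lit 9) (v (nat_lit 9) (k (nat_lit 0x99240)))) (a (v (nat_lit 8) (u (nat_lit 9) (k (nat_lit 0x9905a)))) (u (nat_lit 7) (a (u (nat_lit 9) (k (nat_lit 0x9af02))) (a (v (nat_lit 8) (k (nat_lit 0x99048))) (u (nat_lit 7) (k (nat_lit 0x6328ce0))))))))))) (a (a (u (nat_lit 6) (v (nat_lit 6) (a (a (v (nat_lit 9) (k (nat_lit 0x991d4))) (v (nat_lit 8) (k (nat_lit 0x99138)))) (a (v (nat_lit 7) (k (nat_lit 0x98fb2))) (v (nat_lit 6) (k (nat_lit 0x985da))))))) (v (nat_lit 5) (a (a (v (nat_lit 7) (u (nat_lit 8) (k (nat_lit 0x8bfb078)))) (u (nat_lit 7) (v (nat_lit 8) (k (nat_lit 0x8bfb078))))) (a (v (nat_lit 6) (a (u (nat_lit 9) (k (nat_lit 0x12ff00))) (a (u (nat_lit 8) (k (nat_lit 0x99fa2))) (u (nat_lit 7) (k (nat_lit 0x99fa2)))))) (u (nat_lit 6) (v (nat_lit 6) (k (nat_lit 0x134d9c)))))))) (a (u (nat_lit 5) (a (a (v (nat_lit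 9) (v (nat_lit 9) (k (nat_lit 0x9907e)))) (v (nat_lit 8) (v (nat_lit 9) (k (nat_lit 0x9c75c))))) (a (v (nat_lit 7) (a (v (nat_lit 9) (k (nat_lit 0x99bd6))) (a (v (nat_lit 8) (k (nat_lit 0x9913e))) (v (nat_lit 7) (k (nat_lit 0x99162)))))) (a (v (nat_lit 6) (a (a (v (nat_lit 9) (k (nat_lit 0x9a58a))) (v (nat_lit 8) (k (nat_lit 0x9b7ea)))) (a (v (nat_lit 7) (k (nat_lit 0x9600c))) (v (nat_lit 6) (k (nat_lit 0x99f9c)))))) (v (nat_lit 5) (v (nat_lit 6) (k (nat_lit 0x99888)))))))) (v (nat_lit 4) (a (a (a (u (nat_lit 9) (v (nat_lit 9) (k (nat_lit 0x98cdc)))) (u (nat_lit 8) (a (v (nat_lit 9) (k (nat_lit 0x98cb2))) (v (nat_lit 8) (k (nat_lit 0x9beec)))))) (a (v (nat_lit 7) (u (nat_lit 8) (k (nat_lit 0x3e7b418)))) (u (nat_lit 7) (a (v (nat_lit 9) (k (nat_lit 0x98cc4))) (v (nat_lit 7) (k (nat_lit 0x997fe))))))) (a (a (v (nat_lit 6) (a (u (nat_lit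 9) (k (nat_lit 0x995b2))) (a (u (nat_lit 8) (k (nat_lit 0xc14977e))) (u (nat_lit 7) (k (nat_lit 0x9b30a)))))) (u (nat_lit 6) (a (v (nat_lit 8) (k (nat_lit 0x1d3a72))) (v (nat_lit 6) (k (nat_lit 0xb5f3e)))))) (a (u (nat_lit 5) (a (a (v (nat_lit 9) (k (nat_lit 0x98f52))) (v (nat_lit 8) (k (nat_lit 0x98fbe)))) (a (v (nat_lit 7) (k (nat_lit 0x99048))) (a (v (nat_lit 6) (k (nat_lit 0x9cdfe))) (v (nat_lit 5) (k (nat_lit 0x98cfa))))))) (a (t (nat_lit 5) (nat_lit 8) (nat_lit 9) (u (nat_lit 5) (k (nat_lit 0x1e76764)))) (v (nat_lit 4) (u (nat_lit 5) (k (nat_lit 0x98d18))))))))))))))))) (a (a (a (u (nat_lit 4) (a (a (a (v (nat_lit 9) (v (nat_lit 9) (v (nat_lit 9) (k (nat_lit 0x98c94))))) (v (nat_lit 8) (a (v (nat_lit 9) (v (nat_lit 9) (k (nat_lit 0x98f88)))) (v (nat_lit 8) (v (nat_lit 8) (k (nat_lit 0x988e6))))))) (a (v (nat_lit 7) (a (v (nat_lit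 9) (v (nat_lit 9) (k (nat_lit 0x98fb8)))) (a (v (nat_lit 8) (v (nat_lit 9) (k (nat_lit 0x98f64)))) (v (nat_lit 7) (a (v (nat_lit 9) (k (nat_lit 0x98fd0))) (a (v (nat_lit 8) (k (nat_lit 0x98de4))) (v (nat_lit 7) (k (nat_lit 0x991e6))))))))) (v (nat_lit 6) (a (v (nat_lit 8) (v (nat_lit 8) (k (nat_lit 0x990d2)))) (a (v (nat_lit 7) (a (v (nat_lit 9) (k (nat_lit 0x99306))) (v (nat_lit 7) (k (nat_lit 0x98f5e))))) (v (nat_lit 6) (v (nat_lit 6) (k (nat_lit 0x9910e))))))))) (a (a (u (nat_lit 6) (v (nat_lit 6) (v (nat_lit 7) (k (nat_lit 0x99684))))) (v (nat_lit 5) (a (a (v (nat_lit 9) (v (nat_lit 9) (k (nat_lit 0x9907e)))) (v (nat_lit 8) (a (v (nat_lit 9) (k (nat_lit 0x99bd6))) (v (nat_lit 8) (k (nat_lit 0x99162)))))) (a (v (nat_lit 7) (a (v (nat_lit 9) (k (nat_lit 0x9c75c))) (v (nat_lit 8) (k (nat_lit 0x9913e))))) (a (v (nat_lit 6) (a (a (v (nat_lit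 9) (k (nat_lit 0x9a58a))) (v (nat_lit 8) (k (nat_lit 0x9600c)))) (a (v (nat_lit 7) (k (nat_lit 0x9b7ea))) (v (nat_lit 6) (k (nat_lit 0x99f9c)))))) (v (nat_lit 5) (a (a (v (nat_lit 9) (k (nat_lit 0x98f52))) (v (nat_lit 8) (k (nat_lit 0x99048)))) (a (v (nat_lit 7) (k (nat_lit 0x98fbe))) (a (v (nat_lit 6) (k (nat_lit 0x9cdfe))) (v (nat_lit 5) (k (nat_lit 0x98d18)))))))))))) (a (u (nat_lit 5) (v (nat_lit 5) (v (nat_lit 7) (k (nat_lit 0x993c0))))) (a (t (nat_lit 5) (nat_lit 8) (nat_lit 9) (a (a (u (nat_lit 8) (u (nat_lit 8) (k (nat_lit 0x2f3ab3a)))) (u (nat_lit 7) (v (nat_lit 7) (k (nat_lit 0x4af3a0c))))) (a (u (nat_lit 6) (u (nat_lit 8) (k (nat_lit 0x10a161e)))) (a (v (nat_lit 5) (u (nat_lit 6) (k (nat_lit 0xf6bd2a)))) (t (nat_lit 5) (nat_lit 8) (nat_lit 9) (u (nat_lit 9) (k (nat_lit 0x99dc8)))))))) (v (nat_lit 4) (a (a (v (nat_lit 6) (v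 (nat_lit 8) (k (nat_lit 0x96b88)))) (v (nat_lit 5) (a (v (nat_lit 6) (k (nat_lit 0x99888))) (v (nat_lit 5) (k (nat_lit 0x98cfa)))))) (a (u (nat_lit 5) (v (nat_lit 8) (k (nat_lit 0x993c0)))) (a (t (nat_lit 5) (nat_lit 8) (nat_lit 9) (a (u (nat_lit 8) (k (nat_lit 0x9976e))) (v (nat_lit 5) (k (nat_lit 0xf6fb2e))))) (v (nat_lit 4) (a (a (v (nat_lit 9) (k (nat_lit 0x98f22))) (v (nat_lit 8) (k (nat_lit 0x98ae4)))) (a (v (nat_lit 7) (k (nat_lit 0x99042))) (a (v (nat_lit 6) (k (nat_lit 0x98c0a))) (v (nat_lit 4) (k (nat_lit 0x98cee)))))))))))))))) (t (nat_lit 4) (nat_lit 7) (nat_lit 9) (a (a (a (u (nat_lit 8) (u (nat_lit 8) (u (nat_lit 8) (k (nat_lit 0x145e354))))) (u (nat_lit 7) (a (u (nat_lit 8) (a (u (nat_lit 9) (k (nat_lit 0x9912c))) (u (nat_lit 8) (k (nat_lit 0x98fdc))))) (u (nat_lit 7) (u (nat_lit 9) (k (nat_lit 0x9953a))))))) (a (u (nat_lit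 6) (a (u (nat_lit 9) (u (nat_lit 9) (k (nat_lit 0x23846a6)))) (u (nat_lit 6) (a (u (nat_lit 9) (k (nat_lit 0x91c3f26))) (u (nat_lit 6) (k (nat_lit 0x99444))))))) (u (nat_lit 5) (a (a (u (nat_lit 8) (v (nat_lit 8) (k (nat_lit 0x4af3a0c)))) (u (nat_lit 7) (u (nat_lit 7) (k (nat_lit 0x2f3ab3a))))) (a (u (nat_lit 6) (u (nat_lit 7) (k (nat_lit 0x10a161e)))) (v (nat_lit 5) (u (nat_lit 7) (k (nat_lit 0x9976e))))))))) (a (a (t (nat_lit 5) (nat_lit 8) (nat_lit 9) (a (a (v (nat_lit 7) (u (nat_lit 8) (k (nat_lit 0x1311852)))) (u (nat_lit 7) (v (nat_lit 8) (k (nat_lit 0x1311852))))) (a (u (nat_lit 5) (u (nat_lit 7) (k (nat_lit 0x999ba)))) (t (nat_lit 5) (nat_lit 8) (nat_lit 9) (u (nat_lit 6) (k (nat_lit 0x9903c))))))) (v (nat_lit 4) (a (u (nat_lit 6) (u (nat_lit 6) (k (nat_lit 0x99c8a)))) (a (u (nat_lit 5) (a (u (nat_lit 6) (k (nat_lit 0xf6bd2a)))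 (v (nat_lit 5) (k (nat_lit 0xf6fb2e))))) (t (nat_lit 5) (nat_lit 8) (nat_lit 9) (u (nat_lit 5) (k (nat_lit 0x210182a)))))))) (a (u (nat_lit 4) (a (a (u (nat_lit 9) (u (nat_lit 9) (k (nat_lit 0x9969c)))) (a (u (nat_lit 8) (v (nat_lit 9) (k (nat_lit 0x9998a)))) (u (nat_lit 7) (u (nat_lit 7) (k (nat_lit 0x3a0d6ee)))))) (a (a (u (nat_lit 6) (u (nat_lit 7) (k (nat_lit 0xb1ccc)))) (v (nat_lit 5) (v (nat_lit 5) (k (nat_lit 0x1e76764))))) (a (t (nat_lit 5) (nat_lit 8) (nat_lit 9) (a (u (nat_lit 8) (k (nat_lit 0x999ba))) (v (nat_lit 5) (k (nat_lit 0x210182a))))) (v (nat_lit 4) (v (nat_lit 4) (k (nat_lit 0x9f8e2)))))))) (t (nat_lit 4) (nat_lit 7) (nat_lit 9) (a (a (u (nat_lit 9) (v (nat_lit 9) (k (nat_lit 0x9b22c)))) (u (nat_lit 5) (u (nat_lit 9) (k (nat_lit 0x99dc8))))) (a (t (nat_lit 5) (nat_lit 8) (nat_lit 9) (u (nat_lit 6) (k (nat_lit 0x9903c))))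 (t (nat_lit 4) (nat_lit 7) (nat_lit 9) (u (nat_lit 6) (k (nat_lit 0xf0b45a)))))))))))) (a (v (nat_lit 3) (a (a (a (v (nat_lit 8) (u (nat_lit 9) (u (nat_lit 9) (k (nat_lit 0x997f2))))) (a (v (nat_lit 7) (a (u (nat_lit 9) (u (nat_lit 9) (k (nat_lit 0x997f2)))) (u (nat_lit 8) (u (nat_lit 8) (k (nat_lit 0x44d631e)))))) (u (nat_lit 7) (u (nat_lit 7) (v (nat_lit 8) (k (nat_lit 0x44d631e))))))) (a (v (nat_lit 6) (a (a (u (nat_lit 8) (u (nat_lit 8) (k (nat_lit 0x9bbce)))) (v (nat_lit 7) (u (nat_lit 8) (k (nat_lit 0x99264))))) (a (u (nat_lit 7) (a (v (nat_lit 8) (k (nat_lit 0x99264))) (u (nat_lit 7) (k (nat_lit 0x9bbce))))) (v (nat_lit 6) (a (u (nat_lit 9) (k (nat_lit 0x131f28))) (a (u (nat_lit 8) (k (nat_lit 0x9a0f2))) (u (nat_lit 7) (k (nat_lit 0x9a0f2))))))))) (a (u (nat_lit 6) (a (a (v (nat_lit 8) (u (nat_lit 9) (k (nat_lit 0x670f500)))) (v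 (nat_lit 7) (u (nat_lit 9) (k (nat_lit 0x670f500))))) (a (v (nat_lit 6) (a (a (v (nat_lit 9) (k (nat_lit 0x131ee0))) (v (nat_lit 8) (k (nat_lit 0x98fe8)))) (a (v (nat_lit 7) (k (nat_lit 0x98fe8))) (v (nat_lit 6) (k (nat_lit 0x257c64)))))) (u (nat_lit 6) (a (v (nat_lit 8) (k (nat_lit 0x21b20d4))) (v (nat_lit 7) (k (nat_lit 0x21b20d4)))))))) (v (nat_lit 5) (u (nat_lit 6) (v (nat_lit 6) (k (nat_lit 0x3d40748)))))))) (a (a (u (nat_lit 5) (a (a (v (nat_lit 8) (a (u (nat_lit 9) (k (nat_lit 0x997ec))) (v (nat_lit 8) (k (nat_lit 0x89e782c))))) (v (nat_lit 7) (a (v (nat_lit 8) (k (nat_lit 0x9937e))) (v (nat_lit 7) (k (nat_lit 0x9dc9e)))))) (a (v (nat_lit 6) (a (v (nat_lit 7) (k (nat_lit 0x9927c))) (v (nat_lit 6) (k (nat_lit 0x9acce))))) (a (v (nat_lit 5) (a (v (nat_lit 6) (k (nat_lit 0x9945c))) (v (nat_lit 5) (k (nat_lit 0x99504))))) (u (nat_lit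 5) (v (nat_lit 7) (k (nat_lit 0x361940a)))))))) (a (t (nat_lit 5) (nat_lit 8) (nat_lit 9) (u (nat_lit 6) (u (nat_lit 6) (k (nat_lit 0x9974a))))) (v (nat_lit 4) (a (u (nat_lit 6) (v (nat_lit 6) (k (nat_lit 0x3d40748)))) (u (nat_lit 5) (a (v (nat_lit 6) (k (nat_lit 0x9981c))) (v (nat_lit 5) (k (nat_lit 0x9918c))))))))) (a (u (nat_lit 4) (a (a (v (nat_lit 8) (v (nat_lit 8) (k (nat_lit 0x9dc9e)))) (a (v (nat_lit 7) (a (u (nat_lit 9) (k (nat_lit 0x997ec))) (a (v (nat_lit 8) (k (nat_lit 0x9937e))) (v (nat_lit 7) (k (nat_lit 0x89e782c)))))) (v (nat_lit 6) (a (v (nat_lit 8) (k (nat_lit 0x9927c))) (v (nat_lit 6) (k (nat_lit 0x9acce))))))) (a (v (nat_lit 5) (v (nat_lit 6) (k (nat_lit 0x9981c)))) (a (v (nat_lit 4) (a (v (nat_lit 6) (k (nat_lit 0x9945c))) (a (v (nat_lit 5) (k (nat_lit 0x9918c))) (v (nat_lit 4) (k (nat_lit 0x99504)))))) (u (nat_lit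 4) (v (nat_lit 8) (k (nat_lit 0x361940a)))))))) (a (t (nat_lit 4) (nat_lit 7) (nat_lit 9) (u (nat_lit 6) (u (nat_lit 6) (k (nat_lit 0x9974a))))) (v (nat_lit 3) (a (a (a (u (nat_lit 9) (v (nat_lit 9) (k (nat_lit 0x135318)))) (a (v (nat_lit 8) (u (nat_lit 9) (k (nat_lit 0x99162)))) (u (nat_lit 8) (v (nat_lit 8) (k (nat_lit 0x994b0)))))) (a (v (nat_lit 7) (a (u (nat_lit 9) (k (nat_lit 0x99162))) (u (nat_lit 8) (k (nat_lit 0x8df0de))))) (a (u (nat_lit 7) (a (v (nat_lit 8) (k (nat_lit 0x8df0de))) (v (nat_lit 7) (k (nat_lit 0x994b0))))) (v (nat_lit 6) (a (u (nat_lit 9) (k (nat_lit 0x1ca355c))) (a (u (nat_lit 8) (k (nat_lit 0x6a472ac))) (u (nat_lit 7) (k (nat_lit 0x6a472ac))))))))) (a (a (u (nat_lit 6) (a (a (v (nat_lit 9) (k (nat_lit 0x130464))) (v (nat_lit 8) (k (nat_lit 0x9bbf8)))) (a (v (nat_lit 7) (k (nat_lit 0x9bbf8))) (v (nat_lit 6) (k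 (nat_lit 0x141cd8)))))) (a (u (nat_lit 5) (a (a (v (nat_lit 9) (k (nat_lit 0x98a48))) (a (v (nat_lit 8) (k (nat_lit 0x98394))) (v (nat_lit 7) (k (nat_lit 0x987f6))))) (a (v (nat_lit 6) (k (nat_lit 0x9a1fa))) (a (u (nat_lit 6) (k (nat_lit 0x98e56))) (v (nat_lit 5) (k (nat_lit 0x98d96))))))) (v (nat_lit 4) (u (nat_lit 5) (k (nat_lit 0x99f4e)))))) (a (u (nat_lit 4) (a (a (a (v (nat_lit 9) (k (nat_lit 0x98a48))) (v (nat_lit 8) (k (nat_lit 0x987f6)))) (a (v (nat_lit 7) (k (nat_lit 0x98394))) (v (nat_lit 6) (k (nat_lit 0x9a1fa))))) (a (a (u (nat_lit 6) (k (nat_lit 0x98e56))) (v (nat_lit 5) (k (nat_lit 0x99f4e)))) (a (t (nat_lit 5) (nat_lit 8) (nat_lit 9) (k (nat_lit 0x4ab8f96))) (v (nat_lit 4) (k (nat_lit 0x98d96))))))) (a (t (nat_lit 4) (nat_lit 7) (nat_lit 9) (u (nat_lit 5) (k (nat_lit 0x4ab8f96)))) (v (nat_lit 3) (a (u (nat_lit 5) (k (nat_lit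 0x992be))) (u (nat_lit 4) (k (nat_lit 0x992be))))))))))))))) (a (u (nat_lit 3) (a (a (a (v (nat_lit 9) (v (nat_lit 9) (v (nat_lit 9) (k (nat_lit 0x131904))))) (a (v (nat_lit 8) (a (v (nat_lit 9) (v (nat_lit 9) (k (nat_lit 0x990d2)))) (v (nat_lit 8) (a (v (nat_lit 9) (k (nat_lit 0x99000))) (v (nat_lit 8) (k (nat_lit 0x99030))))))) (v (nat_lit 7) (a (a (v (nat_lit 9) (v (nat_lit 9) (k (nat_lit 0x990d2)))) (v (nat_lit 8) (a (v (nat_lit 9) (k (nat_lit 0x131fb8))) (v (nat_lit 8) (k (nat_lit 0x9875a)))))) (a (u (nat_lit 8) (v (nat_lit 8) (k (nat_lit 0x98874)))) (v (nat_lit 7) (a (v (nat_lit 9) (k (nat_lit 0x99000))) (a (v (nat_lit 8) (k (nat_lit 0x9875a))) (v (nat_lit 7) (k (nat_lit 0x99030))))))))))) (a (u (nat_lit 7) (v (nat_lit 7) (v (nat_lit 8) (k (nat_lit 0x98874))))) (a (v (nat_lit 6) (a (v (nat_lit 9) (v (nat_lit 9) (k (nat_lit 0x131bc8))))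 (a (v (nat_lit 8) (a (v (nat_lit 9) (k (nat_lit 0x99138))) (v (nat_lit 8) (k (nat_lit 0x98fee))))) (v (nat_lit 7) (a (v (nat_lit 9) (k (nat_lit 0x99138))) (v (nat_lit 7) (k (nat_lit 0x98fee)))))))) (v (nat_lit 5) (a (a (v (nat_lit 9) (v (nat_lit 9) (k (nat_lit 0x98e98)))) (v (nat_lit 8) (a (v (nat_lit 9) (k (nat_lit 0x9a0aa))) (a (u (nat_lit 9) (k (nat_lit 0x99cde))) (v (nat_lit 8) (k (nat_lit 0x992d0))))))) (a (v (nat_lit 7) (a (v (nat_lit 9) (k (nat_lit 0x9a00e))) (a (v (nat_lit 8) (k (nat_lit 0x99066))) (v (nat_lit 7) (k (nat_lit 0x994ec)))))) (a (v (nat_lit 6) (a (v (nat_lit 9) (k (nat_lit 0x99354))) (a (v (nat_lit 8) (k (nat_lit 0x9900c))) (v (nat_lit 6) (k (nat_lit 0x9966c)))))) (v (nat_lit 5) (a (v (nat_lit 9) (k (nat_lit 0x993c6))) (a (v (nat_lit 8) (k (nat_lit 0x9f0d8))) (v (nat_lit 7) (k (nat_lit 0x9b412))))))))))))) (a (a (u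 (nat_lit 5) (v (nat_lit 5) (v (nat_lit 9) (k (nat_lit 0x994da))))) (a (t (nat_lit 5) (nat_lit 8) (nat_lit 9) (t (nat_lit 5) (nat_lit 8) (nat_lit 9) (t (nat_lit 5) (nat_lit 8) (nat_lit 9) (k (nat_lit 0x1e35a0))))) (v (nat_lit 4) (a (a (v (nat_lit 9) (v (nat_lit 9) (k (nat_lit 0x98e98)))) (a (v (nat_lit 8) (a (v (nat_lit 9) (k (nat_lit 0x9a00e))) (v (nat_lit 8) (k (nat_lit 0x994ec))))) (v (nat_lit 7) (a (a (v (nat_lit 9) (k (nat_lit 0x9a0aa))) (u (nat_lit 9) (k (nat_lit 0x99cde)))) (a (v (nat_lit 8) (k (nat_lit 0x99066))) (v (nat_lit 7) (k (nat_lit 0x992d0)))))))) (a (v (nat_lit 6) (a (v (nat_lit 9) (k (nat_lit 0x99354))) (a (v (nat_lit 7) (k (nat_lit 0x9900c))) (v (nat_lit 6) (k (nat_lit 0x9966c)))))) (a (v (nat_lit 5) (a (v (nat_lit 9) (k (nat_lit 0x131a0c))) (a (v (nat_lit 8) (k (nat_lit 0x9a0fe))) (v (nat_lit 7) (k (nat_lit 0x9a0fe))))))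 (v (nat_lit 4) (a (v (nat_lit 9) (k (nat_lit 0x993c6))) (a (v (nat_lit 8) (k (nat_lit 0x9b412))) (v (nat_lit 7) (k (nat_lit 0x9f0d8)))))))))))) (a (a (u (nat_lit 4) (a (t (nat_lit 5) (nat_lit 8) (nat_lit 9) (u (nat_lit 8) (k (nat_lit 0x9e35e)))) (v (nat_lit 4) (v (nat_lit 9) (k (nat_lit 0x994da)))))) (t (nat_lit 4) (nat_lit 7) (nat_lit 9) (a (u (nat_lit 5) (u (nat_lit 7) (k (nat_lit 0x9e35e)))) (t (nat_lit 4) (nat_lit 7) (nat_lit 9) (t (nat_lit 4) (nat_lit 7) (nat_lit 9) (k (nat_lit 0x1e35a0))))))) (a (v (nat_lit 3) (a (a (a (v (nat_lit 9) (v (nat_lit 9) (k (nat_lit 0x12ebd4)))) (u (nat_lit 9) (u (nat_lit 9) (k (nat_lit 0x6dda594))))) (a (v (nat_lit 8) (a (v (nat_lit 9) (k (nat_lit 0x98e3e))) (a (u (nat_lit 9) (k (nat_lit 0x9addc))) (v (nat_lit 8) (k (nat_lit 0x99240)))))) (a (v (nat_lit 7) (a (a (v (nat_lit 9) (k (nat_lit 0x98e3e)))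 (u (nat_lit 9) (k (nat_lit 0x9addc)))) (a (v (nat_lit 8) (k (nat_lit 0x1312ec))) (v (nat_lit 7) (k (nat_lit 0x99240)))))) (v (nat_lit 6) (v (nat_lit 6) (k (nat_lit 0x12ed6c))))))) (a (a (v (nat_lit 5) (a (a (v (nat_lit 9) (k (nat_lit 0x995e8))) (v (nat_lit 8) (k (nat_lit 0x99c90)))) (a (v (nat_lit 7) (k (nat_lit 0x9a5ae))) (v (nat_lit 5) (k (nat_lit 0x9972c)))))) (u (nat_lit 5) (u (nat_lit 5) (k (nat_lit 0x9223452))))) (a (v (nat_lit 4) (a (a (v (nat_lit 9) (k (nat_lit 0x995e8))) (v (nat_lit 8) (k (nat_lit 0x9a5ae)))) (a (v (nat_lit 7) (k (nat_lit 0x99c90))) (a (v (nat_lit 5) (k (nat_lit 0x13011c))) (v (nat_lit 4) (k (nat_lit 0x9972c))))))) (a (u (nat_lit 4) (a (u (nat_lit 5) (k (nat_lit 0x1328d0))) (u (nat_lit 4) (k (nat_lit 0x9223452))))) (v (nat_lit 3) (a (a (v (nat_lit 9) (k (nat_lit 0x131dcc))) (a (v (nat_lit 8) (k (nat_lit 0x99132)))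 (v (nat_lit 7) (k (nat_lit 0x99132))))) (a (a (v (nat_lit 6) (k (nat_lit 0x131e44))) (v (nat_lit 5) (k (nat_lit 0x98c3a)))) (a (v (nat_lit 4) (k (nat_lit 0x98c3a))) (v (nat_lit 3) (k (nat_lit 0x131e20)))))))))))) (u (nat_lit 3) (a (a (u (nat_lit 4) (t (nat_lit 5) (nat_lit 8) (nat_lit 9) (k (nat_lit 0x4f5a48e)))) (t (nat_lit 4) (nat_lit 7) (nat_lit 9) (u (nat_lit 5) (k (nat_lit 0x4f5a48e))))) (a (v (nat_lit 3) (a (v (nat_lit 8) (k (nat_lit 0x99f4e))) (v (nat_lit 7) (k (nat_lit 0x99f4e))))) (u (nat_lit 3) (v (nat_lit 3) (k (nat_lit 0x132780)))))))))))) (v (nat_lit 2) (a (a (a (a (u (nat_lit 9) (v (nat_lit 9) (v (nat_lit 9) (k (nat_lit 0x1322b8))))) (v (nat_lit 8) (a (u (nat_lit 9) (v (nat_lit 9) (k (nat_lit 0x99882)))) (v (nat_lit 8) (u (nat_lit 9) (k (nat_lit 0x98ea4))))))) (a (u (nat_lit 8) (v (nat_lit 8) (v (nat_lit 8) (k (nat_lit 0x98f94)))))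 (v (nat_lit 7) (a (a (u (nat_lit 9) (v (nat_lit 9) (k (nat_lit 0x99882)))) (v (nat_lit 8) (u (nat_lit 9) (k (nat_lit 0x131bec))))) (a (u (nat_lit 8) (v (nat_lit 8) (k (nat_lit 0x99a32)))) (v (nat_lit 7) (a (u (nat_lit 9) (k (nat_lit 0x98ea4))) (u (nat_lit 8) (k (nat_lit 0x13f290c)))))))))) (a (a (u (nat_lit 7) (a (v (nat_lit 8) (v (nat_lit 8) (k (nat_lit 0x13f290c)))) (v (nat_lit 7) (a (v (nat_lit 8) (k (nat_lit 0x99a32))) (v (nat_lit 7) (k (nat_lit 0x98f94))))))) (v (nat_lit 6) (a (a (u (nat_lit 9) (v (nat_lit 9) (k (nat_lit 0x1323fc)))) (a (v (nat_lit 8) (u (nat_lit 9) (k (nat_lit 0x9a72e)))) (u (nat_lit 8) (a (u (nat_lit 9) (k (nat_lit 0x1035438c))) (v (nat_lit 8) (k (nat_lit 0x98d6c))))))) (a (v (nat_lit 7) (a (u (nat_lit 9) (k (nat_lit 0x9a72e))) (u (nat_lit 8) (k (nat_lit 0x99714))))) (a (u (nat_lit 7) (a (u (nat_lit 9) (k (nat_lit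 0x1035438c))) (a (v (nat_lit 8) (k (nat_lit 0x99714))) (v (nat_lit 7) (k (nat_lit 0x98d6c)))))) (v (nat_lit 6) (a (u (nat_lit 9) (k (nat_lit 0x13215c))) (a (u (nat_lit 8) (k (nat_lit 0x186565e))) (u (nat_lit 7) (k (nat_lit 0x186565e))))))))))) (a (u (nat_lit 6) (v (nat_lit 6) (a (v (nat_lit 8) (k (nat_lit 0x99564))) (a (v (nat_lit 7) (k (nat_lit 0x99564))) (v (nat_lit 6) (k (nat_lit 0x13212c))))))) (v (nat_lit 5) (a (a (u (nat_lit 9) (v (nat_lit 9) (k (nat_lit 0x98586)))) (a (v (nat_lit 8) (u (nat_lit 9) (k (nat_lit 0x950b2)))) (u (nat_lit 8) (v (nat_lit 8) (k (nat_lit 0x9b658)))))) (a (v (nat_lit 7) (a (u (nat_lit 9) (k (nat_lit 0x98688))) (u (nat_lit 8) (k (nat_lit 0x987ae))))) (a (u (nat_lit 7) (a (v (nat_lit 9) (k (nat_lit 0x999f0))) (v (nat_lit 8) (k (nat_lit 0x9b26e))))) (v (nat_lit 6) (u (nat_lit 7) (k (nat_lit 0x996ae)))))))))))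 (a (a (a (u (nat_lit 5) (a (a (v (nat_lit 9) (v (nat_lit 9) (k (nat_lit 0x98e56)))) (v (nat_lit 7) (a (v (nat_lit 9) (k (nat_lit 0x995ca))) (a (v (nat_lit 8) (k (nat_lit 0x98628))) (v (nat_lit 7) (k (nat_lit 0x9962a))))))) (a (v (nat_lit 6) (a (a (v (nat_lit 9) (k (nat_lit 0x992c4))) (v (nat_lit 8) (k (nat_lit 0x97470)))) (a (v (nat_lit 7) (k (nat_lit 0x995fa))) (v (nat_lit 6) (k (nat_lit 0x99162)))))) (v (nat_lit 5) (a (a (v (nat_lit 9) (k (nat_lit 0x99012))) (v (nat_lit 8) (k (nat_lit 0x98e74)))) (a (v (nat_lit 7) (k (nat_lit 0x9ae4e))) (v (nat_lit 5) (k (nat_lit 0x98fe8))))))))) (t (nat_lit 5) (nat_lit 8) (nat_lit 9) (u (nat_lit 9) (u (nat_lit 9) (k (nat_lit 0x67e4902)))))) (a (v (nat_lit 4) (a (a (a (u (nat_lit 9) (v (nat_lit 9) (k (nat_lit 0x98586)))) (v (nat_lit 8) (u (nat_lit 9) (k (nat_lit 0x98688))))) (a (u (nat_lit 8) (v (nat_lit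 9) (k (nat_lit 0x999f0)))) (v (nat_lit 7) (a (u (nat_lit 9) (k (nat_lit 0x950b2))) (u (nat_lit 8) (k (nat_lit 0x9b26e))))))) (a (a (u (nat_lit 7) (a (v (nat_lit 8) (k (nat_lit 0x987ae))) (v (nat_lit 7) (k (nat_lit 0x9b658))))) (v (nat_lit 6) (u (nat_lit 8) (k (nat_lit 0x996ae))))) (a (u (nat_lit 5) (a (a (v (nat_lit 9) (k (nat_lit 0x99468))) (v (nat_lit 8) (k (nat_lit 0x98f4c)))) (a (v (nat_lit 6) (k (nat_lit 0x98ee0))) (v (nat_lit 5) (k (nat_lit 0x98ad2)))))) (v (nat_lit 4) (u (nat_lit 5) (k (nat_lit 0x97bcc)))))))) (u (nat_lit 4) (a (a (v (nat_lit 9) (v (nat_lit 9) (k (nat_lit 0x98e56)))) (a (v (nat_lit 8) (a (v (nat_lit 9) (k (nat_lit 0x995ca))) (v (nat_lit 8) (k (nat_lit 0x9962a))))) (v (nat_lit 7) (v (nat_lit 8) (k (nat_lit 0x98628)))))) (a (v (nat_lit 6) (a (a (v (nat_lit 9) (k (nat_lit 0x992c4))) (v (nat_lit 8) (k (nat_lit 0x995fa))))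 (a (v (nat_lit 7) (k (nat_lit 0x97470))) (v (nat_lit 6) (k (nat_lit 0x99162)))))) (a (v (nat_lit 5) (a (a (v (nat_lit 9) (k (nat_lit 0x99468))) (v (nat_lit 7) (k (nat_lit 0x98f4c)))) (a (v (nat_lit 6) (k (nat_lit 0x98ee0))) (v (nat_lit 5) (k (nat_lit 0x97bcc)))))) (v (nat_lit 4) (a (a (v (nat_lit 9) (k (nat_lit 0x99012))) (v (nat_lit 8) (k (nat_lit 0x9ae4e)))) (a (v (nat_lit 7) (k (nat_lit 0x98e74))) (a (v (nat_lit 5) (k (nat_lit 0x98ad2))) (v (nat_lit 4) (k (nat_lit 0x98fe8))))))))))))) (a (a (t (nat_lit 4) (nat_lit 7) (nat_lit 9) (u (nat_lit 9) (u (nat_lit 9) (k (nat_lit 0x67e4902))))) (v (nat_lit 3) (a (a (v (nat_lit 6) (a (u (nat_lit 9) (k (nat_lit 0x132738))) (a (u (nat_lit 8) (k (nat_lit 0x99168))) (u (nat_lit 7) (k (nat_lit 0x99168)))))) (a (u (nat_lit 6) (v (nat_lit 6) (k (nat_lit 0x132db0)))) (u (nat_lit 5) (a (v (nat_lit 6)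 (k (nat_lit 0x99054))) (v (nat_lit 5) (k (nat_lit 0x990b4))))))) (a (v (nat_lit 4) (u (nat_lit 5) (k (nat_lit 0x982ec)))) (a (u (nat_lit 4) (a (v (nat_lit 6) (k (nat_lit 0x99054))) (a (v (nat_lit 5) (k (nat_lit 0x982ec))) (v (nat_lit 4) (k (nat_lit 0x990b4)))))) (v (nat_lit 3) (a (u (nat_lit 5) (k (nat_lit 0x980f4))) (u (nat_lit 4) (k (nat_lit 0x980f4)))))))))) (a (u (nat_lit 3) (a (a (a (v (nat_lit 9) (v (nat_lit 9) (k (nat_lit 0x1319b8)))) (v (nat_lit 8) (a (v (nat_lit 9) (k (nat_lit 0xaadcd20))) (v (nat_lit 8) (k (nat_lit 0x98f04)))))) (a (v (nat_lit 7) (a (v (nat_lit 9) (k (nat_lit 0xaadcd20))) (a (v (nat_lit 8) (k (nat_lit 0x131cb8))) (v (nat_lit 7) (k (nat_lit 0x98f04)))))) (a (v (nat_lit 5) (a (v (nat_lit 9) (k (nat_lit 0x99246))) (a (v (nat_lit 8) (k (nat_lit 0x999ba))) (v (nat_lit 7) (k (nat_lit 0x9a548)))))) (u (nat_lit 5) (a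 (v (nat_lit 9) (k (nat_lit 0x9920a))) (v (nat_lit 8) (k (nat_lit 0x99552)))))))) (a (a (t (nat_lit 5) (nat_lit 8) (nat_lit 9) (v (nat_lit 7) (k (nat_lit 0x9a1dc)))) (a (v (nat_lit 4) (a (v (nat_lit 9) (k (nat_lit 0x99246))) (a (v (nat_lit 8) (k (nat_lit 0x9a548))) (v (nat_lit 7) (k (nat_lit 0x999ba)))))) (u (nat_lit 4) (a (v (nat_lit 9) (k (nat_lit 0x9920a))) (v (nat_lit 7) (k (nat_lit 0x99552))))))) (a (t (nat_lit 4) (nat_lit 7) (nat_lit 9) (a (v (nat_lit 8) (k (nat_lit 0x9a1dc))) (t (nat_lit 5) (nat_lit 8) (nat_lit 9) (k (nat_lit 0x137af0))))) (a (v (nat_lit 3) (a (a (v (nat_lit 9) (k (nat_lit 0x1329d8))) (a (u (nat_lit 9) (k (nat_lit 0x136e7494))) (v (nat_lit 8) (k (nat_lit 0x99594))))) (a (v (nat_lit 7) (k (nat_lit 0x99594))) (a (v (nat_lit 5) (k (nat_lit 0x9a62c))) (v (nat_lit 4) (k (nat_lit 0x9a62c))))))) (u (nat_lit 3) (v (nat_lit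 3) (k (nat_lit 0x394a94))))))))) (v (nat_lit 2) (a (a (a (u (nat_lit 9) (v (nat_lit 9) (k (nat_lit 0x13194c)))) (u (nat_lit 8) (v (nat_lit 8) (k (nat_lit 0x28ff063e))))) (a (u (nat_lit 7) (v (nat_lit 7) (k (nat_lit 0x28ff063e)))) (a (v (nat_lit 6) (u (nat_lit 9) (k (nat_lit 0x101f9400)))) (u (nat_lit 6) (a (v (nat_lit 8) (k (nat_lit 0x9a410))) (a (v (nat_lit 7) (k (nat_lit 0x9a410))) (v (nat_lit 6) (k (nat_lit 0x28622a0))))))))) (a (a (u (nat_lit 5) (v (nat_lit 9) (k (nat_lit 0x9909c)))) (a (v (nat_lit 4) (u (nat_lit 5) (k (nat_lit 0x99c72)))) (u (nat_lit 4) (a (v (nat_lit 9) (k (nat_lit 0x9909c))) (v (nat_lit 5) (k (nat_lit 0x99c72))))))) (a (v (nat_lit 3) (a (u (nat_lit 5) (k (nat_lit 0x99ad4))) (u (nat_lit 4) (k (nat_lit 0x99ad4))))) (a (u (nat_lit 3) (a (a (v (nat_lit 9) (k (nat_lit 0x1319b8))) (v (nat_lit 8) (k (nat_lit 0x99084))))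 (a (v (nat_lit 7) (k (nat_lit 0x99084))) (a (v (nat_lit 6) (k (nat_lit 0x1c049b38))) (v (nat_lit 3) (k (nat_lit 0x1c1724fc))))))) (v (nat_lit 2) (a (u (nat_lit 5) (k (nat_lit 0xa7cc052))) (u (nat_lit 4) (k (nat_lit 0xa7cc052)))))))))))))))))) (a (a (u (nat_lit 2) (a (a (a (v (nat_lit 7) (a (v (nat_lit 8) (a (v (nat_lit 9) (k (nat_lit 0x13209c))) (v (nat_lit 8) (k (nat_lit 0x991a4))))) (v (nat_lit 7) (v (nat_lit 8) (k (nat_lit 0x991a4)))))) (v (nat_lit 6) (a (a (v (nat_lit 9) (v (nat_lit 9) (k (nat_lit 0x131c70)))) (v (nat_lit 8) (a (v (nat_lit 9) (k (nat_lit 0x9822c))) (v (nat_lit 8) (k (nat_lit 0x992e8)))))) (a (v (nat_lit 7) (a (v (nat_lit 9) (k (nat_lit 0x9822c))) (a (v (nat_lit 8) (k (nat_lit 0x1324f8))) (v (nat_lit 7) (k (nat_lit 0x992e8)))))) (v (nat_lit 6) (v (nat_lit 6) (k (nat_lit 0x131904)))))))) (a (v (nat_lit 5) (a (a (v (nat_lit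 9) (v (nat_lit 9) (k (nat_lit 0x9945c)))) (v (nat_lit 8) (a (v (nat_lit 9) (k (nat_lit 0x9d362))) (v (nat_lit 8) (k (nat_lit 0x96a3e)))))) (a (v (nat_lit 7) (a (v (nat_lit 9) (k (nat_lit 0x99534))) (a (v (nat_lit 8) (k (nat_lit 0x99048))) (v (nat_lit 7) (k (nat_lit 0x98778)))))) (a (v (nat_lit 6) (a (v (nat_lit 9) (k (nat_lit 0x99366))) (v (nat_lit 8) (k (nat_lit 0x9acfe))))) (v (nat_lit 5) (a (a (v (nat_lit 9) (k (nat_lit 0x9948c))) (a (v (nat_lit 8) (k (nat_lit 0x988ce))) (u (nat_lit 8) (k (nat_lit 0x980e2))))) (a (v (nat_lit 7) (k (nat_lit 0x97182))) (a (v (nat_lit 6) (k (nat_lit 0x99054))) (v (nat_lit 5) (k (nat_lit 0x98aa8))))))))))) (a (t (nat_lit 5) (nat_lit 8) (nat_lit 9) (a (a (u (nat_lit 8) (u (nat_lit 8) (k (nat_lit 0x4b740ca)))) (u (nat_lit 7) (u (nat_lit 7) (k (nat_lit 0xa4322))))) (a (u (nat_lit 6) (v (nat_lit 9) (k (nat_lit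 0x49b656a)))) (u (nat_lit 5) (v (nat_lit 9) (k (nat_lit 0x1801158))))))) (v (nat_lit 4) (a (a (v (nat_lit 9) (v (nat_lit 9) (k (nat_lit 0x9945c)))) (a (v (nat_lit 8) (a (v (nat_lit 9) (k (nat_lit 0x99534))) (v (nat_lit 8) (k (nat_lit 0x98778))))) (v (nat_lit 7) (a (v (nat_lit 9) (k (nat_lit 0x9d362))) (a (v (nat_lit 8) (k (nat_lit 0x99048))) (v (nat_lit 7) (k (nat_lit 0x96a3e)))))))) (a (v (nat_lit 6) (a (v (nat_lit 9) (k (nat_lit 0x99366))) (v (nat_lit 7) (k (nat_lit 0x9acfe))))) (a (v (nat_lit 5) (a (a (v (nat_lit 9) (k (nat_lit 0x132528))) (v (nat_lit 8) (k (nat_lit 0x9944a)))) (a (v (nat_lit 7) (k (nat_lit 0x9944a))) (v (nat_lit 5) (k (nat_lit 0x99fcc)))))) (v (nat_lit 4) (a (a (v (nat_lit 9) (k (nat_lit 0x9948c))) (a (v (nat_lit 8) (k (nat_lit 0x97182))) (v (nat_lit 7) (k (nat_lit 0x988ce))))) (a (a (u (nat_lit 7) (k (nat_lit 0x980e2)))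 (v (nat_lit 6) (k (nat_lit 0x99054)))) (a (v (nat_lit 5) (k (nat_lit 0x99fcc))) (v (nat_lit 4) (k (nat_lit 0x98aa8)))))))))))))) (a (a (u (nat_lit 4) (a (u (nat_lit 5) (u (nat_lit 5) (k (nat_lit 0x98b98)))) (a (t (nat_lit 5) (nat_lit 8) (nat_lit 9) (u (nat_lit 8) (k (nat_lit 0x865cbd8)))) (u (nat_lit 4) (a (u (nat_lit 5) (k (nat_lit 0x98b98))) (t (nat_lit 5) (nat_lit 8) (nat_lit 9) (k (nat_lit 0x1189b50a)))))))) (a (t (nat_lit 4) (nat_lit 7) (nat_lit 9) (a (a (u (nat_lit 8) (u (nat_lit 8) (k (nat_lit 0xa4322)))) (u (nat_lit 7) (u (nat_lit 7) (k (nat_lit 0x4b740ca))))) (a (u (nat_lit 6) (v (nat_lit 9) (k (nat_lit 0x49b656a)))) (a (u (nat_lit 5) (a (u (nat_lit 7) (k (nat_lit 0x865cbd8))) (u (nat_lit 5) (k (nat_lit 0x1189b50a))))) (u (nat_lit 4) (v (nat_lit 9) (k (nat_lit 0x1801158)))))))) (v (nat_lit 3) (a (v (nat_lit 6) (v (nat_lit 6)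 (k (nat_lit 0x1379b8)))) (a (u (nat_lit 4) (u (nat_lit 5) (k (nat_lit 0x133764)))) (v (nat_lit 3) (a (a (a (v (nat_lit 9) (k (nat_lit 0x132024))) (u (nat_lit 9) (k (nat_lit 0x1331a0)))) (a (v (nat_lit 8) (k (nat_lit 0x99cde))) (v (nat_lit 7) (k (nat_lit 0x99cde))))) (a (a (v (nat_lit 6) (k (nat_lit 0x639660))) (v (nat_lit 5) (k (nat_lit 0x41f9a6c)))) (a (v (nat_lit 4) (k (nat_lit 0x41f9a6c))) (v (nat_lit 3) (k (nat_lit 0x1331dc)))))))))))) (a (u (nat_lit 3) (a (v (nat_lit 5) (v (nat_lit 7) (k (nat_lit 0x9a698)))) (a (v (nat_lit 4) (a (v (nat_lit 8) (k (nat_lit 0x9a698))) (v (nat_lit 5) (k (nat_lit 0x12fc78))))) (v (nat_lit 3) (v (nat_lit 9) (k (nat_lit 0x132444))))))) (a (v (nat_lit 2) (a (a (a (v (nat_lit 9) (v (nat_lit 9) (k (nat_lit 0x1319f4)))) (v (nat_lit 8) (a (v (nat_lit 9) (k (nat_lit 0x991e6))) (v (nat_lit 8) (k (nat_lit 0x98fee))))))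 (a (v (nat_lit 7) (a (v (nat_lit 9) (k (nat_lit 0x991e6))) (a (v (nat_lit 8) (k (nat_lit 0x131e44))) (v (nat_lit 7) (k (nat_lit 0x98fee)))))) (v (nat_lit 6) (a (a (v (nat_lit 9) (k (nat_lit 0x131b98))) (v (nat_lit 8) (k (nat_lit 0x99240)))) (a (v (nat_lit 7) (k (nat_lit 0x99240))) (v (nat_lit 6) (k (nat_lit 0x1324c8)))))))) (a (a (v (nat_lit 5) (a (a (v (nat_lit 9) (k (nat_lit 0x98f16))) (v (nat_lit 8) (k (nat_lit 0x99012)))) (a (v (nat_lit 7) (k (nat_lit 0x98fee))) (a (v (nat_lit 6) (k (nat_lit 0x98f9a))) (v (nat_lit 5) (k (nat_lit 0x98e02))))))) (v (nat_lit 4) (a (a (v (nat_lit 9) (k (nat_lit 0x98f16))) (a (v (nat_lit 8) (k (nat_lit 0x98fee))) (v (nat_lit 7) (k (nat_lit 0x99012))))) (a (v (nat_lit 6) (k (nat_lit 0x98f9a))) (a (v (nat_lit 5) (k (nat_lit 0x12fce4))) (v (nat_lit 4) (k (nat_lit 0x98e02)))))))) (a (v (nat_lit 3) (a (v (nat_lit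 6) (k (nat_lit 0x132618))) (v (nat_lit 3) (k (nat_lit 0x133e48))))) (a (u (nat_lit 3) (a (v (nat_lit 5) (k (nat_lit 0x9979e))) (v (nat_lit 4) (k (nat_lit 0x9979e))))) (v (nat_lit 2) (a (a (a (v (nat_lit 9) (k (nat_lit 0x1318f8))) (v (nat_lit 8) (k (nat_lit 0x98e86)))) (a (v (nat_lit 7) (k (nat_lit 0x98e86))) (v (nat_lit 6) (k (nat_lit 0x131814))))) (a (a (v (nat_lit 5) (k (nat_lit 0x9883e))) (v (nat_lit 4) (k (nat_lit 0x9883e)))) (a (v (nat_lit 3) (k (nat_lit 0x132300))) (a (u (nat_lit 3) (k (nat_lit 0x1328b8))) (v (nat_lit 2) (k (nat_lit 0x131af0))))))))))))) (u (nat_lit 2) (a (a (t (nat_lit 5) (nat_lit 8) (nat_lit 9) (v (nat_lit 5) (k (nat_lit 0x655645e)))) (a (u (nat_lit 4) (t (nat_lit 5) (nat_lit 8) (nat_lit 9) (k (nat_lit 0x9990c)))) (t (nat_lit 4) (nat_lit 7) (nat_lit 9) (a (u (nat_lit 5) (k (nat_lit 0x9990c))) (v (nat_lit 4) (k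 (nat_lit 0x655645e))))))) (a (v (nat_lit 3) (a (a (u (nat_lit 9) (k (nat_lit 0x1a153e38))) (v (nat_lit 6) (k (nat_lit 0x146388)))) (a (v (nat_lit 5) (k (nat_lit 0xf30b694))) (v (nat_lit 4) (k (nat_lit 0xf30b694)))))) (a (u (nat_lit 3) (v (nat_lit 3) (k (nat_lit 0x97fe510)))) (u (nat_lit 2) (v (nat_lit 3) (k (nat_lit 0x2805270))))))))))))) (a (v (nat_lit 1) (a (a (a (u (nat_lit 9) (v (nat_lit 9) (v (nat_lit 9) (k (nat_lit 0x98eb0))))) (a (v (nat_lit 8) (u (nat_lit 9) (v (nat_lit 9) (k (nat_lit 0x98efe))))) (u (nat_lit 7) (v (nat_lit 8) (v (nat_lit 8) (k (nat_lit 0x99090))))))) (a (a (v (nat_lit 6) (a (a (u (nat_lit 9) (v (nat_lit 9) (k (nat_lit 0x9900c)))) (u (nat_lit 8) (a (v (nat_lit 9) (k (nat_lit 0x98f64))) (v (nat_lit 8) (k (nat_lit 0x99246)))))) (a (u (nat_lit 7) (a (v (nat_lit 9) (k (nat_lit 0x997c8))) (a (v (nat_lit 8) (k (nat_lit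 0x99180))) (v (nat_lit 7) (k (nat_lit 0x9984c)))))) (v (nat_lit 6) (a (u (nat_lit 9) (k (nat_lit 0x99a3e))) (a (u (nat_lit 8) (k (nat_lit 0x949b6))) (u (nat_lit 7) (k (nat_lit 0x9a8a2))))))))) (u (nat_lit 6) (a (a (v (nat_lit 8) (v (nat_lit 8) (k (nat_lit 0x99096)))) (v (nat_lit 7) (a (v (nat_lit 9) (k (nat_lit 0x99aaa))) (a (v (nat_lit 8) (k (nat_lit 0x98f40))) (v (nat_lit 7) (k (nat_lit 0x9894c))))))) (a (u (nat_lit 7) (v (nat_lit 9) (k (nat_lit 0x9b94c)))) (v (nat_lit 6) (a (a (v (nat_lit 9) (k (nat_lit 0x989b2))) (v (nat_lit 8) (k (nat_lit 0x9d62c)))) (a (v (nat_lit 7) (k (nat_lit 0x9792c))) (v (nat_lit 6) (k (nat_lit 0x9ef70)))))))))) (a (v (nat_lit 5) (a (a (u (nat_lit 9) (v (nat_lit 9) (k (nat_lit 0x99246)))) (u (nat_lit 8) (a (v (nat_lit 9) (k (nat_lit 0x9c0a2))) (v (nat_lit 8) (k (nat_lit 0x96a6e)))))) (a (u (nat_lit 7) (a (v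 (nat_lit 9) (k (nat_lit 0x98f10))) (v (nat_lit 8) (k (nat_lit 0x99324))))) (a (v (nat_lit 6) (u (nat_lit 7) (k (nat_lit 0x952bc)))) (u (nat_lit 6) (a (a (v (nat_lit 9) (k (nat_lit 0x98b02))) (v (nat_lit 8) (k (nat_lit 0x9bb38)))) (a (v (nat_lit 7) (k (nat_lit 0x9d64a))) (v (nat_lit 6) (k (nat_lit 0x9a3fe)))))))))) (u (nat_lit 5) (a (v (nat_lit 6) (a (v (nat_lit 9) (k (nat_lit 0x993fc))) (a (v (nat_lit 8) (k (nat_lit 0x922b0))) (v (nat_lit 6) (k (nat_lit 0x98568)))))) (a (u (nat_lit 6) (v (nat_lit 8) (k (nat_lit 0x97f32)))) (v (nat_lit 5) (a (v (nat_lit 6) (k (nat_lit 0x99060))) (v (nat_lit 5) (k (nat_lit 0x98ec8))))))))))) (a (a (a (v (nat_lit 4) (a (v (nat_lit 6) (a (u (nat_lit 9) (k (nat_lit 0x990ba))) (a (u (nat_lit 8) (k (nat_lit 0x99a92))) (u (nat_lit 7) (k (nat_lit 0x9cb2e)))))) (a (u (nat_lit 6) (a (a (v (nat_lit 9) (k (nat_lit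 0x999a2))) (v (nat_lit 8) (k (nat_lit 0x98c0a)))) (a (v (nat_lit 7) (k (nat_lit 0x1171c9a4))) (v (nat_lit 6) (k (nat_lit 0x9b4a2)))))) (u (nat_lit 5) (a (v (nat_lit 6) (k (nat_lit 0x99b22))) (a (u (nat_lit 6) (k (nat_lit 0x9981c))) (v (nat_lit 5) (k (nat_lit 0x9a128))))))))) (u (nat_lit 4) (a (a (v (nat_lit 6) (v (nat_lit 6) (k (nat_lit 0x971e8)))) (t (nat_lit 5) (nat_lit 8) (nat_lit 9) (u (nat_lit 8) (k (nat_lit 0x998be))))) (a (v (nat_lit 4) (a (v (nat_lit 6) (k (nat_lit 0x98fdc))) (a (v (nat_lit 5) (k (nat_lit 0x98fc4))) (v (nat_lit 4) (k (nat_lit 0x99174)))))) (u (nat_lit 4) (t (nat_lit 5) (nat_lit 8) (nat_lit 9) (k (nat_lit 0x99c9c)))))))) (a (t (nat_lit 4) (nat_lit 7) (nat_lit 9) (a (a (u (nat_lit 7) (u (nat_lit 7) (k (nat_lit 0x990d2)))) (u (nat_lit 6) (u (nat_lit 6) (k (nat_lit 0x6d89e7c))))) (a (u (nat_lit 5) (u (nat_lit 6) (k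 (nat_lit 0x4c3661a)))) (t (nat_lit 4) (nat_lit 7) (nat_lit 9) (u (nat_lit 8) (k (nat_lit 0x34f7832))))))) (v (nat_lit 3) (a (a (u (nat_lit 9) (v (nat_lit 9) (k (nat_lit 0x97920)))) (a (u (nat_lit 8) (v (nat_lit 9) (k (nat_lit 0x95c40)))) (v (nat_lit 6) (u (nat_lit 8) (k (nat_lit 0x9e514)))))) (a (a (u (nat_lit 5) (a (a (v (nat_lit 9) (k (nat_lit 0x9dadc))) (v (nat_lit 8) (k (nat_lit 0x9a63e)))) (a (v (nat_lit 7) (k (nat_lit 0x9d44c))) (v (nat_lit 5) (k (nat_lit 0x9899a)))))) (v (nat_lit 4) (u (nat_lit 5) (k (nat_lit 0x99276))))) (a (u (nat_lit 4) (a (v (nat_lit 5) (k (nat_lit 0x98c70))) (v (nat_lit 4) (k (nat_lit 0x999cc))))) (v (nat_lit 3) (a (u (nat_lit 5) (k (nat_lit 0x99390))) (u (nat_lit 4) (k (nat_lit 0x9b988))))))))))) (a (a (u (nat_lit 3) (a (a (a (v (nat_lit 9) (v (nat_lit 9) (k (nat_lit 0x98ac6)))) (v (nat_lit 8) (a (v (nat_lit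 9) (k (nat_lit 0x9c2ac))) (v (nat_lit 8) (k (nat_lit 0x98fa0)))))) (a (v (nat_lit 7) (a (v (nat_lit 9) (k (nat_lit 0x98fbe))) (a (v (nat_lit 8) (k (nat_lit 0x98eec))) (v (nat_lit 7) (k (nat_lit 0x98e86)))))) (v (nat_lit 6) (a (a (v (nat_lit 9) (k (nat_lit 0x98ec8))) (v (nat_lit 8) (k (nat_lit 0x98bec)))) (a (v (nat_lit 7) (k (nat_lit 0x9900c))) (v (nat_lit 6) (k (nat_lit 0x98f04)))))))) (a (a (v (nat_lit 5) (a (a (v (nat_lit 9) (k (nat_lit 0x94578))) (v (nat_lit 8) (k (nat_lit 0x97d9a)))) (a (v (nat_lit 7) (k (nat_lit 0x94dfa))) (a (v (nat_lit 6) (k (nat_lit 0x98f10))) (v (nat_lit 5) (k (nat_lit 0x9a08c))))))) (v (nat_lit 4) (a (a (v (nat_lit 9) (k (nat_lit 0x98f64))) (a (v (nat_lit 8) (k (nat_lit 0x98ff4))) (v (nat_lit 7) (k (nat_lit 0x9937e))))) (a (v (nat_lit 6) (k (nat_lit 0x9807c))) (a (v (nat_lit 5) (k (nat_lit 0x9946e))) (v (nat_lit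 4) (k (nat_lit 0x98820)))))))) (a (t (nat_lit 4) (nat_lit 7) (nat_lit 9) (a (u (nat_lit 8) (k (nat_lit 0x3e8536c))) (u (nat_lit 7) (k (nat_lit 0x43979ee))))) (v (nat_lit 3) (a (a (v (nat_lit 9) (k (nat_lit 0x98f1c))) (a (v (nat_lit 8) (k (nat_lit 0x99012))) (v (nat_lit 7) (k (nat_lit 0x98f46))))) (a (v (nat_lit 6) (k (nat_lit 0x990d8))) (a (v (nat_lit 4) (k (nat_lit 0x978e4))) (v (nat_lit 3) (k (nat_lit 0x98f4c))))))))))) (v (nat_lit 2) (a (a (v (nat_lit 6) (u (nat_lit 7) (k (nat_lit 0x9916e)))) (a (u (nat_lit 6) (a (a (v (nat_lit 9) (k (nat_lit 0x977b2))) (v (nat_lit 8) (k (nat_lit 0x9adee)))) (a (v (nat_lit 7) (k (nat_lit 0x97e42))) (v (nat_lit 6) (k (nat_lit 0x96d62)))))) (u (nat_lit 5) (a (v (nat_lit 6) (k (nat_lit 0x98f1c))) (u (nat_lit 6) (k (nat_lit 0x98a66))))))) (a (u (nat_lit 4) (a (v (nat_lit 6) (k (nat_lit 0x9905a))) (a (v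 (nat_lit 5) (k (nat_lit 0x98fbe))) (v (nat_lit 4) (k (nat_lit 0x98f6a)))))) (a (u (nat_lit 3) (a (a (v (nat_lit 9) (k (nat_lit 0x98d2a))) (a (v (nat_lit 8) (k (nat_lit 0x98f2e))) (v (nat_lit 7) (k (nat_lit 0x98f4c))))) (a (a (v (nat_lit 6) (k (nat_lit 0x98fac))) (v (nat_lit 5) (k (nat_lit 0x98874)))) (a (v (nat_lit 4) (k (nat_lit 0x98dd8))) (v (nat_lit 3) (k (nat_lit 0x9a5fc))))))) (v (nat_lit 2) (u (nat_lit 3) (k (nat_lit 0x98c7c))))))))) (a (u (nat_lit 2) (a (a (v (nat_lit 6) (a (v (nat_lit 9) (k (nat_lit 0x9a48e))) (a (v (nat_lit 8) (k (nat_lit 0x976aa))) (v (nat_lit 6) (k (nat_lit 0x9b73c)))))) (a (u (nat_lit 6) (v (nat_lit 7) (k (nat_lit 0x97a88)))) (v (nat_lit 5) (v (nat_lit 5) (k (nat_lit 0x98fe8)))))) (a (a (v (nat_lit 4) (v (nat_lit 7) (k (nat_lit 0x6843732)))) (t (nat_lit 4) (nat_lit 7) (nat_lit 9) (v (nat_lit 4) (k (nat_lit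 0xacd4cfc))))) (a (v (nat_lit 3) (a (v (nat_lit 5) (k (nat_lit 0x9976e))) (a (v (nat_lit 4) (k (nat_lit 0x997b6))) (v (nat_lit 3) (k (nat_lit 0x97f50)))))) (v (nat_lit 2) (a (a (v (nat_lit 6) (k (nat_lit 0x9911a))) (v (nat_lit 5) (k (nat_lit 0x98e74)))) (a (v (nat_lit 4) (k (nat_lit 0x99030))) (a (v (nat_lit 3) (k (nat_lit 0x99318))) (v (nat_lit 2) (k (nat_lit 0x98d00))))))))))) (v (nat_lit 1) (a (a (a (u (nat_lit 9) (v (nat_lit 9) (k (nat_lit 0x98f16)))) (v (nat_lit 8) (u (nat_lit 9) (k (nat_lit 0x99042))))) (a (u (nat_lit 8) (a (v (nat_lit 9) (k (nat_lit 0x98c5e))) (v (nat_lit 8) (k (nat_lit 0x99144))))) (u (nat_lit 6) (a (v (nat_lit 7) (k (nat_lit 0x99594))) (v (nat_lit 6) (k (nat_lit 0x96804))))))) (a (a (u (nat_lit 5) (a (v (nat_lit 9) (k (nat_lit 0x98502))) (v (nat_lit 5) (k (nat_lit 0x99120))))) (t (nat_lit 4) (nat_lit 7) (nat_lit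 9) (u (nat_lit 6) (k (nat_lit 0x998d6))))) (a (v (nat_lit 3) (u (nat_lit 4) (k (nat_lit 0x9a4c4)))) (a (u (nat_lit 2) (v (nat_lit 3) (k (nat_lit 0x548be60)))) (v (nat_lit 1) (a (a (u (nat_lit 5) (k (nat_lit 0x98e80))) (u (nat_lit 4) (k (nat_lit 0x98c1c)))) (a (u (nat_lit 3) (k (nat_lit 0x988f8))) (u (nat_lit 2) (k (nat_lit 0x696da82)))))))))))))))) (u (nat_lit 1) (a (a (a (v (nat_lit 8) (v (nat_lit 8) (a (v (nat_lit 9) (k (nat_lit 0x991e0))) (v (nat_lit 8) (k (nat_lit 0x98f52)))))) (a (v (nat_lit 7) (a (a (v (nat_lit 9) (v (nat_lit 9) (k (nat_lit 0x98c46)))) (u (nat_lit 9) (v (nat_lit 9) (k (nat_lit 0xa082a))))) (a (v (nat_lit 8) (v (nat_lit 9) (k (nat_lit 0x99078)))) (v (nat_lit 7) (a (v (nat_lit 9) (k (nat_lit 0x98eda))) (a (v (nat_lit 8) (k (nat_lit 0x98e32))) (v (nat_lit 7) (k (nat_lit 0x98f34))))))))) (v (nat_lit 6) (v (nat_lit 7)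 (u (nat_lit 8) (k (nat_lit 0x995e8))))))) (a (a (u (nat_lit 6) (u (nat_lit 7) (v (nat_lit 9) (k (nat_lit 0x9a7d6))))) (v (nat_lit 5) (a (a (v (nat_lit 8) (v (nat_lit 8) (k (nat_lit 0x9b87a)))) (v (nat_lit 7) (a (v (nat_lit 9) (k (nat_lit 0x223789e))) (v (nat_lit 7) (k (nat_lit 0x992f4)))))) (a (v (nat_lit 6) (v (nat_lit 6) (k (nat_lit 0x99bf4)))) (v (nat_lit 5) (a (v (nat_lit 9) (k (nat_lit 0x98d24))) (a (v (nat_lit 8) (k (nat_lit 0x996a8))) (v (nat_lit 7) (k (nat_lit 0x9955e)))))))))) (a (u (nat_lit 5) (a (v (nat_lit 9) (v (nat_lit 9) (k (nat_lit 0x98fa0)))) (a (v (nat_lit 8) (a (v (nat_lit 9) (k (nat_lit 0x9c64e))) (v (nat_lit 8) (k (nat_lit 0x98e44))))) (v (nat_lit 6) (u (nat_lit 8) (k (nat_lit 0x9c27c))))))) (v (nat_lit 4) (a (a (v (nat_lit 9) (v (nat_lit 9) (k (nat_lit 0x98b4a)))) (v (nat_lit 8) (a (v (nat_lit 9) (k (nat_lit 0x9a0c8)))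 (v (nat_lit 8) (k (nat_lit 0x98f9a)))))) (a (v (nat_lit 7) (a (v (nat_lit 9) (k (nat_lit 0x98cd0))) (a (v (nat_lit 8) (k (nat_lit 0x99360))) (v (nat_lit 7) (k (nat_lit 0x98fbe)))))) (a (v (nat_lit 5) (a (v (nat_lit 9) (k (nat_lit 0x98d12))) (a (v (nat_lit 8) (k (nat_lit 0x99540))) (v (nat_lit 7) (k (nat_lit 0x99366)))))) (v (nat_lit 4) (a (v (nat_lit 9) (k (nat_lit 0x989c4))) (a (v (nat_lit 8) (k (nat_lit 0x993d8))) (v (nat_lit 7) (k (nat_lit 0x99240))))))))))))) (a (a (a (u (nat_lit 4) (a (u (nat_lit 5) (a (v (nat_lit 8) (k (nat_lit 0x98e62))) (v (nat_lit 5) (k (nat_lit 0x97cc2))))) (t (nat_lit 5) (nat_lit 8) (nat_lit 9) (v (nat_lit 5) (k (nat_lit 0x77e6cfe)))))) (t (nat_lit 4) (nat_lit 7) (nat_lit 9) (u (nat_lit 4) (u (nat_lit 8) (k (nat_lit 0x443a7bc)))))) (a (v (nat_lit 3) (a (a (v (nat_lit 9) (v (nat_lit 9) (k (nat_lit 0x9a842))))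 (v (nat_lit 5) (v (nat_lit 5) (k (nat_lit 0x9878a))))) (a (u (nat_lit 5) (v (nat_lit 7) (k (nat_lit 0x8b8daa)))) (u (nat_lit 4) (u (nat_lit 6) (k (nat_lit 0x9a0b0))))))) (u (nat_lit 3) (a (t (nat_lit 5) (nat_lit 8) (nat_lit 9) (t (nat_lit 5) (nat_lit 8) (nat_lit 9) (k (nat_lit 0x25b0918)))) (v (nat_lit 3) (v (nat_lit 7) (k (nat_lit 0x9bab4)))))))) (a (a (v (nat_lit 2) (a (a (a (v (nat_lit 9) (v (nat_lit 9) (k (nat_lit 0x98cb2)))) (v (nat_lit 8) (a (v (nat_lit 9) (k (nat_lit 0x890f406))) (v (nat_lit 8) (k (nat_lit 0x98eb0)))))) (a (v (nat_lit 7) (a (v (nat_lit 9) (k (nat_lit 0x1736ffd6))) (a (v (nat_lit 8) (k (nat_lit 0x98e7a))) (v (nat_lit 7) (k (nat_lit 0x98dfc)))))) (v (nat_lit 6) (u (nat_lit 9) (k (nat_lit 0x5261a60)))))) (a (a (u (nat_lit 6) (v (nat_lit 6) (k (nat_lit 0x990ba)))) (v (nat_lit 5) (a (a (v (nat_lit 9) (k (nat_lit 0x98d24)))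 (v (nat_lit 8) (k (nat_lit 0x99a8c)))) (a (v (nat_lit 7) (k (nat_lit 0x99cde))) (v (nat_lit 6) (k (nat_lit 0x998dc))))))) (a (v (nat_lit 4) (a (v (nat_lit 9) (k (nat_lit 0x98ce8))) (a (v (nat_lit 8) (k (nat_lit 0x99804))) (v (nat_lit 7) (k (nat_lit 0x9a794)))))) (a (u (nat_lit 3) (u (nat_lit 5) (k (nat_lit 0x9916e)))) (v (nat_lit 2) (a (a (v (nat_lit 9) (k (nat_lit 0x989dc))) (v (nat_lit 8) (k (nat_lit 0x9935a)))) (a (v (nat_lit 7) (k (nat_lit 0x9ae7e))) (a (v (nat_lit 6) (k (nat_lit 0x9cd4a))) (t (nat_lit 4) (nat_lit 7) (nat_lit 9) (k (nat_lit 0x995f4)))))))))))) (u (nat_lit 2) (t (nat_lit 4) (nat_lit 7) (nat_lit 9) (a (v (nat_lit 9) (k (nat_lit 0xbd95388))) (a (u (nat_lit 5) (k (nat_lit 0x10689ba))) (u (nat_lit 4) (k (nat_lit 0x1029d2)))))))) (a (v (nat_lit 1) (a (a (a (v (nat_lit 7) (a (v (nat_lit 9) (k (nat_lit 0x98f7c))) (a (v (nat_lit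 8) (k (nat_lit 0x98fd6))) (v (nat_lit 7) (k (nat_lit 0x990d8)))))) (v (nat_lit 6) (a (a (v (nat_lit 9) (k (nat_lit 0x9981c))) (v (nat_lit 8) (k (nat_lit 0x99036)))) (a (v (nat_lit 7) (k (nat_lit 0x98ac6))) (v (nat_lit 6) (k (nat_lit 0x9c132))))))) (a (v (nat_lit 5) (a (a (v (nat_lit 9) (k (nat_lit 0x99660))) (v (nat_lit 8) (k (nat_lit 0x990f0)))) (a (v (nat_lit 7) (k (nat_lit 0x994c2))) (a (v (nat_lit 6) (k (nat_lit 0x9901e))) (v (nat_lit 5) (k (nat_lit 0x98d84))))))) (t (nat_lit 5) (nat_lit 8) (nat_lit 9) (v (nat_lit 6) (k (nat_lit 0x993f0)))))) (a (a (v (nat_lit 4) (a (a (v (nat_lit 9) (k (nat_lit 0x98eaa))) (a (v (nat_lit 8) (k (nat_lit 0x98f3a))) (v (nat_lit 7) (k (nat_lit 0x98f04))))) (a (v (nat_lit 6) (k (nat_lit 0x99f06))) (a (v (nat_lit 5) (k (nat_lit 0x98e20))) (v (nat_lit 4) (k (nat_lit 0x98e68))))))) (v (nat_lit 3) (a (a (v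 (nat_lit 9) (k (nat_lit 0x99270))) (a (v (nat_lit 8) (k (nat_lit 0x9911a))) (v (nat_lit 7) (k (nat_lit 0x9691e))))) (a (a (v (nat_lit 6) (k (nat_lit 0x9a41c))) (v (nat_lit 5) (k (nat_lit 0x985c2)))) (a (v (nat_lit 4) (k (nat_lit 0x98f04))) (v (nat_lit 3) (k (nat_lit 0x98f28)))))))) (a (v (nat_lit 2) (a (a (a (v (nat_lit 9) (k (nat_lit 0x98922))) (v (nat_lit 8) (k (nat_lit 0x98f82)))) (a (v (nat_lit 7) (k (nat_lit 0x990d8))) (v (nat_lit 6) (k (nat_lit 0x96948))))) (a (a (v (nat_lit 5) (k (nat_lit 0x98d24))) (v (nat_lit 4) (k (nat_lit 0x98dd2)))) (a (v (nat_lit 3) (k (nat_lit 0x995ac))) (v (nat_lit 2) (k (nat_lit 0x98dc0))))))) (v (nat_lit 1) (a (a (a (v (nat_lit 9) (k (nat_lit 0x98bf2))) (v (nat_lit 8) (k (nat_lit 0x98fca)))) (a (v (nat_lit 7) (k (nat_lit 0x990a8))) (v (nat_lit 6) (k (nat_lit 0x9942c))))) (a (a (v (nat_lit 5) (k (nat_lit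 0x98dcc))) (v (nat_lit 4) (k (nat_lit 0x989fa)))) (a (v (nat_lit 3) (k (nat_lit 0x993cc))) (a (v (nat_lit 2) (k (nat_lit 0x98ce8))) (v (nat_lit 1) (k (nat_lit 0x98d5a)))))))))))) (u (nat_lit 1) (a (a (v (nat_lit 6) (a (a (v (nat_lit 9) (k (nat_lit 0x99846))) (u (nat_lit 9) (k (nat_lit 0x1a7bf52)))) (a (v (nat_lit 8) (k (nat_lit 0x98d18))) (v (nat_lit 6) (k (nat_lit 0x991e6)))))) (a (v (nat_lit 5) (v (nat_lit 6) (k (nat_lit 0xce4d320)))) (t (nat_lit 5) (nat_lit 8) (nat_lit 9) (u (nat_lit 6) (k (nat_lit 0x336409e)))))) (a (v (nat_lit 4) (v (nat_lit 6) (k (nat_lit 0x9c210)))) (a (v (nat_lit 3) (a (a (v (nat_lit 9) (k (nat_lit 0x98f6a))) (v (nat_lit 7) (k (nat_lit 0x96f8a)))) (a (v (nat_lit 6) (k (nat_lit 0x9a344))) (v (nat_lit 5) (k (nat_lit 0x987f0)))))) (v (nat_lit 2) (a (v (nat_lit 6) (k (nat_lit 0x96d98))) (v (nat_lit 3) (k (nat_lit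 0x99618)))))))))))))))) (a (v (nat_lit 0) (a (a (a (a (u (nat_lit 9) (v (nat_lit 9) (v (nat_lit 9) (k (nat_lit 0x98eb0))))) (v (nat_lit 7) (a (u (nat_lit 9) (v (nat_lit 9) (k (nat_lit 0x98efe)))) (v (nat_lit 7) (u (nat_lit 8) (k (nat_lit 0x99090))))))) (a (v (nat_lit 6) (a (a (u (nat_lit 9) (v (nat_lit 9) (k (nat_lit 0x9900c)))) (u (nat_lit 8) (a (v (nat_lit 9) (k (nat_lit 0x997c8))) (v (nat_lit 8) (k (nat_lit 0x9984c)))))) (a (v (nat_lit 7) (u (nat_lit 8) (k (nat_lit 0x99180)))) (a (u (nat_lit 7) (a (v (nat_lit 9) (k (nat_lit 0x98f64))) (v (nat_lit 7) (k (nat_lit 0x99246))))) (v (nat_lit 6) (a (u (nat_lit 9) (k (nat_lit 0x99a3e))) (a (u (nat_lit 8) (k (nat_lit 0x9a8a2))) (u (nat_lit 7) (k (nat_lit 0x949b6)))))))))) (u (nat_lit 6) (a (a (v (nat_lit 8) (a (v (nat_lit 9) (k (nat_lit 0x99aaa))) (v (nat_lit 8) (k (nat_lit 0x9894c))))) (u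 (nat_lit 8) (v (nat_lit 9) (k (nat_lit 0x9b94c))))) (a (v (nat_lit 7) (a (v (nat_lit 8) (k (nat_lit 0x98f40))) (v (nat_lit 7) (k (nat_lit 0x99096))))) (v (nat_lit 6) (a (a (v (nat_lit 9) (k (nat_lit 0x989b2))) (v (nat_lit 8) (k (nat_lit 0x9792c)))) (a (v (nat_lit 7) (k (nat_lit 0x9d62c))) (v (nat_lit 6) (k (nat_lit 0x9ef70))))))))))) (a (a (v (nat_lit 5) (a (v (nat_lit 6) (a (u (nat_lit 9) (k (nat_lit 0x990ba))) (a (u (nat_lit 8) (k (nat_lit 0x9cb2e))) (u (nat_lit 7) (k (nat_lit 0x99a92)))))) (u (nat_lit 6) (a (a (v (nat_lit 9) (k (nat_lit 0x999a2))) (v (nat_lit 8) (k (nat_lit 0x1171c9a4)))) (a (v (nat_lit 7) (k (nat_lit 0x98c0a))) (v (nat_lit 6) (k (nat_lit 0x9b4a2)))))))) (u (nat_lit 5) (a (v (nat_lit 6) (v (nat_lit 6) (k (nat_lit 0x971e8)))) (v (nat_lit 5) (a (v (nat_lit 6) (k (nat_lit 0x98fdc))) (v (nat_lit 5) (k (nat_lit 0x99174))))))))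 (a (t (nat_lit 5) (nat_lit 8) (nat_lit 9) (a (u (nat_lit 8) (u (nat_lit 8) (k (nat_lit 0x990d2)))) (a (u (nat_lit 6) (u (nat_lit 6) (k (nat_lit 0x6d89e7c)))) (t (nat_lit 5) (nat_lit 8) (nat_lit 9) (u (nat_lit 7) (k (nat_lit 0x34f7832))))))) (v (nat_lit 4) (a (a (u (nat_lit 9) (v (nat_lit 9) (k (nat_lit 0x99246)))) (a (u (nat_lit 8) (v (nat_lit 9) (k (nat_lit 0x98f10)))) (v (nat_lit 7) (u (nat_lit 8) (k (nat_lit 0x99324)))))) (a (a (u (nat_lit 7) (a (v (nat_lit 9) (k (nat_lit 0x9c0a2))) (v (nat_lit 7) (k (nat_lit 0x96a6e))))) (v (nat_lit 6) (u (nat_lit 8) (k (nat_lit 0x952bc))))) (a (u (nat_lit 6) (a (a (v (nat_lit 9) (k (nat_lit 0x98b02))) (v (nat_lit 8) (k (nat_lit 0x9d64a)))) (a (v (nat_lit 7) (k (nat_lit 0x9bb38))) (v (nat_lit 6) (k (nat_lit 0x9a3fe)))))) (u (nat_lit 5) (v (nat_lit 5) (k (nat_lit 0x98fc4))))))))))) (a (a (a (u (nat_lit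 4) (a (a (v (nat_lit 6) (a (v (nat_lit 9) (k (nat_lit 0x993fc))) (a (v (nat_lit 7) (k (nat_lit 0x922b0))) (v (nat_lit 6) (k (nat_lit 0x98568)))))) (u (nat_lit 6) (v (nat_lit 7) (k (nat_lit 0x97f32))))) (a (v (nat_lit 5) (a (v (nat_lit 6) (k (nat_lit 0x99b22))) (u (nat_lit 6) (k (nat_lit 0x9981c))))) (a (t (nat_lit 5) (nat_lit 8) (nat_lit 9) (u (nat_lit 6) (k (nat_lit 0x4c3661a)))) (v (nat_lit 4) (a (v (nat_lit 6) (k (nat_lit 0x99060))) (a (v (nat_lit 5) (k (nat_lit 0x9a128))) (v (nat_lit 4) (k (nat_lit 0x98ec8)))))))))) (t (nat_lit 4) (nat_lit 7) (nat_lit 9) (u (nat_lit 5) (a (u (nat_lit 7) (k (nat_lit 0x998be))) (u (nat_lit 5) (k (nat_lit 0x99c9c))))))) (a (v (nat_lit 3) (a (a (u (nat_lit 9) (v (nat_lit 9) (k (nat_lit 0x97920)))) (a (u (nat_lit 7) (v (nat_lit 9) (k (nat_lit 0x95c40)))) (v (nat_lit 6) (u (nat_lit 7) (k (nat_lit 0x9e514))))))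 (a (a (u (nat_lit 5) (v (nat_lit 5) (k (nat_lit 0x999cc)))) (v (nat_lit 4) (u (nat_lit 5) (k (nat_lit 0x98c70))))) (a (u (nat_lit 4) (a (a (v (nat_lit 9) (k (nat_lit 0x9dadc))) (v (nat_lit 8) (k (nat_lit 0x9d44c)))) (a (v (nat_lit 7) (k (nat_lit 0x9a63e))) (a (v (nat_lit 5) (k (nat_lit 0x99276))) (v (nat_lit 4) (k (nat_lit 0x9899a))))))) (v (nat_lit 3) (a (u (nat_lit 5) (k (nat_lit 0x9b988))) (u (nat_lit 4) (k (nat_lit 0x99390))))))))) (u (nat_lit 3) (a (a (a (v (nat_lit 9) (v (nat_lit 9) (k (nat_lit 0x98ac6)))) (v (nat_lit 8) (a (v (nat_lit 9) (k (nat_lit 0x98fbe))) (v (nat_lit 8) (k (nat_lit 0x98e86)))))) (a (v (nat_lit 7) (a (v (nat_lit 9) (k (nat_lit 0x9c2ac))) (a (v (nat_lit 8) (k (nat_lit 0x98eec))) (v (nat_lit 7) (k (nat_lit 0x98fa0)))))) (v (nat_lit 6) (a (a (v (nat_lit 9) (k (nat_lit 0x98ec8))) (v (nat_lit 8) (k (nat_lit 0x9900c))))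 (a (v (nat_lit 7) (k (nat_lit 0x98bec))) (v (nat_lit 6) (k (nat_lit 0x98f04)))))))) (a (a (v (nat_lit 5) (a (a (v (nat_lit 9) (k (nat_lit 0x98f64))) (v (nat_lit 8) (k (nat_lit 0x9937e)))) (a (v (nat_lit 7) (k (nat_lit 0x98ff4))) (a (v (nat_lit 6) (k (nat_lit 0x9807c))) (v (nat_lit 5) (k (nat_lit 0x98820))))))) (t (nat_lit 5) (nat_lit 8) (nat_lit 9) (a (u (nat_lit 8) (k (nat_lit 0x43979ee))) (u (nat_lit 7) (k (nat_lit 0x3e8536c)))))) (a (v (nat_lit 4) (a (a (v (nat_lit 9) (k (nat_lit 0x94578))) (a (v (nat_lit 8) (k (nat_lit 0x94dfa))) (v (nat_lit 7) (k (nat_lit 0x97d9a))))) (a (v (nat_lit 6) (k (nat_lit 0x98f10))) (a (v (nat_lit 5) (k (nat_lit 0x9946e))) (v (nat_lit 4) (k (nat_lit 0x9a08c))))))) (v (nat_lit 3) (a (a (v (nat_lit 9) (k (nat_lit 0x98f1c))) (a (v (nat_lit 8) (k (nat_lit 0x98f46))) (v (nat_lit 7) (k (nat_lit 0x99012))))) (a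 (v (nat_lit 6) (k (nat_lit 0x990d8))) (a (v (nat_lit 5) (k (nat_lit 0x978e4))) (v (nat_lit 3) (k (nat_lit 0x98f4c))))))))))))) (a (a (v (nat_lit 2) (a (a (v (nat_lit 6) (u (nat_lit 8) (k (nat_lit 0x9916e)))) (a (u (nat_lit 6) (a (a (v (nat_lit 9) (k (nat_lit 0x977b2))) (v (nat_lit 8) (k (nat_lit 0x97e42)))) (a (v (nat_lit 7) (k (nat_lit 0x9adee))) (v (nat_lit 6) (k (nat_lit 0x96d62)))))) (u (nat_lit 5) (a (v (nat_lit 6) (k (nat_lit 0x9905a))) (v (nat_lit 5) (k (nat_lit 0x98f6a))))))) (a (a (v (nat_lit 4) (u (nat_lit 5) (k (nat_lit 0x98fbe)))) (u (nat_lit 4) (a (v (nat_lit 6) (k (nat_lit 0x98f1c))) (u (nat_lit 6) (k (nat_lit 0x98a66)))))) (a (u (nat_lit 3) (a (a (v (nat_lit 9) (k (nat_lit 0x98d2a))) (a (v (nat_lit 8) (k (nat_lit 0x98f4c))) (v (nat_lit 7) (k (nat_lit 0x98f2e))))) (a (a (v (nat_lit 6) (k (nat_lit 0x98fac))) (v (nat_lit 5)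 (k (nat_lit 0x98dd8)))) (a (v (nat_lit 4) (k (nat_lit 0x98874))) (v (nat_lit 3) (k (nat_lit 0x9a5fc))))))) (v (nat_lit 2) (u (nat_lit 3) (k (nat_lit 0x98c7c)))))))) (u (nat_lit 2) (a (a (v (nat_lit 6) (a (v (nat_lit 9) (k (nat_lit 0x9a48e))) (a (v (nat_lit 7) (k (nat_lit 0x976aa))) (v (nat_lit 6) (k (nat_lit 0x9b73c)))))) (a (u (nat_lit 6) (v (nat_lit 8) (k (nat_lit 0x97a88)))) (v (nat_lit 5) (v (nat_lit 8) (k (nat_lit 0x6843732)))))) (a (a (t (nat_lit 5) (nat_lit 8) (nat_lit 9) (v (nat_lit 5) (k (nat_lit 0xacd4cfc)))) (v (nat_lit 4) (v (nat_lit 4) (k (nat_lit 0x98fe8))))) (a (v (nat_lit 3) (a (v (nat_lit 5) (k (nat_lit 0x997b6))) (a (v (nat_lit 4) (k (nat_lit 0x9976e))) (v (nat_lit 3) (k (nat_lit 0x97f50)))))) (v (nat_lit 2) (a (a (v (nat_lit 6) (k (nat_lit 0x9911a))) (v (nat_lit 5) (k (nat_lit 0x99030)))) (a (v (nat_lit 4) (k (nat_lit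 0x98e74))) (a (v (nat_lit 3) (k (nat_lit 0x99318))) (v (nat_lit 2) (k (nat_lit 0x98d00)))))))))))) (a (v (nat_lit 1) (a (a (a (u (nat_lit 8) (a (v (nat_lit 9) (k (nat_lit 0x98c64))) (v (nat_lit 8) (k (nat_lit 0x99408))))) (a (v (nat_lit 7) (u (nat_lit 8) (k (nat_lit 0x9b298)))) (u (nat_lit 7) (a (v (nat_lit 9) (k (nat_lit 0x98c64))) (a (v (nat_lit 8) (k (nat_lit 0x9b298))) (v (nat_lit 7) (k (nat_lit 0x99408)))))))) (a (v (nat_lit 6) (a (u (nat_lit 9) (k (nat_lit 0x132d38))) (a (u (nat_lit 8) (k (nat_lit 0x9fb6a))) (u (nat_lit 7) (k (nat_lit 0x9fb6a)))))) (a (u (nat_lit 6) (a (a (v (nat_lit 9) (k (nat_lit 0x130d58))) (v (nat_lit 8) (k (nat_lit 0x926be)))) (a (v (nat_lit 7) (k (nat_lit 0x926be))) (v (nat_lit 6) (k (nat_lit 0x1328b8)))))) (u (nat_lit 5) (a (v (nat_lit 7) (k (nat_lit 0x9903c))) (a (v (nat_lit 6) (k (nat_lit 0x99168))) (v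 (nat_lit 5) (k (nat_lit 0x99060))))))))) (a (a (v (nat_lit 4) (u (nat_lit 5) (k (nat_lit 0x9914a)))) (a (u (nat_lit 4) (a (a (v (nat_lit 8) (k (nat_lit 0x9903c))) (v (nat_lit 6) (k (nat_lit 0x99168)))) (a (v (nat_lit 5) (k (nat_lit 0x9914a))) (v (nat_lit 4) (k (nat_lit 0x99060)))))) (v (nat_lit 3) (a (u (nat_lit 5) (k (nat_lit 0x99558))) (u (nat_lit 4) (k (nat_lit 0x99558))))))) (a (u (nat_lit 3) (a (a (v (nat_lit 9) (k (nat_lit 0x131994))) (a (v (nat_lit 8) (k (nat_lit 0xa08a8))) (v (nat_lit 7) (k (nat_lit 0xa08a8))))) (a (a (v (nat_lit 6) (k (nat_lit 0x131dc0))) (v (nat_lit 5) (k (nat_lit 0x982f8)))) (a (v (nat_lit 4) (k (nat_lit 0x982f8))) (v (nat_lit 3) (k (nat_lit 0x132210))))))) (a (v (nat_lit 2) (a (u (nat_lit 5) (k (nat_lit 0x988e6))) (a (u (nat_lit 4) (k (nat_lit 0x988e6))) (u (nat_lit 3) (k (nat_lit 0x131850)))))) (u (nat_lit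 2) (a (a (v (nat_lit 9) (k (nat_lit 0x13125c))) (a (v (nat_lit 8) (k (nat_lit 0x990ae))) (v (nat_lit 7) (k (nat_lit 0x990ae))))) (a (a (v (nat_lit 6) (k (nat_lit 0x131f88))) (v (nat_lit 5) (k (nat_lit 0x99408)))) (a (v (nat_lit 4) (k (nat_lit 0x99408))) (v (nat_lit 2) (k (nat_lit 0x131a30)))))))))))) (a (u (nat_lit 1) (a (a (a (v (nat_lit 9) (v (nat_lit 9) (k (nat_lit 0x98ce2)))) (v (nat_lit 5) (a (v (nat_lit 9) (k (nat_lit 0x980ee))) (v (nat_lit 8) (k (nat_lit 0x9aae8)))))) (a (v (nat_lit 4) (u (nat_lit 9) (k (nat_lit 0x97f7a)))) (v (nat_lit 3) (a (v (nat_lit 8) (k (nat_lit 0x92730))) (v (nat_lit 4) (k (nat_lit 0x997fe))))))) (a (a (u (nat_lit 3) (u (nat_lit 7) (k (nat_lit 0x97cda)))) (u (nat_lit 2) (v (nat_lit 3) (k (nat_lit 0x64b9c78))))) (a (v (nat_lit 1) (a (v (nat_lit 9) (k (nat_lit 0x989b2))) (a (u (nat_lit 6) (k (nat_lit 0x98be0)))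 (v (nat_lit 1) (k (nat_lit 0x98b38)))))) (u (nat_lit 1) (a (v (nat_lit 6) (k (nat_lit 0x9c3c6))) (v (nat_lit 3) (k (nat_lit 0x98f52))))))))) (v (nat_lit 0) (a (a (a (u (nat_lit 9) (v (nat_lit 9) (k (nat_lit 0x98f16)))) (v (nat_lit 7) (u (nat_lit 9) (k (nat_lit 0x99042))))) (a (u (nat_lit 7) (a (v (nat_lit 9) (k (nat_lit 0x98c5e))) (v (nat_lit 7) (k (nat_lit 0x99144))))) (a (u (nat_lit 6) (a (v (nat_lit 8) (k (nat_lit 0x99594))) (v (nat_lit 6) (k (nat_lit 0x96804))))) (t (nat_lit 5) (nat_lit 8) (nat_lit 9) (u (nat_lit 6) (k (nat_lit 0x998d6))))))) (a (a (u (nat_lit 4) (a (v (nat_lit 9) (k (nat_lit 0x98502))) (v (nat_lit 4) (k (nat_lit 0x99120))))) (v (nat_lit 3) (u (nat_lit 5) (k (nat_lit 0x9a4c4))))) (a (u (nat_lit 2) (v (nat_lit 3) (k (nat_lit 0x548be60)))) (a (u (nat_lit 1) (a (a (a (v (nat_lit 8) (k (nat_lit 0x98f9a))) (v (nat_lit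 7) (k (nat_lit 0x99054)))) (a (v (nat_lit 6) (k (nat_lit 0x9c582))) (v (nat_lit 5) (k (nat_lit 0x43ac1c))))) (a (a (v (nat_lit 4) (k (nat_lit 0x99c5a))) (v (nat_lit 3) (k (nat_lit 0x98e32)))) (a (v (nat_lit 2) (k (nat_lit 0x98d9c))) (v (nat_lit 1) (k (nat_lit 0x98d78))))))) (v (nat_lit 0) (a (a (u (nat_lit 5) (k (nat_lit 0x98c1c))) (u (nat_lit 4) (k (nat_lit 0x98e80)))) (a (u (nat_lit 3) (k (nat_lit 0x988f8))) (a (u (nat_lit 2) (k (nat_lit 0x696da82))) (u (nat_lit 1) (k (nat_lit 0x990d2)))))))))))))))))) (a (u (nat_lit 0) (a (a (a (a (v (nat_lit 8) (a (v (nat_lit 9) (v (nat_lit 9) (k (nat_lit 0x98c46)))) (a (u (nat_lit 9) (v (nat_lit 9) (k (nat_lit 0xa082a)))) (v (nat_lit 8) (a (v (nat_lit 9) (k (nat_lit 0x98eda))) (v (nat_lit 8) (k (nat_lit 0x98f34)))))))) (v (nat_lit 7) (a (v (nat_lit 8) (a (v (nat_lit 9) (k (nat_lit 0x99078))) (v (nat_lit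 8) (k (nat_lit 0x98e32))))) (v (nat_lit 7) (a (v (nat_lit 9) (k (nat_lit 0x991e0))) (v (nat_lit 7) (k (nat_lit 0x98f52)))))))) (a (v (nat_lit 6) (u (nat_lit 7) (v (nat_lit 8) (k (nat_lit 0x995e8))))) (u (nat_lit 6) (u (nat_lit 8) (v (nat_lit 9) (k (nat_lit 0x9a7d6))))))) (a (a (v (nat_lit 5) (a (a (v (nat_lit 9) (v (nat_lit 9) (k (nat_lit 0x98b4a)))) (v (nat_lit 8) (a (v (nat_lit 9) (k (nat_lit 0x98cd0))) (v (nat_lit 8) (k (nat_lit 0x98fbe)))))) (a (v (nat_lit 7) (a (v (nat_lit 9) (k (nat_lit 0x9a0c8))) (a (v (nat_lit 8) (k (nat_lit 0x99360))) (v (nat_lit 7) (k (nat_lit 0x98f9a)))))) (v (nat_lit 5) (a (v (nat_lit 9) (k (nat_lit 0x989c4))) (a (v (nat_lit 8) (k (nat_lit 0x99240))) (v (nat_lit 7) (k (nat_lit 0x993d8))))))))) (t (nat_lit 5) (nat_lit 8) (nat_lit 9) (u (nat_lit 5) (u (nat_lit 7) (k (nat_lit 0x443a7bc)))))) (a (v (nat_lit 4)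 (a (a (v (nat_lit 8) (a (v (nat_lit 9) (k (nat_lit 0x223789e))) (v (nat_lit 8) (k (nat_lit 0x992f4))))) (v (nat_lit 7) (v (nat_lit 7) (k (nat_lit 0x9b87a))))) (a (v (nat_lit 6) (v (nat_lit 6) (k (nat_lit 0x99bf4)))) (a (v (nat_lit 5) (a (v (nat_lit 9) (k (nat_lit 0x98d12))) (a (v (nat_lit 8) (k (nat_lit 0x99366))) (v (nat_lit 7) (k (nat_lit 0x99540)))))) (v (nat_lit 4) (a (v (nat_lit 9) (k (nat_lit 0x98d24))) (a (v (nat_lit 8) (k (nat_lit 0x9955e))) (v (nat_lit 7) (k (nat_lit 0x996a8)))))))))) (u (nat_lit 4) (a (a (v (nat_lit 9) (v (nat_lit 9) (k (nat_lit 0x98fa0)))) (v (nat_lit 7) (a (v (nat_lit 9) (k (nat_lit 0x9c64e))) (v (nat_lit 7) (k (nat_lit 0x98e44)))))) (a (v (nat_lit 6) (u (nat_lit 7) (k (nat_lit 0x9c27c)))) (a (u (nat_lit 5) (v (nat_lit 7) (k (nat_lit 0x98e62)))) (v (nat_lit 4) (u (nat_lit 5) (k (nat_lit 0x97cc2)))))))))))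 (a (a (a (t (nat_lit 4) (nat_lit 7) (nat_lit 9) (v (nat_lit 4) (u (nat_lit 5) (k (nat_lit 0x77e6cfe))))) (v (nat_lit 3) (a (a (v (nat_lit 9) (v (nat_lit 9) (k (nat_lit 0x9a842)))) (u (nat_lit 5) (u (nat_lit 6) (k (nat_lit 0x9a0b0))))) (a (v (nat_lit 4) (v (nat_lit 4) (k (nat_lit 0x9878a)))) (u (nat_lit 4) (v (nat_lit 8) (k (nat_lit 0x8b8daa)))))))) (a (u (nat_lit 3) (a (t (nat_lit 4) (nat_lit 7) (nat_lit 9) (t (nat_lit 4) (nat_lit 7) (nat_lit 9) (k (nat_lit 0x25b0918)))) (v (nat_lit 3) (v (nat_lit 8) (k (nat_lit 0x9bab4)))))) (v (nat_lit 2) (a (a (a (v (nat_lit 9) (v (nat_lit 9) (k (nat_lit 0x98cb2)))) (v (nat_lit 8) (a (v (nat_lit 9) (k (nat_lit 0x1736ffd6))) (v (nat_lit 8) (k (nat_lit 0x98dfc)))))) (a (v (nat_lit 7) (a (v (nat_lit 9) (k (nat_lit 0x890f406))) (a (v (nat_lit 8) (k (nat_lit 0x98e7a))) (v (nat_lit 7) (k (nat_lit 0x98eb0))))))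 (v (nat_lit 6) (u (nat_lit 9) (k (nat_lit 0x5261a60)))))) (a (a (u (nat_lit 6) (v (nat_lit 6) (k (nat_lit 0x990ba)))) (v (nat_lit 5) (a (v (nat_lit 9) (k (nat_lit 0x98ce8))) (a (v (nat_lit 8) (k (nat_lit 0x9a794))) (v (nat_lit 7) (k (nat_lit 0x99804))))))) (a (v (nat_lit 4) (a (a (v (nat_lit 9) (k (nat_lit 0x98d24))) (v (nat_lit 8) (k (nat_lit 0x99cde)))) (a (v (nat_lit 7) (k (nat_lit 0x99a8c))) (v (nat_lit 6) (k (nat_lit 0x998dc)))))) (a (u (nat_lit 3) (u (nat_lit 4) (k (nat_lit 0x9916e)))) (v (nat_lit 2) (a (a (v (nat_lit 9) (k (nat_lit 0x989dc))) (v (nat_lit 8) (k (nat_lit 0x9ae7e)))) (a (v (nat_lit 7) (k (nat_lit 0x9935a))) (a (v (nat_lit 6) (k (nat_lit 0x9cd4a))) (t (nat_lit 5) (nat_lit 8) (nat_lit 9) (k (nat_lit 0x995f4)))))))))))))) (a (a (u (nat_lit 2) (a (t (nat_lit 5) (nat_lit 8) (nat_lit 9) (a (v (nat_lit 9) (k (nat_lit 0xbd95388)))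 (u (nat_lit 5) (k (nat_lit 0x1029d2))))) (u (nat_lit 4) (t (nat_lit 5) (nat_lit 8) (nat_lit 9) (k (nat_lit 0x10689ba)))))) (v (nat_lit 1) (a (a (v (nat_lit 9) (v (nat_lit 9) (k (nat_lit 0x98ce2)))) (a (v (nat_lit 5) (u (nat_lit 9) (k (nat_lit 0x97f7a)))) (v (nat_lit 4) (a (v (nat_lit 9) (k (nat_lit 0x980ee))) (v (nat_lit 7) (k (nat_lit 0x9aae8))))))) (a (a (v (nat_lit 3) (a (v (nat_lit 7) (k (nat_lit 0x92730))) (v (nat_lit 5) (k (nat_lit 0x997fe))))) (u (nat_lit 3) (u (nat_lit 8) (k (nat_lit 0x97cda))))) (a (u (nat_lit 2) (v (nat_lit 3) (k (nat_lit 0x64b9c78)))) (v (nat_lit 1) (a (a (a (v (nat_lit 8) (k (nat_lit 0x99054))) (v (nat_lit 7) (k (nat_lit 0x98f9a)))) (a (v (nat_lit 6) (k (nat_lit 0x9c582))) (v (nat_lit 5) (k (nat_lit 0x99c5a))))) (a (a (v (nat_lit 4) (k (nat_lit 0x43ac1c))) (v (nat_lit 3) (k (nat_lit 0x98e32)))) (a (v (nat_lit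 2) (k (nat_lit 0x98d9c))) (v (nat_lit 1) (k (nat_lit 0x990d2)))))))))))) (a (u (nat_lit 1) (v (nat_lit 1) (v (nat_lit 1) (k (nat_lit 0x98b2c))))) (a (v (nat_lit 0) (a (a (a (v (nat_lit 8) (a (v (nat_lit 9) (k (nat_lit 0x98f7c))) (v (nat_lit 8) (k (nat_lit 0x990d8))))) (v (nat_lit 7) (v (nat_lit 8) (k (nat_lit 0x98fd6))))) (a (v (nat_lit 6) (a (a (v (nat_lit 9) (k (nat_lit 0x9981c))) (v (nat_lit 8) (k (nat_lit 0x98ac6)))) (a (v (nat_lit 7) (k (nat_lit 0x99036))) (v (nat_lit 6) (k (nat_lit 0x9c132)))))) (a (v (nat_lit 5) (a (a (v (nat_lit 9) (k (nat_lit 0x98eaa))) (v (nat_lit 8) (k (nat_lit 0x98f04)))) (a (v (nat_lit 7) (k (nat_lit 0x98f3a))) (a (v (nat_lit 6) (k (nat_lit 0x99f06))) (v (nat_lit 5) (k (nat_lit 0x98e68))))))) (v (nat_lit 4) (a (a (v (nat_lit 9) (k (nat_lit 0x99660))) (a (v (nat_lit 8) (k (nat_lit 0x994c2))) (v (nat_lit 7)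 (k (nat_lit 0x990f0))))) (a (v (nat_lit 6) (k (nat_lit 0x9901e))) (a (v (nat_lit 5) (k (nat_lit 0x98e20))) (v (nat_lit 4) (k (nat_lit 0x98d84)))))))))) (a (a (t (nat_lit 4) (nat_lit 7) (nat_lit 9) (v (nat_lit 6) (k (nat_lit 0x993f0)))) (v (nat_lit 3) (a (a (v (nat_lit 9) (k (nat_lit 0x99270))) (a (v (nat_lit 8) (k (nat_lit 0x9691e))) (v (nat_lit 7) (k (nat_lit 0x9911a))))) (a (a (v (nat_lit 6) (k (nat_lit 0x9a41c))) (v (nat_lit 5) (k (nat_lit 0x98f04)))) (a (v (nat_lit 4) (k (nat_lit 0x985c2))) (v (nat_lit 3) (k (nat_lit 0x98f28)))))))) (a (v (nat_lit 2) (a (a (a (v (nat_lit 9) (k (nat_lit 0x98922))) (v (nat_lit 8) (k (nat_lit 0x990d8)))) (a (v (nat_lit 7) (k (nat_lit 0x98f82))) (v (nat_lit 6) (k (nat_lit 0x96948))))) (a (a (v (nat_lit 5) (k (nat_lit 0x98dd2))) (v (nat_lit 4) (k (nat_lit 0x98d24)))) (a (v (nat_lit 3) (k (nat_lit 0x995ac)))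 (v (nat_lit 2) (k (nat_lit 0x98dc0))))))) (a (v (nat_lit 1) (a (v (nat_lit 9) (k (nat_lit 0x989b2))) (a (u (nat_lit 6) (k (nat_lit 0x98be0))) (v (nat_lit 1) (k (nat_lit 0x98d78)))))) (v (nat_lit 0) (a (a (a (v (nat_lit 9) (k (nat_lit 0x98bf2))) (v (nat_lit 8) (k (nat_lit 0x990a8)))) (a (v (nat_lit 7) (k (nat_lit 0x98fca))) (a (v (nat_lit 6) (k (nat_lit 0x9942c))) (v (nat_lit 5) (k (nat_lit 0x989fa)))))) (a (a (v (nat_lit 4) (k (nat_lit 0x98dcc))) (a (v (nat_lit 3) (k (nat_lit 0x993cc))) (v (nat_lit 2) (k (nat_lit 0x98ce8))))) (a (v (nat_lit 1) (k (nat_lit 0x98b38))) (a (u (nat_lit 1) (k (nat_lit 0x98b2c))) (v (nat_lit 0) (k (nat_lit 0x98d5a))))))))))))) (u (nat_lit 0) (a (a (v (nat_lit 6) (a (a (v (nat_lit 9) (k (nat_lit 0x99846))) (u (nat_lit 9) (k (nat_lit 0x1a7bf52)))) (a (v (nat_lit 7) (k (nat_lit 0x98d18))) (v (nat_lit 6) (k (nat_lit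 0x991e6)))))) (a (v (nat_lit 5) (v (nat_lit 6) (k (nat_lit 0x9c210)))) (v (nat_lit 4) (v (nat_lit 6) (k (nat_lit 0xce4d320)))))) (a (a (t (nat_lit 4) (nat_lit 7) (nat_lit 9) (u (nat_lit 6) (k (nat_lit 0x336409e)))) (v (nat_lit 3) (a (a (v (nat_lit 9) (k (nat_lit 0x98f6a))) (v (nat_lit 8) (k (nat_lit 0x96f8a)))) (a (v (nat_lit 6) (k (nat_lit 0x9a344))) (v (nat_lit 4) (k (nat_lit 0x987f0))))))) (a (v (nat_lit 2) (a (v (nat_lit 6) (k (nat_lit 0x96d98))) (v (nat_lit 3) (k (nat_lit 0x99618))))) (v (nat_lit 1) (a (v (nat_lit 6) (k (nat_lit 0x9c3c6))) (v (nat_lit 3) (k (nat_lit 0x98f52))))))))))))))) (t (nat_lit 0) (nat_lit 1) (nat_lit 2) (a (a (a (a (u (nat_lit 9) (v (nat_lit 9) (v (nat_lit 9) (k (nat_lit 0x1cb5ac))))) (v (nat_lit 8) (u (nat_lit 9) (u (nat_lit 9) (k (nat_lit 0x995e8)))))) (a (u (nat_lit 8) (u (nat_lit 8) (v (nat_lit 8) (k (nat_lit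 0x24874b6))))) (a (v (nat_lit 7) (u (nat_lit 9) (u (nat_lit 9) (k (nat_lit 0x995e8))))) (u (nat_lit 7) (u (nat_lit 7) (v (nat_lit 7) (k (nat_lit 0x24874b6)))))))) (a (a (u (nat_lit 6) (a (v (nat_lit 7) (u (nat_lit 8) (k (nat_lit 0x9a5cc)))) (a (u (nat_lit 7) (v (nat_lit 8) (k (nat_lit 0x9a5cc)))) (u (nat_lit 6) (a (v (nat_lit 8) (k (nat_lit 0x9c108))) (v (nat_lit 7) (k (nat_lit 0x9c108)))))))) (v (nat_lit 5) (u (nat_lit 6) (v (nat_lit 8) (k (nat_lit 0x9a3b6)))))) (a (u (nat_lit 5) (a (u (nat_lit 9) (v (nat_lit 9) (k (nat_lit 0x99636)))) (a (v (nat_lit 7) (v (nat_lit 9) (k (nat_lit 0xb2b246)))) (u (nat_lit 5) (v (nat_lit 7) (k (nat_lit 0x69590a6))))))) (a (t (nat_lit 5) (nat_lit 8) (nat_lit 9) (u (nat_lit 6) (a (u (nat_lit 7) (k (nat_lit 0x99180))) (u (nat_lit 6) (k (nat_lit 0x9970e)))))) (v (nat_lit 4) (u (nat_lit 6) (v (nat_lit 7) (k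 (nat_lit 0x9a3b6))))))))) (a (a (a (u (nat_lit 4) (a (a (u (nat_lit 9) (v (nat_lit 9) (k (nat_lit 0x99636)))) (v (nat_lit 8) (v (nat_lit 9) (k (nat_lit 0xb2b246))))) (a (u (nat_lit 5) (a (v (nat_lit 8) (k (nat_lit 0x990c6))) (v (nat_lit 7) (k (nat_lit 0x990c6))))) (u (nat_lit 4) (v (nat_lit 8) (k (nat_lit 0x69590a6))))))) (t (nat_lit 4) (nat_lit 7) (nat_lit 9) (u (nat_lit 6) (a (u (nat_lit 8) (k (nat_lit 0x99180))) (u (nat_lit 6) (k (nat_lit 0x9970e))))))) (a (v (nat_lit 3) (v (nat_lit 3) (a (u (nat_lit 5) (k (nat_lit 0x2466612))) (u (nat_lit 4) (k (nat_lit 0x2466612)))))) (a (u (nat_lit 3) (a (v (nat_lit 4) (v (nat_lit 5) (k (nat_lit 0x1790904)))) (u (nat_lit 3) (a (t (nat_lit 5) (nat_lit 8) (nat_lit 9) (k (nat_lit 0x419d07e))) (t (nat_lit 4) (nat_lit 7) (nat_lit 9) (k (nat_lit 0x419d07e))))))) (v (nat_lit 2) (a (a (u (nat_lit 8) (v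 (nat_lit 9) (k (nat_lit 0x992ee)))) (u (nat_lit 7) (v (nat_lit 9) (k (nat_lit 0x992ee))))) (a (u (nat_lit 5) (v (nat_lit 9) (k (nat_lit 0x133020ea)))) (a (u (nat_lit 4) (v (nat_lit 9) (k (nat_lit 0x133020ea)))) (u (nat_lit 3) (a (a (v (nat_lit 9) (k (nat_lit 0x1333c8))) (a (u (nat_lit 8) (k (nat_lit 0xaa5b1d4))) (u (nat_lit 7) (k (nat_lit 0xaa5b1d4))))) (a (a (u (nat_lit 6) (k (nat_lit 0x13367310))) (u (nat_lit 5) (k (nat_lit 0xa4073ea)))) (a (u (nat_lit 4) (k (nat_lit 0xa4073ea))) (u (nat_lit 3) (k (nat_lit 0x19e9c9c)))))))))))))) (a (a (u (nat_lit 2) (a (a (u (nat_lit 8) (u (nat_lit 9) (k (nat_lit 0x33e205c)))) (a (v (nat_lit 7) (u (nat_lit 8) (k (nat_lit 0x9d9fe)))) (u (nat_lit 7) (a (u (nat_lit 9) (k (nat_lit 0x33e205c))) (v (nat_lit 8) (k (nat_lit 0x9d9fe))))))) (a (a (v (nat_lit 5) (u (nat_lit 6) (k (nat_lit 0x29f179e)))) (v (nat_lit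 4) (a (u (nat_lit 6) (k (nat_lit 0x29f179e))) (v (nat_lit 5) (k (nat_lit 0x138a14)))))) (a (v (nat_lit 2) (a (a (v (nat_lit 9) (k (nat_lit 0x15c6d1e8))) (a (u (nat_lit 8) (k (nat_lit 0xaa5676a))) (u (nat_lit 7) (k (nat_lit 0xaa5676a))))) (a (u (nat_lit 6) (k (nat_lit 0x9f9eb5c))) (a (u (nat_lit 3) (k (nat_lit 0x12d0efa8))) (v (nat_lit 2) (k (nat_lit 0xa8ced48))))))) (u (nat_lit 2) (a (u (nat_lit 9) (k (nat_lit 0x133e3c))) (a (v (nat_lit 5) (k (nat_lit 0x7ece9fa))) (v (nat_lit 4) (k (nat_lit 0x7ece9fa)))))))))) (a (v (nat_lit 1) (a (a (v (nat_lit 7) (u (nat_lit 8) (k (nat_lit 0xfcb1c)))) (u (nat_lit 7) (v (nat_lit 8) (k (nat_lit 0x9dfaa))))) (a (u (nat_lit 6) (v (nat_lit 8) (k (nat_lit 0x3477258)))) (u (nat_lit 2) (a (u (nat_lit 9) (k (nat_lit 0x9b1a8))) (v (nat_lit 7) (k (nat_lit 0x995ac)))))))) (u (nat_lit 1) (a (a (v (nat_lit 9) (v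 (nat_lit 9) (k (nat_lit 0x6953fa)))) (v (nat_lit 7) (v (nat_lit 8) (k (nat_lit 0x9903c))))) (a (u (nat_lit 7) (v (nat_lit 9) (k (nat_lit 0x690e460)))) (a (u (nat_lit 3) (t (nat_lit 5) (nat_lit 8) (nat_lit 9) (k (nat_lit 0x303620a)))) (u (nat_lit 1) (a (t (nat_lit 5) (nat_lit 8) (nat_lit 9) (k (nat_lit 0x295691a))) (a (t (nat_lit 4) (nat_lit 7) (nat_lit 9) (k (nat_lit 0x119088c))) (u (nat_lit 1) (k (nat_lit 0x133c5306)))))))))))) (a (v (nat_lit 0) (a (a (v (nat_lit 7) (u (nat_lit 8) (k (nat_lit 0x9dfaa)))) (u (nat_lit 7) (v (nat_lit 8) (k (nat_lit 0xfcb1c))))) (a (u (nat_lit 6) (v (nat_lit 7) (k (nat_lit 0x3477258)))) (a (u (nat_lit 2) (a (u (nat_lit 9) (k (nat_lit 0x9b1a8))) (v (nat_lit 8) (k (nat_lit 0x995ac))))) (u (nat_lit 1) (u (nat_lit 2) (k (nat_lit 0x99408)))))))) (a (u (nat_lit 0) (a (a (v (nat_lit 9) (v (nat_lit 9) (k (nat_lit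 0x6953fa)))) (a (u (nat_lit 8) (v (nat_lit 9) (k (nat_lit 0x690e460)))) (v (nat_lit 7) (v (nat_lit 8) (k (nat_lit 0x9903c)))))) (a (a (u (nat_lit 3) (t (nat_lit 4) (nat_lit 7) (nat_lit 9) (k (nat_lit 0x303620a)))) (v (nat_lit 1) (u (nat_lit 2) (k (nat_lit 0x99408))))) (a (u (nat_lit 1) (a (t (nat_lit 5) (nat_lit 8) (nat_lit 9) (k (nat_lit 0xf164a6))) (a (t (nat_lit 4) (nat_lit 7) (nat_lit 9) (k (nat_lit 0xf164a6))) (u (nat_lit 1) (k (nat_lit 0x9903c)))))) (u (nat_lit 0) (a (a (t (nat_lit 5) (nat_lit 8) (nat_lit 9) (k (nat_lit 0x119088c))) (t (nat_lit 4) (nat_lit 7) (nat_lit 9) (k (nat_lit 0x295691a)))) (a (u (nat_lit 1) (k (nat_lit 0x9903c))) (u (nat_lit 0) (k (nat_lit 0x133c5306)))))))))) (t (nat_lit 0) (nat_lit 1) (nat_lit 2) (a (a (a (v (nat_lit 7) (u (nat_lit 8) (k (nat_lit 0x1b8bcc8)))) (u (nat_lit 7) (v (nat_lit 8) (k (nat_lit 0x1b8bcc8)))))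 (a (t (nat_lit 5) (nat_lit 8) (nat_lit 9) (u (nat_lit 5) (k (nat_lit 0x98fd0)))) (a (v (nat_lit 4) (u (nat_lit 5) (k (nat_lit 0x10bb058)))) (u (nat_lit 4) (a (v (nat_lit 5) (k (nat_lit 0x10bb058))) (t (nat_lit 5) (nat_lit 8) (nat_lit 9) (k (nat_lit 0x98fee)))))))) (a (a (t (nat_lit 4) (nat_lit 7) (nat_lit 9) (a (u (nat_lit 5) (k (nat_lit 0x98fee))) (u (nat_lit 4) (k (nat_lit 0x98fd0))))) (a (u (nat_lit 3) (a (a (u (nat_lit 9) (k (nat_lit 0x131d90))) (u (nat_lit 8) (k (nat_lit 0x99024)))) (a (u (nat_lit 7) (k (nat_lit 0x99024))) (v (nat_lit 3) (k (nat_lit 0x132558)))))) (u (nat_lit 2) (a (u (nat_lit 9) (k (nat_lit 0x5b8b5ec))) (v (nat_lit 2) (k (nat_lit 0x134b38))))))) (a (u (nat_lit 1) (v (nat_lit 6) (k (nat_lit 0x1ee9d60)))) (a (u (nat_lit 0) (v (nat_lit 6) (k (nat_lit 0x1ee9d60)))) (t (nat_lit 0) (nat_lit 1) (nat_lit 2) (a (u (nat_lit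 5) (k (nat_lit 0x59e54e))) (u (nat_lit 4) (k (nat_lit 0x59e54e)))))))))))))))))))))

open Fl.Tr in
/-- the table -/
noncomputable def T : Fl.Tr := (c (c (c (c (c (c (c (c (c (c (m (nat_lit 0x8f34d710)) (c (p (nat_lit 0x51e8e0cc)) (c (p (nat_lit 0x17fa918)) (c (p (nat_lit 0x757d7cc)) (c (m (nat_lit 0x2683b0)) e))))) (c (c (p (nat_lit 0x544efabc)) (c (m (nat_lit 0x20e06cec)) (c (p (nat_lit 0x6ff50f4)) (c (m (nat_lit 0x135f9c)) e)))) (c (c (m (nat_lit 0x282cfccc)) (c (p (nat_lit 0xf3fa11c)) (c (m (nat_lit 0x1cdb50)) e))) (c (c (p (nat_lit 0xd48af34)) (c (m (nat_lit 0x1590e7c)) e)) (c (c (m (nat_lit 0x98e98)) e) e))))) (c (c (c (p (nat_lit 0x544efabc)) (c (m (nat_lit 0x20e06cec)) (c (p (nat_lit 0x6ff50f4)) (c (m (nat_lit 0x135f9c)) e)))) (c (c (m (nat_lit 0xf63a14c)) (c (p (nat_lit 0x7e5b578)) (c (m (nat_lit 0x28893fc)) e))) (c (c (p (nat_lit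 0x31f944c)) (c (m (nat_lit 0x27ee2fc)) e)) (c (c (m (nat_lit 0x14f7480)) e) e)))) (c (c (c (m (nat_lit 0x282cfccc)) (c (p (nat_lit 0xf3fa11c)) (c (m (nat_lit 0x1cdb50)) e))) (c (c (p (nat_lit 0x31f944c)) (c (m (nat_lit 0x27ee2fc)) e)) (c (c (m (nat_lit 0x2887710)) e) e))) (c (c (c (p (nat_lit 0xd48af34)) (c (m (nat_lit 0x1590e7c)) e)) (c (c (m (nat_lit 0x14f7480)) e) e)) (c (c (c (m (nat_lit 0x98e98)) e) e) e))))) (c (c (c (c (p (nat_lit 0x3ad3595c)) (c (m (nat_lit 0x5ec0f0f8)) (c (p (nat_lit 0x2eb5eeb4)) (c (m (nat_lit 0x68b51e0)) e)))) (c (c (m (nat_lit 0x1c7ce884)) (c (p (nat_lit 0x1939e4c8)) (c (m (nat_lit 0x53a3a68)) e))) (c (c (p (nat_lit 0x42a4880)) (c (m (nat_lit 0x2eed1e8)) e)) (c (c (m (nat_lit 0x29e5948)) e) e)))) (c (c (c (m (nat_lit 0x1c7ce884)) (c (p (nat_lit 0x1939e4c8)) (c (m (nat_lit 0x53a3a68)) e))) (c (c (p (nat_lit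 0x3942c0)) (c (m (nat_lit 0x395e38)) e)) (c (c (m (nat_lit 0x132948)) e) e))) (c (c (c (p (nat_lit 0x42a4880)) (c (m (nat_lit 0x2eed1e8)) e)) (c (c (m (nat_lit 0x132948)) e) e)) (c (c (c (m (nat_lit 0x29e5948)) e) e) e)))) (c (c (c (c (m (nat_lit 0x10a99e08)) (c (p (nat_lit 0x2295eb80)) (c (m (nat_lit 0x124b9b64)) e))) (c (c (p (nat_lit 0x811bed0)) (c (m (nat_lit 0x81b9394)) e)) (c (c (m (nat_lit 0x990c0)) e) e))) (c (c (c (p (nat_lit 0x811bed0)) (c (m (nat_lit 0x81b9394)) e)) (c (c (m (nat_lit 0x265af4)) e) e)) (c (c (c (m (nat_lit 0x990c0)) e) e) e))) (c (c (c (c (p (nat_lit 0xe5425c)) (c (m (nat_lit 0x396ed0)) e)) (c (c (m (nat_lit 0x13188c)) e) e)) (c (c (c (m (nat_lit 0x13188c)) e) e) e)) (c (c (c (c (m (nat_lit 0x3947e8)) e) e) e) e))))) (c (c (c (c (c (p (nat_lit 0x5af74694)) (c (m (nat_lit 0x2e9716fc)) (c (p (nat_lit 0x62eaff4))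 (c (m (nat_lit 0x1ce9c0)) e)))) (c (c (m (nat_lit 0x17957e74)) (c (p (nat_lit 0xaf1ca3c)) (c (m (nat_lit 0x268aac)) e))) (c (c (p (nat_lit 0x14e6c608)) (c (p (nat_lit 0xfb3e14)) e)) (c (c (m (nat_lit 0x3aa68d4)) e) e)))) (c (c (c (m (nat_lit 0x3f84420c)) (c (p (nat_lit 0x19b279d8)) (c (p (nat_lit 0x1cdf4c)) e))) (c (c (m (nat_lit 0xd449eb8)) (c (m (nat_lit 0x2621df0)) e)) (c (c (p (nat_lit 0x4a5ac28)) e) e))) (c (c (c (p (nat_lit 0xcacf1ac)) (c (m (nat_lit 0x2ea07b4)) e)) (c (c (p (nat_lit 0x6f8b9e0)) e) e)) (c (c (c (m (nat_lit 0x13b9960)) e) e) e)))) (c (c (c (c (m (nat_lit 0x5f619e4)) (c (p (nat_lit 0x181cbfb4)) (c (m (nat_lit 0x530a6a8)) e))) (c (c (m (nat_lit 0x665fb74)) (c (m (nat_lit 0x5c25b64)) e)) (c (c (p (nat_lit 0x34bc3a8)) e) e))) (c (c (c (p (nat_lit 0x260b0f8)) (c (m (nat_lit 0x139e768)) e)) (c (c (m (nat_lit 0x1cb0c0))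 e) e)) (c (c (c (m (nat_lit 0x11d372c)) e) e) e))) (c (c (c (c (p (nat_lit 0x94c2030)) (c (m (nat_lit 0x91c3470)) e)) (c (c (p (nat_lit 0x9a35c)) e) e)) (c (c (c (m (nat_lit 0x99138)) e) e) e)) (c (c (c (c (m (nat_lit 0x1cab2c)) e) e) e) e)))) (c (c (c (c (c (m (nat_lit 0xf7ed488)) (c (p (nat_lit 0x1784505c)) (c (m (nat_lit 0x1cd5a4)) e))) (c (c (p (nat_lit 0xea50fc4)) (c (m (nat_lit 0x98cc4)) e)) (c (c (m (nat_lit 0x3aa6eec)) e) e))) (c (c (c (p (nat_lit 0x136948a4)) (c (p (nat_lit 0x133e00)) e)) (c (c (m (nat_lit 0x3e7b418)) e) e)) (c (c (c (p (nat_lit 0x9723c)) e) e) e))) (c (c (c (c (p (nat_lit 0xe2cfdac)) (c (m (nat_lit 0x2e542fc)) e)) (c (c (m (nat_lit 0x2e6ece4)) e) e)) (c (c (c (m (nat_lit 0xc44cdb4)) e) e) e)) (c (c (c (c (m (nat_lit 0x1c2b4)) e) e) e) e))) (c (c (c (c (c (p (nat_lit 0x13f806c)) (c (m (nat_lit 0x138804)) e))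 (c (c (m (nat_lit 0x138924)) e) e)) (c (c (c (m (nat_lit 0x98ae4)) e) e) e)) (c (c (c (c (m (nat_lit 0xfa4064)) e) e) e) e)) (c (c (c (c (c (m (nat_lit 0x1385d0)) e) e) e) e) e))))) (c (c (c (c (c (c (p (nat_lit 0x5af74694)) (c (m (nat_lit 0x2e9716fc)) (c (p (nat_lit 0x62eaff4)) (c (m (nat_lit 0x1ce9c0)) e)))) (c (c (m (nat_lit 0x3f84420c)) (c (p (nat_lit 0x19b279d8)) (c (p (nat_lit 0x1cdf4c)) e))) (c (c (p (nat_lit 0xcacf1ac)) (c (m (nat_lit 0x2ea07b4)) e)) (c (c (m (nat_lit 0x13b9960)) e) e)))) (c (c (c (m (nat_lit 0x17957e74)) (c (p (nat_lit 0xaf1ca3c)) (c (m (nat_lit 0x268aac)) e))) (c (c (m (nat_lit 0xd449eb8)) (c (m (nat_lit 0x2621df0)) e)) (c (c (p (nat_lit 0x6f8b9e0)) e) e))) (c (c (c (p (nat_lit 0x14e6c608)) (c (p (nat_lit 0xfb3e14)) e)) (c (c (p (nat_lit 0x4a5ac28)) e) e)) (c (c (c (m (nat_lit 0x3aa68d4)) e) e) e)))) (c (c (c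 (c (m (nat_lit 0x5f619e4)) (c (p (nat_lit 0x181cbfb4)) (c (m (nat_lit 0x530a6a8)) e))) (c (c (p (nat_lit 0x260b0f8)) (c (m (nat_lit 0x139e768)) e)) (c (c (m (nat_lit 0x11d372c)) e) e))) (c (c (c (m (nat_lit 0x665fb74)) (c (m (nat_lit 0x5c25b64)) e)) (c (c (m (nat_lit 0x1cb0c0)) e) e)) (c (c (c (p (nat_lit 0x34bc3a8)) e) e) e))) (c (c (c (c (p (nat_lit 0x94c2030)) (c (m (nat_lit 0x91c3470)) e)) (c (c (m (nat_lit 0x99138)) e) e)) (c (c (c (p (nat_lit 0x9a35c)) e) e) e)) (c (c (c (c (m (nat_lit 0x1cab2c)) e) e) e) e)))) (c (c (c (c (c (m (nat_lit 0x67a85cfc)) (c (m (nat_lit 0x29c5464)) (c (m (nat_lit 0x40cda30)) e))) (c (c (p (nat_lit 0x134b0c20)) (c (m (nat_lit 0x416be3c)) e)) (c (c (p (nat_lit 0x1b1fd70)) e) e))) (c (c (c (p (nat_lit 0x134b0c20)) (c (m (nat_lit 0x416be3c)) e)) (c (c (m (nat_lit 0x1801b0f0)) e) e)) (c (c (c (p (nat_lit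 0x1b1fd70)) e) e) e))) (c (c (c (c (p (nat_lit 0x99afc8)) (c (p (nat_lit 0x1a0ef50)) e)) (c (c (m (nat_lit 0x433104)) e) e)) (c (c (c (m (nat_lit 0x433104)) e) e) e)) (c (c (c (c (m (nat_lit 0x268cd4)) e) e) e) e))) (c (c (c (c (c (p (nat_lit 0x150177c0)) (c (m (nat_lit 0x6fe8470)) e)) (c (c (m (nat_lit 0x99048)) e) e)) (c (c (c (m (nat_lit 0x6eb5dbc)) e) e) e)) (c (c (c (c (p (nat_lit 0xd9c668)) e) e) e) e)) (c (c (c (c (c (m (nat_lit 0x98d18)) e) e) e) e) e)))) (c (c (c (c (c (c (m (nat_lit 0xf7ed488)) (c (p (nat_lit 0x1784505c)) (c (m (nat_lit 0x1cd5a4)) e))) (c (c (p (nat_lit 0x136948a4)) (c (p (nat_lit 0x133e00)) e)) (c (c (p (nat_lit 0x9723c)) e) e))) (c (c (c (p (nat_lit 0xea50fc4)) (c (m (nat_lit 0x98cc4)) e)) (c (c (m (nat_lit 0x3e7b418)) e) e)) (c (c (c (m (nat_lit 0x3aa6eec)) e) e) e))) (c (c (c (c (p (nat_lit 0xe2cfdac)) (c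 (m (nat_lit 0x2e542fc)) e)) (c (c (m (nat_lit 0xc44cdb4)) e) e)) (c (c (c (m (nat_lit 0x2e6ece4)) e) e) e)) (c (c (c (c (m (nat_lit 0x1c2b4)) e) e) e) e))) (c (c (c (c (c (p (nat_lit 0x150177c0)) (c (m (nat_lit 0x6fe8470)) e)) (c (c (m (nat_lit 0x6eb5dbc)) e) e)) (c (c (c (m (nat_lit 0x99048)) e) e) e)) (c (c (c (c (p (nat_lit 0xd9c668)) e) e) e) e)) (c (c (c (c (c (m (nat_lit 0x9f00f6c)) e) e) e) e) e))) (c (c (c (c (c (c (p (nat_lit 0x13f806c)) (c (m (nat_lit 0x138804)) e)) (c (c (m (nat_lit 0x98ae4)) e) e)) (c (c (c (m (nat_lit 0x138924)) e) e) e)) (c (c (c (c (m (nat_lit 0xfa4064)) e) e) e) e)) (c (c (c (c (c (m (nat_lit 0x98d18)) e) e) e) e) e)) (c (c (c (c (c (c (m (nat_lit 0x1385d0)) e) e) e) e) e) e))))) (c (c (c (c (c (c (c (p (nat_lit 0x3860b1e8)) (c (m (nat_lit 0x1c496a6c)) (c (p (nat_lit 0x303117c)) (c (m (nat_lit 0x4f8444))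 e)))) (c (c (p (nat_lit 0x16a6cdd8)) (c (m (nat_lit 0xa84c980)) (c (m (nat_lit 0x5a99c0)) e))) (c (c (p (nat_lit 0x6bb6230)) (c (m (nat_lit 0x6430e0)) e)) (c (c (m (nat_lit 0x27c5d0)) e) e)))) (c (c (c (p (nat_lit 0x16a6cdd8)) (c (m (nat_lit 0xa84c980)) (c (m (nat_lit 0x5a99c0)) e))) (c (c (m (nat_lit 0x11226378)) (c (m (nat_lit 0x131fb8)) e)) (c (c (p (nat_lit 0x44d6438)) e) e))) (c (c (c (p (nat_lit 0x6bb6230)) (c (m (nat_lit 0x6430e0)) e)) (c (c (p (nat_lit 0x44d6438)) e) e)) (c (c (c (m (nat_lit 0x27c5d0)) e) e) e)))) (c (c (c (c (p (nat_lit 0x4e3d74)) (c (m (nat_lit 0x133e48)) (c (m (nat_lit 0x131bc8)) e))) (c (c (m (nat_lit 0xab12810)) (c (p (nat_lit 0x66763c8)) e)) (c (c (p (nat_lit 0x2be0)) e) e))) (c (c (c (m (nat_lit 0xab12810)) (c (p (nat_lit 0x66763c8)) e)) (c (c (m (nat_lit 0x1324c8)) e) e)) (c (c (c (p (nat_lit 0x2be0))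 e) e) e))) (c (c (c (c (p (nat_lit 0x726f9c)) (c (m (nat_lit 0x130f74)) e)) (c (c (p (nat_lit 0x2118744)) e) e)) (c (c (c (p (nat_lit 0x2118744)) e) e) e)) (c (c (c (c (m (nat_lit 0x257c64)) e) e) e) e)))) (c (c (c (c (c (m (nat_lit 0x7887858)) (c (p (nat_lit 0x5f45d18)) (c (m (nat_lit 0x642f78)) e))) (c (c (m (nat_lit 0x400854c)) (c (m (nat_lit 0xabada0)) e)) (c (c (m (nat_lit 0x902abdc)) e) e))) (c (c (c (p (nat_lit 0x2b05930)) (c (m (nat_lit 0x13836c)) e)) (c (c (m (nat_lit 0x1323e4)) e) e)) (c (c (c (m (nat_lit 0x1d54e8)) e) e) e))) (c (c (c (c (p (nat_lit 0x3dda5dc)) (c (m (nat_lit 0x99354)) e)) (c (c (m (nat_lit 0x9900c)) e) e)) (c (c (c (m (nat_lit 0x9927c)) e) e) e)) (c (c (c (c (m (nat_lit 0x3ddb338)) e) e) e) e))) (c (c (c (c (c (p (nat_lit 0x73e7fd4)) (c (m (nat_lit 0x5a9fcc)) e)) (c (c (m (nat_lit 0x6491b8)) e) e)) (c (c (c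 (p (nat_lit 0x357dff8)) e) e) e)) (c (c (c (c (m (nat_lit 0x9945c)) e) e) e) e)) (c (c (c (c (c (m (nat_lit 0x27caa4)) e) e) e) e) e)))) (c (c (c (c (c (c (m (nat_lit 0x7887858)) (c (p (nat_lit 0x5f45d18)) (c (m (nat_lit 0x642f78)) e))) (c (c (p (nat_lit 0x2b05930)) (c (m (nat_lit 0x13836c)) e)) (c (c (m (nat_lit 0x1d54e8)) e) e))) (c (c (c (m (nat_lit 0x400854c)) (c (m (nat_lit 0xabada0)) e)) (c (c (m (nat_lit 0x1323e4)) e) e)) (c (c (c (m (nat_lit 0x902abdc)) e) e) e))) (c (c (c (c (p (nat_lit 0x3dda5dc)) (c (m (nat_lit 0x99354)) e)) (c (c (m (nat_lit 0x9927c)) e) e)) (c (c (c (m (nat_lit 0x9900c)) e) e) e)) (c (c (c (c (m (nat_lit 0x3ddb338)) e) e) e) e))) (c (c (c (c (c (p (nat_lit 0x159ce9e8)) (c (m (nat_lit 0x131a0c)) e)) (c (c (m (nat_lit 0x13845c)) e) e)) (c (c (c (m (nat_lit 0x13845c)) e) e) e)) (c (c (c (c (m (nat_lit 0x133038))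 e) e) e) e)) (c (c (c (c (c (m (nat_lit 0x9918c)) e) e) e) e) e))) (c (c (c (c (c (c (p (nat_lit 0x73e7fd4)) (c (m (nat_lit 0x5a9fcc)) e)) (c (c (p (nat_lit 0x357dff8)) e) e)) (c (c (c (m (nat_lit 0x6491b8)) e) e) e)) (c (c (c (c (m (nat_lit 0x9945c)) e) e) e) e)) (c (c (c (c (c (m (nat_lit 0x9918c)) e) e) e) e) e)) (c (c (c (c (c (c (m (nat_lit 0x27caa4)) e) e) e) e) e) e)))) (c (c (c (c (c (c (c (m (nat_lit 0x3276fd14)) (c (p (nat_lit 0x1903668c)) (c (m (nat_lit 0x703e480)) e))) (c (c (p (nat_lit 0x631c8fc)) (c (m (nat_lit 0x971c4)) e)) (c (c (m (nat_lit 0x1326f0)) e) e))) (c (c (c (p (nat_lit 0x631c8fc)) (c (m (nat_lit 0x971c4)) e)) (c (c (m (nat_lit 0x12ef4a8)) e) e)) (c (c (c (m (nat_lit 0x1326f0)) e) e) e))) (c (c (c (c (p (nat_lit 0xf9e1378)) (c (m (nat_lit 0x1dd39c0)) e)) (c (c (m (nat_lit 0x6ae2ea4)) e) e)) (c (c (c (m (nat_lit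 0x6ae2ea4)) e) e) e)) (c (c (c (c (m (nat_lit 0x270a44)) e) e) e) e))) (c (c (c (c (c (p (nat_lit 0x27f95484)) (c (m (nat_lit 0x9b45454)) e)) (c (c (m (nat_lit 0x132024)) e) e)) (c (c (c (m (nat_lit 0x9b461c8)) e) e) e)) (c (c (c (c (m (nat_lit 0x13a4)) e) e) e) e)) (c (c (c (c (c (m (nat_lit 0x9355914)) e) e) e) e) e))) (c (c (c (c (c (c (p (nat_lit 0x27f95484)) (c (m (nat_lit 0x9b45454)) e)) (c (c (m (nat_lit 0x9b461c8)) e) e)) (c (c (c (m (nat_lit 0x132024)) e) e) e)) (c (c (c (c (m (nat_lit 0x13a4)) e) e) e) e)) (c (c (c (c (c (m (nat_lit 0x137bd0d0)) e) e) e) e) e)) (c (c (c (c (c (c (m (nat_lit 0x9355914)) e) e) e) e) e) e))) (c (c (c (c (c (c (c (p (nat_lit 0x72ebf8)) (c (m (nat_lit 0x131dcc)) e)) (c (c (p (nat_lit 0xe1c)) e) e)) (c (c (c (p (nat_lit 0xe1c)) e) e) e)) (c (c (c (c (m (nat_lit 0x131e44)) e) e) e) e)) (c (c (c (c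 (c (m (nat_lit 0x131ef8)) e) e) e) e) e)) (c (c (c (c (c (c (m (nat_lit 0x131ef8)) e) e) e) e) e) e)) (c (c (c (c (c (c (c (m (nat_lit 0x2645a0)) e) e) e) e) e) e) e))))) (c (c (c (c (c (c (c (c (m (nat_lit 0x30c80f10)) (c (m (nat_lit 0x890cfb8)) (c (m (nat_lit 0x49901208)) (c (p (nat_lit 0xcccb9a0)) e)))) (c (c (m (nat_lit 0xb1cb31c)) (c (p (nat_lit 0x1e31f998)) (c (p (nat_lit 0x67e4668)) e))) (c (c (p (nat_lit 0x138700f8)) (c (m (nat_lit 0x4cb1290)) e)) (c (c (m (nat_lit 0x2785ba8)) e) e)))) (c (c (c (m (nat_lit 0xb1cb31c)) (c (p (nat_lit 0x1e31f998)) (c (p (nat_lit 0x67e4668)) e))) (c (c (p (nat_lit 0x76abcc8)) (c (m (nat_lit 0x263c88)) e)) (c (c (m (nat_lit 0x15c9804)) e) e))) (c (c (c (p (nat_lit 0x138700f8)) (c (m (nat_lit 0x4cb1290)) e)) (c (c (m (nat_lit 0x15c9804)) e) e)) (c (c (c (m (nat_lit 0x2785ba8)) e) e) e)))) (c (c (c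 (c (p (nat_lit 0x408c20a0)) (c (m (nat_lit 0x33eda0c8)) (c (p (nat_lit 0x9108a68)) e))) (c (c (m (nat_lit 0x1035bec8)) (c (p (nat_lit 0x14c7111c)) e)) (c (c (m (nat_lit 0x132054)) e) e))) (c (c (c (m (nat_lit 0x1035bec8)) (c (p (nat_lit 0x14c7111c)) e)) (c (c (p (nat_lit 0x1b78)) e) e)) (c (c (c (m (nat_lit 0x132054)) e) e) e))) (c (c (c (c (p (nat_lit 0x332e740)) (c (p (nat_lit 0xcc0)) e)) (c (c (m (nat_lit 0x17c93ac)) e) e)) (c (c (c (m (nat_lit 0x17c93ac)) e) e) e)) (c (c (c (c (m (nat_lit 0x263a30)) e) e) e) e)))) (c (c (c (c (c (m (nat_lit 0x9a7c358)) (c (p (nat_lit 0x132a179c)) (c (p (nat_lit 0x7eb4858)) e))) (c (c (p (nat_lit 0x58fff98)) (c (p (nat_lit 0x16ced44)) e)) (c (c (m (nat_lit 0x4ca6160)) e) e))) (c (c (c (p (nat_lit 0x28424c40)) (c (m (nat_lit 0x93ec994)) e)) (c (c (m (nat_lit 0x26508c)) e) e)) (c (c (c (m (nat_lit 0x8832c9c))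 e) e) e))) (c (c (c (c (m (nat_lit 0x534a0d4)) (c (p (nat_lit 0x4883f40)) e)) (c (c (m (nat_lit 0x1cc524)) e) e)) (c (c (c (m (nat_lit 0x99b28)) e) e) e)) (c (c (c (c (p (nat_lit 0x5ac)) e) e) e) e))) (c (c (c (c (c (p (nat_lit 0x50bc2fc)) (c (m (nat_lit 0x101cc850)) e)) (c (c (m (nat_lit 0x99660)) e) e)) (c (c (c (m (nat_lit 0xb074434)) e) e) e)) (c (c (c (c (m (nat_lit 0x99054)) e) e) e) e)) (c (c (c (c (c (m (nat_lit 0x131a90)) e) e) e) e) e)))) (c (c (c (c (c (c (m (nat_lit 0x9a7c358)) (c (p (nat_lit 0x132a179c)) (c (p (nat_lit 0x7eb4858)) e))) (c (c (p (nat_lit 0x28424c40)) (c (m (nat_lit 0x93ec994)) e)) (c (c (m (nat_lit 0x8832c9c)) e) e))) (c (c (c (p (nat_lit 0x58fff98)) (c (p (nat_lit 0x16ced44)) e)) (c (c (m (nat_lit 0x26508c)) e) e)) (c (c (c (m (nat_lit 0x4ca6160)) e) e) e))) (c (c (c (c (m (nat_lit 0x534a0d4)) (c (p (nat_lit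 0x4883f40)) e)) (c (c (m (nat_lit 0x99b28)) e) e)) (c (c (c (m (nat_lit 0x1cc524)) e) e) e)) (c (c (c (c (p (nat_lit 0x5ac)) e) e) e) e))) (c (c (c (c (c (p (nat_lit 0x5f1b6460)) (c (m (nat_lit 0x264df8)) e)) (c (c (m (nat_lit 0x86f5ea8)) e) e)) (c (c (c (m (nat_lit 0x86f5ea8)) e) e) e)) (c (c (c (c (m (nat_lit 0x131dc0)) e) e) e) e)) (c (c (c (c (c (m (nat_lit 0x119ccfdc)) e) e) e) e) e))) (c (c (c (c (c (c (p (nat_lit 0x50bc2fc)) (c (m (nat_lit 0x101cc850)) e)) (c (c (m (nat_lit 0xb074434)) e) e)) (c (c (c (m (nat_lit 0x99660)) e) e) e)) (c (c (c (c (m (nat_lit 0x99054)) e) e) e) e)) (c (c (c (c (c (m (nat_lit 0x119ccfdc)) e) e) e) e) e)) (c (c (c (c (c (c (m (nat_lit 0x131a90)) e) e) e) e) e) e)))) (c (c (c (c (c (c (c (p (nat_lit 0x2e7af6c0)) (c (p (nat_lit 0xa4ed1d8)) (c (m (nat_lit 0x2694a8)) e))) (c (c (m (nat_lit 0x15d2b814))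 (c (m (nat_lit 0xacae9ec)) e)) (c (c (m (nat_lit 0x98f04)) e) e))) (c (c (c (m (nat_lit 0x15d2b814)) (c (m (nat_lit 0xacae9ec)) e)) (c (c (m (nat_lit 0x39db60)) e) e)) (c (c (c (m (nat_lit 0x98f04)) e) e) e))) (c (c (c (c (m (nat_lit 0x12ff7ba8)) (c (m (nat_lit 0x132738)) e)) (c (c (m (nat_lit 0x99168)) e) e)) (c (c (c (m (nat_lit 0x99168)) e) e) e)) (c (c (c (c (m (nat_lit 0x26a768)) e) e) e) e))) (c (c (c (c (c (m (nat_lit 0x33957e28)) (c (m (nat_lit 0x137b2c)) e)) (c (c (m (nat_lit 0x468)) e) e)) (c (c (c (m (nat_lit 0x1d1b7c)) e) e) e)) (c (c (c (c (m (nat_lit 0x99054)) e) e) e) e)) (c (c (c (c (c (m (nat_lit 0x990b4)) e) e) e) e) e))) (c (c (c (c (c (c (m (nat_lit 0x33957e28)) (c (m (nat_lit 0x137b2c)) e)) (c (c (m (nat_lit 0x1d1b7c)) e) e)) (c (c (c (m (nat_lit 0x468)) e) e) e)) (c (c (c (c (m (nat_lit 0x99054)) e) e) e) e)) (c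 (c (c (c (c (m (nat_lit 0x19fc4b8)) e) e) e) e) e)) (c (c (c (c (c (c (m (nat_lit 0x990b4)) e) e) e) e) e) e))) (c (c (c (c (c (c (c (m (nat_lit 0x5ed57d0)) (c (p (nat_lit 0x1ba22178)) e)) (c (c (p (nat_lit 0x4069e0c)) e) e)) (c (c (c (p (nat_lit 0x4069e0c)) e) e) e)) (c (c (c (c (m (nat_lit 0x639660)) e) e) e) e)) (c (c (c (c (c (m (nat_lit 0x25f5720)) e) e) e) e) e)) (c (c (c (c (c (c (m (nat_lit 0x25f5720)) e) e) e) e) e) e)) (c (c (c (c (c (c (c (p (nat_lit 0x2618b8)) e) e) e) e) e) e) e)))) (c (c (c (c (c (c (c (c (p (nat_lit 0xa04b6f80)) (c (p (nat_lit 0x483919c8)) (c (m (nat_lit 0x263340)) e))) (c (c (p (nat_lit 0xe484c48)) (c (m (nat_lit 0x3514530)) e)) (c (c (m (nat_lit 0x2908962c)) e) e))) (c (c (c (p (nat_lit 0xe484c48)) (c (m (nat_lit 0x3514530)) e)) (c (c (m (nat_lit 0x370e3d8)) e) e)) (c (c (c (m (nat_lit 0x2908962c)) e)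 e) e))) (c (c (c (c (p (nat_lit 0xb83f578)) (c (m (nat_lit 0x1032af98)) e)) (c (c (m (nat_lit 0x133650)) e) e)) (c (c (c (m (nat_lit 0x133650)) e) e) e)) (c (c (c (c (m (nat_lit 0x2994768)) e) e) e) e))) (c (c (c (c (c (m (nat_lit 0x2895b8f8)) (c (m (nat_lit 0xd0a9508)) e)) (c (c (p (nat_lit 0x642447c)) e) e)) (c (c (c (m (nat_lit 0x1cb8e8)) e) e) e)) (c (c (c (c (p (nat_lit 0x2958804)) e) e) e) e)) (c (c (c (c (c (p (nat_lit 0x642468c)) e) e) e) e) e))) (c (c (c (c (c (c (m (nat_lit 0x2895b8f8)) (c (m (nat_lit 0xd0a9508)) e)) (c (c (m (nat_lit 0x1cb8e8)) e) e)) (c (c (c (p (nat_lit 0x642447c)) e) e) e)) (c (c (c (c (p (nat_lit 0x2958804)) e) e) e) e)) (c (c (c (c (c (m (nat_lit 0x2777280)) e) e) e) e) e)) (c (c (c (c (c (c (p (nat_lit 0x642468c)) e) e) e) e) e) e))) (c (c (c (c (c (c (c (m (nat_lit 0x1eb48010)) (c (m (nat_lit 0x1a286e28))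 e)) (c (c (p (nat_lit 0xaa5b174)) e) e)) (c (c (c (p (nat_lit 0xaa5b174)) e) e) e)) (c (c (c (c (m (nat_lit 0x8cceab8)) e) e) e) e)) (c (c (c (c (c (p (nat_lit 0x19712748)) e) e) e) e) e)) (c (c (c (c (c (c (p (nat_lit 0x19712748)) e) e) e) e) e) e)) (c (c (c (c (c (c (c (m (nat_lit 0x241ed110)) e) e) e) e) e) e) e))) (c (c (c (c (c (c (c (c (m (nat_lit 0xcba27d8)) (c (m (nat_lit 0x10347330)) e)) (c (c (p (nat_lit 0xa9bd8e4)) e) e)) (c (c (c (p (nat_lit 0xa9bd8e4)) e) e) e)) (c (c (c (c (p (nat_lit 0x9e6d348)) e) e) e) e)) (c (c (c (c (c (m (nat_lit 0x2f343e4)) e) e) e) e) e)) (c (c (c (c (c (c (m (nat_lit 0x2f343e4)) e) e) e) e) e) e)) (c (c (c (c (c (c (c (p (nat_lit 0x1050a2f0)) e) e) e) e) e) e) e)) (c (c (c (c (c (c (c (c (m (nat_lit 0xab35370)) e) e) e) e) e) e) e) e))))) (c (c (c (c (c (c (c (c (c (p (nat_lit 0x328a5fc8)) (c (p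 (nat_lit 0x4e72e808)) (c (m (nat_lit 0x98c4888)) (c (m (nat_lit 0x26445c)) e)))) (c (c (p (nat_lit 0xea5c400)) (c (m (nat_lit 0x78a9ec)) (c (m (nat_lit 0x34f7148)) e))) (c (c (m (nat_lit 0x6e268c0)) (c (m (nat_lit 0x991e0)) e)) (c (c (p (nat_lit 0x23ee564)) e) e)))) (c (c (c (p (nat_lit 0x1d53b8c4)) (c (m (nat_lit 0x12c211e0)) (c (p (nat_lit 0xa11cc)) e))) (c (c (p (nat_lit 0xdf61ebc)) (c (m (nat_lit 0x6a880dc)) e)) (c (c (m (nat_lit 0x99090)) e) e))) (c (c (c (m (nat_lit 0x57af4f4)) (c (p (nat_lit 0x1f8)) e)) (c (c (m (nat_lit 0x3590664)) e) e)) (c (c (c (p (nat_lit 0x2487654)) e) e) e)))) (c (c (c (c (m (nat_lit 0xc0831c)) (c (m (nat_lit 0x8af3024)) (c (m (nat_lit 0x9900c)) e))) (c (c (p (nat_lit 0x9a9e714)) (c (p (nat_lit 0x21c)) e)) (c (c (m (nat_lit 0x1322dc)) e) e))) (c (c (c (m (nat_lit 0x12a50030)) (c (m (nat_lit 0x98f7c)) e))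 (c (c (p (nat_lit 0x1ce3c0)) e) e)) (c (c (c (m (nat_lit 0x132198)) e) e) e))) (c (c (c (c (m (nat_lit 0x6a8759c)) (c (p (nat_lit 0x6d8a8a8)) e)) (c (c (p (nat_lit 0x3834)) e) e)) (c (c (c (p (nat_lit 0x6d8d4c4)) e) e) e)) (c (c (c (c (m (nat_lit 0x9ef70)) e) e) e) e)))) (c (c (c (c (c (p (nat_lit 0x25a24eb0)) (c (m (nat_lit 0xfa4e8f0)) (c (p (nat_lit 0x99390)) e))) (c (c (m (nat_lit 0xbfb0ed8)) (c (p (nat_lit 0x5ac)) e)) (c (c (m (nat_lit 0x994a4)) e) e))) (c (c (c (m (nat_lit 0x10cb4710)) (c (m (nat_lit 0x2dfb9f4)) e)) (c (c (m (nat_lit 0x99324)) e) e)) (c (c (c (m (nat_lit 0x992f4)) e) e) e))) (c (c (c (c (m (nat_lit 0x1a9965a4)) (c (p (nat_lit 0x4b0471c)) e)) (c (c (m (nat_lit 0x1cc4e8)) e) e)) (c (c (c (p (nat_lit 0x4b9ce94)) e) e) e)) (c (c (c (c (m (nat_lit 0x132e4c)) e) e) e) e))) (c (c (c (c (c (m (nat_lit 0x9968cf4)) (c (m (nat_lit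 0x98d24)) e)) (c (c (m (nat_lit 0x996a8)) e) e)) (c (c (c (p (nat_lit 0x68bfb48)) e) e) e)) (c (c (c (c (m (nat_lit 0x99060)) e) e) e) e)) (c (c (c (c (c (m (nat_lit 0x98ec8)) e) e) e) e) e)))) (c (c (c (c (c (c (p (nat_lit 0xee17bc4)) (c (p (nat_lit 0xa0ccb54)) (c (p (nat_lit 0xaec)) e))) (c (c (m (nat_lit 0x1ed6860)) (c (m (nat_lit 0xb955270)) e)) (c (c (p (nat_lit 0x924)) e) e))) (c (c (c (p (nat_lit 0x2999742c)) (c (m (nat_lit 0x98cd0)) e)) (c (c (m (nat_lit 0xaec2b80)) e) e)) (c (c (c (p (nat_lit 0x114)) e) e) e))) (c (c (c (c (m (nat_lit 0x1500a0ec)) (c (m (nat_lit 0x132a5c)) e)) (c (c (m (nat_lit 0x9951c)) e) e)) (c (c (c (m (nat_lit 0x11853888)) e) e) e)) (c (c (c (c (p (nat_lit 0x6cf0f00)) e) e) e) e))) (c (c (c (c (c (m (nat_lit 0x5504f04)) (c (p (nat_lit 0x774dfec)) e)) (c (c (p (nat_lit 0x77e72e0)) e) e)) (c (c (c (m (nat_lit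 0x2a0)) e) e) e)) (c (c (c (c (p (nat_lit 0x4c36314)) e) e) e) e)) (c (c (c (c (c (p (nat_lit 0x76b4f14)) e) e) e) e) e))) (c (c (c (c (c (c (p (nat_lit 0x1296c1bc)) (c (p (nat_lit 0x12d8)) e)) (c (c (m (nat_lit 0xfd8684)) e) e)) (c (c (c (m (nat_lit 0x99240)) e) e) e)) (c (c (c (c (m (nat_lit 0x98fdc)) e) e) e) e)) (c (c (c (c (c (p (nat_lit 0xcd8)) e) e) e) e) e)) (c (c (c (c (c (c (m (nat_lit 0x99174)) e) e) e) e) e) e)))) (c (c (c (c (c (c (c (p (nat_lit 0x2a567dc8)) (c (m (nat_lit 0x2652cfcc)) (c (p (nat_lit 0x23e5cf0)) e))) (c (c (m (nat_lit 0x16c5a6b0)) (c (p (nat_lit 0x88b46b0)) e)) (c (c (p (nat_lit 0x2517978)) e) e))) (c (c (c (m (nat_lit 0x18279e28)) (c (p (nat_lit 0x42fea30)) e)) (c (c (p (nat_lit 0x3dec480)) e) e)) (c (c (c (p (nat_lit 0x42feb68)) e) e) e))) (c (c (c (c (p (nat_lit 0x137430)) (c (m (nat_lit 0x98ec8)) e))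 (c (c (m (nat_lit 0x137100)) e) e)) (c (c (c (m (nat_lit 0x9900c)) e) e) e)) (c (c (c (c (m (nat_lit 0x98f04)) e) e) e) e))) (c (c (c (c (c (m (nat_lit 0x12d3bbe8)) (c (p (nat_lit 0x4a2f1dc)) e)) (c (c (p (nat_lit 0x4a2ee58)) e) e)) (c (c (c (p (nat_lit 0x786b64)) e) e) e)) (c (c (c (c (m (nat_lit 0x98f10)) e) e) e) e)) (c (c (c (c (c (p (nat_lit 0x23e5768)) e) e) e) e) e))) (c (c (c (c (c (c (m (nat_lit 0x131f63d0)) (c (m (nat_lit 0x98f64)) e)) (c (c (p (nat_lit 0x3dec378)) e) e)) (c (c (c (p (nat_lit 0x42fe670)) e) e) e)) (c (c (c (c (m (nat_lit 0x13212c)) e) e) e) e)) (c (c (c (c (c (m (nat_lit 0x195bc58)) e) e) e) e) e)) (c (c (c (c (c (c (m (nat_lit 0x1321ec)) e) e) e) e) e) e))) (c (c (c (c (c (c (c (m (nat_lit 0x3509f4c)) (c (p (nat_lit 0x82a11e0)) e)) (c (c (p (nat_lit 0x410406c)) e) e)) (c (c (c (p (nat_lit 0x419fbec)) e) e)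 e)) (c (c (c (c (m (nat_lit 0x990d8)) e) e) e) e)) (c (c (c (c (c (p (nat_lit 0x1c9d6dc)) e) e) e) e) e)) (c (c (c (c (c (c (p (nat_lit 0x1c03800)) e) e) e) e) e) e)) (c (c (c (c (c (c (c (m (nat_lit 0x98f4c)) e) e) e) e) e) e) e)))) (c (c (c (c (c (c (c (c (p (nat_lit 0x4e1afbc8)) (c (p (nat_lit 0xea62e68)) (c (p (nat_lit 0xb6672dc)) e))) (c (c (m (nat_lit 0x1443b460)) (c (m (nat_lit 0xbd8a750)) e)) (c (c (m (nat_lit 0x98eb0)) e) e))) (c (c (c (m (nat_lit 0x1068e1fc)) (c (m (nat_lit 0x8147b38)) e)) (c (c (m (nat_lit 0x6fc08a0)) e) e)) (c (c (c (m (nat_lit 0x98dfc)) e) e) e))) (c (c (c (c (m (nat_lit 0x16a21688)) (c (p (nat_lit 0x512fe20)) e)) (c (c (m (nat_lit 0x35a96f0)) e) e)) (c (c (c (m (nat_lit 0x99528)) e) e) e)) (c (c (c (c (m (nat_lit 0x993e4)) e) e) e) e))) (c (c (c (c (c (m (nat_lit 0x202cf458)) (c (m (nat_lit 0x14667744))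 e)) (c (c (m (nat_lit 0x1cba2c)) e) e)) (c (c (c (m (nat_lit 0x1234674)) e) e) e)) (c (c (c (c (p (nat_lit 0x2957a0c)) e) e) e) e)) (c (c (c (c (c (m (nat_lit 0x1caf88)) e) e) e) e) e))) (c (c (c (c (c (c (m (nat_lit 0xf433020)) (c (m (nat_lit 0x12641094)) e)) (c (c (m (nat_lit 0x1cb7e0)) e) e)) (c (c (c (m (nat_lit 0x117e7534)) e) e) e)) (c (c (c (c (p (nat_lit 0x2958744)) e) e) e) e)) (c (c (c (c (c (m (nat_lit 0x578a4a4)) e) e) e) e) e)) (c (c (c (c (c (c (m (nat_lit 0xafa25d8)) e) e) e) e) e) e))) (c (c (c (c (c (c (c (m (nat_lit 0x5c72e2f0)) (c (p (nat_lit 0x30cdc38)) e)) (c (c (p (nat_lit 0xdb2a4f8)) e) e)) (c (c (c (p (nat_lit 0xaaf42d0)) e) e) e)) (c (c (c (c (p (nat_lit 0x132ce364)) e) e) e) e)) (c (c (c (c (c (p (nat_lit 0xd2724a4)) e) e) e) e) e)) (c (c (c (c (c (c (p (nat_lit 0xa2d4e5c)) e) e) e) e) e) e)) (c (c (c (c (c (c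 (c (p (nat_lit 0x1652ca0)) e) e) e) e) e) e) e))) (c (c (c (c (c (c (c (c (m (nat_lit 0x306b65f8)) (c (m (nat_lit 0xa721274)) e)) (c (c (p (nat_lit 0xa9bd410)) e) e)) (c (c (c (p (nat_lit 0xa888d4c)) e) e) e)) (c (c (c (c (p (nat_lit 0x7f7ef98)) e) e) e) e)) (c (c (c (c (c (p (nat_lit 0x6d5ab9c)) e) e) e) e) e)) (c (c (c (c (c (c (p (nat_lit 0x6cc13ec)) e) e) e) e) e) e)) (c (c (c (c (c (c (c (p (nat_lit 0x12bdd014)) e) e) e) e) e) e) e)) (c (c (c (c (c (c (c (c (m (nat_lit 0xabd10b8)) e) e) e) e) e) e) e) e)))) (c (c (c (c (c (c (c (c (c (m (nat_lit 0x632466f0)) (c (m (nat_lit 0x18cba474)) (c (m (nat_lit 0x72e310)) e))) (c (c (m (nat_lit 0x344e158)) (c (m (nat_lit 0x131ca0)) e)) (c (c (m (nat_lit 0x99144)) e) e))) (c (c (c (m (nat_lit 0x23a8274)) (c (p (nat_lit 0x68754e4)) e)) (c (c (m (nat_lit 0x39e4468)) e) e)) (c (c (c (m (nat_lit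 0x990d8)) e) e) e))) (c (c (c (c (p (nat_lit 0xcc863e8)) (c (m (nat_lit 0x4f12c8c)) e)) (c (c (m (nat_lit 0x6874a04)) e) e)) (c (c (c (m (nat_lit 0x1cb930)) e) e) e)) (c (c (c (c (m (nat_lit 0x99750)) e) e) e) e))) (c (c (c (c (c (m (nat_lit 0x622665c)) (c (m (nat_lit 0x263b20)) e)) (c (c (m (nat_lit 0x1320c0)) e) e)) (c (c (c (m (nat_lit 0x1324b0)) e) e) e)) (c (c (c (c (p (nat_lit 0x99b6e74)) e) e) e) e)) (c (c (c (c (c (m (nat_lit 0x1cae74)) e) e) e) e) e))) (c (c (c (c (c (c (m (nat_lit 0x1a60fa0)) (c (m (nat_lit 0x1cae68)) e)) (c (c (m (nat_lit 0x131f28)) e) e)) (c (c (c (m (nat_lit 0x131ed4)) e) e) e)) (c (c (c (c (m (nat_lit 0x975cc)) e) e) e) e)) (c (c (c (c (c (m (nat_lit 0x2340eac)) e) e) e) e) e)) (c (c (c (c (c (c (m (nat_lit 0x131e38)) e) e) e) e) e) e))) (c (c (c (c (c (c (c (p (nat_lit 0x24f0a98)) (c (p (nat_lit 0x3167c94))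 e)) (c (c (p (nat_lit 0x3036114)) e) e)) (c (c (c (p (nat_lit 0x99690)) e) e) e)) (c (c (c (c (m (nat_lit 0xd8)) e) e) e) e)) (c (c (c (c (c (p (nat_lit 0x3036438)) e) e) e) e) e)) (c (c (c (c (c (c (m (nat_lit 0x1333c8)) e) e) e) e) e) e)) (c (c (c (c (c (c (c (m (nat_lit 0x1cb480)) e) e) e) e) e) e) e))) (c (c (c (c (c (c (c (c (p (nat_lit 0x3285e19c)) (c (p (nat_lit 0x9675018)) e)) (c (c (p (nat_lit 0x28bd998)) e) e)) (c (c (c (p (nat_lit 0x105e208)) e) e) e)) (c (c (c (c (m (nat_lit 0x3dd3670)) e) e) e) e)) (c (c (c (c (c (p (nat_lit 0x17e2c0c)) e) e) e) e) e)) (c (c (c (c (c (c (p (nat_lit 0x1cad0)) e) e) e) e) e) e)) (c (c (c (c (c (c (c (m (nat_lit 0x548bdf4)) e) e) e) e) e) e) e)) (c (c (c (c (c (c (c (c (m (nat_lit 0x1cd8f8)) e) e) e) e) e) e) e) e))) (c (c (c (c (c (c (c (c (c (p (nat_lit 0x50bd4660)) (c (p (nat_lit 0x3a4e5b4))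 e)) (c (c (p (nat_lit 0x28bd950)) e) e)) (c (c (c (p (nat_lit 0x10f77e4)) e) e) e)) (c (c (c (c (m (nat_lit 0x1f8318c)) e) e) e) e)) (c (c (c (c (c (p (nat_lit 0x2286780)) e) e) e) e) e)) (c (c (c (c (c (c (p (nat_lit 0xac0d28)) e) e) e) e) e) e)) (c (c (c (c (c (c (c (m (nat_lit 0x131cc4)) e) e) e) e) e) e) e)) (c (c (c (c (c (c (c (c (m (nat_lit 0x19dcba70)) e) e) e) e) e) e) e) e)) (c (c (c (c (c (c (c (c (c (m (nat_lit 0x1345e060)) e) e) e) e) e) e) e) e) e))))) (c (c (c (c (c (c (c (c (c (c (p (nat_lit 0x328a5fc8)) (c (p (nat_lit 0x4e72e808)) (c (m (nat_lit 0x98c4888)) (c (m (nat_lit 0x26445c)) e)))) (c (c (p (nat_lit 0x1d53b8c4)) (c (m (nat_lit 0x12c211e0)) (c (p (nat_lit 0xa11cc)) e))) (c (c (m (nat_lit 0x57af4f4)) (c (p (nat_lit 0x1f8)) e)) (c (c (p (nat_lit 0x2487654)) e) e)))) (c (c (c (p (nat_lit 0xea5c400)) (c (m (nat_lit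 0x78a9ec)) (c (m (nat_lit 0x34f7148)) e))) (c (c (p (nat_lit 0xdf61ebc)) (c (m (nat_lit 0x6a880dc)) e)) (c (c (m (nat_lit 0x3590664)) e) e))) (c (c (c (m (nat_lit 0x6e268c0)) (c (m (nat_lit 0x991e0)) e)) (c (c (m (nat_lit 0x99090)) e) e)) (c (c (c (p (nat_lit 0x23ee564)) e) e) e)))) (c (c (c (c (m (nat_lit 0xc0831c)) (c (m (nat_lit 0x8af3024)) (c (m (nat_lit 0x9900c)) e))) (c (c (m (nat_lit 0x12a50030)) (c (m (nat_lit 0x98f7c)) e)) (c (c (m (nat_lit 0x132198)) e) e))) (c (c (c (p (nat_lit 0x9a9e714)) (c (p (nat_lit 0x21c)) e)) (c (c (p (nat_lit 0x1ce3c0)) e) e)) (c (c (c (m (nat_lit 0x1322dc)) e) e) e))) (c (c (c (c (m (nat_lit 0x6a8759c)) (c (p (nat_lit 0x6d8a8a8)) e)) (c (c (p (nat_lit 0x6d8d4c4)) e) e)) (c (c (c (p (nat_lit 0x3834)) e) e) e)) (c (c (c (c (m (nat_lit 0x9ef70)) e) e) e) e)))) (c (c (c (c (c (p (nat_lit 0xee17bc4)) (c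 (p (nat_lit 0xa0ccb54)) (c (p (nat_lit 0xaec)) e))) (c (c (p (nat_lit 0x2999742c)) (c (m (nat_lit 0x98cd0)) e)) (c (c (p (nat_lit 0x114)) e) e))) (c (c (c (m (nat_lit 0x1ed6860)) (c (m (nat_lit 0xb955270)) e)) (c (c (m (nat_lit 0xaec2b80)) e) e)) (c (c (c (p (nat_lit 0x924)) e) e) e))) (c (c (c (c (m (nat_lit 0x1500a0ec)) (c (m (nat_lit 0x132a5c)) e)) (c (c (m (nat_lit 0x11853888)) e) e)) (c (c (c (m (nat_lit 0x9951c)) e) e) e)) (c (c (c (c (p (nat_lit 0x6cf0f00)) e) e) e) e))) (c (c (c (c (c (p (nat_lit 0x1296c1bc)) (c (p (nat_lit 0x12d8)) e)) (c (c (m (nat_lit 0x99240)) e) e)) (c (c (c (m (nat_lit 0xfd8684)) e) e) e)) (c (c (c (c (m (nat_lit 0x98fdc)) e) e) e) e)) (c (c (c (c (c (m (nat_lit 0x99174)) e) e) e) e) e)))) (c (c (c (c (c (c (p (nat_lit 0x25a24eb0)) (c (m (nat_lit 0xfa4e8f0)) (c (p (nat_lit 0x99390)) e))) (c (c (m (nat_lit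 0x10cb4710)) (c (m (nat_lit 0x2dfb9f4)) e)) (c (c (m (nat_lit 0x992f4)) e) e))) (c (c (c (m (nat_lit 0xbfb0ed8)) (c (p (nat_lit 0x5ac)) e)) (c (c (m (nat_lit 0x99324)) e) e)) (c (c (c (m (nat_lit 0x994a4)) e) e) e))) (c (c (c (c (m (nat_lit 0x1a9965a4)) (c (p (nat_lit 0x4b0471c)) e)) (c (c (p (nat_lit 0x4b9ce94)) e) e)) (c (c (c (m (nat_lit 0x1cc4e8)) e) e) e)) (c (c (c (c (m (nat_lit 0x132e4c)) e) e) e) e))) (c (c (c (c (c (m (nat_lit 0x5504f04)) (c (p (nat_lit 0x774dfec)) e)) (c (c (m (nat_lit 0x2a0)) e) e)) (c (c (c (p (nat_lit 0x77e72e0)) e) e) e)) (c (c (c (c (p (nat_lit 0x4c36314)) e) e) e) e)) (c (c (c (c (c (p (nat_lit 0xcd8)) e) e) e) e) e))) (c (c (c (c (c (c (m (nat_lit 0x9968cf4)) (c (m (nat_lit 0x98d24)) e)) (c (c (p (nat_lit 0x68bfb48)) e) e)) (c (c (c (m (nat_lit 0x996a8)) e) e) e)) (c (c (c (c (m (nat_lit 0x99060)) e)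 e) e) e)) (c (c (c (c (c (p (nat_lit 0x76b4f14)) e) e) e) e) e)) (c (c (c (c (c (c (m (nat_lit 0x98ec8)) e) e) e) e) e) e)))) (c (c (c (c (c (c (c (p (nat_lit 0x2a567dc8)) (c (m (nat_lit 0x2652cfcc)) (c (p (nat_lit 0x23e5cf0)) e))) (c (c (m (nat_lit 0x18279e28)) (c (p (nat_lit 0x42fea30)) e)) (c (c (p (nat_lit 0x42feb68)) e) e))) (c (c (c (m (nat_lit 0x16c5a6b0)) (c (p (nat_lit 0x88b46b0)) e)) (c (c (p (nat_lit 0x3dec480)) e) e)) (c (c (c (p (nat_lit 0x2517978)) e) e) e))) (c (c (c (c (p (nat_lit 0x137430)) (c (m (nat_lit 0x98ec8)) e)) (c (c (m (nat_lit 0x9900c)) e) e)) (c (c (c (m (nat_lit 0x137100)) e) e) e)) (c (c (c (c (m (nat_lit 0x98f04)) e) e) e) e))) (c (c (c (c (c (m (nat_lit 0x131f63d0)) (c (m (nat_lit 0x98f64)) e)) (c (c (p (nat_lit 0x42fe670)) e) e)) (c (c (c (p (nat_lit 0x3dec378)) e) e) e)) (c (c (c (c (m (nat_lit 0x13212c))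 e) e) e) e)) (c (c (c (c (c (m (nat_lit 0x1321ec)) e) e) e) e) e))) (c (c (c (c (c (c (m (nat_lit 0x12d3bbe8)) (c (p (nat_lit 0x4a2f1dc)) e)) (c (c (p (nat_lit 0x786b64)) e) e)) (c (c (c (p (nat_lit 0x4a2ee58)) e) e) e)) (c (c (c (c (m (nat_lit 0x98f10)) e) e) e) e)) (c (c (c (c (c (m (nat_lit 0x195bc58)) e) e) e) e) e)) (c (c (c (c (c (c (p (nat_lit 0x23e5768)) e) e) e) e) e) e))) (c (c (c (c (c (c (c (m (nat_lit 0x3509f4c)) (c (p (nat_lit 0x82a11e0)) e)) (c (c (p (nat_lit 0x419fbec)) e) e)) (c (c (c (p (nat_lit 0x410406c)) e) e) e)) (c (c (c (c (m (nat_lit 0x990d8)) e) e) e) e)) (c (c (c (c (c (p (nat_lit 0x1c03800)) e) e) e) e) e)) (c (c (c (c (c (c (p (nat_lit 0x1c9d6dc)) e) e) e) e) e) e)) (c (c (c (c (c (c (c (m (nat_lit 0x98f4c)) e) e) e) e) e) e) e)))) (c (c (c (c (c (c (c (c (p (nat_lit 0x4e1afbc8)) (c (p (nat_lit 0xea62e68))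 (c (p (nat_lit 0xb6672dc)) e))) (c (c (m (nat_lit 0x1068e1fc)) (c (m (nat_lit 0x8147b38)) e)) (c (c (m (nat_lit 0x98dfc)) e) e))) (c (c (c (m (nat_lit 0x1443b460)) (c (m (nat_lit 0xbd8a750)) e)) (c (c (m (nat_lit 0x6fc08a0)) e) e)) (c (c (c (m (nat_lit 0x98eb0)) e) e) e))) (c (c (c (c (m (nat_lit 0x16a21688)) (c (p (nat_lit 0x512fe20)) e)) (c (c (m (nat_lit 0x99528)) e) e)) (c (c (c (m (nat_lit 0x35a96f0)) e) e) e)) (c (c (c (c (m (nat_lit 0x993e4)) e) e) e) e))) (c (c (c (c (c (m (nat_lit 0xf433020)) (c (m (nat_lit 0x12641094)) e)) (c (c (m (nat_lit 0x117e7534)) e) e)) (c (c (c (m (nat_lit 0x1cb7e0)) e) e) e)) (c (c (c (c (p (nat_lit 0x2958744)) e) e) e) e)) (c (c (c (c (c (m (nat_lit 0xafa25d8)) e) e) e) e) e))) (c (c (c (c (c (c (m (nat_lit 0x202cf458)) (c (m (nat_lit 0x14667744)) e)) (c (c (m (nat_lit 0x1234674)) e) e)) (c (c (c (m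 (nat_lit 0x1cba2c)) e) e) e)) (c (c (c (c (p (nat_lit 0x2957a0c)) e) e) e) e)) (c (c (c (c (c (m (nat_lit 0x578a4a4)) e) e) e) e) e)) (c (c (c (c (c (c (m (nat_lit 0x1caf88)) e) e) e) e) e) e))) (c (c (c (c (c (c (c (m (nat_lit 0x5c72e2f0)) (c (p (nat_lit 0x30cdc38)) e)) (c (c (p (nat_lit 0xaaf42d0)) e) e)) (c (c (c (p (nat_lit 0xdb2a4f8)) e) e) e)) (c (c (c (c (p (nat_lit 0x132ce364)) e) e) e) e)) (c (c (c (c (c (p (nat_lit 0xa2d4e5c)) e) e) e) e) e)) (c (c (c (c (c (c (p (nat_lit 0xd2724a4)) e) e) e) e) e) e)) (c (c (c (c (c (c (c (p (nat_lit 0x1652ca0)) e) e) e) e) e) e) e))) (c (c (c (c (c (c (c (c (m (nat_lit 0x306b65f8)) (c (m (nat_lit 0xa721274)) e)) (c (c (p (nat_lit 0xa888d4c)) e) e)) (c (c (c (p (nat_lit 0xa9bd410)) e) e) e)) (c (c (c (c (p (nat_lit 0x7f7ef98)) e) e) e) e)) (c (c (c (c (c (p (nat_lit 0x6cc13ec)) e) e) e) e)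 e)) (c (c (c (c (c (c (p (nat_lit 0x6d5ab9c)) e) e) e) e) e) e)) (c (c (c (c (c (c (c (p (nat_lit 0x12bdd014)) e) e) e) e) e) e) e)) (c (c (c (c (c (c (c (c (m (nat_lit 0xabd10b8)) e) e) e) e) e) e) e) e)))) (c (c (c (c (c (c (c (c (c (m (nat_lit 0x51ec3388)) (c (m (nat_lit 0x3289d52c)) (c (m (nat_lit 0xe5c1b8)) e))) (c (c (m (nat_lit 0x60213f0)) (c (p (nat_lit 0x68757fc)) e)) (c (c (m (nat_lit 0x99408)) e) e))) (c (c (c (m (nat_lit 0x60213f0)) (c (p (nat_lit 0x68757fc)) e)) (c (c (m (nat_lit 0x73cce54)) e) e)) (c (c (c (m (nat_lit 0x99408)) e) e) e))) (c (c (c (c (p (nat_lit 0xfae7104)) (c (m (nat_lit 0x263a90)) e)) (c (c (m (nat_lit 0x35a9480)) e) e)) (c (c (c (m (nat_lit 0x35a9480)) e) e) e)) (c (c (c (c (m (nat_lit 0x1328b8)) e) e) e) e))) (c (c (c (c (c (m (nat_lit 0x8987a9c)) (c (m (nat_lit 0x2640f0)) e)) (c (c (m (nat_lit 0x1cca88))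 e) e)) (c (c (c (m (nat_lit 0x1cb018)) e) e) e)) (c (c (c (c (m (nat_lit 0x99168)) e) e) e) e)) (c (c (c (c (c (m (nat_lit 0x1cb000)) e) e) e) e) e))) (c (c (c (c (c (c (m (nat_lit 0x8987a9c)) (c (m (nat_lit 0x2640f0)) e)) (c (c (m (nat_lit 0x1cb018)) e) e)) (c (c (c (m (nat_lit 0x1cca88)) e) e) e)) (c (c (c (c (m (nat_lit 0x99168)) e) e) e) e)) (c (c (c (c (c (m (nat_lit 0x46823ac)) e) e) e) e) e)) (c (c (c (c (c (c (m (nat_lit 0x1cb000)) e) e) e) e) e) e))) (c (c (c (c (c (c (c (m (nat_lit 0x12b124d8)) (c (p (nat_lit 0x619e5a0)) e)) (c (c (p (nat_lit 0x2f9d5a0)) e) e)) (c (c (c (p (nat_lit 0x2f9d5a0)) e) e) e)) (c (c (c (c (m (nat_lit 0x131dc0)) e) e) e) e)) (c (c (c (c (c (p (nat_lit 0x2e6b1bc)) e) e) e) e) e)) (c (c (c (c (c (c (p (nat_lit 0x2e6b1bc)) e) e) e) e) e) e)) (c (c (c (c (c (c (c (m (nat_lit 0x396cc0)) e) e) e) e) e) e)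 e))) (c (c (c (c (c (c (c (c (m (nat_lit 0x8e43550)) (c (p (nat_lit 0xd548618)) e)) (c (c (p (nat_lit 0xde3e4c)) e) e)) (c (c (c (p (nat_lit 0xde3e4c)) e) e) e)) (c (c (c (c (m (nat_lit 0x7cd9508)) e) e) e) e)) (c (c (c (c (c (m (nat_lit 0x13d181c)) e) e) e) e) e)) (c (c (c (c (c (c (m (nat_lit 0x13d181c)) e) e) e) e) e) e)) (c (c (c (c (c (c (c (p (nat_lit 0xc8420a0)) e) e) e) e) e) e) e)) (c (c (c (c (c (c (c (c (m (nat_lit 0x268890)) e) e) e) e) e) e) e) e))) (c (c (c (c (c (c (c (c (c (p (nat_lit 0x366558f0)) (c (p (nat_lit 0x587b140)) e)) (c (c (p (nat_lit 0x37d3d6c)) e) e)) (c (c (c (p (nat_lit 0x200dd98)) e) e) e)) (c (c (c (c (m (nat_lit 0x5c24dfc)) e) e) e) e)) (c (c (c (c (c (p (nat_lit 0x26f817c)) e) e) e) e) e)) (c (c (c (c (c (c (p (nat_lit 0xb9112c)) e) e) e) e) e) e)) (c (c (c (c (c (c (c (p (nat_lit 0x120)) e) e) e) e)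 e) e) e)) (c (c (c (c (c (c (c (c (p (nat_lit 0xa38)) e) e) e) e) e) e) e) e)) (c (c (c (c (c (c (c (c (c (m (nat_lit 0x134f7420)) e) e) e) e) e) e) e) e) e)))) (c (c (c (c (c (c (c (c (c (c (m (nat_lit 0x632466f0)) (c (m (nat_lit 0x18cba474)) (c (m (nat_lit 0x72e310)) e))) (c (c (m (nat_lit 0x23a8274)) (c (p (nat_lit 0x68754e4)) e)) (c (c (m (nat_lit 0x990d8)) e) e))) (c (c (c (m (nat_lit 0x344e158)) (c (m (nat_lit 0x131ca0)) e)) (c (c (m (nat_lit 0x39e4468)) e) e)) (c (c (c (m (nat_lit 0x99144)) e) e) e))) (c (c (c (c (p (nat_lit 0xcc863e8)) (c (m (nat_lit 0x4f12c8c)) e)) (c (c (m (nat_lit 0x1cb930)) e) e)) (c (c (c (m (nat_lit 0x6874a04)) e) e) e)) (c (c (c (c (m (nat_lit 0x99750)) e) e) e) e))) (c (c (c (c (c (m (nat_lit 0x1a60fa0)) (c (m (nat_lit 0x1cae68)) e)) (c (c (m (nat_lit 0x131ed4)) e) e)) (c (c (c (m (nat_lit 0x131f28)) e)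 e) e)) (c (c (c (c (m (nat_lit 0x975cc)) e) e) e) e)) (c (c (c (c (c (m (nat_lit 0x131e38)) e) e) e) e) e))) (c (c (c (c (c (c (m (nat_lit 0x622665c)) (c (m (nat_lit 0x263b20)) e)) (c (c (m (nat_lit 0x1324b0)) e) e)) (c (c (c (m (nat_lit 0x1320c0)) e) e) e)) (c (c (c (c (p (nat_lit 0x99b6e74)) e) e) e) e)) (c (c (c (c (c (m (nat_lit 0x2340eac)) e) e) e) e) e)) (c (c (c (c (c (c (m (nat_lit 0x1cae74)) e) e) e) e) e) e))) (c (c (c (c (c (c (c (p (nat_lit 0x24f0a98)) (c (p (nat_lit 0x3167c94)) e)) (c (c (p (nat_lit 0x99690)) e) e)) (c (c (c (p (nat_lit 0x3036114)) e) e) e)) (c (c (c (c (m (nat_lit 0xd8)) e) e) e) e)) (c (c (c (c (c (m (nat_lit 0x1333c8)) e) e) e) e) e)) (c (c (c (c (c (c (p (nat_lit 0x3036438)) e) e) e) e) e) e)) (c (c (c (c (c (c (c (m (nat_lit 0x1cb480)) e) e) e) e) e) e) e))) (c (c (c (c (c (c (c (c (p (nat_lit 0x3285e19c))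 (c (p (nat_lit 0x9675018)) e)) (c (c (p (nat_lit 0x105e208)) e) e)) (c (c (c (p (nat_lit 0x28bd998)) e) e) e)) (c (c (c (c (m (nat_lit 0x3dd3670)) e) e) e) e)) (c (c (c (c (c (p (nat_lit 0x1cad0)) e) e) e) e) e)) (c (c (c (c (c (c (p (nat_lit 0x17e2c0c)) e) e) e) e) e) e)) (c (c (c (c (c (c (c (m (nat_lit 0x548bdf4)) e) e) e) e) e) e) e)) (c (c (c (c (c (c (c (c (m (nat_lit 0x1cd8f8)) e) e) e) e) e) e) e) e))) (c (c (c (c (c (c (c (c (c (p (nat_lit 0x366558f0)) (c (p (nat_lit 0x587b140)) e)) (c (c (p (nat_lit 0x200dd98)) e) e)) (c (c (c (p (nat_lit 0x37d3d6c)) e) e) e)) (c (c (c (c (m (nat_lit 0x5c24dfc)) e) e) e) e)) (c (c (c (c (c (p (nat_lit 0xb9112c)) e) e) e) e) e)) (c (c (c (c (c (c (p (nat_lit 0x26f817c)) e) e) e) e) e) e)) (c (c (c (c (c (c (c (p (nat_lit 0x120)) e) e) e) e) e) e) e)) (c (c (c (c (c (c (c (c (p (nat_lit 0xa38))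 e) e) e) e) e) e) e) e)) (c (c (c (c (c (c (c (c (c (m (nat_lit 0x263b68)) e) e) e) e) e) e) e) e) e))) (c (c (c (c (c (c (c (c (c (c (p (nat_lit 0x50bd4660)) (c (p (nat_lit 0x3a4e5b4)) e)) (c (c (p (nat_lit 0x10f77e4)) e) e)) (c (c (c (p (nat_lit 0x28bd950)) e) e) e)) (c (c (c (c (m (nat_lit 0x1f8318c)) e) e) e) e)) (c (c (c (c (c (p (nat_lit 0xac0d28)) e) e) e) e) e)) (c (c (c (c (c (c (p (nat_lit 0x2286780)) e) e) e) e) e) e)) (c (c (c (c (c (c (c (m (nat_lit 0x131cc4)) e) e) e) e) e) e) e)) (c (c (c (c (c (c (c (c (m (nat_lit 0x19dcba70)) e) e) e) e) e) e) e) e)) (c (c (c (c (c (c (c (c (c (m (nat_lit 0x134f7420)) e) e) e) e) e) e) e) e) e)) (c (c (c (c (c (c (c (c (c (c (m (nat_lit 0x1345e060)) e) e) e) e) e) e) e) e) e) e)))))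

theorem c1 : trsOK col trs = true := by decide +kernel
theorem c2 : Nat.ble (Nat.mul (nat_lit 39) (nat_lit 4556)) (nat_lit 4294967295) = true := by decide +kernel
theorem c3 : Nat.beq (tabK (nat_lit 39) (List.ofFn s10)) kt = true := by decide +kernel
theorem c4 : okE trs E = true := by decide +kernel
theorem c5 : dE E (nat_lit 4) = true := by decide +kernel
theorem c6 : cmpK (nat_lit 10) (nat_lit 4) kt E T = true := by decide +kernel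
theorem c7 : bndK (nat_lit 10) (nat_lit 4) (Nat.pow (nat_lit 2) (nat_lit 39)) E T = true := by decide +kernel

theorem c0 : Fl.codeB col = 15 := by decide +kernel

theorem own : Fl.OwnOK 4 T 15 :=
  own_ok c0 c1 c2 c3 c4 c5 c6 c7

end H15

end Own

end HR
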