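import Pool.Agent.Lib.MP_a1b8b7_co.B.OwnOK

set_option autoImplicit false

namespace HR

namespace Own

namespace H236

open Chk

def col : Fin 10 → Bool := ![false, false, true, true, false, true, true, true, false, false]

def trs : List ℕ := []

def kt : ℕ := nat_lit 0x27000000c300000333000008610000174f00003ace000082b60000e3250001a64c0002b614

open Ex in
noncomputable def E : Ex := (a (a (a (a (u (nat_lit 9) (v (nat_lit 9) (v (nat_lit 9) (v (nat_lit 9) (k (nat_lit 0x131a30)))))) (v (nat_lit 8) (a (u (nat_lit 9) (v (nat_lit 9) (v (nat_lit 9) (k (nat_lit 0x98de4))))) (v (nat_lit 8) (u (nat_lit 9) (v (nat_lit 9) (k (nat_lit 0x98e2c)))))))) (a (u (nat_lit 8) (v (nat_lit 8) (a (v (nat_lit 9) (v (nat_lit 9) (k (nat_lit 0x98e2c)))) (v (nat_lit 8) (a (v (nat_lit 9) (k (nat_lit 0x98de4))) (v (nat_lit 8) (k (nat_lit 0x131a30)))))))) (v (nat_lit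 7) (a (a (u (nat_lit 9) (v (nat_lit 9) (v (nat_lit 9) (k (nat_lit 0x98fb8))))) (v (nat_lit 8) (v (nat_lit 8) (u (nat_lit 9) (k (nat_lit 0x990d8)))))) (a (u (nat_lit 8) (v (nat_lit 9) (v (nat_lit 9) (k (nat_lit 0x992b8))))) (v (nat_lit 7) (a (u (nat_lit 8) (a (v (nat_lit 9) (k (nat_lit 0x98fa0))) (v (nat_lit 8) (k (nat_lit 0x9933c))))) (v (nat_lit 7) (u (nat_lit 9) (k (nat_lit 0x98cf4))))))))))) (a (a (u (nat_lit 7) (a (v (nat_lit 8) (v (nat_lit 8) (v (nat_lit 8) (k (nat_lit 0x98cf4))))) (v (nat_lit 7) (a (v (nat_lit 9) (v (nat_lit 9) (k (nat_lit 0x9933c)))) (v (nat_lit 7) (a (v (nat_lit 8) (k (nat_lit 0x98fb8))) (v (nat_lit 7) (k (nat_lit 0x131a30))))))))) (v (nat_lit 6) (a (a (v (nat_lit 8) (v (nat_lit 8) (u (nat_lit 9) (k (nat_lit 0x992b8))))) (u (nat_lit 8) (a (v (nat_lit 9) (v (nat_lit 9) (k (nat_lit 0x990d8)))) (v (nat_lit 8) (v (nat_lit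 8) (k (nat_lit 0x98fb8))))))) (a (v (nat_lit 7) (a (v (nat_lit 8) (u (nat_lit 9) (k (nat_lit 0x98ff4)))) (u (nat_lit 8) (v (nat_lit 9) (k (nat_lit 0x98ff4)))))) (a (u (nat_lit 7) (a (v (nat_lit 9) (v (nat_lit 9) (k (nat_lit 0x98fa0)))) (a (v (nat_lit 8) (v (nat_lit 9) (k (nat_lit 0x98ff4)))) (v (nat_lit 7) (v (nat_lit 7) (k (nat_lit 0x98de4))))))) (v (nat_lit 6) (a (a (u (nat_lit 9) (v (nat_lit 9) (k (nat_lit 0x9933c)))) (v (nat_lit 8) (u (nat_lit 9) (k (nat_lit 0x98fa0))))) (a (u (nat_lit 7) (a (v (nat_lit 9) (k (nat_lit 0x992b8))) (a (v (nat_lit 8) (k (nat_lit 0x990d8))) (v (nat_lit 7) (k (nat_lit 0x98e2c)))))) (v (nat_lit 6) (u (nat_lit 8) (k (nat_lit 0x98cf4)))))))))))) (a (u (nat_lit 6) (a (v (nat_lit 9) (v (nat_lit 9) (v (nat_lit 9) (k (nat_lit 0x98cf4))))) (a (v (nat_lit 7) (a (v (nat_lit 8) (a (v (nat_lit 9) (k (nat_lit 0x98ff4)))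 (v (nat_lit 8) (k (nat_lit 0x98fa0))))) (v (nat_lit 7) (a (v (nat_lit 9) (k (nat_lit 0x990d8))) (v (nat_lit 8) (k (nat_lit 0x992b8))))))) (v (nat_lit 6) (a (v (nat_lit 8) (v (nat_lit 8) (k (nat_lit 0x9933c)))) (a (v (nat_lit 7) (v (nat_lit 7) (k (nat_lit 0x98e2c)))) (v (nat_lit 6) (a (v (nat_lit 9) (k (nat_lit 0x98fb8))) (a (v (nat_lit 7) (k (nat_lit 0x98de4))) (v (nat_lit 6) (k (nat_lit 0x131a30)))))))))))) (a (v (nat_lit 5) (a (a (u (nat_lit 9) (v (nat_lit 9) (v (nat_lit 9) (k (nat_lit 0x98fb8))))) (a (u (nat_lit 8) (v (nat_lit 8) (v (nat_lit 8) (k (nat_lit 0x98fb8))))) (u (nat_lit 7) (a (v (nat_lit 9) (v (nat_lit 9) (k (nat_lit 0x9903c)))) (a (v (nat_lit 8) (a (v (nat_lit 9) (k (nat_lit 0x98ef8))) (v (nat_lit 8) (k (nat_lit 0x991a4))))) (v (nat_lit 7) (a (v (nat_lit 8) (k (nat_lit 0x98f28))) (v (nat_lit 7) (k (nat_lit 0x989dc))))))))))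 (a (v (nat_lit 6) (a (u (nat_lit 7) (a (v (nat_lit 8) (k (nat_lit 0x99f96))) (u (nat_lit 7) (k (nat_lit 0x374f64c))))) (v (nat_lit 6) (u (nat_lit 7) (k (nat_lit 0x98fe2)))))) (a (u (nat_lit 6) (a (a (v (nat_lit 9) (v (nat_lit 9) (k (nat_lit 0x991a4)))) (a (v (nat_lit 8) (a (v (nat_lit 9) (k (nat_lit 0x98ef8))) (v (nat_lit 8) (k (nat_lit 0x9903c))))) (v (nat_lit 7) (a (v (nat_lit 9) (k (nat_lit 0x99f96))) (v (nat_lit 7) (k (nat_lit 0x98fe2))))))) (a (u (nat_lit 7) (v (nat_lit 7) (k (nat_lit 0x154e350a)))) (a (v (nat_lit 6) (a (v (nat_lit 9) (k (nat_lit 0x98f28))) (a (u (nat_lit 7) (k (nat_lit 0x154e350a))) (v (nat_lit 6) (k (nat_lit 0x989dc)))))) (u (nat_lit 6) (v (nat_lit 7) (k (nat_lit 0x374f64c)))))))) (v (nat_lit 5) (a (a (v (nat_lit 7) (u (nat_lit 8) (k (nat_lit 0x98364)))) (u (nat_lit 7) (a (v (nat_lit 9) (k (nat_lit 0x98f64))) (a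 (v (nat_lit 8) (k (nat_lit 0x99a8c))) (v (nat_lit 7) (k (nat_lit 0x98f5e))))))) (a (v (nat_lit 6) (a (u (nat_lit 9) (k (nat_lit 0x98364))) (u (nat_lit 7) (k (nat_lit 0x98f1c))))) (a (u (nat_lit 6) (a (a (v (nat_lit 9) (k (nat_lit 0x99a8c))) (v (nat_lit 8) (k (nat_lit 0x98f64)))) (a (v (nat_lit 7) (k (nat_lit 0x98f1c))) (v (nat_lit 6) (k (nat_lit 0x98f5e)))))) (v (nat_lit 5) (a (a (u (nat_lit 9) (k (nat_lit 0x98cf4))) (u (nat_lit 8) (k (nat_lit 0x98cf4)))) (a (u (nat_lit 7) (k (nat_lit 0x98ba4))) (u (nat_lit 6) (k (nat_lit 0x98ba4)))))))))))))) (u (nat_lit 5) (a (a (v (nat_lit 8) (a (v (nat_lit 9) (v (nat_lit 9) (k (nat_lit 0x98d30)))) (v (nat_lit 8) (v (nat_lit 9) (k (nat_lit 0x98d30)))))) (v (nat_lit 7) (a (v (nat_lit 9) (v (nat_lit 9) (k (nat_lit 0x9903c)))) (v (nat_lit 7) (a (v (nat_lit 9) (k (nat_lit 0x98f64))) (v (nat_lit 7) (k (nat_lit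 0x98ba4)))))))) (a (v (nat_lit 6) (a (v (nat_lit 8) (v (nat_lit 8) (k (nat_lit 0x9903c)))) (a (v (nat_lit 7) (a (v (nat_lit 9) (k (nat_lit 0x97f56))) (v (nat_lit 8) (k (nat_lit 0x97f56))))) (v (nat_lit 6) (a (v (nat_lit 8) (k (nat_lit 0x98f64))) (v (nat_lit 6) (k (nat_lit 0x98ba4)))))))) (v (nat_lit 5) (a (a (v (nat_lit 9) (v (nat_lit 9) (k (nat_lit 0x9933c)))) (a (v (nat_lit 8) (a (v (nat_lit 9) (k (nat_lit 0x131d18))) (v (nat_lit 8) (k (nat_lit 0x9933c))))) (v (nat_lit 7) (v (nat_lit 7) (k (nat_lit 0x98f5e)))))) (a (a (u (nat_lit 7) (v (nat_lit 7) (k (nat_lit 0x36fd4c1c)))) (v (nat_lit 6) (a (u (nat_lit 7) (k (nat_lit 0x341bdd48))) (v (nat_lit 6) (k (nat_lit 0x98f5e)))))) (a (u (nat_lit 6) (a (v (nat_lit 7) (k (nat_lit 0x341bdd48))) (v (nat_lit 6) (k (nat_lit 0x36fd4c1c))))) (v (nat_lit 5) (a (v (nat_lit 7) (k (nat_lit 0x989dc))) (a (v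 (nat_lit 6) (k (nat_lit 0x989dc))) (v (nat_lit 5) (k (nat_lit 0x131a30))))))))))))))))) (a (a (a (v (nat_lit 4) (a (a (a (u (nat_lit 9) (v (nat_lit 9) (v (nat_lit 9) (k (nat_lit 0x98de4))))) (u (nat_lit 8) (a (v (nat_lit 9) (v (nat_lit 9) (k (nat_lit 0x98d6c)))) (v (nat_lit 8) (v (nat_lit 8) (k (nat_lit 0x989dc))))))) (a (v (nat_lit 7) (u (nat_lit 8) (v (nat_lit 9) (k (nat_lit 0x9723c))))) (u (nat_lit 7) (a (v (nat_lit 9) (v (nat_lit 9) (k (nat_lit 0x98d30)))) (a (v (nat_lit 8) (v (nat_lit 8) (k (nat_lit 0x98364)))) (v (nat_lit 7) (v (nat_lit 9) (k (nat_lit 0x131d18))))))))) (a (a (v (nat_lit 6) (a (a (u (nat_lit 9) (v (nat_lit 9) (k (nat_lit 0x9a260)))) (u (nat_lit 8) (v (nat_lit 8) (k (nat_lit 0x988fe))))) (a (v (nat_lit 7) (u (nat_lit 8) (k (nat_lit 0x99eb8)))) (a (u (nat_lit 7) (a (v (nat_lit 9) (k (nat_lit 0x9750c))) (v (nat_lit 7)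 (k (nat_lit 0x9a260))))) (v (nat_lit 6) (a (u (nat_lit 9) (k (nat_lit 0x98ee0))) (a (u (nat_lit 8) (k (nat_lit 0x996a8))) (u (nat_lit 7) (k (nat_lit 0x97b00)))))))))) (u (nat_lit 6) (a (a (v (nat_lit 8) (a (v (nat_lit 9) (k (nat_lit 0x98ec8))) (v (nat_lit 8) (k (nat_lit 0x9908a))))) (a (u (nat_lit 8) (v (nat_lit 8) (k (nat_lit 0x99f30)))) (v (nat_lit 7) (v (nat_lit 8) (k (nat_lit 0x98e92)))))) (a (u (nat_lit 7) (v (nat_lit 9) (k (nat_lit 0x96f9c)))) (a (v (nat_lit 6) (a (v (nat_lit 7) (k (nat_lit 0x9a080))) (v (nat_lit 6) (k (nat_lit 0x1302f0))))) (u (nat_lit 6) (v (nat_lit 6) (k (nat_lit 0x130728))))))))) (a (v (nat_lit 5) (a (a (u (nat_lit 8) (a (v (nat_lit 9) (k (nat_lit 0x9ad28))) (v (nat_lit 8) (k (nat_lit 0x98f28))))) (v (nat_lit 7) (u (nat_lit 8) (k (nat_lit 0x98f40))))) (a (u (nat_lit 7) (v (nat_lit 8) (k (nat_lit 0x98f40)))) (a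 (u (nat_lit 6) (a (v (nat_lit 9) (k (nat_lit 0x9830a))) (a (v (nat_lit 8) (k (nat_lit 0x99060))) (v (nat_lit 7) (k (nat_lit 0x9905a)))))) (v (nat_lit 5) (a (u (nat_lit 8) (k (nat_lit 0x991a4))) (u (nat_lit 6) (k (nat_lit 0x99600))))))))) (a (u (nat_lit 5) (a (v (nat_lit 7) (a (v (nat_lit 9) (k (nat_lit 0x98ef8))) (a (v (nat_lit 8) (k (nat_lit 0x98f40))) (v (nat_lit 7) (k (nat_lit 0x99a8c)))))) (a (v (nat_lit 6) (v (nat_lit 9) (k (nat_lit 0x99eb8)))) (v (nat_lit 5) (a (v (nat_lit 7) (k (nat_lit 0x98f28))) (a (v (nat_lit 6) (k (nat_lit 0x988fe))) (v (nat_lit 5) (k (nat_lit 0x98fb8))))))))) (v (nat_lit 4) (a (a (a (u (nat_lit 9) (v (nat_lit 9) (k (nat_lit 0x98e2c)))) (u (nat_lit 8) (a (v (nat_lit 9) (k (nat_lit 0x98d0c))) (v (nat_lit 8) (k (nat_lit 0x98f5e)))))) (a (u (nat_lit 7) (a (v (nat_lit 9) (k (nat_lit 0x98d30))) (v (nat_lit 7) (k (nat_lit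 0x9933c))))) (v (nat_lit 6) (a (u (nat_lit 9) (k (nat_lit 0x97b00))) (u (nat_lit 7) (k (nat_lit 0x98ee0))))))) (a (a (u (nat_lit 6) (a (v (nat_lit 9) (k (nat_lit 0x98f28))) (a (v (nat_lit 8) (k (nat_lit 0x98e8c))) (v (nat_lit 6) (k (nat_lit 0x131b80)))))) (v (nat_lit 5) (a (u (nat_lit 9) (k (nat_lit 0x990d8))) (a (u (nat_lit 8) (k (nat_lit 0x99a8c))) (u (nat_lit 6) (k (nat_lit 0x986b8))))))) (a (u (nat_lit 5) (a (v (nat_lit 8) (k (nat_lit 0x98364))) (a (v (nat_lit 7) (k (nat_lit 0x991a4))) (v (nat_lit 6) (k (nat_lit 0x996a8)))))) (v (nat_lit 4) (a (u (nat_lit 8) (k (nat_lit 0x98ba4))) (u (nat_lit 5) (k (nat_lit 0x98cf4)))))))))))))) (u (nat_lit 4) (a (a (a (v (nat_lit 8) (a (v (nat_lit 9) (v (nat_lit 9) (k (nat_lit 0x98d6c)))) (v (nat_lit 8) (a (v (nat_lit 9) (k (nat_lit 0x98d0c))) (v (nat_lit 8) (k (nat_lit 0x98ba4))))))) (v (nat_lit 7)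 (a (v (nat_lit 8) (a (v (nat_lit 9) (k (nat_lit 0x9ad28))) (v (nat_lit 8) (k (nat_lit 0x99a8c))))) (v (nat_lit 7) (a (v (nat_lit 8) (k (nat_lit 0x991a4))) (v (nat_lit 7) (k (nat_lit 0x98cf4)))))))) (a (v (nat_lit 6) (a (v (nat_lit 8) (v (nat_lit 8) (k (nat_lit 0x99600)))) (a (v (nat_lit 7) (v (nat_lit 8) (k (nat_lit 0x9830a)))) (v (nat_lit 6) (a (v (nat_lit 8) (k (nat_lit 0x986b8))) (v (nat_lit 7) (k (nat_lit 0x98f28)))))))) (u (nat_lit 6) (a (v (nat_lit 9) (v (nat_lit 9) (k (nat_lit 0x98dfc)))) (a (v (nat_lit 7) (v (nat_lit 7) (k (nat_lit 0x98dfc)))) (v (nat_lit 6) (v (nat_lit 9) (k (nat_lit 0x99000))))))))) (a (a (v (nat_lit 5) (a (a (v (nat_lit 9) (v (nat_lit 9) (k (nat_lit 0x992b8)))) (a (v (nat_lit 8) (v (nat_lit 9) (k (nat_lit 0x9723c)))) (v (nat_lit 7) (a (v (nat_lit 8) (k (nat_lit 0x98f40))) (v (nat_lit 7) (k (nat_lit 0x98364)))))))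 (a (v (nat_lit 6) (a (a (v (nat_lit 9) (k (nat_lit 0x98e92))) (v (nat_lit 7) (k (nat_lit 0x98e08)))) (a (u (nat_lit 7) (k (nat_lit 0x30a33e))) (v (nat_lit 6) (k (nat_lit 0x98e8c)))))) (a (u (nat_lit 6) (v (nat_lit 6) (k (nat_lit 0x9b37c)))) (v (nat_lit 5) (a (v (nat_lit 9) (k (nat_lit 0x98fa0))) (v (nat_lit 6) (k (nat_lit 0x9908a))))))))) (u (nat_lit 5) (v (nat_lit 5) (v (nat_lit 6) (k (nat_lit 0x99f30)))))) (a (v (nat_lit 4) (a (a (a (v (nat_lit 9) (v (nat_lit 9) (k (nat_lit 0x98e2c)))) (v (nat_lit 8) (v (nat_lit 8) (k (nat_lit 0x98f5e))))) (a (u (nat_lit 8) (v (nat_lit 8) (k (nat_lit 0x36fd4c1c)))) (v (nat_lit 7) (v (nat_lit 8) (k (nat_lit 0x98f28)))))) (a (a (v (nat_lit 6) (a (v (nat_lit 9) (k (nat_lit 0x9a080))) (v (nat_lit 6) (k (nat_lit 0x131b80))))) (u (nat_lit 6) (a (v (nat_lit 8) (k (nat_lit 0x9b37c))) (v (nat_lit 7) (k (nat_lit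 0x99000)))))) (a (v (nat_lit 5) (v (nat_lit 5) (k (nat_lit 0x9933c)))) (v (nat_lit 4) (a (a (v (nat_lit 9) (k (nat_lit 0x98de4))) (v (nat_lit 8) (k (nat_lit 0x989dc)))) (a (v (nat_lit 7) (k (nat_lit 0x98fb8))) (a (v (nat_lit 6) (k (nat_lit 0x1302f0))) (v (nat_lit 4) (k (nat_lit 0x131a30))))))))))) (u (nat_lit 4) (v (nat_lit 4) (v (nat_lit 6) (k (nat_lit 0x130728)))))))))) (a (v (nat_lit 3) (a (a (a (v (nat_lit 8) (a (u (nat_lit 9) (v (nat_lit 9) (k (nat_lit 0x9a260)))) (v (nat_lit 8) (u (nat_lit 9) (k (nat_lit 0x97b00)))))) (u (nat_lit 8) (a (v (nat_lit 8) (a (v (nat_lit 9) (k (nat_lit 0x9a080))) (v (nat_lit 8) (k (nat_lit 0x1302f0))))) (u (nat_lit 8) (v (nat_lit 8) (k (nat_lit 0x130728))))))) (a (v (nat_lit 7) (a (u (nat_lit 8) (v (nat_lit 9) (k (nat_lit 0x98e92)))) (v (nat_lit 7) (a (u (nat_lit 9) (k (nat_lit 0x98364))) (u (nat_lit 8)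 (k (nat_lit 0x9908a))))))) (a (u (nat_lit 7) (a (v (nat_lit 8) (a (v (nat_lit 9) (k (nat_lit 0x99eb8))) (v (nat_lit 8) (k (nat_lit 0x996a8))))) (v (nat_lit 7) (a (v (nat_lit 8) (k (nat_lit 0x988fe))) (a (u (nat_lit 8) (k (nat_lit 0x99f30))) (v (nat_lit 7) (k (nat_lit 0x989dc)))))))) (v (nat_lit 6) (a (a (u (nat_lit 9) (v (nat_lit 9) (k (nat_lit 0x131d18)))) (a (v (nat_lit 8) (u (nat_lit 9) (k (nat_lit 0x9750c)))) (u (nat_lit 8) (u (nat_lit 9) (k (nat_lit 0x96f9c)))))) (a (v (nat_lit 7) (u (nat_lit 8) (k (nat_lit 0x98ec8)))) (a (u (nat_lit 7) (v (nat_lit 9) (k (nat_lit 0x9723c)))) (v (nat_lit 6) (a (u (nat_lit 9) (k (nat_lit 0x98d30))) (u (nat_lit 7) (k (nat_lit 0x98d6c)))))))))))) (a (a (u (nat_lit 6) (a (v (nat_lit 8) (v (nat_lit 8) (k (nat_lit 0x98ee0)))) (v (nat_lit 6) (a (v (nat_lit 8) (k (nat_lit 0x9a260))) (v (nat_lit 6) (k (nat_lit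 0x98de4))))))) (a (v (nat_lit 5) (a (a (v (nat_lit 7) (u (nat_lit 8) (k (nat_lit 0x98e08)))) (u (nat_lit 7) (v (nat_lit 9) (k (nat_lit 0x97f56))))) (a (v (nat_lit 6) (u (nat_lit 8) (k (nat_lit 0x135ef4)))) (a (u (nat_lit 6) (a (v (nat_lit 9) (k (nat_lit 0x9ad28))) (v (nat_lit 7) (k (nat_lit 0x98efe))))) (v (nat_lit 5) (u (nat_lit 6) (k (nat_lit 0x98d0c)))))))) (u (nat_lit 5) (a (a (a (v (nat_lit 9) (v (nat_lit 9) (k (nat_lit 0x98fa0)))) (v (nat_lit 8) (a (v (nat_lit 9) (k (nat_lit 0x9750c))) (v (nat_lit 8) (k (nat_lit 0x98ee0)))))) (a (v (nat_lit 7) (a (u (nat_lit 8) (k (nat_lit 0x30a33e))) (v (nat_lit 7) (k (nat_lit 0x98f1c))))) (u (nat_lit 7) (v (nat_lit 7) (k (nat_lit 0x341bdd48)))))) (a (a (v (nat_lit 6) (a (v (nat_lit 9) (k (nat_lit 0x9723c))) (v (nat_lit 6) (k (nat_lit 0x98d0c))))) (u (nat_lit 6) (u (nat_lit 8) (k (nat_lit 0x12fa20)))))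 (a (v (nat_lit 5) (a (v (nat_lit 8) (k (nat_lit 0x9a260))) (v (nat_lit 5) (k (nat_lit 0x98de4))))) (u (nat_lit 5) (v (nat_lit 7) (k (nat_lit 0x374f64c)))))))))) (a (v (nat_lit 4) (a (a (v (nat_lit 6) (u (nat_lit 9) (k (nat_lit 0x9750c)))) (u (nat_lit 6) (a (v (nat_lit 8) (k (nat_lit 0x99000))) (a (v (nat_lit 7) (k (nat_lit 0x1324f8))) (v (nat_lit 6) (k (nat_lit 0x9a080))))))) (a (v (nat_lit 5) (a (u (nat_lit 9) (k (nat_lit 0x98ff4))) (a (u (nat_lit 8) (k (nat_lit 0x9830a))) (u (nat_lit 7) (k (nat_lit 0x97f56)))))) (a (u (nat_lit 5) (a (v (nat_lit 9) (k (nat_lit 0x98ff4))) (v (nat_lit 7) (k (nat_lit 0x99f96))))) (v (nat_lit 4) (a (u (nat_lit 9) (k (nat_lit 0x992b8))) (a (u (nat_lit 8) (k (nat_lit 0x99600))) (u (nat_lit 7) (k (nat_lit 0x9903c)))))))))) (a (u (nat_lit 4) (a (a (v (nat_lit 9) (v (nat_lit 9) (k (nat_lit 0x990d8)))) (v (nat_lit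 6) (a (u (nat_lit 9) (k (nat_lit 0x96f9c))) (a (v (nat_lit 7) (k (nat_lit 0x135ef4))) (v (nat_lit 6) (k (nat_lit 0x98f28))))))) (a (u (nat_lit 6) (v (nat_lit 7) (k (nat_lit 0x13428c)))) (a (v (nat_lit 5) (a (v (nat_lit 9) (k (nat_lit 0x98ff4))) (a (v (nat_lit 8) (k (nat_lit 0x99eb8))) (v (nat_lit 6) (k (nat_lit 0x98ec8)))))) (v (nat_lit 4) (a (v (nat_lit 8) (k (nat_lit 0x988fe))) (a (u (nat_lit 6) (k (nat_lit 0x99000))) (v (nat_lit 4) (k (nat_lit 0x98fb8)))))))))) (v (nat_lit 3) (a (a (a (u (nat_lit 9) (v (nat_lit 9) (k (nat_lit 0x9933c)))) (a (v (nat_lit 8) (u (nat_lit 9) (k (nat_lit 0x98ee0)))) (u (nat_lit 8) (v (nat_lit 8) (k (nat_lit 0x131b80)))))) (a (v (nat_lit 7) (u (nat_lit 8) (k (nat_lit 0x98e8c)))) (a (u (nat_lit 7) (v (nat_lit 7) (k (nat_lit 0x98f5e)))) (v (nat_lit 6) (a (u (nat_lit 9) (k (nat_lit 0x98d30))) (a (u (nat_lit 8)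 (k (nat_lit 0x98f28))) (u (nat_lit 7) (k (nat_lit 0x98d0c))))))))) (a (a (u (nat_lit 6) (a (v (nat_lit 8) (k (nat_lit 0x97b00))) (v (nat_lit 6) (k (nat_lit 0x98e2c))))) (a (v (nat_lit 5) (a (u (nat_lit 8) (k (nat_lit 0x98f28))) (u (nat_lit 6) (k (nat_lit 0x98d6c))))) (u (nat_lit 5) (a (a (v (nat_lit 9) (k (nat_lit 0x992b8))) (v (nat_lit 8) (k (nat_lit 0x97b00)))) (a (v (nat_lit 7) (k (nat_lit 0x98fe2))) (a (v (nat_lit 6) (k (nat_lit 0x98d6c))) (v (nat_lit 5) (k (nat_lit 0x98e2c))))))))) (a (v (nat_lit 4) (a (a (u (nat_lit 9) (k (nat_lit 0x98fa0))) (u (nat_lit 8) (k (nat_lit 0x986b8)))) (a (u (nat_lit 7) (k (nat_lit 0x98f64))) (u (nat_lit 5) (k (nat_lit 0x990d8)))))) (a (u (nat_lit 4) (a (v (nat_lit 8) (k (nat_lit 0x996a8))) (u (nat_lit 6) (k (nat_lit 0x98dfc))))) (v (nat_lit 3) (a (u (nat_lit 7) (k (nat_lit 0x98ba4))) (u (nat_lit 4) (k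 (nat_lit 0x98cf4))))))))))))))) (a (u (nat_lit 3) (a (a (a (v (nat_lit 9) (v (nat_lit 9) (v (nat_lit 9) (k (nat_lit 0x98cf4))))) (v (nat_lit 8) (v (nat_lit 8) (v (nat_lit 9) (k (nat_lit 0x98f28)))))) (a (u (nat_lit 8) (v (nat_lit 9) (v (nat_lit 9) (k (nat_lit 0x98dfc))))) (a (v (nat_lit 7) (a (v (nat_lit 9) (v (nat_lit 9) (k (nat_lit 0x991a4)))) (a (v (nat_lit 8) (a (v (nat_lit 9) (k (nat_lit 0x9830a))) (v (nat_lit 8) (k (nat_lit 0x986b8))))) (v (nat_lit 7) (a (v (nat_lit 9) (k (nat_lit 0x99a8c))) (a (v (nat_lit 8) (k (nat_lit 0x99600))) (v (nat_lit 7) (k (nat_lit 0x98ba4))))))))) (v (nat_lit 6) (a (u (nat_lit 8) (v (nat_lit 8) (k (nat_lit 0x99000)))) (a (v (nat_lit 7) (a (v (nat_lit 9) (k (nat_lit 0x9ad28))) (v (nat_lit 7) (k (nat_lit 0x98d0c))))) (v (nat_lit 6) (a (u (nat_lit 8) (k (nat_lit 0x98dfc))) (v (nat_lit 7) (k (nat_lit 0x98d6c)))))))))))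 (a (a (v (nat_lit 5) (a (a (u (nat_lit 8) (v (nat_lit 8) (k (nat_lit 0x99000)))) (a (v (nat_lit 7) (a (v (nat_lit 9) (k (nat_lit 0x99f96))) (a (v (nat_lit 8) (k (nat_lit 0x9905a))) (v (nat_lit 7) (k (nat_lit 0x98f1c)))))) (u (nat_lit 7) (v (nat_lit 7) (k (nat_lit 0x341bdd48)))))) (a (v (nat_lit 6) (a (v (nat_lit 8) (k (nat_lit 0x1324f8))) (a (u (nat_lit 8) (k (nat_lit 0x13428c))) (v (nat_lit 7) (k (nat_lit 0x98efe)))))) (a (u (nat_lit 6) (v (nat_lit 7) (k (nat_lit 0xa8d479c)))) (v (nat_lit 5) (a (v (nat_lit 9) (k (nat_lit 0x990d8))) (a (u (nat_lit 8) (k (nat_lit 0x98dfc))) (v (nat_lit 7) (k (nat_lit 0x98fe2)))))))))) (a (u (nat_lit 5) (a (v (nat_lit 8) (v (nat_lit 9) (k (nat_lit 0x96f9c)))) (v (nat_lit 5) (v (nat_lit 7) (k (nat_lit 0x154e350a)))))) (v (nat_lit 4) (a (a (v (nat_lit 8) (a (v (nat_lit 9) (k (nat_lit 0x98ec8))) (v (nat_lit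 8) (k (nat_lit 0x98e8c))))) (a (u (nat_lit 8) (v (nat_lit 8) (k (nat_lit 0x9b37c)))) (v (nat_lit 7) (a (v (nat_lit 9) (k (nat_lit 0x98ef8))) (a (v (nat_lit 8) (k (nat_lit 0x99060))) (v (nat_lit 7) (k (nat_lit 0x98f64)))))))) (a (v (nat_lit 6) (a (v (nat_lit 8) (k (nat_lit 0x99000))) (v (nat_lit 6) (k (nat_lit 0x97b00))))) (a (v (nat_lit 5) (a (v (nat_lit 9) (k (nat_lit 0x98ff4))) (a (v (nat_lit 8) (k (nat_lit 0x98e92))) (v (nat_lit 5) (k (nat_lit 0x992b8)))))) (v (nat_lit 4) (a (a (v (nat_lit 8) (k (nat_lit 0x9908a))) (v (nat_lit 7) (k (nat_lit 0x9903c)))) (a (v (nat_lit 6) (k (nat_lit 0x98ee0))) (v (nat_lit 5) (k (nat_lit 0x98fa0)))))))))))) (a (u (nat_lit 4) (a (v (nat_lit 6) (u (nat_lit 7) (k (nat_lit 0x12fa20)))) (v (nat_lit 4) (v (nat_lit 8) (k (nat_lit 0x99f30)))))) (a (v (nat_lit 3) (a (a (a (v (nat_lit 8) (v (nat_lit 8) (k (nat_lit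 0x131b80)))) (u (nat_lit 8) (v (nat_lit 9) (k (nat_lit 0x99000))))) (a (v (nat_lit 7) (a (v (nat_lit 9) (k (nat_lit 0x98f28))) (a (u (nat_lit 8) (k (nat_lit 0x9b37c))) (v (nat_lit 7) (k (nat_lit 0x98f5e)))))) (u (nat_lit 7) (v (nat_lit 7) (k (nat_lit 0x36fd4c1c)))))) (a (a (v (nat_lit 6) (a (v (nat_lit 8) (k (nat_lit 0x9a080))) (v (nat_lit 6) (k (nat_lit 0x98e2c))))) (v (nat_lit 5) (a (v (nat_lit 8) (k (nat_lit 0x9a080))) (v (nat_lit 5) (k (nat_lit 0x98e2c)))))) (a (u (nat_lit 5) (v (nat_lit 7) (k (nat_lit 0x154e350a)))) (a (v (nat_lit 4) (a (v (nat_lit 6) (k (nat_lit 0x9a260))) (v (nat_lit 4) (k (nat_lit 0x9933c))))) (v (nat_lit 3) (a (a (v (nat_lit 9) (k (nat_lit 0x98fb8))) (a (v (nat_lit 8) (k (nat_lit 0x1302f0))) (v (nat_lit 7) (k (nat_lit 0x989dc))))) (a (v (nat_lit 6) (k (nat_lit 0x98de4))) (a (v (nat_lit 5) (k (nat_lit 0x98de4)))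 (v (nat_lit 3) (k (nat_lit 0x131a30)))))))))))) (u (nat_lit 3) (a (v (nat_lit 5) (v (nat_lit 7) (k (nat_lit 0x374f64c)))) (v (nat_lit 3) (v (nat_lit 8) (k (nat_lit 0x130728))))))))))) (v (nat_lit 2) (a (a (a (u (nat_lit 9) (a (v (nat_lit 9) (v (nat_lit 9) (k (nat_lit 0x1302f0)))) (u (nat_lit 9) (v (nat_lit 9) (k (nat_lit 0x130728)))))) (a (v (nat_lit 8) (u (nat_lit 9) (v (nat_lit 9) (k (nat_lit 0x9a080))))) (u (nat_lit 8) (a (v (nat_lit 9) (v (nat_lit 9) (k (nat_lit 0x97b00)))) (v (nat_lit 8) (v (nat_lit 9) (k (nat_lit 0x9a260)))))))) (a (a (v (nat_lit 7) (a (u (nat_lit 8) (a (v (nat_lit 9) (k (nat_lit 0x9750c))) (a (u (nat_lit 9) (k (nat_lit 0x96f9c))) (v (nat_lit 8) (k (nat_lit 0x131d18)))))) (v (nat_lit 7) (u (nat_lit 8) (k (nat_lit 0x98d30)))))) (u (nat_lit 7) (a (v (nat_lit 9) (v (nat_lit 9) (k (nat_lit 0x98ee0)))) (v (nat_lit 7) (a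 (v (nat_lit 9) (k (nat_lit 0x9a260))) (v (nat_lit 7) (k (nat_lit 0x98de4)))))))) (a (v (nat_lit 6) (a (v (nat_lit 8) (u (nat_lit 9) (k (nat_lit 0x98e92)))) (a (v (nat_lit 7) (u (nat_lit 9) (k (nat_lit 0x98ec8)))) (v (nat_lit 6) (a (u (nat_lit 9) (k (nat_lit 0x9908a))) (u (nat_lit 8) (k (nat_lit 0x98364)))))))) (u (nat_lit 6) (a (a (v (nat_lit 9) (v (nat_lit 9) (k (nat_lit 0x996a8)))) (v (nat_lit 8) (v (nat_lit 9) (k (nat_lit 0x99eb8))))) (a (v (nat_lit 7) (a (v (nat_lit 8) (k (nat_lit 0x9723c))) (v (nat_lit 7) (k (nat_lit 0x98d6c))))) (v (nat_lit 6) (a (v (nat_lit 9) (k (nat_lit 0x988fe))) (a (u (nat_lit 9) (k (nat_lit 0x99f30))) (v (nat_lit 6) (k (nat_lit 0x989dc)))))))))))) (a (a (v (nat_lit 5) (a (a (v (nat_lit 7) (u (nat_lit 9) (k (nat_lit 0x135ef4)))) (u (nat_lit 7) (v (nat_lit 8) (k (nat_lit 0x9ad28))))) (a (v (nat_lit 6) (a (u (nat_lit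 9) (k (nat_lit 0x98e08))) (u (nat_lit 7) (k (nat_lit 0x98efe))))) (a (u (nat_lit 6) (v (nat_lit 8) (k (nat_lit 0x97f56)))) (v (nat_lit 5) (u (nat_lit 7) (k (nat_lit 0x98d0c)))))))) (a (u (nat_lit 5) (a (a (a (v (nat_lit 9) (v (nat_lit 9) (k (nat_lit 0x98ee0)))) (v (nat_lit 8) (a (v (nat_lit 9) (k (nat_lit 0x9750c))) (v (nat_lit 8) (k (nat_lit 0x98fa0)))))) (a (v (nat_lit 7) (a (v (nat_lit 8) (k (nat_lit 0x9723c))) (v (nat_lit 7) (k (nat_lit 0x98d0c))))) (u (nat_lit 7) (u (nat_lit 9) (k (nat_lit 0x12fa20)))))) (a (a (v (nat_lit 6) (a (u (nat_lit 9) (k (nat_lit 0x30a33e))) (v (nat_lit 6) (k (nat_lit 0x98f1c))))) (u (nat_lit 6) (v (nat_lit 6) (k (nat_lit 0x341bdd48))))) (a (v (nat_lit 5) (a (v (nat_lit 9) (k (nat_lit 0x9a260))) (v (nat_lit 5) (k (nat_lit 0x98de4))))) (u (nat_lit 5) (v (nat_lit 6) (k (nat_lit 0x374f64c)))))))) (v (nat_lit 4)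 (a (a (u (nat_lit 9) (v (nat_lit 9) (k (nat_lit 0x9a080)))) (a (v (nat_lit 8) (u (nat_lit 9) (k (nat_lit 0x1324f8)))) (u (nat_lit 7) (v (nat_lit 9) (k (nat_lit 0x9750c)))))) (a (a (v (nat_lit 6) (u (nat_lit 9) (k (nat_lit 0x99000)))) (v (nat_lit 5) (a (u (nat_lit 8) (k (nat_lit 0x98ef8))) (u (nat_lit 7) (k (nat_lit 0x9723c)))))) (a (u (nat_lit 5) (a (v (nat_lit 7) (k (nat_lit 0x9ad28))) (v (nat_lit 6) (k (nat_lit 0x98ef2))))) (v (nat_lit 4) (a (u (nat_lit 8) (k (nat_lit 0x98f64))) (a (u (nat_lit 7) (k (nat_lit 0x98fa0))) (u (nat_lit 6) (k (nat_lit 0x986b8)))))))))))) (a (a (u (nat_lit 4) (a (a (a (v (nat_lit 9) (v (nat_lit 9) (k (nat_lit 0x97b00)))) (v (nat_lit 8) (v (nat_lit 8) (k (nat_lit 0x98f64))))) (a (v (nat_lit 7) (v (nat_lit 8) (k (nat_lit 0x98ef8)))) (v (nat_lit 6) (a (a (v (nat_lit 9) (k (nat_lit 0x99000))) (v (nat_lit 8) (k (nat_lit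 0x99060)))) (a (v (nat_lit 7) (k (nat_lit 0x98ec8))) (v (nat_lit 6) (k (nat_lit 0x98e8c)))))))) (a (a (u (nat_lit 6) (v (nat_lit 6) (k (nat_lit 0x9b37c)))) (v (nat_lit 5) (a (v (nat_lit 9) (k (nat_lit 0x9750c))) (a (u (nat_lit 9) (k (nat_lit 0x96f9c))) (v (nat_lit 5) (k (nat_lit 0x98d30))))))) (a (u (nat_lit 5) (v (nat_lit 6) (k (nat_lit 0x9956a)))) (v (nat_lit 4) (a (v (nat_lit 9) (k (nat_lit 0x9a260))) (v (nat_lit 5) (k (nat_lit 0x131d18))))))))) (v (nat_lit 3) (a (a (a (v (nat_lit 8) (u (nat_lit 9) (k (nat_lit 0x99000)))) (u (nat_lit 8) (v (nat_lit 9) (k (nat_lit 0x99000))))) (a (v (nat_lit 7) (u (nat_lit 9) (k (nat_lit 0x98e08)))) (a (u (nat_lit 7) (a (a (u (nat_lit 9) (k (nat_lit 0x30a33e))) (v (nat_lit 8) (k (nat_lit 0x98ef2)))) (a (u (nat_lit 8) (k (nat_lit 0x9956a))) (u (nat_lit 7) (k (nat_lit 0x374f64c)))))) (v (nat_lit 6) (a (u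 (nat_lit 8) (k (nat_lit 0x98e08))) (u (nat_lit 7) (k (nat_lit 0x98efe)))))))) (a (a (u (nat_lit 6) (a (a (v (nat_lit 9) (k (nat_lit 0x98ef2))) (a (u (nat_lit 9) (k (nat_lit 0x9956a))) (u (nat_lit 8) (k (nat_lit 0x30a33e))))) (a (v (nat_lit 7) (k (nat_lit 0x98efe))) (a (u (nat_lit 7) (k (nat_lit 0xa8d479c))) (u (nat_lit 6) (k (nat_lit 0x374f64c))))))) (a (v (nat_lit 5) (a (u (nat_lit 9) (k (nat_lit 0x98ec8))) (u (nat_lit 8) (k (nat_lit 0x98ec8))))) (u (nat_lit 5) (a (v (nat_lit 7) (k (nat_lit 0x98efe))) (v (nat_lit 6) (k (nat_lit 0x98efe))))))) (a (v (nat_lit 4) (a (u (nat_lit 9) (k (nat_lit 0x98e92))) (a (u (nat_lit 8) (k (nat_lit 0x99060))) (u (nat_lit 6) (k (nat_lit 0x9905a)))))) (a (u (nat_lit 4) (v (nat_lit 6) (k (nat_lit 0x98e08)))) (v (nat_lit 3) (a (a (u (nat_lit 9) (k (nat_lit 0x9908a))) (u (nat_lit 8) (k (nat_lit 0x98e8c)))) (a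 (u (nat_lit 7) (k (nat_lit 0x98f1c))) (a (u (nat_lit 6) (k (nat_lit 0x98fe2))) (u (nat_lit 4) (k (nat_lit 0x98364))))))))))))) (a (u (nat_lit 3) (a (a (a (v (nat_lit 9) (v (nat_lit 9) (k (nat_lit 0x996a8)))) (v (nat_lit 8) (v (nat_lit 8) (k (nat_lit 0x986b8))))) (a (v (nat_lit 6) (a (a (v (nat_lit 9) (k (nat_lit 0x98ef2))) (u (nat_lit 9) (k (nat_lit 0x9956a)))) (a (v (nat_lit 8) (k (nat_lit 0x9905a))) (v (nat_lit 6) (k (nat_lit 0x98fe2)))))) (a (u (nat_lit 6) (v (nat_lit 6) (k (nat_lit 0x154e350a)))) (v (nat_lit 5) (a (v (nat_lit 6) (k (nat_lit 0x98efe))) (v (nat_lit 5) (k (nat_lit 0x98d6c)))))))) (a (a (u (nat_lit 5) (v (nat_lit 6) (k (nat_lit 0xa8d479c)))) (v (nat_lit 4) (a (v (nat_lit 9) (k (nat_lit 0x99eb8))) (a (v (nat_lit 7) (k (nat_lit 0x97f56))) (v (nat_lit 5) (k (nat_lit 0x9723c))))))) (a (u (nat_lit 4) (v (nat_lit 6) (k (nat_lit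 0x30a33e)))) (a (v (nat_lit 3) (a (a (v (nat_lit 9) (k (nat_lit 0x988fe))) (a (u (nat_lit 9) (k (nat_lit 0x99f30))) (u (nat_lit 8) (k (nat_lit 0x9b37c))))) (a (u (nat_lit 7) (k (nat_lit 0x341bdd48))) (a (u (nat_lit 6) (k (nat_lit 0x154e350a))) (v (nat_lit 3) (k (nat_lit 0x989dc))))))) (u (nat_lit 3) (v (nat_lit 6) (k (nat_lit 0x374f64c))))))))) (v (nat_lit 2) (a (a (a (u (nat_lit 9) (v (nat_lit 9) (k (nat_lit 0x131b80)))) (a (u (nat_lit 8) (a (v (nat_lit 9) (k (nat_lit 0x98ee0))) (v (nat_lit 8) (k (nat_lit 0x9933c))))) (v (nat_lit 7) (a (u (nat_lit 9) (k (nat_lit 0x98f28))) (u (nat_lit 8) (k (nat_lit 0x98d30))))))) (a (u (nat_lit 7) (a (v (nat_lit 9) (k (nat_lit 0x97b00))) (v (nat_lit 7) (k (nat_lit 0x98e2c))))) (a (v (nat_lit 6) (u (nat_lit 9) (k (nat_lit 0x98e8c)))) (u (nat_lit 6) (a (v (nat_lit 7) (k (nat_lit 0x98d0c))) (v (nat_lit 6)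 (k (nat_lit 0x98f5e)))))))) (a (a (v (nat_lit 5) (a (u (nat_lit 9) (k (nat_lit 0x98f28))) (u (nat_lit 7) (k (nat_lit 0x98d6c))))) (a (u (nat_lit 5) (a (a (v (nat_lit 9) (k (nat_lit 0x97b00))) (v (nat_lit 8) (k (nat_lit 0x992b8)))) (a (v (nat_lit 7) (k (nat_lit 0x98d6c))) (a (v (nat_lit 6) (k (nat_lit 0x98fe2))) (v (nat_lit 5) (k (nat_lit 0x98e2c))))))) (v (nat_lit 4) (a (u (nat_lit 8) (k (nat_lit 0x9903c))) (a (u (nat_lit 7) (k (nat_lit 0x992b8))) (u (nat_lit 6) (k (nat_lit 0x99600)))))))) (a (a (u (nat_lit 4) (a (a (v (nat_lit 9) (k (nat_lit 0x98ee0))) (v (nat_lit 8) (k (nat_lit 0x9903c)))) (a (v (nat_lit 6) (k (nat_lit 0x9908a))) (a (v (nat_lit 5) (k (nat_lit 0x98d30))) (v (nat_lit 4) (k (nat_lit 0x9933c))))))) (v (nat_lit 3) (a (a (u (nat_lit 9) (k (nat_lit 0x98e8c))) (u (nat_lit 8) (k (nat_lit 0x9908a)))) (a (u (nat_lit 7) (k (nat_lit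 0x98fe2))) (u (nat_lit 6) (k (nat_lit 0x98f1c))))))) (a (u (nat_lit 3) (a (a (v (nat_lit 8) (k (nat_lit 0x99600))) (v (nat_lit 6) (k (nat_lit 0x98f1c)))) (a (v (nat_lit 5) (k (nat_lit 0x98d0c))) (v (nat_lit 3) (k (nat_lit 0x98f5e)))))) (v (nat_lit 2) (a (u (nat_lit 6) (k (nat_lit 0x98ba4))) (u (nat_lit 3) (k (nat_lit 0x98ba4)))))))))))))))))) (a (a (u (nat_lit 2) (a (a (a (v (nat_lit 8) (a (v (nat_lit 9) (v (nat_lit 9) (k (nat_lit 0x98f28)))) (v (nat_lit 8) (a (u (nat_lit 9) (k (nat_lit 0x98dfc))) (v (nat_lit 8) (k (nat_lit 0x98cf4))))))) (v (nat_lit 7) (a (u (nat_lit 9) (v (nat_lit 9) (k (nat_lit 0x99000)))) (v (nat_lit 7) (u (nat_lit 9) (k (nat_lit 0x98dfc))))))) (a (v (nat_lit 6) (a (a (v (nat_lit 9) (v (nat_lit 9) (k (nat_lit 0x986b8)))) (v (nat_lit 8) (a (v (nat_lit 9) (k (nat_lit 0x9830a))) (v (nat_lit 8) (k (nat_lit 0x991a4))))))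 (a (v (nat_lit 7) (a (v (nat_lit 8) (k (nat_lit 0x9ad28))) (v (nat_lit 7) (k (nat_lit 0x98d6c))))) (v (nat_lit 6) (a (a (v (nat_lit 9) (k (nat_lit 0x99600))) (v (nat_lit 8) (k (nat_lit 0x99a8c)))) (a (v (nat_lit 7) (k (nat_lit 0x98d0c))) (v (nat_lit 6) (k (nat_lit 0x98ba4))))))))) (a (v (nat_lit 5) (a (a (u (nat_lit 9) (v (nat_lit 9) (k (nat_lit 0x99000)))) (v (nat_lit 7) (a (v (nat_lit 9) (k (nat_lit 0x1324f8))) (u (nat_lit 9) (k (nat_lit 0x13428c)))))) (a (v (nat_lit 6) (a (a (v (nat_lit 9) (k (nat_lit 0x9905a))) (v (nat_lit 8) (k (nat_lit 0x99f96)))) (a (v (nat_lit 7) (k (nat_lit 0x98efe))) (a (u (nat_lit 7) (k (nat_lit 0xa8d479c))) (v (nat_lit 6) (k (nat_lit 0x98f1c))))))) (a (u (nat_lit 6) (v (nat_lit 6) (k (nat_lit 0x341bdd48)))) (v (nat_lit 5) (a (u (nat_lit 9) (k (nat_lit 0x98dfc))) (a (v (nat_lit 8) (k (nat_lit 0x990d8))) (v (nat_lit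 6) (k (nat_lit 0x98fe2)))))))))) (u (nat_lit 5) (a (v (nat_lit 8) (v (nat_lit 9) (k (nat_lit 0x96f9c)))) (v (nat_lit 5) (v (nat_lit 6) (k (nat_lit 0x154e350a))))))))) (a (a (v (nat_lit 4) (a (a (v (nat_lit 9) (v (nat_lit 9) (k (nat_lit 0x98f28)))) (a (v (nat_lit 8) (a (v (nat_lit 9) (k (nat_lit 0x135ef4))) (u (nat_lit 9) (k (nat_lit 0x13428c))))) (v (nat_lit 7) (v (nat_lit 7) (k (nat_lit 0x990d8)))))) (a (u (nat_lit 7) (v (nat_lit 9) (k (nat_lit 0x96f9c)))) (a (v (nat_lit 5) (v (nat_lit 6) (k (nat_lit 0x98ef2)))) (v (nat_lit 4) (a (u (nat_lit 9) (k (nat_lit 0x98dfc))) (a (v (nat_lit 6) (k (nat_lit 0x996a8))) (v (nat_lit 4) (k (nat_lit 0x98cf4)))))))))) (a (u (nat_lit 4) (a (u (nat_lit 8) (v (nat_lit 9) (k (nat_lit 0x12fa20)))) (v (nat_lit 5) (v (nat_lit 6) (k (nat_lit 0x9956a)))))) (v (nat_lit 3) (a (a (a (v (nat_lit 9) (v (nat_lit 9) (k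 (nat_lit 0x986b8)))) (v (nat_lit 8) (v (nat_lit 8) (k (nat_lit 0x996a8))))) (a (v (nat_lit 7) (a (a (v (nat_lit 9) (k (nat_lit 0x9905a))) (v (nat_lit 8) (k (nat_lit 0x98ef2)))) (a (u (nat_lit 8) (k (nat_lit 0x9956a))) (v (nat_lit 7) (k (nat_lit 0x98fe2)))))) (u (nat_lit 7) (v (nat_lit 7) (k (nat_lit 0x154e350a)))))) (a (a (v (nat_lit 5) (a (v (nat_lit 7) (k (nat_lit 0x98efe))) (v (nat_lit 5) (k (nat_lit 0x98d6c))))) (u (nat_lit 5) (v (nat_lit 7) (k (nat_lit 0xa8d479c))))) (a (v (nat_lit 4) (a (a (v (nat_lit 9) (k (nat_lit 0x9830a))) (v (nat_lit 7) (k (nat_lit 0x99f96)))) (a (v (nat_lit 5) (k (nat_lit 0x9ad28))) (v (nat_lit 4) (k (nat_lit 0x991a4)))))) (v (nat_lit 3) (a (a (v (nat_lit 9) (k (nat_lit 0x99600))) (v (nat_lit 7) (k (nat_lit 0x98f1c)))) (a (v (nat_lit 5) (k (nat_lit 0x98d0c))) (a (v (nat_lit 4) (k (nat_lit 0x99a8c))) (v (nat_lit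 3) (k (nat_lit 0x98ba4))))))))))))) (a (u (nat_lit 3) (v (nat_lit 3) (v (nat_lit 7) (k (nat_lit 0x341bdd48))))) (a (v (nat_lit 2) (a (a (a (v (nat_lit 9) (v (nat_lit 9) (k (nat_lit 0x131b80)))) (a (v (nat_lit 8) (u (nat_lit 9) (k (nat_lit 0x99000)))) (v (nat_lit 7) (a (v (nat_lit 9) (k (nat_lit 0x9a080))) (v (nat_lit 7) (k (nat_lit 0x98e2c))))))) (a (v (nat_lit 6) (a (u (nat_lit 9) (k (nat_lit 0x9b37c))) (a (v (nat_lit 8) (k (nat_lit 0x98f28))) (v (nat_lit 6) (k (nat_lit 0x98f5e)))))) (a (u (nat_lit 6) (v (nat_lit 6) (k (nat_lit 0x36fd4c1c)))) (v (nat_lit 5) (a (v (nat_lit 9) (k (nat_lit 0x9a080))) (v (nat_lit 5) (k (nat_lit 0x98e2c)))))))) (a (a (u (nat_lit 5) (v (nat_lit 6) (k (nat_lit 0x154e350a)))) (a (v (nat_lit 4) (a (u (nat_lit 9) (k (nat_lit 0x99000))) (v (nat_lit 6) (k (nat_lit 0x988fe))))) (u (nat_lit 4) (v (nat_lit 6) (k (nat_lit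 0x99f30)))))) (a (v (nat_lit 3) (a (a (u (nat_lit 9) (k (nat_lit 0x9b37c))) (a (v (nat_lit 8) (k (nat_lit 0x988fe))) (u (nat_lit 8) (k (nat_lit 0x99f30))))) (a (a (u (nat_lit 7) (k (nat_lit 0x154e350a))) (u (nat_lit 6) (k (nat_lit 0x341bdd48)))) (a (v (nat_lit 4) (k (nat_lit 0x98f28))) (v (nat_lit 3) (k (nat_lit 0x98f5e))))))) (a (u (nat_lit 3) (a (v (nat_lit 6) (k (nat_lit 0x341bdd48))) (v (nat_lit 3) (k (nat_lit 0x36fd4c1c))))) (v (nat_lit 2) (a (a (a (v (nat_lit 9) (k (nat_lit 0x1302f0))) (v (nat_lit 8) (k (nat_lit 0x98fb8)))) (a (v (nat_lit 7) (k (nat_lit 0x98de4))) (v (nat_lit 6) (k (nat_lit 0x989dc))))) (a (a (v (nat_lit 5) (k (nat_lit 0x98de4))) (v (nat_lit 4) (k (nat_lit 0x98fb8)))) (a (v (nat_lit 3) (k (nat_lit 0x989dc))) (v (nat_lit 2) (k (nat_lit 0x131a30)))))))))))) (u (nat_lit 2) (a (v (nat_lit 5) (v (nat_lit 6) (k (nat_lit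 0x374f64c)))) (a (v (nat_lit 3) (v (nat_lit 7) (k (nat_lit 0x374f64c)))) (v (nat_lit 2) (v (nat_lit 9) (k (nat_lit 0x130728)))))))))))) (v (nat_lit 1) (a (a (a (a (u (nat_lit 9) (v (nat_lit 9) (v (nat_lit 9) (k (nat_lit 0x989dc))))) (v (nat_lit 8) (v (nat_lit 8) (u (nat_lit 9) (k (nat_lit 0x98d6c)))))) (a (u (nat_lit 8) (v (nat_lit 8) (v (nat_lit 8) (k (nat_lit 0x98de4))))) (v (nat_lit 7) (a (u (nat_lit 9) (v (nat_lit 9) (k (nat_lit 0x988fe)))) (a (u (nat_lit 8) (v (nat_lit 8) (k (nat_lit 0x9a260)))) (v (nat_lit 7) (a (u (nat_lit 9) (k (nat_lit 0x996a8))) (u (nat_lit 8) (k (nat_lit 0x98ee0)))))))))) (a (a (u (nat_lit 7) (a (a (v (nat_lit 9) (v (nat_lit 9) (k (nat_lit 0x9908a)))) (u (nat_lit 9) (v (nat_lit 9) (k (nat_lit 0x99f30))))) (a (v (nat_lit 8) (v (nat_lit 9) (k (nat_lit 0x98ec8)))) (a (v (nat_lit 7) (v (nat_lit 7) (k (nat_lit 0x1302f0))))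 (u (nat_lit 7) (v (nat_lit 7) (k (nat_lit 0x130728)))))))) (v (nat_lit 6) (a (v (nat_lit 8) (u (nat_lit 9) (k (nat_lit 0x9723c)))) (a (v (nat_lit 7) (u (nat_lit 9) (k (nat_lit 0x99eb8)))) (u (nat_lit 7) (a (v (nat_lit 9) (k (nat_lit 0x98e92))) (v (nat_lit 7) (k (nat_lit 0x9a080))))))))) (a (u (nat_lit 6) (a (a (v (nat_lit 9) (v (nat_lit 9) (k (nat_lit 0x98364)))) (v (nat_lit 8) (v (nat_lit 8) (k (nat_lit 0x98d30))))) (a (v (nat_lit 7) (a (v (nat_lit 8) (k (nat_lit 0x9750c))) (v (nat_lit 7) (k (nat_lit 0x97b00))))) (a (u (nat_lit 7) (v (nat_lit 8) (k (nat_lit 0x96f9c)))) (v (nat_lit 6) (a (v (nat_lit 8) (k (nat_lit 0x131d18))) (v (nat_lit 7) (k (nat_lit 0x9a260))))))))) (v (nat_lit 5) (a (a (u (nat_lit 9) (v (nat_lit 9) (k (nat_lit 0x98f28)))) (a (v (nat_lit 8) (u (nat_lit 9) (k (nat_lit 0x9ad28)))) (u (nat_lit 7) (a (v (nat_lit 9) (k (nat_lit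 0x99060))) (v (nat_lit 8) (k (nat_lit 0x9830a))))))) (a (v (nat_lit 6) (a (u (nat_lit 9) (k (nat_lit 0x98f40))) (u (nat_lit 7) (k (nat_lit 0x9905a))))) (a (u (nat_lit 6) (v (nat_lit 9) (k (nat_lit 0x98f40)))) (v (nat_lit 5) (a (u (nat_lit 9) (k (nat_lit 0x991a4))) (u (nat_lit 7) (k (nat_lit 0x99600)))))))))))) (a (a (a (u (nat_lit 5) (a (v (nat_lit 7) (v (nat_lit 8) (k (nat_lit 0x99eb8)))) (a (v (nat_lit 6) (a (v (nat_lit 9) (k (nat_lit 0x98f40))) (a (v (nat_lit 8) (k (nat_lit 0x98ef8))) (v (nat_lit 6) (k (nat_lit 0x99a8c)))))) (v (nat_lit 5) (a (v (nat_lit 7) (k (nat_lit 0x988fe))) (a (v (nat_lit 6) (k (nat_lit 0x98f28))) (v (nat_lit 5) (k (nat_lit 0x98fb8))))))))) (v (nat_lit 4) (a (a (a (u (nat_lit 9) (u (nat_lit 9) (k (nat_lit 0x374f64c)))) (v (nat_lit 8) (u (nat_lit 9) (k (nat_lit 0x98efe))))) (a (u (nat_lit 8) (a (v (nat_lit 9) (k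 (nat_lit 0x98efe))) (a (u (nat_lit 9) (k (nat_lit 0xa8d479c))) (u (nat_lit 8) (k (nat_lit 0x374f64c)))))) (v (nat_lit 7) (u (nat_lit 9) (k (nat_lit 0x98ef2)))))) (a (a (u (nat_lit 7) (a (u (nat_lit 9) (k (nat_lit 0x9956a))) (a (v (nat_lit 8) (k (nat_lit 0x98e08))) (u (nat_lit 8) (k (nat_lit 0x30a33e)))))) (v (nat_lit 6) (a (u (nat_lit 8) (k (nat_lit 0x98ef2))) (u (nat_lit 7) (k (nat_lit 0x99000)))))) (a (u (nat_lit 6) (a (a (v (nat_lit 9) (k (nat_lit 0x98e08))) (u (nat_lit 9) (k (nat_lit 0x30a33e)))) (a (u (nat_lit 8) (k (nat_lit 0x9956a))) (v (nat_lit 7) (k (nat_lit 0x99000)))))) (a (v (nat_lit 5) (a (u (nat_lit 9) (k (nat_lit 0x99f96))) (u (nat_lit 8) (k (nat_lit 0x99f96))))) (v (nat_lit 4) (a (a (u (nat_lit 9) (k (nat_lit 0x98fe2))) (u (nat_lit 8) (k (nat_lit 0x98f1c)))) (a (u (nat_lit 7) (k (nat_lit 0x9908a))) (u (nat_lit 6) (k (nat_lit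 0x98e8c)))))))))))) (a (u (nat_lit 4) (a (a (a (v (nat_lit 9) (v (nat_lit 9) (k (nat_lit 0x98fe2)))) (u (nat_lit 9) (v (nat_lit 9) (k (nat_lit 0x154e350a))))) (a (v (nat_lit 7) (a (v (nat_lit 9) (k (nat_lit 0x98ef2))) (v (nat_lit 7) (k (nat_lit 0x996a8))))) (u (nat_lit 7) (v (nat_lit 9) (k (nat_lit 0x9956a)))))) (a (a (v (nat_lit 6) (a (v (nat_lit 9) (k (nat_lit 0x9905a))) (v (nat_lit 6) (k (nat_lit 0x986b8))))) (v (nat_lit 5) (a (v (nat_lit 8) (k (nat_lit 0x97f56))) (a (v (nat_lit 6) (k (nat_lit 0x99060))) (v (nat_lit 5) (k (nat_lit 0x9903c))))))) (a (v (nat_lit 4) (a (a (u (nat_lit 9) (k (nat_lit 0x154e350a))) (a (u (nat_lit 8) (k (nat_lit 0x341bdd48))) (v (nat_lit 7) (k (nat_lit 0x988fe))))) (a (u (nat_lit 7) (k (nat_lit 0x99f30))) (a (u (nat_lit 6) (k (nat_lit 0x9b37c))) (v (nat_lit 4) (k (nat_lit 0x989dc))))))) (u (nat_lit 4) (v (nat_lit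 9) (k (nat_lit 0x374f64c)))))))) (v (nat_lit 3) (a (a (a (u (nat_lit 8) (a (v (nat_lit 9) (k (nat_lit 0x1324f8))) (v (nat_lit 8) (k (nat_lit 0x9a080))))) (v (nat_lit 7) (u (nat_lit 8) (k (nat_lit 0x99000))))) (a (u (nat_lit 6) (v (nat_lit 8) (k (nat_lit 0x9750c)))) (v (nat_lit 5) (a (u (nat_lit 9) (k (nat_lit 0x98ef8))) (u (nat_lit 6) (k (nat_lit 0x9723c))))))) (a (a (u (nat_lit 5) (a (v (nat_lit 7) (k (nat_lit 0x98ef2))) (v (nat_lit 6) (k (nat_lit 0x9ad28))))) (v (nat_lit 4) (a (u (nat_lit 8) (k (nat_lit 0x9905a))) (a (u (nat_lit 7) (k (nat_lit 0x99060))) (u (nat_lit 6) (k (nat_lit 0x98e92))))))) (a (u (nat_lit 4) (a (a (v (nat_lit 9) (k (nat_lit 0x99f96))) (v (nat_lit 6) (k (nat_lit 0x9830a)))) (a (v (nat_lit 5) (k (nat_lit 0x98ef8))) (v (nat_lit 4) (k (nat_lit 0x98f28)))))) (v (nat_lit 3) (a (a (u (nat_lit 9) (k (nat_lit 0x9903c))) (u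 (nat_lit 7) (k (nat_lit 0x99600)))) (a (u (nat_lit 6) (k (nat_lit 0x992b8))) (u (nat_lit 4) (k (nat_lit 0x991a4)))))))))))) (a (a (u (nat_lit 3) (a (a (v (nat_lit 8) (a (v (nat_lit 9) (k (nat_lit 0x135ef4))) (v (nat_lit 8) (k (nat_lit 0x98f28))))) (a (u (nat_lit 8) (v (nat_lit 9) (k (nat_lit 0x13428c)))) (v (nat_lit 6) (v (nat_lit 6) (k (nat_lit 0x990d8)))))) (a (a (u (nat_lit 6) (v (nat_lit 8) (k (nat_lit 0x96f9c)))) (v (nat_lit 5) (v (nat_lit 7) (k (nat_lit 0x98ef2))))) (a (v (nat_lit 4) (v (nat_lit 8) (k (nat_lit 0x98e08)))) (v (nat_lit 3) (a (u (nat_lit 8) (k (nat_lit 0x99000))) (a (v (nat_lit 7) (k (nat_lit 0x988fe))) (v (nat_lit 3) (k (nat_lit 0x98fb8)))))))))) (v (nat_lit 2) (a (a (a (v (nat_lit 7) (u (nat_lit 8) (k (nat_lit 0x9750c)))) (u (nat_lit 7) (a (v (nat_lit 9) (k (nat_lit 0x99000))) (v (nat_lit 7) (k (nat_lit 0x9a080))))))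 (a (v (nat_lit 6) (u (nat_lit 7) (k (nat_lit 0x1324f8)))) (a (v (nat_lit 5) (a (u (nat_lit 9) (k (nat_lit 0x9830a))) (a (u (nat_lit 8) (k (nat_lit 0x98ff4))) (u (nat_lit 6) (k (nat_lit 0x97f56)))))) (u (nat_lit 5) (a (v (nat_lit 8) (k (nat_lit 0x98ff4))) (v (nat_lit 6) (k (nat_lit 0x99f96)))))))) (a (a (v (nat_lit 4) (a (u (nat_lit 9) (k (nat_lit 0x9905a))) (a (u (nat_lit 7) (k (nat_lit 0x98e92))) (u (nat_lit 6) (k (nat_lit 0x99060)))))) (u (nat_lit 4) (a (v (nat_lit 8) (k (nat_lit 0x97f56))) (v (nat_lit 7) (k (nat_lit 0x99eb8)))))) (a (v (nat_lit 3) (a (a (u (nat_lit 9) (k (nat_lit 0x99060))) (u (nat_lit 8) (k (nat_lit 0x98e92)))) (a (u (nat_lit 7) (k (nat_lit 0x9905a))) (u (nat_lit 4) (k (nat_lit 0x98f40)))))) (a (u (nat_lit 3) (a (a (v (nat_lit 8) (k (nat_lit 0x9830a))) (v (nat_lit 6) (k (nat_lit 0x99f96)))) (a (v (nat_lit 5) (k (nat_lit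 0x9ad28))) (a (v (nat_lit 4) (k (nat_lit 0x98f40))) (v (nat_lit 3) (k (nat_lit 0x98f28))))))) (v (nat_lit 2) (a (a (u (nat_lit 9) (k (nat_lit 0x986b8))) (u (nat_lit 8) (k (nat_lit 0x98fa0)))) (a (u (nat_lit 6) (k (nat_lit 0x98f64))) (a (u (nat_lit 5) (k (nat_lit 0x990d8))) (u (nat_lit 3) (k (nat_lit 0x99a8c))))))))))))) (a (u (nat_lit 2) (a (a (a (v (nat_lit 9) (v (nat_lit 9) (k (nat_lit 0x98e8c)))) (u (nat_lit 9) (v (nat_lit 9) (k (nat_lit 0x9b37c))))) (a (v (nat_lit 8) (v (nat_lit 9) (k (nat_lit 0x98ec8)))) (a (v (nat_lit 7) (a (v (nat_lit 9) (k (nat_lit 0x99000))) (v (nat_lit 7) (k (nat_lit 0x97b00))))) (v (nat_lit 6) (a (v (nat_lit 9) (k (nat_lit 0x99060))) (a (v (nat_lit 8) (k (nat_lit 0x98ef8))) (v (nat_lit 6) (k (nat_lit 0x98f64))))))))) (a (a (v (nat_lit 5) (a (v (nat_lit 9) (k (nat_lit 0x98e92))) (a (v (nat_lit 8) (k (nat_lit 0x98ff4)))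 (v (nat_lit 5) (k (nat_lit 0x992b8)))))) (v (nat_lit 4) (a (v (nat_lit 9) (k (nat_lit 0x98e08))) (v (nat_lit 4) (k (nat_lit 0x98364)))))) (a (u (nat_lit 4) (v (nat_lit 9) (k (nat_lit 0x30a33e)))) (a (v (nat_lit 3) (a (a (v (nat_lit 8) (k (nat_lit 0x99eb8))) (v (nat_lit 6) (k (nat_lit 0x97f56)))) (a (v (nat_lit 5) (k (nat_lit 0x9723c))) (v (nat_lit 4) (k (nat_lit 0x98f40)))))) (v (nat_lit 2) (v (nat_lit 7) (k (nat_lit 0x9a260))))))))) (v (nat_lit 1) (a (a (a (u (nat_lit 9) (v (nat_lit 9) (k (nat_lit 0x98f5e)))) (a (v (nat_lit 8) (u (nat_lit 9) (k (nat_lit 0x98d0c)))) (u (nat_lit 8) (v (nat_lit 8) (k (nat_lit 0x98e2c)))))) (a (a (v (nat_lit 7) (u (nat_lit 8) (k (nat_lit 0x97b00)))) (u (nat_lit 7) (a (v (nat_lit 9) (k (nat_lit 0x98e8c))) (a (v (nat_lit 8) (k (nat_lit 0x98f28))) (v (nat_lit 7) (k (nat_lit 0x131b80))))))) (a (u (nat_lit 6) (a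 (v (nat_lit 8) (k (nat_lit 0x98d30))) (a (v (nat_lit 7) (k (nat_lit 0x98ee0))) (v (nat_lit 6) (k (nat_lit 0x9933c)))))) (v (nat_lit 5) (a (u (nat_lit 9) (k (nat_lit 0x99a8c))) (a (u (nat_lit 8) (k (nat_lit 0x990d8))) (u (nat_lit 7) (k (nat_lit 0x986b8))))))))) (a (a (a (u (nat_lit 5) (a (v (nat_lit 9) (k (nat_lit 0x98364))) (a (v (nat_lit 7) (k (nat_lit 0x996a8))) (v (nat_lit 6) (k (nat_lit 0x991a4)))))) (v (nat_lit 4) (a (a (u (nat_lit 9) (k (nat_lit 0x98f1c))) (u (nat_lit 8) (k (nat_lit 0x98fe2)))) (a (u (nat_lit 7) (k (nat_lit 0x98e8c))) (u (nat_lit 6) (k (nat_lit 0x9908a))))))) (a (u (nat_lit 4) (a (a (v (nat_lit 9) (k (nat_lit 0x98f1c))) (v (nat_lit 6) (k (nat_lit 0x99600)))) (a (v (nat_lit 5) (k (nat_lit 0x98f64))) (v (nat_lit 4) (k (nat_lit 0x98f5e)))))) (v (nat_lit 3) (a (a (u (nat_lit 9) (k (nat_lit 0x98f64))) (u (nat_lit 7) (k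 (nat_lit 0x986b8)))) (a (u (nat_lit 6) (k (nat_lit 0x98fa0))) (u (nat_lit 4) (k (nat_lit 0x99a8c)))))))) (a (a (u (nat_lit 3) (a (u (nat_lit 8) (k (nat_lit 0x98dfc))) (a (v (nat_lit 7) (k (nat_lit 0x996a8))) (v (nat_lit 4) (k (nat_lit 0x98364)))))) (v (nat_lit 2) (a (a (u (nat_lit 9) (k (nat_lit 0x99600))) (u (nat_lit 8) (k (nat_lit 0x992b8)))) (a (u (nat_lit 6) (k (nat_lit 0x9903c))) (u (nat_lit 3) (k (nat_lit 0x991a4))))))) (a (u (nat_lit 2) (a (a (v (nat_lit 9) (k (nat_lit 0x9908a))) (v (nat_lit 7) (k (nat_lit 0x98ee0)))) (a (v (nat_lit 6) (k (nat_lit 0x9903c))) (a (v (nat_lit 5) (k (nat_lit 0x98fa0))) (v (nat_lit 2) (k (nat_lit 0x9933c))))))) (v (nat_lit 1) (a (a (u (nat_lit 9) (k (nat_lit 0x98ba4))) (u (nat_lit 5) (k (nat_lit 0x98cf4)))) (a (u (nat_lit 4) (k (nat_lit 0x98ba4))) (u (nat_lit 3) (k (nat_lit 0x98cf4))))))))))))))))) (a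 (u (nat_lit 1) (a (a (a (v (nat_lit 9) (v (nat_lit 9) (v (nat_lit 9) (k (nat_lit 0x98ba4))))) (a (v (nat_lit 8) (a (v (nat_lit 9) (v (nat_lit 9) (k (nat_lit 0x98d0c)))) (v (nat_lit 8) (v (nat_lit 9) (k (nat_lit 0x98d6c)))))) (v (nat_lit 7) (a (v (nat_lit 9) (v (nat_lit 9) (k (nat_lit 0x99600)))) (v (nat_lit 7) (v (nat_lit 9) (k (nat_lit 0x986b8)))))))) (a (a (u (nat_lit 7) (a (v (nat_lit 8) (v (nat_lit 8) (k (nat_lit 0x98dfc)))) (v (nat_lit 7) (v (nat_lit 8) (k (nat_lit 0x99000)))))) (v (nat_lit 6) (a (a (v (nat_lit 9) (v (nat_lit 9) (k (nat_lit 0x99a8c)))) (v (nat_lit 8) (v (nat_lit 9) (k (nat_lit 0x9ad28))))) (a (v (nat_lit 7) (a (v (nat_lit 9) (k (nat_lit 0x9830a))) (v (nat_lit 7) (k (nat_lit 0x98f28))))) (v (nat_lit 6) (a (v (nat_lit 9) (k (nat_lit 0x991a4))) (a (u (nat_lit 7) (k (nat_lit 0x98dfc))) (v (nat_lit 6) (k (nat_lit 0x98cf4))))))))))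 (a (v (nat_lit 5) (a (a (v (nat_lit 8) (a (v (nat_lit 9) (k (nat_lit 0x9723c))) (v (nat_lit 8) (k (nat_lit 0x992b8))))) (a (v (nat_lit 7) (a (v (nat_lit 8) (k (nat_lit 0x98e92))) (v (nat_lit 7) (k (nat_lit 0x98e8c))))) (u (nat_lit 7) (v (nat_lit 7) (k (nat_lit 0x9b37c)))))) (a (v (nat_lit 6) (a (v (nat_lit 9) (k (nat_lit 0x98f40))) (a (v (nat_lit 7) (k (nat_lit 0x98e08))) (v (nat_lit 6) (k (nat_lit 0x98364)))))) (a (u (nat_lit 6) (v (nat_lit 7) (k (nat_lit 0x30a33e)))) (v (nat_lit 5) (a (v (nat_lit 8) (k (nat_lit 0x98fa0))) (v (nat_lit 7) (k (nat_lit 0x9908a))))))))) (u (nat_lit 5) (v (nat_lit 5) (v (nat_lit 7) (k (nat_lit 0x99f30)))))))) (a (a (a (v (nat_lit 4) (a (a (v (nat_lit 8) (v (nat_lit 8) (k (nat_lit 0x98fe2)))) (a (u (nat_lit 8) (v (nat_lit 8) (k (nat_lit 0x154e350a)))) (v (nat_lit 7) (a (v (nat_lit 8) (k (nat_lit 0x9905a))) (v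 (nat_lit 7) (k (nat_lit 0x986b8))))))) (a (a (v (nat_lit 6) (a (v (nat_lit 8) (k (nat_lit 0x98ef2))) (v (nat_lit 6) (k (nat_lit 0x996a8))))) (u (nat_lit 6) (v (nat_lit 8) (k (nat_lit 0x9956a))))) (a (v (nat_lit 5) (a (v (nat_lit 9) (k (nat_lit 0x97f56))) (a (v (nat_lit 7) (k (nat_lit 0x99060))) (v (nat_lit 5) (k (nat_lit 0x9903c)))))) (v (nat_lit 4) (a (a (v (nat_lit 8) (k (nat_lit 0x98f1c))) (v (nat_lit 7) (k (nat_lit 0x99600)))) (a (v (nat_lit 5) (k (nat_lit 0x98f64))) (v (nat_lit 4) (k (nat_lit 0x98ba4)))))))))) (u (nat_lit 4) (v (nat_lit 4) (v (nat_lit 8) (k (nat_lit 0x341bdd48)))))) (a (v (nat_lit 3) (a (a (a (v (nat_lit 9) (v (nat_lit 9) (k (nat_lit 0x98f64)))) (v (nat_lit 8) (v (nat_lit 8) (k (nat_lit 0x97b00))))) (a (v (nat_lit 7) (a (v (nat_lit 9) (k (nat_lit 0x99060))) (a (v (nat_lit 8) (k (nat_lit 0x99000))) (v (nat_lit 7) (k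 (nat_lit 0x98e8c)))))) (u (nat_lit 7) (v (nat_lit 7) (k (nat_lit 0x9b37c)))))) (a (a (v (nat_lit 6) (a (v (nat_lit 9) (k (nat_lit 0x98ef8))) (v (nat_lit 7) (k (nat_lit 0x98ec8))))) (v (nat_lit 5) (a (v (nat_lit 8) (k (nat_lit 0x9750c))) (a (u (nat_lit 8) (k (nat_lit 0x96f9c))) (v (nat_lit 5) (k (nat_lit 0x98d30))))))) (a (u (nat_lit 5) (v (nat_lit 7) (k (nat_lit 0x9956a)))) (a (v (nat_lit 4) (a (v (nat_lit 9) (k (nat_lit 0x97f56))) (v (nat_lit 6) (k (nat_lit 0x99eb8))))) (v (nat_lit 3) (a (a (v (nat_lit 9) (k (nat_lit 0x9903c))) (v (nat_lit 8) (k (nat_lit 0x98ee0)))) (a (v (nat_lit 7) (k (nat_lit 0x9908a))) (v (nat_lit 5) (k (nat_lit 0x98d30))))))))))) (u (nat_lit 3) (a (a (v (nat_lit 8) (u (nat_lit 9) (k (nat_lit 0x12fa20)))) (v (nat_lit 5) (v (nat_lit 7) (k (nat_lit 0x9956a))))) (a (v (nat_lit 4) (v (nat_lit 8) (k (nat_lit 0x30a33e))))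 (v (nat_lit 3) (v (nat_lit 7) (k (nat_lit 0x99f30))))))))) (a (a (v (nat_lit 2) (a (a (v (nat_lit 8) (v (nat_lit 8) (k (nat_lit 0x990d8)))) (a (v (nat_lit 7) (a (u (nat_lit 8) (k (nat_lit 0x96f9c))) (v (nat_lit 7) (k (nat_lit 0x98f28))))) (v (nat_lit 6) (a (v (nat_lit 7) (k (nat_lit 0x135ef4))) (u (nat_lit 7) (k (nat_lit 0x13428c))))))) (a (a (v (nat_lit 5) (a (v (nat_lit 9) (k (nat_lit 0x99eb8))) (a (v (nat_lit 8) (k (nat_lit 0x98ff4))) (v (nat_lit 7) (k (nat_lit 0x98ec8)))))) (v (nat_lit 4) (a (a (v (nat_lit 8) (k (nat_lit 0x99f96))) (v (nat_lit 7) (k (nat_lit 0x9830a)))) (a (v (nat_lit 5) (k (nat_lit 0x98ef8))) (v (nat_lit 4) (k (nat_lit 0x99a8c))))))) (a (v (nat_lit 3) (a (v (nat_lit 7) (k (nat_lit 0x98e08))) (v (nat_lit 4) (k (nat_lit 0x98f40))))) (v (nat_lit 2) (a (a (v (nat_lit 9) (k (nat_lit 0x996a8))) (u (nat_lit 7) (k (nat_lit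 0x98dfc)))) (a (v (nat_lit 4) (k (nat_lit 0x991a4))) (a (v (nat_lit 3) (k (nat_lit 0x98364))) (v (nat_lit 2) (k (nat_lit 0x98cf4))))))))))) (u (nat_lit 2) (a (u (nat_lit 6) (v (nat_lit 7) (k (nat_lit 0x12fa20)))) (v (nat_lit 3) (v (nat_lit 7) (k (nat_lit 0x30a33e))))))) (a (v (nat_lit 1) (a (a (a (v (nat_lit 9) (v (nat_lit 9) (k (nat_lit 0x98f5e)))) (a (u (nat_lit 9) (v (nat_lit 9) (k (nat_lit 0x36fd4c1c)))) (v (nat_lit 8) (v (nat_lit 8) (k (nat_lit 0x98e2c)))))) (a (v (nat_lit 7) (a (v (nat_lit 8) (k (nat_lit 0x9a080))) (v (nat_lit 7) (k (nat_lit 0x131b80))))) (a (u (nat_lit 7) (v (nat_lit 9) (k (nat_lit 0x9b37c)))) (v (nat_lit 6) (a (v (nat_lit 9) (k (nat_lit 0x98f28))) (u (nat_lit 7) (k (nat_lit 0x99000)))))))) (a (a (v (nat_lit 5) (v (nat_lit 5) (k (nat_lit 0x9933c)))) (a (v (nat_lit 4) (a (a (u (nat_lit 9) (k (nat_lit 0x341bdd48)))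 (a (u (nat_lit 8) (k (nat_lit 0x154e350a))) (u (nat_lit 7) (k (nat_lit 0x9b37c))))) (a (v (nat_lit 6) (k (nat_lit 0x988fe))) (a (u (nat_lit 6) (k (nat_lit 0x99f30))) (v (nat_lit 4) (k (nat_lit 0x98f5e))))))) (u (nat_lit 4) (a (v (nat_lit 9) (k (nat_lit 0x341bdd48))) (v (nat_lit 4) (k (nat_lit 0x36fd4c1c))))))) (a (a (v (nat_lit 3) (a (v (nat_lit 8) (k (nat_lit 0x9a260))) (a (v (nat_lit 5) (k (nat_lit 0x131d18))) (v (nat_lit 3) (k (nat_lit 0x9933c)))))) (v (nat_lit 2) (a (v (nat_lit 9) (k (nat_lit 0x988fe))) (a (u (nat_lit 7) (k (nat_lit 0x99000))) (v (nat_lit 4) (k (nat_lit 0x98f28))))))) (a (u (nat_lit 2) (v (nat_lit 9) (k (nat_lit 0x99f30)))) (v (nat_lit 1) (a (a (v (nat_lit 9) (k (nat_lit 0x989dc))) (a (v (nat_lit 8) (k (nat_lit 0x98de4))) (v (nat_lit 7) (k (nat_lit 0x1302f0))))) (a (a (v (nat_lit 6) (k (nat_lit 0x98fb8))) (v (nat_lit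 4) (k (nat_lit 0x989dc)))) (a (v (nat_lit 2) (k (nat_lit 0x98fb8))) (v (nat_lit 1) (k (nat_lit 0x131a30)))))))))))) (u (nat_lit 1) (a (v (nat_lit 4) (v (nat_lit 8) (k (nat_lit 0x374f64c)))) (v (nat_lit 1) (v (nat_lit 7) (k (nat_lit 0x130728))))))))))) (a (v (nat_lit 0) (a (a (a (a (u (nat_lit 9) (v (nat_lit 9) (v (nat_lit 9) (k (nat_lit 0x989dc))))) (v (nat_lit 8) (a (u (nat_lit 9) (u (nat_lit 9) (k (nat_lit 0x374f64c)))) (v (nat_lit 8) (u (nat_lit 9) (k (nat_lit 0x98fe2))))))) (a (u (nat_lit 8) (a (a (v (nat_lit 9) (v (nat_lit 9) (k (nat_lit 0x98fe2)))) (u (nat_lit 9) (v (nat_lit 9) (k (nat_lit 0x154e350a))))) (a (v (nat_lit 8) (a (u (nat_lit 9) (k (nat_lit 0x154e350a))) (v (nat_lit 8) (k (nat_lit 0x989dc))))) (u (nat_lit 8) (v (nat_lit 9) (k (nat_lit 0x374f64c))))))) (v (nat_lit 7) (a (u (nat_lit 9) (v (nat_lit 9) (k (nat_lit 0x98f28))))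 (a (v (nat_lit 8) (u (nat_lit 9) (k (nat_lit 0x99f96)))) (v (nat_lit 7) (a (u (nat_lit 9) (k (nat_lit 0x991a4))) (u (nat_lit 8) (k (nat_lit 0x9903c)))))))))) (a (a (u (nat_lit 7) (v (nat_lit 7) (v (nat_lit 7) (k (nat_lit 0x98fb8))))) (v (nat_lit 6) (a (u (nat_lit 8) (a (v (nat_lit 9) (k (nat_lit 0x99f96))) (v (nat_lit 8) (k (nat_lit 0x98f28))))) (a (v (nat_lit 7) (a (u (nat_lit 9) (k (nat_lit 0x98ef8))) (u (nat_lit 8) (k (nat_lit 0x98ef8))))) (v (nat_lit 6) (a (u (nat_lit 9) (k (nat_lit 0x9903c))) (u (nat_lit 8) (k (nat_lit 0x991a4))))))))) (a (u (nat_lit 6) (v (nat_lit 6) (v (nat_lit 6) (k (nat_lit 0x98fb8))))) (a (v (nat_lit 5) (a (a (u (nat_lit 9) (v (nat_lit 9) (k (nat_lit 0x988fe)))) (a (v (nat_lit 8) (u (nat_lit 9) (k (nat_lit 0x98ef2)))) (u (nat_lit 8) (a (v (nat_lit 9) (k (nat_lit 0x98ef2))) (v (nat_lit 8) (k (nat_lit 0x988fe)))))))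 (a (a (u (nat_lit 7) (v (nat_lit 7) (k (nat_lit 0x988fe)))) (v (nat_lit 6) (u (nat_lit 7) (k (nat_lit 0x98ef2))))) (a (u (nat_lit 6) (a (v (nat_lit 7) (k (nat_lit 0x98ef2))) (v (nat_lit 6) (k (nat_lit 0x988fe))))) (v (nat_lit 5) (a (u (nat_lit 9) (k (nat_lit 0x996a8))) (u (nat_lit 8) (k (nat_lit 0x996a8))))))))) (u (nat_lit 5) (a (a (a (v (nat_lit 9) (v (nat_lit 9) (k (nat_lit 0x9908a)))) (u (nat_lit 9) (v (nat_lit 9) (k (nat_lit 0x99f30))))) (a (v (nat_lit 8) (a (u (nat_lit 9) (k (nat_lit 0x9956a))) (v (nat_lit 8) (k (nat_lit 0x9908a))))) (u (nat_lit 8) (a (v (nat_lit 9) (k (nat_lit 0x9956a))) (v (nat_lit 8) (k (nat_lit 0x99f30))))))) (a (a (v (nat_lit 7) (a (v (nat_lit 9) (k (nat_lit 0x99060))) (v (nat_lit 7) (k (nat_lit 0x99600))))) (v (nat_lit 6) (a (v (nat_lit 8) (k (nat_lit 0x99060))) (v (nat_lit 6) (k (nat_lit 0x99600)))))) (a (v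 (nat_lit 5) (v (nat_lit 5) (k (nat_lit 0x1302f0)))) (u (nat_lit 5) (v (nat_lit 5) (k (nat_lit 0x130728)))))))))))) (a (a (a (v (nat_lit 4) (a (a (v (nat_lit 8) (u (nat_lit 9) (k (nat_lit 0x98efe)))) (a (v (nat_lit 7) (a (u (nat_lit 9) (k (nat_lit 0x9ad28))) (u (nat_lit 8) (k (nat_lit 0x97f56))))) (u (nat_lit 6) (a (v (nat_lit 9) (k (nat_lit 0x135ef4))) (v (nat_lit 8) (k (nat_lit 0x98e08))))))) (a (v (nat_lit 5) (u (nat_lit 7) (k (nat_lit 0x99eb8)))) (a (u (nat_lit 5) (a (v (nat_lit 9) (k (nat_lit 0x98ec8))) (a (v (nat_lit 8) (k (nat_lit 0x98e08))) (v (nat_lit 7) (k (nat_lit 0x9830a)))))) (v (nat_lit 4) (a (u (nat_lit 9) (k (nat_lit 0x98d6c))) (u (nat_lit 6) (k (nat_lit 0x98f28))))))))) (u (nat_lit 4) (a (a (a (v (nat_lit 8) (a (v (nat_lit 9) (k (nat_lit 0x98efe))) (a (u (nat_lit 9) (k (nat_lit 0xa8d479c))) (v (nat_lit 8) (k (nat_lit 0x98f1c))))))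 (u (nat_lit 8) (v (nat_lit 8) (k (nat_lit 0x341bdd48))))) (a (v (nat_lit 7) (v (nat_lit 8) (k (nat_lit 0x99f96)))) (v (nat_lit 6) (a (v (nat_lit 9) (k (nat_lit 0x1324f8))) (v (nat_lit 8) (k (nat_lit 0x9905a))))))) (a (a (u (nat_lit 6) (a (v (nat_lit 9) (k (nat_lit 0x13428c))) (v (nat_lit 6) (k (nat_lit 0x99000))))) (v (nat_lit 5) (a (v (nat_lit 6) (k (nat_lit 0x99000))) (v (nat_lit 5) (k (nat_lit 0x98ee0)))))) (a (u (nat_lit 5) (v (nat_lit 8) (k (nat_lit 0x30a33e)))) (a (v (nat_lit 4) (a (v (nat_lit 6) (k (nat_lit 0x9a080))) (a (v (nat_lit 5) (k (nat_lit 0x9a260))) (v (nat_lit 4) (k (nat_lit 0x98de4)))))) (u (nat_lit 4) (v (nat_lit 8) (k (nat_lit 0x374f64c)))))))))) (a (v (nat_lit 3) (a (a (a (u (nat_lit 8) (v (nat_lit 9) (k (nat_lit 0x9905a)))) (v (nat_lit 7) (a (u (nat_lit 9) (k (nat_lit 0x98f40))) (u (nat_lit 8) (k (nat_lit 0x99060))))))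 (a (u (nat_lit 7) (a (v (nat_lit 9) (k (nat_lit 0x98f40))) (v (nat_lit 7) (k (nat_lit 0x98f28))))) (v (nat_lit 6) (a (u (nat_lit 8) (k (nat_lit 0x9830a))) (u (nat_lit 7) (k (nat_lit 0x9ad28))))))) (a (a (v (nat_lit 5) (u (nat_lit 9) (k (nat_lit 0x99eb8)))) (u (nat_lit 5) (a (a (v (nat_lit 9) (k (nat_lit 0x98e92))) (v (nat_lit 8) (k (nat_lit 0x99000)))) (a (v (nat_lit 7) (k (nat_lit 0x9905a))) (v (nat_lit 5) (k (nat_lit 0x9a080))))))) (a (v (nat_lit 4) (a (u (nat_lit 9) (k (nat_lit 0x9723c))) (u (nat_lit 7) (k (nat_lit 0x98ef8))))) (a (u (nat_lit 4) (v (nat_lit 8) (k (nat_lit 0x98ef2)))) (v (nat_lit 3) (a (u (nat_lit 8) (k (nat_lit 0x986b8))) (a (u (nat_lit 7) (k (nat_lit 0x99a8c))) (u (nat_lit 6) (k (nat_lit 0x990d8))))))))))) (u (nat_lit 3) (a (a (a (v (nat_lit 9) (v (nat_lit 9) (k (nat_lit 0x98364)))) (v (nat_lit 8) (a (v (nat_lit 9)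 (k (nat_lit 0x98e08))) (a (u (nat_lit 9) (k (nat_lit 0x30a33e))) (v (nat_lit 8) (k (nat_lit 0x98e8c))))))) (a (u (nat_lit 8) (v (nat_lit 8) (k (nat_lit 0x9b37c)))) (v (nat_lit 7) (v (nat_lit 9) (k (nat_lit 0x98f40)))))) (a (a (v (nat_lit 6) (a (v (nat_lit 8) (k (nat_lit 0x98e92))) (a (v (nat_lit 7) (k (nat_lit 0x9723c))) (v (nat_lit 6) (k (nat_lit 0x992b8)))))) (v (nat_lit 5) (a (v (nat_lit 8) (k (nat_lit 0x99000))) (v (nat_lit 5) (k (nat_lit 0x97b00)))))) (a (v (nat_lit 4) (a (a (v (nat_lit 6) (k (nat_lit 0x9750c))) (u (nat_lit 6) (k (nat_lit 0x96f9c)))) (a (v (nat_lit 5) (k (nat_lit 0x9750c))) (a (u (nat_lit 5) (k (nat_lit 0x96f9c))) (v (nat_lit 4) (k (nat_lit 0x98d30))))))) (a (u (nat_lit 4) (v (nat_lit 8) (k (nat_lit 0x9956a)))) (v (nat_lit 3) (a (v (nat_lit 5) (k (nat_lit 0x9a260))) (v (nat_lit 4) (k (nat_lit 0x131d18)))))))))))) (a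 (a (v (nat_lit 2) (a (a (a (v (nat_lit 8) (u (nat_lit 9) (k (nat_lit 0x9905a)))) (v (nat_lit 7) (u (nat_lit 9) (k (nat_lit 0x9830a))))) (a (v (nat_lit 6) (a (u (nat_lit 9) (k (nat_lit 0x99060))) (u (nat_lit 8) (k (nat_lit 0x98f40))))) (a (u (nat_lit 6) (a (v (nat_lit 8) (k (nat_lit 0x98f40))) (a (v (nat_lit 7) (k (nat_lit 0x9ad28))) (v (nat_lit 6) (k (nat_lit 0x98f28)))))) (v (nat_lit 5) (u (nat_lit 8) (k (nat_lit 0x99eb8))))))) (a (a (u (nat_lit 5) (a (a (v (nat_lit 9) (k (nat_lit 0x99000))) (v (nat_lit 8) (k (nat_lit 0x98e92)))) (a (v (nat_lit 6) (k (nat_lit 0x9905a))) (v (nat_lit 5) (k (nat_lit 0x9a080)))))) (a (v (nat_lit 4) (a (u (nat_lit 8) (k (nat_lit 0x97f56))) (a (u (nat_lit 7) (k (nat_lit 0x98ff4))) (u (nat_lit 6) (k (nat_lit 0x9830a)))))) (u (nat_lit 4) (a (v (nat_lit 7) (k (nat_lit 0x98ff4))) (a (v (nat_lit 6) (k (nat_lit 0x98e92)))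 (v (nat_lit 5) (k (nat_lit 0x9750c)))))))) (a (v (nat_lit 3) (a (u (nat_lit 7) (k (nat_lit 0x99f96))) (a (u (nat_lit 6) (k (nat_lit 0x99f96))) (u (nat_lit 5) (k (nat_lit 0x1324f8)))))) (a (u (nat_lit 3) (a (v (nat_lit 8) (k (nat_lit 0x99060))) (v (nat_lit 7) (k (nat_lit 0x97f56))))) (v (nat_lit 2) (a (a (u (nat_lit 9) (k (nat_lit 0x986b8))) (u (nat_lit 7) (k (nat_lit 0x990d8)))) (a (u (nat_lit 6) (k (nat_lit 0x99a8c))) (a (u (nat_lit 4) (k (nat_lit 0x98fa0))) (u (nat_lit 3) (k (nat_lit 0x98f64)))))))))))) (u (nat_lit 2) (a (a (a (v (nat_lit 9) (v (nat_lit 9) (k (nat_lit 0x98e8c)))) (u (nat_lit 9) (v (nat_lit 9) (k (nat_lit 0x9b37c))))) (a (v (nat_lit 8) (a (v (nat_lit 9) (k (nat_lit 0x98e08))) (v (nat_lit 8) (k (nat_lit 0x98364))))) (a (u (nat_lit 8) (v (nat_lit 9) (k (nat_lit 0x30a33e)))) (v (nat_lit 7) (a (v (nat_lit 9) (k (nat_lit 0x98e92)))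 (v (nat_lit 7) (k (nat_lit 0x992b8)))))))) (a (a (v (nat_lit 6) (a (v (nat_lit 8) (k (nat_lit 0x98f40))) (v (nat_lit 7) (k (nat_lit 0x9723c))))) (v (nat_lit 5) (a (v (nat_lit 9) (k (nat_lit 0x99000))) (v (nat_lit 5) (k (nat_lit 0x97b00)))))) (a (v (nat_lit 4) (a (v (nat_lit 9) (k (nat_lit 0x98ec8))) (a (v (nat_lit 7) (k (nat_lit 0x98ff4))) (v (nat_lit 6) (k (nat_lit 0x99eb8)))))) (a (v (nat_lit 3) (a (a (v (nat_lit 9) (k (nat_lit 0x99060))) (v (nat_lit 6) (k (nat_lit 0x97f56)))) (a (v (nat_lit 4) (k (nat_lit 0x98ef8))) (v (nat_lit 3) (k (nat_lit 0x98f64)))))) (v (nat_lit 2) (v (nat_lit 5) (k (nat_lit 0x9a260)))))))))) (a (v (nat_lit 1) (a (a (a (u (nat_lit 8) (v (nat_lit 9) (k (nat_lit 0x98efe)))) (a (u (nat_lit 7) (a (v (nat_lit 9) (k (nat_lit 0x98e08))) (v (nat_lit 8) (k (nat_lit 0x135ef4))))) (v (nat_lit 6) (a (u (nat_lit 9) (k (nat_lit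 0x97f56))) (u (nat_lit 8) (k (nat_lit 0x9ad28))))))) (a (v (nat_lit 5) (u (nat_lit 6) (k (nat_lit 0x99eb8)))) (a (u (nat_lit 5) (a (v (nat_lit 9) (k (nat_lit 0x98e08))) (a (v (nat_lit 8) (k (nat_lit 0x98ec8))) (v (nat_lit 6) (k (nat_lit 0x9830a)))))) (v (nat_lit 4) (a (u (nat_lit 7) (k (nat_lit 0x98ec8))) (a (u (nat_lit 6) (k (nat_lit 0x98ec8))) (u (nat_lit 5) (k (nat_lit 0x135ef4))))))))) (a (a (u (nat_lit 4) (v (nat_lit 9) (k (nat_lit 0x98efe)))) (a (v (nat_lit 3) (a (a (u (nat_lit 9) (k (nat_lit 0x97f56))) (u (nat_lit 7) (k (nat_lit 0x9830a)))) (a (u (nat_lit 6) (k (nat_lit 0x98ff4))) (u (nat_lit 4) (k (nat_lit 0x9ad28)))))) (u (nat_lit 3) (a (v (nat_lit 8) (k (nat_lit 0x98ec8))) (a (v (nat_lit 7) (k (nat_lit 0x99eb8))) (v (nat_lit 6) (k (nat_lit 0x98ff4)))))))) (a (v (nat_lit 2) (a (a (u (nat_lit 8) (k (nat_lit 0x9723c))) (u (nat_lit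 6) (k (nat_lit 0x98ef8)))) (a (u (nat_lit 4) (k (nat_lit 0x9723c))) (u (nat_lit 3) (k (nat_lit 0x98ef8)))))) (a (u (nat_lit 2) (a (a (v (nat_lit 7) (k (nat_lit 0x9750c))) (u (nat_lit 7) (k (nat_lit 0x96f9c)))) (a (v (nat_lit 5) (k (nat_lit 0x9750c))) (a (u (nat_lit 5) (k (nat_lit 0x96f9c))) (v (nat_lit 2) (k (nat_lit 0x131d18))))))) (v (nat_lit 1) (a (a (u (nat_lit 8) (k (nat_lit 0x98d6c))) (u (nat_lit 7) (k (nat_lit 0x98f28)))) (a (u (nat_lit 4) (k (nat_lit 0x98d0c))) (u (nat_lit 2) (k (nat_lit 0x98d30))))))))))) (a (u (nat_lit 1) (a (a (a (a (v (nat_lit 9) (v (nat_lit 9) (k (nat_lit 0x98f1c)))) (u (nat_lit 9) (v (nat_lit 9) (k (nat_lit 0x341bdd48))))) (a (v (nat_lit 8) (v (nat_lit 9) (k (nat_lit 0x98efe)))) (u (nat_lit 8) (v (nat_lit 9) (k (nat_lit 0xa8d479c)))))) (a (a (v (nat_lit 7) (a (v (nat_lit 9) (k (nat_lit 0x9905a))) (v (nat_lit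 8) (k (nat_lit 0x1324f8))))) (u (nat_lit 7) (a (v (nat_lit 8) (k (nat_lit 0x13428c))) (v (nat_lit 7) (k (nat_lit 0x99000)))))) (a (v (nat_lit 6) (v (nat_lit 9) (k (nat_lit 0x99f96)))) (v (nat_lit 5) (a (v (nat_lit 7) (k (nat_lit 0x99000))) (v (nat_lit 5) (k (nat_lit 0x98ee0)))))))) (a (a (a (u (nat_lit 5) (v (nat_lit 9) (k (nat_lit 0x30a33e)))) (v (nat_lit 4) (a (v (nat_lit 8) (k (nat_lit 0x98efe))) (v (nat_lit 4) (k (nat_lit 0x98d0c)))))) (a (u (nat_lit 4) (u (nat_lit 5) (k (nat_lit 0x12fa20)))) (v (nat_lit 3) (a (a (v (nat_lit 7) (k (nat_lit 0x98e92))) (v (nat_lit 6) (k (nat_lit 0x98ff4)))) (a (v (nat_lit 5) (k (nat_lit 0x9750c))) (a (v (nat_lit 4) (k (nat_lit 0x9723c))) (v (nat_lit 3) (k (nat_lit 0x98fa0))))))))) (a (a (v (nat_lit 2) (a (v (nat_lit 9) (k (nat_lit 0x98ef2))) (v (nat_lit 4) (k (nat_lit 0x9ad28))))) (u (nat_lit 2) (v (nat_lit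 9) (k (nat_lit 0x9956a))))) (a (v (nat_lit 1) (a (v (nat_lit 7) (k (nat_lit 0x9a080))) (a (v (nat_lit 5) (k (nat_lit 0x9a260))) (v (nat_lit 1) (k (nat_lit 0x98de4)))))) (u (nat_lit 1) (v (nat_lit 9) (k (nat_lit 0x374f64c))))))))) (v (nat_lit 0) (a (a (a (a (u (nat_lit 9) (v (nat_lit 9) (k (nat_lit 0x98f5e)))) (v (nat_lit 8) (u (nat_lit 9) (k (nat_lit 0x98f1c))))) (a (u (nat_lit 8) (a (v (nat_lit 9) (k (nat_lit 0x98f1c))) (v (nat_lit 8) (k (nat_lit 0x98f5e))))) (v (nat_lit 7) (a (u (nat_lit 9) (k (nat_lit 0x99a8c))) (u (nat_lit 8) (k (nat_lit 0x98f64))))))) (a (a (u (nat_lit 7) (v (nat_lit 9) (k (nat_lit 0x98364)))) (v (nat_lit 6) (a (u (nat_lit 9) (k (nat_lit 0x98f64))) (u (nat_lit 8) (k (nat_lit 0x99a8c)))))) (a (u (nat_lit 6) (v (nat_lit 8) (k (nat_lit 0x98364)))) (a (v (nat_lit 5) (a (u (nat_lit 7) (k (nat_lit 0x996a8))) (u (nat_lit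 6) (k (nat_lit 0x996a8))))) (u (nat_lit 5) (a (a (v (nat_lit 9) (k (nat_lit 0x98e8c))) (v (nat_lit 8) (k (nat_lit 0x98e8c)))) (a (v (nat_lit 7) (k (nat_lit 0x986b8))) (a (v (nat_lit 6) (k (nat_lit 0x986b8))) (v (nat_lit 5) (k (nat_lit 0x131b80))))))))))) (a (a (a (v (nat_lit 4) (a (u (nat_lit 9) (k (nat_lit 0x98d0c))) (u (nat_lit 5) (k (nat_lit 0x98f28))))) (u (nat_lit 4) (a (a (v (nat_lit 8) (k (nat_lit 0x98fe2))) (v (nat_lit 7) (k (nat_lit 0x990d8)))) (a (u (nat_lit 6) (k (nat_lit 0x98dfc))) (a (v (nat_lit 5) (k (nat_lit 0x97b00))) (v (nat_lit 4) (k (nat_lit 0x98e2c)))))))) (a (v (nat_lit 3) (a (u (nat_lit 8) (k (nat_lit 0x99600))) (u (nat_lit 7) (k (nat_lit 0x991a4))))) (u (nat_lit 3) (a (a (v (nat_lit 8) (k (nat_lit 0x9908a))) (v (nat_lit 6) (k (nat_lit 0x98fa0)))) (a (v (nat_lit 5) (k (nat_lit 0x98ee0))) (a (v (nat_lit 4) (k (nat_lit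 0x98d30))) (v (nat_lit 3) (k (nat_lit 0x9933c))))))))) (a (a (v (nat_lit 2) (a (a (u (nat_lit 9) (k (nat_lit 0x99600))) (u (nat_lit 6) (k (nat_lit 0x991a4)))) (a (u (nat_lit 4) (k (nat_lit 0x992b8))) (u (nat_lit 3) (k (nat_lit 0x9903c)))))) (u (nat_lit 2) (a (a (v (nat_lit 9) (k (nat_lit 0x9908a))) (v (nat_lit 7) (k (nat_lit 0x98fa0)))) (a (v (nat_lit 5) (k (nat_lit 0x98ee0))) (a (v (nat_lit 3) (k (nat_lit 0x9903c))) (v (nat_lit 2) (k (nat_lit 0x9933c)))))))) (a (v (nat_lit 1) (a (a (u (nat_lit 8) (k (nat_lit 0x98d0c))) (u (nat_lit 5) (k (nat_lit 0x98f28)))) (a (u (nat_lit 4) (k (nat_lit 0x98d6c))) (u (nat_lit 2) (k (nat_lit 0x98d30)))))) (a (u (nat_lit 1) (a (a (v (nat_lit 9) (k (nat_lit 0x98fe2))) (a (u (nat_lit 7) (k (nat_lit 0x98dfc))) (v (nat_lit 6) (k (nat_lit 0x990d8))))) (a (a (v (nat_lit 5) (k (nat_lit 0x97b00))) (v (nat_lit 4)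 (k (nat_lit 0x98d6c)))) (a (v (nat_lit 3) (k (nat_lit 0x992b8))) (v (nat_lit 1) (k (nat_lit 0x98e2c))))))) (v (nat_lit 0) (a (a (u (nat_lit 9) (k (nat_lit 0x98ba4))) (u (nat_lit 8) (k (nat_lit 0x98ba4)))) (a (u (nat_lit 7) (k (nat_lit 0x98cf4))) (u (nat_lit 6) (k (nat_lit 0x98cf4)))))))))))))))))) (u (nat_lit 0) (a (a (a (a (v (nat_lit 9) (v (nat_lit 9) (v (nat_lit 9) (k (nat_lit 0x98ba4))))) (v (nat_lit 8) (v (nat_lit 8) (v (nat_lit 8) (k (nat_lit 0x98ba4)))))) (a (v (nat_lit 7) (a (v (nat_lit 8) (a (v (nat_lit 9) (k (nat_lit 0x97f56))) (v (nat_lit 8) (k (nat_lit 0x98f64))))) (v (nat_lit 7) (v (nat_lit 8) (k (nat_lit 0x9903c)))))) (v (nat_lit 6) (a (a (v (nat_lit 9) (v (nat_lit 9) (k (nat_lit 0x98f64)))) (v (nat_lit 8) (v (nat_lit 9) (k (nat_lit 0x97f56))))) (a (v (nat_lit 7) (v (nat_lit 7) (k (nat_lit 0x98d30)))) (v (nat_lit 6) (a (v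 (nat_lit 9) (k (nat_lit 0x9903c))) (v (nat_lit 7) (k (nat_lit 0x98d30)))))))))) (a (a (v (nat_lit 5) (a (a (v (nat_lit 9) (v (nat_lit 9) (k (nat_lit 0x99600)))) (a (v (nat_lit 8) (v (nat_lit 8) (k (nat_lit 0x99600)))) (v (nat_lit 7) (a (v (nat_lit 8) (k (nat_lit 0x99060))) (v (nat_lit 7) (k (nat_lit 0x9908a))))))) (a (a (u (nat_lit 7) (v (nat_lit 7) (k (nat_lit 0x99f30)))) (v (nat_lit 6) (a (v (nat_lit 9) (k (nat_lit 0x99060))) (a (u (nat_lit 7) (k (nat_lit 0x9956a))) (v (nat_lit 6) (k (nat_lit 0x9908a))))))) (a (u (nat_lit 6) (a (v (nat_lit 7) (k (nat_lit 0x9956a))) (v (nat_lit 6) (k (nat_lit 0x99f30))))) (v (nat_lit 5) (a (a (v (nat_lit 9) (k (nat_lit 0x986b8))) (v (nat_lit 8) (k (nat_lit 0x986b8)))) (a (v (nat_lit 7) (k (nat_lit 0x98e8c))) (v (nat_lit 6) (k (nat_lit 0x98e8c)))))))))) (u (nat_lit 5) (v (nat_lit 5) (a (v (nat_lit 7) (k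 (nat_lit 0x9b37c))) (v (nat_lit 6) (k (nat_lit 0x9b37c))))))) (a (v (nat_lit 4) (a (a (a (v (nat_lit 9) (v (nat_lit 9) (k (nat_lit 0x98d0c)))) (v (nat_lit 8) (v (nat_lit 8) (k (nat_lit 0x98f1c))))) (a (u (nat_lit 8) (v (nat_lit 8) (k (nat_lit 0x341bdd48)))) (v (nat_lit 7) (a (v (nat_lit 9) (k (nat_lit 0x9723c))) (v (nat_lit 7) (k (nat_lit 0x98fa0))))))) (a (a (v (nat_lit 6) (a (v (nat_lit 7) (k (nat_lit 0x9750c))) (v (nat_lit 6) (k (nat_lit 0x98ee0))))) (u (nat_lit 6) (a (u (nat_lit 9) (k (nat_lit 0x12fa20))) (v (nat_lit 8) (k (nat_lit 0x30a33e)))))) (a (v (nat_lit 5) (a (v (nat_lit 8) (k (nat_lit 0x9905a))) (a (v (nat_lit 7) (k (nat_lit 0x98e92))) (v (nat_lit 6) (k (nat_lit 0x99000)))))) (a (u (nat_lit 5) (v (nat_lit 5) (k (nat_lit 0x99000)))) (v (nat_lit 4) (a (a (v (nat_lit 9) (k (nat_lit 0x98d6c))) (v (nat_lit 8) (k (nat_lit 0x98fe2))))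 (a (v (nat_lit 7) (k (nat_lit 0x992b8))) (a (v (nat_lit 6) (k (nat_lit 0x97b00))) (u (nat_lit 5) (k (nat_lit 0x98dfc)))))))))))) (u (nat_lit 4) (a (v (nat_lit 6) (v (nat_lit 7) (k (nat_lit 0x96f9c)))) (v (nat_lit 4) (v (nat_lit 8) (k (nat_lit 0x154e350a))))))))) (a (a (a (v (nat_lit 3) (a (a (v (nat_lit 9) (v (nat_lit 9) (k (nat_lit 0x99a8c)))) (a (v (nat_lit 7) (v (nat_lit 9) (k (nat_lit 0x98f40)))) (v (nat_lit 6) (a (v (nat_lit 9) (k (nat_lit 0x98ef8))) (v (nat_lit 8) (k (nat_lit 0x99eb8))))))) (a (v (nat_lit 5) (a (a (v (nat_lit 9) (k (nat_lit 0x9830a))) (v (nat_lit 7) (k (nat_lit 0x98e08)))) (a (v (nat_lit 6) (k (nat_lit 0x98ec8))) (v (nat_lit 5) (k (nat_lit 0x98f28)))))) (a (v (nat_lit 4) (a (v (nat_lit 9) (k (nat_lit 0x9ad28))) (v (nat_lit 8) (k (nat_lit 0x98ef2))))) (v (nat_lit 3) (a (a (v (nat_lit 9) (k (nat_lit 0x991a4))) (v (nat_lit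 8) (k (nat_lit 0x996a8)))) (a (v (nat_lit 7) (k (nat_lit 0x98364))) (a (u (nat_lit 5) (k (nat_lit 0x98dfc))) (v (nat_lit 3) (k (nat_lit 0x98cf4))))))))))) (u (nat_lit 3) (a (v (nat_lit 5) (v (nat_lit 7) (k (nat_lit 0x30a33e)))) (v (nat_lit 4) (v (nat_lit 8) (k (nat_lit 0x9956a))))))) (a (v (nat_lit 2) (a (a (a (v (nat_lit 8) (v (nat_lit 8) (k (nat_lit 0x99a8c)))) (v (nat_lit 7) (a (v (nat_lit 9) (k (nat_lit 0x99eb8))) (v (nat_lit 8) (k (nat_lit 0x98ef8)))))) (a (v (nat_lit 6) (v (nat_lit 8) (k (nat_lit 0x98f40)))) (v (nat_lit 5) (a (a (v (nat_lit 8) (k (nat_lit 0x9830a))) (v (nat_lit 7) (k (nat_lit 0x98ec8)))) (a (v (nat_lit 6) (k (nat_lit 0x98e08))) (v (nat_lit 5) (k (nat_lit 0x98f28)))))))) (a (a (v (nat_lit 4) (a (v (nat_lit 8) (k (nat_lit 0x99f96))) (a (v (nat_lit 7) (k (nat_lit 0x98ff4))) (v (nat_lit 4) (k (nat_lit 0x990d8)))))) (u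 (nat_lit 4) (v (nat_lit 5) (k (nat_lit 0x96f9c))))) (a (v (nat_lit 3) (a (v (nat_lit 5) (k (nat_lit 0x135ef4))) (u (nat_lit 5) (k (nat_lit 0x13428c))))) (v (nat_lit 2) (a (a (v (nat_lit 9) (k (nat_lit 0x996a8))) (v (nat_lit 8) (k (nat_lit 0x991a4)))) (a (v (nat_lit 6) (k (nat_lit 0x98364))) (a (u (nat_lit 5) (k (nat_lit 0x98dfc))) (v (nat_lit 2) (k (nat_lit 0x98cf4))))))))))) (u (nat_lit 2) (a (v (nat_lit 5) (v (nat_lit 6) (k (nat_lit 0x30a33e)))) (u (nat_lit 3) (v (nat_lit 5) (k (nat_lit 0x12fa20)))))))) (a (a (v (nat_lit 1) (a (a (a (v (nat_lit 9) (v (nat_lit 9) (k (nat_lit 0x98f1c)))) (a (u (nat_lit 9) (v (nat_lit 9) (k (nat_lit 0x341bdd48)))) (v (nat_lit 8) (v (nat_lit 8) (k (nat_lit 0x98d0c)))))) (a (a (v (nat_lit 7) (v (nat_lit 7) (k (nat_lit 0x98ee0)))) (u (nat_lit 7) (a (v (nat_lit 9) (k (nat_lit 0x30a33e))) (u (nat_lit 8) (k (nat_lit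 0x12fa20)))))) (a (v (nat_lit 6) (a (v (nat_lit 8) (k (nat_lit 0x9723c))) (a (v (nat_lit 7) (k (nat_lit 0x9750c))) (v (nat_lit 6) (k (nat_lit 0x98fa0)))))) (v (nat_lit 5) (a (v (nat_lit 9) (k (nat_lit 0x9905a))) (a (v (nat_lit 7) (k (nat_lit 0x99000))) (v (nat_lit 6) (k (nat_lit 0x98e92))))))))) (a (a (u (nat_lit 5) (v (nat_lit 5) (k (nat_lit 0x99000)))) (a (v (nat_lit 4) (a (a (v (nat_lit 9) (k (nat_lit 0x98efe))) (v (nat_lit 8) (k (nat_lit 0x98efe)))) (a (v (nat_lit 5) (k (nat_lit 0x1324f8))) (u (nat_lit 5) (k (nat_lit 0x13428c)))))) (u (nat_lit 4) (v (nat_lit 9) (k (nat_lit 0xa8d479c)))))) (a (a (v (nat_lit 3) (a (v (nat_lit 9) (k (nat_lit 0x99f96))) (v (nat_lit 6) (k (nat_lit 0x98ff4))))) (v (nat_lit 2) (a (v (nat_lit 9) (k (nat_lit 0x98ef2))) (v (nat_lit 8) (k (nat_lit 0x9ad28)))))) (a (u (nat_lit 2) (v (nat_lit 9) (k (nat_lit 0x9956a))))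 (v (nat_lit 1) (a (a (v (nat_lit 9) (k (nat_lit 0x98fe2))) (a (v (nat_lit 8) (k (nat_lit 0x98d6c))) (v (nat_lit 7) (k (nat_lit 0x97b00))))) (a (v (nat_lit 6) (k (nat_lit 0x992b8))) (a (u (nat_lit 5) (k (nat_lit 0x98dfc))) (v (nat_lit 3) (k (nat_lit 0x990d8)))))))))))) (u (nat_lit 1) (a (a (v (nat_lit 6) (v (nat_lit 7) (k (nat_lit 0x96f9c)))) (v (nat_lit 4) (v (nat_lit 8) (k (nat_lit 0xa8d479c))))) (a (v (nat_lit 3) (v (nat_lit 5) (k (nat_lit 0x96f9c)))) (v (nat_lit 1) (v (nat_lit 9) (k (nat_lit 0x154e350a)))))))) (a (v (nat_lit 0) (a (a (a (a (v (nat_lit 9) (v (nat_lit 9) (k (nat_lit 0x98f5e)))) (u (nat_lit 9) (v (nat_lit 9) (k (nat_lit 0x36fd4c1c))))) (a (v (nat_lit 8) (a (u (nat_lit 9) (k (nat_lit 0x341bdd48))) (v (nat_lit 8) (k (nat_lit 0x98f5e))))) (u (nat_lit 8) (a (v (nat_lit 9) (k (nat_lit 0x341bdd48))) (v (nat_lit 8) (k (nat_lit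 0x36fd4c1c))))))) (a (a (v (nat_lit 7) (v (nat_lit 7) (k (nat_lit 0x9933c)))) (v (nat_lit 6) (a (v (nat_lit 7) (k (nat_lit 0x131d18))) (v (nat_lit 6) (k (nat_lit 0x9933c)))))) (a (v (nat_lit 5) (v (nat_lit 5) (k (nat_lit 0x131b80)))) (u (nat_lit 5) (a (v (nat_lit 9) (k (nat_lit 0x9b37c))) (v (nat_lit 8) (k (nat_lit 0x9b37c)))))))) (a (a (a (v (nat_lit 4) (a (v (nat_lit 6) (k (nat_lit 0x9a260))) (a (v (nat_lit 5) (k (nat_lit 0x9a080))) (v (nat_lit 4) (k (nat_lit 0x98e2c)))))) (u (nat_lit 4) (v (nat_lit 8) (k (nat_lit 0x154e350a))))) (a (v (nat_lit 3) (a (v (nat_lit 9) (k (nat_lit 0x98f28))) (a (v (nat_lit 8) (k (nat_lit 0x988fe))) (u (nat_lit 5) (k (nat_lit 0x99000)))))) (u (nat_lit 3) (v (nat_lit 8) (k (nat_lit 0x99f30)))))) (a (a (v (nat_lit 2) (a (v (nat_lit 9) (k (nat_lit 0x988fe))) (a (v (nat_lit 8) (k (nat_lit 0x98f28))) (u (nat_lit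 5) (k (nat_lit 0x99000)))))) (u (nat_lit 2) (v (nat_lit 9) (k (nat_lit 0x99f30))))) (a (v (nat_lit 1) (a (v (nat_lit 7) (k (nat_lit 0x9a260))) (a (v (nat_lit 5) (k (nat_lit 0x9a080))) (v (nat_lit 1) (k (nat_lit 0x98e2c)))))) (a (u (nat_lit 1) (v (nat_lit 9) (k (nat_lit 0x154e350a)))) (v (nat_lit 0) (a (a (a (v (nat_lit 9) (k (nat_lit 0x989dc))) (v (nat_lit 8) (k (nat_lit 0x989dc)))) (a (v (nat_lit 5) (k (nat_lit 0x1302f0))) (v (nat_lit 4) (k (nat_lit 0x98de4))))) (a (a (v (nat_lit 3) (k (nat_lit 0x98fb8))) (v (nat_lit 2) (k (nat_lit 0x98fb8)))) (a (v (nat_lit 1) (k (nat_lit 0x98de4))) (v (nat_lit 0) (k (nat_lit 0x131a30))))))))))))) (u (nat_lit 0) (a (v (nat_lit 4) (v (nat_lit 8) (k (nat_lit 0x374f64c)))) (a (v (nat_lit 1) (v (nat_lit 9) (k (nat_lit 0x374f64c)))) (v (nat_lit 0) (v (nat_lit 5) (k (nat_lit 0x130728)))))))))))))))))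

open Fl.Tr in
/-- the table -/
noncomputable def T : Fl.Tr := (c (c (c (c (c (c (c (c (c (c e (c (p (nat_lit 0x12fa20)) (c (p (nat_lit 0x131bf8)) (c (p (nat_lit 0x394b60)) (c (m (nat_lit 0x131a30)) e))))) (c (c (p (nat_lit 0x12fa20)) (c (m (nat_lit 0x131508)) (c (p (nat_lit 0x2fc4e4)) (c (m (nat_lit 0x98de4)) e)))) (c (c (p (nat_lit 0x131bf8)) (c (p (nat_lit 0x2fc4e4)) (c (m (nat_lit 0x131c58)) e))) (c (c (p (nat_lit 0x394b60)) (c (m (nat_lit 0x98de4)) e)) (c (c (m (nat_lit 0x131a30)) e) e))))) (c (c (c (p (nat_lit 0x12fa20)) (c (p (nat_lit 0x99000)) (c (p (nat_lit 0x2fdd8c)) (c (m (nat_lit 0x98fb8)) e)))) (c (c (p (nat_lit 0x99000)) (c (p (nat_lit 0x263f7c)) (c (m (nat_lit 0x992b8)) e))) (c (c (p (nat_lit 0x264324)) (c (m (nat_lit 0x990d8)) e)) (c (c (m (nat_lit 0x98cf4)) e) e)))) (c (c (c (p (nat_lit 0x131bf8)) (c (p (nat_lit 0x264324))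 (c (m (nat_lit 0x9933c)) e))) (c (c (p (nat_lit 0x2fdd8c)) (c (m (nat_lit 0x98fa0)) e)) (c (c (m (nat_lit 0x9933c)) e) e))) (c (c (c (p (nat_lit 0x394b60)) (c (m (nat_lit 0x98cf4)) e)) (c (c (m (nat_lit 0x98fb8)) e) e)) (c (c (c (m (nat_lit 0x131a30)) e) e) e))))) (c (c (c (c (p (nat_lit 0x12fa20)) (c (p (nat_lit 0x99000)) (c (p (nat_lit 0x264324)) (c (m (nat_lit 0x98cf4)) e)))) (c (c (p (nat_lit 0x99000)) (c (p (nat_lit 0x263f7c)) (c (m (nat_lit 0x990d8)) e))) (c (c (p (nat_lit 0x2fdd8c)) (c (m (nat_lit 0x992b8)) e)) (c (c (m (nat_lit 0x98fb8)) e) e)))) (c (c (c (m (nat_lit 0x131508)) (c (p (nat_lit 0x263f7c)) (c (m (nat_lit 0x98fa0)) e))) (c (c (p (nat_lit 0x263f7c)) (c (m (nat_lit 0x263fd0)) e)) (c (c (m (nat_lit 0x98fa0)) e) e))) (c (c (c (p (nat_lit 0x2fc4e4)) (c (m (nat_lit 0x990d8)) e)) (c (c (m (nat_lit 0x992b8)) e) e)) (c (c (c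 (m (nat_lit 0x98de4)) e) e) e)))) (c (c (c (c (p (nat_lit 0x131bf8)) (c (p (nat_lit 0x2fdd8c)) (c (m (nat_lit 0x9933c)) e))) (c (c (p (nat_lit 0x264324)) (c (m (nat_lit 0x98fa0)) e)) (c (c (m (nat_lit 0x9933c)) e) e))) (c (c (c (p (nat_lit 0x2fc4e4)) (c (m (nat_lit 0x992b8)) e)) (c (c (m (nat_lit 0x990d8)) e) e)) (c (c (c (m (nat_lit 0x131c58)) e) e) e))) (c (c (c (c (p (nat_lit 0x394b60)) (c (m (nat_lit 0x98fb8)) e)) (c (c (m (nat_lit 0x98cf4)) e) e)) (c (c (c (m (nat_lit 0x98de4)) e) e) e)) (c (c (c (c (m (nat_lit 0x131a30)) e) e) e) e))))) (c (c (c (c (c (p (nat_lit 0x12fa20)) (c (p (nat_lit 0x99000)) (c (p (nat_lit 0x2fdd8c)) (c (m (nat_lit 0x98fb8)) e)))) (c (c (p (nat_lit 0x99000)) (c (p (nat_lit 0x264048)) (c (m (nat_lit 0x98d30)) e))) (c (c (p (nat_lit 0x2fdd8c)) (c (m (nat_lit 0x98d30)) e)) (c (c (m (nat_lit 0x98fb8)) e) e))))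 (c (c (c (p (nat_lit 0xdbf6fe28)) (c (p (nat_lit 0x132198)) (c (m (nat_lit 0x132078)) e))) (c (c (p (nat_lit 0x2fcdb4)) (c (m (nat_lit 0x98ef8)) e)) (c (c (m (nat_lit 0x991a4)) e) e))) (c (c (c (m (nat_lit 0x8037d668)) (c (m (nat_lit 0x98f64)) e)) (c (c (m (nat_lit 0x98f28)) e) e)) (c (c (c (m (nat_lit 0x131580)) e) e) e)))) (c (c (c (c (p (nat_lit 0xdbf6fe28)) (c (p (nat_lit 0x2fcdb4)) (c (m (nat_lit 0x991a4)) e))) (c (c (p (nat_lit 0x132198)) (c (m (nat_lit 0x98ef8)) e)) (c (c (m (nat_lit 0x132078)) e) e))) (c (c (c (m (nat_lit 0xb610c450)) (c (m (nat_lit 0x131eec)) e)) (c (c (m (nat_lit 0x131eec)) e) e)) (c (c (c (p (nat_lit 0x18b99b74)) e) e) e))) (c (c (c (c (m (nat_lit 0x8037d668)) (c (m (nat_lit 0x98f28)) e)) (c (c (m (nat_lit 0x98f64)) e) e)) (c (c (c (p (nat_lit 0x18b99b74)) e) e) e)) (c (c (c (c (m (nat_lit 0x131580)) e) e) e)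 e)))) (c (c (c (c (c (p (nat_lit 0x131bf8)) (c (p (nat_lit 0x264324)) (c (m (nat_lit 0x9933c)) e))) (c (c (p (nat_lit 0x264324)) (c (m (nat_lit 0x131d18)) e)) (c (c (m (nat_lit 0x9933c)) e) e))) (c (c (c (m (nat_lit 0x8037d668)) (c (m (nat_lit 0x98f64)) e)) (c (c (m (nat_lit 0x131df0)) e) e)) (c (c (c (p (nat_lit 0x36ea2d60)) e) e) e))) (c (c (c (c (m (nat_lit 0x8037d668)) (c (m (nat_lit 0x131df0)) e)) (c (c (m (nat_lit 0x98f64)) e) e)) (c (c (c (p (nat_lit 0x68249c58)) e) e) e)) (c (c (c (c (p (nat_lit 0x36ea2d60)) e) e) e) e))) (c (c (c (c (c (p (nat_lit 0x394b60)) (c (m (nat_lit 0x98cf4)) e)) (c (c (m (nat_lit 0x98cf4)) e) e)) (c (c (c (m (nat_lit 0x131580)) e) e) e)) (c (c (c (c (m (nat_lit 0x131580)) e) e) e) e)) (c (c (c (c (c (m (nat_lit 0x131a30)) e) e) e) e) e))))) (c (c (c (c (c (c (p (nat_lit 0x12fa20)) (c (m (nat_lit 0x131508))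 (c (p (nat_lit 0x2fc4e4)) (c (m (nat_lit 0x98de4)) e)))) (c (c (p (nat_lit 0xdbf6fe28)) (c (p (nat_lit 0x263418)) (c (m (nat_lit 0x131ad8)) e))) (c (c (m (nat_lit 0x8037d668)) (c (m (nat_lit 0x98d0c)) e)) (c (c (m (nat_lit 0x131580)) e) e)))) (c (c (c (p (nat_lit 0x99000)) (c (p (nat_lit 0x264048)) (c (m (nat_lit 0x98d30)) e))) (c (c (p (nat_lit 0x2fcdb4)) (c (m (nat_lit 0x131f64)) e)) (c (c (m (nat_lit 0x131df0)) e) e))) (c (c (c (p (nat_lit 0x264324)) (c (m (nat_lit 0x131d18)) e)) (c (c (m (nat_lit 0x991a4)) e) e)) (c (c (c (m (nat_lit 0x98cf4)) e) e) e)))) (c (c (c (c (p (nat_lit 0x1a10)) (c (p (nat_lit 0x265128)) (c (m (nat_lit 0x1464)) e))) (c (c (m (nat_lit 0x30e364)) (c (m (nat_lit 0x98ec8)) e)) (c (c (m (nat_lit 0x131058)) e) e))) (c (c (c (p (nat_lit 0x265128)) (c (m (nat_lit 0x570)) e)) (c (c (m (nat_lit 0x1cb054)) e) e)) (c (c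 (c (m (nat_lit 0x1464)) e) e) e))) (c (c (c (c (p (nat_lit 0x395130)) (c (p (nat_lit 0x120)) e)) (c (c (m (nat_lit 0x131d60)) e) e)) (c (c (c (m (nat_lit 0x1caaa8)) e) e) e)) (c (c (c (c (p (nat_lit 0x438)) e) e) e) e)))) (c (c (c (c (c (p (nat_lit 0x99000)) (c (p (nat_lit 0x263f7c)) (c (m (nat_lit 0x992b8)) e))) (c (c (p (nat_lit 0x2fcdb4)) (c (m (nat_lit 0x131f64)) e)) (c (c (m (nat_lit 0x98f28)) e) e))) (c (c (c (p (nat_lit 0x2fcdb4)) (c (m (nat_lit 0x98ef8)) e)) (c (c (m (nat_lit 0x263d00)) e) e)) (c (c (c (m (nat_lit 0x131df0)) e) e) e))) (c (c (c (c (m (nat_lit 0x30e364)) (c (m (nat_lit 0x1cb054)) e)) (c (c (m (nat_lit 0x99060)) e) e)) (c (c (c (p (nat_lit 0x1d84dc)) e) e) e)) (c (c (c (c (p (nat_lit 0x24f0)) e) e) e) e))) (c (c (c (c (c (p (nat_lit 0x2fdd8c)) (c (m (nat_lit 0x98fa0)) e)) (c (c (m (nat_lit 0x991a4)) e) e)) (c (c (c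 (m (nat_lit 0x98f28)) e) e) e)) (c (c (c (c (m (nat_lit 0x131058)) e) e) e) e)) (c (c (c (c (c (m (nat_lit 0x98fb8)) e) e) e) e) e)))) (c (c (c (c (c (c (p (nat_lit 0x131bf8)) (c (p (nat_lit 0x2fc4e4)) (c (m (nat_lit 0x131c58)) e))) (c (c (m (nat_lit 0x8037d668)) (c (m (nat_lit 0x98d0c)) e)) (c (c (p (nat_lit 0x36ea2d60)) e) e))) (c (c (c (p (nat_lit 0x2fdd8c)) (c (m (nat_lit 0x98d30)) e)) (c (c (m (nat_lit 0x98f28)) e) e)) (c (c (c (m (nat_lit 0x9933c)) e) e) e))) (c (c (c (c (p (nat_lit 0x395130)) (c (m (nat_lit 0x1caaa8)) e)) (c (c (p (nat_lit 0x24f0)) e) e)) (c (c (c (p (nat_lit 0x120)) e) e) e)) (c (c (c (c (m (nat_lit 0x263700)) e) e) e) e))) (c (c (c (c (c (p (nat_lit 0x264324)) (c (m (nat_lit 0x990d8)) e)) (c (c (m (nat_lit 0x131df0)) e) e)) (c (c (c (m (nat_lit 0x991a4)) e) e) e)) (c (c (c (c (m (nat_lit 0x131d60)) e) e) e) e))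 (c (c (c (c (c (m (nat_lit 0x9933c)) e) e) e) e) e))) (c (c (c (c (c (c (p (nat_lit 0x394b60)) (c (m (nat_lit 0x98de4)) e)) (c (c (m (nat_lit 0x131580)) e) e)) (c (c (c (m (nat_lit 0x98fb8)) e) e) e)) (c (c (c (c (p (nat_lit 0x438)) e) e) e) e)) (c (c (c (c (c (m (nat_lit 0x98cf4)) e) e) e) e) e)) (c (c (c (c (c (c (m (nat_lit 0x131a30)) e) e) e) e) e) e))))) (c (c (c (c (c (c (c (p (nat_lit 0x12fa20)) (c (p (nat_lit 0x99000)) (c (p (nat_lit 0x264324)) (c (m (nat_lit 0x98cf4)) e)))) (c (c (p (nat_lit 0x1a10)) (c (p (nat_lit 0x265128)) (c (m (nat_lit 0x1464)) e))) (c (c (p (nat_lit 0x395130)) (c (m (nat_lit 0x1caaa8)) e)) (c (c (p (nat_lit 0x438)) e) e)))) (c (c (c (p (nat_lit 0xdbf6fe28)) (c (p (nat_lit 0x2fcdb4)) (c (m (nat_lit 0x991a4)) e))) (c (c (m (nat_lit 0x30e364)) (c (m (nat_lit 0x1cb054)) e)) (c (c (m (nat_lit 0x131d60)) e) e)))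 (c (c (c (m (nat_lit 0x8037d668)) (c (m (nat_lit 0x131df0)) e)) (c (c (m (nat_lit 0x131058)) e) e)) (c (c (c (m (nat_lit 0x131580)) e) e) e)))) (c (c (c (c (m (nat_lit 0x131508)) (c (p (nat_lit 0x264048)) (c (m (nat_lit 0x131d18)) e))) (c (c (p (nat_lit 0x265128)) (c (m (nat_lit 0x570)) e)) (c (c (p (nat_lit 0x120)) e) e))) (c (c (c (p (nat_lit 0x263418)) (c (m (nat_lit 0x131f64)) e)) (c (c (m (nat_lit 0x98ec8)) e) e)) (c (c (c (m (nat_lit 0x98d0c)) e) e) e))) (c (c (c (c (p (nat_lit 0x2fc4e4)) (c (m (nat_lit 0x98d30)) e)) (c (c (m (nat_lit 0x1464)) e) e)) (c (c (c (m (nat_lit 0x131ad8)) e) e) e)) (c (c (c (c (m (nat_lit 0x98de4)) e) e) e) e)))) (c (c (c (c (c (m (nat_lit 0x131508)) (c (p (nat_lit 0x263f7c)) (c (m (nat_lit 0x98fa0)) e))) (c (c (p (nat_lit 0x265128)) (c (m (nat_lit 0x570)) e)) (c (c (p (nat_lit 0x120)) e) e))) (c (c (c (m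 (nat_lit 0xb610c450)) (c (m (nat_lit 0x131eec)) e)) (c (c (p (nat_lit 0x1d84dc)) e) e)) (c (c (c (p (nat_lit 0x68249c58)) e) e) e))) (c (c (c (c (p (nat_lit 0x263418)) (c (m (nat_lit 0x131f64)) e)) (c (c (m (nat_lit 0x263b80)) e) e)) (c (c (c (p (nat_lit 0xa7a29a0)) e) e) e)) (c (c (c (c (m (nat_lit 0x98d0c)) e) e) e) e))) (c (c (c (c (c (p (nat_lit 0x2fc4e4)) (c (m (nat_lit 0x990d8)) e)) (c (c (m (nat_lit 0x1464)) e) e)) (c (c (c (p (nat_lit 0x18b99b74)) e) e) e)) (c (c (c (c (m (nat_lit 0x98d0c)) e) e) e) e)) (c (c (c (c (c (m (nat_lit 0x98de4)) e) e) e) e) e)))) (c (c (c (c (c (c (p (nat_lit 0x99000)) (c (p (nat_lit 0x263f7c)) (c (m (nat_lit 0x990d8)) e))) (c (c (m (nat_lit 0x30e364)) (c (m (nat_lit 0x98ec8)) e)) (c (c (p (nat_lit 0x24f0)) e) e))) (c (c (c (p (nat_lit 0x132198)) (c (m (nat_lit 0x98ef8)) e)) (c (c (m (nat_lit 0x99060))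 e) e)) (c (c (c (m (nat_lit 0x98f64)) e) e) e))) (c (c (c (c (p (nat_lit 0x265128)) (c (m (nat_lit 0x570)) e)) (c (c (m (nat_lit 0x132000)) e) e)) (c (c (c (m (nat_lit 0x263b80)) e) e) e)) (c (c (c (c (m (nat_lit 0x1caaa8)) e) e) e) e))) (c (c (c (c (c (p (nat_lit 0x263f7c)) (c (m (nat_lit 0x263fd0)) e)) (c (c (m (nat_lit 0x1cb054)) e) e)) (c (c (c (m (nat_lit 0x131eec)) e) e) e)) (c (c (c (c (m (nat_lit 0x98ec8)) e) e) e) e)) (c (c (c (c (c (m (nat_lit 0x992b8)) e) e) e) e) e))) (c (c (c (c (c (c (p (nat_lit 0x2fdd8c)) (c (m (nat_lit 0x992b8)) e)) (c (c (m (nat_lit 0x131058)) e) e)) (c (c (c (m (nat_lit 0x132078)) e) e) e)) (c (c (c (c (p (nat_lit 0x120)) e) e) e) e)) (c (c (c (c (c (m (nat_lit 0x98fa0)) e) e) e) e) e)) (c (c (c (c (c (c (m (nat_lit 0x98fb8)) e) e) e) e) e) e)))) (c (c (c (c (c (c (c (p (nat_lit 0x131bf8)) (c (p (nat_lit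 0x2fdd8c)) (c (m (nat_lit 0x9933c)) e))) (c (c (p (nat_lit 0x395130)) (c (p (nat_lit 0x120)) e)) (c (c (m (nat_lit 0x263700)) e) e))) (c (c (c (m (nat_lit 0x8037d668)) (c (m (nat_lit 0x98f28)) e)) (c (c (p (nat_lit 0x24f0)) e) e)) (c (c (c (p (nat_lit 0x36ea2d60)) e) e) e))) (c (c (c (c (p (nat_lit 0x2fc4e4)) (c (m (nat_lit 0x98d30)) e)) (c (c (m (nat_lit 0x1caaa8)) e) e)) (c (c (c (m (nat_lit 0x98d0c)) e) e) e)) (c (c (c (c (m (nat_lit 0x131c58)) e) e) e) e))) (c (c (c (c (c (p (nat_lit 0x2fc4e4)) (c (m (nat_lit 0x992b8)) e)) (c (c (m (nat_lit 0x1caaa8)) e) e)) (c (c (c (p (nat_lit 0x18b99b74)) e) e) e)) (c (c (c (c (m (nat_lit 0x131ad8)) e) e) e) e)) (c (c (c (c (c (m (nat_lit 0x131c58)) e) e) e) e) e))) (c (c (c (c (c (c (p (nat_lit 0x264324)) (c (m (nat_lit 0x98fa0)) e)) (c (c (m (nat_lit 0x131d60)) e) e)) (c (c (c (m (nat_lit 0x98f64))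 e) e) e)) (c (c (c (c (m (nat_lit 0x1464)) e) e) e) e)) (c (c (c (c (c (m (nat_lit 0x990d8)) e) e) e) e) e)) (c (c (c (c (c (c (m (nat_lit 0x9933c)) e) e) e) e) e) e))) (c (c (c (c (c (c (c (p (nat_lit 0x394b60)) (c (m (nat_lit 0x98fb8)) e)) (c (c (p (nat_lit 0x438)) e) e)) (c (c (c (m (nat_lit 0x131580)) e) e) e)) (c (c (c (c (m (nat_lit 0x98de4)) e) e) e) e)) (c (c (c (c (c (m (nat_lit 0x98de4)) e) e) e) e) e)) (c (c (c (c (c (c (m (nat_lit 0x98cf4)) e) e) e) e) e) e)) (c (c (c (c (c (c (c (m (nat_lit 0x131a30)) e) e) e) e) e) e) e))))) (c (c (c (c (c (c (c (c (p (nat_lit 0x12fa20)) (c (p (nat_lit 0x1a10)) (c (p (nat_lit 0x395130)) (c (p (nat_lit 0x438)) e)))) (c (c (p (nat_lit 0x99000)) (c (p (nat_lit 0x265128)) (c (m (nat_lit 0x1caaa8)) e))) (c (c (p (nat_lit 0x264324)) (c (m (nat_lit 0x1464)) e)) (c (c (m (nat_lit 0x98cf4)) e) e))))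 (c (c (c (m (nat_lit 0x131508)) (c (p (nat_lit 0x265128)) (c (p (nat_lit 0x120)) e))) (c (c (p (nat_lit 0x264048)) (c (m (nat_lit 0x570)) e)) (c (c (m (nat_lit 0x131d18)) e) e))) (c (c (c (p (nat_lit 0x2fc4e4)) (c (m (nat_lit 0x1464)) e)) (c (c (m (nat_lit 0x98d30)) e) e)) (c (c (c (m (nat_lit 0x98de4)) e) e) e)))) (c (c (c (c (p (nat_lit 0xdbf6fe28)) (c (m (nat_lit 0x30e364)) (c (m (nat_lit 0x131d60)) e))) (c (c (p (nat_lit 0x2fcdb4)) (c (m (nat_lit 0x1cb054)) e)) (c (c (m (nat_lit 0x991a4)) e) e))) (c (c (c (p (nat_lit 0x263418)) (c (m (nat_lit 0x98ec8)) e)) (c (c (m (nat_lit 0x131f64)) e) e)) (c (c (c (m (nat_lit 0x131ad8)) e) e) e))) (c (c (c (c (m (nat_lit 0x8037d668)) (c (m (nat_lit 0x131058)) e)) (c (c (m (nat_lit 0x131df0)) e) e)) (c (c (c (m (nat_lit 0x98d0c)) e) e) e)) (c (c (c (c (m (nat_lit 0x131580)) e) e) e) e)))) (c (c (c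 (c (c (m (nat_lit 0x131508)) (c (p (nat_lit 0x265128)) (c (p (nat_lit 0x120)) e))) (c (c (p (nat_lit 0x263f7c)) (c (m (nat_lit 0x570)) e)) (c (c (m (nat_lit 0x98fa0)) e) e))) (c (c (c (p (nat_lit 0x263418)) (c (m (nat_lit 0x263b80)) e)) (c (c (m (nat_lit 0x131f64)) e) e)) (c (c (c (m (nat_lit 0x98d0c)) e) e) e))) (c (c (c (c (m (nat_lit 0xb610c450)) (c (p (nat_lit 0x1d84dc)) e)) (c (c (m (nat_lit 0x131eec)) e) e)) (c (c (c (p (nat_lit 0xa7a29a0)) e) e) e)) (c (c (c (c (p (nat_lit 0x68249c58)) e) e) e) e))) (c (c (c (c (c (p (nat_lit 0x2fc4e4)) (c (m (nat_lit 0x1464)) e)) (c (c (m (nat_lit 0x990d8)) e) e)) (c (c (c (m (nat_lit 0x98d0c)) e) e) e)) (c (c (c (c (p (nat_lit 0x18b99b74)) e) e) e) e)) (c (c (c (c (c (m (nat_lit 0x98de4)) e) e) e) e) e)))) (c (c (c (c (c (c (p (nat_lit 0x99000)) (c (p (nat_lit 0x265128)) (c (m (nat_lit 0x1caaa8))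 e))) (c (c (p (nat_lit 0x132198)) (c (m (nat_lit 0x263b80)) e)) (c (c (m (nat_lit 0x98f64)) e) e))) (c (c (c (p (nat_lit 0x263f7c)) (c (m (nat_lit 0x570)) e)) (c (c (m (nat_lit 0x98ef8)) e) e)) (c (c (c (m (nat_lit 0x990d8)) e) e) e))) (c (c (c (c (m (nat_lit 0x30e364)) (c (m (nat_lit 0x132000)) e)) (c (c (m (nat_lit 0x99060)) e) e)) (c (c (c (m (nat_lit 0x98ec8)) e) e) e)) (c (c (c (c (p (nat_lit 0x24f0)) e) e) e) e))) (c (c (c (c (c (p (nat_lit 0x264048)) (c (m (nat_lit 0x570)) e)) (c (c (m (nat_lit 0x98ef8)) e) e)) (c (c (c (m (nat_lit 0x131f64)) e) e) e)) (c (c (c (c (p (nat_lit 0xcf0)) e) e) e) e)) (c (c (c (c (c (m (nat_lit 0x98d30)) e) e) e) e) e))) (c (c (c (c (c (c (p (nat_lit 0x264324)) (c (m (nat_lit 0x1464)) e)) (c (c (m (nat_lit 0x98f64)) e) e)) (c (c (c (m (nat_lit 0x98fa0)) e) e) e)) (c (c (c (c (m (nat_lit 0x131d60)) e)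 e) e) e)) (c (c (c (c (c (m (nat_lit 0x131d18)) e) e) e) e) e)) (c (c (c (c (c (c (m (nat_lit 0x98cf4)) e) e) e) e) e) e)))) (c (c (c (c (c (c (c (p (nat_lit 0xdbf6fe28)) (c (m (nat_lit 0x30e364)) (c (m (nat_lit 0x131d60)) e))) (c (c (m (nat_lit 0x30e364)) (c (m (nat_lit 0x132000)) e)) (c (c (m (nat_lit 0x131d60)) e) e))) (c (c (c (m (nat_lit 0xb610c450)) (c (p (nat_lit 0x1d84dc)) e)) (c (c (p (nat_lit 0xcf0)) e) e)) (c (c (c (p (nat_lit 0x18b99b74)) e) e) e))) (c (c (c (c (m (nat_lit 0xb610c450)) (c (p (nat_lit 0xcf0)) e)) (c (c (p (nat_lit 0x1d84dc)) e) e)) (c (c (c (p (nat_lit 0xa7a29a0)) e) e) e)) (c (c (c (c (p (nat_lit 0x18b99b74)) e) e) e) e))) (c (c (c (c (c (p (nat_lit 0x263418)) (c (m (nat_lit 0x98ec8)) e)) (c (c (m (nat_lit 0x98ec8)) e) e)) (c (c (c (p (nat_lit 0xa7a29a0)) e) e) e)) (c (c (c (c (p (nat_lit 0xa7a29a0)) e) e) e)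 e)) (c (c (c (c (c (m (nat_lit 0x131ad8)) e) e) e) e) e))) (c (c (c (c (c (c (p (nat_lit 0x2fcdb4)) (c (m (nat_lit 0x1cb054)) e)) (c (c (m (nat_lit 0x99060)) e) e)) (c (c (c (m (nat_lit 0x131eec)) e) e) e)) (c (c (c (c (p (nat_lit 0x1d84dc)) e) e) e) e)) (c (c (c (c (c (m (nat_lit 0x131f64)) e) e) e) e) e)) (c (c (c (c (c (c (m (nat_lit 0x991a4)) e) e) e) e) e) e))) (c (c (c (c (c (c (c (m (nat_lit 0x8037d668)) (c (m (nat_lit 0x131058)) e)) (c (c (p (nat_lit 0x24f0)) e) e)) (c (c (c (p (nat_lit 0x68249c58)) e) e) e)) (c (c (c (c (p (nat_lit 0x18b99b74)) e) e) e) e)) (c (c (c (c (c (m (nat_lit 0x98d0c)) e) e) e) e) e)) (c (c (c (c (c (c (m (nat_lit 0x131df0)) e) e) e) e) e) e)) (c (c (c (c (c (c (c (m (nat_lit 0x131580)) e) e) e) e) e) e) e)))) (c (c (c (c (c (c (c (c (p (nat_lit 0x131bf8)) (c (p (nat_lit 0x395130)) (c (m (nat_lit 0x263700))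 e))) (c (c (p (nat_lit 0x2fdd8c)) (c (p (nat_lit 0x120)) e)) (c (c (m (nat_lit 0x9933c)) e) e))) (c (c (c (p (nat_lit 0x2fc4e4)) (c (m (nat_lit 0x1caaa8)) e)) (c (c (m (nat_lit 0x98d30)) e) e)) (c (c (c (m (nat_lit 0x131c58)) e) e) e))) (c (c (c (c (m (nat_lit 0x8037d668)) (c (p (nat_lit 0x24f0)) e)) (c (c (m (nat_lit 0x98f28)) e) e)) (c (c (c (m (nat_lit 0x98d0c)) e) e) e)) (c (c (c (c (p (nat_lit 0x36ea2d60)) e) e) e) e))) (c (c (c (c (c (p (nat_lit 0x2fc4e4)) (c (m (nat_lit 0x1caaa8)) e)) (c (c (m (nat_lit 0x992b8)) e) e)) (c (c (c (m (nat_lit 0x131ad8)) e) e) e)) (c (c (c (c (p (nat_lit 0x18b99b74)) e) e) e) e)) (c (c (c (c (c (m (nat_lit 0x131c58)) e) e) e) e) e))) (c (c (c (c (c (c (p (nat_lit 0x2fdd8c)) (c (p (nat_lit 0x120)) e)) (c (c (m (nat_lit 0x132078)) e) e)) (c (c (c (m (nat_lit 0x992b8)) e) e) e)) (c (c (c (c (m (nat_lit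 0x131058)) e) e) e) e)) (c (c (c (c (c (m (nat_lit 0x98d30)) e) e) e) e) e)) (c (c (c (c (c (c (m (nat_lit 0x9933c)) e) e) e) e) e) e))) (c (c (c (c (c (c (c (m (nat_lit 0x8037d668)) (c (p (nat_lit 0x24f0)) e)) (c (c (m (nat_lit 0x131058)) e) e)) (c (c (c (p (nat_lit 0x18b99b74)) e) e) e)) (c (c (c (c (p (nat_lit 0x68249c58)) e) e) e) e)) (c (c (c (c (c (m (nat_lit 0x98d0c)) e) e) e) e) e)) (c (c (c (c (c (c (m (nat_lit 0x98f28)) e) e) e) e) e) e)) (c (c (c (c (c (c (c (p (nat_lit 0x36ea2d60)) e) e) e) e) e) e) e))) (c (c (c (c (c (c (c (c (p (nat_lit 0x394b60)) (c (p (nat_lit 0x438)) e)) (c (c (m (nat_lit 0x98fb8)) e) e)) (c (c (c (m (nat_lit 0x98de4)) e) e) e)) (c (c (c (c (m (nat_lit 0x131580)) e) e) e) e)) (c (c (c (c (c (m (nat_lit 0x98de4)) e) e) e) e) e)) (c (c (c (c (c (c (m (nat_lit 0x98fb8)) e) e) e) e) e) e)) (c (c (c (c (c (c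 (c (m (nat_lit 0x131580)) e) e) e) e) e) e) e)) (c (c (c (c (c (c (c (c (m (nat_lit 0x131a30)) e) e) e) e) e) e) e) e))))) (c (c (c (c (c (c (c (c (c (p (nat_lit 0x12fa20)) (c (p (nat_lit 0xdbf6fe28)) (c (m (nat_lit 0x8037d668)) (c (m (nat_lit 0x131580)) e)))) (c (c (m (nat_lit 0x131508)) (c (p (nat_lit 0x263418)) (c (m (nat_lit 0x98d0c)) e))) (c (c (p (nat_lit 0x2fc4e4)) (c (m (nat_lit 0x131ad8)) e)) (c (c (m (nat_lit 0x98de4)) e) e)))) (c (c (c (p (nat_lit 0x1a10)) (c (m (nat_lit 0x30e364)) (c (m (nat_lit 0x131058)) e))) (c (c (p (nat_lit 0x265128)) (c (m (nat_lit 0x98ec8)) e)) (c (c (m (nat_lit 0x1464)) e) e))) (c (c (c (p (nat_lit 0x395130)) (c (m (nat_lit 0x131d60)) e)) (c (c (p (nat_lit 0x120)) e) e)) (c (c (c (p (nat_lit 0x438)) e) e) e)))) (c (c (c (c (p (nat_lit 0x99000)) (c (p (nat_lit 0x2fcdb4)) (c (m (nat_lit 0x131df0)) e)))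 (c (c (p (nat_lit 0x264048)) (c (m (nat_lit 0x131f64)) e)) (c (c (m (nat_lit 0x98d30)) e) e))) (c (c (c (p (nat_lit 0x265128)) (c (m (nat_lit 0x1cb054)) e)) (c (c (m (nat_lit 0x570)) e) e)) (c (c (c (m (nat_lit 0x1caaa8)) e) e) e))) (c (c (c (c (p (nat_lit 0x264324)) (c (m (nat_lit 0x991a4)) e)) (c (c (m (nat_lit 0x131d18)) e) e)) (c (c (c (m (nat_lit 0x1464)) e) e) e)) (c (c (c (c (m (nat_lit 0x98cf4)) e) e) e) e)))) (c (c (c (c (c (p (nat_lit 0x99000)) (c (p (nat_lit 0x2fcdb4)) (c (m (nat_lit 0x98f28)) e))) (c (c (p (nat_lit 0x263f7c)) (c (m (nat_lit 0x131f64)) e)) (c (c (m (nat_lit 0x992b8)) e) e))) (c (c (c (m (nat_lit 0x30e364)) (c (m (nat_lit 0x99060)) e)) (c (c (m (nat_lit 0x1cb054)) e) e)) (c (c (c (p (nat_lit 0x24f0)) e) e) e))) (c (c (c (c (p (nat_lit 0x2fcdb4)) (c (m (nat_lit 0x263d00)) e)) (c (c (m (nat_lit 0x98ef8)) e) e))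 (c (c (c (p (nat_lit 0x1d84dc)) e) e) e)) (c (c (c (c (m (nat_lit 0x131df0)) e) e) e) e))) (c (c (c (c (c (p (nat_lit 0x2fdd8c)) (c (m (nat_lit 0x991a4)) e)) (c (c (m (nat_lit 0x98fa0)) e) e)) (c (c (c (m (nat_lit 0x131058)) e) e) e)) (c (c (c (c (m (nat_lit 0x98f28)) e) e) e) e)) (c (c (c (c (c (m (nat_lit 0x98fb8)) e) e) e) e) e)))) (c (c (c (c (c (c (p (nat_lit 0xdbf6fe28)) (c (m (nat_lit 0xb610c450)) (c (p (nat_lit 0x18b99b74)) e))) (c (c (m (nat_lit 0xb610c450)) (c (p (nat_lit 0xa7a29a0)) e)) (c (c (p (nat_lit 0x18b99b74)) e) e))) (c (c (c (m (nat_lit 0x30e364)) (c (p (nat_lit 0xcf0)) e)) (c (c (p (nat_lit 0x1d84dc)) e) e)) (c (c (c (m (nat_lit 0x131d60)) e) e) e))) (c (c (c (c (m (nat_lit 0x30e364)) (c (p (nat_lit 0x1d84dc)) e)) (c (c (p (nat_lit 0xcf0)) e) e)) (c (c (c (m (nat_lit 0x132000)) e) e) e)) (c (c (c (c (m (nat_lit 0x131d60))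 e) e) e) e))) (c (c (c (c (c (p (nat_lit 0x132198)) (c (m (nat_lit 0x131eec)) e)) (c (c (m (nat_lit 0x131eec)) e) e)) (c (c (c (m (nat_lit 0x99060)) e) e) e)) (c (c (c (c (m (nat_lit 0x99060)) e) e) e) e)) (c (c (c (c (c (m (nat_lit 0x132078)) e) e) e) e) e))) (c (c (c (c (c (c (m (nat_lit 0x8037d668)) (c (p (nat_lit 0x18b99b74)) e)) (c (c (p (nat_lit 0x68249c58)) e) e)) (c (c (c (m (nat_lit 0x131058)) e) e) e)) (c (c (c (c (p (nat_lit 0x24f0)) e) e) e) e)) (c (c (c (c (c (m (nat_lit 0x98f64)) e) e) e) e) e)) (c (c (c (c (c (c (m (nat_lit 0x131580)) e) e) e) e) e) e)))) (c (c (c (c (c (c (c (p (nat_lit 0x99000)) (c (p (nat_lit 0x132198)) (c (m (nat_lit 0x98f64)) e))) (c (c (p (nat_lit 0x265128)) (c (m (nat_lit 0x263b80)) e)) (c (c (m (nat_lit 0x1caaa8)) e) e))) (c (c (c (m (nat_lit 0x30e364)) (c (m (nat_lit 0x99060)) e)) (c (c (m (nat_lit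 0x132000)) e) e)) (c (c (c (p (nat_lit 0x24f0)) e) e) e))) (c (c (c (c (p (nat_lit 0x263f7c)) (c (m (nat_lit 0x98ef8)) e)) (c (c (m (nat_lit 0x570)) e) e)) (c (c (c (m (nat_lit 0x98ec8)) e) e) e)) (c (c (c (c (m (nat_lit 0x990d8)) e) e) e) e))) (c (c (c (c (c (p (nat_lit 0x264048)) (c (m (nat_lit 0x98ef8)) e)) (c (c (m (nat_lit 0x570)) e) e)) (c (c (c (p (nat_lit 0xcf0)) e) e) e)) (c (c (c (c (m (nat_lit 0x131f64)) e) e) e) e)) (c (c (c (c (c (m (nat_lit 0x98d30)) e) e) e) e) e))) (c (c (c (c (c (c (p (nat_lit 0x2fcdb4)) (c (m (nat_lit 0x131eec)) e)) (c (c (p (nat_lit 0x1d84dc)) e) e)) (c (c (c (m (nat_lit 0x99060)) e) e) e)) (c (c (c (c (m (nat_lit 0x1cb054)) e) e) e) e)) (c (c (c (c (c (m (nat_lit 0x98ef8)) e) e) e) e) e)) (c (c (c (c (c (c (m (nat_lit 0x98f28)) e) e) e) e) e) e))) (c (c (c (c (c (c (c (p (nat_lit 0x2fdd8c)) (c (m (nat_lit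 0x132078)) e)) (c (c (p (nat_lit 0x120)) e) e)) (c (c (c (m (nat_lit 0x131058)) e) e) e)) (c (c (c (c (m (nat_lit 0x992b8)) e) e) e) e)) (c (c (c (c (c (m (nat_lit 0x98d30)) e) e) e) e) e)) (c (c (c (c (c (c (m (nat_lit 0x991a4)) e) e) e) e) e) e)) (c (c (c (c (c (c (c (m (nat_lit 0x98fb8)) e) e) e) e) e) e) e)))) (c (c (c (c (c (c (c (c (p (nat_lit 0x99000)) (c (m (nat_lit 0x30e364)) (c (p (nat_lit 0x24f0)) e))) (c (c (p (nat_lit 0x263f7c)) (c (m (nat_lit 0x98ec8)) e)) (c (c (m (nat_lit 0x990d8)) e) e))) (c (c (c (p (nat_lit 0x265128)) (c (m (nat_lit 0x132000)) e)) (c (c (m (nat_lit 0x570)) e) e)) (c (c (c (m (nat_lit 0x1caaa8)) e) e) e))) (c (c (c (c (p (nat_lit 0x132198)) (c (m (nat_lit 0x99060)) e)) (c (c (m (nat_lit 0x98ef8)) e) e)) (c (c (c (m (nat_lit 0x263b80)) e) e) e)) (c (c (c (c (m (nat_lit 0x98f64)) e) e) e) e))) (c (c (c (c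 (c (p (nat_lit 0x263f7c)) (c (m (nat_lit 0x1cb054)) e)) (c (c (m (nat_lit 0x263fd0)) e) e)) (c (c (c (m (nat_lit 0x98ec8)) e) e) e)) (c (c (c (c (m (nat_lit 0x131eec)) e) e) e) e)) (c (c (c (c (c (m (nat_lit 0x992b8)) e) e) e) e) e))) (c (c (c (c (c (c (p (nat_lit 0x2fcdb4)) (c (p (nat_lit 0x1d84dc)) e)) (c (c (m (nat_lit 0x131eec)) e) e)) (c (c (c (m (nat_lit 0x1cb054)) e) e) e)) (c (c (c (c (m (nat_lit 0x99060)) e) e) e) e)) (c (c (c (c (c (m (nat_lit 0x98ef8)) e) e) e) e) e)) (c (c (c (c (c (c (m (nat_lit 0x131df0)) e) e) e) e) e) e))) (c (c (c (c (c (c (c (p (nat_lit 0x2fcdb4)) (c (m (nat_lit 0x99060)) e)) (c (c (m (nat_lit 0x1cb054)) e) e)) (c (c (c (p (nat_lit 0x1d84dc)) e) e) e)) (c (c (c (c (m (nat_lit 0x131eec)) e) e) e) e)) (c (c (c (c (c (m (nat_lit 0x131f64)) e) e) e) e) e)) (c (c (c (c (c (c (m (nat_lit 0x263d00)) e) e) e)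 e) e) e)) (c (c (c (c (c (c (c (m (nat_lit 0x98f28)) e) e) e) e) e) e) e))) (c (c (c (c (c (c (c (c (p (nat_lit 0x264324)) (c (m (nat_lit 0x131d60)) e)) (c (c (m (nat_lit 0x98fa0)) e) e)) (c (c (c (m (nat_lit 0x1464)) e) e) e)) (c (c (c (c (m (nat_lit 0x98f64)) e) e) e) e)) (c (c (c (c (c (m (nat_lit 0x990d8)) e) e) e) e) e)) (c (c (c (c (c (c (m (nat_lit 0x991a4)) e) e) e) e) e) e)) (c (c (c (c (c (c (c (m (nat_lit 0x131df0)) e) e) e) e) e) e) e)) (c (c (c (c (c (c (c (c (m (nat_lit 0x98cf4)) e) e) e) e) e) e) e) e)))) (c (c (c (c (c (c (c (c (c (p (nat_lit 0x131bf8)) (c (m (nat_lit 0x8037d668)) (c (p (nat_lit 0x36ea2d60)) e))) (c (c (p (nat_lit 0x2fc4e4)) (c (m (nat_lit 0x98d0c)) e)) (c (c (m (nat_lit 0x131c58)) e) e))) (c (c (c (p (nat_lit 0x395130)) (c (p (nat_lit 0x24f0)) e)) (c (c (m (nat_lit 0x1caaa8)) e) e)) (c (c (c (m (nat_lit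 0x263700)) e) e) e))) (c (c (c (c (p (nat_lit 0x2fdd8c)) (c (m (nat_lit 0x98f28)) e)) (c (c (m (nat_lit 0x98d30)) e) e)) (c (c (c (p (nat_lit 0x120)) e) e) e)) (c (c (c (c (m (nat_lit 0x9933c)) e) e) e) e))) (c (c (c (c (c (p (nat_lit 0x264324)) (c (m (nat_lit 0x131df0)) e)) (c (c (m (nat_lit 0x990d8)) e) e)) (c (c (c (m (nat_lit 0x131d60)) e) e) e)) (c (c (c (c (m (nat_lit 0x991a4)) e) e) e) e)) (c (c (c (c (c (m (nat_lit 0x9933c)) e) e) e) e) e))) (c (c (c (c (c (c (m (nat_lit 0x8037d668)) (c (p (nat_lit 0x68249c58)) e)) (c (c (p (nat_lit 0x18b99b74)) e) e)) (c (c (c (p (nat_lit 0x24f0)) e) e) e)) (c (c (c (c (m (nat_lit 0x131058)) e) e) e) e)) (c (c (c (c (c (m (nat_lit 0x98f64)) e) e) e) e) e)) (c (c (c (c (c (c (p (nat_lit 0x36ea2d60)) e) e) e) e) e) e))) (c (c (c (c (c (c (c (p (nat_lit 0x264324)) (c (m (nat_lit 0x98f64)) e)) (c (c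 (m (nat_lit 0x1464)) e) e)) (c (c (c (m (nat_lit 0x131d60)) e) e) e)) (c (c (c (c (m (nat_lit 0x98fa0)) e) e) e) e)) (c (c (c (c (c (m (nat_lit 0x131d18)) e) e) e) e) e)) (c (c (c (c (c (c (m (nat_lit 0x131df0)) e) e) e) e) e) e)) (c (c (c (c (c (c (c (m (nat_lit 0x9933c)) e) e) e) e) e) e) e))) (c (c (c (c (c (c (c (c (p (nat_lit 0x2fdd8c)) (c (m (nat_lit 0x131058)) e)) (c (c (m (nat_lit 0x992b8)) e) e)) (c (c (c (p (nat_lit 0x120)) e) e) e)) (c (c (c (c (m (nat_lit 0x132078)) e) e) e) e)) (c (c (c (c (c (m (nat_lit 0x98fa0)) e) e) e) e) e)) (c (c (c (c (c (c (m (nat_lit 0x98f28)) e) e) e) e) e) e)) (c (c (c (c (c (c (c (m (nat_lit 0x991a4)) e) e) e) e) e) e) e)) (c (c (c (c (c (c (c (c (m (nat_lit 0x9933c)) e) e) e) e) e) e) e) e))) (c (c (c (c (c (c (c (c (c (p (nat_lit 0x394b60)) (c (m (nat_lit 0x131580)) e)) (c (c (m (nat_lit 0x98de4))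 e) e)) (c (c (c (p (nat_lit 0x438)) e) e) e)) (c (c (c (c (m (nat_lit 0x98fb8)) e) e) e) e)) (c (c (c (c (c (m (nat_lit 0x98cf4)) e) e) e) e) e)) (c (c (c (c (c (c (m (nat_lit 0x131580)) e) e) e) e) e) e)) (c (c (c (c (c (c (c (m (nat_lit 0x98cf4)) e) e) e) e) e) e) e)) (c (c (c (c (c (c (c (c (m (nat_lit 0x98fb8)) e) e) e) e) e) e) e) e)) (c (c (c (c (c (c (c (c (c (m (nat_lit 0x131a30)) e) e) e) e) e) e) e) e) e))))) (c (c (c (c (c (c (c (c (c (c (p (nat_lit 0x12fa20)) (c (p (nat_lit 0xdbf6fe28)) (c (m (nat_lit 0x8037d668)) (c (m (nat_lit 0x131580)) e)))) (c (c (p (nat_lit 0xdbf6fe28)) (c (m (nat_lit 0xb610c450)) (c (p (nat_lit 0x18b99b74)) e))) (c (c (m (nat_lit 0x8037d668)) (c (p (nat_lit 0x18b99b74)) e)) (c (c (m (nat_lit 0x131580)) e) e)))) (c (c (c (p (nat_lit 0x99000)) (c (p (nat_lit 0x2fcdb4)) (c (m (nat_lit 0x98f28)) e))) (c (c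 (p (nat_lit 0x132198)) (c (m (nat_lit 0x131eec)) e)) (c (c (m (nat_lit 0x98f64)) e) e))) (c (c (c (p (nat_lit 0x2fdd8c)) (c (m (nat_lit 0x991a4)) e)) (c (c (m (nat_lit 0x132078)) e) e)) (c (c (c (m (nat_lit 0x98fb8)) e) e) e)))) (c (c (c (c (p (nat_lit 0x99000)) (c (p (nat_lit 0x132198)) (c (m (nat_lit 0x98f64)) e))) (c (c (p (nat_lit 0x2fcdb4)) (c (m (nat_lit 0x131eec)) e)) (c (c (m (nat_lit 0x98f28)) e) e))) (c (c (c (p (nat_lit 0x264048)) (c (m (nat_lit 0x98ef8)) e)) (c (c (m (nat_lit 0x98ef8)) e) e)) (c (c (c (m (nat_lit 0x98d30)) e) e) e))) (c (c (c (c (p (nat_lit 0x2fdd8c)) (c (m (nat_lit 0x132078)) e)) (c (c (m (nat_lit 0x991a4)) e) e)) (c (c (c (m (nat_lit 0x98d30)) e) e) e)) (c (c (c (c (m (nat_lit 0x98fb8)) e) e) e) e)))) (c (c (c (c (c (p (nat_lit 0x1a10)) (c (m (nat_lit 0x30e364)) (c (m (nat_lit 0x131058)) e))) (c (c (m (nat_lit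 0x30e364)) (c (p (nat_lit 0xcf0)) e)) (c (c (m (nat_lit 0x131058)) e) e))) (c (c (c (m (nat_lit 0x30e364)) (c (m (nat_lit 0x99060)) e)) (c (c (m (nat_lit 0x99060)) e) e)) (c (c (c (m (nat_lit 0x131058)) e) e) e))) (c (c (c (c (m (nat_lit 0x30e364)) (c (m (nat_lit 0x99060)) e)) (c (c (m (nat_lit 0x99060)) e) e)) (c (c (c (p (nat_lit 0xcf0)) e) e) e)) (c (c (c (c (m (nat_lit 0x131058)) e) e) e) e))) (c (c (c (c (c (p (nat_lit 0x395130)) (c (m (nat_lit 0x131d60)) e)) (c (c (m (nat_lit 0x131d60)) e) e)) (c (c (c (p (nat_lit 0x24f0)) e) e) e)) (c (c (c (c (p (nat_lit 0x24f0)) e) e) e) e)) (c (c (c (c (c (p (nat_lit 0x438)) e) e) e) e) e)))) (c (c (c (c (c (c (m (nat_lit 0x131508)) (c (p (nat_lit 0x263418)) (c (m (nat_lit 0x98d0c)) e))) (c (c (m (nat_lit 0xb610c450)) (c (p (nat_lit 0xa7a29a0)) e)) (c (c (p (nat_lit 0x68249c58)) e) e))) (c (c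 (c (p (nat_lit 0x263f7c)) (c (m (nat_lit 0x131f64)) e)) (c (c (m (nat_lit 0x131eec)) e) e)) (c (c (c (m (nat_lit 0x98fa0)) e) e) e))) (c (c (c (c (p (nat_lit 0x265128)) (c (m (nat_lit 0x263b80)) e)) (c (c (p (nat_lit 0x1d84dc)) e) e)) (c (c (c (m (nat_lit 0x570)) e) e) e)) (c (c (c (c (p (nat_lit 0x120)) e) e) e) e))) (c (c (c (c (c (p (nat_lit 0x265128)) (c (m (nat_lit 0x98ec8)) e)) (c (c (p (nat_lit 0x1d84dc)) e) e)) (c (c (c (m (nat_lit 0x1cb054)) e) e) e)) (c (c (c (c (m (nat_lit 0x132000)) e) e) e) e)) (c (c (c (c (c (p (nat_lit 0x120)) e) e) e) e) e))) (c (c (c (c (c (c (p (nat_lit 0x2fc4e4)) (c (m (nat_lit 0x131ad8)) e)) (c (c (p (nat_lit 0x18b99b74)) e) e)) (c (c (c (m (nat_lit 0x992b8)) e) e) e)) (c (c (c (c (m (nat_lit 0x1caaa8)) e) e) e) e)) (c (c (c (c (c (m (nat_lit 0x1464)) e) e) e) e) e)) (c (c (c (c (c (c (m (nat_lit 0x98de4))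 e) e) e) e) e) e)))) (c (c (c (c (c (c (c (p (nat_lit 0x99000)) (c (p (nat_lit 0x2fcdb4)) (c (m (nat_lit 0x131df0)) e))) (c (c (m (nat_lit 0x30e364)) (c (p (nat_lit 0x1d84dc)) e)) (c (c (p (nat_lit 0x24f0)) e) e))) (c (c (c (p (nat_lit 0x2fcdb4)) (c (m (nat_lit 0x263d00)) e)) (c (c (m (nat_lit 0x99060)) e) e)) (c (c (c (m (nat_lit 0x98f28)) e) e) e))) (c (c (c (c (p (nat_lit 0x263f7c)) (c (m (nat_lit 0x98ef8)) e)) (c (c (m (nat_lit 0x1cb054)) e) e)) (c (c (c (m (nat_lit 0x131f64)) e) e) e)) (c (c (c (c (m (nat_lit 0x992b8)) e) e) e) e))) (c (c (c (c (c (p (nat_lit 0x265128)) (c (m (nat_lit 0x1cb054)) e)) (c (c (m (nat_lit 0x132000)) e) e)) (c (c (c (p (nat_lit 0x1d84dc)) e) e) e)) (c (c (c (c (m (nat_lit 0x98ec8)) e) e) e) e)) (c (c (c (c (c (m (nat_lit 0x1caaa8)) e) e) e) e) e))) (c (c (c (c (c (c (p (nat_lit 0x264048)) (c (m (nat_lit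 0x131f64)) e)) (c (c (p (nat_lit 0xcf0)) e) e)) (c (c (c (m (nat_lit 0x98ef8)) e) e) e)) (c (c (c (c (m (nat_lit 0x570)) e) e) e) e)) (c (c (c (c (c (m (nat_lit 0x570)) e) e) e) e) e)) (c (c (c (c (c (c (m (nat_lit 0x98d30)) e) e) e) e) e) e))) (c (c (c (c (c (c (c (p (nat_lit 0x264324)) (c (m (nat_lit 0x991a4)) e)) (c (c (m (nat_lit 0x131d60)) e) e)) (c (c (c (m (nat_lit 0x131df0)) e) e) e)) (c (c (c (c (m (nat_lit 0x990d8)) e) e) e) e)) (c (c (c (c (c (m (nat_lit 0x1464)) e) e) e) e) e)) (c (c (c (c (c (c (m (nat_lit 0x131d18)) e) e) e) e) e) e)) (c (c (c (c (c (c (c (m (nat_lit 0x98cf4)) e) e) e) e) e) e) e)))) (c (c (c (c (c (c (c (c (p (nat_lit 0x99000)) (c (m (nat_lit 0x30e364)) (c (p (nat_lit 0x24f0)) e))) (c (c (p (nat_lit 0x2fcdb4)) (c (p (nat_lit 0x1d84dc)) e)) (c (c (m (nat_lit 0x131df0)) e) e))) (c (c (c (p (nat_lit 0x263f7c))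 (c (m (nat_lit 0x1cb054)) e)) (c (c (m (nat_lit 0x98ef8)) e) e)) (c (c (c (m (nat_lit 0x992b8)) e) e) e))) (c (c (c (c (p (nat_lit 0x2fcdb4)) (c (m (nat_lit 0x99060)) e)) (c (c (m (nat_lit 0x263d00)) e) e)) (c (c (c (m (nat_lit 0x131f64)) e) e) e)) (c (c (c (c (m (nat_lit 0x98f28)) e) e) e) e))) (c (c (c (c (c (p (nat_lit 0x265128)) (c (m (nat_lit 0x132000)) e)) (c (c (m (nat_lit 0x1cb054)) e) e)) (c (c (c (m (nat_lit 0x98ec8)) e) e) e)) (c (c (c (c (p (nat_lit 0x1d84dc)) e) e) e) e)) (c (c (c (c (c (m (nat_lit 0x1caaa8)) e) e) e) e) e))) (c (c (c (c (c (c (p (nat_lit 0x263f7c)) (c (m (nat_lit 0x98ec8)) e)) (c (c (m (nat_lit 0x131eec)) e) e)) (c (c (c (m (nat_lit 0x263fd0)) e) e) e)) (c (c (c (c (m (nat_lit 0x1cb054)) e) e) e) e)) (c (c (c (c (c (m (nat_lit 0x570)) e) e) e) e) e)) (c (c (c (c (c (c (m (nat_lit 0x990d8)) e) e) e) e) e) e)))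 (c (c (c (c (c (c (c (p (nat_lit 0x132198)) (c (m (nat_lit 0x99060)) e)) (c (c (m (nat_lit 0x99060)) e) e)) (c (c (c (m (nat_lit 0x131eec)) e) e) e)) (c (c (c (c (m (nat_lit 0x131eec)) e) e) e) e)) (c (c (c (c (c (m (nat_lit 0x263b80)) e) e) e) e) e)) (c (c (c (c (c (c (m (nat_lit 0x98ef8)) e) e) e) e) e) e)) (c (c (c (c (c (c (c (m (nat_lit 0x98f64)) e) e) e) e) e) e) e))) (c (c (c (c (c (c (c (c (p (nat_lit 0x264324)) (c (m (nat_lit 0x131d60)) e)) (c (c (m (nat_lit 0x991a4)) e) e)) (c (c (c (m (nat_lit 0x990d8)) e) e) e)) (c (c (c (c (m (nat_lit 0x131df0)) e) e) e) e)) (c (c (c (c (c (m (nat_lit 0x1464)) e) e) e) e) e)) (c (c (c (c (c (c (m (nat_lit 0x98fa0)) e) e) e) e) e) e)) (c (c (c (c (c (c (c (m (nat_lit 0x98f64)) e) e) e) e) e) e) e)) (c (c (c (c (c (c (c (c (m (nat_lit 0x98cf4)) e) e) e) e) e) e) e) e)))) (c (c (c (c (c (c (c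 (c (c (m (nat_lit 0x131508)) (c (m (nat_lit 0xb610c450)) (c (p (nat_lit 0x68249c58)) e))) (c (c (p (nat_lit 0x263418)) (c (p (nat_lit 0xa7a29a0)) e)) (c (c (m (nat_lit 0x98d0c)) e) e))) (c (c (c (p (nat_lit 0x265128)) (c (p (nat_lit 0x1d84dc)) e)) (c (c (m (nat_lit 0x263b80)) e) e)) (c (c (c (p (nat_lit 0x120)) e) e) e))) (c (c (c (c (p (nat_lit 0x263f7c)) (c (m (nat_lit 0x131eec)) e)) (c (c (m (nat_lit 0x131f64)) e) e)) (c (c (c (m (nat_lit 0x570)) e) e) e)) (c (c (c (c (m (nat_lit 0x98fa0)) e) e) e) e))) (c (c (c (c (c (p (nat_lit 0x265128)) (c (p (nat_lit 0x1d84dc)) e)) (c (c (m (nat_lit 0x98ec8)) e) e)) (c (c (c (m (nat_lit 0x132000)) e) e) e)) (c (c (c (c (m (nat_lit 0x1cb054)) e) e) e) e)) (c (c (c (c (c (p (nat_lit 0x120)) e) e) e) e) e))) (c (c (c (c (c (c (p (nat_lit 0x263418)) (c (p (nat_lit 0xa7a29a0)) e)) (c (c (p (nat_lit 0xa7a29a0))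 e) e)) (c (c (c (m (nat_lit 0x98ec8)) e) e) e)) (c (c (c (c (m (nat_lit 0x98ec8)) e) e) e) e)) (c (c (c (c (c (m (nat_lit 0x263b80)) e) e) e) e) e)) (c (c (c (c (c (c (m (nat_lit 0x98d0c)) e) e) e) e) e) e))) (c (c (c (c (c (c (c (p (nat_lit 0x263f7c)) (c (m (nat_lit 0x131eec)) e)) (c (c (m (nat_lit 0x98ec8)) e) e)) (c (c (c (m (nat_lit 0x1cb054)) e) e) e)) (c (c (c (c (m (nat_lit 0x263fd0)) e) e) e) e)) (c (c (c (c (c (m (nat_lit 0x570)) e) e) e) e) e)) (c (c (c (c (c (c (m (nat_lit 0x131f64)) e) e) e) e) e) e)) (c (c (c (c (c (c (c (m (nat_lit 0x98fa0)) e) e) e) e) e) e) e))) (c (c (c (c (c (c (c (c (p (nat_lit 0x264048)) (c (p (nat_lit 0xcf0)) e)) (c (c (m (nat_lit 0x131f64)) e) e)) (c (c (c (m (nat_lit 0x570)) e) e) e)) (c (c (c (c (m (nat_lit 0x98ef8)) e) e) e) e)) (c (c (c (c (c (m (nat_lit 0x570)) e) e) e) e) e)) (c (c (c (c (c (c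 (m (nat_lit 0x131f64)) e) e) e) e) e) e)) (c (c (c (c (c (c (c (m (nat_lit 0x98ef8)) e) e) e) e) e) e) e)) (c (c (c (c (c (c (c (c (m (nat_lit 0x131d18)) e) e) e) e) e) e) e) e))) (c (c (c (c (c (c (c (c (c (p (nat_lit 0x2fc4e4)) (c (p (nat_lit 0x18b99b74)) e)) (c (c (m (nat_lit 0x131ad8)) e) e)) (c (c (c (m (nat_lit 0x1caaa8)) e) e) e)) (c (c (c (c (m (nat_lit 0x992b8)) e) e) e) e)) (c (c (c (c (c (m (nat_lit 0x1464)) e) e) e) e) e)) (c (c (c (c (c (c (m (nat_lit 0x98d0c)) e) e) e) e) e) e)) (c (c (c (c (c (c (c (m (nat_lit 0x990d8)) e) e) e) e) e) e) e)) (c (c (c (c (c (c (c (c (m (nat_lit 0x98d30)) e) e) e) e) e) e) e) e)) (c (c (c (c (c (c (c (c (c (m (nat_lit 0x98de4)) e) e) e) e) e) e) e) e) e)))) (c (c (c (c (c (c (c (c (c (c (p (nat_lit 0x131bf8)) (c (m (nat_lit 0x8037d668)) (c (p (nat_lit 0x36ea2d60)) e))) (c (c (m (nat_lit 0x8037d668))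 (c (p (nat_lit 0x68249c58)) e)) (c (c (p (nat_lit 0x36ea2d60)) e) e))) (c (c (c (p (nat_lit 0x264324)) (c (m (nat_lit 0x131df0)) e)) (c (c (m (nat_lit 0x98f64)) e) e)) (c (c (c (m (nat_lit 0x9933c)) e) e) e))) (c (c (c (c (p (nat_lit 0x264324)) (c (m (nat_lit 0x98f64)) e)) (c (c (m (nat_lit 0x131df0)) e) e)) (c (c (c (m (nat_lit 0x131d18)) e) e) e)) (c (c (c (c (m (nat_lit 0x9933c)) e) e) e) e))) (c (c (c (c (c (p (nat_lit 0x395130)) (c (p (nat_lit 0x24f0)) e)) (c (c (p (nat_lit 0x24f0)) e) e)) (c (c (c (m (nat_lit 0x131d60)) e) e) e)) (c (c (c (c (m (nat_lit 0x131d60)) e) e) e) e)) (c (c (c (c (c (m (nat_lit 0x263700)) e) e) e) e) e))) (c (c (c (c (c (c (p (nat_lit 0x2fc4e4)) (c (m (nat_lit 0x98d0c)) e)) (c (c (p (nat_lit 0x18b99b74)) e) e)) (c (c (c (m (nat_lit 0x990d8)) e) e) e)) (c (c (c (c (m (nat_lit 0x1464)) e) e) e) e)) (c (c (c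 (c (c (m (nat_lit 0x1caaa8)) e) e) e) e) e)) (c (c (c (c (c (c (m (nat_lit 0x131c58)) e) e) e) e) e) e))) (c (c (c (c (c (c (c (p (nat_lit 0x2fdd8c)) (c (m (nat_lit 0x98f28)) e)) (c (c (m (nat_lit 0x131058)) e) e)) (c (c (c (m (nat_lit 0x991a4)) e) e) e)) (c (c (c (c (m (nat_lit 0x98fa0)) e) e) e) e)) (c (c (c (c (c (p (nat_lit 0x120)) e) e) e) e) e)) (c (c (c (c (c (c (m (nat_lit 0x98d30)) e) e) e) e) e) e)) (c (c (c (c (c (c (c (m (nat_lit 0x9933c)) e) e) e) e) e) e) e))) (c (c (c (c (c (c (c (c (p (nat_lit 0x2fdd8c)) (c (m (nat_lit 0x131058)) e)) (c (c (m (nat_lit 0x98f28)) e) e)) (c (c (c (m (nat_lit 0x98fa0)) e) e) e)) (c (c (c (c (m (nat_lit 0x991a4)) e) e) e) e)) (c (c (c (c (c (p (nat_lit 0x120)) e) e) e) e) e)) (c (c (c (c (c (c (m (nat_lit 0x992b8)) e) e) e) e) e) e)) (c (c (c (c (c (c (c (m (nat_lit 0x132078)) e) e) e) e) e)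 e) e)) (c (c (c (c (c (c (c (c (m (nat_lit 0x9933c)) e) e) e) e) e) e) e) e))) (c (c (c (c (c (c (c (c (c (p (nat_lit 0x2fc4e4)) (c (p (nat_lit 0x18b99b74)) e)) (c (c (m (nat_lit 0x98d0c)) e) e)) (c (c (c (m (nat_lit 0x1464)) e) e) e)) (c (c (c (c (m (nat_lit 0x990d8)) e) e) e) e)) (c (c (c (c (c (m (nat_lit 0x1caaa8)) e) e) e) e) e)) (c (c (c (c (c (c (m (nat_lit 0x131ad8)) e) e) e) e) e) e)) (c (c (c (c (c (c (c (m (nat_lit 0x992b8)) e) e) e) e) e) e) e)) (c (c (c (c (c (c (c (c (m (nat_lit 0x98d30)) e) e) e) e) e) e) e) e)) (c (c (c (c (c (c (c (c (c (m (nat_lit 0x131c58)) e) e) e) e) e) e) e) e) e))) (c (c (c (c (c (c (c (c (c (c (p (nat_lit 0x394b60)) (c (m (nat_lit 0x131580)) e)) (c (c (m (nat_lit 0x131580)) e) e)) (c (c (c (m (nat_lit 0x98cf4)) e) e) e)) (c (c (c (c (m (nat_lit 0x98cf4)) e) e) e) e)) (c (c (c (c (c (p (nat_lit 0x438))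 e) e) e) e) e)) (c (c (c (c (c (c (m (nat_lit 0x98de4)) e) e) e) e) e) e)) (c (c (c (c (c (c (c (m (nat_lit 0x98fb8)) e) e) e) e) e) e) e)) (c (c (c (c (c (c (c (c (m (nat_lit 0x98fb8)) e) e) e) e) e) e) e) e)) (c (c (c (c (c (c (c (c (c (m (nat_lit 0x98de4)) e) e) e) e) e) e) e) e) e)) (c (c (c (c (c (c (c (c (c (c (m (nat_lit 0x131a30)) e) e) e) e) e) e) e) e) e) e)))))

theorem c1 : trsOK col trs = true := by decide +kernel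
theorem c2 : Nat.ble (Nat.mul (nat_lit 39) (nat_lit 4556)) (nat_lit 4294967295) = true := by decide +kernel
theorem c3 : Nat.beq (tabK (nat_lit 39) (List.ofFn s10)) kt = true := by decide +kernel
theorem c4 : okE trs E = true := by decide +kernel
theorem c5 : dE E (nat_lit 4) = true := by decide +kernel
theorem c6 : cmpK (nat_lit 10) (nat_lit 4) kt E T = true := by decide +kernel
theorem c7 : bndK (nat_lit 10) (nat_lit 4) (Nat.pow (nat_lit 2) (nat_lit 39)) E T = true := by decide +kernel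

theorem c0 : Fl.codeB col = 236 := by decide +kernel

theorem own : Fl.OwnOK 4 T 236 :=
  own_ok c0 c1 c2 c3 c4 c5 c6 c7

end H236

end Own

end HR
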