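import Pool.Agent.Lib.MP_a1b8b7_co.B.OwnOK

set_option autoImplicit false

namespace HR

namespace Own

namespace H3

open Chk

def col : Fin 10 → Bool := ![true, true, false, false, false, false, false, false, false, false]

def trs : List ℕ := [nat_lit 2403, nat_lit 1346, nat_lit 2162, nat_lit 2420, nat_lit 2437]

def kt : ℕ := nat_lit 0x28000000c80000034800000898000017e800003c50000086100000e8f80001b1200002c7e0

open Ex in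
noncomputable def E : Ex := (a (a (a (a (u (nat_lit 9) (v (nat_lit 9) (v (nat_lit 9) (v (nat_lit 9) (k (nat_lit 0x263298)))))) (a (v (nat_lit 8) (u (nat_lit 9) (v (nat_lit 9) (v (nat_lit 9) (k (nat_lit 0x9917a)))))) (u (nat_lit 8) (v (nat_lit 8) (a (v (nat_lit 9) (v (nat_lit 9) (k (nat_lit 0x98ca6)))) (v (nat_lit 8) (a (v (nat_lit 9) (k (nat_lit 0x98d48))) (v (nat_lit 8) (k (nat_lit 0x98e8c)))))))))) (a (v (nat_lit 7) (a (a (u (nat_lit 9) (v (nat_lit 9) (v (nat_lit 9) (k (nat_lit 0x9917a))))) (v (nat_lit 8) (u (nat_lit 9) (v (nat_lit 9) (k (nat_lit 0x132f78)))))) (a (u (nat_lit 8) (a (v (nat_lit 9) (v (nat_lit 9) (k (nat_lit 0x98d5a)))) (v (nat_lit 8) (a (v (nat_lit 9) (k (nat_lit 0x99d62))) (v (nat_lit 8) (k (nat_lit 0x9b2b6))))))) (v (nat_lit 7) (a (u (nat_lit 8) (a (v (nat_lit 9) (k (nat_lit 0x97d3a))) (v (nat_lit 8) (k (nat_lit 0x98ec2)))))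 (v (nat_lit 7) (u (nat_lit 8) (k (nat_lit 0x96846))))))))) (a (u (nat_lit 7) (a (v (nat_lit 8) (a (v (nat_lit 9) (v (nat_lit 9) (k (nat_lit 0x98d5a)))) (v (nat_lit 8) (a (v (nat_lit 9) (k (nat_lit 0x97d3a))) (v (nat_lit 8) (k (nat_lit 0x96846))))))) (v (nat_lit 7) (a (v (nat_lit 9) (v (nat_lit 9) (k (nat_lit 0x98ca6)))) (a (v (nat_lit 8) (a (v (nat_lit 9) (k (nat_lit 0x99d62))) (v (nat_lit 8) (k (nat_lit 0x98ec2))))) (v (nat_lit 7) (a (v (nat_lit 9) (k (nat_lit 0x98d48))) (a (v (nat_lit 8) (k (nat_lit 0x9b2b6))) (v (nat_lit 7) (k (nat_lit 0x98e8c))))))))))) (v (nat_lit 6) (a (a (u (nat_lit 9) (v (nat_lit 9) (v (nat_lit 9) (k (nat_lit 0x132534))))) (a (v (nat_lit 8) (u (nat_lit 9) (v (nat_lit 9) (k (nat_lit 0x99156))))) (u (nat_lit 8) (a (v (nat_lit 9) (v (nat_lit 9) (k (nat_lit 0x98d78)))) (v (nat_lit 8) (a (v (nat_lit 9) (k (nat_lit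 0x97f2c))) (v (nat_lit 8) (k (nat_lit 0x96eac))))))))) (a (v (nat_lit 7) (a (u (nat_lit 9) (v (nat_lit 9) (k (nat_lit 0x99156)))) (a (u (nat_lit 8) (a (v (nat_lit 9) (k (nat_lit 0x98e7a))) (v (nat_lit 8) (k (nat_lit 0x93bca))))) (v (nat_lit 7) (u (nat_lit 8) (k (nat_lit 0x9e496))))))) (a (u (nat_lit 7) (a (v (nat_lit 9) (v (nat_lit 9) (k (nat_lit 0x98d78)))) (a (v (nat_lit 8) (a (v (nat_lit 9) (k (nat_lit 0x98e7a))) (v (nat_lit 8) (k (nat_lit 0x9e496))))) (v (nat_lit 7) (a (v (nat_lit 9) (k (nat_lit 0x97f2c))) (a (v (nat_lit 8) (k (nat_lit 0x93bca))) (v (nat_lit 7) (k (nat_lit 0x96eac))))))))) (v (nat_lit 6) (a (a (u (nat_lit 9) (v (nat_lit 9) (k (nat_lit 0x131e50)))) (u (nat_lit 8) (a (v (nat_lit 9) (k (nat_lit 0x98e80))) (v (nat_lit 8) (k (nat_lit 0x98ed4)))))) (a (v (nat_lit 7) (u (nat_lit 8) (k (nat_lit 0x991ce)))) (a (u (nat_lit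 7) (a (v (nat_lit 9) (k (nat_lit 0x98e80))) (a (v (nat_lit 8) (k (nat_lit 0x991ce))) (v (nat_lit 7) (k (nat_lit 0x98ed4)))))) (v (nat_lit 6) (a (u (nat_lit 8) (k (nat_lit 0x99012))) (u (nat_lit 7) (k (nat_lit 0x99012)))))))))))))))) (a (a (u (nat_lit 6) (a (a (v (nat_lit 8) (v (nat_lit 8) (a (v (nat_lit 9) (k (nat_lit 0x99c0c))) (v (nat_lit 8) (k (nat_lit 0x9b4ea)))))) (u (nat_lit 8) (v (nat_lit 8) (v (nat_lit 8) (k (nat_lit 0x99570)))))) (a (v (nat_lit 7) (v (nat_lit 7) (a (v (nat_lit 9) (k (nat_lit 0x99c0c))) (v (nat_lit 7) (k (nat_lit 0x9b4ea)))))) (a (u (nat_lit 7) (v (nat_lit 7) (v (nat_lit 7) (k (nat_lit 0x99570))))) (v (nat_lit 6) (v (nat_lit 6) (a (a (v (nat_lit 9) (k (nat_lit 0x131d90))) (v (nat_lit 8) (k (nat_lit 0x98e3e)))) (a (v (nat_lit 7) (k (nat_lit 0x98e3e))) (v (nat_lit 6) (k (nat_lit 0x131bb0))))))))))) (a (v (nat_lit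 5) (a (a (u (nat_lit 9) (v (nat_lit 9) (v (nat_lit 9) (k (nat_lit 0x9917a))))) (a (u (nat_lit 8) (a (v (nat_lit 9) (v (nat_lit 9) (k (nat_lit 0x98c4c)))) (v (nat_lit 8) (v (nat_lit 8) (k (nat_lit 0x98e20)))))) (v (nat_lit 7) (a (a (u (nat_lit 9) (v (nat_lit 9) (k (nat_lit 0x131d30)))) (v (nat_lit 8) (u (nat_lit 9) (k (nat_lit 0x9a65c))))) (a (u (nat_lit 8) (a (v (nat_lit 9) (k (nat_lit 0x937ec))) (v (nat_lit 8) (k (nat_lit 0x98e38))))) (v (nat_lit 7) (a (u (nat_lit 9) (k (nat_lit 0x8811afe))) (u (nat_lit 8) (k (nat_lit 0xf3fe43c)))))))))) (a (a (u (nat_lit 7) (a (v (nat_lit 8) (v (nat_lit 9) (k (nat_lit 0x97e0c)))) (v (nat_lit 7) (a (v (nat_lit 9) (k (nat_lit 0x9b95e))) (a (v (nat_lit 8) (k (nat_lit 0x98e08))) (v (nat_lit 7) (k (nat_lit 0x987c0)))))))) (v (nat_lit 6) (a (a (u (nat_lit 8) (v (nat_lit 8) (k (nat_lit 0x98ee0)))) (v (nat_lit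 7) (a (u (nat_lit 9) (k (nat_lit 0x90b94))) (u (nat_lit 8) (k (nat_lit 0x9a3a4)))))) (a (u (nat_lit 7) (a (v (nat_lit 9) (k (nat_lit 0x999ba))) (a (v (nat_lit 8) (k (nat_lit 0x97b24))) (v (nat_lit 7) (k (nat_lit 0x98fac)))))) (v (nat_lit 6) (a (u (nat_lit 9) (k (nat_lit 0x98958))) (a (u (nat_lit 8) (k (nat_lit 0x98f28))) (u (nat_lit 7) (k (nat_lit 0x98f76)))))))))) (a (u (nat_lit 6) (a (v (nat_lit 8) (u (nat_lit 9) (k (nat_lit 0x9810c)))) (a (v (nat_lit 6) (v (nat_lit 6) (k (nat_lit 0xa04c4)))) (u (nat_lit 6) (v (nat_lit 6) (k (nat_lit 0xa09bc))))))) (v (nat_lit 5) (a (a (u (nat_lit 8) (a (v (nat_lit 9) (k (nat_lit 0x98d66))) (v (nat_lit 8) (k (nat_lit 0x98f88))))) (v (nat_lit 7) (u (nat_lit 9) (k (nat_lit 0x8811afe))))) (a (u (nat_lit 7) (a (v (nat_lit 8) (k (nat_lit 0x98b92))) (v (nat_lit 7) (k (nat_lit 0x99060))))) (v (nat_lit 6) (a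 (u (nat_lit 9) (k (nat_lit 0x98e32))) (a (u (nat_lit 8) (k (nat_lit 0x98ec2))) (u (nat_lit 7) (k (nat_lit 0x98064))))))))))))) (u (nat_lit 5) (a (a (v (nat_lit 8) (a (v (nat_lit 9) (v (nat_lit 9) (k (nat_lit 0x98c4c)))) (v (nat_lit 8) (v (nat_lit 9) (k (nat_lit 0x98d66)))))) (v (nat_lit 7) (v (nat_lit 8) (v (nat_lit 9) (k (nat_lit 0x9db84)))))) (a (v (nat_lit 6) (a (a (v (nat_lit 9) (v (nat_lit 9) (k (nat_lit 0x98cb8)))) (v (nat_lit 8) (v (nat_lit 9) (k (nat_lit 0x98034))))) (a (v (nat_lit 7) (v (nat_lit 9) (k (nat_lit 0xa07dc)))) (v (nat_lit 6) (v (nat_lit 9) (k (nat_lit 0x993c6))))))) (v (nat_lit 5) (a (a (v (nat_lit 9) (v (nat_lit 9) (k (nat_lit 0x98ca6)))) (v (nat_lit 8) (v (nat_lit 8) (k (nat_lit 0x98f88))))) (a (v (nat_lit 7) (a (v (nat_lit 9) (k (nat_lit 0x9b95e))) (a (v (nat_lit 8) (k (nat_lit 0x98f88))) (v (nat_lit 7) (k (nat_lit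 0x99060)))))) (a (v (nat_lit 6) (a (v (nat_lit 7) (k (nat_lit 0x99c6c))) (v (nat_lit 6) (k (nat_lit 0x98f3a))))) (v (nat_lit 5) (a (a (v (nat_lit 9) (k (nat_lit 0x98d48))) (v (nat_lit 8) (k (nat_lit 0x98e20)))) (a (v (nat_lit 7) (k (nat_lit 0x987c0))) (a (v (nat_lit 6) (k (nat_lit 0x98658))) (v (nat_lit 5) (k (nat_lit 0x98e8c)))))))))))))))) (a (t (nat_lit 5) (nat_lit 8) (nat_lit 9) (a (a (u (nat_lit 9) (u (nat_lit 9) (u (nat_lit 9) (k (nat_lit 0x131a54))))) (u (nat_lit 7) (a (u (nat_lit 9) (u (nat_lit 9) (k (nat_lit 0x2016cde)))) (u (nat_lit 8) (u (nat_lit 9) (k (nat_lit 0x5627b8))))))) (a (v (nat_lit 5) (u (nat_lit 8) (u (nat_lit 9) (k (nat_lit 0x36ee58a))))) (a (u (nat_lit 5) (v (nat_lit 8) (u (nat_lit 9) (k (nat_lit 0x36ee58a))))) (t (nat_lit 5) (nat_lit 8) (nat_lit 9) (a (u (nat_lit 8) (u (nat_lit 9) (k (nat_lit 0x9955e)))) (u (nat_lit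 5) (u (nat_lit 9) (k (nat_lit 0x9955e)))))))))) (a (v (nat_lit 4) (a (a (a (u (nat_lit 9) (v (nat_lit 9) (v (nat_lit 9) (k (nat_lit 0x9917a))))) (v (nat_lit 8) (a (u (nat_lit 9) (v (nat_lit 9) (k (nat_lit 0x131d30)))) (v (nat_lit 8) (u (nat_lit 9) (k (nat_lit 0x8811afe))))))) (a (u (nat_lit 8) (v (nat_lit 8) (a (v (nat_lit 9) (k (nat_lit 0x9b95e))) (v (nat_lit 8) (k (nat_lit 0x987c0)))))) (a (v (nat_lit 7) (a (v (nat_lit 8) (u (nat_lit 9) (k (nat_lit 0x9a65c)))) (u (nat_lit 8) (a (v (nat_lit 9) (k (nat_lit 0x97e0c))) (v (nat_lit 8) (k (nat_lit 0x98e08))))))) (u (nat_lit 7) (a (v (nat_lit 9) (v (nat_lit 9) (k (nat_lit 0x98c4c)))) (a (v (nat_lit 8) (a (v (nat_lit 9) (k (nat_lit 0x937ec))) (v (nat_lit 8) (k (nat_lit 0xf3fe43c))))) (v (nat_lit 7) (a (v (nat_lit 8) (k (nat_lit 0x98e38))) (v (nat_lit 7) (k (nat_lit 0x98e20))))))))))) (a (a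 (v (nat_lit 6) (a (a (v (nat_lit 8) (u (nat_lit 9) (k (nat_lit 0x90b94)))) (u (nat_lit 8) (a (v (nat_lit 9) (k (nat_lit 0x999ba))) (v (nat_lit 8) (k (nat_lit 0x98fac)))))) (a (v (nat_lit 7) (u (nat_lit 8) (k (nat_lit 0x97b24)))) (a (u (nat_lit 7) (a (v (nat_lit 8) (k (nat_lit 0x9a3a4))) (v (nat_lit 7) (k (nat_lit 0x98ee0))))) (v (nat_lit 6) (a (u (nat_lit 9) (k (nat_lit 0x98958))) (a (u (nat_lit 8) (k (nat_lit 0x98f76))) (u (nat_lit 7) (k (nat_lit 0x98f28)))))))))) (u (nat_lit 6) (a (v (nat_lit 7) (u (nat_lit 9) (k (nat_lit 0x9810c)))) (a (v (nat_lit 6) (v (nat_lit 6) (k (nat_lit 0xa04c4)))) (u (nat_lit 6) (v (nat_lit 6) (k (nat_lit 0xa09bc)))))))) (a (v (nat_lit 5) (a (a (u (nat_lit 9) (v (nat_lit 9) (k (nat_lit 0x132f78)))) (a (v (nat_lit 8) (u (nat_lit 9) (k (nat_lit 0x9a65c)))) (u (nat_lit 8) (a (v (nat_lit 9) (k (nat_lit 0x9db84)))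 (v (nat_lit 8) (k (nat_lit 0x98f88))))))) (a (v (nat_lit 7) (a (u (nat_lit 9) (k (nat_lit 0x9a65c))) (u (nat_lit 8) (k (nat_lit 0x9904e))))) (a (u (nat_lit 7) (a (v (nat_lit 9) (k (nat_lit 0x9db84))) (a (v (nat_lit 8) (k (nat_lit 0x9904e))) (v (nat_lit 7) (k (nat_lit 0x98f88)))))) (v (nat_lit 6) (a (u (nat_lit 9) (k (nat_lit 0x131ab4))) (a (u (nat_lit 8) (k (nat_lit 0x999b4))) (u (nat_lit 7) (k (nat_lit 0x999b4)))))))))) (a (u (nat_lit 5) (a (a (v (nat_lit 9) (v (nat_lit 9) (k (nat_lit 0x98d5a)))) (v (nat_lit 8) (v (nat_lit 9) (k (nat_lit 0x937ec))))) (a (v (nat_lit 7) (a (v (nat_lit 9) (k (nat_lit 0x97e0c))) (a (v (nat_lit 8) (k (nat_lit 0x9904e))) (v (nat_lit 7) (k (nat_lit 0x98b92)))))) (a (v (nat_lit 6) (a (v (nat_lit 8) (k (nat_lit 0x983a6))) (v (nat_lit 6) (k (nat_lit 0x99114))))) (v (nat_lit 5) (a (a (v (nat_lit 9) (k (nat_lit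 0x99d62))) (v (nat_lit 8) (k (nat_lit 0x98e38)))) (a (v (nat_lit 7) (k (nat_lit 0x98e08))) (a (v (nat_lit 6) (k (nat_lit 0x98a42))) (v (nat_lit 5) (k (nat_lit 0x9b2b6))))))))))) (v (nat_lit 4) (a (a (v (nat_lit 8) (u (nat_lit 9) (k (nat_lit 0x8811afe)))) (a (u (nat_lit 8) (v (nat_lit 8) (k (nat_lit 0x99060)))) (v (nat_lit 7) (u (nat_lit 8) (k (nat_lit 0x98b92)))))) (a (a (u (nat_lit 7) (a (v (nat_lit 9) (k (nat_lit 0x98d66))) (v (nat_lit 7) (k (nat_lit 0x98f88))))) (v (nat_lit 6) (a (u (nat_lit 9) (k (nat_lit 0x98e32))) (a (u (nat_lit 8) (k (nat_lit 0x98064))) (u (nat_lit 7) (k (nat_lit 0x98ec2))))))) (a (u (nat_lit 5) (a (v (nat_lit 9) (k (nat_lit 0x97d3a))) (a (v (nat_lit 8) (k (nat_lit 0xf3fe43c))) (v (nat_lit 5) (k (nat_lit 0x98ec2)))))) (v (nat_lit 4) (u (nat_lit 5) (k (nat_lit 0x96846))))))))))))) (u (nat_lit 4) (a (a (v (nat_lit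 7) (a (v (nat_lit 9) (v (nat_lit 9) (k (nat_lit 0x98c4c)))) (a (v (nat_lit 8) (v (nat_lit 9) (k (nat_lit 0x9db84)))) (v (nat_lit 7) (v (nat_lit 9) (k (nat_lit 0x98d66))))))) (v (nat_lit 6) (a (a (v (nat_lit 9) (v (nat_lit 9) (k (nat_lit 0x98cb8)))) (v (nat_lit 8) (v (nat_lit 9) (k (nat_lit 0xa07dc))))) (a (v (nat_lit 7) (v (nat_lit 9) (k (nat_lit 0x98034)))) (v (nat_lit 6) (v (nat_lit 9) (k (nat_lit 0x993c6)))))))) (a (v (nat_lit 5) (a (a (v (nat_lit 9) (v (nat_lit 9) (k (nat_lit 0x98d5a)))) (v (nat_lit 8) (a (v (nat_lit 9) (k (nat_lit 0x97e0c))) (v (nat_lit 8) (k (nat_lit 0x98b92)))))) (a (v (nat_lit 7) (a (v (nat_lit 9) (k (nat_lit 0x937ec))) (v (nat_lit 8) (k (nat_lit 0x9904e))))) (a (v (nat_lit 6) (a (v (nat_lit 7) (k (nat_lit 0x983a6))) (v (nat_lit 6) (k (nat_lit 0x99114))))) (v (nat_lit 5) (a (v (nat_lit 9) (k (nat_lit 0x97d3a)))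 (a (v (nat_lit 7) (k (nat_lit 0xf3fe43c))) (v (nat_lit 5) (k (nat_lit 0x96846)))))))))) (a (t (nat_lit 5) (nat_lit 8) (nat_lit 9) (a (u (nat_lit 9) (u (nat_lit 9) (k (nat_lit 0x2016cde)))) (u (nat_lit 5) (u (nat_lit 9) (k (nat_lit 0x5627b8)))))) (v (nat_lit 4) (a (a (v (nat_lit 9) (v (nat_lit 9) (k (nat_lit 0x98ca6)))) (a (v (nat_lit 8) (a (v (nat_lit 9) (k (nat_lit 0x9b95e))) (v (nat_lit 8) (k (nat_lit 0x99060))))) (v (nat_lit 7) (a (v (nat_lit 8) (k (nat_lit 0x98f88))) (v (nat_lit 7) (k (nat_lit 0x98f88))))))) (a (v (nat_lit 6) (a (v (nat_lit 8) (k (nat_lit 0x99c6c))) (v (nat_lit 6) (k (nat_lit 0x98f3a))))) (a (v (nat_lit 5) (a (a (v (nat_lit 9) (k (nat_lit 0x99d62))) (v (nat_lit 8) (k (nat_lit 0x98e08)))) (a (v (nat_lit 7) (k (nat_lit 0x98e38))) (a (v (nat_lit 6) (k (nat_lit 0x98a42))) (v (nat_lit 5) (k (nat_lit 0x98ec2))))))) (v (nat_lit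 4) (a (a (v (nat_lit 9) (k (nat_lit 0x98d48))) (a (v (nat_lit 8) (k (nat_lit 0x987c0))) (v (nat_lit 7) (k (nat_lit 0x98e20))))) (a (v (nat_lit 6) (k (nat_lit 0x98658))) (a (v (nat_lit 5) (k (nat_lit 0x9b2b6))) (v (nat_lit 4) (k (nat_lit 0x98e8c))))))))))))))))))) (a (a (a (t (nat_lit 4) (nat_lit 7) (nat_lit 9) (a (a (a (u (nat_lit 9) (u (nat_lit 9) (u (nat_lit 9) (k (nat_lit 0x131a54))))) (u (nat_lit 8) (u (nat_lit 9) (u (nat_lit 9) (k (nat_lit 0x2016cde)))))) (a (u (nat_lit 7) (u (nat_lit 8) (u (nat_lit 9) (k (nat_lit 0x5627b8))))) (u (nat_lit 5) (u (nat_lit 9) (u (nat_lit 9) (k (nat_lit 0x2016cde))))))) (a (a (t (nat_lit 5) (nat_lit 8) (nat_lit 9) (a (u (nat_lit 9) (v (nat_lit 9) (k (nat_lit 0x3980688)))) (u (nat_lit 6) (v (nat_lit 6) (k (nat_lit 0x132d80)))))) (v (nat_lit 4) (u (nat_lit 7) (u (nat_lit 9) (k (nat_lit 0x36ee58a))))))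 (a (u (nat_lit 4) (a (v (nat_lit 7) (u (nat_lit 9) (k (nat_lit 0x36ee58a)))) (u (nat_lit 5) (u (nat_lit 9) (k (nat_lit 0x5627b8)))))) (t (nat_lit 4) (nat_lit 7) (nat_lit 9) (a (u (nat_lit 7) (u (nat_lit 9) (k (nat_lit 0x9955e)))) (u (nat_lit 4) (u (nat_lit 9) (k (nat_lit 0x9955e)))))))))) (a (v (nat_lit 3) (a (a (a (u (nat_lit 9) (v (nat_lit 9) (v (nat_lit 9) (k (nat_lit 0x132534))))) (a (v (nat_lit 8) (v (nat_lit 8) (u (nat_lit 9) (k (nat_lit 0x98e32))))) (u (nat_lit 8) (a (v (nat_lit 9) (v (nat_lit 9) (k (nat_lit 0x98cb8)))) (v (nat_lit 8) (v (nat_lit 8) (k (nat_lit 0x98658)))))))) (a (v (nat_lit 7) (a (v (nat_lit 8) (u (nat_lit 9) (k (nat_lit 0x131ab4)))) (a (u (nat_lit 8) (v (nat_lit 8) (k (nat_lit 0x98a42)))) (v (nat_lit 7) (u (nat_lit 9) (k (nat_lit 0x98e32))))))) (a (u (nat_lit 7) (a (v (nat_lit 9) (v (nat_lit 9) (k (nat_lit 0x98cb8))))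 (v (nat_lit 7) (a (v (nat_lit 8) (k (nat_lit 0x98a42))) (v (nat_lit 7) (k (nat_lit 0x98658))))))) (v (nat_lit 6) (a (a (u (nat_lit 9) (v (nat_lit 9) (k (nat_lit 0x263c70)))) (v (nat_lit 8) (u (nat_lit 9) (k (nat_lit 0x98a84))))) (a (u (nat_lit 8) (a (v (nat_lit 9) (k (nat_lit 0x99384))) (v (nat_lit 8) (k (nat_lit 0x9b9f4))))) (a (v (nat_lit 7) (a (u (nat_lit 9) (k (nat_lit 0x98a84))) (u (nat_lit 8) (k (nat_lit 0x98ec2))))) (u (nat_lit 7) (a (v (nat_lit 9) (k (nat_lit 0x99384))) (a (v (nat_lit 8) (k (nat_lit 0x98ec2))) (v (nat_lit 7) (k (nat_lit 0x9b9f4))))))))))))) (a (a (u (nat_lit 6) (v (nat_lit 6) (a (a (v (nat_lit 9) (k (nat_lit 0x131e98))) (v (nat_lit 8) (k (nat_lit 0x98eda)))) (a (v (nat_lit 7) (k (nat_lit 0x98eda))) (v (nat_lit 6) (k (nat_lit 0x131ea4))))))) (a (v (nat_lit 5) (a (a (u (nat_lit 9) (v (nat_lit 9) (k (nat_lit 0x99156))))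 (a (u (nat_lit 8) (v (nat_lit 9) (k (nat_lit 0x98034)))) (v (nat_lit 7) (a (u (nat_lit 9) (k (nat_lit 0x90b94))) (u (nat_lit 8) (k (nat_lit 0x983a6))))))) (a (u (nat_lit 7) (a (v (nat_lit 9) (k (nat_lit 0xa07dc))) (v (nat_lit 7) (k (nat_lit 0x99c6c))))) (a (v (nat_lit 6) (a (u (nat_lit 9) (k (nat_lit 0x98a84))) (a (u (nat_lit 8) (k (nat_lit 0x99210))) (u (nat_lit 7) (k (nat_lit 0x98a5a)))))) (u (nat_lit 6) (v (nat_lit 6) (k (nat_lit 0x98dba)))))))) (u (nat_lit 5) (a (a (v (nat_lit 9) (v (nat_lit 9) (k (nat_lit 0x98d78)))) (v (nat_lit 8) (v (nat_lit 8) (k (nat_lit 0x98ec2))))) (a (v (nat_lit 7) (a (v (nat_lit 9) (k (nat_lit 0x999ba))) (a (v (nat_lit 8) (k (nat_lit 0x999b4))) (v (nat_lit 7) (k (nat_lit 0x98064)))))) (a (v (nat_lit 6) (a (v (nat_lit 9) (k (nat_lit 0x99384))) (a (v (nat_lit 8) (k (nat_lit 0x99210))) (v (nat_lit 7) (k (nat_lit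 0x98a5a)))))) (v (nat_lit 5) (a (a (v (nat_lit 9) (k (nat_lit 0x97f2c))) (a (v (nat_lit 8) (k (nat_lit 0x98ee0))) (v (nat_lit 7) (k (nat_lit 0x98fac))))) (a (v (nat_lit 6) (k (nat_lit 0x9b9f4))) (a (u (nat_lit 6) (k (nat_lit 0x9b910))) (v (nat_lit 5) (k (nat_lit 0x96eac))))))))))))) (a (v (nat_lit 4) (a (a (a (u (nat_lit 9) (v (nat_lit 9) (k (nat_lit 0x99156)))) (v (nat_lit 8) (u (nat_lit 9) (k (nat_lit 0x90b94))))) (a (u (nat_lit 8) (a (v (nat_lit 9) (k (nat_lit 0xa07dc))) (v (nat_lit 8) (k (nat_lit 0x99c6c))))) (u (nat_lit 7) (a (v (nat_lit 9) (k (nat_lit 0x98034))) (v (nat_lit 8) (k (nat_lit 0x983a6))))))) (a (a (v (nat_lit 6) (a (u (nat_lit 9) (k (nat_lit 0x98a84))) (a (u (nat_lit 8) (k (nat_lit 0x98a5a))) (u (nat_lit 7) (k (nat_lit 0x99210)))))) (u (nat_lit 6) (v (nat_lit 6) (k (nat_lit 0x98dba))))) (a (u (nat_lit 5) (a (a (v (nat_lit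 9) (k (nat_lit 0x98e7a))) (v (nat_lit 8) (k (nat_lit 0x9a3a4)))) (a (v (nat_lit 7) (k (nat_lit 0x97b24))) (a (v (nat_lit 6) (k (nat_lit 0x98ec2))) (v (nat_lit 5) (k (nat_lit 0x93bca))))))) (v (nat_lit 4) (u (nat_lit 5) (k (nat_lit 0x9e496)))))))) (a (u (nat_lit 4) (a (a (v (nat_lit 9) (v (nat_lit 9) (k (nat_lit 0x98d78)))) (a (v (nat_lit 8) (a (v (nat_lit 9) (k (nat_lit 0x999ba))) (v (nat_lit 8) (k (nat_lit 0x98064))))) (v (nat_lit 7) (a (v (nat_lit 8) (k (nat_lit 0x999b4))) (v (nat_lit 7) (k (nat_lit 0x98ec2))))))) (a (v (nat_lit 6) (a (v (nat_lit 9) (k (nat_lit 0x99384))) (a (v (nat_lit 8) (k (nat_lit 0x98a5a))) (v (nat_lit 7) (k (nat_lit 0x99210)))))) (a (v (nat_lit 5) (a (a (v (nat_lit 9) (k (nat_lit 0x98e7a))) (v (nat_lit 8) (k (nat_lit 0x97b24)))) (a (v (nat_lit 7) (k (nat_lit 0x9a3a4))) (a (v (nat_lit 6) (k (nat_lit 0x98ec2)))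 (v (nat_lit 5) (k (nat_lit 0x9e496))))))) (v (nat_lit 4) (a (a (v (nat_lit 9) (k (nat_lit 0x97f2c))) (a (v (nat_lit 8) (k (nat_lit 0x98fac))) (v (nat_lit 7) (k (nat_lit 0x98ee0))))) (a (a (v (nat_lit 6) (k (nat_lit 0x9b9f4))) (u (nat_lit 6) (k (nat_lit 0x9b910)))) (a (v (nat_lit 5) (k (nat_lit 0x93bca))) (v (nat_lit 4) (k (nat_lit 0x96eac))))))))))) (v (nat_lit 3) (a (a (a (u (nat_lit 9) (v (nat_lit 9) (k (nat_lit 0x131e50)))) (v (nat_lit 8) (u (nat_lit 9) (k (nat_lit 0x98958))))) (a (u (nat_lit 8) (a (v (nat_lit 9) (k (nat_lit 0x993c6))) (v (nat_lit 8) (k (nat_lit 0x98f3a))))) (a (v (nat_lit 7) (a (u (nat_lit 9) (k (nat_lit 0x98958))) (u (nat_lit 8) (k (nat_lit 0x99114))))) (u (nat_lit 7) (a (v (nat_lit 9) (k (nat_lit 0x993c6))) (a (v (nat_lit 8) (k (nat_lit 0x99114))) (v (nat_lit 7) (k (nat_lit 0x98f3a))))))))) (a (a (u (nat_lit 6)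 (v (nat_lit 6) (k (nat_lit 0x131b68)))) (u (nat_lit 5) (a (a (v (nat_lit 9) (k (nat_lit 0x98e80))) (v (nat_lit 8) (k (nat_lit 0x98f28)))) (a (v (nat_lit 7) (k (nat_lit 0x98f76))) (v (nat_lit 5) (k (nat_lit 0x98ed4))))))) (a (v (nat_lit 4) (u (nat_lit 5) (k (nat_lit 0x991ce)))) (a (u (nat_lit 4) (a (a (v (nat_lit 9) (k (nat_lit 0x98e80))) (v (nat_lit 8) (k (nat_lit 0x98f76)))) (a (v (nat_lit 7) (k (nat_lit 0x98f28))) (a (v (nat_lit 5) (k (nat_lit 0x991ce))) (v (nat_lit 4) (k (nat_lit 0x98ed4))))))) (v (nat_lit 3) (a (u (nat_lit 5) (k (nat_lit 0x99012))) (u (nat_lit 4) (k (nat_lit 0x99012))))))))))))))) (u (nat_lit 3) (a (a (v (nat_lit 6) (a (u (nat_lit 8) (v (nat_lit 8) (k (nat_lit 0x9b910)))) (u (nat_lit 7) (v (nat_lit 7) (k (nat_lit 0x9b910)))))) (a (v (nat_lit 5) (a (v (nat_lit 8) (u (nat_lit 9) (k (nat_lit 0x9810c)))) (v (nat_lit 5)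 (a (v (nat_lit 9) (k (nat_lit 0x99c0c))) (v (nat_lit 5) (k (nat_lit 0x9b4ea))))))) (u (nat_lit 5) (v (nat_lit 5) (v (nat_lit 5) (k (nat_lit 0x99570))))))) (a (a (v (nat_lit 4) (a (v (nat_lit 7) (u (nat_lit 9) (k (nat_lit 0x9810c)))) (v (nat_lit 4) (a (v (nat_lit 9) (k (nat_lit 0x99c0c))) (v (nat_lit 4) (k (nat_lit 0x9b4ea))))))) (u (nat_lit 4) (v (nat_lit 4) (v (nat_lit 4) (k (nat_lit 0x99570)))))) (a (v (nat_lit 3) (a (a (v (nat_lit 6) (a (a (v (nat_lit 9) (k (nat_lit 0x131e98))) (v (nat_lit 8) (k (nat_lit 0x98dba)))) (a (v (nat_lit 7) (k (nat_lit 0x98dba))) (v (nat_lit 6) (k (nat_lit 0x131b68)))))) (v (nat_lit 5) (v (nat_lit 6) (k (nat_lit 0x98eda))))) (a (v (nat_lit 4) (v (nat_lit 6) (k (nat_lit 0x98eda)))) (a (t (nat_lit 4) (nat_lit 7) (nat_lit 9) (t (nat_lit 5) (nat_lit 8) (nat_lit 9) (k (nat_lit 0x132d80)))) (v (nat_lit 3) (a (a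 (v (nat_lit 9) (k (nat_lit 0x131d90))) (a (v (nat_lit 8) (k (nat_lit 0xa04c4))) (v (nat_lit 7) (k (nat_lit 0xa04c4))))) (a (a (v (nat_lit 6) (k (nat_lit 0x131ea4))) (v (nat_lit 5) (k (nat_lit 0x98e3e)))) (a (v (nat_lit 4) (k (nat_lit 0x98e3e))) (v (nat_lit 3) (k (nat_lit 0x131bb0))))))))))) (u (nat_lit 3) (v (nat_lit 3) (a (v (nat_lit 8) (k (nat_lit 0xa09bc))) (v (nat_lit 7) (k (nat_lit 0xa09bc)))))))))))) (a (t (nat_lit 3) (nat_lit 6) (nat_lit 9) (a (a (a (u (nat_lit 9) (v (nat_lit 9) (v (nat_lit 9) (k (nat_lit 0x2638f8))))) (a (u (nat_lit 8) (a (u (nat_lit 9) (v (nat_lit 9) (k (nat_lit 0x998e2)))) (u (nat_lit 8) (a (v (nat_lit 9) (k (nat_lit 0x291c306))) (u (nat_lit 8) (k (nat_lit 0x9913e))))))) (v (nat_lit 7) (u (nat_lit 8) (v (nat_lit 9) (k (nat_lit 0xc7e546))))))) (a (u (nat_lit 7) (a (u (nat_lit 9) (v (nat_lit 9) (k (nat_lit 0x998e2))))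 (a (v (nat_lit 8) (v (nat_lit 9) (k (nat_lit 0xc7e546)))) (u (nat_lit 7) (a (v (nat_lit 9) (k (nat_lit 0x291c306))) (u (nat_lit 7) (k (nat_lit 0x9913e)))))))) (a (u (nat_lit 6) (a (v (nat_lit 6) (v (nat_lit 6) (k (nat_lit 0x132d98)))) (u (nat_lit 6) (u (nat_lit 6) (k (nat_lit 0x1327f8)))))) (u (nat_lit 5) (a (a (u (nat_lit 9) (v (nat_lit 9) (k (nat_lit 0x998e2)))) (u (nat_lit 7) (a (v (nat_lit 9) (k (nat_lit 0x2291340))) (u (nat_lit 8) (k (nat_lit 0x9933c)))))) (a (u (nat_lit 6) (a (v (nat_lit 9) (k (nat_lit 0x33dee52))) (a (u (nat_lit 8) (k (nat_lit 0x53aab96))) (u (nat_lit 7) (k (nat_lit 0x24a3e6c)))))) (a (v (nat_lit 5) (u (nat_lit 6) (k (nat_lit 0x2f196d2)))) (u (nat_lit 5) (a (v (nat_lit 9) (k (nat_lit 0x291c306))) (u (nat_lit 5) (k (nat_lit 0x9913e)))))))))))) (a (a (t (nat_lit 5) (nat_lit 8) (nat_lit 9) (u (nat_lit 5) (a (u (nat_lit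 8) (k (nat_lit 0x132690))) (u (nat_lit 6) (k (nat_lit 0x2340438)))))) (a (v (nat_lit 4) (u (nat_lit 5) (v (nat_lit 9) (k (nat_lit 0xc7e546))))) (u (nat_lit 4) (a (a (a (u (nat_lit 9) (v (nat_lit 9) (k (nat_lit 0x998e2)))) (u (nat_lit 8) (v (nat_lit 9) (k (nat_lit 0x2291340))))) (a (u (nat_lit 7) (u (nat_lit 8) (k (nat_lit 0x9933c)))) (u (nat_lit 6) (a (v (nat_lit 9) (k (nat_lit 0x33dee52))) (a (u (nat_lit 8) (k (nat_lit 0x24a3e6c))) (u (nat_lit 7) (k (nat_lit 0x53aab96)))))))) (a (a (v (nat_lit 5) (v (nat_lit 9) (k (nat_lit 0xc7e546)))) (u (nat_lit 5) (a (u (nat_lit 8) (k (nat_lit 0x9933c))) (a (u (nat_lit 7) (k (nat_lit 0x9933c))) (u (nat_lit 6) (k (nat_lit 0xc5a3570))))))) (a (v (nat_lit 4) (u (nat_lit 6) (k (nat_lit 0x2f196d2)))) (u (nat_lit 4) (a (v (nat_lit 9) (k (nat_lit 0x291c306))) (u (nat_lit 4) (k (nat_lit 0x9913e)))))))))))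 (a (t (nat_lit 4) (nat_lit 7) (nat_lit 9) (a (t (nat_lit 5) (nat_lit 8) (nat_lit 9) (u (nat_lit 6) (k (nat_lit 0x131b2c)))) (u (nat_lit 4) (a (u (nat_lit 7) (k (nat_lit 0x132690))) (u (nat_lit 6) (k (nat_lit 0x2340438))))))) (a (u (nat_lit 3) (a (a (a (u (nat_lit 8) (a (v (nat_lit 9) (k (nat_lit 0x33dee52))) (v (nat_lit 8) (k (nat_lit 0x2f196d2))))) (u (nat_lit 7) (a (v (nat_lit 9) (k (nat_lit 0x33dee52))) (a (u (nat_lit 8) (k (nat_lit 0xc5a3570))) (v (nat_lit 7) (k (nat_lit 0x2f196d2))))))) (a (u (nat_lit 6) (a (a (v (nat_lit 9) (k (nat_lit 0x267120))) (u (nat_lit 8) (k (nat_lit 0xba2a29a)))) (a (u (nat_lit 7) (k (nat_lit 0xba2a29a))) (u (nat_lit 6) (k (nat_lit 0x1322e8)))))) (u (nat_lit 5) (a (u (nat_lit 8) (k (nat_lit 0x53aab96))) (a (u (nat_lit 7) (k (nat_lit 0x24a3e6c))) (u (nat_lit 6) (k (nat_lit 0xba2a29a)))))))) (a (a (t (nat_lit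 5) (nat_lit 8) (nat_lit 9) (u (nat_lit 8) (k (nat_lit 0x2340438)))) (u (nat_lit 4) (a (u (nat_lit 8) (k (nat_lit 0x24a3e6c))) (a (u (nat_lit 7) (k (nat_lit 0x53aab96))) (u (nat_lit 6) (k (nat_lit 0xba2a29a))))))) (a (t (nat_lit 4) (nat_lit 7) (nat_lit 9) (a (u (nat_lit 7) (k (nat_lit 0x2340438))) (t (nat_lit 5) (nat_lit 8) (nat_lit 9) (k (nat_lit 0x131b2c))))) (a (v (nat_lit 3) (v (nat_lit 3) (k (nat_lit 0x132d98)))) (u (nat_lit 3) (a (u (nat_lit 6) (k (nat_lit 0x1322e8))) (u (nat_lit 3) (k (nat_lit 0x1327f8)))))))))) (t (nat_lit 3) (nat_lit 6) (nat_lit 9) (a (u (nat_lit 9) (v (nat_lit 9) (k (nat_lit 0x264450)))) (a (u (nat_lit 6) (v (nat_lit 6) (k (nat_lit 0x132828)))) (u (nat_lit 3) (v (nat_lit 3) (k (nat_lit 0x132828)))))))))))) (a (v (nat_lit 2) (a (a (a (a (u (nat_lit 9) (v (nat_lit 9) (v (nat_lit 9) (k (nat_lit 0x262d28))))) (v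 (nat_lit 8) (u (nat_lit 9) (v (nat_lit 9) (k (nat_lit 0x98e92)))))) (a (u (nat_lit 8) (v (nat_lit 8) (a (v (nat_lit 9) (k (nat_lit 0x98c70))) (v (nat_lit 8) (k (nat_lit 0x98b9e)))))) (v (nat_lit 7) (a (u (nat_lit 9) (v (nat_lit 9) (k (nat_lit 0x98e92)))) (a (u (nat_lit 8) (a (v (nat_lit 9) (k (nat_lit 0x98cf4))) (v (nat_lit 8) (k (nat_lit 0x98ca6))))) (v (nat_lit 7) (u (nat_lit 8) (k (nat_lit 0x98fd6))))))))) (a (a (u (nat_lit 7) (a (v (nat_lit 8) (a (v (nat_lit 9) (k (nat_lit 0x98cf4))) (v (nat_lit 8) (k (nat_lit 0x98fd6))))) (v (nat_lit 7) (a (v (nat_lit 9) (k (nat_lit 0x98c70))) (a (v (nat_lit 8) (k (nat_lit 0x98ca6))) (v (nat_lit 7) (k (nat_lit 0x98b9e)))))))) (v (nat_lit 6) (a (v (nat_lit 7) (u (nat_lit 8) (k (nat_lit 0x9956a)))) (a (u (nat_lit 7) (v (nat_lit 8) (k (nat_lit 0x9956a)))) (v (nat_lit 6) (a (u (nat_lit 8) (k (nat_lit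 0x9c35a))) (u (nat_lit 7) (k (nat_lit 0x9c35a))))))))) (a (u (nat_lit 6) (a (a (v (nat_lit 8) (v (nat_lit 9) (k (nat_lit 0x9e6ac)))) (v (nat_lit 7) (v (nat_lit 9) (k (nat_lit 0x9e6ac))))) (a (v (nat_lit 6) (a (a (v (nat_lit 9) (k (nat_lit 0x132048))) (v (nat_lit 8) (k (nat_lit 0x958bc)))) (a (v (nat_lit 7) (k (nat_lit 0x958bc))) (v (nat_lit 6) (k (nat_lit 0x13a3d0)))))) (u (nat_lit 6) (v (nat_lit 6) (k (nat_lit 0x13a874))))))) (v (nat_lit 5) (a (a (u (nat_lit 9) (v (nat_lit 9) (k (nat_lit 0x98e92)))) (a (u (nat_lit 8) (a (v (nat_lit 9) (k (nat_lit 0x98cfa))) (v (nat_lit 8) (k (nat_lit 0x98da2))))) (v (nat_lit 7) (a (u (nat_lit 9) (k (nat_lit 0x13d3ac))) (u (nat_lit 8) (k (nat_lit 0x9335a))))))) (a (u (nat_lit 7) (a (v (nat_lit 9) (k (nat_lit 0x931b0))) (a (v (nat_lit 8) (k (nat_lit 0x9e820))) (v (nat_lit 7) (k (nat_lit 0x98e1a)))))) (a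 (v (nat_lit 6) (u (nat_lit 7) (k (nat_lit 0x90738)))) (u (nat_lit 6) (v (nat_lit 6) (k (nat_lit 0x91314))))))))))) (a (a (a (u (nat_lit 5) (a (v (nat_lit 8) (v (nat_lit 9) (k (nat_lit 0x98cfa)))) (a (v (nat_lit 7) (v (nat_lit 9) (k (nat_lit 0x931b0)))) (v (nat_lit 5) (a (a (v (nat_lit 9) (k (nat_lit 0x98c70))) (v (nat_lit 8) (k (nat_lit 0x98da2)))) (a (v (nat_lit 7) (k (nat_lit 0x98e1a))) (v (nat_lit 5) (k (nat_lit 0x98b9e))))))))) (t (nat_lit 5) (nat_lit 8) (nat_lit 9) (u (nat_lit 9) (u (nat_lit 9) (k (nat_lit 0xa14d1d0)))))) (a (v (nat_lit 4) (a (a (a (u (nat_lit 9) (v (nat_lit 9) (k (nat_lit 0x98e92)))) (v (nat_lit 8) (u (nat_lit 9) (k (nat_lit 0x13d3ac))))) (a (u (nat_lit 8) (a (v (nat_lit 9) (k (nat_lit 0x931b0))) (v (nat_lit 8) (k (nat_lit 0x98e1a))))) (v (nat_lit 7) (u (nat_lit 8) (k (nat_lit 0x9e820)))))) (a (a (u (nat_lit 7)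 (a (v (nat_lit 9) (k (nat_lit 0x98cfa))) (a (v (nat_lit 8) (k (nat_lit 0x9335a))) (v (nat_lit 7) (k (nat_lit 0x98da2)))))) (v (nat_lit 6) (u (nat_lit 8) (k (nat_lit 0x90738))))) (a (u (nat_lit 6) (v (nat_lit 6) (k (nat_lit 0x91314)))) (a (u (nat_lit 5) (a (a (v (nat_lit 9) (k (nat_lit 0x98cf4))) (v (nat_lit 8) (k (nat_lit 0x9335a)))) (a (v (nat_lit 7) (k (nat_lit 0x9e820))) (v (nat_lit 5) (k (nat_lit 0x98ca6)))))) (v (nat_lit 4) (u (nat_lit 5) (k (nat_lit 0x98fd6))))))))) (u (nat_lit 4) (a (a (v (nat_lit 8) (v (nat_lit 9) (k (nat_lit 0x931b0)))) (v (nat_lit 7) (v (nat_lit 9) (k (nat_lit 0x98cfa))))) (a (v (nat_lit 5) (a (a (v (nat_lit 9) (k (nat_lit 0x98cf4))) (v (nat_lit 8) (k (nat_lit 0x9e820)))) (a (v (nat_lit 7) (k (nat_lit 0x9335a))) (v (nat_lit 5) (k (nat_lit 0x98fd6)))))) (v (nat_lit 4) (a (a (v (nat_lit 9) (k (nat_lit 0x98c70)))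 (v (nat_lit 8) (k (nat_lit 0x98e1a)))) (a (v (nat_lit 7) (k (nat_lit 0x98da2))) (a (v (nat_lit 5) (k (nat_lit 0x98ca6))) (v (nat_lit 4) (k (nat_lit 0x98b9e)))))))))))) (a (a (t (nat_lit 4) (nat_lit 7) (nat_lit 9) (u (nat_lit 9) (u (nat_lit 9) (k (nat_lit 0xa14d1d0))))) (v (nat_lit 3) (a (a (u (nat_lit 6) (v (nat_lit 6) (k (nat_lit 0x1316d0)))) (u (nat_lit 5) (v (nat_lit 7) (k (nat_lit 0x90738))))) (a (v (nat_lit 4) (u (nat_lit 5) (k (nat_lit 0x9956a)))) (a (u (nat_lit 4) (a (v (nat_lit 8) (k (nat_lit 0x90738))) (v (nat_lit 5) (k (nat_lit 0x9956a))))) (v (nat_lit 3) (a (u (nat_lit 5) (k (nat_lit 0x9c35a))) (u (nat_lit 4) (k (nat_lit 0x9c35a)))))))))) (a (u (nat_lit 3) (a (a (v (nat_lit 5) (v (nat_lit 9) (k (nat_lit 0x9e6ac)))) (v (nat_lit 4) (v (nat_lit 9) (k (nat_lit 0x9e6ac))))) (a (v (nat_lit 3) (a (a (v (nat_lit 9) (k (nat_lit 0x132048)))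 (a (v (nat_lit 8) (k (nat_lit 0x91314))) (v (nat_lit 7) (k (nat_lit 0x91314))))) (a (a (v (nat_lit 6) (k (nat_lit 0x1316d0))) (v (nat_lit 5) (k (nat_lit 0x958bc)))) (a (v (nat_lit 4) (k (nat_lit 0x958bc))) (v (nat_lit 3) (k (nat_lit 0x13a3d0))))))) (u (nat_lit 3) (v (nat_lit 3) (k (nat_lit 0x13a874))))))) (a (t (nat_lit 3) (nat_lit 6) (nat_lit 9) (t (nat_lit 3) (nat_lit 6) (nat_lit 9) (a (a (u (nat_lit 9) (k (nat_lit 0x263e68))) (u (nat_lit 8) (k (nat_lit 0x223fec0)))) (a (u (nat_lit 7) (k (nat_lit 0x223fec0))) (a (u (nat_lit 5) (k (nat_lit 0x223fec0))) (u (nat_lit 4) (k (nat_lit 0x223fec0)))))))) (v (nat_lit 2) (a (a (a (u (nat_lit 9) (v (nat_lit 9) (k (nat_lit 0x2639d0)))) (u (nat_lit 8) (v (nat_lit 8) (k (nat_lit 0x98cf4))))) (a (v (nat_lit 7) (u (nat_lit 8) (k (nat_lit 0x98cd6)))) (a (u (nat_lit 7) (a (v (nat_lit 8) (k (nat_lit 0x98cd6)))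 (v (nat_lit 7) (k (nat_lit 0x98cf4))))) (v (nat_lit 6) (a (u (nat_lit 8) (k (nat_lit 0x98cdc))) (u (nat_lit 7) (k (nat_lit 0x98cdc)))))))) (a (a (u (nat_lit 6) (v (nat_lit 6) (k (nat_lit 0x130680)))) (a (u (nat_lit 5) (v (nat_lit 5) (k (nat_lit 0x98cf4)))) (v (nat_lit 4) (u (nat_lit 5) (k (nat_lit 0x98cd6)))))) (a (u (nat_lit 4) (a (v (nat_lit 5) (k (nat_lit 0x98cd6))) (v (nat_lit 4) (k (nat_lit 0x98cf4))))) (a (v (nat_lit 3) (a (u (nat_lit 5) (k (nat_lit 0x98cdc))) (u (nat_lit 4) (k (nat_lit 0x98cdc))))) (u (nat_lit 3) (v (nat_lit 3) (k (nat_lit 0x130680))))))))))))))) (u (nat_lit 2) (a (a (a (v (nat_lit 9) (v (nat_lit 9) (v (nat_lit 9) (k (nat_lit 0x262f80))))) (a (v (nat_lit 8) (v (nat_lit 8) (v (nat_lit 8) (k (nat_lit 0x98eda))))) (v (nat_lit 7) (v (nat_lit 7) (v (nat_lit 7) (k (nat_lit 0x98eda))))))) (a (v (nat_lit 6) (a (a (v (nat_lit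 9) (v (nat_lit 9) (k (nat_lit 0x136938)))) (v (nat_lit 8) (a (v (nat_lit 9) (k (nat_lit 0x934fe))) (v (nat_lit 8) (k (nat_lit 0x990cc)))))) (a (v (nat_lit 7) (a (v (nat_lit 9) (k (nat_lit 0x934fe))) (a (v (nat_lit 8) (k (nat_lit 0x130eb4))) (v (nat_lit 7) (k (nat_lit 0x990cc)))))) (v (nat_lit 6) (a (v (nat_lit 9) (k (nat_lit 0x131604))) (v (nat_lit 6) (k (nat_lit 0x131fdc)))))))) (a (u (nat_lit 6) (v (nat_lit 9) (v (nat_lit 9) (k (nat_lit 0x136b18))))) (v (nat_lit 5) (a (v (nat_lit 6) (a (a (v (nat_lit 9) (k (nat_lit 0x98e38))) (v (nat_lit 8) (k (nat_lit 0x98ee6)))) (a (v (nat_lit 7) (k (nat_lit 0xa1898))) (v (nat_lit 6) (k (nat_lit 0xa0b78)))))) (v (nat_lit 5) (a (v (nat_lit 6) (k (nat_lit 0x98baa))) (v (nat_lit 5) (k (nat_lit 0x98eda)))))))))) (a (a (v (nat_lit 4) (a (v (nat_lit 6) (a (a (v (nat_lit 9) (k (nat_lit 0x98e38))) (v (nat_lit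 8) (k (nat_lit 0xa1898)))) (a (v (nat_lit 7) (k (nat_lit 0x98ee6))) (v (nat_lit 6) (k (nat_lit 0xa0b78)))))) (a (v (nat_lit 5) (v (nat_lit 6) (k (nat_lit 0x1232b8)))) (v (nat_lit 4) (a (v (nat_lit 6) (k (nat_lit 0x98baa))) (v (nat_lit 4) (k (nat_lit 0x98eda)))))))) (a (u (nat_lit 4) (u (nat_lit 5) (v (nat_lit 6) (k (nat_lit 0x140490))))) (v (nat_lit 3) (a (a (a (v (nat_lit 9) (v (nat_lit 9) (k (nat_lit 0x136938)))) (v (nat_lit 8) (a (v (nat_lit 9) (k (nat_lit 0x98e38))) (v (nat_lit 8) (k (nat_lit 0x98baa)))))) (a (v (nat_lit 7) (a (v (nat_lit 9) (k (nat_lit 0x98e38))) (a (v (nat_lit 8) (k (nat_lit 0x1232b8))) (v (nat_lit 7) (k (nat_lit 0x98baa)))))) (u (nat_lit 7) (u (nat_lit 8) (k (nat_lit 0x140490)))))) (a (a (v (nat_lit 6) (a (v (nat_lit 9) (k (nat_lit 0x262c38))) (a (v (nat_lit 8) (k (nat_lit 0x98c58))) (v (nat_lit 7) (k (nat_lit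 0x98c58)))))) (v (nat_lit 5) (a (a (v (nat_lit 9) (k (nat_lit 0x934fe))) (v (nat_lit 8) (k (nat_lit 0x98ee6)))) (a (v (nat_lit 7) (k (nat_lit 0xa1898))) (a (v (nat_lit 6) (k (nat_lit 0x98c58))) (v (nat_lit 5) (k (nat_lit 0x990cc)))))))) (a (v (nat_lit 4) (a (a (v (nat_lit 9) (k (nat_lit 0x934fe))) (a (v (nat_lit 8) (k (nat_lit 0xa1898))) (v (nat_lit 7) (k (nat_lit 0x98ee6))))) (a (v (nat_lit 6) (k (nat_lit 0x98c58))) (a (v (nat_lit 5) (k (nat_lit 0x130eb4))) (v (nat_lit 4) (k (nat_lit 0x990cc))))))) (v (nat_lit 3) (a (a (v (nat_lit 9) (k (nat_lit 0x131604))) (v (nat_lit 8) (k (nat_lit 0xa0b78)))) (a (v (nat_lit 7) (k (nat_lit 0xa0b78))) (v (nat_lit 3) (k (nat_lit 0x131fdc)))))))))))) (a (u (nat_lit 3) (v (nat_lit 9) (v (nat_lit 9) (k (nat_lit 0x136b18))))) (a (t (nat_lit 3) (nat_lit 6) (nat_lit 9) (a (u (nat_lit 6) (v (nat_lit 6) (k (nat_lit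 0x263034)))) (u (nat_lit 3) (v (nat_lit 3) (k (nat_lit 0x263034)))))) (v (nat_lit 2) (a (a (a (v (nat_lit 9) (v (nat_lit 9) (k (nat_lit 0x262b60)))) (v (nat_lit 8) (a (v (nat_lit 9) (k (nat_lit 0x98d66))) (v (nat_lit 8) (k (nat_lit 0x98ed4)))))) (a (v (nat_lit 7) (a (v (nat_lit 9) (k (nat_lit 0x98d66))) (v (nat_lit 7) (k (nat_lit 0x98ed4))))) (a (v (nat_lit 6) (a (v (nat_lit 9) (k (nat_lit 0x131b5c))) (v (nat_lit 6) (k (nat_lit 0x1331e8))))) (v (nat_lit 5) (a (a (v (nat_lit 9) (k (nat_lit 0x98d66))) (v (nat_lit 8) (k (nat_lit 0x131e8c)))) (a (v (nat_lit 7) (k (nat_lit 0x131cd0))) (a (v (nat_lit 6) (k (nat_lit 0x989f4))) (v (nat_lit 5) (k (nat_lit 0x98ed4)))))))))) (a (a (t (nat_lit 5) (nat_lit 8) (nat_lit 9) (u (nat_lit 9) (k (nat_lit 0x20be051c)))) (a (v (nat_lit 4) (a (a (v (nat_lit 9) (k (nat_lit 0x98d66))) (v (nat_lit 8) (k (nat_lit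 0x131cd0)))) (a (v (nat_lit 7) (k (nat_lit 0x131e8c))) (a (v (nat_lit 6) (k (nat_lit 0x989f4))) (v (nat_lit 4) (k (nat_lit 0x98ed4))))))) (t (nat_lit 4) (nat_lit 7) (nat_lit 9) (u (nat_lit 9) (k (nat_lit 0x20be051c)))))) (a (v (nat_lit 3) (a (a (v (nat_lit 9) (k (nat_lit 0x131b5c))) (v (nat_lit 8) (k (nat_lit 0x989f4)))) (a (v (nat_lit 7) (k (nat_lit 0x989f4))) (a (v (nat_lit 6) (k (nat_lit 0x263be0))) (v (nat_lit 3) (k (nat_lit 0x1331e8))))))) (a (t (nat_lit 3) (nat_lit 6) (nat_lit 9) (a (v (nat_lit 9) (k (nat_lit 0x265518))) (t (nat_lit 3) (nat_lit 6) (nat_lit 9) (k (nat_lit 0x263aa8))))) (v (nat_lit 2) (a (a (a (v (nat_lit 9) (k (nat_lit 0x262de8))) (u (nat_lit 9) (k (nat_lit 0x2638b0)))) (a (v (nat_lit 8) (k (nat_lit 0x98dd2))) (v (nat_lit 7) (k (nat_lit 0x98dd2))))) (a (a (v (nat_lit 6) (k (nat_lit 0x131490))) (v (nat_lit 5) (k (nat_lit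 0x98dd2)))) (a (v (nat_lit 4) (k (nat_lit 0x98dd2))) (a (v (nat_lit 3) (k (nat_lit 0x131490))) (v (nat_lit 2) (k (nat_lit 0x2632e0))))))))))))))))))))) (a (a (t (nat_lit 2) (nat_lit 4) (nat_lit 5) (a (a (a (v (nat_lit 5) (v (nat_lit 7) (u (nat_lit 8) (k (nat_lit 0x3f37626))))) (t (nat_lit 5) (nat_lit 8) (nat_lit 9) (a (u (nat_lit 7) (u (nat_lit 9) (k (nat_lit 0x2195ef2)))) (a (v (nat_lit 6) (u (nat_lit 7) (k (nat_lit 0x99036)))) (u (nat_lit 5) (u (nat_lit 6) (k (nat_lit 0x2698b1e)))))))) (a (v (nat_lit 4) (a (u (nat_lit 7) (v (nat_lit 8) (k (nat_lit 0x3f37626)))) (a (u (nat_lit 5) (v (nat_lit 6) (k (nat_lit 0xa5c264)))) (t (nat_lit 5) (nat_lit 8) (nat_lit 9) (u (nat_lit 7) (k (nat_lit 0x6a9524))))))) (a (u (nat_lit 4) (v (nat_lit 5) (v (nat_lit 6) (k (nat_lit 0xa5c264))))) (t (nat_lit 4) (nat_lit 7) (nat_lit 9) (a (a (u (nat_lit 8) (u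 (nat_lit 9) (k (nat_lit 0x2195ef2)))) (v (nat_lit 6) (u (nat_lit 8) (k (nat_lit 0x99036))))) (a (v (nat_lit 5) (u (nat_lit 8) (k (nat_lit 0x6a9524)))) (a (t (nat_lit 5) (nat_lit 8) (nat_lit 9) (u (nat_lit 5) (k (nat_lit 0x3af65c)))) (u (nat_lit 4) (a (u (nat_lit 6) (k (nat_lit 0x2698b1e))) (t (nat_lit 5) (nat_lit 8) (nat_lit 9) (k (nat_lit 0x3af65c)))))))))))) (a (a (v (nat_lit 3) (a (t (nat_lit 5) (nat_lit 8) (nat_lit 9) (u (nat_lit 7) (k (nat_lit 0x87a1e0e)))) (t (nat_lit 4) (nat_lit 7) (nat_lit 9) (u (nat_lit 8) (k (nat_lit 0x87a1e0e)))))) (a (u (nat_lit 3) (a (v (nat_lit 3) (a (t (nat_lit 5) (nat_lit 8) (nat_lit 9) (k (nat_lit 0x742836))) (t (nat_lit 4) (nat_lit 7) (nat_lit 9) (k (nat_lit 0x742836))))) (u (nat_lit 3) (a (u (nat_lit 8) (k (nat_lit 0x82b7986))) (u (nat_lit 7) (k (nat_lit 0x82b7986))))))) (t (nat_lit 3) (nat_lit 6) (nat_lit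 9) (a (a (t (nat_lit 5) (nat_lit 8) (nat_lit 9) (u (nat_lit 7) (k (nat_lit 0x99036)))) (t (nat_lit 4) (nat_lit 7) (nat_lit 9) (u (nat_lit 8) (k (nat_lit 0x99036))))) (a (u (nat_lit 3) (a (t (nat_lit 5) (nat_lit 8) (nat_lit 9) (k (nat_lit 0x98ee6))) (t (nat_lit 4) (nat_lit 7) (nat_lit 9) (k (nat_lit 0x98ee6))))) (t (nat_lit 3) (nat_lit 6) (nat_lit 9) (a (u (nat_lit 8) (k (nat_lit 0x991aa))) (a (u (nat_lit 7) (k (nat_lit 0x991aa))) (u (nat_lit 3) (k (nat_lit 0x131e44))))))))))) (a (v (nat_lit 2) (a (t (nat_lit 5) (nat_lit 8) (nat_lit 9) (u (nat_lit 5) (k (nat_lit 0x99edc)))) (t (nat_lit 4) (nat_lit 7) (nat_lit 9) (u (nat_lit 4) (k (nat_lit 0x99edc)))))) (a (u (nat_lit 2) (a (a (a (u (nat_lit 8) (a (u (nat_lit 9) (k (nat_lit 0x99492))) (u (nat_lit 8) (k (nat_lit 0x616aad2))))) (u (nat_lit 7) (a (u (nat_lit 9) (k (nat_lit 0x99492))) (u (nat_lit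 7) (k (nat_lit 0x616aad2)))))) (a (u (nat_lit 6) (u (nat_lit 9) (k (nat_lit 0x132ff0)))) (a (u (nat_lit 5) (a (u (nat_lit 8) (k (nat_lit 0x9e124))) (u (nat_lit 5) (k (nat_lit 0x3a077ae))))) (v (nat_lit 4) (u (nat_lit 5) (k (nat_lit 0xa578a0e))))))) (a (a (u (nat_lit 4) (a (u (nat_lit 7) (k (nat_lit 0x9e124))) (a (v (nat_lit 5) (k (nat_lit 0xa578a0e))) (u (nat_lit 4) (k (nat_lit 0x3a077ae)))))) (v (nat_lit 3) (a (v (nat_lit 9) (k (nat_lit 0x133c50))) (a (u (nat_lit 5) (k (nat_lit 0x46a29b0))) (u (nat_lit 4) (k (nat_lit 0x46a29b0))))))) (a (u (nat_lit 3) (u (nat_lit 9) (k (nat_lit 0x71f646c)))) (a (v (nat_lit 2) (a (u (nat_lit 9) (k (nat_lit 0x13266c))) (a (u (nat_lit 5) (k (nat_lit 0x9a5f0))) (u (nat_lit 4) (k (nat_lit 0x9a5f0)))))) (u (nat_lit 2) (a (u (nat_lit 6) (k (nat_lit 0x131ed4))) (a (v (nat_lit 3) (k (nat_lit 0x7e9b9dc))) (u (nat_lit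 2) (k (nat_lit 0x131f88))))))))))) (t (nat_lit 2) (nat_lit 4) (nat_lit 5) (a (u (nat_lit 3) (v (nat_lit 6) (k (nat_lit 0x131d54)))) (u (nat_lit 2) (a (u (nat_lit 5) (k (nat_lit 0x9a5f6))) (u (nat_lit 4) (k (nat_lit 0x9a5f6)))))))))))) (a (t (nat_lit 2) (nat_lit 7) (nat_lit 8) (a (a (a (u (nat_lit 5) (u (nat_lit 6) (u (nat_lit 6) (k (nat_lit 0x82b7986))))) (a (t (nat_lit 5) (nat_lit 8) (nat_lit 9) (u (nat_lit 6) (v (nat_lit 6) (k (nat_lit 0x742836))))) (v (nat_lit 4) (u (nat_lit 5) (v (nat_lit 8) (k (nat_lit 0x3f37626))))))) (a (u (nat_lit 4) (a (u (nat_lit 6) (u (nat_lit 6) (k (nat_lit 0x82b7986)))) (a (v (nat_lit 5) (v (nat_lit 7) (k (nat_lit 0x3f37626)))) (t (nat_lit 5) (nat_lit 8) (nat_lit 9) (a (u (nat_lit 9) (k (nat_lit 0x2195ef2))) (a (v (nat_lit 7) (k (nat_lit 0x6a9524))) (v (nat_lit 6) (k (nat_lit 0x87a1e0e))))))))) (a (t (nat_lit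 4) (nat_lit 7) (nat_lit 9) (a (u (nat_lit 6) (v (nat_lit 6) (k (nat_lit 0x742836)))) (a (u (nat_lit 5) (a (u (nat_lit 9) (k (nat_lit 0x2195ef2))) (a (v (nat_lit 8) (k (nat_lit 0x6a9524))) (v (nat_lit 6) (k (nat_lit 0x87a1e0e)))))) (t (nat_lit 5) (nat_lit 8) (nat_lit 9) (a (u (nat_lit 8) (k (nat_lit 0x3af65c))) (u (nat_lit 7) (k (nat_lit 0x3af65c)))))))) (v (nat_lit 3) (a (a (v (nat_lit 7) (u (nat_lit 8) (k (nat_lit 0xa5c264)))) (u (nat_lit 7) (v (nat_lit 8) (k (nat_lit 0xa5c264))))) (a (u (nat_lit 4) (t (nat_lit 5) (nat_lit 8) (nat_lit 9) (k (nat_lit 0x99036)))) (t (nat_lit 4) (nat_lit 7) (nat_lit 9) (u (nat_lit 5) (k (nat_lit 0x99036)))))))))) (a (a (u (nat_lit 3) (a (t (nat_lit 5) (nat_lit 8) (nat_lit 9) (u (nat_lit 8) (k (nat_lit 0x2698b1e)))) (t (nat_lit 4) (nat_lit 7) (nat_lit 9) (u (nat_lit 7) (k (nat_lit 0x2698b1e)))))) (a (t (nat_lit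 3) (nat_lit 6) (nat_lit 9) (a (a (t (nat_lit 5) (nat_lit 8) (nat_lit 9) (u (nat_lit 6) (k (nat_lit 0x98ee6)))) (u (nat_lit 4) (t (nat_lit 5) (nat_lit 8) (nat_lit 9) (k (nat_lit 0x99036))))) (a (t (nat_lit 4) (nat_lit 7) (nat_lit 9) (a (u (nat_lit 6) (k (nat_lit 0x98ee6))) (u (nat_lit 5) (k (nat_lit 0x99036))))) (t (nat_lit 3) (nat_lit 6) (nat_lit 9) (a (u (nat_lit 6) (k (nat_lit 0x131e44))) (a (u (nat_lit 5) (k (nat_lit 0x991aa))) (u (nat_lit 4) (k (nat_lit 0x991aa))))))))) (v (nat_lit 2) (a (t (nat_lit 5) (nat_lit 8) (nat_lit 9) (u (nat_lit 8) (k (nat_lit 0x99edc)))) (t (nat_lit 4) (nat_lit 7) (nat_lit 9) (u (nat_lit 7) (k (nat_lit 0x99edc)))))))) (a (u (nat_lit 2) (a (a (a (u (nat_lit 8) (u (nat_lit 8) (k (nat_lit 0x3a077ae)))) (v (nat_lit 7) (u (nat_lit 8) (k (nat_lit 0xa578a0e))))) (a (u (nat_lit 7) (a (v (nat_lit 8) (k (nat_lit 0xa578a0e)))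 (u (nat_lit 7) (k (nat_lit 0x3a077ae))))) (a (v (nat_lit 6) (a (v (nat_lit 9) (k (nat_lit 0x133c50))) (a (u (nat_lit 8) (k (nat_lit 0x46a29b0))) (u (nat_lit 7) (k (nat_lit 0x46a29b0)))))) (u (nat_lit 6) (u (nat_lit 9) (k (nat_lit 0x71f646c))))))) (a (a (u (nat_lit 5) (a (u (nat_lit 9) (k (nat_lit 0x99492))) (a (u (nat_lit 8) (k (nat_lit 0x9e124))) (u (nat_lit 5) (k (nat_lit 0x616aad2)))))) (u (nat_lit 4) (a (u (nat_lit 9) (k (nat_lit 0x99492))) (a (u (nat_lit 7) (k (nat_lit 0x9e124))) (u (nat_lit 4) (k (nat_lit 0x616aad2))))))) (a (u (nat_lit 3) (u (nat_lit 9) (k (nat_lit 0x132ff0)))) (a (v (nat_lit 2) (a (u (nat_lit 9) (k (nat_lit 0x13266c))) (a (u (nat_lit 8) (k (nat_lit 0x9a5f0))) (u (nat_lit 7) (k (nat_lit 0x9a5f0)))))) (u (nat_lit 2) (a (v (nat_lit 6) (k (nat_lit 0x7e9b9dc))) (a (u (nat_lit 3) (k (nat_lit 0x131ed4))) (u (nat_lit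 2) (k (nat_lit 0x131f88))))))))))) (a (t (nat_lit 2) (nat_lit 4) (nat_lit 5) (a (t (nat_lit 5) (nat_lit 8) (nat_lit 9) (a (u (nat_lit 8) (k (nat_lit 0x116a63c))) (u (nat_lit 5) (k (nat_lit 0x116a63c))))) (a (t (nat_lit 4) (nat_lit 7) (nat_lit 9) (a (u (nat_lit 7) (k (nat_lit 0x116a63c))) (u (nat_lit 4) (k (nat_lit 0x116a63c))))) (t (nat_lit 3) (nat_lit 6) (nat_lit 9) (u (nat_lit 9) (k (nat_lit 0x263748))))))) (t (nat_lit 2) (nat_lit 7) (nat_lit 8) (a (v (nat_lit 3) (u (nat_lit 6) (k (nat_lit 0x131d54)))) (u (nat_lit 2) (a (u (nat_lit 8) (k (nat_lit 0x9a5f6))) (u (nat_lit 7) (k (nat_lit 0x9a5f6)))))))))))) (v (nat_lit 1) (a (a (a (a (u (nat_lit 9) (v (nat_lit 9) (v (nat_lit 9) (k (nat_lit 0x131d6c))))) (v (nat_lit 8) (u (nat_lit 9) (v (nat_lit 9) (k (nat_lit 0x99054)))))) (a (u (nat_lit 8) (v (nat_lit 8) (a (v (nat_lit 9) (k (nat_lit 0x98e6e)))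 (v (nat_lit 8) (k (nat_lit 0x98f34)))))) (a (v (nat_lit 7) (u (nat_lit 9) (v (nat_lit 9) (k (nat_lit 0x98c9a))))) (u (nat_lit 7) (a (v (nat_lit 8) (a (v (nat_lit 9) (k (nat_lit 0x98f76))) (v (nat_lit 8) (k (nat_lit 0x9df02))))) (v (nat_lit 7) (a (v (nat_lit 9) (k (nat_lit 0x98b6e))) (a (v (nat_lit 8) (k (nat_lit 0x98ec8))) (v (nat_lit 7) (k (nat_lit 0x98f40))))))))))) (a (a (v (nat_lit 6) (a (a (u (nat_lit 9) (v (nat_lit 9) (k (nat_lit 0x98f40)))) (u (nat_lit 8) (a (v (nat_lit 9) (k (nat_lit 0x962c4))) (v (nat_lit 8) (k (nat_lit 0x9b36a)))))) (a (v (nat_lit 7) (u (nat_lit 8) (k (nat_lit 0x96f84)))) (a (u (nat_lit 7) (v (nat_lit 7) (k (nat_lit 0x991b0)))) (v (nat_lit 6) (u (nat_lit 7) (k (nat_lit 0x999d2)))))))) (u (nat_lit 6) (a (a (v (nat_lit 8) (a (v (nat_lit 9) (k (nat_lit 0x9ba4e))) (v (nat_lit 8) (k (nat_lit 0x9d15e))))) (u (nat_lit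 8) (v (nat_lit 8) (k (nat_lit 0x9f6d8))))) (a (v (nat_lit 7) (a (v (nat_lit 9) (k (nat_lit 0x98d24))) (a (v (nat_lit 8) (k (nat_lit 0x952fe))) (v (nat_lit 7) (k (nat_lit 0x98a30)))))) (v (nat_lit 6) (a (v (nat_lit 9) (k (nat_lit 0x98dfc))) (a (v (nat_lit 8) (k (nat_lit 0x98eb0))) (v (nat_lit 6) (k (nat_lit 0x98e6e)))))))))) (a (v (nat_lit 5) (a (a (u (nat_lit 9) (v (nat_lit 9) (k (nat_lit 0x99054)))) (a (v (nat_lit 8) (u (nat_lit 9) (k (nat_lit 0x130ce0)))) (u (nat_lit 8) (a (v (nat_lit 9) (k (nat_lit 0x98f34))) (v (nat_lit 8) (k (nat_lit 0x98fa0))))))) (a (a (v (nat_lit 7) (u (nat_lit 9) (k (nat_lit 0x9e688)))) (u (nat_lit 7) (a (v (nat_lit 9) (k (nat_lit 0x95130))) (a (v (nat_lit 8) (k (nat_lit 0x993ea))) (v (nat_lit 7) (k (nat_lit 0x96b82))))))) (a (v (nat_lit 6) (a (u (nat_lit 9) (k (nat_lit 0x9b280))) (a (u (nat_lit 8) (k (nat_lit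 0x98f4c))) (u (nat_lit 7) (k (nat_lit 0x9ab54)))))) (u (nat_lit 6) (a (v (nat_lit 7) (k (nat_lit 0x997fe))) (v (nat_lit 6) (k (nat_lit 0x98e50))))))))) (a (u (nat_lit 5) (a (a (v (nat_lit 8) (v (nat_lit 9) (k (nat_lit 0x98f34)))) (u (nat_lit 8) (u (nat_lit 9) (k (nat_lit 0x132ea0))))) (a (v (nat_lit 6) (a (v (nat_lit 9) (k (nat_lit 0x96bd6))) (u (nat_lit 7) (k (nat_lit 0x99744))))) (v (nat_lit 5) (a (a (v (nat_lit 9) (k (nat_lit 0x98e6e))) (v (nat_lit 8) (k (nat_lit 0x98fa0)))) (a (v (nat_lit 7) (k (nat_lit 0x98d06))) (a (v (nat_lit 6) (k (nat_lit 0x99030))) (v (nat_lit 5) (k (nat_lit 0x98f34)))))))))) (v (nat_lit 4) (a (a (u (nat_lit 9) (v (nat_lit 9) (k (nat_lit 0x98c9a)))) (a (v (nat_lit 8) (u (nat_lit 9) (k (nat_lit 0x9e688)))) (u (nat_lit 8) (v (nat_lit 8) (k (nat_lit 0x98d06)))))) (a (a (u (nat_lit 7) (a (v (nat_lit 9) (k (nat_lit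 0x987ae))) (a (v (nat_lit 8) (k (nat_lit 0x19d45c4))) (v (nat_lit 7) (k (nat_lit 0x98c28)))))) (v (nat_lit 6) (u (nat_lit 7) (k (nat_lit 0x99108))))) (a (u (nat_lit 6) (a (a (v (nat_lit 9) (k (nat_lit 0x948f6))) (v (nat_lit 8) (k (nat_lit 0x99042)))) (a (v (nat_lit 7) (k (nat_lit 0x98c04))) (v (nat_lit 6) (k (nat_lit 0x98aba)))))) (u (nat_lit 5) (v (nat_lit 6) (k (nat_lit 0x9c93c)))))))))))) (a (a (a (u (nat_lit 4) (a (a (v (nat_lit 8) (v (nat_lit 9) (k (nat_lit 0x95130)))) (v (nat_lit 7) (v (nat_lit 9) (k (nat_lit 0x987ae))))) (a (v (nat_lit 6) (v (nat_lit 9) (k (nat_lit 0x9ddb8)))) (a (v (nat_lit 5) (a (a (v (nat_lit 9) (k (nat_lit 0x98f76))) (v (nat_lit 8) (k (nat_lit 0x993ea)))) (a (v (nat_lit 7) (k (nat_lit 0x19d45c4))) (a (v (nat_lit 6) (k (nat_lit 0x95e26))) (v (nat_lit 5) (k (nat_lit 0x9df02))))))) (v (nat_lit 4) (a (a (v (nat_lit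 9) (k (nat_lit 0x98b6e))) (a (v (nat_lit 8) (k (nat_lit 0x96b82))) (v (nat_lit 7) (k (nat_lit 0x98c28))))) (a (v (nat_lit 6) (k (nat_lit 0x98ff4))) (a (v (nat_lit 5) (k (nat_lit 0x98ec8))) (v (nat_lit 4) (k (nat_lit 0x98f40))))))))))) (t (nat_lit 4) (nat_lit 7) (nat_lit 9) (t (nat_lit 5) (nat_lit 8) (nat_lit 9) (u (nat_lit 6) (k (nat_lit 0x991aa)))))) (a (v (nat_lit 3) (a (a (a (u (nat_lit 9) (v (nat_lit 9) (k (nat_lit 0x98f40)))) (v (nat_lit 8) (u (nat_lit 9) (k (nat_lit 0x9b280))))) (a (u (nat_lit 8) (a (v (nat_lit 9) (k (nat_lit 0x96bd6))) (v (nat_lit 8) (k (nat_lit 0x99030))))) (a (v (nat_lit 7) (u (nat_lit 8) (k (nat_lit 0x9c93c)))) (u (nat_lit 7) (a (v (nat_lit 9) (k (nat_lit 0x9ddb8))) (a (v (nat_lit 8) (k (nat_lit 0x95e26))) (v (nat_lit 7) (k (nat_lit 0x98ff4))))))))) (a (a (v (nat_lit 6) (a (u (nat_lit 9) (k (nat_lit 0x131cb8)))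 (u (nat_lit 7) (k (nat_lit 0x98844))))) (a (u (nat_lit 6) (a (v (nat_lit 7) (k (nat_lit 0x9810c))) (v (nat_lit 6) (k (nat_lit 0x98efe))))) (u (nat_lit 5) (a (v (nat_lit 9) (k (nat_lit 0x962c4))) (a (v (nat_lit 8) (k (nat_lit 0x98f4c))) (v (nat_lit 5) (k (nat_lit 0x9b36a)))))))) (a (v (nat_lit 4) (u (nat_lit 5) (k (nat_lit 0x96f84)))) (a (u (nat_lit 4) (a (a (v (nat_lit 8) (k (nat_lit 0x9ab54))) (u (nat_lit 8) (k (nat_lit 0x99744)))) (a (v (nat_lit 7) (k (nat_lit 0x99108))) (a (v (nat_lit 6) (k (nat_lit 0x98844))) (v (nat_lit 4) (k (nat_lit 0x991b0))))))) (v (nat_lit 3) (u (nat_lit 4) (k (nat_lit 0x999d2))))))))) (a (u (nat_lit 3) (a (a (v (nat_lit 7) (v (nat_lit 9) (k (nat_lit 0x948f6)))) (a (v (nat_lit 5) (a (v (nat_lit 9) (k (nat_lit 0x9ba4e))) (a (v (nat_lit 7) (k (nat_lit 0x99042))) (v (nat_lit 5) (k (nat_lit 0x9d15e)))))) (u (nat_lit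 5) (v (nat_lit 5) (k (nat_lit 0x9f6d8)))))) (a (v (nat_lit 4) (a (a (v (nat_lit 9) (k (nat_lit 0x98d24))) (a (v (nat_lit 8) (k (nat_lit 0x997fe))) (v (nat_lit 7) (k (nat_lit 0x98c04))))) (a (v (nat_lit 6) (k (nat_lit 0x9810c))) (a (v (nat_lit 5) (k (nat_lit 0x952fe))) (v (nat_lit 4) (k (nat_lit 0x98a30))))))) (a (t (nat_lit 4) (nat_lit 7) (nat_lit 9) (t (nat_lit 5) (nat_lit 8) (nat_lit 9) (k (nat_lit 0x991aa)))) (v (nat_lit 3) (a (a (v (nat_lit 9) (k (nat_lit 0x98dfc))) (a (v (nat_lit 8) (k (nat_lit 0x98e50))) (v (nat_lit 7) (k (nat_lit 0x98aba))))) (a (v (nat_lit 6) (k (nat_lit 0x98efe))) (a (v (nat_lit 5) (k (nat_lit 0x98eb0))) (v (nat_lit 3) (k (nat_lit 0x98e6e))))))))))) (t (nat_lit 3) (nat_lit 6) (nat_lit 9) (a (a (u (nat_lit 8) (u (nat_lit 8) (k (nat_lit 0x215670)))) (a (v (nat_lit 6) (u (nat_lit 7) (k (nat_lit 0x2b16d84)))) (u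 (nat_lit 5) (u (nat_lit 5) (k (nat_lit 0x215670)))))) (a (u (nat_lit 4) (u (nat_lit 7) (k (nat_lit 0x133158)))) (a (v (nat_lit 3) (u (nat_lit 4) (k (nat_lit 0x2b16d84)))) (u (nat_lit 3) (u (nat_lit 6) (k (nat_lit 0x131e8c))))))))))) (a (a (v (nat_lit 2) (a (a (u (nat_lit 9) (v (nat_lit 9) (k (nat_lit 0x136f20)))) (a (u (nat_lit 7) (a (v (nat_lit 8) (k (nat_lit 0x98f4c))) (v (nat_lit 7) (k (nat_lit 0x98f2e))))) (v (nat_lit 6) (u (nat_lit 8) (k (nat_lit 0x98e50)))))) (a (a (u (nat_lit 6) (v (nat_lit 7) (k (nat_lit 0x96f9c)))) (u (nat_lit 4) (a (v (nat_lit 5) (k (nat_lit 0x98f4c))) (v (nat_lit 4) (k (nat_lit 0x98f2e)))))) (a (v (nat_lit 3) (u (nat_lit 5) (k (nat_lit 0x98e50)))) (u (nat_lit 3) (v (nat_lit 4) (k (nat_lit 0x96f9c)))))))) (u (nat_lit 2) (a (a (a (v (nat_lit 9) (v (nat_lit 9) (k (nat_lit 0x1278f0)))) (v (nat_lit 8) (a (v (nat_lit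 9) (k (nat_lit 0x990cc))) (v (nat_lit 8) (k (nat_lit 0x994d4)))))) (a (v (nat_lit 7) (v (nat_lit 9) (k (nat_lit 0x99252)))) (v (nat_lit 6) (a (v (nat_lit 9) (k (nat_lit 0x98e98))) (v (nat_lit 6) (k (nat_lit 0xd53714))))))) (a (a (v (nat_lit 5) (a (a (v (nat_lit 9) (k (nat_lit 0x990cc))) (v (nat_lit 8) (k (nat_lit 0x132204)))) (a (v (nat_lit 7) (k (nat_lit 0xa2600))) (a (v (nat_lit 6) (k (nat_lit 0x990e4))) (v (nat_lit 5) (k (nat_lit 0x994d4))))))) (v (nat_lit 4) (a (a (v (nat_lit 9) (k (nat_lit 0x99252))) (v (nat_lit 8) (k (nat_lit 0xa2600)))) (a (v (nat_lit 7) (k (nat_lit 0x131934))) (v (nat_lit 6) (k (nat_lit 0x96b70))))))) (a (v (nat_lit 3) (a (a (v (nat_lit 9) (k (nat_lit 0x98e98))) (v (nat_lit 8) (k (nat_lit 0x990e4)))) (a (v (nat_lit 7) (k (nat_lit 0x96b70))) (a (v (nat_lit 6) (k (nat_lit 0x131ac0))) (v (nat_lit 3) (k (nat_lit 0xd53714)))))))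 (a (v (nat_lit 2) (a (a (a (v (nat_lit 9) (k (nat_lit 0x12f6fc))) (v (nat_lit 8) (k (nat_lit 0x98fa0)))) (a (v (nat_lit 7) (k (nat_lit 0x97560))) (a (u (nat_lit 7) (k (nat_lit 0x983ee))) (v (nat_lit 6) (k (nat_lit 0x98fe8)))))) (a (a (v (nat_lit 5) (k (nat_lit 0x98fa0))) (v (nat_lit 4) (k (nat_lit 0x97560)))) (a (u (nat_lit 4) (k (nat_lit 0x983ee))) (a (v (nat_lit 3) (k (nat_lit 0x98fe8))) (v (nat_lit 2) (k (nat_lit 0x131c04)))))))) (u (nat_lit 2) (a (v (nat_lit 9) (k (nat_lit 0x12f420))) (a (v (nat_lit 7) (k (nat_lit 0x97d52))) (v (nat_lit 4) (k (nat_lit 0x97d52)))))))))))) (a (t (nat_lit 2) (nat_lit 4) (nat_lit 5) (a (a (t (nat_lit 5) (nat_lit 8) (nat_lit 9) (a (u (nat_lit 9) (k (nat_lit 0x4964580))) (u (nat_lit 7) (k (nat_lit 0x98a1c2))))) (t (nat_lit 4) (nat_lit 7) (nat_lit 9) (u (nat_lit 8) (k (nat_lit 0x62636d0))))) (a (t (nat_lit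 3) (nat_lit 6) (nat_lit 9) (u (nat_lit 3) (k (nat_lit 0x1119f30)))) (u (nat_lit 2) (u (nat_lit 4) (k (nat_lit 0x9a3aa))))))) (a (t (nat_lit 2) (nat_lit 7) (nat_lit 8) (a (a (t (nat_lit 5) (nat_lit 8) (nat_lit 9) (u (nat_lit 9) (k (nat_lit 0x4964580)))) (a (u (nat_lit 4) (t (nat_lit 5) (nat_lit 8) (nat_lit 9) (k (nat_lit 0x98a1c2)))) (t (nat_lit 4) (nat_lit 7) (nat_lit 9) (u (nat_lit 5) (k (nat_lit 0x62636d0)))))) (a (t (nat_lit 3) (nat_lit 6) (nat_lit 9) (u (nat_lit 6) (k (nat_lit 0x1119f30)))) (a (u (nat_lit 2) (u (nat_lit 7) (k (nat_lit 0x9a3aa)))) (t (nat_lit 2) (nat_lit 4) (nat_lit 5) (a (u (nat_lit 9) (k (nat_lit 0x9305094))) (u (nat_lit 2) (k (nat_lit 0x3aec8ac))))))))) (v (nat_lit 1) (a (a (a (a (u (nat_lit 9) (v (nat_lit 9) (k (nat_lit 0x12cdc8)))) (u (nat_lit 8) (v (nat_lit 8) (k (nat_lit 0x98e50))))) (a (v (nat_lit 7) (u (nat_lit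 8) (k (nat_lit 0x98df6)))) (u (nat_lit 7) (v (nat_lit 7) (k (nat_lit 0x98eb6)))))) (a (a (v (nat_lit 6) (a (u (nat_lit 8) (k (nat_lit 0x9ad10))) (u (nat_lit 7) (k (nat_lit 0x96f36))))) (u (nat_lit 6) (a (v (nat_lit 8) (k (nat_lit 0x9877e))) (a (v (nat_lit 7) (k (nat_lit 0x9857a))) (v (nat_lit 6) (k (nat_lit 0x98e14))))))) (a (u (nat_lit 5) (v (nat_lit 5) (k (nat_lit 0x98e50)))) (a (t (nat_lit 5) (nat_lit 8) (nat_lit 9) (a (u (nat_lit 8) (k (nat_lit 0x10f92ae0))) (a (u (nat_lit 7) (k (nat_lit 0x319abce))) (u (nat_lit 5) (k (nat_lit 0x10f92ae0)))))) (v (nat_lit 4) (u (nat_lit 5) (k (nat_lit 0x98df6)))))))) (a (a (a (u (nat_lit 4) (a (t (nat_lit 5) (nat_lit 8) (nat_lit 9) (k (nat_lit 0x319abce))) (v (nat_lit 4) (k (nat_lit 0x98eb6))))) (t (nat_lit 4) (nat_lit 7) (nat_lit 9) (a (u (nat_lit 7) (k (nat_lit 0xbf02d52))) (u (nat_lit 4) (k (nat_lit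 0xbf02d52)))))) (a (v (nat_lit 3) (a (u (nat_lit 5) (k (nat_lit 0x9ad10))) (u (nat_lit 4) (k (nat_lit 0x96f36))))) (u (nat_lit 3) (a (v (nat_lit 5) (k (nat_lit 0x9877e))) (a (v (nat_lit 4) (k (nat_lit 0x9857a))) (v (nat_lit 3) (k (nat_lit 0x98e14)))))))) (a (a (t (nat_lit 3) (nat_lit 6) (nat_lit 9) (a (u (nat_lit 6) (k (nat_lit 0x98ec8))) (u (nat_lit 3) (k (nat_lit 0x98ec8))))) (u (nat_lit 2) (a (a (a (v (nat_lit 9) (k (nat_lit 0x1373d0))) (v (nat_lit 8) (k (nat_lit 0x99468)))) (a (v (nat_lit 7) (k (nat_lit 0x99882))) (v (nat_lit 6) (k (nat_lit 0x98d66))))) (a (a (v (nat_lit 5) (k (nat_lit 0x99468))) (v (nat_lit 4) (k (nat_lit 0x99882)))) (a (v (nat_lit 3) (k (nat_lit 0x98d66))) (v (nat_lit 2) (k (nat_lit 0x1321b0)))))))) (a (t (nat_lit 2) (nat_lit 4) (nat_lit 5) (a (u (nat_lit 3) (k (nat_lit 0x99852))) (u (nat_lit 2) (k (nat_lit 0x98f10)))))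 (a (t (nat_lit 2) (nat_lit 7) (nat_lit 8) (a (u (nat_lit 6) (k (nat_lit 0x99852))) (u (nat_lit 2) (k (nat_lit 0x98f10))))) (v (nat_lit 1) (u (nat_lit 2) (k (nat_lit 0x12f714)))))))))))))))))) (a (u (nat_lit 1) (a (a (a (a (v (nat_lit 7) (u (nat_lit 8) (v (nat_lit 8) (k (nat_lit 0x9b232))))) (v (nat_lit 6) (u (nat_lit 9) (v (nat_lit 9) (k (nat_lit 0x98ce8)))))) (a (u (nat_lit 6) (u (nat_lit 7) (v (nat_lit 8) (k (nat_lit 0x9e874))))) (v (nat_lit 5) (u (nat_lit 7) (v (nat_lit 7) (k (nat_lit 0x96942))))))) (a (a (u (nat_lit 5) (v (nat_lit 7) (v (nat_lit 9) (k (nat_lit 0x95154))))) (t (nat_lit 5) (nat_lit 8) (nat_lit 9) (a (u (nat_lit 8) (u (nat_lit 9) (k (nat_lit 0x9fada)))) (u (nat_lit 5) (u (nat_lit 9) (k (nat_lit 0x9fada))))))) (a (v (nat_lit 4) (a (u (nat_lit 8) (v (nat_lit 9) (k (nat_lit 0x95154)))) (a (v (nat_lit 6) (v (nat_lit 9) (k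 (nat_lit 0x9839a)))) (u (nat_lit 5) (v (nat_lit 5) (k (nat_lit 0x9b232))))))) (a (u (nat_lit 4) (v (nat_lit 4) (v (nat_lit 8) (k (nat_lit 0x96942))))) (t (nat_lit 4) (nat_lit 7) (nat_lit 9) (a (a (u (nat_lit 9) (v (nat_lit 9) (k (nat_lit 0xbd34eb4)))) (a (u (nat_lit 8) (u (nat_lit 9) (k (nat_lit 0x48ca0e6)))) (u (nat_lit 7) (u (nat_lit 9) (k (nat_lit 0x7e7d0e2)))))) (a (a (v (nat_lit 6) (a (u (nat_lit 8) (k (nat_lit 0x48601e0))) (u (nat_lit 7) (k (nat_lit 0x27039d8))))) (u (nat_lit 6) (a (u (nat_lit 9) (k (nat_lit 0x955973a))) (v (nat_lit 6) (k (nat_lit 0x9bb26)))))) (a (u (nat_lit 5) (u (nat_lit 9) (k (nat_lit 0x48ca0e6)))) (u (nat_lit 4) (u (nat_lit 9) (k (nat_lit 0x7e7d0e2)))))))))))) (a (a (a (v (nat_lit 3) (a (a (a (u (nat_lit 9) (v (nat_lit 9) (k (nat_lit 0x98ce8)))) (v (nat_lit 7) (v (nat_lit 9) (k (nat_lit 0x9839a))))) (a (v (nat_lit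 6) (a (a (v (nat_lit 8) (k (nat_lit 0x98e5c))) (v (nat_lit 7) (k (nat_lit 0x9a008)))) (a (u (nat_lit 7) (k (nat_lit 0x983a0))) (v (nat_lit 6) (k (nat_lit 0x98d54)))))) (v (nat_lit 5) (v (nat_lit 6) (k (nat_lit 0x98e5c)))))) (a (a (v (nat_lit 4) (v (nat_lit 6) (k (nat_lit 0x9a008)))) (u (nat_lit 4) (v (nat_lit 6) (k (nat_lit 0x983a0))))) (a (t (nat_lit 4) (nat_lit 7) (nat_lit 9) (a (u (nat_lit 5) (k (nat_lit 0x48601e0))) (u (nat_lit 4) (k (nat_lit 0x27039d8))))) (v (nat_lit 3) (v (nat_lit 6) (k (nat_lit 0x98d54)))))))) (u (nat_lit 3) (a (u (nat_lit 4) (v (nat_lit 5) (k (nat_lit 0x9e874)))) (a (t (nat_lit 4) (nat_lit 7) (nat_lit 9) (u (nat_lit 9) (k (nat_lit 0x955973a)))) (v (nat_lit 3) (t (nat_lit 4) (nat_lit 7) (nat_lit 9) (k (nat_lit 0x9bb26)))))))) (a (t (nat_lit 3) (nat_lit 6) (nat_lit 9) (a (a (u (nat_lit 6) (v (nat_lit 9) (k (nat_lit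 0x16ead20e)))) (u (nat_lit 5) (u (nat_lit 7) (k (nat_lit 0x7501b18))))) (a (u (nat_lit 4) (u (nat_lit 8) (k (nat_lit 0x7501b18)))) (a (u (nat_lit 3) (v (nat_lit 9) (k (nat_lit 0x16ead20e)))) (t (nat_lit 3) (nat_lit 6) (nat_lit 9) (a (u (nat_lit 6) (k (nat_lit 0x98fe2))) (u (nat_lit 3) (k (nat_lit 0x98fe2))))))))) (v (nat_lit 2) (a (a (u (nat_lit 9) (v (nat_lit 9) (k (nat_lit 0x12ce88)))) (a (v (nat_lit 6) (v (nat_lit 7) (k (nat_lit 0x9acb0)))) (v (nat_lit 4) (u (nat_lit 6) (k (nat_lit 0x96564)))))) (a (v (nat_lit 3) (a (v (nat_lit 6) (k (nat_lit 0x131f04))) (v (nat_lit 4) (k (nat_lit 0x9acb0))))) (a (u (nat_lit 3) (v (nat_lit 7) (k (nat_lit 0x96564)))) (v (nat_lit 2) (u (nat_lit 9) (k (nat_lit 0x1319a0)))))))))) (a (a (u (nat_lit 2) (a (a (v (nat_lit 6) (v (nat_lit 6) (k (nat_lit 0x99090)))) (v (nat_lit 3) (v (nat_lit 3) (k (nat_lit 0x99090)))))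 (a (t (nat_lit 3) (nat_lit 6) (nat_lit 9) (a (u (nat_lit 6) (k (nat_lit 0x3934ed8))) (u (nat_lit 3) (k (nat_lit 0x3934ed8))))) (v (nat_lit 2) (t (nat_lit 3) (nat_lit 6) (nat_lit 9) (k (nat_lit 0x102bef98))))))) (t (nat_lit 2) (nat_lit 4) (nat_lit 5) (u (nat_lit 2) (u (nat_lit 7) (k (nat_lit 0x99d1e2)))))) (a (t (nat_lit 2) (nat_lit 7) (nat_lit 8) (u (nat_lit 2) (u (nat_lit 4) (k (nat_lit 0x99d1e2))))) (a (v (nat_lit 1) (a (a (a (v (nat_lit 8) (v (nat_lit 9) (k (nat_lit 0x98ffa)))) (a (v (nat_lit 7) (v (nat_lit 9) (k (nat_lit 0x98ce8)))) (v (nat_lit 6) (a (a (v (nat_lit 9) (k (nat_lit 0x990d2))) (v (nat_lit 8) (k (nat_lit 0x9799e)))) (a (v (nat_lit 7) (k (nat_lit 0x9bf2e))) (v (nat_lit 6) (k (nat_lit 0x13f1ac6)))))))) (a (v (nat_lit 5) (a (a (v (nat_lit 9) (k (nat_lit 0x98ffa))) (v (nat_lit 8) (k (nat_lit 0x1326d8)))) (a (v (nat_lit 7)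 (k (nat_lit 0x9941a))) (v (nat_lit 6) (k (nat_lit 0x99582)))))) (a (t (nat_lit 5) (nat_lit 8) (nat_lit 9) (t (nat_lit 5) (nat_lit 8) (nat_lit 9) (k (nat_lit 0x13212c)))) (v (nat_lit 4) (a (a (v (nat_lit 9) (k (nat_lit 0x98ce8))) (v (nat_lit 8) (k (nat_lit 0x9941a)))) (a (v (nat_lit 7) (k (nat_lit 0x131a84))) (v (nat_lit 6) (k (nat_lit 0x990d8))))))))) (a (a (t (nat_lit 4) (nat_lit 7) (nat_lit 9) (t (nat_lit 5) (nat_lit 8) (nat_lit 9) (k (nat_lit 0x131ce8)))) (a (v (nat_lit 3) (a (a (v (nat_lit 9) (k (nat_lit 0x990d2))) (a (v (nat_lit 8) (k (nat_lit 0x99582))) (v (nat_lit 7) (k (nat_lit 0x990d8))))) (a (a (v (nat_lit 6) (k (nat_lit 0x13203c))) (v (nat_lit 5) (k (nat_lit 0x9799e)))) (a (v (nat_lit 4) (k (nat_lit 0x9bf2e))) (v (nat_lit 3) (k (nat_lit 0x13f1ac6))))))) (t (nat_lit 3) (nat_lit 6) (nat_lit 9) (a (a (u (nat_lit 9) (k (nat_lit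 0x1345a4))) (v (nat_lit 8) (k (nat_lit 0x9af9e)))) (a (v (nat_lit 5) (k (nat_lit 0x9af9e))) (t (nat_lit 5) (nat_lit 8) (nat_lit 9) (k (nat_lit 0x13be4c)))))))) (a (v (nat_lit 2) (a (a (a (v (nat_lit 9) (k (nat_lit 0x1321bc))) (v (nat_lit 8) (k (nat_lit 0x988f8)))) (a (v (nat_lit 7) (k (nat_lit 0x983a6))) (v (nat_lit 6) (k (nat_lit 0x99150))))) (a (a (v (nat_lit 5) (k (nat_lit 0x988f8))) (v (nat_lit 4) (k (nat_lit 0x983a6)))) (a (v (nat_lit 3) (k (nat_lit 0x99150))) (v (nat_lit 2) (k (nat_lit 0x1313dc))))))) (a (u (nat_lit 2) (a (a (u (nat_lit 9) (k (nat_lit 0x7a0bfa4))) (v (nat_lit 8) (k (nat_lit 0x99528)))) (a (v (nat_lit 5) (k (nat_lit 0x99528))) (t (nat_lit 5) (nat_lit 8) (nat_lit 9) (k (nat_lit 0x1321b0)))))) (v (nat_lit 1) (a (a (a (v (nat_lit 9) (k (nat_lit 0x128fac))) (u (nat_lit 9) (k (nat_lit 0x129180)))) (a (v (nat_lit 8) (k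 (nat_lit 0x98f28))) (a (v (nat_lit 7) (k (nat_lit 0x98844))) (v (nat_lit 6) (k (nat_lit 0x99198)))))) (a (a (v (nat_lit 5) (k (nat_lit 0x98f28))) (v (nat_lit 4) (k (nat_lit 0x98844)))) (a (v (nat_lit 3) (k (nat_lit 0x99198))) (a (v (nat_lit 2) (k (nat_lit 0x13a8c8))) (v (nat_lit 1) (k (nat_lit 0x131a18))))))))))))) (u (nat_lit 1) (a (a (u (nat_lit 9) (u (nat_lit 9) (k (nat_lit 0x12cc9c)))) (a (t (nat_lit 5) (nat_lit 8) (nat_lit 9) (u (nat_lit 9) (k (nat_lit 0x858777c)))) (t (nat_lit 3) (nat_lit 6) (nat_lit 9) (a (v (nat_lit 9) (k (nat_lit 0x7ed356c))) (a (u (nat_lit 6) (k (nat_lit 0x2234ad2))) (u (nat_lit 3) (k (nat_lit 0x2234ad2)))))))) (a (a (v (nat_lit 2) (u (nat_lit 9) (k (nat_lit 0x135a38)))) (u (nat_lit 2) (v (nat_lit 9) (k (nat_lit 0x1279e0))))) (a (v (nat_lit 1) (a (t (nat_lit 5) (nat_lit 8) (nat_lit 9) (k (nat_lit 0x6687144)))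 (u (nat_lit 2) (k (nat_lit 0x12b1cc))))) (u (nat_lit 1) (v (nat_lit 1) (k (nat_lit 0x133f80)))))))))))))) (a (v (nat_lit 0) (a (a (a (a (u (nat_lit 9) (v (nat_lit 9) (v (nat_lit 9) (k (nat_lit 0x131d6c))))) (v (nat_lit 8) (u (nat_lit 9) (v (nat_lit 9) (k (nat_lit 0x98c9a)))))) (a (u (nat_lit 8) (v (nat_lit 8) (a (v (nat_lit 9) (k (nat_lit 0x98b6e))) (v (nat_lit 8) (k (nat_lit 0x98f40)))))) (a (v (nat_lit 7) (a (u (nat_lit 9) (v (nat_lit 9) (k (nat_lit 0x99054)))) (a (u (nat_lit 8) (a (v (nat_lit 9) (k (nat_lit 0x98f76))) (v (nat_lit 8) (k (nat_lit 0x98ec8))))) (v (nat_lit 7) (u (nat_lit 8) (k (nat_lit 0x9df02))))))) (u (nat_lit 7) (v (nat_lit 7) (a (v (nat_lit 9) (k (nat_lit 0x98e6e))) (v (nat_lit 7) (k (nat_lit 0x98f34))))))))) (a (a (v (nat_lit 6) (a (a (u (nat_lit 9) (v (nat_lit 9) (k (nat_lit 0x98f40)))) (u (nat_lit 8) (v (nat_lit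 8) (k (nat_lit 0x991b0))))) (a (u (nat_lit 7) (a (v (nat_lit 9) (k (nat_lit 0x962c4))) (a (v (nat_lit 8) (k (nat_lit 0x96f84))) (v (nat_lit 7) (k (nat_lit 0x9b36a)))))) (v (nat_lit 6) (u (nat_lit 8) (k (nat_lit 0x999d2))))))) (a (u (nat_lit 6) (a (a (v (nat_lit 8) (a (v (nat_lit 9) (k (nat_lit 0x98d24))) (v (nat_lit 8) (k (nat_lit 0x98a30))))) (v (nat_lit 7) (a (v (nat_lit 9) (k (nat_lit 0x9ba4e))) (a (v (nat_lit 8) (k (nat_lit 0x952fe))) (v (nat_lit 7) (k (nat_lit 0x9d15e))))))) (a (u (nat_lit 7) (v (nat_lit 7) (k (nat_lit 0x9f6d8)))) (v (nat_lit 6) (a (v (nat_lit 9) (k (nat_lit 0x98dfc))) (a (v (nat_lit 7) (k (nat_lit 0x98eb0))) (v (nat_lit 6) (k (nat_lit 0x98e6e))))))))) (v (nat_lit 5) (a (a (u (nat_lit 9) (v (nat_lit 9) (k (nat_lit 0x98c9a)))) (a (u (nat_lit 8) (a (v (nat_lit 9) (k (nat_lit 0x987ae))) (v (nat_lit 8) (k (nat_lit 0x98c28)))))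 (v (nat_lit 7) (a (u (nat_lit 9) (k (nat_lit 0x9e688))) (u (nat_lit 8) (k (nat_lit 0x19d45c4))))))) (a (u (nat_lit 7) (v (nat_lit 7) (k (nat_lit 0x98d06)))) (a (v (nat_lit 6) (u (nat_lit 8) (k (nat_lit 0x99108)))) (u (nat_lit 6) (a (a (v (nat_lit 9) (k (nat_lit 0x948f6))) (v (nat_lit 8) (k (nat_lit 0x98c04)))) (a (v (nat_lit 7) (k (nat_lit 0x99042))) (v (nat_lit 6) (k (nat_lit 0x98aba)))))))))))) (a (u (nat_lit 5) (a (a (v (nat_lit 8) (v (nat_lit 9) (k (nat_lit 0x987ae)))) (v (nat_lit 7) (v (nat_lit 9) (k (nat_lit 0x95130))))) (a (v (nat_lit 6) (v (nat_lit 9) (k (nat_lit 0x9ddb8)))) (v (nat_lit 5) (a (a (v (nat_lit 9) (k (nat_lit 0x98b6e))) (v (nat_lit 8) (k (nat_lit 0x98c28)))) (a (v (nat_lit 7) (k (nat_lit 0x96b82))) (a (v (nat_lit 6) (k (nat_lit 0x98ff4))) (v (nat_lit 5) (k (nat_lit 0x98f40)))))))))) (a (v (nat_lit 4) (a (a (a (u (nat_lit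 9) (v (nat_lit 9) (k (nat_lit 0x99054)))) (v (nat_lit 8) (u (nat_lit 9) (k (nat_lit 0x9e688))))) (a (u (nat_lit 8) (a (v (nat_lit 9) (k (nat_lit 0x95130))) (v (nat_lit 8) (k (nat_lit 0x96b82))))) (v (nat_lit 7) (a (u (nat_lit 9) (k (nat_lit 0x130ce0))) (u (nat_lit 8) (k (nat_lit 0x993ea))))))) (a (a (u (nat_lit 7) (a (v (nat_lit 9) (k (nat_lit 0x98f34))) (v (nat_lit 7) (k (nat_lit 0x98fa0))))) (v (nat_lit 6) (a (u (nat_lit 9) (k (nat_lit 0x9b280))) (a (u (nat_lit 8) (k (nat_lit 0x9ab54))) (u (nat_lit 7) (k (nat_lit 0x98f4c))))))) (a (u (nat_lit 6) (a (v (nat_lit 8) (k (nat_lit 0x997fe))) (v (nat_lit 6) (k (nat_lit 0x98e50))))) (a (u (nat_lit 5) (a (a (v (nat_lit 9) (k (nat_lit 0x98f76))) (v (nat_lit 8) (k (nat_lit 0x19d45c4)))) (a (v (nat_lit 7) (k (nat_lit 0x993ea))) (a (v (nat_lit 6) (k (nat_lit 0x95e26))) (v (nat_lit 5) (k (nat_lit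 0x98ec8))))))) (v (nat_lit 4) (u (nat_lit 5) (k (nat_lit 0x9df02))))))))) (u (nat_lit 4) (a (a (v (nat_lit 7) (v (nat_lit 9) (k (nat_lit 0x98f34)))) (u (nat_lit 7) (u (nat_lit 9) (k (nat_lit 0x132ea0))))) (a (v (nat_lit 6) (a (v (nat_lit 9) (k (nat_lit 0x96bd6))) (u (nat_lit 8) (k (nat_lit 0x99744))))) (a (v (nat_lit 5) (v (nat_lit 6) (k (nat_lit 0x9c93c)))) (v (nat_lit 4) (a (a (v (nat_lit 9) (k (nat_lit 0x98e6e))) (v (nat_lit 8) (k (nat_lit 0x98d06)))) (a (v (nat_lit 7) (k (nat_lit 0x98fa0))) (a (v (nat_lit 6) (k (nat_lit 0x99030))) (v (nat_lit 4) (k (nat_lit 0x98f34))))))))))))))) (a (a (a (t (nat_lit 4) (nat_lit 7) (nat_lit 9) (t (nat_lit 5) (nat_lit 8) (nat_lit 9) (u (nat_lit 6) (k (nat_lit 0x991aa))))) (v (nat_lit 3) (a (a (a (u (nat_lit 9) (v (nat_lit 9) (k (nat_lit 0x98f40)))) (u (nat_lit 8) (a (v (nat_lit 9) (k (nat_lit 0x9ddb8)))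 (v (nat_lit 8) (k (nat_lit 0x98ff4)))))) (a (v (nat_lit 7) (a (u (nat_lit 9) (k (nat_lit 0x9b280))) (u (nat_lit 8) (k (nat_lit 0x95e26))))) (u (nat_lit 7) (a (v (nat_lit 9) (k (nat_lit 0x96bd6))) (a (v (nat_lit 8) (k (nat_lit 0x9c93c))) (v (nat_lit 7) (k (nat_lit 0x99030)))))))) (a (a (v (nat_lit 6) (a (u (nat_lit 9) (k (nat_lit 0x131cb8))) (u (nat_lit 8) (k (nat_lit 0x98844))))) (u (nat_lit 6) (a (v (nat_lit 8) (k (nat_lit 0x9810c))) (v (nat_lit 6) (k (nat_lit 0x98efe)))))) (a (u (nat_lit 5) (a (a (v (nat_lit 8) (k (nat_lit 0x99108))) (v (nat_lit 7) (k (nat_lit 0x9ab54)))) (a (u (nat_lit 7) (k (nat_lit 0x99744))) (a (v (nat_lit 6) (k (nat_lit 0x98844))) (v (nat_lit 5) (k (nat_lit 0x991b0))))))) (a (u (nat_lit 4) (a (a (v (nat_lit 9) (k (nat_lit 0x962c4))) (v (nat_lit 7) (k (nat_lit 0x98f4c)))) (a (v (nat_lit 5) (k (nat_lit 0x96f84)))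 (v (nat_lit 4) (k (nat_lit 0x9b36a)))))) (v (nat_lit 3) (u (nat_lit 5) (k (nat_lit 0x999d2)))))))))) (a (u (nat_lit 3) (a (a (v (nat_lit 8) (v (nat_lit 9) (k (nat_lit 0x948f6)))) (a (v (nat_lit 5) (a (a (v (nat_lit 9) (k (nat_lit 0x98d24))) (v (nat_lit 8) (k (nat_lit 0x98c04)))) (a (v (nat_lit 7) (k (nat_lit 0x997fe))) (a (v (nat_lit 6) (k (nat_lit 0x9810c))) (v (nat_lit 5) (k (nat_lit 0x98a30))))))) (v (nat_lit 4) (a (a (v (nat_lit 9) (k (nat_lit 0x9ba4e))) (v (nat_lit 8) (k (nat_lit 0x99042)))) (a (v (nat_lit 5) (k (nat_lit 0x952fe))) (v (nat_lit 4) (k (nat_lit 0x9d15e)))))))) (a (u (nat_lit 4) (v (nat_lit 4) (k (nat_lit 0x9f6d8)))) (a (t (nat_lit 4) (nat_lit 7) (nat_lit 9) (t (nat_lit 5) (nat_lit 8) (nat_lit 9) (k (nat_lit 0x991aa)))) (v (nat_lit 3) (a (a (v (nat_lit 9) (k (nat_lit 0x98dfc))) (a (v (nat_lit 8) (k (nat_lit 0x98aba)))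 (v (nat_lit 7) (k (nat_lit 0x98e50))))) (a (v (nat_lit 6) (k (nat_lit 0x98efe))) (a (v (nat_lit 4) (k (nat_lit 0x98eb0))) (v (nat_lit 3) (k (nat_lit 0x98e6e))))))))))) (a (t (nat_lit 3) (nat_lit 6) (nat_lit 9) (a (a (u (nat_lit 7) (u (nat_lit 7) (k (nat_lit 0x215670)))) (a (v (nat_lit 6) (u (nat_lit 8) (k (nat_lit 0x2b16d84)))) (u (nat_lit 5) (u (nat_lit 8) (k (nat_lit 0x133158)))))) (a (u (nat_lit 4) (u (nat_lit 4) (k (nat_lit 0x215670)))) (a (v (nat_lit 3) (u (nat_lit 5) (k (nat_lit 0x2b16d84)))) (u (nat_lit 3) (u (nat_lit 6) (k (nat_lit 0x131e8c)))))))) (v (nat_lit 2) (a (a (a (u (nat_lit 9) (v (nat_lit 9) (k (nat_lit 0x136f20)))) (u (nat_lit 8) (v (nat_lit 8) (k (nat_lit 0x98f2e))))) (a (v (nat_lit 7) (u (nat_lit 8) (k (nat_lit 0x98f4c)))) (v (nat_lit 6) (u (nat_lit 7) (k (nat_lit 0x98e50)))))) (a (a (u (nat_lit 6) (v (nat_lit 8)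 (k (nat_lit 0x96f9c)))) (u (nat_lit 5) (v (nat_lit 5) (k (nat_lit 0x98f2e))))) (a (v (nat_lit 4) (u (nat_lit 5) (k (nat_lit 0x98f4c)))) (a (v (nat_lit 3) (u (nat_lit 4) (k (nat_lit 0x98e50)))) (u (nat_lit 3) (v (nat_lit 5) (k (nat_lit 0x96f9c)))))))))))) (a (a (u (nat_lit 2) (a (a (a (v (nat_lit 9) (v (nat_lit 9) (k (nat_lit 0x1278f0)))) (v (nat_lit 8) (v (nat_lit 9) (k (nat_lit 0x99252))))) (a (v (nat_lit 7) (a (v (nat_lit 9) (k (nat_lit 0x990cc))) (v (nat_lit 7) (k (nat_lit 0x994d4))))) (v (nat_lit 6) (a (v (nat_lit 9) (k (nat_lit 0x98e98))) (v (nat_lit 6) (k (nat_lit 0xd53714))))))) (a (a (v (nat_lit 5) (a (a (v (nat_lit 9) (k (nat_lit 0x99252))) (v (nat_lit 8) (k (nat_lit 0x131934)))) (a (v (nat_lit 7) (k (nat_lit 0xa2600))) (v (nat_lit 6) (k (nat_lit 0x96b70)))))) (v (nat_lit 4) (a (a (v (nat_lit 9) (k (nat_lit 0x990cc))) (v (nat_lit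 8) (k (nat_lit 0xa2600)))) (a (v (nat_lit 7) (k (nat_lit 0x132204))) (a (v (nat_lit 6) (k (nat_lit 0x990e4))) (v (nat_lit 4) (k (nat_lit 0x994d4)))))))) (a (v (nat_lit 3) (a (a (v (nat_lit 9) (k (nat_lit 0x98e98))) (v (nat_lit 8) (k (nat_lit 0x96b70)))) (a (v (nat_lit 7) (k (nat_lit 0x990e4))) (a (v (nat_lit 6) (k (nat_lit 0x131ac0))) (v (nat_lit 3) (k (nat_lit 0xd53714))))))) (a (v (nat_lit 2) (a (a (a (v (nat_lit 9) (k (nat_lit 0x12f6fc))) (v (nat_lit 8) (k (nat_lit 0x97560)))) (a (u (nat_lit 8) (k (nat_lit 0x983ee))) (a (v (nat_lit 7) (k (nat_lit 0x98fa0))) (v (nat_lit 6) (k (nat_lit 0x98fe8)))))) (a (a (v (nat_lit 5) (k (nat_lit 0x97560))) (u (nat_lit 5) (k (nat_lit 0x983ee)))) (a (v (nat_lit 4) (k (nat_lit 0x98fa0))) (a (v (nat_lit 3) (k (nat_lit 0x98fe8))) (v (nat_lit 2) (k (nat_lit 0x131c04)))))))) (u (nat_lit 2) (a (v (nat_lit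 9) (k (nat_lit 0x12f420))) (a (v (nat_lit 8) (k (nat_lit 0x97d52))) (v (nat_lit 5) (k (nat_lit 0x97d52))))))))))) (a (t (nat_lit 2) (nat_lit 4) (nat_lit 5) (a (a (t (nat_lit 5) (nat_lit 8) (nat_lit 9) (u (nat_lit 7) (k (nat_lit 0x62636d0)))) (t (nat_lit 4) (nat_lit 7) (nat_lit 9) (a (u (nat_lit 9) (k (nat_lit 0x4964580))) (u (nat_lit 8) (k (nat_lit 0x98a1c2)))))) (a (t (nat_lit 3) (nat_lit 6) (nat_lit 9) (u (nat_lit 3) (k (nat_lit 0x1119f30)))) (u (nat_lit 2) (u (nat_lit 5) (k (nat_lit 0x9a3aa))))))) (t (nat_lit 2) (nat_lit 7) (nat_lit 8) (a (a (u (nat_lit 4) (t (nat_lit 5) (nat_lit 8) (nat_lit 9) (k (nat_lit 0x62636d0)))) (t (nat_lit 4) (nat_lit 7) (nat_lit 9) (a (u (nat_lit 9) (k (nat_lit 0x4964580))) (u (nat_lit 5) (k (nat_lit 0x98a1c2)))))) (a (t (nat_lit 3) (nat_lit 6) (nat_lit 9) (u (nat_lit 6) (k (nat_lit 0x1119f30)))) (a (u (nat_lit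 2) (u (nat_lit 8) (k (nat_lit 0x9a3aa)))) (t (nat_lit 2) (nat_lit 4) (nat_lit 5) (a (u (nat_lit 9) (k (nat_lit 0x9305094))) (u (nat_lit 2) (k (nat_lit 0x3aec8ac))))))))))) (a (v (nat_lit 1) (a (a (a (a (u (nat_lit 9) (v (nat_lit 9) (k (nat_lit 0x2634c0)))) (u (nat_lit 8) (v (nat_lit 8) (k (nat_lit 0x993d8))))) (a (u (nat_lit 7) (v (nat_lit 7) (k (nat_lit 0x993d8)))) (v (nat_lit 6) (a (u (nat_lit 8) (k (nat_lit 0x98dd2))) (u (nat_lit 7) (k (nat_lit 0x98dd2))))))) (a (a (u (nat_lit 6) (a (v (nat_lit 8) (k (nat_lit 0x98f0a))) (a (v (nat_lit 7) (k (nat_lit 0x98f0a))) (v (nat_lit 6) (k (nat_lit 0x131b68)))))) (u (nat_lit 5) (v (nat_lit 5) (k (nat_lit 0x993d8))))) (a (t (nat_lit 5) (nat_lit 8) (nat_lit 9) (u (nat_lit 7) (k (nat_lit 0x629cdea)))) (u (nat_lit 4) (a (t (nat_lit 5) (nat_lit 8) (nat_lit 9) (k (nat_lit 0x629cdea))) (v (nat_lit 4)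 (k (nat_lit 0x993d8)))))))) (a (a (a (t (nat_lit 4) (nat_lit 7) (nat_lit 9) (a (u (nat_lit 8) (k (nat_lit 0x629cdea))) (u (nat_lit 5) (k (nat_lit 0x629cdea))))) (v (nat_lit 3) (a (u (nat_lit 5) (k (nat_lit 0x98dd2))) (u (nat_lit 4) (k (nat_lit 0x98dd2)))))) (a (u (nat_lit 3) (a (v (nat_lit 5) (k (nat_lit 0x98f0a))) (a (v (nat_lit 4) (k (nat_lit 0x98f0a))) (v (nat_lit 3) (k (nat_lit 0x131b68)))))) (t (nat_lit 3) (nat_lit 6) (nat_lit 9) (a (u (nat_lit 6) (k (nat_lit 0x131d78))) (u (nat_lit 3) (k (nat_lit 0x131d78))))))) (a (a (u (nat_lit 2) (a (a (u (nat_lit 8) (k (nat_lit 0x99468))) (a (u (nat_lit 7) (k (nat_lit 0x99468))) (v (nat_lit 6) (k (nat_lit 0x131e68))))) (a (a (u (nat_lit 5) (k (nat_lit 0x99468))) (u (nat_lit 4) (k (nat_lit 0x99468)))) (a (v (nat_lit 3) (k (nat_lit 0x131e68))) (v (nat_lit 2) (k (nat_lit 0x265308))))))) (t (nat_lit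 2) (nat_lit 4) (nat_lit 5) (u (nat_lit 3) (k (nat_lit 0x7d865a8))))) (a (t (nat_lit 2) (nat_lit 7) (nat_lit 8) (u (nat_lit 6) (k (nat_lit 0x7d865a8)))) (v (nat_lit 1) (u (nat_lit 2) (k (nat_lit 0x131a9c))))))))) (a (u (nat_lit 1) (a (a (a (v (nat_lit 9) (v (nat_lit 9) (k (nat_lit 0x131940)))) (a (v (nat_lit 8) (a (v (nat_lit 9) (k (nat_lit 0x98d12))) (v (nat_lit 8) (k (nat_lit 0x988e0))))) (v (nat_lit 7) (v (nat_lit 8) (k (nat_lit 0x98f34)))))) (a (v (nat_lit 6) (a (v (nat_lit 9) (k (nat_lit 0x98f7c))) (v (nat_lit 6) (k (nat_lit 0x991ec))))) (a (v (nat_lit 5) (a (a (v (nat_lit 9) (k (nat_lit 0x98d12))) (v (nat_lit 8) (k (nat_lit 0x131a48)))) (a (v (nat_lit 7) (k (nat_lit 0x98fd6))) (v (nat_lit 5) (k (nat_lit 0x988e0)))))) (v (nat_lit 4) (a (v (nat_lit 8) (k (nat_lit 0x98fd6))) (a (v (nat_lit 6) (k (nat_lit 0x99114))) (v (nat_lit 5) (k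 (nat_lit 0x98f34))))))))) (a (a (v (nat_lit 3) (a (a (v (nat_lit 9) (k (nat_lit 0x98f7c))) (v (nat_lit 7) (k (nat_lit 0x99114)))) (a (v (nat_lit 6) (k (nat_lit 0x131ee0))) (v (nat_lit 3) (k (nat_lit 0x991ec)))))) (a (t (nat_lit 3) (nat_lit 6) (nat_lit 9) (t (nat_lit 3) (nat_lit 6) (nat_lit 9) (k (nat_lit 0x131cf4)))) (v (nat_lit 2) (a (a (v (nat_lit 9) (k (nat_lit 0x131b14))) (v (nat_lit 7) (k (nat_lit 0x994f8)))) (a (v (nat_lit 4) (k (nat_lit 0x994f8))) (v (nat_lit 2) (k (nat_lit 0x130e6c)))))))) (a (u (nat_lit 2) (t (nat_lit 4) (nat_lit 7) (nat_lit 9) (k (nat_lit 0x35733c)))) (a (v (nat_lit 1) (a (a (a (v (nat_lit 9) (k (nat_lit 0x1319d0))) (v (nat_lit 8) (k (nat_lit 0x99036)))) (a (v (nat_lit 7) (k (nat_lit 0x990a2))) (v (nat_lit 6) (k (nat_lit 0x99114))))) (a (a (v (nat_lit 5) (k (nat_lit 0x99036))) (v (nat_lit 4) (k (nat_lit 0x990a2))))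 (a (v (nat_lit 3) (k (nat_lit 0x99114))) (a (v (nat_lit 2) (k (nat_lit 0x131bc8))) (v (nat_lit 1) (k (nat_lit 0x131a78)))))))) (u (nat_lit 1) (a (u (nat_lit 8) (k (nat_lit 0x548142c))) (u (nat_lit 5) (k (nat_lit 0x548142c)))))))))) (v (nat_lit 0) (a (a (a (a (u (nat_lit 9) (v (nat_lit 9) (k (nat_lit 0x12cdc8)))) (u (nat_lit 8) (v (nat_lit 8) (k (nat_lit 0x98eb6))))) (a (u (nat_lit 7) (a (v (nat_lit 8) (k (nat_lit 0x98df6))) (v (nat_lit 7) (k (nat_lit 0x98e50))))) (v (nat_lit 6) (a (u (nat_lit 8) (k (nat_lit 0x96f36))) (u (nat_lit 7) (k (nat_lit 0x9ad10))))))) (a (a (u (nat_lit 6) (a (v (nat_lit 8) (k (nat_lit 0x9857a))) (a (v (nat_lit 7) (k (nat_lit 0x9877e))) (v (nat_lit 6) (k (nat_lit 0x98e14)))))) (u (nat_lit 5) (v (nat_lit 5) (k (nat_lit 0x98eb6))))) (a (t (nat_lit 5) (nat_lit 8) (nat_lit 9) (a (u (nat_lit 8) (k (nat_lit 0xbf02d52)))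 (u (nat_lit 5) (k (nat_lit 0xbf02d52))))) (a (u (nat_lit 4) (a (v (nat_lit 5) (k (nat_lit 0x98df6))) (v (nat_lit 4) (k (nat_lit 0x98e50))))) (t (nat_lit 4) (nat_lit 7) (nat_lit 9) (a (a (u (nat_lit 8) (k (nat_lit 0x319abce))) (u (nat_lit 7) (k (nat_lit 0x10f92ae0)))) (a (u (nat_lit 5) (k (nat_lit 0x319abce))) (u (nat_lit 4) (k (nat_lit 0x10f92ae0)))))))))) (a (a (a (v (nat_lit 3) (a (u (nat_lit 5) (k (nat_lit 0x96f36))) (u (nat_lit 4) (k (nat_lit 0x9ad10))))) (u (nat_lit 3) (a (v (nat_lit 5) (k (nat_lit 0x9857a))) (a (v (nat_lit 4) (k (nat_lit 0x9877e))) (v (nat_lit 3) (k (nat_lit 0x98e14))))))) (a (t (nat_lit 3) (nat_lit 6) (nat_lit 9) (a (u (nat_lit 6) (k (nat_lit 0x98ec8))) (u (nat_lit 3) (k (nat_lit 0x98ec8))))) (u (nat_lit 2) (a (a (a (v (nat_lit 9) (k (nat_lit 0x1373d0))) (v (nat_lit 8) (k (nat_lit 0x99882)))) (a (v (nat_lit 7)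 (k (nat_lit 0x99468))) (v (nat_lit 6) (k (nat_lit 0x98d66))))) (a (a (v (nat_lit 5) (k (nat_lit 0x99882))) (v (nat_lit 4) (k (nat_lit 0x99468)))) (a (v (nat_lit 3) (k (nat_lit 0x98d66))) (v (nat_lit 2) (k (nat_lit 0x1321b0))))))))) (a (a (t (nat_lit 2) (nat_lit 4) (nat_lit 5) (a (u (nat_lit 3) (k (nat_lit 0x99852))) (u (nat_lit 2) (k (nat_lit 0x98f10))))) (t (nat_lit 2) (nat_lit 7) (nat_lit 8) (a (u (nat_lit 6) (k (nat_lit 0x99852))) (u (nat_lit 2) (k (nat_lit 0x98f10)))))) (a (v (nat_lit 1) (u (nat_lit 2) (k (nat_lit 0x131a9c)))) (a (u (nat_lit 1) (a (t (nat_lit 2) (nat_lit 4) (nat_lit 5) (k (nat_lit 0x99066))) (a (t (nat_lit 2) (nat_lit 7) (nat_lit 8) (k (nat_lit 0x99066))) (v (nat_lit 1) (k (nat_lit 0x131aa8)))))) (v (nat_lit 0) (u (nat_lit 2) (k (nat_lit 0x12f714)))))))))))))))) (u (nat_lit 0) (a (a (a (a (u (nat_lit 7) (v (nat_lit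 7) (v (nat_lit 8) (k (nat_lit 0x9b232))))) (v (nat_lit 6) (u (nat_lit 9) (v (nat_lit 9) (k (nat_lit 0x98ce8)))))) (a (u (nat_lit 6) (v (nat_lit 7) (u (nat_lit 8) (k (nat_lit 0x9e874))))) (a (v (nat_lit 5) (a (u (nat_lit 7) (v (nat_lit 9) (k (nat_lit 0x95154)))) (v (nat_lit 6) (v (nat_lit 9) (k (nat_lit 0x9839a)))))) (u (nat_lit 5) (v (nat_lit 5) (v (nat_lit 7) (k (nat_lit 0x96942)))))))) (a (a (t (nat_lit 5) (nat_lit 8) (nat_lit 9) (a (a (u (nat_lit 9) (v (nat_lit 9) (k (nat_lit 0xbd34eb4)))) (a (u (nat_lit 8) (u (nat_lit 9) (k (nat_lit 0x7e7d0e2)))) (u (nat_lit 7) (u (nat_lit 9) (k (nat_lit 0x48ca0e6)))))) (a (v (nat_lit 6) (a (u (nat_lit 8) (k (nat_lit 0x27039d8))) (u (nat_lit 7) (k (nat_lit 0x48601e0))))) (a (u (nat_lit 6) (a (u (nat_lit 9) (k (nat_lit 0x955973a))) (v (nat_lit 6) (k (nat_lit 0x9bb26))))) (u (nat_lit 5) (u (nat_lit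 9) (k (nat_lit 0x7e7d0e2)))))))) (v (nat_lit 4) (u (nat_lit 8) (v (nat_lit 8) (k (nat_lit 0x96942)))))) (a (u (nat_lit 4) (a (v (nat_lit 8) (v (nat_lit 9) (k (nat_lit 0x95154)))) (a (t (nat_lit 5) (nat_lit 8) (nat_lit 9) (u (nat_lit 9) (k (nat_lit 0x48ca0e6)))) (v (nat_lit 4) (v (nat_lit 5) (k (nat_lit 0x9b232))))))) (a (t (nat_lit 4) (nat_lit 7) (nat_lit 9) (a (u (nat_lit 7) (u (nat_lit 9) (k (nat_lit 0x9fada)))) (u (nat_lit 4) (u (nat_lit 9) (k (nat_lit 0x9fada)))))) (v (nat_lit 3) (a (a (a (u (nat_lit 9) (v (nat_lit 9) (k (nat_lit 0x98ce8)))) (v (nat_lit 8) (v (nat_lit 9) (k (nat_lit 0x9839a))))) (a (v (nat_lit 6) (a (a (v (nat_lit 8) (k (nat_lit 0x9a008))) (u (nat_lit 8) (k (nat_lit 0x983a0)))) (a (v (nat_lit 7) (k (nat_lit 0x98e5c))) (v (nat_lit 6) (k (nat_lit 0x98d54)))))) (v (nat_lit 5) (v (nat_lit 6) (k (nat_lit 0x9a008))))))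 (a (a (u (nat_lit 5) (v (nat_lit 6) (k (nat_lit 0x983a0)))) (t (nat_lit 5) (nat_lit 8) (nat_lit 9) (u (nat_lit 5) (k (nat_lit 0x27039d8))))) (a (v (nat_lit 4) (v (nat_lit 6) (k (nat_lit 0x98e5c)))) (a (u (nat_lit 4) (t (nat_lit 5) (nat_lit 8) (nat_lit 9) (k (nat_lit 0x48601e0)))) (v (nat_lit 3) (v (nat_lit 6) (k (nat_lit 0x98d54))))))))))))) (a (a (a (u (nat_lit 3) (a (t (nat_lit 5) (nat_lit 8) (nat_lit 9) (u (nat_lit 9) (k (nat_lit 0x955973a)))) (a (v (nat_lit 4) (u (nat_lit 5) (k (nat_lit 0x9e874)))) (v (nat_lit 3) (t (nat_lit 5) (nat_lit 8) (nat_lit 9) (k (nat_lit 0x9bb26))))))) (t (nat_lit 3) (nat_lit 6) (nat_lit 9) (a (a (u (nat_lit 6) (v (nat_lit 9) (k (nat_lit 0x16ead20e)))) (u (nat_lit 5) (u (nat_lit 7) (k (nat_lit 0x7501b18))))) (a (u (nat_lit 4) (u (nat_lit 8) (k (nat_lit 0x7501b18)))) (a (u (nat_lit 3) (v (nat_lit 9) (k (nat_lit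 0x16ead20e)))) (t (nat_lit 3) (nat_lit 6) (nat_lit 9) (a (u (nat_lit 6) (k (nat_lit 0x98fe2))) (u (nat_lit 3) (k (nat_lit 0x98fe2)))))))))) (a (v (nat_lit 2) (a (a (u (nat_lit 9) (v (nat_lit 9) (k (nat_lit 0x12ce88)))) (a (v (nat_lit 6) (v (nat_lit 8) (k (nat_lit 0x9acb0)))) (v (nat_lit 5) (u (nat_lit 6) (k (nat_lit 0x96564)))))) (a (v (nat_lit 3) (a (v (nat_lit 6) (k (nat_lit 0x131f04))) (v (nat_lit 5) (k (nat_lit 0x9acb0))))) (a (u (nat_lit 3) (v (nat_lit 8) (k (nat_lit 0x96564)))) (v (nat_lit 2) (u (nat_lit 9) (k (nat_lit 0x1319a0)))))))) (a (u (nat_lit 2) (a (a (v (nat_lit 6) (v (nat_lit 6) (k (nat_lit 0x99090)))) (v (nat_lit 3) (v (nat_lit 3) (k (nat_lit 0x99090))))) (a (t (nat_lit 3) (nat_lit 6) (nat_lit 9) (a (u (nat_lit 6) (k (nat_lit 0x3934ed8))) (u (nat_lit 3) (k (nat_lit 0x3934ed8))))) (v (nat_lit 2) (t (nat_lit 3) (nat_lit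 6) (nat_lit 9) (k (nat_lit 0x102bef98))))))) (t (nat_lit 2) (nat_lit 4) (nat_lit 5) (u (nat_lit 2) (u (nat_lit 8) (k (nat_lit 0x99d1e2)))))))) (a (a (t (nat_lit 2) (nat_lit 7) (nat_lit 8) (u (nat_lit 2) (u (nat_lit 5) (k (nat_lit 0x99d1e2))))) (v (nat_lit 1) (a (a (a (v (nat_lit 9) (v (nat_lit 9) (k (nat_lit 0x131940)))) (v (nat_lit 7) (a (v (nat_lit 9) (k (nat_lit 0x98d12))) (a (v (nat_lit 8) (k (nat_lit 0x98f34))) (v (nat_lit 7) (k (nat_lit 0x988e0))))))) (a (v (nat_lit 6) (a (v (nat_lit 9) (k (nat_lit 0x98f7c))) (v (nat_lit 6) (k (nat_lit 0x991ec))))) (a (v (nat_lit 5) (a (v (nat_lit 7) (k (nat_lit 0x98fd6))) (v (nat_lit 6) (k (nat_lit 0x99114))))) (v (nat_lit 4) (a (a (v (nat_lit 9) (k (nat_lit 0x98d12))) (v (nat_lit 8) (k (nat_lit 0x98fd6)))) (a (v (nat_lit 7) (k (nat_lit 0x131a48))) (a (v (nat_lit 5) (k (nat_lit 0x98f34))) (v (nat_lit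 4) (k (nat_lit 0x988e0)))))))))) (a (a (v (nat_lit 3) (a (a (v (nat_lit 9) (k (nat_lit 0x98f7c))) (v (nat_lit 8) (k (nat_lit 0x99114)))) (a (v (nat_lit 6) (k (nat_lit 0x131ee0))) (v (nat_lit 3) (k (nat_lit 0x991ec)))))) (t (nat_lit 3) (nat_lit 6) (nat_lit 9) (t (nat_lit 3) (nat_lit 6) (nat_lit 9) (k (nat_lit 0x131cf4))))) (a (v (nat_lit 2) (a (a (v (nat_lit 9) (k (nat_lit 0x131b14))) (v (nat_lit 8) (k (nat_lit 0x994f8)))) (a (v (nat_lit 5) (k (nat_lit 0x994f8))) (v (nat_lit 2) (k (nat_lit 0x130e6c)))))) (a (u (nat_lit 2) (t (nat_lit 5) (nat_lit 8) (nat_lit 9) (k (nat_lit 0x35733c)))) (v (nat_lit 1) (a (t (nat_lit 2) (nat_lit 4) (nat_lit 5) (k (nat_lit 0x99066))) (t (nat_lit 2) (nat_lit 7) (nat_lit 8) (k (nat_lit 0x99066))))))))))) (a (u (nat_lit 1) (a (t (nat_lit 5) (nat_lit 8) (nat_lit 9) (u (nat_lit 9) (k (nat_lit 0x132654)))) (a (t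 (nat_lit 4) (nat_lit 7) (nat_lit 9) (u (nat_lit 9) (k (nat_lit 0x132654)))) (t (nat_lit 3) (nat_lit 6) (nat_lit 9) (a (u (nat_lit 6) (k (nat_lit 0x13b684))) (u (nat_lit 3) (k (nat_lit 0x13b684)))))))) (a (v (nat_lit 0) (a (a (a (v (nat_lit 8) (v (nat_lit 9) (k (nat_lit 0x98ce8)))) (a (v (nat_lit 7) (v (nat_lit 9) (k (nat_lit 0x98ffa)))) (v (nat_lit 6) (a (a (v (nat_lit 9) (k (nat_lit 0x990d2))) (v (nat_lit 8) (k (nat_lit 0x9bf2e)))) (a (v (nat_lit 7) (k (nat_lit 0x9799e))) (v (nat_lit 6) (k (nat_lit 0x13f1ac6)))))))) (a (v (nat_lit 5) (a (a (v (nat_lit 9) (k (nat_lit 0x98ce8))) (v (nat_lit 8) (k (nat_lit 0x131a84)))) (a (v (nat_lit 7) (k (nat_lit 0x9941a))) (v (nat_lit 6) (k (nat_lit 0x990d8)))))) (a (v (nat_lit 4) (a (a (v (nat_lit 9) (k (nat_lit 0x98ffa))) (v (nat_lit 8) (k (nat_lit 0x9941a)))) (a (v (nat_lit 7) (k (nat_lit 0x1326d8)))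 (v (nat_lit 6) (k (nat_lit 0x99582)))))) (t (nat_lit 4) (nat_lit 7) (nat_lit 9) (a (t (nat_lit 5) (nat_lit 8) (nat_lit 9) (k (nat_lit 0x131ce8))) (t (nat_lit 4) (nat_lit 7) (nat_lit 9) (k (nat_lit 0x13212c)))))))) (a (a (v (nat_lit 3) (a (a (v (nat_lit 9) (k (nat_lit 0x990d2))) (a (v (nat_lit 8) (k (nat_lit 0x990d8))) (v (nat_lit 7) (k (nat_lit 0x99582))))) (a (a (v (nat_lit 6) (k (nat_lit 0x13203c))) (v (nat_lit 5) (k (nat_lit 0x9bf2e)))) (a (v (nat_lit 4) (k (nat_lit 0x9799e))) (v (nat_lit 3) (k (nat_lit 0x13f1ac6))))))) (a (t (nat_lit 3) (nat_lit 6) (nat_lit 9) (a (a (u (nat_lit 9) (k (nat_lit 0x1345a4))) (v (nat_lit 7) (k (nat_lit 0x9af9e)))) (a (v (nat_lit 4) (k (nat_lit 0x9af9e))) (t (nat_lit 4) (nat_lit 7) (nat_lit 9) (k (nat_lit 0x13be4c)))))) (v (nat_lit 2) (a (a (a (v (nat_lit 9) (k (nat_lit 0x1321bc))) (v (nat_lit 8) (k (nat_lit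 0x983a6)))) (a (v (nat_lit 7) (k (nat_lit 0x988f8))) (v (nat_lit 6) (k (nat_lit 0x99150))))) (a (a (v (nat_lit 5) (k (nat_lit 0x983a6))) (v (nat_lit 4) (k (nat_lit 0x988f8)))) (a (v (nat_lit 3) (k (nat_lit 0x99150))) (v (nat_lit 2) (k (nat_lit 0x1313dc))))))))) (a (u (nat_lit 2) (a (a (u (nat_lit 9) (k (nat_lit 0x7a0bfa4))) (v (nat_lit 7) (k (nat_lit 0x99528)))) (a (v (nat_lit 4) (k (nat_lit 0x99528))) (t (nat_lit 4) (nat_lit 7) (nat_lit 9) (k (nat_lit 0x1321b0)))))) (a (v (nat_lit 1) (a (a (a (v (nat_lit 9) (k (nat_lit 0x1319d0))) (v (nat_lit 8) (k (nat_lit 0x990a2)))) (a (v (nat_lit 7) (k (nat_lit 0x99036))) (v (nat_lit 6) (k (nat_lit 0x99114))))) (a (a (v (nat_lit 5) (k (nat_lit 0x990a2))) (v (nat_lit 4) (k (nat_lit 0x99036)))) (a (v (nat_lit 3) (k (nat_lit 0x99114))) (a (v (nat_lit 2) (k (nat_lit 0x131bc8))) (v (nat_lit 1) (k (nat_lit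 0x131aa8)))))))) (v (nat_lit 0) (a (a (a (v (nat_lit 9) (k (nat_lit 0x128fac))) (u (nat_lit 9) (k (nat_lit 0x129180)))) (a (v (nat_lit 8) (k (nat_lit 0x98844))) (a (v (nat_lit 7) (k (nat_lit 0x98f28))) (v (nat_lit 6) (k (nat_lit 0x99198)))))) (a (a (v (nat_lit 5) (k (nat_lit 0x98844))) (a (v (nat_lit 4) (k (nat_lit 0x98f28))) (v (nat_lit 3) (k (nat_lit 0x99198))))) (a (v (nat_lit 2) (k (nat_lit 0x13a8c8))) (a (v (nat_lit 1) (k (nat_lit 0x131a78))) (v (nat_lit 0) (k (nat_lit 0x131a18))))))))))))) (u (nat_lit 0) (a (a (a (u (nat_lit 9) (u (nat_lit 9) (k (nat_lit 0x12cc9c)))) (t (nat_lit 4) (nat_lit 7) (nat_lit 9) (u (nat_lit 9) (k (nat_lit 0x858777c))))) (a (t (nat_lit 3) (nat_lit 6) (nat_lit 9) (a (v (nat_lit 9) (k (nat_lit 0x7ed356c))) (a (u (nat_lit 6) (k (nat_lit 0x2234ad2))) (u (nat_lit 3) (k (nat_lit 0x2234ad2)))))) (v (nat_lit 2)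 (u (nat_lit 9) (k (nat_lit 0x135a38)))))) (a (a (u (nat_lit 2) (v (nat_lit 9) (k (nat_lit 0x1279e0)))) (v (nat_lit 1) (a (u (nat_lit 7) (k (nat_lit 0x548142c))) (u (nat_lit 4) (k (nat_lit 0x548142c)))))) (a (v (nat_lit 0) (a (t (nat_lit 4) (nat_lit 7) (nat_lit 9) (k (nat_lit 0x6687144))) (u (nat_lit 2) (k (nat_lit 0x12b1cc))))) (u (nat_lit 0) (v (nat_lit 0) (k (nat_lit 0x133f80)))))))))))))))))))

open Fl.Tr in
/-- the table -/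
noncomputable def T : Fl.Tr := (c (c (c (c (c (c (c (c (c (c (m (nat_lit 0x14f5c1e50)) (c (p (nat_lit 0xd3f73940)) (c (p (nat_lit 0x39238de8)) (c (m (nat_lit 0x35ae568)) (c (m (nat_lit 0x430eb10)) e))))) (c (c (p (nat_lit 0xa2c4dafc)) (c (m (nat_lit 0x66d56984)) (c (m (nat_lit 0x1d002ec)) (c (m (nat_lit 0x5a2f0f4)) e)))) (c (c (m (nat_lit 0x27f0c90)) (c (m (nat_lit 0x4afcf04)) (c (p (nat_lit 0x2606ac0)) e))) (c (c (p (nat_lit 0x29b8438)) (c (m (nat_lit 0x447f84)) e)) (c (c (m (nat_lit 0x98e8c)) e) e))))) (c (c (c (p (nat_lit 0xa2c4dafc)) (c (m (nat_lit 0x66d56984)) (c (m (nat_lit 0x1d002ec)) (c (m (nat_lit 0x5a2f0f4)) e)))) (c (c (p (nat_lit 0x6e98110)) (c (p (nat_lit 0x1d6a4b24)) (c (m (nat_lit 0xa733124)) e))) (c (c (m (nat_lit 0xfe7cbc4)) (c (m (nat_lit 0x11a2568)) e)) (c (c (m (nat_lit 0x4e1158)) e) e)))) (c (c (c (m (nat_lit 0x27f0c90))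 (c (m (nat_lit 0x4afcf04)) (c (p (nat_lit 0x2606ac0)) e))) (c (c (m (nat_lit 0xfe7cbc4)) (c (m (nat_lit 0x11a2568)) e)) (c (c (m (nat_lit 0x890a3c)) e) e))) (c (c (c (p (nat_lit 0x29b8438)) (c (m (nat_lit 0x447f84)) e)) (c (c (m (nat_lit 0x4e1158)) e) e)) (c (c (c (m (nat_lit 0x98e8c)) e) e) e))))) (c (c (c (c (p (nat_lit 0x10ce25098)) (c (p (nat_lit 0x4a3b83b4)) (c (m (nat_lit 0x24dcad78)) (c (m (nat_lit 0x9901f8)) e)))) (c (c (m (nat_lit 0x64f12b9c)) (c (p (nat_lit 0x21fce4d8)) (c (m (nat_lit 0x42dd28)) e))) (c (c (m (nat_lit 0x2e1e794)) (c (p (nat_lit 0x27518e8)) e)) (c (c (m (nat_lit 0x131f64)) e) e)))) (c (c (c (m (nat_lit 0x64f12b9c)) (c (p (nat_lit 0x21fce4d8)) (c (m (nat_lit 0x42dd28)) e))) (c (c (p (nat_lit 0xd4f0460)) (c (m (nat_lit 0x1c92078)) e)) (c (c (m (nat_lit 0x132060)) e) e))) (c (c (c (m (nat_lit 0x2e1e794)) (c (p (nat_lit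 0x27518e8)) e)) (c (c (m (nat_lit 0x132060)) e) e)) (c (c (c (m (nat_lit 0x131f64)) e) e) e)))) (c (c (c (c (m (nat_lit 0x633f8988)) (c (m (nat_lit 0x369f6078)) (c (m (nat_lit 0x72d374)) e))) (c (c (p (nat_lit 0x2352ecf4)) (c (m (nat_lit 0x15181ec)) e)) (c (c (m (nat_lit 0x8745f0)) e) e))) (c (c (c (p (nat_lit 0x2352ecf4)) (c (m (nat_lit 0x15181ec)) e)) (c (c (m (nat_lit 0x134da80)) e) e)) (c (c (c (m (nat_lit 0x8745f0)) e) e) e))) (c (c (c (c (p (nat_lit 0xd2c06c)) (c (m (nat_lit 0x5fc370)) e)) (c (c (m (nat_lit 0x263c94)) e) e)) (c (c (c (m (nat_lit 0x263c94)) e) e) e)) (c (c (c (c (m (nat_lit 0x4c9968)) e) e) e) e))))) (c (c (c (c (c (p (nat_lit 0xa2c4dafc)) (c (m (nat_lit 0x66d56984)) (c (m (nat_lit 0x1d002ec)) (c (m (nat_lit 0x5a2f0f4)) e)))) (c (c (m (nat_lit 0x30296148)) (c (m (nat_lit 0x1afac30)) (c (p (nat_lit 0xaea7160)) e)))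 (c (c (p (nat_lit 0x3f3693c)) (c (p (nat_lit 0x547f29c)) e)) (c (c (m (nat_lit 0x120345c)) e) e)))) (c (c (c (m (nat_lit 0x50369418)) (c (p (nat_lit 0x1ed2d6c8)) (c (m (nat_lit 0x19ea758)) e))) (c (c (p (nat_lit 0xc1eacd4)) (c (p (nat_lit 0x29bab14)) e)) (c (c (m (nat_lit 0x1c5bff4)) e) e))) (c (c (c (p (nat_lit 0x257607d8)) (c (m (nat_lit 0x7cca238)) e)) (c (c (m (nat_lit 0x11409a5c)) e) e)) (c (c (c (m (nat_lit 0x15b2458)) e) e) e)))) (c (c (c (c (m (nat_lit 0x610e3cc0)) (c (p (nat_lit 0x1297af64)) (c (p (nat_lit 0x55ee388)) e))) (c (c (p (nat_lit 0x241f53f0)) (c (m (nat_lit 0xbe05b7c)) e)) (c (c (p (nat_lit 0x997b0)) e) e))) (c (c (c (p (nat_lit 0x3a213374)) (c (m (nat_lit 0x93dcf08)) e)) (c (c (m (nat_lit 0x8c6a120)) e) e)) (c (c (c (m (nat_lit 0x88d3df0)) e) e) e))) (c (c (c (c (p (nat_lit 0x214d793c)) (c (p (nat_lit 0x5388cc0))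 e)) (c (c (m (nat_lit 0xbcc8a7c)) e) e)) (c (c (c (m (nat_lit 0xb366a84)) e) e) e)) (c (c (c (c (p (nat_lit 0x4f8)) e) e) e) e)))) (c (c (c (c (c (m (nat_lit 0x27f0c90)) (c (m (nat_lit 0x4afcf04)) (c (p (nat_lit 0x2606ac0)) e))) (c (c (p (nat_lit 0x3f3693c)) (c (p (nat_lit 0x547f29c)) e)) (c (c (m (nat_lit 0x2406b88)) e) e))) (c (c (c (p (nat_lit 0x257607d8)) (c (m (nat_lit 0x7cca238)) e)) (c (c (m (nat_lit 0x6d96938)) e) e)) (c (c (c (m (nat_lit 0x1320c0)) e) e) e))) (c (c (c (c (m (nat_lit 0x10790be0)) (c (p (nat_lit 0xa175afc)) e)) (c (c (p (nat_lit 0x27322ec)) e) e)) (c (c (c (m (nat_lit 0x263d3c)) e) e) e)) (c (c (c (c (p (nat_lit 0x51c0bd0)) e) e) e) e))) (c (c (c (c (c (p (nat_lit 0x29b8438)) (c (m (nat_lit 0x447f84)) e)) (c (c (m (nat_lit 0x120345c)) e) e)) (c (c (c (m (nat_lit 0x15b2458)) e) e) e)) (c (c (c (c (p (nat_lit 0x2567388))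 e) e) e) e)) (c (c (c (c (c (m (nat_lit 0x98e8c)) e) e) e) e) e))))) (c (c (c (c (c (c (p (nat_lit 0xa2c4dafc)) (c (m (nat_lit 0x66d56984)) (c (m (nat_lit 0x1d002ec)) (c (m (nat_lit 0x5a2f0f4)) e)))) (c (c (m (nat_lit 0x50369418)) (c (p (nat_lit 0x1ed2d6c8)) (c (m (nat_lit 0x19ea758)) e))) (c (c (p (nat_lit 0x257607d8)) (c (m (nat_lit 0x7cca238)) e)) (c (c (m (nat_lit 0x15b2458)) e) e)))) (c (c (c (m (nat_lit 0x30296148)) (c (m (nat_lit 0x1afac30)) (c (p (nat_lit 0xaea7160)) e))) (c (c (p (nat_lit 0xc1eacd4)) (c (p (nat_lit 0x29bab14)) e)) (c (c (m (nat_lit 0x11409a5c)) e) e))) (c (c (c (p (nat_lit 0x3f3693c)) (c (p (nat_lit 0x547f29c)) e)) (c (c (m (nat_lit 0x1c5bff4)) e) e)) (c (c (c (m (nat_lit 0x120345c)) e) e) e)))) (c (c (c (c (m (nat_lit 0x610e3cc0)) (c (p (nat_lit 0x1297af64)) (c (p (nat_lit 0x55ee388)) e))) (c (c (p (nat_lit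 0x3a213374)) (c (m (nat_lit 0x93dcf08)) e)) (c (c (m (nat_lit 0x88d3df0)) e) e))) (c (c (c (p (nat_lit 0x241f53f0)) (c (m (nat_lit 0xbe05b7c)) e)) (c (c (m (nat_lit 0x8c6a120)) e) e)) (c (c (c (p (nat_lit 0x997b0)) e) e) e))) (c (c (c (c (p (nat_lit 0x214d793c)) (c (p (nat_lit 0x5388cc0)) e)) (c (c (m (nat_lit 0xb366a84)) e) e)) (c (c (c (m (nat_lit 0xbcc8a7c)) e) e) e)) (c (c (c (c (p (nat_lit 0x4f8)) e) e) e) e)))) (c (c (c (c (c (p (nat_lit 0x6e98110)) (c (p (nat_lit 0x1d6a4b24)) (c (m (nat_lit 0xa733124)) e))) (c (c (p (nat_lit 0xc1eacd4)) (c (p (nat_lit 0x29bab14)) e)) (c (c (m (nat_lit 0x6d96938)) e) e))) (c (c (c (p (nat_lit 0xc1eacd4)) (c (p (nat_lit 0x29bab14)) e)) (c (c (m (nat_lit 0x16e4e0c0)) e) e)) (c (c (c (m (nat_lit 0x6d96938)) e) e) e))) (c (c (c (c (p (nat_lit 0x23cb7d30)) (c (m (nat_lit 0x93d1fa0)) e)) (c (c (m (nat_lit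 0xecda26c)) e) e)) (c (c (c (m (nat_lit 0xecda26c)) e) e) e)) (c (c (c (c (m (nat_lit 0xc93a044)) e) e) e) e))) (c (c (c (c (c (m (nat_lit 0xfe7cbc4)) (c (m (nat_lit 0x11a2568)) e)) (c (c (m (nat_lit 0x1c5bff4)) e) e)) (c (c (c (m (nat_lit 0x11409a5c)) e) e) e)) (c (c (c (c (p (nat_lit 0x1147c14)) e) e) e) e)) (c (c (c (c (c (m (nat_lit 0x4e1158)) e) e) e) e) e)))) (c (c (c (c (c (c (m (nat_lit 0x27f0c90)) (c (m (nat_lit 0x4afcf04)) (c (p (nat_lit 0x2606ac0)) e))) (c (c (p (nat_lit 0x257607d8)) (c (m (nat_lit 0x7cca238)) e)) (c (c (m (nat_lit 0x1320c0)) e) e))) (c (c (c (p (nat_lit 0x3f3693c)) (c (p (nat_lit 0x547f29c)) e)) (c (c (m (nat_lit 0x6d96938)) e) e)) (c (c (c (m (nat_lit 0x2406b88)) e) e) e))) (c (c (c (c (m (nat_lit 0x10790be0)) (c (p (nat_lit 0xa175afc)) e)) (c (c (m (nat_lit 0x263d3c)) e) e)) (c (c (c (p (nat_lit 0x27322ec))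 e) e) e)) (c (c (c (c (p (nat_lit 0x51c0bd0)) e) e) e) e))) (c (c (c (c (c (m (nat_lit 0xfe7cbc4)) (c (m (nat_lit 0x11a2568)) e)) (c (c (m (nat_lit 0x11409a5c)) e) e)) (c (c (c (m (nat_lit 0x1c5bff4)) e) e) e)) (c (c (c (c (p (nat_lit 0x1147c14)) e) e) e) e)) (c (c (c (c (c (m (nat_lit 0x890a3c)) e) e) e) e) e))) (c (c (c (c (c (c (p (nat_lit 0x29b8438)) (c (m (nat_lit 0x447f84)) e)) (c (c (m (nat_lit 0x15b2458)) e) e)) (c (c (c (m (nat_lit 0x120345c)) e) e) e)) (c (c (c (c (p (nat_lit 0x2567388)) e) e) e) e)) (c (c (c (c (c (m (nat_lit 0x4e1158)) e) e) e) e) e)) (c (c (c (c (c (c (m (nat_lit 0x98e8c)) e) e) e) e) e) e))))) (c (c (c (c (c (c (c (p (nat_lit 0x10ce25098)) (c (p (nat_lit 0x4a3b83b4)) (c (m (nat_lit 0x24dcad78)) (c (m (nat_lit 0x9901f8)) e)))) (c (c (m (nat_lit 0x610e3cc0)) (c (p (nat_lit 0x1297af64)) (c (p (nat_lit 0x55ee388))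 e))) (c (c (m (nat_lit 0x10790be0)) (c (p (nat_lit 0xa175afc)) e)) (c (c (p (nat_lit 0x2567388)) e) e)))) (c (c (c (m (nat_lit 0x610e3cc0)) (c (p (nat_lit 0x1297af64)) (c (p (nat_lit 0x55ee388)) e))) (c (c (p (nat_lit 0x23cb7d30)) (c (m (nat_lit 0x93d1fa0)) e)) (c (c (p (nat_lit 0x1147c14)) e) e))) (c (c (c (m (nat_lit 0x10790be0)) (c (p (nat_lit 0xa175afc)) e)) (c (c (p (nat_lit 0x1147c14)) e) e)) (c (c (c (p (nat_lit 0x2567388)) e) e) e)))) (c (c (c (c (m (nat_lit 0xd2652170)) (c (m (nat_lit 0x416a9048)) (c (m (nat_lit 0x728a48)) e))) (c (c (p (nat_lit 0x360367b0)) (c (m (nat_lit 0x6a35ec4)) e)) (c (c (p (nat_lit 0x508edec)) e) e))) (c (c (c (p (nat_lit 0x360367b0)) (c (m (nat_lit 0x6a35ec4)) e)) (c (c (m (nat_lit 0xccce1c0)) e) e)) (c (c (c (p (nat_lit 0x508edec)) e) e) e))) (c (c (c (c (p (nat_lit 0x2fbcea20)) (c (m (nat_lit 0x2620b0))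 e)) (c (c (m (nat_lit 0xbd26dfc)) e) e)) (c (c (c (m (nat_lit 0xbd26dfc)) e) e) e)) (c (c (c (c (m (nat_lit 0x72e76c)) e) e) e) e)))) (c (c (c (c (c (m (nat_lit 0x64f12b9c)) (c (p (nat_lit 0x21fce4d8)) (c (m (nat_lit 0x42dd28)) e))) (c (c (p (nat_lit 0x241f53f0)) (c (m (nat_lit 0xbe05b7c)) e)) (c (c (p (nat_lit 0x27322ec)) e) e))) (c (c (c (p (nat_lit 0x3a213374)) (c (m (nat_lit 0x93dcf08)) e)) (c (c (m (nat_lit 0xecda26c)) e) e)) (c (c (c (m (nat_lit 0x263d3c)) e) e) e))) (c (c (c (c (p (nat_lit 0x360367b0)) (c (m (nat_lit 0x6a35ec4)) e)) (c (c (m (nat_lit 0x659d750)) e) e)) (c (c (c (m (nat_lit 0x5072c58)) e) e) e)) (c (c (c (c (m (nat_lit 0xbbf4e98)) e) e) e) e))) (c (c (c (c (c (m (nat_lit 0x2e1e794)) (c (p (nat_lit 0x27518e8)) e)) (c (c (p (nat_lit 0x997b0)) e) e)) (c (c (c (m (nat_lit 0x88d3df0)) e) e) e)) (c (c (c (c (p (nat_lit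 0x508edec)) e) e) e) e)) (c (c (c (c (c (m (nat_lit 0x131f64)) e) e) e) e) e)))) (c (c (c (c (c (c (m (nat_lit 0x64f12b9c)) (c (p (nat_lit 0x21fce4d8)) (c (m (nat_lit 0x42dd28)) e))) (c (c (p (nat_lit 0x3a213374)) (c (m (nat_lit 0x93dcf08)) e)) (c (c (m (nat_lit 0x263d3c)) e) e))) (c (c (c (p (nat_lit 0x241f53f0)) (c (m (nat_lit 0xbe05b7c)) e)) (c (c (m (nat_lit 0xecda26c)) e) e)) (c (c (c (p (nat_lit 0x27322ec)) e) e) e))) (c (c (c (c (p (nat_lit 0x360367b0)) (c (m (nat_lit 0x6a35ec4)) e)) (c (c (m (nat_lit 0x5072c58)) e) e)) (c (c (c (m (nat_lit 0x659d750)) e) e) e)) (c (c (c (c (m (nat_lit 0xbbf4e98)) e) e) e) e))) (c (c (c (c (c (p (nat_lit 0xd4f0460)) (c (m (nat_lit 0x1c92078)) e)) (c (c (m (nat_lit 0x8c6a120)) e) e)) (c (c (c (m (nat_lit 0x8c6a120)) e) e) e)) (c (c (c (c (m (nat_lit 0xccce1c0)) e) e) e) e)) (c (c (c (c (c (m (nat_lit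 0x132060)) e) e) e) e) e))) (c (c (c (c (c (c (m (nat_lit 0x2e1e794)) (c (p (nat_lit 0x27518e8)) e)) (c (c (m (nat_lit 0x88d3df0)) e) e)) (c (c (c (p (nat_lit 0x997b0)) e) e) e)) (c (c (c (c (p (nat_lit 0x508edec)) e) e) e) e)) (c (c (c (c (c (m (nat_lit 0x132060)) e) e) e) e) e)) (c (c (c (c (c (c (m (nat_lit 0x131f64)) e) e) e) e) e) e)))) (c (c (c (c (c (c (c (m (nat_lit 0x633f8988)) (c (m (nat_lit 0x369f6078)) (c (m (nat_lit 0x72d374)) e))) (c (c (p (nat_lit 0x214d793c)) (c (p (nat_lit 0x5388cc0)) e)) (c (c (p (nat_lit 0x51c0bd0)) e) e))) (c (c (c (p (nat_lit 0x214d793c)) (c (p (nat_lit 0x5388cc0)) e)) (c (c (m (nat_lit 0xc93a044)) e) e)) (c (c (c (p (nat_lit 0x51c0bd0)) e) e) e))) (c (c (c (c (p (nat_lit 0x2fbcea20)) (c (m (nat_lit 0x2620b0)) e)) (c (c (m (nat_lit 0xbbf4e98)) e) e)) (c (c (c (m (nat_lit 0xbbf4e98)) e) e) e)) (c (c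 (c (c (m (nat_lit 0x72ccf0)) e) e) e) e))) (c (c (c (c (c (p (nat_lit 0x2352ecf4)) (c (m (nat_lit 0x15181ec)) e)) (c (c (m (nat_lit 0xbcc8a7c)) e) e)) (c (c (c (m (nat_lit 0xb366a84)) e) e) e)) (c (c (c (c (m (nat_lit 0xbd26dfc)) e) e) e) e)) (c (c (c (c (c (m (nat_lit 0x8745f0)) e) e) e) e) e))) (c (c (c (c (c (c (p (nat_lit 0x2352ecf4)) (c (m (nat_lit 0x15181ec)) e)) (c (c (m (nat_lit 0xb366a84)) e) e)) (c (c (c (m (nat_lit 0xbcc8a7c)) e) e) e)) (c (c (c (c (m (nat_lit 0xbd26dfc)) e) e) e) e)) (c (c (c (c (c (m (nat_lit 0x134da80)) e) e) e) e) e)) (c (c (c (c (c (c (m (nat_lit 0x8745f0)) e) e) e) e) e) e))) (c (c (c (c (c (c (c (p (nat_lit 0xd2c06c)) (c (m (nat_lit 0x5fc370)) e)) (c (c (p (nat_lit 0x4f8)) e) e)) (c (c (c (p (nat_lit 0x4f8)) e) e) e)) (c (c (c (c (m (nat_lit 0x72e76c)) e) e) e) e)) (c (c (c (c (c (m (nat_lit 0x263c94))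 e) e) e) e) e)) (c (c (c (c (c (c (m (nat_lit 0x263c94)) e) e) e) e) e) e)) (c (c (c (c (c (c (c (m (nat_lit 0x4c9968)) e) e) e) e) e) e) e))))) (c (c (c (c (c (c (c (c (p (nat_lit 0x2adab4e8)) (c (p (nat_lit 0xb0565ab0)) (c (m (nat_lit 0x7b3dfe00)) (c (p (nat_lit 0x13b70890)) e)))) (c (c (m (nat_lit 0xe4aa514)) (c (m (nat_lit 0x2adc0968)) (c (p (nat_lit 0x98c53ec)) e))) (c (c (p (nat_lit 0x139a3304)) (c (m (nat_lit 0x164c7e4)) e)) (c (c (m (nat_lit 0x4ca3148)) e) e)))) (c (c (c (m (nat_lit 0xe4aa514)) (c (m (nat_lit 0x2adc0968)) (c (p (nat_lit 0x98c53ec)) e))) (c (c (m (nat_lit 0x2b25e1a0)) (c (p (nat_lit 0x1560ca8)) e)) (c (c (p (nat_lit 0xfbd3660)) e) e))) (c (c (c (p (nat_lit 0x139a3304)) (c (m (nat_lit 0x164c7e4)) e)) (c (c (p (nat_lit 0xfbd3660)) e) e)) (c (c (c (m (nat_lit 0x4ca3148)) e) e) e)))) (c (c (c (c (m (nat_lit 0x1b30a3b0))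 (c (p (nat_lit 0x367904b8)) (c (m (nat_lit 0x72b700)) e))) (c (c (m (nat_lit 0xeed8a34)) (c (m (nat_lit 0xbe3c3d4)) e)) (c (c (p (nat_lit 0x46098e4)) e) e))) (c (c (c (m (nat_lit 0xeed8a34)) (c (m (nat_lit 0xbe3c3d4)) e)) (c (c (p (nat_lit 0x887d900)) e) e)) (c (c (c (p (nat_lit 0x46098e4)) e) e) e))) (c (c (c (c (p (nat_lit 0x217bbcb8)) (c (m (nat_lit 0x147ef40)) e)) (c (c (m (nat_lit 0x2be639c)) e) e)) (c (c (c (m (nat_lit 0x2be639c)) e) e) e)) (c (c (c (c (m (nat_lit 0x948)) e) e) e) e)))) (c (c (c (c (c (m (nat_lit 0xe4aa514)) (c (m (nat_lit 0x2adc0968)) (c (p (nat_lit 0x98c53ec)) e))) (c (c (p (nat_lit 0x2197c3a4)) (c (m (nat_lit 0x39ea690)) e)) (c (c (m (nat_lit 0x977ab28)) e) e))) (c (c (c (p (nat_lit 0x269b1040)) (c (p (nat_lit 0x1430418)) e)) (c (c (m (nat_lit 0x7927518)) e) e)) (c (c (c (m (nat_lit 0x771d584)) e) e) e))) (c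 (c (c (c (p (nat_lit 0x22dc34d8)) (c (m (nat_lit 0xac1c850)) e)) (c (c (p (nat_lit 0x25ffc38)) e) e)) (c (c (c (m (nat_lit 0x8a9ee80)) e) e) e)) (c (c (c (c (m (nat_lit 0xae9df98)) e) e) e) e))) (c (c (c (c (c (p (nat_lit 0x139a3304)) (c (m (nat_lit 0x164c7e4)) e)) (c (c (m (nat_lit 0x977ab28)) e) e)) (c (c (c (m (nat_lit 0x771d584)) e) e) e)) (c (c (c (c (p (nat_lit 0x25fff74)) e) e) e) e)) (c (c (c (c (c (m (nat_lit 0x4ca3148)) e) e) e) e) e)))) (c (c (c (c (c (c (m (nat_lit 0xe4aa514)) (c (m (nat_lit 0x2adc0968)) (c (p (nat_lit 0x98c53ec)) e))) (c (c (p (nat_lit 0x269b1040)) (c (p (nat_lit 0x1430418)) e)) (c (c (m (nat_lit 0x771d584)) e) e))) (c (c (c (p (nat_lit 0x2197c3a4)) (c (m (nat_lit 0x39ea690)) e)) (c (c (m (nat_lit 0x7927518)) e) e)) (c (c (c (m (nat_lit 0x977ab28)) e) e) e))) (c (c (c (c (p (nat_lit 0x22dc34d8)) (c (m (nat_lit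 0xac1c850)) e)) (c (c (m (nat_lit 0x8a9ee80)) e) e)) (c (c (c (p (nat_lit 0x25ffc38)) e) e) e)) (c (c (c (c (m (nat_lit 0xae9df98)) e) e) e) e))) (c (c (c (c (c (m (nat_lit 0x2b25e1a0)) (c (p (nat_lit 0x1560ca8)) e)) (c (c (m (nat_lit 0x7927518)) e) e)) (c (c (c (m (nat_lit 0x7927518)) e) e) e)) (c (c (c (c (m (nat_lit 0x12791898)) e) e) e) e)) (c (c (c (c (c (p (nat_lit 0xfbd3660)) e) e) e) e) e))) (c (c (c (c (c (c (p (nat_lit 0x139a3304)) (c (m (nat_lit 0x164c7e4)) e)) (c (c (m (nat_lit 0x771d584)) e) e)) (c (c (c (m (nat_lit 0x977ab28)) e) e) e)) (c (c (c (c (p (nat_lit 0x25fff74)) e) e) e) e)) (c (c (c (c (c (p (nat_lit 0xfbd3660)) e) e) e) e) e)) (c (c (c (c (c (c (m (nat_lit 0x4ca3148)) e) e) e) e) e) e)))) (c (c (c (c (c (c (c (m (nat_lit 0x1b30a3b0)) (c (p (nat_lit 0x367904b8)) (c (m (nat_lit 0x72b700)) e))) (c (c (p (nat_lit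 0x22dc34d8)) (c (m (nat_lit 0xac1c850)) e)) (c (c (p (nat_lit 0x25fff74)) e) e))) (c (c (c (p (nat_lit 0x22dc34d8)) (c (m (nat_lit 0xac1c850)) e)) (c (c (m (nat_lit 0x12791898)) e) e)) (c (c (c (p (nat_lit 0x25fff74)) e) e) e))) (c (c (c (c (p (nat_lit 0x21849af8)) (c (m (nat_lit 0xe55db0)) e)) (c (c (m (nat_lit 0x49e05a0)) e) e)) (c (c (c (m (nat_lit 0x49e05a0)) e) e) e)) (c (c (c (c (m (nat_lit 0x264168)) e) e) e) e))) (c (c (c (c (c (m (nat_lit 0xeed8a34)) (c (m (nat_lit 0xbe3c3d4)) e)) (c (c (p (nat_lit 0x25ffc38)) e) e)) (c (c (c (m (nat_lit 0x8a9ee80)) e) e) e)) (c (c (c (c (m (nat_lit 0x49e05a0)) e) e) e) e)) (c (c (c (c (c (p (nat_lit 0x46098e4)) e) e) e) e) e))) (c (c (c (c (c (c (m (nat_lit 0xeed8a34)) (c (m (nat_lit 0xbe3c3d4)) e)) (c (c (m (nat_lit 0x8a9ee80)) e) e)) (c (c (c (p (nat_lit 0x25ffc38)) e) e) e)) (c (c (c (c (m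 (nat_lit 0x49e05a0)) e) e) e) e)) (c (c (c (c (c (p (nat_lit 0x887d900)) e) e) e) e) e)) (c (c (c (c (c (c (p (nat_lit 0x46098e4)) e) e) e) e) e) e))) (c (c (c (c (c (c (c (p (nat_lit 0x217bbcb8)) (c (m (nat_lit 0x147ef40)) e)) (c (c (m (nat_lit 0xae9df98)) e) e)) (c (c (c (m (nat_lit 0xae9df98)) e) e) e)) (c (c (c (c (m (nat_lit 0x264168)) e) e) e) e)) (c (c (c (c (c (m (nat_lit 0x2be639c)) e) e) e) e) e)) (c (c (c (c (c (c (m (nat_lit 0x2be639c)) e) e) e) e) e) e)) (c (c (c (c (c (c (c (m (nat_lit 0x948)) e) e) e) e) e) e) e)))) (c (c (c (c (c (c (c (c (p (nat_lit 0x25115b50)) (c (m (nat_lit 0x8fd0c930)) (c (p (nat_lit 0x40bcde00)) e))) (c (c (m (nat_lit 0x13a37504)) (c (p (nat_lit 0x1f9dc478)) e)) (c (c (m (nat_lit 0xacd9184)) e) e))) (c (c (c (m (nat_lit 0x13a37504)) (c (p (nat_lit 0x1f9dc478)) e)) (c (c (p (nat_lit 0x14d5de28)) e)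 e)) (c (c (c (m (nat_lit 0xacd9184)) e) e) e))) (c (c (c (c (m (nat_lit 0x38be7098)) (c (m (nat_lit 0x7f1edb8)) e)) (c (c (p (nat_lit 0xc4a56b0)) e) e)) (c (c (c (p (nat_lit 0xc4a56b0)) e) e) e)) (c (c (c (c (m (nat_lit 0x4c7310)) e) e) e) e))) (c (c (c (c (c (m (nat_lit 0x13a37504)) (c (p (nat_lit 0x1f9dc478)) e)) (c (c (m (nat_lit 0x2676b04)) e) e)) (c (c (c (m (nat_lit 0x131cd0)) e) e) e)) (c (c (c (c (m (nat_lit 0x1ca8c8)) e) e) e) e)) (c (c (c (c (c (m (nat_lit 0xacd9184)) e) e) e) e) e))) (c (c (c (c (c (c (m (nat_lit 0x13a37504)) (c (p (nat_lit 0x1f9dc478)) e)) (c (c (m (nat_lit 0x131cd0)) e) e)) (c (c (c (m (nat_lit 0x2676b04)) e) e) e)) (c (c (c (c (m (nat_lit 0x1ca8c8)) e) e) e) e)) (c (c (c (c (c (p (nat_lit 0x14d5de28)) e) e) e) e) e)) (c (c (c (c (c (c (m (nat_lit 0xacd9184)) e) e) e) e) e) e))) (c (c (c (c (c (c (c (m (nat_lit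 0x38be7098)) (c (m (nat_lit 0x7f1edb8)) e)) (c (c (m (nat_lit 0x1ca8c8)) e) e)) (c (c (c (m (nat_lit 0x1ca8c8)) e) e) e)) (c (c (c (c (m (nat_lit 0x98ebd8)) e) e) e) e)) (c (c (c (c (c (p (nat_lit 0xc4a56b0)) e) e) e) e) e)) (c (c (c (c (c (c (p (nat_lit 0xc4a56b0)) e) e) e) e) e) e)) (c (c (c (c (c (c (c (m (nat_lit 0x4c7310)) e) e) e) e) e) e) e))) (c (c (c (c (c (c (c (c (p (nat_lit 0x4bb7a8)) (c (p (nat_lit 0x2657a0)) e)) (c (c (m (nat_lit 0x96174)) e) e)) (c (c (c (m (nat_lit 0x96174)) e) e) e)) (c (c (c (c (p (nat_lit 0x7c38678)) e) e) e) e)) (c (c (c (c (c (m (nat_lit 0x96174)) e) e) e) e) e)) (c (c (c (c (c (c (m (nat_lit 0x96174)) e) e) e) e) e) e)) (c (c (c (c (c (c (c (p (nat_lit 0x7c38678)) e) e) e) e) e) e) e)) (c (c (c (c (c (c (c (c (m (nat_lit 0x4c71f0)) e) e) e) e) e) e) e) e))))) (c (c (c (c (c (c (c (c (c (p (nat_lit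 0x8d2be2b8)) (c (m (nat_lit 0x79f55250)) (c (m (nat_lit 0xf5df060)) (c (p (nat_lit 0xbc03148)) e)))) (c (c (m (nat_lit 0x40989468)) (c (p (nat_lit 0x4b5c4eac)) (c (m (nat_lit 0x9367194)) e))) (c (c (p (nat_lit 0x5478a68)) (c (m (nat_lit 0x4887858)) e)) (c (c (m (nat_lit 0x98f34)) e) e)))) (c (c (c (m (nat_lit 0x677c0c64)) (c (p (nat_lit 0x520f7b44)) (c (m (nat_lit 0xb45448)) e))) (c (c (p (nat_lit 0x16d9db58)) (c (m (nat_lit 0x92c75dc)) e)) (c (c (m (nat_lit 0x2cd0)) e) e))) (c (c (c (p (nat_lit 0xe210658)) (c (m (nat_lit 0x7f15c50)) e)) (c (c (m (nat_lit 0x98ec8)) e) e)) (c (c (c (m (nat_lit 0x98f40)) e) e) e)))) (c (c (c (c (m (nat_lit 0x2e1fb4dc)) (c (m (nat_lit 0x3d0ebe20)) (c (p (nat_lit 0xd9536b4)) e))) (c (c (p (nat_lit 0x4ee57a0)) (c (p (nat_lit 0x357b3f4)) e)) (c (c (p (nat_lit 0x17c880)) e) e))) (c (c (c (p (nat_lit 0xc13b6f0))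 (c (m (nat_lit 0xabb88e4)) e)) (c (c (p (nat_lit 0x45fc540)) e) e)) (c (c (c (p (nat_lit 0x25d1df8)) e) e) e))) (c (c (c (c (p (nat_lit 0xda826e4)) (c (p (nat_lit 0x16fe1efc)) e)) (c (c (m (nat_lit 0x11b2de0)) e) e)) (c (c (c (m (nat_lit 0x3c2eb60)) e) e) e)) (c (c (c (c (p (nat_lit 0x174)) e) e) e) e)))) (c (c (c (c (c (m (nat_lit 0x40989468)) (c (p (nat_lit 0x4b5c4eac)) (c (m (nat_lit 0x9367194)) e))) (c (c (p (nat_lit 0x243658e0)) (c (m (nat_lit 0x1ef698d0)) e)) (c (c (m (nat_lit 0x98fa0)) e) e))) (c (c (c (p (nat_lit 0x342fe454)) (c (m (nat_lit 0x206c1108)) e)) (c (c (m (nat_lit 0xceea34c)) e) e)) (c (c (c (m (nat_lit 0x6263910)) e) e) e))) (c (c (c (c (p (nat_lit 0x89296f8)) (c (m (nat_lit 0x1cb000)) e)) (c (c (m (nat_lit 0x98f4c)) e) e)) (c (c (c (m (nat_lit 0x76358d0)) e) e) e)) (c (c (c (c (m (nat_lit 0x98e50)) e) e) e) e))) (c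 (c (c (c (c (p (nat_lit 0x5478a68)) (c (m (nat_lit 0x4887858)) e)) (c (c (m (nat_lit 0x98fa0)) e) e)) (c (c (c (m (nat_lit 0xa22ec8)) e) e) e)) (c (c (c (c (p (nat_lit 0x17c640)) e) e) e) e)) (c (c (c (c (c (m (nat_lit 0x98f34)) e) e) e) e) e)))) (c (c (c (c (c (c (m (nat_lit 0x677c0c64)) (c (p (nat_lit 0x520f7b44)) (c (m (nat_lit 0xb45448)) e))) (c (c (p (nat_lit 0x342fe454)) (c (m (nat_lit 0x206c1108)) e)) (c (c (m (nat_lit 0xa22ec8)) e) e))) (c (c (c (p (nat_lit 0x2bac5cec)) (c (m (nat_lit 0x1a3113e0)) e)) (c (c (m (nat_lit 0x8f4c018)) e) e)) (c (c (c (m (nat_lit 0x98c28)) e) e) e))) (c (c (c (c (p (nat_lit 0xaf0ad3c)) (c (m (nat_lit 0x97bd32c)) e)) (c (c (m (nat_lit 0x2dd3b24)) e) e)) (c (c (c (p (nat_lit 0x2704e24)) e) e) e)) (c (c (c (c (p (nat_lit 0x306c)) e) e) e) e))) (c (c (c (c (c (p (nat_lit 0x16d9db58)) (c (m (nat_lit 0x92c75dc))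 e)) (c (c (m (nat_lit 0xceea34c)) e) e)) (c (c (c (m (nat_lit 0x8f4c018)) e) e) e)) (c (c (c (c (m (nat_lit 0x1cb90c)) e) e) e) e)) (c (c (c (c (c (m (nat_lit 0x2cd0)) e) e) e) e) e))) (c (c (c (c (c (c (p (nat_lit 0xe210658)) (c (m (nat_lit 0x7f15c50)) e)) (c (c (m (nat_lit 0x6263910)) e) e)) (c (c (c (m (nat_lit 0x98c28)) e) e) e)) (c (c (c (c (m (nat_lit 0x98ff4)) e) e) e) e)) (c (c (c (c (c (m (nat_lit 0x98ec8)) e) e) e) e) e)) (c (c (c (c (c (c (m (nat_lit 0x98f40)) e) e) e) e) e) e)))) (c (c (c (c (c (c (c (m (nat_lit 0x2e1fb4dc)) (c (m (nat_lit 0x3d0ebe20)) (c (p (nat_lit 0xd9536b4)) e))) (c (c (p (nat_lit 0x89296f8)) (c (m (nat_lit 0x1cb000)) e)) (c (c (p (nat_lit 0x17c640)) e) e))) (c (c (c (p (nat_lit 0xaf0ad3c)) (c (m (nat_lit 0x97bd32c)) e)) (c (c (m (nat_lit 0x1cb90c)) e) e)) (c (c (c (m (nat_lit 0x98ff4)) e) e) e))) (c (c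 (c (c (p (nat_lit 0x17614c74)) (c (p (nat_lit 0x2dfbe578)) e)) (c (c (m (nat_lit 0x11b2d8c)) e) e)) (c (c (c (m (nat_lit 0x3d6326c)) e) e) e)) (c (c (c (c (p (nat_lit 0x1cb1e0)) e) e) e) e))) (c (c (c (c (c (p (nat_lit 0x4ee57a0)) (c (p (nat_lit 0x357b3f4)) e)) (c (c (m (nat_lit 0x98f4c)) e) e)) (c (c (c (m (nat_lit 0x2dd3b24)) e) e) e)) (c (c (c (c (m (nat_lit 0x11b2d8c)) e) e) e) e)) (c (c (c (c (c (p (nat_lit 0x17c880)) e) e) e) e) e))) (c (c (c (c (c (c (p (nat_lit 0xc13b6f0)) (c (m (nat_lit 0xabb88e4)) e)) (c (c (m (nat_lit 0x76358d0)) e) e)) (c (c (c (p (nat_lit 0x2704e24)) e) e) e)) (c (c (c (c (m (nat_lit 0x3d6326c)) e) e) e) e)) (c (c (c (c (c (p (nat_lit 0x45fc540)) e) e) e) e) e)) (c (c (c (c (c (c (p (nat_lit 0x25d1df8)) e) e) e) e) e) e))) (c (c (c (c (c (c (c (p (nat_lit 0xda826e4)) (c (p (nat_lit 0x16fe1efc)) e)) (c (c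 (m (nat_lit 0x98e50)) e) e)) (c (c (c (p (nat_lit 0x306c)) e) e) e)) (c (c (c (c (p (nat_lit 0x1cb1e0)) e) e) e) e)) (c (c (c (c (c (m (nat_lit 0x11b2de0)) e) e) e) e) e)) (c (c (c (c (c (c (m (nat_lit 0x3c2eb60)) e) e) e) e) e) e)) (c (c (c (c (c (c (c (p (nat_lit 0x174)) e) e) e) e) e) e) e)))) (c (c (c (c (c (c (c (c (m (nat_lit 0x36f465c0)) (c (p (nat_lit 0x330d13d0)) (c (m (nat_lit 0x93fa488)) e))) (c (c (p (nat_lit 0x21762840)) (c (m (nat_lit 0x188ca330)) e)) (c (c (m (nat_lit 0x994d4)) e) e))) (c (c (c (p (nat_lit 0x1f238fd0)) (c (m (nat_lit 0x9d284a8)) e)) (c (c (m (nat_lit 0x6bec434)) e) e)) (c (c (c (p (nat_lit 0x147c)) e) e) e))) (c (c (c (c (m (nat_lit 0x22075f8)) (c (m (nat_lit 0x4ae7ca0)) e)) (c (c (m (nat_lit 0x98e50)) e) e)) (c (c (c (m (nat_lit 0x131c4c)) e) e) e)) (c (c (c (c (m (nat_lit 0x570948c)) e) e) e) e))) (c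 (c (c (c (c (p (nat_lit 0x21762840)) (c (m (nat_lit 0x188ca330)) e)) (c (c (m (nat_lit 0x3c1eab0)) e) e)) (c (c (c (m (nat_lit 0xb119920)) e) e) e)) (c (c (c (c (m (nat_lit 0x990e4)) e) e) e) e)) (c (c (c (c (c (m (nat_lit 0x994d4)) e) e) e) e) e))) (c (c (c (c (c (c (p (nat_lit 0x1f238fd0)) (c (m (nat_lit 0x9d284a8)) e)) (c (c (m (nat_lit 0xb119920)) e) e)) (c (c (c (m (nat_lit 0x4f585a4)) e) e) e)) (c (c (c (c (m (nat_lit 0x60c)) e) e) e) e)) (c (c (c (c (c (m (nat_lit 0x6bec434)) e) e) e) e) e)) (c (c (c (c (c (c (p (nat_lit 0x147c)) e) e) e) e) e) e))) (c (c (c (c (c (c (c (m (nat_lit 0x22075f8)) (c (m (nat_lit 0x4ae7ca0)) e)) (c (c (m (nat_lit 0x990e4)) e) e)) (c (c (c (m (nat_lit 0x60c)) e) e) e)) (c (c (c (c (m (nat_lit 0x97015d4)) e) e) e) e)) (c (c (c (c (c (m (nat_lit 0x98e50)) e) e) e) e) e)) (c (c (c (c (c (c (m (nat_lit 0x131c4c))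 e) e) e) e) e) e)) (c (c (c (c (c (c (c (m (nat_lit 0x570948c)) e) e) e) e) e) e) e))) (c (c (c (c (c (c (c (c (p (nat_lit 0x5443440)) (c (p (nat_lit 0x70eb5c8)) e)) (c (c (m (nat_lit 0x3b8584c)) e) e)) (c (c (c (m (nat_lit 0x4356b04)) e) e) e)) (c (c (c (c (p (nat_lit 0x10225fb0)) e) e) e) e)) (c (c (c (c (c (m (nat_lit 0x3b8584c)) e) e) e) e) e)) (c (c (c (c (c (c (m (nat_lit 0x4356b04)) e) e) e) e) e) e)) (c (c (c (c (c (c (c (p (nat_lit 0x10225fb0)) e) e) e) e) e) e) e)) (c (c (c (c (c (c (c (c (m (nat_lit 0x3c1e4b0)) e) e) e) e) e) e) e) e)))) (c (c (c (c (c (c (c (c (c (m (nat_lit 0x480ed864)) (c (p (nat_lit 0x4840be10)) (c (m (nat_lit 0x91f9f8)) e))) (c (c (p (nat_lit 0x352374a8)) (c (m (nat_lit 0x19b1ff80)) e)) (c (c (m (nat_lit 0x1115da5c)) e) e))) (c (c (c (p (nat_lit 0x2749cb60)) (c (m (nat_lit 0xf2682f0)) e)) (c (c (m (nat_lit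 0x33656ac)) e) e)) (c (c (c (m (nat_lit 0xbf9bc08)) e) e) e))) (c (c (c (c (p (nat_lit 0x6c06720)) (c (p (nat_lit 0x5b65258)) e)) (c (c (m (nat_lit 0x43b468)) e) e)) (c (c (c (m (nat_lit 0x264c30)) e) e) e)) (c (c (c (c (m (nat_lit 0x3758274)) e) e) e) e))) (c (c (c (c (c (p (nat_lit 0x352374a8)) (c (m (nat_lit 0x19b1ff80)) e)) (c (c (m (nat_lit 0x222bbef0)) e) e)) (c (c (c (m (nat_lit 0x3365cd0)) e) e) e)) (c (c (c (c (m (nat_lit 0x27036c)) e) e) e) e)) (c (c (c (c (c (m (nat_lit 0x1115da5c)) e) e) e) e) e))) (c (c (c (c (c (c (p (nat_lit 0x2749cb60)) (c (m (nat_lit 0xf2682f0)) e)) (c (c (m (nat_lit 0x3365cd0)) e) e)) (c (c (c (m (nat_lit 0x17f37528)) e) e) e)) (c (c (c (c (m (nat_lit 0x990d8)) e) e) e) e)) (c (c (c (c (c (m (nat_lit 0x33656ac)) e) e) e) e) e)) (c (c (c (c (c (c (m (nat_lit 0xbf9bc08)) e) e) e) e) e) e))) (c (c (c (c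 (c (c (c (p (nat_lit 0x6c06720)) (c (p (nat_lit 0x5b65258)) e)) (c (c (m (nat_lit 0x27036c)) e) e)) (c (c (c (m (nat_lit 0x990d8)) e) e) e)) (c (c (c (c (m (nat_lit 0x46cd370)) e) e) e) e)) (c (c (c (c (c (m (nat_lit 0x43b468)) e) e) e) e) e)) (c (c (c (c (c (c (m (nat_lit 0x264c30)) e) e) e) e) e) e)) (c (c (c (c (c (c (c (m (nat_lit 0x3758274)) e) e) e) e) e) e) e))) (c (c (c (c (c (c (c (c (p (nat_lit 0x839b3ec)) (c (m (nat_lit 0x7da0798)) e)) (c (c (p (nat_lit 0xa68)) e) e)) (c (c (c (m (nat_lit 0x1cab38)) e) e) e)) (c (c (c (c (m (nat_lit 0x1cb708)) e) e) e) e)) (c (c (c (c (c (p (nat_lit 0xa68)) e) e) e) e) e)) (c (c (c (c (c (c (m (nat_lit 0x1cab38)) e) e) e) e) e) e)) (c (c (c (c (c (c (c (m (nat_lit 0x1cb708)) e) e) e) e) e) e) e)) (c (c (c (c (c (c (c (c (m (nat_lit 0x3953ac)) e) e) e) e) e) e) e) e))) (c (c (c (c (c (c (c (c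 (c (m (nat_lit 0x608814c)) (c (p (nat_lit 0x6687318)) e)) (c (c (p (nat_lit 0x65ee21c)) e) e)) (c (c (c (m (nat_lit 0x98844)) e) e) e)) (c (c (c (c (m (nat_lit 0x99198)) e) e) e) e)) (c (c (c (c (c (p (nat_lit 0x65ee21c)) e) e) e) e) e)) (c (c (c (c (c (c (m (nat_lit 0x98844)) e) e) e) e) e) e)) (c (c (c (c (c (c (c (m (nat_lit 0x99198)) e) e) e) e) e) e) e)) (c (c (c (c (c (c (c (c (m (nat_lit 0x3951a8)) e) e) e) e) e) e) e) e)) (c (c (c (c (c (c (c (c (c (m (nat_lit 0x265998)) e) e) e) e) e) e) e) e) e))))) (c (c (c (c (c (c (c (c (c (c (p (nat_lit 0x8d2be2b8)) (c (m (nat_lit 0x79f55250)) (c (m (nat_lit 0xf5df060)) (c (p (nat_lit 0xbc03148)) e)))) (c (c (m (nat_lit 0x677c0c64)) (c (p (nat_lit 0x520f7b44)) (c (m (nat_lit 0xb45448)) e))) (c (c (p (nat_lit 0xe210658)) (c (m (nat_lit 0x7f15c50)) e)) (c (c (m (nat_lit 0x98f40)) e) e))))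 (c (c (c (m (nat_lit 0x40989468)) (c (p (nat_lit 0x4b5c4eac)) (c (m (nat_lit 0x9367194)) e))) (c (c (p (nat_lit 0x16d9db58)) (c (m (nat_lit 0x92c75dc)) e)) (c (c (m (nat_lit 0x98ec8)) e) e))) (c (c (c (p (nat_lit 0x5478a68)) (c (m (nat_lit 0x4887858)) e)) (c (c (m (nat_lit 0x2cd0)) e) e)) (c (c (c (m (nat_lit 0x98f34)) e) e) e)))) (c (c (c (c (m (nat_lit 0x2e1fb4dc)) (c (m (nat_lit 0x3d0ebe20)) (c (p (nat_lit 0xd9536b4)) e))) (c (c (p (nat_lit 0xc13b6f0)) (c (m (nat_lit 0xabb88e4)) e)) (c (c (p (nat_lit 0x25d1df8)) e) e))) (c (c (c (p (nat_lit 0x4ee57a0)) (c (p (nat_lit 0x357b3f4)) e)) (c (c (p (nat_lit 0x45fc540)) e) e)) (c (c (c (p (nat_lit 0x17c880)) e) e) e))) (c (c (c (c (p (nat_lit 0xda826e4)) (c (p (nat_lit 0x16fe1efc)) e)) (c (c (m (nat_lit 0x3c2eb60)) e) e)) (c (c (c (m (nat_lit 0x11b2de0)) e) e) e)) (c (c (c (c (p (nat_lit 0x174))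 e) e) e) e)))) (c (c (c (c (c (m (nat_lit 0x677c0c64)) (c (p (nat_lit 0x520f7b44)) (c (m (nat_lit 0xb45448)) e))) (c (c (p (nat_lit 0x2bac5cec)) (c (m (nat_lit 0x1a3113e0)) e)) (c (c (m (nat_lit 0x98c28)) e) e))) (c (c (c (p (nat_lit 0x342fe454)) (c (m (nat_lit 0x206c1108)) e)) (c (c (m (nat_lit 0x8f4c018)) e) e)) (c (c (c (m (nat_lit 0xa22ec8)) e) e) e))) (c (c (c (c (p (nat_lit 0xaf0ad3c)) (c (m (nat_lit 0x97bd32c)) e)) (c (c (p (nat_lit 0x2704e24)) e) e)) (c (c (c (m (nat_lit 0x2dd3b24)) e) e) e)) (c (c (c (c (p (nat_lit 0x306c)) e) e) e) e))) (c (c (c (c (c (p (nat_lit 0xe210658)) (c (m (nat_lit 0x7f15c50)) e)) (c (c (m (nat_lit 0x98c28)) e) e)) (c (c (c (m (nat_lit 0x6263910)) e) e) e)) (c (c (c (c (m (nat_lit 0x98ff4)) e) e) e) e)) (c (c (c (c (c (m (nat_lit 0x98f40)) e) e) e) e) e)))) (c (c (c (c (c (c (m (nat_lit 0x40989468))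 (c (p (nat_lit 0x4b5c4eac)) (c (m (nat_lit 0x9367194)) e))) (c (c (p (nat_lit 0x342fe454)) (c (m (nat_lit 0x206c1108)) e)) (c (c (m (nat_lit 0x6263910)) e) e))) (c (c (c (p (nat_lit 0x243658e0)) (c (m (nat_lit 0x1ef698d0)) e)) (c (c (m (nat_lit 0xceea34c)) e) e)) (c (c (c (m (nat_lit 0x98fa0)) e) e) e))) (c (c (c (c (p (nat_lit 0x89296f8)) (c (m (nat_lit 0x1cb000)) e)) (c (c (m (nat_lit 0x76358d0)) e) e)) (c (c (c (m (nat_lit 0x98f4c)) e) e) e)) (c (c (c (c (m (nat_lit 0x98e50)) e) e) e) e))) (c (c (c (c (c (p (nat_lit 0x16d9db58)) (c (m (nat_lit 0x92c75dc)) e)) (c (c (m (nat_lit 0x8f4c018)) e) e)) (c (c (c (m (nat_lit 0xceea34c)) e) e) e)) (c (c (c (c (m (nat_lit 0x1cb90c)) e) e) e) e)) (c (c (c (c (c (m (nat_lit 0x98ec8)) e) e) e) e) e))) (c (c (c (c (c (c (p (nat_lit 0x5478a68)) (c (m (nat_lit 0x4887858)) e)) (c (c (m (nat_lit 0xa22ec8))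 e) e)) (c (c (c (m (nat_lit 0x98fa0)) e) e) e)) (c (c (c (c (p (nat_lit 0x17c640)) e) e) e) e)) (c (c (c (c (c (m (nat_lit 0x2cd0)) e) e) e) e) e)) (c (c (c (c (c (c (m (nat_lit 0x98f34)) e) e) e) e) e) e)))) (c (c (c (c (c (c (c (m (nat_lit 0x2e1fb4dc)) (c (m (nat_lit 0x3d0ebe20)) (c (p (nat_lit 0xd9536b4)) e))) (c (c (p (nat_lit 0xaf0ad3c)) (c (m (nat_lit 0x97bd32c)) e)) (c (c (m (nat_lit 0x98ff4)) e) e))) (c (c (c (p (nat_lit 0x89296f8)) (c (m (nat_lit 0x1cb000)) e)) (c (c (m (nat_lit 0x1cb90c)) e) e)) (c (c (c (p (nat_lit 0x17c640)) e) e) e))) (c (c (c (c (p (nat_lit 0x17614c74)) (c (p (nat_lit 0x2dfbe578)) e)) (c (c (m (nat_lit 0x3d6326c)) e) e)) (c (c (c (m (nat_lit 0x11b2d8c)) e) e) e)) (c (c (c (c (p (nat_lit 0x1cb1e0)) e) e) e) e))) (c (c (c (c (c (p (nat_lit 0xc13b6f0)) (c (m (nat_lit 0xabb88e4)) e)) (c (c (p (nat_lit 0x2704e24))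 e) e)) (c (c (c (m (nat_lit 0x76358d0)) e) e) e)) (c (c (c (c (m (nat_lit 0x3d6326c)) e) e) e) e)) (c (c (c (c (c (p (nat_lit 0x25d1df8)) e) e) e) e) e))) (c (c (c (c (c (c (p (nat_lit 0x4ee57a0)) (c (p (nat_lit 0x357b3f4)) e)) (c (c (m (nat_lit 0x2dd3b24)) e) e)) (c (c (c (m (nat_lit 0x98f4c)) e) e) e)) (c (c (c (c (m (nat_lit 0x11b2d8c)) e) e) e) e)) (c (c (c (c (c (p (nat_lit 0x45fc540)) e) e) e) e) e)) (c (c (c (c (c (c (p (nat_lit 0x17c880)) e) e) e) e) e) e))) (c (c (c (c (c (c (c (p (nat_lit 0xda826e4)) (c (p (nat_lit 0x16fe1efc)) e)) (c (c (p (nat_lit 0x306c)) e) e)) (c (c (c (m (nat_lit 0x98e50)) e) e) e)) (c (c (c (c (p (nat_lit 0x1cb1e0)) e) e) e) e)) (c (c (c (c (c (m (nat_lit 0x3c2eb60)) e) e) e) e) e)) (c (c (c (c (c (c (m (nat_lit 0x11b2de0)) e) e) e) e) e) e)) (c (c (c (c (c (c (c (p (nat_lit 0x174)) e) e) e) e) e) e)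 e)))) (c (c (c (c (c (c (c (c (m (nat_lit 0x36f465c0)) (c (p (nat_lit 0x330d13d0)) (c (m (nat_lit 0x93fa488)) e))) (c (c (p (nat_lit 0x1f238fd0)) (c (m (nat_lit 0x9d284a8)) e)) (c (c (p (nat_lit 0x147c)) e) e))) (c (c (c (p (nat_lit 0x21762840)) (c (m (nat_lit 0x188ca330)) e)) (c (c (m (nat_lit 0x6bec434)) e) e)) (c (c (c (m (nat_lit 0x994d4)) e) e) e))) (c (c (c (c (m (nat_lit 0x22075f8)) (c (m (nat_lit 0x4ae7ca0)) e)) (c (c (m (nat_lit 0x131c4c)) e) e)) (c (c (c (m (nat_lit 0x98e50)) e) e) e)) (c (c (c (c (m (nat_lit 0x570948c)) e) e) e) e))) (c (c (c (c (c (p (nat_lit 0x1f238fd0)) (c (m (nat_lit 0x9d284a8)) e)) (c (c (m (nat_lit 0x4f585a4)) e) e)) (c (c (c (m (nat_lit 0xb119920)) e) e) e)) (c (c (c (c (m (nat_lit 0x60c)) e) e) e) e)) (c (c (c (c (c (p (nat_lit 0x147c)) e) e) e) e) e))) (c (c (c (c (c (c (p (nat_lit 0x21762840)) (c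 (m (nat_lit 0x188ca330)) e)) (c (c (m (nat_lit 0xb119920)) e) e)) (c (c (c (m (nat_lit 0x3c1eab0)) e) e) e)) (c (c (c (c (m (nat_lit 0x990e4)) e) e) e) e)) (c (c (c (c (c (m (nat_lit 0x6bec434)) e) e) e) e) e)) (c (c (c (c (c (c (m (nat_lit 0x994d4)) e) e) e) e) e) e))) (c (c (c (c (c (c (c (m (nat_lit 0x22075f8)) (c (m (nat_lit 0x4ae7ca0)) e)) (c (c (m (nat_lit 0x60c)) e) e)) (c (c (c (m (nat_lit 0x990e4)) e) e) e)) (c (c (c (c (m (nat_lit 0x97015d4)) e) e) e) e)) (c (c (c (c (c (m (nat_lit 0x131c4c)) e) e) e) e) e)) (c (c (c (c (c (c (m (nat_lit 0x98e50)) e) e) e) e) e) e)) (c (c (c (c (c (c (c (m (nat_lit 0x570948c)) e) e) e) e) e) e) e))) (c (c (c (c (c (c (c (c (p (nat_lit 0x5443440)) (c (p (nat_lit 0x70eb5c8)) e)) (c (c (m (nat_lit 0x4356b04)) e) e)) (c (c (c (m (nat_lit 0x3b8584c)) e) e) e)) (c (c (c (c (p (nat_lit 0x10225fb0))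 e) e) e) e)) (c (c (c (c (c (m (nat_lit 0x4356b04)) e) e) e) e) e)) (c (c (c (c (c (c (m (nat_lit 0x3b8584c)) e) e) e) e) e) e)) (c (c (c (c (c (c (c (p (nat_lit 0x10225fb0)) e) e) e) e) e) e) e)) (c (c (c (c (c (c (c (c (m (nat_lit 0x3c1e4b0)) e) e) e) e) e) e) e) e)))) (c (c (c (c (c (c (c (c (c (m (nat_lit 0x52a19ac8)) (c (p (nat_lit 0x196f6ea8)) (c (m (nat_lit 0x98edd0)) e))) (c (c (p (nat_lit 0x24e05a28)) (c (m (nat_lit 0x6468150)) e)) (c (c (m (nat_lit 0x131cb8)) e) e))) (c (c (c (p (nat_lit 0x24e05a28)) (c (m (nat_lit 0x6468150)) e)) (c (c (m (nat_lit 0xc66ba3c)) e) e)) (c (c (c (m (nat_lit 0x131cb8)) e) e) e))) (c (c (c (c (p (nat_lit 0x8e5cd08)) (c (m (nat_lit 0x8666c4)) e)) (c (c (m (nat_lit 0x7eb8284)) e) e)) (c (c (c (m (nat_lit 0x7eb8284)) e) e) e)) (c (c (c (c (m (nat_lit 0x734d24)) e) e) e) e))) (c (c (c (c (c (p (nat_lit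 0x24e05a28)) (c (m (nat_lit 0x6468150)) e)) (c (c (m (nat_lit 0x131a48)) e) e)) (c (c (c (m (nat_lit 0xc66bb80)) e) e) e)) (c (c (c (c (m (nat_lit 0x99114)) e) e) e) e)) (c (c (c (c (c (m (nat_lit 0x131cb8)) e) e) e) e) e))) (c (c (c (c (c (c (p (nat_lit 0x24e05a28)) (c (m (nat_lit 0x6468150)) e)) (c (c (m (nat_lit 0xc66bb80)) e) e)) (c (c (c (m (nat_lit 0x131a48)) e) e) e)) (c (c (c (c (m (nat_lit 0x99114)) e) e) e) e)) (c (c (c (c (c (m (nat_lit 0xc66ba3c)) e) e) e) e) e)) (c (c (c (c (c (c (m (nat_lit 0x131cb8)) e) e) e) e) e) e))) (c (c (c (c (c (c (c (p (nat_lit 0x8e5cd08)) (c (m (nat_lit 0x8666c4)) e)) (c (c (m (nat_lit 0x99114)) e) e)) (c (c (c (m (nat_lit 0x99114)) e) e) e)) (c (c (c (c (m (nat_lit 0xc05988)) e) e) e) e)) (c (c (c (c (c (m (nat_lit 0x7eb8284)) e) e) e) e) e)) (c (c (c (c (c (c (m (nat_lit 0x7eb8284)) e) e) e)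 e) e) e)) (c (c (c (c (c (c (c (m (nat_lit 0x734d24)) e) e) e) e) e) e) e))) (c (c (c (c (c (c (c (c (p (nat_lit 0xf6c1dd0)) (c (p (nat_lit 0x44b050)) e)) (c (c (p (nat_lit 0x3572ac)) e) e)) (c (c (c (p (nat_lit 0x3572ac)) e) e) e)) (c (c (c (c (m (nat_lit 0x7eb8410)) e) e) e) e)) (c (c (c (c (c (p (nat_lit 0x3572ac)) e) e) e) e) e)) (c (c (c (c (c (c (p (nat_lit 0x3572ac)) e) e) e) e) e) e)) (c (c (c (c (c (c (c (m (nat_lit 0x7eb8410)) e) e) e) e) e) e) e)) (c (c (c (c (c (c (c (c (m (nat_lit 0x4c6fe0)) e) e) e) e) e) e) e) e))) (c (c (c (c (c (c (c (c (c (p (nat_lit 0xadc98e0)) (c (m (nat_lit 0x1319d0)) e)) (c (c (m (nat_lit 0x55b34c8)) e) e)) (c (c (c (m (nat_lit 0x132108)) e) e) e)) (c (c (c (c (m (nat_lit 0x99114)) e) e) e) e)) (c (c (c (c (c (m (nat_lit 0x55b34c8)) e) e) e) e) e)) (c (c (c (c (c (c (m (nat_lit 0x132108)) e) e) e)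 e) e) e)) (c (c (c (c (c (c (c (m (nat_lit 0x99114)) e) e) e) e) e) e) e)) (c (c (c (c (c (c (c (c (m (nat_lit 0x395730)) e) e) e) e) e) e) e) e)) (c (c (c (c (c (c (c (c (c (m (nat_lit 0x131a78)) e) e) e) e) e) e) e) e) e)))) (c (c (c (c (c (c (c (c (c (c (m (nat_lit 0x480ed864)) (c (p (nat_lit 0x4840be10)) (c (m (nat_lit 0x91f9f8)) e))) (c (c (p (nat_lit 0x2749cb60)) (c (m (nat_lit 0xf2682f0)) e)) (c (c (m (nat_lit 0xbf9bc08)) e) e))) (c (c (c (p (nat_lit 0x352374a8)) (c (m (nat_lit 0x19b1ff80)) e)) (c (c (m (nat_lit 0x33656ac)) e) e)) (c (c (c (m (nat_lit 0x1115da5c)) e) e) e))) (c (c (c (c (p (nat_lit 0x6c06720)) (c (p (nat_lit 0x5b65258)) e)) (c (c (m (nat_lit 0x264c30)) e) e)) (c (c (c (m (nat_lit 0x43b468)) e) e) e)) (c (c (c (c (m (nat_lit 0x3758274)) e) e) e) e))) (c (c (c (c (c (p (nat_lit 0x2749cb60)) (c (m (nat_lit 0xf2682f0))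 e)) (c (c (m (nat_lit 0x17f37528)) e) e)) (c (c (c (m (nat_lit 0x3365cd0)) e) e) e)) (c (c (c (c (m (nat_lit 0x990d8)) e) e) e) e)) (c (c (c (c (c (m (nat_lit 0xbf9bc08)) e) e) e) e) e))) (c (c (c (c (c (c (p (nat_lit 0x352374a8)) (c (m (nat_lit 0x19b1ff80)) e)) (c (c (m (nat_lit 0x3365cd0)) e) e)) (c (c (c (m (nat_lit 0x222bbef0)) e) e) e)) (c (c (c (c (m (nat_lit 0x27036c)) e) e) e) e)) (c (c (c (c (c (m (nat_lit 0x33656ac)) e) e) e) e) e)) (c (c (c (c (c (c (m (nat_lit 0x1115da5c)) e) e) e) e) e) e))) (c (c (c (c (c (c (c (p (nat_lit 0x6c06720)) (c (p (nat_lit 0x5b65258)) e)) (c (c (m (nat_lit 0x990d8)) e) e)) (c (c (c (m (nat_lit 0x27036c)) e) e) e)) (c (c (c (c (m (nat_lit 0x46cd370)) e) e) e) e)) (c (c (c (c (c (m (nat_lit 0x264c30)) e) e) e) e) e)) (c (c (c (c (c (c (m (nat_lit 0x43b468)) e) e) e) e) e) e)) (c (c (c (c (c (c (c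 (m (nat_lit 0x3758274)) e) e) e) e) e) e) e))) (c (c (c (c (c (c (c (c (p (nat_lit 0x839b3ec)) (c (m (nat_lit 0x7da0798)) e)) (c (c (m (nat_lit 0x1cab38)) e) e)) (c (c (c (p (nat_lit 0xa68)) e) e) e)) (c (c (c (c (m (nat_lit 0x1cb708)) e) e) e) e)) (c (c (c (c (c (m (nat_lit 0x1cab38)) e) e) e) e) e)) (c (c (c (c (c (c (p (nat_lit 0xa68)) e) e) e) e) e) e)) (c (c (c (c (c (c (c (m (nat_lit 0x1cb708)) e) e) e) e) e) e) e)) (c (c (c (c (c (c (c (c (m (nat_lit 0x3953ac)) e) e) e) e) e) e) e) e))) (c (c (c (c (c (c (c (c (c (p (nat_lit 0xadc98e0)) (c (m (nat_lit 0x1319d0)) e)) (c (c (m (nat_lit 0x132108)) e) e)) (c (c (c (m (nat_lit 0x55b34c8)) e) e) e)) (c (c (c (c (m (nat_lit 0x99114)) e) e) e) e)) (c (c (c (c (c (m (nat_lit 0x132108)) e) e) e) e) e)) (c (c (c (c (c (c (m (nat_lit 0x55b34c8)) e) e) e) e) e) e)) (c (c (c (c (c (c (c (m (nat_lit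 0x99114)) e) e) e) e) e) e) e)) (c (c (c (c (c (c (c (c (m (nat_lit 0x395730)) e) e) e) e) e) e) e) e)) (c (c (c (c (c (c (c (c (c (m (nat_lit 0x263550)) e) e) e) e) e) e) e) e) e))) (c (c (c (c (c (c (c (c (c (c (m (nat_lit 0x608814c)) (c (p (nat_lit 0x6687318)) e)) (c (c (m (nat_lit 0x98844)) e) e)) (c (c (c (p (nat_lit 0x65ee21c)) e) e) e)) (c (c (c (c (m (nat_lit 0x99198)) e) e) e) e)) (c (c (c (c (c (m (nat_lit 0x98844)) e) e) e) e) e)) (c (c (c (c (c (c (p (nat_lit 0x65ee21c)) e) e) e) e) e) e)) (c (c (c (c (c (c (c (m (nat_lit 0x99198)) e) e) e) e) e) e) e)) (c (c (c (c (c (c (c (c (m (nat_lit 0x3951a8)) e) e) e) e) e) e) e) e)) (c (c (c (c (c (c (c (c (c (m (nat_lit 0x131a78)) e) e) e) e) e) e) e) e) e)) (c (c (c (c (c (c (c (c (c (c (m (nat_lit 0x265998)) e) e) e) e) e) e) e) e) e) e)))))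

theorem c1 : trsOK col trs = true := by decide +kernel
theorem c2 : Nat.ble (Nat.mul (nat_lit 40) (nat_lit 4556)) (nat_lit 4294967295) = true := by decide +kernel
theorem c3 : Nat.beq (tabK (nat_lit 40) (List.ofFn s10)) kt = true := by decide +kernel
theorem c4 : okE trs E = true := by decide +kernel
theorem c5 : dE E (nat_lit 4) = true := by decide +kernel
theorem c6 : cmpK (nat_lit 10) (nat_lit 4) kt E T = true := by decide +kernel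
theorem c7 : bndK (nat_lit 10) (nat_lit 4) (Nat.pow (nat_lit 2) (nat_lit 40)) E T = true := by decide +kernel

theorem c0 : Fl.codeB col = 3 := by decide +kernel

theorem own : Fl.OwnOK 4 T 3 :=
  own_ok c0 c1 c2 c3 c4 c5 c6 c7

end H3

end Own

end HR
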