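import Pool.Agent.Lib.MP_a1b8b7_co.B.OwnOK

set_option autoImplicit false

namespace HR

namespace Own

namespace H30

open Chk

def col : Fin 10 → Bool := ![false, true, true, true, true, false, false, false, false, false]

def trs : List ℕ := [nat_lit 1888, nat_lit 2437]

def kt : ℕ := nat_lit 0x27000000c300000333000008610000174f00003ace000082b60000e3250001a64c0002b614

open Ex in
noncomputable def E : Ex := (a (a (a (a (u (nat_lit 9) (v (nat_lit 9) (v (nat_lit 9) (v (nat_lit 9) (k (nat_lit 0x131e14)))))) (v (nat_lit 8) (a (u (nat_lit 9) (v (nat_lit 9) (v (nat_lit 9) (k (nat_lit 0x13908c))))) (v (nat_lit 8) (u (nat_lit 9) (v (nat_lit 9) (k (nat_lit 0x132264)))))))) (a (u (nat_lit 8) (v (nat_lit 8) (a (v (nat_lit 9) (v (nat_lit 9) (k (nat_lit 0x132264)))) (v (nat_lit 8) (a (v (nat_lit 9) (k (nat_lit 0x13908c))) (v (nat_lit 8) (k (nat_lit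 0x131e14)))))))) (a (v (nat_lit 7) (a (a (u (nat_lit 9) (v (nat_lit 9) (v (nat_lit 9) (k (nat_lit 0x990f0))))) (v (nat_lit 8) (u (nat_lit 9) (v (nat_lit 9) (k (nat_lit 0x98f70)))))) (a (u (nat_lit 8) (v (nat_lit 8) (a (v (nat_lit 9) (k (nat_lit 0x98f70))) (v (nat_lit 8) (k (nat_lit 0x990f0)))))) (v (nat_lit 7) (a (u (nat_lit 9) (v (nat_lit 9) (k (nat_lit 0x98ee0)))) (a (v (nat_lit 8) (u (nat_lit 9) (k (nat_lit 0x98f52)))) (u (nat_lit 8) (a (v (nat_lit 9) (k (nat_lit 0x98f52))) (v (nat_lit 8) (k (nat_lit 0x98ee0))))))))))) (u (nat_lit 7) (v (nat_lit 7) (a (a (v (nat_lit 9) (v (nat_lit 9) (k (nat_lit 0x98ee0)))) (v (nat_lit 8) (a (v (nat_lit 9) (k (nat_lit 0x132084))) (v (nat_lit 8) (k (nat_lit 0x98ee0)))))) (a (u (nat_lit 8) (u (nat_lit 9) (k (nat_lit 0x131e8c)))) (v (nat_lit 7) (a (v (nat_lit 9) (k (nat_lit 0x990f0))) (a (v (nat_lit 8)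 (k (nat_lit 0x990f0))) (v (nat_lit 7) (k (nat_lit 0x131e14))))))))))))) (a (a (v (nat_lit 6) (a (a (u (nat_lit 9) (v (nat_lit 9) (v (nat_lit 9) (k (nat_lit 0x990f0))))) (a (v (nat_lit 8) (u (nat_lit 9) (v (nat_lit 9) (k (nat_lit 0x98f70))))) (u (nat_lit 8) (v (nat_lit 8) (a (v (nat_lit 9) (k (nat_lit 0x98f70))) (v (nat_lit 8) (k (nat_lit 0x990f0)))))))) (a (v (nat_lit 7) (a (u (nat_lit 9) (v (nat_lit 9) (k (nat_lit 0x132084)))) (a (v (nat_lit 8) (u (nat_lit 9) (k (nat_lit 0x131e20)))) (u (nat_lit 8) (a (v (nat_lit 9) (k (nat_lit 0x131e20))) (v (nat_lit 8) (k (nat_lit 0x132084)))))))) (a (u (nat_lit 7) (a (v (nat_lit 9) (v (nat_lit 9) (k (nat_lit 0x98f52)))) (a (v (nat_lit 8) (a (v (nat_lit 9) (k (nat_lit 0x131e20))) (v (nat_lit 8) (k (nat_lit 0x98f52))))) (v (nat_lit 7) (a (v (nat_lit 9) (k (nat_lit 0x98f70))) (a (v (nat_lit 8) (k (nat_lit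 0x98f70))) (v (nat_lit 7) (k (nat_lit 0x13908c))))))))) (v (nat_lit 6) (a (a (u (nat_lit 9) (v (nat_lit 9) (k (nat_lit 0x98ee0)))) (v (nat_lit 8) (u (nat_lit 9) (k (nat_lit 0x98f52))))) (a (u (nat_lit 8) (a (v (nat_lit 9) (k (nat_lit 0x98f52))) (v (nat_lit 8) (k (nat_lit 0x98ee0))))) (u (nat_lit 7) (v (nat_lit 7) (k (nat_lit 0x132264))))))))))) (u (nat_lit 6) (a (v (nat_lit 7) (a (v (nat_lit 9) (v (nat_lit 9) (k (nat_lit 0x98f52)))) (v (nat_lit 8) (a (v (nat_lit 9) (k (nat_lit 0x131e20))) (v (nat_lit 8) (k (nat_lit 0x98f52))))))) (a (u (nat_lit 7) (a (u (nat_lit 9) (v (nat_lit 9) (k (nat_lit 0x131e8c)))) (u (nat_lit 8) (v (nat_lit 8) (k (nat_lit 0x131e8c)))))) (v (nat_lit 6) (a (a (v (nat_lit 9) (v (nat_lit 9) (k (nat_lit 0x98ee0)))) (v (nat_lit 8) (a (v (nat_lit 9) (k (nat_lit 0x132084))) (v (nat_lit 8) (k (nat_lit 0x98ee0)))))) (a (u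 (nat_lit 8) (u (nat_lit 9) (k (nat_lit 0x131e8c)))) (a (v (nat_lit 7) (a (v (nat_lit 9) (k (nat_lit 0x98f70))) (a (v (nat_lit 8) (k (nat_lit 0x98f70))) (v (nat_lit 7) (k (nat_lit 0x132264)))))) (v (nat_lit 6) (a (a (v (nat_lit 9) (k (nat_lit 0x990f0))) (v (nat_lit 8) (k (nat_lit 0x990f0)))) (a (v (nat_lit 7) (k (nat_lit 0x13908c))) (v (nat_lit 6) (k (nat_lit 0x131e14)))))))))))))) (a (v (nat_lit 5) (a (a (v (nat_lit 8) (u (nat_lit 9) (v (nat_lit 9) (k (nat_lit 0x1327f8))))) (a (u (nat_lit 8) (v (nat_lit 8) (v (nat_lit 9) (k (nat_lit 0x1327f8))))) (v (nat_lit 7) (a (u (nat_lit 9) (v (nat_lit 9) (k (nat_lit 0x9916e)))) (a (v (nat_lit 8) (u (nat_lit 9) (k (nat_lit 0x990a8)))) (u (nat_lit 8) (a (v (nat_lit 9) (k (nat_lit 0x990a8))) (v (nat_lit 8) (k (nat_lit 0x9916e)))))))))) (a (v (nat_lit 6) (a (a (u (nat_lit 9) (v (nat_lit 9) (k (nat_lit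 0x9916e)))) (v (nat_lit 8) (u (nat_lit 9) (k (nat_lit 0x990a8))))) (a (u (nat_lit 8) (a (v (nat_lit 9) (k (nat_lit 0x990a8))) (v (nat_lit 8) (k (nat_lit 0x9916e))))) (a (u (nat_lit 7) (a (v (nat_lit 9) (k (nat_lit 0x98f34))) (v (nat_lit 8) (k (nat_lit 0x98f34))))) (v (nat_lit 6) (u (nat_lit 7) (k (nat_lit 0x131808)))))))) (a (u (nat_lit 6) (v (nat_lit 7) (a (v (nat_lit 9) (k (nat_lit 0x98f34))) (a (v (nat_lit 8) (k (nat_lit 0x98f34))) (v (nat_lit 7) (k (nat_lit 0x131808))))))) (v (nat_lit 5) (a (a (v (nat_lit 7) (a (u (nat_lit 9) (k (nat_lit 0x98dcc))) (u (nat_lit 8) (k (nat_lit 0x98dcc))))) (u (nat_lit 7) (v (nat_lit 7) (k (nat_lit 0x131cc4))))) (a (v (nat_lit 6) (a (u (nat_lit 9) (k (nat_lit 0x98dcc))) (a (u (nat_lit 8) (k (nat_lit 0x98dcc))) (u (nat_lit 7) (k (nat_lit 0x131b44)))))) (u (nat_lit 6) (a (v (nat_lit 7) (k (nat_lit 0x131b44)))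 (v (nat_lit 6) (k (nat_lit 0x131cc4)))))))))))) (a (u (nat_lit 5) (a (a (a (v (nat_lit 9) (v (nat_lit 9) (v (nat_lit 9) (k (nat_lit 0x131a78))))) (v (nat_lit 8) (v (nat_lit 8) (v (nat_lit 8) (k (nat_lit 0x131a78)))))) (a (v (nat_lit 7) (v (nat_lit 7) (a (v (nat_lit 9) (k (nat_lit 0x98db4))) (a (v (nat_lit 8) (k (nat_lit 0x98db4))) (v (nat_lit 7) (k (nat_lit 0x1311c0))))))) (u (nat_lit 7) (a (u (nat_lit 9) (v (nat_lit 9) (k (nat_lit 0x9935a)))) (u (nat_lit 8) (v (nat_lit 8) (k (nat_lit 0x9935a)))))))) (a (a (v (nat_lit 6) (v (nat_lit 6) (a (v (nat_lit 9) (k (nat_lit 0x98db4))) (a (v (nat_lit 8) (k (nat_lit 0x98db4))) (v (nat_lit 6) (k (nat_lit 0x1311c0))))))) (u (nat_lit 6) (a (u (nat_lit 9) (v (nat_lit 9) (k (nat_lit 0x9935a)))) (u (nat_lit 8) (v (nat_lit 8) (k (nat_lit 0x9935a))))))) (a (v (nat_lit 5) (a (a (v (nat_lit 9) (v (nat_lit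 9) (k (nat_lit 0x1321e0)))) (u (nat_lit 9) (v (nat_lit 9) (k (nat_lit 0x4741d58))))) (a (v (nat_lit 8) (a (v (nat_lit 9) (k (nat_lit 0x2666e8))) (v (nat_lit 8) (k (nat_lit 0x1321e0))))) (a (u (nat_lit 8) (v (nat_lit 8) (k (nat_lit 0x4741d58)))) (v (nat_lit 5) (a (a (v (nat_lit 9) (k (nat_lit 0x1326a8))) (v (nat_lit 8) (k (nat_lit 0x1326a8)))) (a (v (nat_lit 7) (k (nat_lit 0x131550))) (a (v (nat_lit 6) (k (nat_lit 0x131550))) (v (nat_lit 5) (k (nat_lit 0x263478))))))))))) (u (nat_lit 5) (a (v (nat_lit 9) (v (nat_lit 9) (k (nat_lit 0x131ef8)))) (a (v (nat_lit 8) (a (v (nat_lit 9) (k (nat_lit 0x264f18))) (v (nat_lit 8) (k (nat_lit 0x131ef8))))) (u (nat_lit 5) (v (nat_lit 5) (k (nat_lit 0x263940))))))))))) (t (nat_lit 5) (nat_lit 8) (nat_lit 9) (a (u (nat_lit 8) (a (u (nat_lit 9) (u (nat_lit 9) (k (nat_lit 0x131b5c)))) (u (nat_lit 8) (u (nat_lit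 9) (k (nat_lit 0x131b5c)))))) (a (u (nat_lit 5) (a (a (u (nat_lit 9) (v (nat_lit 9) (k (nat_lit 0xda34198)))) (a (u (nat_lit 8) (v (nat_lit 8) (k (nat_lit 0xda34198)))) (v (nat_lit 7) (v (nat_lit 7) (k (nat_lit 0xff605ac)))))) (a (v (nat_lit 6) (v (nat_lit 6) (k (nat_lit 0xff605ac)))) (a (v (nat_lit 5) (v (nat_lit 5) (k (nat_lit 0x2639a0)))) (u (nat_lit 5) (u (nat_lit 5) (k (nat_lit 0x263bb0)))))))) (t (nat_lit 5) (nat_lit 8) (nat_lit 9) (a (u (nat_lit 5) (v (nat_lit 5) (k (nat_lit 0x263c10)))) (t (nat_lit 5) (nat_lit 8) (nat_lit 9) (a (u (nat_lit 9) (k (nat_lit 0x1155db0))) (u (nat_lit 8) (k (nat_lit 0x1155db0)))))))))))))) (a (a (a (v (nat_lit 4) (a (a (a (u (nat_lit 9) (v (nat_lit 9) (v (nat_lit 9) (k (nat_lit 0x98f7c))))) (v (nat_lit 8) (a (u (nat_lit 9) (v (nat_lit 9) (k (nat_lit 0x98ffa)))) (v (nat_lit 8) (u (nat_lit 9) (k (nat_lit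 0x98ece))))))) (a (u (nat_lit 8) (a (v (nat_lit 9) (v (nat_lit 9) (k (nat_lit 0x9944a)))) (v (nat_lit 8) (v (nat_lit 8) (k (nat_lit 0x98d8a)))))) (a (u (nat_lit 7) (v (nat_lit 7) (v (nat_lit 7) (k (nat_lit 0x98f7c))))) (v (nat_lit 6) (a (a (v (nat_lit 8) (u (nat_lit 9) (k (nat_lit 0x98f5e)))) (u (nat_lit 8) (v (nat_lit 8) (k (nat_lit 0x98ffa))))) (a (u (nat_lit 7) (a (v (nat_lit 8) (k (nat_lit 0x98f5e))) (v (nat_lit 7) (k (nat_lit 0x98ffa))))) (v (nat_lit 6) (u (nat_lit 7) (k (nat_lit 0x98ece)))))))))) (a (a (u (nat_lit 6) (a (v (nat_lit 7) (v (nat_lit 7) (k (nat_lit 0x9944a)))) (v (nat_lit 6) (a (v (nat_lit 8) (k (nat_lit 0x98ffa))) (v (nat_lit 6) (k (nat_lit 0x98d8a))))))) (v (nat_lit 5) (a (a (v (nat_lit 8) (u (nat_lit 9) (k (nat_lit 0x988f8)))) (u (nat_lit 8) (v (nat_lit 8) (k (nat_lit 0x99012))))) (a (v (nat_lit 6) (a (u (nat_lit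 9) (k (nat_lit 0x9a68c))) (u (nat_lit 7) (k (nat_lit 0x6e75b0e))))) (u (nat_lit 6) (v (nat_lit 6) (k (nat_lit 0x98808)))))))) (a (u (nat_lit 5) (a (v (nat_lit 6) (a (v (nat_lit 9) (k (nat_lit 0x97ea2))) (a (v (nat_lit 8) (k (nat_lit 0x98f58))) (v (nat_lit 6) (k (nat_lit 0x99564)))))) (a (v (nat_lit 5) (a (a (v (nat_lit 8) (k (nat_lit 0x95970))) (u (nat_lit 8) (k (nat_lit 0x97db2)))) (a (v (nat_lit 6) (k (nat_lit 0x98ea4))) (v (nat_lit 5) (k (nat_lit 0x98ebc)))))) (u (nat_lit 5) (v (nat_lit 8) (k (nat_lit 0x96c5a))))))) (a (t (nat_lit 5) (nat_lit 8) (nat_lit 9) (a (a (u (nat_lit 9) (u (nat_lit 9) (k (nat_lit 0x99120)))) (u (nat_lit 8) (a (u (nat_lit 9) (k (nat_lit 0x5087e2c))) (u (nat_lit 8) (k (nat_lit 0x4a97b28)))))) (a (u (nat_lit 7) (u (nat_lit 8) (k (nat_lit 0x99eca)))) (v (nat_lit 5) (u (nat_lit 6) (k (nat_lit 0x27f84cc))))))) (v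 (nat_lit 4) (a (a (a (u (nat_lit 9) (v (nat_lit 9) (k (nat_lit 0x99210)))) (v (nat_lit 8) (u (nat_lit 9) (k (nat_lit 0x99060))))) (a (u (nat_lit 8) (v (nat_lit 8) (k (nat_lit 0x99330)))) (v (nat_lit 7) (a (u (nat_lit 9) (k (nat_lit 0x99054))) (u (nat_lit 8) (k (nat_lit 0x9920a))))))) (a (a (u (nat_lit 7) (a (v (nat_lit 9) (k (nat_lit 0x99054))) (a (v (nat_lit 8) (k (nat_lit 0x989c4))) (v (nat_lit 7) (k (nat_lit 0x99210)))))) (v (nat_lit 6) (a (u (nat_lit 9) (k (nat_lit 0x989c4))) (u (nat_lit 7) (k (nat_lit 0x99060)))))) (a (u (nat_lit 6) (a (v (nat_lit 9) (k (nat_lit 0x9920a))) (v (nat_lit 6) (k (nat_lit 0x99330))))) (a (u (nat_lit 5) (a (a (v (nat_lit 9) (k (nat_lit 0x994e0))) (v (nat_lit 8) (k (nat_lit 0x98eb0)))) (a (v (nat_lit 7) (k (nat_lit 0x98ea4))) (v (nat_lit 5) (k (nat_lit 0x98ee0)))))) (v (nat_lit 4) (u (nat_lit 5) (k (nat_lit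 0x99174)))))))))))))) (u (nat_lit 4) (a (a (a (v (nat_lit 8) (v (nat_lit 8) (a (v (nat_lit 9) (k (nat_lit 0x98eaa))) (v (nat_lit 8) (k (nat_lit 0x9902a)))))) (v (nat_lit 7) (a (v (nat_lit 9) (v (nat_lit 9) (k (nat_lit 0x98d9c)))) (a (v (nat_lit 8) (a (v (nat_lit 9) (k (nat_lit 0x98e44))) (v (nat_lit 8) (k (nat_lit 0x98db4))))) (v (nat_lit 7) (a (v (nat_lit 9) (k (nat_lit 0x98d9c))) (v (nat_lit 8) (k (nat_lit 0x98db4))))))))) (a (v (nat_lit 6) (a (a (v (nat_lit 9) (v (nat_lit 9) (k (nat_lit 0x98db4)))) (v (nat_lit 8) (v (nat_lit 8) (k (nat_lit 0x98d24))))) (a (v (nat_lit 7) (v (nat_lit 9) (k (nat_lit 0x98e44)))) (v (nat_lit 6) (a (a (v (nat_lit 9) (k (nat_lit 0x98db4))) (v (nat_lit 8) (k (nat_lit 0x98d24)))) (a (v (nat_lit 7) (k (nat_lit 0x98eaa))) (v (nat_lit 6) (k (nat_lit 0x9902a))))))))) (v (nat_lit 5) (a (a (v (nat_lit 9) (v (nat_lit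 9) (k (nat_lit 0x98e3e)))) (v (nat_lit 8) (a (v (nat_lit 9) (k (nat_lit 0x99486))) (v (nat_lit 8) (k (nat_lit 0x990f6)))))) (a (v (nat_lit 7) (a (v (nat_lit 9) (k (nat_lit 0x98ef8))) (a (v (nat_lit 8) (k (nat_lit 0x98f40))) (v (nat_lit 7) (k (nat_lit 0x98e98)))))) (a (v (nat_lit 6) (a (a (v (nat_lit 9) (k (nat_lit 0x98fee))) (v (nat_lit 8) (k (nat_lit 0x98e62)))) (a (v (nat_lit 7) (k (nat_lit 0x9a0bc))) (v (nat_lit 6) (k (nat_lit 0x992a6)))))) (v (nat_lit 5) (a (a (v (nat_lit 9) (k (nat_lit 0x98d96))) (v (nat_lit 8) (k (nat_lit 0x98f82)))) (a (v (nat_lit 7) (k (nat_lit 0x98d90))) (v (nat_lit 6) (k (nat_lit 0x990cc)))))))))))) (a (a (u (nat_lit 5) (a (v (nat_lit 5) (v (nat_lit 8) (k (nat_lit 0x9929a)))) (u (nat_lit 5) (v (nat_lit 5) (k (nat_lit 0x6bc0fc4)))))) (t (nat_lit 5) (nat_lit 8) (nat_lit 9) (u (nat_lit 5) (a (u (nat_lit 9) (k (nat_lit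 0x98fa6))) (u (nat_lit 6) (k (nat_lit 0x32501f4))))))) (a (v (nat_lit 4) (a (a (v (nat_lit 6) (v (nat_lit 8) (k (nat_lit 0x131d78)))) (u (nat_lit 6) (u (nat_lit 8) (k (nat_lit 0x2129ef38))))) (a (v (nat_lit 5) (a (v (nat_lit 6) (k (nat_lit 0x994aa))) (u (nat_lit 6) (k (nat_lit 0x998b2))))) (v (nat_lit 4) (a (a (v (nat_lit 9) (k (nat_lit 0x98ef8))) (a (v (nat_lit 8) (k (nat_lit 0x992f4))) (v (nat_lit 7) (k (nat_lit 0x98ef8))))) (a (v (nat_lit 6) (k (nat_lit 0x992f4))) (a (v (nat_lit 5) (k (nat_lit 0x98f46))) (v (nat_lit 4) (k (nat_lit 0x132a80)))))))))) (u (nat_lit 4) (a (a (v (nat_lit 7) (v (nat_lit 8) (k (nat_lit 0x9850e)))) (v (nat_lit 6) (v (nat_lit 9) (k (nat_lit 0x9850e))))) (a (u (nat_lit 5) (u (nat_lit 9) (k (nat_lit 0x99318)))) (a (v (nat_lit 4) (v (nat_lit 5) (k (nat_lit 0x9da6a)))) (u (nat_lit 4) (v (nat_lit 4) (k (nat_lit 0x25fd70)))))))))))))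 (a (v (nat_lit 3) (a (a (a (u (nat_lit 9) (v (nat_lit 9) (v (nat_lit 9) (k (nat_lit 0x98f7c))))) (a (v (nat_lit 8) (a (u (nat_lit 9) (v (nat_lit 9) (k (nat_lit 0x98ffa)))) (v (nat_lit 8) (u (nat_lit 9) (k (nat_lit 0x98ece)))))) (u (nat_lit 8) (a (v (nat_lit 9) (v (nat_lit 9) (k (nat_lit 0x9944a)))) (v (nat_lit 8) (v (nat_lit 8) (k (nat_lit 0x98d8a)))))))) (a (v (nat_lit 7) (a (v (nat_lit 8) (u (nat_lit 9) (k (nat_lit 0x98f5e)))) (u (nat_lit 8) (v (nat_lit 8) (k (nat_lit 0x98ffa)))))) (a (u (nat_lit 7) (v (nat_lit 7) (a (v (nat_lit 8) (k (nat_lit 0x98ffa))) (v (nat_lit 7) (k (nat_lit 0x98d8a)))))) (v (nat_lit 6) (v (nat_lit 6) (u (nat_lit 7) (k (nat_lit 0x9944a)))))))) (a (a (u (nat_lit 6) (a (v (nat_lit 7) (a (v (nat_lit 8) (k (nat_lit 0x98f5e))) (v (nat_lit 7) (k (nat_lit 0x98ece))))) (v (nat_lit 6) (a (v (nat_lit 7) (k (nat_lit 0x98ffa)))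 (v (nat_lit 6) (k (nat_lit 0x98f7c))))))) (a (v (nat_lit 5) (a (a (v (nat_lit 8) (u (nat_lit 9) (k (nat_lit 0x988f8)))) (u (nat_lit 8) (v (nat_lit 8) (k (nat_lit 0x99012))))) (a (v (nat_lit 7) (u (nat_lit 9) (k (nat_lit 0x9a68c)))) (a (u (nat_lit 7) (v (nat_lit 7) (k (nat_lit 0x98808)))) (u (nat_lit 6) (v (nat_lit 7) (k (nat_lit 0x6e75b0e)))))))) (u (nat_lit 5) (a (v (nat_lit 7) (a (v (nat_lit 9) (k (nat_lit 0x97ea2))) (a (v (nat_lit 8) (k (nat_lit 0x98f58))) (v (nat_lit 7) (k (nat_lit 0x99564)))))) (a (v (nat_lit 5) (a (a (v (nat_lit 8) (k (nat_lit 0x95970))) (u (nat_lit 8) (k (nat_lit 0x97db2)))) (a (v (nat_lit 7) (k (nat_lit 0x98ea4))) (v (nat_lit 5) (k (nat_lit 0x98ebc)))))) (u (nat_lit 5) (v (nat_lit 8) (k (nat_lit 0x96c5a))))))))) (a (a (t (nat_lit 5) (nat_lit 8) (nat_lit 9) (a (a (u (nat_lit 9) (u (nat_lit 9) (k (nat_lit 0x99120))))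 (u (nat_lit 8) (a (u (nat_lit 9) (k (nat_lit 0x5087e2c))) (u (nat_lit 8) (k (nat_lit 0x4a97b28)))))) (a (u (nat_lit 6) (u (nat_lit 8) (k (nat_lit 0x99eca)))) (v (nat_lit 5) (u (nat_lit 7) (k (nat_lit 0x27f84cc))))))) (v (nat_lit 4) (a (a (v (nat_lit 8) (u (nat_lit 9) (k (nat_lit 0x131fa0)))) (u (nat_lit 8) (v (nat_lit 8) (k (nat_lit 0x133d40))))) (a (u (nat_lit 7) (v (nat_lit 8) (k (nat_lit 0x99078)))) (u (nat_lit 6) (v (nat_lit 8) (k (nat_lit 0x99078)))))))) (a (u (nat_lit 4) (a (a (a (v (nat_lit 9) (v (nat_lit 9) (k (nat_lit 0x9960c)))) (v (nat_lit 8) (v (nat_lit 9) (k (nat_lit 0x988ec))))) (a (u (nat_lit 8) (v (nat_lit 9) (k (nat_lit 0x98cc4)))) (v (nat_lit 7) (a (v (nat_lit 9) (k (nat_lit 0x98f7c))) (v (nat_lit 7) (k (nat_lit 0x9900c))))))) (a (a (u (nat_lit 7) (u (nat_lit 8) (k (nat_lit 0x3a248c)))) (v (nat_lit 6) (v (nat_lit 7) (k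 (nat_lit 0x990cc))))) (a (v (nat_lit 5) (a (a (v (nat_lit 9) (k (nat_lit 0x9900c))) (v (nat_lit 8) (k (nat_lit 0x98ebc)))) (a (v (nat_lit 7) (k (nat_lit 0x99b2e))) (a (v (nat_lit 6) (k (nat_lit 0x9863a))) (v (nat_lit 5) (k (nat_lit 0x171e36d0))))))) (v (nat_lit 4) (a (a (v (nat_lit 9) (k (nat_lit 0x98f70))) (v (nat_lit 8) (k (nat_lit 0x9835e)))) (a (v (nat_lit 6) (k (nat_lit 0x990b4))) (v (nat_lit 4) (k (nat_lit 0x98fa0)))))))))) (v (nat_lit 3) (a (a (a (u (nat_lit 9) (v (nat_lit 9) (k (nat_lit 0x99210)))) (v (nat_lit 8) (u (nat_lit 9) (k (nat_lit 0x99060))))) (a (u (nat_lit 8) (v (nat_lit 8) (k (nat_lit 0x99330)))) (a (v (nat_lit 7) (u (nat_lit 9) (k (nat_lit 0x989c4)))) (u (nat_lit 7) (a (v (nat_lit 9) (k (nat_lit 0x9920a))) (v (nat_lit 7) (k (nat_lit 0x99330)))))))) (a (a (v (nat_lit 6) (a (u (nat_lit 9) (k (nat_lit 0x99054))) (u (nat_lit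 8) (k (nat_lit 0x9920a))))) (u (nat_lit 6) (a (a (v (nat_lit 9) (k (nat_lit 0x99054))) (v (nat_lit 8) (k (nat_lit 0x989c4)))) (a (v (nat_lit 7) (k (nat_lit 0x99060))) (v (nat_lit 6) (k (nat_lit 0x99210))))))) (a (u (nat_lit 5) (a (a (v (nat_lit 9) (k (nat_lit 0x994e0))) (v (nat_lit 8) (k (nat_lit 0x98eb0)))) (a (v (nat_lit 6) (k (nat_lit 0x98ea4))) (v (nat_lit 5) (k (nat_lit 0x98ee0)))))) (a (u (nat_lit 4) (a (a (v (nat_lit 8) (k (nat_lit 0x997e6))) (u (nat_lit 8) (k (nat_lit 0x98d24)))) (a (v (nat_lit 6) (k (nat_lit 0x98e80))) (a (v (nat_lit 5) (k (nat_lit 0x98f1c))) (v (nat_lit 4) (k (nat_lit 0x98f76))))))) (v (nat_lit 3) (u (nat_lit 5) (k (nat_lit 0x99174)))))))))))))) (a (u (nat_lit 3) (a (a (a (v (nat_lit 8) (v (nat_lit 8) (a (v (nat_lit 9) (k (nat_lit 0x98eaa))) (v (nat_lit 8) (k (nat_lit 0x9902a)))))) (v (nat_lit 7) (a (v (nat_lit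 9) (v (nat_lit 9) (k (nat_lit 0x98db4)))) (a (v (nat_lit 8) (v (nat_lit 8) (k (nat_lit 0x98d24)))) (v (nat_lit 7) (a (v (nat_lit 9) (k (nat_lit 0x98db4))) (a (v (nat_lit 8) (k (nat_lit 0x98d24))) (v (nat_lit 7) (k (nat_lit 0x9902a)))))))))) (a (v (nat_lit 6) (a (a (v (nat_lit 9) (v (nat_lit 9) (k (nat_lit 0x98d9c)))) (v (nat_lit 8) (a (v (nat_lit 9) (k (nat_lit 0x98e44))) (v (nat_lit 8) (k (nat_lit 0x98db4)))))) (a (v (nat_lit 7) (a (v (nat_lit 9) (k (nat_lit 0x98e44))) (v (nat_lit 7) (k (nat_lit 0x98eaa))))) (v (nat_lit 6) (a (v (nat_lit 9) (k (nat_lit 0x98d9c))) (v (nat_lit 8) (k (nat_lit 0x98db4)))))))) (a (v (nat_lit 5) (a (a (v (nat_lit 9) (v (nat_lit 9) (k (nat_lit 0x98e3e)))) (v (nat_lit 8) (a (v (nat_lit 9) (k (nat_lit 0x99486))) (v (nat_lit 8) (k (nat_lit 0x990f6)))))) (a (v (nat_lit 7) (a (v (nat_lit 9) (k (nat_lit 0x98fee)))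 (a (v (nat_lit 8) (k (nat_lit 0x98e62))) (v (nat_lit 7) (k (nat_lit 0x992a6)))))) (a (v (nat_lit 6) (a (a (v (nat_lit 9) (k (nat_lit 0x98ef8))) (v (nat_lit 8) (k (nat_lit 0x98f40)))) (a (v (nat_lit 7) (k (nat_lit 0x9a0bc))) (v (nat_lit 6) (k (nat_lit 0x98e98)))))) (v (nat_lit 5) (a (a (v (nat_lit 9) (k (nat_lit 0x98d96))) (v (nat_lit 8) (k (nat_lit 0x98f82)))) (a (v (nat_lit 7) (k (nat_lit 0x990cc))) (v (nat_lit 6) (k (nat_lit 0x98d90)))))))))) (u (nat_lit 5) (a (v (nat_lit 5) (v (nat_lit 8) (k (nat_lit 0x9929a)))) (u (nat_lit 5) (v (nat_lit 5) (k (nat_lit 0x6bc0fc4))))))))) (a (a (t (nat_lit 5) (nat_lit 8) (nat_lit 9) (u (nat_lit 5) (a (u (nat_lit 9) (k (nat_lit 0x98fa6))) (u (nat_lit 7) (k (nat_lit 0x32501f4)))))) (v (nat_lit 4) (a (a (v (nat_lit 9) (v (nat_lit 9) (k (nat_lit 0x9960c)))) (a (v (nat_lit 8) (v (nat_lit 9) (k (nat_lit 0x988ec))))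 (u (nat_lit 8) (v (nat_lit 9) (k (nat_lit 0x98cc4)))))) (a (a (v (nat_lit 6) (a (v (nat_lit 9) (k (nat_lit 0x98f7c))) (a (v (nat_lit 7) (k (nat_lit 0x990cc))) (v (nat_lit 6) (k (nat_lit 0x9900c)))))) (u (nat_lit 6) (u (nat_lit 8) (k (nat_lit 0x3a248c))))) (a (v (nat_lit 5) (a (a (v (nat_lit 9) (k (nat_lit 0x9900c))) (v (nat_lit 8) (k (nat_lit 0x98ebc)))) (a (v (nat_lit 7) (k (nat_lit 0x9863a))) (a (v (nat_lit 6) (k (nat_lit 0x99b2e))) (v (nat_lit 5) (k (nat_lit 0x171e36d0))))))) (v (nat_lit 4) (a (a (v (nat_lit 8) (k (nat_lit 0x997e6))) (u (nat_lit 8) (k (nat_lit 0x98d24)))) (a (v (nat_lit 7) (k (nat_lit 0x98e80))) (v (nat_lit 5) (k (nat_lit 0x98f1c))))))))))) (a (u (nat_lit 4) (v (nat_lit 4) (t (nat_lit 5) (nat_lit 8) (nat_lit 9) (k (nat_lit 0x3299ac0))))) (a (v (nat_lit 3) (a (a (v (nat_lit 7) (v (nat_lit 8) (k (nat_lit 0x131d78))))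 (a (u (nat_lit 7) (u (nat_lit 8) (k (nat_lit 0x2129ef38)))) (v (nat_lit 5) (a (v (nat_lit 7) (k (nat_lit 0x994aa))) (u (nat_lit 7) (k (nat_lit 0x998b2))))))) (a (v (nat_lit 4) (a (a (v (nat_lit 9) (k (nat_lit 0x98f70))) (v (nat_lit 8) (k (nat_lit 0x9835e)))) (a (v (nat_lit 7) (k (nat_lit 0x990b4))) (v (nat_lit 4) (k (nat_lit 0x98f76)))))) (a (u (nat_lit 4) (t (nat_lit 5) (nat_lit 8) (nat_lit 9) (k (nat_lit 0x3299ac0)))) (v (nat_lit 3) (a (a (v (nat_lit 9) (k (nat_lit 0x98ef8))) (a (v (nat_lit 8) (k (nat_lit 0x992f4))) (v (nat_lit 7) (k (nat_lit 0x992f4))))) (a (a (v (nat_lit 6) (k (nat_lit 0x98ef8))) (v (nat_lit 5) (k (nat_lit 0x98f46)))) (a (v (nat_lit 4) (k (nat_lit 0x98fa0))) (v (nat_lit 3) (k (nat_lit 0x132a80))))))))))) (u (nat_lit 3) (a (a (v (nat_lit 7) (v (nat_lit 9) (k (nat_lit 0x9850e)))) (v (nat_lit 6) (v (nat_lit 8) (k (nat_lit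 0x9850e))))) (a (u (nat_lit 5) (u (nat_lit 9) (k (nat_lit 0x99318)))) (a (v (nat_lit 3) (v (nat_lit 5) (k (nat_lit 0x9da6a)))) (u (nat_lit 3) (v (nat_lit 3) (k (nat_lit 0x25fd70))))))))))))) (v (nat_lit 2) (a (a (a (u (nat_lit 9) (v (nat_lit 9) (v (nat_lit 9) (k (nat_lit 0x98d8a))))) (a (v (nat_lit 8) (v (nat_lit 8) (u (nat_lit 9) (k (nat_lit 0x9944a))))) (u (nat_lit 8) (a (v (nat_lit 9) (v (nat_lit 9) (k (nat_lit 0x98ece)))) (v (nat_lit 8) (a (v (nat_lit 9) (k (nat_lit 0x98ffa))) (v (nat_lit 8) (k (nat_lit 0x98f7c))))))))) (a (a (u (nat_lit 7) (v (nat_lit 7) (v (nat_lit 7) (k (nat_lit 0x98f7c))))) (v (nat_lit 6) (a (a (u (nat_lit 9) (v (nat_lit 9) (k (nat_lit 0x98ffa)))) (u (nat_lit 8) (v (nat_lit 9) (k (nat_lit 0x98f5e))))) (a (u (nat_lit 7) (a (v (nat_lit 9) (k (nat_lit 0x98f5e))) (v (nat_lit 7) (k (nat_lit 0x98ffa))))) (v (nat_lit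 6) (u (nat_lit 7) (k (nat_lit 0x98ece)))))))) (a (u (nat_lit 6) (a (v (nat_lit 7) (v (nat_lit 7) (k (nat_lit 0x9944a)))) (v (nat_lit 6) (a (v (nat_lit 9) (k (nat_lit 0x98ffa))) (v (nat_lit 6) (k (nat_lit 0x98d8a))))))) (v (nat_lit 5) (a (a (u (nat_lit 9) (v (nat_lit 9) (k (nat_lit 0x99012)))) (u (nat_lit 8) (v (nat_lit 9) (k (nat_lit 0x988f8))))) (a (v (nat_lit 6) (a (u (nat_lit 8) (k (nat_lit 0x9a68c))) (u (nat_lit 7) (k (nat_lit 0x6e75b0e))))) (u (nat_lit 6) (v (nat_lit 6) (k (nat_lit 0x98808)))))))))) (a (a (u (nat_lit 5) (a (v (nat_lit 6) (a (v (nat_lit 9) (k (nat_lit 0x98f58))) (a (v (nat_lit 8) (k (nat_lit 0x97ea2))) (v (nat_lit 6) (k (nat_lit 0x99564)))))) (a (v (nat_lit 5) (a (a (v (nat_lit 9) (k (nat_lit 0x95970))) (u (nat_lit 9) (k (nat_lit 0x97db2)))) (a (v (nat_lit 6) (k (nat_lit 0x98ea4))) (v (nat_lit 5) (k (nat_lit 0x98ebc))))))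 (u (nat_lit 5) (v (nat_lit 9) (k (nat_lit 0x96c5a))))))) (a (t (nat_lit 5) (nat_lit 8) (nat_lit 9) (a (a (u (nat_lit 9) (u (nat_lit 9) (k (nat_lit 0x4a97b28)))) (u (nat_lit 8) (a (u (nat_lit 9) (k (nat_lit 0x5087e2c))) (u (nat_lit 8) (k (nat_lit 0x99120)))))) (a (u (nat_lit 7) (u (nat_lit 9) (k (nat_lit 0x99eca)))) (v (nat_lit 5) (u (nat_lit 6) (k (nat_lit 0x27f84cc))))))) (v (nat_lit 4) (a (a (v (nat_lit 6) (a (u (nat_lit 9) (k (nat_lit 0x99078))) (a (u (nat_lit 8) (k (nat_lit 0x99078))) (u (nat_lit 7) (k (nat_lit 0x131fa0)))))) (u (nat_lit 6) (v (nat_lit 6) (k (nat_lit 0x133d40))))) (a (u (nat_lit 5) (a (a (v (nat_lit 9) (k (nat_lit 0x990d2))) (v (nat_lit 8) (k (nat_lit 0x990d2)))) (a (v (nat_lit 6) (k (nat_lit 0x130fb0))) (a (u (nat_lit 6) (k (nat_lit 0x131730))) (v (nat_lit 5) (k (nat_lit 0x134934))))))) (v (nat_lit 4) (u (nat_lit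 5) (k (nat_lit 0x98cdc))))))))) (a (a (u (nat_lit 4) (a (a (a (v (nat_lit 9) (v (nat_lit 9) (k (nat_lit 0x9900c)))) (v (nat_lit 8) (v (nat_lit 9) (k (nat_lit 0x990cc))))) (a (v (nat_lit 7) (a (v (nat_lit 9) (k (nat_lit 0x98f7c))) (v (nat_lit 7) (k (nat_lit 0x9960c))))) (v (nat_lit 6) (v (nat_lit 7) (k (nat_lit 0x988ec)))))) (a (a (u (nat_lit 6) (a (u (nat_lit 9) (k (nat_lit 0x3a248c))) (v (nat_lit 7) (k (nat_lit 0x98cc4))))) (v (nat_lit 5) (a (a (v (nat_lit 9) (k (nat_lit 0x98ca6))) (v (nat_lit 7) (k (nat_lit 0x98fa0)))) (a (v (nat_lit 6) (k (nat_lit 0x990d8))) (v (nat_lit 5) (k (nat_lit 0x9a86c))))))) (a (t (nat_lit 5) (nat_lit 8) (nat_lit 9) (t (nat_lit 5) (nat_lit 8) (nat_lit 9) (k (nat_lit 0x2123ee6)))) (v (nat_lit 4) (a (a (v (nat_lit 8) (k (nat_lit 0x990b4))) (v (nat_lit 7) (k (nat_lit 0x98f70)))) (a (v (nat_lit 6) (k (nat_lit 0x9835e)))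 (a (v (nat_lit 5) (k (nat_lit 0x98bda))) (v (nat_lit 4) (k (nat_lit 0x98fa0))))))))))) (v (nat_lit 3) (u (nat_lit 4) (a (a (v (nat_lit 9) (k (nat_lit 0x98e1a))) (v (nat_lit 7) (k (nat_lit 0x98e1a)))) (a (v (nat_lit 5) (k (nat_lit 0x9a2ae))) (v (nat_lit 4) (k (nat_lit 0x132b64)))))))) (a (u (nat_lit 3) (a (a (a (v (nat_lit 9) (v (nat_lit 9) (k (nat_lit 0x99018)))) (v (nat_lit 8) (v (nat_lit 9) (k (nat_lit 0x99018))))) (a (v (nat_lit 7) (a (v (nat_lit 9) (k (nat_lit 0x98f64))) (v (nat_lit 8) (k (nat_lit 0x132300))))) (a (v (nat_lit 6) (a (a (v (nat_lit 9) (k (nat_lit 0x131ee0))) (v (nat_lit 8) (k (nat_lit 0x98f64)))) (a (v (nat_lit 7) (k (nat_lit 0x99018))) (v (nat_lit 6) (k (nat_lit 0x99018)))))) (v (nat_lit 5) (a (a (v (nat_lit 9) (k (nat_lit 0x978ea))) (v (nat_lit 8) (k (nat_lit 0x9a58a)))) (a (v (nat_lit 6) (k (nat_lit 0x99120))) (v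 (nat_lit 5) (k (nat_lit 0x994d4))))))))) (a (a (t (nat_lit 5) (nat_lit 8) (nat_lit 9) (t (nat_lit 5) (nat_lit 8) (nat_lit 9) (k (nat_lit 0x9a332)))) (v (nat_lit 4) (a (a (v (nat_lit 9) (k (nat_lit 0x9987c))) (a (v (nat_lit 8) (k (nat_lit 0x9810c))) (v (nat_lit 7) (k (nat_lit 0x9871e))))) (a (v (nat_lit 6) (k (nat_lit 0x99d02))) (a (v (nat_lit 5) (k (nat_lit 0x9841e))) (v (nat_lit 4) (k (nat_lit 0x988fe)))))))) (a (u (nat_lit 4) (t (nat_lit 5) (nat_lit 8) (nat_lit 9) (k (nat_lit 0x99072)))) (a (v (nat_lit 3) (a (u (nat_lit 8) (k (nat_lit 0x994bc))) (a (u (nat_lit 7) (k (nat_lit 0x994bc))) (v (nat_lit 3) (k (nat_lit 0x131cdc)))))) (u (nat_lit 3) (a (t (nat_lit 5) (nat_lit 8) (nat_lit 9) (k (nat_lit 0x99126))) (v (nat_lit 3) (k (nat_lit 0x139584)))))))))) (v (nat_lit 2) (a (a (a (u (nat_lit 9) (v (nat_lit 9) (k (nat_lit 0x99330)))) (u (nat_lit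 8) (a (v (nat_lit 9) (k (nat_lit 0x99060))) (v (nat_lit 8) (k (nat_lit 0x99210)))))) (a (v (nat_lit 7) (a (u (nat_lit 9) (k (nat_lit 0x9920a))) (u (nat_lit 8) (k (nat_lit 0x99054))))) (a (u (nat_lit 7) (a (v (nat_lit 9) (k (nat_lit 0x989c4))) (a (v (nat_lit 8) (k (nat_lit 0x99054))) (v (nat_lit 7) (k (nat_lit 0x99210)))))) (v (nat_lit 6) (a (u (nat_lit 8) (k (nat_lit 0x989c4))) (u (nat_lit 7) (k (nat_lit 0x99060)))))))) (a (a (u (nat_lit 6) (a (v (nat_lit 8) (k (nat_lit 0x9920a))) (v (nat_lit 6) (k (nat_lit 0x99330))))) (a (u (nat_lit 5) (a (a (v (nat_lit 9) (k (nat_lit 0x98eb0))) (v (nat_lit 8) (k (nat_lit 0x994e0)))) (a (v (nat_lit 7) (k (nat_lit 0x98ea4))) (v (nat_lit 5) (k (nat_lit 0x98ee0)))))) (v (nat_lit 4) (u (nat_lit 5) (k (nat_lit 0x98cdc)))))) (a (u (nat_lit 4) (a (a (v (nat_lit 8) (k (nat_lit 0x98e80))) (v (nat_lit 6) (k (nat_lit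 0x997e6)))) (a (u (nat_lit 6) (k (nat_lit 0x98d24))) (a (v (nat_lit 5) (k (nat_lit 0x995ee))) (v (nat_lit 4) (k (nat_lit 0x98f76))))))) (a (u (nat_lit 3) (a (a (v (nat_lit 9) (k (nat_lit 0x98ee6))) (a (v (nat_lit 8) (k (nat_lit 0x98f82))) (v (nat_lit 7) (k (nat_lit 0x98f82))))) (a (a (v (nat_lit 6) (k (nat_lit 0x98ee6))) (v (nat_lit 5) (k (nat_lit 0x98f0a)))) (a (v (nat_lit 4) (k (nat_lit 0x98e80))) (v (nat_lit 3) (k (nat_lit 0x132498))))))) (v (nat_lit 2) (a (u (nat_lit 5) (k (nat_lit 0x99174))) (u (nat_lit 3) (k (nat_lit 0x1313d0)))))))))))))))))) (a (a (u (nat_lit 2) (a (a (a (v (nat_lit 9) (v (nat_lit 9) (v (nat_lit 9) (k (nat_lit 0x9902a))))) (a (v (nat_lit 8) (v (nat_lit 9) (v (nat_lit 9) (k (nat_lit 0x98eaa))))) (v (nat_lit 7) (a (v (nat_lit 9) (v (nat_lit 9) (k (nat_lit 0x98db4)))) (a (v (nat_lit 8) (a (v (nat_lit 9) (k (nat_lit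 0x98e44))) (v (nat_lit 8) (k (nat_lit 0x98d9c))))) (v (nat_lit 7) (a (v (nat_lit 9) (k (nat_lit 0x98db4))) (v (nat_lit 8) (k (nat_lit 0x98d9c)))))))))) (a (v (nat_lit 6) (a (a (v (nat_lit 9) (v (nat_lit 9) (k (nat_lit 0x98d24)))) (v (nat_lit 8) (v (nat_lit 8) (k (nat_lit 0x98db4))))) (a (v (nat_lit 7) (v (nat_lit 8) (k (nat_lit 0x98e44)))) (v (nat_lit 6) (a (a (v (nat_lit 9) (k (nat_lit 0x98d24))) (v (nat_lit 8) (k (nat_lit 0x98db4)))) (a (v (nat_lit 7) (k (nat_lit 0x98eaa))) (v (nat_lit 6) (k (nat_lit 0x9902a))))))))) (a (v (nat_lit 5) (a (a (v (nat_lit 9) (v (nat_lit 9) (k (nat_lit 0x990f6)))) (v (nat_lit 8) (a (v (nat_lit 9) (k (nat_lit 0x99486))) (v (nat_lit 8) (k (nat_lit 0x98e3e)))))) (a (v (nat_lit 7) (a (v (nat_lit 9) (k (nat_lit 0x98f40))) (a (v (nat_lit 8) (k (nat_lit 0x98ef8))) (v (nat_lit 7) (k (nat_lit 0x98e98)))))) (a (v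 (nat_lit 6) (a (a (v (nat_lit 9) (k (nat_lit 0x98e62))) (v (nat_lit 8) (k (nat_lit 0x98fee)))) (a (v (nat_lit 7) (k (nat_lit 0x9a0bc))) (v (nat_lit 6) (k (nat_lit 0x992a6)))))) (v (nat_lit 5) (a (a (v (nat_lit 9) (k (nat_lit 0x98f82))) (v (nat_lit 8) (k (nat_lit 0x98d96)))) (a (v (nat_lit 7) (k (nat_lit 0x98d90))) (v (nat_lit 6) (k (nat_lit 0x990cc)))))))))) (u (nat_lit 5) (a (v (nat_lit 5) (v (nat_lit 9) (k (nat_lit 0x9929a)))) (u (nat_lit 5) (v (nat_lit 5) (k (nat_lit 0x6bc0fc4))))))))) (a (a (t (nat_lit 5) (nat_lit 8) (nat_lit 9) (u (nat_lit 5) (a (u (nat_lit 8) (k (nat_lit 0x98fa6))) (u (nat_lit 6) (k (nat_lit 0x32501f4)))))) (a (v (nat_lit 4) (a (a (v (nat_lit 8) (a (v (nat_lit 9) (k (nat_lit 0x990cc))) (v (nat_lit 8) (k (nat_lit 0x9900c))))) (a (v (nat_lit 7) (a (v (nat_lit 8) (k (nat_lit 0x98f7c))) (v (nat_lit 7) (k (nat_lit 0x9960c)))))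 (v (nat_lit 6) (v (nat_lit 7) (k (nat_lit 0x988ec)))))) (a (a (u (nat_lit 6) (a (u (nat_lit 8) (k (nat_lit 0x3a248c))) (v (nat_lit 7) (k (nat_lit 0x98cc4))))) (v (nat_lit 5) (a (a (v (nat_lit 8) (k (nat_lit 0x98ca6))) (v (nat_lit 7) (k (nat_lit 0x98fa0)))) (a (v (nat_lit 6) (k (nat_lit 0x990d8))) (v (nat_lit 5) (k (nat_lit 0x9a86c))))))) (a (t (nat_lit 5) (nat_lit 8) (nat_lit 9) (t (nat_lit 5) (nat_lit 8) (nat_lit 9) (k (nat_lit 0x2123ee6)))) (v (nat_lit 4) (a (a (v (nat_lit 9) (k (nat_lit 0x98e80))) (v (nat_lit 6) (k (nat_lit 0x997e6)))) (a (u (nat_lit 6) (k (nat_lit 0x98d24))) (v (nat_lit 5) (k (nat_lit 0x995ee)))))))))) (v (nat_lit 3) (a (a (a (v (nat_lit 8) (a (v (nat_lit 9) (k (nat_lit 0x99018))) (v (nat_lit 8) (k (nat_lit 0x99018))))) (v (nat_lit 7) (a (v (nat_lit 9) (k (nat_lit 0x98f64))) (a (v (nat_lit 8) (k (nat_lit 0x131ee0)))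 (v (nat_lit 7) (k (nat_lit 0x99018))))))) (a (v (nat_lit 6) (a (v (nat_lit 9) (k (nat_lit 0x132300))) (a (v (nat_lit 8) (k (nat_lit 0x98f64))) (v (nat_lit 7) (k (nat_lit 0x99018)))))) (v (nat_lit 5) (a (a (v (nat_lit 9) (k (nat_lit 0x9a58a))) (v (nat_lit 8) (k (nat_lit 0x978ea)))) (a (v (nat_lit 7) (k (nat_lit 0x99120))) (v (nat_lit 5) (k (nat_lit 0x994d4)))))))) (a (a (t (nat_lit 5) (nat_lit 8) (nat_lit 9) (t (nat_lit 5) (nat_lit 8) (nat_lit 9) (k (nat_lit 0x9a332)))) (v (nat_lit 4) (a (a (v (nat_lit 9) (k (nat_lit 0x9871e))) (v (nat_lit 8) (k (nat_lit 0x99d02)))) (a (v (nat_lit 7) (k (nat_lit 0x9987c))) (a (v (nat_lit 6) (k (nat_lit 0x9810c))) (v (nat_lit 4) (k (nat_lit 0x988fe)))))))) (a (u (nat_lit 4) (u (nat_lit 5) (k (nat_lit 0x989fa)))) (v (nat_lit 3) (a (a (v (nat_lit 9) (k (nat_lit 0x98f82))) (a (v (nat_lit 8) (k (nat_lit 0x98ee6)))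 (v (nat_lit 7) (k (nat_lit 0x98ee6))))) (a (a (v (nat_lit 6) (k (nat_lit 0x98f82))) (v (nat_lit 5) (k (nat_lit 0x98f0a)))) (a (v (nat_lit 4) (k (nat_lit 0x98e80))) (v (nat_lit 3) (k (nat_lit 0x1313d0))))))))))))) (a (u (nat_lit 3) (a (t (nat_lit 5) (nat_lit 8) (nat_lit 9) (u (nat_lit 5) (k (nat_lit 0x132edc)))) (u (nat_lit 4) (a (v (nat_lit 9) (k (nat_lit 0x99042))) (v (nat_lit 7) (k (nat_lit 0x99042))))))) (a (v (nat_lit 2) (a (a (v (nat_lit 6) (v (nat_lit 9) (k (nat_lit 0x131d78)))) (a (u (nat_lit 6) (u (nat_lit 9) (k (nat_lit 0x2129ef38)))) (v (nat_lit 5) (a (v (nat_lit 6) (k (nat_lit 0x994aa))) (u (nat_lit 6) (k (nat_lit 0x998b2))))))) (a (v (nat_lit 4) (a (a (v (nat_lit 9) (k (nat_lit 0x990b4))) (v (nat_lit 7) (k (nat_lit 0x98f70)))) (a (v (nat_lit 6) (k (nat_lit 0x9835e))) (a (v (nat_lit 5) (k (nat_lit 0x98bda))) (v (nat_lit 4) (k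 (nat_lit 0x98f76))))))) (a (v (nat_lit 3) (a (u (nat_lit 9) (k (nat_lit 0x994bc))) (a (u (nat_lit 6) (k (nat_lit 0x994bc))) (v (nat_lit 3) (k (nat_lit 0x132498)))))) (v (nat_lit 2) (a (a (a (v (nat_lit 9) (k (nat_lit 0x992f4))) (v (nat_lit 8) (k (nat_lit 0x98ef8)))) (a (v (nat_lit 7) (k (nat_lit 0x98ef8))) (v (nat_lit 6) (k (nat_lit 0x992f4))))) (a (a (v (nat_lit 5) (k (nat_lit 0x98f46))) (v (nat_lit 4) (k (nat_lit 0x98fa0)))) (a (v (nat_lit 3) (k (nat_lit 0x131cdc))) (v (nat_lit 2) (k (nat_lit 0x132a80))))))))))) (u (nat_lit 2) (a (a (v (nat_lit 7) (v (nat_lit 9) (k (nat_lit 0x9850e)))) (a (v (nat_lit 6) (v (nat_lit 8) (k (nat_lit 0x9850e)))) (u (nat_lit 5) (u (nat_lit 8) (k (nat_lit 0x99318)))))) (a (v (nat_lit 3) (t (nat_lit 5) (nat_lit 8) (nat_lit 9) (k (nat_lit 0x99126)))) (a (v (nat_lit 2) (a (v (nat_lit 5) (k (nat_lit 0x9da6a)))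 (v (nat_lit 3) (k (nat_lit 0x139584))))) (u (nat_lit 2) (v (nat_lit 2) (k (nat_lit 0x25fd70))))))))))))) (a (v (nat_lit 1) (a (a (a (a (u (nat_lit 9) (v (nat_lit 9) (v (nat_lit 9) (k (nat_lit 0x98d8a))))) (v (nat_lit 8) (v (nat_lit 8) (u (nat_lit 9) (k (nat_lit 0x9944a)))))) (a (u (nat_lit 8) (a (v (nat_lit 9) (v (nat_lit 9) (k (nat_lit 0x98ece)))) (v (nat_lit 8) (a (v (nat_lit 9) (k (nat_lit 0x98ffa))) (v (nat_lit 8) (k (nat_lit 0x98f7c))))))) (v (nat_lit 7) (a (u (nat_lit 9) (v (nat_lit 9) (k (nat_lit 0x98ffa)))) (u (nat_lit 8) (v (nat_lit 9) (k (nat_lit 0x98f5e)))))))) (a (a (u (nat_lit 7) (v (nat_lit 7) (a (v (nat_lit 9) (k (nat_lit 0x98ffa))) (v (nat_lit 7) (k (nat_lit 0x98d8a)))))) (v (nat_lit 6) (v (nat_lit 6) (u (nat_lit 7) (k (nat_lit 0x9944a)))))) (a (u (nat_lit 6) (a (v (nat_lit 7) (a (v (nat_lit 9) (k (nat_lit 0x98f5e))) (v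 (nat_lit 7) (k (nat_lit 0x98ece))))) (v (nat_lit 6) (a (v (nat_lit 7) (k (nat_lit 0x98ffa))) (v (nat_lit 6) (k (nat_lit 0x98f7c))))))) (v (nat_lit 5) (a (a (u (nat_lit 9) (v (nat_lit 9) (k (nat_lit 0x99012)))) (u (nat_lit 8) (v (nat_lit 9) (k (nat_lit 0x988f8))))) (a (v (nat_lit 7) (u (nat_lit 8) (k (nat_lit 0x9a68c)))) (a (u (nat_lit 7) (v (nat_lit 7) (k (nat_lit 0x98808)))) (u (nat_lit 6) (v (nat_lit 7) (k (nat_lit 0x6e75b0e))))))))))) (a (a (a (u (nat_lit 5) (a (v (nat_lit 7) (a (v (nat_lit 9) (k (nat_lit 0x98f58))) (a (v (nat_lit 8) (k (nat_lit 0x97ea2))) (v (nat_lit 7) (k (nat_lit 0x99564)))))) (a (v (nat_lit 5) (a (a (v (nat_lit 9) (k (nat_lit 0x95970))) (u (nat_lit 9) (k (nat_lit 0x97db2)))) (a (v (nat_lit 7) (k (nat_lit 0x98ea4))) (v (nat_lit 5) (k (nat_lit 0x98ebc)))))) (u (nat_lit 5) (v (nat_lit 9) (k (nat_lit 0x96c5a)))))))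 (t (nat_lit 5) (nat_lit 8) (nat_lit 9) (a (a (u (nat_lit 9) (u (nat_lit 9) (k (nat_lit 0x4a97b28)))) (u (nat_lit 8) (a (u (nat_lit 9) (k (nat_lit 0x5087e2c))) (u (nat_lit 8) (k (nat_lit 0x99120)))))) (a (u (nat_lit 6) (u (nat_lit 9) (k (nat_lit 0x99eca)))) (v (nat_lit 5) (u (nat_lit 7) (k (nat_lit 0x27f84cc)))))))) (a (u (nat_lit 4) (a (a (a (v (nat_lit 9) (v (nat_lit 9) (k (nat_lit 0x99018)))) (v (nat_lit 8) (v (nat_lit 9) (k (nat_lit 0x99018))))) (a (v (nat_lit 7) (a (v (nat_lit 9) (k (nat_lit 0x131ee0))) (a (v (nat_lit 8) (k (nat_lit 0x98f64))) (v (nat_lit 7) (k (nat_lit 0x99018)))))) (v (nat_lit 6) (a (v (nat_lit 9) (k (nat_lit 0x98f64))) (a (v (nat_lit 8) (k (nat_lit 0x132300))) (v (nat_lit 7) (k (nat_lit 0x99018)))))))) (a (a (v (nat_lit 5) (a (a (v (nat_lit 9) (k (nat_lit 0x978ea))) (v (nat_lit 8) (k (nat_lit 0x9a58a)))) (a (v (nat_lit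 7) (k (nat_lit 0x99120))) (v (nat_lit 5) (k (nat_lit 0x994d4)))))) (t (nat_lit 5) (nat_lit 8) (nat_lit 9) (t (nat_lit 5) (nat_lit 8) (nat_lit 9) (k (nat_lit 0x9a332))))) (a (v (nat_lit 4) (a (u (nat_lit 8) (k (nat_lit 0x994bc))) (a (u (nat_lit 6) (k (nat_lit 0x994bc))) (v (nat_lit 4) (k (nat_lit 0x131cdc)))))) (u (nat_lit 4) (a (t (nat_lit 5) (nat_lit 8) (nat_lit 9) (k (nat_lit 0x99126))) (v (nat_lit 4) (k (nat_lit 0x139584))))))))) (v (nat_lit 3) (a (a (v (nat_lit 7) (a (u (nat_lit 9) (k (nat_lit 0x99078))) (u (nat_lit 8) (k (nat_lit 0x99078))))) (a (u (nat_lit 7) (v (nat_lit 7) (k (nat_lit 0x133d40)))) (u (nat_lit 6) (v (nat_lit 7) (k (nat_lit 0x131fa0)))))) (a (u (nat_lit 5) (a (a (v (nat_lit 9) (k (nat_lit 0x990d2))) (v (nat_lit 8) (k (nat_lit 0x990d2)))) (a (v (nat_lit 7) (k (nat_lit 0x130fb0))) (a (u (nat_lit 7) (k (nat_lit 0x131730)))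 (v (nat_lit 5) (k (nat_lit 0x134934))))))) (a (u (nat_lit 4) (a (a (v (nat_lit 9) (k (nat_lit 0x9987c))) (v (nat_lit 8) (k (nat_lit 0x9810c)))) (a (v (nat_lit 7) (k (nat_lit 0x99d02))) (a (v (nat_lit 6) (k (nat_lit 0x9871e))) (v (nat_lit 5) (k (nat_lit 0x9841e))))))) (v (nat_lit 3) (a (u (nat_lit 5) (k (nat_lit 0x98cdc))) (u (nat_lit 4) (k (nat_lit 0x988fe))))))))))) (a (a (u (nat_lit 3) (a (a (a (v (nat_lit 9) (v (nat_lit 9) (k (nat_lit 0x9900c)))) (v (nat_lit 8) (v (nat_lit 9) (k (nat_lit 0x990cc))))) (a (u (nat_lit 7) (u (nat_lit 9) (k (nat_lit 0x3a248c)))) (v (nat_lit 6) (a (a (v (nat_lit 9) (k (nat_lit 0x98f7c))) (v (nat_lit 7) (k (nat_lit 0x988ec)))) (a (u (nat_lit 7) (k (nat_lit 0x98cc4))) (v (nat_lit 6) (k (nat_lit 0x9960c)))))))) (a (a (v (nat_lit 5) (a (a (v (nat_lit 9) (k (nat_lit 0x98ca6))) (v (nat_lit 7) (k (nat_lit 0x990d8))))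 (a (v (nat_lit 6) (k (nat_lit 0x98fa0))) (v (nat_lit 5) (k (nat_lit 0x9a86c)))))) (t (nat_lit 5) (nat_lit 8) (nat_lit 9) (t (nat_lit 5) (nat_lit 8) (nat_lit 9) (k (nat_lit 0x2123ee6))))) (a (v (nat_lit 4) (a (v (nat_lit 9) (k (nat_lit 0x98e1a))) (a (v (nat_lit 6) (k (nat_lit 0x98e1a))) (v (nat_lit 5) (k (nat_lit 0x9a2ae)))))) (a (u (nat_lit 4) (t (nat_lit 5) (nat_lit 8) (nat_lit 9) (k (nat_lit 0x99072)))) (v (nat_lit 3) (a (a (v (nat_lit 8) (k (nat_lit 0x990b4))) (a (v (nat_lit 7) (k (nat_lit 0x9835e))) (v (nat_lit 6) (k (nat_lit 0x98f70))))) (a (v (nat_lit 5) (k (nat_lit 0x98bda))) (a (v (nat_lit 4) (k (nat_lit 0x132b64))) (v (nat_lit 3) (k (nat_lit 0x98fa0)))))))))))) (v (nat_lit 2) (a (a (a (u (nat_lit 9) (v (nat_lit 9) (k (nat_lit 0x133d40)))) (u (nat_lit 8) (v (nat_lit 9) (k (nat_lit 0x131fa0))))) (a (u (nat_lit 7) (v (nat_lit 9)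 (k (nat_lit 0x99078)))) (u (nat_lit 6) (v (nat_lit 9) (k (nat_lit 0x99078)))))) (a (a (u (nat_lit 4) (a (a (v (nat_lit 9) (k (nat_lit 0x99d02))) (v (nat_lit 8) (k (nat_lit 0x9871e)))) (a (v (nat_lit 7) (k (nat_lit 0x9987c))) (v (nat_lit 6) (k (nat_lit 0x9810c)))))) (v (nat_lit 3) (u (nat_lit 4) (k (nat_lit 0xaaa6f9c))))) (a (u (nat_lit 3) (a (a (v (nat_lit 9) (k (nat_lit 0x99d02))) (v (nat_lit 8) (k (nat_lit 0x9871e)))) (a (v (nat_lit 7) (k (nat_lit 0x9810c))) (a (v (nat_lit 6) (k (nat_lit 0x9987c))) (v (nat_lit 4) (k (nat_lit 0xaaa6f9c))))))) (v (nat_lit 2) (a (u (nat_lit 4) (k (nat_lit 0x988fe))) (u (nat_lit 3) (k (nat_lit 0x98e80)))))))))) (a (u (nat_lit 2) (a (a (a (v (nat_lit 8) (a (v (nat_lit 9) (k (nat_lit 0x988ec))) (a (u (nat_lit 9) (k (nat_lit 0x98cc4))) (v (nat_lit 8) (k (nat_lit 0x9960c)))))) (v (nat_lit 7) (a (v (nat_lit 8)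 (k (nat_lit 0x98f7c))) (v (nat_lit 7) (k (nat_lit 0x9900c)))))) (a (u (nat_lit 7) (u (nat_lit 9) (k (nat_lit 0x3a248c)))) (v (nat_lit 6) (v (nat_lit 7) (k (nat_lit 0x990cc)))))) (a (a (v (nat_lit 5) (a (a (v (nat_lit 9) (k (nat_lit 0x98ebc))) (v (nat_lit 8) (k (nat_lit 0x9900c)))) (a (v (nat_lit 7) (k (nat_lit 0x99b2e))) (a (v (nat_lit 6) (k (nat_lit 0x9863a))) (v (nat_lit 5) (k (nat_lit 0x171e36d0))))))) (v (nat_lit 4) (a (v (nat_lit 8) (k (nat_lit 0x98e1a))) (a (v (nat_lit 7) (k (nat_lit 0x98e1a))) (v (nat_lit 5) (k (nat_lit 0x9a2ae))))))) (a (u (nat_lit 4) (u (nat_lit 5) (k (nat_lit 0x989fa)))) (a (v (nat_lit 3) (a (a (v (nat_lit 9) (k (nat_lit 0x9810c))) (a (v (nat_lit 8) (k (nat_lit 0x9987c))) (v (nat_lit 7) (k (nat_lit 0x99d02))))) (a (a (v (nat_lit 6) (k (nat_lit 0x9871e))) (v (nat_lit 5) (k (nat_lit 0x9841e)))) (a (v (nat_lit 4)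 (k (nat_lit 0xaaa6f9c))) (v (nat_lit 3) (k (nat_lit 0x98e80))))))) (v (nat_lit 2) (a (a (v (nat_lit 9) (k (nat_lit 0x9835e))) (v (nat_lit 8) (k (nat_lit 0x98f70)))) (a (v (nat_lit 6) (k (nat_lit 0x990b4))) (a (v (nat_lit 4) (k (nat_lit 0x132b64))) (v (nat_lit 2) (k (nat_lit 0x98fa0)))))))))))) (v (nat_lit 1) (a (a (a (u (nat_lit 9) (v (nat_lit 9) (k (nat_lit 0x99330)))) (a (u (nat_lit 8) (a (v (nat_lit 9) (k (nat_lit 0x99060))) (v (nat_lit 8) (k (nat_lit 0x99210))))) (v (nat_lit 7) (u (nat_lit 8) (k (nat_lit 0x989c4)))))) (a (u (nat_lit 7) (a (v (nat_lit 8) (k (nat_lit 0x9920a))) (v (nat_lit 7) (k (nat_lit 0x99330))))) (a (v (nat_lit 6) (a (u (nat_lit 9) (k (nat_lit 0x9920a))) (u (nat_lit 8) (k (nat_lit 0x99054))))) (u (nat_lit 6) (a (a (v (nat_lit 9) (k (nat_lit 0x989c4))) (v (nat_lit 8) (k (nat_lit 0x99054)))) (a (v (nat_lit 7) (k (nat_lit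 0x99060))) (v (nat_lit 6) (k (nat_lit 0x99210))))))))) (a (a (u (nat_lit 5) (a (a (v (nat_lit 9) (k (nat_lit 0x98eb0))) (v (nat_lit 8) (k (nat_lit 0x994e0)))) (a (v (nat_lit 6) (k (nat_lit 0x98ea4))) (v (nat_lit 5) (k (nat_lit 0x98ee0)))))) (a (u (nat_lit 4) (a (a (v (nat_lit 9) (k (nat_lit 0x98ee6))) (a (v (nat_lit 8) (k (nat_lit 0x98f82))) (v (nat_lit 7) (k (nat_lit 0x98ee6))))) (a (v (nat_lit 6) (k (nat_lit 0x98f82))) (a (v (nat_lit 5) (k (nat_lit 0x98f0a))) (v (nat_lit 4) (k (nat_lit 0x132498))))))) (v (nat_lit 3) (a (u (nat_lit 5) (k (nat_lit 0x98cdc))) (u (nat_lit 4) (k (nat_lit 0x98e80))))))) (a (a (u (nat_lit 3) (a (a (v (nat_lit 8) (k (nat_lit 0x98e80))) (v (nat_lit 7) (k (nat_lit 0x997e6)))) (a (u (nat_lit 7) (k (nat_lit 0x98d24))) (a (v (nat_lit 5) (k (nat_lit 0x995ee))) (v (nat_lit 3) (k (nat_lit 0x98f76))))))) (v (nat_lit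 2) (a (u (nat_lit 4) (k (nat_lit 0x98e80))) (u (nat_lit 3) (k (nat_lit 0x988fe)))))) (a (u (nat_lit 2) (a (a (v (nat_lit 9) (k (nat_lit 0x997e6))) (a (u (nat_lit 9) (k (nat_lit 0x98d24))) (v (nat_lit 6) (k (nat_lit 0x98e80))))) (a (v (nat_lit 5) (k (nat_lit 0x98f1c))) (a (v (nat_lit 3) (k (nat_lit 0x988fe))) (v (nat_lit 2) (k (nat_lit 0x98f76))))))) (v (nat_lit 1) (a (u (nat_lit 5) (k (nat_lit 0x99174))) (u (nat_lit 4) (k (nat_lit 0x1313d0))))))))))))))) (u (nat_lit 1) (a (a (a (v (nat_lit 9) (v (nat_lit 9) (v (nat_lit 9) (k (nat_lit 0x9902a))))) (a (v (nat_lit 8) (v (nat_lit 9) (v (nat_lit 9) (k (nat_lit 0x98eaa))))) (v (nat_lit 7) (a (v (nat_lit 9) (v (nat_lit 9) (k (nat_lit 0x98d24)))) (a (v (nat_lit 8) (v (nat_lit 8) (k (nat_lit 0x98db4)))) (v (nat_lit 7) (a (v (nat_lit 9) (k (nat_lit 0x98d24))) (a (v (nat_lit 8) (k (nat_lit 0x98db4)))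 (v (nat_lit 7) (k (nat_lit 0x9902a))))))))))) (a (a (v (nat_lit 6) (a (a (v (nat_lit 9) (v (nat_lit 9) (k (nat_lit 0x98db4)))) (v (nat_lit 8) (a (v (nat_lit 9) (k (nat_lit 0x98e44))) (v (nat_lit 8) (k (nat_lit 0x98d9c)))))) (a (v (nat_lit 7) (a (v (nat_lit 8) (k (nat_lit 0x98e44))) (v (nat_lit 7) (k (nat_lit 0x98eaa))))) (v (nat_lit 6) (a (v (nat_lit 9) (k (nat_lit 0x98db4))) (v (nat_lit 8) (k (nat_lit 0x98d9c)))))))) (v (nat_lit 5) (a (a (v (nat_lit 9) (v (nat_lit 9) (k (nat_lit 0x990f6)))) (v (nat_lit 8) (a (v (nat_lit 9) (k (nat_lit 0x99486))) (v (nat_lit 8) (k (nat_lit 0x98e3e)))))) (a (v (nat_lit 7) (a (v (nat_lit 9) (k (nat_lit 0x98e62))) (a (v (nat_lit 8) (k (nat_lit 0x98fee))) (v (nat_lit 7) (k (nat_lit 0x992a6)))))) (a (v (nat_lit 6) (a (a (v (nat_lit 9) (k (nat_lit 0x98f40))) (v (nat_lit 8) (k (nat_lit 0x98ef8)))) (a (v (nat_lit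 7) (k (nat_lit 0x9a0bc))) (v (nat_lit 6) (k (nat_lit 0x98e98)))))) (v (nat_lit 5) (a (a (v (nat_lit 9) (k (nat_lit 0x98f82))) (v (nat_lit 8) (k (nat_lit 0x98d96)))) (a (v (nat_lit 7) (k (nat_lit 0x990cc))) (v (nat_lit 6) (k (nat_lit 0x98d90))))))))))) (a (u (nat_lit 5) (a (v (nat_lit 5) (v (nat_lit 9) (k (nat_lit 0x9929a)))) (u (nat_lit 5) (v (nat_lit 5) (k (nat_lit 0x6bc0fc4)))))) (t (nat_lit 5) (nat_lit 8) (nat_lit 9) (u (nat_lit 5) (a (u (nat_lit 8) (k (nat_lit 0x98fa6))) (u (nat_lit 7) (k (nat_lit 0x32501f4))))))))) (a (a (a (v (nat_lit 4) (a (a (v (nat_lit 8) (a (v (nat_lit 9) (k (nat_lit 0x99018))) (v (nat_lit 8) (k (nat_lit 0x99018))))) (a (v (nat_lit 7) (a (v (nat_lit 9) (k (nat_lit 0x132300))) (v (nat_lit 8) (k (nat_lit 0x98f64))))) (v (nat_lit 6) (a (a (v (nat_lit 9) (k (nat_lit 0x98f64))) (v (nat_lit 8) (k (nat_lit 0x131ee0))))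 (a (v (nat_lit 7) (k (nat_lit 0x99018))) (v (nat_lit 6) (k (nat_lit 0x99018)))))))) (a (v (nat_lit 5) (a (a (v (nat_lit 9) (k (nat_lit 0x9a58a))) (v (nat_lit 8) (k (nat_lit 0x978ea)))) (a (v (nat_lit 6) (k (nat_lit 0x99120))) (v (nat_lit 5) (k (nat_lit 0x994d4)))))) (a (t (nat_lit 5) (nat_lit 8) (nat_lit 9) (t (nat_lit 5) (nat_lit 8) (nat_lit 9) (k (nat_lit 0x9a332)))) (v (nat_lit 4) (a (a (v (nat_lit 9) (k (nat_lit 0x98f82))) (a (v (nat_lit 8) (k (nat_lit 0x98ee6))) (v (nat_lit 7) (k (nat_lit 0x98f82))))) (a (v (nat_lit 6) (k (nat_lit 0x98ee6))) (a (v (nat_lit 5) (k (nat_lit 0x98f0a))) (v (nat_lit 4) (k (nat_lit 0x1313d0))))))))))) (u (nat_lit 4) (t (nat_lit 5) (nat_lit 8) (nat_lit 9) (u (nat_lit 5) (k (nat_lit 0x132edc)))))) (a (v (nat_lit 3) (a (a (v (nat_lit 8) (a (v (nat_lit 9) (k (nat_lit 0x990cc))) (v (nat_lit 8) (k (nat_lit 0x9900c)))))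 (a (u (nat_lit 7) (u (nat_lit 8) (k (nat_lit 0x3a248c)))) (v (nat_lit 6) (a (a (v (nat_lit 8) (k (nat_lit 0x98f7c))) (v (nat_lit 7) (k (nat_lit 0x988ec)))) (a (u (nat_lit 7) (k (nat_lit 0x98cc4))) (v (nat_lit 6) (k (nat_lit 0x9960c)))))))) (a (a (v (nat_lit 5) (a (a (v (nat_lit 8) (k (nat_lit 0x98ca6))) (v (nat_lit 7) (k (nat_lit 0x990d8)))) (a (v (nat_lit 6) (k (nat_lit 0x98fa0))) (v (nat_lit 5) (k (nat_lit 0x9a86c)))))) (t (nat_lit 5) (nat_lit 8) (nat_lit 9) (t (nat_lit 5) (nat_lit 8) (nat_lit 9) (k (nat_lit 0x2123ee6))))) (a (v (nat_lit 4) (a (a (v (nat_lit 9) (k (nat_lit 0x9871e))) (v (nat_lit 8) (k (nat_lit 0x99d02)))) (a (v (nat_lit 7) (k (nat_lit 0x9810c))) (a (v (nat_lit 6) (k (nat_lit 0x9987c))) (v (nat_lit 4) (k (nat_lit 0x98e80))))))) (v (nat_lit 3) (a (a (v (nat_lit 9) (k (nat_lit 0x98e80))) (v (nat_lit 7) (k (nat_lit 0x997e6))))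 (a (u (nat_lit 7) (k (nat_lit 0x98d24))) (a (v (nat_lit 5) (k (nat_lit 0x995ee))) (v (nat_lit 4) (k (nat_lit 0x988fe))))))))))) (u (nat_lit 3) (a (v (nat_lit 4) (u (nat_lit 5) (k (nat_lit 0x989fa)))) (u (nat_lit 4) (a (v (nat_lit 9) (k (nat_lit 0x99042))) (v (nat_lit 6) (k (nat_lit 0x99042))))))))) (a (a (v (nat_lit 2) (a (a (a (v (nat_lit 8) (a (v (nat_lit 9) (k (nat_lit 0x988ec))) (a (u (nat_lit 9) (k (nat_lit 0x98cc4))) (v (nat_lit 8) (k (nat_lit 0x9960c)))))) (v (nat_lit 6) (a (v (nat_lit 8) (k (nat_lit 0x98f7c))) (a (v (nat_lit 7) (k (nat_lit 0x990cc))) (v (nat_lit 6) (k (nat_lit 0x9900c))))))) (a (u (nat_lit 6) (u (nat_lit 9) (k (nat_lit 0x3a248c)))) (v (nat_lit 5) (a (a (v (nat_lit 9) (k (nat_lit 0x98ebc))) (v (nat_lit 8) (k (nat_lit 0x9900c)))) (a (v (nat_lit 7) (k (nat_lit 0x9863a))) (a (v (nat_lit 6) (k (nat_lit 0x99b2e))) (v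 (nat_lit 5) (k (nat_lit 0x171e36d0))))))))) (a (a (v (nat_lit 4) (a (a (v (nat_lit 9) (k (nat_lit 0x9810c))) (a (v (nat_lit 8) (k (nat_lit 0x9987c))) (v (nat_lit 7) (k (nat_lit 0x9871e))))) (a (v (nat_lit 6) (k (nat_lit 0x99d02))) (a (v (nat_lit 5) (k (nat_lit 0x9841e))) (v (nat_lit 4) (k (nat_lit 0x98e80))))))) (v (nat_lit 3) (a (a (v (nat_lit 8) (k (nat_lit 0x98e1a))) (v (nat_lit 6) (k (nat_lit 0x98e1a)))) (a (v (nat_lit 5) (k (nat_lit 0x9a2ae))) (v (nat_lit 4) (k (nat_lit 0xaaa6f9c))))))) (a (u (nat_lit 3) (u (nat_lit 5) (k (nat_lit 0x989fa)))) (v (nat_lit 2) (a (a (v (nat_lit 9) (k (nat_lit 0x997e6))) (u (nat_lit 9) (k (nat_lit 0x98d24)))) (a (v (nat_lit 7) (k (nat_lit 0x98e80))) (a (v (nat_lit 5) (k (nat_lit 0x98f1c))) (v (nat_lit 4) (k (nat_lit 0x988fe))))))))))) (u (nat_lit 2) (a (a (v (nat_lit 4) (t (nat_lit 5) (nat_lit 8) (nat_lit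 9) (k (nat_lit 0x99072)))) (u (nat_lit 4) (a (v (nat_lit 8) (k (nat_lit 0x99042))) (v (nat_lit 7) (k (nat_lit 0x99042)))))) (a (v (nat_lit 3) (t (nat_lit 5) (nat_lit 8) (nat_lit 9) (k (nat_lit 0x99072)))) (a (u (nat_lit 3) (a (v (nat_lit 8) (k (nat_lit 0x99042))) (v (nat_lit 6) (k (nat_lit 0x99042))))) (v (nat_lit 2) (t (nat_lit 5) (nat_lit 8) (nat_lit 9) (k (nat_lit 0x3299ac0))))))))) (a (v (nat_lit 1) (a (a (a (v (nat_lit 7) (v (nat_lit 9) (k (nat_lit 0x131d78)))) (u (nat_lit 7) (u (nat_lit 9) (k (nat_lit 0x2129ef38))))) (a (v (nat_lit 5) (a (v (nat_lit 7) (k (nat_lit 0x994aa))) (u (nat_lit 7) (k (nat_lit 0x998b2))))) (v (nat_lit 4) (a (u (nat_lit 9) (k (nat_lit 0x994bc))) (a (u (nat_lit 7) (k (nat_lit 0x994bc))) (v (nat_lit 4) (k (nat_lit 0x132498)))))))) (a (a (v (nat_lit 3) (a (a (v (nat_lit 9) (k (nat_lit 0x990b4))) (v (nat_lit 7)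 (k (nat_lit 0x9835e)))) (a (v (nat_lit 6) (k (nat_lit 0x98f70))) (a (v (nat_lit 5) (k (nat_lit 0x98bda))) (v (nat_lit 3) (k (nat_lit 0x98f76))))))) (v (nat_lit 2) (a (a (v (nat_lit 9) (k (nat_lit 0x9835e))) (v (nat_lit 8) (k (nat_lit 0x98f70)))) (a (v (nat_lit 7) (k (nat_lit 0x990b4))) (a (v (nat_lit 3) (k (nat_lit 0x132b64))) (v (nat_lit 2) (k (nat_lit 0x98f76)))))))) (a (u (nat_lit 2) (t (nat_lit 5) (nat_lit 8) (nat_lit 9) (k (nat_lit 0x3299ac0)))) (v (nat_lit 1) (a (a (a (v (nat_lit 9) (k (nat_lit 0x992f4))) (v (nat_lit 8) (k (nat_lit 0x98ef8)))) (a (v (nat_lit 7) (k (nat_lit 0x992f4))) (v (nat_lit 6) (k (nat_lit 0x98ef8))))) (a (a (v (nat_lit 5) (k (nat_lit 0x98f46))) (v (nat_lit 4) (k (nat_lit 0x131cdc)))) (a (v (nat_lit 3) (k (nat_lit 0x98fa0))) (a (v (nat_lit 2) (k (nat_lit 0x98fa0))) (v (nat_lit 1) (k (nat_lit 0x132a80))))))))))))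 (u (nat_lit 1) (a (a (v (nat_lit 7) (v (nat_lit 8) (k (nat_lit 0x9850e)))) (a (v (nat_lit 6) (v (nat_lit 9) (k (nat_lit 0x9850e)))) (u (nat_lit 5) (u (nat_lit 8) (k (nat_lit 0x99318)))))) (a (v (nat_lit 4) (t (nat_lit 5) (nat_lit 8) (nat_lit 9) (k (nat_lit 0x99126)))) (a (v (nat_lit 1) (a (v (nat_lit 5) (k (nat_lit 0x9da6a))) (v (nat_lit 4) (k (nat_lit 0x139584))))) (u (nat_lit 1) (v (nat_lit 1) (k (nat_lit 0x25fd70))))))))))))))) (a (v (nat_lit 0) (a (a (a (a (v (nat_lit 8) (v (nat_lit 8) (u (nat_lit 9) (k (nat_lit 0x131808))))) (u (nat_lit 8) (v (nat_lit 9) (v (nat_lit 9) (k (nat_lit 0x131808)))))) (a (v (nat_lit 7) (a (v (nat_lit 8) (u (nat_lit 9) (k (nat_lit 0x98f34)))) (u (nat_lit 8) (v (nat_lit 9) (k (nat_lit 0x98f34)))))) (u (nat_lit 7) (v (nat_lit 7) (a (v (nat_lit 9) (k (nat_lit 0x9916e))) (v (nat_lit 8) (k (nat_lit 0x9916e))))))))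 (a (a (v (nat_lit 6) (a (v (nat_lit 8) (u (nat_lit 9) (k (nat_lit 0x98f34)))) (a (u (nat_lit 8) (v (nat_lit 9) (k (nat_lit 0x98f34)))) (u (nat_lit 7) (a (v (nat_lit 9) (k (nat_lit 0x990a8))) (a (v (nat_lit 8) (k (nat_lit 0x990a8))) (v (nat_lit 7) (k (nat_lit 0x1327f8))))))))) (u (nat_lit 6) (a (v (nat_lit 7) (a (v (nat_lit 9) (k (nat_lit 0x990a8))) (v (nat_lit 8) (k (nat_lit 0x990a8))))) (v (nat_lit 6) (a (v (nat_lit 9) (k (nat_lit 0x9916e))) (a (v (nat_lit 8) (k (nat_lit 0x9916e))) (v (nat_lit 7) (k (nat_lit 0x1327f8))))))))) (a (v (nat_lit 5) (a (a (u (nat_lit 9) (v (nat_lit 9) (k (nat_lit 0x133620)))) (a (v (nat_lit 8) (u (nat_lit 9) (k (nat_lit 0x1335cc)))) (u (nat_lit 8) (a (v (nat_lit 9) (k (nat_lit 0x1335cc))) (v (nat_lit 8) (k (nat_lit 0x133620))))))) (a (u (nat_lit 7) (v (nat_lit 7) (k (nat_lit 0x133620)))) (a (v (nat_lit 6) (u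 (nat_lit 7) (k (nat_lit 0x1335cc)))) (u (nat_lit 6) (a (v (nat_lit 7) (k (nat_lit 0x1335cc))) (v (nat_lit 6) (k (nat_lit 0x133620))))))))) (u (nat_lit 5) (a (a (a (u (nat_lit 9) (v (nat_lit 9) (k (nat_lit 0x133d10)))) (v (nat_lit 8) (v (nat_lit 9) (k (nat_lit 0x25ff98))))) (a (u (nat_lit 8) (v (nat_lit 8) (k (nat_lit 0x133d10)))) (v (nat_lit 7) (a (v (nat_lit 9) (k (nat_lit 0x99276))) (v (nat_lit 8) (k (nat_lit 0x99276))))))) (a (a (u (nat_lit 7) (a (u (nat_lit 9) (k (nat_lit 0x9899a))) (u (nat_lit 8) (k (nat_lit 0x9899a))))) (v (nat_lit 6) (a (v (nat_lit 9) (k (nat_lit 0x99276))) (v (nat_lit 8) (k (nat_lit 0x99276)))))) (a (u (nat_lit 6) (a (u (nat_lit 9) (k (nat_lit 0x9899a))) (u (nat_lit 8) (k (nat_lit 0x9899a))))) (a (v (nat_lit 5) (v (nat_lit 5) (k (nat_lit 0x263070)))) (u (nat_lit 5) (v (nat_lit 5) (k (nat_lit 0x4b7dffe8))))))))))))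 (a (a (a (v (nat_lit 4) (a (a (v (nat_lit 8) (u (nat_lit 9) (k (nat_lit 0x6e75b0e)))) (a (u (nat_lit 8) (v (nat_lit 8) (k (nat_lit 0x98808)))) (u (nat_lit 7) (v (nat_lit 8) (k (nat_lit 0x9a68c)))))) (a (a (v (nat_lit 6) (u (nat_lit 7) (k (nat_lit 0x988f8)))) (u (nat_lit 6) (v (nat_lit 6) (k (nat_lit 0x99012))))) (a (u (nat_lit 5) (a (v (nat_lit 9) (k (nat_lit 0x997da))) (v (nat_lit 8) (k (nat_lit 0x992c4))))) (v (nat_lit 4) (u (nat_lit 5) (k (nat_lit 0x98f7c)))))))) (u (nat_lit 4) (a (a (a (v (nat_lit 9) (v (nat_lit 9) (k (nat_lit 0x98e98)))) (v (nat_lit 8) (a (v (nat_lit 9) (k (nat_lit 0x9a0bc))) (v (nat_lit 8) (k (nat_lit 0x992a6)))))) (a (v (nat_lit 7) (a (v (nat_lit 9) (k (nat_lit 0x98ef8))) (a (v (nat_lit 8) (k (nat_lit 0x98fee))) (v (nat_lit 7) (k (nat_lit 0x98e3e)))))) (v (nat_lit 6) (a (a (v (nat_lit 9) (k (nat_lit 0x98f40))) (v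 (nat_lit 8) (k (nat_lit 0x98e62)))) (a (v (nat_lit 7) (k (nat_lit 0x99486))) (v (nat_lit 6) (k (nat_lit 0x990f6)))))))) (a (a (u (nat_lit 5) (a (v (nat_lit 7) (k (nat_lit 0x99774))) (v (nat_lit 5) (k (nat_lit 0x99186))))) (t (nat_lit 5) (nat_lit 8) (nat_lit 9) (u (nat_lit 5) (k (nat_lit 0x98ee6))))) (a (v (nat_lit 4) (a (v (nat_lit 8) (k (nat_lit 0x994aa))) (a (u (nat_lit 8) (k (nat_lit 0x998b2))) (v (nat_lit 4) (k (nat_lit 0x98f46)))))) (u (nat_lit 4) (v (nat_lit 4) (k (nat_lit 0x9da6a))))))))) (a (v (nat_lit 3) (a (a (a (v (nat_lit 8) (u (nat_lit 9) (k (nat_lit 0x6e75b0e)))) (u (nat_lit 8) (v (nat_lit 8) (k (nat_lit 0x98808))))) (a (u (nat_lit 7) (v (nat_lit 7) (k (nat_lit 0x99012)))) (u (nat_lit 6) (a (v (nat_lit 8) (k (nat_lit 0x9a68c))) (v (nat_lit 7) (k (nat_lit 0x988f8))))))) (a (a (u (nat_lit 5) (a (v (nat_lit 9) (k (nat_lit 0x997da)))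 (v (nat_lit 8) (k (nat_lit 0x992c4))))) (v (nat_lit 4) (u (nat_lit 5) (k (nat_lit 0x130cf8))))) (a (u (nat_lit 4) (a (a (v (nat_lit 9) (k (nat_lit 0x98fa0))) (v (nat_lit 8) (k (nat_lit 0x990d8)))) (a (v (nat_lit 7) (k (nat_lit 0x98ca6))) (a (v (nat_lit 5) (k (nat_lit 0x99348))) (v (nat_lit 4) (k (nat_lit 0x98bda))))))) (v (nat_lit 3) (a (u (nat_lit 5) (k (nat_lit 0x98f7c))) (u (nat_lit 4) (k (nat_lit 0x995ee))))))))) (u (nat_lit 3) (a (a (a (v (nat_lit 9) (v (nat_lit 9) (k (nat_lit 0x98e98)))) (v (nat_lit 8) (a (v (nat_lit 9) (k (nat_lit 0x9a0bc))) (v (nat_lit 8) (k (nat_lit 0x992a6)))))) (a (v (nat_lit 7) (a (v (nat_lit 9) (k (nat_lit 0x98f40))) (a (v (nat_lit 8) (k (nat_lit 0x98e62))) (v (nat_lit 7) (k (nat_lit 0x990f6)))))) (v (nat_lit 6) (a (a (v (nat_lit 9) (k (nat_lit 0x98ef8))) (v (nat_lit 8) (k (nat_lit 0x98fee)))) (a (v (nat_lit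 7) (k (nat_lit 0x99486))) (v (nat_lit 6) (k (nat_lit 0x98e3e)))))))) (a (a (u (nat_lit 5) (a (v (nat_lit 6) (k (nat_lit 0x99774))) (v (nat_lit 5) (k (nat_lit 0x99186))))) (t (nat_lit 5) (nat_lit 8) (nat_lit 9) (u (nat_lit 5) (k (nat_lit 0x98ee6))))) (a (v (nat_lit 4) (a (a (v (nat_lit 9) (k (nat_lit 0x98fa0))) (v (nat_lit 8) (k (nat_lit 0x990d8)))) (a (v (nat_lit 6) (k (nat_lit 0x98ca6))) (a (v (nat_lit 5) (k (nat_lit 0x99348))) (v (nat_lit 4) (k (nat_lit 0x995ee))))))) (a (v (nat_lit 3) (a (a (v (nat_lit 8) (k (nat_lit 0x994aa))) (u (nat_lit 8) (k (nat_lit 0x998b2)))) (a (v (nat_lit 4) (k (nat_lit 0x98bda))) (v (nat_lit 3) (k (nat_lit 0x98f46)))))) (u (nat_lit 3) (v (nat_lit 3) (k (nat_lit 0x9da6a))))))))))) (a (a (v (nat_lit 2) (a (a (a (u (nat_lit 9) (v (nat_lit 9) (k (nat_lit 0x98808)))) (u (nat_lit 8) (v (nat_lit 9) (k (nat_lit 0x6e75b0e)))))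 (a (u (nat_lit 7) (v (nat_lit 9) (k (nat_lit 0x9a68c)))) (a (v (nat_lit 6) (u (nat_lit 7) (k (nat_lit 0x988f8)))) (u (nat_lit 6) (v (nat_lit 6) (k (nat_lit 0x99012))))))) (a (a (u (nat_lit 5) (a (v (nat_lit 9) (k (nat_lit 0x992c4))) (v (nat_lit 8) (k (nat_lit 0x997da))))) (a (v (nat_lit 4) (u (nat_lit 5) (k (nat_lit 0x1326f0)))) (u (nat_lit 4) (a (a (v (nat_lit 9) (k (nat_lit 0x99b2e))) (v (nat_lit 8) (k (nat_lit 0x9863a)))) (a (v (nat_lit 7) (k (nat_lit 0x9900c))) (a (v (nat_lit 6) (k (nat_lit 0x98ebc))) (v (nat_lit 5) (k (nat_lit 0x99348))))))))) (a (v (nat_lit 3) (a (u (nat_lit 5) (k (nat_lit 0x133b9c))) (u (nat_lit 4) (k (nat_lit 0x9a2ae))))) (a (u (nat_lit 3) (a (v (nat_lit 9) (k (nat_lit 0x99120))) (a (v (nat_lit 7) (k (nat_lit 0x9a58a))) (v (nat_lit 6) (k (nat_lit 0x978ea)))))) (v (nat_lit 2) (a (u (nat_lit 5) (k (nat_lit 0x98f7c)))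 (a (u (nat_lit 4) (k (nat_lit 0x98f1c))) (u (nat_lit 3) (k (nat_lit 0x98f0a))))))))))) (u (nat_lit 2) (a (a (a (v (nat_lit 9) (v (nat_lit 9) (k (nat_lit 0x992a6)))) (v (nat_lit 8) (a (v (nat_lit 9) (k (nat_lit 0x9a0bc))) (v (nat_lit 8) (k (nat_lit 0x98e98)))))) (a (v (nat_lit 7) (a (v (nat_lit 9) (k (nat_lit 0x98fee))) (a (v (nat_lit 8) (k (nat_lit 0x98ef8))) (v (nat_lit 7) (k (nat_lit 0x98e3e)))))) (a (v (nat_lit 6) (a (a (v (nat_lit 9) (k (nat_lit 0x98e62))) (v (nat_lit 8) (k (nat_lit 0x98f40)))) (a (v (nat_lit 7) (k (nat_lit 0x99486))) (v (nat_lit 6) (k (nat_lit 0x990f6)))))) (u (nat_lit 5) (a (v (nat_lit 7) (k (nat_lit 0x99774))) (v (nat_lit 5) (k (nat_lit 0x99186)))))))) (a (a (t (nat_lit 5) (nat_lit 8) (nat_lit 9) (u (nat_lit 5) (k (nat_lit 0x98ee6)))) (v (nat_lit 4) (a (a (v (nat_lit 9) (k (nat_lit 0x9863a))) (a (v (nat_lit 8) (k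 (nat_lit 0x99b2e))) (v (nat_lit 7) (k (nat_lit 0x9900c))))) (a (v (nat_lit 6) (k (nat_lit 0x98ebc))) (a (v (nat_lit 5) (k (nat_lit 0x99348))) (v (nat_lit 4) (k (nat_lit 0x98f1c)))))))) (a (v (nat_lit 3) (a (a (v (nat_lit 8) (k (nat_lit 0x99120))) (v (nat_lit 7) (k (nat_lit 0x978ea)))) (a (v (nat_lit 6) (k (nat_lit 0x9a58a))) (a (v (nat_lit 4) (k (nat_lit 0x9841e))) (v (nat_lit 3) (k (nat_lit 0x98f0a))))))) (a (v (nat_lit 2) (a (v (nat_lit 9) (k (nat_lit 0x994aa))) (a (u (nat_lit 9) (k (nat_lit 0x998b2))) (v (nat_lit 2) (k (nat_lit 0x98f46)))))) (u (nat_lit 2) (v (nat_lit 2) (k (nat_lit 0x9da6a)))))))))) (a (v (nat_lit 1) (a (a (a (u (nat_lit 9) (v (nat_lit 9) (k (nat_lit 0x98808)))) (a (u (nat_lit 8) (v (nat_lit 9) (k (nat_lit 0x6e75b0e)))) (u (nat_lit 7) (v (nat_lit 7) (k (nat_lit 0x99012)))))) (a (u (nat_lit 6) (a (v (nat_lit 9) (k (nat_lit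 0x9a68c))) (v (nat_lit 7) (k (nat_lit 0x988f8))))) (a (u (nat_lit 5) (a (v (nat_lit 9) (k (nat_lit 0x992c4))) (v (nat_lit 8) (k (nat_lit 0x997da))))) (v (nat_lit 4) (u (nat_lit 5) (k (nat_lit 0x133b9c))))))) (a (a (u (nat_lit 4) (a (v (nat_lit 9) (k (nat_lit 0x99120))) (a (v (nat_lit 7) (k (nat_lit 0x978ea))) (v (nat_lit 6) (k (nat_lit 0x9a58a)))))) (a (v (nat_lit 3) (u (nat_lit 5) (k (nat_lit 0x1326f0)))) (u (nat_lit 3) (a (a (v (nat_lit 9) (k (nat_lit 0x99b2e))) (a (v (nat_lit 8) (k (nat_lit 0x9863a))) (v (nat_lit 7) (k (nat_lit 0x98ebc))))) (a (v (nat_lit 6) (k (nat_lit 0x9900c))) (a (v (nat_lit 5) (k (nat_lit 0x99348))) (v (nat_lit 4) (k (nat_lit 0x9a2ae))))))))) (a (v (nat_lit 2) (a (u (nat_lit 5) (k (nat_lit 0x130cf8))) (a (u (nat_lit 4) (k (nat_lit 0x9841e))) (u (nat_lit 3) (k (nat_lit 0x9841e)))))) (a (u (nat_lit 2) (a (a (v (nat_lit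 9) (k (nat_lit 0x990d8))) (a (v (nat_lit 8) (k (nat_lit 0x98fa0))) (v (nat_lit 7) (k (nat_lit 0x98ca6))))) (a (v (nat_lit 5) (k (nat_lit 0x99348))) (a (v (nat_lit 4) (k (nat_lit 0x9a2ae))) (v (nat_lit 2) (k (nat_lit 0x98bda))))))) (v (nat_lit 1) (a (a (u (nat_lit 5) (k (nat_lit 0x98f7c))) (u (nat_lit 4) (k (nat_lit 0x98f0a)))) (a (u (nat_lit 3) (k (nat_lit 0x98f1c))) (u (nat_lit 2) (k (nat_lit 0x995ee))))))))))) (a (u (nat_lit 1) (a (a (a (v (nat_lit 9) (v (nat_lit 9) (k (nat_lit 0x992a6)))) (v (nat_lit 8) (a (v (nat_lit 9) (k (nat_lit 0x9a0bc))) (v (nat_lit 8) (k (nat_lit 0x98e98)))))) (a (v (nat_lit 7) (a (v (nat_lit 9) (k (nat_lit 0x98e62))) (a (v (nat_lit 8) (k (nat_lit 0x98f40))) (v (nat_lit 7) (k (nat_lit 0x990f6)))))) (a (v (nat_lit 6) (a (a (v (nat_lit 9) (k (nat_lit 0x98fee))) (v (nat_lit 8) (k (nat_lit 0x98ef8)))) (a (v (nat_lit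 7) (k (nat_lit 0x99486))) (v (nat_lit 6) (k (nat_lit 0x98e3e)))))) (u (nat_lit 5) (a (v (nat_lit 6) (k (nat_lit 0x99774))) (v (nat_lit 5) (k (nat_lit 0x99186)))))))) (a (a (t (nat_lit 5) (nat_lit 8) (nat_lit 9) (u (nat_lit 5) (k (nat_lit 0x98ee6)))) (a (v (nat_lit 4) (a (a (v (nat_lit 8) (k (nat_lit 0x99120))) (v (nat_lit 7) (k (nat_lit 0x9a58a)))) (a (v (nat_lit 6) (k (nat_lit 0x978ea))) (v (nat_lit 4) (k (nat_lit 0x98f0a)))))) (v (nat_lit 3) (a (a (v (nat_lit 9) (k (nat_lit 0x9863a))) (a (v (nat_lit 8) (k (nat_lit 0x99b2e))) (v (nat_lit 7) (k (nat_lit 0x98ebc))))) (a (a (v (nat_lit 6) (k (nat_lit 0x9900c))) (v (nat_lit 5) (k (nat_lit 0x99348)))) (a (v (nat_lit 4) (k (nat_lit 0x9841e))) (v (nat_lit 3) (k (nat_lit 0x98f1c))))))))) (a (v (nat_lit 2) (a (a (v (nat_lit 9) (k (nat_lit 0x990d8))) (a (v (nat_lit 8) (k (nat_lit 0x98fa0))) (v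 (nat_lit 6) (k (nat_lit 0x98ca6))))) (a (v (nat_lit 5) (k (nat_lit 0x99348))) (a (v (nat_lit 3) (k (nat_lit 0x9a2ae))) (v (nat_lit 2) (k (nat_lit 0x995ee))))))) (a (v (nat_lit 1) (a (a (v (nat_lit 9) (k (nat_lit 0x994aa))) (u (nat_lit 9) (k (nat_lit 0x998b2)))) (a (v (nat_lit 2) (k (nat_lit 0x98bda))) (v (nat_lit 1) (k (nat_lit 0x98f46)))))) (u (nat_lit 1) (v (nat_lit 1) (k (nat_lit 0x9da6a))))))))) (v (nat_lit 0) (a (a (a (u (nat_lit 9) (v (nat_lit 9) (k (nat_lit 0x131cc4)))) (a (v (nat_lit 8) (u (nat_lit 9) (k (nat_lit 0x131b44)))) (u (nat_lit 8) (a (v (nat_lit 9) (k (nat_lit 0x131b44))) (v (nat_lit 8) (k (nat_lit 0x131cc4))))))) (a (a (u (nat_lit 7) (a (v (nat_lit 9) (k (nat_lit 0x98dcc))) (v (nat_lit 8) (k (nat_lit 0x98dcc))))) (u (nat_lit 6) (a (v (nat_lit 9) (k (nat_lit 0x98dcc))) (v (nat_lit 8) (k (nat_lit 0x98dcc)))))) (a (u (nat_lit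 5) (a (a (v (nat_lit 9) (k (nat_lit 0x131be0))) (v (nat_lit 8) (k (nat_lit 0x131be0)))) (a (v (nat_lit 7) (k (nat_lit 0x131718))) (a (v (nat_lit 6) (k (nat_lit 0x131718))) (v (nat_lit 5) (k (nat_lit 0x2635e0))))))) (v (nat_lit 4) (u (nat_lit 5) (k (nat_lit 0x1479c54))))))) (a (a (a (u (nat_lit 4) (a (a (v (nat_lit 9) (k (nat_lit 0x98d90))) (a (v (nat_lit 8) (k (nat_lit 0x990cc))) (v (nat_lit 7) (k (nat_lit 0x98d96))))) (a (v (nat_lit 6) (k (nat_lit 0x98f82))) (a (u (nat_lit 5) (k (nat_lit 0x98eec))) (t (nat_lit 5) (nat_lit 8) (nat_lit 9) (k (nat_lit 0x4025d6c))))))) (v (nat_lit 3) (a (u (nat_lit 5) (k (nat_lit 0x1479c54))) (u (nat_lit 4) (k (nat_lit 0x9a86c)))))) (a (u (nat_lit 3) (a (a (v (nat_lit 9) (k (nat_lit 0x98d90))) (a (v (nat_lit 8) (k (nat_lit 0x990cc))) (v (nat_lit 7) (k (nat_lit 0x98f82))))) (a (a (v (nat_lit 6) (k (nat_lit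 0x98d96))) (u (nat_lit 5) (k (nat_lit 0x98eec)))) (a (t (nat_lit 5) (nat_lit 8) (nat_lit 9) (k (nat_lit 0x4025d6c))) (v (nat_lit 4) (k (nat_lit 0x9a86c))))))) (v (nat_lit 2) (a (u (nat_lit 5) (k (nat_lit 0x1479c54))) (a (u (nat_lit 4) (k (nat_lit 0x171e36d0))) (u (nat_lit 3) (k (nat_lit 0x994d4)))))))) (a (a (u (nat_lit 2) (a (a (a (v (nat_lit 9) (k (nat_lit 0x990cc))) (v (nat_lit 8) (k (nat_lit 0x98d90)))) (a (v (nat_lit 7) (k (nat_lit 0x98d96))) (v (nat_lit 6) (k (nat_lit 0x98f82))))) (a (a (u (nat_lit 5) (k (nat_lit 0x98eec))) (t (nat_lit 5) (nat_lit 8) (nat_lit 9) (k (nat_lit 0x4025d6c)))) (a (v (nat_lit 4) (k (nat_lit 0x171e36d0))) (v (nat_lit 3) (k (nat_lit 0x994d4))))))) (v (nat_lit 1) (a (a (u (nat_lit 5) (k (nat_lit 0x1479c54))) (u (nat_lit 4) (k (nat_lit 0x994d4)))) (a (u (nat_lit 3) (k (nat_lit 0x171e36d0))) (u (nat_lit 2) (k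 (nat_lit 0x9a86c))))))) (a (u (nat_lit 1) (a (a (a (v (nat_lit 9) (k (nat_lit 0x990cc))) (v (nat_lit 8) (k (nat_lit 0x98d90)))) (a (v (nat_lit 7) (k (nat_lit 0x98f82))) (v (nat_lit 6) (k (nat_lit 0x98d96))))) (a (a (u (nat_lit 5) (k (nat_lit 0x98eec))) (t (nat_lit 5) (nat_lit 8) (nat_lit 9) (k (nat_lit 0x4025d6c)))) (a (v (nat_lit 4) (k (nat_lit 0x994d4))) (a (v (nat_lit 3) (k (nat_lit 0x171e36d0))) (v (nat_lit 2) (k (nat_lit 0x9a86c)))))))) (v (nat_lit 0) (u (nat_lit 5) (k (nat_lit 0x2630b8))))))))))))))) (a (u (nat_lit 0) (a (a (a (a (v (nat_lit 9) (v (nat_lit 9) (v (nat_lit 9) (k (nat_lit 0x1311c0))))) (v (nat_lit 8) (v (nat_lit 8) (v (nat_lit 8) (k (nat_lit 0x1311c0)))))) (a (v (nat_lit 7) (a (v (nat_lit 9) (v (nat_lit 9) (k (nat_lit 0x98db4)))) (a (v (nat_lit 8) (v (nat_lit 8) (k (nat_lit 0x98db4)))) (v (nat_lit 7) (v (nat_lit 7)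 (k (nat_lit 0x131a78))))))) (u (nat_lit 7) (v (nat_lit 7) (a (u (nat_lit 9) (k (nat_lit 0x9935a))) (u (nat_lit 8) (k (nat_lit 0x9935a)))))))) (a (a (v (nat_lit 6) (a (v (nat_lit 9) (v (nat_lit 9) (k (nat_lit 0x98db4)))) (a (v (nat_lit 8) (v (nat_lit 8) (k (nat_lit 0x98db4)))) (v (nat_lit 6) (v (nat_lit 6) (k (nat_lit 0x131a78))))))) (u (nat_lit 6) (v (nat_lit 6) (a (u (nat_lit 9) (k (nat_lit 0x9935a))) (u (nat_lit 8) (k (nat_lit 0x9935a))))))) (a (v (nat_lit 5) (a (a (v (nat_lit 7) (a (v (nat_lit 9) (k (nat_lit 0x99276))) (v (nat_lit 8) (k (nat_lit 0x99276))))) (u (nat_lit 7) (a (u (nat_lit 9) (k (nat_lit 0x9899a))) (a (u (nat_lit 8) (k (nat_lit 0x9899a))) (v (nat_lit 7) (k (nat_lit 0x133d10))))))) (a (v (nat_lit 6) (a (v (nat_lit 9) (k (nat_lit 0x99276))) (a (v (nat_lit 8) (k (nat_lit 0x99276))) (v (nat_lit 7) (k (nat_lit 0x25ff98))))))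 (a (u (nat_lit 6) (a (u (nat_lit 9) (k (nat_lit 0x9899a))) (a (u (nat_lit 8) (k (nat_lit 0x9899a))) (v (nat_lit 6) (k (nat_lit 0x133d10)))))) (v (nat_lit 5) (a (a (v (nat_lit 9) (k (nat_lit 0x131718))) (v (nat_lit 8) (k (nat_lit 0x131718)))) (a (v (nat_lit 7) (k (nat_lit 0x131be0))) (a (v (nat_lit 6) (k (nat_lit 0x131be0))) (v (nat_lit 5) (k (nat_lit 0x2630b8))))))))))) (a (t (nat_lit 5) (nat_lit 8) (nat_lit 9) (u (nat_lit 5) (u (nat_lit 5) (k (nat_lit 0x3075120))))) (v (nat_lit 4) (a (a (v (nat_lit 8) (v (nat_lit 8) (k (nat_lit 0x99564)))) (a (v (nat_lit 7) (v (nat_lit 8) (k (nat_lit 0x97ea2)))) (v (nat_lit 6) (v (nat_lit 8) (k (nat_lit 0x98f58)))))) (a (v (nat_lit 5) (a (v (nat_lit 7) (k (nat_lit 0x997da))) (a (v (nat_lit 6) (k (nat_lit 0x992c4))) (v (nat_lit 5) (k (nat_lit 0x1479c54)))))) (a (t (nat_lit 5) (nat_lit 8) (nat_lit 9) (u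 (nat_lit 7) (k (nat_lit 0x998ac)))) (v (nat_lit 4) (a (a (v (nat_lit 9) (k (nat_lit 0x98ea4))) (v (nat_lit 7) (k (nat_lit 0x994e0)))) (a (v (nat_lit 6) (k (nat_lit 0x98eb0))) (a (v (nat_lit 5) (k (nat_lit 0x98f7c))) (v (nat_lit 4) (k (nat_lit 0x99174))))))))))))))) (a (a (a (u (nat_lit 4) (a (a (v (nat_lit 5) (a (v (nat_lit 9) (k (nat_lit 0x99774))) (v (nat_lit 5) (k (nat_lit 0x98eec))))) (u (nat_lit 5) (v (nat_lit 5) (k (nat_lit 0x89c3a54))))) (a (v (nat_lit 4) (t (nat_lit 5) (nat_lit 8) (nat_lit 9) (k (nat_lit 0x9987c)))) (u (nat_lit 4) (u (nat_lit 7) (k (nat_lit 0x99318))))))) (v (nat_lit 3) (a (a (a (v (nat_lit 8) (v (nat_lit 8) (k (nat_lit 0x99564)))) (v (nat_lit 7) (v (nat_lit 8) (k (nat_lit 0x98f58))))) (a (v (nat_lit 6) (v (nat_lit 8) (k (nat_lit 0x97ea2)))) (v (nat_lit 5) (a (v (nat_lit 7) (k (nat_lit 0x992c4))) (a (v (nat_lit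 6) (k (nat_lit 0x997da))) (v (nat_lit 5) (k (nat_lit 0x1479c54)))))))) (a (a (t (nat_lit 5) (nat_lit 8) (nat_lit 9) (u (nat_lit 6) (k (nat_lit 0x998ac)))) (v (nat_lit 4) (a (a (v (nat_lit 8) (k (nat_lit 0x130fb0))) (a (u (nat_lit 8) (k (nat_lit 0x131730))) (v (nat_lit 7) (k (nat_lit 0x990d2))))) (a (v (nat_lit 6) (k (nat_lit 0x990d2))) (a (v (nat_lit 5) (k (nat_lit 0x1326f0))) (v (nat_lit 4) (k (nat_lit 0x98cdc)))))))) (a (u (nat_lit 4) (t (nat_lit 5) (nat_lit 8) (nat_lit 9) (k (nat_lit 0x6be49e8)))) (v (nat_lit 3) (a (a (v (nat_lit 9) (k (nat_lit 0x98ea4))) (a (v (nat_lit 7) (k (nat_lit 0x98eb0))) (v (nat_lit 6) (k (nat_lit 0x994e0))))) (a (v (nat_lit 5) (k (nat_lit 0x98f7c))) (a (v (nat_lit 4) (k (nat_lit 0x98cdc))) (v (nat_lit 3) (k (nat_lit 0x99174)))))))))))) (a (u (nat_lit 3) (a (a (v (nat_lit 5) (a (v (nat_lit 9) (k (nat_lit 0x99774)))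 (v (nat_lit 5) (k (nat_lit 0x98eec))))) (u (nat_lit 5) (v (nat_lit 5) (k (nat_lit 0x89c3a54))))) (a (v (nat_lit 4) (t (nat_lit 5) (nat_lit 8) (nat_lit 9) (k (nat_lit 0x6be49e8)))) (a (v (nat_lit 3) (t (nat_lit 5) (nat_lit 8) (nat_lit 9) (k (nat_lit 0x9987c)))) (u (nat_lit 3) (u (nat_lit 6) (k (nat_lit 0x99318)))))))) (v (nat_lit 2) (a (a (a (v (nat_lit 9) (v (nat_lit 9) (k (nat_lit 0x99564)))) (v (nat_lit 7) (v (nat_lit 9) (k (nat_lit 0x97ea2))))) (a (v (nat_lit 6) (v (nat_lit 9) (k (nat_lit 0x98f58)))) (v (nat_lit 5) (a (v (nat_lit 7) (k (nat_lit 0x997da))) (a (v (nat_lit 6) (k (nat_lit 0x992c4))) (v (nat_lit 5) (k (nat_lit 0x1479c54)))))))) (a (a (t (nat_lit 5) (nat_lit 8) (nat_lit 9) (u (nat_lit 7) (k (nat_lit 0x998ac)))) (v (nat_lit 4) (v (nat_lit 5) (k (nat_lit 0x130cf8))))) (a (v (nat_lit 3) (a (v (nat_lit 5) (k (nat_lit 0x133b9c)))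 (u (nat_lit 5) (k (nat_lit 0x266a48))))) (a (u (nat_lit 3) (u (nat_lit 4) (k (nat_lit 0x989fa)))) (v (nat_lit 2) (a (a (v (nat_lit 8) (k (nat_lit 0x98ea4))) (v (nat_lit 7) (k (nat_lit 0x994e0)))) (a (v (nat_lit 6) (k (nat_lit 0x98eb0))) (a (v (nat_lit 5) (k (nat_lit 0x98f7c))) (v (nat_lit 2) (k (nat_lit 0x99174)))))))))))))) (a (a (u (nat_lit 2) (a (a (v (nat_lit 5) (a (v (nat_lit 8) (k (nat_lit 0x99774))) (v (nat_lit 5) (k (nat_lit 0x98eec))))) (u (nat_lit 5) (v (nat_lit 5) (k (nat_lit 0x89c3a54))))) (a (v (nat_lit 2) (t (nat_lit 5) (nat_lit 8) (nat_lit 9) (k (nat_lit 0x9987c)))) (u (nat_lit 2) (u (nat_lit 7) (k (nat_lit 0x99318))))))) (v (nat_lit 1) (a (a (a (v (nat_lit 9) (v (nat_lit 9) (k (nat_lit 0x99564)))) (v (nat_lit 7) (v (nat_lit 9) (k (nat_lit 0x98f58))))) (a (v (nat_lit 6) (v (nat_lit 9) (k (nat_lit 0x97ea2)))) (a (v (nat_lit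 5) (a (v (nat_lit 7) (k (nat_lit 0x992c4))) (a (v (nat_lit 6) (k (nat_lit 0x997da))) (v (nat_lit 5) (k (nat_lit 0x1479c54)))))) (t (nat_lit 5) (nat_lit 8) (nat_lit 9) (u (nat_lit 6) (k (nat_lit 0x998ac))))))) (a (a (v (nat_lit 4) (a (v (nat_lit 5) (k (nat_lit 0x133b9c))) (u (nat_lit 5) (k (nat_lit 0x266a48))))) (a (v (nat_lit 3) (v (nat_lit 5) (k (nat_lit 0x130cf8)))) (u (nat_lit 3) (u (nat_lit 4) (k (nat_lit 0x989fa)))))) (a (v (nat_lit 2) (a (a (v (nat_lit 9) (k (nat_lit 0x130fb0))) (a (u (nat_lit 9) (k (nat_lit 0x131730))) (v (nat_lit 7) (k (nat_lit 0x990d2))))) (a (v (nat_lit 6) (k (nat_lit 0x990d2))) (a (v (nat_lit 5) (k (nat_lit 0x1326f0))) (v (nat_lit 2) (k (nat_lit 0x98cdc))))))) (a (u (nat_lit 2) (t (nat_lit 5) (nat_lit 8) (nat_lit 9) (k (nat_lit 0x6be49e8)))) (v (nat_lit 1) (a (a (v (nat_lit 8) (k (nat_lit 0x98ea4))) (a (v (nat_lit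 7) (k (nat_lit 0x98eb0))) (v (nat_lit 6) (k (nat_lit 0x994e0))))) (a (v (nat_lit 5) (k (nat_lit 0x98f7c))) (a (v (nat_lit 2) (k (nat_lit 0x98cdc))) (v (nat_lit 1) (k (nat_lit 0x99174))))))))))))) (a (u (nat_lit 1) (a (a (v (nat_lit 5) (a (v (nat_lit 8) (k (nat_lit 0x99774))) (v (nat_lit 5) (k (nat_lit 0x98eec))))) (a (u (nat_lit 5) (v (nat_lit 5) (k (nat_lit 0x89c3a54)))) (v (nat_lit 2) (t (nat_lit 5) (nat_lit 8) (nat_lit 9) (k (nat_lit 0x6be49e8)))))) (a (u (nat_lit 2) (a (v (nat_lit 4) (k (nat_lit 0x989fa))) (v (nat_lit 3) (k (nat_lit 0x989fa))))) (a (v (nat_lit 1) (t (nat_lit 5) (nat_lit 8) (nat_lit 9) (k (nat_lit 0x9987c)))) (u (nat_lit 1) (u (nat_lit 6) (k (nat_lit 0x99318)))))))) (a (v (nat_lit 0) (a (a (a (v (nat_lit 7) (v (nat_lit 7) (k (nat_lit 0x1321e0)))) (a (u (nat_lit 7) (v (nat_lit 7) (k (nat_lit 0x4741d58)))) (v (nat_lit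 6) (a (v (nat_lit 7) (k (nat_lit 0x2666e8))) (v (nat_lit 6) (k (nat_lit 0x1321e0))))))) (a (a (u (nat_lit 6) (v (nat_lit 6) (k (nat_lit 0x4741d58)))) (v (nat_lit 5) (v (nat_lit 5) (k (nat_lit 0x2635e0))))) (a (u (nat_lit 5) (u (nat_lit 5) (k (nat_lit 0x9b905380)))) (v (nat_lit 4) (a (a (v (nat_lit 8) (k (nat_lit 0x98ea4))) (v (nat_lit 6) (k (nat_lit 0x95970)))) (a (u (nat_lit 6) (k (nat_lit 0x97db2))) (a (t (nat_lit 5) (nat_lit 8) (nat_lit 9) (k (nat_lit 0x999a8))) (v (nat_lit 4) (k (nat_lit 0x98ee0)))))))))) (a (a (a (u (nat_lit 4) (a (v (nat_lit 6) (k (nat_lit 0x9929a))) (a (v (nat_lit 5) (k (nat_lit 0x99186))) (u (nat_lit 5) (k (nat_lit 0x89c3a54)))))) (v (nat_lit 3) (a (a (v (nat_lit 8) (k (nat_lit 0x98ea4))) (a (v (nat_lit 7) (k (nat_lit 0x95970))) (u (nat_lit 7) (k (nat_lit 0x97db2))))) (a (t (nat_lit 5) (nat_lit 8) (nat_lit 9) (k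 (nat_lit 0x999a8))) (a (v (nat_lit 4) (k (nat_lit 0x134934))) (v (nat_lit 3) (k (nat_lit 0x98ee0)))))))) (a (u (nat_lit 3) (a (v (nat_lit 7) (k (nat_lit 0x9929a))) (a (v (nat_lit 5) (k (nat_lit 0x99186))) (u (nat_lit 5) (k (nat_lit 0x89c3a54)))))) (v (nat_lit 2) (a (a (v (nat_lit 9) (k (nat_lit 0x98ea4))) (v (nat_lit 6) (k (nat_lit 0x95970)))) (a (u (nat_lit 6) (k (nat_lit 0x97db2))) (a (t (nat_lit 5) (nat_lit 8) (nat_lit 9) (k (nat_lit 0x999a8))) (v (nat_lit 2) (k (nat_lit 0x98ee0))))))))) (a (a (u (nat_lit 2) (a (v (nat_lit 6) (k (nat_lit 0x9929a))) (a (v (nat_lit 5) (k (nat_lit 0x99186))) (u (nat_lit 5) (k (nat_lit 0x89c3a54)))))) (v (nat_lit 1) (a (a (v (nat_lit 9) (k (nat_lit 0x98ea4))) (a (v (nat_lit 7) (k (nat_lit 0x95970))) (u (nat_lit 7) (k (nat_lit 0x97db2))))) (a (t (nat_lit 5) (nat_lit 8) (nat_lit 9) (k (nat_lit 0x999a8)))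 (a (v (nat_lit 2) (k (nat_lit 0x134934))) (v (nat_lit 1) (k (nat_lit 0x98ee0)))))))) (a (u (nat_lit 1) (a (v (nat_lit 7) (k (nat_lit 0x9929a))) (a (v (nat_lit 5) (k (nat_lit 0x99186))) (u (nat_lit 5) (k (nat_lit 0x89c3a54)))))) (v (nat_lit 0) (a (a (a (v (nat_lit 9) (k (nat_lit 0x131550))) (v (nat_lit 8) (k (nat_lit 0x131550)))) (a (v (nat_lit 7) (k (nat_lit 0x1326a8))) (a (v (nat_lit 6) (k (nat_lit 0x1326a8))) (v (nat_lit 5) (k (nat_lit 0x263070)))))) (a (a (v (nat_lit 4) (k (nat_lit 0x98ebc))) (v (nat_lit 3) (k (nat_lit 0x98ebc)))) (a (v (nat_lit 2) (k (nat_lit 0x98ebc))) (a (v (nat_lit 1) (k (nat_lit 0x98ebc))) (v (nat_lit 0) (k (nat_lit 0x263478))))))))))))) (u (nat_lit 0) (a (a (a (v (nat_lit 7) (v (nat_lit 7) (k (nat_lit 0x131ef8)))) (v (nat_lit 6) (a (v (nat_lit 7) (k (nat_lit 0x264f18))) (v (nat_lit 6) (k (nat_lit 0x131ef8))))))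 (a (u (nat_lit 5) (v (nat_lit 5) (k (nat_lit 0x9b905380)))) (a (t (nat_lit 5) (nat_lit 8) (nat_lit 9) (a (u (nat_lit 9) (k (nat_lit 0x41759e8))) (u (nat_lit 8) (k (nat_lit 0x41759e8))))) (v (nat_lit 4) (v (nat_lit 6) (k (nat_lit 0x96c5a))))))) (a (a (v (nat_lit 3) (v (nat_lit 7) (k (nat_lit 0x96c5a)))) (v (nat_lit 2) (v (nat_lit 6) (k (nat_lit 0x96c5a))))) (a (v (nat_lit 1) (v (nat_lit 7) (k (nat_lit 0x96c5a)))) (a (v (nat_lit 0) (a (a (v (nat_lit 5) (k (nat_lit 0x4b7dffe8))) (u (nat_lit 4) (k (nat_lit 0x6bc0fc4)))) (a (u (nat_lit 3) (k (nat_lit 0x6bc0fc4))) (a (u (nat_lit 2) (k (nat_lit 0x6bc0fc4))) (u (nat_lit 1) (k (nat_lit 0x6bc0fc4))))))) (u (nat_lit 0) (v (nat_lit 0) (k (nat_lit 0x263940))))))))))))))) (t (nat_lit 0) (nat_lit 6) (nat_lit 7) (a (a (a (u (nat_lit 6) (a (u (nat_lit 7) (u (nat_lit 7) (k (nat_lit 0x131b5c)))) (u (nat_lit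 6) (u (nat_lit 7) (k (nat_lit 0x131b5c)))))) (a (u (nat_lit 5) (u (nat_lit 5) (a (u (nat_lit 7) (k (nat_lit 0x41759e8))) (u (nat_lit 6) (k (nat_lit 0x41759e8)))))) (v (nat_lit 4) (a (u (nat_lit 7) (u (nat_lit 7) (k (nat_lit 0x99120)))) (a (u (nat_lit 6) (a (u (nat_lit 9) (k (nat_lit 0x99eca))) (a (u (nat_lit 7) (k (nat_lit 0x5087e2c))) (u (nat_lit 6) (k (nat_lit 0x4a97b28)))))) (u (nat_lit 5) (a (u (nat_lit 9) (k (nat_lit 0x998ac))) (v (nat_lit 5) (k (nat_lit 0x999a8)))))))))) (a (u (nat_lit 4) (a (a (v (nat_lit 5) (v (nat_lit 5) (k (nat_lit 0x4025d6c)))) (t (nat_lit 5) (nat_lit 8) (nat_lit 9) (a (a (u (nat_lit 9) (k (nat_lit 0x99330))) (u (nat_lit 8) (k (nat_lit 0x6b225a)))) (a (u (nat_lit 7) (k (nat_lit 0x99330))) (u (nat_lit 6) (k (nat_lit 0x6b225a))))))) (a (v (nat_lit 4) (u (nat_lit 5) (k (nat_lit 0x9987c)))) (u (nat_lit 4) (t (nat_lit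 5) (nat_lit 8) (nat_lit 9) (k (nat_lit 0x6ea5130))))))) (a (v (nat_lit 3) (a (u (nat_lit 7) (a (u (nat_lit 9) (k (nat_lit 0x99eca))) (u (nat_lit 7) (k (nat_lit 0x4a97b28))))) (a (u (nat_lit 6) (a (u (nat_lit 7) (k (nat_lit 0x5087e2c))) (u (nat_lit 6) (k (nat_lit 0x99120))))) (u (nat_lit 5) (a (u (nat_lit 9) (k (nat_lit 0x998ac))) (v (nat_lit 5) (k (nat_lit 0x999a8)))))))) (u (nat_lit 3) (a (a (v (nat_lit 5) (v (nat_lit 5) (k (nat_lit 0x4025d6c)))) (t (nat_lit 5) (nat_lit 8) (nat_lit 9) (a (a (u (nat_lit 9) (k (nat_lit 0x99330))) (u (nat_lit 8) (k (nat_lit 0x6b225a)))) (a (u (nat_lit 7) (k (nat_lit 0x6b225a))) (u (nat_lit 6) (k (nat_lit 0x99330))))))) (a (v (nat_lit 3) (u (nat_lit 5) (k (nat_lit 0x9987c)))) (u (nat_lit 3) (t (nat_lit 5) (nat_lit 8) (nat_lit 9) (k (nat_lit 0x6ea5130)))))))))) (a (a (v (nat_lit 2) (a (a (u (nat_lit 7) (u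 (nat_lit 7) (k (nat_lit 0x99120)))) (u (nat_lit 6) (a (u (nat_lit 8) (k (nat_lit 0x99eca))) (a (u (nat_lit 7) (k (nat_lit 0x5087e2c))) (u (nat_lit 6) (k (nat_lit 0x4a97b28))))))) (a (u (nat_lit 5) (a (u (nat_lit 8) (k (nat_lit 0x998ac))) (v (nat_lit 5) (k (nat_lit 0x999a8))))) (a (u (nat_lit 4) (u (nat_lit 5) (k (nat_lit 0x6be49e8)))) (u (nat_lit 3) (u (nat_lit 3) (k (nat_lit 0x99126)))))))) (a (u (nat_lit 2) (a (a (v (nat_lit 5) (v (nat_lit 5) (k (nat_lit 0x4025d6c)))) (a (t (nat_lit 5) (nat_lit 8) (nat_lit 9) (a (a (u (nat_lit 9) (k (nat_lit 0x6b225a))) (u (nat_lit 8) (k (nat_lit 0x99330)))) (a (u (nat_lit 7) (k (nat_lit 0x99330))) (u (nat_lit 6) (k (nat_lit 0x6b225a)))))) (v (nat_lit 4) (u (nat_lit 5) (k (nat_lit 0x6be49e8)))))) (a (a (u (nat_lit 4) (v (nat_lit 4) (k (nat_lit 0x3299ac0)))) (v (nat_lit 3) (u (nat_lit 4) (k (nat_lit 0x99072)))))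 (a (v (nat_lit 2) (a (u (nat_lit 5) (k (nat_lit 0x9987c))) (u (nat_lit 4) (k (nat_lit 0x3299ac0))))) (u (nat_lit 2) (a (t (nat_lit 5) (nat_lit 8) (nat_lit 9) (k (nat_lit 0x6ea5130))) (v (nat_lit 3) (k (nat_lit 0x99126))))))))) (v (nat_lit 1) (a (a (u (nat_lit 7) (a (u (nat_lit 8) (k (nat_lit 0x99eca))) (u (nat_lit 7) (k (nat_lit 0x4a97b28))))) (a (u (nat_lit 6) (a (u (nat_lit 7) (k (nat_lit 0x5087e2c))) (u (nat_lit 6) (k (nat_lit 0x99120))))) (u (nat_lit 5) (a (u (nat_lit 8) (k (nat_lit 0x998ac))) (v (nat_lit 5) (k (nat_lit 0x999a8))))))) (a (u (nat_lit 4) (u (nat_lit 4) (k (nat_lit 0x99126)))) (a (u (nat_lit 3) (u (nat_lit 5) (k (nat_lit 0x6be49e8)))) (u (nat_lit 2) (u (nat_lit 4) (k (nat_lit 0x99072)))))))))) (a (a (u (nat_lit 1) (a (a (v (nat_lit 5) (v (nat_lit 5) (k (nat_lit 0x4025d6c)))) (a (t (nat_lit 5) (nat_lit 8) (nat_lit 9) (a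 (a (u (nat_lit 9) (k (nat_lit 0x6b225a))) (u (nat_lit 8) (k (nat_lit 0x99330)))) (a (u (nat_lit 7) (k (nat_lit 0x6b225a))) (u (nat_lit 6) (k (nat_lit 0x99330)))))) (v (nat_lit 3) (u (nat_lit 5) (k (nat_lit 0x6be49e8)))))) (a (a (u (nat_lit 3) (a (v (nat_lit 4) (k (nat_lit 0x99072))) (v (nat_lit 3) (k (nat_lit 0x3299ac0))))) (v (nat_lit 2) (u (nat_lit 3) (k (nat_lit 0x99072))))) (a (v (nat_lit 1) (a (u (nat_lit 5) (k (nat_lit 0x9987c))) (u (nat_lit 3) (k (nat_lit 0x3299ac0))))) (u (nat_lit 1) (a (t (nat_lit 5) (nat_lit 8) (nat_lit 9) (k (nat_lit 0x6ea5130))) (v (nat_lit 4) (k (nat_lit 0x99126))))))))) (v (nat_lit 0) (a (a (v (nat_lit 4) (u (nat_lit 8) (k (nat_lit 0x27f84cc)))) (v (nat_lit 3) (u (nat_lit 8) (k (nat_lit 0x27f84cc))))) (a (v (nat_lit 2) (u (nat_lit 9) (k (nat_lit 0x27f84cc)))) (v (nat_lit 1) (u (nat_lit 9) (k (nat_lit 0x27f84cc))))))))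 (a (u (nat_lit 0) (a (a (a (v (nat_lit 9) (v (nat_lit 9) (k (nat_lit 0xff605ac)))) (v (nat_lit 8) (v (nat_lit 8) (k (nat_lit 0xff605ac))))) (a (u (nat_lit 7) (v (nat_lit 7) (k (nat_lit 0xda34198)))) (a (u (nat_lit 6) (v (nat_lit 6) (k (nat_lit 0xda34198)))) (u (nat_lit 4) (a (u (nat_lit 8) (k (nat_lit 0x32501f4))) (a (u (nat_lit 7) (k (nat_lit 0x98fa6))) (v (nat_lit 5) (k (nat_lit 0x98ee6))))))))) (a (a (u (nat_lit 3) (a (u (nat_lit 8) (k (nat_lit 0x32501f4))) (a (u (nat_lit 6) (k (nat_lit 0x98fa6))) (v (nat_lit 5) (k (nat_lit 0x98ee6)))))) (u (nat_lit 2) (a (a (u (nat_lit 9) (k (nat_lit 0x32501f4))) (u (nat_lit 7) (k (nat_lit 0x98fa6)))) (a (v (nat_lit 5) (k (nat_lit 0x98ee6))) (u (nat_lit 3) (k (nat_lit 0x132edc))))))) (a (u (nat_lit 1) (a (a (u (nat_lit 9) (k (nat_lit 0x32501f4))) (u (nat_lit 6) (k (nat_lit 0x98fa6)))) (a (v (nat_lit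 5) (k (nat_lit 0x98ee6))) (u (nat_lit 4) (k (nat_lit 0x132edc)))))) (a (v (nat_lit 0) (v (nat_lit 0) (k (nat_lit 0x2639a0)))) (u (nat_lit 0) (a (u (nat_lit 5) (k (nat_lit 0x3075120))) (u (nat_lit 0) (k (nat_lit 0x263bb0)))))))))) (t (nat_lit 0) (nat_lit 6) (nat_lit 7) (a (a (a (v (nat_lit 3) (u (nat_lit 4) (k (nat_lit 0x2123ee6)))) (u (nat_lit 3) (v (nat_lit 4) (k (nat_lit 0x2123ee6))))) (a (v (nat_lit 2) (u (nat_lit 3) (k (nat_lit 0x9a332)))) (u (nat_lit 2) (v (nat_lit 3) (k (nat_lit 0x9a332)))))) (a (a (v (nat_lit 1) (a (u (nat_lit 4) (k (nat_lit 0x9a332))) (u (nat_lit 2) (k (nat_lit 0x2123ee6))))) (u (nat_lit 1) (a (v (nat_lit 4) (k (nat_lit 0x9a332))) (v (nat_lit 2) (k (nat_lit 0x2123ee6)))))) (a (u (nat_lit 0) (v (nat_lit 0) (k (nat_lit 0x263c10)))) (t (nat_lit 0) (nat_lit 6) (nat_lit 7) (a (u (nat_lit 7) (k (nat_lit 0x1155db0)))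 (u (nat_lit 6) (k (nat_lit 0x1155db0)))))))))))))))))))

open Fl.Tr in
/-- the table -/
noncomputable def T : Fl.Tr := (c (c (c (c (c (c (c (c (c (c (m (nat_lit 0x158023e0)) (c (m (nat_lit 0x30ee3b0)) (c (m (nat_lit 0x2106f84)) (c (m (nat_lit 0x7d8e72c)) (c (m (nat_lit 0x1287bc4)) e))))) (c (c (m (nat_lit 0x30ee3b0)) (c (p (nat_lit 0xab0e10)) (c (p (nat_lit 0x349b024)) (c (m (nat_lit 0x47c22a8)) e)))) (c (c (m (nat_lit 0x2106f84)) (c (p (nat_lit 0x349b024)) (c (m (nat_lit 0x6ccada0)) e))) (c (c (m (nat_lit 0x7d8e72c)) (c (m (nat_lit 0x47c22a8)) e)) (c (c (m (nat_lit 0x1287bc4)) e) e))))) (c (c (c (m (nat_lit 0x30ee3b0)) (c (p (nat_lit 0x146765b8)) (c (p (nat_lit 0xf75bf7c)) (c (m (nat_lit 0x990f0)) e)))) (c (c (p (nat_lit 0x146765b8)) (c (m (nat_lit 0x1733d90)) (c (m (nat_lit 0x98f70)) e))) (c (c (p (nat_lit 0xf75bf7c)) (c (m (nat_lit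 0x98f70)) e)) (c (c (m (nat_lit 0x990f0)) e) e)))) (c (c (c (m (nat_lit 0x2106f84)) (c (p (nat_lit 0xf75bf7c)) (c (m (nat_lit 0x131dc0)) e))) (c (c (p (nat_lit 0xf75bf7c)) (c (m (nat_lit 0x395db4)) e)) (c (c (m (nat_lit 0x131dc0)) e) e))) (c (c (c (m (nat_lit 0x7d8e72c)) (c (m (nat_lit 0x990f0)) e)) (c (c (m (nat_lit 0x990f0)) e) e)) (c (c (c (m (nat_lit 0x1287bc4)) e) e) e))))) (c (c (c (c (m (nat_lit 0x30ee3b0)) (c (p (nat_lit 0x146765b8)) (c (p (nat_lit 0xf75bf7c)) (c (m (nat_lit 0x990f0)) e)))) (c (c (p (nat_lit 0x146765b8)) (c (m (nat_lit 0x1733d90)) (c (m (nat_lit 0x98f70)) e))) (c (c (p (nat_lit 0xf75bf7c)) (c (m (nat_lit 0x98f70)) e)) (c (c (m (nat_lit 0x990f0)) e) e)))) (c (c (c (p (nat_lit 0xab0e10)) (c (m (nat_lit 0x1733d90)) (c (m (nat_lit 0x395db4)) e))) (c (c (m (nat_lit 0x1733d90)) (c (m (nat_lit 0x4c7880)) e)) (c (c (m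 (nat_lit 0x395db4)) e) e))) (c (c (c (p (nat_lit 0x349b024)) (c (m (nat_lit 0x98f70)) e)) (c (c (m (nat_lit 0x98f70)) e) e)) (c (c (c (m (nat_lit 0x47c22a8)) e) e) e)))) (c (c (c (c (m (nat_lit 0x2106f84)) (c (p (nat_lit 0xf75bf7c)) (c (m (nat_lit 0x131dc0)) e))) (c (c (p (nat_lit 0xf75bf7c)) (c (m (nat_lit 0x395db4)) e)) (c (c (m (nat_lit 0x131dc0)) e) e))) (c (c (c (p (nat_lit 0x349b024)) (c (m (nat_lit 0x98f70)) e)) (c (c (m (nat_lit 0x98f70)) e) e)) (c (c (c (m (nat_lit 0x6ccada0)) e) e) e))) (c (c (c (c (m (nat_lit 0x7d8e72c)) (c (m (nat_lit 0x990f0)) e)) (c (c (m (nat_lit 0x990f0)) e) e)) (c (c (c (m (nat_lit 0x47c22a8)) e) e) e)) (c (c (c (c (m (nat_lit 0x1287bc4)) e) e) e) e))))) (c (c (c (c (c (p (nat_lit 0xff729e58)) (c (m (nat_lit 0x7ae8d74)) (c (m (nat_lit 0x1feabe1c)) (c (p (nat_lit 0xa500e10)) e)))) (c (c (m (nat_lit 0x7ae8d74))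 (c (m (nat_lit 0x602bc8)) (c (p (nat_lit 0x3bcb314)) e))) (c (c (m (nat_lit 0x1feabe1c)) (c (p (nat_lit 0x3bcb314)) e)) (c (c (p (nat_lit 0xa500e10)) e) e)))) (c (c (c (m (nat_lit 0x7c8b2c8)) (c (p (nat_lit 0x5c03610)) (c (m (nat_lit 0x1324c8)) e))) (c (c (p (nat_lit 0x5c03610)) (c (m (nat_lit 0x132150)) e)) (c (c (m (nat_lit 0x1324c8)) e) e))) (c (c (c (p (nat_lit 0x27577188)) (c (m (nat_lit 0xfff9360)) e)) (c (c (m (nat_lit 0xfff9360)) e) e)) (c (c (c (m (nat_lit 0x1311c0)) e) e) e)))) (c (c (c (c (m (nat_lit 0x7c8b2c8)) (c (p (nat_lit 0x5c03610)) (c (m (nat_lit 0x1324c8)) e))) (c (c (p (nat_lit 0x5c03610)) (c (m (nat_lit 0x132150)) e)) (c (c (m (nat_lit 0x1324c8)) e) e))) (c (c (c (p (nat_lit 0xed71400)) (c (m (nat_lit 0x131e68)) e)) (c (c (m (nat_lit 0x131e68)) e) e)) (c (c (c (m (nat_lit 0x131808)) e) e) e))) (c (c (c (c (p (nat_lit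 0x27577188)) (c (m (nat_lit 0xfff9360)) e)) (c (c (m (nat_lit 0xfff9360)) e) e)) (c (c (c (m (nat_lit 0x131808)) e) e) e)) (c (c (c (c (m (nat_lit 0x1311c0)) e) e) e) e)))) (c (c (c (c (c (m (nat_lit 0x12a5b7210)) (c (m (nat_lit 0x3d173a8)) (c (p (nat_lit 0xeb106e8)) e))) (c (c (m (nat_lit 0x3d173a8)) (c (m (nat_lit 0x6ccc210)) e)) (c (c (p (nat_lit 0xeb106e8)) e) e))) (c (c (c (p (nat_lit 0x231f48d8)) (c (m (nat_lit 0x98dcc)) e)) (c (c (m (nat_lit 0x98dcc)) e) e)) (c (c (c (m (nat_lit 0x14207c58)) e) e) e))) (c (c (c (c (p (nat_lit 0x231f48d8)) (c (m (nat_lit 0x98dcc)) e)) (c (c (m (nat_lit 0x98dcc)) e) e)) (c (c (c (m (nat_lit 0x854ea58)) e) e) e)) (c (c (c (c (m (nat_lit 0x14207c58)) e) e) e) e))) (c (c (c (c (c (p (nat_lit 0x223972b0)) (c (m (nat_lit 0x1c171c8)) e)) (c (c (m (nat_lit 0x1c171c8)) e) e)) (c (c (c (m (nat_lit 0x131550))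 e) e) e)) (c (c (c (c (m (nat_lit 0x131550)) e) e) e) e)) (c (c (c (c (c (m (nat_lit 0xbf1f18)) e) e) e) e) e))))) (c (c (c (c (c (c (m (nat_lit 0x9f88c50)) (c (p (nat_lit 0x20505750)) (c (m (nat_lit 0x2ec992c)) (c (p (nat_lit 0x1a4)) e)))) (c (c (p (nat_lit 0x524c0e8)) (c (m (nat_lit 0x149fe68c)) (c (p (nat_lit 0x4feeb08)) e))) (c (c (m (nat_lit 0x112dfcd0)) (c (p (nat_lit 0x99edbdc)) e)) (c (c (p (nat_lit 0x4965d74)) e) e)))) (c (c (c (p (nat_lit 0x20505750)) (c (m (nat_lit 0xee47fc0)) (c (p (nat_lit 0x594)) e))) (c (c (m (nat_lit 0xc2103e4)) (c (p (nat_lit 0x74c610)) e)) (c (c (p (nat_lit 0x6b3370)) e) e))) (c (c (c (m (nat_lit 0x2ec992c)) (c (p (nat_lit 0x594)) e)) (c (c (p (nat_lit 0x57c)) e) e)) (c (c (c (p (nat_lit 0x1a4)) e) e) e)))) (c (c (c (c (p (nat_lit 0x524c0e8)) (c (m (nat_lit 0xc2103e4)) (c (p (nat_lit 0x57c)) e))) (c (c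 (p (nat_lit 0x18b383c8)) (c (p (nat_lit 0x6b262c)) e)) (c (c (p (nat_lit 0x58053c)) e) e))) (c (c (c (m (nat_lit 0x149fe68c)) (c (p (nat_lit 0x74c610)) e)) (c (c (p (nat_lit 0x6b262c)) e) e)) (c (c (c (p (nat_lit 0x4feeb08)) e) e) e))) (c (c (c (c (m (nat_lit 0x112dfcd0)) (c (p (nat_lit 0x6b3370)) e)) (c (c (p (nat_lit 0x58053c)) e) e)) (c (c (c (p (nat_lit 0x99edbdc)) e) e) e)) (c (c (c (c (p (nat_lit 0x4965d74)) e) e) e) e)))) (c (c (c (c (c (p (nat_lit 0xcf6576c)) (c (p (nat_lit 0x4d3d468)) (c (m (nat_lit 0x98cc4)) e))) (c (c (m (nat_lit 0x4c40e68)) (c (p (nat_lit 0x4ebd108)) e)) (c (c (p (nat_lit 0x4965a20)) e) e))) (c (c (c (m (nat_lit 0x158f9ab4)) (c (p (nat_lit 0x99ce4)) e)) (c (c (p (nat_lit 0x6b31e4)) e) e)) (c (c (c (p (nat_lit 0x498)) e) e) e))) (c (c (c (c (m (nat_lit 0x606b340)) (c (m (nat_lit 0x5ae1000)) e)) (c (c (m (nat_lit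 0x54c8220)) e) e)) (c (c (c (m (nat_lit 0x67c4640)) e) e) e)) (c (c (c (c (p (nat_lit 0x4e7248)) e) e) e) e))) (c (c (c (c (c (p (nat_lit 0x3a6d0acc)) (c (m (nat_lit 0x131d3c)) e)) (c (c (p (nat_lit 0x993b4)) e) e)) (c (c (c (m (nat_lit 0x41584a4)) e) e) e)) (c (c (c (c (m (nat_lit 0x9c39d44)) e) e) e) e)) (c (c (c (c (c (m (nat_lit 0x6c59e80)) e) e) e) e) e)))) (c (c (c (c (c (c (m (nat_lit 0x1424ef68)) (c (m (nat_lit 0x9da9298)) (c (m (nat_lit 0x99210)) e))) (c (c (p (nat_lit 0x1745d36c)) (c (m (nat_lit 0x99060)) e)) (c (c (m (nat_lit 0x99330)) e) e))) (c (c (c (m (nat_lit 0x9da9298)) (c (p (nat_lit 0x6d73088)) e)) (c (c (p (nat_lit 0x6e0ba70)) e) e)) (c (c (c (m (nat_lit 0x99210)) e) e) e))) (c (c (c (c (p (nat_lit 0x1745d36c)) (c (p (nat_lit 0x6e0ba70)) e)) (c (c (m (nat_lit 0x1a52bb80)) e) e)) (c (c (c (m (nat_lit 0x99060)) e) e)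 e)) (c (c (c (c (m (nat_lit 0x99330)) e) e) e) e))) (c (c (c (c (c (m (nat_lit 0xa149bd0)) (c (m (nat_lit 0x1c8)) e)) (c (c (m (nat_lit 0x98eb0)) e) e)) (c (c (c (p (nat_lit 0x6ea5b08)) e) e) e)) (c (c (c (c (p (nat_lit 0x6f3edb4)) e) e) e) e)) (c (c (c (c (c (m (nat_lit 0x98ee0)) e) e) e) e) e))) (c (c (c (c (c (c (p (nat_lit 0xab5988)) (c (m (nat_lit 0x98ef8)) e)) (c (c (m (nat_lit 0x992f4)) e) e)) (c (c (c (m (nat_lit 0x98ef8)) e) e) e)) (c (c (c (c (m (nat_lit 0x992f4)) e) e) e) e)) (c (c (c (c (c (m (nat_lit 0x94650)) e) e) e) e) e)) (c (c (c (c (c (c (m (nat_lit 0x3927f0)) e) e) e) e) e) e))))) (c (c (c (c (c (c (c (m (nat_lit 0x9f88c50)) (c (p (nat_lit 0x20505750)) (c (m (nat_lit 0x2ec992c)) (c (p (nat_lit 0x1a4)) e)))) (c (c (p (nat_lit 0x524c0e8)) (c (m (nat_lit 0x149fe68c)) (c (p (nat_lit 0x4feeb08)) e))) (c (c (m (nat_lit 0x112dfcd0))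 (c (p (nat_lit 0x99edbdc)) e)) (c (c (p (nat_lit 0x4965d74)) e) e)))) (c (c (c (p (nat_lit 0x524c0e8)) (c (m (nat_lit 0xc2103e4)) (c (p (nat_lit 0x57c)) e))) (c (c (p (nat_lit 0x18b383c8)) (c (p (nat_lit 0x6b262c)) e)) (c (c (p (nat_lit 0x58053c)) e) e))) (c (c (c (m (nat_lit 0x112dfcd0)) (c (p (nat_lit 0x6b3370)) e)) (c (c (p (nat_lit 0x58053c)) e) e)) (c (c (c (p (nat_lit 0x4965d74)) e) e) e)))) (c (c (c (c (p (nat_lit 0x20505750)) (c (m (nat_lit 0xee47fc0)) (c (p (nat_lit 0x594)) e))) (c (c (m (nat_lit 0xc2103e4)) (c (p (nat_lit 0x74c610)) e)) (c (c (p (nat_lit 0x6b3370)) e) e))) (c (c (c (m (nat_lit 0x149fe68c)) (c (p (nat_lit 0x74c610)) e)) (c (c (p (nat_lit 0x6b262c)) e) e)) (c (c (c (p (nat_lit 0x99edbdc)) e) e) e))) (c (c (c (c (m (nat_lit 0x2ec992c)) (c (p (nat_lit 0x594)) e)) (c (c (p (nat_lit 0x57c)) e) e)) (c (c (c (p (nat_lit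 0x4feeb08)) e) e) e)) (c (c (c (c (p (nat_lit 0x1a4)) e) e) e) e)))) (c (c (c (c (c (p (nat_lit 0xcf6576c)) (c (p (nat_lit 0x4d3d468)) (c (m (nat_lit 0x98cc4)) e))) (c (c (m (nat_lit 0x4c40e68)) (c (p (nat_lit 0x4ebd108)) e)) (c (c (p (nat_lit 0x4965a20)) e) e))) (c (c (c (m (nat_lit 0x606b340)) (c (m (nat_lit 0x5ae1000)) e)) (c (c (m (nat_lit 0x54c8220)) e) e)) (c (c (c (p (nat_lit 0x4e7248)) e) e) e))) (c (c (c (c (m (nat_lit 0x158f9ab4)) (c (p (nat_lit 0x99ce4)) e)) (c (c (p (nat_lit 0x6b31e4)) e) e)) (c (c (c (m (nat_lit 0x67c4640)) e) e) e)) (c (c (c (c (p (nat_lit 0x498)) e) e) e) e))) (c (c (c (c (c (p (nat_lit 0x3a6d0acc)) (c (m (nat_lit 0x131d3c)) e)) (c (c (p (nat_lit 0x993b4)) e) e)) (c (c (c (m (nat_lit 0x9c39d44)) e) e) e)) (c (c (c (c (m (nat_lit 0x41584a4)) e) e) e) e)) (c (c (c (c (c (m (nat_lit 0x6c59e80)) e) e) e) e)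 e)))) (c (c (c (c (c (c (p (nat_lit 0xf4a268c)) (c (m (nat_lit 0x13a99538)) (c (m (nat_lit 0x132c18)) e))) (c (c (m (nat_lit 0x12fbc928)) (c (m (nat_lit 0x1317f0)) e)) (c (c (m (nat_lit 0x133d40)) e) e))) (c (c (c (p (nat_lit 0x89fca90)) (c (m (nat_lit 0x98f7c)) e)) (c (c (m (nat_lit 0x43b504)) e) e)) (c (c (c (m (nat_lit 0x42e0dd8)) e) e) e))) (c (c (c (c (p (nat_lit 0x89fca90)) (c (m (nat_lit 0x98f7c)) e)) (c (c (m (nat_lit 0x43b504)) e) e)) (c (c (c (m (nat_lit 0x85c1d30)) e) e) e)) (c (c (c (c (m (nat_lit 0x42e0dd8)) e) e) e) e))) (c (c (c (c (c (m (nat_lit 0x13a98e6c)) (c (m (nat_lit 0x132018)) e)) (c (c (m (nat_lit 0x131d78)) e) e)) (c (c (c (m (nat_lit 0x132168)) e) e) e)) (c (c (c (c (m (nat_lit 0x132168)) e) e) e) e)) (c (c (c (c (c (m (nat_lit 0x2e3c6da0)) e) e) e) e) e))) (c (c (c (c (c (c (m (nat_lit 0x3036474)) (c (p (nat_lit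 0x3200b50)) e)) (c (c (p (nat_lit 0x3200ca0)) e) e)) (c (c (c (m (nat_lit 0x98e80)) e) e) e)) (c (c (c (c (m (nat_lit 0x990b4)) e) e) e) e)) (c (c (c (c (c (p (nat_lit 0x3200ba4)) e) e) e) e) e)) (c (c (c (c (c (c (m (nat_lit 0x98fa0)) e) e) e) e) e) e)))) (c (c (c (c (c (c (c (m (nat_lit 0x1424ef68)) (c (m (nat_lit 0x9da9298)) (c (m (nat_lit 0x99210)) e))) (c (c (p (nat_lit 0x1745d36c)) (c (m (nat_lit 0x99060)) e)) (c (c (m (nat_lit 0x99330)) e) e))) (c (c (c (p (nat_lit 0x1745d36c)) (c (p (nat_lit 0x6e0ba70)) e)) (c (c (m (nat_lit 0x1a52bb80)) e) e)) (c (c (c (m (nat_lit 0x99330)) e) e) e))) (c (c (c (c (m (nat_lit 0x9da9298)) (c (p (nat_lit 0x6d73088)) e)) (c (c (p (nat_lit 0x6e0ba70)) e) e)) (c (c (c (m (nat_lit 0x99060)) e) e) e)) (c (c (c (c (m (nat_lit 0x99210)) e) e) e) e))) (c (c (c (c (c (m (nat_lit 0xa149bd0)) (c (m (nat_lit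 0x1c8)) e)) (c (c (m (nat_lit 0x98eb0)) e) e)) (c (c (c (p (nat_lit 0x6f3edb4)) e) e) e)) (c (c (c (c (p (nat_lit 0x6ea5b08)) e) e) e) e)) (c (c (c (c (c (m (nat_lit 0x98ee0)) e) e) e) e) e))) (c (c (c (c (c (c (m (nat_lit 0x3036474)) (c (p (nat_lit 0x3200b50)) e)) (c (c (p (nat_lit 0x3200ca0)) e) e)) (c (c (c (m (nat_lit 0x990b4)) e) e) e)) (c (c (c (c (m (nat_lit 0x98e80)) e) e) e) e)) (c (c (c (c (c (p (nat_lit 0x3200ba4)) e) e) e) e) e)) (c (c (c (c (c (c (m (nat_lit 0x131eec)) e) e) e) e) e) e))) (c (c (c (c (c (c (c (p (nat_lit 0xab5988)) (c (m (nat_lit 0x98ef8)) e)) (c (c (m (nat_lit 0x992f4)) e) e)) (c (c (c (m (nat_lit 0x992f4)) e) e) e)) (c (c (c (c (m (nat_lit 0x98ef8)) e) e) e) e)) (c (c (c (c (c (m (nat_lit 0x94650)) e) e) e) e) e)) (c (c (c (c (c (c (m (nat_lit 0x98fa0)) e) e) e) e) e) e)) (c (c (c (c (c (c (c (m (nat_lit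 0x3927f0)) e) e) e) e) e) e) e))))) (c (c (c (c (c (c (c (c (m (nat_lit 0x9f88c50)) (c (p (nat_lit 0x524c0e8)) (c (m (nat_lit 0x112dfcd0)) (c (p (nat_lit 0x4965d74)) e)))) (c (c (p (nat_lit 0x20505750)) (c (m (nat_lit 0x149fe68c)) (c (p (nat_lit 0x99edbdc)) e))) (c (c (m (nat_lit 0x2ec992c)) (c (p (nat_lit 0x4feeb08)) e)) (c (c (p (nat_lit 0x1a4)) e) e)))) (c (c (c (p (nat_lit 0x20505750)) (c (m (nat_lit 0xc2103e4)) (c (p (nat_lit 0x6b3370)) e))) (c (c (m (nat_lit 0xee47fc0)) (c (p (nat_lit 0x74c610)) e)) (c (c (p (nat_lit 0x594)) e) e))) (c (c (c (m (nat_lit 0x2ec992c)) (c (p (nat_lit 0x57c)) e)) (c (c (p (nat_lit 0x594)) e) e)) (c (c (c (p (nat_lit 0x1a4)) e) e) e)))) (c (c (c (c (p (nat_lit 0x524c0e8)) (c (p (nat_lit 0x18b383c8)) (c (p (nat_lit 0x58053c)) e))) (c (c (m (nat_lit 0xc2103e4)) (c (p (nat_lit 0x6b262c)) e)) (c (c (p (nat_lit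 0x57c)) e) e))) (c (c (c (m (nat_lit 0x149fe68c)) (c (p (nat_lit 0x6b262c)) e)) (c (c (p (nat_lit 0x74c610)) e) e)) (c (c (c (p (nat_lit 0x4feeb08)) e) e) e))) (c (c (c (c (m (nat_lit 0x112dfcd0)) (c (p (nat_lit 0x58053c)) e)) (c (c (p (nat_lit 0x6b3370)) e) e)) (c (c (c (p (nat_lit 0x99edbdc)) e) e) e)) (c (c (c (c (p (nat_lit 0x4965d74)) e) e) e) e)))) (c (c (c (c (c (p (nat_lit 0xcf6576c)) (c (m (nat_lit 0x4c40e68)) (c (p (nat_lit 0x4965a20)) e))) (c (c (p (nat_lit 0x4d3d468)) (c (p (nat_lit 0x4ebd108)) e)) (c (c (m (nat_lit 0x98cc4)) e) e))) (c (c (c (m (nat_lit 0x158f9ab4)) (c (p (nat_lit 0x6b31e4)) e)) (c (c (p (nat_lit 0x99ce4)) e) e)) (c (c (c (p (nat_lit 0x498)) e) e) e))) (c (c (c (c (m (nat_lit 0x606b340)) (c (m (nat_lit 0x54c8220)) e)) (c (c (m (nat_lit 0x5ae1000)) e) e)) (c (c (c (m (nat_lit 0x67c4640)) e) e) e)) (c (c (c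 (c (p (nat_lit 0x4e7248)) e) e) e) e))) (c (c (c (c (c (p (nat_lit 0x3a6d0acc)) (c (p (nat_lit 0x993b4)) e)) (c (c (m (nat_lit 0x131d3c)) e) e)) (c (c (c (m (nat_lit 0x41584a4)) e) e) e)) (c (c (c (c (m (nat_lit 0x9c39d44)) e) e) e) e)) (c (c (c (c (c (m (nat_lit 0x6c59e80)) e) e) e) e) e)))) (c (c (c (c (c (c (p (nat_lit 0xf4a268c)) (c (p (nat_lit 0x89fca90)) (c (m (nat_lit 0x42e0dd8)) e))) (c (c (p (nat_lit 0x89fca90)) (c (m (nat_lit 0x85c1d30)) e)) (c (c (m (nat_lit 0x42e0dd8)) e) e))) (c (c (c (m (nat_lit 0x13a99538)) (c (m (nat_lit 0x98f7c)) e)) (c (c (m (nat_lit 0x98f7c)) e) e)) (c (c (c (m (nat_lit 0x132c18)) e) e) e))) (c (c (c (c (m (nat_lit 0x12fbc928)) (c (m (nat_lit 0x43b504)) e)) (c (c (m (nat_lit 0x43b504)) e) e)) (c (c (c (m (nat_lit 0x1317f0)) e) e) e)) (c (c (c (c (m (nat_lit 0x133d40)) e) e) e) e))) (c (c (c (c (c (m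 (nat_lit 0x50d5a30)) (c (m (nat_lit 0x85c1910)) e)) (c (c (m (nat_lit 0x85c1910)) e) e)) (c (c (c (p (nat_lit 0xd697490)) e) e) e)) (c (c (c (c (p (nat_lit 0xd6979a0)) e) e) e) e)) (c (c (c (c (c (m (nat_lit 0x44b17d8)) e) e) e) e) e))) (c (c (c (c (c (c (m (nat_lit 0x3036474)) (c (m (nat_lit 0x98e80)) e)) (c (c (m (nat_lit 0x990b4)) e) e)) (c (c (c (p (nat_lit 0x3200b50)) e) e) e)) (c (c (c (c (p (nat_lit 0x3200ca0)) e) e) e) e)) (c (c (c (c (c (m (nat_lit 0x1caea4)) e) e) e) e) e)) (c (c (c (c (c (c (m (nat_lit 0x98fa0)) e) e) e) e) e) e)))) (c (c (c (c (c (c (c (p (nat_lit 0x73a0d0)) (c (p (nat_lit 0x9dfc8)) (c (m (nat_lit 0x1cd67c)) e))) (c (c (p (nat_lit 0x9dfc8)) (c (m (nat_lit 0x39acf8)) e)) (c (c (m (nat_lit 0x1cd67c)) e) e))) (c (c (c (p (nat_lit 0x9dfc8)) (c (m (nat_lit 0x131ec8)) e)) (c (c (m (nat_lit 0x2641e0)) e) e)) (c (c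 (c (m (nat_lit 0x1cd67c)) e) e) e))) (c (c (c (c (p (nat_lit 0x9dfc8)) (c (m (nat_lit 0x2641e0)) e)) (c (c (m (nat_lit 0x131ec8)) e) e)) (c (c (c (m (nat_lit 0x39acf8)) e) e) e)) (c (c (c (c (m (nat_lit 0x1cd67c)) e) e) e) e))) (c (c (c (c (c (p (nat_lit 0x26afa8)) (c (m (nat_lit 0x4cda18)) e)) (c (c (m (nat_lit 0x4cda18)) e) e)) (c (c (c (m (nat_lit 0x99120)) e) e) e)) (c (c (c (c (m (nat_lit 0x99120)) e) e) e) e)) (c (c (c (c (c (m (nat_lit 0x399ee8)) e) e) e) e) e))) (c (c (c (c (c (c (p (nat_lit 0xabd8e10)) (c (m (nat_lit 0x1cad84)) e)) (c (c (m (nat_lit 0x98d9c)) e) e)) (c (c (c (m (nat_lit 0x1cad84)) e) e) e)) (c (c (c (c (m (nat_lit 0x98d9c)) e) e) e) e)) (c (c (c (c (c (m (nat_lit 0x132054)) e) e) e) e) e)) (c (c (c (c (c (c (m (nat_lit 0x263d60)) e) e) e) e) e) e))) (c (c (c (c (c (c (c (m (nat_lit 0x273558)) (c (p (nat_lit 0x1a4))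 e)) (c (c (p (nat_lit 0x996fc)) e) e)) (c (c (c (p (nat_lit 0x996fc)) e) e) e)) (c (c (c (c (p (nat_lit 0x1a4)) e) e) e) e)) (c (c (c (c (c (p (nat_lit 0x21c)) e) e) e) e) e)) (c (c (c (c (c (c (m (nat_lit 0x98e80)) e) e) e) e) e) e)) (c (c (c (c (c (c (c (m (nat_lit 0x129b28)) e) e) e) e) e) e) e)))) (c (c (c (c (c (c (c (c (m (nat_lit 0x1424ef68)) (c (p (nat_lit 0x1745d36c)) (c (m (nat_lit 0x99330)) e))) (c (c (m (nat_lit 0x9da9298)) (c (m (nat_lit 0x99060)) e)) (c (c (m (nat_lit 0x99210)) e) e))) (c (c (c (m (nat_lit 0x9da9298)) (c (p (nat_lit 0x6e0ba70)) e)) (c (c (p (nat_lit 0x6d73088)) e) e)) (c (c (c (m (nat_lit 0x99210)) e) e) e))) (c (c (c (c (p (nat_lit 0x1745d36c)) (c (m (nat_lit 0x1a52bb80)) e)) (c (c (p (nat_lit 0x6e0ba70)) e) e)) (c (c (c (m (nat_lit 0x99060)) e) e) e)) (c (c (c (c (m (nat_lit 0x99330)) e) e) e) e))) (c (c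 (c (c (c (m (nat_lit 0xa149bd0)) (c (m (nat_lit 0x98eb0)) e)) (c (c (m (nat_lit 0x1c8)) e) e)) (c (c (c (p (nat_lit 0x6ea5b08)) e) e) e)) (c (c (c (c (p (nat_lit 0x6f3edb4)) e) e) e) e)) (c (c (c (c (c (m (nat_lit 0x98ee0)) e) e) e) e) e))) (c (c (c (c (c (c (m (nat_lit 0x3036474)) (c (m (nat_lit 0x990b4)) e)) (c (c (m (nat_lit 0x98e80)) e) e)) (c (c (c (p (nat_lit 0x3200b50)) e) e) e)) (c (c (c (c (p (nat_lit 0x3200ca0)) e) e) e) e)) (c (c (c (c (c (m (nat_lit 0x1caea4)) e) e) e) e) e)) (c (c (c (c (c (c (m (nat_lit 0x131eec)) e) e) e) e) e) e))) (c (c (c (c (c (c (c (m (nat_lit 0x273558)) (c (p (nat_lit 0x996fc)) e)) (c (c (p (nat_lit 0x1a4)) e) e)) (c (c (c (p (nat_lit 0x1a4)) e) e) e)) (c (c (c (c (p (nat_lit 0x996fc)) e) e) e) e)) (c (c (c (c (c (p (nat_lit 0x21c)) e) e) e) e) e)) (c (c (c (c (c (c (m (nat_lit 0x98e80)) e) e) e) e)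 e) e)) (c (c (c (c (c (c (c (m (nat_lit 0x264930)) e) e) e) e) e) e) e))) (c (c (c (c (c (c (c (c (p (nat_lit 0xab5988)) (c (m (nat_lit 0x992f4)) e)) (c (c (m (nat_lit 0x98ef8)) e) e)) (c (c (c (m (nat_lit 0x98ef8)) e) e) e)) (c (c (c (c (m (nat_lit 0x992f4)) e) e) e) e)) (c (c (c (c (c (m (nat_lit 0x94650)) e) e) e) e) e)) (c (c (c (c (c (c (m (nat_lit 0x98fa0)) e) e) e) e) e) e)) (c (c (c (c (c (c (c (m (nat_lit 0x129b28)) e) e) e) e) e) e) e)) (c (c (c (c (c (c (c (c (m (nat_lit 0x3927f0)) e) e) e) e) e) e) e) e))))) (c (c (c (c (c (c (c (c (c (m (nat_lit 0x9f88c50)) (c (p (nat_lit 0x524c0e8)) (c (m (nat_lit 0x112dfcd0)) (c (p (nat_lit 0x4965d74)) e)))) (c (c (p (nat_lit 0x20505750)) (c (m (nat_lit 0x149fe68c)) (c (p (nat_lit 0x99edbdc)) e))) (c (c (m (nat_lit 0x2ec992c)) (c (p (nat_lit 0x4feeb08)) e)) (c (c (p (nat_lit 0x1a4)) e) e))))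 (c (c (c (p (nat_lit 0x524c0e8)) (c (p (nat_lit 0x18b383c8)) (c (p (nat_lit 0x58053c)) e))) (c (c (m (nat_lit 0xc2103e4)) (c (p (nat_lit 0x6b262c)) e)) (c (c (p (nat_lit 0x57c)) e) e))) (c (c (c (m (nat_lit 0x112dfcd0)) (c (p (nat_lit 0x58053c)) e)) (c (c (p (nat_lit 0x6b3370)) e) e)) (c (c (c (p (nat_lit 0x4965d74)) e) e) e)))) (c (c (c (c (p (nat_lit 0x20505750)) (c (m (nat_lit 0xc2103e4)) (c (p (nat_lit 0x6b3370)) e))) (c (c (m (nat_lit 0xee47fc0)) (c (p (nat_lit 0x74c610)) e)) (c (c (p (nat_lit 0x594)) e) e))) (c (c (c (m (nat_lit 0x149fe68c)) (c (p (nat_lit 0x6b262c)) e)) (c (c (p (nat_lit 0x74c610)) e) e)) (c (c (c (p (nat_lit 0x99edbdc)) e) e) e))) (c (c (c (c (m (nat_lit 0x2ec992c)) (c (p (nat_lit 0x57c)) e)) (c (c (p (nat_lit 0x594)) e) e)) (c (c (c (p (nat_lit 0x4feeb08)) e) e) e)) (c (c (c (c (p (nat_lit 0x1a4)) e) e) e) e))))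 (c (c (c (c (c (p (nat_lit 0xcf6576c)) (c (m (nat_lit 0x4c40e68)) (c (p (nat_lit 0x4965a20)) e))) (c (c (p (nat_lit 0x4d3d468)) (c (p (nat_lit 0x4ebd108)) e)) (c (c (m (nat_lit 0x98cc4)) e) e))) (c (c (c (m (nat_lit 0x606b340)) (c (m (nat_lit 0x54c8220)) e)) (c (c (m (nat_lit 0x5ae1000)) e) e)) (c (c (c (p (nat_lit 0x4e7248)) e) e) e))) (c (c (c (c (m (nat_lit 0x158f9ab4)) (c (p (nat_lit 0x6b31e4)) e)) (c (c (p (nat_lit 0x99ce4)) e) e)) (c (c (c (m (nat_lit 0x67c4640)) e) e) e)) (c (c (c (c (p (nat_lit 0x498)) e) e) e) e))) (c (c (c (c (c (p (nat_lit 0x3a6d0acc)) (c (p (nat_lit 0x993b4)) e)) (c (c (m (nat_lit 0x131d3c)) e) e)) (c (c (c (m (nat_lit 0x9c39d44)) e) e) e)) (c (c (c (c (m (nat_lit 0x41584a4)) e) e) e) e)) (c (c (c (c (c (m (nat_lit 0x6c59e80)) e) e) e) e) e)))) (c (c (c (c (c (c (p (nat_lit 0x73a0d0)) (c (p (nat_lit 0x9dfc8))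 (c (m (nat_lit 0x1cd67c)) e))) (c (c (p (nat_lit 0x9dfc8)) (c (m (nat_lit 0x39acf8)) e)) (c (c (m (nat_lit 0x1cd67c)) e) e))) (c (c (c (p (nat_lit 0x9dfc8)) (c (m (nat_lit 0x2641e0)) e)) (c (c (m (nat_lit 0x131ec8)) e) e)) (c (c (c (m (nat_lit 0x1cd67c)) e) e) e))) (c (c (c (c (p (nat_lit 0x9dfc8)) (c (m (nat_lit 0x131ec8)) e)) (c (c (m (nat_lit 0x2641e0)) e) e)) (c (c (c (m (nat_lit 0x39acf8)) e) e) e)) (c (c (c (c (m (nat_lit 0x1cd67c)) e) e) e) e))) (c (c (c (c (c (p (nat_lit 0x26afa8)) (c (m (nat_lit 0x4cda18)) e)) (c (c (m (nat_lit 0x4cda18)) e) e)) (c (c (c (m (nat_lit 0x99120)) e) e) e)) (c (c (c (c (m (nat_lit 0x99120)) e) e) e) e)) (c (c (c (c (c (m (nat_lit 0x399ee8)) e) e) e) e) e))) (c (c (c (c (c (c (m (nat_lit 0x273558)) (c (p (nat_lit 0x1a4)) e)) (c (c (p (nat_lit 0x996fc)) e) e)) (c (c (c (p (nat_lit 0x1a4)) e) e) e)) (c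 (c (c (c (p (nat_lit 0x996fc)) e) e) e) e)) (c (c (c (c (c (p (nat_lit 0x21c)) e) e) e) e) e)) (c (c (c (c (c (c (m (nat_lit 0x129b28)) e) e) e) e) e) e)))) (c (c (c (c (c (c (c (p (nat_lit 0xf4a268c)) (c (p (nat_lit 0x89fca90)) (c (m (nat_lit 0x42e0dd8)) e))) (c (c (p (nat_lit 0x89fca90)) (c (m (nat_lit 0x85c1d30)) e)) (c (c (m (nat_lit 0x42e0dd8)) e) e))) (c (c (c (m (nat_lit 0x12fbc928)) (c (m (nat_lit 0x43b504)) e)) (c (c (m (nat_lit 0x43b504)) e) e)) (c (c (c (m (nat_lit 0x133d40)) e) e) e))) (c (c (c (c (m (nat_lit 0x13a99538)) (c (m (nat_lit 0x98f7c)) e)) (c (c (m (nat_lit 0x98f7c)) e) e)) (c (c (c (m (nat_lit 0x1317f0)) e) e) e)) (c (c (c (c (m (nat_lit 0x132c18)) e) e) e) e))) (c (c (c (c (c (m (nat_lit 0x50d5a30)) (c (m (nat_lit 0x85c1910)) e)) (c (c (m (nat_lit 0x85c1910)) e) e)) (c (c (c (p (nat_lit 0xd6979a0)) e) e) e)) (c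 (c (c (c (p (nat_lit 0xd697490)) e) e) e) e)) (c (c (c (c (c (m (nat_lit 0x44b17d8)) e) e) e) e) e))) (c (c (c (c (c (c (p (nat_lit 0xabd8e10)) (c (m (nat_lit 0x1cad84)) e)) (c (c (m (nat_lit 0x98d9c)) e) e)) (c (c (c (m (nat_lit 0x98d9c)) e) e) e)) (c (c (c (c (m (nat_lit 0x1cad84)) e) e) e) e)) (c (c (c (c (c (m (nat_lit 0x132054)) e) e) e) e) e)) (c (c (c (c (c (c (m (nat_lit 0x98e80)) e) e) e) e) e) e))) (c (c (c (c (c (c (c (m (nat_lit 0x3036474)) (c (m (nat_lit 0x98e80)) e)) (c (c (m (nat_lit 0x990b4)) e) e)) (c (c (c (p (nat_lit 0x3200ca0)) e) e) e)) (c (c (c (c (p (nat_lit 0x3200b50)) e) e) e) e)) (c (c (c (c (c (m (nat_lit 0x1caea4)) e) e) e) e) e)) (c (c (c (c (c (c (m (nat_lit 0x263d60)) e) e) e) e) e) e)) (c (c (c (c (c (c (c (m (nat_lit 0x98fa0)) e) e) e) e) e) e) e)))) (c (c (c (c (c (c (c (c (p (nat_lit 0xf4a268c)) (c (m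 (nat_lit 0x12fbc928)) (c (m (nat_lit 0x133d40)) e))) (c (c (m (nat_lit 0x13a99538)) (c (m (nat_lit 0x1317f0)) e)) (c (c (m (nat_lit 0x132c18)) e) e))) (c (c (c (p (nat_lit 0x89fca90)) (c (m (nat_lit 0x43b504)) e)) (c (c (m (nat_lit 0x98f7c)) e) e)) (c (c (c (m (nat_lit 0x42e0dd8)) e) e) e))) (c (c (c (c (p (nat_lit 0x89fca90)) (c (m (nat_lit 0x43b504)) e)) (c (c (m (nat_lit 0x98f7c)) e) e)) (c (c (c (m (nat_lit 0x85c1d30)) e) e) e)) (c (c (c (c (m (nat_lit 0x42e0dd8)) e) e) e) e))) (c (c (c (c (c (m (nat_lit 0x13a98e6c)) (c (m (nat_lit 0x131d78)) e)) (c (c (m (nat_lit 0x132018)) e) e)) (c (c (c (m (nat_lit 0x132168)) e) e) e)) (c (c (c (c (m (nat_lit 0x132168)) e) e) e) e)) (c (c (c (c (c (m (nat_lit 0x2e3c6da0)) e) e) e) e) e))) (c (c (c (c (c (c (p (nat_lit 0xabd8e10)) (c (m (nat_lit 0x98d9c)) e)) (c (c (m (nat_lit 0x1cad84)) e) e))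 (c (c (c (m (nat_lit 0x1cad84)) e) e) e)) (c (c (c (c (m (nat_lit 0x98d9c)) e) e) e) e)) (c (c (c (c (c (m (nat_lit 0x132054)) e) e) e) e) e)) (c (c (c (c (c (c (m (nat_lit 0x98e80)) e) e) e) e) e) e))) (c (c (c (c (c (c (c (p (nat_lit 0xabd8e10)) (c (m (nat_lit 0x98d9c)) e)) (c (c (m (nat_lit 0x1cad84)) e) e)) (c (c (c (m (nat_lit 0x98d9c)) e) e) e)) (c (c (c (c (m (nat_lit 0x1cad84)) e) e) e) e)) (c (c (c (c (c (m (nat_lit 0x132054)) e) e) e) e) e)) (c (c (c (c (c (c (m (nat_lit 0x2aa9be70)) e) e) e) e) e) e)) (c (c (c (c (c (c (c (m (nat_lit 0x98e80)) e) e) e) e) e) e) e))) (c (c (c (c (c (c (c (c (m (nat_lit 0x3036474)) (c (p (nat_lit 0x3200ca0)) e)) (c (c (p (nat_lit 0x3200b50)) e) e)) (c (c (c (m (nat_lit 0x98e80)) e) e) e)) (c (c (c (c (m (nat_lit 0x990b4)) e) e) e) e)) (c (c (c (c (c (p (nat_lit 0x3200ba4)) e) e) e) e) e)) (c (c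 (c (c (c (c (m (nat_lit 0x263d60)) e) e) e) e) e) e)) (c (c (c (c (c (c (c (m (nat_lit 0x98e80)) e) e) e) e) e) e) e)) (c (c (c (c (c (c (c (c (m (nat_lit 0x98fa0)) e) e) e) e) e) e) e) e)))) (c (c (c (c (c (c (c (c (c (m (nat_lit 0x1424ef68)) (c (p (nat_lit 0x1745d36c)) (c (m (nat_lit 0x99330)) e))) (c (c (m (nat_lit 0x9da9298)) (c (m (nat_lit 0x99060)) e)) (c (c (m (nat_lit 0x99210)) e) e))) (c (c (c (p (nat_lit 0x1745d36c)) (c (m (nat_lit 0x1a52bb80)) e)) (c (c (p (nat_lit 0x6e0ba70)) e) e)) (c (c (c (m (nat_lit 0x99330)) e) e) e))) (c (c (c (c (m (nat_lit 0x9da9298)) (c (p (nat_lit 0x6e0ba70)) e)) (c (c (p (nat_lit 0x6d73088)) e) e)) (c (c (c (m (nat_lit 0x99060)) e) e) e)) (c (c (c (c (m (nat_lit 0x99210)) e) e) e) e))) (c (c (c (c (c (m (nat_lit 0xa149bd0)) (c (m (nat_lit 0x98eb0)) e)) (c (c (m (nat_lit 0x1c8)) e) e)) (c (c (c (p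 (nat_lit 0x6f3edb4)) e) e) e)) (c (c (c (c (p (nat_lit 0x6ea5b08)) e) e) e) e)) (c (c (c (c (c (m (nat_lit 0x98ee0)) e) e) e) e) e))) (c (c (c (c (c (c (m (nat_lit 0x273558)) (c (p (nat_lit 0x996fc)) e)) (c (c (p (nat_lit 0x1a4)) e) e)) (c (c (c (p (nat_lit 0x996fc)) e) e) e)) (c (c (c (c (p (nat_lit 0x1a4)) e) e) e) e)) (c (c (c (c (c (p (nat_lit 0x21c)) e) e) e) e) e)) (c (c (c (c (c (c (m (nat_lit 0x264930)) e) e) e) e) e) e))) (c (c (c (c (c (c (c (m (nat_lit 0x3036474)) (c (m (nat_lit 0x990b4)) e)) (c (c (m (nat_lit 0x98e80)) e) e)) (c (c (c (p (nat_lit 0x3200ca0)) e) e) e)) (c (c (c (c (p (nat_lit 0x3200b50)) e) e) e) e)) (c (c (c (c (c (m (nat_lit 0x1caea4)) e) e) e) e) e)) (c (c (c (c (c (c (m (nat_lit 0x98e80)) e) e) e) e) e) e)) (c (c (c (c (c (c (c (m (nat_lit 0x131eec)) e) e) e) e) e) e) e))) (c (c (c (c (c (c (c (c (m (nat_lit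 0x3036474)) (c (p (nat_lit 0x3200ca0)) e)) (c (c (p (nat_lit 0x3200b50)) e) e)) (c (c (c (m (nat_lit 0x990b4)) e) e) e)) (c (c (c (c (m (nat_lit 0x98e80)) e) e) e) e)) (c (c (c (c (c (p (nat_lit 0x3200ba4)) e) e) e) e) e)) (c (c (c (c (c (c (m (nat_lit 0x98e80)) e) e) e) e) e) e)) (c (c (c (c (c (c (c (m (nat_lit 0x263d60)) e) e) e) e) e) e) e)) (c (c (c (c (c (c (c (c (m (nat_lit 0x131eec)) e) e) e) e) e) e) e) e))) (c (c (c (c (c (c (c (c (c (p (nat_lit 0xab5988)) (c (m (nat_lit 0x992f4)) e)) (c (c (m (nat_lit 0x98ef8)) e) e)) (c (c (c (m (nat_lit 0x992f4)) e) e) e)) (c (c (c (c (m (nat_lit 0x98ef8)) e) e) e) e)) (c (c (c (c (c (m (nat_lit 0x94650)) e) e) e) e) e)) (c (c (c (c (c (c (m (nat_lit 0x129b28)) e) e) e) e) e) e)) (c (c (c (c (c (c (c (m (nat_lit 0x98fa0)) e) e) e) e) e) e) e)) (c (c (c (c (c (c (c (c (m (nat_lit 0x98fa0))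 e) e) e) e) e) e) e) e)) (c (c (c (c (c (c (c (c (c (m (nat_lit 0x3927f0)) e) e) e) e) e) e) e) e) e))))) (c (c (c (c (c (c (c (c (c (c (p (nat_lit 0xff729e58)) (c (m (nat_lit 0x7c8b2c8)) (c (p (nat_lit 0x27577188)) (c (m (nat_lit 0x1311c0)) e)))) (c (c (m (nat_lit 0x7c8b2c8)) (c (p (nat_lit 0xed71400)) (c (m (nat_lit 0x131808)) e))) (c (c (p (nat_lit 0x27577188)) (c (m (nat_lit 0x131808)) e)) (c (c (m (nat_lit 0x1311c0)) e) e)))) (c (c (c (m (nat_lit 0x7ae8d74)) (c (p (nat_lit 0x5c03610)) (c (m (nat_lit 0xfff9360)) e))) (c (c (p (nat_lit 0x5c03610)) (c (m (nat_lit 0x131e68)) e)) (c (c (m (nat_lit 0xfff9360)) e) e))) (c (c (c (m (nat_lit 0x1feabe1c)) (c (m (nat_lit 0x1324c8)) e)) (c (c (m (nat_lit 0x1324c8)) e) e)) (c (c (c (p (nat_lit 0xa500e10)) e) e) e)))) (c (c (c (c (m (nat_lit 0x7ae8d74)) (c (p (nat_lit 0x5c03610)) (c (m (nat_lit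 0xfff9360)) e))) (c (c (p (nat_lit 0x5c03610)) (c (m (nat_lit 0x131e68)) e)) (c (c (m (nat_lit 0xfff9360)) e) e))) (c (c (c (m (nat_lit 0x602bc8)) (c (m (nat_lit 0x132150)) e)) (c (c (m (nat_lit 0x132150)) e) e)) (c (c (c (p (nat_lit 0x3bcb314)) e) e) e))) (c (c (c (c (m (nat_lit 0x1feabe1c)) (c (m (nat_lit 0x1324c8)) e)) (c (c (m (nat_lit 0x1324c8)) e) e)) (c (c (c (p (nat_lit 0x3bcb314)) e) e) e)) (c (c (c (c (p (nat_lit 0xa500e10)) e) e) e) e)))) (c (c (c (c (c (m (nat_lit 0x22f25b800)) (c (p (nat_lit 0xd53d5c0)) (c (p (nat_lit 0x6f0)) e))) (c (c (p (nat_lit 0xd53d5c0)) (c (m (nat_lit 0x4c6b30)) e)) (c (c (p (nat_lit 0x6f0)) e) e))) (c (c (c (p (nat_lit 0xd53d5c0)) (c (m (nat_lit 0x263820)) e)) (c (c (m (nat_lit 0x263820)) e) e)) (c (c (c (p (nat_lit 0x6f0)) e) e) e))) (c (c (c (c (p (nat_lit 0xd53d5c0)) (c (m (nat_lit 0x263820)) e))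 (c (c (m (nat_lit 0x263820)) e) e)) (c (c (c (m (nat_lit 0x4c6b30)) e) e) e)) (c (c (c (c (p (nat_lit 0x6f0)) e) e) e) e))) (c (c (c (c (c (p (nat_lit 0x17f4da9d0)) (c (m (nat_lit 0x31a6838)) e)) (c (c (m (nat_lit 0x31a6838)) e) e)) (c (c (c (m (nat_lit 0x42a75c8)) e) e) e)) (c (c (c (c (m (nat_lit 0x42a75c8)) e) e) e) e)) (c (c (c (c (c (p (nat_lit 0x482a4da0)) e) e) e) e) e)))) (c (c (c (c (c (c (p (nat_lit 0xcf6576c)) (c (m (nat_lit 0x158f9ab4)) (c (p (nat_lit 0x498)) e))) (c (c (m (nat_lit 0x606b340)) (c (m (nat_lit 0x67c4640)) e)) (c (c (p (nat_lit 0x4e7248)) e) e))) (c (c (c (p (nat_lit 0x4d3d468)) (c (p (nat_lit 0x99ce4)) e)) (c (c (m (nat_lit 0x5ae1000)) e) e)) (c (c (c (m (nat_lit 0x98cc4)) e) e) e))) (c (c (c (c (m (nat_lit 0x4c40e68)) (c (p (nat_lit 0x6b31e4)) e)) (c (c (m (nat_lit 0x54c8220)) e) e)) (c (c (c (p (nat_lit 0x4ebd108))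 e) e) e)) (c (c (c (c (p (nat_lit 0x4965a20)) e) e) e) e))) (c (c (c (c (c (m (nat_lit 0xb3b93b0)) (c (p (nat_lit 0x1cba5c)) e)) (c (c (p (nat_lit 0x6b1e7c)) e) e)) (c (c (c (p (nat_lit 0x1cba5c)) e) e) e)) (c (c (c (c (p (nat_lit 0x6b1e7c)) e) e) e) e)) (c (c (c (c (c (m (nat_lit 0xdd31e64)) e) e) e) e) e))) (c (c (c (c (c (c (m (nat_lit 0xa149bd0)) (c (p (nat_lit 0x6ea5b08)) e)) (c (c (p (nat_lit 0x6f3edb4)) e) e)) (c (c (c (m (nat_lit 0x1c8)) e) e) e)) (c (c (c (c (m (nat_lit 0x98eb0)) e) e) e) e)) (c (c (c (c (c (p (nat_lit 0x6ea6330)) e) e) e) e) e)) (c (c (c (c (c (c (m (nat_lit 0x94650)) e) e) e) e) e) e)))) (c (c (c (c (c (c (c (p (nat_lit 0xcf6576c)) (c (m (nat_lit 0x158f9ab4)) (c (p (nat_lit 0x498)) e))) (c (c (m (nat_lit 0x606b340)) (c (m (nat_lit 0x67c4640)) e)) (c (c (p (nat_lit 0x4e7248)) e) e))) (c (c (c (m (nat_lit 0x4c40e68))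 (c (p (nat_lit 0x6b31e4)) e)) (c (c (m (nat_lit 0x54c8220)) e) e)) (c (c (c (p (nat_lit 0x4965a20)) e) e) e))) (c (c (c (c (p (nat_lit 0x4d3d468)) (c (p (nat_lit 0x99ce4)) e)) (c (c (m (nat_lit 0x5ae1000)) e) e)) (c (c (c (p (nat_lit 0x4ebd108)) e) e) e)) (c (c (c (c (m (nat_lit 0x98cc4)) e) e) e) e))) (c (c (c (c (c (m (nat_lit 0xb3b93b0)) (c (p (nat_lit 0x1cba5c)) e)) (c (c (p (nat_lit 0x6b1e7c)) e) e)) (c (c (c (p (nat_lit 0x6b1e7c)) e) e) e)) (c (c (c (c (p (nat_lit 0x1cba5c)) e) e) e) e)) (c (c (c (c (c (m (nat_lit 0xdd31e64)) e) e) e) e) e))) (c (c (c (c (c (c (m (nat_lit 0x50d5a30)) (c (p (nat_lit 0xd697490)) e)) (c (c (p (nat_lit 0xd6979a0)) e) e)) (c (c (c (m (nat_lit 0x85c1910)) e) e) e)) (c (c (c (c (m (nat_lit 0x85c1910)) e) e) e) e)) (c (c (c (c (c (p (nat_lit 0xd433958)) e) e) e) e) e)) (c (c (c (c (c (c (m (nat_lit 0x1caea4))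 e) e) e) e) e) e))) (c (c (c (c (c (c (c (m (nat_lit 0xa149bd0)) (c (p (nat_lit 0x6ea5b08)) e)) (c (c (p (nat_lit 0x6f3edb4)) e) e)) (c (c (c (m (nat_lit 0x98eb0)) e) e) e)) (c (c (c (c (m (nat_lit 0x1c8)) e) e) e) e)) (c (c (c (c (c (p (nat_lit 0x6ea6330)) e) e) e) e) e)) (c (c (c (c (c (c (m (nat_lit 0x1caea4)) e) e) e) e) e) e)) (c (c (c (c (c (c (c (m (nat_lit 0x94650)) e) e) e) e) e) e) e)))) (c (c (c (c (c (c (c (c (p (nat_lit 0xcf6576c)) (c (m (nat_lit 0x606b340)) (c (p (nat_lit 0x4e7248)) e))) (c (c (m (nat_lit 0x158f9ab4)) (c (m (nat_lit 0x67c4640)) e)) (c (c (p (nat_lit 0x498)) e) e))) (c (c (c (p (nat_lit 0x4d3d468)) (c (m (nat_lit 0x5ae1000)) e)) (c (c (p (nat_lit 0x99ce4)) e) e)) (c (c (c (m (nat_lit 0x98cc4)) e) e) e))) (c (c (c (c (m (nat_lit 0x4c40e68)) (c (m (nat_lit 0x54c8220)) e)) (c (c (p (nat_lit 0x6b31e4)) e) e))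 (c (c (c (p (nat_lit 0x4ebd108)) e) e) e)) (c (c (c (c (p (nat_lit 0x4965a20)) e) e) e) e))) (c (c (c (c (c (m (nat_lit 0xb3b93b0)) (c (p (nat_lit 0x6b1e7c)) e)) (c (c (p (nat_lit 0x1cba5c)) e) e)) (c (c (c (p (nat_lit 0x1cba5c)) e) e) e)) (c (c (c (c (p (nat_lit 0x6b1e7c)) e) e) e) e)) (c (c (c (c (c (m (nat_lit 0xdd31e64)) e) e) e) e) e))) (c (c (c (c (c (c (m (nat_lit 0x13a98e6c)) (c (m (nat_lit 0x132168)) e)) (c (c (m (nat_lit 0x132168)) e) e)) (c (c (c (m (nat_lit 0x132018)) e) e) e)) (c (c (c (c (m (nat_lit 0x131d78)) e) e) e) e)) (c (c (c (c (c (p (nat_lit 0xd433958)) e) e) e) e) e)) (c (c (c (c (c (c (p (nat_lit 0x3200ba4)) e) e) e) e) e) e))) (c (c (c (c (c (c (c (p (nat_lit 0x26afa8)) (c (m (nat_lit 0x99120)) e)) (c (c (m (nat_lit 0x99120)) e) e)) (c (c (c (m (nat_lit 0x4cda18)) e) e) e)) (c (c (c (c (m (nat_lit 0x4cda18)) e)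 e) e) e)) (c (c (c (c (c (m (nat_lit 0xcf0)) e) e) e) e) e)) (c (c (c (c (c (c (m (nat_lit 0x132054)) e) e) e) e) e) e)) (c (c (c (c (c (c (c (p (nat_lit 0x21c)) e) e) e) e) e) e) e))) (c (c (c (c (c (c (c (c (m (nat_lit 0xa149bd0)) (c (p (nat_lit 0x6f3edb4)) e)) (c (c (p (nat_lit 0x6ea5b08)) e) e)) (c (c (c (m (nat_lit 0x1c8)) e) e) e)) (c (c (c (c (m (nat_lit 0x98eb0)) e) e) e) e)) (c (c (c (c (c (p (nat_lit 0x6ea6330)) e) e) e) e) e)) (c (c (c (c (c (c (p (nat_lit 0x3200ba4)) e) e) e) e) e) e)) (c (c (c (c (c (c (c (p (nat_lit 0x21c)) e) e) e) e) e) e) e)) (c (c (c (c (c (c (c (c (m (nat_lit 0x94650)) e) e) e) e) e) e) e) e)))) (c (c (c (c (c (c (c (c (c (p (nat_lit 0xcf6576c)) (c (m (nat_lit 0x606b340)) (c (p (nat_lit 0x4e7248)) e))) (c (c (m (nat_lit 0x158f9ab4)) (c (m (nat_lit 0x67c4640)) e)) (c (c (p (nat_lit 0x498)) e) e))) (c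 (c (c (m (nat_lit 0x4c40e68)) (c (m (nat_lit 0x54c8220)) e)) (c (c (p (nat_lit 0x6b31e4)) e) e)) (c (c (c (p (nat_lit 0x4965a20)) e) e) e))) (c (c (c (c (p (nat_lit 0x4d3d468)) (c (m (nat_lit 0x5ae1000)) e)) (c (c (p (nat_lit 0x99ce4)) e) e)) (c (c (c (p (nat_lit 0x4ebd108)) e) e) e)) (c (c (c (c (m (nat_lit 0x98cc4)) e) e) e) e))) (c (c (c (c (c (m (nat_lit 0xb3b93b0)) (c (p (nat_lit 0x6b1e7c)) e)) (c (c (p (nat_lit 0x1cba5c)) e) e)) (c (c (c (p (nat_lit 0x6b1e7c)) e) e) e)) (c (c (c (c (p (nat_lit 0x1cba5c)) e) e) e) e)) (c (c (c (c (c (m (nat_lit 0xdd31e64)) e) e) e) e) e))) (c (c (c (c (c (c (p (nat_lit 0x26afa8)) (c (m (nat_lit 0x99120)) e)) (c (c (m (nat_lit 0x99120)) e) e)) (c (c (c (m (nat_lit 0x4cda18)) e) e) e)) (c (c (c (c (m (nat_lit 0x4cda18)) e) e) e) e)) (c (c (c (c (c (m (nat_lit 0xcf0)) e) e) e) e) e)) (c (c (c (c (c (c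 (p (nat_lit 0x21c)) e) e) e) e) e) e))) (c (c (c (c (c (c (c (m (nat_lit 0x13a98e6c)) (c (m (nat_lit 0x132168)) e)) (c (c (m (nat_lit 0x132168)) e) e)) (c (c (c (m (nat_lit 0x131d78)) e) e) e)) (c (c (c (c (m (nat_lit 0x132018)) e) e) e) e)) (c (c (c (c (c (p (nat_lit 0xd433958)) e) e) e) e) e)) (c (c (c (c (c (c (m (nat_lit 0x132054)) e) e) e) e) e) e)) (c (c (c (c (c (c (c (p (nat_lit 0x3200ba4)) e) e) e) e) e) e) e))) (c (c (c (c (c (c (c (c (m (nat_lit 0x50d5a30)) (c (p (nat_lit 0xd6979a0)) e)) (c (c (p (nat_lit 0xd697490)) e) e)) (c (c (c (m (nat_lit 0x85c1910)) e) e) e)) (c (c (c (c (m (nat_lit 0x85c1910)) e) e) e) e)) (c (c (c (c (c (p (nat_lit 0xd433958)) e) e) e) e) e)) (c (c (c (c (c (c (m (nat_lit 0x132054)) e) e) e) e) e) e)) (c (c (c (c (c (c (c (m (nat_lit 0x132054)) e) e) e) e) e) e) e)) (c (c (c (c (c (c (c (c (m (nat_lit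 0x1caea4)) e) e) e) e) e) e) e) e))) (c (c (c (c (c (c (c (c (c (m (nat_lit 0xa149bd0)) (c (p (nat_lit 0x6f3edb4)) e)) (c (c (p (nat_lit 0x6ea5b08)) e) e)) (c (c (c (m (nat_lit 0x98eb0)) e) e) e)) (c (c (c (c (m (nat_lit 0x1c8)) e) e) e) e)) (c (c (c (c (c (p (nat_lit 0x6ea6330)) e) e) e) e) e)) (c (c (c (c (c (c (p (nat_lit 0x21c)) e) e) e) e) e) e)) (c (c (c (c (c (c (c (p (nat_lit 0x3200ba4)) e) e) e) e) e) e) e)) (c (c (c (c (c (c (c (c (m (nat_lit 0x1caea4)) e) e) e) e) e) e) e) e)) (c (c (c (c (c (c (c (c (c (m (nat_lit 0x94650)) e) e) e) e) e) e) e) e) e)))) (c (c (c (c (c (c (c (c (c (c (m (nat_lit 0x12a5b7210)) (c (p (nat_lit 0x231f48d8)) (c (m (nat_lit 0x14207c58)) e))) (c (c (p (nat_lit 0x231f48d8)) (c (m (nat_lit 0x854ea58)) e)) (c (c (m (nat_lit 0x14207c58)) e) e))) (c (c (c (m (nat_lit 0x3d173a8)) (c (m (nat_lit 0x98dcc))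 e)) (c (c (m (nat_lit 0x98dcc)) e) e)) (c (c (c (p (nat_lit 0xeb106e8)) e) e) e))) (c (c (c (c (m (nat_lit 0x3d173a8)) (c (m (nat_lit 0x98dcc)) e)) (c (c (m (nat_lit 0x98dcc)) e) e)) (c (c (c (m (nat_lit 0x6ccc210)) e) e) e)) (c (c (c (c (p (nat_lit 0xeb106e8)) e) e) e) e))) (c (c (c (c (c (p (nat_lit 0x17f4da9d0)) (c (m (nat_lit 0x42a75c8)) e)) (c (c (m (nat_lit 0x42a75c8)) e) e)) (c (c (c (m (nat_lit 0x31a6838)) e) e) e)) (c (c (c (c (m (nat_lit 0x31a6838)) e) e) e) e)) (c (c (c (c (c (m (nat_lit 0x1376d12c0)) e) e) e) e) e))) (c (c (c (c (c (c (p (nat_lit 0x3a6d0acc)) (c (m (nat_lit 0x41584a4)) e)) (c (c (m (nat_lit 0x9c39d44)) e) e)) (c (c (c (m (nat_lit 0x131d3c)) e) e) e)) (c (c (c (c (p (nat_lit 0x993b4)) e) e) e) e)) (c (c (c (c (c (m (nat_lit 0xdd31e64)) e) e) e) e) e)) (c (c (c (c (c (c (m (nat_lit 0x98ee0)) e) e) e) e) e) e)))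 (c (c (c (c (c (c (c (p (nat_lit 0x3a6d0acc)) (c (m (nat_lit 0x41584a4)) e)) (c (c (m (nat_lit 0x9c39d44)) e) e)) (c (c (c (p (nat_lit 0x993b4)) e) e) e)) (c (c (c (c (m (nat_lit 0x131d3c)) e) e) e) e)) (c (c (c (c (c (m (nat_lit 0xdd31e64)) e) e) e) e) e)) (c (c (c (c (c (c (m (nat_lit 0x44b17d8)) e) e) e) e) e) e)) (c (c (c (c (c (c (c (m (nat_lit 0x98ee0)) e) e) e) e) e) e) e))) (c (c (c (c (c (c (c (c (p (nat_lit 0x3a6d0acc)) (c (m (nat_lit 0x9c39d44)) e)) (c (c (m (nat_lit 0x41584a4)) e) e)) (c (c (c (m (nat_lit 0x131d3c)) e) e) e)) (c (c (c (c (p (nat_lit 0x993b4)) e) e) e) e)) (c (c (c (c (c (m (nat_lit 0xdd31e64)) e) e) e) e) e)) (c (c (c (c (c (c (m (nat_lit 0x2e3c6da0)) e) e) e) e) e) e)) (c (c (c (c (c (c (c (m (nat_lit 0x399ee8)) e) e) e) e) e) e) e)) (c (c (c (c (c (c (c (c (m (nat_lit 0x98ee0)) e) e) e) e) e) e) e) e))) (c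 (c (c (c (c (c (c (c (c (p (nat_lit 0x3a6d0acc)) (c (m (nat_lit 0x9c39d44)) e)) (c (c (m (nat_lit 0x41584a4)) e) e)) (c (c (c (p (nat_lit 0x993b4)) e) e) e)) (c (c (c (c (m (nat_lit 0x131d3c)) e) e) e) e)) (c (c (c (c (c (m (nat_lit 0xdd31e64)) e) e) e) e) e)) (c (c (c (c (c (c (m (nat_lit 0x399ee8)) e) e) e) e) e) e)) (c (c (c (c (c (c (c (m (nat_lit 0x2e3c6da0)) e) e) e) e) e) e) e)) (c (c (c (c (c (c (c (c (m (nat_lit 0x44b17d8)) e) e) e) e) e) e) e) e)) (c (c (c (c (c (c (c (c (c (m (nat_lit 0x98ee0)) e) e) e) e) e) e) e) e) e))) (c (c (c (c (c (c (c (c (c (c (p (nat_lit 0x223972b0)) (c (m (nat_lit 0x131550)) e)) (c (c (m (nat_lit 0x131550)) e) e)) (c (c (c (m (nat_lit 0x1c171c8)) e) e) e)) (c (c (c (c (m (nat_lit 0x1c171c8)) e) e) e) e)) (c (c (c (c (c (p (nat_lit 0x482a4da0)) e) e) e) e) e)) (c (c (c (c (c (c (m (nat_lit 0x6c59e80))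 e) e) e) e) e) e)) (c (c (c (c (c (c (c (m (nat_lit 0x6c59e80)) e) e) e) e) e) e) e)) (c (c (c (c (c (c (c (c (m (nat_lit 0x6c59e80)) e) e) e) e) e) e) e) e)) (c (c (c (c (c (c (c (c (c (m (nat_lit 0x6c59e80)) e) e) e) e) e) e) e) e) e)) (c (c (c (c (c (c (c (c (c (c (m (nat_lit 0xbf1f18)) e) e) e) e) e) e) e) e) e) e)))))

theorem c1 : trsOK col trs = true := by decide +kernel
theorem c2 : Nat.ble (Nat.mul (nat_lit 39) (nat_lit 4556)) (nat_lit 4294967295) = true := by decide +kernel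
theorem c3 : Nat.beq (tabK (nat_lit 39) (List.ofFn s10)) kt = true := by decide +kernel
theorem c4 : okE trs E = true := by decide +kernel
theorem c5 : dE E (nat_lit 4) = true := by decide +kernel
theorem c6 : cmpK (nat_lit 10) (nat_lit 4) kt E T = true := by decide +kernel
theorem c7 : bndK (nat_lit 10) (nat_lit 4) (Nat.pow (nat_lit 2) (nat_lit 39)) E T = true := by decide +kernel

theorem c0 : Fl.codeB col = 30 := by decide +kernel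

theorem own : Fl.OwnOK 4 T 30 :=
  own_ok c0 c1 c2 c3 c4 c5 c6 c7

end H30

end Own

end HR
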