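import Pool.Agent.Lib.MP_a1b8b7_co.B.OwnOK

set_option autoImplicit false

namespace HR

namespace Own

namespace H31

open Chk

def col : Fin 10 → Bool := ![true, true, true, true, true, false, false, false, false, false]

def trs : List ℕ := [nat_lit 528, nat_lit 1072, nat_lit 2437]

def kt : ℕ := nat_lit 0x28000000c80000034800000898000017e800003c50000086100000e8f80001b1200002c7e0

open Ex in
noncomputable def E : Ex := (a (a (a (a (u (nat_lit 9) (v (nat_lit 9) (v (nat_lit 9) (v (nat_lit 9) (k (nat_lit 0x131964)))))) (v (nat_lit 8) (v (nat_lit 8) (a (u (nat_lit 9) (v (nat_lit 9) (k (nat_lit 0x131964)))) (v (nat_lit 8) (u (nat_lit 9) (k (nat_lit 0x131958)))))))) (a (u (nat_lit 8) (a (v (nat_lit 9) (v (nat_lit 9) (v (nat_lit 9) (k (nat_lit 0x131958))))) (v (nat_lit 8) (a (v (nat_lit 9) (v (nat_lit 9) (k (nat_lit 0x131964)))) (v (nat_lit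 8) (v (nat_lit 8) (k (nat_lit 0x131964)))))))) (a (v (nat_lit 7) (a (a (u (nat_lit 9) (v (nat_lit 9) (v (nat_lit 9) (k (nat_lit 0x970da))))) (v (nat_lit 8) (v (nat_lit 8) (u (nat_lit 9) (k (nat_lit 0x96bf4)))))) (a (u (nat_lit 8) (a (v (nat_lit 9) (v (nat_lit 9) (k (nat_lit 0x96bf4)))) (v (nat_lit 8) (v (nat_lit 8) (k (nat_lit 0x970da)))))) (v (nat_lit 7) (a (a (u (nat_lit 9) (v (nat_lit 9) (k (nat_lit 0x98f28)))) (v (nat_lit 8) (u (nat_lit 9) (k (nat_lit 0x992b2))))) (a (u (nat_lit 8) (a (v (nat_lit 9) (k (nat_lit 0x992b2))) (v (nat_lit 8) (k (nat_lit 0x98f28))))) (v (nat_lit 7) (a (u (nat_lit 9) (k (nat_lit 0x98e68))) (u (nat_lit 8) (k (nat_lit 0x98e68))))))))))) (u (nat_lit 7) (a (a (v (nat_lit 9) (v (nat_lit 9) (v (nat_lit 9) (k (nat_lit 0x9aa94))))) (v (nat_lit 8) (v (nat_lit 8) (v (nat_lit 8) (k (nat_lit 0x9aa94)))))) (a (u (nat_lit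 8) (a (u (nat_lit 9) (v (nat_lit 9) (k (nat_lit 0x9b14e)))) (v (nat_lit 8) (u (nat_lit 9) (k (nat_lit 0x9b14e)))))) (v (nat_lit 7) (a (u (nat_lit 8) (u (nat_lit 9) (k (nat_lit 0x1312a4)))) (v (nat_lit 7) (v (nat_lit 7) (k (nat_lit 0x131fe8)))))))))))) (a (a (v (nat_lit 6) (a (a (u (nat_lit 9) (v (nat_lit 9) (v (nat_lit 9) (k (nat_lit 0x970da))))) (a (v (nat_lit 8) (v (nat_lit 8) (u (nat_lit 9) (k (nat_lit 0x96bf4))))) (u (nat_lit 8) (a (v (nat_lit 9) (v (nat_lit 9) (k (nat_lit 0x96bf4)))) (v (nat_lit 8) (v (nat_lit 8) (k (nat_lit 0x970da)))))))) (a (v (nat_lit 7) (a (a (u (nat_lit 9) (v (nat_lit 9) (k (nat_lit 0x131de4)))) (v (nat_lit 8) (u (nat_lit 9) (k (nat_lit 0x131f88))))) (a (u (nat_lit 8) (a (v (nat_lit 9) (k (nat_lit 0x131f88))) (v (nat_lit 8) (k (nat_lit 0x131de4))))) (v (nat_lit 7) (a (u (nat_lit 9) (k (nat_lit 0x989ca))) (u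 (nat_lit 8) (k (nat_lit 0x989ca)))))))) (a (u (nat_lit 7) (a (v (nat_lit 9) (v (nat_lit 9) (k (nat_lit 0x9999c)))) (a (v (nat_lit 8) (v (nat_lit 8) (k (nat_lit 0x9999c)))) (v (nat_lit 7) (v (nat_lit 7) (k (nat_lit 0x13320c))))))) (v (nat_lit 6) (a (a (u (nat_lit 9) (v (nat_lit 9) (k (nat_lit 0x98f28)))) (a (v (nat_lit 8) (u (nat_lit 9) (k (nat_lit 0x992b2)))) (u (nat_lit 8) (a (v (nat_lit 9) (k (nat_lit 0x992b2))) (v (nat_lit 8) (k (nat_lit 0x98f28))))))) (a (v (nat_lit 7) (a (u (nat_lit 9) (k (nat_lit 0x989ca))) (u (nat_lit 8) (k (nat_lit 0x989ca))))) (a (u (nat_lit 7) (a (v (nat_lit 9) (k (nat_lit 0x99b5e))) (a (v (nat_lit 8) (k (nat_lit 0x99b5e))) (v (nat_lit 7) (k (nat_lit 0x133254)))))) (v (nat_lit 6) (a (u (nat_lit 9) (k (nat_lit 0x98e68))) (a (u (nat_lit 8) (k (nat_lit 0x98e68))) (u (nat_lit 7) (k (nat_lit 0x3940bc))))))))))))))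 (a (u (nat_lit 6) (a (a (v (nat_lit 9) (v (nat_lit 9) (v (nat_lit 9) (k (nat_lit 0x9aa94))))) (v (nat_lit 8) (v (nat_lit 8) (v (nat_lit 8) (k (nat_lit 0x9aa94)))))) (a (u (nat_lit 8) (a (u (nat_lit 9) (v (nat_lit 9) (k (nat_lit 0x9b14e)))) (v (nat_lit 8) (u (nat_lit 9) (k (nat_lit 0x9b14e)))))) (a (v (nat_lit 7) (a (v (nat_lit 9) (v (nat_lit 9) (k (nat_lit 0x9999c)))) (a (v (nat_lit 8) (v (nat_lit 8) (k (nat_lit 0x9999c)))) (v (nat_lit 7) (a (v (nat_lit 9) (k (nat_lit 0x99b5e))) (a (v (nat_lit 8) (k (nat_lit 0x99b5e))) (v (nat_lit 7) (k (nat_lit 0x3940bc))))))))) (v (nat_lit 6) (a (u (nat_lit 8) (u (nat_lit 9) (k (nat_lit 0x1312a4)))) (a (v (nat_lit 7) (v (nat_lit 7) (k (nat_lit 0x133254)))) (v (nat_lit 6) (a (v (nat_lit 7) (k (nat_lit 0x13320c))) (v (nat_lit 6) (k (nat_lit 0x131fe8)))))))))))) (v (nat_lit 5) (a (a (u (nat_lit 9) (v (nat_lit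 9) (v (nat_lit 9) (k (nat_lit 0x132c24))))) (a (v (nat_lit 8) (a (u (nat_lit 9) (v (nat_lit 9) (k (nat_lit 0x131940)))) (v (nat_lit 8) (u (nat_lit 9) (k (nat_lit 0x13197c)))))) (u (nat_lit 8) (a (v (nat_lit 9) (v (nat_lit 9) (k (nat_lit 0x13197c)))) (v (nat_lit 8) (a (v (nat_lit 9) (k (nat_lit 0x131940))) (v (nat_lit 8) (k (nat_lit 0x132c24))))))))) (a (a (v (nat_lit 7) (a (a (u (nat_lit 9) (v (nat_lit 9) (k (nat_lit 0x98ed4)))) (v (nat_lit 8) (u (nat_lit 9) (k (nat_lit 0x98f16))))) (a (u (nat_lit 8) (a (v (nat_lit 9) (k (nat_lit 0x98f16))) (v (nat_lit 8) (k (nat_lit 0x98ed4))))) (v (nat_lit 7) (a (u (nat_lit 9) (k (nat_lit 0x98e44))) (u (nat_lit 8) (k (nat_lit 0x98e44)))))))) (v (nat_lit 6) (a (a (u (nat_lit 9) (v (nat_lit 9) (k (nat_lit 0x98ed4)))) (a (v (nat_lit 8) (u (nat_lit 9) (k (nat_lit 0x98f16)))) (u (nat_lit 8) (a (v (nat_lit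 9) (k (nat_lit 0x98f16))) (v (nat_lit 8) (k (nat_lit 0x98ed4))))))) (a (v (nat_lit 7) (a (u (nat_lit 9) (k (nat_lit 0x1325d0))) (u (nat_lit 8) (k (nat_lit 0x1325d0))))) (a (u (nat_lit 7) (a (v (nat_lit 9) (k (nat_lit 0x98b44))) (v (nat_lit 8) (k (nat_lit 0x98b44))))) (v (nat_lit 6) (a (u (nat_lit 9) (k (nat_lit 0x98e44))) (a (u (nat_lit 8) (k (nat_lit 0x98e44))) (u (nat_lit 7) (k (nat_lit 0x131ff4))))))))))) (a (u (nat_lit 6) (v (nat_lit 7) (a (v (nat_lit 9) (k (nat_lit 0x98b44))) (a (v (nat_lit 8) (k (nat_lit 0x98b44))) (v (nat_lit 7) (k (nat_lit 0x131ff4))))))) (v (nat_lit 5) (a (a (u (nat_lit 9) (v (nat_lit 9) (k (nat_lit 0x132e88)))) (a (v (nat_lit 8) (u (nat_lit 9) (k (nat_lit 0x131958)))) (u (nat_lit 8) (a (v (nat_lit 9) (k (nat_lit 0x131958))) (v (nat_lit 8) (k (nat_lit 0x132e88))))))) (a (a (v (nat_lit 7) (a (u (nat_lit 9) (k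 (nat_lit 0x98cfa))) (u (nat_lit 8) (k (nat_lit 0x98cfa))))) (u (nat_lit 7) (v (nat_lit 7) (k (nat_lit 0x132e34))))) (a (v (nat_lit 6) (a (u (nat_lit 9) (k (nat_lit 0x98cfa))) (a (u (nat_lit 8) (k (nat_lit 0x98cfa))) (u (nat_lit 7) (k (nat_lit 0x131928)))))) (u (nat_lit 6) (a (v (nat_lit 7) (k (nat_lit 0x131928))) (v (nat_lit 6) (k (nat_lit 0x132e34))))))))))))))) (a (u (nat_lit 5) (a (a (a (v (nat_lit 9) (v (nat_lit 9) (v (nat_lit 9) (k (nat_lit 0x13068c))))) (v (nat_lit 8) (v (nat_lit 8) (v (nat_lit 8) (k (nat_lit 0x13068c)))))) (a (v (nat_lit 7) (v (nat_lit 7) (v (nat_lit 7) (k (nat_lit 0x131ff4))))) (u (nat_lit 7) (v (nat_lit 7) (v (nat_lit 7) (k (nat_lit 0x132054))))))) (a (a (v (nat_lit 6) (v (nat_lit 6) (a (u (nat_lit 7) (k (nat_lit 0x6a84a4c))) (v (nat_lit 6) (k (nat_lit 0x131ff4)))))) (u (nat_lit 6) (a (v (nat_lit 7) (v (nat_lit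 7) (k (nat_lit 0x6a84a4c)))) (v (nat_lit 6) (v (nat_lit 6) (k (nat_lit 0x132054))))))) (a (v (nat_lit 5) (a (a (v (nat_lit 9) (v (nat_lit 9) (k (nat_lit 0x130368)))) (v (nat_lit 8) (v (nat_lit 8) (k (nat_lit 0x130368))))) (a (v (nat_lit 7) (v (nat_lit 7) (k (nat_lit 0x130f2c)))) (a (v (nat_lit 6) (v (nat_lit 6) (k (nat_lit 0x130f2c)))) (v (nat_lit 5) (a (a (v (nat_lit 9) (k (nat_lit 0x131b20))) (a (u (nat_lit 9) (k (nat_lit 0x131b38))) (v (nat_lit 8) (k (nat_lit 0x131b20))))) (a (a (u (nat_lit 8) (k (nat_lit 0x131b38))) (v (nat_lit 7) (k (nat_lit 0x132084)))) (a (v (nat_lit 6) (k (nat_lit 0x132084))) (v (nat_lit 5) (k (nat_lit 0x263220))))))))))) (u (nat_lit 5) (a (v (nat_lit 6) (u (nat_lit 7) (k (nat_lit 0xc8ecc80)))) (u (nat_lit 6) (v (nat_lit 7) (k (nat_lit 0xc8ecc80)))))))))) (a (t (nat_lit 5) (nat_lit 8) (nat_lit 9) (a (a (u (nat_lit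 9) (u (nat_lit 9) (u (nat_lit 9) (k (nat_lit 0x131d18))))) (a (u (nat_lit 8) (a (u (nat_lit 9) (u (nat_lit 9) (k (nat_lit 0xb512518)))) (u (nat_lit 8) (a (u (nat_lit 9) (k (nat_lit 0xb512518))) (u (nat_lit 8) (k (nat_lit 0x131d18))))))) (u (nat_lit 7) (a (u (nat_lit 9) (u (nat_lit 9) (k (nat_lit 0x98eda)))) (u (nat_lit 8) (a (u (nat_lit 9) (k (nat_lit 0x6844b90))) (u (nat_lit 8) (k (nat_lit 0x98eda))))))))) (a (a (u (nat_lit 6) (a (u (nat_lit 9) (u (nat_lit 9) (k (nat_lit 0x98eda)))) (u (nat_lit 8) (a (u (nat_lit 9) (k (nat_lit 0x6844b90))) (u (nat_lit 8) (k (nat_lit 0x98eda))))))) (v (nat_lit 5) (a (u (nat_lit 7) (a (u (nat_lit 9) (k (nat_lit 0x176e6fe))) (u (nat_lit 8) (k (nat_lit 0x176e6fe))))) (u (nat_lit 6) (a (u (nat_lit 9) (k (nat_lit 0x176e6fe))) (u (nat_lit 8) (k (nat_lit 0x176e6fe)))))))) (a (u (nat_lit 5) (a (a (v (nat_lit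 7) (a (u (nat_lit 9) (k (nat_lit 0x997d4))) (u (nat_lit 8) (k (nat_lit 0x997d4))))) (v (nat_lit 6) (a (u (nat_lit 9) (k (nat_lit 0x997d4))) (u (nat_lit 8) (k (nat_lit 0x997d4)))))) (a (v (nat_lit 5) (v (nat_lit 5) (k (nat_lit 0x2645e8)))) (u (nat_lit 5) (a (v (nat_lit 7) (k (nat_lit 0x70140cc))) (v (nat_lit 6) (k (nat_lit 0x70140cc)))))))) (t (nat_lit 5) (nat_lit 8) (nat_lit 9) (a (v (nat_lit 6) (u (nat_lit 7) (k (nat_lit 0x13686c)))) (a (u (nat_lit 6) (v (nat_lit 7) (k (nat_lit 0x13686c)))) (u (nat_lit 5) (a (u (nat_lit 9) (k (nat_lit 0x36db5a0))) (u (nat_lit 8) (k (nat_lit 0x36db5a0)))))))))))) (v (nat_lit 4) (a (a (a (u (nat_lit 9) (v (nat_lit 9) (v (nat_lit 9) (k (nat_lit 0x96cb4))))) (v (nat_lit 8) (v (nat_lit 8) (u (nat_lit 9) (k (nat_lit 0x96060)))))) (a (u (nat_lit 8) (a (v (nat_lit 9) (v (nat_lit 9) (k (nat_lit 0x98d9c)))) (v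 (nat_lit 8) (a (v (nat_lit 9) (k (nat_lit 0x9e406))) (v (nat_lit 8) (k (nat_lit 0x9d74c))))))) (a (v (nat_lit 7) (a (a (u (nat_lit 9) (v (nat_lit 9) (k (nat_lit 0x98fa0)))) (v (nat_lit 8) (u (nat_lit 9) (k (nat_lit 0x98d5a))))) (a (u (nat_lit 8) (a (v (nat_lit 9) (k (nat_lit 0x9941a))) (v (nat_lit 8) (k (nat_lit 0x98f94))))) (v (nat_lit 7) (a (u (nat_lit 9) (k (nat_lit 0x990fc))) (u (nat_lit 8) (k (nat_lit 0x98f40)))))))) (u (nat_lit 7) (v (nat_lit 7) (v (nat_lit 7) (k (nat_lit 0x9898e)))))))) (a (a (v (nat_lit 6) (a (a (u (nat_lit 9) (v (nat_lit 9) (k (nat_lit 0x98f7c)))) (a (v (nat_lit 8) (u (nat_lit 9) (k (nat_lit 0x9805e)))) (u (nat_lit 8) (a (v (nat_lit 9) (k (nat_lit 0x99f24))) (v (nat_lit 8) (k (nat_lit 0x971ca))))))) (a (v (nat_lit 7) (a (u (nat_lit 9) (k (nat_lit 0x98f28))) (u (nat_lit 8) (k (nat_lit 0x98eec))))) (a (u (nat_lit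 7) (a (u (nat_lit 9) (k (nat_lit 0x6002478))) (a (u (nat_lit 8) (k (nat_lit 0xa51e0))) (u (nat_lit 7) (k (nat_lit 0x167ec5f0)))))) (v (nat_lit 6) (a (u (nat_lit 9) (k (nat_lit 0x99198))) (a (u (nat_lit 8) (k (nat_lit 0x95df6))) (u (nat_lit 7) (k (nat_lit 0x9f6de)))))))))) (a (u (nat_lit 6) (a (v (nat_lit 7) (v (nat_lit 7) (k (nat_lit 0xbb3ff08)))) (v (nat_lit 6) (a (v (nat_lit 8) (k (nat_lit 0x9cb8e))) (u (nat_lit 7) (k (nat_lit 0x9934e))))))) (v (nat_lit 5) (a (a (u (nat_lit 9) (v (nat_lit 9) (k (nat_lit 0x98e32)))) (a (v (nat_lit 8) (u (nat_lit 9) (k (nat_lit 0x997aa)))) (u (nat_lit 8) (a (v (nat_lit 9) (k (nat_lit 0x98640))) (v (nat_lit 8) (k (nat_lit 0x97da0))))))) (a (a (v (nat_lit 7) (a (u (nat_lit 9) (k (nat_lit 0x98a24))) (u (nat_lit 8) (k (nat_lit 0x98db4))))) (u (nat_lit 7) (v (nat_lit 7) (k (nat_lit 0x98bf8))))) (a (v (nat_lit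 6) (a (u (nat_lit 9) (k (nat_lit 0x98ff4))) (a (u (nat_lit 8) (k (nat_lit 0x98754))) (u (nat_lit 7) (k (nat_lit 0x99c78)))))) (u (nat_lit 6) (a (v (nat_lit 7) (k (nat_lit 0x996c6))) (v (nat_lit 6) (k (nat_lit 0x969f6))))))))))) (a (u (nat_lit 5) (a (a (v (nat_lit 8) (v (nat_lit 8) (k (nat_lit 0x99dbc)))) (a (v (nat_lit 7) (a (v (nat_lit 9) (k (nat_lit 0x9981c))) (v (nat_lit 7) (k (nat_lit 0x99462))))) (u (nat_lit 7) (v (nat_lit 7) (k (nat_lit 0x99852)))))) (a (v (nat_lit 6) (v (nat_lit 7) (k (nat_lit 0x98022)))) (a (u (nat_lit 6) (v (nat_lit 6) (k (nat_lit 0xdf8acb6)))) (v (nat_lit 5) (a (a (v (nat_lit 9) (k (nat_lit 0x99af8))) (v (nat_lit 8) (k (nat_lit 0x99096)))) (a (v (nat_lit 7) (k (nat_lit 0x99204))) (a (v (nat_lit 6) (k (nat_lit 0x9967e))) (v (nat_lit 5) (k (nat_lit 0x9905a))))))))))) (a (t (nat_lit 5) (nat_lit 8) (nat_lit 9) (u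 (nat_lit 5) (u (nat_lit 5) (k (nat_lit 0x990c0))))) (v (nat_lit 4) (a (a (a (u (nat_lit 9) (v (nat_lit 9) (k (nat_lit 0x98f64)))) (v (nat_lit 8) (u (nat_lit 9) (k (nat_lit 0x98ba4))))) (a (u (nat_lit 8) (a (v (nat_lit 9) (k (nat_lit 0x99198))) (v (nat_lit 8) (k (nat_lit 0x98ef2))))) (v (nat_lit 7) (a (u (nat_lit 9) (k (nat_lit 0x98d84))) (u (nat_lit 8) (k (nat_lit 0x98da8))))))) (a (a (v (nat_lit 6) (a (u (nat_lit 9) (k (nat_lit 0x98f64))) (a (u (nat_lit 8) (k (nat_lit 0x98f94))) (u (nat_lit 7) (k (nat_lit 0x9a794)))))) (u (nat_lit 6) (v (nat_lit 7) (k (nat_lit 0x98d5a))))) (a (u (nat_lit 5) (a (v (nat_lit 9) (k (nat_lit 0x97ae8))) (a (v (nat_lit 8) (k (nat_lit 0x98f04))) (v (nat_lit 5) (k (nat_lit 0x9a08c)))))) (v (nat_lit 4) (u (nat_lit 5) (k (nat_lit 0x2877dda))))))))))))))))) (a (a (a (u (nat_lit 4) (a (a (a (v (nat_lit 9) (v (nat_lit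 9) (v (nat_lit 9) (k (nat_lit 0x9af50))))) (v (nat_lit 8) (v (nat_lit 8) (a (u (nat_lit 9) (k (nat_lit 0x9b3a6))) (v (nat_lit 8) (k (nat_lit 0x94620))))))) (a (v (nat_lit 7) (v (nat_lit 7) (v (nat_lit 7) (k (nat_lit 0x993ae))))) (v (nat_lit 6) (a (v (nat_lit 8) (v (nat_lit 8) (k (nat_lit 0x425de94)))) (v (nat_lit 6) (v (nat_lit 6) (k (nat_lit 0x1caa9c)))))))) (a (a (v (nat_lit 5) (u (nat_lit 6) (v (nat_lit 8) (k (nat_lit 0x983be))))) (u (nat_lit 5) (a (v (nat_lit 5) (v (nat_lit 6) (k (nat_lit 0x1b2fdea)))) (u (nat_lit 5) (u (nat_lit 9) (k (nat_lit 0x99798))))))) (a (t (nat_lit 5) (nat_lit 8) (nat_lit 9) (a (v (nat_lit 6) (v (nat_lit 8) (k (nat_lit 0x1e2e22a)))) (a (v (nat_lit 5) (a (u (nat_lit 9) (k (nat_lit 0x9b0a6ea))) (u (nat_lit 7) (k (nat_lit 0x5a2cf4c))))) (u (nat_lit 5) (v (nat_lit 5) (k (nat_lit 0xea17652))))))) (a (v (nat_lit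 4) (a (a (v (nat_lit 9) (v (nat_lit 9) (k (nat_lit 0x98d8a)))) (a (v (nat_lit 7) (v (nat_lit 7) (k (nat_lit 0x9a680)))) (v (nat_lit 6) (a (v (nat_lit 7) (k (nat_lit 0x98f46))) (v (nat_lit 6) (k (nat_lit 0x99276))))))) (a (u (nat_lit 6) (v (nat_lit 8) (k (nat_lit 0x98c04)))) (a (v (nat_lit 5) (a (a (u (nat_lit 9) (k (nat_lit 0x97944))) (v (nat_lit 7) (k (nat_lit 0x98ff4)))) (a (v (nat_lit 6) (k (nat_lit 0x99054))) (v (nat_lit 5) (k (nat_lit 0x98e1a)))))) (v (nat_lit 4) (a (a (v (nat_lit 9) (k (nat_lit 0x98ed4))) (a (v (nat_lit 8) (k (nat_lit 0x98d90))) (v (nat_lit 7) (k (nat_lit 0x98ed4))))) (a (v (nat_lit 6) (k (nat_lit 0x993b4))) (a (v (nat_lit 5) (k (nat_lit 0x9900c))) (v (nat_lit 4) (k (nat_lit 0x98cd6))))))))))) (u (nat_lit 4) (v (nat_lit 6) (v (nat_lit 6) (k (nat_lit 0x98c16)))))))))) (v (nat_lit 3) (a (a (a (u (nat_lit 9) (v (nat_lit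 9) (v (nat_lit 9) (k (nat_lit 0x96cb4))))) (a (v (nat_lit 8) (v (nat_lit 8) (u (nat_lit 9) (k (nat_lit 0x96060))))) (u (nat_lit 8) (a (v (nat_lit 9) (v (nat_lit 9) (k (nat_lit 0x98d9c)))) (v (nat_lit 8) (a (v (nat_lit 9) (k (nat_lit 0x9e406))) (v (nat_lit 8) (k (nat_lit 0x9d74c))))))))) (a (v (nat_lit 7) (a (a (u (nat_lit 9) (v (nat_lit 9) (k (nat_lit 0x98f7c)))) (v (nat_lit 8) (u (nat_lit 9) (k (nat_lit 0x9805e))))) (a (u (nat_lit 8) (a (v (nat_lit 9) (k (nat_lit 0x99f24))) (v (nat_lit 8) (k (nat_lit 0x971ca))))) (v (nat_lit 7) (a (u (nat_lit 9) (k (nat_lit 0x99198))) (u (nat_lit 8) (k (nat_lit 0x95df6)))))))) (a (u (nat_lit 7) (v (nat_lit 7) (v (nat_lit 8) (k (nat_lit 0x9cb8e))))) (v (nat_lit 6) (a (a (u (nat_lit 9) (v (nat_lit 9) (k (nat_lit 0x98fa0)))) (v (nat_lit 8) (u (nat_lit 9) (k (nat_lit 0x98d5a))))) (a (u (nat_lit 8) (a (v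 (nat_lit 9) (k (nat_lit 0x9941a))) (v (nat_lit 8) (k (nat_lit 0x98f94))))) (a (v (nat_lit 7) (a (u (nat_lit 9) (k (nat_lit 0x98f28))) (u (nat_lit 8) (k (nat_lit 0x98eec))))) (v (nat_lit 6) (a (u (nat_lit 9) (k (nat_lit 0x990fc))) (a (u (nat_lit 8) (k (nat_lit 0x98f40))) (u (nat_lit 7) (k (nat_lit 0xbb3ff08))))))))))))) (a (a (u (nat_lit 6) (a (a (v (nat_lit 7) (a (u (nat_lit 9) (k (nat_lit 0x6002478))) (a (u (nat_lit 8) (k (nat_lit 0xa51e0))) (v (nat_lit 7) (k (nat_lit 0x9f6de)))))) (u (nat_lit 7) (v (nat_lit 7) (k (nat_lit 0x9934e))))) (a (v (nat_lit 6) (v (nat_lit 6) (k (nat_lit 0x9898e)))) (u (nat_lit 6) (v (nat_lit 7) (k (nat_lit 0x167ec5f0))))))) (a (v (nat_lit 5) (a (a (u (nat_lit 9) (v (nat_lit 9) (k (nat_lit 0x98e32)))) (a (v (nat_lit 8) (u (nat_lit 9) (k (nat_lit 0x997aa)))) (u (nat_lit 8) (a (v (nat_lit 9) (k (nat_lit 0x98640)))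 (v (nat_lit 8) (k (nat_lit 0x97da0))))))) (a (a (v (nat_lit 7) (a (u (nat_lit 9) (k (nat_lit 0x98ff4))) (u (nat_lit 8) (k (nat_lit 0x98754))))) (u (nat_lit 7) (v (nat_lit 7) (k (nat_lit 0x969f6))))) (a (v (nat_lit 6) (a (u (nat_lit 9) (k (nat_lit 0x98a24))) (a (u (nat_lit 8) (k (nat_lit 0x98db4))) (u (nat_lit 7) (k (nat_lit 0x996c6)))))) (u (nat_lit 6) (a (v (nat_lit 7) (k (nat_lit 0x99c78))) (v (nat_lit 6) (k (nat_lit 0x98bf8))))))))) (u (nat_lit 5) (a (a (v (nat_lit 8) (v (nat_lit 8) (k (nat_lit 0x99dbc)))) (u (nat_lit 7) (v (nat_lit 7) (k (nat_lit 0xdf8acb6))))) (a (v (nat_lit 6) (a (v (nat_lit 9) (k (nat_lit 0x9981c))) (a (v (nat_lit 7) (k (nat_lit 0x98022))) (v (nat_lit 6) (k (nat_lit 0x99462)))))) (a (u (nat_lit 6) (v (nat_lit 6) (k (nat_lit 0x99852)))) (v (nat_lit 5) (a (a (v (nat_lit 9) (k (nat_lit 0x99af8))) (v (nat_lit 8) (k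 (nat_lit 0x99096)))) (a (v (nat_lit 7) (k (nat_lit 0x9967e))) (a (v (nat_lit 6) (k (nat_lit 0x99204))) (v (nat_lit 5) (k (nat_lit 0x9905a))))))))))))) (a (a (t (nat_lit 5) (nat_lit 8) (nat_lit 9) (u (nat_lit 5) (u (nat_lit 5) (k (nat_lit 0x990c0))))) (v (nat_lit 4) (a (a (a (u (nat_lit 9) (v (nat_lit 9) (k (nat_lit 0x131c58)))) (v (nat_lit 8) (u (nat_lit 9) (k (nat_lit 0x12ff0c))))) (a (u (nat_lit 8) (a (v (nat_lit 9) (k (nat_lit 0x13377c))) (v (nat_lit 8) (k (nat_lit 0x131dfc))))) (v (nat_lit 7) (a (u (nat_lit 9) (k (nat_lit 0x98f46))) (u (nat_lit 8) (k (nat_lit 0x98fb8))))))) (a (a (v (nat_lit 6) (a (u (nat_lit 9) (k (nat_lit 0x98f46))) (a (u (nat_lit 8) (k (nat_lit 0x98fb8))) (u (nat_lit 7) (k (nat_lit 0x995f4)))))) (u (nat_lit 6) (v (nat_lit 7) (k (nat_lit 0x995f4))))) (a (u (nat_lit 5) (a (v (nat_lit 9) (k (nat_lit 0x131ce8))) (a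 (v (nat_lit 8) (k (nat_lit 0x131d60))) (v (nat_lit 5) (k (nat_lit 0x131ed4)))))) (v (nat_lit 4) (u (nat_lit 5) (k (nat_lit 0x998d6))))))))) (a (u (nat_lit 4) (a (a (v (nat_lit 9) (v (nat_lit 9) (k (nat_lit 0x98e26)))) (a (v (nat_lit 7) (u (nat_lit 9) (k (nat_lit 0x99cde)))) (v (nat_lit 6) (a (v (nat_lit 7) (k (nat_lit 0x99168))) (v (nat_lit 6) (k (nat_lit 0x99648))))))) (a (a (v (nat_lit 5) (v (nat_lit 6) (k (nat_lit 0x98d84)))) (t (nat_lit 5) (nat_lit 8) (nat_lit 9) (a (v (nat_lit 6) (k (nat_lit 0x9a9a4))) (t (nat_lit 5) (nat_lit 8) (nat_lit 9) (k (nat_lit 0x98fd0)))))) (a (v (nat_lit 4) (a (v (nat_lit 6) (k (nat_lit 0x990c0))) (a (v (nat_lit 5) (k (nat_lit 0x983a0))) (v (nat_lit 4) (k (nat_lit 0x98e38)))))) (u (nat_lit 4) (v (nat_lit 7) (k (nat_lit 0xcf794b2)))))))) (v (nat_lit 3) (a (a (a (u (nat_lit 9) (v (nat_lit 9) (k (nat_lit 0x98f64))))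 (v (nat_lit 8) (u (nat_lit 9) (k (nat_lit 0x98ba4))))) (a (u (nat_lit 8) (a (v (nat_lit 9) (k (nat_lit 0x99198))) (v (nat_lit 8) (k (nat_lit 0x98ef2))))) (a (v (nat_lit 7) (a (u (nat_lit 9) (k (nat_lit 0x98f64))) (u (nat_lit 8) (k (nat_lit 0x98f94))))) (v (nat_lit 6) (a (u (nat_lit 9) (k (nat_lit 0x98d84))) (a (u (nat_lit 8) (k (nat_lit 0x98da8))) (u (nat_lit 7) (k (nat_lit 0x98d5a))))))))) (a (a (u (nat_lit 6) (v (nat_lit 7) (k (nat_lit 0x9a794)))) (u (nat_lit 5) (a (v (nat_lit 9) (k (nat_lit 0x97ae8))) (a (v (nat_lit 8) (k (nat_lit 0x98f04))) (v (nat_lit 5) (k (nat_lit 0x9a08c))))))) (a (v (nat_lit 4) (u (nat_lit 5) (k (nat_lit 0x998d6)))) (a (u (nat_lit 4) (a (a (v (nat_lit 9) (k (nat_lit 0x990a8))) (v (nat_lit 8) (k (nat_lit 0x98eb0)))) (a (v (nat_lit 6) (k (nat_lit 0x98dae))) (v (nat_lit 4) (k (nat_lit 0x99534)))))) (v (nat_lit 3)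 (u (nat_lit 5) (k (nat_lit 0x2877dda))))))))))))))) (a (u (nat_lit 3) (a (a (a (v (nat_lit 9) (v (nat_lit 9) (v (nat_lit 9) (k (nat_lit 0x9af50))))) (v (nat_lit 8) (v (nat_lit 8) (a (u (nat_lit 9) (k (nat_lit 0x9b3a6))) (v (nat_lit 8) (k (nat_lit 0x94620))))))) (a (v (nat_lit 7) (a (v (nat_lit 8) (v (nat_lit 8) (k (nat_lit 0x425de94)))) (v (nat_lit 7) (v (nat_lit 7) (k (nat_lit 0x1caa9c)))))) (a (v (nat_lit 6) (v (nat_lit 6) (v (nat_lit 6) (k (nat_lit 0x993ae))))) (v (nat_lit 5) (u (nat_lit 7) (v (nat_lit 8) (k (nat_lit 0x983be)))))))) (a (a (u (nat_lit 5) (a (v (nat_lit 5) (v (nat_lit 7) (k (nat_lit 0x1b2fdea)))) (u (nat_lit 5) (u (nat_lit 9) (k (nat_lit 0x99798)))))) (t (nat_lit 5) (nat_lit 8) (nat_lit 9) (a (v (nat_lit 7) (v (nat_lit 8) (k (nat_lit 0x1e2e22a)))) (a (v (nat_lit 5) (a (u (nat_lit 9) (k (nat_lit 0x9b0a6ea))) (u (nat_lit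 6) (k (nat_lit 0x5a2cf4c))))) (u (nat_lit 5) (v (nat_lit 5) (k (nat_lit 0xea17652)))))))) (a (v (nat_lit 4) (a (a (v (nat_lit 9) (v (nat_lit 9) (k (nat_lit 0x98e26)))) (a (v (nat_lit 7) (v (nat_lit 7) (k (nat_lit 0x99648)))) (v (nat_lit 6) (a (u (nat_lit 9) (k (nat_lit 0x99cde))) (v (nat_lit 7) (k (nat_lit 0x99168))))))) (a (v (nat_lit 5) (v (nat_lit 7) (k (nat_lit 0x98d84)))) (a (t (nat_lit 5) (nat_lit 8) (nat_lit 9) (a (v (nat_lit 7) (k (nat_lit 0x9a9a4))) (t (nat_lit 5) (nat_lit 8) (nat_lit 9) (k (nat_lit 0x98fd0))))) (v (nat_lit 4) (a (v (nat_lit 9) (k (nat_lit 0x990a8))) (a (v (nat_lit 8) (k (nat_lit 0x98eb0))) (v (nat_lit 7) (k (nat_lit 0x98dae)))))))))) (a (v (nat_lit 3) (a (a (v (nat_lit 9) (v (nat_lit 9) (k (nat_lit 0x98d8a)))) (a (v (nat_lit 7) (v (nat_lit 7) (k (nat_lit 0x99276)))) (u (nat_lit 7) (v (nat_lit 8) (k (nat_lit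 0x98c04)))))) (a (a (v (nat_lit 6) (a (v (nat_lit 7) (k (nat_lit 0x98f46))) (v (nat_lit 6) (k (nat_lit 0x9a680))))) (v (nat_lit 5) (a (a (u (nat_lit 9) (k (nat_lit 0x97944))) (v (nat_lit 7) (k (nat_lit 0x99054)))) (a (v (nat_lit 6) (k (nat_lit 0x98ff4))) (v (nat_lit 5) (k (nat_lit 0x98e1a))))))) (a (v (nat_lit 4) (a (v (nat_lit 7) (k (nat_lit 0x990c0))) (a (v (nat_lit 5) (k (nat_lit 0x983a0))) (v (nat_lit 4) (k (nat_lit 0x99534)))))) (v (nat_lit 3) (a (a (v (nat_lit 9) (k (nat_lit 0x98ed4))) (a (v (nat_lit 8) (k (nat_lit 0x98d90))) (v (nat_lit 7) (k (nat_lit 0x993b4))))) (a (a (v (nat_lit 6) (k (nat_lit 0x98ed4))) (v (nat_lit 5) (k (nat_lit 0x9900c)))) (a (v (nat_lit 4) (k (nat_lit 0x98e38))) (v (nat_lit 3) (k (nat_lit 0x98cd6))))))))))) (u (nat_lit 3) (a (v (nat_lit 7) (v (nat_lit 7) (k (nat_lit 0x98c16)))) (v (nat_lit 4) (v (nat_lit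 6) (k (nat_lit 0xcf794b2))))))))))) (a (v (nat_lit 2) (a (a (a (u (nat_lit 9) (v (nat_lit 9) (v (nat_lit 9) (k (nat_lit 0x9d74c))))) (a (v (nat_lit 8) (a (u (nat_lit 9) (v (nat_lit 9) (k (nat_lit 0x9e406)))) (v (nat_lit 8) (u (nat_lit 9) (k (nat_lit 0x98d9c)))))) (u (nat_lit 8) (a (v (nat_lit 9) (v (nat_lit 9) (k (nat_lit 0x96060)))) (v (nat_lit 8) (v (nat_lit 8) (k (nat_lit 0x96cb4)))))))) (a (a (v (nat_lit 7) (a (a (u (nat_lit 9) (v (nat_lit 9) (k (nat_lit 0x98f94)))) (v (nat_lit 8) (u (nat_lit 9) (k (nat_lit 0x9941a))))) (a (u (nat_lit 8) (a (v (nat_lit 9) (k (nat_lit 0x98d5a))) (v (nat_lit 8) (k (nat_lit 0x98fa0))))) (v (nat_lit 7) (a (u (nat_lit 9) (k (nat_lit 0x98f40))) (u (nat_lit 8) (k (nat_lit 0x990fc)))))))) (u (nat_lit 7) (v (nat_lit 7) (v (nat_lit 7) (k (nat_lit 0x9898e)))))) (a (v (nat_lit 6) (a (a (u (nat_lit 9) (v (nat_lit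 9) (k (nat_lit 0x971ca)))) (a (v (nat_lit 8) (u (nat_lit 9) (k (nat_lit 0x99f24)))) (u (nat_lit 8) (a (v (nat_lit 9) (k (nat_lit 0x9805e))) (v (nat_lit 8) (k (nat_lit 0x98f7c))))))) (a (v (nat_lit 7) (a (u (nat_lit 9) (k (nat_lit 0x98eec))) (u (nat_lit 8) (k (nat_lit 0x98f28))))) (a (u (nat_lit 7) (a (u (nat_lit 9) (k (nat_lit 0xa51e0))) (a (u (nat_lit 8) (k (nat_lit 0x6002478))) (u (nat_lit 7) (k (nat_lit 0x167ec5f0)))))) (v (nat_lit 6) (a (u (nat_lit 9) (k (nat_lit 0x95df6))) (a (u (nat_lit 8) (k (nat_lit 0x99198))) (u (nat_lit 7) (k (nat_lit 0x9f6de)))))))))) (u (nat_lit 6) (a (v (nat_lit 7) (v (nat_lit 7) (k (nat_lit 0xbb3ff08)))) (v (nat_lit 6) (a (v (nat_lit 9) (k (nat_lit 0x9cb8e))) (u (nat_lit 7) (k (nat_lit 0x9934e)))))))))) (a (a (a (v (nat_lit 5) (a (a (u (nat_lit 9) (v (nat_lit 9) (k (nat_lit 0x97da0)))) (a (v (nat_lit 8)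 (u (nat_lit 9) (k (nat_lit 0x98640)))) (u (nat_lit 8) (a (v (nat_lit 9) (k (nat_lit 0x997aa))) (v (nat_lit 8) (k (nat_lit 0x98e32))))))) (a (a (v (nat_lit 7) (a (u (nat_lit 9) (k (nat_lit 0x98db4))) (u (nat_lit 8) (k (nat_lit 0x98a24))))) (u (nat_lit 7) (v (nat_lit 7) (k (nat_lit 0x98bf8))))) (a (v (nat_lit 6) (a (u (nat_lit 9) (k (nat_lit 0x98754))) (a (u (nat_lit 8) (k (nat_lit 0x98ff4))) (u (nat_lit 7) (k (nat_lit 0x99c78)))))) (u (nat_lit 6) (a (v (nat_lit 7) (k (nat_lit 0x996c6))) (v (nat_lit 6) (k (nat_lit 0x969f6))))))))) (u (nat_lit 5) (a (a (v (nat_lit 9) (v (nat_lit 9) (k (nat_lit 0x99dbc)))) (a (v (nat_lit 7) (a (v (nat_lit 8) (k (nat_lit 0x9981c))) (v (nat_lit 7) (k (nat_lit 0x99462))))) (u (nat_lit 7) (v (nat_lit 7) (k (nat_lit 0x99852)))))) (a (v (nat_lit 6) (v (nat_lit 7) (k (nat_lit 0x98022)))) (a (u (nat_lit 6) (v (nat_lit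 6) (k (nat_lit 0xdf8acb6)))) (v (nat_lit 5) (a (a (v (nat_lit 9) (k (nat_lit 0x99096))) (v (nat_lit 8) (k (nat_lit 0x99af8)))) (a (v (nat_lit 7) (k (nat_lit 0x99204))) (a (v (nat_lit 6) (k (nat_lit 0x9967e))) (v (nat_lit 5) (k (nat_lit 0x9905a)))))))))))) (a (t (nat_lit 5) (nat_lit 8) (nat_lit 9) (u (nat_lit 5) (u (nat_lit 5) (k (nat_lit 0x990c0))))) (v (nat_lit 4) (a (a (a (u (nat_lit 9) (v (nat_lit 9) (k (nat_lit 0x96d62)))) (v (nat_lit 8) (u (nat_lit 9) (k (nat_lit 0x9b8ec))))) (a (u (nat_lit 8) (a (v (nat_lit 9) (k (nat_lit 0x9b8ec))) (v (nat_lit 8) (k (nat_lit 0x96d62))))) (v (nat_lit 7) (a (u (nat_lit 9) (k (nat_lit 0x99456))) (u (nat_lit 8) (k (nat_lit 0x99456))))))) (a (a (v (nat_lit 6) (a (u (nat_lit 9) (k (nat_lit 0x99f42))) (a (u (nat_lit 8) (k (nat_lit 0x99f42))) (u (nat_lit 7) (k (nat_lit 0x1307a0)))))) (u (nat_lit 6) (v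 (nat_lit 7) (k (nat_lit 0x1312bc))))) (a (u (nat_lit 5) (a (v (nat_lit 9) (k (nat_lit 0x98e44))) (v (nat_lit 8) (k (nat_lit 0x98e44))))) (v (nat_lit 4) (u (nat_lit 5) (k (nat_lit 0x9ac2c)))))))))) (a (a (u (nat_lit 4) (a (a (v (nat_lit 8) (v (nat_lit 8) (k (nat_lit 0x9af74)))) (a (v (nat_lit 7) (v (nat_lit 7) (k (nat_lit 0x33c08d6)))) (u (nat_lit 7) (v (nat_lit 8) (k (nat_lit 0x9947a)))))) (a (a (v (nat_lit 6) (a (v (nat_lit 7) (k (nat_lit 0x9a4e2))) (v (nat_lit 6) (k (nat_lit 0x997f8))))) (v (nat_lit 5) (a (v (nat_lit 7) (k (nat_lit 0x98f1c))) (a (v (nat_lit 6) (k (nat_lit 0x9924c))) (v (nat_lit 5) (k (nat_lit 0x98cd6))))))) (a (t (nat_lit 5) (nat_lit 8) (nat_lit 9) (a (v (nat_lit 9) (k (nat_lit 0x48f2d6))) (u (nat_lit 5) (k (nat_lit 0x9932a))))) (v (nat_lit 4) (a (v (nat_lit 5) (k (nat_lit 0x98cdc))) (v (nat_lit 4) (k (nat_lit 0x98d18)))))))))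 (v (nat_lit 3) (a (a (a (u (nat_lit 9) (v (nat_lit 9) (k (nat_lit 0x98c34)))) (v (nat_lit 8) (u (nat_lit 9) (k (nat_lit 0x98da8))))) (a (u (nat_lit 8) (a (v (nat_lit 9) (k (nat_lit 0x98da8))) (v (nat_lit 8) (k (nat_lit 0x98c34))))) (a (v (nat_lit 7) (a (u (nat_lit 9) (k (nat_lit 0x98f40))) (u (nat_lit 8) (k (nat_lit 0x98ff4))))) (v (nat_lit 6) (a (u (nat_lit 9) (k (nat_lit 0x98ff4))) (a (u (nat_lit 8) (k (nat_lit 0x98f40))) (u (nat_lit 7) (k (nat_lit 0x98d78))))))))) (a (a (u (nat_lit 6) (v (nat_lit 7) (k (nat_lit 0x98d78)))) (u (nat_lit 5) (a (v (nat_lit 9) (k (nat_lit 0x98e50))) (a (v (nat_lit 8) (k (nat_lit 0x98e50))) (v (nat_lit 5) (k (nat_lit 0x131ee0))))))) (a (v (nat_lit 4) (u (nat_lit 5) (k (nat_lit 0x97134)))) (a (u (nat_lit 4) (t (nat_lit 5) (nat_lit 8) (nat_lit 9) (k (nat_lit 0x9906c)))) (v (nat_lit 3) (u (nat_lit 5) (k (nat_lit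 0x9a4ca)))))))))) (a (u (nat_lit 3) (a (a (v (nat_lit 8) (v (nat_lit 8) (k (nat_lit 0x9901e)))) (a (v (nat_lit 7) (v (nat_lit 7) (k (nat_lit 0x99234)))) (v (nat_lit 6) (a (u (nat_lit 9) (k (nat_lit 0x99c84))) (a (v (nat_lit 7) (k (nat_lit 0x995dc))) (u (nat_lit 7) (k (nat_lit 0x1a23920)))))))) (a (a (v (nat_lit 5) (v (nat_lit 6) (k (nat_lit 0x99954)))) (v (nat_lit 4) (v (nat_lit 8) (k (nat_lit 0x99150))))) (a (v (nat_lit 3) (a (v (nat_lit 6) (k (nat_lit 0x99126))) (a (v (nat_lit 5) (k (nat_lit 0x9778e))) (v (nat_lit 3) (k (nat_lit 0x9850e)))))) (u (nat_lit 3) (v (nat_lit 6) (k (nat_lit 0xb2fdee)))))))) (v (nat_lit 2) (a (a (a (u (nat_lit 9) (v (nat_lit 9) (k (nat_lit 0x98ef2)))) (a (v (nat_lit 8) (u (nat_lit 9) (k (nat_lit 0x99198)))) (u (nat_lit 8) (a (v (nat_lit 9) (k (nat_lit 0x98ba4))) (v (nat_lit 8) (k (nat_lit 0x98f64))))))) (a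 (v (nat_lit 7) (a (u (nat_lit 9) (k (nat_lit 0x98da8))) (u (nat_lit 8) (k (nat_lit 0x98d84))))) (a (v (nat_lit 6) (a (u (nat_lit 9) (k (nat_lit 0x98f94))) (a (u (nat_lit 8) (k (nat_lit 0x98f64))) (u (nat_lit 7) (k (nat_lit 0x9a794)))))) (u (nat_lit 6) (v (nat_lit 7) (k (nat_lit 0x98d5a))))))) (a (a (u (nat_lit 5) (a (v (nat_lit 9) (k (nat_lit 0x98f04))) (a (v (nat_lit 8) (k (nat_lit 0x97ae8))) (v (nat_lit 5) (k (nat_lit 0x9a08c)))))) (a (v (nat_lit 4) (u (nat_lit 5) (k (nat_lit 0x9ac2c)))) (u (nat_lit 4) (a (a (v (nat_lit 9) (k (nat_lit 0x98f34))) (a (v (nat_lit 8) (k (nat_lit 0x98ebc))) (v (nat_lit 7) (k (nat_lit 0x99084))))) (a (a (v (nat_lit 6) (k (nat_lit 0x9918c))) (v (nat_lit 5) (k (nat_lit 0x976e0)))) (a (t (nat_lit 5) (nat_lit 8) (nat_lit 9) (k (nat_lit 0x6b6f244))) (v (nat_lit 4) (k (nat_lit 0x98cbe))))))))) (a (v (nat_lit 3)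 (u (nat_lit 5) (k (nat_lit 0x9a4ca)))) (a (u (nat_lit 3) (a (a (v (nat_lit 9) (k (nat_lit 0x9b4d8))) (v (nat_lit 8) (k (nat_lit 0x990d8)))) (a (v (nat_lit 6) (k (nat_lit 0x99360))) (a (u (nat_lit 4) (k (nat_lit 0x9a77c))) (v (nat_lit 3) (k (nat_lit 0x99222))))))) (v (nat_lit 2) (u (nat_lit 5) (k (nat_lit 0x2877dda)))))))))))))) (u (nat_lit 2) (a (a (a (v (nat_lit 9) (v (nat_lit 9) (v (nat_lit 9) (k (nat_lit 0x94620))))) (a (v (nat_lit 8) (v (nat_lit 8) (v (nat_lit 8) (k (nat_lit 0x9af50))))) (u (nat_lit 8) (v (nat_lit 9) (v (nat_lit 9) (k (nat_lit 0x9b3a6))))))) (a (v (nat_lit 7) (v (nat_lit 7) (v (nat_lit 7) (k (nat_lit 0x993ae))))) (a (v (nat_lit 6) (a (v (nat_lit 9) (v (nat_lit 9) (k (nat_lit 0x425de94)))) (v (nat_lit 6) (v (nat_lit 6) (k (nat_lit 0x1caa9c)))))) (v (nat_lit 5) (u (nat_lit 6) (v (nat_lit 9) (k (nat_lit 0x983be))))))))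 (a (a (u (nat_lit 5) (a (v (nat_lit 5) (v (nat_lit 6) (k (nat_lit 0x1b2fdea)))) (u (nat_lit 5) (u (nat_lit 8) (k (nat_lit 0x99798)))))) (a (t (nat_lit 5) (nat_lit 8) (nat_lit 9) (a (v (nat_lit 6) (v (nat_lit 9) (k (nat_lit 0x1e2e22a)))) (a (v (nat_lit 5) (a (u (nat_lit 8) (k (nat_lit 0x9b0a6ea))) (u (nat_lit 7) (k (nat_lit 0x5a2cf4c))))) (u (nat_lit 5) (v (nat_lit 5) (k (nat_lit 0xea17652))))))) (v (nat_lit 4) (a (a (v (nat_lit 9) (v (nat_lit 9) (k (nat_lit 0x9af74)))) (a (v (nat_lit 7) (v (nat_lit 7) (k (nat_lit 0x33c08d6)))) (u (nat_lit 7) (v (nat_lit 9) (k (nat_lit 0x9947a)))))) (a (a (v (nat_lit 6) (a (v (nat_lit 7) (k (nat_lit 0x9a4e2))) (v (nat_lit 6) (k (nat_lit 0x997f8))))) (v (nat_lit 5) (a (v (nat_lit 7) (k (nat_lit 0x98f1c))) (a (v (nat_lit 6) (k (nat_lit 0x9924c))) (v (nat_lit 5) (k (nat_lit 0x98cd6))))))) (a (t (nat_lit 5)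 (nat_lit 8) (nat_lit 9) (a (v (nat_lit 8) (k (nat_lit 0x48f2d6))) (u (nat_lit 5) (k (nat_lit 0x9932a))))) (v (nat_lit 4) (a (a (v (nat_lit 9) (k (nat_lit 0x98ebc))) (a (v (nat_lit 8) (k (nat_lit 0x98f34))) (v (nat_lit 7) (k (nat_lit 0x99084))))) (a (v (nat_lit 6) (k (nat_lit 0x9918c))) (a (v (nat_lit 5) (k (nat_lit 0x976e0))) (t (nat_lit 5) (nat_lit 8) (nat_lit 9) (k (nat_lit 0x6b6f244))))))))))))) (a (a (u (nat_lit 4) (a (v (nat_lit 8) (v (nat_lit 9) (k (nat_lit 0x136e60)))) (a (v (nat_lit 6) (a (v (nat_lit 9) (k (nat_lit 0x9a092))) (v (nat_lit 8) (k (nat_lit 0x9a092))))) (t (nat_lit 5) (nat_lit 8) (nat_lit 9) (a (u (nat_lit 9) (k (nat_lit 0x9908a))) (a (u (nat_lit 8) (k (nat_lit 0x9908a))) (v (nat_lit 5) (k (nat_lit 0x34388b8))))))))) (v (nat_lit 3) (a (a (a (v (nat_lit 9) (v (nat_lit 9) (k (nat_lit 0x9901e)))) (v (nat_lit 7) (u (nat_lit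 8) (k (nat_lit 0x99c84))))) (a (v (nat_lit 6) (a (v (nat_lit 7) (k (nat_lit 0x995dc))) (v (nat_lit 6) (k (nat_lit 0x99234))))) (u (nat_lit 6) (v (nat_lit 7) (k (nat_lit 0x1a23920)))))) (a (a (v (nat_lit 5) (v (nat_lit 7) (k (nat_lit 0x99954)))) (v (nat_lit 4) (a (a (v (nat_lit 9) (k (nat_lit 0x98ebc))) (v (nat_lit 7) (k (nat_lit 0x99216)))) (a (v (nat_lit 6) (k (nat_lit 0x99384))) (a (v (nat_lit 5) (k (nat_lit 0x9aa94))) (v (nat_lit 4) (k (nat_lit 0x98eaa)))))))) (a (u (nat_lit 4) (v (nat_lit 7) (k (nat_lit 0x13d130ba)))) (v (nat_lit 3) (a (a (v (nat_lit 9) (k (nat_lit 0x990d8))) (v (nat_lit 8) (k (nat_lit 0x9b4d8)))) (a (v (nat_lit 7) (k (nat_lit 0x99360))) (v (nat_lit 4) (k (nat_lit 0xa470c))))))))))) (a (v (nat_lit 2) (a (a (a (v (nat_lit 8) (v (nat_lit 8) (k (nat_lit 0x98d8a)))) (v (nat_lit 7) (v (nat_lit 7) (k (nat_lit 0x9a680)))))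 (a (v (nat_lit 6) (a (v (nat_lit 7) (k (nat_lit 0x98f46))) (v (nat_lit 6) (k (nat_lit 0x99276))))) (u (nat_lit 6) (v (nat_lit 9) (k (nat_lit 0x98c04)))))) (a (a (v (nat_lit 5) (a (a (u (nat_lit 8) (k (nat_lit 0x97944))) (v (nat_lit 7) (k (nat_lit 0x98ff4)))) (a (v (nat_lit 6) (k (nat_lit 0x99054))) (v (nat_lit 5) (k (nat_lit 0x98e1a)))))) (v (nat_lit 4) (a (v (nat_lit 5) (k (nat_lit 0x98cdc))) (v (nat_lit 4) (k (nat_lit 0x98cbe)))))) (a (v (nat_lit 3) (a (a (v (nat_lit 7) (k (nat_lit 0x99126))) (v (nat_lit 5) (k (nat_lit 0x9778e)))) (a (v (nat_lit 4) (k (nat_lit 0x9a404))) (v (nat_lit 3) (k (nat_lit 0x99222)))))) (a (u (nat_lit 3) (v (nat_lit 4) (k (nat_lit 0x98778)))) (v (nat_lit 2) (a (a (a (v (nat_lit 9) (k (nat_lit 0x98d90))) (v (nat_lit 8) (k (nat_lit 0x98ed4)))) (a (v (nat_lit 7) (k (nat_lit 0x98ed4))) (v (nat_lit 6) (k (nat_lit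 0x993b4))))) (a (a (v (nat_lit 5) (k (nat_lit 0x9900c))) (v (nat_lit 4) (k (nat_lit 0x98d18)))) (a (v (nat_lit 3) (k (nat_lit 0x9850e))) (v (nat_lit 2) (k (nat_lit 0x98cd6)))))))))))) (u (nat_lit 2) (a (v (nat_lit 6) (v (nat_lit 6) (k (nat_lit 0x98c16)))) (v (nat_lit 3) (v (nat_lit 7) (k (nat_lit 0xb2fdee)))))))))))))) (a (a (v (nat_lit 1) (a (a (a (a (u (nat_lit 9) (v (nat_lit 9) (v (nat_lit 9) (k (nat_lit 0x9d74c))))) (v (nat_lit 8) (a (u (nat_lit 9) (v (nat_lit 9) (k (nat_lit 0x9e406)))) (v (nat_lit 8) (u (nat_lit 9) (k (nat_lit 0x98d9c))))))) (a (u (nat_lit 8) (a (v (nat_lit 9) (v (nat_lit 9) (k (nat_lit 0x96060)))) (v (nat_lit 8) (v (nat_lit 8) (k (nat_lit 0x96cb4)))))) (v (nat_lit 7) (a (a (u (nat_lit 9) (v (nat_lit 9) (k (nat_lit 0x971ca)))) (v (nat_lit 8) (u (nat_lit 9) (k (nat_lit 0x99f24))))) (a (u (nat_lit 8) (a (v (nat_lit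 9) (k (nat_lit 0x9805e))) (v (nat_lit 8) (k (nat_lit 0x98f7c))))) (v (nat_lit 7) (a (u (nat_lit 9) (k (nat_lit 0x95df6))) (u (nat_lit 8) (k (nat_lit 0x99198)))))))))) (a (a (u (nat_lit 7) (v (nat_lit 7) (v (nat_lit 9) (k (nat_lit 0x9cb8e))))) (v (nat_lit 6) (a (a (u (nat_lit 9) (v (nat_lit 9) (k (nat_lit 0x98f94)))) (v (nat_lit 8) (u (nat_lit 9) (k (nat_lit 0x9941a))))) (a (u (nat_lit 8) (a (v (nat_lit 9) (k (nat_lit 0x98d5a))) (v (nat_lit 8) (k (nat_lit 0x98fa0))))) (a (v (nat_lit 7) (a (u (nat_lit 9) (k (nat_lit 0x98eec))) (u (nat_lit 8) (k (nat_lit 0x98f28))))) (v (nat_lit 6) (a (u (nat_lit 9) (k (nat_lit 0x98f40))) (a (u (nat_lit 8) (k (nat_lit 0x990fc))) (u (nat_lit 7) (k (nat_lit 0xbb3ff08))))))))))) (a (u (nat_lit 6) (a (a (v (nat_lit 7) (a (u (nat_lit 9) (k (nat_lit 0xa51e0))) (a (u (nat_lit 8) (k (nat_lit 0x6002478))) (v (nat_lit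 7) (k (nat_lit 0x9f6de)))))) (u (nat_lit 7) (v (nat_lit 7) (k (nat_lit 0x9934e))))) (a (v (nat_lit 6) (v (nat_lit 6) (k (nat_lit 0x9898e)))) (u (nat_lit 6) (v (nat_lit 7) (k (nat_lit 0x167ec5f0))))))) (v (nat_lit 5) (a (a (u (nat_lit 9) (v (nat_lit 9) (k (nat_lit 0x97da0)))) (a (v (nat_lit 8) (u (nat_lit 9) (k (nat_lit 0x98640)))) (u (nat_lit 8) (a (v (nat_lit 9) (k (nat_lit 0x997aa))) (v (nat_lit 8) (k (nat_lit 0x98e32))))))) (a (a (v (nat_lit 7) (a (u (nat_lit 9) (k (nat_lit 0x98754))) (u (nat_lit 8) (k (nat_lit 0x98ff4))))) (u (nat_lit 7) (v (nat_lit 7) (k (nat_lit 0x969f6))))) (a (v (nat_lit 6) (a (u (nat_lit 9) (k (nat_lit 0x98db4))) (a (u (nat_lit 8) (k (nat_lit 0x98a24))) (u (nat_lit 7) (k (nat_lit 0x996c6)))))) (u (nat_lit 6) (a (v (nat_lit 7) (k (nat_lit 0x99c78))) (v (nat_lit 6) (k (nat_lit 0x98bf8)))))))))))) (a (a (a (u (nat_lit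 5) (a (a (v (nat_lit 9) (v (nat_lit 9) (k (nat_lit 0x99dbc)))) (u (nat_lit 7) (v (nat_lit 7) (k (nat_lit 0xdf8acb6))))) (a (v (nat_lit 6) (a (v (nat_lit 8) (k (nat_lit 0x9981c))) (a (v (nat_lit 7) (k (nat_lit 0x98022))) (v (nat_lit 6) (k (nat_lit 0x99462)))))) (a (u (nat_lit 6) (v (nat_lit 6) (k (nat_lit 0x99852)))) (v (nat_lit 5) (a (a (v (nat_lit 9) (k (nat_lit 0x99096))) (v (nat_lit 8) (k (nat_lit 0x99af8)))) (a (v (nat_lit 7) (k (nat_lit 0x9967e))) (a (v (nat_lit 6) (k (nat_lit 0x99204))) (v (nat_lit 5) (k (nat_lit 0x9905a))))))))))) (t (nat_lit 5) (nat_lit 8) (nat_lit 9) (u (nat_lit 5) (u (nat_lit 5) (k (nat_lit 0x990c0)))))) (a (v (nat_lit 4) (a (a (a (u (nat_lit 9) (v (nat_lit 9) (k (nat_lit 0x98c34)))) (v (nat_lit 8) (u (nat_lit 9) (k (nat_lit 0x98da8))))) (a (u (nat_lit 8) (a (v (nat_lit 9) (k (nat_lit 0x98da8))) (v (nat_lit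 8) (k (nat_lit 0x98c34))))) (v (nat_lit 7) (a (u (nat_lit 9) (k (nat_lit 0x98ff4))) (u (nat_lit 8) (k (nat_lit 0x98f40))))))) (a (a (v (nat_lit 6) (a (u (nat_lit 9) (k (nat_lit 0x98f40))) (a (u (nat_lit 8) (k (nat_lit 0x98ff4))) (u (nat_lit 7) (k (nat_lit 0x98d78)))))) (u (nat_lit 6) (v (nat_lit 7) (k (nat_lit 0x98d78))))) (a (u (nat_lit 5) (a (v (nat_lit 9) (k (nat_lit 0x98e50))) (a (v (nat_lit 8) (k (nat_lit 0x98e50))) (v (nat_lit 5) (k (nat_lit 0x131ee0)))))) (v (nat_lit 4) (u (nat_lit 5) (k (nat_lit 0x9a4ca)))))))) (u (nat_lit 4) (a (a (v (nat_lit 8) (v (nat_lit 8) (k (nat_lit 0x9901e)))) (a (v (nat_lit 7) (u (nat_lit 9) (k (nat_lit 0x99c84)))) (v (nat_lit 6) (a (v (nat_lit 7) (k (nat_lit 0x995dc))) (v (nat_lit 6) (k (nat_lit 0x99234))))))) (a (a (u (nat_lit 6) (v (nat_lit 7) (k (nat_lit 0x1a23920)))) (v (nat_lit 5) (v (nat_lit 7)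 (k (nat_lit 0x99954))))) (a (v (nat_lit 4) (a (v (nat_lit 7) (k (nat_lit 0x99126))) (a (v (nat_lit 5) (k (nat_lit 0x9778e))) (v (nat_lit 4) (k (nat_lit 0x9850e)))))) (u (nat_lit 4) (v (nat_lit 7) (k (nat_lit 0xb2fdee)))))))))) (a (a (v (nat_lit 3) (a (a (a (u (nat_lit 9) (v (nat_lit 9) (k (nat_lit 0x96d62)))) (v (nat_lit 8) (u (nat_lit 9) (k (nat_lit 0x9b8ec))))) (a (u (nat_lit 8) (a (v (nat_lit 9) (k (nat_lit 0x9b8ec))) (v (nat_lit 8) (k (nat_lit 0x96d62))))) (a (v (nat_lit 7) (a (u (nat_lit 9) (k (nat_lit 0x99f42))) (u (nat_lit 8) (k (nat_lit 0x99f42))))) (v (nat_lit 6) (a (u (nat_lit 9) (k (nat_lit 0x99456))) (a (u (nat_lit 8) (k (nat_lit 0x99456))) (u (nat_lit 7) (k (nat_lit 0x1312bc))))))))) (a (a (u (nat_lit 6) (v (nat_lit 7) (k (nat_lit 0x1307a0)))) (u (nat_lit 5) (a (v (nat_lit 9) (k (nat_lit 0x98e44))) (v (nat_lit 8) (k (nat_lit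 0x98e44)))))) (a (v (nat_lit 4) (u (nat_lit 5) (k (nat_lit 0x97134)))) (a (u (nat_lit 4) (v (nat_lit 8) (k (nat_lit 0x99150)))) (v (nat_lit 3) (u (nat_lit 5) (k (nat_lit 0x9ac2c))))))))) (u (nat_lit 3) (a (a (a (v (nat_lit 8) (v (nat_lit 8) (k (nat_lit 0x9af74)))) (v (nat_lit 7) (v (nat_lit 7) (k (nat_lit 0x997f8))))) (a (v (nat_lit 6) (a (v (nat_lit 7) (k (nat_lit 0x9a4e2))) (v (nat_lit 6) (k (nat_lit 0x33c08d6))))) (u (nat_lit 6) (v (nat_lit 8) (k (nat_lit 0x9947a)))))) (a (a (v (nat_lit 5) (a (v (nat_lit 7) (k (nat_lit 0x9924c))) (a (v (nat_lit 6) (k (nat_lit 0x98f1c))) (v (nat_lit 5) (k (nat_lit 0x98cd6)))))) (t (nat_lit 5) (nat_lit 8) (nat_lit 9) (a (v (nat_lit 9) (k (nat_lit 0x48f2d6))) (u (nat_lit 5) (k (nat_lit 0x9932a)))))) (a (v (nat_lit 4) (t (nat_lit 5) (nat_lit 8) (nat_lit 9) (k (nat_lit 0x9906c)))) (v (nat_lit 3) (a (v (nat_lit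 5) (k (nat_lit 0x98cdc))) (v (nat_lit 3) (k (nat_lit 0x98d18)))))))))) (a (v (nat_lit 2) (a (a (a (u (nat_lit 9) (v (nat_lit 9) (k (nat_lit 0x131dfc)))) (a (v (nat_lit 8) (u (nat_lit 9) (k (nat_lit 0x13377c)))) (u (nat_lit 8) (a (v (nat_lit 9) (k (nat_lit 0x12ff0c))) (v (nat_lit 8) (k (nat_lit 0x131c58))))))) (a (v (nat_lit 7) (a (u (nat_lit 9) (k (nat_lit 0x98fb8))) (u (nat_lit 8) (k (nat_lit 0x98f46))))) (a (v (nat_lit 6) (a (u (nat_lit 9) (k (nat_lit 0x98fb8))) (a (u (nat_lit 8) (k (nat_lit 0x98f46))) (u (nat_lit 7) (k (nat_lit 0x995f4)))))) (u (nat_lit 6) (v (nat_lit 7) (k (nat_lit 0x995f4))))))) (a (a (u (nat_lit 5) (a (v (nat_lit 9) (k (nat_lit 0x131d60))) (a (v (nat_lit 8) (k (nat_lit 0x131ce8))) (v (nat_lit 5) (k (nat_lit 0x131ed4)))))) (a (v (nat_lit 4) (u (nat_lit 5) (k (nat_lit 0x97134)))) (u (nat_lit 4) (a (a (v (nat_lit 8)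 (k (nat_lit 0x98ebc))) (v (nat_lit 7) (k (nat_lit 0x99216)))) (a (v (nat_lit 6) (k (nat_lit 0x99384))) (a (v (nat_lit 5) (k (nat_lit 0x9aa94))) (v (nat_lit 4) (k (nat_lit 0x9a404))))))))) (a (v (nat_lit 3) (a (u (nat_lit 5) (k (nat_lit 0x97134))) (u (nat_lit 4) (k (nat_lit 0x9c168))))) (a (u (nat_lit 3) (a (a (v (nat_lit 8) (k (nat_lit 0x98ebc))) (a (v (nat_lit 7) (k (nat_lit 0x99384))) (v (nat_lit 6) (k (nat_lit 0x99216))))) (a (a (v (nat_lit 5) (k (nat_lit 0x9aa94))) (v (nat_lit 4) (k (nat_lit 0x9c168)))) (a (u (nat_lit 4) (k (nat_lit 0x130f98))) (v (nat_lit 3) (k (nat_lit 0x9a404))))))) (v (nat_lit 2) (a (u (nat_lit 5) (k (nat_lit 0x998d6))) (a (u (nat_lit 4) (k (nat_lit 0x98eaa))) (u (nat_lit 3) (k (nat_lit 0xa470c))))))))))) (a (u (nat_lit 2) (a (a (a (v (nat_lit 8) (v (nat_lit 8) (k (nat_lit 0x98e26)))) (v (nat_lit 7) (u (nat_lit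 8) (k (nat_lit 0x99cde))))) (a (v (nat_lit 6) (a (v (nat_lit 7) (k (nat_lit 0x99168))) (v (nat_lit 6) (k (nat_lit 0x99648))))) (a (v (nat_lit 5) (v (nat_lit 6) (k (nat_lit 0x98d84)))) (t (nat_lit 5) (nat_lit 8) (nat_lit 9) (a (v (nat_lit 6) (k (nat_lit 0x9a9a4))) (t (nat_lit 5) (nat_lit 8) (nat_lit 9) (k (nat_lit 0x98fd0)))))))) (a (a (v (nat_lit 4) (t (nat_lit 5) (nat_lit 8) (nat_lit 9) (k (nat_lit 0x9906c)))) (a (u (nat_lit 4) (v (nat_lit 7) (k (nat_lit 0x13d130ba)))) (v (nat_lit 3) (a (v (nat_lit 9) (k (nat_lit 0x99150))) (v (nat_lit 4) (k (nat_lit 0x9c168))))))) (a (u (nat_lit 3) (a (v (nat_lit 4) (k (nat_lit 0x131100))) (v (nat_lit 3) (k (nat_lit 0x98778))))) (a (v (nat_lit 2) (a (v (nat_lit 6) (k (nat_lit 0x990c0))) (a (v (nat_lit 5) (k (nat_lit 0x983a0))) (v (nat_lit 2) (k (nat_lit 0x98e38)))))) (u (nat_lit 2) (v (nat_lit 7) (k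 (nat_lit 0xcf794b2))))))))) (v (nat_lit 1) (a (a (a (u (nat_lit 9) (v (nat_lit 9) (k (nat_lit 0x98ef2)))) (a (v (nat_lit 8) (u (nat_lit 9) (k (nat_lit 0x99198)))) (u (nat_lit 8) (a (v (nat_lit 9) (k (nat_lit 0x98ba4))) (v (nat_lit 8) (k (nat_lit 0x98f64))))))) (a (a (v (nat_lit 7) (a (u (nat_lit 9) (k (nat_lit 0x98f94))) (u (nat_lit 8) (k (nat_lit 0x98f64))))) (v (nat_lit 6) (a (u (nat_lit 9) (k (nat_lit 0x98da8))) (a (u (nat_lit 8) (k (nat_lit 0x98d84))) (u (nat_lit 7) (k (nat_lit 0x98d5a))))))) (a (u (nat_lit 6) (v (nat_lit 7) (k (nat_lit 0x9a794)))) (u (nat_lit 5) (a (v (nat_lit 9) (k (nat_lit 0x98f04))) (a (v (nat_lit 8) (k (nat_lit 0x97ae8))) (v (nat_lit 5) (k (nat_lit 0x9a08c))))))))) (a (a (v (nat_lit 4) (u (nat_lit 5) (k (nat_lit 0x9a4ca)))) (a (u (nat_lit 4) (a (a (v (nat_lit 9) (k (nat_lit 0x9b4d8))) (v (nat_lit 8) (k (nat_lit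 0x990d8)))) (a (v (nat_lit 7) (k (nat_lit 0x99360))) (v (nat_lit 4) (k (nat_lit 0x99222)))))) (v (nat_lit 3) (u (nat_lit 5) (k (nat_lit 0x9ac2c)))))) (a (a (u (nat_lit 3) (a (a (a (v (nat_lit 9) (k (nat_lit 0x98f34))) (v (nat_lit 8) (k (nat_lit 0x98ebc)))) (a (v (nat_lit 7) (k (nat_lit 0x9918c))) (v (nat_lit 6) (k (nat_lit 0x99084))))) (a (a (v (nat_lit 5) (k (nat_lit 0x976e0))) (t (nat_lit 5) (nat_lit 8) (nat_lit 9) (k (nat_lit 0x6b6f244)))) (a (u (nat_lit 4) (k (nat_lit 0x9a77c))) (v (nat_lit 3) (k (nat_lit 0x98cbe))))))) (v (nat_lit 2) (a (u (nat_lit 5) (k (nat_lit 0x998d6))) (a (u (nat_lit 4) (k (nat_lit 0xa470c))) (u (nat_lit 3) (k (nat_lit 0x98eaa))))))) (a (u (nat_lit 2) (a (a (v (nat_lit 9) (k (nat_lit 0x98eb0))) (v (nat_lit 8) (k (nat_lit 0x990a8)))) (a (v (nat_lit 6) (k (nat_lit 0x98dae))) (v (nat_lit 2) (k (nat_lit 0x99534))))))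 (v (nat_lit 1) (u (nat_lit 5) (k (nat_lit 0x2877dda))))))))))))))) (a (u (nat_lit 1) (a (a (a (v (nat_lit 9) (v (nat_lit 9) (v (nat_lit 9) (k (nat_lit 0x94620))))) (a (v (nat_lit 8) (v (nat_lit 8) (v (nat_lit 8) (k (nat_lit 0x9af50))))) (u (nat_lit 8) (v (nat_lit 9) (v (nat_lit 9) (k (nat_lit 0x9b3a6))))))) (a (a (v (nat_lit 7) (a (v (nat_lit 9) (v (nat_lit 9) (k (nat_lit 0x425de94)))) (v (nat_lit 7) (v (nat_lit 7) (k (nat_lit 0x1caa9c)))))) (v (nat_lit 6) (v (nat_lit 6) (v (nat_lit 6) (k (nat_lit 0x993ae)))))) (a (v (nat_lit 5) (u (nat_lit 7) (v (nat_lit 9) (k (nat_lit 0x983be))))) (u (nat_lit 5) (a (v (nat_lit 5) (v (nat_lit 7) (k (nat_lit 0x1b2fdea)))) (u (nat_lit 5) (u (nat_lit 8) (k (nat_lit 0x99798))))))))) (a (a (a (t (nat_lit 5) (nat_lit 8) (nat_lit 9) (a (v (nat_lit 7) (v (nat_lit 9) (k (nat_lit 0x1e2e22a)))) (a (v (nat_lit 5)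 (a (u (nat_lit 8) (k (nat_lit 0x9b0a6ea))) (u (nat_lit 6) (k (nat_lit 0x5a2cf4c))))) (u (nat_lit 5) (v (nat_lit 5) (k (nat_lit 0xea17652))))))) (v (nat_lit 4) (a (a (v (nat_lit 9) (v (nat_lit 9) (k (nat_lit 0x9901e)))) (v (nat_lit 7) (v (nat_lit 7) (k (nat_lit 0x99234))))) (a (v (nat_lit 6) (a (u (nat_lit 8) (k (nat_lit 0x99c84))) (a (v (nat_lit 7) (k (nat_lit 0x995dc))) (u (nat_lit 7) (k (nat_lit 0x1a23920)))))) (a (v (nat_lit 5) (v (nat_lit 6) (k (nat_lit 0x99954)))) (v (nat_lit 4) (a (v (nat_lit 9) (k (nat_lit 0x990d8))) (a (v (nat_lit 8) (k (nat_lit 0x9b4d8))) (v (nat_lit 6) (k (nat_lit 0x99360))))))))))) (a (v (nat_lit 3) (a (a (a (v (nat_lit 9) (v (nat_lit 9) (k (nat_lit 0x9af74)))) (v (nat_lit 7) (v (nat_lit 7) (k (nat_lit 0x997f8))))) (a (v (nat_lit 6) (a (v (nat_lit 7) (k (nat_lit 0x9a4e2))) (v (nat_lit 6) (k (nat_lit 0x33c08d6)))))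 (u (nat_lit 6) (v (nat_lit 9) (k (nat_lit 0x9947a)))))) (a (a (v (nat_lit 5) (a (v (nat_lit 7) (k (nat_lit 0x9924c))) (a (v (nat_lit 6) (k (nat_lit 0x98f1c))) (v (nat_lit 5) (k (nat_lit 0x98cd6)))))) (t (nat_lit 5) (nat_lit 8) (nat_lit 9) (a (v (nat_lit 8) (k (nat_lit 0x48f2d6))) (u (nat_lit 5) (k (nat_lit 0x9932a)))))) (a (v (nat_lit 4) (a (a (v (nat_lit 9) (k (nat_lit 0x98ebc))) (v (nat_lit 7) (k (nat_lit 0x99384)))) (a (v (nat_lit 6) (k (nat_lit 0x99216))) (a (v (nat_lit 5) (k (nat_lit 0x9aa94))) (v (nat_lit 4) (k (nat_lit 0xa470c))))))) (v (nat_lit 3) (a (a (v (nat_lit 9) (k (nat_lit 0x98ebc))) (a (v (nat_lit 8) (k (nat_lit 0x98f34))) (v (nat_lit 7) (k (nat_lit 0x9918c))))) (a (a (v (nat_lit 6) (k (nat_lit 0x99084))) (v (nat_lit 5) (k (nat_lit 0x976e0)))) (a (t (nat_lit 5) (nat_lit 8) (nat_lit 9) (k (nat_lit 0x6b6f244))) (v (nat_lit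 4) (k (nat_lit 0x98eaa))))))))))) (u (nat_lit 3) (a (a (v (nat_lit 8) (v (nat_lit 9) (k (nat_lit 0x136e60)))) (v (nat_lit 7) (a (v (nat_lit 9) (k (nat_lit 0x9a092))) (v (nat_lit 8) (k (nat_lit 0x9a092)))))) (a (t (nat_lit 5) (nat_lit 8) (nat_lit 9) (a (u (nat_lit 9) (k (nat_lit 0x9908a))) (a (u (nat_lit 8) (k (nat_lit 0x9908a))) (v (nat_lit 5) (k (nat_lit 0x34388b8)))))) (v (nat_lit 4) (v (nat_lit 6) (k (nat_lit 0x13d130ba))))))))) (a (a (v (nat_lit 2) (a (a (a (v (nat_lit 8) (v (nat_lit 8) (k (nat_lit 0x98e26)))) (v (nat_lit 7) (v (nat_lit 7) (k (nat_lit 0x99648))))) (a (v (nat_lit 6) (a (u (nat_lit 8) (k (nat_lit 0x99cde))) (v (nat_lit 7) (k (nat_lit 0x99168))))) (a (v (nat_lit 5) (v (nat_lit 7) (k (nat_lit 0x98d84)))) (t (nat_lit 5) (nat_lit 8) (nat_lit 9) (a (v (nat_lit 7) (k (nat_lit 0x9a9a4))) (t (nat_lit 5) (nat_lit 8) (nat_lit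 9) (k (nat_lit 0x98fd0)))))))) (a (a (v (nat_lit 4) (v (nat_lit 9) (k (nat_lit 0x99150)))) (u (nat_lit 4) (v (nat_lit 4) (k (nat_lit 0x98778))))) (a (v (nat_lit 3) (a (t (nat_lit 5) (nat_lit 8) (nat_lit 9) (k (nat_lit 0x9906c))) (a (v (nat_lit 4) (k (nat_lit 0x9c168))) (u (nat_lit 4) (k (nat_lit 0x131100)))))) (a (u (nat_lit 3) (v (nat_lit 6) (k (nat_lit 0x13d130ba)))) (v (nat_lit 2) (a (v (nat_lit 9) (k (nat_lit 0x98eb0))) (a (v (nat_lit 8) (k (nat_lit 0x990a8))) (v (nat_lit 7) (k (nat_lit 0x98dae))))))))))) (u (nat_lit 2) (a (v (nat_lit 4) (v (nat_lit 4) (k (nat_lit 0x9a77c)))) (v (nat_lit 3) (a (v (nat_lit 4) (k (nat_lit 0x130f98))) (v (nat_lit 3) (k (nat_lit 0x9a77c)))))))) (a (v (nat_lit 1) (a (a (a (v (nat_lit 8) (v (nat_lit 8) (k (nat_lit 0x98d8a)))) (v (nat_lit 7) (v (nat_lit 7) (k (nat_lit 0x99276))))) (a (u (nat_lit 7) (v (nat_lit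 9) (k (nat_lit 0x98c04)))) (v (nat_lit 6) (a (v (nat_lit 7) (k (nat_lit 0x98f46))) (v (nat_lit 6) (k (nat_lit 0x9a680))))))) (a (a (v (nat_lit 5) (a (a (u (nat_lit 8) (k (nat_lit 0x97944))) (v (nat_lit 7) (k (nat_lit 0x99054)))) (a (v (nat_lit 6) (k (nat_lit 0x98ff4))) (v (nat_lit 5) (k (nat_lit 0x98e1a)))))) (v (nat_lit 4) (a (v (nat_lit 6) (k (nat_lit 0x99126))) (a (v (nat_lit 5) (k (nat_lit 0x9778e))) (v (nat_lit 4) (k (nat_lit 0x99222))))))) (a (v (nat_lit 3) (a (a (v (nat_lit 5) (k (nat_lit 0x98cdc))) (v (nat_lit 4) (k (nat_lit 0x9a404)))) (a (u (nat_lit 4) (k (nat_lit 0x98778))) (v (nat_lit 3) (k (nat_lit 0x98cbe)))))) (a (v (nat_lit 2) (a (v (nat_lit 7) (k (nat_lit 0x990c0))) (a (v (nat_lit 5) (k (nat_lit 0x983a0))) (v (nat_lit 2) (k (nat_lit 0x99534)))))) (v (nat_lit 1) (a (a (a (v (nat_lit 9) (k (nat_lit 0x98d90))) (v (nat_lit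 8) (k (nat_lit 0x98ed4)))) (a (v (nat_lit 7) (k (nat_lit 0x993b4))) (v (nat_lit 6) (k (nat_lit 0x98ed4))))) (a (a (v (nat_lit 5) (k (nat_lit 0x9900c))) (v (nat_lit 4) (k (nat_lit 0x9850e)))) (a (v (nat_lit 3) (k (nat_lit 0x98d18))) (a (v (nat_lit 2) (k (nat_lit 0x98e38))) (v (nat_lit 1) (k (nat_lit 0x98cd6))))))))))))) (u (nat_lit 1) (a (v (nat_lit 7) (v (nat_lit 7) (k (nat_lit 0x98c16)))) (a (v (nat_lit 4) (v (nat_lit 6) (k (nat_lit 0xb2fdee)))) (v (nat_lit 2) (v (nat_lit 6) (k (nat_lit 0xcf794b2)))))))))))) (v (nat_lit 0) (a (a (a (a (u (nat_lit 9) (v (nat_lit 9) (v (nat_lit 9) (k (nat_lit 0x12fb94))))) (v (nat_lit 8) (v (nat_lit 8) (u (nat_lit 9) (k (nat_lit 0x1311d8)))))) (a (u (nat_lit 8) (a (v (nat_lit 9) (v (nat_lit 9) (k (nat_lit 0x1311d8)))) (v (nat_lit 8) (v (nat_lit 8) (k (nat_lit 0x12fb94)))))) (v (nat_lit 7) (a (a (u (nat_lit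 9) (v (nat_lit 9) (k (nat_lit 0x98f7c)))) (v (nat_lit 8) (u (nat_lit 9) (k (nat_lit 0x9afe6))))) (a (u (nat_lit 8) (a (v (nat_lit 9) (k (nat_lit 0x9afe6))) (v (nat_lit 8) (k (nat_lit 0x98f7c))))) (v (nat_lit 7) (a (u (nat_lit 9) (k (nat_lit 0x9a668))) (u (nat_lit 8) (k (nat_lit 0x9a668)))))))))) (a (a (u (nat_lit 7) (v (nat_lit 7) (a (v (nat_lit 9) (k (nat_lit 0x97944))) (a (v (nat_lit 8) (k (nat_lit 0x97944))) (v (nat_lit 7) (k (nat_lit 0x131c70))))))) (v (nat_lit 6) (a (a (u (nat_lit 9) (v (nat_lit 9) (k (nat_lit 0x98f7c)))) (v (nat_lit 8) (u (nat_lit 9) (k (nat_lit 0x9afe6))))) (a (u (nat_lit 8) (a (v (nat_lit 9) (k (nat_lit 0x9afe6))) (v (nat_lit 8) (k (nat_lit 0x98f7c))))) (a (v (nat_lit 7) (a (u (nat_lit 9) (k (nat_lit 0x131e8c))) (u (nat_lit 8) (k (nat_lit 0x131e8c))))) (v (nat_lit 6) (a (u (nat_lit 9) (k (nat_lit 0x9a668))) (a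 (u (nat_lit 8) (k (nat_lit 0x9a668))) (u (nat_lit 7) (k (nat_lit 0x131e20))))))))))) (a (u (nat_lit 6) (a (v (nat_lit 7) (v (nat_lit 7) (k (nat_lit 0x131e20)))) (v (nat_lit 6) (a (v (nat_lit 9) (k (nat_lit 0x97944))) (a (v (nat_lit 8) (k (nat_lit 0x97944))) (v (nat_lit 6) (k (nat_lit 0x131c70)))))))) (a (v (nat_lit 5) (a (a (u (nat_lit 9) (v (nat_lit 9) (k (nat_lit 0x1345c8)))) (a (v (nat_lit 8) (u (nat_lit 9) (k (nat_lit 0x1315d4)))) (u (nat_lit 8) (a (v (nat_lit 9) (k (nat_lit 0x1315d4))) (v (nat_lit 8) (k (nat_lit 0x1345c8))))))) (a (v (nat_lit 7) (a (u (nat_lit 9) (k (nat_lit 0x996a2))) (u (nat_lit 8) (k (nat_lit 0x996a2))))) (a (v (nat_lit 6) (a (u (nat_lit 9) (k (nat_lit 0x996a2))) (a (u (nat_lit 8) (k (nat_lit 0x996a2))) (u (nat_lit 7) (k (nat_lit 0x1301a0)))))) (u (nat_lit 6) (v (nat_lit 7) (k (nat_lit 0x1301a0)))))))) (u (nat_lit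 5) (a (a (v (nat_lit 9) (v (nat_lit 9) (k (nat_lit 0x12e904)))) (a (v (nat_lit 8) (v (nat_lit 8) (k (nat_lit 0x12e904)))) (v (nat_lit 7) (v (nat_lit 7) (k (nat_lit 0x130fc8)))))) (a (a (u (nat_lit 7) (a (v (nat_lit 9) (k (nat_lit 0x99636))) (v (nat_lit 8) (k (nat_lit 0x99636))))) (v (nat_lit 6) (a (v (nat_lit 7) (k (nat_lit 0x267a20))) (a (u (nat_lit 7) (k (nat_lit 0x1327f8))) (v (nat_lit 6) (k (nat_lit 0x130fc8))))))) (a (u (nat_lit 6) (a (v (nat_lit 9) (k (nat_lit 0x99636))) (a (v (nat_lit 8) (k (nat_lit 0x99636))) (v (nat_lit 7) (k (nat_lit 0x1327f8)))))) (v (nat_lit 5) (a (a (v (nat_lit 9) (k (nat_lit 0x131610))) (v (nat_lit 8) (k (nat_lit 0x131610)))) (a (v (nat_lit 7) (k (nat_lit 0x133c74))) (a (v (nat_lit 6) (k (nat_lit 0x133c74))) (v (nat_lit 5) (k (nat_lit 0x263178))))))))))))))) (a (a (a (t (nat_lit 5) (nat_lit 8) (nat_lit 9)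 (a (a (u (nat_lit 9) (u (nat_lit 9) (k (nat_lit 0x6f0c9e4)))) (u (nat_lit 8) (a (u (nat_lit 9) (k (nat_lit 0x177b9ca0))) (u (nat_lit 8) (k (nat_lit 0x6f0c9e4)))))) (a (v (nat_lit 5) (a (u (nat_lit 7) (k (nat_lit 0x51b2050))) (u (nat_lit 6) (k (nat_lit 0x51b2050))))) (u (nat_lit 5) (a (v (nat_lit 7) (k (nat_lit 0x3f7ea98))) (v (nat_lit 6) (k (nat_lit 0x3f7ea98)))))))) (v (nat_lit 4) (a (a (a (u (nat_lit 9) (v (nat_lit 9) (k (nat_lit 0x97374)))) (v (nat_lit 8) (u (nat_lit 9) (k (nat_lit 0x97386))))) (a (u (nat_lit 8) (a (v (nat_lit 9) (k (nat_lit 0x9a72e))) (v (nat_lit 8) (k (nat_lit 0x98e3e))))) (v (nat_lit 7) (a (u (nat_lit 9) (k (nat_lit 0x99084))) (u (nat_lit 8) (k (nat_lit 0x9902a))))))) (a (a (v (nat_lit 6) (a (u (nat_lit 9) (k (nat_lit 0x991a4))) (a (u (nat_lit 8) (k (nat_lit 0x9988e))) (u (nat_lit 7) (k (nat_lit 0x528546c))))))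 (u (nat_lit 6) (v (nat_lit 7) (k (nat_lit 0x9b352))))) (a (u (nat_lit 5) (a (v (nat_lit 9) (k (nat_lit 0x98f22))) (a (v (nat_lit 8) (k (nat_lit 0x98f22))) (v (nat_lit 5) (k (nat_lit 0x984fc)))))) (v (nat_lit 4) (u (nat_lit 5) (k (nat_lit 0x97ec6))))))))) (a (u (nat_lit 4) (a (a (v (nat_lit 9) (v (nat_lit 9) (k (nat_lit 0x9a614)))) (a (v (nat_lit 7) (v (nat_lit 7) (k (nat_lit 0x98e20)))) (v (nat_lit 6) (a (v (nat_lit 7) (k (nat_lit 0x974fa))) (v (nat_lit 6) (k (nat_lit 0x97bea))))))) (a (v (nat_lit 5) (a (v (nat_lit 7) (k (nat_lit 0x98cf4))) (v (nat_lit 6) (k (nat_lit 0x98c34))))) (a (t (nat_lit 5) (nat_lit 8) (nat_lit 9) (a (u (nat_lit 8) (k (nat_lit 0x129a2f90))) (v (nat_lit 5) (k (nat_lit 0x188abefe))))) (v (nat_lit 4) (a (a (v (nat_lit 9) (k (nat_lit 0x97fc8))) (v (nat_lit 7) (k (nat_lit 0x990fc)))) (a (v (nat_lit 6) (k (nat_lit 0x991c8)))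 (a (v (nat_lit 5) (k (nat_lit 0x99b46))) (v (nat_lit 4) (k (nat_lit 0x98d6c))))))))))) (a (v (nat_lit 3) (a (a (a (u (nat_lit 9) (v (nat_lit 9) (k (nat_lit 0x97374)))) (v (nat_lit 8) (u (nat_lit 9) (k (nat_lit 0x97386))))) (a (u (nat_lit 8) (a (v (nat_lit 9) (k (nat_lit 0x9a72e))) (v (nat_lit 8) (k (nat_lit 0x98e3e))))) (v (nat_lit 7) (a (u (nat_lit 9) (k (nat_lit 0x991a4))) (u (nat_lit 8) (k (nat_lit 0x9988e))))))) (a (a (v (nat_lit 6) (a (u (nat_lit 9) (k (nat_lit 0x99084))) (a (u (nat_lit 8) (k (nat_lit 0x9902a))) (u (nat_lit 7) (k (nat_lit 0x9b352)))))) (u (nat_lit 6) (v (nat_lit 7) (k (nat_lit 0x528546c))))) (a (u (nat_lit 5) (a (v (nat_lit 9) (k (nat_lit 0x98f22))) (a (v (nat_lit 8) (k (nat_lit 0x98f22))) (v (nat_lit 5) (k (nat_lit 0x984fc)))))) (a (u (nat_lit 4) (a (a (v (nat_lit 9) (k (nat_lit 0x98f16))) (v (nat_lit 8) (k (nat_lit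 0x989fa)))) (a (v (nat_lit 6) (k (nat_lit 0x990c0))) (a (v (nat_lit 5) (k (nat_lit 0x99eb8))) (v (nat_lit 4) (k (nat_lit 0x99b64))))))) (v (nat_lit 3) (u (nat_lit 5) (k (nat_lit 0x97ec6))))))))) (u (nat_lit 3) (a (a (v (nat_lit 9) (v (nat_lit 9) (k (nat_lit 0x9a614)))) (a (v (nat_lit 7) (v (nat_lit 7) (k (nat_lit 0x97bea)))) (v (nat_lit 6) (a (v (nat_lit 7) (k (nat_lit 0x974fa))) (v (nat_lit 6) (k (nat_lit 0x98e20))))))) (a (a (v (nat_lit 5) (a (v (nat_lit 7) (k (nat_lit 0x98c34))) (v (nat_lit 6) (k (nat_lit 0x98cf4))))) (t (nat_lit 5) (nat_lit 8) (nat_lit 9) (a (u (nat_lit 8) (k (nat_lit 0x129a2f90))) (v (nat_lit 5) (k (nat_lit 0x188abefe)))))) (a (v (nat_lit 4) (a (a (v (nat_lit 9) (k (nat_lit 0x98f16))) (v (nat_lit 8) (k (nat_lit 0x989fa)))) (a (v (nat_lit 7) (k (nat_lit 0x990c0))) (v (nat_lit 5) (k (nat_lit 0x99eb8)))))) (v (nat_lit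 3) (a (a (v (nat_lit 9) (k (nat_lit 0x97fc8))) (a (v (nat_lit 7) (k (nat_lit 0x991c8))) (v (nat_lit 6) (k (nat_lit 0x990fc))))) (a (v (nat_lit 5) (k (nat_lit 0x99b46))) (a (v (nat_lit 4) (k (nat_lit 0x99b64))) (v (nat_lit 3) (k (nat_lit 0x98d6c)))))))))))))) (a (a (v (nat_lit 2) (a (a (a (u (nat_lit 9) (v (nat_lit 9) (k (nat_lit 0x98e3e)))) (a (v (nat_lit 8) (u (nat_lit 9) (k (nat_lit 0x9a72e)))) (u (nat_lit 8) (a (v (nat_lit 9) (k (nat_lit 0x97386))) (v (nat_lit 8) (k (nat_lit 0x97374))))))) (a (v (nat_lit 7) (a (u (nat_lit 9) (k (nat_lit 0x9902a))) (u (nat_lit 8) (k (nat_lit 0x99084))))) (a (v (nat_lit 6) (a (u (nat_lit 9) (k (nat_lit 0x9988e))) (a (u (nat_lit 8) (k (nat_lit 0x991a4))) (u (nat_lit 7) (k (nat_lit 0x528546c)))))) (u (nat_lit 6) (v (nat_lit 7) (k (nat_lit 0x9b352))))))) (a (a (u (nat_lit 5) (a (v (nat_lit 9) (k (nat_lit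 0x98f22))) (a (v (nat_lit 8) (k (nat_lit 0x98f22))) (v (nat_lit 5) (k (nat_lit 0x984fc)))))) (a (v (nat_lit 4) (u (nat_lit 5) (k (nat_lit 0x1304dc)))) (u (nat_lit 4) (a (a (v (nat_lit 8) (k (nat_lit 0x98e2c))) (v (nat_lit 7) (k (nat_lit 0x99162)))) (a (v (nat_lit 6) (k (nat_lit 0x98fca))) (a (v (nat_lit 5) (k (nat_lit 0x99870))) (v (nat_lit 4) (k (nat_lit 0x98d6c))))))))) (a (v (nat_lit 3) (u (nat_lit 5) (k (nat_lit 0x134b8c)))) (a (u (nat_lit 3) (a (v (nat_lit 8) (k (nat_lit 0x98e5c))) (a (v (nat_lit 6) (k (nat_lit 0x99858))) (v (nat_lit 5) (k (nat_lit 0x95e44)))))) (v (nat_lit 2) (a (u (nat_lit 5) (k (nat_lit 0x97ec6))) (u (nat_lit 3) (k (nat_lit 0x98d3c)))))))))) (u (nat_lit 2) (a (a (a (v (nat_lit 8) (v (nat_lit 8) (k (nat_lit 0x9a614)))) (v (nat_lit 7) (v (nat_lit 7) (k (nat_lit 0x98e20))))) (a (v (nat_lit 6) (a (v (nat_lit 7) (k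 (nat_lit 0x974fa))) (v (nat_lit 6) (k (nat_lit 0x97bea))))) (v (nat_lit 5) (a (v (nat_lit 7) (k (nat_lit 0x98cf4))) (v (nat_lit 6) (k (nat_lit 0x98c34))))))) (a (a (t (nat_lit 5) (nat_lit 8) (nat_lit 9) (a (u (nat_lit 9) (k (nat_lit 0x129a2f90))) (v (nat_lit 5) (k (nat_lit 0x188abefe))))) (v (nat_lit 4) (a (a (v (nat_lit 9) (k (nat_lit 0x98e2c))) (v (nat_lit 7) (k (nat_lit 0x99162)))) (a (v (nat_lit 6) (k (nat_lit 0x98fca))) (v (nat_lit 5) (k (nat_lit 0x99870))))))) (a (v (nat_lit 3) (a (a (v (nat_lit 9) (k (nat_lit 0x98e5c))) (v (nat_lit 7) (k (nat_lit 0x99858)))) (a (v (nat_lit 5) (k (nat_lit 0x95e44))) (a (v (nat_lit 4) (k (nat_lit 0x98d3c))) (v (nat_lit 3) (k (nat_lit 0x98d3c))))))) (v (nat_lit 2) (a (a (v (nat_lit 8) (k (nat_lit 0x97fc8))) (a (v (nat_lit 7) (k (nat_lit 0x990fc))) (v (nat_lit 6) (k (nat_lit 0x991c8))))) (a (v (nat_lit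 5) (k (nat_lit 0x99b46))) (a (v (nat_lit 4) (k (nat_lit 0x98d6c))) (v (nat_lit 2) (k (nat_lit 0x98d6c)))))))))))) (a (v (nat_lit 1) (a (a (a (u (nat_lit 9) (v (nat_lit 9) (k (nat_lit 0x98e3e)))) (a (v (nat_lit 8) (u (nat_lit 9) (k (nat_lit 0x9a72e)))) (u (nat_lit 8) (a (v (nat_lit 9) (k (nat_lit 0x97386))) (v (nat_lit 8) (k (nat_lit 0x97374))))))) (a (a (v (nat_lit 7) (a (u (nat_lit 9) (k (nat_lit 0x9988e))) (u (nat_lit 8) (k (nat_lit 0x991a4))))) (v (nat_lit 6) (a (u (nat_lit 9) (k (nat_lit 0x9902a))) (a (u (nat_lit 8) (k (nat_lit 0x99084))) (u (nat_lit 7) (k (nat_lit 0x9b352))))))) (a (u (nat_lit 6) (v (nat_lit 7) (k (nat_lit 0x528546c)))) (u (nat_lit 5) (a (v (nat_lit 9) (k (nat_lit 0x98f22))) (a (v (nat_lit 8) (k (nat_lit 0x98f22))) (v (nat_lit 5) (k (nat_lit 0x984fc))))))))) (a (a (v (nat_lit 4) (u (nat_lit 5) (k (nat_lit 0x134b8c))))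 (a (u (nat_lit 4) (a (v (nat_lit 8) (k (nat_lit 0x98e5c))) (a (v (nat_lit 7) (k (nat_lit 0x99858))) (v (nat_lit 5) (k (nat_lit 0x95e44)))))) (v (nat_lit 3) (u (nat_lit 5) (k (nat_lit 0x1304dc)))))) (a (a (u (nat_lit 3) (a (a (v (nat_lit 8) (k (nat_lit 0x98e2c))) (v (nat_lit 7) (k (nat_lit 0x98fca)))) (a (v (nat_lit 6) (k (nat_lit 0x99162))) (a (v (nat_lit 5) (k (nat_lit 0x99870))) (v (nat_lit 3) (k (nat_lit 0x98d6c))))))) (v (nat_lit 2) (a (u (nat_lit 4) (k (nat_lit 0x98d3c))) (u (nat_lit 3) (k (nat_lit 0x98d3c)))))) (a (u (nat_lit 2) (a (a (v (nat_lit 9) (k (nat_lit 0x989fa))) (v (nat_lit 8) (k (nat_lit 0x98f16)))) (a (v (nat_lit 6) (k (nat_lit 0x990c0))) (a (v (nat_lit 5) (k (nat_lit 0x99eb8))) (v (nat_lit 2) (k (nat_lit 0x99b64))))))) (v (nat_lit 1) (a (u (nat_lit 5) (k (nat_lit 0x97ec6))) (u (nat_lit 4) (k (nat_lit 0x98d3c))))))))))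 (a (u (nat_lit 1) (a (a (a (v (nat_lit 8) (v (nat_lit 8) (k (nat_lit 0x9a614)))) (v (nat_lit 7) (v (nat_lit 7) (k (nat_lit 0x97bea))))) (a (v (nat_lit 6) (a (v (nat_lit 7) (k (nat_lit 0x974fa))) (v (nat_lit 6) (k (nat_lit 0x98e20))))) (v (nat_lit 5) (a (v (nat_lit 7) (k (nat_lit 0x98c34))) (v (nat_lit 6) (k (nat_lit 0x98cf4))))))) (a (a (t (nat_lit 5) (nat_lit 8) (nat_lit 9) (a (u (nat_lit 9) (k (nat_lit 0x129a2f90))) (v (nat_lit 5) (k (nat_lit 0x188abefe))))) (v (nat_lit 4) (a (a (v (nat_lit 9) (k (nat_lit 0x98e5c))) (v (nat_lit 6) (k (nat_lit 0x99858)))) (a (v (nat_lit 5) (k (nat_lit 0x95e44))) (v (nat_lit 4) (k (nat_lit 0x98d3c))))))) (a (v (nat_lit 3) (a (a (v (nat_lit 9) (k (nat_lit 0x98e2c))) (v (nat_lit 7) (k (nat_lit 0x98fca)))) (a (v (nat_lit 6) (k (nat_lit 0x99162))) (a (v (nat_lit 5) (k (nat_lit 0x99870))) (v (nat_lit 4) (k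 (nat_lit 0x98d3c))))))) (a (v (nat_lit 2) (a (a (v (nat_lit 9) (k (nat_lit 0x989fa))) (v (nat_lit 8) (k (nat_lit 0x98f16)))) (a (v (nat_lit 7) (k (nat_lit 0x990c0))) (v (nat_lit 5) (k (nat_lit 0x99eb8)))))) (v (nat_lit 1) (a (a (v (nat_lit 8) (k (nat_lit 0x97fc8))) (a (v (nat_lit 7) (k (nat_lit 0x991c8))) (v (nat_lit 6) (k (nat_lit 0x990fc))))) (a (a (v (nat_lit 5) (k (nat_lit 0x99b46))) (v (nat_lit 3) (k (nat_lit 0x98d6c)))) (a (v (nat_lit 2) (k (nat_lit 0x99b64))) (v (nat_lit 1) (k (nat_lit 0x98d6c)))))))))))) (v (nat_lit 0) (a (a (a (u (nat_lit 9) (v (nat_lit 9) (k (nat_lit 0x12fd38)))) (a (v (nat_lit 8) (u (nat_lit 9) (k (nat_lit 0x131d0c)))) (u (nat_lit 8) (a (v (nat_lit 9) (k (nat_lit 0x131d0c))) (v (nat_lit 8) (k (nat_lit 0x12fd38))))))) (a (a (v (nat_lit 7) (a (u (nat_lit 9) (k (nat_lit 0x98d12))) (u (nat_lit 8) (k (nat_lit 0x98d12)))))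 (v (nat_lit 6) (a (u (nat_lit 9) (k (nat_lit 0x98d12))) (a (u (nat_lit 8) (k (nat_lit 0x98d12))) (u (nat_lit 7) (k (nat_lit 0x13158c))))))) (a (u (nat_lit 6) (v (nat_lit 7) (k (nat_lit 0x13158c)))) (u (nat_lit 5) (a (v (nat_lit 9) (k (nat_lit 0x132ccc))) (a (v (nat_lit 8) (k (nat_lit 0x132ccc))) (v (nat_lit 5) (k (nat_lit 0x265f98))))))))) (a (a (a (t (nat_lit 5) (nat_lit 8) (nat_lit 9) (a (u (nat_lit 9) (k (nat_lit 0x1322b8))) (u (nat_lit 8) (k (nat_lit 0x1322b8))))) (u (nat_lit 4) (a (a (v (nat_lit 9) (k (nat_lit 0x98ce8))) (v (nat_lit 8) (k (nat_lit 0x98982)))) (a (v (nat_lit 7) (k (nat_lit 0x98cb8))) (a (v (nat_lit 6) (k (nat_lit 0x98c64))) (u (nat_lit 5) (k (nat_lit 0x98e20)))))))) (a (u (nat_lit 3) (a (a (v (nat_lit 9) (k (nat_lit 0x98ce8))) (v (nat_lit 8) (k (nat_lit 0x98982)))) (a (v (nat_lit 7) (k (nat_lit 0x98c64))) (a (v (nat_lit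 6) (k (nat_lit 0x98cb8))) (u (nat_lit 5) (k (nat_lit 0x98e20))))))) (v (nat_lit 2) (a (u (nat_lit 4) (k (nat_lit 0x98b38))) (u (nat_lit 3) (k (nat_lit 0x98dba))))))) (a (a (u (nat_lit 2) (a (a (v (nat_lit 9) (k (nat_lit 0x98982))) (a (v (nat_lit 8) (k (nat_lit 0x98ce8))) (v (nat_lit 7) (k (nat_lit 0x98cb8))))) (a (a (v (nat_lit 6) (k (nat_lit 0x98c64))) (u (nat_lit 5) (k (nat_lit 0x98e20)))) (a (v (nat_lit 4) (k (nat_lit 0x98b38))) (v (nat_lit 3) (k (nat_lit 0x98dba))))))) (v (nat_lit 1) (a (u (nat_lit 4) (k (nat_lit 0x98dba))) (u (nat_lit 3) (k (nat_lit 0x98b38)))))) (a (u (nat_lit 1) (a (a (v (nat_lit 9) (k (nat_lit 0x98982))) (a (v (nat_lit 8) (k (nat_lit 0x98ce8))) (v (nat_lit 7) (k (nat_lit 0x98c64))))) (a (a (v (nat_lit 6) (k (nat_lit 0x98cb8))) (u (nat_lit 5) (k (nat_lit 0x98e20)))) (a (v (nat_lit 4) (k (nat_lit 0x98dba))) (v (nat_lit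 3) (k (nat_lit 0x98b38))))))) (v (nat_lit 0) (u (nat_lit 5) (k (nat_lit 0x262c98))))))))))))))))) (a (u (nat_lit 0) (a (a (a (a (v (nat_lit 9) (v (nat_lit 9) (v (nat_lit 9) (k (nat_lit 0x1336e0))))) (v (nat_lit 8) (a (v (nat_lit 9) (v (nat_lit 9) (k (nat_lit 0x132774)))) (v (nat_lit 8) (a (v (nat_lit 9) (k (nat_lit 0x132774))) (v (nat_lit 8) (k (nat_lit 0x1336e0)))))))) (a (v (nat_lit 7) (v (nat_lit 8) (v (nat_lit 9) (k (nat_lit 0x12dd7c))))) (v (nat_lit 6) (a (v (nat_lit 8) (v (nat_lit 9) (k (nat_lit 0x12dd7c)))) (v (nat_lit 7) (a (a (v (nat_lit 9) (k (nat_lit 0x13134c))) (u (nat_lit 9) (k (nat_lit 0x131148)))) (a (v (nat_lit 8) (k (nat_lit 0x13134c))) (u (nat_lit 8) (k (nat_lit 0x131148)))))))))) (a (a (v (nat_lit 5) (a (v (nat_lit 7) (v (nat_lit 7) (k (nat_lit 0x24a3758)))) (v (nat_lit 6) (a (v (nat_lit 7) (k (nat_lit 0x262aa0))) (v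 (nat_lit 6) (k (nat_lit 0x24a3758))))))) (t (nat_lit 5) (nat_lit 8) (nat_lit 9) (a (u (nat_lit 5) (a (u (nat_lit 7) (k (nat_lit 0x13245c))) (a (u (nat_lit 6) (k (nat_lit 0x13245c))) (u (nat_lit 5) (k (nat_lit 0x1e5577d8)))))) (t (nat_lit 5) (nat_lit 8) (nat_lit 9) (t (nat_lit 5) (nat_lit 8) (nat_lit 9) (k (nat_lit 0x21378a8))))))) (a (v (nat_lit 4) (a (a (v (nat_lit 7) (v (nat_lit 7) (k (nat_lit 0x98ed4)))) (v (nat_lit 6) (a (v (nat_lit 7) (k (nat_lit 0x9880e))) (v (nat_lit 6) (k (nat_lit 0x9a97a)))))) (a (t (nat_lit 5) (nat_lit 8) (nat_lit 9) (v (nat_lit 7) (k (nat_lit 0x98f04)))) (v (nat_lit 4) (v (nat_lit 8) (k (nat_lit 0x98cfa))))))) (u (nat_lit 4) (a (a (v (nat_lit 6) (v (nat_lit 6) (k (nat_lit 0xeed1960)))) (u (nat_lit 6) (v (nat_lit 7) (k (nat_lit 0xddf5f86))))) (a (u (nat_lit 5) (v (nat_lit 5) (k (nat_lit 0x99858)))) (v (nat_lit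 4) (a (u (nat_lit 9) (k (nat_lit 0x99c0c))) (t (nat_lit 5) (nat_lit 8) (nat_lit 9) (k (nat_lit 0x91f638))))))))))) (a (a (a (v (nat_lit 3) (a (a (v (nat_lit 7) (v (nat_lit 7) (k (nat_lit 0x9a97a)))) (a (v (nat_lit 6) (a (v (nat_lit 7) (k (nat_lit 0x9880e))) (v (nat_lit 6) (k (nat_lit 0x98ed4))))) (t (nat_lit 5) (nat_lit 8) (nat_lit 9) (v (nat_lit 6) (k (nat_lit 0x98f04)))))) (a (v (nat_lit 4) (a (v (nat_lit 5) (k (nat_lit 0x12f930))) (v (nat_lit 4) (k (nat_lit 0x97fec))))) (a (u (nat_lit 4) (t (nat_lit 5) (nat_lit 8) (nat_lit 9) (k (nat_lit 0x2bdb29c)))) (v (nat_lit 3) (a (v (nat_lit 8) (k (nat_lit 0x98cfa))) (v (nat_lit 4) (k (nat_lit 0x97fec))))))))) (u (nat_lit 3) (a (a (v (nat_lit 7) (v (nat_lit 7) (k (nat_lit 0xeed1960)))) (v (nat_lit 6) (u (nat_lit 7) (k (nat_lit 0xddf5f86))))) (a (u (nat_lit 5) (v (nat_lit 5) (k (nat_lit 0x99858))))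 (a (v (nat_lit 4) (t (nat_lit 5) (nat_lit 8) (nat_lit 9) (k (nat_lit 0x2bdb29c)))) (v (nat_lit 3) (a (u (nat_lit 9) (k (nat_lit 0x99c0c))) (t (nat_lit 5) (nat_lit 8) (nat_lit 9) (k (nat_lit 0x91f638)))))))))) (a (v (nat_lit 2) (a (a (v (nat_lit 7) (v (nat_lit 7) (k (nat_lit 0x98ed4)))) (a (v (nat_lit 6) (a (v (nat_lit 7) (k (nat_lit 0x9880e))) (v (nat_lit 6) (k (nat_lit 0x9a97a))))) (t (nat_lit 5) (nat_lit 8) (nat_lit 9) (v (nat_lit 7) (k (nat_lit 0x98f04)))))) (a (u (nat_lit 4) (t (nat_lit 5) (nat_lit 8) (nat_lit 9) (k (nat_lit 0x1e1378e)))) (a (v (nat_lit 3) (v (nat_lit 5) (k (nat_lit 0x1343ac)))) (v (nat_lit 2) (v (nat_lit 9) (k (nat_lit 0x98cfa)))))))) (u (nat_lit 2) (a (a (v (nat_lit 6) (v (nat_lit 6) (k (nat_lit 0xeed1960)))) (a (u (nat_lit 6) (v (nat_lit 7) (k (nat_lit 0xddf5f86)))) (u (nat_lit 5) (v (nat_lit 5) (k (nat_lit 0x99858))))))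 (a (v (nat_lit 4) (t (nat_lit 5) (nat_lit 8) (nat_lit 9) (k (nat_lit 0x1e1378e)))) (a (u (nat_lit 3) (v (nat_lit 5) (k (nat_lit 0x131c40)))) (v (nat_lit 2) (a (u (nat_lit 8) (k (nat_lit 0x99c0c))) (t (nat_lit 5) (nat_lit 8) (nat_lit 9) (k (nat_lit 0x91f638))))))))))) (a (a (v (nat_lit 1) (a (a (a (v (nat_lit 7) (v (nat_lit 7) (k (nat_lit 0x9a97a)))) (v (nat_lit 6) (a (v (nat_lit 7) (k (nat_lit 0x9880e))) (v (nat_lit 6) (k (nat_lit 0x98ed4)))))) (a (t (nat_lit 5) (nat_lit 8) (nat_lit 9) (v (nat_lit 6) (k (nat_lit 0x98f04)))) (v (nat_lit 4) (v (nat_lit 5) (k (nat_lit 0x1343ac)))))) (a (a (u (nat_lit 3) (t (nat_lit 5) (nat_lit 8) (nat_lit 9) (k (nat_lit 0x1e1378e)))) (v (nat_lit 2) (a (v (nat_lit 5) (k (nat_lit 0x12f930))) (v (nat_lit 2) (k (nat_lit 0x97fec)))))) (a (u (nat_lit 2) (t (nat_lit 5) (nat_lit 8) (nat_lit 9) (k (nat_lit 0x2bdb29c))))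 (v (nat_lit 1) (a (v (nat_lit 9) (k (nat_lit 0x98cfa))) (v (nat_lit 2) (k (nat_lit 0x97fec))))))))) (u (nat_lit 1) (a (a (v (nat_lit 7) (v (nat_lit 7) (k (nat_lit 0xeed1960)))) (a (v (nat_lit 6) (u (nat_lit 7) (k (nat_lit 0xddf5f86)))) (u (nat_lit 5) (v (nat_lit 5) (k (nat_lit 0x99858)))))) (a (a (u (nat_lit 4) (v (nat_lit 5) (k (nat_lit 0x131c40)))) (v (nat_lit 3) (t (nat_lit 5) (nat_lit 8) (nat_lit 9) (k (nat_lit 0x1e1378e))))) (a (v (nat_lit 2) (t (nat_lit 5) (nat_lit 8) (nat_lit 9) (k (nat_lit 0x2bdb29c)))) (v (nat_lit 1) (a (u (nat_lit 8) (k (nat_lit 0x99c0c))) (t (nat_lit 5) (nat_lit 8) (nat_lit 9) (k (nat_lit 0x91f638)))))))))) (a (v (nat_lit 0) (a (a (a (v (nat_lit 9) (v (nat_lit 9) (k (nat_lit 0x1337e8)))) (a (v (nat_lit 8) (a (v (nat_lit 9) (k (nat_lit 0x263820))) (v (nat_lit 8) (k (nat_lit 0x1337e8))))) (v (nat_lit 7) (v (nat_lit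 7) (k (nat_lit 0x131ae4)))))) (a (a (u (nat_lit 7) (v (nat_lit 7) (k (nat_lit 0x134e8c)))) (v (nat_lit 6) (a (v (nat_lit 7) (k (nat_lit 0x264318))) (v (nat_lit 6) (k (nat_lit 0x131ae4)))))) (a (u (nat_lit 6) (v (nat_lit 6) (k (nat_lit 0x134e8c)))) (v (nat_lit 5) (a (a (u (nat_lit 9) (k (nat_lit 0x132ca8))) (u (nat_lit 8) (k (nat_lit 0x132ca8)))) (a (v (nat_lit 7) (k (nat_lit 0x1321b0))) (a (v (nat_lit 6) (k (nat_lit 0x1321b0))) (v (nat_lit 5) (k (nat_lit 0x260508)))))))))) (a (a (v (nat_lit 4) (a (v (nat_lit 5) (k (nat_lit 0x98e92))) (v (nat_lit 4) (k (nat_lit 0x98d1e))))) (a (v (nat_lit 3) (a (a (v (nat_lit 5) (k (nat_lit 0x98e92))) (v (nat_lit 4) (k (nat_lit 0x1314fc)))) (a (u (nat_lit 4) (k (nat_lit 0x98b02))) (v (nat_lit 3) (k (nat_lit 0x98d1e)))))) (u (nat_lit 3) (v (nat_lit 4) (k (nat_lit 0x98b02)))))) (a (a (v (nat_lit 2) (a (v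 (nat_lit 5) (k (nat_lit 0x98e92))) (a (v (nat_lit 4) (k (nat_lit 0x131e50))) (v (nat_lit 2) (k (nat_lit 0x98d1e)))))) (v (nat_lit 1) (a (a (v (nat_lit 5) (k (nat_lit 0x98e92))) (v (nat_lit 3) (k (nat_lit 0x131e50)))) (a (v (nat_lit 2) (k (nat_lit 0x1314fc))) (a (u (nat_lit 2) (k (nat_lit 0x98b02))) (v (nat_lit 1) (k (nat_lit 0x98d1e)))))))) (a (u (nat_lit 1) (v (nat_lit 2) (k (nat_lit 0x98b02)))) (v (nat_lit 0) (a (a (a (v (nat_lit 9) (k (nat_lit 0x131ab4))) (v (nat_lit 8) (k (nat_lit 0x131ab4)))) (a (v (nat_lit 7) (k (nat_lit 0x131fa0))) (a (v (nat_lit 6) (k (nat_lit 0x131fa0))) (v (nat_lit 5) (k (nat_lit 0x263280)))))) (a (a (v (nat_lit 4) (k (nat_lit 0x98ce2))) (v (nat_lit 3) (k (nat_lit 0x98ce2)))) (a (v (nat_lit 2) (k (nat_lit 0x98ce2))) (a (v (nat_lit 1) (k (nat_lit 0x98ce2))) (v (nat_lit 0) (k (nat_lit 0x263430))))))))))))) (u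 (nat_lit 0) (a (a (u (nat_lit 5) (v (nat_lit 5) (k (nat_lit 0x2bcae758)))) (a (t (nat_lit 5) (nat_lit 8) (nat_lit 9) (a (u (nat_lit 9) (k (nat_lit 0x2d510c))) (u (nat_lit 8) (k (nat_lit 0x2d510c))))) (u (nat_lit 4) (t (nat_lit 5) (nat_lit 8) (nat_lit 9) (k (nat_lit 0x62a7c8c)))))) (a (a (u (nat_lit 3) (t (nat_lit 5) (nat_lit 8) (nat_lit 9) (k (nat_lit 0x62a7c8c)))) (u (nat_lit 2) (t (nat_lit 5) (nat_lit 8) (nat_lit 9) (k (nat_lit 0x62a7c8c))))) (a (u (nat_lit 1) (t (nat_lit 5) (nat_lit 8) (nat_lit 9) (k (nat_lit 0x62a7c8c)))) (v (nat_lit 0) (a (u (nat_lit 9) (k (nat_lit 0x131acc))) (u (nat_lit 8) (k (nat_lit 0x131acc)))))))))))))) (a (t (nat_lit 0) (nat_lit 1) (nat_lit 2) (a (a (a (v (nat_lit 7) (u (nat_lit 8) (u (nat_lit 9) (k (nat_lit 0xd13418))))) (a (u (nat_lit 7) (v (nat_lit 7) (u (nat_lit 9) (k (nat_lit 0x27bfe38))))) (v (nat_lit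 6) (u (nat_lit 8) (u (nat_lit 9) (k (nat_lit 0xd13418))))))) (a (u (nat_lit 6) (v (nat_lit 6) (u (nat_lit 9) (k (nat_lit 0x27bfe38))))) (a (u (nat_lit 5) (a (v (nat_lit 8) (v (nat_lit 8) (k (nat_lit 0x3ab2ab4)))) (u (nat_lit 5) (v (nat_lit 8) (k (nat_lit 0x427515c)))))) (t (nat_lit 5) (nat_lit 8) (nat_lit 9) (u (nat_lit 5) (a (v (nat_lit 9) (k (nat_lit 0x38d2124))) (u (nat_lit 5) (k (nat_lit 0x131d54))))))))) (a (a (u (nat_lit 4) (a (u (nat_lit 9) (u (nat_lit 9) (k (nat_lit 0x74205ae)))) (a (t (nat_lit 5) (nat_lit 8) (nat_lit 9) (t (nat_lit 5) (nat_lit 8) (nat_lit 9) (k (nat_lit 0x98ea4)))) (v (nat_lit 4) (u (nat_lit 5) (k (nat_lit 0x99c3c))))))) (a (u (nat_lit 3) (a (a (u (nat_lit 9) (u (nat_lit 9) (k (nat_lit 0x74205ae)))) (t (nat_lit 5) (nat_lit 8) (nat_lit 9) (t (nat_lit 5) (nat_lit 8) (nat_lit 9) (k (nat_lit 0x98ea4))))) (a (u (nat_lit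 4) (u (nat_lit 9) (k (nat_lit 0x5fa7d4)))) (v (nat_lit 3) (u (nat_lit 5) (k (nat_lit 0x99c3c))))))) (u (nat_lit 2) (a (a (u (nat_lit 9) (u (nat_lit 9) (k (nat_lit 0x82be1ea)))) (v (nat_lit 8) (v (nat_lit 8) (k (nat_lit 0x341ff8e))))) (a (u (nat_lit 5) (u (nat_lit 5) (k (nat_lit 0x5479b12)))) (a (u (nat_lit 3) (u (nat_lit 9) (k (nat_lit 0x1beffa0)))) (u (nat_lit 2) (a (a (v (nat_lit 6) (k (nat_lit 0x41c49c))) (v (nat_lit 5) (k (nat_lit 0xa72ec)))) (a (t (nat_lit 5) (nat_lit 8) (nat_lit 9) (k (nat_lit 0x6a79a54))) (u (nat_lit 2) (k (nat_lit 0xcb90e50)))))))))))) (a (a (u (nat_lit 1) (a (a (u (nat_lit 9) (u (nat_lit 9) (k (nat_lit 0x82be1ea)))) (a (v (nat_lit 8) (v (nat_lit 8) (k (nat_lit 0x341ff8e)))) (u (nat_lit 5) (u (nat_lit 5) (k (nat_lit 0x5479b12)))))) (a (u (nat_lit 4) (u (nat_lit 9) (k (nat_lit 0x1beffa0)))) (a (u (nat_lit 2) (u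 (nat_lit 9) (k (nat_lit 0x51aeac8)))) (u (nat_lit 1) (a (a (v (nat_lit 7) (k (nat_lit 0x41c49c))) (v (nat_lit 5) (k (nat_lit 0xa72ec)))) (a (t (nat_lit 5) (nat_lit 8) (nat_lit 9) (k (nat_lit 0x6a79a54))) (u (nat_lit 1) (k (nat_lit 0xcb90e50)))))))))) (v (nat_lit 0) (a (a (u (nat_lit 4) (v (nat_lit 4) (k (nat_lit 0xdfbea)))) (u (nat_lit 3) (v (nat_lit 3) (k (nat_lit 0xdfbea))))) (a (u (nat_lit 2) (u (nat_lit 9) (k (nat_lit 0x11a0462)))) (u (nat_lit 1) (u (nat_lit 9) (k (nat_lit 0x11a0462)))))))) (a (u (nat_lit 0) (a (a (a (v (nat_lit 8) (v (nat_lit 8) (k (nat_lit 0x13233c)))) (v (nat_lit 7) (v (nat_lit 9) (k (nat_lit 0x98f8e))))) (a (v (nat_lit 6) (v (nat_lit 9) (k (nat_lit 0x98f8e)))) (a (t (nat_lit 5) (nat_lit 8) (nat_lit 9) (u (nat_lit 5) (k (nat_lit 0x804c93c)))) (u (nat_lit 4) (a (u (nat_lit 5) (k (nat_lit 0xdc8e28))) (u (nat_lit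 4) (k (nat_lit 0x8ff6d6)))))))) (a (a (u (nat_lit 3) (a (u (nat_lit 5) (k (nat_lit 0xdc8e28))) (u (nat_lit 3) (k (nat_lit 0x8ff6d6))))) (u (nat_lit 2) (a (t (nat_lit 5) (nat_lit 8) (nat_lit 9) (k (nat_lit 0x847038))) (u (nat_lit 2) (k (nat_lit 0x9997e)))))) (a (u (nat_lit 1) (a (t (nat_lit 5) (nat_lit 8) (nat_lit 9) (k (nat_lit 0x847038))) (u (nat_lit 1) (k (nat_lit 0x9997e))))) (a (v (nat_lit 0) (t (nat_lit 5) (nat_lit 8) (nat_lit 9) (k (nat_lit 0x13200c)))) (u (nat_lit 0) (u (nat_lit 0) (k (nat_lit 0x2da0d10))))))))) (t (nat_lit 0) (nat_lit 1) (nat_lit 2) (a (a (a (v (nat_lit 6) (u (nat_lit 7) (k (nat_lit 0x13a64e4)))) (u (nat_lit 6) (v (nat_lit 7) (k (nat_lit 0x13a64e4))))) (a (u (nat_lit 4) (v (nat_lit 4) (k (nat_lit 0x9fab6)))) (u (nat_lit 3) (v (nat_lit 3) (k (nat_lit 0x9fab6)))))) (a (a (u (nat_lit 2) (a (u (nat_lit 5) (k (nat_lit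 0xa04a6))) (a (u (nat_lit 3) (k (nat_lit 0x108cb52))) (v (nat_lit 2) (k (nat_lit 0x99540)))))) (u (nat_lit 1) (a (u (nat_lit 5) (k (nat_lit 0xa04a6))) (a (u (nat_lit 4) (k (nat_lit 0x108cb52))) (v (nat_lit 1) (k (nat_lit 0x99540))))))) (a (u (nat_lit 0) (u (nat_lit 5) (k (nat_lit 0x131ee0)))) (t (nat_lit 0) (nat_lit 1) (nat_lit 2) (a (u (nat_lit 2) (k (nat_lit 0x1dfb6fe))) (u (nat_lit 1) (k (nat_lit 0x1dfb6fe)))))))))))))) (t (nat_lit 0) (nat_lit 3) (nat_lit 4) (a (a (a (v (nat_lit 7) (u (nat_lit 8) (u (nat_lit 9) (k (nat_lit 0xd13418))))) (a (u (nat_lit 7) (v (nat_lit 7) (u (nat_lit 8) (k (nat_lit 0x27bfe38))))) (v (nat_lit 6) (u (nat_lit 8) (u (nat_lit 9) (k (nat_lit 0xd13418))))))) (a (a (u (nat_lit 6) (v (nat_lit 6) (u (nat_lit 8) (k (nat_lit 0x27bfe38))))) (u (nat_lit 5) (a (v (nat_lit 9) (v (nat_lit 9) (k (nat_lit 0x3ab2ab4))))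 (u (nat_lit 5) (v (nat_lit 9) (k (nat_lit 0x427515c))))))) (a (t (nat_lit 5) (nat_lit 8) (nat_lit 9) (u (nat_lit 5) (a (v (nat_lit 8) (k (nat_lit 0x38d2124))) (u (nat_lit 5) (k (nat_lit 0x131d54)))))) (u (nat_lit 4) (a (a (v (nat_lit 9) (v (nat_lit 9) (k (nat_lit 0x341ff8e)))) (u (nat_lit 8) (u (nat_lit 8) (k (nat_lit 0x82be1ea))))) (a (u (nat_lit 5) (u (nat_lit 5) (k (nat_lit 0x5479b12)))) (u (nat_lit 4) (a (a (v (nat_lit 6) (k (nat_lit 0x41c49c))) (v (nat_lit 5) (k (nat_lit 0xa72ec)))) (a (t (nat_lit 5) (nat_lit 8) (nat_lit 9) (k (nat_lit 0x6a79a54))) (u (nat_lit 4) (k (nat_lit 0xcb90e50)))))))))))) (a (a (u (nat_lit 3) (a (a (v (nat_lit 9) (v (nat_lit 9) (k (nat_lit 0x341ff8e)))) (u (nat_lit 8) (u (nat_lit 8) (k (nat_lit 0x82be1ea))))) (a (u (nat_lit 5) (u (nat_lit 5) (k (nat_lit 0x5479b12)))) (a (u (nat_lit 4) (u (nat_lit 8) (k (nat_lit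 0x51aeac8)))) (u (nat_lit 3) (a (a (v (nat_lit 7) (k (nat_lit 0x41c49c))) (v (nat_lit 5) (k (nat_lit 0xa72ec)))) (a (t (nat_lit 5) (nat_lit 8) (nat_lit 9) (k (nat_lit 0x6a79a54))) (u (nat_lit 3) (k (nat_lit 0xcb90e50)))))))))) (a (u (nat_lit 2) (a (a (u (nat_lit 8) (u (nat_lit 8) (k (nat_lit 0x74205ae)))) (t (nat_lit 5) (nat_lit 8) (nat_lit 9) (t (nat_lit 5) (nat_lit 8) (nat_lit 9) (k (nat_lit 0x98ea4))))) (a (u (nat_lit 3) (u (nat_lit 8) (k (nat_lit 0x1beffa0)))) (v (nat_lit 2) (u (nat_lit 5) (k (nat_lit 0x99c3c))))))) (u (nat_lit 1) (a (a (u (nat_lit 8) (u (nat_lit 8) (k (nat_lit 0x74205ae)))) (t (nat_lit 5) (nat_lit 8) (nat_lit 9) (t (nat_lit 5) (nat_lit 8) (nat_lit 9) (k (nat_lit 0x98ea4))))) (a (u (nat_lit 4) (u (nat_lit 8) (k (nat_lit 0x1beffa0)))) (a (u (nat_lit 2) (u (nat_lit 8) (k (nat_lit 0x5fa7d4)))) (v (nat_lit 1) (u (nat_lit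 5) (k (nat_lit 0x99c3c)))))))))) (a (a (v (nat_lit 0) (a (a (u (nat_lit 4) (u (nat_lit 8) (k (nat_lit 0x11a0462)))) (u (nat_lit 3) (u (nat_lit 8) (k (nat_lit 0x11a0462))))) (a (u (nat_lit 2) (v (nat_lit 2) (k (nat_lit 0xdfbea)))) (u (nat_lit 1) (v (nat_lit 1) (k (nat_lit 0xdfbea))))))) (u (nat_lit 0) (a (a (a (v (nat_lit 9) (v (nat_lit 9) (k (nat_lit 0x13233c)))) (v (nat_lit 7) (v (nat_lit 8) (k (nat_lit 0x98f8e))))) (a (v (nat_lit 6) (v (nat_lit 8) (k (nat_lit 0x98f8e)))) (a (t (nat_lit 5) (nat_lit 8) (nat_lit 9) (u (nat_lit 5) (k (nat_lit 0x804c93c)))) (u (nat_lit 4) (a (t (nat_lit 5) (nat_lit 8) (nat_lit 9) (k (nat_lit 0x847038))) (u (nat_lit 4) (k (nat_lit 0x9997e)))))))) (a (a (u (nat_lit 3) (a (t (nat_lit 5) (nat_lit 8) (nat_lit 9) (k (nat_lit 0x847038))) (u (nat_lit 3) (k (nat_lit 0x9997e))))) (u (nat_lit 2) (a (u (nat_lit 5) (k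 (nat_lit 0xdc8e28))) (u (nat_lit 2) (k (nat_lit 0x8ff6d6)))))) (a (u (nat_lit 1) (a (u (nat_lit 5) (k (nat_lit 0xdc8e28))) (u (nat_lit 1) (k (nat_lit 0x8ff6d6))))) (a (v (nat_lit 0) (t (nat_lit 5) (nat_lit 8) (nat_lit 9) (k (nat_lit 0x13200c)))) (u (nat_lit 0) (u (nat_lit 0) (k (nat_lit 0x2da0d10)))))))))) (a (t (nat_lit 0) (nat_lit 1) (nat_lit 2) (a (a (a (u (nat_lit 7) (v (nat_lit 7) (k (nat_lit 0x4ea56b4)))) (u (nat_lit 6) (v (nat_lit 6) (k (nat_lit 0x4ea56b4))))) (a (u (nat_lit 3) (u (nat_lit 4) (k (nat_lit 0x1327bc)))) (v (nat_lit 2) (u (nat_lit 4) (k (nat_lit 0x99204)))))) (a (a (u (nat_lit 2) (v (nat_lit 4) (k (nat_lit 0x99204)))) (v (nat_lit 1) (u (nat_lit 3) (k (nat_lit 0x99204))))) (a (u (nat_lit 1) (a (v (nat_lit 3) (k (nat_lit 0x99204))) (u (nat_lit 2) (k (nat_lit 0x1327bc))))) (t (nat_lit 0) (nat_lit 1) (nat_lit 2) (a (u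 (nat_lit 4) (k (nat_lit 0x5801418))) (u (nat_lit 3) (k (nat_lit 0x5801418))))))))) (t (nat_lit 0) (nat_lit 3) (nat_lit 4) (a (a (a (v (nat_lit 6) (u (nat_lit 7) (k (nat_lit 0x13a64e4)))) (u (nat_lit 6) (v (nat_lit 7) (k (nat_lit 0x13a64e4))))) (a (u (nat_lit 4) (a (u (nat_lit 5) (k (nat_lit 0xa04a6))) (v (nat_lit 4) (k (nat_lit 0x99540))))) (u (nat_lit 3) (a (u (nat_lit 5) (k (nat_lit 0xa04a6))) (v (nat_lit 3) (k (nat_lit 0x99540))))))) (a (a (u (nat_lit 2) (a (u (nat_lit 3) (k (nat_lit 0x108cb52))) (v (nat_lit 2) (k (nat_lit 0x9fab6))))) (u (nat_lit 1) (a (u (nat_lit 4) (k (nat_lit 0x108cb52))) (v (nat_lit 1) (k (nat_lit 0x9fab6)))))) (a (u (nat_lit 0) (u (nat_lit 5) (k (nat_lit 0x131ee0)))) (a (t (nat_lit 0) (nat_lit 1) (nat_lit 2) (a (u (nat_lit 2) (k (nat_lit 0x5801418))) (u (nat_lit 1) (k (nat_lit 0x5801418))))) (t (nat_lit 0) (nat_lit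 3) (nat_lit 4) (a (u (nat_lit 4) (k (nat_lit 0x1dfb6fe))) (u (nat_lit 3) (k (nat_lit 0x1dfb6fe))))))))))))))))))))

open Fl.Tr in
/-- the table -/
noncomputable def T : Fl.Tr := (c (c (c (c (c (c (c (c (c (c (m (nat_lit 0xe6153b20)) (c (p (nat_lit 0x99d28838)) (c (m (nat_lit 0x608eac04)) (c (p (nat_lit 0xadc2a64)) (c (m (nat_lit 0x26367c)) e))))) (c (c (p (nat_lit 0x99d28838)) (c (m (nat_lit 0x91f308c0)) (c (p (nat_lit 0x4d536fec)) (c (m (nat_lit 0xb775b88)) e)))) (c (c (m (nat_lit 0x608eac04)) (c (p (nat_lit 0x4d536fec)) (c (m (nat_lit 0x16c87cf8)) e))) (c (c (p (nat_lit 0xadc2a64)) (c (m (nat_lit 0xb775b88)) e)) (c (c (m (nat_lit 0x26367c)) e) e))))) (c (c (c (p (nat_lit 0x284b566c)) (c (m (nat_lit 0x42bee24)) (c (p (nat_lit 0xcd9b12c)) (c (m (nat_lit 0x1caa48)) e)))) (c (c (m (nat_lit 0x42bee24)) (c (p (nat_lit 0x16236e28)) (c (m (nat_lit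 0x6a0f7ac)) e))) (c (c (p (nat_lit 0xcd9b12c)) (c (m (nat_lit 0x6a0f7ac)) e)) (c (c (m (nat_lit 0x1caa48)) e) e)))) (c (c (c (p (nat_lit 0x24a348a4)) (c (m (nat_lit 0x24c2e5c)) (c (m (nat_lit 0x98f28)) e))) (c (c (m (nat_lit 0x24c2e5c)) (c (m (nat_lit 0x263808)) e)) (c (c (m (nat_lit 0x98f28)) e) e))) (c (c (c (p (nat_lit 0xabf9a8)) (c (m (nat_lit 0x98e68)) e)) (c (c (m (nat_lit 0x98e68)) e) e)) (c (c (c (m (nat_lit 0x131fe8)) e) e) e))))) (c (c (c (c (p (nat_lit 0x284b566c)) (c (m (nat_lit 0x42bee24)) (c (p (nat_lit 0xcd9b12c)) (c (m (nat_lit 0x1caa48)) e)))) (c (c (m (nat_lit 0x42bee24)) (c (p (nat_lit 0x16236e28)) (c (m (nat_lit 0x6a0f7ac)) e))) (c (c (p (nat_lit 0xcd9b12c)) (c (m (nat_lit 0x6a0f7ac)) e)) (c (c (m (nat_lit 0x1caa48)) e) e)))) (c (c (c (m (nat_lit 0x558558f0)) (c (p (nat_lit 0x73e120)) (c (m (nat_lit 0x4d21f4)) e)))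 (c (c (p (nat_lit 0x73e120)) (c (m (nat_lit 0x73e0c0)) e)) (c (c (m (nat_lit 0x4d21f4)) e) e))) (c (c (c (m (nat_lit 0x66ed258)) (c (m (nat_lit 0x132528)) e)) (c (c (m (nat_lit 0x132528)) e) e)) (c (c (c (m (nat_lit 0x4c72c8)) e) e) e)))) (c (c (c (c (p (nat_lit 0x24a348a4)) (c (m (nat_lit 0x24c2e5c)) (c (m (nat_lit 0x98f28)) e))) (c (c (m (nat_lit 0x24c2e5c)) (c (m (nat_lit 0x263808)) e)) (c (c (m (nat_lit 0x98f28)) e) e))) (c (c (c (m (nat_lit 0x66ed258)) (c (m (nat_lit 0x132528)) e)) (c (c (m (nat_lit 0x132528)) e) e)) (c (c (c (m (nat_lit 0x2664a8)) e) e) e))) (c (c (c (c (p (nat_lit 0xabf9a8)) (c (m (nat_lit 0x98e68)) e)) (c (c (m (nat_lit 0x98e68)) e) e)) (c (c (c (m (nat_lit 0x4c72c8)) e) e) e)) (c (c (c (c (m (nat_lit 0x131fe8)) e) e) e) e))))) (c (c (c (c (c (p (nat_lit 0x21f91ea8)) (c (p (nat_lit 0x58d18a9c)) (c (m (nat_lit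 0x1197c4a4)) (c (p (nat_lit 0x33465d8)) e)))) (c (c (p (nat_lit 0x58d18a9c)) (c (m (nat_lit 0x7c046e8)) (c (m (nat_lit 0x12e36f4)) e))) (c (c (m (nat_lit 0x1197c4a4)) (c (m (nat_lit 0x12e36f4)) e)) (c (c (p (nat_lit 0x33465d8)) e) e)))) (c (c (c (p (nat_lit 0x6c16e48)) (c (m (nat_lit 0x150bce68)) (c (p (nat_lit 0x16d6124)) e))) (c (c (m (nat_lit 0x150bce68)) (c (m (nat_lit 0x3966c18)) e)) (c (c (p (nat_lit 0x16d6124)) e) e))) (c (c (c (m (nat_lit 0x437e7a0)) (c (m (nat_lit 0x98e44)) e)) (c (c (m (nat_lit 0x98e44)) e) e)) (c (c (c (p (nat_lit 0x60)) e) e) e)))) (c (c (c (c (p (nat_lit 0x6c16e48)) (c (m (nat_lit 0x150bce68)) (c (p (nat_lit 0x16d6124)) e))) (c (c (m (nat_lit 0x150bce68)) (c (m (nat_lit 0x3966c18)) e)) (c (c (p (nat_lit 0x16d6124)) e) e))) (c (c (c (p (nat_lit 0x32d549f0)) (c (m (nat_lit 0x73de08)) e)) (c (c (m (nat_lit 0x73de08))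 e) e)) (c (c (c (p (nat_lit 0x6952a58)) e) e) e))) (c (c (c (c (m (nat_lit 0x437e7a0)) (c (m (nat_lit 0x98e44)) e)) (c (c (m (nat_lit 0x98e44)) e) e)) (c (c (c (p (nat_lit 0x6952a58)) e) e) e)) (c (c (c (c (p (nat_lit 0x60)) e) e) e) e)))) (c (c (c (c (c (p (nat_lit 0x415a0220)) (c (m (nat_lit 0x44cc1708)) (c (p (nat_lit 0x6b53950)) e))) (c (c (m (nat_lit 0x44cc1708)) (c (p (nat_lit 0xd90a3d0)) e)) (c (c (p (nat_lit 0x6b53950)) e) e))) (c (c (c (m (nat_lit 0x19ae7f58)) (c (p (nat_lit 0x87832a4)) e)) (c (c (p (nat_lit 0x87832a4)) e) e)) (c (c (c (m (nat_lit 0x263d60)) e) e) e))) (c (c (c (c (m (nat_lit 0x19ae7f58)) (c (p (nat_lit 0x87832a4)) e)) (c (c (p (nat_lit 0x87832a4)) e) e)) (c (c (c (m (nat_lit 0x196a9c28)) e) e) e)) (c (c (c (c (m (nat_lit 0x263d60)) e) e) e) e))) (c (c (c (c (c (m (nat_lit 0x20d20730)) (c (p (nat_lit 0x3476fd0))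 e)) (c (c (p (nat_lit 0x3476fd0)) e) e)) (c (c (c (p (nat_lit 0x6ee2048)) e) e) e)) (c (c (c (c (p (nat_lit 0x6ee2048)) e) e) e) e)) (c (c (c (c (c (m (nat_lit 0x4c7808)) e) e) e) e) e))))) (c (c (c (c (c (c (p (nat_lit 0xa14ca854)) (c (p (nat_lit 0x16822dc4)) (c (p (nat_lit 0x152f7420)) (c (m (nat_lit 0x131c04)) e)))) (c (c (m (nat_lit 0x3eba673c)) (c (p (nat_lit 0x42c222c)) (c (m (nat_lit 0x98d9c)) e))) (c (c (p (nat_lit 0x2b20b31c)) (c (m (nat_lit 0x990c0)) e)) (c (c (m (nat_lit 0x131d6c)) e) e)))) (c (c (c (m (nat_lit 0x11b9296c)) (c (m (nat_lit 0xaad414)) (c (m (nat_lit 0x98fa0)) e))) (c (c (m (nat_lit 0x31d4d2c)) (c (p (nat_lit 0xbe12a4)) e)) (c (c (m (nat_lit 0x98f94)) e) e))) (c (c (c (p (nat_lit 0x11a16404)) (c (m (nat_lit 0x990fc)) e)) (c (c (p (nat_lit 0x2726ef8)) e) e)) (c (c (c (m (nat_lit 0x131d3c)) e) e) e)))) (c (c (c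 (c (p (nat_lit 0x4a7011d0)) (c (m (nat_lit 0x6d16760)) (c (m (nat_lit 0x98f7c)) e))) (c (c (m (nat_lit 0x16b1ddc)) (c (m (nat_lit 0x124cd94)) e)) (c (c (m (nat_lit 0x6123288)) e) e))) (c (c (c (m (nat_lit 0x219e59e0)) (c (p (nat_lit 0x5f69550)) e)) (c (c (p (nat_lit 0xc2f4)) e) e)) (c (c (c (p (nat_lit 0xacac6e8)) e) e) e))) (c (c (c (c (m (nat_lit 0x1a5a5ec0)) (c (m (nat_lit 0x99198)) e)) (c (c (p (nat_lit 0x268d4b4)) e) e)) (c (c (c (m (nat_lit 0x6390)) e) e) e)) (c (c (c (c (m (nat_lit 0x1caa9c)) e) e) e) e)))) (c (c (c (c (c (p (nat_lit 0x2ac6216c)) (c (m (nat_lit 0x3b296878)) (c (p (nat_lit 0x5fbee04)) e))) (c (c (m (nat_lit 0x21b3ce8c)) (c (p (nat_lit 0x61067dc)) e)) (c (c (m (nat_lit 0x3a03c80)) e) e))) (c (c (c (m (nat_lit 0x54cb5c8)) (c (p (nat_lit 0x58fad0c)) e)) (c (c (p (nat_lit 0x5994198)) e) e)) (c (c (c (m (nat_lit 0x98808))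 e) e) e))) (c (c (c (c (m (nat_lit 0xf5f3a78)) (c (m (nat_lit 0x98ff4)) e)) (c (c (m (nat_lit 0x1e2e5c0)) e) e)) (c (c (c (m (nat_lit 0x1cb360)) e) e) e)) (c (c (c (c (p (nat_lit 0xdef42c0)) e) e) e) e))) (c (c (c (c (c (m (nat_lit 0x28249938)) (c (p (nat_lit 0x1c96194c)) e)) (c (c (p (nat_lit 0xb2772ac)) e) e)) (c (c (c (p (nat_lit 0x5993d48)) e) e) e)) (c (c (c (c (p (nat_lit 0x1a9676c)) e) e) e) e)) (c (c (c (c (c (p (nat_lit 0xeb4940c)) e) e) e) e) e)))) (c (c (c (c (c (c (m (nat_lit 0x700d06f4)) (c (m (nat_lit 0xe09cc28)) (c (m (nat_lit 0x3551c7c)) e))) (c (c (p (nat_lit 0x91e75f0)) (c (m (nat_lit 0x131d3c)) e)) (c (c (m (nat_lit 0x83570dc)) e) e))) (c (c (c (p (nat_lit 0x173ba70)) (c (m (nat_lit 0x98d84)) e)) (c (c (m (nat_lit 0x98da8)) e) e)) (c (c (c (m (nat_lit 0x9a680)) e) e) e))) (c (c (c (c (p (nat_lit 0xae963c)) (c (m (nat_lit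 0x98f64)) e)) (c (c (m (nat_lit 0x390)) e) e)) (c (c (c (m (nat_lit 0x2918dfc)) e) e) e)) (c (c (c (c (m (nat_lit 0x660)) e) e) e) e))) (c (c (c (c (c (m (nat_lit 0x4180548)) (c (m (nat_lit 0x1a4)) e)) (c (c (m (nat_lit 0x98f04)) e) e)) (c (c (c (m (nat_lit 0x98ff4)) e) e) e)) (c (c (c (c (m (nat_lit 0x99054)) e) e) e) e)) (c (c (c (c (c (m (nat_lit 0x55ac9b8)) e) e) e) e) e))) (c (c (c (c (c (c (p (nat_lit 0x373fc5d8)) (c (p (nat_lit 0x69e0b80)) e)) (c (c (p (nat_lit 0x69e0cc4)) e) e)) (c (c (c (m (nat_lit 0x98ed4)) e) e) e)) (c (c (c (c (p (nat_lit 0x3830e8)) e) e) e) e)) (c (c (c (c (c (p (nat_lit 0x42b0400)) e) e) e) e) e)) (c (c (c (c (c (c (m (nat_lit 0xeabe764)) e) e) e) e) e) e))))) (c (c (c (c (c (c (c (p (nat_lit 0xa14ca854)) (c (p (nat_lit 0x16822dc4)) (c (p (nat_lit 0x152f7420)) (c (m (nat_lit 0x131c04)) e)))) (c (c (m (nat_lit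 0x3eba673c)) (c (p (nat_lit 0x42c222c)) (c (m (nat_lit 0x98d9c)) e))) (c (c (p (nat_lit 0x2b20b31c)) (c (m (nat_lit 0x990c0)) e)) (c (c (m (nat_lit 0x131d6c)) e) e)))) (c (c (c (p (nat_lit 0x4a7011d0)) (c (m (nat_lit 0x6d16760)) (c (m (nat_lit 0x98f7c)) e))) (c (c (m (nat_lit 0x16b1ddc)) (c (m (nat_lit 0x124cd94)) e)) (c (c (m (nat_lit 0x6123288)) e) e))) (c (c (c (m (nat_lit 0x1a5a5ec0)) (c (m (nat_lit 0x99198)) e)) (c (c (p (nat_lit 0x268d4b4)) e) e)) (c (c (c (m (nat_lit 0x1caa9c)) e) e) e)))) (c (c (c (c (m (nat_lit 0x11b9296c)) (c (m (nat_lit 0xaad414)) (c (m (nat_lit 0x98fa0)) e))) (c (c (m (nat_lit 0x31d4d2c)) (c (p (nat_lit 0xbe12a4)) e)) (c (c (m (nat_lit 0x98f94)) e) e))) (c (c (c (m (nat_lit 0x219e59e0)) (c (p (nat_lit 0x5f69550)) e)) (c (c (p (nat_lit 0xc2f4)) e) e)) (c (c (c (m (nat_lit 0x6390)) e) e) e))) (c (c (c (c (p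 (nat_lit 0x11a16404)) (c (m (nat_lit 0x990fc)) e)) (c (c (p (nat_lit 0x2726ef8)) e) e)) (c (c (c (p (nat_lit 0xacac6e8)) e) e) e)) (c (c (c (c (m (nat_lit 0x131d3c)) e) e) e) e)))) (c (c (c (c (c (p (nat_lit 0x2ac6216c)) (c (m (nat_lit 0x3b296878)) (c (p (nat_lit 0x5fbee04)) e))) (c (c (m (nat_lit 0x21b3ce8c)) (c (p (nat_lit 0x61067dc)) e)) (c (c (m (nat_lit 0x3a03c80)) e) e))) (c (c (c (m (nat_lit 0xf5f3a78)) (c (m (nat_lit 0x98ff4)) e)) (c (c (m (nat_lit 0x1e2e5c0)) e) e)) (c (c (c (p (nat_lit 0xdef42c0)) e) e) e))) (c (c (c (c (m (nat_lit 0x54cb5c8)) (c (p (nat_lit 0x58fad0c)) e)) (c (c (p (nat_lit 0x5994198)) e) e)) (c (c (c (m (nat_lit 0x1cb360)) e) e) e)) (c (c (c (c (m (nat_lit 0x98808)) e) e) e) e))) (c (c (c (c (c (m (nat_lit 0x28249938)) (c (p (nat_lit 0x1c96194c)) e)) (c (c (p (nat_lit 0xb2772ac)) e) e)) (c (c (c (p (nat_lit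 0x1a9676c)) e) e) e)) (c (c (c (c (p (nat_lit 0x5993d48)) e) e) e) e)) (c (c (c (c (c (p (nat_lit 0xeb4940c)) e) e) e) e) e)))) (c (c (c (c (c (c (m (nat_lit 0x936e190c)) (c (m (nat_lit 0x205039b0)) (c (m (nat_lit 0x6bd5760)) e))) (c (c (p (nat_lit 0x12bb11f0)) (c (m (nat_lit 0x4c75c8)) e)) (c (c (m (nat_lit 0x107e0170)) e) e))) (c (c (c (m (nat_lit 0x2b95a17c)) (c (m (nat_lit 0x99c0c)) e)) (c (c (m (nat_lit 0x13395c)) e) e)) (c (c (c (m (nat_lit 0x99648)) e) e) e))) (c (c (c (c (m (nat_lit 0x2b95a17c)) (c (m (nat_lit 0x99c0c)) e)) (c (c (m (nat_lit 0x13395c)) e) e)) (c (c (c (m (nat_lit 0x50fe248)) e) e) e)) (c (c (c (c (m (nat_lit 0x99648)) e) e) e) e))) (c (c (c (c (c (m (nat_lit 0xc31bda4)) (c (m (nat_lit 0x395c28)) e)) (c (c (m (nat_lit 0x395ca0)) e) e)) (c (c (c (m (nat_lit 0x133728)) e) e) e)) (c (c (c (c (m (nat_lit 0x133728))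 e) e) e) e)) (c (c (c (c (c (m (nat_lit 0xab57498)) e) e) e) e) e))) (c (c (c (c (c (c (p (nat_lit 0x3de23244)) (c (p (nat_lit 0x69e09ac)) e)) (c (c (p (nat_lit 0x18320dc)) e) e)) (c (c (c (p (nat_lit 0xcee0704)) e) e) e)) (c (c (c (c (p (nat_lit 0x3833dc)) e) e) e) e)) (c (c (c (c (c (p (nat_lit 0x6bcfebc)) e) e) e) e) e)) (c (c (c (c (c (c (m (nat_lit 0x1454a300)) e) e) e) e) e) e)))) (c (c (c (c (c (c (c (m (nat_lit 0x700d06f4)) (c (m (nat_lit 0xe09cc28)) (c (m (nat_lit 0x3551c7c)) e))) (c (c (p (nat_lit 0x91e75f0)) (c (m (nat_lit 0x131d3c)) e)) (c (c (m (nat_lit 0x83570dc)) e) e))) (c (c (c (p (nat_lit 0xae963c)) (c (m (nat_lit 0x98f64)) e)) (c (c (m (nat_lit 0x390)) e) e)) (c (c (c (m (nat_lit 0x660)) e) e) e))) (c (c (c (c (p (nat_lit 0x173ba70)) (c (m (nat_lit 0x98d84)) e)) (c (c (m (nat_lit 0x98da8)) e) e)) (c (c (c (m (nat_lit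 0x2918dfc)) e) e) e)) (c (c (c (c (m (nat_lit 0x9a680)) e) e) e) e))) (c (c (c (c (c (m (nat_lit 0x4180548)) (c (m (nat_lit 0x1a4)) e)) (c (c (m (nat_lit 0x98f04)) e) e)) (c (c (c (m (nat_lit 0x99054)) e) e) e)) (c (c (c (c (m (nat_lit 0x98ff4)) e) e) e) e)) (c (c (c (c (c (m (nat_lit 0x55ac9b8)) e) e) e) e) e))) (c (c (c (c (c (c (p (nat_lit 0x3de23244)) (c (p (nat_lit 0x69e09ac)) e)) (c (c (p (nat_lit 0x18320dc)) e) e)) (c (c (c (p (nat_lit 0x3833dc)) e) e) e)) (c (c (c (c (p (nat_lit 0xcee0704)) e) e) e) e)) (c (c (c (c (c (p (nat_lit 0x6bcfebc)) e) e) e) e) e)) (c (c (c (c (c (c (m (nat_lit 0xb649edc)) e) e) e) e) e) e))) (c (c (c (c (c (c (c (p (nat_lit 0x373fc5d8)) (c (p (nat_lit 0x69e0b80)) e)) (c (c (p (nat_lit 0x69e0cc4)) e) e)) (c (c (c (p (nat_lit 0x3830e8)) e) e) e)) (c (c (c (c (m (nat_lit 0x98ed4)) e) e) e) e)) (c (c (c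 (c (c (p (nat_lit 0x42b0400)) e) e) e) e) e)) (c (c (c (c (c (c (m (nat_lit 0x1454a300)) e) e) e) e) e) e)) (c (c (c (c (c (c (c (m (nat_lit 0xeabe764)) e) e) e) e) e) e) e))))) (c (c (c (c (c (c (c (c (p (nat_lit 0xa14ca854)) (c (m (nat_lit 0x3eba673c)) (c (p (nat_lit 0x2b20b31c)) (c (m (nat_lit 0x131d6c)) e)))) (c (c (p (nat_lit 0x16822dc4)) (c (p (nat_lit 0x42c222c)) (c (m (nat_lit 0x990c0)) e))) (c (c (p (nat_lit 0x152f7420)) (c (m (nat_lit 0x98d9c)) e)) (c (c (m (nat_lit 0x131c04)) e) e)))) (c (c (c (m (nat_lit 0x11b9296c)) (c (m (nat_lit 0x31d4d2c)) (c (m (nat_lit 0x98f94)) e))) (c (c (m (nat_lit 0xaad414)) (c (p (nat_lit 0xbe12a4)) e)) (c (c (m (nat_lit 0x98fa0)) e) e))) (c (c (c (p (nat_lit 0x11a16404)) (c (p (nat_lit 0x2726ef8)) e)) (c (c (m (nat_lit 0x990fc)) e) e)) (c (c (c (m (nat_lit 0x131d3c)) e) e) e)))) (c (c (c (c (p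 (nat_lit 0x4a7011d0)) (c (m (nat_lit 0x16b1ddc)) (c (m (nat_lit 0x6123288)) e))) (c (c (m (nat_lit 0x6d16760)) (c (m (nat_lit 0x124cd94)) e)) (c (c (m (nat_lit 0x98f7c)) e) e))) (c (c (c (m (nat_lit 0x219e59e0)) (c (p (nat_lit 0xc2f4)) e)) (c (c (p (nat_lit 0x5f69550)) e) e)) (c (c (c (p (nat_lit 0xacac6e8)) e) e) e))) (c (c (c (c (m (nat_lit 0x1a5a5ec0)) (c (p (nat_lit 0x268d4b4)) e)) (c (c (m (nat_lit 0x99198)) e) e)) (c (c (c (m (nat_lit 0x6390)) e) e) e)) (c (c (c (c (m (nat_lit 0x1caa9c)) e) e) e) e)))) (c (c (c (c (c (p (nat_lit 0x2ac6216c)) (c (m (nat_lit 0x21b3ce8c)) (c (m (nat_lit 0x3a03c80)) e))) (c (c (m (nat_lit 0x3b296878)) (c (p (nat_lit 0x61067dc)) e)) (c (c (p (nat_lit 0x5fbee04)) e) e))) (c (c (c (m (nat_lit 0x54cb5c8)) (c (p (nat_lit 0x5994198)) e)) (c (c (p (nat_lit 0x58fad0c)) e) e)) (c (c (c (m (nat_lit 0x98808))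 e) e) e))) (c (c (c (c (m (nat_lit 0xf5f3a78)) (c (m (nat_lit 0x1e2e5c0)) e)) (c (c (m (nat_lit 0x98ff4)) e) e)) (c (c (c (m (nat_lit 0x1cb360)) e) e) e)) (c (c (c (c (p (nat_lit 0xdef42c0)) e) e) e) e))) (c (c (c (c (c (m (nat_lit 0x28249938)) (c (p (nat_lit 0xb2772ac)) e)) (c (c (p (nat_lit 0x1c96194c)) e) e)) (c (c (c (p (nat_lit 0x5993d48)) e) e) e)) (c (c (c (c (p (nat_lit 0x1a9676c)) e) e) e) e)) (c (c (c (c (c (p (nat_lit 0xeb4940c)) e) e) e) e) e)))) (c (c (c (c (c (c (m (nat_lit 0x50c40b40)) (c (p (nat_lit 0xd75adcc)) (c (m (nat_lit 0x7bac32c)) e))) (c (c (p (nat_lit 0xd75adcc)) (c (m (nat_lit 0xcb44c8)) e)) (c (c (m (nat_lit 0x7bac32c)) e) e))) (c (c (c (p (nat_lit 0x510921c)) (c (p (nat_lit 0x24)) e)) (c (c (p (nat_lit 0x24)) e) e)) (c (c (c (m (nat_lit 0xb626860)) e) e) e))) (c (c (c (c (p (nat_lit 0x5109cd8)) (c (p (nat_lit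 0x150)) e)) (c (c (p (nat_lit 0x150)) e) e)) (c (c (c (m (nat_lit 0x396420)) e) e) e)) (c (c (c (c (m (nat_lit 0x4fd86a4)) e) e) e) e))) (c (c (c (c (c (m (nat_lit 0x539eb48)) (c (p (nat_lit 0x2d462d8)) e)) (c (c (p (nat_lit 0x2d462d8)) e) e)) (c (c (c (m (nat_lit 0x131e38)) e) e) e)) (c (c (c (c (m (nat_lit 0x132498)) e) e) e) e)) (c (c (c (c (c (p (nat_lit 0x3307818)) e) e) e) e) e))) (c (c (c (c (c (c (p (nat_lit 0x21e5fb84)) (c (m (nat_lit 0x6c08100)) e)) (c (c (m (nat_lit 0x6c08178)) e) e)) (c (c (c (m (nat_lit 0x99084)) e) e) e)) (c (c (c (c (m (nat_lit 0x9918c)) e) e) e) e)) (c (c (c (c (c (m (nat_lit 0x6ca05f0)) e) e) e) e) e)) (c (c (c (c (c (c (m (nat_lit 0x98d18)) e) e) e) e) e) e)))) (c (c (c (c (c (c (c (m (nat_lit 0x55f2e2f8)) (c (p (nat_lit 0x12b7b604)) (c (m (nat_lit 0x7683f48)) e))) (c (c (p (nat_lit 0x12b7b604)) (c (m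 (nat_lit 0x3955e0)) e)) (c (c (m (nat_lit 0x7683f48)) e) e))) (c (c (c (m (nat_lit 0x11d26db4)) (c (m (nat_lit 0x98f40)) e)) (c (c (p (nat_lit 0xc90)) e) e)) (c (c (c (m (nat_lit 0x4f3e8e8)) e) e) e))) (c (c (c (c (m (nat_lit 0x11d26db4)) (c (p (nat_lit 0xc90)) e)) (c (c (m (nat_lit 0x98f40)) e) e)) (c (c (c (p (nat_lit 0x31e2b98)) e) e) e)) (c (c (c (c (m (nat_lit 0x4f3e8e8)) e) e) e) e))) (c (c (c (c (c (p (nat_lit 0x22bad28)) (c (m (nat_lit 0x2fc8e0)) e)) (c (c (m (nat_lit 0x2fc8e0)) e) e)) (c (c (c (m (nat_lit 0x99954)) e) e) e)) (c (c (c (c (m (nat_lit 0x99954)) e) e) e) e)) (c (c (c (c (c (m (nat_lit 0x263c28)) e) e) e) e) e))) (c (c (c (c (c (c (p (nat_lit 0x34f3c860)) (c (m (nat_lit 0x72c6fc)) e)) (c (c (m (nat_lit 0x1d2215c)) e) e)) (c (c (c (p (nat_lit 0x13c79ea4)) e) e) e)) (c (c (c (c (m (nat_lit 0x99384)) e) e) e) e)) (c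 (c (c (c (c (m (nat_lit 0x1cac34)) e) e) e) e) e)) (c (c (c (c (c (c (p (nat_lit 0x1126464)) e) e) e) e) e) e))) (c (c (c (c (c (c (c (p (nat_lit 0x1ad2cba4)) (c (m (nat_lit 0x990d8)) e)) (c (c (m (nat_lit 0x1c8b478)) e) e)) (c (c (c (m (nat_lit 0x99360)) e) e) e)) (c (c (c (c (p (nat_lit 0xa96cc8)) e) e) e) e)) (c (c (c (c (c (m (nat_lit 0x9801c)) e) e) e) e) e)) (c (c (c (c (c (c (p (nat_lit 0x21a7754)) e) e) e) e) e) e)) (c (c (c (c (c (c (c (p (nat_lit 0xff4644)) e) e) e) e) e) e) e)))) (c (c (c (c (c (c (c (c (m (nat_lit 0x700d06f4)) (c (p (nat_lit 0x91e75f0)) (c (m (nat_lit 0x83570dc)) e))) (c (c (m (nat_lit 0xe09cc28)) (c (m (nat_lit 0x131d3c)) e)) (c (c (m (nat_lit 0x3551c7c)) e) e))) (c (c (c (p (nat_lit 0x173ba70)) (c (m (nat_lit 0x98da8)) e)) (c (c (m (nat_lit 0x98d84)) e) e)) (c (c (c (m (nat_lit 0x9a680)) e) e) e))) (c (c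 (c (c (p (nat_lit 0xae963c)) (c (m (nat_lit 0x390)) e)) (c (c (m (nat_lit 0x98f64)) e) e)) (c (c (c (m (nat_lit 0x2918dfc)) e) e) e)) (c (c (c (c (m (nat_lit 0x660)) e) e) e) e))) (c (c (c (c (c (m (nat_lit 0x4180548)) (c (m (nat_lit 0x98f04)) e)) (c (c (m (nat_lit 0x1a4)) e) e)) (c (c (c (m (nat_lit 0x98ff4)) e) e) e)) (c (c (c (c (m (nat_lit 0x99054)) e) e) e) e)) (c (c (c (c (c (m (nat_lit 0x55ac9b8)) e) e) e) e) e))) (c (c (c (c (c (c (p (nat_lit 0x21e5fb84)) (c (m (nat_lit 0x6c08178)) e)) (c (c (m (nat_lit 0x6c08100)) e) e)) (c (c (c (m (nat_lit 0x99084)) e) e) e)) (c (c (c (c (m (nat_lit 0x9918c)) e) e) e) e)) (c (c (c (c (c (m (nat_lit 0x6ca05f0)) e) e) e) e) e)) (c (c (c (c (c (c (m (nat_lit 0xb3a5b20)) e) e) e) e) e) e))) (c (c (c (c (c (c (c (p (nat_lit 0x1ad2cba4)) (c (m (nat_lit 0x1c8b478)) e)) (c (c (m (nat_lit 0x990d8))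 e) e)) (c (c (c (p (nat_lit 0xa96cc8)) e) e) e)) (c (c (c (c (m (nat_lit 0x99360)) e) e) e) e)) (c (c (c (c (c (m (nat_lit 0x9801c)) e) e) e) e) e)) (c (c (c (c (c (c (m (nat_lit 0x161ddee4)) e) e) e) e) e) e)) (c (c (c (c (c (c (c (m (nat_lit 0xb2741e0)) e) e) e) e) e) e) e))) (c (c (c (c (c (c (c (c (p (nat_lit 0x373fc5d8)) (c (p (nat_lit 0x69e0cc4)) e)) (c (c (p (nat_lit 0x69e0b80)) e) e)) (c (c (c (m (nat_lit 0x98ed4)) e) e) e)) (c (c (c (c (p (nat_lit 0x3830e8)) e) e) e) e)) (c (c (c (c (c (p (nat_lit 0x42b0400)) e) e) e) e) e)) (c (c (c (c (c (c (m (nat_lit 0x98d18)) e) e) e) e) e) e)) (c (c (c (c (c (c (c (p (nat_lit 0xff4644)) e) e) e) e) e) e) e)) (c (c (c (c (c (c (c (c (m (nat_lit 0xeabe764)) e) e) e) e) e) e) e) e))))) (c (c (c (c (c (c (c (c (c (p (nat_lit 0xa14ca854)) (c (m (nat_lit 0x3eba673c)) (c (p (nat_lit 0x2b20b31c))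 (c (m (nat_lit 0x131d6c)) e)))) (c (c (p (nat_lit 0x16822dc4)) (c (p (nat_lit 0x42c222c)) (c (m (nat_lit 0x990c0)) e))) (c (c (p (nat_lit 0x152f7420)) (c (m (nat_lit 0x98d9c)) e)) (c (c (m (nat_lit 0x131c04)) e) e)))) (c (c (c (p (nat_lit 0x4a7011d0)) (c (m (nat_lit 0x16b1ddc)) (c (m (nat_lit 0x6123288)) e))) (c (c (m (nat_lit 0x6d16760)) (c (m (nat_lit 0x124cd94)) e)) (c (c (m (nat_lit 0x98f7c)) e) e))) (c (c (c (m (nat_lit 0x1a5a5ec0)) (c (p (nat_lit 0x268d4b4)) e)) (c (c (m (nat_lit 0x99198)) e) e)) (c (c (c (m (nat_lit 0x1caa9c)) e) e) e)))) (c (c (c (c (m (nat_lit 0x11b9296c)) (c (m (nat_lit 0x31d4d2c)) (c (m (nat_lit 0x98f94)) e))) (c (c (m (nat_lit 0xaad414)) (c (p (nat_lit 0xbe12a4)) e)) (c (c (m (nat_lit 0x98fa0)) e) e))) (c (c (c (m (nat_lit 0x219e59e0)) (c (p (nat_lit 0xc2f4)) e)) (c (c (p (nat_lit 0x5f69550)) e) e)) (c (c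 (c (m (nat_lit 0x6390)) e) e) e))) (c (c (c (c (p (nat_lit 0x11a16404)) (c (p (nat_lit 0x2726ef8)) e)) (c (c (m (nat_lit 0x990fc)) e) e)) (c (c (c (p (nat_lit 0xacac6e8)) e) e) e)) (c (c (c (c (m (nat_lit 0x131d3c)) e) e) e) e)))) (c (c (c (c (c (p (nat_lit 0x2ac6216c)) (c (m (nat_lit 0x21b3ce8c)) (c (m (nat_lit 0x3a03c80)) e))) (c (c (m (nat_lit 0x3b296878)) (c (p (nat_lit 0x61067dc)) e)) (c (c (p (nat_lit 0x5fbee04)) e) e))) (c (c (c (m (nat_lit 0xf5f3a78)) (c (m (nat_lit 0x1e2e5c0)) e)) (c (c (m (nat_lit 0x98ff4)) e) e)) (c (c (c (p (nat_lit 0xdef42c0)) e) e) e))) (c (c (c (c (m (nat_lit 0x54cb5c8)) (c (p (nat_lit 0x5994198)) e)) (c (c (p (nat_lit 0x58fad0c)) e) e)) (c (c (c (m (nat_lit 0x1cb360)) e) e) e)) (c (c (c (c (m (nat_lit 0x98808)) e) e) e) e))) (c (c (c (c (c (m (nat_lit 0x28249938)) (c (p (nat_lit 0xb2772ac)) e)) (c (c (p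 (nat_lit 0x1c96194c)) e) e)) (c (c (c (p (nat_lit 0x1a9676c)) e) e) e)) (c (c (c (c (p (nat_lit 0x5993d48)) e) e) e) e)) (c (c (c (c (c (p (nat_lit 0xeb4940c)) e) e) e) e) e)))) (c (c (c (c (c (c (m (nat_lit 0x55f2e2f8)) (c (p (nat_lit 0x12b7b604)) (c (m (nat_lit 0x7683f48)) e))) (c (c (p (nat_lit 0x12b7b604)) (c (m (nat_lit 0x3955e0)) e)) (c (c (m (nat_lit 0x7683f48)) e) e))) (c (c (c (m (nat_lit 0x11d26db4)) (c (p (nat_lit 0xc90)) e)) (c (c (m (nat_lit 0x98f40)) e) e)) (c (c (c (m (nat_lit 0x4f3e8e8)) e) e) e))) (c (c (c (c (m (nat_lit 0x11d26db4)) (c (m (nat_lit 0x98f40)) e)) (c (c (p (nat_lit 0xc90)) e) e)) (c (c (c (p (nat_lit 0x31e2b98)) e) e) e)) (c (c (c (c (m (nat_lit 0x4f3e8e8)) e) e) e) e))) (c (c (c (c (c (p (nat_lit 0x22bad28)) (c (m (nat_lit 0x2fc8e0)) e)) (c (c (m (nat_lit 0x2fc8e0)) e) e)) (c (c (c (m (nat_lit 0x99954))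 e) e) e)) (c (c (c (c (m (nat_lit 0x99954)) e) e) e) e)) (c (c (c (c (c (m (nat_lit 0x263c28)) e) e) e) e) e))) (c (c (c (c (c (c (p (nat_lit 0x1ad2cba4)) (c (m (nat_lit 0x990d8)) e)) (c (c (m (nat_lit 0x1c8b478)) e) e)) (c (c (c (p (nat_lit 0xa96cc8)) e) e) e)) (c (c (c (c (m (nat_lit 0x99360)) e) e) e) e)) (c (c (c (c (c (m (nat_lit 0x9801c)) e) e) e) e) e)) (c (c (c (c (c (c (p (nat_lit 0xff4644)) e) e) e) e) e) e)))) (c (c (c (c (c (c (c (m (nat_lit 0x50c40b40)) (c (p (nat_lit 0xd75adcc)) (c (m (nat_lit 0x7bac32c)) e))) (c (c (p (nat_lit 0xd75adcc)) (c (m (nat_lit 0xcb44c8)) e)) (c (c (m (nat_lit 0x7bac32c)) e) e))) (c (c (c (p (nat_lit 0x5109cd8)) (c (p (nat_lit 0x150)) e)) (c (c (p (nat_lit 0x150)) e) e)) (c (c (c (m (nat_lit 0x4fd86a4)) e) e) e))) (c (c (c (c (p (nat_lit 0x510921c)) (c (p (nat_lit 0x24)) e)) (c (c (p (nat_lit 0x24))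 e) e)) (c (c (c (m (nat_lit 0x396420)) e) e) e)) (c (c (c (c (m (nat_lit 0xb626860)) e) e) e) e))) (c (c (c (c (c (m (nat_lit 0x539eb48)) (c (p (nat_lit 0x2d462d8)) e)) (c (c (p (nat_lit 0x2d462d8)) e) e)) (c (c (c (m (nat_lit 0x132498)) e) e) e)) (c (c (c (c (m (nat_lit 0x131e38)) e) e) e) e)) (c (c (c (c (c (p (nat_lit 0x3307818)) e) e) e) e) e))) (c (c (c (c (c (c (p (nat_lit 0x34f3c860)) (c (m (nat_lit 0x72c6fc)) e)) (c (c (m (nat_lit 0x1d2215c)) e) e)) (c (c (c (m (nat_lit 0x99384)) e) e) e)) (c (c (c (c (p (nat_lit 0x13c79ea4)) e) e) e) e)) (c (c (c (c (c (m (nat_lit 0x1cac34)) e) e) e) e) e)) (c (c (c (c (c (c (p (nat_lit 0x21a7754)) e) e) e) e) e) e))) (c (c (c (c (c (c (c (p (nat_lit 0x21e5fb84)) (c (m (nat_lit 0x6c08100)) e)) (c (c (m (nat_lit 0x6c08178)) e) e)) (c (c (c (m (nat_lit 0x9918c)) e) e) e)) (c (c (c (c (m (nat_lit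 0x99084)) e) e) e) e)) (c (c (c (c (c (m (nat_lit 0x6ca05f0)) e) e) e) e) e)) (c (c (c (c (c (c (p (nat_lit 0x1126464)) e) e) e) e) e) e)) (c (c (c (c (c (c (c (m (nat_lit 0x98d18)) e) e) e) e) e) e) e)))) (c (c (c (c (c (c (c (c (m (nat_lit 0x936e190c)) (c (p (nat_lit 0x12bb11f0)) (c (m (nat_lit 0x107e0170)) e))) (c (c (m (nat_lit 0x205039b0)) (c (m (nat_lit 0x4c75c8)) e)) (c (c (m (nat_lit 0x6bd5760)) e) e))) (c (c (c (m (nat_lit 0x2b95a17c)) (c (m (nat_lit 0x13395c)) e)) (c (c (m (nat_lit 0x99c0c)) e) e)) (c (c (c (m (nat_lit 0x99648)) e) e) e))) (c (c (c (c (m (nat_lit 0x2b95a17c)) (c (m (nat_lit 0x13395c)) e)) (c (c (m (nat_lit 0x99c0c)) e) e)) (c (c (c (m (nat_lit 0x50fe248)) e) e) e)) (c (c (c (c (m (nat_lit 0x99648)) e) e) e) e))) (c (c (c (c (c (m (nat_lit 0xc31bda4)) (c (m (nat_lit 0x395ca0)) e)) (c (c (m (nat_lit 0x395c28))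 e) e)) (c (c (c (m (nat_lit 0x133728)) e) e) e)) (c (c (c (c (m (nat_lit 0x133728)) e) e) e) e)) (c (c (c (c (c (m (nat_lit 0xab57498)) e) e) e) e) e))) (c (c (c (c (c (c (p (nat_lit 0x34f3c860)) (c (m (nat_lit 0x1d2215c)) e)) (c (c (m (nat_lit 0x72c6fc)) e) e)) (c (c (c (p (nat_lit 0x13c79ea4)) e) e) e)) (c (c (c (c (m (nat_lit 0x99384)) e) e) e) e)) (c (c (c (c (c (m (nat_lit 0x1cac34)) e) e) e) e) e)) (c (c (c (c (c (c (m (nat_lit 0x161ddee4)) e) e) e) e) e) e))) (c (c (c (c (c (c (c (p (nat_lit 0x34f3c860)) (c (m (nat_lit 0x1d2215c)) e)) (c (c (m (nat_lit 0x72c6fc)) e) e)) (c (c (c (m (nat_lit 0x99384)) e) e) e)) (c (c (c (c (p (nat_lit 0x13c79ea4)) e) e) e) e)) (c (c (c (c (c (m (nat_lit 0x1cac34)) e) e) e) e) e)) (c (c (c (c (c (c (m (nat_lit 0x2c01ad40)) e) e) e) e) e) e)) (c (c (c (c (c (c (c (m (nat_lit 0x161ddee4)) e) e) e)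 e) e) e) e))) (c (c (c (c (c (c (c (c (p (nat_lit 0x3de23244)) (c (p (nat_lit 0x18320dc)) e)) (c (c (p (nat_lit 0x69e09ac)) e) e)) (c (c (c (p (nat_lit 0xcee0704)) e) e) e)) (c (c (c (c (p (nat_lit 0x3833dc)) e) e) e) e)) (c (c (c (c (c (p (nat_lit 0x6bcfebc)) e) e) e) e) e)) (c (c (c (c (c (c (p (nat_lit 0x1126464)) e) e) e) e) e) e)) (c (c (c (c (c (c (c (p (nat_lit 0x21a7754)) e) e) e) e) e) e) e)) (c (c (c (c (c (c (c (c (m (nat_lit 0x1454a300)) e) e) e) e) e) e) e) e)))) (c (c (c (c (c (c (c (c (c (m (nat_lit 0x700d06f4)) (c (p (nat_lit 0x91e75f0)) (c (m (nat_lit 0x83570dc)) e))) (c (c (m (nat_lit 0xe09cc28)) (c (m (nat_lit 0x131d3c)) e)) (c (c (m (nat_lit 0x3551c7c)) e) e))) (c (c (c (p (nat_lit 0xae963c)) (c (m (nat_lit 0x390)) e)) (c (c (m (nat_lit 0x98f64)) e) e)) (c (c (c (m (nat_lit 0x660)) e) e) e))) (c (c (c (c (p (nat_lit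 0x173ba70)) (c (m (nat_lit 0x98da8)) e)) (c (c (m (nat_lit 0x98d84)) e) e)) (c (c (c (m (nat_lit 0x2918dfc)) e) e) e)) (c (c (c (c (m (nat_lit 0x9a680)) e) e) e) e))) (c (c (c (c (c (m (nat_lit 0x4180548)) (c (m (nat_lit 0x98f04)) e)) (c (c (m (nat_lit 0x1a4)) e) e)) (c (c (c (m (nat_lit 0x99054)) e) e) e)) (c (c (c (c (m (nat_lit 0x98ff4)) e) e) e) e)) (c (c (c (c (c (m (nat_lit 0x55ac9b8)) e) e) e) e) e))) (c (c (c (c (c (c (p (nat_lit 0x1ad2cba4)) (c (m (nat_lit 0x1c8b478)) e)) (c (c (m (nat_lit 0x990d8)) e) e)) (c (c (c (m (nat_lit 0x99360)) e) e) e)) (c (c (c (c (p (nat_lit 0xa96cc8)) e) e) e) e)) (c (c (c (c (c (m (nat_lit 0x9801c)) e) e) e) e) e)) (c (c (c (c (c (c (m (nat_lit 0xb2741e0)) e) e) e) e) e) e))) (c (c (c (c (c (c (c (p (nat_lit 0x21e5fb84)) (c (m (nat_lit 0x6c08178)) e)) (c (c (m (nat_lit 0x6c08100)) e) e)) (c (c (c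 (m (nat_lit 0x9918c)) e) e) e)) (c (c (c (c (m (nat_lit 0x99084)) e) e) e) e)) (c (c (c (c (c (m (nat_lit 0x6ca05f0)) e) e) e) e) e)) (c (c (c (c (c (c (m (nat_lit 0x161ddee4)) e) e) e) e) e) e)) (c (c (c (c (c (c (c (m (nat_lit 0xb3a5b20)) e) e) e) e) e) e) e))) (c (c (c (c (c (c (c (c (p (nat_lit 0x3de23244)) (c (p (nat_lit 0x18320dc)) e)) (c (c (p (nat_lit 0x69e09ac)) e) e)) (c (c (c (p (nat_lit 0x3833dc)) e) e) e)) (c (c (c (c (p (nat_lit 0xcee0704)) e) e) e) e)) (c (c (c (c (c (p (nat_lit 0x6bcfebc)) e) e) e) e) e)) (c (c (c (c (c (c (p (nat_lit 0x21a7754)) e) e) e) e) e) e)) (c (c (c (c (c (c (c (p (nat_lit 0x1126464)) e) e) e) e) e) e) e)) (c (c (c (c (c (c (c (c (m (nat_lit 0xb649edc)) e) e) e) e) e) e) e) e))) (c (c (c (c (c (c (c (c (c (p (nat_lit 0x373fc5d8)) (c (p (nat_lit 0x69e0cc4)) e)) (c (c (p (nat_lit 0x69e0b80)) e) e))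 (c (c (c (p (nat_lit 0x3830e8)) e) e) e)) (c (c (c (c (m (nat_lit 0x98ed4)) e) e) e) e)) (c (c (c (c (c (p (nat_lit 0x42b0400)) e) e) e) e) e)) (c (c (c (c (c (c (p (nat_lit 0xff4644)) e) e) e) e) e) e)) (c (c (c (c (c (c (c (m (nat_lit 0x98d18)) e) e) e) e) e) e) e)) (c (c (c (c (c (c (c (c (m (nat_lit 0x1454a300)) e) e) e) e) e) e) e) e)) (c (c (c (c (c (c (c (c (c (m (nat_lit 0xeabe764)) e) e) e) e) e) e) e) e) e))))) (c (c (c (c (c (c (c (c (c (c (p (nat_lit 0xa9363848)) (c (p (nat_lit 0x5de438d0)) (c (m (nat_lit 0x1da937b0)) (c (p (nat_lit 0x4b71ec8)) e)))) (c (c (p (nat_lit 0x5de438d0)) (c (m (nat_lit 0x97e7b408)) (c (p (nat_lit 0x180bc340)) e))) (c (c (m (nat_lit 0x1da937b0)) (c (p (nat_lit 0x180bc340)) e)) (c (c (p (nat_lit 0x4b71ec8)) e) e)))) (c (c (c (m (nat_lit 0x2743aa9c)) (c (p (nat_lit 0x12ea18)) (c (m (nat_lit 0x98f7c))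 e))) (c (c (p (nat_lit 0x12ea18)) (c (p (nat_lit 0x17c2ae8)) e)) (c (c (m (nat_lit 0x98f7c)) e) e))) (c (c (c (m (nat_lit 0x188b0a34)) (c (p (nat_lit 0x268de8c)) e)) (c (c (p (nat_lit 0x268de8c)) e) e)) (c (c (c (m (nat_lit 0x131c70)) e) e) e)))) (c (c (c (c (m (nat_lit 0x2743aa9c)) (c (p (nat_lit 0x12ea18)) (c (m (nat_lit 0x98f7c)) e))) (c (c (p (nat_lit 0x12ea18)) (c (p (nat_lit 0x17c2ae8)) e)) (c (c (m (nat_lit 0x98f7c)) e) e))) (c (c (c (p (nat_lit 0x419d00f0)) (c (m (nat_lit 0x132090)) e)) (c (c (m (nat_lit 0x132090)) e) e)) (c (c (c (m (nat_lit 0x131e20)) e) e) e))) (c (c (c (c (m (nat_lit 0x188b0a34)) (c (p (nat_lit 0x268de8c)) e)) (c (c (p (nat_lit 0x268de8c)) e) e)) (c (c (c (m (nat_lit 0x131e20)) e) e) e)) (c (c (c (c (m (nat_lit 0x131c70)) e) e) e) e)))) (c (c (c (c (c (m (nat_lit 0xb93458b0)) (c (p (nat_lit 0x4a3bee88)) (c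 (m (nat_lit 0x6a81ab8)) e))) (c (c (p (nat_lit 0x4a3bee88)) (c (p (nat_lit 0x3c65ac0)) e)) (c (c (m (nat_lit 0x6a81ab8)) e) e))) (c (c (c (p (nat_lit 0xd90d598)) (c (m (nat_lit 0x9262fb0)) e)) (c (c (m (nat_lit 0x9262fb0)) e) e)) (c (c (c (m (nat_lit 0x25d4720)) e) e) e))) (c (c (c (c (p (nat_lit 0xd90d598)) (c (m (nat_lit 0x9262fb0)) e)) (c (c (m (nat_lit 0x9262fb0)) e) e)) (c (c (c (m (nat_lit 0x4c5810)) e) e) e)) (c (c (c (c (m (nat_lit 0x25d4720)) e) e) e) e))) (c (c (c (c (c (p (nat_lit 0x11a898f50)) (c (m (nat_lit 0x23e28d00)) e)) (c (c (m (nat_lit 0x23e28d00)) e) e)) (c (c (c (m (nat_lit 0x9396bb8)) e) e) e)) (c (c (c (c (m (nat_lit 0x9396bb8)) e) e) e) e)) (c (c (c (c (c (m (nat_lit 0x2068e750)) e) e) e) e) e)))) (c (c (c (c (c (c (m (nat_lit 0x9325d73c)) (c (m (nat_lit 0x11c67444)) (c (m (nat_lit 0xab3d0a4)) e))) (c (c (m (nat_lit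 0x21460be4)) (c (p (nat_lit 0x1273f794)) e)) (c (c (p (nat_lit 0xa5b30c4)) e) e))) (c (c (c (p (nat_lit 0x15819624)) (c (m (nat_lit 0x131f88)) e)) (c (c (m (nat_lit 0x1caebc)) e) e)) (c (c (c (m (nat_lit 0x4fd73a8)) e) e) e))) (c (c (c (c (p (nat_lit 0xc33cfcc)) (c (m (nat_lit 0x991a4)) e)) (c (c (m (nat_lit 0x13281c)) e) e)) (c (c (c (m (nat_lit 0x180df7dc)) e) e) e)) (c (c (c (c (p (nat_lit 0x9ef9d48)) e) e) e) e))) (c (c (c (c (c (m (nat_lit 0x47f5464)) (c (m (nat_lit 0x10a2a22c)) e)) (c (c (p (nat_lit 0x1f78d64)) e) e)) (c (c (c (m (nat_lit 0x131bf8)) e) e) e)) (c (c (c (c (m (nat_lit 0x98c34)) e) e) e) e)) (c (c (c (c (c (m (nat_lit 0x15ea3ccc)) e) e) e) e) e))) (c (c (c (c (c (c (p (nat_lit 0x494275e0)) (c (p (nat_lit 0x7aae4f0)) e)) (c (c (p (nat_lit 0x8ce782c)) e) e)) (c (c (c (m (nat_lit 0x990fc)) e) e) e)) (c (c (c (c (p (nat_lit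 0x3832d4)) e) e) e) e)) (c (c (c (c (c (p (nat_lit 0x7e61e0c)) e) e) e) e) e)) (c (c (c (c (c (c (m (nat_lit 0x127e84b4)) e) e) e) e) e) e)))) (c (c (c (c (c (c (c (m (nat_lit 0x9325d73c)) (c (m (nat_lit 0x11c67444)) (c (m (nat_lit 0xab3d0a4)) e))) (c (c (m (nat_lit 0x21460be4)) (c (p (nat_lit 0x1273f794)) e)) (c (c (p (nat_lit 0xa5b30c4)) e) e))) (c (c (c (p (nat_lit 0xc33cfcc)) (c (m (nat_lit 0x991a4)) e)) (c (c (m (nat_lit 0x13281c)) e) e)) (c (c (c (p (nat_lit 0x9ef9d48)) e) e) e))) (c (c (c (c (p (nat_lit 0x15819624)) (c (m (nat_lit 0x131f88)) e)) (c (c (m (nat_lit 0x1caebc)) e) e)) (c (c (c (m (nat_lit 0x180df7dc)) e) e) e)) (c (c (c (c (m (nat_lit 0x4fd73a8)) e) e) e) e))) (c (c (c (c (c (m (nat_lit 0x47f5464)) (c (m (nat_lit 0x10a2a22c)) e)) (c (c (p (nat_lit 0x1f78d64)) e) e)) (c (c (c (m (nat_lit 0x98c34)) e) e) e)) (c (c (c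 (c (m (nat_lit 0x131bf8)) e) e) e) e)) (c (c (c (c (c (m (nat_lit 0x15ea3ccc)) e) e) e) e) e))) (c (c (c (c (c (c (p (nat_lit 0x51841f68)) (c (p (nat_lit 0x6117fa8)) e)) (c (c (p (nat_lit 0x38a4fb0)) e) e)) (c (c (c (m (nat_lit 0x990c0)) e) e) e)) (c (c (c (c (m (nat_lit 0x990c0)) e) e) e) e)) (c (c (c (c (c (p (nat_lit 0x6ac5f60)) e) e) e) e) e)) (c (c (c (c (c (c (m (nat_lit 0x10fa2680)) e) e) e) e) e) e))) (c (c (c (c (c (c (c (p (nat_lit 0x494275e0)) (c (p (nat_lit 0x7aae4f0)) e)) (c (c (p (nat_lit 0x8ce782c)) e) e)) (c (c (c (p (nat_lit 0x3832d4)) e) e) e)) (c (c (c (c (m (nat_lit 0x990fc)) e) e) e) e)) (c (c (c (c (c (p (nat_lit 0x7e61e0c)) e) e) e) e) e)) (c (c (c (c (c (c (m (nat_lit 0x10fa2680)) e) e) e) e) e) e)) (c (c (c (c (c (c (c (m (nat_lit 0x127e84b4)) e) e) e) e) e) e) e)))) (c (c (c (c (c (c (c (c (m (nat_lit 0x9325d73c))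 (c (m (nat_lit 0x21460be4)) (c (p (nat_lit 0xa5b30c4)) e))) (c (c (m (nat_lit 0x11c67444)) (c (p (nat_lit 0x1273f794)) e)) (c (c (m (nat_lit 0xab3d0a4)) e) e))) (c (c (c (p (nat_lit 0x15819624)) (c (m (nat_lit 0x1caebc)) e)) (c (c (m (nat_lit 0x131f88)) e) e)) (c (c (c (m (nat_lit 0x4fd73a8)) e) e) e))) (c (c (c (c (p (nat_lit 0xc33cfcc)) (c (m (nat_lit 0x13281c)) e)) (c (c (m (nat_lit 0x991a4)) e) e)) (c (c (c (m (nat_lit 0x180df7dc)) e) e) e)) (c (c (c (c (p (nat_lit 0x9ef9d48)) e) e) e) e))) (c (c (c (c (c (m (nat_lit 0x47f5464)) (c (p (nat_lit 0x1f78d64)) e)) (c (c (m (nat_lit 0x10a2a22c)) e) e)) (c (c (c (m (nat_lit 0x131bf8)) e) e) e)) (c (c (c (c (m (nat_lit 0x98c34)) e) e) e) e)) (c (c (c (c (c (m (nat_lit 0x15ea3ccc)) e) e) e) e) e))) (c (c (c (c (c (c (p (nat_lit 0x54a4da14)) (c (p (nat_lit 0x3b8e0f0)) e)) (c (c (p (nat_lit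 0x3b8e0f0)) e) e)) (c (c (c (m (nat_lit 0x1322c4)) e) e) e)) (c (c (c (c (m (nat_lit 0x131f94)) e) e) e) e)) (c (c (c (c (c (p (nat_lit 0x1e31d10)) e) e) e) e) e)) (c (c (c (c (c (c (m (nat_lit 0x114ed5e8)) e) e) e) e) e) e))) (c (c (c (c (c (c (c (p (nat_lit 0x5775e0a0)) (c (m (nat_lit 0x1c88dfc)) e)) (c (c (m (nat_lit 0x1c88dfc)) e) e)) (c (c (c (m (nat_lit 0x99858)) e) e) e)) (c (c (c (c (m (nat_lit 0x99858)) e) e) e) e)) (c (c (c (c (c (m (nat_lit 0x2058450)) e) e) e) e) e)) (c (c (c (c (c (c (m (nat_lit 0x1ef86b74)) e) e) e) e) e) e)) (c (c (c (c (c (c (c (m (nat_lit 0xf2a1b0c)) e) e) e) e) e) e) e))) (c (c (c (c (c (c (c (c (p (nat_lit 0x494275e0)) (c (p (nat_lit 0x8ce782c)) e)) (c (c (p (nat_lit 0x7aae4f0)) e) e)) (c (c (c (m (nat_lit 0x990fc)) e) e) e)) (c (c (c (c (p (nat_lit 0x3832d4)) e) e) e) e)) (c (c (c (c (c (p (nat_lit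 0x7e61e0c)) e) e) e) e) e)) (c (c (c (c (c (c (m (nat_lit 0x114ed5e8)) e) e) e) e) e) e)) (c (c (c (c (c (c (c (m (nat_lit 0xf2a1b0c)) e) e) e) e) e) e) e)) (c (c (c (c (c (c (c (c (m (nat_lit 0x127e84b4)) e) e) e) e) e) e) e) e)))) (c (c (c (c (c (c (c (c (c (m (nat_lit 0x9325d73c)) (c (m (nat_lit 0x21460be4)) (c (p (nat_lit 0xa5b30c4)) e))) (c (c (m (nat_lit 0x11c67444)) (c (p (nat_lit 0x1273f794)) e)) (c (c (m (nat_lit 0xab3d0a4)) e) e))) (c (c (c (p (nat_lit 0xc33cfcc)) (c (m (nat_lit 0x13281c)) e)) (c (c (m (nat_lit 0x991a4)) e) e)) (c (c (c (p (nat_lit 0x9ef9d48)) e) e) e))) (c (c (c (c (p (nat_lit 0x15819624)) (c (m (nat_lit 0x1caebc)) e)) (c (c (m (nat_lit 0x131f88)) e) e)) (c (c (c (m (nat_lit 0x180df7dc)) e) e) e)) (c (c (c (c (m (nat_lit 0x4fd73a8)) e) e) e) e))) (c (c (c (c (c (m (nat_lit 0x47f5464)) (c (p (nat_lit 0x1f78d64))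 e)) (c (c (m (nat_lit 0x10a2a22c)) e) e)) (c (c (c (m (nat_lit 0x98c34)) e) e) e)) (c (c (c (c (m (nat_lit 0x131bf8)) e) e) e) e)) (c (c (c (c (c (m (nat_lit 0x15ea3ccc)) e) e) e) e) e))) (c (c (c (c (c (c (p (nat_lit 0x5775e0a0)) (c (m (nat_lit 0x1c88dfc)) e)) (c (c (m (nat_lit 0x1c88dfc)) e) e)) (c (c (c (m (nat_lit 0x99858)) e) e) e)) (c (c (c (c (m (nat_lit 0x99858)) e) e) e) e)) (c (c (c (c (c (m (nat_lit 0x2058450)) e) e) e) e) e)) (c (c (c (c (c (c (m (nat_lit 0xf2a1b0c)) e) e) e) e) e) e))) (c (c (c (c (c (c (c (p (nat_lit 0x54a4da14)) (c (p (nat_lit 0x3b8e0f0)) e)) (c (c (p (nat_lit 0x3b8e0f0)) e) e)) (c (c (c (m (nat_lit 0x131f94)) e) e) e)) (c (c (c (c (m (nat_lit 0x1322c4)) e) e) e) e)) (c (c (c (c (c (p (nat_lit 0x1e31d10)) e) e) e) e) e)) (c (c (c (c (c (c (m (nat_lit 0x1ef86b74)) e) e) e) e) e) e)) (c (c (c (c (c (c (c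 (m (nat_lit 0x114ed5e8)) e) e) e) e) e) e) e))) (c (c (c (c (c (c (c (c (p (nat_lit 0x51841f68)) (c (p (nat_lit 0x38a4fb0)) e)) (c (c (p (nat_lit 0x6117fa8)) e) e)) (c (c (c (m (nat_lit 0x990c0)) e) e) e)) (c (c (c (c (m (nat_lit 0x990c0)) e) e) e) e)) (c (c (c (c (c (p (nat_lit 0x6ac5f60)) e) e) e) e) e)) (c (c (c (c (c (c (m (nat_lit 0x1ef86b74)) e) e) e) e) e) e)) (c (c (c (c (c (c (c (m (nat_lit 0x1ef86b74)) e) e) e) e) e) e) e)) (c (c (c (c (c (c (c (c (m (nat_lit 0x10fa2680)) e) e) e) e) e) e) e) e))) (c (c (c (c (c (c (c (c (c (p (nat_lit 0x494275e0)) (c (p (nat_lit 0x8ce782c)) e)) (c (c (p (nat_lit 0x7aae4f0)) e) e)) (c (c (c (p (nat_lit 0x3832d4)) e) e) e)) (c (c (c (c (m (nat_lit 0x990fc)) e) e) e) e)) (c (c (c (c (c (p (nat_lit 0x7e61e0c)) e) e) e) e) e)) (c (c (c (c (c (c (m (nat_lit 0xf2a1b0c)) e) e) e) e) e) e)) (c (c (c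 (c (c (c (c (m (nat_lit 0x114ed5e8)) e) e) e) e) e) e) e)) (c (c (c (c (c (c (c (c (m (nat_lit 0x10fa2680)) e) e) e) e) e) e) e) e)) (c (c (c (c (c (c (c (c (c (m (nat_lit 0x127e84b4)) e) e) e) e) e) e) e) e) e)))) (c (c (c (c (c (c (c (c (c (c (m (nat_lit 0x7ec47ad8)) (c (p (nat_lit 0x60135c0)) (c (m (nat_lit 0x79cc20)) e))) (c (c (p (nat_lit 0x60135c0)) (c (m (nat_lit 0xcd59c0)) e)) (c (c (m (nat_lit 0x79cc20)) e) e))) (c (c (c (p (nat_lit 0x7ab5378)) (c (m (nat_lit 0x131ca0)) e)) (c (c (m (nat_lit 0x131ca0)) e) e)) (c (c (c (m (nat_lit 0x4ea230c)) e) e) e))) (c (c (c (c (p (nat_lit 0x7ab5378)) (c (m (nat_lit 0x131ca0)) e)) (c (c (m (nat_lit 0x131ca0)) e) e)) (c (c (c (m (nat_lit 0x53601c0)) e) e) e)) (c (c (c (c (m (nat_lit 0x4ea230c)) e) e) e) e))) (c (c (c (c (c (p (nat_lit 0x25f4c880)) (c (p (nat_lit 0xfc91e90)) e)) (c (c (p (nat_lit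 0xfc91e90)) e) e)) (c (c (c (m (nat_lit 0x1321b0)) e) e) e)) (c (c (c (c (m (nat_lit 0x1321b0)) e) e) e) e)) (c (c (c (c (c (m (nat_lit 0x1c0db980)) e) e) e) e) e))) (c (c (c (c (c (c (p (nat_lit 0x4f7acb94)) (c (m (nat_lit 0x5c2b948)) e)) (c (c (m (nat_lit 0x4a8b180)) e) e)) (c (c (c (m (nat_lit 0x98cb8)) e) e) e)) (c (c (c (c (m (nat_lit 0x98c64)) e) e) e) e)) (c (c (c (c (c (m (nat_lit 0x6657894)) e) e) e) e) e)) (c (c (c (c (c (c (m (nat_lit 0xbe3e264)) e) e) e) e) e) e))) (c (c (c (c (c (c (c (p (nat_lit 0x4f7acb94)) (c (m (nat_lit 0x5c2b948)) e)) (c (c (m (nat_lit 0x4a8b180)) e) e)) (c (c (c (m (nat_lit 0x98c64)) e) e) e)) (c (c (c (c (m (nat_lit 0x98cb8)) e) e) e) e)) (c (c (c (c (c (m (nat_lit 0x6657894)) e) e) e) e) e)) (c (c (c (c (c (c (m (nat_lit 0x162b4960)) e) e) e) e) e) e)) (c (c (c (c (c (c (c (m (nat_lit 0xbe3e264))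 e) e) e) e) e) e) e))) (c (c (c (c (c (c (c (c (p (nat_lit 0x4f7acb94)) (c (m (nat_lit 0x4a8b180)) e)) (c (c (m (nat_lit 0x5c2b948)) e) e)) (c (c (c (m (nat_lit 0x98cb8)) e) e) e)) (c (c (c (c (m (nat_lit 0x98c64)) e) e) e) e)) (c (c (c (c (c (m (nat_lit 0x6657894)) e) e) e) e) e)) (c (c (c (c (c (c (m (nat_lit 0x1639a928)) e) e) e) e) e) e)) (c (c (c (c (c (c (c (m (nat_lit 0x1401d530)) e) e) e) e) e) e) e)) (c (c (c (c (c (c (c (c (m (nat_lit 0xbe3e264)) e) e) e) e) e) e) e) e))) (c (c (c (c (c (c (c (c (c (p (nat_lit 0x4f7acb94)) (c (m (nat_lit 0x4a8b180)) e)) (c (c (m (nat_lit 0x5c2b948)) e) e)) (c (c (c (m (nat_lit 0x98c64)) e) e) e)) (c (c (c (c (m (nat_lit 0x98cb8)) e) e) e) e)) (c (c (c (c (c (m (nat_lit 0x6657894)) e) e) e) e) e)) (c (c (c (c (c (c (m (nat_lit 0x1401d530)) e) e) e) e) e) e)) (c (c (c (c (c (c (c (m (nat_lit 0x1639a928))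 e) e) e) e) e) e) e)) (c (c (c (c (c (c (c (c (m (nat_lit 0x162b4960)) e) e) e) e) e) e) e) e)) (c (c (c (c (c (c (c (c (c (m (nat_lit 0xbe3e264)) e) e) e) e) e) e) e) e) e))) (c (c (c (c (c (c (c (c (c (c (p (nat_lit 0x34c22d90)) (c (m (nat_lit 0x4c7598)) e)) (c (c (m (nat_lit 0x4c7598)) e) e)) (c (c (c (m (nat_lit 0x131fa0)) e) e) e)) (c (c (c (c (m (nat_lit 0x131fa0)) e) e) e) e)) (c (c (c (c (c (m (nat_lit 0x4c6170)) e) e) e) e) e)) (c (c (c (c (c (c (m (nat_lit 0xa436508)) e) e) e) e) e) e)) (c (c (c (c (c (c (c (m (nat_lit 0xa436508)) e) e) e) e) e) e) e)) (c (c (c (c (c (c (c (c (m (nat_lit 0xa436508)) e) e) e) e) e) e) e) e)) (c (c (c (c (c (c (c (c (c (m (nat_lit 0xa436508)) e) e) e) e) e) e) e) e) e)) (c (c (c (c (c (c (c (c (c (c (m (nat_lit 0x5da4e50)) e) e) e) e) e) e) e) e) e) e)))))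

theorem c1 : trsOK col trs = true := by decide +kernel
theorem c2 : Nat.ble (Nat.mul (nat_lit 40) (nat_lit 4556)) (nat_lit 4294967295) = true := by decide +kernel
theorem c3 : Nat.beq (tabK (nat_lit 40) (List.ofFn s10)) kt = true := by decide +kernel
theorem c4 : okE trs E = true := by decide +kernel
theorem c5 : dE E (nat_lit 4) = true := by decide +kernel
theorem c6 : cmpK (nat_lit 10) (nat_lit 4) kt E T = true := by decide +kernel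
theorem c7 : bndK (nat_lit 10) (nat_lit 4) (Nat.pow (nat_lit 2) (nat_lit 40)) E T = true := by decide +kernel

theorem c0 : Fl.codeB col = 31 := by decide +kernel

theorem own : Fl.OwnOK 4 T 31 :=
  own_ok c0 c1 c2 c3 c4 c5 c6 c7

end H31

end Own

end HR
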