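import Pool.Agent.Lib.MP_a1b8b7_co.B.OwnOK

set_option autoImplicit false

namespace HR

namespace Own

namespace H63

open Chk

def col : Fin 10 → Bool := ![true, true, true, true, true, true, false, false, false, false]

def trs : List ℕ := [nat_lit 528, nat_lit 1072, nat_lit 1329, nat_lit 1346]

def kt : ℕ := nat_lit 0x27000000c300000333000008610000174f00003ace000082b60000e3250001a64c0002b614

open Ex in
noncomputable def E : Ex := (a (a (a (a (u (nat_lit 9) (v (nat_lit 9) (v (nat_lit 9) (v (nat_lit 9) (k (nat_lit 0x394c50)))))) (v (nat_lit 8) (a (u (nat_lit 9) (v (nat_lit 9) (v (nat_lit 9) (k (nat_lit 0x131a48))))) (v (nat_lit 8) (a (u (nat_lit 9) (v (nat_lit 9) (k (nat_lit 0x1319e8)))) (v (nat_lit 8) (u (nat_lit 9) (k (nat_lit 0x1318e0))))))))) (a (u (nat_lit 8) (a (v (nat_lit 9) (v (nat_lit 9) (v (nat_lit 9) (k (nat_lit 0x1318e0)))))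 (v (nat_lit 8) (a (v (nat_lit 9) (v (nat_lit 9) (k (nat_lit 0x1319e8)))) (v (nat_lit 8) (a (v (nat_lit 9) (k (nat_lit 0x131a48))) (v (nat_lit 8) (k (nat_lit 0x394c50))))))))) (a (v (nat_lit 7) (a (a (u (nat_lit 9) (v (nat_lit 9) (v (nat_lit 9) (k (nat_lit 0x131a48))))) (v (nat_lit 8) (a (u (nat_lit 9) (u (nat_lit 9) (k (nat_lit 0x132ae0)))) (v (nat_lit 8) (u (nat_lit 9) (k (nat_lit 0x99570))))))) (a (u (nat_lit 8) (a (v (nat_lit 9) (v (nat_lit 9) (k (nat_lit 0x99570)))) (a (v (nat_lit 8) (v (nat_lit 8) (k (nat_lit 0x131a48)))) (u (nat_lit 8) (v (nat_lit 9) (k (nat_lit 0x132ae0))))))) (v (nat_lit 7) (a (a (u (nat_lit 9) (v (nat_lit 9) (k (nat_lit 0x1319e8)))) (v (nat_lit 8) (u (nat_lit 9) (k (nat_lit 0x99570))))) (a (u (nat_lit 8) (a (v (nat_lit 9) (k (nat_lit 0x99570))) (v (nat_lit 8) (k (nat_lit 0x1319e8))))) (v (nat_lit 7) (a (u (nat_lit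 9) (k (nat_lit 0x1318e0))) (u (nat_lit 8) (k (nat_lit 0x1318e0))))))))))) (u (nat_lit 7) (a (a (v (nat_lit 9) (v (nat_lit 9) (v (nat_lit 9) (k (nat_lit 0x1318e0))))) (v (nat_lit 8) (a (v (nat_lit 9) (v (nat_lit 9) (k (nat_lit 0x99570)))) (v (nat_lit 8) (a (v (nat_lit 9) (k (nat_lit 0x99570))) (v (nat_lit 8) (k (nat_lit 0x1318e0)))))))) (a (v (nat_lit 7) (a (v (nat_lit 9) (v (nat_lit 9) (k (nat_lit 0x1319e8)))) (a (v (nat_lit 8) (v (nat_lit 8) (k (nat_lit 0x1319e8)))) (v (nat_lit 7) (a (v (nat_lit 9) (k (nat_lit 0x131a48))) (a (v (nat_lit 8) (k (nat_lit 0x131a48))) (v (nat_lit 7) (k (nat_lit 0x394c50))))))))) (u (nat_lit 7) (v (nat_lit 8) (v (nat_lit 9) (k (nat_lit 0x132ae0))))))))))) (a (a (v (nat_lit 6) (a (a (u (nat_lit 9) (v (nat_lit 9) (v (nat_lit 9) (k (nat_lit 0x131a48))))) (a (v (nat_lit 8) (a (u (nat_lit 9) (u (nat_lit 9) (k (nat_lit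 0x132ae0)))) (v (nat_lit 8) (u (nat_lit 9) (k (nat_lit 0x99570)))))) (u (nat_lit 8) (a (v (nat_lit 9) (v (nat_lit 9) (k (nat_lit 0x99570)))) (a (v (nat_lit 8) (v (nat_lit 8) (k (nat_lit 0x131a48)))) (u (nat_lit 8) (v (nat_lit 9) (k (nat_lit 0x132ae0))))))))) (a (v (nat_lit 7) (a (a (u (nat_lit 9) (u (nat_lit 9) (k (nat_lit 0x132ae0)))) (v (nat_lit 8) (u (nat_lit 9) (k (nat_lit 0x394d70))))) (a (u (nat_lit 8) (a (v (nat_lit 9) (k (nat_lit 0x394d70))) (u (nat_lit 8) (k (nat_lit 0x132ae0))))) (v (nat_lit 7) (a (u (nat_lit 9) (k (nat_lit 0x99570))) (u (nat_lit 8) (k (nat_lit 0x99570)))))))) (a (u (nat_lit 7) (a (a (v (nat_lit 9) (v (nat_lit 9) (k (nat_lit 0x99570)))) (v (nat_lit 8) (a (v (nat_lit 9) (k (nat_lit 0x394d70))) (v (nat_lit 8) (k (nat_lit 0x99570)))))) (a (v (nat_lit 7) (v (nat_lit 7) (k (nat_lit 0x131a48)))) (u (nat_lit 7) (a (v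 (nat_lit 9) (k (nat_lit 0x132ae0))) (v (nat_lit 8) (k (nat_lit 0x132ae0)))))))) (v (nat_lit 6) (a (a (u (nat_lit 9) (v (nat_lit 9) (k (nat_lit 0x1319e8)))) (a (v (nat_lit 8) (u (nat_lit 9) (k (nat_lit 0x99570)))) (u (nat_lit 8) (a (v (nat_lit 9) (k (nat_lit 0x99570))) (v (nat_lit 8) (k (nat_lit 0x1319e8))))))) (a (v (nat_lit 7) (a (u (nat_lit 9) (k (nat_lit 0x99570))) (u (nat_lit 8) (k (nat_lit 0x99570))))) (a (u (nat_lit 7) (a (v (nat_lit 9) (k (nat_lit 0x99570))) (a (v (nat_lit 8) (k (nat_lit 0x99570))) (v (nat_lit 7) (k (nat_lit 0x1319e8)))))) (v (nat_lit 6) (a (u (nat_lit 9) (k (nat_lit 0x1318e0))) (a (u (nat_lit 8) (k (nat_lit 0x1318e0))) (u (nat_lit 7) (k (nat_lit 0x1318e0)))))))))))))) (a (u (nat_lit 6) (a (a (v (nat_lit 9) (v (nat_lit 9) (v (nat_lit 9) (k (nat_lit 0x1318e0))))) (v (nat_lit 8) (a (v (nat_lit 9) (v (nat_lit 9) (k (nat_lit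 0x99570)))) (v (nat_lit 8) (a (v (nat_lit 9) (k (nat_lit 0x99570))) (v (nat_lit 8) (k (nat_lit 0x1318e0)))))))) (a (v (nat_lit 7) (a (v (nat_lit 9) (v (nat_lit 9) (k (nat_lit 0x99570)))) (a (v (nat_lit 8) (a (v (nat_lit 9) (k (nat_lit 0x394d70))) (v (nat_lit 8) (k (nat_lit 0x99570))))) (v (nat_lit 7) (a (v (nat_lit 9) (k (nat_lit 0x99570))) (a (v (nat_lit 8) (k (nat_lit 0x99570))) (v (nat_lit 7) (k (nat_lit 0x1318e0))))))))) (a (v (nat_lit 6) (a (a (v (nat_lit 9) (v (nat_lit 9) (k (nat_lit 0x1319e8)))) (v (nat_lit 8) (v (nat_lit 8) (k (nat_lit 0x1319e8))))) (a (v (nat_lit 7) (v (nat_lit 7) (k (nat_lit 0x1319e8)))) (v (nat_lit 6) (a (a (v (nat_lit 9) (k (nat_lit 0x131a48))) (v (nat_lit 8) (k (nat_lit 0x131a48)))) (a (v (nat_lit 7) (k (nat_lit 0x131a48))) (v (nat_lit 6) (k (nat_lit 0x394c50))))))))) (u (nat_lit 6) (a (v (nat_lit 8) (v (nat_lit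 9) (k (nat_lit 0x132ae0)))) (v (nat_lit 7) (a (v (nat_lit 9) (k (nat_lit 0x132ae0))) (v (nat_lit 8) (k (nat_lit 0x132ae0))))))))))) (v (nat_lit 5) (a (a (a (u (nat_lit 9) (v (nat_lit 9) (v (nat_lit 9) (k (nat_lit 0x131a00))))) (v (nat_lit 8) (u (nat_lit 9) (v (nat_lit 9) (k (nat_lit 0x1322b8)))))) (a (u (nat_lit 8) (v (nat_lit 8) (a (v (nat_lit 9) (k (nat_lit 0x1322b8))) (v (nat_lit 8) (k (nat_lit 0x131a00)))))) (v (nat_lit 7) (a (v (nat_lit 8) (u (nat_lit 9) (k (nat_lit 0x99402)))) (a (u (nat_lit 8) (a (v (nat_lit 9) (k (nat_lit 0x99402))) (u (nat_lit 9) (k (nat_lit 0x13275c))))) (v (nat_lit 7) (a (u (nat_lit 9) (k (nat_lit 0x98ca0))) (u (nat_lit 8) (k (nat_lit 0x98ca0)))))))))) (a (a (u (nat_lit 7) (a (v (nat_lit 9) (v (nat_lit 9) (k (nat_lit 0x98cf4)))) (a (v (nat_lit 8) (v (nat_lit 8) (k (nat_lit 0x98cf4)))) (v (nat_lit 7) (v (nat_lit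 7) (k (nat_lit 0x131b08))))))) (v (nat_lit 6) (a (a (v (nat_lit 8) (u (nat_lit 9) (k (nat_lit 0x99402)))) (u (nat_lit 8) (a (v (nat_lit 9) (k (nat_lit 0x99402))) (u (nat_lit 9) (k (nat_lit 0x13275c)))))) (a (v (nat_lit 7) (a (u (nat_lit 9) (k (nat_lit 0x12f7f8))) (u (nat_lit 8) (k (nat_lit 0x12f7f8))))) (v (nat_lit 6) (a (u (nat_lit 9) (k (nat_lit 0x98ca0))) (a (u (nat_lit 8) (k (nat_lit 0x98ca0))) (u (nat_lit 7) (k (nat_lit 0x132168)))))))))) (a (u (nat_lit 6) (a (a (v (nat_lit 9) (v (nat_lit 9) (k (nat_lit 0x98cf4)))) (v (nat_lit 8) (v (nat_lit 8) (k (nat_lit 0x98cf4))))) (a (v (nat_lit 7) (v (nat_lit 7) (k (nat_lit 0x132168)))) (v (nat_lit 6) (v (nat_lit 6) (k (nat_lit 0x131b08))))))) (v (nat_lit 5) (a (a (u (nat_lit 9) (v (nat_lit 9) (k (nat_lit 0x1320f0)))) (a (u (nat_lit 8) (v (nat_lit 8) (k (nat_lit 0x1320f0)))) (v (nat_lit 7) (a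 (u (nat_lit 9) (k (nat_lit 0x98e0e))) (u (nat_lit 8) (k (nat_lit 0x98e0e))))))) (a (u (nat_lit 7) (v (nat_lit 7) (k (nat_lit 0x1319a0)))) (a (v (nat_lit 6) (a (u (nat_lit 9) (k (nat_lit 0x98e0e))) (u (nat_lit 8) (k (nat_lit 0x98e0e))))) (u (nat_lit 6) (v (nat_lit 6) (k (nat_lit 0x1319a0)))))))))))))) (a (u (nat_lit 5) (a (a (v (nat_lit 8) (v (nat_lit 8) (u (nat_lit 9) (k (nat_lit 0x132210))))) (u (nat_lit 8) (v (nat_lit 9) (v (nat_lit 9) (k (nat_lit 0x132210)))))) (a (v (nat_lit 6) (a (v (nat_lit 7) (a (v (nat_lit 9) (k (nat_lit 0x133b48))) (a (v (nat_lit 8) (k (nat_lit 0x133b48))) (v (nat_lit 7) (k (nat_lit 0x1311a8)))))) (v (nat_lit 6) (v (nat_lit 7) (k (nat_lit 0x1311a8)))))) (v (nat_lit 5) (a (a (v (nat_lit 9) (v (nat_lit 9) (k (nat_lit 0x1313b8)))) (a (v (nat_lit 8) (a (v (nat_lit 9) (k (nat_lit 0x263a18))) (v (nat_lit 8) (k (nat_lit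 0x1313b8))))) (u (nat_lit 8) (u (nat_lit 9) (k (nat_lit 0x262ba8)))))) (a (v (nat_lit 7) (a (v (nat_lit 9) (k (nat_lit 0x98b32))) (v (nat_lit 8) (k (nat_lit 0x98b32))))) (a (v (nat_lit 6) (a (v (nat_lit 9) (k (nat_lit 0x98b32))) (a (v (nat_lit 8) (k (nat_lit 0x98b32))) (v (nat_lit 7) (k (nat_lit 0x263400)))))) (v (nat_lit 5) (a (a (v (nat_lit 9) (k (nat_lit 0x131a00))) (a (v (nat_lit 8) (k (nat_lit 0x131a00))) (v (nat_lit 7) (k (nat_lit 0x131b08))))) (a (a (u (nat_lit 7) (k (nat_lit 0x131ac0))) (v (nat_lit 6) (k (nat_lit 0x131b08)))) (a (u (nat_lit 6) (k (nat_lit 0x131ac0))) (v (nat_lit 5) (k (nat_lit 0x2631c0)))))))))))))) (a (v (nat_lit 4) (a (a (a (u (nat_lit 9) (v (nat_lit 9) (v (nat_lit 9) (k (nat_lit 0x131a00))))) (v (nat_lit 8) (v (nat_lit 8) (u (nat_lit 9) (k (nat_lit 0x98ca0)))))) (a (u (nat_lit 8) (a (v (nat_lit 9) (v (nat_lit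 9) (k (nat_lit 0x98cf4)))) (v (nat_lit 8) (v (nat_lit 8) (k (nat_lit 0x131b08)))))) (a (v (nat_lit 7) (a (u (nat_lit 9) (v (nat_lit 9) (k (nat_lit 0x1322b8)))) (a (v (nat_lit 8) (u (nat_lit 9) (k (nat_lit 0x99402)))) (v (nat_lit 7) (u (nat_lit 8) (k (nat_lit 0x98cf4))))))) (u (nat_lit 7) (a (v (nat_lit 8) (a (v (nat_lit 9) (k (nat_lit 0x99402))) (a (u (nat_lit 9) (k (nat_lit 0x13275c))) (v (nat_lit 8) (k (nat_lit 0x98ca0)))))) (v (nat_lit 7) (a (v (nat_lit 9) (k (nat_lit 0x1322b8))) (v (nat_lit 7) (k (nat_lit 0x131a00)))))))))) (a (a (v (nat_lit 6) (a (a (v (nat_lit 8) (u (nat_lit 9) (k (nat_lit 0x12f7f8)))) (v (nat_lit 7) (u (nat_lit 9) (k (nat_lit 0x99402))))) (a (u (nat_lit 7) (a (v (nat_lit 9) (k (nat_lit 0x99402))) (a (u (nat_lit 9) (k (nat_lit 0x13275c))) (v (nat_lit 8) (k (nat_lit 0x12f7f8)))))) (v (nat_lit 6) (a (u (nat_lit 9) (k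 (nat_lit 0x98ca0))) (a (u (nat_lit 8) (k (nat_lit 0x132168))) (u (nat_lit 7) (k (nat_lit 0x98ca0))))))))) (u (nat_lit 6) (a (a (v (nat_lit 9) (v (nat_lit 9) (k (nat_lit 0x98cf4)))) (v (nat_lit 8) (v (nat_lit 8) (k (nat_lit 0x132168))))) (a (v (nat_lit 7) (v (nat_lit 7) (k (nat_lit 0x98cf4)))) (v (nat_lit 6) (v (nat_lit 6) (k (nat_lit 0x131b08)))))))) (a (v (nat_lit 5) (a (a (u (nat_lit 9) (v (nat_lit 9) (k (nat_lit 0x1331f4)))) (a (v (nat_lit 8) (u (nat_lit 9) (k (nat_lit 0x99fe4)))) (u (nat_lit 8) (v (nat_lit 8) (k (nat_lit 0x981a8)))))) (a (a (v (nat_lit 7) (a (u (nat_lit 9) (k (nat_lit 0x99fe4))) (u (nat_lit 8) (k (nat_lit 0x983be))))) (u (nat_lit 7) (a (v (nat_lit 8) (k (nat_lit 0x983be))) (v (nat_lit 7) (k (nat_lit 0x981a8)))))) (a (v (nat_lit 6) (u (nat_lit 9) (k (nat_lit 0x12f840)))) (u (nat_lit 6) (v (nat_lit 6) (k (nat_lit 0x131904))))))))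 (a (u (nat_lit 5) (a (a (v (nat_lit 9) (v (nat_lit 9) (k (nat_lit 0x980c4)))) (v (nat_lit 8) (a (v (nat_lit 9) (k (nat_lit 0x97e4e))) (v (nat_lit 8) (k (nat_lit 0x98586)))))) (a (v (nat_lit 7) (a (v (nat_lit 9) (k (nat_lit 0x988b6))) (v (nat_lit 7) (k (nat_lit 0x99ce4))))) (a (v (nat_lit 6) (a (v (nat_lit 9) (k (nat_lit 0x99d50))) (a (v (nat_lit 8) (k (nat_lit 0x99ae6))) (v (nat_lit 7) (k (nat_lit 0x97ffe)))))) (v (nat_lit 5) (a (u (nat_lit 7) (k (nat_lit 0x98928))) (v (nat_lit 5) (k (nat_lit 0x98ca0))))))))) (v (nat_lit 4) (a (a (u (nat_lit 9) (v (nat_lit 9) (k (nat_lit 0x1320f0)))) (a (v (nat_lit 8) (u (nat_lit 9) (k (nat_lit 0x98e0e)))) (u (nat_lit 8) (v (nat_lit 8) (k (nat_lit 0x1319a0)))))) (a (a (u (nat_lit 7) (a (v (nat_lit 8) (k (nat_lit 0x98e0e))) (v (nat_lit 7) (k (nat_lit 0x1320f0))))) (v (nat_lit 6) (a (u (nat_lit 9) (k (nat_lit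 0x98e0e))) (u (nat_lit 7) (k (nat_lit 0x98e0e)))))) (a (u (nat_lit 6) (v (nat_lit 6) (k (nat_lit 0x1319a0)))) (u (nat_lit 5) (a (a (v (nat_lit 9) (k (nat_lit 0x98e20))) (v (nat_lit 8) (k (nat_lit 0x98994)))) (a (v (nat_lit 7) (k (nat_lit 0x98dcc))) (a (v (nat_lit 6) (k (nat_lit 0x408b3ac))) (v (nat_lit 5) (k (nat_lit 0x98c70)))))))))))))))) (u (nat_lit 4) (a (a (v (nat_lit 7) (v (nat_lit 7) (u (nat_lit 9) (k (nat_lit 0x132210))))) (a (u (nat_lit 7) (v (nat_lit 9) (v (nat_lit 9) (k (nat_lit 0x132210))))) (v (nat_lit 6) (a (v (nat_lit 8) (a (v (nat_lit 9) (k (nat_lit 0x133b48))) (v (nat_lit 8) (k (nat_lit 0x1311a8))))) (a (v (nat_lit 7) (v (nat_lit 8) (k (nat_lit 0x133b48)))) (v (nat_lit 6) (v (nat_lit 8) (k (nat_lit 0x1311a8))))))))) (a (v (nat_lit 5) (a (a (v (nat_lit 9) (v (nat_lit 9) (k (nat_lit 0x980c4)))) (v (nat_lit 8) (a (v (nat_lit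 9) (k (nat_lit 0x988b6))) (v (nat_lit 8) (k (nat_lit 0x99ce4)))))) (a (v (nat_lit 7) (a (v (nat_lit 9) (k (nat_lit 0x97e4e))) (v (nat_lit 7) (k (nat_lit 0x98586))))) (a (v (nat_lit 6) (a (v (nat_lit 9) (k (nat_lit 0x99d50))) (a (v (nat_lit 8) (k (nat_lit 0x97ffe))) (v (nat_lit 7) (k (nat_lit 0x99ae6)))))) (v (nat_lit 5) (a (a (v (nat_lit 9) (k (nat_lit 0x98e20))) (v (nat_lit 8) (k (nat_lit 0x98dcc)))) (a (v (nat_lit 7) (k (nat_lit 0x98994))) (v (nat_lit 6) (k (nat_lit 0x408b3ac)))))))))) (a (u (nat_lit 5) (a (v (nat_lit 7) (u (nat_lit 8) (k (nat_lit 0x9961e)))) (u (nat_lit 7) (v (nat_lit 8) (k (nat_lit 0x9961e)))))) (v (nat_lit 4) (a (a (v (nat_lit 9) (v (nat_lit 9) (k (nat_lit 0x1313b8)))) (a (v (nat_lit 8) (v (nat_lit 9) (k (nat_lit 0x98b32)))) (v (nat_lit 7) (a (v (nat_lit 9) (k (nat_lit 0x263a18))) (a (v (nat_lit 8) (k (nat_lit 0x98b32)))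 (v (nat_lit 7) (k (nat_lit 0x1313b8)))))))) (a (a (u (nat_lit 7) (u (nat_lit 9) (k (nat_lit 0x262ba8)))) (v (nat_lit 6) (a (v (nat_lit 9) (k (nat_lit 0x98b32))) (a (v (nat_lit 8) (k (nat_lit 0x263400))) (v (nat_lit 7) (k (nat_lit 0x98b32))))))) (a (v (nat_lit 5) (a (u (nat_lit 8) (k (nat_lit 0x98928))) (v (nat_lit 5) (k (nat_lit 0x98c70))))) (v (nat_lit 4) (a (a (a (v (nat_lit 9) (k (nat_lit 0x131a00))) (v (nat_lit 8) (k (nat_lit 0x131b08)))) (a (u (nat_lit 8) (k (nat_lit 0x131ac0))) (v (nat_lit 7) (k (nat_lit 0x131a00))))) (a (a (v (nat_lit 6) (k (nat_lit 0x131b08))) (u (nat_lit 6) (k (nat_lit 0x131ac0)))) (a (v (nat_lit 5) (k (nat_lit 0x98ca0))) (v (nat_lit 4) (k (nat_lit 0x2631c0))))))))))))))))))) (a (a (a (v (nat_lit 3) (a (a (a (u (nat_lit 9) (v (nat_lit 9) (v (nat_lit 9) (k (nat_lit 0x131a00))))) (a (v (nat_lit 8) (v (nat_lit 8) (u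 (nat_lit 9) (k (nat_lit 0x98ca0))))) (u (nat_lit 8) (a (v (nat_lit 9) (v (nat_lit 9) (k (nat_lit 0x98cf4)))) (v (nat_lit 8) (v (nat_lit 8) (k (nat_lit 0x131b08)))))))) (a (v (nat_lit 7) (a (v (nat_lit 8) (u (nat_lit 9) (k (nat_lit 0x12f7f8)))) (v (nat_lit 7) (a (u (nat_lit 9) (k (nat_lit 0x98ca0))) (u (nat_lit 8) (k (nat_lit 0x132168))))))) (a (u (nat_lit 7) (a (v (nat_lit 9) (v (nat_lit 9) (k (nat_lit 0x98cf4)))) (a (v (nat_lit 8) (v (nat_lit 8) (k (nat_lit 0x132168)))) (v (nat_lit 7) (v (nat_lit 7) (k (nat_lit 0x131b08))))))) (v (nat_lit 6) (a (a (u (nat_lit 9) (v (nat_lit 9) (k (nat_lit 0x1322b8)))) (v (nat_lit 8) (u (nat_lit 9) (k (nat_lit 0x99402))))) (a (v (nat_lit 7) (u (nat_lit 9) (k (nat_lit 0x99402)))) (v (nat_lit 6) (a (u (nat_lit 8) (k (nat_lit 0x98cf4))) (u (nat_lit 7) (k (nat_lit 0x98cf4))))))))))) (a (a (u (nat_lit 6) (a (v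 (nat_lit 8) (a (v (nat_lit 9) (k (nat_lit 0x99402))) (a (u (nat_lit 9) (k (nat_lit 0x13275c))) (v (nat_lit 8) (k (nat_lit 0x98ca0)))))) (a (v (nat_lit 7) (a (a (v (nat_lit 9) (k (nat_lit 0x99402))) (u (nat_lit 9) (k (nat_lit 0x13275c)))) (a (v (nat_lit 8) (k (nat_lit 0x12f7f8))) (v (nat_lit 7) (k (nat_lit 0x98ca0)))))) (v (nat_lit 6) (a (v (nat_lit 9) (k (nat_lit 0x1322b8))) (v (nat_lit 6) (k (nat_lit 0x131a00)))))))) (a (v (nat_lit 5) (a (a (u (nat_lit 9) (v (nat_lit 9) (k (nat_lit 0x1331f4)))) (a (v (nat_lit 8) (u (nat_lit 9) (k (nat_lit 0x99fe4)))) (u (nat_lit 8) (v (nat_lit 8) (k (nat_lit 0x981a8)))))) (a (a (v (nat_lit 7) (u (nat_lit 9) (k (nat_lit 0x12f840)))) (u (nat_lit 7) (v (nat_lit 7) (k (nat_lit 0x131904))))) (a (v (nat_lit 6) (a (u (nat_lit 9) (k (nat_lit 0x99fe4))) (u (nat_lit 8) (k (nat_lit 0x983be))))) (u (nat_lit 6) (a (v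 (nat_lit 8) (k (nat_lit 0x983be))) (v (nat_lit 6) (k (nat_lit 0x981a8))))))))) (u (nat_lit 5) (a (a (v (nat_lit 9) (v (nat_lit 9) (k (nat_lit 0x980c4)))) (v (nat_lit 8) (a (v (nat_lit 9) (k (nat_lit 0x97e4e))) (v (nat_lit 8) (k (nat_lit 0x98586)))))) (a (v (nat_lit 7) (a (v (nat_lit 9) (k (nat_lit 0x99d50))) (v (nat_lit 8) (k (nat_lit 0x99ae6))))) (a (v (nat_lit 6) (a (v (nat_lit 9) (k (nat_lit 0x988b6))) (a (v (nat_lit 7) (k (nat_lit 0x97ffe))) (v (nat_lit 6) (k (nat_lit 0x99ce4)))))) (v (nat_lit 5) (a (u (nat_lit 6) (k (nat_lit 0x98928))) (v (nat_lit 5) (k (nat_lit 0x98ca0))))))))))) (a (v (nat_lit 4) (a (a (a (u (nat_lit 9) (v (nat_lit 9) (k (nat_lit 0x1331f4)))) (v (nat_lit 8) (u (nat_lit 9) (k (nat_lit 0x12f840))))) (a (u (nat_lit 8) (v (nat_lit 8) (k (nat_lit 0x131904)))) (v (nat_lit 7) (u (nat_lit 9) (k (nat_lit 0x99fe4)))))) (a (a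 (u (nat_lit 7) (v (nat_lit 7) (k (nat_lit 0x981a8)))) (v (nat_lit 6) (a (u (nat_lit 9) (k (nat_lit 0x99fe4))) (u (nat_lit 7) (k (nat_lit 0x983be)))))) (a (u (nat_lit 6) (a (v (nat_lit 7) (k (nat_lit 0x983be))) (v (nat_lit 6) (k (nat_lit 0x981a8))))) (u (nat_lit 5) (a (v (nat_lit 9) (k (nat_lit 0x12ef64))) (a (v (nat_lit 8) (k (nat_lit 0x1316f4))) (v (nat_lit 5) (k (nat_lit 0x131880)))))))))) (a (u (nat_lit 4) (a (a (v (nat_lit 9) (v (nat_lit 9) (k (nat_lit 0x980c4)))) (a (v (nat_lit 8) (v (nat_lit 9) (k (nat_lit 0x99d50)))) (v (nat_lit 7) (a (v (nat_lit 9) (k (nat_lit 0x97e4e))) (a (v (nat_lit 8) (k (nat_lit 0x99ae6))) (v (nat_lit 7) (k (nat_lit 0x98586)))))))) (a (v (nat_lit 6) (a (v (nat_lit 9) (k (nat_lit 0x988b6))) (a (v (nat_lit 8) (k (nat_lit 0x97ffe))) (v (nat_lit 6) (k (nat_lit 0x99ce4)))))) (a (v (nat_lit 5) (a (v (nat_lit 9) (k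 (nat_lit 0x12ef64))) (v (nat_lit 7) (k (nat_lit 0x1316f4))))) (v (nat_lit 4) (a (u (nat_lit 6) (k (nat_lit 0x98928))) (a (v (nat_lit 5) (k (nat_lit 0x131880))) (v (nat_lit 4) (k (nat_lit 0x98ca0)))))))))) (v (nat_lit 3) (a (a (a (u (nat_lit 9) (v (nat_lit 9) (k (nat_lit 0x1320f0)))) (v (nat_lit 8) (u (nat_lit 9) (k (nat_lit 0x98e0e))))) (a (u (nat_lit 8) (v (nat_lit 8) (k (nat_lit 0x1319a0)))) (v (nat_lit 7) (u (nat_lit 9) (k (nat_lit 0x98e0e)))))) (a (a (u (nat_lit 7) (v (nat_lit 7) (k (nat_lit 0x1319a0)))) (u (nat_lit 6) (a (v (nat_lit 8) (k (nat_lit 0x98e0e))) (a (v (nat_lit 7) (k (nat_lit 0x98e0e))) (v (nat_lit 6) (k (nat_lit 0x1320f0))))))) (a (u (nat_lit 5) (a (a (v (nat_lit 9) (k (nat_lit 0x98e20))) (v (nat_lit 8) (k (nat_lit 0x98994)))) (a (v (nat_lit 7) (k (nat_lit 0x408b3ac))) (a (v (nat_lit 6) (k (nat_lit 0x98dcc))) (v (nat_lit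 5) (k (nat_lit 0x98c70))))))) (u (nat_lit 4) (a (a (v (nat_lit 9) (k (nat_lit 0x98e20))) (v (nat_lit 8) (k (nat_lit 0x408b3ac)))) (a (v (nat_lit 7) (k (nat_lit 0x98994))) (a (v (nat_lit 6) (k (nat_lit 0x98dcc))) (v (nat_lit 4) (k (nat_lit 0x98c70)))))))))))))))) (a (u (nat_lit 3) (a (a (a (v (nat_lit 7) (a (v (nat_lit 8) (a (v (nat_lit 9) (k (nat_lit 0x133b48))) (v (nat_lit 8) (k (nat_lit 0x1311a8))))) (v (nat_lit 7) (v (nat_lit 8) (k (nat_lit 0x1311a8)))))) (v (nat_lit 6) (a (v (nat_lit 7) (v (nat_lit 8) (k (nat_lit 0x133b48)))) (v (nat_lit 6) (u (nat_lit 9) (k (nat_lit 0x132210))))))) (a (u (nat_lit 6) (v (nat_lit 9) (v (nat_lit 9) (k (nat_lit 0x132210))))) (v (nat_lit 5) (a (a (v (nat_lit 9) (v (nat_lit 9) (k (nat_lit 0x980c4)))) (v (nat_lit 8) (a (v (nat_lit 9) (k (nat_lit 0x988b6))) (v (nat_lit 8) (k (nat_lit 0x99ce4)))))) (a (v (nat_lit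 7) (a (v (nat_lit 9) (k (nat_lit 0x99d50))) (v (nat_lit 8) (k (nat_lit 0x97ffe))))) (a (v (nat_lit 6) (a (v (nat_lit 9) (k (nat_lit 0x97e4e))) (a (v (nat_lit 7) (k (nat_lit 0x99ae6))) (v (nat_lit 6) (k (nat_lit 0x98586)))))) (v (nat_lit 5) (a (a (v (nat_lit 9) (k (nat_lit 0x98e20))) (v (nat_lit 8) (k (nat_lit 0x98dcc)))) (a (v (nat_lit 7) (k (nat_lit 0x408b3ac))) (v (nat_lit 6) (k (nat_lit 0x98994)))))))))))) (a (a (u (nat_lit 5) (a (v (nat_lit 6) (u (nat_lit 8) (k (nat_lit 0x9961e)))) (u (nat_lit 6) (v (nat_lit 8) (k (nat_lit 0x9961e)))))) (v (nat_lit 4) (a (a (v (nat_lit 9) (v (nat_lit 9) (k (nat_lit 0x980c4)))) (a (v (nat_lit 8) (v (nat_lit 9) (k (nat_lit 0x99d50)))) (v (nat_lit 7) (a (v (nat_lit 9) (k (nat_lit 0x988b6))) (a (v (nat_lit 8) (k (nat_lit 0x97ffe))) (v (nat_lit 7) (k (nat_lit 0x99ce4)))))))) (a (v (nat_lit 6) (a (v (nat_lit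 9) (k (nat_lit 0x97e4e))) (a (v (nat_lit 8) (k (nat_lit 0x99ae6))) (v (nat_lit 6) (k (nat_lit 0x98586)))))) (a (v (nat_lit 5) (a (v (nat_lit 9) (k (nat_lit 0x12ef64))) (v (nat_lit 6) (k (nat_lit 0x1316f4))))) (v (nat_lit 4) (a (a (v (nat_lit 9) (k (nat_lit 0x98e20))) (v (nat_lit 8) (k (nat_lit 0x408b3ac)))) (a (v (nat_lit 7) (k (nat_lit 0x98dcc))) (v (nat_lit 6) (k (nat_lit 0x98994))))))))))) (a (u (nat_lit 4) (a (v (nat_lit 6) (u (nat_lit 7) (k (nat_lit 0x9961e)))) (u (nat_lit 6) (v (nat_lit 7) (k (nat_lit 0x9961e)))))) (v (nat_lit 3) (a (a (a (v (nat_lit 9) (v (nat_lit 9) (k (nat_lit 0x1313b8)))) (v (nat_lit 8) (v (nat_lit 9) (k (nat_lit 0x98b32))))) (a (v (nat_lit 7) (a (v (nat_lit 9) (k (nat_lit 0x98b32))) (v (nat_lit 8) (k (nat_lit 0x263400))))) (v (nat_lit 6) (a (a (v (nat_lit 9) (k (nat_lit 0x263a18))) (v (nat_lit 8) (k (nat_lit 0x98b32))))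 (a (v (nat_lit 7) (k (nat_lit 0x98b32))) (v (nat_lit 6) (k (nat_lit 0x1313b8)))))))) (a (a (u (nat_lit 6) (u (nat_lit 9) (k (nat_lit 0x262ba8)))) (v (nat_lit 5) (a (u (nat_lit 8) (k (nat_lit 0x98928))) (v (nat_lit 5) (k (nat_lit 0x98c70)))))) (a (v (nat_lit 4) (a (u (nat_lit 7) (k (nat_lit 0x98928))) (a (v (nat_lit 5) (k (nat_lit 0x131880))) (v (nat_lit 4) (k (nat_lit 0x98c70)))))) (v (nat_lit 3) (a (a (a (v (nat_lit 9) (k (nat_lit 0x131a00))) (v (nat_lit 8) (k (nat_lit 0x131b08)))) (a (u (nat_lit 8) (k (nat_lit 0x131ac0))) (v (nat_lit 7) (k (nat_lit 0x131b08))))) (a (a (u (nat_lit 7) (k (nat_lit 0x131ac0))) (v (nat_lit 6) (k (nat_lit 0x131a00)))) (a (v (nat_lit 5) (k (nat_lit 0x98ca0))) (a (v (nat_lit 4) (k (nat_lit 0x98ca0))) (v (nat_lit 3) (k (nat_lit 0x2631c0)))))))))))))))) (v (nat_lit 2) (a (a (a (u (nat_lit 9) (v (nat_lit 9) (v (nat_lit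 9) (k (nat_lit 0x131b08))))) (a (v (nat_lit 8) (v (nat_lit 8) (u (nat_lit 9) (k (nat_lit 0x98cf4))))) (u (nat_lit 8) (a (v (nat_lit 9) (v (nat_lit 9) (k (nat_lit 0x98ca0)))) (v (nat_lit 8) (v (nat_lit 8) (k (nat_lit 0x131a00)))))))) (a (a (v (nat_lit 7) (a (u (nat_lit 8) (a (v (nat_lit 9) (k (nat_lit 0x99402))) (v (nat_lit 8) (k (nat_lit 0x1322b8))))) (v (nat_lit 7) (u (nat_lit 9) (k (nat_lit 0x98cf4)))))) (u (nat_lit 7) (a (a (v (nat_lit 9) (v (nat_lit 9) (k (nat_lit 0x98ca0)))) (v (nat_lit 8) (v (nat_lit 9) (k (nat_lit 0x99402))))) (a (u (nat_lit 8) (v (nat_lit 9) (k (nat_lit 0x13275c)))) (v (nat_lit 7) (a (v (nat_lit 8) (k (nat_lit 0x1322b8))) (v (nat_lit 7) (k (nat_lit 0x131a00))))))))) (a (v (nat_lit 6) (a (a (u (nat_lit 8) (v (nat_lit 9) (k (nat_lit 0x12f7f8)))) (v (nat_lit 7) (u (nat_lit 8) (k (nat_lit 0x99402))))) (a (u (nat_lit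 7) (a (v (nat_lit 9) (k (nat_lit 0x12f7f8))) (a (v (nat_lit 8) (k (nat_lit 0x99402))) (u (nat_lit 8) (k (nat_lit 0x13275c)))))) (v (nat_lit 6) (a (u (nat_lit 9) (k (nat_lit 0x132168))) (a (u (nat_lit 8) (k (nat_lit 0x98ca0))) (u (nat_lit 7) (k (nat_lit 0x98ca0))))))))) (u (nat_lit 6) (a (a (v (nat_lit 9) (v (nat_lit 9) (k (nat_lit 0x132168)))) (v (nat_lit 8) (v (nat_lit 8) (k (nat_lit 0x98cf4))))) (a (v (nat_lit 7) (v (nat_lit 7) (k (nat_lit 0x98cf4)))) (v (nat_lit 6) (v (nat_lit 6) (k (nat_lit 0x131b08)))))))))) (a (a (v (nat_lit 5) (a (a (u (nat_lit 9) (v (nat_lit 9) (k (nat_lit 0x981a8)))) (a (u (nat_lit 8) (a (v (nat_lit 9) (k (nat_lit 0x99fe4))) (v (nat_lit 8) (k (nat_lit 0x1331f4))))) (v (nat_lit 7) (a (u (nat_lit 9) (k (nat_lit 0x983be))) (u (nat_lit 8) (k (nat_lit 0x99fe4))))))) (a (u (nat_lit 7) (a (v (nat_lit 9) (k (nat_lit 0x983be)))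 (v (nat_lit 7) (k (nat_lit 0x981a8))))) (a (v (nat_lit 6) (u (nat_lit 8) (k (nat_lit 0x12f840)))) (u (nat_lit 6) (v (nat_lit 6) (k (nat_lit 0x131904)))))))) (a (u (nat_lit 5) (a (a (v (nat_lit 9) (v (nat_lit 9) (k (nat_lit 0x98586)))) (v (nat_lit 8) (a (v (nat_lit 9) (k (nat_lit 0x97e4e))) (v (nat_lit 8) (k (nat_lit 0x980c4)))))) (a (v (nat_lit 7) (a (v (nat_lit 8) (k (nat_lit 0x988b6))) (v (nat_lit 7) (k (nat_lit 0x99ce4))))) (a (v (nat_lit 6) (a (v (nat_lit 9) (k (nat_lit 0x99ae6))) (a (v (nat_lit 8) (k (nat_lit 0x99d50))) (v (nat_lit 7) (k (nat_lit 0x97ffe)))))) (v (nat_lit 5) (a (u (nat_lit 7) (k (nat_lit 0x98928))) (v (nat_lit 5) (k (nat_lit 0x98ca0))))))))) (v (nat_lit 4) (a (a (a (u (nat_lit 9) (v (nat_lit 9) (k (nat_lit 0x981a8)))) (v (nat_lit 8) (u (nat_lit 9) (k (nat_lit 0x983be))))) (a (u (nat_lit 8) (a (v (nat_lit 9) (k (nat_lit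 0x983be))) (v (nat_lit 8) (k (nat_lit 0x981a8))))) (u (nat_lit 7) (a (v (nat_lit 9) (k (nat_lit 0x99fe4))) (a (v (nat_lit 8) (k (nat_lit 0x99fe4))) (v (nat_lit 7) (k (nat_lit 0x1331f4)))))))) (a (a (v (nat_lit 6) (u (nat_lit 7) (k (nat_lit 0x12f840)))) (u (nat_lit 6) (v (nat_lit 6) (k (nat_lit 0x131904))))) (a (u (nat_lit 5) (a (v (nat_lit 7) (k (nat_lit 0x131b68))) (a (v (nat_lit 6) (k (nat_lit 0x131520))) (v (nat_lit 5) (k (nat_lit 0x131928)))))) (v (nat_lit 4) (u (nat_lit 5) (k (nat_lit 0x98dfc)))))))))) (a (a (u (nat_lit 4) (a (a (v (nat_lit 9) (v (nat_lit 9) (k (nat_lit 0x98586)))) (a (v (nat_lit 8) (v (nat_lit 8) (k (nat_lit 0x99ce4)))) (v (nat_lit 7) (a (v (nat_lit 9) (k (nat_lit 0x97e4e))) (a (v (nat_lit 8) (k (nat_lit 0x988b6))) (v (nat_lit 7) (k (nat_lit 0x980c4)))))))) (a (v (nat_lit 6) (a (v (nat_lit 9) (k (nat_lit 0x99ae6)))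 (a (v (nat_lit 8) (k (nat_lit 0x97ffe))) (v (nat_lit 7) (k (nat_lit 0x99d50)))))) (a (v (nat_lit 5) (a (v (nat_lit 8) (k (nat_lit 0x131b68))) (a (v (nat_lit 6) (k (nat_lit 0x131520))) (v (nat_lit 5) (k (nat_lit 0x98dfc)))))) (v (nat_lit 4) (a (u (nat_lit 8) (k (nat_lit 0x98928))) (a (v (nat_lit 5) (k (nat_lit 0x131928))) (v (nat_lit 4) (k (nat_lit 0x98ca0)))))))))) (v (nat_lit 3) (a (a (u (nat_lit 9) (v (nat_lit 9) (k (nat_lit 0x131bc8)))) (a (u (nat_lit 8) (v (nat_lit 8) (k (nat_lit 0x131bc8)))) (u (nat_lit 7) (v (nat_lit 7) (k (nat_lit 0x131bc8)))))) (a (a (u (nat_lit 6) (v (nat_lit 6) (k (nat_lit 0x131bc8)))) (u (nat_lit 5) (a (v (nat_lit 9) (k (nat_lit 0x993d2))) (a (v (nat_lit 8) (k (nat_lit 0x993d2))) (v (nat_lit 5) (k (nat_lit 0x1315f8))))))) (a (v (nat_lit 4) (u (nat_lit 5) (k (nat_lit 0x988e6)))) (u (nat_lit 4) (a (a (v (nat_lit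 9) (k (nat_lit 0x993d2))) (v (nat_lit 7) (k (nat_lit 0x993d2)))) (a (v (nat_lit 5) (k (nat_lit 0x988e6))) (v (nat_lit 4) (k (nat_lit 0x1315f8))))))))))) (a (u (nat_lit 3) (a (a (a (v (nat_lit 8) (v (nat_lit 9) (k (nat_lit 0x98c94)))) (v (nat_lit 7) (v (nat_lit 9) (k (nat_lit 0x98c94))))) (a (v (nat_lit 6) (a (v (nat_lit 9) (k (nat_lit 0x2635c8))) (a (v (nat_lit 8) (k (nat_lit 0x98c94))) (v (nat_lit 7) (k (nat_lit 0x98c94)))))) (v (nat_lit 5) (a (v (nat_lit 8) (k (nat_lit 0x98fee))) (v (nat_lit 6) (k (nat_lit 0x99036))))))) (a (a (u (nat_lit 5) (v (nat_lit 7) (k (nat_lit 0x991c2)))) (v (nat_lit 4) (a (v (nat_lit 7) (k (nat_lit 0x98fee))) (v (nat_lit 6) (k (nat_lit 0x99036)))))) (a (u (nat_lit 4) (v (nat_lit 8) (k (nat_lit 0x991c2)))) (v (nat_lit 3) (a (a (a (v (nat_lit 9) (k (nat_lit 0x131a90))) (v (nat_lit 8) (k (nat_lit 0x1314cc)))) (a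 (u (nat_lit 8) (k (nat_lit 0x131598))) (v (nat_lit 7) (k (nat_lit 0x1314cc))))) (a (a (u (nat_lit 7) (k (nat_lit 0x131598))) (v (nat_lit 6) (k (nat_lit 0x131a90)))) (a (v (nat_lit 5) (k (nat_lit 0x99288))) (a (v (nat_lit 4) (k (nat_lit 0x99288))) (v (nat_lit 3) (k (nat_lit 0x2629b0)))))))))))) (v (nat_lit 2) (a (a (a (u (nat_lit 9) (v (nat_lit 9) (k (nat_lit 0x1319a0)))) (u (nat_lit 8) (a (v (nat_lit 9) (k (nat_lit 0x98e0e))) (v (nat_lit 8) (k (nat_lit 0x1320f0)))))) (a (u (nat_lit 7) (a (v (nat_lit 9) (k (nat_lit 0x98e0e))) (v (nat_lit 7) (k (nat_lit 0x1320f0))))) (v (nat_lit 6) (a (u (nat_lit 8) (k (nat_lit 0x98e0e))) (u (nat_lit 7) (k (nat_lit 0x98e0e))))))) (a (a (u (nat_lit 6) (v (nat_lit 6) (k (nat_lit 0x1319a0)))) (u (nat_lit 5) (a (a (v (nat_lit 9) (k (nat_lit 0x98994))) (v (nat_lit 8) (k (nat_lit 0x98e20)))) (a (v (nat_lit 7) (k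 (nat_lit 0x98dcc))) (a (v (nat_lit 6) (k (nat_lit 0x408b3ac))) (v (nat_lit 5) (k (nat_lit 0x98c70)))))))) (a (v (nat_lit 4) (u (nat_lit 5) (k (nat_lit 0x98dfc)))) (a (u (nat_lit 4) (a (a (v (nat_lit 9) (k (nat_lit 0x98994))) (a (v (nat_lit 8) (k (nat_lit 0x98dcc))) (v (nat_lit 7) (k (nat_lit 0x98e20))))) (a (v (nat_lit 6) (k (nat_lit 0x408b3ac))) (a (v (nat_lit 5) (k (nat_lit 0x98dfc))) (v (nat_lit 4) (k (nat_lit 0x98c70))))))) (u (nat_lit 3) (v (nat_lit 3) (k (nat_lit 0x263220)))))))))))))))) (a (u (nat_lit 2) (a (a (a (v (nat_lit 7) (v (nat_lit 7) (u (nat_lit 8) (k (nat_lit 0x132210))))) (u (nat_lit 7) (v (nat_lit 8) (v (nat_lit 8) (k (nat_lit 0x132210)))))) (a (v (nat_lit 6) (a (a (v (nat_lit 9) (v (nat_lit 9) (k (nat_lit 0x1311a8)))) (v (nat_lit 8) (v (nat_lit 9) (k (nat_lit 0x133b48))))) (a (v (nat_lit 7) (v (nat_lit 9) (k (nat_lit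 0x133b48)))) (v (nat_lit 6) (v (nat_lit 9) (k (nat_lit 0x1311a8))))))) (a (v (nat_lit 5) (a (a (v (nat_lit 9) (v (nat_lit 9) (k (nat_lit 0x99ce4)))) (v (nat_lit 8) (a (v (nat_lit 9) (k (nat_lit 0x988b6))) (v (nat_lit 8) (k (nat_lit 0x980c4)))))) (a (v (nat_lit 7) (a (v (nat_lit 8) (k (nat_lit 0x97e4e))) (v (nat_lit 7) (k (nat_lit 0x98586))))) (a (v (nat_lit 6) (a (v (nat_lit 9) (k (nat_lit 0x97ffe))) (a (v (nat_lit 8) (k (nat_lit 0x99d50))) (v (nat_lit 7) (k (nat_lit 0x99ae6)))))) (v (nat_lit 5) (a (a (v (nat_lit 9) (k (nat_lit 0x98dcc))) (v (nat_lit 8) (k (nat_lit 0x98e20)))) (a (v (nat_lit 7) (k (nat_lit 0x98994))) (v (nat_lit 6) (k (nat_lit 0x408b3ac)))))))))) (u (nat_lit 5) (a (v (nat_lit 7) (u (nat_lit 9) (k (nat_lit 0x9961e)))) (u (nat_lit 7) (v (nat_lit 9) (k (nat_lit 0x9961e))))))))) (a (a (v (nat_lit 4) (a (a (v (nat_lit 9) (v (nat_lit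 9) (k (nat_lit 0x99ce4)))) (a (v (nat_lit 8) (v (nat_lit 8) (k (nat_lit 0x98586)))) (v (nat_lit 7) (a (v (nat_lit 9) (k (nat_lit 0x988b6))) (a (v (nat_lit 8) (k (nat_lit 0x97e4e))) (v (nat_lit 7) (k (nat_lit 0x980c4)))))))) (a (v (nat_lit 6) (a (v (nat_lit 9) (k (nat_lit 0x97ffe))) (a (v (nat_lit 8) (k (nat_lit 0x99ae6))) (v (nat_lit 7) (k (nat_lit 0x99d50)))))) (a (v (nat_lit 5) (a (v (nat_lit 9) (k (nat_lit 0x131b68))) (a (v (nat_lit 6) (k (nat_lit 0x131520))) (v (nat_lit 5) (k (nat_lit 0x98dfc)))))) (v (nat_lit 4) (a (a (v (nat_lit 9) (k (nat_lit 0x98dcc))) (v (nat_lit 8) (k (nat_lit 0x98994)))) (a (v (nat_lit 7) (k (nat_lit 0x98e20))) (a (v (nat_lit 6) (k (nat_lit 0x408b3ac))) (v (nat_lit 5) (k (nat_lit 0x98dfc))))))))))) (u (nat_lit 4) (a (a (v (nat_lit 8) (u (nat_lit 9) (k (nat_lit 0x9961e)))) (u (nat_lit 8) (v (nat_lit 9) (k (nat_lit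 0x9961e))))) (a (u (nat_lit 5) (u (nat_lit 5) (k (nat_lit 0x131b2c)))) (u (nat_lit 4) (u (nat_lit 5) (k (nat_lit 0x131b2c)))))))) (a (v (nat_lit 3) (a (a (v (nat_lit 8) (v (nat_lit 9) (k (nat_lit 0x98c94)))) (a (v (nat_lit 7) (a (v (nat_lit 9) (k (nat_lit 0x98c94))) (v (nat_lit 8) (k (nat_lit 0x2635c8))))) (v (nat_lit 6) (a (v (nat_lit 8) (k (nat_lit 0x98c94))) (v (nat_lit 7) (k (nat_lit 0x98c94))))))) (a (a (v (nat_lit 5) (a (v (nat_lit 9) (k (nat_lit 0x98fee))) (v (nat_lit 7) (k (nat_lit 0x99036))))) (u (nat_lit 5) (v (nat_lit 6) (k (nat_lit 0x991c2))))) (a (v (nat_lit 4) (a (v (nat_lit 9) (k (nat_lit 0x98fee))) (a (v (nat_lit 8) (k (nat_lit 0x99036))) (v (nat_lit 5) (k (nat_lit 0x13206c)))))) (u (nat_lit 4) (v (nat_lit 6) (k (nat_lit 0x991c2)))))))) (a (v (nat_lit 2) (a (a (a (v (nat_lit 8) (a (v (nat_lit 9) (k (nat_lit 0x98b32))) (v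 (nat_lit 8) (k (nat_lit 0x1313b8))))) (v (nat_lit 7) (a (v (nat_lit 9) (k (nat_lit 0x98b32))) (a (v (nat_lit 8) (k (nat_lit 0x263a18))) (v (nat_lit 7) (k (nat_lit 0x1313b8))))))) (a (u (nat_lit 7) (u (nat_lit 8) (k (nat_lit 0x262ba8)))) (v (nat_lit 6) (a (v (nat_lit 9) (k (nat_lit 0x263400))) (a (v (nat_lit 8) (k (nat_lit 0x98b32))) (v (nat_lit 7) (k (nat_lit 0x98b32)))))))) (a (a (v (nat_lit 5) (a (u (nat_lit 9) (k (nat_lit 0x98928))) (v (nat_lit 5) (k (nat_lit 0x98c70))))) (v (nat_lit 4) (a (u (nat_lit 9) (k (nat_lit 0x98928))) (a (v (nat_lit 5) (k (nat_lit 0x131928))) (v (nat_lit 4) (k (nat_lit 0x98c70))))))) (a (v (nat_lit 3) (a (a (a (v (nat_lit 9) (k (nat_lit 0x1314cc))) (u (nat_lit 9) (k (nat_lit 0x131598)))) (a (v (nat_lit 8) (k (nat_lit 0x131a90))) (v (nat_lit 7) (k (nat_lit 0x131a90))))) (a (a (v (nat_lit 6) (k (nat_lit 0x1314cc)))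 (u (nat_lit 6) (k (nat_lit 0x131598)))) (a (v (nat_lit 5) (k (nat_lit 0x99288))) (a (v (nat_lit 4) (k (nat_lit 0x99288))) (v (nat_lit 3) (k (nat_lit 0x263220)))))))) (v (nat_lit 2) (a (a (a (v (nat_lit 9) (k (nat_lit 0x131b08))) (u (nat_lit 9) (k (nat_lit 0x131ac0)))) (a (v (nat_lit 8) (k (nat_lit 0x131a00))) (a (v (nat_lit 7) (k (nat_lit 0x131a00))) (v (nat_lit 6) (k (nat_lit 0x131b08)))))) (a (a (u (nat_lit 6) (k (nat_lit 0x131ac0))) (v (nat_lit 5) (k (nat_lit 0x98ca0)))) (a (v (nat_lit 4) (k (nat_lit 0x98ca0))) (a (v (nat_lit 3) (k (nat_lit 0x2629b0))) (v (nat_lit 2) (k (nat_lit 0x2631c0)))))))))))) (u (nat_lit 2) (u (nat_lit 4) (u (nat_lit 5) (k (nat_lit 0x131b2c)))))))))) (a (t (nat_lit 2) (nat_lit 4) (nat_lit 5) (a (a (u (nat_lit 5) (a (v (nat_lit 9) (v (nat_lit 9) (k (nat_lit 0x4f643a)))) (a (v (nat_lit 8) (v (nat_lit 8) (k (nat_lit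 0x4f643a)))) (u (nat_lit 5) (u (nat_lit 5) (k (nat_lit 0x933c2b8))))))) (u (nat_lit 4) (a (v (nat_lit 9) (v (nat_lit 9) (k (nat_lit 0x4f643a)))) (a (v (nat_lit 7) (v (nat_lit 7) (k (nat_lit 0x4f643a)))) (u (nat_lit 4) (u (nat_lit 4) (k (nat_lit 0x933c2b8)))))))) (a (u (nat_lit 3) (a (v (nat_lit 8) (u (nat_lit 9) (k (nat_lit 0x995f4)))) (a (v (nat_lit 7) (a (u (nat_lit 9) (k (nat_lit 0x995f4))) (u (nat_lit 8) (k (nat_lit 0x1cfd2fe))))) (u (nat_lit 7) (v (nat_lit 8) (k (nat_lit 0x1cfd2fe))))))) (u (nat_lit 2) (a (a (v (nat_lit 8) (v (nat_lit 8) (k (nat_lit 0x4f643a)))) (v (nat_lit 7) (v (nat_lit 7) (k (nat_lit 0x4f643a))))) (a (u (nat_lit 4) (u (nat_lit 5) (k (nat_lit 0x29f4e0ac)))) (u (nat_lit 2) (u (nat_lit 2) (k (nat_lit 0x933c2b8)))))))))) (v (nat_lit 1) (a (a (a (a (u (nat_lit 9) (v (nat_lit 9) (v (nat_lit 9) (k (nat_lit 0x131b08)))))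 (v (nat_lit 8) (v (nat_lit 8) (u (nat_lit 9) (k (nat_lit 0x98cf4)))))) (a (u (nat_lit 8) (a (v (nat_lit 9) (v (nat_lit 9) (k (nat_lit 0x98ca0)))) (v (nat_lit 8) (v (nat_lit 8) (k (nat_lit 0x131a00)))))) (v (nat_lit 7) (a (u (nat_lit 8) (v (nat_lit 9) (k (nat_lit 0x12f7f8)))) (v (nat_lit 7) (a (u (nat_lit 9) (k (nat_lit 0x132168))) (u (nat_lit 8) (k (nat_lit 0x98ca0))))))))) (a (a (u (nat_lit 7) (a (v (nat_lit 9) (v (nat_lit 9) (k (nat_lit 0x132168)))) (a (v (nat_lit 8) (v (nat_lit 8) (k (nat_lit 0x98cf4)))) (v (nat_lit 7) (v (nat_lit 7) (k (nat_lit 0x131b08))))))) (v (nat_lit 6) (a (u (nat_lit 8) (a (v (nat_lit 9) (k (nat_lit 0x99402))) (v (nat_lit 8) (k (nat_lit 0x1322b8))))) (a (v (nat_lit 7) (u (nat_lit 8) (k (nat_lit 0x99402)))) (v (nat_lit 6) (a (u (nat_lit 9) (k (nat_lit 0x98cf4))) (u (nat_lit 7) (k (nat_lit 0x98cf4))))))))) (a (u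 (nat_lit 6) (a (a (v (nat_lit 9) (v (nat_lit 9) (k (nat_lit 0x98ca0)))) (v (nat_lit 8) (v (nat_lit 9) (k (nat_lit 0x99402))))) (a (u (nat_lit 8) (v (nat_lit 9) (k (nat_lit 0x13275c)))) (a (v (nat_lit 7) (a (a (v (nat_lit 9) (k (nat_lit 0x12f7f8))) (v (nat_lit 8) (k (nat_lit 0x99402)))) (a (u (nat_lit 8) (k (nat_lit 0x13275c))) (v (nat_lit 7) (k (nat_lit 0x98ca0)))))) (v (nat_lit 6) (a (v (nat_lit 8) (k (nat_lit 0x1322b8))) (v (nat_lit 6) (k (nat_lit 0x131a00))))))))) (v (nat_lit 5) (a (a (u (nat_lit 9) (v (nat_lit 9) (k (nat_lit 0x981a8)))) (a (u (nat_lit 8) (a (v (nat_lit 9) (k (nat_lit 0x99fe4))) (v (nat_lit 8) (k (nat_lit 0x1331f4))))) (v (nat_lit 7) (u (nat_lit 8) (k (nat_lit 0x12f840)))))) (a (u (nat_lit 7) (v (nat_lit 7) (k (nat_lit 0x131904)))) (a (v (nat_lit 6) (a (u (nat_lit 9) (k (nat_lit 0x983be))) (u (nat_lit 8) (k (nat_lit 0x99fe4)))))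 (u (nat_lit 6) (a (v (nat_lit 9) (k (nat_lit 0x983be))) (v (nat_lit 6) (k (nat_lit 0x981a8)))))))))))) (a (a (a (u (nat_lit 5) (a (a (v (nat_lit 9) (v (nat_lit 9) (k (nat_lit 0x98586)))) (v (nat_lit 8) (a (v (nat_lit 9) (k (nat_lit 0x97e4e))) (v (nat_lit 8) (k (nat_lit 0x980c4)))))) (a (v (nat_lit 7) (a (v (nat_lit 9) (k (nat_lit 0x99ae6))) (v (nat_lit 8) (k (nat_lit 0x99d50))))) (a (v (nat_lit 6) (a (v (nat_lit 8) (k (nat_lit 0x988b6))) (a (v (nat_lit 7) (k (nat_lit 0x97ffe))) (v (nat_lit 6) (k (nat_lit 0x99ce4)))))) (v (nat_lit 5) (a (u (nat_lit 6) (k (nat_lit 0x98928))) (v (nat_lit 5) (k (nat_lit 0x98ca0))))))))) (v (nat_lit 4) (a (a (u (nat_lit 9) (v (nat_lit 9) (k (nat_lit 0x131bc8)))) (u (nat_lit 8) (v (nat_lit 8) (k (nat_lit 0x131bc8))))) (a (u (nat_lit 7) (v (nat_lit 7) (k (nat_lit 0x131bc8)))) (a (u (nat_lit 6) (v (nat_lit 6) (k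 (nat_lit 0x131bc8)))) (u (nat_lit 5) (a (v (nat_lit 9) (k (nat_lit 0x993d2))) (a (v (nat_lit 8) (k (nat_lit 0x993d2))) (v (nat_lit 5) (k (nat_lit 0x1315f8))))))))))) (a (u (nat_lit 4) (a (a (v (nat_lit 8) (v (nat_lit 9) (k (nat_lit 0x98c94)))) (a (v (nat_lit 7) (a (v (nat_lit 9) (k (nat_lit 0x2635c8))) (v (nat_lit 8) (k (nat_lit 0x98c94))))) (v (nat_lit 6) (a (v (nat_lit 9) (k (nat_lit 0x98c94))) (v (nat_lit 7) (k (nat_lit 0x98c94))))))) (a (v (nat_lit 5) (a (v (nat_lit 8) (k (nat_lit 0x98fee))) (v (nat_lit 7) (k (nat_lit 0x99036))))) (a (u (nat_lit 5) (v (nat_lit 6) (k (nat_lit 0x991c2)))) (v (nat_lit 4) (a (a (a (v (nat_lit 9) (k (nat_lit 0x131a90))) (v (nat_lit 8) (k (nat_lit 0x1314cc)))) (a (u (nat_lit 8) (k (nat_lit 0x131598))) (v (nat_lit 7) (k (nat_lit 0x131a90))))) (a (a (v (nat_lit 6) (k (nat_lit 0x1314cc))) (u (nat_lit 6) (k (nat_lit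 0x131598)))) (a (v (nat_lit 5) (k (nat_lit 0x99288))) (v (nat_lit 4) (k (nat_lit 0x2629b0))))))))))) (v (nat_lit 3) (a (a (a (u (nat_lit 9) (v (nat_lit 9) (k (nat_lit 0x981a8)))) (v (nat_lit 8) (u (nat_lit 9) (k (nat_lit 0x983be))))) (a (u (nat_lit 8) (a (v (nat_lit 9) (k (nat_lit 0x983be))) (v (nat_lit 8) (k (nat_lit 0x981a8))))) (u (nat_lit 7) (v (nat_lit 7) (k (nat_lit 0x131904)))))) (a (a (u (nat_lit 6) (a (a (v (nat_lit 9) (k (nat_lit 0x99fe4))) (v (nat_lit 8) (k (nat_lit 0x99fe4)))) (a (v (nat_lit 7) (k (nat_lit 0x12f840))) (v (nat_lit 6) (k (nat_lit 0x1331f4)))))) (u (nat_lit 5) (a (v (nat_lit 7) (k (nat_lit 0x131520))) (a (v (nat_lit 6) (k (nat_lit 0x131b68))) (v (nat_lit 5) (k (nat_lit 0x131928))))))) (a (v (nat_lit 4) (u (nat_lit 5) (k (nat_lit 0x988e6)))) (a (u (nat_lit 4) (a (v (nat_lit 7) (k (nat_lit 0x99036))) (a (v (nat_lit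 6) (k (nat_lit 0x98fee))) (v (nat_lit 4) (k (nat_lit 0x99288)))))) (v (nat_lit 3) (u (nat_lit 5) (k (nat_lit 0x98dfc))))))))))) (a (a (u (nat_lit 3) (a (a (a (v (nat_lit 9) (v (nat_lit 9) (k (nat_lit 0x98586)))) (v (nat_lit 8) (v (nat_lit 8) (k (nat_lit 0x99ce4))))) (a (v (nat_lit 7) (a (v (nat_lit 9) (k (nat_lit 0x99ae6))) (v (nat_lit 8) (k (nat_lit 0x97ffe))))) (v (nat_lit 6) (a (a (v (nat_lit 9) (k (nat_lit 0x97e4e))) (v (nat_lit 8) (k (nat_lit 0x988b6)))) (a (v (nat_lit 7) (k (nat_lit 0x99d50))) (v (nat_lit 6) (k (nat_lit 0x980c4)))))))) (a (a (v (nat_lit 5) (a (v (nat_lit 8) (k (nat_lit 0x131b68))) (a (v (nat_lit 7) (k (nat_lit 0x131520))) (v (nat_lit 5) (k (nat_lit 0x98dfc)))))) (v (nat_lit 4) (a (v (nat_lit 9) (k (nat_lit 0x993d2))) (a (v (nat_lit 6) (k (nat_lit 0x993d2))) (v (nat_lit 5) (k (nat_lit 0x988e6))))))) (a (u (nat_lit 4)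 (v (nat_lit 8) (k (nat_lit 0x991c2)))) (v (nat_lit 3) (a (a (u (nat_lit 8) (k (nat_lit 0x98928))) (v (nat_lit 5) (k (nat_lit 0x131928)))) (a (v (nat_lit 4) (k (nat_lit 0x1315f8))) (v (nat_lit 3) (k (nat_lit 0x98ca0)))))))))) (v (nat_lit 2) (a (a (a (u (nat_lit 9) (v (nat_lit 9) (k (nat_lit 0x131904)))) (u (nat_lit 8) (a (v (nat_lit 9) (k (nat_lit 0x12f840))) (v (nat_lit 8) (k (nat_lit 0x1331f4)))))) (a (v (nat_lit 7) (u (nat_lit 8) (k (nat_lit 0x99fe4)))) (a (u (nat_lit 7) (v (nat_lit 7) (k (nat_lit 0x981a8)))) (v (nat_lit 6) (a (u (nat_lit 8) (k (nat_lit 0x99fe4))) (u (nat_lit 7) (k (nat_lit 0x983be)))))))) (a (a (u (nat_lit 6) (a (v (nat_lit 7) (k (nat_lit 0x983be))) (v (nat_lit 6) (k (nat_lit 0x981a8))))) (a (u (nat_lit 5) (a (v (nat_lit 9) (k (nat_lit 0x1316f4))) (a (v (nat_lit 8) (k (nat_lit 0x12ef64))) (v (nat_lit 5) (k (nat_lit 0x131880))))))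 (v (nat_lit 4) (u (nat_lit 5) (k (nat_lit 0x988e6)))))) (a (u (nat_lit 4) (a (a (v (nat_lit 9) (k (nat_lit 0x99036))) (v (nat_lit 8) (k (nat_lit 0x98fee)))) (a (v (nat_lit 5) (k (nat_lit 0x13206c))) (v (nat_lit 4) (k (nat_lit 0x99288)))))) (a (v (nat_lit 3) (a (u (nat_lit 5) (k (nat_lit 0x988e6))) (u (nat_lit 4) (k (nat_lit 0x1306a4))))) (u (nat_lit 3) (a (a (v (nat_lit 9) (k (nat_lit 0x99036))) (v (nat_lit 8) (k (nat_lit 0x98fee)))) (a (v (nat_lit 5) (k (nat_lit 0x13206c))) (a (v (nat_lit 4) (k (nat_lit 0x1306a4))) (v (nat_lit 3) (k (nat_lit 0x99288))))))))))))) (a (u (nat_lit 2) (a (a (a (v (nat_lit 8) (a (v (nat_lit 9) (k (nat_lit 0x99d50))) (v (nat_lit 8) (k (nat_lit 0x980c4))))) (v (nat_lit 7) (a (v (nat_lit 9) (k (nat_lit 0x99ae6))) (a (v (nat_lit 8) (k (nat_lit 0x97e4e))) (v (nat_lit 7) (k (nat_lit 0x98586))))))) (a (v (nat_lit 6)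 (a (v (nat_lit 9) (k (nat_lit 0x97ffe))) (a (v (nat_lit 8) (k (nat_lit 0x988b6))) (v (nat_lit 6) (k (nat_lit 0x99ce4)))))) (v (nat_lit 5) (a (v (nat_lit 8) (k (nat_lit 0x12ef64))) (v (nat_lit 7) (k (nat_lit 0x1316f4))))))) (a (a (v (nat_lit 4) (a (v (nat_lit 8) (k (nat_lit 0x993d2))) (a (v (nat_lit 7) (k (nat_lit 0x993d2))) (v (nat_lit 5) (k (nat_lit 0x988e6)))))) (u (nat_lit 4) (v (nat_lit 6) (k (nat_lit 0x991c2))))) (a (v (nat_lit 3) (a (v (nat_lit 7) (k (nat_lit 0x99036))) (a (v (nat_lit 6) (k (nat_lit 0x98fee))) (v (nat_lit 4) (k (nat_lit 0x1306a4)))))) (a (u (nat_lit 3) (u (nat_lit 4) (k (nat_lit 0x131eb0)))) (v (nat_lit 2) (a (a (u (nat_lit 6) (k (nat_lit 0x98928))) (v (nat_lit 5) (k (nat_lit 0x131880)))) (a (v (nat_lit 4) (k (nat_lit 0x1315f8))) (a (v (nat_lit 3) (k (nat_lit 0x99288))) (v (nat_lit 2) (k (nat_lit 0x98ca0))))))))))))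 (v (nat_lit 1) (a (a (a (u (nat_lit 9) (v (nat_lit 9) (k (nat_lit 0x1319a0)))) (u (nat_lit 8) (a (v (nat_lit 9) (k (nat_lit 0x98e0e))) (v (nat_lit 8) (k (nat_lit 0x1320f0)))))) (a (v (nat_lit 7) (u (nat_lit 8) (k (nat_lit 0x98e0e)))) (a (u (nat_lit 7) (v (nat_lit 7) (k (nat_lit 0x1319a0)))) (u (nat_lit 6) (a (v (nat_lit 9) (k (nat_lit 0x98e0e))) (a (v (nat_lit 7) (k (nat_lit 0x98e0e))) (v (nat_lit 6) (k (nat_lit 0x1320f0))))))))) (a (a (u (nat_lit 5) (a (a (v (nat_lit 9) (k (nat_lit 0x98994))) (v (nat_lit 8) (k (nat_lit 0x98e20)))) (a (v (nat_lit 7) (k (nat_lit 0x408b3ac))) (a (v (nat_lit 6) (k (nat_lit 0x98dcc))) (v (nat_lit 5) (k (nat_lit 0x98c70))))))) (u (nat_lit 4) (v (nat_lit 4) (k (nat_lit 0x263220))))) (a (v (nat_lit 3) (u (nat_lit 5) (k (nat_lit 0x98dfc)))) (a (u (nat_lit 3) (a (a (v (nat_lit 9) (k (nat_lit 0x98994))) (a (v (nat_lit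 8) (k (nat_lit 0x98dcc))) (v (nat_lit 7) (k (nat_lit 0x408b3ac))))) (a (v (nat_lit 6) (k (nat_lit 0x98e20))) (a (v (nat_lit 5) (k (nat_lit 0x98dfc))) (v (nat_lit 3) (k (nat_lit 0x98c70))))))) (u (nat_lit 2) (a (a (v (nat_lit 9) (k (nat_lit 0x408b3ac))) (v (nat_lit 8) (k (nat_lit 0x98e20)))) (a (v (nat_lit 7) (k (nat_lit 0x98994))) (a (v (nat_lit 6) (k (nat_lit 0x98dcc))) (v (nat_lit 2) (k (nat_lit 0x98c70)))))))))))))))))))) (a (a (u (nat_lit 1) (a (a (a (v (nat_lit 7) (a (v (nat_lit 9) (v (nat_lit 9) (k (nat_lit 0x1311a8)))) (a (v (nat_lit 8) (v (nat_lit 9) (k (nat_lit 0x133b48)))) (v (nat_lit 7) (v (nat_lit 9) (k (nat_lit 0x1311a8))))))) (a (v (nat_lit 6) (a (v (nat_lit 7) (v (nat_lit 9) (k (nat_lit 0x133b48)))) (v (nat_lit 6) (u (nat_lit 8) (k (nat_lit 0x132210)))))) (u (nat_lit 6) (v (nat_lit 8) (v (nat_lit 8) (k (nat_lit 0x132210)))))))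 (a (v (nat_lit 5) (a (a (v (nat_lit 9) (v (nat_lit 9) (k (nat_lit 0x99ce4)))) (v (nat_lit 8) (a (v (nat_lit 9) (k (nat_lit 0x988b6))) (v (nat_lit 8) (k (nat_lit 0x980c4)))))) (a (v (nat_lit 7) (a (v (nat_lit 9) (k (nat_lit 0x97ffe))) (v (nat_lit 8) (k (nat_lit 0x99d50))))) (a (v (nat_lit 6) (a (v (nat_lit 8) (k (nat_lit 0x97e4e))) (a (v (nat_lit 7) (k (nat_lit 0x99ae6))) (v (nat_lit 6) (k (nat_lit 0x98586)))))) (v (nat_lit 5) (a (a (v (nat_lit 9) (k (nat_lit 0x98dcc))) (v (nat_lit 8) (k (nat_lit 0x98e20)))) (a (v (nat_lit 7) (k (nat_lit 0x408b3ac))) (v (nat_lit 6) (k (nat_lit 0x98994)))))))))) (a (u (nat_lit 5) (a (v (nat_lit 6) (u (nat_lit 9) (k (nat_lit 0x9961e)))) (u (nat_lit 6) (v (nat_lit 9) (k (nat_lit 0x9961e)))))) (v (nat_lit 4) (a (a (v (nat_lit 8) (v (nat_lit 9) (k (nat_lit 0x98c94)))) (v (nat_lit 7) (v (nat_lit 8) (k (nat_lit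 0x98c94))))) (a (v (nat_lit 6) (a (v (nat_lit 9) (k (nat_lit 0x98c94))) (a (v (nat_lit 8) (k (nat_lit 0x2635c8))) (v (nat_lit 7) (k (nat_lit 0x98c94)))))) (a (v (nat_lit 5) (a (v (nat_lit 9) (k (nat_lit 0x98fee))) (v (nat_lit 6) (k (nat_lit 0x99036))))) (u (nat_lit 5) (v (nat_lit 7) (k (nat_lit 0x991c2))))))))))) (a (a (v (nat_lit 3) (a (a (v (nat_lit 9) (v (nat_lit 9) (k (nat_lit 0x99ce4)))) (a (v (nat_lit 8) (v (nat_lit 8) (k (nat_lit 0x98586)))) (v (nat_lit 7) (a (v (nat_lit 9) (k (nat_lit 0x97ffe))) (v (nat_lit 8) (k (nat_lit 0x99ae6))))))) (a (a (v (nat_lit 6) (a (a (v (nat_lit 9) (k (nat_lit 0x988b6))) (v (nat_lit 8) (k (nat_lit 0x97e4e)))) (a (v (nat_lit 7) (k (nat_lit 0x99d50))) (v (nat_lit 6) (k (nat_lit 0x980c4)))))) (v (nat_lit 5) (a (v (nat_lit 9) (k (nat_lit 0x131b68))) (a (v (nat_lit 7) (k (nat_lit 0x131520))) (v (nat_lit 5)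 (k (nat_lit 0x98dfc))))))) (a (v (nat_lit 4) (a (v (nat_lit 9) (k (nat_lit 0x98fee))) (a (v (nat_lit 8) (k (nat_lit 0x99036))) (v (nat_lit 5) (k (nat_lit 0x13206c)))))) (v (nat_lit 3) (a (a (v (nat_lit 9) (k (nat_lit 0x98dcc))) (v (nat_lit 8) (k (nat_lit 0x98994)))) (a (v (nat_lit 7) (k (nat_lit 0x408b3ac))) (a (v (nat_lit 6) (k (nat_lit 0x98e20))) (v (nat_lit 5) (k (nat_lit 0x98dfc))))))))))) (a (u (nat_lit 3) (a (a (v (nat_lit 8) (u (nat_lit 9) (k (nat_lit 0x9961e)))) (u (nat_lit 8) (v (nat_lit 9) (k (nat_lit 0x9961e))))) (a (u (nat_lit 5) (u (nat_lit 5) (k (nat_lit 0x131b2c)))) (a (v (nat_lit 4) (v (nat_lit 7) (k (nat_lit 0x991c2)))) (u (nat_lit 3) (u (nat_lit 5) (k (nat_lit 0x131b2c)))))))) (v (nat_lit 2) (a (a (a (v (nat_lit 8) (a (v (nat_lit 9) (k (nat_lit 0x99d50))) (v (nat_lit 8) (k (nat_lit 0x980c4))))) (v (nat_lit 7) (a (v (nat_lit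 9) (k (nat_lit 0x97ffe))) (a (v (nat_lit 8) (k (nat_lit 0x988b6))) (v (nat_lit 7) (k (nat_lit 0x99ce4))))))) (a (v (nat_lit 6) (a (v (nat_lit 9) (k (nat_lit 0x99ae6))) (a (v (nat_lit 8) (k (nat_lit 0x97e4e))) (v (nat_lit 6) (k (nat_lit 0x98586)))))) (v (nat_lit 5) (a (v (nat_lit 8) (k (nat_lit 0x12ef64))) (v (nat_lit 6) (k (nat_lit 0x1316f4))))))) (a (a (v (nat_lit 4) (a (v (nat_lit 7) (k (nat_lit 0x98fee))) (v (nat_lit 6) (k (nat_lit 0x99036))))) (v (nat_lit 3) (a (a (v (nat_lit 8) (k (nat_lit 0x993d2))) (v (nat_lit 6) (k (nat_lit 0x993d2)))) (a (v (nat_lit 5) (k (nat_lit 0x988e6))) (v (nat_lit 4) (k (nat_lit 0x1306a4))))))) (a (u (nat_lit 3) (a (v (nat_lit 7) (k (nat_lit 0x991c2))) (u (nat_lit 4) (k (nat_lit 0x131eb0))))) (v (nat_lit 2) (a (a (v (nat_lit 9) (k (nat_lit 0x408b3ac))) (v (nat_lit 8) (k (nat_lit 0x98e20)))) (a (v (nat_lit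 7) (k (nat_lit 0x98dcc))) (v (nat_lit 6) (k (nat_lit 0x98994)))))))))))) (a (a (u (nat_lit 2) (a (a (v (nat_lit 6) (u (nat_lit 7) (k (nat_lit 0x9961e)))) (u (nat_lit 6) (v (nat_lit 7) (k (nat_lit 0x9961e))))) (a (v (nat_lit 4) (v (nat_lit 9) (k (nat_lit 0x991c2)))) (a (v (nat_lit 3) (a (v (nat_lit 9) (k (nat_lit 0x991c2))) (u (nat_lit 4) (k (nat_lit 0x131eb0))))) (u (nat_lit 3) (v (nat_lit 4) (k (nat_lit 0x131eb0)))))))) (t (nat_lit 2) (nat_lit 4) (nat_lit 5) (a (u (nat_lit 8) (v (nat_lit 9) (k (nat_lit 0x995f4)))) (a (v (nat_lit 7) (a (u (nat_lit 9) (k (nat_lit 0x1cfd2fe))) (u (nat_lit 8) (k (nat_lit 0x995f4))))) (u (nat_lit 7) (v (nat_lit 9) (k (nat_lit 0x1cfd2fe)))))))) (a (v (nat_lit 1) (a (a (a (v (nat_lit 8) (a (v (nat_lit 9) (k (nat_lit 0x98b32))) (v (nat_lit 8) (k (nat_lit 0x1313b8))))) (v (nat_lit 7) (a (v (nat_lit 9) (k (nat_lit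 0x263400))) (v (nat_lit 8) (k (nat_lit 0x98b32)))))) (a (v (nat_lit 6) (a (a (v (nat_lit 9) (k (nat_lit 0x98b32))) (v (nat_lit 8) (k (nat_lit 0x263a18)))) (a (v (nat_lit 7) (k (nat_lit 0x98b32))) (v (nat_lit 6) (k (nat_lit 0x1313b8)))))) (u (nat_lit 6) (u (nat_lit 8) (k (nat_lit 0x262ba8)))))) (a (a (v (nat_lit 5) (a (u (nat_lit 9) (k (nat_lit 0x98928))) (v (nat_lit 5) (k (nat_lit 0x98c70))))) (v (nat_lit 4) (a (a (a (v (nat_lit 9) (k (nat_lit 0x1314cc))) (u (nat_lit 9) (k (nat_lit 0x131598)))) (a (v (nat_lit 8) (k (nat_lit 0x131a90))) (v (nat_lit 7) (k (nat_lit 0x1314cc))))) (a (a (u (nat_lit 7) (k (nat_lit 0x131598))) (v (nat_lit 6) (k (nat_lit 0x131a90)))) (a (v (nat_lit 5) (k (nat_lit 0x99288))) (v (nat_lit 4) (k (nat_lit 0x263220)))))))) (a (v (nat_lit 3) (a (a (u (nat_lit 9) (k (nat_lit 0x98928))) (v (nat_lit 5) (k (nat_lit 0x131928))))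 (a (v (nat_lit 4) (k (nat_lit 0x99288))) (v (nat_lit 3) (k (nat_lit 0x98c70)))))) (a (v (nat_lit 2) (a (a (u (nat_lit 7) (k (nat_lit 0x98928))) (v (nat_lit 5) (k (nat_lit 0x131880)))) (a (v (nat_lit 4) (k (nat_lit 0x99288))) (a (v (nat_lit 3) (k (nat_lit 0x1315f8))) (v (nat_lit 2) (k (nat_lit 0x98c70))))))) (v (nat_lit 1) (a (a (a (v (nat_lit 9) (k (nat_lit 0x131b08))) (u (nat_lit 9) (k (nat_lit 0x131ac0)))) (a (v (nat_lit 8) (k (nat_lit 0x131a00))) (a (v (nat_lit 7) (k (nat_lit 0x131b08))) (u (nat_lit 7) (k (nat_lit 0x131ac0)))))) (a (a (v (nat_lit 6) (k (nat_lit 0x131a00))) (a (v (nat_lit 5) (k (nat_lit 0x98ca0))) (v (nat_lit 4) (k (nat_lit 0x2629b0))))) (a (v (nat_lit 3) (k (nat_lit 0x98ca0))) (a (v (nat_lit 2) (k (nat_lit 0x98ca0))) (v (nat_lit 1) (k (nat_lit 0x2631c0))))))))))))) (u (nat_lit 1) (u (nat_lit 3) (u (nat_lit 5) (k (nat_lit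 0x131b2c)))))))))) (a (t (nat_lit 1) (nat_lit 3) (nat_lit 5) (a (a (u (nat_lit 5) (a (v (nat_lit 9) (v (nat_lit 9) (k (nat_lit 0x4f643a)))) (a (v (nat_lit 8) (v (nat_lit 8) (k (nat_lit 0x4f643a)))) (u (nat_lit 5) (u (nat_lit 5) (k (nat_lit 0x933c2b8))))))) (u (nat_lit 4) (a (v (nat_lit 8) (u (nat_lit 9) (k (nat_lit 0x995f4)))) (a (v (nat_lit 6) (a (u (nat_lit 9) (k (nat_lit 0x995f4))) (u (nat_lit 8) (k (nat_lit 0x1cfd2fe))))) (u (nat_lit 6) (v (nat_lit 8) (k (nat_lit 0x1cfd2fe)))))))) (a (u (nat_lit 3) (a (v (nat_lit 9) (v (nat_lit 9) (k (nat_lit 0x4f643a)))) (a (v (nat_lit 6) (v (nat_lit 6) (k (nat_lit 0x4f643a)))) (u (nat_lit 3) (u (nat_lit 3) (k (nat_lit 0x933c2b8))))))) (a (u (nat_lit 2) (a (u (nat_lit 8) (v (nat_lit 9) (k (nat_lit 0x995f4)))) (a (v (nat_lit 6) (a (u (nat_lit 9) (k (nat_lit 0x1cfd2fe))) (u (nat_lit 8) (k (nat_lit 0x995f4)))))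 (u (nat_lit 6) (v (nat_lit 9) (k (nat_lit 0x1cfd2fe))))))) (u (nat_lit 1) (a (a (v (nat_lit 8) (v (nat_lit 8) (k (nat_lit 0x4f643a)))) (v (nat_lit 6) (v (nat_lit 6) (k (nat_lit 0x4f643a))))) (a (u (nat_lit 3) (u (nat_lit 5) (k (nat_lit 0x29f4e0ac)))) (u (nat_lit 1) (u (nat_lit 1) (k (nat_lit 0x933c2b8))))))))))) (v (nat_lit 0) (a (a (a (a (u (nat_lit 9) (v (nat_lit 9) (v (nat_lit 9) (k (nat_lit 0x131b08))))) (v (nat_lit 8) (v (nat_lit 8) (u (nat_lit 9) (k (nat_lit 0x132168)))))) (a (u (nat_lit 8) (a (v (nat_lit 9) (v (nat_lit 9) (k (nat_lit 0x132168)))) (v (nat_lit 8) (v (nat_lit 8) (k (nat_lit 0x131b08)))))) (v (nat_lit 7) (v (nat_lit 7) (a (u (nat_lit 9) (k (nat_lit 0x98cf4))) (u (nat_lit 8) (k (nat_lit 0x98cf4)))))))) (a (a (u (nat_lit 7) (a (v (nat_lit 9) (v (nat_lit 9) (k (nat_lit 0x98ca0)))) (a (v (nat_lit 8) (a (v (nat_lit 9) (k (nat_lit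 0x12f7f8))) (v (nat_lit 8) (k (nat_lit 0x98ca0))))) (v (nat_lit 7) (v (nat_lit 7) (k (nat_lit 0x131a00))))))) (v (nat_lit 6) (a (u (nat_lit 7) (a (v (nat_lit 9) (k (nat_lit 0x99402))) (a (v (nat_lit 8) (k (nat_lit 0x99402))) (v (nat_lit 7) (k (nat_lit 0x1322b8)))))) (v (nat_lit 6) (a (u (nat_lit 9) (k (nat_lit 0x98cf4))) (u (nat_lit 8) (k (nat_lit 0x98cf4)))))))) (a (u (nat_lit 6) (a (a (v (nat_lit 9) (v (nat_lit 9) (k (nat_lit 0x98ca0)))) (v (nat_lit 8) (a (v (nat_lit 9) (k (nat_lit 0x12f7f8))) (v (nat_lit 8) (k (nat_lit 0x98ca0)))))) (a (v (nat_lit 7) (a (v (nat_lit 9) (k (nat_lit 0x99402))) (v (nat_lit 8) (k (nat_lit 0x99402))))) (a (u (nat_lit 7) (a (v (nat_lit 9) (k (nat_lit 0x13275c))) (v (nat_lit 8) (k (nat_lit 0x13275c))))) (v (nat_lit 6) (a (v (nat_lit 7) (k (nat_lit 0x1322b8))) (v (nat_lit 6) (k (nat_lit 0x131a00))))))))) (a (v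 (nat_lit 5) (a (a (u (nat_lit 9) (v (nat_lit 9) (k (nat_lit 0x131bc8)))) (u (nat_lit 8) (v (nat_lit 8) (k (nat_lit 0x131bc8))))) (a (u (nat_lit 7) (v (nat_lit 7) (k (nat_lit 0x131bc8)))) (u (nat_lit 6) (v (nat_lit 6) (k (nat_lit 0x131bc8))))))) (u (nat_lit 5) (a (a (v (nat_lit 8) (v (nat_lit 9) (k (nat_lit 0x2635c8)))) (v (nat_lit 7) (a (v (nat_lit 9) (k (nat_lit 0x98c94))) (v (nat_lit 8) (k (nat_lit 0x98c94)))))) (a (v (nat_lit 6) (a (v (nat_lit 9) (k (nat_lit 0x98c94))) (v (nat_lit 8) (k (nat_lit 0x98c94))))) (v (nat_lit 5) (a (a (v (nat_lit 9) (k (nat_lit 0x131a90))) (a (v (nat_lit 8) (k (nat_lit 0x131a90))) (v (nat_lit 7) (k (nat_lit 0x1314cc))))) (a (a (u (nat_lit 7) (k (nat_lit 0x131598))) (v (nat_lit 6) (k (nat_lit 0x1314cc)))) (a (u (nat_lit 6) (k (nat_lit 0x131598))) (v (nat_lit 5) (k (nat_lit 0x2629b0)))))))))))))) (a (a (a (v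 (nat_lit 4) (a (a (u (nat_lit 9) (v (nat_lit 9) (k (nat_lit 0x981a8)))) (a (u (nat_lit 8) (v (nat_lit 8) (k (nat_lit 0x131904)))) (u (nat_lit 7) (a (v (nat_lit 9) (k (nat_lit 0x99fe4))) (a (v (nat_lit 8) (k (nat_lit 0x12f840))) (v (nat_lit 7) (k (nat_lit 0x1331f4)))))))) (a (v (nat_lit 6) (a (u (nat_lit 9) (k (nat_lit 0x983be))) (u (nat_lit 7) (k (nat_lit 0x99fe4))))) (a (u (nat_lit 6) (a (v (nat_lit 9) (k (nat_lit 0x983be))) (v (nat_lit 6) (k (nat_lit 0x981a8))))) (u (nat_lit 5) (a (v (nat_lit 8) (k (nat_lit 0x99036))) (a (v (nat_lit 7) (k (nat_lit 0x98fee))) (v (nat_lit 5) (k (nat_lit 0x99288)))))))))) (u (nat_lit 4) (a (a (v (nat_lit 9) (v (nat_lit 9) (k (nat_lit 0x98586)))) (a (v (nat_lit 8) (v (nat_lit 9) (k (nat_lit 0x99ae6)))) (v (nat_lit 7) (a (v (nat_lit 9) (k (nat_lit 0x97e4e))) (a (v (nat_lit 8) (k (nat_lit 0x99d50))) (v (nat_lit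 7) (k (nat_lit 0x980c4)))))))) (a (a (v (nat_lit 6) (a (v (nat_lit 8) (k (nat_lit 0x97ffe))) (a (v (nat_lit 7) (k (nat_lit 0x988b6))) (v (nat_lit 6) (k (nat_lit 0x99ce4)))))) (v (nat_lit 5) (a (v (nat_lit 9) (k (nat_lit 0x993d2))) (v (nat_lit 7) (k (nat_lit 0x993d2)))))) (a (u (nat_lit 5) (v (nat_lit 6) (k (nat_lit 0x991c2)))) (v (nat_lit 4) (a (u (nat_lit 6) (k (nat_lit 0x98928))) (a (v (nat_lit 5) (k (nat_lit 0x1315f8))) (v (nat_lit 4) (k (nat_lit 0x98ca0))))))))))) (a (v (nat_lit 3) (a (a (a (u (nat_lit 9) (v (nat_lit 9) (k (nat_lit 0x981a8)))) (u (nat_lit 8) (v (nat_lit 8) (k (nat_lit 0x131904))))) (a (v (nat_lit 7) (u (nat_lit 9) (k (nat_lit 0x983be)))) (u (nat_lit 7) (a (v (nat_lit 9) (k (nat_lit 0x983be))) (v (nat_lit 7) (k (nat_lit 0x981a8))))))) (a (a (u (nat_lit 6) (a (a (v (nat_lit 9) (k (nat_lit 0x99fe4))) (v (nat_lit 8) (k (nat_lit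 0x12f840)))) (a (v (nat_lit 7) (k (nat_lit 0x99fe4))) (v (nat_lit 6) (k (nat_lit 0x1331f4)))))) (u (nat_lit 5) (a (v (nat_lit 8) (k (nat_lit 0x99036))) (a (v (nat_lit 6) (k (nat_lit 0x98fee))) (v (nat_lit 5) (k (nat_lit 0x99288))))))) (a (u (nat_lit 4) (a (a (v (nat_lit 8) (k (nat_lit 0x131520))) (v (nat_lit 6) (k (nat_lit 0x131b68)))) (a (v (nat_lit 5) (k (nat_lit 0x988e6))) (v (nat_lit 4) (k (nat_lit 0x131928)))))) (v (nat_lit 3) (u (nat_lit 4) (k (nat_lit 0x98dfc)))))))) (u (nat_lit 3) (a (a (a (v (nat_lit 9) (v (nat_lit 9) (k (nat_lit 0x98586)))) (v (nat_lit 8) (v (nat_lit 9) (k (nat_lit 0x99ae6))))) (a (v (nat_lit 7) (a (v (nat_lit 8) (k (nat_lit 0x97ffe))) (v (nat_lit 7) (k (nat_lit 0x99ce4))))) (v (nat_lit 6) (a (a (v (nat_lit 9) (k (nat_lit 0x97e4e))) (v (nat_lit 8) (k (nat_lit 0x99d50)))) (a (v (nat_lit 7) (k (nat_lit 0x988b6)))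 (v (nat_lit 6) (k (nat_lit 0x980c4)))))))) (a (a (v (nat_lit 5) (a (v (nat_lit 9) (k (nat_lit 0x993d2))) (v (nat_lit 6) (k (nat_lit 0x993d2))))) (u (nat_lit 5) (v (nat_lit 7) (k (nat_lit 0x991c2))))) (a (v (nat_lit 4) (a (a (v (nat_lit 8) (k (nat_lit 0x131520))) (v (nat_lit 7) (k (nat_lit 0x131b68)))) (a (v (nat_lit 5) (k (nat_lit 0x988e6))) (v (nat_lit 4) (k (nat_lit 0x98dfc)))))) (v (nat_lit 3) (a (a (u (nat_lit 7) (k (nat_lit 0x98928))) (v (nat_lit 5) (k (nat_lit 0x1315f8)))) (a (v (nat_lit 4) (k (nat_lit 0x131928))) (v (nat_lit 3) (k (nat_lit 0x98ca0)))))))))))) (a (a (v (nat_lit 2) (a (a (a (u (nat_lit 9) (v (nat_lit 9) (k (nat_lit 0x131904)))) (u (nat_lit 8) (v (nat_lit 8) (k (nat_lit 0x981a8))))) (a (u (nat_lit 7) (a (v (nat_lit 9) (k (nat_lit 0x12f840))) (a (v (nat_lit 8) (k (nat_lit 0x99fe4))) (v (nat_lit 7) (k (nat_lit 0x1331f4))))))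 (a (v (nat_lit 6) (a (u (nat_lit 8) (k (nat_lit 0x983be))) (u (nat_lit 7) (k (nat_lit 0x99fe4))))) (u (nat_lit 6) (a (v (nat_lit 8) (k (nat_lit 0x983be))) (v (nat_lit 6) (k (nat_lit 0x981a8)))))))) (a (a (u (nat_lit 5) (a (v (nat_lit 9) (k (nat_lit 0x99036))) (a (v (nat_lit 7) (k (nat_lit 0x98fee))) (v (nat_lit 5) (k (nat_lit 0x99288)))))) (v (nat_lit 4) (u (nat_lit 5) (k (nat_lit 0x13206c))))) (a (u (nat_lit 4) (a (a (v (nat_lit 9) (k (nat_lit 0x1316f4))) (v (nat_lit 7) (k (nat_lit 0x12ef64)))) (a (v (nat_lit 5) (k (nat_lit 0x988e6))) (v (nat_lit 4) (k (nat_lit 0x131880)))))) (a (v (nat_lit 3) (a (u (nat_lit 5) (k (nat_lit 0x1306a4))) (u (nat_lit 4) (k (nat_lit 0x988e6))))) (u (nat_lit 3) (a (a (v (nat_lit 9) (k (nat_lit 0x99036))) (v (nat_lit 7) (k (nat_lit 0x98fee)))) (a (v (nat_lit 5) (k (nat_lit 0x1306a4))) (a (v (nat_lit 4) (k (nat_lit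 0x13206c))) (v (nat_lit 3) (k (nat_lit 0x99288)))))))))))) (u (nat_lit 2) (a (a (a (v (nat_lit 8) (a (v (nat_lit 9) (k (nat_lit 0x99ae6))) (v (nat_lit 8) (k (nat_lit 0x98586))))) (v (nat_lit 7) (a (v (nat_lit 9) (k (nat_lit 0x99d50))) (a (v (nat_lit 8) (k (nat_lit 0x97e4e))) (v (nat_lit 7) (k (nat_lit 0x980c4))))))) (a (v (nat_lit 6) (a (v (nat_lit 9) (k (nat_lit 0x97ffe))) (a (v (nat_lit 7) (k (nat_lit 0x988b6))) (v (nat_lit 6) (k (nat_lit 0x99ce4)))))) (v (nat_lit 5) (a (v (nat_lit 8) (k (nat_lit 0x993d2))) (v (nat_lit 7) (k (nat_lit 0x993d2))))))) (a (a (u (nat_lit 5) (v (nat_lit 6) (k (nat_lit 0x991c2)))) (v (nat_lit 4) (a (v (nat_lit 8) (k (nat_lit 0x1316f4))) (a (v (nat_lit 7) (k (nat_lit 0x12ef64))) (v (nat_lit 5) (k (nat_lit 0x988e6))))))) (a (v (nat_lit 3) (a (v (nat_lit 8) (k (nat_lit 0x99036))) (a (v (nat_lit 6) (k (nat_lit 0x98fee)))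 (v (nat_lit 5) (k (nat_lit 0x1306a4)))))) (a (u (nat_lit 3) (u (nat_lit 5) (k (nat_lit 0x131eb0)))) (v (nat_lit 2) (a (a (u (nat_lit 6) (k (nat_lit 0x98928))) (v (nat_lit 5) (k (nat_lit 0x1315f8)))) (a (v (nat_lit 4) (k (nat_lit 0x131880))) (a (v (nat_lit 3) (k (nat_lit 0x99288))) (v (nat_lit 2) (k (nat_lit 0x98ca0))))))))))))) (a (v (nat_lit 1) (a (a (a (u (nat_lit 9) (v (nat_lit 9) (k (nat_lit 0x131904)))) (a (u (nat_lit 8) (v (nat_lit 8) (k (nat_lit 0x981a8)))) (v (nat_lit 7) (u (nat_lit 8) (k (nat_lit 0x983be)))))) (a (u (nat_lit 7) (a (v (nat_lit 8) (k (nat_lit 0x983be))) (v (nat_lit 7) (k (nat_lit 0x981a8))))) (a (u (nat_lit 6) (a (a (v (nat_lit 9) (k (nat_lit 0x12f840))) (v (nat_lit 8) (k (nat_lit 0x99fe4)))) (a (v (nat_lit 7) (k (nat_lit 0x99fe4))) (v (nat_lit 6) (k (nat_lit 0x1331f4)))))) (u (nat_lit 5) (a (v (nat_lit 9) (k (nat_lit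 0x99036))) (a (v (nat_lit 6) (k (nat_lit 0x98fee))) (v (nat_lit 5) (k (nat_lit 0x99288))))))))) (a (a (v (nat_lit 4) (u (nat_lit 5) (k (nat_lit 0x1306a4)))) (a (u (nat_lit 4) (a (a (v (nat_lit 9) (k (nat_lit 0x99036))) (v (nat_lit 6) (k (nat_lit 0x98fee)))) (a (v (nat_lit 5) (k (nat_lit 0x1306a4))) (v (nat_lit 4) (k (nat_lit 0x99288)))))) (v (nat_lit 3) (a (u (nat_lit 5) (k (nat_lit 0x13206c))) (u (nat_lit 4) (k (nat_lit 0x13206c))))))) (a (u (nat_lit 3) (a (a (v (nat_lit 9) (k (nat_lit 0x1316f4))) (v (nat_lit 6) (k (nat_lit 0x12ef64)))) (a (v (nat_lit 5) (k (nat_lit 0x988e6))) (a (v (nat_lit 4) (k (nat_lit 0x988e6))) (v (nat_lit 3) (k (nat_lit 0x131880))))))) (a (u (nat_lit 2) (a (a (v (nat_lit 9) (k (nat_lit 0x131520))) (a (v (nat_lit 6) (k (nat_lit 0x131b68))) (v (nat_lit 5) (k (nat_lit 0x988e6))))) (a (v (nat_lit 4) (k (nat_lit 0x988e6)))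 (a (v (nat_lit 3) (k (nat_lit 0x13206c))) (v (nat_lit 2) (k (nat_lit 0x131928))))))) (v (nat_lit 1) (u (nat_lit 2) (k (nat_lit 0x98dfc))))))))) (a (u (nat_lit 1) (a (a (a (v (nat_lit 8) (a (v (nat_lit 9) (k (nat_lit 0x99ae6))) (v (nat_lit 8) (k (nat_lit 0x98586))))) (v (nat_lit 7) (a (v (nat_lit 9) (k (nat_lit 0x97ffe))) (v (nat_lit 7) (k (nat_lit 0x99ce4)))))) (a (v (nat_lit 6) (a (a (v (nat_lit 9) (k (nat_lit 0x99d50))) (v (nat_lit 8) (k (nat_lit 0x97e4e)))) (a (v (nat_lit 7) (k (nat_lit 0x988b6))) (v (nat_lit 6) (k (nat_lit 0x980c4)))))) (a (v (nat_lit 5) (a (v (nat_lit 8) (k (nat_lit 0x993d2))) (v (nat_lit 6) (k (nat_lit 0x993d2))))) (u (nat_lit 5) (v (nat_lit 7) (k (nat_lit 0x991c2))))))) (a (a (v (nat_lit 4) (a (v (nat_lit 8) (k (nat_lit 0x99036))) (a (v (nat_lit 7) (k (nat_lit 0x98fee))) (v (nat_lit 5) (k (nat_lit 0x1306a4)))))) (u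 (nat_lit 4) (u (nat_lit 5) (k (nat_lit 0x131eb0))))) (a (v (nat_lit 3) (a (v (nat_lit 8) (k (nat_lit 0x1316f4))) (a (v (nat_lit 6) (k (nat_lit 0x12ef64))) (v (nat_lit 5) (k (nat_lit 0x988e6)))))) (a (v (nat_lit 2) (a (a (v (nat_lit 9) (k (nat_lit 0x131520))) (a (v (nat_lit 7) (k (nat_lit 0x131b68))) (v (nat_lit 5) (k (nat_lit 0x988e6))))) (a (v (nat_lit 4) (k (nat_lit 0x13206c))) (a (v (nat_lit 3) (k (nat_lit 0x988e6))) (v (nat_lit 2) (k (nat_lit 0x98dfc))))))) (v (nat_lit 1) (a (a (u (nat_lit 7) (k (nat_lit 0x98928))) (a (v (nat_lit 5) (k (nat_lit 0x1315f8))) (v (nat_lit 4) (k (nat_lit 0x99288))))) (a (v (nat_lit 3) (k (nat_lit 0x131880))) (a (v (nat_lit 2) (k (nat_lit 0x131928))) (v (nat_lit 1) (k (nat_lit 0x98ca0)))))))))))) (v (nat_lit 0) (a (a (a (u (nat_lit 9) (v (nat_lit 9) (k (nat_lit 0x1319a0)))) (u (nat_lit 8) (v (nat_lit 8) (k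 (nat_lit 0x1319a0))))) (a (u (nat_lit 7) (a (v (nat_lit 9) (k (nat_lit 0x98e0e))) (a (v (nat_lit 8) (k (nat_lit 0x98e0e))) (v (nat_lit 7) (k (nat_lit 0x1320f0)))))) (a (u (nat_lit 6) (a (v (nat_lit 9) (k (nat_lit 0x98e0e))) (a (v (nat_lit 8) (k (nat_lit 0x98e0e))) (v (nat_lit 6) (k (nat_lit 0x1320f0)))))) (u (nat_lit 5) (v (nat_lit 5) (k (nat_lit 0x263220))))))) (a (a (u (nat_lit 4) (a (a (v (nat_lit 9) (k (nat_lit 0x98994))) (v (nat_lit 8) (k (nat_lit 0x408b3ac)))) (a (v (nat_lit 7) (k (nat_lit 0x98e20))) (a (v (nat_lit 6) (k (nat_lit 0x98dcc))) (v (nat_lit 4) (k (nat_lit 0x98c70))))))) (a (v (nat_lit 3) (u (nat_lit 4) (k (nat_lit 0x98dfc)))) (u (nat_lit 3) (a (a (v (nat_lit 9) (k (nat_lit 0x98994))) (a (v (nat_lit 8) (k (nat_lit 0x408b3ac))) (v (nat_lit 7) (k (nat_lit 0x98dcc))))) (a (v (nat_lit 6) (k (nat_lit 0x98e20))) (a (v (nat_lit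 4) (k (nat_lit 0x98dfc))) (v (nat_lit 3) (k (nat_lit 0x98c70))))))))) (a (u (nat_lit 2) (a (a (v (nat_lit 9) (k (nat_lit 0x408b3ac))) (v (nat_lit 8) (k (nat_lit 0x98994)))) (a (v (nat_lit 7) (k (nat_lit 0x98e20))) (a (v (nat_lit 6) (k (nat_lit 0x98dcc))) (v (nat_lit 2) (k (nat_lit 0x98c70))))))) (a (v (nat_lit 1) (u (nat_lit 2) (k (nat_lit 0x98dfc)))) (u (nat_lit 1) (a (a (v (nat_lit 9) (k (nat_lit 0x408b3ac))) (a (v (nat_lit 8) (k (nat_lit 0x98994))) (v (nat_lit 7) (k (nat_lit 0x98dcc))))) (a (v (nat_lit 6) (k (nat_lit 0x98e20))) (a (v (nat_lit 2) (k (nat_lit 0x98dfc))) (v (nat_lit 1) (k (nat_lit 0x98c70)))))))))))))))))))) (a (u (nat_lit 0) (a (a (a (a (v (nat_lit 8) (a (v (nat_lit 9) (v (nat_lit 9) (k (nat_lit 0x1311a8)))) (v (nat_lit 8) (v (nat_lit 9) (k (nat_lit 0x1311a8)))))) (v (nat_lit 7) (v (nat_lit 8) (v (nat_lit 9) (k (nat_lit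 0x133b48)))))) (a (v (nat_lit 6) (a (v (nat_lit 8) (v (nat_lit 9) (k (nat_lit 0x133b48)))) (v (nat_lit 6) (u (nat_lit 7) (k (nat_lit 0x132210)))))) (u (nat_lit 6) (v (nat_lit 7) (v (nat_lit 7) (k (nat_lit 0x132210))))))) (a (a (v (nat_lit 5) (a (v (nat_lit 7) (a (v (nat_lit 9) (k (nat_lit 0x98c94))) (v (nat_lit 8) (k (nat_lit 0x98c94))))) (v (nat_lit 6) (a (v (nat_lit 9) (k (nat_lit 0x98c94))) (a (v (nat_lit 8) (k (nat_lit 0x98c94))) (v (nat_lit 7) (k (nat_lit 0x2635c8)))))))) (v (nat_lit 4) (a (a (v (nat_lit 9) (v (nat_lit 9) (k (nat_lit 0x99ce4)))) (a (v (nat_lit 8) (v (nat_lit 9) (k (nat_lit 0x97ffe)))) (v (nat_lit 7) (a (v (nat_lit 9) (k (nat_lit 0x988b6))) (a (v (nat_lit 8) (k (nat_lit 0x99d50))) (v (nat_lit 7) (k (nat_lit 0x980c4)))))))) (a (v (nat_lit 6) (a (v (nat_lit 8) (k (nat_lit 0x99ae6))) (a (v (nat_lit 7) (k (nat_lit 0x97e4e)))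 (v (nat_lit 6) (k (nat_lit 0x98586)))))) (a (v (nat_lit 5) (a (v (nat_lit 9) (k (nat_lit 0x98fee))) (v (nat_lit 6) (k (nat_lit 0x99036))))) (v (nat_lit 4) (a (a (v (nat_lit 9) (k (nat_lit 0x98dcc))) (v (nat_lit 8) (k (nat_lit 0x408b3ac)))) (a (v (nat_lit 7) (k (nat_lit 0x98e20))) (v (nat_lit 6) (k (nat_lit 0x98994))))))))))) (a (u (nat_lit 4) (a (v (nat_lit 6) (u (nat_lit 9) (k (nat_lit 0x9961e)))) (a (u (nat_lit 6) (v (nat_lit 9) (k (nat_lit 0x9961e)))) (v (nat_lit 5) (v (nat_lit 8) (k (nat_lit 0x991c2))))))) (v (nat_lit 3) (a (a (v (nat_lit 9) (v (nat_lit 9) (k (nat_lit 0x99ce4)))) (a (v (nat_lit 8) (v (nat_lit 9) (k (nat_lit 0x97ffe)))) (v (nat_lit 7) (a (v (nat_lit 8) (k (nat_lit 0x99ae6))) (v (nat_lit 7) (k (nat_lit 0x98586))))))) (a (a (v (nat_lit 6) (a (a (v (nat_lit 9) (k (nat_lit 0x988b6))) (v (nat_lit 8) (k (nat_lit 0x99d50))))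 (a (v (nat_lit 7) (k (nat_lit 0x97e4e))) (v (nat_lit 6) (k (nat_lit 0x980c4)))))) (v (nat_lit 5) (a (v (nat_lit 9) (k (nat_lit 0x98fee))) (v (nat_lit 7) (k (nat_lit 0x99036)))))) (a (v (nat_lit 4) (a (a (v (nat_lit 9) (k (nat_lit 0x131b68))) (v (nat_lit 8) (k (nat_lit 0x131520)))) (a (v (nat_lit 5) (k (nat_lit 0x13206c))) (v (nat_lit 4) (k (nat_lit 0x98dfc)))))) (v (nat_lit 3) (a (a (v (nat_lit 9) (k (nat_lit 0x98dcc))) (v (nat_lit 8) (k (nat_lit 0x408b3ac)))) (a (v (nat_lit 7) (k (nat_lit 0x98994))) (a (v (nat_lit 6) (k (nat_lit 0x98e20))) (v (nat_lit 4) (k (nat_lit 0x98dfc)))))))))))))) (a (a (a (u (nat_lit 3) (a (a (v (nat_lit 7) (u (nat_lit 9) (k (nat_lit 0x9961e)))) (u (nat_lit 7) (v (nat_lit 9) (k (nat_lit 0x9961e))))) (a (v (nat_lit 5) (v (nat_lit 8) (k (nat_lit 0x991c2)))) (a (u (nat_lit 4) (u (nat_lit 4) (k (nat_lit 0x131b2c))))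 (u (nat_lit 3) (u (nat_lit 4) (k (nat_lit 0x131b2c)))))))) (v (nat_lit 2) (a (a (a (v (nat_lit 8) (a (v (nat_lit 9) (k (nat_lit 0x97ffe))) (v (nat_lit 8) (k (nat_lit 0x99ce4))))) (v (nat_lit 7) (a (v (nat_lit 9) (k (nat_lit 0x99d50))) (a (v (nat_lit 8) (k (nat_lit 0x988b6))) (v (nat_lit 7) (k (nat_lit 0x980c4))))))) (a (v (nat_lit 6) (a (v (nat_lit 9) (k (nat_lit 0x99ae6))) (a (v (nat_lit 7) (k (nat_lit 0x97e4e))) (v (nat_lit 6) (k (nat_lit 0x98586)))))) (v (nat_lit 5) (a (v (nat_lit 8) (k (nat_lit 0x98fee))) (v (nat_lit 6) (k (nat_lit 0x99036))))))) (a (a (v (nat_lit 4) (a (v (nat_lit 7) (k (nat_lit 0x12ef64))) (v (nat_lit 6) (k (nat_lit 0x1316f4))))) (v (nat_lit 3) (a (a (v (nat_lit 7) (k (nat_lit 0x993d2))) (v (nat_lit 6) (k (nat_lit 0x993d2)))) (a (v (nat_lit 5) (k (nat_lit 0x1306a4))) (v (nat_lit 4) (k (nat_lit 0x988e6))))))) (a (u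 (nat_lit 3) (a (v (nat_lit 8) (k (nat_lit 0x991c2))) (u (nat_lit 5) (k (nat_lit 0x131eb0))))) (v (nat_lit 2) (a (a (v (nat_lit 9) (k (nat_lit 0x408b3ac))) (v (nat_lit 8) (k (nat_lit 0x98dcc)))) (a (v (nat_lit 7) (k (nat_lit 0x98e20))) (v (nat_lit 6) (k (nat_lit 0x98994))))))))))) (a (u (nat_lit 2) (a (a (v (nat_lit 6) (u (nat_lit 8) (k (nat_lit 0x9961e)))) (u (nat_lit 6) (v (nat_lit 8) (k (nat_lit 0x9961e))))) (a (v (nat_lit 5) (v (nat_lit 9) (k (nat_lit 0x991c2)))) (a (v (nat_lit 3) (a (v (nat_lit 9) (k (nat_lit 0x991c2))) (u (nat_lit 5) (k (nat_lit 0x131eb0))))) (u (nat_lit 3) (v (nat_lit 5) (k (nat_lit 0x131eb0)))))))) (t (nat_lit 2) (nat_lit 4) (nat_lit 5) (a (v (nat_lit 8) (u (nat_lit 9) (k (nat_lit 0x1cfd2fe)))) (a (u (nat_lit 8) (v (nat_lit 9) (k (nat_lit 0x1cfd2fe)))) (u (nat_lit 7) (a (v (nat_lit 9) (k (nat_lit 0x995f4))) (v (nat_lit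 8) (k (nat_lit 0x995f4)))))))))) (a (a (v (nat_lit 1) (a (a (a (v (nat_lit 8) (a (v (nat_lit 9) (k (nat_lit 0x97ffe))) (v (nat_lit 8) (k (nat_lit 0x99ce4))))) (v (nat_lit 7) (a (v (nat_lit 9) (k (nat_lit 0x99ae6))) (v (nat_lit 7) (k (nat_lit 0x98586)))))) (a (v (nat_lit 6) (a (a (v (nat_lit 9) (k (nat_lit 0x99d50))) (v (nat_lit 8) (k (nat_lit 0x988b6)))) (a (v (nat_lit 7) (k (nat_lit 0x97e4e))) (v (nat_lit 6) (k (nat_lit 0x980c4)))))) (v (nat_lit 5) (a (v (nat_lit 8) (k (nat_lit 0x98fee))) (v (nat_lit 7) (k (nat_lit 0x99036))))))) (a (a (v (nat_lit 4) (a (v (nat_lit 7) (k (nat_lit 0x993d2))) (a (v (nat_lit 6) (k (nat_lit 0x993d2))) (v (nat_lit 5) (k (nat_lit 0x1306a4)))))) (u (nat_lit 4) (a (v (nat_lit 8) (k (nat_lit 0x991c2))) (u (nat_lit 5) (k (nat_lit 0x131eb0)))))) (a (v (nat_lit 3) (a (v (nat_lit 7) (k (nat_lit 0x1316f4))) (a (v (nat_lit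 6) (k (nat_lit 0x12ef64))) (v (nat_lit 4) (k (nat_lit 0x988e6)))))) (a (v (nat_lit 2) (a (a (v (nat_lit 9) (k (nat_lit 0x131520))) (a (v (nat_lit 8) (k (nat_lit 0x131b68))) (v (nat_lit 5) (k (nat_lit 0x13206c))))) (a (v (nat_lit 4) (k (nat_lit 0x988e6))) (a (v (nat_lit 3) (k (nat_lit 0x988e6))) (v (nat_lit 2) (k (nat_lit 0x98dfc))))))) (v (nat_lit 1) (a (a (v (nat_lit 9) (k (nat_lit 0x408b3ac))) (v (nat_lit 8) (k (nat_lit 0x98dcc)))) (a (v (nat_lit 7) (k (nat_lit 0x98994))) (a (v (nat_lit 6) (k (nat_lit 0x98e20))) (v (nat_lit 2) (k (nat_lit 0x98dfc)))))))))))) (u (nat_lit 1) (a (a (v (nat_lit 7) (u (nat_lit 8) (k (nat_lit 0x9961e)))) (a (u (nat_lit 7) (v (nat_lit 8) (k (nat_lit 0x9961e)))) (v (nat_lit 5) (v (nat_lit 9) (k (nat_lit 0x991c2)))))) (a (a (v (nat_lit 4) (a (v (nat_lit 9) (k (nat_lit 0x991c2))) (u (nat_lit 5) (k (nat_lit 0x131eb0)))))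 (u (nat_lit 4) (v (nat_lit 5) (k (nat_lit 0x131eb0))))) (a (u (nat_lit 2) (u (nat_lit 2) (k (nat_lit 0x131b2c)))) (u (nat_lit 1) (u (nat_lit 2) (k (nat_lit 0x131b2c))))))))) (a (t (nat_lit 1) (nat_lit 3) (nat_lit 5) (a (a (v (nat_lit 8) (u (nat_lit 9) (k (nat_lit 0x1cfd2fe)))) (u (nat_lit 8) (v (nat_lit 9) (k (nat_lit 0x1cfd2fe))))) (a (u (nat_lit 6) (a (v (nat_lit 9) (k (nat_lit 0x995f4))) (v (nat_lit 8) (k (nat_lit 0x995f4))))) (t (nat_lit 2) (nat_lit 4) (nat_lit 5) (a (a (v (nat_lit 9) (k (nat_lit 0x132c18))) (v (nat_lit 8) (k (nat_lit 0x132c18)))) (a (v (nat_lit 7) (k (nat_lit 0x76ba8b4))) (v (nat_lit 6) (k (nat_lit 0x76ba8b4))))))))) (a (v (nat_lit 0) (a (a (a (v (nat_lit 8) (v (nat_lit 9) (k (nat_lit 0x263400)))) (v (nat_lit 7) (a (v (nat_lit 9) (k (nat_lit 0x98b32))) (a (v (nat_lit 8) (k (nat_lit 0x98b32))) (v (nat_lit 7) (k (nat_lit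 0x1313b8))))))) (a (v (nat_lit 6) (a (a (v (nat_lit 9) (k (nat_lit 0x98b32))) (v (nat_lit 8) (k (nat_lit 0x98b32)))) (a (v (nat_lit 7) (k (nat_lit 0x263a18))) (v (nat_lit 6) (k (nat_lit 0x1313b8)))))) (a (u (nat_lit 6) (u (nat_lit 7) (k (nat_lit 0x262ba8)))) (v (nat_lit 5) (a (a (v (nat_lit 9) (k (nat_lit 0x1314cc))) (a (u (nat_lit 9) (k (nat_lit 0x131598))) (v (nat_lit 8) (k (nat_lit 0x1314cc))))) (a (a (u (nat_lit 8) (k (nat_lit 0x131598))) (v (nat_lit 7) (k (nat_lit 0x131a90)))) (a (v (nat_lit 6) (k (nat_lit 0x131a90))) (v (nat_lit 5) (k (nat_lit 0x263220)))))))))) (a (a (v (nat_lit 4) (a (u (nat_lit 9) (k (nat_lit 0x98928))) (a (v (nat_lit 5) (k (nat_lit 0x99288))) (v (nat_lit 4) (k (nat_lit 0x98c70)))))) (v (nat_lit 3) (a (a (u (nat_lit 9) (k (nat_lit 0x98928))) (v (nat_lit 5) (k (nat_lit 0x99288)))) (a (v (nat_lit 4) (k (nat_lit 0x131928)))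 (v (nat_lit 3) (k (nat_lit 0x98c70))))))) (a (v (nat_lit 2) (a (a (u (nat_lit 8) (k (nat_lit 0x98928))) (v (nat_lit 5) (k (nat_lit 0x99288)))) (a (v (nat_lit 4) (k (nat_lit 0x131880))) (a (v (nat_lit 3) (k (nat_lit 0x1315f8))) (v (nat_lit 2) (k (nat_lit 0x98c70))))))) (a (v (nat_lit 1) (a (a (u (nat_lit 8) (k (nat_lit 0x98928))) (a (v (nat_lit 5) (k (nat_lit 0x99288))) (v (nat_lit 4) (k (nat_lit 0x1315f8))))) (a (v (nat_lit 3) (k (nat_lit 0x131880))) (a (v (nat_lit 2) (k (nat_lit 0x131928))) (v (nat_lit 1) (k (nat_lit 0x98c70))))))) (v (nat_lit 0) (a (a (a (v (nat_lit 9) (k (nat_lit 0x131b08))) (a (u (nat_lit 9) (k (nat_lit 0x131ac0))) (v (nat_lit 8) (k (nat_lit 0x131b08))))) (a (u (nat_lit 8) (k (nat_lit 0x131ac0))) (a (v (nat_lit 7) (k (nat_lit 0x131a00))) (v (nat_lit 6) (k (nat_lit 0x131a00)))))) (a (a (v (nat_lit 5) (k (nat_lit 0x2629b0)))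 (a (v (nat_lit 4) (k (nat_lit 0x98ca0))) (v (nat_lit 3) (k (nat_lit 0x98ca0))))) (a (v (nat_lit 2) (k (nat_lit 0x98ca0))) (a (v (nat_lit 1) (k (nat_lit 0x98ca0))) (v (nat_lit 0) (k (nat_lit 0x2631c0))))))))))))) (u (nat_lit 0) (a (u (nat_lit 3) (u (nat_lit 4) (k (nat_lit 0x131b2c)))) (u (nat_lit 1) (u (nat_lit 2) (k (nat_lit 0x131b2c)))))))))))) (a (t (nat_lit 0) (nat_lit 1) (nat_lit 2) (a (a (a (u (nat_lit 5) (a (v (nat_lit 7) (u (nat_lit 8) (k (nat_lit 0x995f4)))) (a (v (nat_lit 6) (a (u (nat_lit 8) (k (nat_lit 0x995f4))) (u (nat_lit 7) (k (nat_lit 0x1cfd2fe))))) (u (nat_lit 6) (v (nat_lit 7) (k (nat_lit 0x1cfd2fe))))))) (u (nat_lit 4) (a (u (nat_lit 7) (v (nat_lit 8) (k (nat_lit 0x995f4)))) (a (v (nat_lit 6) (a (u (nat_lit 8) (k (nat_lit 0x1cfd2fe))) (u (nat_lit 7) (k (nat_lit 0x995f4))))) (u (nat_lit 6) (v (nat_lit 8) (k (nat_lit 0x1cfd2fe))))))))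 (a (u (nat_lit 3) (a (v (nat_lit 7) (u (nat_lit 8) (k (nat_lit 0x1cfd2fe)))) (a (u (nat_lit 7) (v (nat_lit 8) (k (nat_lit 0x1cfd2fe)))) (u (nat_lit 6) (a (v (nat_lit 8) (k (nat_lit 0x995f4))) (v (nat_lit 7) (k (nat_lit 0x995f4)))))))) (u (nat_lit 2) (a (v (nat_lit 8) (v (nat_lit 8) (k (nat_lit 0x4f643a)))) (a (v (nat_lit 7) (v (nat_lit 7) (k (nat_lit 0x4f643a)))) (u (nat_lit 2) (u (nat_lit 2) (k (nat_lit 0x933c2b8))))))))) (a (a (t (nat_lit 2) (nat_lit 4) (nat_lit 5) (u (nat_lit 3) (a (a (v (nat_lit 9) (k (nat_lit 0x76ba8b4))) (v (nat_lit 8) (k (nat_lit 0x132c18)))) (a (v (nat_lit 7) (k (nat_lit 0x132c18))) (v (nat_lit 6) (k (nat_lit 0x76ba8b4))))))) (u (nat_lit 1) (a (v (nat_lit 8) (v (nat_lit 8) (k (nat_lit 0x4f643a)))) (a (v (nat_lit 6) (v (nat_lit 6) (k (nat_lit 0x4f643a)))) (u (nat_lit 1) (u (nat_lit 1) (k (nat_lit 0x933c2b8))))))))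 (a (t (nat_lit 1) (nat_lit 3) (nat_lit 5) (a (u (nat_lit 4) (a (a (v (nat_lit 9) (k (nat_lit 0x76ba8b4))) (v (nat_lit 8) (k (nat_lit 0x132c18)))) (a (v (nat_lit 7) (k (nat_lit 0x76ba8b4))) (v (nat_lit 6) (k (nat_lit 0x132c18)))))) (a (t (nat_lit 2) (nat_lit 4) (nat_lit 5) (a (u (nat_lit 5) (k (nat_lit 0x1319d0))) (u (nat_lit 2) (k (nat_lit 0x1319d0))))) (u (nat_lit 1) (t (nat_lit 2) (nat_lit 4) (nat_lit 5) (k (nat_lit 0x1319d0))))))) (u (nat_lit 0) (a (a (v (nat_lit 7) (v (nat_lit 7) (k (nat_lit 0x4f643a)))) (v (nat_lit 6) (v (nat_lit 6) (k (nat_lit 0x4f643a))))) (a (u (nat_lit 1) (u (nat_lit 2) (k (nat_lit 0x29f4e0ac)))) (u (nat_lit 0) (u (nat_lit 0) (k (nat_lit 0x933c2b8))))))))))) (t (nat_lit 0) (nat_lit 3) (nat_lit 4) (a (a (a (u (nat_lit 5) (a (v (nat_lit 7) (u (nat_lit 9) (k (nat_lit 0x995f4)))) (a (v (nat_lit 6) (a (u (nat_lit 9)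 (k (nat_lit 0x995f4))) (u (nat_lit 7) (k (nat_lit 0x1cfd2fe))))) (u (nat_lit 6) (v (nat_lit 7) (k (nat_lit 0x1cfd2fe))))))) (u (nat_lit 4) (a (v (nat_lit 9) (v (nat_lit 9) (k (nat_lit 0x4f643a)))) (a (v (nat_lit 7) (v (nat_lit 7) (k (nat_lit 0x4f643a)))) (u (nat_lit 4) (u (nat_lit 4) (k (nat_lit 0x933c2b8)))))))) (a (u (nat_lit 3) (a (v (nat_lit 9) (v (nat_lit 9) (k (nat_lit 0x4f643a)))) (a (v (nat_lit 6) (v (nat_lit 6) (k (nat_lit 0x4f643a)))) (u (nat_lit 3) (u (nat_lit 3) (k (nat_lit 0x933c2b8))))))) (u (nat_lit 2) (a (u (nat_lit 7) (v (nat_lit 9) (k (nat_lit 0x995f4)))) (a (v (nat_lit 6) (a (u (nat_lit 9) (k (nat_lit 0x1cfd2fe))) (u (nat_lit 7) (k (nat_lit 0x995f4))))) (u (nat_lit 6) (v (nat_lit 9) (k (nat_lit 0x1cfd2fe))))))))) (a (a (u (nat_lit 1) (a (a (v (nat_lit 7) (u (nat_lit 9) (k (nat_lit 0x1cfd2fe)))) (u (nat_lit 7) (v (nat_lit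 9) (k (nat_lit 0x1cfd2fe))))) (a (u (nat_lit 6) (a (v (nat_lit 9) (k (nat_lit 0x995f4))) (v (nat_lit 7) (k (nat_lit 0x995f4))))) (t (nat_lit 2) (nat_lit 4) (nat_lit 5) (a (a (v (nat_lit 9) (k (nat_lit 0x132c18))) (v (nat_lit 8) (k (nat_lit 0x76ba8b4)))) (a (v (nat_lit 7) (k (nat_lit 0x132c18))) (v (nat_lit 6) (k (nat_lit 0x76ba8b4))))))))) (t (nat_lit 1) (nat_lit 3) (nat_lit 5) (a (u (nat_lit 2) (a (a (v (nat_lit 9) (k (nat_lit 0x132c18))) (v (nat_lit 8) (k (nat_lit 0x76ba8b4)))) (a (v (nat_lit 7) (k (nat_lit 0x76ba8b4))) (v (nat_lit 6) (k (nat_lit 0x132c18)))))) (t (nat_lit 2) (nat_lit 4) (nat_lit 5) (a (u (nat_lit 5) (k (nat_lit 0x1319d0))) (a (u (nat_lit 4) (k (nat_lit 0x1319d0))) (u (nat_lit 3) (k (nat_lit 0x1319d0))))))))) (a (u (nat_lit 0) (a (a (v (nat_lit 7) (v (nat_lit 7) (k (nat_lit 0x4f643a)))) (v (nat_lit 6) (v (nat_lit 6) (k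 (nat_lit 0x4f643a))))) (a (u (nat_lit 3) (u (nat_lit 4) (k (nat_lit 0x29f4e0ac)))) (u (nat_lit 0) (u (nat_lit 0) (k (nat_lit 0x933c2b8))))))) (t (nat_lit 0) (nat_lit 1) (nat_lit 2) (a (a (u (nat_lit 5) (a (a (v (nat_lit 9) (k (nat_lit 0x76ba8b4))) (v (nat_lit 8) (k (nat_lit 0x76ba8b4)))) (a (v (nat_lit 7) (k (nat_lit 0x132c18))) (v (nat_lit 6) (k (nat_lit 0x132c18)))))) (t (nat_lit 2) (nat_lit 4) (nat_lit 5) (a (u (nat_lit 4) (k (nat_lit 0x1319d0))) (u (nat_lit 2) (k (nat_lit 0x1319d0)))))) (a (t (nat_lit 1) (nat_lit 3) (nat_lit 5) (a (u (nat_lit 3) (k (nat_lit 0x1319d0))) (u (nat_lit 1) (k (nat_lit 0x1319d0))))) (u (nat_lit 0) (a (t (nat_lit 2) (nat_lit 4) (nat_lit 5) (k (nat_lit 0x1319d0))) (t (nat_lit 1) (nat_lit 3) (nat_lit 5) (k (nat_lit 0x1319d0)))))))))))))))))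

open Fl.Tr in
/-- the table -/
noncomputable def T : Fl.Tr := (c (c (c (c (c (c (c (c (c (c (m (nat_lit 0x116409300)) (c (p (nat_lit 0xb9d8d6c)) (c (m (nat_lit 0x1a2f32c)) (c (p (nat_lit 0x7296f0)) (c (m (nat_lit 0x394c50)) e))))) (c (c (p (nat_lit 0xb9d8d6c)) (c (p (nat_lit 0x765a110)) (c (p (nat_lit 0x394ea8)) (c (m (nat_lit 0x263328)) e)))) (c (c (m (nat_lit 0x1a2f32c)) (c (p (nat_lit 0x394ea8)) (c (m (nat_lit 0x2633d0)) e))) (c (c (p (nat_lit 0x7296f0)) (c (m (nat_lit 0x263328)) e)) (c (c (m (nat_lit 0x394c50)) e) e))))) (c (c (c (p (nat_lit 0xb9d8d6c)) (c (p (nat_lit 0x765a110)) (c (p (nat_lit 0x394ea8)) (c (m (nat_lit 0x263328)) e)))) (c (c (p (nat_lit 0x765a110)) (c (m (nat_lit 0x1f8)) e)) (c (c (p (nat_lit 0x394ea8)) e) (c (c (m (nat_lit 0x263328)) e) e)))) (c (c (c (m (nat_lit 0x1a2f32c)) (c (p (nat_lit 0x394ea8)) (c (m (nat_lit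 0x2633d0)) e))) (c (c (p (nat_lit 0x394ea8)) e) (c (c (m (nat_lit 0x2633d0)) e) e))) (c (c (c (p (nat_lit 0x7296f0)) (c (m (nat_lit 0x263328)) e)) (c (c (m (nat_lit 0x263328)) e) e)) (c (c (c (m (nat_lit 0x394c50)) e) e) e))))) (c (c (c (c (p (nat_lit 0xb9d8d6c)) (c (p (nat_lit 0x765a110)) (c (p (nat_lit 0x394ea8)) (c (m (nat_lit 0x263328)) e)))) (c (c (p (nat_lit 0x765a110)) (c (m (nat_lit 0x1f8)) e)) (c (c (p (nat_lit 0x394ea8)) e) (c (c (m (nat_lit 0x263328)) e) e)))) (c (c (c (p (nat_lit 0x765a110)) (c (m (nat_lit 0x1f8)) e)) (c (c (m (nat_lit 0x1f8)) (c (m (nat_lit 0xe535c0)) e)) e)) (c (c (c (p (nat_lit 0x394ea8)) e) e) (c (c (c (m (nat_lit 0x263328)) e) e) e)))) (c (c (c (c (m (nat_lit 0x1a2f32c)) (c (p (nat_lit 0x394ea8)) (c (m (nat_lit 0x2633d0)) e))) (c (c (p (nat_lit 0x394ea8)) e) (c (c (m (nat_lit 0x2633d0)) e) e))) (c (c (c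 (p (nat_lit 0x394ea8)) e) e) (c (c (c (m (nat_lit 0x2633d0)) e) e) e))) (c (c (c (c (p (nat_lit 0x7296f0)) (c (m (nat_lit 0x263328)) e)) (c (c (m (nat_lit 0x263328)) e) e)) (c (c (c (m (nat_lit 0x263328)) e) e) e)) (c (c (c (c (m (nat_lit 0x394c50)) e) e) e) e))))) (c (c (c (c (c (p (nat_lit 0x117723738)) (c (m (nat_lit 0xf503b14)) (c (p (nat_lit 0x228ba3c)) (c (m (nat_lit 0x131a00)) e)))) (c (c (m (nat_lit 0xf503b14)) (c (m (nat_lit 0x6ccd5c0)) (c (m (nat_lit 0xa8)) e))) (c (c (p (nat_lit 0x228ba3c)) (c (m (nat_lit 0xa8)) e)) (c (c (m (nat_lit 0x131a00)) e) e)))) (c (c (c (m (nat_lit 0x16828830)) (c (m (nat_lit 0x3831b94)) (c (m (nat_lit 0x98cf4)) e))) (c (c (m (nat_lit 0x3831b94)) (c (m (nat_lit 0xa8)) e)) (c (c (m (nat_lit 0x98cf4)) e) e))) (c (c (c (p (nat_lit 0xeb2930)) (c (m (nat_lit 0x98ca0)) e)) (c (c (m (nat_lit 0x98ca0)) e) e))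 (c (c (c (m (nat_lit 0x131b08)) e) e) e)))) (c (c (c (c (m (nat_lit 0x16828830)) (c (m (nat_lit 0x3831b94)) (c (m (nat_lit 0x98cf4)) e))) (c (c (m (nat_lit 0x3831b94)) (c (m (nat_lit 0xa8)) e)) (c (c (m (nat_lit 0x98cf4)) e) e))) (c (c (c (m (nat_lit 0x6a686a8)) (c (m (nat_lit 0x263340)) e)) (c (c (m (nat_lit 0x263340)) e) e)) (c (c (c (m (nat_lit 0x263310)) e) e) e))) (c (c (c (c (p (nat_lit 0xeb2930)) (c (m (nat_lit 0x98ca0)) e)) (c (c (m (nat_lit 0x98ca0)) e) e)) (c (c (c (m (nat_lit 0x263310)) e) e) e)) (c (c (c (c (m (nat_lit 0x131b08)) e) e) e) e)))) (c (c (c (c (c (m (nat_lit 0xc2efa3e8)) (c (p (nat_lit 0x85ca88)) (c (m (nat_lit 0xc4fd1c)) e))) (c (c (p (nat_lit 0x85ca88)) (c (m (nat_lit 0x4c65c0)) e)) (c (c (m (nat_lit 0xc4fd1c)) e) e))) (c (c (c (p (nat_lit 0xfb65938)) (c (m (nat_lit 0x131940)) e)) (c (c (m (nat_lit 0x131940)) e)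 e)) (c (c (c (m (nat_lit 0x1319a0)) e) e) e))) (c (c (c (c (p (nat_lit 0xfb65938)) (c (m (nat_lit 0x131940)) e)) (c (c (m (nat_lit 0x131940)) e) e)) (c (c (c (m (nat_lit 0x263400)) e) e) e)) (c (c (c (c (m (nat_lit 0x1319a0)) e) e) e) e))) (c (c (c (c (c (p (nat_lit 0x49c445a0)) (c (m (nat_lit 0x131a00)) e)) (c (c (m (nat_lit 0x131a00)) e) e)) (c (c (c (m (nat_lit 0x48)) e) e) e)) (c (c (c (c (m (nat_lit 0x48)) e) e) e) e)) (c (c (c (c (c (m (nat_lit 0x128db730)) e) e) e) e) e))))) (c (c (c (c (c (c (p (nat_lit 0x117723738)) (c (m (nat_lit 0xf503b14)) (c (p (nat_lit 0x228ba3c)) (c (m (nat_lit 0x131a00)) e)))) (c (c (m (nat_lit 0x16828830)) (c (m (nat_lit 0x3831b94)) (c (m (nat_lit 0x98cf4)) e))) (c (c (p (nat_lit 0xeb2930)) (c (m (nat_lit 0x98ca0)) e)) (c (c (m (nat_lit 0x131b08)) e) e)))) (c (c (c (m (nat_lit 0xf503b14)) (c (m (nat_lit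 0x6ccd5c0)) (c (m (nat_lit 0xa8)) e))) (c (c (m (nat_lit 0x3831b94)) (c (m (nat_lit 0xa8)) e)) (c (c (m (nat_lit 0x98ca0)) e) e))) (c (c (c (p (nat_lit 0x228ba3c)) (c (m (nat_lit 0xa8)) e)) (c (c (m (nat_lit 0x98cf4)) e) e)) (c (c (c (m (nat_lit 0x131a00)) e) e) e)))) (c (c (c (c (m (nat_lit 0x16828830)) (c (m (nat_lit 0x3831b94)) (c (m (nat_lit 0x98cf4)) e))) (c (c (m (nat_lit 0x6a686a8)) (c (m (nat_lit 0x263340)) e)) (c (c (m (nat_lit 0x263310)) e) e))) (c (c (c (m (nat_lit 0x3831b94)) (c (m (nat_lit 0xa8)) e)) (c (c (m (nat_lit 0x263340)) e) e)) (c (c (c (m (nat_lit 0x98cf4)) e) e) e))) (c (c (c (c (p (nat_lit 0xeb2930)) (c (m (nat_lit 0x98ca0)) e)) (c (c (m (nat_lit 0x263310)) e) e)) (c (c (c (m (nat_lit 0x98ca0)) e) e) e)) (c (c (c (c (m (nat_lit 0x131b08)) e) e) e) e)))) (c (c (c (c (c (m (nat_lit 0xb6934108)) (c (p (nat_lit 0xf5d324c))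 (c (m (nat_lit 0xc4fbf0)) e))) (c (c (p (nat_lit 0x14a309d8)) (c (m (nat_lit 0x1310f4)) e)) (c (c (m (nat_lit 0x6c084c)) e) e))) (c (c (c (p (nat_lit 0x14a309d8)) (c (m (nat_lit 0x1310f4)) e)) (c (c (m (nat_lit 0x2633b8)) e) e)) (c (c (c (m (nat_lit 0x6c084c)) e) e) e))) (c (c (c (c (p (nat_lit 0xbbd6190)) (c (m (nat_lit 0x1306f8)) e)) (c (c (p (nat_lit 0x38c8b18)) e) e)) (c (c (c (p (nat_lit 0x38c8b18)) e) e) e)) (c (c (c (c (m (nat_lit 0x131904)) e) e) e) e))) (c (c (c (c (c (p (nat_lit 0x4628fa0c)) (c (m (nat_lit 0x98e20)) e)) (c (c (m (nat_lit 0x98dcc)) e) e)) (c (c (c (m (nat_lit 0x6c)) e) e) e)) (c (c (c (c (m (nat_lit 0x408b3ac)) e) e) e) e)) (c (c (c (c (c (m (nat_lit 0x9506928)) e) e) e) e) e)))) (c (c (c (c (c (c (m (nat_lit 0xc2efa3e8)) (c (p (nat_lit 0x85ca88)) (c (m (nat_lit 0xc4fd1c)) e))) (c (c (p (nat_lit 0xfb65938)) (c (m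 (nat_lit 0x131940)) e)) (c (c (m (nat_lit 0x1319a0)) e) e))) (c (c (c (p (nat_lit 0x85ca88)) (c (m (nat_lit 0x4c65c0)) e)) (c (c (m (nat_lit 0x131940)) e) e)) (c (c (c (m (nat_lit 0xc4fd1c)) e) e) e))) (c (c (c (c (p (nat_lit 0xfb65938)) (c (m (nat_lit 0x131940)) e)) (c (c (m (nat_lit 0x263400)) e) e)) (c (c (c (m (nat_lit 0x131940)) e) e) e)) (c (c (c (c (m (nat_lit 0x1319a0)) e) e) e) e))) (c (c (c (c (c (p (nat_lit 0x4628fa0c)) (c (m (nat_lit 0x98e20)) e)) (c (c (m (nat_lit 0x6c)) e) e)) (c (c (c (m (nat_lit 0x98dcc)) e) e) e)) (c (c (c (c (m (nat_lit 0x408b3ac)) e) e) e) e)) (c (c (c (c (c (m (nat_lit 0x394c80)) e) e) e) e) e))) (c (c (c (c (c (c (p (nat_lit 0x49c445a0)) (c (m (nat_lit 0x131a00)) e)) (c (c (m (nat_lit 0x48)) e) e)) (c (c (c (m (nat_lit 0x131a00)) e) e) e)) (c (c (c (c (m (nat_lit 0x48)) e) e) e) e)) (c (c (c (c (c (m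 (nat_lit 0x9506928)) e) e) e) e) e)) (c (c (c (c (c (c (m (nat_lit 0x128db730)) e) e) e) e) e) e))))) (c (c (c (c (c (c (c (p (nat_lit 0x117723738)) (c (m (nat_lit 0xf503b14)) (c (p (nat_lit 0x228ba3c)) (c (m (nat_lit 0x131a00)) e)))) (c (c (m (nat_lit 0x16828830)) (c (m (nat_lit 0x3831b94)) (c (m (nat_lit 0x98cf4)) e))) (c (c (p (nat_lit 0xeb2930)) (c (m (nat_lit 0x98ca0)) e)) (c (c (m (nat_lit 0x131b08)) e) e)))) (c (c (c (m (nat_lit 0x16828830)) (c (m (nat_lit 0x3831b94)) (c (m (nat_lit 0x98cf4)) e))) (c (c (m (nat_lit 0x6a686a8)) (c (m (nat_lit 0x263340)) e)) (c (c (m (nat_lit 0x263310)) e) e))) (c (c (c (p (nat_lit 0xeb2930)) (c (m (nat_lit 0x98ca0)) e)) (c (c (m (nat_lit 0x263310)) e) e)) (c (c (c (m (nat_lit 0x131b08)) e) e) e)))) (c (c (c (c (m (nat_lit 0xf503b14)) (c (m (nat_lit 0x6ccd5c0)) (c (m (nat_lit 0xa8)) e))) (c (c (m (nat_lit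 0x3831b94)) (c (m (nat_lit 0xa8)) e)) (c (c (m (nat_lit 0x98ca0)) e) e))) (c (c (c (m (nat_lit 0x3831b94)) (c (m (nat_lit 0xa8)) e)) (c (c (m (nat_lit 0x263340)) e) e)) (c (c (c (m (nat_lit 0x98ca0)) e) e) e))) (c (c (c (c (p (nat_lit 0x228ba3c)) (c (m (nat_lit 0xa8)) e)) (c (c (m (nat_lit 0x98cf4)) e) e)) (c (c (c (m (nat_lit 0x98cf4)) e) e) e)) (c (c (c (c (m (nat_lit 0x131a00)) e) e) e) e)))) (c (c (c (c (c (m (nat_lit 0xb6934108)) (c (p (nat_lit 0xf5d324c)) (c (m (nat_lit 0xc4fbf0)) e))) (c (c (p (nat_lit 0x14a309d8)) (c (m (nat_lit 0x1310f4)) e)) (c (c (m (nat_lit 0x6c084c)) e) e))) (c (c (c (p (nat_lit 0xbbd6190)) (c (m (nat_lit 0x1306f8)) e)) (c (c (p (nat_lit 0x38c8b18)) e) e)) (c (c (c (m (nat_lit 0x131904)) e) e) e))) (c (c (c (c (p (nat_lit 0x14a309d8)) (c (m (nat_lit 0x1310f4)) e)) (c (c (m (nat_lit 0x2633b8)) e) e)) (c (c (c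 (p (nat_lit 0x38c8b18)) e) e) e)) (c (c (c (c (m (nat_lit 0x6c084c)) e) e) e) e))) (c (c (c (c (c (p (nat_lit 0x4628fa0c)) (c (m (nat_lit 0x98e20)) e)) (c (c (m (nat_lit 0x98dcc)) e) e)) (c (c (c (m (nat_lit 0x408b3ac)) e) e) e)) (c (c (c (c (m (nat_lit 0x6c)) e) e) e) e)) (c (c (c (c (c (m (nat_lit 0x9506928)) e) e) e) e) e)))) (c (c (c (c (c (c (m (nat_lit 0xb6934108)) (c (p (nat_lit 0xf5d324c)) (c (m (nat_lit 0xc4fbf0)) e))) (c (c (p (nat_lit 0xbbd6190)) (c (m (nat_lit 0x1306f8)) e)) (c (c (m (nat_lit 0x131904)) e) e))) (c (c (c (p (nat_lit 0x14a309d8)) (c (m (nat_lit 0x1310f4)) e)) (c (c (p (nat_lit 0x38c8b18)) e) e)) (c (c (c (m (nat_lit 0x6c084c)) e) e) e))) (c (c (c (c (p (nat_lit 0x14a309d8)) (c (m (nat_lit 0x1310f4)) e)) (c (c (p (nat_lit 0x38c8b18)) e) e)) (c (c (c (m (nat_lit 0x2633b8)) e) e) e)) (c (c (c (c (m (nat_lit 0x6c084c))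 e) e) e) e))) (c (c (c (c (c (p (nat_lit 0x1ca7b64)) (c (m (nat_lit 0x38ce2c)) e)) (c (c (m (nat_lit 0x1316f4)) e) e)) (c (c (c (m (nat_lit 0x1316f4)) e) e) e)) (c (c (c (c (m (nat_lit 0x1316f4)) e) e) e) e)) (c (c (c (c (c (m (nat_lit 0x5f7fc0)) e) e) e) e) e))) (c (c (c (c (c (c (p (nat_lit 0x4628fa0c)) (c (m (nat_lit 0x98e20)) e)) (c (c (m (nat_lit 0x408b3ac)) e) e)) (c (c (c (m (nat_lit 0x98dcc)) e) e) e)) (c (c (c (c (m (nat_lit 0x6c)) e) e) e) e)) (c (c (c (c (c (m (nat_lit 0x5f7fc0)) e) e) e) e) e)) (c (c (c (c (c (c (m (nat_lit 0x9506928)) e) e) e) e) e) e)))) (c (c (c (c (c (c (c (m (nat_lit 0xc2efa3e8)) (c (p (nat_lit 0x85ca88)) (c (m (nat_lit 0xc4fd1c)) e))) (c (c (p (nat_lit 0xfb65938)) (c (m (nat_lit 0x131940)) e)) (c (c (m (nat_lit 0x1319a0)) e) e))) (c (c (c (p (nat_lit 0xfb65938)) (c (m (nat_lit 0x131940)) e)) (c (c (m (nat_lit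 0x263400)) e) e)) (c (c (c (m (nat_lit 0x1319a0)) e) e) e))) (c (c (c (c (p (nat_lit 0x85ca88)) (c (m (nat_lit 0x4c65c0)) e)) (c (c (m (nat_lit 0x131940)) e) e)) (c (c (c (m (nat_lit 0x131940)) e) e) e)) (c (c (c (c (m (nat_lit 0xc4fd1c)) e) e) e) e))) (c (c (c (c (c (p (nat_lit 0x4628fa0c)) (c (m (nat_lit 0x98e20)) e)) (c (c (m (nat_lit 0x6c)) e) e)) (c (c (c (m (nat_lit 0x408b3ac)) e) e) e)) (c (c (c (c (m (nat_lit 0x98dcc)) e) e) e) e)) (c (c (c (c (c (m (nat_lit 0x394c80)) e) e) e) e) e))) (c (c (c (c (c (c (p (nat_lit 0x4628fa0c)) (c (m (nat_lit 0x98e20)) e)) (c (c (m (nat_lit 0x408b3ac)) e) e)) (c (c (c (m (nat_lit 0x6c)) e) e) e)) (c (c (c (c (m (nat_lit 0x98dcc)) e) e) e) e)) (c (c (c (c (c (m (nat_lit 0x5f7fc0)) e) e) e) e) e)) (c (c (c (c (c (c (m (nat_lit 0x394c80)) e) e) e) e) e) e))) (c (c (c (c (c (c (c (p (nat_lit 0x49c445a0))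 (c (m (nat_lit 0x131a00)) e)) (c (c (m (nat_lit 0x48)) e) e)) (c (c (c (m (nat_lit 0x48)) e) e) e)) (c (c (c (c (m (nat_lit 0x131a00)) e) e) e) e)) (c (c (c (c (c (m (nat_lit 0x9506928)) e) e) e) e) e)) (c (c (c (c (c (c (m (nat_lit 0x9506928)) e) e) e) e) e) e)) (c (c (c (c (c (c (c (m (nat_lit 0x128db730)) e) e) e) e) e) e) e))))) (c (c (c (c (c (c (c (c (p (nat_lit 0x117723738)) (c (m (nat_lit 0x16828830)) (c (p (nat_lit 0xeb2930)) (c (m (nat_lit 0x131b08)) e)))) (c (c (m (nat_lit 0xf503b14)) (c (m (nat_lit 0x3831b94)) (c (m (nat_lit 0x98ca0)) e))) (c (c (p (nat_lit 0x228ba3c)) (c (m (nat_lit 0x98cf4)) e)) (c (c (m (nat_lit 0x131a00)) e) e)))) (c (c (c (m (nat_lit 0xf503b14)) (c (m (nat_lit 0x3831b94)) (c (m (nat_lit 0x98ca0)) e))) (c (c (m (nat_lit 0x6ccd5c0)) (c (m (nat_lit 0xa8)) e)) (c (c (m (nat_lit 0xa8)) e) e))) (c (c (c (p (nat_lit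 0x228ba3c)) (c (m (nat_lit 0x98cf4)) e)) (c (c (m (nat_lit 0xa8)) e) e)) (c (c (c (m (nat_lit 0x131a00)) e) e) e)))) (c (c (c (c (m (nat_lit 0x16828830)) (c (m (nat_lit 0x6a686a8)) (c (m (nat_lit 0x263310)) e))) (c (c (m (nat_lit 0x3831b94)) (c (m (nat_lit 0x263340)) e)) (c (c (m (nat_lit 0x98cf4)) e) e))) (c (c (c (m (nat_lit 0x3831b94)) (c (m (nat_lit 0x263340)) e)) (c (c (m (nat_lit 0xa8)) e) e)) (c (c (c (m (nat_lit 0x98cf4)) e) e) e))) (c (c (c (c (p (nat_lit 0xeb2930)) (c (m (nat_lit 0x263310)) e)) (c (c (m (nat_lit 0x98ca0)) e) e)) (c (c (c (m (nat_lit 0x98ca0)) e) e) e)) (c (c (c (c (m (nat_lit 0x131b08)) e) e) e) e)))) (c (c (c (c (c (m (nat_lit 0xb6934108)) (c (p (nat_lit 0x14a309d8)) (c (m (nat_lit 0x6c084c)) e))) (c (c (p (nat_lit 0xf5d324c)) (c (m (nat_lit 0x1310f4)) e)) (c (c (m (nat_lit 0xc4fbf0)) e) e))) (c (c (c (p (nat_lit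 0x14a309d8)) (c (m (nat_lit 0x2633b8)) e)) (c (c (m (nat_lit 0x1310f4)) e) e)) (c (c (c (m (nat_lit 0x6c084c)) e) e) e))) (c (c (c (c (p (nat_lit 0xbbd6190)) (c (p (nat_lit 0x38c8b18)) e)) (c (c (m (nat_lit 0x1306f8)) e) e)) (c (c (c (p (nat_lit 0x38c8b18)) e) e) e)) (c (c (c (c (m (nat_lit 0x131904)) e) e) e) e))) (c (c (c (c (c (p (nat_lit 0x4628fa0c)) (c (m (nat_lit 0x98dcc)) e)) (c (c (m (nat_lit 0x98e20)) e) e)) (c (c (c (m (nat_lit 0x6c)) e) e) e)) (c (c (c (c (m (nat_lit 0x408b3ac)) e) e) e) e)) (c (c (c (c (c (m (nat_lit 0x9506928)) e) e) e) e) e)))) (c (c (c (c (c (c (m (nat_lit 0xb6934108)) (c (p (nat_lit 0x14a309d8)) (c (m (nat_lit 0x6c084c)) e))) (c (c (p (nat_lit 0x14a309d8)) (c (m (nat_lit 0x2633b8)) e)) (c (c (m (nat_lit 0x6c084c)) e) e))) (c (c (c (p (nat_lit 0xf5d324c)) (c (m (nat_lit 0x1310f4)) e)) (c (c (m (nat_lit 0x1310f4))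 e) e)) (c (c (c (m (nat_lit 0xc4fbf0)) e) e) e))) (c (c (c (c (p (nat_lit 0xbbd6190)) (c (p (nat_lit 0x38c8b18)) e)) (c (c (p (nat_lit 0x38c8b18)) e) e)) (c (c (c (m (nat_lit 0x1306f8)) e) e) e)) (c (c (c (c (m (nat_lit 0x131904)) e) e) e) e))) (c (c (c (c (c (p (nat_lit 0xa8f1fbc0)) (c (m (nat_lit 0xefd98e8)) e)) (c (c (m (nat_lit 0xefd98e8)) e) e)) (c (c (c (m (nat_lit 0xefd98e8)) e) e) e)) (c (c (c (c (m (nat_lit 0x72c3a8)) e) e) e) e)) (c (c (c (c (c (m (nat_lit 0x2a2e2e40)) e) e) e) e) e))) (c (c (c (c (c (c (p (nat_lit 0x4628fa0c)) (c (m (nat_lit 0x98dcc)) e)) (c (c (m (nat_lit 0x6c)) e) e)) (c (c (c (m (nat_lit 0x98e20)) e) e) e)) (c (c (c (c (m (nat_lit 0x408b3ac)) e) e) e) e)) (c (c (c (c (c (m (nat_lit 0x2a2e2e40)) e) e) e) e) e)) (c (c (c (c (c (c (m (nat_lit 0x9506928)) e) e) e) e) e) e)))) (c (c (c (c (c (c (c (m (nat_lit 0x216f720))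 (c (p (nat_lit 0x1a6ebaf8)) (c (m (nat_lit 0x131bc8)) e))) (c (c (p (nat_lit 0x1a6ebaf8)) (c (p (nat_lit 0x12c0)) e)) (c (c (m (nat_lit 0x131bc8)) e) e))) (c (c (c (p (nat_lit 0x1a6ebaf8)) (c (p (nat_lit 0x12c0)) e)) (c (c (p (nat_lit 0x7191630)) e) e)) (c (c (c (m (nat_lit 0x131bc8)) e) e) e))) (c (c (c (c (p (nat_lit 0x1a6ebaf8)) (c (p (nat_lit 0x7191630)) e)) (c (c (p (nat_lit 0x12c0)) e) e)) (c (c (c (p (nat_lit 0x12c0)) e) e) e)) (c (c (c (c (m (nat_lit 0x131bc8)) e) e) e) e))) (c (c (c (c (c (p (nat_lit 0x203b3c8)) (c (m (nat_lit 0xefda140)) e)) (c (c (m (nat_lit 0xefda140)) e) e)) (c (c (c (m (nat_lit 0x791ff58)) e) e) e)) (c (c (c (c (m (nat_lit 0x791ff58)) e) e) e) e)) (c (c (c (c (c (m (nat_lit 0x394998)) e) e) e) e) e))) (c (c (c (c (c (c (p (nat_lit 0x203b3c8)) (c (m (nat_lit 0xefda140)) e)) (c (c (m (nat_lit 0x791ff58)) e) e))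 (c (c (c (m (nat_lit 0xefda140)) e) e) e)) (c (c (c (c (m (nat_lit 0x791ff58)) e) e) e) e)) (c (c (c (c (c (m (nat_lit 0x98cd18)) e) e) e) e) e)) (c (c (c (c (c (c (m (nat_lit 0x394998)) e) e) e) e) e) e))) (c (c (c (c (c (c (c (p (nat_lit 0xe532c0)) (c (m (nat_lit 0x2646a8)) e)) (c (c (m (nat_lit 0x76ba7e8)) e) e)) (c (c (c (m (nat_lit 0x76ba7e8)) e) e) e)) (c (c (c (c (m (nat_lit 0x2646a8)) e) e) e) e)) (c (c (c (c (c (m (nat_lit 0x42dff8)) e) e) e) e) e)) (c (c (c (c (c (c (m (nat_lit 0x42dff8)) e) e) e) e) e) e)) (c (c (c (c (c (c (c (m (nat_lit 0x4c5d50)) e) e) e) e) e) e) e)))) (c (c (c (c (c (c (c (c (m (nat_lit 0xc2efa3e8)) (c (p (nat_lit 0xfb65938)) (c (m (nat_lit 0x1319a0)) e))) (c (c (p (nat_lit 0x85ca88)) (c (m (nat_lit 0x131940)) e)) (c (c (m (nat_lit 0xc4fd1c)) e) e))) (c (c (c (p (nat_lit 0x85ca88)) (c (m (nat_lit 0x131940))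 e)) (c (c (m (nat_lit 0x4c65c0)) e) e)) (c (c (c (m (nat_lit 0xc4fd1c)) e) e) e))) (c (c (c (c (p (nat_lit 0xfb65938)) (c (m (nat_lit 0x263400)) e)) (c (c (m (nat_lit 0x131940)) e) e)) (c (c (c (m (nat_lit 0x131940)) e) e) e)) (c (c (c (c (m (nat_lit 0x1319a0)) e) e) e) e))) (c (c (c (c (c (p (nat_lit 0x4628fa0c)) (c (m (nat_lit 0x6c)) e)) (c (c (m (nat_lit 0x98e20)) e) e)) (c (c (c (m (nat_lit 0x98dcc)) e) e) e)) (c (c (c (c (m (nat_lit 0x408b3ac)) e) e) e) e)) (c (c (c (c (c (m (nat_lit 0x394c80)) e) e) e) e) e))) (c (c (c (c (c (c (p (nat_lit 0x4628fa0c)) (c (m (nat_lit 0x6c)) e)) (c (c (m (nat_lit 0x98dcc)) e) e)) (c (c (c (m (nat_lit 0x98e20)) e) e) e)) (c (c (c (c (m (nat_lit 0x408b3ac)) e) e) e) e)) (c (c (c (c (c (m (nat_lit 0x2a2e2e40)) e) e) e) e) e)) (c (c (c (c (c (c (m (nat_lit 0x394c80)) e) e) e) e) e) e))) (c (c (c (c (c (c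 (c (p (nat_lit 0xe532c0)) (c (m (nat_lit 0x76ba7e8)) e)) (c (c (m (nat_lit 0x2646a8)) e) e)) (c (c (c (m (nat_lit 0x2646a8)) e) e) e)) (c (c (c (c (m (nat_lit 0x76ba7e8)) e) e) e) e)) (c (c (c (c (c (m (nat_lit 0x42dff8)) e) e) e) e) e)) (c (c (c (c (c (c (m (nat_lit 0x42dff8)) e) e) e) e) e) e)) (c (c (c (c (c (c (c (m (nat_lit 0x4c6440)) e) e) e) e) e) e) e))) (c (c (c (c (c (c (c (c (p (nat_lit 0x49c445a0)) (c (m (nat_lit 0x48)) e)) (c (c (m (nat_lit 0x131a00)) e) e)) (c (c (c (m (nat_lit 0x131a00)) e) e) e)) (c (c (c (c (m (nat_lit 0x48)) e) e) e) e)) (c (c (c (c (c (m (nat_lit 0x9506928)) e) e) e) e) e)) (c (c (c (c (c (c (m (nat_lit 0x9506928)) e) e) e) e) e) e)) (c (c (c (c (c (c (c (m (nat_lit 0x4c5d50)) e) e) e) e) e) e) e)) (c (c (c (c (c (c (c (c (m (nat_lit 0x128db730)) e) e) e) e) e) e) e) e))))) (c (c (c (c (c (c (c (c (c (p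 (nat_lit 0x117723738)) (c (m (nat_lit 0x16828830)) (c (p (nat_lit 0xeb2930)) (c (m (nat_lit 0x131b08)) e)))) (c (c (m (nat_lit 0xf503b14)) (c (m (nat_lit 0x3831b94)) (c (m (nat_lit 0x98ca0)) e))) (c (c (p (nat_lit 0x228ba3c)) (c (m (nat_lit 0x98cf4)) e)) (c (c (m (nat_lit 0x131a00)) e) e)))) (c (c (c (m (nat_lit 0x16828830)) (c (m (nat_lit 0x6a686a8)) (c (m (nat_lit 0x263310)) e))) (c (c (m (nat_lit 0x3831b94)) (c (m (nat_lit 0x263340)) e)) (c (c (m (nat_lit 0x98cf4)) e) e))) (c (c (c (p (nat_lit 0xeb2930)) (c (m (nat_lit 0x263310)) e)) (c (c (m (nat_lit 0x98ca0)) e) e)) (c (c (c (m (nat_lit 0x131b08)) e) e) e)))) (c (c (c (c (m (nat_lit 0xf503b14)) (c (m (nat_lit 0x3831b94)) (c (m (nat_lit 0x98ca0)) e))) (c (c (m (nat_lit 0x6ccd5c0)) (c (m (nat_lit 0xa8)) e)) (c (c (m (nat_lit 0xa8)) e) e))) (c (c (c (m (nat_lit 0x3831b94)) (c (m (nat_lit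 0x263340)) e)) (c (c (m (nat_lit 0xa8)) e) e)) (c (c (c (m (nat_lit 0x98ca0)) e) e) e))) (c (c (c (c (p (nat_lit 0x228ba3c)) (c (m (nat_lit 0x98cf4)) e)) (c (c (m (nat_lit 0xa8)) e) e)) (c (c (c (m (nat_lit 0x98cf4)) e) e) e)) (c (c (c (c (m (nat_lit 0x131a00)) e) e) e) e)))) (c (c (c (c (c (m (nat_lit 0xb6934108)) (c (p (nat_lit 0x14a309d8)) (c (m (nat_lit 0x6c084c)) e))) (c (c (p (nat_lit 0xf5d324c)) (c (m (nat_lit 0x1310f4)) e)) (c (c (m (nat_lit 0xc4fbf0)) e) e))) (c (c (c (p (nat_lit 0xbbd6190)) (c (p (nat_lit 0x38c8b18)) e)) (c (c (m (nat_lit 0x1306f8)) e) e)) (c (c (c (m (nat_lit 0x131904)) e) e) e))) (c (c (c (c (p (nat_lit 0x14a309d8)) (c (m (nat_lit 0x2633b8)) e)) (c (c (m (nat_lit 0x1310f4)) e) e)) (c (c (c (p (nat_lit 0x38c8b18)) e) e) e)) (c (c (c (c (m (nat_lit 0x6c084c)) e) e) e) e))) (c (c (c (c (c (p (nat_lit 0x4628fa0c))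 (c (m (nat_lit 0x98dcc)) e)) (c (c (m (nat_lit 0x98e20)) e) e)) (c (c (c (m (nat_lit 0x408b3ac)) e) e) e)) (c (c (c (c (m (nat_lit 0x6c)) e) e) e) e)) (c (c (c (c (c (m (nat_lit 0x9506928)) e) e) e) e) e)))) (c (c (c (c (c (c (m (nat_lit 0x216f720)) (c (p (nat_lit 0x1a6ebaf8)) (c (m (nat_lit 0x131bc8)) e))) (c (c (p (nat_lit 0x1a6ebaf8)) (c (p (nat_lit 0x12c0)) e)) (c (c (m (nat_lit 0x131bc8)) e) e))) (c (c (c (p (nat_lit 0x1a6ebaf8)) (c (p (nat_lit 0x7191630)) e)) (c (c (p (nat_lit 0x12c0)) e) e)) (c (c (c (m (nat_lit 0x131bc8)) e) e) e))) (c (c (c (c (p (nat_lit 0x1a6ebaf8)) (c (p (nat_lit 0x12c0)) e)) (c (c (p (nat_lit 0x7191630)) e) e)) (c (c (c (p (nat_lit 0x12c0)) e) e) e)) (c (c (c (c (m (nat_lit 0x131bc8)) e) e) e) e))) (c (c (c (c (c (p (nat_lit 0x203b3c8)) (c (m (nat_lit 0xefda140)) e)) (c (c (m (nat_lit 0xefda140)) e) e)) (c (c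 (c (m (nat_lit 0x791ff58)) e) e) e)) (c (c (c (c (m (nat_lit 0x791ff58)) e) e) e) e)) (c (c (c (c (c (m (nat_lit 0x394998)) e) e) e) e) e))) (c (c (c (c (c (c (p (nat_lit 0xe532c0)) (c (m (nat_lit 0x2646a8)) e)) (c (c (m (nat_lit 0x76ba7e8)) e) e)) (c (c (c (m (nat_lit 0x2646a8)) e) e) e)) (c (c (c (c (m (nat_lit 0x76ba7e8)) e) e) e) e)) (c (c (c (c (c (m (nat_lit 0x42dff8)) e) e) e) e) e)) (c (c (c (c (c (c (m (nat_lit 0x4c5d50)) e) e) e) e) e) e)))) (c (c (c (c (c (c (c (m (nat_lit 0xb6934108)) (c (p (nat_lit 0x14a309d8)) (c (m (nat_lit 0x6c084c)) e))) (c (c (p (nat_lit 0x14a309d8)) (c (m (nat_lit 0x2633b8)) e)) (c (c (m (nat_lit 0x6c084c)) e) e))) (c (c (c (p (nat_lit 0xbbd6190)) (c (p (nat_lit 0x38c8b18)) e)) (c (c (p (nat_lit 0x38c8b18)) e) e)) (c (c (c (m (nat_lit 0x131904)) e) e) e))) (c (c (c (c (p (nat_lit 0xf5d324c)) (c (m (nat_lit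 0x1310f4)) e)) (c (c (m (nat_lit 0x1310f4)) e) e)) (c (c (c (m (nat_lit 0x1306f8)) e) e) e)) (c (c (c (c (m (nat_lit 0xc4fbf0)) e) e) e) e))) (c (c (c (c (c (p (nat_lit 0xa8f1fbc0)) (c (m (nat_lit 0xefd98e8)) e)) (c (c (m (nat_lit 0xefd98e8)) e) e)) (c (c (c (m (nat_lit 0x72c3a8)) e) e) e)) (c (c (c (c (m (nat_lit 0xefd98e8)) e) e) e) e)) (c (c (c (c (c (m (nat_lit 0x2a2e2e40)) e) e) e) e) e))) (c (c (c (c (c (c (p (nat_lit 0x203b3c8)) (c (m (nat_lit 0xefda140)) e)) (c (c (m (nat_lit 0x791ff58)) e) e)) (c (c (c (m (nat_lit 0x791ff58)) e) e) e)) (c (c (c (c (m (nat_lit 0xefda140)) e) e) e) e)) (c (c (c (c (c (m (nat_lit 0x98cd18)) e) e) e) e) e)) (c (c (c (c (c (c (m (nat_lit 0x42dff8)) e) e) e) e) e) e))) (c (c (c (c (c (c (c (p (nat_lit 0x4628fa0c)) (c (m (nat_lit 0x98dcc)) e)) (c (c (m (nat_lit 0x6c)) e) e)) (c (c (c (m (nat_lit 0x408b3ac))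 e) e) e)) (c (c (c (c (m (nat_lit 0x98e20)) e) e) e) e)) (c (c (c (c (c (m (nat_lit 0x2a2e2e40)) e) e) e) e) e)) (c (c (c (c (c (c (m (nat_lit 0x394998)) e) e) e) e) e) e)) (c (c (c (c (c (c (c (m (nat_lit 0x9506928)) e) e) e) e) e) e) e)))) (c (c (c (c (c (c (c (c (m (nat_lit 0xb6934108)) (c (p (nat_lit 0xbbd6190)) (c (m (nat_lit 0x131904)) e))) (c (c (p (nat_lit 0xf5d324c)) (c (m (nat_lit 0x1306f8)) e)) (c (c (m (nat_lit 0xc4fbf0)) e) e))) (c (c (c (p (nat_lit 0x14a309d8)) (c (p (nat_lit 0x38c8b18)) e)) (c (c (m (nat_lit 0x1310f4)) e) e)) (c (c (c (m (nat_lit 0x6c084c)) e) e) e))) (c (c (c (c (p (nat_lit 0x14a309d8)) (c (p (nat_lit 0x38c8b18)) e)) (c (c (m (nat_lit 0x1310f4)) e) e)) (c (c (c (m (nat_lit 0x2633b8)) e) e) e)) (c (c (c (c (m (nat_lit 0x6c084c)) e) e) e) e))) (c (c (c (c (c (p (nat_lit 0x1ca7b64)) (c (m (nat_lit 0x1316f4))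 e)) (c (c (m (nat_lit 0x38ce2c)) e) e)) (c (c (c (m (nat_lit 0x1316f4)) e) e) e)) (c (c (c (c (m (nat_lit 0x1316f4)) e) e) e) e)) (c (c (c (c (c (m (nat_lit 0x5f7fc0)) e) e) e) e) e))) (c (c (c (c (c (c (p (nat_lit 0x203b3c8)) (c (m (nat_lit 0x791ff58)) e)) (c (c (m (nat_lit 0xefda140)) e) e)) (c (c (c (m (nat_lit 0xefda140)) e) e) e)) (c (c (c (c (m (nat_lit 0x791ff58)) e) e) e) e)) (c (c (c (c (c (m (nat_lit 0x98cd18)) e) e) e) e) e)) (c (c (c (c (c (c (m (nat_lit 0x42dff8)) e) e) e) e) e) e))) (c (c (c (c (c (c (c (p (nat_lit 0x203b3c8)) (c (m (nat_lit 0x791ff58)) e)) (c (c (m (nat_lit 0xefda140)) e) e)) (c (c (c (m (nat_lit 0x791ff58)) e) e) e)) (c (c (c (c (m (nat_lit 0xefda140)) e) e) e) e)) (c (c (c (c (c (m (nat_lit 0x98cd18)) e) e) e) e) e)) (c (c (c (c (c (c (m (nat_lit 0x13163d0)) e) e) e) e) e) e)) (c (c (c (c (c (c (c (m (nat_lit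 0x42dff8)) e) e) e) e) e) e) e))) (c (c (c (c (c (c (c (c (p (nat_lit 0x4628fa0c)) (c (m (nat_lit 0x408b3ac)) e)) (c (c (m (nat_lit 0x98e20)) e) e)) (c (c (c (m (nat_lit 0x98dcc)) e) e) e)) (c (c (c (c (m (nat_lit 0x6c)) e) e) e) e)) (c (c (c (c (c (m (nat_lit 0x5f7fc0)) e) e) e) e) e)) (c (c (c (c (c (c (m (nat_lit 0x394998)) e) e) e) e) e) e)) (c (c (c (c (c (c (c (m (nat_lit 0x42dff8)) e) e) e) e) e) e) e)) (c (c (c (c (c (c (c (c (m (nat_lit 0x9506928)) e) e) e) e) e) e) e) e)))) (c (c (c (c (c (c (c (c (c (m (nat_lit 0xc2efa3e8)) (c (p (nat_lit 0xfb65938)) (c (m (nat_lit 0x1319a0)) e))) (c (c (p (nat_lit 0x85ca88)) (c (m (nat_lit 0x131940)) e)) (c (c (m (nat_lit 0xc4fd1c)) e) e))) (c (c (c (p (nat_lit 0xfb65938)) (c (m (nat_lit 0x263400)) e)) (c (c (m (nat_lit 0x131940)) e) e)) (c (c (c (m (nat_lit 0x1319a0)) e) e) e))) (c (c (c (c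 (p (nat_lit 0x85ca88)) (c (m (nat_lit 0x131940)) e)) (c (c (m (nat_lit 0x4c65c0)) e) e)) (c (c (c (m (nat_lit 0x131940)) e) e) e)) (c (c (c (c (m (nat_lit 0xc4fd1c)) e) e) e) e))) (c (c (c (c (c (p (nat_lit 0x4628fa0c)) (c (m (nat_lit 0x6c)) e)) (c (c (m (nat_lit 0x98e20)) e) e)) (c (c (c (m (nat_lit 0x408b3ac)) e) e) e)) (c (c (c (c (m (nat_lit 0x98dcc)) e) e) e) e)) (c (c (c (c (c (m (nat_lit 0x394c80)) e) e) e) e) e))) (c (c (c (c (c (c (p (nat_lit 0xe532c0)) (c (m (nat_lit 0x76ba7e8)) e)) (c (c (m (nat_lit 0x2646a8)) e) e)) (c (c (c (m (nat_lit 0x76ba7e8)) e) e) e)) (c (c (c (c (m (nat_lit 0x2646a8)) e) e) e) e)) (c (c (c (c (c (m (nat_lit 0x42dff8)) e) e) e) e) e)) (c (c (c (c (c (c (m (nat_lit 0x4c6440)) e) e) e) e) e) e))) (c (c (c (c (c (c (c (p (nat_lit 0x4628fa0c)) (c (m (nat_lit 0x6c)) e)) (c (c (m (nat_lit 0x98dcc)) e) e)) (c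 (c (c (m (nat_lit 0x408b3ac)) e) e) e)) (c (c (c (c (m (nat_lit 0x98e20)) e) e) e) e)) (c (c (c (c (c (m (nat_lit 0x2a2e2e40)) e) e) e) e) e)) (c (c (c (c (c (c (m (nat_lit 0x42dff8)) e) e) e) e) e) e)) (c (c (c (c (c (c (c (m (nat_lit 0x394c80)) e) e) e) e) e) e) e))) (c (c (c (c (c (c (c (c (p (nat_lit 0x4628fa0c)) (c (m (nat_lit 0x408b3ac)) e)) (c (c (m (nat_lit 0x98e20)) e) e)) (c (c (c (m (nat_lit 0x6c)) e) e) e)) (c (c (c (c (m (nat_lit 0x98dcc)) e) e) e) e)) (c (c (c (c (c (m (nat_lit 0x5f7fc0)) e) e) e) e) e)) (c (c (c (c (c (c (m (nat_lit 0x42dff8)) e) e) e) e) e) e)) (c (c (c (c (c (c (c (m (nat_lit 0x394998)) e) e) e) e) e) e) e)) (c (c (c (c (c (c (c (c (m (nat_lit 0x394c80)) e) e) e) e) e) e) e) e))) (c (c (c (c (c (c (c (c (c (p (nat_lit 0x49c445a0)) (c (m (nat_lit 0x48)) e)) (c (c (m (nat_lit 0x131a00)) e) e)) (c (c (c (m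 (nat_lit 0x48)) e) e) e)) (c (c (c (c (m (nat_lit 0x131a00)) e) e) e) e)) (c (c (c (c (c (m (nat_lit 0x9506928)) e) e) e) e) e)) (c (c (c (c (c (c (m (nat_lit 0x4c5d50)) e) e) e) e) e) e)) (c (c (c (c (c (c (c (m (nat_lit 0x9506928)) e) e) e) e) e) e) e)) (c (c (c (c (c (c (c (c (m (nat_lit 0x9506928)) e) e) e) e) e) e) e) e)) (c (c (c (c (c (c (c (c (c (m (nat_lit 0x128db730)) e) e) e) e) e) e) e) e) e))))) (c (c (c (c (c (c (c (c (c (c (p (nat_lit 0x117723738)) (c (m (nat_lit 0x16828830)) (c (p (nat_lit 0xeb2930)) (c (m (nat_lit 0x131b08)) e)))) (c (c (m (nat_lit 0x16828830)) (c (m (nat_lit 0x6a686a8)) (c (m (nat_lit 0x263310)) e))) (c (c (p (nat_lit 0xeb2930)) (c (m (nat_lit 0x263310)) e)) (c (c (m (nat_lit 0x131b08)) e) e)))) (c (c (c (m (nat_lit 0xf503b14)) (c (m (nat_lit 0x3831b94)) (c (m (nat_lit 0x98ca0)) e))) (c (c (m (nat_lit 0x3831b94))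 (c (m (nat_lit 0x263340)) e)) (c (c (m (nat_lit 0x98ca0)) e) e))) (c (c (c (p (nat_lit 0x228ba3c)) (c (m (nat_lit 0x98cf4)) e)) (c (c (m (nat_lit 0x98cf4)) e) e)) (c (c (c (m (nat_lit 0x131a00)) e) e) e)))) (c (c (c (c (m (nat_lit 0xf503b14)) (c (m (nat_lit 0x3831b94)) (c (m (nat_lit 0x98ca0)) e))) (c (c (m (nat_lit 0x3831b94)) (c (m (nat_lit 0x263340)) e)) (c (c (m (nat_lit 0x98ca0)) e) e))) (c (c (c (m (nat_lit 0x6ccd5c0)) (c (m (nat_lit 0xa8)) e)) (c (c (m (nat_lit 0xa8)) e) e)) (c (c (c (m (nat_lit 0xa8)) e) e) e))) (c (c (c (c (p (nat_lit 0x228ba3c)) (c (m (nat_lit 0x98cf4)) e)) (c (c (m (nat_lit 0x98cf4)) e) e)) (c (c (c (m (nat_lit 0xa8)) e) e) e)) (c (c (c (c (m (nat_lit 0x131a00)) e) e) e) e)))) (c (c (c (c (c (m (nat_lit 0x216f720)) (c (p (nat_lit 0x1a6ebaf8)) (c (m (nat_lit 0x131bc8)) e))) (c (c (p (nat_lit 0x1a6ebaf8)) (c (p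 (nat_lit 0x7191630)) e)) (c (c (m (nat_lit 0x131bc8)) e) e))) (c (c (c (p (nat_lit 0x1a6ebaf8)) (c (p (nat_lit 0x12c0)) e)) (c (c (p (nat_lit 0x12c0)) e) e)) (c (c (c (m (nat_lit 0x131bc8)) e) e) e))) (c (c (c (c (p (nat_lit 0x1a6ebaf8)) (c (p (nat_lit 0x12c0)) e)) (c (c (p (nat_lit 0x12c0)) e) e)) (c (c (c (p (nat_lit 0x7191630)) e) e) e)) (c (c (c (c (m (nat_lit 0x131bc8)) e) e) e) e))) (c (c (c (c (c (p (nat_lit 0xe532c0)) (c (m (nat_lit 0x2646a8)) e)) (c (c (m (nat_lit 0x2646a8)) e) e)) (c (c (c (m (nat_lit 0x76ba7e8)) e) e) e)) (c (c (c (c (m (nat_lit 0x76ba7e8)) e) e) e) e)) (c (c (c (c (c (m (nat_lit 0x4c5d50)) e) e) e) e) e)))) (c (c (c (c (c (c (m (nat_lit 0xb6934108)) (c (p (nat_lit 0x14a309d8)) (c (m (nat_lit 0x6c084c)) e))) (c (c (p (nat_lit 0xbbd6190)) (c (p (nat_lit 0x38c8b18)) e)) (c (c (m (nat_lit 0x131904)) e) e))) (c (c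 (c (p (nat_lit 0xf5d324c)) (c (m (nat_lit 0x1310f4)) e)) (c (c (m (nat_lit 0x1306f8)) e) e)) (c (c (c (m (nat_lit 0xc4fbf0)) e) e) e))) (c (c (c (c (p (nat_lit 0x14a309d8)) (c (m (nat_lit 0x2633b8)) e)) (c (c (p (nat_lit 0x38c8b18)) e) e)) (c (c (c (m (nat_lit 0x1310f4)) e) e) e)) (c (c (c (c (m (nat_lit 0x6c084c)) e) e) e) e))) (c (c (c (c (c (p (nat_lit 0x203b3c8)) (c (m (nat_lit 0xefda140)) e)) (c (c (m (nat_lit 0x791ff58)) e) e)) (c (c (c (m (nat_lit 0xefda140)) e) e) e)) (c (c (c (c (m (nat_lit 0x791ff58)) e) e) e) e)) (c (c (c (c (c (m (nat_lit 0x42dff8)) e) e) e) e) e))) (c (c (c (c (c (c (p (nat_lit 0x4628fa0c)) (c (m (nat_lit 0x98dcc)) e)) (c (c (m (nat_lit 0x408b3ac)) e) e)) (c (c (c (m (nat_lit 0x98e20)) e) e) e)) (c (c (c (c (m (nat_lit 0x6c)) e) e) e) e)) (c (c (c (c (c (m (nat_lit 0x394998)) e) e) e) e) e)) (c (c (c (c (c (c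 (m (nat_lit 0x9506928)) e) e) e) e) e) e)))) (c (c (c (c (c (c (c (m (nat_lit 0xb6934108)) (c (p (nat_lit 0x14a309d8)) (c (m (nat_lit 0x6c084c)) e))) (c (c (p (nat_lit 0xbbd6190)) (c (p (nat_lit 0x38c8b18)) e)) (c (c (m (nat_lit 0x131904)) e) e))) (c (c (c (p (nat_lit 0x14a309d8)) (c (m (nat_lit 0x2633b8)) e)) (c (c (p (nat_lit 0x38c8b18)) e) e)) (c (c (c (m (nat_lit 0x6c084c)) e) e) e))) (c (c (c (c (p (nat_lit 0xf5d324c)) (c (m (nat_lit 0x1310f4)) e)) (c (c (m (nat_lit 0x1306f8)) e) e)) (c (c (c (m (nat_lit 0x1310f4)) e) e) e)) (c (c (c (c (m (nat_lit 0xc4fbf0)) e) e) e) e))) (c (c (c (c (c (p (nat_lit 0x203b3c8)) (c (m (nat_lit 0xefda140)) e)) (c (c (m (nat_lit 0x791ff58)) e) e)) (c (c (c (m (nat_lit 0x791ff58)) e) e) e)) (c (c (c (c (m (nat_lit 0xefda140)) e) e) e) e)) (c (c (c (c (c (m (nat_lit 0x42dff8)) e) e) e) e) e))) (c (c (c (c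 (c (c (p (nat_lit 0xa8f1fbc0)) (c (m (nat_lit 0xefd98e8)) e)) (c (c (m (nat_lit 0x72c3a8)) e) e)) (c (c (c (m (nat_lit 0xefd98e8)) e) e) e)) (c (c (c (c (m (nat_lit 0xefd98e8)) e) e) e) e)) (c (c (c (c (c (m (nat_lit 0x98cd18)) e) e) e) e) e)) (c (c (c (c (c (c (m (nat_lit 0x2a2e2e40)) e) e) e) e) e) e))) (c (c (c (c (c (c (c (p (nat_lit 0x4628fa0c)) (c (m (nat_lit 0x98dcc)) e)) (c (c (m (nat_lit 0x408b3ac)) e) e)) (c (c (c (m (nat_lit 0x6c)) e) e) e)) (c (c (c (c (m (nat_lit 0x98e20)) e) e) e) e)) (c (c (c (c (c (m (nat_lit 0x394998)) e) e) e) e) e)) (c (c (c (c (c (c (m (nat_lit 0x2a2e2e40)) e) e) e) e) e) e)) (c (c (c (c (c (c (c (m (nat_lit 0x9506928)) e) e) e) e) e) e) e)))) (c (c (c (c (c (c (c (c (m (nat_lit 0xb6934108)) (c (p (nat_lit 0xbbd6190)) (c (m (nat_lit 0x131904)) e))) (c (c (p (nat_lit 0x14a309d8)) (c (p (nat_lit 0x38c8b18))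 e)) (c (c (m (nat_lit 0x6c084c)) e) e))) (c (c (c (p (nat_lit 0xf5d324c)) (c (m (nat_lit 0x1306f8)) e)) (c (c (m (nat_lit 0x1310f4)) e) e)) (c (c (c (m (nat_lit 0xc4fbf0)) e) e) e))) (c (c (c (c (p (nat_lit 0x14a309d8)) (c (p (nat_lit 0x38c8b18)) e)) (c (c (m (nat_lit 0x2633b8)) e) e)) (c (c (c (m (nat_lit 0x1310f4)) e) e) e)) (c (c (c (c (m (nat_lit 0x6c084c)) e) e) e) e))) (c (c (c (c (c (p (nat_lit 0x203b3c8)) (c (m (nat_lit 0x791ff58)) e)) (c (c (m (nat_lit 0xefda140)) e) e)) (c (c (c (m (nat_lit 0xefda140)) e) e) e)) (c (c (c (c (m (nat_lit 0x791ff58)) e) e) e) e)) (c (c (c (c (c (m (nat_lit 0x42dff8)) e) e) e) e) e))) (c (c (c (c (c (c (p (nat_lit 0x1ca7b64)) (c (m (nat_lit 0x1316f4)) e)) (c (c (m (nat_lit 0x1316f4)) e) e)) (c (c (c (m (nat_lit 0x38ce2c)) e) e) e)) (c (c (c (c (m (nat_lit 0x1316f4)) e) e) e) e)) (c (c (c (c (c (m (nat_lit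 0x98cd18)) e) e) e) e) e)) (c (c (c (c (c (c (m (nat_lit 0x5f7fc0)) e) e) e) e) e) e))) (c (c (c (c (c (c (c (p (nat_lit 0x203b3c8)) (c (m (nat_lit 0x791ff58)) e)) (c (c (m (nat_lit 0x791ff58)) e) e)) (c (c (c (m (nat_lit 0xefda140)) e) e) e)) (c (c (c (c (m (nat_lit 0xefda140)) e) e) e) e)) (c (c (c (c (c (m (nat_lit 0x13163d0)) e) e) e) e) e)) (c (c (c (c (c (c (m (nat_lit 0x98cd18)) e) e) e) e) e) e)) (c (c (c (c (c (c (c (m (nat_lit 0x42dff8)) e) e) e) e) e) e) e))) (c (c (c (c (c (c (c (c (p (nat_lit 0x4628fa0c)) (c (m (nat_lit 0x408b3ac)) e)) (c (c (m (nat_lit 0x98dcc)) e) e)) (c (c (c (m (nat_lit 0x98e20)) e) e) e)) (c (c (c (c (m (nat_lit 0x6c)) e) e) e) e)) (c (c (c (c (c (m (nat_lit 0x394998)) e) e) e) e) e)) (c (c (c (c (c (c (m (nat_lit 0x5f7fc0)) e) e) e) e) e) e)) (c (c (c (c (c (c (c (m (nat_lit 0x42dff8)) e) e) e) e) e) e)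 e)) (c (c (c (c (c (c (c (c (m (nat_lit 0x9506928)) e) e) e) e) e) e) e) e)))) (c (c (c (c (c (c (c (c (c (m (nat_lit 0xb6934108)) (c (p (nat_lit 0xbbd6190)) (c (m (nat_lit 0x131904)) e))) (c (c (p (nat_lit 0x14a309d8)) (c (p (nat_lit 0x38c8b18)) e)) (c (c (m (nat_lit 0x6c084c)) e) e))) (c (c (c (p (nat_lit 0x14a309d8)) (c (p (nat_lit 0x38c8b18)) e)) (c (c (m (nat_lit 0x2633b8)) e) e)) (c (c (c (m (nat_lit 0x6c084c)) e) e) e))) (c (c (c (c (p (nat_lit 0xf5d324c)) (c (m (nat_lit 0x1306f8)) e)) (c (c (m (nat_lit 0x1310f4)) e) e)) (c (c (c (m (nat_lit 0x1310f4)) e) e) e)) (c (c (c (c (m (nat_lit 0xc4fbf0)) e) e) e) e))) (c (c (c (c (c (p (nat_lit 0x203b3c8)) (c (m (nat_lit 0x791ff58)) e)) (c (c (m (nat_lit 0xefda140)) e) e)) (c (c (c (m (nat_lit 0x791ff58)) e) e) e)) (c (c (c (c (m (nat_lit 0xefda140)) e) e) e) e)) (c (c (c (c (c (m (nat_lit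 0x42dff8)) e) e) e) e) e))) (c (c (c (c (c (c (p (nat_lit 0x203b3c8)) (c (m (nat_lit 0x791ff58)) e)) (c (c (m (nat_lit 0x791ff58)) e) e)) (c (c (c (m (nat_lit 0xefda140)) e) e) e)) (c (c (c (c (m (nat_lit 0xefda140)) e) e) e) e)) (c (c (c (c (c (m (nat_lit 0x13163d0)) e) e) e) e) e)) (c (c (c (c (c (c (m (nat_lit 0x42dff8)) e) e) e) e) e) e))) (c (c (c (c (c (c (c (p (nat_lit 0x1ca7b64)) (c (m (nat_lit 0x1316f4)) e)) (c (c (m (nat_lit 0x1316f4)) e) e)) (c (c (c (m (nat_lit 0x1316f4)) e) e) e)) (c (c (c (c (m (nat_lit 0x38ce2c)) e) e) e) e)) (c (c (c (c (c (m (nat_lit 0x98cd18)) e) e) e) e) e)) (c (c (c (c (c (c (m (nat_lit 0x98cd18)) e) e) e) e) e) e)) (c (c (c (c (c (c (c (m (nat_lit 0x5f7fc0)) e) e) e) e) e) e) e))) (c (c (c (c (c (c (c (c (p (nat_lit 0xa8f1fbc0)) (c (m (nat_lit 0x72c3a8)) e)) (c (c (m (nat_lit 0xefd98e8)) e) e)) (c (c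 (c (m (nat_lit 0xefd98e8)) e) e) e)) (c (c (c (c (m (nat_lit 0xefd98e8)) e) e) e) e)) (c (c (c (c (c (m (nat_lit 0x98cd18)) e) e) e) e) e)) (c (c (c (c (c (c (m (nat_lit 0x98cd18)) e) e) e) e) e) e)) (c (c (c (c (c (c (c (m (nat_lit 0x98cd18)) e) e) e) e) e) e) e)) (c (c (c (c (c (c (c (c (m (nat_lit 0x2a2e2e40)) e) e) e) e) e) e) e) e))) (c (c (c (c (c (c (c (c (c (p (nat_lit 0x4628fa0c)) (c (m (nat_lit 0x408b3ac)) e)) (c (c (m (nat_lit 0x98dcc)) e) e)) (c (c (c (m (nat_lit 0x6c)) e) e) e)) (c (c (c (c (m (nat_lit 0x98e20)) e) e) e) e)) (c (c (c (c (c (m (nat_lit 0x394998)) e) e) e) e) e)) (c (c (c (c (c (c (m (nat_lit 0x42dff8)) e) e) e) e) e) e)) (c (c (c (c (c (c (c (m (nat_lit 0x5f7fc0)) e) e) e) e) e) e) e)) (c (c (c (c (c (c (c (c (m (nat_lit 0x2a2e2e40)) e) e) e) e) e) e) e) e)) (c (c (c (c (c (c (c (c (c (m (nat_lit 0x9506928))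 e) e) e) e) e) e) e) e) e)))) (c (c (c (c (c (c (c (c (c (c (m (nat_lit 0xc2efa3e8)) (c (p (nat_lit 0xfb65938)) (c (m (nat_lit 0x1319a0)) e))) (c (c (p (nat_lit 0xfb65938)) (c (m (nat_lit 0x263400)) e)) (c (c (m (nat_lit 0x1319a0)) e) e))) (c (c (c (p (nat_lit 0x85ca88)) (c (m (nat_lit 0x131940)) e)) (c (c (m (nat_lit 0x131940)) e) e)) (c (c (c (m (nat_lit 0xc4fd1c)) e) e) e))) (c (c (c (c (p (nat_lit 0x85ca88)) (c (m (nat_lit 0x131940)) e)) (c (c (m (nat_lit 0x131940)) e) e)) (c (c (c (m (nat_lit 0x4c65c0)) e) e) e)) (c (c (c (c (m (nat_lit 0xc4fd1c)) e) e) e) e))) (c (c (c (c (c (p (nat_lit 0xe532c0)) (c (m (nat_lit 0x76ba7e8)) e)) (c (c (m (nat_lit 0x76ba7e8)) e) e)) (c (c (c (m (nat_lit 0x2646a8)) e) e) e)) (c (c (c (c (m (nat_lit 0x2646a8)) e) e) e) e)) (c (c (c (c (c (m (nat_lit 0x4c6440)) e) e) e) e) e))) (c (c (c (c (c (c (p (nat_lit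 0x4628fa0c)) (c (m (nat_lit 0x6c)) e)) (c (c (m (nat_lit 0x408b3ac)) e) e)) (c (c (c (m (nat_lit 0x98e20)) e) e) e)) (c (c (c (c (m (nat_lit 0x98dcc)) e) e) e) e)) (c (c (c (c (c (m (nat_lit 0x42dff8)) e) e) e) e) e)) (c (c (c (c (c (c (m (nat_lit 0x394c80)) e) e) e) e) e) e))) (c (c (c (c (c (c (c (p (nat_lit 0x4628fa0c)) (c (m (nat_lit 0x6c)) e)) (c (c (m (nat_lit 0x408b3ac)) e) e)) (c (c (c (m (nat_lit 0x98dcc)) e) e) e)) (c (c (c (c (m (nat_lit 0x98e20)) e) e) e) e)) (c (c (c (c (c (m (nat_lit 0x42dff8)) e) e) e) e) e)) (c (c (c (c (c (c (m (nat_lit 0x2a2e2e40)) e) e) e) e) e) e)) (c (c (c (c (c (c (c (m (nat_lit 0x394c80)) e) e) e) e) e) e) e))) (c (c (c (c (c (c (c (c (p (nat_lit 0x4628fa0c)) (c (m (nat_lit 0x408b3ac)) e)) (c (c (m (nat_lit 0x6c)) e) e)) (c (c (c (m (nat_lit 0x98e20)) e) e) e)) (c (c (c (c (m (nat_lit 0x98dcc)) e)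 e) e) e)) (c (c (c (c (c (m (nat_lit 0x42dff8)) e) e) e) e) e)) (c (c (c (c (c (c (m (nat_lit 0x5f7fc0)) e) e) e) e) e) e)) (c (c (c (c (c (c (c (m (nat_lit 0x394998)) e) e) e) e) e) e) e)) (c (c (c (c (c (c (c (c (m (nat_lit 0x394c80)) e) e) e) e) e) e) e) e))) (c (c (c (c (c (c (c (c (c (p (nat_lit 0x4628fa0c)) (c (m (nat_lit 0x408b3ac)) e)) (c (c (m (nat_lit 0x6c)) e) e)) (c (c (c (m (nat_lit 0x98dcc)) e) e) e)) (c (c (c (c (m (nat_lit 0x98e20)) e) e) e) e)) (c (c (c (c (c (m (nat_lit 0x42dff8)) e) e) e) e) e)) (c (c (c (c (c (c (m (nat_lit 0x394998)) e) e) e) e) e) e)) (c (c (c (c (c (c (c (m (nat_lit 0x5f7fc0)) e) e) e) e) e) e) e)) (c (c (c (c (c (c (c (c (m (nat_lit 0x2a2e2e40)) e) e) e) e) e) e) e) e)) (c (c (c (c (c (c (c (c (c (m (nat_lit 0x394c80)) e) e) e) e) e) e) e) e) e))) (c (c (c (c (c (c (c (c (c (c (p (nat_lit 0x49c445a0))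 (c (m (nat_lit 0x48)) e)) (c (c (m (nat_lit 0x48)) e) e)) (c (c (c (m (nat_lit 0x131a00)) e) e) e)) (c (c (c (c (m (nat_lit 0x131a00)) e) e) e) e)) (c (c (c (c (c (m (nat_lit 0x4c5d50)) e) e) e) e) e)) (c (c (c (c (c (c (m (nat_lit 0x9506928)) e) e) e) e) e) e)) (c (c (c (c (c (c (c (m (nat_lit 0x9506928)) e) e) e) e) e) e) e)) (c (c (c (c (c (c (c (c (m (nat_lit 0x9506928)) e) e) e) e) e) e) e) e)) (c (c (c (c (c (c (c (c (c (m (nat_lit 0x9506928)) e) e) e) e) e) e) e) e) e)) (c (c (c (c (c (c (c (c (c (c (m (nat_lit 0x128db730)) e) e) e) e) e) e) e) e) e) e)))))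

theorem c1 : trsOK col trs = true := by decide +kernel
theorem c2 : Nat.ble (Nat.mul (nat_lit 39) (nat_lit 4556)) (nat_lit 4294967295) = true := by decide +kernel
theorem c3 : Nat.beq (tabK (nat_lit 39) (List.ofFn s10)) kt = true := by decide +kernel
theorem c4 : okE trs E = true := by decide +kernel
theorem c5 : dE E (nat_lit 4) = true := by decide +kernel
theorem c6 : cmpK (nat_lit 10) (nat_lit 4) kt E T = true := by decide +kernel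
theorem c7 : bndK (nat_lit 10) (nat_lit 4) (Nat.pow (nat_lit 2) (nat_lit 39)) E T = true := by decide +kernel

theorem c0 : Fl.codeB col = 63 := by decide +kernel

theorem own : Fl.OwnOK 4 T 63 :=
  own_ok c0 c1 c2 c3 c4 c5 c6 c7

end H63

end Own

end HR
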