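import Pool.Agent.Lib.MP_a1b8b7_co.B.OwnOK

set_option autoImplicit false

namespace HR

namespace Own

namespace H7

open Chk

def col : Fin 10 → Bool := ![true, true, true, false, false, false, false, false, false, false]

def trs : List ℕ := [nat_lit 528, nat_lit 2403, nat_lit 2420, nat_lit 2437]

def kt : ℕ := nat_lit 0x28000000c80000034800000898000017e800003c50000086100000e8f80001b1200002c7e0

open Ex in
noncomputable def E : Ex := (a (a (a (a (u (nat_lit 9) (v (nat_lit 9) (v (nat_lit 9) (v (nat_lit 9) (k (nat_lit 0x729810)))))) (v (nat_lit 8) (u (nat_lit 9) (v (nat_lit 9) (v (nat_lit 9) (k (nat_lit 0x131a78))))))) (a (u (nat_lit 8) (a (u (nat_lit 9) (v (nat_lit 9) (v (nat_lit 9) (k (nat_lit 0x1319b8))))) (v (nat_lit 8) (a (v (nat_lit 9) (v (nat_lit 9) (k (nat_lit 0x131928)))) (v (nat_lit 8) (a (v (nat_lit 9) (k (nat_lit 0x1319d0)))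 (v (nat_lit 8) (k (nat_lit 0x1319c4))))))))) (a (v (nat_lit 7) (a (a (u (nat_lit 9) (v (nat_lit 9) (v (nat_lit 9) (k (nat_lit 0x131a78))))) (v (nat_lit 8) (u (nat_lit 9) (v (nat_lit 9) (k (nat_lit 0x1319dc)))))) (a (u (nat_lit 8) (v (nat_lit 8) (a (v (nat_lit 9) (k (nat_lit 0x98d24))) (v (nat_lit 8) (k (nat_lit 0x98cdc)))))) (v (nat_lit 7) (u (nat_lit 8) (a (v (nat_lit 8) (k (nat_lit 0x990ae))) (u (nat_lit 8) (k (nat_lit 0x9909c))))))))) (u (nat_lit 7) (a (u (nat_lit 9) (v (nat_lit 9) (v (nat_lit 9) (k (nat_lit 0x1319b8))))) (a (v (nat_lit 7) (a (v (nat_lit 9) (v (nat_lit 9) (k (nat_lit 0x131928)))) (a (v (nat_lit 8) (a (v (nat_lit 9) (k (nat_lit 0x98d24))) (v (nat_lit 8) (k (nat_lit 0x990ae))))) (v (nat_lit 7) (a (v (nat_lit 9) (k (nat_lit 0x1319d0))) (a (v (nat_lit 8) (k (nat_lit 0x98cdc))) (v (nat_lit 7) (k (nat_lit 0x1319c4)))))))))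 (u (nat_lit 7) (v (nat_lit 8) (v (nat_lit 8) (k (nat_lit 0x9909c))))))))))) (a (a (v (nat_lit 6) (a (a (u (nat_lit 9) (v (nat_lit 9) (v (nat_lit 9) (k (nat_lit 0x131a78))))) (a (v (nat_lit 8) (u (nat_lit 9) (v (nat_lit 9) (k (nat_lit 0x1319dc))))) (u (nat_lit 8) (v (nat_lit 8) (a (v (nat_lit 9) (k (nat_lit 0x98d24))) (v (nat_lit 8) (k (nat_lit 0x98cdc)))))))) (a (v (nat_lit 7) (a (u (nat_lit 9) (v (nat_lit 9) (k (nat_lit 0x1319dc)))) (a (u (nat_lit 8) (v (nat_lit 9) (k (nat_lit 0x131a00)))) (v (nat_lit 7) (u (nat_lit 8) (k (nat_lit 0x98cd0))))))) (a (u (nat_lit 7) (a (v (nat_lit 8) (a (v (nat_lit 9) (k (nat_lit 0x131a00))) (v (nat_lit 8) (k (nat_lit 0x98cd0))))) (v (nat_lit 7) (a (v (nat_lit 9) (k (nat_lit 0x98d24))) (v (nat_lit 7) (k (nat_lit 0x98cdc))))))) (v (nat_lit 6) (a (u (nat_lit 8) (a (v (nat_lit 8) (k (nat_lit 0x990ae))) (u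 (nat_lit 8) (k (nat_lit 0x9909c))))) (a (v (nat_lit 7) (u (nat_lit 8) (k (nat_lit 0x98cd0)))) (u (nat_lit 7) (a (v (nat_lit 8) (k (nat_lit 0x98cd0))) (a (v (nat_lit 7) (k (nat_lit 0x990ae))) (u (nat_lit 7) (k (nat_lit 0x9909c))))))))))))) (a (u (nat_lit 6) (a (a (u (nat_lit 9) (v (nat_lit 9) (v (nat_lit 9) (k (nat_lit 0x1319b8))))) (v (nat_lit 7) (a (v (nat_lit 8) (a (v (nat_lit 9) (k (nat_lit 0x131a00))) (v (nat_lit 8) (k (nat_lit 0x98cd0))))) (v (nat_lit 7) (v (nat_lit 8) (k (nat_lit 0x98cd0))))))) (a (v (nat_lit 6) (a (a (v (nat_lit 9) (v (nat_lit 9) (k (nat_lit 0x131928)))) (v (nat_lit 8) (a (v (nat_lit 9) (k (nat_lit 0x98d24))) (v (nat_lit 8) (k (nat_lit 0x990ae)))))) (a (v (nat_lit 7) (a (v (nat_lit 9) (k (nat_lit 0x98d24))) (v (nat_lit 7) (k (nat_lit 0x990ae))))) (v (nat_lit 6) (a (a (v (nat_lit 9) (k (nat_lit 0x1319d0))) (v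 (nat_lit 8) (k (nat_lit 0x98cdc)))) (a (v (nat_lit 7) (k (nat_lit 0x98cdc))) (v (nat_lit 6) (k (nat_lit 0x1319c4))))))))) (u (nat_lit 6) (a (v (nat_lit 8) (v (nat_lit 8) (k (nat_lit 0x9909c)))) (v (nat_lit 7) (v (nat_lit 7) (k (nat_lit 0x9909c))))))))) (v (nat_lit 5) (a (a (a (u (nat_lit 9) (v (nat_lit 9) (v (nat_lit 9) (k (nat_lit 0x131a78))))) (v (nat_lit 8) (a (u (nat_lit 9) (v (nat_lit 9) (k (nat_lit 0x2667d8)))) (v (nat_lit 8) (u (nat_lit 9) (k (nat_lit 0x1311f0))))))) (a (u (nat_lit 8) (a (v (nat_lit 9) (v (nat_lit 9) (k (nat_lit 0x12ff18)))) (v (nat_lit 8) (v (nat_lit 8) (k (nat_lit 0x131a90)))))) (v (nat_lit 7) (u (nat_lit 9) (u (nat_lit 9) (k (nat_lit 0x1332d8))))))) (a (a (u (nat_lit 7) (a (a (v (nat_lit 9) (v (nat_lit 9) (k (nat_lit 0x9990c)))) (v (nat_lit 8) (a (v (nat_lit 9) (k (nat_lit 0x98cc4))) (v (nat_lit 8) (k (nat_lit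 0x98d54)))))) (a (v (nat_lit 7) (a (v (nat_lit 8) (k (nat_lit 0x9901e))) (v (nat_lit 7) (k (nat_lit 0x98754))))) (u (nat_lit 7) (v (nat_lit 8) (k (nat_lit 0x9904e))))))) (v (nat_lit 6) (a (a (u (nat_lit 9) (u (nat_lit 9) (k (nat_lit 0x1332d8)))) (v (nat_lit 7) (a (u (nat_lit 9) (k (nat_lit 0x12bb50))) (u (nat_lit 8) (k (nat_lit 0x12e0f4)))))) (a (u (nat_lit 7) (a (v (nat_lit 9) (k (nat_lit 0x9c132))) (v (nat_lit 8) (k (nat_lit 0x9aa2e))))) (v (nat_lit 6) (u (nat_lit 7) (k (nat_lit 0x98dc0)))))))) (a (u (nat_lit 6) (a (a (v (nat_lit 9) (v (nat_lit 9) (k (nat_lit 0x9990c)))) (v (nat_lit 8) (a (v (nat_lit 9) (k (nat_lit 0x98cc4))) (v (nat_lit 8) (k (nat_lit 0x98d54)))))) (a (v (nat_lit 7) (a (v (nat_lit 9) (k (nat_lit 0x9c132))) (a (v (nat_lit 8) (k (nat_lit 0x9aa2e))) (v (nat_lit 7) (k (nat_lit 0x98dc0)))))) (a (v (nat_lit 6) (a (v (nat_lit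 8) (k (nat_lit 0x9901e))) (v (nat_lit 6) (k (nat_lit 0x98754))))) (u (nat_lit 6) (v (nat_lit 8) (k (nat_lit 0x9904e)))))))) (v (nat_lit 5) (a (a (v (nat_lit 8) (u (nat_lit 9) (k (nat_lit 0x1311f0)))) (u (nat_lit 8) (a (v (nat_lit 9) (k (nat_lit 0x132294))) (v (nat_lit 8) (k (nat_lit 0x131bb0)))))) (a (u (nat_lit 7) (a (v (nat_lit 9) (k (nat_lit 0x98cb8))) (a (v (nat_lit 8) (k (nat_lit 0x98e5c))) (v (nat_lit 7) (k (nat_lit 0x98dcc)))))) (a (v (nat_lit 6) (u (nat_lit 7) (k (nat_lit 0x98d7e)))) (u (nat_lit 6) (a (a (v (nat_lit 9) (k (nat_lit 0x98cb8))) (v (nat_lit 8) (k (nat_lit 0x98e5c)))) (a (v (nat_lit 7) (k (nat_lit 0x98d7e))) (v (nat_lit 6) (k (nat_lit 0x98dcc)))))))))))))))) (a (u (nat_lit 5) (a (a (u (nat_lit 9) (v (nat_lit 9) (v (nat_lit 9) (k (nat_lit 0x1319b8))))) (v (nat_lit 8) (a (v (nat_lit 9) (v (nat_lit 9) (k (nat_lit 0x12ff18))))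 (v (nat_lit 8) (v (nat_lit 9) (k (nat_lit 0x132294))))))) (a (v (nat_lit 7) (a (v (nat_lit 9) (v (nat_lit 9) (k (nat_lit 0x9990c)))) (v (nat_lit 7) (v (nat_lit 9) (k (nat_lit 0x98cb8)))))) (a (v (nat_lit 6) (a (v (nat_lit 9) (v (nat_lit 9) (k (nat_lit 0x9990c)))) (a (v (nat_lit 7) (v (nat_lit 9) (k (nat_lit 0x1310c4)))) (v (nat_lit 6) (v (nat_lit 9) (k (nat_lit 0x98cb8))))))) (v (nat_lit 5) (a (a (v (nat_lit 9) (v (nat_lit 9) (k (nat_lit 0x131928)))) (v (nat_lit 8) (v (nat_lit 8) (k (nat_lit 0x131bb0))))) (a (v (nat_lit 7) (v (nat_lit 7) (k (nat_lit 0x98dcc)))) (a (v (nat_lit 6) (v (nat_lit 6) (k (nat_lit 0x98dcc)))) (v (nat_lit 5) (a (a (v (nat_lit 9) (k (nat_lit 0x1319d0))) (v (nat_lit 8) (k (nat_lit 0x131a90)))) (a (v (nat_lit 7) (k (nat_lit 0x98754))) (a (v (nat_lit 6) (k (nat_lit 0x98754))) (v (nat_lit 5) (k (nat_lit 0x1319c4)))))))))))))))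 (a (t (nat_lit 5) (nat_lit 8) (nat_lit 9) (a (a (u (nat_lit 9) (a (v (nat_lit 9) (v (nat_lit 9) (k (nat_lit 0x3be4d00)))) (u (nat_lit 9) (u (nat_lit 9) (k (nat_lit 0x2638b0)))))) (u (nat_lit 8) (v (nat_lit 8) (a (u (nat_lit 9) (k (nat_lit 0x46f1c04))) (v (nat_lit 8) (k (nat_lit 0x131c64))))))) (a (u (nat_lit 5) (a (u (nat_lit 8) (u (nat_lit 8) (k (nat_lit 0x131b50)))) (a (v (nat_lit 5) (a (u (nat_lit 9) (k (nat_lit 0x46f1c04))) (v (nat_lit 5) (k (nat_lit 0x131c64))))) (u (nat_lit 5) (u (nat_lit 8) (k (nat_lit 0x131b50))))))) (t (nat_lit 5) (nat_lit 8) (nat_lit 9) (a (u (nat_lit 7) (v (nat_lit 7) (k (nat_lit 0x98e8c)))) (a (v (nat_lit 6) (u (nat_lit 7) (k (nat_lit 0x997a4)))) (u (nat_lit 6) (a (v (nat_lit 7) (k (nat_lit 0x997a4))) (v (nat_lit 6) (k (nat_lit 0x98e8c))))))))))) (v (nat_lit 4) (a (a (a (u (nat_lit 9) (v (nat_lit 9) (v (nat_lit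 9) (k (nat_lit 0x131a78))))) (v (nat_lit 8) (u (nat_lit 9) (u (nat_lit 9) (k (nat_lit 0x1332d8)))))) (a (u (nat_lit 8) (a (v (nat_lit 9) (v (nat_lit 9) (k (nat_lit 0x9990c)))) (v (nat_lit 8) (v (nat_lit 8) (k (nat_lit 0x98754)))))) (a (v (nat_lit 7) (a (u (nat_lit 9) (v (nat_lit 9) (k (nat_lit 0x2667d8)))) (a (u (nat_lit 8) (a (v (nat_lit 9) (k (nat_lit 0x98cc4))) (a (v (nat_lit 8) (k (nat_lit 0x9901e))) (u (nat_lit 8) (k (nat_lit 0x9904e)))))) (v (nat_lit 7) (a (u (nat_lit 9) (k (nat_lit 0x1311f0))) (u (nat_lit 8) (k (nat_lit 0x98d54)))))))) (u (nat_lit 7) (a (v (nat_lit 9) (v (nat_lit 9) (k (nat_lit 0x12ff18)))) (v (nat_lit 7) (v (nat_lit 7) (k (nat_lit 0x131a90))))))))) (a (a (v (nat_lit 6) (a (a (u (nat_lit 9) (u (nat_lit 9) (k (nat_lit 0x1332d8)))) (a (v (nat_lit 8) (u (nat_lit 9) (k (nat_lit 0x12bb50)))) (u (nat_lit 8) (v (nat_lit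 9) (k (nat_lit 0x9c132)))))) (a (v (nat_lit 7) (u (nat_lit 8) (k (nat_lit 0x9aa2e)))) (a (u (nat_lit 7) (v (nat_lit 8) (k (nat_lit 0x12e0f4)))) (v (nat_lit 6) (u (nat_lit 8) (k (nat_lit 0x98dc0)))))))) (a (u (nat_lit 6) (a (a (v (nat_lit 9) (v (nat_lit 9) (k (nat_lit 0x9990c)))) (v (nat_lit 8) (a (v (nat_lit 9) (k (nat_lit 0x9c132))) (v (nat_lit 8) (k (nat_lit 0x98dc0)))))) (a (v (nat_lit 7) (a (v (nat_lit 9) (k (nat_lit 0x98cc4))) (a (v (nat_lit 8) (k (nat_lit 0x9aa2e))) (v (nat_lit 7) (k (nat_lit 0x98d54)))))) (a (v (nat_lit 6) (a (v (nat_lit 7) (k (nat_lit 0x9901e))) (v (nat_lit 6) (k (nat_lit 0x98754))))) (u (nat_lit 6) (v (nat_lit 7) (k (nat_lit 0x9904e)))))))) (v (nat_lit 5) (a (a (u (nat_lit 9) (v (nat_lit 9) (k (nat_lit 0x1319dc)))) (v (nat_lit 7) (u (nat_lit 8) (k (nat_lit 0x98fe8))))) (a (u (nat_lit 7) (v (nat_lit 8) (k (nat_lit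 0x98fe8)))) (a (v (nat_lit 6) (u (nat_lit 9) (k (nat_lit 0x12bb50)))) (u (nat_lit 6) (a (v (nat_lit 9) (k (nat_lit 0x1310c4))) (a (v (nat_lit 8) (k (nat_lit 0x98ce8))) (v (nat_lit 7) (k (nat_lit 0x98ce8)))))))))))) (a (u (nat_lit 5) (a (a (v (nat_lit 7) (a (v (nat_lit 9) (k (nat_lit 0x98cc4))) (a (v (nat_lit 8) (k (nat_lit 0x98fe8))) (v (nat_lit 7) (k (nat_lit 0x98e5c)))))) (v (nat_lit 6) (a (v (nat_lit 9) (k (nat_lit 0x9c132))) (a (v (nat_lit 7) (k (nat_lit 0x98ce8))) (v (nat_lit 6) (k (nat_lit 0x98d7e))))))) (a (v (nat_lit 5) (a (v (nat_lit 9) (k (nat_lit 0x98d24))) (a (v (nat_lit 7) (k (nat_lit 0x9901e))) (v (nat_lit 5) (k (nat_lit 0x98cdc)))))) (u (nat_lit 5) (v (nat_lit 7) (k (nat_lit 0x9904e))))))) (a (t (nat_lit 5) (nat_lit 8) (nat_lit 9) (u (nat_lit 7) (v (nat_lit 8) (k (nat_lit 0x7489950))))) (v (nat_lit 4) (a (a (u (nat_lit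 8) (a (v (nat_lit 9) (k (nat_lit 0x98cb8))) (v (nat_lit 8) (k (nat_lit 0x98dcc))))) (a (v (nat_lit 7) (a (u (nat_lit 9) (k (nat_lit 0x1311f0))) (u (nat_lit 8) (k (nat_lit 0x98e5c))))) (u (nat_lit 7) (a (v (nat_lit 9) (k (nat_lit 0x132294))) (v (nat_lit 7) (k (nat_lit 0x131bb0))))))) (a (v (nat_lit 6) (u (nat_lit 8) (k (nat_lit 0x98d7e)))) (a (u (nat_lit 6) (a (a (v (nat_lit 9) (k (nat_lit 0x98cb8))) (v (nat_lit 8) (k (nat_lit 0x98d7e)))) (a (v (nat_lit 7) (k (nat_lit 0x98e5c))) (v (nat_lit 6) (k (nat_lit 0x98dcc)))))) (u (nat_lit 5) (a (a (v (nat_lit 7) (k (nat_lit 0x98d54))) (v (nat_lit 6) (k (nat_lit 0x98dc0)))) (a (v (nat_lit 5) (k (nat_lit 0x990ae))) (u (nat_lit 5) (k (nat_lit 0x9909c))))))))))))))))))) (a (a (a (u (nat_lit 4) (a (a (a (u (nat_lit 9) (v (nat_lit 9) (v (nat_lit 9) (k (nat_lit 0x1319b8))))) (v (nat_lit 8) (a (v (nat_lit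 9) (v (nat_lit 9) (k (nat_lit 0x9990c)))) (v (nat_lit 8) (v (nat_lit 9) (k (nat_lit 0x98cb8))))))) (a (v (nat_lit 7) (a (v (nat_lit 9) (v (nat_lit 9) (k (nat_lit 0x12ff18)))) (v (nat_lit 7) (v (nat_lit 9) (k (nat_lit 0x132294)))))) (v (nat_lit 6) (a (v (nat_lit 9) (v (nat_lit 9) (k (nat_lit 0x9990c)))) (a (v (nat_lit 8) (v (nat_lit 9) (k (nat_lit 0x1310c4)))) (v (nat_lit 6) (v (nat_lit 9) (k (nat_lit 0x98cb8))))))))) (a (a (v (nat_lit 5) (a (a (v (nat_lit 8) (a (v (nat_lit 9) (k (nat_lit 0x98cc4))) (v (nat_lit 8) (k (nat_lit 0x98e5c))))) (v (nat_lit 7) (v (nat_lit 8) (k (nat_lit 0x98fe8))))) (a (v (nat_lit 6) (a (v (nat_lit 9) (k (nat_lit 0x9c132))) (a (v (nat_lit 8) (k (nat_lit 0x98ce8))) (v (nat_lit 6) (k (nat_lit 0x98d7e)))))) (v (nat_lit 5) (a (v (nat_lit 8) (k (nat_lit 0x98d54))) (v (nat_lit 6) (k (nat_lit 0x98dc0)))))))) (t (nat_lit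 5) (nat_lit 8) (nat_lit 9) (v (nat_lit 5) (v (nat_lit 7) (k (nat_lit 0x7489950)))))) (a (v (nat_lit 4) (a (a (v (nat_lit 9) (v (nat_lit 9) (k (nat_lit 0x131928)))) (a (v (nat_lit 8) (v (nat_lit 8) (k (nat_lit 0x98dcc)))) (v (nat_lit 7) (v (nat_lit 7) (k (nat_lit 0x131bb0)))))) (a (a (v (nat_lit 6) (v (nat_lit 6) (k (nat_lit 0x98dcc)))) (v (nat_lit 5) (a (v (nat_lit 9) (k (nat_lit 0x98d24))) (a (v (nat_lit 8) (k (nat_lit 0x9901e))) (v (nat_lit 5) (k (nat_lit 0x990ae))))))) (a (t (nat_lit 5) (nat_lit 8) (nat_lit 9) (t (nat_lit 5) (nat_lit 8) (nat_lit 9) (k (nat_lit 0x98e8c)))) (v (nat_lit 4) (a (a (v (nat_lit 9) (k (nat_lit 0x1319d0))) (a (v (nat_lit 8) (k (nat_lit 0x98754))) (v (nat_lit 7) (k (nat_lit 0x131a90))))) (a (v (nat_lit 6) (k (nat_lit 0x98754))) (a (v (nat_lit 5) (k (nat_lit 0x98cdc))) (v (nat_lit 4) (k (nat_lit 0x1319c4)))))))))))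 (u (nat_lit 4) (v (nat_lit 5) (a (v (nat_lit 8) (k (nat_lit 0x9904e))) (v (nat_lit 5) (k (nat_lit 0x9909c)))))))))) (a (t (nat_lit 4) (nat_lit 7) (nat_lit 9) (a (a (u (nat_lit 9) (a (v (nat_lit 9) (v (nat_lit 9) (k (nat_lit 0x3be4d00)))) (u (nat_lit 9) (u (nat_lit 9) (k (nat_lit 0x2638b0)))))) (a (u (nat_lit 7) (v (nat_lit 7) (a (u (nat_lit 9) (k (nat_lit 0x46f1c04))) (v (nat_lit 7) (k (nat_lit 0x131c64)))))) (v (nat_lit 5) (v (nat_lit 7) (u (nat_lit 8) (k (nat_lit 0x7489950))))))) (a (a (t (nat_lit 5) (nat_lit 8) (nat_lit 9) (u (nat_lit 6) (v (nat_lit 6) (k (nat_lit 0x131f10))))) (v (nat_lit 4) (u (nat_lit 5) (v (nat_lit 8) (k (nat_lit 0x7489950)))))) (a (u (nat_lit 4) (a (u (nat_lit 7) (u (nat_lit 7) (k (nat_lit 0x131b50)))) (a (v (nat_lit 4) (a (u (nat_lit 9) (k (nat_lit 0x46f1c04))) (v (nat_lit 4) (k (nat_lit 0x131c64))))) (u (nat_lit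 4) (u (nat_lit 7) (k (nat_lit 0x131b50))))))) (t (nat_lit 4) (nat_lit 7) (nat_lit 9) (a (a (u (nat_lit 8) (v (nat_lit 8) (k (nat_lit 0x98e8c)))) (v (nat_lit 6) (u (nat_lit 8) (k (nat_lit 0x997a4))))) (a (u (nat_lit 6) (a (v (nat_lit 8) (k (nat_lit 0x997a4))) (v (nat_lit 6) (k (nat_lit 0x98e8c))))) (u (nat_lit 5) (v (nat_lit 5) (k (nat_lit 0x98e8c))))))))))) (v (nat_lit 3) (a (a (a (u (nat_lit 9) (v (nat_lit 9) (v (nat_lit 9) (k (nat_lit 0x131a78))))) (a (v (nat_lit 8) (u (nat_lit 9) (u (nat_lit 9) (k (nat_lit 0x1332d8))))) (u (nat_lit 8) (a (v (nat_lit 9) (v (nat_lit 9) (k (nat_lit 0x9990c)))) (v (nat_lit 8) (v (nat_lit 8) (k (nat_lit 0x98754)))))))) (a (a (v (nat_lit 7) (a (a (u (nat_lit 9) (u (nat_lit 9) (k (nat_lit 0x1332d8)))) (v (nat_lit 8) (u (nat_lit 9) (k (nat_lit 0x12bb50))))) (a (u (nat_lit 8) (v (nat_lit 9) (k (nat_lit 0x9c132))))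 (v (nat_lit 7) (u (nat_lit 8) (k (nat_lit 0x98dc0))))))) (u (nat_lit 7) (a (v (nat_lit 9) (v (nat_lit 9) (k (nat_lit 0x9990c)))) (a (v (nat_lit 8) (a (v (nat_lit 9) (k (nat_lit 0x9c132))) (v (nat_lit 8) (k (nat_lit 0x98dc0))))) (v (nat_lit 7) (v (nat_lit 7) (k (nat_lit 0x98754)))))))) (a (v (nat_lit 6) (a (a (u (nat_lit 9) (v (nat_lit 9) (k (nat_lit 0x2667d8)))) (u (nat_lit 8) (a (v (nat_lit 9) (k (nat_lit 0x98cc4))) (a (v (nat_lit 8) (k (nat_lit 0x9901e))) (u (nat_lit 8) (k (nat_lit 0x9904e))))))) (a (v (nat_lit 7) (u (nat_lit 8) (k (nat_lit 0x9aa2e)))) (a (u (nat_lit 7) (a (a (v (nat_lit 9) (k (nat_lit 0x98cc4))) (v (nat_lit 8) (k (nat_lit 0x9aa2e)))) (a (v (nat_lit 7) (k (nat_lit 0x9901e))) (u (nat_lit 7) (k (nat_lit 0x9904e)))))) (v (nat_lit 6) (a (u (nat_lit 9) (k (nat_lit 0x1311f0))) (a (u (nat_lit 8) (k (nat_lit 0x98d54))) (u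 (nat_lit 7) (k (nat_lit 0x98d54)))))))))) (u (nat_lit 6) (a (v (nat_lit 9) (v (nat_lit 9) (k (nat_lit 0x12ff18)))) (a (v (nat_lit 7) (v (nat_lit 8) (k (nat_lit 0x12e0f4)))) (v (nat_lit 6) (v (nat_lit 6) (k (nat_lit 0x131a90)))))))))) (a (a (v (nat_lit 5) (a (a (u (nat_lit 9) (v (nat_lit 9) (k (nat_lit 0x1319dc)))) (v (nat_lit 7) (u (nat_lit 9) (k (nat_lit 0x12bb50))))) (a (u (nat_lit 7) (a (v (nat_lit 9) (k (nat_lit 0x1310c4))) (v (nat_lit 8) (k (nat_lit 0x98ce8))))) (a (v (nat_lit 6) (a (u (nat_lit 8) (k (nat_lit 0x98fe8))) (u (nat_lit 7) (k (nat_lit 0x98ce8))))) (u (nat_lit 6) (v (nat_lit 8) (k (nat_lit 0x98fe8)))))))) (a (u (nat_lit 5) (a (a (v (nat_lit 7) (a (v (nat_lit 9) (k (nat_lit 0x9c132))) (v (nat_lit 7) (k (nat_lit 0x98d7e))))) (v (nat_lit 6) (a (a (v (nat_lit 9) (k (nat_lit 0x98cc4))) (v (nat_lit 8) (k (nat_lit 0x98fe8))))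 (a (v (nat_lit 7) (k (nat_lit 0x98ce8))) (v (nat_lit 6) (k (nat_lit 0x98e5c))))))) (a (v (nat_lit 5) (a (v (nat_lit 9) (k (nat_lit 0x98d24))) (a (v (nat_lit 6) (k (nat_lit 0x9901e))) (v (nat_lit 5) (k (nat_lit 0x98cdc)))))) (u (nat_lit 5) (v (nat_lit 6) (k (nat_lit 0x9904e))))))) (t (nat_lit 5) (nat_lit 8) (nat_lit 9) (u (nat_lit 6) (v (nat_lit 8) (k (nat_lit 0x7489950))))))) (a (a (v (nat_lit 4) (a (a (a (u (nat_lit 9) (v (nat_lit 9) (k (nat_lit 0x1319dc)))) (v (nat_lit 8) (u (nat_lit 9) (k (nat_lit 0x12bb50))))) (a (u (nat_lit 8) (v (nat_lit 9) (k (nat_lit 0x1310c4)))) (v (nat_lit 7) (u (nat_lit 8) (k (nat_lit 0x98ce8)))))) (a (a (v (nat_lit 6) (a (u (nat_lit 8) (k (nat_lit 0x98ce8))) (u (nat_lit 7) (k (nat_lit 0x98fe8))))) (u (nat_lit 6) (v (nat_lit 7) (k (nat_lit 0x98fe8))))) (a (u (nat_lit 5) (a (a (v (nat_lit 9) (k (nat_lit 0x131a00)))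 (v (nat_lit 8) (k (nat_lit 0x12e0f4)))) (a (v (nat_lit 7) (k (nat_lit 0x9aa2e))) (v (nat_lit 6) (k (nat_lit 0x9aa2e)))))) (v (nat_lit 4) (u (nat_lit 5) (k (nat_lit 0x98cd0)))))))) (u (nat_lit 4) (a (a (v (nat_lit 8) (a (v (nat_lit 9) (k (nat_lit 0x9c132))) (v (nat_lit 8) (k (nat_lit 0x98d7e))))) (a (v (nat_lit 6) (a (a (v (nat_lit 9) (k (nat_lit 0x98cc4))) (v (nat_lit 8) (k (nat_lit 0x98ce8)))) (a (v (nat_lit 7) (k (nat_lit 0x98fe8))) (v (nat_lit 6) (k (nat_lit 0x98e5c)))))) (v (nat_lit 5) (a (a (v (nat_lit 9) (k (nat_lit 0x131a00))) (v (nat_lit 8) (k (nat_lit 0x9aa2e)))) (a (v (nat_lit 7) (k (nat_lit 0x12e0f4))) (a (v (nat_lit 6) (k (nat_lit 0x9aa2e))) (v (nat_lit 5) (k (nat_lit 0x98cd0))))))))) (a (t (nat_lit 5) (nat_lit 8) (nat_lit 9) (t (nat_lit 5) (nat_lit 8) (nat_lit 9) (k (nat_lit 0x997a4)))) (a (v (nat_lit 4) (a (v (nat_lit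 9) (k (nat_lit 0x98d24))) (a (v (nat_lit 6) (k (nat_lit 0x9901e))) (v (nat_lit 4) (k (nat_lit 0x98cdc)))))) (u (nat_lit 4) (v (nat_lit 6) (k (nat_lit 0x9904e))))))))) (a (t (nat_lit 4) (nat_lit 7) (nat_lit 9) (a (u (nat_lit 6) (v (nat_lit 7) (k (nat_lit 0x7489950)))) (t (nat_lit 4) (nat_lit 7) (nat_lit 9) (u (nat_lit 5) (k (nat_lit 0x997a4)))))) (v (nat_lit 3) (a (a (a (u (nat_lit 8) (a (v (nat_lit 9) (k (nat_lit 0x98cb8))) (v (nat_lit 8) (k (nat_lit 0x98dcc))))) (v (nat_lit 7) (u (nat_lit 8) (k (nat_lit 0x98d7e))))) (a (u (nat_lit 7) (a (v (nat_lit 9) (k (nat_lit 0x98cb8))) (a (v (nat_lit 8) (k (nat_lit 0x98d7e))) (v (nat_lit 7) (k (nat_lit 0x98dcc)))))) (v (nat_lit 6) (a (u (nat_lit 9) (k (nat_lit 0x1311f0))) (a (u (nat_lit 8) (k (nat_lit 0x98e5c))) (u (nat_lit 7) (k (nat_lit 0x98e5c)))))))) (a (a (u (nat_lit 6) (a (v (nat_lit 9)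 (k (nat_lit 0x132294))) (v (nat_lit 6) (k (nat_lit 0x131bb0))))) (u (nat_lit 5) (a (a (v (nat_lit 7) (k (nat_lit 0x98dc0))) (v (nat_lit 6) (k (nat_lit 0x98d54)))) (a (v (nat_lit 5) (k (nat_lit 0x990ae))) (u (nat_lit 5) (k (nat_lit 0x9909c))))))) (a (v (nat_lit 4) (u (nat_lit 5) (k (nat_lit 0x98cd0)))) (u (nat_lit 4) (a (a (v (nat_lit 8) (k (nat_lit 0x98dc0))) (v (nat_lit 6) (k (nat_lit 0x98d54)))) (a (v (nat_lit 5) (k (nat_lit 0x98cd0))) (a (v (nat_lit 4) (k (nat_lit 0x990ae))) (u (nat_lit 4) (k (nat_lit 0x9909c)))))))))))))))))) (a (u (nat_lit 3) (a (a (a (u (nat_lit 9) (v (nat_lit 9) (v (nat_lit 9) (k (nat_lit 0x1319b8))))) (v (nat_lit 8) (a (v (nat_lit 9) (v (nat_lit 9) (k (nat_lit 0x9990c)))) (v (nat_lit 8) (v (nat_lit 9) (k (nat_lit 0x98cb8))))))) (a (v (nat_lit 7) (a (v (nat_lit 9) (v (nat_lit 9) (k (nat_lit 0x9990c)))) (a (v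 (nat_lit 8) (v (nat_lit 9) (k (nat_lit 0x1310c4)))) (v (nat_lit 7) (v (nat_lit 9) (k (nat_lit 0x98cb8))))))) (a (v (nat_lit 6) (a (v (nat_lit 9) (v (nat_lit 9) (k (nat_lit 0x12ff18)))) (v (nat_lit 6) (v (nat_lit 9) (k (nat_lit 0x132294)))))) (v (nat_lit 5) (a (a (v (nat_lit 8) (a (v (nat_lit 9) (k (nat_lit 0x98cc4))) (v (nat_lit 8) (k (nat_lit 0x98e5c))))) (v (nat_lit 7) (a (v (nat_lit 9) (k (nat_lit 0x9c132))) (a (v (nat_lit 8) (k (nat_lit 0x98ce8))) (v (nat_lit 7) (k (nat_lit 0x98d7e))))))) (a (v (nat_lit 6) (v (nat_lit 8) (k (nat_lit 0x98fe8)))) (v (nat_lit 5) (a (v (nat_lit 8) (k (nat_lit 0x98d54))) (v (nat_lit 7) (k (nat_lit 0x98dc0))))))))))) (a (a (t (nat_lit 5) (nat_lit 8) (nat_lit 9) (v (nat_lit 5) (v (nat_lit 6) (k (nat_lit 0x7489950))))) (v (nat_lit 4) (a (a (v (nat_lit 8) (a (v (nat_lit 9) (k (nat_lit 0x9c132))) (v (nat_lit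 8) (k (nat_lit 0x98d7e))))) (a (v (nat_lit 7) (a (v (nat_lit 9) (k (nat_lit 0x98cc4))) (a (v (nat_lit 8) (k (nat_lit 0x98ce8))) (v (nat_lit 7) (k (nat_lit 0x98e5c)))))) (v (nat_lit 6) (v (nat_lit 7) (k (nat_lit 0x98fe8)))))) (a (v (nat_lit 5) (a (a (v (nat_lit 9) (k (nat_lit 0x131a00))) (v (nat_lit 8) (k (nat_lit 0x9aa2e)))) (a (v (nat_lit 7) (k (nat_lit 0x9aa2e))) (a (v (nat_lit 6) (k (nat_lit 0x12e0f4))) (v (nat_lit 5) (k (nat_lit 0x98cd0))))))) (a (t (nat_lit 5) (nat_lit 8) (nat_lit 9) (t (nat_lit 5) (nat_lit 8) (nat_lit 9) (k (nat_lit 0x997a4)))) (v (nat_lit 4) (a (v (nat_lit 8) (k (nat_lit 0x98dc0))) (a (v (nat_lit 7) (k (nat_lit 0x98d54))) (v (nat_lit 5) (k (nat_lit 0x98cd0))))))))))) (a (t (nat_lit 4) (nat_lit 7) (nat_lit 9) (a (v (nat_lit 4) (v (nat_lit 6) (k (nat_lit 0x7489950)))) (t (nat_lit 4) (nat_lit 7) (nat_lit 9) (v (nat_lit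 5) (k (nat_lit 0x997a4)))))) (a (v (nat_lit 3) (a (a (a (v (nat_lit 9) (v (nat_lit 9) (k (nat_lit 0x131928)))) (v (nat_lit 8) (v (nat_lit 8) (k (nat_lit 0x98dcc))))) (a (v (nat_lit 7) (v (nat_lit 7) (k (nat_lit 0x98dcc)))) (v (nat_lit 6) (v (nat_lit 6) (k (nat_lit 0x131bb0)))))) (a (a (v (nat_lit 5) (a (v (nat_lit 9) (k (nat_lit 0x98d24))) (a (v (nat_lit 8) (k (nat_lit 0x9901e))) (v (nat_lit 5) (k (nat_lit 0x990ae)))))) (t (nat_lit 5) (nat_lit 8) (nat_lit 9) (t (nat_lit 5) (nat_lit 8) (nat_lit 9) (k (nat_lit 0x98e8c))))) (a (v (nat_lit 4) (a (v (nat_lit 9) (k (nat_lit 0x98d24))) (a (v (nat_lit 7) (k (nat_lit 0x9901e))) (v (nat_lit 4) (k (nat_lit 0x990ae)))))) (a (t (nat_lit 4) (nat_lit 7) (nat_lit 9) (a (t (nat_lit 5) (nat_lit 8) (nat_lit 9) (k (nat_lit 0x131f10))) (t (nat_lit 4) (nat_lit 7) (nat_lit 9) (k (nat_lit 0x98e8c))))) (v (nat_lit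 3) (a (a (v (nat_lit 9) (k (nat_lit 0x1319d0))) (a (v (nat_lit 8) (k (nat_lit 0x98754))) (v (nat_lit 7) (k (nat_lit 0x98754))))) (a (a (v (nat_lit 6) (k (nat_lit 0x131a90))) (v (nat_lit 5) (k (nat_lit 0x98cdc)))) (a (v (nat_lit 4) (k (nat_lit 0x98cdc))) (v (nat_lit 3) (k (nat_lit 0x1319c4)))))))))))) (u (nat_lit 3) (a (v (nat_lit 5) (a (v (nat_lit 8) (k (nat_lit 0x9904e))) (v (nat_lit 5) (k (nat_lit 0x9909c))))) (v (nat_lit 4) (a (v (nat_lit 7) (k (nat_lit 0x9904e))) (v (nat_lit 4) (k (nat_lit 0x9909c)))))))))))) (a (t (nat_lit 3) (nat_lit 6) (nat_lit 9) (a (a (a (u (nat_lit 9) (a (v (nat_lit 9) (v (nat_lit 9) (k (nat_lit 0x3be4d00)))) (u (nat_lit 9) (u (nat_lit 9) (k (nat_lit 0x2638b0)))))) (u (nat_lit 6) (v (nat_lit 6) (a (u (nat_lit 9) (k (nat_lit 0x46f1c04))) (v (nat_lit 6) (k (nat_lit 0x131c64))))))) (a (v (nat_lit 5) (v (nat_lit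 6) (u (nat_lit 8) (k (nat_lit 0x7489950))))) (a (t (nat_lit 5) (nat_lit 8) (nat_lit 9) (u (nat_lit 7) (v (nat_lit 7) (k (nat_lit 0x131f10))))) (v (nat_lit 4) (v (nat_lit 6) (u (nat_lit 7) (k (nat_lit 0x7489950)))))))) (a (a (u (nat_lit 4) (v (nat_lit 4) (t (nat_lit 5) (nat_lit 8) (nat_lit 9) (k (nat_lit 0x131f10))))) (t (nat_lit 4) (nat_lit 7) (nat_lit 9) (a (u (nat_lit 8) (v (nat_lit 8) (k (nat_lit 0x131f10)))) (u (nat_lit 5) (v (nat_lit 5) (k (nat_lit 0x131f10))))))) (a (v (nat_lit 3) (a (u (nat_lit 5) (v (nat_lit 8) (k (nat_lit 0x7489950)))) (u (nat_lit 4) (v (nat_lit 7) (k (nat_lit 0x7489950)))))) (a (u (nat_lit 3) (a (u (nat_lit 6) (u (nat_lit 6) (k (nat_lit 0x131b50)))) (a (v (nat_lit 3) (a (u (nat_lit 9) (k (nat_lit 0x46f1c04))) (v (nat_lit 3) (k (nat_lit 0x131c64))))) (u (nat_lit 3) (u (nat_lit 6) (k (nat_lit 0x131b50)))))))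 (t (nat_lit 3) (nat_lit 6) (nat_lit 9) (a (a (u (nat_lit 8) (v (nat_lit 8) (k (nat_lit 0x98e8c)))) (a (v (nat_lit 7) (u (nat_lit 8) (k (nat_lit 0x997a4)))) (u (nat_lit 7) (a (v (nat_lit 8) (k (nat_lit 0x997a4))) (v (nat_lit 7) (k (nat_lit 0x98e8c))))))) (a (u (nat_lit 5) (v (nat_lit 5) (k (nat_lit 0x98e8c)))) (a (v (nat_lit 4) (u (nat_lit 5) (k (nat_lit 0x997a4)))) (u (nat_lit 4) (a (v (nat_lit 5) (k (nat_lit 0x997a4))) (v (nat_lit 4) (k (nat_lit 0x98e8c)))))))))))))) (v (nat_lit 2) (a (a (a (a (u (nat_lit 9) (v (nat_lit 9) (v (nat_lit 9) (k (nat_lit 0x2631d8))))) (u (nat_lit 8) (v (nat_lit 8) (a (v (nat_lit 9) (k (nat_lit 0x98cdc))) (v (nat_lit 8) (k (nat_lit 0x98ce8))))))) (a (v (nat_lit 7) (a (u (nat_lit 8) (v (nat_lit 9) (k (nat_lit 0x98802)))) (v (nat_lit 7) (u (nat_lit 8) (k (nat_lit 0x98c04)))))) (u (nat_lit 7) (a (v (nat_lit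 8) (a (v (nat_lit 9) (k (nat_lit 0x98802))) (v (nat_lit 8) (k (nat_lit 0x98c04))))) (v (nat_lit 7) (a (v (nat_lit 9) (k (nat_lit 0x98cdc))) (v (nat_lit 7) (k (nat_lit 0x98ce8))))))))) (a (a (v (nat_lit 6) (a (a (u (nat_lit 9) (v (nat_lit 9) (k (nat_lit 0x13167c)))) (u (nat_lit 8) (a (v (nat_lit 9) (k (nat_lit 0x98ce8))) (a (v (nat_lit 8) (k (nat_lit 0x98a66))) (u (nat_lit 8) (k (nat_lit 0x98a4e))))))) (a (v (nat_lit 7) (u (nat_lit 8) (k (nat_lit 0x98c70)))) (a (u (nat_lit 7) (a (a (v (nat_lit 9) (k (nat_lit 0x98ce8))) (v (nat_lit 8) (k (nat_lit 0x98c70)))) (a (v (nat_lit 7) (k (nat_lit 0x98a66))) (u (nat_lit 7) (k (nat_lit 0x98a4e)))))) (v (nat_lit 6) (a (u (nat_lit 8) (k (nat_lit 0x98922))) (u (nat_lit 7) (k (nat_lit 0x98922))))))))) (u (nat_lit 6) (a (v (nat_lit 6) (a (a (v (nat_lit 9) (k (nat_lit 0x132054))) (v (nat_lit 8) (k (nat_lit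 0x9ec16)))) (a (v (nat_lit 7) (k (nat_lit 0x9ec16))) (v (nat_lit 6) (k (nat_lit 0x131a9c)))))) (u (nat_lit 6) (a (v (nat_lit 8) (k (nat_lit 0x9eade))) (v (nat_lit 7) (k (nat_lit 0x9eade)))))))) (a (v (nat_lit 5) (a (a (v (nat_lit 8) (u (nat_lit 9) (k (nat_lit 0x131e38)))) (a (u (nat_lit 8) (a (v (nat_lit 9) (k (nat_lit 0x9978c))) (v (nat_lit 8) (k (nat_lit 0x98790))))) (v (nat_lit 7) (a (u (nat_lit 9) (k (nat_lit 0x133410))) (u (nat_lit 8) (k (nat_lit 0x98ed4))))))) (a (u (nat_lit 7) (v (nat_lit 7) (k (nat_lit 0x98d6c)))) (a (v (nat_lit 6) (a (u (nat_lit 9) (k (nat_lit 0x997b0))) (a (u (nat_lit 8) (k (nat_lit 0x98d8a))) (u (nat_lit 7) (k (nat_lit 0x93f7e)))))) (u (nat_lit 6) (v (nat_lit 6) (k (nat_lit 0x99324)))))))) (u (nat_lit 5) (a (v (nat_lit 8) (v (nat_lit 9) (k (nat_lit 0x9978c)))) (a (u (nat_lit 7) (u (nat_lit 9) (k (nat_lit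 0x12fff0)))) (v (nat_lit 5) (a (a (v (nat_lit 9) (k (nat_lit 0x98cdc))) (v (nat_lit 8) (k (nat_lit 0x98790)))) (a (v (nat_lit 7) (k (nat_lit 0x98d6c))) (v (nat_lit 5) (k (nat_lit 0x98ce8)))))))))))) (a (a (a (t (nat_lit 5) (nat_lit 8) (nat_lit 9) (u (nat_lit 5) (a (u (nat_lit 8) (k (nat_lit 0x133584))) (a (u (nat_lit 7) (k (nat_lit 0x99c7e))) (u (nat_lit 6) (k (nat_lit 0x5bd8fd4))))))) (v (nat_lit 4) (a (a (a (v (nat_lit 8) (u (nat_lit 9) (k (nat_lit 0x133410)))) (u (nat_lit 8) (v (nat_lit 8) (k (nat_lit 0x98d6c))))) (a (v (nat_lit 7) (u (nat_lit 9) (k (nat_lit 0x131e38)))) (u (nat_lit 7) (a (v (nat_lit 9) (k (nat_lit 0x9978c))) (a (v (nat_lit 8) (k (nat_lit 0x98ed4))) (v (nat_lit 7) (k (nat_lit 0x98790)))))))) (a (a (v (nat_lit 6) (a (u (nat_lit 9) (k (nat_lit 0x997b0))) (a (u (nat_lit 8) (k (nat_lit 0x93f7e))) (u (nat_lit 7) (k (nat_lit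 0x98d8a)))))) (u (nat_lit 6) (v (nat_lit 6) (k (nat_lit 0x99324))))) (a (u (nat_lit 5) (a (v (nat_lit 9) (k (nat_lit 0x98802))) (v (nat_lit 8) (k (nat_lit 0x98ed4))))) (v (nat_lit 4) (u (nat_lit 5) (k (nat_lit 0x98c04))))))))) (a (u (nat_lit 4) (a (a (u (nat_lit 8) (u (nat_lit 9) (k (nat_lit 0x12fff0)))) (v (nat_lit 7) (v (nat_lit 9) (k (nat_lit 0x9978c))))) (a (v (nat_lit 5) (a (v (nat_lit 9) (k (nat_lit 0x98802))) (a (v (nat_lit 7) (k (nat_lit 0x98ed4))) (v (nat_lit 5) (k (nat_lit 0x98c04)))))) (a (t (nat_lit 5) (nat_lit 8) (nat_lit 9) (u (nat_lit 8) (k (nat_lit 0x99c7e)))) (v (nat_lit 4) (a (a (v (nat_lit 9) (k (nat_lit 0x98cdc))) (v (nat_lit 8) (k (nat_lit 0x98d6c)))) (a (v (nat_lit 7) (k (nat_lit 0x98790))) (v (nat_lit 4) (k (nat_lit 0x98ce8)))))))))) (t (nat_lit 4) (nat_lit 7) (nat_lit 9) (a (u (nat_lit 5) (u (nat_lit 7) (k (nat_lit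 0x99c7e)))) (u (nat_lit 4) (a (u (nat_lit 8) (k (nat_lit 0x99c7e))) (a (u (nat_lit 7) (k (nat_lit 0x133584))) (u (nat_lit 6) (k (nat_lit 0x5bd8fd4)))))))))) (a (a (v (nat_lit 3) (a (a (a (u (nat_lit 9) (v (nat_lit 9) (k (nat_lit 0x13167c)))) (v (nat_lit 8) (u (nat_lit 9) (k (nat_lit 0x997b0))))) (a (v (nat_lit 7) (u (nat_lit 9) (k (nat_lit 0x997b0)))) (u (nat_lit 6) (a (v (nat_lit 9) (k (nat_lit 0x130f08))) (a (v (nat_lit 8) (k (nat_lit 0x98cac))) (v (nat_lit 7) (k (nat_lit 0x98cac)))))))) (a (a (u (nat_lit 5) (a (a (v (nat_lit 9) (k (nat_lit 0x98ce8))) (v (nat_lit 8) (k (nat_lit 0x98d8a)))) (a (v (nat_lit 7) (k (nat_lit 0x93f7e))) (a (v (nat_lit 5) (k (nat_lit 0x98a66))) (u (nat_lit 5) (k (nat_lit 0x98a4e))))))) (v (nat_lit 4) (u (nat_lit 5) (k (nat_lit 0x98c70))))) (a (u (nat_lit 4) (a (a (v (nat_lit 9) (k (nat_lit 0x98ce8))) (a (v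 (nat_lit 8) (k (nat_lit 0x93f7e))) (v (nat_lit 7) (k (nat_lit 0x98d8a))))) (a (v (nat_lit 5) (k (nat_lit 0x98c70))) (a (v (nat_lit 4) (k (nat_lit 0x98a66))) (u (nat_lit 4) (k (nat_lit 0x98a4e))))))) (v (nat_lit 3) (a (u (nat_lit 5) (k (nat_lit 0x98922))) (u (nat_lit 4) (k (nat_lit 0x98922))))))))) (u (nat_lit 3) (a (a (v (nat_lit 6) (v (nat_lit 9) (k (nat_lit 0x130f08)))) (a (v (nat_lit 5) (v (nat_lit 6) (k (nat_lit 0x98cac)))) (t (nat_lit 5) (nat_lit 8) (nat_lit 9) (u (nat_lit 8) (k (nat_lit 0x5bd8fd4)))))) (a (a (v (nat_lit 4) (v (nat_lit 6) (k (nat_lit 0x98cac)))) (t (nat_lit 4) (nat_lit 7) (nat_lit 9) (u (nat_lit 7) (k (nat_lit 0x5bd8fd4))))) (a (v (nat_lit 3) (a (a (v (nat_lit 9) (k (nat_lit 0x132054))) (a (v (nat_lit 8) (k (nat_lit 0x99324))) (v (nat_lit 7) (k (nat_lit 0x99324))))) (a (v (nat_lit 5) (k (nat_lit 0x9ec16))) (a (v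 (nat_lit 4) (k (nat_lit 0x9ec16))) (v (nat_lit 3) (k (nat_lit 0x131a9c))))))) (u (nat_lit 3) (a (v (nat_lit 5) (k (nat_lit 0x9eade))) (v (nat_lit 4) (k (nat_lit 0x9eade)))))))))) (a (t (nat_lit 3) (nat_lit 6) (nat_lit 9) (a (a (u (nat_lit 8) (a (u (nat_lit 9) (k (nat_lit 0x98f1c))) (v (nat_lit 8) (k (nat_lit 0x4a4dd4c))))) (a (u (nat_lit 7) (a (u (nat_lit 9) (k (nat_lit 0x98f1c))) (v (nat_lit 7) (k (nat_lit 0x4a4dd4c))))) (u (nat_lit 6) (u (nat_lit 9) (k (nat_lit 0x1327b0)))))) (a (u (nat_lit 5) (a (u (nat_lit 9) (k (nat_lit 0x98f1c))) (v (nat_lit 5) (k (nat_lit 0x4a4dd4c))))) (a (u (nat_lit 4) (a (u (nat_lit 9) (k (nat_lit 0x98f1c))) (v (nat_lit 4) (k (nat_lit 0x4a4dd4c))))) (u (nat_lit 3) (u (nat_lit 9) (k (nat_lit 0x1327b0)))))))) (v (nat_lit 2) (a (a (a (u (nat_lit 9) (v (nat_lit 9) (k (nat_lit 0x25e5d0)))) (u (nat_lit 8) (v (nat_lit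 8) (k (nat_lit 0x98d1e))))) (a (v (nat_lit 7) (u (nat_lit 8) (k (nat_lit 0x98cf4)))) (a (u (nat_lit 7) (a (v (nat_lit 8) (k (nat_lit 0x98cf4))) (v (nat_lit 7) (k (nat_lit 0x98d1e))))) (u (nat_lit 6) (a (v (nat_lit 8) (k (nat_lit 0x95b50))) (a (v (nat_lit 7) (k (nat_lit 0x95b50))) (v (nat_lit 6) (k (nat_lit 0x131f4c))))))))) (a (a (u (nat_lit 5) (v (nat_lit 5) (k (nat_lit 0x98d1e)))) (a (t (nat_lit 5) (nat_lit 8) (nat_lit 9) (a (u (nat_lit 8) (k (nat_lit 0x30855f6))) (u (nat_lit 5) (k (nat_lit 0x30855f6))))) (v (nat_lit 4) (u (nat_lit 5) (k (nat_lit 0x98cf4)))))) (a (u (nat_lit 4) (a (v (nat_lit 5) (k (nat_lit 0x98cf4))) (v (nat_lit 4) (k (nat_lit 0x98d1e))))) (a (t (nat_lit 4) (nat_lit 7) (nat_lit 9) (a (u (nat_lit 7) (k (nat_lit 0x30855f6))) (u (nat_lit 4) (k (nat_lit 0x30855f6))))) (u (nat_lit 3) (a (v (nat_lit 5) (k (nat_lit 0x95b50)))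 (a (v (nat_lit 4) (k (nat_lit 0x95b50))) (v (nat_lit 3) (k (nat_lit 0x131f4c))))))))))))))))))) (a (a (u (nat_lit 2) (a (a (a (a (v (nat_lit 8) (v (nat_lit 9) (v (nat_lit 9) (k (nat_lit 0x98394))))) (u (nat_lit 8) (u (nat_lit 9) (u (nat_lit 9) (k (nat_lit 0x98358)))))) (a (v (nat_lit 7) (a (v (nat_lit 9) (v (nat_lit 9) (k (nat_lit 0x98394)))) (a (v (nat_lit 8) (a (v (nat_lit 9) (k (nat_lit 0x13239c))) (v (nat_lit 8) (k (nat_lit 0x98d90))))) (v (nat_lit 7) (v (nat_lit 8) (k (nat_lit 0x98d90))))))) (u (nat_lit 7) (u (nat_lit 9) (u (nat_lit 9) (k (nat_lit 0x98358))))))) (a (a (v (nat_lit 6) (a (v (nat_lit 7) (v (nat_lit 8) (k (nat_lit 0x12c9d8)))) (v (nat_lit 6) (a (a (v (nat_lit 9) (k (nat_lit 0x130f68))) (v (nat_lit 8) (k (nat_lit 0x98f5e)))) (a (v (nat_lit 7) (k (nat_lit 0x98f5e))) (v (nat_lit 6) (k (nat_lit 0x131784)))))))) (u (nat_lit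 6) (v (nat_lit 7) (v (nat_lit 8) (k (nat_lit 0x12c960)))))) (a (v (nat_lit 5) (a (a (v (nat_lit 9) (v (nat_lit 9) (k (nat_lit 0x98394)))) (v (nat_lit 8) (a (v (nat_lit 9) (k (nat_lit 0x1300bc))) (v (nat_lit 8) (k (nat_lit 0x992a0)))))) (a (v (nat_lit 6) (a (v (nat_lit 7) (k (nat_lit 0x9dba2))) (v (nat_lit 6) (k (nat_lit 0x98730))))) (v (nat_lit 5) (a (v (nat_lit 8) (k (nat_lit 0x992a0))) (v (nat_lit 6) (k (nat_lit 0x9898e)))))))) (u (nat_lit 5) (a (u (nat_lit 9) (u (nat_lit 9) (k (nat_lit 0x98358)))) (v (nat_lit 6) (v (nat_lit 9) (k (nat_lit 0x996c6))))))))) (a (a (a (t (nat_lit 5) (nat_lit 8) (nat_lit 9) (u (nat_lit 7) (u (nat_lit 9) (k (nat_lit 0x98da8))))) (v (nat_lit 4) (a (a (v (nat_lit 9) (v (nat_lit 9) (k (nat_lit 0x98394)))) (v (nat_lit 7) (a (v (nat_lit 9) (k (nat_lit 0x1300bc))) (v (nat_lit 7) (k (nat_lit 0x992a0)))))) (a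 (v (nat_lit 6) (a (v (nat_lit 8) (k (nat_lit 0x9dba2))) (v (nat_lit 6) (k (nat_lit 0x98730))))) (a (v (nat_lit 5) (a (v (nat_lit 9) (k (nat_lit 0x13239c))) (a (v (nat_lit 6) (k (nat_lit 0x131808))) (v (nat_lit 5) (k (nat_lit 0x98d90)))))) (v (nat_lit 4) (a (v (nat_lit 7) (k (nat_lit 0x992a0))) (a (v (nat_lit 6) (k (nat_lit 0x9898e))) (v (nat_lit 5) (k (nat_lit 0x98d90))))))))))) (a (u (nat_lit 4) (a (u (nat_lit 9) (u (nat_lit 9) (k (nat_lit 0x98358)))) (a (v (nat_lit 6) (v (nat_lit 9) (k (nat_lit 0x996c6)))) (t (nat_lit 5) (nat_lit 8) (nat_lit 9) (u (nat_lit 9) (k (nat_lit 0x98da8))))))) (t (nat_lit 4) (nat_lit 7) (nat_lit 9) (a (u (nat_lit 8) (u (nat_lit 9) (k (nat_lit 0x98da8)))) (u (nat_lit 5) (u (nat_lit 9) (k (nat_lit 0x98da8)))))))) (a (a (v (nat_lit 3) (a (a (a (v (nat_lit 8) (v (nat_lit 8) (k (nat_lit 0x9898e)))) (u (nat_lit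 8) (v (nat_lit 9) (k (nat_lit 0x996c6))))) (a (v (nat_lit 7) (a (v (nat_lit 8) (k (nat_lit 0x131808))) (v (nat_lit 7) (k (nat_lit 0x9898e))))) (u (nat_lit 7) (v (nat_lit 9) (k (nat_lit 0x996c6)))))) (a (a (v (nat_lit 6) (v (nat_lit 6) (k (nat_lit 0x131688)))) (v (nat_lit 5) (v (nat_lit 7) (k (nat_lit 0x9dba2))))) (a (v (nat_lit 4) (a (v (nat_lit 8) (k (nat_lit 0x9dba2))) (v (nat_lit 5) (k (nat_lit 0x12c9d8))))) (v (nat_lit 3) (a (a (v (nat_lit 9) (k (nat_lit 0x130f68))) (a (v (nat_lit 8) (k (nat_lit 0x98730))) (v (nat_lit 7) (k (nat_lit 0x98730))))) (a (a (v (nat_lit 6) (k (nat_lit 0x131688))) (v (nat_lit 5) (k (nat_lit 0x98f5e)))) (a (v (nat_lit 4) (k (nat_lit 0x98f5e))) (v (nat_lit 3) (k (nat_lit 0x131784))))))))))) (u (nat_lit 3) (v (nat_lit 4) (v (nat_lit 5) (k (nat_lit 0x12c960)))))) (a (t (nat_lit 3) (nat_lit 6) (nat_lit 9) (a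 (u (nat_lit 5) (u (nat_lit 6) (k (nat_lit 0xeb3b4c2)))) (a (u (nat_lit 4) (u (nat_lit 6) (k (nat_lit 0xeb3b4c2)))) (u (nat_lit 3) (a (u (nat_lit 8) (k (nat_lit 0xeb3b4c2))) (a (u (nat_lit 7) (k (nat_lit 0xeb3b4c2))) (u (nat_lit 6) (k (nat_lit 0x264ea0))))))))) (a (v (nat_lit 2) (a (a (a (v (nat_lit 9) (v (nat_lit 9) (k (nat_lit 0x26a5e8)))) (v (nat_lit 8) (v (nat_lit 9) (k (nat_lit 0x98cee))))) (a (v (nat_lit 7) (v (nat_lit 9) (k (nat_lit 0x98cee)))) (v (nat_lit 6) (a (a (v (nat_lit 9) (k (nat_lit 0x1319dc))) (v (nat_lit 8) (k (nat_lit 0x9bec8)))) (a (v (nat_lit 7) (k (nat_lit 0x9bec8))) (v (nat_lit 6) (k (nat_lit 0x1314a8)))))))) (a (a (v (nat_lit 5) (a (a (v (nat_lit 9) (k (nat_lit 0x98cee))) (v (nat_lit 8) (k (nat_lit 0x1319f4)))) (a (v (nat_lit 7) (k (nat_lit 0x12afc8))) (v (nat_lit 6) (k (nat_lit 0x98cf4)))))) (v (nat_lit 4) (a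 (a (v (nat_lit 9) (k (nat_lit 0x98cee))) (v (nat_lit 8) (k (nat_lit 0x12afc8)))) (a (v (nat_lit 7) (k (nat_lit 0x1319f4))) (v (nat_lit 6) (k (nat_lit 0x98cf4))))))) (a (v (nat_lit 3) (a (a (v (nat_lit 9) (k (nat_lit 0x1319dc))) (a (v (nat_lit 8) (k (nat_lit 0x98cf4))) (v (nat_lit 7) (k (nat_lit 0x98cf4))))) (a (a (v (nat_lit 6) (k (nat_lit 0x263a18))) (v (nat_lit 5) (k (nat_lit 0x9bec8)))) (a (v (nat_lit 4) (k (nat_lit 0x9bec8))) (v (nat_lit 3) (k (nat_lit 0x1314a8))))))) (v (nat_lit 2) (a (a (a (v (nat_lit 9) (k (nat_lit 0x25c6c8))) (v (nat_lit 8) (k (nat_lit 0x98dc0)))) (a (v (nat_lit 7) (k (nat_lit 0x98dc0))) (v (nat_lit 6) (k (nat_lit 0x131550))))) (a (a (v (nat_lit 5) (k (nat_lit 0x98dc0))) (v (nat_lit 4) (k (nat_lit 0x98dc0)))) (a (v (nat_lit 3) (k (nat_lit 0x131550))) (v (nat_lit 2) (k (nat_lit 0x2634f0))))))))))) (u (nat_lit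 2) (a (a (u (nat_lit 9) (v (nat_lit 9) (k (nat_lit 0x260b08)))) (a (v (nat_lit 5) (u (nat_lit 7) (k (nat_lit 0x9c27c)))) (u (nat_lit 5) (v (nat_lit 7) (k (nat_lit 0x9c27c)))))) (a (a (v (nat_lit 4) (u (nat_lit 8) (k (nat_lit 0x9c27c)))) (u (nat_lit 4) (v (nat_lit 8) (k (nat_lit 0x9c27c))))) (a (t (nat_lit 3) (nat_lit 6) (nat_lit 9) (a (u (nat_lit 6) (k (nat_lit 0xe37366c))) (u (nat_lit 3) (k (nat_lit 0xe37366c))))) (v (nat_lit 2) (a (v (nat_lit 9) (k (nat_lit 0x25c7b8))) (v (nat_lit 2) (k (nat_lit 0x263598))))))))))))))) (a (v (nat_lit 1) (a (a (a (a (u (nat_lit 9) (v (nat_lit 9) (v (nat_lit 9) (k (nat_lit 0x2631d8))))) (u (nat_lit 8) (v (nat_lit 8) (a (v (nat_lit 9) (k (nat_lit 0x98cdc))) (v (nat_lit 8) (k (nat_lit 0x98ce8))))))) (a (v (nat_lit 7) (a (u (nat_lit 9) (v (nat_lit 9) (k (nat_lit 0x13167c)))) (a (u (nat_lit 8) (a (v (nat_lit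 9) (k (nat_lit 0x98ce8))) (a (v (nat_lit 8) (k (nat_lit 0x98a66))) (u (nat_lit 8) (k (nat_lit 0x98a4e)))))) (v (nat_lit 7) (u (nat_lit 8) (k (nat_lit 0x98922))))))) (u (nat_lit 7) (a (v (nat_lit 7) (a (v (nat_lit 9) (k (nat_lit 0x132054))) (a (v (nat_lit 8) (k (nat_lit 0x9ec16))) (v (nat_lit 7) (k (nat_lit 0x131a9c)))))) (u (nat_lit 7) (v (nat_lit 8) (k (nat_lit 0x9eade)))))))) (a (a (v (nat_lit 6) (a (a (u (nat_lit 8) (v (nat_lit 9) (k (nat_lit 0x98802)))) (v (nat_lit 7) (u (nat_lit 8) (k (nat_lit 0x98c70))))) (a (u (nat_lit 7) (a (v (nat_lit 7) (k (nat_lit 0x9ec16))) (u (nat_lit 7) (k (nat_lit 0x9eade))))) (v (nat_lit 6) (u (nat_lit 8) (k (nat_lit 0x98c04))))))) (u (nat_lit 6) (a (a (v (nat_lit 8) (a (v (nat_lit 9) (k (nat_lit 0x98802))) (v (nat_lit 8) (k (nat_lit 0x98c04))))) (v (nat_lit 7) (a (v (nat_lit 9) (k (nat_lit 0x98ce8)))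 (a (v (nat_lit 8) (k (nat_lit 0x98c70))) (v (nat_lit 7) (k (nat_lit 0x98922))))))) (a (v (nat_lit 6) (a (v (nat_lit 9) (k (nat_lit 0x98cdc))) (a (v (nat_lit 7) (k (nat_lit 0x98a66))) (v (nat_lit 6) (k (nat_lit 0x98ce8)))))) (u (nat_lit 6) (v (nat_lit 7) (k (nat_lit 0x98a4e)))))))) (a (v (nat_lit 5) (a (a (v (nat_lit 8) (u (nat_lit 9) (k (nat_lit 0x131e38)))) (a (u (nat_lit 8) (a (v (nat_lit 9) (k (nat_lit 0x9978c))) (v (nat_lit 8) (k (nat_lit 0x98790))))) (v (nat_lit 7) (a (u (nat_lit 9) (k (nat_lit 0x997b0))) (u (nat_lit 8) (k (nat_lit 0x98d8a))))))) (a (u (nat_lit 7) (v (nat_lit 7) (k (nat_lit 0x99324)))) (a (v (nat_lit 6) (a (u (nat_lit 9) (k (nat_lit 0x133410))) (u (nat_lit 8) (k (nat_lit 0x98ed4))))) (u (nat_lit 6) (a (v (nat_lit 7) (k (nat_lit 0x93f7e))) (v (nat_lit 6) (k (nat_lit 0x98d6c))))))))) (a (u (nat_lit 5) (a (v (nat_lit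 8) (v (nat_lit 9) (k (nat_lit 0x9978c)))) (a (u (nat_lit 6) (u (nat_lit 9) (k (nat_lit 0x12fff0)))) (v (nat_lit 5) (a (a (v (nat_lit 9) (k (nat_lit 0x98cdc))) (v (nat_lit 8) (k (nat_lit 0x98790)))) (a (v (nat_lit 6) (k (nat_lit 0x98d6c))) (v (nat_lit 5) (k (nat_lit 0x98ce8))))))))) (t (nat_lit 5) (nat_lit 8) (nat_lit 9) (u (nat_lit 5) (a (u (nat_lit 8) (k (nat_lit 0x133584))) (a (u (nat_lit 7) (k (nat_lit 0x5bd8fd4))) (u (nat_lit 6) (k (nat_lit 0x99c7e))))))))))) (a (a (a (v (nat_lit 4) (a (a (u (nat_lit 9) (v (nat_lit 9) (k (nat_lit 0x13167c)))) (a (v (nat_lit 8) (u (nat_lit 9) (k (nat_lit 0x997b0)))) (u (nat_lit 7) (a (v (nat_lit 9) (k (nat_lit 0x130f08))) (v (nat_lit 8) (k (nat_lit 0x98cac))))))) (a (v (nat_lit 6) (a (u (nat_lit 9) (k (nat_lit 0x997b0))) (u (nat_lit 7) (k (nat_lit 0x98cac))))) (a (u (nat_lit 5) (a (a (v (nat_lit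 9) (k (nat_lit 0x98ce8))) (v (nat_lit 8) (k (nat_lit 0x98d8a)))) (a (v (nat_lit 6) (k (nat_lit 0x93f7e))) (a (v (nat_lit 5) (k (nat_lit 0x98a66))) (u (nat_lit 5) (k (nat_lit 0x98a4e))))))) (v (nat_lit 4) (u (nat_lit 5) (k (nat_lit 0x98922)))))))) (u (nat_lit 4) (a (a (v (nat_lit 7) (v (nat_lit 9) (k (nat_lit 0x130f08)))) (v (nat_lit 5) (v (nat_lit 7) (k (nat_lit 0x98cac))))) (a (t (nat_lit 5) (nat_lit 8) (nat_lit 9) (u (nat_lit 8) (k (nat_lit 0x5bd8fd4)))) (a (v (nat_lit 4) (a (a (v (nat_lit 9) (k (nat_lit 0x132054))) (v (nat_lit 8) (k (nat_lit 0x99324)))) (a (v (nat_lit 6) (k (nat_lit 0x99324))) (a (v (nat_lit 5) (k (nat_lit 0x9ec16))) (v (nat_lit 4) (k (nat_lit 0x131a9c))))))) (u (nat_lit 4) (v (nat_lit 5) (k (nat_lit 0x9eade))))))))) (a (t (nat_lit 4) (nat_lit 7) (nat_lit 9) (a (a (u (nat_lit 8) (a (u (nat_lit 9) (k (nat_lit 0x98f1c)))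 (v (nat_lit 8) (k (nat_lit 0x4a4dd4c))))) (u (nat_lit 7) (u (nat_lit 9) (k (nat_lit 0x1327b0))))) (a (u (nat_lit 6) (a (u (nat_lit 9) (k (nat_lit 0x98f1c))) (v (nat_lit 6) (k (nat_lit 0x4a4dd4c))))) (a (u (nat_lit 5) (a (u (nat_lit 9) (k (nat_lit 0x98f1c))) (v (nat_lit 5) (k (nat_lit 0x4a4dd4c))))) (u (nat_lit 4) (u (nat_lit 9) (k (nat_lit 0x1327b0)))))))) (v (nat_lit 3) (a (a (a (v (nat_lit 8) (u (nat_lit 9) (k (nat_lit 0x133410)))) (u (nat_lit 8) (v (nat_lit 8) (k (nat_lit 0x98d6c))))) (a (v (nat_lit 7) (a (u (nat_lit 9) (k (nat_lit 0x997b0))) (u (nat_lit 8) (k (nat_lit 0x93f7e))))) (a (u (nat_lit 7) (v (nat_lit 7) (k (nat_lit 0x99324)))) (v (nat_lit 6) (u (nat_lit 9) (k (nat_lit 0x131e38))))))) (a (a (u (nat_lit 6) (a (a (v (nat_lit 9) (k (nat_lit 0x9978c))) (v (nat_lit 8) (k (nat_lit 0x98ed4)))) (a (v (nat_lit 7) (k (nat_lit 0x98d8a)))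 (v (nat_lit 6) (k (nat_lit 0x98790)))))) (u (nat_lit 5) (a (v (nat_lit 9) (k (nat_lit 0x98802))) (v (nat_lit 8) (k (nat_lit 0x98ed4)))))) (a (v (nat_lit 4) (u (nat_lit 5) (k (nat_lit 0x98c70)))) (a (u (nat_lit 4) (a (v (nat_lit 7) (k (nat_lit 0x98cac))) (a (v (nat_lit 4) (k (nat_lit 0x9ec16))) (u (nat_lit 4) (k (nat_lit 0x9eade)))))) (v (nat_lit 3) (u (nat_lit 5) (k (nat_lit 0x98c04))))))))))) (a (a (u (nat_lit 3) (a (a (a (u (nat_lit 8) (u (nat_lit 9) (k (nat_lit 0x12fff0)))) (v (nat_lit 6) (v (nat_lit 9) (k (nat_lit 0x9978c))))) (a (v (nat_lit 5) (a (v (nat_lit 9) (k (nat_lit 0x98802))) (a (v (nat_lit 6) (k (nat_lit 0x98ed4))) (v (nat_lit 5) (k (nat_lit 0x98c04)))))) (t (nat_lit 5) (nat_lit 8) (nat_lit 9) (u (nat_lit 8) (k (nat_lit 0x99c7e)))))) (a (a (v (nat_lit 4) (a (a (v (nat_lit 9) (k (nat_lit 0x98ce8))) (v (nat_lit 8) (k (nat_lit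 0x93f7e)))) (a (v (nat_lit 6) (k (nat_lit 0x98d8a))) (a (v (nat_lit 5) (k (nat_lit 0x98c70))) (v (nat_lit 4) (k (nat_lit 0x98922))))))) (t (nat_lit 4) (nat_lit 7) (nat_lit 9) (u (nat_lit 9) (k (nat_lit 0x98f1c))))) (a (v (nat_lit 3) (a (a (v (nat_lit 9) (k (nat_lit 0x98cdc))) (a (v (nat_lit 8) (k (nat_lit 0x98d6c))) (v (nat_lit 6) (k (nat_lit 0x98790))))) (a (v (nat_lit 4) (k (nat_lit 0x98a66))) (a (t (nat_lit 4) (nat_lit 7) (nat_lit 9) (k (nat_lit 0x4a4dd4c))) (v (nat_lit 3) (k (nat_lit 0x98ce8))))))) (u (nat_lit 3) (v (nat_lit 4) (k (nat_lit 0x98a4e)))))))) (t (nat_lit 3) (nat_lit 6) (nat_lit 9) (a (u (nat_lit 5) (u (nat_lit 6) (k (nat_lit 0x99c7e)))) (a (u (nat_lit 4) (u (nat_lit 6) (k (nat_lit 0x5bd8fd4)))) (u (nat_lit 3) (a (u (nat_lit 8) (k (nat_lit 0x99c7e))) (a (u (nat_lit 7) (k (nat_lit 0x5bd8fd4))) (u (nat_lit 6) (k (nat_lit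 0x133584)))))))))) (a (v (nat_lit 2) (a (a (u (nat_lit 9) (v (nat_lit 9) (k (nat_lit 0x268230)))) (u (nat_lit 7) (v (nat_lit 8) (k (nat_lit 0x98d3c))))) (a (u (nat_lit 6) (v (nat_lit 8) (k (nat_lit 0x98d3c)))) (a (u (nat_lit 4) (v (nat_lit 5) (k (nat_lit 0x98d3c)))) (u (nat_lit 3) (v (nat_lit 5) (k (nat_lit 0x98d3c)))))))) (a (u (nat_lit 2) (a (a (a (u (nat_lit 9) (u (nat_lit 9) (k (nat_lit 0x12f0d8)))) (v (nat_lit 8) (a (v (nat_lit 9) (k (nat_lit 0x98cbe))) (v (nat_lit 8) (k (nat_lit 0x98cee)))))) (a (v (nat_lit 7) (a (v (nat_lit 9) (k (nat_lit 0x98bf8))) (a (v (nat_lit 8) (k (nat_lit 0x9b4e4))) (v (nat_lit 7) (k (nat_lit 0x98dc0)))))) (v (nat_lit 6) (a (v (nat_lit 8) (k (nat_lit 0x9648c))) (v (nat_lit 7) (k (nat_lit 0x98d12))))))) (a (a (v (nat_lit 5) (a (a (v (nat_lit 9) (k (nat_lit 0x98cbe))) (v (nat_lit 8) (k (nat_lit 0x130c2c))))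 (a (v (nat_lit 7) (k (nat_lit 0x9c4d4))) (a (v (nat_lit 6) (k (nat_lit 0x95610))) (v (nat_lit 5) (k (nat_lit 0x98cee))))))) (v (nat_lit 4) (a (a (v (nat_lit 9) (k (nat_lit 0x98bf8))) (a (v (nat_lit 8) (k (nat_lit 0x9c4d4))) (v (nat_lit 7) (k (nat_lit 0x12fd98))))) (a (v (nat_lit 6) (k (nat_lit 0x98d0c))) (a (v (nat_lit 5) (k (nat_lit 0x9b4e4))) (v (nat_lit 4) (k (nat_lit 0x98dc0)))))))) (a (t (nat_lit 4) (nat_lit 7) (nat_lit 9) (u (nat_lit 9) (k (nat_lit 0x165e19f0)))) (a (v (nat_lit 3) (a (a (v (nat_lit 8) (k (nat_lit 0x95610))) (v (nat_lit 7) (k (nat_lit 0x98d0c)))) (a (v (nat_lit 6) (k (nat_lit 0x133368))) (a (v (nat_lit 5) (k (nat_lit 0x9648c))) (v (nat_lit 4) (k (nat_lit 0x98d12))))))) (v (nat_lit 2) (a (a (v (nat_lit 9) (k (nat_lit 0x1323e4))) (u (nat_lit 9) (k (nat_lit 0x132798)))) (a (v (nat_lit 7) (k (nat_lit 0x99264))) (a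 (v (nat_lit 4) (k (nat_lit 0x99264))) (v (nat_lit 2) (k (nat_lit 0x131a00)))))))))))) (v (nat_lit 1) (a (a (a (u (nat_lit 9) (v (nat_lit 9) (k (nat_lit 0x25e5d0)))) (a (u (nat_lit 8) (v (nat_lit 8) (k (nat_lit 0x98d1e)))) (u (nat_lit 7) (a (v (nat_lit 8) (k (nat_lit 0x95b50))) (v (nat_lit 7) (k (nat_lit 0x131f4c))))))) (a (v (nat_lit 6) (a (u (nat_lit 8) (k (nat_lit 0x98cf4))) (u (nat_lit 7) (k (nat_lit 0x95b50))))) (a (u (nat_lit 6) (a (v (nat_lit 8) (k (nat_lit 0x98cf4))) (v (nat_lit 6) (k (nat_lit 0x98d1e))))) (u (nat_lit 5) (v (nat_lit 5) (k (nat_lit 0x98d1e))))))) (a (a (t (nat_lit 5) (nat_lit 8) (nat_lit 9) (a (u (nat_lit 8) (k (nat_lit 0x30855f6))) (u (nat_lit 5) (k (nat_lit 0x30855f6))))) (a (u (nat_lit 4) (a (v (nat_lit 5) (k (nat_lit 0x95b50))) (v (nat_lit 4) (k (nat_lit 0x131f4c))))) (v (nat_lit 3) (a (u (nat_lit 5) (k (nat_lit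 0x98cf4))) (u (nat_lit 4) (k (nat_lit 0x95b50))))))) (a (u (nat_lit 3) (a (v (nat_lit 5) (k (nat_lit 0x98cf4))) (v (nat_lit 3) (k (nat_lit 0x98d1e))))) (a (t (nat_lit 3) (nat_lit 6) (nat_lit 9) (a (u (nat_lit 6) (k (nat_lit 0x30855f6))) (u (nat_lit 3) (k (nat_lit 0x30855f6))))) (u (nat_lit 2) (a (a (a (u (nat_lit 9) (k (nat_lit 0x131a60))) (v (nat_lit 8) (k (nat_lit 0x98bf8)))) (a (v (nat_lit 7) (k (nat_lit 0x98d30))) (v (nat_lit 6) (k (nat_lit 0x987c0))))) (a (a (v (nat_lit 5) (k (nat_lit 0x98bf8))) (t (nat_lit 5) (nat_lit 8) (nat_lit 9) (k (nat_lit 0x6023d0c)))) (a (v (nat_lit 4) (k (nat_lit 0x98d30))) (a (v (nat_lit 3) (k (nat_lit 0x987c0))) (v (nat_lit 2) (k (nat_lit 0x1318e0))))))))))))))))))) (u (nat_lit 1) (a (a (a (a (v (nat_lit 8) (v (nat_lit 9) (v (nat_lit 9) (k (nat_lit 0x98394))))) (u (nat_lit 8) (u (nat_lit 9) (u (nat_lit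 9) (k (nat_lit 0x98358)))))) (a (v (nat_lit 7) (v (nat_lit 7) (a (v (nat_lit 9) (k (nat_lit 0x130f68))) (a (v (nat_lit 8) (k (nat_lit 0x98f5e))) (v (nat_lit 7) (k (nat_lit 0x131784))))))) (v (nat_lit 6) (a (a (v (nat_lit 9) (v (nat_lit 9) (k (nat_lit 0x98394)))) (v (nat_lit 8) (a (v (nat_lit 9) (k (nat_lit 0x13239c))) (v (nat_lit 8) (k (nat_lit 0x98d90)))))) (a (v (nat_lit 7) (a (v (nat_lit 8) (k (nat_lit 0x12c9d8))) (v (nat_lit 7) (k (nat_lit 0x98f5e))))) (a (u (nat_lit 7) (v (nat_lit 8) (k (nat_lit 0x12c960)))) (v (nat_lit 6) (v (nat_lit 8) (k (nat_lit 0x98d90)))))))))) (a (a (u (nat_lit 6) (u (nat_lit 9) (u (nat_lit 9) (k (nat_lit 0x98358))))) (v (nat_lit 5) (a (a (v (nat_lit 9) (v (nat_lit 9) (k (nat_lit 0x98394)))) (v (nat_lit 8) (a (v (nat_lit 9) (k (nat_lit 0x1300bc))) (v (nat_lit 8) (k (nat_lit 0x992a0)))))) (a (v (nat_lit 7)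 (v (nat_lit 7) (k (nat_lit 0x98730)))) (a (v (nat_lit 6) (v (nat_lit 7) (k (nat_lit 0x9dba2)))) (v (nat_lit 5) (a (v (nat_lit 8) (k (nat_lit 0x992a0))) (v (nat_lit 7) (k (nat_lit 0x9898e)))))))))) (a (u (nat_lit 5) (a (u (nat_lit 9) (u (nat_lit 9) (k (nat_lit 0x98358)))) (v (nat_lit 7) (v (nat_lit 9) (k (nat_lit 0x996c6)))))) (t (nat_lit 5) (nat_lit 8) (nat_lit 9) (u (nat_lit 6) (u (nat_lit 9) (k (nat_lit 0x98da8)))))))) (a (a (a (v (nat_lit 4) (a (a (v (nat_lit 8) (v (nat_lit 8) (k (nat_lit 0x9898e)))) (a (u (nat_lit 8) (v (nat_lit 9) (k (nat_lit 0x996c6)))) (v (nat_lit 7) (v (nat_lit 7) (k (nat_lit 0x131688)))))) (a (a (v (nat_lit 6) (a (v (nat_lit 8) (k (nat_lit 0x131808))) (v (nat_lit 6) (k (nat_lit 0x9898e))))) (u (nat_lit 6) (v (nat_lit 9) (k (nat_lit 0x996c6))))) (a (v (nat_lit 5) (v (nat_lit 6) (k (nat_lit 0x9dba2)))) (v (nat_lit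 4) (a (a (v (nat_lit 9) (k (nat_lit 0x130f68))) (a (v (nat_lit 8) (k (nat_lit 0x98730))) (v (nat_lit 7) (k (nat_lit 0x131688))))) (a (v (nat_lit 6) (k (nat_lit 0x98730))) (a (v (nat_lit 5) (k (nat_lit 0x98f5e))) (v (nat_lit 4) (k (nat_lit 0x131784))))))))))) (t (nat_lit 4) (nat_lit 7) (nat_lit 9) (a (u (nat_lit 5) (u (nat_lit 7) (k (nat_lit 0xeb3b4c2)))) (u (nat_lit 4) (a (u (nat_lit 8) (k (nat_lit 0xeb3b4c2))) (a (u (nat_lit 7) (k (nat_lit 0x264ea0))) (u (nat_lit 6) (k (nat_lit 0xeb3b4c2))))))))) (a (v (nat_lit 3) (a (a (v (nat_lit 9) (v (nat_lit 9) (k (nat_lit 0x98394)))) (a (v (nat_lit 7) (a (v (nat_lit 8) (k (nat_lit 0x9dba2))) (v (nat_lit 7) (k (nat_lit 0x98730))))) (v (nat_lit 6) (a (v (nat_lit 9) (k (nat_lit 0x1300bc))) (v (nat_lit 6) (k (nat_lit 0x992a0))))))) (a (a (v (nat_lit 5) (a (v (nat_lit 9) (k (nat_lit 0x13239c))) (a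 (v (nat_lit 7) (k (nat_lit 0x131808))) (v (nat_lit 5) (k (nat_lit 0x98d90)))))) (v (nat_lit 4) (a (v (nat_lit 8) (k (nat_lit 0x9dba2))) (a (v (nat_lit 5) (k (nat_lit 0x12c9d8))) (v (nat_lit 4) (k (nat_lit 0x98f5e))))))) (a (u (nat_lit 4) (v (nat_lit 5) (k (nat_lit 0x12c960)))) (v (nat_lit 3) (a (v (nat_lit 7) (k (nat_lit 0x9898e))) (a (v (nat_lit 6) (k (nat_lit 0x992a0))) (v (nat_lit 5) (k (nat_lit 0x98d90)))))))))) (u (nat_lit 3) (a (a (u (nat_lit 9) (u (nat_lit 9) (k (nat_lit 0x98358)))) (v (nat_lit 7) (v (nat_lit 9) (k (nat_lit 0x996c6))))) (a (t (nat_lit 5) (nat_lit 8) (nat_lit 9) (u (nat_lit 9) (k (nat_lit 0x98da8)))) (t (nat_lit 4) (nat_lit 7) (nat_lit 9) (u (nat_lit 7) (k (nat_lit 0xeb3b4c2))))))))) (a (a (t (nat_lit 3) (nat_lit 6) (nat_lit 9) (a (u (nat_lit 8) (u (nat_lit 9) (k (nat_lit 0x98da8)))) (u (nat_lit 5) (u (nat_lit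 9) (k (nat_lit 0x98da8)))))) (v (nat_lit 2) (a (a (a (u (nat_lit 9) (u (nat_lit 9) (k (nat_lit 0x12f0d8)))) (v (nat_lit 8) (a (v (nat_lit 9) (k (nat_lit 0x98cbe))) (v (nat_lit 8) (k (nat_lit 0x98cee)))))) (a (v (nat_lit 7) (v (nat_lit 8) (k (nat_lit 0x9648c)))) (v (nat_lit 6) (a (a (v (nat_lit 9) (k (nat_lit 0x98bf8))) (v (nat_lit 8) (k (nat_lit 0x9b4e4)))) (a (v (nat_lit 7) (k (nat_lit 0x98d12))) (v (nat_lit 6) (k (nat_lit 0x98dc0)))))))) (a (a (v (nat_lit 5) (a (a (v (nat_lit 9) (k (nat_lit 0x98cbe))) (v (nat_lit 8) (k (nat_lit 0x130c2c)))) (a (v (nat_lit 7) (k (nat_lit 0x95610))) (a (v (nat_lit 6) (k (nat_lit 0x9c4d4))) (v (nat_lit 5) (k (nat_lit 0x98cee))))))) (v (nat_lit 4) (a (a (v (nat_lit 8) (k (nat_lit 0x95610))) (v (nat_lit 7) (k (nat_lit 0x133368)))) (a (v (nat_lit 6) (k (nat_lit 0x98d0c))) (v (nat_lit 5) (k (nat_lit 0x9648c)))))))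 (a (v (nat_lit 3) (a (a (v (nat_lit 9) (k (nat_lit 0x98bf8))) (a (v (nat_lit 8) (k (nat_lit 0x9c4d4))) (v (nat_lit 7) (k (nat_lit 0x98d0c))))) (a (a (v (nat_lit 6) (k (nat_lit 0x12fd98))) (v (nat_lit 5) (k (nat_lit 0x9b4e4)))) (a (v (nat_lit 4) (k (nat_lit 0x98d12))) (v (nat_lit 3) (k (nat_lit 0x98dc0))))))) (a (t (nat_lit 3) (nat_lit 6) (nat_lit 9) (u (nat_lit 9) (k (nat_lit 0x165e19f0)))) (v (nat_lit 2) (a (a (a (u (nat_lit 9) (k (nat_lit 0x131a60))) (v (nat_lit 8) (k (nat_lit 0x98bf8)))) (a (v (nat_lit 7) (k (nat_lit 0x987c0))) (v (nat_lit 6) (k (nat_lit 0x98d30))))) (a (a (v (nat_lit 5) (k (nat_lit 0x98bf8))) (t (nat_lit 5) (nat_lit 8) (nat_lit 9) (k (nat_lit 0x6023d0c)))) (a (v (nat_lit 4) (k (nat_lit 0x987c0))) (v (nat_lit 3) (k (nat_lit 0x98d30))))))))))))) (a (v (nat_lit 1) (a (a (a (v (nat_lit 9) (v (nat_lit 9) (k (nat_lit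 0x26a5e8)))) (v (nat_lit 8) (v (nat_lit 9) (k (nat_lit 0x98cee))))) (a (v (nat_lit 7) (a (v (nat_lit 9) (k (nat_lit 0x1319dc))) (a (v (nat_lit 8) (k (nat_lit 0x9bec8))) (v (nat_lit 7) (k (nat_lit 0x1314a8)))))) (v (nat_lit 6) (a (v (nat_lit 9) (k (nat_lit 0x98cee))) (v (nat_lit 7) (k (nat_lit 0x9bec8))))))) (a (a (v (nat_lit 5) (a (a (v (nat_lit 9) (k (nat_lit 0x98cee))) (v (nat_lit 8) (k (nat_lit 0x1319f4)))) (a (v (nat_lit 7) (k (nat_lit 0x98cf4))) (v (nat_lit 6) (k (nat_lit 0x12afc8)))))) (v (nat_lit 4) (a (a (v (nat_lit 9) (k (nat_lit 0x1319dc))) (a (v (nat_lit 8) (k (nat_lit 0x98cf4))) (v (nat_lit 7) (k (nat_lit 0x263a18))))) (a (v (nat_lit 6) (k (nat_lit 0x98cf4))) (a (v (nat_lit 5) (k (nat_lit 0x9bec8))) (v (nat_lit 4) (k (nat_lit 0x1314a8)))))))) (a (v (nat_lit 3) (a (a (v (nat_lit 9) (k (nat_lit 0x98cee))) (v (nat_lit 8) (k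 (nat_lit 0x12afc8)))) (a (v (nat_lit 7) (k (nat_lit 0x98cf4))) (a (v (nat_lit 6) (k (nat_lit 0x1319f4))) (v (nat_lit 4) (k (nat_lit 0x9bec8))))))) (a (v (nat_lit 2) (a (a (v (nat_lit 9) (k (nat_lit 0x1323e4))) (u (nat_lit 9) (k (nat_lit 0x132798)))) (a (v (nat_lit 6) (k (nat_lit 0x99264))) (a (v (nat_lit 3) (k (nat_lit 0x99264))) (v (nat_lit 2) (k (nat_lit 0x1318e0))))))) (v (nat_lit 1) (a (a (a (v (nat_lit 9) (k (nat_lit 0x25c6c8))) (v (nat_lit 8) (k (nat_lit 0x98dc0)))) (a (v (nat_lit 7) (k (nat_lit 0x131550))) (v (nat_lit 6) (k (nat_lit 0x98dc0))))) (a (a (v (nat_lit 5) (k (nat_lit 0x98dc0))) (v (nat_lit 4) (k (nat_lit 0x131550)))) (a (v (nat_lit 3) (k (nat_lit 0x98dc0))) (a (v (nat_lit 2) (k (nat_lit 0x131a00))) (v (nat_lit 1) (k (nat_lit 0x2634f0))))))))))))) (u (nat_lit 1) (a (a (u (nat_lit 9) (v (nat_lit 9) (k (nat_lit 0x260b08))))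 (a (v (nat_lit 5) (u (nat_lit 6) (k (nat_lit 0x9c27c)))) (u (nat_lit 5) (v (nat_lit 6) (k (nat_lit 0x9c27c)))))) (a (a (t (nat_lit 4) (nat_lit 7) (nat_lit 9) (a (u (nat_lit 7) (k (nat_lit 0xe37366c))) (u (nat_lit 4) (k (nat_lit 0xe37366c))))) (v (nat_lit 3) (u (nat_lit 8) (k (nat_lit 0x9c27c))))) (a (u (nat_lit 3) (v (nat_lit 8) (k (nat_lit 0x9c27c)))) (v (nat_lit 1) (a (v (nat_lit 9) (k (nat_lit 0x25c7b8))) (v (nat_lit 1) (k (nat_lit 0x263598)))))))))))))))) (a (v (nat_lit 0) (a (a (a (a (u (nat_lit 9) (v (nat_lit 9) (v (nat_lit 9) (k (nat_lit 0x2631d8))))) (v (nat_lit 8) (u (nat_lit 9) (v (nat_lit 9) (k (nat_lit 0x13167c)))))) (a (u (nat_lit 8) (v (nat_lit 8) (a (v (nat_lit 9) (k (nat_lit 0x132054))) (v (nat_lit 8) (k (nat_lit 0x131a9c)))))) (a (v (nat_lit 7) (u (nat_lit 8) (a (v (nat_lit 8) (k (nat_lit 0x9ec16))) (u (nat_lit 8) (k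 (nat_lit 0x9eade)))))) (u (nat_lit 7) (a (v (nat_lit 8) (a (v (nat_lit 9) (k (nat_lit 0x98ce8))) (v (nat_lit 8) (k (nat_lit 0x98922))))) (a (v (nat_lit 7) (a (v (nat_lit 9) (k (nat_lit 0x98cdc))) (a (v (nat_lit 8) (k (nat_lit 0x98a66))) (v (nat_lit 7) (k (nat_lit 0x98ce8)))))) (u (nat_lit 7) (v (nat_lit 8) (k (nat_lit 0x98a4e)))))))))) (a (a (v (nat_lit 6) (a (u (nat_lit 8) (a (v (nat_lit 8) (k (nat_lit 0x9ec16))) (u (nat_lit 8) (k (nat_lit 0x9eade))))) (a (u (nat_lit 7) (a (v (nat_lit 9) (k (nat_lit 0x98802))) (v (nat_lit 8) (k (nat_lit 0x98c70))))) (v (nat_lit 6) (u (nat_lit 7) (k (nat_lit 0x98c04))))))) (u (nat_lit 6) (a (a (v (nat_lit 8) (a (v (nat_lit 9) (k (nat_lit 0x98ce8))) (v (nat_lit 8) (k (nat_lit 0x98922))))) (v (nat_lit 7) (a (v (nat_lit 9) (k (nat_lit 0x98802))) (a (v (nat_lit 8) (k (nat_lit 0x98c70))) (v (nat_lit 7) (k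 (nat_lit 0x98c04))))))) (a (v (nat_lit 6) (a (v (nat_lit 9) (k (nat_lit 0x98cdc))) (a (v (nat_lit 8) (k (nat_lit 0x98a66))) (v (nat_lit 6) (k (nat_lit 0x98ce8)))))) (u (nat_lit 6) (v (nat_lit 8) (k (nat_lit 0x98a4e)))))))) (a (v (nat_lit 5) (a (a (u (nat_lit 9) (v (nat_lit 9) (k (nat_lit 0x13167c)))) (u (nat_lit 8) (v (nat_lit 9) (k (nat_lit 0x130f08))))) (a (v (nat_lit 7) (a (u (nat_lit 9) (k (nat_lit 0x997b0))) (u (nat_lit 8) (k (nat_lit 0x98cac))))) (v (nat_lit 6) (a (u (nat_lit 9) (k (nat_lit 0x997b0))) (u (nat_lit 8) (k (nat_lit 0x98cac)))))))) (a (u (nat_lit 5) (a (v (nat_lit 8) (v (nat_lit 9) (k (nat_lit 0x130f08)))) (v (nat_lit 5) (a (a (v (nat_lit 9) (k (nat_lit 0x132054))) (v (nat_lit 7) (k (nat_lit 0x99324)))) (a (v (nat_lit 6) (k (nat_lit 0x99324))) (v (nat_lit 5) (k (nat_lit 0x131a9c)))))))) (t (nat_lit 5) (nat_lit 8) (nat_lit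 9) (a (a (u (nat_lit 8) (u (nat_lit 9) (k (nat_lit 0x1327b0)))) (u (nat_lit 7) (a (u (nat_lit 9) (k (nat_lit 0x98f1c))) (v (nat_lit 7) (k (nat_lit 0x4a4dd4c)))))) (a (u (nat_lit 6) (a (u (nat_lit 9) (k (nat_lit 0x98f1c))) (v (nat_lit 6) (k (nat_lit 0x4a4dd4c))))) (u (nat_lit 5) (u (nat_lit 9) (k (nat_lit 0x1327b0))))))))))) (a (a (a (v (nat_lit 4) (a (a (v (nat_lit 8) (u (nat_lit 9) (k (nat_lit 0x997b0)))) (a (u (nat_lit 8) (v (nat_lit 8) (k (nat_lit 0x99324)))) (v (nat_lit 7) (u (nat_lit 9) (k (nat_lit 0x131e38)))))) (a (a (u (nat_lit 7) (a (v (nat_lit 9) (k (nat_lit 0x9978c))) (a (v (nat_lit 8) (k (nat_lit 0x98d8a))) (v (nat_lit 7) (k (nat_lit 0x98790)))))) (v (nat_lit 6) (a (u (nat_lit 9) (k (nat_lit 0x133410))) (u (nat_lit 7) (k (nat_lit 0x98ed4)))))) (a (u (nat_lit 6) (a (v (nat_lit 8) (k (nat_lit 0x93f7e))) (v (nat_lit 6) (k (nat_lit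 0x98d6c))))) (u (nat_lit 5) (a (v (nat_lit 8) (k (nat_lit 0x98cac))) (a (v (nat_lit 5) (k (nat_lit 0x9ec16))) (u (nat_lit 5) (k (nat_lit 0x9eade)))))))))) (u (nat_lit 4) (a (a (v (nat_lit 7) (v (nat_lit 9) (k (nat_lit 0x9978c)))) (a (u (nat_lit 6) (u (nat_lit 9) (k (nat_lit 0x12fff0)))) (v (nat_lit 5) (a (a (v (nat_lit 9) (k (nat_lit 0x98ce8))) (v (nat_lit 7) (k (nat_lit 0x98d8a)))) (a (v (nat_lit 6) (k (nat_lit 0x93f7e))) (v (nat_lit 5) (k (nat_lit 0x98922)))))))) (a (t (nat_lit 5) (nat_lit 8) (nat_lit 9) (u (nat_lit 9) (k (nat_lit 0x98f1c)))) (a (v (nat_lit 4) (a (a (v (nat_lit 9) (k (nat_lit 0x98cdc))) (a (v (nat_lit 7) (k (nat_lit 0x98790))) (v (nat_lit 6) (k (nat_lit 0x98d6c))))) (a (v (nat_lit 5) (k (nat_lit 0x98a66))) (a (t (nat_lit 5) (nat_lit 8) (nat_lit 9) (k (nat_lit 0x4a4dd4c))) (v (nat_lit 4) (k (nat_lit 0x98ce8)))))))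 (u (nat_lit 4) (v (nat_lit 5) (k (nat_lit 0x98a4e))))))))) (a (t (nat_lit 4) (nat_lit 7) (nat_lit 9) (a (u (nat_lit 5) (u (nat_lit 7) (k (nat_lit 0x5bd8fd4)))) (u (nat_lit 4) (a (u (nat_lit 8) (k (nat_lit 0x5bd8fd4))) (a (u (nat_lit 7) (k (nat_lit 0x133584))) (u (nat_lit 6) (k (nat_lit 0x99c7e)))))))) (a (v (nat_lit 3) (a (a (a (v (nat_lit 8) (u (nat_lit 9) (k (nat_lit 0x997b0)))) (u (nat_lit 8) (v (nat_lit 8) (k (nat_lit 0x99324))))) (a (v (nat_lit 7) (u (nat_lit 9) (k (nat_lit 0x133410)))) (u (nat_lit 7) (a (v (nat_lit 8) (k (nat_lit 0x93f7e))) (v (nat_lit 7) (k (nat_lit 0x98d6c))))))) (a (a (v (nat_lit 6) (u (nat_lit 9) (k (nat_lit 0x131e38)))) (u (nat_lit 6) (a (a (v (nat_lit 9) (k (nat_lit 0x9978c))) (v (nat_lit 8) (k (nat_lit 0x98d8a)))) (a (v (nat_lit 7) (k (nat_lit 0x98ed4))) (v (nat_lit 6) (k (nat_lit 0x98790))))))) (a (u (nat_lit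 5) (a (v (nat_lit 8) (k (nat_lit 0x98cac))) (a (v (nat_lit 5) (k (nat_lit 0x9ec16))) (u (nat_lit 5) (k (nat_lit 0x9eade)))))) (a (u (nat_lit 4) (a (v (nat_lit 9) (k (nat_lit 0x98802))) (a (v (nat_lit 7) (k (nat_lit 0x98ed4))) (v (nat_lit 5) (k (nat_lit 0x98c70)))))) (v (nat_lit 3) (u (nat_lit 4) (k (nat_lit 0x98c04))))))))) (u (nat_lit 3) (a (a (a (u (nat_lit 7) (u (nat_lit 9) (k (nat_lit 0x12fff0)))) (v (nat_lit 6) (v (nat_lit 9) (k (nat_lit 0x9978c))))) (a (v (nat_lit 5) (a (a (v (nat_lit 9) (k (nat_lit 0x98ce8))) (v (nat_lit 7) (k (nat_lit 0x93f7e)))) (a (v (nat_lit 6) (k (nat_lit 0x98d8a))) (v (nat_lit 5) (k (nat_lit 0x98922)))))) (t (nat_lit 5) (nat_lit 8) (nat_lit 9) (u (nat_lit 9) (k (nat_lit 0x98f1c)))))) (a (a (v (nat_lit 4) (a (a (v (nat_lit 9) (k (nat_lit 0x98802))) (v (nat_lit 6) (k (nat_lit 0x98ed4)))) (a (v (nat_lit 5)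 (k (nat_lit 0x98c70))) (v (nat_lit 4) (k (nat_lit 0x98c04)))))) (t (nat_lit 4) (nat_lit 7) (nat_lit 9) (u (nat_lit 7) (k (nat_lit 0x99c7e))))) (a (v (nat_lit 3) (a (a (v (nat_lit 9) (k (nat_lit 0x98cdc))) (a (v (nat_lit 7) (k (nat_lit 0x98d6c))) (v (nat_lit 6) (k (nat_lit 0x98790))))) (a (v (nat_lit 5) (k (nat_lit 0x98a66))) (a (t (nat_lit 5) (nat_lit 8) (nat_lit 9) (k (nat_lit 0x4a4dd4c))) (v (nat_lit 3) (k (nat_lit 0x98ce8))))))) (u (nat_lit 3) (v (nat_lit 5) (k (nat_lit 0x98a4e))))))))))) (a (a (t (nat_lit 3) (nat_lit 6) (nat_lit 9) (a (u (nat_lit 5) (u (nat_lit 6) (k (nat_lit 0x5bd8fd4)))) (a (u (nat_lit 4) (u (nat_lit 6) (k (nat_lit 0x99c7e)))) (u (nat_lit 3) (a (u (nat_lit 8) (k (nat_lit 0x5bd8fd4))) (a (u (nat_lit 7) (k (nat_lit 0x99c7e))) (u (nat_lit 6) (k (nat_lit 0x133584))))))))) (a (v (nat_lit 2) (a (a (u (nat_lit 9) (v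 (nat_lit 9) (k (nat_lit 0x268230)))) (v (nat_lit 7) (u (nat_lit 8) (k (nat_lit 0x98d3c))))) (a (u (nat_lit 6) (v (nat_lit 7) (k (nat_lit 0x98d3c)))) (a (v (nat_lit 4) (u (nat_lit 5) (k (nat_lit 0x98d3c)))) (u (nat_lit 3) (v (nat_lit 4) (k (nat_lit 0x98d3c)))))))) (u (nat_lit 2) (a (a (a (u (nat_lit 9) (u (nat_lit 9) (k (nat_lit 0x12f0d8)))) (v (nat_lit 8) (a (v (nat_lit 9) (k (nat_lit 0x98bf8))) (v (nat_lit 8) (k (nat_lit 0x98dc0)))))) (a (v (nat_lit 7) (a (v (nat_lit 9) (k (nat_lit 0x98cbe))) (a (v (nat_lit 8) (k (nat_lit 0x9b4e4))) (v (nat_lit 7) (k (nat_lit 0x98cee)))))) (v (nat_lit 6) (a (v (nat_lit 8) (k (nat_lit 0x98d12))) (v (nat_lit 7) (k (nat_lit 0x9648c))))))) (a (a (v (nat_lit 5) (a (a (v (nat_lit 9) (k (nat_lit 0x98bf8))) (v (nat_lit 8) (k (nat_lit 0x12fd98)))) (a (v (nat_lit 7) (k (nat_lit 0x9c4d4))) (a (v (nat_lit 6) (k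 (nat_lit 0x98d0c))) (v (nat_lit 5) (k (nat_lit 0x98dc0))))))) (t (nat_lit 5) (nat_lit 8) (nat_lit 9) (u (nat_lit 9) (k (nat_lit 0x165e19f0))))) (a (v (nat_lit 4) (a (a (v (nat_lit 9) (k (nat_lit 0x98cbe))) (a (v (nat_lit 8) (k (nat_lit 0x9c4d4))) (v (nat_lit 7) (k (nat_lit 0x130c2c))))) (a (v (nat_lit 6) (k (nat_lit 0x95610))) (a (v (nat_lit 5) (k (nat_lit 0x9b4e4))) (v (nat_lit 4) (k (nat_lit 0x98cee))))))) (a (v (nat_lit 3) (a (a (v (nat_lit 8) (k (nat_lit 0x98d0c))) (v (nat_lit 7) (k (nat_lit 0x95610)))) (a (v (nat_lit 6) (k (nat_lit 0x133368))) (a (v (nat_lit 5) (k (nat_lit 0x98d12))) (v (nat_lit 4) (k (nat_lit 0x9648c))))))) (v (nat_lit 2) (a (a (v (nat_lit 9) (k (nat_lit 0x1323e4))) (u (nat_lit 9) (k (nat_lit 0x132798)))) (a (v (nat_lit 8) (k (nat_lit 0x99264))) (a (v (nat_lit 5) (k (nat_lit 0x99264))) (v (nat_lit 2) (k (nat_lit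 0x131a00)))))))))))))) (a (v (nat_lit 1) (a (a (u (nat_lit 9) (v (nat_lit 9) (k (nat_lit 0x268230)))) (v (nat_lit 6) (a (u (nat_lit 8) (k (nat_lit 0x98d3c))) (u (nat_lit 7) (k (nat_lit 0x98d3c)))))) (a (v (nat_lit 3) (a (u (nat_lit 5) (k (nat_lit 0x98d3c))) (u (nat_lit 4) (k (nat_lit 0x98d3c))))) (a (u (nat_lit 2) (a (a (v (nat_lit 9) (k (nat_lit 0x261ba0))) (a (v (nat_lit 8) (k (nat_lit 0x98f10))) (v (nat_lit 7) (k (nat_lit 0x98f10))))) (a (v (nat_lit 5) (k (nat_lit 0x98f10))) (a (v (nat_lit 4) (k (nat_lit 0x98f10))) (v (nat_lit 2) (k (nat_lit 0x261c90))))))) (v (nat_lit 1) (u (nat_lit 2) (k (nat_lit 0x132510)))))))) (a (u (nat_lit 1) (a (a (a (u (nat_lit 9) (u (nat_lit 9) (k (nat_lit 0x12f0d8)))) (v (nat_lit 8) (a (v (nat_lit 9) (k (nat_lit 0x98bf8))) (v (nat_lit 8) (k (nat_lit 0x98dc0)))))) (a (v (nat_lit 7) (v (nat_lit 8) (k (nat_lit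 0x98d12)))) (a (v (nat_lit 6) (a (a (v (nat_lit 9) (k (nat_lit 0x98cbe))) (v (nat_lit 8) (k (nat_lit 0x9b4e4)))) (a (v (nat_lit 7) (k (nat_lit 0x9648c))) (v (nat_lit 6) (k (nat_lit 0x98cee)))))) (v (nat_lit 5) (a (a (v (nat_lit 9) (k (nat_lit 0x98bf8))) (v (nat_lit 8) (k (nat_lit 0x12fd98)))) (a (v (nat_lit 7) (k (nat_lit 0x98d0c))) (a (v (nat_lit 6) (k (nat_lit 0x9c4d4))) (v (nat_lit 5) (k (nat_lit 0x98dc0)))))))))) (a (a (t (nat_lit 5) (nat_lit 8) (nat_lit 9) (u (nat_lit 9) (k (nat_lit 0x165e19f0)))) (v (nat_lit 4) (a (a (v (nat_lit 8) (k (nat_lit 0x98d0c))) (v (nat_lit 7) (k (nat_lit 0x133368)))) (a (v (nat_lit 6) (k (nat_lit 0x95610))) (v (nat_lit 5) (k (nat_lit 0x98d12))))))) (a (v (nat_lit 3) (a (a (v (nat_lit 9) (k (nat_lit 0x98cbe))) (a (v (nat_lit 8) (k (nat_lit 0x9c4d4))) (v (nat_lit 7) (k (nat_lit 0x95610))))) (a (a (v (nat_lit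 6) (k (nat_lit 0x130c2c))) (v (nat_lit 5) (k (nat_lit 0x9b4e4)))) (a (v (nat_lit 4) (k (nat_lit 0x9648c))) (v (nat_lit 3) (k (nat_lit 0x98cee))))))) (a (v (nat_lit 2) (a (a (v (nat_lit 9) (k (nat_lit 0x261ba0))) (a (v (nat_lit 8) (k (nat_lit 0x98f10))) (v (nat_lit 6) (k (nat_lit 0x98f10))))) (a (v (nat_lit 5) (k (nat_lit 0x98f10))) (a (v (nat_lit 3) (k (nat_lit 0x98f10))) (v (nat_lit 2) (k (nat_lit 0x132510))))))) (v (nat_lit 1) (a (a (v (nat_lit 9) (k (nat_lit 0x1323e4))) (a (u (nat_lit 9) (k (nat_lit 0x132798))) (v (nat_lit 8) (k (nat_lit 0x99264))))) (a (v (nat_lit 5) (k (nat_lit 0x99264))) (a (v (nat_lit 2) (k (nat_lit 0x261c90))) (v (nat_lit 1) (k (nat_lit 0x131a00)))))))))))) (v (nat_lit 0) (a (a (a (a (u (nat_lit 9) (v (nat_lit 9) (k (nat_lit 0x25e5d0)))) (u (nat_lit 8) (v (nat_lit 8) (k (nat_lit 0x131f4c))))) (a (v (nat_lit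 7) (u (nat_lit 8) (k (nat_lit 0x95b50)))) (u (nat_lit 7) (v (nat_lit 7) (k (nat_lit 0x98d1e)))))) (a (a (v (nat_lit 6) (a (u (nat_lit 8) (k (nat_lit 0x95b50))) (u (nat_lit 7) (k (nat_lit 0x98cf4))))) (u (nat_lit 6) (a (v (nat_lit 7) (k (nat_lit 0x98cf4))) (v (nat_lit 6) (k (nat_lit 0x98d1e)))))) (a (u (nat_lit 5) (v (nat_lit 5) (k (nat_lit 0x131f4c)))) (v (nat_lit 4) (u (nat_lit 5) (k (nat_lit 0x95b50))))))) (a (a (a (u (nat_lit 4) (v (nat_lit 4) (k (nat_lit 0x98d1e)))) (t (nat_lit 4) (nat_lit 7) (nat_lit 9) (a (u (nat_lit 7) (k (nat_lit 0x30855f6))) (u (nat_lit 4) (k (nat_lit 0x30855f6)))))) (a (v (nat_lit 3) (a (u (nat_lit 5) (k (nat_lit 0x95b50))) (u (nat_lit 4) (k (nat_lit 0x98cf4))))) (u (nat_lit 3) (a (v (nat_lit 4) (k (nat_lit 0x98cf4))) (v (nat_lit 3) (k (nat_lit 0x98d1e))))))) (a (a (t (nat_lit 3) (nat_lit 6) (nat_lit 9) (a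 (u (nat_lit 6) (k (nat_lit 0x30855f6))) (u (nat_lit 3) (k (nat_lit 0x30855f6))))) (u (nat_lit 2) (a (a (a (u (nat_lit 9) (k (nat_lit 0x131a60))) (v (nat_lit 8) (k (nat_lit 0x98d30)))) (a (v (nat_lit 7) (k (nat_lit 0x98bf8))) (v (nat_lit 6) (k (nat_lit 0x987c0))))) (a (a (v (nat_lit 5) (k (nat_lit 0x98d30))) (v (nat_lit 4) (k (nat_lit 0x98bf8)))) (a (t (nat_lit 4) (nat_lit 7) (nat_lit 9) (k (nat_lit 0x6023d0c))) (a (v (nat_lit 3) (k (nat_lit 0x987c0))) (v (nat_lit 2) (k (nat_lit 0x1318e0))))))))) (a (v (nat_lit 1) (u (nat_lit 2) (k (nat_lit 0x132510)))) (u (nat_lit 1) (a (a (a (u (nat_lit 9) (k (nat_lit 0x131a60))) (v (nat_lit 8) (k (nat_lit 0x98d30)))) (a (v (nat_lit 7) (k (nat_lit 0x987c0))) (a (v (nat_lit 6) (k (nat_lit 0x98bf8))) (v (nat_lit 5) (k (nat_lit 0x98d30)))))) (a (a (v (nat_lit 4) (k (nat_lit 0x987c0))) (v (nat_lit 3) (k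 (nat_lit 0x98bf8)))) (a (t (nat_lit 3) (nat_lit 6) (nat_lit 9) (k (nat_lit 0x6023d0c))) (a (v (nat_lit 2) (k (nat_lit 0x132510))) (v (nat_lit 1) (k (nat_lit 0x1318e0))))))))))))))))))) (a (u (nat_lit 0) (a (a (a (a (v (nat_lit 8) (v (nat_lit 8) (a (v (nat_lit 9) (k (nat_lit 0x130f68))) (v (nat_lit 8) (k (nat_lit 0x131784)))))) (v (nat_lit 7) (a (v (nat_lit 9) (v (nat_lit 9) (k (nat_lit 0x98394)))) (v (nat_lit 8) (v (nat_lit 8) (k (nat_lit 0x98f5e))))))) (a (u (nat_lit 7) (u (nat_lit 9) (u (nat_lit 9) (k (nat_lit 0x98358))))) (v (nat_lit 6) (a (a (v (nat_lit 9) (v (nat_lit 9) (k (nat_lit 0x98394)))) (v (nat_lit 8) (v (nat_lit 8) (k (nat_lit 0x98f5e))))) (a (v (nat_lit 7) (a (a (v (nat_lit 9) (k (nat_lit 0x13239c))) (v (nat_lit 8) (k (nat_lit 0x12c9d8)))) (a (u (nat_lit 8) (k (nat_lit 0x12c960))) (v (nat_lit 7) (k (nat_lit 0x98d90))))))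 (v (nat_lit 6) (v (nat_lit 7) (k (nat_lit 0x98d90))))))))) (a (a (u (nat_lit 6) (u (nat_lit 9) (u (nat_lit 9) (k (nat_lit 0x98358))))) (v (nat_lit 5) (a (a (v (nat_lit 8) (v (nat_lit 8) (k (nat_lit 0x131688)))) (a (v (nat_lit 7) (v (nat_lit 7) (k (nat_lit 0x9898e)))) (u (nat_lit 7) (v (nat_lit 9) (k (nat_lit 0x996c6)))))) (a (v (nat_lit 6) (a (v (nat_lit 7) (k (nat_lit 0x131808))) (v (nat_lit 6) (k (nat_lit 0x9898e))))) (a (u (nat_lit 6) (v (nat_lit 9) (k (nat_lit 0x996c6)))) (v (nat_lit 5) (a (a (v (nat_lit 9) (k (nat_lit 0x130f68))) (v (nat_lit 8) (k (nat_lit 0x131688)))) (a (v (nat_lit 7) (k (nat_lit 0x98730))) (a (v (nat_lit 6) (k (nat_lit 0x98730))) (v (nat_lit 5) (k (nat_lit 0x131784)))))))))))) (a (t (nat_lit 5) (nat_lit 8) (nat_lit 9) (u (nat_lit 5) (a (u (nat_lit 8) (k (nat_lit 0x264ea0))) (a (u (nat_lit 7) (k (nat_lit 0xeb3b4c2)))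 (u (nat_lit 6) (k (nat_lit 0xeb3b4c2))))))) (a (v (nat_lit 4) (a (a (v (nat_lit 9) (v (nat_lit 9) (k (nat_lit 0x98394)))) (a (v (nat_lit 8) (v (nat_lit 8) (k (nat_lit 0x98730)))) (v (nat_lit 7) (a (v (nat_lit 9) (k (nat_lit 0x1300bc))) (v (nat_lit 7) (k (nat_lit 0x992a0))))))) (a (v (nat_lit 6) (v (nat_lit 8) (k (nat_lit 0x9dba2)))) (a (v (nat_lit 5) (a (v (nat_lit 6) (k (nat_lit 0x9dba2))) (v (nat_lit 5) (k (nat_lit 0x98f5e))))) (v (nat_lit 4) (a (v (nat_lit 8) (k (nat_lit 0x9898e))) (v (nat_lit 7) (k (nat_lit 0x992a0))))))))) (u (nat_lit 4) (a (u (nat_lit 9) (u (nat_lit 9) (k (nat_lit 0x98358)))) (a (v (nat_lit 8) (v (nat_lit 9) (k (nat_lit 0x996c6)))) (t (nat_lit 5) (nat_lit 8) (nat_lit 9) (u (nat_lit 8) (k (nat_lit 0xeb3b4c2))))))))))) (a (a (a (t (nat_lit 4) (nat_lit 7) (nat_lit 9) (u (nat_lit 6) (u (nat_lit 9) (k (nat_lit 0x98da8)))))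 (v (nat_lit 3) (a (a (v (nat_lit 9) (v (nat_lit 9) (k (nat_lit 0x98394)))) (a (v (nat_lit 8) (v (nat_lit 8) (k (nat_lit 0x98730)))) (v (nat_lit 7) (v (nat_lit 8) (k (nat_lit 0x9dba2)))))) (a (a (v (nat_lit 6) (a (v (nat_lit 9) (k (nat_lit 0x1300bc))) (v (nat_lit 6) (k (nat_lit 0x992a0))))) (v (nat_lit 5) (a (v (nat_lit 7) (k (nat_lit 0x9dba2))) (v (nat_lit 5) (k (nat_lit 0x98f5e)))))) (a (v (nat_lit 4) (a (a (v (nat_lit 9) (k (nat_lit 0x13239c))) (v (nat_lit 8) (k (nat_lit 0x131808)))) (a (v (nat_lit 5) (k (nat_lit 0x12c9d8))) (a (u (nat_lit 5) (k (nat_lit 0x12c960))) (v (nat_lit 4) (k (nat_lit 0x98d90))))))) (v (nat_lit 3) (a (v (nat_lit 8) (k (nat_lit 0x9898e))) (a (v (nat_lit 6) (k (nat_lit 0x992a0))) (v (nat_lit 4) (k (nat_lit 0x98d90))))))))))) (a (u (nat_lit 3) (a (a (u (nat_lit 9) (u (nat_lit 9) (k (nat_lit 0x98358)))) (v (nat_lit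 8) (v (nat_lit 9) (k (nat_lit 0x996c6))))) (a (t (nat_lit 5) (nat_lit 8) (nat_lit 9) (u (nat_lit 8) (k (nat_lit 0xeb3b4c2)))) (t (nat_lit 4) (nat_lit 7) (nat_lit 9) (u (nat_lit 9) (k (nat_lit 0x98da8))))))) (t (nat_lit 3) (nat_lit 6) (nat_lit 9) (a (u (nat_lit 7) (u (nat_lit 9) (k (nat_lit 0x98da8)))) (u (nat_lit 4) (u (nat_lit 9) (k (nat_lit 0x98da8)))))))) (a (a (v (nat_lit 2) (a (a (a (u (nat_lit 9) (u (nat_lit 9) (k (nat_lit 0x12f0d8)))) (v (nat_lit 7) (a (v (nat_lit 9) (k (nat_lit 0x98cbe))) (a (v (nat_lit 8) (k (nat_lit 0x9648c))) (v (nat_lit 7) (k (nat_lit 0x98cee))))))) (a (v (nat_lit 6) (a (a (v (nat_lit 9) (k (nat_lit 0x98bf8))) (v (nat_lit 8) (k (nat_lit 0x98d12)))) (a (v (nat_lit 7) (k (nat_lit 0x9b4e4))) (v (nat_lit 6) (k (nat_lit 0x98dc0)))))) (v (nat_lit 5) (a (v (nat_lit 8) (k (nat_lit 0x133368))) (a (v (nat_lit 7) (k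 (nat_lit 0x95610))) (v (nat_lit 6) (k (nat_lit 0x98d0c)))))))) (a (a (v (nat_lit 4) (a (a (v (nat_lit 9) (k (nat_lit 0x98cbe))) (a (v (nat_lit 8) (k (nat_lit 0x95610))) (v (nat_lit 7) (k (nat_lit 0x130c2c))))) (a (v (nat_lit 6) (k (nat_lit 0x9c4d4))) (a (v (nat_lit 5) (k (nat_lit 0x9648c))) (v (nat_lit 4) (k (nat_lit 0x98cee))))))) (v (nat_lit 3) (a (a (v (nat_lit 9) (k (nat_lit 0x98bf8))) (a (v (nat_lit 8) (k (nat_lit 0x98d0c))) (v (nat_lit 7) (k (nat_lit 0x9c4d4))))) (a (a (v (nat_lit 6) (k (nat_lit 0x12fd98))) (v (nat_lit 5) (k (nat_lit 0x98d12)))) (a (v (nat_lit 4) (k (nat_lit 0x9b4e4))) (v (nat_lit 3) (k (nat_lit 0x98dc0)))))))) (a (t (nat_lit 3) (nat_lit 6) (nat_lit 9) (u (nat_lit 9) (k (nat_lit 0x165e19f0)))) (v (nat_lit 2) (a (a (a (u (nat_lit 9) (k (nat_lit 0x131a60))) (v (nat_lit 8) (k (nat_lit 0x987c0)))) (a (v (nat_lit 7)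 (k (nat_lit 0x98bf8))) (v (nat_lit 6) (k (nat_lit 0x98d30))))) (a (a (v (nat_lit 5) (k (nat_lit 0x987c0))) (v (nat_lit 4) (k (nat_lit 0x98bf8)))) (a (t (nat_lit 4) (nat_lit 7) (nat_lit 9) (k (nat_lit 0x6023d0c))) (v (nat_lit 3) (k (nat_lit 0x98d30))))))))))) (v (nat_lit 1) (a (a (a (u (nat_lit 9) (u (nat_lit 9) (k (nat_lit 0x12f0d8)))) (v (nat_lit 7) (a (v (nat_lit 9) (k (nat_lit 0x98bf8))) (a (v (nat_lit 8) (k (nat_lit 0x98d12))) (v (nat_lit 7) (k (nat_lit 0x98dc0))))))) (a (v (nat_lit 6) (a (a (v (nat_lit 9) (k (nat_lit 0x98cbe))) (v (nat_lit 8) (k (nat_lit 0x9648c)))) (a (v (nat_lit 7) (k (nat_lit 0x9b4e4))) (v (nat_lit 6) (k (nat_lit 0x98cee)))))) (v (nat_lit 5) (a (v (nat_lit 8) (k (nat_lit 0x133368))) (a (v (nat_lit 7) (k (nat_lit 0x98d0c))) (v (nat_lit 6) (k (nat_lit 0x95610)))))))) (a (a (v (nat_lit 4) (a (a (v (nat_lit 9) (k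 (nat_lit 0x98bf8))) (a (v (nat_lit 8) (k (nat_lit 0x98d0c))) (v (nat_lit 7) (k (nat_lit 0x12fd98))))) (a (v (nat_lit 6) (k (nat_lit 0x9c4d4))) (a (v (nat_lit 5) (k (nat_lit 0x98d12))) (v (nat_lit 4) (k (nat_lit 0x98dc0))))))) (t (nat_lit 4) (nat_lit 7) (nat_lit 9) (u (nat_lit 9) (k (nat_lit 0x165e19f0))))) (a (v (nat_lit 3) (a (a (v (nat_lit 9) (k (nat_lit 0x98cbe))) (a (v (nat_lit 8) (k (nat_lit 0x95610))) (v (nat_lit 7) (k (nat_lit 0x9c4d4))))) (a (a (v (nat_lit 6) (k (nat_lit 0x130c2c))) (v (nat_lit 5) (k (nat_lit 0x9648c)))) (a (v (nat_lit 4) (k (nat_lit 0x9b4e4))) (v (nat_lit 3) (k (nat_lit 0x98cee))))))) (a (v (nat_lit 2) (a (a (v (nat_lit 9) (k (nat_lit 0x261ba0))) (a (v (nat_lit 7) (k (nat_lit 0x98f10))) (v (nat_lit 6) (k (nat_lit 0x98f10))))) (a (v (nat_lit 4) (k (nat_lit 0x98f10))) (a (v (nat_lit 3) (k (nat_lit 0x98f10)))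 (v (nat_lit 2) (k (nat_lit 0x132510))))))) (v (nat_lit 1) (a (a (a (u (nat_lit 9) (k (nat_lit 0x131a60))) (v (nat_lit 8) (k (nat_lit 0x987c0)))) (a (v (nat_lit 7) (k (nat_lit 0x98d30))) (v (nat_lit 6) (k (nat_lit 0x98bf8))))) (a (a (v (nat_lit 5) (k (nat_lit 0x987c0))) (v (nat_lit 4) (k (nat_lit 0x98d30)))) (a (v (nat_lit 3) (k (nat_lit 0x98bf8))) (a (t (nat_lit 3) (nat_lit 6) (nat_lit 9) (k (nat_lit 0x6023d0c))) (v (nat_lit 2) (k (nat_lit 0x132510)))))))))))))) (a (u (nat_lit 1) (u (nat_lit 2) (v (nat_lit 9) (k (nat_lit 0x72d200))))) (a (v (nat_lit 0) (a (a (a (v (nat_lit 9) (v (nat_lit 9) (k (nat_lit 0x26a5e8)))) (v (nat_lit 8) (a (v (nat_lit 9) (k (nat_lit 0x1319dc))) (v (nat_lit 8) (k (nat_lit 0x1314a8)))))) (a (v (nat_lit 7) (a (v (nat_lit 9) (k (nat_lit 0x98cee))) (v (nat_lit 8) (k (nat_lit 0x9bec8))))) (a (v (nat_lit 6) (a (v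 (nat_lit 9) (k (nat_lit 0x98cee))) (v (nat_lit 8) (k (nat_lit 0x9bec8))))) (v (nat_lit 5) (a (a (v (nat_lit 9) (k (nat_lit 0x1319dc))) (v (nat_lit 8) (k (nat_lit 0x263a18)))) (a (v (nat_lit 7) (k (nat_lit 0x98cf4))) (a (v (nat_lit 6) (k (nat_lit 0x98cf4))) (v (nat_lit 5) (k (nat_lit 0x1314a8)))))))))) (a (a (v (nat_lit 4) (a (a (v (nat_lit 9) (k (nat_lit 0x98cee))) (v (nat_lit 8) (k (nat_lit 0x98cf4)))) (a (v (nat_lit 7) (k (nat_lit 0x1319f4))) (a (v (nat_lit 6) (k (nat_lit 0x12afc8))) (v (nat_lit 5) (k (nat_lit 0x9bec8))))))) (v (nat_lit 3) (a (a (v (nat_lit 9) (k (nat_lit 0x98cee))) (v (nat_lit 8) (k (nat_lit 0x98cf4)))) (a (v (nat_lit 7) (k (nat_lit 0x12afc8))) (a (v (nat_lit 6) (k (nat_lit 0x1319f4))) (v (nat_lit 5) (k (nat_lit 0x9bec8)))))))) (a (v (nat_lit 2) (a (a (v (nat_lit 9) (k (nat_lit 0x1323e4))) (u (nat_lit 9) (k (nat_lit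 0x132798)))) (a (v (nat_lit 6) (k (nat_lit 0x99264))) (a (v (nat_lit 3) (k (nat_lit 0x99264))) (v (nat_lit 2) (k (nat_lit 0x1318e0))))))) (a (v (nat_lit 1) (a (a (v (nat_lit 9) (k (nat_lit 0x1323e4))) (a (u (nat_lit 9) (k (nat_lit 0x132798))) (v (nat_lit 7) (k (nat_lit 0x99264))))) (a (v (nat_lit 4) (k (nat_lit 0x99264))) (a (v (nat_lit 2) (k (nat_lit 0x261c90))) (v (nat_lit 1) (k (nat_lit 0x1318e0))))))) (v (nat_lit 0) (a (a (a (v (nat_lit 9) (k (nat_lit 0x25c6c8))) (v (nat_lit 8) (k (nat_lit 0x131550)))) (a (v (nat_lit 7) (k (nat_lit 0x98dc0))) (a (v (nat_lit 6) (k (nat_lit 0x98dc0))) (v (nat_lit 5) (k (nat_lit 0x131550)))))) (a (a (v (nat_lit 4) (k (nat_lit 0x98dc0))) (v (nat_lit 3) (k (nat_lit 0x98dc0)))) (a (v (nat_lit 2) (k (nat_lit 0x131a00))) (a (v (nat_lit 1) (k (nat_lit 0x131a00))) (v (nat_lit 0) (k (nat_lit 0x2634f0)))))))))))))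 (u (nat_lit 0) (a (a (u (nat_lit 9) (v (nat_lit 9) (k (nat_lit 0x260b08)))) (a (t (nat_lit 5) (nat_lit 8) (nat_lit 9) (a (u (nat_lit 8) (k (nat_lit 0xe37366c))) (u (nat_lit 5) (k (nat_lit 0xe37366c))))) (v (nat_lit 4) (u (nat_lit 6) (k (nat_lit 0x9c27c)))))) (a (a (u (nat_lit 4) (v (nat_lit 6) (k (nat_lit 0x9c27c)))) (v (nat_lit 3) (u (nat_lit 7) (k (nat_lit 0x9c27c))))) (a (u (nat_lit 3) (v (nat_lit 7) (k (nat_lit 0x9c27c)))) (v (nat_lit 0) (a (v (nat_lit 9) (k (nat_lit 0x25c7b8))) (v (nat_lit 0) (k (nat_lit 0x263598))))))))))))))) (t (nat_lit 0) (nat_lit 1) (nat_lit 2) (a (a (a (t (nat_lit 5) (nat_lit 8) (nat_lit 9) (a (a (u (nat_lit 9) (u (nat_lit 9) (k (nat_lit 0x7afc628)))) (u (nat_lit 8) (v (nat_lit 9) (k (nat_lit 0x131e74))))) (a (u (nat_lit 7) (v (nat_lit 7) (k (nat_lit 0x2520750)))) (a (u (nat_lit 6) (v (nat_lit 6) (k (nat_lit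 0x2520750)))) (u (nat_lit 5) (a (a (v (nat_lit 9) (k (nat_lit 0x131e74))) (u (nat_lit 8) (k (nat_lit 0xf42e0e8)))) (a (u (nat_lit 7) (k (nat_lit 0x99c7e))) (u (nat_lit 6) (k (nat_lit 0x99c7e)))))))))) (u (nat_lit 4) (a (t (nat_lit 5) (nat_lit 8) (nat_lit 9) (a (u (nat_lit 8) (k (nat_lit 0x99c7e))) (u (nat_lit 7) (k (nat_lit 0x131fb8))))) (v (nat_lit 4) (t (nat_lit 5) (nat_lit 8) (nat_lit 9) (k (nat_lit 0x2520750))))))) (a (t (nat_lit 4) (nat_lit 7) (nat_lit 9) (a (a (u (nat_lit 9) (u (nat_lit 9) (k (nat_lit 0x7afc628)))) (a (u (nat_lit 8) (v (nat_lit 8) (k (nat_lit 0x2520750)))) (u (nat_lit 7) (v (nat_lit 9) (k (nat_lit 0x131e74)))))) (a (u (nat_lit 6) (v (nat_lit 6) (k (nat_lit 0x2520750)))) (a (u (nat_lit 5) (a (u (nat_lit 8) (k (nat_lit 0x131fb8))) (a (u (nat_lit 7) (k (nat_lit 0x99c7e))) (v (nat_lit 5) (k (nat_lit 0x2520750))))))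 (u (nat_lit 4) (a (a (v (nat_lit 9) (k (nat_lit 0x131e74))) (u (nat_lit 8) (k (nat_lit 0x99c7e)))) (a (u (nat_lit 7) (k (nat_lit 0xf42e0e8))) (u (nat_lit 6) (k (nat_lit 0x99c7e)))))))))) (a (u (nat_lit 3) (a (t (nat_lit 5) (nat_lit 8) (nat_lit 9) (a (u (nat_lit 8) (k (nat_lit 0x99c7e))) (u (nat_lit 6) (k (nat_lit 0x131fb8))))) (a (t (nat_lit 4) (nat_lit 7) (nat_lit 9) (a (u (nat_lit 7) (k (nat_lit 0x99c7e))) (u (nat_lit 6) (k (nat_lit 0x131fb8))))) (v (nat_lit 3) (a (t (nat_lit 5) (nat_lit 8) (nat_lit 9) (k (nat_lit 0x2520750))) (t (nat_lit 4) (nat_lit 7) (nat_lit 9) (k (nat_lit 0x2520750)))))))) (t (nat_lit 3) (nat_lit 6) (nat_lit 9) (a (a (u (nat_lit 9) (u (nat_lit 9) (k (nat_lit 0x7afc628)))) (a (u (nat_lit 8) (v (nat_lit 8) (k (nat_lit 0x2520750)))) (u (nat_lit 7) (v (nat_lit 7) (k (nat_lit 0x2520750)))))) (a (a (u (nat_lit 6) (v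 (nat_lit 9) (k (nat_lit 0x131e74)))) (u (nat_lit 5) (a (u (nat_lit 8) (k (nat_lit 0x131fb8))) (a (u (nat_lit 6) (k (nat_lit 0x99c7e))) (v (nat_lit 5) (k (nat_lit 0x2520750))))))) (a (u (nat_lit 4) (a (u (nat_lit 7) (k (nat_lit 0x131fb8))) (a (u (nat_lit 6) (k (nat_lit 0x99c7e))) (v (nat_lit 4) (k (nat_lit 0x2520750)))))) (u (nat_lit 3) (a (a (v (nat_lit 9) (k (nat_lit 0x131e74))) (u (nat_lit 8) (k (nat_lit 0x99c7e)))) (a (u (nat_lit 7) (k (nat_lit 0x99c7e))) (u (nat_lit 6) (k (nat_lit 0xf42e0e8))))))))))))) (a (a (v (nat_lit 2) (t (nat_lit 3) (nat_lit 6) (nat_lit 9) (a (a (u (nat_lit 8) (k (nat_lit 0x98de4))) (u (nat_lit 7) (k (nat_lit 0x98de4)))) (a (u (nat_lit 5) (k (nat_lit 0x98de4))) (u (nat_lit 4) (k (nat_lit 0x98de4))))))) (a (u (nat_lit 2) (a (a (t (nat_lit 5) (nat_lit 8) (nat_lit 9) (v (nat_lit 9) (k (nat_lit 0x131cb8)))) (t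 (nat_lit 4) (nat_lit 7) (nat_lit 9) (a (v (nat_lit 9) (k (nat_lit 0x131cb8))) (t (nat_lit 5) (nat_lit 8) (nat_lit 9) (k (nat_lit 0x263d00)))))) (a (t (nat_lit 3) (nat_lit 6) (nat_lit 9) (a (t (nat_lit 5) (nat_lit 8) (nat_lit 9) (k (nat_lit 0x131f70))) (t (nat_lit 4) (nat_lit 7) (nat_lit 9) (k (nat_lit 0x131f70))))) (u (nat_lit 2) (u (nat_lit 2) (k (nat_lit 0x33a9df88))))))) (v (nat_lit 1) (a (t (nat_lit 4) (nat_lit 7) (nat_lit 9) (a (u (nat_lit 8) (k (nat_lit 0x98de4))) (a (u (nat_lit 6) (k (nat_lit 0x98de4))) (u (nat_lit 5) (k (nat_lit 0x98de4)))))) (a (u (nat_lit 3) (t (nat_lit 4) (nat_lit 7) (nat_lit 9) (k (nat_lit 0x98de4)))) (u (nat_lit 2) (t (nat_lit 4) (nat_lit 7) (nat_lit 9) (k (nat_lit 0x131d54))))))))) (a (u (nat_lit 1) (a (a (t (nat_lit 5) (nat_lit 8) (nat_lit 9) (v (nat_lit 9) (k (nat_lit 0x131cb8)))) (a (t (nat_lit 4) (nat_lit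 7) (nat_lit 9) (t (nat_lit 5) (nat_lit 8) (nat_lit 9) (k (nat_lit 0x131f70)))) (t (nat_lit 3) (nat_lit 6) (nat_lit 9) (a (v (nat_lit 9) (k (nat_lit 0x131cb8))) (a (t (nat_lit 5) (nat_lit 8) (nat_lit 9) (k (nat_lit 0x263d00))) (t (nat_lit 4) (nat_lit 7) (nat_lit 9) (k (nat_lit 0x131f70)))))))) (a (v (nat_lit 2) (t (nat_lit 3) (nat_lit 6) (nat_lit 9) (k (nat_lit 0x131d54)))) (a (u (nat_lit 2) (a (v (nat_lit 9) (k (nat_lit 0x264018))) (u (nat_lit 2) (k (nat_lit 0x4a9b9c8))))) (u (nat_lit 1) (a (u (nat_lit 2) (k (nat_lit 0x4a9b9c8))) (u (nat_lit 1) (k (nat_lit 0x33a9df88))))))))) (a (v (nat_lit 0) (a (a (t (nat_lit 5) (nat_lit 8) (nat_lit 9) (a (u (nat_lit 7) (k (nat_lit 0x98de4))) (u (nat_lit 6) (k (nat_lit 0x98de4))))) (u (nat_lit 4) (t (nat_lit 5) (nat_lit 8) (nat_lit 9) (k (nat_lit 0x98de4))))) (a (u (nat_lit 3) (t (nat_lit 5) (nat_lit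 8) (nat_lit 9) (k (nat_lit 0x98de4)))) (a (u (nat_lit 2) (t (nat_lit 5) (nat_lit 8) (nat_lit 9) (k (nat_lit 0x131d54)))) (u (nat_lit 1) (t (nat_lit 5) (nat_lit 8) (nat_lit 9) (k (nat_lit 0x131d54)))))))) (u (nat_lit 0) (a (a (t (nat_lit 4) (nat_lit 7) (nat_lit 9) (a (v (nat_lit 9) (k (nat_lit 0x131cb8))) (t (nat_lit 5) (nat_lit 8) (nat_lit 9) (k (nat_lit 0x131f70))))) (a (t (nat_lit 3) (nat_lit 6) (nat_lit 9) (a (v (nat_lit 9) (k (nat_lit 0x131cb8))) (a (t (nat_lit 5) (nat_lit 8) (nat_lit 9) (k (nat_lit 0x131f70))) (t (nat_lit 4) (nat_lit 7) (nat_lit 9) (k (nat_lit 0x263d00)))))) (v (nat_lit 2) (t (nat_lit 3) (nat_lit 6) (nat_lit 9) (k (nat_lit 0x131d54)))))) (a (a (u (nat_lit 2) (a (v (nat_lit 9) (k (nat_lit 0x264018))) (u (nat_lit 2) (k (nat_lit 0x4a9b9c8))))) (v (nat_lit 1) (t (nat_lit 4) (nat_lit 7) (nat_lit 9) (k (nat_lit 0x131d54)))))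 (a (u (nat_lit 1) (a (v (nat_lit 9) (k (nat_lit 0x264018))) (u (nat_lit 1) (k (nat_lit 0x4a9b9c8))))) (u (nat_lit 0) (a (u (nat_lit 2) (k (nat_lit 0x4a9b9c8))) (a (u (nat_lit 1) (k (nat_lit 0x4a9b9c8))) (u (nat_lit 0) (k (nat_lit 0x33a9df88))))))))))))))))))))

open Fl.Tr in
/-- the table -/
noncomputable def T : Fl.Tr := (c (c (c (c (c (c (c (c (c (c (m (nat_lit 0x1792fd8b0)) (c (p (nat_lit 0x97aebde0)) (c (p (nat_lit 0x35783ad8)) (c (p (nat_lit 0x1312188)) (c (m (nat_lit 0xc202920)) e))))) (c (c (p (nat_lit 0x7b87e310)) (c (m (nat_lit 0x282da1cc)) (c (m (nat_lit 0x754fa58)) (c (m (nat_lit 0x3e48670)) e)))) (c (c (m (nat_lit 0x18a74fd8)) (c (m (nat_lit 0x7d711b8)) (c (p (nat_lit 0x435c6b4)) e))) (c (c (m (nat_lit 0x40f96a4)) (c (p (nat_lit 0x448e5d0)) e)) (c (c (m (nat_lit 0x263628)) e) e))))) (c (c (c (p (nat_lit 0x7b87e310)) (c (m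 (nat_lit 0x282da1cc)) (c (m (nat_lit 0x754fa58)) (c (m (nat_lit 0x3e48670)) e)))) (c (c (m (nat_lit 0x22a4d3b0)) (c (p (nat_lit 0x10bd344)) (c (m (nat_lit 0x264924)) e))) (c (c (p (nat_lit 0x2a80fb8)) (c (m (nat_lit 0x2fc94c)) e)) (c (c (m (nat_lit 0x98cdc)) e) e)))) (c (c (c (m (nat_lit 0x18a74fd8)) (c (m (nat_lit 0x7d711b8)) (c (p (nat_lit 0x435c6b4)) e))) (c (c (p (nat_lit 0x2a80fb8)) (c (m (nat_lit 0x2fc94c)) e)) (c (c (m (nat_lit 0x131d3c)) e) e))) (c (c (c (m (nat_lit 0x40f96a4)) (c (p (nat_lit 0x448e5d0)) e)) (c (c (m (nat_lit 0x98cdc)) e) e)) (c (c (c (m (nat_lit 0x263628)) e) e) e))))) (c (c (c (c (p (nat_lit 0x7b87e310)) (c (m (nat_lit 0x282da1cc)) (c (m (nat_lit 0x754fa58)) (c (m (nat_lit 0x3e48670)) e)))) (c (c (m (nat_lit 0x22a4d3b0)) (c (p (nat_lit 0x10bd344)) (c (m (nat_lit 0x264924)) e))) (c (c (p (nat_lit 0x2a80fb8))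 (c (m (nat_lit 0x2fc94c)) e)) (c (c (m (nat_lit 0x98cdc)) e) e)))) (c (c (c (m (nat_lit 0x22a4d3b0)) (c (p (nat_lit 0x10bd344)) (c (m (nat_lit 0x264924)) e))) (c (c (p (nat_lit 0xac7a48)) (c (m (nat_lit 0xac69b0)) e)) (c (c (m (nat_lit 0x3967f8)) e) e))) (c (c (c (p (nat_lit 0x2a80fb8)) (c (m (nat_lit 0x2fc94c)) e)) (c (c (m (nat_lit 0x3967f8)) e) e)) (c (c (c (m (nat_lit 0x98cdc)) e) e) e)))) (c (c (c (c (m (nat_lit 0x18a74fd8)) (c (m (nat_lit 0x7d711b8)) (c (p (nat_lit 0x435c6b4)) e))) (c (c (p (nat_lit 0x2a80fb8)) (c (m (nat_lit 0x2fc94c)) e)) (c (c (m (nat_lit 0x131d3c)) e) e))) (c (c (c (p (nat_lit 0x2a80fb8)) (c (m (nat_lit 0x2fc94c)) e)) (c (c (m (nat_lit 0x3967f8)) e) e)) (c (c (c (m (nat_lit 0x131d3c)) e) e) e))) (c (c (c (c (m (nat_lit 0x40f96a4)) (c (p (nat_lit 0x448e5d0)) e)) (c (c (m (nat_lit 0x98cdc)) e) e)) (c (c (c (m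 (nat_lit 0x98cdc)) e) e) e)) (c (c (c (c (m (nat_lit 0x263628)) e) e) e) e))))) (c (c (c (c (c (p (nat_lit 0x7b87e310)) (c (m (nat_lit 0x282da1cc)) (c (m (nat_lit 0x754fa58)) (c (m (nat_lit 0x3e48670)) e)))) (c (c (m (nat_lit 0x21556f80)) (c (m (nat_lit 0x173bc338)) (c (m (nat_lit 0x4c6608)) e))) (c (c (m (nat_lit 0x128032b0)) (c (p (nat_lit 0x435cc30)) e)) (c (c (m (nat_lit 0x395244)) e) e)))) (c (c (c (m (nat_lit 0x4e8a2310)) (c (p (nat_lit 0x2c454480)) (c (p (nat_lit 0xc0)) e))) (c (c (p (nat_lit 0x1d61ae0c)) (c (m (nat_lit 0x7522614)) e)) (c (c (m (nat_lit 0x98d54)) e) e))) (c (c (c (p (nat_lit 0x18b75c58)) (c (m (nat_lit 0x2fc8e0)) e)) (c (c (m (nat_lit 0x75bb638)) e) e)) (c (c (c (m (nat_lit 0x98754)) e) e) e)))) (c (c (c (c (m (nat_lit 0x4e8a2310)) (c (p (nat_lit 0x2c454480)) (c (p (nat_lit 0xc0)) e))) (c (c (p (nat_lit 0x1d61ae0c))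 (c (m (nat_lit 0x7522614)) e)) (c (c (m (nat_lit 0x98d54)) e) e))) (c (c (c (p (nat_lit 0xac2750)) (c (m (nat_lit 0x5fad08)) e)) (c (c (m (nat_lit 0x4c93e0)) e) e)) (c (c (c (m (nat_lit 0x1cacd0)) e) e) e))) (c (c (c (c (p (nat_lit 0x18b75c58)) (c (m (nat_lit 0x2fc8e0)) e)) (c (c (m (nat_lit 0x75bb638)) e) e)) (c (c (c (m (nat_lit 0x1cacd0)) e) e) e)) (c (c (c (c (m (nat_lit 0x98754)) e) e) e) e)))) (c (c (c (c (c (m (nat_lit 0x18a74fd8)) (c (m (nat_lit 0x7d711b8)) (c (p (nat_lit 0x435c6b4)) e))) (c (c (m (nat_lit 0x128032b0)) (c (p (nat_lit 0x435cc30)) e)) (c (c (m (nat_lit 0x4c6e00)) e) e))) (c (c (c (p (nat_lit 0x18b75c58)) (c (m (nat_lit 0x2fc8e0)) e)) (c (c (m (nat_lit 0x98e5c)) e) e)) (c (c (c (m (nat_lit 0x2638b0)) e) e) e))) (c (c (c (c (p (nat_lit 0x18b75c58)) (c (m (nat_lit 0x2fc8e0)) e)) (c (c (m (nat_lit 0x98e5c)) e) e))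 (c (c (c (m (nat_lit 0x396954)) e) e) e)) (c (c (c (c (m (nat_lit 0x2638b0)) e) e) e) e))) (c (c (c (c (c (m (nat_lit 0x40f96a4)) (c (p (nat_lit 0x448e5d0)) e)) (c (c (m (nat_lit 0x395244)) e) e)) (c (c (c (m (nat_lit 0x98754)) e) e) e)) (c (c (c (c (m (nat_lit 0x98754)) e) e) e) e)) (c (c (c (c (c (m (nat_lit 0x263628)) e) e) e) e) e))))) (c (c (c (c (c (c (p (nat_lit 0x7b87e310)) (c (m (nat_lit 0x282da1cc)) (c (m (nat_lit 0x754fa58)) (c (m (nat_lit 0x3e48670)) e)))) (c (c (m (nat_lit 0x4e8a2310)) (c (p (nat_lit 0x2c454480)) (c (p (nat_lit 0xc0)) e))) (c (c (p (nat_lit 0x18b75c58)) (c (m (nat_lit 0x2fc8e0)) e)) (c (c (m (nat_lit 0x98754)) e) e)))) (c (c (c (m (nat_lit 0x21556f80)) (c (m (nat_lit 0x173bc338)) (c (m (nat_lit 0x4c6608)) e))) (c (c (p (nat_lit 0x1d61ae0c)) (c (m (nat_lit 0x7522614)) e)) (c (c (m (nat_lit 0x75bb638)) e)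 e))) (c (c (c (m (nat_lit 0x128032b0)) (c (p (nat_lit 0x435cc30)) e)) (c (c (m (nat_lit 0x98d54)) e) e)) (c (c (c (m (nat_lit 0x395244)) e) e) e)))) (c (c (c (c (m (nat_lit 0x4e8a2310)) (c (p (nat_lit 0x2c454480)) (c (p (nat_lit 0xc0)) e))) (c (c (p (nat_lit 0xac2750)) (c (m (nat_lit 0x5fad08)) e)) (c (c (m (nat_lit 0x1cacd0)) e) e))) (c (c (c (p (nat_lit 0x1d61ae0c)) (c (m (nat_lit 0x7522614)) e)) (c (c (m (nat_lit 0x4c93e0)) e) e)) (c (c (c (m (nat_lit 0x98d54)) e) e) e))) (c (c (c (c (p (nat_lit 0x18b75c58)) (c (m (nat_lit 0x2fc8e0)) e)) (c (c (m (nat_lit 0x1cacd0)) e) e)) (c (c (c (m (nat_lit 0x75bb638)) e) e) e)) (c (c (c (c (m (nat_lit 0x98754)) e) e) e) e)))) (c (c (c (c (c (m (nat_lit 0x22a4d3b0)) (c (p (nat_lit 0x10bd344)) (c (m (nat_lit 0x264924)) e))) (c (c (p (nat_lit 0x1d61ae0c)) (c (m (nat_lit 0x7522614)) e)) (c (c (m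 (nat_lit 0x98e5c)) e) e))) (c (c (c (p (nat_lit 0x1d61ae0c)) (c (m (nat_lit 0x7522614)) e)) (c (c (m (nat_lit 0x1d48a4e0)) e) e)) (c (c (c (m (nat_lit 0x98e5c)) e) e) e))) (c (c (c (c (p (nat_lit 0xac2750)) (c (m (nat_lit 0x5fad08)) e)) (c (c (m (nat_lit 0x1319d0)) e) e)) (c (c (c (m (nat_lit 0x1319d0)) e) e) e)) (c (c (c (c (m (nat_lit 0x396954)) e) e) e) e))) (c (c (c (c (c (p (nat_lit 0x2a80fb8)) (c (m (nat_lit 0x2fc94c)) e)) (c (c (m (nat_lit 0x98d54)) e) e)) (c (c (c (m (nat_lit 0x75bb638)) e) e) e)) (c (c (c (c (m (nat_lit 0x1cacd0)) e) e) e) e)) (c (c (c (c (c (m (nat_lit 0x98cdc)) e) e) e) e) e)))) (c (c (c (c (c (c (m (nat_lit 0x18a74fd8)) (c (m (nat_lit 0x7d711b8)) (c (p (nat_lit 0x435c6b4)) e))) (c (c (p (nat_lit 0x18b75c58)) (c (m (nat_lit 0x2fc8e0)) e)) (c (c (m (nat_lit 0x2638b0)) e) e))) (c (c (c (m (nat_lit 0x128032b0))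 (c (p (nat_lit 0x435cc30)) e)) (c (c (m (nat_lit 0x98e5c)) e) e)) (c (c (c (m (nat_lit 0x4c6e00)) e) e) e))) (c (c (c (c (p (nat_lit 0x18b75c58)) (c (m (nat_lit 0x2fc8e0)) e)) (c (c (m (nat_lit 0x396954)) e) e)) (c (c (c (m (nat_lit 0x98e5c)) e) e) e)) (c (c (c (c (m (nat_lit 0x2638b0)) e) e) e) e))) (c (c (c (c (c (p (nat_lit 0x2a80fb8)) (c (m (nat_lit 0x2fc94c)) e)) (c (c (m (nat_lit 0x75bb638)) e) e)) (c (c (c (m (nat_lit 0x98d54)) e) e) e)) (c (c (c (c (m (nat_lit 0x1cacd0)) e) e) e) e)) (c (c (c (c (c (m (nat_lit 0x131d3c)) e) e) e) e) e))) (c (c (c (c (c (c (m (nat_lit 0x40f96a4)) (c (p (nat_lit 0x448e5d0)) e)) (c (c (m (nat_lit 0x98754)) e) e)) (c (c (c (m (nat_lit 0x395244)) e) e) e)) (c (c (c (c (m (nat_lit 0x98754)) e) e) e) e)) (c (c (c (c (c (m (nat_lit 0x98cdc)) e) e) e) e) e)) (c (c (c (c (c (c (m (nat_lit 0x263628)) e)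 e) e) e) e) e))))) (c (c (c (c (c (c (c (p (nat_lit 0x7b87e310)) (c (m (nat_lit 0x282da1cc)) (c (m (nat_lit 0x754fa58)) (c (m (nat_lit 0x3e48670)) e)))) (c (c (m (nat_lit 0x4e8a2310)) (c (p (nat_lit 0x2c454480)) (c (p (nat_lit 0xc0)) e))) (c (c (p (nat_lit 0x18b75c58)) (c (m (nat_lit 0x2fc8e0)) e)) (c (c (m (nat_lit 0x98754)) e) e)))) (c (c (c (m (nat_lit 0x4e8a2310)) (c (p (nat_lit 0x2c454480)) (c (p (nat_lit 0xc0)) e))) (c (c (p (nat_lit 0xac2750)) (c (m (nat_lit 0x5fad08)) e)) (c (c (m (nat_lit 0x1cacd0)) e) e))) (c (c (c (p (nat_lit 0x18b75c58)) (c (m (nat_lit 0x2fc8e0)) e)) (c (c (m (nat_lit 0x1cacd0)) e) e)) (c (c (c (m (nat_lit 0x98754)) e) e) e)))) (c (c (c (c (m (nat_lit 0x21556f80)) (c (m (nat_lit 0x173bc338)) (c (m (nat_lit 0x4c6608)) e))) (c (c (p (nat_lit 0x1d61ae0c)) (c (m (nat_lit 0x7522614)) e)) (c (c (m (nat_lit 0x75bb638))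 e) e))) (c (c (c (p (nat_lit 0x1d61ae0c)) (c (m (nat_lit 0x7522614)) e)) (c (c (m (nat_lit 0x4c93e0)) e) e)) (c (c (c (m (nat_lit 0x75bb638)) e) e) e))) (c (c (c (c (m (nat_lit 0x128032b0)) (c (p (nat_lit 0x435cc30)) e)) (c (c (m (nat_lit 0x98d54)) e) e)) (c (c (c (m (nat_lit 0x98d54)) e) e) e)) (c (c (c (c (m (nat_lit 0x395244)) e) e) e) e)))) (c (c (c (c (c (m (nat_lit 0x22a4d3b0)) (c (p (nat_lit 0x10bd344)) (c (m (nat_lit 0x264924)) e))) (c (c (p (nat_lit 0x1d61ae0c)) (c (m (nat_lit 0x7522614)) e)) (c (c (m (nat_lit 0x98e5c)) e) e))) (c (c (c (p (nat_lit 0xac2750)) (c (m (nat_lit 0x5fad08)) e)) (c (c (m (nat_lit 0x1319d0)) e) e)) (c (c (c (m (nat_lit 0x396954)) e) e) e))) (c (c (c (c (p (nat_lit 0x1d61ae0c)) (c (m (nat_lit 0x7522614)) e)) (c (c (m (nat_lit 0x1d48a4e0)) e) e)) (c (c (c (m (nat_lit 0x1319d0)) e) e) e)) (c (c (c (c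 (m (nat_lit 0x98e5c)) e) e) e) e))) (c (c (c (c (c (p (nat_lit 0x2a80fb8)) (c (m (nat_lit 0x2fc94c)) e)) (c (c (m (nat_lit 0x98d54)) e) e)) (c (c (c (m (nat_lit 0x1cacd0)) e) e) e)) (c (c (c (c (m (nat_lit 0x75bb638)) e) e) e) e)) (c (c (c (c (c (m (nat_lit 0x98cdc)) e) e) e) e) e)))) (c (c (c (c (c (c (m (nat_lit 0x22a4d3b0)) (c (p (nat_lit 0x10bd344)) (c (m (nat_lit 0x264924)) e))) (c (c (p (nat_lit 0xac2750)) (c (m (nat_lit 0x5fad08)) e)) (c (c (m (nat_lit 0x396954)) e) e))) (c (c (c (p (nat_lit 0x1d61ae0c)) (c (m (nat_lit 0x7522614)) e)) (c (c (m (nat_lit 0x1319d0)) e) e)) (c (c (c (m (nat_lit 0x98e5c)) e) e) e))) (c (c (c (c (p (nat_lit 0x1d61ae0c)) (c (m (nat_lit 0x7522614)) e)) (c (c (m (nat_lit 0x1319d0)) e) e)) (c (c (c (m (nat_lit 0x1d48a4e0)) e) e) e)) (c (c (c (c (m (nat_lit 0x98e5c)) e) e) e) e))) (c (c (c (c (c (p (nat_lit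 0xac7a48)) (c (m (nat_lit 0xac69b0)) e)) (c (c (m (nat_lit 0x4c93e0)) e) e)) (c (c (c (m (nat_lit 0x4c93e0)) e) e) e)) (c (c (c (c (m (nat_lit 0x4c93e0)) e) e) e) e)) (c (c (c (c (c (m (nat_lit 0x3967f8)) e) e) e) e) e))) (c (c (c (c (c (c (p (nat_lit 0x2a80fb8)) (c (m (nat_lit 0x2fc94c)) e)) (c (c (m (nat_lit 0x1cacd0)) e) e)) (c (c (c (m (nat_lit 0x98d54)) e) e) e)) (c (c (c (c (m (nat_lit 0x75bb638)) e) e) e) e)) (c (c (c (c (c (m (nat_lit 0x3967f8)) e) e) e) e) e)) (c (c (c (c (c (c (m (nat_lit 0x98cdc)) e) e) e) e) e) e)))) (c (c (c (c (c (c (c (m (nat_lit 0x18a74fd8)) (c (m (nat_lit 0x7d711b8)) (c (p (nat_lit 0x435c6b4)) e))) (c (c (p (nat_lit 0x18b75c58)) (c (m (nat_lit 0x2fc8e0)) e)) (c (c (m (nat_lit 0x2638b0)) e) e))) (c (c (c (p (nat_lit 0x18b75c58)) (c (m (nat_lit 0x2fc8e0)) e)) (c (c (m (nat_lit 0x396954)) e) e)) (c (c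 (c (m (nat_lit 0x2638b0)) e) e) e))) (c (c (c (c (m (nat_lit 0x128032b0)) (c (p (nat_lit 0x435cc30)) e)) (c (c (m (nat_lit 0x98e5c)) e) e)) (c (c (c (m (nat_lit 0x98e5c)) e) e) e)) (c (c (c (c (m (nat_lit 0x4c6e00)) e) e) e) e))) (c (c (c (c (c (p (nat_lit 0x2a80fb8)) (c (m (nat_lit 0x2fc94c)) e)) (c (c (m (nat_lit 0x75bb638)) e) e)) (c (c (c (m (nat_lit 0x1cacd0)) e) e) e)) (c (c (c (c (m (nat_lit 0x98d54)) e) e) e) e)) (c (c (c (c (c (m (nat_lit 0x131d3c)) e) e) e) e) e))) (c (c (c (c (c (c (p (nat_lit 0x2a80fb8)) (c (m (nat_lit 0x2fc94c)) e)) (c (c (m (nat_lit 0x1cacd0)) e) e)) (c (c (c (m (nat_lit 0x75bb638)) e) e) e)) (c (c (c (c (m (nat_lit 0x98d54)) e) e) e) e)) (c (c (c (c (c (m (nat_lit 0x3967f8)) e) e) e) e) e)) (c (c (c (c (c (c (m (nat_lit 0x131d3c)) e) e) e) e) e) e))) (c (c (c (c (c (c (c (m (nat_lit 0x40f96a4)) (c (p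 (nat_lit 0x448e5d0)) e)) (c (c (m (nat_lit 0x98754)) e) e)) (c (c (c (m (nat_lit 0x98754)) e) e) e)) (c (c (c (c (m (nat_lit 0x395244)) e) e) e) e)) (c (c (c (c (c (m (nat_lit 0x98cdc)) e) e) e) e) e)) (c (c (c (c (c (c (m (nat_lit 0x98cdc)) e) e) e) e) e) e)) (c (c (c (c (c (c (c (m (nat_lit 0x263628)) e) e) e) e) e) e) e))))) (c (c (c (c (c (c (c (c (p (nat_lit 0x159827508)) (c (p (nat_lit 0x6d576b60)) (c (m (nat_lit 0x6f3a3260)) (c (p (nat_lit 0x16e920a0)) e)))) (c (c (p (nat_lit 0x1f55c3f4)) (c (m (nat_lit 0xb4510f0)) (c (p (nat_lit 0x79ca8ec)) e))) (c (c (m (nat_lit 0xbcae9f4)) (c (m (nat_lit 0x965973c)) e)) (c (c (m (nat_lit 0x98ce8)) e) e)))) (c (c (c (p (nat_lit 0x1f55c3f4)) (c (m (nat_lit 0xb4510f0)) (c (p (nat_lit 0x79ca8ec)) e))) (c (c (p (nat_lit 0x4dd3120)) (c (m (nat_lit 0x394ef0)) e)) (c (c (m (nat_lit 0x26520e4)) e)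 e))) (c (c (c (m (nat_lit 0xbcae9f4)) (c (m (nat_lit 0x965973c)) e)) (c (c (m (nat_lit 0x26520e4)) e) e)) (c (c (c (m (nat_lit 0x98ce8)) e) e) e)))) (c (c (c (c (m (nat_lit 0x5404d160)) (c (m (nat_lit 0x177aea68)) (c (p (nat_lit 0x79cb8e8)) e))) (c (c (p (nat_lit 0x12784bd8)) (c (p (nat_lit 0x234)) e)) (c (c (m (nat_lit 0x6f6e4b4)) e) e))) (c (c (c (p (nat_lit 0x12784bd8)) (c (p (nat_lit 0x234)) e)) (c (c (m (nat_lit 0x131958)) e) e)) (c (c (c (m (nat_lit 0x6f6e4b4)) e) e) e))) (c (c (c (c (p (nat_lit 0x2f834f10)) (c (m (nat_lit 0x4ca3520)) e)) (c (c (m (nat_lit 0x2652108)) e) e)) (c (c (c (m (nat_lit 0x2652108)) e) e) e)) (c (c (c (c (m (nat_lit 0x263220)) e) e) e) e)))) (c (c (c (c (c (p (nat_lit 0x1f55c3f4)) (c (m (nat_lit 0xb4510f0)) (c (p (nat_lit 0x79ca8ec)) e))) (c (c (m (nat_lit 0x397dc670)) (c (p (nat_lit 0xf1ccae8)) e)) (c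 (c (p (nat_lit 0xf42fc3c)) e) e))) (c (c (c (p (nat_lit 0x54f91c8)) (c (m (nat_lit 0x12dd58)) e)) (c (c (p (nat_lit 0x1cc9e0)) e) e)) (c (c (c (m (nat_lit 0x2485bc0)) e) e) e))) (c (c (c (c (p (nat_lit 0x1b9481d4)) (c (m (nat_lit 0x8d95dc0)) e)) (c (c (p (nat_lit 0x5d0be80)) e) e)) (c (c (c (m (nat_lit 0x131b20)) e) e) e)) (c (c (c (c (m (nat_lit 0x110f39e8)) e) e) e) e))) (c (c (c (c (c (m (nat_lit 0xbcae9f4)) (c (m (nat_lit 0x965973c)) e)) (c (c (p (nat_lit 0xf42fc3c)) e) e)) (c (c (c (m (nat_lit 0x2485bc0)) e) e) e)) (c (c (c (c (m (nat_lit 0x13941d8)) e) e) e) e)) (c (c (c (c (c (m (nat_lit 0x98ce8)) e) e) e) e) e)))) (c (c (c (c (c (c (p (nat_lit 0x1f55c3f4)) (c (m (nat_lit 0xb4510f0)) (c (p (nat_lit 0x79ca8ec)) e))) (c (c (p (nat_lit 0x54f91c8)) (c (m (nat_lit 0x12dd58)) e)) (c (c (m (nat_lit 0x2485bc0)) e) e))) (c (c (c (m (nat_lit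 0x397dc670)) (c (p (nat_lit 0xf1ccae8)) e)) (c (c (p (nat_lit 0x1cc9e0)) e) e)) (c (c (c (p (nat_lit 0xf42fc3c)) e) e) e))) (c (c (c (c (p (nat_lit 0x1b9481d4)) (c (m (nat_lit 0x8d95dc0)) e)) (c (c (m (nat_lit 0x131b20)) e) e)) (c (c (c (p (nat_lit 0x5d0be80)) e) e) e)) (c (c (c (c (m (nat_lit 0x110f39e8)) e) e) e) e))) (c (c (c (c (c (p (nat_lit 0x4dd3120)) (c (m (nat_lit 0x394ef0)) e)) (c (c (p (nat_lit 0x1cc9e0)) e) e)) (c (c (c (p (nat_lit 0x1cc9e0)) e) e) e)) (c (c (c (c (m (nat_lit 0x131808)) e) e) e) e)) (c (c (c (c (c (m (nat_lit 0x26520e4)) e) e) e) e) e))) (c (c (c (c (c (c (m (nat_lit 0xbcae9f4)) (c (m (nat_lit 0x965973c)) e)) (c (c (m (nat_lit 0x2485bc0)) e) e)) (c (c (c (p (nat_lit 0xf42fc3c)) e) e) e)) (c (c (c (c (m (nat_lit 0x13941d8)) e) e) e) e)) (c (c (c (c (c (m (nat_lit 0x26520e4)) e) e) e) e) e)) (c (c (c (c (c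 (c (m (nat_lit 0x98ce8)) e) e) e) e) e) e)))) (c (c (c (c (c (c (c (m (nat_lit 0x5404d160)) (c (m (nat_lit 0x177aea68)) (c (p (nat_lit 0x79cb8e8)) e))) (c (c (p (nat_lit 0x1b9481d4)) (c (m (nat_lit 0x8d95dc0)) e)) (c (c (m (nat_lit 0x13941d8)) e) e))) (c (c (c (p (nat_lit 0x1b9481d4)) (c (m (nat_lit 0x8d95dc0)) e)) (c (c (m (nat_lit 0x131808)) e) e)) (c (c (c (m (nat_lit 0x13941d8)) e) e) e))) (c (c (c (c (p (nat_lit 0x462f2a60)) (c (p (nat_lit 0xf1cc620)) e)) (c (c (m (nat_lit 0xea08538)) e) e)) (c (c (c (m (nat_lit 0xea08538)) e) e) e)) (c (c (c (c (p (nat_lit 0xf097bc0)) e) e) e) e))) (c (c (c (c (c (p (nat_lit 0x12784bd8)) (c (p (nat_lit 0x234)) e)) (c (c (p (nat_lit 0x5d0be80)) e) e)) (c (c (c (m (nat_lit 0x131b20)) e) e) e)) (c (c (c (c (m (nat_lit 0xea08538)) e) e) e) e)) (c (c (c (c (c (m (nat_lit 0x6f6e4b4)) e) e) e) e) e)))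 (c (c (c (c (c (c (p (nat_lit 0x12784bd8)) (c (p (nat_lit 0x234)) e)) (c (c (m (nat_lit 0x131b20)) e) e)) (c (c (c (p (nat_lit 0x5d0be80)) e) e) e)) (c (c (c (c (m (nat_lit 0xea08538)) e) e) e) e)) (c (c (c (c (c (m (nat_lit 0x131958)) e) e) e) e) e)) (c (c (c (c (c (c (m (nat_lit 0x6f6e4b4)) e) e) e) e) e) e))) (c (c (c (c (c (c (c (p (nat_lit 0x2f834f10)) (c (m (nat_lit 0x4ca3520)) e)) (c (c (m (nat_lit 0x110f39e8)) e) e)) (c (c (c (m (nat_lit 0x110f39e8)) e) e) e)) (c (c (c (c (p (nat_lit 0xf097bc0)) e) e) e) e)) (c (c (c (c (c (m (nat_lit 0x2652108)) e) e) e) e) e)) (c (c (c (c (c (c (m (nat_lit 0x2652108)) e) e) e) e) e) e)) (c (c (c (c (c (c (c (m (nat_lit 0x263220)) e) e) e) e) e) e) e)))) (c (c (c (c (c (c (c (c (m (nat_lit 0x19029cdf8)) (c (p (nat_lit 0x35535570)) (c (m (nat_lit 0xe54c10)) e))) (c (c (p (nat_lit 0xfa10298))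 (c (m (nat_lit 0x367e9f0)) e)) (c (c (m (nat_lit 0x311e314)) e) e))) (c (c (c (p (nat_lit 0xfa10298)) (c (m (nat_lit 0x367e9f0)) e)) (c (c (m (nat_lit 0x3956e8)) e) e)) (c (c (c (m (nat_lit 0x311e314)) e) e) e))) (c (c (c (c (p (nat_lit 0x2b51a358)) (c (m (nat_lit 0xe708f28)) e)) (c (c (m (nat_lit 0x2fc76c)) e) e)) (c (c (c (m (nat_lit 0x2fc76c)) e) e) e)) (c (c (c (c (m (nat_lit 0xe5d6a60)) e) e) e) e))) (c (c (c (c (c (p (nat_lit 0xfa10298)) (c (m (nat_lit 0x367e9f0)) e)) (c (c (m (nat_lit 0x623c5e0)) e) e)) (c (c (c (m (nat_lit 0x4c71c0)) e) e) e)) (c (c (c (c (m (nat_lit 0x263a48)) e) e) e) e)) (c (c (c (c (c (m (nat_lit 0x311e314)) e) e) e) e) e))) (c (c (c (c (c (c (p (nat_lit 0xfa10298)) (c (m (nat_lit 0x367e9f0)) e)) (c (c (m (nat_lit 0x4c71c0)) e) e)) (c (c (c (m (nat_lit 0x623c5e0)) e) e) e)) (c (c (c (c (m (nat_lit 0x263a48))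 e) e) e) e)) (c (c (c (c (c (m (nat_lit 0x3956e8)) e) e) e) e) e)) (c (c (c (c (c (c (m (nat_lit 0x311e314)) e) e) e) e) e) e))) (c (c (c (c (c (c (c (p (nat_lit 0x2b51a358)) (c (m (nat_lit 0xe708f28)) e)) (c (c (m (nat_lit 0x263a48)) e) e)) (c (c (c (m (nat_lit 0x263a48)) e) e) e)) (c (c (c (c (m (nat_lit 0x1c94a6f0)) e) e) e) e)) (c (c (c (c (c (m (nat_lit 0x2fc76c)) e) e) e) e) e)) (c (c (c (c (c (c (m (nat_lit 0x2fc76c)) e) e) e) e) e) e)) (c (c (c (c (c (c (c (m (nat_lit 0xe5d6a60)) e) e) e) e) e) e) e))) (c (c (c (c (c (c (c (c (p (nat_lit 0xd7d4bb70)) (c (p (nat_lit 0xf0)) e)) (c (c (m (nat_lit 0x98dc0)) e) e)) (c (c (c (m (nat_lit 0x98dc0)) e) e) e)) (c (c (c (c (m (nat_lit 0x131550)) e) e) e) e)) (c (c (c (c (c (m (nat_lit 0x98dc0)) e) e) e) e) e)) (c (c (c (c (c (c (m (nat_lit 0x98dc0)) e) e) e) e) e) e)) (c (c (c (c (c (c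 (c (m (nat_lit 0x131550)) e) e) e) e) e) e) e)) (c (c (c (c (c (c (c (c (m (nat_lit 0x33a9dee0)) e) e) e) e) e) e) e) e))))) (c (c (c (c (c (c (c (c (c (p (nat_lit 0x159827508)) (c (p (nat_lit 0x6d576b60)) (c (m (nat_lit 0x6f3a3260)) (c (p (nat_lit 0x16e920a0)) e)))) (c (c (p (nat_lit 0x1f55c3f4)) (c (m (nat_lit 0xb4510f0)) (c (p (nat_lit 0x79ca8ec)) e))) (c (c (m (nat_lit 0xbcae9f4)) (c (m (nat_lit 0x965973c)) e)) (c (c (m (nat_lit 0x98ce8)) e) e)))) (c (c (c (m (nat_lit 0x5404d160)) (c (m (nat_lit 0x177aea68)) (c (p (nat_lit 0x79cb8e8)) e))) (c (c (p (nat_lit 0x12784bd8)) (c (p (nat_lit 0x234)) e)) (c (c (m (nat_lit 0x6f6e4b4)) e) e))) (c (c (c (p (nat_lit 0x2f834f10)) (c (m (nat_lit 0x4ca3520)) e)) (c (c (m (nat_lit 0x2652108)) e) e)) (c (c (c (m (nat_lit 0x263220)) e) e) e)))) (c (c (c (c (p (nat_lit 0x1f55c3f4)) (c (m (nat_lit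 0xb4510f0)) (c (p (nat_lit 0x79ca8ec)) e))) (c (c (p (nat_lit 0x4dd3120)) (c (m (nat_lit 0x394ef0)) e)) (c (c (m (nat_lit 0x26520e4)) e) e))) (c (c (c (p (nat_lit 0x12784bd8)) (c (p (nat_lit 0x234)) e)) (c (c (m (nat_lit 0x131958)) e) e)) (c (c (c (m (nat_lit 0x2652108)) e) e) e))) (c (c (c (c (m (nat_lit 0xbcae9f4)) (c (m (nat_lit 0x965973c)) e)) (c (c (m (nat_lit 0x26520e4)) e) e)) (c (c (c (m (nat_lit 0x6f6e4b4)) e) e) e)) (c (c (c (c (m (nat_lit 0x98ce8)) e) e) e) e)))) (c (c (c (c (c (p (nat_lit 0x1f55c3f4)) (c (m (nat_lit 0xb4510f0)) (c (p (nat_lit 0x79ca8ec)) e))) (c (c (m (nat_lit 0x397dc670)) (c (p (nat_lit 0xf1ccae8)) e)) (c (c (p (nat_lit 0xf42fc3c)) e) e))) (c (c (c (p (nat_lit 0x1b9481d4)) (c (m (nat_lit 0x8d95dc0)) e)) (c (c (p (nat_lit 0x5d0be80)) e) e)) (c (c (c (m (nat_lit 0x110f39e8)) e) e) e))) (c (c (c (c (p (nat_lit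 0x54f91c8)) (c (m (nat_lit 0x12dd58)) e)) (c (c (p (nat_lit 0x1cc9e0)) e) e)) (c (c (c (m (nat_lit 0x131b20)) e) e) e)) (c (c (c (c (m (nat_lit 0x2485bc0)) e) e) e) e))) (c (c (c (c (c (m (nat_lit 0xbcae9f4)) (c (m (nat_lit 0x965973c)) e)) (c (c (p (nat_lit 0xf42fc3c)) e) e)) (c (c (c (m (nat_lit 0x13941d8)) e) e) e)) (c (c (c (c (m (nat_lit 0x2485bc0)) e) e) e) e)) (c (c (c (c (c (m (nat_lit 0x98ce8)) e) e) e) e) e)))) (c (c (c (c (c (c (m (nat_lit 0x5404d160)) (c (m (nat_lit 0x177aea68)) (c (p (nat_lit 0x79cb8e8)) e))) (c (c (p (nat_lit 0x1b9481d4)) (c (m (nat_lit 0x8d95dc0)) e)) (c (c (m (nat_lit 0x13941d8)) e) e))) (c (c (c (p (nat_lit 0x462f2a60)) (c (p (nat_lit 0xf1cc620)) e)) (c (c (m (nat_lit 0xea08538)) e) e)) (c (c (c (p (nat_lit 0xf097bc0)) e) e) e))) (c (c (c (c (p (nat_lit 0x1b9481d4)) (c (m (nat_lit 0x8d95dc0)) e)) (c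 (c (m (nat_lit 0x131808)) e) e)) (c (c (c (m (nat_lit 0xea08538)) e) e) e)) (c (c (c (c (m (nat_lit 0x13941d8)) e) e) e) e))) (c (c (c (c (c (p (nat_lit 0x12784bd8)) (c (p (nat_lit 0x234)) e)) (c (c (p (nat_lit 0x5d0be80)) e) e)) (c (c (c (m (nat_lit 0xea08538)) e) e) e)) (c (c (c (c (m (nat_lit 0x131b20)) e) e) e) e)) (c (c (c (c (c (m (nat_lit 0x6f6e4b4)) e) e) e) e) e))) (c (c (c (c (c (c (p (nat_lit 0x2f834f10)) (c (m (nat_lit 0x4ca3520)) e)) (c (c (m (nat_lit 0x110f39e8)) e) e)) (c (c (c (p (nat_lit 0xf097bc0)) e) e) e)) (c (c (c (c (m (nat_lit 0x110f39e8)) e) e) e) e)) (c (c (c (c (c (m (nat_lit 0x2652108)) e) e) e) e) e)) (c (c (c (c (c (c (m (nat_lit 0x263220)) e) e) e) e) e) e)))) (c (c (c (c (c (c (c (p (nat_lit 0x1f55c3f4)) (c (m (nat_lit 0xb4510f0)) (c (p (nat_lit 0x79ca8ec)) e))) (c (c (p (nat_lit 0x54f91c8)) (c (m (nat_lit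 0x12dd58)) e)) (c (c (m (nat_lit 0x2485bc0)) e) e))) (c (c (c (p (nat_lit 0x1b9481d4)) (c (m (nat_lit 0x8d95dc0)) e)) (c (c (m (nat_lit 0x131b20)) e) e)) (c (c (c (m (nat_lit 0x110f39e8)) e) e) e))) (c (c (c (c (m (nat_lit 0x397dc670)) (c (p (nat_lit 0xf1ccae8)) e)) (c (c (p (nat_lit 0x1cc9e0)) e) e)) (c (c (c (p (nat_lit 0x5d0be80)) e) e) e)) (c (c (c (c (p (nat_lit 0xf42fc3c)) e) e) e) e))) (c (c (c (c (c (p (nat_lit 0x4dd3120)) (c (m (nat_lit 0x394ef0)) e)) (c (c (p (nat_lit 0x1cc9e0)) e) e)) (c (c (c (m (nat_lit 0x131808)) e) e) e)) (c (c (c (c (p (nat_lit 0x1cc9e0)) e) e) e) e)) (c (c (c (c (c (m (nat_lit 0x26520e4)) e) e) e) e) e))) (c (c (c (c (c (c (p (nat_lit 0x12784bd8)) (c (p (nat_lit 0x234)) e)) (c (c (m (nat_lit 0x131b20)) e) e)) (c (c (c (m (nat_lit 0xea08538)) e) e) e)) (c (c (c (c (p (nat_lit 0x5d0be80)) e) e) e) e))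 (c (c (c (c (c (m (nat_lit 0x131958)) e) e) e) e) e)) (c (c (c (c (c (c (m (nat_lit 0x2652108)) e) e) e) e) e) e))) (c (c (c (c (c (c (c (m (nat_lit 0xbcae9f4)) (c (m (nat_lit 0x965973c)) e)) (c (c (m (nat_lit 0x2485bc0)) e) e)) (c (c (c (m (nat_lit 0x13941d8)) e) e) e)) (c (c (c (c (p (nat_lit 0xf42fc3c)) e) e) e) e)) (c (c (c (c (c (m (nat_lit 0x26520e4)) e) e) e) e) e)) (c (c (c (c (c (c (m (nat_lit 0x6f6e4b4)) e) e) e) e) e) e)) (c (c (c (c (c (c (c (m (nat_lit 0x98ce8)) e) e) e) e) e) e) e)))) (c (c (c (c (c (c (c (c (m (nat_lit 0x155324f28)) (c (m (nat_lit 0x56eefaf8)) (c (p (nat_lit 0x2b8a6560)) e))) (c (c (p (nat_lit 0x98ef20)) (c (m (nat_lit 0xbf2794)) e)) (c (c (m (nat_lit 0x1319dc)) e) e))) (c (c (c (m (nat_lit 0x15823fbc)) (c (p (nat_lit 0x15d8480c)) e)) (c (c (m (nat_lit 0x5f9100)) e) e)) (c (c (c (m (nat_lit 0x98dc0))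 e) e) e))) (c (c (c (c (m (nat_lit 0x15823fbc)) (c (p (nat_lit 0x15d8480c)) e)) (c (c (m (nat_lit 0x5f9100)) e) e)) (c (c (c (m (nat_lit 0x4c74cc)) e) e) e)) (c (c (c (c (m (nat_lit 0x98dc0)) e) e) e) e))) (c (c (c (c (c (p (nat_lit 0x98ef20)) (c (m (nat_lit 0xbf2794)) e)) (c (c (m (nat_lit 0x261858)) e) e)) (c (c (c (m (nat_lit 0x560538)) e) e) e)) (c (c (c (c (m (nat_lit 0x560538)) e) e) e) e)) (c (c (c (c (c (m (nat_lit 0x1319dc)) e) e) e) e) e))) (c (c (c (c (c (c (m (nat_lit 0x15823fbc)) (c (p (nat_lit 0x15d8480c)) e)) (c (c (m (nat_lit 0x560538)) e) e)) (c (c (c (m (nat_lit 0x263100)) e) e) e)) (c (c (c (c (m (nat_lit 0x4c74c0)) e) e) e) e)) (c (c (c (c (c (m (nat_lit 0x5f9100)) e) e) e) e) e)) (c (c (c (c (c (c (m (nat_lit 0x98dc0)) e) e) e) e) e) e))) (c (c (c (c (c (c (c (m (nat_lit 0x15823fbc)) (c (p (nat_lit 0x15d8480c))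 e)) (c (c (m (nat_lit 0x560538)) e) e)) (c (c (c (m (nat_lit 0x4c74c0)) e) e) e)) (c (c (c (c (m (nat_lit 0x263100)) e) e) e) e)) (c (c (c (c (c (m (nat_lit 0x5f9100)) e) e) e) e) e)) (c (c (c (c (c (c (m (nat_lit 0x4c74cc)) e) e) e) e) e) e)) (c (c (c (c (c (c (c (m (nat_lit 0x98dc0)) e) e) e) e) e) e) e))) (c (c (c (c (c (c (c (c (p (nat_lit 0xc1dd40bc)) (c (m (nat_lit 0x5ef1988)) e)) (c (c (m (nat_lit 0x60bc904)) e) e)) (c (c (c (m (nat_lit 0x263778)) e) e) e)) (c (c (c (c (m (nat_lit 0x1caa84)) e) e) e) e)) (c (c (c (c (c (m (nat_lit 0x60bc904)) e) e) e) e) e)) (c (c (c (c (c (c (m (nat_lit 0x263778)) e) e) e) e) e) e)) (c (c (c (c (c (c (c (m (nat_lit 0x1caa84)) e) e) e) e) e) e) e)) (c (c (c (c (c (c (c (c (m (nat_lit 0x3866b350)) e) e) e) e) e) e) e) e)))) (c (c (c (c (c (c (c (c (c (m (nat_lit 0x19029cdf8)) (c (p (nat_lit 0x35535570))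 (c (m (nat_lit 0xe54c10)) e))) (c (c (p (nat_lit 0xfa10298)) (c (m (nat_lit 0x367e9f0)) e)) (c (c (m (nat_lit 0x311e314)) e) e))) (c (c (c (p (nat_lit 0x2b51a358)) (c (m (nat_lit 0xe708f28)) e)) (c (c (m (nat_lit 0x2fc76c)) e) e)) (c (c (c (m (nat_lit 0xe5d6a60)) e) e) e))) (c (c (c (c (p (nat_lit 0xfa10298)) (c (m (nat_lit 0x367e9f0)) e)) (c (c (m (nat_lit 0x3956e8)) e) e)) (c (c (c (m (nat_lit 0x2fc76c)) e) e) e)) (c (c (c (c (m (nat_lit 0x311e314)) e) e) e) e))) (c (c (c (c (c (p (nat_lit 0xfa10298)) (c (m (nat_lit 0x367e9f0)) e)) (c (c (m (nat_lit 0x623c5e0)) e) e)) (c (c (c (m (nat_lit 0x263a48)) e) e) e)) (c (c (c (c (m (nat_lit 0x4c71c0)) e) e) e) e)) (c (c (c (c (c (m (nat_lit 0x311e314)) e) e) e) e) e))) (c (c (c (c (c (c (p (nat_lit 0x2b51a358)) (c (m (nat_lit 0xe708f28)) e)) (c (c (m (nat_lit 0x263a48)) e) e)) (c (c (c (m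 (nat_lit 0x1c94a6f0)) e) e) e)) (c (c (c (c (m (nat_lit 0x263a48)) e) e) e) e)) (c (c (c (c (c (m (nat_lit 0x2fc76c)) e) e) e) e) e)) (c (c (c (c (c (c (m (nat_lit 0xe5d6a60)) e) e) e) e) e) e))) (c (c (c (c (c (c (c (p (nat_lit 0xfa10298)) (c (m (nat_lit 0x367e9f0)) e)) (c (c (m (nat_lit 0x4c71c0)) e) e)) (c (c (c (m (nat_lit 0x263a48)) e) e) e)) (c (c (c (c (m (nat_lit 0x623c5e0)) e) e) e) e)) (c (c (c (c (c (m (nat_lit 0x3956e8)) e) e) e) e) e)) (c (c (c (c (c (c (m (nat_lit 0x2fc76c)) e) e) e) e) e) e)) (c (c (c (c (c (c (c (m (nat_lit 0x311e314)) e) e) e) e) e) e) e))) (c (c (c (c (c (c (c (c (p (nat_lit 0xc1dd40bc)) (c (m (nat_lit 0x5ef1988)) e)) (c (c (m (nat_lit 0x60bc904)) e) e)) (c (c (c (m (nat_lit 0x1caa84)) e) e) e)) (c (c (c (c (m (nat_lit 0x263778)) e) e) e) e)) (c (c (c (c (c (m (nat_lit 0x60bc904)) e) e) e) e) e)) (c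 (c (c (c (c (c (m (nat_lit 0x1caa84)) e) e) e) e) e) e)) (c (c (c (c (c (c (c (m (nat_lit 0x263778)) e) e) e) e) e) e) e)) (c (c (c (c (c (c (c (c (m (nat_lit 0x979a550)) e) e) e) e) e) e) e) e))) (c (c (c (c (c (c (c (c (c (p (nat_lit 0xd7d4bb70)) (c (p (nat_lit 0xf0)) e)) (c (c (m (nat_lit 0x98dc0)) e) e)) (c (c (c (m (nat_lit 0x131550)) e) e) e)) (c (c (c (c (m (nat_lit 0x98dc0)) e) e) e) e)) (c (c (c (c (c (m (nat_lit 0x98dc0)) e) e) e) e) e)) (c (c (c (c (c (c (m (nat_lit 0x131550)) e) e) e) e) e) e)) (c (c (c (c (c (c (c (m (nat_lit 0x98dc0)) e) e) e) e) e) e) e)) (c (c (c (c (c (c (c (c (m (nat_lit 0x3866b350)) e) e) e) e) e) e) e) e)) (c (c (c (c (c (c (c (c (c (m (nat_lit 0x33a9dee0)) e) e) e) e) e) e) e) e) e))))) (c (c (c (c (c (c (c (c (c (c (p (nat_lit 0x159827508)) (c (p (nat_lit 0x6d576b60)) (c (m (nat_lit 0x6f3a3260))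 (c (p (nat_lit 0x16e920a0)) e)))) (c (c (m (nat_lit 0x5404d160)) (c (m (nat_lit 0x177aea68)) (c (p (nat_lit 0x79cb8e8)) e))) (c (c (p (nat_lit 0x2f834f10)) (c (m (nat_lit 0x4ca3520)) e)) (c (c (m (nat_lit 0x263220)) e) e)))) (c (c (c (p (nat_lit 0x1f55c3f4)) (c (m (nat_lit 0xb4510f0)) (c (p (nat_lit 0x79ca8ec)) e))) (c (c (p (nat_lit 0x12784bd8)) (c (p (nat_lit 0x234)) e)) (c (c (m (nat_lit 0x2652108)) e) e))) (c (c (c (m (nat_lit 0xbcae9f4)) (c (m (nat_lit 0x965973c)) e)) (c (c (m (nat_lit 0x6f6e4b4)) e) e)) (c (c (c (m (nat_lit 0x98ce8)) e) e) e)))) (c (c (c (c (p (nat_lit 0x1f55c3f4)) (c (m (nat_lit 0xb4510f0)) (c (p (nat_lit 0x79ca8ec)) e))) (c (c (p (nat_lit 0x12784bd8)) (c (p (nat_lit 0x234)) e)) (c (c (m (nat_lit 0x2652108)) e) e))) (c (c (c (p (nat_lit 0x4dd3120)) (c (m (nat_lit 0x394ef0)) e)) (c (c (m (nat_lit 0x131958)) e)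 e)) (c (c (c (m (nat_lit 0x26520e4)) e) e) e))) (c (c (c (c (m (nat_lit 0xbcae9f4)) (c (m (nat_lit 0x965973c)) e)) (c (c (m (nat_lit 0x6f6e4b4)) e) e)) (c (c (c (m (nat_lit 0x26520e4)) e) e) e)) (c (c (c (c (m (nat_lit 0x98ce8)) e) e) e) e)))) (c (c (c (c (c (m (nat_lit 0x5404d160)) (c (m (nat_lit 0x177aea68)) (c (p (nat_lit 0x79cb8e8)) e))) (c (c (p (nat_lit 0x462f2a60)) (c (p (nat_lit 0xf1cc620)) e)) (c (c (p (nat_lit 0xf097bc0)) e) e))) (c (c (c (p (nat_lit 0x1b9481d4)) (c (m (nat_lit 0x8d95dc0)) e)) (c (c (m (nat_lit 0xea08538)) e) e)) (c (c (c (m (nat_lit 0x13941d8)) e) e) e))) (c (c (c (c (p (nat_lit 0x1b9481d4)) (c (m (nat_lit 0x8d95dc0)) e)) (c (c (m (nat_lit 0xea08538)) e) e)) (c (c (c (m (nat_lit 0x131808)) e) e) e)) (c (c (c (c (m (nat_lit 0x13941d8)) e) e) e) e))) (c (c (c (c (c (p (nat_lit 0x2f834f10)) (c (m (nat_lit 0x4ca3520))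 e)) (c (c (p (nat_lit 0xf097bc0)) e) e)) (c (c (c (m (nat_lit 0x110f39e8)) e) e) e)) (c (c (c (c (m (nat_lit 0x110f39e8)) e) e) e) e)) (c (c (c (c (c (m (nat_lit 0x263220)) e) e) e) e) e)))) (c (c (c (c (c (c (p (nat_lit 0x1f55c3f4)) (c (m (nat_lit 0xb4510f0)) (c (p (nat_lit 0x79ca8ec)) e))) (c (c (p (nat_lit 0x1b9481d4)) (c (m (nat_lit 0x8d95dc0)) e)) (c (c (m (nat_lit 0x110f39e8)) e) e))) (c (c (c (m (nat_lit 0x397dc670)) (c (p (nat_lit 0xf1ccae8)) e)) (c (c (p (nat_lit 0x5d0be80)) e) e)) (c (c (c (p (nat_lit 0xf42fc3c)) e) e) e))) (c (c (c (c (p (nat_lit 0x54f91c8)) (c (m (nat_lit 0x12dd58)) e)) (c (c (m (nat_lit 0x131b20)) e) e)) (c (c (c (p (nat_lit 0x1cc9e0)) e) e) e)) (c (c (c (c (m (nat_lit 0x2485bc0)) e) e) e) e))) (c (c (c (c (c (p (nat_lit 0x12784bd8)) (c (p (nat_lit 0x234)) e)) (c (c (m (nat_lit 0xea08538)) e) e)) (c (c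 (c (p (nat_lit 0x5d0be80)) e) e) e)) (c (c (c (c (m (nat_lit 0x131b20)) e) e) e) e)) (c (c (c (c (c (m (nat_lit 0x2652108)) e) e) e) e) e))) (c (c (c (c (c (c (m (nat_lit 0xbcae9f4)) (c (m (nat_lit 0x965973c)) e)) (c (c (m (nat_lit 0x13941d8)) e) e)) (c (c (c (p (nat_lit 0xf42fc3c)) e) e) e)) (c (c (c (c (m (nat_lit 0x2485bc0)) e) e) e) e)) (c (c (c (c (c (m (nat_lit 0x6f6e4b4)) e) e) e) e) e)) (c (c (c (c (c (c (m (nat_lit 0x98ce8)) e) e) e) e) e) e)))) (c (c (c (c (c (c (c (p (nat_lit 0x1f55c3f4)) (c (m (nat_lit 0xb4510f0)) (c (p (nat_lit 0x79ca8ec)) e))) (c (c (p (nat_lit 0x1b9481d4)) (c (m (nat_lit 0x8d95dc0)) e)) (c (c (m (nat_lit 0x110f39e8)) e) e))) (c (c (c (p (nat_lit 0x54f91c8)) (c (m (nat_lit 0x12dd58)) e)) (c (c (m (nat_lit 0x131b20)) e) e)) (c (c (c (m (nat_lit 0x2485bc0)) e) e) e))) (c (c (c (c (m (nat_lit 0x397dc670))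 (c (p (nat_lit 0xf1ccae8)) e)) (c (c (p (nat_lit 0x5d0be80)) e) e)) (c (c (c (p (nat_lit 0x1cc9e0)) e) e) e)) (c (c (c (c (p (nat_lit 0xf42fc3c)) e) e) e) e))) (c (c (c (c (c (p (nat_lit 0x12784bd8)) (c (p (nat_lit 0x234)) e)) (c (c (m (nat_lit 0xea08538)) e) e)) (c (c (c (m (nat_lit 0x131b20)) e) e) e)) (c (c (c (c (p (nat_lit 0x5d0be80)) e) e) e) e)) (c (c (c (c (c (m (nat_lit 0x2652108)) e) e) e) e) e))) (c (c (c (c (c (c (p (nat_lit 0x4dd3120)) (c (m (nat_lit 0x394ef0)) e)) (c (c (m (nat_lit 0x131808)) e) e)) (c (c (c (p (nat_lit 0x1cc9e0)) e) e) e)) (c (c (c (c (p (nat_lit 0x1cc9e0)) e) e) e) e)) (c (c (c (c (c (m (nat_lit 0x131958)) e) e) e) e) e)) (c (c (c (c (c (c (m (nat_lit 0x26520e4)) e) e) e) e) e) e))) (c (c (c (c (c (c (c (m (nat_lit 0xbcae9f4)) (c (m (nat_lit 0x965973c)) e)) (c (c (m (nat_lit 0x13941d8)) e) e)) (c (c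 (c (m (nat_lit 0x2485bc0)) e) e) e)) (c (c (c (c (p (nat_lit 0xf42fc3c)) e) e) e) e)) (c (c (c (c (c (m (nat_lit 0x6f6e4b4)) e) e) e) e) e)) (c (c (c (c (c (c (m (nat_lit 0x26520e4)) e) e) e) e) e) e)) (c (c (c (c (c (c (c (m (nat_lit 0x98ce8)) e) e) e) e) e) e) e)))) (c (c (c (c (c (c (c (c (m (nat_lit 0x155324f28)) (c (m (nat_lit 0x56eefaf8)) (c (p (nat_lit 0x2b8a6560)) e))) (c (c (m (nat_lit 0x15823fbc)) (c (p (nat_lit 0x15d8480c)) e)) (c (c (m (nat_lit 0x98dc0)) e) e))) (c (c (c (p (nat_lit 0x98ef20)) (c (m (nat_lit 0xbf2794)) e)) (c (c (m (nat_lit 0x5f9100)) e) e)) (c (c (c (m (nat_lit 0x1319dc)) e) e) e))) (c (c (c (c (m (nat_lit 0x15823fbc)) (c (p (nat_lit 0x15d8480c)) e)) (c (c (m (nat_lit 0x4c74cc)) e) e)) (c (c (c (m (nat_lit 0x5f9100)) e) e) e)) (c (c (c (c (m (nat_lit 0x98dc0)) e) e) e) e))) (c (c (c (c (c (m (nat_lit 0x15823fbc))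 (c (p (nat_lit 0x15d8480c)) e)) (c (c (m (nat_lit 0x263100)) e) e)) (c (c (c (m (nat_lit 0x560538)) e) e) e)) (c (c (c (c (m (nat_lit 0x4c74c0)) e) e) e) e)) (c (c (c (c (c (m (nat_lit 0x98dc0)) e) e) e) e) e))) (c (c (c (c (c (c (p (nat_lit 0x98ef20)) (c (m (nat_lit 0xbf2794)) e)) (c (c (m (nat_lit 0x560538)) e) e)) (c (c (c (m (nat_lit 0x261858)) e) e) e)) (c (c (c (c (m (nat_lit 0x560538)) e) e) e) e)) (c (c (c (c (c (m (nat_lit 0x5f9100)) e) e) e) e) e)) (c (c (c (c (c (c (m (nat_lit 0x1319dc)) e) e) e) e) e) e))) (c (c (c (c (c (c (c (m (nat_lit 0x15823fbc)) (c (p (nat_lit 0x15d8480c)) e)) (c (c (m (nat_lit 0x4c74c0)) e) e)) (c (c (c (m (nat_lit 0x560538)) e) e) e)) (c (c (c (c (m (nat_lit 0x263100)) e) e) e) e)) (c (c (c (c (c (m (nat_lit 0x4c74cc)) e) e) e) e) e)) (c (c (c (c (c (c (m (nat_lit 0x5f9100)) e) e) e) e) e) e)) (c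 (c (c (c (c (c (c (m (nat_lit 0x98dc0)) e) e) e) e) e) e) e))) (c (c (c (c (c (c (c (c (p (nat_lit 0xc1dd40bc)) (c (m (nat_lit 0x5ef1988)) e)) (c (c (m (nat_lit 0x263778)) e) e)) (c (c (c (m (nat_lit 0x60bc904)) e) e) e)) (c (c (c (c (m (nat_lit 0x1caa84)) e) e) e) e)) (c (c (c (c (c (m (nat_lit 0x263778)) e) e) e) e) e)) (c (c (c (c (c (c (m (nat_lit 0x60bc904)) e) e) e) e) e) e)) (c (c (c (c (c (c (c (m (nat_lit 0x1caa84)) e) e) e) e) e) e) e)) (c (c (c (c (c (c (c (c (m (nat_lit 0x3866b350)) e) e) e) e) e) e) e) e)))) (c (c (c (c (c (c (c (c (c (m (nat_lit 0x155324f28)) (c (m (nat_lit 0x56eefaf8)) (c (p (nat_lit 0x2b8a6560)) e))) (c (c (m (nat_lit 0x15823fbc)) (c (p (nat_lit 0x15d8480c)) e)) (c (c (m (nat_lit 0x98dc0)) e) e))) (c (c (c (m (nat_lit 0x15823fbc)) (c (p (nat_lit 0x15d8480c)) e)) (c (c (m (nat_lit 0x4c74cc)) e) e)) (c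 (c (c (m (nat_lit 0x98dc0)) e) e) e))) (c (c (c (c (p (nat_lit 0x98ef20)) (c (m (nat_lit 0xbf2794)) e)) (c (c (m (nat_lit 0x5f9100)) e) e)) (c (c (c (m (nat_lit 0x5f9100)) e) e) e)) (c (c (c (c (m (nat_lit 0x1319dc)) e) e) e) e))) (c (c (c (c (c (m (nat_lit 0x15823fbc)) (c (p (nat_lit 0x15d8480c)) e)) (c (c (m (nat_lit 0x263100)) e) e)) (c (c (c (m (nat_lit 0x4c74c0)) e) e) e)) (c (c (c (c (m (nat_lit 0x560538)) e) e) e) e)) (c (c (c (c (c (m (nat_lit 0x98dc0)) e) e) e) e) e))) (c (c (c (c (c (c (m (nat_lit 0x15823fbc)) (c (p (nat_lit 0x15d8480c)) e)) (c (c (m (nat_lit 0x4c74c0)) e) e)) (c (c (c (m (nat_lit 0x263100)) e) e) e)) (c (c (c (c (m (nat_lit 0x560538)) e) e) e) e)) (c (c (c (c (c (m (nat_lit 0x4c74cc)) e) e) e) e) e)) (c (c (c (c (c (c (m (nat_lit 0x98dc0)) e) e) e) e) e) e))) (c (c (c (c (c (c (c (p (nat_lit 0x98ef20)) (c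 (m (nat_lit 0xbf2794)) e)) (c (c (m (nat_lit 0x560538)) e) e)) (c (c (c (m (nat_lit 0x560538)) e) e) e)) (c (c (c (c (m (nat_lit 0x261858)) e) e) e) e)) (c (c (c (c (c (m (nat_lit 0x5f9100)) e) e) e) e) e)) (c (c (c (c (c (c (m (nat_lit 0x5f9100)) e) e) e) e) e) e)) (c (c (c (c (c (c (c (m (nat_lit 0x1319dc)) e) e) e) e) e) e) e))) (c (c (c (c (c (c (c (c (p (nat_lit 0x38d9bb08)) (c (m (nat_lit 0xe51490)) e)) (c (c (m (nat_lit 0x3958c8)) e) e)) (c (c (c (m (nat_lit 0x3958c8)) e) e) e)) (c (c (c (c (m (nat_lit 0x3958c8)) e) e) e) e)) (c (c (c (c (c (m (nat_lit 0x3958c8)) e) e) e) e) e)) (c (c (c (c (c (c (m (nat_lit 0x3958c8)) e) e) e) e) e) e)) (c (c (c (c (c (c (c (m (nat_lit 0x3958c8)) e) e) e) e) e) e) e)) (c (c (c (c (c (c (c (c (m (nat_lit 0x99fda40)) e) e) e) e) e) e) e) e))) (c (c (c (c (c (c (c (c (c (p (nat_lit 0xc1dd40bc))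 (c (m (nat_lit 0x5ef1988)) e)) (c (c (m (nat_lit 0x263778)) e) e)) (c (c (c (m (nat_lit 0x1caa84)) e) e) e)) (c (c (c (c (m (nat_lit 0x60bc904)) e) e) e) e)) (c (c (c (c (c (m (nat_lit 0x263778)) e) e) e) e) e)) (c (c (c (c (c (c (m (nat_lit 0x1caa84)) e) e) e) e) e) e)) (c (c (c (c (c (c (c (m (nat_lit 0x60bc904)) e) e) e) e) e) e) e)) (c (c (c (c (c (c (c (c (m (nat_lit 0x99fda40)) e) e) e) e) e) e) e) e)) (c (c (c (c (c (c (c (c (c (m (nat_lit 0x3866b350)) e) e) e) e) e) e) e) e) e)))) (c (c (c (c (c (c (c (c (c (c (m (nat_lit 0x19029cdf8)) (c (p (nat_lit 0x35535570)) (c (m (nat_lit 0xe54c10)) e))) (c (c (p (nat_lit 0x2b51a358)) (c (m (nat_lit 0xe708f28)) e)) (c (c (m (nat_lit 0xe5d6a60)) e) e))) (c (c (c (p (nat_lit 0xfa10298)) (c (m (nat_lit 0x367e9f0)) e)) (c (c (m (nat_lit 0x2fc76c)) e) e)) (c (c (c (m (nat_lit 0x311e314)) e)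 e) e))) (c (c (c (c (p (nat_lit 0xfa10298)) (c (m (nat_lit 0x367e9f0)) e)) (c (c (m (nat_lit 0x2fc76c)) e) e)) (c (c (c (m (nat_lit 0x3956e8)) e) e) e)) (c (c (c (c (m (nat_lit 0x311e314)) e) e) e) e))) (c (c (c (c (c (p (nat_lit 0x2b51a358)) (c (m (nat_lit 0xe708f28)) e)) (c (c (m (nat_lit 0x1c94a6f0)) e) e)) (c (c (c (m (nat_lit 0x263a48)) e) e) e)) (c (c (c (c (m (nat_lit 0x263a48)) e) e) e) e)) (c (c (c (c (c (m (nat_lit 0xe5d6a60)) e) e) e) e) e))) (c (c (c (c (c (c (p (nat_lit 0xfa10298)) (c (m (nat_lit 0x367e9f0)) e)) (c (c (m (nat_lit 0x263a48)) e) e)) (c (c (c (m (nat_lit 0x623c5e0)) e) e) e)) (c (c (c (c (m (nat_lit 0x4c71c0)) e) e) e) e)) (c (c (c (c (c (m (nat_lit 0x2fc76c)) e) e) e) e) e)) (c (c (c (c (c (c (m (nat_lit 0x311e314)) e) e) e) e) e) e))) (c (c (c (c (c (c (c (p (nat_lit 0xfa10298)) (c (m (nat_lit 0x367e9f0))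 e)) (c (c (m (nat_lit 0x263a48)) e) e)) (c (c (c (m (nat_lit 0x4c71c0)) e) e) e)) (c (c (c (c (m (nat_lit 0x623c5e0)) e) e) e) e)) (c (c (c (c (c (m (nat_lit 0x2fc76c)) e) e) e) e) e)) (c (c (c (c (c (c (m (nat_lit 0x3956e8)) e) e) e) e) e) e)) (c (c (c (c (c (c (c (m (nat_lit 0x311e314)) e) e) e) e) e) e) e))) (c (c (c (c (c (c (c (c (p (nat_lit 0xc1dd40bc)) (c (m (nat_lit 0x5ef1988)) e)) (c (c (m (nat_lit 0x1caa84)) e) e)) (c (c (c (m (nat_lit 0x60bc904)) e) e) e)) (c (c (c (c (m (nat_lit 0x263778)) e) e) e) e)) (c (c (c (c (c (m (nat_lit 0x1caa84)) e) e) e) e) e)) (c (c (c (c (c (c (m (nat_lit 0x60bc904)) e) e) e) e) e) e)) (c (c (c (c (c (c (c (m (nat_lit 0x263778)) e) e) e) e) e) e) e)) (c (c (c (c (c (c (c (c (m (nat_lit 0x979a550)) e) e) e) e) e) e) e) e))) (c (c (c (c (c (c (c (c (c (p (nat_lit 0xc1dd40bc)) (c (m (nat_lit 0x5ef1988))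 e)) (c (c (m (nat_lit 0x1caa84)) e) e)) (c (c (c (m (nat_lit 0x263778)) e) e) e)) (c (c (c (c (m (nat_lit 0x60bc904)) e) e) e) e)) (c (c (c (c (c (m (nat_lit 0x1caa84)) e) e) e) e) e)) (c (c (c (c (c (c (m (nat_lit 0x263778)) e) e) e) e) e) e)) (c (c (c (c (c (c (c (m (nat_lit 0x60bc904)) e) e) e) e) e) e) e)) (c (c (c (c (c (c (c (c (m (nat_lit 0x99fda40)) e) e) e) e) e) e) e) e)) (c (c (c (c (c (c (c (c (c (m (nat_lit 0x979a550)) e) e) e) e) e) e) e) e) e))) (c (c (c (c (c (c (c (c (c (c (p (nat_lit 0xd7d4bb70)) (c (p (nat_lit 0xf0)) e)) (c (c (m (nat_lit 0x131550)) e) e)) (c (c (c (m (nat_lit 0x98dc0)) e) e) e)) (c (c (c (c (m (nat_lit 0x98dc0)) e) e) e) e)) (c (c (c (c (c (m (nat_lit 0x131550)) e) e) e) e) e)) (c (c (c (c (c (c (m (nat_lit 0x98dc0)) e) e) e) e) e) e)) (c (c (c (c (c (c (c (m (nat_lit 0x98dc0)) e) e) e) e) e) e)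 e)) (c (c (c (c (c (c (c (c (m (nat_lit 0x3866b350)) e) e) e) e) e) e) e) e)) (c (c (c (c (c (c (c (c (c (m (nat_lit 0x3866b350)) e) e) e) e) e) e) e) e) e)) (c (c (c (c (c (c (c (c (c (c (m (nat_lit 0x33a9dee0)) e) e) e) e) e) e) e) e) e) e)))))

theorem c1 : trsOK col trs = true := by decide +kernel
theorem c2 : Nat.ble (Nat.mul (nat_lit 40) (nat_lit 4556)) (nat_lit 4294967295) = true := by decide +kernel
theorem c3 : Nat.beq (tabK (nat_lit 40) (List.ofFn s10)) kt = true := by decide +kernel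
theorem c4 : okE trs E = true := by decide +kernel
theorem c5 : dE E (nat_lit 4) = true := by decide +kernel
theorem c6 : cmpK (nat_lit 10) (nat_lit 4) kt E T = true := by decide +kernel
theorem c7 : bndK (nat_lit 10) (nat_lit 4) (Nat.pow (nat_lit 2) (nat_lit 40)) E T = true := by decide +kernel

theorem c0 : Fl.codeB col = 7 := by decide +kernel

theorem own : Fl.OwnOK 4 T 7 :=
  own_ok c0 c1 c2 c3 c4 c5 c6 c7

end H7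

end Own

end HR
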