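import Pool.Agent.Lib.MP_a1b8b7_co.B.OwnOK

set_option autoImplicit false

namespace HR

namespace Own

namespace H77

open Chk

def col : Fin 10 → Bool := ![true, false, true, true, false, false, true, false, false, false]

def trs : List ℕ := [nat_lit 2420, nat_lit 2437]

def kt : ℕ := nat_lit 0x28000000c80000034800000898000017e800003c50000086100000e8f80001b1200002c7e0

open Ex in
noncomputable def E : Ex := (a (a (a (a (u (nat_lit 9) (v (nat_lit 9) (v (nat_lit 9) (v (nat_lit 9) (k (nat_lit 0x131958)))))) (v (nat_lit 8) (u (nat_lit 9) (v (nat_lit 9) (v (nat_lit 9) (k (nat_lit 0x98d0c))))))) (a (u (nat_lit 8) (v (nat_lit 8) (a (v (nat_lit 9) (v (nat_lit 9) (k (nat_lit 0x98d00)))) (v (nat_lit 8) (a (v (nat_lit 9) (k (nat_lit 0x98d18))) (v (nat_lit 8) (k (nat_lit 0x98d60)))))))) (a (v (nat_lit 7) (a (u (nat_lit 9) (v (nat_lit 9) (v (nat_lit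 9) (k (nat_lit 0x98cc4))))) (v (nat_lit 7) (a (v (nat_lit 8) (u (nat_lit 9) (k (nat_lit 0x98d36)))) (v (nat_lit 7) (u (nat_lit 9) (k (nat_lit 0x98cee)))))))) (u (nat_lit 7) (a (v (nat_lit 8) (a (v (nat_lit 9) (v (nat_lit 9) (k (nat_lit 0x98c76)))) (v (nat_lit 8) (a (v (nat_lit 9) (k (nat_lit 0x98cc4))) (v (nat_lit 8) (k (nat_lit 0x98d54))))))) (v (nat_lit 7) (a (v (nat_lit 9) (v (nat_lit 9) (k (nat_lit 0x98cd0)))) (a (v (nat_lit 8) (v (nat_lit 8) (k (nat_lit 0x98d30)))) (v (nat_lit 7) (a (v (nat_lit 8) (k (nat_lit 0x98d8a))) (v (nat_lit 7) (k (nat_lit 0x98d90))))))))))))) (a (a (v (nat_lit 6) (a (a (u (nat_lit 9) (v (nat_lit 9) (v (nat_lit 9) (k (nat_lit 0xd8adfa))))) (a (v (nat_lit 8) (a (u (nat_lit 9) (v (nat_lit 9) (k (nat_lit 0x99c36)))) (v (nat_lit 8) (u (nat_lit 9) (k (nat_lit 0x99db6)))))) (u (nat_lit 8) (v (nat_lit 8) (v (nat_lit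 8) (k (nat_lit 0x9ace6))))))) (a (v (nat_lit 7) (v (nat_lit 7) (a (u (nat_lit 9) (k (nat_lit 0x99354))) (u (nat_lit 8) (k (nat_lit 0x992b8)))))) (a (u (nat_lit 7) (a (v (nat_lit 9) (v (nat_lit 9) (k (nat_lit 0x98d66)))) (a (v (nat_lit 8) (a (v (nat_lit 9) (k (nat_lit 0x9a782))) (v (nat_lit 8) (k (nat_lit 0x998a0))))) (v (nat_lit 7) (v (nat_lit 7) (k (nat_lit 0x1619dc0))))))) (v (nat_lit 6) (a (u (nat_lit 9) (v (nat_lit 9) (k (nat_lit 0x18d7100)))) (a (u (nat_lit 7) (u (nat_lit 9) (k (nat_lit 0xa34e2)))) (v (nat_lit 6) (a (u (nat_lit 9) (k (nat_lit 0x990cc))) (a (u (nat_lit 8) (k (nat_lit 0x9904e))) (u (nat_lit 7) (k (nat_lit 0x98fac))))))))))))) (u (nat_lit 6) (a (v (nat_lit 6) (a (a (v (nat_lit 9) (v (nat_lit 9) (k (nat_lit 0x98e14)))) (v (nat_lit 8) (a (v (nat_lit 9) (k (nat_lit 0x99792))) (v (nat_lit 8) (k (nat_lit 0x9953a)))))) (a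 (v (nat_lit 7) (a (v (nat_lit 9) (k (nat_lit 0x99288))) (a (v (nat_lit 8) (k (nat_lit 0x99672))) (v (nat_lit 7) (k (nat_lit 0x99e04)))))) (v (nat_lit 6) (a (a (v (nat_lit 9) (k (nat_lit 0x98eda))) (u (nat_lit 9) (k (nat_lit 0x396882)))) (a (v (nat_lit 8) (k (nat_lit 0x9935a))) (a (v (nat_lit 7) (k (nat_lit 0x990a8))) (v (nat_lit 6) (k (nat_lit 0x99102)))))))))) (u (nat_lit 6) (v (nat_lit 6) (v (nat_lit 6) (k (nat_lit 0x993de)))))))) (a (v (nat_lit 5) (a (a (u (nat_lit 9) (v (nat_lit 9) (v (nat_lit 9) (k (nat_lit 0x98d0c))))) (a (u (nat_lit 8) (a (v (nat_lit 9) (v (nat_lit 9) (k (nat_lit 0x98ca0)))) (v (nat_lit 8) (v (nat_lit 8) (k (nat_lit 0x98d4e)))))) (v (nat_lit 7) (a (u (nat_lit 9) (v (nat_lit 9) (k (nat_lit 0x98dde)))) (a (v (nat_lit 8) (u (nat_lit 9) (k (nat_lit 0x98d5a)))) (v (nat_lit 7) (u (nat_lit 9) (k (nat_lit 0x98d3c)))))))))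 (a (a (u (nat_lit 7) (a (u (nat_lit 8) (u (nat_lit 8) (k (nat_lit 0x98d1e)))) (v (nat_lit 7) (a (v (nat_lit 8) (k (nat_lit 0x98d60))) (v (nat_lit 7) (k (nat_lit 0x98526))))))) (v (nat_lit 6) (a (a (u (nat_lit 9) (v (nat_lit 9) (k (nat_lit 0x9aaf4)))) (v (nat_lit 8) (u (nat_lit 9) (k (nat_lit 0x9cf24))))) (a (u (nat_lit 8) (v (nat_lit 8) (k (nat_lit 0x995fa)))) (a (v (nat_lit 7) (u (nat_lit 8) (k (nat_lit 0x993e4)))) (u (nat_lit 7) (v (nat_lit 9) (k (nat_lit 0x9e706))))))))) (a (u (nat_lit 6) (v (nat_lit 6) (a (a (v (nat_lit 9) (k (nat_lit 0x994f2))) (v (nat_lit 8) (k (nat_lit 0x998a6)))) (a (v (nat_lit 7) (k (nat_lit 0x1299d2c))) (v (nat_lit 6) (k (nat_lit 0x996d2))))))) (v (nat_lit 5) (a (a (u (nat_lit 8) (a (v (nat_lit 9) (k (nat_lit 0x98d2a))) (v (nat_lit 8) (k (nat_lit 0x98d2a))))) (v (nat_lit 7) (a (u (nat_lit 9) (k (nat_lit 0x98ca6)))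 (u (nat_lit 8) (k (nat_lit 0x98d84)))))) (a (u (nat_lit 7) (v (nat_lit 7) (k (nat_lit 0x963de)))) (a (v (nat_lit 6) (a (u (nat_lit 9) (k (nat_lit 0x9936c))) (u (nat_lit 8) (k (nat_lit 0x98f88))))) (u (nat_lit 6) (v (nat_lit 6) (k (nat_lit 0x9905a)))))))))))) (a (u (nat_lit 5) (a (a (v (nat_lit 8) (a (v (nat_lit 9) (v (nat_lit 9) (k (nat_lit 0x98ca0)))) (v (nat_lit 8) (v (nat_lit 9) (k (nat_lit 0x98d2a)))))) (a (v (nat_lit 7) (v (nat_lit 8) (v (nat_lit 8) (k (nat_lit 0x98cb2))))) (v (nat_lit 6) (a (v (nat_lit 7) (v (nat_lit 7) (k (nat_lit 0x9955e)))) (v (nat_lit 6) (v (nat_lit 6) (k (nat_lit 0x98fe2)))))))) (a (u (nat_lit 6) (u (nat_lit 9) (u (nat_lit 9) (k (nat_lit 0x9a524))))) (a (v (nat_lit 5) (a (a (v (nat_lit 9) (v (nat_lit 9) (k (nat_lit 0x98d00)))) (v (nat_lit 8) (v (nat_lit 8) (k (nat_lit 0x98d2a))))) (a (v (nat_lit 6) (a (v (nat_lit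 7) (k (nat_lit 0x992a0))) (a (u (nat_lit 7) (k (nat_lit 0x9c198))) (v (nat_lit 6) (k (nat_lit 0x99912)))))) (v (nat_lit 5) (a (a (v (nat_lit 9) (k (nat_lit 0x98d18))) (v (nat_lit 8) (k (nat_lit 0x98d4e)))) (a (v (nat_lit 7) (k (nat_lit 0x9873c))) (a (v (nat_lit 6) (k (nat_lit 0x99294))) (v (nat_lit 5) (k (nat_lit 0x98d60)))))))))) (u (nat_lit 5) (v (nat_lit 7) (v (nat_lit 7) (k (nat_lit 0x96372))))))))) (t (nat_lit 5) (nat_lit 8) (nat_lit 9) (a (a (u (nat_lit 9) (v (nat_lit 9) (v (nat_lit 9) (k (nat_lit 0x13704c))))) (a (u (nat_lit 8) (u (nat_lit 8) (u (nat_lit 8) (k (nat_lit 0x99894))))) (u (nat_lit 7) (a (u (nat_lit 9) (v (nat_lit 9) (k (nat_lit 0x66cc402)))) (a (v (nat_lit 7) (a (v (nat_lit 9) (k (nat_lit 0x338b2de))) (u (nat_lit 8) (k (nat_lit 0x15e9250))))) (u (nat_lit 7) (v (nat_lit 7) (k (nat_lit 0xd7232ba))))))))) (a (a (v (nat_lit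 6) (a (a (u (nat_lit 9) (u (nat_lit 9) (k (nat_lit 0xaaf50f8)))) (u (nat_lit 8) (v (nat_lit 8) (k (nat_lit 0x9b1f6))))) (a (u (nat_lit 7) (u (nat_lit 7) (k (nat_lit 0x9afd4)))) (v (nat_lit 6) (u (nat_lit 8) (k (nat_lit 0x749af78))))))) (u (nat_lit 6) (u (nat_lit 6) (v (nat_lit 6) (k (nat_lit 0x1320d8)))))) (a (u (nat_lit 5) (a (a (u (nat_lit 8) (u (nat_lit 8) (k (nat_lit 0x99282)))) (u (nat_lit 7) (a (u (nat_lit 9) (k (nat_lit 0xacff50))) (v (nat_lit 7) (k (nat_lit 0x1b1244be)))))) (a (v (nat_lit 6) (v (nat_lit 6) (k (nat_lit 0x7a9ec6e)))) (u (nat_lit 5) (a (u (nat_lit 8) (k (nat_lit 0x99282))) (u (nat_lit 5) (k (nat_lit 0x99894)))))))) (t (nat_lit 5) (nat_lit 8) (nat_lit 9) (a (v (nat_lit 6) (u (nat_lit 8) (k (nat_lit 0x232a19c)))) (u (nat_lit 6) (v (nat_lit 6) (k (nat_lit 0x298aa6)))))))))))))) (a (a (a (v (nat_lit 4) (a (a (a (u (nat_lit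 9) (v (nat_lit 9) (v (nat_lit 9) (k (nat_lit 0x98cc4))))) (v (nat_lit 8) (a (u (nat_lit 9) (v (nat_lit 9) (k (nat_lit 0x98dde)))) (v (nat_lit 8) (u (nat_lit 9) (k (nat_lit 0x98ca6))))))) (a (u (nat_lit 8) (v (nat_lit 8) (v (nat_lit 8) (k (nat_lit 0x9873c))))) (a (u (nat_lit 7) (a (a (v (nat_lit 9) (v (nat_lit 9) (k (nat_lit 0x98b98)))) (v (nat_lit 8) (v (nat_lit 8) (k (nat_lit 0x9912c))))) (a (v (nat_lit 7) (v (nat_lit 7) (k (nat_lit 0x98d84)))) (u (nat_lit 7) (a (v (nat_lit 9) (k (nat_lit 0x9a9aa))) (v (nat_lit 8) (k (nat_lit 0x992be)))))))) (v (nat_lit 6) (a (u (nat_lit 9) (v (nat_lit 9) (k (nat_lit 0x9953a)))) (u (nat_lit 8) (v (nat_lit 9) (k (nat_lit 0x9a884))))))))) (a (a (u (nat_lit 6) (v (nat_lit 6) (a (a (v (nat_lit 9) (k (nat_lit 0x995ee))) (v (nat_lit 8) (k (nat_lit 0x27a5b16)))) (a (v (nat_lit 7) (k (nat_lit 0x9b10c))) (v (nat_lit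 6) (k (nat_lit 0x9873c))))))) (v (nat_lit 5) (a (a (v (nat_lit 8) (u (nat_lit 9) (k (nat_lit 0x98d5a)))) (u (nat_lit 7) (a (a (v (nat_lit 9) (k (nat_lit 0x9976e))) (v (nat_lit 8) (k (nat_lit 0x9831c)))) (a (v (nat_lit 7) (k (nat_lit 0x989a6))) (u (nat_lit 7) (k (nat_lit 0x98976))))))) (a (u (nat_lit 6) (v (nat_lit 6) (k (nat_lit 0x98ff4)))) (v (nat_lit 5) (u (nat_lit 8) (k (nat_lit 0x98cb2)))))))) (a (u (nat_lit 5) (a (v (nat_lit 8) (v (nat_lit 8) (k (nat_lit 0x98d84)))) (v (nat_lit 7) (u (nat_lit 8) (k (nat_lit 0x12d7e8)))))) (a (t (nat_lit 5) (nat_lit 8) (nat_lit 9) (t (nat_lit 5) (nat_lit 8) (nat_lit 9) (u (nat_lit 7) (k (nat_lit 0x9941a))))) (v (nat_lit 4) (a (a (v (nat_lit 8) (u (nat_lit 9) (k (nat_lit 0x98d3c)))) (a (u (nat_lit 8) (u (nat_lit 8) (k (nat_lit 0x96372)))) (u (nat_lit 7) (a (v (nat_lit 9) (k (nat_lit 0x9abea))) (v (nat_lit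 7) (k (nat_lit 0x98d3c))))))) (a (u (nat_lit 6) (a (a (v (nat_lit 9) (k (nat_lit 0x98d2a))) (v (nat_lit 8) (k (nat_lit 0x98d72)))) (a (v (nat_lit 7) (k (nat_lit 0x98d24))) (v (nat_lit 6) (k (nat_lit 0x990b4)))))) (a (v (nat_lit 5) (a (u (nat_lit 9) (k (nat_lit 0x98d36))) (a (u (nat_lit 7) (k (nat_lit 0x992ee))) (u (nat_lit 6) (k (nat_lit 0x98cf4)))))) (v (nat_lit 4) (a (u (nat_lit 9) (k (nat_lit 0x98cee))) (u (nat_lit 6) (k (nat_lit 0x98ebc)))))))))))))) (u (nat_lit 4) (a (a (a (v (nat_lit 7) (a (v (nat_lit 9) (v (nat_lit 9) (k (nat_lit 0x98b98)))) (a (v (nat_lit 8) (v (nat_lit 9) (k (nat_lit 0x9976e)))) (v (nat_lit 7) (a (v (nat_lit 9) (k (nat_lit 0x9abea))) (v (nat_lit 8) (k (nat_lit 0x992ee)))))))) (u (nat_lit 7) (v (nat_lit 8) (a (v (nat_lit 9) (k (nat_lit 0x9995a))) (v (nat_lit 8) (k (nat_lit 0x9911a))))))) (a (v (nat_lit 6) (a (a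 (v (nat_lit 8) (v (nat_lit 8) (k (nat_lit 0x99204)))) (v (nat_lit 7) (a (v (nat_lit 9) (k (nat_lit 0x42100b0))) (a (v (nat_lit 8) (k (nat_lit 0x998e2))) (v (nat_lit 7) (k (nat_lit 0xa1d8a))))))) (a (u (nat_lit 7) (a (u (nat_lit 9) (k (nat_lit 0x9a344))) (v (nat_lit 7) (k (nat_lit 0x9931e))))) (v (nat_lit 6) (a (v (nat_lit 7) (k (nat_lit 0xd13ce44))) (v (nat_lit 6) (k (nat_lit 0x992a0)))))))) (u (nat_lit 6) (u (nat_lit 7) (v (nat_lit 7) (k (nat_lit 0x95aa8))))))) (a (a (v (nat_lit 5) (a (a (v (nat_lit 9) (v (nat_lit 9) (k (nat_lit 0x98c76)))) (v (nat_lit 7) (v (nat_lit 8) (k (nat_lit 0x9831c))))) (a (u (nat_lit 7) (a (v (nat_lit 9) (k (nat_lit 0x9995a))) (v (nat_lit 8) (k (nat_lit 0x134844))))) (a (v (nat_lit 6) (a (v (nat_lit 9) (k (nat_lit 0xc16c35c))) (a (v (nat_lit 8) (k (nat_lit 0x99c9c))) (v (nat_lit 7) (k (nat_lit 0x98fca)))))) (v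 (nat_lit 5) (a (a (v (nat_lit 9) (k (nat_lit 0x98cc4))) (v (nat_lit 7) (k (nat_lit 0x9912c)))) (a (u (nat_lit 7) (k (nat_lit 0x9911a))) (a (v (nat_lit 6) (k (nat_lit 0x991ce))) (v (nat_lit 5) (k (nat_lit 0x98d54))))))))))) (u (nat_lit 5) (a (v (nat_lit 6) (u (nat_lit 9) (k (nat_lit 0x15983dc)))) (a (v (nat_lit 5) (v (nat_lit 6) (k (nat_lit 0x1004321a)))) (u (nat_lit 5) (v (nat_lit 8) (k (nat_lit 0x98d1e)))))))) (a (t (nat_lit 5) (nat_lit 8) (nat_lit 9) (a (u (nat_lit 9) (v (nat_lit 9) (k (nat_lit 0x66cc402)))) (a (u (nat_lit 8) (u (nat_lit 9) (k (nat_lit 0xacff50)))) (t (nat_lit 5) (nat_lit 8) (nat_lit 9) (v (nat_lit 7) (k (nat_lit 0x9941a))))))) (a (v (nat_lit 4) (a (a (v (nat_lit 9) (v (nat_lit 9) (k (nat_lit 0x98cd0)))) (a (v (nat_lit 8) (v (nat_lit 8) (k (nat_lit 0x963de)))) (v (nat_lit 7) (a (v (nat_lit 8) (k (nat_lit 0x989a6))) (v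 (nat_lit 7) (k (nat_lit 0x98d3c))))))) (a (v (nat_lit 5) (a (v (nat_lit 8) (k (nat_lit 0x98d60))) (v (nat_lit 5) (k (nat_lit 0x98d30))))) (a (t (nat_lit 5) (nat_lit 8) (nat_lit 9) (a (v (nat_lit 9) (k (nat_lit 0x338b2de))) (a (u (nat_lit 8) (k (nat_lit 0x1b1244be))) (u (nat_lit 5) (k (nat_lit 0x15e9250)))))) (v (nat_lit 4) (a (a (v (nat_lit 8) (k (nat_lit 0x98526))) (v (nat_lit 7) (k (nat_lit 0x98d84)))) (a (v (nat_lit 5) (k (nat_lit 0x98d8a))) (v (nat_lit 4) (k (nat_lit 0x98d90)))))))))) (u (nat_lit 4) (a (a (v (nat_lit 7) (a (v (nat_lit 9) (k (nat_lit 0x9a9aa))) (v (nat_lit 8) (k (nat_lit 0x98976))))) (v (nat_lit 6) (u (nat_lit 9) (k (nat_lit 0x1a712dda))))) (a (v (nat_lit 5) (v (nat_lit 7) (k (nat_lit 0x992be)))) (v (nat_lit 4) (a (v (nat_lit 6) (k (nat_lit 0x9ad04))) (t (nat_lit 5) (nat_lit 8) (nat_lit 9) (k (nat_lit 0xd7232ba))))))))))))))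 (a (t (nat_lit 4) (nat_lit 7) (nat_lit 9) (a (a (a (u (nat_lit 9) (u (nat_lit 9) (v (nat_lit 9) (k (nat_lit 0xd4dd9b0))))) (u (nat_lit 7) (a (u (nat_lit 8) (v (nat_lit 8) (k (nat_lit 0x14451072)))) (v (nat_lit 7) (u (nat_lit 9) (k (nat_lit 0x9ab00))))))) (a (v (nat_lit 6) (u (nat_lit 8) (v (nat_lit 9) (k (nat_lit 0xa3cec))))) (u (nat_lit 6) (a (u (nat_lit 9) (v (nat_lit 9) (k (nat_lit 0x31f14de)))) (u (nat_lit 8) (u (nat_lit 9) (k (nat_lit 0x8d3f32a)))))))) (a (a (v (nat_lit 5) (a (u (nat_lit 7) (a (v (nat_lit 8) (k (nat_lit 0x99582))) (v (nat_lit 7) (k (nat_lit 0xc72f528))))) (u (nat_lit 6) (a (u (nat_lit 7) (k (nat_lit 0x1d1f4ce))) (u (nat_lit 6) (k (nat_lit 0x9980a))))))) (u (nat_lit 5) (v (nat_lit 5) (u (nat_lit 6) (k (nat_lit 0x9a710)))))) (a (t (nat_lit 5) (nat_lit 8) (nat_lit 9) (a (u (nat_lit 6) (u (nat_lit 6) (k (nat_lit 0x9b886))))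 (a (u (nat_lit 5) (u (nat_lit 8) (k (nat_lit 0x2aa5570)))) (t (nat_lit 5) (nat_lit 8) (nat_lit 9) (u (nat_lit 7) (k (nat_lit 0x5969106))))))) (a (u (nat_lit 4) (a (a (u (nat_lit 7) (u (nat_lit 7) (k (nat_lit 0x99030)))) (a (u (nat_lit 6) (a (u (nat_lit 9) (k (nat_lit 0x9cf6c))) (v (nat_lit 8) (k (nat_lit 0xc779886))))) (v (nat_lit 5) (v (nat_lit 8) (k (nat_lit 0x99582)))))) (a (a (u (nat_lit 5) (v (nat_lit 5) (k (nat_lit 0x14451072)))) (t (nat_lit 5) (nat_lit 8) (nat_lit 9) (a (u (nat_lit 7) (k (nat_lit 0x132348))) (t (nat_lit 5) (nat_lit 8) (nat_lit 9) (k (nat_lit 0x5969106)))))) (a (v (nat_lit 4) (a (u (nat_lit 9) (k (nat_lit 0x9ab00))) (v (nat_lit 8) (k (nat_lit 0xc72f528))))) (u (nat_lit 4) (u (nat_lit 7) (k (nat_lit 0x99030)))))))) (t (nat_lit 4) (nat_lit 7) (nat_lit 9) (a (a (u (nat_lit 9) (u (nat_lit 9) (k (nat_lit 0x2eee04))))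 (a (u (nat_lit 7) (u (nat_lit 9) (k (nat_lit 0x60f048)))) (v (nat_lit 6) (u (nat_lit 8) (k (nat_lit 0x997d4)))))) (a (a (v (nat_lit 5) (u (nat_lit 8) (k (nat_lit 0x99798)))) (u (nat_lit 5) (v (nat_lit 8) (k (nat_lit 0x99798))))) (a (t (nat_lit 5) (nat_lit 8) (nat_lit 9) (a (u (nat_lit 8) (k (nat_lit 0x3686148))) (u (nat_lit 5) (k (nat_lit 0x3686148))))) (u (nat_lit 4) (u (nat_lit 9) (k (nat_lit 0x60f048))))))))))))) (a (v (nat_lit 3) (a (a (a (u (nat_lit 9) (v (nat_lit 9) (v (nat_lit 9) (k (nat_lit 0xd8adfa))))) (a (v (nat_lit 8) (a (u (nat_lit 9) (v (nat_lit 9) (k (nat_lit 0x9aaf4)))) (v (nat_lit 8) (u (nat_lit 9) (k (nat_lit 0x9936c)))))) (u (nat_lit 8) (v (nat_lit 8) (v (nat_lit 8) (k (nat_lit 0x99294))))))) (a (a (v (nat_lit 7) (u (nat_lit 9) (v (nat_lit 9) (k (nat_lit 0x9953a))))) (u (nat_lit 7) (a (v (nat_lit 8) (a (v (nat_lit 9)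 (k (nat_lit 0xc16c35c))) (v (nat_lit 8) (k (nat_lit 0x991ce))))) (a (u (nat_lit 8) (a (u (nat_lit 9) (k (nat_lit 0x15983dc))) (v (nat_lit 8) (k (nat_lit 0x1004321a))))) (u (nat_lit 7) (a (u (nat_lit 9) (k (nat_lit 0x1a712dda))) (v (nat_lit 7) (k (nat_lit 0x9ad04))))))))) (a (v (nat_lit 6) (a (a (u (nat_lit 9) (v (nat_lit 9) (k (nat_lit 0x12fbdc)))) (a (v (nat_lit 8) (u (nat_lit 9) (k (nat_lit 0x979a4)))) (u (nat_lit 8) (v (nat_lit 8) (k (nat_lit 0x9b08e)))))) (a (v (nat_lit 7) (a (u (nat_lit 9) (k (nat_lit 0x97758))) (u (nat_lit 8) (k (nat_lit 0x98dc6))))) (a (u (nat_lit 7) (v (nat_lit 7) (k (nat_lit 0x99408)))) (v (nat_lit 6) (a (u (nat_lit 9) (k (nat_lit 0x98ee0))) (a (u (nat_lit 8) (k (nat_lit 0x9902a))) (u (nat_lit 7) (k (nat_lit 0x98dde)))))))))) (u (nat_lit 6) (a (a (v (nat_lit 9) (v (nat_lit 9) (k (nat_lit 0x9a3a4)))) (a (u (nat_lit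 9) (v (nat_lit 9) (k (nat_lit 0x2d1f08c)))) (v (nat_lit 8) (a (v (nat_lit 9) (k (nat_lit 0xa3a16))) (v (nat_lit 8) (k (nat_lit 0x96cde))))))) (a (a (v (nat_lit 7) (a (a (v (nat_lit 9) (k (nat_lit 0x9a128))) (u (nat_lit 9) (k (nat_lit 0x99ae0)))) (a (v (nat_lit 8) (k (nat_lit 0x99282))) (v (nat_lit 7) (k (nat_lit 0x994e0)))))) (u (nat_lit 7) (u (nat_lit 9) (k (nat_lit 0x1394ab88))))) (a (v (nat_lit 6) (a (v (nat_lit 9) (k (nat_lit 0x9963c))) (a (u (nat_lit 7) (k (nat_lit 0x98e7a))) (v (nat_lit 6) (k (nat_lit 0x99a62)))))) (u (nat_lit 6) (u (nat_lit 6) (k (nat_lit 0x1453b3a8))))))))))) (a (a (v (nat_lit 5) (a (a (u (nat_lit 9) (v (nat_lit 9) (k (nat_lit 0x99c36)))) (a (v (nat_lit 8) (u (nat_lit 9) (k (nat_lit 0x9cf24)))) (u (nat_lit 7) (v (nat_lit 8) (k (nat_lit 0x99c9c)))))) (a (v (nat_lit 6) (a (u (nat_lit 9) (k (nat_lit 0x979a4))) (u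 (nat_lit 8) (k (nat_lit 0x98c8e))))) (a (u (nat_lit 6) (a (a (v (nat_lit 9) (k (nat_lit 0xb79536a))) (a (v (nat_lit 8) (k (nat_lit 0xfcdb792))) (v (nat_lit 7) (k (nat_lit 0x9bde4))))) (a (u (nat_lit 7) (k (nat_lit 0x7e1a28))) (a (v (nat_lit 6) (k (nat_lit 0x99ea0))) (u (nat_lit 6) (k (nat_lit 0x1a035aee))))))) (v (nat_lit 5) (a (u (nat_lit 9) (k (nat_lit 0x99db6))) (a (u (nat_lit 7) (k (nat_lit 0x99204))) (u (nat_lit 6) (k (nat_lit 0x9951c)))))))))) (a (u (nat_lit 5) (a (a (v (nat_lit 8) (v (nat_lit 8) (k (nat_lit 0x98f88)))) (v (nat_lit 7) (v (nat_lit 9) (k (nat_lit 0x9a884))))) (a (v (nat_lit 6) (a (v (nat_lit 8) (k (nat_lit 0x98c8e))) (a (v (nat_lit 7) (k (nat_lit 0x97488))) (v (nat_lit 6) (k (nat_lit 0x987c6)))))) (v (nat_lit 5) (a (v (nat_lit 8) (k (nat_lit 0x995fa))) (a (v (nat_lit 6) (k (nat_lit 0x9b08e))) (v (nat_lit 5) (k (nat_lit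 0x9ace6))))))))) (t (nat_lit 5) (nat_lit 8) (nat_lit 9) (a (a (u (nat_lit 9) (u (nat_lit 9) (k (nat_lit 0xaaf50f8)))) (v (nat_lit 6) (u (nat_lit 8) (k (nat_lit 0x99ea0))))) (a (u (nat_lit 5) (a (v (nat_lit 6) (k (nat_lit 0x99ea0))) (v (nat_lit 5) (k (nat_lit 0x9b1f6))))) (t (nat_lit 5) (nat_lit 8) (nat_lit 9) (a (u (nat_lit 6) (k (nat_lit 0x44fe650))) (u (nat_lit 5) (k (nat_lit 0x232a19c)))))))))) (a (a (v (nat_lit 4) (a (a (u (nat_lit 8) (v (nat_lit 8) (k (nat_lit 0x992a0)))) (a (u (nat_lit 7) (a (v (nat_lit 9) (k (nat_lit 0x42100b0))) (v (nat_lit 8) (k (nat_lit 0x98fca))))) (v (nat_lit 6) (a (u (nat_lit 9) (k (nat_lit 0x97758))) (a (u (nat_lit 8) (k (nat_lit 0x97488))) (u (nat_lit 7) (k (nat_lit 0xab3d2)))))))) (a (a (u (nat_lit 6) (a (a (v (nat_lit 9) (k (nat_lit 0x9762c))) (u (nat_lit 9) (k (nat_lit 0x95f46)))) (a (v (nat_lit 8) (k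 (nat_lit 0x98b20))) (a (v (nat_lit 7) (k (nat_lit 0x76237aa))) (v (nat_lit 6) (k (nat_lit 0x9ce7c))))))) (v (nat_lit 5) (a (u (nat_lit 7) (k (nat_lit 0x998e2))) (u (nat_lit 6) (k (nat_lit 0x996a8)))))) (a (u (nat_lit 5) (a (v (nat_lit 8) (k (nat_lit 0x993e4))) (v (nat_lit 6) (k (nat_lit 0x98dc6))))) (v (nat_lit 4) (a (a (u (nat_lit 9) (k (nat_lit 0x99354))) (u (nat_lit 8) (k (nat_lit 0x9955e)))) (a (u (nat_lit 7) (k (nat_lit 0xa1d8a))) (a (u (nat_lit 6) (k (nat_lit 0x98b80))) (u (nat_lit 5) (k (nat_lit 0x992b8))))))))))) (u (nat_lit 4) (a (a (a (v (nat_lit 9) (v (nat_lit 9) (k (nat_lit 0x98d66)))) (v (nat_lit 8) (v (nat_lit 9) (k (nat_lit 0x9e706))))) (a (u (nat_lit 8) (v (nat_lit 8) (k (nat_lit 0x9c198)))) (u (nat_lit 7) (u (nat_lit 9) (k (nat_lit 0x9a344)))))) (a (a (v (nat_lit 6) (a (v (nat_lit 7) (k (nat_lit 0xab3d2))) (v (nat_lit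 6) (k (nat_lit 0x95bc8))))) (u (nat_lit 6) (a (v (nat_lit 9) (k (nat_lit 0x97f6e))) (v (nat_lit 8) (k (nat_lit 0x96684)))))) (a (v (nat_lit 5) (a (v (nat_lit 9) (k (nat_lit 0x9a782))) (v (nat_lit 5) (k (nat_lit 0x998a0))))) (a (v (nat_lit 4) (a (a (u (nat_lit 7) (k (nat_lit 0x9931e))) (v (nat_lit 6) (k (nat_lit 0x99408)))) (a (u (nat_lit 6) (k (nat_lit 0x19bbe8))) (v (nat_lit 4) (k (nat_lit 0x1619dc0)))))) (u (nat_lit 4) (t (nat_lit 5) (nat_lit 8) (nat_lit 9) (k (nat_lit 0x9afd4)))))))))) (a (t (nat_lit 4) (nat_lit 7) (nat_lit 9) (a (u (nat_lit 5) (v (nat_lit 9) (k (nat_lit 0xa3cec)))) (t (nat_lit 4) (nat_lit 7) (nat_lit 9) (a (u (nat_lit 6) (k (nat_lit 0x94a4ba))) (u (nat_lit 5) (k (nat_lit 0x997d4))))))) (v (nat_lit 3) (a (a (a (u (nat_lit 9) (v (nat_lit 9) (k (nat_lit 0x18d7100)))) (u (nat_lit 8) (v (nat_lit 8) (k (nat_lit 0x99912)))))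 (a (v (nat_lit 6) (a (u (nat_lit 9) (k (nat_lit 0x98ee0))) (a (u (nat_lit 8) (k (nat_lit 0x987c6))) (u (nat_lit 7) (k (nat_lit 0x95bc8)))))) (u (nat_lit 6) (a (v (nat_lit 9) (k (nat_lit 0x218f328))) (a (u (nat_lit 7) (k (nat_lit 0x991f8))) (v (nat_lit 6) (k (nat_lit 0x9a5b4)))))))) (a (a (u (nat_lit 5) (a (v (nat_lit 6) (k (nat_lit 0x9902a))) (u (nat_lit 6) (k (nat_lit 0xa471e))))) (t (nat_lit 5) (nat_lit 8) (nat_lit 9) (a (u (nat_lit 8) (k (nat_lit 0x7a9ec6e))) (u (nat_lit 5) (k (nat_lit 0x749af78)))))) (a (v (nat_lit 4) (u (nat_lit 7) (k (nat_lit 0xd13ce44)))) (a (u (nat_lit 4) (a (u (nat_lit 9) (k (nat_lit 0xa34e2))) (v (nat_lit 6) (k (nat_lit 0x98dde))))) (v (nat_lit 3) (a (a (u (nat_lit 9) (k (nat_lit 0x990cc))) (a (u (nat_lit 8) (k (nat_lit 0x98fe2))) (u (nat_lit 7) (k (nat_lit 0x992a0))))) (a (u (nat_lit 6) (k (nat_lit 0x98880)))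 (a (u (nat_lit 5) (k (nat_lit 0x9904e))) (u (nat_lit 4) (k (nat_lit 0x98fac))))))))))))))))) (u (nat_lit 3) (a (a (a (u (nat_lit 8) (u (nat_lit 9) (u (nat_lit 9) (k (nat_lit 0x9a524))))) (v (nat_lit 7) (v (nat_lit 7) (a (v (nat_lit 9) (k (nat_lit 0x98d2a))) (a (v (nat_lit 8) (k (nat_lit 0x98cf4))) (v (nat_lit 7) (k (nat_lit 0x98ebc)))))))) (a (v (nat_lit 6) (a (a (v (nat_lit 9) (v (nat_lit 9) (k (nat_lit 0x9a3a4)))) (a (u (nat_lit 9) (v (nat_lit 9) (k (nat_lit 0x2d1f08c)))) (v (nat_lit 8) (a (v (nat_lit 9) (k (nat_lit 0xb79536a))) (v (nat_lit 8) (k (nat_lit 0x9951c))))))) (a (v (nat_lit 7) (a (a (v (nat_lit 9) (k (nat_lit 0x9762c))) (u (nat_lit 9) (k (nat_lit 0x95f46)))) (a (v (nat_lit 8) (k (nat_lit 0x996a8))) (v (nat_lit 7) (k (nat_lit 0x98b80)))))) (a (u (nat_lit 7) (a (v (nat_lit 9) (k (nat_lit 0x97f6e))) (v (nat_lit 7) (k (nat_lit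 0x19bbe8))))) (v (nat_lit 6) (a (v (nat_lit 9) (k (nat_lit 0x218f328))) (a (u (nat_lit 8) (k (nat_lit 0xa471e))) (v (nat_lit 6) (k (nat_lit 0x98880)))))))))) (a (u (nat_lit 6) (v (nat_lit 6) (v (nat_lit 6) (k (nat_lit 0x31868a))))) (v (nat_lit 5) (a (v (nat_lit 7) (v (nat_lit 7) (k (nat_lit 0x98d72)))) (a (v (nat_lit 6) (a (a (v (nat_lit 9) (k (nat_lit 0xa3a16))) (v (nat_lit 8) (k (nat_lit 0xfcdb792)))) (a (v (nat_lit 7) (k (nat_lit 0x98b20))) (u (nat_lit 7) (k (nat_lit 0x96684)))))) (v (nat_lit 5) (v (nat_lit 6) (k (nat_lit 0x96cde)))))))))) (a (a (t (nat_lit 5) (nat_lit 8) (nat_lit 9) (t (nat_lit 5) (nat_lit 8) (nat_lit 9) (v (nat_lit 6) (k (nat_lit 0x44fe650))))) (a (v (nat_lit 4) (a (a (v (nat_lit 7) (v (nat_lit 7) (k (nat_lit 0x98d24)))) (v (nat_lit 6) (a (a (v (nat_lit 9) (k (nat_lit 0x9a128))) (u (nat_lit 9) (k (nat_lit 0x99ae0))))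 (a (v (nat_lit 8) (k (nat_lit 0x9bde4))) (v (nat_lit 7) (k (nat_lit 0x76237aa))))))) (a (v (nat_lit 5) (v (nat_lit 6) (k (nat_lit 0x99282)))) (v (nat_lit 4) (v (nat_lit 6) (k (nat_lit 0x994e0))))))) (u (nat_lit 4) (a (v (nat_lit 6) (a (u (nat_lit 9) (k (nat_lit 0x1394ab88))) (a (v (nat_lit 8) (k (nat_lit 0x7e1a28))) (v (nat_lit 6) (k (nat_lit 0x991f8)))))) (v (nat_lit 4) (u (nat_lit 7) (k (nat_lit 0x95aa8)))))))) (a (t (nat_lit 4) (nat_lit 7) (nat_lit 9) (a (a (u (nat_lit 9) (v (nat_lit 9) (k (nat_lit 0x31f14de)))) (a (u (nat_lit 8) (v (nat_lit 8) (k (nat_lit 0x9a710)))) (u (nat_lit 7) (u (nat_lit 9) (k (nat_lit 0x9cf6c)))))) (a (a (v (nat_lit 5) (u (nat_lit 7) (k (nat_lit 0xc779886)))) (u (nat_lit 5) (u (nat_lit 9) (k (nat_lit 0x8d3f32a))))) (a (u (nat_lit 4) (v (nat_lit 8) (k (nat_lit 0x1d1f4ce)))) (t (nat_lit 4) (nat_lit 7) (nat_lit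 9) (v (nat_lit 6) (k (nat_lit 0x94a4ba)))))))) (a (v (nat_lit 3) (a (a (a (v (nat_lit 9) (v (nat_lit 9) (k (nat_lit 0x98e14)))) (v (nat_lit 8) (a (v (nat_lit 9) (k (nat_lit 0x994f2))) (v (nat_lit 8) (k (nat_lit 0x9905a)))))) (a (v (nat_lit 7) (a (v (nat_lit 9) (k (nat_lit 0x995ee))) (a (v (nat_lit 8) (k (nat_lit 0x98ff4))) (v (nat_lit 7) (k (nat_lit 0x990b4)))))) (v (nat_lit 6) (a (a (v (nat_lit 9) (k (nat_lit 0x9963c))) (v (nat_lit 8) (k (nat_lit 0x99ea0)))) (a (v (nat_lit 7) (k (nat_lit 0x9ce7c))) (v (nat_lit 6) (k (nat_lit 0x9a5b4)))))))) (a (a (v (nat_lit 5) (a (a (v (nat_lit 9) (k (nat_lit 0x99792))) (v (nat_lit 8) (k (nat_lit 0x998a6)))) (a (v (nat_lit 7) (k (nat_lit 0x27a5b16))) (v (nat_lit 5) (k (nat_lit 0x9953a)))))) (t (nat_lit 5) (nat_lit 8) (nat_lit 9) (t (nat_lit 5) (nat_lit 8) (nat_lit 9) (k (nat_lit 0x298aa6))))) (a (v (nat_lit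 4) (a (a (v (nat_lit 9) (k (nat_lit 0x99288))) (v (nat_lit 8) (k (nat_lit 0x1299d2c)))) (a (v (nat_lit 7) (k (nat_lit 0x9b10c))) (a (v (nat_lit 5) (k (nat_lit 0x99672))) (v (nat_lit 4) (k (nat_lit 0x99e04))))))) (a (u (nat_lit 4) (v (nat_lit 6) (k (nat_lit 0x98e7a)))) (v (nat_lit 3) (a (a (a (v (nat_lit 9) (k (nat_lit 0x98eda))) (u (nat_lit 9) (k (nat_lit 0x396882)))) (a (v (nat_lit 8) (k (nat_lit 0x996d2))) (v (nat_lit 7) (k (nat_lit 0x9873c))))) (a (a (v (nat_lit 6) (k (nat_lit 0x99a62))) (u (nat_lit 6) (k (nat_lit 0x31868a)))) (a (v (nat_lit 5) (k (nat_lit 0x9935a))) (a (v (nat_lit 4) (k (nat_lit 0x990a8))) (v (nat_lit 3) (k (nat_lit 0x99102))))))))))))) (u (nat_lit 3) (a (a (v (nat_lit 6) (v (nat_lit 8) (k (nat_lit 0x1a035aee)))) (t (nat_lit 4) (nat_lit 7) (nat_lit 9) (a (v (nat_lit 8) (k (nat_lit 0x9980a))) (t (nat_lit 5) (nat_lit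 8) (nat_lit 9) (k (nat_lit 0x9b886)))))) (a (v (nat_lit 3) (a (t (nat_lit 5) (nat_lit 8) (nat_lit 9) (k (nat_lit 0x1320d8))) (v (nat_lit 3) (k (nat_lit 0x993de))))) (u (nat_lit 3) (v (nat_lit 6) (k (nat_lit 0x1453b3a8))))))))))))))) (a (a (v (nat_lit 2) (a (a (a (u (nat_lit 9) (v (nat_lit 9) (v (nat_lit 9) (k (nat_lit 0x131574))))) (a (v (nat_lit 7) (a (u (nat_lit 9) (v (nat_lit 9) (k (nat_lit 0x993cc)))) (v (nat_lit 7) (u (nat_lit 9) (k (nat_lit 0x98dba)))))) (u (nat_lit 7) (a (u (nat_lit 8) (u (nat_lit 9) (k (nat_lit 0x99be2)))) (v (nat_lit 7) (a (v (nat_lit 8) (k (nat_lit 0x9937e))) (v (nat_lit 7) (k (nat_lit 0x99348))))))))) (a (v (nat_lit 6) (v (nat_lit 6) (a (u (nat_lit 9) (k (nat_lit 0x99126))) (a (u (nat_lit 8) (k (nat_lit 0x9982e))) (u (nat_lit 7) (k (nat_lit 0x996a8))))))) (a (u (nat_lit 6) (a (a (v (nat_lit 9) (v (nat_lit 9)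 (k (nat_lit 0x98bb6)))) (v (nat_lit 8) (a (v (nat_lit 9) (k (nat_lit 0x9645c))) (v (nat_lit 8) (k (nat_lit 0x98ebc)))))) (a (v (nat_lit 7) (a (v (nat_lit 9) (k (nat_lit 0x98e4a))) (a (v (nat_lit 8) (k (nat_lit 0x98e86))) (v (nat_lit 7) (k (nat_lit 0x98e3e)))))) (v (nat_lit 6) (v (nat_lit 6) (k (nat_lit 0x989b8))))))) (v (nat_lit 5) (a (a (u (nat_lit 8) (v (nat_lit 9) (k (nat_lit 0x98ec8)))) (v (nat_lit 7) (a (u (nat_lit 9) (k (nat_lit 0x99288))) (u (nat_lit 8) (k (nat_lit 0x990b4)))))) (a (u (nat_lit 6) (a (v (nat_lit 9) (k (nat_lit 0x98e02))) (a (v (nat_lit 8) (k (nat_lit 0x99054))) (v (nat_lit 7) (k (nat_lit 0x99084)))))) (v (nat_lit 5) (a (u (nat_lit 8) (k (nat_lit 0x98ebc))) (a (u (nat_lit 7) (k (nat_lit 0x98e44))) (u (nat_lit 6) (k (nat_lit 0x98f0a)))))))))))) (a (a (u (nat_lit 5) (a (v (nat_lit 8) (a (v (nat_lit 9) (k (nat_lit 0x98ec8)))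 (v (nat_lit 8) (k (nat_lit 0x98ebc))))) (v (nat_lit 6) (v (nat_lit 6) (k (nat_lit 0x99072)))))) (a (v (nat_lit 4) (a (a (u (nat_lit 9) (v (nat_lit 9) (k (nat_lit 0x993cc)))) (a (v (nat_lit 8) (u (nat_lit 9) (k (nat_lit 0x99288)))) (u (nat_lit 7) (v (nat_lit 9) (k (nat_lit 0x98e50)))))) (a (a (u (nat_lit 6) (a (v (nat_lit 9) (k (nat_lit 0x98d0c))) (a (v (nat_lit 8) (k (nat_lit 0x99114))) (v (nat_lit 7) (k (nat_lit 0x99234)))))) (v (nat_lit 5) (a (u (nat_lit 7) (k (nat_lit 0x98df0))) (u (nat_lit 6) (k (nat_lit 0x98f16)))))) (a (u (nat_lit 5) (v (nat_lit 8) (k (nat_lit 0x990b4)))) (v (nat_lit 4) (a (u (nat_lit 9) (k (nat_lit 0x98dba))) (a (u (nat_lit 7) (k (nat_lit 0x98e44))) (u (nat_lit 6) (k (nat_lit 0x98e6e)))))))))) (u (nat_lit 4) (a (a (v (nat_lit 8) (v (nat_lit 8) (k (nat_lit 0x98e44)))) (v (nat_lit 7) (a (v (nat_lit 9) (k (nat_lit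 0x98e50))) (a (v (nat_lit 8) (k (nat_lit 0x98df0))) (v (nat_lit 7) (k (nat_lit 0x98e44))))))) (a (v (nat_lit 6) (v (nat_lit 6) (k (nat_lit 0x99108)))) (a (u (nat_lit 5) (u (nat_lit 9) (k (nat_lit 0x99be2)))) (v (nat_lit 4) (a (v (nat_lit 5) (k (nat_lit 0x9937e))) (v (nat_lit 4) (k (nat_lit 0x99348))))))))))) (a (v (nat_lit 3) (a (a (v (nat_lit 6) (a (u (nat_lit 9) (k (nat_lit 0x138b94))) (a (u (nat_lit 8) (k (nat_lit 0x9b6ee))) (u (nat_lit 7) (k (nat_lit 0x98a3c)))))) (a (u (nat_lit 6) (a (a (v (nat_lit 9) (k (nat_lit 0x97a40))) (v (nat_lit 8) (k (nat_lit 0x99312)))) (a (v (nat_lit 7) (k (nat_lit 0x9937e))) (a (v (nat_lit 6) (k (nat_lit 0x985f8))) (u (nat_lit 6) (k (nat_lit 0x9b526))))))) (v (nat_lit 5) (u (nat_lit 6) (k (nat_lit 0x96870)))))) (a (a (u (nat_lit 5) (v (nat_lit 6) (k (nat_lit 0x9b6ee)))) (v (nat_lit 4) (u (nat_lit 6) (k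 (nat_lit 0x99690))))) (a (u (nat_lit 4) (v (nat_lit 6) (k (nat_lit 0x98a3c)))) (v (nat_lit 3) (a (a (u (nat_lit 9) (k (nat_lit 0x99126))) (a (u (nat_lit 8) (k (nat_lit 0x99072))) (u (nat_lit 7) (k (nat_lit 0x99108))))) (a (u (nat_lit 6) (k (nat_lit 0x99bdc))) (a (u (nat_lit 5) (k (nat_lit 0x9982e))) (u (nat_lit 4) (k (nat_lit 0x996a8))))))))))) (a (u (nat_lit 3) (a (a (a (v (nat_lit 9) (v (nat_lit 9) (k (nat_lit 0x98bb6)))) (v (nat_lit 8) (a (v (nat_lit 9) (k (nat_lit 0x98e02))) (v (nat_lit 8) (k (nat_lit 0x98f0a)))))) (a (v (nat_lit 7) (a (v (nat_lit 9) (k (nat_lit 0x98d0c))) (a (v (nat_lit 8) (k (nat_lit 0x98f16))) (v (nat_lit 7) (k (nat_lit 0x98e6e)))))) (v (nat_lit 6) (a (a (v (nat_lit 9) (k (nat_lit 0x97a40))) (v (nat_lit 8) (k (nat_lit 0x96870)))) (a (v (nat_lit 7) (k (nat_lit 0x99690))) (v (nat_lit 6) (k (nat_lit 0x99bdc))))))))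 (a (a (u (nat_lit 6) (v (nat_lit 7) (k (nat_lit 0x98f82)))) (v (nat_lit 5) (a (a (v (nat_lit 9) (k (nat_lit 0x9645c))) (v (nat_lit 8) (k (nat_lit 0x99054)))) (a (v (nat_lit 7) (k (nat_lit 0x99114))) (a (v (nat_lit 6) (k (nat_lit 0x99312))) (v (nat_lit 5) (k (nat_lit 0x98ebc)))))))) (a (v (nat_lit 4) (a (a (v (nat_lit 9) (k (nat_lit 0x98e4a))) (a (v (nat_lit 8) (k (nat_lit 0x99084))) (v (nat_lit 7) (k (nat_lit 0x99234))))) (a (a (v (nat_lit 6) (k (nat_lit 0x9937e))) (u (nat_lit 6) (k (nat_lit 0x98f82)))) (a (v (nat_lit 5) (k (nat_lit 0x98e86))) (v (nat_lit 4) (k (nat_lit 0x98e3e))))))) (a (v (nat_lit 3) (a (v (nat_lit 6) (k (nat_lit 0x985f8))) (v (nat_lit 3) (k (nat_lit 0x989b8))))) (u (nat_lit 3) (v (nat_lit 6) (k (nat_lit 0x9b526))))))))) (v (nat_lit 2) (a (a (a (v (nat_lit 8) (u (nat_lit 9) (k (nat_lit 0x98df0)))) (a (u (nat_lit 8) (a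 (v (nat_lit 8) (k (nat_lit 0x990f6))) (u (nat_lit 8) (k (nat_lit 0x98eda))))) (v (nat_lit 7) (a (u (nat_lit 9) (k (nat_lit 0x98ec2))) (u (nat_lit 8) (k (nat_lit 0x98e0e))))))) (a (u (nat_lit 7) (v (nat_lit 7) (k (nat_lit 0x98e68)))) (a (u (nat_lit 6) (a (v (nat_lit 9) (k (nat_lit 0x98c52))) (a (v (nat_lit 8) (k (nat_lit 0x98dba))) (v (nat_lit 7) (k (nat_lit 0x98e44)))))) (v (nat_lit 5) (a (u (nat_lit 9) (k (nat_lit 0x98df0))) (a (u (nat_lit 8) (k (nat_lit 0x98dd2))) (u (nat_lit 6) (k (nat_lit 0x98f04))))))))) (a (a (u (nat_lit 5) (a (a (v (nat_lit 8) (k (nat_lit 0x98dd2))) (v (nat_lit 7) (k (nat_lit 0x98dea)))) (a (v (nat_lit 5) (k (nat_lit 0x990f6))) (u (nat_lit 5) (k (nat_lit 0x98eda)))))) (a (t (nat_lit 5) (nat_lit 8) (nat_lit 9) (a (u (nat_lit 8) (k (nat_lit 0x99138))) (a (u (nat_lit 7) (k (nat_lit 0x2acfb9a))) (u (nat_lit 5) (k (nat_lit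 0x99138)))))) (v (nat_lit 4) (a (a (u (nat_lit 9) (k (nat_lit 0x98ec2))) (u (nat_lit 8) (k (nat_lit 0x98dea)))) (a (u (nat_lit 7) (k (nat_lit 0x98d5a))) (a (u (nat_lit 6) (k (nat_lit 0x98e08))) (u (nat_lit 5) (k (nat_lit 0x98e0e))))))))) (a (a (u (nat_lit 4) (a (v (nat_lit 7) (k (nat_lit 0x98d5a))) (a (t (nat_lit 5) (nat_lit 8) (nat_lit 9) (k (nat_lit 0x2acfb9a))) (v (nat_lit 4) (k (nat_lit 0x98e68)))))) (v (nat_lit 3) (u (nat_lit 6) (k (nat_lit 0x98c8e))))) (a (u (nat_lit 3) (a (a (v (nat_lit 9) (k (nat_lit 0x98c52))) (a (v (nat_lit 8) (k (nat_lit 0x98f04))) (v (nat_lit 7) (k (nat_lit 0x98e08))))) (a (v (nat_lit 6) (k (nat_lit 0x98c8e))) (a (v (nat_lit 5) (k (nat_lit 0x98dba))) (v (nat_lit 4) (k (nat_lit 0x98e44))))))) (v (nat_lit 2) (a (a (u (nat_lit 9) (k (nat_lit 0x131778))) (a (u (nat_lit 8) (k (nat_lit 0x98cac))) (u (nat_lit 7) (k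 (nat_lit 0x98c7c))))) (a (a (u (nat_lit 6) (k (nat_lit 0x9843c))) (u (nat_lit 5) (k (nat_lit 0x98cac)))) (a (u (nat_lit 4) (k (nat_lit 0x98c7c))) (u (nat_lit 3) (k (nat_lit 0x9843c))))))))))))))))) (a (u (nat_lit 2) (a (a (a (v (nat_lit 8) (a (v (nat_lit 9) (v (nat_lit 9) (k (nat_lit 0x98c88)))) (v (nat_lit 8) (a (v (nat_lit 9) (k (nat_lit 0x98cd0))) (v (nat_lit 8) (k (nat_lit 0x98d00))))))) (a (v (nat_lit 7) (v (nat_lit 8) (a (v (nat_lit 9) (k (nat_lit 0x97e4e))) (v (nat_lit 8) (k (nat_lit 0x98d00)))))) (v (nat_lit 6) (a (u (nat_lit 8) (a (u (nat_lit 9) (k (nat_lit 0x9bcf4))) (v (nat_lit 8) (k (nat_lit 0x99ce4))))) (a (u (nat_lit 7) (v (nat_lit 8) (k (nat_lit 0x2cccb38)))) (v (nat_lit 6) (v (nat_lit 6) (k (nat_lit 0x98e2c))))))))) (a (a (u (nat_lit 6) (v (nat_lit 6) (v (nat_lit 6) (k (nat_lit 0x9a350))))) (v (nat_lit 5) (a (v (nat_lit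 9) (v (nat_lit 9) (k (nat_lit 0x98c88)))) (a (v (nat_lit 7) (v (nat_lit 7) (k (nat_lit 0x98cbe)))) (v (nat_lit 5) (a (v (nat_lit 9) (k (nat_lit 0x98cd0))) (v (nat_lit 5) (k (nat_lit 0x98d00))))))))) (a (u (nat_lit 5) (v (nat_lit 5) (v (nat_lit 6) (k (nat_lit 0x3923772))))) (t (nat_lit 5) (nat_lit 8) (nat_lit 9) (a (a (u (nat_lit 9) (v (nat_lit 9) (k (nat_lit 0x13e5d0)))) (v (nat_lit 7) (v (nat_lit 9) (k (nat_lit 0xa497c))))) (a (u (nat_lit 7) (v (nat_lit 7) (k (nat_lit 0x1afcb002)))) (a (v (nat_lit 6) (u (nat_lit 7) (k (nat_lit 0x8bb22e)))) (u (nat_lit 6) (v (nat_lit 6) (k (nat_lit 0x990c6))))))))))) (a (a (v (nat_lit 4) (a (v (nat_lit 5) (a (v (nat_lit 9) (k (nat_lit 0x97e4e))) (v (nat_lit 5) (k (nat_lit 0x98d00))))) (a (t (nat_lit 5) (nat_lit 8) (nat_lit 9) (v (nat_lit 9) (k (nat_lit 0xa497c)))) (v (nat_lit 4) (v (nat_lit 8) (k (nat_lit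 0x98cbe))))))) (a (u (nat_lit 4) (v (nat_lit 4) (t (nat_lit 5) (nat_lit 8) (nat_lit 9) (k (nat_lit 0x1afcb002))))) (t (nat_lit 4) (nat_lit 7) (nat_lit 9) (a (v (nat_lit 5) (u (nat_lit 6) (k (nat_lit 0xb0eaa)))) (a (t (nat_lit 5) (nat_lit 8) (nat_lit 9) (v (nat_lit 9) (k (nat_lit 0x3a17cc)))) (t (nat_lit 4) (nat_lit 7) (nat_lit 9) (v (nat_lit 6) (k (nat_lit 0x85a9b2))))))))) (a (a (v (nat_lit 3) (a (a (u (nat_lit 8) (v (nat_lit 8) (k (nat_lit 0x3923772)))) (a (v (nat_lit 6) (v (nat_lit 6) (k (nat_lit 0x9c0c6)))) (u (nat_lit 5) (a (u (nat_lit 9) (k (nat_lit 0x9bcf4))) (v (nat_lit 5) (k (nat_lit 0x99ce4))))))) (a (a (t (nat_lit 5) (nat_lit 8) (nat_lit 9) (u (nat_lit 6) (k (nat_lit 0x3ab958e)))) (u (nat_lit 4) (a (v (nat_lit 5) (k (nat_lit 0x2cccb38))) (t (nat_lit 5) (nat_lit 8) (nat_lit 9) (k (nat_lit 0x8bb22e)))))) (a (t (nat_lit 4) (nat_lit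 7) (nat_lit 9) (t (nat_lit 4) (nat_lit 7) (nat_lit 9) (k (nat_lit 0x85a9b2)))) (v (nat_lit 3) (a (v (nat_lit 6) (k (nat_lit 0x9c0c6))) (v (nat_lit 3) (k (nat_lit 0x98e2c))))))))) (u (nat_lit 3) (a (t (nat_lit 5) (nat_lit 8) (nat_lit 9) (v (nat_lit 6) (k (nat_lit 0x3ab958e)))) (a (t (nat_lit 4) (nat_lit 7) (nat_lit 9) (v (nat_lit 8) (k (nat_lit 0xb0eaa)))) (v (nat_lit 3) (a (t (nat_lit 5) (nat_lit 8) (nat_lit 9) (k (nat_lit 0x990c6))) (v (nat_lit 3) (k (nat_lit 0x9a350))))))))) (a (v (nat_lit 2) (a (a (a (v (nat_lit 9) (v (nat_lit 9) (k (nat_lit 0x1318b0)))) (v (nat_lit 6) (a (a (v (nat_lit 9) (k (nat_lit 0x2245e35a))) (u (nat_lit 8) (k (nat_lit 0x97994a)))) (a (u (nat_lit 7) (k (nat_lit 0xd3306ec))) (v (nat_lit 6) (k (nat_lit 0x99372))))))) (a (u (nat_lit 6) (v (nat_lit 6) (k (nat_lit 0x1171b9ba)))) (u (nat_lit 4) (v (nat_lit 6) (k (nat_lit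 0x223fc3d4)))))) (a (a (t (nat_lit 4) (nat_lit 7) (nat_lit 9) (t (nat_lit 4) (nat_lit 7) (nat_lit 9) (k (nat_lit 0x44f478)))) (v (nat_lit 3) (a (a (v (nat_lit 9) (k (nat_lit 0x2245e35a))) (a (u (nat_lit 7) (k (nat_lit 0x223fc3d4))) (v (nat_lit 6) (k (nat_lit 0x133548))))) (a (u (nat_lit 5) (k (nat_lit 0x97994a))) (a (u (nat_lit 4) (k (nat_lit 0xd3306ec))) (v (nat_lit 3) (k (nat_lit 0x99372)))))))) (a (u (nat_lit 3) (v (nat_lit 3) (k (nat_lit 0x1171b9ba)))) (v (nat_lit 2) (a (a (v (nat_lit 9) (k (nat_lit 0x131de4))) (u (nat_lit 9) (k (nat_lit 0x57928bc)))) (a (v (nat_lit 6) (k (nat_lit 0x82e9654))) (a (v (nat_lit 3) (k (nat_lit 0x82e9654))) (v (nat_lit 2) (k (nat_lit 0x13197c))))))))))) (u (nat_lit 2) (a (t (nat_lit 4) (nat_lit 7) (nat_lit 9) (t (nat_lit 5) (nat_lit 8) (nat_lit 9) (k (nat_lit 0x1f2d5a8)))) (v (nat_lit 2) (t (nat_lit 4)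 (nat_lit 7) (nat_lit 9) (k (nat_lit 0xefefea8))))))))))) (v (nat_lit 1) (a (a (a (a (u (nat_lit 9) (v (nat_lit 9) (v (nat_lit 9) (k (nat_lit 0x132c48))))) (v (nat_lit 8) (a (u (nat_lit 9) (v (nat_lit 9) (k (nat_lit 0x9762c)))) (v (nat_lit 8) (u (nat_lit 9) (k (nat_lit 0x9bab4))))))) (a (u (nat_lit 8) (v (nat_lit 8) (v (nat_lit 8) (k (nat_lit 0x9934e))))) (v (nat_lit 7) (v (nat_lit 7) (a (u (nat_lit 9) (k (nat_lit 0x9abb4))) (u (nat_lit 8) (k (nat_lit 0x995f4)))))))) (a (a (u (nat_lit 7) (a (v (nat_lit 9) (v (nat_lit 9) (k (nat_lit 0x98796)))) (a (v (nat_lit 8) (a (v (nat_lit 9) (k (nat_lit 0x9880e))) (v (nat_lit 8) (k (nat_lit 0x989be))))) (v (nat_lit 7) (v (nat_lit 7) (k (nat_lit 0x98ec2))))))) (v (nat_lit 6) (a (v (nat_lit 8) (u (nat_lit 9) (k (nat_lit 0x54bacc)))) (a (u (nat_lit 7) (v (nat_lit 7) (k (nat_lit 0x98af0)))) (v (nat_lit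 6) (u (nat_lit 9) (k (nat_lit 0x4272f54)))))))) (a (u (nat_lit 6) (a (v (nat_lit 9) (v (nat_lit 9) (k (nat_lit 0x98a72)))) (a (v (nat_lit 7) (a (v (nat_lit 9) (k (nat_lit 0x6afea8))) (v (nat_lit 8) (k (nat_lit 0x98e5c))))) (v (nat_lit 6) (a (u (nat_lit 8) (k (nat_lit 0x98f88))) (v (nat_lit 6) (k (nat_lit 0x99066)))))))) (a (v (nat_lit 5) (a (a (a (u (nat_lit 9) (v (nat_lit 9) (k (nat_lit 0x9762c)))) (v (nat_lit 8) (u (nat_lit 9) (k (nat_lit 0x131a6c))))) (a (u (nat_lit 8) (v (nat_lit 8) (k (nat_lit 0x98e86)))) (v (nat_lit 7) (u (nat_lit 8) (k (nat_lit 0x95286)))))) (a (a (u (nat_lit 7) (v (nat_lit 9) (k (nat_lit 0x98388)))) (v (nat_lit 6) (u (nat_lit 7) (k (nat_lit 0x99000))))) (a (u (nat_lit 6) (a (v (nat_lit 9) (k (nat_lit 0x9bb38))) (a (v (nat_lit 8) (k (nat_lit 0x9990c))) (v (nat_lit 7) (k (nat_lit 0x9b736)))))) (v (nat_lit 5) (a (u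 (nat_lit 9) (k (nat_lit 0x9bab4))) (u (nat_lit 6) (k (nat_lit 0x969f0))))))))) (u (nat_lit 5) (a (v (nat_lit 7) (v (nat_lit 7) (k (nat_lit 0x9e724)))) (v (nat_lit 5) (a (v (nat_lit 8) (k (nat_lit 0x98e86))) (a (v (nat_lit 7) (k (nat_lit 0x96d14))) (v (nat_lit 5) (k (nat_lit 0x9934e)))))))))))) (a (a (a (t (nat_lit 5) (nat_lit 8) (nat_lit 9) (a (v (nat_lit 6) (a (u (nat_lit 9) (k (nat_lit 0x5dc3a92))) (u (nat_lit 8) (k (nat_lit 0x99570))))) (u (nat_lit 6) (v (nat_lit 6) (k (nat_lit 0x531fa02)))))) (v (nat_lit 4) (a (a (u (nat_lit 8) (v (nat_lit 8) (k (nat_lit 0x96d14)))) (a (v (nat_lit 7) (a (u (nat_lit 9) (k (nat_lit 0x12a6b0))) (u (nat_lit 8) (k (nat_lit 0x9ce40))))) (u (nat_lit 7) (a (v (nat_lit 7) (k (nat_lit 0x9584a))) (u (nat_lit 7) (k (nat_lit 0x4646e56))))))) (a (u (nat_lit 6) (v (nat_lit 6) (k (nat_lit 0x9892e)))) (a (u (nat_lit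 5) (a (v (nat_lit 8) (k (nat_lit 0x95286))) (v (nat_lit 7) (k (nat_lit 0x9ce40))))) (v (nat_lit 4) (a (u (nat_lit 9) (k (nat_lit 0x9abb4))) (a (u (nat_lit 8) (k (nat_lit 0x9e724))) (u (nat_lit 5) (k (nat_lit 0x995f4))))))))))) (a (u (nat_lit 4) (a (a (v (nat_lit 9) (v (nat_lit 9) (k (nat_lit 0x98796)))) (a (v (nat_lit 8) (v (nat_lit 9) (k (nat_lit 0x98388)))) (v (nat_lit 6) (v (nat_lit 9) (k (nat_lit 0x9a710)))))) (a (a (u (nat_lit 6) (a (v (nat_lit 9) (k (nat_lit 0x99e0a))) (a (v (nat_lit 8) (k (nat_lit 0x98dae))) (v (nat_lit 7) (k (nat_lit 0x98be0)))))) (v (nat_lit 5) (a (v (nat_lit 9) (k (nat_lit 0x9880e))) (v (nat_lit 5) (k (nat_lit 0x989be)))))) (a (v (nat_lit 4) (a (v (nat_lit 7) (k (nat_lit 0x9584a))) (v (nat_lit 4) (k (nat_lit 0x98ec2))))) (u (nat_lit 4) (v (nat_lit 7) (k (nat_lit 0x4646e56)))))))) (t (nat_lit 4) (nat_lit 7) (nat_lit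 9) (a (a (u (nat_lit 8) (v (nat_lit 9) (k (nat_lit 0x4e1c7d0)))) (u (nat_lit 6) (a (u (nat_lit 8) (k (nat_lit 0x249c9ea))) (u (nat_lit 7) (k (nat_lit 0x28979d6)))))) (a (u (nat_lit 5) (v (nat_lit 9) (k (nat_lit 0x4e1c7d0)))) (a (t (nat_lit 5) (nat_lit 8) (nat_lit 9) (u (nat_lit 9) (k (nat_lit 0x134a30)))) (u (nat_lit 4) (a (u (nat_lit 7) (k (nat_lit 0x22b3cfd8))) (u (nat_lit 6) (k (nat_lit 0x6c76a8e))))))))))) (a (a (v (nat_lit 3) (a (a (u (nat_lit 7) (v (nat_lit 9) (k (nat_lit 0x9a710)))) (v (nat_lit 5) (u (nat_lit 9) (k (nat_lit 0x54bacc))))) (a (t (nat_lit 5) (nat_lit 8) (nat_lit 9) (a (u (nat_lit 9) (k (nat_lit 0x5dc3a92))) (a (u (nat_lit 6) (k (nat_lit 0x9a5d2))) (u (nat_lit 5) (k (nat_lit 0x99570)))))) (a (u (nat_lit 4) (a (v (nat_lit 8) (k (nat_lit 0x99000))) (v (nat_lit 4) (k (nat_lit 0x98af0))))) (v (nat_lit 3) (u (nat_lit 9)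 (k (nat_lit 0x4272f54)))))))) (u (nat_lit 3) (a (a (a (v (nat_lit 9) (v (nat_lit 9) (k (nat_lit 0x98a72)))) (v (nat_lit 8) (a (v (nat_lit 9) (k (nat_lit 0x9bb38))) (v (nat_lit 8) (k (nat_lit 0x969f0)))))) (a (u (nat_lit 7) (v (nat_lit 9) (k (nat_lit 0x99e0a)))) (v (nat_lit 5) (a (v (nat_lit 8) (k (nat_lit 0x9990c))) (u (nat_lit 7) (k (nat_lit 0x98dae))))))) (a (a (t (nat_lit 5) (nat_lit 8) (nat_lit 9) (v (nat_lit 6) (k (nat_lit 0x9a5d2)))) (v (nat_lit 4) (a (a (v (nat_lit 9) (k (nat_lit 0x6afea8))) (v (nat_lit 8) (k (nat_lit 0x9b736)))) (a (u (nat_lit 7) (k (nat_lit 0x98be0))) (v (nat_lit 5) (k (nat_lit 0x98e5c))))))) (a (t (nat_lit 4) (nat_lit 7) (nat_lit 9) (a (u (nat_lit 7) (k (nat_lit 0x6c76a8e))) (a (u (nat_lit 5) (k (nat_lit 0x249c9ea))) (u (nat_lit 4) (k (nat_lit 0x28979d6)))))) (v (nat_lit 3) (a (a (v (nat_lit 7) (k (nat_lit 0x9892e)))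 (u (nat_lit 5) (k (nat_lit 0x98f88)))) (a (t (nat_lit 5) (nat_lit 8) (nat_lit 9) (k (nat_lit 0x531fa02))) (v (nat_lit 3) (k (nat_lit 0x99066))))))))))) (a (v (nat_lit 2) (a (a (a (u (nat_lit 9) (v (nat_lit 9) (k (nat_lit 0x1319f4)))) (a (v (nat_lit 8) (u (nat_lit 9) (k (nat_lit 0x97a6a)))) (u (nat_lit 8) (v (nat_lit 8) (k (nat_lit 0x991da)))))) (a (a (v (nat_lit 7) (a (u (nat_lit 9) (k (nat_lit 0x9a45e))) (u (nat_lit 8) (k (nat_lit 0x9a914))))) (u (nat_lit 7) (v (nat_lit 7) (k (nat_lit 0xa250a))))) (a (v (nat_lit 6) (u (nat_lit 7) (k (nat_lit 0x99b22)))) (u (nat_lit 6) (a (v (nat_lit 8) (k (nat_lit 0x99198))) (v (nat_lit 7) (k (nat_lit 0x9973e)))))))) (a (a (v (nat_lit 5) (a (u (nat_lit 9) (k (nat_lit 0x97a6a))) (a (u (nat_lit 8) (k (nat_lit 0x9958e))) (u (nat_lit 6) (k (nat_lit 0x99258)))))) (a (u (nat_lit 5) (a (v (nat_lit 8) (k (nat_lit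 0x9958e))) (a (v (nat_lit 7) (k (nat_lit 0x95ff4))) (v (nat_lit 5) (k (nat_lit 0x991da)))))) (v (nat_lit 4) (a (a (u (nat_lit 9) (k (nat_lit 0x9a45e))) (u (nat_lit 8) (k (nat_lit 0x95ff4)))) (a (u (nat_lit 7) (k (nat_lit 0x95b4a))) (a (u (nat_lit 6) (k (nat_lit 0x9966c))) (u (nat_lit 5) (k (nat_lit 0x9a914))))))))) (a (a (u (nat_lit 4) (a (v (nat_lit 7) (k (nat_lit 0x95b4a))) (v (nat_lit 4) (k (nat_lit 0xa250a))))) (v (nat_lit 3) (u (nat_lit 4) (k (nat_lit 0x99b22))))) (a (u (nat_lit 3) (a (a (v (nat_lit 8) (k (nat_lit 0x99258))) (v (nat_lit 7) (k (nat_lit 0x9966c)))) (a (v (nat_lit 5) (k (nat_lit 0x99198))) (v (nat_lit 4) (k (nat_lit 0x9973e)))))) (v (nat_lit 2) (a (a (u (nat_lit 9) (k (nat_lit 0x13038c))) (a (u (nat_lit 8) (k (nat_lit 0x13296000))) (u (nat_lit 7) (k (nat_lit 0xed664e0))))) (a (a (u (nat_lit 6) (k (nat_lit 0x6fabb3a)))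 (u (nat_lit 5) (k (nat_lit 0x13296000)))) (a (u (nat_lit 4) (k (nat_lit 0xed664e0))) (u (nat_lit 3) (k (nat_lit 0x6fabb3a)))))))))))) (a (u (nat_lit 2) (a (a (v (nat_lit 7) (v (nat_lit 7) (k (nat_lit 0x8fd8a)))) (v (nat_lit 5) (v (nat_lit 7) (k (nat_lit 0x9c87c))))) (a (v (nat_lit 4) (a (v (nat_lit 8) (k (nat_lit 0x9c87c))) (a (v (nat_lit 7) (k (nat_lit 0x138558))) (v (nat_lit 4) (k (nat_lit 0x8fd8a)))))) (a (v (nat_lit 2) (a (a (v (nat_lit 9) (k (nat_lit 0x133f8c))) (a (v (nat_lit 8) (k (nat_lit 0x9b47e))) (v (nat_lit 7) (k (nat_lit 0x9592e))))) (a (v (nat_lit 5) (k (nat_lit 0x9b47e))) (a (v (nat_lit 4) (k (nat_lit 0x9592e))) (v (nat_lit 2) (k (nat_lit 0x130ac4))))))) (u (nat_lit 2) (v (nat_lit 2) (k (nat_lit 0x1312bc)))))))) (v (nat_lit 1) (a (a (a (a (u (nat_lit 9) (v (nat_lit 9) (k (nat_lit 0x131e20)))) (v (nat_lit 8) (u (nat_lit 9)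 (k (nat_lit 0x990ea))))) (a (u (nat_lit 8) (v (nat_lit 8) (k (nat_lit 0x98f22)))) (v (nat_lit 7) (a (u (nat_lit 9) (k (nat_lit 0x9907e))) (u (nat_lit 8) (k (nat_lit 0x9bbd4))))))) (a (a (u (nat_lit 7) (a (u (nat_lit 8) (k (nat_lit 0x9bba4))) (v (nat_lit 7) (k (nat_lit 0x98f3a))))) (v (nat_lit 6) (a (u (nat_lit 9) (k (nat_lit 0x4a3cab4))) (a (u (nat_lit 8) (k (nat_lit 0x99768))) (u (nat_lit 7) (k (nat_lit 0x2eb9a6e))))))) (a (u (nat_lit 6) (a (v (nat_lit 9) (k (nat_lit 0x98cdc))) (a (v (nat_lit 7) (k (nat_lit 0x985b6))) (v (nat_lit 6) (k (nat_lit 0xa3d76)))))) (v (nat_lit 5) (a (u (nat_lit 9) (k (nat_lit 0x990ea))) (a (u (nat_lit 8) (k (nat_lit 0x98eec))) (u (nat_lit 6) (k (nat_lit 0x98e3e))))))))) (a (a (a (u (nat_lit 5) (a (a (v (nat_lit 8) (k (nat_lit 0x98eec))) (v (nat_lit 7) (k (nat_lit 0x98fc4)))) (a (v (nat_lit 6) (k (nat_lit 0x52e1f92)))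 (v (nat_lit 5) (k (nat_lit 0x98f22)))))) (v (nat_lit 4) (a (a (u (nat_lit 9) (k (nat_lit 0x9907e))) (u (nat_lit 8) (k (nat_lit 0x98fc4)))) (a (u (nat_lit 7) (k (nat_lit 0x98eec))) (a (u (nat_lit 6) (k (nat_lit 0x98acc))) (u (nat_lit 5) (k (nat_lit 0x9bbd4)))))))) (a (u (nat_lit 4) (a (v (nat_lit 7) (k (nat_lit 0x98eec))) (a (u (nat_lit 5) (k (nat_lit 0x9bba4))) (v (nat_lit 4) (k (nat_lit 0x98f3a)))))) (t (nat_lit 4) (nat_lit 7) (nat_lit 9) (a (u (nat_lit 7) (k (nat_lit 0x9994e))) (u (nat_lit 4) (k (nat_lit 0x9994e))))))) (a (a (v (nat_lit 3) (a (a (u (nat_lit 9) (k (nat_lit 0x4a3cab4))) (u (nat_lit 8) (k (nat_lit 0x52e1f92)))) (a (u (nat_lit 6) (k (nat_lit 0x174ab0c))) (a (u (nat_lit 5) (k (nat_lit 0x99768))) (u (nat_lit 4) (k (nat_lit 0x2eb9a6e))))))) (u (nat_lit 3) (a (a (v (nat_lit 9) (k (nat_lit 0x98cdc))) (a (v (nat_lit 8) (k (nat_lit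 0x98e3e))) (v (nat_lit 7) (k (nat_lit 0x98acc))))) (a (v (nat_lit 6) (k (nat_lit 0x174ab0c))) (a (v (nat_lit 4) (k (nat_lit 0x985b6))) (v (nat_lit 3) (k (nat_lit 0xa3d76)))))))) (a (v (nat_lit 2) (a (a (u (nat_lit 9) (k (nat_lit 0x133170))) (a (u (nat_lit 8) (k (nat_lit 0x96468))) (u (nat_lit 7) (k (nat_lit 0x9903c))))) (a (a (u (nat_lit 6) (k (nat_lit 0x98fe8))) (u (nat_lit 5) (k (nat_lit 0x96468)))) (a (u (nat_lit 4) (k (nat_lit 0x9903c))) (u (nat_lit 3) (k (nat_lit 0x98fe8))))))) (a (u (nat_lit 2) (a (v (nat_lit 8) (k (nat_lit 0x9bba4))) (a (v (nat_lit 5) (k (nat_lit 0x9bba4))) (v (nat_lit 2) (k (nat_lit 0x1321b0)))))) (v (nat_lit 1) (a (a (a (u (nat_lit 9) (k (nat_lit 0x1313b8))) (u (nat_lit 8) (k (nat_lit 0x98d90)))) (a (u (nat_lit 7) (k (nat_lit 0x98784))) (u (nat_lit 6) (k (nat_lit 0x996de))))) (a (a (u (nat_lit 5) (k (nat_lit 0x98d90)))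 (u (nat_lit 4) (k (nat_lit 0x98784)))) (a (u (nat_lit 3) (k (nat_lit 0x996de))) (u (nat_lit 2) (k (nat_lit 0x12edc0))))))))))))))))))))) (a (u (nat_lit 1) (a (a (a (a (u (nat_lit 9) (v (nat_lit 9) (v (nat_lit 9) (k (nat_lit 0x131c58))))) (v (nat_lit 8) (a (v (nat_lit 9) (v (nat_lit 9) (k (nat_lit 0x9a704)))) (v (nat_lit 8) (a (v (nat_lit 9) (k (nat_lit 0x9623a))) (v (nat_lit 8) (k (nat_lit 0x98c3a)))))))) (a (v (nat_lit 7) (a (v (nat_lit 9) (v (nat_lit 9) (k (nat_lit 0x98d8a)))) (a (v (nat_lit 8) (a (v (nat_lit 9) (k (nat_lit 0x9936c))) (v (nat_lit 8) (k (nat_lit 0x992b2))))) (v (nat_lit 7) (a (v (nat_lit 9) (k (nat_lit 0x96c54))) (a (v (nat_lit 8) (k (nat_lit 0x987b4))) (v (nat_lit 7) (k (nat_lit 0x987ba))))))))) (v (nat_lit 6) (a (a (v (nat_lit 9) (v (nat_lit 9) (k (nat_lit 0x990fc)))) (v (nat_lit 8) (a (v (nat_lit 9) (k (nat_lit 0x99a92)))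 (v (nat_lit 8) (k (nat_lit 0x98f64)))))) (a (v (nat_lit 7) (a (v (nat_lit 9) (k (nat_lit 0x99c66))) (a (v (nat_lit 8) (k (nat_lit 0x992e8))) (v (nat_lit 7) (k (nat_lit 0x99690)))))) (a (u (nat_lit 7) (v (nat_lit 7) (k (nat_lit 0xbc03c82)))) (v (nat_lit 6) (a (a (v (nat_lit 9) (k (nat_lit 0x98e6e))) (v (nat_lit 8) (k (nat_lit 0x991e6)))) (a (v (nat_lit 7) (k (nat_lit 0x990cc))) (v (nat_lit 6) (k (nat_lit 0x98e26)))))))))))) (a (a (v (nat_lit 5) (a (a (v (nat_lit 9) (v (nat_lit 9) (k (nat_lit 0x9a704)))) (v (nat_lit 8) (a (v (nat_lit 9) (k (nat_lit 0x1328f4))) (v (nat_lit 8) (k (nat_lit 0x98e62)))))) (a (v (nat_lit 7) (a (v (nat_lit 9) (k (nat_lit 0x997a4))) (a (v (nat_lit 8) (k (nat_lit 0x9cace))) (v (nat_lit 7) (k (nat_lit 0x9356a)))))) (a (v (nat_lit 6) (a (a (v (nat_lit 9) (k (nat_lit 0x96a68))) (v (nat_lit 8) (k (nat_lit 0x98fc4))))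 (a (v (nat_lit 7) (k (nat_lit 0x968a0))) (v (nat_lit 6) (k (nat_lit 0x992b2)))))) (v (nat_lit 5) (a (a (v (nat_lit 9) (k (nat_lit 0x9623a))) (v (nat_lit 8) (k (nat_lit 0x98e62)))) (a (v (nat_lit 7) (k (nat_lit 0x9b10c))) (a (v (nat_lit 6) (k (nat_lit 0x9b61c))) (v (nat_lit 5) (k (nat_lit 0x98c3a))))))))))) (u (nat_lit 5) (v (nat_lit 5) (v (nat_lit 6) (k (nat_lit 0x99c6c)))))) (a (t (nat_lit 5) (nat_lit 8) (nat_lit 9) (a (u (nat_lit 8) (u (nat_lit 9) (k (nat_lit 0x997f2)))) (a (u (nat_lit 7) (u (nat_lit 9) (k (nat_lit 0xe95f9d4)))) (u (nat_lit 5) (a (u (nat_lit 9) (k (nat_lit 0x997f2))) (u (nat_lit 8) (k (nat_lit 0x132a74)))))))) (v (nat_lit 4) (a (a (v (nat_lit 9) (v (nat_lit 9) (k (nat_lit 0x98d8a)))) (a (v (nat_lit 8) (a (v (nat_lit 9) (k (nat_lit 0x997a4))) (v (nat_lit 8) (k (nat_lit 0x9b10c))))) (v (nat_lit 7) (a (v (nat_lit 9) (k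 (nat_lit 0x139098))) (a (v (nat_lit 8) (k (nat_lit 0x94caa))) (v (nat_lit 7) (k (nat_lit 0x9beb0)))))))) (a (a (v (nat_lit 6) (a (a (v (nat_lit 9) (k (nat_lit 0x997aa))) (v (nat_lit 8) (k (nat_lit 0x98d5a)))) (a (v (nat_lit 7) (k (nat_lit 0x98b14))) (v (nat_lit 6) (k (nat_lit 0x99a0e)))))) (v (nat_lit 5) (a (a (v (nat_lit 9) (k (nat_lit 0x9936c))) (v (nat_lit 8) (k (nat_lit 0x9cace)))) (a (v (nat_lit 7) (k (nat_lit 0x94caa))) (a (v (nat_lit 6) (k (nat_lit 0x98fbe))) (v (nat_lit 5) (k (nat_lit 0x992b2)))))))) (a (t (nat_lit 5) (nat_lit 8) (nat_lit 9) (u (nat_lit 6) (k (nat_lit 0x9ace0)))) (v (nat_lit 4) (a (a (v (nat_lit 9) (k (nat_lit 0x96c54))) (a (v (nat_lit 8) (k (nat_lit 0x9356a))) (v (nat_lit 7) (k (nat_lit 0x9beb0))))) (a (v (nat_lit 6) (k (nat_lit 0x98f22))) (a (v (nat_lit 5) (k (nat_lit 0x987b4))) (v (nat_lit 4) (k (nat_lit 0x987ba))))))))))))))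 (a (a (a (u (nat_lit 4) (a (v (nat_lit 6) (u (nat_lit 9) (k (nat_lit 0x158c6982)))) (t (nat_lit 5) (nat_lit 8) (nat_lit 9) (u (nat_lit 9) (k (nat_lit 0xe95f9d4)))))) (t (nat_lit 4) (nat_lit 7) (nat_lit 9) (a (a (a (u (nat_lit 9) (v (nat_lit 9) (k (nat_lit 0xe5c3ef0)))) (u (nat_lit 8) (u (nat_lit 9) (k (nat_lit 0x99dce))))) (a (u (nat_lit 7) (u (nat_lit 9) (k (nat_lit 0x40ddab0)))) (v (nat_lit 6) (u (nat_lit 8) (k (nat_lit 0x99c42)))))) (a (a (u (nat_lit 6) (u (nat_lit 9) (k (nat_lit 0x1849d10)))) (v (nat_lit 5) (u (nat_lit 7) (k (nat_lit 0x1015d6fa))))) (a (u (nat_lit 5) (a (u (nat_lit 9) (k (nat_lit 0x99dce))) (v (nat_lit 6) (k (nat_lit 0x23a78ae))))) (u (nat_lit 4) (a (u (nat_lit 9) (k (nat_lit 0x40ddab0))) (v (nat_lit 8) (k (nat_lit 0x1015d6fa)))))))))) (a (v (nat_lit 3) (a (a (a (v (nat_lit 9) (v (nat_lit 9) (k (nat_lit 0x990fc))))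 (a (v (nat_lit 8) (a (v (nat_lit 9) (k (nat_lit 0x96a68))) (v (nat_lit 8) (k (nat_lit 0x9b61c))))) (u (nat_lit 8) (v (nat_lit 8) (k (nat_lit 0x99c6c)))))) (a (v (nat_lit 7) (a (v (nat_lit 9) (k (nat_lit 0x997aa))) (a (v (nat_lit 8) (k (nat_lit 0x98fbe))) (v (nat_lit 7) (k (nat_lit 0x98f22)))))) (a (u (nat_lit 7) (u (nat_lit 9) (k (nat_lit 0x158c6982)))) (v (nat_lit 6) (a (a (v (nat_lit 9) (k (nat_lit 0x131b38))) (v (nat_lit 8) (k (nat_lit 0x9909c)))) (a (v (nat_lit 7) (k (nat_lit 0x991bc))) (v (nat_lit 6) (k (nat_lit 0x98e02))))))))) (a (a (u (nat_lit 6) (u (nat_lit 9) (k (nat_lit 0xc6f9366)))) (a (v (nat_lit 5) (a (a (v (nat_lit 9) (k (nat_lit 0x99a92))) (v (nat_lit 8) (k (nat_lit 0x98fc4)))) (a (v (nat_lit 7) (k (nat_lit 0x98d5a))) (a (v (nat_lit 6) (k (nat_lit 0x9909c))) (v (nat_lit 5) (k (nat_lit 0x98f64))))))) (v (nat_lit 4) (a (a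 (v (nat_lit 9) (k (nat_lit 0x99c66))) (a (v (nat_lit 8) (k (nat_lit 0x968a0))) (v (nat_lit 7) (k (nat_lit 0x98b14))))) (a (v (nat_lit 6) (k (nat_lit 0x991bc))) (a (v (nat_lit 5) (k (nat_lit 0x992e8))) (v (nat_lit 4) (k (nat_lit 0x99690))))))))) (a (u (nat_lit 4) (v (nat_lit 4) (k (nat_lit 0xbc03c82)))) (a (t (nat_lit 4) (nat_lit 7) (nat_lit 9) (a (u (nat_lit 8) (k (nat_lit 0x23a78ae))) (u (nat_lit 5) (k (nat_lit 0x99c42))))) (v (nat_lit 3) (a (a (a (v (nat_lit 9) (k (nat_lit 0x98e6e))) (v (nat_lit 8) (k (nat_lit 0x992b2)))) (a (v (nat_lit 7) (k (nat_lit 0x99a0e))) (v (nat_lit 6) (k (nat_lit 0x98e02))))) (a (a (u (nat_lit 6) (k (nat_lit 0x99666))) (v (nat_lit 5) (k (nat_lit 0x991e6)))) (a (v (nat_lit 4) (k (nat_lit 0x990cc))) (v (nat_lit 3) (k (nat_lit 0x98e26)))))))))))) (u (nat_lit 3) (a (v (nat_lit 6) (a (u (nat_lit 9) (k (nat_lit 0xc6f9366)))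 (v (nat_lit 6) (k (nat_lit 0x99666))))) (a (t (nat_lit 5) (nat_lit 8) (nat_lit 9) (v (nat_lit 7) (k (nat_lit 0x9ace0)))) (t (nat_lit 4) (nat_lit 7) (nat_lit 9) (u (nat_lit 9) (k (nat_lit 0x1849d10))))))))) (a (a (v (nat_lit 2) (a (a (a (v (nat_lit 9) (v (nat_lit 9) (k (nat_lit 0x1323cc)))) (u (nat_lit 9) (v (nat_lit 9) (k (nat_lit 0x131fac))))) (a (v (nat_lit 8) (a (v (nat_lit 9) (k (nat_lit 0x9b69a))) (a (u (nat_lit 9) (k (nat_lit 0x99a26))) (v (nat_lit 8) (k (nat_lit 0x98d84)))))) (v (nat_lit 7) (a (v (nat_lit 9) (k (nat_lit 0x98358))) (a (v (nat_lit 8) (k (nat_lit 0x97f86))) (v (nat_lit 7) (k (nat_lit 0x98ca0)))))))) (a (a (v (nat_lit 6) (a (v (nat_lit 9) (k (nat_lit 0x98ee0))) (v (nat_lit 6) (k (nat_lit 0x98f1c))))) (v (nat_lit 5) (a (a (v (nat_lit 9) (k (nat_lit 0x9b69a))) (u (nat_lit 9) (k (nat_lit 0x99a26)))) (a (v (nat_lit 8) (k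 (nat_lit 0x131838))) (a (v (nat_lit 7) (k (nat_lit 0x98eda))) (v (nat_lit 5) (k (nat_lit 0x98d84)))))))) (a (v (nat_lit 4) (a (a (v (nat_lit 9) (k (nat_lit 0x98358))) (v (nat_lit 8) (k (nat_lit 0x98eda)))) (a (v (nat_lit 7) (k (nat_lit 0x132084))) (a (v (nat_lit 5) (k (nat_lit 0x97f86))) (v (nat_lit 4) (k (nat_lit 0x98ca0))))))) (a (v (nat_lit 3) (a (v (nat_lit 9) (k (nat_lit 0x98ee0))) (a (v (nat_lit 6) (k (nat_lit 0x131e20))) (v (nat_lit 3) (k (nat_lit 0x98f1c)))))) (v (nat_lit 2) (a (a (v (nat_lit 8) (k (nat_lit 0x98e86))) (v (nat_lit 7) (k (nat_lit 0x98c3a)))) (a (v (nat_lit 5) (k (nat_lit 0x98e86))) (a (v (nat_lit 4) (k (nat_lit 0x98c3a))) (v (nat_lit 2) (k (nat_lit 0x1329b4)))))))))))) (u (nat_lit 2) (a (a (v (nat_lit 6) (u (nat_lit 9) (k (nat_lit 0x3e390ac)))) (a (t (nat_lit 5) (nat_lit 8) (nat_lit 9) (a (a (u (nat_lit 9) (k (nat_lit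 0x36c300))) (u (nat_lit 8) (k (nat_lit 0x1e6a86)))) (a (v (nat_lit 7) (k (nat_lit 0x2bb4da))) (u (nat_lit 5) (k (nat_lit 0x1e6a86)))))) (v (nat_lit 4) (t (nat_lit 5) (nat_lit 8) (nat_lit 9) (k (nat_lit 0x2bb4da)))))) (a (t (nat_lit 4) (nat_lit 7) (nat_lit 9) (a (a (u (nat_lit 9) (k (nat_lit 0x1d166f00))) (v (nat_lit 8) (k (nat_lit 0x2cdeec8)))) (a (v (nat_lit 5) (k (nat_lit 0x2cdeec8))) (t (nat_lit 5) (nat_lit 8) (nat_lit 9) (k (nat_lit 0x32235cc)))))) (a (v (nat_lit 3) (u (nat_lit 9) (k (nat_lit 0x3e390ac)))) (v (nat_lit 2) (a (v (nat_lit 6) (k (nat_lit 0x1f0497ea))) (v (nat_lit 3) (k (nat_lit 0x1f0497ea)))))))))) (a (v (nat_lit 1) (a (a (v (nat_lit 6) (v (nat_lit 6) (k (nat_lit 0x991f2)))) (a (t (nat_lit 4) (nat_lit 7) (nat_lit 9) (a (u (nat_lit 6) (k (nat_lit 0x25332b4))) (t (nat_lit 4) (nat_lit 7) (nat_lit 9) (k (nat_lit 0x133d4c)))))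 (v (nat_lit 3) (a (v (nat_lit 6) (k (nat_lit 0x1324b0))) (v (nat_lit 3) (k (nat_lit 0x991f2))))))) (a (u (nat_lit 3) (t (nat_lit 4) (nat_lit 7) (nat_lit 9) (k (nat_lit 0x25332b4)))) (a (v (nat_lit 2) (v (nat_lit 2) (k (nat_lit 0x4c8afc8)))) (v (nat_lit 1) (a (a (v (nat_lit 6) (k (nat_lit 0x985ce))) (t (nat_lit 4) (nat_lit 7) (nat_lit 9) (k (nat_lit 0x131c28)))) (a (v (nat_lit 3) (k (nat_lit 0x985ce))) (v (nat_lit 1) (k (nat_lit 0x131e50)))))))))) (u (nat_lit 1) (a (a (v (nat_lit 6) (u (nat_lit 9) (k (nat_lit 0x28831adc)))) (a (t (nat_lit 5) (nat_lit 8) (nat_lit 9) (a (u (nat_lit 8) (k (nat_lit 0x9620a66))) (u (nat_lit 5) (k (nat_lit 0x9620a66))))) (t (nat_lit 4) (nat_lit 7) (nat_lit 9) (u (nat_lit 9) (k (nat_lit 0x70894bc)))))) (a (a (v (nat_lit 3) (a (u (nat_lit 9) (k (nat_lit 0x28831adc))) (u (nat_lit 6) (k (nat_lit 0x11ec4748))))) (u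 (nat_lit 3) (v (nat_lit 6) (k (nat_lit 0x11ec4748))))) (a (v (nat_lit 1) (u (nat_lit 2) (k (nat_lit 0x1349dc)))) (u (nat_lit 1) (v (nat_lit 1) (k (nat_lit 0x131e08))))))))))))) (a (v (nat_lit 0) (a (a (a (a (u (nat_lit 9) (v (nat_lit 9) (v (nat_lit 9) (k (nat_lit 0x132840))))) (u (nat_lit 8) (v (nat_lit 8) (v (nat_lit 9) (k (nat_lit 0x96240)))))) (a (v (nat_lit 6) (v (nat_lit 6) (a (u (nat_lit 9) (k (nat_lit 0x98424))) (a (u (nat_lit 8) (k (nat_lit 0x98e80))) (u (nat_lit 7) (k (nat_lit 0x99048))))))) (u (nat_lit 6) (a (a (v (nat_lit 9) (v (nat_lit 9) (k (nat_lit 0x98cd0)))) (v (nat_lit 8) (a (v (nat_lit 9) (k (nat_lit 0x98e5c))) (v (nat_lit 8) (k (nat_lit 0x98f1c)))))) (a (v (nat_lit 7) (a (v (nat_lit 9) (k (nat_lit 0x9968a))) (a (v (nat_lit 8) (k (nat_lit 0x9966c))) (v (nat_lit 7) (k (nat_lit 0x994b6)))))) (a (v (nat_lit 6) (a (v (nat_lit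 9) (k (nat_lit 0x9bb20))) (v (nat_lit 6) (k (nat_lit 0x98f64))))) (u (nat_lit 6) (v (nat_lit 9) (k (nat_lit 0x9a860)))))))))) (a (a (v (nat_lit 5) (a (u (nat_lit 6) (a (a (v (nat_lit 9) (k (nat_lit 0x98ebc))) (v (nat_lit 8) (k (nat_lit 0x9903c)))) (a (v (nat_lit 7) (k (nat_lit 0x99138))) (v (nat_lit 6) (k (nat_lit 0x96e40)))))) (v (nat_lit 5) (u (nat_lit 6) (k (nat_lit 0x97302)))))) (u (nat_lit 5) (a (v (nat_lit 6) (v (nat_lit 6) (k (nat_lit 0x9b34c)))) (v (nat_lit 5) (a (v (nat_lit 9) (k (nat_lit 0x96240))) (v (nat_lit 6) (k (nat_lit 0x9ae12)))))))) (a (t (nat_lit 5) (nat_lit 8) (nat_lit 9) (t (nat_lit 5) (nat_lit 8) (nat_lit 9) (u (nat_lit 9) (k (nat_lit 0x5fddc8))))) (v (nat_lit 4) (a (a (u (nat_lit 7) (v (nat_lit 7) (k (nat_lit 0x9917a)))) (a (v (nat_lit 6) (a (u (nat_lit 9) (k (nat_lit 0x98b74))) (a (u (nat_lit 8) (k (nat_lit 0x993d8)))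 (u (nat_lit 7) (k (nat_lit 0x98856)))))) (u (nat_lit 6) (a (a (v (nat_lit 9) (k (nat_lit 0x998e8))) (v (nat_lit 8) (k (nat_lit 0x991c8)))) (a (v (nat_lit 7) (k (nat_lit 0x99fae))) (v (nat_lit 6) (k (nat_lit 0x9ae30)))))))) (a (v (nat_lit 5) (u (nat_lit 6) (k (nat_lit 0x998ee)))) (a (u (nat_lit 5) (v (nat_lit 6) (k (nat_lit 0x98cca)))) (v (nat_lit 4) (u (nat_lit 6) (k (nat_lit 0x991b6))))))))))) (a (a (a (u (nat_lit 4) (a (v (nat_lit 6) (a (u (nat_lit 9) (k (nat_lit 0x98316))) (v (nat_lit 6) (k (nat_lit 0x97ce0))))) (v (nat_lit 4) (a (v (nat_lit 7) (k (nat_lit 0x9917a))) (v (nat_lit 6) (k (nat_lit 0x994b0))))))) (t (nat_lit 4) (nat_lit 7) (nat_lit 9) (a (a (u (nat_lit 9) (u (nat_lit 9) (k (nat_lit 0x137478)))) (a (u (nat_lit 8) (u (nat_lit 8) (k (nat_lit 0x6a0664a)))) (u (nat_lit 7) (u (nat_lit 7) (k (nat_lit 0x42d9eba)))))) (a (a (u (nat_lit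 6) (u (nat_lit 7) (k (nat_lit 0x4ba0422)))) (u (nat_lit 5) (u (nat_lit 5) (k (nat_lit 0x6a0664a))))) (a (v (nat_lit 4) (u (nat_lit 7) (k (nat_lit 0x999b4)))) (u (nat_lit 4) (a (v (nat_lit 7) (k (nat_lit 0x999b4))) (a (v (nat_lit 6) (k (nat_lit 0x550932))) (u (nat_lit 4) (k (nat_lit 0x42d9eba))))))))))) (a (v (nat_lit 3) (a (a (a (u (nat_lit 8) (v (nat_lit 8) (k (nat_lit 0x9ae12)))) (v (nat_lit 7) (a (u (nat_lit 9) (k (nat_lit 0x98b74))) (u (nat_lit 8) (k (nat_lit 0x98cca)))))) (a (u (nat_lit 7) (a (u (nat_lit 9) (k (nat_lit 0x98316))) (v (nat_lit 7) (k (nat_lit 0x994b0))))) (a (v (nat_lit 6) (u (nat_lit 9) (k (nat_lit 0x14a384)))) (u (nat_lit 6) (a (v (nat_lit 9) (k (nat_lit 0x99936))) (a (v (nat_lit 8) (k (nat_lit 0x9a52a))) (v (nat_lit 7) (k (nat_lit 0x9bd7e))))))))) (a (a (v (nat_lit 5) (u (nat_lit 6) (k (nat_lit 0x9932a)))) (a (u (nat_lit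 5) (v (nat_lit 7) (k (nat_lit 0x993d8)))) (v (nat_lit 4) (u (nat_lit 6) (k (nat_lit 0x996ea)))))) (a (u (nat_lit 4) (v (nat_lit 7) (k (nat_lit 0x98856)))) (a (t (nat_lit 4) (nat_lit 7) (nat_lit 9) (u (nat_lit 7) (k (nat_lit 0x550932)))) (v (nat_lit 3) (a (a (u (nat_lit 9) (k (nat_lit 0x98424))) (a (u (nat_lit 8) (k (nat_lit 0x9b34c))) (u (nat_lit 7) (k (nat_lit 0x97ce0))))) (a (u (nat_lit 6) (k (nat_lit 0x993a8))) (a (u (nat_lit 5) (k (nat_lit 0x98e80))) (u (nat_lit 4) (k (nat_lit 0x99048)))))))))))) (u (nat_lit 3) (a (a (a (v (nat_lit 9) (v (nat_lit 9) (k (nat_lit 0x98cd0)))) (v (nat_lit 8) (a (v (nat_lit 9) (k (nat_lit 0x98ebc))) (v (nat_lit 8) (k (nat_lit 0x97302)))))) (a (v (nat_lit 7) (a (v (nat_lit 9) (k (nat_lit 0x998e8))) (a (v (nat_lit 8) (k (nat_lit 0x998ee))) (v (nat_lit 7) (k (nat_lit 0x991b6)))))) (v (nat_lit 6) (a (a (v (nat_lit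 9) (k (nat_lit 0x99936))) (v (nat_lit 8) (k (nat_lit 0x9932a)))) (a (v (nat_lit 7) (k (nat_lit 0x996ea))) (v (nat_lit 6) (k (nat_lit 0x993a8)))))))) (a (a (v (nat_lit 5) (a (a (v (nat_lit 9) (k (nat_lit 0x98e5c))) (v (nat_lit 8) (k (nat_lit 0x9903c)))) (a (v (nat_lit 7) (k (nat_lit 0x991c8))) (a (v (nat_lit 6) (k (nat_lit 0x9a52a))) (v (nat_lit 5) (k (nat_lit 0x98f1c))))))) (v (nat_lit 4) (a (a (v (nat_lit 9) (k (nat_lit 0x9968a))) (a (v (nat_lit 8) (k (nat_lit 0x99138))) (v (nat_lit 7) (k (nat_lit 0x99fae))))) (a (v (nat_lit 6) (k (nat_lit 0x9bd7e))) (a (v (nat_lit 5) (k (nat_lit 0x9966c))) (v (nat_lit 4) (k (nat_lit 0x994b6)))))))) (a (t (nat_lit 4) (nat_lit 7) (nat_lit 9) (u (nat_lit 4) (k (nat_lit 0x4ba0422)))) (a (v (nat_lit 3) (a (a (v (nat_lit 9) (k (nat_lit 0x9bb20))) (v (nat_lit 8) (k (nat_lit 0x96e40)))) (a (v (nat_lit 7) (k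 (nat_lit 0x9ae30))) (v (nat_lit 3) (k (nat_lit 0x98f64)))))) (u (nat_lit 3) (v (nat_lit 9) (k (nat_lit 0x9a860))))))))))) (a (a (v (nat_lit 2) (a (a (a (u (nat_lit 9) (v (nat_lit 9) (k (nat_lit 0x132720)))) (a (v (nat_lit 8) (u (nat_lit 9) (k (nat_lit 0x99918)))) (u (nat_lit 8) (v (nat_lit 8) (k (nat_lit 0x991c8)))))) (a (a (v (nat_lit 7) (a (u (nat_lit 9) (k (nat_lit 0x99390))) (u (nat_lit 8) (k (nat_lit 0x98ff4))))) (u (nat_lit 7) (v (nat_lit 7) (k (nat_lit 0x991d4))))) (a (v (nat_lit 6) (a (u (nat_lit 9) (k (nat_lit 0x9935a))) (a (u (nat_lit 8) (k (nat_lit 0x990f0))) (u (nat_lit 7) (k (nat_lit 0x99480)))))) (u (nat_lit 6) (v (nat_lit 6) (k (nat_lit 0x99864))))))) (a (a (a (v (nat_lit 5) (a (u (nat_lit 9) (k (nat_lit 0x99918))) (u (nat_lit 8) (k (nat_lit 0x99060))))) (u (nat_lit 5) (a (a (v (nat_lit 8) (k (nat_lit 0x99060))) (v (nat_lit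 7) (k (nat_lit 0x992dc)))) (a (v (nat_lit 6) (k (nat_lit 0x99378))) (v (nat_lit 5) (k (nat_lit 0x991c8))))))) (a (v (nat_lit 4) (a (a (u (nat_lit 9) (k (nat_lit 0x99390))) (u (nat_lit 8) (k (nat_lit 0x992dc)))) (a (u (nat_lit 7) (k (nat_lit 0x99228))) (u (nat_lit 5) (k (nat_lit 0x98ff4)))))) (u (nat_lit 4) (a (v (nat_lit 7) (k (nat_lit 0x99228))) (a (v (nat_lit 6) (k (nat_lit 0x9949e))) (v (nat_lit 4) (k (nat_lit 0x991d4)))))))) (a (a (t (nat_lit 4) (nat_lit 7) (nat_lit 9) (u (nat_lit 9) (k (nat_lit 0x75b2704)))) (v (nat_lit 3) (a (a (u (nat_lit 9) (k (nat_lit 0x9935a))) (a (u (nat_lit 8) (k (nat_lit 0x99378))) (u (nat_lit 7) (k (nat_lit 0x9949e))))) (a (u (nat_lit 6) (k (nat_lit 0x9a0f8))) (a (u (nat_lit 5) (k (nat_lit 0x990f0))) (u (nat_lit 4) (k (nat_lit 0x99480)))))))) (a (u (nat_lit 3) (a (v (nat_lit 6) (k (nat_lit 0x9a0f8))) (v (nat_lit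 3) (k (nat_lit 0x99864))))) (v (nat_lit 2) (a (a (u (nat_lit 9) (k (nat_lit 0x131c34))) (a (u (nat_lit 8) (k (nat_lit 0x9909c))) (u (nat_lit 7) (k (nat_lit 0x98e32))))) (a (a (u (nat_lit 6) (k (nat_lit 0x989fa))) (u (nat_lit 5) (k (nat_lit 0x9909c)))) (a (u (nat_lit 4) (k (nat_lit 0x98e32))) (u (nat_lit 3) (k (nat_lit 0x989fa)))))))))))) (u (nat_lit 2) (a (a (v (nat_lit 6) (v (nat_lit 6) (k (nat_lit 0x98d54)))) (a (u (nat_lit 6) (a (u (nat_lit 9) (k (nat_lit 0x98e14))) (a (v (nat_lit 8) (k (nat_lit 0x98ca0))) (v (nat_lit 7) (k (nat_lit 0x99396)))))) (t (nat_lit 4) (nat_lit 7) (nat_lit 9) (a (u (nat_lit 7) (k (nat_lit 0x758c424))) (a (u (nat_lit 6) (k (nat_lit 0x64dbd76))) (u (nat_lit 4) (k (nat_lit 0x758c424)))))))) (a (v (nat_lit 3) (v (nat_lit 3) (k (nat_lit 0x98d54)))) (a (u (nat_lit 3) (a (a (u (nat_lit 9) (k (nat_lit 0x98e14))) (v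 (nat_lit 5) (k (nat_lit 0x98ca0)))) (a (v (nat_lit 4) (k (nat_lit 0x99396))) (t (nat_lit 4) (nat_lit 7) (nat_lit 9) (k (nat_lit 0x64dbd76)))))) (v (nat_lit 2) (a (a (a (v (nat_lit 9) (k (nat_lit 0x1322f4))) (v (nat_lit 8) (k (nat_lit 0x99024)))) (a (v (nat_lit 7) (k (nat_lit 0x9913e))) (a (v (nat_lit 6) (k (nat_lit 0x991d4))) (u (nat_lit 6) (k (nat_lit 0x9893a)))))) (a (a (v (nat_lit 5) (k (nat_lit 0x99024))) (v (nat_lit 4) (k (nat_lit 0x9913e)))) (a (v (nat_lit 3) (k (nat_lit 0x991d4))) (a (u (nat_lit 3) (k (nat_lit 0x9893a))) (v (nat_lit 2) (k (nat_lit 0x131dd8))))))))))))) (a (v (nat_lit 1) (a (a (a (u (nat_lit 9) (v (nat_lit 9) (k (nat_lit 0x1365c0)))) (a (v (nat_lit 8) (u (nat_lit 9) (k (nat_lit 0x9ad70)))) (u (nat_lit 8) (a (v (nat_lit 9) (k (nat_lit 0x97aca))) (v (nat_lit 8) (k (nat_lit 0x97c80))))))) (a (u (nat_lit 7) (u (nat_lit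 8) (k (nat_lit 0x384076e)))) (a (v (nat_lit 6) (u (nat_lit 9) (k (nat_lit 0x981e7d8)))) (u (nat_lit 6) (a (v (nat_lit 9) (k (nat_lit 0x99b8e))) (u (nat_lit 8) (k (nat_lit 0x99546)))))))) (a (a (v (nat_lit 5) (a (u (nat_lit 9) (k (nat_lit 0x9ad70))) (u (nat_lit 8) (k (nat_lit 0x99804))))) (a (u (nat_lit 5) (a (v (nat_lit 9) (k (nat_lit 0x97aca))) (a (v (nat_lit 8) (k (nat_lit 0x99804))) (v (nat_lit 5) (k (nat_lit 0x97c80)))))) (u (nat_lit 4) (u (nat_lit 5) (k (nat_lit 0x384076e)))))) (a (a (v (nat_lit 3) (u (nat_lit 9) (k (nat_lit 0x981e7d8)))) (u (nat_lit 3) (a (v (nat_lit 9) (k (nat_lit 0x99b8e))) (u (nat_lit 5) (k (nat_lit 0x99546)))))) (a (u (nat_lit 2) (v (nat_lit 2) (k (nat_lit 0x132de0)))) (v (nat_lit 1) (a (a (u (nat_lit 9) (k (nat_lit 0x1360c8))) (u (nat_lit 6) (k (nat_lit 0x9986a)))) (a (u (nat_lit 3) (k (nat_lit 0x9986a))) (u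 (nat_lit 2) (k (nat_lit 0x131e50))))))))))) (a (u (nat_lit 1) (a (a (a (v (nat_lit 9) (v (nat_lit 9) (k (nat_lit 0x12dd88)))) (v (nat_lit 8) (a (v (nat_lit 9) (k (nat_lit 0x99a26))) (v (nat_lit 8) (k (nat_lit 0x9a308)))))) (a (v (nat_lit 7) (a (v (nat_lit 9) (k (nat_lit 0x990c0))) (a (v (nat_lit 8) (k (nat_lit 0x98f2e))) (v (nat_lit 7) (k (nat_lit 0x98f64)))))) (a (v (nat_lit 6) (a (a (v (nat_lit 9) (k (nat_lit 0x98e92))) (v (nat_lit 8) (k (nat_lit 0x99012)))) (a (v (nat_lit 7) (k (nat_lit 0x98fb2))) (v (nat_lit 6) (k (nat_lit 0x98ec8)))))) (v (nat_lit 5) (a (a (v (nat_lit 9) (k (nat_lit 0x99a26))) (v (nat_lit 8) (k (nat_lit 0x1318b0)))) (a (v (nat_lit 7) (k (nat_lit 0x99030))) (a (v (nat_lit 6) (k (nat_lit 0x99114))) (v (nat_lit 5) (k (nat_lit 0x9a308)))))))))) (a (a (v (nat_lit 4) (a (a (v (nat_lit 9) (k (nat_lit 0x990c0))) (a (v (nat_lit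 8) (k (nat_lit 0x99030))) (v (nat_lit 7) (k (nat_lit 0x1320cc))))) (a (v (nat_lit 6) (k (nat_lit 0x991d4))) (a (v (nat_lit 5) (k (nat_lit 0x98f2e))) (v (nat_lit 4) (k (nat_lit 0x98f64))))))) (t (nat_lit 4) (nat_lit 7) (nat_lit 9) (a (u (nat_lit 7) (k (nat_lit 0x7ac7ca8))) (u (nat_lit 4) (k (nat_lit 0x7ac7ca8)))))) (a (v (nat_lit 3) (a (a (v (nat_lit 9) (k (nat_lit 0x98e92))) (a (v (nat_lit 8) (k (nat_lit 0x99114))) (v (nat_lit 7) (k (nat_lit 0x991d4))))) (a (a (v (nat_lit 6) (k (nat_lit 0x131d48))) (v (nat_lit 5) (k (nat_lit 0x99012)))) (a (v (nat_lit 4) (k (nat_lit 0x98fb2))) (v (nat_lit 3) (k (nat_lit 0x98ec8))))))) (a (v (nat_lit 2) (a (a (a (v (nat_lit 9) (k (nat_lit 0x131ac0))) (v (nat_lit 8) (k (nat_lit 0x98fd0)))) (a (v (nat_lit 7) (k (nat_lit 0x98f70))) (v (nat_lit 6) (k (nat_lit 0x990cc))))) (a (a (v (nat_lit 5) (k (nat_lit 0x98fd0)))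 (v (nat_lit 4) (k (nat_lit 0x98f70)))) (a (v (nat_lit 3) (k (nat_lit 0x990cc))) (v (nat_lit 2) (k (nat_lit 0x131b38))))))) (v (nat_lit 1) (a (a (a (v (nat_lit 9) (k (nat_lit 0x132180))) (v (nat_lit 8) (k (nat_lit 0x98eec)))) (a (v (nat_lit 7) (k (nat_lit 0x9930c))) (a (u (nat_lit 7) (k (nat_lit 0x98fdc))) (u (nat_lit 6) (k (nat_lit 0x99162)))))) (a (a (v (nat_lit 5) (k (nat_lit 0x98eec))) (v (nat_lit 4) (k (nat_lit 0x9930c)))) (a (u (nat_lit 4) (k (nat_lit 0x98fdc))) (a (u (nat_lit 3) (k (nat_lit 0x99162))) (v (nat_lit 1) (k (nat_lit 0x132000))))))))))))) (v (nat_lit 0) (a (a (a (a (u (nat_lit 9) (v (nat_lit 9) (k (nat_lit 0x132cc0)))) (v (nat_lit 8) (u (nat_lit 9) (k (nat_lit 0x99732))))) (a (u (nat_lit 8) (v (nat_lit 8) (k (nat_lit 0x991e6)))) (v (nat_lit 7) (a (u (nat_lit 9) (k (nat_lit 0x99360))) (u (nat_lit 8) (k (nat_lit 0x99054)))))))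 (a (a (u (nat_lit 7) (v (nat_lit 7) (k (nat_lit 0x99174)))) (v (nat_lit 6) (u (nat_lit 9) (k (nat_lit 0x992f4))))) (a (u (nat_lit 6) (a (a (v (nat_lit 9) (k (nat_lit 0x99180))) (v (nat_lit 8) (k (nat_lit 0x99198)))) (a (v (nat_lit 7) (k (nat_lit 0x355f1f4))) (v (nat_lit 6) (k (nat_lit 0x99144)))))) (a (v (nat_lit 5) (a (u (nat_lit 9) (k (nat_lit 0x99732))) (a (u (nat_lit 8) (k (nat_lit 0x9922e))) (u (nat_lit 6) (k (nat_lit 0x99018)))))) (u (nat_lit 5) (a (v (nat_lit 8) (k (nat_lit 0x9922e))) (a (v (nat_lit 7) (k (nat_lit 0x991a4))) (v (nat_lit 5) (k (nat_lit 0x991e6)))))))))) (a (a (a (t (nat_lit 5) (nat_lit 8) (nat_lit 9) (u (nat_lit 9) (k (nat_lit 0xa48fe0)))) (v (nat_lit 4) (a (a (u (nat_lit 9) (k (nat_lit 0x99360))) (u (nat_lit 8) (k (nat_lit 0x991a4)))) (a (u (nat_lit 7) (k (nat_lit 0x9965a))) (a (u (nat_lit 6) (k (nat_lit 0x9a074)))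 (u (nat_lit 5) (k (nat_lit 0x99054)))))))) (a (u (nat_lit 4) (a (v (nat_lit 7) (k (nat_lit 0x9965a))) (v (nat_lit 4) (k (nat_lit 0x99174))))) (a (v (nat_lit 3) (a (u (nat_lit 9) (k (nat_lit 0x992f4))) (u (nat_lit 6) (k (nat_lit 0x991aa))))) (u (nat_lit 3) (a (a (v (nat_lit 9) (k (nat_lit 0x99180))) (a (v (nat_lit 8) (k (nat_lit 0x99018))) (v (nat_lit 7) (k (nat_lit 0x9a074))))) (a (a (v (nat_lit 6) (k (nat_lit 0x991aa))) (v (nat_lit 5) (k (nat_lit 0x99198)))) (a (v (nat_lit 4) (k (nat_lit 0x355f1f4))) (v (nat_lit 3) (k (nat_lit 0x99144)))))))))) (a (a (v (nat_lit 2) (a (a (u (nat_lit 9) (k (nat_lit 0x132528))) (a (u (nat_lit 8) (k (nat_lit 0x98b44))) (u (nat_lit 7) (k (nat_lit 0x98f0a))))) (a (a (u (nat_lit 6) (k (nat_lit 0x98e14))) (u (nat_lit 5) (k (nat_lit 0x98b44)))) (a (u (nat_lit 4) (k (nat_lit 0x98f0a))) (u (nat_lit 3) (k (nat_lit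 0x98e14))))))) (u (nat_lit 2) (a (a (v (nat_lit 9) (k (nat_lit 0x1317a8))) (a (v (nat_lit 8) (k (nat_lit 0x992c4))) (v (nat_lit 7) (k (nat_lit 0x98e26))))) (a (v (nat_lit 5) (k (nat_lit 0x992c4))) (a (v (nat_lit 4) (k (nat_lit 0x98e26))) (v (nat_lit 2) (k (nat_lit 0x131b74)))))))) (a (v (nat_lit 1) (a (a (a (u (nat_lit 9) (k (nat_lit 0x11c0bb0))) (u (nat_lit 8) (k (nat_lit 0x99018)))) (a (u (nat_lit 7) (k (nat_lit 0x99bfa))) (u (nat_lit 6) (k (nat_lit 0x999ea))))) (a (a (u (nat_lit 5) (k (nat_lit 0x99018))) (u (nat_lit 4) (k (nat_lit 0x99bfa)))) (a (u (nat_lit 3) (k (nat_lit 0x999ea))) (u (nat_lit 2) (k (nat_lit 0x132084))))))) (a (u (nat_lit 1) (a (u (nat_lit 6) (k (nat_lit 0x98c46))) (a (u (nat_lit 3) (k (nat_lit 0x98c46))) (v (nat_lit 1) (k (nat_lit 0x131fdc)))))) (v (nat_lit 0) (a (a (a (u (nat_lit 9) (k (nat_lit 0x131f10))) (u (nat_lit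 8) (k (nat_lit 0x98f10)))) (a (u (nat_lit 7) (k (nat_lit 0x98d60))) (u (nat_lit 6) (k (nat_lit 0x987cc))))) (a (a (u (nat_lit 5) (k (nat_lit 0x98f10))) (u (nat_lit 4) (k (nat_lit 0x98d60)))) (a (u (nat_lit 3) (k (nat_lit 0x987cc))) (a (u (nat_lit 2) (k (nat_lit 0x131a60))) (u (nat_lit 1) (k (nat_lit 0x131e44)))))))))))))))))))) (u (nat_lit 0) (a (a (a (v (nat_lit 8) (a (v (nat_lit 9) (v (nat_lit 9) (k (nat_lit 0x96ee2)))) (v (nat_lit 8) (a (v (nat_lit 9) (k (nat_lit 0x9b6fa))) (v (nat_lit 8) (k (nat_lit 0x98bf8))))))) (a (u (nat_lit 8) (u (nat_lit 9) (v (nat_lit 9) (k (nat_lit 0x9a746))))) (v (nat_lit 7) (a (v (nat_lit 9) (v (nat_lit 9) (k (nat_lit 0x98d00)))) (a (v (nat_lit 8) (a (v (nat_lit 9) (k (nat_lit 0x98ce8))) (v (nat_lit 8) (k (nat_lit 0x98ca6))))) (v (nat_lit 7) (a (v (nat_lit 9) (k (nat_lit 0x98d4e))) (a (v (nat_lit 8) (k (nat_lit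 0x98cdc))) (v (nat_lit 7) (k (nat_lit 0x98d06))))))))))) (a (v (nat_lit 6) (u (nat_lit 8) (v (nat_lit 8) (k (nat_lit 0x181755a8))))) (a (v (nat_lit 5) (a (a (v (nat_lit 9) (v (nat_lit 9) (k (nat_lit 0x96ee2)))) (v (nat_lit 8) (a (v (nat_lit 9) (k (nat_lit 0x131130))) (v (nat_lit 8) (k (nat_lit 0x989e8)))))) (a (v (nat_lit 7) (a (v (nat_lit 9) (k (nat_lit 0x98c28))) (a (v (nat_lit 8) (k (nat_lit 0x98d78))) (v (nat_lit 7) (k (nat_lit 0x98d84)))))) (v (nat_lit 5) (a (a (v (nat_lit 9) (k (nat_lit 0x9b6fa))) (v (nat_lit 8) (k (nat_lit 0x989e8)))) (a (v (nat_lit 7) (k (nat_lit 0x98d36))) (v (nat_lit 5) (k (nat_lit 0x98bf8))))))))) (u (nat_lit 5) (u (nat_lit 9) (v (nat_lit 9) (k (nat_lit 0x9a746)))))))) (a (a (v (nat_lit 4) (a (a (v (nat_lit 9) (v (nat_lit 9) (k (nat_lit 0x98d00)))) (v (nat_lit 8) (a (v (nat_lit 9) (k (nat_lit 0x98c28))) (v (nat_lit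 8) (k (nat_lit 0x98d36)))))) (a (v (nat_lit 7) (a (v (nat_lit 9) (k (nat_lit 0x131898))) (v (nat_lit 8) (k (nat_lit 0x98cdc))))) (a (v (nat_lit 5) (a (a (v (nat_lit 9) (k (nat_lit 0x98ce8))) (v (nat_lit 8) (k (nat_lit 0x98d78)))) (a (v (nat_lit 7) (k (nat_lit 0x98cdc))) (v (nat_lit 5) (k (nat_lit 0x98ca6)))))) (v (nat_lit 4) (a (a (v (nat_lit 9) (k (nat_lit 0x98d4e))) (v (nat_lit 8) (k (nat_lit 0x98d84)))) (a (v (nat_lit 5) (k (nat_lit 0x98cdc))) (v (nat_lit 4) (k (nat_lit 0x98d06)))))))))) (a (v (nat_lit 3) (a (u (nat_lit 5) (v (nat_lit 5) (k (nat_lit 0x181755a8)))) (v (nat_lit 3) (u (nat_lit 6) (k (nat_lit 0xf3f24)))))) (u (nat_lit 3) (v (nat_lit 6) (v (nat_lit 6) (k (nat_lit 0xf3f24))))))) (a (a (u (nat_lit 2) (a (t (nat_lit 5) (nat_lit 8) (nat_lit 9) (a (u (nat_lit 8) (k (nat_lit 0x99870))) (u (nat_lit 5) (k (nat_lit 0x99870))))) (t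 (nat_lit 4) (nat_lit 7) (nat_lit 9) (t (nat_lit 5) (nat_lit 8) (nat_lit 9) (k (nat_lit 0xe9c92a4)))))) (u (nat_lit 1) (a (v (nat_lit 6) (v (nat_lit 7) (k (nat_lit 0xaa9be)))) (v (nat_lit 3) (v (nat_lit 4) (k (nat_lit 0xaa9be))))))) (a (v (nat_lit 0) (a (v (nat_lit 1) (a (a (a (u (nat_lit 9) (k (nat_lit 0x132684))) (v (nat_lit 8) (k (nat_lit 0x98fd0)))) (a (v (nat_lit 7) (k (nat_lit 0x98f52))) (v (nat_lit 6) (k (nat_lit 0x98a90))))) (a (a (v (nat_lit 5) (k (nat_lit 0x98fd0))) (v (nat_lit 4) (k (nat_lit 0x98f52)))) (a (v (nat_lit 3) (k (nat_lit 0x98a90))) (a (v (nat_lit 2) (k (nat_lit 0x131df0))) (v (nat_lit 1) (k (nat_lit 0x131e5c)))))))) (a (u (nat_lit 1) (t (nat_lit 4) (nat_lit 7) (nat_lit 9) (k (nat_lit 0x4fe54e4)))) (v (nat_lit 0) (a (a (v (nat_lit 6) (k (nat_lit 0x99384))) (v (nat_lit 3) (k (nat_lit 0x99384)))) (a (v (nat_lit 1) (k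 (nat_lit 0x131a48))) (v (nat_lit 0) (k (nat_lit 0x131aa8))))))))) (u (nat_lit 0) (a (t (nat_lit 5) (nat_lit 8) (nat_lit 9) (a (u (nat_lit 8) (k (nat_lit 0x990ba))) (u (nat_lit 5) (k (nat_lit 0x990ba))))) (v (nat_lit 0) (v (nat_lit 1) (k (nat_lit 0x1320e4))))))))))))))))

open Fl.Tr in
/-- the table -/
noncomputable def T : Fl.Tr := (c (c (c (c (c (c (c (c (c (c (m (nat_lit 0x6dcdba40)) (c (p (nat_lit 0xaa7d7580)) (c (m (nat_lit 0x1175d720)) (c (m (nat_lit 0x38902230)) (c (p (nat_lit 0xd563e10)) e))))) (c (c (p (nat_lit 0x17846ce8)) (c (m (nat_lit 0x224c6958)) (c (p (nat_lit 0x21fa86d8)) (c (m (nat_lit 0x3855ea0)) e)))) (c (c (m (nat_lit 0x2502294)) (c (m (nat_lit 0x3e4e7cc)) (c (m (nat_lit 0x371ee48)) e))) (c (c (p (nat_lit 0x5fb4b8)) (c (m (nat_lit 0x1325ac)) e)) (c (c (m (nat_lit 0x1325f4)) e) e))))) (c (c (c (p (nat_lit 0x151e5010))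 (c (m (nat_lit 0x246211b0)) (c (p (nat_lit 0xb6cd0c)) (c (p (nat_lit 0xed94c38)) e)))) (c (c (p (nat_lit 0x5b526a48)) (c (p (nat_lit 0x450a4550)) (c (m (nat_lit 0xb9aad10)) e))) (c (c (m (nat_lit 0x14d870d8)) (c (p (nat_lit 0x7d43018)) e)) (c (c (m (nat_lit 0x98d54)) e) e)))) (c (c (c (p (nat_lit 0x4385df48)) (c (m (nat_lit 0x3ba78a08)) (c (m (nat_lit 0x7de5720)) e))) (c (c (m (nat_lit 0x525f85e0)) (c (m (nat_lit 0x10793118)) e)) (c (c (p (nat_lit 0xc9b2344)) e) e))) (c (c (c (m (nat_lit 0xda37fd8)) (c (p (nat_lit 0xdd34114)) e)) (c (c (p (nat_lit 0xd68a530)) e) e)) (c (c (c (m (nat_lit 0x98d90)) e) e) e))))) (c (c (c (c (p (nat_lit 0xa4d99408)) (c (m (nat_lit 0x755ff184)) (c (m (nat_lit 0x15ff8fe8)) (c (p (nat_lit 0xcf5b7dc)) e)))) (c (c (p (nat_lit 0x3895122c)) (c (p (nat_lit 0xd42abb0)) (c (m (nat_lit 0x74b4c4)) e))) (c (c (m (nat_lit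 0xcb909dc)) (c (m (nat_lit 0x47892e4)) e)) (c (c (m (nat_lit 0x2460078)) e) e)))) (c (c (c (p (nat_lit 0x231024c)) (c (p (nat_lit 0xd173bac)) (c (p (nat_lit 0x3158778)) e))) (c (c (m (nat_lit 0x6f3072c)) (c (m (nat_lit 0x8fb0740)) e)) (c (c (m (nat_lit 0x998a0)) e) e))) (c (c (c (m (nat_lit 0x91ac3ac)) (c (p (nat_lit 0x1c80)) e)) (c (c (m (nat_lit 0x97ab8)) e) e)) (c (c (c (m (nat_lit 0x1619dc0)) e) e) e)))) (c (c (c (c (m (nat_lit 0xe2e91d4)) (c (p (nat_lit 0x127951bc)) (c (m (nat_lit 0x1b6d134)) e))) (c (c (p (nat_lit 0x165fb3d0)) (c (m (nat_lit 0x79ca3d0)) e)) (c (c (m (nat_lit 0x77ccf58)) e) e))) (c (c (c (p (nat_lit 0xd130250)) (c (p (nat_lit 0xa5ae0)) e)) (c (c (p (nat_lit 0x2214)) e) e)) (c (c (c (m (nat_lit 0x99e04)) e) e) e))) (c (c (c (c (m (nat_lit 0x44d1d4)) (c (p (nat_lit 0x3969b4)) e)) (c (c (m (nat_lit 0x2d0)) e) e)) (c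 (c (c (m (nat_lit 0x132054)) e) e) e)) (c (c (c (c (p (nat_lit 0x2dc)) e) e) e) e))))) (c (c (c (c (c (p (nat_lit 0x17846ce8)) (c (m (nat_lit 0x224c6958)) (c (p (nat_lit 0x21fa86d8)) (c (m (nat_lit 0x3855ea0)) e)))) (c (c (m (nat_lit 0x2acc8358)) (c (p (nat_lit 0x1b58da00)) (c (m (nat_lit 0x44cb590)) e))) (c (c (m (nat_lit 0x2113254)) (c (p (nat_lit 0x29735c4)) e)) (c (c (m (nat_lit 0x1cb864)) e) e)))) (c (c (c (p (nat_lit 0x71f6f844)) (c (p (nat_lit 0x2effae68)) (c (m (nat_lit 0xc47adc8)) e))) (c (c (p (nat_lit 0xbec2264)) (c (m (nat_lit 0x170ad248)) e)) (c (c (p (nat_lit 0x2973ba0)) e) e))) (c (c (c (m (nat_lit 0x5d5ac870)) (c (m (nat_lit 0x33873d8)) e)) (c (c (p (nat_lit 0xa4ca060)) e) e)) (c (c (c (p (nat_lit 0xf5b86c)) e) e) e)))) (c (c (c (c (p (nat_lit 0x185fe8b4)) (c (p (nat_lit 0x13f8738)) (c (p (nat_lit 0xaaf4b28)) e))) (c (c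 (p (nat_lit 0x21c4fc08)) (c (m (nat_lit 0x46f125c)) e)) (c (c (m (nat_lit 0x4788b28)) e) e))) (c (c (c (m (nat_lit 0x572abdc)) (c (p (nat_lit 0x1c80dc8)) e)) (c (c (m (nat_lit 0x993e4)) e) e)) (c (c (c (p (nat_lit 0x1d20f44)) e) e) e))) (c (c (c (c (p (nat_lit 0x16ca3d30)) (c (m (nat_lit 0x7f3461c)) e)) (c (c (m (nat_lit 0xf5049d8)) e) e)) (c (c (c (m (nat_lit 0x1164c9c)) e) e) e)) (c (c (c (c (m (nat_lit 0x5dc)) e) e) e) e)))) (c (c (c (c (c (m (nat_lit 0x2502294)) (c (m (nat_lit 0x3e4e7cc)) (c (m (nat_lit 0x371ee48)) e))) (c (c (m (nat_lit 0x2113254)) (c (p (nat_lit 0x29735c4)) e)) (c (c (m (nat_lit 0x263f58)) e) e))) (c (c (c (m (nat_lit 0x1987050c)) (c (m (nat_lit 0xd1ddf8c)) e)) (c (c (p (nat_lit 0x2a0c7ec)) e) e)) (c (c (c (p (nat_lit 0x12135204)) e) e) e))) (c (c (c (c (m (nat_lit 0xcc46164)) (c (p (nat_lit 0x13a4)) e)) (c (c (m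 (nat_lit 0x23c3124)) e) e)) (c (c (c (p (nat_lit 0x9d608)) e) e) e)) (c (c (c (c (m (nat_lit 0x7e6a080)) e) e) e) e))) (c (c (c (c (c (p (nat_lit 0x5fb4b8)) (c (m (nat_lit 0x1325ac)) e)) (c (c (m (nat_lit 0x1cb864)) e) e)) (c (c (c (m (nat_lit 0x9873c)) e) e) e)) (c (c (c (c (m (nat_lit 0x99294)) e) e) e) e)) (c (c (c (c (c (m (nat_lit 0x1325f4)) e) e) e) e) e))))) (c (c (c (c (c (c (p (nat_lit 0x151e5010)) (c (m (nat_lit 0x246211b0)) (c (p (nat_lit 0xb6cd0c)) (c (p (nat_lit 0xed94c38)) e)))) (c (c (p (nat_lit 0x71f6f844)) (c (p (nat_lit 0x2effae68)) (c (m (nat_lit 0xc47adc8)) e))) (c (c (m (nat_lit 0x1987050c)) (c (m (nat_lit 0xd1ddf8c)) e)) (c (c (m (nat_lit 0x9873c)) e) e)))) (c (c (c (m (nat_lit 0x1dbe84c0)) (c (p (nat_lit 0x26d0d290)) (c (m (nat_lit 0x95ea100)) e))) (c (c (p (nat_lit 0x47e74cc)) (c (m (nat_lit 0x1d3e31dc)) e)) (c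 (c (p (nat_lit 0x2340390)) e) e))) (c (c (c (m (nat_lit 0xd67cc4)) (c (p (nat_lit 0x1360cb0)) e)) (c (c (p (nat_lit 0x132318)) e) e)) (c (c (c (m (nat_lit 0x131db4)) e) e) e)))) (c (c (c (c (m (nat_lit 0x69a618b0)) (c (p (nat_lit 0x6918de9c)) (c (p (nat_lit 0x30bb038)) e))) (c (c (m (nat_lit 0xe1f3c3c)) (c (p (nat_lit 0x37c9044)) e)) (c (c (m (nat_lit 0x99204)) e) e))) (c (c (c (p (nat_lit 0x9d07a84)) (c (m (nat_lit 0x4347360)) e)) (c (c (p (nat_lit 0xc5acffc)) e) e)) (c (c (c (m (nat_lit 0x9e514)) e) e) e))) (c (c (c (c (m (nat_lit 0x2934)) (c (p (nat_lit 0x2298)) e)) (c (c (m (nat_lit 0x270a290)) e) e)) (c (c (c (m (nat_lit 0xd1d7f50)) e) e) e)) (c (c (c (c (m (nat_lit 0x1319dc)) e) e) e) e)))) (c (c (c (c (c (p (nat_lit 0x5b526a48)) (c (p (nat_lit 0x450a4550)) (c (m (nat_lit 0xb9aad10)) e))) (c (c (p (nat_lit 0xbec2264)) (c (m (nat_lit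 0x170ad248)) e)) (c (c (p (nat_lit 0x2a0c7ec)) e) e))) (c (c (c (p (nat_lit 0x47e74cc)) (c (m (nat_lit 0x1d3e31dc)) e)) (c (c (m (nat_lit 0x24488910)) e) e)) (c (c (c (m (nat_lit 0xc5fd210)) e) e) e))) (c (c (c (c (m (nat_lit 0x12df6d40)) (c (m (nat_lit 0xd704738)) e)) (c (c (m (nat_lit 0x99c9c)) e) e)) (c (c (c (p (nat_lit 0x1c86504)) e) e) e)) (c (c (c (c (p (nat_lit 0x9c09c)) e) e) e) e))) (c (c (c (c (c (m (nat_lit 0x14d870d8)) (c (p (nat_lit 0x7d43018)) e)) (c (c (p (nat_lit 0x2973ba0)) e) e)) (c (c (c (p (nat_lit 0x2340390)) e) e) e)) (c (c (c (c (p (nat_lit 0x1004475c)) e) e) e) e)) (c (c (c (c (c (m (nat_lit 0x98d54)) e) e) e) e) e)))) (c (c (c (c (c (c (p (nat_lit 0x4385df48)) (c (m (nat_lit 0x3ba78a08)) (c (m (nat_lit 0x7de5720)) e))) (c (c (m (nat_lit 0x5d5ac870)) (c (m (nat_lit 0x33873d8)) e)) (c (c (p (nat_lit 0x12135204))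 e) e))) (c (c (c (m (nat_lit 0xd67cc4)) (c (p (nat_lit 0x1360cb0)) e)) (c (c (m (nat_lit 0xc5fd210)) e) e)) (c (c (c (m (nat_lit 0x263ad8)) e) e) e))) (c (c (c (c (p (nat_lit 0x1ba83e34)) (c (m (nat_lit 0x1a848a70)) e)) (c (c (p (nat_lit 0xc647340)) e) e)) (c (c (c (m (nat_lit 0x98d24)) e) e) e)) (c (c (c (c (m (nat_lit 0x990b4)) e) e) e) e))) (c (c (c (c (c (m (nat_lit 0x525f85e0)) (c (m (nat_lit 0x10793118)) e)) (c (c (p (nat_lit 0xa4ca060)) e) e)) (c (c (c (p (nat_lit 0x132318)) e) e) e)) (c (c (c (c (m (nat_lit 0x98cf4)) e) e) e) e)) (c (c (c (c (c (p (nat_lit 0xc9b2344)) e) e) e) e) e))) (c (c (c (c (c (c (m (nat_lit 0xda37fd8)) (c (p (nat_lit 0xdd34114)) e)) (c (c (p (nat_lit 0xf5b86c)) e) e)) (c (c (c (m (nat_lit 0x131db4)) e) e) e)) (c (c (c (c (p (nat_lit 0x1e48)) e) e) e) e)) (c (c (c (c (c (p (nat_lit 0xd68a530)) e) e) e) e)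 e)) (c (c (c (c (c (c (m (nat_lit 0x98d90)) e) e) e) e) e) e))))) (c (c (c (c (c (c (c (p (nat_lit 0xa4d99408)) (c (m (nat_lit 0x755ff184)) (c (m (nat_lit 0x15ff8fe8)) (c (p (nat_lit 0xcf5b7dc)) e)))) (c (c (p (nat_lit 0x185fe8b4)) (c (p (nat_lit 0x13f8738)) (c (p (nat_lit 0xaaf4b28)) e))) (c (c (m (nat_lit 0xcc46164)) (c (p (nat_lit 0x13a4)) e)) (c (c (m (nat_lit 0x99294)) e) e)))) (c (c (c (m (nat_lit 0x69a618b0)) (c (p (nat_lit 0x6918de9c)) (c (p (nat_lit 0x30bb038)) e))) (c (c (m (nat_lit 0x12df6d40)) (c (m (nat_lit 0xd704738)) e)) (c (c (p (nat_lit 0x1004475c)) e) e))) (c (c (c (p (nat_lit 0x1ba83e34)) (c (m (nat_lit 0x1a848a70)) e)) (c (c (m (nat_lit 0x98cf4)) e) e)) (c (c (c (p (nat_lit 0x1e48)) e) e) e)))) (c (c (c (c (m (nat_lit 0xe0494da0)) (c (p (nat_lit 0x46d91fc0)) (c (m (nat_lit 0x44b7820)) e))) (c (c (m (nat_lit 0x2a590688))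 (c (m (nat_lit 0x1cd63f04)) e)) (c (c (m (nat_lit 0x8c61dc8)) e) e))) (c (c (c (p (nat_lit 0x15f51ba0)) (c (m (nat_lit 0x15e75388)) e)) (c (c (m (nat_lit 0x1cb6f0)) e) e)) (c (c (c (m (nat_lit 0x12c41f4)) e) e) e))) (c (c (c (c (p (nat_lit 0x3ce976a8)) (c (m (nat_lit 0x22c1844)) e)) (c (c (p (nat_lit 0xb6f4)) e) e)) (c (c (c (p (nat_lit 0x9c)) e) e) e)) (c (c (c (c (m (nat_lit 0x14355000)) e) e) e) e)))) (c (c (c (c (c (p (nat_lit 0x3895122c)) (c (p (nat_lit 0xd42abb0)) (c (m (nat_lit 0x74b4c4)) e))) (c (c (p (nat_lit 0x21c4fc08)) (c (m (nat_lit 0x46f125c)) e)) (c (c (m (nat_lit 0x23c3124)) e) e))) (c (c (c (m (nat_lit 0xe1f3c3c)) (c (p (nat_lit 0x37c9044)) e)) (c (c (m (nat_lit 0x99c9c)) e) e)) (c (c (c (p (nat_lit 0xc647340)) e) e) e))) (c (c (c (c (m (nat_lit 0x2a590688)) (c (m (nat_lit 0x1cd63f04)) e)) (c (c (m (nat_lit 0x31015ec0))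 e) e)) (c (c (c (p (nat_lit 0x6ac320)) e) e) e)) (c (c (c (c (p (nat_lit 0x19f03488)) e) e) e) e))) (c (c (c (c (c (m (nat_lit 0xcb909dc)) (c (m (nat_lit 0x47892e4)) e)) (c (c (m (nat_lit 0x4788b28)) e) e)) (c (c (c (m (nat_lit 0x99204)) e) e) e)) (c (c (c (c (m (nat_lit 0x8c61dc8)) e) e) e) e)) (c (c (c (c (c (m (nat_lit 0x2460078)) e) e) e) e) e)))) (c (c (c (c (c (c (p (nat_lit 0x231024c)) (c (p (nat_lit 0xd173bac)) (c (p (nat_lit 0x3158778)) e))) (c (c (m (nat_lit 0x572abdc)) (c (p (nat_lit 0x1c80dc8)) e)) (c (c (p (nat_lit 0x9d608)) e) e))) (c (c (c (p (nat_lit 0x9d07a84)) (c (m (nat_lit 0x4347360)) e)) (c (c (p (nat_lit 0x1c86504)) e) e)) (c (c (c (m (nat_lit 0x98d24)) e) e) e))) (c (c (c (c (p (nat_lit 0x15f51ba0)) (c (m (nat_lit 0x15e75388)) e)) (c (c (p (nat_lit 0x6ac320)) e) e)) (c (c (c (m (nat_lit 0x112c69e0)) e) e) e)) (c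 (c (c (c (m (nat_lit 0x9984c)) e) e) e) e))) (c (c (c (c (c (m (nat_lit 0x6f3072c)) (c (m (nat_lit 0x8fb0740)) e)) (c (c (m (nat_lit 0x993e4)) e) e)) (c (c (c (p (nat_lit 0xc5acffc)) e) e) e)) (c (c (c (c (m (nat_lit 0x1cb6f0)) e) e) e) e)) (c (c (c (c (c (m (nat_lit 0x998a0)) e) e) e) e) e))) (c (c (c (c (c (c (m (nat_lit 0x91ac3ac)) (c (p (nat_lit 0x1c80)) e)) (c (c (p (nat_lit 0x1d20f44)) e) e)) (c (c (c (m (nat_lit 0x9e514)) e) e) e)) (c (c (c (c (m (nat_lit 0x12c41f4)) e) e) e) e)) (c (c (c (c (c (m (nat_lit 0x97ab8)) e) e) e) e) e)) (c (c (c (c (c (c (m (nat_lit 0x1619dc0)) e) e) e) e) e) e)))) (c (c (c (c (c (c (c (m (nat_lit 0xe2e91d4)) (c (p (nat_lit 0x127951bc)) (c (m (nat_lit 0x1b6d134)) e))) (c (c (p (nat_lit 0x16ca3d30)) (c (m (nat_lit 0x7f3461c)) e)) (c (c (m (nat_lit 0x7e6a080)) e) e))) (c (c (c (m (nat_lit 0x2934)) (c (p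 (nat_lit 0x2298)) e)) (c (c (p (nat_lit 0x9c09c)) e) e)) (c (c (c (m (nat_lit 0x990b4)) e) e) e))) (c (c (c (c (p (nat_lit 0x3ce976a8)) (c (m (nat_lit 0x22c1844)) e)) (c (c (p (nat_lit 0x19f03488)) e) e)) (c (c (c (m (nat_lit 0x9984c)) e) e) e)) (c (c (c (c (m (nat_lit 0x134b68)) e) e) e) e))) (c (c (c (c (c (p (nat_lit 0x165fb3d0)) (c (m (nat_lit 0x79ca3d0)) e)) (c (c (m (nat_lit 0xf5049d8)) e) e)) (c (c (c (m (nat_lit 0x270a290)) e) e) e)) (c (c (c (c (p (nat_lit 0xb6f4)) e) e) e) e)) (c (c (c (c (c (m (nat_lit 0x77ccf58)) e) e) e) e) e))) (c (c (c (c (c (c (p (nat_lit 0xd130250)) (c (p (nat_lit 0xa5ae0)) e)) (c (c (m (nat_lit 0x1164c9c)) e) e)) (c (c (c (m (nat_lit 0xd1d7f50)) e) e) e)) (c (c (c (c (p (nat_lit 0x9c)) e) e) e) e)) (c (c (c (c (c (p (nat_lit 0x2214)) e) e) e) e) e)) (c (c (c (c (c (c (m (nat_lit 0x99e04)) e) e) e) e)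 e) e))) (c (c (c (c (c (c (c (m (nat_lit 0x44d1d4)) (c (p (nat_lit 0x3969b4)) e)) (c (c (m (nat_lit 0x5dc)) e) e)) (c (c (c (m (nat_lit 0x1319dc)) e) e) e)) (c (c (c (c (m (nat_lit 0x14355000)) e) e) e) e)) (c (c (c (c (c (m (nat_lit 0x2d0)) e) e) e) e) e)) (c (c (c (c (c (c (m (nat_lit 0x132054)) e) e) e) e) e) e)) (c (c (c (c (c (c (c (p (nat_lit 0x2dc)) e) e) e) e) e) e) e))))) (c (c (c (c (c (c (c (c (m (nat_lit 0x6ae0e40)) (c (m (nat_lit 0x152b6c8)) (c (p (nat_lit 0x8736060)) (c (m (nat_lit 0x394770)) e)))) (c (c (p (nat_lit 0x17cea394)) (c (m (nat_lit 0x17d23fc4)) (c (m (nat_lit 0x2fbe84)) e))) (c (c (p (nat_lit 0x57cb40)) (c (m (nat_lit 0x98cd0)) e)) (c (c (m (nat_lit 0x98d00)) e) e)))) (c (c (c (p (nat_lit 0x222b72f4)) (c (m (nat_lit 0x12aec2b8)) (c (m (nat_lit 0x4df514)) e))) (c (c (m (nat_lit 0x336c7b9c)) (c (m (nat_lit 0x577b78))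 e)) (c (c (m (nat_lit 0x98d00)) e) e))) (c (c (c (m (nat_lit 0x1a7e62f8)) (c (p (nat_lit 0x1af32248)) e)) (c (c (p (nat_lit 0x1af31c84)) e) e)) (c (c (c (m (nat_lit 0x99348)) e) e) e)))) (c (c (c (c (p (nat_lit 0x60584c04)) (c (p (nat_lit 0x2310b4fc)) (c (m (nat_lit 0x8f3568)) e))) (c (c (m (nat_lit 0x79bb484)) (c (m (nat_lit 0x132150)) e)) (c (c (p (nat_lit 0xe28)) e) e))) (c (c (c (m (nat_lit 0xcb35ea8)) (c (m (nat_lit 0x892f80)) e)) (c (c (p (nat_lit 0x34eeee0)) e) e)) (c (c (c (m (nat_lit 0x8f37f0)) e) e) e))) (c (c (c (c (m (nat_lit 0x112ec438)) (c (m (nat_lit 0x60)) e)) (c (c (m (nat_lit 0x768)) e) e)) (c (c (c (m (nat_lit 0x996a8)) e) e) e)) (c (c (c (c (m (nat_lit 0x97494)) e) e) e) e)))) (c (c (c (c (c (p (nat_lit 0x17cea394)) (c (m (nat_lit 0x17d23fc4)) (c (m (nat_lit 0x2fbe84)) e))) (c (c (p (nat_lit 0x763ecc)) (c (m (nat_lit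 0x131d90)) e)) (c (c (m (nat_lit 0x98ebc)) e) e))) (c (c (c (m (nat_lit 0x33760260)) (c (m (nat_lit 0x4df3d0)) e)) (c (c (m (nat_lit 0x990b4)) e) e)) (c (c (c (p (nat_lit 0x1af32344)) e) e) e))) (c (c (c (c (m (nat_lit 0x7d48b8c)) (c (p (nat_lit 0x180a8)) e)) (c (c (m (nat_lit 0x99054)) e) e)) (c (c (c (p (nat_lit 0x8d3054)) e) e) e)) (c (c (c (c (p (nat_lit 0x54)) e) e) e) e))) (c (c (c (c (c (p (nat_lit 0x57cb40)) (c (m (nat_lit 0x98cd0)) e)) (c (c (m (nat_lit 0x98ebc)) e) e)) (c (c (c (m (nat_lit 0x98e44)) e) e) e)) (c (c (c (c (p (nat_lit 0x388a868)) e) e) e) e)) (c (c (c (c (c (m (nat_lit 0x98d00)) e) e) e) e) e)))) (c (c (c (c (c (c (p (nat_lit 0x222b72f4)) (c (m (nat_lit 0x12aec2b8)) (c (m (nat_lit 0x4df514)) e))) (c (c (m (nat_lit 0x33760260)) (c (m (nat_lit 0x4df3d0)) e)) (c (c (m (nat_lit 0x98e44)) e) e))) (c (c (c (p (nat_lit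 0xb02ddc)) (c (m (nat_lit 0x131ca0)) e)) (c (c (m (nat_lit 0x98df0)) e) e)) (c (c (c (m (nat_lit 0x98e44)) e) e) e))) (c (c (c (c (m (nat_lit 0x21346c74)) (c (m (nat_lit 0x114e070)) e)) (c (c (m (nat_lit 0x99114)) e) e)) (c (c (c (m (nat_lit 0x114e598)) e) e) e)) (c (c (c (c (m (nat_lit 0x99108)) e) e) e) e))) (c (c (c (c (c (m (nat_lit 0x336c7b9c)) (c (m (nat_lit 0x577b78)) e)) (c (c (m (nat_lit 0x990b4)) e) e)) (c (c (c (m (nat_lit 0x98df0)) e) e) e)) (c (c (c (c (p (nat_lit 0x17f94)) e) e) e) e)) (c (c (c (c (c (m (nat_lit 0x98d00)) e) e) e) e) e))) (c (c (c (c (c (c (m (nat_lit 0x1a7e62f8)) (c (p (nat_lit 0x1af32248)) e)) (c (c (p (nat_lit 0x1af32344)) e) e)) (c (c (c (m (nat_lit 0x98e44)) e) e) e)) (c (c (c (c (m (nat_lit 0x8f3820)) e) e) e) e)) (c (c (c (c (c (p (nat_lit 0x1af31c84)) e) e) e) e) e)) (c (c (c (c (c (c (m (nat_lit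 0x99348)) e) e) e) e) e) e)))) (c (c (c (c (c (c (c (p (nat_lit 0x60584c04)) (c (p (nat_lit 0x2310b4fc)) (c (m (nat_lit 0x8f3568)) e))) (c (c (m (nat_lit 0x7d48b8c)) (c (p (nat_lit 0x180a8)) e)) (c (c (p (nat_lit 0x388a868)) e) e))) (c (c (c (m (nat_lit 0x21346c74)) (c (m (nat_lit 0x114e070)) e)) (c (c (p (nat_lit 0x17f94)) e) e)) (c (c (c (m (nat_lit 0x8f3820)) e) e) e))) (c (c (c (c (m (nat_lit 0x70a9274)) (c (p (nat_lit 0x730ab08)) e)) (c (c (p (nat_lit 0x73a78ac)) e) e)) (c (c (c (m (nat_lit 0x1324c8)) e) e) e)) (c (c (c (c (m (nat_lit 0x132d74)) e) e) e) e))) (c (c (c (c (c (m (nat_lit 0x79bb484)) (c (m (nat_lit 0x132150)) e)) (c (c (m (nat_lit 0x99054)) e) e)) (c (c (c (m (nat_lit 0x99114)) e) e) e)) (c (c (c (c (p (nat_lit 0x73a78ac)) e) e) e) e)) (c (c (c (c (c (p (nat_lit 0xe28)) e) e) e) e) e))) (c (c (c (c (c (c (m (nat_lit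 0xcb35ea8)) (c (m (nat_lit 0x892f80)) e)) (c (c (p (nat_lit 0x8d3054)) e) e)) (c (c (c (m (nat_lit 0x114e598)) e) e) e)) (c (c (c (c (m (nat_lit 0x1324c8)) e) e) e) e)) (c (c (c (c (c (p (nat_lit 0x34eeee0)) e) e) e) e) e)) (c (c (c (c (c (c (m (nat_lit 0x8f37f0)) e) e) e) e) e) e))) (c (c (c (c (c (c (c (m (nat_lit 0x112ec438)) (c (m (nat_lit 0x60)) e)) (c (c (p (nat_lit 0x54)) e) e)) (c (c (c (m (nat_lit 0x99108)) e) e) e)) (c (c (c (c (m (nat_lit 0x132d74)) e) e) e) e)) (c (c (c (c (c (m (nat_lit 0x768)) e) e) e) e) e)) (c (c (c (c (c (c (m (nat_lit 0x996a8)) e) e) e) e) e) e)) (c (c (c (c (c (c (c (m (nat_lit 0x97494)) e) e) e) e) e) e) e)))) (c (c (c (c (c (c (c (c (p (nat_lit 0x1fcb0b4c)) (c (m (nat_lit 0x213f9840)) (c (p (nat_lit 0x19ac880)) e))) (c (c (p (nat_lit 0x3aa0f7c)) (c (p (nat_lit 0x1dfb680)) e)) (c (c (m (nat_lit 0x99354))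 e) e))) (c (c (c (m (nat_lit 0x1c6d7f6c)) (c (m (nat_lit 0x14d9da4)) e)) (c (c (m (nat_lit 0xc3b400)) e) e)) (c (c (c (m (nat_lit 0x4e82e0)) e) e) e))) (c (c (c (c (m (nat_lit 0x584892cc)) (c (m (nat_lit 0x224f6fac)) e)) (c (c (p (nat_lit 0x8e0b90)) e) e)) (c (c (c (p (nat_lit 0xd2978a8)) e) e) e)) (c (c (c (c (p (nat_lit 0x11682648)) e) e) e) e))) (c (c (c (c (c (p (nat_lit 0x3aa0f7c)) (c (p (nat_lit 0x1dfb680)) e)) (c (c (m (nat_lit 0x263e14)) e) e)) (c (c (c (m (nat_lit 0xc3b3dc)) e) e) e)) (c (c (c (c (m (nat_lit 0x98f04)) e) e) e) e)) (c (c (c (c (c (m (nat_lit 0x99354)) e) e) e) e) e))) (c (c (c (c (c (c (m (nat_lit 0x1c6d7f6c)) (c (m (nat_lit 0x14d9da4)) e)) (c (c (m (nat_lit 0xc3b3dc)) e) e)) (c (c (c (m (nat_lit 0x9d03a4)) e) e) e)) (c (c (c (c (p (nat_lit 0x223635cc)) e) e) e) e)) (c (c (c (c (c (m (nat_lit 0xc3b400)) e) e) e)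 e) e)) (c (c (c (c (c (c (m (nat_lit 0x4e82e0)) e) e) e) e) e) e))) (c (c (c (c (c (c (c (m (nat_lit 0x584892cc)) (c (m (nat_lit 0x224f6fac)) e)) (c (c (m (nat_lit 0x98f04)) e) e)) (c (c (c (p (nat_lit 0x223635cc)) e) e) e)) (c (c (c (c (m (nat_lit 0x264e64)) e) e) e) e)) (c (c (c (c (c (p (nat_lit 0x8e0b90)) e) e) e) e) e)) (c (c (c (c (c (c (p (nat_lit 0xd2978a8)) e) e) e) e) e) e)) (c (c (c (c (c (c (c (p (nat_lit 0x11682648)) e) e) e) e) e) e) e))) (c (c (c (c (c (c (c (c (m (nat_lit 0x140591f4)) (c (p (nat_lit 0x1451f208)) e)) (c (c (m (nat_lit 0x98cac)) e) e)) (c (c (c (p (nat_lit 0xef5722c)) e) e) e)) (c (c (c (c (m (nat_lit 0x8381a90)) e) e) e) e)) (c (c (c (c (c (m (nat_lit 0x98cac)) e) e) e) e) e)) (c (c (c (c (c (c (p (nat_lit 0xef5722c)) e) e) e) e) e) e)) (c (c (c (c (c (c (c (m (nat_lit 0x8381a90)) e) e) e) e) e) e) e)) (c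 (c (c (c (c (c (c (c (m (nat_lit 0x13197c)) e) e) e) e) e) e) e) e))))) (c (c (c (c (c (c (c (c (c (p (nat_lit 0x3848faf0)) (c (m (nat_lit 0x8463eda8)) (c (p (nat_lit 0x3e31d5f0)) (c (p (nat_lit 0xe48e4d0)) e)))) (c (c (m (nat_lit 0x3e10e634)) (c (p (nat_lit 0x1d70cf84)) (c (m (nat_lit 0x51b64f0)) e))) (c (c (p (nat_lit 0x13258368)) (c (m (nat_lit 0x1cb4e0)) e)) (c (c (m (nat_lit 0x131f88)) e) e)))) (c (c (c (p (nat_lit 0x291c7af4)) (c (p (nat_lit 0x2860e120)) (c (m (nat_lit 0x46df4e4)) e))) (c (c (m (nat_lit 0x9c8b704)) (c (m (nat_lit 0x13a7c51c)) e)) (c (c (m (nat_lit 0x131c70)) e) e))) (c (c (c (m (nat_lit 0x27b3e728)) (c (m (nat_lit 0x420f2b8)) e)) (c (c (m (nat_lit 0x131da8)) e) e)) (c (c (c (m (nat_lit 0x13167c)) e) e) e)))) (c (c (c (c (m (nat_lit 0x9728d948)) (c (p (nat_lit 0x7ababae8)) (c (m (nat_lit 0x773f310)) e))) (c (c (p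 (nat_lit 0x9193cb0)) (c (m (nat_lit 0x3f0bf34)) e)) (c (c (m (nat_lit 0x1324d4)) e) e))) (c (c (c (m (nat_lit 0x1d01b9e8)) (c (p (nat_lit 0x9041b8)) e)) (c (c (p (nat_lit 0x24044e8)) e) e)) (c (c (c (p (nat_lit 0xe3694d8)) e) e) e))) (c (c (c (c (p (nat_lit 0x95925c0)) (c (m (nat_lit 0x962b7c4)) e)) (c (c (m (nat_lit 0x531fc60)) e) e)) (c (c (c (m (nat_lit 0x990cc)) e) e) e)) (c (c (c (c (m (nat_lit 0x131e8c)) e) e) e) e)))) (c (c (c (c (c (m (nat_lit 0x3e10e634)) (c (p (nat_lit 0x1d70cf84)) (c (m (nat_lit 0x51b64f0)) e))) (c (c (p (nat_lit 0x264b1774)) (c (m (nat_lit 0x4c9db8)) e)) (c (c (m (nat_lit 0x26475c)) e) e))) (c (c (c (m (nat_lit 0x19cb6abc)) (c (m (nat_lit 0x391edd4)) e)) (c (c (m (nat_lit 0x131d54)) e) e)) (c (c (c (p (nat_lit 0x1002ba6c)) e) e) e))) (c (c (c (c (p (nat_lit 0x8e6eabc)) (c (m (nat_lit 0x3b4e784)) e)) (c (c (m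 (nat_lit 0x1cbe40)) e) e)) (c (c (c (p (nat_lit 0x21dc8d8)) e) e) e)) (c (c (c (c (m (nat_lit 0x53b8cb4)) e) e) e) e))) (c (c (c (c (c (p (nat_lit 0x13258368)) (c (m (nat_lit 0x1cb4e0)) e)) (c (c (m (nat_lit 0x26475c)) e) e)) (c (c (c (m (nat_lit 0x131e20)) e) e) e)) (c (c (c (c (m (nat_lit 0x983a0)) e) e) e) e)) (c (c (c (c (c (m (nat_lit 0x131f88)) e) e) e) e) e)))) (c (c (c (c (c (c (p (nat_lit 0x291c7af4)) (c (p (nat_lit 0x2860e120)) (c (m (nat_lit 0x46df4e4)) e))) (c (c (m (nat_lit 0x19cb6abc)) (c (m (nat_lit 0x391edd4)) e)) (c (c (m (nat_lit 0x131e20)) e) e))) (c (c (c (m (nat_lit 0x83d36054)) (c (p (nat_lit 0x1a71e330)) e)) (c (c (p (nat_lit 0x1002bc10)) e) e)) (c (c (c (p (nat_lit 0x27052734)) e) e) e))) (c (c (c (c (p (nat_lit 0x178260)) (c (m (nat_lit 0x10498fd4)) e)) (c (c (p (nat_lit 0x25d1360)) e) e)) (c (c (c (p (nat_lit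 0x950e530)) e) e) e)) (c (c (c (c (m (nat_lit 0x13233c)) e) e) e) e))) (c (c (c (c (c (m (nat_lit 0x9c8b704)) (c (m (nat_lit 0x13a7c51c)) e)) (c (c (m (nat_lit 0x131d54)) e) e)) (c (c (c (p (nat_lit 0x1002bc10)) e) e) e)) (c (c (c (c (p (nat_lit 0x23a95d0)) e) e) e) e)) (c (c (c (c (c (m (nat_lit 0x131c70)) e) e) e) e) e))) (c (c (c (c (c (c (m (nat_lit 0x27b3e728)) (c (m (nat_lit 0x420f2b8)) e)) (c (c (p (nat_lit 0x1002ba6c)) e) e)) (c (c (c (p (nat_lit 0x27052734)) e) e) e)) (c (c (c (c (p (nat_lit 0x6bddb6c)) e) e) e) e)) (c (c (c (c (c (m (nat_lit 0x131da8)) e) e) e) e) e)) (c (c (c (c (c (c (m (nat_lit 0x13167c)) e) e) e) e) e) e)))) (c (c (c (c (c (c (c (m (nat_lit 0x9728d948)) (c (p (nat_lit 0x7ababae8)) (c (m (nat_lit 0x773f310)) e))) (c (c (p (nat_lit 0x8e6eabc)) (c (m (nat_lit 0x3b4e784)) e)) (c (c (m (nat_lit 0x983a0)) e) e)))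 (c (c (c (p (nat_lit 0x178260)) (c (m (nat_lit 0x10498fd4)) e)) (c (c (p (nat_lit 0x23a95d0)) e) e)) (c (c (c (p (nat_lit 0x6bddb6c)) e) e) e))) (c (c (c (c (p (nat_lit 0x60b6b440)) (c (m (nat_lit 0x19058da8)) e)) (c (c (m (nat_lit 0x1cdc40)) e) e)) (c (c (c (m (nat_lit 0x991bc)) e) e) e)) (c (c (c (c (p (nat_lit 0x864)) e) e) e) e))) (c (c (c (c (c (p (nat_lit 0x9193cb0)) (c (m (nat_lit 0x3f0bf34)) e)) (c (c (m (nat_lit 0x1cbe40)) e) e)) (c (c (c (p (nat_lit 0x25d1360)) e) e) e)) (c (c (c (c (m (nat_lit 0x1cdc40)) e) e) e) e)) (c (c (c (c (c (m (nat_lit 0x1324d4)) e) e) e) e) e))) (c (c (c (c (c (c (m (nat_lit 0x1d01b9e8)) (c (p (nat_lit 0x9041b8)) e)) (c (c (p (nat_lit 0x21dc8d8)) e) e)) (c (c (c (p (nat_lit 0x950e530)) e) e) e)) (c (c (c (c (m (nat_lit 0x991bc)) e) e) e) e)) (c (c (c (c (c (p (nat_lit 0x24044e8)) e) e) e) e) e)) (c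 (c (c (c (c (c (p (nat_lit 0xe3694d8)) e) e) e) e) e) e))) (c (c (c (c (c (c (c (p (nat_lit 0x95925c0)) (c (m (nat_lit 0x962b7c4)) e)) (c (c (m (nat_lit 0x53b8cb4)) e) e)) (c (c (c (m (nat_lit 0x13233c)) e) e) e)) (c (c (c (c (p (nat_lit 0x864)) e) e) e) e)) (c (c (c (c (c (m (nat_lit 0x531fc60)) e) e) e) e) e)) (c (c (c (c (c (c (m (nat_lit 0x990cc)) e) e) e) e) e) e)) (c (c (c (c (c (c (c (m (nat_lit 0x131e8c)) e) e) e) e) e) e) e)))) (c (c (c (c (c (c (c (c (m (nat_lit 0x1a680860)) (c (p (nat_lit 0x34a60748)) (c (m (nat_lit 0x1a3e1a48)) e))) (c (c (m (nat_lit 0x52e41e8)) (c (p (nat_lit 0x5916030)) e)) (c (c (m (nat_lit 0x3189e4)) e) e))) (c (c (c (p (nat_lit 0x1a1538ec)) (c (m (nat_lit 0x19dbac10)) e)) (c (c (p (nat_lit 0x608b0d4)) e) e)) (c (c (c (m (nat_lit 0x1caf34)) e) e) e))) (c (c (c (c (m (nat_lit 0x1b176c1c)) (c (m (nat_lit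 0x3ed1f8c)) e)) (c (c (m (nat_lit 0x99198)) e) e)) (c (c (c (m (nat_lit 0x133260)) e) e) e)) (c (c (c (c (m (nat_lit 0x98f1c)) e) e) e) e))) (c (c (c (c (c (m (nat_lit 0x52e41e8)) (c (p (nat_lit 0x5916030)) e)) (c (c (m (nat_lit 0x631860)) e) e)) (c (c (c (p (nat_lit 0x5ff2224)) e) e) e)) (c (c (c (c (m (nat_lit 0x99258)) e) e) e) e)) (c (c (c (c (c (m (nat_lit 0x3189e4)) e) e) e) e) e))) (c (c (c (c (c (c (p (nat_lit 0x1a1538ec)) (c (m (nat_lit 0x19dbac10)) e)) (c (c (p (nat_lit 0x5ff2224)) e) e)) (c (c (c (m (nat_lit 0x395c70)) e) e) e)) (c (c (c (c (m (nat_lit 0x9966c)) e) e) e) e)) (c (c (c (c (c (p (nat_lit 0x608b0d4)) e) e) e) e) e)) (c (c (c (c (c (c (m (nat_lit 0x1caf34)) e) e) e) e) e) e))) (c (c (c (c (c (c (c (m (nat_lit 0x1b176c1c)) (c (m (nat_lit 0x3ed1f8c)) e)) (c (c (m (nat_lit 0x99258)) e) e)) (c (c (c (m (nat_lit 0x9966c))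 e) e) e)) (c (c (c (c (m (nat_lit 0x131e20)) e) e) e) e)) (c (c (c (c (c (m (nat_lit 0x99198)) e) e) e) e) e)) (c (c (c (c (c (c (m (nat_lit 0x133260)) e) e) e) e) e) e)) (c (c (c (c (c (c (c (m (nat_lit 0x98f1c)) e) e) e) e) e) e) e))) (c (c (c (c (c (c (c (c (p (nat_lit 0x56bd98d4)) (c (m (nat_lit 0x264318)) e)) (c (c (m (nat_lit 0x133ca304)) e) e)) (c (c (c (m (nat_lit 0xee94a48)) e) e) e)) (c (c (c (c (p (nat_lit 0x1809dcb0)) e) e) e) e)) (c (c (c (c (c (m (nat_lit 0x133ca304)) e) e) e) e) e)) (c (c (c (c (c (c (m (nat_lit 0xee94a48)) e) e) e) e) e) e)) (c (c (c (c (c (c (c (p (nat_lit 0x1809dcb0)) e) e) e) e) e) e) e)) (c (c (c (c (c (c (c (c (m (nat_lit 0x1321bc)) e) e) e) e) e) e) e) e)))) (c (c (c (c (c (c (c (c (c (m (nat_lit 0x15ac46b8)) (c (p (nat_lit 0x1ca1da10)) (c (m (nat_lit 0x72ef028)) e))) (c (c (p (nat_lit 0x1c4c5c68))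 (c (m (nat_lit 0x96b9b50)) e)) (c (c (m (nat_lit 0x96b9988)) e) e))) (c (c (c (p (nat_lit 0x2f1e118)) (c (m (nat_lit 0x7423920)) e)) (c (c (m (nat_lit 0x30)) e) e)) (c (c (c (m (nat_lit 0x2665d4)) e) e) e))) (c (c (c (c (p (nat_lit 0x466bb9dc)) (c (m (nat_lit 0x2add3fb8)) e)) (c (c (m (nat_lit 0x99768)) e) e)) (c (c (c (m (nat_lit 0xa1ed70)) e) e) e)) (c (c (c (c (m (nat_lit 0x13cf68)) e) e) e) e))) (c (c (c (c (c (p (nat_lit 0x1c4c5c68)) (c (m (nat_lit 0x96b9b50)) e)) (c (c (m (nat_lit 0x12d732a4)) e) e)) (c (c (c (m (nat_lit 0x98fc4)) e) e) e)) (c (c (c (c (m (nat_lit 0x537add0)) e) e) e) e)) (c (c (c (c (c (m (nat_lit 0x96b9988)) e) e) e) e) e))) (c (c (c (c (c (c (p (nat_lit 0x2f1e118)) (c (m (nat_lit 0x7423920)) e)) (c (c (m (nat_lit 0x98fc4)) e) e)) (c (c (c (m (nat_lit 0x4ccb0c)) e) e) e)) (c (c (c (c (p (nat_lit 0x249a7e8)) e)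 e) e) e)) (c (c (c (c (c (m (nat_lit 0x30)) e) e) e) e) e)) (c (c (c (c (c (c (m (nat_lit 0x2665d4)) e) e) e) e) e) e))) (c (c (c (c (c (c (c (p (nat_lit 0x466bb9dc)) (c (m (nat_lit 0x2add3fb8)) e)) (c (c (m (nat_lit 0x537add0)) e) e)) (c (c (c (p (nat_lit 0x249a7e8)) e) e) e)) (c (c (c (c (m (nat_lit 0x26d50958)) e) e) e) e)) (c (c (c (c (c (m (nat_lit 0x99768)) e) e) e) e) e)) (c (c (c (c (c (c (m (nat_lit 0xa1ed70)) e) e) e) e) e) e)) (c (c (c (c (c (c (c (m (nat_lit 0x13cf68)) e) e) e) e) e) e) e))) (c (c (c (c (c (c (c (c (p (nat_lit 0x85eff0)) (c (m (nat_lit 0x133170)) e)) (c (c (m (nat_lit 0x13200c)) e) e)) (c (c (c (m (nat_lit 0x9903c)) e) e) e)) (c (c (c (c (m (nat_lit 0x98fe8)) e) e) e) e)) (c (c (c (c (c (m (nat_lit 0x13200c)) e) e) e) e) e)) (c (c (c (c (c (c (m (nat_lit 0x9903c)) e) e) e) e) e) e)) (c (c (c (c (c (c (c (m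 (nat_lit 0x98fe8)) e) e) e) e) e) e) e)) (c (c (c (c (c (c (c (c (m (nat_lit 0x4dbd178)) e) e) e) e) e) e) e) e))) (c (c (c (c (c (c (c (c (c (p (nat_lit 0xd237c8)) (c (m (nat_lit 0x262fe0)) e)) (c (c (m (nat_lit 0x98d90)) e) e)) (c (c (c (m (nat_lit 0x1ca3ac)) e) e) e)) (c (c (c (c (m (nat_lit 0x131cac)) e) e) e) e)) (c (c (c (c (c (m (nat_lit 0x98d90)) e) e) e) e) e)) (c (c (c (c (c (c (m (nat_lit 0x1ca3ac)) e) e) e) e) e) e)) (c (c (c (c (c (c (c (m (nat_lit 0x131cac)) e) e) e) e) e) e) e)) (c (c (c (c (c (c (c (c (m (nat_lit 0x26379c)) e) e) e) e) e) e) e) e)) (c (c (c (c (c (c (c (c (c (m (nat_lit 0x263c58)) e) e) e) e) e) e) e) e) e))))) (c (c (c (c (c (c (c (c (c (c (m (nat_lit 0x5cb7fd18)) (c (p (nat_lit 0x6abbbf50)) (c (m (nat_lit 0xd6ae8c0)) (c (m (nat_lit 0x5f9190)) e)))) (c (c (p (nat_lit 0x1ad1029c)) (c (m (nat_lit 0x1a116d70))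 (c (m (nat_lit 0xd2d1b8)) e))) (c (c (m (nat_lit 0x6072978)) (c (p (nat_lit 0x62d6f48)) e)) (c (c (m (nat_lit 0x98bf8)) e) e)))) (c (c (c (p (nat_lit 0x797ee714)) (c (m (nat_lit 0x2ab7a410)) (c (p (nat_lit 0x9e778)) e))) (c (c (m (nat_lit 0x1bc0a0b0)) (c (m (nat_lit 0x98ce8)) e)) (c (c (p (nat_lit 0x696d9a4)) e) e))) (c (c (c (m (nat_lit 0x2021d198)) (c (p (nat_lit 0x424116c)) e)) (c (c (m (nat_lit 0x98cdc)) e) e)) (c (c (c (p (nat_lit 0x42411b4)) e) e) e)))) (c (c (c (c (p (nat_lit 0xab2ad68)) (c (m (nat_lit 0xaa91b40)) (c (m (nat_lit 0x98cd0)) e))) (c (c (m (nat_lit 0x180dbf0c)) (c (m (nat_lit 0x98e5c)) e)) (c (c (p (nat_lit 0x180dc68c)) e) e))) (c (c (c (m (nat_lit 0xf6dd340)) (c (p (nat_lit 0x4b06d98)) e)) (c (c (m (nat_lit 0x9966c)) e) e)) (c (c (c (p (nat_lit 0x4b06f6c)) e) e) e))) (c (c (c (c (p (nat_lit 0x46d31c)) (c (m (nat_lit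 0x996e4)) e)) (c (c (m (nat_lit 0x98e80)) e) e)) (c (c (c (m (nat_lit 0x99048)) e) e) e)) (c (c (c (c (m (nat_lit 0x98f64)) e) e) e) e)))) (c (c (c (c (c (p (nat_lit 0x1ad1029c)) (c (m (nat_lit 0x1a116d70)) (c (m (nat_lit 0xd2d1b8)) e))) (c (c (p (nat_lit 0x11f6880)) (c (m (nat_lit 0xd2ccc0)) e)) (c (c (m (nat_lit 0x989e8)) e) e))) (c (c (c (m (nat_lit 0x1bc0ac08)) (c (m (nat_lit 0x98c28)) e)) (c (c (m (nat_lit 0x98d78)) e) e)) (c (c (c (m (nat_lit 0x98d84)) e) e) e))) (c (c (c (c (p (nat_lit 0x265290)) (c (m (nat_lit 0x98ebc)) e)) (c (c (m (nat_lit 0x9903c)) e) e)) (c (c (c (m (nat_lit 0x99138)) e) e) e)) (c (c (c (c (m (nat_lit 0x13218c)) e) e) e) e))) (c (c (c (c (c (m (nat_lit 0x6072978)) (c (p (nat_lit 0x62d6f48)) e)) (c (c (m (nat_lit 0x989e8)) e) e)) (c (c (c (p (nat_lit 0x696d914)) e) e) e)) (c (c (c (c (m (nat_lit 0x132114)) e)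 e) e) e)) (c (c (c (c (c (m (nat_lit 0x98bf8)) e) e) e) e) e)))) (c (c (c (c (c (c (p (nat_lit 0x797ee714)) (c (m (nat_lit 0x2ab7a410)) (c (p (nat_lit 0x9e778)) e))) (c (c (m (nat_lit 0x1bc0ac08)) (c (m (nat_lit 0x98c28)) e)) (c (c (p (nat_lit 0x696d914)) e) e))) (c (c (c (m (nat_lit 0x37d51ad8)) (c (m (nat_lit 0x264c00)) e)) (c (c (m (nat_lit 0x98cdc)) e) e)) (c (c (c (p (nat_lit 0x410d9d8)) e) e) e))) (c (c (c (c (m (nat_lit 0xa1a6bac)) (c (m (nat_lit 0x5eaa78)) e)) (c (c (m (nat_lit 0x1325a0)) e) e)) (c (c (c (p (nat_lit 0x451d2ec)) e) e) e)) (c (c (c (c (m (nat_lit 0x132b10)) e) e) e) e))) (c (c (c (c (c (m (nat_lit 0x1bc0a0b0)) (c (m (nat_lit 0x98ce8)) e)) (c (c (m (nat_lit 0x98d78)) e) e)) (c (c (c (m (nat_lit 0x98cdc)) e) e) e)) (c (c (c (c (m (nat_lit 0x1325b8)) e) e) e) e)) (c (c (c (c (c (p (nat_lit 0x696d9a4)) e) e) e) e) e)))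 (c (c (c (c (c (c (m (nat_lit 0x2021d198)) (c (p (nat_lit 0x424116c)) e)) (c (c (m (nat_lit 0x98d84)) e) e)) (c (c (c (p (nat_lit 0x410d9d8)) e) e) e)) (c (c (c (c (m (nat_lit 0x682f98)) e) e) e) e)) (c (c (c (c (c (m (nat_lit 0x98cdc)) e) e) e) e) e)) (c (c (c (c (c (c (p (nat_lit 0x42411b4)) e) e) e) e) e) e)))) (c (c (c (c (c (c (c (p (nat_lit 0xab2ad68)) (c (m (nat_lit 0xaa91b40)) (c (m (nat_lit 0x98cd0)) e))) (c (c (p (nat_lit 0x265290)) (c (m (nat_lit 0x98ebc)) e)) (c (c (m (nat_lit 0x132114)) e) e))) (c (c (c (m (nat_lit 0xa1a6bac)) (c (m (nat_lit 0x5eaa78)) e)) (c (c (m (nat_lit 0x1325b8)) e) e)) (c (c (c (m (nat_lit 0x682f98)) e) e) e))) (c (c (c (c (p (nat_lit 0x27c0cc)) (c (m (nat_lit 0x27d5f0)) e)) (c (c (m (nat_lit 0x133854)) e) e)) (c (c (c (m (nat_lit 0x135468)) e) e) e)) (c (c (c (c (p (nat_lit 0x5ab7c)) e) e) e) e))) (c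 (c (c (c (c (m (nat_lit 0x180dbf0c)) (c (m (nat_lit 0x98e5c)) e)) (c (c (m (nat_lit 0x9903c)) e) e)) (c (c (c (m (nat_lit 0x1325a0)) e) e) e)) (c (c (c (c (m (nat_lit 0x133854)) e) e) e) e)) (c (c (c (c (c (p (nat_lit 0x180dc68c)) e) e) e) e) e))) (c (c (c (c (c (c (m (nat_lit 0xf6dd340)) (c (p (nat_lit 0x4b06d98)) e)) (c (c (m (nat_lit 0x99138)) e) e)) (c (c (c (p (nat_lit 0x451d2ec)) e) e) e)) (c (c (c (c (m (nat_lit 0x135468)) e) e) e) e)) (c (c (c (c (c (m (nat_lit 0x9966c)) e) e) e) e) e)) (c (c (c (c (c (c (p (nat_lit 0x4b06f6c)) e) e) e) e) e) e))) (c (c (c (c (c (c (c (p (nat_lit 0x46d31c)) (c (m (nat_lit 0x996e4)) e)) (c (c (m (nat_lit 0x13218c)) e) e)) (c (c (c (m (nat_lit 0x132b10)) e) e) e)) (c (c (c (c (p (nat_lit 0x5ab7c)) e) e) e) e)) (c (c (c (c (c (m (nat_lit 0x98e80)) e) e) e) e) e)) (c (c (c (c (c (c (m (nat_lit 0x99048))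 e) e) e) e) e) e)) (c (c (c (c (c (c (c (m (nat_lit 0x98f64)) e) e) e) e) e) e) e)))) (c (c (c (c (c (c (c (c (p (nat_lit 0x227b3440)) (c (m (nat_lit 0x29702898)) (c (p (nat_lit 0x72e4480)) e))) (c (c (m (nat_lit 0xe597ac0)) (c (p (nat_lit 0xe89611c)) e)) (c (c (m (nat_lit 0x132a38)) e) e))) (c (c (c (m (nat_lit 0x29adcb84)) (c (p (nat_lit 0xe909c34)) e)) (c (c (p (nat_lit 0xe9302b0)) e) e)) (c (c (c (p (nat_lit 0x74f3250)) e) e) e))) (c (c (c (c (m (nat_lit 0x5f77bc0)) (c (p (nat_lit 0x63a9c08)) e)) (c (c (m (nat_lit 0x450)) e) e)) (c (c (c (p (nat_lit 0x64dbc8c)) e) e) e)) (c (c (c (c (m (nat_lit 0x1325b8)) e) e) e) e))) (c (c (c (c (c (m (nat_lit 0xe597ac0)) (c (p (nat_lit 0xe89611c)) e)) (c (c (m (nat_lit 0x2651a0)) e) e)) (c (c (c (p (nat_lit 0xe92ffc8)) e) e) e)) (c (c (c (c (m (nat_lit 0x99378)) e) e) e) e)) (c (c (c (c (c (m (nat_lit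 0x132a38)) e) e) e) e) e))) (c (c (c (c (c (c (m (nat_lit 0x29adcb84)) (c (p (nat_lit 0xe909c34)) e)) (c (c (p (nat_lit 0xe92ffc8)) e) e)) (c (c (c (p (nat_lit 0xe9e63f8)) e) e) e)) (c (c (c (c (p (nat_lit 0x64428d8)) e) e) e) e)) (c (c (c (c (c (p (nat_lit 0xe9302b0)) e) e) e) e) e)) (c (c (c (c (c (c (p (nat_lit 0x74f3250)) e) e) e) e) e) e))) (c (c (c (c (c (c (c (m (nat_lit 0x5f77bc0)) (c (p (nat_lit 0x63a9c08)) e)) (c (c (m (nat_lit 0x99378)) e) e)) (c (c (c (p (nat_lit 0x64428d8)) e) e) e)) (c (c (c (c (m (nat_lit 0x1341f0)) e) e) e) e)) (c (c (c (c (c (m (nat_lit 0x450)) e) e) e) e) e)) (c (c (c (c (c (c (p (nat_lit 0x64dbc8c)) e) e) e) e) e) e)) (c (c (c (c (c (c (c (m (nat_lit 0x1325b8)) e) e) e) e) e) e) e))) (c (c (c (c (c (c (c (c (p (nat_lit 0x5f9460)) (c (m (nat_lit 0x263f28)) e)) (c (c (m (nat_lit 0x1320c0)) e) e)) (c (c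 (c (m (nat_lit 0x131f70)) e) e) e)) (c (c (c (c (m (nat_lit 0x99294)) e) e) e) e)) (c (c (c (c (c (m (nat_lit 0x1320c0)) e) e) e) e) e)) (c (c (c (c (c (c (m (nat_lit 0x131f70)) e) e) e) e) e) e)) (c (c (c (c (c (c (c (m (nat_lit 0x99294)) e) e) e) e) e) e) e)) (c (c (c (c (c (c (c (c (m (nat_lit 0x131dd8)) e) e) e) e) e) e) e) e)))) (c (c (c (c (c (c (c (c (c (p (nat_lit 0x1bbf1180)) (c (m (nat_lit 0x141dc0c8)) (c (m (nat_lit 0x264348)) e))) (c (c (m (nat_lit 0x35dbc04)) (c (m (nat_lit 0x1cc260)) e)) (c (c (m (nat_lit 0x131f88)) e) e))) (c (c (c (m (nat_lit 0x1f7e3fc8)) (c (p (nat_lit 0x7a2ebe8)) e)) (c (c (p (nat_lit 0x37a7840)) e) e)) (c (c (c (p (nat_lit 0x7a2ed44)) e) e) e))) (c (c (c (c (p (nat_lit 0x9784bc0)) (c (m (nat_lit 0x99511f8)) e)) (c (c (p (nat_lit 0x534)) e) e)) (c (c (c (p (nat_lit 0x11a0c)) e) e) e)) (c (c (c (c (m (nat_lit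 0x98ec8)) e) e) e) e))) (c (c (c (c (c (m (nat_lit 0x35dbc04)) (c (m (nat_lit 0x1cc260)) e)) (c (c (m (nat_lit 0x2648b8)) e) e)) (c (c (c (m (nat_lit 0x99030)) e) e) e)) (c (c (c (c (m (nat_lit 0x99114)) e) e) e) e)) (c (c (c (c (c (m (nat_lit 0x131f88)) e) e) e) e) e))) (c (c (c (c (c (c (m (nat_lit 0x1f7e3fc8)) (c (p (nat_lit 0x7a2ebe8)) e)) (c (c (m (nat_lit 0x99030)) e) e)) (c (c (c (p (nat_lit 0xf45d884)) e) e) e)) (c (c (c (c (m (nat_lit 0x991d4)) e) e) e) e)) (c (c (c (c (c (p (nat_lit 0x37a7840)) e) e) e) e) e)) (c (c (c (c (c (c (p (nat_lit 0x7a2ed44)) e) e) e) e) e) e))) (c (c (c (c (c (c (c (p (nat_lit 0x9784bc0)) (c (m (nat_lit 0x99511f8)) e)) (c (c (m (nat_lit 0x99114)) e) e)) (c (c (c (m (nat_lit 0x991d4)) e) e) e)) (c (c (c (c (m (nat_lit 0x131d48)) e) e) e) e)) (c (c (c (c (c (p (nat_lit 0x534)) e) e) e) e) e)) (c (c (c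 (c (c (c (p (nat_lit 0x11a0c)) e) e) e) e) e) e)) (c (c (c (c (c (c (c (m (nat_lit 0x98ec8)) e) e) e) e) e) e) e))) (c (c (c (c (c (c (c (c (p (nat_lit 0x264bd0)) (c (m (nat_lit 0x131ac0)) e)) (c (c (m (nat_lit 0x98fd0)) e) e)) (c (c (c (m (nat_lit 0x98f70)) e) e) e)) (c (c (c (c (m (nat_lit 0x990cc)) e) e) e) e)) (c (c (c (c (c (m (nat_lit 0x98fd0)) e) e) e) e) e)) (c (c (c (c (c (c (m (nat_lit 0x98f70)) e) e) e) e) e) e)) (c (c (c (c (c (c (c (m (nat_lit 0x990cc)) e) e) e) e) e) e) e)) (c (c (c (c (c (c (c (c (m (nat_lit 0x264918)) e) e) e) e) e) e) e) e))) (c (c (c (c (c (c (c (c (c (p (nat_lit 0x39abcc)) (c (m (nat_lit 0x268248)) e)) (c (c (m (nat_lit 0x98eec)) e) e)) (c (c (c (m (nat_lit 0x330)) e) e) e)) (c (c (c (c (m (nat_lit 0x708)) e) e) e) e)) (c (c (c (c (c (m (nat_lit 0x98eec)) e) e) e) e) e)) (c (c (c (c (c (c (m (nat_lit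 0x330)) e) e) e) e) e) e)) (c (c (c (c (c (c (c (m (nat_lit 0x708)) e) e) e) e) e) e) e)) (c (c (c (c (c (c (c (c (m (nat_lit 0x131e50)) e) e) e) e) e) e) e) e)) (c (c (c (c (c (c (c (c (c (m (nat_lit 0x132000)) e) e) e) e) e) e) e) e) e)))) (c (c (c (c (c (c (c (c (c (c (p (nat_lit 0x459bc1c)) (c (m (nat_lit 0x368ac48)) (c (m (nat_lit 0xb7bca0)) e))) (c (c (p (nat_lit 0xfab1c8)) (c (m (nat_lit 0xb7b7cc)) e)) (c (c (m (nat_lit 0x1322a0)) e) e))) (c (c (c (m (nat_lit 0x1655730)) (c (m (nat_lit 0x99360)) e)) (c (c (m (nat_lit 0x99054)) e) e)) (c (c (c (m (nat_lit 0x99174)) e) e) e))) (c (c (c (c (p (nat_lit 0x1cbd20)) (c (m (nat_lit 0x132474)) e)) (c (c (m (nat_lit 0x99198)) e) e)) (c (c (c (m (nat_lit 0x355f1f4)) e) e) e)) (c (c (c (c (m (nat_lit 0x99144)) e) e) e) e))) (c (c (c (c (c (p (nat_lit 0xfab1c8)) (c (m (nat_lit 0xb7b7cc)) e))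 (c (c (m (nat_lit 0x2645d0)) e) e)) (c (c (c (m (nat_lit 0x991a4)) e) e) e)) (c (c (c (c (m (nat_lit 0x99018)) e) e) e) e)) (c (c (c (c (c (m (nat_lit 0x1322a0)) e) e) e) e) e))) (c (c (c (c (c (c (m (nat_lit 0x1655730)) (c (m (nat_lit 0x99360)) e)) (c (c (m (nat_lit 0x991a4)) e) e)) (c (c (c (m (nat_lit 0x132cb4)) e) e) e)) (c (c (c (c (m (nat_lit 0x9a074)) e) e) e) e)) (c (c (c (c (c (m (nat_lit 0x99054)) e) e) e) e) e)) (c (c (c (c (c (c (m (nat_lit 0x99174)) e) e) e) e) e) e))) (c (c (c (c (c (c (c (p (nat_lit 0x1cbd20)) (c (m (nat_lit 0x132474)) e)) (c (c (m (nat_lit 0x99018)) e) e)) (c (c (c (m (nat_lit 0x9a074)) e) e) e)) (c (c (c (c (m (nat_lit 0x132354)) e) e) e) e)) (c (c (c (c (c (m (nat_lit 0x99198)) e) e) e) e) e)) (c (c (c (c (c (c (m (nat_lit 0x355f1f4)) e) e) e) e) e) e)) (c (c (c (c (c (c (c (m (nat_lit 0x99144)) e) e)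 e) e) e) e) e))) (c (c (c (c (c (c (c (c (p (nat_lit 0x5f9160)) (c (m (nat_lit 0x263cd0)) e)) (c (c (m (nat_lit 0x131e08)) e) e)) (c (c (c (m (nat_lit 0x131d30)) e) e) e)) (c (c (c (c (m (nat_lit 0x98e14)) e) e) e) e)) (c (c (c (c (c (m (nat_lit 0x131e08)) e) e) e) e) e)) (c (c (c (c (c (c (m (nat_lit 0x131d30)) e) e) e) e) e) e)) (c (c (c (c (c (c (c (m (nat_lit 0x98e14)) e) e) e) e) e) e) e)) (c (c (c (c (c (c (c (c (m (nat_lit 0x131b74)) e) e) e) e) e) e) e) e))) (c (c (c (c (c (c (c (c (c (m (nat_lit 0x3bbe36c)) (c (p (nat_lit 0x3f56fb8)) e)) (c (c (m (nat_lit 0x131fe8)) e) e)) (c (c (c (p (nat_lit 0x4eb2998)) e) e) e)) (c (c (c (c (m (nat_lit 0x99834)) e) e) e) e)) (c (c (c (c (c (m (nat_lit 0x131fe8)) e) e) e) e) e)) (c (c (c (c (c (c (p (nat_lit 0x4eb2998)) e) e) e) e) e) e)) (c (c (c (c (c (c (c (m (nat_lit 0x99834)) e) e) e) e)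 e) e) e)) (c (c (c (c (c (c (c (c (m (nat_lit 0x263e74)) e) e) e) e) e) e) e) e)) (c (c (c (c (c (c (c (c (c (m (nat_lit 0x263e38)) e) e) e) e) e) e) e) e) e))) (c (c (c (c (c (c (c (c (c (c (p (nat_lit 0x85bad4)) (c (m (nat_lit 0x131f10)) e)) (c (c (m (nat_lit 0x98f10)) e) e)) (c (c (c (m (nat_lit 0x98d60)) e) e) e)) (c (c (c (c (m (nat_lit 0x131b50)) e) e) e) e)) (c (c (c (c (c (m (nat_lit 0x98f10)) e) e) e) e) e)) (c (c (c (c (c (c (m (nat_lit 0x98d60)) e) e) e) e) e) e)) (c (c (c (c (c (c (c (m (nat_lit 0x131b50)) e) e) e) e) e) e) e)) (c (c (c (c (c (c (c (c (m (nat_lit 0x131a60)) e) e) e) e) e) e) e) e)) (c (c (c (c (c (c (c (c (c (m (nat_lit 0x1317a8)) e) e) e) e) e) e) e) e) e)) (c (c (c (c (c (c (c (c (c (c (m (nat_lit 0x131aa8)) e) e) e) e) e) e) e) e) e) e)))))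

theorem c1 : trsOK col trs = true := by decide +kernel
theorem c2 : Nat.ble (Nat.mul (nat_lit 40) (nat_lit 4556)) (nat_lit 4294967295) = true := by decide +kernel
theorem c3 : Nat.beq (tabK (nat_lit 40) (List.ofFn s10)) kt = true := by decide +kernel
theorem c4 : okE trs E = true := by decide +kernel
theorem c5 : dE E (nat_lit 4) = true := by decide +kernel
theorem c6 : cmpK (nat_lit 10) (nat_lit 4) kt E T = true := by decide +kernel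
theorem c7 : bndK (nat_lit 10) (nat_lit 4) (Nat.pow (nat_lit 2) (nat_lit 40)) E T = true := by decide +kernel

theorem c0 : Fl.codeB col = 77 := by decide +kernel

theorem own : Fl.OwnOK 4 T 77 :=
  own_ok c0 c1 c2 c3 c4 c5 c6 c7

end H77

end Own

end HR
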