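import Pool.Agent.Lib.MP_a1b8b7_co.B.OwnOK

set_option autoImplicit false

namespace HR

namespace Own

namespace H86

open Chk

def col : Fin 10 → Bool := ![false, true, true, false, true, false, true, false, false, false]

def trs : List ℕ := [nat_lit 2437]

def kt : ℕ := nat_lit 0x27000000c300000333000008610000174f00003ace000082b60000e3250001a64c0002b614

open Ex in
noncomputable def E : Ex := (a (a (a (a (u (nat_lit 9) (v (nat_lit 9) (v (nat_lit 9) (v (nat_lit 9) (k (nat_lit 0x131b80)))))) (v (nat_lit 8) (v (nat_lit 8) (a (u (nat_lit 9) (v (nat_lit 9) (k (nat_lit 0x98eb6)))) (v (nat_lit 8) (u (nat_lit 9) (k (nat_lit 0x98cd6)))))))) (a (u (nat_lit 8) (a (v (nat_lit 9) (v (nat_lit 9) (v (nat_lit 9) (k (nat_lit 0x98e44))))) (v (nat_lit 8) (v (nat_lit 8) (v (nat_lit 8) (k (nat_lit 0x98de4))))))) (a (v (nat_lit 7) (a (u (nat_lit 8) (u (nat_lit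 8) (u (nat_lit 8) (k (nat_lit 0x67ca646))))) (v (nat_lit 7) (v (nat_lit 7) (u (nat_lit 8) (k (nat_lit 0x98f7c))))))) (u (nat_lit 7) (a (v (nat_lit 9) (v (nat_lit 9) (v (nat_lit 9) (k (nat_lit 0x98da2))))) (a (v (nat_lit 8) (a (v (nat_lit 9) (v (nat_lit 9) (k (nat_lit 0x98d8a)))) (v (nat_lit 8) (a (v (nat_lit 9) (k (nat_lit 0x98d96))) (v (nat_lit 8) (k (nat_lit 0x98cc4))))))) (v (nat_lit 7) (a (v (nat_lit 9) (v (nat_lit 9) (k (nat_lit 0x990e4)))) (a (v (nat_lit 8) (a (v (nat_lit 9) (k (nat_lit 0x99054))) (v (nat_lit 8) (k (nat_lit 0x9915c))))) (v (nat_lit 7) (a (v (nat_lit 9) (k (nat_lit 0x98fa0))) (v (nat_lit 7) (k (nat_lit 0x98ef8)))))))))))))) (a (a (v (nat_lit 6) (a (u (nat_lit 7) (a (v (nat_lit 9) (v (nat_lit 9) (k (nat_lit 0x968fa)))) (a (u (nat_lit 9) (v (nat_lit 9) (k (nat_lit 0x968d6)))) (v (nat_lit 8) (a (v (nat_lit 9) (k (nat_lit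 0x98f70))) (v (nat_lit 8) (k (nat_lit 0x98dd8)))))))) (v (nat_lit 6) (a (a (u (nat_lit 9) (v (nat_lit 9) (k (nat_lit 0x98f34)))) (u (nat_lit 8) (a (v (nat_lit 9) (k (nat_lit 0x98f1c))) (v (nat_lit 8) (k (nat_lit 0x9aad6)))))) (a (u (nat_lit 7) (v (nat_lit 7) (k (nat_lit 0x993c0)))) (v (nat_lit 6) (a (u (nat_lit 9) (k (nat_lit 0x65ed58c))) (a (u (nat_lit 8) (k (nat_lit 0x24a79ee))) (u (nat_lit 7) (k (nat_lit 0x9969c))))))))))) (u (nat_lit 6) (a (a (v (nat_lit 9) (v (nat_lit 9) (v (nat_lit 9) (k (nat_lit 0x98e80))))) (v (nat_lit 8) (a (v (nat_lit 9) (v (nat_lit 9) (k (nat_lit 0x98e2c)))) (v (nat_lit 8) (a (v (nat_lit 9) (k (nat_lit 0x98de4))) (v (nat_lit 8) (k (nat_lit 0x98ca0)))))))) (a (v (nat_lit 7) (v (nat_lit 7) (a (v (nat_lit 9) (k (nat_lit 0x9b328))) (a (v (nat_lit 8) (k (nat_lit 0x993b4))) (v (nat_lit 7) (k (nat_lit 0x99bc4)))))))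 (v (nat_lit 6) (a (v (nat_lit 8) (a (v (nat_lit 9) (k (nat_lit 0x98f70))) (v (nat_lit 8) (k (nat_lit 0x97422))))) (a (v (nat_lit 7) (a (v (nat_lit 9) (k (nat_lit 0x99150))) (v (nat_lit 8) (k (nat_lit 0x9948c))))) (v (nat_lit 6) (a (v (nat_lit 9) (k (nat_lit 0x9a020))) (a (v (nat_lit 8) (k (nat_lit 0x99102))) (v (nat_lit 6) (k (nat_lit 0x98dd8))))))))))))) (a (v (nat_lit 5) (a (a (v (nat_lit 8) (a (u (nat_lit 9) (v (nat_lit 9) (k (nat_lit 0x131d78)))) (v (nat_lit 8) (u (nat_lit 9) (k (nat_lit 0x98dba)))))) (a (u (nat_lit 8) (v (nat_lit 8) (v (nat_lit 8) (k (nat_lit 0x98e5c))))) (v (nat_lit 7) (u (nat_lit 8) (a (u (nat_lit 9) (k (nat_lit 0x1c102e6))) (u (nat_lit 8) (k (nat_lit 0xa4ef494)))))))) (a (a (u (nat_lit 7) (a (v (nat_lit 9) (v (nat_lit 9) (k (nat_lit 0x98d8a)))) (a (v (nat_lit 8) (a (v (nat_lit 9) (k (nat_lit 0x98e26))) (v (nat_lit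 8) (k (nat_lit 0x98dba))))) (v (nat_lit 7) (v (nat_lit 7) (k (nat_lit 0x1ca730))))))) (v (nat_lit 6) (v (nat_lit 6) (u (nat_lit 9) (k (nat_lit 0x98d3c)))))) (a (u (nat_lit 6) (a (a (v (nat_lit 9) (v (nat_lit 9) (k (nat_lit 0x98e20)))) (v (nat_lit 8) (a (v (nat_lit 9) (k (nat_lit 0x98ed4))) (v (nat_lit 8) (k (nat_lit 0x98d6c)))))) (a (v (nat_lit 7) (a (a (v (nat_lit 9) (k (nat_lit 0x99138))) (v (nat_lit 8) (k (nat_lit 0x98f8e)))) (a (u (nat_lit 8) (k (nat_lit 0x115356))) (v (nat_lit 7) (k (nat_lit 0x98ec8)))))) (v (nat_lit 6) (a (v (nat_lit 8) (k (nat_lit 0x9a608))) (a (v (nat_lit 7) (k (nat_lit 0x99492))) (v (nat_lit 6) (k (nat_lit 0x9b904))))))))) (v (nat_lit 5) (a (a (u (nat_lit 9) (v (nat_lit 9) (k (nat_lit 0x98eb6)))) (a (v (nat_lit 8) (u (nat_lit 9) (k (nat_lit 0x98dba)))) (u (nat_lit 8) (v (nat_lit 8) (k (nat_lit 0x98da8)))))) (a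 (a (v (nat_lit 7) (a (u (nat_lit 9) (k (nat_lit 0x2d041c4))) (u (nat_lit 8) (k (nat_lit 0x8473a40))))) (u (nat_lit 7) (a (v (nat_lit 9) (k (nat_lit 0x98dc0))) (v (nat_lit 8) (k (nat_lit 0x98d90)))))) (a (u (nat_lit 6) (a (a (v (nat_lit 9) (k (nat_lit 0x98dea))) (v (nat_lit 8) (k (nat_lit 0x98d96)))) (a (v (nat_lit 7) (k (nat_lit 0xbcf4d80))) (v (nat_lit 6) (k (nat_lit 0x98d0c)))))) (v (nat_lit 5) (a (u (nat_lit 9) (k (nat_lit 0x98cd6))) (a (u (nat_lit 7) (k (nat_lit 0x98688))) (u (nat_lit 6) (k (nat_lit 0x9872a)))))))))))))) (a (u (nat_lit 5) (a (a (v (nat_lit 9) (v (nat_lit 9) (v (nat_lit 9) (k (nat_lit 0x98e44))))) (v (nat_lit 7) (v (nat_lit 7) (a (v (nat_lit 9) (k (nat_lit 0x99168))) (v (nat_lit 8) (k (nat_lit 0x99588))))))) (a (v (nat_lit 6) (v (nat_lit 6) (a (v (nat_lit 8) (k (nat_lit 0x97764))) (a (v (nat_lit 7) (k (nat_lit 0xaa0d6)))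 (v (nat_lit 6) (k (nat_lit 0x95e44))))))) (v (nat_lit 5) (a (v (nat_lit 8) (v (nat_lit 8) (k (nat_lit 0x98da8)))) (a (v (nat_lit 7) (v (nat_lit 7) (k (nat_lit 0x99084)))) (v (nat_lit 5) (a (v (nat_lit 8) (k (nat_lit 0x98e5c))) (v (nat_lit 5) (k (nat_lit 0x98de4))))))))))) (t (nat_lit 5) (nat_lit 8) (nat_lit 9) (a (a (a (u (nat_lit 9) (u (nat_lit 9) (u (nat_lit 9) (k (nat_lit 0x41cdcd8))))) (v (nat_lit 8) (u (nat_lit 9) (u (nat_lit 9) (k (nat_lit 0xa3fe0)))))) (a (u (nat_lit 8) (u (nat_lit 8) (u (nat_lit 9) (k (nat_lit 0x2786eda))))) (u (nat_lit 7) (a (a (u (nat_lit 9) (u (nat_lit 9) (k (nat_lit 0x37e9732)))) (u (nat_lit 8) (a (u (nat_lit 9) (k (nat_lit 0xa104cc))) (u (nat_lit 8) (k (nat_lit 0x9ade4be)))))) (a (v (nat_lit 7) (v (nat_lit 7) (k (nat_lit 0x98f70)))) (u (nat_lit 7) (a (u (nat_lit 9) (k (nat_lit 0x9969c))) (a (u (nat_lit 8)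 (k (nat_lit 0x4a9ff70))) (u (nat_lit 7) (k (nat_lit 0x98f1c))))))))))) (a (a (u (nat_lit 6) (a (v (nat_lit 7) (v (nat_lit 7) (k (nat_lit 0x815a5e8)))) (v (nat_lit 6) (u (nat_lit 8) (k (nat_lit 0xcae4c08)))))) (v (nat_lit 5) (a (u (nat_lit 9) (u (nat_lit 9) (k (nat_lit 0xa3fe0)))) (u (nat_lit 6) (v (nat_lit 6) (k (nat_lit 0x16c88d9c))))))) (a (u (nat_lit 5) (u (nat_lit 5) (a (u (nat_lit 9) (k (nat_lit 0x2786eda))) (u (nat_lit 6) (k (nat_lit 0x9504846)))))) (t (nat_lit 5) (nat_lit 8) (nat_lit 9) (u (nat_lit 9) (u (nat_lit 9) (k (nat_lit 0x13ccc8))))))))))))) (a (a (a (v (nat_lit 4) (a (a (v (nat_lit 6) (a (a (u (nat_lit 9) (v (nat_lit 9) (k (nat_lit 0x133a4c)))) (v (nat_lit 7) (u (nat_lit 8) (k (nat_lit 0x9945c))))) (a (u (nat_lit 7) (v (nat_lit 7) (k (nat_lit 0x997c8)))) (v (nat_lit 6) (u (nat_lit 9) (k (nat_lit 0x99a02))))))) (a (u (nat_lit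 6) (a (a (v (nat_lit 9) (v (nat_lit 9) (k (nat_lit 0x98e98)))) (v (nat_lit 7) (v (nat_lit 9) (k (nat_lit 0x994b0))))) (a (v (nat_lit 6) (v (nat_lit 9) (k (nat_lit 0x9a986)))) (u (nat_lit 6) (v (nat_lit 6) (k (nat_lit 0x999b4))))))) (v (nat_lit 5) (a (u (nat_lit 6) (a (v (nat_lit 9) (k (nat_lit 0x98f94))) (a (v (nat_lit 8) (k (nat_lit 0x98e0e))) (v (nat_lit 6) (k (nat_lit 0x9acce)))))) (v (nat_lit 5) (u (nat_lit 6) (k (nat_lit 0x98d30)))))))) (a (u (nat_lit 5) (a (v (nat_lit 6) (a (u (nat_lit 8) (k (nat_lit 0x133fd4))) (v (nat_lit 7) (k (nat_lit 0x98fc4))))) (u (nat_lit 6) (v (nat_lit 6) (k (nat_lit 0x4b27f1da)))))) (a (t (nat_lit 5) (nat_lit 8) (nat_lit 9) (a (u (nat_lit 7) (v (nat_lit 8) (k (nat_lit 0x10fcadc0)))) (a (u (nat_lit 6) (a (v (nat_lit 8) (k (nat_lit 0x5cedd54))) (u (nat_lit 6) (k (nat_lit 0x177a65f6))))) (t (nat_lit 5) (nat_lit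 8) (nat_lit 9) (u (nat_lit 6) (k (nat_lit 0x99396))))))) (v (nat_lit 4) (a (a (a (u (nat_lit 9) (v (nat_lit 9) (k (nat_lit 0x98f34)))) (v (nat_lit 8) (u (nat_lit 9) (k (nat_lit 0x98d3c))))) (a (v (nat_lit 7) (a (u (nat_lit 9) (k (nat_lit 0x98fd0))) (u (nat_lit 8) (k (nat_lit 0x98ff4))))) (u (nat_lit 7) (v (nat_lit 7) (k (nat_lit 0x99114)))))) (a (a (v (nat_lit 6) (u (nat_lit 9) (k (nat_lit 0x99a02)))) (u (nat_lit 6) (a (a (v (nat_lit 9) (k (nat_lit 0x97e66))) (v (nat_lit 8) (k (nat_lit 0x97086)))) (a (v (nat_lit 7) (k (nat_lit 0x98ef8))) (v (nat_lit 6) (k (nat_lit 0x99858))))))) (a (v (nat_lit 5) (a (u (nat_lit 8) (k (nat_lit 0x97764))) (u (nat_lit 6) (k (nat_lit 0x98b4a))))) (a (u (nat_lit 5) (a (v (nat_lit 9) (k (nat_lit 0x98f1c))) (a (v (nat_lit 7) (k (nat_lit 0x98f34))) (v (nat_lit 5) (k (nat_lit 0x9aad6)))))) (v (nat_lit 4) (a (a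 (u (nat_lit 9) (k (nat_lit 0x65ed58c))) (u (nat_lit 8) (k (nat_lit 0x95e44)))) (a (u (nat_lit 7) (k (nat_lit 0xf08c0be))) (a (u (nat_lit 6) (k (nat_lit 0x98d9c))) (u (nat_lit 5) (k (nat_lit 0x24a79ee)))))))))))))))) (u (nat_lit 4) (a (a (a (v (nat_lit 9) (v (nat_lit 9) (v (nat_lit 9) (k (nat_lit 0x98e80))))) (v (nat_lit 8) (a (v (nat_lit 9) (v (nat_lit 9) (k (nat_lit 0x98e20)))) (v (nat_lit 8) (a (v (nat_lit 9) (k (nat_lit 0x98dea))) (v (nat_lit 8) (k (nat_lit 0x9872a)))))))) (a (v (nat_lit 7) (a (a (v (nat_lit 9) (v (nat_lit 9) (k (nat_lit 0x99294)))) (v (nat_lit 8) (a (v (nat_lit 9) (k (nat_lit 0x991fe))) (v (nat_lit 8) (k (nat_lit 0x996ba)))))) (a (u (nat_lit 8) (u (nat_lit 8) (k (nat_lit 0x9b238)))) (v (nat_lit 7) (a (a (v (nat_lit 9) (k (nat_lit 0x1364040))) (v (nat_lit 8) (k (nat_lit 0x6e33fa)))) (a (u (nat_lit 8) (k (nat_lit 0x9a386)))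 (v (nat_lit 7) (k (nat_lit 0x133af4))))))))) (a (u (nat_lit 7) (v (nat_lit 7) (v (nat_lit 7) (k (nat_lit 0x9a4ac))))) (v (nat_lit 6) (a (a (v (nat_lit 9) (v (nat_lit 9) (k (nat_lit 0x98e98)))) (v (nat_lit 8) (a (v (nat_lit 9) (k (nat_lit 0x98f94))) (v (nat_lit 8) (k (nat_lit 0x98d30)))))) (a (u (nat_lit 7) (u (nat_lit 8) (k (nat_lit 0x98a54)))) (v (nat_lit 6) (a (a (v (nat_lit 9) (k (nat_lit 0x97e66))) (v (nat_lit 8) (k (nat_lit 0x98b4a)))) (a (v (nat_lit 7) (k (nat_lit 0x9914a))) (v (nat_lit 6) (k (nat_lit 0x98d9c)))))))))))) (a (a (u (nat_lit 6) (v (nat_lit 6) (v (nat_lit 7) (k (nat_lit 0x98592))))) (v (nat_lit 5) (a (a (v (nat_lit 9) (v (nat_lit 9) (k (nat_lit 0x98e2c)))) (v (nat_lit 8) (a (v (nat_lit 9) (k (nat_lit 0x98ed4))) (v (nat_lit 8) (k (nat_lit 0x98d96)))))) (a (v (nat_lit 7) (a (v (nat_lit 9) (k (nat_lit 0x991ec))) (a (v (nat_lit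 8) (k (nat_lit 0x98f6a))) (v (nat_lit 7) (k (nat_lit 0x9981c)))))) (a (v (nat_lit 6) (a (v (nat_lit 8) (k (nat_lit 0x98e0e))) (v (nat_lit 6) (k (nat_lit 0x97086))))) (v (nat_lit 5) (a (a (v (nat_lit 9) (k (nat_lit 0x98de4))) (v (nat_lit 8) (k (nat_lit 0x98d6c)))) (a (v (nat_lit 7) (k (nat_lit 0x7571b44))) (v (nat_lit 5) (k (nat_lit 0x98ca0))))))))))) (a (t (nat_lit 5) (nat_lit 8) (nat_lit 9) (a (a (u (nat_lit 8) (u (nat_lit 8) (k (nat_lit 0x9504846)))) (u (nat_lit 7) (u (nat_lit 8) (k (nat_lit 0x4b69de))))) (a (v (nat_lit 5) (v (nat_lit 6) (k (nat_lit 0x5cedd54)))) (t (nat_lit 5) (nat_lit 8) (nat_lit 9) (v (nat_lit 6) (k (nat_lit 0x99396))))))) (a (v (nat_lit 4) (a (a (v (nat_lit 8) (v (nat_lit 8) (k (nat_lit 0x98d0c)))) (a (v (nat_lit 6) (a (a (v (nat_lit 9) (k (nat_lit 0x9a986))) (v (nat_lit 8) (k (nat_lit 0x9acce)))) (a (u (nat_lit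 8) (k (nat_lit 0x4b27f1da))) (v (nat_lit 6) (k (nat_lit 0x99858)))))) (u (nat_lit 6) (v (nat_lit 6) (k (nat_lit 0xe2e58830)))))) (a (v (nat_lit 5) (a (v (nat_lit 9) (k (nat_lit 0x98f70))) (a (v (nat_lit 8) (k (nat_lit 0x9a608))) (v (nat_lit 5) (k (nat_lit 0x97422)))))) (a (t (nat_lit 5) (nat_lit 8) (nat_lit 9) (a (v (nat_lit 8) (k (nat_lit 0x16c88d9c))) (u (nat_lit 5) (k (nat_lit 0xcae4c08))))) (v (nat_lit 4) (a (a (v (nat_lit 9) (k (nat_lit 0x9a020))) (v (nat_lit 8) (k (nat_lit 0x9b904)))) (a (v (nat_lit 7) (k (nat_lit 0x9499e))) (a (v (nat_lit 5) (k (nat_lit 0x99102))) (v (nat_lit 4) (k (nat_lit 0x98dd8))))))))))) (u (nat_lit 4) (a (v (nat_lit 6) (v (nat_lit 7) (k (nat_lit 0x9e988)))) (a (t (nat_lit 5) (nat_lit 8) (nat_lit 9) (v (nat_lit 6) (k (nat_lit 0x177a65f6)))) (v (nat_lit 4) (v (nat_lit 6) (k (nat_lit 0x999b4))))))))))))) (a (v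 (nat_lit 3) (a (a (a (v (nat_lit 8) (v (nat_lit 8) (u (nat_lit 9) (k (nat_lit 0x2d041c4))))) (v (nat_lit 7) (a (a (u (nat_lit 9) (v (nat_lit 9) (k (nat_lit 0x132108)))) (v (nat_lit 8) (u (nat_lit 9) (k (nat_lit 0x99402))))) (a (u (nat_lit 8) (a (v (nat_lit 9) (k (nat_lit 0x990c6))) (v (nat_lit 8) (k (nat_lit 0x98fbe))))) (v (nat_lit 7) (u (nat_lit 9) (k (nat_lit 0x99438)))))))) (a (u (nat_lit 7) (a (v (nat_lit 8) (v (nat_lit 8) (k (nat_lit 0x74c9886)))) (v (nat_lit 7) (a (v (nat_lit 8) (k (nat_lit 0x9912c))) (v (nat_lit 7) (k (nat_lit 0x98d30))))))) (a (v (nat_lit 6) (a (v (nat_lit 7) (a (u (nat_lit 9) (k (nat_lit 0x9aa16))) (u (nat_lit 8) (k (nat_lit 0x95670))))) (a (u (nat_lit 7) (a (v (nat_lit 9) (k (nat_lit 0x99150))) (a (v (nat_lit 8) (k (nat_lit 0x98e0e))) (v (nat_lit 7) (k (nat_lit 0x98dde)))))) (v (nat_lit 6) (a (u (nat_lit 9)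 (k (nat_lit 0x98fd0))) (a (u (nat_lit 8) (k (nat_lit 0x98f34))) (u (nat_lit 7) (k (nat_lit 0x9b85c))))))))) (u (nat_lit 6) (a (a (v (nat_lit 9) (v (nat_lit 9) (k (nat_lit 0x99294)))) (v (nat_lit 8) (a (v (nat_lit 9) (k (nat_lit 0x991ec))) (v (nat_lit 8) (k (nat_lit 0x7571b44)))))) (a (v (nat_lit 7) (v (nat_lit 8) (k (nat_lit 0xa0e3c)))) (v (nat_lit 6) (a (v (nat_lit 7) (k (nat_lit 0x97d28))) (v (nat_lit 6) (k (nat_lit 0x9499e))))))))))) (a (a (v (nat_lit 5) (a (a (v (nat_lit 7) (a (u (nat_lit 9) (k (nat_lit 0x99402))) (u (nat_lit 8) (k (nat_lit 0x9901e))))) (u (nat_lit 7) (v (nat_lit 7) (k (nat_lit 0x990cc))))) (a (v (nat_lit 6) (u (nat_lit 7) (k (nat_lit 0x98f5e)))) (a (u (nat_lit 6) (a (v (nat_lit 9) (k (nat_lit 0x991fe))) (v (nat_lit 8) (k (nat_lit 0x98f6a))))) (v (nat_lit 5) (u (nat_lit 6) (k (nat_lit 0x996ba)))))))) (a (u (nat_lit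 5) (a (a (v (nat_lit 8) (a (u (nat_lit 9) (k (nat_lit 0x1c102e6))) (v (nat_lit 8) (k (nat_lit 0x8473a40))))) (a (v (nat_lit 7) (a (v (nat_lit 9) (k (nat_lit 0x990c6))) (v (nat_lit 8) (k (nat_lit 0x9901e))))) (u (nat_lit 7) (v (nat_lit 8) (k (nat_lit 0x492a626)))))) (a (v (nat_lit 6) (a (v (nat_lit 7) (k (nat_lit 0x9a248))) (v (nat_lit 6) (k (nat_lit 0x98ff4))))) (a (v (nat_lit 5) (v (nat_lit 7) (k (nat_lit 0x98fbe)))) (u (nat_lit 5) (a (v (nat_lit 8) (k (nat_lit 0xa4ef494))) (a (u (nat_lit 6) (k (nat_lit 0x9b238))) (u (nat_lit 5) (k (nat_lit 0x67ca646)))))))))) (t (nat_lit 5) (nat_lit 8) (nat_lit 9) (v (nat_lit 6) (u (nat_lit 7) (k (nat_lit 0x99b76))))))) (a (v (nat_lit 4) (a (a (v (nat_lit 7) (a (u (nat_lit 9) (k (nat_lit 0x9aa16))) (u (nat_lit 8) (k (nat_lit 0x9a248))))) (a (u (nat_lit 7) (a (v (nat_lit 9) (k (nat_lit 0x97b3c))) (a (v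 (nat_lit 8) (k (nat_lit 0x98634))) (v (nat_lit 7) (k (nat_lit 0x9978c)))))) (v (nat_lit 6) (a (u (nat_lit 8) (k (nat_lit 0x98fc4))) (u (nat_lit 7) (k (nat_lit 0x99aa4))))))) (a (a (u (nat_lit 6) (u (nat_lit 6) (k (nat_lit 0x9e988)))) (v (nat_lit 5) (u (nat_lit 7) (k (nat_lit 0x9654c))))) (a (u (nat_lit 5) (a (v (nat_lit 7) (k (nat_lit 0x95670))) (v (nat_lit 6) (k (nat_lit 0x9945c))))) (v (nat_lit 4) (a (u (nat_lit 8) (k (nat_lit 0xaa0d6))) (a (u (nat_lit 7) (k (nat_lit 0x9f888))) (u (nat_lit 6) (k (nat_lit 0x9914a)))))))))) (a (u (nat_lit 4) (a (a (v (nat_lit 8) (a (v (nat_lit 9) (k (nat_lit 0x99138))) (v (nat_lit 8) (k (nat_lit 0xbcf4d80))))) (a (v (nat_lit 7) (v (nat_lit 7) (k (nat_lit 0x28b0db6)))) (v (nat_lit 6) (a (v (nat_lit 9) (k (nat_lit 0x994b0))) (v (nat_lit 6) (k (nat_lit 0x98ef8))))))) (a (v (nat_lit 5) (a (v (nat_lit 8) (k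 (nat_lit 0x98f8e))) (v (nat_lit 7) (k (nat_lit 0xa0e3c))))) (a (u (nat_lit 5) (v (nat_lit 8) (k (nat_lit 0x115356)))) (v (nat_lit 4) (a (a (v (nat_lit 9) (k (nat_lit 0x99150))) (v (nat_lit 8) (k (nat_lit 0x99492)))) (a (v (nat_lit 7) (k (nat_lit 0x97d28))) (a (u (nat_lit 6) (k (nat_lit 0x98592))) (v (nat_lit 5) (k (nat_lit 0x9948c))))))))))) (v (nat_lit 3) (a (a (a (u (nat_lit 8) (a (v (nat_lit 9) (k (nat_lit 0x99168))) (v (nat_lit 8) (k (nat_lit 0x99084))))) (v (nat_lit 7) (u (nat_lit 9) (k (nat_lit 0x99438))))) (a (u (nat_lit 7) (v (nat_lit 7) (k (nat_lit 0x9930c)))) (a (v (nat_lit 6) (u (nat_lit 7) (k (nat_lit 0x98e9e)))) (u (nat_lit 6) (a (v (nat_lit 9) (k (nat_lit 0x1364040))) (a (v (nat_lit 8) (k (nat_lit 0x9981c))) (v (nat_lit 7) (k (nat_lit 0x28b0db6))))))))) (a (a (v (nat_lit 5) (a (u (nat_lit 8) (k (nat_lit 0x99588))) (u (nat_lit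 6) (k (nat_lit 0x6e33fa))))) (a (u (nat_lit 5) (u (nat_lit 6) (k (nat_lit 0x9a386)))) (t (nat_lit 5) (nat_lit 8) (nat_lit 9) (u (nat_lit 7) (k (nat_lit 0x9a2e4)))))) (a (v (nat_lit 4) (u (nat_lit 7) (k (nat_lit 0x99906)))) (a (u (nat_lit 4) (a (a (v (nat_lit 9) (k (nat_lit 0x9b328))) (v (nat_lit 8) (k (nat_lit 0x98ec8)))) (a (v (nat_lit 5) (k (nat_lit 0x993b4))) (t (nat_lit 5) (nat_lit 8) (nat_lit 9) (k (nat_lit 0x815a5e8)))))) (v (nat_lit 3) (a (u (nat_lit 6) (k (nat_lit 0x133af4))) (a (u (nat_lit 5) (k (nat_lit 0x98f7c))) (u (nat_lit 4) (k (nat_lit 0x99bc4)))))))))))))))) (a (u (nat_lit 3) (a (a (a (v (nat_lit 9) (v (nat_lit 9) (v (nat_lit 9) (k (nat_lit 0x98da2))))) (v (nat_lit 8) (a (v (nat_lit 9) (v (nat_lit 9) (k (nat_lit 0x98d8a)))) (v (nat_lit 8) (a (v (nat_lit 9) (k (nat_lit 0x98dc0))) (v (nat_lit 8) (k (nat_lit 0x98688))))))))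 (a (v (nat_lit 6) (a (v (nat_lit 7) (a (v (nat_lit 9) (k (nat_lit 0x97b3c))) (a (v (nat_lit 8) (k (nat_lit 0x9654c))) (v (nat_lit 7) (k (nat_lit 0x99906)))))) (v (nat_lit 6) (a (v (nat_lit 7) (k (nat_lit 0x9f888))) (v (nat_lit 6) (k (nat_lit 0xf08c0be))))))) (v (nat_lit 5) (a (a (v (nat_lit 9) (v (nat_lit 9) (k (nat_lit 0x98d8a)))) (v (nat_lit 8) (a (v (nat_lit 9) (k (nat_lit 0x98e26))) (v (nat_lit 8) (k (nat_lit 0x98d90)))))) (a (v (nat_lit 7) (u (nat_lit 8) (k (nat_lit 0x492a626)))) (a (v (nat_lit 6) (v (nat_lit 7) (k (nat_lit 0x98634)))) (v (nat_lit 5) (a (a (v (nat_lit 9) (k (nat_lit 0x98d96))) (v (nat_lit 8) (k (nat_lit 0x98dba)))) (a (v (nat_lit 7) (k (nat_lit 0x74c9886))) (v (nat_lit 5) (k (nat_lit 0x98cc4)))))))))))) (a (a (t (nat_lit 5) (nat_lit 8) (nat_lit 9) (a (a (u (nat_lit 9) (u (nat_lit 9) (k (nat_lit 0x37e9732)))) (v (nat_lit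 7) (v (nat_lit 7) (k (nat_lit 0x9a2e4))))) (a (v (nat_lit 5) (v (nat_lit 6) (k (nat_lit 0x10fcadc0)))) (u (nat_lit 5) (a (u (nat_lit 9) (k (nat_lit 0xa104cc))) (a (u (nat_lit 6) (k (nat_lit 0x4b69de))) (u (nat_lit 5) (k (nat_lit 0x9ade4be))))))))) (v (nat_lit 4) (a (a (a (v (nat_lit 9) (v (nat_lit 9) (k (nat_lit 0x968fa)))) (u (nat_lit 9) (v (nat_lit 9) (k (nat_lit 0x968d6))))) (a (v (nat_lit 7) (a (v (nat_lit 9) (k (nat_lit 0x99150))) (a (v (nat_lit 8) (k (nat_lit 0x98f5e))) (v (nat_lit 7) (k (nat_lit 0x98e9e)))))) (v (nat_lit 6) (v (nat_lit 7) (k (nat_lit 0x99aa4)))))) (a (a (v (nat_lit 5) (a (v (nat_lit 9) (k (nat_lit 0x98f70))) (a (v (nat_lit 7) (k (nat_lit 0x98e0e))) (v (nat_lit 5) (k (nat_lit 0x98dd8)))))) (u (nat_lit 5) (u (nat_lit 6) (k (nat_lit 0x98a54))))) (a (t (nat_lit 5) (nat_lit 8) (nat_lit 9) (v (nat_lit 7) (k (nat_lit 0x99b76))))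 (v (nat_lit 4) (a (v (nat_lit 7) (k (nat_lit 0x9b85c))) (v (nat_lit 4) (k (nat_lit 0x9969c)))))))))) (a (v (nat_lit 3) (a (a (v (nat_lit 9) (v (nat_lit 9) (k (nat_lit 0x990e4)))) (a (v (nat_lit 7) (a (v (nat_lit 8) (k (nat_lit 0x990cc))) (v (nat_lit 7) (k (nat_lit 0x9930c))))) (v (nat_lit 6) (a (v (nat_lit 7) (k (nat_lit 0x9978c))) (v (nat_lit 6) (k (nat_lit 0x99114))))))) (a (v (nat_lit 5) (a (v (nat_lit 9) (k (nat_lit 0x99054))) (a (v (nat_lit 7) (k (nat_lit 0x9912c))) (v (nat_lit 5) (k (nat_lit 0x9915c)))))) (a (v (nat_lit 4) (a (v (nat_lit 7) (k (nat_lit 0x98dde))) (a (v (nat_lit 6) (k (nat_lit 0x997c8))) (v (nat_lit 4) (k (nat_lit 0x993c0)))))) (v (nat_lit 3) (a (a (v (nat_lit 9) (k (nat_lit 0x98fa0))) (a (v (nat_lit 8) (k (nat_lit 0x1ca730))) (v (nat_lit 7) (k (nat_lit 0x98d30))))) (a (u (nat_lit 6) (k (nat_lit 0x9a4ac))) (a (t (nat_lit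 5) (nat_lit 8) (nat_lit 9) (k (nat_lit 0x98f70))) (v (nat_lit 3) (k (nat_lit 0x98ef8))))))))))) (u (nat_lit 3) (a (t (nat_lit 5) (nat_lit 8) (nat_lit 9) (a (u (nat_lit 9) (k (nat_lit 0x9969c))) (u (nat_lit 5) (k (nat_lit 0x4a9ff70))))) (u (nat_lit 3) (t (nat_lit 5) (nat_lit 8) (nat_lit 9) (k (nat_lit 0x98f1c)))))))))) (v (nat_lit 2) (a (a (a (u (nat_lit 9) (a (v (nat_lit 9) (v (nat_lit 9) (k (nat_lit 0x992c4)))) (u (nat_lit 9) (v (nat_lit 9) (k (nat_lit 0x7c5c54)))))) (a (v (nat_lit 8) (a (u (nat_lit 9) (v (nat_lit 9) (k (nat_lit 0x98f70)))) (v (nat_lit 8) (u (nat_lit 9) (k (nat_lit 0x8cd7aa)))))) (u (nat_lit 8) (a (v (nat_lit 9) (v (nat_lit 9) (k (nat_lit 0x99924)))) (v (nat_lit 8) (a (v (nat_lit 9) (k (nat_lit 0x9c87c))) (v (nat_lit 8) (k (nat_lit 0x988c2))))))))) (a (a (v (nat_lit 7) (a (a (u (nat_lit 9) (v (nat_lit 9) (k (nat_lit 0x99060))))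 (v (nat_lit 8) (u (nat_lit 9) (k (nat_lit 0x992e8))))) (a (u (nat_lit 8) (v (nat_lit 8) (k (nat_lit 0x944fa)))) (v (nat_lit 7) (u (nat_lit 8) (k (nat_lit 0x99258))))))) (u (nat_lit 7) (a (v (nat_lit 8) (v (nat_lit 8) (k (nat_lit 0x9dffe)))) (v (nat_lit 7) (a (v (nat_lit 9) (k (nat_lit 0x9bb5c))) (a (v (nat_lit 8) (k (nat_lit 0x9969c))) (v (nat_lit 7) (k (nat_lit 0x99048))))))))) (a (v (nat_lit 6) (a (u (nat_lit 7) (a (v (nat_lit 9) (k (nat_lit 0x995dc))) (a (v (nat_lit 8) (k (nat_lit 0x99498))) (v (nat_lit 7) (k (nat_lit 0x998ac)))))) (v (nat_lit 6) (u (nat_lit 9) (k (nat_lit 0x99402)))))) (u (nat_lit 6) (a (a (v (nat_lit 9) (v (nat_lit 9) (k (nat_lit 0x9ed54)))) (u (nat_lit 8) (u (nat_lit 8) (k (nat_lit 0x28b2d4e))))) (a (v (nat_lit 6) (a (v (nat_lit 9) (k (nat_lit 0x9961e))) (a (u (nat_lit 8) (k (nat_lit 0x98f8e))) (v (nat_lit 6) (k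 (nat_lit 0x12f59298)))))) (u (nat_lit 6) (a (u (nat_lit 8) (k (nat_lit 0x174aa580))) (u (nat_lit 6) (k (nat_lit 0x2c9bce0))))))))))) (a (a (a (v (nat_lit 5) (a (a (v (nat_lit 7) (a (u (nat_lit 9) (k (nat_lit 0x97d64))) (u (nat_lit 8) (k (nat_lit 0x945a8))))) (u (nat_lit 7) (a (v (nat_lit 9) (k (nat_lit 0x9a6b6))) (v (nat_lit 8) (k (nat_lit 0x991a4)))))) (a (v (nat_lit 6) (u (nat_lit 7) (k (nat_lit 0x995be)))) (a (u (nat_lit 6) (u (nat_lit 6) (k (nat_lit 0x992fa)))) (v (nat_lit 5) (a (u (nat_lit 9) (k (nat_lit 0x991e0))) (u (nat_lit 7) (k (nat_lit 0x9b160))))))))) (u (nat_lit 5) (a (a (v (nat_lit 9) (v (nat_lit 9) (k (nat_lit 0x9939c)))) (a (v (nat_lit 8) (a (v (nat_lit 9) (k (nat_lit 0x990f6))) (v (nat_lit 8) (k (nat_lit 0x991d4))))) (v (nat_lit 7) (a (v (nat_lit 9) (k (nat_lit 0x99342))) (a (v (nat_lit 8) (k (nat_lit 0x9de48))) (v (nat_lit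 7) (k (nat_lit 0x992ac)))))))) (a (u (nat_lit 6) (u (nat_lit 7) (k (nat_lit 0x3fdcbea)))) (a (v (nat_lit 5) (a (a (v (nat_lit 8) (k (nat_lit 0x990e4))) (u (nat_lit 8) (k (nat_lit 0x3123bd6)))) (a (v (nat_lit 7) (k (nat_lit 0x96f9c))) (v (nat_lit 5) (k (nat_lit 0x99432)))))) (u (nat_lit 5) (a (v (nat_lit 8) (k (nat_lit 0x9b1c6))) (a (u (nat_lit 6) (k (nat_lit 0x10814976))) (u (nat_lit 5) (k (nat_lit 0x4a326ce))))))))))) (a (t (nat_lit 5) (nat_lit 8) (nat_lit 9) (a (v (nat_lit 6) (u (nat_lit 7) (k (nat_lit 0x348a6b6)))) (t (nat_lit 5) (nat_lit 8) (nat_lit 9) (u (nat_lit 6) (k (nat_lit 0x6ba97bc)))))) (v (nat_lit 4) (u (nat_lit 6) (u (nat_lit 6) (k (nat_lit 0x9932a))))))) (a (a (u (nat_lit 4) (a (a (a (v (nat_lit 9) (v (nat_lit 9) (k (nat_lit 0x9950a)))) (v (nat_lit 8) (a (v (nat_lit 9) (k (nat_lit 0x96aa4))) (v (nat_lit 8) (k (nat_lit 0x9921c))))))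 (a (v (nat_lit 6) (v (nat_lit 9) (k (nat_lit 0x9a6e0)))) (u (nat_lit 6) (a (u (nat_lit 8) (k (nat_lit 0x9c88e))) (v (nat_lit 6) (k (nat_lit 0x9dee4))))))) (a (a (u (nat_lit 5) (a (u (nat_lit 8) (k (nat_lit 0x7a211ea))) (u (nat_lit 6) (k (nat_lit 0x9a6b6))))) (t (nat_lit 5) (nat_lit 8) (nat_lit 9) (t (nat_lit 5) (nat_lit 8) (nat_lit 9) (k (nat_lit 0xa0f794))))) (a (v (nat_lit 4) (a (u (nat_lit 8) (k (nat_lit 0x9922e))) (u (nat_lit 6) (k (nat_lit 0x31012794))))) (u (nat_lit 4) (u (nat_lit 5) (k (nat_lit 0x3c7dd42)))))))) (v (nat_lit 3) (a (a (u (nat_lit 9) (u (nat_lit 9) (k (nat_lit 0x288d24e)))) (a (u (nat_lit 6) (a (v (nat_lit 7) (k (nat_lit 0x95fd0))) (v (nat_lit 6) (k (nat_lit 0x9708c))))) (u (nat_lit 5) (u (nat_lit 9) (k (nat_lit 0x9803a)))))) (a (v (nat_lit 4) (u (nat_lit 6) (k (nat_lit 0x6fe8134)))) (a (u (nat_lit 4) (a (v (nat_lit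 8) (k (nat_lit 0x99270))) (a (v (nat_lit 6) (k (nat_lit 0x9ac14))) (v (nat_lit 5) (k (nat_lit 0x99336)))))) (v (nat_lit 3) (a (a (u (nat_lit 9) (k (nat_lit 0x9be68))) (a (u (nat_lit 8) (k (nat_lit 0x99f96))) (u (nat_lit 7) (k (nat_lit 0x95424))))) (a (u (nat_lit 6) (k (nat_lit 0x9d5fc))) (a (u (nat_lit 5) (k (nat_lit 0x9a54e))) (u (nat_lit 4) (k (nat_lit 0x99564)))))))))))) (a (u (nat_lit 3) (a (a (a (v (nat_lit 9) (v (nat_lit 9) (k (nat_lit 0x98fbe)))) (u (nat_lit 9) (v (nat_lit 9) (k (nat_lit 0x99bd0))))) (a (v (nat_lit 8) (a (v (nat_lit 9) (k (nat_lit 0x99102))) (v (nat_lit 8) (k (nat_lit 0x9790e))))) (a (u (nat_lit 7) (v (nat_lit 7) (k (nat_lit 0x9a2f6)))) (v (nat_lit 6) (a (a (v (nat_lit 9) (k (nat_lit 0x99594))) (v (nat_lit 8) (k (nat_lit 0x9923a)))) (a (v (nat_lit 7) (k (nat_lit 0x98f82))) (v (nat_lit 6) (k (nat_lit 0x9988e)))))))))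 (a (a (v (nat_lit 5) (a (a (v (nat_lit 9) (k (nat_lit 0x99216))) (v (nat_lit 8) (k (nat_lit 0x98fc4)))) (a (v (nat_lit 7) (k (nat_lit 0xa1400))) (a (v (nat_lit 6) (k (nat_lit 0x991a4))) (v (nat_lit 5) (k (nat_lit 0x96d86))))))) (a (t (nat_lit 5) (nat_lit 8) (nat_lit 9) (t (nat_lit 5) (nat_lit 8) (nat_lit 9) (k (nat_lit 0x68bbde)))) (v (nat_lit 4) (a (a (v (nat_lit 9) (k (nat_lit 0x9a6c8))) (a (v (nat_lit 8) (k (nat_lit 0x99192))) (v (nat_lit 7) (k (nat_lit 0x996c6))))) (a (v (nat_lit 6) (k (nat_lit 0x9892e))) (a (v (nat_lit 5) (k (nat_lit 0x98fbe))) (v (nat_lit 4) (k (nat_lit 0x9902a))))))))) (a (u (nat_lit 4) (a (u (nat_lit 8) (k (nat_lit 0x14ad333e))) (u (nat_lit 5) (k (nat_lit 0x65ad38))))) (a (v (nat_lit 3) (a (a (v (nat_lit 9) (k (nat_lit 0x96be8))) (v (nat_lit 8) (k (nat_lit 0x98e0e)))) (a (v (nat_lit 7) (k (nat_lit 0x9d23c))) (a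 (v (nat_lit 5) (k (nat_lit 0x9811e))) (v (nat_lit 3) (k (nat_lit 0x99264))))))) (u (nat_lit 3) (u (nat_lit 4) (k (nat_lit 0x116082cc))))))))) (v (nat_lit 2) (a (a (a (u (nat_lit 9) (v (nat_lit 9) (k (nat_lit 0x9992a)))) (u (nat_lit 7) (a (v (nat_lit 9) (k (nat_lit 0x9e01c))) (v (nat_lit 7) (k (nat_lit 0x993de)))))) (a (u (nat_lit 6) (a (v (nat_lit 9) (k (nat_lit 0x99654))) (a (v (nat_lit 8) (k (nat_lit 0x99024))) (v (nat_lit 7) (k (nat_lit 0x99234)))))) (a (v (nat_lit 5) (u (nat_lit 6) (k (nat_lit 0x98ba4)))) (t (nat_lit 5) (nat_lit 8) (nat_lit 9) (u (nat_lit 7) (k (nat_lit 0x3751b2a))))))) (a (a (v (nat_lit 4) (u (nat_lit 6) (k (nat_lit 0x992be)))) (u (nat_lit 4) (a (u (nat_lit 6) (k (nat_lit 0x99372))) (u (nat_lit 4) (k (nat_lit 0x230f386e)))))) (a (v (nat_lit 3) (a (u (nat_lit 7) (k (nat_lit 0x9b100))) (a (u (nat_lit 6) (k (nat_lit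 0x98fc4))) (u (nat_lit 4) (k (nat_lit 0x1458ae)))))) (a (u (nat_lit 3) (a (a (v (nat_lit 9) (k (nat_lit 0x996ba))) (a (v (nat_lit 8) (k (nat_lit 0x9912c))) (v (nat_lit 7) (k (nat_lit 0x995d0))))) (a (a (v (nat_lit 6) (k (nat_lit 0x98b14))) (v (nat_lit 5) (k (nat_lit 0x992b2)))) (a (v (nat_lit 4) (k (nat_lit 0x992e2))) (v (nat_lit 3) (k (nat_lit 0x991f8))))))) (v (nat_lit 2) (a (a (u (nat_lit 9) (k (nat_lit 0x9ab90))) (a (u (nat_lit 8) (k (nat_lit 0x98f6a))) (u (nat_lit 7) (k (nat_lit 0x98f04))))) (a (a (u (nat_lit 6) (k (nat_lit 0x98892))) (u (nat_lit 5) (k (nat_lit 0x138bd0)))) (a (u (nat_lit 4) (k (nat_lit 0x98f40))) (u (nat_lit 3) (k (nat_lit 0x99510)))))))))))))))))))) (a (a (u (nat_lit 2) (a (a (a (v (nat_lit 9) (v (nat_lit 9) (v (nat_lit 9) (k (nat_lit 0x98c58))))) (v (nat_lit 8) (a (v (nat_lit 9) (v (nat_lit 9) (k (nat_lit 0x98cdc))))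 (v (nat_lit 8) (a (v (nat_lit 9) (k (nat_lit 0x98ca6))) (v (nat_lit 8) (k (nat_lit 0x994fe)))))))) (a (v (nat_lit 6) (a (v (nat_lit 9) (v (nat_lit 9) (k (nat_lit 0x98ec8)))) (a (v (nat_lit 8) (a (v (nat_lit 9) (k (nat_lit 0x98f4c))) (v (nat_lit 8) (k (nat_lit 0x98df6))))) (v (nat_lit 6) (a (v (nat_lit 9) (k (nat_lit 0x98f64))) (a (v (nat_lit 8) (k (nat_lit 0x98c82))) (v (nat_lit 7) (k (nat_lit 0x99570))))))))) (a (v (nat_lit 5) (a (v (nat_lit 8) (v (nat_lit 9) (k (nat_lit 0x98dde)))) (a (v (nat_lit 6) (a (v (nat_lit 9) (k (nat_lit 0x98e5c))) (a (v (nat_lit 8) (k (nat_lit 0x98e2c))) (v (nat_lit 6) (k (nat_lit 0x98fa6)))))) (v (nat_lit 5) (a (v (nat_lit 8) (k (nat_lit 0x98c4c))) (v (nat_lit 6) (k (nat_lit 0x98bb6)))))))) (t (nat_lit 5) (nat_lit 8) (nat_lit 9) (a (v (nat_lit 6) (v (nat_lit 7) (k (nat_lit 0x9959a)))) (v (nat_lit 5) (v (nat_lit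 6) (k (nat_lit 0x4a9b71c))))))))) (a (a (v (nat_lit 4) (a (a (a (v (nat_lit 9) (v (nat_lit 9) (k (nat_lit 0x98d7e)))) (v (nat_lit 8) (a (v (nat_lit 9) (k (nat_lit 0x9b77e))) (v (nat_lit 8) (k (nat_lit 0x98d06)))))) (a (v (nat_lit 7) (a (v (nat_lit 9) (k (nat_lit 0x98fe2))) (a (v (nat_lit 8) (k (nat_lit 0x990ea))) (v (nat_lit 7) (k (nat_lit 0x98f34)))))) (v (nat_lit 6) (a (v (nat_lit 8) (k (nat_lit 0x993ae))) (a (v (nat_lit 7) (k (nat_lit 0x99114))) (v (nat_lit 6) (k (nat_lit 0x98be0)))))))) (a (a (u (nat_lit 6) (v (nat_lit 6) (k (nat_lit 0x6b3bbfba)))) (v (nat_lit 5) (a (a (v (nat_lit 9) (k (nat_lit 0x98fac))) (v (nat_lit 8) (k (nat_lit 0x98ec8)))) (a (v (nat_lit 7) (k (nat_lit 0x98fe2))) (a (v (nat_lit 6) (k (nat_lit 0x9901e))) (v (nat_lit 5) (k (nat_lit 0x98e20)))))))) (a (t (nat_lit 5) (nat_lit 8) (nat_lit 9) (a (v (nat_lit 8) (k (nat_lit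 0x3bb879e))) (v (nat_lit 7) (k (nat_lit 0x9922e))))) (v (nat_lit 4) (a (a (v (nat_lit 9) (k (nat_lit 0x98e74))) (a (v (nat_lit 8) (k (nat_lit 0x98d66))) (v (nat_lit 7) (k (nat_lit 0x98eec))))) (a (v (nat_lit 6) (k (nat_lit 0x99054))) (a (v (nat_lit 5) (k (nat_lit 0x98eda))) (v (nat_lit 4) (k (nat_lit 0x99930))))))))))) (u (nat_lit 4) (a (u (nat_lit 6) (v (nat_lit 9) (k (nat_lit 0x97b0c)))) (v (nat_lit 4) (t (nat_lit 5) (nat_lit 8) (nat_lit 9) (k (nat_lit 0x53e87b0))))))) (a (v (nat_lit 3) (a (a (v (nat_lit 9) (v (nat_lit 9) (k (nat_lit 0x99576)))) (a (v (nat_lit 8) (a (v (nat_lit 9) (k (nat_lit 0x99192))) (v (nat_lit 8) (k (nat_lit 0x9ab0c))))) (v (nat_lit 7) (a (v (nat_lit 9) (k (nat_lit 0x99108))) (a (v (nat_lit 8) (k (nat_lit 0x98da8))) (v (nat_lit 7) (k (nat_lit 0x99126)))))))) (a (a (v (nat_lit 6) (a (a (v (nat_lit 9) (k (nat_lit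 0x98f34))) (v (nat_lit 8) (k (nat_lit 0x99312)))) (a (v (nat_lit 7) (k (nat_lit 0x9ced6))) (v (nat_lit 6) (k (nat_lit 0x9afaa)))))) (v (nat_lit 5) (a (a (v (nat_lit 9) (k (nat_lit 0x994d4))) (v (nat_lit 8) (k (nat_lit 0x99030)))) (a (v (nat_lit 7) (k (nat_lit 0x90de0))) (a (v (nat_lit 6) (k (nat_lit 0x994d4))) (v (nat_lit 5) (k (nat_lit 0x9b13c)))))))) (a (v (nat_lit 4) (a (a (v (nat_lit 9) (k (nat_lit 0x98208))) (v (nat_lit 7) (k (nat_lit 0x991e6)))) (a (v (nat_lit 6) (k (nat_lit 0x988aa))) (v (nat_lit 4) (k (nat_lit 0x996c6)))))) (v (nat_lit 3) (a (a (v (nat_lit 9) (k (nat_lit 0x99168))) (v (nat_lit 8) (k (nat_lit 0x98c58)))) (a (v (nat_lit 5) (k (nat_lit 0x990fc))) (v (nat_lit 3) (k (nat_lit 0x98d6c)))))))))) (a (v (nat_lit 2) (a (a (a (v (nat_lit 9) (v (nat_lit 9) (k (nat_lit 0x997aa)))) (a (v (nat_lit 8) (a (v (nat_lit 9) (k (nat_lit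 0x99234))) (v (nat_lit 8) (k (nat_lit 0x992e8))))) (v (nat_lit 7) (a (v (nat_lit 9) (k (nat_lit 0x992e2))) (a (v (nat_lit 8) (k (nat_lit 0x9950a))) (v (nat_lit 7) (k (nat_lit 0x99102)))))))) (a (v (nat_lit 6) (v (nat_lit 6) (k (nat_lit 0x98ff4)))) (a (u (nat_lit 6) (a (u (nat_lit 8) (k (nat_lit 0x7979ed4))) (u (nat_lit 7) (k (nat_lit 0x1259fd90))))) (v (nat_lit 5) (a (a (v (nat_lit 9) (k (nat_lit 0x9957c))) (v (nat_lit 8) (k (nat_lit 0x992d0)))) (a (v (nat_lit 7) (k (nat_lit 0x994f2))) (v (nat_lit 5) (k (nat_lit 0x9956a))))))))) (a (a (u (nat_lit 5) (a (u (nat_lit 6) (k (nat_lit 0xe1a1a84))) (u (nat_lit 5) (k (nat_lit 0x99ab6))))) (a (v (nat_lit 4) (a (a (v (nat_lit 9) (k (nat_lit 0x993d8))) (v (nat_lit 8) (k (nat_lit 0x98f4c)))) (a (v (nat_lit 7) (k (nat_lit 0x99120))) (a (v (nat_lit 5) (k (nat_lit 0x992b2))) (v (nat_lit 4) (k (nat_lit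 0x98f6a))))))) (u (nat_lit 4) (a (u (nat_lit 5) (k (nat_lit 0x9a84e))) (v (nat_lit 4) (k (nat_lit 0x9fe34))))))) (a (v (nat_lit 3) (a (a (v (nat_lit 9) (k (nat_lit 0x98c76))) (v (nat_lit 8) (k (nat_lit 0x99744)))) (a (v (nat_lit 6) (k (nat_lit 0x99f3c))) (a (v (nat_lit 5) (k (nat_lit 0x99384))) (v (nat_lit 3) (k (nat_lit 0x99270))))))) (a (u (nat_lit 3) (u (nat_lit 5) (k (nat_lit 0xb6eb666)))) (v (nat_lit 2) (a (a (u (nat_lit 8) (k (nat_lit 0x9a85a))) (u (nat_lit 6) (k (nat_lit 0x9a42e)))) (a (v (nat_lit 3) (k (nat_lit 0x4d7462c))) (v (nat_lit 2) (k (nat_lit 0x9a680))))))))))) (u (nat_lit 2) (a (v (nat_lit 3) (v (nat_lit 7) (k (nat_lit 0x9975c)))) (v (nat_lit 2) (v (nat_lit 2) (k (nat_lit 0x98fe8))))))))))) (v (nat_lit 1) (a (a (a (a (u (nat_lit 9) (a (v (nat_lit 9) (v (nat_lit 9) (k (nat_lit 0x992c4)))) (u (nat_lit 9) (v (nat_lit 9) (k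 (nat_lit 0x7c5c54)))))) (v (nat_lit 8) (v (nat_lit 8) (u (nat_lit 9) (k (nat_lit 0x991e0)))))) (a (u (nat_lit 8) (a (v (nat_lit 9) (v (nat_lit 9) (k (nat_lit 0x9939c)))) (a (v (nat_lit 8) (v (nat_lit 8) (k (nat_lit 0x99432)))) (u (nat_lit 8) (u (nat_lit 8) (k (nat_lit 0x4a326ce))))))) (v (nat_lit 7) (a (u (nat_lit 9) (u (nat_lit 9) (k (nat_lit 0x288d24e)))) (a (u (nat_lit 8) (u (nat_lit 9) (k (nat_lit 0x9803a)))) (v (nat_lit 7) (a (u (nat_lit 9) (k (nat_lit 0x9be68))) (u (nat_lit 8) (k (nat_lit 0x9a54e)))))))))) (a (a (u (nat_lit 7) (a (a (v (nat_lit 9) (v (nat_lit 9) (k (nat_lit 0x98fbe)))) (u (nat_lit 9) (v (nat_lit 9) (k (nat_lit 0x99bd0))))) (a (v (nat_lit 8) (a (v (nat_lit 9) (k (nat_lit 0x99216))) (v (nat_lit 8) (k (nat_lit 0x96d86))))) (v (nat_lit 7) (a (v (nat_lit 9) (k (nat_lit 0x96be8))) (a (v (nat_lit 8) (k (nat_lit 0x9811e)))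 (v (nat_lit 7) (k (nat_lit 0x99264))))))))) (v (nat_lit 6) (a (u (nat_lit 7) (a (v (nat_lit 9) (k (nat_lit 0x9a6c8))) (v (nat_lit 8) (k (nat_lit 0x98fbe))))) (v (nat_lit 6) (u (nat_lit 7) (k (nat_lit 0x9902a))))))) (a (u (nat_lit 6) (a (a (v (nat_lit 9) (v (nat_lit 9) (k (nat_lit 0x9950a)))) (v (nat_lit 7) (a (v (nat_lit 8) (k (nat_lit 0x99336))) (v (nat_lit 7) (k (nat_lit 0x99564)))))) (a (u (nat_lit 7) (a (u (nat_lit 8) (k (nat_lit 0x65ad38))) (u (nat_lit 7) (k (nat_lit 0x116082cc))))) (u (nat_lit 6) (u (nat_lit 8) (k (nat_lit 0x3c7dd42))))))) (v (nat_lit 5) (a (a (u (nat_lit 9) (v (nat_lit 9) (k (nat_lit 0x98f70)))) (a (u (nat_lit 8) (a (v (nat_lit 9) (k (nat_lit 0x990f6))) (a (v (nat_lit 8) (k (nat_lit 0x990e4))) (u (nat_lit 8) (k (nat_lit 0x9b1c6)))))) (u (nat_lit 7) (a (v (nat_lit 9) (k (nat_lit 0x99102))) (a (v (nat_lit 8) (k (nat_lit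 0x98fc4))) (v (nat_lit 7) (k (nat_lit 0x98e0e)))))))) (a (v (nat_lit 6) (u (nat_lit 7) (k (nat_lit 0x99192)))) (a (u (nat_lit 6) (a (v (nat_lit 9) (k (nat_lit 0x96aa4))) (v (nat_lit 7) (k (nat_lit 0x99270))))) (v (nat_lit 5) (a (a (u (nat_lit 9) (k (nat_lit 0x8cd7aa))) (u (nat_lit 8) (k (nat_lit 0x991d4)))) (a (u (nat_lit 7) (k (nat_lit 0x9790e))) (u (nat_lit 6) (k (nat_lit 0x9921c))))))))))))) (a (a (a (u (nat_lit 5) (a (a (v (nat_lit 9) (v (nat_lit 9) (k (nat_lit 0x99924)))) (u (nat_lit 8) (v (nat_lit 8) (k (nat_lit 0x3123bd6))))) (a (v (nat_lit 7) (v (nat_lit 7) (k (nat_lit 0x99f96)))) (a (u (nat_lit 6) (a (u (nat_lit 8) (k (nat_lit 0x7a211ea))) (a (u (nat_lit 7) (k (nat_lit 0x14ad333e))) (v (nat_lit 6) (k (nat_lit 0x9922e)))))) (v (nat_lit 5) (a (v (nat_lit 9) (k (nat_lit 0x9c87c))) (v (nat_lit 5) (k (nat_lit 0x988c2))))))))) (t (nat_lit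 5) (nat_lit 8) (nat_lit 9) (t (nat_lit 5) (nat_lit 8) (nat_lit 9) (a (u (nat_lit 7) (k (nat_lit 0x68bbde))) (u (nat_lit 6) (k (nat_lit 0xa0f794))))))) (a (v (nat_lit 4) (a (a (u (nat_lit 7) (a (v (nat_lit 9) (k (nat_lit 0x99594))) (v (nat_lit 8) (k (nat_lit 0x991a4))))) (v (nat_lit 6) (u (nat_lit 7) (k (nat_lit 0x9892e))))) (a (u (nat_lit 6) (a (v (nat_lit 9) (k (nat_lit 0x9a6e0))) (v (nat_lit 7) (k (nat_lit 0x9ac14))))) (a (v (nat_lit 5) (u (nat_lit 7) (k (nat_lit 0x9923a)))) (v (nat_lit 4) (a (u (nat_lit 9) (k (nat_lit 0x99402))) (u (nat_lit 7) (k (nat_lit 0x9988e))))))))) (u (nat_lit 4) (a (a (a (v (nat_lit 9) (v (nat_lit 9) (k (nat_lit 0x9ed54)))) (u (nat_lit 8) (u (nat_lit 8) (k (nat_lit 0x10814976))))) (a (v (nat_lit 7) (v (nat_lit 7) (k (nat_lit 0x9d5fc)))) (v (nat_lit 6) (v (nat_lit 7) (k (nat_lit 0x6fe8134)))))) (a (a (u (nat_lit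 6) (a (u (nat_lit 8) (k (nat_lit 0x9a6b6))) (v (nat_lit 6) (k (nat_lit 0x31012794))))) (u (nat_lit 5) (a (u (nat_lit 6) (k (nat_lit 0x9c88e))) (u (nat_lit 5) (k (nat_lit 0x28b2d4e)))))) (a (t (nat_lit 5) (nat_lit 8) (nat_lit 9) (t (nat_lit 5) (nat_lit 8) (nat_lit 9) (k (nat_lit 0x6ba97bc)))) (a (v (nat_lit 4) (a (a (v (nat_lit 9) (k (nat_lit 0x9961e))) (v (nat_lit 7) (k (nat_lit 0x9708c)))) (a (u (nat_lit 6) (k (nat_lit 0x9dee4))) (a (u (nat_lit 5) (k (nat_lit 0x98f8e))) (v (nat_lit 4) (k (nat_lit 0x12f59298))))))) (u (nat_lit 4) (a (a (v (nat_lit 8) (k (nat_lit 0x992fa))) (v (nat_lit 6) (k (nat_lit 0x9932a)))) (a (u (nat_lit 5) (k (nat_lit 0x174aa580))) (u (nat_lit 4) (k (nat_lit 0x2c9bce0))))))))))))) (a (a (v (nat_lit 3) (a (a (a (u (nat_lit 9) (v (nat_lit 9) (k (nat_lit 0x99060)))) (v (nat_lit 8) (u (nat_lit 9) (k (nat_lit 0x97d64)))))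 (a (u (nat_lit 8) (a (v (nat_lit 9) (k (nat_lit 0x99342))) (v (nat_lit 8) (k (nat_lit 0x96f9c))))) (a (u (nat_lit 7) (a (v (nat_lit 8) (k (nat_lit 0xa1400))) (v (nat_lit 7) (k (nat_lit 0x9d23c))))) (v (nat_lit 6) (u (nat_lit 7) (k (nat_lit 0x996c6))))))) (a (a (v (nat_lit 5) (a (u (nat_lit 9) (k (nat_lit 0x992e8))) (u (nat_lit 8) (k (nat_lit 0x9de48))))) (u (nat_lit 5) (a (v (nat_lit 8) (k (nat_lit 0x945a8))) (v (nat_lit 5) (k (nat_lit 0x944fa)))))) (a (v (nat_lit 4) (u (nat_lit 7) (k (nat_lit 0x98f82)))) (a (u (nat_lit 4) (v (nat_lit 7) (k (nat_lit 0x95fd0)))) (v (nat_lit 3) (a (u (nat_lit 8) (k (nat_lit 0x992ac))) (u (nat_lit 5) (k (nat_lit 0x99258)))))))))) (u (nat_lit 3) (a (a (v (nat_lit 8) (a (v (nat_lit 9) (k (nat_lit 0x9a6b6))) (v (nat_lit 8) (k (nat_lit 0x9b160))))) (a (v (nat_lit 7) (v (nat_lit 7) (k (nat_lit 0x95424)))) (v (nat_lit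 5) (a (v (nat_lit 8) (k (nat_lit 0x991a4))) (v (nat_lit 5) (k (nat_lit 0x9dffe))))))) (a (v (nat_lit 4) (a (a (v (nat_lit 9) (k (nat_lit 0x995dc))) (v (nat_lit 8) (k (nat_lit 0x995be)))) (a (v (nat_lit 5) (k (nat_lit 0x99498))) (t (nat_lit 5) (nat_lit 8) (nat_lit 9) (k (nat_lit 0x348a6b6)))))) (a (u (nat_lit 4) (u (nat_lit 8) (k (nat_lit 0x3fdcbea)))) (v (nat_lit 3) (a (a (v (nat_lit 9) (k (nat_lit 0x9bb5c))) (u (nat_lit 7) (k (nat_lit 0x9a2f6)))) (a (v (nat_lit 5) (k (nat_lit 0x9969c))) (a (v (nat_lit 4) (k (nat_lit 0x998ac))) (v (nat_lit 3) (k (nat_lit 0x99048)))))))))))) (a (v (nat_lit 2) (a (a (a (u (nat_lit 9) (a (v (nat_lit 9) (k (nat_lit 0x132360))) (u (nat_lit 9) (k (nat_lit 0x11b9b00))))) (a (u (nat_lit 8) (a (v (nat_lit 9) (k (nat_lit 0x992d0))) (v (nat_lit 8) (k (nat_lit 0x99030))))) (v (nat_lit 7) (a (u (nat_lit 9) (k (nat_lit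 0x99918))) (u (nat_lit 8) (k (nat_lit 0x99234))))))) (a (u (nat_lit 7) (v (nat_lit 7) (k (nat_lit 0x999d8)))) (a (v (nat_lit 6) (u (nat_lit 7) (k (nat_lit 0x994da)))) (u (nat_lit 6) (a (a (v (nat_lit 9) (k (nat_lit 0x994a4))) (v (nat_lit 8) (k (nat_lit 0x99d38)))) (a (v (nat_lit 7) (k (nat_lit 0x992a6))) (v (nat_lit 6) (k (nat_lit 0x9a5f0))))))))) (a (a (v (nat_lit 5) (a (u (nat_lit 8) (k (nat_lit 0x997b0))) (u (nat_lit 6) (k (nat_lit 0x993cc))))) (a (u (nat_lit 5) (a (a (v (nat_lit 9) (k (nat_lit 0x992d0))) (v (nat_lit 8) (k (nat_lit 0x997b0)))) (a (v (nat_lit 7) (k (nat_lit 0x99360))) (v (nat_lit 5) (k (nat_lit 0x99030)))))) (v (nat_lit 4) (u (nat_lit 6) (k (nat_lit 0x99870)))))) (a (a (u (nat_lit 4) (a (a (v (nat_lit 9) (k (nat_lit 0x994a4))) (a (v (nat_lit 8) (k (nat_lit 0x993cc))) (v (nat_lit 7) (k (nat_lit 0x99288))))) (a (a (u (nat_lit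 7) (k (nat_lit 0x31fc614))) (v (nat_lit 6) (k (nat_lit 0x99870)))) (a (v (nat_lit 5) (k (nat_lit 0x99d38))) (v (nat_lit 4) (k (nat_lit 0x9a5f0))))))) (v (nat_lit 3) (a (a (u (nat_lit 9) (k (nat_lit 0x99918))) (u (nat_lit 8) (k (nat_lit 0x99360)))) (a (u (nat_lit 6) (k (nat_lit 0x99288))) (a (u (nat_lit 5) (k (nat_lit 0x99234))) (u (nat_lit 4) (k (nat_lit 0x992a6)))))))) (a (u (nat_lit 3) (a (a (u (nat_lit 7) (k (nat_lit 0x75b31cc))) (u (nat_lit 6) (k (nat_lit 0x31fc614)))) (a (v (nat_lit 4) (k (nat_lit 0x994da))) (v (nat_lit 3) (k (nat_lit 0x999d8)))))) (v (nat_lit 2) (a (a (u (nat_lit 9) (k (nat_lit 0xadbd28))) (u (nat_lit 8) (k (nat_lit 0x99258)))) (a (u (nat_lit 7) (k (nat_lit 0x99024))) (a (u (nat_lit 5) (k (nat_lit 0x99318))) (u (nat_lit 4) (k (nat_lit 0x990ba)))))))))))) (a (u (nat_lit 2) (a (v (nat_lit 3) (v (nat_lit 7) (k (nat_lit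 0x9935a)))) (v (nat_lit 2) (a (a (v (nat_lit 9) (k (nat_lit 0x99b1c))) (a (v (nat_lit 7) (k (nat_lit 0x98ed4))) (v (nat_lit 6) (k (nat_lit 0x99108))))) (a (a (u (nat_lit 6) (k (nat_lit 0x4404f0c))) (v (nat_lit 5) (k (nat_lit 0x99384)))) (a (v (nat_lit 4) (k (nat_lit 0x9910e))) (v (nat_lit 2) (k (nat_lit 0x990fc))))))))) (v (nat_lit 1) (a (a (a (u (nat_lit 9) (v (nat_lit 9) (k (nat_lit 0x9992a)))) (a (u (nat_lit 7) (a (v (nat_lit 9) (k (nat_lit 0x996ba))) (a (v (nat_lit 8) (k (nat_lit 0x992b2))) (v (nat_lit 7) (k (nat_lit 0x991f8)))))) (v (nat_lit 6) (u (nat_lit 7) (k (nat_lit 0x992e2)))))) (a (u (nat_lit 6) (a (v (nat_lit 7) (k (nat_lit 0x1458ae))) (u (nat_lit 6) (k (nat_lit 0x230f386e))))) (a (v (nat_lit 5) (u (nat_lit 7) (k (nat_lit 0x9912c)))) (v (nat_lit 4) (u (nat_lit 7) (k (nat_lit 0x98b14))))))) (a (a (u (nat_lit 4) (a (a (v (nat_lit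 9) (k (nat_lit 0x99654))) (a (v (nat_lit 8) (k (nat_lit 0x98ba4))) (v (nat_lit 7) (k (nat_lit 0x98fc4))))) (a (v (nat_lit 6) (k (nat_lit 0x992be))) (a (u (nat_lit 6) (k (nat_lit 0x99372))) (v (nat_lit 5) (k (nat_lit 0x99024))))))) (a (v (nat_lit 3) (a (u (nat_lit 7) (k (nat_lit 0x995d0))) (u (nat_lit 4) (k (nat_lit 0x99234))))) (u (nat_lit 3) (a (a (v (nat_lit 9) (k (nat_lit 0x9e01c))) (v (nat_lit 7) (k (nat_lit 0x9b100)))) (a (t (nat_lit 5) (nat_lit 8) (nat_lit 9) (k (nat_lit 0x3751b2a))) (v (nat_lit 3) (k (nat_lit 0x993de)))))))) (a (v (nat_lit 2) (a (a (u (nat_lit 9) (k (nat_lit 0xadbd28))) (u (nat_lit 8) (k (nat_lit 0x99318)))) (a (u (nat_lit 6) (k (nat_lit 0x990ba))) (a (u (nat_lit 5) (k (nat_lit 0x99258))) (u (nat_lit 3) (k (nat_lit 0x99024))))))) (a (u (nat_lit 2) (a (v (nat_lit 7) (k (nat_lit 0x99528))) (v (nat_lit 2) (k (nat_lit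 0x98fac))))) (v (nat_lit 1) (a (a (u (nat_lit 9) (k (nat_lit 0x9ab90))) (a (u (nat_lit 8) (k (nat_lit 0x138bd0))) (u (nat_lit 7) (k (nat_lit 0x99510))))) (a (a (u (nat_lit 6) (k (nat_lit 0x98f40))) (u (nat_lit 5) (k (nat_lit 0x98f6a)))) (a (u (nat_lit 4) (k (nat_lit 0x98892))) (u (nat_lit 3) (k (nat_lit 0x98f04))))))))))))))))))) (a (u (nat_lit 1) (a (a (a (v (nat_lit 9) (v (nat_lit 9) (v (nat_lit 9) (k (nat_lit 0x98c58))))) (v (nat_lit 7) (a (v (nat_lit 9) (v (nat_lit 9) (k (nat_lit 0x99576)))) (a (v (nat_lit 8) (a (v (nat_lit 9) (k (nat_lit 0x994d4))) (v (nat_lit 8) (k (nat_lit 0x9b13c))))) (v (nat_lit 7) (a (v (nat_lit 9) (k (nat_lit 0x99168))) (a (v (nat_lit 8) (k (nat_lit 0x990fc))) (v (nat_lit 7) (k (nat_lit 0x98d6c)))))))))) (a (v (nat_lit 6) (a (a (v (nat_lit 9) (v (nat_lit 9) (k (nat_lit 0x98d7e)))) (v (nat_lit 8) (a (v (nat_lit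 9) (k (nat_lit 0x98fac))) (v (nat_lit 8) (k (nat_lit 0x98e20)))))) (a (v (nat_lit 7) (v (nat_lit 9) (k (nat_lit 0x98208)))) (v (nat_lit 6) (a (a (v (nat_lit 9) (k (nat_lit 0x98e74))) (v (nat_lit 8) (k (nat_lit 0x98eda)))) (a (v (nat_lit 7) (k (nat_lit 0x996c6))) (v (nat_lit 6) (k (nat_lit 0x99930))))))))) (a (v (nat_lit 5) (a (a (v (nat_lit 9) (v (nat_lit 9) (k (nat_lit 0x98cdc)))) (v (nat_lit 8) (a (v (nat_lit 9) (k (nat_lit 0x98dde))) (v (nat_lit 8) (k (nat_lit 0x98c4c)))))) (a (v (nat_lit 7) (a (v (nat_lit 9) (k (nat_lit 0x99192))) (a (v (nat_lit 8) (k (nat_lit 0x99030))) (v (nat_lit 7) (k (nat_lit 0x98c58)))))) (a (v (nat_lit 6) (a (v (nat_lit 9) (k (nat_lit 0x9b77e))) (a (v (nat_lit 8) (k (nat_lit 0x98ec8))) (v (nat_lit 6) (k (nat_lit 0x98d66)))))) (v (nat_lit 5) (a (a (v (nat_lit 9) (k (nat_lit 0x98ca6))) (v (nat_lit 7) (k (nat_lit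 0x9ab0c)))) (a (v (nat_lit 6) (k (nat_lit 0x98d06))) (v (nat_lit 5) (k (nat_lit 0x994fe)))))))))) (t (nat_lit 5) (nat_lit 8) (nat_lit 9) (a (u (nat_lit 6) (v (nat_lit 6) (k (nat_lit 0x53e87b0)))) (v (nat_lit 5) (v (nat_lit 6) (k (nat_lit 0x3bb879e))))))))) (a (a (v (nat_lit 4) (a (a (v (nat_lit 9) (v (nat_lit 9) (k (nat_lit 0x98ec8)))) (a (v (nat_lit 8) (a (v (nat_lit 9) (k (nat_lit 0x98e5c))) (v (nat_lit 8) (k (nat_lit 0x98bb6))))) (v (nat_lit 7) (a (v (nat_lit 9) (k (nat_lit 0x98f34))) (v (nat_lit 8) (k (nat_lit 0x994d4))))))) (a (a (v (nat_lit 6) (a (v (nat_lit 8) (k (nat_lit 0x9901e))) (a (v (nat_lit 7) (k (nat_lit 0x988aa))) (v (nat_lit 6) (k (nat_lit 0x99054)))))) (v (nat_lit 5) (a (a (v (nat_lit 9) (k (nat_lit 0x98f4c))) (v (nat_lit 8) (k (nat_lit 0x98e2c)))) (a (v (nat_lit 7) (k (nat_lit 0x99312))) (a (v (nat_lit 6) (k (nat_lit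 0x993ae))) (v (nat_lit 5) (k (nat_lit 0x98df6)))))))) (a (t (nat_lit 5) (nat_lit 8) (nat_lit 9) (v (nat_lit 8) (k (nat_lit 0x4a9b71c)))) (v (nat_lit 4) (a (a (v (nat_lit 9) (k (nat_lit 0x98f64))) (v (nat_lit 8) (k (nat_lit 0x98fa6)))) (a (v (nat_lit 7) (k (nat_lit 0x9afaa))) (a (v (nat_lit 6) (k (nat_lit 0x98be0))) (v (nat_lit 5) (k (nat_lit 0x98c82))))))))))) (a (u (nat_lit 4) (a (u (nat_lit 6) (v (nat_lit 9) (k (nat_lit 0x97b0c)))) (v (nat_lit 4) (v (nat_lit 6) (k (nat_lit 0x6b3bbfba)))))) (v (nat_lit 3) (a (a (v (nat_lit 7) (a (v (nat_lit 9) (k (nat_lit 0x99108))) (v (nat_lit 8) (k (nat_lit 0x90de0))))) (a (v (nat_lit 6) (a (a (v (nat_lit 9) (k (nat_lit 0x98fe2))) (v (nat_lit 8) (k (nat_lit 0x98fe2)))) (a (v (nat_lit 7) (k (nat_lit 0x991e6))) (v (nat_lit 6) (k (nat_lit 0x98eec)))))) (v (nat_lit 5) (a (v (nat_lit 7) (k (nat_lit 0x98da8)))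 (v (nat_lit 6) (k (nat_lit 0x990ea))))))) (a (t (nat_lit 5) (nat_lit 8) (nat_lit 9) (v (nat_lit 6) (k (nat_lit 0x9922e)))) (a (v (nat_lit 4) (a (a (v (nat_lit 7) (k (nat_lit 0x9ced6))) (v (nat_lit 6) (k (nat_lit 0x99114)))) (a (t (nat_lit 5) (nat_lit 8) (nat_lit 9) (k (nat_lit 0x9959a))) (v (nat_lit 4) (k (nat_lit 0x99570)))))) (v (nat_lit 3) (a (v (nat_lit 7) (k (nat_lit 0x99126))) (v (nat_lit 6) (k (nat_lit 0x98f34))))))))))) (a (v (nat_lit 2) (a (v (nat_lit 3) (v (nat_lit 7) (k (nat_lit 0x9935a)))) (v (nat_lit 2) (v (nat_lit 3) (k (nat_lit 0x99528)))))) (a (v (nat_lit 1) (a (a (a (v (nat_lit 9) (v (nat_lit 9) (k (nat_lit 0x997aa)))) (a (v (nat_lit 8) (a (v (nat_lit 9) (k (nat_lit 0x9957c))) (v (nat_lit 8) (k (nat_lit 0x9956a))))) (u (nat_lit 8) (u (nat_lit 8) (k (nat_lit 0x99ab6)))))) (a (a (v (nat_lit 7) (a (v (nat_lit 9) (k (nat_lit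 0x98c76))) (a (v (nat_lit 8) (k (nat_lit 0x99384))) (v (nat_lit 7) (k (nat_lit 0x99270)))))) (u (nat_lit 7) (u (nat_lit 8) (k (nat_lit 0xb6eb666))))) (a (v (nat_lit 6) (a (v (nat_lit 9) (k (nat_lit 0x993d8))) (a (v (nat_lit 8) (k (nat_lit 0x992b2))) (v (nat_lit 6) (k (nat_lit 0x98f6a)))))) (u (nat_lit 6) (a (u (nat_lit 8) (k (nat_lit 0x9a84e))) (v (nat_lit 6) (k (nat_lit 0x9fe34)))))))) (a (a (v (nat_lit 5) (a (a (v (nat_lit 9) (k (nat_lit 0x99234))) (v (nat_lit 8) (k (nat_lit 0x992d0)))) (a (v (nat_lit 7) (k (nat_lit 0x99744))) (a (v (nat_lit 6) (k (nat_lit 0x98f4c))) (v (nat_lit 5) (k (nat_lit 0x992e8))))))) (a (v (nat_lit 4) (a (v (nat_lit 7) (k (nat_lit 0x99f3c))) (v (nat_lit 4) (k (nat_lit 0x98ff4))))) (u (nat_lit 4) (a (u (nat_lit 8) (k (nat_lit 0xe1a1a84))) (u (nat_lit 5) (k (nat_lit 0x7979ed4))))))) (a (a (v (nat_lit 3) (a (a (v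 (nat_lit 9) (k (nat_lit 0x992e2))) (v (nat_lit 8) (k (nat_lit 0x994f2)))) (a (v (nat_lit 6) (k (nat_lit 0x99120))) (a (v (nat_lit 5) (k (nat_lit 0x9950a))) (v (nat_lit 3) (k (nat_lit 0x99102))))))) (u (nat_lit 3) (u (nat_lit 4) (k (nat_lit 0x1259fd90))))) (a (v (nat_lit 2) (a (a (v (nat_lit 9) (k (nat_lit 0x99b1c))) (a (v (nat_lit 8) (k (nat_lit 0x99384))) (v (nat_lit 6) (k (nat_lit 0x9910e))))) (a (a (v (nat_lit 4) (k (nat_lit 0x99108))) (u (nat_lit 4) (k (nat_lit 0x4404f0c)))) (a (v (nat_lit 3) (k (nat_lit 0x98ed4))) (v (nat_lit 2) (k (nat_lit 0x98fac))))))) (v (nat_lit 1) (a (a (v (nat_lit 7) (k (nat_lit 0x4d7462c))) (u (nat_lit 5) (k (nat_lit 0x9a85a)))) (a (u (nat_lit 4) (k (nat_lit 0x9a42e))) (a (v (nat_lit 2) (k (nat_lit 0x990fc))) (v (nat_lit 1) (k (nat_lit 0x9a680)))))))))))) (u (nat_lit 1) (a (v (nat_lit 3) (v (nat_lit 7) (k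 (nat_lit 0x9975c)))) (v (nat_lit 1) (v (nat_lit 1) (k (nat_lit 0x98fe8))))))))))) (a (v (nat_lit 0) (a (a (a (a (u (nat_lit 9) (v (nat_lit 9) (v (nat_lit 9) (k (nat_lit 0x1313b8))))) (v (nat_lit 8) (a (u (nat_lit 9) (v (nat_lit 9) (k (nat_lit 0x9938a)))) (v (nat_lit 8) (u (nat_lit 9) (k (nat_lit 0x99d62))))))) (a (u (nat_lit 8) (a (v (nat_lit 9) (v (nat_lit 9) (k (nat_lit 0x98a06)))) (v (nat_lit 8) (a (v (nat_lit 9) (k (nat_lit 0x97c9e))) (v (nat_lit 8) (k (nat_lit 0x985c8))))))) (v (nat_lit 7) (a (v (nat_lit 8) (u (nat_lit 9) (k (nat_lit 0x5a24ef4)))) (u (nat_lit 8) (v (nat_lit 8) (k (nat_lit 0x9b05e)))))))) (a (a (u (nat_lit 7) (a (v (nat_lit 9) (v (nat_lit 9) (k (nat_lit 0x991e6)))) (v (nat_lit 7) (a (v (nat_lit 9) (k (nat_lit 0x99108))) (a (v (nat_lit 8) (k (nat_lit 0x99210))) (v (nat_lit 7) (k (nat_lit 0x99c90)))))))) (v (nat_lit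 6) (a (a (u (nat_lit 9) (v (nat_lit 9) (k (nat_lit 0x99258)))) (v (nat_lit 7) (a (u (nat_lit 9) (k (nat_lit 0x7df3fdc))) (u (nat_lit 8) (k (nat_lit 0x982bc)))))) (a (u (nat_lit 7) (a (a (v (nat_lit 8) (k (nat_lit 0x98c82))) (u (nat_lit 8) (k (nat_lit 0x99312)))) (a (v (nat_lit 7) (k (nat_lit 0x99342))) (u (nat_lit 7) (k (nat_lit 0x997c8)))))) (v (nat_lit 6) (a (u (nat_lit 9) (k (nat_lit 0x99ab0))) (a (u (nat_lit 8) (k (nat_lit 0x993b4))) (u (nat_lit 7) (k (nat_lit 0x9a008)))))))))) (a (u (nat_lit 6) (a (a (v (nat_lit 8) (a (v (nat_lit 9) (k (nat_lit 0x9a08c))) (v (nat_lit 8) (k (nat_lit 0x9736e))))) (u (nat_lit 8) (v (nat_lit 9) (k (nat_lit 0x99fcc))))) (a (v (nat_lit 7) (a (v (nat_lit 9) (k (nat_lit 0x99282))) (a (v (nat_lit 8) (k (nat_lit 0x978cc))) (v (nat_lit 7) (k (nat_lit 0x9a50c)))))) (v (nat_lit 6) (a (v (nat_lit 7) (k (nat_lit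 0x99c30))) (v (nat_lit 6) (k (nat_lit 0x9a7e8)))))))) (a (v (nat_lit 5) (a (a (u (nat_lit 9) (v (nat_lit 9) (k (nat_lit 0x9938a)))) (a (v (nat_lit 8) (u (nat_lit 9) (k (nat_lit 0x131988)))) (u (nat_lit 8) (v (nat_lit 8) (k (nat_lit 0x989ac)))))) (a (a (v (nat_lit 7) (a (u (nat_lit 9) (k (nat_lit 0x9933c))) (u (nat_lit 8) (k (nat_lit 0x9941a))))) (u (nat_lit 7) (v (nat_lit 7) (k (nat_lit 0x99144))))) (a (u (nat_lit 6) (a (a (v (nat_lit 9) (k (nat_lit 0x9b63a))) (v (nat_lit 8) (k (nat_lit 0x9a2ae)))) (a (u (nat_lit 8) (k (nat_lit 0x98b20))) (v (nat_lit 7) (k (nat_lit 0x98904)))))) (v (nat_lit 5) (a (u (nat_lit 9) (k (nat_lit 0x99d62))) (u (nat_lit 6) (k (nat_lit 0x98f10))))))))) (u (nat_lit 5) (a (a (v (nat_lit 9) (v (nat_lit 9) (k (nat_lit 0x98a06)))) (v (nat_lit 7) (a (v (nat_lit 8) (k (nat_lit 0x556919a))) (v (nat_lit 7) (k (nat_lit 0x95741a0))))))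 (a (v (nat_lit 6) (v (nat_lit 6) (k (nat_lit 0x9a47c)))) (v (nat_lit 5) (a (a (v (nat_lit 9) (k (nat_lit 0x97c9e))) (v (nat_lit 8) (k (nat_lit 0x989ac)))) (a (v (nat_lit 7) (k (nat_lit 0x9b01c))) (v (nat_lit 5) (k (nat_lit 0x985c8))))))))))))) (a (a (a (t (nat_lit 5) (nat_lit 8) (nat_lit 9) (a (a (u (nat_lit 9) (u (nat_lit 9) (k (nat_lit 0x132888)))) (a (u (nat_lit 7) (v (nat_lit 7) (k (nat_lit 0x992c4)))) (u (nat_lit 6) (a (u (nat_lit 8) (k (nat_lit 0x99828))) (a (u (nat_lit 7) (k (nat_lit 0x5593bc6))) (u (nat_lit 6) (k (nat_lit 0x6f47232)))))))) (a (v (nat_lit 5) (u (nat_lit 8) (k (nat_lit 0x2375b74)))) (a (u (nat_lit 5) (a (v (nat_lit 8) (k (nat_lit 0x2375b74))) (u (nat_lit 6) (k (nat_lit 0xb89ec))))) (t (nat_lit 5) (nat_lit 8) (nat_lit 9) (a (u (nat_lit 8) (k (nat_lit 0x1fa0f04))) (a (u (nat_lit 7) (k (nat_lit 0x9a7e2))) (u (nat_lit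 5) (k (nat_lit 0x1fa0f04)))))))))) (v (nat_lit 4) (a (a (u (nat_lit 9) (v (nat_lit 9) (k (nat_lit 0x99258)))) (a (u (nat_lit 7) (u (nat_lit 7) (k (nat_lit 0x44e3242)))) (v (nat_lit 6) (a (u (nat_lit 9) (k (nat_lit 0x1314fc))) (u (nat_lit 8) (k (nat_lit 0x9a62c))))))) (a (a (u (nat_lit 6) (a (a (v (nat_lit 9) (k (nat_lit 0x19e942c))) (v (nat_lit 8) (k (nat_lit 0x99d08)))) (a (v (nat_lit 7) (k (nat_lit 0x97092))) (u (nat_lit 6) (k (nat_lit 0x9a542)))))) (v (nat_lit 5) (u (nat_lit 6) (k (nat_lit 0x99fb4))))) (a (u (nat_lit 5) (v (nat_lit 6) (k (nat_lit 0x9a62c)))) (v (nat_lit 4) (a (a (u (nat_lit 9) (k (nat_lit 0x99ab0))) (u (nat_lit 8) (k (nat_lit 0x9a47c)))) (a (u (nat_lit 7) (k (nat_lit 0x992a0))) (a (u (nat_lit 6) (k (nat_lit 0x997f8))) (u (nat_lit 5) (k (nat_lit 0x993b4)))))))))))) (a (u (nat_lit 4) (a (a (a (v (nat_lit 8) (a (v (nat_lit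 9) (k (nat_lit 0x9b63a))) (v (nat_lit 8) (k (nat_lit 0x98f10))))) (v (nat_lit 7) (a (a (v (nat_lit 9) (k (nat_lit 0x97020))) (u (nat_lit 9) (k (nat_lit 0x9726c)))) (a (v (nat_lit 8) (k (nat_lit 0x99540))) (v (nat_lit 7) (k (nat_lit 0x2af6d4a))))))) (a (v (nat_lit 6) (a (a (v (nat_lit 9) (k (nat_lit 0x19e942c))) (v (nat_lit 8) (k (nat_lit 0x99fb4)))) (a (v (nat_lit 7) (k (nat_lit 0x9b712))) (v (nat_lit 6) (k (nat_lit 0x997f8)))))) (u (nat_lit 6) (v (nat_lit 6) (k (nat_lit 0x9a146)))))) (a (a (v (nat_lit 5) (a (a (v (nat_lit 9) (k (nat_lit 0x9a08c))) (v (nat_lit 8) (k (nat_lit 0x9a2ae)))) (a (v (nat_lit 7) (k (nat_lit 0x99078))) (a (v (nat_lit 6) (k (nat_lit 0x99d08))) (v (nat_lit 5) (k (nat_lit 0x9736e))))))) (u (nat_lit 5) (a (v (nat_lit 9) (k (nat_lit 0x99fcc))) (v (nat_lit 8) (k (nat_lit 0x98b20)))))) (a (t (nat_lit 5) (nat_lit 8) (nat_lit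 9) (a (u (nat_lit 8) (k (nat_lit 0xb89ec))) (a (u (nat_lit 6) (k (nat_lit 0x20f77fa4))) (u (nat_lit 5) (k (nat_lit 0x99828)))))) (a (v (nat_lit 4) (a (u (nat_lit 7) (k (nat_lit 0x173dad64))) (a (u (nat_lit 6) (k (nat_lit 0x9a146))) (v (nat_lit 4) (k (nat_lit 0x9a7e8)))))) (u (nat_lit 4) (a (v (nat_lit 6) (k (nat_lit 0x9a542))) (t (nat_lit 5) (nat_lit 8) (nat_lit 9) (k (nat_lit 0x6f47232)))))))))) (a (v (nat_lit 3) (a (a (a (v (nat_lit 8) (u (nat_lit 9) (k (nat_lit 0x9933c)))) (u (nat_lit 8) (v (nat_lit 8) (k (nat_lit 0x9b01c))))) (a (u (nat_lit 7) (a (v (nat_lit 9) (k (nat_lit 0x98be6))) (v (nat_lit 8) (k (nat_lit 0x99420))))) (a (v (nat_lit 6) (u (nat_lit 7) (k (nat_lit 0x99348)))) (u (nat_lit 6) (a (v (nat_lit 9) (k (nat_lit 0x97020))) (a (u (nat_lit 9) (k (nat_lit 0x9726c))) (v (nat_lit 8) (k (nat_lit 0x99078))))))))) (a (a (v (nat_lit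 5) (a (a (u (nat_lit 9) (k (nat_lit 0x5a24ef4))) (u (nat_lit 8) (k (nat_lit 0x556919a)))) (a (u (nat_lit 7) (k (nat_lit 0xc2dcdf8))) (u (nat_lit 6) (k (nat_lit 0x99540)))))) (u (nat_lit 5) (a (v (nat_lit 8) (k (nat_lit 0x9941a))) (v (nat_lit 5) (k (nat_lit 0x9b05e)))))) (a (v (nat_lit 4) (a (a (u (nat_lit 9) (k (nat_lit 0x7df3fdc))) (u (nat_lit 7) (k (nat_lit 0x9a04a)))) (a (u (nat_lit 6) (k (nat_lit 0x9b712))) (u (nat_lit 5) (k (nat_lit 0x982bc)))))) (a (u (nat_lit 4) (a (a (v (nat_lit 9) (k (nat_lit 0x99282))) (v (nat_lit 8) (k (nat_lit 0x98904)))) (a (v (nat_lit 6) (k (nat_lit 0x97092))) (a (v (nat_lit 5) (k (nat_lit 0x978cc))) (v (nat_lit 4) (k (nat_lit 0x99c30))))))) (v (nat_lit 3) (a (a (u (nat_lit 8) (k (nat_lit 0x95741a0))) (u (nat_lit 7) (k (nat_lit 0x7d3457c)))) (a (u (nat_lit 6) (k (nat_lit 0x2af6d4a))) (u (nat_lit 4) (k (nat_lit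 0x9a50c))))))))))) (u (nat_lit 3) (a (a (a (v (nat_lit 9) (v (nat_lit 9) (k (nat_lit 0x991e6)))) (v (nat_lit 7) (a (v (nat_lit 9) (k (nat_lit 0x98be6))) (a (v (nat_lit 8) (k (nat_lit 0xc2dcdf8))) (v (nat_lit 7) (k (nat_lit 0x7d3457c))))))) (a (v (nat_lit 6) (a (v (nat_lit 7) (k (nat_lit 0x9a04a))) (v (nat_lit 6) (k (nat_lit 0x992a0))))) (a (u (nat_lit 6) (v (nat_lit 6) (k (nat_lit 0x173dad64)))) (v (nat_lit 5) (v (nat_lit 7) (k (nat_lit 0x99420))))))) (a (a (t (nat_lit 5) (nat_lit 8) (nat_lit 9) (t (nat_lit 5) (nat_lit 8) (nat_lit 9) (k (nat_lit 0x9a7e2)))) (v (nat_lit 4) (a (a (v (nat_lit 7) (k (nat_lit 0x99348))) (v (nat_lit 5) (k (nat_lit 0x98c82)))) (a (u (nat_lit 5) (k (nat_lit 0x99312))) (v (nat_lit 4) (k (nat_lit 0x9a008))))))) (a (u (nat_lit 4) (t (nat_lit 5) (nat_lit 8) (nat_lit 9) (k (nat_lit 0x5593bc6)))) (a (v (nat_lit 3) (a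 (a (v (nat_lit 9) (k (nat_lit 0x99108))) (a (v (nat_lit 8) (k (nat_lit 0x99144))) (v (nat_lit 5) (k (nat_lit 0x99210))))) (a (t (nat_lit 5) (nat_lit 8) (nat_lit 9) (k (nat_lit 0x992c4))) (a (v (nat_lit 4) (k (nat_lit 0x99342))) (v (nat_lit 3) (k (nat_lit 0x99c90))))))) (u (nat_lit 3) (a (v (nat_lit 6) (k (nat_lit 0x44e3242))) (v (nat_lit 4) (k (nat_lit 0x997c8))))))))))))) (a (a (v (nat_lit 2) (a (a (a (v (nat_lit 7) (a (u (nat_lit 9) (k (nat_lit 0x9d260))) (u (nat_lit 8) (k (nat_lit 0x993b4))))) (u (nat_lit 7) (a (v (nat_lit 9) (k (nat_lit 0x96c06))) (a (v (nat_lit 8) (k (nat_lit 0x9931e))) (v (nat_lit 7) (k (nat_lit 0x99270))))))) (a (v (nat_lit 6) (a (u (nat_lit 9) (k (nat_lit 0x9c76e))) (u (nat_lit 7) (k (nat_lit 0x994c8))))) (a (u (nat_lit 6) (a (a (v (nat_lit 9) (k (nat_lit 0x9bf94))) (v (nat_lit 8) (k (nat_lit 0x9a170)))) (a (v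 (nat_lit 7) (k (nat_lit 0x99648))) (a (v (nat_lit 6) (k (nat_lit 0x9976e))) (u (nat_lit 6) (k (nat_lit 0x96ec4))))))) (v (nat_lit 5) (a (a (u (nat_lit 9) (k (nat_lit 0xa7aa8))) (u (nat_lit 8) (k (nat_lit 0x9ae00)))) (a (u (nat_lit 7) (k (nat_lit 0x39318f6))) (u (nat_lit 6) (k (nat_lit 0x999c0))))))))) (a (a (u (nat_lit 5) (v (nat_lit 5) (k (nat_lit 0x993f0)))) (a (t (nat_lit 5) (nat_lit 8) (nat_lit 9) (u (nat_lit 7) (k (nat_lit 0x9f34e)))) (v (nat_lit 4) (a (a (u (nat_lit 9) (k (nat_lit 0x9aab8))) (u (nat_lit 8) (k (nat_lit 0x996f0)))) (a (u (nat_lit 7) (k (nat_lit 0x997f8))) (a (u (nat_lit 6) (k (nat_lit 0x99eb2))) (u (nat_lit 5) (k (nat_lit 0x9920a))))))))) (a (u (nat_lit 4) (v (nat_lit 4) (k (nat_lit 0x993b4)))) (a (u (nat_lit 3) (a (a (v (nat_lit 9) (k (nat_lit 0x973a4))) (v (nat_lit 8) (k (nat_lit 0x68fb224)))) (a (v (nat_lit 7) (k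 (nat_lit 0x996d8))) (a (v (nat_lit 5) (k (nat_lit 0x99198))) (v (nat_lit 4) (k (nat_lit 0x99e6a))))))) (v (nat_lit 2) (a (a (u (nat_lit 9) (k (nat_lit 0x9a2ae))) (a (u (nat_lit 8) (k (nat_lit 0x99030))) (u (nat_lit 7) (k (nat_lit 0x9b772))))) (a (u (nat_lit 6) (k (nat_lit 0x991c8))) (a (u (nat_lit 5) (k (nat_lit 0x97a94))) (u (nat_lit 4) (k (nat_lit 0x98fe8)))))))))))) (u (nat_lit 2) (a (a (a (v (nat_lit 9) (v (nat_lit 9) (k (nat_lit 0x99018)))) (v (nat_lit 8) (a (v (nat_lit 9) (k (nat_lit 0x98dfc))) (v (nat_lit 8) (k (nat_lit 0x98f28)))))) (a (v (nat_lit 6) (a (v (nat_lit 9) (k (nat_lit 0x328f296))) (a (v (nat_lit 7) (k (nat_lit 0x99c18))) (v (nat_lit 6) (k (nat_lit 0x97740)))))) (a (v (nat_lit 5) (a (v (nat_lit 9) (k (nat_lit 0x98f28))) (v (nat_lit 8) (k (nat_lit 0x97bd8))))) (t (nat_lit 5) (nat_lit 8) (nat_lit 9) (v (nat_lit 5) (k (nat_lit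 0x690a290))))))) (a (a (u (nat_lit 4) (a (v (nat_lit 6) (k (nat_lit 0xaa466))) (a (t (nat_lit 5) (nat_lit 8) (nat_lit 9) (k (nat_lit 0x6acaff4))) (v (nat_lit 4) (k (nat_lit 0x5a402c)))))) (v (nat_lit 3) (v (nat_lit 7) (k (nat_lit 0x992a0))))) (a (u (nat_lit 3) (v (nat_lit 6) (k (nat_lit 0x22d5290)))) (a (v (nat_lit 2) (a (a (v (nat_lit 7) (k (nat_lit 0x96bb2))) (v (nat_lit 5) (k (nat_lit 0x9c0cc)))) (a (v (nat_lit 4) (k (nat_lit 0x9942c))) (v (nat_lit 2) (k (nat_lit 0x994aa)))))) (u (nat_lit 2) (v (nat_lit 2) (k (nat_lit 0x99aaa)))))))))) (a (v (nat_lit 1) (a (a (a (v (nat_lit 8) (u (nat_lit 9) (k (nat_lit 0xa7aa8)))) (a (u (nat_lit 8) (v (nat_lit 8) (k (nat_lit 0x993f0)))) (u (nat_lit 7) (a (v (nat_lit 9) (k (nat_lit 0x973a4))) (v (nat_lit 8) (k (nat_lit 0x99198))))))) (a (a (v (nat_lit 6) (a (u (nat_lit 9) (k (nat_lit 0x9aab8))) (a (u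 (nat_lit 8) (k (nat_lit 0x9920a))) (u (nat_lit 7) (k (nat_lit 0x99e6a)))))) (u (nat_lit 6) (v (nat_lit 6) (k (nat_lit 0x993b4))))) (a (v (nat_lit 5) (u (nat_lit 7) (k (nat_lit 0x68fb224)))) (u (nat_lit 5) (a (v (nat_lit 8) (k (nat_lit 0x9ae00))) (v (nat_lit 6) (k (nat_lit 0x996f0)))))))) (a (a (v (nat_lit 4) (u (nat_lit 9) (k (nat_lit 0x9c76e)))) (a (u (nat_lit 4) (a (a (v (nat_lit 9) (k (nat_lit 0x9bf94))) (a (v (nat_lit 8) (k (nat_lit 0x999c0))) (v (nat_lit 6) (k (nat_lit 0x99eb2))))) (a (v (nat_lit 5) (k (nat_lit 0x9a170))) (a (v (nat_lit 4) (k (nat_lit 0x9976e))) (u (nat_lit 4) (k (nat_lit 0x96ec4))))))) (v (nat_lit 3) (a (a (u (nat_lit 9) (k (nat_lit 0x9d260))) (u (nat_lit 7) (k (nat_lit 0x996d8)))) (a (u (nat_lit 5) (k (nat_lit 0x993b4))) (u (nat_lit 4) (k (nat_lit 0x99648)))))))) (a (a (u (nat_lit 3) (a (a (v (nat_lit 9) (k (nat_lit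 0x96c06))) (a (v (nat_lit 8) (k (nat_lit 0x39318f6))) (v (nat_lit 6) (k (nat_lit 0x997f8))))) (a (a (v (nat_lit 5) (k (nat_lit 0x9931e))) (t (nat_lit 5) (nat_lit 8) (nat_lit 9) (k (nat_lit 0x9f34e)))) (a (v (nat_lit 4) (k (nat_lit 0x994c8))) (v (nat_lit 3) (k (nat_lit 0x99270))))))) (v (nat_lit 2) (a (a (u (nat_lit 9) (k (nat_lit 0x9a4b980))) (a (u (nat_lit 8) (k (nat_lit 0x9abd8))) (u (nat_lit 7) (k (nat_lit 0x97c08))))) (a (a (u (nat_lit 6) (k (nat_lit 0x99744))) (u (nat_lit 5) (k (nat_lit 0x9abd8)))) (a (u (nat_lit 4) (k (nat_lit 0x99744))) (u (nat_lit 3) (k (nat_lit 0x97c08)))))))) (a (u (nat_lit 2) (a (v (nat_lit 8) (k (nat_lit 0x978a8))) (a (v (nat_lit 7) (k (nat_lit 0x9a8de))) (v (nat_lit 2) (k (nat_lit 0x992ca)))))) (v (nat_lit 1) (a (a (u (nat_lit 9) (k (nat_lit 0x9a2ae))) (a (u (nat_lit 8) (k (nat_lit 0x97a94))) (u (nat_lit 6)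 (k (nat_lit 0x98fe8))))) (a (u (nat_lit 5) (k (nat_lit 0x99030))) (a (u (nat_lit 4) (k (nat_lit 0x991c8))) (u (nat_lit 3) (k (nat_lit 0x9b772)))))))))))) (a (u (nat_lit 1) (a (a (a (v (nat_lit 9) (v (nat_lit 9) (k (nat_lit 0x99018)))) (v (nat_lit 8) (v (nat_lit 9) (k (nat_lit 0x98f28))))) (a (u (nat_lit 6) (v (nat_lit 6) (k (nat_lit 0x5a402c)))) (a (v (nat_lit 5) (a (v (nat_lit 9) (k (nat_lit 0x98dfc))) (a (v (nat_lit 8) (k (nat_lit 0x97bd8))) (v (nat_lit 5) (k (nat_lit 0x98f28)))))) (t (nat_lit 5) (nat_lit 8) (nat_lit 9) (a (v (nat_lit 8) (k (nat_lit 0x690a290))) (u (nat_lit 6) (k (nat_lit 0x6acaff4)))))))) (a (a (v (nat_lit 4) (a (a (v (nat_lit 9) (k (nat_lit 0x328f296))) (u (nat_lit 7) (k (nat_lit 0x22d5290)))) (a (u (nat_lit 6) (k (nat_lit 0xaa466))) (v (nat_lit 4) (k (nat_lit 0x97740)))))) (v (nat_lit 3) (a (v (nat_lit 7) (k (nat_lit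 0x992a0))) (v (nat_lit 4) (k (nat_lit 0x99c18)))))) (a (v (nat_lit 2) (a (v (nat_lit 5) (k (nat_lit 0x978a8))) (v (nat_lit 3) (k (nat_lit 0x9a8de))))) (a (v (nat_lit 1) (a (a (v (nat_lit 8) (k (nat_lit 0x9c0cc))) (v (nat_lit 6) (k (nat_lit 0x9942c)))) (a (v (nat_lit 3) (k (nat_lit 0x96bb2))) (a (v (nat_lit 2) (k (nat_lit 0x992ca))) (v (nat_lit 1) (k (nat_lit 0x994aa))))))) (u (nat_lit 1) (v (nat_lit 1) (k (nat_lit 0x99aaa))))))))) (v (nat_lit 0) (a (a (a (a (u (nat_lit 9) (a (v (nat_lit 9) (k (nat_lit 0x12fff0))) (u (nat_lit 9) (k (nat_lit 0x12fff0))))) (v (nat_lit 8) (u (nat_lit 9) (k (nat_lit 0x99c36))))) (a (u (nat_lit 8) (a (v (nat_lit 9) (k (nat_lit 0x98232))) (v (nat_lit 8) (k (nat_lit 0x98e38))))) (u (nat_lit 7) (a (v (nat_lit 9) (k (nat_lit 0x98df0))) (a (v (nat_lit 8) (k (nat_lit 0x98e50))) (v (nat_lit 7) (k (nat_lit 0x98f4c))))))))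 (a (a (v (nat_lit 6) (a (u (nat_lit 9) (k (nat_lit 0x6ef4744))) (a (u (nat_lit 8) (k (nat_lit 0x9ba5a))) (u (nat_lit 7) (k (nat_lit 0x703a29e)))))) (u (nat_lit 6) (a (v (nat_lit 8) (k (nat_lit 0x98b1a))) (v (nat_lit 6) (k (nat_lit 0x99954)))))) (a (v (nat_lit 5) (a (u (nat_lit 9) (k (nat_lit 0x99c36))) (a (u (nat_lit 8) (k (nat_lit 0x97d34))) (u (nat_lit 7) (k (nat_lit 0x98ef8)))))) (a (u (nat_lit 5) (a (a (v (nat_lit 9) (k (nat_lit 0x98232))) (v (nat_lit 8) (k (nat_lit 0x97d34)))) (a (v (nat_lit 6) (k (nat_lit 0x99384))) (v (nat_lit 5) (k (nat_lit 0x98e38)))))) (t (nat_lit 5) (nat_lit 8) (nat_lit 9) (u (nat_lit 9) (k (nat_lit 0x132594)))))))) (a (a (a (v (nat_lit 4) (a (a (u (nat_lit 9) (k (nat_lit 0x6ef4744))) (u (nat_lit 8) (k (nat_lit 0x99384)))) (a (u (nat_lit 7) (k (nat_lit 0x9a578))) (u (nat_lit 5) (k (nat_lit 0x9ba5a)))))) (u (nat_lit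 4) (a (v (nat_lit 7) (k (nat_lit 0x995ac))) (a (v (nat_lit 5) (k (nat_lit 0x98b1a))) (v (nat_lit 4) (k (nat_lit 0x99954))))))) (a (v (nat_lit 3) (u (nat_lit 6) (k (nat_lit 0x995ac)))) (u (nat_lit 3) (a (a (v (nat_lit 9) (k (nat_lit 0x98df0))) (a (v (nat_lit 8) (k (nat_lit 0x98ef8))) (v (nat_lit 6) (k (nat_lit 0x9a578))))) (a (v (nat_lit 5) (k (nat_lit 0x98e50))) (a (v (nat_lit 4) (k (nat_lit 0x703a29e))) (v (nat_lit 3) (k (nat_lit 0x98f4c))))))))) (a (a (v (nat_lit 2) (u (nat_lit 9) (k (nat_lit 0x2ad74e4)))) (u (nat_lit 2) (a (a (v (nat_lit 9) (k (nat_lit 0x98efe))) (v (nat_lit 8) (k (nat_lit 0x98df6)))) (a (v (nat_lit 5) (k (nat_lit 0x99e70))) (a (t (nat_lit 5) (nat_lit 8) (nat_lit 9) (k (nat_lit 0x99162))) (v (nat_lit 2) (k (nat_lit 0x9a2c6)))))))) (a (v (nat_lit 1) (u (nat_lit 9) (k (nat_lit 0x2ad74e4)))) (a (u (nat_lit 1) (a (a (v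 (nat_lit 9) (k (nat_lit 0x98efe))) (v (nat_lit 8) (k (nat_lit 0x99e70)))) (a (v (nat_lit 5) (k (nat_lit 0x98df6))) (a (t (nat_lit 5) (nat_lit 8) (nat_lit 9) (k (nat_lit 0x99162))) (v (nat_lit 1) (k (nat_lit 0x9a2c6))))))) (v (nat_lit 0) (a (u (nat_lit 2) (k (nat_lit 0x98cbe))) (u (nat_lit 1) (k (nat_lit 0x98cbe))))))))))))))))) (u (nat_lit 0) (a (a (a (a (v (nat_lit 7) (u (nat_lit 8) (u (nat_lit 8) (k (nat_lit 0x96fd8))))) (u (nat_lit 7) (v (nat_lit 9) (v (nat_lit 9) (k (nat_lit 0x98f58)))))) (a (v (nat_lit 6) (v (nat_lit 6) (u (nat_lit 9) (k (nat_lit 0x9902a))))) (u (nat_lit 6) (a (v (nat_lit 8) (v (nat_lit 8) (k (nat_lit 0x9712e)))) (a (v (nat_lit 7) (a (v (nat_lit 8) (k (nat_lit 0x94e36))) (v (nat_lit 7) (k (nat_lit 0x9949e))))) (v (nat_lit 6) (v (nat_lit 8) (k (nat_lit 0x98ca6))))))))) (a (a (v (nat_lit 5) (u (nat_lit 6) (a (a (v (nat_lit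 9) (k (nat_lit 0x9b5f2))) (v (nat_lit 8) (k (nat_lit 0x9a4b2)))) (a (v (nat_lit 7) (k (nat_lit 0x996c6))) (v (nat_lit 6) (k (nat_lit 0x9a116))))))) (u (nat_lit 5) (v (nat_lit 5) (u (nat_lit 7) (k (nat_lit 0x96cd2)))))) (a (t (nat_lit 5) (nat_lit 8) (nat_lit 9) (v (nat_lit 7) (v (nat_lit 7) (k (nat_lit 0x9942c))))) (v (nat_lit 4) (a (v (nat_lit 6) (v (nat_lit 8) (k (nat_lit 0x96a98)))) (a (v (nat_lit 5) (v (nat_lit 6) (k (nat_lit 0x96a98)))) (v (nat_lit 4) (u (nat_lit 9) (k (nat_lit 0x9902a)))))))))) (a (a (a (u (nat_lit 4) (a (v (nat_lit 8) (v (nat_lit 9) (k (nat_lit 0x9b5f2)))) (a (v (nat_lit 5) (a (v (nat_lit 8) (k (nat_lit 0x9a4b2))) (v (nat_lit 5) (k (nat_lit 0x9712e))))) (v (nat_lit 4) (a (v (nat_lit 8) (k (nat_lit 0x9a116))) (v (nat_lit 5) (k (nat_lit 0x98ca6)))))))) (v (nat_lit 3) (a (a (u (nat_lit 7) (v (nat_lit 9) (k (nat_lit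 0x98eb6)))) (v (nat_lit 6) (u (nat_lit 7) (k (nat_lit 0x98d7e))))) (a (u (nat_lit 5) (u (nat_lit 5) (k (nat_lit 0x96fd8)))) (a (u (nat_lit 4) (a (v (nat_lit 8) (k (nat_lit 0x996c6))) (v (nat_lit 5) (k (nat_lit 0x94e36))))) (v (nat_lit 3) (a (t (nat_lit 5) (nat_lit 8) (nat_lit 9) (k (nat_lit 0x9942c))) (u (nat_lit 4) (k (nat_lit 0x9949e)))))))))) (a (u (nat_lit 3) (a (a (v (nat_lit 9) (v (nat_lit 9) (k (nat_lit 0x98f58)))) (u (nat_lit 8) (v (nat_lit 8) (k (nat_lit 0x96cd2))))) (a (v (nat_lit 7) (v (nat_lit 9) (k (nat_lit 0x98eb6)))) (v (nat_lit 4) (v (nat_lit 7) (k (nat_lit 0x98d7e))))))) (v (nat_lit 2) (a (a (u (nat_lit 6) (a (v (nat_lit 8) (k (nat_lit 0x98f6a))) (a (u (nat_lit 8) (k (nat_lit 0x245c03a))) (v (nat_lit 7) (k (nat_lit 0x98df0)))))) (u (nat_lit 4) (u (nat_lit 5) (k (nat_lit 0x1f1baca))))) (a (v (nat_lit 3) (a (a (v (nat_lit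 6) (k (nat_lit 0x9a7ca))) (u (nat_lit 6) (k (nat_lit 0xc5219d6)))) (a (v (nat_lit 4) (k (nat_lit 0x9947a))) (v (nat_lit 3) (k (nat_lit 0x99870)))))) (a (u (nat_lit 3) (a (v (nat_lit 9) (k (nat_lit 0x984cc))) (u (nat_lit 6) (k (nat_lit 0x9783c))))) (v (nat_lit 2) (a (v (nat_lit 9) (k (nat_lit 0x241a46))) (v (nat_lit 3) (k (nat_lit 0x9b400))))))))))) (a (a (u (nat_lit 2) (a (u (nat_lit 6) (u (nat_lit 6) (k (nat_lit 0x98d1e)))) (v (nat_lit 2) (v (nat_lit 2) (k (nat_lit 0x99144)))))) (v (nat_lit 1) (a (a (a (v (nat_lit 7) (v (nat_lit 7) (k (nat_lit 0x99870)))) (u (nat_lit 7) (v (nat_lit 9) (k (nat_lit 0x984cc))))) (a (v (nat_lit 6) (v (nat_lit 7) (k (nat_lit 0x9947a)))) (u (nat_lit 6) (u (nat_lit 8) (k (nat_lit 0x1f1baca)))))) (a (a (v (nat_lit 4) (v (nat_lit 7) (k (nat_lit 0x9a7ca)))) (u (nat_lit 4) (a (a (v (nat_lit 7) (k (nat_lit 0xc5219d6)))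 (u (nat_lit 7) (k (nat_lit 0x9783c)))) (a (v (nat_lit 5) (k (nat_lit 0x98f6a))) (u (nat_lit 5) (k (nat_lit 0x245c03a))))))) (a (v (nat_lit 3) (u (nat_lit 4) (k (nat_lit 0x98df0)))) (a (v (nat_lit 2) (a (u (nat_lit 7) (k (nat_lit 0x9261156))) (a (u (nat_lit 3) (k (nat_lit 0x9261156))) (v (nat_lit 2) (k (nat_lit 0x99456)))))) (v (nat_lit 1) (a (v (nat_lit 9) (k (nat_lit 0x241a46))) (a (v (nat_lit 7) (k (nat_lit 0x9b400))) (v (nat_lit 2) (k (nat_lit 0x99456)))))))))))) (a (u (nat_lit 1) (a (u (nat_lit 4) (u (nat_lit 4) (k (nat_lit 0x98d1e)))) (v (nat_lit 1) (v (nat_lit 1) (k (nat_lit 0x99144)))))) (a (v (nat_lit 0) (a (a (a (v (nat_lit 6) (v (nat_lit 7) (k (nat_lit 0x993ae)))) (v (nat_lit 5) (v (nat_lit 8) (k (nat_lit 0x133fb0))))) (a (t (nat_lit 5) (nat_lit 8) (nat_lit 9) (a (v (nat_lit 9) (k (nat_lit 0x1344e4))) (a (u (nat_lit 7) (k (nat_lit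 0xa65e088))) (t (nat_lit 5) (nat_lit 8) (nat_lit 9) (k (nat_lit 0x131e38)))))) (a (v (nat_lit 4) (v (nat_lit 6) (k (nat_lit 0x1320a8)))) (v (nat_lit 3) (a (v (nat_lit 7) (k (nat_lit 0x131f88))) (v (nat_lit 4) (k (nat_lit 0x993ae)))))))) (a (a (u (nat_lit 3) (t (nat_lit 5) (nat_lit 8) (nat_lit 9) (k (nat_lit 0xa65e088)))) (a (v (nat_lit 2) (a (a (v (nat_lit 7) (k (nat_lit 0x99060))) (v (nat_lit 6) (k (nat_lit 0x9900c)))) (a (v (nat_lit 4) (k (nat_lit 0x99138))) (a (v (nat_lit 3) (k (nat_lit 0x98f10))) (v (nat_lit 2) (k (nat_lit 0x97ffe))))))) (u (nat_lit 2) (u (nat_lit 5) (k (nat_lit 0x97d0a)))))) (a (v (nat_lit 1) (a (a (v (nat_lit 7) (k (nat_lit 0x98f10))) (a (v (nat_lit 6) (k (nat_lit 0x99138))) (v (nat_lit 4) (k (nat_lit 0x9900c))))) (a (v (nat_lit 3) (k (nat_lit 0x99060))) (a (v (nat_lit 2) (k (nat_lit 0x132c18))) (v (nat_lit 1) (k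 (nat_lit 0x97ffe))))))) (a (u (nat_lit 1) (u (nat_lit 8) (k (nat_lit 0x97d0a)))) (v (nat_lit 0) (a (a (a (v (nat_lit 9) (k (nat_lit 0x13140c))) (v (nat_lit 8) (k (nat_lit 0x98874)))) (a (v (nat_lit 7) (k (nat_lit 0x98f70))) (a (v (nat_lit 6) (k (nat_lit 0x997d4))) (v (nat_lit 5) (k (nat_lit 0x98874)))))) (a (a (t (nat_lit 5) (nat_lit 8) (nat_lit 9) (k (nat_lit 0x132f54))) (a (v (nat_lit 4) (k (nat_lit 0x997d4))) (v (nat_lit 3) (k (nat_lit 0x98f70))))) (a (v (nat_lit 2) (k (nat_lit 0x99066))) (a (v (nat_lit 1) (k (nat_lit 0x99066))) (v (nat_lit 0) (k (nat_lit 0x131dc0))))))))))))) (u (nat_lit 0) (v (nat_lit 0) (a (v (nat_lit 2) (k (nat_lit 0x1c7154))) (v (nat_lit 1) (k (nat_lit 0x1c7154)))))))))))))))))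

open Fl.Tr in
/-- the table -/
noncomputable def T : Fl.Tr := (c (c (c (c (c (c (c (c (c (c (m (nat_lit 0x41338398)) (c (p (nat_lit 0x61b53568)) (c (m (nat_lit 0x3360e160)) (c (p (nat_lit 0x1780f7a0)) (c (m (nat_lit 0x41c2b90)) e))))) (c (c (p (nat_lit 0x71b5a3d4)) (c (m (nat_lit 0x560d4de8)) (c (p (nat_lit 0x187fdf58)) (c (m (nat_lit 0x3f491ac)) e)))) (c (c (m (nat_lit 0x45dc30b0)) (c (p (nat_lit 0x1d7e2668)) (c (m (nat_lit 0x263f0e8)) e))) (c (c (p (nat_lit 0x15b972ac)) (c (m (nat_lit 0x281fbb0)) e)) (c (c (m (nat_lit 0x98de4)) e) e))))) (c (c (c (p (nat_lit 0x1e2c8c5c)) (c (m (nat_lit 0x1f4495b8)) (c (p (nat_lit 0xb432130)) (c (m (nat_lit 0x38824d4)) e)))) (c (c (m (nat_lit 0x48cbe3c8)) (c (p (nat_lit 0x260b5360)) (c (m (nat_lit 0x4292988)) e))) (c (c (p (nat_lit 0x3af009f8)) (c (m (nat_lit 0xa587720)) e)) (c (c (m (nat_lit 0x103417c8))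 e) e)))) (c (c (c (m (nat_lit 0xce5d2f8)) (c (p (nat_lit 0xe68ec3c)) (c (m (nat_lit 0x132780)) e))) (c (c (p (nat_lit 0x122df9e4)) (c (m (nat_lit 0x4bd2660)) e)) (c (c (m (nat_lit 0x4b390cc)) e) e))) (c (c (c (p (nat_lit 0x42fc78)) (c (m (nat_lit 0x1cae2c)) e)) (c (c (m (nat_lit 0x1cae08)) e) e)) (c (c (c (m (nat_lit 0x98ef8)) e) e) e))))) (c (c (c (c (m (nat_lit 0x1fcb83dc)) (c (p (nat_lit 0x1faed31c)) (c (p (nat_lit 0x263e98)) (c (m (nat_lit 0x98e80)) e)))) (c (c (p (nat_lit 0x2c66aeb8)) (c (m (nat_lit 0xc6b5770)) (c (m (nat_lit 0x98e2c)) e))) (c (c (m (nat_lit 0xc7e7e60)) (c (m (nat_lit 0x98de4)) e)) (c (c (m (nat_lit 0x98ca0)) e) e)))) (c (c (c (p (nat_lit 0x4f2c)) (c (p (nat_lit 0x1cbb58)) (c (m (nat_lit 0x24)) e))) (c (c (p (nat_lit 0x1ccb90)) (c (m (nat_lit 0x98f70)) e)) (c (c (m (nat_lit 0x98dd8)) e) e))) (c (c (c (p (nat_lit 0x815aa50))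 (c (m (nat_lit 0x81f5910)) e)) (c (c (m (nat_lit 0x81f399c)) e) e)) (c (c (c (m (nat_lit 0x99bc4)) e) e) e)))) (c (c (c (c (p (nat_lit 0x11fff100)) (c (m (nat_lit 0x11bd0934)) (c (m (nat_lit 0x98f34)) e))) (c (c (m (nat_lit 0x1e6b5284)) (c (p (nat_lit 0xc9b2d7c)) e)) (c (c (p (nat_lit 0xc9b2d10)) e) e))) (c (c (c (p (nat_lit 0x31650c)) (c (m (nat_lit 0x99150)) e)) (c (c (m (nat_lit 0x9948c)) e) e)) (c (c (c (m (nat_lit 0x993c0)) e) e) e))) (c (c (c (c (p (nat_lit 0x17e1b9bc)) (c (m (nat_lit 0x66875ac)) e)) (c (c (m (nat_lit 0x2540af0)) e) e)) (c (c (c (m (nat_lit 0x9969c)) e) e) e)) (c (c (c (c (m (nat_lit 0x98dd8)) e) e) e) e))))) (c (c (c (c (c (p (nat_lit 0x71b5a3d4)) (c (m (nat_lit 0x560d4de8)) (c (p (nat_lit 0x187fdf58)) (c (m (nat_lit 0x3f491ac)) e)))) (c (c (m (nat_lit 0x60b7e8f8)) (c (p (nat_lit 0xaf80588)) (c (p (nat_lit 0x28fbd8))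 e))) (c (c (p (nat_lit 0x15c30834)) (c (m (nat_lit 0x281fc94)) e)) (c (c (m (nat_lit 0x98e5c)) e) e)))) (c (c (c (m (nat_lit 0x6e8a91c)) (c (p (nat_lit 0x60d1238)) (c (m (nat_lit 0x38824bc)) e))) (c (c (p (nat_lit 0x2b600a4)) (c (p (nat_lit 0x1166ff4)) e)) (c (c (p (nat_lit 0x97821c)) e) e))) (c (c (c (p (nat_lit 0xd459ab8)) (c (m (nat_lit 0x132804)) e)) (c (c (m (nat_lit 0x4b394f8)) e) e)) (c (c (c (m (nat_lit 0x2fc5bc)) e) e) e)))) (c (c (c (c (m (nat_lit 0x29235060)) (c (p (nat_lit 0x490208e8)) (c (m (nat_lit 0x98e20)) e))) (c (c (p (nat_lit 0x3c66d950)) (c (m (nat_lit 0x98ed4)) e)) (c (c (m (nat_lit 0x98d6c)) e) e))) (c (c (c (p (nat_lit 0x1c644)) (c (m (nat_lit 0x99138)) e)) (c (c (p (nat_lit 0x7c3c8)) e) e)) (c (c (c (m (nat_lit 0x81f34b0)) e) e) e))) (c (c (c (c (p (nat_lit 0x501eca0)) (c (m (nat_lit 0x16d21ad8)) e)) (c (c (m (nat_lit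 0xa2d5f00)) e) e)) (c (c (c (m (nat_lit 0x143568)) e) e) e)) (c (c (c (c (m (nat_lit 0x131748)) e) e) e) e)))) (c (c (c (c (c (m (nat_lit 0x45dc30b0)) (c (p (nat_lit 0x1d7e2668)) (c (m (nat_lit 0x263f0e8)) e))) (c (c (p (nat_lit 0x15c30834)) (c (m (nat_lit 0x281fc94)) e)) (c (c (m (nat_lit 0x131b50)) e) e))) (c (c (c (p (nat_lit 0x259d952c)) (c (m (nat_lit 0x2d9cf84)) e)) (c (c (m (nat_lit 0x850c7d0)) e) e)) (c (c (c (m (nat_lit 0x99084)) e) e) e))) (c (c (c (c (p (nat_lit 0x525bd378)) (c (m (nat_lit 0x959d630)) e)) (c (c (m (nat_lit 0x959d5dc)) e) e)) (c (c (c (m (nat_lit 0xbcf4d80)) e) e) e)) (c (c (c (c (m (nat_lit 0x16d21aa8)) e) e) e) e))) (c (c (c (c (c (p (nat_lit 0x15b972ac)) (c (m (nat_lit 0x281fbb0)) e)) (c (c (m (nat_lit 0x98e5c)) e) e)) (c (c (c (m (nat_lit 0x98688)) e) e) e)) (c (c (c (c (m (nat_lit 0x959cf70)) e) e) e) e))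 (c (c (c (c (c (m (nat_lit 0x98de4)) e) e) e) e) e))))) (c (c (c (c (c (c (m (nat_lit 0x1fcb83dc)) (c (p (nat_lit 0x1faed31c)) (c (p (nat_lit 0x263e98)) (c (m (nat_lit 0x98e80)) e)))) (c (c (m (nat_lit 0x29235060)) (c (p (nat_lit 0x490208e8)) (c (m (nat_lit 0x98e20)) e))) (c (c (p (nat_lit 0x525bd378)) (c (m (nat_lit 0x959d630)) e)) (c (c (m (nat_lit 0x959cf70)) e) e)))) (c (c (c (m (nat_lit 0x5ebc3c)) (c (p (nat_lit 0x84dc98)) (c (m (nat_lit 0x99294)) e))) (c (c (p (nat_lit 0x11d6c8ac)) (c (m (nat_lit 0x1151a99c)) e)) (c (c (m (nat_lit 0x115b6090)) e) e))) (c (c (c (m (nat_lit 0x2a60)) (c (m (nat_lit 0x1364040)) e)) (c (c (m (nat_lit 0x649074)) e) e)) (c (c (c (m (nat_lit 0x99648)) e) e) e)))) (c (c (c (c (p (nat_lit 0x2ad96ba98)) (c (m (nat_lit 0x5d89c610)) (c (m (nat_lit 0x397ea8)) e))) (c (c (m (nat_lit 0xa2ffd854)) (c (m (nat_lit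 0x5febb40)) e)) (c (c (m (nat_lit 0x5eb91b0)) e) e))) (c (c (c (p (nat_lit 0x25a1fc)) (c (m (nat_lit 0x994b0)) e)) (c (c (m (nat_lit 0x131eb0)) e) e)) (c (c (c (m (nat_lit 0x997c8)) e) e) e))) (c (c (c (c (m (nat_lit 0x1b0b08494)) (c (p (nat_lit 0x175da408)) e)) (c (c (p (nat_lit 0x1770daac)) e) e)) (c (c (c (m (nat_lit 0xbb8)) e) e) e)) (c (c (c (c (p (nat_lit 0xc18)) e) e) e) e)))) (c (c (c (c (c (p (nat_lit 0x2c66aeb8)) (c (m (nat_lit 0xc6b5770)) (c (m (nat_lit 0x98e2c)) e))) (c (c (p (nat_lit 0x3c66d950)) (c (m (nat_lit 0x98ed4)) e)) (c (c (m (nat_lit 0x959d5dc)) e) e))) (c (c (c (p (nat_lit 0x7b4884)) (c (m (nat_lit 0x991ec)) e)) (c (c (m (nat_lit 0x1151a708)) e) e)) (c (c (c (m (nat_lit 0x9981c)) e) e) e))) (c (c (c (c (m (nat_lit 0xa2ffd854)) (c (m (nat_lit 0x5febb40)) e)) (c (c (m (nat_lit 0xbc3e548)) e) e)) (c (c (c (m (nat_lit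 0x98fc4)) e) e) e)) (c (c (c (c (p (nat_lit 0x628f3a7c)) e) e) e) e))) (c (c (c (c (c (m (nat_lit 0xc7e7e60)) (c (m (nat_lit 0x98de4)) e)) (c (c (m (nat_lit 0x98d6c)) e) e)) (c (c (c (m (nat_lit 0x7571b44)) e) e) e)) (c (c (c (c (m (nat_lit 0x5eb91b0)) e) e) e) e)) (c (c (c (c (c (m (nat_lit 0x98ca0)) e) e) e) e) e)))) (c (c (c (c (c (c (p (nat_lit 0x11fff100)) (c (m (nat_lit 0x11bd0934)) (c (m (nat_lit 0x98f34)) e))) (c (c (p (nat_lit 0x501eca0)) (c (m (nat_lit 0x16d21ad8)) e)) (c (c (m (nat_lit 0x16d21aa8)) e) e))) (c (c (c (p (nat_lit 0x560f94)) (c (m (nat_lit 0x98fd0)) e)) (c (c (m (nat_lit 0x98ff4)) e) e)) (c (c (c (m (nat_lit 0x99114)) e) e) e))) (c (c (c (c (m (nat_lit 0x1b0b08494)) (c (p (nat_lit 0x175da408)) e)) (c (c (p (nat_lit 0x628f3a7c)) e) e)) (c (c (c (p (nat_lit 0x5a90)) e) e) e)) (c (c (c (c (p (nat_lit 0xe2d25780)) e)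 e) e) e))) (c (c (c (c (c (m (nat_lit 0x1e6b5284)) (c (p (nat_lit 0xc9b2d7c)) e)) (c (c (m (nat_lit 0xa2d5f00)) e) e)) (c (c (c (m (nat_lit 0x98f34)) e) e) e)) (c (c (c (c (p (nat_lit 0x1770daac)) e) e) e) e)) (c (c (c (c (c (p (nat_lit 0xc9b2d10)) e) e) e) e) e))) (c (c (c (c (c (c (p (nat_lit 0x17e1b9bc)) (c (m (nat_lit 0x66875ac)) e)) (c (c (m (nat_lit 0x131748)) e) e)) (c (c (c (m (nat_lit 0xf120a5c)) e) e) e)) (c (c (c (c (p (nat_lit 0xc18)) e) e) e) e)) (c (c (c (c (c (m (nat_lit 0x2540af0)) e) e) e) e) e)) (c (c (c (c (c (c (m (nat_lit 0x98dd8)) e) e) e) e) e) e))))) (c (c (c (c (c (c (c (p (nat_lit 0x1e2c8c5c)) (c (m (nat_lit 0x1f4495b8)) (c (p (nat_lit 0xb432130)) (c (m (nat_lit 0x38824d4)) e)))) (c (c (m (nat_lit 0x6e8a91c)) (c (p (nat_lit 0x60d1238)) (c (m (nat_lit 0x38824bc)) e))) (c (c (p (nat_lit 0x259d952c)) (c (m (nat_lit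 0x2d9cf84)) e)) (c (c (m (nat_lit 0x98688)) e) e)))) (c (c (c (p (nat_lit 0x132eb8)) (c (p (nat_lit 0x264738)) (c (m (nat_lit 0x132108)) e))) (c (c (m (nat_lit 0x446268c)) (c (m (nat_lit 0x1324c8)) e)) (c (c (m (nat_lit 0x7562844)) e) e))) (c (c (c (p (nat_lit 0x2baf634)) (c (m (nat_lit 0x13371c)) e)) (c (c (m (nat_lit 0x133410)) e) e)) (c (c (c (m (nat_lit 0x98d30)) e) e) e)))) (c (c (c (c (m (nat_lit 0x5ebc3c)) (c (p (nat_lit 0x84dc98)) (c (m (nat_lit 0x99294)) e))) (c (c (p (nat_lit 0x7b4884)) (c (m (nat_lit 0x991ec)) e)) (c (c (m (nat_lit 0x7571b44)) e) e))) (c (c (c (p (nat_lit 0x4cb414)) (c (m (nat_lit 0x265218)) e)) (c (c (m (nat_lit 0x2ff37c)) e) e)) (c (c (c (m (nat_lit 0x1326e4)) e) e) e))) (c (c (c (c (p (nat_lit 0x560f94)) (c (m (nat_lit 0x98fd0)) e)) (c (c (m (nat_lit 0x98f34)) e) e)) (c (c (c (m (nat_lit 0x1d2e0c)) e) e)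 e)) (c (c (c (c (m (nat_lit 0xf120a5c)) e) e) e) e)))) (c (c (c (c (c (m (nat_lit 0x48cbe3c8)) (c (p (nat_lit 0x260b5360)) (c (m (nat_lit 0x4292988)) e))) (c (c (p (nat_lit 0x2b600a4)) (c (p (nat_lit 0x1166ff4)) e)) (c (c (m (nat_lit 0x850c7d0)) e) e))) (c (c (c (m (nat_lit 0x446268c)) (c (m (nat_lit 0x1324c8)) e)) (c (c (p (nat_lit 0x9122c10)) e) e)) (c (c (c (m (nat_lit 0x1333b0)) e) e) e))) (c (c (c (c (p (nat_lit 0x11d6c8ac)) (c (m (nat_lit 0x1151a99c)) e)) (c (c (m (nat_lit 0x1151a708)) e) e)) (c (c (c (m (nat_lit 0x265350)) e) e) e)) (c (c (c (c (m (nat_lit 0x98ff4)) e) e) e) e))) (c (c (c (c (c (p (nat_lit 0x3af009f8)) (c (m (nat_lit 0xa587720)) e)) (c (c (p (nat_lit 0x97821c)) e) e)) (c (c (c (m (nat_lit 0x7562844)) e) e) e)) (c (c (c (c (m (nat_lit 0x115b6090)) e) e) e) e)) (c (c (c (c (c (m (nat_lit 0x103417c8)) e) e) e) e) e))))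 (c (c (c (c (c (c (p (nat_lit 0x4f2c)) (c (p (nat_lit 0x1cbb58)) (c (m (nat_lit 0x24)) e))) (c (c (p (nat_lit 0x1c644)) (c (m (nat_lit 0x99138)) e)) (c (c (m (nat_lit 0xbcf4d80)) e) e))) (c (c (c (p (nat_lit 0x4cb414)) (c (m (nat_lit 0x265218)) e)) (c (c (m (nat_lit 0x265350)) e) e)) (c (c (c (m (nat_lit 0x29e33e0)) e) e) e))) (c (c (c (c (p (nat_lit 0x25a1fc)) (c (m (nat_lit 0x994b0)) e)) (c (c (m (nat_lit 0x98fc4)) e) e)) (c (c (c (m (nat_lit 0x133548)) e) e) e)) (c (c (c (c (p (nat_lit 0x5a90)) e) e) e) e))) (c (c (c (c (c (p (nat_lit 0x1ccb90)) (c (m (nat_lit 0x98f70)) e)) (c (c (p (nat_lit 0x7c3c8)) e) e)) (c (c (c (m (nat_lit 0x2ff37c)) e) e) e)) (c (c (c (c (m (nat_lit 0x131eb0)) e) e) e) e)) (c (c (c (c (c (m (nat_lit 0x98dd8)) e) e) e) e) e))) (c (c (c (c (c (c (p (nat_lit 0x31650c)) (c (m (nat_lit 0x99150)) e)) (c (c (m (nat_lit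 0x143568)) e) e)) (c (c (c (m (nat_lit 0x1d2e0c)) e) e) e)) (c (c (c (c (m (nat_lit 0xbb8)) e) e) e) e)) (c (c (c (c (c (m (nat_lit 0x9948c)) e) e) e) e) e)) (c (c (c (c (c (c (m (nat_lit 0x9969c)) e) e) e) e) e) e)))) (c (c (c (c (c (c (c (m (nat_lit 0xce5d2f8)) (c (p (nat_lit 0xe68ec3c)) (c (m (nat_lit 0x132780)) e))) (c (c (p (nat_lit 0xd459ab8)) (c (m (nat_lit 0x132804)) e)) (c (c (m (nat_lit 0x99084)) e) e))) (c (c (c (p (nat_lit 0x2baf634)) (c (m (nat_lit 0x13371c)) e)) (c (c (m (nat_lit 0x1333b0)) e) e)) (c (c (c (m (nat_lit 0x132618)) e) e) e))) (c (c (c (c (m (nat_lit 0x2a60)) (c (m (nat_lit 0x1364040)) e)) (c (c (m (nat_lit 0x9981c)) e) e)) (c (c (c (m (nat_lit 0x29e33e0)) e) e) e)) (c (c (c (c (m (nat_lit 0x99114)) e) e) e) e))) (c (c (c (c (c (p (nat_lit 0x122df9e4)) (c (m (nat_lit 0x4bd2660)) e)) (c (c (m (nat_lit 0x4b394f8))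 e) e)) (c (c (c (m (nat_lit 0x133410)) e) e) e)) (c (c (c (c (m (nat_lit 0x649074)) e) e) e) e)) (c (c (c (c (c (m (nat_lit 0x4b390cc)) e) e) e) e) e))) (c (c (c (c (c (c (p (nat_lit 0x815aa50)) (c (m (nat_lit 0x81f5910)) e)) (c (c (m (nat_lit 0x81f34b0)) e) e)) (c (c (c (m (nat_lit 0x1326e4)) e) e) e)) (c (c (c (c (m (nat_lit 0x997c8)) e) e) e) e)) (c (c (c (c (c (m (nat_lit 0x81f399c)) e) e) e) e) e)) (c (c (c (c (c (c (m (nat_lit 0x993c0)) e) e) e) e) e) e))) (c (c (c (c (c (c (c (p (nat_lit 0x42fc78)) (c (m (nat_lit 0x1cae2c)) e)) (c (c (m (nat_lit 0x2fc5bc)) e) e)) (c (c (c (m (nat_lit 0x98d30)) e) e) e)) (c (c (c (c (m (nat_lit 0x99648)) e) e) e) e)) (c (c (c (c (c (m (nat_lit 0x1cae08)) e) e) e) e) e)) (c (c (c (c (c (c (m (nat_lit 0x99bc4)) e) e) e) e) e) e)) (c (c (c (c (c (c (c (m (nat_lit 0x98ef8)) e) e) e) e) e) e) e))))) (c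 (c (c (c (c (c (c (c (p (nat_lit 0xa73bef30)) (c (m (nat_lit 0xf029478)) (c (p (nat_lit 0x7056000)) (c (p (nat_lit 0x693d38)) e)))) (c (c (m (nat_lit 0x520cc20c)) (c (p (nat_lit 0xfc20d18)) (c (m (nat_lit 0x1cb570)) e))) (c (c (p (nat_lit 0xb15e8cc)) (c (m (nat_lit 0xa02ccc)) e)) (c (c (m (nat_lit 0x131dc0)) e) e)))) (c (c (c (m (nat_lit 0x16449894)) (c (p (nat_lit 0x2671e0)) (c (m (nat_lit 0x99060)) e))) (c (c (p (nat_lit 0x2fe1d0)) (c (m (nat_lit 0x992e8)) e)) (c (c (m (nat_lit 0x1324f8)) e) e))) (c (c (c (p (nat_lit 0x1ca358)) (c (m (nat_lit 0x9bb5c)) e)) (c (c (m (nat_lit 0x1328f4)) e) e)) (c (c (c (m (nat_lit 0x99048)) e) e) e)))) (c (c (c (c (m (nat_lit 0x8247d8b4)) (c (p (nat_lit 0x10edb9a8)) (c (m (nat_lit 0x6ce13d8)) e))) (c (c (p (nat_lit 0x4e50ab40)) (c (m (nat_lit 0xd7ebec4)) e)) (c (c (m (nat_lit 0x94f5300)) e) e))) (c (c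 (c (p (nat_lit 0x19b3a008)) (c (m (nat_lit 0x35bd22c)) e)) (c (c (m (nat_lit 0x35bd0e8)) e) e)) (c (c (c (m (nat_lit 0x998ac)) e) e) e))) (c (c (c (c (p (nat_lit 0x329d2fac)) (c (m (nat_lit 0x1cb984)) e)) (c (c (m (nat_lit 0x174aa274)) e) e)) (c (c (c (m (nat_lit 0x99570)) e) e) e)) (c (c (c (c (m (nat_lit 0x15bf4f78)) e) e) e) e)))) (c (c (c (c (c (m (nat_lit 0x66c74754)) (c (p (nat_lit 0xfa564a4)) (c (m (nat_lit 0x9939c)) e))) (c (c (p (nat_lit 0x142b4e00)) (c (m (nat_lit 0x131ed4)) e)) (c (c (m (nat_lit 0x991d4)) e) e))) (c (c (c (p (nat_lit 0x42da784)) (c (m (nat_lit 0x1cb75c)) e)) (c (c (m (nat_lit 0x1cb594)) e) e)) (c (c (c (m (nat_lit 0x992ac)) e) e) e))) (c (c (c (c (p (nat_lit 0x488baec8)) (c (m (nat_lit 0x122874f0)) e)) (c (c (m (nat_lit 0x122874c0)) e) e)) (c (c (c (m (nat_lit 0x7599df8)) e) e) e)) (c (c (c (c (p (nat_lit 0x354))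 e) e) e) e))) (c (c (c (c (c (p (nat_lit 0x23564250)) (c (m (nat_lit 0x991e0)) e)) (c (c (p (nat_lit 0x308d06c)) e) e)) (c (c (c (m (nat_lit 0x1320fc)) e) e) e)) (c (c (c (c (m (nat_lit 0x1bef2404)) e) e) e) e)) (c (c (c (c (c (m (nat_lit 0x4acbb00)) e) e) e) e) e)))) (c (c (c (c (c (c (m (nat_lit 0x1f826d0)) (c (m (nat_lit 0x3dfe2dc)) (c (m (nat_lit 0xb41a1c)) e))) (c (c (p (nat_lit 0x1c218b7c)) (c (m (nat_lit 0x51098e8)) e)) (c (c (m (nat_lit 0x46f9e54)) e) e))) (c (c (c (p (nat_lit 0x1cba14)) (c (m (nat_lit 0x132210)) e)) (c (c (m (nat_lit 0x132318)) e) e)) (c (c (c (m (nat_lit 0x98f34)) e) e) e))) (c (c (c (c (m (nat_lit 0x9c3cf414)) (c (m (nat_lit 0x1321ec)) e)) (c (c (m (nat_lit 0x135c3c)) e) e)) (c (c (c (m (nat_lit 0x99114)) e) e) e)) (c (c (c (c (p (nat_lit 0x6b45a5e8)) e) e) e) e))) (c (c (c (c (c (p (nat_lit 0xdb30d5c)) (c (m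 (nat_lit 0x14b7ed4)) e)) (c (c (m (nat_lit 0xca91778)) e) e)) (c (c (c (m (nat_lit 0x132210)) e) e) e)) (c (c (c (c (m (nat_lit 0x1336d4)) e) e) e) e)) (c (c (c (c (c (m (nat_lit 0xaa85b4)) e) e) e) e) e))) (c (c (c (c (c (c (m (nat_lit 0x327842d0)) (c (p (nat_lit 0x534f93c)) e)) (c (c (p (nat_lit 0x53e8c78)) e) e)) (c (c (c (m (nat_lit 0x98eec)) e) e) e)) (c (c (c (c (p (nat_lit 0x30f79740)) e) e) e) e)) (c (c (c (c (c (p (nat_lit 0x16d1b94)) e) e) e) e) e)) (c (c (c (c (c (c (m (nat_lit 0x99930)) e) e) e) e) e) e)))) (c (c (c (c (c (c (c (m (nat_lit 0x34d06430)) (c (m (nat_lit 0x449d558)) (c (p (nat_lit 0x2168d0c)) e))) (c (c (p (nat_lit 0x159b62bc)) (c (m (nat_lit 0xe49a50)) e)) (c (c (m (nat_lit 0x7bdff8)) e) e))) (c (c (c (m (nat_lit 0xc48)) (c (m (nat_lit 0x99108)) e)) (c (c (m (nat_lit 0x98da8)) e) e)) (c (c (c (p (nat_lit 0x11d0))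 e) e) e))) (c (c (c (c (m (nat_lit 0xc223df4)) (c (m (nat_lit 0x1324c8)) e)) (c (c (m (nat_lit 0x13254c)) e) e)) (c (c (c (m (nat_lit 0x1cbe28)) e) e) e)) (c (c (c (c (m (nat_lit 0x1cb8c4)) e) e) e) e))) (c (c (c (c (c (p (nat_lit 0xcb902f8)) (c (m (nat_lit 0xdb1e6c)) e)) (c (c (m (nat_lit 0xe497b0)) e) e)) (c (c (c (m (nat_lit 0x1321e0)) e) e) e)) (c (c (c (c (m (nat_lit 0x132678)) e) e) e) e)) (c (c (c (c (c (m (nat_lit 0x7bdaa0)) e) e) e) e) e))) (c (c (c (c (c (c (p (nat_lit 0x3edbfbbc)) (c (m (nat_lit 0x1328d0)) e)) (c (c (m (nat_lit 0x14c05740)) e) e)) (c (c (c (m (nat_lit 0x1328ac)) e) e) e)) (c (c (c (c (m (nat_lit 0x71b3f20)) e) e) e) e)) (c (c (c (c (c (m (nat_lit 0x78d02c)) e) e) e) e) e)) (c (c (c (c (c (c (m (nat_lit 0x1326f0)) e) e) e) e) e) e))) (c (c (c (c (c (c (c (p (nat_lit 0x11b702e0)) (c (m (nat_lit 0x1cbbb8)) e))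 (c (c (m (nat_lit 0x1cb9fc)) e) e)) (c (c (c (m (nat_lit 0x132660)) e) e) e)) (c (c (c (c (m (nat_lit 0x9d5fc)) e) e) e) e)) (c (c (c (c (c (m (nat_lit 0x1cb768)) e) e) e) e) e)) (c (c (c (c (c (c (m (nat_lit 0x116a1830)) e) e) e) e) e) e)) (c (c (c (c (c (c (c (m (nat_lit 0x131fd0)) e) e) e) e) e) e) e)))) (c (c (c (c (c (c (c (c (m (nat_lit 0x13c391e8)) (c (p (nat_lit 0x3bfdbc4)) (c (m (nat_lit 0x1330d4)) e))) (c (c (p (nat_lit 0xb1632f4)) (c (m (nat_lit 0x99234)) e)) (c (c (m (nat_lit 0x992e8)) e) e))) (c (c (c (p (nat_lit 0x15ebd49c)) (c (m (nat_lit 0x3888e28)) e)) (c (c (m (nat_lit 0x37eb034)) e) e)) (c (c (c (m (nat_lit 0x1324e0)) e) e) e))) (c (c (c (c (p (nat_lit 0x28020a5c)) (c (m (nat_lit 0x99654)) e)) (c (c (m (nat_lit 0x7a12ef8)) e) e)) (c (c (c (m (nat_lit 0x12638fc4)) e) e) e)) (c (c (c (c (m (nat_lit 0x98ff4)) e) e) e) e)))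 (c (c (c (c (c (p (nat_lit 0x1d2de824)) (c (m (nat_lit 0x9957c)) e)) (c (c (m (nat_lit 0x992d0)) e) e)) (c (c (c (m (nat_lit 0x37eb01c)) e) e) e)) (c (c (c (c (m (nat_lit 0xe23a628)) e) e) e) e)) (c (c (c (c (c (m (nat_lit 0x133020)) e) e) e) e) e))) (c (c (c (c (c (c (m (nat_lit 0x46153494)) (c (m (nat_lit 0x993d8)) e)) (c (c (m (nat_lit 0x98f4c)) e) e)) (c (c (c (m (nat_lit 0x99120)) e) e) e)) (c (c (c (c (p (nat_lit 0xb4)) e) e) e) e)) (c (c (c (c (c (m (nat_lit 0x133b00)) e) e) e) e) e)) (c (c (c (c (c (c (p (nat_lit 0x230fa738)) e) e) e) e) e) e))) (c (c (c (c (c (c (c (p (nat_lit 0x108a7124)) (c (m (nat_lit 0x132330)) e)) (c (c (m (nat_lit 0x132870)) e) e)) (c (c (c (m (nat_lit 0x9af74)) e) e) e)) (c (c (c (c (m (nat_lit 0x1cba14)) e) e) e) e)) (c (c (c (c (c (m (nat_lit 0xb81dc9c)) e) e) e) e) e)) (c (c (c (c (c (c (m (nat_lit 0x1deb90))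 e) e) e) e) e) e)) (c (c (c (c (c (c (c (m (nat_lit 0x132468)) e) e) e) e) e) e) e))) (c (c (c (c (c (c (c (c (p (nat_lit 0x26ab94)) (c (m (nat_lit 0x9ab90)) e)) (c (c (p (nat_lit 0x18f0)) e) e)) (c (c (c (m (nat_lit 0x98f04)) e) e) e)) (c (c (c (c (p (nat_lit 0x1b9c)) e) e) e) e)) (c (c (c (c (c (m (nat_lit 0x138bd0)) e) e) e) e) e)) (c (c (c (c (c (c (m (nat_lit 0x98f40)) e) e) e) e) e) e)) (c (c (c (c (c (c (c (m (nat_lit 0x4e0db3c)) e) e) e) e) e) e) e)) (c (c (c (c (c (c (c (c (m (nat_lit 0x1698)) e) e) e) e) e) e) e) e))))) (c (c (c (c (c (c (c (c (c (p (nat_lit 0xa73bef30)) (c (m (nat_lit 0xf029478)) (c (p (nat_lit 0x7056000)) (c (p (nat_lit 0x693d38)) e)))) (c (c (m (nat_lit 0x66c74754)) (c (p (nat_lit 0xfa564a4)) (c (m (nat_lit 0x9939c)) e))) (c (c (p (nat_lit 0x23564250)) (c (m (nat_lit 0x991e0)) e)) (c (c (m (nat_lit 0x4acbb00))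 e) e)))) (c (c (c (m (nat_lit 0x34d06430)) (c (m (nat_lit 0x449d558)) (c (p (nat_lit 0x2168d0c)) e))) (c (c (p (nat_lit 0xcb902f8)) (c (m (nat_lit 0xdb1e6c)) e)) (c (c (m (nat_lit 0x7bdaa0)) e) e))) (c (c (c (p (nat_lit 0x11b702e0)) (c (m (nat_lit 0x1cbbb8)) e)) (c (c (m (nat_lit 0x1cb768)) e) e)) (c (c (c (m (nat_lit 0x131fd0)) e) e) e)))) (c (c (c (c (m (nat_lit 0x1f826d0)) (c (m (nat_lit 0x3dfe2dc)) (c (m (nat_lit 0xb41a1c)) e))) (c (c (p (nat_lit 0xdb30d5c)) (c (m (nat_lit 0x14b7ed4)) e)) (c (c (m (nat_lit 0xaa85b4)) e) e))) (c (c (c (p (nat_lit 0x3edbfbbc)) (c (m (nat_lit 0x1328d0)) e)) (c (c (m (nat_lit 0x78d02c)) e) e)) (c (c (c (m (nat_lit 0x116a1830)) e) e) e))) (c (c (c (c (m (nat_lit 0x327842d0)) (c (p (nat_lit 0x534f93c)) e)) (c (c (p (nat_lit 0x16d1b94)) e) e)) (c (c (c (m (nat_lit 0x1326f0)) e) e) e)) (c (c (c (c (m (nat_lit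 0x99930)) e) e) e) e)))) (c (c (c (c (c (m (nat_lit 0x520cc20c)) (c (p (nat_lit 0xfc20d18)) (c (m (nat_lit 0x1cb570)) e))) (c (c (p (nat_lit 0x142b4e00)) (c (m (nat_lit 0x131ed4)) e)) (c (c (p (nat_lit 0x308d06c)) e) e))) (c (c (c (p (nat_lit 0x159b62bc)) (c (m (nat_lit 0xe49a50)) e)) (c (c (m (nat_lit 0xe497b0)) e) e)) (c (c (c (m (nat_lit 0x1cb9fc)) e) e) e))) (c (c (c (c (p (nat_lit 0x1c218b7c)) (c (m (nat_lit 0x51098e8)) e)) (c (c (m (nat_lit 0xca91778)) e) e)) (c (c (c (m (nat_lit 0x14c05740)) e) e) e)) (c (c (c (c (p (nat_lit 0x53e8c78)) e) e) e) e))) (c (c (c (c (c (p (nat_lit 0xb15e8cc)) (c (m (nat_lit 0xa02ccc)) e)) (c (c (m (nat_lit 0x991d4)) e) e)) (c (c (c (m (nat_lit 0x7bdff8)) e) e) e)) (c (c (c (c (m (nat_lit 0x46f9e54)) e) e) e) e)) (c (c (c (c (c (m (nat_lit 0x131dc0)) e) e) e) e) e)))) (c (c (c (c (c (c (m (nat_lit 0x8247d8b4))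 (c (p (nat_lit 0x10edb9a8)) (c (m (nat_lit 0x6ce13d8)) e))) (c (c (p (nat_lit 0x488baec8)) (c (m (nat_lit 0x122874f0)) e)) (c (c (m (nat_lit 0x1bef2404)) e) e))) (c (c (c (m (nat_lit 0xc223df4)) (c (m (nat_lit 0x1324c8)) e)) (c (c (m (nat_lit 0x132678)) e) e)) (c (c (c (m (nat_lit 0x9d5fc)) e) e) e))) (c (c (c (c (m (nat_lit 0x9c3cf414)) (c (m (nat_lit 0x1321ec)) e)) (c (c (m (nat_lit 0x1336d4)) e) e)) (c (c (c (m (nat_lit 0x71b3f20)) e) e) e)) (c (c (c (c (p (nat_lit 0x30f79740)) e) e) e) e))) (c (c (c (c (c (p (nat_lit 0x4e50ab40)) (c (m (nat_lit 0xd7ebec4)) e)) (c (c (m (nat_lit 0x122874c0)) e) e)) (c (c (c (m (nat_lit 0x13254c)) e) e) e)) (c (c (c (c (m (nat_lit 0x135c3c)) e) e) e) e)) (c (c (c (c (c (m (nat_lit 0x94f5300)) e) e) e) e) e))) (c (c (c (c (c (c (p (nat_lit 0x329d2fac)) (c (m (nat_lit 0x1cb984)) e)) (c (c (p (nat_lit 0x354))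 e) e)) (c (c (c (m (nat_lit 0x1cb8c4)) e) e) e)) (c (c (c (c (p (nat_lit 0x6b45a5e8)) e) e) e) e)) (c (c (c (c (c (m (nat_lit 0x174aa274)) e) e) e) e) e)) (c (c (c (c (c (c (m (nat_lit 0x15bf4f78)) e) e) e) e) e) e)))) (c (c (c (c (c (c (c (m (nat_lit 0x16449894)) (c (p (nat_lit 0x2671e0)) (c (m (nat_lit 0x99060)) e))) (c (c (p (nat_lit 0x42da784)) (c (m (nat_lit 0x1cb75c)) e)) (c (c (m (nat_lit 0x1320fc)) e) e))) (c (c (c (m (nat_lit 0xc48)) (c (m (nat_lit 0x99108)) e)) (c (c (m (nat_lit 0x1321e0)) e) e)) (c (c (c (m (nat_lit 0x132660)) e) e) e))) (c (c (c (c (p (nat_lit 0x1cba14)) (c (m (nat_lit 0x132210)) e)) (c (c (m (nat_lit 0x132210)) e) e)) (c (c (c (m (nat_lit 0x1328ac)) e) e) e)) (c (c (c (c (m (nat_lit 0x98eec)) e) e) e) e))) (c (c (c (c (c (p (nat_lit 0x2fe1d0)) (c (m (nat_lit 0x992e8)) e)) (c (c (m (nat_lit 0x1cb594)) e) e))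 (c (c (c (m (nat_lit 0x98da8)) e) e) e)) (c (c (c (c (m (nat_lit 0x132318)) e) e) e) e)) (c (c (c (c (c (m (nat_lit 0x1324f8)) e) e) e) e) e))) (c (c (c (c (c (c (p (nat_lit 0x19b3a008)) (c (m (nat_lit 0x35bd22c)) e)) (c (c (m (nat_lit 0x7599df8)) e) e)) (c (c (c (m (nat_lit 0x1cbe28)) e) e) e)) (c (c (c (c (m (nat_lit 0x99114)) e) e) e) e)) (c (c (c (c (c (m (nat_lit 0x35bd0e8)) e) e) e) e) e)) (c (c (c (c (c (c (m (nat_lit 0x99570)) e) e) e) e) e) e))) (c (c (c (c (c (c (c (p (nat_lit 0x1ca358)) (c (m (nat_lit 0x9bb5c)) e)) (c (c (m (nat_lit 0x992ac)) e) e)) (c (c (c (p (nat_lit 0x11d0)) e) e) e)) (c (c (c (c (m (nat_lit 0x98f34)) e) e) e) e)) (c (c (c (c (c (m (nat_lit 0x1328f4)) e) e) e) e) e)) (c (c (c (c (c (c (m (nat_lit 0x998ac)) e) e) e) e) e) e)) (c (c (c (c (c (c (c (m (nat_lit 0x99048)) e) e) e) e) e) e) e)))) (c (c (c (c (c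 (c (c (c (p (nat_lit 0x298319b8)) (c (m (nat_lit 0x1ea8d80)) (c (p (nat_lit 0x10877a0)) e))) (c (c (p (nat_lit 0x2fec68)) (c (m (nat_lit 0x992d0)) e)) (c (c (m (nat_lit 0x99030)) e) e))) (c (c (c (m (nat_lit 0x135dfcb0)) (c (m (nat_lit 0x99918)) e)) (c (c (m (nat_lit 0x99234)) e) e)) (c (c (c (m (nat_lit 0x999d8)) e) e) e))) (c (c (c (c (m (nat_lit 0x7301fd0)) (c (m (nat_lit 0x994a4)) e)) (c (c (m (nat_lit 0x99d38)) e) e)) (c (c (c (m (nat_lit 0x132780)) e) e) e)) (c (c (c (c (m (nat_lit 0x9a5f0)) e) e) e) e))) (c (c (c (c (c (p (nat_lit 0x2fec68)) (c (m (nat_lit 0x992d0)) e)) (c (c (m (nat_lit 0x132f60)) e) e)) (c (c (c (m (nat_lit 0x99360)) e) e) e)) (c (c (c (c (m (nat_lit 0x993cc)) e) e) e) e)) (c (c (c (c (c (m (nat_lit 0x99030)) e) e) e) e) e))) (c (c (c (c (c (c (m (nat_lit 0x7301fd0)) (c (m (nat_lit 0x994a4)) e)) (c (c (m (nat_lit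 0x993cc)) e) e)) (c (c (c (p (nat_lit 0x316338c)) e) e) e)) (c (c (c (c (m (nat_lit 0x1330e0)) e) e) e) e)) (c (c (c (c (c (m (nat_lit 0x99d38)) e) e) e) e) e)) (c (c (c (c (c (c (m (nat_lit 0x9a5f0)) e) e) e) e) e) e))) (c (c (c (c (c (c (c (m (nat_lit 0x135dfcb0)) (c (m (nat_lit 0x99918)) e)) (c (c (m (nat_lit 0x99360)) e) e)) (c (c (c (p (nat_lit 0x7480b18)) e) e) e)) (c (c (c (c (p (nat_lit 0x316338c)) e) e) e) e)) (c (c (c (c (c (m (nat_lit 0x99234)) e) e) e) e) e)) (c (c (c (c (c (c (m (nat_lit 0x132780)) e) e) e) e) e) e)) (c (c (c (c (c (c (c (m (nat_lit 0x999d8)) e) e) e) e) e) e) e))) (c (c (c (c (c (c (c (c (m (nat_lit 0x34f9698)) (c (m (nat_lit 0xb75844)) e)) (c (c (m (nat_lit 0x99258)) e) e)) (c (c (c (m (nat_lit 0x131ef8)) e) e) e)) (c (c (c (c (p (nat_lit 0x436be04)) e) e) e) e)) (c (c (c (c (c (m (nat_lit 0x13269c)) e)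 e) e) e) e)) (c (c (c (c (c (c (m (nat_lit 0x1321c8)) e) e) e) e) e) e)) (c (c (c (c (c (c (c (m (nat_lit 0x99528)) e) e) e) e) e) e) e)) (c (c (c (c (c (c (c (c (m (nat_lit 0x990fc)) e) e) e) e) e) e) e) e)))) (c (c (c (c (c (c (c (c (c (m (nat_lit 0x13c391e8)) (c (p (nat_lit 0x3bfdbc4)) (c (m (nat_lit 0x1330d4)) e))) (c (c (p (nat_lit 0x1d2de824)) (c (m (nat_lit 0x9957c)) e)) (c (c (m (nat_lit 0x133020)) e) e))) (c (c (c (p (nat_lit 0x108a7124)) (c (m (nat_lit 0x132330)) e)) (c (c (m (nat_lit 0xb81dc9c)) e) e)) (c (c (c (m (nat_lit 0x132468)) e) e) e))) (c (c (c (c (m (nat_lit 0x46153494)) (c (m (nat_lit 0x993d8)) e)) (c (c (m (nat_lit 0x133b00)) e) e)) (c (c (c (m (nat_lit 0x1deb90)) e) e) e)) (c (c (c (c (p (nat_lit 0x230fa738)) e) e) e) e))) (c (c (c (c (c (p (nat_lit 0xb1632f4)) (c (m (nat_lit 0x99234)) e)) (c (c (m (nat_lit 0x992d0))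 e) e)) (c (c (c (m (nat_lit 0x132870)) e) e) e)) (c (c (c (c (m (nat_lit 0x98f4c)) e) e) e) e)) (c (c (c (c (c (m (nat_lit 0x992e8)) e) e) e) e) e))) (c (c (c (c (c (c (p (nat_lit 0x28020a5c)) (c (m (nat_lit 0x99654)) e)) (c (c (m (nat_lit 0xe23a628)) e) e)) (c (c (c (m (nat_lit 0x1cba14)) e) e) e)) (c (c (c (c (p (nat_lit 0xb4)) e) e) e) e)) (c (c (c (c (c (m (nat_lit 0x7a12ef8)) e) e) e) e) e)) (c (c (c (c (c (c (m (nat_lit 0x98ff4)) e) e) e) e) e) e))) (c (c (c (c (c (c (c (p (nat_lit 0x15ebd49c)) (c (m (nat_lit 0x3888e28)) e)) (c (c (m (nat_lit 0x37eb01c)) e) e)) (c (c (c (m (nat_lit 0x9af74)) e) e) e)) (c (c (c (c (m (nat_lit 0x99120)) e) e) e) e)) (c (c (c (c (c (m (nat_lit 0x37eb034)) e) e) e) e) e)) (c (c (c (c (c (c (m (nat_lit 0x12638fc4)) e) e) e) e) e) e)) (c (c (c (c (c (c (c (m (nat_lit 0x1324e0)) e) e) e) e) e) e) e))) (c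 (c (c (c (c (c (c (c (m (nat_lit 0x34f9698)) (c (m (nat_lit 0xb75844)) e)) (c (c (m (nat_lit 0x13269c)) e) e)) (c (c (c (m (nat_lit 0x99528)) e) e) e)) (c (c (c (c (m (nat_lit 0x1321c8)) e) e) e) e)) (c (c (c (c (c (m (nat_lit 0x99258)) e) e) e) e) e)) (c (c (c (c (c (c (p (nat_lit 0x436be04)) e) e) e) e) e) e)) (c (c (c (c (c (c (c (m (nat_lit 0x131ef8)) e) e) e) e) e) e) e)) (c (c (c (c (c (c (c (c (m (nat_lit 0x131f58)) e) e) e) e) e) e) e) e))) (c (c (c (c (c (c (c (c (c (p (nat_lit 0x26ab94)) (c (m (nat_lit 0x9ab90)) e)) (c (c (m (nat_lit 0x138bd0)) e) e)) (c (c (c (m (nat_lit 0x4e0db3c)) e) e) e)) (c (c (c (c (m (nat_lit 0x98f40)) e) e) e) e)) (c (c (c (c (c (p (nat_lit 0x18f0)) e) e) e) e) e)) (c (c (c (c (c (c (p (nat_lit 0x1b9c)) e) e) e) e) e) e)) (c (c (c (c (c (c (c (m (nat_lit 0x98f04)) e) e) e) e) e) e) e)) (c (c (c (c (c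 (c (c (c (m (nat_lit 0x990fc)) e) e) e) e) e) e) e) e)) (c (c (c (c (c (c (c (c (c (m (nat_lit 0x1698)) e) e) e) e) e) e) e) e) e))))) (c (c (c (c (c (c (c (c (c (c (m (nat_lit 0x57dafd60)) (c (p (nat_lit 0x53e69cf8)) (c (p (nat_lit 0x42da460)) (c (p (nat_lit 0x14d0)) e)))) (c (c (p (nat_lit 0x490a0784)) (c (p (nat_lit 0x14ef3428)) (c (m (nat_lit 0x1fa040c)) e))) (c (c (p (nat_lit 0x10f13670)) (c (m (nat_lit 0x4073808)) e)) (c (c (m (nat_lit 0x20394cc)) e) e)))) (c (c (c (p (nat_lit 0xfabe43c)) (c (m (nat_lit 0xf8f1b58)) (c (m (nat_lit 0x9aa70)) e))) (c (c (p (nat_lit 0x7b456b4)) (c (m (nat_lit 0x5b59eb8)) e)) (c (c (m (nat_lit 0x1cc818)) e) e))) (c (c (c (p (nat_lit 0x13f6c854)) (c (m (nat_lit 0x1cb7f8)) e)) (c (c (m (nat_lit 0x1cb900)) e) e)) (c (c (c (m (nat_lit 0x99c90)) e) e) e)))) (c (c (c (c (p (nat_lit 0x5953143c)) (c (m (nat_lit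 0x3633f888)) (c (m (nat_lit 0x99258)) e))) (c (c (m (nat_lit 0x3b04fd80)) (c (p (nat_lit 0x99768)) e)) (c (c (p (nat_lit 0x995e8)) e) e))) (c (c (c (p (nat_lit 0x2ac7ac4)) (c (m (nat_lit 0x28f9698)) e)) (c (c (p (nat_lit 0x54f9504)) e) e)) (c (c (c (m (nat_lit 0xbe8)) e) e) e))) (c (c (c (c (m (nat_lit 0x1e5c61a8)) (c (p (nat_lit 0x6f467ac)) e)) (c (c (p (nat_lit 0x6f46b24)) e) e)) (c (c (c (m (nat_lit 0x133c38)) e) e) e)) (c (c (c (c (m (nat_lit 0x9a7e8)) e) e) e) e)))) (c (c (c (c (c (p (nat_lit 0x490a0784)) (c (p (nat_lit 0x14ef3428)) (c (m (nat_lit 0x1fa040c)) e))) (c (c (p (nat_lit 0x262b0cd8)) (c (m (nat_lit 0xc6a0c80)) e)) (c (c (m (nat_lit 0xa666da0)) e) e))) (c (c (c (m (nat_lit 0xf5f4d68)) (c (m (nat_lit 0x1ce300)) e)) (c (c (m (nat_lit 0x5737578)) e) e)) (c (c (c (m (nat_lit 0x973f9d4)) e) e) e))) (c (c (c (c (m (nat_lit 0x3b108af0))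 (c (p (nat_lit 0xb89a4)) e)) (c (c (p (nat_lit 0x1eaf38)) e) e)) (c (c (c (p (nat_lit 0x5594988)) e) e) e)) (c (c (c (c (p (nat_lit 0x6f46ecc)) e) e) e) e))) (c (c (c (c (c (p (nat_lit 0x10f13670)) (c (m (nat_lit 0x4073808)) e)) (c (c (m (nat_lit 0xa666da0)) e) e)) (c (c (c (m (nat_lit 0x1cc4d0)) e) e) e)) (c (c (c (c (p (nat_lit 0x1fadc)) e) e) e) e)) (c (c (c (c (c (m (nat_lit 0x20394cc)) e) e) e) e) e)))) (c (c (c (c (c (c (p (nat_lit 0x5953143c)) (c (m (nat_lit 0x3633f888)) (c (m (nat_lit 0x99258)) e))) (c (c (m (nat_lit 0x3b108af0)) (c (p (nat_lit 0xb89a4)) e)) (c (c (p (nat_lit 0x1fadc)) e) e))) (c (c (c (m (nat_lit 0x22076088)) (c (p (nat_lit 0x24c)) e)) (c (c (m (nat_lit 0x99540)) e) e)) (c (c (c (p (nat_lit 0x19ec4f8)) e) e) e))) (c (c (c (c (m (nat_lit 0x210d1e08)) (c (p (nat_lit 0x1da74250)) e)) (c (c (p (nat_lit 0x20d13224))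 e) e)) (c (c (c (m (nat_lit 0x1327a4)) e) e) e)) (c (c (c (c (p (nat_lit 0x9ae90)) e) e) e) e))) (c (c (c (c (c (m (nat_lit 0x3b04fd80)) (c (p (nat_lit 0x99768)) e)) (c (c (p (nat_lit 0x1eaf38)) e) e)) (c (c (c (m (nat_lit 0x99078)) e) e) e)) (c (c (c (c (p (nat_lit 0x20d13224)) e) e) e) e)) (c (c (c (c (c (p (nat_lit 0x995e8)) e) e) e) e) e))) (c (c (c (c (c (c (m (nat_lit 0x1e5c61a8)) (c (p (nat_lit 0x6f467ac)) e)) (c (c (p (nat_lit 0x6f46ecc)) e) e)) (c (c (c (p (nat_lit 0x17341ac4)) e) e) e)) (c (c (c (c (p (nat_lit 0x9ae90)) e) e) e) e)) (c (c (c (c (c (p (nat_lit 0x6f46b24)) e) e) e) e) e)) (c (c (c (c (c (c (m (nat_lit 0x9a7e8)) e) e) e) e) e) e)))) (c (c (c (c (c (c (c (p (nat_lit 0xfabe43c)) (c (m (nat_lit 0xf8f1b58)) (c (m (nat_lit 0x9aa70)) e))) (c (c (m (nat_lit 0xf5f4d68)) (c (m (nat_lit 0x1ce300)) e)) (c (c (m (nat_lit 0x1cc4d0))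 e) e))) (c (c (c (p (nat_lit 0x2644c8)) (c (p (nat_lit 0x5a0)) e)) (c (c (m (nat_lit 0xc376218)) e) e)) (c (c (c (m (nat_lit 0x7d3457c)) e) e) e))) (c (c (c (c (m (nat_lit 0x22076088)) (c (p (nat_lit 0x24c)) e)) (c (c (m (nat_lit 0x99078)) e) e)) (c (c (c (m (nat_lit 0x9a614)) e) e) e)) (c (c (c (c (p (nat_lit 0x17341ac4)) e) e) e) e))) (c (c (c (c (c (p (nat_lit 0x7b456b4)) (c (m (nat_lit 0x5b59eb8)) e)) (c (c (m (nat_lit 0x5737578)) e) e)) (c (c (c (m (nat_lit 0xc376218)) e) e) e)) (c (c (c (c (m (nat_lit 0x99540)) e) e) e) e)) (c (c (c (c (c (m (nat_lit 0x1cc818)) e) e) e) e) e))) (c (c (c (c (c (c (p (nat_lit 0x2ac7ac4)) (c (m (nat_lit 0x28f9698)) e)) (c (c (p (nat_lit 0x5594988)) e) e)) (c (c (c (m (nat_lit 0x9a614)) e) e) e)) (c (c (c (c (m (nat_lit 0x1327a4)) e) e) e) e)) (c (c (c (c (c (p (nat_lit 0x54f9504)) e) e) e) e) e)) (c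 (c (c (c (c (c (m (nat_lit 0x133c38)) e) e) e) e) e) e))) (c (c (c (c (c (c (c (p (nat_lit 0x13f6c854)) (c (m (nat_lit 0x1cb7f8)) e)) (c (c (m (nat_lit 0x973f9d4)) e) e)) (c (c (c (m (nat_lit 0x7d3457c)) e) e) e)) (c (c (c (c (p (nat_lit 0x19ec4f8)) e) e) e) e)) (c (c (c (c (c (m (nat_lit 0x1cb900)) e) e) e) e) e)) (c (c (c (c (c (c (m (nat_lit 0xbe8)) e) e) e) e) e) e)) (c (c (c (c (c (c (c (m (nat_lit 0x99c90)) e) e) e) e) e) e) e)))) (c (c (c (c (c (c (c (c (p (nat_lit 0x291543c)) (c (m (nat_lit 0x68fa234)) (c (m (nat_lit 0x99018)) e))) (c (c (p (nat_lit 0x23c5adc)) (c (m (nat_lit 0x98dfc)) e)) (c (c (m (nat_lit 0x98f28)) e) e))) (c (c (c (p (nat_lit 0x438714)) (c (m (nat_lit 0x1d31b4)) e)) (c (c (m (nat_lit 0x1d1a20)) e) e)) (c (c (c (m (nat_lit 0x99270)) e) e) e))) (c (c (c (c (p (nat_lit 0x17cd6c)) (c (m (nat_lit 0x33c7998)) e))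 (c (c (m (nat_lit 0x245d240)) e) e)) (c (c (c (m (nat_lit 0x133938)) e) e) e)) (c (c (c (c (m (nat_lit 0x12cc)) e) e) e) e))) (c (c (c (c (c (p (nat_lit 0x5c05818)) (c (m (nat_lit 0x6a4ac60)) e)) (c (c (m (nat_lit 0x6a3cc68)) e) e)) (c (c (c (m (nat_lit 0x39d0c44)) e) e) e)) (c (c (c (c (m (nat_lit 0x999c0)) e) e) e) e)) (c (c (c (c (c (m (nat_lit 0x69a3680)) e) e) e) e) e))) (c (c (c (c (c (c (m (nat_lit 0x4bed378)) (c (p (nat_lit 0x6a3053c)) e)) (c (c (p (nat_lit 0x6a31904)) e) e)) (c (c (c (m (nat_lit 0x997f8)) e) e) e)) (c (c (c (c (p (nat_lit 0x105b4)) e) e) e) e)) (c (c (c (c (c (p (nat_lit 0x4b16320)) e) e) e) e) e)) (c (c (c (c (c (c (p (nat_lit 0x50ac78)) e) e) e) e) e) e))) (c (c (c (c (c (c (c (m (nat_lit 0xc3569ac)) (c (p (nat_lit 0x1128)) e)) (c (c (m (nat_lit 0x68fb224)) e) e)) (c (c (c (m (nat_lit 0x132978)) e) e) e)) (c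 (c (c (c (p (nat_lit 0xe6c4c60)) e) e) e) e)) (c (c (c (c (c (m (nat_lit 0x99198)) e) e) e) e) e)) (c (c (c (c (c (c (m (nat_lit 0x1332e4)) e) e) e) e) e) e)) (c (c (c (c (c (c (c (m (nat_lit 0x99870)) e) e) e) e) e) e) e))) (c (c (c (c (c (c (c (c (p (nat_lit 0x2fd4a4)) (c (m (nat_lit 0x2dbcf4)) e)) (c (c (m (nat_lit 0x99030)) e) e)) (c (c (c (m (nat_lit 0x132324)) e) e) e)) (c (c (c (c (m (nat_lit 0x991c8)) e) e) e) e)) (c (c (c (c (c (m (nat_lit 0x133b60)) e) e) e) e) e)) (c (c (c (c (c (c (m (nat_lit 0x132414)) e) e) e) e) e) e)) (c (c (c (c (c (c (c (m (nat_lit 0x9b400)) e) e) e) e) e) e) e)) (c (c (c (c (c (c (c (c (p (nat_lit 0x99744)) e) e) e) e) e) e) e) e)))) (c (c (c (c (c (c (c (c (c (p (nat_lit 0x291543c)) (c (m (nat_lit 0x68fa234)) (c (m (nat_lit 0x99018)) e))) (c (c (p (nat_lit 0x5c05818)) (c (m (nat_lit 0x6a4ac60)) e))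 (c (c (m (nat_lit 0x69a3680)) e) e))) (c (c (c (m (nat_lit 0xc3569ac)) (c (p (nat_lit 0x1128)) e)) (c (c (m (nat_lit 0x99198)) e) e)) (c (c (c (m (nat_lit 0x99870)) e) e) e))) (c (c (c (c (m (nat_lit 0x4bed378)) (c (p (nat_lit 0x6a3053c)) e)) (c (c (p (nat_lit 0x4b16320)) e) e)) (c (c (c (m (nat_lit 0x1332e4)) e) e) e)) (c (c (c (c (p (nat_lit 0x50ac78)) e) e) e) e))) (c (c (c (c (c (p (nat_lit 0x23c5adc)) (c (m (nat_lit 0x98dfc)) e)) (c (c (m (nat_lit 0x6a3cc68)) e) e)) (c (c (c (m (nat_lit 0x68fb224)) e) e) e)) (c (c (c (c (p (nat_lit 0x6a31904)) e) e) e) e)) (c (c (c (c (c (m (nat_lit 0x98f28)) e) e) e) e) e))) (c (c (c (c (c (c (p (nat_lit 0x17cd6c)) (c (m (nat_lit 0x33c7998)) e)) (c (c (m (nat_lit 0x999c0)) e) e)) (c (c (c (p (nat_lit 0xe6c4c60)) e) e) e)) (c (c (c (c (p (nat_lit 0x105b4)) e) e) e) e)) (c (c (c (c (c (m (nat_lit 0x245d240))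 e) e) e) e) e)) (c (c (c (c (c (c (m (nat_lit 0x12cc)) e) e) e) e) e) e))) (c (c (c (c (c (c (c (p (nat_lit 0x438714)) (c (m (nat_lit 0x1d31b4)) e)) (c (c (m (nat_lit 0x39d0c44)) e) e)) (c (c (c (m (nat_lit 0x132978)) e) e) e)) (c (c (c (c (m (nat_lit 0x997f8)) e) e) e) e)) (c (c (c (c (c (m (nat_lit 0x1d1a20)) e) e) e) e) e)) (c (c (c (c (c (c (m (nat_lit 0x133938)) e) e) e) e) e) e)) (c (c (c (c (c (c (c (m (nat_lit 0x99270)) e) e) e) e) e) e) e))) (c (c (c (c (c (c (c (c (m (nat_lit 0x8479938)) (c (m (nat_lit 0x9a4b980)) e)) (c (c (m (nat_lit 0x132480)) e) e)) (c (c (c (p (nat_lit 0x912ec70)) e) e) e)) (c (c (c (c (m (nat_lit 0x99744)) e) e) e) e)) (c (c (c (c (c (m (nat_lit 0x132480)) e) e) e) e) e)) (c (c (c (c (c (c (m (nat_lit 0x99744)) e) e) e) e) e) e)) (c (c (c (c (c (c (c (p (nat_lit 0x912ec70)) e) e) e) e) e) e) e)) (c (c (c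 (c (c (c (c (c (m (nat_lit 0x132720)) e) e) e) e) e) e) e) e))) (c (c (c (c (c (c (c (c (c (p (nat_lit 0x2fd4a4)) (c (m (nat_lit 0x2dbcf4)) e)) (c (c (m (nat_lit 0x133b60)) e) e)) (c (c (c (m (nat_lit 0x9b400)) e) e) e)) (c (c (c (c (m (nat_lit 0x132414)) e) e) e) e)) (c (c (c (c (c (m (nat_lit 0x99030)) e) e) e) e) e)) (c (c (c (c (c (c (m (nat_lit 0x991c8)) e) e) e) e) e) e)) (c (c (c (c (c (c (c (m (nat_lit 0x132324)) e) e) e) e) e) e) e)) (c (c (c (c (c (c (c (c (m (nat_lit 0x132720)) e) e) e) e) e) e) e) e)) (c (c (c (c (c (c (c (c (c (p (nat_lit 0x99744)) e) e) e) e) e) e) e) e) e)))) (c (c (c (c (c (c (c (c (c (c (p (nat_lit 0x147f3108)) (c (m (nat_lit 0x140c5020)) (c (m (nat_lit 0x3988b0)) e))) (c (c (m (nat_lit 0x140c8b0c)) (c (m (nat_lit 0x5fc550)) e)) (c (c (m (nat_lit 0x1cac70)) e) e))) (c (c (c (m (nat_lit 0xa492c20)) (c (p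 (nat_lit 0xa5c5298)) e)) (c (c (p (nat_lit 0xa5c5238)) e) e)) (c (c (c (m (nat_lit 0x98f4c)) e) e) e))) (c (c (c (c (p (nat_lit 0xe230e60)) (c (m (nat_lit 0x6ef4744)) e)) (c (c (m (nat_lit 0x134574)) e) e)) (c (c (c (m (nat_lit 0x70d364c)) e) e) e)) (c (c (c (c (m (nat_lit 0x99954)) e) e) e) e))) (c (c (c (c (c (m (nat_lit 0x140c8b0c)) (c (m (nat_lit 0x5fc550)) e)) (c (c (m (nat_lit 0x4c7688)) e) e)) (c (c (c (p (nat_lit 0xa5c5190)) e) e) e)) (c (c (c (c (m (nat_lit 0x99384)) e) e) e) e)) (c (c (c (c (c (m (nat_lit 0x1cac70)) e) e) e) e) e))) (c (c (c (c (c (c (p (nat_lit 0xe230e60)) (c (m (nat_lit 0x6ef4744)) e)) (c (c (m (nat_lit 0x99384)) e) e)) (c (c (c (m (nat_lit 0x133b24)) e) e) e)) (c (c (c (c (m (nat_lit 0x1320a8)) e) e) e) e)) (c (c (c (c (c (m (nat_lit 0x134574)) e) e) e) e) e)) (c (c (c (c (c (c (m (nat_lit 0x99954)) e) e)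 e) e) e) e))) (c (c (c (c (c (c (c (m (nat_lit 0xa492c20)) (c (p (nat_lit 0xa5c5298)) e)) (c (c (p (nat_lit 0xa5c5190)) e) e)) (c (c (c (m (nat_lit 0x131f88)) e) e) e)) (c (c (c (c (m (nat_lit 0x133b24)) e) e) e) e)) (c (c (c (c (c (p (nat_lit 0xa5c5238)) e) e) e) e) e)) (c (c (c (c (c (c (m (nat_lit 0x70d364c)) e) e) e) e) e) e)) (c (c (c (c (c (c (c (m (nat_lit 0x98f4c)) e) e) e) e) e) e) e))) (c (c (c (c (c (c (c (c (p (nat_lit 0x29ad3d4)) (c (m (nat_lit 0x2c09544)) e)) (c (c (m (nat_lit 0x131f58)) e) e)) (c (c (c (m (nat_lit 0x99060)) e) e) e)) (c (c (c (c (m (nat_lit 0x9900c)) e) e) e) e)) (c (c (c (c (c (m (nat_lit 0x1cacdc)) e) e) e) e) e)) (c (c (c (c (c (c (m (nat_lit 0x99138)) e) e) e) e) e) e)) (c (c (c (c (c (c (c (m (nat_lit 0x98f10)) e) e) e) e) e) e) e)) (c (c (c (c (c (c (c (c (m (nat_lit 0x1322c4)) e) e) e) e) e) e) e)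 e))) (c (c (c (c (c (c (c (c (c (p (nat_lit 0x29ad3d4)) (c (m (nat_lit 0x2c09544)) e)) (c (c (m (nat_lit 0x1cacdc)) e) e)) (c (c (c (m (nat_lit 0x98f10)) e) e) e)) (c (c (c (c (m (nat_lit 0x99138)) e) e) e) e)) (c (c (c (c (c (m (nat_lit 0x131f58)) e) e) e) e) e)) (c (c (c (c (c (c (m (nat_lit 0x9900c)) e) e) e) e) e) e)) (c (c (c (c (c (c (c (m (nat_lit 0x99060)) e) e) e) e) e) e) e)) (c (c (c (c (c (c (c (c (m (nat_lit 0x132c18)) e) e) e) e) e) e) e) e)) (c (c (c (c (c (c (c (c (c (m (nat_lit 0x1322c4)) e) e) e) e) e) e) e) e) e))) (c (c (c (c (c (c (c (c (c (c (p (nat_lit 0x396690)) (c (m (nat_lit 0x264360)) e)) (c (c (m (nat_lit 0x1cb7c8)) e) e)) (c (c (c (m (nat_lit 0x98f70)) e) e) e)) (c (c (c (c (m (nat_lit 0x997d4)) e) e) e) e)) (c (c (c (c (c (m (nat_lit 0x1cb7c8)) e) e) e) e) e)) (c (c (c (c (c (c (m (nat_lit 0x997d4)) e) e)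 e) e) e) e)) (c (c (c (c (c (c (c (m (nat_lit 0x98f70)) e) e) e) e) e) e) e)) (c (c (c (c (c (c (c (c (p (nat_lit 0x95430)) e) e) e) e) e) e) e) e)) (c (c (c (c (c (c (c (c (c (p (nat_lit 0x95430)) e) e) e) e) e) e) e) e) e)) (c (c (c (c (c (c (c (c (c (c (m (nat_lit 0x131dc0)) e) e) e) e) e) e) e) e) e) e)))))

theorem c1 : trsOK col trs = true := by decide +kernel
theorem c2 : Nat.ble (Nat.mul (nat_lit 39) (nat_lit 4556)) (nat_lit 4294967295) = true := by decide +kernel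
theorem c3 : Nat.beq (tabK (nat_lit 39) (List.ofFn s10)) kt = true := by decide +kernel
theorem c4 : okE trs E = true := by decide +kernel
theorem c5 : dE E (nat_lit 4) = true := by decide +kernel
theorem c6 : cmpK (nat_lit 10) (nat_lit 4) kt E T = true := by decide +kernel
theorem c7 : bndK (nat_lit 10) (nat_lit 4) (Nat.pow (nat_lit 2) (nat_lit 39)) E T = true := by decide +kernel

theorem c0 : Fl.codeB col = 86 := by decide +kernel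

theorem own : Fl.OwnOK 4 T 86 :=
  own_ok c0 c1 c2 c3 c4 c5 c6 c7

end H86

end Own

end HR
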