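import Pool.Agent.Lib.MP_a1b8b7_co.B.OwnOK

set_option autoImplicit false

namespace HR

namespace Own

namespace H87

open Chk

def col : Fin 10 → Bool := ![true, true, true, false, true, false, true, false, false, false]

def trs : List ℕ := [nat_lit 528, nat_lit 2437]

def kt : ℕ := nat_lit 0x27000000c300000333000008610000174f00003ace000082b60000e3250001a64c0002b614

open Ex in
noncomputable def E : Ex := (a (a (a (a (u (nat_lit 9) (v (nat_lit 9) (v (nat_lit 9) (v (nat_lit 9) (k (nat_lit 0x131c70)))))) (v (nat_lit 8) (v (nat_lit 8) (u (nat_lit 9) (v (nat_lit 9) (k (nat_lit 0x99018))))))) (a (u (nat_lit 8) (a (v (nat_lit 9) (v (nat_lit 9) (v (nat_lit 9) (k (nat_lit 0x98d60))))) (v (nat_lit 8) (v (nat_lit 8) (a (v (nat_lit 9) (k (nat_lit 0x98e8c))) (v (nat_lit 8) (k (nat_lit 0x99054)))))))) (a (v (nat_lit 7) (a (u (nat_lit 9) (u (nat_lit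 9) (u (nat_lit 9) (k (nat_lit 0x9a4b8))))) (a (v (nat_lit 8) (a (u (nat_lit 9) (v (nat_lit 9) (k (nat_lit 0x99462)))) (v (nat_lit 8) (u (nat_lit 9) (k (nat_lit 0x991bc)))))) (u (nat_lit 8) (u (nat_lit 9) (u (nat_lit 9) (k (nat_lit 0xf93a45e)))))))) (u (nat_lit 7) (a (a (v (nat_lit 9) (v (nat_lit 9) (v (nat_lit 9) (k (nat_lit 0x98d48))))) (v (nat_lit 8) (v (nat_lit 8) (v (nat_lit 8) (k (nat_lit 0x990c0)))))) (a (v (nat_lit 7) (a (a (v (nat_lit 9) (v (nat_lit 9) (k (nat_lit 0x997b6)))) (v (nat_lit 8) (a (v (nat_lit 9) (k (nat_lit 0x9949e))) (v (nat_lit 8) (k (nat_lit 0x990de)))))) (a (u (nat_lit 8) (v (nat_lit 8) (k (nat_lit 0x9b90a)))) (v (nat_lit 7) (a (v (nat_lit 9) (k (nat_lit 0x1b17d84))) (a (v (nat_lit 8) (k (nat_lit 0x1283d534))) (v (nat_lit 7) (k (nat_lit 0x1cb6fc))))))))) (u (nat_lit 7) (v (nat_lit 7) (v (nat_lit 7) (k (nat_lit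 0x99294))))))))))) (a (a (v (nat_lit 6) (a (a (u (nat_lit 8) (u (nat_lit 8) (a (v (nat_lit 9) (k (nat_lit 0x9992a))) (u (nat_lit 8) (k (nat_lit 0x193b774)))))) (v (nat_lit 7) (a (u (nat_lit 9) (v (nat_lit 9) (k (nat_lit 0x98532)))) (a (v (nat_lit 8) (u (nat_lit 9) (k (nat_lit 0x99ace)))) (v (nat_lit 7) (a (u (nat_lit 9) (k (nat_lit 0x98268))) (u (nat_lit 8) (k (nat_lit 0x99114))))))))) (a (u (nat_lit 7) (a (v (nat_lit 9) (v (nat_lit 9) (k (nat_lit 0x9a482)))) (a (v (nat_lit 8) (a (v (nat_lit 9) (k (nat_lit 0x98da2))) (v (nat_lit 8) (k (nat_lit 0x97440))))) (v (nat_lit 7) (a (v (nat_lit 9) (k (nat_lit 0x9a296))) (v (nat_lit 7) (k (nat_lit 0x12f96c)))))))) (v (nat_lit 6) (a (a (u (nat_lit 9) (v (nat_lit 9) (k (nat_lit 0x996ae)))) (u (nat_lit 8) (v (nat_lit 9) (k (nat_lit 0x990de))))) (a (v (nat_lit 7) (u (nat_lit 8) (k (nat_lit 0x97bc0))))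 (a (u (nat_lit 7) (a (v (nat_lit 9) (k (nat_lit 0x99408))) (a (u (nat_lit 8) (k (nat_lit 0x5082c36))) (v (nat_lit 7) (k (nat_lit 0x991c8)))))) (v (nat_lit 6) (u (nat_lit 7) (k (nat_lit 0x9a074))))))))))) (u (nat_lit 6) (a (a (v (nat_lit 9) (v (nat_lit 9) (v (nat_lit 9) (k (nat_lit 0x98d3c))))) (v (nat_lit 8) (a (v (nat_lit 9) (v (nat_lit 9) (k (nat_lit 0x98e68)))) (v (nat_lit 8) (a (v (nat_lit 9) (k (nat_lit 0x98f10))) (v (nat_lit 8) (k (nat_lit 0x98ef2)))))))) (a (v (nat_lit 7) (a (v (nat_lit 9) (v (nat_lit 9) (k (nat_lit 0x9957c)))) (a (v (nat_lit 8) (a (v (nat_lit 9) (k (nat_lit 0x99d50))) (v (nat_lit 8) (k (nat_lit 0x9af20))))) (v (nat_lit 7) (a (v (nat_lit 9) (k (nat_lit 0x9963c))) (u (nat_lit 9) (k (nat_lit 0x10bef46)))))))) (a (v (nat_lit 6) (a (v (nat_lit 8) (v (nat_lit 8) (k (nat_lit 0x991bc)))) (a (v (nat_lit 7) (a (v (nat_lit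 9) (k (nat_lit 0x99a50))) (u (nat_lit 8) (k (nat_lit 0x97dd6))))) (v (nat_lit 6) (a (a (v (nat_lit 9) (k (nat_lit 0x99cde))) (v (nat_lit 8) (k (nat_lit 0x99630)))) (a (u (nat_lit 8) (k (nat_lit 0x99c4e))) (a (u (nat_lit 7) (k (nat_lit 0x998b8))) (v (nat_lit 6) (k (nat_lit 0x1cb6fc)))))))))) (u (nat_lit 6) (v (nat_lit 6) (a (v (nat_lit 7) (k (nat_lit 0x99438))) (v (nat_lit 6) (k (nat_lit 0x99294))))))))))) (a (v (nat_lit 5) (a (a (v (nat_lit 8) (u (nat_lit 9) (a (v (nat_lit 9) (k (nat_lit 0x131e2c))) (u (nat_lit 9) (k (nat_lit 0x1347e4)))))) (a (v (nat_lit 7) (a (u (nat_lit 9) (v (nat_lit 9) (k (nat_lit 0x99630)))) (u (nat_lit 8) (a (v (nat_lit 9) (k (nat_lit 0x990cc))) (v (nat_lit 8) (k (nat_lit 0x99990))))))) (u (nat_lit 7) (v (nat_lit 7) (a (v (nat_lit 9) (k (nat_lit 0x9918c))) (a (v (nat_lit 8) (k (nat_lit 0x9f390))) (v (nat_lit 7)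 (k (nat_lit 0x99fcc))))))))) (a (v (nat_lit 6) (a (v (nat_lit 7) (a (u (nat_lit 9) (k (nat_lit 0x99d38))) (u (nat_lit 8) (k (nat_lit 0x9a7dc))))) (a (u (nat_lit 7) (a (v (nat_lit 9) (k (nat_lit 0x97ecc))) (a (v (nat_lit 8) (k (nat_lit 0x99924))) (v (nat_lit 7) (k (nat_lit 0x98898)))))) (v (nat_lit 6) (u (nat_lit 8) (k (nat_lit 0x99684))))))) (a (u (nat_lit 6) (a (a (v (nat_lit 9) (v (nat_lit 9) (k (nat_lit 0x98e2c)))) (v (nat_lit 8) (a (v (nat_lit 9) (k (nat_lit 0x98ee0))) (v (nat_lit 8) (k (nat_lit 0x991fe)))))) (a (v (nat_lit 7) (a (v (nat_lit 9) (k (nat_lit 0x99b40))) (a (v (nat_lit 8) (k (nat_lit 0x99a62))) (v (nat_lit 7) (k (nat_lit 0x9a386)))))) (a (v (nat_lit 6) (v (nat_lit 6) (k (nat_lit 0x9a2de)))) (u (nat_lit 6) (v (nat_lit 6) (k (nat_lit 0x9a4c4)))))))) (v (nat_lit 5) (a (a (u (nat_lit 9) (v (nat_lit 9) (k (nat_lit 0x99018))))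 (a (u (nat_lit 8) (a (v (nat_lit 9) (k (nat_lit 0x98ec8))) (v (nat_lit 8) (k (nat_lit 0x1480f7c4))))) (v (nat_lit 7) (u (nat_lit 8) (k (nat_lit 0x9a75e)))))) (a (a (u (nat_lit 7) (v (nat_lit 7) (k (nat_lit 0x996b4)))) (v (nat_lit 6) (u (nat_lit 7) (k (nat_lit 0x9f048))))) (a (u (nat_lit 6) (a (a (v (nat_lit 9) (k (nat_lit 0x98e74))) (v (nat_lit 8) (k (nat_lit 0x990c6)))) (a (v (nat_lit 7) (k (nat_lit 0x6b622cc))) (v (nat_lit 6) (k (nat_lit 0x9e574)))))) (v (nat_lit 5) (a (u (nat_lit 8) (k (nat_lit 0x98ea4))) (u (nat_lit 6) (k (nat_lit 0x98b5c))))))))))))) (a (u (nat_lit 5) (a (a (v (nat_lit 9) (v (nat_lit 9) (v (nat_lit 9) (k (nat_lit 0x98d60))))) (a (v (nat_lit 8) (v (nat_lit 8) (a (v (nat_lit 9) (k (nat_lit 0x98ec8))) (v (nat_lit 8) (k (nat_lit 0x98ea4)))))) (v (nat_lit 7) (v (nat_lit 7) (u (nat_lit 9) (k (nat_lit 0x26eeb16))))))) (a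 (a (u (nat_lit 7) (v (nat_lit 7) (v (nat_lit 7) (k (nat_lit 0x99438))))) (v (nat_lit 6) (a (v (nat_lit 7) (a (v (nat_lit 8) (k (nat_lit 0x98bc2))) (v (nat_lit 7) (k (nat_lit 0x9a5ae))))) (v (nat_lit 6) (a (v (nat_lit 9) (k (nat_lit 0x991aa))) (v (nat_lit 7) (k (nat_lit 0x99300)))))))) (a (v (nat_lit 5) (a (a (v (nat_lit 8) (v (nat_lit 8) (k (nat_lit 0x1480f7c4)))) (v (nat_lit 7) (a (v (nat_lit 9) (k (nat_lit 0x991bc))) (v (nat_lit 8) (k (nat_lit 0x99552)))))) (a (v (nat_lit 6) (a (u (nat_lit 9) (k (nat_lit 0x78cef22))) (a (v (nat_lit 7) (k (nat_lit 0x96efa))) (v (nat_lit 6) (k (nat_lit 0x99330)))))) (v (nat_lit 5) (a (a (v (nat_lit 9) (k (nat_lit 0x98e8c))) (v (nat_lit 7) (k (nat_lit 0x98d18)))) (a (v (nat_lit 6) (k (nat_lit 0x9d1d6))) (v (nat_lit 5) (k (nat_lit 0x99054))))))))) (u (nat_lit 5) (a (u (nat_lit 7) (v (nat_lit 7) (k (nat_lit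 0x522fa8)))) (v (nat_lit 6) (a (v (nat_lit 7) (k (nat_lit 0x9926a))) (v (nat_lit 6) (k (nat_lit 0xc85140c))))))))))) (t (nat_lit 5) (nat_lit 8) (nat_lit 9) (a (a (u (nat_lit 9) (u (nat_lit 9) (v (nat_lit 9) (k (nat_lit 0x1335f0))))) (a (u (nat_lit 8) (u (nat_lit 9) (u (nat_lit 9) (k (nat_lit 0x230e2f0))))) (u (nat_lit 7) (u (nat_lit 7) (v (nat_lit 8) (k (nat_lit 0x12593af6))))))) (a (a (u (nat_lit 6) (a (a (u (nat_lit 9) (v (nat_lit 9) (k (nat_lit 0x11405ee)))) (u (nat_lit 8) (v (nat_lit 8) (k (nat_lit 0x94a5b0))))) (a (u (nat_lit 7) (v (nat_lit 8) (k (nat_lit 0x59d73c8)))) (u (nat_lit 6) (a (u (nat_lit 9) (k (nat_lit 0x624428a))) (a (v (nat_lit 8) (k (nat_lit 0x99ec4))) (v (nat_lit 6) (k (nat_lit 0x995fa))))))))) (v (nat_lit 5) (a (u (nat_lit 8) (u (nat_lit 9) (k (nat_lit 0xaa9da8)))) (v (nat_lit 5) (u (nat_lit 8) (k (nat_lit 0x9a1f4)))))))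 (a (u (nat_lit 5) (a (a (u (nat_lit 9) (u (nat_lit 9) (k (nat_lit 0x230e2f0)))) (v (nat_lit 8) (a (u (nat_lit 9) (k (nat_lit 0xaa9da8))) (v (nat_lit 8) (k (nat_lit 0x9a1f4)))))) (a (u (nat_lit 7) (u (nat_lit 7) (k (nat_lit 0xa0417e)))) (u (nat_lit 6) (u (nat_lit 6) (k (nat_lit 0x99930))))))) (t (nat_lit 5) (nat_lit 8) (nat_lit 9) (a (a (u (nat_lit 7) (v (nat_lit 7) (k (nat_lit 0x3b59362)))) (v (nat_lit 6) (u (nat_lit 8) (k (nat_lit 0x98ee0))))) (a (u (nat_lit 5) (v (nat_lit 7) (k (nat_lit 0x93ecf4)))) (t (nat_lit 5) (nat_lit 8) (nat_lit 9) (a (u (nat_lit 8) (k (nat_lit 0x98ef8))) (a (u (nat_lit 6) (k (nat_lit 0x1d76d32))) (u (nat_lit 5) (k (nat_lit 0x98ef8))))))))))))))))) (a (a (a (v (nat_lit 4) (a (a (a (u (nat_lit 8) (v (nat_lit 8) (a (u (nat_lit 9) (k (nat_lit 0x78cef22))) (v (nat_lit 8) (k (nat_lit 0x9d1d6)))))) (u (nat_lit 7) (a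 (u (nat_lit 8) (v (nat_lit 8) (k (nat_lit 0x9cea6)))) (u (nat_lit 7) (v (nat_lit 7) (k (nat_lit 0x99438))))))) (a (v (nat_lit 6) (a (u (nat_lit 9) (v (nat_lit 9) (k (nat_lit 0x13491c)))) (a (u (nat_lit 7) (u (nat_lit 7) (k (nat_lit 0xc0fa8)))) (v (nat_lit 6) (a (u (nat_lit 9) (k (nat_lit 0x991da))) (u (nat_lit 8) (k (nat_lit 0x99222)))))))) (u (nat_lit 6) (a (a (v (nat_lit 9) (v (nat_lit 9) (k (nat_lit 0x97e66)))) (v (nat_lit 8) (v (nat_lit 8) (k (nat_lit 0x4f53e70))))) (a (v (nat_lit 7) (a (v (nat_lit 9) (k (nat_lit 0x991fe))) (a (v (nat_lit 8) (k (nat_lit 0x99b82))) (v (nat_lit 7) (k (nat_lit 0x99516)))))) (a (v (nat_lit 6) (v (nat_lit 6) (k (nat_lit 0xb29c8)))) (u (nat_lit 6) (v (nat_lit 7) (k (nat_lit 0xf38f82)))))))))) (a (a (v (nat_lit 5) (a (u (nat_lit 6) (a (v (nat_lit 9) (k (nat_lit 0x990b4))) (a (v (nat_lit 8) (k (nat_lit 0x371ca60)))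 (v (nat_lit 7) (k (nat_lit 0x981de)))))) (v (nat_lit 5) (u (nat_lit 6) (k (nat_lit 0x9bea4)))))) (u (nat_lit 5) (a (v (nat_lit 6) (v (nat_lit 6) (k (nat_lit 0x99660)))) (u (nat_lit 5) (a (v (nat_lit 9) (k (nat_lit 0x9992a))) (u (nat_lit 5) (k (nat_lit 0x193b774)))))))) (a (t (nat_lit 5) (nat_lit 8) (nat_lit 9) (t (nat_lit 5) (nat_lit 8) (nat_lit 9) (u (nat_lit 5) (k (nat_lit 0x98ee0))))) (v (nat_lit 4) (a (a (a (u (nat_lit 9) (v (nat_lit 9) (k (nat_lit 0x996ae)))) (u (nat_lit 8) (a (v (nat_lit 9) (k (nat_lit 0x991aa))) (a (v (nat_lit 8) (k (nat_lit 0x99330))) (u (nat_lit 8) (k (nat_lit 0xc85140c))))))) (a (u (nat_lit 7) (v (nat_lit 9) (k (nat_lit 0x99912)))) (v (nat_lit 6) (a (u (nat_lit 9) (k (nat_lit 0x991da))) (u (nat_lit 8) (k (nat_lit 0x99660))))))) (a (a (u (nat_lit 6) (a (a (v (nat_lit 9) (k (nat_lit 0x99372))) (v (nat_lit 8) (k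 (nat_lit 0x99b58)))) (a (v (nat_lit 7) (k (nat_lit 0x9a218))) (v (nat_lit 6) (k (nat_lit 0x995dc)))))) (v (nat_lit 5) (u (nat_lit 6) (k (nat_lit 0x99fea))))) (a (u (nat_lit 5) (a (v (nat_lit 9) (k (nat_lit 0x990de))) (a (v (nat_lit 8) (k (nat_lit 0x99684))) (v (nat_lit 6) (k (nat_lit 0x99222)))))) (a (t (nat_lit 5) (nat_lit 8) (nat_lit 9) (u (nat_lit 6) (k (nat_lit 0x9919e)))) (v (nat_lit 4) (u (nat_lit 6) (k (nat_lit 0x116808))))))))))))) (u (nat_lit 4) (a (a (a (v (nat_lit 9) (v (nat_lit 9) (v (nat_lit 9) (k (nat_lit 0x98d3c))))) (v (nat_lit 8) (a (v (nat_lit 9) (v (nat_lit 9) (k (nat_lit 0x98e2c)))) (v (nat_lit 8) (a (v (nat_lit 9) (k (nat_lit 0x98e74))) (v (nat_lit 8) (k (nat_lit 0x98b5c)))))))) (a (v (nat_lit 7) (a (a (v (nat_lit 9) (v (nat_lit 9) (k (nat_lit 0xfd72e)))) (v (nat_lit 8) (a (v (nat_lit 9) (k (nat_lit 0x9973e))) (v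 (nat_lit 8) (k (nat_lit 0x991ce)))))) (a (u (nat_lit 8) (v (nat_lit 8) (k (nat_lit 0x29a024)))) (v (nat_lit 7) (a (a (v (nat_lit 9) (k (nat_lit 0x991e0))) (v (nat_lit 8) (k (nat_lit 0x99414)))) (a (u (nat_lit 8) (k (nat_lit 0x82e06d8))) (v (nat_lit 7) (k (nat_lit 0x9a074))))))))) (u (nat_lit 7) (v (nat_lit 7) (v (nat_lit 7) (k (nat_lit 0x998b8))))))) (a (a (v (nat_lit 6) (a (a (v (nat_lit 9) (v (nat_lit 9) (k (nat_lit 0x97e66)))) (v (nat_lit 8) (a (v (nat_lit 9) (k (nat_lit 0x990b4))) (v (nat_lit 8) (k (nat_lit 0x9bea4)))))) (a (v (nat_lit 7) (a (v (nat_lit 9) (k (nat_lit 0x9971a))) (a (v (nat_lit 8) (k (nat_lit 0x9b27a))) (v (nat_lit 7) (k (nat_lit 0x9a1e2)))))) (a (u (nat_lit 7) (v (nat_lit 7) (k (nat_lit 0x996cc)))) (v (nat_lit 6) (a (a (v (nat_lit 9) (k (nat_lit 0x99372))) (v (nat_lit 8) (k (nat_lit 0x99fea)))) (a (v (nat_lit 7) (k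 (nat_lit 0x99822))) (v (nat_lit 6) (k (nat_lit 0x116808)))))))))) (v (nat_lit 5) (a (a (v (nat_lit 9) (v (nat_lit 9) (k (nat_lit 0x98e68)))) (a (v (nat_lit 8) (a (v (nat_lit 9) (k (nat_lit 0x98ee0))) (v (nat_lit 8) (k (nat_lit 0x990c6))))) (v (nat_lit 7) (a (v (nat_lit 9) (k (nat_lit 0x9925e))) (a (v (nat_lit 8) (k (nat_lit 0x9f6e4))) (v (nat_lit 7) (k (nat_lit 0x99f0c)))))))) (a (v (nat_lit 6) (a (a (v (nat_lit 8) (k (nat_lit 0x371ca60))) (v (nat_lit 7) (k (nat_lit 0x9b2b6)))) (a (u (nat_lit 7) (k (nat_lit 0x8f9bab8))) (v (nat_lit 6) (k (nat_lit 0x99b58)))))) (a (u (nat_lit 6) (v (nat_lit 6) (k (nat_lit 0x1735d0dc)))) (v (nat_lit 5) (a (a (v (nat_lit 9) (k (nat_lit 0x98f10))) (v (nat_lit 8) (k (nat_lit 0x991fe)))) (a (v (nat_lit 7) (k (nat_lit 0x996b4))) (a (v (nat_lit 6) (k (nat_lit 0x4f53e70))) (v (nat_lit 5) (k (nat_lit 0x98ef2))))))))))))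 (a (t (nat_lit 5) (nat_lit 8) (nat_lit 9) (a (a (u (nat_lit 9) (v (nat_lit 9) (k (nat_lit 0x11405ee)))) (a (u (nat_lit 7) (a (u (nat_lit 9) (k (nat_lit 0x10e4a46))) (v (nat_lit 8) (k (nat_lit 0x188c9ac))))) (v (nat_lit 6) (v (nat_lit 6) (k (nat_lit 0x9919e)))))) (a (u (nat_lit 6) (u (nat_lit 6) (k (nat_lit 0x69b7d56)))) (a (u (nat_lit 5) (v (nat_lit 5) (k (nat_lit 0x94a5b0)))) (t (nat_lit 5) (nat_lit 8) (nat_lit 9) (t (nat_lit 5) (nat_lit 8) (nat_lit 9) (k (nat_lit 0x1d76d32)))))))) (a (v (nat_lit 4) (a (a (v (nat_lit 8) (v (nat_lit 8) (k (nat_lit 0x9e574)))) (a (v (nat_lit 7) (a (v (nat_lit 9) (k (nat_lit 0x996e4))) (a (v (nat_lit 8) (k (nat_lit 0x99d9e))) (v (nat_lit 7) (k (nat_lit 0x991c8)))))) (v (nat_lit 6) (v (nat_lit 6) (k (nat_lit 0x995dc)))))) (a (u (nat_lit 6) (v (nat_lit 8) (k (nat_lit 0x1735d0dc)))) (a (v (nat_lit 5) (a (v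 (nat_lit 7) (k (nat_lit 0x993ea))) (v (nat_lit 5) (k (nat_lit 0x991bc))))) (v (nat_lit 4) (a (a (v (nat_lit 9) (k (nat_lit 0x99cde))) (a (v (nat_lit 8) (k (nat_lit 0x9a2de))) (v (nat_lit 7) (k (nat_lit 0x12f96c))))) (a (a (v (nat_lit 6) (k (nat_lit 0xb29c8))) (v (nat_lit 5) (k (nat_lit 0x99630)))) (a (u (nat_lit 5) (k (nat_lit 0x99c4e))) (v (nat_lit 4) (k (nat_lit 0x1cb6fc))))))))))) (u (nat_lit 4) (a (v (nat_lit 6) (v (nat_lit 7) (k (nat_lit 0x7eceda8)))) (a (t (nat_lit 5) (nat_lit 8) (nat_lit 9) (a (a (u (nat_lit 9) (k (nat_lit 0x624428a))) (u (nat_lit 8) (k (nat_lit 0x99930)))) (a (u (nat_lit 7) (k (nat_lit 0x603d092))) (a (u (nat_lit 6) (k (nat_lit 0x69b7d56))) (v (nat_lit 5) (k (nat_lit 0x99ec4))))))) (v (nat_lit 4) (a (v (nat_lit 8) (k (nat_lit 0x9a4c4))) (a (t (nat_lit 5) (nat_lit 8) (nat_lit 9) (k (nat_lit 0x995fa))) (v (nat_lit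 4) (k (nat_lit 0x99294))))))))))))))) (a (v (nat_lit 3) (a (a (a (u (nat_lit 9) (u (nat_lit 9) (u (nat_lit 9) (k (nat_lit 0x9a4b8))))) (a (v (nat_lit 8) (u (nat_lit 9) (v (nat_lit 9) (k (nat_lit 0x99630))))) (u (nat_lit 8) (v (nat_lit 8) (a (v (nat_lit 9) (k (nat_lit 0x991bc))) (v (nat_lit 8) (k (nat_lit 0x98d18)))))))) (a (v (nat_lit 7) (a (a (u (nat_lit 9) (a (v (nat_lit 9) (k (nat_lit 0x1324d4))) (u (nat_lit 9) (k (nat_lit 0x8dfba24))))) (v (nat_lit 8) (u (nat_lit 9) (k (nat_lit 0x99924))))) (a (u (nat_lit 8) (v (nat_lit 8) (k (nat_lit 0x9933c)))) (v (nat_lit 7) (a (u (nat_lit 9) (k (nat_lit 0x2be3102))) (u (nat_lit 8) (k (nat_lit 0x993ba)))))))) (a (u (nat_lit 7) (v (nat_lit 7) (a (v (nat_lit 8) (k (nat_lit 0x98e92))) (v (nat_lit 7) (k (nat_lit 0xb29c8)))))) (v (nat_lit 6) (a (v (nat_lit 7) (u (nat_lit 8) (k (nat_lit 0x98f1c)))) (a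 (u (nat_lit 7) (u (nat_lit 7) (k (nat_lit 0x7eceda8)))) (v (nat_lit 6) (u (nat_lit 7) (k (nat_lit 0x9a1e2)))))))))) (a (a (u (nat_lit 6) (a (a (v (nat_lit 9) (v (nat_lit 9) (k (nat_lit 0xfd72e)))) (v (nat_lit 8) (a (v (nat_lit 9) (k (nat_lit 0x9925e))) (v (nat_lit 8) (k (nat_lit 0x996b4)))))) (a (v (nat_lit 7) (u (nat_lit 9) (k (nat_lit 0x9d110)))) (a (v (nat_lit 6) (a (a (v (nat_lit 9) (k (nat_lit 0x996e4))) (v (nat_lit 8) (k (nat_lit 0x993ea)))) (a (u (nat_lit 7) (k (nat_lit 0x996cc))) (v (nat_lit 6) (k (nat_lit 0x12f96c)))))) (u (nat_lit 6) (v (nat_lit 7) (k (nat_lit 0xc0fa8)))))))) (a (v (nat_lit 5) (a (a (u (nat_lit 9) (v (nat_lit 9) (k (nat_lit 0x99462)))) (u (nat_lit 8) (v (nat_lit 8) (k (nat_lit 0x99552))))) (a (v (nat_lit 7) (a (u (nat_lit 9) (k (nat_lit 0x99924))) (u (nat_lit 8) (k (nat_lit 0x99864))))) (a (u (nat_lit 6) (a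 (v (nat_lit 9) (k (nat_lit 0x9973e))) (a (v (nat_lit 8) (k (nat_lit 0x9f6e4))) (v (nat_lit 6) (k (nat_lit 0x99d9e)))))) (v (nat_lit 5) (a (u (nat_lit 9) (k (nat_lit 0x991bc))) (a (u (nat_lit 7) (k (nat_lit 0x991aa))) (u (nat_lit 6) (k (nat_lit 0x991ce)))))))))) (u (nat_lit 5) (a (a (u (nat_lit 9) (u (nat_lit 9) (k (nat_lit 0xf93a45e)))) (v (nat_lit 8) (a (v (nat_lit 9) (k (nat_lit 0x990cc))) (v (nat_lit 8) (k (nat_lit 0x9a75e)))))) (a (v (nat_lit 7) (a (v (nat_lit 8) (k (nat_lit 0x99864))) (v (nat_lit 7) (k (nat_lit 0x9958e))))) (v (nat_lit 5) (a (a (v (nat_lit 8) (k (nat_lit 0x99990))) (v (nat_lit 7) (k (nat_lit 0x9933c)))) (a (u (nat_lit 7) (k (nat_lit 0x9c3d2))) (u (nat_lit 6) (k (nat_lit 0x29a024))))))))))) (a (a (t (nat_lit 5) (nat_lit 8) (nat_lit 9) (t (nat_lit 5) (nat_lit 8) (nat_lit 9) (a (u (nat_lit 8) (k (nat_lit 0x93ecf4)))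 (u (nat_lit 7) (k (nat_lit 0x4530936)))))) (v (nat_lit 4) (a (a (a (u (nat_lit 9) (v (nat_lit 9) (k (nat_lit 0x98532)))) (v (nat_lit 8) (u (nat_lit 9) (k (nat_lit 0x99d38))))) (a (u (nat_lit 8) (a (v (nat_lit 8) (k (nat_lit 0x96efa))) (u (nat_lit 8) (k (nat_lit 0x9926a))))) (u (nat_lit 7) (a (v (nat_lit 9) (k (nat_lit 0x99804))) (a (v (nat_lit 8) (k (nat_lit 0x99e70))) (u (nat_lit 7) (k (nat_lit 0xf38f82)))))))) (a (a (v (nat_lit 6) (u (nat_lit 7) (k (nat_lit 0x9921c)))) (u (nat_lit 6) (a (a (v (nat_lit 9) (k (nat_lit 0x9971a))) (v (nat_lit 8) (k (nat_lit 0x9b2b6)))) (a (v (nat_lit 7) (k (nat_lit 0x9921c))) (u (nat_lit 6) (k (nat_lit 0x7eceda8))))))) (a (v (nat_lit 5) (a (a (u (nat_lit 9) (k (nat_lit 0x99ace))) (u (nat_lit 8) (k (nat_lit 0x98bc2)))) (a (u (nat_lit 7) (k (nat_lit 0x99ef4))) (u (nat_lit 6) (k (nat_lit 0x9b27a)))))) (a (u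 (nat_lit 5) (a (v (nat_lit 8) (k (nat_lit 0x9a7dc))) (v (nat_lit 7) (k (nat_lit 0x98f1c))))) (v (nat_lit 4) (a (a (u (nat_lit 8) (k (nat_lit 0x99300))) (u (nat_lit 7) (k (nat_lit 0x99516)))) (a (u (nat_lit 6) (k (nat_lit 0x99822))) (u (nat_lit 5) (k (nat_lit 0x97bc0)))))))))))) (a (u (nat_lit 4) (a (a (v (nat_lit 9) (v (nat_lit 9) (k (nat_lit 0x9957c)))) (a (v (nat_lit 8) (a (v (nat_lit 9) (k (nat_lit 0x99b40))) (v (nat_lit 8) (k (nat_lit 0x6b622cc))))) (v (nat_lit 7) (u (nat_lit 9) (k (nat_lit 0x9d110)))))) (a (a (v (nat_lit 6) (a (a (v (nat_lit 9) (k (nat_lit 0x991fe))) (v (nat_lit 8) (k (nat_lit 0x981de)))) (a (v (nat_lit 7) (k (nat_lit 0x9921c))) (v (nat_lit 6) (k (nat_lit 0x9a218)))))) (v (nat_lit 5) (a (a (v (nat_lit 9) (k (nat_lit 0x99d50))) (v (nat_lit 8) (k (nat_lit 0x99a62)))) (a (v (nat_lit 6) (k (nat_lit 0x99b82))) (v (nat_lit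 5) (k (nat_lit 0x9af20))))))) (a (v (nat_lit 4) (a (v (nat_lit 9) (k (nat_lit 0x99a50))) (u (nat_lit 5) (k (nat_lit 0x97dd6))))) (u (nat_lit 4) (a (v (nat_lit 7) (k (nat_lit 0xc0fa8))) (a (v (nat_lit 6) (k (nat_lit 0xf38f82))) (v (nat_lit 4) (k (nat_lit 0x99438)))))))))) (v (nat_lit 3) (a (a (a (u (nat_lit 8) (u (nat_lit 9) (k (nat_lit 0x26eeb16)))) (v (nat_lit 7) (a (u (nat_lit 9) (k (nat_lit 0x2be3102))) (u (nat_lit 8) (k (nat_lit 0x9958e)))))) (a (u (nat_lit 7) (a (v (nat_lit 8) (k (nat_lit 0x9b5ec))) (v (nat_lit 7) (k (nat_lit 0x995dc))))) (a (v (nat_lit 6) (u (nat_lit 7) (k (nat_lit 0x99822)))) (u (nat_lit 6) (a (v (nat_lit 9) (k (nat_lit 0x991e0))) (a (v (nat_lit 8) (k (nat_lit 0x99f0c))) (v (nat_lit 6) (k (nat_lit 0x991c8))))))))) (a (a (v (nat_lit 5) (a (u (nat_lit 7) (k (nat_lit 0x99072))) (u (nat_lit 6) (k (nat_lit 0x99414)))))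 (u (nat_lit 5) (a (v (nat_lit 7) (k (nat_lit 0x993ba))) (u (nat_lit 6) (k (nat_lit 0x82e06d8)))))) (a (v (nat_lit 4) (a (a (u (nat_lit 9) (k (nat_lit 0x98268))) (u (nat_lit 8) (k (nat_lit 0x9a5ae)))) (a (u (nat_lit 7) (k (nat_lit 0x9a218))) (a (u (nat_lit 6) (k (nat_lit 0x9a1e2))) (u (nat_lit 5) (k (nat_lit 0x99114))))))) (a (u (nat_lit 4) (a (a (v (nat_lit 9) (k (nat_lit 0x9963c))) (u (nat_lit 9) (k (nat_lit 0x10bef46)))) (a (v (nat_lit 8) (k (nat_lit 0x9a386))) (v (nat_lit 6) (k (nat_lit 0x99516)))))) (v (nat_lit 3) (a (u (nat_lit 7) (k (nat_lit 0x116808))) (u (nat_lit 6) (k (nat_lit 0x9a074))))))))))))))) (a (u (nat_lit 3) (a (a (a (v (nat_lit 9) (v (nat_lit 9) (v (nat_lit 9) (k (nat_lit 0x98d48))))) (v (nat_lit 7) (a (v (nat_lit 8) (v (nat_lit 8) (k (nat_lit 0x991aa)))) (a (u (nat_lit 8) (v (nat_lit 8) (k (nat_lit 0x9c3d2)))) (v (nat_lit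 7) (a (v (nat_lit 8) (k (nat_lit 0x99072))) (v (nat_lit 7) (k (nat_lit 0x116808))))))))) (a (v (nat_lit 6) (a (v (nat_lit 7) (a (v (nat_lit 9) (k (nat_lit 0x99804))) (a (v (nat_lit 8) (k (nat_lit 0x99ef4))) (v (nat_lit 7) (k (nat_lit 0x9a218)))))) (v (nat_lit 6) (a (v (nat_lit 9) (k (nat_lit 0x99912))) (v (nat_lit 7) (k (nat_lit 0x99516))))))) (a (v (nat_lit 5) (a (v (nat_lit 7) (v (nat_lit 7) (k (nat_lit 0x9b5ec)))) (a (v (nat_lit 6) (v (nat_lit 7) (k (nat_lit 0x99e70)))) (v (nat_lit 5) (v (nat_lit 5) (k (nat_lit 0x990c0))))))) (u (nat_lit 5) (v (nat_lit 5) (v (nat_lit 6) (k (nat_lit 0x9cea6)))))))) (a (a (t (nat_lit 5) (nat_lit 8) (nat_lit 9) (a (a (u (nat_lit 7) (a (u (nat_lit 9) (k (nat_lit 0x1332fc))) (u (nat_lit 7) (k (nat_lit 0x9c4bbee))))) (u (nat_lit 6) (a (u (nat_lit 9) (k (nat_lit 0x10e4a46))) (u (nat_lit 6) (k (nat_lit 0x603d092))))))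 (a (v (nat_lit 5) (u (nat_lit 6) (k (nat_lit 0x188c9ac)))) (t (nat_lit 5) (nat_lit 8) (nat_lit 9) (v (nat_lit 7) (k (nat_lit 0x4530936))))))) (v (nat_lit 4) (a (a (v (nat_lit 9) (v (nat_lit 9) (k (nat_lit 0x9a482)))) (a (v (nat_lit 8) (a (v (nat_lit 9) (k (nat_lit 0x97ecc))) (v (nat_lit 8) (k (nat_lit 0x9f048))))) (v (nat_lit 7) (v (nat_lit 7) (k (nat_lit 0x99822)))))) (a (a (v (nat_lit 6) (v (nat_lit 7) (k (nat_lit 0x9921c)))) (u (nat_lit 6) (v (nat_lit 8) (k (nat_lit 0x8f9bab8))))) (a (v (nat_lit 5) (a (v (nat_lit 9) (k (nat_lit 0x98da2))) (a (v (nat_lit 8) (k (nat_lit 0x99924))) (v (nat_lit 5) (k (nat_lit 0x97440)))))) (v (nat_lit 4) (a (a (v (nat_lit 9) (k (nat_lit 0x99408))) (v (nat_lit 7) (k (nat_lit 0x9a1e2)))) (a (u (nat_lit 5) (k (nat_lit 0x5082c36))) (v (nat_lit 4) (k (nat_lit 0x9a074))))))))))) (a (u (nat_lit 4) (a (t (nat_lit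 5) (nat_lit 8) (nat_lit 9) (v (nat_lit 5) (k (nat_lit 0x59d73c8)))) (v (nat_lit 4) (a (v (nat_lit 7) (k (nat_lit 0x996cc))) (v (nat_lit 4) (k (nat_lit 0x998b8))))))) (a (v (nat_lit 3) (a (a (a (v (nat_lit 9) (v (nat_lit 9) (k (nat_lit 0x997b6)))) (v (nat_lit 8) (a (v (nat_lit 9) (k (nat_lit 0x9918c))) (v (nat_lit 8) (k (nat_lit 0x996b4)))))) (a (u (nat_lit 8) (u (nat_lit 8) (k (nat_lit 0x522fa8)))) (v (nat_lit 7) (v (nat_lit 7) (k (nat_lit 0x995dc)))))) (a (a (v (nat_lit 5) (a (a (v (nat_lit 9) (k (nat_lit 0x9949e))) (v (nat_lit 8) (k (nat_lit 0x9f390)))) (a (v (nat_lit 7) (k (nat_lit 0x98e92))) (v (nat_lit 5) (k (nat_lit 0x990de)))))) (u (nat_lit 5) (v (nat_lit 5) (k (nat_lit 0x9b90a))))) (a (t (nat_lit 5) (nat_lit 8) (nat_lit 9) (t (nat_lit 5) (nat_lit 8) (nat_lit 9) (k (nat_lit 0x3b59362)))) (a (v (nat_lit 4) (a (a (v (nat_lit 9) (k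 (nat_lit 0x9a296))) (v (nat_lit 8) (k (nat_lit 0x98898)))) (a (u (nat_lit 6) (k (nat_lit 0x996cc))) (v (nat_lit 4) (k (nat_lit 0x991c8)))))) (v (nat_lit 3) (a (a (a (v (nat_lit 9) (k (nat_lit 0x1b17d84))) (v (nat_lit 8) (k (nat_lit 0x99fcc)))) (a (u (nat_lit 8) (k (nat_lit 0x99438))) (v (nat_lit 7) (k (nat_lit 0xb29c8))))) (a (a (u (nat_lit 6) (k (nat_lit 0x998b8))) (v (nat_lit 5) (k (nat_lit 0x1283d534)))) (a (v (nat_lit 4) (k (nat_lit 0x12f96c))) (v (nat_lit 3) (k (nat_lit 0x1cb6fc)))))))))))) (u (nat_lit 3) (a (a (v (nat_lit 6) (v (nat_lit 7) (k (nat_lit 0xf38f82)))) (t (nat_lit 5) (nat_lit 8) (nat_lit 9) (a (u (nat_lit 8) (k (nat_lit 0xa0417e))) (a (u (nat_lit 7) (k (nat_lit 0x9c4bbee))) (v (nat_lit 5) (k (nat_lit 0x12593af6))))))) (a (v (nat_lit 4) (a (v (nat_lit 7) (k (nat_lit 0x7eceda8))) (v (nat_lit 6) (k (nat_lit 0xc0fa8)))))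 (v (nat_lit 3) (a (v (nat_lit 6) (k (nat_lit 0x99438))) (v (nat_lit 3) (k (nat_lit 0x99294))))))))))))) (v (nat_lit 2) (a (a (a (u (nat_lit 9) (v (nat_lit 9) (v (nat_lit 9) (k (nat_lit 0x98d54))))) (a (v (nat_lit 8) (v (nat_lit 8) (u (nat_lit 9) (k (nat_lit 0x98db4))))) (u (nat_lit 8) (a (v (nat_lit 9) (v (nat_lit 9) (k (nat_lit 0x98e08)))) (v (nat_lit 8) (v (nat_lit 8) (k (nat_lit 0x99174)))))))) (a (a (v (nat_lit 7) (a (u (nat_lit 9) (u (nat_lit 9) (k (nat_lit 0x98c28)))) (v (nat_lit 7) (u (nat_lit 8) (k (nat_lit 0x992b2)))))) (u (nat_lit 7) (a (v (nat_lit 9) (v (nat_lit 9) (k (nat_lit 0x98106)))) (a (v (nat_lit 8) (a (v (nat_lit 9) (k (nat_lit 0x98ec2))) (v (nat_lit 8) (k (nat_lit 0x98e74))))) (v (nat_lit 7) (v (nat_lit 7) (k (nat_lit 0x99630)))))))) (a (v (nat_lit 6) (a (a (u (nat_lit 9) (v (nat_lit 9) (k (nat_lit 0x98f22)))) (v (nat_lit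 8) (u (nat_lit 9) (k (nat_lit 0x997aa))))) (a (v (nat_lit 7) (a (u (nat_lit 9) (k (nat_lit 0x9cdfe))) (u (nat_lit 8) (k (nat_lit 0x9955e))))) (a (u (nat_lit 7) (a (v (nat_lit 9) (k (nat_lit 0x97af4))) (v (nat_lit 7) (k (nat_lit 0x993ea))))) (v (nat_lit 6) (a (u (nat_lit 9) (k (nat_lit 0x9cd4a))) (a (u (nat_lit 8) (k (nat_lit 0x99a56))) (u (nat_lit 7) (k (nat_lit 0x99f0c)))))))))) (u (nat_lit 6) (a (a (v (nat_lit 9) (v (nat_lit 9) (k (nat_lit 0x9919e)))) (v (nat_lit 8) (a (v (nat_lit 9) (k (nat_lit 0x98ec2))) (v (nat_lit 8) (k (nat_lit 0x99462)))))) (a (v (nat_lit 7) (v (nat_lit 9) (k (nat_lit 0x9786c)))) (a (v (nat_lit 6) (v (nat_lit 6) (k (nat_lit 0x99fcc)))) (u (nat_lit 6) (v (nat_lit 8) (k (nat_lit 0x99324))))))))))) (a (a (a (v (nat_lit 5) (a (a (u (nat_lit 7) (a (v (nat_lit 9) (k (nat_lit 0x98ebc))) (a (v (nat_lit 8) (k (nat_lit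 0x99204))) (u (nat_lit 7) (k (nat_lit 0x99324)))))) (v (nat_lit 6) (a (u (nat_lit 9) (k (nat_lit 0x993e4))) (a (u (nat_lit 8) (k (nat_lit 0x9912c))) (u (nat_lit 7) (k (nat_lit 0x98cfa))))))) (a (u (nat_lit 6) (a (v (nat_lit 9) (k (nat_lit 0x98ed4))) (a (v (nat_lit 8) (k (nat_lit 0x99018))) (v (nat_lit 7) (k (nat_lit 0x9b38e)))))) (v (nat_lit 5) (a (u (nat_lit 9) (k (nat_lit 0x98f1c))) (a (u (nat_lit 8) (k (nat_lit 0x96948))) (u (nat_lit 6) (k (nat_lit 0x99072))))))))) (u (nat_lit 5) (a (a (v (nat_lit 9) (v (nat_lit 9) (k (nat_lit 0x98eaa)))) (v (nat_lit 8) (a (v (nat_lit 9) (k (nat_lit 0x9907e))) (v (nat_lit 8) (k (nat_lit 0x99018)))))) (a (v (nat_lit 6) (a (v (nat_lit 7) (k (nat_lit 0x97a64))) (v (nat_lit 6) (k (nat_lit 0x2e6da30))))) (v (nat_lit 5) (v (nat_lit 5) (k (nat_lit 0x990ae)))))))) (a (t (nat_lit 5) (nat_lit 8) (nat_lit 9)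 (u (nat_lit 6) (v (nat_lit 8) (k (nat_lit 0x9b07c))))) (v (nat_lit 4) (a (a (u (nat_lit 7) (v (nat_lit 8) (k (nat_lit 0x9b1cc)))) (u (nat_lit 6) (a (v (nat_lit 9) (k (nat_lit 0x9848a))) (a (v (nat_lit 8) (k (nat_lit 0x6dec936))) (v (nat_lit 7) (k (nat_lit 0x99ef4))))))) (a (v (nat_lit 5) (u (nat_lit 6) (k (nat_lit 0x99a6bc)))) (v (nat_lit 4) (u (nat_lit 6) (k (nat_lit 0x99072))))))))) (a (a (u (nat_lit 4) (a (a (v (nat_lit 6) (a (v (nat_lit 9) (k (nat_lit 0x9a34a))) (a (v (nat_lit 8) (k (nat_lit 0x98226))) (v (nat_lit 6) (k (nat_lit 0x9b5ec)))))) (v (nat_lit 5) (v (nat_lit 6) (k (nat_lit 0x995be))))) (a (t (nat_lit 5) (nat_lit 8) (nat_lit 9) (a (u (nat_lit 9) (k (nat_lit 0x9d66e))) (v (nat_lit 8) (k (nat_lit 0x5ba47c8))))) (v (nat_lit 4) (a (v (nat_lit 6) (k (nat_lit 0x98e92))) (v (nat_lit 4) (k (nat_lit 0x1283d534)))))))) (v (nat_lit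 3) (a (a (a (u (nat_lit 9) (a (v (nat_lit 9) (k (nat_lit 0x99684))) (u (nat_lit 9) (k (nat_lit 0x7512f00))))) (v (nat_lit 8) (u (nat_lit 9) (k (nat_lit 0x99444))))) (a (v (nat_lit 7) (u (nat_lit 8) (k (nat_lit 0x998d6)))) (a (u (nat_lit 7) (a (v (nat_lit 8) (k (nat_lit 0x995be))) (u (nat_lit 8) (k (nat_lit 0x10302f54))))) (v (nat_lit 6) (u (nat_lit 7) (k (nat_lit 0x9b2b6))))))) (a (a (u (nat_lit 6) (a (v (nat_lit 8) (k (nat_lit 0x98cfa))) (a (u (nat_lit 7) (k (nat_lit 0x8f9bab8))) (v (nat_lit 6) (k (nat_lit 0x98898)))))) (a (v (nat_lit 5) (a (u (nat_lit 9) (k (nat_lit 0x9837c))) (a (u (nat_lit 7) (k (nat_lit 0x6dec936))) (u (nat_lit 6) (k (nat_lit 0x9aea8)))))) (u (nat_lit 5) (a (v (nat_lit 9) (k (nat_lit 0x9aa1c))) (v (nat_lit 8) (k (nat_lit 0x99288))))))) (a (v (nat_lit 4) (a (u (nat_lit 7) (k (nat_lit 0x99b82))) (u (nat_lit 5) (k (nat_lit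 0x9971a))))) (a (u (nat_lit 4) (a (v (nat_lit 6) (k (nat_lit 0x99e70))) (v (nat_lit 5) (k (nat_lit 0x9b1cc))))) (v (nat_lit 3) (a (u (nat_lit 7) (k (nat_lit 0x99b58))) (u (nat_lit 5) (k (nat_lit 0x9919e))))))))))) (a (u (nat_lit 3) (a (a (v (nat_lit 8) (v (nat_lit 8) (k (nat_lit 0x98c2e)))) (a (v (nat_lit 7) (a (v (nat_lit 9) (k (nat_lit 0x9a788))) (a (v (nat_lit 8) (k (nat_lit 0x99a6bc))) (v (nat_lit 7) (k (nat_lit 0x99fea)))))) (v (nat_lit 6) (a (a (v (nat_lit 9) (k (nat_lit 0x9b520))) (v (nat_lit 8) (k (nat_lit 0x9b38e)))) (a (u (nat_lit 8) (k (nat_lit 0x99654))) (a (v (nat_lit 7) (k (nat_lit 0x981de))) (v (nat_lit 6) (k (nat_lit 0x9a386))))))))) (a (a (v (nat_lit 5) (a (v (nat_lit 7) (k (nat_lit 0x98226))) (v (nat_lit 5) (k (nat_lit 0x9b8fe))))) (v (nat_lit 4) (a (a (v (nat_lit 9) (k (nat_lit 0x992ee))) (v (nat_lit 8) (k (nat_lit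 0x9aea8)))) (a (v (nat_lit 7) (k (nat_lit 0x9b27a))) (v (nat_lit 4) (k (nat_lit 0x99414))))))) (a (v (nat_lit 3) (a (a (u (nat_lit 8) (k (nat_lit 0x9c2a6))) (u (nat_lit 7) (k (nat_lit 0x1735d0dc)))) (a (v (nat_lit 4) (k (nat_lit 0x99d9e))) (v (nat_lit 3) (k (nat_lit 0x9a2de)))))) (u (nat_lit 3) (v (nat_lit 3) (k (nat_lit 0x9a4c4)))))))) (v (nat_lit 2) (a (a (a (u (nat_lit 9) (v (nat_lit 9) (k (nat_lit 0x98ed4)))) (a (v (nat_lit 8) (u (nat_lit 9) (k (nat_lit 0x990cc)))) (v (nat_lit 7) (a (u (nat_lit 9) (k (nat_lit 0x99684))) (u (nat_lit 8) (k (nat_lit 0x9901e))))))) (a (u (nat_lit 7) (v (nat_lit 7) (k (nat_lit 0x991bc)))) (a (v (nat_lit 6) (a (u (nat_lit 8) (k (nat_lit 0x99ed0))) (u (nat_lit 7) (k (nat_lit 0x996b4))))) (u (nat_lit 6) (a (v (nat_lit 9) (k (nat_lit 0x98eec))) (v (nat_lit 6) (k (nat_lit 0x996b4)))))))) (a (a (v (nat_lit 5)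 (a (a (u (nat_lit 9) (k (nat_lit 0x9912c))) (u (nat_lit 8) (k (nat_lit 0x99060)))) (a (u (nat_lit 7) (k (nat_lit 0x99462))) (u (nat_lit 6) (k (nat_lit 0x98c2e)))))) (a (u (nat_lit 5) (a (v (nat_lit 7) (k (nat_lit 0x98d66))) (v (nat_lit 5) (k (nat_lit 0x98f64))))) (v (nat_lit 4) (a (a (u (nat_lit 9) (k (nat_lit 0x9a29c))) (u (nat_lit 8) (k (nat_lit 0x97488)))) (a (u (nat_lit 7) (k (nat_lit 0x9af20))) (u (nat_lit 6) (k (nat_lit 0x991aa)))))))) (a (a (u (nat_lit 4) (a (a (v (nat_lit 9) (k (nat_lit 0x9819c))) (v (nat_lit 8) (k (nat_lit 0x9b8fe)))) (a (v (nat_lit 7) (k (nat_lit 0x97440))) (a (v (nat_lit 5) (k (nat_lit 0x98e74))) (v (nat_lit 4) (k (nat_lit 0x990de))))))) (v (nat_lit 3) (a (u (nat_lit 7) (k (nat_lit 0x4f53e70))) (a (u (nat_lit 6) (k (nat_lit 0x9f048))) (u (nat_lit 5) (k (nat_lit 0x991b0))))))) (a (u (nat_lit 3) (a (a (v (nat_lit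 9) (k (nat_lit 0x99c66))) (a (v (nat_lit 8) (k (nat_lit 0x99072))) (v (nat_lit 7) (k (nat_lit 0x9bea4))))) (a (v (nat_lit 6) (k (nat_lit 0x6b622cc))) (a (v (nat_lit 4) (k (nat_lit 0x991ce))) (v (nat_lit 3) (k (nat_lit 0x9e574))))))) (v (nat_lit 2) (a (a (u (nat_lit 9) (k (nat_lit 0x998ee))) (u (nat_lit 7) (k (nat_lit 0x98ef2)))) (a (u (nat_lit 4) (k (nat_lit 0x990c0))) (u (nat_lit 3) (k (nat_lit 0x98b5c))))))))))))))))))) (a (a (u (nat_lit 2) (a (a (a (v (nat_lit 9) (v (nat_lit 9) (v (nat_lit 9) (k (nat_lit 0x991e0))))) (a (v (nat_lit 8) (a (v (nat_lit 9) (v (nat_lit 9) (k (nat_lit 0x98e74)))) (v (nat_lit 8) (v (nat_lit 9) (k (nat_lit 0x98f70)))))) (v (nat_lit 7) (a (u (nat_lit 9) (u (nat_lit 9) (k (nat_lit 0x4311e70)))) (a (u (nat_lit 8) (a (u (nat_lit 9) (k (nat_lit 0x11f67ea))) (v (nat_lit 8) (k (nat_lit 0x994e0))))) (v (nat_lit 7)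 (a (v (nat_lit 9) (k (nat_lit 0x9915c))) (u (nat_lit 9) (k (nat_lit 0x19fafbe)))))))))) (a (a (u (nat_lit 7) (a (u (nat_lit 8) (u (nat_lit 8) (k (nat_lit 0x98b44)))) (v (nat_lit 7) (v (nat_lit 7) (k (nat_lit 0x99c4e)))))) (v (nat_lit 6) (v (nat_lit 8) (v (nat_lit 8) (k (nat_lit 0x98d66)))))) (a (u (nat_lit 6) (v (nat_lit 6) (v (nat_lit 6) (k (nat_lit 0x99438))))) (v (nat_lit 5) (a (a (v (nat_lit 8) (v (nat_lit 9) (k (nat_lit 0x98ec8)))) (v (nat_lit 7) (v (nat_lit 7) (k (nat_lit 0x99a56))))) (a (u (nat_lit 6) (a (v (nat_lit 7) (k (nat_lit 0x99654))) (v (nat_lit 6) (k (nat_lit 0x9c2a6))))) (v (nat_lit 5) (a (v (nat_lit 8) (k (nat_lit 0x9c072))) (v (nat_lit 7) (k (nat_lit 0x99ed0))))))))))) (a (a (t (nat_lit 5) (nat_lit 8) (nat_lit 9) (a (u (nat_lit 9) (v (nat_lit 9) (k (nat_lit 0x991bc)))) (a (v (nat_lit 5) (a (v (nat_lit 9) (k (nat_lit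 0x9969c))) (u (nat_lit 8) (k (nat_lit 0x9902a))))) (t (nat_lit 5) (nat_lit 8) (nat_lit 9) (a (v (nat_lit 8) (k (nat_lit 0x11bb510))) (a (v (nat_lit 7) (k (nat_lit 0x2e00f68))) (u (nat_lit 5) (k (nat_lit 0x9925e))))))))) (a (v (nat_lit 4) (a (a (a (v (nat_lit 9) (v (nat_lit 9) (k (nat_lit 0x99750)))) (v (nat_lit 8) (a (v (nat_lit 9) (k (nat_lit 0x9938a))) (v (nat_lit 8) (k (nat_lit 0x991b0)))))) (a (v (nat_lit 7) (a (v (nat_lit 9) (k (nat_lit 0x99078))) (a (v (nat_lit 8) (k (nat_lit 0x9971a))) (v (nat_lit 7) (k (nat_lit 0x97bc0)))))) (u (nat_lit 7) (v (nat_lit 7) (k (nat_lit 0x97dd6)))))) (a (a (v (nat_lit 6) (a (v (nat_lit 7) (k (nat_lit 0x98f1c))) (v (nat_lit 6) (k (nat_lit 0x9958e))))) (v (nat_lit 5) (a (a (v (nat_lit 9) (k (nat_lit 0x99402))) (v (nat_lit 8) (k (nat_lit 0x999f0)))) (a (v (nat_lit 7) (k (nat_lit 0x9955e))) (a (v (nat_lit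 6) (k (nat_lit 0x998d6))) (v (nat_lit 5) (k (nat_lit 0x9901e)))))))) (a (u (nat_lit 5) (u (nat_lit 8) (k (nat_lit 0x7b86fe8)))) (a (t (nat_lit 5) (nat_lit 8) (nat_lit 9) (t (nat_lit 5) (nat_lit 8) (nat_lit 9) (k (nat_lit 0x9a24e)))) (v (nat_lit 4) (a (a (v (nat_lit 9) (k (nat_lit 0x994da))) (v (nat_lit 8) (k (nat_lit 0x9919e)))) (a (v (nat_lit 7) (k (nat_lit 0x99114))) (a (v (nat_lit 6) (k (nat_lit 0x993ba))) (v (nat_lit 5) (k (nat_lit 0x992b2)))))))))))) (u (nat_lit 4) (a (v (nat_lit 7) (a (u (nat_lit 9) (k (nat_lit 0xef1377a))) (v (nat_lit 7) (k (nat_lit 0x5082c36))))) (a (v (nat_lit 5) (v (nat_lit 6) (k (nat_lit 0x10302f54)))) (t (nat_lit 5) (nat_lit 8) (nat_lit 9) (u (nat_lit 7) (k (nat_lit 0xa69e1e))))))))) (a (a (v (nat_lit 3) (a (a (v (nat_lit 7) (a (u (nat_lit 9) (k (nat_lit 0x99c2a))) (v (nat_lit 7) (k (nat_lit 0x99222))))) (v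 (nat_lit 6) (a (v (nat_lit 8) (k (nat_lit 0x97a64))) (v (nat_lit 6) (k (nat_lit 0x9a5ae)))))) (a (v (nat_lit 5) (v (nat_lit 5) (k (nat_lit 0x97488)))) (a (t (nat_lit 5) (nat_lit 8) (nat_lit 9) (t (nat_lit 5) (nat_lit 8) (nat_lit 9) (k (nat_lit 0xe22d0e)))) (v (nat_lit 3) (a (a (v (nat_lit 9) (k (nat_lit 0x992ee))) (v (nat_lit 8) (k (nat_lit 0x2e6da30)))) (a (v (nat_lit 7) (k (nat_lit 0x99660))) (v (nat_lit 6) (k (nat_lit 0x99300)))))))))) (u (nat_lit 3) (a (v (nat_lit 7) (u (nat_lit 9) (k (nat_lit 0x999fc)))) (a (u (nat_lit 7) (v (nat_lit 9) (k (nat_lit 0x986fa)))) (v (nat_lit 4) (v (nat_lit 4) (k (nat_lit 0x82e06d8)))))))) (a (v (nat_lit 2) (a (a (v (nat_lit 8) (v (nat_lit 8) (k (nat_lit 0x98f64)))) (a (t (nat_lit 5) (nat_lit 8) (nat_lit 9) (v (nat_lit 8) (k (nat_lit 0x994e0)))) (v (nat_lit 4) (a (v (nat_lit 6) (k (nat_lit 0x9933c)))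 (a (u (nat_lit 6) (k (nat_lit 0x9c3d2))) (u (nat_lit 5) (k (nat_lit 0x994e0)))))))) (a (a (u (nat_lit 4) (a (t (nat_lit 5) (nat_lit 8) (nat_lit 9) (k (nat_lit 0x107d93e4))) (v (nat_lit 4) (k (nat_lit 0x9b90a))))) (v (nat_lit 3) (a (v (nat_lit 6) (k (nat_lit 0x96efa))) (a (u (nat_lit 4) (k (nat_lit 0x9cea6))) (v (nat_lit 3) (k (nat_lit 0x99330))))))) (a (u (nat_lit 3) (a (u (nat_lit 9) (k (nat_lit 0x98004))) (a (t (nat_lit 5) (nat_lit 8) (nat_lit 9) (k (nat_lit 0x3461aa2))) (v (nat_lit 4) (k (nat_lit 0x29a024)))))) (v (nat_lit 2) (a (a (v (nat_lit 9) (k (nat_lit 0x98c64))) (a (v (nat_lit 8) (k (nat_lit 0x990ae))) (v (nat_lit 6) (k (nat_lit 0x98d18))))) (a (a (v (nat_lit 5) (k (nat_lit 0x99174))) (t (nat_lit 5) (nat_lit 8) (nat_lit 9) (k (nat_lit 0x49bc3f0)))) (a (v (nat_lit 3) (k (nat_lit 0x9d1d6))) (v (nat_lit 2) (k (nat_lit 0x99054)))))))))))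 (u (nat_lit 2) (a (a (u (nat_lit 6) (v (nat_lit 6) (k (nat_lit 0x522fa8)))) (u (nat_lit 4) (u (nat_lit 5) (k (nat_lit 0x98b44))))) (a (v (nat_lit 3) (a (v (nat_lit 6) (k (nat_lit 0x9926a))) (v (nat_lit 3) (k (nat_lit 0xc85140c))))) (u (nat_lit 2) (v (nat_lit 7) (k (nat_lit 0x193b774)))))))))))) (a (v (nat_lit 1) (a (a (a (a (u (nat_lit 9) (v (nat_lit 9) (v (nat_lit 9) (k (nat_lit 0x98d54))))) (v (nat_lit 8) (v (nat_lit 8) (u (nat_lit 9) (k (nat_lit 0x98f1c)))))) (a (u (nat_lit 8) (a (v (nat_lit 9) (v (nat_lit 9) (k (nat_lit 0x98eaa)))) (v (nat_lit 8) (v (nat_lit 8) (k (nat_lit 0x990ae)))))) (v (nat_lit 7) (a (a (u (nat_lit 9) (a (v (nat_lit 9) (k (nat_lit 0x99684))) (u (nat_lit 9) (k (nat_lit 0x7512f00))))) (v (nat_lit 8) (u (nat_lit 9) (k (nat_lit 0x9837c))))) (a (u (nat_lit 8) (v (nat_lit 9) (k (nat_lit 0x9aa1c)))) (v (nat_lit 7) (u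 (nat_lit 8) (k (nat_lit 0x9919e))))))))) (a (a (u (nat_lit 7) (a (v (nat_lit 8) (v (nat_lit 8) (k (nat_lit 0x9b8fe)))) (a (v (nat_lit 7) (v (nat_lit 7) (k (nat_lit 0x9a2de)))) (u (nat_lit 7) (v (nat_lit 7) (k (nat_lit 0x9a4c4))))))) (v (nat_lit 6) (a (v (nat_lit 7) (u (nat_lit 8) (k (nat_lit 0x9971a)))) (a (u (nat_lit 7) (a (v (nat_lit 9) (k (nat_lit 0x992ee))) (v (nat_lit 7) (k (nat_lit 0x99d9e))))) (v (nat_lit 6) (u (nat_lit 7) (k (nat_lit 0x99414)))))))) (a (u (nat_lit 6) (a (v (nat_lit 7) (v (nat_lit 8) (k (nat_lit 0x9b1cc)))) (v (nat_lit 6) (v (nat_lit 6) (k (nat_lit 0x1283d534)))))) (v (nat_lit 5) (a (a (u (nat_lit 8) (v (nat_lit 9) (k (nat_lit 0x9907e)))) (v (nat_lit 7) (a (u (nat_lit 9) (k (nat_lit 0x99444))) (u (nat_lit 8) (k (nat_lit 0x99288)))))) (a (v (nat_lit 6) (u (nat_lit 7) (k (nat_lit 0x9aea8)))) (v (nat_lit 5) (a (u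 (nat_lit 9) (k (nat_lit 0x98db4))) (a (u (nat_lit 8) (k (nat_lit 0x99018))) (u (nat_lit 7) (k (nat_lit 0x98c2e)))))))))))) (a (a (a (u (nat_lit 5) (a (a (v (nat_lit 9) (v (nat_lit 9) (k (nat_lit 0x98e08)))) (v (nat_lit 8) (v (nat_lit 8) (k (nat_lit 0x96948))))) (a (u (nat_lit 7) (v (nat_lit 7) (k (nat_lit 0x9c2a6)))) (v (nat_lit 5) (v (nat_lit 5) (k (nat_lit 0x99174))))))) (t (nat_lit 5) (nat_lit 8) (nat_lit 9) (a (u (nat_lit 6) (u (nat_lit 9) (k (nat_lit 0x9d66e)))) (v (nat_lit 5) (u (nat_lit 6) (k (nat_lit 0x5ba47c8))))))) (a (v (nat_lit 4) (a (a (u (nat_lit 9) (v (nat_lit 9) (k (nat_lit 0x98f22)))) (a (v (nat_lit 8) (u (nat_lit 9) (k (nat_lit 0x993e4)))) (u (nat_lit 7) (v (nat_lit 9) (k (nat_lit 0x9b520)))))) (a (a (u (nat_lit 6) (a (a (v (nat_lit 9) (k (nat_lit 0x9a34a))) (v (nat_lit 8) (k (nat_lit 0x995be)))) (a (v (nat_lit 7) (k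 (nat_lit 0x99e70))) (v (nat_lit 6) (k (nat_lit 0x98e92)))))) (v (nat_lit 5) (a (u (nat_lit 9) (k (nat_lit 0x997aa))) (a (u (nat_lit 7) (k (nat_lit 0x9b38e))) (u (nat_lit 6) (k (nat_lit 0x98226))))))) (a (u (nat_lit 5) (a (v (nat_lit 8) (k (nat_lit 0x9912c))) (u (nat_lit 7) (k (nat_lit 0x99654))))) (v (nat_lit 4) (a (a (u (nat_lit 9) (k (nat_lit 0x9cd4a))) (u (nat_lit 8) (k (nat_lit 0x2e6da30)))) (a (u (nat_lit 7) (k (nat_lit 0x9a386))) (a (u (nat_lit 6) (k (nat_lit 0x9b5ec))) (u (nat_lit 5) (k (nat_lit 0x99a56))))))))))) (u (nat_lit 4) (a (a (a (v (nat_lit 9) (v (nat_lit 9) (k (nat_lit 0x9919e)))) (v (nat_lit 8) (a (v (nat_lit 9) (k (nat_lit 0x98ed4))) (v (nat_lit 8) (k (nat_lit 0x99072)))))) (a (v (nat_lit 7) (v (nat_lit 8) (k (nat_lit 0x9aea8)))) (v (nat_lit 6) (a (v (nat_lit 9) (k (nat_lit 0x9848a))) (a (v (nat_lit 8) (k (nat_lit 0x99a6bc)))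 (v (nat_lit 6) (k (nat_lit 0x99072)))))))) (a (a (v (nat_lit 5) (a (a (v (nat_lit 9) (k (nat_lit 0x98ec2))) (v (nat_lit 8) (k (nat_lit 0x99018)))) (a (v (nat_lit 7) (k (nat_lit 0x98cfa))) (a (v (nat_lit 6) (k (nat_lit 0x6dec936))) (v (nat_lit 5) (k (nat_lit 0x99462))))))) (t (nat_lit 5) (nat_lit 8) (nat_lit 9) (v (nat_lit 5) (k (nat_lit 0x9b07c))))) (a (v (nat_lit 4) (a (v (nat_lit 7) (k (nat_lit 0x98898))) (v (nat_lit 4) (k (nat_lit 0x99fcc))))) (u (nat_lit 4) (v (nat_lit 5) (k (nat_lit 0x99324)))))))))) (a (a (v (nat_lit 3) (a (a (a (u (nat_lit 9) (u (nat_lit 9) (k (nat_lit 0x98c28)))) (u (nat_lit 7) (a (v (nat_lit 9) (k (nat_lit 0x9a788))) (v (nat_lit 8) (k (nat_lit 0x98226)))))) (a (v (nat_lit 6) (u (nat_lit 7) (k (nat_lit 0x9b27a)))) (v (nat_lit 5) (u (nat_lit 7) (k (nat_lit 0x99a6bc)))))) (a (a (u (nat_lit 5) (v (nat_lit 7) (k (nat_lit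 0x998d6)))) (v (nat_lit 4) (a (a (u (nat_lit 9) (k (nat_lit 0x9cdfe))) (u (nat_lit 8) (k (nat_lit 0x97a64)))) (a (u (nat_lit 7) (k (nat_lit 0x981de))) (u (nat_lit 5) (k (nat_lit 0x9955e))))))) (a (u (nat_lit 4) (a (v (nat_lit 9) (k (nat_lit 0x9786c))) (a (v (nat_lit 8) (k (nat_lit 0x9b38e))) (v (nat_lit 6) (k (nat_lit 0x99ef4)))))) (v (nat_lit 3) (a (u (nat_lit 7) (k (nat_lit 0x99fea))) (u (nat_lit 5) (k (nat_lit 0x992b2))))))))) (u (nat_lit 3) (a (a (a (v (nat_lit 9) (v (nat_lit 9) (k (nat_lit 0x98106)))) (v (nat_lit 8) (v (nat_lit 9) (k (nat_lit 0x98ebc))))) (a (v (nat_lit 7) (a (v (nat_lit 8) (k (nat_lit 0x6dec936))) (v (nat_lit 7) (k (nat_lit 0x99b58))))) (a (u (nat_lit 7) (v (nat_lit 7) (k (nat_lit 0x1735d0dc)))) (v (nat_lit 6) (v (nat_lit 7) (k (nat_lit 0x99b82))))))) (a (a (v (nat_lit 5) (a (a (v (nat_lit 9) (k (nat_lit 0x98ec2)))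 (v (nat_lit 8) (k (nat_lit 0x99204)))) (a (v (nat_lit 7) (k (nat_lit 0x995be))) (a (v (nat_lit 6) (k (nat_lit 0x9b1cc))) (v (nat_lit 5) (k (nat_lit 0x98e74))))))) (a (u (nat_lit 5) (v (nat_lit 7) (k (nat_lit 0x10302f54)))) (v (nat_lit 4) (a (a (v (nat_lit 9) (k (nat_lit 0x97af4))) (v (nat_lit 8) (k (nat_lit 0x98cfa)))) (a (v (nat_lit 7) (k (nat_lit 0x9b2b6))) (v (nat_lit 4) (k (nat_lit 0x99f0c)))))))) (a (u (nat_lit 4) (v (nat_lit 7) (k (nat_lit 0x8f9bab8)))) (a (v (nat_lit 3) (a (v (nat_lit 4) (k (nat_lit 0x993ea))) (v (nat_lit 3) (k (nat_lit 0x99630))))) (u (nat_lit 3) (v (nat_lit 8) (k (nat_lit 0x99324)))))))))) (a (v (nat_lit 2) (a (a (a (u (nat_lit 9) (u (nat_lit 9) (k (nat_lit 0x1343dc)))) (a (v (nat_lit 7) (u (nat_lit 8) (k (nat_lit 0x999f0)))) (u (nat_lit 7) (v (nat_lit 9) (k (nat_lit 0x98fb8)))))) (a (v (nat_lit 6) (u (nat_lit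 7) (k (nat_lit 0x9f6e4)))) (a (u (nat_lit 6) (a (v (nat_lit 9) (k (nat_lit 0x97f80))) (a (v (nat_lit 8) (k (nat_lit 0x99204))) (v (nat_lit 6) (k (nat_lit 0x9f390)))))) (v (nat_lit 5) (a (u (nat_lit 8) (k (nat_lit 0x99054))) (u (nat_lit 7) (k (nat_lit 0x99018)))))))) (a (a (u (nat_lit 5) (v (nat_lit 8) (k (nat_lit 0x99054)))) (a (v (nat_lit 4) (u (nat_lit 7) (k (nat_lit 0x99a62)))) (u (nat_lit 4) (a (a (v (nat_lit 9) (k (nat_lit 0x97f80))) (v (nat_lit 7) (k (nat_lit 0x99924)))) (a (v (nat_lit 5) (k (nat_lit 0x99204))) (v (nat_lit 4) (k (nat_lit 0x9f390)))))))) (a (v (nat_lit 3) (a (u (nat_lit 7) (k (nat_lit 0x371ca60))) (a (u (nat_lit 6) (k (nat_lit 0x99924))) (u (nat_lit 5) (k (nat_lit 0x999f0)))))) (a (u (nat_lit 3) (a (a (v (nat_lit 9) (k (nat_lit 0x98fb8))) (v (nat_lit 8) (k (nat_lit 0x99018)))) (a (v (nat_lit 7) (k (nat_lit 0x371ca60)))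 (a (v (nat_lit 6) (k (nat_lit 0x99a62))) (v (nat_lit 4) (k (nat_lit 0x9f6e4))))))) (v (nat_lit 2) (a (a (u (nat_lit 9) (k (nat_lit 0x9626a))) (u (nat_lit 8) (k (nat_lit 0x9c072)))) (a (u (nat_lit 7) (k (nat_lit 0x991fe))) (u (nat_lit 3) (k (nat_lit 0x990c6))))))))))) (a (u (nat_lit 2) (a (a (a (v (nat_lit 9) (v (nat_lit 9) (k (nat_lit 0x9a062)))) (v (nat_lit 8) (v (nat_lit 9) (k (nat_lit 0x98f58))))) (a (v (nat_lit 7) (v (nat_lit 7) (k (nat_lit 0x99684)))) (u (nat_lit 6) (v (nat_lit 9) (k (nat_lit 0x97cbc)))))) (a (a (v (nat_lit 5) (a (v (nat_lit 8) (k (nat_lit 0x99054))) (a (v (nat_lit 7) (k (nat_lit 0x9912c))) (v (nat_lit 5) (k (nat_lit 0x99060)))))) (t (nat_lit 5) (nat_lit 8) (nat_lit 9) (t (nat_lit 5) (nat_lit 8) (nat_lit 9) (k (nat_lit 0x48d0f14))))) (a (v (nat_lit 4) (a (v (nat_lit 8) (k (nat_lit 0x99288))) (a (v (nat_lit 7) (k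 (nat_lit 0x9a7dc))) (v (nat_lit 6) (k (nat_lit 0x99864)))))) (a (v (nat_lit 3) (v (nat_lit 6) (k (nat_lit 0x98bc2)))) (v (nat_lit 2) (a (v (nat_lit 9) (k (nat_lit 0x9b3a0))) (a (v (nat_lit 6) (k (nat_lit 0x99552))) (v (nat_lit 4) (k (nat_lit 0x99990))))))))))) (v (nat_lit 1) (a (a (a (a (u (nat_lit 9) (v (nat_lit 9) (k (nat_lit 0x98ed4)))) (v (nat_lit 8) (u (nat_lit 9) (k (nat_lit 0x9912c))))) (a (u (nat_lit 8) (v (nat_lit 8) (k (nat_lit 0x98f64)))) (v (nat_lit 7) (u (nat_lit 8) (k (nat_lit 0x991b0)))))) (a (a (u (nat_lit 7) (a (v (nat_lit 9) (k (nat_lit 0x99c66))) (v (nat_lit 7) (k (nat_lit 0x9e574))))) (v (nat_lit 6) (a (u (nat_lit 9) (k (nat_lit 0x9a29c))) (u (nat_lit 7) (k (nat_lit 0x991ce)))))) (a (u (nat_lit 6) (a (v (nat_lit 9) (k (nat_lit 0x9819c))) (a (v (nat_lit 8) (k (nat_lit 0x98e74))) (v (nat_lit 6) (k (nat_lit 0x990de))))))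 (v (nat_lit 5) (a (u (nat_lit 9) (k (nat_lit 0x990cc))) (a (u (nat_lit 7) (k (nat_lit 0x99072))) (u (nat_lit 6) (k (nat_lit 0x9b8fe))))))))) (a (a (a (u (nat_lit 5) (a (v (nat_lit 8) (k (nat_lit 0x99060))) (v (nat_lit 6) (k (nat_lit 0x97488))))) (v (nat_lit 4) (a (u (nat_lit 7) (k (nat_lit 0x6b622cc))) (u (nat_lit 5) (k (nat_lit 0x99ed0)))))) (a (u (nat_lit 4) (a (a (v (nat_lit 9) (k (nat_lit 0x98eec))) (v (nat_lit 8) (k (nat_lit 0x98c2e)))) (a (v (nat_lit 7) (k (nat_lit 0x9f048))) (a (v (nat_lit 6) (k (nat_lit 0x991aa))) (v (nat_lit 4) (k (nat_lit 0x996b4))))))) (v (nat_lit 3) (a (a (u (nat_lit 9) (k (nat_lit 0x99684))) (u (nat_lit 8) (k (nat_lit 0x98d66)))) (a (u (nat_lit 7) (k (nat_lit 0x9bea4))) (a (u (nat_lit 6) (k (nat_lit 0x97440))) (u (nat_lit 5) (k (nat_lit 0x9901e))))))))) (a (a (u (nat_lit 3) (a (a (v (nat_lit 8) (k (nat_lit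 0x99462))) (v (nat_lit 7) (k (nat_lit 0x4f53e70)))) (a (v (nat_lit 6) (k (nat_lit 0x9af20))) (a (v (nat_lit 4) (k (nat_lit 0x996b4))) (v (nat_lit 3) (k (nat_lit 0x991bc))))))) (v (nat_lit 2) (a (a (u (nat_lit 9) (k (nat_lit 0x9626a))) (u (nat_lit 7) (k (nat_lit 0x990c6)))) (a (u (nat_lit 5) (k (nat_lit 0x9c072))) (u (nat_lit 3) (k (nat_lit 0x991fe))))))) (a (u (nat_lit 2) (a (a (u (nat_lit 9) (k (nat_lit 0x984fc))) (v (nat_lit 8) (k (nat_lit 0x99018)))) (a (v (nat_lit 5) (k (nat_lit 0x96948))) (a (v (nat_lit 4) (k (nat_lit 0x9a75e))) (v (nat_lit 2) (k (nat_lit 0x1480f7c4))))))) (v (nat_lit 1) (a (a (u (nat_lit 9) (k (nat_lit 0x998ee))) (u (nat_lit 7) (k (nat_lit 0x98b5c)))) (a (u (nat_lit 6) (k (nat_lit 0x990c0))) (a (u (nat_lit 3) (k (nat_lit 0x98ef2))) (u (nat_lit 2) (k (nat_lit 0x98ea4)))))))))))))))))) (u (nat_lit 1) (a (a (a (v (nat_lit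 9) (v (nat_lit 9) (v (nat_lit 9) (k (nat_lit 0x991e0))))) (a (v (nat_lit 7) (a (v (nat_lit 8) (v (nat_lit 8) (k (nat_lit 0x97488)))) (v (nat_lit 7) (v (nat_lit 9) (k (nat_lit 0x992ee)))))) (v (nat_lit 6) (a (v (nat_lit 9) (v (nat_lit 9) (k (nat_lit 0x99750)))) (a (v (nat_lit 8) (a (v (nat_lit 9) (k (nat_lit 0x99402))) (v (nat_lit 8) (k (nat_lit 0x9901e))))) (v (nat_lit 6) (a (v (nat_lit 9) (k (nat_lit 0x994da))) (a (v (nat_lit 8) (k (nat_lit 0x992b2))) (u (nat_lit 7) (k (nat_lit 0x82e06d8))))))))))) (a (a (v (nat_lit 5) (a (a (v (nat_lit 9) (v (nat_lit 9) (k (nat_lit 0x98e74)))) (v (nat_lit 8) (a (v (nat_lit 9) (k (nat_lit 0x98ec8))) (v (nat_lit 8) (k (nat_lit 0x9c072)))))) (a (v (nat_lit 7) (v (nat_lit 7) (k (nat_lit 0x2e6da30)))) (a (v (nat_lit 6) (a (v (nat_lit 9) (k (nat_lit 0x9938a))) (a (v (nat_lit 8) (k (nat_lit 0x999f0))) (v (nat_lit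 6) (k (nat_lit 0x9919e)))))) (v (nat_lit 5) (a (v (nat_lit 9) (k (nat_lit 0x98f70))) (v (nat_lit 6) (k (nat_lit 0x991b0))))))))) (u (nat_lit 5) (v (nat_lit 6) (u (nat_lit 8) (k (nat_lit 0x7b86fe8)))))) (a (t (nat_lit 5) (nat_lit 8) (nat_lit 9) (a (a (u (nat_lit 9) (v (nat_lit 9) (k (nat_lit 0x991bc)))) (v (nat_lit 8) (v (nat_lit 9) (k (nat_lit 0x9969c))))) (a (u (nat_lit 5) (v (nat_lit 8) (k (nat_lit 0x9902a)))) (t (nat_lit 5) (nat_lit 8) (nat_lit 9) (a (a (u (nat_lit 8) (k (nat_lit 0x9925e))) (v (nat_lit 7) (k (nat_lit 0xe22d0e)))) (a (v (nat_lit 6) (k (nat_lit 0x9a24e))) (v (nat_lit 5) (k (nat_lit 0x11bb510))))))))) (v (nat_lit 4) (a (a (v (nat_lit 7) (v (nat_lit 7) (k (nat_lit 0x99300)))) (v (nat_lit 6) (a (v (nat_lit 8) (k (nat_lit 0x998d6))) (v (nat_lit 6) (k (nat_lit 0x993ba)))))) (a (u (nat_lit 6) (v (nat_lit 8) (k (nat_lit 0x10302f54))))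 (a (v (nat_lit 5) (a (v (nat_lit 7) (k (nat_lit 0x97a64))) (v (nat_lit 5) (k (nat_lit 0x98d66))))) (v (nat_lit 4) (a (v (nat_lit 7) (k (nat_lit 0x9a5ae))) (v (nat_lit 6) (k (nat_lit 0x9958e)))))))))))) (a (a (u (nat_lit 4) (v (nat_lit 4) (a (v (nat_lit 8) (k (nat_lit 0x9c2a6))) (v (nat_lit 4) (k (nat_lit 0x99438)))))) (a (v (nat_lit 3) (a (a (a (u (nat_lit 9) (u (nat_lit 9) (k (nat_lit 0x4311e70)))) (a (v (nat_lit 8) (v (nat_lit 8) (k (nat_lit 0x99ed0)))) (v (nat_lit 7) (a (u (nat_lit 9) (k (nat_lit 0x99c2a))) (v (nat_lit 7) (k (nat_lit 0x99660))))))) (a (u (nat_lit 7) (u (nat_lit 9) (k (nat_lit 0x999fc)))) (a (v (nat_lit 6) (a (v (nat_lit 9) (k (nat_lit 0x99078))) (a (v (nat_lit 8) (k (nat_lit 0x9955e))) (v (nat_lit 6) (k (nat_lit 0x99114)))))) (u (nat_lit 6) (u (nat_lit 9) (k (nat_lit 0xef1377a))))))) (a (a (v (nat_lit 5) (v (nat_lit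 6) (k (nat_lit 0x9971a)))) (a (u (nat_lit 5) (a (u (nat_lit 9) (k (nat_lit 0x11f67ea))) (v (nat_lit 5) (k (nat_lit 0x994e0))))) (t (nat_lit 5) (nat_lit 8) (nat_lit 9) (t (nat_lit 5) (nat_lit 8) (nat_lit 9) (k (nat_lit 0x2e00f68)))))) (a (v (nat_lit 4) (v (nat_lit 6) (k (nat_lit 0x98f1c)))) (a (u (nat_lit 4) (v (nat_lit 8) (k (nat_lit 0x99654)))) (v (nat_lit 3) (a (a (v (nat_lit 9) (k (nat_lit 0x9915c))) (a (u (nat_lit 9) (k (nat_lit 0x19fafbe))) (v (nat_lit 8) (k (nat_lit 0x99a56))))) (a (v (nat_lit 7) (k (nat_lit 0x99222))) (a (v (nat_lit 6) (k (nat_lit 0x97bc0))) (u (nat_lit 6) (k (nat_lit 0x5082c36)))))))))))) (u (nat_lit 3) (a (a (u (nat_lit 7) (v (nat_lit 9) (k (nat_lit 0x986fa)))) (u (nat_lit 5) (u (nat_lit 5) (k (nat_lit 0x98b44))))) (a (t (nat_lit 5) (nat_lit 8) (nat_lit 9) (u (nat_lit 6) (k (nat_lit 0xa69e1e)))) (v (nat_lit 3)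 (a (v (nat_lit 6) (k (nat_lit 0x97dd6))) (v (nat_lit 3) (k (nat_lit 0x99c4e)))))))))) (a (a (v (nat_lit 2) (a (a (a (v (nat_lit 9) (v (nat_lit 9) (k (nat_lit 0x9a062)))) (v (nat_lit 8) (v (nat_lit 8) (k (nat_lit 0x99060))))) (a (v (nat_lit 5) (a (v (nat_lit 9) (k (nat_lit 0x98f58))) (a (v (nat_lit 8) (k (nat_lit 0x99054))) (v (nat_lit 6) (k (nat_lit 0x99288)))))) (t (nat_lit 5) (nat_lit 8) (nat_lit 9) (t (nat_lit 5) (nat_lit 8) (nat_lit 9) (k (nat_lit 0x48d0f14)))))) (a (a (v (nat_lit 4) (a (v (nat_lit 7) (k (nat_lit 0x98bc2))) (v (nat_lit 6) (k (nat_lit 0x99864))))) (u (nat_lit 4) (v (nat_lit 9) (k (nat_lit 0x97cbc))))) (a (v (nat_lit 3) (a (v (nat_lit 8) (k (nat_lit 0x9912c))) (a (v (nat_lit 6) (k (nat_lit 0x9a7dc))) (v (nat_lit 3) (k (nat_lit 0x99684)))))) (v (nat_lit 2) (a (a (u (nat_lit 9) (k (nat_lit 0x984fc))) (v (nat_lit 8) (k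 (nat_lit 0x96948)))) (a (v (nat_lit 6) (k (nat_lit 0x9a75e))) (a (v (nat_lit 5) (k (nat_lit 0x99018))) (v (nat_lit 2) (k (nat_lit 0x98ea4))))))))))) (u (nat_lit 2) (a (v (nat_lit 7) (u (nat_lit 8) (k (nat_lit 0x7b86fe8)))) (v (nat_lit 3) (u (nat_lit 5) (k (nat_lit 0x7b86fe8))))))) (a (v (nat_lit 1) (a (a (a (v (nat_lit 7) (v (nat_lit 7) (k (nat_lit 0x99330)))) (u (nat_lit 7) (u (nat_lit 9) (k (nat_lit 0x98004))))) (a (v (nat_lit 6) (a (u (nat_lit 8) (k (nat_lit 0x994e0))) (u (nat_lit 7) (k (nat_lit 0x29a024))))) (a (u (nat_lit 6) (a (v (nat_lit 7) (k (nat_lit 0x9cea6))) (v (nat_lit 6) (k (nat_lit 0x9b90a))))) (v (nat_lit 5) (v (nat_lit 5) (k (nat_lit 0x98f64))))))) (a (a (t (nat_lit 5) (nat_lit 8) (nat_lit 9) (a (u (nat_lit 7) (k (nat_lit 0x3461aa2))) (a (u (nat_lit 6) (k (nat_lit 0x107d93e4))) (v (nat_lit 5) (k (nat_lit 0x994e0))))))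 (v (nat_lit 4) (a (v (nat_lit 7) (k (nat_lit 0x96efa))) (v (nat_lit 6) (k (nat_lit 0x9933c)))))) (a (u (nat_lit 4) (v (nat_lit 6) (k (nat_lit 0x9c3d2)))) (a (v (nat_lit 2) (a (a (v (nat_lit 9) (k (nat_lit 0x9b3a0))) (v (nat_lit 6) (k (nat_lit 0x99990)))) (a (v (nat_lit 4) (k (nat_lit 0x99552))) (v (nat_lit 2) (k (nat_lit 0x1480f7c4)))))) (v (nat_lit 1) (a (a (v (nat_lit 9) (k (nat_lit 0x98c64))) (a (v (nat_lit 8) (k (nat_lit 0x99174))) (v (nat_lit 7) (k (nat_lit 0x9d1d6))))) (a (a (v (nat_lit 5) (k (nat_lit 0x990ae))) (t (nat_lit 5) (nat_lit 8) (nat_lit 9) (k (nat_lit 0x49bc3f0)))) (a (v (nat_lit 4) (k (nat_lit 0x98d18))) (v (nat_lit 1) (k (nat_lit 0x99054)))))))))))) (u (nat_lit 1) (a (a (v (nat_lit 7) (v (nat_lit 7) (k (nat_lit 0xc85140c)))) (u (nat_lit 6) (u (nat_lit 8) (k (nat_lit 0x98b44))))) (a (v (nat_lit 4) (v (nat_lit 7) (k (nat_lit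 0x9926a)))) (a (u (nat_lit 4) (v (nat_lit 4) (k (nat_lit 0x522fa8)))) (u (nat_lit 1) (v (nat_lit 3) (k (nat_lit 0x193b774))))))))))))))) (a (v (nat_lit 0) (a (a (a (a (u (nat_lit 9) (v (nat_lit 9) (v (nat_lit 9) (k (nat_lit 0x1325a0))))) (u (nat_lit 8) (a (v (nat_lit 9) (v (nat_lit 9) (k (nat_lit 0x98a1e)))) (v (nat_lit 8) (a (v (nat_lit 9) (k (nat_lit 0x98b08))) (v (nat_lit 8) (k (nat_lit 0x98c64)))))))) (a (v (nat_lit 7) (a (u (nat_lit 9) (v (nat_lit 9) (k (nat_lit 0x99138)))) (a (u (nat_lit 8) (a (v (nat_lit 9) (k (nat_lit 0x99336))) (u (nat_lit 9) (k (nat_lit 0x3e32392))))) (v (nat_lit 7) (u (nat_lit 8) (k (nat_lit 0x994da))))))) (u (nat_lit 7) (a (v (nat_lit 8) (v (nat_lit 8) (k (nat_lit 0x9819c)))) (v (nat_lit 7) (a (v (nat_lit 9) (k (nat_lit 0x9c564))) (v (nat_lit 7) (k (nat_lit 0x99cde))))))))) (a (a (v (nat_lit 6) (a (v (nat_lit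 7) (a (u (nat_lit 9) (k (nat_lit 0x97068))) (u (nat_lit 8) (k (nat_lit 0x99078))))) (a (u (nat_lit 7) (a (u (nat_lit 9) (k (nat_lit 0x97836))) (v (nat_lit 7) (k (nat_lit 0x996e4))))) (v (nat_lit 6) (a (u (nat_lit 8) (k (nat_lit 0x9915c))) (u (nat_lit 7) (k (nat_lit 0x991e0)))))))) (u (nat_lit 6) (a (u (nat_lit 9) (v (nat_lit 9) (k (nat_lit 0x9907e)))) (a (v (nat_lit 7) (v (nat_lit 7) (k (nat_lit 0x99912)))) (v (nat_lit 6) (a (v (nat_lit 9) (k (nat_lit 0x9c564))) (v (nat_lit 6) (k (nat_lit 0x1b17d84))))))))) (a (v (nat_lit 5) (a (a (v (nat_lit 8) (u (nat_lit 9) (k (nat_lit 0x131b50)))) (a (u (nat_lit 8) (v (nat_lit 8) (k (nat_lit 0x9b3a0)))) (v (nat_lit 7) (u (nat_lit 9) (k (nat_lit 0x9af9e)))))) (a (a (u (nat_lit 7) (a (v (nat_lit 9) (k (nat_lit 0x9a524))) (v (nat_lit 8) (k (nat_lit 0x97f80))))) (v (nat_lit 6) (u (nat_lit 9) (k (nat_lit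 0x97ee4))))) (a (u (nat_lit 6) (a (v (nat_lit 8) (k (nat_lit 0x98fb8))) (v (nat_lit 7) (k (nat_lit 0x9b520))))) (v (nat_lit 5) (a (u (nat_lit 7) (k (nat_lit 0x98eec))) (u (nat_lit 6) (k (nat_lit 0x99c66))))))))) (a (u (nat_lit 5) (a (a (v (nat_lit 9) (v (nat_lit 9) (k (nat_lit 0x98a1e)))) (v (nat_lit 7) (v (nat_lit 9) (k (nat_lit 0x96738))))) (a (u (nat_lit 7) (v (nat_lit 8) (k (nat_lit 0x97cbc)))) (a (v (nat_lit 6) (v (nat_lit 6) (k (nat_lit 0x992ee)))) (v (nat_lit 5) (a (v (nat_lit 9) (k (nat_lit 0x98b08))) (a (v (nat_lit 8) (k (nat_lit 0x9b3a0))) (v (nat_lit 5) (k (nat_lit 0x98c64)))))))))) (t (nat_lit 5) (nat_lit 8) (nat_lit 9) (a (u (nat_lit 7) (a (v (nat_lit 9) (k (nat_lit 0x87cc132))) (u (nat_lit 7) (k (nat_lit 0x99294))))) (u (nat_lit 5) (u (nat_lit 7) (k (nat_lit 0x5eaf970)))))))))) (a (a (a (v (nat_lit 4) (a (a (v (nat_lit 8)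 (u (nat_lit 9) (k (nat_lit 0x97ee4)))) (a (u (nat_lit 7) (v (nat_lit 7) (k (nat_lit 0x99a50)))) (v (nat_lit 6) (u (nat_lit 9) (k (nat_lit 0x135330)))))) (a (u (nat_lit 6) (v (nat_lit 7) (k (nat_lit 0x99804)))) (a (v (nat_lit 5) (a (u (nat_lit 7) (k (nat_lit 0x9786c))) (u (nat_lit 6) (k (nat_lit 0x9a788))))) (v (nat_lit 4) (a (u (nat_lit 8) (k (nat_lit 0x992ee))) (a (u (nat_lit 7) (k (nat_lit 0x9963c))) (u (nat_lit 5) (k (nat_lit 0x9915c)))))))))) (u (nat_lit 4) (a (a (a (u (nat_lit 9) (v (nat_lit 9) (k (nat_lit 0x9907e)))) (v (nat_lit 8) (v (nat_lit 8) (k (nat_lit 0x99c66))))) (a (v (nat_lit 7) (a (v (nat_lit 8) (k (nat_lit 0x992ee))) (v (nat_lit 7) (k (nat_lit 0x99408))))) (v (nat_lit 6) (v (nat_lit 8) (k (nat_lit 0x9a788)))))) (a (a (u (nat_lit 6) (u (nat_lit 8) (k (nat_lit 0x986fa)))) (v (nat_lit 5) (a (v (nat_lit 8) (k (nat_lit 0x98fb8)))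 (v (nat_lit 7) (k (nat_lit 0x97af4)))))) (a (u (nat_lit 5) (u (nat_lit 6) (k (nat_lit 0x986fa)))) (a (t (nat_lit 5) (nat_lit 8) (nat_lit 9) (a (u (nat_lit 7) (k (nat_lit 0x69826e))) (u (nat_lit 6) (k (nat_lit 0x6488d6c))))) (v (nat_lit 4) (a (v (nat_lit 9) (k (nat_lit 0x9c564))) (a (v (nat_lit 7) (k (nat_lit 0x9a296))) (v (nat_lit 4) (k (nat_lit 0x1b17d84)))))))))))) (a (v (nat_lit 3) (a (a (a (u (nat_lit 9) (v (nat_lit 9) (k (nat_lit 0x99138)))) (a (v (nat_lit 8) (u (nat_lit 9) (k (nat_lit 0x9af9e)))) (u (nat_lit 8) (v (nat_lit 9) (k (nat_lit 0x96738)))))) (a (v (nat_lit 7) (u (nat_lit 9) (k (nat_lit 0x34d04b4)))) (a (u (nat_lit 7) (v (nat_lit 8) (k (nat_lit 0x9a34a)))) (v (nat_lit 6) (u (nat_lit 7) (k (nat_lit 0x9971a))))))) (a (a (u (nat_lit 6) (a (v (nat_lit 8) (k (nat_lit 0x97af4))) (v (nat_lit 6) (k (nat_lit 0x9a296))))) (a (v (nat_lit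 5) (a (u (nat_lit 7) (k (nat_lit 0x9848a))) (u (nat_lit 6) (k (nat_lit 0x992ee))))) (u (nat_lit 5) (a (v (nat_lit 9) (k (nat_lit 0x99336))) (u (nat_lit 9) (k (nat_lit 0x3e32392))))))) (a (v (nat_lit 4) (a (u (nat_lit 9) (k (nat_lit 0x97068))) (a (u (nat_lit 7) (k (nat_lit 0x991fe))) (u (nat_lit 5) (k (nat_lit 0x99078)))))) (a (u (nat_lit 4) (a (v (nat_lit 8) (k (nat_lit 0x9b520))) (v (nat_lit 6) (k (nat_lit 0x99804))))) (v (nat_lit 3) (a (a (u (nat_lit 7) (k (nat_lit 0x99372))) (u (nat_lit 6) (k (nat_lit 0x99408)))) (a (u (nat_lit 5) (k (nat_lit 0x994da))) (u (nat_lit 4) (k (nat_lit 0x99912))))))))))) (u (nat_lit 3) (a (a (a (v (nat_lit 8) (a (v (nat_lit 9) (k (nat_lit 0x9a524))) (v (nat_lit 8) (k (nat_lit 0x98eec))))) (v (nat_lit 7) (a (v (nat_lit 8) (k (nat_lit 0x9848a))) (v (nat_lit 7) (k (nat_lit 0x99372)))))) (a (v (nat_lit 6) (a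 (v (nat_lit 8) (k (nat_lit 0x9786c))) (a (v (nat_lit 7) (k (nat_lit 0x991fe))) (v (nat_lit 6) (k (nat_lit 0x9963c)))))) (v (nat_lit 5) (a (a (v (nat_lit 8) (k (nat_lit 0x97f80))) (u (nat_lit 8) (k (nat_lit 0x97cbc)))) (a (v (nat_lit 7) (k (nat_lit 0x9a34a))) (v (nat_lit 5) (k (nat_lit 0x9819c)))))))) (a (a (t (nat_lit 5) (nat_lit 8) (nat_lit 9) (a (v (nat_lit 9) (k (nat_lit 0x87cc132))) (a (u (nat_lit 8) (k (nat_lit 0x5eaf970))) (u (nat_lit 6) (k (nat_lit 0x69826e)))))) (v (nat_lit 4) (a (u (nat_lit 9) (k (nat_lit 0x97836))) (a (v (nat_lit 7) (k (nat_lit 0x9971a))) (v (nat_lit 4) (k (nat_lit 0x991e0))))))) (a (v (nat_lit 3) (a (a (v (nat_lit 9) (k (nat_lit 0x9c564))) (v (nat_lit 6) (k (nat_lit 0x99a50)))) (a (v (nat_lit 4) (k (nat_lit 0x996e4))) (v (nat_lit 3) (k (nat_lit 0x99cde)))))) (u (nat_lit 3) (t (nat_lit 5) (nat_lit 8) (nat_lit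 9) (k (nat_lit 0x99294)))))))))) (a (a (v (nat_lit 2) (a (a (a (v (nat_lit 8) (u (nat_lit 9) (k (nat_lit 0x98f88)))) (a (v (nat_lit 7) (a (u (nat_lit 9) (k (nat_lit 0x9b118))) (u (nat_lit 8) (k (nat_lit 0x99402))))) (u (nat_lit 7) (u (nat_lit 9) (k (nat_lit 0x9a470)))))) (a (v (nat_lit 6) (u (nat_lit 7) (k (nat_lit 0x9925e)))) (a (u (nat_lit 6) (a (v (nat_lit 9) (k (nat_lit 0x9a524))) (a (v (nat_lit 8) (k (nat_lit 0x98ebc))) (v (nat_lit 6) (k (nat_lit 0x9918c)))))) (v (nat_lit 5) (u (nat_lit 7) (k (nat_lit 0x98ec2))))))) (a (a (u (nat_lit 5) (v (nat_lit 8) (k (nat_lit 0x98f58)))) (a (v (nat_lit 4) (u (nat_lit 7) (k (nat_lit 0x99d50)))) (u (nat_lit 4) (a (v (nat_lit 7) (k (nat_lit 0x98da2))) (a (v (nat_lit 5) (k (nat_lit 0x98ec2))) (v (nat_lit 4) (k (nat_lit 0x9949e)))))))) (a (v (nat_lit 3) (a (u (nat_lit 6) (k (nat_lit 0x97ecc))) (u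 (nat_lit 5) (k (nat_lit 0x9938a))))) (a (u (nat_lit 3) (a (a (v (nat_lit 8) (k (nat_lit 0x98ed4))) (v (nat_lit 7) (k (nat_lit 0x990b4)))) (a (v (nat_lit 6) (k (nat_lit 0x99b40))) (a (t (nat_lit 5) (nat_lit 8) (nat_lit 9) (k (nat_lit 0x2f0aca8))) (v (nat_lit 4) (k (nat_lit 0x9973e))))))) (v (nat_lit 2) (a (u (nat_lit 7) (k (nat_lit 0x98f10))) (a (u (nat_lit 5) (k (nat_lit 0x98f70))) (u (nat_lit 3) (k (nat_lit 0x98e74))))))))))) (u (nat_lit 2) (a (a (v (nat_lit 7) (v (nat_lit 7) (k (nat_lit 0x990de)))) (a (v (nat_lit 6) (v (nat_lit 9) (k (nat_lit 0x96738)))) (v (nat_lit 4) (a (v (nat_lit 9) (k (nat_lit 0x99336))) (v (nat_lit 8) (k (nat_lit 0x9aa1c))))))) (a (v (nat_lit 3) (a (u (nat_lit 9) (k (nat_lit 0x99354))) (v (nat_lit 3) (k (nat_lit 0x991aa))))) (a (v (nat_lit 2) (a (v (nat_lit 9) (k (nat_lit 0x98b08))) (a (v (nat_lit 6) (k (nat_lit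 0x991bc))) (v (nat_lit 2) (k (nat_lit 0x98e8c)))))) (u (nat_lit 2) (v (nat_lit 7) (k (nat_lit 0x9992a))))))))) (a (v (nat_lit 1) (a (a (a (v (nat_lit 7) (u (nat_lit 8) (k (nat_lit 0x9938a)))) (a (v (nat_lit 6) (u (nat_lit 7) (k (nat_lit 0x9973e)))) (u (nat_lit 6) (a (v (nat_lit 8) (k (nat_lit 0x98ec2))) (v (nat_lit 6) (k (nat_lit 0x9949e))))))) (a (v (nat_lit 5) (a (u (nat_lit 9) (k (nat_lit 0x98f88))) (a (u (nat_lit 8) (k (nat_lit 0x98f58))) (u (nat_lit 7) (k (nat_lit 0x98ed4)))))) (a (t (nat_lit 5) (nat_lit 8) (nat_lit 9) (u (nat_lit 7) (k (nat_lit 0x2f0aca8)))) (v (nat_lit 4) (u (nat_lit 7) (k (nat_lit 0x99b40))))))) (a (a (u (nat_lit 4) (a (a (v (nat_lit 9) (k (nat_lit 0x9a524))) (v (nat_lit 7) (k (nat_lit 0x97ecc)))) (a (v (nat_lit 5) (k (nat_lit 0x98ebc))) (v (nat_lit 4) (k (nat_lit 0x9918c)))))) (a (v (nat_lit 3) (a (a (u (nat_lit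 9) (k (nat_lit 0x9b118))) (u (nat_lit 7) (k (nat_lit 0x990b4)))) (a (u (nat_lit 6) (k (nat_lit 0x98da2))) (u (nat_lit 5) (k (nat_lit 0x99402)))))) (u (nat_lit 3) (a (a (u (nat_lit 9) (k (nat_lit 0x9a470))) (v (nat_lit 8) (k (nat_lit 0x98ec2)))) (a (v (nat_lit 6) (k (nat_lit 0x99d50))) (v (nat_lit 4) (k (nat_lit 0x9925e)))))))) (a (v (nat_lit 2) (a (a (u (nat_lit 8) (k (nat_lit 0x98ec8))) (u (nat_lit 7) (k (nat_lit 0x98ee0)))) (a (u (nat_lit 5) (k (nat_lit 0x98ec8))) (u (nat_lit 3) (k (nat_lit 0x98ee0)))))) (a (u (nat_lit 2) (a (v (nat_lit 8) (k (nat_lit 0x9907e))) (v (nat_lit 4) (k (nat_lit 0x990cc))))) (v (nat_lit 1) (a (a (u (nat_lit 8) (k (nat_lit 0x98f70))) (u (nat_lit 7) (k (nat_lit 0x98e74)))) (a (u (nat_lit 3) (k (nat_lit 0x98f10))) (u (nat_lit 2) (k (nat_lit 0x98ec8))))))))))) (a (u (nat_lit 1) (a (a (a (v (nat_lit 7) (a (u (nat_lit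 9) (k (nat_lit 0x99354))) (v (nat_lit 7) (k (nat_lit 0x991aa))))) (v (nat_lit 6) (v (nat_lit 9) (k (nat_lit 0x99336))))) (a (v (nat_lit 5) (v (nat_lit 6) (k (nat_lit 0x9aa1c)))) (v (nat_lit 4) (v (nat_lit 9) (k (nat_lit 0x96738)))))) (a (a (v (nat_lit 3) (v (nat_lit 3) (k (nat_lit 0x990de)))) (v (nat_lit 2) (a (v (nat_lit 6) (k (nat_lit 0x990cc))) (a (v (nat_lit 5) (k (nat_lit 0x9907e))) (v (nat_lit 2) (k (nat_lit 0x98ec8))))))) (a (v (nat_lit 1) (a (v (nat_lit 9) (k (nat_lit 0x98b08))) (a (v (nat_lit 4) (k (nat_lit 0x991bc))) (v (nat_lit 1) (k (nat_lit 0x98e8c)))))) (u (nat_lit 1) (v (nat_lit 3) (k (nat_lit 0x9992a)))))))) (v (nat_lit 0) (a (a (a (a (u (nat_lit 9) (v (nat_lit 9) (k (nat_lit 0x131b08)))) (v (nat_lit 8) (u (nat_lit 9) (k (nat_lit 0x99162))))) (a (v (nat_lit 7) (a (u (nat_lit 9) (k (nat_lit 0x99948))) (u (nat_lit 8) (k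 (nat_lit 0x99750))))) (u (nat_lit 7) (u (nat_lit 9) (k (nat_lit 0x98f76)))))) (a (a (v (nat_lit 6) (u (nat_lit 7) (k (nat_lit 0xfd72e)))) (u (nat_lit 6) (a (v (nat_lit 8) (k (nat_lit 0x98106))) (v (nat_lit 6) (k (nat_lit 0x997b6)))))) (a (v (nat_lit 5) (a (u (nat_lit 9) (k (nat_lit 0x99162))) (a (u (nat_lit 8) (k (nat_lit 0x9a062))) (u (nat_lit 7) (k (nat_lit 0x9919e)))))) (u (nat_lit 5) (v (nat_lit 8) (k (nat_lit 0x9a062))))))) (a (a (a (v (nat_lit 4) (u (nat_lit 7) (k (nat_lit 0x9957c)))) (u (nat_lit 4) (a (v (nat_lit 7) (k (nat_lit 0x9a482))) (a (v (nat_lit 5) (k (nat_lit 0x98106))) (v (nat_lit 4) (k (nat_lit 0x997b6))))))) (a (v (nat_lit 3) (a (a (u (nat_lit 9) (k (nat_lit 0x99948))) (u (nat_lit 7) (k (nat_lit 0x97e66)))) (a (u (nat_lit 6) (k (nat_lit 0x9a482))) (u (nat_lit 5) (k (nat_lit 0x99750)))))) (u (nat_lit 3) (a (a (u (nat_lit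 9) (k (nat_lit 0x98f76))) (v (nat_lit 8) (k (nat_lit 0x9919e)))) (a (v (nat_lit 7) (k (nat_lit 0x97e66))) (a (v (nat_lit 6) (k (nat_lit 0x9957c))) (v (nat_lit 4) (k (nat_lit 0xfd72e))))))))) (a (a (v (nat_lit 2) (a (u (nat_lit 7) (k (nat_lit 0x98e68))) (a (u (nat_lit 5) (k (nat_lit 0x98e74))) (u (nat_lit 3) (k (nat_lit 0x98e2c)))))) (u (nat_lit 2) (a (v (nat_lit 9) (k (nat_lit 0x98a1e))) (a (v (nat_lit 8) (k (nat_lit 0x98eaa))) (v (nat_lit 5) (k (nat_lit 0x98e08))))))) (a (v (nat_lit 1) (a (u (nat_lit 8) (k (nat_lit 0x98e74))) (a (u (nat_lit 7) (k (nat_lit 0x98e2c))) (u (nat_lit 3) (k (nat_lit 0x98e68)))))) (a (u (nat_lit 1) (a (v (nat_lit 9) (k (nat_lit 0x98a1e))) (a (v (nat_lit 8) (k (nat_lit 0x98e08))) (v (nat_lit 5) (k (nat_lit 0x98eaa)))))) (v (nat_lit 0) (a (a (a (u (nat_lit 9) (k (nat_lit 0x130fc8))) (u (nat_lit 8) (k (nat_lit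 0x991e0)))) (a (u (nat_lit 7) (k (nat_lit 0x98d3c))) (u (nat_lit 6) (k (nat_lit 0x98d48))))) (a (a (u (nat_lit 5) (k (nat_lit 0x991e0))) (u (nat_lit 4) (k (nat_lit 0x98d48)))) (a (u (nat_lit 3) (k (nat_lit 0x98d3c))) (a (u (nat_lit 2) (k (nat_lit 0x98d60))) (u (nat_lit 1) (k (nat_lit 0x98d60)))))))))))))))))))) (a (u (nat_lit 0) (a (a (a (a (v (nat_lit 9) (v (nat_lit 9) (v (nat_lit 9) (k (nat_lit 0x130fc8))))) (v (nat_lit 8) (v (nat_lit 8) (v (nat_lit 8) (k (nat_lit 0x998ee)))))) (a (v (nat_lit 7) (a (v (nat_lit 8) (a (u (nat_lit 9) (k (nat_lit 0x544b5a))) (v (nat_lit 8) (k (nat_lit 0x9a29c))))) (v (nat_lit 7) (u (nat_lit 9) (k (nat_lit 0x996ae)))))) (v (nat_lit 6) (a (a (v (nat_lit 9) (v (nat_lit 9) (k (nat_lit 0x99948)))) (v (nat_lit 8) (a (v (nat_lit 9) (k (nat_lit 0x9b118))) (v (nat_lit 8) (k (nat_lit 0x99684)))))) (a (u (nat_lit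 7) (u (nat_lit 8) (k (nat_lit 0xef1377a)))) (v (nat_lit 6) (a (u (nat_lit 9) (k (nat_lit 0x996ae))) (u (nat_lit 8) (k (nat_lit 0x19fafbe)))))))))) (a (a (u (nat_lit 6) (a (v (nat_lit 9) (v (nat_lit 9) (k (nat_lit 0x98f76)))) (v (nat_lit 8) (v (nat_lit 9) (k (nat_lit 0x9a470)))))) (v (nat_lit 5) (a (a (v (nat_lit 8) (v (nat_lit 8) (k (nat_lit 0x9626a)))) (v (nat_lit 7) (a (u (nat_lit 9) (k (nat_lit 0x9a5cc))) (v (nat_lit 7) (k (nat_lit 0x9cd4a)))))) (a (v (nat_lit 6) (u (nat_lit 9) (k (nat_lit 0x9981c)))) (v (nat_lit 5) (a (v (nat_lit 8) (k (nat_lit 0x9626a))) (a (u (nat_lit 8) (k (nat_lit 0x984fc))) (v (nat_lit 5) (k (nat_lit 0x998ee)))))))))) (a (u (nat_lit 5) (a (v (nat_lit 8) (v (nat_lit 8) (k (nat_lit 0x984fc)))) (a (v (nat_lit 6) (v (nat_lit 9) (k (nat_lit 0x99354)))) (v (nat_lit 5) (u (nat_lit 6) (k (nat_lit 0x98004))))))) (a (t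 (nat_lit 5) (nat_lit 8) (nat_lit 9) (a (u (nat_lit 9) (u (nat_lit 9) (k (nat_lit 0x13317c)))) (a (u (nat_lit 6) (v (nat_lit 8) (k (nat_lit 0x2b3f14)))) (t (nat_lit 5) (nat_lit 8) (nat_lit 9) (a (u (nat_lit 8) (k (nat_lit 0x1ac30be))) (u (nat_lit 5) (k (nat_lit 0x1ac30be)))))))) (v (nat_lit 4) (a (a (a (v (nat_lit 9) (v (nat_lit 9) (k (nat_lit 0x99948)))) (v (nat_lit 8) (u (nat_lit 9) (k (nat_lit 0x9981c))))) (a (u (nat_lit 8) (v (nat_lit 9) (k (nat_lit 0x99354)))) (v (nat_lit 7) (v (nat_lit 9) (k (nat_lit 0x97068)))))) (a (a (v (nat_lit 6) (a (a (v (nat_lit 9) (k (nat_lit 0x34d04b4))) (u (nat_lit 9) (k (nat_lit 0x132558)))) (a (u (nat_lit 8) (k (nat_lit 0x99c2a))) (a (u (nat_lit 7) (k (nat_lit 0x9d110))) (v (nat_lit 6) (k (nat_lit 0x2be3102))))))) (v (nat_lit 5) (a (v (nat_lit 9) (k (nat_lit 0x9b118))) (a (v (nat_lit 7) (k (nat_lit 0x9cdfe)))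 (v (nat_lit 5) (k (nat_lit 0x99684))))))) (a (u (nat_lit 5) (a (v (nat_lit 6) (k (nat_lit 0x99c2a))) (u (nat_lit 6) (k (nat_lit 0x999fc))))) (v (nat_lit 4) (a (a (u (nat_lit 9) (k (nat_lit 0x996ae))) (v (nat_lit 7) (k (nat_lit 0x98268)))) (a (u (nat_lit 7) (k (nat_lit 0x10bef46))) (a (v (nat_lit 6) (k (nat_lit 0x2be3102))) (u (nat_lit 5) (k (nat_lit 0x19fafbe))))))))))))))) (a (a (a (u (nat_lit 4) (a (a (v (nat_lit 9) (v (nat_lit 9) (k (nat_lit 0x98f76)))) (a (u (nat_lit 8) (v (nat_lit 8) (k (nat_lit 0x98004)))) (v (nat_lit 7) (v (nat_lit 9) (k (nat_lit 0x97836)))))) (a (v (nat_lit 6) (u (nat_lit 8) (k (nat_lit 0x999fc)))) (a (v (nat_lit 5) (v (nat_lit 9) (k (nat_lit 0x9a470)))) (t (nat_lit 5) (nat_lit 8) (nat_lit 9) (v (nat_lit 5) (k (nat_lit 0x2b3f14)))))))) (v (nat_lit 3) (a (a (v (nat_lit 8) (u (nat_lit 9) (k (nat_lit 0x9a5cc))))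 (a (v (nat_lit 7) (a (v (nat_lit 9) (k (nat_lit 0x135330))) (a (u (nat_lit 9) (k (nat_lit 0x132558))) (v (nat_lit 7) (k (nat_lit 0x991da)))))) (v (nat_lit 6) (a (v (nat_lit 9) (k (nat_lit 0x97068))) (a (v (nat_lit 8) (k (nat_lit 0x9cdfe))) (v (nat_lit 6) (k (nat_lit 0x98268)))))))) (a (u (nat_lit 6) (v (nat_lit 9) (k (nat_lit 0x97836)))) (a (v (nat_lit 5) (a (u (nat_lit 9) (k (nat_lit 0x544b5a))) (v (nat_lit 5) (k (nat_lit 0x9a29c))))) (v (nat_lit 3) (a (u (nat_lit 9) (k (nat_lit 0x996ae))) (a (v (nat_lit 8) (k (nat_lit 0x9cd4a))) (v (nat_lit 7) (k (nat_lit 0x991da))))))))))) (a (u (nat_lit 3) (a (v (nat_lit 6) (v (nat_lit 6) (k (nat_lit 0x10bef46)))) (v (nat_lit 4) (a (v (nat_lit 6) (k (nat_lit 0x9d110))) (u (nat_lit 5) (k (nat_lit 0xef1377a))))))) (v (nat_lit 2) (a (a (v (nat_lit 9) (v (nat_lit 9) (k (nat_lit 0x99162)))) (a (v (nat_lit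 8) (v (nat_lit 8) (k (nat_lit 0x9912c)))) (v (nat_lit 6) (a (v (nat_lit 9) (k (nat_lit 0x9af9e))) (u (nat_lit 9) (k (nat_lit 0x9a5cc))))))) (a (a (v (nat_lit 5) (a (a (v (nat_lit 9) (k (nat_lit 0x98f88))) (v (nat_lit 7) (k (nat_lit 0x997aa)))) (a (v (nat_lit 6) (k (nat_lit 0x99444))) (v (nat_lit 5) (k (nat_lit 0x990cc)))))) (v (nat_lit 4) (a (a (u (nat_lit 9) (k (nat_lit 0x544b5a))) (v (nat_lit 8) (k (nat_lit 0x9837c)))) (a (v (nat_lit 7) (k (nat_lit 0x99ace))) (v (nat_lit 6) (k (nat_lit 0x99924))))))) (a (v (nat_lit 3) (a (a (v (nat_lit 9) (k (nat_lit 0x97ee4))) (u (nat_lit 9) (k (nat_lit 0x9981c)))) (a (v (nat_lit 8) (k (nat_lit 0x993e4))) (v (nat_lit 6) (k (nat_lit 0x99d38)))))) (v (nat_lit 2) (a (v (nat_lit 8) (k (nat_lit 0x98f1c))) (a (v (nat_lit 5) (k (nat_lit 0x98db4))) (v (nat_lit 4) (k (nat_lit 0x991bc)))))))))))) (a (a (u (nat_lit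 2) (a (a (v (nat_lit 6) (v (nat_lit 6) (k (nat_lit 0x26eeb16)))) (t (nat_lit 5) (nat_lit 8) (nat_lit 9) (a (u (nat_lit 9) (k (nat_lit 0x68e7f82))) (v (nat_lit 7) (k (nat_lit 0x991e0)))))) (a (v (nat_lit 4) (a (v (nat_lit 9) (k (nat_lit 0x3e32392))) (u (nat_lit 5) (k (nat_lit 0x11f67ea))))) (v (nat_lit 2) (v (nat_lit 3) (k (nat_lit 0x78cef22))))))) (v (nat_lit 1) (a (a (a (v (nat_lit 9) (v (nat_lit 9) (k (nat_lit 0x99162)))) (v (nat_lit 8) (a (v (nat_lit 9) (k (nat_lit 0x98f88))) (v (nat_lit 8) (k (nat_lit 0x990cc)))))) (a (v (nat_lit 7) (a (v (nat_lit 9) (k (nat_lit 0x97ee4))) (u (nat_lit 9) (k (nat_lit 0x9981c))))) (v (nat_lit 6) (u (nat_lit 9) (k (nat_lit 0x544b5a)))))) (a (a (v (nat_lit 5) (a (v (nat_lit 7) (k (nat_lit 0x993e4))) (a (v (nat_lit 6) (k (nat_lit 0x9837c))) (v (nat_lit 5) (k (nat_lit 0x9912c)))))) (v (nat_lit 4) (a (a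 (v (nat_lit 9) (k (nat_lit 0x9af9e))) (u (nat_lit 9) (k (nat_lit 0x9a5cc)))) (a (v (nat_lit 8) (k (nat_lit 0x99444))) (a (v (nat_lit 7) (k (nat_lit 0x99d38))) (v (nat_lit 6) (k (nat_lit 0x99924)))))))) (a (v (nat_lit 3) (a (v (nat_lit 8) (k (nat_lit 0x997aa))) (v (nat_lit 6) (k (nat_lit 0x99ace))))) (a (v (nat_lit 2) (v (nat_lit 9) (k (nat_lit 0x131b50)))) (v (nat_lit 1) (a (v (nat_lit 8) (k (nat_lit 0x98db4))) (a (v (nat_lit 6) (k (nat_lit 0x991bc))) (v (nat_lit 5) (k (nat_lit 0x98f1c)))))))))))) (a (u (nat_lit 1) (a (a (v (nat_lit 6) (a (v (nat_lit 9) (k (nat_lit 0x3e32392))) (u (nat_lit 8) (k (nat_lit 0x11f67ea))))) (a (t (nat_lit 5) (nat_lit 8) (nat_lit 9) (u (nat_lit 9) (k (nat_lit 0x68e7f82)))) (v (nat_lit 4) (v (nat_lit 4) (k (nat_lit 0x26eeb16)))))) (a (v (nat_lit 3) (t (nat_lit 5) (nat_lit 8) (nat_lit 9) (k (nat_lit 0x991e0))))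 (a (u (nat_lit 2) (t (nat_lit 5) (nat_lit 8) (nat_lit 9) (k (nat_lit 0x1330f8)))) (v (nat_lit 1) (v (nat_lit 7) (k (nat_lit 0x78cef22)))))))) (a (v (nat_lit 0) (a (a (a (v (nat_lit 9) (v (nat_lit 9) (k (nat_lit 0x131b08)))) (a (v (nat_lit 8) (v (nat_lit 8) (k (nat_lit 0x98ed4)))) (v (nat_lit 7) (v (nat_lit 7) (k (nat_lit 0x996ae)))))) (a (a (u (nat_lit 7) (v (nat_lit 9) (k (nat_lit 0x9907e)))) (v (nat_lit 6) (v (nat_lit 9) (k (nat_lit 0x99138))))) (a (v (nat_lit 5) (a (v (nat_lit 7) (k (nat_lit 0x98f22))) (a (v (nat_lit 6) (k (nat_lit 0x99684))) (v (nat_lit 5) (k (nat_lit 0x98ed4)))))) (t (nat_lit 5) (nat_lit 8) (nat_lit 9) (a (u (nat_lit 7) (k (nat_lit 0x63abe58))) (a (u (nat_lit 6) (k (nat_lit 0x1041332a))) (t (nat_lit 5) (nat_lit 8) (nat_lit 9) (k (nat_lit 0x133908))))))))) (a (a (v (nat_lit 4) (a (a (v (nat_lit 9) (k (nat_lit 0x99138)))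 (v (nat_lit 8) (k (nat_lit 0x99684)))) (a (v (nat_lit 7) (k (nat_lit 0x98532))) (v (nat_lit 6) (k (nat_lit 0x1324d4)))))) (a (u (nat_lit 4) (t (nat_lit 5) (nat_lit 8) (nat_lit 9) (k (nat_lit 0x1041332a)))) (v (nat_lit 3) (a (a (v (nat_lit 8) (k (nat_lit 0x98f22))) (v (nat_lit 7) (k (nat_lit 0x13491c)))) (a (v (nat_lit 6) (k (nat_lit 0x98532))) (v (nat_lit 3) (k (nat_lit 0x996ae)))))))) (a (a (u (nat_lit 3) (a (v (nat_lit 9) (k (nat_lit 0x9907e))) (t (nat_lit 5) (nat_lit 8) (nat_lit 9) (k (nat_lit 0x63abe58))))) (v (nat_lit 2) (a (v (nat_lit 6) (k (nat_lit 0x99630))) (a (v (nat_lit 4) (k (nat_lit 0x99462))) (v (nat_lit 2) (k (nat_lit 0x99018))))))) (a (v (nat_lit 1) (a (a (v (nat_lit 6) (k (nat_lit 0x99462))) (v (nat_lit 4) (k (nat_lit 0x99630)))) (a (v (nat_lit 2) (k (nat_lit 0x131e2c))) (v (nat_lit 1) (k (nat_lit 0x99018)))))) (v (nat_lit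 0) (a (a (v (nat_lit 9) (k (nat_lit 0x1325a0))) (v (nat_lit 8) (k (nat_lit 0x98d54)))) (a (v (nat_lit 5) (k (nat_lit 0x98d54))) (v (nat_lit 0) (k (nat_lit 0x131c70))))))))))) (u (nat_lit 0) (a (a (a (v (nat_lit 6) (a (v (nat_lit 8) (k (nat_lit 0x98c28))) (u (nat_lit 8) (k (nat_lit 0x4311e70))))) (v (nat_lit 5) (a (v (nat_lit 8) (k (nat_lit 0x1343dc))) (v (nat_lit 6) (k (nat_lit 0x7512f00)))))) (a (v (nat_lit 4) (a (a (v (nat_lit 8) (k (nat_lit 0x7512f00))) (v (nat_lit 6) (k (nat_lit 0x8dfba24)))) (a (v (nat_lit 5) (k (nat_lit 0x98c28))) (u (nat_lit 5) (k (nat_lit 0x4311e70)))))) (u (nat_lit 2) (v (nat_lit 4) (k (nat_lit 0xf93a45e)))))) (a (a (v (nat_lit 1) (v (nat_lit 2) (k (nat_lit 0x1347e4)))) (u (nat_lit 1) (v (nat_lit 6) (k (nat_lit 0xf93a45e))))) (a (v (nat_lit 0) (t (nat_lit 5) (nat_lit 8) (nat_lit 9) (k (nat_lit 0x72c99c)))) (u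 (nat_lit 0) (a (v (nat_lit 6) (k (nat_lit 0x9a4b8))) (v (nat_lit 4) (k (nat_lit 0x9a4b8))))))))))))))) (t (nat_lit 0) (nat_lit 1) (nat_lit 2) (a (a (a (a (u (nat_lit 9) (u (nat_lit 9) (v (nat_lit 9) (k (nat_lit 0x72c99c))))) (u (nat_lit 8) (v (nat_lit 8) (v (nat_lit 8) (k (nat_lit 0x49bc3f0)))))) (a (u (nat_lit 7) (a (u (nat_lit 9) (v (nat_lit 9) (k (nat_lit 0x1041332a)))) (a (u (nat_lit 8) (v (nat_lit 8) (k (nat_lit 0x107d93e4)))) (u (nat_lit 7) (v (nat_lit 7) (k (nat_lit 0x995fa))))))) (v (nat_lit 6) (u (nat_lit 8) (u (nat_lit 9) (k (nat_lit 0x991e0))))))) (a (a (u (nat_lit 6) (a (u (nat_lit 9) (v (nat_lit 9) (k (nat_lit 0x63abe58)))) (a (u (nat_lit 7) (a (v (nat_lit 9) (k (nat_lit 0x69826e))) (a (u (nat_lit 8) (k (nat_lit 0xa69e1e))) (u (nat_lit 7) (k (nat_lit 0x603d092)))))) (u (nat_lit 6) (v (nat_lit 9) (k (nat_lit 0x99294)))))))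 (v (nat_lit 5) (u (nat_lit 6) (v (nat_lit 9) (k (nat_lit 0x2f0aca8)))))) (a (u (nat_lit 5) (a (u (nat_lit 8) (u (nat_lit 9) (k (nat_lit 0x1330f8)))) (v (nat_lit 5) (a (u (nat_lit 6) (k (nat_lit 0x3461aa2))) (v (nat_lit 5) (k (nat_lit 0x49bc3f0))))))) (a (t (nat_lit 5) (nat_lit 8) (nat_lit 9) (a (u (nat_lit 7) (u (nat_lit 7) (k (nat_lit 0x1135452)))) (a (u (nat_lit 6) (u (nat_lit 6) (k (nat_lit 0x1135452)))) (v (nat_lit 5) (u (nat_lit 7) (k (nat_lit 0xfe46f0))))))) (v (nat_lit 4) (u (nat_lit 5) (u (nat_lit 9) (k (nat_lit 0x991e0))))))))) (a (a (a (u (nat_lit 4) (a (a (u (nat_lit 9) (v (nat_lit 9) (k (nat_lit 0x63abe58)))) (v (nat_lit 8) (v (nat_lit 9) (k (nat_lit 0x2f0aca8))))) (a (u (nat_lit 8) (v (nat_lit 8) (k (nat_lit 0x3461aa2)))) (a (u (nat_lit 6) (u (nat_lit 6) (k (nat_lit 0x9c4bbee)))) (u (nat_lit 4) (a (v (nat_lit 9) (k (nat_lit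 0x99294))) (a (u (nat_lit 6) (k (nat_lit 0x9c4bbee))) (t (nat_lit 5) (nat_lit 8) (nat_lit 9) (k (nat_lit 0x1135452)))))))))) (v (nat_lit 3) (v (nat_lit 3) (u (nat_lit 7) (k (nat_lit 0x9919e)))))) (a (u (nat_lit 3) (a (a (u (nat_lit 9) (v (nat_lit 9) (k (nat_lit 0x1041332a)))) (a (v (nat_lit 7) (v (nat_lit 7) (k (nat_lit 0x9919e)))) (u (nat_lit 7) (a (v (nat_lit 9) (k (nat_lit 0x6488d6c))) (u (nat_lit 7) (k (nat_lit 0x69b7d56))))))) (a (a (u (nat_lit 5) (v (nat_lit 5) (k (nat_lit 0x107d93e4)))) (t (nat_lit 5) (nat_lit 8) (nat_lit 9) (v (nat_lit 8) (k (nat_lit 0xfe46f0))))) (a (u (nat_lit 4) (a (v (nat_lit 9) (k (nat_lit 0x69826e))) (u (nat_lit 5) (k (nat_lit 0xa69e1e))))) (u (nat_lit 3) (a (a (u (nat_lit 7) (k (nat_lit 0x69b7d56))) (t (nat_lit 5) (nat_lit 8) (nat_lit 9) (k (nat_lit 0x1135452)))) (a (u (nat_lit 4) (k (nat_lit 0x603d092)))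 (v (nat_lit 3) (k (nat_lit 0x995fa)))))))))) (a (v (nat_lit 2) (a (a (u (nat_lit 7) (a (u (nat_lit 9) (k (nat_lit 0x2b3f14))) (u (nat_lit 7) (k (nat_lit 0x99ec4))))) (a (v (nat_lit 5) (u (nat_lit 7) (k (nat_lit 0x9b07c)))) (u (nat_lit 5) (v (nat_lit 5) (k (nat_lit 0x994e0)))))) (a (t (nat_lit 5) (nat_lit 8) (nat_lit 9) (u (nat_lit 6) (k (nat_lit 0xfe46f0)))) (a (u (nat_lit 4) (a (u (nat_lit 7) (k (nat_lit 0x59d73c8))) (u (nat_lit 4) (k (nat_lit 0x12593af6))))) (u (nat_lit 3) (a (v (nat_lit 5) (k (nat_lit 0x5ba47c8))) (u (nat_lit 4) (k (nat_lit 0x188c9ac))))))))) (u (nat_lit 2) (a (u (nat_lit 6) (a (v (nat_lit 9) (k (nat_lit 0x5eaf970))) (u (nat_lit 6) (k (nat_lit 0xa0417e))))) (a (u (nat_lit 3) (u (nat_lit 3) (k (nat_lit 0x99930)))) (v (nat_lit 2) (u (nat_lit 7) (k (nat_lit 0x94a5b0)))))))))) (a (a (v (nat_lit 1) (a (a (u (nat_lit 8)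 (v (nat_lit 8) (k (nat_lit 0x994e0)))) (a (u (nat_lit 7) (v (nat_lit 8) (k (nat_lit 0x5ba47c8)))) (u (nat_lit 6) (a (u (nat_lit 7) (k (nat_lit 0x188c9ac))) (u (nat_lit 6) (k (nat_lit 0x12593af6))))))) (a (a (u (nat_lit 4) (t (nat_lit 5) (nat_lit 8) (nat_lit 9) (k (nat_lit 0xfe46f0)))) (u (nat_lit 3) (a (a (u (nat_lit 9) (k (nat_lit 0x2b3f14))) (v (nat_lit 8) (k (nat_lit 0x9b07c)))) (a (u (nat_lit 6) (k (nat_lit 0x59d73c8))) (u (nat_lit 3) (k (nat_lit 0x99ec4))))))) (a (u (nat_lit 2) (u (nat_lit 5) (k (nat_lit 0x9902a)))) (v (nat_lit 1) (u (nat_lit 2) (k (nat_lit 0x9a1f4)))))))) (u (nat_lit 1) (a (a (u (nat_lit 7) (u (nat_lit 7) (k (nat_lit 0x99930)))) (u (nat_lit 4) (a (v (nat_lit 9) (k (nat_lit 0x5eaf970))) (u (nat_lit 4) (k (nat_lit 0xa0417e)))))) (a (v (nat_lit 2) (a (u (nat_lit 8) (k (nat_lit 0x9902a))) (v (nat_lit 2) (k (nat_lit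 0x9a1f4))))) (v (nat_lit 1) (u (nat_lit 3) (k (nat_lit 0x94a5b0)))))))) (a (v (nat_lit 0) (a (a (u (nat_lit 6) (v (nat_lit 9) (k (nat_lit 0x87cc132)))) (u (nat_lit 4) (v (nat_lit 9) (k (nat_lit 0x87cc132))))) (a (v (nat_lit 2) (u (nat_lit 8) (k (nat_lit 0x9969c)))) (v (nat_lit 1) (u (nat_lit 5) (k (nat_lit 0x9969c))))))) (a (u (nat_lit 0) (a (a (a (u (nat_lit 8) (u (nat_lit 9) (k (nat_lit 0x68e7f82)))) (u (nat_lit 7) (a (v (nat_lit 8) (k (nat_lit 0x9d66e))) (u (nat_lit 7) (k (nat_lit 0x624428a)))))) (a (u (nat_lit 6) (u (nat_lit 7) (k (nat_lit 0x10e4a46)))) (a (u (nat_lit 5) (u (nat_lit 9) (k (nat_lit 0x68e7f82)))) (u (nat_lit 4) (u (nat_lit 6) (k (nat_lit 0x1332fc))))))) (a (a (u (nat_lit 3) (a (v (nat_lit 5) (k (nat_lit 0x9d66e))) (a (u (nat_lit 4) (k (nat_lit 0x10e4a46))) (u (nat_lit 3) (k (nat_lit 0x624428a)))))) (v (nat_lit 1) (u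 (nat_lit 2) (k (nat_lit 0xaa9da8))))) (a (u (nat_lit 1) (v (nat_lit 2) (k (nat_lit 0xaa9da8)))) (a (v (nat_lit 0) (a (a (u (nat_lit 8) (k (nat_lit 0x991bc))) (u (nat_lit 7) (k (nat_lit 0x11405ee)))) (a (u (nat_lit 5) (k (nat_lit 0x991bc))) (u (nat_lit 3) (k (nat_lit 0x11405ee)))))) (u (nat_lit 0) (a (a (u (nat_lit 9) (k (nat_lit 0x13317c))) (u (nat_lit 2) (k (nat_lit 0x230e2f0)))) (a (u (nat_lit 1) (k (nat_lit 0x230e2f0))) (v (nat_lit 0) (k (nat_lit 0x1335f0))))))))))) (t (nat_lit 0) (nat_lit 1) (nat_lit 2) (a (a (a (u (nat_lit 9) (v (nat_lit 9) (k (nat_lit 0x133908)))) (a (v (nat_lit 7) (u (nat_lit 8) (k (nat_lit 0x9a24e)))) (v (nat_lit 6) (u (nat_lit 8) (k (nat_lit 0x2e00f68)))))) (a (a (u (nat_lit 6) (v (nat_lit 6) (k (nat_lit 0x3b59362)))) (v (nat_lit 5) (u (nat_lit 8) (k (nat_lit 0x48d0f14))))) (a (u (nat_lit 5) (a (v (nat_lit 8)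 (k (nat_lit 0x48d0f14))) (v (nat_lit 6) (k (nat_lit 0xe22d0e))))) (v (nat_lit 4) (a (u (nat_lit 8) (k (nat_lit 0xe22d0e))) (a (u (nat_lit 6) (k (nat_lit 0x4530936))) (u (nat_lit 5) (k (nat_lit 0x2e00f68))))))))) (a (a (u (nat_lit 4) (a (v (nat_lit 6) (k (nat_lit 0x4530936))) (v (nat_lit 4) (k (nat_lit 0x3b59362))))) (a (v (nat_lit 3) (u (nat_lit 5) (k (nat_lit 0x9a24e)))) (v (nat_lit 2) (u (nat_lit 5) (k (nat_lit 0x11bb510)))))) (a (a (u (nat_lit 2) (a (a (u (nat_lit 9) (k (nat_lit 0x1ac30be))) (u (nat_lit 8) (k (nat_lit 0x9925e)))) (a (v (nat_lit 7) (k (nat_lit 0x98ee0))) (v (nat_lit 6) (k (nat_lit 0x93ecf4)))))) (v (nat_lit 1) (u (nat_lit 8) (k (nat_lit 0x11bb510))))) (a (u (nat_lit 1) (a (a (u (nat_lit 9) (k (nat_lit 0x1ac30be))) (u (nat_lit 5) (k (nat_lit 0x9925e)))) (a (v (nat_lit 4) (k (nat_lit 0x93ecf4))) (v (nat_lit 3) (k (nat_lit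 0x98ee0)))))) (t (nat_lit 0) (nat_lit 1) (nat_lit 2) (a (a (u (nat_lit 7) (k (nat_lit 0x1d76d32))) (u (nat_lit 3) (k (nat_lit 0x1d76d32)))) (a (u (nat_lit 2) (k (nat_lit 0x98ef8))) (u (nat_lit 1) (k (nat_lit 0x98ef8))))))))))))))))))))))

open Fl.Tr in
/-- the table -/
noncomputable def T : Fl.Tr := (c (c (c (c (c (c (c (c (c (c (m (nat_lit 0x9b465850)) (c (p (nat_lit 0x3b7ac998)) (c (p (nat_lit 0x1bec820)) (c (p (nat_lit 0x5c1f4b0)) (c (p (nat_lit 0x1980)) e))))) (c (c (p (nat_lit 0x2fde84c4)) (c (m (nat_lit 0x26f37dbc)) (c (p (nat_lit 0x12ea30cc)) (c (m (nat_lit 0x230c958)) e)))) (c (c (p (nat_lit 0x201db030)) (c (p (nat_lit 0xdba3c2c)) (c (m (nat_lit 0x2571ff0)) e))) (c (c (p (nat_lit 0x78eba58)) (c (m (nat_lit 0x263b74)) e)) (c (c (m (nat_lit 0x131f4c)) e) e))))) (c (c (c (p (nat_lit 0x8dd25c40)) (c (m (nat_lit 0x5ee07158)) (c (p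 (nat_lit 0x1143c570)) (c (m (nat_lit 0x133200)) e)))) (c (c (m (nat_lit 0x18f57f60)) (c (p (nat_lit 0xe1f18c0)) (c (m (nat_lit 0xf9d38c0)) e))) (c (c (m (nat_lit 0x3004b210)) (c (m (nat_lit 0x991bc)) e)) (c (c (m (nat_lit 0x990c0)) e) e)))) (c (c (c (m (nat_lit 0x11737bc)) (c (p (nat_lit 0xd707900)) (c (m (nat_lit 0x3bf2b18)) e))) (c (c (p (nat_lit 0x8c2cec0)) (c (p (nat_lit 0xae47f94)) e)) (c (c (p (nat_lit 0xea3cfc0)) e) e))) (c (c (c (m (nat_lit 0x1c4e8)) (c (m (nat_lit 0x1b17d84)) e)) (c (c (m (nat_lit 0x1283d534)) e) e)) (c (c (c (m (nat_lit 0x132468)) e) e) e))))) (c (c (c (c (p (nat_lit 0x8dd25c40)) (c (m (nat_lit 0x2d07ac70)) (c (p (nat_lit 0xaaa41f4)) (c (m (nat_lit 0xccf480)) e)))) (c (c (m (nat_lit 0x4f290f6c)) (c (p (nat_lit 0x11183d6c)) (c (m (nat_lit 0x4855ef0)) e))) (c (c (p (nat_lit 0x39bf9c4)) (c (m (nat_lit 0x504b58c))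 e)) (c (c (m (nat_lit 0x2e99cc8)) e) e)))) (c (c (c (m (nat_lit 0x13a70894)) (c (m (nat_lit 0x399138)) (c (m (nat_lit 0x1cbf30)) e))) (c (c (p (nat_lit 0xa175bf8)) (c (p (nat_lit 0x580ae08)) e)) (c (c (p (nat_lit 0x58a5068)) e) e))) (c (c (c (p (nat_lit 0x5314110)) (c (p (nat_lit 0xef340c)) e)) (c (c (m (nat_lit 0x99114)) e) e)) (c (c (c (m (nat_lit 0x12f96c)) e) e) e)))) (c (c (c (c (m (nat_lit 0x11737bc)) (c (p (nat_lit 0x180dffbc)) (c (m (nat_lit 0x62dd938)) e))) (c (c (p (nat_lit 0xb11ecc0)) (c (m (nat_lit 0x62434a4)) e)) (c (c (p (nat_lit 0xd08)) e) e))) (c (c (c (m (nat_lit 0xd2ca44c)) (c (m (nat_lit 0x132e58)) e)) (c (c (p (nat_lit 0x5082e4c)) e) e)) (c (c (c (m (nat_lit 0x991c8)) e) e) e))) (c (c (c (c (m (nat_lit 0x1c4e8)) (c (m (nat_lit 0x6e4)) e)) (c (c (p (nat_lit 0x99c18)) e) e)) (c (c (c (p (nat_lit 0x98c7c)) e) e) e)) (c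 (c (c (c (m (nat_lit 0x132468)) e) e) e) e))))) (c (c (c (c (c (p (nat_lit 0x2fde84c4)) (c (m (nat_lit 0x26f37dbc)) (c (p (nat_lit 0x12ea30cc)) (c (m (nat_lit 0x230c958)) e)))) (c (c (p (nat_lit 0x1923fb88)) (c (p (nat_lit 0x19802ec8)) (c (m (nat_lit 0x345baa8)) e))) (c (c (p (nat_lit 0x1c81c08c)) (c (p (nat_lit 0xec03dc)) e)) (c (c (m (nat_lit 0x396c78)) e) e)))) (c (c (c (m (nat_lit 0x404bce48)) (c (p (nat_lit 0x1d757f30)) (c (m (nat_lit 0x9d8324)) e))) (c (c (m (nat_lit 0xf83cfd0)) (c (m (nat_lit 0x1316ab4)) e)) (c (c (m (nat_lit 0x9d8684)) e) e))) (c (c (c (p (nat_lit 0x12a9cb78)) (c (m (nat_lit 0x5a60eb8)) e)) (c (c (p (nat_lit 0xa43df24)) e) e)) (c (c (c (m (nat_lit 0xb94)) e) e) e)))) (c (c (c (c (p (nat_lit 0xa1517d8)) (c (p (nat_lit 0x1163c814)) (c (m (nat_lit 0x47bcfd4)) e))) (c (c (p (nat_lit 0xe9d4f44)) (c (m (nat_lit 0xb293bcc))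 e)) (c (c (m (nat_lit 0x50e51a4)) e) e))) (c (c (c (m (nat_lit 0x8dce814)) (c (m (nat_lit 0x1cb744)) e)) (c (c (p (nat_lit 0x5770ca4)) e) e)) (c (c (c (m (nat_lit 0x1cd1cc)) e) e) e))) (c (c (c (c (m (nat_lit 0x1e733770)) (c (m (nat_lit 0x6376d64)) e)) (c (c (m (nat_lit 0x990f0)) e) e)) (c (c (c (m (nat_lit 0x99300)) e) e) e)) (c (c (c (c (p (nat_lit 0x997e0)) e) e) e) e)))) (c (c (c (c (c (p (nat_lit 0x201db030)) (c (p (nat_lit 0xdba3c2c)) (c (m (nat_lit 0x2571ff0)) e))) (c (c (p (nat_lit 0x1c81c08c)) (c (p (nat_lit 0xec03dc)) e)) (c (c (m (nat_lit 0x294e8d40)) e) e))) (c (c (c (p (nat_lit 0x16fdbcf8)) (c (m (nat_lit 0x1316ba4)) e)) (c (c (m (nat_lit 0x13b1698)) e) e)) (c (c (c (m (nat_lit 0x4b19b3c)) e) e) e))) (c (c (c (c (m (nat_lit 0x192ff3c)) (c (p (nat_lit 0x1fd1918)) e)) (c (c (m (nat_lit 0x599673c)) e) e)) (c (c (c (m (nat_lit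 0x6bfefa4)) e) e) e)) (c (c (c (c (p (nat_lit 0xc680238)) e) e) e) e))) (c (c (c (c (c (p (nat_lit 0x78eba58)) (c (m (nat_lit 0x263b74)) e)) (c (c (m (nat_lit 0x396c78)) e) e)) (c (c (c (m (nat_lit 0x9d7a0c)) e) e) e)) (c (c (c (c (m (nat_lit 0x1eaca64)) e) e) e) e)) (c (c (c (c (c (m (nat_lit 0x131f4c)) e) e) e) e) e))))) (c (c (c (c (c (c (p (nat_lit 0x8dd25c40)) (c (m (nat_lit 0x2d07ac70)) (c (p (nat_lit 0xaaa41f4)) (c (m (nat_lit 0xccf480)) e)))) (c (c (p (nat_lit 0xa1517d8)) (c (p (nat_lit 0x1163c814)) (c (m (nat_lit 0x47bcfd4)) e))) (c (c (m (nat_lit 0x192ff3c)) (c (p (nat_lit 0x1fd1918)) e)) (c (c (m (nat_lit 0x1eaca64)) e) e)))) (c (c (c (m (nat_lit 0x13a70894)) (c (p (nat_lit 0x1dd8bcd4)) (c (m (nat_lit 0x11e2174)) e))) (c (c (p (nat_lit 0xc1d214c)) (c (p (nat_lit 0x70e828)) e)) (c (c (p (nat_lit 0x1b2a6a8)) e) e))) (c (c (c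 (m (nat_lit 0xd2ca44c)) (c (m (nat_lit 0x991e0)) e)) (c (c (p (nat_lit 0x82472c4)) e) e)) (c (c (c (p (nat_lit 0x98c7c)) e) e) e)))) (c (c (c (c (m (nat_lit 0x411b8530)) (c (p (nat_lit 0x1dbb1dd0)) (c (m (nat_lit 0x2645e8)) e))) (c (c (m (nat_lit 0x15e82ee8)) (c (m (nat_lit 0x990b4)) e)) (c (c (m (nat_lit 0x4fefd14)) e) e))) (c (c (c (m (nat_lit 0x11d96048)) (c (m (nat_lit 0x132918)) e)) (c (c (m (nat_lit 0x134dfc)) e) e)) (c (c (c (p (nat_lit 0x26f7c)) e) e) e))) (c (c (c (c (p (nat_lit 0x136c9f2c)) (c (m (nat_lit 0x6b83440)) e)) (c (c (m (nat_lit 0x6b84100)) e) e)) (c (c (c (p (nat_lit 0xe9f760)) e) e) e)) (c (c (c (c (m (nat_lit 0x1c91d0)) e) e) e) e)))) (c (c (c (c (c (m (nat_lit 0x4f290f6c)) (c (p (nat_lit 0x11183d6c)) (c (m (nat_lit 0x4855ef0)) e))) (c (c (p (nat_lit 0xe9d4f44)) (c (m (nat_lit 0xb293bcc)) e)) (c (c (m (nat_lit 0x599673c))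 e) e))) (c (c (c (p (nat_lit 0xdec7d10)) (c (m (nat_lit 0x117dca4)) e)) (c (c (p (nat_lit 0x17ed2c8)) e) e)) (c (c (c (m (nat_lit 0x99f0c)) e) e) e))) (c (c (c (c (m (nat_lit 0x15e82ee8)) (c (m (nat_lit 0x990b4)) e)) (c (c (m (nat_lit 0x6e394c0)) e) e)) (c (c (c (p (nat_lit 0x8e68624)) e) e) e)) (c (c (c (c (p (nat_lit 0x107d9030)) e) e) e) e))) (c (c (c (c (c (p (nat_lit 0x39bf9c4)) (c (m (nat_lit 0x504b58c)) e)) (c (c (m (nat_lit 0x50e51a4)) e) e)) (c (c (c (m (nat_lit 0x996b4)) e) e) e)) (c (c (c (c (m (nat_lit 0x4fefd14)) e) e) e) e)) (c (c (c (c (c (m (nat_lit 0x2e99cc8)) e) e) e) e) e)))) (c (c (c (c (c (c (m (nat_lit 0x11737bc)) (c (p (nat_lit 0x180dffbc)) (c (m (nat_lit 0x62dd938)) e))) (c (c (m (nat_lit 0x1e733770)) (c (m (nat_lit 0x6376d64)) e)) (c (c (p (nat_lit 0xc680238)) e) e))) (c (c (c (p (nat_lit 0x5314110)) (c (m (nat_lit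 0x6170088)) e)) (c (c (m (nat_lit 0x60d6e30)) e) e)) (c (c (c (m (nat_lit 0x991c8)) e) e) e))) (c (c (c (c (p (nat_lit 0x136c9f2c)) (c (m (nat_lit 0x6b83440)) e)) (c (c (p (nat_lit 0x107d9030)) e) e)) (c (c (c (p (nat_lit 0x7e34b90)) e) e) e)) (c (c (c (c (m (nat_lit 0x132bb8)) e) e) e) e))) (c (c (c (c (c (p (nat_lit 0xb11ecc0)) (c (m (nat_lit 0x62434a4)) e)) (c (c (m (nat_lit 0x990f0)) e) e)) (c (c (c (m (nat_lit 0x60d647c)) e) e) e)) (c (c (c (c (m (nat_lit 0x6b84100)) e) e) e) e)) (c (c (c (c (c (p (nat_lit 0xd08)) e) e) e) e) e))) (c (c (c (c (c (c (m (nat_lit 0x1c4e8)) (c (m (nat_lit 0x6e4)) e)) (c (c (p (nat_lit 0x997e0)) e) e)) (c (c (c (m (nat_lit 0x12f96c)) e) e) e)) (c (c (c (c (m (nat_lit 0x1c91d0)) e) e) e) e)) (c (c (c (c (c (p (nat_lit 0x99c18)) e) e) e) e) e)) (c (c (c (c (c (c (m (nat_lit 0x132468)) e) e) e) e) e) e)))))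 (c (c (c (c (c (c (c (p (nat_lit 0x8dd25c40)) (c (m (nat_lit 0x5ee07158)) (c (p (nat_lit 0x1143c570)) (c (m (nat_lit 0x133200)) e)))) (c (c (m (nat_lit 0x404bce48)) (c (p (nat_lit 0x1d757f30)) (c (m (nat_lit 0x9d8324)) e))) (c (c (p (nat_lit 0x16fdbcf8)) (c (m (nat_lit 0x1316ba4)) e)) (c (c (m (nat_lit 0x9d7a0c)) e) e)))) (c (c (c (m (nat_lit 0x411b8530)) (c (p (nat_lit 0x209032f8)) (c (p (nat_lit 0x134fe8)) e))) (c (c (p (nat_lit 0x388ed710)) (c (m (nat_lit 0x1168f0f8)) e)) (c (c (m (nat_lit 0x8af7380)) e) e))) (c (c (c (p (nat_lit 0x136c9f2c)) (c (m (nat_lit 0xc82ecf0)) e)) (c (c (m (nat_lit 0x9e16eac)) e) e)) (c (c (c (m (nat_lit 0x1c91d0)) e) e) e)))) (c (c (c (c (m (nat_lit 0x13a70894)) (c (p (nat_lit 0x1dd8bcd4)) (c (m (nat_lit 0x11e2174)) e))) (c (c (p (nat_lit 0xdec7d10)) (c (m (nat_lit 0x117dca4)) e)) (c (c (m (nat_lit 0x996b4))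 e) e))) (c (c (c (m (nat_lit 0x11d96048)) (c (p (nat_lit 0x390c)) e)) (c (c (m (nat_lit 0x132e10)) e) e)) (c (c (c (p (nat_lit 0x7e34b90)) e) e) e))) (c (c (c (c (p (nat_lit 0x5314110)) (c (m (nat_lit 0x6170088)) e)) (c (c (m (nat_lit 0x60d647c)) e) e)) (c (c (c (p (nat_lit 0x26f7c)) e) e) e)) (c (c (c (c (m (nat_lit 0x12f96c)) e) e) e) e)))) (c (c (c (c (c (m (nat_lit 0x18f57f60)) (c (p (nat_lit 0xe1f18c0)) (c (m (nat_lit 0xf9d38c0)) e))) (c (c (m (nat_lit 0xf83cfd0)) (c (m (nat_lit 0x1316ab4)) e)) (c (c (m (nat_lit 0x13b1698)) e) e))) (c (c (c (p (nat_lit 0x388ed710)) (c (m (nat_lit 0x1168f0f8)) e)) (c (c (m (nat_lit 0x115f55a0)) e) e)) (c (c (c (m (nat_lit 0x9d80768)) e) e) e))) (c (c (c (c (p (nat_lit 0xc1d214c)) (c (p (nat_lit 0x70e828)) e)) (c (c (p (nat_lit 0x17ed2c8)) e) e)) (c (c (c (m (nat_lit 0x99e70)) e) e) e)) (c (c (c (c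 (m (nat_lit 0x60d6e30)) e) e) e) e))) (c (c (c (c (c (m (nat_lit 0x3004b210)) (c (m (nat_lit 0x991bc)) e)) (c (c (m (nat_lit 0x9d8684)) e) e)) (c (c (c (m (nat_lit 0x8af7380)) e) e) e)) (c (c (c (c (p (nat_lit 0x1b2a6a8)) e) e) e) e)) (c (c (c (c (c (m (nat_lit 0x990c0)) e) e) e) e) e)))) (c (c (c (c (c (c (m (nat_lit 0x13a70894)) (c (m (nat_lit 0x399138)) (c (m (nat_lit 0x1cbf30)) e))) (c (c (m (nat_lit 0x8dce814)) (c (m (nat_lit 0x1cb744)) e)) (c (c (m (nat_lit 0x6bfefa4)) e) e))) (c (c (c (m (nat_lit 0x11d96048)) (c (p (nat_lit 0x390c)) e)) (c (c (m (nat_lit 0x99e70)) e) e)) (c (c (c (p (nat_lit 0xe9f760)) e) e) e))) (c (c (c (c (m (nat_lit 0x11d96048)) (c (m (nat_lit 0x132918)) e)) (c (c (p (nat_lit 0x8e68624)) e) e)) (c (c (c (m (nat_lit 0x264870)) e) e) e)) (c (c (c (c (p (nat_lit 0x7e34b90)) e) e) e) e))) (c (c (c (c (c (p (nat_lit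 0xa175bf8)) (c (p (nat_lit 0x580ae08)) e)) (c (c (p (nat_lit 0x5770ca4)) e) e)) (c (c (c (m (nat_lit 0x132e10)) e) e) e)) (c (c (c (c (m (nat_lit 0x134dfc)) e) e) e) e)) (c (c (c (c (c (p (nat_lit 0x58a5068)) e) e) e) e) e))) (c (c (c (c (c (c (m (nat_lit 0xd2ca44c)) (c (m (nat_lit 0x132e58)) e)) (c (c (m (nat_lit 0x99300)) e) e)) (c (c (c (p (nat_lit 0x26f7c)) e) e) e)) (c (c (c (c (p (nat_lit 0xe9f760)) e) e) e) e)) (c (c (c (c (c (p (nat_lit 0x5082e4c)) e) e) e) e) e)) (c (c (c (c (c (c (p (nat_lit 0x98c7c)) e) e) e) e) e) e)))) (c (c (c (c (c (c (c (m (nat_lit 0x11737bc)) (c (p (nat_lit 0xd707900)) (c (m (nat_lit 0x3bf2b18)) e))) (c (c (p (nat_lit 0x12a9cb78)) (c (m (nat_lit 0x5a60eb8)) e)) (c (c (m (nat_lit 0x4b19b3c)) e) e))) (c (c (c (p (nat_lit 0x136c9f2c)) (c (m (nat_lit 0xc82ecf0)) e)) (c (c (m (nat_lit 0x9d80768)) e) e)) (c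 (c (c (m (nat_lit 0x132bb8)) e) e) e))) (c (c (c (c (m (nat_lit 0xd2ca44c)) (c (m (nat_lit 0x991e0)) e)) (c (c (m (nat_lit 0x99f0c)) e) e)) (c (c (c (p (nat_lit 0xe9f760)) e) e) e)) (c (c (c (c (m (nat_lit 0x991c8)) e) e) e) e))) (c (c (c (c (c (p (nat_lit 0x8c2cec0)) (c (p (nat_lit 0xae47f94)) e)) (c (c (p (nat_lit 0xa43df24)) e) e)) (c (c (c (m (nat_lit 0x9e16eac)) e) e) e)) (c (c (c (c (p (nat_lit 0x82472c4)) e) e) e) e)) (c (c (c (c (c (p (nat_lit 0xea3cfc0)) e) e) e) e) e))) (c (c (c (c (c (c (p (nat_lit 0x5314110)) (c (p (nat_lit 0xef340c)) e)) (c (c (m (nat_lit 0x1cd1cc)) e) e)) (c (c (c (p (nat_lit 0x7e34b90)) e) e) e)) (c (c (c (c (p (nat_lit 0x26f7c)) e) e) e) e)) (c (c (c (c (c (m (nat_lit 0x99114)) e) e) e) e) e)) (c (c (c (c (c (c (m (nat_lit 0x991c8)) e) e) e) e) e) e))) (c (c (c (c (c (c (c (m (nat_lit 0x1c4e8)) (c (m (nat_lit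 0x1b17d84)) e)) (c (c (m (nat_lit 0xb94)) e) e)) (c (c (c (m (nat_lit 0x1c91d0)) e) e) e)) (c (c (c (c (p (nat_lit 0x98c7c)) e) e) e) e)) (c (c (c (c (c (m (nat_lit 0x1283d534)) e) e) e) e) e)) (c (c (c (c (c (c (m (nat_lit 0x12f96c)) e) e) e) e) e) e)) (c (c (c (c (c (c (c (m (nat_lit 0x132468)) e) e) e) e) e) e) e))))) (c (c (c (c (c (c (c (c (p (nat_lit 0x2fde84c4)) (c (p (nat_lit 0x41c15550)) (c (m (nat_lit 0x227f136c)) (c (p (nat_lit 0x693c24)) e)))) (c (c (p (nat_lit 0x293c748)) (c (p (nat_lit 0x22345a1c)) (c (m (nat_lit 0x1253fd0)) e))) (c (c (m (nat_lit 0x154abbc)) (c (m (nat_lit 0x24a8744)) e)) (c (c (m (nat_lit 0x5c10a74)) e) e)))) (c (c (c (m (nat_lit 0x4f290f6c)) (c (p (nat_lit 0x59e0530)) (c (p (nat_lit 0x9301074)) e))) (c (c (m (nat_lit 0x2423208)) (c (m (nat_lit 0x6e9157c)) e)) (c (c (p (nat_lit 0xda7162c)) e) e))) (c (c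 (c (p (nat_lit 0xb11ecc0)) (c (p (nat_lit 0x2a972b4)) e)) (c (c (p (nat_lit 0x109c1a0)) e) e)) (c (c (c (p (nat_lit 0x99c18)) e) e) e)))) (c (c (c (c (m (nat_lit 0x404bce48)) (c (m (nat_lit 0x1398e010)) (c (p (nat_lit 0x6279d98)) e))) (c (c (p (nat_lit 0x53e8a98)) (c (m (nat_lit 0x134508)) e)) (c (c (m (nat_lit 0x1cd244)) e) e))) (c (c (c (p (nat_lit 0xdec7d10)) (c (p (nat_lit 0x4cc110)) e)) (c (c (m (nat_lit 0xb0337c)) e) e)) (c (c (c (m (nat_lit 0x60d647c)) e) e) e))) (c (c (c (c (p (nat_lit 0x12a9cb78)) (c (p (nat_lit 0x113199c)) e)) (c (c (p (nat_lit 0x1134d20)) e) e)) (c (c (c (m (nat_lit 0x99f0c)) e) e) e)) (c (c (c (c (m (nat_lit 0xb94)) e) e) e) e)))) (c (c (c (c (c (p (nat_lit 0x293c748)) (c (p (nat_lit 0x1a25d2fc)) (c (m (nat_lit 0x12c)) e))) (c (c (p (nat_lit 0x25465938)) (c (m (nat_lit 0x24a9c14)) e)) (c (c (m (nat_lit 0x22dd7b0))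 e) e))) (c (c (c (p (nat_lit 0x53e8a98)) (c (m (nat_lit 0x6c7f47c)) e)) (c (c (m (nat_lit 0x6c7f7c4)) e) e)) (c (c (c (p (nat_lit 0x1134d20)) e) e) e))) (c (c (c (c (m (nat_lit 0x12aaa5a0)) (c (m (nat_lit 0x303cf60)) e)) (c (c (m (nat_lit 0x1cd1c0)) e) e)) (c (c (c (m (nat_lit 0x132498)) e) e) e)) (c (c (c (c (m (nat_lit 0x1c9c338)) e) e) e) e))) (c (c (c (c (c (m (nat_lit 0x97fe3a8)) (c (m (nat_lit 0xfc)) e)) (c (c (m (nat_lit 0x11229e4)) e) e)) (c (c (c (m (nat_lit 0x3e7f528)) e) e) e)) (c (c (c (c (p (nat_lit 0x33c8a30)) e) e) e) e)) (c (c (c (c (c (m (nat_lit 0x49bc240)) e) e) e) e) e)))) (c (c (c (c (c (c (m (nat_lit 0x18f57f60)) (c (m (nat_lit 0x22d7cc18)) (c (p (nat_lit 0x6315b28)) e))) (c (c (p (nat_lit 0xf87414)) (c (m (nat_lit 0x8bdf628)) e)) (c (c (m (nat_lit 0x2876124)) e) e))) (c (c (c (p (nat_lit 0xa175bf8)) (c (m (nat_lit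 0xfa16610)) e)) (c (c (m (nat_lit 0xb9e704)) e) e)) (c (c (c (p (nat_lit 0x5082e4c)) e) e) e))) (c (c (c (c (p (nat_lit 0x388ed710)) (c (m (nat_lit 0x1327d4)) e)) (c (c (m (nat_lit 0x6e84b5c)) e) e)) (c (c (c (m (nat_lit 0x132e10)) e) e) e)) (c (c (c (c (m (nat_lit 0x9d80768)) e) e) e) e))) (c (c (c (c (c (m (nat_lit 0x2423208)) (c (m (nat_lit 0x97050)) e)) (c (c (m (nat_lit 0xd8f963c)) e) e)) (c (c (c (m (nat_lit 0xb0337c)) e) e) e)) (c (c (c (c (p (nat_lit 0xf835a04)) e) e) e) e)) (c (c (c (c (c (m (nat_lit 0x13326c)) e) e) e) e) e))) (c (c (c (c (c (c (p (nat_lit 0x8c2cec0)) (c (p (nat_lit 0x113520c)) e)) (c (c (p (nat_lit 0x109c2b4)) e) e)) (c (c (c (m (nat_lit 0x99114)) e) e) e)) (c (c (c (c (m (nat_lit 0x9e16eac)) e) e) e) e)) (c (c (c (c (c (p (nat_lit 0x109c1a0)) e) e) e) e) e)) (c (c (c (c (c (c (m (nat_lit 0x1283d534)) e) e)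 e) e) e) e)))) (c (c (c (c (c (c (c (p (nat_lit 0xa1517d8)) (c (m (nat_lit 0x2917dbc8)) (c (p (nat_lit 0x16a69e98)) e))) (c (c (m (nat_lit 0x12aaa5a0)) (c (m (nat_lit 0x2cc3550)) e)) (c (c (m (nat_lit 0x1ea002c)) e) e))) (c (c (c (m (nat_lit 0x15e82ee8)) (c (p (nat_lit 0x6356118)) e)) (c (c (p (nat_lit 0xf835a04)) e) e)) (c (c (c (m (nat_lit 0x6b84100)) e) e) e))) (c (c (c (c (m (nat_lit 0x8dce814)) (c (m (nat_lit 0x9b520)) e)) (c (c (m (nat_lit 0x132498)) e) e)) (c (c (c (p (nat_lit 0x8e68624)) e) e) e)) (c (c (c (c (m (nat_lit 0x1cd1cc)) e) e) e) e))) (c (c (c (c (c (p (nat_lit 0xf87414)) (c (m (nat_lit 0x1d787b4)) e)) (c (c (m (nat_lit 0x2cc3394)) e) e)) (c (c (c (m (nat_lit 0x6e84b5c)) e) e) e)) (c (c (c (c (m (nat_lit 0x9aea8)) e) e) e) e)) (c (c (c (c (c (p (nat_lit 0xf883950)) e) e) e) e) e))) (c (c (c (c (c (c (p (nat_lit 0xc1d214c))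 (c (p (nat_lit 0x5fef80)) e)) (c (c (m (nat_lit 0x9aea8)) e) e)) (c (c (c (m (nat_lit 0x134dfc)) e) e) e)) (c (c (c (c (m (nat_lit 0x99e70)) e) e) e) e)) (c (c (c (c (c (m (nat_lit 0xb9e704)) e) e) e) e) e)) (c (c (c (c (c (c (p (nat_lit 0x82472c4)) e) e) e) e) e) e))) (c (c (c (c (c (c (c (m (nat_lit 0x1e733770)) (c (p (nat_lit 0x109c164)) e)) (c (c (m (nat_lit 0x1c9c338)) e) e)) (c (c (c (p (nat_lit 0x107d9030)) e) e) e)) (c (c (c (c (m (nat_lit 0x99300)) e) e) e) e)) (c (c (c (c (c (p (nat_lit 0x109c2b4)) e) e) e) e) e)) (c (c (c (c (c (c (m (nat_lit 0x60d6e30)) e) e) e) e) e) e)) (c (c (c (c (c (c (c (p (nat_lit 0x997e0)) e) e) e) e) e) e) e)))) (c (c (c (c (c (c (c (c (p (nat_lit 0x201db030)) (c (m (nat_lit 0x1aada2ec)) (c (m (nat_lit 0x1cc7dc)) e))) (c (c (m (nat_lit 0x97fe3a8)) (c (m (nat_lit 0x1325ac)) e)) (c (c (m (nat_lit 0x132444))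 e) e))) (c (c (c (p (nat_lit 0x39bf9c4)) (c (p (nat_lit 0x21a890)) e)) (c (c (m (nat_lit 0x13326c)) e) e)) (c (c (c (p (nat_lit 0xd08)) e) e) e))) (c (c (c (c (p (nat_lit 0x16fdbcf8)) (c (p (nat_lit 0x4e32394)) e)) (c (c (m (nat_lit 0x3e7f528)) e) e)) (c (c (c (m (nat_lit 0x996b4)) e) e) e)) (c (c (c (c (m (nat_lit 0x4b19b3c)) e) e) e) e))) (c (c (c (c (c (m (nat_lit 0x154abbc)) (c (m (nat_lit 0x9912c)) e)) (c (c (m (nat_lit 0x92d4368)) e) e)) (c (c (c (m (nat_lit 0x1cd244)) e) e) e)) (c (c (c (c (m (nat_lit 0x1ea002c)) e) e) e) e)) (c (c (c (c (c (m (nat_lit 0x132444)) e) e) e) e) e))) (c (c (c (c (c (c (m (nat_lit 0x3004b210)) (c (p (nat_lit 0x106a6fac)) e)) (c (c (p (nat_lit 0xf883950)) e) e)) (c (c (c (p (nat_lit 0x58a5068)) e) e) e)) (c (c (c (c (m (nat_lit 0x8af7380)) e) e) e) e)) (c (c (c (c (c (p (nat_lit 0xda7162c)) e) e) e)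 e) e)) (c (c (c (c (c (c (p (nat_lit 0xea3cfc0)) e) e) e) e) e) e))) (c (c (c (c (c (c (c (m (nat_lit 0x192ff3c)) (c (p (nat_lit 0x332fe38)) e)) (c (c (p (nat_lit 0x33c8a30)) e) e)) (c (c (c (m (nat_lit 0x4fefd14)) e) e) e)) (c (c (c (c (m (nat_lit 0x6bfefa4)) e) e) e) e)) (c (c (c (c (c (m (nat_lit 0x2876124)) e) e) e) e) e)) (c (c (c (c (c (c (p (nat_lit 0x1b2a6a8)) e) e) e) e) e) e)) (c (c (c (c (c (c (c (p (nat_lit 0xc680238)) e) e) e) e) e) e) e))) (c (c (c (c (c (c (c (c (p (nat_lit 0x78eba58)) (c (m (nat_lit 0x302b884)) e)) (c (c (m (nat_lit 0x49bc240)) e) e)) (c (c (c (m (nat_lit 0x2e99cc8)) e) e) e)) (c (c (c (c (m (nat_lit 0x9d7a0c)) e) e) e) e)) (c (c (c (c (c (m (nat_lit 0x5c10a74)) e) e) e) e) e)) (c (c (c (c (c (c (m (nat_lit 0x990c0)) e) e) e) e) e) e)) (c (c (c (c (c (c (c (m (nat_lit 0x1eaca64)) e) e) e) e) e) e) e))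 (c (c (c (c (c (c (c (c (m (nat_lit 0x131f4c)) e) e) e) e) e) e) e) e))))) (c (c (c (c (c (c (c (c (c (p (nat_lit 0x2fde84c4)) (c (p (nat_lit 0x41c15550)) (c (m (nat_lit 0x227f136c)) (c (p (nat_lit 0x693c24)) e)))) (c (c (p (nat_lit 0x293c748)) (c (p (nat_lit 0x1a25d2fc)) (c (m (nat_lit 0x12c)) e))) (c (c (m (nat_lit 0x97fe3a8)) (c (m (nat_lit 0xfc)) e)) (c (c (m (nat_lit 0x49bc240)) e) e)))) (c (c (c (p (nat_lit 0xa1517d8)) (c (m (nat_lit 0x2917dbc8)) (c (p (nat_lit 0x16a69e98)) e))) (c (c (p (nat_lit 0xf87414)) (c (m (nat_lit 0x1d787b4)) e)) (c (c (p (nat_lit 0xf883950)) e) e))) (c (c (c (m (nat_lit 0x1e733770)) (c (p (nat_lit 0x109c164)) e)) (c (c (p (nat_lit 0x109c2b4)) e) e)) (c (c (c (p (nat_lit 0x997e0)) e) e) e)))) (c (c (c (c (m (nat_lit 0x18f57f60)) (c (m (nat_lit 0x22d7cc18)) (c (p (nat_lit 0x6315b28)) e))) (c (c (m (nat_lit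 0x2423208)) (c (m (nat_lit 0x97050)) e)) (c (c (m (nat_lit 0x13326c)) e) e))) (c (c (c (p (nat_lit 0xc1d214c)) (c (p (nat_lit 0x5fef80)) e)) (c (c (m (nat_lit 0xb9e704)) e) e)) (c (c (c (m (nat_lit 0x60d6e30)) e) e) e))) (c (c (c (c (p (nat_lit 0x8c2cec0)) (c (p (nat_lit 0x113520c)) e)) (c (c (p (nat_lit 0x109c1a0)) e) e)) (c (c (c (p (nat_lit 0x82472c4)) e) e) e)) (c (c (c (c (m (nat_lit 0x1283d534)) e) e) e) e)))) (c (c (c (c (c (p (nat_lit 0x293c748)) (c (p (nat_lit 0x22345a1c)) (c (m (nat_lit 0x1253fd0)) e))) (c (c (p (nat_lit 0x25465938)) (c (m (nat_lit 0x24a9c14)) e)) (c (c (m (nat_lit 0x11229e4)) e) e))) (c (c (c (m (nat_lit 0x12aaa5a0)) (c (m (nat_lit 0x2cc3550)) e)) (c (c (m (nat_lit 0x2cc3394)) e) e)) (c (c (c (m (nat_lit 0x1c9c338)) e) e) e))) (c (c (c (c (p (nat_lit 0xf87414)) (c (m (nat_lit 0x8bdf628)) e)) (c (c (m (nat_lit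 0xd8f963c)) e) e)) (c (c (c (m (nat_lit 0x9aea8)) e) e) e)) (c (c (c (c (p (nat_lit 0x109c2b4)) e) e) e) e))) (c (c (c (c (c (m (nat_lit 0x154abbc)) (c (m (nat_lit 0x24a8744)) e)) (c (c (m (nat_lit 0x22dd7b0)) e) e)) (c (c (c (m (nat_lit 0x1ea002c)) e) e) e)) (c (c (c (c (m (nat_lit 0x2876124)) e) e) e) e)) (c (c (c (c (c (m (nat_lit 0x5c10a74)) e) e) e) e) e)))) (c (c (c (c (c (c (m (nat_lit 0x404bce48)) (c (m (nat_lit 0x1398e010)) (c (p (nat_lit 0x6279d98)) e))) (c (c (m (nat_lit 0x12aaa5a0)) (c (m (nat_lit 0x303cf60)) e)) (c (c (p (nat_lit 0x33c8a30)) e) e))) (c (c (c (m (nat_lit 0x8dce814)) (c (m (nat_lit 0x9b520)) e)) (c (c (m (nat_lit 0x9aea8)) e) e)) (c (c (c (m (nat_lit 0x99300)) e) e) e))) (c (c (c (c (p (nat_lit 0x388ed710)) (c (m (nat_lit 0x1327d4)) e)) (c (c (p (nat_lit 0xf835a04)) e) e)) (c (c (c (m (nat_lit 0x99e70)) e)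 e) e)) (c (c (c (c (m (nat_lit 0x9e16eac)) e) e) e) e))) (c (c (c (c (c (p (nat_lit 0x53e8a98)) (c (m (nat_lit 0x134508)) e)) (c (c (m (nat_lit 0x1cd1c0)) e) e)) (c (c (c (m (nat_lit 0x132498)) e) e) e)) (c (c (c (c (m (nat_lit 0x6e84b5c)) e) e) e) e)) (c (c (c (c (c (m (nat_lit 0x1cd244)) e) e) e) e) e))) (c (c (c (c (c (c (p (nat_lit 0x12a9cb78)) (c (p (nat_lit 0x113199c)) e)) (c (c (m (nat_lit 0x1c9c338)) e) e)) (c (c (c (m (nat_lit 0x1cd1cc)) e) e) e)) (c (c (c (c (m (nat_lit 0x9d80768)) e) e) e) e)) (c (c (c (c (c (p (nat_lit 0x1134d20)) e) e) e) e) e)) (c (c (c (c (c (c (m (nat_lit 0xb94)) e) e) e) e) e) e)))) (c (c (c (c (c (c (c (m (nat_lit 0x4f290f6c)) (c (p (nat_lit 0x59e0530)) (c (p (nat_lit 0x9301074)) e))) (c (c (p (nat_lit 0x53e8a98)) (c (m (nat_lit 0x6c7f47c)) e)) (c (c (m (nat_lit 0x3e7f528)) e) e))) (c (c (c (m (nat_lit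 0x15e82ee8)) (c (p (nat_lit 0x6356118)) e)) (c (c (m (nat_lit 0x6e84b5c)) e) e)) (c (c (c (p (nat_lit 0x107d9030)) e) e) e))) (c (c (c (c (p (nat_lit 0xa175bf8)) (c (m (nat_lit 0xfa16610)) e)) (c (c (m (nat_lit 0xb0337c)) e) e)) (c (c (c (m (nat_lit 0x134dfc)) e) e) e)) (c (c (c (c (m (nat_lit 0x99114)) e) e) e) e))) (c (c (c (c (c (m (nat_lit 0x2423208)) (c (m (nat_lit 0x6e9157c)) e)) (c (c (m (nat_lit 0x6c7f7c4)) e) e)) (c (c (c (p (nat_lit 0xf835a04)) e) e) e)) (c (c (c (c (m (nat_lit 0xb9e704)) e) e) e) e)) (c (c (c (c (c (p (nat_lit 0xda7162c)) e) e) e) e) e))) (c (c (c (c (c (c (p (nat_lit 0xdec7d10)) (c (p (nat_lit 0x4cc110)) e)) (c (c (m (nat_lit 0x132498)) e) e)) (c (c (c (p (nat_lit 0x8e68624)) e) e) e)) (c (c (c (c (m (nat_lit 0x132e10)) e) e) e) e)) (c (c (c (c (c (m (nat_lit 0xb0337c)) e) e) e) e) e)) (c (c (c (c (c (c (m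 (nat_lit 0x99f0c)) e) e) e) e) e) e))) (c (c (c (c (c (c (c (p (nat_lit 0xb11ecc0)) (c (p (nat_lit 0x2a972b4)) e)) (c (c (p (nat_lit 0x1134d20)) e) e)) (c (c (c (m (nat_lit 0x6b84100)) e) e) e)) (c (c (c (c (p (nat_lit 0x5082e4c)) e) e) e) e)) (c (c (c (c (c (p (nat_lit 0x109c1a0)) e) e) e) e) e)) (c (c (c (c (c (c (m (nat_lit 0x60d647c)) e) e) e) e) e) e)) (c (c (c (c (c (c (c (p (nat_lit 0x99c18)) e) e) e) e) e) e) e)))) (c (c (c (c (c (c (c (c (p (nat_lit 0x1923fb88)) (c (m (nat_lit 0x51069f0)) (c (m (nat_lit 0x9408d20)) e))) (c (c (p (nat_lit 0x25465938)) (c (m (nat_lit 0x123dcba8)) e)) (c (c (m (nat_lit 0x92d4368)) e) e))) (c (c (c (p (nat_lit 0xe9d4f44)) (c (p (nat_lit 0x21af5c)) e)) (c (c (m (nat_lit 0xd8f963c)) e) e)) (c (c (c (m (nat_lit 0x990f0)) e) e) e))) (c (c (c (c (m (nat_lit 0xf83cfd0)) (c (p (nat_lit 0x4ecafbc)) e)) (c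 (c (m (nat_lit 0x6c7f7c4)) e) e)) (c (c (c (p (nat_lit 0x17ed2c8)) e) e) e)) (c (c (c (c (p (nat_lit 0xa43df24)) e) e) e) e))) (c (c (c (c (c (p (nat_lit 0x25465938)) (c (m (nat_lit 0x123dcba8)) e)) (c (c (m (nat_lit 0x248eb9f0)) e) e)) (c (c (c (m (nat_lit 0x1cd1c0)) e) e) e)) (c (c (c (c (m (nat_lit 0x2cc3394)) e) e) e) e)) (c (c (c (c (c (m (nat_lit 0x92d4368)) e) e) e) e) e))) (c (c (c (c (c (c (m (nat_lit 0xf83cfd0)) (c (p (nat_lit 0x4ecafbc)) e)) (c (c (m (nat_lit 0x2cc3394)) e) e)) (c (c (c (p (nat_lit 0x5770ca4)) e) e) e)) (c (c (c (c (m (nat_lit 0x115f55a0)) e) e) e) e)) (c (c (c (c (c (m (nat_lit 0x6c7f7c4)) e) e) e) e) e)) (c (c (c (c (c (c (p (nat_lit 0xa43df24)) e) e) e) e) e) e))) (c (c (c (c (c (c (c (p (nat_lit 0xe9d4f44)) (c (p (nat_lit 0x21af5c)) e)) (c (c (m (nat_lit 0x1cd1c0)) e) e)) (c (c (c (m (nat_lit 0x6e394c0))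 e) e) e)) (c (c (c (c (p (nat_lit 0x5770ca4)) e) e) e) e)) (c (c (c (c (c (m (nat_lit 0xd8f963c)) e) e) e) e) e)) (c (c (c (c (c (c (p (nat_lit 0x17ed2c8)) e) e) e) e) e) e)) (c (c (c (c (c (c (c (m (nat_lit 0x990f0)) e) e) e) e) e) e) e))) (c (c (c (c (c (c (c (c (p (nat_lit 0x1c81c08c)) (c (p (nat_lit 0x4fb012c)) e)) (c (c (m (nat_lit 0x11229e4)) e) e)) (c (c (c (m (nat_lit 0x50e51a4)) e) e) e)) (c (c (c (c (m (nat_lit 0x13b1698)) e) e) e) e)) (c (c (c (c (c (m (nat_lit 0x22dd7b0)) e) e) e) e) e)) (c (c (c (c (c (c (m (nat_lit 0x9d8684)) e) e) e) e) e) e)) (c (c (c (c (c (c (c (m (nat_lit 0x599673c)) e) e) e) e) e) e) e)) (c (c (c (c (c (c (c (c (m (nat_lit 0x396c78)) e) e) e) e) e) e) e) e)))) (c (c (c (c (c (c (c (c (c (p (nat_lit 0x201db030)) (c (m (nat_lit 0x1aada2ec)) (c (m (nat_lit 0x1cc7dc)) e))) (c (c (m (nat_lit 0x154abbc))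 (c (m (nat_lit 0x9912c)) e)) (c (c (m (nat_lit 0x132444)) e) e))) (c (c (c (m (nat_lit 0x192ff3c)) (c (p (nat_lit 0x332fe38)) e)) (c (c (m (nat_lit 0x2876124)) e) e)) (c (c (c (p (nat_lit 0xc680238)) e) e) e))) (c (c (c (c (m (nat_lit 0x3004b210)) (c (p (nat_lit 0x106a6fac)) e)) (c (c (p (nat_lit 0xda7162c)) e) e)) (c (c (c (p (nat_lit 0x1b2a6a8)) e) e) e)) (c (c (c (c (p (nat_lit 0xea3cfc0)) e) e) e) e))) (c (c (c (c (c (m (nat_lit 0x97fe3a8)) (c (m (nat_lit 0x1325ac)) e)) (c (c (m (nat_lit 0x92d4368)) e) e)) (c (c (c (p (nat_lit 0x33c8a30)) e) e) e)) (c (c (c (c (p (nat_lit 0xf883950)) e) e) e) e)) (c (c (c (c (c (m (nat_lit 0x132444)) e) e) e) e) e))) (c (c (c (c (c (c (p (nat_lit 0x16fdbcf8)) (c (p (nat_lit 0x4e32394)) e)) (c (c (m (nat_lit 0x1ea002c)) e) e)) (c (c (c (m (nat_lit 0x6bfefa4)) e) e) e)) (c (c (c (c (m (nat_lit 0x8af7380))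 e) e) e) e)) (c (c (c (c (c (m (nat_lit 0x3e7f528)) e) e) e) e) e)) (c (c (c (c (c (c (m (nat_lit 0x4b19b3c)) e) e) e) e) e) e))) (c (c (c (c (c (c (c (p (nat_lit 0x39bf9c4)) (c (p (nat_lit 0x21a890)) e)) (c (c (m (nat_lit 0x1cd244)) e) e)) (c (c (c (m (nat_lit 0x4fefd14)) e) e) e)) (c (c (c (c (p (nat_lit 0x58a5068)) e) e) e) e)) (c (c (c (c (c (m (nat_lit 0x13326c)) e) e) e) e) e)) (c (c (c (c (c (c (m (nat_lit 0x996b4)) e) e) e) e) e) e)) (c (c (c (c (c (c (c (p (nat_lit 0xd08)) e) e) e) e) e) e) e))) (c (c (c (c (c (c (c (c (p (nat_lit 0x1c81c08c)) (c (p (nat_lit 0x4fb012c)) e)) (c (c (m (nat_lit 0x22dd7b0)) e) e)) (c (c (c (m (nat_lit 0x599673c)) e) e) e)) (c (c (c (c (m (nat_lit 0x9d8684)) e) e) e) e)) (c (c (c (c (c (m (nat_lit 0x11229e4)) e) e) e) e) e)) (c (c (c (c (c (c (m (nat_lit 0x13b1698)) e) e) e) e) e) e)) (c (c (c (c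 (c (c (c (m (nat_lit 0x50e51a4)) e) e) e) e) e) e) e)) (c (c (c (c (c (c (c (c (m (nat_lit 0x294e8d40)) e) e) e) e) e) e) e) e))) (c (c (c (c (c (c (c (c (c (p (nat_lit 0x78eba58)) (c (m (nat_lit 0x302b884)) e)) (c (c (m (nat_lit 0x5c10a74)) e) e)) (c (c (c (m (nat_lit 0x1eaca64)) e) e) e)) (c (c (c (c (m (nat_lit 0x990c0)) e) e) e) e)) (c (c (c (c (c (m (nat_lit 0x49bc240)) e) e) e) e) e)) (c (c (c (c (c (c (m (nat_lit 0x9d7a0c)) e) e) e) e) e) e)) (c (c (c (c (c (c (c (m (nat_lit 0x2e99cc8)) e) e) e) e) e) e) e)) (c (c (c (c (c (c (c (c (m (nat_lit 0x396c78)) e) e) e) e) e) e) e) e)) (c (c (c (c (c (c (c (c (c (m (nat_lit 0x131f4c)) e) e) e) e) e) e) e) e) e))))) (c (c (c (c (c (c (c (c (c (c (p (nat_lit 0x3b7ac998)) (c (p (nat_lit 0x3b665740)) (c (m (nat_lit 0x129901c8)) (c (p (nat_lit 0x3962b8)) e)))) (c (c (p (nat_lit 0x41c15550))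 (c (p (nat_lit 0x1f6ca8c8)) (c (p (nat_lit 0x18f7524)) e))) (c (c (m (nat_lit 0x1aada2ec)) (c (p (nat_lit 0x34ed674)) e)) (c (c (m (nat_lit 0x302b884)) e) e)))) (c (c (c (m (nat_lit 0x2d07ac70)) (c (m (nat_lit 0x21228a44)) (c (p (nat_lit 0x7bae0c0)) e))) (c (c (m (nat_lit 0x22d7cc18)) (c (m (nat_lit 0x44ee57c)) e)) (c (c (p (nat_lit 0x106a6fac)) e) e))) (c (c (c (p (nat_lit 0x180dffbc)) (c (p (nat_lit 0x11cb830)) e)) (c (c (p (nat_lit 0x113520c)) e) e)) (c (c (c (m (nat_lit 0x6e4)) e) e) e)))) (c (c (c (c (m (nat_lit 0x5ee07158)) (c (m (nat_lit 0x21228a44)) (c (p (nat_lit 0x6444504)) e))) (c (c (p (nat_lit 0x59e0530)) (c (p (nat_lit 0x34c44c)) e)) (c (c (p (nat_lit 0x21a890)) e) e))) (c (c (c (p (nat_lit 0x1dd8bcd4)) (c (p (nat_lit 0x698a3c)) e)) (c (c (m (nat_lit 0xfa16610)) e) e)) (c (c (c (m (nat_lit 0x6170088)) e) e) e))) (c (c (c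 (c (p (nat_lit 0xd707900)) (c (p (nat_lit 0x11cb830)) e)) (c (c (p (nat_lit 0x2a972b4)) e) e)) (c (c (c (m (nat_lit 0x991e0)) e) e) e)) (c (c (c (c (m (nat_lit 0x1b17d84)) e) e) e) e)))) (c (c (c (c (c (p (nat_lit 0x41c15550)) (c (p (nat_lit 0x1f6ca8c8)) (c (p (nat_lit 0x18f7524)) e))) (c (c (m (nat_lit 0x51069f0)) (c (p (nat_lit 0x68a76b0)) e)) (c (c (p (nat_lit 0x4fb012c)) e) e))) (c (c (c (m (nat_lit 0x1398e010)) (c (m (nat_lit 0x3a324e0)) e)) (c (c (p (nat_lit 0x4ecafbc)) e) e)) (c (c (c (p (nat_lit 0x113199c)) e) e) e))) (c (c (c (c (m (nat_lit 0x2917dbc8)) (c (m (nat_lit 0x2e7001c)) e)) (c (c (p (nat_lit 0x21af5c)) e) e)) (c (c (c (m (nat_lit 0x9b520)) e) e) e)) (c (c (c (c (p (nat_lit 0x109c164)) e) e) e) e))) (c (c (c (c (c (m (nat_lit 0x1aada2ec)) (c (p (nat_lit 0x34ed674)) e)) (c (c (p (nat_lit 0x4fb012c)) e) e)) (c (c (c (p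 (nat_lit 0x4e32394)) e) e) e)) (c (c (c (c (p (nat_lit 0x332fe38)) e) e) e) e)) (c (c (c (c (c (m (nat_lit 0x302b884)) e) e) e) e) e)))) (c (c (c (c (c (c (m (nat_lit 0x5ee07158)) (c (m (nat_lit 0x21228a44)) (c (p (nat_lit 0x6444504)) e))) (c (c (m (nat_lit 0x2917dbc8)) (c (m (nat_lit 0x2e7001c)) e)) (c (c (p (nat_lit 0x332fe38)) e) e))) (c (c (c (m (nat_lit 0x399138)) (c (p (nat_lit 0x698a3c)) e)) (c (c (p (nat_lit 0x5fef80)) e) e)) (c (c (c (m (nat_lit 0x132e58)) e) e) e))) (c (c (c (c (p (nat_lit 0x209032f8)) (c (p (nat_lit 0x2fb5ae0)) e)) (c (c (p (nat_lit 0x6356118)) e) e)) (c (c (c (p (nat_lit 0x390c)) e) e) e)) (c (c (c (c (m (nat_lit 0xc82ecf0)) e) e) e) e))) (c (c (c (c (c (p (nat_lit 0x59e0530)) (c (p (nat_lit 0x34c44c)) e)) (c (c (p (nat_lit 0x21af5c)) e) e)) (c (c (c (p (nat_lit 0x4cc110)) e) e) e)) (c (c (c (c (p (nat_lit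 0x6356118)) e) e) e) e)) (c (c (c (c (c (p (nat_lit 0x21a890)) e) e) e) e) e))) (c (c (c (c (c (c (p (nat_lit 0xd707900)) (c (p (nat_lit 0x11cb830)) e)) (c (c (p (nat_lit 0x109c164)) e) e)) (c (c (c (p (nat_lit 0xef340c)) e) e) e)) (c (c (c (c (m (nat_lit 0xc82ecf0)) e) e) e) e)) (c (c (c (c (c (p (nat_lit 0x2a972b4)) e) e) e) e) e)) (c (c (c (c (c (c (m (nat_lit 0x1b17d84)) e) e) e) e) e) e)))) (c (c (c (c (c (c (c (m (nat_lit 0x2d07ac70)) (c (m (nat_lit 0x21228a44)) (c (p (nat_lit 0x7bae0c0)) e))) (c (c (m (nat_lit 0x1398e010)) (c (m (nat_lit 0x3a324e0)) e)) (c (c (p (nat_lit 0x4e32394)) e) e))) (c (c (c (p (nat_lit 0x1dbb1dd0)) (c (p (nat_lit 0x2fb5ae0)) e)) (c (c (m (nat_lit 0x1327d4)) e) e)) (c (c (c (m (nat_lit 0x6b83440)) e) e) e))) (c (c (c (c (m (nat_lit 0x399138)) (c (p (nat_lit 0x698a3c)) e)) (c (c (p (nat_lit 0x4cc110)) e)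 e)) (c (c (c (m (nat_lit 0x132918)) e) e) e)) (c (c (c (c (p (nat_lit 0xef340c)) e) e) e) e))) (c (c (c (c (c (m (nat_lit 0x22d7cc18)) (c (m (nat_lit 0x44ee57c)) e)) (c (c (p (nat_lit 0x4ecafbc)) e) e)) (c (c (c (m (nat_lit 0x1327d4)) e) e) e)) (c (c (c (c (p (nat_lit 0x5fef80)) e) e) e) e)) (c (c (c (c (c (p (nat_lit 0x106a6fac)) e) e) e) e) e))) (c (c (c (c (c (c (p (nat_lit 0x1dd8bcd4)) (c (p (nat_lit 0x698a3c)) e)) (c (c (m (nat_lit 0x9b520)) e) e)) (c (c (c (m (nat_lit 0x132918)) e) e) e)) (c (c (c (c (p (nat_lit 0x390c)) e) e) e) e)) (c (c (c (c (c (m (nat_lit 0xfa16610)) e) e) e) e) e)) (c (c (c (c (c (c (m (nat_lit 0x991e0)) e) e) e) e) e) e))) (c (c (c (c (c (c (c (p (nat_lit 0x180dffbc)) (c (p (nat_lit 0x11cb830)) e)) (c (c (p (nat_lit 0x113199c)) e) e)) (c (c (c (m (nat_lit 0x6b83440)) e) e) e)) (c (c (c (c (m (nat_lit 0x132e58))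 e) e) e) e)) (c (c (c (c (c (p (nat_lit 0x113520c)) e) e) e) e) e)) (c (c (c (c (c (c (m (nat_lit 0x6170088)) e) e) e) e) e) e)) (c (c (c (c (c (c (c (m (nat_lit 0x6e4)) e) e) e) e) e) e) e)))) (c (c (c (c (c (c (c (c (m (nat_lit 0x26f37dbc)) (c (p (nat_lit 0x1f6ca8c8)) (c (m (nat_lit 0x6be82f4)) e))) (c (c (p (nat_lit 0x1a25d2fc)) (c (m (nat_lit 0xd268e8c)) e)) (c (c (m (nat_lit 0x9912c)) e) e))) (c (c (c (p (nat_lit 0x11183d6c)) (c (p (nat_lit 0x34c44c)) e)) (c (c (m (nat_lit 0x97050)) e) e)) (c (c (c (m (nat_lit 0x62434a4)) e) e) e))) (c (c (c (c (p (nat_lit 0x1d757f30)) (c (m (nat_lit 0x3a324e0)) e)) (c (c (m (nat_lit 0x6c7f47c)) e) e)) (c (c (c (m (nat_lit 0x117dca4)) e) e) e)) (c (c (c (c (m (nat_lit 0x5a60eb8)) e) e) e) e))) (c (c (c (c (c (p (nat_lit 0x22345a1c)) (c (m (nat_lit 0xd268e8c)) e)) (c (c (m (nat_lit 0x123dcba8)) e)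 e)) (c (c (c (m (nat_lit 0x134508)) e) e) e)) (c (c (c (c (m (nat_lit 0x2cc3550)) e) e) e) e)) (c (c (c (c (c (m (nat_lit 0x1325ac)) e) e) e) e) e))) (c (c (c (c (c (c (p (nat_lit 0xe1f18c0)) (c (m (nat_lit 0x44ee57c)) e)) (c (c (m (nat_lit 0x1d787b4)) e) e)) (c (c (c (p (nat_lit 0x580ae08)) e) e) e)) (c (c (c (c (m (nat_lit 0x1168f0f8)) e) e) e) e)) (c (c (c (c (c (m (nat_lit 0x6e9157c)) e) e) e) e) e)) (c (c (c (c (c (c (p (nat_lit 0xae47f94)) e) e) e) e) e) e))) (c (c (c (c (c (c (c (p (nat_lit 0x1163c814)) (c (m (nat_lit 0x2e7001c)) e)) (c (c (m (nat_lit 0x303cf60)) e) e)) (c (c (c (m (nat_lit 0x990b4)) e) e) e)) (c (c (c (c (m (nat_lit 0x1cb744)) e) e) e) e)) (c (c (c (c (c (m (nat_lit 0x8bdf628)) e) e) e) e) e)) (c (c (c (c (c (c (p (nat_lit 0x70e828)) e) e) e) e) e) e)) (c (c (c (c (c (c (c (m (nat_lit 0x6376d64)) e) e) e) e) e)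 e) e))) (c (c (c (c (c (c (c (c (p (nat_lit 0xdba3c2c)) (c (p (nat_lit 0x34ed674)) e)) (c (c (m (nat_lit 0xfc)) e) e)) (c (c (c (m (nat_lit 0x504b58c)) e) e) e)) (c (c (c (c (m (nat_lit 0x1316ba4)) e) e) e) e)) (c (c (c (c (c (m (nat_lit 0x24a8744)) e) e) e) e) e)) (c (c (c (c (c (c (m (nat_lit 0x991bc)) e) e) e) e) e) e)) (c (c (c (c (c (c (c (p (nat_lit 0x1fd1918)) e) e) e) e) e) e) e)) (c (c (c (c (c (c (c (c (m (nat_lit 0x263b74)) e) e) e) e) e) e) e) e)))) (c (c (c (c (c (c (c (c (c (m (nat_lit 0x26f37dbc)) (c (p (nat_lit 0x1f6ca8c8)) (c (m (nat_lit 0x6be82f4)) e))) (c (c (p (nat_lit 0x22345a1c)) (c (m (nat_lit 0xd268e8c)) e)) (c (c (m (nat_lit 0x1325ac)) e) e))) (c (c (c (p (nat_lit 0x1163c814)) (c (m (nat_lit 0x2e7001c)) e)) (c (c (m (nat_lit 0x8bdf628)) e) e)) (c (c (c (m (nat_lit 0x6376d64)) e) e) e))) (c (c (c (c (p (nat_lit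 0xe1f18c0)) (c (m (nat_lit 0x44ee57c)) e)) (c (c (m (nat_lit 0x6e9157c)) e) e)) (c (c (c (p (nat_lit 0x70e828)) e) e) e)) (c (c (c (c (p (nat_lit 0xae47f94)) e) e) e) e))) (c (c (c (c (c (p (nat_lit 0x1a25d2fc)) (c (m (nat_lit 0xd268e8c)) e)) (c (c (m (nat_lit 0x123dcba8)) e) e)) (c (c (c (m (nat_lit 0x303cf60)) e) e) e)) (c (c (c (c (m (nat_lit 0x1d787b4)) e) e) e) e)) (c (c (c (c (c (m (nat_lit 0x9912c)) e) e) e) e) e))) (c (c (c (c (c (c (p (nat_lit 0x1d757f30)) (c (m (nat_lit 0x3a324e0)) e)) (c (c (m (nat_lit 0x2cc3550)) e) e)) (c (c (c (m (nat_lit 0x1cb744)) e) e) e)) (c (c (c (c (m (nat_lit 0x1168f0f8)) e) e) e) e)) (c (c (c (c (c (m (nat_lit 0x6c7f47c)) e) e) e) e) e)) (c (c (c (c (c (c (m (nat_lit 0x5a60eb8)) e) e) e) e) e) e))) (c (c (c (c (c (c (c (p (nat_lit 0x11183d6c)) (c (p (nat_lit 0x34c44c)) e)) (c (c (m (nat_lit 0x134508))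 e) e)) (c (c (c (m (nat_lit 0x990b4)) e) e) e)) (c (c (c (c (p (nat_lit 0x580ae08)) e) e) e) e)) (c (c (c (c (c (m (nat_lit 0x97050)) e) e) e) e) e)) (c (c (c (c (c (c (m (nat_lit 0x117dca4)) e) e) e) e) e) e)) (c (c (c (c (c (c (c (m (nat_lit 0x62434a4)) e) e) e) e) e) e) e))) (c (c (c (c (c (c (c (c (p (nat_lit 0x19802ec8)) (c (p (nat_lit 0x68a76b0)) e)) (c (c (m (nat_lit 0x24a9c14)) e) e)) (c (c (c (m (nat_lit 0xb293bcc)) e) e) e)) (c (c (c (c (m (nat_lit 0x1316ab4)) e) e) e) e)) (c (c (c (c (c (m (nat_lit 0x24a9c14)) e) e) e) e) e)) (c (c (c (c (c (c (m (nat_lit 0x1316ab4)) e) e) e) e) e) e)) (c (c (c (c (c (c (c (m (nat_lit 0xb293bcc)) e) e) e) e) e) e) e)) (c (c (c (c (c (c (c (c (p (nat_lit 0xec03dc)) e) e) e) e) e) e) e) e))) (c (c (c (c (c (c (c (c (c (p (nat_lit 0xdba3c2c)) (c (p (nat_lit 0x34ed674)) e)) (c (c (m (nat_lit 0x24a8744))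 e) e)) (c (c (c (p (nat_lit 0x1fd1918)) e) e) e)) (c (c (c (c (m (nat_lit 0x991bc)) e) e) e) e)) (c (c (c (c (c (m (nat_lit 0xfc)) e) e) e) e) e)) (c (c (c (c (c (c (m (nat_lit 0x1316ba4)) e) e) e) e) e) e)) (c (c (c (c (c (c (c (m (nat_lit 0x504b58c)) e) e) e) e) e) e) e)) (c (c (c (c (c (c (c (c (p (nat_lit 0xec03dc)) e) e) e) e) e) e) e) e)) (c (c (c (c (c (c (c (c (c (m (nat_lit 0x263b74)) e) e) e) e) e) e) e) e) e)))) (c (c (c (c (c (c (c (c (c (c (p (nat_lit 0x1bec820)) (c (m (nat_lit 0x129901c8)) (c (m (nat_lit 0x4ca820)) e))) (c (c (m (nat_lit 0x227f136c)) (c (m (nat_lit 0x6be82f4)) e)) (c (c (m (nat_lit 0x1cc7dc)) e) e))) (c (c (c (p (nat_lit 0xaaa41f4)) (c (p (nat_lit 0x6444504)) e)) (c (c (p (nat_lit 0x6315b28)) e) e)) (c (c (c (m (nat_lit 0x62dd938)) e) e) e))) (c (c (c (c (p (nat_lit 0x1143c570)) (c (p (nat_lit 0x7bae0c0))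 e)) (c (c (p (nat_lit 0x9301074)) e) e)) (c (c (c (m (nat_lit 0x11e2174)) e) e) e)) (c (c (c (c (m (nat_lit 0x3bf2b18)) e) e) e) e))) (c (c (c (c (c (m (nat_lit 0x227f136c)) (c (m (nat_lit 0x6be82f4)) e)) (c (c (m (nat_lit 0x9408d20)) e) e)) (c (c (c (p (nat_lit 0x6279d98)) e) e) e)) (c (c (c (c (p (nat_lit 0x16a69e98)) e) e) e) e)) (c (c (c (c (c (m (nat_lit 0x1cc7dc)) e) e) e) e) e))) (c (c (c (c (c (c (p (nat_lit 0x1143c570)) (c (p (nat_lit 0x7bae0c0)) e)) (c (c (p (nat_lit 0x16a69e98)) e) e)) (c (c (c (m (nat_lit 0x1cbf30)) e) e) e)) (c (c (c (c (p (nat_lit 0x134fe8)) e) e) e) e)) (c (c (c (c (c (p (nat_lit 0x9301074)) e) e) e) e) e)) (c (c (c (c (c (c (m (nat_lit 0x3bf2b18)) e) e) e) e) e) e))) (c (c (c (c (c (c (c (p (nat_lit 0xaaa41f4)) (c (p (nat_lit 0x6444504)) e)) (c (c (p (nat_lit 0x6279d98)) e) e)) (c (c (c (m (nat_lit 0x2645e8))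 e) e) e)) (c (c (c (c (m (nat_lit 0x1cbf30)) e) e) e) e)) (c (c (c (c (c (p (nat_lit 0x6315b28)) e) e) e) e) e)) (c (c (c (c (c (c (m (nat_lit 0x11e2174)) e) e) e) e) e) e)) (c (c (c (c (c (c (c (m (nat_lit 0x62dd938)) e) e) e) e) e) e) e))) (c (c (c (c (c (c (c (c (p (nat_lit 0x12ea30cc)) (c (p (nat_lit 0x18f7524)) e)) (c (c (m (nat_lit 0x12c)) e) e)) (c (c (c (m (nat_lit 0x4855ef0)) e) e) e)) (c (c (c (c (m (nat_lit 0x9d8324)) e) e) e) e)) (c (c (c (c (c (m (nat_lit 0x1253fd0)) e) e) e) e) e)) (c (c (c (c (c (c (m (nat_lit 0xf9d38c0)) e) e) e) e) e) e)) (c (c (c (c (c (c (c (m (nat_lit 0x47bcfd4)) e) e) e) e) e) e) e)) (c (c (c (c (c (c (c (c (m (nat_lit 0x2571ff0)) e) e) e) e) e) e) e) e))) (c (c (c (c (c (c (c (c (c (p (nat_lit 0x12ea30cc)) (c (p (nat_lit 0x18f7524)) e)) (c (c (m (nat_lit 0x1253fd0)) e) e)) (c (c (c (m (nat_lit 0x47bcfd4))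 e) e) e)) (c (c (c (c (m (nat_lit 0xf9d38c0)) e) e) e) e)) (c (c (c (c (c (m (nat_lit 0x12c)) e) e) e) e) e)) (c (c (c (c (c (c (m (nat_lit 0x9d8324)) e) e) e) e) e) e)) (c (c (c (c (c (c (c (m (nat_lit 0x4855ef0)) e) e) e) e) e) e) e)) (c (c (c (c (c (c (c (c (m (nat_lit 0x345baa8)) e) e) e) e) e) e) e) e)) (c (c (c (c (c (c (c (c (c (m (nat_lit 0x2571ff0)) e) e) e) e) e) e) e) e) e))) (c (c (c (c (c (c (c (c (c (c (p (nat_lit 0x5c1f4b0)) (c (p (nat_lit 0x3962b8)) e)) (c (c (p (nat_lit 0x693c24)) e) e)) (c (c (c (m (nat_lit 0xccf480)) e) e) e)) (c (c (c (c (m (nat_lit 0x133200)) e) e) e) e)) (c (c (c (c (c (p (nat_lit 0x693c24)) e) e) e) e) e)) (c (c (c (c (c (c (m (nat_lit 0x133200)) e) e) e) e) e) e)) (c (c (c (c (c (c (c (m (nat_lit 0xccf480)) e) e) e) e) e) e) e)) (c (c (c (c (c (c (c (c (m (nat_lit 0x230c958)) e) e) e) e) e) e)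 e) e)) (c (c (c (c (c (c (c (c (c (m (nat_lit 0x230c958)) e) e) e) e) e) e) e) e) e)) (c (c (c (c (c (c (c (c (c (c (p (nat_lit 0x1980)) e) e) e) e) e) e) e) e) e) e)))))

theorem c1 : trsOK col trs = true := by decide +kernel
theorem c2 : Nat.ble (Nat.mul (nat_lit 39) (nat_lit 4556)) (nat_lit 4294967295) = true := by decide +kernel
theorem c3 : Nat.beq (tabK (nat_lit 39) (List.ofFn s10)) kt = true := by decide +kernel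
theorem c4 : okE trs E = true := by decide +kernel
theorem c5 : dE E (nat_lit 4) = true := by decide +kernel
theorem c6 : cmpK (nat_lit 10) (nat_lit 4) kt E T = true := by decide +kernel
theorem c7 : bndK (nat_lit 10) (nat_lit 4) (Nat.pow (nat_lit 2) (nat_lit 39)) E T = true := by decide +kernel

theorem c0 : Fl.codeB col = 87 := by decide +kernel

theorem own : Fl.OwnOK 4 T 87 :=
  own_ok c0 c1 c2 c3 c4 c5 c6 c7

end H87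

end Own

end HR
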