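import Pool.Agent.Lib.MP_a1b8b7_co.B.OwnOK

set_option autoImplicit false

namespace HR

namespace Own

namespace H94

open Chk

def col : Fin 10 → Bool := ![false, true, true, true, true, false, true, false, false, false]

def trs : List ℕ := [nat_lit 2437]

def kt : ℕ := nat_lit 0x27000000c300000333000008610000174f00003ace000082b60000e3250001a64c0002b614

open Ex in
noncomputable def E : Ex := (a (a (a (a (u (nat_lit 9) (v (nat_lit 9) (v (nat_lit 9) (v (nat_lit 9) (k (nat_lit 0x98ca0)))))) (v (nat_lit 8) (a (u (nat_lit 9) (v (nat_lit 9) (v (nat_lit 9) (k (nat_lit 0x98cc4))))) (v (nat_lit 8) (u (nat_lit 9) (v (nat_lit 9) (k (nat_lit 0x98cc4)))))))) (a (u (nat_lit 8) (v (nat_lit 8) (a (v (nat_lit 9) (v (nat_lit 9) (k (nat_lit 0x98cc4)))) (v (nat_lit 8) (a (v (nat_lit 9) (k (nat_lit 0x98cc4))) (v (nat_lit 8) (k (nat_lit 0x98ca0)))))))) (a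 (v (nat_lit 7) (v (nat_lit 7) (v (nat_lit 7) (a (u (nat_lit 9) (k (nat_lit 0x99330))) (u (nat_lit 8) (k (nat_lit 0x99330))))))) (u (nat_lit 7) (a (v (nat_lit 9) (v (nat_lit 9) (v (nat_lit 9) (k (nat_lit 0x98ca0))))) (a (v (nat_lit 8) (a (v (nat_lit 9) (v (nat_lit 9) (k (nat_lit 0x98c58)))) (v (nat_lit 8) (a (v (nat_lit 9) (k (nat_lit 0x98c58))) (v (nat_lit 8) (k (nat_lit 0x98ca0))))))) (v (nat_lit 7) (a (v (nat_lit 9) (v (nat_lit 9) (k (nat_lit 0x9915c)))) (a (v (nat_lit 8) (a (v (nat_lit 9) (k (nat_lit 0x13e81c))) (v (nat_lit 8) (k (nat_lit 0x9915c))))) (v (nat_lit 7) (v (nat_lit 7) (k (nat_lit 0x262b60))))))))))))) (a (a (v (nat_lit 6) (a (a (u (nat_lit 9) (v (nat_lit 9) (v (nat_lit 9) (k (nat_lit 0x990d2))))) (a (v (nat_lit 8) (a (u (nat_lit 9) (v (nat_lit 9) (k (nat_lit 0x99438)))) (v (nat_lit 8) (u (nat_lit 9) (k (nat_lit 0x98cb2))))))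 (u (nat_lit 8) (a (v (nat_lit 9) (v (nat_lit 9) (k (nat_lit 0x98cb2)))) (v (nat_lit 8) (a (v (nat_lit 9) (k (nat_lit 0x99438))) (v (nat_lit 8) (k (nat_lit 0x990d2))))))))) (a (v (nat_lit 7) (a (a (u (nat_lit 9) (v (nat_lit 9) (k (nat_lit 0x990d8)))) (v (nat_lit 8) (u (nat_lit 9) (k (nat_lit 0x99738))))) (a (u (nat_lit 8) (a (v (nat_lit 9) (k (nat_lit 0x99738))) (v (nat_lit 8) (k (nat_lit 0x990d8))))) (v (nat_lit 7) (a (u (nat_lit 9) (k (nat_lit 0x99720))) (u (nat_lit 8) (k (nat_lit 0x99720)))))))) (a (u (nat_lit 7) (a (v (nat_lit 7) (a (v (nat_lit 9) (k (nat_lit 0x98cdc))) (a (v (nat_lit 8) (k (nat_lit 0x98cdc))) (v (nat_lit 7) (k (nat_lit 0x131f88)))))) (u (nat_lit 7) (v (nat_lit 7) (k (nat_lit 0x26310c)))))) (v (nat_lit 6) (v (nat_lit 6) (a (u (nat_lit 9) (k (nat_lit 0x98c94))) (a (u (nat_lit 8) (k (nat_lit 0x98c94))) (u (nat_lit 7) (k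 (nat_lit 0x131958))))))))))) (u (nat_lit 6) (a (a (v (nat_lit 9) (v (nat_lit 9) (v (nat_lit 9) (k (nat_lit 0x98a1e))))) (v (nat_lit 8) (a (v (nat_lit 9) (v (nat_lit 9) (k (nat_lit 0x9899a)))) (v (nat_lit 8) (a (v (nat_lit 9) (k (nat_lit 0x9899a))) (v (nat_lit 8) (k (nat_lit 0x98a1e)))))))) (a (v (nat_lit 7) (a (v (nat_lit 9) (v (nat_lit 9) (k (nat_lit 0x98e74)))) (a (v (nat_lit 8) (a (v (nat_lit 9) (k (nat_lit 0x131268))) (v (nat_lit 8) (k (nat_lit 0x98e74))))) (v (nat_lit 7) (a (v (nat_lit 9) (k (nat_lit 0x98cf4))) (a (v (nat_lit 8) (k (nat_lit 0x98cf4))) (v (nat_lit 7) (k (nat_lit 0x131c94))))))))) (v (nat_lit 6) (a (a (v (nat_lit 9) (v (nat_lit 9) (k (nat_lit 0x98d6c)))) (v (nat_lit 8) (a (v (nat_lit 9) (k (nat_lit 0x131ce8))) (v (nat_lit 8) (k (nat_lit 0x98d6c)))))) (a (v (nat_lit 7) (a (v (nat_lit 9) (k (nat_lit 0x98f64))) (a (v (nat_lit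 8) (k (nat_lit 0x98f64))) (v (nat_lit 7) (k (nat_lit 0x131d78)))))) (v (nat_lit 6) (v (nat_lit 6) (k (nat_lit 0x131970))))))))))) (a (v (nat_lit 5) (a (a (v (nat_lit 7) (a (a (u (nat_lit 9) (v (nat_lit 9) (k (nat_lit 0x99048)))) (v (nat_lit 8) (u (nat_lit 9) (k (nat_lit 0x99234))))) (a (u (nat_lit 8) (a (v (nat_lit 9) (k (nat_lit 0x99234))) (v (nat_lit 8) (k (nat_lit 0x99048))))) (v (nat_lit 7) (a (u (nat_lit 9) (k (nat_lit 0x98ebc))) (u (nat_lit 8) (k (nat_lit 0x98ebc)))))))) (v (nat_lit 6) (a (a (u (nat_lit 9) (v (nat_lit 9) (k (nat_lit 0x98f52)))) (v (nat_lit 8) (u (nat_lit 9) (k (nat_lit 0x98d06))))) (a (u (nat_lit 8) (a (v (nat_lit 9) (k (nat_lit 0x98d06))) (v (nat_lit 8) (k (nat_lit 0x98f52))))) (a (v (nat_lit 7) (a (u (nat_lit 9) (k (nat_lit 0x9b3ac))) (u (nat_lit 8) (k (nat_lit 0x9b3ac))))) (u (nat_lit 7) (v (nat_lit 7) (k (nat_lit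 0x1ee97c0))))))))) (a (u (nat_lit 6) (a (a (v (nat_lit 9) (v (nat_lit 9) (k (nat_lit 0x98c16)))) (v (nat_lit 8) (a (v (nat_lit 9) (k (nat_lit 0x131568))) (v (nat_lit 8) (k (nat_lit 0x98c16)))))) (a (v (nat_lit 7) (a (v (nat_lit 9) (k (nat_lit 0x98988))) (a (v (nat_lit 8) (k (nat_lit 0x98988))) (v (nat_lit 7) (k (nat_lit 0x13110c)))))) (v (nat_lit 6) (a (v (nat_lit 9) (k (nat_lit 0x98cac))) (a (v (nat_lit 8) (k (nat_lit 0x98cac))) (v (nat_lit 7) (k (nat_lit 0x131d00))))))))) (v (nat_lit 5) (a (a (u (nat_lit 9) (v (nat_lit 9) (k (nat_lit 0x98cca)))) (a (v (nat_lit 8) (u (nat_lit 9) (k (nat_lit 0x98d48)))) (u (nat_lit 8) (a (v (nat_lit 9) (k (nat_lit 0x98d48))) (v (nat_lit 8) (k (nat_lit 0x98cca))))))) (a (v (nat_lit 7) (a (u (nat_lit 9) (k (nat_lit 0x98cd0))) (u (nat_lit 8) (k (nat_lit 0x98cd0))))) (a (v (nat_lit 6) (a (u (nat_lit 9) (k (nat_lit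 0x98442))) (u (nat_lit 8) (k (nat_lit 0x98442))))) (u (nat_lit 6) (a (a (v (nat_lit 9) (k (nat_lit 0x98ea4))) (v (nat_lit 8) (k (nat_lit 0x98ea4)))) (a (v (nat_lit 7) (k (nat_lit 0x131778))) (v (nat_lit 6) (k (nat_lit 0x131970))))))))))))) (a (u (nat_lit 5) (a (a (v (nat_lit 9) (v (nat_lit 9) (v (nat_lit 9) (k (nat_lit 0x98c5e))))) (a (v (nat_lit 8) (a (v (nat_lit 9) (v (nat_lit 9) (k (nat_lit 0x98dc6)))) (v (nat_lit 8) (a (v (nat_lit 9) (k (nat_lit 0x98dc6))) (v (nat_lit 8) (k (nat_lit 0x98c5e))))))) (v (nat_lit 7) (v (nat_lit 7) (v (nat_lit 7) (k (nat_lit 0x131718))))))) (a (a (u (nat_lit 7) (u (nat_lit 7) (v (nat_lit 7) (k (nat_lit 0x131f58))))) (v (nat_lit 6) (a (v (nat_lit 8) (v (nat_lit 9) (k (nat_lit 0x13263c)))) (a (v (nat_lit 7) (v (nat_lit 7) (k (nat_lit 0x1335cc)))) (v (nat_lit 6) (v (nat_lit 6) (k (nat_lit 0x131520)))))))) (a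 (u (nat_lit 6) (v (nat_lit 6) (v (nat_lit 7) (k (nat_lit 0x132618))))) (v (nat_lit 5) (a (v (nat_lit 7) (v (nat_lit 7) (k (nat_lit 0x13248c)))) (a (v (nat_lit 6) (a (v (nat_lit 9) (k (nat_lit 0x9955e))) (a (v (nat_lit 8) (k (nat_lit 0x9955e))) (v (nat_lit 7) (k (nat_lit 0x1328a0)))))) (v (nat_lit 5) (a (a (v (nat_lit 9) (k (nat_lit 0x98c58))) (v (nat_lit 8) (k (nat_lit 0x98c58)))) (a (v (nat_lit 7) (k (nat_lit 0x13221c))) (a (v (nat_lit 6) (k (nat_lit 0x131ad8))) (v (nat_lit 5) (k (nat_lit 0x131934)))))))))))))) (t (nat_lit 5) (nat_lit 8) (nat_lit 9) (a (a (v (nat_lit 7) (a (v (nat_lit 8) (u (nat_lit 9) (k (nat_lit 0x9972c)))) (a (u (nat_lit 8) (v (nat_lit 9) (k (nat_lit 0x9972c)))) (v (nat_lit 7) (a (u (nat_lit 9) (k (nat_lit 0x34fa760))) (u (nat_lit 8) (k (nat_lit 0x34fa760)))))))) (a (u (nat_lit 7) (u (nat_lit 7) (a (u (nat_lit 9) (k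 (nat_lit 0x99dd4))) (u (nat_lit 8) (k (nat_lit 0x99dd4)))))) (v (nat_lit 6) (v (nat_lit 6) (a (u (nat_lit 9) (k (nat_lit 0x99f06))) (u (nat_lit 8) (k (nat_lit 0x99f06)))))))) (a (u (nat_lit 6) (u (nat_lit 6) (a (u (nat_lit 9) (k (nat_lit 0xfe993a6))) (u (nat_lit 8) (k (nat_lit 0xfe993a6)))))) (a (u (nat_lit 5) (a (a (u (nat_lit 9) (v (nat_lit 9) (k (nat_lit 0x2e9b87a2)))) (a (u (nat_lit 8) (a (u (nat_lit 9) (k (nat_lit 0xe866e84))) (v (nat_lit 8) (k (nat_lit 0x2e9b87a2))))) (v (nat_lit 7) (v (nat_lit 7) (k (nat_lit 0xde03e4)))))) (a (u (nat_lit 6) (a (u (nat_lit 9) (k (nat_lit 0x60f93a8))) (a (u (nat_lit 8) (k (nat_lit 0x60f93a8))) (u (nat_lit 6) (k (nat_lit 0xc384840)))))) (a (v (nat_lit 5) (u (nat_lit 7) (k (nat_lit 0x9628f74)))) (u (nat_lit 5) (v (nat_lit 5) (k (nat_lit 0xee848cc)))))))) (t (nat_lit 5) (nat_lit 8) (nat_lit 9) (a (v (nat_lit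 8) (u (nat_lit 9) (k (nat_lit 0x49378f2)))) (a (u (nat_lit 8) (v (nat_lit 9) (k (nat_lit 0x49378f2)))) (u (nat_lit 5) (v (nat_lit 6) (k (nat_lit 0x496c308))))))))))))))) (a (a (a (v (nat_lit 4) (a (a (a (u (nat_lit 9) (v (nat_lit 9) (v (nat_lit 9) (k (nat_lit 0x99270))))) (v (nat_lit 8) (a (u (nat_lit 9) (v (nat_lit 9) (k (nat_lit 0x98fa0)))) (v (nat_lit 8) (u (nat_lit 9) (k (nat_lit 0x99792))))))) (a (u (nat_lit 8) (v (nat_lit 8) (v (nat_lit 8) (k (nat_lit 0x9ae7e))))) (a (u (nat_lit 7) (v (nat_lit 9) (v (nat_lit 9) (k (nat_lit 0x98e80))))) (v (nat_lit 6) (u (nat_lit 9) (v (nat_lit 9) (k (nat_lit 0x9988e)))))))) (a (a (u (nat_lit 6) (a (v (nat_lit 9) (v (nat_lit 9) (k (nat_lit 0x98dde)))) (a (v (nat_lit 7) (a (v (nat_lit 9) (k (nat_lit 0x98e7a))) (a (v (nat_lit 8) (k (nat_lit 0x98ec2))) (v (nat_lit 7) (k (nat_lit 0x99cc6)))))) (v (nat_lit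 6) (a (v (nat_lit 9) (k (nat_lit 0x98e8c))) (a (v (nat_lit 8) (k (nat_lit 0x98acc))) (v (nat_lit 7) (k (nat_lit 0x98ec8))))))))) (v (nat_lit 5) (a (a (u (nat_lit 9) (v (nat_lit 9) (k (nat_lit 0x98f22)))) (v (nat_lit 8) (u (nat_lit 9) (k (nat_lit 0x98d6c))))) (a (u (nat_lit 8) (v (nat_lit 8) (k (nat_lit 0x98fa6)))) (a (u (nat_lit 6) (a (a (v (nat_lit 9) (k (nat_lit 0x98f64))) (v (nat_lit 8) (k (nat_lit 0x98e1a)))) (a (v (nat_lit 7) (k (nat_lit 0x98ece))) (v (nat_lit 6) (k (nat_lit 0x98dd8)))))) (v (nat_lit 5) (u (nat_lit 6) (k (nat_lit 0x9830a))))))))) (a (u (nat_lit 5) (a (v (nat_lit 8) (v (nat_lit 8) (k (nat_lit 0xabebe)))) (v (nat_lit 5) (a (v (nat_lit 9) (k (nat_lit 0x99150))) (a (v (nat_lit 8) (k (nat_lit 0x9900c))) (v (nat_lit 5) (k (nat_lit 0x98f6a)))))))) (a (t (nat_lit 5) (nat_lit 8) (nat_lit 9) (a (u (nat_lit 8) (v (nat_lit 8) (k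 (nat_lit 0x6b94966)))) (a (u (nat_lit 7) (v (nat_lit 7) (k (nat_lit 0x99a68)))) (t (nat_lit 5) (nat_lit 8) (nat_lit 9) (u (nat_lit 5) (k (nat_lit 0x45ee416))))))) (v (nat_lit 4) (a (a (v (nat_lit 7) (a (u (nat_lit 9) (k (nat_lit 0x98f34))) (u (nat_lit 8) (k (nat_lit 0x98fa0))))) (a (u (nat_lit 7) (v (nat_lit 7) (k (nat_lit 0x98fdc)))) (u (nat_lit 6) (a (a (v (nat_lit 9) (k (nat_lit 0x98e98))) (v (nat_lit 8) (k (nat_lit 0x98df0)))) (a (v (nat_lit 7) (k (nat_lit 0x98e14))) (v (nat_lit 6) (k (nat_lit 0x98e62)))))))) (a (v (nat_lit 5) (u (nat_lit 6) (k (nat_lit 0x9894c)))) (a (u (nat_lit 5) (v (nat_lit 7) (k (nat_lit 0x992e8)))) (v (nat_lit 4) (a (a (u (nat_lit 9) (k (nat_lit 0x98c9a))) (u (nat_lit 8) (k (nat_lit 0x98eaa)))) (a (u (nat_lit 7) (k (nat_lit 0x98cd0))) (a (u (nat_lit 6) (k (nat_lit 0x986ac))) (u (nat_lit 5) (k (nat_lit 0x98e92))))))))))))))))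 (u (nat_lit 4) (a (a (v (nat_lit 7) (a (v (nat_lit 8) (a (v (nat_lit 9) (k (nat_lit 0x9918c))) (v (nat_lit 8) (k (nat_lit 0x98e2c))))) (v (nat_lit 7) (a (v (nat_lit 9) (k (nat_lit 0x98e8c))) (a (v (nat_lit 8) (k (nat_lit 0x98e80))) (v (nat_lit 7) (k (nat_lit 0x98e98)))))))) (a (v (nat_lit 6) (a (a (v (nat_lit 9) (v (nat_lit 9) (k (nat_lit 0x98e44)))) (v (nat_lit 8) (a (v (nat_lit 9) (k (nat_lit 0x98df0))) (v (nat_lit 8) (k (nat_lit 0x98d00)))))) (a (v (nat_lit 7) (v (nat_lit 7) (k (nat_lit 0x9812a)))) (a (u (nat_lit 7) (v (nat_lit 7) (k (nat_lit 0x996d8)))) (v (nat_lit 6) (v (nat_lit 6) (k (nat_lit 0x98670)))))))) (v (nat_lit 5) (a (v (nat_lit 7) (a (v (nat_lit 9) (k (nat_lit 0x99174))) (a (v (nat_lit 8) (k (nat_lit 0x991c8))) (v (nat_lit 7) (k (nat_lit 0x98f2e)))))) (a (v (nat_lit 6) (a (v (nat_lit 9) (k (nat_lit 0x98c8e))) (a (v (nat_lit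 8) (k (nat_lit 0x98dcc))) (v (nat_lit 7) (k (nat_lit 0x9f000)))))) (v (nat_lit 5) (a (v (nat_lit 7) (k (nat_lit 0x98cd0))) (v (nat_lit 6) (k (nat_lit 0x99570)))))))))) (a (a (u (nat_lit 5) (u (nat_lit 7) (v (nat_lit 7) (k (nat_lit 0x9928e))))) (t (nat_lit 5) (nat_lit 8) (nat_lit 9) (a (v (nat_lit 6) (v (nat_lit 7) (k (nat_lit 0x169cfc2)))) (a (u (nat_lit 5) (u (nat_lit 6) (k (nat_lit 0x869cf22)))) (t (nat_lit 5) (nat_lit 8) (nat_lit 9) (u (nat_lit 9) (k (nat_lit 0x38e99f8)))))))) (a (v (nat_lit 4) (a (a (v (nat_lit 9) (v (nat_lit 9) (k (nat_lit 0x98f04)))) (a (v (nat_lit 8) (a (v (nat_lit 9) (k (nat_lit 0x9915c))) (v (nat_lit 8) (k (nat_lit 0x1198ea08))))) (v (nat_lit 7) (v (nat_lit 7) (k (nat_lit 0x9b754)))))) (a (a (v (nat_lit 6) (v (nat_lit 6) (k (nat_lit 0x9a54e)))) (v (nat_lit 5) (a (v (nat_lit 9) (k (nat_lit 0x98f9a))) (a (v (nat_lit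 8) (k (nat_lit 0x99066))) (v (nat_lit 5) (k (nat_lit 0x98d1e))))))) (a (t (nat_lit 5) (nat_lit 8) (nat_lit 9) (v (nat_lit 5) (k (nat_lit 0x9919e)))) (v (nat_lit 4) (v (nat_lit 4) (k (nat_lit 0x98e08)))))))) (u (nat_lit 4) (v (nat_lit 4) (a (v (nat_lit 7) (k (nat_lit 0x990a8))) (t (nat_lit 5) (nat_lit 8) (nat_lit 9) (k (nat_lit 0x12fd56))))))))))) (a (v (nat_lit 3) (a (a (a (u (nat_lit 9) (a (v (nat_lit 9) (v (nat_lit 9) (k (nat_lit 0x992be)))) (u (nat_lit 9) (v (nat_lit 9) (k (nat_lit 0xa7a2a)))))) (v (nat_lit 8) (v (nat_lit 8) (u (nat_lit 9) (k (nat_lit 0x98e98)))))) (a (u (nat_lit 8) (a (v (nat_lit 9) (v (nat_lit 9) (k (nat_lit 0x99264)))) (a (v (nat_lit 8) (v (nat_lit 8) (k (nat_lit 0x99312)))) (u (nat_lit 8) (v (nat_lit 8) (k (nat_lit 0xe0f856))))))) (a (u (nat_lit 7) (v (nat_lit 8) (a (v (nat_lit 9) (k (nat_lit 0x99108))) (v (nat_lit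 8) (k (nat_lit 0x98ee0)))))) (v (nat_lit 6) (a (u (nat_lit 9) (v (nat_lit 9) (k (nat_lit 0x990f6)))) (a (u (nat_lit 8) (a (v (nat_lit 9) (k (nat_lit 0x98928))) (v (nat_lit 8) (k (nat_lit 0x9d458))))) (v (nat_lit 6) (a (u (nat_lit 9) (k (nat_lit 0x9710a))) (u (nat_lit 8) (k (nat_lit 0x992d0))))))))))) (a (a (u (nat_lit 6) (a (a (v (nat_lit 9) (v (nat_lit 9) (k (nat_lit 0x98e6e)))) (v (nat_lit 8) (a (v (nat_lit 9) (k (nat_lit 0x99456))) (v (nat_lit 8) (k (nat_lit 0x96ce4)))))) (a (v (nat_lit 7) (a (v (nat_lit 9) (k (nat_lit 0x98f64))) (a (v (nat_lit 8) (k (nat_lit 0x98f58))) (v (nat_lit 7) (k (nat_lit 0x99066)))))) (a (v (nat_lit 6) (a (a (v (nat_lit 9) (k (nat_lit 0x9ace0))) (v (nat_lit 8) (k (nat_lit 0x98ee0)))) (a (v (nat_lit 7) (k (nat_lit 0x99204))) (v (nat_lit 6) (k (nat_lit 0x98fa0)))))) (u (nat_lit 6) (v (nat_lit 9) (k (nat_lit 0x6de8f64))))))))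 (a (v (nat_lit 5) (a (u (nat_lit 7) (a (v (nat_lit 9) (k (nat_lit 0x99a9e))) (v (nat_lit 8) (k (nat_lit 0x99bd0))))) (a (u (nat_lit 6) (a (a (v (nat_lit 9) (k (nat_lit 0x9a7f4))) (v (nat_lit 8) (k (nat_lit 0x9ad76)))) (a (v (nat_lit 7) (k (nat_lit 0x99618))) (v (nat_lit 6) (k (nat_lit 0x97098)))))) (v (nat_lit 5) (a (u (nat_lit 7) (k (nat_lit 0x98e02))) (u (nat_lit 6) (k (nat_lit 0x989ca)))))))) (u (nat_lit 5) (a (a (v (nat_lit 9) (v (nat_lit 9) (k (nat_lit 0x99630)))) (a (v (nat_lit 8) (v (nat_lit 9) (k (nat_lit 0xf5c472)))) (v (nat_lit 7) (u (nat_lit 8) (k (nat_lit 0x98a4e)))))) (a (v (nat_lit 6) (a (v (nat_lit 9) (k (nat_lit 0x98130))) (a (v (nat_lit 8) (k (nat_lit 0x97872))) (v (nat_lit 6) (k (nat_lit 0x9b2e0)))))) (a (u (nat_lit 6) (a (v (nat_lit 7) (k (nat_lit 0x9a0ce))) (u (nat_lit 6) (k (nat_lit 0x183a1fee))))) (v (nat_lit 5) (a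 (a (u (nat_lit 9) (k (nat_lit 0x9d872))) (v (nat_lit 7) (k (nat_lit 0x9781ea8)))) (a (v (nat_lit 6) (k (nat_lit 0x99c3c))) (a (u (nat_lit 6) (k (nat_lit 0x1857008a))) (v (nat_lit 5) (k (nat_lit 0x10ae4bb0))))))))))))) (a (v (nat_lit 4) (a (a (u (nat_lit 8) (u (nat_lit 8) (k (nat_lit 0x74fda14)))) (u (nat_lit 6) (a (a (v (nat_lit 9) (k (nat_lit 0x97ef0))) (v (nat_lit 8) (k (nat_lit 0x98fa0)))) (a (u (nat_lit 8) (k (nat_lit 0x6621876))) (a (v (nat_lit 7) (k (nat_lit 0x98ee0))) (v (nat_lit 6) (k (nat_lit 0x990c0)))))))) (a (v (nat_lit 5) (u (nat_lit 6) (k (nat_lit 0x98994)))) (v (nat_lit 4) (u (nat_lit 6) (k (nat_lit 0x99078))))))) (a (u (nat_lit 4) (v (nat_lit 4) (u (nat_lit 8) (k (nat_lit 0x9bf34))))) (v (nat_lit 3) (a (a (v (nat_lit 6) (a (u (nat_lit 8) (k (nat_lit 0x98ed4))) (u (nat_lit 7) (k (nat_lit 0x98f10))))) (a (u (nat_lit 6) (a (v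 (nat_lit 9) (k (nat_lit 0x98e2c))) (v (nat_lit 6) (k (nat_lit 0x98e74))))) (u (nat_lit 5) (v (nat_lit 6) (k (nat_lit 0x99144)))))) (a (v (nat_lit 4) (a (u (nat_lit 8) (k (nat_lit 0x99960))) (a (u (nat_lit 7) (k (nat_lit 0x991e0))) (u (nat_lit 5) (k (nat_lit 0x9f168)))))) (a (u (nat_lit 4) (a (v (nat_lit 6) (k (nat_lit 0x99084))) (v (nat_lit 4) (k (nat_lit 0x9b25c))))) (v (nat_lit 3) (u (nat_lit 6) (k (nat_lit 0x99018))))))))))))) (a (u (nat_lit 3) (a (a (a (v (nat_lit 7) (a (v (nat_lit 9) (v (nat_lit 9) (k (nat_lit 0x98f10)))) (v (nat_lit 7) (a (v (nat_lit 9) (k (nat_lit 0x98ec8))) (a (v (nat_lit 8) (k (nat_lit 0x98fac))) (v (nat_lit 7) (k (nat_lit 0x9915c)))))))) (v (nat_lit 6) (a (u (nat_lit 8) (v (nat_lit 9) (k (nat_lit 0x9877e)))) (v (nat_lit 6) (u (nat_lit 8) (k (nat_lit 0x98dc6))))))) (a (u (nat_lit 6) (v (nat_lit 7) (v (nat_lit 7)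 (k (nat_lit 0x98ee6))))) (v (nat_lit 5) (a (a (v (nat_lit 8) (v (nat_lit 8) (k (nat_lit 0x98cbe)))) (v (nat_lit 7) (v (nat_lit 7) (k (nat_lit 0x98f64))))) (a (u (nat_lit 6) (v (nat_lit 7) (k (nat_lit 0x993a2)))) (v (nat_lit 5) (a (v (nat_lit 9) (k (nat_lit 0x989be))) (v (nat_lit 8) (k (nat_lit 0x98cb2)))))))))) (a (a (t (nat_lit 5) (nat_lit 8) (nat_lit 9) (a (v (nat_lit 6) (v (nat_lit 6) (k (nat_lit 0xe3241d2)))) (u (nat_lit 5) (a (u (nat_lit 8) (k (nat_lit 0x139282e))) (a (u (nat_lit 7) (k (nat_lit 0x992ee))) (v (nat_lit 5) (k (nat_lit 0x7452198)))))))) (v (nat_lit 4) (a (a (v (nat_lit 9) (v (nat_lit 9) (k (nat_lit 0x98e5c)))) (a (v (nat_lit 8) (a (v (nat_lit 9) (k (nat_lit 0x99060))) (v (nat_lit 8) (k (nat_lit 0x73f25e8))))) (v (nat_lit 7) (a (v (nat_lit 9) (k (nat_lit 0x99330))) (a (v (nat_lit 8) (k (nat_lit 0x993fc))) (v (nat_lit 7)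 (k (nat_lit 0x99138)))))))) (a (a (v (nat_lit 6) (v (nat_lit 6) (k (nat_lit 0x98fa0)))) (u (nat_lit 6) (a (v (nat_lit 9) (k (nat_lit 0x97cd4))) (v (nat_lit 8) (k (nat_lit 0x9920a)))))) (a (v (nat_lit 5) (a (a (v (nat_lit 9) (k (nat_lit 0x98f40))) (v (nat_lit 8) (k (nat_lit 0x98fd0)))) (a (v (nat_lit 7) (k (nat_lit 0x99234))) (a (u (nat_lit 6) (k (nat_lit 0x9855c))) (v (nat_lit 5) (k (nat_lit 0x98cdc))))))) (v (nat_lit 4) (a (a (v (nat_lit 9) (k (nat_lit 0x98f70))) (v (nat_lit 8) (k (nat_lit 0x98eec)))) (a (v (nat_lit 7) (k (nat_lit 0x993c0))) (a (v (nat_lit 5) (k (nat_lit 0x98c10))) (v (nat_lit 4) (k (nat_lit 0x98d24)))))))))))) (a (u (nat_lit 4) (t (nat_lit 5) (nat_lit 8) (nat_lit 9) (u (nat_lit 5) (k (nat_lit 0x996c0))))) (a (v (nat_lit 3) (a (a (a (v (nat_lit 9) (v (nat_lit 9) (k (nat_lit 0x9921c)))) (v (nat_lit 8) (a (v (nat_lit 9) (k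 (nat_lit 0x9ad46))) (v (nat_lit 8) (k (nat_lit 0x96ccc)))))) (a (v (nat_lit 7) (a (v (nat_lit 9) (k (nat_lit 0x9924c))) (a (v (nat_lit 8) (k (nat_lit 0x9abb4))) (v (nat_lit 7) (k (nat_lit 0x994c2)))))) (u (nat_lit 7) (v (nat_lit 7) (k (nat_lit 0xb792a8a)))))) (a (a (v (nat_lit 5) (a (a (v (nat_lit 9) (k (nat_lit 0x99378))) (v (nat_lit 8) (k (nat_lit 0x9a4fa)))) (a (v (nat_lit 7) (k (nat_lit 0x9970e))) (v (nat_lit 5) (k (nat_lit 0x98dc0)))))) (u (nat_lit 5) (a (v (nat_lit 7) (k (nat_lit 0x9bade))) (u (nat_lit 6) (k (nat_lit 0x20024dc)))))) (a (v (nat_lit 4) (a (v (nat_lit 9) (k (nat_lit 0x9b094))) (u (nat_lit 8) (k (nat_lit 0x99b7c))))) (v (nat_lit 3) (a (a (v (nat_lit 9) (k (nat_lit 0x996fc))) (a (v (nat_lit 8) (k (nat_lit 0x131d3c))) (v (nat_lit 7) (k (nat_lit 0x131d84))))) (a (v (nat_lit 5) (k (nat_lit 0x9903c))) (a (v (nat_lit 4) (k (nat_lit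 0x99528))) (v (nat_lit 3) (k (nat_lit 0x99156))))))))))) (u (nat_lit 3) (a (a (v (nat_lit 8) (a (v (nat_lit 9) (k (nat_lit 0x99036))) (v (nat_lit 8) (k (nat_lit 0x96804))))) (v (nat_lit 7) (v (nat_lit 8) (k (nat_lit 0x991f8))))) (a (v (nat_lit 5) (v (nat_lit 8) (k (nat_lit 0x997f2)))) (v (nat_lit 3) (a (v (nat_lit 9) (k (nat_lit 0x99264))) (v (nat_lit 3) (k (nat_lit 0x98e6e))))))))))))) (v (nat_lit 2) (a (a (a (u (nat_lit 9) (v (nat_lit 9) (v (nat_lit 9) (k (nat_lit 0x9ae7e))))) (a (u (nat_lit 8) (a (v (nat_lit 9) (v (nat_lit 9) (k (nat_lit 0x99792)))) (v (nat_lit 8) (a (v (nat_lit 9) (k (nat_lit 0x98fa0))) (v (nat_lit 8) (k (nat_lit 0x99270))))))) (u (nat_lit 7) (v (nat_lit 8) (v (nat_lit 8) (k (nat_lit 0x98e80))))))) (a (v (nat_lit 6) (u (nat_lit 8) (v (nat_lit 8) (k (nat_lit 0x9988e))))) (a (u (nat_lit 6) (a (v (nat_lit 8) (v (nat_lit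 8) (k (nat_lit 0x98dde)))) (a (v (nat_lit 7) (a (v (nat_lit 9) (k (nat_lit 0x98ec2))) (a (v (nat_lit 8) (k (nat_lit 0x98e7a))) (v (nat_lit 7) (k (nat_lit 0x99cc6)))))) (v (nat_lit 6) (a (v (nat_lit 9) (k (nat_lit 0x98acc))) (a (v (nat_lit 8) (k (nat_lit 0x98e8c))) (v (nat_lit 7) (k (nat_lit 0x98ec8))))))))) (v (nat_lit 5) (a (a (u (nat_lit 9) (v (nat_lit 9) (k (nat_lit 0x98fa6)))) (u (nat_lit 8) (a (v (nat_lit 9) (k (nat_lit 0x98d6c))) (v (nat_lit 8) (k (nat_lit 0x98f22)))))) (a (u (nat_lit 6) (a (a (v (nat_lit 9) (k (nat_lit 0x98e1a))) (v (nat_lit 8) (k (nat_lit 0x98f64)))) (a (v (nat_lit 7) (k (nat_lit 0x98ece))) (v (nat_lit 6) (k (nat_lit 0x98dd8)))))) (v (nat_lit 5) (u (nat_lit 6) (k (nat_lit 0x9830a)))))))))) (a (a (u (nat_lit 5) (a (v (nat_lit 9) (v (nat_lit 9) (k (nat_lit 0xabebe)))) (v (nat_lit 5) (a (v (nat_lit 9) (k (nat_lit 0x9900c)))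 (a (v (nat_lit 8) (k (nat_lit 0x99150))) (v (nat_lit 5) (k (nat_lit 0x98f6a)))))))) (a (t (nat_lit 5) (nat_lit 8) (nat_lit 9) (a (u (nat_lit 9) (v (nat_lit 9) (k (nat_lit 0x6b94966)))) (a (u (nat_lit 7) (v (nat_lit 7) (k (nat_lit 0x99a68)))) (t (nat_lit 5) (nat_lit 8) (nat_lit 9) (u (nat_lit 5) (k (nat_lit 0x45ee416))))))) (v (nat_lit 4) (a (a (a (u (nat_lit 9) (v (nat_lit 9) (k (nat_lit 0x989be)))) (v (nat_lit 8) (u (nat_lit 9) (k (nat_lit 0x98952))))) (a (u (nat_lit 8) (a (v (nat_lit 9) (k (nat_lit 0x98952))) (v (nat_lit 8) (k (nat_lit 0x989be))))) (a (v (nat_lit 7) (a (u (nat_lit 9) (k (nat_lit 0x991e6))) (u (nat_lit 8) (k (nat_lit 0x991e6))))) (u (nat_lit 7) (a (v (nat_lit 9) (k (nat_lit 0x98c76))) (a (v (nat_lit 8) (k (nat_lit 0x98c76))) (v (nat_lit 7) (k (nat_lit 0x131ff4))))))))) (a (a (u (nat_lit 6) (a (a (v (nat_lit 9) (k (nat_lit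 0x98e2c))) (v (nat_lit 8) (k (nat_lit 0x98e2c)))) (a (v (nat_lit 7) (k (nat_lit 0x131c1c))) (v (nat_lit 6) (k (nat_lit 0x131b80)))))) (v (nat_lit 5) (a (a (u (nat_lit 9) (k (nat_lit 0x98d8a))) (u (nat_lit 8) (k (nat_lit 0x98d8a)))) (a (u (nat_lit 7) (k (nat_lit 0x131bbc))) (u (nat_lit 6) (k (nat_lit 0x1316a0))))))) (a (u (nat_lit 5) (a (v (nat_lit 7) (k (nat_lit 0x1327f8))) (v (nat_lit 5) (k (nat_lit 0x131cdc))))) (a (t (nat_lit 5) (nat_lit 8) (nat_lit 9) (a (a (u (nat_lit 9) (k (nat_lit 0x24ca01a))) (u (nat_lit 8) (k (nat_lit 0x24ca01a)))) (a (u (nat_lit 7) (k (nat_lit 0x136c8c))) (u (nat_lit 5) (k (nat_lit 0x837a80c)))))) (v (nat_lit 4) (a (u (nat_lit 9) (k (nat_lit 0x98c10))) (u (nat_lit 6) (k (nat_lit 0x98d7e)))))))))))) (a (a (u (nat_lit 4) (a (a (v (nat_lit 9) (v (nat_lit 9) (k (nat_lit 0xe4c360c)))) (a (v (nat_lit 8) (v (nat_lit 9)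 (k (nat_lit 0x99918)))) (v (nat_lit 6) (v (nat_lit 6) (k (nat_lit 0x99252)))))) (a (u (nat_lit 5) (v (nat_lit 9) (k (nat_lit 0x223af4e4)))) (a (v (nat_lit 4) (a (a (v (nat_lit 9) (k (nat_lit 0x9916e))) (a (v (nat_lit 8) (k (nat_lit 0x98f0a))) (v (nat_lit 7) (k (nat_lit 0x993fc))))) (a (v (nat_lit 5) (k (nat_lit 0x98cee))) (a (t (nat_lit 5) (nat_lit 8) (nat_lit 9) (k (nat_lit 0x7334106))) (v (nat_lit 4) (k (nat_lit 0x98e2c))))))) (u (nat_lit 4) (a (v (nat_lit 9) (k (nat_lit 0x942492c))) (v (nat_lit 6) (k (nat_lit 0x13526226))))))))) (v (nat_lit 3) (a (a (a (u (nat_lit 9) (v (nat_lit 9) (k (nat_lit 0x99504)))) (a (v (nat_lit 8) (u (nat_lit 9) (k (nat_lit 0x9a4d648)))) (u (nat_lit 8) (a (v (nat_lit 9) (k (nat_lit 0x99b58))) (v (nat_lit 8) (k (nat_lit 0x9930c))))))) (a (v (nat_lit 7) (a (u (nat_lit 9) (k (nat_lit 0x991e6))) (u (nat_lit 8) (k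 (nat_lit 0x9a1e8))))) (a (u (nat_lit 7) (v (nat_lit 7) (k (nat_lit 0x98e5c)))) (v (nat_lit 6) (a (u (nat_lit 9) (k (nat_lit 0x99948))) (a (u (nat_lit 8) (k (nat_lit 0x99588))) (u (nat_lit 7) (k (nat_lit 0x99798))))))))) (a (a (u (nat_lit 6) (v (nat_lit 6) (k (nat_lit 0x98f4c)))) (a (v (nat_lit 5) (a (u (nat_lit 9) (k (nat_lit 0x9b67c))) (u (nat_lit 6) (k (nat_lit 0x97ed2))))) (u (nat_lit 5) (a (a (v (nat_lit 8) (k (nat_lit 0x9a0b0))) (v (nat_lit 7) (k (nat_lit 0x23c5e96)))) (a (v (nat_lit 6) (k (nat_lit 0x9c696))) (v (nat_lit 5) (k (nat_lit 0x134f70)))))))) (a (v (nat_lit 4) (a (u (nat_lit 7) (k (nat_lit 0x997b0))) (u (nat_lit 5) (k (nat_lit 0xf83c76))))) (a (u (nat_lit 4) (a (a (v (nat_lit 9) (k (nat_lit 0x9912c))) (a (u (nat_lit 9) (k (nat_lit 0xa58098e))) (v (nat_lit 8) (k (nat_lit 0x991da))))) (a (v (nat_lit 6) (k (nat_lit 0x996a8)))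 (a (u (nat_lit 6) (k (nat_lit 0xae8f934))) (v (nat_lit 4) (k (nat_lit 0x9a9da))))))) (v (nat_lit 3) (a (u (nat_lit 7) (k (nat_lit 0x99b88))) (u (nat_lit 4) (k (nat_lit 0x995f4))))))))))) (a (u (nat_lit 3) (a (a (u (nat_lit 6) (v (nat_lit 7) (k (nat_lit 0x98cd6)))) (t (nat_lit 5) (nat_lit 8) (nat_lit 9) (u (nat_lit 5) (k (nat_lit 0x98fac))))) (a (v (nat_lit 4) (a (u (nat_lit 6) (k (nat_lit 0x98eda))) (t (nat_lit 5) (nat_lit 8) (nat_lit 9) (k (nat_lit 0x9a146))))) (a (v (nat_lit 3) (a (u (nat_lit 9) (k (nat_lit 0x99eb2))) (a (u (nat_lit 6) (k (nat_lit 0x9977a))) (v (nat_lit 3) (k (nat_lit 0x9a140)))))) (u (nat_lit 3) (v (nat_lit 3) (k (nat_lit 0x995f4)))))))) (v (nat_lit 2) (a (a (a (v (nat_lit 7) (a (u (nat_lit 9) (k (nat_lit 0x98fa0))) (u (nat_lit 8) (k (nat_lit 0x98f34))))) (u (nat_lit 7) (v (nat_lit 7) (k (nat_lit 0x98fdc))))) (a (u (nat_lit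 6) (a (a (v (nat_lit 9) (k (nat_lit 0x98df0))) (v (nat_lit 8) (k (nat_lit 0x98e98)))) (a (v (nat_lit 7) (k (nat_lit 0x98e14))) (v (nat_lit 6) (k (nat_lit 0x98e62)))))) (a (v (nat_lit 5) (u (nat_lit 6) (k (nat_lit 0x9894c)))) (u (nat_lit 5) (v (nat_lit 7) (k (nat_lit 0x992e8))))))) (a (a (v (nat_lit 4) (a (u (nat_lit 8) (k (nat_lit 0x98c10))) (u (nat_lit 6) (k (nat_lit 0x98d7e))))) (u (nat_lit 4) (v (nat_lit 4) (k (nat_lit 0x98e80))))) (a (v (nat_lit 3) (a (a (u (nat_lit 9) (k (nat_lit 0x99c84))) (u (nat_lit 8) (k (nat_lit 0x992ac)))) (a (u (nat_lit 7) (k (nat_lit 0x9a758))) (a (u (nat_lit 5) (k (nat_lit 0x98922))) (u (nat_lit 4) (k (nat_lit 0x998a0))))))) (a (u (nat_lit 3) (u (nat_lit 6) (k (nat_lit 0x99030)))) (v (nat_lit 2) (a (a (u (nat_lit 9) (k (nat_lit 0x98eaa))) (u (nat_lit 8) (k (nat_lit 0x98c9a)))) (a (u (nat_lit 7) (k (nat_lit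 0x98cd0))) (a (u (nat_lit 6) (k (nat_lit 0x986ac))) (u (nat_lit 5) (k (nat_lit 0x98e92)))))))))))))))))))) (a (a (u (nat_lit 2) (a (a (a (v (nat_lit 7) (a (v (nat_lit 9) (v (nat_lit 9) (k (nat_lit 0x98e2c)))) (a (v (nat_lit 8) (v (nat_lit 9) (k (nat_lit 0x9918c)))) (v (nat_lit 7) (a (v (nat_lit 9) (k (nat_lit 0x98e80))) (a (v (nat_lit 8) (k (nat_lit 0x98e8c))) (v (nat_lit 7) (k (nat_lit 0x98e98))))))))) (v (nat_lit 6) (a (a (v (nat_lit 9) (v (nat_lit 9) (k (nat_lit 0x98d00)))) (v (nat_lit 8) (a (v (nat_lit 9) (k (nat_lit 0x98df0))) (v (nat_lit 8) (k (nat_lit 0x98e44)))))) (a (v (nat_lit 7) (v (nat_lit 7) (k (nat_lit 0x9812a)))) (a (u (nat_lit 7) (v (nat_lit 7) (k (nat_lit 0x996d8)))) (v (nat_lit 6) (v (nat_lit 6) (k (nat_lit 0x98670))))))))) (a (v (nat_lit 5) (a (v (nat_lit 7) (a (v (nat_lit 9) (k (nat_lit 0x991c8))) (a (v (nat_lit 8) (k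 (nat_lit 0x99174))) (v (nat_lit 7) (k (nat_lit 0x98f2e)))))) (a (v (nat_lit 6) (a (v (nat_lit 9) (k (nat_lit 0x98dcc))) (a (v (nat_lit 8) (k (nat_lit 0x98c8e))) (v (nat_lit 7) (k (nat_lit 0x9f000)))))) (v (nat_lit 5) (a (v (nat_lit 7) (k (nat_lit 0x98cd0))) (v (nat_lit 6) (k (nat_lit 0x99570)))))))) (a (u (nat_lit 5) (u (nat_lit 7) (v (nat_lit 7) (k (nat_lit 0x9928e))))) (t (nat_lit 5) (nat_lit 8) (nat_lit 9) (a (v (nat_lit 6) (v (nat_lit 7) (k (nat_lit 0x169cfc2)))) (a (u (nat_lit 5) (u (nat_lit 6) (k (nat_lit 0x869cf22)))) (t (nat_lit 5) (nat_lit 8) (nat_lit 9) (u (nat_lit 8) (k (nat_lit 0x38e99f8)))))))))) (a (a (v (nat_lit 4) (a (v (nat_lit 8) (a (v (nat_lit 9) (k (nat_lit 0x99918))) (v (nat_lit 8) (k (nat_lit 0xe4c360c))))) (a (v (nat_lit 6) (v (nat_lit 6) (k (nat_lit 0x99252)))) (u (nat_lit 5) (v (nat_lit 8) (k (nat_lit 0x223af4e4)))))))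 (u (nat_lit 4) (t (nat_lit 5) (nat_lit 8) (nat_lit 9) (a (u (nat_lit 9) (k (nat_lit 0x522b724))) (a (u (nat_lit 8) (k (nat_lit 0x522b724))) (u (nat_lit 5) (k (nat_lit 0x11411e38)))))))) (a (v (nat_lit 3) (a (a (v (nat_lit 7) (a (v (nat_lit 9) (k (nat_lit 0x997aa))) (a (v (nat_lit 8) (k (nat_lit 0x98c88))) (v (nat_lit 7) (k (nat_lit 0x99654)))))) (v (nat_lit 6) (v (nat_lit 7) (k (nat_lit 0x99006))))) (a (v (nat_lit 5) (a (v (nat_lit 7) (k (nat_lit 0x986b2))) (v (nat_lit 6) (k (nat_lit 0x9a944))))) (a (v (nat_lit 4) (a (a (v (nat_lit 9) (k (nat_lit 0x99e88))) (a (v (nat_lit 8) (k (nat_lit 0x99456))) (u (nat_lit 8) (k (nat_lit 0xa3516e6))))) (a (a (v (nat_lit 7) (k (nat_lit 0x996e4))) (v (nat_lit 6) (k (nat_lit 0x98fd6)))) (a (v (nat_lit 5) (k (nat_lit 0x9b5e0))) (v (nat_lit 4) (k (nat_lit 0x13030e))))))) (v (nat_lit 3) (a (a (v (nat_lit 9)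 (k (nat_lit 0x9908a))) (v (nat_lit 8) (k (nat_lit 0x98ef8)))) (a (v (nat_lit 6) (k (nat_lit 0x9904e))) (v (nat_lit 5) (k (nat_lit 0x98fdc)))))))))) (a (v (nat_lit 2) (a (a (a (v (nat_lit 9) (v (nat_lit 9) (k (nat_lit 0x1198ea08)))) (v (nat_lit 8) (a (v (nat_lit 9) (k (nat_lit 0x9915c))) (v (nat_lit 8) (k (nat_lit 0x98f04)))))) (a (v (nat_lit 7) (v (nat_lit 7) (k (nat_lit 0x9b754)))) (v (nat_lit 6) (v (nat_lit 6) (k (nat_lit 0x9a54e)))))) (a (a (v (nat_lit 5) (a (v (nat_lit 9) (k (nat_lit 0x99066))) (a (v (nat_lit 8) (k (nat_lit 0x98f9a))) (v (nat_lit 5) (k (nat_lit 0x98d1e)))))) (t (nat_lit 5) (nat_lit 8) (nat_lit 9) (v (nat_lit 5) (k (nat_lit 0x9919e))))) (a (v (nat_lit 4) (a (a (v (nat_lit 9) (k (nat_lit 0x98f0a))) (a (v (nat_lit 8) (k (nat_lit 0x9916e))) (v (nat_lit 7) (k (nat_lit 0x993fc))))) (a (v (nat_lit 5) (k (nat_lit 0x98cee)))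 (a (t (nat_lit 5) (nat_lit 8) (nat_lit 9) (k (nat_lit 0x7334106))) (v (nat_lit 4) (k (nat_lit 0x98e80))))))) (a (v (nat_lit 3) (a (a (a (v (nat_lit 9) (k (nat_lit 0x98b68))) (u (nat_lit 9) (k (nat_lit 0x3d1eaac)))) (a (v (nat_lit 8) (k (nat_lit 0x9df08))) (a (v (nat_lit 7) (k (nat_lit 0x9860a))) (u (nat_lit 7) (k (nat_lit 0x9a82a)))))) (a (a (v (nat_lit 6) (k (nat_lit 0x99a20))) (v (nat_lit 5) (k (nat_lit 0x9b088)))) (a (u (nat_lit 5) (k (nat_lit 0x99a9e))) (a (v (nat_lit 4) (k (nat_lit 0x994f8))) (v (nat_lit 3) (k (nat_lit 0x99b88)))))))) (v (nat_lit 2) (a (v (nat_lit 4) (k (nat_lit 0x98e2c))) (a (v (nat_lit 3) (k (nat_lit 0x1c6f44))) (v (nat_lit 2) (k (nat_lit 0x98e08))))))))))) (u (nat_lit 2) (a (v (nat_lit 4) (a (v (nat_lit 8) (k (nat_lit 0x942492c))) (v (nat_lit 6) (k (nat_lit 0x13526226))))) (v (nat_lit 2) (a (v (nat_lit 7) (k (nat_lit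 0x990a8))) (t (nat_lit 5) (nat_lit 8) (nat_lit 9) (k (nat_lit 0x12fd56)))))))))))) (v (nat_lit 1) (a (a (a (u (nat_lit 9) (a (v (nat_lit 9) (v (nat_lit 9) (k (nat_lit 0x99312)))) (u (nat_lit 9) (v (nat_lit 9) (k (nat_lit 0xe0f856)))))) (a (v (nat_lit 8) (v (nat_lit 8) (u (nat_lit 9) (k (nat_lit 0x99264))))) (u (nat_lit 8) (a (v (nat_lit 9) (v (nat_lit 9) (k (nat_lit 0x98e98)))) (a (v (nat_lit 8) (v (nat_lit 8) (k (nat_lit 0x992be)))) (u (nat_lit 8) (v (nat_lit 8) (k (nat_lit 0xa7a2a))))))))) (a (a (u (nat_lit 7) (a (v (nat_lit 9) (v (nat_lit 9) (k (nat_lit 0x98ee0)))) (v (nat_lit 8) (v (nat_lit 9) (k (nat_lit 0x99108)))))) (v (nat_lit 6) (a (a (u (nat_lit 9) (v (nat_lit 9) (k (nat_lit 0x9d458)))) (v (nat_lit 8) (u (nat_lit 9) (k (nat_lit 0x98928))))) (a (u (nat_lit 8) (v (nat_lit 8) (k (nat_lit 0x990f6)))) (v (nat_lit 6) (a (u (nat_lit 9)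 (k (nat_lit 0x992d0))) (u (nat_lit 8) (k (nat_lit 0x9710a))))))))) (a (u (nat_lit 6) (a (a (v (nat_lit 9) (v (nat_lit 9) (k (nat_lit 0x96ce4)))) (v (nat_lit 8) (a (v (nat_lit 9) (k (nat_lit 0x99456))) (v (nat_lit 8) (k (nat_lit 0x98e6e)))))) (a (v (nat_lit 7) (a (v (nat_lit 9) (k (nat_lit 0x98f58))) (a (v (nat_lit 8) (k (nat_lit 0x98f64))) (v (nat_lit 7) (k (nat_lit 0x99066)))))) (a (v (nat_lit 6) (a (a (v (nat_lit 9) (k (nat_lit 0x98ee0))) (v (nat_lit 8) (k (nat_lit 0x9ace0)))) (a (v (nat_lit 7) (k (nat_lit 0x99204))) (v (nat_lit 6) (k (nat_lit 0x98fa0)))))) (u (nat_lit 6) (v (nat_lit 8) (k (nat_lit 0x6de8f64)))))))) (v (nat_lit 5) (a (u (nat_lit 7) (a (v (nat_lit 9) (k (nat_lit 0x99bd0))) (v (nat_lit 8) (k (nat_lit 0x99a9e))))) (a (u (nat_lit 6) (a (a (v (nat_lit 9) (k (nat_lit 0x9ad76))) (v (nat_lit 8) (k (nat_lit 0x9a7f4)))) (a (v (nat_lit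 7) (k (nat_lit 0x99618))) (v (nat_lit 6) (k (nat_lit 0x97098)))))) (v (nat_lit 5) (a (u (nat_lit 7) (k (nat_lit 0x98e02))) (u (nat_lit 6) (k (nat_lit 0x989ca))))))))))) (a (a (a (u (nat_lit 5) (a (a (v (nat_lit 8) (a (v (nat_lit 9) (k (nat_lit 0xf5c472))) (v (nat_lit 8) (k (nat_lit 0x99630))))) (v (nat_lit 7) (u (nat_lit 9) (k (nat_lit 0x98a4e))))) (a (v (nat_lit 6) (a (v (nat_lit 9) (k (nat_lit 0x97872))) (a (v (nat_lit 8) (k (nat_lit 0x98130))) (v (nat_lit 6) (k (nat_lit 0x9b2e0)))))) (a (u (nat_lit 6) (a (v (nat_lit 7) (k (nat_lit 0x9a0ce))) (u (nat_lit 6) (k (nat_lit 0x183a1fee))))) (v (nat_lit 5) (a (a (u (nat_lit 8) (k (nat_lit 0x9d872))) (v (nat_lit 7) (k (nat_lit 0x9781ea8)))) (a (v (nat_lit 6) (k (nat_lit 0x99c3c))) (a (u (nat_lit 6) (k (nat_lit 0x1857008a))) (v (nat_lit 5) (k (nat_lit 0x10ae4bb0))))))))))) (v (nat_lit 4) (a (a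 (a (u (nat_lit 9) (v (nat_lit 9) (k (nat_lit 0x9930c)))) (v (nat_lit 8) (u (nat_lit 9) (k (nat_lit 0x99b58))))) (a (u (nat_lit 8) (a (v (nat_lit 9) (k (nat_lit 0x9a4d648))) (v (nat_lit 8) (k (nat_lit 0x99504))))) (a (v (nat_lit 7) (a (u (nat_lit 9) (k (nat_lit 0x9a1e8))) (u (nat_lit 8) (k (nat_lit 0x991e6))))) (u (nat_lit 7) (v (nat_lit 7) (k (nat_lit 0x98e5c))))))) (a (a (v (nat_lit 6) (a (u (nat_lit 9) (k (nat_lit 0x99588))) (a (u (nat_lit 8) (k (nat_lit 0x99948))) (u (nat_lit 7) (k (nat_lit 0x99798)))))) (u (nat_lit 6) (v (nat_lit 6) (k (nat_lit 0x98f4c))))) (a (v (nat_lit 5) (a (u (nat_lit 8) (k (nat_lit 0x9b67c))) (u (nat_lit 6) (k (nat_lit 0x97ed2))))) (a (u (nat_lit 5) (a (a (v (nat_lit 9) (k (nat_lit 0x9a0b0))) (v (nat_lit 7) (k (nat_lit 0x23c5e96)))) (a (v (nat_lit 6) (k (nat_lit 0x9c696))) (v (nat_lit 5) (k (nat_lit 0x134f70))))))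 (v (nat_lit 4) (a (a (u (nat_lit 9) (k (nat_lit 0x992ac))) (u (nat_lit 8) (k (nat_lit 0x99c84)))) (a (u (nat_lit 7) (k (nat_lit 0x9a758))) (u (nat_lit 5) (k (nat_lit 0x98922)))))))))))) (a (u (nat_lit 4) (a (a (v (nat_lit 7) (a (v (nat_lit 9) (k (nat_lit 0x98c88))) (a (v (nat_lit 8) (k (nat_lit 0x997aa))) (v (nat_lit 7) (k (nat_lit 0x99654)))))) (v (nat_lit 6) (v (nat_lit 7) (k (nat_lit 0x99006))))) (a (v (nat_lit 5) (a (v (nat_lit 7) (k (nat_lit 0x986b2))) (v (nat_lit 6) (k (nat_lit 0x9a944))))) (v (nat_lit 4) (a (a (a (v (nat_lit 9) (k (nat_lit 0x9df08))) (v (nat_lit 8) (k (nat_lit 0x98b68)))) (a (u (nat_lit 8) (k (nat_lit 0x3d1eaac))) (v (nat_lit 7) (k (nat_lit 0x9860a))))) (a (a (u (nat_lit 7) (k (nat_lit 0x9a82a))) (v (nat_lit 6) (k (nat_lit 0x99a20)))) (a (v (nat_lit 5) (k (nat_lit 0x9b088))) (a (u (nat_lit 5) (k (nat_lit 0x99a9e)))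 (v (nat_lit 4) (k (nat_lit 0x1c6f44))))))))))) (v (nat_lit 3) (a (a (u (nat_lit 7) (a (a (v (nat_lit 9) (k (nat_lit 0x99048))) (v (nat_lit 8) (k (nat_lit 0x99048)))) (a (v (nat_lit 7) (k (nat_lit 0x135114))) (u (nat_lit 7) (k (nat_lit 0x131334)))))) (a (u (nat_lit 6) (v (nat_lit 6) (k (nat_lit 0x131d0c)))) (u (nat_lit 5) (v (nat_lit 7) (k (nat_lit 0x137b50)))))) (a (v (nat_lit 4) (a (u (nat_lit 9) (k (nat_lit 0x9946e))) (a (u (nat_lit 8) (k (nat_lit 0x99696))) (u (nat_lit 5) (k (nat_lit 0x9e298)))))) (a (u (nat_lit 4) (a (v (nat_lit 7) (k (nat_lit 0x99f36))) (t (nat_lit 5) (nat_lit 8) (nat_lit 9) (k (nat_lit 0x99492))))) (v (nat_lit 3) (a (a (u (nat_lit 9) (k (nat_lit 0x99030))) (u (nat_lit 8) (k (nat_lit 0x98f82)))) (a (u (nat_lit 7) (k (nat_lit 0x98f40))) (a (u (nat_lit 5) (k (nat_lit 0x99000))) (u (nat_lit 4) (k (nat_lit 0x98ef2)))))))))))))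 (a (a (u (nat_lit 3) (a (a (a (v (nat_lit 9) (v (nat_lit 9) (k (nat_lit 0x98f0a)))) (u (nat_lit 9) (v (nat_lit 9) (k (nat_lit 0x9be26))))) (a (v (nat_lit 8) (v (nat_lit 9) (k (nat_lit 0x10c09fec)))) (v (nat_lit 6) (a (v (nat_lit 9) (k (nat_lit 0x995e8))) (v (nat_lit 7) (k (nat_lit 0x992dc))))))) (a (a (v (nat_lit 5) (a (v (nat_lit 9) (k (nat_lit 0x9cb58))) (a (v (nat_lit 6) (k (nat_lit 0x98f3a))) (v (nat_lit 5) (k (nat_lit 0x98d72)))))) (u (nat_lit 5) (a (u (nat_lit 6) (k (nat_lit 0x8db20c2))) (v (nat_lit 5) (k (nat_lit 0x966a7ca)))))) (a (v (nat_lit 4) (u (nat_lit 7) (k (nat_lit 0x9970e)))) (a (v (nat_lit 3) (a (v (nat_lit 6) (k (nat_lit 0x98f46))) (v (nat_lit 3) (k (nat_lit 0x994aa))))) (u (nat_lit 3) (a (a (u (nat_lit 9) (k (nat_lit 0x98cb8))) (a (v (nat_lit 8) (k (nat_lit 0x151ade9a))) (v (nat_lit 7) (k (nat_lit 0x9ef7c))))) (a (v (nat_lit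 6) (k (nat_lit 0x98ade))) (a (u (nat_lit 5) (k (nat_lit 0x6279792))) (u (nat_lit 3) (k (nat_lit 0x1c9956)))))))))))) (v (nat_lit 2) (a (a (a (u (nat_lit 9) (u (nat_lit 9) (k (nat_lit 0x74fda14)))) (u (nat_lit 6) (a (a (v (nat_lit 9) (k (nat_lit 0x98fa0))) (u (nat_lit 9) (k (nat_lit 0x6621876)))) (a (v (nat_lit 8) (k (nat_lit 0x97ef0))) (a (v (nat_lit 7) (k (nat_lit 0x98ee0))) (v (nat_lit 6) (k (nat_lit 0x990c0)))))))) (a (v (nat_lit 5) (u (nat_lit 6) (k (nat_lit 0x98994)))) (v (nat_lit 4) (a (u (nat_lit 7) (k (nat_lit 0x997b0))) (u (nat_lit 5) (k (nat_lit 0xf83c76))))))) (a (a (u (nat_lit 4) (a (a (v (nat_lit 9) (k (nat_lit 0x99456))) (a (u (nat_lit 9) (k (nat_lit 0xa3516e6))) (v (nat_lit 8) (k (nat_lit 0x99e88))))) (a (a (v (nat_lit 7) (k (nat_lit 0x996e4))) (v (nat_lit 6) (k (nat_lit 0x98fd6)))) (a (v (nat_lit 5) (k (nat_lit 0x9b5e0)))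 (v (nat_lit 4) (k (nat_lit 0x994f8))))))) (v (nat_lit 3) (a (a (u (nat_lit 9) (k (nat_lit 0x99696))) (u (nat_lit 8) (k (nat_lit 0x9946e)))) (a (u (nat_lit 5) (k (nat_lit 0x9e298))) (u (nat_lit 4) (k (nat_lit 0x8422db8))))))) (a (u (nat_lit 3) (a (v (nat_lit 6) (k (nat_lit 0x9a260))) (a (v (nat_lit 5) (k (nat_lit 0xb95a4d2))) (v (nat_lit 3) (k (nat_lit 0xa65ae)))))) (v (nat_lit 2) (a (u (nat_lit 6) (k (nat_lit 0x99078))) (a (u (nat_lit 4) (k (nat_lit 0x13030e))) (u (nat_lit 3) (k (nat_lit 0x9ba00))))))))))) (a (u (nat_lit 2) (a (v (nat_lit 4) (a (a (v (nat_lit 9) (k (nat_lit 0x991da))) (a (v (nat_lit 8) (k (nat_lit 0x9912c))) (u (nat_lit 8) (k (nat_lit 0xa58098e))))) (a (v (nat_lit 6) (k (nat_lit 0x996a8))) (a (u (nat_lit 6) (k (nat_lit 0xae8f934))) (v (nat_lit 4) (k (nat_lit 0x998a0))))))) (a (v (nat_lit 3) (a (v (nat_lit 7) (k (nat_lit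 0x99f36))) (a (t (nat_lit 5) (nat_lit 8) (nat_lit 9) (k (nat_lit 0x99492))) (v (nat_lit 4) (k (nat_lit 0x8422db8)))))) (v (nat_lit 2) (a (u (nat_lit 9) (k (nat_lit 0x9bf34))) (v (nat_lit 4) (k (nat_lit 0x9a9da)))))))) (v (nat_lit 1) (a (a (a (v (nat_lit 6) (a (u (nat_lit 9) (k (nat_lit 0x98ed4))) (u (nat_lit 7) (k (nat_lit 0x98f10))))) (u (nat_lit 6) (a (v (nat_lit 8) (k (nat_lit 0x98e2c))) (v (nat_lit 6) (k (nat_lit 0x98e74)))))) (a (u (nat_lit 5) (v (nat_lit 6) (k (nat_lit 0x99144)))) (a (v (nat_lit 4) (u (nat_lit 7) (k (nat_lit 0x99b88)))) (u (nat_lit 4) (a (a (v (nat_lit 9) (k (nat_lit 0x98ef8))) (v (nat_lit 8) (k (nat_lit 0x9908a)))) (a (v (nat_lit 6) (k (nat_lit 0x9904e))) (a (v (nat_lit 5) (k (nat_lit 0x98fdc))) (v (nat_lit 4) (k (nat_lit 0x99b88)))))))))) (a (a (v (nat_lit 3) (a (a (u (nat_lit 9) (k (nat_lit 0x98f82))) (u (nat_lit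 8) (k (nat_lit 0x99030)))) (a (u (nat_lit 7) (k (nat_lit 0x98f40))) (u (nat_lit 5) (k (nat_lit 0x99000)))))) (u (nat_lit 3) (a (u (nat_lit 5) (k (nat_lit 0x98fb2))) (a (v (nat_lit 4) (k (nat_lit 0x320293e))) (v (nat_lit 3) (k (nat_lit 0x99330))))))) (a (v (nat_lit 2) (a (a (u (nat_lit 9) (k (nat_lit 0x99960))) (u (nat_lit 7) (k (nat_lit 0x991e0)))) (a (u (nat_lit 5) (k (nat_lit 0x9f168))) (u (nat_lit 3) (k (nat_lit 0x264b22)))))) (a (u (nat_lit 2) (a (a (v (nat_lit 6) (k (nat_lit 0x99084))) (v (nat_lit 4) (k (nat_lit 0x995f4)))) (a (v (nat_lit 3) (k (nat_lit 0x98ef2))) (v (nat_lit 2) (k (nat_lit 0x9b25c)))))) (v (nat_lit 1) (u (nat_lit 6) (k (nat_lit 0x99018))))))))))))))) (a (u (nat_lit 1) (a (a (a (v (nat_lit 7) (a (v (nat_lit 8) (v (nat_lit 8) (k (nat_lit 0x98f10)))) (v (nat_lit 7) (a (v (nat_lit 9) (k (nat_lit 0x98fac))) (a (v (nat_lit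 8) (k (nat_lit 0x98ec8))) (v (nat_lit 7) (k (nat_lit 0x9915c)))))))) (a (v (nat_lit 6) (a (v (nat_lit 8) (u (nat_lit 9) (k (nat_lit 0x9877e)))) (v (nat_lit 6) (u (nat_lit 9) (k (nat_lit 0x98dc6)))))) (u (nat_lit 6) (v (nat_lit 7) (v (nat_lit 7) (k (nat_lit 0x98ee6))))))) (a (v (nat_lit 5) (a (a (v (nat_lit 9) (v (nat_lit 9) (k (nat_lit 0x98cbe)))) (v (nat_lit 7) (v (nat_lit 7) (k (nat_lit 0x98f64))))) (a (u (nat_lit 6) (v (nat_lit 7) (k (nat_lit 0x993a2)))) (v (nat_lit 5) (a (v (nat_lit 9) (k (nat_lit 0x98cb2))) (v (nat_lit 8) (k (nat_lit 0x989be)))))))) (a (t (nat_lit 5) (nat_lit 8) (nat_lit 9) (a (v (nat_lit 6) (v (nat_lit 6) (k (nat_lit 0xe3241d2)))) (u (nat_lit 5) (a (u (nat_lit 9) (k (nat_lit 0x139282e))) (a (u (nat_lit 7) (k (nat_lit 0x992ee))) (v (nat_lit 5) (k (nat_lit 0x7452198)))))))) (v (nat_lit 4) (a (u (nat_lit 6) (v (nat_lit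 7) (k (nat_lit 0x98cd6)))) (a (t (nat_lit 5) (nat_lit 8) (nat_lit 9) (u (nat_lit 5) (k (nat_lit 0x98fac)))) (v (nat_lit 4) (u (nat_lit 6) (k (nat_lit 0x99030)))))))))) (a (a (v (nat_lit 3) (a (a (v (nat_lit 8) (a (v (nat_lit 9) (k (nat_lit 0x10c09fec))) (v (nat_lit 8) (k (nat_lit 0x98f0a))))) (a (u (nat_lit 8) (v (nat_lit 8) (k (nat_lit 0x9be26)))) (v (nat_lit 6) (a (v (nat_lit 8) (k (nat_lit 0x995e8))) (v (nat_lit 7) (k (nat_lit 0x992dc))))))) (a (a (v (nat_lit 5) (a (v (nat_lit 8) (k (nat_lit 0x9cb58))) (a (v (nat_lit 6) (k (nat_lit 0x98f3a))) (v (nat_lit 5) (k (nat_lit 0x98d72)))))) (u (nat_lit 5) (a (u (nat_lit 6) (k (nat_lit 0x8db20c2))) (v (nat_lit 5) (k (nat_lit 0x966a7ca)))))) (a (v (nat_lit 4) (a (v (nat_lit 6) (k (nat_lit 0x9a260))) (a (v (nat_lit 5) (k (nat_lit 0xb95a4d2))) (v (nat_lit 4) (k (nat_lit 0x9ba00)))))) (v (nat_lit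 3) (a (u (nat_lit 5) (k (nat_lit 0x98fb2))) (v (nat_lit 4) (k (nat_lit 0x264b22))))))))) (a (u (nat_lit 3) (t (nat_lit 5) (nat_lit 8) (nat_lit 9) (a (u (nat_lit 9) (k (nat_lit 0x9915c))) (u (nat_lit 8) (k (nat_lit 0x9915c)))))) (v (nat_lit 2) (a (a (a (v (nat_lit 9) (v (nat_lit 9) (k (nat_lit 0x73f25e8)))) (v (nat_lit 8) (a (v (nat_lit 9) (k (nat_lit 0x99060))) (v (nat_lit 8) (k (nat_lit 0x98e5c)))))) (a (v (nat_lit 7) (a (v (nat_lit 9) (k (nat_lit 0x993fc))) (a (v (nat_lit 8) (k (nat_lit 0x99330))) (v (nat_lit 7) (k (nat_lit 0x99138)))))) (v (nat_lit 6) (v (nat_lit 6) (k (nat_lit 0x98fa0)))))) (a (a (u (nat_lit 6) (a (v (nat_lit 9) (k (nat_lit 0x9920a))) (v (nat_lit 8) (k (nat_lit 0x97cd4))))) (v (nat_lit 5) (a (a (v (nat_lit 9) (k (nat_lit 0x98fd0))) (v (nat_lit 8) (k (nat_lit 0x98f40)))) (a (v (nat_lit 7) (k (nat_lit 0x99234))) (a (u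 (nat_lit 6) (k (nat_lit 0x9855c))) (v (nat_lit 5) (k (nat_lit 0x98cdc)))))))) (a (v (nat_lit 4) (a (u (nat_lit 6) (k (nat_lit 0x98eda))) (t (nat_lit 5) (nat_lit 8) (nat_lit 9) (k (nat_lit 0x9a146))))) (a (v (nat_lit 3) (a (u (nat_lit 7) (k (nat_lit 0x9970e))) (v (nat_lit 3) (k (nat_lit 0x320293e))))) (v (nat_lit 2) (a (a (v (nat_lit 9) (k (nat_lit 0x98eec))) (v (nat_lit 8) (k (nat_lit 0x98f70)))) (a (v (nat_lit 7) (k (nat_lit 0x993c0))) (a (v (nat_lit 5) (k (nat_lit 0x98c10))) (v (nat_lit 2) (k (nat_lit 0x98d24)))))))))))))) (a (u (nat_lit 2) (t (nat_lit 5) (nat_lit 8) (nat_lit 9) (u (nat_lit 5) (k (nat_lit 0x996c0))))) (a (v (nat_lit 1) (a (a (a (v (nat_lit 9) (v (nat_lit 9) (k (nat_lit 0x96ccc)))) (v (nat_lit 8) (a (v (nat_lit 9) (k (nat_lit 0x9ad46))) (v (nat_lit 8) (k (nat_lit 0x9921c)))))) (a (v (nat_lit 7) (a (v (nat_lit 9) (k (nat_lit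 0x9abb4))) (a (v (nat_lit 8) (k (nat_lit 0x9924c))) (v (nat_lit 7) (k (nat_lit 0x994c2)))))) (a (u (nat_lit 7) (v (nat_lit 7) (k (nat_lit 0xb792a8a)))) (v (nat_lit 5) (a (a (v (nat_lit 9) (k (nat_lit 0x9a4fa))) (v (nat_lit 8) (k (nat_lit 0x99378)))) (a (v (nat_lit 7) (k (nat_lit 0x9970e))) (v (nat_lit 5) (k (nat_lit 0x98dc0))))))))) (a (a (u (nat_lit 5) (a (v (nat_lit 7) (k (nat_lit 0x9bade))) (u (nat_lit 6) (k (nat_lit 0x20024dc))))) (a (v (nat_lit 4) (a (u (nat_lit 8) (k (nat_lit 0x99eb2))) (u (nat_lit 6) (k (nat_lit 0x9977a))))) (v (nat_lit 3) (a (v (nat_lit 6) (k (nat_lit 0x98f46))) (a (v (nat_lit 4) (k (nat_lit 0xa65ae))) (v (nat_lit 3) (k (nat_lit 0x99330)))))))) (a (u (nat_lit 3) (u (nat_lit 3) (k (nat_lit 0x99090)))) (a (v (nat_lit 2) (a (u (nat_lit 9) (k (nat_lit 0x99b7c))) (v (nat_lit 8) (k (nat_lit 0x9b094))))) (v (nat_lit 1)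 (a (a (a (v (nat_lit 9) (k (nat_lit 0x131d3c))) (v (nat_lit 8) (k (nat_lit 0x996fc)))) (a (v (nat_lit 7) (k (nat_lit 0x131d84))) (v (nat_lit 5) (k (nat_lit 0x9903c))))) (a (a (v (nat_lit 4) (k (nat_lit 0x9a140))) (v (nat_lit 3) (k (nat_lit 0x994aa)))) (a (v (nat_lit 2) (k (nat_lit 0x99528))) (v (nat_lit 1) (k (nat_lit 0x99156)))))))))))) (u (nat_lit 1) (a (a (a (v (nat_lit 9) (v (nat_lit 9) (k (nat_lit 0x96804)))) (v (nat_lit 8) (v (nat_lit 9) (k (nat_lit 0x99036))))) (a (v (nat_lit 7) (v (nat_lit 9) (k (nat_lit 0x991f8)))) (v (nat_lit 5) (v (nat_lit 9) (k (nat_lit 0x997f2)))))) (a (a (v (nat_lit 3) (a (a (v (nat_lit 9) (k (nat_lit 0x151ade9a))) (u (nat_lit 8) (k (nat_lit 0x98cb8)))) (a (v (nat_lit 7) (k (nat_lit 0x9ef7c))) (a (v (nat_lit 6) (k (nat_lit 0x98ade))) (u (nat_lit 5) (k (nat_lit 0x6279792))))))) (u (nat_lit 3) (v (nat_lit 3)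 (k (nat_lit 0x99090))))) (a (v (nat_lit 1) (a (v (nat_lit 8) (k (nat_lit 0x99264))) (a (v (nat_lit 4) (k (nat_lit 0x995f4))) (v (nat_lit 1) (k (nat_lit 0x98e6e)))))) (u (nat_lit 1) (v (nat_lit 3) (k (nat_lit 0x1c9956))))))))))))) (a (v (nat_lit 0) (a (a (a (a (u (nat_lit 9) (v (nat_lit 9) (v (nat_lit 9) (k (nat_lit 0x984a2))))) (v (nat_lit 8) (v (nat_lit 8) (u (nat_lit 9) (k (nat_lit 0x9875a)))))) (a (u (nat_lit 8) (a (v (nat_lit 9) (v (nat_lit 9) (k (nat_lit 0x9875a)))) (v (nat_lit 8) (v (nat_lit 8) (k (nat_lit 0x984a2)))))) (u (nat_lit 7) (a (v (nat_lit 9) (v (nat_lit 9) (k (nat_lit 0x98ce8)))) (v (nat_lit 8) (a (v (nat_lit 9) (k (nat_lit 0x1319a0))) (v (nat_lit 8) (k (nat_lit 0x98ce8))))))))) (a (a (v (nat_lit 6) (a (a (u (nat_lit 9) (v (nat_lit 9) (k (nat_lit 0x97ffe)))) (a (v (nat_lit 8) (u (nat_lit 9) (k (nat_lit 0x99816)))) (u (nat_lit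 8) (a (v (nat_lit 9) (k (nat_lit 0x99816))) (v (nat_lit 8) (k (nat_lit 0x97ffe))))))) (a (v (nat_lit 7) (a (u (nat_lit 9) (k (nat_lit 0x992ee))) (u (nat_lit 8) (k (nat_lit 0x992ee))))) (a (u (nat_lit 7) (a (v (nat_lit 9) (k (nat_lit 0x1c7c86e))) (a (v (nat_lit 8) (k (nat_lit 0x1c7c86e))) (v (nat_lit 7) (k (nat_lit 0x132108)))))) (v (nat_lit 6) (a (u (nat_lit 9) (k (nat_lit 0x98da2))) (u (nat_lit 8) (k (nat_lit 0x98da2))))))))) (u (nat_lit 6) (a (a (v (nat_lit 9) (v (nat_lit 9) (k (nat_lit 0x9a94a)))) (v (nat_lit 8) (a (v (nat_lit 9) (k (nat_lit 0x130f14))) (v (nat_lit 8) (k (nat_lit 0x9a94a)))))) (a (v (nat_lit 7) (a (v (nat_lit 9) (k (nat_lit 0x98ef8))) (a (v (nat_lit 8) (k (nat_lit 0x98ef8))) (v (nat_lit 7) (k (nat_lit 0x131b5c)))))) (v (nat_lit 6) (a (a (v (nat_lit 9) (k (nat_lit 0x99174))) (v (nat_lit 8) (k (nat_lit 0x99174)))) (a (v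 (nat_lit 7) (k (nat_lit 0x132444))) (v (nat_lit 6) (k (nat_lit 0x130d04)))))))))) (a (v (nat_lit 5) (a (a (v (nat_lit 8) (u (nat_lit 9) (k (nat_lit 0x98dd8)))) (a (u (nat_lit 8) (v (nat_lit 9) (k (nat_lit 0x98dd8)))) (v (nat_lit 7) (a (u (nat_lit 9) (k (nat_lit 0x98e98))) (u (nat_lit 8) (k (nat_lit 0x98e98))))))) (a (v (nat_lit 6) (a (u (nat_lit 9) (k (nat_lit 0x9b7ea))) (a (u (nat_lit 8) (k (nat_lit 0x9b7ea))) (u (nat_lit 7) (k (nat_lit 0x131b50)))))) (a (u (nat_lit 6) (a (a (v (nat_lit 9) (k (nat_lit 0x97dbe))) (v (nat_lit 8) (k (nat_lit 0x97dbe)))) (a (v (nat_lit 7) (k (nat_lit 0x131a00))) (v (nat_lit 6) (k (nat_lit 0x130284)))))) (v (nat_lit 5) (u (nat_lit 6) (k (nat_lit 0x130a94)))))))) (a (u (nat_lit 5) (a (a (v (nat_lit 9) (v (nat_lit 9) (k (nat_lit 0x98796)))) (a (v (nat_lit 8) (v (nat_lit 8) (k (nat_lit 0x98796)))) (v (nat_lit 6)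 (a (v (nat_lit 9) (k (nat_lit 0x29bccd4))) (a (v (nat_lit 8) (k (nat_lit 0x29bccd4))) (v (nat_lit 6) (k (nat_lit 0x133ddc)))))))) (a (u (nat_lit 6) (v (nat_lit 6) (k (nat_lit 0x16f0fda0)))) (a (v (nat_lit 5) (a (a (v (nat_lit 9) (k (nat_lit 0x987cc))) (v (nat_lit 8) (k (nat_lit 0x987cc)))) (a (v (nat_lit 7) (k (nat_lit 0x132af8))) (a (v (nat_lit 6) (k (nat_lit 0x13332c))) (v (nat_lit 5) (k (nat_lit 0x131634))))))) (u (nat_lit 5) (v (nat_lit 6) (k (nat_lit 0x3d746b10)))))))) (t (nat_lit 5) (nat_lit 8) (nat_lit 9) (a (a (u (nat_lit 9) (v (nat_lit 9) (k (nat_lit 0x990ea)))) (u (nat_lit 8) (v (nat_lit 8) (k (nat_lit 0x990ea))))) (a (u (nat_lit 6) (v (nat_lit 6) (k (nat_lit 0x131dfc)))) (u (nat_lit 5) (u (nat_lit 5) (k (nat_lit 0x11af27c0))))))))))) (a (a (a (v (nat_lit 4) (a (a (u (nat_lit 8) (v (nat_lit 9) (k (nat_lit 0x99726)))) (a (v (nat_lit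 7) (a (u (nat_lit 9) (k (nat_lit 0x980fa))) (u (nat_lit 8) (k (nat_lit 0x99036))))) (u (nat_lit 7) (a (v (nat_lit 9) (k (nat_lit 0x9e460))) (v (nat_lit 7) (k (nat_lit 0x9af20))))))) (a (a (u (nat_lit 6) (a (a (v (nat_lit 9) (k (nat_lit 0x9a014))) (v (nat_lit 8) (k (nat_lit 0x9919e)))) (a (v (nat_lit 7) (k (nat_lit 0x990a8))) (v (nat_lit 6) (k (nat_lit 0x99e1c)))))) (v (nat_lit 5) (a (u (nat_lit 9) (k (nat_lit 0x9933c))) (a (u (nat_lit 8) (k (nat_lit 0x9890a))) (u (nat_lit 6) (k (nat_lit 0x9a0c2))))))) (a (u (nat_lit 5) (a (a (v (nat_lit 9) (k (nat_lit 0x992b8))) (a (v (nat_lit 8) (k (nat_lit 0x9957c))) (u (nat_lit 8) (k (nat_lit 0x37882da))))) (a (v (nat_lit 7) (k (nat_lit 0x996d8))) (a (u (nat_lit 6) (k (nat_lit 0x996f0))) (v (nat_lit 5) (k (nat_lit 0x1b594864))))))) (v (nat_lit 4) (u (nat_lit 6) (k (nat_lit 0x9989a)))))))) (u (nat_lit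 4) (a (a (v (nat_lit 6) (a (v (nat_lit 8) (k (nat_lit 0xa0ffe))) (v (nat_lit 6) (k (nat_lit 0x98c04))))) (v (nat_lit 5) (v (nat_lit 6) (k (nat_lit 0x98916))))) (a (t (nat_lit 5) (nat_lit 8) (nat_lit 9) (v (nat_lit 6) (k (nat_lit 0x9c348)))) (a (v (nat_lit 4) (a (a (v (nat_lit 9) (k (nat_lit 0x99eac))) (v (nat_lit 8) (k (nat_lit 0x98cb8)))) (a (v (nat_lit 7) (k (nat_lit 0x992a0))) (a (v (nat_lit 5) (k (nat_lit 0x13453e))) (v (nat_lit 4) (k (nat_lit 0x99018))))))) (u (nat_lit 4) (a (t (nat_lit 5) (nat_lit 8) (nat_lit 9) (k (nat_lit 0x37ec3c0))) (v (nat_lit 4) (k (nat_lit 0x99630)))))))))) (a (v (nat_lit 3) (a (a (u (nat_lit 8) (u (nat_lit 8) (k (nat_lit 0x104b0df4)))) (u (nat_lit 6) (a (v (nat_lit 9) (k (nat_lit 0x95976))) (u (nat_lit 8) (k (nat_lit 0xf5322)))))) (a (t (nat_lit 5) (nat_lit 8) (nat_lit 9) (u (nat_lit 5) (k (nat_lit 0x37f94ee))))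 (a (u (nat_lit 4) (t (nat_lit 5) (nat_lit 8) (nat_lit 9) (k (nat_lit 0x99f00)))) (v (nat_lit 3) (a (a (u (nat_lit 9) (k (nat_lit 0x94faa))) (a (u (nat_lit 8) (k (nat_lit 0x9c78c))) (u (nat_lit 7) (k (nat_lit 0x99e34))))) (a (u (nat_lit 6) (k (nat_lit 0x99b4c))) (a (u (nat_lit 5) (k (nat_lit 0x98706))) (u (nat_lit 4) (k (nat_lit 0x99d0e))))))))))) (u (nat_lit 3) (a (a (a (v (nat_lit 9) (v (nat_lit 9) (k (nat_lit 0x98cdc)))) (v (nat_lit 8) (a (v (nat_lit 9) (k (nat_lit 0x98cd0))) (v (nat_lit 8) (k (nat_lit 0x98874)))))) (a (v (nat_lit 7) (a (v (nat_lit 9) (k (nat_lit 0x98f70))) (a (v (nat_lit 8) (k (nat_lit 0x98f58))) (v (nat_lit 7) (k (nat_lit 0x98da8)))))) (v (nat_lit 6) (a (v (nat_lit 9) (k (nat_lit 0x9e454))) (v (nat_lit 8) (k (nat_lit 0x99a92))))))) (a (a (v (nat_lit 5) (a (a (v (nat_lit 9) (k (nat_lit 0x98cfa))) (v (nat_lit 8) (k (nat_lit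 0x98c6a)))) (a (v (nat_lit 7) (k (nat_lit 0x98e20))) (a (v (nat_lit 6) (k (nat_lit 0x98d9c))) (v (nat_lit 5) (k (nat_lit 0x98c6a))))))) (t (nat_lit 5) (nat_lit 8) (nat_lit 9) (v (nat_lit 6) (k (nat_lit 0xba986e2))))) (a (v (nat_lit 4) (a (a (v (nat_lit 9) (k (nat_lit 0x99bd0))) (v (nat_lit 8) (k (nat_lit 0x99258)))) (a (v (nat_lit 7) (k (nat_lit 0x99084))) (a (v (nat_lit 5) (k (nat_lit 0x9946e))) (v (nat_lit 4) (k (nat_lit 0x982aa))))))) (a (v (nat_lit 3) (a (a (v (nat_lit 9) (k (nat_lit 0xa1574))) (a (v (nat_lit 8) (k (nat_lit 0x95a30))) (v (nat_lit 7) (k (nat_lit 0x5352d8))))) (a (a (v (nat_lit 6) (k (nat_lit 0x985bc))) (v (nat_lit 5) (k (nat_lit 0x9af20)))) (a (v (nat_lit 4) (k (nat_lit 0x991d4))) (v (nat_lit 3) (k (nat_lit 0x9931e))))))) (u (nat_lit 3) (v (nat_lit 6) (k (nat_lit 0x98652))))))))))) (a (a (v (nat_lit 2) (a (a (a (v (nat_lit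 8) (u (nat_lit 9) (k (nat_lit 0x99726)))) (v (nat_lit 7) (a (u (nat_lit 9) (k (nat_lit 0x99036))) (u (nat_lit 8) (k (nat_lit 0x980fa)))))) (a (u (nat_lit 7) (a (v (nat_lit 8) (k (nat_lit 0x9e460))) (v (nat_lit 7) (k (nat_lit 0x9af20))))) (a (u (nat_lit 6) (a (a (v (nat_lit 9) (k (nat_lit 0x9919e))) (v (nat_lit 8) (k (nat_lit 0x9a014)))) (a (v (nat_lit 7) (k (nat_lit 0x990a8))) (v (nat_lit 6) (k (nat_lit 0x99e1c)))))) (v (nat_lit 5) (a (u (nat_lit 9) (k (nat_lit 0x9890a))) (a (u (nat_lit 8) (k (nat_lit 0x9933c))) (u (nat_lit 6) (k (nat_lit 0x9a0c2))))))))) (a (a (u (nat_lit 5) (a (a (v (nat_lit 9) (k (nat_lit 0x9957c))) (a (u (nat_lit 9) (k (nat_lit 0x37882da))) (v (nat_lit 8) (k (nat_lit 0x992b8))))) (a (v (nat_lit 7) (k (nat_lit 0x996d8))) (a (u (nat_lit 6) (k (nat_lit 0x996f0))) (v (nat_lit 5) (k (nat_lit 0x1b594864))))))) (v (nat_lit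 4) (a (u (nat_lit 7) (k (nat_lit 0x131ce8))) (a (u (nat_lit 6) (k (nat_lit 0x131a60))) (u (nat_lit 5) (k (nat_lit 0x134214))))))) (a (u (nat_lit 4) (a (v (nat_lit 8) (k (nat_lit 0x6bf2014))) (a (v (nat_lit 5) (k (nat_lit 0x11ab10))) (v (nat_lit 4) (k (nat_lit 0x98f82)))))) (a (u (nat_lit 3) (a (a (v (nat_lit 9) (k (nat_lit 0x97a1c))) (a (u (nat_lit 9) (k (nat_lit 0x97a7c))) (v (nat_lit 8) (k (nat_lit 0x97a10))))) (a (a (v (nat_lit 7) (k (nat_lit 0x99342))) (v (nat_lit 5) (k (nat_lit 0x99f48)))) (a (v (nat_lit 4) (k (nat_lit 0x98dfc))) (v (nat_lit 3) (k (nat_lit 0x99462))))))) (v (nat_lit 2) (a (u (nat_lit 6) (k (nat_lit 0x9989a))) (a (u (nat_lit 4) (k (nat_lit 0x9ac02))) (u (nat_lit 3) (k (nat_lit 0x98eb6))))))))))) (u (nat_lit 2) (a (a (a (v (nat_lit 6) (a (v (nat_lit 9) (k (nat_lit 0xa0ffe))) (v (nat_lit 6) (k (nat_lit 0x98c04))))) (v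 (nat_lit 5) (v (nat_lit 6) (k (nat_lit 0x98916))))) (a (t (nat_lit 5) (nat_lit 8) (nat_lit 9) (v (nat_lit 6) (k (nat_lit 0x9c348)))) (v (nat_lit 4) (a (v (nat_lit 9) (k (nat_lit 0x6bf2014))) (a (v (nat_lit 5) (k (nat_lit 0x11ab10))) (v (nat_lit 4) (k (nat_lit 0x9ac02)))))))) (a (a (u (nat_lit 4) (t (nat_lit 5) (nat_lit 8) (nat_lit 9) (k (nat_lit 0x1f7ce314)))) (v (nat_lit 3) (a (v (nat_lit 9) (k (nat_lit 0x9bef8))) (v (nat_lit 3) (k (nat_lit 0x99ffc)))))) (a (u (nat_lit 3) (a (v (nat_lit 8) (k (nat_lit 0x96e3a))) (a (v (nat_lit 7) (k (nat_lit 0x98f52))) (v (nat_lit 5) (k (nat_lit 0x99d68)))))) (a (v (nat_lit 2) (a (a (v (nat_lit 9) (k (nat_lit 0x98cb8))) (a (v (nat_lit 8) (k (nat_lit 0x99eac))) (v (nat_lit 7) (k (nat_lit 0x992a0))))) (a (v (nat_lit 5) (k (nat_lit 0x13453e))) (a (v (nat_lit 4) (k (nat_lit 0x98f82))) (v (nat_lit 2) (k (nat_lit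 0x99018))))))) (u (nat_lit 2) (a (t (nat_lit 5) (nat_lit 8) (nat_lit 9) (k (nat_lit 0x37ec3c0))) (v (nat_lit 2) (k (nat_lit 0x99630))))))))))) (a (v (nat_lit 1) (a (a (a (u (nat_lit 9) (u (nat_lit 9) (k (nat_lit 0x104b0df4)))) (u (nat_lit 6) (a (u (nat_lit 9) (k (nat_lit 0xf5322))) (v (nat_lit 8) (k (nat_lit 0x95976)))))) (a (t (nat_lit 5) (nat_lit 8) (nat_lit 9) (u (nat_lit 5) (k (nat_lit 0x37f94ee)))) (u (nat_lit 4) (v (nat_lit 8) (k (nat_lit 0x9bef8)))))) (a (a (v (nat_lit 3) (a (u (nat_lit 9) (k (nat_lit 0x98e20))) (a (u (nat_lit 8) (k (nat_lit 0x98e20))) (u (nat_lit 5) (k (nat_lit 0x132a5c)))))) (u (nat_lit 3) (a (a (v (nat_lit 8) (k (nat_lit 0x43f19a))) (v (nat_lit 7) (k (nat_lit 0x69789c)))) (a (v (nat_lit 6) (k (nat_lit 0x9ba30))) (v (nat_lit 4) (k (nat_lit 0x99132))))))) (a (u (nat_lit 2) (t (nat_lit 5) (nat_lit 8) (nat_lit 9) (k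 (nat_lit 0x99f00)))) (v (nat_lit 1) (a (a (a (u (nat_lit 9) (k (nat_lit 0x9c78c))) (u (nat_lit 8) (k (nat_lit 0x94faa)))) (a (u (nat_lit 7) (k (nat_lit 0x99e34))) (u (nat_lit 6) (k (nat_lit 0x99b4c))))) (a (a (u (nat_lit 5) (k (nat_lit 0x98706))) (u (nat_lit 4) (k (nat_lit 0x99ffc)))) (a (u (nat_lit 3) (k (nat_lit 0x99a38))) (u (nat_lit 2) (k (nat_lit 0x99d0e))))))))))) (a (u (nat_lit 1) (a (a (a (v (nat_lit 9) (v (nat_lit 9) (k (nat_lit 0x98874)))) (a (v (nat_lit 8) (a (v (nat_lit 9) (k (nat_lit 0x98cd0))) (v (nat_lit 8) (k (nat_lit 0x98cdc))))) (v (nat_lit 7) (a (v (nat_lit 9) (k (nat_lit 0x98f58))) (a (v (nat_lit 8) (k (nat_lit 0x98f70))) (v (nat_lit 7) (k (nat_lit 0x98da8)))))))) (a (v (nat_lit 6) (a (v (nat_lit 9) (k (nat_lit 0x99a92))) (v (nat_lit 8) (k (nat_lit 0x9e454))))) (a (v (nat_lit 5) (a (a (v (nat_lit 9) (k (nat_lit 0x98c6a)))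 (v (nat_lit 8) (k (nat_lit 0x98cfa)))) (a (v (nat_lit 7) (k (nat_lit 0x98e20))) (a (v (nat_lit 6) (k (nat_lit 0x98d9c))) (v (nat_lit 5) (k (nat_lit 0x98c6a))))))) (t (nat_lit 5) (nat_lit 8) (nat_lit 9) (v (nat_lit 6) (k (nat_lit 0xba986e2))))))) (a (a (v (nat_lit 4) (a (a (v (nat_lit 9) (k (nat_lit 0x97a10))) (a (v (nat_lit 8) (k (nat_lit 0x97a1c))) (u (nat_lit 8) (k (nat_lit 0x97a7c))))) (a (v (nat_lit 7) (k (nat_lit 0x99342))) (a (v (nat_lit 5) (k (nat_lit 0x99f48))) (v (nat_lit 4) (k (nat_lit 0x98eb6))))))) (a (u (nat_lit 4) (a (v (nat_lit 9) (k (nat_lit 0x96e3a))) (a (v (nat_lit 7) (k (nat_lit 0x98f52))) (v (nat_lit 5) (k (nat_lit 0x99d68)))))) (v (nat_lit 3) (a (a (v (nat_lit 9) (k (nat_lit 0x43f19a))) (v (nat_lit 7) (k (nat_lit 0x69789c)))) (a (v (nat_lit 6) (k (nat_lit 0x9ba30))) (v (nat_lit 3) (k (nat_lit 0x99a38)))))))) (a (v (nat_lit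 2) (a (a (v (nat_lit 9) (k (nat_lit 0x99258))) (a (v (nat_lit 8) (k (nat_lit 0x99bd0))) (v (nat_lit 7) (k (nat_lit 0x99084))))) (a (a (v (nat_lit 5) (k (nat_lit 0x9946e))) (v (nat_lit 4) (k (nat_lit 0x98dfc)))) (a (v (nat_lit 3) (k (nat_lit 0x99132))) (v (nat_lit 2) (k (nat_lit 0x982aa))))))) (a (v (nat_lit 1) (a (a (a (v (nat_lit 9) (k (nat_lit 0x95a30))) (v (nat_lit 8) (k (nat_lit 0xa1574)))) (a (v (nat_lit 7) (k (nat_lit 0x5352d8))) (v (nat_lit 6) (k (nat_lit 0x985bc))))) (a (a (v (nat_lit 5) (k (nat_lit 0x9af20))) (v (nat_lit 4) (k (nat_lit 0x99462)))) (a (v (nat_lit 2) (k (nat_lit 0x991d4))) (v (nat_lit 1) (k (nat_lit 0x9931e))))))) (u (nat_lit 1) (v (nat_lit 6) (k (nat_lit 0x98652))))))))) (v (nat_lit 0) (a (a (a (u (nat_lit 7) (a (v (nat_lit 9) (k (nat_lit 0x98cdc))) (v (nat_lit 8) (k (nat_lit 0x98cdc))))) (a (u (nat_lit 6) (a (v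 (nat_lit 9) (k (nat_lit 0x98ca0))) (a (v (nat_lit 8) (k (nat_lit 0x98ca0))) (v (nat_lit 7) (k (nat_lit 0x131bb0)))))) (v (nat_lit 5) (a (u (nat_lit 7) (k (nat_lit 0x1319dc))) (u (nat_lit 6) (k (nat_lit 0x135498))))))) (a (t (nat_lit 5) (nat_lit 8) (nat_lit 9) (a (u (nat_lit 9) (k (nat_lit 0x399bb2c))) (u (nat_lit 8) (k (nat_lit 0x399bb2c))))) (a (v (nat_lit 4) (a (a (u (nat_lit 9) (k (nat_lit 0x9912c))) (u (nat_lit 8) (k (nat_lit 0x9728a)))) (a (u (nat_lit 7) (k (nat_lit 0x99b5e))) (u (nat_lit 5) (k (nat_lit 0x9bda2)))))) (u (nat_lit 4) (a (a (v (nat_lit 8) (k (nat_lit 0x9ab36))) (v (nat_lit 7) (k (nat_lit 0x98e62)))) (a (v (nat_lit 5) (k (nat_lit 0x96bbe))) (v (nat_lit 4) (k (nat_lit 0x9b8bc))))))))) (a (a (v (nat_lit 3) (u (nat_lit 6) (k (nat_lit 0x9864c)))) (a (u (nat_lit 3) (a (u (nat_lit 9) (k (nat_lit 0x9835e))) (v (nat_lit 6) (k (nat_lit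 0x992b8))))) (v (nat_lit 2) (a (a (u (nat_lit 9) (k (nat_lit 0x9728a))) (u (nat_lit 8) (k (nat_lit 0x9912c)))) (a (u (nat_lit 7) (k (nat_lit 0x99b5e))) (a (u (nat_lit 5) (k (nat_lit 0x9bda2))) (u (nat_lit 4) (k (nat_lit 0x9cbd6))))))))) (a (a (u (nat_lit 2) (a (a (v (nat_lit 9) (k (nat_lit 0x9ab36))) (v (nat_lit 7) (k (nat_lit 0x98e62)))) (a (v (nat_lit 5) (k (nat_lit 0x96bbe))) (a (v (nat_lit 4) (k (nat_lit 0x9cbd6))) (v (nat_lit 2) (k (nat_lit 0x9b8bc))))))) (v (nat_lit 1) (a (u (nat_lit 6) (k (nat_lit 0x9864c))) (u (nat_lit 3) (k (nat_lit 0x474214e)))))) (a (u (nat_lit 1) (a (u (nat_lit 8) (k (nat_lit 0x9835e))) (a (v (nat_lit 6) (k (nat_lit 0x992b8))) (v (nat_lit 3) (k (nat_lit 0x474214e)))))) (v (nat_lit 0) (a (a (u (nat_lit 4) (k (nat_lit 0x99000))) (u (nat_lit 3) (k (nat_lit 0x98cb8)))) (a (u (nat_lit 2) (k (nat_lit 0x99000))) (u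 (nat_lit 1) (k (nat_lit 0x98cb8))))))))))))))))) (u (nat_lit 0) (a (a (a (v (nat_lit 7) (v (nat_lit 7) (a (v (nat_lit 9) (k (nat_lit 0x99084))) (a (v (nat_lit 8) (k (nat_lit 0x99084))) (v (nat_lit 7) (k (nat_lit 0x1323c0))))))) (a (v (nat_lit 6) (v (nat_lit 6) (a (a (v (nat_lit 9) (k (nat_lit 0x98f3a))) (v (nat_lit 8) (k (nat_lit 0x98f3a)))) (a (v (nat_lit 7) (k (nat_lit 0x1338cc))) (v (nat_lit 6) (k (nat_lit 0x1329c0))))))) (v (nat_lit 5) (a (v (nat_lit 7) (v (nat_lit 7) (k (nat_lit 0x132750)))) (v (nat_lit 6) (v (nat_lit 6) (k (nat_lit 0x13182c)))))))) (a (a (u (nat_lit 5) (a (u (nat_lit 7) (v (nat_lit 7) (k (nat_lit 0x1323a8)))) (v (nat_lit 5) (v (nat_lit 5) (k (nat_lit 0x131cdc)))))) (t (nat_lit 5) (nat_lit 8) (nat_lit 9) (a (v (nat_lit 6) (v (nat_lit 6) (k (nat_lit 0x33197e8)))) (a (u (nat_lit 5) (v (nat_lit 5) (k (nat_lit 0x13b588))))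 (t (nat_lit 5) (nat_lit 8) (nat_lit 9) (u (nat_lit 5) (k (nat_lit 0x5ca0660)))))))) (a (v (nat_lit 4) (a (a (v (nat_lit 9) (v (nat_lit 9) (k (nat_lit 0x98e98)))) (a (v (nat_lit 8) (a (v (nat_lit 9) (k (nat_lit 0x98df6))) (v (nat_lit 8) (k (nat_lit 0x99534))))) (v (nat_lit 7) (a (v (nat_lit 9) (k (nat_lit 0x9916e))) (a (v (nat_lit 8) (k (nat_lit 0x99336))) (v (nat_lit 7) (k (nat_lit 0x49f7f4)))))))) (a (a (v (nat_lit 6) (a (a (u (nat_lit 9) (k (nat_lit 0x99eac))) (v (nat_lit 8) (k (nat_lit 0x98cdc)))) (a (v (nat_lit 7) (k (nat_lit 0x998b2))) (v (nat_lit 6) (k (nat_lit 0x982b0)))))) (v (nat_lit 5) (a (v (nat_lit 7) (k (nat_lit 0x98f58))) (a (v (nat_lit 6) (k (nat_lit 0x98814))) (v (nat_lit 5) (k (nat_lit 0x99774))))))) (a (t (nat_lit 5) (nat_lit 8) (nat_lit 9) (u (nat_lit 6) (k (nat_lit 0x992a0)))) (v (nat_lit 4) (a (a (v (nat_lit 9) (k (nat_lit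 0x98eb0))) (a (v (nat_lit 8) (k (nat_lit 0x9924c))) (v (nat_lit 7) (k (nat_lit 0x99054))))) (a (v (nat_lit 6) (k (nat_lit 0x9833a))) (a (v (nat_lit 5) (k (nat_lit 0x990ea))) (v (nat_lit 4) (k (nat_lit 0x98e44))))))))))) (u (nat_lit 4) (a (v (nat_lit 6) (v (nat_lit 7) (k (nat_lit 0x996d2)))) (a (v (nat_lit 5) (v (nat_lit 6) (k (nat_lit 0x99540)))) (u (nat_lit 5) (v (nat_lit 5) (k (nat_lit 0x98aa8)))))))))) (a (a (a (v (nat_lit 3) (a (a (v (nat_lit 6) (a (v (nat_lit 7) (k (nat_lit 0x9925e))) (v (nat_lit 6) (k (nat_lit 0x98f4c))))) (u (nat_lit 5) (u (nat_lit 6) (k (nat_lit 0x82b8aba))))) (a (v (nat_lit 4) (v (nat_lit 6) (k (nat_lit 0x9921c)))) (a (u (nat_lit 4) (v (nat_lit 4) (k (nat_lit 0x98a7e)))) (v (nat_lit 3) (a (a (v (nat_lit 9) (k (nat_lit 0x99372))) (a (v (nat_lit 8) (k (nat_lit 0x991c8))) (v (nat_lit 7) (k (nat_lit 0x99348))))) (a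 (a (v (nat_lit 6) (k (nat_lit 0x98ef2))) (v (nat_lit 5) (k (nat_lit 0x98e4a)))) (a (v (nat_lit 4) (k (nat_lit 0x9946e))) (v (nat_lit 3) (k (nat_lit 0x98e26))))))))))) (u (nat_lit 3) (a (v (nat_lit 6) (u (nat_lit 8) (k (nat_lit 0x988e6)))) (a (u (nat_lit 6) (v (nat_lit 7) (k (nat_lit 0x98d8a)))) (u (nat_lit 4) (u (nat_lit 5) (k (nat_lit 0x99222)))))))) (a (v (nat_lit 2) (a (a (a (v (nat_lit 9) (v (nat_lit 9) (k (nat_lit 0x99534)))) (v (nat_lit 8) (a (v (nat_lit 9) (k (nat_lit 0x98df6))) (v (nat_lit 8) (k (nat_lit 0x98e98)))))) (a (v (nat_lit 7) (a (v (nat_lit 9) (k (nat_lit 0x99336))) (a (v (nat_lit 8) (k (nat_lit 0x9916e))) (v (nat_lit 7) (k (nat_lit 0x49f7f4)))))) (a (v (nat_lit 6) (a (a (v (nat_lit 9) (k (nat_lit 0x98cdc))) (u (nat_lit 8) (k (nat_lit 0x99eac)))) (a (v (nat_lit 7) (k (nat_lit 0x998b2))) (v (nat_lit 6) (k (nat_lit 0x982b0))))))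 (v (nat_lit 5) (a (v (nat_lit 7) (k (nat_lit 0x98f58))) (a (v (nat_lit 6) (k (nat_lit 0x98814))) (v (nat_lit 5) (k (nat_lit 0x99774))))))))) (a (a (t (nat_lit 5) (nat_lit 8) (nat_lit 9) (u (nat_lit 6) (k (nat_lit 0x992a0)))) (v (nat_lit 4) (a (v (nat_lit 9) (k (nat_lit 0x99be8))) (a (v (nat_lit 8) (k (nat_lit 0x99be8))) (v (nat_lit 6) (k (nat_lit 0x131dc0))))))) (a (v (nat_lit 3) (a (v (nat_lit 6) (k (nat_lit 0x99276))) (a (u (nat_lit 6) (k (nat_lit 0x710cee))) (v (nat_lit 3) (k (nat_lit 0x98e7a)))))) (a (u (nat_lit 3) (u (nat_lit 8) (k (nat_lit 0x97d70)))) (v (nat_lit 2) (a (a (v (nat_lit 9) (k (nat_lit 0x9924c))) (a (v (nat_lit 8) (k (nat_lit 0x98eb0))) (v (nat_lit 7) (k (nat_lit 0x99054))))) (a (v (nat_lit 6) (k (nat_lit 0x9833a))) (a (v (nat_lit 5) (k (nat_lit 0x990ea))) (v (nat_lit 2) (k (nat_lit 0x98e44)))))))))))) (u (nat_lit 2) (a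 (a (v (nat_lit 6) (v (nat_lit 7) (k (nat_lit 0x996d2)))) (v (nat_lit 5) (v (nat_lit 6) (k (nat_lit 0x99540))))) (a (u (nat_lit 5) (v (nat_lit 5) (k (nat_lit 0x98aa8)))) (a (v (nat_lit 3) (a (v (nat_lit 9) (k (nat_lit 0x98d48))) (v (nat_lit 8) (k (nat_lit 0x9817e))))) (v (nat_lit 2) (v (nat_lit 3) (k (nat_lit 0x1b9a3a52)))))))))) (a (a (v (nat_lit 1) (a (a (a (v (nat_lit 6) (a (v (nat_lit 7) (k (nat_lit 0x9925e))) (v (nat_lit 6) (k (nat_lit 0x98f4c))))) (u (nat_lit 5) (u (nat_lit 6) (k (nat_lit 0x82b8aba))))) (a (v (nat_lit 4) (a (v (nat_lit 6) (k (nat_lit 0x99276))) (u (nat_lit 6) (k (nat_lit 0x710cee))))) (u (nat_lit 4) (a (v (nat_lit 9) (k (nat_lit 0x9817e))) (a (v (nat_lit 8) (k (nat_lit 0x98d48))) (v (nat_lit 4) (k (nat_lit 0x1b9a3a52)))))))) (a (a (v (nat_lit 3) (a (a (v (nat_lit 9) (k (nat_lit 0x99396))) (a (v (nat_lit 8) (k (nat_lit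 0x99396))) (v (nat_lit 7) (k (nat_lit 0x131238))))) (a (a (v (nat_lit 6) (k (nat_lit 0x131568))) (v (nat_lit 5) (k (nat_lit 0x131b8c)))) (a (v (nat_lit 4) (k (nat_lit 0x9952e))) (v (nat_lit 3) (k (nat_lit 0x98dfc))))))) (u (nat_lit 3) (u (nat_lit 5) (k (nat_lit 0x8c748d8))))) (a (v (nat_lit 2) (a (v (nat_lit 6) (k (nat_lit 0x9921c))) (v (nat_lit 3) (k (nat_lit 0x9952e))))) (a (u (nat_lit 2) (v (nat_lit 2) (k (nat_lit 0x98a7e)))) (v (nat_lit 1) (a (a (a (v (nat_lit 9) (k (nat_lit 0x991c8))) (v (nat_lit 8) (k (nat_lit 0x99372)))) (a (v (nat_lit 7) (k (nat_lit 0x99348))) (v (nat_lit 6) (k (nat_lit 0x98ef2))))) (a (a (v (nat_lit 5) (k (nat_lit 0x98e4a))) (v (nat_lit 4) (k (nat_lit 0x98e7a)))) (a (v (nat_lit 3) (k (nat_lit 0x98dfc))) (a (v (nat_lit 2) (k (nat_lit 0x9946e))) (v (nat_lit 1) (k (nat_lit 0x98e26))))))))))))) (u (nat_lit 1) (a (a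 (v (nat_lit 6) (u (nat_lit 9) (k (nat_lit 0x988e6)))) (u (nat_lit 6) (v (nat_lit 7) (k (nat_lit 0x98d8a))))) (a (v (nat_lit 4) (u (nat_lit 9) (k (nat_lit 0x97d70)))) (a (v (nat_lit 3) (u (nat_lit 5) (k (nat_lit 0x8c748d8)))) (u (nat_lit 2) (u (nat_lit 5) (k (nat_lit 0x99222))))))))) (a (v (nat_lit 0) (a (a (a (v (nat_lit 9) (v (nat_lit 9) (k (nat_lit 0x9aed8)))) (a (v (nat_lit 8) (a (v (nat_lit 9) (k (nat_lit 0x131acc))) (v (nat_lit 8) (k (nat_lit 0x9aed8))))) (v (nat_lit 7) (v (nat_lit 7) (k (nat_lit 0x132114)))))) (a (a (v (nat_lit 6) (a (u (nat_lit 7) (k (nat_lit 0xf255b28))) (v (nat_lit 6) (k (nat_lit 0x131f28))))) (v (nat_lit 5) (a (a (v (nat_lit 9) (k (nat_lit 0x98e74))) (v (nat_lit 8) (k (nat_lit 0x98e74)))) (a (v (nat_lit 6) (k (nat_lit 0x12e184))) (v (nat_lit 5) (k (nat_lit 0x131d18))))))) (a (u (nat_lit 5) (v (nat_lit 6) (k (nat_lit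 0x2908b8dc)))) (t (nat_lit 5) (nat_lit 8) (nat_lit 9) (u (nat_lit 5) (k (nat_lit 0x942956d0))))))) (a (a (v (nat_lit 4) (v (nat_lit 6) (k (nat_lit 0x99252)))) (a (u (nat_lit 4) (v (nat_lit 6) (k (nat_lit 0x99636)))) (v (nat_lit 3) (a (a (v (nat_lit 9) (k (nat_lit 0x98ade))) (a (v (nat_lit 8) (k (nat_lit 0x98fc4))) (v (nat_lit 7) (k (nat_lit 0x991a4))))) (a (a (v (nat_lit 6) (k (nat_lit 0x99960))) (v (nat_lit 5) (k (nat_lit 0x990cc)))) (a (v (nat_lit 4) (k (nat_lit 0x990a8))) (v (nat_lit 3) (k (nat_lit 0x9906c))))))))) (a (a (v (nat_lit 2) (a (v (nat_lit 6) (k (nat_lit 0x99252))) (v (nat_lit 3) (k (nat_lit 0x98f7c))))) (u (nat_lit 2) (v (nat_lit 6) (k (nat_lit 0x99636))))) (a (v (nat_lit 1) (a (a (a (v (nat_lit 9) (k (nat_lit 0x98fc4))) (v (nat_lit 8) (k (nat_lit 0x98ade)))) (a (v (nat_lit 7) (k (nat_lit 0x991a4))) (v (nat_lit 6) (k (nat_lit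 0x99960))))) (a (a (v (nat_lit 5) (k (nat_lit 0x990cc))) (v (nat_lit 4) (k (nat_lit 0x98f7c)))) (a (v (nat_lit 3) (k (nat_lit 0x132600))) (a (v (nat_lit 2) (k (nat_lit 0x990a8))) (v (nat_lit 1) (k (nat_lit 0x9906c)))))))) (v (nat_lit 0) (a (a (a (v (nat_lit 9) (k (nat_lit 0x98460))) (v (nat_lit 8) (k (nat_lit 0x98460)))) (a (v (nat_lit 7) (k (nat_lit 0x131fe8))) (v (nat_lit 6) (k (nat_lit 0x132cb4))))) (a (a (v (nat_lit 5) (k (nat_lit 0x1313a0))) (t (nat_lit 5) (nat_lit 8) (nat_lit 9) (k (nat_lit 0x2fc3c730)))) (a (v (nat_lit 4) (k (nat_lit 0x98c94))) (a (v (nat_lit 2) (k (nat_lit 0x98c94))) (v (nat_lit 0) (k (nat_lit 0x131994))))))))))))) (u (nat_lit 0) (a (a (u (nat_lit 9) (v (nat_lit 9) (k (nat_lit 0x96abc)))) (a (u (nat_lit 8) (v (nat_lit 8) (k (nat_lit 0x96abc)))) (u (nat_lit 5) (v (nat_lit 7) (k (nat_lit 0xb2c5774)))))) (a (v (nat_lit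 3) (v (nat_lit 8) (k (nat_lit 0x1acfe404)))) (a (v (nat_lit 1) (v (nat_lit 9) (k (nat_lit 0x1acfe404)))) (v (nat_lit 0) (a (u (nat_lit 6) (k (nat_lit 0x130ef0))) (v (nat_lit 5) (k (nat_lit 0x2fea0718)))))))))))))))))))

open Fl.Tr in
/-- the table -/
noncomputable def T : Fl.Tr := (c (c (c (c (c (c (c (c (c (c (m (nat_lit 0x68cfd3a8)) (c (p (nat_lit 0x595d2404)) (c (p (nat_lit 0x3d25e494)) (c (m (nat_lit 0x2d7078ec)) (c (m (nat_lit 0x98ca0)) e))))) (c (c (p (nat_lit 0x595d2404)) (c (p (nat_lit 0x57a7f58)) (c (m (nat_lit 0xa88db28)) (c (m (nat_lit 0x9307ea8)) e)))) (c (c (p (nat_lit 0x3d25e494)) (c (m (nat_lit 0xa88db28)) (c (m (nat_lit 0x1260fd50)) e))) (c (c (m (nat_lit 0x2d7078ec)) (c (m (nat_lit 0x9307ea8)) e)) (c (c (m (nat_lit 0x98ca0)) e) e))))) (c (c (c (p (nat_lit 0xbb277d0)) (c (m (nat_lit 0x4cde08)) (c (p (nat_lit 0x430fe0)) (c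 (m (nat_lit 0x98ca0)) e)))) (c (c (m (nat_lit 0x4cde08)) (c (p (nat_lit 0x86f19c)) (c (m (nat_lit 0x1cbab0)) e))) (c (c (p (nat_lit 0x430fe0)) (c (m (nat_lit 0x1cbab0)) e)) (c (c (m (nat_lit 0x98ca0)) e) e)))) (c (c (c (m (nat_lit 0x7c9f7f4)) (c (p (nat_lit 0xb232c78)) (c (m (nat_lit 0x362d690)) e))) (c (c (p (nat_lit 0xb232c78)) (c (m (nat_lit 0x6c67284)) e)) (c (c (m (nat_lit 0x362d690)) e) e))) (c (c (c (p (nat_lit 0xac086c)) (c (m (nat_lit 0x99330)) e)) (c (c (m (nat_lit 0x99330)) e) e)) (c (c (c (m (nat_lit 0x262b60)) e) e) e))))) (c (c (c (c (p (nat_lit 0x79b37980)) (c (m (nat_lit 0xa419e718)) (c (p (nat_lit 0x2aa94430)) (c (m (nat_lit 0x131af0)) e)))) (c (c (m (nat_lit 0xa419e718)) (c (p (nat_lit 0x552c7470)) (c (m (nat_lit 0x1caa84)) e))) (c (c (p (nat_lit 0x2aa94430)) (c (m (nat_lit 0x1caa84)) e)) (c (c (m (nat_lit 0x131af0)) e)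 e)))) (c (c (c (m (nat_lit 0x2870820)) (c (p (nat_lit 0x2f9e3d4)) (c (m (nat_lit 0x131f4c)) e))) (c (c (p (nat_lit 0x2f9e3d4)) (c (m (nat_lit 0x2640d8)) e)) (c (c (m (nat_lit 0x131f4c)) e) e))) (c (c (c (m (nat_lit 0x130a34)) (c (m (nat_lit 0x1cb0f0)) e)) (c (c (m (nat_lit 0x1cb0f0)) e) e)) (c (c (c (m (nat_lit 0xb10)) e) e) e)))) (c (c (c (c (m (nat_lit 0x4ba1ad98)) (c (p (nat_lit 0x5ba7fd44)) (c (m (nat_lit 0xffcc018)) e))) (c (c (p (nat_lit 0x5ba7fd44)) (c (m (nat_lit 0x1ff98240)) e)) (c (c (m (nat_lit 0xffcc018)) e) e))) (c (c (c (p (nat_lit 0x12b4)) (c (m (nat_lit 0x98f64)) e)) (c (c (m (nat_lit 0x98f64)) e) e)) (c (c (c (m (nat_lit 0x131d78)) e) e) e))) (c (c (c (c (p (nat_lit 0x7297b0)) (c (m (nat_lit 0x98c94)) e)) (c (c (m (nat_lit 0x98c94)) e) e)) (c (c (c (m (nat_lit 0x131958)) e) e) e)) (c (c (c (c (m (nat_lit 0x131970)) e) e)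 e) e))))) (c (c (c (c (c (p (nat_lit 0x7ad41598)) (c (p (nat_lit 0x1b392ea4)) (c (m (nat_lit 0x79b09c24)) (c (p (nat_lit 0x2e91fb44)) e)))) (c (c (p (nat_lit 0x1b392ea4)) (c (m (nat_lit 0x9ab7530)) (c (p (nat_lit 0xdbda790)) e))) (c (c (m (nat_lit 0x79b09c24)) (c (p (nat_lit 0xdbda790)) e)) (c (c (p (nat_lit 0x2e91fb44)) e) e)))) (c (c (c (m (nat_lit 0x23ccbe0)) (c (m (nat_lit 0x902c784)) (c (m (nat_lit 0x99048)) e))) (c (c (m (nat_lit 0x902c784)) (c (m (nat_lit 0x2652c0)) e)) (c (c (m (nat_lit 0x99048)) e) e))) (c (c (c (p (nat_lit 0x92dd128)) (c (m (nat_lit 0x440d7d4)) e)) (c (c (m (nat_lit 0x440d7d4)) e) e)) (c (c (c (m (nat_lit 0x263670)) e) e) e)))) (c (c (c (c (m (nat_lit 0xb81e1958)) (c (p (nat_lit 0x73ea098c)) (c (m (nat_lit 0xab97218)) e))) (c (c (p (nat_lit 0x73ea098c)) (c (m (nat_lit 0x15860310)) e)) (c (c (m (nat_lit 0xab97218))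 e) e))) (c (c (c (p (nat_lit 0x4e976e0)) (c (m (nat_lit 0x133d34)) e)) (c (c (m (nat_lit 0x133d34)) e) e)) (c (c (c (m (nat_lit 0x214de98)) e) e) e))) (c (c (c (c (p (nat_lit 0x58002990)) (c (m (nat_lit 0x1c350798)) e)) (c (c (m (nat_lit 0x1c350798)) e) e)) (c (c (c (p (nat_lit 0x918)) e) e) e)) (c (c (c (c (m (nat_lit 0x131520)) e) e) e) e)))) (c (c (c (c (c (p (nat_lit 0x29a9fb10)) (c (m (nat_lit 0x58f35954)) (c (p (nat_lit 0x2e91fad8)) e))) (c (c (m (nat_lit 0x58f35954)) (c (m (nat_lit 0x17c07af8)) e)) (c (c (p (nat_lit 0x2e91fad8)) e) e))) (c (c (c (m (nat_lit 0x12658c38)) (c (p (nat_lit 0x95902a4)) e)) (c (c (p (nat_lit 0x95902a4)) e) e)) (c (c (c (m (nat_lit 0xf12870)) e) e) e))) (c (c (c (c (p (nat_lit 0x437406d8)) (c (m (nat_lit 0xf59c1fc)) e)) (c (c (m (nat_lit 0xf59c1fc)) e) e)) (c (c (c (m (nat_lit 0x264018)) e) e) e)) (c (c (c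 (c (m (nat_lit 0xc4b61b0)) e) e) e) e))) (c (c (c (c (c (m (nat_lit 0x4a836c98)) (c (p (nat_lit 0xedebc74)) e)) (c (c (p (nat_lit 0xedebc74)) e) e)) (c (c (c (p (nat_lit 0x94f6d58)) e) e) e)) (c (c (c (c (m (nat_lit 0x4a9dde0)) e) e) e) e)) (c (c (c (c (c (p (nat_lit 0xed52f98)) e) e) e) e) e))))) (c (c (c (c (c (c (p (nat_lit 0x24a4082c)) (c (m (nat_lit 0x270884c4)) (c (m (nat_lit 0xf0d7e8)) (c (p (nat_lit 0x3850788)) e)))) (c (c (m (nat_lit 0x5c9976c)) (c (p (nat_lit 0xbb1f064)) (c (p (nat_lit 0x713a450)) e))) (c (c (p (nat_lit 0x3ab1740c)) (c (m (nat_lit 0x3344700)) e)) (c (c (m (nat_lit 0x6c2f7e4)) e) e)))) (c (c (c (m (nat_lit 0xf78)) (c (p (nat_lit 0x264d80)) (c (m (nat_lit 0x98e80)) e))) (c (c (p (nat_lit 0x26505c)) (c (m (nat_lit 0x9918c)) e)) (c (c (m (nat_lit 0x98e2c)) e) e))) (c (c (c (p (nat_lit 0x7a0a3c)) (c (m (nat_lit 0x1328f4))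 e)) (c (c (m (nat_lit 0x1328e8)) e) e)) (c (c (c (m (nat_lit 0x98e98)) e) e) e)))) (c (c (c (c (p (nat_lit 0xafbc450)) (c (p (nat_lit 0x860481c)) (c (m (nat_lit 0x1cb4b0)) e))) (c (c (p (nat_lit 0x869c220)) (c (m (nat_lit 0x98df0)) e)) (c (c (m (nat_lit 0x98d00)) e) e))) (c (c (c (p (nat_lit 0x1603cbc)) (c (m (nat_lit 0x1735e3c)) e)) (c (c (m (nat_lit 0x1735e84)) e) e)) (c (c (c (m (nat_lit 0x98718)) e) e) e))) (c (c (c (c (p (nat_lit 0x2649f0)) (c (m (nat_lit 0x98e8c)) e)) (c (c (m (nat_lit 0x98acc)) e) e)) (c (c (c (m (nat_lit 0x98ec8)) e) e) e)) (c (c (c (c (m (nat_lit 0x98670)) e) e) e) e)))) (c (c (c (c (c (m (nat_lit 0x437e4448)) (c (p (nat_lit 0x22483458)) (c (p (nat_lit 0x2b4c0b8)) e))) (c (c (p (nat_lit 0xded4988)) (c (m (nat_lit 0x1aa21a8)) e)) (c (c (m (nat_lit 0xb2c7be0)) e) e))) (c (c (c (p (nat_lit 0x2fdd50)) (c (m (nat_lit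 0x99174)) e)) (c (c (m (nat_lit 0x991c8)) e) e)) (c (c (c (m (nat_lit 0x1cbc24)) e) e) e))) (c (c (c (c (p (nat_lit 0x10ca06f4)) (c (m (nat_lit 0x87ceb14)) e)) (c (c (m (nat_lit 0x87ceb08)) e) e)) (c (c (c (m (nat_lit 0x17d4e90)) e) e) e)) (c (c (c (c (m (nat_lit 0x98dd8)) e) e) e) e))) (c (c (c (c (c (p (nat_lit 0x237be6e0)) (c (m (nat_lit 0x538bf84)) e)) (c (c (m (nat_lit 0x8c75838)) e) e)) (c (c (c (m (nat_lit 0x98cd0)) e) e) e)) (c (c (c (c (m (nat_lit 0x87ce79c)) e) e) e) e)) (c (c (c (c (c (m (nat_lit 0x4687380)) e) e) e) e) e)))) (c (c (c (c (c (c (p (nat_lit 0x2f8adc)) (c (m (nat_lit 0x94df4)) (c (m (nat_lit 0x98f04)) e))) (c (c (m (nat_lit 0x94b84)) (c (m (nat_lit 0x9915c)) e)) (c (c (m (nat_lit 0x1198ea08)) e) e))) (c (c (c (p (nat_lit 0x2fd270)) (c (m (nat_lit 0x98f34)) e)) (c (c (m (nat_lit 0x98fa0)) e) e)) (c (c (c (m (nat_lit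 0x134730)) e) e) e))) (c (c (c (c (p (nat_lit 0x9816c)) (c (m (nat_lit 0x98e98)) e)) (c (c (m (nat_lit 0x98df0)) e) e)) (c (c (c (m (nat_lit 0x98e14)) e) e) e)) (c (c (c (c (m (nat_lit 0x1333b0)) e) e) e) e))) (c (c (c (c (c (p (nat_lit 0x3d38)) (c (m (nat_lit 0x132138)) e)) (c (c (m (nat_lit 0x132204)) e) e)) (c (c (c (m (nat_lit 0x992e8)) e) e) e)) (c (c (c (c (m (nat_lit 0x9894c)) e) e) e) e)) (c (c (c (c (c (m (nat_lit 0x131ebc)) e) e) e) e) e))) (c (c (c (c (c (c (p (nat_lit 0x39696c)) (c (p (nat_lit 0x970bc)) e)) (c (c (p (nat_lit 0x96eac)) e) e)) (c (c (c (p (nat_lit 0x3d8)) e) e) e)) (c (c (c (c (m (nat_lit 0x986ac)) e) e) e) e)) (c (c (c (c (c (p (nat_lit 0x96ec4)) e) e) e) e) e)) (c (c (c (c (c (c (m (nat_lit 0x98e08)) e) e) e) e) e) e))))) (c (c (c (c (c (c (c (p (nat_lit 0x3bb569c0)) (c (p (nat_lit 0x1aae01e4)) (c (p (nat_lit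 0x2478e4)) (c (p (nat_lit 0xe76c)) e)))) (c (c (p (nat_lit 0x19186128)) (c (p (nat_lit 0x130c617c)) (c (m (nat_lit 0x99264)) e))) (c (c (m (nat_lit 0x62ac0c)) (c (m (nat_lit 0x98e98)) e)) (c (c (p (nat_lit 0xd76544)) e) e)))) (c (c (c (p (nat_lit 0xb8cdf88)) (c (p (nat_lit 0x264c48)) (c (m (nat_lit 0x98f10)) e))) (c (c (p (nat_lit 0x9ac44)) (c (m (nat_lit 0x99108)) e)) (c (c (m (nat_lit 0x98ee0)) e) e))) (c (c (c (m (nat_lit 0xb65fdf4)) (c (m (nat_lit 0x98ec8)) e)) (c (c (m (nat_lit 0x98fac)) e) e)) (c (c (c (m (nat_lit 0x9915c)) e) e) e)))) (c (c (c (c (m (nat_lit 0x437b0e3c)) (c (m (nat_lit 0xda05e18)) (c (m (nat_lit 0x131f64)) e))) (c (c (p (nat_lit 0x2ffa78)) (c (m (nat_lit 0x99600)) e)) (c (c (m (nat_lit 0x13413c)) e) e))) (c (c (c (p (nat_lit 0x263400)) (c (m (nat_lit 0x98f64)) e)) (c (c (m (nat_lit 0x98f58)) e) e)) (c (c (c (m (nat_lit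 0x180)) e) e) e))) (c (c (c (c (p (nat_lit 0x2692a9a0)) (c (m (nat_lit 0x766d058)) e)) (c (c (m (nat_lit 0xe3bd5bc)) e) e)) (c (c (c (m (nat_lit 0x99204)) e) e) e)) (c (c (c (c (m (nat_lit 0x98fa0)) e) e) e) e)))) (c (c (c (c (c (m (nat_lit 0x13c562a0)) (c (m (nat_lit 0x5dc40c8)) (c (m (nat_lit 0x99630)) e))) (c (c (m (nat_lit 0x3696450)) (c (m (nat_lit 0x22eeca0)) e)) (c (c (m (nat_lit 0x142b4ec)) e) e))) (c (c (c (p (nat_lit 0x9817ec0)) (c (m (nat_lit 0x132d8c)) e)) (c (c (m (nat_lit 0x9a470)) e) e)) (c (c (c (m (nat_lit 0x98f64)) e) e) e))) (c (c (c (c (p (nat_lit 0x2b4a54fc)) (c (m (nat_lit 0x132924)) e)) (c (c (m (nat_lit 0x1325e8)) e) e)) (c (c (c (p (nat_lit 0x99e58)) e) e) e)) (c (c (c (c (m (nat_lit 0x267f8538)) e) e) e) e))) (c (c (c (c (c (m (nat_lit 0x1e30f36c)) (c (p (nat_lit 0x745704c)) e)) (c (c (p (nat_lit 0x6026cb8)) e)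 e)) (c (c (c (m (nat_lit 0x98b3f98)) e) e) e)) (c (c (c (c (p (nat_lit 0x1843da84)) e) e) e) e)) (c (c (c (c (c (m (nat_lit 0x9692a18)) e) e) e) e) e)))) (c (c (c (c (c (c (p (nat_lit 0x1803ea00)) (c (p (nat_lit 0x1ce7f8)) (c (m (nat_lit 0x98e5c)) e))) (c (c (m (nat_lit 0x1f371588)) (c (m (nat_lit 0x99060)) e)) (c (c (p (nat_lit 0x10b42c)) e) e))) (c (c (c (p (nat_lit 0x1325c4)) (c (m (nat_lit 0x99330)) e)) (c (c (m (nat_lit 0x993fc)) e) e)) (c (c (c (m (nat_lit 0x99138)) e) e) e))) (c (c (c (c (m (nat_lit 0x63bc364)) (c (m (nat_lit 0x21c)) e)) (c (c (p (nat_lit 0x6621ae0)) e) e)) (c (c (c (m (nat_lit 0x98ee0)) e) e) e)) (c (c (c (c (m (nat_lit 0x132060)) e) e) e) e))) (c (c (c (c (c (p (nat_lit 0xba8fa48)) (c (m (nat_lit 0x132600)) e)) (c (c (m (nat_lit 0x132690)) e) e)) (c (c (c (m (nat_lit 0x99234)) e) e) e)) (c (c (c (c (m (nat_lit 0x438))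 e) e) e) e)) (c (c (c (c (c (m (nat_lit 0x13239c)) e) e) e) e) e))) (c (c (c (c (c (c (p (nat_lit 0x1303d4)) (c (m (nat_lit 0x98f70)) e)) (c (c (p (nat_lit 0x3048)) e) e)) (c (c (c (m (nat_lit 0x993c0)) e) e) e)) (c (c (c (c (m (nat_lit 0x99078)) e) e) e) e)) (c (c (c (c (c (m (nat_lit 0x98c10)) e) e) e) e) e)) (c (c (c (c (c (c (m (nat_lit 0x98d24)) e) e) e) e) e) e)))) (c (c (c (c (c (c (c (m (nat_lit 0x1f6974c)) (c (p (nat_lit 0x13245c)) (c (m (nat_lit 0x9921c)) e))) (c (c (p (nat_lit 0x263dfc)) (c (m (nat_lit 0x1d10)) e)) (c (c (m (nat_lit 0x4c8)) e) e))) (c (c (c (m (nat_lit 0xb66349c)) (c (m (nat_lit 0x9924c)) e)) (c (c (m (nat_lit 0x19bc)) e) e)) (c (c (c (p (nat_lit 0xb6f95c8)) e) e) e))) (c (c (c (c (p (nat_lit 0x243123c)) (c (m (nat_lit 0x98e2c)) e)) (c (c (m (nat_lit 0x98ed4)) e) e)) (c (c (c (m (nat_lit 0x98f10)) e) e) e)) (c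 (c (c (c (m (nat_lit 0x98e74)) e) e) e) e))) (c (c (c (c (c (p (nat_lit 0x213438c)) (c (m (nat_lit 0x99378)) e)) (c (c (m (nat_lit 0xd08)) e) e)) (c (c (c (p (nat_lit 0x23d0)) e) e) e)) (c (c (c (c (m (nat_lit 0x209b620)) e) e) e) e)) (c (c (c (c (c (m (nat_lit 0x98dc0)) e) e) e) e) e))) (c (c (c (c (c (c (p (nat_lit 0x56a840)) (c (m (nat_lit 0x9b094)) e)) (c (c (p (nat_lit 0x21c)) e) e)) (c (c (c (m (nat_lit 0x991e0)) e) e) e)) (c (c (c (c (m (nat_lit 0x99084)) e) e) e) e)) (c (c (c (c (c (m (nat_lit 0x9f168)) e) e) e) e) e)) (c (c (c (c (c (c (m (nat_lit 0x9b25c)) e) e) e) e) e) e))) (c (c (c (c (c (c (c (p (nat_lit 0x992b8)) (c (m (nat_lit 0x498)) e)) (c (c (m (nat_lit 0x131d3c)) e) e)) (c (c (c (m (nat_lit 0x131d84)) e) e) e)) (c (c (c (c (m (nat_lit 0x99018)) e) e) e) e)) (c (c (c (c (c (m (nat_lit 0x9903c)) e) e) e) e) e)) (c (c (c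 (c (c (c (m (nat_lit 0x99528)) e) e) e) e) e) e)) (c (c (c (c (c (c (c (m (nat_lit 0x2e8)) e) e) e) e) e) e) e))))) (c (c (c (c (c (c (c (c (p (nat_lit 0x24a4082c)) (c (m (nat_lit 0x5c9976c)) (c (p (nat_lit 0x3ab1740c)) (c (m (nat_lit 0x6c2f7e4)) e)))) (c (c (m (nat_lit 0x270884c4)) (c (p (nat_lit 0xbb1f064)) (c (m (nat_lit 0x3344700)) e))) (c (c (m (nat_lit 0xf0d7e8)) (c (p (nat_lit 0x713a450)) e)) (c (c (p (nat_lit 0x3850788)) e) e)))) (c (c (c (m (nat_lit 0xf78)) (c (p (nat_lit 0x26505c)) (c (m (nat_lit 0x98e2c)) e))) (c (c (p (nat_lit 0x264d80)) (c (m (nat_lit 0x9918c)) e)) (c (c (m (nat_lit 0x98e80)) e) e))) (c (c (c (p (nat_lit 0x7a0a3c)) (c (m (nat_lit 0x1328e8)) e)) (c (c (m (nat_lit 0x1328f4)) e) e)) (c (c (c (m (nat_lit 0x98e98)) e) e) e)))) (c (c (c (c (p (nat_lit 0xafbc450)) (c (p (nat_lit 0x869c220)) (c (m (nat_lit 0x98d00))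 e))) (c (c (p (nat_lit 0x860481c)) (c (m (nat_lit 0x98df0)) e)) (c (c (m (nat_lit 0x1cb4b0)) e) e))) (c (c (c (p (nat_lit 0x1603cbc)) (c (m (nat_lit 0x1735e84)) e)) (c (c (m (nat_lit 0x1735e3c)) e) e)) (c (c (c (m (nat_lit 0x98718)) e) e) e))) (c (c (c (c (p (nat_lit 0x2649f0)) (c (m (nat_lit 0x98acc)) e)) (c (c (m (nat_lit 0x98e8c)) e) e)) (c (c (c (m (nat_lit 0x98ec8)) e) e) e)) (c (c (c (c (m (nat_lit 0x98670)) e) e) e) e)))) (c (c (c (c (c (m (nat_lit 0x437e4448)) (c (p (nat_lit 0xded4988)) (c (m (nat_lit 0xb2c7be0)) e))) (c (c (p (nat_lit 0x22483458)) (c (m (nat_lit 0x1aa21a8)) e)) (c (c (p (nat_lit 0x2b4c0b8)) e) e))) (c (c (c (p (nat_lit 0x2fdd50)) (c (m (nat_lit 0x991c8)) e)) (c (c (m (nat_lit 0x99174)) e) e)) (c (c (c (m (nat_lit 0x1cbc24)) e) e) e))) (c (c (c (c (p (nat_lit 0x10ca06f4)) (c (m (nat_lit 0x87ceb08)) e)) (c (c (m (nat_lit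 0x87ceb14)) e) e)) (c (c (c (m (nat_lit 0x17d4e90)) e) e) e)) (c (c (c (c (m (nat_lit 0x98dd8)) e) e) e) e))) (c (c (c (c (c (p (nat_lit 0x237be6e0)) (c (m (nat_lit 0x8c75838)) e)) (c (c (m (nat_lit 0x538bf84)) e) e)) (c (c (c (m (nat_lit 0x98cd0)) e) e) e)) (c (c (c (c (m (nat_lit 0x87ce79c)) e) e) e) e)) (c (c (c (c (c (m (nat_lit 0x4687380)) e) e) e) e) e)))) (c (c (c (c (c (c (m (nat_lit 0x36d18830)) (c (p (nat_lit 0x9d75ff8)) (c (m (nat_lit 0x15c51708)) e))) (c (c (p (nat_lit 0x9d75ff8)) (c (m (nat_lit 0xf04f350)) e)) (c (c (m (nat_lit 0x15c51708)) e) e))) (c (c (c (p (nat_lit 0x731c58)) (c (m (nat_lit 0x268ae8)) e)) (c (c (m (nat_lit 0x268ae8)) e) e)) (c (c (c (m (nat_lit 0x131ff4)) e) e) e))) (c (c (c (c (m (nat_lit 0x4d366d0c)) (c (m (nat_lit 0x98e2c)) e)) (c (c (m (nat_lit 0x98e2c)) e) e)) (c (c (c (m (nat_lit 0x131c1c)) e) e) e))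 (c (c (c (c (m (nat_lit 0x264024)) e) e) e) e))) (c (c (c (c (c (p (nat_lit 0x50bcf050)) (c (p (nat_lit 0x14949d8)) e)) (c (c (p (nat_lit 0x14949d8)) e) e)) (c (c (c (m (nat_lit 0x39b040)) e) e) e)) (c (c (c (c (m (nat_lit 0x1316a0)) e) e) e) e)) (c (c (c (c (c (m (nat_lit 0x198be320)) e) e) e) e) e))) (c (c (c (c (c (c (p (nat_lit 0x7597740)) (c (p (nat_lit 0x1fbeaa8)) e)) (c (c (m (nat_lit 0x73cd010)) e) e)) (c (c (c (m (nat_lit 0x993fc)) e) e) e)) (c (c (c (c (p (nat_lit 0x1348d4a8)) e) e) e) e)) (c (c (c (c (c (m (nat_lit 0x73ccdf4)) e) e) e) e) e)) (c (c (c (c (c (c (m (nat_lit 0x98e2c)) e) e) e) e) e) e)))) (c (c (c (c (c (c (c (p (nat_lit 0x3557ece0)) (c (m (nat_lit 0xe2062f0)) (c (m (nat_lit 0x99504)) e))) (c (c (p (nat_lit 0x9c1e72c)) (c (m (nat_lit 0x9ae71a0)) e)) (c (c (m (nat_lit 0x9930c)) e) e))) (c (c (c (p (nat_lit 0x245dabc))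 (c (m (nat_lit 0x132990)) e)) (c (c (m (nat_lit 0x132e70)) e) e)) (c (c (c (m (nat_lit 0x1324b0)) e) e) e))) (c (c (c (c (m (nat_lit 0xb16be14)) (c (m (nat_lit 0x99948)) e)) (c (c (m (nat_lit 0x99588)) e) e)) (c (c (c (m (nat_lit 0x99ac8)) e) e) e)) (c (c (c (c (m (nat_lit 0x98f4c)) e) e) e) e))) (c (c (c (c (c (p (nat_lit 0x137b50)) (c (m (nat_lit 0x26d0)) e)) (c (c (m (nat_lit 0x1104)) e) e)) (c (c (c (m (nat_lit 0x245e548)) e) e) e)) (c (c (c (c (m (nat_lit 0x1ceeac)) e) e) e) e)) (c (c (c (c (c (m (nat_lit 0x9bfc4)) e) e) e) e) e))) (c (c (c (c (c (c (m (nat_lit 0x1e60f444)) (c (p (nat_lit 0xa3b3894)) e)) (c (c (p (nat_lit 0xa184f70)) e) e)) (c (c (c (m (nat_lit 0x132e94)) e) e) e)) (c (c (c (c (p (nat_lit 0xadf6190)) e) e) e) e)) (c (c (c (c (c (m (nat_lit 0x10b939c)) e) e) e) e) e)) (c (c (c (c (c (c (m (nat_lit 0x1cace8)) e) e) e)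 e) e) e))) (c (c (c (c (c (c (c (p (nat_lit 0x329c3e8)) (c (p (nat_lit 0xe28)) e)) (c (c (m (nat_lit 0x98ef8)) e) e)) (c (c (c (m (nat_lit 0x99b88)) e) e) e)) (c (c (c (c (p (nat_lit 0x72c)) e) e) e) e)) (c (c (c (c (c (m (nat_lit 0x98fdc)) e) e) e) e) e)) (c (c (c (c (c (c (m (nat_lit 0x995f4)) e) e) e) e) e) e)) (c (c (c (c (c (c (c (m (nat_lit 0xb4c)) e) e) e) e) e) e) e)))) (c (c (c (c (c (c (c (c (p (nat_lit 0x2f8adc)) (c (m (nat_lit 0x94b84)) (c (m (nat_lit 0x1198ea08)) e))) (c (c (m (nat_lit 0x94df4)) (c (m (nat_lit 0x9915c)) e)) (c (c (m (nat_lit 0x98f04)) e) e))) (c (c (c (p (nat_lit 0x2fd270)) (c (m (nat_lit 0x98fa0)) e)) (c (c (m (nat_lit 0x98f34)) e) e)) (c (c (c (m (nat_lit 0x134730)) e) e) e))) (c (c (c (c (p (nat_lit 0x9816c)) (c (m (nat_lit 0x98df0)) e)) (c (c (m (nat_lit 0x98e98)) e) e)) (c (c (c (m (nat_lit 0x98e14)) e)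 e) e)) (c (c (c (c (m (nat_lit 0x1333b0)) e) e) e) e))) (c (c (c (c (c (p (nat_lit 0x3d38)) (c (m (nat_lit 0x132204)) e)) (c (c (m (nat_lit 0x132138)) e) e)) (c (c (c (m (nat_lit 0x992e8)) e) e) e)) (c (c (c (c (m (nat_lit 0x9894c)) e) e) e) e)) (c (c (c (c (c (m (nat_lit 0x131ebc)) e) e) e) e) e))) (c (c (c (c (c (c (p (nat_lit 0x7597740)) (c (m (nat_lit 0x73cd010)) e)) (c (c (p (nat_lit 0x1fbeaa8)) e) e)) (c (c (c (m (nat_lit 0x993fc)) e) e) e)) (c (c (c (c (p (nat_lit 0x1348d4a8)) e) e) e) e)) (c (c (c (c (c (m (nat_lit 0x73ccdf4)) e) e) e) e) e)) (c (c (c (c (c (c (m (nat_lit 0x131d00)) e) e) e) e) e) e))) (c (c (c (c (c (c (c (m (nat_lit 0x1f3c9068)) (c (p (nat_lit 0x3bec2c0)) e)) (c (c (m (nat_lit 0x1371b4)) e) e)) (c (c (c (m (nat_lit 0x98538)) e) e) e)) (c (c (c (c (m (nat_lit 0x9f0)) e) e) e) e)) (c (c (c (c (c (m (nat_lit 0x99f0c))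 e) e) e) e) e)) (c (c (c (c (c (c (m (nat_lit 0x132d98)) e) e) e) e) e) e)) (c (c (c (c (c (c (c (m (nat_lit 0x99b88)) e) e) e) e) e) e) e))) (c (c (c (c (c (c (c (c (p (nat_lit 0x39696c)) (c (p (nat_lit 0x96eac)) e)) (c (c (p (nat_lit 0x970bc)) e) e)) (c (c (c (p (nat_lit 0x3d8)) e) e) e)) (c (c (c (c (m (nat_lit 0x986ac)) e) e) e) e)) (c (c (c (c (c (p (nat_lit 0x96ec4)) e) e) e) e) e)) (c (c (c (c (c (c (m (nat_lit 0x98e2c)) e) e) e) e) e) e)) (c (c (c (c (c (c (c (m (nat_lit 0x1c6f44)) e) e) e) e) e) e) e)) (c (c (c (c (c (c (c (c (m (nat_lit 0x98e08)) e) e) e) e) e) e) e) e))))) (c (c (c (c (c (c (c (c (c (p (nat_lit 0x3bb569c0)) (c (p (nat_lit 0x19186128)) (c (m (nat_lit 0x62ac0c)) (c (p (nat_lit 0xd76544)) e)))) (c (c (p (nat_lit 0x1aae01e4)) (c (p (nat_lit 0x130c617c)) (c (m (nat_lit 0x98e98)) e))) (c (c (p (nat_lit 0x2478e4)) (c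 (m (nat_lit 0x99264)) e)) (c (c (p (nat_lit 0xe76c)) e) e)))) (c (c (c (p (nat_lit 0xb8cdf88)) (c (p (nat_lit 0x9ac44)) (c (m (nat_lit 0x98ee0)) e))) (c (c (p (nat_lit 0x264c48)) (c (m (nat_lit 0x99108)) e)) (c (c (m (nat_lit 0x98f10)) e) e))) (c (c (c (m (nat_lit 0xb65fdf4)) (c (m (nat_lit 0x98fac)) e)) (c (c (m (nat_lit 0x98ec8)) e) e)) (c (c (c (m (nat_lit 0x9915c)) e) e) e)))) (c (c (c (c (m (nat_lit 0x437b0e3c)) (c (p (nat_lit 0x2ffa78)) (c (m (nat_lit 0x13413c)) e))) (c (c (m (nat_lit 0xda05e18)) (c (m (nat_lit 0x99600)) e)) (c (c (m (nat_lit 0x131f64)) e) e))) (c (c (c (p (nat_lit 0x263400)) (c (m (nat_lit 0x98f58)) e)) (c (c (m (nat_lit 0x98f64)) e) e)) (c (c (c (m (nat_lit 0x180)) e) e) e))) (c (c (c (c (p (nat_lit 0x2692a9a0)) (c (m (nat_lit 0xe3bd5bc)) e)) (c (c (m (nat_lit 0x766d058)) e) e)) (c (c (c (m (nat_lit 0x99204)) e)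 e) e)) (c (c (c (c (m (nat_lit 0x98fa0)) e) e) e) e)))) (c (c (c (c (c (m (nat_lit 0x13c562a0)) (c (m (nat_lit 0x3696450)) (c (m (nat_lit 0x142b4ec)) e))) (c (c (m (nat_lit 0x5dc40c8)) (c (m (nat_lit 0x22eeca0)) e)) (c (c (m (nat_lit 0x99630)) e) e))) (c (c (c (p (nat_lit 0x9817ec0)) (c (m (nat_lit 0x9a470)) e)) (c (c (m (nat_lit 0x132d8c)) e) e)) (c (c (c (m (nat_lit 0x98f64)) e) e) e))) (c (c (c (c (p (nat_lit 0x2b4a54fc)) (c (m (nat_lit 0x1325e8)) e)) (c (c (m (nat_lit 0x132924)) e) e)) (c (c (c (p (nat_lit 0x99e58)) e) e) e)) (c (c (c (c (m (nat_lit 0x267f8538)) e) e) e) e))) (c (c (c (c (c (m (nat_lit 0x1e30f36c)) (c (p (nat_lit 0x6026cb8)) e)) (c (c (p (nat_lit 0x745704c)) e) e)) (c (c (c (m (nat_lit 0x98b3f98)) e) e) e)) (c (c (c (c (p (nat_lit 0x1843da84)) e) e) e) e)) (c (c (c (c (c (m (nat_lit 0x9692a18)) e) e) e) e) e)))) (c (c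 (c (c (c (c (p (nat_lit 0x3557ece0)) (c (p (nat_lit 0x9c1e72c)) (c (m (nat_lit 0x9930c)) e))) (c (c (m (nat_lit 0xe2062f0)) (c (m (nat_lit 0x9ae71a0)) e)) (c (c (m (nat_lit 0x99504)) e) e))) (c (c (c (p (nat_lit 0x245dabc)) (c (m (nat_lit 0x132e70)) e)) (c (c (m (nat_lit 0x132990)) e) e)) (c (c (c (m (nat_lit 0x1324b0)) e) e) e))) (c (c (c (c (m (nat_lit 0xb16be14)) (c (m (nat_lit 0x99588)) e)) (c (c (m (nat_lit 0x99948)) e) e)) (c (c (c (m (nat_lit 0x99ac8)) e) e) e)) (c (c (c (c (m (nat_lit 0x98f4c)) e) e) e) e))) (c (c (c (c (c (p (nat_lit 0x137b50)) (c (m (nat_lit 0x1104)) e)) (c (c (m (nat_lit 0x26d0)) e) e)) (c (c (c (m (nat_lit 0x245e548)) e) e) e)) (c (c (c (c (m (nat_lit 0x1ceeac)) e) e) e) e)) (c (c (c (c (c (m (nat_lit 0x9bfc4)) e) e) e) e) e))) (c (c (c (c (c (c (m (nat_lit 0x1f3c9068)) (c (m (nat_lit 0x1371b4)) e)) (c (c (p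 (nat_lit 0x3bec2c0)) e) e)) (c (c (c (m (nat_lit 0x98538)) e) e) e)) (c (c (c (c (m (nat_lit 0x9f0)) e) e) e) e)) (c (c (c (c (c (m (nat_lit 0x99f0c)) e) e) e) e) e)) (c (c (c (c (c (c (m (nat_lit 0x1c6f44)) e) e) e) e) e) e)))) (c (c (c (c (c (c (c (m (nat_lit 0x3cee7748)) (c (m (nat_lit 0x29e960d4)) (c (m (nat_lit 0x96240)) e))) (c (c (m (nat_lit 0x29e960d4)) (c (m (nat_lit 0x21946290)) e)) (c (c (m (nat_lit 0x96240)) e) e))) (c (c (c (m (nat_lit 0xc750)) (c (m (nat_lit 0x99048)) e)) (c (c (m (nat_lit 0x99048)) e) e)) (c (c (c (m (nat_lit 0x3de0)) e) e) e))) (c (c (c (c (p (nat_lit 0x11c9670c)) (c (m (nat_lit 0x995e8)) e)) (c (c (m (nat_lit 0x995e8)) e) e)) (c (c (c (m (nat_lit 0x1325b8)) e) e) e)) (c (c (c (c (m (nat_lit 0x131d0c)) e) e) e) e))) (c (c (c (c (c (p (nat_lit 0x294f4950)) (c (m (nat_lit 0x135cb4)) e)) (c (c (m (nat_lit 0x135cb4))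 e) e)) (c (c (c (m (nat_lit 0x137b50)) e) e) e)) (c (c (c (c (m (nat_lit 0x11c95ff8)) e) e) e) e)) (c (c (c (c (c (p (nat_lit 0x12ba34b0)) e) e) e) e) e))) (c (c (c (c (c (c (p (nat_lit 0x87333b4)) (c (m (nat_lit 0x132900)) e)) (c (c (m (nat_lit 0x132b28)) e) e)) (c (c (c (m (nat_lit 0x828)) e) e) e)) (c (c (c (c (m (nat_lit 0x9a260)) e) e) e) e)) (c (c (c (c (c (m (nat_lit 0xba91bfc)) e) e) e) e) e)) (c (c (c (c (c (c (m (nat_lit 0x9ba00)) e) e) e) e) e) e))) (c (c (c (c (c (c (c (p (nat_lit 0x6e69604)) (c (m (nat_lit 0x131ce8)) e)) (c (c (p (nat_lit 0x15114f18)) e) e)) (c (c (c (p (nat_lit 0x603c)) e) e) e)) (c (c (c (c (m (nat_lit 0x468)) e) e) e) e)) (c (c (c (c (c (m (nat_lit 0x62797e0)) e) e) e) e) e)) (c (c (c (c (c (c (m (nat_lit 0x2fda14)) e) e) e) e) e) e)) (c (c (c (c (c (c (c (m (nat_lit 0x262e00)) e) e) e) e) e) e) e)))) (c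 (c (c (c (c (c (c (c (p (nat_lit 0x1803ea00)) (c (m (nat_lit 0x1f371588)) (c (p (nat_lit 0x10b42c)) e))) (c (c (p (nat_lit 0x1ce7f8)) (c (m (nat_lit 0x99060)) e)) (c (c (m (nat_lit 0x98e5c)) e) e))) (c (c (c (p (nat_lit 0x1325c4)) (c (m (nat_lit 0x993fc)) e)) (c (c (m (nat_lit 0x99330)) e) e)) (c (c (c (m (nat_lit 0x99138)) e) e) e))) (c (c (c (c (m (nat_lit 0x63bc364)) (c (p (nat_lit 0x6621ae0)) e)) (c (c (m (nat_lit 0x21c)) e) e)) (c (c (c (m (nat_lit 0x98ee0)) e) e) e)) (c (c (c (c (m (nat_lit 0x132060)) e) e) e) e))) (c (c (c (c (c (p (nat_lit 0xba8fa48)) (c (m (nat_lit 0x132690)) e)) (c (c (m (nat_lit 0x132600)) e) e)) (c (c (c (m (nat_lit 0x99234)) e) e) e)) (c (c (c (c (m (nat_lit 0x438)) e) e) e) e)) (c (c (c (c (c (m (nat_lit 0x13239c)) e) e) e) e) e))) (c (c (c (c (c (c (m (nat_lit 0x1e60f444)) (c (p (nat_lit 0xa184f70)) e)) (c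 (c (p (nat_lit 0xa3b3894)) e) e)) (c (c (c (m (nat_lit 0x132e94)) e) e) e)) (c (c (c (c (p (nat_lit 0xadf6190)) e) e) e) e)) (c (c (c (c (c (m (nat_lit 0x10b939c)) e) e) e) e) e)) (c (c (c (c (c (c (m (nat_lit 0x132d98)) e) e) e) e) e) e))) (c (c (c (c (c (c (c (p (nat_lit 0x87333b4)) (c (m (nat_lit 0x132b28)) e)) (c (c (m (nat_lit 0x132900)) e) e)) (c (c (c (m (nat_lit 0x828)) e) e) e)) (c (c (c (c (m (nat_lit 0x9a260)) e) e) e) e)) (c (c (c (c (c (m (nat_lit 0xba91bfc)) e) e) e) e) e)) (c (c (c (c (c (c (m (nat_lit 0x10845b70)) e) e) e) e) e) e)) (c (c (c (c (c (c (c (m (nat_lit 0x32a8eec)) e) e) e) e) e) e) e))) (c (c (c (c (c (c (c (c (p (nat_lit 0x1303d4)) (c (p (nat_lit 0x3048)) e)) (c (c (m (nat_lit 0x98f70)) e) e)) (c (c (c (m (nat_lit 0x993c0)) e) e) e)) (c (c (c (c (m (nat_lit 0x99078)) e) e) e) e)) (c (c (c (c (c (m (nat_lit 0x98c10))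 e) e) e) e) e)) (c (c (c (c (c (c (m (nat_lit 0x1cace8)) e) e) e) e) e) e)) (c (c (c (c (c (c (c (m (nat_lit 0x9ba00)) e) e) e) e) e) e) e)) (c (c (c (c (c (c (c (c (m (nat_lit 0x98d24)) e) e) e) e) e) e) e) e)))) (c (c (c (c (c (c (c (c (c (m (nat_lit 0x1f6974c)) (c (p (nat_lit 0x263dfc)) (c (m (nat_lit 0x4c8)) e))) (c (c (p (nat_lit 0x13245c)) (c (m (nat_lit 0x1d10)) e)) (c (c (m (nat_lit 0x9921c)) e) e))) (c (c (c (m (nat_lit 0xb66349c)) (c (m (nat_lit 0x19bc)) e)) (c (c (m (nat_lit 0x9924c)) e) e)) (c (c (c (p (nat_lit 0xb6f95c8)) e) e) e))) (c (c (c (c (p (nat_lit 0x243123c)) (c (m (nat_lit 0x98ed4)) e)) (c (c (m (nat_lit 0x98e2c)) e) e)) (c (c (c (m (nat_lit 0x98f10)) e) e) e)) (c (c (c (c (m (nat_lit 0x98e74)) e) e) e) e))) (c (c (c (c (c (p (nat_lit 0x213438c)) (c (m (nat_lit 0xd08)) e)) (c (c (m (nat_lit 0x99378)) e) e)) (c (c (c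 (p (nat_lit 0x23d0)) e) e) e)) (c (c (c (c (m (nat_lit 0x209b620)) e) e) e) e)) (c (c (c (c (c (m (nat_lit 0x98dc0)) e) e) e) e) e))) (c (c (c (c (c (c (p (nat_lit 0x329c3e8)) (c (m (nat_lit 0x98ef8)) e)) (c (c (p (nat_lit 0xe28)) e) e)) (c (c (c (m (nat_lit 0x99b88)) e) e) e)) (c (c (c (c (p (nat_lit 0x72c)) e) e) e) e)) (c (c (c (c (c (m (nat_lit 0x98fdc)) e) e) e) e) e)) (c (c (c (c (c (c (m (nat_lit 0x99b88)) e) e) e) e) e) e))) (c (c (c (c (c (c (c (p (nat_lit 0x6e69604)) (c (p (nat_lit 0x15114f18)) e)) (c (c (m (nat_lit 0x131ce8)) e) e)) (c (c (c (p (nat_lit 0x603c)) e) e) e)) (c (c (c (c (m (nat_lit 0x468)) e) e) e) e)) (c (c (c (c (c (m (nat_lit 0x62797e0)) e) e) e) e) e)) (c (c (c (c (c (c (m (nat_lit 0x32a8eec)) e) e) e) e) e) e)) (c (c (c (c (c (c (c (m (nat_lit 0x264780)) e) e) e) e) e) e) e))) (c (c (c (c (c (c (c (c (p (nat_lit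 0x56a840)) (c (p (nat_lit 0x21c)) e)) (c (c (m (nat_lit 0x9b094)) e) e)) (c (c (c (m (nat_lit 0x991e0)) e) e) e)) (c (c (c (c (m (nat_lit 0x99084)) e) e) e) e)) (c (c (c (c (c (m (nat_lit 0x9f168)) e) e) e) e) e)) (c (c (c (c (c (c (m (nat_lit 0x995f4)) e) e) e) e) e) e)) (c (c (c (c (c (c (c (m (nat_lit 0x2fda14)) e) e) e) e) e) e) e)) (c (c (c (c (c (c (c (c (m (nat_lit 0x9b25c)) e) e) e) e) e) e) e) e))) (c (c (c (c (c (c (c (c (c (p (nat_lit 0x992b8)) (c (m (nat_lit 0x131d3c)) e)) (c (c (m (nat_lit 0x498)) e) e)) (c (c (c (m (nat_lit 0x131d84)) e) e) e)) (c (c (c (c (m (nat_lit 0x99018)) e) e) e) e)) (c (c (c (c (c (m (nat_lit 0x9903c)) e) e) e) e) e)) (c (c (c (c (c (c (m (nat_lit 0xb4c)) e) e) e) e) e) e)) (c (c (c (c (c (c (c (m (nat_lit 0x262e00)) e) e) e) e) e) e) e)) (c (c (c (c (c (c (c (c (m (nat_lit 0x99528)) e) e) e) e) e)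 e) e) e)) (c (c (c (c (c (c (c (c (c (m (nat_lit 0x2e8)) e) e) e) e) e) e) e) e) e))))) (c (c (c (c (c (c (c (c (c (c (m (nat_lit 0xd21d04d8)) (c (p (nat_lit 0xd7d3fdbc)) (c (m (nat_lit 0x5578128)) (c (m (nat_lit 0x13158c)) e)))) (c (c (p (nat_lit 0xd7d3fdbc)) (c (m (nat_lit 0xb348dcc)) (c (m (nat_lit 0x131844)) e))) (c (c (m (nat_lit 0x5578128)) (c (m (nat_lit 0x131844)) e)) (c (c (m (nat_lit 0x13158c)) e) e)))) (c (c (c (m (nat_lit 0x166bcf00)) (c (p (nat_lit 0x1cadc0)) (c (m (nat_lit 0x98ce8)) e))) (c (c (p (nat_lit 0x1cadc0)) (c (m (nat_lit 0x1319a0)) e)) (c (c (m (nat_lit 0x98ce8)) e) e))) (c (c (c (p (nat_lit 0x4c7b68)) (c (m (nat_lit 0x99084)) e)) (c (c (m (nat_lit 0x99084)) e) e)) (c (c (c (m (nat_lit 0x1323c0)) e) e) e)))) (c (c (c (c (p (nat_lit 0x7519e2b8)) (c (p (nat_lit 0x1c2108e4)) (c (m (nat_lit 0x132948)) e))) (c (c (p (nat_lit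 0x1c2108e4)) (c (m (nat_lit 0x263f40)) e)) (c (c (m (nat_lit 0x132948)) e) e))) (c (c (c (m (nat_lit 0xeec0290)) (c (m (nat_lit 0x1daea54)) e)) (c (c (m (nat_lit 0x1daea54)) e) e)) (c (c (c (m (nat_lit 0x263c64)) e) e) e))) (c (c (c (c (m (nat_lit 0x134caa68)) (c (m (nat_lit 0x3616434)) e)) (c (c (m (nat_lit 0x3616434)) e) e)) (c (c (c (m (nat_lit 0x265d10)) e) e) e)) (c (c (c (c (m (nat_lit 0x2636c4)) e) e) e) e)))) (c (c (c (c (c (p (nat_lit 0x1c549a8f8)) (c (m (nat_lit 0xce80a934)) (c (p (nat_lit 0x5b6ede0)) e))) (c (c (m (nat_lit 0xce80a934)) (c (p (nat_lit 0xb80f110)) e)) (c (c (p (nat_lit 0x5b6ede0)) e) e))) (c (c (c (p (nat_lit 0x16b850f8)) (c (m (nat_lit 0x98e98)) e)) (c (c (m (nat_lit 0x98e98)) e) e)) (c (c (c (m (nat_lit 0x264af8)) e) e) e))) (c (c (c (c (m (nat_lit 0xa2f63510)) (c (m (nat_lit 0x2af027c)) e)) (c (c (m (nat_lit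 0x2af027c)) e) e)) (c (c (c (m (nat_lit 0x263550)) e) e) e)) (c (c (c (c (p (nat_lit 0x1372ef30)) e) e) e) e))) (c (c (c (c (c (m (nat_lit 0xda6ffd18)) (c (p (nat_lit 0x1d4d623c)) e)) (c (c (p (nat_lit 0x1d4d623c)) e) e)) (c (c (c (m (nat_lit 0x132af8)) e) e) e)) (c (c (c (c (p (nat_lit 0x3d4e2d50)) e) e) e) e)) (c (c (c (c (c (p (nat_lit 0x178cea50)) e) e) e) e) e)))) (c (c (c (c (c (c (p (nat_lit 0x2a193c5c)) (c (m (nat_lit 0x1f816b0c)) (c (m (nat_lit 0x98e98)) e))) (c (c (m (nat_lit 0x29d63a44)) (c (m (nat_lit 0x13251c)) e)) (c (c (m (nat_lit 0x99534)) e) e))) (c (c (c (p (nat_lit 0x430ee4)) (c (m (nat_lit 0x1cf6c8)) e)) (c (c (m (nat_lit 0x13236c)) e) e)) (c (c (c (m (nat_lit 0x53a714)) e) e) e))) (c (c (c (c (m (nat_lit 0x96abc)) (c (m (nat_lit 0x3210)) e)) (c (c (m (nat_lit 0x1d5f20)) e) e)) (c (c (c (m (nat_lit 0x99288)) e) e) e))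 (c (c (c (c (m (nat_lit 0x1cacd0)) e) e) e) e))) (c (c (c (c (c (m (nat_lit 0xe619270)) (c (m (nat_lit 0x1325f4)) e)) (c (c (p (nat_lit 0x3656454)) e) e)) (c (c (c (m (nat_lit 0x132630)) e) e) e)) (c (c (c (c (m (nat_lit 0x9b664)) e) e) e) e)) (c (c (c (c (c (m (nat_lit 0x1b6c6a80)) e) e) e) e) e))) (c (c (c (c (c (c (m (nat_lit 0x3620a0c)) (c (p (nat_lit 0x36b9664)) e)) (c (c (p (nat_lit 0x36ba4bc)) e) e)) (c (c (c (m (nat_lit 0x1322f4)) e) e) e)) (c (c (c (c (m (nat_lit 0x131bd4)) e) e) e) e)) (c (c (c (c (c (p (nat_lit 0x361ed98)) e) e) e) e) e)) (c (c (c (c (c (c (m (nat_lit 0x9882c)) e) e) e) e) e) e)))) (c (c (c (c (c (c (c (m (nat_lit 0x4181448)) (c (p (nat_lit 0x3ea5100)) (c (m (nat_lit 0x98cdc)) e))) (c (c (m (nat_lit 0x52bc08e8)) (c (m (nat_lit 0x98cd0)) e)) (c (c (p (nat_lit 0x10418580)) e) e))) (c (c (c (p (nat_lit 0xc65b50))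 (c (m (nat_lit 0x98f70)) e)) (c (c (m (nat_lit 0x98f58)) e) e)) (c (c (c (m (nat_lit 0x98da8)) e) e) e))) (c (c (c (c (p (nat_lit 0x13d91408)) (c (m (nat_lit 0xbbcc4ac)) e)) (c (c (m (nat_lit 0xbad5738)) e) e)) (c (c (c (m (nat_lit 0x131fe8)) e) e) e)) (c (c (c (c (m (nat_lit 0x98f4c)) e) e) e) e))) (c (c (c (c (c (p (nat_lit 0x17fbacd0)) (c (m (nat_lit 0x38921e8)) e)) (c (c (m (nat_lit 0x3892158)) e) e)) (c (c (c (m (nat_lit 0x98e20)) e) e) e)) (c (c (c (c (m (nat_lit 0x13de9f38)) e) e) e) e)) (c (c (c (c (c (m (nat_lit 0x3892158)) e) e) e) e) e))) (c (c (c (c (c (c (p (nat_lit 0x9a4dc)) (c (m (nat_lit 0x133ad0)) e)) (c (c (m (nat_lit 0x133158)) e) e)) (c (c (c (m (nat_lit 0x99084)) e) e) e)) (c (c (c (c (m (nat_lit 0x9921c)) e) e) e) e)) (c (c (c (c (c (m (nat_lit 0x9a14c)) e) e) e) e) e)) (c (c (c (c (c (c (p (nat_lit 0x7d4)) e) e) e)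 e) e) e))) (c (c (c (c (c (c (c (p (nat_lit 0x5fd288)) (c (m (nat_lit 0x1cf890)) e)) (c (c (m (nat_lit 0x1cb384)) e) e)) (c (c (c (m (nat_lit 0x668454)) e) e) e)) (c (c (c (c (m (nat_lit 0x1329a8)) e) e) e) e)) (c (c (c (c (c (m (nat_lit 0x1cc470)) e) e) e) e) e)) (c (c (c (c (c (c (m (nat_lit 0x1cc350)) e) e) e) e) e) e)) (c (c (c (c (c (c (c (m (nat_lit 0x132144)) e) e) e) e) e) e) e)))) (c (c (c (c (c (c (c (c (p (nat_lit 0x2a193c5c)) (c (m (nat_lit 0x29d63a44)) (c (m (nat_lit 0x99534)) e))) (c (c (m (nat_lit 0x1f816b0c)) (c (m (nat_lit 0x13251c)) e)) (c (c (m (nat_lit 0x98e98)) e) e))) (c (c (c (p (nat_lit 0x430ee4)) (c (m (nat_lit 0x13236c)) e)) (c (c (m (nat_lit 0x1cf6c8)) e) e)) (c (c (c (m (nat_lit 0x53a714)) e) e) e))) (c (c (c (c (m (nat_lit 0x96abc)) (c (m (nat_lit 0x1d5f20)) e)) (c (c (m (nat_lit 0x3210)) e) e)) (c (c (c (m (nat_lit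 0x99288)) e) e) e)) (c (c (c (c (m (nat_lit 0x1cacd0)) e) e) e) e))) (c (c (c (c (c (m (nat_lit 0xe619270)) (c (p (nat_lit 0x3656454)) e)) (c (c (m (nat_lit 0x1325f4)) e) e)) (c (c (c (m (nat_lit 0x132630)) e) e) e)) (c (c (c (c (m (nat_lit 0x9b664)) e) e) e) e)) (c (c (c (c (c (m (nat_lit 0x1b6c6a80)) e) e) e) e) e))) (c (c (c (c (c (c (m (nat_lit 0x1f1d2ebc)) (c (p (nat_lit 0x18b42718)) e)) (c (c (p (nat_lit 0x18b42718)) e) e)) (c (c (c (m (nat_lit 0x131ce8)) e) e) e)) (c (c (c (c (m (nat_lit 0x263820)) e) e) e) e)) (c (c (c (c (c (p (nat_lit 0x1f464ae0)) e) e) e) e) e)) (c (c (c (c (c (c (m (nat_lit 0x133b84)) e) e) e) e) e) e))) (c (c (c (c (c (c (c (m (nat_lit 0x1bee8f3c)) (c (m (nat_lit 0x3150)) e)) (c (c (m (nat_lit 0x7c8)) e) e)) (c (c (c (m (nat_lit 0x3f0)) e) e) e)) (c (c (c (c (p (nat_lit 0x677a78)) e) e) e) e)) (c (c (c (c (c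 (m (nat_lit 0x1e0)) e) e) e) e) e)) (c (c (c (c (c (c (m (nat_lit 0x98dfc)) e) e) e) e) e) e)) (c (c (c (c (c (c (c (m (nat_lit 0x1cc2d8)) e) e) e) e) e) e) e))) (c (c (c (c (c (c (c (c (m (nat_lit 0x3620a0c)) (c (p (nat_lit 0x36ba4bc)) e)) (c (c (p (nat_lit 0x36b9664)) e) e)) (c (c (c (m (nat_lit 0x1322f4)) e) e) e)) (c (c (c (c (m (nat_lit 0x131bd4)) e) e) e) e)) (c (c (c (c (c (p (nat_lit 0x361ed98)) e) e) e) e) e)) (c (c (c (c (c (c (m (nat_lit 0x133b84)) e) e) e) e) e) e)) (c (c (c (c (c (c (c (p (nat_lit 0x1b90ab9c)) e) e) e) e) e) e) e)) (c (c (c (c (c (c (c (c (m (nat_lit 0x9882c)) e) e) e) e) e) e) e) e)))) (c (c (c (c (c (c (c (c (c (m (nat_lit 0x4181448)) (c (m (nat_lit 0x52bc08e8)) (c (p (nat_lit 0x10418580)) e))) (c (c (p (nat_lit 0x3ea5100)) (c (m (nat_lit 0x98cd0)) e)) (c (c (m (nat_lit 0x98cdc)) e) e))) (c (c (c (p (nat_lit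 0xc65b50)) (c (m (nat_lit 0x98f58)) e)) (c (c (m (nat_lit 0x98f70)) e) e)) (c (c (c (m (nat_lit 0x98da8)) e) e) e))) (c (c (c (c (p (nat_lit 0x13d91408)) (c (m (nat_lit 0xbad5738)) e)) (c (c (m (nat_lit 0xbbcc4ac)) e) e)) (c (c (c (m (nat_lit 0x131fe8)) e) e) e)) (c (c (c (c (m (nat_lit 0x98f4c)) e) e) e) e))) (c (c (c (c (c (p (nat_lit 0x17fbacd0)) (c (m (nat_lit 0x3892158)) e)) (c (c (m (nat_lit 0x38921e8)) e) e)) (c (c (c (m (nat_lit 0x98e20)) e) e) e)) (c (c (c (c (m (nat_lit 0x13de9f38)) e) e) e) e)) (c (c (c (c (c (m (nat_lit 0x3892158)) e) e) e) e) e))) (c (c (c (c (c (c (m (nat_lit 0x1bee8f3c)) (c (m (nat_lit 0x7c8)) e)) (c (c (m (nat_lit 0x3150)) e) e)) (c (c (c (m (nat_lit 0x3f0)) e) e) e)) (c (c (c (c (p (nat_lit 0x677a78)) e) e) e) e)) (c (c (c (c (c (m (nat_lit 0x1e0)) e) e) e) e) e)) (c (c (c (c (c (c (p (nat_lit 0x1b90ab9c))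 e) e) e) e) e) e))) (c (c (c (c (c (c (c (p (nat_lit 0x11c7fe4c)) (c (m (nat_lit 0x571350)) e)) (c (c (m (nat_lit 0x571350)) e) e)) (c (c (c (m (nat_lit 0xe60370)) e) e) e)) (c (c (c (c (m (nat_lit 0x2689c8)) e) e) e) e)) (c (c (c (c (c (m (nat_lit 0x11b4d798)) e) e) e) e) e)) (c (c (c (c (c (c (m (nat_lit 0x132660)) e) e) e) e) e) e)) (c (c (c (c (c (c (c (m (nat_lit 0x132834)) e) e) e) e) e) e) e))) (c (c (c (c (c (c (c (c (p (nat_lit 0x9a4dc)) (c (m (nat_lit 0x133158)) e)) (c (c (m (nat_lit 0x133ad0)) e) e)) (c (c (c (m (nat_lit 0x99084)) e) e) e)) (c (c (c (c (m (nat_lit 0x9921c)) e) e) e) e)) (c (c (c (c (c (m (nat_lit 0x9a14c)) e) e) e) e) e)) (c (c (c (c (c (c (m (nat_lit 0x98dfc)) e) e) e) e) e) e)) (c (c (c (c (c (c (c (m (nat_lit 0x132660)) e) e) e) e) e) e) e)) (c (c (c (c (c (c (c (c (p (nat_lit 0x7d4)) e) e) e) e) e) e) e) e)))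 (c (c (c (c (c (c (c (c (c (p (nat_lit 0x5fd288)) (c (m (nat_lit 0x1cb384)) e)) (c (c (m (nat_lit 0x1cf890)) e) e)) (c (c (c (m (nat_lit 0x668454)) e) e) e)) (c (c (c (c (m (nat_lit 0x1329a8)) e) e) e) e)) (c (c (c (c (c (m (nat_lit 0x1cc470)) e) e) e) e) e)) (c (c (c (c (c (c (m (nat_lit 0x1cc2d8)) e) e) e) e) e) e)) (c (c (c (c (c (c (c (m (nat_lit 0x132834)) e) e) e) e) e) e) e)) (c (c (c (c (c (c (c (c (m (nat_lit 0x1cc350)) e) e) e) e) e) e) e) e)) (c (c (c (c (c (c (c (c (c (m (nat_lit 0x132144)) e) e) e) e) e) e) e) e) e)))) (c (c (c (c (c (c (c (c (c (c (p (nat_lit 0x5d1f0224)) (c (m (nat_lit 0x59722dac)) (c (m (nat_lit 0x3acd4c0)) e))) (c (c (m (nat_lit 0x59722dac)) (c (m (nat_lit 0x7469124)) e)) (c (c (m (nat_lit 0x3acd4c0)) e) e))) (c (c (c (p (nat_lit 0xb65afd0)) (c (m (nat_lit 0x98cdc)) e)) (c (c (m (nat_lit 0x98cdc)) e) e))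 (c (c (c (m (nat_lit 0x132114)) e) e) e))) (c (c (c (c (m (nat_lit 0x37f4d06c)) (c (m (nat_lit 0x98ca0)) e)) (c (c (m (nat_lit 0x98ca0)) e) e)) (c (c (c (p (nat_lit 0xf123f78)) e) e) e)) (c (c (c (c (m (nat_lit 0x131f28)) e) e) e) e))) (c (c (c (c (c (m (nat_lit 0x150e324b8)) (c (p (nat_lit 0x90860d30)) e)) (c (c (p (nat_lit 0x90860d30)) e) e)) (c (c (c (m (nat_lit 0xb3f7150)) e) e) e)) (c (c (c (c (p (nat_lit 0x28e282c0)) e) e) e) e)) (c (c (c (c (c (p (nat_lit 0x941639b8)) e) e) e) e) e))) (c (c (c (c (c (c (p (nat_lit 0x436ddc)) (c (m (nat_lit 0x9912c)) e)) (c (c (m (nat_lit 0x131dc0)) e) e)) (c (c (c (m (nat_lit 0x1329c0)) e) e) e)) (c (c (c (c (p (nat_lit 0x3e4)) e) e) e) e)) (c (c (c (c (c (m (nat_lit 0x132960)) e) e) e) e) e)) (c (c (c (c (c (c (m (nat_lit 0x9b8bc)) e) e) e) e) e) e))) (c (c (c (c (c (c (c (p (nat_lit 0x474243c))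 (c (m (nat_lit 0x780)) e)) (c (c (p (nat_lit 0x1ac65440)) e) e)) (c (c (c (m (nat_lit 0x991a4)) e) e) e)) (c (c (c (c (m (nat_lit 0x1cb264)) e) e) e) e)) (c (c (c (c (c (m (nat_lit 0x990cc)) e) e) e) e) e)) (c (c (c (c (c (c (m (nat_lit 0x990a8)) e) e) e) e) e) e)) (c (c (c (c (c (c (c (m (nat_lit 0x9906c)) e) e) e) e) e) e) e))) (c (c (c (c (c (c (c (c (p (nat_lit 0x436ddc)) (c (m (nat_lit 0x131dc0)) e)) (c (c (m (nat_lit 0x9912c)) e) e)) (c (c (c (m (nat_lit 0x1329c0)) e) e) e)) (c (c (c (c (p (nat_lit 0x3e4)) e) e) e) e)) (c (c (c (c (c (m (nat_lit 0x132960)) e) e) e) e) e)) (c (c (c (c (c (c (m (nat_lit 0x1397ac)) e) e) e) e) e) e)) (c (c (c (c (c (c (c (m (nat_lit 0x98f7c)) e) e) e) e) e) e) e)) (c (c (c (c (c (c (c (c (m (nat_lit 0x9b8bc)) e) e) e) e) e) e) e) e))) (c (c (c (c (c (c (c (c (c (p (nat_lit 0x474243c)) (c (p (nat_lit 0x1ac65440))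 e)) (c (c (m (nat_lit 0x780)) e) e)) (c (c (c (m (nat_lit 0x991a4)) e) e) e)) (c (c (c (c (m (nat_lit 0x1cb264)) e) e) e) e)) (c (c (c (c (c (m (nat_lit 0x990cc)) e) e) e) e) e)) (c (c (c (c (c (c (m (nat_lit 0x98f7c)) e) e) e) e) e) e)) (c (c (c (c (c (c (c (m (nat_lit 0x8fb689c)) e) e) e) e) e) e) e)) (c (c (c (c (c (c (c (c (m (nat_lit 0x990a8)) e) e) e) e) e) e) e) e)) (c (c (c (c (c (c (c (c (c (m (nat_lit 0x9906c)) e) e) e) e) e) e) e) e) e))) (c (c (c (c (c (c (c (c (c (c (p (nat_lit 0x30102924)) (c (m (nat_lit 0x2fcd4b90)) e)) (c (c (m (nat_lit 0x2fcd4b90)) e) e)) (c (c (c (m (nat_lit 0x131fe8)) e) e) e)) (c (c (c (c (m (nat_lit 0x263ba4)) e) e) e) e)) (c (c (c (c (c (p (nat_lit 0x132c48)) e) e) e) e) e)) (c (c (c (c (c (c (m (nat_lit 0x131c94)) e) e) e) e) e) e)) (c (c (c (c (c (c (c (m (nat_lit 0x98cb8)) e) e) e) e) e) e) e)) (c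 (c (c (c (c (c (c (c (m (nat_lit 0x131c94)) e) e) e) e) e) e) e) e)) (c (c (c (c (c (c (c (c (c (m (nat_lit 0x98cb8)) e) e) e) e) e) e) e) e) e)) (c (c (c (c (c (c (c (c (c (c (m (nat_lit 0x131994)) e) e) e) e) e) e) e) e) e) e)))))

theorem c1 : trsOK col trs = true := by decide +kernel
theorem c2 : Nat.ble (Nat.mul (nat_lit 39) (nat_lit 4556)) (nat_lit 4294967295) = true := by decide +kernel
theorem c3 : Nat.beq (tabK (nat_lit 39) (List.ofFn s10)) kt = true := by decide +kernel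
theorem c4 : okE trs E = true := by decide +kernel
theorem c5 : dE E (nat_lit 4) = true := by decide +kernel
theorem c6 : cmpK (nat_lit 10) (nat_lit 4) kt E T = true := by decide +kernel
theorem c7 : bndK (nat_lit 10) (nat_lit 4) (Nat.pow (nat_lit 2) (nat_lit 39)) E T = true := by decide +kernel

theorem c0 : Fl.codeB col = 94 := by decide +kernel

theorem own : Fl.OwnOK 4 T 94 :=
  own_ok c0 c1 c2 c3 c4 c5 c6 c7

end H94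

end Own

end HR
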