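import Pool.Agent.Lib.MP_a1b8b7_co.D.H0
import Pool.Agent.Lib.MP_a1b8b7_co.D.H1
import Pool.Agent.Lib.MP_a1b8b7_co.D.H3
import Pool.Agent.Lib.MP_a1b8b7_co.D.H7
import Pool.Agent.Lib.MP_a1b8b7_co.D.H11
import Pool.Agent.Lib.MP_a1b8b7_co.D.H12
import Pool.Agent.Lib.MP_a1b8b7_co.D.H13
import Pool.Agent.Lib.MP_a1b8b7_co.D.H15
import Pool.Agent.Lib.MP_a1b8b7_co.D.H30
import Pool.Agent.Lib.MP_a1b8b7_co.D.H31
import Pool.Agent.Lib.MP_a1b8b7_co.D.H63
import Pool.Agent.Lib.MP_a1b8b7_co.D.H76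
import Pool.Agent.Lib.MP_a1b8b7_co.D.H77
import Pool.Agent.Lib.MP_a1b8b7_co.D.H86
import Pool.Agent.Lib.MP_a1b8b7_co.D.H87
import Pool.Agent.Lib.MP_a1b8b7_co.D.H94
import Pool.Agent.Lib.MP_a1b8b7_co.D.H116
import Pool.Agent.Lib.MP_a1b8b7_co.D.H236
import Pool.Agent.Lib.MP_a1b8b7_co.B.Can18

/-!
# The eighteen colourings together
-/

set_option autoImplicit false

namespace HR

namespace Dat

open Fl Fl.Tr

theorem loc18 : ∀ c ∈ L18, LocOK 4 GD e TD c := by
  intro c hc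
  simp only [L18, List.mem_cons, List.not_mem_nil, or_false] at hc
  rcases hc with rfl | rfl | rfl | rfl | rfl | rfl | rfl | rfl | rfl | rfl | rfl | rfl | rfl | rfl | rfl | rfl | rfl | rfl
  · exact H0.loc
  · exact H1.loc
  · exact H3.loc
  · exact H7.loc
  · exact H11.loc
  · exact H12.loc
  · exact H13.loc
  · exact H15.loc
  · exact H30.loc
  · exact H31.loc
  · exact H63.loc
  · exact H76.loc
  · exact H77.loc
  · exact H86.loc
  · exact H87.loc
  · exact H94.loc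
  · exact H116.loc
  · exact H236.loc

end Dat

end HR
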