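import Pool.Agent.Lib.MP_a1b8b7_co.D.C00
import Pool.Agent.Lib.MP_a1b8b7_co.D.C01
import Pool.Agent.Lib.MP_a1b8b7_co.D.C02
import Pool.Agent.Lib.MP_a1b8b7_co.D.C03
import Pool.Agent.Lib.MP_a1b8b7_co.D.C04
import Pool.Agent.Lib.MP_a1b8b7_co.D.C05
import Pool.Agent.Lib.MP_a1b8b7_co.D.C06
import Pool.Agent.Lib.MP_a1b8b7_co.D.C07
import Pool.Agent.Lib.MP_a1b8b7_co.D.C10
import Pool.Agent.Lib.MP_a1b8b7_co.D.C11
import Pool.Agent.Lib.MP_a1b8b7_co.D.C12
import Pool.Agent.Lib.MP_a1b8b7_co.D.C13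
import Pool.Agent.Lib.MP_a1b8b7_co.D.C14
import Pool.Agent.Lib.MP_a1b8b7_co.D.C15
import Pool.Agent.Lib.MP_a1b8b7_co.D.C16
import Pool.Agent.Lib.MP_a1b8b7_co.D.C17
import Pool.Agent.Lib.MP_a1b8b7_co.D.Loc

/-!
# The bound for models
-/

set_option autoImplicit false
set_option maxRecDepth 1000000

namespace HR

namespace Dat

open Fl Fl.Tr Fl.GP

theorem hc_0_0 : ∀ c < 8, 0 ≤ c → chkBC 4 72 (get (get (get GD 0) 0) (c - 0)) (bl 0) 0 c = true := by
  intro c hc h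
  interval_cases c
  · exact cg_0_0_0
  · exact cg_0_0_1
  · exact cg_0_0_2
  · exact cg_0_0_3
  · exact cg_0_0_4
  · exact cg_0_0_5
  · exact cg_0_0_6
  · exact cg_0_0_7

theorem hc_0_1 : ∀ c < 8, 1 ≤ c → chkBC 4 72 (get (get (get GD 0) 1) (c - 1)) (bl 0) 1 c = true := by
  intro c hc h
  interval_cases c
  · exact cg_0_1_1
  · exact cg_0_1_2
  · exact cg_0_1_3
  · exact cg_0_1_4
  · exact cg_0_1_5
  · exact cg_0_1_6
  · exact cg_0_1_7

theorem hc_0_2 : ∀ c < 8, 2 ≤ c → chkBC 4 72 (get (get (get GD 0) 2) (c - 2)) (bl 0) 2 c = true := by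
  intro c hc h
  interval_cases c
  · exact cg_0_2_2
  · exact cg_0_2_3
  · exact cg_0_2_4
  · exact cg_0_2_5
  · exact cg_0_2_6
  · exact cg_0_2_7

theorem hc_0_3 : ∀ c < 8, 3 ≤ c → chkBC 4 72 (get (get (get GD 0) 3) (c - 3)) (bl 0) 3 c = true := by
  intro c hc h
  interval_cases c
  · exact cg_0_3_3
  · exact cg_0_3_4
  · exact cg_0_3_5
  · exact cg_0_3_6
  · exact cg_0_3_7

theorem hc_0_4 : ∀ c < 8, 4 ≤ c → chkBC 4 72 (get (get (get GD 0) 4) (c - 4)) (bl 0) 4 c = true := by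
  intro c hc h
  interval_cases c
  · exact cg_0_4_4
  · exact cg_0_4_5
  · exact cg_0_4_6
  · exact cg_0_4_7

theorem hc_0_5 : ∀ c < 8, 5 ≤ c → chkBC 4 72 (get (get (get GD 0) 5) (c - 5)) (bl 0) 5 c = true := by
  intro c hc h
  interval_cases c
  · exact cg_0_5_5
  · exact cg_0_5_6
  · exact cg_0_5_7

theorem hc_0_6 : ∀ c < 8, 6 ≤ c → chkBC 4 72 (get (get (get GD 0) 6) (c - 6)) (bl 0) 6 c = true := by
  intro c hc h
  interval_cases c
  · exact cg_0_6_6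
  · exact cg_0_6_7

theorem hc_0_7 : ∀ c < 8, 7 ≤ c → chkBC 4 72 (get (get (get GD 0) 7) (c - 7)) (bl 0) 7 c = true := by
  intro c hc h
  interval_cases c
  · exact cg_0_7_7

theorem hc_1_0 : ∀ c < 8, 0 ≤ c → chkBC 4 72 (get (get (get GD 1) 0) (c - 0)) (bl 1) 0 c = true := by
  intro c hc h
  interval_cases c
  · exact cg_1_0_0
  · exact cg_1_0_1
  · exact cg_1_0_2
  · exact cg_1_0_3
  · exact cg_1_0_4
  · exact cg_1_0_5
  · exact cg_1_0_6
  · exact cg_1_0_7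

theorem hc_1_1 : ∀ c < 8, 1 ≤ c → chkBC 4 72 (get (get (get GD 1) 1) (c - 1)) (bl 1) 1 c = true := by
  intro c hc h
  interval_cases c
  · exact cg_1_1_1
  · exact cg_1_1_2
  · exact cg_1_1_3
  · exact cg_1_1_4
  · exact cg_1_1_5
  · exact cg_1_1_6
  · exact cg_1_1_7

theorem hc_1_2 : ∀ c < 8, 2 ≤ c → chkBC 4 72 (get (get (get GD 1) 2) (c - 2)) (bl 1) 2 c = true := by
  intro c hc h
  interval_cases c
  · exact cg_1_2_2
  · exact cg_1_2_3
  · exact cg_1_2_4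
  · exact cg_1_2_5
  · exact cg_1_2_6
  · exact cg_1_2_7

theorem hc_1_3 : ∀ c < 8, 3 ≤ c → chkBC 4 72 (get (get (get GD 1) 3) (c - 3)) (bl 1) 3 c = true := by
  intro c hc h
  interval_cases c
  · exact cg_1_3_3
  · exact cg_1_3_4
  · exact cg_1_3_5
  · exact cg_1_3_6
  · exact cg_1_3_7

theorem hc_1_4 : ∀ c < 8, 4 ≤ c → chkBC 4 72 (get (get (get GD 1) 4) (c - 4)) (bl 1) 4 c = true := by
  intro c hc h
  interval_cases c
  · exact cg_1_4_4
  · exact cg_1_4_5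
  · exact cg_1_4_6
  · exact cg_1_4_7

theorem hc_1_5 : ∀ c < 8, 5 ≤ c → chkBC 4 72 (get (get (get GD 1) 5) (c - 5)) (bl 1) 5 c = true := by
  intro c hc h
  interval_cases c
  · exact cg_1_5_5
  · exact cg_1_5_6
  · exact cg_1_5_7

theorem hc_1_6 : ∀ c < 8, 6 ≤ c → chkBC 4 72 (get (get (get GD 1) 6) (c - 6)) (bl 1) 6 c = true := by
  intro c hc h
  interval_cases c
  · exact cg_1_6_6
  · exact cg_1_6_7

theorem hc_1_7 : ∀ c < 8, 7 ≤ c → chkBC 4 72 (get (get (get GD 1) 7) (c - 7)) (bl 1) 7 c = true := by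
  intro c hc h
  interval_cases c
  · exact cg_1_7_7

theorem hc_2 : ∀ b < 8, ∀ c < 8, b ≤ c → chkBC 4 72 (get (get (get GD 2) b) (c - b)) (bl 2) b c = true := by
  decide +kernel

theorem hc_3 : ∀ b < 8, ∀ c < 8, b ≤ c → chkBC 4 72 (get (get (get GD 3) b) (c - b)) (bl 3) b c = true := by
  decide +kernel

theorem hc : ∀ t < 4, ∀ b < 8, ∀ c < 8, b ≤ c →
    chkBC 4 72 (get (get (get GD t) b) (c - b)) (bl t) b c = true := by
  intro t ht b hb
  interval_cases t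
  · interval_cases b
    · exact hc_0_0
    · exact hc_0_1
    · exact hc_0_2
    · exact hc_0_3
    · exact hc_0_4
    · exact hc_0_5
    · exact hc_0_6
    · exact hc_0_7
  · interval_cases b
    · exact hc_1_0
    · exact hc_1_1
    · exact hc_1_2
    · exact hc_1_3
    · exact hc_1_4
    · exact hc_1_5
    · exact hc_1_6
    · exact hc_1_7
  · exact hc_2 b hb
  · exact hc_3 b hb

/-- **The bound for models.** -/
theorem model : S_Model :=
  model_of_checks 4 72 (by decide) GD TD L18 can18 L18_le loc18 bl bl_ok bl_psd hc tb tb_ok hT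

end Dat

end HR
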