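import Pool.Agent.Lib.MP_a1b8b7_co.B.Poly

/-!
# Table of the G part, type 0
-/

set_option autoImplicit false
set_option maxRecDepth 1000000

namespace HR

namespace Dat

open Fl Fl.Tr

noncomputable def gt_0_0_0 : Tr :=
  (c (c (c (c (c (c (c (c (c (p (nat_lit 0x1ae9aa6)) (c (m (nat_lit 0x2bb7134)) (c (p (nat_lit 0x19059c0))
  e))) (c (c (m (nat_lit 0x2bb68ca)) (c (m (nat_lit 0x73ad48)) e)) (c (c (p (nat_lit 0x19059ba)) e) e))) (c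
  (c (c (m (nat_lit 0x21920dc)) (c (m (nat_lit 0x73abfe)) e)) (c (c (m (nat_lit 0x73aaa2)) e) e)) (c (c (c (p
  (nat_lit 0x19059a8)) e) e) e))) (c (c (c (c (m (nat_lit 0x2bb7134)) (c (p (nat_lit 0xf165b9a)) (c (m
  (nat_lit 0x37a71a4)) e))) (c (c (m (nat_lit 0xa204e6)) (c (m (nat_lit 0x28fe876)) e)) (c (c (p (nat_lit
  0x5c3cdc)) e) e))) (c (c (c (m (nat_lit 0x9da316)) (c (m (nat_lit 0x28fe936)) e)) (c (c (p (nat_lit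
  0x21cdfce)) e) e)) (c (c (c (p (nat_lit 0x5c3d36)) e) e) e))) (c (c (c (c (p (nat_lit 0x19059c0)) (c (m
  (nat_lit 0x37a71a4)) (c (p (nat_lit 0x468c552)) e))) (c (c (p (nat_lit 0x5c3c8e)) (c (m (nat_lit
  0x147b0be)) e)) (c (c (p (nat_lit 0x31b054)) e) e))) (c (c (c (p (nat_lit 0x5c3c46)) (c (m (nat_lit
  0x147b088)) e)) (c (c (m (nat_lit 0x11c369a)) e) e)) (c (c (c (p (nat_lit 0x31b042)) e) e) e))) e))) (c (c
  (c (c (c (m (nat_lit 0x2bb68ca)) (c (m (nat_lit 0xa204e6)) (c (p (nat_lit 0x5c3c8e)) e))) (c (c (p (nat_lit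
  0xf164f7c)) (c (m (nat_lit 0x28fee04)) e)) (c (c (m (nat_lit 0x37a727c)) e) e))) (c (c (c (m (nat_lit
  0x9db5b8)) (c (p (nat_lit 0x21ce430)) e)) (c (c (m (nat_lit 0x28fe8b8)) e) e)) (c (c (c (p (nat_lit
  0x5c3cb2)) e) e) e))) (c (c (c (c (m (nat_lit 0x73ad48)) (c (m (nat_lit 0x28fe876)) (c (m (nat_lit
  0x147b0be)) e))) (c (c (m (nat_lit 0x28fee04)) (c (p (nat_lit 0x3ce7aec)) e)) (c (c (m (nat_lit 0x147b0ee))
  e) e))) (c (c (c (p (nat_lit 0x21ce54a)) (c (p (nat_lit 0xb575e0)) e)) (c (c (p (nat_lit 0xb57730)) e) e))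
  (c (c (c (m (nat_lit 0x11c36fa)) e) e) e))) e)) (c (c (c (c (c (p (nat_lit 0x19059ba)) (c (p (nat_lit
  0x5c3cdc)) (c (p (nat_lit 0x31b054)) e))) (c (c (m (nat_lit 0x37a727c)) (c (m (nat_lit 0x147b0ee)) e)) (c
  (c (p (nat_lit 0x468c5b8)) e) e))) (c (c (c (p (nat_lit 0x5c3ca0)) (c (m (nat_lit 0x11c372a)) e)) (c (c (m
  (nat_lit 0x147b0ac)) e) e)) (c (c (c (p (nat_lit 0x31b078)) e) e) e))) e) e))) (c (c (c (c (c (c (m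
  (nat_lit 0x21920dc)) (c (m (nat_lit 0x9da316)) (c (p (nat_lit 0x5c3c46)) e))) (c (c (m (nat_lit 0x9db5b8))
  (c (p (nat_lit 0x21ce54a)) e)) (c (c (p (nat_lit 0x5c3ca0)) e) e))) (c (c (c (p (nat_lit 0xf6d1136)) (c (m
  (nat_lit 0x28ff044)) e)) (c (c (m (nat_lit 0x28feb52)) e) e)) (c (c (c (m (nat_lit 0x37a7192)) e) e) e)))
  (c (c (c (c (m (nat_lit 0x73abfe)) (c (m (nat_lit 0x28fe936)) (c (m (nat_lit 0x147b088)) e))) (c (c (p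
  (nat_lit 0x21ce430)) (c (p (nat_lit 0xb575e0)) e)) (c (c (m (nat_lit 0x11c372a)) e) e))) (c (c (c (m
  (nat_lit 0x28ff044)) (c (p (nat_lit 0x3ce7b10)) e)) (c (c (p (nat_lit 0xb57928)) e) e)) (c (c (c (m
  (nat_lit 0x147b0e8)) e) e) e))) e)) (c (c (c (c (c (m (nat_lit 0x73aaa2)) (c (p (nat_lit 0x21cdfce)) (c (m
  (nat_lit 0x11c369a)) e))) (c (c (m (nat_lit 0x28fe8b8)) (c (p (nat_lit 0xb57730)) e)) (c (c (m (nat_lit
  0x147b0ac)) e) e))) (c (c (c (m (nat_lit 0x28feb52)) (c (p (nat_lit 0xb57928)) e)) (c (c (p (nat_lit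
  0x3ce7960)) e) e)) (c (c (c (m (nat_lit 0x147b0a6)) e) e) e))) e) e)) (c (c (c (c (c (c (p (nat_lit
  0x19059a8)) (c (p (nat_lit 0x5c3d36)) (c (p (nat_lit 0x31b042)) e))) (c (c (p (nat_lit 0x5c3cb2)) (c (m
  (nat_lit 0x11c36fa)) e)) (c (c (p (nat_lit 0x31b078)) e) e))) (c (c (c (m (nat_lit 0x37a7192)) (c (m
  (nat_lit 0x147b0e8)) e)) (c (c (m (nat_lit 0x147b0a6)) e) e)) (c (c (c (p (nat_lit 0x468c570)) e) e) e)))
  e) e) e))) (c (c (c (c (c (c (c (p (nat_lit 0xae2b086)) (c (m (nat_lit 0x1b1455c)) (c (p (nat_lit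
  0x8caedc)) e))) (c (c (m (nat_lit 0x1b14532)) (c (m (nat_lit 0x17e220a)) e)) (c (c (p (nat_lit 0x8caea6))
  e) e))) (c (c (c (m (nat_lit 0x7544406)) (c (p (nat_lit 0x1e303ea)) e)) (c (c (p (nat_lit 0x1e303b4)) e)
  e)) (c (c (c (m (nat_lit 0x324275a)) e) e) e))) (c (c (c (c (m (nat_lit 0x1b1455c)) (c (p (nat_lit
  0xaca27dc)) (c (m (nat_lit 0x1986c12)) e))) (c (c (m (nat_lit 0x918a692)) (c (p (nat_lit 0x17d84d8)) e)) (c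
  (c (p (nat_lit 0x128840a)) e) e))) (c (c (c (p (nat_lit 0x17b4a96)) (c (p (nat_lit 0x6dbb82)) e)) (c (c (m
  (nat_lit 0x74e8f6)) e) e)) (c (c (c (p (nat_lit 0x76440c)) e) e) e))) (c (c (c (c (p (nat_lit 0x8caedc)) (c
  (m (nat_lit 0x1986c12)) e)) (c (c (p (nat_lit 0x12883e6)) e) e)) (c (c (c (m (nat_lit 0xa92462)) e) e) e))
  e))) (c (c (c (c (c (m (nat_lit 0x1b14532)) (c (m (nat_lit 0x918a692)) (c (p (nat_lit 0x12883e6)) e))) (c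
  (c (p (nat_lit 0xaca2818)) (c (p (nat_lit 0x17d84f6)) e)) (c (c (m (nat_lit 0x1986bd6)) e) e))) (c (c (c (p
  (nat_lit 0x17b58fa)) (c (m (nat_lit 0x74e914)) e)) (c (c (p (nat_lit 0x6dbb70)) e) e)) (c (c (c (p (nat_lit
  0x764406)) e) e) e))) (c (c (c (c (m (nat_lit 0x17e220a)) (c (p (nat_lit 0x17d84d8)) e)) (c (c (p (nat_lit
  0x17d84f6)) e) e)) (c (c (c (p (nat_lit 0x2c138a)) e) e) e)) e)) (c (c (c (c (c (p (nat_lit 0x8caea6)) (c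
  (p (nat_lit 0x128840a)) e)) (c (c (m (nat_lit 0x1986bd6)) e) e)) (c (c (c (m (nat_lit 0xa924aa)) e) e) e))
  e) e))) (c (c (c (c (c (c (m (nat_lit 0x7544406)) (c (p (nat_lit 0x17b4a96)) (c (m (nat_lit 0xa92462)) e)))
  (c (c (p (nat_lit 0x17b58fa)) (c (p (nat_lit 0x2c138a)) e)) (c (c (m (nat_lit 0xa924aa)) e) e))) (c (c (c
  (p (nat_lit 0xa6b534c)) (c (p (nat_lit 0xaa9880)) e)) (c (c (p (nat_lit 0xaa9580)) e) e)) (c (c (c (p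
  (nat_lit 0x3fbf28)) e) e) e))) (c (c (c (c (p (nat_lit 0x1e303ea)) (c (p (nat_lit 0x6dbb82)) e)) (c (c (m
  (nat_lit 0x74e914)) e) e)) (c (c (c (p (nat_lit 0xaa9880)) e) e) e)) e)) (c (c (c (c (c (p (nat_lit
  0x1e303b4)) (c (m (nat_lit 0x74e8f6)) e)) (c (c (p (nat_lit 0x6dbb70)) e) e)) (c (c (c (p (nat_lit
  0xaa9580)) e) e) e)) e) e)) (c (c (c (c (c (c (m (nat_lit 0x324275a)) (c (p (nat_lit 0x76440c)) e)) (c (c
  (p (nat_lit 0x764406)) e) e)) (c (c (c (p (nat_lit 0x3fbf28)) e) e) e)) e) e) e))) (c (c (c (c (c (c (c (m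
  (nat_lit 0x2bd8176)) (c (m (nat_lit 0x11db52)) (c (m (nat_lit 0x16b8cf4)) e))) (c (c (m (nat_lit 0x11dc00))
  (c (p (nat_lit 0xc8019c)) e)) (c (c (m (nat_lit 0x16b8ce2)) e) e))) (c (c (c (m (nat_lit 0x1e0df02)) (c (p
  (nat_lit 0x726132)) e)) (c (c (p (nat_lit 0x726156)) e) e)) (c (c (c (m (nat_lit 0x2e8180)) e) e) e))) (c
  (c (c (c (m (nat_lit 0x11db52)) (c (m (nat_lit 0x740533e)) e)) (c (c (p (nat_lit 0x21e8c1a)) e) e)) (c (c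
  (c (p (nat_lit 0xb51c52)) e) e) e)) (c (c (c (c (m (nat_lit 0x16b8cf4)) e) e) e) e))) (c (c (c (c (c (m
  (nat_lit 0x11dc00)) (c (p (nat_lit 0x21e8c1a)) e)) (c (c (m (nat_lit 0x740534a)) e) e)) (c (c (c (p
  (nat_lit 0xb51c6a)) e) e) e)) (c (c (c (c (p (nat_lit 0xc8019c)) e) e) e) e)) (c (c (c (c (c (m (nat_lit
  0x16b8ce2)) e) e) e) e) e))) (c (c (c (c (c (c (m (nat_lit 0x1e0df02)) (c (p (nat_lit 0xb51c52)) e)) (c (c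
  (p (nat_lit 0xb51c6a)) e) e)) (c (c (c (m (nat_lit 0xadbcb2a)) e) e) e)) (c (c (c (c (p (nat_lit 0x726132))
  e) e) e) e)) (c (c (c (c (c (p (nat_lit 0x726156)) e) e) e) e) e)) (c (c (c (c (c (c (m (nat_lit 0x2e8180))
  e) e) e) e) e) e))) (c (c (c (c (c (c (c (p (nat_lit 0x32c7222)) (c (p (nat_lit 0x166056c)) e)) (c (c (p
  (nat_lit 0x1660566)) e) e)) (c (c (c (p (nat_lit 0x575d85e)) e) e) e)) (c (c (c (c (p (nat_lit 0x166056c))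
  e) e) e) e)) (c (c (c (c (c (p (nat_lit 0x1660566)) e) e) e) e) e)) (c (c (c (c (c (c (p (nat_lit
  0x575d85e)) e) e) e) e) e) e)) (c (c (c (c (c (c (c (m (nat_lit 0x50d0606)) e) e) e) e) e) e) e))))) (c (c
  (c (c (c (c (c (c (p (nat_lit 0x1221756)) (c (p (nat_lit 0x31898c4)) (c (p (nat_lit 0x8cae3a)) e))) (c (c
  (m (nat_lit 0x200d35a)) (c (p (nat_lit 0x1e303c6)) e)) (c (c (m (nat_lit 0x3242748)) e) e))) (c (c (c (p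
  (nat_lit 0x1253646)) (c (m (nat_lit 0x17e21c2)) e)) (c (c (p (nat_lit 0x1e30366)) e) e)) (c (c (c (p
  (nat_lit 0x8cae58)) e) e) e))) (c (c (c (c (p (nat_lit 0x31898c4)) (c (m (nat_lit 0x1457178)) (c (m
  (nat_lit 0x1986be2)) e))) (c (c (p (nat_lit 0x3582c9c)) (c (p (nat_lit 0x6dbb9a)) e)) (c (c (p (nat_lit
  0x7643e8)) e) e))) (c (c (c (m (nat_lit 0x7d1000c)) (c (p (nat_lit 0x17d84ba)) e)) (c (c (m (nat_lit
  0x74e8f6)) e) e)) (c (c (c (p (nat_lit 0x12883f2)) e) e) e))) (c (c (c (c (p (nat_lit 0x8cae3a)) (c (m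
  (nat_lit 0x1986be2)) e)) (c (c (m (nat_lit 0xa92444)) e) e)) (c (c (c (p (nat_lit 0x1288422)) e) e) e))
  e))) (c (c (c (c (c (m (nat_lit 0x200d35a)) (c (p (nat_lit 0x3582c9c)) (c (m (nat_lit 0xa92444)) e))) (c (c
  (m (nat_lit 0x624ff60)) (c (p (nat_lit 0xaa9670)) e)) (c (c (p (nat_lit 0x3fbf34)) e) e))) (c (c (c (p
  (nat_lit 0x353cb08)) (c (p (nat_lit 0x2c1138)) e)) (c (c (p (nat_lit 0xaa9670)) e) e)) (c (c (c (m (nat_lit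
  0xa9249e)) e) e) e))) (c (c (c (c (p (nat_lit 0x1e303c6)) (c (p (nat_lit 0x6dbb9a)) e)) (c (c (p (nat_lit
  0xaa9670)) e) e)) (c (c (c (m (nat_lit 0x74e902)) e) e) e)) e)) (c (c (c (c (c (m (nat_lit 0x3242748)) (c
  (p (nat_lit 0x7643e8)) e)) (c (c (p (nat_lit 0x3fbf34)) e) e)) (c (c (c (p (nat_lit 0x76440c)) e) e) e)) e)
  e))) (c (c (c (c (c (c (p (nat_lit 0x1253646)) (c (m (nat_lit 0x7d1000c)) (c (p (nat_lit 0x1288422)) e)))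
  (c (c (p (nat_lit 0x353cb08)) (c (m (nat_lit 0x74e902)) e)) (c (c (p (nat_lit 0x76440c)) e) e))) (c (c (c
  (m (nat_lit 0x19c2fa2)) (c (p (nat_lit 0x17d84de)) e)) (c (c (p (nat_lit 0x6dbb8e)) e) e)) (c (c (c (m
  (nat_lit 0x1986bf4)) e) e) e))) (c (c (c (c (m (nat_lit 0x17e21c2)) (c (p (nat_lit 0x17d84ba)) e)) (c (c (p
  (nat_lit 0x2c1138)) e) e)) (c (c (c (p (nat_lit 0x17d84de)) e) e) e)) e)) (c (c (c (c (c (p (nat_lit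
  0x1e30366)) (c (m (nat_lit 0x74e8f6)) e)) (c (c (p (nat_lit 0xaa9670)) e) e)) (c (c (c (p (nat_lit
  0x6dbb8e)) e) e) e)) e) e)) (c (c (c (c (c (c (p (nat_lit 0x8cae58)) (c (p (nat_lit 0x12883f2)) e)) (c (c
  (m (nat_lit 0xa9249e)) e) e)) (c (c (c (m (nat_lit 0x1986bf4)) e) e) e)) e) e) e))) (c (c (c (c (c (c (c (m
  (nat_lit 0xee7196c)) (c (m (nat_lit 0x364f872)) (c (p (nat_lit 0xa481ee)) e))) (c (c (p (nat_lit
  0x4829ee6)) (c (m (nat_lit 0x12c767a)) e)) (c (c (p (nat_lit 0x1cbf9de)) e) e))) (c (c (c (p (nat_lit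
  0x65bfc4a)) (c (m (nat_lit 0x12c767a)) e)) (c (c (m (nat_lit 0x1fdeac4)) e) e)) (c (c (c (p (nat_lit
  0x1cbf9ea)) e) e) e))) (c (c (c (c (m (nat_lit 0x364f872)) (c (m (nat_lit 0x3acd1c)) e)) (c (c (p (nat_lit
  0x1ac7c0)) e) e)) (c (c (c (p (nat_lit 0x1f2948)) e) e) e)) (c (c (c (c (p (nat_lit 0xa481ee)) e) e) e)
  e))) (c (c (c (c (c (p (nat_lit 0x4829ee6)) (c (p (nat_lit 0x1ac7c0)) e)) (c (c (m (nat_lit 0x41282a6)) e)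
  e)) (c (c (c (m (nat_lit 0x27afd9a)) e) e) e)) (c (c (c (c (m (nat_lit 0x12c767a)) e) e) e) e)) (c (c (c (c
  (c (p (nat_lit 0x1cbf9de)) e) e) e) e) e))) (c (c (c (c (c (c (p (nat_lit 0x65bfc4a)) (c (p (nat_lit
  0x1f2948)) e)) (c (c (m (nat_lit 0x27afd9a)) e) e)) (c (c (c (m (nat_lit 0x3bbc464)) e) e) e)) (c (c (c (c
  (m (nat_lit 0x12c767a)) e) e) e) e)) (c (c (c (c (c (m (nat_lit 0x1fdeac4)) e) e) e) e) e)) (c (c (c (c (c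
  (c (p (nat_lit 0x1cbf9ea)) e) e) e) e) e) e))) (c (c (c (c (c (c (c (p (nat_lit 0x3b96b26)) (c (p (nat_lit
  0x1d3da5c)) e)) (c (c (p (nat_lit 0xde60)) e) e)) (c (c (c (m (nat_lit 0x25d4348)) e) e) e)) (c (c (c (c (p
  (nat_lit 0x1d3da5c)) e) e) e) e)) (c (c (c (c (c (p (nat_lit 0xde60)) e) e) e) e) e)) (c (c (c (c (c (c (m
  (nat_lit 0x25d4348)) e) e) e) e) e) e)) (c (c (c (c (c (c (c (p (nat_lit 0x252168)) e) e) e) e) e) e) e))))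
  (c (c (c (c (c (c (c (c (p (nat_lit 0x4679e9e)) (c (m (nat_lit 0x4439eda)) (c (m (nat_lit 0x16b8cd0)) e)))
  (c (c (m (nat_lit 0xc1391a)) (c (p (nat_lit 0x72614a)) e)) (c (c (m (nat_lit 0x2e816e)) e) e))) (c (c (c (m
  (nat_lit 0x2f28588)) (c (p (nat_lit 0xc8014e)) e)) (c (c (p (nat_lit 0x726150)) e) e)) (c (c (c (m (nat_lit
  0x16b8cd0)) e) e) e))) (c (c (c (c (m (nat_lit 0x4439eda)) (c (p (nat_lit 0x4cf45e0)) e)) (c (c (m (nat_lit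
  0x123589e)) e) e)) (c (c (c (p (nat_lit 0xd2838e)) e) e) e)) (c (c (c (c (m (nat_lit 0x16b8cd0)) e) e) e)
  e))) (c (c (c (c (c (m (nat_lit 0xc1391a)) (c (m (nat_lit 0x123589e)) e)) (c (c (p (nat_lit 0x60b440e)) e)
  e)) (c (c (c (m (nat_lit 0x1235856)) e) e) e)) (c (c (c (c (p (nat_lit 0x72614a)) e) e) e) e)) (c (c (c (c
  (c (m (nat_lit 0x2e816e)) e) e) e) e) e))) (c (c (c (c (c (c (m (nat_lit 0x2f28588)) (c (p (nat_lit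
  0xd2838e)) e)) (c (c (m (nat_lit 0x1235856)) e) e)) (c (c (c (p (nat_lit 0x4cf4622)) e) e) e)) (c (c (c (c
  (p (nat_lit 0xc8014e)) e) e) e) e)) (c (c (c (c (c (p (nat_lit 0x726150)) e) e) e) e) e)) (c (c (c (c (c (c
  (m (nat_lit 0x16b8cd0)) e) e) e) e) e) e))) (c (c (c (c (c (c (c (p (nat_lit 0x749f868)) (c (p (nat_lit
  0x12696f0)) e)) (c (c (m (nat_lit 0xc25194)) e) e)) (c (c (c (p (nat_lit 0x64bbe2)) e) e) e)) (c (c (c (c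
  (p (nat_lit 0x12696f0)) e) e) e) e)) (c (c (c (c (c (m (nat_lit 0xc25194)) e) e) e) e) e)) (c (c (c (c (c
  (c (p (nat_lit 0x64bbe2)) e) e) e) e) e) e)) (c (c (c (c (c (c (c (p (nat_lit 0x9f1fe)) e) e) e) e) e) e)
  e))) (c (c (c (c (c (c (c (c (m (nat_lit 0x1cb9edc)) (c (p (nat_lit 0xcdebca)) e)) (c (c (m (nat_lit
  0x5af94e)) e) e)) (c (c (c (p (nat_lit 0xcdebdc)) e) e) e)) (c (c (c (c (p (nat_lit 0xcdebca)) e) e) e) e))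
  (c (c (c (c (c (m (nat_lit 0x5af94e)) e) e) e) e) e)) (c (c (c (c (c (c (p (nat_lit 0xcdebdc)) e) e) e) e)
  e) e)) (c (c (c (c (c (c (c (m (nat_lit 0x4450e5a)) e) e) e) e) e) e) e)) (c (c (c (c (c (c (c (c (p
  (nat_lit 0x28682ee)) e) e) e) e) e) e) e) e))))) (c (c (c (c (c (c (c (c (c (p (nat_lit 0x12217aa)) (c (m
  (nat_lit 0x200d510)) (c (m (nat_lit 0x3242778)) e))) (c (c (p (nat_lit 0x31897c8)) (c (p (nat_lit
  0x1e30438)) e)) (c (c (p (nat_lit 0x8cae1c)) e) e))) (c (c (c (p (nat_lit 0x1253586)) (c (p (nat_lit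
  0x1e30408)) e)) (c (c (m (nat_lit 0x17e2138)) e) e)) (c (c (c (p (nat_lit 0x8cae28)) e) e) e))) (c (c (c (c
  (m (nat_lit 0x200d510)) (c (m (nat_lit 0x624ff00)) (c (p (nat_lit 0x3fbf46)) e))) (c (c (p (nat_lit
  0x3582de6)) (c (p (nat_lit 0xaa9616)) e)) (c (c (m (nat_lit 0xa9240e)) e) e))) (c (c (c (p (nat_lit
  0x353cc04)) (c (p (nat_lit 0xaa962e)) e)) (c (c (p (nat_lit 0x2c1072)) e) e)) (c (c (c (m (nat_lit
  0xa9244a)) e) e) e))) (c (c (c (c (m (nat_lit 0x3242778)) (c (p (nat_lit 0x3fbf46)) e)) (c (c (p (nat_lit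
  0x764430)) e) e)) (c (c (c (p (nat_lit 0x76443c)) e) e) e)) e))) (c (c (c (c (c (p (nat_lit 0x31897c8)) (c
  (p (nat_lit 0x3582de6)) (c (p (nat_lit 0x764430)) e))) (c (c (m (nat_lit 0x145716c)) (c (p (nat_lit
  0x6dbb82)) e)) (c (c (m (nat_lit 0x1986bbe)) e) e))) (c (c (c (m (nat_lit 0x7d10066)) (c (m (nat_lit
  0x74e91a)) e)) (c (c (p (nat_lit 0x17d847e)) e) e)) (c (c (c (p (nat_lit 0x1288416)) e) e) e))) (c (c (c (c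
  (p (nat_lit 0x1e30438)) (c (p (nat_lit 0xaa9616)) e)) (c (c (p (nat_lit 0x6dbb82)) e) e)) (c (c (c (m
  (nat_lit 0x74e8fc)) e) e) e)) e)) (c (c (c (c (c (p (nat_lit 0x8cae1c)) (c (m (nat_lit 0xa9240e)) e)) (c (c
  (m (nat_lit 0x1986bbe)) e) e)) (c (c (c (p (nat_lit 0x1288452)) e) e) e)) e) e))) (c (c (c (c (c (c (p
  (nat_lit 0x1253586)) (c (p (nat_lit 0x353cc04)) (c (p (nat_lit 0x76443c)) e))) (c (c (m (nat_lit
  0x7d10066)) (c (m (nat_lit 0x74e8fc)) e)) (c (c (p (nat_lit 0x1288452)) e) e))) (c (c (c (m (nat_lit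
  0x19c301a)) (c (p (nat_lit 0x6dbb7c)) e)) (c (c (p (nat_lit 0x17d84c0)) e) e)) (c (c (c (m (nat_lit
  0x1986bee)) e) e) e))) (c (c (c (c (p (nat_lit 0x1e30408)) (c (p (nat_lit 0xaa962e)) e)) (c (c (m (nat_lit
  0x74e91a)) e) e)) (c (c (c (p (nat_lit 0x6dbb7c)) e) e) e)) e)) (c (c (c (c (c (m (nat_lit 0x17e2138)) (c
  (p (nat_lit 0x2c1072)) e)) (c (c (p (nat_lit 0x17d847e)) e) e)) (c (c (c (p (nat_lit 0x17d84c0)) e) e) e))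
  e) e)) (c (c (c (c (c (c (p (nat_lit 0x8cae28)) (c (m (nat_lit 0xa9244a)) e)) (c (c (p (nat_lit 0x1288416))
  e) e)) (c (c (c (m (nat_lit 0x1986bee)) e) e) e)) e) e) e))) (c (c (c (c (c (c (c (m (nat_lit 0xeebf80a))
  (c (p (nat_lit 0x489d938)) (c (p (nat_lit 0x1cbf9b4)) e))) (c (c (m (nat_lit 0x374866e)) (c (m (nat_lit
  0x12c7650)) e)) (c (c (p (nat_lit 0xa481fa)) e) e))) (c (c (c (p (nat_lit 0x6633648)) (c (m (nat_lit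
  0x1fdeaac)) e)) (c (c (m (nat_lit 0x12c7632)) e) e)) (c (c (c (p (nat_lit 0x1cbf9cc)) e) e) e))) (c (c (c
  (c (p (nat_lit 0x489d938)) (c (m (nat_lit 0x48a2ca8)) e)) (c (c (p (nat_lit 0x830f46)) e) e)) (c (c (c (m
  (nat_lit 0x25f7634)) e) e) e)) (c (c (c (c (p (nat_lit 0x1cbf9b4)) e) e) e) e))) (c (c (c (c (c (m (nat_lit
  0x374866e)) (c (p (nat_lit 0x830f46)) e)) (c (c (m (nat_lit 0x1307100)) e) e)) (c (c (c (p (nat_lit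
  0x87708c)) e) e) e)) (c (c (c (c (m (nat_lit 0x12c7650)) e) e) e) e)) (c (c (c (c (c (p (nat_lit 0xa481fa))
  e) e) e) e) e))) (c (c (c (c (c (c (p (nat_lit 0x6633648)) (c (m (nat_lit 0x25f7634)) e)) (c (c (p (nat_lit
  0x87708c)) e) e)) (c (c (c (m (nat_lit 0x4336f0e)) e) e) e)) (c (c (c (c (m (nat_lit 0x1fdeaac)) e) e) e)
  e)) (c (c (c (c (c (m (nat_lit 0x12c7632)) e) e) e) e) e)) (c (c (c (c (c (c (p (nat_lit 0x1cbf9cc)) e) e)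
  e) e) e) e))) (c (c (c (c (c (c (c (p (nat_lit 0x3c198f6)) (c (m (nat_lit 0xb7564)) e)) (c (c (p (nat_lit
  0x20443aa)) e) e)) (c (c (c (m (nat_lit 0x279452a)) e) e) e)) (c (c (c (c (m (nat_lit 0xb7564)) e) e) e)
  e)) (c (c (c (c (c (p (nat_lit 0x20443aa)) e) e) e) e) e)) (c (c (c (c (c (c (m (nat_lit 0x279452a)) e) e)
  e) e) e) e)) (c (c (c (c (c (c (c (p (nat_lit 0x13c43a)) e) e) e) e) e) e) e)))) (c (c (c (c (c (c (c (c (m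
  (nat_lit 0x68d9870)) (c (p (nat_lit 0x289ed02)) (c (p (nat_lit 0x1cbf9c6)) e))) (c (c (p (nat_lit
  0x289ed9e)) (c (m (nat_lit 0x1fdeae2)) e)) (c (c (p (nat_lit 0x1cbf9d2)) e) e))) (c (c (c (m (nat_lit
  0x70037a)) (c (m (nat_lit 0x12c7644)) e)) (c (c (m (nat_lit 0x12c762c)) e) e)) (c (c (c (p (nat_lit
  0xa4821e)) e) e) e))) (c (c (c (c (p (nat_lit 0x289ed02)) (c (m (nat_lit 0x1d1f108)) e)) (c (c (m (nat_lit
  0x2009bd4)) e) e)) (c (c (c (p (nat_lit 0xe64b7c)) e) e) e)) (c (c (c (c (p (nat_lit 0x1cbf9c6)) e) e) e)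
  e))) (c (c (c (c (c (p (nat_lit 0x289ed9e)) (c (m (nat_lit 0x2009bd4)) e)) (c (c (m (nat_lit 0x1d1f138)) e)
  e)) (c (c (c (p (nat_lit 0xe64bb8)) e) e) e)) (c (c (c (c (m (nat_lit 0x1fdeae2)) e) e) e) e)) (c (c (c (c
  (c (p (nat_lit 0x1cbf9d2)) e) e) e) e) e))) (c (c (c (c (c (c (m (nat_lit 0x70037a)) (c (p (nat_lit
  0xe64b7c)) e)) (c (c (p (nat_lit 0xe64bb8)) e) e)) (c (c (c (p (nat_lit 0x187ca40)) e) e) e)) (c (c (c (c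
  (m (nat_lit 0x12c7644)) e) e) e) e)) (c (c (c (c (c (m (nat_lit 0x12c762c)) e) e) e) e) e)) (c (c (c (c (c
  (c (p (nat_lit 0xa4821e)) e) e) e) e) e) e))) (c (c (c (c (c (c (c (p (nat_lit 0x6fb0da8)) (c (p (nat_lit
  0xcdd6a0)) e)) (c (c (p (nat_lit 0x689b14)) e) e)) (c (c (c (m (nat_lit 0x799d40)) e) e) e)) (c (c (c (c (p
  (nat_lit 0xcdd6a0)) e) e) e) e)) (c (c (c (c (c (p (nat_lit 0x689b14)) e) e) e) e) e)) (c (c (c (c (c (c (m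
  (nat_lit 0x799d40)) e) e) e) e) e) e)) (c (c (c (c (c (c (c (m (nat_lit 0x2856168)) e) e) e) e) e) e) e)))
  (c (c (c (c (c (c (c (c (p (nat_lit 0x1c65144)) (c (m (nat_lit 0x26a0f6)) e)) (c (c (m (nat_lit 0xee7ba4))
  e) e)) (c (c (c (m (nat_lit 0x792330)) e) e) e)) (c (c (c (c (m (nat_lit 0x26a0f6)) e) e) e) e)) (c (c (c
  (c (c (m (nat_lit 0xee7ba4)) e) e) e) e) e)) (c (c (c (c (c (c (m (nat_lit 0x792330)) e) e) e) e) e) e)) (c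
  (c (c (c (c (c (c (m (nat_lit 0x2a9ba90)) e) e) e) e) e) e) e)) (c (c (c (c (c (c (c (c (m (nat_lit
  0x1cda9a8)) e) e) e) e) e) e) e) e)))) (c (c (c (c (c (c (c (c (c (p (nat_lit 0x4679f34)) (c (m (nat_lit
  0xc1384e)) (c (m (nat_lit 0x2e817a)) e))) (c (c (m (nat_lit 0x4439f10)) (c (p (nat_lit 0x72618c)) e)) (c (c
  (m (nat_lit 0x16b8d06)) e) e))) (c (c (c (m (nat_lit 0x2f2855e)) (c (p (nat_lit 0x72617a)) e)) (c (c (p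
  (nat_lit 0xc8014e)) e) e)) (c (c (c (m (nat_lit 0x16b8ce2)) e) e) e))) (c (c (c (c (m (nat_lit 0xc1384e))
  (c (p (nat_lit 0x60b4396)) e)) (c (c (m (nat_lit 0x1235904)) e) e)) (c (c (c (m (nat_lit 0x12358e6)) e) e)
  e)) (c (c (c (c (m (nat_lit 0x2e817a)) e) e) e) e))) (c (c (c (c (c (m (nat_lit 0x4439f10)) (c (m (nat_lit
  0x1235904)) e)) (c (c (p (nat_lit 0x4cf45f8)) e) e)) (c (c (c (p (nat_lit 0xd283b2)) e) e) e)) (c (c (c (c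
  (p (nat_lit 0x72618c)) e) e) e) e)) (c (c (c (c (c (m (nat_lit 0x16b8d06)) e) e) e) e) e))) (c (c (c (c (c
  (c (m (nat_lit 0x2f2855e)) (c (m (nat_lit 0x12358e6)) e)) (c (c (p (nat_lit 0xd283b2)) e) e)) (c (c (c (p
  (nat_lit 0x4cf465e)) e) e) e)) (c (c (c (c (p (nat_lit 0x72617a)) e) e) e) e)) (c (c (c (c (c (p (nat_lit
  0xc8014e)) e) e) e) e) e)) (c (c (c (c (c (c (m (nat_lit 0x16b8ce2)) e) e) e) e) e) e))) (c (c (c (c (c (c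
  (c (p (nat_lit 0x7522578)) (c (m (nat_lit 0xde5340)) e)) (c (c (p (nat_lit 0x1570026)) e) e)) (c (c (c (p
  (nat_lit 0x58684e)) e) e) e)) (c (c (c (c (m (nat_lit 0xde5340)) e) e) e) e)) (c (c (c (c (c (p (nat_lit
  0x1570026)) e) e) e) e) e)) (c (c (c (c (c (c (p (nat_lit 0x58684e)) e) e) e) e) e) e)) (c (c (c (c (c (c
  (c (p (nat_lit 0xb004)) e) e) e) e) e) e) e))) (c (c (c (c (c (c (c (c (p (nat_lit 0x1c65090)) (c (m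
  (nat_lit 0xee7b38)) e)) (c (c (m (nat_lit 0x26a0c6)) e) e)) (c (c (c (m (nat_lit 0x79231e)) e) e) e)) (c (c
  (c (c (m (nat_lit 0xee7b38)) e) e) e) e)) (c (c (c (c (c (m (nat_lit 0x26a0c6)) e) e) e) e) e)) (c (c (c (c
  (c (c (m (nat_lit 0x79231e)) e) e) e) e) e) e)) (c (c (c (c (c (c (c (m (nat_lit 0x273157e)) e) e) e) e) e)
  e) e)) (c (c (c (c (c (c (c (c (p (nat_lit 0x3e24e62)) e) e) e) e) e) e) e) e))) (c (c (c (c (c (c (c (c (c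
  (m (nat_lit 0x1cb9ea0)) (c (m (nat_lit 0x5af990)) e)) (c (c (p (nat_lit 0xcdebe2)) e) e)) (c (c (c (p
  (nat_lit 0xcdebd6)) e) e) e)) (c (c (c (c (m (nat_lit 0x5af990)) e) e) e) e)) (c (c (c (c (c (p (nat_lit
  0xcdebe2)) e) e) e) e) e)) (c (c (c (c (c (c (p (nat_lit 0xcdebd6)) e) e) e) e) e) e)) (c (c (c (c (c (c (c
  (m (nat_lit 0x4566b94)) e) e) e) e) e) e) e)) (c (c (c (c (c (c (c (c (m (nat_lit 0x1cda9e4)) e) e) e) e)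
  e) e) e) e)) (c (c (c (c (c (c (c (c (c (p (nat_lit 0x2868312)) e) e) e) e) e) e) e) e) e)))))

noncomputable def gt_0_0_1 : Tr :=
  (c (c (c (c (c (c (c (c (c (p (nat_lit 0x1d34f4e)) (c (m (nat_lit 0x34562a0)) (c (p (nat_lit 0x17ae01c))
  e))) (c (c (m (nat_lit 0x1e6f06c)) (c (p (nat_lit 0x7129f8)) e)) (c (c (p (nat_lit 0x1016b9e)) e) e))) (c
  (c (c (m (nat_lit 0x279b586)) (c (p (nat_lit 0x712a52)) e)) (c (c (m (nat_lit 0x4f5e1c)) e) e)) (c (c (c (p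
  (nat_lit 0x1016b9e)) e) e) e))) (c (c (c (c (p (nat_lit 0x406d202)) (c (m (nat_lit 0x252b466)) (c (p
  (nat_lit 0x6418ff8)) e))) (c (c (m (nat_lit 0x3cc5526)) (c (p (nat_lit 0x2f5806)) e)) (c (c (m (nat_lit
  0x8d216c)) e) e))) (c (c (c (m (nat_lit 0x2d1cb3c)) (c (p (nat_lit 0x2f575e)) e)) (c (c (p (nat_lit
  0xb1a1e8)) e) e)) (c (c (c (m (nat_lit 0x8d2142)) e) e) e))) (c (c (c (c (m (nat_lit 0xbb0488)) (c (p
  (nat_lit 0x2937a20)) (c (m (nat_lit 0x24f315c)) e))) (c (c (p (nat_lit 0xced168)) (c (m (nat_lit 0x40e14a))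
  e)) (c (c (p (nat_lit 0x43ba44)) e) e))) (c (c (c (p (nat_lit 0xced180)) (c (m (nat_lit 0x40e150)) e)) (c
  (c (p (nat_lit 0x1b4d4)) e) e)) (c (c (c (p (nat_lit 0x43ba44)) e) e) e))) e))) (c (c (c (c (c (m (nat_lit
  0x1fd91fc)) (c (p (nat_lit 0x20f2476)) (c (p (nat_lit 0x7debd8)) e))) (c (c (p (nat_lit 0x218225a)) (c (p
  (nat_lit 0x14dc6c6)) e)) (c (c (m (nat_lit 0x46e0f6)) e) e))) (c (c (c (p (nat_lit 0x246cd44)) (c (m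
  (nat_lit 0x104e908)) e)) (c (c (p (nat_lit 0xac014)) e) e)) (c (c (c (p (nat_lit 0x1a0d72)) e) e) e))) (c
  (c (c (c (m (nat_lit 0x310284)) (c (p (nat_lit 0x81a8c0)) (c (m (nat_lit 0x1bf2bb0)) e))) (c (c (p (nat_lit
  0xc7920)) (c (m (nat_lit 0x37d5ce)) e)) (c (c (m (nat_lit 0x17ca0c)) e) e))) (c (c (c (m (nat_lit
  0x37d400)) (c (p (nat_lit 0x6c07f8)) e)) (c (c (p (nat_lit 0x2793cc)) e) e)) (c (c (c (m (nat_lit 0xcf18c))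
  e) e) e))) e)) (c (c (c (c (c (p (nat_lit 0x36320a)) (c (m (nat_lit 0x223b084)) (c (p (nat_lit 0x1e03798))
  e))) (c (c (m (nat_lit 0x95bdac)) (c (m (nat_lit 0x37b204)) e)) (c (c (p (nat_lit 0xca80cc)) e) e))) (c (c
  (c (m (nat_lit 0xb9d09c)) (c (m (nat_lit 0x76620)) e)) (c (c (m (nat_lit 0xbfa900)) e) e)) (c (c (c (p
  (nat_lit 0x6fdf0e)) e) e) e))) e) e))) (c (c (c (c (c (c (m (nat_lit 0x1d296fe)) (c (p (nat_lit 0x17304ea))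
  (c (p (nat_lit 0x7dec8c)) e))) (c (c (p (nat_lit 0x32f37ba)) (c (m (nat_lit 0x104e998)) e)) (c (c (p
  (nat_lit 0x1a0dc0)) e) e))) (c (c (c (p (nat_lit 0x219eb98)) (c (p (nat_lit 0x14dc6de)) e)) (c (c (p
  (nat_lit 0xabedc)) e) e)) (c (c (c (m (nat_lit 0x46e0a8)) e) e) e))) (c (c (c (c (m (nat_lit 0x3100a4)) (c
  (p (nat_lit 0x81a77c)) (c (m (nat_lit 0x1bf2ba4)) e))) (c (c (m (nat_lit 0x37d550)) (c (p (nat_lit
  0x6c0822)) e)) (c (c (m (nat_lit 0xcf1d4)) e) e))) (c (c (c (p (nat_lit 0xc7740)) (c (m (nat_lit 0x37d5e0))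
  e)) (c (c (p (nat_lit 0x2794d4)) e) e)) (c (c (c (m (nat_lit 0x17ca2a)) e) e) e))) e)) (c (c (c (c (c (p
  (nat_lit 0x1765410)) (c (m (nat_lit 0x280a184)) (c (p (nat_lit 0x131e770)) e))) (c (c (m (nat_lit
  0xaa24ca)) (c (p (nat_lit 0xe9386e)) e)) (c (c (m (nat_lit 0xc4e5b8)) e) e))) (c (c (c (m (nat_lit
  0xaa255a)) (c (p (nat_lit 0xe93856)) e)) (c (c (p (nat_lit 0x73a0e8)) e) e)) (c (c (c (m (nat_lit
  0xc4e594)) e) e) e))) e) e)) (c (c (c (c (c (c (p (nat_lit 0x3631e6)) (c (m (nat_lit 0x223afa0)) (c (p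
  (nat_lit 0x1e03738)) e))) (c (c (m (nat_lit 0xb9d08a)) (c (m (nat_lit 0x76632)) e)) (c (c (p (nat_lit
  0x6fdf26)) e) e))) (c (c (c (m (nat_lit 0x95bd58)) (c (m (nat_lit 0x37b216)) e)) (c (c (m (nat_lit
  0xbfa8e8)) e) e)) (c (c (c (p (nat_lit 0xca80c6)) e) e) e))) e) e) e))) (c (c (c (c (c (c (c (m (nat_lit
  0xe12f34)) (c (p (nat_lit 0x2c56026)) (c (m (nat_lit 0x2756100)) e))) (c (c (p (nat_lit 0xd16160)) (c (p
  (nat_lit 0x8916f6)) e)) (c (c (m (nat_lit 0x7a492a)) e) e))) (c (c (c (p (nat_lit 0x142bb4)) (c (m (nat_lit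
  0x11da80)) e)) (c (c (m (nat_lit 0x8e2d98)) e) e)) (c (c (c (m (nat_lit 0x12cd824)) e) e) e))) (c (c (c (c
  (p (nat_lit 0x6f97bc)) (c (p (nat_lit 0x3081bfa)) (c (m (nat_lit 0x20a1dac)) e))) (c (c (p (nat_lit
  0x33ac8fc)) (c (m (nat_lit 0x662dc6)) e)) (c (c (p (nat_lit 0x8a77a0)) e) e))) (c (c (c (p (nat_lit
  0x40356f0)) (c (p (nat_lit 0x33678c)) e)) (c (c (m (nat_lit 0x344c70)) e) e)) (c (c (c (p (nat_lit
  0x3dee3a)) e) e) e))) (c (c (c (c (p (nat_lit 0x45819c)) (c (p (nat_lit 0x610f86)) e)) (c (c (m (nat_lit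
  0x9ff14a)) e) e)) (c (c (c (m (nat_lit 0x94356c)) e) e) e)) e))) (c (c (c (c (c (m (nat_lit 0x20a5f1c)) (c
  (m (nat_lit 0x2076576)) (c (p (nat_lit 0xc3426c)) e))) (c (c (p (nat_lit 0x546f24)) (c (p (nat_lit
  0x83e8c)) e)) (c (c (m (nat_lit 0xb0208)) e) e))) (c (c (c (p (nat_lit 0x1f48f50)) (c (p (nat_lit
  0x3cd782)) e)) (c (c (p (nat_lit 0x82bba0)) e) e)) (c (c (c (p (nat_lit 0x608b86)) e) e) e))) (c (c (c (c
  (m (nat_lit 0x1504fc8)) (c (p (nat_lit 0x3d15bc)) e)) (c (c (m (nat_lit 0xa21c8)) e) e)) (c (c (c (p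
  (nat_lit 0xa8a95c)) e) e) e)) e)) (c (c (c (c (c (p (nat_lit 0xd4fc1c)) (c (m (nat_lit 0x4696aa)) e)) (c (c
  (p (nat_lit 0x365112)) e) e)) (c (c (c (m (nat_lit 0xf556ec)) e) e) e)) e) e))) (c (c (c (c (c (c (m
  (nat_lit 0x5464da6)) (c (p (nat_lit 0x44c95b0)) (c (m (nat_lit 0x34827cc)) e))) (c (c (m (nat_lit
  0x1c5daca)) (c (p (nat_lit 0x28eeee)) e)) (c (c (m (nat_lit 0x6b42b8)) e) e))) (c (c (c (p (nat_lit
  0x2dda172)) (c (m (nat_lit 0xadbb12)) e)) (c (c (p (nat_lit 0x9ad208)) e) e)) (c (c (c (p (nat_lit 0x9be2))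
  e) e) e))) (c (c (c (c (m (nat_lit 0x487362)) (c (p (nat_lit 0xcf2a60)) e)) (c (c (p (nat_lit 0x53accc)) e)
  e)) (c (c (c (p (nat_lit 0x7ef57c)) e) e) e)) e)) (c (c (c (c (c (m (nat_lit 0x4d89b6)) (c (m (nat_lit
  0x3d26d8)) e)) (c (c (p (nat_lit 0x5d1ddc)) e) e)) (c (c (c (p (nat_lit 0x5a3960)) e) e) e)) e) e)) (c (c
  (c (c (c (c (p (nat_lit 0xc4d754)) (c (m (nat_lit 0x6e2a1c)) e)) (c (c (p (nat_lit 0x402a8)) e) e)) (c (c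
  (c (m (nat_lit 0x11ee54)) e) e) e)) e) e) e))) (c (c (c (c (c (c (c (p (nat_lit 0x374bb96)) (c (m (nat_lit
  0x1e14616)) (c (p (nat_lit 0x239c1c)) e))) (c (c (p (nat_lit 0xf1e41a)) (c (m (nat_lit 0x27ecac)) e)) (c (c
  (m (nat_lit 0x962544)) e) e))) (c (c (c (m (nat_lit 0x4cc7250)) (c (m (nat_lit 0x2225d0)) e)) (c (c (p
  (nat_lit 0x6b4168)) e) e)) (c (c (c (m (nat_lit 0x5d2ee)) e) e) e))) (c (c (c (c (m (nat_lit 0x45e528a)) (c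
  (m (nat_lit 0x16d0472)) e)) (c (c (m (nat_lit 0x1430a00)) e) e)) (c (c (c (m (nat_lit 0x232cfec)) e) e) e))
  (c (c (c (c (p (nat_lit 0x1494d8)) e) e) e) e))) (c (c (c (c (c (p (nat_lit 0x655ac9a)) (c (p (nat_lit
  0x113fa42)) e)) (c (c (m (nat_lit 0x209610)) e) e)) (c (c (c (m (nat_lit 0x132aeb4)) e) e) e)) (c (c (c (c
  (p (nat_lit 0xbf86e0)) e) e) e) e)) (c (c (c (c (c (m (nat_lit 0x3e5d8e)) e) e) e) e) e))) (c (c (c (c (c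
  (c (p (nat_lit 0x4a7ff72)) (c (m (nat_lit 0x13b8bbc)) e)) (c (c (p (nat_lit 0x89d4a4)) e) e)) (c (c (c (m
  (nat_lit 0x3065760)) e) e) e)) (c (c (c (c (p (nat_lit 0x25f4b8)) e) e) e) e)) (c (c (c (c (c (p (nat_lit
  0x44deac)) e) e) e) e) e)) (c (c (c (c (c (c (m (nat_lit 0xd23540)) e) e) e) e) e) e))) (c (c (c (c (c (c
  (c (m (nat_lit 0x3ece68)) (c (p (nat_lit 0x2676072)) e)) (c (c (p (nat_lit 0x3e2a4)) e) e)) (c (c (c (p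
  (nat_lit 0x535bcc0)) e) e) e)) (c (c (c (c (p (nat_lit 0x1c12d0a)) e) e) e) e)) (c (c (c (c (c (m (nat_lit
  0x4afc760)) e) e) e) e) e)) (c (c (c (c (c (c (m (nat_lit 0x112afb8)) e) e) e) e) e) e)) (c (c (c (c (c (c
  (c (m (nat_lit 0x1ff7b50)) e) e) e) e) e) e) e))))) (c (c (c (c (c (c (c (c (m (nat_lit 0x79c6c2)) (c (p
  (nat_lit 0x24426e4)) (c (m (nat_lit 0x27560a0)) e))) (c (c (p (nat_lit 0x197031c)) (c (m (nat_lit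
  0x11da7a)) e)) (c (c (m (nat_lit 0x12cd7c4)) e) e))) (c (c (c (p (nat_lit 0x28cfaee)) (c (p (nat_lit
  0x8916c6)) e)) (c (c (m (nat_lit 0x8e2da4)) e) e)) (c (c (c (m (nat_lit 0x7a48d6)) e) e) e))) (c (c (c (c
  (p (nat_lit 0xc6b0b2)) (c (p (nat_lit 0x18056e2)) (c (m (nat_lit 0x20a1e24)) e))) (c (c (p (nat_lit
  0x3642ada)) (c (p (nat_lit 0x3367b0)) e)) (c (c (p (nat_lit 0x3dee22)) e) e))) (c (c (c (p (nat_lit
  0x3adf6a)) (c (m (nat_lit 0x662dae)) e)) (c (c (m (nat_lit 0x344c70)) e) e)) (c (c (c (p (nat_lit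
  0x8a7788)) e) e) e))) (c (c (c (c (p (nat_lit 0x458160)) (c (p (nat_lit 0x610f7a)) e)) (c (c (m (nat_lit
  0x94356c)) e) e)) (c (c (c (m (nat_lit 0x9ff144)) e) e) e)) e))) (c (c (c (c (c (m (nat_lit 0xe408a6)) (c
  (p (nat_lit 0x2b2cf60)) (c (m (nat_lit 0x3482748)) e))) (c (c (m (nat_lit 0x296b0da)) (c (m (nat_lit
  0xadbb54)) e)) (c (c (p (nat_lit 0x9bd0)) e) e))) (c (c (c (m (nat_lit 0x4f0c2)) (c (p (nat_lit 0x28ee9a))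
  e)) (c (c (p (nat_lit 0x9ad370)) e) e)) (c (c (c (m (nat_lit 0x6b42b2)) e) e) e))) (c (c (c (c (m (nat_lit
  0x487320)) (c (p (nat_lit 0xcf2a1e)) e)) (c (c (p (nat_lit 0x7ef4f8)) e) e)) (c (c (c (p (nat_lit
  0x53acd2)) e) e) e)) e)) (c (c (c (c (c (p (nat_lit 0xc4d766)) (c (m (nat_lit 0x6e2a28)) e)) (c (c (m
  (nat_lit 0x11ee54)) e) e)) (c (c (c (p (nat_lit 0x402ae)) e) e) e)) e) e))) (c (c (c (c (c (c (p (nat_lit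
  0x23ea058)) (c (m (nat_lit 0x81b55c)) (c (p (nat_lit 0xc342c0)) e))) (c (c (p (nat_lit 0x2b9afa)) (c (p
  (nat_lit 0x3cd7b2)) e)) (c (c (p (nat_lit 0x608b62)) e) e))) (c (c (c (m (nat_lit 0x606ada)) (c (p (nat_lit
  0x83ea4)) e)) (c (c (p (nat_lit 0x82bb94)) e) e)) (c (c (c (m (nat_lit 0xb0244)) e) e) e))) (c (c (c (c (m
  (nat_lit 0x1504fd4)) (c (p (nat_lit 0x3d15b6)) e)) (c (c (p (nat_lit 0xa8a9b0)) e) e)) (c (c (c (m (nat_lit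
  0xa21f8)) e) e) e)) e)) (c (c (c (c (c (m (nat_lit 0x4d89a4)) (c (m (nat_lit 0x3d2726)) e)) (c (c (p
  (nat_lit 0x5a39fc)) e) e)) (c (c (c (p (nat_lit 0x5d1dd6)) e) e) e)) e) e)) (c (c (c (c (c (c (p (nat_lit
  0xd4fbf8)) (c (m (nat_lit 0x46969e)) e)) (c (c (m (nat_lit 0xf556e0)) e) e)) (c (c (c (p (nat_lit
  0x365100)) e) e) e)) e) e) e))) (c (c (c (c (c (c (c (m (nat_lit 0x1fab3f8)) (c (m (nat_lit 0x6f41ca6)) (c
  (p (nat_lit 0x4a1450c)) e))) (c (c (m (nat_lit 0x2d97050)) (c (m (nat_lit 0xf1bfc)) e)) (c (c (p (nat_lit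
  0xb95392)) e) e))) (c (c (c (m (nat_lit 0x3926772)) (c (m (nat_lit 0xf1be4)) e)) (c (c (m (nat_lit
  0x7daa44)) e) e)) (c (c (c (p (nat_lit 0xb9538c)) e) e) e))) (c (c (c (c (m (nat_lit 0x2024682)) (c (p
  (nat_lit 0x4cf0c8)) e)) (c (c (m (nat_lit 0x1d0897a)) e) e)) (c (c (c (m (nat_lit 0xd5fe82)) e) e) e)) (c
  (c (c (c (m (nat_lit 0x191f37c)) e) e) e) e))) (c (c (c (c (c (m (nat_lit 0x163f326)) (c (p (nat_lit
  0x330eb2)) e)) (c (c (p (nat_lit 0x60090c)) e) e)) (c (c (c (m (nat_lit 0x15bde8e)) e) e) e)) (c (c (c (c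
  (p (nat_lit 0x1a1060)) e) e) e) e)) (c (c (c (c (c (p (nat_lit 0xf752f4)) e) e) e) e) e))) (c (c (c (c (c
  (c (m (nat_lit 0x2db95a4)) (c (m (nat_lit 0x6911a6)) e)) (c (c (m (nat_lit 0x737652)) e) e)) (c (c (c (p
  (nat_lit 0x61d058)) e) e) e)) (c (c (c (c (p (nat_lit 0x1a103c)) e) e) e) e)) (c (c (c (c (c (p (nat_lit
  0x400704)) e) e) e) e) e)) (c (c (c (c (c (c (p (nat_lit 0xf752e8)) e) e) e) e) e) e))) (c (c (c (c (c (c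
  (c (p (nat_lit 0x2cd5d90)) (c (p (nat_lit 0xf74e8)) e)) (c (c (p (nat_lit 0xef6e44)) e) e)) (c (c (c (p
  (nat_lit 0xbca1c8)) e) e) e)) (c (c (c (c (p (nat_lit 0x1f63d3a)) e) e) e) e)) (c (c (c (c (c (p (nat_lit
  0x2239d34)) e) e) e) e) e)) (c (c (c (c (c (c (p (nat_lit 0x55bb40)) e) e) e) e) e) e)) (c (c (c (c (c (c
  (c (m (nat_lit 0x18fa506)) e) e) e) e) e) e) e)))) (c (c (c (c (c (c (c (c (m (nat_lit 0x893e80)) (c (p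
  (nat_lit 0x157a65e)) (c (p (nat_lit 0x239c04)) e))) (c (c (m (nat_lit 0x1affd00)) (c (m (nat_lit 0x2225ca))
  e)) (c (c (m (nat_lit 0x5d2f4)) e) e))) (c (c (c (m (nat_lit 0x57ef3a)) (c (m (nat_lit 0x27ec94)) e)) (c (c
  (p (nat_lit 0x6b4168)) e) e)) (c (c (c (m (nat_lit 0x962550)) e) e) e))) (c (c (c (c (m (nat_lit
  0x3c2b8e4)) (c (p (nat_lit 0x1ac16c)) e)) (c (c (m (nat_lit 0x991878)) e) e)) (c (c (c (p (nat_lit
  0xc254ac)) e) e) e)) (c (c (c (c (p (nat_lit 0x1494d2)) e) e) e) e))) (c (c (c (c (c (p (nat_lit 0x5775c0))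
  (c (m (nat_lit 0x3de660)) e)) (c (c (p (nat_lit 0x26fbf2c)) e) e)) (c (c (c (m (nat_lit 0x4eafd4)) e) e)
  e)) (c (c (c (c (p (nat_lit 0x25f494)) e) e) e) e)) (c (c (c (c (c (m (nat_lit 0xd23546)) e) e) e) e) e)))
  (c (c (c (c (c (c (m (nat_lit 0x3168df8)) (c (p (nat_lit 0x2a69ae)) e)) (c (c (m (nat_lit 0x5224c8)) e) e))
  (c (c (c (p (nat_lit 0x927d1a)) e) e) e)) (c (c (c (c (p (nat_lit 0xbf86f8)) e) e) e) e)) (c (c (c (c (c (p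
  (nat_lit 0x44dea0)) e) e) e) e) e)) (c (c (c (c (c (c (m (nat_lit 0x3e5d94)) e) e) e) e) e) e))) (c (c (c
  (c (c (c (c (p (nat_lit 0x6aff2d8)) (c (p (nat_lit 0x1418c4)) e)) (c (c (p (nat_lit 0x1052e08)) e) e)) (c
  (c (c (p (nat_lit 0x15e2bfc)) e) e) e)) (c (c (c (c (p (nat_lit 0x343f5c6)) e) e) e) e)) (c (c (c (c (c (m
  (nat_lit 0xe83d1c)) e) e) e) e) e)) (c (c (c (c (c (c (p (nat_lit 0x2884566)) e) e) e) e) e) e)) (c (c (c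
  (c (c (c (c (m (nat_lit 0x37ec936)) e) e) e) e) e) e) e))) (c (c (c (c (c (c (c (c (p (nat_lit 0xcb5efc))
  (c (m (nat_lit 0x5052ae)) e)) (c (c (p (nat_lit 0x3ab00)) e) e)) (c (c (c (p (nat_lit 0x24e20e)) e) e) e))
  (c (c (c (c (p (nat_lit 0xce7bb8)) e) e) e) e)) (c (c (c (c (c (m (nat_lit 0xf966d8)) e) e) e) e) e)) (c (c
  (c (c (c (c (p (nat_lit 0x487704)) e) e) e) e) e) e)) (c (c (c (c (c (c (c (m (nat_lit 0x2af4842)) e) e) e)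
  e) e) e) e)) (c (c (c (c (c (c (c (c (p (nat_lit 0x8ce81e)) e) e) e) e) e) e) e) e))))) (c (c (c (c (c (c
  (c (c (c (m (nat_lit 0x87efe2)) (c (p (nat_lit 0x4471386)) (c (p (nat_lit 0x22d40c)) e))) (c (c (p (nat_lit
  0x27b6a3c)) (c (m (nat_lit 0x14ee4f8)) e)) (c (c (p (nat_lit 0x477b34)) e) e))) (c (c (c (p (nat_lit
  0x1f54086)) (c (m (nat_lit 0x14ee4f2)) e)) (c (c (p (nat_lit 0x17228a0)) e) e)) (c (c (c (p (nat_lit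
  0x477b34)) e) e) e))) (c (c (c (c (m (nat_lit 0x3066f54)) (c (m (nat_lit 0x934af5e)) (c (p (nat_lit
  0x65a0e64)) e))) (c (c (p (nat_lit 0x432d8c)) (c (p (nat_lit 0x141e112)) e)) (c (c (m (nat_lit 0x46b6c)) e)
  e))) (c (c (c (m (nat_lit 0xb75bce)) (c (p (nat_lit 0x141e10c)) e)) (c (c (m (nat_lit 0xc1503c)) e) e)) (c
  (c (c (m (nat_lit 0x46b8a)) e) e) e))) (c (c (c (c (p (nat_lit 0x5fd0c0)) (c (m (nat_lit 0x536b20)) e)) (c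
  (c (m (nat_lit 0x104f8c8)) e) e)) (c (c (c (m (nat_lit 0x104f8e0)) e) e) e)) e))) (c (c (c (c (c (p
  (nat_lit 0x1c94d2a)) (c (m (nat_lit 0x1a703ba)) (c (m (nat_lit 0x92a258)) e))) (c (c (m (nat_lit 0x71fa84))
  (c (m (nat_lit 0x1408a4)) e)) (c (c (m (nat_lit 0x1b85fe)) e) e))) (c (c (c (m (nat_lit 0x17f6502)) (c (p
  (nat_lit 0x56f8e)) e)) (c (c (m (nat_lit 0x743f1c)) e) e)) (c (c (c (m (nat_lit 0x31c830)) e) e) e))) (c (c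
  (c (c (m (nat_lit 0x4164de)) (c (p (nat_lit 0x31a0a0)) e)) (c (c (p (nat_lit 0x11b3cb0)) e) e)) (c (c (c (p
  (nat_lit 0x10ac2a4)) e) e) e)) e)) (c (c (c (c (c (p (nat_lit 0x1ba9bfc)) (c (m (nat_lit 0x4e3cc)) e)) (c
  (c (m (nat_lit 0xd7769c)) e) e)) (c (c (c (m (nat_lit 0x437484)) e) e) e)) e) e))) (c (c (c (c (c (c (p
  (nat_lit 0xa9d928)) (c (m (nat_lit 0x10ae46a)) (c (m (nat_lit 0x92a1ec)) e))) (c (c (m (nat_lit 0x267ce58))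
  (c (p (nat_lit 0x56fa0)) e)) (c (c (m (nat_lit 0x31c842)) e) e))) (c (c (c (m (nat_lit 0x73c212)) (c (m
  (nat_lit 0x1408bc)) e)) (c (c (m (nat_lit 0x743f28)) e) e)) (c (c (c (m (nat_lit 0x1b8622)) e) e) e))) (c
  (c (c (c (m (nat_lit 0x416532)) (c (p (nat_lit 0x31a0c4)) e)) (c (c (p (nat_lit 0x10ac2bc)) e) e)) (c (c (c
  (p (nat_lit 0x11b3cbc)) e) e) e)) e)) (c (c (c (c (c (m (nat_lit 0xe74ef6)) (c (m (nat_lit 0x5460c)) e)) (c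
  (c (p (nat_lit 0xb9f130)) e) e)) (c (c (c (p (nat_lit 0xb9f130)) e) e) e)) e) e)) (c (c (c (c (c (c (p
  (nat_lit 0x1ba9bcc)) (c (m (nat_lit 0x4e3b4)) e)) (c (c (m (nat_lit 0x437478)) e) e)) (c (c (c (m (nat_lit
  0xd776a8)) e) e) e)) e) e) e))) (c (c (c (c (c (c (c (m (nat_lit 0x1447fc2)) (c (m (nat_lit 0x32d1824)) (c
  (p (nat_lit 0xc87df8)) e))) (c (c (m (nat_lit 0x1afccfa)) (c (p (nat_lit 0x28565a)) e)) (c (c (p (nat_lit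
  0x346548)) e) e))) (c (c (c (p (nat_lit 0x152a7e0)) (c (p (nat_lit 0x70b060)) e)) (c (c (m (nat_lit
  0x2cf370)) e) e)) (c (c (c (p (nat_lit 0x586ec0)) e) e) e))) (c (c (c (c (p (nat_lit 0x4475c10)) (c (m
  (nat_lit 0xed8cb2)) e)) (c (c (m (nat_lit 0x103249e)) e) e)) (c (c (c (m (nat_lit 0x7195b0)) e) e) e)) (c
  (c (c (c (p (nat_lit 0xc923a0)) e) e) e) e))) (c (c (c (c (c (m (nat_lit 0x16d6472)) (c (p (nat_lit
  0x151b1f2)) e)) (c (c (m (nat_lit 0x1c56a8)) e) e)) (c (c (c (p (nat_lit 0x759534)) e) e) e)) (c (c (c (c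
  (m (nat_lit 0x26b14c)) e) e) e) e)) (c (c (c (c (c (m (nat_lit 0x6ada0c)) e) e) e) e) e))) (c (c (c (c (c
  (c (m (nat_lit 0xc7babc)) (c (p (nat_lit 0x1186f5c)) e)) (c (c (p (nat_lit 0x1e9db84)) e) e)) (c (c (c (m
  (nat_lit 0x162d896)) e) e) e)) (c (c (c (c (m (nat_lit 0x80f2a4)) e) e) e) e)) (c (c (c (c (c (p (nat_lit
  0x108858)) e) e) e) e) e)) (c (c (c (c (c (c (p (nat_lit 0x19bce4)) e) e) e) e) e) e))) (c (c (c (c (c (c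
  (c (m (nat_lit 0x39e055c)) (c (m (nat_lit 0xd36d22)) e)) (c (c (p (nat_lit 0xf07a4)) e) e)) (c (c (c (m
  (nat_lit 0xda630a)) e) e) e)) (c (c (c (c (m (nat_lit 0xdde404)) e) e) e) e)) (c (c (c (c (c (m (nat_lit
  0xb99382)) e) e) e) e) e)) (c (c (c (c (c (c (p (nat_lit 0xe2d712)) e) e) e) e) e) e)) (c (c (c (c (c (c (c
  (p (nat_lit 0x269855a)) e) e) e) e) e) e) e)))) (c (c (c (c (c (c (c (c (m (nat_lit 0x2c9ab2e)) (c (m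
  (nat_lit 0x351bc2e)) (c (p (nat_lit 0xc87dbc)) e))) (c (c (m (nat_lit 0x20c43c)) (c (p (nat_lit 0x70b066))
  e)) (c (c (p (nat_lit 0x586eae)) e) e))) (c (c (c (m (nat_lit 0x443cca)) (c (p (nat_lit 0x28566c)) e)) (c
  (c (m (nat_lit 0x2cf370)) e) e)) (c (c (c (p (nat_lit 0x346542)) e) e) e))) (c (c (c (c (p (nat_lit
  0x2245c92)) (c (m (nat_lit 0x5709c)) e)) (c (c (p (nat_lit 0x5cf8a4)) e) e)) (c (c (c (p (nat_lit
  0xc5f496)) e) e) e)) (c (c (c (c (p (nat_lit 0xc923b8)) e) e) e) e))) (c (c (c (c (c (m (nat_lit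
  0x210340e)) (c (p (nat_lit 0xe02d10)) e)) (c (c (m (nat_lit 0x1803aa4)) e) e)) (c (c (c (p (nat_lit
  0xebff56)) e) e) e)) (c (c (c (c (m (nat_lit 0x80f274)) e) e) e) e)) (c (c (c (c (c (p (nat_lit 0x19bcfc))
  e) e) e) e) e))) (c (c (c (c (c (c (m (nat_lit 0x1a0bf86)) (c (p (nat_lit 0x7d4e2e)) e)) (c (c (p (nat_lit
  0x602244)) e) e)) (c (c (c (m (nat_lit 0x37f17c)) e) e) e)) (c (c (c (c (m (nat_lit 0x26b158)) e) e) e) e))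
  (c (c (c (c (c (p (nat_lit 0x108840)) e) e) e) e) e)) (c (c (c (c (c (c (m (nat_lit 0x6ad9f4)) e) e) e) e)
  e) e))) (c (c (c (c (c (c (c (p (nat_lit 0x7649502)) (c (p (nat_lit 0x1c398ba)) e)) (c (c (p (nat_lit
  0xcc2c28)) e) e)) (c (c (c (m (nat_lit 0x4166b8)) e) e) e)) (c (c (c (c (m (nat_lit 0x14e9fd4)) e) e) e)
  e)) (c (c (c (c (c (p (nat_lit 0x1a2b8ac)) e) e) e) e) e)) (c (c (c (c (c (c (p (nat_lit 0x16c3d16)) e) e)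
  e) e) e) e)) (c (c (c (c (c (c (c (m (nat_lit 0xe8df70)) e) e) e) e) e) e) e))) (c (c (c (c (c (c (c (c (p
  (nat_lit 0xc27c30)) (c (m (nat_lit 0x7d6c58)) e)) (c (c (m (nat_lit 0x412680)) e) e)) (c (c (c (m (nat_lit
  0xa2fba6)) e) e) e)) (c (c (c (c (m (nat_lit 0x10b0b94)) e) e) e) e)) (c (c (c (c (c (p (nat_lit
  0x13962f0)) e) e) e) e) e)) (c (c (c (c (c (c (m (nat_lit 0x22356c)) e) e) e) e) e) e)) (c (c (c (c (c (c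
  (c (m (nat_lit 0x26e2534)) e) e) e) e) e) e) e)) (c (c (c (c (c (c (c (c (p (nat_lit 0x5a6366)) e) e) e) e)
  e) e) e) e)))) (c (c (c (c (c (c (c (c (c (m (nat_lit 0x3eeb12c)) (c (p (nat_lit 0x3f92af6)) (c (m (nat_lit
  0x3dc9974)) e))) (c (c (m (nat_lit 0xdc1598)) (c (m (nat_lit 0x5d25d4)) e)) (c (c (m (nat_lit 0x5d2c10)) e)
  e))) (c (c (c (p (nat_lit 0x3cd8cc)) (c (m (nat_lit 0x5d25d4)) e)) (c (c (m (nat_lit 0x13353c)) e) e)) (c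
  (c (c (m (nat_lit 0x5d2c0a)) e) e) e))) (c (c (c (c (p (nat_lit 0x2011bde)) (c (p (nat_lit 0x120453c)) e))
  (c (c (p (nat_lit 0x804c3c)) e) e)) (c (c (c (p (nat_lit 0x804c48)) e) e) e)) (c (c (c (c (m (nat_lit
  0x29e61a)) e) e) e) e))) (c (c (c (c (c (m (nat_lit 0x190df46)) (c (p (nat_lit 0x5bba14)) e)) (c (c (p
  (nat_lit 0x15fc75c)) e) e)) (c (c (c (p (nat_lit 0x539b98)) e) e) e)) (c (c (c (c (p (nat_lit 0x32ff10)) e)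
  e) e) e)) (c (c (c (c (c (m (nat_lit 0x1122d5c)) e) e) e) e) e))) (c (c (c (c (c (c (m (nat_lit 0x9c6828))
  (c (p (nat_lit 0x5bba14)) e)) (c (c (p (nat_lit 0x539b98)) e) e)) (c (c (c (p (nat_lit 0x15fc774)) e) e)
  e)) (c (c (c (c (p (nat_lit 0x32ff2e)) e) e) e) e)) (c (c (c (c (c (p (nat_lit 0xc7ea20)) e) e) e) e) e))
  (c (c (c (c (c (c (m (nat_lit 0x1122d7a)) e) e) e) e) e) e))) (c (c (c (c (c (c (c (p (nat_lit 0x3341aa2))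
  (c (p (nat_lit 0xaedc3e)) e)) (c (c (m (nat_lit 0x31a4a8)) e) e)) (c (c (c (m (nat_lit 0x76d0be)) e) e) e))
  (c (c (c (c (m (nat_lit 0x2c9ff52)) e) e) e) e)) (c (c (c (c (c (p (nat_lit 0x1e204ba)) e) e) e) e) e)) (c
  (c (c (c (c (c (p (nat_lit 0x211a6a)) e) e) e) e) e) e)) (c (c (c (c (c (c (c (p (nat_lit 0x1e41232)) e) e)
  e) e) e) e) e))) (c (c (c (c (c (c (c (c (p (nat_lit 0x23bf0ec)) (c (p (nat_lit 0xb6fd84)) e)) (c (c (m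
  (nat_lit 0x3db390)) e) e)) (c (c (c (m (nat_lit 0x1117632)) e) e) e)) (c (c (c (c (m (nat_lit 0x1cd9a4e))
  e) e) e) e)) (c (c (c (c (c (p (nat_lit 0xc88ce)) e) e) e) e) e)) (c (c (c (c (c (c (p (nat_lit 0xd8fbee))
  e) e) e) e) e) e)) (c (c (c (c (c (c (c (m (nat_lit 0x3767e20)) e) e) e) e) e) e) e)) (c (c (c (c (c (c (c
  (c (p (nat_lit 0x12c64b6)) e) e) e) e) e) e) e) e))) (c (c (c (c (c (c (c (c (c (m (nat_lit 0x274512)) (c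
  (p (nat_lit 0x1ed158)) e)) (c (c (p (nat_lit 0x81c630)) e) e)) (c (c (c (p (nat_lit 0x81c63c)) e) e) e)) (c
  (c (c (c (p (nat_lit 0xb37750)) e) e) e) e)) (c (c (c (c (c (p (nat_lit 0x62cc52)) e) e) e) e) e)) (c (c (c
  (c (c (c (p (nat_lit 0x62cc76)) e) e) e) e) e) e)) (c (c (c (c (c (c (c (m (nat_lit 0x1c102a4)) e) e) e) e)
  e) e) e)) (c (c (c (c (c (c (c (c (m (nat_lit 0xac4cd6)) e) e) e) e) e) e) e) e)) (c (c (c (c (c (c (c (c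
  (c (p (nat_lit 0x483d8c)) e) e) e) e) e) e) e) e) e)))))

noncomputable def gt_0_0_2 : Tr :=
  (c (c (c (c (c (c (c (c (c (p (nat_lit 0x1d3588a)) (c (m (nat_lit 0x1e6f96c)) (c (p (nat_lit 0x1016b6e))
  e))) (c (c (m (nat_lit 0x3456216)) (c (p (nat_lit 0x712a28)) e)) (c (c (p (nat_lit 0x17adfc2)) e) e))) (c
  (c (c (m (nat_lit 0x279b478)) (c (m (nat_lit 0x4f5e10)) e)) (c (c (p (nat_lit 0x7129d4)) e) e)) (c (c (c (p
  (nat_lit 0x1016bb6)) e) e) e))) (c (c (c (c (m (nat_lit 0x1fdb500)) (c (p (nat_lit 0x218341e)) (c (m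
  (nat_lit 0x46e09c)) e))) (c (c (p (nat_lit 0x20f4138)) (c (p (nat_lit 0x14dc5dc)) e)) (c (c (p (nat_lit
  0x7debf0)) e) e))) (c (c (c (p (nat_lit 0x246d90e)) (c (p (nat_lit 0xaba38)) e)) (c (c (m (nat_lit
  0x104e986)) e) e)) (c (c (c (p (nat_lit 0x1a0e2c)) e) e) e))) (c (c (c (c (p (nat_lit 0x363198)) (c (m
  (nat_lit 0x95bd8e)) (c (p (nat_lit 0xca80c6)) e))) (c (c (m (nat_lit 0x223ae9e)) (c (m (nat_lit 0x37b20a))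
  e)) (c (c (p (nat_lit 0x1e03618)) e) e))) (c (c (c (m (nat_lit 0xb9d078)) (c (m (nat_lit 0xbfa8e8)) e)) (c
  (c (m (nat_lit 0x7664a)) e) e)) (c (c (c (p (nat_lit 0x6fdf02)) e) e) e))) e))) (c (c (c (c (c (p (nat_lit
  0x406e0f6)) (c (m (nat_lit 0x3cc5856)) (c (m (nat_lit 0x8d2142)) e))) (c (c (m (nat_lit 0x252ce22)) (c (p
  (nat_lit 0x2f5842)) e)) (c (c (p (nat_lit 0x6419226)) e) e))) (c (c (c (m (nat_lit 0x2d1da30)) (c (p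
  (nat_lit 0xb1a884)) e)) (c (c (p (nat_lit 0x2f5812)) e) e)) (c (c (c (m (nat_lit 0x8d21a2)) e) e) e))) (c
  (c (c (c (m (nat_lit 0x31007a)) (c (p (nat_lit 0xc7ec0)) (c (m (nat_lit 0x17ca24)) e))) (c (c (p (nat_lit
  0x81a086)) (c (m (nat_lit 0x37d5bc)) e)) (c (c (m (nat_lit 0x1bf2ac0)) e) e))) (c (c (c (m (nat_lit
  0x37d280)) (c (p (nat_lit 0x279330)) e)) (c (c (p (nat_lit 0x6c0852)) e) e)) (c (c (c (m (nat_lit 0xcf1d4))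
  e) e) e))) e)) (c (c (c (c (c (m (nat_lit 0xbb056c)) (c (p (nat_lit 0xced1aa)) (c (p (nat_lit 0x43ba5c))
  e))) (c (c (p (nat_lit 0x2937c18)) (c (m (nat_lit 0x40e18c)) e)) (c (c (m (nat_lit 0x24f32ca)) e) e))) (c
  (c (c (p (nat_lit 0xced20a)) (c (p (nat_lit 0x1b4bc)) e)) (c (c (m (nat_lit 0x40e186)) e) e)) (c (c (c (p
  (nat_lit 0x43ba62)) e) e) e))) e) e))) (c (c (c (c (c (c (m (nat_lit 0x1d2a022)) (c (p (nat_lit 0x32f4780))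
  (c (p (nat_lit 0x1a0dea)) e))) (c (c (p (nat_lit 0x172ffec)) (c (m (nat_lit 0x104e9ec)) e)) (c (c (p
  (nat_lit 0x7dea82)) e) e))) (c (c (c (p (nat_lit 0x219eff4)) (c (p (nat_lit 0xabd5c)) e)) (c (c (p (nat_lit
  0x14dc618)) e) e)) (c (c (c (m (nat_lit 0x46e102)) e) e) e))) (c (c (c (c (p (nat_lit 0x1765c56)) (c (m
  (nat_lit 0xaa25a2)) (c (m (nat_lit 0xc4e5c4)) e))) (c (c (m (nat_lit 0x280aa6c)) (c (p (nat_lit 0xe938f2))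
  e)) (c (c (p (nat_lit 0x131e992)) e) e))) (c (c (c (m (nat_lit 0xaa29b6)) (c (p (nat_lit 0x73a2c8)) e)) (c
  (c (p (nat_lit 0xe938e0)) e) e)) (c (c (c (m (nat_lit 0xc4e5dc)) e) e) e))) e)) (c (c (c (c (c (m (nat_lit
  0x310476)) (c (m (nat_lit 0x37d75a)) (c (m (nat_lit 0xcf1ec)) e))) (c (c (p (nat_lit 0x81abb4)) (c (p
  (nat_lit 0x6c0834)) e)) (c (c (m (nat_lit 0x1bf2a1e)) e) e))) (c (c (c (p (nat_lit 0xc79c8)) (c (p (nat_lit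
  0x279330)) e)) (c (c (m (nat_lit 0x37d592)) e) e)) (c (c (c (m (nat_lit 0x17c9f4)) e) e) e))) e) e)) (c (c
  (c (c (c (c (p (nat_lit 0x36314a)) (c (m (nat_lit 0xb9d02a)) (c (p (nat_lit 0x6fdf0e)) e))) (c (c (m
  (nat_lit 0x223add8)) (c (m (nat_lit 0x7665c)) e)) (c (c (p (nat_lit 0x1e035c4)) e) e))) (c (c (c (m
  (nat_lit 0x95bcfe)) (c (m (nat_lit 0xbfa8d0)) e)) (c (c (m (nat_lit 0x37b240)) e) e)) (c (c (c (p (nat_lit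
  0xca80de)) e) e) e))) e) e) e))) (c (c (c (c (c (c (c (m (nat_lit 0xe12e38)) (c (p (nat_lit 0xd16118)) (c
  (m (nat_lit 0x7a4924)) e))) (c (c (p (nat_lit 0x2c55cde)) (c (p (nat_lit 0x891732)) e)) (c (c (m (nat_lit
  0x2755f08)) e) e))) (c (c (c (p (nat_lit 0x142b0c)) (c (m (nat_lit 0x8e2dc8)) e)) (c (c (m (nat_lit
  0x11da20)) e) e)) (c (c (c (m (nat_lit 0x12cd812)) e) e) e))) (c (c (c (c (m (nat_lit 0x20a5f46)) (c (p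
  (nat_lit 0x546ec4)) (c (m (nat_lit 0xb0226)) e))) (c (c (m (nat_lit 0x2076528)) (c (p (nat_lit 0x83eb0))
  e)) (c (c (p (nat_lit 0xc341dc)) e) e))) (c (c (c (p (nat_lit 0x1f48db2)) (c (p (nat_lit 0x82bba0)) e)) (c
  (c (p (nat_lit 0x3cd7a0)) e) e)) (c (c (c (p (nat_lit 0x608b6e)) e) e) e))) (c (c (c (c (p (nat_lit
  0xd4fc0a)) (c (p (nat_lit 0x3650f4)) e)) (c (c (m (nat_lit 0x46966e)) e) e)) (c (c (c (m (nat_lit
  0xf556bc)) e) e) e)) e))) (c (c (c (c (c (p (nat_lit 0x6f978c)) (c (p (nat_lit 0x33ac9a4)) (c (p (nat_lit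
  0x8a778e)) e))) (c (c (p (nat_lit 0x3081dc8)) (c (m (nat_lit 0x662dc6)) e)) (c (c (m (nat_lit 0x20a1ec0))
  e) e))) (c (c (c (p (nat_lit 0x40358a0)) (c (m (nat_lit 0x344c7c)) e)) (c (c (p (nat_lit 0x336786)) e) e))
  (c (c (c (p (nat_lit 0x3dee2e)) e) e) e))) (c (c (c (c (m (nat_lit 0x1504fb6)) (c (m (nat_lit 0xa220a)) e))
  (c (c (p (nat_lit 0x3d15a4)) e) e)) (c (c (c (p (nat_lit 0xa8a908)) e) e) e)) e)) (c (c (c (c (c (p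
  (nat_lit 0x45818a)) (c (m (nat_lit 0x9ff150)) e)) (c (c (p (nat_lit 0x610f92)) e) e)) (c (c (c (m (nat_lit
  0x9435c0)) e) e) e)) e) e))) (c (c (c (c (c (c (m (nat_lit 0x54647d6)) (c (m (nat_lit 0x1c5e790)) (c (m
  (nat_lit 0x6b4288)) e))) (c (c (p (nat_lit 0x44c9b92)) (c (p (nat_lit 0x28eeee)) e)) (c (c (m (nat_lit
  0x3482676)) e) e))) (c (c (c (p (nat_lit 0x2dd9e36)) (c (p (nat_lit 0x9ad31c)) e)) (c (c (m (nat_lit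
  0xadbafa)) e) e)) (c (c (c (p (nat_lit 0x9bdc)) e) e) e))) (c (c (c (c (m (nat_lit 0x4d89b0)) (c (p
  (nat_lit 0x5d1df4)) e)) (c (c (m (nat_lit 0x3d270e)) e) e)) (c (c (c (p (nat_lit 0x5a3a38)) e) e) e)) e))
  (c (c (c (c (c (m (nat_lit 0x48737a)) (c (p (nat_lit 0x53ac9c)) e)) (c (c (p (nat_lit 0xcf2a4e)) e) e)) (c
  (c (c (p (nat_lit 0x7ef504)) e) e) e)) e) e)) (c (c (c (c (c (c (p (nat_lit 0xc4d74e)) (c (p (nat_lit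
  0x4029c)) e)) (c (c (m (nat_lit 0x6e29fe)) e) e)) (c (c (c (m (nat_lit 0x11ee60)) e) e) e)) e) e) e))) (c
  (c (c (c (c (c (c (p (nat_lit 0x374bb36)) (c (p (nat_lit 0xf1e49e)) (c (m (nat_lit 0x962550)) e))) (c (c (m
  (nat_lit 0x1e14610)) (c (m (nat_lit 0x27ec9a)) e)) (c (c (p (nat_lit 0x239bf2)) e) e))) (c (c (c (m
  (nat_lit 0x4cc71ba)) (c (p (nat_lit 0x6b4168)) e)) (c (c (m (nat_lit 0x2225d0)) e) e)) (c (c (c (m (nat_lit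
  0x5d2f4)) e) e) e))) (c (c (c (c (p (nat_lit 0x655ac8e)) (c (m (nat_lit 0x20960a)) e)) (c (c (p (nat_lit
  0x113fa6c)) e) e)) (c (c (c (m (nat_lit 0x132aed8)) e) e) e)) (c (c (c (c (m (nat_lit 0x3e5d82)) e) e) e)
  e))) (c (c (c (c (c (m (nat_lit 0x45e52ae)) (c (m (nat_lit 0x1430a30)) e)) (c (c (m (nat_lit 0x16d0478)) e)
  e)) (c (c (c (m (nat_lit 0x232cfce)) e) e) e)) (c (c (c (c (p (nat_lit 0xbf86ce)) e) e) e) e)) (c (c (c (c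
  (c (p (nat_lit 0x149508)) e) e) e) e) e))) (c (c (c (c (c (c (p (nat_lit 0x4a7ffd8)) (c (p (nat_lit
  0x89d4c2)) e)) (c (c (m (nat_lit 0x13b8c16)) e) e)) (c (c (c (m (nat_lit 0x3065730)) e) e) e)) (c (c (c (c
  (p (nat_lit 0x44de76)) e) e) e) e)) (c (c (c (c (c (p (nat_lit 0x25f464)) e) e) e) e) e)) (c (c (c (c (c (c
  (m (nat_lit 0xd23522)) e) e) e) e) e) e))) (c (c (c (c (c (c (c (m (nat_lit 0x3ece80)) (c (p (nat_lit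
  0x3e298)) e)) (c (c (p (nat_lit 0x2676072)) e) e)) (c (c (c (p (nat_lit 0x535bcc0)) e) e) e)) (c (c (c (c
  (m (nat_lit 0x4afc73c)) e) e) e) e)) (c (c (c (c (c (p (nat_lit 0x1c12d1c)) e) e) e) e) e)) (c (c (c (c (c
  (c (m (nat_lit 0x112afc4)) e) e) e) e) e) e)) (c (c (c (c (c (c (c (m (nat_lit 0x1ff7b44)) e) e) e) e) e)
  e) e))))) (c (c (c (c (c (c (c (c (m (nat_lit 0x87efa6)) (c (p (nat_lit 0x27b6af0)) (c (p (nat_lit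
  0x477b52)) e))) (c (c (p (nat_lit 0x4471398)) (c (m (nat_lit 0x14ee52e)) e)) (c (c (p (nat_lit 0x22d3ca))
  e) e))) (c (c (c (p (nat_lit 0x1f5413a)) (c (p (nat_lit 0x17228a0)) e)) (c (c (m (nat_lit 0x14ee516)) e)
  e)) (c (c (c (p (nat_lit 0x477b52)) e) e) e))) (c (c (c (c (p (nat_lit 0x1c94d36)) (c (m (nat_lit
  0x71fbda)) (c (m (nat_lit 0x1b860a)) e))) (c (c (m (nat_lit 0x1a706f0)) (c (m (nat_lit 0x140868)) e)) (c (c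
  (m (nat_lit 0x92a1a4)) e) e))) (c (c (c (m (nat_lit 0x17f66c4)) (c (m (nat_lit 0x743f04)) e)) (c (c (p
  (nat_lit 0x56fe2)) e) e)) (c (c (c (m (nat_lit 0x31c842)) e) e) e))) (c (c (c (c (p (nat_lit 0x1ba9bf6)) (c
  (m (nat_lit 0xd77678)) e)) (c (c (m (nat_lit 0x4e3ba)) e) e)) (c (c (c (m (nat_lit 0x43746c)) e) e) e))
  e))) (c (c (c (c (c (m (nat_lit 0x3066efa)) (c (p (nat_lit 0x432e5e)) (c (m (nat_lit 0x46bae)) e))) (c (c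
  (m (nat_lit 0x934aab4)) (c (p (nat_lit 0x141e14e)) e)) (c (c (p (nat_lit 0x65a0eca)) e) e))) (c (c (c (m
  (nat_lit 0xb75c10)) (c (m (nat_lit 0xc15030)) e)) (c (c (p (nat_lit 0x141e142)) e) e)) (c (c (c (m (nat_lit
  0x46ba8)) e) e) e))) (c (c (c (c (m (nat_lit 0x416562)) (c (p (nat_lit 0x11b3cc8)) e)) (c (c (p (nat_lit
  0x31a00a)) e) e)) (c (c (c (p (nat_lit 0x10ac2b0)) e) e) e)) e)) (c (c (c (c (c (p (nat_lit 0x5fd120)) (c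
  (m (nat_lit 0x104f8f8)) e)) (c (c (m (nat_lit 0x536b50)) e) e)) (c (c (c (m (nat_lit 0x104f8f8)) e) e) e))
  e) e))) (c (c (c (c (c (c (p (nat_lit 0xa9d886)) (c (m (nat_lit 0x267ce88)) (c (m (nat_lit 0x31c842)) e)))
  (c (c (m (nat_lit 0x10ae77c)) (c (p (nat_lit 0x56fee)) e)) (c (c (m (nat_lit 0x92a0f6)) e) e))) (c (c (c (m
  (nat_lit 0x73c25a)) (c (m (nat_lit 0x743f28)) e)) (c (c (m (nat_lit 0x140862)) e) e)) (c (c (c (m (nat_lit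
  0x1b8616)) e) e) e))) (c (c (c (c (m (nat_lit 0xe74eea)) (c (p (nat_lit 0xb9f160)) e)) (c (c (m (nat_lit
  0x544fe)) e) e)) (c (c (c (p (nat_lit 0xb9f16c)) e) e) e)) e)) (c (c (c (c (c (m (nat_lit 0x416544)) (c (p
  (nat_lit 0x10ac280)) e)) (c (c (p (nat_lit 0x319ff2)) e) e)) (c (c (c (p (nat_lit 0x11b3c98)) e) e) e)) e)
  e)) (c (c (c (c (c (c (p (nat_lit 0x1ba9be4)) (c (m (nat_lit 0x437490)) e)) (c (c (m (nat_lit 0x4e3d2)) e)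
  e)) (c (c (c (m (nat_lit 0xd776c0)) e) e) e)) e) e) e))) (c (c (c (c (c (c (c (m (nat_lit 0x14ae64c)) (c (m
  (nat_lit 0x1b31cda)) (c (p (nat_lit 0x346548)) e))) (c (c (m (nat_lit 0x32a52c8)) (c (p (nat_lit 0x285612))
  e)) (c (c (p (nat_lit 0xc87cea)) e) e))) (c (c (c (p (nat_lit 0x154a508)) (c (m (nat_lit 0x2cf370)) e)) (c
  (c (p (nat_lit 0x70b018)) e) e)) (c (c (c (p (nat_lit 0x586ed8)) e) e) e))) (c (c (c (c (m (nat_lit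
  0x1ce7efc)) (c (m (nat_lit 0x4e1fec)) e)) (c (c (p (nat_lit 0x17c2a34)) e) e)) (c (c (c (p (nat_lit
  0x944076)) e) e) e)) (c (c (c (c (m (nat_lit 0x6ada00)) e) e) e) e))) (c (c (c (c (c (p (nat_lit
  0x4b34e7e)) (c (m (nat_lit 0x10ec936)) e)) (c (c (m (nat_lit 0x19ccf02)) e) e)) (c (c (c (m (nat_lit
  0x7c6512)) e) e) e)) (c (c (c (c (m (nat_lit 0x26b11c)) e) e) e) e)) (c (c (c (c (c (p (nat_lit 0xc923b8))
  e) e) e) e) e))) (c (c (c (c (c (c (m (nat_lit 0xe013f6)) (c (p (nat_lit 0x2209854)) e)) (c (c (p (nat_lit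
  0x1a3b77c)) e) e)) (c (c (c (m (nat_lit 0x171e616)) e) e) e)) (c (c (c (c (p (nat_lit 0x1087e0)) e) e) e)
  e)) (c (c (c (c (c (m (nat_lit 0x80f268)) e) e) e) e) e)) (c (c (c (c (c (c (p (nat_lit 0x19bcfc)) e) e) e)
  e) e) e))) (c (c (c (c (c (c (c (m (nat_lit 0x38d22f2)) (c (p (nat_lit 0x1ba73a)) e)) (c (c (m (nat_lit
  0xc102d8)) e) e)) (c (c (c (m (nat_lit 0xe6cde4)) e) e) e)) (c (c (c (c (m (nat_lit 0x68fba4)) e) e) e) e))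
  (c (c (c (c (c (m (nat_lit 0xf001aa)) e) e) e) e) e)) (c (c (c (c (c (c (p (nat_lit 0xb04cba)) e) e) e) e)
  e) e)) (c (c (c (c (c (c (c (p (nat_lit 0x257b902)) e) e) e) e) e) e) e)))) (c (c (c (c (c (c (c (c (m
  (nat_lit 0x3eeb1bc)) (c (m (nat_lit 0xdc15f2)) (c (m (nat_lit 0x5d2c0a)) e))) (c (c (p (nat_lit 0x3f929ac))
  (c (m (nat_lit 0x5d25bc)) e)) (c (c (m (nat_lit 0x3dc98f6)) e) e))) (c (c (c (p (nat_lit 0x3cd87e)) (c (m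
  (nat_lit 0x133554)) e)) (c (c (m (nat_lit 0x5d25b0)) e) e)) (c (c (c (m (nat_lit 0x5d2c16)) e) e) e))) (c
  (c (c (c (m (nat_lit 0x190defe)) (c (p (nat_lit 0x15fc780)) e)) (c (c (p (nat_lit 0x5bba4a)) e) e)) (c (c
  (c (p (nat_lit 0x539bbc)) e) e) e)) (c (c (c (c (m (nat_lit 0x1122d86)) e) e) e) e))) (c (c (c (c (c (p
  (nat_lit 0x2011b78)) (c (p (nat_lit 0x804c84)) e)) (c (c (p (nat_lit 0x1204554)) e) e)) (c (c (c (p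
  (nat_lit 0x804c90)) e) e) e)) (c (c (c (c (p (nat_lit 0x32ff52)) e) e) e) e)) (c (c (c (c (c (m (nat_lit
  0x29e63e)) e) e) e) e) e))) (c (c (c (c (c (c (m (nat_lit 0x9c679e)) (c (p (nat_lit 0x539bb0)) e)) (c (c (p
  (nat_lit 0x5bba50)) e) e)) (c (c (c (p (nat_lit 0x15fc780)) e) e) e)) (c (c (c (c (p (nat_lit 0xc7ea38)) e)
  e) e) e)) (c (c (c (c (c (p (nat_lit 0x32ff52)) e) e) e) e) e)) (c (c (c (c (c (c (m (nat_lit 0x1122d8c))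
  e) e) e) e) e) e))) (c (c (c (c (c (c (c (p (nat_lit 0x351f510)) (c (m (nat_lit 0x2a7812)) e)) (c (c (p
  (nat_lit 0x8b97b2)) e) e)) (c (c (c (m (nat_lit 0x7691e8)) e) e) e)) (c (c (c (c (p (nat_lit 0x20e723e)) e)
  e) e) e)) (c (c (c (c (c (m (nat_lit 0x2ab9082)) e) e) e) e) e)) (c (c (c (c (c (c (m (nat_lit 0x22fcda))
  e) e) e) e) e) e)) (c (c (c (c (c (c (c (p (nat_lit 0x1c6a388)) e) e) e) e) e) e) e))) (c (c (c (c (c (c (c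
  (c (m (nat_lit 0x2744a6)) (c (p (nat_lit 0x81c630)) e)) (c (c (p (nat_lit 0x1ed14c)) e) e)) (c (c (c (p
  (nat_lit 0x81c63c)) e) e) e)) (c (c (c (c (p (nat_lit 0x62cc46)) e) e) e) e)) (c (c (c (c (c (p (nat_lit
  0xb37774)) e) e) e) e) e)) (c (c (c (c (c (c (p (nat_lit 0x62cc52)) e) e) e) e) e) e)) (c (c (c (c (c (c (c
  (m (nat_lit 0x1c36d5e)) e) e) e) e) e) e) e)) (c (c (c (c (c (c (c (c (p (nat_lit 0x483d92)) e) e) e) e) e)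
  e) e) e))))) (c (c (c (c (c (c (c (c (c (m (nat_lit 0x79c692)) (c (p (nat_lit 0x197023e)) (c (m (nat_lit
  0x12cd7f4)) e))) (c (c (p (nat_lit 0x2442660)) (c (m (nat_lit 0x11da38)) e)) (c (c (m (nat_lit 0x2756130))
  e) e))) (c (c (c (p (nat_lit 0x28cfb06)) (c (m (nat_lit 0x8e2d80)) e)) (c (c (p (nat_lit 0x891720)) e) e))
  (c (c (c (m (nat_lit 0x7a492a)) e) e) e))) (c (c (c (c (m (nat_lit 0xe40756)) (c (m (nat_lit 0x296b1f4)) (c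
  (p (nat_lit 0x9bdc)) e))) (c (c (p (nat_lit 0x2b2cd86)) (c (m (nat_lit 0xadbb42)) e)) (c (c (m (nat_lit
  0x3482664)) e) e))) (c (c (c (m (nat_lit 0x4f152)) (c (p (nat_lit 0x9ad34c)) e)) (c (c (p (nat_lit
  0x28eec4)) e) e)) (c (c (c (m (nat_lit 0x6b4288)) e) e) e))) (c (c (c (c (p (nat_lit 0xc4d72a)) (c (m
  (nat_lit 0x11ee30)) e)) (c (c (m (nat_lit 0x6e29f8)) e) e)) (c (c (c (p (nat_lit 0x402a8)) e) e) e)) e)))
  (c (c (c (c (c (p (nat_lit 0xc6afec)) (c (p (nat_lit 0x3642c5a)) (c (p (nat_lit 0x3dee34)) e))) (c (c (p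
  (nat_lit 0x1805676)) (c (p (nat_lit 0x336798)) e)) (c (c (m (nat_lit 0x20a1d94)) e) e))) (c (c (c (p
  (nat_lit 0x3adf6a)) (c (m (nat_lit 0x344c7c)) e)) (c (c (m (nat_lit 0x662dc0)) e) e)) (c (c (c (p (nat_lit
  0x8a779a)) e) e) e))) (c (c (c (c (m (nat_lit 0x487344)) (c (p (nat_lit 0x7ef4a4)) e)) (c (c (p (nat_lit
  0xcf2a2a)) e) e)) (c (c (c (p (nat_lit 0x53acae)) e) e) e)) e)) (c (c (c (c (c (p (nat_lit 0x458166)) (c (m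
  (nat_lit 0x943548)) e)) (c (c (p (nat_lit 0x610f92)) e) e)) (c (c (c (m (nat_lit 0x9ff16e)) e) e) e)) e)
  e))) (c (c (c (c (c (c (p (nat_lit 0x23e9fd4)) (c (p (nat_lit 0x2b9c6e)) (c (p (nat_lit 0x608b62)) e))) (c
  (c (m (nat_lit 0x81b63a)) (c (p (nat_lit 0x3cd7ac)) e)) (c (c (p (nat_lit 0xc34320)) e) e))) (c (c (c (m
  (nat_lit 0x606bb8)) (c (p (nat_lit 0x82bb94)) e)) (c (c (p (nat_lit 0x83eb0)) e) e)) (c (c (c (m (nat_lit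
  0xb0226)) e) e) e))) (c (c (c (c (m (nat_lit 0x4d898c)) (c (p (nat_lit 0x5a39c0)) e)) (c (c (m (nat_lit
  0x3d271a)) e) e)) (c (c (c (p (nat_lit 0x5d1e06)) e) e) e)) e)) (c (c (c (c (c (m (nat_lit 0x1504f62)) (c
  (p (nat_lit 0xa8a8cc)) e)) (c (c (p (nat_lit 0x3d15a4)) e) e)) (c (c (c (m (nat_lit 0xa21d4)) e) e) e)) e)
  e)) (c (c (c (c (c (c (p (nat_lit 0xd4fbe0)) (c (m (nat_lit 0xf556bc)) e)) (c (c (m (nat_lit 0x469686)) e)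
  e)) (c (c (c (p (nat_lit 0x3650d6)) e) e) e)) e) e) e))) (c (c (c (c (c (c (c (m (nat_lit 0x1fc86fc)) (c (m
  (nat_lit 0x2d60984)) (c (p (nat_lit 0xb95392)) e))) (c (c (m (nat_lit 0x7038f42)) (c (m (nat_lit 0xf1c1a))
  e)) (c (c (p (nat_lit 0x4a14428)) e) e))) (c (c (c (m (nat_lit 0x38f0094)) (c (m (nat_lit 0x7daa2c)) e)) (c
  (c (m (nat_lit 0xf1c2c)) e) e)) (c (c (c (p (nat_lit 0xb9539e)) e) e) e))) (c (c (c (c (m (nat_lit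
  0x15839be)) (c (m (nat_lit 0x75d02c)) e)) (c (c (p (nat_lit 0x979c8c)) e) e)) (c (c (c (m (nat_lit
  0xb2438e)) e) e) e)) (c (c (c (c (p (nat_lit 0xf752b8)) e) e) e) e))) (c (c (c (c (c (m (nat_lit
  0x21e0e5c)) (c (m (nat_lit 0x19d6a72)) e)) (c (c (m (nat_lit 0x9e2c5c)) e) e)) (c (c (c (m (nat_lit
  0xa2df6e)) e) e) e)) (c (c (c (c (p (nat_lit 0x1a10c0)) e) e) e) e)) (c (c (c (c (c (m (nat_lit 0x191f394))
  e) e) e) e) e))) (c (c (c (c (c (c (m (nat_lit 0x2cfdce4)) (c (p (nat_lit 0x36250e)) e)) (c (c (m (nat_lit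
  0x483c6)) e) e)) (c (c (c (m (nat_lit 0x740892)) e) e) e)) (c (c (c (c (p (nat_lit 0x40074c)) e) e) e) e))
  (c (c (c (c (c (p (nat_lit 0x1a10a8)) e) e) e) e) e)) (c (c (c (c (c (c (p (nat_lit 0xf752b8)) e) e) e) e)
  e) e))) (c (c (c (c (c (c (c (p (nat_lit 0x2d019a4)) (c (p (nat_lit 0x107c748)) e)) (c (c (p (nat_lit
  0x3e24ca)) e) e)) (c (c (c (p (nat_lit 0x8ff6be)) e) e) e)) (c (c (c (c (p (nat_lit 0x11b3d64)) e) e) e)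
  e)) (c (c (c (c (c (p (nat_lit 0x1cb7344)) e) e) e) e) e)) (c (c (c (c (c (c (p (nat_lit 0x1825b2a)) e) e)
  e) e) e) e)) (c (c (c (c (c (c (c (m (nat_lit 0x15b61b4)) e) e) e) e) e) e) e)))) (c (c (c (c (c (c (c (c
  (m (nat_lit 0x2c9ab22)) (c (m (nat_lit 0x20c514)) (c (p (nat_lit 0x586ec6)) e))) (c (c (m (nat_lit
  0x351bafc)) (c (p (nat_lit 0x70b030)) e)) (c (c (p (nat_lit 0xc87ce4)) e) e))) (c (c (c (m (nat_lit
  0x443c7c)) (c (m (nat_lit 0x2cf370)) e)) (c (c (p (nat_lit 0x28561e)) e) e)) (c (c (c (p (nat_lit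
  0x34654e)) e) e) e))) (c (c (c (c (m (nat_lit 0x2103432)) (c (m (nat_lit 0x1803aa4)) e)) (c (c (p (nat_lit
  0xe02d1c)) e) e)) (c (c (c (p (nat_lit 0xebff4a)) e) e) e)) (c (c (c (c (p (nat_lit 0x19bce4)) e) e) e)
  e))) (c (c (c (c (c (p (nat_lit 0x2245d9a)) (c (p (nat_lit 0x5cf88c)) e)) (c (c (m (nat_lit 0x57096)) e)
  e)) (c (c (c (p (nat_lit 0xc5f4a8)) e) e) e)) (c (c (c (c (m (nat_lit 0x80f280)) e) e) e) e)) (c (c (c (c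
  (c (p (nat_lit 0xc923ac)) e) e) e) e) e))) (c (c (c (c (c (c (m (nat_lit 0x1a0be5a)) (c (p (nat_lit
  0x602214)) e)) (c (c (p (nat_lit 0x7d4e46)) e) e)) (c (c (c (m (nat_lit 0x37f16a)) e) e) e)) (c (c (c (c (p
  (nat_lit 0x10881c)) e) e) e) e)) (c (c (c (c (c (m (nat_lit 0x26b17c)) e) e) e) e) e)) (c (c (c (c (c (c (m
  (nat_lit 0x6ad9e8)) e) e) e) e) e) e))) (c (c (c (c (c (c (c (p (nat_lit 0x74ccd6c)) (c (p (nat_lit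
  0xcc8e74)) e)) (c (c (p (nat_lit 0x18b1ea0)) e) e)) (c (c (c (m (nat_lit 0x296c04)) e) e) e)) (c (c (c (c
  (p (nat_lit 0x12b4048)) e) e) e) e)) (c (c (c (c (c (m (nat_lit 0x2f08d4)) e) e) e) e) e)) (c (c (c (c (c
  (c (p (nat_lit 0xdff8cc)) e) e) e) e) e) e)) (c (c (c (c (c (c (c (m (nat_lit 0x10bdfbc)) e) e) e) e) e) e)
  e))) (c (c (c (c (c (c (c (c (p (nat_lit 0x23bf116)) (c (m (nat_lit 0x3db384)) e)) (c (c (p (nat_lit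
  0xb6fda2)) e) e)) (c (c (c (m (nat_lit 0x111762c)) e) e) e)) (c (c (c (c (p (nat_lit 0xc88aa)) e) e) e) e))
  (c (c (c (c (c (m (nat_lit 0x1cd9a6c)) e) e) e) e) e)) (c (c (c (c (c (c (p (nat_lit 0xd8fba0)) e) e) e) e)
  e) e)) (c (c (c (c (c (c (c (m (nat_lit 0x31ca2b0)) e) e) e) e) e) e) e)) (c (c (c (c (c (c (c (c (m
  (nat_lit 0xac4d06)) e) e) e) e) e) e) e) e)))) (c (c (c (c (c (c (c (c (c (m (nat_lit 0x893ee0)) (c (m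
  (nat_lit 0x1affc5e)) (c (m (nat_lit 0x5d2ee)) e))) (c (c (p (nat_lit 0x157a61c)) (c (m (nat_lit 0x2225be))
  e)) (c (c (p (nat_lit 0x239c76)) e) e))) (c (c (c (m (nat_lit 0x57ef58)) (c (p (nat_lit 0x6b415c)) e)) (c
  (c (m (nat_lit 0x27ec82)) e) e)) (c (c (c (m (nat_lit 0x96255c)) e) e) e))) (c (c (c (c (p (nat_lit
  0x57764a)) (c (p (nat_lit 0x26fbeb4)) e)) (c (c (m (nat_lit 0x3de654)) e) e)) (c (c (c (m (nat_lit
  0x4eafda)) e) e) e)) (c (c (c (c (m (nat_lit 0xd23522)) e) e) e) e))) (c (c (c (c (c (m (nat_lit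
  0x3c2b950)) (c (m (nat_lit 0x9918c0)) e)) (c (c (p (nat_lit 0x1ac15a)) e) e)) (c (c (c (p (nat_lit
  0xc254b8)) e) e) e)) (c (c (c (c (p (nat_lit 0x25f4b2)) e) e) e) e)) (c (c (c (c (c (p (nat_lit 0x1494ba))
  e) e) e) e) e))) (c (c (c (c (c (c (m (nat_lit 0x3168dda)) (c (m (nat_lit 0x522510)) e)) (c (c (p (nat_lit
  0x2a69ba)) e) e)) (c (c (c (p (nat_lit 0x927d38)) e) e) e)) (c (c (c (c (p (nat_lit 0x44debe)) e) e) e) e))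
  (c (c (c (c (c (p (nat_lit 0xbf86e6)) e) e) e) e) e)) (c (c (c (c (c (c (m (nat_lit 0x3e5d8e)) e) e) e) e)
  e) e))) (c (c (c (c (c (c (c (p (nat_lit 0x6b2aec8)) (c (p (nat_lit 0xd88334)) e)) (c (c (p (nat_lit
  0x42c882)) e) e)) (c (c (c (p (nat_lit 0x1768524)) e) e) e)) (c (c (c (c (p (nat_lit 0x4462e0)) e) e) e)
  e)) (c (c (c (c (c (p (nat_lit 0x3192c42)) e) e) e) e) e)) (c (c (c (c (c (c (p (nat_lit 0x17fe578)) e) e)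
  e) e) e) e)) (c (c (c (c (c (c (c (m (nat_lit 0x3c55572)) e) e) e) e) e) e) e))) (c (c (c (c (c (c (c (c (p
  (nat_lit 0xc27c1e)) (c (m (nat_lit 0x412614)) e)) (c (c (m (nat_lit 0x7d6c64)) e) e)) (c (c (c (m (nat_lit
  0xa2fba0)) e) e) e)) (c (c (c (c (p (nat_lit 0x1396302)) e) e) e) e)) (c (c (c (c (c (m (nat_lit
  0x10b0b9a)) e) e) e) e) e)) (c (c (c (c (c (c (m (nat_lit 0x22358a)) e) e) e) e) e) e)) (c (c (c (c (c (c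
  (c (m (nat_lit 0x2adb822)) e) e) e) e) e) e) e)) (c (c (c (c (c (c (c (c (p (nat_lit 0x12c64e6)) e) e) e)
  e) e) e) e) e))) (c (c (c (c (c (c (c (c (c (p (nat_lit 0xcb5f14)) (c (p (nat_lit 0x3aad0)) e)) (c (c (m
  (nat_lit 0x5052ba)) e) e)) (c (c (c (p (nat_lit 0x24e22c)) e) e) e)) (c (c (c (c (m (nat_lit 0xf966d2)) e)
  e) e) e)) (c (c (c (c (c (p (nat_lit 0xce7bb2)) e) e) e) e) e)) (c (c (c (c (c (c (p (nat_lit 0x487716)) e)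
  e) e) e) e) e)) (c (c (c (c (c (c (c (m (nat_lit 0x27b04f6)) e) e) e) e) e) e) e)) (c (c (c (c (c (c (c (c
  (p (nat_lit 0x5a632a)) e) e) e) e) e) e) e) e)) (c (c (c (c (c (c (c (c (c (p (nat_lit 0x8ce836)) e) e) e)
  e) e) e) e) e) e)))))

noncomputable def gt_0_0_3 : Tr :=
  (c (c (c (c (c (c (c (c (c (m (nat_lit 0x1f4725e)) (c (p (nat_lit 0x1291218)) (c (m (nat_lit 0x883170))
  e))) (c (c (p (nat_lit 0x12913c8)) (c (m (nat_lit 0xcdff8)) e)) (c (c (m (nat_lit 0x883200)) e) e))) (c (c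
  (c (m (nat_lit 0xdfe8be)) (c (p (nat_lit 0x76abce)) e)) (c (c (p (nat_lit 0x76abb0)) e) e)) (c (c (c (p
  (nat_lit 0x566862)) e) e) e))) (c (c (c (c (m (nat_lit 0xbfa624)) (c (p (nat_lit 0xab2fa6)) (c (m (nat_lit
  0x11680e0)) e))) (c (c (p (nat_lit 0x9fdd7c)) (c (p (nat_lit 0x1a1beb0)) e)) (c (c (p (nat_lit 0x710a90))
  e) e))) (c (c (c (m (nat_lit 0xad4e88)) (c (m (nat_lit 0xfa9bae)) e)) (c (c (p (nat_lit 0x2db256)) e) e))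
  (c (c (c (m (nat_lit 0x2033ac)) e) e) e))) (c (c (c (c (m (nat_lit 0x8a9c96)) (c (p (nat_lit 0xbf2e0)) (c
  (p (nat_lit 0x13560)) e))) (c (c (p (nat_lit 0x1be38b0)) (c (m (nat_lit 0x2456e8)) e)) (c (c (m (nat_lit
  0xc53bf8)) e) e))) (c (c (c (m (nat_lit 0x167cca)) (c (p (nat_lit 0x68a63c)) e)) (c (c (m (nat_lit
  0x1d3bb6)) e) e)) (c (c (c (p (nat_lit 0x2b6560)) e) e) e))) e))) (c (c (c (c (c (m (nat_lit 0xbfa816)) (c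
  (p (nat_lit 0x9fdd04)) (c (p (nat_lit 0x710910)) e))) (c (c (p (nat_lit 0xab2d66)) (c (p (nat_lit
  0x1a1bd90)) e)) (c (c (m (nat_lit 0x1168230)) e) e))) (c (c (c (m (nat_lit 0xad5008)) (c (p (nat_lit
  0x2db1cc)) e)) (c (c (m (nat_lit 0xfa9bfc)) e) e)) (c (c (c (m (nat_lit 0x20345a)) e) e) e))) (c (c (c (c
  (p (nat_lit 0x524cc4)) (c (m (nat_lit 0x63b538)) (c (m (nat_lit 0x63a860)) e))) (c (c (m (nat_lit
  0x63b6e8)) (c (m (nat_lit 0xdf94e8)) e)) (c (c (m (nat_lit 0x63a890)) e) e))) (c (c (c (p (nat_lit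
  0xd88e38)) (c (m (nat_lit 0x951a62)) e)) (c (c (m (nat_lit 0x951a9e)) e) e)) (c (c (c (m (nat_lit
  0x318726)) e) e) e))) e)) (c (c (c (c (c (m (nat_lit 0x8a9cb4)) (c (p (nat_lit 0x1be38e0)) (c (m (nat_lit
  0xc53bb0)) e))) (c (c (p (nat_lit 0xbf238)) (c (m (nat_lit 0x2456d0)) e)) (c (c (p (nat_lit 0x13590)) e)
  e))) (c (c (c (m (nat_lit 0x167cdc)) (c (m (nat_lit 0x1d3bbc)) e)) (c (c (p (nat_lit 0x68a678)) e) e)) (c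
  (c (c (p (nat_lit 0x2b6596)) e) e) e))) e) e))) (c (c (c (c (c (c (m (nat_lit 0x18e3eaa)) (c (p (nat_lit
  0x25124b8)) (c (m (nat_lit 0x1b76080)) e))) (c (c (p (nat_lit 0x2512290)) (c (m (nat_lit 0x49cb18)) e)) (c
  (c (m (nat_lit 0x1b76170)) e) e))) (c (c (c (m (nat_lit 0x591f6a8)) (c (m (nat_lit 0x3718ce)) e)) (c (c (m
  (nat_lit 0x37186e)) e) e)) (c (c (c (p (nat_lit 0x2c73d92)) e) e) e))) (c (c (c (c (p (nat_lit 0x106be76))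
  (c (m (nat_lit 0x150918)) (c (p (nat_lit 0x3facf8)) e))) (c (c (m (nat_lit 0x6e8008)) (c (m (nat_lit
  0x4575c0)) e)) (c (c (p (nat_lit 0x9b94c0)) e) e))) (c (c (c (p (nat_lit 0x10b4914)) (c (p (nat_lit
  0x3b7366)) e)) (c (c (m (nat_lit 0xce0b2)) e) e)) (c (c (c (m (nat_lit 0x8590ec)) e) e) e))) e)) (c (c (c
  (c (c (p (nat_lit 0x106bd4a)) (c (m (nat_lit 0x6e8230)) (c (p (nat_lit 0x9b9460)) e))) (c (c (m (nat_lit
  0x1507c8)) (c (m (nat_lit 0x457560)) e)) (c (c (p (nat_lit 0x3fad58)) e) e))) (c (c (c (p (nat_lit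
  0x10b4932)) (c (m (nat_lit 0xce06a)) e)) (c (c (p (nat_lit 0x3b7330)) e) e)) (c (c (c (m (nat_lit
  0x8590b0)) e) e) e))) e) e)) (c (c (c (c (c (c (m (nat_lit 0xd8335a)) (c (m (nat_lit 0x1a9448)) (c (p
  (nat_lit 0x6bd5b8)) e))) (c (c (m (nat_lit 0x1a93d0)) (c (m (nat_lit 0x3cbf58)) e)) (c (c (p (nat_lit
  0x6bd570)) e) e))) (c (c (c (p (nat_lit 0x1696f86)) (c (m (nat_lit 0x4c659c)) e)) (c (c (m (nat_lit
  0x4c658a)) e) e)) (c (c (c (m (nat_lit 0x825786)) e) e) e))) e) e) e))) (c (c (c (c (c (c (c (p (nat_lit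
  0x1ea2f12)) (c (p (nat_lit 0x22221e4)) (c (p (nat_lit 0x547b30)) e))) (c (c (p (nat_lit 0x22221b4)) (c (p
  (nat_lit 0xcc7728)) e)) (c (c (p (nat_lit 0x547bc0)) e) e))) (c (c (c (m (nat_lit 0xa5f9d3e)) (c (p
  (nat_lit 0xdadcae)) e)) (c (c (p (nat_lit 0xdadc66)) e) e)) (c (c (c (p (nat_lit 0x1b3bc6a)) e) e) e))) (c
  (c (c (c (m (nat_lit 0x22a7a62)) (c (p (nat_lit 0x2214018)) (c (m (nat_lit 0x3b86b0)) e))) (c (c (m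
  (nat_lit 0x1c40cca)) (c (m (nat_lit 0x878388)) e)) (c (c (p (nat_lit 0xe7e3e8)) e) e))) (c (c (c (p
  (nat_lit 0x3addafe)) (c (p (nat_lit 0xeed28)) e)) (c (c (p (nat_lit 0x2da062)) e) e)) (c (c (c (m (nat_lit
  0x5fbf7a)) e) e) e))) (c (c (c (c (m (nat_lit 0x25a3ac)) (c (p (nat_lit 0x1099200)) e)) (c (c (m (nat_lit
  0x3b96d0)) e) e)) (c (c (c (m (nat_lit 0x4f9056)) e) e) e)) e))) (c (c (c (c (c (m (nat_lit 0x22a7be2)) (c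
  (m (nat_lit 0x1c40e2c)) (c (p (nat_lit 0xe7e3d0)) e))) (c (c (p (nat_lit 0x2213fe8)) (c (m (nat_lit
  0x878370)) e)) (c (c (m (nat_lit 0x3b8710)) e) e))) (c (c (c (p (nat_lit 0x3addc42)) (c (p (nat_lit
  0x2da044)) e)) (c (c (p (nat_lit 0xeed22)) e) e)) (c (c (c (m (nat_lit 0x5fbf8c)) e) e) e))) (c (c (c (c (m
  (nat_lit 0x2376cc)) (c (m (nat_lit 0x264ea0)) e)) (c (c (m (nat_lit 0x264ed0)) e) e)) (c (c (c (p (nat_lit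
  0xd2af02)) e) e) e)) e)) (c (c (c (c (c (m (nat_lit 0x25a32e)) (c (m (nat_lit 0x3b9718)) e)) (c (c (p
  (nat_lit 0x10991e8)) e) e)) (c (c (c (m (nat_lit 0x4f90c8)) e) e) e)) e) e))) (c (c (c (c (c (c (m (nat_lit
  0x388db08)) (c (p (nat_lit 0xb7ef82)) (c (m (nat_lit 0x20e5bb8)) e))) (c (c (p (nat_lit 0xb7ec9a)) (c (p
  (nat_lit 0xb8aac0)) e)) (c (c (m (nat_lit 0x20e5b40)) e) e))) (c (c (c (p (nat_lit 0xa231de2)) (c (m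
  (nat_lit 0xd26dc2)) e)) (c (c (m (nat_lit 0xd26dc2)) e) e)) (c (c (c (m (nat_lit 0x2631318)) e) e) e))) (c
  (c (c (c (m (nat_lit 0x67f2b4)) (c (m (nat_lit 0x5c6910)) e)) (c (c (m (nat_lit 0x835230)) e) e)) (c (c (c
  (m (nat_lit 0x4945e)) e) e) e)) e)) (c (c (c (c (c (m (nat_lit 0x67f22a)) (c (m (nat_lit 0x835218)) e)) (c
  (c (m (nat_lit 0x5c6898)) e) e)) (c (c (c (m (nat_lit 0x494c4)) e) e) e)) e) e)) (c (c (c (c (c (c (p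
  (nat_lit 0x20a65d6)) (c (m (nat_lit 0x1068558)) e)) (c (c (m (nat_lit 0x1068540)) e) e)) (c (c (c (m
  (nat_lit 0x63a26c)) e) e) e)) e) e) e))) (c (c (c (c (c (c (c (p (nat_lit 0x277bf24)) (c (m (nat_lit
  0x6837fd8)) (c (p (nat_lit 0x1278840)) e))) (c (c (m (nat_lit 0x6837f90)) (c (p (nat_lit 0x7113c0)) e)) (c
  (c (p (nat_lit 0x1278828)) e) e))) (c (c (c (m (nat_lit 0x1026570)) (c (p (nat_lit 0xcd73a)) e)) (c (c (p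
  (nat_lit 0xcd746)) e) e)) (c (c (c (p (nat_lit 0x23ccb2)) e) e) e))) (c (c (c (c (p (nat_lit 0x49ad4b6)) (c
  (m (nat_lit 0x12ec1de)) e)) (c (c (p (nat_lit 0x24e4cf6)) e) e)) (c (c (c (m (nat_lit 0x2d8bc7a)) e) e) e))
  (c (c (c (c (m (nat_lit 0x8965b0)) e) e) e) e))) (c (c (c (c (c (p (nat_lit 0x49ad5d0)) (c (p (nat_lit
  0x24e4d08)) e)) (c (c (m (nat_lit 0x12ec196)) e) e)) (c (c (c (m (nat_lit 0x2d8bc50)) e) e) e)) (c (c (c (c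
  (p (nat_lit 0x7c984e)) e) e) e) e)) (c (c (c (c (c (m (nat_lit 0x8965e6)) e) e) e) e) e))) (c (c (c (c (c
  (c (m (nat_lit 0x1827fa8)) (c (p (nat_lit 0xcc6b8e)) e)) (c (c (p (nat_lit 0xcc6b76)) e) e)) (c (c (c (m
  (nat_lit 0x48efe74)) e) e) e)) (c (c (c (c (m (nat_lit 0x183ea6)) e) e) e) e)) (c (c (c (c (c (m (nat_lit
  0x183eee)) e) e) e) e) e)) (c (c (c (c (c (c (m (nat_lit 0x610f14)) e) e) e) e) e) e))) (c (c (c (c (c (c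
  (c (p (nat_lit 0x16c314)) (c (p (nat_lit 0x27e3c04)) e)) (c (c (p (nat_lit 0x27e3c04)) e) e)) (c (c (c (p
  (nat_lit 0x58f2090)) e) e) e)) (c (c (c (c (m (nat_lit 0x24e9dd2)) e) e) e) e)) (c (c (c (c (c (m (nat_lit
  0x24e9dc6)) e) e) e) e) e)) (c (c (c (c (c (c (p (nat_lit 0x50778d8)) e) e) e) e) e) e)) (c (c (c (c (c (c
  (c (m (nat_lit 0x22d21a6)) e) e) e) e) e) e) e))))) (c (c (c (c (c (c (c (c (p (nat_lit 0x24d131c)) (c (m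
  (nat_lit 0xc0e322)) (c (p (nat_lit 0xbee708)) e))) (c (c (p (nat_lit 0x10c52d0)) (c (m (nat_lit 0xb1d410))
  e)) (c (c (p (nat_lit 0x311388)) e) e))) (c (c (c (p (nat_lit 0x3c55338)) (c (m (nat_lit 0xdbdd28)) e)) (c
  (c (m (nat_lit 0x99035a)) e) e)) (c (c (c (m (nat_lit 0x198d8ae)) e) e) e))) (c (c (c (c (p (nat_lit
  0x1215ff6)) (c (m (nat_lit 0x2e7db4)) (c (p (nat_lit 0x3facc8)) e))) (c (c (m (nat_lit 0x2b2b394)) (c (p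
  (nat_lit 0x7b1500)) e)) (c (c (m (nat_lit 0xb70db0)) e) e))) (c (c (c (p (nat_lit 0x12b45ca)) (c (p
  (nat_lit 0x336204)) e)) (c (c (m (nat_lit 0x664020)) e) e)) (c (c (c (m (nat_lit 0x7bebb0)) e) e) e))) (c
  (c (c (c (p (nat_lit 0x1ae5912)) (c (m (nat_lit 0x68b3d4)) e)) (c (c (m (nat_lit 0xe1cf06)) e) e)) (c (c (c
  (m (nat_lit 0xa85b74)) e) e) e)) e))) (c (c (c (c (c (p (nat_lit 0xfd1922)) (c (m (nat_lit 0xe0ee18)) (c (m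
  (nat_lit 0x679db8)) e))) (c (c (m (nat_lit 0x1032bb8)) (c (m (nat_lit 0xecea70)) e)) (c (c (p (nat_lit
  0x20d1998)) e) e))) (c (c (c (m (nat_lit 0x2d95fee)) (c (p (nat_lit 0x4d7bb8)) e)) (c (c (p (nat_lit
  0xc1a784)) e) e)) (c (c (c (p (nat_lit 0x127270e)) e) e) e))) (c (c (c (c (m (nat_lit 0x3f5e98)) (c (p
  (nat_lit 0x8e3dd0)) e)) (c (c (p (nat_lit 0x19b1b78)) e) e)) (c (c (c (p (nat_lit 0x889db8)) e) e) e)) e))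
  (c (c (c (c (c (m (nat_lit 0x39347a)) (c (m (nat_lit 0x1c2576)) e)) (c (c (m (nat_lit 0x148e8b2)) e) e)) (c
  (c (c (m (nat_lit 0x68ec92)) e) e) e)) e) e))) (c (c (c (c (c (c (p (nat_lit 0x53d0a2)) (c (m (nat_lit
  0x1c5a80c)) (c (p (nat_lit 0x211fea8)) e))) (c (c (p (nat_lit 0xc4e3cc)) (c (p (nat_lit 0x6585f0)) e)) (c
  (c (m (nat_lit 0x9aea80)) e) e))) (c (c (c (p (nat_lit 0x7062ae)) (c (p (nat_lit 0xc98fbe)) e)) (c (c (p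
  (nat_lit 0x3a12b0)) e) e)) (c (c (c (p (nat_lit 0xcd8852)) e) e) e))) (c (c (c (c (m (nat_lit 0x13ee646))
  (c (p (nat_lit 0x583f26)) e)) (c (c (p (nat_lit 0xca46c4)) e) e)) (c (c (c (m (nat_lit 0x81e76)) e) e) e))
  e)) (c (c (c (c (c (m (nat_lit 0x6f9d62)) (c (p (nat_lit 0x509472)) e)) (c (c (p (nat_lit 0xbfdc12)) e) e))
  (c (c (c (p (nat_lit 0x771282)) e) e) e)) e) e)) (c (c (c (c (c (c (p (nat_lit 0x3be8de)) (c (m (nat_lit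
  0x1c6c0e)) e)) (c (c (p (nat_lit 0x2aba5a)) e) e)) (c (c (c (m (nat_lit 0x962ee6)) e) e) e)) e) e) e))) (c
  (c (c (c (c (c (c (m (nat_lit 0x11c7cd8)) (c (m (nat_lit 0x10d77e)) (c (m (nat_lit 0x7db278)) e))) (c (c (m
  (nat_lit 0x1dca102)) (c (m (nat_lit 0xc438c0)) e)) (c (c (m (nat_lit 0x219828)) e) e))) (c (c (c (p
  (nat_lit 0x2c88a20)) (c (m (nat_lit 0x549a26)) e)) (c (c (m (nat_lit 0x409bf0)) e) e)) (c (c (c (p (nat_lit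
  0x343f50)) e) e) e))) (c (c (c (c (p (nat_lit 0x2694660)) (c (m (nat_lit 0xb6f46)) e)) (c (c (p (nat_lit
  0x181e9c0)) e) e)) (c (c (c (p (nat_lit 0xbe93c8)) e) e) e)) (c (c (c (c (m (nat_lit 0x132916e)) e) e) e)
  e))) (c (c (c (c (c (m (nat_lit 0x893fa6)) (c (m (nat_lit 0xc1d3e2)) e)) (c (c (p (nat_lit 0x5e4478)) e)
  e)) (c (c (c (m (nat_lit 0x18ce4)) e) e) e)) (c (c (c (c (m (nat_lit 0x23769c)) e) e) e) e)) (c (c (c (c (c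
  (p (nat_lit 0xcc4452)) e) e) e) e) e))) (c (c (c (c (c (c (p (nat_lit 0x632880c)) (c (p (nat_lit 0x33952e))
  e)) (c (c (p (nat_lit 0x1043ec8)) e) e)) (c (c (c (m (nat_lit 0x1001cdc)) e) e) e)) (c (c (c (c (p (nat_lit
  0xb5b984)) e) e) e) e)) (c (c (c (c (c (m (nat_lit 0x3dfd4c)) e) e) e) e) e)) (c (c (c (c (c (c (p (nat_lit
  0x244584)) e) e) e) e) e) e))) (c (c (c (c (c (c (c (m (nat_lit 0x193e9ea)) (c (m (nat_lit 0x67adfc)) e))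
  (c (c (m (nat_lit 0x19a4c6)) e) e)) (c (c (c (m (nat_lit 0x1dd374a)) e) e) e)) (c (c (c (c (m (nat_lit
  0x22d2590)) e) e) e) e)) (c (c (c (c (c (m (nat_lit 0xf84d86)) e) e) e) e) e)) (c (c (c (c (c (c (m
  (nat_lit 0x6c70338)) e) e) e) e) e) e)) (c (c (c (c (c (c (c (p (nat_lit 0x16aaf54)) e) e) e) e) e) e)
  e)))) (c (c (c (c (c (c (c (c (p (nat_lit 0x2c743e)) (c (m (nat_lit 0x1b9f888)) (c (m (nat_lit 0x1a568))
  e))) (c (c (m (nat_lit 0x1d62bf6)) (c (p (nat_lit 0xc27468)) e)) (c (c (p (nat_lit 0x848fa0)) e) e))) (c (c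
  (c (m (nat_lit 0x99868e)) (c (p (nat_lit 0x2c2734)) e)) (c (c (p (nat_lit 0x760662)) e) e)) (c (c (c (p
  (nat_lit 0x52876e)) e) e) e))) (c (c (c (c (m (nat_lit 0x2cdfb94)) (c (p (nat_lit 0xe2a33a)) e)) (c (c (p
  (nat_lit 0x14620e6)) e) e)) (c (c (c (m (nat_lit 0x1448a6)) e) e) e)) (c (c (c (c (m (nat_lit 0x49e83a)) e)
  e) e) e))) (c (c (c (c (c (m (nat_lit 0x16c6ce0)) (c (p (nat_lit 0x15bff46)) e)) (c (c (p (nat_lit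
  0x3217bc)) e) e)) (c (c (c (p (nat_lit 0x52c944)) e) e) e)) (c (c (c (c (p (nat_lit 0x91bc3c)) e) e) e) e))
  (c (c (c (c (c (m (nat_lit 0xcc6a0e)) e) e) e) e) e))) (c (c (c (c (c (c (p (nat_lit 0x5a3e34)) (c (m
  (nat_lit 0x4e7374)) e)) (c (c (m (nat_lit 0xaa4ae)) e) e)) (c (c (c (m (nat_lit 0x530aae)) e) e) e)) (c (c
  (c (c (p (nat_lit 0x48283e)) e) e) e) e)) (c (c (c (c (c (p (nat_lit 0x5c8506)) e) e) e) e) e)) (c (c (c (c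
  (c (c (m (nat_lit 0x39abf0)) e) e) e) e) e) e))) (c (c (c (c (c (c (c (m (nat_lit 0x131a360)) (c (p
  (nat_lit 0x82022a)) e)) (c (c (p (nat_lit 0xb1dd46)) e) e)) (c (c (c (m (nat_lit 0x769a82)) e) e) e)) (c (c
  (c (c (p (nat_lit 0x10bd254)) e) e) e) e)) (c (c (c (c (c (p (nat_lit 0xbdd344)) e) e) e) e) e)) (c (c (c
  (c (c (c (p (nat_lit 0x6dd39a)) e) e) e) e) e) e)) (c (c (c (c (c (c (c (p (nat_lit 0x2eb7d76)) e) e) e) e)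
  e) e) e))) (c (c (c (c (c (c (c (c (m (nat_lit 0x2d7bcc)) (c (p (nat_lit 0x25fc44)) e)) (c (c (m (nat_lit
  0xcd506)) e) e)) (c (c (c (p (nat_lit 0x32b752)) e) e) e)) (c (c (c (c (p (nat_lit 0x4659a8)) e) e) e) e))
  (c (c (c (c (c (m (nat_lit 0x108e6a)) e) e) e) e) e)) (c (c (c (c (c (c (p (nat_lit 0x10bc1e)) e) e) e) e)
  e) e)) (c (c (c (c (c (c (c (m (nat_lit 0x1393b12)) e) e) e) e) e) e) e)) (c (c (c (c (c (c (c (c (p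
  (nat_lit 0x98b860)) e) e) e) e) e) e) e) e))))) (c (c (c (c (c (c (c (c (c (p (nat_lit 0x24d13a0)) (c (p
  (nat_lit 0x10c52fa)) (c (p (nat_lit 0x3113d0)) e))) (c (c (m (nat_lit 0xc0e376)) (c (m (nat_lit 0xb1d4d0))
  e)) (c (c (p (nat_lit 0xbee780)) e) e))) (c (c (c (p (nat_lit 0x3c5540a)) (c (m (nat_lit 0x990354)) e)) (c
  (c (m (nat_lit 0xdbdd04)) e) e)) (c (c (c (m (nat_lit 0x198d8de)) e) e) e))) (c (c (c (c (p (nat_lit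
  0xfd1892)) (c (m (nat_lit 0x1032ccc)) (c (p (nat_lit 0x20d1968)) e))) (c (c (m (nat_lit 0xe0ee5a)) (c (m
  (nat_lit 0xecea40)) e)) (c (c (m (nat_lit 0x679e00)) e) e))) (c (c (c (m (nat_lit 0x2d95f40)) (c (p
  (nat_lit 0xc1a772)) e)) (c (c (p (nat_lit 0x4d7b7c)) e) e)) (c (c (c (p (nat_lit 0x12726f6)) e) e) e))) (c
  (c (c (c (m (nat_lit 0x393462)) (c (m (nat_lit 0x148e864)) e)) (c (c (m (nat_lit 0x1c256a)) e) e)) (c (c (c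
  (m (nat_lit 0x68ec98)) e) e) e)) e))) (c (c (c (c (c (p (nat_lit 0x1215ff6)) (c (m (nat_lit 0x2b2b382)) (c
  (m (nat_lit 0xb70dc8)) e))) (c (c (m (nat_lit 0x2e7d84)) (c (p (nat_lit 0x7b1548)) e)) (c (c (p (nat_lit
  0x3fad10)) e) e))) (c (c (c (p (nat_lit 0x12b4522)) (c (m (nat_lit 0x663ffc)) e)) (c (c (p (nat_lit
  0x3361f8)) e) e)) (c (c (c (m (nat_lit 0x7beb98)) e) e) e))) (c (c (c (c (m (nat_lit 0x3f5ec8)) (c (p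
  (nat_lit 0x19b1b42)) e)) (c (c (p (nat_lit 0x8e3dd0)) e) e)) (c (c (c (p (nat_lit 0x889dca)) e) e) e)) e))
  (c (c (c (c (c (p (nat_lit 0x1ae592a)) (c (m (nat_lit 0xe1cf18)) e)) (c (c (m (nat_lit 0x68b3c8)) e) e)) (c
  (c (c (m (nat_lit 0xa85b92)) e) e) e)) e) e))) (c (c (c (c (c (c (p (nat_lit 0x53d066)) (c (p (nat_lit
  0xc4e3d2)) (c (m (nat_lit 0x9aeab0)) e))) (c (c (m (nat_lit 0x1c5a7d0)) (c (p (nat_lit 0x658638)) e)) (c (c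
  (p (nat_lit 0x211fef0)) e) e))) (c (c (c (p (nat_lit 0x706254)) (c (p (nat_lit 0x3a12d4)) e)) (c (c (p
  (nat_lit 0xc98fbe)) e) e)) (c (c (c (p (nat_lit 0xcd886a)) e) e) e))) (c (c (c (c (m (nat_lit 0x6f9d5c)) (c
  (p (nat_lit 0xbfdbfa)) e)) (c (c (p (nat_lit 0x509460)) e) e)) (c (c (c (p (nat_lit 0x771282)) e) e) e))
  e)) (c (c (c (c (c (m (nat_lit 0x13ee5fe)) (c (p (nat_lit 0xca4670)) e)) (c (c (p (nat_lit 0x583ee4)) e)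
  e)) (c (c (c (m (nat_lit 0x81e40)) e) e) e)) e) e)) (c (c (c (c (c (c (p (nat_lit 0x3be8a8)) (c (p (nat_lit
  0x2aba6c)) e)) (c (c (m (nat_lit 0x1c6be4)) e) e)) (c (c (c (m (nat_lit 0x962ee0)) e) e) e)) e) e) e))) (c
  (c (c (c (c (c (c (m (nat_lit 0x11c4372)) (c (m (nat_lit 0x1ddbcb8)) (c (m (nat_lit 0x219810)) e))) (c (c
  (m (nat_lit 0x126a92)) (c (m (nat_lit 0xc438c0)) e)) (c (c (m (nat_lit 0x7db2f0)) e) e))) (c (c (c (p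
  (nat_lit 0x2c98092)) (c (m (nat_lit 0x409c1a)) e)) (c (c (m (nat_lit 0x549a0e)) e) e)) (c (c (c (p (nat_lit
  0x343f50)) e) e) e))) (c (c (c (c (m (nat_lit 0x7cfa3a)) (c (p (nat_lit 0x800fdc)) e)) (c (c (m (nat_lit
  0xf88e54)) e) e)) (c (c (c (p (nat_lit 0x523dc4)) e) e) e)) (c (c (c (c (p (nat_lit 0xcc4404)) e) e) e)
  e))) (c (c (c (c (c (p (nat_lit 0x26c9b6e)) (c (p (nat_lit 0x1709f58)) e)) (c (c (m (nat_lit 0x23d0c6)) e)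
  e)) (c (c (c (p (nat_lit 0xccbaea)) e) e) e)) (c (c (c (c (m (nat_lit 0x23768a)) e) e) e) e)) (c (c (c (c
  (c (m (nat_lit 0x1329156)) e) e) e) e) e))) (c (c (c (c (c (c (p (nat_lit 0x6230a30)) (c (p (nat_lit
  0xf0d90e)) e)) (c (c (p (nat_lit 0x7ec906)) e) e)) (c (c (c (m (nat_lit 0x1607484)) e) e) e)) (c (c (c (c
  (m (nat_lit 0x3dfd3a)) e) e) e) e)) (c (c (c (c (c (p (nat_lit 0xb5b9a2)) e) e) e) e) e)) (c (c (c (c (c (c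
  (p (nat_lit 0x244566)) e) e) e) e) e) e))) (c (c (c (c (c (c (c (m (nat_lit 0x19f45ce)) (c (m (nat_lit
  0x19df34)) e)) (c (c (m (nat_lit 0x5767a4)) e) e)) (c (c (c (m (nat_lit 0x1ed9d22)) e) e) e)) (c (c (c (c
  (m (nat_lit 0xf37a7c)) e) e) e) e)) (c (c (c (c (c (m (nat_lit 0x2b65870)) e) e) e) e) e)) (c (c (c (c (c
  (c (m (nat_lit 0x656a9e4)) e) e) e) e) e) e)) (c (c (c (c (c (c (c (p (nat_lit 0x18d9b12)) e) e) e) e) e)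
  e) e)))) (c (c (c (c (c (c (c (c (m (nat_lit 0xab466c8)) (c (p (nat_lit 0x3304e90)) (c (m (nat_lit
  0x1816a10)) e))) (c (c (p (nat_lit 0x3304de8)) (c (p (nat_lit 0xd5960)) e)) (c (c (m (nat_lit 0x1816a28))
  e) e))) (c (c (c (m (nat_lit 0x2e482)) (c (p (nat_lit 0x1356f0)) e)) (c (c (p (nat_lit 0x13570e)) e) e)) (c
  (c (c (m (nat_lit 0x4b2190)) e) e) e))) (c (c (c (c (p (nat_lit 0x1bb8002)) (c (m (nat_lit 0x50604c)) e))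
  (c (c (m (nat_lit 0x4196d0)) e) e)) (c (c (c (p (nat_lit 0x1a6ffa)) e) e) e)) (c (c (c (c (p (nat_lit
  0x1569b82)) e) e) e) e))) (c (c (c (c (c (p (nat_lit 0x1bb7ff0)) (c (m (nat_lit 0x4196fa)) e)) (c (c (m
  (nat_lit 0x506052)) e) e)) (c (c (c (p (nat_lit 0x1a701e)) e) e) e)) (c (c (c (c (m (nat_lit 0x1dec932)) e)
  e) e) e)) (c (c (c (c (c (p (nat_lit 0x1569b9a)) e) e) e) e) e))) (c (c (c (c (c (c (m (nat_lit 0x37d8fe))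
  (c (m (nat_lit 0x961656)) e)) (c (c (m (nat_lit 0x96163e)) e) e)) (c (c (c (p (nat_lit 0x5045ac)) e) e) e))
  (c (c (c (c (m (nat_lit 0x55aa42)) e) e) e) e)) (c (c (c (c (c (m (nat_lit 0x55aa54)) e) e) e) e) e)) (c (c
  (c (c (c (c (m (nat_lit 0x3c9cb4)) e) e) e) e) e) e))) (c (c (c (c (c (c (c (p (nat_lit 0x29d09ae)) (c (p
  (nat_lit 0x10dd372)) e)) (c (c (p (nat_lit 0x10bbf34)) e) e)) (c (c (c (m (nat_lit 0x14c5bea)) e) e) e)) (c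
  (c (c (c (m (nat_lit 0xec0dea)) e) e) e) e)) (c (c (c (c (c (m (nat_lit 0x5c50e)) e) e) e) e) e)) (c (c (c
  (c (c (c (m (nat_lit 0x1226e8c)) e) e) e) e) e) e)) (c (c (c (c (c (c (c (p (nat_lit 0x3d5454e)) e) e) e)
  e) e) e) e))) (c (c (c (c (c (c (c (c (p (nat_lit 0x2a34fda)) (c (m (nat_lit 0x7e29f4)) e)) (c (c (m
  (nat_lit 0x7da6a8)) e) e)) (c (c (c (p (nat_lit 0x2667f0)) e) e) e)) (c (c (c (c (m (nat_lit 0xe5237e)) e)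
  e) e) e)) (c (c (c (c (c (p (nat_lit 0x46eb88)) e) e) e) e) e)) (c (c (c (c (c (c (p (nat_lit 0x98eb7e)) e)
  e) e) e) e) e)) (c (c (c (c (c (c (c (m (nat_lit 0x1a9d612)) e) e) e) e) e) e) e)) (c (c (c (c (c (c (c (c
  (m (nat_lit 0xa8eb8c)) e) e) e) e) e) e) e) e)))) (c (c (c (c (c (c (c (c (c (p (nat_lit 0x2c7378)) (c (m
  (nat_lit 0x1d62bcc)) (c (p (nat_lit 0x848f88)) e))) (c (c (m (nat_lit 0x1b9f840)) (c (p (nat_lit 0xc27480))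
  e)) (c (c (m (nat_lit 0x1a550)) e) e))) (c (c (c (m (nat_lit 0x9986f4)) (c (p (nat_lit 0x76066e)) e)) (c (c
  (p (nat_lit 0x2c271c)) e) e)) (c (c (c (p (nat_lit 0x528774)) e) e) e))) (c (c (c (c (m (nat_lit
  0x16c6cec)) (c (p (nat_lit 0x3217a4)) e)) (c (c (p (nat_lit 0x15bff58)) e) e)) (c (c (c (p (nat_lit
  0x52c95c)) e) e) e)) (c (c (c (c (m (nat_lit 0xcc6a0e)) e) e) e) e))) (c (c (c (c (c (m (nat_lit
  0x2cdfae0)) (c (p (nat_lit 0x146208c)) e)) (c (c (p (nat_lit 0xe2a30a)) e) e)) (c (c (c (m (nat_lit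
  0x1448ac)) e) e) e)) (c (c (c (c (p (nat_lit 0x91bc42)) e) e) e) e)) (c (c (c (c (c (m (nat_lit 0x49e86a))
  e) e) e) e) e))) (c (c (c (c (c (c (p (nat_lit 0x5a3e2e)) (c (m (nat_lit 0xaa502)) e)) (c (c (m (nat_lit
  0x4e738c)) e) e)) (c (c (c (m (nat_lit 0x530aae)) e) e) e)) (c (c (c (c (p (nat_lit 0x5c851e)) e) e) e) e))
  (c (c (c (c (c (p (nat_lit 0x48282c)) e) e) e) e) e)) (c (c (c (c (c (c (m (nat_lit 0x39abf0)) e) e) e) e)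
  e) e))) (c (c (c (c (c (c (c (m (nat_lit 0x12e8d5e)) (c (p (nat_lit 0xb8f41c)) e)) (c (c (p (nat_lit
  0x7b68fa)) e) e)) (c (c (c (m (nat_lit 0x6bd828)) e) e) e)) (c (c (c (c (p (nat_lit 0xf57594)) e) e) e) e))
  (c (c (c (c (c (p (nat_lit 0x12a6d10)) e) e) e) e) e)) (c (c (c (c (c (c (p (nat_lit 0x1b8ae4)) e) e) e) e)
  e) e)) (c (c (c (c (c (c (c (p (nat_lit 0x2ec37b8)) e) e) e) e) e) e) e))) (c (c (c (c (c (c (c (c (p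
  (nat_lit 0x2a35010)) (c (m (nat_lit 0x7da678)) e)) (c (c (m (nat_lit 0x7e29d6)) e) e)) (c (c (c (p (nat_lit
  0x26680e)) e) e) e)) (c (c (c (c (p (nat_lit 0x46ebc4)) e) e) e) e)) (c (c (c (c (c (m (nat_lit 0xe52348))
  e) e) e) e) e)) (c (c (c (c (c (c (p (nat_lit 0x98eba8)) e) e) e) e) e) e)) (c (c (c (c (c (c (c (m
  (nat_lit 0x1e0d998)) e) e) e) e) e) e) e)) (c (c (c (c (c (c (c (c (p (nat_lit 0x344076)) e) e) e) e) e) e)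
  e) e))) (c (c (c (c (c (c (c (c (c (m (nat_lit 0x2d7ba2)) (c (m (nat_lit 0xcd500)) e)) (c (c (p (nat_lit
  0x25fc38)) e) e)) (c (c (c (p (nat_lit 0x32b75e)) e) e) e)) (c (c (c (c (m (nat_lit 0x108e7c)) e) e) e) e))
  (c (c (c (c (c (p (nat_lit 0x4659ae)) e) e) e) e) e)) (c (c (c (c (c (c (p (nat_lit 0x10bc1e)) e) e) e) e)
  e) e)) (c (c (c (c (c (c (c (m (nat_lit 0x1329018)) e) e) e) e) e) e) e)) (c (c (c (c (c (c (c (c (m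
  (nat_lit 0xa8ebe6)) e) e) e) e) e) e) e) e)) (c (c (c (c (c (c (c (c (c (p (nat_lit 0x98b872)) e) e) e) e)
  e) e) e) e) e)))))

noncomputable def gt_0_0_4 : Tr :=
  (c (c (c (c (c (c (c (c (c (p (nat_lit 0x25b617a)) (c (m (nat_lit 0x20b7fe8)) (c (p (nat_lit 0x1016ba4))
  e))) (c (c (m (nat_lit 0x20b75e6)) (c (m (nat_lit 0x4f5a02)) e)) (c (c (p (nat_lit 0x1016b8c)) e) e))) (c
  (c (c (m (nat_lit 0x3b32d7c)) (c (p (nat_lit 0x712a28)) e)) (c (c (p (nat_lit 0x712a22)) e) e)) (c (c (c (p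
  (nat_lit 0x17ae088)) e) e) e))) (c (c (c (c (m (nat_lit 0x1d98c50)) (c (p (nat_lit 0x2900934)) (c (m
  (nat_lit 0x46e0b4)) e))) (c (c (p (nat_lit 0x241082a)) (c (p (nat_lit 0xaae44)) e)) (c (c (p (nat_lit
  0x1a0e20)) e) e))) (c (c (c (p (nat_lit 0x1c16112)) (c (p (nat_lit 0x14dc5b8)) e)) (c (c (m (nat_lit
  0x104ea76)) e) e)) (c (c (c (p (nat_lit 0x7dea40)) e) e) e))) (c (c (c (c (p (nat_lit 0x36318c)) (c (m
  (nat_lit 0x95bd40)) (c (p (nat_lit 0xca80c0)) e))) (c (c (m (nat_lit 0xb9d048)) (c (m (nat_lit 0xbfa8d0))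
  e)) (c (c (p (nat_lit 0x6fdf02)) e) e))) (c (c (c (m (nat_lit 0x223aeb0)) (c (m (nat_lit 0x37b234)) e)) (c
  (c (m (nat_lit 0x76656)) e) e)) (c (c (c (p (nat_lit 0x1e03648)) e) e) e))) e))) (c (c (c (c (c (m (nat_lit
  0x1d989fe)) (c (p (nat_lit 0x240fde0)) (c (p (nat_lit 0x1a0dc6)) e))) (c (c (p (nat_lit 0x28fee82)) (c (p
  (nat_lit 0xac140)) e)) (c (c (m (nat_lit 0x46e0f6)) e) e))) (c (c (c (p (nat_lit 0x1c1609a)) (c (m (nat_lit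
  0x104e938)) e)) (c (c (p (nat_lit 0x14dc6a8)) e) e)) (c (c (c (p (nat_lit 0x7deab8)) e) e) e))) (c (c (c (c
  (p (nat_lit 0x1765920)) (c (m (nat_lit 0xaa26aa)) (c (m (nat_lit 0xc4e5e2)) e))) (c (c (m (nat_lit
  0xaa2b66)) (c (p (nat_lit 0x73a4ae)) e)) (c (c (m (nat_lit 0xc4e5ca)) e) e))) (c (c (c (m (nat_lit
  0x280a508)) (c (p (nat_lit 0xe938da)) e)) (c (c (p (nat_lit 0xe938f8)) e) e)) (c (c (c (p (nat_lit
  0x131e938)) e) e) e))) e)) (c (c (c (c (c (p (nat_lit 0x363138)) (c (m (nat_lit 0xb9d060)) (c (p (nat_lit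
  0x6fdf0e)) e))) (c (c (m (nat_lit 0x95bd22)) (c (m (nat_lit 0xbfa8f4)) e)) (c (c (p (nat_lit 0xca80e4)) e)
  e))) (c (c (c (m (nat_lit 0x223ad78)) (c (m (nat_lit 0x76686)) e)) (c (c (m (nat_lit 0x37b270)) e) e)) (c
  (c (c (p (nat_lit 0x1e03588)) e) e) e))) e) e))) (c (c (c (c (c (c (p (nat_lit 0x4b9c0c6)) (c (m (nat_lit
  0x24f9660)) (c (m (nat_lit 0x8d2172)) e))) (c (c (m (nat_lit 0x24fa29c)) (c (p (nat_lit 0xb1ac62)) e)) (c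
  (c (m (nat_lit 0x8d2190)) e) e))) (c (c (c (m (nat_lit 0x17e6c2)) (c (p (nat_lit 0x2f5848)) e)) (c (c (p
  (nat_lit 0x2f57e8)) e) e)) (c (c (c (p (nat_lit 0x6418fc8)) e) e) e))) (c (c (c (c (m (nat_lit 0x3103f2))
  (c (p (nat_lit 0xc7c38)) (c (m (nat_lit 0x17ca24)) e))) (c (c (m (nat_lit 0x37d41e)) (c (p (nat_lit
  0x2793ba)) e)) (c (c (m (nat_lit 0xcf1c8)) e) e))) (c (c (c (p (nat_lit 0x81a440)) (c (m (nat_lit
  0x37d57a)) e)) (c (c (p (nat_lit 0x6c088e)) e) e)) (c (c (c (m (nat_lit 0x1bf2a90)) e) e) e))) e)) (c (c (c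
  (c (c (m (nat_lit 0x3101a6)) (c (m (nat_lit 0x37d424)) (c (m (nat_lit 0xcf1c8)) e))) (c (c (p (nat_lit
  0xc7d64)) (c (p (nat_lit 0x278f5e)) e)) (c (c (m (nat_lit 0x17ca00)) e) e))) (c (c (c (p (nat_lit
  0x81a4e8)) (c (p (nat_lit 0x6c0828)) e)) (c (c (m (nat_lit 0x37d5a4)) e) e)) (c (c (c (m (nat_lit
  0x1bf2a00)) e) e) e))) e) e)) (c (c (c (c (c (c (m (nat_lit 0xbb04be)) (c (p (nat_lit 0xced1a4)) (c (p
  (nat_lit 0x43ba5c)) e))) (c (c (p (nat_lit 0xced1da)) (c (p (nat_lit 0x1b4c2)) e)) (c (c (p (nat_lit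
  0x43ba50)) e) e))) (c (c (c (p (nat_lit 0x2937ac8)) (c (m (nat_lit 0x40e174)) e)) (c (c (m (nat_lit
  0x40e174)) e) e)) (c (c (c (m (nat_lit 0x24f3180)) e) e) e))) e) e) e))) (c (c (c (c (c (c (c (m (nat_lit
  0xba6229e)) (c (p (nat_lit 0x1767738)) (c (p (nat_lit 0x477b3a)) e))) (c (c (p (nat_lit 0x1767690)) (c (p
  (nat_lit 0x17228d0)) e)) (c (c (p (nat_lit 0x477b58)) e) e))) (c (c (c (p (nat_lit 0xc8bdf4c)) (c (m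
  (nat_lit 0x14ee57c)) e)) (c (c (m (nat_lit 0x14ee564)) e) e)) (c (c (c (p (nat_lit 0x22d250)) e) e) e))) (c
  (c (c (c (p (nat_lit 0x279adee)) (c (m (nat_lit 0x32c301c)) (c (m (nat_lit 0x1b860a)) e))) (c (c (p
  (nat_lit 0x2ebf8a)) (c (m (nat_lit 0x743f34)) e)) (c (c (m (nat_lit 0x31c84e)) e) e))) (c (c (c (m (nat_lit
  0x4827168)) (c (m (nat_lit 0x140844)) e)) (c (c (p (nat_lit 0x57000)) e) e)) (c (c (c (m (nat_lit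
  0x92a0d8)) e) e) e))) (c (c (c (c (p (nat_lit 0x1ba9bea)) (c (m (nat_lit 0xd7769c)) e)) (c (c (m (nat_lit
  0x437484)) e) e)) (c (c (c (m (nat_lit 0x4e3c0)) e) e) e)) e))) (c (c (c (c (c (p (nat_lit 0x279ae00)) (c
  (p (nat_lit 0x2ec00e)) (c (m (nat_lit 0x31c836)) e))) (c (c (m (nat_lit 0x32c2f62)) (c (m (nat_lit
  0x743f46)) e)) (c (c (m (nat_lit 0x1b8616)) e) e))) (c (c (c (m (nat_lit 0x48271f2)) (c (p (nat_lit
  0x5700c)) e)) (c (c (m (nat_lit 0x14082c)) e) e)) (c (c (c (m (nat_lit 0x92a000)) e) e) e))) (c (c (c (c (m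
  (nat_lit 0xe74f1a)) (c (p (nat_lit 0xb9f17e)) e)) (c (c (p (nat_lit 0xb9f172)) e) e)) (c (c (c (m (nat_lit
  0x54450)) e) e) e)) e)) (c (c (c (c (c (p (nat_lit 0x1ba9c08)) (c (m (nat_lit 0x437490)) e)) (c (c (m
  (nat_lit 0xd776b4)) e) e)) (c (c (c (m (nat_lit 0x4e3c0)) e) e) e)) e) e))) (c (c (c (c (c (c (p (nat_lit
  0x29a8e6e)) (c (p (nat_lit 0x132179a)) (c (m (nat_lit 0x46b8a)) e))) (c (c (p (nat_lit 0x132216c)) (c (m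
  (nat_lit 0xc151d4)) e)) (c (c (m (nat_lit 0x46b90)) e) e))) (c (c (c (m (nat_lit 0x1099378e)) (c (p
  (nat_lit 0x141e13c)) e)) (c (c (p (nat_lit 0x141e154)) e) e)) (c (c (c (p (nat_lit 0x65a0fd8)) e) e) e)))
  (c (c (c (c (m (nat_lit 0x416508)) (c (p (nat_lit 0x11b3cc8)) e)) (c (c (p (nat_lit 0x10ac2d4)) e) e)) (c
  (c (c (p (nat_lit 0x31a070)) e) e) e)) e)) (c (c (c (c (c (m (nat_lit 0x416514)) (c (p (nat_lit 0x10ac298))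
  e)) (c (c (p (nat_lit 0x11b3c86)) e) e)) (c (c (c (p (nat_lit 0x31a088)) e) e) e)) e) e)) (c (c (c (c (c (c
  (p (nat_lit 0x5fd090)) (c (m (nat_lit 0x104f8ec)) e)) (c (c (m (nat_lit 0x104f8da)) e) e)) (c (c (c (m
  (nat_lit 0x536b38)) e) e) e)) e) e) e))) (c (c (c (c (c (c (c (p (nat_lit 0x6f850bc)) (c (p (nat_lit
  0x6d5276)) (c (m (nat_lit 0x5d2c10)) e))) (c (c (p (nat_lit 0x6d529a)) (c (m (nat_lit 0x133548)) e)) (c (c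
  (m (nat_lit 0x5d2c1c)) e) e))) (c (c (c (m (nat_lit 0xd79e08)) (c (m (nat_lit 0x5d2592)) e)) (c (c (m
  (nat_lit 0x5d259e)) e) e)) (c (c (c (m (nat_lit 0x3dc9890)) e) e) e))) (c (c (c (c (m (nat_lit 0x53bb894))
  (c (p (nat_lit 0x3a23174)) e)) (c (c (m (nat_lit 0x154ac4c)) e) e)) (c (c (c (p (nat_lit 0x384e9a6)) e) e)
  e)) (c (c (c (c (m (nat_lit 0x1122d80)) e) e) e) e))) (c (c (c (c (c (m (nat_lit 0x53bb82e)) (c (m (nat_lit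
  0x154ac52)) e)) (c (c (p (nat_lit 0x3a23174)) e) e)) (c (c (c (p (nat_lit 0x384e9a0)) e) e) e)) (c (c (c (c
  (p (nat_lit 0xc7ea3e)) e) e) e) e)) (c (c (c (c (c (m (nat_lit 0x1122da4)) e) e) e) e) e))) (c (c (c (c (c
  (c (m (nat_lit 0x46e4a0a)) (c (m (nat_lit 0x1eb694c)) e)) (c (c (m (nat_lit 0x1eb6952)) e) e)) (c (c (c (p
  (nat_lit 0x649f7e8)) e) e) e)) (c (c (c (c (p (nat_lit 0x32ff4c)) e) e) e) e)) (c (c (c (c (c (p (nat_lit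
  0x32ff3a)) e) e) e) e) e)) (c (c (c (c (c (c (m (nat_lit 0x29e60e)) e) e) e) e) e) e))) (c (c (c (c (c (c
  (c (p (nat_lit 0x5bd1ea)) (c (p (nat_lit 0x61d340)) e)) (c (c (p (nat_lit 0x61d340)) e) e)) (c (c (c (m
  (nat_lit 0x2e75fb0)) e) e) e)) (c (c (c (c (p (nat_lit 0x3392cdc)) e) e) e) e)) (c (c (c (c (c (p (nat_lit
  0x3392cfa)) e) e) e) e) e)) (c (c (c (c (c (c (p (nat_lit 0xcefd06)) e) e) e) e) e) e)) (c (c (c (c (c (c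
  (c (m (nat_lit 0x8bb4c8)) e) e) e) e) e) e) e))))) (c (c (c (c (c (c (c (c (m (nat_lit 0x1cc3782)) (c (p
  (nat_lit 0xf4a66a)) (c (m (nat_lit 0x7a48fa)) e))) (c (c (p (nat_lit 0x930432)) (c (m (nat_lit 0x8e2daa))
  e)) (c (c (m (nat_lit 0x12cd7dc)) e) e))) (c (c (c (p (nat_lit 0x16d8008)) (c (p (nat_lit 0x89172c)) e)) (c
  (c (m (nat_lit 0x11d9f6)) e) e)) (c (c (c (m (nat_lit 0x2755ed8)) e) e) e))) (c (c (c (c (p (nat_lit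
  0x1a6fb8c)) (c (m (nat_lit 0xd66f26)) (c (m (nat_lit 0xb022c)) e))) (c (c (p (nat_lit 0x119e182)) (c (p
  (nat_lit 0x82bb94)) e)) (c (c (p (nat_lit 0x608b5c)) e) e))) (c (c (c (m (nat_lit 0xd00f98)) (c (p (nat_lit
  0x83ec8)) e)) (c (c (p (nat_lit 0x3cd7ca)) e) e)) (c (c (c (p (nat_lit 0xc34380)) e) e) e))) (c (c (c (c (p
  (nat_lit 0xd4fbda)) (c (p (nat_lit 0x3650fa)) e)) (c (c (m (nat_lit 0xf5569e)) e) e)) (c (c (c (m (nat_lit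
  0x4696a4)) e) e) e)) e))) (c (c (c (c (c (m (nat_lit 0x11b10d0)) (c (p (nat_lit 0xeca0)) (c (m (nat_lit
  0x6b428e)) e))) (c (c (m (nat_lit 0x30e7b58)) (c (p (nat_lit 0x9ad394)) e)) (c (c (p (nat_lit 0x9bb8)) e)
  e))) (c (c (c (p (nat_lit 0x30095c4)) (c (p (nat_lit 0x28eeb8)) e)) (c (c (m (nat_lit 0xadbb30)) e) e)) (c
  (c (c (m (nat_lit 0x3482730)) e) e) e))) (c (c (c (c (m (nat_lit 0x4d89a4)) (c (p (nat_lit 0x5d1dee)) e))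
  (c (c (p (nat_lit 0x5a39e4)) e) e)) (c (c (c (m (nat_lit 0x3d2732)) e) e) e)) e)) (c (c (c (c (c (p
  (nat_lit 0xc4d748)) (c (p (nat_lit 0x4029c)) e)) (c (c (m (nat_lit 0x11ee66)) e) e)) (c (c (c (m (nat_lit
  0x6e2a16)) e) e) e)) e) e))) (c (c (c (c (c (c (m (nat_lit 0x1f442ac)) (c (m (nat_lit 0x475aac)) (c (p
  (nat_lit 0x8a7782)) e))) (c (c (p (nat_lit 0x1e765de)) (c (m (nat_lit 0x344c76)) e)) (c (c (p (nat_lit
  0x3dee1c)) e) e))) (c (c (c (m (nat_lit 0xba82a4)) (c (m (nat_lit 0x662dc0)) e)) (c (c (p (nat_lit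
  0x33679e)) e) e)) (c (c (c (m (nat_lit 0x20a1e48)) e) e) e))) (c (c (c (c (m (nat_lit 0x1504fbc)) (c (m
  (nat_lit 0xa21da)) e)) (c (c (p (nat_lit 0xa8a956)) e) e)) (c (c (c (p (nat_lit 0x3d159e)) e) e) e)) e)) (c
  (c (c (c (c (m (nat_lit 0x487392)) (c (p (nat_lit 0x53ac9c)) e)) (c (c (p (nat_lit 0x7ef522)) e) e)) (c (c
  (c (p (nat_lit 0xcf2a2a)) e) e) e)) e) e)) (c (c (c (c (c (c (p (nat_lit 0x458196)) (c (m (nat_lit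
  0x9ff156)) e)) (c (c (m (nat_lit 0x9435b4)) e) e)) (c (c (c (p (nat_lit 0x610f74)) e) e) e)) e) e) e))) (c
  (c (c (c (c (c (c (p (nat_lit 0x8f6eec6)) (c (m (nat_lit 0xcbdf72)) (c (p (nat_lit 0x346542)) e))) (c (c (p
  (nat_lit 0x53f89e)) (c (m (nat_lit 0x2cf34c)) e)) (c (c (p (nat_lit 0x586ecc)) e) e))) (c (c (c (m (nat_lit
  0x5b0cec6)) (c (p (nat_lit 0x285612)) e)) (c (c (p (nat_lit 0x70b000)) e) e)) (c (c (c (p (nat_lit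
  0xc87c78)) e) e) e))) (c (c (c (c (m (nat_lit 0x9a5d14)) (c (p (nat_lit 0x29aa86)) e)) (c (c (p (nat_lit
  0x8e62de)) e) e)) (c (c (c (p (nat_lit 0x12e63a6)) e) e) e)) (c (c (c (c (m (nat_lit 0x6ad9fa)) e) e) e)
  e))) (c (c (c (c (c (m (nat_lit 0x1505658)) (c (p (nat_lit 0x132520e)) e)) (c (c (m (nat_lit 0xfbe320)) e)
  e)) (c (c (c (p (nat_lit 0x1f21092)) e) e) e)) (c (c (c (c (p (nat_lit 0x1087ec)) e) e) e) e)) (c (c (c (c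
  (c (p (nat_lit 0x19bd2c)) e) e) e) e) e))) (c (c (c (c (c (c (p (nat_lit 0x18cf54c)) (c (p (nat_lit
  0x6dfbf0)) e)) (c (c (p (nat_lit 0x5d540)) e) e)) (c (c (c (p (nat_lit 0x9e0ade)) e) e) e)) (c (c (c (c (m
  (nat_lit 0x26b18e)) e) e) e) e)) (c (c (c (c (c (m (nat_lit 0x80f256)) e) e) e) e) e)) (c (c (c (c (c (c (p
  (nat_lit 0xc923b8)) e) e) e) e) e) e))) (c (c (c (c (c (c (c (m (nat_lit 0x4f12698)) (c (m (nat_lit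
  0x9cebb0)) e)) (c (c (p (nat_lit 0x50343c)) e) e)) (c (c (c (p (nat_lit 0x2f5e114)) e) e) e)) (c (c (c (c
  (p (nat_lit 0x5121c)) e) e) e) e)) (c (c (c (c (c (m (nat_lit 0x3fc1d4)) e) e) e) e) e)) (c (c (c (c (c (c
  (p (nat_lit 0x15ed876)) e) e) e) e) e) e)) (c (c (c (c (c (c (c (m (nat_lit 0x1f789f8)) e) e) e) e) e) e)
  e)))) (c (c (c (c (c (c (c (c (p (nat_lit 0x205a106)) (c (p (nat_lit 0xd2226e)) (c (m (nat_lit 0x962556))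
  e))) (c (c (m (nat_lit 0x877c8c)) (c (p (nat_lit 0x6b416e)) e)) (c (c (m (nat_lit 0x5d2ee)) e) e))) (c (c
  (c (p (nat_lit 0x29c1ca2)) (c (m (nat_lit 0x27ec8e)) e)) (c (c (m (nat_lit 0x2225ca)) e) e)) (c (c (c (p
  (nat_lit 0x239bc8)) e) e) e))) (c (c (c (c (m (nat_lit 0x2780400)) (c (p (nat_lit 0x927d2c)) e)) (c (c (m
  (nat_lit 0x522504)) e) e)) (c (c (c (p (nat_lit 0x2a69b4)) e) e) e)) (c (c (c (c (m (nat_lit 0x3e5d88)) e)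
  e) e) e))) (c (c (c (c (c (p (nat_lit 0x6a660e)) (c (m (nat_lit 0x4eafe0)) e)) (c (c (p (nat_lit
  0x26fbf08)) e) e)) (c (c (c (m (nat_lit 0x3de678)) e) e) e)) (c (c (c (c (p (nat_lit 0x44dea6)) e) e) e)
  e)) (c (c (c (c (c (m (nat_lit 0xd23528)) e) e) e) e) e))) (c (c (c (c (c (c (m (nat_lit 0x1baabfe)) (c (p
  (nat_lit 0xc25494)) e)) (c (c (m (nat_lit 0x991860)) e) e)) (c (c (c (p (nat_lit 0x1ac160)) e) e) e)) (c (c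
  (c (c (p (nat_lit 0xbf86ec)) e) e) e) e)) (c (c (c (c (c (p (nat_lit 0x25f45e)) e) e) e) e) e)) (c (c (c (c
  (c (c (p (nat_lit 0x1494d2)) e) e) e) e) e) e))) (c (c (c (c (c (c (c (m (nat_lit 0x363a788)) (c (m
  (nat_lit 0x7da4bc)) e)) (c (c (m (nat_lit 0x3ea44a)) e) e)) (c (c (c (m (nat_lit 0x112a100)) e) e) e)) (c
  (c (c (c (p (nat_lit 0x905ae4)) e) e) e) e)) (c (c (c (c (c (p (nat_lit 0x1366eb4)) e) e) e) e) e)) (c (c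
  (c (c (c (c (m (nat_lit 0x1212b28)) e) e) e) e) e) e)) (c (c (c (c (c (c (c (p (nat_lit 0x287683e)) e) e)
  e) e) e) e) e))) (c (c (c (c (c (c (c (c (m (nat_lit 0xf91b6c)) (c (p (nat_lit 0x24e208)) e)) (c (c (p
  (nat_lit 0x3ab00)) e) e)) (c (c (c (m (nat_lit 0x5052a2)) e) e) e)) (c (c (c (c (p (nat_lit 0x487710)) e)
  e) e) e)) (c (c (c (c (c (m (nat_lit 0xf966ba)) e) e) e) e) e)) (c (c (c (c (c (c (p (nat_lit 0xce7ba6)) e)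
  e) e) e) e) e)) (c (c (c (c (c (c (c (p (nat_lit 0x2ae7d2)) e) e) e) e) e) e) e)) (c (c (c (c (c (c (c (c
  (p (nat_lit 0x8ce82a)) e) e) e) e) e) e) e) e))))) (c (c (c (c (c (c (c (c (c (m (nat_lit 0x1cc3746)) (c (p
  (nat_lit 0x93037e)) (c (m (nat_lit 0x12cd80c)) e))) (c (c (p (nat_lit 0xf4a694)) (c (m (nat_lit 0x8e2d74))
  e)) (c (c (m (nat_lit 0x7a493c)) e) e))) (c (c (c (p (nat_lit 0x16d8050)) (c (m (nat_lit 0x11da14)) e)) (c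
  (c (p (nat_lit 0x891732)) e) e)) (c (c (c (m (nat_lit 0x2756010)) e) e) e))) (c (c (c (c (m (nat_lit
  0x11b10be)) (c (m (nat_lit 0x30e7ada)) (c (p (nat_lit 0x9bdc)) e))) (c (c (p (nat_lit 0xebc8)) (c (p
  (nat_lit 0x9ad370)) e)) (c (c (m (nat_lit 0x6b4282)) e) e))) (c (c (c (p (nat_lit 0x3009522)) (c (m
  (nat_lit 0xadbb1e)) e)) (c (c (p (nat_lit 0x28eefa)) e) e)) (c (c (c (m (nat_lit 0x3482670)) e) e) e))) (c
  (c (c (c (p (nat_lit 0xc4d724)) (c (m (nat_lit 0x11ee30)) e)) (c (c (p (nat_lit 0x402a8)) e) e)) (c (c (c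
  (m (nat_lit 0x6e2a22)) e) e) e)) e))) (c (c (c (c (c (p (nat_lit 0x1a6fad8)) (c (p (nat_lit 0x119e2c0)) (c
  (p (nat_lit 0x608b7a)) e))) (c (c (m (nat_lit 0xd66f2c)) (c (p (nat_lit 0x82bb70)) e)) (c (c (m (nat_lit
  0xb020e)) e) e))) (c (c (c (m (nat_lit 0xd00f68)) (c (p (nat_lit 0x3cd794)) e)) (c (c (p (nat_lit 0x83eaa))
  e) e)) (c (c (c (p (nat_lit 0xc34338)) e) e) e))) (c (c (c (c (m (nat_lit 0x4d897a)) (c (p (nat_lit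
  0x5a39b4)) e)) (c (c (p (nat_lit 0x5d1e1e)) e) e)) (c (c (c (m (nat_lit 0x3d2714)) e) e) e)) e)) (c (c (c
  (c (c (p (nat_lit 0xd4fbe6)) (c (m (nat_lit 0xf55686)) e)) (c (c (p (nat_lit 0x3650e2)) e) e)) (c (c (c (m
  (nat_lit 0x469698)) e) e) e)) e) e))) (c (c (c (c (c (c (m (nat_lit 0x1f443f6)) (c (p (nat_lit 0x1e766a4))
  (c (p (nat_lit 0x3dee2e)) e))) (c (c (m (nat_lit 0x475b60)) (c (m (nat_lit 0x344c76)) e)) (c (c (p (nat_lit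
  0x8a7794)) e) e))) (c (c (c (m (nat_lit 0xba8274)) (c (p (nat_lit 0x336768)) e)) (c (c (m (nat_lit
  0x662dde)) e) e)) (c (c (c (m (nat_lit 0x20a1e60)) e) e) e))) (c (c (c (c (m (nat_lit 0x48733e)) (c (p
  (nat_lit 0x7ef504)) e)) (c (c (p (nat_lit 0x53accc)) e) e)) (c (c (c (p (nat_lit 0xcf2a48)) e) e) e)) e))
  (c (c (c (c (c (m (nat_lit 0x1504f50)) (c (p (nat_lit 0xa8a8f6)) e)) (c (c (m (nat_lit 0xa21bc)) e) e)) (c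
  (c (c (p (nat_lit 0x3d15c8)) e) e) e)) e) e)) (c (c (c (c (c (c (p (nat_lit 0x458160)) (c (m (nat_lit
  0x94355a)) e)) (c (c (m (nat_lit 0x9ff150)) e) e)) (c (c (c (p (nat_lit 0x610f68)) e) e) e)) e) e) e))) (c
  (c (c (c (c (c (c (p (nat_lit 0x8fd55c2)) (c (p (nat_lit 0x51fbac)) (c (p (nat_lit 0x586ecc)) e))) (c (c (m
  (nat_lit 0xc88f38)) (c (m (nat_lit 0x2cf358)) e)) (c (c (p (nat_lit 0x346542)) e) e))) (c (c (c (m (nat_lit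
  0x5b39380)) (c (p (nat_lit 0x70b024)) e)) (c (c (p (nat_lit 0x285618)) e) e)) (c (c (c (p (nat_lit
  0xc87d08)) e) e) e))) (c (c (c (c (m (nat_lit 0x137fcfa)) (c (m (nat_lit 0xecd59a)) e)) (c (c (p (nat_lit
  0xfb9568)) e) e)) (c (c (c (p (nat_lit 0x166c9e6)) e) e) e)) (c (c (c (c (p (nat_lit 0x19bcf6)) e) e) e)
  e))) (c (c (c (c (c (m (nat_lit 0x3941e2)) (c (p (nat_lit 0x6fb7c0)) e)) (c (c (p (nat_lit 0x5b7418)) e)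
  e)) (c (c (c (p (nat_lit 0x103eb1c)) e) e) e)) (c (c (c (c (p (nat_lit 0x108810)) e) e) e) e)) (c (c (c (c
  (c (m (nat_lit 0x6ad9ee)) e) e) e) e) e))) (c (c (c (c (c (c (p (nat_lit 0x12102e4)) (c (p (nat_lit
  0x10a472)) e)) (c (c (p (nat_lit 0x79a09a)) e) e)) (c (c (c (p (nat_lit 0x14d4d28)) e) e) e)) (c (c (c (c
  (m (nat_lit 0x80f286)) e) e) e) e)) (c (c (c (c (c (m (nat_lit 0x26b1a0)) e) e) e) e) e)) (c (c (c (c (c (c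
  (p (nat_lit 0xc923b8)) e) e) e) e) e) e))) (c (c (c (c (c (c (c (m (nat_lit 0x50f011e)) (c (p (nat_lit
  0x4ff54e)) e)) (c (c (m (nat_lit 0xa41852)) e) e)) (c (c (c (p (nat_lit 0x31925b8)) e) e) e)) (c (c (c (c
  (p (nat_lit 0x45540)) e) e) e) e)) (c (c (c (c (c (m (nat_lit 0x275b74)) e) e) e) e) e)) (c (c (c (c (c (c
  (p (nat_lit 0x1406988)) e) e) e) e) e) e)) (c (c (c (c (c (c (c (m (nat_lit 0x1f51f5c)) e) e) e) e) e) e)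
  e)))) (c (c (c (c (c (c (c (c (p (nat_lit 0x413cac)) (c (m (nat_lit 0xecfb2)) (c (p (nat_lit 0xb95392))
  e))) (c (c (m (nat_lit 0xecec8)) (c (m (nat_lit 0x7daa38)) e)) (c (c (p (nat_lit 0xb953a4)) e) e))) (c (c
  (c (m (nat_lit 0x3b1138c)) (c (m (nat_lit 0xf1c3e)) e)) (c (c (m (nat_lit 0xf1c50)) e) e)) (c (c (c (p
  (nat_lit 0x4a143e0)) e) e) e))) (c (c (c (c (m (nat_lit 0x9b5a8e)) (c (m (nat_lit 0x916a94)) e)) (c (c (m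
  (nat_lit 0xc7b71a)) e) e)) (c (c (c (m (nat_lit 0x3cc70e)) e) e) e)) (c (c (c (c (p (nat_lit 0xf752fa)) e)
  e) e) e))) (c (c (c (c (c (m (nat_lit 0x9b5a16)) (c (m (nat_lit 0xc7b726)) e)) (c (c (m (nat_lit 0x916a76))
  e) e)) (c (c (c (m (nat_lit 0x3cc6de)) e) e) e)) (c (c (c (c (p (nat_lit 0x4006f2)) e) e) e) e)) (c (c (c
  (c (c (p (nat_lit 0xf752e8)) e) e) e) e) e))) (c (c (c (c (c (c (p (nat_lit 0x583884)) (c (p (nat_lit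
  0x2baee0)) e)) (c (c (p (nat_lit 0x2baf0a)) e) e)) (c (c (c (p (nat_lit 0x49efa8)) e) e) e)) (c (c (c (c (p
  (nat_lit 0x1a107e)) e) e) e) e)) (c (c (c (c (c (p (nat_lit 0x1a1084)) e) e) e) e) e)) (c (c (c (c (c (c (m
  (nat_lit 0x191f352)) e) e) e) e) e) e))) (c (c (c (c (c (c (c (m (nat_lit 0x11e36e6)) (c (m (nat_lit
  0x1230bf4)) e)) (c (c (m (nat_lit 0x10b739e)) e) e)) (c (c (c (m (nat_lit 0x58d53e)) e) e) e)) (c (c (c (c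
  (p (nat_lit 0x713eda)) e) e) e) e)) (c (c (c (c (c (p (nat_lit 0x5c7342)) e) e) e) e) e)) (c (c (c (c (c (c
  (m (nat_lit 0x13eb2da)) e) e) e) e) e) e)) (c (c (c (c (c (c (c (p (nat_lit 0x1bf2a42)) e) e) e) e) e) e)
  e))) (c (c (c (c (c (c (c (c (p (nat_lit 0x6c54c6)) (c (p (nat_lit 0x33bc6a)) e)) (c (c (m (nat_lit
  0x5eea1a)) e) e)) (c (c (c (m (nat_lit 0x5a0e34)) e) e) e)) (c (c (c (c (p (nat_lit 0x7f6380)) e) e) e) e))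
  (c (c (c (c (c (p (nat_lit 0x1dc82)) e) e) e) e) e)) (c (c (c (c (c (c (p (nat_lit 0x1152096)) e) e) e) e)
  e) e)) (c (c (c (c (c (c (c (p (nat_lit 0x60846)) e) e) e) e) e) e) e)) (c (c (c (c (c (c (c (c (m (nat_lit
  0x98db76)) e) e) e) e) e) e) e) e)))) (c (c (c (c (c (c (c (c (c (p (nat_lit 0x205a0d6)) (c (m (nat_lit
  0x877bea)) (c (m (nat_lit 0x5d2f4)) e))) (c (c (p (nat_lit 0xd2223e)) (c (p (nat_lit 0x6b416e)) e)) (c (c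
  (m (nat_lit 0x962556)) e) e))) (c (c (c (p (nat_lit 0x29c1cd2)) (c (m (nat_lit 0x2225b8)) e)) (c (c (m
  (nat_lit 0x27ec82)) e) e)) (c (c (c (p (nat_lit 0x239be0)) e) e) e))) (c (c (c (c (p (nat_lit 0x6a65ea)) (c
  (p (nat_lit 0x26fbea2)) e)) (c (c (m (nat_lit 0x4eafe6)) e) e)) (c (c (c (m (nat_lit 0x3de678)) e) e) e))
  (c (c (c (c (m (nat_lit 0xd23528)) e) e) e) e))) (c (c (c (c (c (m (nat_lit 0x27803ee)) (c (m (nat_lit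
  0x52254c)) e)) (c (c (p (nat_lit 0x927d38)) e) e)) (c (c (c (p (nat_lit 0x2a69ae)) e) e) e)) (c (c (c (c (p
  (nat_lit 0x44dee8)) e) e) e) e)) (c (c (c (c (c (m (nat_lit 0x3e5dbe)) e) e) e) e) e))) (c (c (c (c (c (c
  (m (nat_lit 0x1baabf8)) (c (m (nat_lit 0x9918a8)) e)) (c (c (p (nat_lit 0xc254c4)) e) e)) (c (c (c (p
  (nat_lit 0x1ac172)) e) e) e)) (c (c (c (c (p (nat_lit 0x25f4ac)) e) e) e) e)) (c (c (c (c (c (p (nat_lit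
  0xbf86f8)) e) e) e) e) e)) (c (c (c (c (c (c (p (nat_lit 0x1494c0)) e) e) e) e) e) e))) (c (c (c (c (c (c
  (c (m (nat_lit 0x3748a58)) (c (m (nat_lit 0x323952)) e)) (c (c (m (nat_lit 0x8a4452)) e) e)) (c (c (c (m
  (nat_lit 0x1250b92)) e) e) e)) (c (c (c (c (p (nat_lit 0x168f8e8)) e) e) e) e)) (c (c (c (c (c (p (nat_lit
  0x3fc2fa)) e) e) e) e) e)) (c (c (c (c (c (c (m (nat_lit 0x10f0da6)) e) e) e) e) e) e)) (c (c (c (c (c (c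
  (c (p (nat_lit 0x2a4d760)) e) e) e) e) e) e) e))) (c (c (c (c (c (c (c (c (p (nat_lit 0x6c54ba)) (c (m
  (nat_lit 0x5ee9d2)) e)) (c (c (p (nat_lit 0x33bc5e)) e) e)) (c (c (c (m (nat_lit 0x5a0e52)) e) e) e)) (c (c
  (c (c (p (nat_lit 0x1dc9a)) e) e) e) e)) (c (c (c (c (c (p (nat_lit 0x7f63a4)) e) e) e) e) e)) (c (c (c (c
  (c (c (p (nat_lit 0x11520d2)) e) e) e) e) e) e)) (c (c (c (c (c (c (c (m (nat_lit 0x168a1a)) e) e) e) e) e)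
  e) e)) (c (c (c (c (c (c (c (c (p (nat_lit 0x198b1c)) e) e) e) e) e) e) e) e))) (c (c (c (c (c (c (c (c (c
  (m (nat_lit 0xf91b60)) (c (p (nat_lit 0x3aaca)) e)) (c (c (p (nat_lit 0x24e21a)) e) e)) (c (c (c (m
  (nat_lit 0x5052ae)) e) e) e)) (c (c (c (c (m (nat_lit 0xf966ba)) e) e) e) e)) (c (c (c (c (c (p (nat_lit
  0x487728)) e) e) e) e) e)) (c (c (c (c (c (c (p (nat_lit 0xce7bbe)) e) e) e) e) e) e)) (c (c (c (c (c (c (c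
  (p (nat_lit 0x3cb3f4)) e) e) e) e) e) e) e)) (c (c (c (c (c (c (c (c (m (nat_lit 0x98dbbe)) e) e) e) e) e)
  e) e) e)) (c (c (c (c (c (c (c (c (c (p (nat_lit 0x8ce84e)) e) e) e) e) e) e) e) e) e)))))

noncomputable def gt_0_0_5 : Tr :=
  (c (c (c (c (c (c (c (c (c (m (nat_lit 0x24786e4)) (c (p (nat_lit 0x152a07e)) (c (m (nat_lit 0x88313a))
  e))) (c (c (m (nat_lit 0x5df6a2)) (c (p (nat_lit 0x76abce)) e)) (c (c (p (nat_lit 0x5668ce)) e) e))) (c (c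
  (c (p (nat_lit 0x14ddfbc)) (c (m (nat_lit 0xce028)) e)) (c (c (p (nat_lit 0x76ab9e)) e) e)) (c (c (c (m
  (nat_lit 0x88312e)) e) e) e))) (c (c (c (c (m (nat_lit 0xaab8d2)) (c (p (nat_lit 0x11f9736)) (c (m (nat_lit
  0x1168188)) e))) (c (c (m (nat_lit 0x2e9c42e)) (c (m (nat_lit 0xfa9b90)) e)) (c (c (m (nat_lit 0x203448))
  e) e))) (c (c (c (p (nat_lit 0x397f50)) (c (p (nat_lit 0x1a1bf16)) e)) (c (c (p (nat_lit 0x2db286)) e) e))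
  (c (c (c (p (nat_lit 0x710922)) e) e) e))) (c (c (c (c (m (nat_lit 0x8a9cae)) (c (p (nat_lit 0xbf304)) (c
  (p (nat_lit 0x1354e)) e))) (c (c (m (nat_lit 0x167ca6)) (c (p (nat_lit 0x68a63c)) e)) (c (c (p (nat_lit
  0x2b655a)) e) e))) (c (c (c (p (nat_lit 0x1be3892)) (c (m (nat_lit 0x245712)) e)) (c (c (m (nat_lit
  0x1d3b9e)) e) e)) (c (c (c (m (nat_lit 0xc53bc2)) e) e) e))) e))) (c (c (c (c (c (m (nat_lit 0x2e51788)) (c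
  (p (nat_lit 0x30425a0)) (c (m (nat_lit 0x1b761b2)) e))) (c (c (m (nat_lit 0x5146032)) (c (m (nat_lit
  0x371892)) e)) (c (c (p (nat_lit 0x2c73db0)) e) e))) (c (c (c (p (nat_lit 0x2ced934)) (c (m (nat_lit
  0x49cb96)) e)) (c (c (m (nat_lit 0x371880)) e) e)) (c (c (c (m (nat_lit 0x1b761dc)) e) e) e))) (c (c (c (c
  (p (nat_lit 0x106be4c)) (c (m (nat_lit 0x1508b8)) (c (p (nat_lit 0x3fad4c)) e))) (c (c (p (nat_lit
  0x10b494a)) (c (p (nat_lit 0x3b7348)) e)) (c (c (m (nat_lit 0x8590da)) e) e))) (c (c (c (m (nat_lit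
  0x6e80c8)) (c (m (nat_lit 0x45755a)) e)) (c (c (m (nat_lit 0xce0ac)) e) e)) (c (c (c (p (nat_lit 0x9b94f6))
  e) e) e))) e)) (c (c (c (c (c (m (nat_lit 0xd83318)) (c (m (nat_lit 0x1a942a)) (c (p (nat_lit 0x6bd600))
  e))) (c (c (p (nat_lit 0x1696fb6)) (c (m (nat_lit 0x4c65a2)) e)) (c (c (m (nat_lit 0x825780)) e) e))) (c (c
  (c (m (nat_lit 0x1a94d2)) (c (m (nat_lit 0x3cbf76)) e)) (c (c (m (nat_lit 0x4c6560)) e) e)) (c (c (c (p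
  (nat_lit 0x6bd5e2)) e) e) e))) e) e))) (c (c (c (c (c (c (p (nat_lit 0x522a14)) (c (p (nat_lit 0xe66b8)) (c
  (p (nat_lit 0x710946)) e))) (c (c (m (nat_lit 0x19a0e1a)) (c (p (nat_lit 0x2db21a)) e)) (c (c (m (nat_lit
  0x20343c)) e) e))) (c (c (c (p (nat_lit 0x17da4f4)) (c (p (nat_lit 0x1a1be0e)) e)) (c (c (m (nat_lit
  0xfa9b6c)) e) e)) (c (c (c (m (nat_lit 0x1168182)) e) e) e))) (c (c (c (c (p (nat_lit 0x524d00)) (c (m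
  (nat_lit 0x63b6e2)) (c (m (nat_lit 0x63a8cc)) e))) (c (c (p (nat_lit 0xd88e80)) (c (m (nat_lit 0x951aa4))
  e)) (c (c (m (nat_lit 0x318732)) e) e))) (c (c (c (m (nat_lit 0x63b634)) (c (m (nat_lit 0xdf9512)) e)) (c
  (c (m (nat_lit 0x951ae6)) e) e)) (c (c (c (m (nat_lit 0x63a884)) e) e) e))) e)) (c (c (c (c (c (p (nat_lit
  0x106bbe8)) (c (m (nat_lit 0x6e8182)) (c (p (nat_lit 0x9b94d2)) e))) (c (c (p (nat_lit 0x10b49b0)) (c (m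
  (nat_lit 0xce08e)) e)) (c (c (m (nat_lit 0x8590ce)) e) e))) (c (c (c (m (nat_lit 0x1507b0)) (c (m (nat_lit
  0x457560)) e)) (c (c (p (nat_lit 0x3b730c)) e) e)) (c (c (c (p (nat_lit 0x3fad16)) e) e) e))) e) e)) (c (c
  (c (c (c (c (m (nat_lit 0x8a9cd2)) (c (p (nat_lit 0x1be3904)) (c (m (nat_lit 0xc53bb6)) e))) (c (c (m
  (nat_lit 0x167d48)) (c (m (nat_lit 0x1d3baa)) e)) (c (c (p (nat_lit 0x2b65ba)) e) e))) (c (c (c (p (nat_lit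
  0xbf286)) (c (m (nat_lit 0x2456dc)) e)) (c (c (p (nat_lit 0x68a666)) e) e)) (c (c (c (p (nat_lit 0x13584))
  e) e) e))) e) e) e))) (c (c (c (c (c (c (c (m (nat_lit 0x1d66dcc)) (c (p (nat_lit 0xa0b384)) (c (p (nat_lit
  0xbee73e)) e))) (c (c (p (nat_lit 0x5f3bcc2)) (c (m (nat_lit 0xdbdd46)) e)) (c (c (m (nat_lit 0x198d956))
  e) e))) (c (c (c (p (nat_lit 0x57e2710)) (c (m (nat_lit 0xb1d4d0)) e)) (c (c (m (nat_lit 0x99038a)) e) e))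
  (c (c (c (p (nat_lit 0x311370)) e) e) e))) (c (c (c (c (p (nat_lit 0x1aefa04)) (c (m (nat_lit 0x3c337a4))
  (c (p (nat_lit 0x3fad1c)) e))) (c (c (p (nat_lit 0x37dbee4)) (c (p (nat_lit 0x336222)) e)) (c (c (m
  (nat_lit 0x7beb86)) e) e))) (c (c (c (m (nat_lit 0x3d15a6a)) (c (p (nat_lit 0x7b1530)) e)) (c (c (m
  (nat_lit 0x664014)) e) e)) (c (c (c (m (nat_lit 0xb70d50)) e) e) e))) (c (c (c (c (p (nat_lit 0x1ae5924))
  (c (m (nat_lit 0x68b3da)) e)) (c (c (m (nat_lit 0xa85b6e)) e) e)) (c (c (c (m (nat_lit 0xe1cf0c)) e) e) e))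
  e))) (c (c (c (c (c (p (nat_lit 0x1f0f07a)) (c (m (nat_lit 0x38f1db6)) (c (p (nat_lit 0x211feae)) e))) (c
  (c (m (nat_lit 0x29a581a)) (c (p (nat_lit 0xc98fc4)) e)) (c (c (p (nat_lit 0xcd8864)) e) e))) (c (c (c (m
  (nat_lit 0x1ce8aa8)) (c (p (nat_lit 0x658656)) e)) (c (c (p (nat_lit 0x3a12a4)) e) e)) (c (c (c (m (nat_lit
  0x9aea5c)) e) e) e))) (c (c (c (c (m (nat_lit 0x13ee658)) (c (p (nat_lit 0x583f3e)) e)) (c (c (m (nat_lit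
  0x81e4c)) e) e)) (c (c (c (p (nat_lit 0xca46d6)) e) e) e)) e)) (c (c (c (c (c (p (nat_lit 0x3be896)) (c (m
  (nat_lit 0x1c6bf6)) e)) (c (c (m (nat_lit 0x962ef2)) e) e)) (c (c (c (p (nat_lit 0x2aba42)) e) e) e)) e)
  e))) (c (c (c (c (c (c (p (nat_lit 0x41dd14)) (c (m (nat_lit 0x8db90a)) (c (m (nat_lit 0x679ddc)) e))) (c
  (c (m (nat_lit 0x1917bb2)) (c (p (nat_lit 0x4d7bbe)) e)) (c (c (p (nat_lit 0x1272726)) e) e))) (c (c (c (m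
  (nat_lit 0x6e02c7a)) (c (m (nat_lit 0xecea40)) e)) (c (c (p (nat_lit 0xc1a76c)) e) e)) (c (c (c (p (nat_lit
  0x20d190e)) e) e) e))) (c (c (c (c (m (nat_lit 0x3f5e74)) (c (p (nat_lit 0x8e3dd6)) e)) (c (c (p (nat_lit
  0x889d94)) e) e)) (c (c (c (p (nat_lit 0x19b1b7e)) e) e) e)) e)) (c (c (c (c (c (m (nat_lit 0x6f9d56)) (c
  (p (nat_lit 0x50948a)) e)) (c (c (p (nat_lit 0x771270)) e) e)) (c (c (c (p (nat_lit 0xbfdc12)) e) e) e)) e)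
  e)) (c (c (c (c (c (c (m (nat_lit 0x393474)) (c (m (nat_lit 0x1c256a)) e)) (c (c (m (nat_lit 0x68ec74)) e)
  e)) (c (c (c (m (nat_lit 0x148e894)) e) e) e)) e) e) e))) (c (c (c (c (c (c (c (p (nat_lit 0x491c358)) (c
  (m (nat_lit 0x28d1fa8)) (c (m (nat_lit 0x1a568)) e))) (c (c (m (nat_lit 0x2b137a8)) (c (p (nat_lit
  0x2c2728)) e)) (c (c (p (nat_lit 0x528786)) e) e))) (c (c (c (m (nat_lit 0x4bbfbaa)) (c (p (nat_lit
  0xc2749e)) e)) (c (c (p (nat_lit 0x76065c)) e) e)) (c (c (c (p (nat_lit 0x848f9a)) e) e) e))) (c (c (c (c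
  (m (nat_lit 0x3135390)) (c (p (nat_lit 0x402f372)) e)) (c (c (m (nat_lit 0x2a4d1c)) e) e)) (c (c (c (p
  (nat_lit 0x2cb2618)) e) e) e)) (c (c (c (c (m (nat_lit 0x49e834)) e) e) e) e))) (c (c (c (c (c (p (nat_lit
  0x26554c8)) (c (p (nat_lit 0xc80178)) e)) (c (c (p (nat_lit 0x23a18e4)) e) e)) (c (c (c (p (nat_lit
  0x20b158c)) e) e) e)) (c (c (c (c (p (nat_lit 0x482838)) e) e) e) e)) (c (c (c (c (c (m (nat_lit 0x39abd2))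
  e) e) e) e) e))) (c (c (c (c (c (c (p (nat_lit 0x15e09be)) (c (p (nat_lit 0x19a421c)) e)) (c (c (m (nat_lit
  0x85d3a)) e) e)) (c (c (c (p (nat_lit 0x53c9fd6)) e) e) e)) (c (c (c (c (p (nat_lit 0x91bc42)) e) e) e) e))
  (c (c (c (c (c (p (nat_lit 0x5c851e)) e) e) e) e) e)) (c (c (c (c (c (c (m (nat_lit 0xcc6a1a)) e) e) e) e)
  e) e))) (c (c (c (c (c (c (c (p (nat_lit 0x53910c)) (c (m (nat_lit 0x92020e)) e)) (c (c (m (nat_lit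
  0x65f268)) e) e)) (c (c (c (m (nat_lit 0x1bda66a)) e) e) e)) (c (c (c (c (m (nat_lit 0x16d25c)) e) e) e)
  e)) (c (c (c (c (c (m (nat_lit 0x240a1be)) e) e) e) e) e)) (c (c (c (c (c (c (m (nat_lit 0x3319e7e)) e) e)
  e) e) e) e)) (c (c (c (c (c (c (c (p (nat_lit 0x28f20c)) e) e) e) e) e) e) e))))) (c (c (c (c (c (c (c (c
  (p (nat_lit 0x6db9c0c)) (c (m (nat_lit 0x1183d64)) (c (p (nat_lit 0x547ad0)) e))) (c (c (m (nat_lit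
  0x4af6394)) (c (p (nat_lit 0xdadc6c)) e)) (c (c (p (nat_lit 0x1b3bc8e)) e) e))) (c (c (c (m (nat_lit
  0x14f0dd8)) (c (p (nat_lit 0xcc77ca)) e)) (c (c (p (nat_lit 0xdadc4e)) e) e)) (c (c (c (p (nat_lit
  0x547b42)) e) e) e))) (c (c (c (c (m (nat_lit 0x3af82a)) (c (p (nat_lit 0x1ee83e0)) (c (m (nat_lit
  0x3b866e)) e))) (c (c (p (nat_lit 0x3fe6f46)) (c (p (nat_lit 0xeed4c)) e)) (c (c (m (nat_lit 0x5fbf3e)) e)
  e))) (c (c (c (p (nat_lit 0x1144278)) (c (m (nat_lit 0x87839a)) e)) (c (c (p (nat_lit 0x2da056)) e) e)) (c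
  (c (c (p (nat_lit 0xe7e3f4)) e) e) e))) (c (c (c (c (m (nat_lit 0x25a39a)) (c (p (nat_lit 0x10991fa)) e))
  (c (c (m (nat_lit 0x4f9050)) e) e)) (c (c (c (m (nat_lit 0x3b96fa)) e) e) e)) e))) (c (c (c (c (c (m
  (nat_lit 0xa12c0e)) (c (m (nat_lit 0xa7c292)) (c (m (nat_lit 0x20e5b88)) e))) (c (c (p (nat_lit 0x3312936))
  (c (m (nat_lit 0xd26d98)) e)) (c (c (m (nat_lit 0x2631318)) e) e))) (c (c (c (m (nat_lit 0x72767a)) (c (p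
  (nat_lit 0xb8aaae)) e)) (c (c (m (nat_lit 0xd26da4)) e) e)) (c (c (c (m (nat_lit 0x20e5b1c)) e) e) e))) (c
  (c (c (c (m (nat_lit 0x67f1d0)) (c (m (nat_lit 0x5c6904)) e)) (c (c (m (nat_lit 0x4951e)) e) e)) (c (c (c
  (m (nat_lit 0x83529c)) e) e) e)) e)) (c (c (c (c (c (p (nat_lit 0x20a660c)) (c (m (nat_lit 0x106859a)) e))
  (c (c (m (nat_lit 0x63a284)) e) e)) (c (c (c (m (nat_lit 0x106857c)) e) e) e)) e) e))) (c (c (c (c (c (c (m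
  (nat_lit 0x249f948)) (c (p (nat_lit 0x13f5a80)) (c (p (nat_lit 0xe7e400)) e))) (c (c (p (nat_lit
  0x2aeb848)) (c (p (nat_lit 0x2da04a)) e)) (c (c (m (nat_lit 0x5fbf86)) e) e))) (c (c (c (p (nat_lit
  0x19074c6)) (c (m (nat_lit 0x8783b8)) e)) (c (c (p (nat_lit 0xeed1c)) e) e)) (c (c (c (m (nat_lit
  0x3b86d4)) e) e) e))) (c (c (c (c (m (nat_lit 0x2376c0)) (c (m (nat_lit 0x264edc)) e)) (c (c (p (nat_lit
  0xd2aefc)) e) e)) (c (c (c (m (nat_lit 0x264f18)) e) e) e)) e)) (c (c (c (c (c (m (nat_lit 0x67f1b2)) (c (m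
  (nat_lit 0x83526c)) e)) (c (c (m (nat_lit 0x494ee)) e) e)) (c (c (c (m (nat_lit 0x5c693a)) e) e) e)) e) e))
  (c (c (c (c (c (c (m (nat_lit 0x25a346)) (c (m (nat_lit 0x3b9700)) e)) (c (c (m (nat_lit 0x4f909e)) e) e))
  (c (c (c (p (nat_lit 0x10991fa)) e) e) e)) e) e) e))) (c (c (c (c (c (c (c (m (nat_lit 0x10a77e6)) (c (p
  (nat_lit 0x21cbf10)) (c (m (nat_lit 0x7db29c)) e))) (c (c (m (nat_lit 0x15eccee)) (c (m (nat_lit 0x549a1a))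
  e)) (c (c (p (nat_lit 0x343f62)) e) e))) (c (c (c (m (nat_lit 0x1ad1254)) (c (m (nat_lit 0xc438d8)) e)) (c
  (c (m (nat_lit 0x409bd8)) e) e)) (c (c (c (m (nat_lit 0x219828)) e) e) e))) (c (c (c (c (m (nat_lit
  0x2ebe592)) (c (p (nat_lit 0x68fa2a)) e)) (c (c (m (nat_lit 0x17de178)) e) e)) (c (c (c (p (nat_lit
  0x11b8a98)) e) e) e)) (c (c (c (c (m (nat_lit 0x1329174)) e) e) e) e))) (c (c (c (c (c (p (nat_lit
  0x414dfe)) (c (p (nat_lit 0xe69568)) e)) (c (c (m (nat_lit 0x8285ee)) e) e)) (c (c (c (p (nat_lit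
  0x181f2ae)) e) e) e)) (c (c (c (c (p (nat_lit 0xb5b9f6)) e) e) e) e)) (c (c (c (c (c (p (nat_lit 0x244590))
  e) e) e) e) e))) (c (c (c (c (c (c (m (nat_lit 0x13b8958)) (c (m (nat_lit 0x1534bfc)) e)) (c (c (m (nat_lit
  0xee4a90)) e) e)) (c (c (c (p (nat_lit 0x130bd9e)) e) e) e)) (c (c (c (c (m (nat_lit 0x2376b4)) e) e) e)
  e)) (c (c (c (c (c (m (nat_lit 0x3dfd34)) e) e) e) e) e)) (c (c (c (c (c (c (p (nat_lit 0xcc4422)) e) e) e)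
  e) e) e))) (c (c (c (c (c (c (c (m (nat_lit 0x2e578b4)) (c (m (nat_lit 0xd058c4)) e)) (c (c (p (nat_lit
  0x1327b06)) e) e)) (c (c (c (p (nat_lit 0x123e6be)) e) e) e)) (c (c (c (c (p (nat_lit 0x17657d6)) e) e) e)
  e)) (c (c (c (c (c (p (nat_lit 0x1620ed6)) e) e) e) e) e)) (c (c (c (c (c (c (p (nat_lit 0xe41a88)) e) e)
  e) e) e) e)) (c (c (c (c (c (c (c (m (nat_lit 0x45d296)) e) e) e) e) e) e) e)))) (c (c (c (c (c (c (c (c (m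
  (nat_lit 0x5055d2c)) (c (m (nat_lit 0x97a490)) (c (p (nat_lit 0x1278876)) e))) (c (c (m (nat_lit
  0x192d3c8)) (c (p (nat_lit 0xcd740)) e)) (c (c (p (nat_lit 0x23cc82)) e) e))) (c (c (c (m (nat_lit
  0x5c1258)) (c (p (nat_lit 0x7113b4)) e)) (c (c (p (nat_lit 0xcd734)) e) e)) (c (c (c (p (nat_lit
  0x127881c)) e) e) e))) (c (c (c (c (p (nat_lit 0xbb0314)) (c (m (nat_lit 0x1706eaa)) e)) (c (c (m (nat_lit
  0xecdb94)) e) e)) (c (c (c (m (nat_lit 0x23a38a)) e) e) e)) (c (c (c (c (m (nat_lit 0x8965b0)) e) e) e)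
  e))) (c (c (c (c (c (p (nat_lit 0x1b48660)) (c (p (nat_lit 0x1791bb2)) e)) (c (c (p (nat_lit 0x1e55fb0)) e)
  e)) (c (c (c (p (nat_lit 0x1791b76)) e) e) e)) (c (c (c (c (m (nat_lit 0x183ee8)) e) e) e) e)) (c (c (c (c
  (c (m (nat_lit 0x610f38)) e) e) e) e) e))) (c (c (c (c (c (c (p (nat_lit 0x1cd1ba0)) (c (m (nat_lit
  0x23a35a)) e)) (c (c (m (nat_lit 0xecdb3a)) e) e)) (c (c (c (m (nat_lit 0x1706eb6)) e) e) e)) (c (c (c (c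
  (p (nat_lit 0x7c9878)) e) e) e) e)) (c (c (c (c (c (m (nat_lit 0x183ed6)) e) e) e) e) e)) (c (c (c (c (c (c
  (m (nat_lit 0x8965c2)) e) e) e) e) e) e))) (c (c (c (c (c (c (c (p (nat_lit 0xd17990)) (c (m (nat_lit
  0x1195b06)) e)) (c (c (p (nat_lit 0x122fd06)) e) e)) (c (c (c (m (nat_lit 0x967014)) e) e) e)) (c (c (c (c
  (p (nat_lit 0x2d26b14)) e) e) e) e)) (c (c (c (c (c (m (nat_lit 0x320dcde)) e) e) e) e) e)) (c (c (c (c (c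
  (c (p (nat_lit 0xa587b4)) e) e) e) e) e) e)) (c (c (c (c (c (c (c (p (nat_lit 0x171dd8e)) e) e) e) e) e) e)
  e))) (c (c (c (c (c (c (c (c (p (nat_lit 0x12b96ca)) (c (m (nat_lit 0x5cce38)) e)) (c (c (m (nat_lit
  0x129d92)) e) e)) (c (c (c (m (nat_lit 0x5cce38)) e) e) e)) (c (c (c (c (m (nat_lit 0x73394a)) e) e) e) e))
  (c (c (c (c (c (p (nat_lit 0x3f9eac)) e) e) e) e) e)) (c (c (c (c (c (c (m (nat_lit 0x733938)) e) e) e) e)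
  e) e)) (c (c (c (c (c (c (c (p (nat_lit 0xda3f0a)) e) e) e) e) e) e) e)) (c (c (c (c (c (c (c (c (m
  (nat_lit 0x63312c)) e) e) e) e) e) e) e) e))))) (c (c (c (c (c (c (c (c (c (p (nat_lit 0x19284cc)) (c (p
  (nat_lit 0x132d67a)) (c (p (nat_lit 0x311436)) e))) (c (c (p (nat_lit 0x34343d0)) (c (m (nat_lit 0x99033c))
  e)) (c (c (m (nat_lit 0x198d8ae)) e) e))) (c (c (c (m (nat_lit 0x1587ada)) (c (m (nat_lit 0xb1d4ac)) e)) (c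
  (c (m (nat_lit 0xdbdcf8)) e) e)) (c (c (c (p (nat_lit 0xbee78c)) e) e) e))) (c (c (c (c (p (nat_lit
  0x11eb50a)) (c (m (nat_lit 0x1779546)) (c (p (nat_lit 0x20d1944)) e))) (c (c (m (nat_lit 0x9ceaea)) (c (p
  (nat_lit 0xc1a766)) e)) (c (c (p (nat_lit 0x12726f6)) e) e))) (c (c (c (m (nat_lit 0x7a8e78)) (c (m
  (nat_lit 0xecea40)) e)) (c (c (p (nat_lit 0x4d7b6a)) e) e)) (c (c (c (m (nat_lit 0x679de8)) e) e) e))) (c
  (c (c (c (m (nat_lit 0x393474)) (c (m (nat_lit 0x148e84c)) e)) (c (c (m (nat_lit 0x68eca4)) e) e)) (c (c (c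
  (m (nat_lit 0x1c257c)) e) e) e)) e))) (c (c (c (c (c (p (nat_lit 0x30b7720)) (c (p (nat_lit 0x11e2f0)) (c
  (m (nat_lit 0x9aeabc)) e))) (c (c (m (nat_lit 0xd34a6)) (c (p (nat_lit 0x3a12c2)) e)) (c (c (p (nat_lit
  0xcd8858)) e) e))) (c (c (c (m (nat_lit 0x2435c58)) (c (p (nat_lit 0x658668)) e)) (c (c (p (nat_lit
  0xc98f88)) e) e)) (c (c (c (p (nat_lit 0x211fe7e)) e) e) e))) (c (c (c (c (m (nat_lit 0x6f9d62)) (c (p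
  (nat_lit 0xbfdc06)) e)) (c (c (p (nat_lit 0x77129a)) e) e)) (c (c (c (p (nat_lit 0x5094a2)) e) e) e)) e))
  (c (c (c (c (c (p (nat_lit 0x3be8a2)) (c (p (nat_lit 0x2aba78)) e)) (c (c (m (nat_lit 0x962ef2)) e) e)) (c
  (c (c (m (nat_lit 0x1c6bea)) e) e) e)) e) e))) (c (c (c (c (c (c (m (nat_lit 0x4084ce)) (c (m (nat_lit
  0x2213c28)) (c (m (nat_lit 0xb70dc8)) e))) (c (c (p (nat_lit 0x21802fe)) (c (m (nat_lit 0x66402c)) e)) (c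
  (c (m (nat_lit 0x7bebc2)) e) e))) (c (c (c (m (nat_lit 0x100f734)) (c (p (nat_lit 0x7b151e)) e)) (c (c (p
  (nat_lit 0x3361e6)) e) e)) (c (c (c (p (nat_lit 0x3fad04)) e) e) e))) (c (c (c (c (m (nat_lit 0x3f5eb0)) (c
  (p (nat_lit 0x19b1b42)) e)) (c (c (p (nat_lit 0x889dc4)) e) e)) (c (c (c (p (nat_lit 0x8e3df4)) e) e) e))
  e)) (c (c (c (c (c (m (nat_lit 0x13ee5f8)) (c (p (nat_lit 0xca46a0)) e)) (c (c (m (nat_lit 0x81e46)) e) e))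
  (c (c (c (p (nat_lit 0x583f26)) e) e) e)) e) e)) (c (c (c (c (c (c (p (nat_lit 0x1ae5942)) (c (m (nat_lit
  0xe1cf18)) e)) (c (c (m (nat_lit 0xa85b80)) e) e)) (c (c (c (m (nat_lit 0x68b3fe)) e) e) e)) e) e) e))) (c
  (c (c (c (c (c (c (m (nat_lit 0x6af276e)) (c (p (nat_lit 0x1eabf12)) (c (m (nat_lit 0x1816a3a)) e))) (c (c
  (m (nat_lit 0x17803bc)) (c (p (nat_lit 0x135702)) e)) (c (c (m (nat_lit 0x4b216c)) e) e))) (c (c (c (p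
  (nat_lit 0x1c86ada)) (c (p (nat_lit 0xd594e)) e)) (c (c (p (nat_lit 0x13572c)) e) e)) (c (c (c (m (nat_lit
  0x1816a10)) e) e) e))) (c (c (c (c (p (nat_lit 0x344485e)) (c (m (nat_lit 0x11d996)) e)) (c (c (m (nat_lit
  0xd6f96e)) e) e)) (c (c (c (p (nat_lit 0x575118)) e) e) e)) (c (c (c (c (p (nat_lit 0x1569b7c)) e) e) e)
  e))) (c (c (c (c (c (m (nat_lit 0x12a9b2a)) (c (p (nat_lit 0x2f2d88)) e)) (c (c (p (nat_lit 0xfa85d0)) e)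
  e)) (c (c (c (m (nat_lit 0x61eae)) e) e) e)) (c (c (c (c (m (nat_lit 0x55aa48)) e) e) e) e)) (c (c (c (c (c
  (m (nat_lit 0x3c9ca8)) e) e) e) e) e))) (c (c (c (c (c (c (p (nat_lit 0xc88d0a)) (c (p (nat_lit 0x2c3844))
  e)) (c (c (p (nat_lit 0x78be4a)) e) e)) (c (c (c (p (nat_lit 0x4c363e)) e) e) e)) (c (c (c (c (m (nat_lit
  0x1dec908)) e) e) e) e)) (c (c (c (c (c (m (nat_lit 0x55aa5a)) e) e) e) e) e)) (c (c (c (c (c (c (p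
  (nat_lit 0x1569b94)) e) e) e) e) e) e))) (c (c (c (c (c (c (c (m (nat_lit 0x41d52b0)) (c (p (nat_lit
  0x25227c)) e)) (c (c (p (nat_lit 0x7899a2)) e) e)) (c (c (c (p (nat_lit 0xb092a4)) e) e) e)) (c (c (c (c (m
  (nat_lit 0x27ed90c)) e) e) e) e)) (c (c (c (c (c (m (nat_lit 0x11131f2)) e) e) e) e) e)) (c (c (c (c (c (c
  (p (nat_lit 0x1bf77ac)) e) e) e) e) e) e)) (c (c (c (c (c (c (c (p (nat_lit 0x3e2d1fc)) e) e) e) e) e) e)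
  e)))) (c (c (c (c (c (c (c (c (m (nat_lit 0x48ed366)) (c (m (nat_lit 0xff8502)) (c (m (nat_lit 0x219828))
  e))) (c (c (p (nat_lit 0x117696c)) (c (m (nat_lit 0x409c0e)) e)) (c (c (p (nat_lit 0x343f44)) e) e))) (c (c
  (c (p (nat_lit 0x23aae18)) (c (m (nat_lit 0xc438f6)) e)) (c (c (m (nat_lit 0x5499ea)) e) e)) (c (c (c (m
  (nat_lit 0x7db2ae)) e) e) e))) (c (c (c (c (m (nat_lit 0x2b00f3e)) (c (p (nat_lit 0xb5f212)) e)) (c (c (m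
  (nat_lit 0xf8cdde)) e) e)) (c (c (c (m (nat_lit 0x1f7d5a0)) e) e) e)) (c (c (c (c (p (nat_lit 0xcc440a)) e)
  e) e) e))) (c (c (c (c (c (p (nat_lit 0x61af34)) (c (p (nat_lit 0xde95d0)) e)) (c (c (m (nat_lit
  0x18d1d7e)) e) e)) (c (c (c (p (nat_lit 0x6c85e6)) e) e) e)) (c (c (c (c (m (nat_lit 0x3dfd28)) e) e) e)
  e)) (c (c (c (c (c (p (nat_lit 0x24457e)) e) e) e) e) e))) (c (c (c (c (c (c (m (nat_lit 0x7d6c46)) (c (p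
  (nat_lit 0x71582a)) e)) (c (c (m (nat_lit 0x7e506a)) e) e)) (c (c (c (p (nat_lit 0x121194)) e) e) e)) (c (c
  (c (c (m (nat_lit 0x23767e)) e) e) e) e)) (c (c (c (c (c (p (nat_lit 0xb5b9d2)) e) e) e) e) e)) (c (c (c (c
  (c (c (m (nat_lit 0x132915c)) e) e) e) e) e) e))) (c (c (c (c (c (c (c (p (nat_lit 0xaf123fe)) (c (p
  (nat_lit 0x372300)) e)) (c (c (m (nat_lit 0x6158ee)) e) e)) (c (c (c (m (nat_lit 0x73dda2)) e) e) e)) (c (c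
  (c (c (m (nat_lit 0x2aeece)) e) e) e) e)) (c (c (c (c (c (p (nat_lit 0xf5d0fc)) e) e) e) e) e)) (c (c (c (c
  (c (c (p (nat_lit 0xfa386)) e) e) e) e) e) e)) (c (c (c (c (c (c (c (m (nat_lit 0x2809c74)) e) e) e) e) e)
  e) e))) (c (c (c (c (c (c (c (c (p (nat_lit 0x1447a7c)) (c (p (nat_lit 0x5a592e)) e)) (c (c (p (nat_lit
  0x7e748e)) e) e)) (c (c (c (m (nat_lit 0x53a252)) e) e) e)) (c (c (c (c (p (nat_lit 0x6dcd22)) e) e) e) e))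
  (c (c (c (c (c (m (nat_lit 0x2c855e2)) e) e) e) e) e)) (c (c (c (c (c (c (p (nat_lit 0xfa926c)) e) e) e) e)
  e) e)) (c (c (c (c (c (c (c (m (nat_lit 0x387676e)) e) e) e) e) e) e) e)) (c (c (c (c (c (c (c (c (p
  (nat_lit 0xe5f770)) e) e) e) e) e) e) e) e)))) (c (c (c (c (c (c (c (c (c (p (nat_lit 0x1f296ae)) (c (m
  (nat_lit 0x2263e7e)) (c (p (nat_lit 0x848f64)) e))) (c (c (m (nat_lit 0x996894)) (c (p (nat_lit 0x760662))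
  e)) (c (c (p (nat_lit 0x528750)) e) e))) (c (c (c (m (nat_lit 0x1472dd8)) (c (p (nat_lit 0xc2749e)) e)) (c
  (c (p (nat_lit 0x2c270a)) e) e)) (c (c (c (m (nat_lit 0x1a580)) e) e) e))) (c (c (c (c (m (nat_lit
  0x1a2f2fc)) (c (p (nat_lit 0x3217bc)) e)) (c (c (p (nat_lit 0x52c94a)) e) e)) (c (c (c (p (nat_lit
  0x15bff64)) e) e) e)) (c (c (c (c (m (nat_lit 0xcc6a08)) e) e) e) e))) (c (c (c (c (c (m (nat_lit
  0x1068f96)) (c (m (nat_lit 0xaa4de)) e)) (c (c (m (nat_lit 0x530aae)) e) e)) (c (c (c (m (nat_lit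
  0x4e7386)) e) e) e)) (c (c (c (c (p (nat_lit 0x5c853c)) e) e) e) e)) (c (c (c (c (c (m (nat_lit 0x39ac08))
  e) e) e) e) e))) (c (c (c (c (c (c (m (nat_lit 0x27de864)) (c (p (nat_lit 0x14620c2)) e)) (c (c (m (nat_lit
  0x1448c4)) e) e)) (c (c (c (p (nat_lit 0xe2a346)) e) e) e)) (c (c (c (c (p (nat_lit 0x91bc72)) e) e) e) e))
  (c (c (c (c (c (p (nat_lit 0x482832)) e) e) e) e) e)) (c (c (c (c (c (c (m (nat_lit 0x49e852)) e) e) e) e)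
  e) e))) (c (c (c (c (c (c (c (p (nat_lit 0x3a0d790)) (c (m (nat_lit 0x11c556)) e)) (c (c (m (nat_lit
  0x30b41e)) e) e)) (c (c (c (m (nat_lit 0x7fa36a)) e) e) e)) (c (c (c (c (p (nat_lit 0x5483ac)) e) e) e) e))
  (c (c (c (c (c (p (nat_lit 0x15a1b50)) e) e) e) e) e)) (c (c (c (c (c (c (m (nat_lit 0x712908)) e) e) e) e)
  e) e)) (c (c (c (c (c (c (c (m (nat_lit 0xd5f144)) e) e) e) e) e) e) e))) (c (c (c (c (c (c (c (c (p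
  (nat_lit 0x2a86e2)) (c (p (nat_lit 0x9d2582)) e)) (c (c (m (nat_lit 0x14da1a)) e) e)) (c (c (c (p (nat_lit
  0xa1826)) e) e) e)) (c (c (c (c (p (nat_lit 0x11e6320)) e) e) e) e)) (c (c (c (c (c (p (nat_lit 0xbb2948))
  e) e) e) e) e)) (c (c (c (c (c (c (p (nat_lit 0x666000)) e) e) e) e) e) e)) (c (c (c (c (c (c (c (m
  (nat_lit 0x2e83252)) e) e) e) e) e) e) e)) (c (c (c (c (c (c (c (c (p (nat_lit 0xe1032a)) e) e) e) e) e) e)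
  e) e))) (c (c (c (c (c (c (c (c (c (m (nat_lit 0xe5fbc6)) (c (m (nat_lit 0xcd50c)) e)) (c (c (p (nat_lit
  0x32b758)) e) e)) (c (c (c (p (nat_lit 0x25fc44)) e) e) e)) (c (c (c (c (m (nat_lit 0x108e76)) e) e) e) e))
  (c (c (c (c (c (p (nat_lit 0x10bc12)) e) e) e) e) e)) (c (c (c (c (c (c (p (nat_lit 0x46599c)) e) e) e) e)
  e) e)) (c (c (c (c (c (c (c (m (nat_lit 0xedec0a)) e) e) e) e) e) e) e)) (c (c (c (c (c (c (c (c (m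
  (nat_lit 0x350f94)) e) e) e) e) e) e) e) e)) (c (c (c (c (c (c (c (c (c (p (nat_lit 0x98b866)) e) e) e) e)
  e) e) e) e) e)))))

noncomputable def gt_0_0_6 : Tr :=
  (c (c (c (c (c (c (c (c (c (m (nat_lit 0x2477d60)) (c (m (nat_lit 0x5e0062)) (c (p (nat_lit 0x5668b6)) e)))
  (c (c (p (nat_lit 0x152a072)) (c (p (nat_lit 0x76abfe)) e)) (c (c (m (nat_lit 0x8830ec)) e) e))) (c (c (c
  (p (nat_lit 0x14de004)) (c (p (nat_lit 0x76ab86)) e)) (c (c (m (nat_lit 0xce028)) e) e)) (c (c (c (m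
  (nat_lit 0x883170)) e) e) e))) (c (c (c (c (m (nat_lit 0x2e5147c)) (c (m (nat_lit 0x5145990)) (c (p
  (nat_lit 0x2c73d20)) e))) (c (c (p (nat_lit 0x3042672)) (c (m (nat_lit 0x3718ce)) e)) (c (c (m (nat_lit
  0x1b761a0)) e) e))) (c (c (c (p (nat_lit 0x2ced7a2)) (c (m (nat_lit 0x3717de)) e)) (c (c (m (nat_lit
  0x49ca1c)) e) e)) (c (c (c (m (nat_lit 0x1b760d4)) e) e) e))) (c (c (c (c (m (nat_lit 0xd83336)) (c (p
  (nat_lit 0x1696fa4)) (c (m (nat_lit 0x825792)) e))) (c (c (m (nat_lit 0x1a93dc)) (c (m (nat_lit 0x4c659c))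
  e)) (c (c (p (nat_lit 0x6bd594)) e) e))) (c (c (c (m (nat_lit 0x1a9424)) (c (m (nat_lit 0x4c658a)) e)) (c
  (c (m (nat_lit 0x3cbfc4)) e) e)) (c (c (c (p (nat_lit 0x6bd5a0)) e) e) e))) e))) (c (c (c (c (c (m (nat_lit
  0xaacce8)) (c (m (nat_lit 0x2e9b750)) (c (m (nat_lit 0x203472)) e))) (c (c (p (nat_lit 0x11f9676)) (c (m
  (nat_lit 0xfa9c38)) e)) (c (c (m (nat_lit 0x11681f4)) e) e))) (c (c (c (p (nat_lit 0x397f74)) (c (p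
  (nat_lit 0x2db1c0)) e)) (c (c (p (nat_lit 0x1a1bd48)) e) e)) (c (c (c (p (nat_lit 0x7108ec)) e) e) e))) (c
  (c (c (c (p (nat_lit 0x106bab6)) (c (p (nat_lit 0x10b4d1c)) (c (m (nat_lit 0x859086)) e))) (c (c (m
  (nat_lit 0x15093c)) (c (p (nat_lit 0x3b7396)) e)) (c (c (p (nat_lit 0x3fad34)) e) e))) (c (c (c (m (nat_lit
  0x6e8104)) (c (m (nat_lit 0xce070)) e)) (c (c (m (nat_lit 0x457554)) e) e)) (c (c (c (p (nat_lit 0x9b9544))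
  e) e) e))) e)) (c (c (c (c (c (m (nat_lit 0x8a9c90)) (c (m (nat_lit 0x167cb8)) (c (p (nat_lit 0x2b6536))
  e))) (c (c (p (nat_lit 0xbf2d4)) (c (p (nat_lit 0x68a636)) e)) (c (c (p (nat_lit 0x13530)) e) e))) (c (c (c
  (p (nat_lit 0x1be38a4)) (c (m (nat_lit 0x1d3bbc)) e)) (c (c (m (nat_lit 0x24570c)) e) e)) (c (c (c (m
  (nat_lit 0xc53c1c)) e) e) e))) e) e))) (c (c (c (c (c (c (p (nat_lit 0x521c6a)) (c (m (nat_lit 0x19a0190))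
  (c (m (nat_lit 0x2033d0)) e))) (c (c (p (nat_lit 0xe66be)) (c (p (nat_lit 0x2db220)) e)) (c (c (p (nat_lit
  0x71082c)) e) e))) (c (c (c (p (nat_lit 0x17da4fa)) (c (m (nat_lit 0xfa9bde)) e)) (c (c (p (nat_lit
  0x1a1bdd8)) e) e)) (c (c (c (m (nat_lit 0x1168158)) e) e) e))) (c (c (c (c (p (nat_lit 0x106baaa)) (c (p
  (nat_lit 0x10b4d0a)) (c (m (nat_lit 0x8590e6)) e))) (c (c (m (nat_lit 0x6e81d0)) (c (m (nat_lit 0xce088))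
  e)) (c (c (p (nat_lit 0x9b9550)) e) e))) (c (c (c (m (nat_lit 0x1507d4)) (c (p (nat_lit 0x3b733c)) e)) (c
  (c (m (nat_lit 0x4575a8)) e) e)) (c (c (c (p (nat_lit 0x3fad28)) e) e) e))) e)) (c (c (c (c (c (p (nat_lit
  0x52511a)) (c (p (nat_lit 0xd8889e)) (c (m (nat_lit 0x3186de)) e))) (c (c (m (nat_lit 0x63b6d0)) (c (m
  (nat_lit 0x951a7a)) e)) (c (c (m (nat_lit 0x63a824)) e) e))) (c (c (c (m (nat_lit 0x63b6b8)) (c (m (nat_lit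
  0x951a80)) e)) (c (c (m (nat_lit 0xdf9470)) e) e)) (c (c (c (m (nat_lit 0x63a83c)) e) e) e))) e) e)) (c (c
  (c (c (c (c (m (nat_lit 0x8a9cd2)) (c (m (nat_lit 0x167cfa)) (c (p (nat_lit 0x2b6566)) e))) (c (c (p
  (nat_lit 0x1be38c8)) (c (m (nat_lit 0x1d3bbc)) e)) (c (c (m (nat_lit 0xc53bf8)) e) e))) (c (c (c (p
  (nat_lit 0xbf304)) (c (p (nat_lit 0x68a642)) e)) (c (c (m (nat_lit 0x2456dc)) e) e)) (c (c (c (p (nat_lit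
  0x13524)) e) e) e))) e) e) e))) (c (c (c (c (c (c (c (m (nat_lit 0x1d66d72)) (c (p (nat_lit 0x5f3bc6e)) (c
  (m (nat_lit 0x198d90e)) e))) (c (c (p (nat_lit 0xa0b390)) (c (m (nat_lit 0xdbdd40)) e)) (c (c (p (nat_lit
  0xbee7e0)) e) e))) (c (c (c (p (nat_lit 0x57e268c)) (c (m (nat_lit 0x99033c)) e)) (c (c (m (nat_lit
  0xb1d4c4)) e) e)) (c (c (c (p (nat_lit 0x3113dc)) e) e) e))) (c (c (c (c (p (nat_lit 0x1f0f03e)) (c (m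
  (nat_lit 0x29a58bc)) (c (p (nat_lit 0xcd8870)) e))) (c (c (m (nat_lit 0x38f1dda)) (c (p (nat_lit 0xc98fc4))
  e)) (c (c (p (nat_lit 0x211fe84)) e) e))) (c (c (c (m (nat_lit 0x1ce8ade)) (c (p (nat_lit 0x3a12a4)) e)) (c
  (c (p (nat_lit 0x65865c)) e) e)) (c (c (c (m (nat_lit 0x9aeac8)) e) e) e))) (c (c (c (c (p (nat_lit
  0x3be8e4)) (c (m (nat_lit 0x962ef2)) e)) (c (c (m (nat_lit 0x1c6bf0)) e) e)) (c (c (c (p (nat_lit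
  0x2aba66)) e) e) e)) e))) (c (c (c (c (c (p (nat_lit 0x1aefa10)) (c (p (nat_lit 0x37dbe78)) (c (m (nat_lit
  0x7beb2c)) e))) (c (c (m (nat_lit 0x3c337aa)) (c (p (nat_lit 0x33623a)) e)) (c (c (p (nat_lit 0x3fad04)) e)
  e))) (c (c (c (m (nat_lit 0x3d15944)) (c (m (nat_lit 0x664008)) e)) (c (c (p (nat_lit 0x7b1560)) e) e)) (c
  (c (c (m (nat_lit 0xb70d74)) e) e) e))) (c (c (c (c (m (nat_lit 0x13ee65e)) (c (m (nat_lit 0x81e34)) e)) (c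
  (c (p (nat_lit 0x583f44)) e) e)) (c (c (c (p (nat_lit 0xca46ac)) e) e) e)) e)) (c (c (c (c (c (p (nat_lit
  0x1ae5942)) (c (m (nat_lit 0xa85b9e)) e)) (c (c (m (nat_lit 0x68b3e0)) e) e)) (c (c (c (m (nat_lit
  0xe1cf06)) e) e) e)) e) e))) (c (c (c (c (c (c (p (nat_lit 0x41e6e0)) (c (m (nat_lit 0x191857e)) (c (p
  (nat_lit 0x1272714)) e))) (c (c (m (nat_lit 0x8db7c6)) (c (p (nat_lit 0x4d7b94)) e)) (c (c (m (nat_lit
  0x679db8)) e) e))) (c (c (c (m (nat_lit 0x6e02cce)) (c (p (nat_lit 0xc1a760)) e)) (c (c (m (nat_lit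
  0xecea34)) e) e)) (c (c (c (p (nat_lit 0x20d1974)) e) e) e))) (c (c (c (c (m (nat_lit 0x6f9d5c)) (c (p
  (nat_lit 0x7712a6)) e)) (c (c (p (nat_lit 0x509478)) e) e)) (c (c (c (p (nat_lit 0xbfdc2a)) e) e) e)) e))
  (c (c (c (c (c (m (nat_lit 0x3f5eaa)) (c (p (nat_lit 0x889db8)) e)) (c (c (p (nat_lit 0x8e3dc4)) e) e)) (c
  (c (c (p (nat_lit 0x19b1b06)) e) e) e)) e) e)) (c (c (c (c (c (c (m (nat_lit 0x393438)) (c (m (nat_lit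
  0x68ec98)) e)) (c (c (m (nat_lit 0x1c257c)) e) e)) (c (c (c (m (nat_lit 0x148e888)) e) e) e)) e) e) e))) (c
  (c (c (c (c (c (c (p (nat_lit 0x491c352)) (c (m (nat_lit 0x2b1377e)) (c (p (nat_lit 0x52878c)) e))) (c (c
  (m (nat_lit 0x28d1fa8)) (c (p (nat_lit 0x2c272e)) e)) (c (c (m (nat_lit 0x1a58c)) e) e))) (c (c (c (m
  (nat_lit 0x4bbfbe0)) (c (p (nat_lit 0x760656)) e)) (c (c (p (nat_lit 0xc274b0)) e) e)) (c (c (c (p (nat_lit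
  0x848f88)) e) e) e))) (c (c (c (c (p (nat_lit 0x26554b6)) (c (p (nat_lit 0x23a18d8)) e)) (c (c (p (nat_lit
  0xc80172)) e) e)) (c (c (c (p (nat_lit 0x20b15a4)) e) e) e)) (c (c (c (c (m (nat_lit 0x39abd2)) e) e) e)
  e))) (c (c (c (c (c (m (nat_lit 0x313537e)) (c (m (nat_lit 0x2a4d10)) e)) (c (c (p (nat_lit 0x402f37e)) e)
  e)) (c (c (c (p (nat_lit 0x2cb25fa)) e) e) e)) (c (c (c (c (p (nat_lit 0x482814)) e) e) e) e)) (c (c (c (c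
  (c (m (nat_lit 0x49e834)) e) e) e) e) e))) (c (c (c (c (c (c (p (nat_lit 0x15e0958)) (c (m (nat_lit
  0x85d04)) e)) (c (c (p (nat_lit 0x19a4234)) e) e)) (c (c (c (p (nat_lit 0x53c9fe2)) e) e) e)) (c (c (c (c
  (p (nat_lit 0x5c84fa)) e) e) e) e)) (c (c (c (c (c (p (nat_lit 0x91bc0c)) e) e) e) e) e)) (c (c (c (c (c (c
  (m (nat_lit 0xcc69f6)) e) e) e) e) e) e))) (c (c (c (c (c (c (c (p (nat_lit 0x5390ca)) (c (m (nat_lit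
  0x65f262)) e)) (c (c (m (nat_lit 0x920208)) e) e)) (c (c (c (m (nat_lit 0x1bda658)) e) e) e)) (c (c (c (c
  (m (nat_lit 0x240a1a6)) e) e) e) e)) (c (c (c (c (c (m (nat_lit 0x16d25c)) e) e) e) e) e)) (c (c (c (c (c
  (c (m (nat_lit 0x3319e84)) e) e) e) e) e) e)) (c (c (c (c (c (c (c (p (nat_lit 0x28f21e)) e) e) e) e) e) e)
  e))))) (c (c (c (c (c (c (c (c (p (nat_lit 0x19283f4)) (c (p (nat_lit 0x343423e)) (c (m (nat_lit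
  0x198d81e)) e))) (c (c (p (nat_lit 0x132d776)) (c (m (nat_lit 0x9902fa)) e)) (c (c (p (nat_lit 0x3113d0))
  e) e))) (c (c (c (m (nat_lit 0x1587a3e)) (c (m (nat_lit 0xdbdcec)) e)) (c (c (m (nat_lit 0xb1d3e0)) e) e))
  (c (c (c (p (nat_lit 0xbee7c8)) e) e) e))) (c (c (c (c (p (nat_lit 0x30b782e)) (c (m (nat_lit 0xd341c)) (c
  (p (nat_lit 0xcd8828)) e))) (c (c (p (nat_lit 0x11e254)) (c (p (nat_lit 0x3a12a4)) e)) (c (c (m (nat_lit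
  0x9aeaa4)) e) e))) (c (c (c (m (nat_lit 0x2435ca0)) (c (p (nat_lit 0xc98f8e)) e)) (c (c (p (nat_lit
  0x65862c)) e) e)) (c (c (c (p (nat_lit 0x211fe6c)) e) e) e))) (c (c (c (c (p (nat_lit 0x3be8ae)) (c (m
  (nat_lit 0x962eec)) e)) (c (c (p (nat_lit 0x2abaa8)) e) e)) (c (c (c (m (nat_lit 0x1c6bf6)) e) e) e)) e)))
  (c (c (c (c (c (p (nat_lit 0x11eb504)) (c (m (nat_lit 0x9ceaa2)) (c (p (nat_lit 0x12726de)) e))) (c (c (m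
  (nat_lit 0x177953a)) (c (p (nat_lit 0xc1a772)) e)) (c (c (p (nat_lit 0x20d1998)) e) e))) (c (c (c (m
  (nat_lit 0x7a8e84)) (c (p (nat_lit 0x4d7b94)) e)) (c (c (m (nat_lit 0xecea58)) e) e)) (c (c (c (m (nat_lit
  0x679dd0)) e) e) e))) (c (c (c (c (m (nat_lit 0x6f9d98)) (c (p (nat_lit 0x77128e)) e)) (c (c (p (nat_lit
  0xbfdbe8)) e) e)) (c (c (c (p (nat_lit 0x50949c)) e) e) e)) e)) (c (c (c (c (c (m (nat_lit 0x39342c)) (c (m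
  (nat_lit 0x68ecb0)) e)) (c (c (m (nat_lit 0x148e882)) e) e)) (c (c (c (m (nat_lit 0x1c2588)) e) e) e)) e)
  e))) (c (c (c (c (c (c (m (nat_lit 0x40838a)) (c (p (nat_lit 0x21802ec)) (c (m (nat_lit 0x7bebc8)) e))) (c
  (c (m (nat_lit 0x2213c3a)) (c (m (nat_lit 0x664038)) e)) (c (c (m (nat_lit 0xb70d80)) e) e))) (c (c (c (m
  (nat_lit 0x100f6da)) (c (p (nat_lit 0x3361f8)) e)) (c (c (p (nat_lit 0x7b150c)) e) e)) (c (c (c (p (nat_lit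
  0x3facc8)) e) e) e))) (c (c (c (c (m (nat_lit 0x13ee6a0)) (c (m (nat_lit 0x81e58)) e)) (c (c (p (nat_lit
  0xca46d6)) e) e)) (c (c (c (p (nat_lit 0x583f44)) e) e) e)) e)) (c (c (c (c (c (m (nat_lit 0x3f5ef2)) (c (p
  (nat_lit 0x889dc4)) e)) (c (c (p (nat_lit 0x19b1b06)) e) e)) (c (c (c (p (nat_lit 0x8e3dd0)) e) e) e)) e)
  e)) (c (c (c (c (c (c (p (nat_lit 0x1ae5930)) (c (m (nat_lit 0xa85b74)) e)) (c (c (m (nat_lit 0xe1cf06)) e)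
  e)) (c (c (c (m (nat_lit 0x68b3f2)) e) e) e)) e) e) e))) (c (c (c (c (c (c (c (m (nat_lit 0x6b0bdac)) (c (m
  (nat_lit 0x177f684)) (c (m (nat_lit 0x4b21ba)) e))) (c (c (p (nat_lit 0x1ec00c0)) (c (p (nat_lit 0x1356f0))
  e)) (c (c (m (nat_lit 0x1816a4c)) e) e))) (c (c (c (p (nat_lit 0x1c9acee)) (c (p (nat_lit 0x135702)) e)) (c
  (c (p (nat_lit 0xd5930)) e) e)) (c (c (c (m (nat_lit 0x1816a4c)) e) e) e))) (c (c (c (c (m (nat_lit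
  0x1428d86)) (c (p (nat_lit 0xfbc54a)) e)) (c (c (p (nat_lit 0x42c7e0)) e) e)) (c (c (c (p (nat_lit
  0xd7bc2)) e) e) e)) (c (c (c (c (m (nat_lit 0x3c9cd8)) e) e) e) e))) (c (c (c (c (c (p (nat_lit 0x34ebbf2))
  (c (m (nat_lit 0xd74c0c)) e)) (c (c (m (nat_lit 0x4bf912)) e) e)) (c (c (c (p (nat_lit 0x810fcc)) e) e) e))
  (c (c (c (c (m (nat_lit 0x55aa36)) e) e) e) e)) (c (c (c (c (c (p (nat_lit 0x1569b82)) e) e) e) e) e))) (c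
  (c (c (c (c (c (p (nat_lit 0xd2ffc6)) (c (p (nat_lit 0x786b70)) e)) (c (c (p (nat_lit 0x55f716)) e) e)) (c
  (c (c (p (nat_lit 0x1216b6)) e) e) e)) (c (c (c (c (m (nat_lit 0x55aa42)) e) e) e) e)) (c (c (c (c (c (m
  (nat_lit 0x1dec89c)) e) e) e) e) e)) (c (c (c (c (c (c (p (nat_lit 0x1569b82)) e) e) e) e) e) e))) (c (c (c
  (c (c (c (c (m (nat_lit 0x41ac8ee)) (c (p (nat_lit 0x785bb6)) e)) (c (c (p (nat_lit 0x305c28)) e) e)) (c (c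
  (c (p (nat_lit 0x9d91dc)) e) e) e)) (c (c (c (c (m (nat_lit 0x1325a90)) e) e) e) e)) (c (c (c (c (c (m
  (nat_lit 0x23d4ede)) e) e) e) e) e)) (c (c (c (c (c (c (p (nat_lit 0x19ac472)) e) e) e) e) e) e)) (c (c (c
  (c (c (c (c (p (nat_lit 0x3ea70c2)) e) e) e) e) e) e) e)))) (c (c (c (c (c (c (c (c (p (nat_lit 0x1f296ea))
  (c (m (nat_lit 0x99683a)) (c (p (nat_lit 0x528762)) e))) (c (c (m (nat_lit 0x2263ed8)) (c (p (nat_lit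
  0x760650)) e)) (c (c (p (nat_lit 0x848f88)) e) e))) (c (c (c (m (nat_lit 0x1472e74)) (c (p (nat_lit
  0x2c2722)) e)) (c (c (p (nat_lit 0xc27474)) e) e)) (c (c (c (m (nat_lit 0x1a574)) e) e) e))) (c (c (c (c (m
  (nat_lit 0x106902c)) (c (m (nat_lit 0x530a9c)) e)) (c (c (m (nat_lit 0xaa4a2)) e) e)) (c (c (c (m (nat_lit
  0x4e7368)) e) e) e)) (c (c (c (c (m (nat_lit 0x39abd8)) e) e) e) e))) (c (c (c (c (c (m (nat_lit
  0x1a2f2b4)) (c (p (nat_lit 0x52c950)) e)) (c (c (p (nat_lit 0x3217f8)) e) e)) (c (c (c (p (nat_lit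
  0x15bff76)) e) e) e)) (c (c (c (c (p (nat_lit 0x5c850c)) e) e) e) e)) (c (c (c (c (c (m (nat_lit 0xcc6a02))
  e) e) e) e) e))) (c (c (c (c (c (c (m (nat_lit 0x27de89a)) (c (m (nat_lit 0x1448ac)) e)) (c (c (p (nat_lit
  0x14620e6)) e) e)) (c (c (c (p (nat_lit 0xe2a36a)) e) e) e)) (c (c (c (c (p (nat_lit 0x482832)) e) e) e)
  e)) (c (c (c (c (c (p (nat_lit 0x91bc1e)) e) e) e) e) e)) (c (c (c (c (c (c (m (nat_lit 0x49e846)) e) e) e)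
  e) e) e))) (c (c (c (c (c (c (c (p (nat_lit 0x3a360f2)) (c (m (nat_lit 0x30f204)) e)) (c (c (m (nat_lit
  0x24c630)) e) e)) (c (c (c (m (nat_lit 0x74699a)) e) e) e)) (c (c (c (c (p (nat_lit 0x138f2b2)) e) e) e)
  e)) (c (c (c (c (c (p (nat_lit 0x2fd06c)) e) e) e) e) e)) (c (c (c (c (c (c (m (nat_lit 0x2f9ebc)) e) e) e)
  e) e) e)) (c (c (c (c (c (c (c (m (nat_lit 0xcacdb2)) e) e) e) e) e) e) e))) (c (c (c (c (c (c (c (c (m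
  (nat_lit 0xe5fc0e)) (c (p (nat_lit 0x32b746)) e)) (c (c (m (nat_lit 0xcd512)) e) e)) (c (c (c (p (nat_lit
  0x25fc4a)) e) e) e)) (c (c (c (c (p (nat_lit 0x10bc30)) e) e) e) e)) (c (c (c (c (c (m (nat_lit 0x108e7c))
  e) e) e) e) e)) (c (c (c (c (c (c (p (nat_lit 0x4659a8)) e) e) e) e) e) e)) (c (c (c (c (c (c (c (m
  (nat_lit 0xe64d14)) e) e) e) e) e) e) e)) (c (c (c (c (c (c (c (c (p (nat_lit 0x98b86c)) e) e) e) e) e) e)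
  e) e))))) (c (c (c (c (c (c (c (c (c (p (nat_lit 0x6db9cea)) (c (m (nat_lit 0x4af630a)) (c (p (nat_lit
  0x1b3bbec)) e))) (c (c (m (nat_lit 0x1183d76)) (c (p (nat_lit 0xdadc48)) e)) (c (c (p (nat_lit 0x547b00))
  e) e))) (c (c (c (m (nat_lit 0x14f0dae)) (c (p (nat_lit 0xdadc3c)) e)) (c (c (p (nat_lit 0xcc7734)) e) e))
  (c (c (c (p (nat_lit 0x547ad0)) e) e) e))) (c (c (c (c (m (nat_lit 0xa12ad6)) (c (p (nat_lit 0x331281c)) (c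
  (m (nat_lit 0x26312a0)) e))) (c (c (m (nat_lit 0xa7c2f2)) (c (m (nat_lit 0xd26d80)) e)) (c (c (m (nat_lit
  0x20e5b34)) e) e))) (c (c (c (m (nat_lit 0x72764a)) (c (m (nat_lit 0xd26d86)) e)) (c (c (p (nat_lit
  0xb8ab14)) e) e)) (c (c (c (m (nat_lit 0x20e5b34)) e) e) e))) (c (c (c (c (p (nat_lit 0x20a6588)) (c (m
  (nat_lit 0x63a23c)) e)) (c (c (m (nat_lit 0x1068564)) e) e)) (c (c (c (m (nat_lit 0x1068570)) e) e) e))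
  e))) (c (c (c (c (c (m (nat_lit 0x3af8a2)) (c (p (nat_lit 0x3fe7090)) (c (m (nat_lit 0x5fbf26)) e))) (c (c
  (p (nat_lit 0x1ee82c6)) (c (p (nat_lit 0xeed58)) e)) (c (c (m (nat_lit 0x3b8650)) e) e))) (c (c (c (p
  (nat_lit 0x1144170)) (c (p (nat_lit 0x2da074)) e)) (c (c (m (nat_lit 0x878340)) e) e)) (c (c (c (p (nat_lit
  0xe7e43c)) e) e) e))) (c (c (c (c (m (nat_lit 0x67f158)) (c (m (nat_lit 0x495b4)) e)) (c (c (m (nat_lit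
  0x5c6928)) e) e)) (c (c (c (m (nat_lit 0x83526c)) e) e) e)) e)) (c (c (c (c (c (m (nat_lit 0x25a418)) (c (m
  (nat_lit 0x4f8fde)) e)) (c (c (p (nat_lit 0x1099260)) e) e)) (c (c (c (m (nat_lit 0x3b96a0)) e) e) e)) e)
  e))) (c (c (c (c (c (c (m (nat_lit 0x249f870)) (c (p (nat_lit 0x2aeb8cc)) (c (m (nat_lit 0x5fbf68)) e))) (c
  (c (p (nat_lit 0x13f59ba)) (c (p (nat_lit 0x2da068)) e)) (c (c (p (nat_lit 0xe7e454)) e) e))) (c (c (c (p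
  (nat_lit 0x190747e)) (c (p (nat_lit 0xeed40)) e)) (c (c (m (nat_lit 0x87837c)) e) e)) (c (c (c (m (nat_lit
  0x3b8698)) e) e) e))) (c (c (c (c (m (nat_lit 0x67f1d6)) (c (m (nat_lit 0x4953c)) e)) (c (c (m (nat_lit
  0x8352a8)) e) e)) (c (c (c (m (nat_lit 0x5c697c)) e) e) e)) e)) (c (c (c (c (c (m (nat_lit 0x237624)) (c (p
  (nat_lit 0xd2ae36)) e)) (c (c (m (nat_lit 0x264ee8)) e) e)) (c (c (c (m (nat_lit 0x264f18)) e) e) e)) e)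
  e)) (c (c (c (c (c (c (m (nat_lit 0x25a3ca)) (c (m (nat_lit 0x4f9020)) e)) (c (c (m (nat_lit 0x3b96ac)) e)
  e)) (c (c (c (p (nat_lit 0x109923c)) e) e) e)) e) e) e))) (c (c (c (c (c (c (c (m (nat_lit 0x10a3ec8)) (c
  (m (nat_lit 0x15dd688)) (c (p (nat_lit 0x343f32)) e))) (c (c (p (nat_lit 0x21b2c4a)) (c (m (nat_lit
  0x549a26)) e)) (c (c (m (nat_lit 0x7db2f0)) e) e))) (c (c (c (m (nat_lit 0x1ae2ce4)) (c (m (nat_lit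
  0x409c08)) e)) (c (c (m (nat_lit 0xc438fc)) e) e)) (c (c (c (m (nat_lit 0x219858)) e) e) e))) (c (c (c (c
  (p (nat_lit 0x31cf74)) (c (m (nat_lit 0xe2dd72)) e)) (c (c (p (nat_lit 0x131c94c)) e) e)) (c (c (c (p
  (nat_lit 0x16e8cc4)) e) e) e)) (c (c (c (c (p (nat_lit 0x24455a)) e) e) e) e))) (c (c (c (c (c (m (nat_lit
  0x2e89120)) (c (m (nat_lit 0x16fba62)) e)) (c (c (p (nat_lit 0x50987a)) e) e)) (c (c (c (p (nat_lit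
  0x10a3fc4)) e) e) e)) (c (c (c (c (p (nat_lit 0xb5ba1a)) e) e) e) e)) (c (c (c (c (c (m (nat_lit
  0x13291b0)) e) e) e) e) e))) (c (c (c (c (c (c (m (nat_lit 0x12f444c)) (c (m (nat_lit 0x9a7fee)) e)) (c (c
  (m (nat_lit 0x18a06ec)) e) e)) (c (c (c (p (nat_lit 0x1528854)) e) e) e)) (c (c (c (c (m (nat_lit
  0x3dfd10)) e) e) e) e)) (c (c (c (c (c (m (nat_lit 0x237648)) e) e) e) e) e)) (c (c (c (c (c (c (p (nat_lit
  0xcc43e0)) e) e) e) e) e) e))) (c (c (c (c (c (c (c (m (nat_lit 0x2e261fe)) (c (p (nat_lit 0x13d3d18)) e))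
  (c (c (m (nat_lit 0xd6f1fa)) e) e)) (c (c (c (p (nat_lit 0x12afd52)) e) e) e)) (c (c (c (c (p (nat_lit
  0x10fc5c0)) e) e) e) e)) (c (c (c (c (c (p (nat_lit 0x194f274)) e) e) e) e) e)) (c (c (c (c (c (c (p
  (nat_lit 0x11bbd26)) e) e) e) e) e) e)) (c (c (c (c (c (c (c (m (nat_lit 0x3f2778)) e) e) e) e) e) e) e))))
  (c (c (c (c (c (c (c (c (m (nat_lit 0x48ed2c4)) (c (p (nat_lit 0x117689a)) (c (p (nat_lit 0x343f1a)) e)))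
  (c (c (m (nat_lit 0xff84a8)) (c (m (nat_lit 0x409c1a)) e)) (c (c (m (nat_lit 0x219864)) e) e))) (c (c (c (p
  (nat_lit 0x23aae60)) (c (m (nat_lit 0x549a0e)) e)) (c (c (m (nat_lit 0xc4392c)) e) e)) (c (c (c (m (nat_lit
  0x7db2c0)) e) e) e))) (c (c (c (c (p (nat_lit 0x61ae9e)) (c (m (nat_lit 0x18d1d30)) e)) (c (c (p (nat_lit
  0xde957c)) e) e)) (c (c (c (p (nat_lit 0x6c85f8)) e) e) e)) (c (c (c (c (p (nat_lit 0x244572)) e) e) e)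
  e))) (c (c (c (c (c (m (nat_lit 0x2b00fa4)) (c (m (nat_lit 0xf8ce20)) e)) (c (c (p (nat_lit 0xb5f1c4)) e)
  e)) (c (c (c (m (nat_lit 0x1f7d60c)) e) e) e)) (c (c (c (c (m (nat_lit 0x3dfce0)) e) e) e) e)) (c (c (c (c
  (c (p (nat_lit 0xcc43e6)) e) e) e) e) e))) (c (c (c (c (c (c (m (nat_lit 0x7d6cfa)) (c (m (nat_lit
  0x7e5070)) e)) (c (c (p (nat_lit 0x715818)) e) e)) (c (c (c (p (nat_lit 0x121194)) e) e) e)) (c (c (c (c (p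
  (nat_lit 0xb5b9d8)) e) e) e) e)) (c (c (c (c (c (m (nat_lit 0x237624)) e) e) e) e) e)) (c (c (c (c (c (c (m
  (nat_lit 0x1329180)) e) e) e) e) e) e))) (c (c (c (c (c (c (c (p (nat_lit 0xaf6fede)) (c (m (nat_lit
  0x5cd360)) e)) (c (c (p (nat_lit 0x35bcb0)) e) e)) (c (c (c (m (nat_lit 0x732fb4)) e) e) e)) (c (c (c (c (p
  (nat_lit 0x165ad4c)) e) e) e) e)) (c (c (c (c (c (p (nat_lit 0x1d2e12)) e) e) e) e) e)) (c (c (c (c (c (c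
  (m (nat_lit 0x8e8894)) e) e) e) e) e) e)) (c (c (c (c (c (c (c (m (nat_lit 0x2b1cf46)) e) e) e) e) e) e)
  e))) (c (c (c (c (c (c (c (c (p (nat_lit 0x2a8790)) (c (m (nat_lit 0x14da38)) e)) (c (c (p (nat_lit
  0x9d2576)) e) e)) (c (c (c (p (nat_lit 0xa180e)) e) e) e)) (c (c (c (c (p (nat_lit 0xbb2900)) e) e) e) e))
  (c (c (c (c (c (p (nat_lit 0x11e6332)) e) e) e) e) e)) (c (c (c (c (c (c (p (nat_lit 0x665fca)) e) e) e) e)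
  e) e)) (c (c (c (c (c (c (c (m (nat_lit 0x2e261da)) e) e) e) e) e) e) e)) (c (c (c (c (c (c (c (c (m
  (nat_lit 0x350f6a)) e) e) e) e) e) e) e) e)))) (c (c (c (c (c (c (c (c (c (m (nat_lit 0x5055e34)) (c (m
  (nat_lit 0x192d362)) (c (p (nat_lit 0x23ccd0)) e))) (c (c (m (nat_lit 0x97a430)) (c (p (nat_lit 0xcd752))
  e)) (c (c (p (nat_lit 0x1278858)) e) e))) (c (c (c (m (nat_lit 0x5c12b2)) (c (p (nat_lit 0xcd752)) e)) (c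
  (c (p (nat_lit 0x7113d8)) e) e)) (c (c (c (p (nat_lit 0x1278870)) e) e) e))) (c (c (c (c (p (nat_lit
  0x1b48630)) (c (p (nat_lit 0x1e55f56)) e)) (c (c (p (nat_lit 0x1791bdc)) e) e)) (c (c (c (p (nat_lit
  0x1791bb8)) e) e) e)) (c (c (c (c (m (nat_lit 0x610ee4)) e) e) e) e))) (c (c (c (c (c (p (nat_lit
  0xbb0404)) (c (m (nat_lit 0xecdc00)) e)) (c (c (m (nat_lit 0x1706eb0)) e) e)) (c (c (c (m (nat_lit
  0x23a39c)) e) e) e)) (c (c (c (c (m (nat_lit 0x183f1e)) e) e) e) e)) (c (c (c (c (c (m (nat_lit 0x89658c))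
  e) e) e) e) e))) (c (c (c (c (c (c (p (nat_lit 0x1cd1bdc)) (c (m (nat_lit 0xecdbb8)) e)) (c (c (m (nat_lit
  0x23a36c)) e) e)) (c (c (c (m (nat_lit 0x1706ee0)) e) e) e)) (c (c (c (c (m (nat_lit 0x183ef4)) e) e) e)
  e)) (c (c (c (c (c (p (nat_lit 0x7c9818)) e) e) e) e) e)) (c (c (c (c (c (c (m (nat_lit 0x896598)) e) e) e)
  e) e) e))) (c (c (c (c (c (c (c (p (nat_lit 0xc61d04)) (c (p (nat_lit 0x112979a)) e)) (c (c (m (nat_lit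
  0x10914ae)) e) e)) (c (c (c (m (nat_lit 0x96aa94)) e) e) e)) (c (c (c (c (m (nat_lit 0x2b0833c)) e) e) e)
  e)) (c (c (c (c (c (p (nat_lit 0x24938a6)) e) e) e) e) e)) (c (c (c (c (c (c (p (nat_lit 0xaa5ab2)) e) e)
  e) e) e) e)) (c (c (c (c (c (c (c (p (nat_lit 0x172978e)) e) e) e) e) e) e) e))) (c (c (c (c (c (c (c (c (p
  (nat_lit 0x14479e6)) (c (p (nat_lit 0x7e750c)) e)) (c (c (p (nat_lit 0x5a594c)) e) e)) (c (c (c (m (nat_lit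
  0x53a23a)) e) e) e)) (c (c (c (c (m (nat_lit 0x2c855be)) e) e) e) e)) (c (c (c (c (c (p (nat_lit 0x6dcd28))
  e) e) e) e) e)) (c (c (c (c (c (c (p (nat_lit 0xfa92c0)) e) e) e) e) e) e)) (c (c (c (c (c (c (c (m
  (nat_lit 0x3a184e8)) e) e) e) e) e) e) e)) (c (c (c (c (c (c (c (c (p (nat_lit 0xe102f4)) e) e) e) e) e) e)
  e) e))) (c (c (c (c (c (c (c (c (c (p (nat_lit 0x12b973c)) (c (m (nat_lit 0x129e10)) e)) (c (c (m (nat_lit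
  0x5cce68)) e) e)) (c (c (c (m (nat_lit 0x5cce5c)) e) e) e)) (c (c (c (c (p (nat_lit 0x3f9e76)) e) e) e) e))
  (c (c (c (c (c (m (nat_lit 0x73397a)) e) e) e) e) e)) (c (c (c (c (c (c (m (nat_lit 0x733956)) e) e) e) e)
  e) e)) (c (c (c (c (c (c (c (p (nat_lit 0xfd2b28)) e) e) e) e) e) e) e)) (c (c (c (c (c (c (c (c (p
  (nat_lit 0xe5f7d0)) e) e) e) e) e) e) e) e)) (c (c (c (c (c (c (c (c (c (m (nat_lit 0x633144)) e) e) e) e)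
  e) e) e) e) e)))))

noncomputable def gt_0_0_7 : Tr :=
  (c (c (c (c (c (c (c (c (c (m (nat_lit 0x52578c0)) (c (p (nat_lit 0x11e9d28)) (c (m (nat_lit 0x5b7700))
  e))) (c (c (p (nat_lit 0x11e9d88)) (c (m (nat_lit 0x9170d0)) e)) (c (c (m (nat_lit 0x5b7718)) e) e))) (c (c
  (c (p (nat_lit 0x3a98fd2)) (c (m (nat_lit 0x916e60)) e)) (c (c (m (nat_lit 0x916fb0)) e) e)) (c (c (c (m
  (nat_lit 0x5b76d0)) e) e) e))) (c (c (c (c (m (nat_lit 0x4920648)) (c (p (nat_lit 0xa7a3ae)) (c (m (nat_lit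
  0x1eed6a8)) e))) (c (c (p (nat_lit 0x5d46866)) (c (p (nat_lit 0x6c0390)) e)) (c (c (m (nat_lit 0x1edff80))
  e) e))) (c (c (c (p (nat_lit 0x5b4140e)) (c (p (nat_lit 0x6bfe68)) e)) (c (c (m (nat_lit 0x19fabf8)) e) e))
  (c (c (c (m (nat_lit 0x1ee0058)) e) e) e))) (c (c (c (c (p (nat_lit 0xc08868)) (c (m (nat_lit 0xadfa78)) (c
  (p (nat_lit 0x1838550)) e))) (c (c (p (nat_lit 0x1e5aaf8)) (c (m (nat_lit 0x627630)) e)) (c (c (m (nat_lit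
  0xcd48c8)) e) e))) (c (c (c (p (nat_lit 0x1e5ab10)) (c (m (nat_lit 0x627630)) e)) (c (c (m (nat_lit
  0x1b96330)) e) e)) (c (c (c (m (nat_lit 0xcd48f8)) e) e) e))) e))) (c (c (c (c (c (m (nat_lit 0x49204bc))
  (c (p (nat_lit 0x5d46836)) (c (m (nat_lit 0x1ee0058)) e))) (c (c (p (nat_lit 0xa7a2a6)) (c (p (nat_lit
  0x6bff88)) e)) (c (c (m (nat_lit 0x1eed810)) e) e))) (c (c (c (p (nat_lit 0x5b41396)) (c (m (nat_lit
  0x19fadc0)) e)) (c (c (p (nat_lit 0x6bff40)) e) e)) (c (c (c (m (nat_lit 0x1edffb0)) e) e) e))) (c (c (c (c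
  (m (nat_lit 0x44901c)) (c (m (nat_lit 0x18580f8)) (c (p (nat_lit 0xa29d50)) e))) (c (c (m (nat_lit
  0x1857fa8)) (c (m (nat_lit 0xb0c28)) e)) (c (c (p (nat_lit 0xa29cf0)) e) e))) (c (c (c (m (nat_lit
  0x1b25e00)) (c (p (nat_lit 0x136bc90)) e)) (c (c (p (nat_lit 0x136bd08)) e) e)) (c (c (c (p (nat_lit
  0xfa0560)) e) e) e))) e)) (c (c (c (c (c (p (nat_lit 0xc088a4)) (c (p (nat_lit 0x1e5ab28)) (c (m (nat_lit
  0xcd48f8)) e))) (c (c (m (nat_lit 0xadfa48)) (c (m (nat_lit 0x627648)) e)) (c (c (p (nat_lit 0x1838550)) e)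
  e))) (c (c (c (p (nat_lit 0x1e5aab0)) (c (m (nat_lit 0x1b96330)) e)) (c (c (m (nat_lit 0x627630)) e) e)) (c
  (c (c (m (nat_lit 0xcd48e0)) e) e) e))) e) e))) (c (c (c (c (c (c (m (nat_lit 0x27b31c6)) (c (p (nat_lit
  0x42fe9a6)) (c (m (nat_lit 0x1ee0040)) e))) (c (c (p (nat_lit 0x42fe7ae)) (c (m (nat_lit 0x19fad78)) e)) (c
  (c (m (nat_lit 0x1ee0160)) e) e))) (c (c (c (p (nat_lit 0x100c3e0)) (c (p (nat_lit 0x6c0048)) e)) (c (c (p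
  (nat_lit 0x6c0030)) e) e)) (c (c (c (m (nat_lit 0x1eed738)) e) e) e))) (c (c (c (c (m (nat_lit 0x448f14))
  (c (m (nat_lit 0x18580c8)) (c (p (nat_lit 0xa29cd8)) e))) (c (c (m (nat_lit 0x1b25d88)) (c (p (nat_lit
  0x136bc18)) e)) (c (c (p (nat_lit 0xfa05d8)) e) e))) (c (c (c (m (nat_lit 0x1857f90)) (c (m (nat_lit
  0xb0cb8)) e)) (c (c (p (nat_lit 0x136bc30)) e) e)) (c (c (c (p (nat_lit 0xa29d08)) e) e) e))) e)) (c (c (c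
  (c (c (m (nat_lit 0x449010)) (c (m (nat_lit 0x1b25e90)) (c (p (nat_lit 0xfa0590)) e))) (c (c (m (nat_lit
  0x1857f60)) (c (p (nat_lit 0x136bc60)) e)) (c (c (p (nat_lit 0xa29d20)) e) e))) (c (c (c (m (nat_lit
  0x1857f60)) (c (p (nat_lit 0x136bc48)) e)) (c (c (m (nat_lit 0xb0c28)) e) e)) (c (c (c (p (nat_lit
  0xa29c78)) e) e) e))) e) e)) (c (c (c (c (c (c (p (nat_lit 0xc08838)) (c (p (nat_lit 0x1e5ab70)) (c (m
  (nat_lit 0xcd4940)) e))) (c (c (p (nat_lit 0x1e5ab40)) (c (m (nat_lit 0x1b96330)) e)) (c (c (m (nat_lit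
  0xcd4910)) e) e))) (c (c (c (m (nat_lit 0xadfa30)) (c (m (nat_lit 0x627630)) e)) (c (c (m (nat_lit
  0x627630)) e) e)) (c (c (c (p (nat_lit 0x18384f0)) e) e) e))) e) e) e))) (c (c (c (c (c (c (c (p (nat_lit
  0xac865e2)) (c (m (nat_lit 0x1995018)) (c (p (nat_lit 0x25a3c28)) e))) (c (c (m (nat_lit 0x1994f28)) (c (p
  (nat_lit 0x14f1960)) e)) (c (c (p (nat_lit 0x25a3c40)) e) e))) (c (c (c (p (nat_lit 0x1dc0d1e)) (c (m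
  (nat_lit 0x24ee68)) e)) (c (c (m (nat_lit 0x24ee98)) e) e)) (c (c (c (m (nat_lit 0xe861b8)) e) e) e))) (c
  (c (c (c (p (nat_lit 0x819f2c4)) (c (p (nat_lit 0x17a588)) (c (m (nat_lit 0xc519d8)) e))) (c (c (m (nat_lit
  0x55685b2)) (c (m (nat_lit 0x3f2c40)) e)) (c (c (p (nat_lit 0x4ca778)) e) e))) (c (c (c (m (nat_lit
  0xe4782e8)) (c (p (nat_lit 0xaaa570)) e)) (c (c (p (nat_lit 0x116abb8)) e) e)) (c (c (c (p (nat_lit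
  0x912180)) e) e) e))) (c (c (c (c (m (nat_lit 0x1f5a410)) (c (m (nat_lit 0x56e2f0)) e)) (c (c (p (nat_lit
  0x322a40)) e) e)) (c (c (c (p (nat_lit 0x5bf518)) e) e) e)) e))) (c (c (c (c (c (p (nat_lit 0x819f822)) (c
  (m (nat_lit 0x5568552)) (c (p (nat_lit 0x4ca718)) e))) (c (c (p (nat_lit 0x17a528)) (c (m (nat_lit
  0x3f2c28)) e)) (c (c (m (nat_lit 0xc519c0)) e) e))) (c (c (c (m (nat_lit 0xe47824c)) (c (p (nat_lit
  0x116abb8)) e)) (c (c (p (nat_lit 0xaaa570)) e) e)) (c (c (c (p (nat_lit 0x912150)) e) e) e))) (c (c (c (c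
  (m (nat_lit 0x441fc0)) (c (p (nat_lit 0x8c68f8)) e)) (c (c (p (nat_lit 0x8c6868)) e) e)) (c (c (c (p
  (nat_lit 0x26190)) e) e) e)) e)) (c (c (c (c (c (m (nat_lit 0x1f5a428)) (c (p (nat_lit 0x322a10)) e)) (c (c
  (m (nat_lit 0x56e2f0)) e) e)) (c (c (c (p (nat_lit 0x5bf518)) e) e) e)) e) e))) (c (c (c (c (c (c (m
  (nat_lit 0x22d5f56)) (c (m (nat_lit 0xf80958)) (c (p (nat_lit 0xa0db50)) e))) (c (c (m (nat_lit 0xf80a78))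
  (c (p (nat_lit 0xd87500)) e)) (c (c (p (nat_lit 0xa0db38)) e) e))) (c (c (c (p (nat_lit 0x234c36)) (c (m
  (nat_lit 0xbd3ed0)) e)) (c (c (m (nat_lit 0xbd3ed0)) e) e)) (c (c (c (p (nat_lit 0xea8760)) e) e) e))) (c
  (c (c (c (p (nat_lit 0x197df48)) (c (p (nat_lit 0x5325c0)) e)) (c (c (m (nat_lit 0x84c960)) e) e)) (c (c (c
  (p (nat_lit 0xe12c10)) e) e) e)) e)) (c (c (c (c (c (p (nat_lit 0x197dc60)) (c (m (nat_lit 0x84c960)) e))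
  (c (c (p (nat_lit 0x5325a8)) e) e)) (c (c (c (p (nat_lit 0xe12be0)) e) e) e)) e) e)) (c (c (c (c (c (c (p
  (nat_lit 0x3243cc)) (c (m (nat_lit 0xbeba98)) e)) (c (c (m (nat_lit 0xbeba98)) e) e)) (c (c (c (m (nat_lit
  0x19cd490)) e) e) e)) e) e) e))) (c (c (c (c (c (c (c (m (nat_lit 0xaddf186)) (c (m (nat_lit 0xd62228)) (c
  (m (nat_lit 0xac69f8)) e))) (c (c (m (nat_lit 0xd62240)) (c (p (nat_lit 0x7c6860)) e)) (c (c (m (nat_lit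
  0xac69e0)) e) e))) (c (c (c (m (nat_lit 0x614af0)) (c (p (nat_lit 0x1170810)) e)) (c (c (p (nat_lit
  0x1170810)) e) e)) (c (c (c (p (nat_lit 0xdb810)) e) e) e))) (c (c (c (c (m (nat_lit 0x14b8bf4)) (c (p
  (nat_lit 0xc64e2a)) e)) (c (c (p (nat_lit 0x1d2c3a4)) e) e)) (c (c (c (p (nat_lit 0x905b902)) e) e) e)) (c
  (c (c (c (p (nat_lit 0x83ba88)) e) e) e) e))) (c (c (c (c (c (m (nat_lit 0x14b8c30)) (c (p (nat_lit
  0x1d2c3d4)) e)) (c (c (p (nat_lit 0xc64e42)) e) e)) (c (c (c (p (nat_lit 0x905b8de)) e) e) e)) (c (c (c (c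
  (p (nat_lit 0x92da50)) e) e) e) e)) (c (c (c (c (c (p (nat_lit 0x83ba94)) e) e) e) e) e))) (c (c (c (c (c
  (c (m (nat_lit 0x5be64e0)) (c (p (nat_lit 0x11bcc7a)) e)) (c (c (p (nat_lit 0x11bccf2)) e) e)) (c (c (c (p
  (nat_lit 0x995ec2)) e) e) e)) (c (c (c (c (m (nat_lit 0x838c8)) e) e) e) e)) (c (c (c (c (c (m (nat_lit
  0x838d4)) e) e) e) e) e)) (c (c (c (c (c (c (p (nat_lit 0x2b8a74)) e) e) e) e) e) e))) (c (c (c (c (c (c (c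
  (p (nat_lit 0x8da4b26)) (c (m (nat_lit 0x29ba28)) e)) (c (c (m (nat_lit 0x29ba28)) e) e)) (c (c (c (m
  (nat_lit 0x27ddc58)) e) e) e)) (c (c (c (c (m (nat_lit 0x2d3c960)) e) e) e) e)) (c (c (c (c (c (m (nat_lit
  0x2d3c94e)) e) e) e) e) e)) (c (c (c (c (c (c (p (nat_lit 0x35e5840)) e) e) e) e) e) e)) (c (c (c (c (c (c
  (c (m (nat_lit 0x3c7da12)) e) e) e) e) e) e) e))))) (c (c (c (c (c (c (c (c (p (nat_lit 0xa56a40a)) (c (m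
  (nat_lit 0x1c67652)) (c (p (nat_lit 0x25a3ad8)) e))) (c (c (m (nat_lit 0xb01864)) (c (m (nat_lit 0x24ee20))
  e)) (c (c (m (nat_lit 0xe861e8)) e) e))) (c (c (c (m (nat_lit 0x6e79456)) (c (p (nat_lit 0x14f1978)) e)) (c
  (c (m (nat_lit 0x24ee50)) e) e)) (c (c (c (p (nat_lit 0x25a3b08)) e) e) e))) (c (c (c (c (p (nat_lit
  0x7b47376)) (c (p (nat_lit 0x83bd0a)) (c (m (nat_lit 0xc519a8)) e))) (c (c (m (nat_lit 0x6aa602e)) (c (p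
  (nat_lit 0xaaa558)) e)) (c (c (p (nat_lit 0x912180)) e) e))) (c (c (c (m (nat_lit 0x2a0313e)) (c (m
  (nat_lit 0x3f2c40)) e)) (c (c (p (nat_lit 0x116abb8)) e) e)) (c (c (c (p (nat_lit 0x4ca790)) e) e) e))) (c
  (c (c (c (m (nat_lit 0x1f5a428)) (c (m (nat_lit 0x56e308)) e)) (c (c (p (nat_lit 0x5bf4e8)) e) e)) (c (c (c
  (p (nat_lit 0x322a28)) e) e) e)) e))) (c (c (c (c (c (m (nat_lit 0x3073eba)) (c (m (nat_lit 0x25ec8ee)) (c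
  (p (nat_lit 0xa0db98)) e))) (c (c (p (nat_lit 0x2615412)) (c (m (nat_lit 0xbd3eb8)) e)) (c (c (p (nat_lit
  0xea8730)) e) e))) (c (c (c (m (nat_lit 0x23e73ee)) (c (p (nat_lit 0xd874e8)) e)) (c (c (m (nat_lit
  0xbd3ee8)) e) e)) (c (c (c (p (nat_lit 0xa0db20)) e) e) e))) (c (c (c (c (p (nat_lit 0x197dd08)) (c (p
  (nat_lit 0x5325a8)) e)) (c (c (p (nat_lit 0xe12be0)) e) e)) (c (c (c (m (nat_lit 0x84c9f0)) e) e) e)) e))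
  (c (c (c (c (c (p (nat_lit 0x3243f0)) (c (m (nat_lit 0xbebac8)) e)) (c (c (m (nat_lit 0x19cd4f0)) e) e)) (c
  (c (c (m (nat_lit 0xbebab0)) e) e) e)) e) e))) (c (c (c (c (c (c (p (nat_lit 0x24e9bc2)) (c (m (nat_lit
  0x11c04de)) (c (p (nat_lit 0x4ca790)) e))) (c (c (m (nat_lit 0x505e2be)) (c (p (nat_lit 0x116ab88)) e)) (c
  (c (p (nat_lit 0x9121b0)) e) e))) (c (c (c (p (nat_lit 0x2a9c18)) (c (m (nat_lit 0x3f2c58)) e)) (c (c (p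
  (nat_lit 0xaaa558)) e) e)) (c (c (c (m (nat_lit 0xc519c0)) e) e) e))) (c (c (c (c (m (nat_lit 0x4420f8)) (c
  (p (nat_lit 0x8c6880)) e)) (c (c (p (nat_lit 0x26100)) e) e)) (c (c (c (p (nat_lit 0x8c68c8)) e) e) e)) e))
  (c (c (c (c (c (p (nat_lit 0x197dd20)) (c (m (nat_lit 0x84c930)) e)) (c (c (p (nat_lit 0xe12bf8)) e) e)) (c
  (c (c (p (nat_lit 0x532590)) e) e) e)) e) e)) (c (c (c (c (c (c (m (nat_lit 0x1f5a3c8)) (c (p (nat_lit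
  0x322a10)) e)) (c (c (p (nat_lit 0x5bf4e8)) e) e)) (c (c (c (m (nat_lit 0x56e308)) e) e) e)) e) e) e))) (c
  (c (c (c (c (c (c (m (nat_lit 0x1572487e)) (c (m (nat_lit 0xaec96c)) (c (m (nat_lit 0x18a8ae0)) e))) (c (c
  (p (nat_lit 0x3d09b2a)) (c (m (nat_lit 0x16cfb48)) e)) (c (c (m (nat_lit 0x2135a0)) e) e))) (c (c (c (p
  (nat_lit 0x899a50a)) (c (m (nat_lit 0x16cfb48)) e)) (c (c (m (nat_lit 0xad6bb0)) e) e)) (c (c (c (m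
  (nat_lit 0x213558)) e) e) e))) (c (c (c (c (m (nat_lit 0x126e0e2)) (c (p (nat_lit 0x1e3268e)) e)) (c (c (p
  (nat_lit 0x1b4460a)) e) e)) (c (c (c (p (nat_lit 0x193f302)) e) e) e)) (c (c (c (c (p (nat_lit 0x1cdcb38))
  e) e) e) e))) (c (c (c (c (c (p (nat_lit 0xbbb9de)) (c (p (nat_lit 0x2b944ae)) e)) (c (c (m (nat_lit
  0x115ede)) e) e)) (c (c (c (p (nat_lit 0x2bbb2b6)) e) e) e)) (c (c (c (c (m (nat_lit 0xf15630)) e) e) e)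
  e)) (c (c (c (c (c (p (nat_lit 0x185850)) e) e) e) e) e))) (c (c (c (c (c (c (p (nat_lit 0x76a9334)) (c (p
  (nat_lit 0x114c696)) e)) (c (c (p (nat_lit 0x1378806)) e) e)) (c (c (c (p (nat_lit 0x47c2bc)) e) e) e)) (c
  (c (c (c (m (nat_lit 0xf15678)) e) e) e) e)) (c (c (c (c (c (m (nat_lit 0x1826850)) e) e) e) e) e)) (c (c
  (c (c (c (c (p (nat_lit 0x185880)) e) e) e) e) e) e))) (c (c (c (c (c (c (c (p (nat_lit 0xa4cc6e2)) (c (m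
  (nat_lit 0x119b1a)) e)) (c (c (m (nat_lit 0x1e6ff12)) e) e)) (c (c (c (m (nat_lit 0x3ef6a6c)) e) e) e)) (c
  (c (c (c (m (nat_lit 0x4b9b988)) e) e) e) e)) (c (c (c (c (c (p (nat_lit 0x25cf56c)) e) e) e) e) e)) (c (c
  (c (c (c (c (m (nat_lit 0x527adaa)) e) e) e) e) e) e)) (c (c (c (c (c (c (c (p (nat_lit 0x2d7e186)) e) e)
  e) e) e) e) e)))) (c (c (c (c (c (c (c (c (m (nat_lit 0x7019a96)) (c (m (nat_lit 0x118663e)) (c (m (nat_lit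
  0xac6998)) e))) (c (c (p (nat_lit 0x30f3c9c)) (c (p (nat_lit 0x11707f8)) e)) (c (c (p (nat_lit 0xdb840)) e)
  e))) (c (c (c (p (nat_lit 0x17dc594)) (c (p (nat_lit 0x7c6860)) e)) (c (c (p (nat_lit 0x1170810)) e) e)) (c
  (c (c (m (nat_lit 0xac6998)) e) e) e))) (c (c (c (c (m (nat_lit 0x3b9f802)) (c (p (nat_lit 0x5a35d0)) e))
  (c (c (p (nat_lit 0x14844f0)) e) e)) (c (c (c (m (nat_lit 0xc33f30)) e) e) e)) (c (c (c (c (p (nat_lit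
  0x83bad0)) e) e) e) e))) (c (c (c (c (c (m (nat_lit 0x8ab2f2)) (c (p (nat_lit 0xde0bb8)) e)) (c (c (m
  (nat_lit 0x14b8708)) e) e)) (c (c (c (p (nat_lit 0xde0bd0)) e) e) e)) (c (c (c (c (m (nat_lit 0x83898)) e)
  e) e) e)) (c (c (c (c (c (p (nat_lit 0x2b8ab0)) e) e) e) e) e))) (c (c (c (c (c (c (m (nat_lit 0x6af380))
  (c (m (nat_lit 0xc33f18)) e)) (c (c (p (nat_lit 0x14844f0)) e) e)) (c (c (c (p (nat_lit 0x5a35e8)) e) e)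
  e)) (c (c (c (c (p (nat_lit 0x92da98)) e) e) e) e)) (c (c (c (c (c (m (nat_lit 0x83838)) e) e) e) e) e)) (c
  (c (c (c (c (c (p (nat_lit 0x83ba70)) e) e) e) e) e) e))) (c (c (c (c (c (c (c (p (nat_lit 0xf62ee0c)) (c
  (p (nat_lit 0x3a1b92)) e)) (c (c (m (nat_lit 0x1e9ed3c)) e) e)) (c (c (c (m (nat_lit 0x21f9990)) e) e) e))
  (c (c (c (c (p (nat_lit 0x186709e)) e) e) e) e)) (c (c (c (c (c (m (nat_lit 0x3c36ea6)) e) e) e) e) e)) (c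
  (c (c (c (c (c (m (nat_lit 0xd6d1c0)) e) e) e) e) e) e)) (c (c (c (c (c (c (c (m (nat_lit 0x557b542)) e) e)
  e) e) e) e) e))) (c (c (c (c (c (c (c (c (p (nat_lit 0xda7a08)) (c (p (nat_lit 0x45b280)) e)) (c (c (m
  (nat_lit 0xd74cc0)) e) e)) (c (c (c (p (nat_lit 0x45b280)) e) e) e)) (c (c (c (c (p (nat_lit 0x2418)) e) e)
  e) e)) (c (c (c (c (c (p (nat_lit 0x11b5a68)) e) e) e) e) e)) (c (c (c (c (c (c (p (nat_lit 0x2478)) e) e)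
  e) e) e) e)) (c (c (c (c (c (c (c (m (nat_lit 0x3aa2140)) e) e) e) e) e) e) e)) (c (c (c (c (c (c (c (c (p
  (nat_lit 0xcd61a0)) e) e) e) e) e) e) e) e))))) (c (c (c (c (c (c (c (c (c (p (nat_lit 0xa56a416)) (c (m
  (nat_lit 0xb018c4)) (c (m (nat_lit 0xe86170)) e))) (c (c (m (nat_lit 0x1c6778a)) (c (m (nat_lit 0x24ee50))
  e)) (c (c (p (nat_lit 0x25a3bb0)) e) e))) (c (c (c (m (nat_lit 0x6e7970e)) (c (m (nat_lit 0x24ee38)) e)) (c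
  (c (p (nat_lit 0x14f19a8)) e) e)) (c (c (c (p (nat_lit 0x25a3c10)) e) e) e))) (c (c (c (c (m (nat_lit
  0x3073e2a)) (c (p (nat_lit 0x26154ba)) (c (p (nat_lit 0xea86a0)) e))) (c (c (m (nat_lit 0x25ec85e)) (c (m
  (nat_lit 0xbd3ee8)) e)) (c (c (p (nat_lit 0xa0db50)) e) e))) (c (c (c (m (nat_lit 0x23e73d6)) (c (m
  (nat_lit 0xbd3f18)) e)) (c (c (p (nat_lit 0xd874b8)) e) e)) (c (c (c (p (nat_lit 0xa0db08)) e) e) e))) (c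
  (c (c (c (p (nat_lit 0x3243a8)) (c (m (nat_lit 0x19cd490)) e)) (c (c (m (nat_lit 0xbeba98)) e) e)) (c (c (c
  (m (nat_lit 0xbeba80)) e) e) e)) e))) (c (c (c (c (c (p (nat_lit 0x7b472da)) (c (m (nat_lit 0x6aa6196)) (c
  (p (nat_lit 0x912150)) e))) (c (c (p (nat_lit 0x83bd9a)) (c (p (nat_lit 0xaaa570)) e)) (c (c (m (nat_lit
  0xc519a8)) e) e))) (c (c (c (m (nat_lit 0x2a02fee)) (c (p (nat_lit 0x116abb8)) e)) (c (c (m (nat_lit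
  0x3f2c58)) e) e)) (c (c (c (p (nat_lit 0x4ca718)) e) e) e))) (c (c (c (c (p (nat_lit 0x197dee8)) (c (p
  (nat_lit 0xe12b50)) e)) (c (c (p (nat_lit 0x5325c0)) e) e)) (c (c (c (m (nat_lit 0x84c8b8)) e) e) e)) e))
  (c (c (c (c (c (m (nat_lit 0x1f5a4d0)) (c (p (nat_lit 0x5bf518)) e)) (c (c (m (nat_lit 0x56e2d8)) e) e)) (c
  (c (c (p (nat_lit 0x322a58)) e) e) e)) e) e))) (c (c (c (c (c (c (p (nat_lit 0x24e993a)) (c (m (nat_lit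
  0x505e3de)) (c (p (nat_lit 0x912198)) e))) (c (c (m (nat_lit 0x11c0496)) (c (p (nat_lit 0x116abb8)) e)) (c
  (c (p (nat_lit 0x4ca7c0)) e) e))) (c (c (c (p (nat_lit 0x2a9d08)) (c (p (nat_lit 0xaaa570)) e)) (c (c (m
  (nat_lit 0x3f2c70)) e) e)) (c (c (c (m (nat_lit 0xc519f0)) e) e) e))) (c (c (c (c (p (nat_lit 0x197dd98))
  (c (p (nat_lit 0xe12bf8)) e)) (c (c (m (nat_lit 0x84c960)) e) e)) (c (c (c (p (nat_lit 0x5325f0)) e) e) e))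
  e)) (c (c (c (c (c (m (nat_lit 0x441e70)) (c (p (nat_lit 0x260e8)) e)) (c (c (p (nat_lit 0x8c6850)) e) e))
  (c (c (c (p (nat_lit 0x8c6880)) e) e) e)) e) e)) (c (c (c (c (c (c (m (nat_lit 0x1f5a488)) (c (p (nat_lit
  0x5bf500)) e)) (c (c (p (nat_lit 0x322a58)) e) e)) (c (c (c (m (nat_lit 0x56e2d8)) e) e) e)) e) e) e))) (c
  (c (c (c (c (c (c (m (nat_lit 0x156fed00)) (c (p (nat_lit 0x3d1cf22)) (c (m (nat_lit 0x213588)) e))) (c (c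
  (m (nat_lit 0xb3eda0)) (c (m (nat_lit 0x16cfb30)) e)) (c (c (m (nat_lit 0x18a8af8)) e) e))) (c (c (c (p
  (nat_lit 0x89ad9a4)) (c (m (nat_lit 0xad6bc8)) e)) (c (c (m (nat_lit 0x16cfb30)) e) e)) (c (c (c (m
  (nat_lit 0x213588)) e) e) e))) (c (c (c (c (p (nat_lit 0xadc02e)) (c (m (nat_lit 0x2168e2)) e)) (c (c (p
  (nat_lit 0x2d8d88e)) e) e)) (c (c (c (p (nat_lit 0x2b88ac6)) e) e) e)) (c (c (c (c (p (nat_lit 0x185868))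
  e) e) e) e))) (c (c (c (c (c (m (nat_lit 0x10730a0)) (c (p (nat_lit 0x1cac0ee)) e)) (c (c (p (nat_lit
  0x1999806)) e) e)) (c (c (c (p (nat_lit 0x1aa6d86)) e) e) e)) (c (c (c (c (m (nat_lit 0xf156c0)) e) e) e)
  e)) (c (c (c (c (c (p (nat_lit 0x1cdcb50)) e) e) e) e) e))) (c (c (c (c (c (c (p (nat_lit 0x75c9984)) (c (p
  (nat_lit 0x1345fce)) e)) (c (c (p (nat_lit 0x1345a16)) e) e)) (c (c (c (p (nat_lit 0x37b768)) e) e) e)) (c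
  (c (c (c (m (nat_lit 0x18268e0)) e) e) e) e)) (c (c (c (c (c (m (nat_lit 0xf15630)) e) e) e) e) e)) (c (c
  (c (c (c (c (p (nat_lit 0x185880)) e) e) e) e) e) e))) (c (c (c (c (c (c (c (p (nat_lit 0xa423800)) (c (m
  (nat_lit 0x1e50c76)) e)) (c (c (m (nat_lit 0x34206)) e) e)) (c (c (c (m (nat_lit 0x3fad59e)) e) e) e)) (c
  (c (c (c (p (nat_lit 0x1514370)) e) e) e) e)) (c (c (c (c (c (m (nat_lit 0x5014cda)) e) e) e) e) e)) (c (c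
  (c (c (c (c (m (nat_lit 0x3df6bc6)) e) e) e) e) e) e)) (c (c (c (c (c (c (c (p (nat_lit 0x311a11a)) e) e)
  e) e) e) e) e)))) (c (c (c (c (c (c (c (c (m (nat_lit 0xaf82928)) (c (p (nat_lit 0x28df3d6)) (c (m (nat_lit
  0x213558)) e))) (c (c (p (nat_lit 0x28df35e)) (c (m (nat_lit 0xad6bc8)) e)) (c (c (m (nat_lit 0x213588)) e)
  e))) (c (c (c (p (nat_lit 0x5466978)) (c (m (nat_lit 0x16cfb48)) e)) (c (c (m (nat_lit 0x16cfb48)) e) e))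
  (c (c (c (m (nat_lit 0x18a8ab0)) e) e) e))) (c (c (c (c (p (nat_lit 0x3692cf4)) (c (m (nat_lit 0x3fc1c8))
  e)) (c (c (p (nat_lit 0x52b00)) e) e)) (c (c (c (p (nat_lit 0x524e8)) e) e) e)) (c (c (c (c (p (nat_lit
  0x185820)) e) e) e) e))) (c (c (c (c (c (p (nat_lit 0x3692a84)) (c (p (nat_lit 0x52b30)) e)) (c (c (m
  (nat_lit 0x3fc1f8)) e) e)) (c (c (c (p (nat_lit 0x52518)) e) e) e)) (c (c (c (c (m (nat_lit 0x18267f0)) e)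
  e) e) e)) (c (c (c (c (c (p (nat_lit 0x185880)) e) e) e) e) e))) (c (c (c (c (c (c (p (nat_lit 0x22d5b78))
  (c (m (nat_lit 0x108f2a0)) e)) (c (c (m (nat_lit 0x108f2e8)) e) e)) (c (c (c (p (nat_lit 0x17b3f80)) e) e)
  e)) (c (c (c (c (m (nat_lit 0xf15618)) e) e) e) e)) (c (c (c (c (c (m (nat_lit 0xf15618)) e) e) e) e) e))
  (c (c (c (c (c (c (p (nat_lit 0x1cdcb50)) e) e) e) e) e) e))) (c (c (c (c (c (c (c (m (nat_lit 0x50da554))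
  (c (m (nat_lit 0xb98aa)) e)) (c (c (m (nat_lit 0x27c3ba)) e) e)) (c (c (c (m (nat_lit 0x354c504)) e) e) e))
  (c (c (c (c (p (nat_lit 0x1688574)) e) e) e) e)) (c (c (c (c (c (p (nat_lit 0x20b7514)) e) e) e) e) e)) (c
  (c (c (c (c (c (p (nat_lit 0x80c748)) e) e) e) e) e) e)) (c (c (c (c (c (c (c (p (nat_lit 0xb9afb4)) e) e)
  e) e) e) e) e))) (c (c (c (c (c (c (c (c (p (nat_lit 0x3f89ff4)) (c (p (nat_lit 0x17ece0)) e)) (c (c (m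
  (nat_lit 0x5699a0)) e) e)) (c (c (c (m (nat_lit 0x182358)) e) e) e)) (c (c (c (c (m (nat_lit 0x1327e18)) e)
  e) e) e)) (c (c (c (c (c (m (nat_lit 0x6cfd8)) e) e) e) e) e)) (c (c (c (c (c (c (m (nat_lit 0x1602330)) e)
  e) e) e) e) e)) (c (c (c (c (c (c (c (p (nat_lit 0x269dcb4)) e) e) e) e) e) e) e)) (c (c (c (c (c (c (c (c
  (m (nat_lit 0xd3c9f8)) e) e) e) e) e) e) e) e)))) (c (c (c (c (c (c (c (c (c (m (nat_lit 0x7019d12)) (c (p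
  (nat_lit 0x30f3cb4)) (c (p (nat_lit 0xdb828)) e))) (c (c (m (nat_lit 0x118660e)) (c (p (nat_lit 0x1170810))
  e)) (c (c (m (nat_lit 0xac69c8)) e) e))) (c (c (c (p (nat_lit 0x17dc5f4)) (c (p (nat_lit 0x1170828)) e)) (c
  (c (p (nat_lit 0x7c6860)) e) e)) (c (c (c (m (nat_lit 0xac69b0)) e) e) e))) (c (c (c (c (m (nat_lit
  0x8ab03a)) (c (m (nat_lit 0x14b86f0)) e)) (c (c (p (nat_lit 0xde0ba0)) e) e)) (c (c (c (p (nat_lit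
  0xde0bb8)) e) e) e)) (c (c (c (c (p (nat_lit 0x2b8a98)) e) e) e) e))) (c (c (c (c (c (m (nat_lit
  0x3b9f742)) (c (p (nat_lit 0x14844d8)) e)) (c (c (p (nat_lit 0x5a35d0)) e) e)) (c (c (c (m (nat_lit
  0xc33f48)) e) e) e)) (c (c (c (c (m (nat_lit 0x837a8)) e) e) e) e)) (c (c (c (c (c (p (nat_lit 0x83bab8))
  e) e) e) e) e))) (c (c (c (c (c (c (m (nat_lit 0x6af0e0)) (c (p (nat_lit 0x1484520)) e)) (c (c (m (nat_lit
  0xc33f30)) e) e)) (c (c (c (p (nat_lit 0x5a35d0)) e) e) e)) (c (c (c (c (m (nat_lit 0x83898)) e) e) e) e))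
  (c (c (c (c (c (p (nat_lit 0x92da68)) e) e) e) e) e)) (c (c (c (c (c (c (p (nat_lit 0x83bab8)) e) e) e) e)
  e) e))) (c (c (c (c (c (c (c (p (nat_lit 0xf585d98)) (c (m (nat_lit 0x1f5585c)) e)) (c (c (p (nat_lit
  0x4874a6)) e) e)) (c (c (c (m (nat_lit 0x21da724)) e) e) e)) (c (c (c (c (m (nat_lit 0x27b2c56)) e) e) e)
  e)) (c (c (c (c (c (p (nat_lit 0x13edd52)) e) e) e) e) e)) (c (c (c (c (c (c (m (nat_lit 0x1e28470)) e) e)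
  e) e) e) e)) (c (c (c (c (c (c (c (m (nat_lit 0x591910e)) e) e) e) e) e) e) e))) (c (c (c (c (c (c (c (c (p
  (nat_lit 0x3f89eec)) (c (m (nat_lit 0x5699b8)) e)) (c (c (p (nat_lit 0x17ed10)) e) e)) (c (c (c (m (nat_lit
  0x182340)) e) e) e)) (c (c (c (c (m (nat_lit 0x6cf60)) e) e) e) e)) (c (c (c (c (c (m (nat_lit 0x1327e18))
  e) e) e) e) e)) (c (c (c (c (c (c (m (nat_lit 0x1602378)) e) e) e) e) e) e)) (c (c (c (c (c (c (c (p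
  (nat_lit 0x21d1b2c)) e) e) e) e) e) e) e)) (c (c (c (c (c (c (c (c (m (nat_lit 0x16df340)) e) e) e) e) e)
  e) e) e))) (c (c (c (c (c (c (c (c (c (p (nat_lit 0xda7ba0)) (c (m (nat_lit 0xd74cc0)) e)) (c (c (p
  (nat_lit 0x45b280)) e) e)) (c (c (c (p (nat_lit 0x45b280)) e) e) e)) (c (c (c (c (p (nat_lit 0x11b59f0)) e)
  e) e) e)) (c (c (c (c (c (p (nat_lit 0x23a0)) e) e) e) e) e)) (c (c (c (c (c (c (p (nat_lit 0x23b8)) e) e)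
  e) e) e) e)) (c (c (c (c (c (c (c (m (nat_lit 0x3706170)) e) e) e) e) e) e) e)) (c (c (c (c (c (c (c (c (m
  (nat_lit 0xd3c9e0)) e) e) e) e) e) e) e) e)) (c (c (c (c (c (c (c (c (c (p (nat_lit 0xcd6158)) e) e) e) e)
  e) e) e) e) e)))))

noncomputable def gt_0_0 : Tr := (c gt_0_0_0 (c gt_0_0_1 (c gt_0_0_2 (c gt_0_0_3 (c gt_0_0_4 (c gt_0_0_5 (c gt_0_0_6 (c gt_0_0_7 e))))))))

noncomputable def gt_0_1_1 : Tr :=
  (c (c (c (c (c (c (c (c (c (p (nat_lit 0x5a6b78a)) (c (m (nat_lit 0x12a1fb1a)) (c (p (nat_lit 0xd316340))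
  e))) (c (c (m (nat_lit 0x4e25bb4)) (c (p (nat_lit 0x13df21a)) e)) (c (c (m (nat_lit 0x6a229a)) e) e))) (c
  (c (c (m (nat_lit 0x2465136)) (c (p (nat_lit 0x13df1ae)) e)) (c (c (p (nat_lit 0x457d1c)) e) e)) (c (c (c
  (m (nat_lit 0x6a229a)) e) e) e))) (c (c (c (c (m (nat_lit 0x12a1fb1a)) (c (p (nat_lit 0x3bcdc59a)) (c (m
  (nat_lit 0x2a82d5c8)) e))) (c (c (p (nat_lit 0x682b96c)) (c (m (nat_lit 0x4dc21b8)) e)) (c (c (m (nat_lit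
  0x3637a4)) e) e))) (c (c (c (p (nat_lit 0x826fa76)) (c (m (nat_lit 0x4dc21c4)) e)) (c (c (p (nat_lit
  0xe6e9c8)) e) e)) (c (c (c (m (nat_lit 0x36372c)) e) e) e))) (c (c (c (c (p (nat_lit 0xd316340)) (c (m
  (nat_lit 0x2a82d5c8)) (c (p (nat_lit 0x2282b0b0)) e))) (c (c (m (nat_lit 0x5b6f0d4)) (c (p (nat_lit
  0x2fa3414)) e)) (c (c (p (nat_lit 0xa7ccac)) e) e))) (c (c (c (m (nat_lit 0x5b6f098)) (c (p (nat_lit
  0x2fa3444)) e)) (c (c (p (nat_lit 0x1f10b8)) e) e)) (c (c (c (p (nat_lit 0xa7cc58)) e) e) e))) e))) (c (c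
  (c (c (c (m (nat_lit 0x4e25bb4)) (c (p (nat_lit 0x682b96c)) (c (m (nat_lit 0x5b6f0d4)) e))) (c (c (p
  (nat_lit 0x10f74fc)) (c (m (nat_lit 0xbb08d2)) e)) (c (c (m (nat_lit 0xfff780)) e) e))) (c (c (c (p
  (nat_lit 0x109cd9a)) (c (m (nat_lit 0xa243c8)) e)) (c (c (p (nat_lit 0x10104c)) e) e)) (c (c (c (p (nat_lit
  0x4c24b6)) e) e) e))) (c (c (c (c (p (nat_lit 0x13df21a)) (c (m (nat_lit 0x4dc21b8)) (c (p (nat_lit
  0x2fa3414)) e))) (c (c (m (nat_lit 0xbb08d2)) (c (p (nat_lit 0x272e5fc)) e)) (c (c (m (nat_lit 0x260ece))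
  e) e))) (c (c (c (m (nat_lit 0xa243f8)) (c (p (nat_lit 0x165a00e)) e)) (c (c (m (nat_lit 0x20b65c)) e) e))
  (c (c (c (p (nat_lit 0x1697ee)) e) e) e))) e)) (c (c (c (c (c (m (nat_lit 0x6a229a)) (c (m (nat_lit
  0x3637a4)) (c (p (nat_lit 0xa7ccac)) e))) (c (c (m (nat_lit 0xfff780)) (c (m (nat_lit 0x260ece)) e)) (c (c
  (p (nat_lit 0x1cc02de)) e) e))) (c (c (c (p (nat_lit 0x4c24b6)) (c (p (nat_lit 0x1697fa)) e)) (c (c (m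
  (nat_lit 0x932f04)) e) e)) (c (c (c (p (nat_lit 0x1a2d7c)) e) e) e))) e) e))) (c (c (c (c (c (c (m (nat_lit
  0x2465136)) (c (p (nat_lit 0x826fa76)) (c (m (nat_lit 0x5b6f098)) e))) (c (c (p (nat_lit 0x109cd9a)) (c (m
  (nat_lit 0xa243f8)) e)) (c (c (p (nat_lit 0x4c24b6)) e) e))) (c (c (c (p (nat_lit 0x281d32a)) (c (m
  (nat_lit 0xbb08e4)) e)) (c (c (p (nat_lit 0x101028)) e) e)) (c (c (c (m (nat_lit 0xfff78c)) e) e) e))) (c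
  (c (c (c (p (nat_lit 0x13df1ae)) (c (m (nat_lit 0x4dc21c4)) (c (p (nat_lit 0x2fa3444)) e))) (c (c (m
  (nat_lit 0xa243c8)) (c (p (nat_lit 0x165a00e)) e)) (c (c (p (nat_lit 0x1697fa)) e) e))) (c (c (c (m
  (nat_lit 0xbb08e4)) (c (p (nat_lit 0x272e5ea)) e)) (c (c (m (nat_lit 0x20b65c)) e) e)) (c (c (c (m (nat_lit
  0x260ec2)) e) e) e))) e)) (c (c (c (c (c (p (nat_lit 0x457d1c)) (c (p (nat_lit 0xe6e9c8)) (c (p (nat_lit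
  0x1f10b8)) e))) (c (c (p (nat_lit 0x10104c)) (c (m (nat_lit 0x20b65c)) e)) (c (c (m (nat_lit 0x932f04)) e)
  e))) (c (c (c (p (nat_lit 0x101028)) (c (m (nat_lit 0x20b65c)) e)) (c (c (p (nat_lit 0x2c73648)) e) e)) (c
  (c (c (m (nat_lit 0x932ef8)) e) e) e))) e) e)) (c (c (c (c (c (c (m (nat_lit 0x6a229a)) (c (m (nat_lit
  0x36372c)) (c (p (nat_lit 0xa7cc58)) e))) (c (c (p (nat_lit 0x4c24b6)) (c (p (nat_lit 0x1697ee)) e)) (c (c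
  (p (nat_lit 0x1a2d7c)) e) e))) (c (c (c (m (nat_lit 0xfff78c)) (c (m (nat_lit 0x260ec2)) e)) (c (c (m
  (nat_lit 0x932ef8)) e) e)) (c (c (c (p (nat_lit 0x1cc02d2)) e) e) e))) e) e) e))) (c (c (c (c (c (c (c (p
  (nat_lit 0x83e91e8)) (c (m (nat_lit 0x60a016a)) (c (p (nat_lit 0x256f314)) e))) (c (c (p (nat_lit
  0xa08f30)) (c (p (nat_lit 0x8abb2)) e)) (c (c (p (nat_lit 0xbaf9f0)) e) e))) (c (c (c (m (nat_lit
  0x3376b42)) (c (m (nat_lit 0x2dc6c)) e)) (c (c (m (nat_lit 0xed68e8)) e) e)) (c (c (c (m (nat_lit 0x2eec0))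
  e) e) e))) (c (c (c (c (m (nat_lit 0x60a016a)) (c (p (nat_lit 0xce8e2b8)) (c (m (nat_lit 0x2fa0240)) e)))
  (c (c (p (nat_lit 0x15d33fe)) (c (m (nat_lit 0x32fc46)) e)) (c (c (m (nat_lit 0x2cd2c4)) e) e))) (c (c (c
  (p (nat_lit 0x19d69f4)) (c (m (nat_lit 0xb57aae)) e)) (c (c (m (nat_lit 0x502818)) e) e)) (c (c (c (m
  (nat_lit 0xbe032)) e) e) e))) (c (c (c (c (p (nat_lit 0x256f314)) (c (m (nat_lit 0x2fa0240)) e)) (c (c (p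
  (nat_lit 0x2145288)) e) e)) (c (c (c (m (nat_lit 0x988590)) e) e) e)) e))) (c (c (c (c (c (p (nat_lit
  0xa08f30)) (c (p (nat_lit 0x15d33fe)) (c (p (nat_lit 0x2145288)) e))) (c (c (p (nat_lit 0x759aee4)) (c (p
  (nat_lit 0x3b832)) e)) (c (c (m (nat_lit 0x558780)) e) e))) (c (c (c (m (nat_lit 0x107f50e)) (c (m (nat_lit
  0x2f2e90)) e)) (c (c (p (nat_lit 0x359b38)) e) e)) (c (c (c (p (nat_lit 0x217d82)) e) e) e))) (c (c (c (c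
  (p (nat_lit 0x8abb2)) (c (m (nat_lit 0x32fc46)) e)) (c (c (p (nat_lit 0x3b832)) e) e)) (c (c (c (m (nat_lit
  0x8645dc)) e) e) e)) e)) (c (c (c (c (c (p (nat_lit 0xbaf9f0)) (c (m (nat_lit 0x2cd2c4)) e)) (c (c (m
  (nat_lit 0x558780)) e) e)) (c (c (c (m (nat_lit 0x6a3638)) e) e) e)) e) e))) (c (c (c (c (c (c (m (nat_lit
  0x3376b42)) (c (p (nat_lit 0x19d69f4)) (c (m (nat_lit 0x988590)) e))) (c (c (m (nat_lit 0x107f50e)) (c (m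
  (nat_lit 0x8645dc)) e)) (c (c (m (nat_lit 0x6a3638)) e) e))) (c (c (c (p (nat_lit 0x8ef03c8)) (c (m
  (nat_lit 0x56eb54)) e)) (c (c (p (nat_lit 0x89e530)) e) e)) (c (c (c (m (nat_lit 0xb02518)) e) e) e))) (c
  (c (c (c (m (nat_lit 0x2dc6c)) (c (m (nat_lit 0xb57aae)) e)) (c (c (m (nat_lit 0x2f2e90)) e) e)) (c (c (c
  (m (nat_lit 0x56eb54)) e) e) e)) e)) (c (c (c (c (c (m (nat_lit 0xed68e8)) (c (m (nat_lit 0x502818)) e)) (c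
  (c (p (nat_lit 0x359b38)) e) e)) (c (c (c (p (nat_lit 0x89e530)) e) e) e)) e) e)) (c (c (c (c (c (c (m
  (nat_lit 0x2eec0)) (c (m (nat_lit 0xbe032)) e)) (c (c (p (nat_lit 0x217d82)) e) e)) (c (c (c (m (nat_lit
  0xb02518)) e) e) e)) e) e) e))) (c (c (c (c (c (c (c (m (nat_lit 0x40ec27c)) (c (p (nat_lit 0x91a9ca)) (c
  (m (nat_lit 0x219fb1c)) e))) (c (c (m (nat_lit 0x133ff4a)) (c (p (nat_lit 0x79e048)) e)) (c (c (m (nat_lit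
  0x532d40)) e) e))) (c (c (c (p (nat_lit 0x3a4973c)) (c (p (nat_lit 0xad252a)) e)) (c (c (p (nat_lit
  0x6279c0)) e) e)) (c (c (c (p (nat_lit 0x9c300)) e) e) e))) (c (c (c (c (p (nat_lit 0x91a9ca)) (c (m
  (nat_lit 0x59571d2)) e)) (c (c (m (nat_lit 0x23c0d30)) e) e)) (c (c (c (m (nat_lit 0xd25a5a)) e) e) e)) (c
  (c (c (c (m (nat_lit 0x219fb1c)) e) e) e) e))) (c (c (c (c (c (m (nat_lit 0x133ff4a)) (c (m (nat_lit
  0x23c0d30)) e)) (c (c (m (nat_lit 0x39e9508)) e) e)) (c (c (c (p (nat_lit 0xcfeee6)) e) e) e)) (c (c (c (c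
  (p (nat_lit 0x79e048)) e) e) e) e)) (c (c (c (c (c (m (nat_lit 0x532d40)) e) e) e) e) e))) (c (c (c (c (c
  (c (p (nat_lit 0x3a4973c)) (c (m (nat_lit 0xd25a5a)) e)) (c (c (p (nat_lit 0xcfeee6)) e) e)) (c (c (c (m
  (nat_lit 0x4285ec6)) e) e) e)) (c (c (c (c (p (nat_lit 0xad252a)) e) e) e) e)) (c (c (c (c (c (p (nat_lit
  0x6279c0)) e) e) e) e) e)) (c (c (c (c (c (c (p (nat_lit 0x9c300)) e) e) e) e) e) e))) (c (c (c (c (c (c (c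
  (p (nat_lit 0x8d25362)) (c (p (nat_lit 0x3f771a8)) e)) (c (c (p (nat_lit 0xe0327a)) e) e)) (c (c (c (m
  (nat_lit 0x14d269a)) e) e) e)) (c (c (c (c (p (nat_lit 0x3f771a8)) e) e) e) e)) (c (c (c (c (c (p (nat_lit
  0xe0327a)) e) e) e) e) e)) (c (c (c (c (c (c (m (nat_lit 0x14d269a)) e) e) e) e) e) e)) (c (c (c (c (c (c
  (c (m (nat_lit 0x7d301e4)) e) e) e) e) e) e) e))))) (c (c (c (c (c (c (c (c (p (nat_lit 0x55d41fe)) (c (m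
  (nat_lit 0x20763c6)) (c (p (nat_lit 0x256f2cc)) e))) (c (c (p (nat_lit 0x48c959a)) (c (m (nat_lit 0x2dc72))
  e)) (c (c (m (nat_lit 0x2eea8)) e) e))) (c (c (c (m (nat_lit 0x1aa1950)) (c (p (nat_lit 0x8abbe)) e)) (c (c
  (m (nat_lit 0xed68f4)) e) e)) (c (c (c (p (nat_lit 0xbaf9f6)) e) e) e))) (c (c (c (c (m (nat_lit
  0x20763c6)) (c (p (nat_lit 0x45a2f36)) (c (m (nat_lit 0x2fa01c8)) e))) (c (c (p (nat_lit 0x2518eb4)) (c (m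
  (nat_lit 0xb57aae)) e)) (c (c (m (nat_lit 0xbe02c)) e) e))) (c (c (c (m (nat_lit 0x30f602a)) (c (m (nat_lit
  0x32fc52)) e)) (c (c (m (nat_lit 0x502824)) e) e)) (c (c (c (m (nat_lit 0x2cd2b2)) e) e) e))) (c (c (c (c
  (p (nat_lit 0x256f2cc)) (c (m (nat_lit 0x2fa01c8)) e)) (c (c (m (nat_lit 0x988530)) e) e)) (c (c (c (p
  (nat_lit 0x21452d0)) e) e) e)) e))) (c (c (c (c (c (p (nat_lit 0x48c959a)) (c (p (nat_lit 0x2518eb4)) (c (m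
  (nat_lit 0x988530)) e))) (c (c (p (nat_lit 0x273f6ae)) (c (m (nat_lit 0x56eb78)) e)) (c (c (m (nat_lit
  0xb02530)) e) e))) (c (c (c (m (nat_lit 0x446d60)) (c (m (nat_lit 0x86460c)) e)) (c (c (p (nat_lit
  0x89e5c0)) e) e)) (c (c (c (m (nat_lit 0x6a3650)) e) e) e))) (c (c (c (c (m (nat_lit 0x2dc72)) (c (m
  (nat_lit 0xb57aae)) e)) (c (c (m (nat_lit 0x56eb78)) e) e)) (c (c (c (m (nat_lit 0x2f2e84)) e) e) e)) e))
  (c (c (c (c (c (m (nat_lit 0x2eea8)) (c (m (nat_lit 0xbe02c)) e)) (c (c (m (nat_lit 0xb02530)) e) e)) (c (c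
  (c (p (nat_lit 0x217d94)) e) e) e)) e) e))) (c (c (c (c (c (c (m (nat_lit 0x1aa1950)) (c (m (nat_lit
  0x30f602a)) (c (p (nat_lit 0x21452d0)) e))) (c (c (m (nat_lit 0x446d60)) (c (m (nat_lit 0x2f2e84)) e)) (c
  (c (p (nat_lit 0x217d94)) e) e))) (c (c (c (p (nat_lit 0x9dfef6)) (c (p (nat_lit 0x3b832)) e)) (c (c (p
  (nat_lit 0x359b2c)) e) e)) (c (c (c (m (nat_lit 0x55877a)) e) e) e))) (c (c (c (c (p (nat_lit 0x8abbe)) (c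
  (m (nat_lit 0x32fc52)) e)) (c (c (m (nat_lit 0x86460c)) e) e)) (c (c (c (p (nat_lit 0x3b832)) e) e) e)) e))
  (c (c (c (c (c (m (nat_lit 0xed68f4)) (c (m (nat_lit 0x502824)) e)) (c (c (p (nat_lit 0x89e5c0)) e) e)) (c
  (c (c (p (nat_lit 0x359b2c)) e) e) e)) e) e)) (c (c (c (c (c (c (p (nat_lit 0xbaf9f6)) (c (m (nat_lit
  0x2cd2b2)) e)) (c (c (m (nat_lit 0x6a3650)) e) e)) (c (c (c (m (nat_lit 0x55877a)) e) e) e)) e) e) e))) (c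
  (c (c (c (c (c (c (m (nat_lit 0x7fcab80)) (c (m (nat_lit 0x3a35570)) (c (p (nat_lit 0x2e510c8)) e))) (c (c
  (m (nat_lit 0x45838fe)) (c (p (nat_lit 0x6306c0)) e)) (c (c (p (nat_lit 0x432348)) e) e))) (c (c (c (m
  (nat_lit 0x1d321ca)) (c (p (nat_lit 0x6306cc)) e)) (c (c (m (nat_lit 0x1206630)) e) e)) (c (c (c (p
  (nat_lit 0x43233c)) e) e) e))) (c (c (c (c (m (nat_lit 0x3a35570)) (c (p (nat_lit 0x197ceb0)) e)) (c (c (m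
  (nat_lit 0x1d9c23e)) e) e)) (c (c (c (m (nat_lit 0x35809e)) e) e) e)) (c (c (c (c (p (nat_lit 0x2e510c8))
  e) e) e) e))) (c (c (c (c (c (m (nat_lit 0x45838fe)) (c (m (nat_lit 0x1d9c23e)) e)) (c (c (m (nat_lit
  0x1861200)) e) e)) (c (c (c (m (nat_lit 0x2efa63a)) e) e) e)) (c (c (c (c (p (nat_lit 0x6306c0)) e) e) e)
  e)) (c (c (c (c (c (p (nat_lit 0x432348)) e) e) e) e) e))) (c (c (c (c (c (c (m (nat_lit 0x1d321ca)) (c (m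
  (nat_lit 0x35809e)) e)) (c (c (m (nat_lit 0x2efa63a)) e) e)) (c (c (c (m (nat_lit 0x13b48c)) e) e) e)) (c
  (c (c (c (p (nat_lit 0x6306cc)) e) e) e) e)) (c (c (c (c (c (m (nat_lit 0x1206630)) e) e) e) e) e)) (c (c
  (c (c (c (c (p (nat_lit 0x43233c)) e) e) e) e) e) e))) (c (c (c (c (c (c (c (p (nat_lit 0x3205cd4)) (c (m
  (nat_lit 0x16f235a)) e)) (c (c (p (nat_lit 0x45d4fee)) e) e)) (c (c (c (m (nat_lit 0x181f488)) e) e) e)) (c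
  (c (c (c (m (nat_lit 0x16f235a)) e) e) e) e)) (c (c (c (c (c (p (nat_lit 0x45d4fee)) e) e) e) e) e)) (c (c
  (c (c (c (c (m (nat_lit 0x181f488)) e) e) e) e) e) e)) (c (c (c (c (c (c (c (p (nat_lit 0x3aad798)) e) e)
  e) e) e) e) e)))) (c (c (c (c (c (c (c (c (m (nat_lit 0x2ab5fe6)) (c (p (nat_lit 0xb69e6e)) (c (m (nat_lit
  0x219fb28)) e))) (c (c (m (nat_lit 0x1b7e348)) (c (p (nat_lit 0xad2554)) e)) (c (c (p (nat_lit 0x9c2fa)) e)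
  e))) (c (c (c (m (nat_lit 0x880086)) (c (p (nat_lit 0x79e060)) e)) (c (c (p (nat_lit 0x6279cc)) e) e)) (c
  (c (c (m (nat_lit 0x532d2e)) e) e) e))) (c (c (c (c (p (nat_lit 0xb69e6e)) (c (p (nat_lit 0x2f94138)) e))
  (c (c (p (nat_lit 0x1dc250)) e) e)) (c (c (c (p (nat_lit 0x8c453a)) e) e) e)) (c (c (c (c (m (nat_lit
  0x219fb28)) e) e) e) e))) (c (c (c (c (c (m (nat_lit 0x1b7e348)) (c (p (nat_lit 0x1dc250)) e)) (c (c (p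
  (nat_lit 0x3c50a60)) e) e)) (c (c (c (p (nat_lit 0xc6684)) e) e) e)) (c (c (c (c (p (nat_lit 0xad2554)) e)
  e) e) e)) (c (c (c (c (c (p (nat_lit 0x9c2fa)) e) e) e) e) e))) (c (c (c (c (c (c (m (nat_lit 0x880086)) (c
  (p (nat_lit 0x8c453a)) e)) (c (c (p (nat_lit 0xc6684)) e) e)) (c (c (c (p (nat_lit 0x1aabd6c)) e) e) e)) (c
  (c (c (c (p (nat_lit 0x79e060)) e) e) e) e)) (c (c (c (c (c (p (nat_lit 0x6279cc)) e) e) e) e) e)) (c (c (c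
  (c (c (c (m (nat_lit 0x532d2e)) e) e) e) e) e) e))) (c (c (c (c (c (c (c (p (nat_lit 0xcb6ebae)) (c (p
  (nat_lit 0x383f4)) e)) (c (c (m (nat_lit 0x1e198f0)) e) e)) (c (c (c (p (nat_lit 0x4149ef4)) e) e) e)) (c
  (c (c (c (p (nat_lit 0x383f4)) e) e) e) e)) (c (c (c (c (c (m (nat_lit 0x1e198f0)) e) e) e) e) e)) (c (c (c
  (c (c (c (p (nat_lit 0x4149ef4)) e) e) e) e) e) e)) (c (c (c (c (c (c (c (m (nat_lit 0xd226dcc)) e) e) e)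
  e) e) e) e))) (c (c (c (c (c (c (c (c (p (nat_lit 0x738c42)) (c (m (nat_lit 0x301ff2)) e)) (c (c (m
  (nat_lit 0x118a190)) e) e)) (c (c (c (m (nat_lit 0x1d2e6c)) e) e) e)) (c (c (c (c (m (nat_lit 0x301ff2)) e)
  e) e) e)) (c (c (c (c (c (m (nat_lit 0x118a190)) e) e) e) e) e)) (c (c (c (c (c (c (m (nat_lit 0x1d2e6c))
  e) e) e) e) e) e)) (c (c (c (c (c (c (c (p (nat_lit 0x13f4454)) e) e) e) e) e) e) e)) (c (c (c (c (c (c (c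
  (c (p (nat_lit 0x209b2a2)) e) e) e) e) e) e) e) e))))) (c (c (c (c (c (c (c (c (c (m (nat_lit 0x2e5d6c2))
  (c (p (nat_lit 0x122d71a)) (c (m (nat_lit 0x187a394)) e))) (c (c (p (nat_lit 0x152c334)) (c (p (nat_lit
  0xdfe018)) e)) (c (c (p (nat_lit 0xdc61e8)) e) e))) (c (c (c (m (nat_lit 0xf11970)) (c (p (nat_lit
  0xdfe006)) e)) (c (c (m (nat_lit 0x50871c)) e) e)) (c (c (c (p (nat_lit 0xdc61dc)) e) e) e))) (c (c (c (c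
  (p (nat_lit 0x122d71a)) (c (m (nat_lit 0x77b6dca)) (c (p (nat_lit 0x3ab6af8)) e))) (c (c (m (nat_lit
  0x11bfc80)) (c (m (nat_lit 0x800b8)) e)) (c (c (p (nat_lit 0xa4b998)) e) e))) (c (c (c (m (nat_lit
  0x2c03e86)) (c (m (nat_lit 0x800b8)) e)) (c (c (p (nat_lit 0x1b7758)) e) e)) (c (c (c (p (nat_lit
  0xa4b98c)) e) e) e))) (c (c (c (c (m (nat_lit 0x187a394)) (c (p (nat_lit 0x3ab6af8)) e)) (c (c (m (nat_lit
  0x3e65f8)) e) e)) (c (c (c (m (nat_lit 0x3e6598)) e) e) e)) e))) (c (c (c (c (c (p (nat_lit 0x152c334)) (c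
  (m (nat_lit 0x11bfc80)) (c (m (nat_lit 0x3e65f8)) e))) (c (c (p (nat_lit 0x22eec5e)) (c (p (nat_lit
  0x573c48)) e)) (c (c (p (nat_lit 0x69d8c)) e) e))) (c (c (c (m (nat_lit 0x79e7aa)) (c (p (nat_lit
  0x38325c)) e)) (c (c (m (nat_lit 0x10d7480)) e) e)) (c (c (c (m (nat_lit 0x381ac8)) e) e) e))) (c (c (c (c
  (p (nat_lit 0xdfe018)) (c (m (nat_lit 0x800b8)) e)) (c (c (p (nat_lit 0x573c48)) e) e)) (c (c (c (p
  (nat_lit 0x383268)) e) e) e)) e)) (c (c (c (c (c (p (nat_lit 0xdc61e8)) (c (p (nat_lit 0xa4b998)) e)) (c (c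
  (p (nat_lit 0x69d8c)) e) e)) (c (c (c (m (nat_lit 0x381ad4)) e) e) e)) e) e))) (c (c (c (c (c (c (m
  (nat_lit 0xf11970)) (c (m (nat_lit 0x2c03e86)) (c (m (nat_lit 0x3e6598)) e))) (c (c (m (nat_lit 0x79e7aa))
  (c (p (nat_lit 0x383268)) e)) (c (c (m (nat_lit 0x381ad4)) e) e))) (c (c (c (p (nat_lit 0xbc8e42)) (c (p
  (nat_lit 0x573c48)) e)) (c (c (m (nat_lit 0x10d7480)) e) e)) (c (c (c (p (nat_lit 0x69d98)) e) e) e))) (c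
  (c (c (c (p (nat_lit 0xdfe006)) (c (m (nat_lit 0x800b8)) e)) (c (c (p (nat_lit 0x38325c)) e) e)) (c (c (c
  (p (nat_lit 0x573c48)) e) e) e)) e)) (c (c (c (c (c (m (nat_lit 0x50871c)) (c (p (nat_lit 0x1b7758)) e)) (c
  (c (m (nat_lit 0x10d7480)) e) e)) (c (c (c (m (nat_lit 0x10d7480)) e) e) e)) e) e)) (c (c (c (c (c (c (p
  (nat_lit 0xdc61dc)) (c (p (nat_lit 0xa4b98c)) e)) (c (c (m (nat_lit 0x381ac8)) e) e)) (c (c (c (p (nat_lit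
  0x69d98)) e) e) e)) e) e) e))) (c (c (c (c (c (c (c (p (nat_lit 0x4aa6e46)) (c (p (nat_lit 0x3cafefc)) (c
  (m (nat_lit 0x10fdbc8)) e))) (c (c (p (nat_lit 0x1006002)) (c (m (nat_lit 0x8f8638)) e)) (c (c (m (nat_lit
  0x2b0938)) e) e))) (c (c (c (m (nat_lit 0x36f66c)) (c (m (nat_lit 0x8c823c)) e)) (c (c (p (nat_lit
  0x8c4168)) e) e)) (c (c (c (p (nat_lit 0x2f163c)) e) e) e))) (c (c (c (c (p (nat_lit 0x3cafefc)) (c (m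
  (nat_lit 0x1b4ac8e)) e)) (c (c (m (nat_lit 0x937c08)) e) e)) (c (c (c (p (nat_lit 0x442332)) e) e) e)) (c
  (c (c (c (m (nat_lit 0x10fdbc8)) e) e) e) e))) (c (c (c (c (c (p (nat_lit 0x1006002)) (c (m (nat_lit
  0x937c08)) e)) (c (c (m (nat_lit 0x2c93a66)) e) e)) (c (c (c (p (nat_lit 0x9eba6a)) e) e) e)) (c (c (c (c
  (m (nat_lit 0x8f8638)) e) e) e) e)) (c (c (c (c (c (m (nat_lit 0x2b0938)) e) e) e) e) e))) (c (c (c (c (c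
  (c (m (nat_lit 0x36f66c)) (c (p (nat_lit 0x442332)) e)) (c (c (p (nat_lit 0x9eba6a)) e) e)) (c (c (c (m
  (nat_lit 0x2e4bb5a)) e) e) e)) (c (c (c (c (m (nat_lit 0x8c823c)) e) e) e) e)) (c (c (c (c (c (p (nat_lit
  0x8c4168)) e) e) e) e) e)) (c (c (c (c (c (c (p (nat_lit 0x2f163c)) e) e) e) e) e) e))) (c (c (c (c (c (c
  (c (m (nat_lit 0x96eab88)) (c (m (nat_lit 0xcac806)) e)) (c (c (m (nat_lit 0x14ab6c4)) e) e)) (c (c (c (p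
  (nat_lit 0x9981f6)) e) e) e)) (c (c (c (c (m (nat_lit 0xcac806)) e) e) e) e)) (c (c (c (c (c (m (nat_lit
  0x14ab6c4)) e) e) e) e) e)) (c (c (c (c (c (c (p (nat_lit 0x9981f6)) e) e) e) e) e) e)) (c (c (c (c (c (c
  (c (p (nat_lit 0xf489e4)) e) e) e) e) e) e) e)))) (c (c (c (c (c (c (c (c (p (nat_lit 0x10a505c)) (c (p
  (nat_lit 0x2cc6fac)) (c (m (nat_lit 0x10fdbb0)) e))) (c (c (m (nat_lit 0x26f6016)) (c (m (nat_lit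
  0x8c823c)) e)) (c (c (p (nat_lit 0x2f163c)) e) e))) (c (c (c (p (nat_lit 0x2ea8c8)) (c (m (nat_lit
  0x8f8644)) e)) (c (c (p (nat_lit 0x8c4180)) e) e)) (c (c (c (m (nat_lit 0x2b092c)) e) e) e))) (c (c (c (c
  (p (nat_lit 0x2cc6fac)) (c (m (nat_lit 0x269388)) e)) (c (c (p (nat_lit 0x5696c4)) e) e)) (c (c (c (p
  (nat_lit 0x1233924)) e) e) e)) (c (c (c (c (m (nat_lit 0x10fdbb0)) e) e) e) e))) (c (c (c (c (c (m (nat_lit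
  0x26f6016)) (c (p (nat_lit 0x5696c4)) e)) (c (c (m (nat_lit 0x7908f0)) e) e)) (c (c (c (p (nat_lit
  0xb3cac0)) e) e) e)) (c (c (c (c (m (nat_lit 0x8c823c)) e) e) e) e)) (c (c (c (c (c (p (nat_lit 0x2f163c))
  e) e) e) e) e))) (c (c (c (c (c (c (p (nat_lit 0x2ea8c8)) (c (p (nat_lit 0x1233924)) e)) (c (c (p (nat_lit
  0xb3cac0)) e) e)) (c (c (c (p (nat_lit 0x114d5a8)) e) e) e)) (c (c (c (c (m (nat_lit 0x8f8644)) e) e) e)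
  e)) (c (c (c (c (c (p (nat_lit 0x8c4180)) e) e) e) e) e)) (c (c (c (c (c (c (m (nat_lit 0x2b092c)) e) e) e)
  e) e) e))) (c (c (c (c (c (c (c (m (nat_lit 0x403938)) (c (m (nat_lit 0x1bb61ea)) e)) (c (c (p (nat_lit
  0x1ed08d2)) e) e)) (c (c (c (p (nat_lit 0xff1e00)) e) e) e)) (c (c (c (c (m (nat_lit 0x1bb61ea)) e) e) e)
  e)) (c (c (c (c (c (p (nat_lit 0x1ed08d2)) e) e) e) e) e)) (c (c (c (c (c (c (p (nat_lit 0xff1e00)) e) e)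
  e) e) e) e)) (c (c (c (c (c (c (c (p (nat_lit 0x2759040)) e) e) e) e) e) e) e))) (c (c (c (c (c (c (c (c (m
  (nat_lit 0x1322fb2)) (c (m (nat_lit 0x11100d8)) e)) (c (c (m (nat_lit 0x47ca9c)) e) e)) (c (c (c (m
  (nat_lit 0x60edc0)) e) e) e)) (c (c (c (c (m (nat_lit 0x11100d8)) e) e) e) e)) (c (c (c (c (c (m (nat_lit
  0x47ca9c)) e) e) e) e) e)) (c (c (c (c (c (c (m (nat_lit 0x60edc0)) e) e) e) e) e) e)) (c (c (c (c (c (c (c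
  (m (nat_lit 0x2c5907a)) e) e) e) e) e) e) e)) (c (c (c (c (c (c (c (c (p (nat_lit 0x7535b8)) e) e) e) e) e)
  e) e) e)))) (c (c (c (c (c (c (c (c (c (p (nat_lit 0x5bdbf6e)) (c (m (nat_lit 0xf5f070)) (c (p (nat_lit
  0xb88228)) e))) (c (c (p (nat_lit 0x879996)) (c (m (nat_lit 0x3e6cdc)) e)) (c (c (m (nat_lit 0xeaa5c0)) e)
  e))) (c (c (c (p (nat_lit 0x2f6c34)) (c (m (nat_lit 0x3e6cd6)) e)) (c (c (m (nat_lit 0x14cc10)) e) e)) (c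
  (c (c (m (nat_lit 0xeaa5ba)) e) e) e))) (c (c (c (c (m (nat_lit 0xf5f070)) (c (p (nat_lit 0x2ea9040)) e))
  (c (c (p (nat_lit 0x4cb348)) e) e)) (c (c (c (p (nat_lit 0x4cb360)) e) e) e)) (c (c (c (c (p (nat_lit
  0xb88228)) e) e) e) e))) (c (c (c (c (c (p (nat_lit 0x879996)) (c (p (nat_lit 0x4cb348)) e)) (c (c (p
  (nat_lit 0x2b9f740)) e) e)) (c (c (c (p (nat_lit 0xe30310)) e) e) e)) (c (c (c (c (m (nat_lit 0x3e6cdc)) e)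
  e) e) e)) (c (c (c (c (c (m (nat_lit 0xeaa5c0)) e) e) e) e) e))) (c (c (c (c (c (c (p (nat_lit 0x2f6c34))
  (c (p (nat_lit 0x4cb360)) e)) (c (c (p (nat_lit 0xe30310)) e) e)) (c (c (c (p (nat_lit 0x2b9f770)) e) e)
  e)) (c (c (c (c (m (nat_lit 0x3e6cd6)) e) e) e) e)) (c (c (c (c (c (m (nat_lit 0x14cc10)) e) e) e) e) e))
  (c (c (c (c (c (c (m (nat_lit 0xeaa5ba)) e) e) e) e) e) e))) (c (c (c (c (c (c (c (m (nat_lit 0x34d1ce4))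
  (c (m (nat_lit 0x74e3e6)) e)) (c (c (m (nat_lit 0x1619c28)) e) e)) (c (c (c (m (nat_lit 0x8aa03e)) e) e)
  e)) (c (c (c (c (m (nat_lit 0x74e3e6)) e) e) e) e)) (c (c (c (c (c (m (nat_lit 0x1619c28)) e) e) e) e) e))
  (c (c (c (c (c (c (m (nat_lit 0x8aa03e)) e) e) e) e) e) e)) (c (c (c (c (c (c (c (p (nat_lit 0x54a7b92)) e)
  e) e) e) e) e) e))) (c (c (c (c (c (c (c (c (m (nat_lit 0x23b6cf2)) (c (p (nat_lit 0x12227a)) e)) (c (c (m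
  (nat_lit 0x4da504)) e) e)) (c (c (c (m (nat_lit 0xcc73d4)) e) e) e)) (c (c (c (c (p (nat_lit 0x12227a)) e)
  e) e) e)) (c (c (c (c (c (m (nat_lit 0x4da504)) e) e) e) e) e)) (c (c (c (c (c (c (m (nat_lit 0xcc73d4)) e)
  e) e) e) e) e)) (c (c (c (c (c (c (c (p (nat_lit 0x12cdbd8)) e) e) e) e) e) e) e)) (c (c (c (c (c (c (c (c
  (p (nat_lit 0x2cd9f3c)) e) e) e) e) e) e) e) e))) (c (c (c (c (c (c (c (c (c (m (nat_lit 0x383ae76)) (c (m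
  (nat_lit 0xfdcb24)) e)) (c (c (p (nat_lit 0x450d2c)) e) e)) (c (c (c (p (nat_lit 0x450d38)) e) e) e)) (c (c
  (c (c (m (nat_lit 0xfdcb24)) e) e) e) e)) (c (c (c (c (c (p (nat_lit 0x450d2c)) e) e) e) e) e)) (c (c (c (c
  (c (c (p (nat_lit 0x450d38)) e) e) e) e) e) e)) (c (c (c (c (c (c (c (m (nat_lit 0x11c5c56)) e) e) e) e) e)
  e) e)) (c (c (c (c (c (c (c (c (p (nat_lit 0x974b08)) e) e) e) e) e) e) e) e)) (c (c (c (c (c (c (c (c (c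
  (p (nat_lit 0x2c32eb4)) e) e) e) e) e) e) e) e) e)))))

noncomputable def gt_0_1_2 : Tr :=
  (c (c (c (c (c (c (c (c (c (m (nat_lit 0x2ca0150)) (c (m (nat_lit 0x153f000)) (c (m (nat_lit 0x56255a))
  e))) (c (c (p (nat_lit 0x215a7d4)) (c (p (nat_lit 0x8eb366)) e)) (c (c (m (nat_lit 0x2f05086)) e) e))) (c
  (c (c (p (nat_lit 0x17f4d02)) (c (p (nat_lit 0x114c528)) e)) (c (c (p (nat_lit 0x4ec24c)) e) e)) (c (c (c
  (m (nat_lit 0x12449a)) e) e) e))) (c (c (c (c (p (nat_lit 0x21590a0)) (c (p (nat_lit 0x4102fb0)) (c (m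
  (nat_lit 0x2e11f0)) e))) (c (c (m (nat_lit 0xd533486)) (c (p (nat_lit 0x8a1e30)) e)) (c (c (p (nat_lit
  0xd5a3fc8)) e) e))) (c (c (c (m (nat_lit 0x413ebf6)) (c (m (nat_lit 0x1d30190)) e)) (c (c (m (nat_lit
  0x11fb548)) e) e)) (c (c (c (p (nat_lit 0x7e3a80)) e) e) e))) (c (c (c (c (m (nat_lit 0x2f05230)) (c (m
  (nat_lit 0xdd86ec)) (c (p (nat_lit 0x711600)) e))) (c (c (p (nat_lit 0xd5a422c)) (c (m (nat_lit 0x2d0648))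
  e)) (c (c (m (nat_lit 0xa284e28)) e) e))) (c (c (c (p (nat_lit 0x397aeb0)) (c (p (nat_lit 0x5d9678)) e)) (c
  (c (p (nat_lit 0x7d1c48)) e) e)) (c (c (c (p (nat_lit 0x173460)) e) e) e))) e))) (c (c (c (c (c (m (nat_lit
  0x153e1fc)) (c (p (nat_lit 0x1876326)) (c (m (nat_lit 0x2380f2)) e))) (c (c (p (nat_lit 0x4101702)) (c (m
  (nat_lit 0x1026e82)) e)) (c (c (m (nat_lit 0xdd882a)) e) e))) (c (c (c (m (nat_lit 0x15474cc)) (c (m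
  (nat_lit 0x471990)) e)) (c (c (m (nat_lit 0x5b21c8)) e) e)) (c (c (c (m (nat_lit 0x29a63c)) e) e) e))) (c
  (c (c (c (p (nat_lit 0x8eb3cc)) (c (m (nat_lit 0x1026e46)) (c (m (nat_lit 0x2e99ce)) e))) (c (c (p (nat_lit
  0x8a1d28)) (c (p (nat_lit 0x4697d6)) e)) (c (c (m (nat_lit 0x2d0540)) e) e))) (c (c (c (m (nat_lit
  0x41c880)) (c (p (nat_lit 0x47dd20)) e)) (c (c (m (nat_lit 0x7ff8)) e) e)) (c (c (c (p (nat_lit 0x759df8))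
  e) e) e))) e)) (c (c (c (c (c (m (nat_lit 0x56259c)) (c (m (nat_lit 0x238122)) (c (p (nat_lit 0x92b176))
  e))) (c (c (m (nat_lit 0x2e118a)) (c (m (nat_lit 0x2e99ce)) e)) (c (c (p (nat_lit 0x7115c4)) e) e))) (c (c
  (c (p (nat_lit 0x5c2824)) (c (m (nat_lit 0x630d74)) e)) (c (c (p (nat_lit 0xd0eae)) e) e)) (c (c (c (p
  (nat_lit 0x4e0c18)) e) e) e))) e) e))) (c (c (c (c (c (c (p (nat_lit 0x17f4bac)) (c (m (nat_lit 0x15469bc))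
  (c (p (nat_lit 0x5c2812)) e))) (c (c (m (nat_lit 0x413f604)) (c (m (nat_lit 0x41c832)) e)) (c (c (p
  (nat_lit 0x397ae1a)) e) e))) (c (c (c (m (nat_lit 0x18e73d8)) (c (m (nat_lit 0x460278)) e)) (c (c (p
  (nat_lit 0x177e4)) e) e)) (c (c (c (p (nat_lit 0x238374)) e) e) e))) (c (c (c (c (p (nat_lit 0x4ec2b8)) (c
  (m (nat_lit 0x5b225e)) (c (p (nat_lit 0xd0eba)) e))) (c (c (m (nat_lit 0x11fb5a2)) (c (m (nat_lit 0x7ff8))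
  e)) (c (c (p (nat_lit 0x7d1cf6)) e) e))) (c (c (c (p (nat_lit 0x177de)) (c (m (nat_lit 0x19d238)) e)) (c (c
  (m (nat_lit 0x9de0c)) e) e)) (c (c (c (p (nat_lit 0x78fcba)) e) e) e))) e)) (c (c (c (c (c (p (nat_lit
  0x114c5e8)) (c (m (nat_lit 0x471f0c)) (c (m (nat_lit 0x630d74)) e))) (c (c (m (nat_lit 0x1d2fd34)) (c (p
  (nat_lit 0x47dd2c)) e)) (c (c (p (nat_lit 0x5d96cc)) e) e))) (c (c (c (m (nat_lit 0x4602b4)) (c (m (nat_lit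
  0x205188)) e)) (c (c (m (nat_lit 0x19d220)) e) e)) (c (c (c (m (nat_lit 0x894654)) e) e) e))) e) e)) (c (c
  (c (c (c (c (m (nat_lit 0x124548)) (c (m (nat_lit 0x29a5b2)) (c (p (nat_lit 0x4e0c18)) e))) (c (c (p
  (nat_lit 0x7e3b9a)) (c (p (nat_lit 0x759dda)) e)) (c (c (p (nat_lit 0x173376)) e) e))) (c (c (c (p (nat_lit
  0x2383da)) (c (m (nat_lit 0x894648)) e)) (c (c (p (nat_lit 0x78fc9c)) e) e)) (c (c (c (p (nat_lit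
  0x74d240)) e) e) e))) e) e) e))) (c (c (c (c (c (c (c (p (nat_lit 0x91defce)) (c (m (nat_lit 0x19ae4ac)) (c
  (p (nat_lit 0x88744e)) e))) (c (c (m (nat_lit 0x3040662)) (c (p (nat_lit 0x53bcd4)) e)) (c (c (p (nat_lit
  0xe7951c)) e) e))) (c (c (c (m (nat_lit 0x6b71e5a)) (c (m (nat_lit 0x636be8)) e)) (c (c (p (nat_lit
  0x197892)) e) e)) (c (c (c (m (nat_lit 0x7784a)) e) e) e))) (c (c (c (c (m (nat_lit 0x3040530)) (c (m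
  (nat_lit 0x88c080)) (c (m (nat_lit 0x22187a)) e))) (c (c (p (nat_lit 0x1d93970)) (c (p (nat_lit 0x46ba5c))
  e)) (c (c (p (nat_lit 0x67f6da)) e) e))) (c (c (c (p (nat_lit 0x610051e)) (c (p (nat_lit 0x9e29e0)) e)) (c
  (c (p (nat_lit 0x38e44)) e) e)) (c (c (c (m (nat_lit 0x7dc4a8)) e) e) e))) (c (c (c (c (p (nat_lit
  0xe7951c)) (c (m (nat_lit 0xfb901c)) e)) (c (c (p (nat_lit 0x67f608)) e) e)) (c (c (c (m (nat_lit
  0x2cedb98)) e) e) e)) e))) (c (c (c (c (c (m (nat_lit 0x19ae4d6)) (c (p (nat_lit 0x33db66)) (c (p (nat_lit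
  0x17a4b0)) e))) (c (c (m (nat_lit 0x88c020)) (c (p (nat_lit 0x6637d4)) e)) (c (c (m (nat_lit 0xfb8ff2)) e)
  e))) (c (c (c (p (nat_lit 0x1ca41ec)) (c (p (nat_lit 0xab71c4)) e)) (c (c (p (nat_lit 0x2d06ba)) e) e)) (c
  (c (c (m (nat_lit 0x543cf0)) e) e) e))) (c (c (c (c (p (nat_lit 0x53bcce)) (c (p (nat_lit 0x6637d4)) e)) (c
  (c (p (nat_lit 0x46ba32)) e) e)) (c (c (c (m (nat_lit 0x179ee0)) e) e) e)) e)) (c (c (c (c (c (p (nat_lit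
  0x887460)) (c (p (nat_lit 0x17a4bc)) e)) (c (c (m (nat_lit 0x221874)) e) e)) (c (c (c (m (nat_lit
  0x52e8a0)) e) e) e)) e) e))) (c (c (c (c (c (c (m (nat_lit 0x6b71e96)) (c (p (nat_lit 0x1ca417a)) (c (m
  (nat_lit 0x52e894)) e))) (c (c (p (nat_lit 0x6100656)) (c (m (nat_lit 0x179eec)) e)) (c (c (m (nat_lit
  0x2cedaf0)) e) e))) (c (c (c (p (nat_lit 0x6623034)) (c (p (nat_lit 0xc542a0)) e)) (c (c (m (nat_lit
  0xc8ec38)) e) e)) (c (c (c (m (nat_lit 0xc39b70)) e) e) e))) (c (c (c (c (p (nat_lit 0x197886)) (c (p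
  (nat_lit 0x2d06a8)) e)) (c (c (p (nat_lit 0x38e14)) e) e)) (c (c (c (m (nat_lit 0xc8ec5c)) e) e) e)) e)) (c
  (c (c (c (c (m (nat_lit 0x636be8)) (c (p (nat_lit 0xab71d0)) e)) (c (c (p (nat_lit 0x9e29ec)) e) e)) (c (c
  (c (p (nat_lit 0xc542a0)) e) e) e)) e) e)) (c (c (c (c (c (c (m (nat_lit 0x7785c)) (c (m (nat_lit
  0x543d02)) e)) (c (c (m (nat_lit 0x7dc49c)) e) e)) (c (c (c (m (nat_lit 0xc39b58)) e) e) e)) e) e) e))) (c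
  (c (c (c (c (c (c (m (nat_lit 0x11b0d8e)) (c (p (nat_lit 0x1602198)) (c (m (nat_lit 0x18946e)) e))) (c (c
  (m (nat_lit 0x3197e5c)) (c (p (nat_lit 0x3f109e)) e)) (c (c (p (nat_lit 0x27770f4)) e) e))) (c (c (c (p
  (nat_lit 0x7008b82)) (c (m (nat_lit 0x211974)) e)) (c (c (p (nat_lit 0x53f44e)) e) e)) (c (c (c (p (nat_lit
  0x5d1a2e)) e) e) e))) (c (c (c (c (m (nat_lit 0x3197e2c)) (c (p (nat_lit 0x2ba1f0)) e)) (c (c (m (nat_lit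
  0x3327228)) e) e)) (c (c (c (m (nat_lit 0x1da36c6)) e) e) e)) (c (c (c (c (p (nat_lit 0x27770ac)) e) e) e)
  e))) (c (c (c (c (c (p (nat_lit 0x16021c8)) (c (m (nat_lit 0xcd0bf0)) e)) (c (c (p (nat_lit 0x2ba1e4)) e)
  e)) (c (c (c (m (nat_lit 0xe609ee)) e) e) e)) (c (c (c (c (p (nat_lit 0x3f106e)) e) e) e) e)) (c (c (c (c
  (c (m (nat_lit 0x189462)) e) e) e) e) e))) (c (c (c (c (c (c (p (nat_lit 0x7008bbe)) (c (m (nat_lit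
  0xe609fa)) e)) (c (c (m (nat_lit 0x1da3702)) e) e)) (c (c (c (m (nat_lit 0x426b016)) e) e) e)) (c (c (c (c
  (p (nat_lit 0x53f43c)) e) e) e) e)) (c (c (c (c (c (m (nat_lit 0x211980)) e) e) e) e) e)) (c (c (c (c (c (c
  (p (nat_lit 0x5d1a34)) e) e) e) e) e) e))) (c (c (c (c (c (c (c (p (nat_lit 0x7e4e8a)) (c (m (nat_lit
  0x67f37a)) e)) (c (c (p (nat_lit 0x2719f6e)) e) e)) (c (c (c (m (nat_lit 0x2eb9738)) e) e) e)) (c (c (c (c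
  (p (nat_lit 0x2719f50)) e) e) e) e)) (c (c (c (c (c (m (nat_lit 0x67f37a)) e) e) e) e) e)) (c (c (c (c (c
  (c (m (nat_lit 0x2eb9744)) e) e) e) e) e) e)) (c (c (c (c (c (c (c (m (nat_lit 0x28a5ae8)) e) e) e) e) e)
  e) e))))) (c (c (c (c (c (c (c (c (p (nat_lit 0x2202a92)) (c (p (nat_lit 0x14ef36e)) (c (p (nat_lit
  0x3f2b32)) e))) (c (c (p (nat_lit 0x32446da)) (c (m (nat_lit 0x8fe104)) e)) (c (c (m (nat_lit 0x23e0c1a))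
  e) e))) (c (c (c (p (nat_lit 0x15c356a)) (c (p (nat_lit 0x1fe78)) e)) (c (c (p (nat_lit 0x14a1fe)) e) e))
  (c (c (c (m (nat_lit 0x11ab94)) e) e) e))) (c (c (c (c (p (nat_lit 0x2e86c0)) (c (p (nat_lit 0x1ad384)) (c
  (p (nat_lit 0x734a)) e))) (c (c (m (nat_lit 0x4a34f60)) (c (m (nat_lit 0x32e55a)) e)) (c (c (p (nat_lit
  0x1ea8180)) e) e))) (c (c (c (p (nat_lit 0x71a0d8)) (c (p (nat_lit 0x5337cc)) e)) (c (c (p (nat_lit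
  0x1700a)) e) e)) (c (c (c (m (nat_lit 0x8e443c)) e) e) e))) (c (c (c (c (m (nat_lit 0x4331f4)) (c (m
  (nat_lit 0xafb690)) e)) (c (c (m (nat_lit 0x2e5528)) e) e)) (c (c (c (p (nat_lit 0xf3b628)) e) e) e)) e)))
  (c (c (c (c (c (p (nat_lit 0x1b3c990)) (c (m (nat_lit 0x300822)) (c (m (nat_lit 0xe604cc)) e))) (c (c (m
  (nat_lit 0x6fadd54)) (c (p (nat_lit 0xd9980c)) e)) (c (c (p (nat_lit 0x23dccb4)) e) e))) (c (c (c (p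
  (nat_lit 0xbc0dde)) (c (m (nat_lit 0x2263c8)) e)) (c (c (p (nat_lit 0x12b07a8)) e) e)) (c (c (c (m (nat_lit
  0x8a18fc)) e) e) e))) (c (c (c (c (m (nat_lit 0x5dce76)) (c (p (nat_lit 0x4ddb04)) e)) (c (c (p (nat_lit
  0xa3c5d2)) e) e)) (c (c (c (p (nat_lit 0x41c3a0)) e) e) e)) e)) (c (c (c (c (c (p (nat_lit 0xe49d8)) (c (p
  (nat_lit 0x2679e4)) e)) (c (c (p (nat_lit 0x73ebb2)) e) e)) (c (c (c (m (nat_lit 0x1a6028)) e) e) e)) e)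
  e))) (c (c (c (c (c (c (p (nat_lit 0x796824)) (c (p (nat_lit 0xb0624a)) (c (p (nat_lit 0x125460)) e))) (c
  (c (p (nat_lit 0x1aa0e3a)) (c (m (nat_lit 0x5160d2)) e)) (c (c (m (nat_lit 0xf23ade)) e) e))) (c (c (c (p
  (nat_lit 0x9de2b8)) (c (p (nat_lit 0xfd8)) e)) (c (c (m (nat_lit 0x110d2a)) e) e)) (c (c (c (m (nat_lit
  0x21c53a)) e) e) e))) (c (c (c (c (m (nat_lit 0x626b26)) (c (p (nat_lit 0x6bc9dc)) e)) (c (c (p (nat_lit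
  0xb7ad46)) e) e)) (c (c (c (p (nat_lit 0x6d90a4)) e) e) e)) e)) (c (c (c (c (c (m (nat_lit 0xb414e8)) (c (p
  (nat_lit 0x8ae7d8)) e)) (c (c (p (nat_lit 0x4beacc)) e) e)) (c (c (c (p (nat_lit 0x9ca6b0)) e) e) e)) e)
  e)) (c (c (c (c (c (c (p (nat_lit 0x37e666)) (c (m (nat_lit 0x17feec)) e)) (c (c (m (nat_lit 0x4b8778)) e)
  e)) (c (c (c (p (nat_lit 0x3e2584)) e) e) e)) e) e) e))) (c (c (c (c (c (c (c (m (nat_lit 0x5d50076)) (c (p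
  (nat_lit 0x188d5dc)) (c (m (nat_lit 0x47fc28)) e))) (c (c (p (nat_lit 0x454f800)) (c (m (nat_lit 0x4abbf0))
  e)) (c (c (m (nat_lit 0x157c9ec)) e) e))) (c (c (c (p (nat_lit 0x3aa418)) (c (m (nat_lit 0x116fa0)) e)) (c
  (c (m (nat_lit 0x6b3f4)) e) e)) (c (c (c (p (nat_lit 0xe553d8)) e) e) e))) (c (c (c (c (m (nat_lit
  0x2ac71a0)) (c (p (nat_lit 0x76c596)) e)) (c (c (p (nat_lit 0xbc3f94)) e) e)) (c (c (c (m (nat_lit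
  0xd35c72)) e) e) e)) (c (c (c (c (p (nat_lit 0x6bf568)) e) e) e) e))) (c (c (c (c (c (p (nat_lit 0xace882))
  (c (m (nat_lit 0x9931fe)) e)) (c (c (m (nat_lit 0x854cca)) e) e)) (c (c (c (m (nat_lit 0x86e7e8)) e) e) e))
  (c (c (c (c (m (nat_lit 0x3d73dc)) e) e) e) e)) (c (c (c (c (c (m (nat_lit 0x1b00c0)) e) e) e) e) e))) (c
  (c (c (c (c (c (m (nat_lit 0x59f364)) (c (m (nat_lit 0x71285a)) e)) (c (c (p (nat_lit 0x9f674a)) e) e)) (c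
  (c (c (m (nat_lit 0x1070808)) e) e) e)) (c (c (c (c (p (nat_lit 0xedaec)) e) e) e) e)) (c (c (c (c (c (m
  (nat_lit 0x8e0710)) e) e) e) e) e)) (c (c (c (c (c (c (p (nat_lit 0x4f35cc)) e) e) e) e) e) e))) (c (c (c
  (c (c (c (c (p (nat_lit 0xaf6e3c)) (c (m (nat_lit 0x2d8de9a)) e)) (c (c (m (nat_lit 0x43cc014)) e) e)) (c
  (c (c (m (nat_lit 0x99c70e)) e) e) e)) (c (c (c (c (p (nat_lit 0xe4dafa)) e) e) e) e)) (c (c (c (c (c (p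
  (nat_lit 0x644f46)) e) e) e) e) e)) (c (c (c (c (c (c (m (nat_lit 0xe9e7fa)) e) e) e) e) e) e)) (c (c (c (c
  (c (c (c (p (nat_lit 0x2532ed0)) e) e) e) e) e) e) e)))) (c (c (c (c (c (c (c (c (m (nat_lit 0x1c07db4)) (c
  (m (nat_lit 0x5b2894)) (c (m (nat_lit 0xf00ae)) e))) (c (c (p (nat_lit 0x1212d20)) (c (m (nat_lit
  0x61768e)) e)) (c (c (m (nat_lit 0x9dd64c)) e) e))) (c (c (c (m (nat_lit 0x1eec4f6)) (c (p (nat_lit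
  0x255a80)) e)) (c (c (m (nat_lit 0x784128)) e) e)) (c (c (c (p (nat_lit 0x144c1e)) e) e) e))) (c (c (c (c
  (p (nat_lit 0x2359a3a)) (c (m (nat_lit 0x2fecd4)) e)) (c (c (m (nat_lit 0x4a1b88)) e) e)) (c (c (c (m
  (nat_lit 0x459f24)) e) e) e)) (c (c (c (c (m (nat_lit 0x1910310)) e) e) e) e))) (c (c (c (c (c (p (nat_lit
  0x207e7c)) (c (p (nat_lit 0x5801b8)) e)) (c (c (m (nat_lit 0xad3c88)) e) e)) (c (c (c (p (nat_lit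
  0x1da258)) e) e) e)) (c (c (c (c (m (nat_lit 0x8c3fee)) e) e) e) e)) (c (c (c (c (c (m (nat_lit 0x1c179c))
  e) e) e) e) e))) (c (c (c (c (c (c (m (nat_lit 0x18abff0)) (c (p (nat_lit 0x799e6c)) e)) (c (c (p (nat_lit
  0x94f758)) e) e)) (c (c (c (p (nat_lit 0x32ddec)) e) e) e)) (c (c (c (c (m (nat_lit 0x127836)) e) e) e) e))
  (c (c (c (c (c (p (nat_lit 0x3c6ac8)) e) e) e) e) e)) (c (c (c (c (c (c (m (nat_lit 0x5fe170)) e) e) e) e)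
  e) e))) (c (c (c (c (c (c (c (m (nat_lit 0x10e77a)) (c (p (nat_lit 0x972bbe)) e)) (c (c (p (nat_lit
  0x1b366a2)) e) e)) (c (c (c (p (nat_lit 0x14616e4)) e) e) e)) (c (c (c (c (p (nat_lit 0xccd45e)) e) e) e)
  e)) (c (c (c (c (c (p (nat_lit 0x6e5860)) e) e) e) e) e)) (c (c (c (c (c (c (p (nat_lit 0xc563a0)) e) e) e)
  e) e) e)) (c (c (c (c (c (c (c (p (nat_lit 0x99c5c4)) e) e) e) e) e) e) e))) (c (c (c (c (c (c (c (c (p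
  (nat_lit 0x82de5c)) (c (p (nat_lit 0x4e3b94)) e)) (c (c (p (nat_lit 0x8e3ba8)) e) e)) (c (c (c (p (nat_lit
  0x5d46f8)) e) e) e)) (c (c (c (c (p (nat_lit 0x7a774a)) e) e) e) e)) (c (c (c (c (c (p (nat_lit 0x1049d9c))
  e) e) e) e) e)) (c (c (c (c (c (c (m (nat_lit 0x20dfae)) e) e) e) e) e) e)) (c (c (c (c (c (c (c (m
  (nat_lit 0x1600ba2)) e) e) e) e) e) e) e)) (c (c (c (c (c (c (c (c (m (nat_lit 0x67d4de)) e) e) e) e) e) e)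
  e) e))))) (c (c (c (c (c (c (c (c (c (p (nat_lit 0x2202b64)) (c (p (nat_lit 0x1b3c92a)) (c (p (nat_lit
  0xe49c6)) e))) (c (c (p (nat_lit 0x2e8798)) (c (m (nat_lit 0x5dce6a)) e)) (c (c (m (nat_lit 0x43332c)) e)
  e))) (c (c (c (p (nat_lit 0x79682a)) (c (m (nat_lit 0xb414e8)) e)) (c (c (m (nat_lit 0x626af6)) e) e)) (c
  (c (c (p (nat_lit 0x37e660)) e) e) e))) (c (c (c (c (p (nat_lit 0x324446a)) (c (m (nat_lit 0x6fae0c0)) (c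
  (p (nat_lit 0x73ebb8)) e))) (c (c (m (nat_lit 0x4a34cc6)) (c (p (nat_lit 0xa3c5c0)) e)) (c (c (m (nat_lit
  0x2e5444)) e) e))) (c (c (c (p (nat_lit 0x1aa0f66)) (c (p (nat_lit 0x4bea78)) e)) (c (c (p (nat_lit
  0xb7ad58)) e) e)) (c (c (c (m (nat_lit 0x4b8760)) e) e) e))) (c (c (c (c (m (nat_lit 0x23e0ab8)) (c (p
  (nat_lit 0x23dcc00)) e)) (c (c (p (nat_lit 0x1ea8138)) e) e)) (c (c (c (m (nat_lit 0xf23b98)) e) e) e))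
  e))) (c (c (c (c (c (p (nat_lit 0x14ef3c2)) (c (m (nat_lit 0x3008ca)) (c (p (nat_lit 0x2679e4)) e))) (c (c
  (p (nat_lit 0x1ad1c8)) (c (p (nat_lit 0x4ddb28)) e)) (c (c (m (nat_lit 0xafb51c)) e) e))) (c (c (c (p
  (nat_lit 0xb0616c)) (c (p (nat_lit 0x8ae7d8)) e)) (c (c (p (nat_lit 0x6bca0c)) e) e)) (c (c (c (m (nat_lit
  0x17feec)) e) e) e))) (c (c (c (c (m (nat_lit 0x8fe0aa)) (c (p (nat_lit 0xd997e8)) e)) (c (c (m (nat_lit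
  0x32e578)) e) e)) (c (c (c (m (nat_lit 0x5160d2)) e) e) e)) e)) (c (c (c (c (c (p (nat_lit 0x3f2b0e)) (c (m
  (nat_lit 0xe604a8)) e)) (c (c (p (nat_lit 0x734a)) e) e)) (c (c (c (p (nat_lit 0x125454)) e) e) e)) e) e)))
  (c (c (c (c (c (c (p (nat_lit 0x15c35a0)) (c (p (nat_lit 0xbc0e7a)) (c (m (nat_lit 0x1a6028)) e))) (c (c (p
  (nat_lit 0x719f70)) (c (p (nat_lit 0x41c3b8)) e)) (c (c (p (nat_lit 0xf3b7a8)) e) e))) (c (c (c (p (nat_lit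
  0x9de222)) (c (p (nat_lit 0x9ca6b0)) e)) (c (c (p (nat_lit 0x6d90c8)) e) e)) (c (c (c (p (nat_lit
  0x3e259c)) e) e) e))) (c (c (c (c (p (nat_lit 0x14a252)) (c (p (nat_lit 0x12b076c)) e)) (c (c (p (nat_lit
  0x16fec)) e) e)) (c (c (c (m (nat_lit 0x110d42)) e) e) e)) e)) (c (c (c (c (c (p (nat_lit 0x1fe78)) (c (m
  (nat_lit 0x2263c8)) e)) (c (c (p (nat_lit 0x5337cc)) e) e)) (c (c (c (p (nat_lit 0xfe4)) e) e) e)) e) e))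
  (c (c (c (c (c (c (m (nat_lit 0x11aba6)) (c (m (nat_lit 0x8a18fc)) e)) (c (c (m (nat_lit 0x8e4430)) e) e))
  (c (c (c (m (nat_lit 0x21c558)) e) e) e)) e) e) e))) (c (c (c (c (c (c (c (m (nat_lit 0x5c9e140)) (c (m
  (nat_lit 0x1b8dfc)) (c (m (nat_lit 0x1b00b4)) e))) (c (c (m (nat_lit 0x24dfd16)) (c (m (nat_lit 0x3d73f4))
  e)) (c (c (p (nat_lit 0x6bf4d8)) e) e))) (c (c (c (p (nat_lit 0x452cbe)) (c (m (nat_lit 0x8e06f8)) e)) (c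
  (c (p (nat_lit 0xedac8)) e) e)) (c (c (c (p (nat_lit 0x4f35c0)) e) e) e))) (c (c (c (c (p (nat_lit
  0x45011a0)) (c (p (nat_lit 0x1541184)) e)) (c (c (p (nat_lit 0x9305e8)) e) e)) (c (c (c (m (nat_lit
  0x1281960)) e) e) e)) (c (c (c (c (m (nat_lit 0x157c9b0)) e) e) e) e))) (c (c (c (c (c (p (nat_lit
  0x18e819a)) (c (m (nat_lit 0x4e785a)) e)) (c (c (p (nat_lit 0xa740d2)) e) e)) (c (c (c (m (nat_lit
  0xd12a10)) e) e) e)) (c (c (c (c (m (nat_lit 0x4abbe4)) e) e) e) e)) (c (c (c (c (c (m (nat_lit 0x47fc28))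
  e) e) e) e) e))) (c (c (c (c (c (c (p (nat_lit 0x3717ea)) (c (m (nat_lit 0xa06b42)) e)) (c (c (m (nat_lit
  0xf113fa)) e) e)) (c (c (c (m (nat_lit 0xe0ac66)) e) e) e)) (c (c (c (c (m (nat_lit 0x6b3dc)) e) e) e) e))
  (c (c (c (c (c (m (nat_lit 0x116fa0)) e) e) e) e) e)) (c (c (c (c (c (c (p (nat_lit 0xe553cc)) e) e) e) e)
  e) e))) (c (c (c (c (c (c (c (m (nat_lit 0x50c4d2)) (c (p (nat_lit 0x499f80)) e)) (c (c (p (nat_lit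
  0x969aa4)) e) e)) (c (c (c (m (nat_lit 0xad31fc)) e) e) e)) (c (c (c (c (m (nat_lit 0x1ad98be)) e) e) e)
  e)) (c (c (c (c (c (m (nat_lit 0x250361a)) e) e) e) e) e)) (c (c (c (c (c (c (m (nat_lit 0xc06b16)) e) e)
  e) e) e) e)) (c (c (c (c (c (c (c (p (nat_lit 0x204933c)) e) e) e) e) e) e) e)))) (c (c (c (c (c (c (c (c
  (m (nat_lit 0x2f9f010)) (c (m (nat_lit 0xbff712)) (c (p (nat_lit 0x2a8544)) e))) (c (c (m (nat_lit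
  0x648ebe)) (c (p (nat_lit 0x88d73c)) e)) (c (c (m (nat_lit 0x1555b0)) e) e))) (c (c (c (m (nat_lit
  0x2cd6cf6)) (c (m (nat_lit 0x4b6378)) e)) (c (c (m (nat_lit 0x12e0b8)) e) e)) (c (c (c (p (nat_lit
  0x15f0b4)) e) e) e))) (c (c (c (c (m (nat_lit 0x648ec4)) (c (p (nat_lit 0x3b5ca4)) e)) (c (c (p (nat_lit
  0x1d4c864)) e) e)) (c (c (c (p (nat_lit 0xb6f32e)) e) e) e)) (c (c (c (c (m (nat_lit 0x155550)) e) e) e)
  e))) (c (c (c (c (c (m (nat_lit 0xbff5e6)) (c (p (nat_lit 0x122cd30)) e)) (c (c (p (nat_lit 0x3b5ce0)) e)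
  e)) (c (c (c (m (nat_lit 0x32697c)) e) e) e)) (c (c (c (c (p (nat_lit 0x88d730)) e) e) e) e)) (c (c (c (c
  (c (p (nat_lit 0x2a8550)) e) e) e) e) e))) (c (c (c (c (c (c (m (nat_lit 0x2cd6cae)) (c (m (nat_lit
  0x3269ac)) e)) (c (c (p (nat_lit 0xb6f334)) e) e)) (c (c (c (p (nat_lit 0x5b19e2)) e) e) e)) (c (c (c (c (m
  (nat_lit 0x12e0ac)) e) e) e) e)) (c (c (c (c (c (m (nat_lit 0x4b6378)) e) e) e) e) e)) (c (c (c (c (c (c (p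
  (nat_lit 0x15f0c0)) e) e) e) e) e) e))) (c (c (c (c (c (c (c (p (nat_lit 0x638cd5a)) (c (p (nat_lit
  0xfc4800)) e)) (c (c (p (nat_lit 0x92c322)) e) e)) (c (c (c (p (nat_lit 0x196d3b8)) e) e) e)) (c (c (c (c
  (p (nat_lit 0xa0dd60)) e) e) e) e)) (c (c (c (c (c (p (nat_lit 0x171a73a)) e) e) e) e) e)) (c (c (c (c (c
  (c (p (nat_lit 0x11a71c4)) e) e) e) e) e) e)) (c (c (c (c (c (c (c (m (nat_lit 0x20414a0)) e) e) e) e) e)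
  e) e))) (c (c (c (c (c (c (c (c (p (nat_lit 0x2e71006)) (c (m (nat_lit 0x77d12c)) e)) (c (c (p (nat_lit
  0x3d614)) e) e)) (c (c (c (p (nat_lit 0x7e435c)) e) e) e)) (c (c (c (c (m (nat_lit 0x8ebea0)) e) e) e) e))
  (c (c (c (c (c (m (nat_lit 0xc384)) e) e) e) e) e)) (c (c (c (c (c (c (p (nat_lit 0x6cb520)) e) e) e) e) e)
  e)) (c (c (c (c (c (c (c (m (nat_lit 0x36a7e98)) e) e) e) e) e) e) e)) (c (c (c (c (c (c (c (c (m (nat_lit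
  0xf6468)) e) e) e) e) e) e) e) e)))) (c (c (c (c (c (c (c (c (c (m (nat_lit 0x1c07d5a)) (c (p (nat_lit
  0x207e52)) (c (m (nat_lit 0x1c17a2)) e))) (c (c (p (nat_lit 0x2359a58)) (c (m (nat_lit 0x8c3fe2)) e)) (c (c
  (m (nat_lit 0x19102fe)) e) e))) (c (c (c (m (nat_lit 0x18abfea)) (c (p (nat_lit 0x3c6ac8)) e)) (c (c (m
  (nat_lit 0x127848)) e) e)) (c (c (c (m (nat_lit 0x5fe170)) e) e) e))) (c (c (c (c (p (nat_lit 0x1212e3a))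
  (c (m (nat_lit 0xad3cb8)) e)) (c (c (m (nat_lit 0x4a1ba0)) e) e)) (c (c (c (p (nat_lit 0x94f758)) e) e) e))
  (c (c (c (c (m (nat_lit 0x9dd700)) e) e) e) e))) (c (c (c (c (c (m (nat_lit 0x5b2882)) (c (p (nat_lit
  0x580188)) e)) (c (c (m (nat_lit 0x2fecf8)) e) e)) (c (c (c (p (nat_lit 0x799e90)) e) e) e)) (c (c (c (c (m
  (nat_lit 0x6176b2)) e) e) e) e)) (c (c (c (c (c (m (nat_lit 0xf00ae)) e) e) e) e) e))) (c (c (c (c (c (c (m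
  (nat_lit 0x1eec496)) (c (p (nat_lit 0x1da228)) e)) (c (c (m (nat_lit 0x459f54)) e) e)) (c (c (c (p (nat_lit
  0x32de04)) e) e) e)) (c (c (c (c (m (nat_lit 0x784140)) e) e) e) e)) (c (c (c (c (c (p (nat_lit 0x255a74))
  e) e) e) e) e)) (c (c (c (c (c (c (p (nat_lit 0x144c30)) e) e) e) e) e) e))) (c (c (c (c (c (c (c (p
  (nat_lit 0x10318c2)) (c (m (nat_lit 0x112d6a)) e)) (c (c (p (nat_lit 0xa1be18)) e) e)) (c (c (c (p (nat_lit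
  0x157973a)) e) e) e)) (c (c (c (c (m (nat_lit 0xeac756)) e) e) e) e)) (c (c (c (c (c (p (nat_lit 0x200a00))
  e) e) e) e) e)) (c (c (c (c (c (c (p (nat_lit 0x161db5e)) e) e) e) e) e) e)) (c (c (c (c (c (c (c (m
  (nat_lit 0x36792)) e) e) e) e) e) e) e))) (c (c (c (c (c (c (c (c (p (nat_lit 0x2e70fac)) (c (m (nat_lit
  0xc36c)) e)) (c (c (m (nat_lit 0x8ebe9a)) e) e)) (c (c (c (p (nat_lit 0x6cb520)) e) e) e)) (c (c (c (c (p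
  (nat_lit 0x3d62c)) e) e) e) e)) (c (c (c (c (c (m (nat_lit 0x77d150)) e) e) e) e) e)) (c (c (c (c (c (c (p
  (nat_lit 0x7e4356)) e) e) e) e) e) e)) (c (c (c (c (c (c (c (m (nat_lit 0x24157b0)) e) e) e) e) e) e) e))
  (c (c (c (c (c (c (c (c (m (nat_lit 0x927dfe)) e) e) e) e) e) e) e) e))) (c (c (c (c (c (c (c (c (c (p
  (nat_lit 0x82de56)) (c (p (nat_lit 0x1049d9c)) e)) (c (c (p (nat_lit 0x7a7744)) e) e)) (c (c (c (m (nat_lit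
  0x20dfae)) e) e) e)) (c (c (c (c (p (nat_lit 0x8e3b90)) e) e) e) e)) (c (c (c (c (c (p (nat_lit 0x4e3b94))
  e) e) e) e) e)) (c (c (c (c (c (c (p (nat_lit 0x5d46f8)) e) e) e) e) e) e)) (c (c (c (c (c (c (c (m
  (nat_lit 0xa07ca6)) e) e) e) e) e) e) e)) (c (c (c (c (c (c (c (c (m (nat_lit 0xf645c)) e) e) e) e) e) e)
  e) e)) (c (c (c (c (c (c (c (c (c (m (nat_lit 0x67d4d8)) e) e) e) e) e) e) e) e) e)))))

noncomputable def gt_0_1_3 : Tr :=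
  (c (c (c (c (c (c (c (c (c (m (nat_lit 0x30d4a4e)) (c (p (nat_lit 0x150b9ca)) (c (p (nat_lit 0x6d42f8))
  e))) (c (c (p (nat_lit 0x1b2ccac)) (c (m (nat_lit 0x1d40300)) e)) (c (c (p (nat_lit 0x448c98)) e) e))) (c
  (c (c (m (nat_lit 0x2b45ec)) (c (m (nat_lit 0x61392c)) e)) (c (c (p (nat_lit 0x97520a)) e) e)) (c (c (c (p
  (nat_lit 0x9e8dee)) e) e) e))) (c (c (c (c (p (nat_lit 0x193fc26)) (c (m (nat_lit 0x94b47a6)) (c (m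
  (nat_lit 0x2a83b20)) e))) (c (c (p (nat_lit 0x190a57a)) (c (p (nat_lit 0x42658b0)) e)) (c (c (m (nat_lit
  0xe97d80)) e) e))) (c (c (c (m (nat_lit 0x169f146)) (c (p (nat_lit 0x12716c4)) e)) (c (c (m (nat_lit
  0x1da978c)) e) e)) (c (c (c (m (nat_lit 0x1061034)) e) e) e))) (c (c (c (c (m (nat_lit 0x20c3754)) (c (p
  (nat_lit 0x4e61230)) (c (p (nat_lit 0x2b59300)) e))) (c (c (m (nat_lit 0x163e0)) (c (m (nat_lit 0x1516410))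
  e)) (c (c (p (nat_lit 0x591c60)) e) e))) (c (c (c (m (nat_lit 0x1210b78)) (c (m (nat_lit 0x75aa4c)) e)) (c
  (c (p (nat_lit 0x13c29d8)) e) e)) (c (c (c (p (nat_lit 0x1565ab4)) e) e) e))) e))) (c (c (c (c (c (m
  (nat_lit 0x2b76e20)) (c (m (nat_lit 0xf11f8e)) (c (m (nat_lit 0x4f87b0)) e))) (c (c (m (nat_lit 0xfbc094))
  (c (p (nat_lit 0xc7a9a0)) e)) (c (c (m (nat_lit 0xd92c78)) e) e))) (c (c (c (m (nat_lit 0xe95fe6)) (c (m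
  (nat_lit 0x12443a)) e)) (c (c (m (nat_lit 0x4513e6)) e) e)) (c (c (c (p (nat_lit 0x8e7646)) e) e) e))) (c
  (c (c (c (m (nat_lit 0x19a21a)) (c (p (nat_lit 0x16fc380)) (c (m (nat_lit 0x4a73c0)) e))) (c (c (p (nat_lit
  0xbfafa8)) (c (p (nat_lit 0x21ac8)) e)) (c (c (m (nat_lit 0x53ba28)) e) e))) (c (c (c (p (nat_lit
  0x361668)) (c (m (nat_lit 0x18cdf2)) e)) (c (c (p (nat_lit 0x388ffe)) e) e)) (c (c (c (m (nat_lit
  0x2d6f84)) e) e) e))) e)) (c (c (c (c (c (m (nat_lit 0x3901a4)) (c (m (nat_lit 0x905388)) (c (p (nat_lit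
  0x18fcc0)) e))) (c (c (p (nat_lit 0x10fbe88)) (c (p (nat_lit 0x438d08)) e)) (c (c (m (nat_lit 0x33b0a0)) e)
  e))) (c (c (c (p (nat_lit 0x386052)) (c (p (nat_lit 0x282918)) e)) (c (c (p (nat_lit 0x231bdc)) e) e)) (c
  (c (c (m (nat_lit 0x75a344)) e) e) e))) e) e))) (c (c (c (c (c (c (p (nat_lit 0x184d1c6)) (c (m (nat_lit
  0x2b36c9e)) (c (p (nat_lit 0x22e900)) e))) (c (c (m (nat_lit 0xbbc320)) (c (p (nat_lit 0xeda9f8)) e)) (c (c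
  (p (nat_lit 0xb7a0e0)) e) e))) (c (c (c (m (nat_lit 0x1227b4c)) (c (p (nat_lit 0xabe67c)) e)) (c (c (m
  (nat_lit 0x109302)) e) e)) (c (c (c (m (nat_lit 0x7c2de)) e) e) e))) (c (c (c (c (m (nat_lit 0xd2c04e)) (c
  (p (nat_lit 0x164f7a8)) (c (p (nat_lit 0x635958)) e))) (c (c (p (nat_lit 0xbf72a0)) (c (m (nat_lit
  0x6b43f0)) e)) (c (c (m (nat_lit 0xd715d0)) e) e))) (c (c (c (p (nat_lit 0x109f08)) (c (m (nat_lit
  0x3b34d8)) e)) (c (c (p (nat_lit 0x5dc666)) e) e)) (c (c (c (p (nat_lit 0x5d0b04)) e) e) e))) e)) (c (c (c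
  (c (c (p (nat_lit 0x1669f8)) (c (p (nat_lit 0xbcead0)) (c (p (nat_lit 0x6face0)) e))) (c (c (p (nat_lit
  0x5471a0)) (c (m (nat_lit 0x179be0)) e)) (c (c (m (nat_lit 0x10d98e0)) e) e))) (c (c (c (p (nat_lit
  0x151e12c)) (c (m (nat_lit 0x12b538)) e)) (c (c (p (nat_lit 0x4e0)) e) e)) (c (c (c (m (nat_lit 0xe373c0))
  e) e) e))) e) e)) (c (c (c (c (c (c (m (nat_lit 0xee2738)) (c (p (nat_lit 0x180a728)) (c (m (nat_lit
  0x5e5780)) e))) (c (c (m (nat_lit 0xf30288)) (c (p (nat_lit 0xad6f40)) e)) (c (c (p (nat_lit 0x6cea0)) e)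
  e))) (c (c (c (m (nat_lit 0x208584)) (c (m (nat_lit 0x125cd6)) e)) (c (c (m (nat_lit 0x7bd086)) e) e)) (c
  (c (c (p (nat_lit 0x4e35ca)) e) e) e))) e) e) e))) (c (c (c (c (c (c (c (p (nat_lit 0x50f31c)) (c (p
  (nat_lit 0x152b2cc)) (c (p (nat_lit 0x4e33f0)) e))) (c (c (m (nat_lit 0x130f662)) (c (m (nat_lit 0x213c30))
  e)) (c (c (p (nat_lit 0x13647a8)) e) e))) (c (c (c (m (nat_lit 0x54afac4)) (c (m (nat_lit 0x166f14)) e)) (c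
  (c (m (nat_lit 0x7175a)) e) e)) (c (c (c (p (nat_lit 0x39c558)) e) e) e))) (c (c (c (c (m (nat_lit
  0xc3178e)) (c (p (nat_lit 0x913e06c)) (c (m (nat_lit 0x5bb720)) e))) (c (c (p (nat_lit 0x31b7a10)) (c (m
  (nat_lit 0x2277a8)) e)) (c (c (m (nat_lit 0x14d9a8)) e) e))) (c (c (c (p (nat_lit 0x543f1f2)) (c (m
  (nat_lit 0x360960)) e)) (c (c (m (nat_lit 0x24726c)) e) e)) (c (c (c (m (nat_lit 0x5898e4)) e) e) e))) (c
  (c (c (c (p (nat_lit 0x2a4e2dc)) (c (m (nat_lit 0x2fe94a0)) e)) (c (c (m (nat_lit 0x18ab990)) e) e)) (c (c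
  (c (m (nat_lit 0x21b8308)) e) e) e)) e))) (c (c (c (c (c (p (nat_lit 0x2ff52ea)) (c (p (nat_lit 0x454630e))
  (c (m (nat_lit 0x62f28)) e))) (c (c (m (nat_lit 0x182179e)) (c (p (nat_lit 0x14b398)) e)) (c (c (p (nat_lit
  0x6ab930)) e) e))) (c (c (c (m (nat_lit 0xbb3db8)) (c (p (nat_lit 0x336ebe)) e)) (c (c (p (nat_lit
  0x721ca4)) e) e)) (c (c (c (p (nat_lit 0x13519e)) e) e) e))) (c (c (c (c (m (nat_lit 0x87fcc0)) (c (p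
  (nat_lit 0x32af30)) e)) (c (c (p (nat_lit 0x3495d8)) e) e)) (c (c (c (m (nat_lit 0x783828)) e) e) e)) e))
  (c (c (c (c (c (p (nat_lit 0x4b80d0)) (c (m (nat_lit 0x3aa28)) e)) (c (c (p (nat_lit 0x217ea8)) e) e)) (c
  (c (c (p (nat_lit 0x20f75a)) e) e) e)) e) e))) (c (c (c (c (c (c (p (nat_lit 0x12b502c)) (c (p (nat_lit
  0x22d8722)) (c (m (nat_lit 0x9a2060)) e))) (c (c (p (nat_lit 0xd84e96)) (c (m (nat_lit 0xcb9df0)) e)) (c (c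
  (m (nat_lit 0x96d170)) e) e))) (c (c (c (p (nat_lit 0xcd4e1ac)) (c (m (nat_lit 0x100c7dc)) e)) (c (c (m
  (nat_lit 0x7f7874)) e) e)) (c (c (c (m (nat_lit 0x258a800)) e) e) e))) (c (c (c (c (p (nat_lit 0xb42772))
  (c (m (nat_lit 0xd64358)) e)) (c (c (m (nat_lit 0x775338)) e) e)) (c (c (c (m (nat_lit 0xec56bc)) e) e) e))
  e)) (c (c (c (c (c (m (nat_lit 0x79ba14)) (c (p (nat_lit 0x6180)) e)) (c (c (p (nat_lit 0xe63d0)) e) e)) (c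
  (c (c (p (nat_lit 0x5de6e8)) e) e) e)) e) e)) (c (c (c (c (c (c (p (nat_lit 0x1841b98)) (c (p (nat_lit
  0x9cd20)) e)) (c (c (m (nat_lit 0x55b018)) e) e)) (c (c (c (m (nat_lit 0xf8aeca)) e) e) e)) e) e) e))) (c
  (c (c (c (c (c (c (p (nat_lit 0x4032426)) (c (m (nat_lit 0x5a160f2)) (c (m (nat_lit 0x12e130)) e))) (c (c
  (m (nat_lit 0x2313cc6)) (c (p (nat_lit 0x5d9ac8)) e)) (c (c (m (nat_lit 0xcb340)) e) e))) (c (c (c (p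
  (nat_lit 0x5d78552)) (c (p (nat_lit 0x5012dc)) e)) (c (c (p (nat_lit 0x2e4436)) e) e)) (c (c (c (p (nat_lit
  0x849444)) e) e) e))) (c (c (c (c (m (nat_lit 0x484506)) (c (m (nat_lit 0x11e333e)) e)) (c (c (p (nat_lit
  0x559c86)) e) e)) (c (c (c (m (nat_lit 0x18bdf60)) e) e) e)) (c (c (c (c (m (nat_lit 0x3dc0a4)) e) e) e)
  e))) (c (c (c (c (c (p (nat_lit 0x1b88e9c)) (c (m (nat_lit 0x18d0248)) e)) (c (c (p (nat_lit 0x9114d2)) e)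
  e)) (c (c (c (m (nat_lit 0x3c50ac)) e) e) e)) (c (c (c (c (m (nat_lit 0x17eb7e)) e) e) e) e)) (c (c (c (c
  (c (m (nat_lit 0x45b66a)) e) e) e) e) e))) (c (c (c (c (c (c (m (nat_lit 0x5d17a4e)) (c (m (nat_lit
  0x2c2284)) e)) (c (c (m (nat_lit 0x193056)) e) e)) (c (c (c (m (nat_lit 0x6319cbc)) e) e) e)) (c (c (c (c
  (p (nat_lit 0x225d7a)) e) e) e) e)) (c (c (c (c (c (m (nat_lit 0x52344)) e) e) e) e) e)) (c (c (c (c (c (c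
  (m (nat_lit 0x8cce26)) e) e) e) e) e) e))) (c (c (c (c (c (c (c (m (nat_lit 0xb5235a)) (c (p (nat_lit
  0x3a337c4)) e)) (c (c (p (nat_lit 0x21ce424)) e) e)) (c (c (c (m (nat_lit 0x32d2790)) e) e) e)) (c (c (c (c
  (m (nat_lit 0x2832390)) e) e) e) e)) (c (c (c (c (c (m (nat_lit 0x1d8bc84)) e) e) e) e) e)) (c (c (c (c (c
  (c (p (nat_lit 0x30bd552)) e) e) e) e) e) e)) (c (c (c (c (c (c (c (m (nat_lit 0xd99b8a)) e) e) e) e) e) e)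
  e))))) (c (c (c (c (c (c (c (c (p (nat_lit 0x42ea44a)) (c (p (nat_lit 0x15330b4)) (c (m (nat_lit 0xce3be0))
  e))) (c (c (p (nat_lit 0x7f916a)) (c (m (nat_lit 0x4ab38)) e)) (c (c (m (nat_lit 0x317490)) e) e))) (c (c
  (c (m (nat_lit 0xbab40)) (c (m (nat_lit 0x66972c)) e)) (c (c (m (nat_lit 0xc3996)) e) e)) (c (c (c (m
  (nat_lit 0x5b2cd8)) e) e) e))) (c (c (c (c (m (nat_lit 0x163f728)) (c (p (nat_lit 0x3d1d126)) (c (m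
  (nat_lit 0xd07e8)) e))) (c (c (p (nat_lit 0x1418a12)) (c (m (nat_lit 0x689f40)) e)) (c (c (m (nat_lit
  0x7fa8f8)) e) e))) (c (c (c (p (nat_lit 0x5c8554)) (c (m (nat_lit 0x43ad7e)) e)) (c (c (m (nat_lit
  0x7168aa)) e) e)) (c (c (c (m (nat_lit 0x255306)) e) e) e))) (c (c (c (c (p (nat_lit 0xba9774)) (c (m
  (nat_lit 0x2ad52d0)) e)) (c (c (m (nat_lit 0x15c5c94)) e) e)) (c (c (c (p (nat_lit 0x131ad98)) e) e) e))
  e))) (c (c (c (c (c (p (nat_lit 0x4814ef2)) (c (p (nat_lit 0x6224c4)) (c (p (nat_lit 0x3b9490)) e))) (c (c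
  (m (nat_lit 0x506754)) (c (m (nat_lit 0xffebb0)) e)) (c (c (p (nat_lit 0xff51f0)) e) e))) (c (c (c (m
  (nat_lit 0x100827c)) (c (p (nat_lit 0x33f330)) e)) (c (c (p (nat_lit 0x53754c)) e) e)) (c (c (c (p (nat_lit
  0x1187394)) e) e) e))) (c (c (c (c (m (nat_lit 0xd2ee7a)) (c (p (nat_lit 0x2de4ae)) e)) (c (c (p (nat_lit
  0x4f41de)) e) e)) (c (c (c (p (nat_lit 0x4b1836)) e) e) e)) e)) (c (c (c (c (c (m (nat_lit 0x41e470)) (c (p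
  (nat_lit 0x3a500c)) e)) (c (c (m (nat_lit 0x462414)) e) e)) (c (c (c (m (nat_lit 0x1bb814)) e) e) e)) e)
  e))) (c (c (c (c (c (c (m (nat_lit 0x19350c0)) (c (m (nat_lit 0x42286e)) (c (p (nat_lit 0x103c4e8)) e))) (c
  (c (p (nat_lit 0xe1a038)) (c (m (nat_lit 0x3c0600)) e)) (c (c (m (nat_lit 0xd591c8)) e) e))) (c (c (c (p
  (nat_lit 0x2189ee)) (c (p (nat_lit 0x5c682)) e)) (c (c (p (nat_lit 0x6680fa)) e) e)) (c (c (c (p (nat_lit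
  0x7fa706)) e) e) e))) (c (c (c (c (m (nat_lit 0x2f202)) (c (p (nat_lit 0xa8669c)) e)) (c (c (m (nat_lit
  0x2302b6)) e) e)) (c (c (c (p (nat_lit 0x37a052)) e) e) e)) e)) (c (c (c (c (c (m (nat_lit 0xafb8e8)) (c (m
  (nat_lit 0x389ab4)) e)) (c (c (p (nat_lit 0xa43a3c)) e) e)) (c (c (c (p (nat_lit 0xfb94c)) e) e) e)) e) e))
  (c (c (c (c (c (c (p (nat_lit 0x1d9a7e)) (c (p (nat_lit 0x1064b2)) e)) (c (c (p (nat_lit 0x1247b2)) e) e))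
  (c (c (c (p (nat_lit 0x2c6cd0)) e) e) e)) e) e) e))) (c (c (c (c (c (c (c (p (nat_lit 0x3a9b282)) (c (m
  (nat_lit 0x42fd14c)) (c (p (nat_lit 0x1a8b00)) e))) (c (c (m (nat_lit 0x6706bc)) (c (m (nat_lit 0x794850))
  e)) (c (c (p (nat_lit 0xb1ca20)) e) e))) (c (c (c (m (nat_lit 0xe2f122)) (c (p (nat_lit 0x145d58)) e)) (c
  (c (m (nat_lit 0x4c33c8)) e) e)) (c (c (c (p (nat_lit 0x3aae98)) e) e) e))) (c (c (c (c (m (nat_lit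
  0x3ed200a)) (c (m (nat_lit 0x1619d6c)) e)) (c (c (m (nat_lit 0xbe1c2e)) e) e)) (c (c (c (m (nat_lit
  0x100ef0)) e) e) e)) (c (c (c (c (p (nat_lit 0x1c729ec)) e) e) e) e))) (c (c (c (c (c (m (nat_lit
  0x3d001b2)) (c (m (nat_lit 0xd413e4)) e)) (c (c (m (nat_lit 0x42a4ac)) e) e)) (c (c (c (m (nat_lit
  0x8d7e78)) e) e) e)) (c (c (c (c (p (nat_lit 0x738)) e) e) e) e)) (c (c (c (c (c (p (nat_lit 0x4abc80)) e)
  e) e) e) e))) (c (c (c (c (c (c (m (nat_lit 0xac050)) (c (m (nat_lit 0x1ce5ef8)) e)) (c (c (m (nat_lit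
  0x290a72)) e) e)) (c (c (c (m (nat_lit 0x8dfbb2)) e) e) e)) (c (c (c (c (p (nat_lit 0x120f96)) e) e) e) e))
  (c (c (c (c (c (m (nat_lit 0x432078)) e) e) e) e) e)) (c (c (c (c (c (c (p (nat_lit 0x723ed0)) e) e) e) e)
  e) e))) (c (c (c (c (c (c (c (m (nat_lit 0x49fb50a)) (c (p (nat_lit 0x1bb0c52)) e)) (c (c (m (nat_lit
  0x8650b6)) e) e)) (c (c (c (m (nat_lit 0x8cf2aa)) e) e) e)) (c (c (c (c (p (nat_lit 0x31c3c80)) e) e) e)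
  e)) (c (c (c (c (c (p (nat_lit 0x15b898)) e) e) e) e) e)) (c (c (c (c (c (c (m (nat_lit 0x2adf1a)) e) e) e)
  e) e) e)) (c (c (c (c (c (c (c (m (nat_lit 0x73ca8e)) e) e) e) e) e) e) e)))) (c (c (c (c (c (c (c (c (m
  (nat_lit 0x818ab4)) (c (m (nat_lit 0xe0ba2e)) (c (m (nat_lit 0x657480)) e))) (c (c (m (nat_lit 0xbe92c6))
  (c (p (nat_lit 0xe4c78)) e)) (c (c (m (nat_lit 0x3d8588)) e) e))) (c (c (c (p (nat_lit 0x15528e4)) (c (m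
  (nat_lit 0x2022cc)) e)) (c (c (m (nat_lit 0xb8cb0)) e) e)) (c (c (c (m (nat_lit 0x6542ee)) e) e) e))) (c (c
  (c (c (p (nat_lit 0x8038e)) (c (p (nat_lit 0x9bc44e)) e)) (c (c (p (nat_lit 0x11d0c0)) e) e)) (c (c (c (m
  (nat_lit 0x68a942)) e) e) e)) (c (c (c (c (p (nat_lit 0x50cb74)) e) e) e) e))) (c (c (c (c (c (m (nat_lit
  0xd2a7a6)) (c (m (nat_lit 0x6a4478)) e)) (c (c (m (nat_lit 0x3d0d1c)) e) e)) (c (c (c (m (nat_lit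
  0x206e5c)) e) e) e)) (c (c (c (c (p (nat_lit 0x70d49c)) e) e) e) e)) (c (c (c (c (c (m (nat_lit 0x7d35e))
  e) e) e) e) e))) (c (c (c (c (c (c (m (nat_lit 0x5b3c86)) (c (p (nat_lit 0x160b30)) e)) (c (c (p (nat_lit
  0x8693a0)) e) e)) (c (c (c (m (nat_lit 0x235a64)) e) e) e)) (c (c (c (c (p (nat_lit 0x6439c8)) e) e) e) e))
  (c (c (c (c (c (p (nat_lit 0x9e421c)) e) e) e) e) e)) (c (c (c (c (c (c (m (nat_lit 0x581202)) e) e) e) e)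
  e) e))) (c (c (c (c (c (c (c (m (nat_lit 0x1b39a8c)) (c (p (nat_lit 0x73a9d6)) e)) (c (c (p (nat_lit
  0x13b2b8c)) e) e)) (c (c (c (p (nat_lit 0x181ec30)) e) e) e)) (c (c (c (c (m (nat_lit 0xae58f2)) e) e) e)
  e)) (c (c (c (c (c (p (nat_lit 0x2ca612)) e) e) e) e) e)) (c (c (c (c (c (c (p (nat_lit 0x1adb2b6)) e) e)
  e) e) e) e)) (c (c (c (c (c (c (c (p (nat_lit 0xe4db00)) e) e) e) e) e) e) e))) (c (c (c (c (c (c (c (c (m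
  (nat_lit 0x480498)) (c (p (nat_lit 0x42e81a)) e)) (c (c (p (nat_lit 0x773814)) e) e)) (c (c (c (m (nat_lit
  0x5d6156)) e) e) e)) (c (c (c (c (m (nat_lit 0x1e65e2)) e) e) e) e)) (c (c (c (c (c (m (nat_lit 0x11cc40))
  e) e) e) e) e)) (c (c (c (c (c (c (p (nat_lit 0x1d9f4c)) e) e) e) e) e) e)) (c (c (c (c (c (c (c (p
  (nat_lit 0x81fd38)) e) e) e) e) e) e) e)) (c (c (c (c (c (c (c (c (p (nat_lit 0x846e8e)) e) e) e) e) e) e)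
  e) e))))) (c (c (c (c (c (c (c (c (c (p (nat_lit 0x2bb0df8)) (c (p (nat_lit 0x13dbea2)) (c (p (nat_lit
  0x9972f0)) e))) (c (c (p (nat_lit 0x177762)) (c (m (nat_lit 0x5eb078)) e)) (c (c (m (nat_lit 0xfc9738)) e)
  e))) (c (c (c (p (nat_lit 0x2f90aa2)) (c (m (nat_lit 0x4a59bc)) e)) (c (c (m (nat_lit 0x40908c)) e) e)) (c
  (c (c (m (nat_lit 0x1886b32)) e) e) e))) (c (c (c (c (p (nat_lit 0x26a2b2c)) (c (m (nat_lit 0x14fe7b2)) (c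
  (m (nat_lit 0x2d0ea0)) e))) (c (c (m (nat_lit 0x3a1c39a)) (c (m (nat_lit 0x194d90)) e)) (c (c (m (nat_lit
  0x30a680)) e) e))) (c (c (c (p (nat_lit 0xcb82ba)) (c (p (nat_lit 0x849b40)) e)) (c (c (p (nat_lit
  0x413964)) e) e)) (c (c (c (p (nat_lit 0x2c1180)) e) e) e))) (c (c (c (c (m (nat_lit 0x24c2c40)) (c (p
  (nat_lit 0x17fcbc8)) e)) (c (c (p (nat_lit 0x2693ad8)) e) e)) (c (c (c (m (nat_lit 0x732120)) e) e) e))
  e))) (c (c (c (c (c (p (nat_lit 0x41e3b30)) (c (p (nat_lit 0x98eeea)) (c (m (nat_lit 0xf05400)) e))) (c (c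
  (m (nat_lit 0x4dd5b8)) (c (p (nat_lit 0x38e4a0)) e)) (c (c (m (nat_lit 0x1b8550)) e) e))) (c (c (c (m
  (nat_lit 0x57db78)) (c (m (nat_lit 0xa2948)) e)) (c (c (m (nat_lit 0x240690)) e) e)) (c (c (c (m (nat_lit
  0x1865ac)) e) e) e))) (c (c (c (c (p (nat_lit 0x31290c)) (c (p (nat_lit 0x74b374)) e)) (c (c (m (nat_lit
  0xf4d16)) e) e)) (c (c (c (m (nat_lit 0x38f7ae)) e) e) e)) e)) (c (c (c (c (c (m (nat_lit 0x6b9a2a)) (c (m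
  (nat_lit 0x351f60)) e)) (c (c (p (nat_lit 0x430080)) e) e)) (c (c (c (p (nat_lit 0x5ae3b2)) e) e) e)) e)
  e))) (c (c (c (c (c (c (m (nat_lit 0xf5b59c)) (c (p (nat_lit 0x1d1948)) (c (m (nat_lit 0x67ef00)) e))) (c
  (c (p (nat_lit 0x869dfc)) (c (m (nat_lit 0x86eb60)) e)) (c (c (p (nat_lit 0x12dd400)) e) e))) (c (c (c (m
  (nat_lit 0x694a10)) (c (m (nat_lit 0x2037f0)) e)) (c (c (p (nat_lit 0x7d2da0)) e) e)) (c (c (c (p (nat_lit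
  0x1565e68)) e) e) e))) (c (c (c (c (p (nat_lit 0xdeeca)) (c (p (nat_lit 0xc3a8d2)) e)) (c (c (p (nat_lit
  0xf0258)) e) e)) (c (c (c (m (nat_lit 0xef9be)) e) e) e)) e)) (c (c (c (c (c (p (nat_lit 0x81b2b0)) (c (m
  (nat_lit 0x20b350)) e)) (c (c (m (nat_lit 0xa37ef8)) e) e)) (c (c (c (m (nat_lit 0x551124)) e) e) e)) e)
  e)) (c (c (c (c (c (c (p (nat_lit 0xbe44)) (c (p (nat_lit 0x1672e0)) e)) (c (c (m (nat_lit 0x24cc0)) e) e))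
  (c (c (c (m (nat_lit 0x9a6fe)) e) e) e)) e) e) e))) (c (c (c (c (c (c (c (p (nat_lit 0x160bc3c)) (c (m
  (nat_lit 0x2952558)) (c (m (nat_lit 0x1f38f0)) e))) (c (c (p (nat_lit 0x82458)) (c (p (nat_lit 0x899070))
  e)) (c (c (p (nat_lit 0x68220)) e) e))) (c (c (c (m (nat_lit 0xb12e62)) (c (m (nat_lit 0x34794)) e)) (c (c
  (m (nat_lit 0x162fa8)) e) e)) (c (c (c (p (nat_lit 0x68ee60)) e) e) e))) (c (c (c (c (m (nat_lit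
  0x1a2ada2)) (c (m (nat_lit 0xb7d8c6)) e)) (c (c (m (nat_lit 0x94dbe)) e) e)) (c (c (c (m (nat_lit
  0xba8bfe)) e) e) e)) (c (c (c (c (m (nat_lit 0x7fa64c)) e) e) e) e))) (c (c (c (c (c (m (nat_lit
  0x1154cd6)) (c (m (nat_lit 0xb8ec12)) e)) (c (c (p (nat_lit 0x98d2ee)) e) e)) (c (c (c (p (nat_lit
  0x117b40)) e) e) e)) (c (c (c (c (p (nat_lit 0x24808e)) e) e) e) e)) (c (c (c (c (c (m (nat_lit 0x710736))
  e) e) e) e) e))) (c (c (c (c (c (c (p (nat_lit 0x11b7256)) (c (m (nat_lit 0x4bb51a)) e)) (c (c (m (nat_lit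
  0x1151f94)) e) e)) (c (c (c (m (nat_lit 0x1e35f5e)) e) e) e)) (c (c (c (c (p (nat_lit 0x718158)) e) e) e)
  e)) (c (c (c (c (c (p (nat_lit 0x4f4064)) e) e) e) e) e)) (c (c (c (c (c (c (p (nat_lit 0x644532)) e) e) e)
  e) e) e))) (c (c (c (c (c (c (c (m (nat_lit 0x378e946)) (c (p (nat_lit 0x47ddec)) e)) (c (c (m (nat_lit
  0x9930c0)) e) e)) (c (c (c (p (nat_lit 0xea8286)) e) e) e)) (c (c (c (c (p (nat_lit 0x23f3e2c)) e) e) e)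
  e)) (c (c (c (c (c (m (nat_lit 0x16ad0a8)) e) e) e) e) e)) (c (c (c (c (c (c (m (nat_lit 0x9b8ac4)) e) e)
  e) e) e) e)) (c (c (c (c (c (c (c (m (nat_lit 0xef11aa)) e) e) e) e) e) e) e)))) (c (c (c (c (c (c (c (c (m
  (nat_lit 0x2144af6)) (c (m (nat_lit 0x49e816)) (c (p (nat_lit 0x2eed50)) e))) (c (c (m (nat_lit 0x6a6644))
  (c (p (nat_lit 0x2d8610)) e)) (c (c (p (nat_lit 0x6afda0)) e) e))) (c (c (c (m (nat_lit 0xfb6d96)) (c (p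
  (nat_lit 0x8ff04c)) e)) (c (c (m (nat_lit 0x418194)) e) e)) (c (c (c (p (nat_lit 0xa0c50)) e) e) e))) (c (c
  (c (c (m (nat_lit 0x1a39ade)) (c (p (nat_lit 0x4e41a6)) e)) (c (c (p (nat_lit 0x3ff048)) e) e)) (c (c (c (p
  (nat_lit 0x45888c)) e) e) e)) (c (c (c (c (p (nat_lit 0x10505d0)) e) e) e) e))) (c (c (c (c (c (m (nat_lit
  0x26740c8)) (c (p (nat_lit 0x69f90)) e)) (c (c (p (nat_lit 0xedeb44)) e) e)) (c (c (c (p (nat_lit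
  0xdbec4c)) e) e) e)) (c (c (c (c (m (nat_lit 0x3c9cba)) e) e) e) e)) (c (c (c (c (c (p (nat_lit 0x37be3a))
  e) e) e) e) e))) (c (c (c (c (c (c (p (nat_lit 0x27cc1e)) (c (p (nat_lit 0x5e49fa)) e)) (c (c (p (nat_lit
  0xad9bbc)) e) e)) (c (c (c (p (nat_lit 0x5d7854)) e) e) e)) (c (c (c (c (m (nat_lit 0x46f19a)) e) e) e) e))
  (c (c (c (c (c (m (nat_lit 0x1fc0d4)) e) e) e) e) e)) (c (c (c (c (c (c (m (nat_lit 0x138786)) e) e) e) e)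
  e) e))) (c (c (c (c (c (c (c (m (nat_lit 0x2dd6602)) (c (p (nat_lit 0x109d57a)) e)) (c (c (p (nat_lit
  0x16b6b94)) e) e)) (c (c (c (p (nat_lit 0x65b90e)) e) e) e)) (c (c (c (c (p (nat_lit 0x257544)) e) e) e)
  e)) (c (c (c (c (c (p (nat_lit 0x237df8c)) e) e) e) e) e)) (c (c (c (c (c (c (m (nat_lit 0x4e2f22)) e) e)
  e) e) e) e)) (c (c (c (c (c (c (c (p (nat_lit 0x566d942)) e) e) e) e) e) e) e))) (c (c (c (c (c (c (c (c (p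
  (nat_lit 0x4e10aa)) (c (p (nat_lit 0x4b60c6)) e)) (c (c (m (nat_lit 0x7c0524)) e) e)) (c (c (c (m (nat_lit
  0x2cae6a)) e) e) e)) (c (c (c (c (p (nat_lit 0x5826d2)) e) e) e) e)) (c (c (c (c (c (p (nat_lit 0x47b524))
  e) e) e) e) e)) (c (c (c (c (c (c (m (nat_lit 0x7b7e60)) e) e) e) e) e) e)) (c (c (c (c (c (c (c (m
  (nat_lit 0x1a81a66)) e) e) e) e) e) e) e)) (c (c (c (c (c (c (c (c (m (nat_lit 0x8619f6)) e) e) e) e) e) e)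
  e) e)))) (c (c (c (c (c (c (c (c (c (m (nat_lit 0xbd2052)) (c (p (nat_lit 0x83e91a)) (c (p (nat_lit
  0x3e40a8)) e))) (c (c (m (nat_lit 0x1fc7a96)) (c (p (nat_lit 0xb49a8)) e)) (c (c (p (nat_lit 0xf25308)) e)
  e))) (c (c (c (m (nat_lit 0x27fdc20)) (c (m (nat_lit 0x713e8)) e)) (c (c (p (nat_lit 0x2b5ab6)) e) e)) (c
  (c (c (p (nat_lit 0xaff0e6)) e) e) e))) (c (c (c (c (m (nat_lit 0x75b136)) (c (p (nat_lit 0x64518c)) e)) (c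
  (c (p (nat_lit 0xf622b0)) e) e)) (c (c (c (p (nat_lit 0x2307fc)) e) e) e)) (c (c (c (c (m (nat_lit
  0x134b998)) e) e) e) e))) (c (c (c (c (c (m (nat_lit 0x177f0ea)) (c (p (nat_lit 0x11846a0)) e)) (c (c (p
  (nat_lit 0xb8308c)) e) e)) (c (c (c (p (nat_lit 0xa3e3cc)) e) e) e)) (c (c (c (c (m (nat_lit 0x4a4cf0)) e)
  e) e) e)) (c (c (c (c (c (m (nat_lit 0x345960)) e) e) e) e) e))) (c (c (c (c (c (c (m (nat_lit 0xacbca2))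
  (c (p (nat_lit 0x138903c)) e)) (c (c (p (nat_lit 0x399ea0)) e) e)) (c (c (c (p (nat_lit 0x805350)) e) e)
  e)) (c (c (c (c (m (nat_lit 0x796278)) e) e) e) e)) (c (c (c (c (c (m (nat_lit 0x534c90)) e) e) e) e) e))
  (c (c (c (c (c (c (p (nat_lit 0x5dd8)) e) e) e) e) e) e))) (c (c (c (c (c (c (c (m (nat_lit 0x30c6c)) (c (m
  (nat_lit 0x16c9ab8)) e)) (c (c (p (nat_lit 0x17b03e)) e) e)) (c (c (c (p (nat_lit 0x2221a4)) e) e) e)) (c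
  (c (c (c (p (nat_lit 0x1e1ecc)) e) e) e) e)) (c (c (c (c (c (p (nat_lit 0xcbe9d4)) e) e) e) e) e)) (c (c (c
  (c (c (c (p (nat_lit 0x62abd6)) e) e) e) e) e) e)) (c (c (c (c (c (c (c (p (nat_lit 0x1e211e0)) e) e) e) e)
  e) e) e))) (c (c (c (c (c (c (c (c (p (nat_lit 0x20a06ae)) (c (m (nat_lit 0xefc4a2)) e)) (c (c (m (nat_lit
  0x3db66)) e) e)) (c (c (c (m (nat_lit 0x279b46)) e) e) e)) (c (c (c (c (m (nat_lit 0x108924)) e) e) e) e))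
  (c (c (c (c (c (m (nat_lit 0x10a7ac8)) e) e) e) e) e)) (c (c (c (c (c (c (m (nat_lit 0x43daae)) e) e) e) e)
  e) e)) (c (c (c (c (c (c (c (m (nat_lit 0xb857b6)) e) e) e) e) e) e) e)) (c (c (c (c (c (c (c (c (p
  (nat_lit 0x8d975c)) e) e) e) e) e) e) e) e))) (c (c (c (c (c (c (c (c (c (p (nat_lit 0xd71186)) (c (m
  (nat_lit 0x51d872)) e)) (c (c (p (nat_lit 0x76910a)) e) e)) (c (c (c (p (nat_lit 0x8cf87a)) e) e) e)) (c (c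
  (c (c (p (nat_lit 0x8a82d4)) e) e) e) e)) (c (c (c (c (c (p (nat_lit 0xc37824)) e) e) e) e) e)) (c (c (c (c
  (c (c (p (nat_lit 0x7f437c)) e) e) e) e) e) e)) (c (c (c (c (c (c (c (m (nat_lit 0x108526e)) e) e) e) e) e)
  e) e)) (c (c (c (c (c (c (c (c (m (nat_lit 0x5697c0)) e) e) e) e) e) e) e) e)) (c (c (c (c (c (c (c (c (c
  (m (nat_lit 0x2d0318)) e) e) e) e) e) e) e) e) e)))))

noncomputable def gt_0_1_4 : Tr :=
  (c (c (c (c (c (c (c (c (c (m (nat_lit 0x287e3ce)) (c (p (nat_lit 0x963daa)) (c (m (nat_lit 0x56253c)) e)))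
  (c (c (p (nat_lit 0x1dfcd90)) (c (p (nat_lit 0x114bcac)) e)) (c (c (m (nat_lit 0x1244a6)) e) e))) (c (c (c
  (p (nat_lit 0x31369d4)) (c (p (nat_lit 0x8eb318)) e)) (c (c (p (nat_lit 0x4ec1e0)) e) e)) (c (c (c (m
  (nat_lit 0x2f05290)) e) e) e))) (c (c (c (c (p (nat_lit 0x2490ccc)) (c (p (nat_lit 0x334cb1e)) (c (m
  (nat_lit 0x2e122c)) e))) (c (c (m (nat_lit 0x40b99ea)) (c (m (nat_lit 0x1d2ff38)) e)) (c (c (p (nat_lit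
  0x7e3a80)) e) e))) (c (c (c (m (nat_lit 0xe938692)) (c (p (nat_lit 0x8a1e0c)) e)) (c (c (m (nat_lit
  0x11fb560)) e) e)) (c (c (c (p (nat_lit 0xd5a4250)) e) e) e))) (c (c (c (c (m (nat_lit 0x2f05290)) (c (m
  (nat_lit 0xdd8728)) (c (p (nat_lit 0x711618)) e))) (c (c (p (nat_lit 0x397aeec)) (c (p (nat_lit 0x5d9618))
  e)) (c (c (p (nat_lit 0x17343c)) e) e))) (c (c (c (p (nat_lit 0xd5a4460)) (c (m (nat_lit 0x2d05f4)) e)) (c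
  (c (p (nat_lit 0x7d1c48)) e) e)) (c (c (c (m (nat_lit 0xa285020)) e) e) e))) e))) (c (c (c (c (c (m
  (nat_lit 0x7d11ce)) (c (p (nat_lit 0x5d645c)) (c (p (nat_lit 0x5c27ee)) e))) (c (c (m (nat_lit 0xee9d7c))
  (c (m (nat_lit 0x45fdf8)) e)) (c (c (p (nat_lit 0x23839e)) e) e))) (c (c (c (m (nat_lit 0x3329d8a)) (c (m
  (nat_lit 0x41c7fc)) e)) (c (c (p (nat_lit 0x1781a)) e) e)) (c (c (c (p (nat_lit 0x397aef8)) e) e) e))) (c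
  (c (c (c (p (nat_lit 0x4ec258)) (c (m (nat_lit 0x5b21b0)) (c (p (nat_lit 0xd0ec6)) e))) (c (c (p (nat_lit
  0x177c6)) (c (m (nat_lit 0x19d256)) e)) (c (c (p (nat_lit 0x78fcba)) e) e))) (c (c (c (m (nat_lit
  0x11fb680)) (c (m (nat_lit 0x7fe6)) e)) (c (c (m (nat_lit 0x9ddee)) e) e)) (c (c (c (p (nat_lit 0x7d1d50))
  e) e) e))) e)) (c (c (c (c (c (m (nat_lit 0x124524)) (c (m (nat_lit 0x29a5ee)) (c (p (nat_lit 0x4e0c12))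
  e))) (c (c (p (nat_lit 0x2383fe)) (c (m (nat_lit 0x894684)) e)) (c (c (p (nat_lit 0x74d234)) e) e))) (c (c
  (c (p (nat_lit 0x7e3b70)) (c (p (nat_lit 0x759de6)) e)) (c (c (p (nat_lit 0x78fc9c)) e) e)) (c (c (c (p
  (nat_lit 0x173388)) e) e) e))) e) e))) (c (c (c (c (c (c (p (nat_lit 0xdeed0c)) (c (p (nat_lit 0x1209c60))
  (c (m (nat_lit 0x23812e)) e))) (c (c (m (nat_lit 0x14aa692)) (c (m (nat_lit 0x4715ee)) e)) (c (c (m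
  (nat_lit 0x29a636)) e) e))) (c (c (c (p (nat_lit 0x2c5ae7a)) (c (m (nat_lit 0x1026e52)) e)) (c (c (m
  (nat_lit 0x5b21c8)) e) e)) (c (c (c (m (nat_lit 0xdd8830)) e) e) e))) (c (c (c (c (p (nat_lit 0x8eb42c)) (c
  (m (nat_lit 0x1026f54)) (c (m (nat_lit 0x2e99b6)) e))) (c (c (m (nat_lit 0x41c862)) (c (p (nat_lit
  0x47dd02)) e)) (c (c (p (nat_lit 0x759dfe)) e) e))) (c (c (c (p (nat_lit 0x8a1cc8)) (c (p (nat_lit
  0x4697e2)) e)) (c (c (m (nat_lit 0x7fda)) e) e)) (c (c (c (m (nat_lit 0x2d04c8)) e) e) e))) e)) (c (c (c (c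
  (c (p (nat_lit 0x114c870)) (c (m (nat_lit 0x471ca8)) (c (m (nat_lit 0x630d74)) e))) (c (c (m (nat_lit
  0x460038)) (c (m (nat_lit 0x2053c8)) e)) (c (c (m (nat_lit 0x894660)) e) e))) (c (c (c (m (nat_lit
  0x1d30250)) (c (p (nat_lit 0x47dd20)) e)) (c (c (m (nat_lit 0x19d22c)) e) e)) (c (c (c (p (nat_lit
  0x5d96f0)) e) e) e))) e) e)) (c (c (c (c (c (c (m (nat_lit 0x562512)) (c (m (nat_lit 0x23811c)) (c (p
  (nat_lit 0x92b170)) e))) (c (c (p (nat_lit 0x5c2800)) (c (m (nat_lit 0x630d80)) e)) (c (c (p (nat_lit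
  0x4e0c0c)) e) e))) (c (c (c (m (nat_lit 0x2e12c8)) (c (m (nat_lit 0x2e99aa)) e)) (c (c (p (nat_lit
  0xd0ecc)) e) e)) (c (c (c (p (nat_lit 0x711690)) e) e) e))) e) e) e))) (c (c (c (c (c (c (c (m (nat_lit
  0x365be8a)) (c (m (nat_lit 0x32a26ca)) (c (p (nat_lit 0x3f2b20)) e))) (c (c (p (nat_lit 0x3a1226)) (c (p
  (nat_lit 0x1fe9c)) e)) (c (c (m (nat_lit 0x11aba0)) e) e))) (c (c (c (p (nat_lit 0x6c76c56)) (c (m (nat_lit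
  0x8fe0f8)) e)) (c (c (p (nat_lit 0x14a204)) e) e)) (c (c (c (m (nat_lit 0x23e0c38)) e) e) e))) (c (c (c (c
  (p (nat_lit 0x1ddb046)) (c (m (nat_lit 0x2e5cd2)) (c (p (nat_lit 0x734a)) e))) (c (c (m (nat_lit
  0x150a854)) (c (p (nat_lit 0x53380e)) e)) (c (c (m (nat_lit 0x8e4430)) e) e))) (c (c (c (m (nat_lit
  0x5c1ff60)) (c (m (nat_lit 0x32e566)) e)) (c (c (p (nat_lit 0x1700a)) e) e)) (c (c (c (p (nat_lit
  0x1ea8138)) e) e) e))) (c (c (c (c (m (nat_lit 0x4331c4)) (c (m (nat_lit 0xafb654)) e)) (c (c (p (nat_lit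
  0xf3b664)) e) e)) (c (c (c (m (nat_lit 0x2e5570)) e) e) e)) e))) (c (c (c (c (c (p (nat_lit 0x3448980)) (c
  (m (nat_lit 0x210ba0c)) (c (p (nat_lit 0x12545a)) e))) (c (c (m (nat_lit 0xcc6522)) (c (p (nat_lit 0xfb4))
  e)) (c (c (m (nat_lit 0x21c540)) e) e))) (c (c (c (m (nat_lit 0xe906dc)) (c (m (nat_lit 0x5160ba)) e)) (c
  (c (m (nat_lit 0x110d1e)) e) e)) (c (c (c (m (nat_lit 0xf23ad8)) e) e) e))) (c (c (c (c (m (nat_lit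
  0x626ad8)) (c (p (nat_lit 0x6bc9ee)) e)) (c (c (p (nat_lit 0x6d90b0)) e) e)) (c (c (c (p (nat_lit
  0xb7ad58)) e) e) e)) e)) (c (c (c (c (c (p (nat_lit 0x37e660)) (c (m (nat_lit 0x17feec)) e)) (c (c (p
  (nat_lit 0x3e2596)) e) e)) (c (c (c (m (nat_lit 0x4b8778)) e) e) e)) e) e))) (c (c (c (c (c (c (p (nat_lit
  0x2983842)) (c (p (nat_lit 0x23aab78)) (c (m (nat_lit 0xe604b4)) e))) (c (c (p (nat_lit 0x32eef96)) (c (m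
  (nat_lit 0x22644c)) e)) (c (c (m (nat_lit 0x8a18e4)) e) e))) (c (c (c (m (nat_lit 0x9b976c0)) (c (p
  (nat_lit 0xd997f4)) e)) (c (c (p (nat_lit 0x12b07a8)) e) e)) (c (c (c (p (nat_lit 0x23dcc90)) e) e) e))) (c
  (c (c (c (m (nat_lit 0x5dce6a)) (c (p (nat_lit 0x4ddb04)) e)) (c (c (p (nat_lit 0x41c39a)) e) e)) (c (c (c
  (p (nat_lit 0xa3c5d8)) e) e) e)) e)) (c (c (c (c (c (m (nat_lit 0xb41500)) (c (p (nat_lit 0x8ae7cc)) e)) (c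
  (c (p (nat_lit 0x9ca6b0)) e) e)) (c (c (c (p (nat_lit 0x4beac0)) e) e) e)) e) e)) (c (c (c (c (c (c (p
  (nat_lit 0xe49a2)) (c (p (nat_lit 0x2679f6)) e)) (c (c (m (nat_lit 0x1a6016)) e) e)) (c (c (c (p (nat_lit
  0x73ebb8)) e) e) e)) e) e) e))) (c (c (c (c (c (c (c (p (nat_lit 0x5524f0e)) (c (p (nat_lit 0x4ef98d6)) (c
  (m (nat_lit 0xf00ae)) e))) (c (c (p (nat_lit 0x11f5e8a)) (c (p (nat_lit 0x255a62)) e)) (c (c (p (nat_lit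
  0x144c18)) e) e))) (c (c (c (m (nat_lit 0x42e38e6)) (c (m (nat_lit 0x61769a)) e)) (c (c (m (nat_lit
  0x784128)) e) e)) (c (c (c (m (nat_lit 0x9dd628)) e) e) e))) (c (c (c (c (m (nat_lit 0x45ffc)) (c (p
  (nat_lit 0xf4a5a4)) e)) (c (c (p (nat_lit 0x174558c)) e) e)) (c (c (c (p (nat_lit 0x214e5ca)) e) e) e)) (c
  (c (c (c (m (nat_lit 0x191034c)) e) e) e) e))) (c (c (c (c (c (m (nat_lit 0x265b372)) (c (p (nat_lit
  0x188e962)) e)) (c (c (p (nat_lit 0xfd4a1e)) e) e)) (c (c (c (p (nat_lit 0x246bd36)) e) e) e)) (c (c (c (c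
  (m (nat_lit 0x127842)) e) e) e) e)) (c (c (c (c (c (m (nat_lit 0x5fe15e)) e) e) e) e) e))) (c (c (c (c (c
  (c (m (nat_lit 0x481e432)) (c (m (nat_lit 0x1abefa8)) e)) (c (c (m (nat_lit 0x25f1184)) e) e)) (c (c (c (p
  (nat_lit 0x35bd14e)) e) e) e)) (c (c (c (c (m (nat_lit 0x8c3fe2)) e) e) e) e)) (c (c (c (c (c (p (nat_lit
  0x3c6ae0)) e) e) e) e) e)) (c (c (c (c (c (c (m (nat_lit 0x1c1784)) e) e) e) e) e) e))) (c (c (c (c (c (c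
  (c (m (nat_lit 0x1fd2fda)) (c (m (nat_lit 0x26d920a)) e)) (c (c (m (nat_lit 0x1ef307e)) e) e)) (c (c (c (p
  (nat_lit 0x13ca904)) e) e) e)) (c (c (c (c (p (nat_lit 0xd1cc8e)) e) e) e) e)) (c (c (c (c (c (m (nat_lit
  0x14b5cc)) e) e) e) e) e)) (c (c (c (c (c (c (p (nat_lit 0x28fbc18)) e) e) e) e) e) e)) (c (c (c (c (c (c
  (c (p (nat_lit 0x4942d4)) e) e) e) e) e) e) e))))) (c (c (c (c (c (c (c (c (p (nat_lit 0x2da02c0)) (c (m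
  (nat_lit 0x30ebe6c)) (c (p (nat_lit 0x88745a)) e))) (c (c (m (nat_lit 0x18d4f52)) (c (m (nat_lit 0x636c06))
  e)) (c (c (m (nat_lit 0x7783e)) e) e))) (c (c (c (m (nat_lit 0x1da5eda)) (c (p (nat_lit 0x53bcd4)) e)) (c
  (c (p (nat_lit 0x197880)) e) e)) (c (c (c (p (nat_lit 0xe79540)) e) e) e))) (c (c (c (c (m (nat_lit
  0x67088a)) (c (p (nat_lit 0x590ca0)) (c (m (nat_lit 0x221874)) e))) (c (c (p (nat_lit 0x3bc9ae4)) (c (p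
  (nat_lit 0x9e29ce)) e)) (c (c (m (nat_lit 0x7dc49c)) e) e))) (c (c (c (m (nat_lit 0x983c3a)) (c (p (nat_lit
  0x46ba38)) e)) (c (c (p (nat_lit 0x38e44)) e) e)) (c (c (c (p (nat_lit 0x67f698)) e) e) e))) (c (c (c (c (p
  (nat_lit 0xe79510)) (c (m (nat_lit 0xfb9040)) e)) (c (c (m (nat_lit 0x2cedbec)) e) e)) (c (c (c (p (nat_lit
  0x67f698)) e) e) e)) e))) (c (c (c (c (c (p (nat_lit 0x9bffb8)) (c (m (nat_lit 0x307830)) (c (m (nat_lit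
  0x52e8a0)) e))) (c (c (p (nat_lit 0x3076ec)) (c (p (nat_lit 0xc542a0)) e)) (c (c (m (nat_lit 0xc39b7c)) e)
  e))) (c (c (c (p (nat_lit 0x2e39faa)) (c (m (nat_lit 0x179f1c)) e)) (c (c (m (nat_lit 0xc8ec74)) e) e)) (c
  (c (c (m (nat_lit 0x2cedc40)) e) e) e))) (c (c (c (c (p (nat_lit 0x197898)) (c (p (nat_lit 0x2d06c6)) e))
  (c (c (m (nat_lit 0xc8ec6e)) e) e)) (c (c (c (p (nat_lit 0x38e2c)) e) e) e)) e)) (c (c (c (c (c (m (nat_lit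
  0x7783e)) (c (m (nat_lit 0x543cfc)) e)) (c (c (m (nat_lit 0xc39b7c)) e) e)) (c (c (c (m (nat_lit 0x7dc490))
  e) e) e)) e) e))) (c (c (c (c (c (c (m (nat_lit 0x304ae4a)) (c (m (nat_lit 0x899a2a)) (c (p (nat_lit
  0x17a4c2)) e))) (c (c (p (nat_lit 0x17785e0)) (c (p (nat_lit 0xab71b8)) e)) (c (c (m (nat_lit 0x543cf0)) e)
  e))) (c (c (c (p (nat_lit 0xc81d6e)) (c (p (nat_lit 0x6637da)) e)) (c (c (p (nat_lit 0x2d06cc)) e) e)) (c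
  (c (c (m (nat_lit 0xfb8fe0)) e) e) e))) (c (c (c (c (p (nat_lit 0x53bcec)) (c (p (nat_lit 0x6637da)) e)) (c
  (c (m (nat_lit 0x179f04)) e) e)) (c (c (c (p (nat_lit 0x46ba26)) e) e) e)) e)) (c (c (c (c (c (m (nat_lit
  0x636bf4)) (c (p (nat_lit 0xab71c4)) e)) (c (c (p (nat_lit 0xc542a0)) e) e)) (c (c (c (p (nat_lit
  0x9e29ec)) e) e) e)) e) e)) (c (c (c (c (c (c (p (nat_lit 0x88746c)) (c (p (nat_lit 0x17a4c8)) e)) (c (c (m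
  (nat_lit 0x52e8ac)) e) e)) (c (c (c (m (nat_lit 0x22187a)) e) e) e)) e) e) e))) (c (c (c (c (c (c (c (p
  (nat_lit 0x4d918ac)) (c (p (nat_lit 0x1074c54)) (c (m (nat_lit 0x47fc28)) e))) (c (c (m (nat_lit 0x55ad90))
  (c (m (nat_lit 0x116f4c)) e)) (c (c (p (nat_lit 0xe553cc)) e) e))) (c (c (c (m (nat_lit 0x163bde)) (c (m
  (nat_lit 0x4abbf0)) e)) (c (c (m (nat_lit 0x6b3f4)) e) e)) (c (c (c (m (nat_lit 0x157c9e0)) e) e) e))) (c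
  (c (c (c (m (nat_lit 0x680c16)) (c (m (nat_lit 0x649d0a)) e)) (c (c (m (nat_lit 0xcb0850)) e) e)) (c (c (c
  (m (nat_lit 0x8411b8)) e) e) e)) (c (c (c (c (p (nat_lit 0x6bf55c)) e) e) e) e))) (c (c (c (c (c (m
  (nat_lit 0x13efaa4)) (c (p (nat_lit 0x140a8fa)) e)) (c (c (m (nat_lit 0x672cd2)) e) e)) (c (c (c (p
  (nat_lit 0x180b6b2)) e) e) e)) (c (c (c (c (p (nat_lit 0xedabc)) e) e) e) e)) (c (c (c (c (c (p (nat_lit
  0x4f35cc)) e) e) e) e) e))) (c (c (c (c (c (c (p (nat_lit 0x108b7ae)) (c (m (nat_lit 0xfff40e)) e)) (c (c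
  (m (nat_lit 0x7d1522)) e) e)) (c (c (c (m (nat_lit 0x1cfc06e)) e) e) e)) (c (c (c (c (m (nat_lit 0x3d7400))
  e) e) e) e)) (c (c (c (c (c (m (nat_lit 0x8e06f8)) e) e) e) e) e)) (c (c (c (c (c (c (m (nat_lit 0x1b00c0))
  e) e) e) e) e) e))) (c (c (c (c (c (c (c (m (nat_lit 0x938be2a)) (c (p (nat_lit 0x1177038)) e)) (c (c (p
  (nat_lit 0x12b17a4)) e) e)) (c (c (c (p (nat_lit 0x548f184)) e) e) e)) (c (c (c (c (m (nat_lit 0x157074))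
  e) e) e) e)) (c (c (c (c (c (m (nat_lit 0x15310ce)) e) e) e) e) e)) (c (c (c (c (c (c (p (nat_lit
  0x1daa1b8)) e) e) e) e) e) e)) (c (c (c (c (c (c (c (m (nat_lit 0x30d014)) e) e) e) e) e) e) e)))) (c (c (c
  (c (c (c (c (c (p (nat_lit 0x391fb54)) (c (m (nat_lit 0xeaa4a)) (c (m (nat_lit 0x189468)) e))) (c (c (m
  (nat_lit 0xd45f9e)) (c (m (nat_lit 0x21196e)) e)) (c (c (p (nat_lit 0x5d1a34)) e) e))) (c (c (c (m (nat_lit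
  0x2f5cb6c)) (c (p (nat_lit 0x3f10b0)) e)) (c (c (p (nat_lit 0x53f47e)) e) e)) (c (c (c (p (nat_lit
  0x27771c0)) e) e) e))) (c (c (c (c (m (nat_lit 0x39ec946)) (c (p (nat_lit 0x2537fa)) e)) (c (c (p (nat_lit
  0x70e018)) e) e)) (c (c (c (p (nat_lit 0x7f5564)) e) e) e)) (c (c (c (c (p (nat_lit 0x27770c4)) e) e) e)
  e))) (c (c (c (c (c (m (nat_lit 0xa0df2e)) (c (m (nat_lit 0x9d20c0)) e)) (c (c (p (nat_lit 0x16b2e2c)) e)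
  e)) (c (c (c (p (nat_lit 0x70e000)) e) e) e)) (c (c (c (c (p (nat_lit 0x53f448)) e) e) e) e)) (c (c (c (c
  (c (p (nat_lit 0x5d1a40)) e) e) e) e) e))) (c (c (c (c (c (c (m (nat_lit 0x616a22)) (c (p (nat_lit
  0x572b8c)) e)) (c (c (m (nat_lit 0x9d20c0)) e) e)) (c (c (c (p (nat_lit 0x2537f4)) e) e) e)) (c (c (c (c (p
  (nat_lit 0x3f1080)) e) e) e) e)) (c (c (c (c (c (m (nat_lit 0x211980)) e) e) e) e) e)) (c (c (c (c (c (c (m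
  (nat_lit 0x189468)) e) e) e) e) e) e))) (c (c (c (c (c (c (c (m (nat_lit 0xb62494)) (c (m (nat_lit
  0xed73e6)) e)) (c (c (p (nat_lit 0x720138)) e) e)) (c (c (c (m (nat_lit 0x2694456)) e) e) e)) (c (c (c (c
  (m (nat_lit 0x49ca6a)) e) e) e) e)) (c (c (c (c (c (p (nat_lit 0x173bb6)) e) e) e) e) e)) (c (c (c (c (c (c
  (p (nat_lit 0xcf0bee)) e) e) e) e) e) e)) (c (c (c (c (c (c (c (p (nat_lit 0x1b76db8)) e) e) e) e) e) e)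
  e))) (c (c (c (c (c (c (c (c (m (nat_lit 0xf247fe)) (c (p (nat_lit 0x908ce8)) e)) (c (c (m (nat_lit
  0xa0f26c)) e) e)) (c (c (c (p (nat_lit 0x2671d4)) e) e) e)) (c (c (c (c (p (nat_lit 0x2671ce)) e) e) e) e))
  (c (c (c (c (c (m (nat_lit 0xa0f26c)) e) e) e) e) e)) (c (c (c (c (c (c (p (nat_lit 0x908cd0)) e) e) e) e)
  e) e)) (c (c (c (c (c (c (c (p (nat_lit 0x27ae96)) e) e) e) e) e) e) e)) (c (c (c (c (c (c (c (c (p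
  (nat_lit 0x3b0c40)) e) e) e) e) e) e) e) e))))) (c (c (c (c (c (c (c (c (c (p (nat_lit 0x16c4118)) (c (m
  (nat_lit 0x33cb82)) (c (p (nat_lit 0xe49c0)) e))) (c (c (m (nat_lit 0x5ef2cc)) (c (m (nat_lit 0xb414be))
  e)) (c (c (p (nat_lit 0x37e660)) e) e))) (c (c (c (m (nat_lit 0x2238348)) (c (m (nat_lit 0x5dce58)) e)) (c
  (c (m (nat_lit 0x626ad2)) e) e)) (c (c (c (m (nat_lit 0x433110)) e) e) e))) (c (c (c (c (p (nat_lit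
  0x358e684)) (c (m (nat_lit 0x61f7cee)) (c (p (nat_lit 0x73ebb8)) e))) (c (c (p (nat_lit 0x1a1bc9a)) (c (p
  (nat_lit 0x4be940)) e)) (c (c (m (nat_lit 0x4b8778)) e) e))) (c (c (c (m (nat_lit 0x362fe92)) (c (p
  (nat_lit 0xa3c5cc)) e)) (c (c (p (nat_lit 0xb7ad58)) e) e)) (c (c (c (m (nat_lit 0x2e54b0)) e) e) e))) (c
  (c (c (c (m (nat_lit 0x23e0ac4)) (c (p (nat_lit 0x23dcc24)) e)) (c (c (m (nat_lit 0xf23ba4)) e) e)) (c (c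
  (c (p (nat_lit 0x1ea8120)) e) e) e)) e))) (c (c (c (c (c (p (nat_lit 0x2cddc2c)) (c (m (nat_lit 0xf5c418))
  (c (m (nat_lit 0x1a601c)) e))) (c (c (m (nat_lit 0x1f90e)) (c (p (nat_lit 0x9ca698)) e)) (c (c (p (nat_lit
  0x3e259c)) e) e))) (c (c (c (m (nat_lit 0x6fb05e)) (c (p (nat_lit 0x41c3b8)) e)) (c (c (p (nat_lit
  0x6d90d4)) e) e)) (c (c (c (p (nat_lit 0xf3b730)) e) e) e))) (c (c (c (c (p (nat_lit 0x14a25e)) (c (p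
  (nat_lit 0x12b0784)) e)) (c (c (m (nat_lit 0x110d30)) e) e)) (c (c (c (p (nat_lit 0x16ff8)) e) e) e)) e))
  (c (c (c (c (c (m (nat_lit 0x11abb8)) (c (m (nat_lit 0x8a18e4)) e)) (c (c (m (nat_lit 0x21c552)) e) e)) (c
  (c (c (m (nat_lit 0x8e4436)) e) e) e)) e) e))) (c (c (c (c (c (c (m (nat_lit 0x12321ea)) (c (p (nat_lit
  0x36ba18)) (c (p (nat_lit 0x2679f0)) e))) (c (c (p (nat_lit 0xa68ed6)) (c (p (nat_lit 0x8ae7d8)) e)) (c (c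
  (m (nat_lit 0x17feec)) e) e))) (c (c (c (p (nat_lit 0x16545e4)) (c (p (nat_lit 0x4ddb34)) e)) (c (c (p
  (nat_lit 0x6bca24)) e) e)) (c (c (c (m (nat_lit 0xafb5a0)) e) e) e))) (c (c (c (c (m (nat_lit 0x8fe0a4)) (c
  (p (nat_lit 0xd997dc)) e)) (c (c (m (nat_lit 0x5160c6)) e) e)) (c (c (c (m (nat_lit 0x32e56c)) e) e) e))
  e)) (c (c (c (c (c (p (nat_lit 0x1fe84)) (c (m (nat_lit 0x2263bc)) e)) (c (c (p (nat_lit 0xfe4)) e) e)) (c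
  (c (c (p (nat_lit 0x5337d8)) e) e) e)) e) e)) (c (c (c (c (c (c (p (nat_lit 0x3f2b14)) (c (m (nat_lit
  0xe604a2)) e)) (c (c (p (nat_lit 0x125460)) e) e)) (c (c (c (p (nat_lit 0x7338)) e) e) e)) e) e) e))) (c (c
  (c (c (c (c (c (p (nat_lit 0x2794674)) (c (p (nat_lit 0xb116b6)) (c (p (nat_lit 0x2a8544)) e))) (c (c (m
  (nat_lit 0x12d7f04)) (c (m (nat_lit 0x4b633c)) e)) (c (c (p (nat_lit 0x15f0b4)) e) e))) (c (c (c (m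
  (nat_lit 0x5b0848)) (c (p (nat_lit 0x88d724)) e)) (c (c (m (nat_lit 0x12e0c4)) e) e)) (c (c (c (m (nat_lit
  0x155580)) e) e) e))) (c (c (c (c (p (nat_lit 0x109286a)) (c (p (nat_lit 0x6ffd14)) e)) (c (c (p (nat_lit
  0xc1c08)) e) e)) (c (c (c (p (nat_lit 0x19b3ba0)) e) e) e)) (c (c (c (c (m (nat_lit 0x15558c)) e) e) e)
  e))) (c (c (c (c (c (m (nat_lit 0x13fe41a)) (c (p (nat_lit 0xd09c5c)) e)) (c (c (p (nat_lit 0x609ea0)) e)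
  e)) (c (c (c (p (nat_lit 0xe5177e)) e) e) e)) (c (c (c (c (m (nat_lit 0x12e0ca)) e) e) e) e)) (c (c (c (c
  (c (p (nat_lit 0x15f0cc)) e) e) e) e) e))) (c (c (c (c (c (c (m (nat_lit 0xd9c4b2)) (c (p (nat_lit
  0x265f1a)) e)) (c (c (m (nat_lit 0xd7625c)) e) e)) (c (c (c (p (nat_lit 0xec22)) e) e) e)) (c (c (c (c (p
  (nat_lit 0x88d724)) e) e) e) e)) (c (c (c (c (c (m (nat_lit 0x4b6378)) e) e) e) e) e)) (c (c (c (c (c (c (p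
  (nat_lit 0x2a8550)) e) e) e) e) e) e))) (c (c (c (c (c (c (c (m (nat_lit 0x528dd3a)) (c (m (nat_lit
  0xe7f43e)) e)) (c (c (p (nat_lit 0xd0ad1e)) e) e)) (c (c (c (p (nat_lit 0x1c76916)) e) e) e)) (c (c (c (c
  (m (nat_lit 0x16a4e16)) e) e) e) e)) (c (c (c (c (c (m (nat_lit 0x111b4ea)) e) e) e) e) e)) (c (c (c (c (c
  (c (p (nat_lit 0x27a3452)) e) e) e) e) e) e)) (c (c (c (c (c (c (c (p (nat_lit 0xdc4df0)) e) e) e) e) e) e)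
  e)))) (c (c (c (c (c (c (c (c (m (nat_lit 0x37b15c)) (c (p (nat_lit 0xa9d3a6)) (c (m (nat_lit 0x1b00c0))
  e))) (c (c (m (nat_lit 0xfb6472)) (c (m (nat_lit 0x8e0704)) e)) (c (c (p (nat_lit 0x4f35c0)) e) e))) (c (c
  (c (p (nat_lit 0xbf4f36)) (c (m (nat_lit 0x3d7400)) e)) (c (c (p (nat_lit 0xedab0)) e) e)) (c (c (c (p
  (nat_lit 0x6bf490)) e) e) e))) (c (c (c (c (p (nat_lit 0x14ceb5a)) (c (p (nat_lit 0x440e80)) e)) (c (c (m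
  (nat_lit 0x74ee48)) e) e)) (c (c (c (m (nat_lit 0x73be76)) e) e) e)) (c (c (c (c (m (nat_lit 0x157c9a4)) e)
  e) e) e))) (c (c (c (c (c (m (nat_lit 0x9a4db4)) (c (p (nat_lit 0xe604c)) e)) (c (c (m (nat_lit 0x4655d0))
  e) e)) (c (c (c (m (nat_lit 0x3de870)) e) e) e)) (c (c (c (c (m (nat_lit 0x6b3e2)) e) e) e) e)) (c (c (c (c
  (c (p (nat_lit 0xe553ba)) e) e) e) e) e))) (c (c (c (c (c (c (p (nat_lit 0x6f86b2)) (c (p (nat_lit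
  0x4733b8)) e)) (c (c (m (nat_lit 0x225ea0)) e) e)) (c (c (c (m (nat_lit 0x68c202)) e) e) e)) (c (c (c (c (m
  (nat_lit 0x4abbe4)) e) e) e) e)) (c (c (c (c (c (m (nat_lit 0x116fac)) e) e) e) e) e)) (c (c (c (c (c (c (m
  (nat_lit 0x47fc28)) e) e) e) e) e) e))) (c (c (c (c (c (c (c (m (nat_lit 0x9fb9d0)) (c (p (nat_lit
  0x9cf6d2)) e)) (c (c (p (nat_lit 0xb83d9a)) e) e)) (c (c (c (m (nat_lit 0xf66828)) e) e) e)) (c (c (c (c (p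
  (nat_lit 0x314c5e)) e) e) e) e)) (c (c (c (c (c (m (nat_lit 0x713b56)) e) e) e) e) e)) (c (c (c (c (c (c (p
  (nat_lit 0x4d8662)) e) e) e) e) e) e)) (c (c (c (c (c (c (c (p (nat_lit 0x186a49a)) e) e) e) e) e) e) e)))
  (c (c (c (c (c (c (c (c (m (nat_lit 0xc07fd4)) (c (p (nat_lit 0xca3968)) e)) (c (c (p (nat_lit 0x57f852))
  e) e)) (c (c (c (m (nat_lit 0x689652)) e) e) e)) (c (c (c (c (p (nat_lit 0xfe56da)) e) e) e) e)) (c (c (c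
  (c (c (p (nat_lit 0x1be334)) e) e) e) e) e)) (c (c (c (c (c (c (p (nat_lit 0x3d1ca)) e) e) e) e) e) e)) (c
  (c (c (c (c (c (c (m (nat_lit 0x9173fa)) e) e) e) e) e) e) e)) (c (c (c (c (c (c (c (c (m (nat_lit
  0x44305e)) e) e) e) e) e) e) e) e)))) (c (c (c (c (c (c (c (c (c (m (nat_lit 0x108a8f6)) (c (p (nat_lit
  0x1dede2)) (c (m (nat_lit 0x1c179c)) e))) (c (c (m (nat_lit 0x112dce2)) (c (p (nat_lit 0x3c6ace)) e)) (c (c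
  (m (nat_lit 0x5fe164)) e) e))) (c (c (c (p (nat_lit 0x389d144)) (c (m (nat_lit 0x8c3fe2)) e)) (c (c (m
  (nat_lit 0x12784e)) e) e)) (c (c (c (m (nat_lit 0x1910370)) e) e) e))) (c (c (c (c (p (nat_lit 0xb9127c))
  (c (m (nat_lit 0xad3cb8)) e)) (c (c (p (nat_lit 0x94f758)) e) e)) (c (c (c (m (nat_lit 0x4a1b88)) e) e) e))
  (c (c (c (c (m (nat_lit 0x9dd6c4)) e) e) e) e))) (c (c (c (c (c (m (nat_lit 0x1641258)) (c (p (nat_lit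
  0x1da21c)) e)) (c (c (p (nat_lit 0x32de04)) e) e)) (c (c (c (m (nat_lit 0x459f30)) e) e) e)) (c (c (c (c (m
  (nat_lit 0x784152)) e) e) e) e)) (c (c (c (c (c (p (nat_lit 0x144c24)) e) e) e) e) e))) (c (c (c (c (c (c
  (m (nat_lit 0x1be904)) (c (p (nat_lit 0x58017c)) e)) (c (c (p (nat_lit 0x799e90)) e) e)) (c (c (c (m
  (nat_lit 0x2fecc8)) e) e) e)) (c (c (c (c (m (nat_lit 0x6176c4)) e) e) e) e)) (c (c (c (c (c (p (nat_lit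
  0x255a68)) e) e) e) e) e)) (c (c (c (c (c (c (m (nat_lit 0xf00ba)) e) e) e) e) e) e))) (c (c (c (c (c (c (c
  (p (nat_lit 0x124cd4)) (c (p (nat_lit 0xd0d130)) e)) (c (c (p (nat_lit 0xf1c66e)) e) e)) (c (c (c (m
  (nat_lit 0x13abd3a)) e) e) e)) (c (c (c (c (m (nat_lit 0x378d98)) e) e) e) e)) (c (c (c (c (c (p (nat_lit
  0x89be54)) e) e) e) e) e)) (c (c (c (c (c (c (m (nat_lit 0xbdcc36)) e) e) e) e) e) e)) (c (c (c (c (c (c (c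
  (p (nat_lit 0xa7fb1a)) e) e) e) e) e) e) e))) (c (c (c (c (c (c (c (c (m (nat_lit 0x160782)) (c (m (nat_lit
  0xe03178)) e)) (c (c (p (nat_lit 0x5aa2fc)) e) e)) (c (c (c (m (nat_lit 0x679e0)) e) e) e)) (c (c (c (c (m
  (nat_lit 0x474846)) e) e) e) e)) (c (c (c (c (c (p (nat_lit 0xcbae1c)) e) e) e) e) e)) (c (c (c (c (c (c (p
  (nat_lit 0x26c544)) e) e) e) e) e) e)) (c (c (c (c (c (c (c (m (nat_lit 0x75dc26)) e) e) e) e) e) e) e)) (c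
  (c (c (c (c (c (c (c (p (nat_lit 0x2cb284)) e) e) e) e) e) e) e) e))) (c (c (c (c (c (c (c (c (c (p
  (nat_lit 0x3ce0be)) (c (p (nat_lit 0x1049d84)) e)) (c (c (m (nat_lit 0x20dfc0)) e) e)) (c (c (c (p (nat_lit
  0x7a773e)) e) e) e)) (c (c (c (c (p (nat_lit 0x8e3b9c)) e) e) e) e)) (c (c (c (c (c (p (nat_lit 0x5d46f8))
  e) e) e) e) e)) (c (c (c (c (c (c (p (nat_lit 0x4e3ba0)) e) e) e) e) e) e)) (c (c (c (c (c (c (c (m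
  (nat_lit 0x548a36)) e) e) e) e) e) e) e)) (c (c (c (c (c (c (c (c (m (nat_lit 0x15594c)) e) e) e) e) e) e)
  e) e)) (c (c (c (c (c (c (c (c (c (m (nat_lit 0x67d4c0)) e) e) e) e) e) e) e) e) e)))))

noncomputable def gt_0_1_5 : Tr :=
  (c (c (c (c (c (c (c (c (c (m (nat_lit 0x2f15cca)) (c (p (nat_lit 0x1ef4482)) (c (p (nat_lit 0x6d424a))
  e))) (c (c (p (nat_lit 0xad142c)) (c (m (nat_lit 0x613968)) e)) (c (c (p (nat_lit 0x9e8d7c)) e) e))) (c (c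
  (c (p (nat_lit 0x2ebd068)) (c (m (nat_lit 0x1d402e8)) e)) (c (c (p (nat_lit 0x9751e0)) e) e)) (c (c (c (p
  (nat_lit 0x448bc6)) e) e) e))) (c (c (c (c (p (nat_lit 0x1d3b392)) (c (m (nat_lit 0x92625ba)) (c (m
  (nat_lit 0x2a83a9c)) e))) (c (c (m (nat_lit 0x1fb9c84)) (c (p (nat_lit 0x1271724)) e)) (c (c (m (nat_lit
  0x1061010)) e) e))) (c (c (c (p (nat_lit 0xb05b42)) (c (p (nat_lit 0x4265898)) e)) (c (c (m (nat_lit
  0x1da972c)) e) e)) (c (c (c (m (nat_lit 0xe97ccc)) e) e) e))) (c (c (c (c (m (nat_lit 0x20c373c)) (c (p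
  (nat_lit 0x4e613bc)) (c (p (nat_lit 0x2b5927c)) e))) (c (c (m (nat_lit 0x1210c14)) (c (m (nat_lit
  0x75aa64)) e)) (c (c (p (nat_lit 0x1565ab4)) e) e))) (c (c (c (m (nat_lit 0x164d0)) (c (m (nat_lit
  0x15163c8)) e)) (c (c (p (nat_lit 0x13c29c0)) e) e)) (c (c (c (p (nat_lit 0x591be8)) e) e) e))) e))) (c (c
  (c (c (c (m (nat_lit 0xb9136c)) (c (m (nat_lit 0x3596e14)) (c (p (nat_lit 0x22e8e8)) e))) (c (c (m (nat_lit
  0x1c76ce8)) (c (p (nat_lit 0xabe658)) e)) (c (c (m (nat_lit 0x7c2a8)) e) e))) (c (c (c (m (nat_lit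
  0x4a28fc)) (c (p (nat_lit 0xedaa6a)) e)) (c (c (m (nat_lit 0x1092fc)) e) e)) (c (c (c (p (nat_lit
  0xb7a110)) e) e) e))) (c (c (c (c (m (nat_lit 0xd2bfd0)) (c (p (nat_lit 0x164f78a)) (c (p (nat_lit
  0x635964)) e))) (c (c (p (nat_lit 0x109f20)) (c (m (nat_lit 0x3b34cc)) e)) (c (c (p (nat_lit 0x5d0b0a)) e)
  e))) (c (c (c (p (nat_lit 0xbf72a0)) (c (m (nat_lit 0x6b441a)) e)) (c (c (p (nat_lit 0x5dc666)) e) e)) (c
  (c (c (m (nat_lit 0xd715a0)) e) e) e))) e)) (c (c (c (c (c (m (nat_lit 0xee2714)) (c (p (nat_lit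
  0x180a70a)) (c (m (nat_lit 0x5e5750)) e))) (c (c (m (nat_lit 0x2085ae)) (c (m (nat_lit 0x125cb2)) e)) (c (c
  (p (nat_lit 0x4e35e8)) e) e))) (c (c (c (m (nat_lit 0xf302be)) (c (p (nat_lit 0xad6f40)) e)) (c (c (m
  (nat_lit 0x7bd06e)) e) e)) (c (c (c (p (nat_lit 0x6ced6)) e) e) e))) e) e))) (c (c (c (c (c (c (m (nat_lit
  0x99bd36)) (c (p (nat_lit 0xba7aa0)) (c (m (nat_lit 0x4f8762)) e))) (c (c (m (nat_lit 0x22fd95e)) (c (m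
  (nat_lit 0x124428)) e)) (c (c (p (nat_lit 0x8e7610)) e) e))) (c (c (c (m (nat_lit 0x137ca66)) (c (p
  (nat_lit 0xc7a958)) e)) (c (c (m (nat_lit 0x4513e0)) e) e)) (c (c (c (m (nat_lit 0xd92bd6)) e) e) e))) (c
  (c (c (c (m (nat_lit 0x19a2a4)) (c (p (nat_lit 0x16fc374)) (c (m (nat_lit 0x4a73ba)) e))) (c (c (p (nat_lit
  0x36161a)) (c (m (nat_lit 0x18cdec)) e)) (c (c (m (nat_lit 0x2d6f5a)) e) e))) (c (c (c (p (nat_lit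
  0xbfafa2)) (c (p (nat_lit 0x21ada)) e)) (c (c (p (nat_lit 0x388ffe)) e) e)) (c (c (c (m (nat_lit 0x53ba0a))
  e) e) e))) e)) (c (c (c (c (c (p (nat_lit 0x166974)) (c (p (nat_lit 0xbceac4)) (c (p (nat_lit 0x6facf8))
  e))) (c (c (p (nat_lit 0x151e144)) (c (m (nat_lit 0x12b538)) e)) (c (c (m (nat_lit 0xe373c0)) e) e))) (c (c
  (c (p (nat_lit 0x5471b8)) (c (m (nat_lit 0x179bd4)) e)) (c (c (p (nat_lit 0x4e0)) e) e)) (c (c (c (m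
  (nat_lit 0x10d98d4)) e) e) e))) e) e)) (c (c (c (c (c (c (m (nat_lit 0x390192)) (c (m (nat_lit 0x905364))
  (c (p (nat_lit 0x18fca2)) e))) (c (c (p (nat_lit 0x386016)) (c (p (nat_lit 0x28292a)) e)) (c (c (m (nat_lit
  0x75a320)) e) e))) (c (c (c (p (nat_lit 0x10fbe8e)) (c (p (nat_lit 0x438d0e)) e)) (c (c (p (nat_lit
  0x231be2)) e) e)) (c (c (c (m (nat_lit 0x33b094)) e) e) e))) e) e) e))) (c (c (c (c (c (c (c (p (nat_lit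
  0x6404d8a)) (c (m (nat_lit 0x735d14)) (c (m (nat_lit 0xce3bce)) e))) (c (c (m (nat_lit 0x1bf22e)) (c (m
  (nat_lit 0x66971a)) e)) (c (c (m (nat_lit 0x5b2cf6)) e) e))) (c (c (c (p (nat_lit 0x155c700)) (c (m
  (nat_lit 0x4aba4)) e)) (c (c (m (nat_lit 0xc39a8)) e) e)) (c (c (c (m (nat_lit 0x317490)) e) e) e))) (c (c
  (c (c (m (nat_lit 0x30e943c)) (c (p (nat_lit 0x3117fc0)) (c (m (nat_lit 0xd0806)) e))) (c (c (p (nat_lit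
  0xed1f62)) (c (m (nat_lit 0x43ad8a)) e)) (c (c (m (nat_lit 0x255348)) e) e))) (c (c (c (p (nat_lit
  0x1d9daaa)) (c (m (nat_lit 0x689f70)) e)) (c (c (m (nat_lit 0x7168bc)) e) e)) (c (c (c (m (nat_lit
  0x7fa910)) e) e) e))) (c (c (c (c (p (nat_lit 0xba9774)) (c (m (nat_lit 0x2ad52f4)) e)) (c (c (p (nat_lit
  0x131adc8)) e) e)) (c (c (c (m (nat_lit 0x15c5c88)) e) e) e)) e))) (c (c (c (c (c (p (nat_lit 0x179443e))
  (c (p (nat_lit 0x1565598)) (c (p (nat_lit 0x103c4dc)) e))) (c (c (p (nat_lit 0x1983d68)) (c (p (nat_lit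
  0x5c67c)) e)) (c (c (p (nat_lit 0x7fa6ee)) e) e))) (c (c (c (p (nat_lit 0x981c1e)) (c (m (nat_lit
  0x3c060c)) e)) (c (c (p (nat_lit 0x6680ee)) e) e)) (c (c (c (m (nat_lit 0xd591c2)) e) e) e))) (c (c (c (c
  (m (nat_lit 0x2f220)) (c (p (nat_lit 0xa866ae)) e)) (c (c (p (nat_lit 0x37a052)) e) e)) (c (c (c (m
  (nat_lit 0x23029e)) e) e) e)) e)) (c (c (c (c (c (p (nat_lit 0x1d9a60)) (c (p (nat_lit 0x1064ac)) e)) (c (c
  (p (nat_lit 0x2c6cd6)) e) e)) (c (c (c (p (nat_lit 0x124794)) e) e) e)) e) e))) (c (c (c (c (c (c (p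
  (nat_lit 0xd3097a)) (c (m (nat_lit 0x1ee60e2)) (c (p (nat_lit 0x3b946c)) e))) (c (c (p (nat_lit 0x135fd8))
  (c (p (nat_lit 0x33f30c)) e)) (c (c (p (nat_lit 0x1187388)) e) e))) (c (c (c (m (nat_lit 0x4e68bb6)) (c (m
  (nat_lit 0xffeb74)) e)) (c (c (p (nat_lit 0x537534)) e) e)) (c (c (c (p (nat_lit 0xff5160)) e) e) e))) (c
  (c (c (c (m (nat_lit 0xd2ee86)) (c (p (nat_lit 0x2de4b4)) e)) (c (c (p (nat_lit 0x4b184e)) e) e)) (c (c (c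
  (p (nat_lit 0x4f41d8)) e) e) e)) e)) (c (c (c (c (c (m (nat_lit 0xafb8f4)) (c (m (nat_lit 0x389ab4)) e)) (c
  (c (p (nat_lit 0xfb958)) e) e)) (c (c (c (p (nat_lit 0xa43a48)) e) e) e)) e) e)) (c (c (c (c (c (c (m
  (nat_lit 0x41e49a)) (c (p (nat_lit 0x3a5024)) e)) (c (c (m (nat_lit 0x1bb808)) e) e)) (c (c (c (m (nat_lit
  0x46240e)) e) e) e)) e) e) e))) (c (c (c (c (c (c (c (m (nat_lit 0x3d82fbe)) (c (p (nat_lit 0xbeb7c2)) (c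
  (m (nat_lit 0x657468)) e))) (c (c (m (nat_lit 0xcf042)) (c (m (nat_lit 0x2022b4)) e)) (c (c (m (nat_lit
  0x6542d6)) e) e))) (c (c (c (m (nat_lit 0x52af070)) (c (p (nat_lit 0xe4c72)) e)) (c (c (m (nat_lit
  0xb8c9e)) e) e)) (c (c (c (m (nat_lit 0x3d853a)) e) e) e))) (c (c (c (c (m (nat_lit 0x1a30808)) (c (p
  (nat_lit 0x136f266)) e)) (c (c (m (nat_lit 0x6797a0)) e) e)) (c (c (c (p (nat_lit 0x59caf6)) e) e) e)) (c
  (c (c (c (p (nat_lit 0x50cb80)) e) e) e) e))) (c (c (c (c (c (m (nat_lit 0x17c3bc2)) (c (m (nat_lit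
  0xdc70a0)) e)) (c (c (m (nat_lit 0xf51c60)) e) e)) (c (c (c (p (nat_lit 0x5e7d4e)) e) e) e)) (c (c (c (c (p
  (nat_lit 0x6439c8)) e) e) e) e)) (c (c (c (c (c (m (nat_lit 0x58120e)) e) e) e) e) e))) (c (c (c (c (c (c
  (p (nat_lit 0x3ba6d8c)) (c (p (nat_lit 0x3aa6b8)) e)) (c (c (p (nat_lit 0x122910)) e) e)) (c (c (c (p
  (nat_lit 0x4952154)) e) e) e)) (c (c (c (c (p (nat_lit 0x70d490)) e) e) e) e)) (c (c (c (c (c (p (nat_lit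
  0x9e4210)) e) e) e) e) e)) (c (c (c (c (c (c (m (nat_lit 0x7d36a)) e) e) e) e) e) e))) (c (c (c (c (c (c (c
  (p (nat_lit 0x616946a)) (c (m (nat_lit 0x3488f4)) e)) (c (c (p (nat_lit 0x3ca488)) e) e)) (c (c (c (p
  (nat_lit 0x2d45d08)) e) e) e)) (c (c (c (c (p (nat_lit 0x2f78b32)) e) e) e) e)) (c (c (c (c (c (p (nat_lit
  0x6fee98)) e) e) e) e) e)) (c (c (c (c (c (c (m (nat_lit 0x30e4c8a)) e) e) e) e) e) e)) (c (c (c (c (c (c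
  (c (m (nat_lit 0x4b11946)) e) e) e) e) e) e) e))))) (c (c (c (c (c (c (c (c (p (nat_lit 0x3b96838)) (c (m
  (nat_lit 0xd170e4)) (c (p (nat_lit 0x4e33d2)) e))) (c (c (m (nat_lit 0x122e632)) (c (m (nat_lit 0x166f20))
  e)) (c (c (p (nat_lit 0x39c582)) e) e))) (c (c (c (m (nat_lit 0x339e526)) (c (m (nat_lit 0x213be2)) e)) (c
  (c (m (nat_lit 0x7173c)) e) e)) (c (c (c (p (nat_lit 0x13647c6)) e) e) e))) (c (c (c (c (m (nat_lit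
  0x86a702)) (c (p (nat_lit 0x6770df0)) (c (m (nat_lit 0x5bb72c)) e))) (c (c (p (nat_lit 0x304aa6c)) (c (m
  (nat_lit 0x36096c)) e)) (c (c (m (nat_lit 0x5898d2)) e) e))) (c (c (c (p (nat_lit 0x36ede94)) (c (m
  (nat_lit 0x227784)) e)) (c (c (m (nat_lit 0x247272)) e) e)) (c (c (c (m (nat_lit 0x14d9c0)) e) e) e))) (c
  (c (c (c (p (nat_lit 0x2a4e270)) (c (m (nat_lit 0x2fe9410)) e)) (c (c (m (nat_lit 0x21b829c)) e) e)) (c (c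
  (c (m (nat_lit 0x18ab90c)) e) e) e)) e))) (c (c (c (c (c (p (nat_lit 0x396d3da)) (c (p (nat_lit 0x1dadfc8))
  (c (m (nat_lit 0x9a2054)) e))) (c (c (p (nat_lit 0x413b9fe)) (c (m (nat_lit 0x100c7e8)) e)) (c (c (m
  (nat_lit 0x258a830)) e) e))) (c (c (c (m (nat_lit 0xc21cae)) (c (m (nat_lit 0xcb9e20)) e)) (c (c (m
  (nat_lit 0x7f7880)) e) e)) (c (c (c (m (nat_lit 0x96d194)) e) e) e))) (c (c (c (c (p (nat_lit 0xb42784)) (c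
  (m (nat_lit 0xd64370)) e)) (c (c (m (nat_lit 0xec56da)) e) e)) (c (c (c (m (nat_lit 0x775362)) e) e) e))
  e)) (c (c (c (c (c (p (nat_lit 0x1841ba4)) (c (p (nat_lit 0x9cd14)) e)) (c (c (m (nat_lit 0xf8aef4)) e) e))
  (c (c (c (m (nat_lit 0x55b01e)) e) e) e)) e) e))) (c (c (c (c (c (c (p (nat_lit 0x1074bb8)) (c (p (nat_lit
  0x17eb23a)) (c (m (nat_lit 0x62f10)) e))) (c (c (p (nat_lit 0x172e786)) (c (p (nat_lit 0x336ec4)) e)) (c (c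
  (p (nat_lit 0x1351c8)) e) e))) (c (c (c (m (nat_lit 0x9ec166)) (c (p (nat_lit 0x14b3b0)) e)) (c (c (p
  (nat_lit 0x721c9e)) e) e)) (c (c (c (p (nat_lit 0x6ab912)) e) e) e))) (c (c (c (c (m (nat_lit 0x87fc9c)) (c
  (p (nat_lit 0x32af36)) e)) (c (c (m (nat_lit 0x78384c)) e) e)) (c (c (c (p (nat_lit 0x3495c0)) e) e) e))
  e)) (c (c (c (c (c (m (nat_lit 0x79ba2c)) (c (p (nat_lit 0x618c)) e)) (c (c (p (nat_lit 0x5de70c)) e) e))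
  (c (c (c (p (nat_lit 0xe63f4)) e) e) e)) e) e)) (c (c (c (c (c (c (p (nat_lit 0x4b80d6)) (c (m (nat_lit
  0x3aa1c)) e)) (c (c (p (nat_lit 0x20f736)) e) e)) (c (c (c (p (nat_lit 0x217eba)) e) e) e)) e) e) e))) (c
  (c (c (c (c (c (c (m (nat_lit 0x425a86a)) (c (m (nat_lit 0xd3ebc4)) (c (p (nat_lit 0x1a8b0c)) e))) (c (c (m
  (nat_lit 0x1093f50)) (c (p (nat_lit 0x145d58)) e)) (c (c (p (nat_lit 0x3aaea4)) e) e))) (c (c (c (p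
  (nat_lit 0x2d5b146)) (c (m (nat_lit 0x794844)) e)) (c (c (m (nat_lit 0x4c33c8)) e) e)) (c (c (c (p (nat_lit
  0xb1ca14)) e) e) e))) (c (c (c (c (m (nat_lit 0x18fd344)) (c (m (nat_lit 0x13c7a30)) e)) (c (c (m (nat_lit
  0xa1ba34)) e) e)) (c (c (c (m (nat_lit 0x19e6714)) e) e) e)) (c (c (c (c (p (nat_lit 0x1c729d4)) e) e) e)
  e))) (c (c (c (c (c (m (nat_lit 0x25ef342)) (c (m (nat_lit 0x2746134)) e)) (c (c (m (nat_lit 0x132ecf4)) e)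
  e)) (c (c (c (p (nat_lit 0x488fd0)) e) e) e)) (c (c (c (c (p (nat_lit 0x120fa8)) e) e) e) e)) (c (c (c (c
  (c (p (nat_lit 0x723eee)) e) e) e) e) e))) (c (c (c (c (c (c (m (nat_lit 0x19fe828)) (c (p (nat_lit
  0xd786bc)) e)) (c (c (m (nat_lit 0x1d3f82c)) e) e)) (c (c (c (m (nat_lit 0x7eae0c)) e) e) e)) (c (c (c (c
  (p (nat_lit 0x74a)) e) e) e) e)) (c (c (c (c (c (m (nat_lit 0x432084)) e) e) e) e) e)) (c (c (c (c (c (c (p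
  (nat_lit 0x4abc80)) e) e) e) e) e) e))) (c (c (c (c (c (c (c (m (nat_lit 0x2b397d6)) (c (m (nat_lit
  0x9288ea)) e)) (c (c (p (nat_lit 0x2ffbaee)) e) e)) (c (c (c (m (nat_lit 0x6a0de8)) e) e) e)) (c (c (c (c
  (m (nat_lit 0x14f9fe2)) e) e) e) e)) (c (c (c (c (c (p (nat_lit 0x22bd42e)) e) e) e) e) e)) (c (c (c (c (c
  (c (m (nat_lit 0x1822632)) e) e) e) e) e) e)) (c (c (c (c (c (c (c (p (nat_lit 0x372e580)) e) e) e) e) e)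
  e) e)))) (c (c (c (c (c (c (c (c (m (nat_lit 0x2a6431a)) (c (m (nat_lit 0x1839f6)) (c (m (nat_lit
  0x12e11e)) e))) (c (c (m (nat_lit 0x11e928a)) (c (p (nat_lit 0x5012e2)) e)) (c (c (p (nat_lit 0x84944a)) e)
  e))) (c (c (c (p (nat_lit 0x1016afc)) (c (p (nat_lit 0x5d9ab6)) e)) (c (c (p (nat_lit 0x2e442a)) e) e)) (c
  (c (c (m (nat_lit 0xcb358)) e) e) e))) (c (c (c (c (m (nat_lit 0x3249b10)) (c (p (nat_lit 0x1597b72)) e))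
  (c (c (p (nat_lit 0x14512f2)) e) e)) (c (c (c (p (nat_lit 0xe28318)) e) e) e)) (c (c (c (c (m (nat_lit
  0x3dc0c8)) e) e) e) e))) (c (c (c (c (c (m (nat_lit 0x458676c)) (c (p (nat_lit 0xcc8658)) e)) (c (c (p
  (nat_lit 0x3347c70)) e) e)) (c (c (c (p (nat_lit 0x10fa10c)) e) e) e)) (c (c (c (c (p (nat_lit 0x225d74))
  e) e) e) e)) (c (c (c (c (c (m (nat_lit 0x8cce44)) e) e) e) e) e))) (c (c (c (c (c (c (p (nat_lit
  0x17398e)) (c (m (nat_lit 0x62ec02)) e)) (c (c (m (nat_lit 0x123fc8a)) e) e)) (c (c (c (m (nat_lit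
  0x1637dc)) e) e) e)) (c (c (c (c (m (nat_lit 0x17eb72)) e) e) e) e)) (c (c (c (c (c (m (nat_lit 0x52344))
  e) e) e) e) e)) (c (c (c (c (c (c (m (nat_lit 0x45b676)) e) e) e) e) e) e))) (c (c (c (c (c (c (c (p
  (nat_lit 0x2611b24)) (c (p (nat_lit 0x3e628)) e)) (c (c (m (nat_lit 0x10c18c2)) e) e)) (c (c (c (m (nat_lit
  0xe4cc90)) e) e) e)) (c (c (c (c (p (nat_lit 0x19fedc2)) e) e) e) e)) (c (c (c (c (c (m (nat_lit 0x92b2a2))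
  e) e) e) e) e)) (c (c (c (c (c (c (p (nat_lit 0x1b21ba6)) e) e) e) e) e) e)) (c (c (c (c (c (c (c (m
  (nat_lit 0x1303692)) e) e) e) e) e) e) e))) (c (c (c (c (c (c (c (c (p (nat_lit 0x2068674)) (c (m (nat_lit
  0x60571e)) e)) (c (c (m (nat_lit 0x1377eca)) e) e)) (c (c (c (m (nat_lit 0x45d8f0)) e) e) e)) (c (c (c (c
  (m (nat_lit 0x22f530)) e) e) e) e)) (c (c (c (c (c (p (nat_lit 0x1652400)) e) e) e) e) e)) (c (c (c (c (c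
  (c (m (nat_lit 0x5d10f8)) e) e) e) e) e) e)) (c (c (c (c (c (c (c (p (nat_lit 0x9ad1f0)) e) e) e) e) e) e)
  e)) (c (c (c (c (c (c (c (c (m (nat_lit 0x703e36)) e) e) e) e) e) e) e) e))))) (c (c (c (c (c (c (c (c (c
  (p (nat_lit 0x1afb7c4)) (c (p (nat_lit 0x198400e)) (c (p (nat_lit 0x997362)) e))) (c (c (p (nat_lit
  0x193674c)) (c (m (nat_lit 0x4a5998)) e)) (c (c (m (nat_lit 0x1886af0)) e) e))) (c (c (c (m (nat_lit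
  0x14ae0fa)) (c (m (nat_lit 0x5eb096)) e)) (c (c (m (nat_lit 0x40907a)) e) e)) (c (c (c (m (nat_lit
  0xfc96c0)) e) e) e))) (c (c (c (c (p (nat_lit 0x191bf56)) (c (m (nat_lit 0x1750b66)) (c (m (nat_lit
  0x2d0eb8)) e))) (c (c (p (nat_lit 0x15d2e10)) (c (p (nat_lit 0x849b40)) e)) (c (c (p (nat_lit 0x2c1198)) e)
  e))) (c (c (c (m (nat_lit 0x2c17902)) (c (m (nat_lit 0x194d6c)) e)) (c (c (p (nat_lit 0x413964)) e) e)) (c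
  (c (c (m (nat_lit 0x30a6b0)) e) e) e))) (c (c (c (c (m (nat_lit 0x24c2bf8)) (c (p (nat_lit 0x17fcbec)) e))
  (c (c (m (nat_lit 0x73212c)) e) e)) (c (c (c (p (nat_lit 0x2693ac0)) e) e) e)) e))) (c (c (c (c (c (p
  (nat_lit 0x1218a32)) (c (p (nat_lit 0xc31b18)) (c (m (nat_lit 0x67ef18)) e))) (c (c (p (nat_lit 0x3ba7a4))
  (c (m (nat_lit 0x2037e4)) e)) (c (c (p (nat_lit 0x1565e5c)) e) e))) (c (c (c (p (nat_lit 0x150390)) (c (m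
  (nat_lit 0x86eb60)) e)) (c (c (p (nat_lit 0x7d2d88)) e) e)) (c (c (c (p (nat_lit 0x12dd3c4)) e) e) e))) (c
  (c (c (c (p (nat_lit 0xdeeca)) (c (p (nat_lit 0xc3a8c6)) e)) (c (c (m (nat_lit 0xef9c4)) e) e)) (c (c (c (p
  (nat_lit 0xf0252)) e) e) e)) e)) (c (c (c (c (c (p (nat_lit 0xbe38)) (c (p (nat_lit 0x1672c2)) e)) (c (c (m
  (nat_lit 0x9a704)) e) e)) (c (c (c (m (nat_lit 0x24cc0)) e) e) e)) e) e))) (c (c (c (c (c (c (p (nat_lit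
  0x20e32f0)) (c (m (nat_lit 0x112abbc)) (c (m (nat_lit 0xf0543c)) e))) (c (c (p (nat_lit 0xee9e24)) (c (m
  (nat_lit 0xa2954)) e)) (c (c (m (nat_lit 0x1865a0)) e) e))) (c (c (c (m (nat_lit 0x11cc16)) (c (p (nat_lit
  0x38e4b8)) e)) (c (c (m (nat_lit 0x24069c)) e) e)) (c (c (c (m (nat_lit 0x1b8568)) e) e) e))) (c (c (c (c
  (p (nat_lit 0x31290c)) (c (p (nat_lit 0x74b368)) e)) (c (c (m (nat_lit 0x38f79c)) e) e)) (c (c (c (m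
  (nat_lit 0xf4d10)) e) e) e)) e)) (c (c (c (c (c (p (nat_lit 0x81b2a4)) (c (m (nat_lit 0x20b350)) e)) (c (c
  (m (nat_lit 0x551118)) e) e)) (c (c (c (m (nat_lit 0xa37ef8)) e) e) e)) e) e)) (c (c (c (c (c (c (m
  (nat_lit 0x6b9a06)) (c (m (nat_lit 0x351f78)) e)) (c (c (p (nat_lit 0x5ae3be)) e) e)) (c (c (c (p (nat_lit
  0x430068)) e) e) e)) e) e) e))) (c (c (c (c (c (c (c (m (nat_lit 0x3d8a8ae)) (c (p (nat_lit 0x60a48e)) (c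
  (p (nat_lit 0x2eed2c)) e))) (c (c (p (nat_lit 0x176d00)) (c (p (nat_lit 0x8ff040)) e)) (c (c (p (nat_lit
  0xa0c74)) e) e))) (c (c (c (p (nat_lit 0x5f67c6)) (c (p (nat_lit 0x2d8640)) e)) (c (c (m (nat_lit
  0x41817c)) e) e)) (c (c (c (p (nat_lit 0x6afda0)) e) e) e))) (c (c (c (c (p (nat_lit 0x544c818)) (c (m
  (nat_lit 0x9dbd08)) e)) (c (c (m (nat_lit 0x93996c)) e) e)) (c (c (c (m (nat_lit 0x3dc34a)) e) e) e)) (c (c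
  (c (c (p (nat_lit 0x1050534)) e) e) e) e))) (c (c (c (c (c (p (nat_lit 0xb47212)) (c (m (nat_lit 0xad5314))
  e)) (c (c (m (nat_lit 0xd75c9e)) e) e)) (c (c (c (p (nat_lit 0xb0ce4a)) e) e) e)) (c (c (c (c (m (nat_lit
  0x46f1ac)) e) e) e) e)) (c (c (c (c (c (m (nat_lit 0x138768)) e) e) e) e) e))) (c (c (c (c (c (c (p
  (nat_lit 0x348ac8)) (c (p (nat_lit 0x72730e)) e)) (c (c (m (nat_lit 0x4e)) e) e)) (c (c (c (p (nat_lit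
  0x13bc24c)) e) e) e)) (c (c (c (c (m (nat_lit 0x3c9cc0)) e) e) e) e)) (c (c (c (c (c (m (nat_lit 0x1fc0e0))
  e) e) e) e) e)) (c (c (c (c (c (c (p (nat_lit 0x37be46)) e) e) e) e) e) e))) (c (c (c (c (c (c (c (m
  (nat_lit 0x1e68fb2)) (c (m (nat_lit 0x1052a)) e)) (c (c (p (nat_lit 0x171f7e)) e) e)) (c (c (c (m (nat_lit
  0x42cfd8)) e) e) e)) (c (c (c (c (m (nat_lit 0x5622e82)) e) e) e) e)) (c (c (c (c (c (m (nat_lit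
  0x1fa2950)) e) e) e) e) e)) (c (c (c (c (c (c (m (nat_lit 0x17e6d5e)) e) e) e) e) e) e)) (c (c (c (c (c (c
  (c (p (nat_lit 0x29f0652)) e) e) e) e) e) e) e)))) (c (c (c (c (c (c (c (c (m (nat_lit 0x34e5da2)) (c (m
  (nat_lit 0x253ec30)) (c (m (nat_lit 0x1f38cc)) e))) (c (c (p (nat_lit 0x593a)) (c (m (nat_lit 0x34788)) e))
  (c (c (p (nat_lit 0x68ee24)) e) e))) (c (c (c (p (nat_lit 0x1e433f2)) (c (p (nat_lit 0x899040)) e)) (c (c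
  (m (nat_lit 0x162fb4)) e) e)) (c (c (c (p (nat_lit 0x681fc)) e) e) e))) (c (c (c (c (p (nat_lit 0x9aed62))
  (c (p (nat_lit 0x59494e)) e)) (c (c (m (nat_lit 0x731580)) e) e)) (c (c (c (m (nat_lit 0x6be4d6)) e) e) e))
  (c (c (c (c (m (nat_lit 0x7fa640)) e) e) e) e))) (c (c (c (c (c (p (nat_lit 0x18814e)) (c (p (nat_lit
  0x19e5e8)) e)) (c (c (m (nat_lit 0x1537c08)) e) e)) (c (c (c (m (nat_lit 0xa6b7bc)) e) e) e)) (c (c (c (c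
  (p (nat_lit 0x718176)) e) e) e) e)) (c (c (c (c (c (p (nat_lit 0x644538)) e) e) e) e) e))) (c (c (c (c (c
  (c (m (nat_lit 0x1155d1a)) (c (p (nat_lit 0x86db1c)) e)) (c (c (m (nat_lit 0x5911ec)) e) e)) (c (c (c (p
  (nat_lit 0xef262)) e) e) e)) (c (c (c (c (p (nat_lit 0x2480a0)) e) e) e) e)) (c (c (c (c (c (p (nat_lit
  0x4f4064)) e) e) e) e) e)) (c (c (c (c (c (c (m (nat_lit 0x710736)) e) e) e) e) e) e))) (c (c (c (c (c (c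
  (c (p (nat_lit 0x34ebed4)) (c (p (nat_lit 0x77afc0)) e)) (c (c (p (nat_lit 0x59c4c0)) e) e)) (c (c (c (p
  (nat_lit 0x49d79c)) e) e) e)) (c (c (c (c (p (nat_lit 0xcaee4)) e) e) e) e)) (c (c (c (c (c (p (nat_lit
  0x8c2134)) e) e) e) e) e)) (c (c (c (c (c (c (p (nat_lit 0x162683a)) e) e) e) e) e) e)) (c (c (c (c (c (c
  (c (m (nat_lit 0x15a2402)) e) e) e) e) e) e) e))) (c (c (c (c (c (c (c (c (p (nat_lit 0x2dee1dc)) (c (m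
  (nat_lit 0x1fdd78)) e)) (c (c (p (nat_lit 0x53e968)) e) e)) (c (c (c (m (nat_lit 0xf45762)) e) e) e)) (c (c
  (c (c (m (nat_lit 0x3b3772)) e) e) e) e)) (c (c (c (c (c (m (nat_lit 0x1982538)) e) e) e) e) e)) (c (c (c
  (c (c (c (p (nat_lit 0xa516c2)) e) e) e) e) e) e)) (c (c (c (c (c (c (c (m (nat_lit 0x1d33730)) e) e) e) e)
  e) e) e)) (c (c (c (c (c (c (c (c (p (nat_lit 0x76632)) e) e) e) e) e) e) e) e)))) (c (c (c (c (c (c (c (c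
  (c (p (nat_lit 0xc35310)) (c (m (nat_lit 0x752472)) (c (p (nat_lit 0x3e4096)) e))) (c (c (m (nat_lit
  0x1f2934e)) (c (m (nat_lit 0x713fa)) e)) (c (c (p (nat_lit 0xaff0b0)) e) e))) (c (c (c (m (nat_lit
  0x1d324d6)) (c (p (nat_lit 0xb49a8)) e)) (c (c (p (nat_lit 0x2b5aa4)) e) e)) (c (c (c (p (nat_lit
  0xf252e4)) e) e) e))) (c (c (c (c (p (nat_lit 0x2303dc)) (c (p (nat_lit 0x645180)) e)) (c (c (p (nat_lit
  0x2307f0)) e) e)) (c (c (c (p (nat_lit 0xf622bc)) e) e) e)) (c (c (c (c (m (nat_lit 0x134b980)) e) e) e)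
  e))) (c (c (c (c (c (m (nat_lit 0x86176e)) (c (p (nat_lit 0x1389018)) e)) (c (c (p (nat_lit 0x805344)) e)
  e)) (c (c (c (p (nat_lit 0x399eac)) e) e) e)) (c (c (c (c (m (nat_lit 0x796272)) e) e) e) e)) (c (c (c (c
  (c (p (nat_lit 0x5dd2)) e) e) e) e) e))) (c (c (c (c (c (c (m (nat_lit 0x1859892)) (c (p (nat_lit
  0x11846b8)) e)) (c (c (p (nat_lit 0xa3e3cc)) e) e)) (c (c (c (p (nat_lit 0xb830bc)) e) e) e)) (c (c (c (c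
  (m (nat_lit 0x4a4cf0)) e) e) e) e)) (c (c (c (c (c (m (nat_lit 0x534c84)) e) e) e) e) e)) (c (c (c (c (c (c
  (m (nat_lit 0x345960)) e) e) e) e) e) e))) (c (c (c (c (c (c (c (m (nat_lit 0x10fef6)) (c (m (nat_lit
  0xcb0a60)) e)) (c (c (m (nat_lit 0x8006fa)) e) e)) (c (c (c (m (nat_lit 0x2905e)) e) e) e)) (c (c (c (c (m
  (nat_lit 0x9f2f34)) e) e) e) e)) (c (c (c (c (c (m (nat_lit 0xb34390)) e) e) e) e) e)) (c (c (c (c (c (c (m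
  (nat_lit 0x3b3e02)) e) e) e) e) e) e)) (c (c (c (c (c (c (c (p (nat_lit 0x214ca1c)) e) e) e) e) e) e) e)))
  (c (c (c (c (c (c (c (c (p (nat_lit 0x6d9cb6)) (c (m (nat_lit 0x984768)) e)) (c (c (m (nat_lit 0x12bb20))
  e) e)) (c (c (c (m (nat_lit 0x12f078)) e) e) e)) (c (c (c (c (p (nat_lit 0x140fc4)) e) e) e) e)) (c (c (c
  (c (c (p (nat_lit 0xab6fd8)) e) e) e) e) e)) (c (c (c (c (c (c (p (nat_lit 0xa5492)) e) e) e) e) e) e)) (c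
  (c (c (c (c (c (c (m (nat_lit 0xc68e9e)) e) e) e) e) e) e) e)) (c (c (c (c (c (c (c (c (p (nat_lit
  0x92ff64)) e) e) e) e) e) e) e) e))) (c (c (c (c (c (c (c (c (c (p (nat_lit 0x46090e)) (c (m (nat_lit
  0x51d854)) e)) (c (c (p (nat_lit 0x8cf874)) e) e)) (c (c (c (p (nat_lit 0x76911c)) e) e) e)) (c (c (c (c (p
  (nat_lit 0x8a82c8)) e) e) e) e)) (c (c (c (c (c (p (nat_lit 0x7f4370)) e) e) e) e) e)) (c (c (c (c (c (c (p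
  (nat_lit 0xc37824)) e) e) e) e) e) e)) (c (c (c (c (c (c (c (m (nat_lit 0xdf3ecc)) e) e) e) e) e) e) e)) (c
  (c (c (c (c (c (c (c (p (nat_lit 0x115cec)) e) e) e) e) e) e) e) e)) (c (c (c (c (c (c (c (c (c (m (nat_lit
  0x2d031e)) e) e) e) e) e) e) e) e) e)))))

noncomputable def gt_0_1_6 : Tr :=
  (c (c (c (c (c (c (c (c (c (m (nat_lit 0x4c41f18)) (c (p (nat_lit 0x41653f8)) (c (m (nat_lit 0x3357e7c))
  e))) (c (c (p (nat_lit 0x5846010)) (c (m (nat_lit 0x1198d46)) e)) (c (c (m (nat_lit 0x3cd752c)) e) e))) (c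
  (c (c (p (nat_lit 0x5e9c356)) (c (m (nat_lit 0x1198cce)) e)) (c (c (m (nat_lit 0x1500af8)) e) e)) (c (c (c
  (m (nat_lit 0x3cd7574)) e) e) e))) (c (c (c (c (p (nat_lit 0x23adc20)) (c (m (nat_lit 0x49ac712)) (c (p
  (nat_lit 0x65ad968)) e))) (c (c (m (nat_lit 0xa3c8246)) (c (p (nat_lit 0x305ef38)) e)) (c (c (p (nat_lit
  0xa86d218)) e) e))) (c (c (c (m (nat_lit 0xaae2420)) (c (p (nat_lit 0x305ef38)) e)) (c (c (p (nat_lit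
  0x2482530)) e) e)) (c (c (c (p (nat_lit 0xa86d2f0)) e) e) e))) (c (c (c (c (m (nat_lit 0x4642c68)) (c (m
  (nat_lit 0xad5bf0)) (c (m (nat_lit 0x2070ffc)) e))) (c (c (p (nat_lit 0x83dfb88)) (c (m (nat_lit
  0x20d3d80)) e)) (c (c (m (nat_lit 0x8851e78)) e) e))) (c (c (c (p (nat_lit 0x83dfc30)) (c (m (nat_lit
  0x20d3d74)) e)) (c (c (p (nat_lit 0xbd5b50)) e) e)) (c (c (c (m (nat_lit 0x8851ec0)) e) e) e))) e))) (c (c
  (c (c (c (m (nat_lit 0x1ea2822)) (c (m (nat_lit 0x18b070)) (c (p (nat_lit 0xa311fc)) e))) (c (c (m (nat_lit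
  0x1204a3a)) (c (p (nat_lit 0x42d614)) e)) (c (c (p (nat_lit 0xa5da10)) e) e))) (c (c (c (m (nat_lit
  0x1ae7c52)) (c (m (nat_lit 0x5d1aa6)) e)) (c (c (p (nat_lit 0x111879c)) e) e)) (c (c (c (p (nat_lit
  0x31841f4)) e) e) e))) (c (c (c (c (m (nat_lit 0x2c981a)) (c (p (nat_lit 0xf6f144)) (c (m (nat_lit
  0xbf06f4)) e))) (c (c (p (nat_lit 0x7304a0)) (c (m (nat_lit 0x69874e)) e)) (c (c (m (nat_lit 0x8c33dc)) e)
  e))) (c (c (c (p (nat_lit 0x147c234)) (c (m (nat_lit 0x303ac2)) e)) (c (c (m (nat_lit 0xf76f98)) e) e)) (c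
  (c (c (m (nat_lit 0xdfb600)) e) e) e))) e)) (c (c (c (c (c (m (nat_lit 0x891cba)) (c (m (nat_lit
  0x1157f22)) (c (p (nat_lit 0x8eb444)) e))) (c (c (p (nat_lit 0x4d8fbc)) (c (p (nat_lit 0x4d537a)) e)) (c (c
  (p (nat_lit 0x526b9c)) e) e))) (c (c (c (p (nat_lit 0xbceb9c)) (c (p (nat_lit 0x24405c)) e)) (c (c (p
  (nat_lit 0x6ad790)) e) e)) (c (c (c (m (nat_lit 0x9165c0)) e) e) e))) e) e))) (c (c (c (c (c (c (p (nat_lit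
  0x1a0cf34)) (c (m (nat_lit 0x10ddae0)) (c (p (nat_lit 0xa311ba)) e))) (c (c (m (nat_lit 0x32f384a)) (c (m
  (nat_lit 0x5d1a94)) e)) (c (c (p (nat_lit 0x3184164)) e) e))) (c (c (c (m (nat_lit 0x2b4f2e0)) (c (p
  (nat_lit 0x42d5f0)) e)) (c (c (p (nat_lit 0x1118778)) e) e)) (c (c (c (p (nat_lit 0xa5da40)) e) e) e))) (c
  (c (c (c (m (nat_lit 0x2c97ba)) (c (p (nat_lit 0xf6f02a)) (c (m (nat_lit 0xbf06dc)) e))) (c (c (p (nat_lit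
  0x147c21c)) (c (m (nat_lit 0x303abc)) e)) (c (c (m (nat_lit 0xdfb60c)) e) e))) (c (c (c (p (nat_lit
  0x7304d0)) (c (m (nat_lit 0x698754)) e)) (c (c (m (nat_lit 0xf76f74)) e) e)) (c (c (c (m (nat_lit
  0x8c33d0)) e) e) e))) e)) (c (c (c (c (c (m (nat_lit 0x6f3cc0)) (c (m (nat_lit 0x2a5b5e4)) (c (p (nat_lit
  0x14e308c)) e))) (c (c (p (nat_lit 0x559fb0)) (c (p (nat_lit 0x46d6d0)) e)) (c (c (m (nat_lit 0x73da0)) e)
  e))) (c (c (c (p (nat_lit 0x559fb0)) (c (p (nat_lit 0x46d6dc)) e)) (c (c (m (nat_lit 0xe39220)) e) e)) (c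
  (c (c (m (nat_lit 0x73da0)) e) e) e))) e) e)) (c (c (c (c (c (c (m (nat_lit 0x891cd2)) (c (m (nat_lit
  0x1157f28)) (c (p (nat_lit 0x8eb450)) e))) (c (c (p (nat_lit 0xbceb90)) (c (p (nat_lit 0x24406e)) e)) (c (c
  (m (nat_lit 0x9165a8)) e) e))) (c (c (c (p (nat_lit 0x4d8fd4)) (c (p (nat_lit 0x4d5374)) e)) (c (c (p
  (nat_lit 0x6ad784)) e) e)) (c (c (c (p (nat_lit 0x526ba8)) e) e) e))) e) e) e))) (c (c (c (c (c (c (c (p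
  (nat_lit 0x6a61d60)) (c (m (nat_lit 0x3bff09a)) (c (p (nat_lit 0x8fe104)) e))) (c (c (m (nat_lit
  0x169fc5c)) (c (m (nat_lit 0x4cc3b6)) e)) (c (c (p (nat_lit 0x142ec0)) e) e))) (c (c (c (p (nat_lit
  0x42d62a2)) (c (p (nat_lit 0x4b66d8)) e)) (c (c (p (nat_lit 0x32fac0)) e) e)) (c (c (c (m (nat_lit
  0x1786638)) e) e) e))) (c (c (c (c (m (nat_lit 0x434ff34)) (c (p (nat_lit 0x750f54)) (c (m (nat_lit
  0x72cc7e)) e))) (c (c (m (nat_lit 0x1f5bc46)) (c (p (nat_lit 0x1f89b4)) e)) (c (c (p (nat_lit 0xfd99d4)) e)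
  e))) (c (c (c (m (nat_lit 0x37f6326)) (c (m (nat_lit 0x3656e8)) e)) (c (c (m (nat_lit 0xb738c4)) e) e)) (c
  (c (c (p (nat_lit 0x724068)) e) e) e))) (c (c (c (c (p (nat_lit 0x43dd9a8)) (c (m (nat_lit 0x616ff8)) e))
  (c (c (m (nat_lit 0x218220)) e) e)) (c (c (c (p (nat_lit 0x10f5828)) e) e) e)) e))) (c (c (c (c (c (p
  (nat_lit 0x33372c0)) (c (m (nat_lit 0x16eb0b8)) (c (m (nat_lit 0x1c874a)) e))) (c (c (m (nat_lit
  0x224e320)) (c (p (nat_lit 0x2c0c4)) e)) (c (c (m (nat_lit 0x1a8cf8)) e) e))) (c (c (c (m (nat_lit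
  0x6a164c)) (c (p (nat_lit 0x47cdc)) e)) (c (c (p (nat_lit 0x188664)) e) e)) (c (c (c (m (nat_lit 0xf4f9bc))
  e) e) e))) (c (c (c (c (m (nat_lit 0xbf6d0)) (c (p (nat_lit 0x337248)) e)) (c (c (p (nat_lit 0x669d02)) e)
  e)) (c (c (c (p (nat_lit 0xb9c682)) e) e) e)) e)) (c (c (c (c (c (p (nat_lit 0xc77d2a)) (c (p (nat_lit
  0x3aec72)) e)) (c (c (m (nat_lit 0x3ceb5c)) e) e)) (c (c (c (m (nat_lit 0x3f8f46)) e) e) e)) e) e))) (c (c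
  (c (c (c (c (m (nat_lit 0x5fcb8)) (c (m (nat_lit 0x10c98c)) (c (m (nat_lit 0x7674c)) e))) (c (c (p (nat_lit
  0x1aac540)) (c (p (nat_lit 0x175a94)) e)) (c (c (m (nat_lit 0x5d27f0)) e) e))) (c (c (c (m (nat_lit
  0x5eae782)) (c (m (nat_lit 0x48f630)) e)) (c (c (m (nat_lit 0xb52660)) e) e)) (c (c (c (p (nat_lit
  0x9d5de0)) e) e) e))) (c (c (c (c (p (nat_lit 0x48d200)) (c (m (nat_lit 0x272be6)) e)) (c (c (p (nat_lit
  0x243b64)) e) e)) (c (c (c (p (nat_lit 0xa0f758)) e) e) e)) e)) (c (c (c (c (c (p (nat_lit 0xa0d3a0)) (c (p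
  (nat_lit 0xfbb2c)) e)) (c (c (p (nat_lit 0xce1e4)) e) e)) (c (c (c (p (nat_lit 0x2441c4)) e) e) e)) e) e))
  (c (c (c (c (c (c (m (nat_lit 0xe7989a)) (c (p (nat_lit 0x51f342)) e)) (c (c (p (nat_lit 0x928cb6)) e) e))
  (c (c (c (m (nat_lit 0x1d29ec)) e) e) e)) e) e) e))) (c (c (c (c (c (c (c (p (nat_lit 0x1ceb04c)) (c (p
  (nat_lit 0x4e58d4c)) (c (m (nat_lit 0x655d34)) e))) (c (c (m (nat_lit 0xc048ba)) (c (p (nat_lit 0xe99a0))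
  e)) (c (c (p (nat_lit 0xce0574)) e) e))) (c (c (c (m (nat_lit 0x85b480c)) (c (p (nat_lit 0x17fcb2)) e)) (c
  (c (m (nat_lit 0x38eaf4)) e) e)) (c (c (c (m (nat_lit 0x8f4cc)) e) e) e))) (c (c (c (c (m (nat_lit
  0x45e88b4)) (c (p (nat_lit 0x1511c04)) e)) (c (c (p (nat_lit 0x99be5c)) e) e)) (c (c (c (p (nat_lit
  0x26d5af0)) e) e) e)) (c (c (c (c (p (nat_lit 0x58db98)) e) e) e) e))) (c (c (c (c (c (m (nat_lit
  0x57a59f0)) (c (p (nat_lit 0xca6230)) e)) (c (c (p (nat_lit 0x236d6ea)) e) e)) (c (c (c (p (nat_lit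
  0xa1a594)) e) e) e)) (c (c (c (c (p (nat_lit 0x4567aa)) e) e) e) e)) (c (c (c (c (c (m (nat_lit 0x3a301a))
  e) e) e) e) e))) (c (c (c (c (c (c (p (nat_lit 0x3cde31e)) (c (p (nat_lit 0x904266)) e)) (c (c (p (nat_lit
  0x324bc4)) e) e)) (c (c (c (p (nat_lit 0x3e42148)) e) e) e)) (c (c (c (c (p (nat_lit 0x423bd6)) e) e) e)
  e)) (c (c (c (c (c (p (nat_lit 0x71820c)) e) e) e) e) e)) (c (c (c (c (c (c (m (nat_lit 0x2a5808)) e) e) e)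
  e) e) e))) (c (c (c (c (c (c (c (p (nat_lit 0x3dec582)) (c (m (nat_lit 0x26010d8)) e)) (c (c (p (nat_lit
  0x660012)) e) e)) (c (c (c (p (nat_lit 0x3886a82)) e) e) e)) (c (c (c (c (p (nat_lit 0x3e67bee)) e) e) e)
  e)) (c (c (c (c (c (p (nat_lit 0x248856c)) e) e) e) e) e)) (c (c (c (c (c (c (m (nat_lit 0x3a8749a)) e) e)
  e) e) e) e)) (c (c (c (c (c (c (c (m (nat_lit 0x5697ff6)) e) e) e) e) e) e) e))))) (c (c (c (c (c (c (c (c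
  (p (nat_lit 0x6f0d03e)) (c (m (nat_lit 0x2ca2568)) (c (p (nat_lit 0x8fe15e)) e))) (c (c (p (nat_lit
  0xaec546)) (c (p (nat_lit 0x4b66fc)) e)) (c (c (m (nat_lit 0x1786620)) e) e))) (c (c (c (m (nat_lit
  0x2d94902)) (c (m (nat_lit 0x4cc392)) e)) (c (c (p (nat_lit 0x32fafc)) e) e)) (c (c (c (p (nat_lit
  0x142ef0)) e) e) e))) (c (c (c (c (m (nat_lit 0x31fb672)) (c (p (nat_lit 0x2515e78)) (c (m (nat_lit
  0x72cc6c)) e))) (c (c (m (nat_lit 0x1d93e7a)) (c (m (nat_lit 0x3656e8)) e)) (c (c (p (nat_lit 0x72405c)) e)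
  e))) (c (c (c (m (nat_lit 0xbb1a54)) (c (p (nat_lit 0x1f89b4)) e)) (c (c (m (nat_lit 0xb7387c)) e) e)) (c
  (c (c (p (nat_lit 0xfd99b0)) e) e) e))) (c (c (c (c (p (nat_lit 0x43dd8dc)) (c (m (nat_lit 0x616fe0)) e))
  (c (c (p (nat_lit 0x10f5834)) e) e)) (c (c (c (m (nat_lit 0x218154)) e) e) e)) e))) (c (c (c (c (c (p
  (nat_lit 0x61b1ab8)) (c (m (nat_lit 0x4a0838)) (c (m (nat_lit 0x76770)) e))) (c (c (m (nat_lit 0x37eb490))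
  (c (m (nat_lit 0x48f648)) e)) (c (c (p (nat_lit 0x9d5df8)) e) e))) (c (c (c (m (nat_lit 0xd56c0)) (c (p
  (nat_lit 0x175a94)) e)) (c (c (m (nat_lit 0xb52660)) e) e)) (c (c (c (m (nat_lit 0x5d2820)) e) e) e))) (c
  (c (c (c (p (nat_lit 0x48d1f4)) (c (m (nat_lit 0x272bec)) e)) (c (c (p (nat_lit 0xa0f75e)) e) e)) (c (c (c
  (p (nat_lit 0x243b6a)) e) e) e)) e)) (c (c (c (c (c (m (nat_lit 0xe7987c)) (c (p (nat_lit 0x51f342)) e)) (c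
  (c (m (nat_lit 0x1d29fe)) e) e)) (c (c (c (p (nat_lit 0x928cb0)) e) e) e)) e) e))) (c (c (c (c (c (c (m
  (nat_lit 0x2f8ca7c)) (c (p (nat_lit 0x9170ca)) (c (m (nat_lit 0x1c8750)) e))) (c (c (p (nat_lit 0x12a65d2))
  (c (p (nat_lit 0x47cdc)) e)) (c (c (m (nat_lit 0xf4f9bc)) e) e))) (c (c (c (p (nat_lit 0x155d63c)) (c (p
  (nat_lit 0x2c0b8)) e)) (c (c (p (nat_lit 0x188688)) e) e)) (c (c (c (m (nat_lit 0x1a8d1c)) e) e) e))) (c (c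
  (c (c (m (nat_lit 0xbf6d6)) (c (p (nat_lit 0x337254)) e)) (c (c (p (nat_lit 0xb9c664)) e) e)) (c (c (c (p
  (nat_lit 0x669cf6)) e) e) e)) e)) (c (c (c (c (c (p (nat_lit 0xa0d3ac)) (c (p (nat_lit 0xfbb2c)) e)) (c (c
  (p (nat_lit 0x2441b8)) e) e)) (c (c (c (p (nat_lit 0xce1cc)) e) e) e)) e) e)) (c (c (c (c (c (c (p (nat_lit
  0xc77d30)) (c (p (nat_lit 0x3aec84)) e)) (c (c (m (nat_lit 0x3f8f4c)) e) e)) (c (c (c (m (nat_lit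
  0x3ceb68)) e) e) e)) e) e) e))) (c (c (c (c (c (c (c (m (nat_lit 0xe72a7c8)) (c (p (nat_lit 0x42b8b78)) (c
  (m (nat_lit 0xf8ee30)) e))) (c (c (p (nat_lit 0x44090c4)) (c (m (nat_lit 0x7260f0)) e)) (c (c (m (nat_lit
  0xa78d40)) e) e))) (c (c (c (p (nat_lit 0x422579a)) (c (m (nat_lit 0x7260fc)) e)) (c (c (p (nat_lit
  0xce43d8)) e) e)) (c (c (c (m (nat_lit 0xa78d70)) e) e) e))) (c (c (c (c (p (nat_lit 0x495710a)) (c (p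
  (nat_lit 0x4282ce)) e)) (c (c (m (nat_lit 0x7d07ea)) e) e)) (c (c (c (m (nat_lit 0xeea844)) e) e) e)) (c (c
  (c (c (m (nat_lit 0x253647c)) e) e) e) e))) (c (c (c (c (c (m (nat_lit 0x31f8576)) (c (p (nat_lit
  0x4bbe32)) e)) (c (c (m (nat_lit 0x25d32e)) e) e)) (c (c (c (p (nat_lit 0x16b6d3e)) e) e) e)) (c (c (c (c
  (m (nat_lit 0x43b9a2)) e) e) e) e)) (c (c (c (c (c (p (nat_lit 0x216c)) e) e) e) e) e))) (c (c (c (c (c (c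
  (p (nat_lit 0x3417f96)) (c (m (nat_lit 0xa96b9c)) e)) (c (c (m (nat_lit 0x154e5a)) e) e)) (c (c (c (m
  (nat_lit 0x1ba7c04)) e) e) e)) (c (c (c (c (m (nat_lit 0x43b99c)) e) e) e) e)) (c (c (c (c (c (m (nat_lit
  0xca4544)) e) e) e) e) e)) (c (c (c (c (c (c (p (nat_lit 0x2172)) e) e) e) e) e) e))) (c (c (c (c (c (c (c
  (m (nat_lit 0xe1e9a0)) (c (m (nat_lit 0x16d01f6)) e)) (c (c (m (nat_lit 0x143235c)) e) e)) (c (c (c (p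
  (nat_lit 0x705c54)) e) e) e)) (c (c (c (c (m (nat_lit 0x3c94e72)) e) e) e) e)) (c (c (c (c (c (p (nat_lit
  0x398934)) e) e) e) e) e)) (c (c (c (c (c (c (m (nat_lit 0x1b3cfa2)) e) e) e) e) e) e)) (c (c (c (c (c (c
  (c (p (nat_lit 0x5b6778a)) e) e) e) e) e) e) e)))) (c (c (c (c (c (c (c (c (m (nat_lit 0xcd23cc)) (c (p
  (nat_lit 0x1955070)) (c (m (nat_lit 0x655d28)) e))) (c (c (m (nat_lit 0x107e41c)) (c (p (nat_lit 0x17fcb2))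
  e)) (c (c (m (nat_lit 0x8f4e4)) e) e))) (c (c (c (p (nat_lit 0xb7c678)) (c (p (nat_lit 0xe999a)) e)) (c (c
  (m (nat_lit 0x38eb00)) e) e)) (c (c (c (p (nat_lit 0xce0580)) e) e) e))) (c (c (c (c (m (nat_lit
  0x1a6cbce)) (c (m (nat_lit 0x8b337a)) e)) (c (c (p (nat_lit 0x5595de)) e) e)) (c (c (c (m (nat_lit
  0x2f4462)) e) e) e)) (c (c (c (c (p (nat_lit 0x58db8c)) e) e) e) e))) (c (c (c (c (c (m (nat_lit
  0x25c3a7c)) (c (m (nat_lit 0x2ba844)) e)) (c (c (m (nat_lit 0x1cbac8)) e) e)) (c (c (c (p (nat_lit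
  0x69ac14)) e) e) e)) (c (c (c (c (p (nat_lit 0x423be2)) e) e) e) e)) (c (c (c (c (c (m (nat_lit 0x2a5808))
  e) e) e) e) e))) (c (c (c (c (c (c (m (nat_lit 0xf9a61a)) (c (m (nat_lit 0x4095b4)) e)) (c (c (p (nat_lit
  0x8de4c0)) e) e)) (c (c (c (p (nat_lit 0x50c6e8)) e) e) e)) (c (c (c (c (p (nat_lit 0x4567aa)) e) e) e) e))
  (c (c (c (c (c (p (nat_lit 0x718218)) e) e) e) e) e)) (c (c (c (c (c (c (m (nat_lit 0x3a3014)) e) e) e) e)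
  e) e))) (c (c (c (c (c (c (c (p (nat_lit 0x7cd94fc)) (c (m (nat_lit 0x46ea2c)) e)) (c (c (p (nat_lit
  0xab9c0)) e) e)) (c (c (c (m (nat_lit 0x12528ae)) e) e) e)) (c (c (c (c (p (nat_lit 0xf726cc)) e) e) e) e))
  (c (c (c (c (c (p (nat_lit 0x175e750)) e) e) e) e) e)) (c (c (c (c (c (c (p (nat_lit 0x8d3120)) e) e) e) e)
  e) e)) (c (c (c (c (c (c (c (m (nat_lit 0x4dc0058)) e) e) e) e) e) e) e))) (c (c (c (c (c (c (c (c (p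
  (nat_lit 0x1c11d8)) (c (m (nat_lit 0x59ee0)) e)) (c (c (p (nat_lit 0x190800)) e) e)) (c (c (c (m (nat_lit
  0x82620)) e) e) e)) (c (c (c (c (p (nat_lit 0x1977f0)) e) e) e) e)) (c (c (c (c (c (m (nat_lit 0x1478a0))
  e) e) e) e) e)) (c (c (c (c (c (c (p (nat_lit 0x6918c6)) e) e) e) e) e) e)) (c (c (c (c (c (c (c (m
  (nat_lit 0x144cb4c)) e) e) e) e) e) e) e)) (c (c (c (c (c (c (c (c (p (nat_lit 0xaa53aa)) e) e) e) e) e) e)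
  e) e))))) (c (c (c (c (c (c (c (c (c (m (nat_lit 0x642696)) (c (p (nat_lit 0x24ef4ae)) (c (p (nat_lit
  0xe3ef68)) e))) (c (c (m (nat_lit 0xa699b0)) (c (p (nat_lit 0x733b12)) e)) (c (c (p (nat_lit 0xbf2ff8)) e)
  e))) (c (c (c (m (nat_lit 0x1a64b28)) (c (p (nat_lit 0x733b06)) e)) (c (c (m (nat_lit 0x17986e0)) e) e)) (c
  (c (c (p (nat_lit 0xbf2fe0)) e) e) e))) (c (c (c (c (p (nat_lit 0x95d4cc8)) (c (m (nat_lit 0xb2434c6)) (c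
  (p (nat_lit 0xd27c5c)) e))) (c (c (m (nat_lit 0x5d0c762)) (c (p (nat_lit 0x4876c8)) e)) (c (c (m (nat_lit
  0x1564a58)) e) e))) (c (c (c (m (nat_lit 0x55f2708)) (c (p (nat_lit 0x4876c8)) e)) (c (c (p (nat_lit
  0x935808)) e) e)) (c (c (c (m (nat_lit 0x1564a70)) e) e) e))) (c (c (c (c (m (nat_lit 0x5854110)) (c (p
  (nat_lit 0x428dae0)) e)) (c (c (p (nat_lit 0x516b220)) e) e)) (c (c (c (p (nat_lit 0x516b208)) e) e) e))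
  e))) (c (c (c (c (c (p (nat_lit 0x22caa7e)) (c (p (nat_lit 0x1a25b6a)) (c (m (nat_lit 0x1515b10)) e))) (c
  (c (p (nat_lit 0x1e967ce)) (c (m (nat_lit 0x73293c)) e)) (c (c (m (nat_lit 0x7dfbb0)) e) e))) (c (c (c (m
  (nat_lit 0x1bf4ff2)) (c (p (nat_lit 0x39cbac)) e)) (c (c (p (nat_lit 0x397a70)) e) e)) (c (c (c (p (nat_lit
  0x3f9f48)) e) e) e))) (c (c (c (c (m (nat_lit 0x13cae14)) (c (p (nat_lit 0x18a01ca)) e)) (c (c (p (nat_lit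
  0xd8a44c)) e) e)) (c (c (c (p (nat_lit 0x5f4e4c)) e) e) e)) e)) (c (c (c (c (c (p (nat_lit 0xe6d38a)) (c (m
  (nat_lit 0xec736c)) e)) (c (c (m (nat_lit 0x203c4)) e) e)) (c (c (c (m (nat_lit 0x14f19c)) e) e) e)) e)
  e))) (c (c (c (c (c (c (p (nat_lit 0x737976)) (c (p (nat_lit 0x297861c)) (c (m (nat_lit 0x1515b10)) e))) (c
  (c (m (nat_lit 0x3e94f6)) (c (p (nat_lit 0x39cbac)) e)) (c (c (p (nat_lit 0x3f9f30)) e) e))) (c (c (c (p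
  (nat_lit 0x37e1164)) (c (m (nat_lit 0x732954)) e)) (c (c (p (nat_lit 0x397a88)) e) e)) (c (c (c (m (nat_lit
  0x7dfbe0)) e) e) e))) (c (c (c (c (m (nat_lit 0x13cae0e)) (c (p (nat_lit 0x18a01c4)) e)) (c (c (p (nat_lit
  0x5f4e64)) e) e)) (c (c (c (p (nat_lit 0xd8a464)) e) e) e)) e)) (c (c (c (c (c (m (nat_lit 0x5f5ecc)) (c (m
  (nat_lit 0x2131e0)) e)) (c (c (m (nat_lit 0x73be58)) e) e)) (c (c (c (m (nat_lit 0x73be40)) e) e) e)) e)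
  e)) (c (c (c (c (c (c (p (nat_lit 0xe6d37e)) (c (m (nat_lit 0xec7366)) e)) (c (c (m (nat_lit 0x14f1a8)) e)
  e)) (c (c (c (m (nat_lit 0x203c4)) e) e) e)) e) e) e))) (c (c (c (c (c (c (c (p (nat_lit 0xb266aa)) (c (m
  (nat_lit 0x15810ae)) (c (p (nat_lit 0x6e7084)) e))) (c (c (p (nat_lit 0x7118fa)) (c (p (nat_lit 0x788bec))
  e)) (c (c (m (nat_lit 0x997c80)) e) e))) (c (c (c (m (nat_lit 0xb31f66)) (c (p (nat_lit 0x2a9c3c)) e)) (c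
  (c (p (nat_lit 0x2d6e58)) e) e)) (c (c (c (p (nat_lit 0x123e0d0)) e) e) e))) (c (c (c (c (p (nat_lit
  0x91ab566)) (c (p (nat_lit 0x172d15a)) e)) (c (c (p (nat_lit 0xd6ddea)) e) e)) (c (c (c (p (nat_lit
  0x102c18)) e) e) e)) (c (c (c (c (m (nat_lit 0x306ff90)) e) e) e) e))) (c (c (c (c (c (p (nat_lit
  0x68ed16)) (c (p (nat_lit 0x8ecd4c)) e)) (c (c (p (nat_lit 0x161033a)) e) e)) (c (c (c (p (nat_lit
  0x1008e8e)) e) e) e)) (c (c (c (c (m (nat_lit 0xe7abba)) e) e) e) e)) (c (c (c (c (c (p (nat_lit 0x24630))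
  e) e) e) e) e))) (c (c (c (c (c (c (m (nat_lit 0x18f512a)) (c (p (nat_lit 0x377f7c)) e)) (c (c (m (nat_lit
  0x1e389ca)) e) e)) (c (c (c (p (nat_lit 0x6a5e40)) e) e) e)) (c (c (c (c (m (nat_lit 0x109fd5e)) e) e) e)
  e)) (c (c (c (c (c (p (nat_lit 0x2979c)) e) e) e) e) e)) (c (c (c (c (c (c (p (nat_lit 0x41e6b6)) e) e) e)
  e) e) e))) (c (c (c (c (c (c (c (m (nat_lit 0x809afcc)) (c (p (nat_lit 0x1da8a6)) e)) (c (c (p (nat_lit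
  0xc17472)) e) e)) (c (c (c (p (nat_lit 0xd1fa06)) e) e) e)) (c (c (c (c (m (nat_lit 0x36ff8e8)) e) e) e)
  e)) (c (c (c (c (c (m (nat_lit 0x187c4a0)) e) e) e) e) e)) (c (c (c (c (c (c (p (nat_lit 0x1630914)) e) e)
  e) e) e) e)) (c (c (c (c (c (c (c (p (nat_lit 0x25979d0)) e) e) e) e) e) e) e)))) (c (c (c (c (c (c (c (c
  (m (nat_lit 0x13623f6)) (c (m (nat_lit 0x1c17e22)) (c (p (nat_lit 0x6e706c)) e))) (c (c (m (nat_lit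
  0x96e694)) (c (p (nat_lit 0x2a9c30)) e)) (c (c (p (nat_lit 0x123e0d0)) e) e))) (c (c (c (p (nat_lit
  0x181fa82)) (c (p (nat_lit 0x788bec)) e)) (c (c (p (nat_lit 0x2d6e28)) e) e)) (c (c (c (m (nat_lit
  0x997c80)) e) e) e))) (c (c (c (c (p (nat_lit 0x5379282)) (c (p (nat_lit 0xd90026)) e)) (c (c (m (nat_lit
  0x1dfebc)) e) e)) (c (c (c (p (nat_lit 0x371304)) e) e) e)) (c (c (c (c (m (nat_lit 0x306ff78)) e) e) e)
  e))) (c (c (c (c (c (m (nat_lit 0x131439c)) (c (p (nat_lit 0x67cdac)) e)) (c (c (p (nat_lit 0xed0a5c)) e)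
  e)) (c (c (c (m (nat_lit 0x14eec84)) e) e) e)) (c (c (c (c (m (nat_lit 0x109fd58)) e) e) e) e)) (c (c (c (c
  (c (p (nat_lit 0x41e6aa)) e) e) e) e) e))) (c (c (c (c (c (c (m (nat_lit 0xc40734)) (c (m (nat_lit
  0x360e40)) e)) (c (c (p (nat_lit 0x147078)) e) e)) (c (c (c (p (nat_lit 0x4f068c)) e) e) e)) (c (c (c (c (m
  (nat_lit 0xe7abae)) e) e) e) e)) (c (c (c (c (c (p (nat_lit 0x2979c)) e) e) e) e) e)) (c (c (c (c (c (c (p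
  (nat_lit 0x2462a)) e) e) e) e) e) e))) (c (c (c (c (c (c (c (p (nat_lit 0x3d8f18)) (c (p (nat_lit
  0x1182cc0)) e)) (c (c (m (nat_lit 0x10a88c)) e) e)) (c (c (c (m (nat_lit 0x9f950a)) e) e) e)) (c (c (c (c
  (m (nat_lit 0x41724c)) e) e) e) e)) (c (c (c (c (c (p (nat_lit 0x7c2c0c)) e) e) e) e) e)) (c (c (c (c (c (c
  (p (nat_lit 0x10c835a)) e) e) e) e) e) e)) (c (c (c (c (c (c (c (p (nat_lit 0x1a6f712)) e) e) e) e) e) e)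
  e))) (c (c (c (c (c (c (c (c (m (nat_lit 0x23148f6)) (c (p (nat_lit 0xc5536e)) e)) (c (c (m (nat_lit
  0x11bed8)) e) e)) (c (c (c (p (nat_lit 0x77b05c)) e) e) e)) (c (c (c (c (p (nat_lit 0x408e1c)) e) e) e) e))
  (c (c (c (c (c (p (nat_lit 0x8eae8c)) e) e) e) e) e)) (c (c (c (c (c (c (p (nat_lit 0x57bbce)) e) e) e) e)
  e) e)) (c (c (c (c (c (c (c (m (nat_lit 0x1db70dc)) e) e) e) e) e) e) e)) (c (c (c (c (c (c (c (c (p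
  (nat_lit 0x333756)) e) e) e) e) e) e) e) e)))) (c (c (c (c (c (c (c (c (c (p (nat_lit 0x2925462)) (c (p
  (nat_lit 0xc1695c)) (c (m (nat_lit 0xc4f254)) e))) (c (c (m (nat_lit 0x1102500)) (c (m (nat_lit 0x92629e))
  e)) (c (c (m (nat_lit 0x338e8)) e) e))) (c (c (c (m (nat_lit 0x75d78e)) (c (m (nat_lit 0x92629e)) e)) (c (c
  (p (nat_lit 0x938568)) e) e)) (c (c (c (m (nat_lit 0x338c4)) e) e) e))) (c (c (c (c (m (nat_lit 0x83d048))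
  (c (m (nat_lit 0x1e84a8c)) e)) (c (c (m (nat_lit 0x12f018)) e) e)) (c (c (c (m (nat_lit 0x12f018)) e) e)
  e)) (c (c (c (c (p (nat_lit 0x216f894)) e) e) e) e))) (c (c (c (c (c (p (nat_lit 0x15665ac)) (c (m (nat_lit
  0x716298)) e)) (c (c (m (nat_lit 0xae5448)) e) e)) (c (c (c (m (nat_lit 0x7f24f8)) e) e) e)) (c (c (c (c (p
  (nat_lit 0x8369c4)) e) e) e) e)) (c (c (c (c (c (m (nat_lit 0x9606ae)) e) e) e) e) e))) (c (c (c (c (c (c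
  (m (nat_lit 0x7b6018)) (c (m (nat_lit 0x71628c)) e)) (c (c (m (nat_lit 0x7f24e0)) e) e)) (c (c (c (m
  (nat_lit 0xae5448)) e) e) e)) (c (c (c (c (p (nat_lit 0x8369b8)) e) e) e) e)) (c (c (c (c (c (p (nat_lit
  0x12dcb18)) e) e) e) e) e)) (c (c (c (c (c (c (m (nat_lit 0x9606a8)) e) e) e) e) e) e))) (c (c (c (c (c (c
  (c (m (nat_lit 0x2eeef88)) (c (p (nat_lit 0x6fb08e)) e)) (c (c (p (nat_lit 0x1086f0)) e) e)) (c (c (c (p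
  (nat_lit 0x5b81c2)) e) e) e)) (c (c (c (c (m (nat_lit 0xed9bf4)) e) e) e) e)) (c (c (c (c (c (m (nat_lit
  0x10b3f1e)) e) e) e) e) e)) (c (c (c (c (c (c (p (nat_lit 0x155b84e)) e) e) e) e) e) e)) (c (c (c (c (c (c
  (c (p (nat_lit 0x228359a)) e) e) e) e) e) e) e))) (c (c (c (c (c (c (c (c (m (nat_lit 0x14f3f16)) (c (m
  (nat_lit 0xdc718a)) e)) (c (c (p (nat_lit 0x99621c)) e) e)) (c (c (c (m (nat_lit 0x4be6a6)) e) e) e)) (c (c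
  (c (c (p (nat_lit 0x27cea)) e) e) e) e)) (c (c (c (c (c (p (nat_lit 0xdb07d4)) e) e) e) e) e)) (c (c (c (c
  (c (c (p (nat_lit 0x4bd620)) e) e) e) e) e) e)) (c (c (c (c (c (c (c (m (nat_lit 0x1b688b0)) e) e) e) e) e)
  e) e)) (c (c (c (c (c (c (c (c (p (nat_lit 0x118d68e)) e) e) e) e) e) e) e) e))) (c (c (c (c (c (c (c (c (c
  (m (nat_lit 0x1827e70)) (c (p (nat_lit 0x15a3bde)) e)) (c (c (p (nat_lit 0xf84138)) e) e)) (c (c (c (p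
  (nat_lit 0xf8412c)) e) e) e)) (c (c (c (c (m (nat_lit 0x461db4)) e) e) e) e)) (c (c (c (c (c (m (nat_lit
  0x911010)) e) e) e) e) e)) (c (c (c (c (c (c (m (nat_lit 0x911010)) e) e) e) e) e) e)) (c (c (c (c (c (c (c
  (m (nat_lit 0xa228e6)) e) e) e) e) e) e) e)) (c (c (c (c (c (c (c (c (p (nat_lit 0x548b20)) e) e) e) e) e)
  e) e) e)) (c (c (c (c (c (c (c (c (c (p (nat_lit 0xb2d9c4)) e) e) e) e) e) e) e) e) e)))))

noncomputable def gt_0_1_7 : Tr :=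
  (c (c (c (c (c (c (c (c (c (m (nat_lit 0x26779f8)) (c (m (nat_lit 0xd3f3e6)) (c (p (nat_lit 0x144f90)) e)))
  (c (c (p (nat_lit 0xe26146)) (c (m (nat_lit 0x6064c8)) e)) (c (c (m (nat_lit 0x479898)) e) e))) (c (c (c (p
  (nat_lit 0x11ef92c)) (c (m (nat_lit 0x6067c8)) e)) (c (c (m (nat_lit 0x490830)) e) e)) (c (c (c (m (nat_lit
  0x4799a0)) e) e) e))) (c (c (c (c (p (nat_lit 0x306c3c)) (c (m (nat_lit 0x786b74e)) (c (p (nat_lit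
  0x264d3b0)) e))) (c (c (p (nat_lit 0xe73cde)) (c (p (nat_lit 0x2446560)) e)) (c (c (m (nat_lit 0x178b780))
  e) e))) (c (c (c (p (nat_lit 0x3bd4ec)) (c (p (nat_lit 0x24465f0)) e)) (c (c (m (nat_lit 0x30fed0)) e) e))
  (c (c (c (m (nat_lit 0x178b6f0)) e) e) e))) (c (c (c (c (m (nat_lit 0x2efbb88)) (c (p (nat_lit 0x5da10d0))
  (c (m (nat_lit 0x3428d00)) e))) (c (c (p (nat_lit 0x2b1e2f0)) (c (m (nat_lit 0x14a7b00)) e)) (c (c (m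
  (nat_lit 0x8d3d50)) e) e))) (c (c (c (p (nat_lit 0x2b1e320)) (c (m (nat_lit 0x14a7b30)) e)) (c (c (m
  (nat_lit 0x9a1610)) e) e)) (c (c (c (m (nat_lit 0x8d3d20)) e) e) e))) e))) (c (c (c (c (c (m (nat_lit
  0x2bce5d0)) (c (m (nat_lit 0x241bb7c)) (c (m (nat_lit 0xc1bae0)) e))) (c (c (m (nat_lit 0xb30718)) (c (p
  (nat_lit 0xf0d9f8)) e)) (c (c (m (nat_lit 0x904470)) e) e))) (c (c (c (p (nat_lit 0x35bf7b8)) (c (p
  (nat_lit 0x7b4608)) e)) (c (c (p (nat_lit 0x5f7660)) e) e)) (c (c (c (m (nat_lit 0xc4b438)) e) e) e))) (c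
  (c (c (c (m (nat_lit 0xc5a564)) (c (p (nat_lit 0x1c841d0)) (c (p (nat_lit 0xd7748)) e))) (c (c (m (nat_lit
  0x743d90)) (c (p (nat_lit 0x186d80)) e)) (c (c (p (nat_lit 0x3de2b8)) e) e))) (c (c (c (p (nat_lit
  0x5c1018)) (c (m (nat_lit 0x38c658)) e)) (c (c (m (nat_lit 0x520f80)) e) e)) (c (c (c (m (nat_lit
  0xc07560)) e) e) e))) e)) (c (c (c (c (c (m (nat_lit 0x87d254)) (c (p (nat_lit 0x17a5658)) (c (m (nat_lit
  0x887250)) e))) (c (c (p (nat_lit 0xa1c688)) (c (m (nat_lit 0x645018)) e)) (c (c (m (nat_lit 0x3135a8)) e)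
  e))) (c (c (c (p (nat_lit 0x80cf88)) (c (m (nat_lit 0x4a5f08)) e)) (c (c (m (nat_lit 0x37170)) e) e)) (c (c
  (c (m (nat_lit 0x1e4638)) e) e) e))) e) e))) (c (c (c (c (c (c (m (nat_lit 0x22e80b2)) (c (m (nat_lit
  0xb4461a)) (c (m (nat_lit 0xc1ba98)) e))) (c (c (p (nat_lit 0x186b172)) (c (p (nat_lit 0x7b45a8)) e)) (c (c
  (m (nat_lit 0xc4b450)) e) e))) (c (c (c (m (nat_lit 0xf20e2)) (c (p (nat_lit 0xf0da40)) e)) (c (c (p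
  (nat_lit 0x5f7678)) e) e)) (c (c (c (m (nat_lit 0x904410)) e) e) e))) (c (c (c (c (m (nat_lit 0xc5a588)) (c
  (p (nat_lit 0x1c84200)) (c (p (nat_lit 0xd7718)) e))) (c (c (p (nat_lit 0x5c1000)) (c (m (nat_lit
  0x38c640)) e)) (c (c (m (nat_lit 0xc07578)) e) e))) (c (c (c (m (nat_lit 0x743d30)) (c (p (nat_lit
  0x186d68)) e)) (c (c (m (nat_lit 0x520f80)) e) e)) (c (c (c (p (nat_lit 0x3de270)) e) e) e))) e)) (c (c (c
  (c (c (m (nat_lit 0x5398f8)) (c (m (nat_lit 0x9ff9f0)) (c (p (nat_lit 0xb16600)) e))) (c (c (m (nat_lit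
  0xd9500)) (c (p (nat_lit 0x6e71b0)) e)) (c (c (m (nat_lit 0x387c90)) e) e))) (c (c (c (m (nat_lit 0xd9560))
  (c (p (nat_lit 0x6e71e0)) e)) (c (c (m (nat_lit 0x746ee0)) e) e)) (c (c (c (m (nat_lit 0x387c60)) e) e)
  e))) e) e)) (c (c (c (c (c (c (m (nat_lit 0x87d26c)) (c (p (nat_lit 0x17a5670)) (c (m (nat_lit 0x887268))
  e))) (c (c (p (nat_lit 0x80cfb8)) (c (m (nat_lit 0x4a5f08)) e)) (c (c (m (nat_lit 0x1e4650)) e) e))) (c (c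
  (c (p (nat_lit 0xa1c670)) (c (m (nat_lit 0x645018)) e)) (c (c (m (nat_lit 0x37170)) e) e)) (c (c (c (m
  (nat_lit 0x3135a8)) e) e) e))) e) e) e))) (c (c (c (c (c (c (c (p (nat_lit 0x5b7dd80)) (c (p (nat_lit
  0x2387ffa)) (c (m (nat_lit 0x913548)) e))) (c (c (p (nat_lit 0x19922ca)) (c (m (nat_lit 0x791790)) e)) (c
  (c (p (nat_lit 0x977a00)) e) e))) (c (c (c (p (nat_lit 0x1612908)) (c (m (nat_lit 0x10635f0)) e)) (c (c (m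
  (nat_lit 0x6d3620)) e) e)) (c (c (c (p (nat_lit 0x7e1440)) e) e) e))) (c (c (c (c (m (nat_lit 0x5bfb870))
  (c (p (nat_lit 0x58b303c)) (c (p (nat_lit 0x9ea6f0)) e))) (c (c (m (nat_lit 0x2488746)) (c (p (nat_lit
  0x38f670)) e)) (c (c (p (nat_lit 0x15d788)) e) e))) (c (c (c (p (nat_lit 0x2931e04)) (c (p (nat_lit
  0xc6c78)) e)) (c (c (p (nat_lit 0xd07ca0)) e) e)) (c (c (c (m (nat_lit 0xde6b10)) e) e) e))) (c (c (c (c (p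
  (nat_lit 0x7326f48)) (c (m (nat_lit 0x339e910)) e)) (c (c (m (nat_lit 0x1c00530)) e) e)) (c (c (c (m
  (nat_lit 0x23f3c40)) e) e) e)) e))) (c (c (c (c (c (p (nat_lit 0x176f82)) (c (p (nat_lit 0x57e48fa)) (c (m
  (nat_lit 0x319188)) e))) (c (c (m (nat_lit 0xa802dc)) (c (m (nat_lit 0x27ea78)) e)) (c (c (p (nat_lit
  0x4aa6c0)) e) e))) (c (c (c (m (nat_lit 0x6ab477c)) (c (m (nat_lit 0x2ea7c0)) e)) (c (c (p (nat_lit
  0xa20a98)) e) e)) (c (c (c (p (nat_lit 0x3b55d8)) e) e) e))) (c (c (c (c (p (nat_lit 0x13c29b4)) (c (m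
  (nat_lit 0x7b5e38)) e)) (c (c (p (nat_lit 0x3f7830)) e) e)) (c (c (c (p (nat_lit 0xedda40)) e) e) e)) e))
  (c (c (c (c (c (p (nat_lit 0x62cd30)) (c (m (nat_lit 0x1651f8)) e)) (c (c (m (nat_lit 0x5e7790)) e) e)) (c
  (c (c (m (nat_lit 0x113928)) e) e) e)) e) e))) (c (c (c (c (c (c (p (nat_lit 0x917a69c)) (c (m (nat_lit
  0x2547c54)) (c (p (nat_lit 0xc98e20)) e))) (c (c (m (nat_lit 0x1ec4a40)) (c (p (nat_lit 0x71ef80)) e)) (c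
  (c (p (nat_lit 0xa9a700)) e) e))) (c (c (c (m (nat_lit 0x4ddcd50)) (c (m (nat_lit 0x4f1a90)) e)) (c (c (p
  (nat_lit 0x3e100)) e) e)) (c (c (c (p (nat_lit 0xa29420)) e) e) e))) (c (c (c (c (m (nat_lit 0x4758)) (c (m
  (nat_lit 0x7327b0)) e)) (c (c (p (nat_lit 0x194a90)) e) e)) (c (c (c (p (nat_lit 0xc15af8)) e) e) e)) e))
  (c (c (c (c (c (p (nat_lit 0x5ad0e0)) (c (m (nat_lit 0x2b8ea0)) e)) (c (c (m (nat_lit 0x23ce50)) e) e)) (c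
  (c (c (p (nat_lit 0x50b5c0)) e) e) e)) e) e)) (c (c (c (c (c (c (p (nat_lit 0x2bda0)) (c (m (nat_lit
  0x7e570)) e)) (c (c (m (nat_lit 0x4101a8)) e) e)) (c (c (c (m (nat_lit 0x25af40)) e) e) e)) e) e) e))) (c
  (c (c (c (c (c (c (p (nat_lit 0x75c4c3e)) (c (m (nat_lit 0x484b1f2)) (c (p (nat_lit 0x802aa0)) e))) (c (c
  (m (nat_lit 0x57ab72)) (c (m (nat_lit 0x12ae60)) e)) (c (c (p (nat_lit 0x2f1768)) e) e))) (c (c (c (m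
  (nat_lit 0x7b30498)) (c (p (nat_lit 0x9ffde0)) e)) (c (c (p (nat_lit 0xe0868)) e) e)) (c (c (c (m (nat_lit
  0x7a6bb0)) e) e) e))) (c (c (c (c (m (nat_lit 0x59d4dc4)) (c (m (nat_lit 0xa9e25e)) e)) (c (c (p (nat_lit
  0x24ec1f0)) e) e)) (c (c (c (m (nat_lit 0x2bd628)) e) e) e)) (c (c (c (c (m (nat_lit 0x8bc488)) e) e) e)
  e))) (c (c (c (c (c (p (nat_lit 0x2602392)) (c (m (nat_lit 0x1f08726)) e)) (c (c (p (nat_lit 0x640d04)) e)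
  e)) (c (c (c (p (nat_lit 0x401f424)) e) e) e)) (c (c (c (c (m (nat_lit 0xc6e754)) e) e) e) e)) (c (c (c (c
  (c (m (nat_lit 0x100c44)) e) e) e) e) e))) (c (c (c (c (c (c (m (nat_lit 0xb5c3524)) (c (p (nat_lit
  0x17d256e)) e)) (c (c (p (nat_lit 0xdc1ece)) e) e)) (c (c (c (p (nat_lit 0x2afe6e2)) e) e) e)) (c (c (c (c
  (p (nat_lit 0x7c66bc)) e) e) e) e)) (c (c (c (c (c (p (nat_lit 0x4e58f8)) e) e) e) e) e)) (c (c (c (c (c (c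
  (m (nat_lit 0x13e948)) e) e) e) e) e) e))) (c (c (c (c (c (c (c (m (nat_lit 0x537abea)) (c (p (nat_lit
  0x19e07e6)) e)) (c (c (m (nat_lit 0xa52b6e)) e) e)) (c (c (c (p (nat_lit 0x60f471c)) e) e) e)) (c (c (c (c
  (p (nat_lit 0x4877214)) e) e) e) e)) (c (c (c (c (c (m (nat_lit 0x17675d0)) e) e) e) e) e)) (c (c (c (c (c
  (c (p (nat_lit 0x4aed646)) e) e) e) e) e) e)) (c (c (c (c (c (c (c (m (nat_lit 0x2f58414)) e) e) e) e) e)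
  e) e))))) (c (c (c (c (c (c (c (c (p (nat_lit 0xa88bea2)) (c (p (nat_lit 0x7d4486)) (c (m (nat_lit
  0x9135c0)) e))) (c (c (m (nat_lit 0x220cfe0)) (c (m (nat_lit 0x10635c0)) e)) (c (c (p (nat_lit 0x7e1410))
  e) e))) (c (c (c (m (nat_lit 0x1c6a730)) (c (m (nat_lit 0x791778)) e)) (c (c (m (nat_lit 0x6d35f0)) e) e))
  (c (c (c (p (nat_lit 0x9779d0)) e) e) e))) (c (c (c (c (m (nat_lit 0x2daf458)) (c (p (nat_lit 0x4839ff6))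
  (c (p (nat_lit 0x9ea6a8)) e))) (c (c (m (nat_lit 0x4b1296)) (c (p (nat_lit 0xc6c78)) e)) (c (c (m (nat_lit
  0xde6b28)) e) e))) (c (c (c (p (nat_lit 0x10a60dc)) (c (p (nat_lit 0x38f670)) e)) (c (c (p (nat_lit
  0xd07ca0)) e) e)) (c (c (c (p (nat_lit 0x15d728)) e) e) e))) (c (c (c (c (p (nat_lit 0x7326ea0)) (c (m
  (nat_lit 0x339e910)) e)) (c (c (m (nat_lit 0x23f3b80)) e) e)) (c (c (c (m (nat_lit 0x1c004d0)) e) e) e))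
  e))) (c (c (c (c (c (p (nat_lit 0x9a7606a)) (c (p (nat_lit 0x5652c)) (c (p (nat_lit 0xc98e50)) e))) (c (c
  (m (nat_lit 0xb11f38)) (c (m (nat_lit 0x4f1a60)) e)) (c (c (p (nat_lit 0xa29420)) e) e))) (c (c (c (m
  (nat_lit 0x307b198)) (c (p (nat_lit 0x71ef80)) e)) (c (c (p (nat_lit 0x3e100)) e) e)) (c (c (c (p (nat_lit
  0xa9a730)) e) e) e))) (c (c (c (c (m (nat_lit 0x4728)) (c (m (nat_lit 0x7327c8)) e)) (c (c (p (nat_lit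
  0xc15b28)) e) e)) (c (c (c (p (nat_lit 0x194a90)) e) e) e)) e)) (c (c (c (c (c (p (nat_lit 0x2bde8)) (c (m
  (nat_lit 0x7e588)) e)) (c (c (m (nat_lit 0x25af58)) e) e)) (c (c (c (m (nat_lit 0x4101d8)) e) e) e)) e)
  e))) (c (c (c (c (c (c (m (nat_lit 0x25dc694)) (c (p (nat_lit 0x2285a8a)) (c (m (nat_lit 0x3191a0)) e))) (c
  (c (m (nat_lit 0x2033d72)) (c (m (nat_lit 0x2ea7c0)) e)) (c (c (p (nat_lit 0x3b55c0)) e) e))) (c (c (c (m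
  (nat_lit 0x4669b6)) (c (m (nat_lit 0x27ea90)) e)) (c (c (p (nat_lit 0xa20a98)) e) e)) (c (c (c (p (nat_lit
  0x4aa690)) e) e) e))) (c (c (c (c (p (nat_lit 0x13c2a08)) (c (m (nat_lit 0x7b5e38)) e)) (c (c (p (nat_lit
  0xedda40)) e) e)) (c (c (c (p (nat_lit 0x3f7830)) e) e) e)) e)) (c (c (c (c (c (p (nat_lit 0x5ad170)) (c (m
  (nat_lit 0x2b8e70)) e)) (c (c (p (nat_lit 0x50b590)) e) e)) (c (c (c (m (nat_lit 0x23ce50)) e) e) e)) e)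
  e)) (c (c (c (c (c (c (p (nat_lit 0x62cd60)) (c (m (nat_lit 0x1651f8)) e)) (c (c (m (nat_lit 0x113910)) e)
  e)) (c (c (c (m (nat_lit 0x5e77a8)) e) e) e)) e) e) e))) (c (c (c (c (c (c (c (m (nat_lit 0x177d18da)) (c
  (m (nat_lit 0x2804dfc)) (c (m (nat_lit 0x17b01d0)) e))) (c (c (p (nat_lit 0x3839058)) (c (p (nat_lit
  0x2c75d0)) e)) (c (c (p (nat_lit 0x92b4d0)) e) e))) (c (c (c (p (nat_lit 0x4407fba)) (c (p (nat_lit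
  0x2c75d0)) e)) (c (c (p (nat_lit 0x26670)) e) e)) (c (c (c (p (nat_lit 0x92b500)) e) e) e))) (c (c (c (c (m
  (nat_lit 0x38ea10c)) (c (p (nat_lit 0x3bc5fe)) e)) (c (c (p (nat_lit 0x9ecc9a)) e) e)) (c (c (c (m (nat_lit
  0xc9a68)) e) e) e)) (c (c (c (c (m (nat_lit 0xb0cf10)) e) e) e) e))) (c (c (c (c (c (m (nat_lit 0x905b842))
  (c (m (nat_lit 0x1501308)) e)) (c (c (m (nat_lit 0x2d9e34)) e) e)) (c (c (c (p (nat_lit 0x1fc6b18)) e) e)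
  e)) (c (c (c (c (m (nat_lit 0x882d20)) e) e) e) e)) (c (c (c (c (c (p (nat_lit 0x966f00)) e) e) e) e) e)))
  (c (c (c (c (c (c (m (nat_lit 0x8834be)) (c (p (nat_lit 0x3d6356)) e)) (c (c (p (nat_lit 0x272562)) e) e))
  (c (c (c (p (nat_lit 0x7647d2)) e) e) e)) (c (c (c (c (m (nat_lit 0x882d08)) e) e) e) e)) (c (c (c (c (c (m
  (nat_lit 0x157d340)) e) e) e) e) e)) (c (c (c (c (c (c (p (nat_lit 0x966f00)) e) e) e) e) e) e))) (c (c (c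
  (c (c (c (c (p (nat_lit 0xb9f0292)) (c (p (nat_lit 0x268b3d2)) e)) (c (c (m (nat_lit 0x21d1028)) e) e)) (c
  (c (c (m (nat_lit 0x2e7f63a)) e) e) e)) (c (c (c (c (m (nat_lit 0x2ebb04)) e) e) e) e)) (c (c (c (c (c (p
  (nat_lit 0x556533c)) e) e) e) e) e)) (c (c (c (c (c (c (m (nat_lit 0x4147656)) e) e) e) e) e) e)) (c (c (c
  (c (c (c (c (p (nat_lit 0x66947be)) e) e) e) e) e) e) e)))) (c (c (c (c (c (c (c (c (m (nat_lit 0x6eaa416))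
  (c (m (nat_lit 0x10c6950)) (c (p (nat_lit 0x802a88)) e))) (c (c (p (nat_lit 0x161597a)) (c (p (nat_lit
  0x9ffdc8)) e)) (c (c (m (nat_lit 0x7a6b98)) e) e))) (c (c (c (p (nat_lit 0x197efd4)) (c (m (nat_lit
  0x12ae78)) e)) (c (c (p (nat_lit 0xe0868)) e) e)) (c (c (c (p (nat_lit 0x2f1750)) e) e) e))) (c (c (c (c (m
  (nat_lit 0x2ec14b4)) (c (p (nat_lit 0x5dae60)) e)) (c (c (p (nat_lit 0x206f2b0)) e) e)) (c (c (c (m
  (nat_lit 0x58bf48)) e) e) e)) (c (c (c (c (m (nat_lit 0x8bc4d0)) e) e) e) e))) (c (c (c (c (c (m (nat_lit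
  0x7213f0e)) (c (p (nat_lit 0xb0b920)) e)) (c (c (m (nat_lit 0xd8e190)) e) e)) (c (c (c (p (nat_lit
  0x224010)) e) e) e)) (c (c (c (c (p (nat_lit 0x7c66b0)) e) e) e) e)) (c (c (c (c (c (m (nat_lit 0x13e960))
  e) e) e) e) e))) (c (c (c (c (c (c (p (nat_lit 0x3bb5e8e)) (c (m (nat_lit 0x280f38)) e)) (c (c (p (nat_lit
  0x12f2f88)) e) e)) (c (c (c (m (nat_lit 0xa17210)) e) e) e)) (c (c (c (c (m (nat_lit 0xc6e790)) e) e) e)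
  e)) (c (c (c (c (c (p (nat_lit 0x4e5940)) e) e) e) e) e)) (c (c (c (c (c (c (m (nat_lit 0x100c68)) e) e) e)
  e) e) e))) (c (c (c (c (c (c (c (p (nat_lit 0x16a609e2)) (c (p (nat_lit 0x18b4f0)) e)) (c (c (m (nat_lit
  0x253bebe)) e) e)) (c (c (c (m (nat_lit 0x2092fc8)) e) e) e)) (c (c (c (c (p (nat_lit 0x4cfc1b8)) e) e) e)
  e)) (c (c (c (c (c (p (nat_lit 0xf7a24a)) e) e) e) e) e)) (c (c (c (c (c (c (p (nat_lit 0x2734d52)) e) e)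
  e) e) e) e)) (c (c (c (c (c (c (c (m (nat_lit 0x15e07a2c)) e) e) e) e) e) e) e))) (c (c (c (c (c (c (c (c
  (p (nat_lit 0x10a8230)) (c (m (nat_lit 0x1f0488)) e)) (c (c (p (nat_lit 0xb97bd0)) e) e)) (c (c (c (p
  (nat_lit 0x8e6a88)) e) e) e)) (c (c (c (c (m (nat_lit 0x10e88c8)) e) e) e) e)) (c (c (c (c (c (p (nat_lit
  0x7289a0)) e) e) e) e) e)) (c (c (c (c (c (c (m (nat_lit 0xeae1a8)) e) e) e) e) e) e)) (c (c (c (c (c (c (c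
  (p (nat_lit 0x121eaec)) e) e) e) e) e) e) e)) (c (c (c (c (c (c (c (c (p (nat_lit 0x3e5c80)) e) e) e) e) e)
  e) e) e))))) (c (c (c (c (c (c (c (c (c (m (nat_lit 0x4cb138)) (c (p (nat_lit 0x5c3ab58)) (c (p (nat_lit
  0x104dde0)) e))) (c (c (p (nat_lit 0x316fce)) (c (m (nat_lit 0x1293ee8)) e)) (c (c (p (nat_lit 0x17d61c8))
  e) e))) (c (c (c (m (nat_lit 0x19d1120)) (c (m (nat_lit 0x1293ee8)) e)) (c (c (m (nat_lit 0x9bc940)) e) e))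
  (c (c (c (p (nat_lit 0x17d61b0)) e) e) e))) (c (c (c (c (p (nat_lit 0xe254158)) (c (m (nat_lit 0x56b1832))
  (c (m (nat_lit 0x483210)) e))) (c (c (m (nat_lit 0x342fc1e)) (c (m (nat_lit 0x6ab240)) e)) (c (c (m
  (nat_lit 0x110d0)) e) e))) (c (c (c (m (nat_lit 0x297954c)) (c (m (nat_lit 0x6ab240)) e)) (c (c (m (nat_lit
  0x477090)) e) e)) (c (c (c (m (nat_lit 0x110d0)) e) e) e))) (c (c (c (c (m (nat_lit 0xd42cad0)) (c (p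
  (nat_lit 0x5a00930)) e)) (c (c (p (nat_lit 0x38ec5f0)) e) e)) (c (c (c (p (nat_lit 0x38ec5f0)) e) e) e))
  e))) (c (c (c (c (c (p (nat_lit 0x4b11562)) (c (m (nat_lit 0x14f844)) (c (p (nat_lit 0x626be0)) e))) (c (c
  (m (nat_lit 0x1b5e200)) (c (p (nat_lit 0x129120)) e)) (c (c (m (nat_lit 0x29bb0)) e) e))) (c (c (c (m
  (nat_lit 0x2cff568)) (c (p (nat_lit 0x40daf0)) e)) (c (c (p (nat_lit 0xdf6140)) e) e)) (c (c (c (p (nat_lit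
  0x884310)) e) e) e))) (c (c (c (c (m (nat_lit 0x716bc8)) (c (m (nat_lit 0xb657a0)) e)) (c (c (p (nat_lit
  0x3138c0)) e) e)) (c (c (c (p (nat_lit 0x1b4968)) e) e) e)) e)) (c (c (c (c (c (m (nat_lit 0x9eb5c0)) (c (m
  (nat_lit 0x21a020)) e)) (c (c (p (nat_lit 0x63f2b8)) e) e)) (c (c (c (m (nat_lit 0x318438)) e) e) e)) e)
  e))) (c (c (c (c (c (c (p (nat_lit 0x5df3dd4)) (c (m (nat_lit 0x1a26d8e)) (c (p (nat_lit 0x626bb0)) e))) (c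
  (c (m (nat_lit 0xfaafb2)) (c (p (nat_lit 0x40db20)) e)) (c (c (p (nat_lit 0x884310)) e) e))) (c (c (c (m
  (nat_lit 0x259c7be)) (c (p (nat_lit 0x129120)) e)) (c (c (p (nat_lit 0xdf6140)) e) e)) (c (c (c (m (nat_lit
  0x29be0)) e) e) e))) (c (c (c (c (m (nat_lit 0x716be0)) (c (m (nat_lit 0xb657a0)) e)) (c (c (p (nat_lit
  0x1b4968)) e) e)) (c (c (c (p (nat_lit 0x3138c0)) e) e) e)) e)) (c (c (c (c (c (p (nat_lit 0xb07b10)) (c (p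
  (nat_lit 0x4849e0)) e)) (c (c (m (nat_lit 0x5e3e0)) e) e)) (c (c (c (m (nat_lit 0x5e3e0)) e) e) e)) e) e))
  (c (c (c (c (c (c (m (nat_lit 0x9eb578)) (c (m (nat_lit 0x21a038)) e)) (c (c (m (nat_lit 0x318438)) e) e))
  (c (c (c (p (nat_lit 0x63f2a0)) e) e) e)) e) e) e))) (c (c (c (c (c (c (c (m (nat_lit 0x9d741b0)) (c (m
  (nat_lit 0x1900dd6)) (c (m (nat_lit 0x148e0)) e))) (c (c (m (nat_lit 0x216e814)) (c (p (nat_lit 0x38c280))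
  e)) (c (c (m (nat_lit 0x559080)) e) e))) (c (c (c (p (nat_lit 0x29d830a)) (c (p (nat_lit 0x84c840)) e)) (c
  (c (m (nat_lit 0x997e90)) e) e)) (c (c (c (m (nat_lit 0x5b8f30)) e) e) e))) (c (c (c (c (p (nat_lit
  0x869f50e)) (c (m (nat_lit 0x1cc546e)) e)) (c (c (m (nat_lit 0x4a8aa)) e) e)) (c (c (c (m (nat_lit
  0x4f63a4)) e) e) e)) (c (c (c (c (p (nat_lit 0x12b4e10)) e) e) e) e))) (c (c (c (c (c (p (nat_lit 0x58e1e))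
  (c (m (nat_lit 0x12a79c4)) e)) (c (c (p (nat_lit 0x1fc5378)) e) e)) (c (c (c (p (nat_lit 0x278e848)) e) e)
  e)) (c (c (c (c (p (nat_lit 0x28c9f8)) e) e) e) e)) (c (c (c (c (c (p (nat_lit 0x36f438)) e) e) e) e) e)))
  (c (c (c (c (c (c (p (nat_lit 0xb2ebd6)) (c (p (nat_lit 0xfb9e26)) e)) (c (c (m (nat_lit 0xfb76)) e) e)) (c
  (c (c (p (nat_lit 0x1554816)) e) e) e)) (c (c (c (c (m (nat_lit 0x1f0248)) e) e) e) e)) (c (c (c (c (c (p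
  (nat_lit 0x38caf0)) e) e) e) e) e)) (c (c (c (c (c (c (m (nat_lit 0x3eea58)) e) e) e) e) e) e))) (c (c (c
  (c (c (c (c (p (nat_lit 0xd032d8)) (c (m (nat_lit 0x158142)) e)) (c (c (p (nat_lit 0xd630e)) e) e)) (c (c
  (c (m (nat_lit 0x160a60a)) e) e) e)) (c (c (c (c (m (nat_lit 0x680a64e)) e) e) e) e)) (c (c (c (c (c (m
  (nat_lit 0x35b7e38)) e) e) e) e) e)) (c (c (c (c (c (c (m (nat_lit 0x2bf19b2)) e) e) e) e) e) e)) (c (c (c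
  (c (c (c (c (p (nat_lit 0x570e9a0)) e) e) e) e) e) e) e)))) (c (c (c (c (c (c (c (c (m (nat_lit 0x8269da6))
  (c (m (nat_lit 0x145d4ba)) (c (m (nat_lit 0x14880)) e))) (c (c (p (nat_lit 0x4108cce)) (c (p (nat_lit
  0x84c840)) e)) (c (c (m (nat_lit 0x5b8ed0)) e) e))) (c (c (c (p (nat_lit 0x2e28ad8)) (c (p (nat_lit
  0x38c280)) e)) (c (c (m (nat_lit 0x997ec0)) e) e)) (c (c (c (m (nat_lit 0x559080)) e) e) e))) (c (c (c (c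
  (p (nat_lit 0x16212d8)) (c (m (nat_lit 0x2bf758)) e)) (c (c (m (nat_lit 0xd413f0)) e) e)) (c (c (c (m
  (nat_lit 0x134bfc8)) e) e) e)) (c (c (c (c (p (nat_lit 0x12b4e10)) e) e) e) e))) (c (c (c (c (c (m (nat_lit
  0x191d9e4)) (c (p (nat_lit 0x105c360)) e)) (c (c (m (nat_lit 0x898020)) e) e)) (c (c (c (m (nat_lit
  0x27a710)) e) e) e)) (c (c (c (c (m (nat_lit 0x1f0260)) e) e) e) e)) (c (c (c (c (c (m (nat_lit 0x3eea40))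
  e) e) e) e) e))) (c (c (c (c (c (c (m (nat_lit 0x1ae22f4)) (c (p (nat_lit 0x6d2168)) e)) (c (c (p (nat_lit
  0x7cf698)) e) e)) (c (c (c (p (nat_lit 0xc17130)) e) e) e)) (c (c (c (c (p (nat_lit 0x28c9f8)) e) e) e) e))
  (c (c (c (c (c (p (nat_lit 0x38cb20)) e) e) e) e) e)) (c (c (c (c (c (c (p (nat_lit 0x36f450)) e) e) e) e)
  e) e))) (c (c (c (c (c (c (c (p (nat_lit 0x13635f0)) (c (m (nat_lit 0x111fb6a)) e)) (c (c (p (nat_lit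
  0xa8ac9e)) e) e)) (c (c (c (m (nat_lit 0x192e904)) e) e) e)) (c (c (c (c (p (nat_lit 0x2d882c)) e) e) e)
  e)) (c (c (c (c (c (p (nat_lit 0x2b02000)) e) e) e) e) e)) (c (c (c (c (c (c (p (nat_lit 0x14c75a0)) e) e)
  e) e) e) e)) (c (c (c (c (c (c (c (p (nat_lit 0x1ffa54a)) e) e) e) e) e) e) e))) (c (c (c (c (c (c (c (c (p
  (nat_lit 0x1501dac)) (c (m (nat_lit 0xcb9238)) e)) (c (c (m (nat_lit 0x1fbbf10)) e) e)) (c (c (c (m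
  (nat_lit 0xa07d0)) e) e) e)) (c (c (c (c (m (nat_lit 0x15b9d18)) e) e) e) e)) (c (c (c (c (c (m (nat_lit
  0x41c520)) e) e) e) e) e)) (c (c (c (c (c (c (m (nat_lit 0x139bbd0)) e) e) e) e) e) e)) (c (c (c (c (c (c
  (c (m (nat_lit 0x11768b8)) e) e) e) e) e) e) e)) (c (c (c (c (c (c (c (c (p (nat_lit 0x29dfbe8)) e) e) e)
  e) e) e) e) e)))) (c (c (c (c (c (c (c (c (c (m (nat_lit 0x44826d8)) (c (m (nat_lit 0x28e60ea)) (c (m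
  (nat_lit 0xaa2d10)) e))) (c (c (m (nat_lit 0x18dc32c)) (c (p (nat_lit 0xa762f8)) e)) (c (c (p (nat_lit
  0x92a48)) e) e))) (c (c (c (p (nat_lit 0x42624)) (c (p (nat_lit 0xa762e0)) e)) (c (c (p (nat_lit 0xb0cec8))
  e) e)) (c (c (c (p (nat_lit 0x92a18)) e) e) e))) (c (c (c (c (m (nat_lit 0x32fa2ac)) (c (p (nat_lit
  0xddd840)) e)) (c (c (p (nat_lit 0x77d090)) e) e)) (c (c (c (p (nat_lit 0x77d060)) e) e) e)) (c (c (c (c (p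
  (nat_lit 0x10b2ca0)) e) e) e) e))) (c (c (c (c (c (p (nat_lit 0xa466a)) (c (p (nat_lit 0xc06a80)) e)) (c (c
  (p (nat_lit 0x113730)) e) e)) (c (c (c (m (nat_lit 0x857430)) e) e) e)) (c (c (c (c (p (nat_lit 0x9e8db8))
  e) e) e) e)) (c (c (c (c (c (p (nat_lit 0x5242b0)) e) e) e) e) e))) (c (c (c (c (c (c (m (nat_lit
  0x1b24852)) (c (p (nat_lit 0xc06ab0)) e)) (c (c (m (nat_lit 0x857430)) e) e)) (c (c (c (p (nat_lit
  0x113760)) e) e) e)) (c (c (c (c (p (nat_lit 0x9e8da0)) e) e) e) e)) (c (c (c (c (c (m (nat_lit 0xcebc50))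
  e) e) e) e) e)) (c (c (c (c (c (c (p (nat_lit 0x524298)) e) e) e) e) e) e))) (c (c (c (c (c (c (c (p
  (nat_lit 0x56d61b6)) (c (m (nat_lit 0x78f876)) e)) (c (c (p (nat_lit 0x1b88c14)) e) e)) (c (c (c (m
  (nat_lit 0xcaf05c)) e) e) e)) (c (c (c (c (m (nat_lit 0x1a5e66c)) e) e) e) e)) (c (c (c (c (c (m (nat_lit
  0x1af9da2)) e) e) e) e) e)) (c (c (c (c (c (c (p (nat_lit 0x25f812)) e) e) e) e) e) e)) (c (c (c (c (c (c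
  (c (p (nat_lit 0x89e2d2)) e) e) e) e) e) e) e))) (c (c (c (c (c (c (c (c (p (nat_lit 0x1286844)) (c (p
  (nat_lit 0xb3dc18)) e)) (c (c (m (nat_lit 0x214980)) e) e)) (c (c (c (p (nat_lit 0xd04970)) e) e) e)) (c (c
  (c (c (p (nat_lit 0x40ea20)) e) e) e) e)) (c (c (c (c (c (m (nat_lit 0x75840)) e) e) e) e) e)) (c (c (c (c
  (c (c (m (nat_lit 0x205f80)) e) e) e) e) e) e)) (c (c (c (c (c (c (c (p (nat_lit 0x8affd8)) e) e) e) e) e)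
  e) e)) (c (c (c (c (c (c (c (c (p (nat_lit 0x14418)) e) e) e) e) e) e) e) e))) (c (c (c (c (c (c (c (c (c
  (p (nat_lit 0x68182e0)) (c (p (nat_lit 0x519d80)) e)) (c (c (p (nat_lit 0x1d4660)) e) e)) (c (c (c (p
  (nat_lit 0x1d4678)) e) e) e)) (c (c (c (c (p (nat_lit 0xc1a8b0)) e) e) e) e)) (c (c (c (c (c (p (nat_lit
  0xc10a70)) e) e) e) e) e)) (c (c (c (c (c (c (p (nat_lit 0xc10a70)) e) e) e) e) e) e)) (c (c (c (c (c (c (c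
  (m (nat_lit 0x3bca450)) e) e) e) e) e) e) e)) (c (c (c (c (c (c (c (c (m (nat_lit 0x184f9b0)) e) e) e) e)
  e) e) e) e)) (c (c (c (c (c (c (c (c (c (m (nat_lit 0x2586390)) e) e) e) e) e) e) e) e) e)))))

noncomputable def gt_0_1 : Tr := (c gt_0_1_1 (c gt_0_1_2 (c gt_0_1_3 (c gt_0_1_4 (c gt_0_1_5 (c gt_0_1_6 (c gt_0_1_7 e)))))))

noncomputable def gt_0_2_2 : Tr :=
  (c (c (c (c (c (c (c (c (c (p (nat_lit 0x5a6d428)) (c (m (nat_lit 0x4e27a98)) (c (m (nat_lit 0x6a2324))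
  e))) (c (c (m (nat_lit 0x12a2062a)) (c (p (nat_lit 0x13df2d4)) e)) (c (c (p (nat_lit 0xd3165f8)) e) e))) (c
  (c (c (m (nat_lit 0x2465ba4)) (c (p (nat_lit 0x45813c)) e)) (c (c (p (nat_lit 0x13df280)) e) e)) (c (c (c
  (m (nat_lit 0x6a22c4)) e) e) e))) (c (c (c (c (m (nat_lit 0x4e27a98)) (c (p (nat_lit 0x10f8a68)) (c (m
  (nat_lit 0xfff74a)) e))) (c (c (p (nat_lit 0x682d0a0)) (c (m (nat_lit 0xbb0962)) e)) (c (c (m (nat_lit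
  0x5b6f2c0)) e) e))) (c (c (c (p (nat_lit 0x109d9ca)) (c (p (nat_lit 0x100ad0)) e)) (c (c (m (nat_lit
  0xa243da)) e) e)) (c (c (c (p (nat_lit 0x4c24da)) e) e) e))) (c (c (c (c (m (nat_lit 0x6a2324)) (c (m
  (nat_lit 0xfff74a)) (c (p (nat_lit 0x1cc02d8)) e))) (c (c (m (nat_lit 0x363666)) (c (m (nat_lit 0x260eda))
  e)) (c (c (p (nat_lit 0xa7cc10)) e) e))) (c (c (c (p (nat_lit 0x4c24bc)) (c (m (nat_lit 0x932eec)) e)) (c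
  (c (p (nat_lit 0x1697dc)) e) e)) (c (c (c (p (nat_lit 0x1a2d7c)) e) e) e))) e))) (c (c (c (c (c (m (nat_lit
  0x12a2062a)) (c (p (nat_lit 0x682d0a0)) (c (m (nat_lit 0x363666)) e))) (c (c (p (nat_lit 0x3bcdbd54)) (c (m
  (nat_lit 0x4dc2350)) e)) (c (c (m (nat_lit 0x2a82d9b2)) e) e))) (c (c (c (p (nat_lit 0x826fb00)) (c (p
  (nat_lit 0xe6ea64)) e)) (c (c (m (nat_lit 0x4dc22fc)) e) e)) (c (c (c (m (nat_lit 0x3636ea)) e) e) e))) (c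
  (c (c (c (p (nat_lit 0x13df2d4)) (c (m (nat_lit 0xbb0962)) (c (m (nat_lit 0x260eda)) e))) (c (c (m (nat_lit
  0x4dc2350)) (c (p (nat_lit 0x272e61a)) e)) (c (c (p (nat_lit 0x2fa3516)) e) e))) (c (c (c (m (nat_lit
  0xa24470)) (c (m (nat_lit 0x20b650)) e)) (c (c (p (nat_lit 0x165a032)) e) e)) (c (c (c (p (nat_lit
  0x1697e8)) e) e) e))) e)) (c (c (c (c (c (p (nat_lit 0xd3165f8)) (c (m (nat_lit 0x5b6f2c0)) (c (p (nat_lit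
  0xa7cc10)) e))) (c (c (m (nat_lit 0x2a82d9b2)) (c (p (nat_lit 0x2fa3516)) e)) (c (c (p (nat_lit
  0x2282b2c6)) e) e))) (c (c (c (m (nat_lit 0x5b6f254)) (c (p (nat_lit 0x1f119c)) e)) (c (c (p (nat_lit
  0x2fa34bc)) e) e)) (c (c (c (p (nat_lit 0xa7cc22)) e) e) e))) e) e))) (c (c (c (c (c (c (m (nat_lit
  0x2465ba4)) (c (p (nat_lit 0x109d9ca)) (c (p (nat_lit 0x4c24bc)) e))) (c (c (p (nat_lit 0x826fb00)) (c (m
  (nat_lit 0xa24470)) e)) (c (c (m (nat_lit 0x5b6f254)) e) e))) (c (c (c (p (nat_lit 0x281d88e)) (c (p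
  (nat_lit 0x100df4)) e)) (c (c (m (nat_lit 0xbb0932)) e) e)) (c (c (c (m (nat_lit 0xfff76e)) e) e) e))) (c
  (c (c (c (p (nat_lit 0x45813c)) (c (p (nat_lit 0x100ad0)) (c (m (nat_lit 0x932eec)) e))) (c (c (p (nat_lit
  0xe6ea64)) (c (m (nat_lit 0x20b650)) e)) (c (c (p (nat_lit 0x1f119c)) e) e))) (c (c (c (p (nat_lit
  0x100df4)) (c (p (nat_lit 0x2c736a8)) e)) (c (c (m (nat_lit 0x20b650)) e) e)) (c (c (c (m (nat_lit
  0x932eec)) e) e) e))) e)) (c (c (c (c (c (p (nat_lit 0x13df280)) (c (m (nat_lit 0xa243da)) (c (p (nat_lit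
  0x1697dc)) e))) (c (c (m (nat_lit 0x4dc22fc)) (c (p (nat_lit 0x165a032)) e)) (c (c (p (nat_lit 0x2fa34bc))
  e) e))) (c (c (c (m (nat_lit 0xbb0932)) (c (m (nat_lit 0x20b650)) e)) (c (c (p (nat_lit 0x272e602)) e) e))
  (c (c (c (m (nat_lit 0x260ee0)) e) e) e))) e) e)) (c (c (c (c (c (c (m (nat_lit 0x6a22c4)) (c (p (nat_lit
  0x4c24da)) (c (p (nat_lit 0x1a2d7c)) e))) (c (c (m (nat_lit 0x3636ea)) (c (p (nat_lit 0x1697e8)) e)) (c (c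
  (p (nat_lit 0xa7cc22)) e) e))) (c (c (c (m (nat_lit 0xfff76e)) (c (m (nat_lit 0x932eec)) e)) (c (c (m
  (nat_lit 0x260ee0)) e) e)) (c (c (c (p (nat_lit 0x1cc02de)) e) e) e))) e) e) e))) (c (c (c (c (c (c (c (p
  (nat_lit 0x83e9248)) (c (p (nat_lit 0xa08fa2)) (c (p (nat_lit 0xbaf9d8)) e))) (c (c (m (nat_lit 0x60a00e0))
  (c (p (nat_lit 0x8aba0)) e)) (c (c (p (nat_lit 0x256f2e4)) e) e))) (c (c (c (m (nat_lit 0x3376abe)) (c (m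
  (nat_lit 0xed68e8)) e)) (c (c (m (nat_lit 0x2dc72)) e) e)) (c (c (c (m (nat_lit 0x2eeae)) e) e) e))) (c (c
  (c (c (p (nat_lit 0xa08fa2)) (c (p (nat_lit 0x759ae30)) (c (m (nat_lit 0x558792)) e))) (c (c (p (nat_lit
  0x15d3398)) (c (p (nat_lit 0x3b85c)) e)) (c (c (p (nat_lit 0x21452fa)) e) e))) (c (c (c (m (nat_lit
  0x107f6ee)) (c (p (nat_lit 0x359b38)) e)) (c (c (m (nat_lit 0x2f2e72)) e) e)) (c (c (c (p (nat_lit
  0x217d82)) e) e) e))) (c (c (c (c (p (nat_lit 0xbaf9d8)) (c (m (nat_lit 0x558792)) e)) (c (c (m (nat_lit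
  0x2cd2c4)) e) e)) (c (c (c (m (nat_lit 0x6a362c)) e) e) e)) e))) (c (c (c (c (c (m (nat_lit 0x60a00e0)) (c
  (p (nat_lit 0x15d3398)) (c (m (nat_lit 0x2cd2c4)) e))) (c (c (p (nat_lit 0xce8e0b4)) (c (m (nat_lit
  0x32fc46)) e)) (c (c (m (nat_lit 0x2fa01bc)) e) e))) (c (c (c (p (nat_lit 0x19d69be)) (c (m (nat_lit
  0x502854)) e)) (c (c (m (nat_lit 0xb57a9c)) e) e)) (c (c (c (m (nat_lit 0xbe02c)) e) e) e))) (c (c (c (c (p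
  (nat_lit 0x8aba0)) (c (p (nat_lit 0x3b85c)) e)) (c (c (m (nat_lit 0x32fc46)) e) e)) (c (c (c (m (nat_lit
  0x8645d0)) e) e) e)) e)) (c (c (c (c (c (p (nat_lit 0x256f2e4)) (c (p (nat_lit 0x21452fa)) e)) (c (c (m
  (nat_lit 0x2fa01bc)) e) e)) (c (c (c (m (nat_lit 0x9884a0)) e) e) e)) e) e))) (c (c (c (c (c (c (m (nat_lit
  0x3376abe)) (c (m (nat_lit 0x107f6ee)) (c (m (nat_lit 0x6a362c)) e))) (c (c (p (nat_lit 0x19d69be)) (c (m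
  (nat_lit 0x8645d0)) e)) (c (c (m (nat_lit 0x9884a0)) e) e))) (c (c (c (p (nat_lit 0x8ef0188)) (c (p
  (nat_lit 0x89e5c0)) e)) (c (c (m (nat_lit 0x56eb30)) e) e)) (c (c (c (m (nat_lit 0xb02530)) e) e) e))) (c
  (c (c (c (m (nat_lit 0xed68e8)) (c (p (nat_lit 0x359b38)) e)) (c (c (m (nat_lit 0x502854)) e) e)) (c (c (c
  (p (nat_lit 0x89e5c0)) e) e) e)) e)) (c (c (c (c (c (m (nat_lit 0x2dc72)) (c (m (nat_lit 0x2f2e72)) e)) (c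
  (c (m (nat_lit 0xb57a9c)) e) e)) (c (c (c (m (nat_lit 0x56eb30)) e) e) e)) e) e)) (c (c (c (c (c (c (m
  (nat_lit 0x2eeae)) (c (p (nat_lit 0x217d82)) e)) (c (c (m (nat_lit 0xbe02c)) e) e)) (c (c (c (m (nat_lit
  0xb02530)) e) e) e)) e) e) e))) (c (c (c (c (c (c (c (m (nat_lit 0x40ec2e2)) (c (m (nat_lit 0x133ff50)) (c
  (m (nat_lit 0x532d3a)) e))) (c (c (p (nat_lit 0x91a9d0)) (c (p (nat_lit 0x79e048)) e)) (c (c (m (nat_lit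
  0x219fb28)) e) e))) (c (c (c (p (nat_lit 0x3a49760)) (c (p (nat_lit 0x6279a8)) e)) (c (c (p (nat_lit
  0xad2524)) e) e)) (c (c (c (p (nat_lit 0x9c30c)) e) e) e))) (c (c (c (c (m (nat_lit 0x133ff50)) (c (m
  (nat_lit 0x39e94f0)) e)) (c (c (m (nat_lit 0x23c0d18)) e) e)) (c (c (c (p (nat_lit 0xcfeef2)) e) e) e)) (c
  (c (c (c (m (nat_lit 0x532d3a)) e) e) e) e))) (c (c (c (c (c (p (nat_lit 0x91a9d0)) (c (m (nat_lit
  0x23c0d18)) e)) (c (c (m (nat_lit 0x59571d2)) e) e)) (c (c (c (m (nat_lit 0xd25a7e)) e) e) e)) (c (c (c (c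
  (p (nat_lit 0x79e048)) e) e) e) e)) (c (c (c (c (c (m (nat_lit 0x219fb28)) e) e) e) e) e))) (c (c (c (c (c
  (c (p (nat_lit 0x3a49760)) (c (p (nat_lit 0xcfeef2)) e)) (c (c (m (nat_lit 0xd25a7e)) e) e)) (c (c (c (m
  (nat_lit 0x4285ede)) e) e) e)) (c (c (c (c (p (nat_lit 0x6279a8)) e) e) e) e)) (c (c (c (c (c (p (nat_lit
  0xad2524)) e) e) e) e) e)) (c (c (c (c (c (c (p (nat_lit 0x9c30c)) e) e) e) e) e) e))) (c (c (c (c (c (c (c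
  (p (nat_lit 0x8d25374)) (c (p (nat_lit 0xe03274)) e)) (c (c (p (nat_lit 0x3f771ae)) e) e)) (c (c (c (m
  (nat_lit 0x14d26a6)) e) e) e)) (c (c (c (c (p (nat_lit 0xe03274)) e) e) e) e)) (c (c (c (c (c (p (nat_lit
  0x3f771ae)) e) e) e) e) e)) (c (c (c (c (c (c (m (nat_lit 0x14d26a6)) e) e) e) e) e) e)) (c (c (c (c (c (c
  (c (m (nat_lit 0x7d301ea)) e) e) e) e) e) e) e))))) (c (c (c (c (c (c (c (c (m (nat_lit 0x2e5d752)) (c (p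
  (nat_lit 0x152c460)) (c (p (nat_lit 0xdc61d0)) e))) (c (c (p (nat_lit 0x122dcde)) (c (p (nat_lit 0xdfdffa))
  e)) (c (c (m (nat_lit 0x187a4d2)) e) e))) (c (c (c (m (nat_lit 0xf118f2)) (c (m (nat_lit 0x508734)) e)) (c
  (c (p (nat_lit 0xdfdfee)) e) e)) (c (c (c (p (nat_lit 0xdc61d0)) e) e) e))) (c (c (c (c (p (nat_lit
  0x152c460)) (c (p (nat_lit 0x22eeaf6)) (c (p (nat_lit 0x69d8c)) e))) (c (c (m (nat_lit 0x11c002e)) (c (p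
  (nat_lit 0x573c6c)) e)) (c (c (m (nat_lit 0x3e64c0)) e) e))) (c (c (c (m (nat_lit 0x79e92a)) (c (m (nat_lit
  0x10d7480)) e)) (c (c (p (nat_lit 0x38328c)) e) e)) (c (c (c (m (nat_lit 0x381ad4)) e) e) e))) (c (c (c (c
  (p (nat_lit 0xdc61d0)) (c (p (nat_lit 0x69d8c)) e)) (c (c (p (nat_lit 0xa4b980)) e) e)) (c (c (c (m
  (nat_lit 0x381ad4)) e) e) e)) e))) (c (c (c (c (c (p (nat_lit 0x122dcde)) (c (m (nat_lit 0x11c002e)) (c (p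
  (nat_lit 0xa4b980)) e))) (c (c (m (nat_lit 0x77b727a)) (c (m (nat_lit 0x80076)) e)) (c (c (p (nat_lit
  0x3ab6c66)) e) e))) (c (c (c (m (nat_lit 0x2c041c8)) (c (p (nat_lit 0x1b7854)) e)) (c (c (m (nat_lit
  0x80082)) e) e)) (c (c (c (p (nat_lit 0xa4b986)) e) e) e))) (c (c (c (c (p (nat_lit 0xdfdffa)) (c (p
  (nat_lit 0x573c6c)) e)) (c (c (m (nat_lit 0x80076)) e) e)) (c (c (c (p (nat_lit 0x383298)) e) e) e)) e)) (c
  (c (c (c (c (m (nat_lit 0x187a4d2)) (c (m (nat_lit 0x3e64c0)) e)) (c (c (p (nat_lit 0x3ab6c66)) e) e)) (c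
  (c (c (m (nat_lit 0x3e6490)) e) e) e)) e) e))) (c (c (c (c (c (c (m (nat_lit 0xf118f2)) (c (m (nat_lit
  0x79e92a)) (c (m (nat_lit 0x381ad4)) e))) (c (c (m (nat_lit 0x2c041c8)) (c (p (nat_lit 0x383298)) e)) (c (c
  (m (nat_lit 0x3e6490)) e) e))) (c (c (c (p (nat_lit 0xbc8d9a)) (c (m (nat_lit 0x10d7480)) e)) (c (c (p
  (nat_lit 0x573c78)) e) e)) (c (c (c (p (nat_lit 0x69d8c)) e) e) e))) (c (c (c (c (m (nat_lit 0x508734)) (c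
  (m (nat_lit 0x10d7480)) e)) (c (c (p (nat_lit 0x1b7854)) e) e)) (c (c (c (m (nat_lit 0x10d7480)) e) e) e))
  e)) (c (c (c (c (c (p (nat_lit 0xdfdfee)) (c (p (nat_lit 0x38328c)) e)) (c (c (m (nat_lit 0x80082)) e) e))
  (c (c (c (p (nat_lit 0x573c78)) e) e) e)) e) e)) (c (c (c (c (c (c (p (nat_lit 0xdc61d0)) (c (m (nat_lit
  0x381ad4)) e)) (c (c (p (nat_lit 0xa4b986)) e) e)) (c (c (c (p (nat_lit 0x69d8c)) e) e) e)) e) e) e))) (c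
  (c (c (c (c (c (c (p (nat_lit 0x513217e)) (c (p (nat_lit 0xf51b5e)) (c (m (nat_lit 0x2b0914)) e))) (c (c (p
  (nat_lit 0x3260b1a)) (c (m (nat_lit 0x8f8644)) e)) (c (c (m (nat_lit 0x10fdbe0)) e) e))) (c (c (c (m
  (nat_lit 0x41217c)) (c (p (nat_lit 0x8c4180)) e)) (c (c (m (nat_lit 0x8c8248)) e) e)) (c (c (c (p (nat_lit
  0x2f1654)) e) e) e))) (c (c (c (c (p (nat_lit 0xf51b5e)) (c (m (nat_lit 0x2ab01fc)) e)) (c (c (m (nat_lit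
  0x5664cc)) e) e)) (c (c (c (p (nat_lit 0x989e20)) e) e) e)) (c (c (c (c (m (nat_lit 0x2b0914)) e) e) e)
  e))) (c (c (c (c (c (p (nat_lit 0x3260b1a)) (c (m (nat_lit 0x5664cc)) e)) (c (c (m (nat_lit 0x309f0c)) e)
  e)) (c (c (c (p (nat_lit 0x318432)) e) e) e)) (c (c (c (c (m (nat_lit 0x8f8644)) e) e) e) e)) (c (c (c (c
  (c (m (nat_lit 0x10fdbe0)) e) e) e) e) e))) (c (c (c (c (c (c (m (nat_lit 0x41217c)) (c (p (nat_lit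
  0x989e20)) e)) (c (c (p (nat_lit 0x318432)) e) e)) (c (c (c (m (nat_lit 0x2d0ba54)) e) e) e)) (c (c (c (c
  (p (nat_lit 0x8c4180)) e) e) e) e)) (c (c (c (c (c (m (nat_lit 0x8c8248)) e) e) e) e) e)) (c (c (c (c (c (c
  (p (nat_lit 0x2f1654)) e) e) e) e) e) e))) (c (c (c (c (c (c (c (m (nat_lit 0x99282fc)) (c (m (nat_lit
  0x16386ea)) e)) (c (c (m (nat_lit 0xe12b92)) e) e)) (c (c (c (p (nat_lit 0xa38a3e)) e) e) e)) (c (c (c (c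
  (m (nat_lit 0x16386ea)) e) e) e) e)) (c (c (c (c (c (m (nat_lit 0xe12b92)) e) e) e) e) e)) (c (c (c (c (c
  (c (p (nat_lit 0xa38a3e)) e) e) e) e) e) e)) (c (c (c (c (c (c (c (p (nat_lit 0x11728c2)) e) e) e) e) e) e)
  e)))) (c (c (c (c (c (c (c (c (p (nat_lit 0x5bdbeea)) (c (p (nat_lit 0x8799a2)) (c (m (nat_lit 0xeaa5b4))
  e))) (c (c (m (nat_lit 0xf5f05e)) (c (m (nat_lit 0x3e6cdc)) e)) (c (c (p (nat_lit 0xb8821c)) e) e))) (c (c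
  (c (p (nat_lit 0x2f6c7c)) (c (m (nat_lit 0x14cc10)) e)) (c (c (m (nat_lit 0x3e6cd0)) e) e)) (c (c (c (m
  (nat_lit 0xeaa5c0)) e) e) e))) (c (c (c (c (p (nat_lit 0x8799a2)) (c (p (nat_lit 0x2b9f758)) e)) (c (c (p
  (nat_lit 0x4cb360)) e) e)) (c (c (c (p (nat_lit 0xe30328)) e) e) e)) (c (c (c (c (m (nat_lit 0xeaa5b4)) e)
  e) e) e))) (c (c (c (c (c (m (nat_lit 0xf5f05e)) (c (p (nat_lit 0x4cb360)) e)) (c (c (p (nat_lit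
  0x2ea9100)) e) e)) (c (c (c (p (nat_lit 0x4cb360)) e) e) e)) (c (c (c (c (m (nat_lit 0x3e6cdc)) e) e) e)
  e)) (c (c (c (c (c (p (nat_lit 0xb8821c)) e) e) e) e) e))) (c (c (c (c (c (c (p (nat_lit 0x2f6c7c)) (c (p
  (nat_lit 0xe30328)) e)) (c (c (p (nat_lit 0x4cb360)) e) e)) (c (c (c (p (nat_lit 0x2b9f770)) e) e) e)) (c
  (c (c (c (m (nat_lit 0x14cc10)) e) e) e) e)) (c (c (c (c (c (m (nat_lit 0x3e6cd0)) e) e) e) e) e)) (c (c (c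
  (c (c (c (m (nat_lit 0xeaa5c0)) e) e) e) e) e) e))) (c (c (c (c (c (c (c (m (nat_lit 0x316383c)) (c (m
  (nat_lit 0x182102a)) e)) (c (c (m (nat_lit 0xdd92e6)) e) e)) (c (c (c (m (nat_lit 0x82473c)) e) e) e)) (c
  (c (c (c (m (nat_lit 0x182102a)) e) e) e) e)) (c (c (c (c (c (m (nat_lit 0xdd92e6)) e) e) e) e) e)) (c (c
  (c (c (c (c (m (nat_lit 0x82473c)) e) e) e) e) e) e)) (c (c (c (c (c (c (c (p (nat_lit 0x57d24b6)) e) e) e)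
  e) e) e) e))) (c (c (c (c (c (c (c (c (m (nat_lit 0x383ae9a)) (c (p (nat_lit 0x450d44)) e)) (c (c (m
  (nat_lit 0xfdcb24)) e) e)) (c (c (c (p (nat_lit 0x450d44)) e) e) e)) (c (c (c (c (p (nat_lit 0x450d44)) e)
  e) e) e)) (c (c (c (c (c (m (nat_lit 0xfdcb24)) e) e) e) e) e)) (c (c (c (c (c (c (p (nat_lit 0x450d44)) e)
  e) e) e) e) e)) (c (c (c (c (c (c (c (m (nat_lit 0xedb526)) e) e) e) e) e) e) e)) (c (c (c (c (c (c (c (c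
  (p (nat_lit 0x2c32ed8)) e) e) e) e) e) e) e) e))))) (c (c (c (c (c (c (c (c (c (p (nat_lit 0x55d4126)) (c
  (p (nat_lit 0x48c96ae)) (c (m (nat_lit 0x2eeae)) e))) (c (c (m (nat_lit 0x2076300)) (c (m (nat_lit
  0x2dc54)) e)) (c (c (p (nat_lit 0x256f21e)) e) e))) (c (c (c (m (nat_lit 0x1aa18cc)) (c (m (nat_lit
  0xed68d0)) e)) (c (c (p (nat_lit 0x8aba6)) e) e)) (c (c (c (p (nat_lit 0xbaf9d2)) e) e) e))) (c (c (c (c (p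
  (nat_lit 0x48c96ae)) (c (p (nat_lit 0x273f43e)) (c (m (nat_lit 0xb0253c)) e))) (c (c (p (nat_lit
  0x2518d04)) (c (m (nat_lit 0x56eb54)) e)) (c (c (m (nat_lit 0x98847c)) e) e))) (c (c (c (m (nat_lit
  0x446e3e)) (c (p (nat_lit 0x89e5a8)) e)) (c (c (m (nat_lit 0x8645dc)) e) e)) (c (c (c (m (nat_lit
  0x6a3638)) e) e) e))) (c (c (c (c (m (nat_lit 0x2eeae)) (c (m (nat_lit 0xb0253c)) e)) (c (c (m (nat_lit
  0xbe032)) e) e)) (c (c (c (p (nat_lit 0x217d82)) e) e) e)) e))) (c (c (c (c (c (m (nat_lit 0x2076300)) (c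
  (p (nat_lit 0x2518d04)) (c (m (nat_lit 0xbe032)) e))) (c (c (p (nat_lit 0x45a2f1e)) (c (m (nat_lit
  0xb57ab4)) e)) (c (c (m (nat_lit 0x2fa01f2)) e) e))) (c (c (c (m (nat_lit 0x30f60de)) (c (m (nat_lit
  0x502848)) e)) (c (c (m (nat_lit 0x32fc52)) e) e)) (c (c (c (m (nat_lit 0x2cd2c4)) e) e) e))) (c (c (c (c
  (m (nat_lit 0x2dc54)) (c (m (nat_lit 0x56eb54)) e)) (c (c (m (nat_lit 0xb57ab4)) e) e)) (c (c (c (m
  (nat_lit 0x2f2e60)) e) e) e)) e)) (c (c (c (c (c (p (nat_lit 0x256f21e)) (c (m (nat_lit 0x98847c)) e)) (c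
  (c (m (nat_lit 0x2fa01f2)) e) e)) (c (c (c (p (nat_lit 0x2145330)) e) e) e)) e) e))) (c (c (c (c (c (c (m
  (nat_lit 0x1aa18cc)) (c (m (nat_lit 0x446e3e)) (c (p (nat_lit 0x217d82)) e))) (c (c (m (nat_lit 0x30f60de))
  (c (m (nat_lit 0x2f2e60)) e)) (c (c (p (nat_lit 0x2145330)) e) e))) (c (c (c (p (nat_lit 0x9dfe36)) (c (p
  (nat_lit 0x359b44)) e)) (c (c (p (nat_lit 0x3b850)) e) e)) (c (c (c (m (nat_lit 0x558792)) e) e) e))) (c (c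
  (c (c (m (nat_lit 0xed68d0)) (c (p (nat_lit 0x89e5a8)) e)) (c (c (m (nat_lit 0x502848)) e) e)) (c (c (c (p
  (nat_lit 0x359b44)) e) e) e)) e)) (c (c (c (c (c (p (nat_lit 0x8aba6)) (c (m (nat_lit 0x8645dc)) e)) (c (c
  (m (nat_lit 0x32fc52)) e) e)) (c (c (c (p (nat_lit 0x3b850)) e) e) e)) e) e)) (c (c (c (c (c (c (p (nat_lit
  0xbaf9d2)) (c (m (nat_lit 0x6a3638)) e)) (c (c (m (nat_lit 0x2cd2c4)) e) e)) (c (c (c (m (nat_lit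
  0x558792)) e) e) e)) e) e) e))) (c (c (c (c (c (c (c (m (nat_lit 0x803f44e)) (c (m (nat_lit 0x451b63c)) (c
  (p (nat_lit 0x432348)) e))) (c (c (m (nat_lit 0x3bda0e0)) (c (p (nat_lit 0x6306cc)) e)) (c (c (p (nat_lit
  0x2e5108c)) e) e))) (c (c (c (m (nat_lit 0x1cc9fc2)) (c (m (nat_lit 0x1206600)) e)) (c (c (p (nat_lit
  0x6306cc)) e) e)) (c (c (c (p (nat_lit 0x432348)) e) e) e))) (c (c (c (c (m (nat_lit 0x451b63c)) (c (m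
  (nat_lit 0x3d2fc4e)) e)) (c (c (m (nat_lit 0x1a74362)) e) e)) (c (c (c (m (nat_lit 0xbc0304)) e) e) e)) (c
  (c (c (c (p (nat_lit 0x432348)) e) e) e) e))) (c (c (c (c (c (m (nat_lit 0x3bda0e0)) (c (m (nat_lit
  0x1a74362)) e)) (c (c (p (nat_lit 0xaf2432)) e) e)) (c (c (c (m (nat_lit 0x301c8)) e) e) e)) (c (c (c (c (p
  (nat_lit 0x6306cc)) e) e) e) e)) (c (c (c (c (c (p (nat_lit 0x2e5108c)) e) e) e) e) e))) (c (c (c (c (c (c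
  (m (nat_lit 0x1cc9fc2)) (c (m (nat_lit 0xbc0304)) e)) (c (c (m (nat_lit 0x301c8)) e) e)) (c (c (c (m
  (nat_lit 0x2609e4a)) e) e) e)) (c (c (c (c (m (nat_lit 0x1206600)) e) e) e) e)) (c (c (c (c (c (p (nat_lit
  0x6306cc)) e) e) e) e) e)) (c (c (c (c (c (c (p (nat_lit 0x432348)) e) e) e) e) e) e))) (c (c (c (c (c (c
  (c (p (nat_lit 0x317dbd0)) (c (p (nat_lit 0x137dca8)) e)) (c (c (m (nat_lit 0x197f2bc)) e) e)) (c (c (c (p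
  (nat_lit 0x1b6d854)) e) e) e)) (c (c (c (c (p (nat_lit 0x137dca8)) e) e) e) e)) (c (c (c (c (c (m (nat_lit
  0x197f2bc)) e) e) e) e) e)) (c (c (c (c (c (c (p (nat_lit 0x1b6d854)) e) e) e) e) e) e)) (c (c (c (c (c (c
  (c (m (nat_lit 0xf51708)) e) e) e) e) e) e) e)))) (c (c (c (c (c (c (c (c (p (nat_lit 0x10a50d4)) (c (m
  (nat_lit 0x26f6016)) (c (p (nat_lit 0x2f1648)) e))) (c (c (p (nat_lit 0x2cc70ae)) (c (m (nat_lit 0x8c8254))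
  e)) (c (c (m (nat_lit 0x10fdbec)) e) e))) (c (c (c (p (nat_lit 0x2ea916)) (c (p (nat_lit 0x8c4180)) e)) (c
  (c (m (nat_lit 0x8f8638)) e) e)) (c (c (c (m (nat_lit 0x2b0920)) e) e) e))) (c (c (c (c (m (nat_lit
  0x26f6016)) (c (m (nat_lit 0x790920)) e)) (c (c (p (nat_lit 0x5696c4)) e) e)) (c (c (c (p (nat_lit
  0xb3cac0)) e) e) e)) (c (c (c (c (p (nat_lit 0x2f1648)) e) e) e) e))) (c (c (c (c (c (p (nat_lit
  0x2cc70ae)) (c (p (nat_lit 0x5696c4)) e)) (c (c (m (nat_lit 0x2693d0)) e) e)) (c (c (c (p (nat_lit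
  0x1233942)) e) e) e)) (c (c (c (c (m (nat_lit 0x8c8254)) e) e) e) e)) (c (c (c (c (c (m (nat_lit
  0x10fdbec)) e) e) e) e) e))) (c (c (c (c (c (c (p (nat_lit 0x2ea916)) (c (p (nat_lit 0xb3cac0)) e)) (c (c
  (p (nat_lit 0x1233942)) e) e)) (c (c (c (p (nat_lit 0x114d5d8)) e) e) e)) (c (c (c (c (p (nat_lit
  0x8c4180)) e) e) e) e)) (c (c (c (c (c (m (nat_lit 0x8f8638)) e) e) e) e) e)) (c (c (c (c (c (c (m (nat_lit
  0x2b0920)) e) e) e) e) e) e))) (c (c (c (c (c (c (c (p (nat_lit 0x701874)) (c (p (nat_lit 0x1a96df6)) e))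
  (c (c (m (nat_lit 0x16a7318)) e) e)) (c (c (c (p (nat_lit 0xd11eca)) e) e) e)) (c (c (c (c (p (nat_lit
  0x1a96df6)) e) e) e) e)) (c (c (c (c (c (m (nat_lit 0x16a7318)) e) e) e) e) e)) (c (c (c (c (c (c (p
  (nat_lit 0xd11eca)) e) e) e) e) e) e)) (c (c (c (c (c (c (c (p (nat_lit 0x2cc5188)) e) e) e) e) e) e) e)))
  (c (c (c (c (c (c (c (c (m (nat_lit 0x23b6d5e)) (c (m (nat_lit 0x4da510)) e)) (c (c (p (nat_lit 0x122274))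
  e) e)) (c (c (c (m (nat_lit 0xcc73f2)) e) e) e)) (c (c (c (c (m (nat_lit 0x4da510)) e) e) e) e)) (c (c (c
  (c (c (p (nat_lit 0x122274)) e) e) e) e) e)) (c (c (c (c (c (c (m (nat_lit 0xcc73f2)) e) e) e) e) e) e)) (c
  (c (c (c (c (c (c (p (nat_lit 0xa4f1de)) e) e) e) e) e) e) e)) (c (c (c (c (c (c (c (c (p (nat_lit
  0x974b20)) e) e) e) e) e) e) e) e)))) (c (c (c (c (c (c (c (c (c (m (nat_lit 0x2ab614e)) (c (m (nat_lit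
  0x1b7e22e)) (c (p (nat_lit 0x9c30c)) e))) (c (c (p (nat_lit 0xb69e08)) (c (p (nat_lit 0xad253c)) e)) (c (c
  (m (nat_lit 0x219fada)) e) e))) (c (c (c (m (nat_lit 0x8800aa)) (c (p (nat_lit 0x6279c0)) e)) (c (c (p
  (nat_lit 0x79e060)) e) e)) (c (c (c (m (nat_lit 0x532d34)) e) e) e))) (c (c (c (c (m (nat_lit 0x1b7e22e))
  (c (p (nat_lit 0x3c50a18)) e)) (c (c (p (nat_lit 0x1dc280)) e) e)) (c (c (c (p (nat_lit 0xc669c)) e) e) e))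
  (c (c (c (c (p (nat_lit 0x9c30c)) e) e) e) e))) (c (c (c (c (c (p (nat_lit 0xb69e08)) (c (p (nat_lit
  0x1dc280)) e)) (c (c (p (nat_lit 0x2f94156)) e) e)) (c (c (c (p (nat_lit 0x8c4540)) e) e) e)) (c (c (c (c
  (p (nat_lit 0xad253c)) e) e) e) e)) (c (c (c (c (c (m (nat_lit 0x219fada)) e) e) e) e) e))) (c (c (c (c (c
  (c (m (nat_lit 0x8800aa)) (c (p (nat_lit 0xc669c)) e)) (c (c (p (nat_lit 0x8c4540)) e) e)) (c (c (c (p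
  (nat_lit 0x1aabd84)) e) e) e)) (c (c (c (c (p (nat_lit 0x6279c0)) e) e) e) e)) (c (c (c (c (c (p (nat_lit
  0x79e060)) e) e) e) e) e)) (c (c (c (c (c (c (m (nat_lit 0x532d34)) e) e) e) e) e) e))) (c (c (c (c (c (c
  (c (p (nat_lit 0xcae6a86)) (c (p (nat_lit 0x15733c2)) e)) (c (c (m (nat_lit 0x254b86)) e) e)) (c (c (c (p
  (nat_lit 0xef2bba)) e) e) e)) (c (c (c (c (p (nat_lit 0x15733c2)) e) e) e) e)) (c (c (c (c (c (m (nat_lit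
  0x254b86)) e) e) e) e) e)) (c (c (c (c (c (c (p (nat_lit 0xef2bba)) e) e) e) e) e) e)) (c (c (c (c (c (c (c
  (m (nat_lit 0x407b464)) e) e) e) e) e) e) e))) (c (c (c (c (c (c (c (c (m (nat_lit 0x1322f52)) (c (m
  (nat_lit 0x47cacc)) e)) (c (c (m (nat_lit 0x11100de)) e) e)) (c (c (c (m (nat_lit 0x60edc0)) e) e) e)) (c
  (c (c (c (m (nat_lit 0x47cacc)) e) e) e) e)) (c (c (c (c (c (m (nat_lit 0x11100de)) e) e) e) e) e)) (c (c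
  (c (c (c (c (m (nat_lit 0x60edc0)) e) e) e) e) e) e)) (c (c (c (c (c (c (c (m (nat_lit 0x2424d4a)) e) e) e)
  e) e) e) e)) (c (c (c (c (c (c (c (c (p (nat_lit 0x2cd9f48)) e) e) e) e) e) e) e) e))) (c (c (c (c (c (c (c
  (c (c (p (nat_lit 0x738c5a)) (c (m (nat_lit 0x118a190)) e)) (c (c (m (nat_lit 0x301ffe)) e) e)) (c (c (c (m
  (nat_lit 0x1d2e5a)) e) e) e)) (c (c (c (c (m (nat_lit 0x118a190)) e) e) e) e)) (c (c (c (c (c (m (nat_lit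
  0x301ffe)) e) e) e) e) e)) (c (c (c (c (c (c (m (nat_lit 0x1d2e5a)) e) e) e) e) e) e)) (c (c (c (c (c (c (c
  (m (nat_lit 0x360a9fe)) e) e) e) e) e) e) e)) (c (c (c (c (c (c (c (c (p (nat_lit 0x7535b8)) e) e) e) e) e)
  e) e) e)) (c (c (c (c (c (c (c (c (c (p (nat_lit 0x209b290)) e) e) e) e) e) e) e) e) e)))))

noncomputable def gt_0_2_3 : Tr :=
  (c (c (c (c (c (c (c (c (c (m (nat_lit 0x30d4a36)) (c (p (nat_lit 0x1b2ca54)) (c (p (nat_lit 0x448b48))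
  e))) (c (c (p (nat_lit 0x150b78a)) (c (m (nat_lit 0x1d40450)) e)) (c (c (p (nat_lit 0x6d4220)) e) e))) (c
  (c (c (m (nat_lit 0x2b46ee)) (c (p (nat_lit 0x97520a)) e)) (c (c (m (nat_lit 0x6139a4)) e) e)) (c (c (c (p
  (nat_lit 0x9e8dca)) e) e) e))) (c (c (c (c (m (nat_lit 0x2b76a96)) (c (m (nat_lit 0xfbbb54)) (c (m (nat_lit
  0xd92b10)) e))) (c (c (m (nat_lit 0xf1213e)) (c (p (nat_lit 0xc7a9e8)) e)) (c (c (m (nat_lit 0x4f8648)) e)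
  e))) (c (c (c (m (nat_lit 0xe95dca)) (c (m (nat_lit 0x4513d4)) e)) (c (c (m (nat_lit 0x1243d4)) e) e)) (c
  (c (c (p (nat_lit 0x8e7664)) e) e) e))) (c (c (c (c (m (nat_lit 0x390198)) (c (p (nat_lit 0x10fbe88)) (c (m
  (nat_lit 0x33b0b8)) e))) (c (c (m (nat_lit 0x905358)) (c (p (nat_lit 0x438d20)) e)) (c (c (p (nat_lit
  0x18fc60)) e) e))) (c (c (c (p (nat_lit 0x38604c)) (c (p (nat_lit 0x231bd0)) e)) (c (c (p (nat_lit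
  0x28290c)) e) e)) (c (c (c (m (nat_lit 0x75a350)) e) e) e))) e))) (c (c (c (c (c (p (nat_lit 0x193f84e)) (c
  (p (nat_lit 0x190a622)) (c (m (nat_lit 0xe97d20)) e))) (c (c (m (nat_lit 0x94b4956)) (c (p (nat_lit
  0x4265a60)) e)) (c (c (m (nat_lit 0x2a83b20)) e) e))) (c (c (c (m (nat_lit 0x169f23c)) (c (m (nat_lit
  0x1da97e0)) e)) (c (c (p (nat_lit 0x127171e)) e) e)) (c (c (c (m (nat_lit 0x1060ffe)) e) e) e))) (c (c (c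
  (c (m (nat_lit 0x19a226)) (c (p (nat_lit 0xbfaf78)) (c (m (nat_lit 0x53ba10)) e))) (c (c (p (nat_lit
  0x16fc398)) (c (p (nat_lit 0x21ab0)) e)) (c (c (m (nat_lit 0x4a73a8)) e) e))) (c (c (c (p (nat_lit
  0x36167a)) (c (p (nat_lit 0x38901c)) e)) (c (c (m (nat_lit 0x18cdfe)) e) e)) (c (c (c (m (nat_lit
  0x2d6f84)) e) e) e))) e)) (c (c (c (c (c (m (nat_lit 0x20c3700)) (c (m (nat_lit 0x16440)) (c (p (nat_lit
  0x591c60)) e))) (c (c (p (nat_lit 0x4e61518)) (c (m (nat_lit 0x1516500)) e)) (c (c (p (nat_lit 0x2b591f8))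
  e) e))) (c (c (c (m (nat_lit 0x1210b54)) (c (p (nat_lit 0x13c29cc)) e)) (c (c (m (nat_lit 0x75aa64)) e) e))
  (c (c (c (p (nat_lit 0x1565a5a)) e) e) e))) e) e))) (c (c (c (c (c (c (p (nat_lit 0x184d112)) (c (m
  (nat_lit 0xbbc440)) (c (p (nat_lit 0xb7a0f8)) e))) (c (c (m (nat_lit 0x2b36c9e)) (c (p (nat_lit 0xedaaa0))
  e)) (c (c (p (nat_lit 0x22e900)) e) e))) (c (c (c (m (nat_lit 0x1227b64)) (c (m (nat_lit 0x10931a)) e)) (c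
  (c (p (nat_lit 0xabe66a)) e) e)) (c (c (c (m (nat_lit 0x7c2a2)) e) e) e))) (c (c (c (c (p (nat_lit
  0x16695c)) (c (p (nat_lit 0x5471d0)) (c (m (nat_lit 0x10d98e0)) e))) (c (c (p (nat_lit 0xbceaa0)) (c (m
  (nat_lit 0x179bb0)) e)) (c (c (p (nat_lit 0x6fad10)) e) e))) (c (c (c (p (nat_lit 0x151e12c)) (c (p
  (nat_lit 0x4e0)) e)) (c (c (m (nat_lit 0x12b538)) e) e)) (c (c (c (m (nat_lit 0xe373c0)) e) e) e))) e)) (c
  (c (c (c (c (m (nat_lit 0xd2bf76)) (c (p (nat_lit 0xbf7258)) (c (m (nat_lit 0xd71588)) e))) (c (c (p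
  (nat_lit 0x164f790)) (c (m (nat_lit 0x6b4438)) e)) (c (c (p (nat_lit 0x635970)) e) e))) (c (c (c (p
  (nat_lit 0x109f62)) (c (p (nat_lit 0x5dc678)) e)) (c (c (m (nat_lit 0x3b34d2)) e) e)) (c (c (c (p (nat_lit
  0x5d0ae6)) e) e) e))) e) e)) (c (c (c (c (c (c (m (nat_lit 0xee2726)) (c (m (nat_lit 0xf302a0)) (c (p
  (nat_lit 0x6ced0)) e))) (c (c (p (nat_lit 0x180a740)) (c (p (nat_lit 0xad6f40)) e)) (c (c (m (nat_lit
  0x5e5780)) e) e))) (c (c (c (m (nat_lit 0x2085a8)) (c (m (nat_lit 0x7bd080)) e)) (c (c (m (nat_lit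
  0x125cbe)) e) e)) (c (c (c (p (nat_lit 0x4e35e2)) e) e) e))) e) e) e))) (c (c (c (c (c (c (c (p (nat_lit
  0x50f20e)) (c (m (nat_lit 0x130f752)) (c (p (nat_lit 0x13647c0)) e))) (c (c (p (nat_lit 0x152b254)) (c (m
  (nat_lit 0x213c18)) e)) (c (c (p (nat_lit 0x4e33c0)) e) e))) (c (c (c (m (nat_lit 0x54afa3a)) (c (m
  (nat_lit 0x7174e)) e)) (c (c (m (nat_lit 0x166f32)) e) e)) (c (c (c (p (nat_lit 0x39c558)) e) e) e))) (c (c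
  (c (c (p (nat_lit 0x2ff52ea)) (c (m (nat_lit 0x18217b6)) (c (p (nat_lit 0x6ab930)) e))) (c (c (p (nat_lit
  0x45464ee)) (c (p (nat_lit 0x14b380)) e)) (c (c (m (nat_lit 0x62f10)) e) e))) (c (c (c (m (nat_lit
  0xbb3e36)) (c (p (nat_lit 0x721cb6)) e)) (c (c (p (nat_lit 0x336eb8)) e) e)) (c (c (c (p (nat_lit
  0x1351a4)) e) e) e))) (c (c (c (c (p (nat_lit 0x4b80c4)) (c (p (nat_lit 0x217ed8)) e)) (c (c (m (nat_lit
  0x3aa10)) e) e)) (c (c (c (p (nat_lit 0x20f772)) e) e) e)) e))) (c (c (c (c (c (m (nat_lit 0xc315a2)) (c (p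
  (nat_lit 0x31b797a)) (c (m (nat_lit 0x14d9c0)) e))) (c (c (p (nat_lit 0x913e024)) (c (m (nat_lit 0x227778))
  e)) (c (c (m (nat_lit 0x5bb6d8)) e) e))) (c (c (c (p (nat_lit 0x543f0de)) (c (m (nat_lit 0x24724e)) e)) (c
  (c (m (nat_lit 0x36095a)) e) e)) (c (c (c (m (nat_lit 0x5898ba)) e) e) e))) (c (c (c (c (m (nat_lit
  0x87fcc0)) (c (p (nat_lit 0x3495c0)) e)) (c (c (p (nat_lit 0x32af18)) e) e)) (c (c (c (m (nat_lit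
  0x78382e)) e) e) e)) e)) (c (c (c (c (c (p (nat_lit 0x2a4e17a)) (c (m (nat_lit 0x18ab978)) e)) (c (c (m
  (nat_lit 0x2fe9488)) e) e)) (c (c (c (m (nat_lit 0x21b8206)) e) e) e)) e) e))) (c (c (c (c (c (c (p
  (nat_lit 0x12b50ce)) (c (p (nat_lit 0xd84fe6)) (c (m (nat_lit 0x96d1a0)) e))) (c (c (p (nat_lit 0x22d861a))
  (c (m (nat_lit 0xcb9e20)) e)) (c (c (m (nat_lit 0x9a2000)) e) e))) (c (c (c (p (nat_lit 0xcd4e13a)) (c (m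
  (nat_lit 0x7f785c)) e)) (c (c (m (nat_lit 0x100c7d0)) e) e)) (c (c (c (m (nat_lit 0x258a7f4)) e) e) e))) (c
  (c (c (c (m (nat_lit 0x79b9cc)) (c (p (nat_lit 0xe63d0)) e)) (c (c (p (nat_lit 0x6180)) e) e)) (c (c (c (p
  (nat_lit 0x5de6dc)) e) e) e)) e)) (c (c (c (c (c (p (nat_lit 0xb42736)) (c (m (nat_lit 0x775350)) e)) (c (c
  (m (nat_lit 0xd64370)) e) e)) (c (c (c (m (nat_lit 0xec569e)) e) e) e)) e) e)) (c (c (c (c (c (c (p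
  (nat_lit 0x1841bc2)) (c (m (nat_lit 0x55b030)) e)) (c (c (p (nat_lit 0x9cd08)) e) e)) (c (c (c (m (nat_lit
  0xf8aef4)) e) e) e)) e) e) e))) (c (c (c (c (c (c (c (p (nat_lit 0x40324e0)) (c (m (nat_lit 0x2313d0e)) (c
  (m (nat_lit 0xcb340)) e))) (c (c (m (nat_lit 0x5a160f2)) (c (p (nat_lit 0x5d9ae0)) e)) (c (c (m (nat_lit
  0x12e118)) e) e))) (c (c (c (p (nat_lit 0x5d78558)) (c (p (nat_lit 0x2e4436)) e)) (c (c (p (nat_lit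
  0x5012e2)) e) e)) (c (c (c (p (nat_lit 0x84944a)) e) e) e))) (c (c (c (c (p (nat_lit 0x1b88e00)) (c (p
  (nat_lit 0x9114d2)) e)) (c (c (m (nat_lit 0x18d0230)) e) e)) (c (c (c (m (nat_lit 0x3c50ac)) e) e) e)) (c
  (c (c (c (m (nat_lit 0x45b66a)) e) e) e) e))) (c (c (c (c (c (m (nat_lit 0x4844f4)) (c (p (nat_lit
  0x559c74)) e)) (c (c (m (nat_lit 0x11e3356)) e) e)) (c (c (c (m (nat_lit 0x18bdfb4)) e) e) e)) (c (c (c (c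
  (m (nat_lit 0x17eb84)) e) e) e) e)) (c (c (c (c (c (m (nat_lit 0x3dc03e)) e) e) e) e) e))) (c (c (c (c (c
  (c (m (nat_lit 0x5d17a90)) (c (m (nat_lit 0x193056)) e)) (c (c (m (nat_lit 0x2c2284)) e) e)) (c (c (c (m
  (nat_lit 0x6319cda)) e) e) e)) (c (c (c (c (m (nat_lit 0x5235c)) e) e) e) e)) (c (c (c (c (c (p (nat_lit
  0x225d80)) e) e) e) e) e)) (c (c (c (c (c (c (m (nat_lit 0x8cce3e)) e) e) e) e) e) e))) (c (c (c (c (c (c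
  (c (m (nat_lit 0xb52354)) (c (p (nat_lit 0x21ce40c)) e)) (c (c (p (nat_lit 0x3a337dc)) e) e)) (c (c (c (m
  (nat_lit 0x32d27a2)) e) e) e)) (c (c (c (c (m (nat_lit 0x1d8bc7e)) e) e) e) e)) (c (c (c (c (c (m (nat_lit
  0x28323b4)) e) e) e) e) e)) (c (c (c (c (c (c (p (nat_lit 0x30bd552)) e) e) e) e) e) e)) (c (c (c (c (c (c
  (c (m (nat_lit 0xd99b90)) e) e) e) e) e) e) e))))) (c (c (c (c (c (c (c (c (p (nat_lit 0x2bb0de0)) (c (p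
  (nat_lit 0x1777d4)) (c (m (nat_lit 0xfc9720)) e))) (c (c (p (nat_lit 0x13dbf26)) (c (m (nat_lit 0x5eb060))
  e)) (c (c (p (nat_lit 0x997338)) e) e))) (c (c (c (p (nat_lit 0x2f909e8)) (c (m (nat_lit 0x409080)) e)) (c
  (c (m (nat_lit 0x4a5998)) e) e)) (c (c (c (m (nat_lit 0x1886b26)) e) e) e))) (c (c (c (c (p (nat_lit
  0x41e3bba)) (c (m (nat_lit 0x4dd606)) (c (m (nat_lit 0x1b8550)) e))) (c (c (p (nat_lit 0x98ef0e)) (c (p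
  (nat_lit 0x38e4a0)) e)) (c (c (m (nat_lit 0xf05400)) e) e))) (c (c (c (m (nat_lit 0x57db12)) (c (m (nat_lit
  0x240660)) e)) (c (c (m (nat_lit 0xa296c)) e) e)) (c (c (c (m (nat_lit 0x1865a0)) e) e) e))) (c (c (c (c (m
  (nat_lit 0x6b99f4)) (c (p (nat_lit 0x43006e)) e)) (c (c (m (nat_lit 0x351f6c)) e) e)) (c (c (c (p (nat_lit
  0x5ae3b8)) e) e) e)) e))) (c (c (c (c (c (p (nat_lit 0x26a2d4e)) (c (m (nat_lit 0x3a1c37c)) (c (m (nat_lit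
  0x30a698)) e))) (c (c (m (nat_lit 0x14fe908)) (c (m (nat_lit 0x194dc0)) e)) (c (c (m (nat_lit 0x2d0eb8)) e)
  e))) (c (c (c (p (nat_lit 0xcb82a2)) (c (p (nat_lit 0x41397c)) e)) (c (c (p (nat_lit 0x849b1c)) e) e)) (c
  (c (c (p (nat_lit 0x2c117a)) e) e) e))) (c (c (c (c (p (nat_lit 0x3128ca)) (c (m (nat_lit 0xf4cf8)) e)) (c
  (c (p (nat_lit 0x74b3a4)) e) e)) (c (c (c (m (nat_lit 0x38f7c0)) e) e) e)) e)) (c (c (c (c (c (m (nat_lit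
  0x24c2c58)) (c (p (nat_lit 0x2693ad8)) e)) (c (c (p (nat_lit 0x17fccf4)) e) e)) (c (c (c (m (nat_lit
  0x732120)) e) e) e)) e) e))) (c (c (c (c (c (c (m (nat_lit 0xf5b554)) (c (p (nat_lit 0x869d60)) (c (p
  (nat_lit 0x12dd3d0)) e))) (c (c (p (nat_lit 0x1d195a)) (c (m (nat_lit 0x86eb90)) e)) (c (c (m (nat_lit
  0x67ef00)) e) e))) (c (c (c (m (nat_lit 0x6949bc)) (c (p (nat_lit 0x7d2db8)) e)) (c (c (m (nat_lit
  0x203808)) e) e)) (c (c (c (p (nat_lit 0x1565e5c)) e) e) e))) (c (c (c (c (p (nat_lit 0x81b28c)) (c (m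
  (nat_lit 0xa37eec)) e)) (c (c (m (nat_lit 0x20b344)) e) e)) (c (c (c (m (nat_lit 0x551124)) e) e) e)) e))
  (c (c (c (c (c (p (nat_lit 0xdeea0)) (c (p (nat_lit 0xf026a)) e)) (c (c (p (nat_lit 0xc3a8fc)) e) e)) (c (c
  (c (m (nat_lit 0xef9dc)) e) e) e)) e) e)) (c (c (c (c (c (c (p (nat_lit 0xbe62)) (c (m (nat_lit 0x24cd8))
  e)) (c (c (p (nat_lit 0x1672c2)) e) e)) (c (c (c (m (nat_lit 0x9a6f8)) e) e) e)) e) e) e))) (c (c (c (c (c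
  (c (c (p (nat_lit 0x15534c0)) (c (p (nat_lit 0x3b568c)) (c (p (nat_lit 0x681f0)) e))) (c (c (m (nat_lit
  0x2b4c9fa)) (c (p (nat_lit 0x899070)) e)) (c (c (m (nat_lit 0x1f38f0)) e) e))) (c (c (c (m (nat_lit
  0xff8310)) (c (m (nat_lit 0x162fcc)) e)) (c (c (m (nat_lit 0x3477c)) e) e)) (c (c (c (p (nat_lit 0x68ee54))
  e) e) e))) (c (c (c (c (m (nat_lit 0x10e1f9e)) (c (p (nat_lit 0x76dc6a)) e)) (c (c (m (nat_lit 0xb03d12))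
  e) e)) (c (c (c (p (nat_lit 0x3d60da)) e) e) e)) (c (c (c (c (m (nat_lit 0x710742)) e) e) e) e))) (c (c (c
  (c (c (m (nat_lit 0x1840d8e)) (c (m (nat_lit 0xa1999a)) e)) (c (c (m (nat_lit 0x77d264)) e) e)) (c (c (c (p
  (nat_lit 0x152088)) e) e) e)) (c (c (c (c (p (nat_lit 0x24809a)) e) e) e) e)) (c (c (c (c (c (m (nat_lit
  0x7fa6ac)) e) e) e) e) e))) (c (c (c (c (c (c (p (nat_lit 0x11a5298)) (c (m (nat_lit 0x107b0ce)) e)) (c (c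
  (m (nat_lit 0x4bb658)) e) e)) (c (c (c (m (nat_lit 0x1eefae4)) e) e) e)) (c (c (c (c (p (nat_lit 0x4f4064))
  e) e) e) e)) (c (c (c (c (c (p (nat_lit 0x718152)) e) e) e) e) e)) (c (c (c (c (c (c (p (nat_lit 0x644544))
  e) e) e) e) e) e))) (c (c (c (c (c (c (c (m (nat_lit 0x382106a)) (c (m (nat_lit 0x8243ca)) e)) (c (c (p
  (nat_lit 0x47914e)) e) e)) (c (c (c (p (nat_lit 0xd147aa)) e) e) e)) (c (c (c (c (m (nat_lit 0x19f9db2)) e)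
  e) e) e)) (c (c (c (c (c (p (nat_lit 0x1db303e)) e) e) e) e) e)) (c (c (c (c (c (c (m (nat_lit 0x8525f4))
  e) e) e) e) e) e)) (c (c (c (c (c (c (c (m (nat_lit 0xb52702)) e) e) e) e) e) e) e)))) (c (c (c (c (c (c (c
  (c (m (nat_lit 0xbd202e)) (c (m (nat_lit 0x1fc7ae4)) (c (p (nat_lit 0xf25308)) e))) (c (c (p (nat_lit
  0x83e8e4)) (c (p (nat_lit 0xb49c0)) e)) (c (c (p (nat_lit 0x3e40a8)) e) e))) (c (c (c (m (nat_lit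
  0x27fdc3e)) (c (p (nat_lit 0x2b5ab0)) e)) (c (c (m (nat_lit 0x713e2)) e) e)) (c (c (c (p (nat_lit
  0xaff0f2)) e) e) e))) (c (c (c (c (m (nat_lit 0x177f180)) (c (p (nat_lit 0xb830a4)) e)) (c (c (p (nat_lit
  0x11846c4)) e) e)) (c (c (c (p (nat_lit 0xa3e3b4)) e) e) e)) (c (c (c (c (m (nat_lit 0x345960)) e) e) e)
  e))) (c (c (c (c (c (m (nat_lit 0x75b202)) (c (p (nat_lit 0xf622b0)) e)) (c (c (p (nat_lit 0x6451aa)) e)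
  e)) (c (c (c (p (nat_lit 0x2307d8)) e) e) e)) (c (c (c (c (m (nat_lit 0x4a4cd2)) e) e) e) e)) (c (c (c (c
  (c (m (nat_lit 0x134b8f0)) e) e) e) e) e))) (c (c (c (c (c (c (m (nat_lit 0xacbca8)) (c (p (nat_lit
  0x399eac)) e)) (c (c (p (nat_lit 0x1389054)) e) e)) (c (c (c (p (nat_lit 0x805338)) e) e) e)) (c (c (c (c
  (m (nat_lit 0x534c90)) e) e) e) e)) (c (c (c (c (c (m (nat_lit 0x79625a)) e) e) e) e) e)) (c (c (c (c (c (c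
  (p (nat_lit 0x5dcc)) e) e) e) e) e) e))) (c (c (c (c (c (c (c (m (nat_lit 0x419250)) (c (p (nat_lit
  0x4a79d2)) e)) (c (c (m (nat_lit 0x17c09dc)) e) e)) (c (c (c (m (nat_lit 0x1fe73e)) e) e) e)) (c (c (c (c
  (p (nat_lit 0xf0ebaa)) e) e) e) e)) (c (c (c (c (c (p (nat_lit 0xc0e1f6)) e) e) e) e) e)) (c (c (c (c (c (c
  (p (nat_lit 0x52ad24)) e) e) e) e) e) e)) (c (c (c (c (c (c (c (p (nat_lit 0x207124e)) e) e) e) e) e) e)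
  e))) (c (c (c (c (c (c (c (c (p (nat_lit 0xd71192)) (c (p (nat_lit 0x76911c)) e)) (c (c (m (nat_lit
  0x51d860)) e) e)) (c (c (c (p (nat_lit 0x8cf898)) e) e) e)) (c (c (c (c (p (nat_lit 0xc37818)) e) e) e) e))
  (c (c (c (c (c (p (nat_lit 0x8a82d4)) e) e) e) e) e)) (c (c (c (c (c (c (p (nat_lit 0x7f4370)) e) e) e) e)
  e) e)) (c (c (c (c (c (c (c (m (nat_lit 0x13f3d8e)) e) e) e) e) e) e) e)) (c (c (c (c (c (c (c (c (m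
  (nat_lit 0x2d031e)) e) e) e) e) e) e) e) e))))) (c (c (c (c (c (c (c (c (c (p (nat_lit 0x42ea492)) (c (p
  (nat_lit 0x7f9290)) (c (m (nat_lit 0x317460)) e))) (c (c (p (nat_lit 0x15330cc)) (c (m (nat_lit 0x4ab98))
  e)) (c (c (m (nat_lit 0xce3bf8)) e) e))) (c (c (c (m (nat_lit 0xbab0a)) (c (m (nat_lit 0xc39ba)) e)) (c (c
  (m (nat_lit 0x669702)) e) e)) (c (c (c (m (nat_lit 0x5b2cf0)) e) e) e))) (c (c (c (c (p (nat_lit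
  0x4814ce8)) (c (m (nat_lit 0x5067ae)) (c (p (nat_lit 0xff5190)) e))) (c (c (p (nat_lit 0x6224ac)) (c (m
  (nat_lit 0xffeb80)) e)) (c (c (p (nat_lit 0x3b9490)) e) e))) (c (c (c (m (nat_lit 0x1008228)) (c (p
  (nat_lit 0x537540)) e)) (c (c (p (nat_lit 0x33f30c)) e) e)) (c (c (c (p (nat_lit 0x1187388)) e) e) e))) (c
  (c (c (c (m (nat_lit 0x41e482)) (c (m (nat_lit 0x4623fc)) e)) (c (c (p (nat_lit 0x3a501e)) e) e)) (c (c (c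
  (m (nat_lit 0x1bb80e)) e) e) e)) e))) (c (c (c (c (c (m (nat_lit 0x163f692)) (c (p (nat_lit 0x14188e6)) (c
  (m (nat_lit 0x7fa8c8)) e))) (c (c (p (nat_lit 0x3d1d030)) (c (m (nat_lit 0x689f58)) e)) (c (c (m (nat_lit
  0xd07a0)) e) e))) (c (c (c (p (nat_lit 0x5c844c)) (c (m (nat_lit 0x716898)) e)) (c (c (m (nat_lit
  0x43ad6c)) e) e)) (c (c (c (m (nat_lit 0x255300)) e) e) e))) (c (c (c (c (m (nat_lit 0xd2ee6e)) (c (p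
  (nat_lit 0x4f41de)) e)) (c (c (p (nat_lit 0x2de4a8)) e) e)) (c (c (c (p (nat_lit 0x4b1854)) e) e) e)) e))
  (c (c (c (c (c (p (nat_lit 0xba9696)) (c (m (nat_lit 0x15c5b74)) e)) (c (c (m (nat_lit 0x2ad5276)) e) e))
  (c (c (c (p (nat_lit 0x131ae52)) e) e) e)) e) e))) (c (c (c (c (c (c (m (nat_lit 0x193508a)) (c (p (nat_lit
  0xe19fd2)) (c (m (nat_lit 0xd591c8)) e))) (c (c (m (nat_lit 0x422814)) (c (m (nat_lit 0x3c0630)) e)) (c (c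
  (p (nat_lit 0x103c4e8)) e) e))) (c (c (c (p (nat_lit 0x218a06)) (c (p (nat_lit 0x66810c)) e)) (c (c (p
  (nat_lit 0x5c670)) e) e)) (c (c (c (p (nat_lit 0x7fa6dc)) e) e) e))) (c (c (c (c (m (nat_lit 0xafb8e8)) (c
  (p (nat_lit 0xa43a3c)) e)) (c (c (m (nat_lit 0x389acc)) e) e)) (c (c (c (p (nat_lit 0xfb964)) e) e) e)) e))
  (c (c (c (c (c (m (nat_lit 0x2f226)) (c (m (nat_lit 0x230298)) e)) (c (c (p (nat_lit 0xa866a2)) e) e)) (c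
  (c (c (p (nat_lit 0x37a05e)) e) e) e)) e) e)) (c (c (c (c (c (c (p (nat_lit 0x1d9a54)) (c (p (nat_lit
  0x1247b2)) e)) (c (c (p (nat_lit 0x1064b2)) e) e)) (c (c (c (p (nat_lit 0x2c6cd0)) e) e) e)) e) e) e))) (c
  (c (c (c (c (c (c (p (nat_lit 0x3aa12ac)) (c (m (nat_lit 0x690a68)) (c (p (nat_lit 0xb1c9c0)) e))) (c (c (m
  (nat_lit 0x432a3ec)) (c (m (nat_lit 0x794850)) e)) (c (c (p (nat_lit 0x1a8a70)) e) e))) (c (c (c (m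
  (nat_lit 0xe15a6c)) (c (m (nat_lit 0x4c33ec)) e)) (c (c (p (nat_lit 0x145d34)) e) e)) (c (c (c (p (nat_lit
  0x3aae74)) e) e) e))) (c (c (c (c (m (nat_lit 0x3aaae16)) (c (p (nat_lit 0xbb2a8)) e)) (c (c (m (nat_lit
  0x190579e)) e) e)) (c (c (c (p (nat_lit 0x71afcc)) e) e) e)) (c (c (c (c (p (nat_lit 0x4abc68)) e) e) e)
  e))) (c (c (c (c (c (m (nat_lit 0x3e9d918)) (c (m (nat_lit 0xced198)) e)) (c (c (m (nat_lit 0x179360a)) e)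
  e)) (c (c (c (m (nat_lit 0x2382c)) e) e) e)) (c (c (c (c (p (nat_lit 0x74a)) e) e) e) e)) (c (c (c (c (c (p
  (nat_lit 0x1c7297a)) e) e) e) e) e))) (c (c (c (c (c (c (m (nat_lit 0x31a136)) (c (m (nat_lit 0x7036d4))
  e)) (c (c (m (nat_lit 0x107ef02)) e) e)) (c (c (c (m (nat_lit 0x1935348)) e) e) e)) (c (c (c (c (m (nat_lit
  0x432060)) e) e) e) e)) (c (c (c (c (c (p (nat_lit 0x120f96)) e) e) e) e) e)) (c (c (c (c (c (c (p (nat_lit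
  0x723edc)) e) e) e) e) e) e))) (c (c (c (c (c (c (c (m (nat_lit 0x47725e0)) (c (m (nat_lit 0x1ce81c)) e))
  (c (c (p (nat_lit 0xa38ff6)) e) e)) (c (c (c (p (nat_lit 0xe9bd76)) e) e) e)) (c (c (c (c (m (nat_lit
  0x658ffe)) e) e) e) e)) (c (c (c (c (c (p (nat_lit 0x296f124)) e) e) e) e) e)) (c (c (c (c (c (c (p
  (nat_lit 0x8a7554)) e) e) e) e) e) e)) (c (c (c (c (c (c (c (m (nat_lit 0x168733e)) e) e) e) e) e) e) e))))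
  (c (c (c (c (c (c (c (c (m (nat_lit 0x2144b74)) (c (m (nat_lit 0x6a663e)) (c (p (nat_lit 0x6afd70)) e))) (c
  (c (m (nat_lit 0x49e810)) (c (p (nat_lit 0x2d8640)) e)) (c (c (p (nat_lit 0x2eed20)) e) e))) (c (c (c (m
  (nat_lit 0xfb6db4)) (c (m (nat_lit 0x4181ac)) e)) (c (c (p (nat_lit 0x8ff034)) e) e)) (c (c (c (p (nat_lit
  0xa0c5c)) e) e) e))) (c (c (c (c (m (nat_lit 0x26740d4)) (c (p (nat_lit 0xedeb20)) e)) (c (c (p (nat_lit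
  0x69f90)) e) e)) (c (c (c (p (nat_lit 0xdbec34)) e) e) e)) (c (c (c (c (p (nat_lit 0x37be34)) e) e) e) e)))
  (c (c (c (c (c (m (nat_lit 0x1a3998e)) (c (p (nat_lit 0x3ff054)) e)) (c (c (p (nat_lit 0x4e4194)) e) e)) (c
  (c (c (p (nat_lit 0x458892)) e) e) e)) (c (c (c (c (m (nat_lit 0x3c9cd2)) e) e) e) e)) (c (c (c (c (c (p
  (nat_lit 0x10504fe)) e) e) e) e) e))) (c (c (c (c (c (c (p (nat_lit 0x27cbfa)) (c (p (nat_lit 0xad9b9e))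
  e)) (c (c (p (nat_lit 0x5e4a1e)) e) e)) (c (c (c (p (nat_lit 0x5d7854)) e) e) e)) (c (c (c (c (m (nat_lit
  0x1fc0d4)) e) e) e) e)) (c (c (c (c (c (m (nat_lit 0x46f1a6)) e) e) e) e) e)) (c (c (c (c (c (c (m (nat_lit
  0x138774)) e) e) e) e) e) e))) (c (c (c (c (c (c (c (m (nat_lit 0x269b026)) (c (p (nat_lit 0x1adcace)) e))
  (c (c (p (nat_lit 0x108ac68)) e) e)) (c (c (c (p (nat_lit 0x1123d4)) e) e) e)) (c (c (c (c (p (nat_lit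
  0x12965a6)) e) e) e) e)) (c (c (c (c (c (m (nat_lit 0x44ca00)) e) e) e) e) e)) (c (c (c (c (c (c (p
  (nat_lit 0x815ca6)) e) e) e) e) e) e)) (c (c (c (c (c (c (c (p (nat_lit 0x4b37212)) e) e) e) e) e) e) e)))
  (c (c (c (c (c (c (c (c (p (nat_lit 0x20a06c0)) (c (m (nat_lit 0x3db48)) e)) (c (c (m (nat_lit 0xefc47e))
  e) e)) (c (c (c (m (nat_lit 0x279b28)) e) e) e)) (c (c (c (c (m (nat_lit 0x10a7ac8)) e) e) e) e)) (c (c (c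
  (c (c (m (nat_lit 0x10892a)) e) e) e) e) e)) (c (c (c (c (c (c (m (nat_lit 0x43daa2)) e) e) e) e) e) e)) (c
  (c (c (c (c (c (c (m (nat_lit 0x1275246)) e) e) e) e) e) e) e)) (c (c (c (c (c (c (c (c (m (nat_lit
  0x5697de)) e) e) e) e) e) e) e) e)))) (c (c (c (c (c (c (c (c (c (m (nat_lit 0x818a06)) (c (m (nat_lit
  0xbe92b4)) (c (m (nat_lit 0x3d8570)) e))) (c (c (m (nat_lit 0xe0ba82)) (c (p (nat_lit 0xe4c90)) e)) (c (c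
  (m (nat_lit 0x657450)) e) e))) (c (c (c (p (nat_lit 0x15528c0)) (c (m (nat_lit 0xb8c92)) e)) (c (c (m
  (nat_lit 0x2022c0)) e) e)) (c (c (c (m (nat_lit 0x6542d6)) e) e) e))) (c (c (c (c (m (nat_lit 0xd2a74c)) (c
  (m (nat_lit 0x3d0d40)) e)) (c (c (m (nat_lit 0x6a4484)) e) e)) (c (c (c (m (nat_lit 0x206e50)) e) e) e)) (c
  (c (c (c (m (nat_lit 0x7d35e)) e) e) e) e))) (c (c (c (c (c (p (nat_lit 0x802ce)) (c (p (nat_lit 0x11d08a))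
  e)) (c (c (p (nat_lit 0x9bc442)) e) e)) (c (c (c (m (nat_lit 0x68a95a)) e) e) e)) (c (c (c (c (p (nat_lit
  0x70d4a2)) e) e) e) e)) (c (c (c (c (c (p (nat_lit 0x50cc16)) e) e) e) e) e))) (c (c (c (c (c (c (m
  (nat_lit 0x5b3cd4)) (c (p (nat_lit 0x86939a)) e)) (c (c (p (nat_lit 0x160b36)) e) e)) (c (c (c (m (nat_lit
  0x235a64)) e) e) e)) (c (c (c (c (p (nat_lit 0x9e4210)) e) e) e) e)) (c (c (c (c (c (p (nat_lit 0x6439e0))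
  e) e) e) e) e)) (c (c (c (c (c (c (m (nat_lit 0x58120e)) e) e) e) e) e) e))) (c (c (c (c (c (c (c (m
  (nat_lit 0x1e7566c)) (c (p (nat_lit 0xcb9af0)) e)) (c (c (p (nat_lit 0x1827d62)) e) e)) (c (c (c (p
  (nat_lit 0x102fa8)) e) e) e)) (c (c (c (c (p (nat_lit 0xf5f5da)) e) e) e) e)) (c (c (c (c (c (m (nat_lit
  0x90834c)) e) e) e) e) e)) (c (c (c (c (c (c (p (nat_lit 0xd73e56)) e) e) e) e) e) e)) (c (c (c (c (c (c (c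
  (p (nat_lit 0x2d4ff7a)) e) e) e) e) e) e) e))) (c (c (c (c (c (c (c (c (p (nat_lit 0x4e1080)) (c (m
  (nat_lit 0x7c04f4)) e)) (c (c (p (nat_lit 0x4b60e4)) e) e)) (c (c (c (m (nat_lit 0x2cae5e)) e) e) e)) (c (c
  (c (c (p (nat_lit 0x47b554)) e) e) e) e)) (c (c (c (c (c (p (nat_lit 0x582708)) e) e) e) e) e)) (c (c (c (c
  (c (c (m (nat_lit 0x7b7e54)) e) e) e) e) e) e)) (c (c (c (c (c (c (c (m (nat_lit 0x15b32e)) e) e) e) e) e)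
  e) e)) (c (c (c (c (c (c (c (c (p (nat_lit 0x8d973e)) e) e) e) e) e) e) e) e))) (c (c (c (c (c (c (c (c (c
  (m (nat_lit 0x48048c)) (c (p (nat_lit 0x7737fc)) e)) (c (c (p (nat_lit 0x42e808)) e) e)) (c (c (c (m
  (nat_lit 0x5d6156)) e) e) e)) (c (c (c (c (m (nat_lit 0x11cc58)) e) e) e) e)) (c (c (c (c (c (m (nat_lit
  0x1e65ee)) e) e) e) e) e)) (c (c (c (c (c (c (p (nat_lit 0x1d9f6a)) e) e) e) e) e) e)) (c (c (c (c (c (c (c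
  (m (nat_lit 0x9f340e)) e) e) e) e) e) e) e)) (c (c (c (c (c (c (c (c (m (nat_lit 0x8619fc)) e) e) e) e) e)
  e) e) e)) (c (c (c (c (c (c (c (c (c (p (nat_lit 0x846e8e)) e) e) e) e) e) e) e) e) e)))))

noncomputable def gt_0_2_4 : Tr :=
  (c (c (c (c (c (c (c (c (c (m (nat_lit 0x287e038)) (c (p (nat_lit 0x1dfade6)) (c (m (nat_lit 0x124518))
  e))) (c (c (p (nat_lit 0x96416a)) (c (p (nat_lit 0x114c7bc)) e)) (c (c (m (nat_lit 0x5625ba)) e) e))) (c (c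
  (c (p (nat_lit 0x3136adc)) (c (p (nat_lit 0x4ec25e)) e)) (c (c (p (nat_lit 0x8eb3c6)) e) e)) (c (c (c (m
  (nat_lit 0x2f05200)) e) e) e))) (c (c (c (c (m (nat_lit 0x7d1552)) (c (m (nat_lit 0xee8060)) (c (p (nat_lit
  0x238386)) e))) (c (c (p (nat_lit 0x5d6cea)) (c (m (nat_lit 0x460f68)) e)) (c (c (p (nat_lit 0x5c2836)) e)
  e))) (c (c (c (m (nat_lit 0x3329e4a)) (c (p (nat_lit 0x177ae)) e)) (c (c (m (nat_lit 0x41c8b0)) e) e)) (c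
  (c (c (p (nat_lit 0x397ae38)) e) e) e))) (c (c (c (c (m (nat_lit 0x1244fa)) (c (p (nat_lit 0x2383d4)) (c (p
  (nat_lit 0x74d240)) e))) (c (c (m (nat_lit 0x29a5e2)) (c (m (nat_lit 0x894678)) e)) (c (c (p (nat_lit
  0x4e0c0c)) e) e))) (c (c (c (p (nat_lit 0x7e3ab0)) (c (p (nat_lit 0x78fcb4)) e)) (c (c (p (nat_lit
  0x759dec)) e) e)) (c (c (c (p (nat_lit 0x173430)) e) e) e))) e))) (c (c (c (c (c (p (nat_lit 0x2490be8)) (c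
  (m (nat_lit 0x40b8bb0)) (c (p (nat_lit 0x7e3b3a)) e))) (c (c (p (nat_lit 0x334b3ea)) (c (m (nat_lit
  0x1d2fa46)) e)) (c (c (m (nat_lit 0x2e1136)) e) e))) (c (c (c (m (nat_lit 0xe93846a)) (c (m (nat_lit
  0x11fb5c6)) e)) (c (c (p (nat_lit 0x8a1d34)) e) e)) (c (c (c (p (nat_lit 0xd5a41c0)) e) e) e))) (c (c (c (c
  (p (nat_lit 0x4ec27c)) (c (p (nat_lit 0x177c6)) (c (p (nat_lit 0x78fca8)) e))) (c (c (m (nat_lit 0x5b2204))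
  (c (m (nat_lit 0x19d226)) e)) (c (c (p (nat_lit 0xd0eb4)) e) e))) (c (c (c (m (nat_lit 0x11fb638)) (c (m
  (nat_lit 0x9ddfa)) e)) (c (c (m (nat_lit 0x7fda)) e) e)) (c (c (c (p (nat_lit 0x7d1cf0)) e) e) e))) e)) (c
  (c (c (c (c (m (nat_lit 0x2f051b8)) (c (p (nat_lit 0x397ae02)) (c (p (nat_lit 0x1733e8)) e))) (c (c (m
  (nat_lit 0xdd86fe)) (c (p (nat_lit 0x5d9768)) e)) (c (c (p (nat_lit 0x71157c)) e) e))) (c (c (c (p (nat_lit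
  0xd5a4178)) (c (p (nat_lit 0x7d1d20)) e)) (c (c (m (nat_lit 0x2d0528)) e) e)) (c (c (c (m (nat_lit
  0xa284f60)) e) e) e))) e) e))) (c (c (c (c (c (c (p (nat_lit 0xdeee5c)) (c (m (nat_lit 0x14a9cb4)) (c (m
  (nat_lit 0x29a612)) e))) (c (c (p (nat_lit 0x1209396)) (c (m (nat_lit 0x471942)) e)) (c (c (m (nat_lit
  0x23810a)) e) e))) (c (c (c (p (nat_lit 0x2c5af3a)) (c (m (nat_lit 0x5b21e0)) e)) (c (c (m (nat_lit
  0x1026ec4)) e) e)) (c (c (c (m (nat_lit 0xdd8770)) e) e) e))) (c (c (c (c (p (nat_lit 0x114c7ec)) (c (m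
  (nat_lit 0x460500)) (c (m (nat_lit 0x894654)) e))) (c (c (m (nat_lit 0x4718f4)) (c (m (nat_lit 0x20526c))
  e)) (c (c (m (nat_lit 0x630d68)) e) e))) (c (c (c (m (nat_lit 0x1d301f0)) (c (m (nat_lit 0x19d22c)) e)) (c
  (c (p (nat_lit 0x47dd2c)) e) e)) (c (c (c (p (nat_lit 0x5d9690)) e) e) e))) e)) (c (c (c (c (c (p (nat_lit
  0x8eb396)) (c (m (nat_lit 0x41c820)) (c (p (nat_lit 0x759de0)) e))) (c (c (m (nat_lit 0x1026e9a)) (c (p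
  (nat_lit 0x47dd50)) e)) (c (c (m (nat_lit 0x2e99e0)) e) e))) (c (c (c (p (nat_lit 0x8a1ce0)) (c (m (nat_lit
  0x7fd4)) e)) (c (c (p (nat_lit 0x4697f4)) e) e)) (c (c (c (m (nat_lit 0x2d0558)) e) e) e))) e) e)) (c (c (c
  (c (c (c (m (nat_lit 0x562566)) (c (p (nat_lit 0x5c2818)) (c (p (nat_lit 0x4e0c18)) e))) (c (c (m (nat_lit
  0x23810a)) (c (m (nat_lit 0x630d68)) e)) (c (c (p (nat_lit 0x92b176)) e) e))) (c (c (c (m (nat_lit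
  0x2e1220)) (c (p (nat_lit 0xd0ec6)) e)) (c (c (m (nat_lit 0x2e99c8)) e) e)) (c (c (c (p (nat_lit 0x711618))
  e) e) e))) e) e) e))) (c (c (c (c (c (c (c (m (nat_lit 0x365be66)) (c (p (nat_lit 0x3a125c)) (c (m (nat_lit
  0x11aba0)) e))) (c (c (m (nat_lit 0x32a26ac)) (c (p (nat_lit 0x1feae)) e)) (c (c (p (nat_lit 0x3f2b20)) e)
  e))) (c (c (c (p (nat_lit 0x6c76cb6)) (c (p (nat_lit 0x14a1fe)) e)) (c (c (m (nat_lit 0x8fe0ec)) e) e)) (c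
  (c (c (m (nat_lit 0x23e0c08)) e) e) e))) (c (c (c (c (p (nat_lit 0x34489e0)) (c (m (nat_lit 0xcc651c)) (c
  (m (nat_lit 0x21c546)) e))) (c (c (m (nat_lit 0x210bafc)) (c (p (nat_lit 0xff0)) e)) (c (c (p (nat_lit
  0x12544e)) e) e))) (c (c (c (m (nat_lit 0xe90724)) (c (m (nat_lit 0x110d24)) e)) (c (c (m (nat_lit
  0x5160b4)) e) e)) (c (c (c (m (nat_lit 0xf23af0)) e) e) e))) (c (c (c (c (p (nat_lit 0x37e65a)) (c (p
  (nat_lit 0x3e2596)) e)) (c (c (m (nat_lit 0x17fee6)) e) e)) (c (c (c (m (nat_lit 0x4b8778)) e) e) e)) e)))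
  (c (c (c (c (c (p (nat_lit 0x1ddafe6)) (c (m (nat_lit 0x150a84e)) (c (m (nat_lit 0x8e4424)) e))) (c (c (m
  (nat_lit 0x2e5d62)) (c (p (nat_lit 0x5337c6)) e)) (c (c (p (nat_lit 0x7362)) e) e))) (c (c (c (m (nat_lit
  0x5c1ff5a)) (c (p (nat_lit 0x16fc2)) e)) (c (c (m (nat_lit 0x32e58a)) e) e)) (c (c (c (p (nat_lit
  0x1ea80f0)) e) e) e))) (c (c (c (c (m (nat_lit 0x626ae4)) (c (p (nat_lit 0x6d90c8)) e)) (c (c (p (nat_lit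
  0x6bca0c)) e) e)) (c (c (c (p (nat_lit 0xb7ad58)) e) e) e)) e)) (c (c (c (c (c (m (nat_lit 0x4331f4)) (c (p
  (nat_lit 0xf3b700)) e)) (c (c (m (nat_lit 0xafb576)) e) e)) (c (c (c (m (nat_lit 0x2e54e0)) e) e) e)) e)
  e))) (c (c (c (c (c (c (p (nat_lit 0x2983824)) (c (p (nat_lit 0x32eeee8)) (c (m (nat_lit 0x8a18f0)) e))) (c
  (c (p (nat_lit 0x23aab24)) (c (m (nat_lit 0x2263f8)) e)) (c (c (m (nat_lit 0xe604a8)) e) e))) (c (c (c (m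
  (nat_lit 0x9b97690)) (c (p (nat_lit 0x12b0790)) e)) (c (c (p (nat_lit 0xd99818)) e) e)) (c (c (c (p
  (nat_lit 0x23dcc30)) e) e) e))) (c (c (c (c (m (nat_lit 0xb414dc)) (c (p (nat_lit 0x9ca6bc)) e)) (c (c (p
  (nat_lit 0x8ae7cc)) e) e)) (c (c (c (p (nat_lit 0x4beac0)) e) e) e)) e)) (c (c (c (c (c (m (nat_lit
  0x5dce46)) (c (p (nat_lit 0x41c3b8)) e)) (c (c (p (nat_lit 0x4ddb22)) e) e)) (c (c (c (p (nat_lit
  0xa3c5c0)) e) e) e)) e) e)) (c (c (c (c (c (c (p (nat_lit 0xe49ba)) (c (m (nat_lit 0x1a6022)) e)) (c (c (p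
  (nat_lit 0x2679ea)) e) e)) (c (c (c (p (nat_lit 0x73ebb8)) e) e) e)) e) e) e))) (c (c (c (c (c (c (c (p
  (nat_lit 0x5524f3e)) (c (p (nat_lit 0x11f5e72)) (c (p (nat_lit 0x144c1e)) e))) (c (c (p (nat_lit
  0x4ef9918)) (c (p (nat_lit 0x255a3e)) e)) (c (c (m (nat_lit 0xf00a8)) e) e))) (c (c (c (m (nat_lit
  0x42e389e)) (c (m (nat_lit 0x78413a)) e)) (c (c (m (nat_lit 0x6176b2)) e) e)) (c (c (c (m (nat_lit
  0x9dd640)) e) e) e))) (c (c (c (c (m (nat_lit 0x265b3d2)) (c (p (nat_lit 0xfd4a12)) e)) (c (c (p (nat_lit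
  0x188e968)) e) e)) (c (c (c (p (nat_lit 0x246bd36)) e) e) e)) (c (c (c (c (m (nat_lit 0x5fe15e)) e) e) e)
  e))) (c (c (c (c (c (m (nat_lit 0x4603e)) (c (p (nat_lit 0x1745574)) e)) (c (c (p (nat_lit 0xf4a58c)) e)
  e)) (c (c (c (p (nat_lit 0x214e5c4)) e) e) e)) (c (c (c (c (m (nat_lit 0x127842)) e) e) e) e)) (c (c (c (c
  (c (m (nat_lit 0x1910310)) e) e) e) e) e))) (c (c (c (c (c (c (m (nat_lit 0x481e41a)) (c (m (nat_lit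
  0x25f1184)) e)) (c (c (m (nat_lit 0x1abefa8)) e) e)) (c (c (c (p (nat_lit 0x35bd14e)) e) e) e)) (c (c (c (c
  (p (nat_lit 0x3c6ac8)) e) e) e) e)) (c (c (c (c (c (m (nat_lit 0x8c3fd6)) e) e) e) e) e)) (c (c (c (c (c (c
  (m (nat_lit 0x1c179c)) e) e) e) e) e) e))) (c (c (c (c (c (c (c (m (nat_lit 0x1fd2fd4)) (c (m (nat_lit
  0x1ef3084)) e)) (c (c (m (nat_lit 0x26d9222)) e) e)) (c (c (c (p (nat_lit 0x13ca904)) e) e) e)) (c (c (c (c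
  (m (nat_lit 0x14b5c6)) e) e) e) e)) (c (c (c (c (c (p (nat_lit 0xd1cc7c)) e) e) e) e) e)) (c (c (c (c (c (c
  (p (nat_lit 0x28fbc18)) e) e) e) e) e) e)) (c (c (c (c (c (c (c (p (nat_lit 0x4942da)) e) e) e) e) e) e)
  e))))) (c (c (c (c (c (c (c (c (p (nat_lit 0x16c3fbc)) (c (m (nat_lit 0x5ef272)) (c (p (nat_lit 0x37e666))
  e))) (c (c (m (nat_lit 0x33cb70)) (c (m (nat_lit 0xb414f4)) e)) (c (c (p (nat_lit 0xe49d8)) e) e))) (c (c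
  (c (m (nat_lit 0x22382ac)) (c (m (nat_lit 0x626b26)) e)) (c (c (m (nat_lit 0x5dce70)) e) e)) (c (c (c (m
  (nat_lit 0x4331d0)) e) e) e))) (c (c (c (c (p (nat_lit 0x2cddc56)) (c (m (nat_lit 0x1f986)) (c (p (nat_lit
  0x3e259c)) e))) (c (c (m (nat_lit 0xf5c3c4)) (c (p (nat_lit 0x9ca6d4)) e)) (c (c (m (nat_lit 0x1a6028)) e)
  e))) (c (c (c (m (nat_lit 0x6fb010)) (c (p (nat_lit 0x6d90c8)) e)) (c (c (p (nat_lit 0x41c3c4)) e) e)) (c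
  (c (c (p (nat_lit 0xf3b790)) e) e) e))) (c (c (c (c (m (nat_lit 0x11ab8e)) (c (m (nat_lit 0x21c540)) e)) (c
  (c (m (nat_lit 0x8a18f6)) e) e)) (c (c (c (m (nat_lit 0x8e4436)) e) e) e)) e))) (c (c (c (c (c (p (nat_lit
  0x358e726)) (c (p (nat_lit 0x1a1ba9c)) (c (m (nat_lit 0x4b876c)) e))) (c (c (m (nat_lit 0x61f7ad8)) (c (p
  (nat_lit 0x4beac6)) e)) (c (c (p (nat_lit 0x73eba6)) e) e))) (c (c (c (m (nat_lit 0x362fece)) (c (p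
  (nat_lit 0xb7ad6a)) e)) (c (c (p (nat_lit 0xa3c5f6)) e) e)) (c (c (c (m (nat_lit 0x2e5480)) e) e) e))) (c
  (c (c (c (p (nat_lit 0x14a1f8)) (c (m (nat_lit 0x110d24)) e)) (c (c (p (nat_lit 0x12b07ae)) e) e)) (c (c (c
  (p (nat_lit 0x16ffe)) e) e) e)) e)) (c (c (c (c (c (m (nat_lit 0x23e0bba)) (c (m (nat_lit 0xf23b2c)) e)) (c
  (c (p (nat_lit 0x23dcc72)) e) e)) (c (c (c (p (nat_lit 0x1ea8156)) e) e) e)) e) e))) (c (c (c (c (c (c (m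
  (nat_lit 0x12320f4)) (c (p (nat_lit 0xa68e3a)) (c (m (nat_lit 0x17feec)) e))) (c (c (p (nat_lit 0x36b9b2))
  (c (p (nat_lit 0x8ae7a8)) e)) (c (c (p (nat_lit 0x2679d8)) e) e))) (c (c (c (p (nat_lit 0x1654560)) (c (p
  (nat_lit 0x6bca18)) e)) (c (c (p (nat_lit 0x4ddb40)) e) e)) (c (c (c (m (nat_lit 0xafb540)) e) e) e))) (c
  (c (c (c (p (nat_lit 0x1fe78)) (c (p (nat_lit 0xfe4)) e)) (c (c (m (nat_lit 0x2263c8)) e) e)) (c (c (c (p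
  (nat_lit 0x5337d8)) e) e) e)) e)) (c (c (c (c (c (m (nat_lit 0x8fe0e6)) (c (m (nat_lit 0x5160b4)) e)) (c (c
  (p (nat_lit 0xd99818)) e) e)) (c (c (c (m (nat_lit 0x32e55a)) e) e) e)) e) e)) (c (c (c (c (c (c (p
  (nat_lit 0x3f2b38)) (c (p (nat_lit 0x125460)) e)) (c (c (m (nat_lit 0xe604c6)) e) e)) (c (c (c (p (nat_lit
  0x7356)) e) e) e)) e) e) e))) (c (c (c (c (c (c (c (p (nat_lit 0x262e174)) (c (m (nat_lit 0xfaa5f8)) (c (p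
  (nat_lit 0x15f0b4)) e))) (c (c (p (nat_lit 0xa2211e)) (c (m (nat_lit 0x4b6354)) e)) (c (c (p (nat_lit
  0x2a8550)) e) e))) (c (c (c (p (nat_lit 0x2749c2)) (c (m (nat_lit 0x12e0ac)) e)) (c (c (p (nat_lit
  0x88d724)) e) e)) (c (c (c (m (nat_lit 0x155580)) e) e) e))) (c (c (c (c (m (nat_lit 0x10d0bc8)) (c (p
  (nat_lit 0x5b3e24)) e)) (c (c (p (nat_lit 0xc98652)) e) e)) (c (c (c (p (nat_lit 0x95f18a)) e) e) e)) (c (c
  (c (c (p (nat_lit 0x15f0ae)) e) e) e) e))) (c (c (c (c (c (p (nat_lit 0x18b7b22)) (c (m (nat_lit 0x4309ec))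
  e)) (c (c (p (nat_lit 0x8cb6ec)) e) e)) (c (c (c (p (nat_lit 0x2a38dc)) e) e) e)) (c (c (c (c (m (nat_lit
  0x12e0be)) e) e) e) e)) (c (c (c (c (c (m (nat_lit 0x15563a)) e) e) e) e) e))) (c (c (c (c (c (c (m
  (nat_lit 0xe8ba44)) (c (m (nat_lit 0xde788a)) e)) (c (c (p (nat_lit 0x1e474c)) e) e)) (c (c (c (p (nat_lit
  0x1da5b8)) e) e) e)) (c (c (c (c (m (nat_lit 0x4b6384)) e) e) e) e)) (c (c (c (c (c (p (nat_lit 0x88d706))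
  e) e) e) e) e)) (c (c (c (c (c (c (p (nat_lit 0x2a8544)) e) e) e) e) e) e))) (c (c (c (c (c (c (c (m
  (nat_lit 0x597ded8)) (c (p (nat_lit 0xc7a808)) e)) (c (c (m (nat_lit 0xde3f7e)) e) e)) (c (c (c (p (nat_lit
  0x1f9620c)) e) e) e)) (c (c (c (c (m (nat_lit 0x1042488)) e) e) e) e)) (c (c (c (c (c (m (nat_lit
  0xf2b446)) e) e) e) e) e)) (c (c (c (c (c (c (p (nat_lit 0x27c7698)) e) e) e) e) e) e)) (c (c (c (c (c (c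
  (c (p (nat_lit 0xdfe0d2)) e) e) e) e) e) e) e)))) (c (c (c (c (c (c (c (c (m (nat_lit 0x108a8c0)) (c (m
  (nat_lit 0x112dd00)) (c (m (nat_lit 0x5fe16a)) e))) (c (c (p (nat_lit 0x1dede8)) (c (p (nat_lit 0x3c6af2))
  e)) (c (c (m (nat_lit 0x1c17a2)) e) e))) (c (c (c (p (nat_lit 0x389d168)) (c (m (nat_lit 0x12783c)) e)) (c
  (c (m (nat_lit 0x8c3fee)) e) e)) (c (c (c (m (nat_lit 0x1910388)) e) e) e))) (c (c (c (c (m (nat_lit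
  0x1641294)) (c (p (nat_lit 0x32ddf8)) e)) (c (c (p (nat_lit 0x1da258)) e) e)) (c (c (c (m (nat_lit
  0x459f3c)) e) e) e)) (c (c (c (c (p (nat_lit 0x144c1e)) e) e) e) e))) (c (c (c (c (c (p (nat_lit 0xb91180))
  (c (p (nat_lit 0x94f758)) e)) (c (c (m (nat_lit 0xad3c88)) e) e)) (c (c (c (m (nat_lit 0x4a1b8e)) e) e) e))
  (c (c (c (c (m (nat_lit 0x78413a)) e) e) e) e)) (c (c (c (c (c (m (nat_lit 0x9dd5fe)) e) e) e) e) e))) (c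
  (c (c (c (c (c (m (nat_lit 0x1be982)) (c (p (nat_lit 0x799e84)) e)) (c (c (p (nat_lit 0x5801b8)) e) e)) (c
  (c (c (m (nat_lit 0x2fece0)) e) e) e)) (c (c (c (c (p (nat_lit 0x255a74)) e) e) e) e)) (c (c (c (c (c (m
  (nat_lit 0x6176a0)) e) e) e) e) e)) (c (c (c (c (c (c (m (nat_lit 0xf00ae)) e) e) e) e) e) e))) (c (c (c (c
  (c (c (c (m (nat_lit 0x5cb4b8)) (c (p (nat_lit 0xff56d6)) e)) (c (c (p (nat_lit 0xd3134c)) e) e)) (c (c (c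
  (m (nat_lit 0xc32394)) e) e) e)) (c (c (c (c (p (nat_lit 0x80b956)) e) e) e) e)) (c (c (c (c (c (m (nat_lit
  0x594d8)) e) e) e) e) e)) (c (c (c (c (c (c (m (nat_lit 0xb4174c)) e) e) e) e) e) e)) (c (c (c (c (c (c (c
  (p (nat_lit 0xa4e62c)) e) e) e) e) e) e) e))) (c (c (c (c (c (c (c (c (p (nat_lit 0x3ce0e8)) (c (m (nat_lit
  0x20dfba)) e)) (c (c (p (nat_lit 0x1049d8a)) e) e)) (c (c (c (p (nat_lit 0x7a7744)) e) e) e)) (c (c (c (c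
  (p (nat_lit 0x5d46e0)) e) e) e) e)) (c (c (c (c (c (p (nat_lit 0x8e3ba2)) e) e) e) e) e)) (c (c (c (c (c (c
  (p (nat_lit 0x4e3b7c)) e) e) e) e) e) e)) (c (c (c (c (c (c (c (m (nat_lit 0x50f75a)) e) e) e) e) e) e) e))
  (c (c (c (c (c (c (c (c (m (nat_lit 0x67d4d2)) e) e) e) e) e) e) e) e))))) (c (c (c (c (c (c (c (c (c (p
  (nat_lit 0x2da02ea)) (c (m (nat_lit 0x18d4f2e)) (c (m (nat_lit 0x77850)) e))) (c (c (m (nat_lit 0x30ebddc))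
  (c (m (nat_lit 0x636bca)) e)) (c (c (p (nat_lit 0x887442)) e) e))) (c (c (c (m (nat_lit 0x1da5f28)) (c (p
  (nat_lit 0x19789e)) e)) (c (c (p (nat_lit 0x53bcce)) e) e)) (c (c (c (p (nat_lit 0xe794f8)) e) e) e))) (c
  (c (c (c (p (nat_lit 0x9c005a)) (c (p (nat_lit 0x307620)) (c (m (nat_lit 0xc39b70)) e))) (c (c (m (nat_lit
  0x307998)) (c (p (nat_lit 0xc542e8)) e)) (c (c (m (nat_lit 0x52e888)) e) e))) (c (c (c (p (nat_lit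
  0x2e39f38)) (c (m (nat_lit 0xc8ec80)) e)) (c (c (m (nat_lit 0x179eec)) e) e)) (c (c (c (m (nat_lit
  0x2cedb80)) e) e) e))) (c (c (c (c (m (nat_lit 0x77850)) (c (m (nat_lit 0xc39b70)) e)) (c (c (m (nat_lit
  0x543cf0)) e) e)) (c (c (c (m (nat_lit 0x7dc4a8)) e) e) e)) e))) (c (c (c (c (c (m (nat_lit 0x670806)) (c
  (p (nat_lit 0x3bc99ac)) (c (m (nat_lit 0x7dc49c)) e))) (c (c (p (nat_lit 0x590bb6)) (c (p (nat_lit
  0x9e29ce)) e)) (c (c (m (nat_lit 0x221874)) e) e))) (c (c (c (m (nat_lit 0x983be6)) (c (p (nat_lit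
  0x38e0e)) e)) (c (c (p (nat_lit 0x46ba20)) e) e)) (c (c (c (p (nat_lit 0x67f5d8)) e) e) e))) (c (c (c (c (p
  (nat_lit 0x1978b0)) (c (m (nat_lit 0xc8ec6e)) e)) (c (c (p (nat_lit 0x2d06d2)) e) e)) (c (c (c (p (nat_lit
  0x38e38)) e) e) e)) e)) (c (c (c (c (c (p (nat_lit 0xe7942c)) (c (m (nat_lit 0x2cedb08)) e)) (c (c (m
  (nat_lit 0xfb8fa4)) e) e)) (c (c (c (p (nat_lit 0x67f680)) e) e) e)) e) e))) (c (c (c (c (c (c (m (nat_lit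
  0x304ae14)) (c (p (nat_lit 0x17785b0)) (c (m (nat_lit 0x543cfc)) e))) (c (c (m (nat_lit 0x899a84)) (c (p
  (nat_lit 0xab71ac)) e)) (c (c (p (nat_lit 0x17a4a4)) e) e))) (c (c (c (p (nat_lit 0xc81d02)) (c (p (nat_lit
  0x2d06cc)) e)) (c (c (p (nat_lit 0x6637ec)) e) e)) (c (c (c (m (nat_lit 0xfb8ff8)) e) e) e))) (c (c (c (c
  (m (nat_lit 0x636bd0)) (c (p (nat_lit 0xc5427c)) e)) (c (c (p (nat_lit 0xab71c4)) e) e)) (c (c (c (p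
  (nat_lit 0x9e2a04)) e) e) e)) e)) (c (c (c (c (c (p (nat_lit 0x53bcd4)) (c (m (nat_lit 0x179ef8)) e)) (c (c
  (p (nat_lit 0x6637e6)) e) e)) (c (c (c (p (nat_lit 0x46ba44)) e) e) e)) e) e)) (c (c (c (c (c (c (p
  (nat_lit 0x887448)) (c (m (nat_lit 0x52e89a)) e)) (c (c (p (nat_lit 0x17a4b6)) e) e)) (c (c (c (m (nat_lit
  0x221880)) e) e) e)) e) e) e))) (c (c (c (c (c (c (c (p (nat_lit 0x4e4382a)) (c (m (nat_lit 0x5938bc)) (c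
  (p (nat_lit 0xe553cc)) e))) (c (c (p (nat_lit 0x10cf824)) (c (m (nat_lit 0x116fdc)) e)) (c (c (m (nat_lit
  0x47fc40)) e) e))) (c (c (c (m (nat_lit 0x1b243c)) (c (m (nat_lit 0x6b3ac)) e)) (c (c (m (nat_lit
  0x4abba8)) e) e)) (c (c (c (m (nat_lit 0x157c890)) e) e) e))) (c (c (c (c (m (nat_lit 0x9fdab2)) (c (m
  (nat_lit 0x40d18a)) e)) (c (c (p (nat_lit 0xe0a74a)) e) e)) (c (c (c (m (nat_lit 0x46ca22)) e) e) e)) (c (c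
  (c (c (p (nat_lit 0x4f35c6)) e) e) e) e))) (c (c (c (c (c (m (nat_lit 0x996cc)) (c (m (nat_lit 0xe8bfe4))
  e)) (c (c (m (nat_lit 0x3421bc)) e) e)) (c (c (c (m (nat_lit 0xad4b3a)) e) e) e)) (c (c (c (c (p (nat_lit
  0xedab6)) e) e) e) e)) (c (c (c (c (c (p (nat_lit 0x6bf4d8)) e) e) e) e) e))) (c (c (c (c (c (c (p (nat_lit
  0x404130)) (c (m (nat_lit 0x96989a)) e)) (c (c (m (nat_lit 0xb53a2e)) e) e)) (c (c (c (p (nat_lit 0x99e0a))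
  e) e) e)) (c (c (c (c (m (nat_lit 0x8e0704)) e) e) e) e)) (c (c (c (c (c (m (nat_lit 0x3d73fa)) e) e) e) e)
  e)) (c (c (c (c (c (c (m (nat_lit 0x1b00b4)) e) e) e) e) e) e))) (c (c (c (c (c (c (c (m (nat_lit
  0x824bde2)) (c (p (nat_lit 0x146dc06)) e)) (c (c (p (nat_lit 0xa04e80)) e) e)) (c (c (c (p (nat_lit
  0x2aac38c)) e) e) e)) (c (c (c (c (m (nat_lit 0xc0dd4c)) e) e) e) e)) (c (c (c (c (c (m (nat_lit 0x4086cc))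
  e) e) e) e) e)) (c (c (c (c (c (c (p (nat_lit 0x15b1be8)) e) e) e) e) e) e)) (c (c (c (c (c (c (c (p
  (nat_lit 0x8ebf18)) e) e) e) e) e) e) e)))) (c (c (c (c (c (c (c (c (m (nat_lit 0x37b042)) (c (m (nat_lit
  0xfb6502)) (c (p (nat_lit 0x4f35cc)) e))) (c (c (p (nat_lit 0xa9d466)) (c (m (nat_lit 0x8e0710)) e)) (c (c
  (m (nat_lit 0x1b00b4)) e) e))) (c (c (c (p (nat_lit 0xbf4f00)) (c (p (nat_lit 0xedad4)) e)) (c (c (m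
  (nat_lit 0x3d73dc)) e) e)) (c (c (c (p (nat_lit 0x6bf520)) e) e) e))) (c (c (c (c (m (nat_lit 0x9a4e68)) (c
  (m (nat_lit 0x465624)) e)) (c (c (p (nat_lit 0xe6064)) e) e)) (c (c (c (m (nat_lit 0x3de8ac)) e) e) e)) (c
  (c (c (c (p (nat_lit 0xe553cc)) e) e) e) e))) (c (c (c (c (c (p (nat_lit 0x14ceb66)) (c (m (nat_lit
  0x74ee60)) e)) (c (c (p (nat_lit 0x440eb6)) e) e)) (c (c (c (m (nat_lit 0x73be70)) e) e) e)) (c (c (c (c (m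
  (nat_lit 0x6b3dc)) e) e) e) e)) (c (c (c (c (c (m (nat_lit 0x157c992)) e) e) e) e) e))) (c (c (c (c (c (c
  (p (nat_lit 0x6f86a0)) (c (m (nat_lit 0x225eb2)) e)) (c (c (p (nat_lit 0x4733f4)) e) e)) (c (c (c (m
  (nat_lit 0x68c20e)) e) e) e)) (c (c (c (c (m (nat_lit 0x116fc4)) e) e) e) e)) (c (c (c (c (c (m (nat_lit
  0x4abbea)) e) e) e) e) e)) (c (c (c (c (c (c (m (nat_lit 0x47fc34)) e) e) e) e) e) e))) (c (c (c (c (c (c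
  (c (m (nat_lit 0x14acc0c)) (c (p (nat_lit 0xf35412)) e)) (c (c (p (nat_lit 0x68702a)) e) e)) (c (c (c (m
  (nat_lit 0x53950e)) e) e) e)) (c (c (c (c (p (nat_lit 0x463d40)) e) e) e) e)) (c (c (c (c (c (p (nat_lit
  0xc6054c)) e) e) e) e) e)) (c (c (c (c (c (c (m (nat_lit 0x5c5fa4)) e) e) e) e) e) e)) (c (c (c (c (c (c (c
  (p (nat_lit 0x2577876)) e) e) e) e) e) e) e))) (c (c (c (c (c (c (c (c (m (nat_lit 0x160764)) (c (p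
  (nat_lit 0x5aa2f6)) e)) (c (c (m (nat_lit 0xe03196)) e) e)) (c (c (c (m (nat_lit 0x679fe)) e) e) e)) (c (c
  (c (c (p (nat_lit 0xcbae10)) e) e) e) e)) (c (c (c (c (c (m (nat_lit 0x47484c)) e) e) e) e) e)) (c (c (c (c
  (c (c (p (nat_lit 0x26c55c)) e) e) e) e) e) e)) (c (c (c (c (c (c (c (m (nat_lit 0xce2f02)) e) e) e) e) e)
  e) e)) (c (c (c (c (c (c (c (c (m (nat_lit 0x155952)) e) e) e) e) e) e) e) e)))) (c (c (c (c (c (c (c (c (c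
  (p (nat_lit 0x391fabe)) (c (m (nat_lit 0xd45e48)) (c (p (nat_lit 0x5d1a3a)) e))) (c (c (m (nat_lit
  0xeaab0)) (c (m (nat_lit 0x211974)) e)) (c (c (m (nat_lit 0x18945c)) e) e))) (c (c (c (m (nat_lit
  0x2f5ca94)) (c (p (nat_lit 0x53f454)) e)) (c (c (p (nat_lit 0x3f1092)) e) e)) (c (c (c (p (nat_lit
  0x2777130)) e) e) e))) (c (c (c (c (m (nat_lit 0xa0de9e)) (c (p (nat_lit 0x16b2df0)) e)) (c (c (m (nat_lit
  0x9d20b4)) e) e)) (c (c (c (p (nat_lit 0x70e00c)) e) e) e)) (c (c (c (c (p (nat_lit 0x5d1a34)) e) e) e)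
  e))) (c (c (c (c (c (m (nat_lit 0x39eca36)) (c (p (nat_lit 0x70e012)) e)) (c (c (p (nat_lit 0x2537e2)) e)
  e)) (c (c (c (p (nat_lit 0x7f5582)) e) e) e)) (c (c (c (c (p (nat_lit 0x53f454)) e) e) e) e)) (c (c (c (c
  (c (p (nat_lit 0x277715a)) e) e) e) e) e))) (c (c (c (c (c (c (m (nat_lit 0x616a52)) (c (m (nat_lit
  0x9d20b4)) e)) (c (c (p (nat_lit 0x572ba4)) e) e)) (c (c (c (p (nat_lit 0x253800)) e) e) e)) (c (c (c (c (m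
  (nat_lit 0x211974)) e) e) e) e)) (c (c (c (c (c (p (nat_lit 0x3f109e)) e) e) e) e) e)) (c (c (c (c (c (c (m
  (nat_lit 0x189468)) e) e) e) e) e) e))) (c (c (c (c (c (c (c (m (nat_lit 0x1b657ba)) (c (p (nat_lit
  0x4b5d18)) e)) (c (c (m (nat_lit 0x64cb18)) e) e)) (c (c (c (p (nat_lit 0x25e306)) e) e) e)) (c (c (c (c (p
  (nat_lit 0x53f1ba)) e) e) e) e)) (c (c (c (c (c (m (nat_lit 0x980ad2)) e) e) e) e) e)) (c (c (c (c (c (c (p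
  (nat_lit 0xb45c1c)) e) e) e) e) e) e)) (c (c (c (c (c (c (c (p (nat_lit 0x11a4044)) e) e) e) e) e) e) e)))
  (c (c (c (c (c (c (c (c (m (nat_lit 0xc07fec)) (c (p (nat_lit 0x57f84c)) e)) (c (c (p (nat_lit 0xca396e))
  e) e)) (c (c (c (m (nat_lit 0x689658)) e) e) e)) (c (c (c (c (p (nat_lit 0x1be34c)) e) e) e) e)) (c (c (c
  (c (c (p (nat_lit 0xfe56ec)) e) e) e) e) e)) (c (c (c (c (c (c (p (nat_lit 0x3d1ee)) e) e) e) e) e) e)) (c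
  (c (c (c (c (c (c (m (nat_lit 0x1544e38)) e) e) e) e) e) e) e)) (c (c (c (c (c (c (c (c (p (nat_lit
  0x2cb284)) e) e) e) e) e) e) e) e))) (c (c (c (c (c (c (c (c (c (m (nat_lit 0xf247f2)) (c (m (nat_lit
  0xa0f28a)) e)) (c (c (p (nat_lit 0x908ce2)) e) e)) (c (c (c (p (nat_lit 0x2671da)) e) e) e)) (c (c (c (c (m
  (nat_lit 0xa0f278)) e) e) e) e)) (c (c (c (c (c (p (nat_lit 0x2671c8)) e) e) e) e) e)) (c (c (c (c (c (c (p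
  (nat_lit 0x908cee)) e) e) e) e) e) e)) (c (c (c (c (c (c (c (m (nat_lit 0x26ecda)) e) e) e) e) e) e) e)) (c
  (c (c (c (c (c (c (c (m (nat_lit 0x44307c)) e) e) e) e) e) e) e) e)) (c (c (c (c (c (c (c (c (c (p (nat_lit
  0x3b0c40)) e) e) e) e) e) e) e) e) e)))))

noncomputable def gt_0_2_5 : Tr :=
  (c (c (c (c (c (c (c (c (c (m (nat_lit 0x4c436ac)) (c (p (nat_lit 0x5845eea)) (c (m (nat_lit 0x3cd7640))
  e))) (c (c (p (nat_lit 0x41663b2)) (c (m (nat_lit 0x1198d6a)) e)) (c (c (m (nat_lit 0x3357e3a)) e) e))) (c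
  (c (c (p (nat_lit 0x5e9c40a)) (c (m (nat_lit 0x1500c48)) e)) (c (c (m (nat_lit 0x1198d76)) e) e)) (c (c (c
  (m (nat_lit 0x3cd7610)) e) e) e))) (c (c (c (c (m (nat_lit 0x1ea1352)) (c (m (nat_lit 0x12049b0)) (c (p
  (nat_lit 0xa5db3c)) e))) (c (c (m (nat_lit 0x18bb6e)) (c (p (nat_lit 0x42d644)) e)) (c (c (p (nat_lit
  0xa3118a)) e) e))) (c (c (c (m (nat_lit 0x1ae7c16)) (c (p (nat_lit 0x11188c8)) e)) (c (c (m (nat_lit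
  0x5d1a04)) e) e)) (c (c (c (p (nat_lit 0x318421e)) e) e) e))) (c (c (c (c (m (nat_lit 0x891c9c)) (c (p
  (nat_lit 0x4d8fc8)) (c (p (nat_lit 0x526bb4)) e))) (c (c (m (nat_lit 0x1157f5e)) (c (p (nat_lit 0x4d538c))
  e)) (c (c (p (nat_lit 0x8eb45c)) e) e))) (c (c (c (p (nat_lit 0xbceb8a)) (c (p (nat_lit 0x6ad78a)) e)) (c
  (c (p (nat_lit 0x244068)) e) e)) (c (c (c (m (nat_lit 0x916584)) e) e) e))) e))) (c (c (c (c (c (p (nat_lit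
  0x23aeade)) (c (m (nat_lit 0xa3c8462)) (c (p (nat_lit 0xa86d4ac)) e))) (c (c (m (nat_lit 0x49ad8d6)) (c (p
  (nat_lit 0x305ef74)) e)) (c (c (p (nat_lit 0x65ad9e6)) e) e))) (c (c (c (m (nat_lit 0xaae2576)) (c (p
  (nat_lit 0x24826ec)) e)) (c (c (p (nat_lit 0x305ef74)) e) e)) (c (c (c (p (nat_lit 0xa86d338)) e) e) e)))
  (c (c (c (c (m (nat_lit 0x2c981a)) (c (p (nat_lit 0x7304ca)) (c (m (nat_lit 0x8c342a)) e))) (c (c (p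
  (nat_lit 0xf6f156)) (c (m (nat_lit 0x698754)) e)) (c (c (m (nat_lit 0xbf0712)) e) e))) (c (c (c (p (nat_lit
  0x147c25e)) (c (m (nat_lit 0xf76fb6)) e)) (c (c (m (nat_lit 0x303ada)) e) e)) (c (c (c (m (nat_lit
  0xdfb62a)) e) e) e))) e)) (c (c (c (c (c (m (nat_lit 0x4642d40)) (c (p (nat_lit 0x83dfe10)) (c (m (nat_lit
  0x8852016)) e))) (c (c (m (nat_lit 0xad5b54)) (c (m (nat_lit 0x20d3d86)) e)) (c (c (m (nat_lit 0x2070ffc))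
  e) e))) (c (c (c (p (nat_lit 0x83dfd8c)) (c (p (nat_lit 0xbd59f4)) e)) (c (c (m (nat_lit 0x20d3d80)) e) e))
  (c (c (c (m (nat_lit 0x8851ede)) e) e) e))) e) e))) (c (c (c (c (c (c (p (nat_lit 0x1a0da80)) (c (m
  (nat_lit 0x32f385c)) (c (p (nat_lit 0x3184224)) e))) (c (c (m (nat_lit 0x10de734)) (c (m (nat_lit
  0x5d1a70)) e)) (c (c (p (nat_lit 0xa3120e)) e) e))) (c (c (c (m (nat_lit 0x2b4f3ca)) (c (p (nat_lit
  0x1118838)) e)) (c (c (p (nat_lit 0x42d62c)) e) e)) (c (c (c (p (nat_lit 0xa5daa6)) e) e) e))) (c (c (c (c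
  (m (nat_lit 0x6f423c)) (c (p (nat_lit 0x559fec)) (c (m (nat_lit 0x73ddc)) e))) (c (c (m (nat_lit
  0x2a5b0bc)) (c (p (nat_lit 0x46d6d0)) e)) (c (c (p (nat_lit 0x14e3098)) e) e))) (c (c (c (p (nat_lit
  0x559fc8)) (c (m (nat_lit 0xe39214)) e)) (c (c (p (nat_lit 0x46d6d0)) e) e)) (c (c (c (m (nat_lit 0x73db8))
  e) e) e))) e)) (c (c (c (c (c (m (nat_lit 0x2c97c6)) (c (p (nat_lit 0x147c20a)) (c (m (nat_lit 0xdfb636))
  e))) (c (c (p (nat_lit 0xf6f168)) (c (m (nat_lit 0x303ac2)) e)) (c (c (m (nat_lit 0xbf071e)) e) e))) (c (c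
  (c (p (nat_lit 0x7304ee)) (c (m (nat_lit 0xf76fc2)) e)) (c (c (m (nat_lit 0x698760)) e) e)) (c (c (c (m
  (nat_lit 0x8c33e8)) e) e) e))) e) e)) (c (c (c (c (c (c (m (nat_lit 0x891cba)) (c (p (nat_lit 0xbcebb4)) (c
  (m (nat_lit 0x916596)) e))) (c (c (m (nat_lit 0x1157f5e)) (c (p (nat_lit 0x244068)) e)) (c (c (p (nat_lit
  0x8eb45c)) e) e))) (c (c (c (p (nat_lit 0x4d8fda)) (c (p (nat_lit 0x6ad78a)) e)) (c (c (p (nat_lit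
  0x4d538c)) e) e)) (c (c (c (p (nat_lit 0x526bae)) e) e) e))) e) e) e))) (c (c (c (c (c (c (c (p (nat_lit
  0x6a61d54)) (c (m (nat_lit 0x169fbb4)) (c (p (nat_lit 0x142ea2)) e))) (c (c (m (nat_lit 0x3bff0e8)) (c (m
  (nat_lit 0x4cc39e)) e)) (c (c (p (nat_lit 0x8fe12e)) e) e))) (c (c (c (p (nat_lit 0x42d6344)) (c (p
  (nat_lit 0x32fad8)) e)) (c (c (p (nat_lit 0x4b66d8)) e) e)) (c (c (c (m (nat_lit 0x1786608)) e) e) e))) (c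
  (c (c (c (p (nat_lit 0x33372b4)) (c (m (nat_lit 0x224e2d2)) (c (m (nat_lit 0x1a8d2e)) e))) (c (c (m
  (nat_lit 0x16eb0f4)) (c (p (nat_lit 0x2c0b8)) e)) (c (c (m (nat_lit 0x1c8774)) e) e))) (c (c (c (m (nat_lit
  0x6a16c4)) (c (p (nat_lit 0x18863a)) e)) (c (c (p (nat_lit 0x47cca)) e) e)) (c (c (c (m (nat_lit 0xf4f9c8))
  e) e) e))) (c (c (c (c (p (nat_lit 0xc77d0c)) (c (m (nat_lit 0x3ceb5c)) e)) (c (c (p (nat_lit 0x3aec84)) e)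
  e)) (c (c (c (m (nat_lit 0x3f8f52)) e) e) e)) e))) (c (c (c (c (c (m (nat_lit 0x434ff1c)) (c (m (nat_lit
  0x1f5bd24)) (c (p (nat_lit 0xfd99b6)) e))) (c (c (p (nat_lit 0x750f5a)) (c (p (nat_lit 0x1f899c)) e)) (c (c
  (m (nat_lit 0x72ccb4)) e) e))) (c (c (c (m (nat_lit 0x37f657e)) (c (m (nat_lit 0xb738a0)) e)) (c (c (m
  (nat_lit 0x3656fa)) e) e)) (c (c (c (p (nat_lit 0x724056)) e) e) e))) (c (c (c (c (m (nat_lit 0xbf6dc)) (c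
  (p (nat_lit 0x669d0e)) e)) (c (c (p (nat_lit 0x337248)) e) e)) (c (c (c (p (nat_lit 0xb9c6c4)) e) e) e))
  e)) (c (c (c (c (c (p (nat_lit 0x43dd9a2)) (c (m (nat_lit 0x2181ae)) e)) (c (c (m (nat_lit 0x616f4a)) e)
  e)) (c (c (c (p (nat_lit 0x10f5978)) e) e) e)) e) e))) (c (c (c (c (c (c (m (nat_lit 0x5fe20)) (c (p
  (nat_lit 0x1aac510)) (c (m (nat_lit 0x5d2814)) e))) (c (c (m (nat_lit 0x10c93e)) (c (p (nat_lit 0x175a88))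
  e)) (c (c (m (nat_lit 0x76758)) e) e))) (c (c (c (m (nat_lit 0x5eae794)) (c (m (nat_lit 0xb52660)) e)) (c
  (c (m (nat_lit 0x48f648)) e) e)) (c (c (c (p (nat_lit 0x9d5d80)) e) e) e))) (c (c (c (c (p (nat_lit
  0xa0d3b8)) (c (p (nat_lit 0xce1d8)) e)) (c (c (p (nat_lit 0xfbb20)) e) e)) (c (c (c (p (nat_lit 0x2441c4))
  e) e) e)) e)) (c (c (c (c (c (p (nat_lit 0x48d206)) (c (p (nat_lit 0x243b70)) e)) (c (c (m (nat_lit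
  0x272bec)) e) e)) (c (c (c (p (nat_lit 0xa0f7a6)) e) e) e)) e) e)) (c (c (c (c (c (c (m (nat_lit 0xe7988e))
  (c (p (nat_lit 0x928c9e)) e)) (c (c (p (nat_lit 0x51f34e)) e) e)) (c (c (c (m (nat_lit 0x1d2a0a)) e) e) e))
  e) e) e))) (c (c (c (c (c (c (c (p (nat_lit 0x1ceb052)) (c (m (nat_lit 0xc048de)) (c (p (nat_lit 0xce0580))
  e))) (c (c (p (nat_lit 0x4e58da6)) (c (p (nat_lit 0xe99a0)) e)) (c (c (m (nat_lit 0x655d46)) e) e))) (c (c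
  (c (m (nat_lit 0x85b4830)) (c (m (nat_lit 0x38eadc)) e)) (c (c (p (nat_lit 0x17fcac)) e) e)) (c (c (c (m
  (nat_lit 0x8f4b4)) e) e) e))) (c (c (c (c (m (nat_lit 0x57a59e4)) (c (p (nat_lit 0x236d6ea)) e)) (c (c (p
  (nat_lit 0xca623c)) e) e)) (c (c (c (p (nat_lit 0xa1a5b2)) e) e) e)) (c (c (c (c (m (nat_lit 0x3a3020)) e)
  e) e) e))) (c (c (c (c (c (m (nat_lit 0x45e899e)) (c (p (nat_lit 0x99be56)) e)) (c (c (p (nat_lit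
  0x1511be6)) e) e)) (c (c (c (p (nat_lit 0x26d5af6)) e) e) e)) (c (c (c (c (p (nat_lit 0x4567ce)) e) e) e)
  e)) (c (c (c (c (c (p (nat_lit 0x58dc0a)) e) e) e) e) e))) (c (c (c (c (c (c (p (nat_lit 0x3cde32a)) (c (p
  (nat_lit 0x324bb8)) e)) (c (c (p (nat_lit 0x90424e)) e) e)) (c (c (c (p (nat_lit 0x3e42154)) e) e) e)) (c
  (c (c (c (p (nat_lit 0x718218)) e) e) e) e)) (c (c (c (c (c (p (nat_lit 0x423bf4)) e) e) e) e) e)) (c (c (c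
  (c (c (c (m (nat_lit 0x2a580e)) e) e) e) e) e) e))) (c (c (c (c (c (c (c (p (nat_lit 0x3dec588)) (c (p
  (nat_lit 0x66000c)) e)) (c (c (m (nat_lit 0x26010ea)) e) e)) (c (c (c (p (nat_lit 0x3886a7c)) e) e) e)) (c
  (c (c (c (p (nat_lit 0x2488572)) e) e) e) e)) (c (c (c (c (c (p (nat_lit 0x3e67bf4)) e) e) e) e) e)) (c (c
  (c (c (c (c (m (nat_lit 0x3a8748e)) e) e) e) e) e) e)) (c (c (c (c (c (c (c (m (nat_lit 0x5698002)) e) e)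
  e) e) e) e) e))))) (c (c (c (c (c (c (c (c (m (nat_lit 0x6426fc)) (c (m (nat_lit 0xa699e0)) (c (p (nat_lit
  0xbf3016)) e))) (c (c (p (nat_lit 0x24ef568)) (c (p (nat_lit 0x733b00)) e)) (c (c (p (nat_lit 0xe3ef56)) e)
  e))) (c (c (c (m (nat_lit 0x1a64bfa)) (c (m (nat_lit 0x17986ec)) e)) (c (c (p (nat_lit 0x733b0c)) e) e)) (c
  (c (c (p (nat_lit 0xbf3052)) e) e) e))) (c (c (c (c (p (nat_lit 0x22ca9dc)) (c (p (nat_lit 0x1e96834)) (c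
  (m (nat_lit 0x7dfbec)) e))) (c (c (p (nat_lit 0x1a25b64)) (c (m (nat_lit 0x732930)) e)) (c (c (m (nat_lit
  0x1515b40)) e) e))) (c (c (c (m (nat_lit 0x1bf4f9e)) (c (p (nat_lit 0x397a4c)) e)) (c (c (p (nat_lit
  0x39cb88)) e) e)) (c (c (c (p (nat_lit 0x3f9f00)) e) e) e))) (c (c (c (c (p (nat_lit 0xe6d390)) (c (m
  (nat_lit 0x203d0)) e)) (c (c (m (nat_lit 0xec7384)) e) e)) (c (c (c (m (nat_lit 0x14f1ba)) e) e) e)) e)))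
  (c (c (c (c (c (p (nat_lit 0x95d496e)) (c (m (nat_lit 0x5d0c696)) (c (m (nat_lit 0x1564ad0)) e))) (c (c (m
  (nat_lit 0xb242fd4)) (c (p (nat_lit 0x4876c2)) e)) (c (c (p (nat_lit 0xd27c38)) e) e))) (c (c (c (m
  (nat_lit 0x55f2546)) (c (p (nat_lit 0x9357ba)) e)) (c (c (p (nat_lit 0x4876a4)) e) e)) (c (c (c (m (nat_lit
  0x1564ab8)) e) e) e))) (c (c (c (c (m (nat_lit 0x13cae32)) (c (p (nat_lit 0xd8a45e)) e)) (c (c (p (nat_lit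
  0x18a01ee)) e) e)) (c (c (c (p (nat_lit 0x5f4e40)) e) e) e)) e)) (c (c (c (c (c (m (nat_lit 0x585418e)) (c
  (p (nat_lit 0x516b19c)) e)) (c (c (p (nat_lit 0x428da9e)) e) e)) (c (c (c (p (nat_lit 0x516b11e)) e) e) e))
  e) e))) (c (c (c (c (c (c (p (nat_lit 0x737976)) (c (m (nat_lit 0x3e9496)) (c (p (nat_lit 0x3f9f00)) e)))
  (c (c (p (nat_lit 0x29785b6)) (c (p (nat_lit 0x39cbac)) e)) (c (c (m (nat_lit 0x1515b34)) e) e))) (c (c (c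
  (p (nat_lit 0x37e11b2)) (c (p (nat_lit 0x397a4c)) e)) (c (c (m (nat_lit 0x73296c)) e) e)) (c (c (c (m
  (nat_lit 0x7dfc04)) e) e) e))) (c (c (c (c (m (nat_lit 0x5f5ecc)) (c (m (nat_lit 0x73be40)) e)) (c (c (m
  (nat_lit 0x2131f8)) e) e)) (c (c (c (m (nat_lit 0x73be28)) e) e) e)) e)) (c (c (c (c (c (m (nat_lit
  0x13cae56)) (c (p (nat_lit 0x5f4e58)) e)) (c (c (p (nat_lit 0x18a01f4)) e) e)) (c (c (c (p (nat_lit
  0xd8a446)) e) e) e)) e) e)) (c (c (c (c (c (c (p (nat_lit 0xe6d390)) (c (m (nat_lit 0x14f1ba)) e)) (c (c (m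
  (nat_lit 0xec738a)) e) e)) (c (c (c (m (nat_lit 0x203d0)) e) e) e)) e) e) e))) (c (c (c (c (c (c (c (p
  (nat_lit 0xc0b604)) (c (p (nat_lit 0x2a8322)) (c (m (nat_lit 0x997c5c)) e))) (c (c (m (nat_lit 0xfe2332))
  (c (p (nat_lit 0x788bec)) e)) (c (c (p (nat_lit 0x6e70b4)) e) e))) (c (c (c (m (nat_lit 0xa12a52)) (c (p
  (nat_lit 0x2d6e58)) e)) (c (c (p (nat_lit 0x2a9c48)) e) e)) (c (c (c (p (nat_lit 0x123e0c4)) e) e) e))) (c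
  (c (c (c (p (nat_lit 0x634374)) (c (p (nat_lit 0x1790e1a)) e)) (c (c (p (nat_lit 0x68ec38)) e) e)) (c (c (c
  (p (nat_lit 0xf0e1ba)) e) e) e)) (c (c (c (c (p (nat_lit 0x24642)) e) e) e) e))) (c (c (c (c (c (p (nat_lit
  0x8fafc90)) (c (p (nat_lit 0x177be4a)) e)) (c (c (p (nat_lit 0x9e3f6a)) e) e)) (c (c (c (m (nat_lit
  0x29c136)) e) e) e)) (c (c (c (c (m (nat_lit 0xe7abc6)) e) e) e) e)) (c (c (c (c (c (m (nat_lit 0x306ff9c))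
  e) e) e) e) e))) (c (c (c (c (c (c (m (nat_lit 0x18ef4a8)) (c (m (nat_lit 0x1eabea6)) e)) (c (c (p (nat_lit
  0x3f973e)) e) e)) (c (c (c (p (nat_lit 0x6ecef2)) e) e) e)) (c (c (c (c (p (nat_lit 0x2979c)) e) e) e) e))
  (c (c (c (c (c (m (nat_lit 0x109fd6a)) e) e) e) e) e)) (c (c (c (c (c (c (p (nat_lit 0x41e6c8)) e) e) e) e)
  e) e))) (c (c (c (c (c (c (c (m (nat_lit 0x7ba7c3a)) (c (p (nat_lit 0xbac4f8)) e)) (c (c (p (nat_lit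
  0x2d776a)) e) e)) (c (c (c (p (nat_lit 0xddcb62)) e) e) e)) (c (c (c (c (m (nat_lit 0x19ff668)) e) e) e)
  e)) (c (c (c (c (c (m (nat_lit 0x41d65dc)) e) e) e) e) e)) (c (c (c (c (c (c (p (nat_lit 0x16b5ca6)) e) e)
  e) e) e) e)) (c (c (c (c (c (c (c (p (nat_lit 0x25f010a)) e) e) e) e) e) e) e)))) (c (c (c (c (c (c (c (c
  (p (nat_lit 0x29255ca)) (c (m (nat_lit 0x11025cc)) (c (m (nat_lit 0x338ca)) e))) (c (c (p (nat_lit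
  0xc168f0)) (c (m (nat_lit 0x926298)) e)) (c (c (m (nat_lit 0xc4f248)) e) e))) (c (c (c (m (nat_lit
  0x75d80c)) (c (p (nat_lit 0x938592)) e)) (c (c (m (nat_lit 0x926292)) e) e)) (c (c (c (m (nat_lit 0x338ca))
  e) e) e))) (c (c (c (c (p (nat_lit 0x15664f8)) (c (m (nat_lit 0xae5400)) e)) (c (c (m (nat_lit 0x716214))
  e) e)) (c (c (c (m (nat_lit 0x7f24c8)) e) e) e)) (c (c (c (c (m (nat_lit 0x9606ae)) e) e) e) e))) (c (c (c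
  (c (c (m (nat_lit 0x83d1ce)) (c (m (nat_lit 0x12effa)) e)) (c (c (m (nat_lit 0x1e84a38)) e) e)) (c (c (c (m
  (nat_lit 0x12f012)) e) e) e)) (c (c (c (c (p (nat_lit 0x8369d0)) e) e) e) e)) (c (c (c (c (c (p (nat_lit
  0x216f954)) e) e) e) e) e))) (c (c (c (c (c (c (m (nat_lit 0x7b60ba)) (c (m (nat_lit 0x7f24b0)) e)) (c (c
  (m (nat_lit 0x716214)) e) e)) (c (c (c (m (nat_lit 0xae5430)) e) e) e)) (c (c (c (c (p (nat_lit 0x12dcb18))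
  e) e) e) e)) (c (c (c (c (c (p (nat_lit 0x8369dc)) e) e) e) e) e)) (c (c (c (c (c (c (m (nat_lit 0x9606b4))
  e) e) e) e) e) e))) (c (c (c (c (c (c (c (m (nat_lit 0x34f1682)) (c (m (nat_lit 0x19459e)) e)) (c (c (p
  (nat_lit 0xac9404)) e) e)) (c (c (c (p (nat_lit 0x715572)) e) e) e)) (c (c (c (c (m (nat_lit 0x10efa38)) e)
  e) e) e)) (c (c (c (c (c (m (nat_lit 0x597360)) e) e) e) e) e)) (c (c (c (c (c (c (p (nat_lit 0x1620aaa))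
  e) e) e) e) e) e)) (c (c (c (c (c (c (c (p (nat_lit 0x27561d2)) e) e) e) e) e) e) e))) (c (c (c (c (c (c (c
  (c (m (nat_lit 0x1827ebe)) (c (p (nat_lit 0xf84156)) e)) (c (c (p (nat_lit 0x15a3be4)) e) e)) (c (c (c (p
  (nat_lit 0xf84156)) e) e) e)) (c (c (c (c (m (nat_lit 0x910fe0)) e) e) e) e)) (c (c (c (c (c (m (nat_lit
  0x461d60)) e) e) e) e) e)) (c (c (c (c (c (c (m (nat_lit 0x910fec)) e) e) e) e) e) e)) (c (c (c (c (c (c (c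
  (m (nat_lit 0xaebed4)) e) e) e) e) e) e) e)) (c (c (c (c (c (c (c (c (p (nat_lit 0xb2d9c4)) e) e) e) e) e)
  e) e) e))))) (c (c (c (c (c (c (c (c (c (p (nat_lit 0x6f0d0e0)) (c (p (nat_lit 0xaec61e)) (c (m (nat_lit
  0x17865f6)) e))) (c (c (m (nat_lit 0x2ca2580)) (c (p (nat_lit 0x4b66de)) e)) (c (c (p (nat_lit 0x8fe140))
  e) e))) (c (c (c (m (nat_lit 0x2d948c6)) (c (p (nat_lit 0x32faae)) e)) (c (c (m (nat_lit 0x4cc374)) e) e))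
  (c (c (c (p (nat_lit 0x142ed8)) e) e) e))) (c (c (c (c (p (nat_lit 0x61b199e)) (c (m (nat_lit 0x37eb412))
  (c (p (nat_lit 0x9d5d8c)) e))) (c (c (m (nat_lit 0x4a0886)) (c (m (nat_lit 0x48f660)) e)) (c (c (m (nat_lit
  0x7677c)) e) e))) (c (c (c (m (nat_lit 0xd5618)) (c (m (nat_lit 0xb52678)) e)) (c (c (p (nat_lit 0x175a70))
  e) e)) (c (c (c (m (nat_lit 0x5d2820)) e) e) e))) (c (c (c (c (m (nat_lit 0xe79882)) (c (m (nat_lit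
  0x1d2a04)) e)) (c (c (p (nat_lit 0x51f342)) e) e)) (c (c (c (p (nat_lit 0x928c9e)) e) e) e)) e))) (c (c (c
  (c (c (m (nat_lit 0x31fb6e4)) (c (m (nat_lit 0x1d9413e)) (c (p (nat_lit 0x72408c)) e))) (c (c (p (nat_lit
  0x2515f74)) (c (m (nat_lit 0x3656fa)) e)) (c (c (m (nat_lit 0x72ccb4)) e) e))) (c (c (c (m (nat_lit
  0xbb1ac6)) (c (m (nat_lit 0xb7389a)) e)) (c (c (p (nat_lit 0x1f89a8)) e) e)) (c (c (c (p (nat_lit
  0xfd99a4)) e) e) e))) (c (c (c (c (p (nat_lit 0x48d20c)) (c (p (nat_lit 0xa0f78e)) e)) (c (c (m (nat_lit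
  0x272be6)) e) e)) (c (c (c (p (nat_lit 0x243b6a)) e) e) e)) e)) (c (c (c (c (c (p (nat_lit 0x43dd89a)) (c
  (p (nat_lit 0x10f59d2)) e)) (c (c (m (nat_lit 0x616fce)) e) e)) (c (c (c (m (nat_lit 0x218154)) e) e) e))
  e) e))) (c (c (c (c (c (c (m (nat_lit 0x2f8ca46)) (c (p (nat_lit 0x12a654e)) (c (m (nat_lit 0xf4f9ec)) e)))
  (c (c (p (nat_lit 0x9170d0)) (c (p (nat_lit 0x47cdc)) e)) (c (c (m (nat_lit 0x1c8768)) e) e))) (c (c (c (p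
  (nat_lit 0x155d606)) (c (p (nat_lit 0x188640)) e)) (c (c (p (nat_lit 0x2c0a6)) e) e)) (c (c (c (m (nat_lit
  0x1a8d1c)) e) e) e))) (c (c (c (c (p (nat_lit 0xa0d3d0)) (c (p (nat_lit 0x2441b8)) e)) (c (c (p (nat_lit
  0xfbb2c)) e) e)) (c (c (c (p (nat_lit 0xce1d8)) e) e) e)) e)) (c (c (c (c (c (m (nat_lit 0xbf6ee)) (c (p
  (nat_lit 0xb9c6a0)) e)) (c (c (p (nat_lit 0x337248)) e) e)) (c (c (c (p (nat_lit 0x669d08)) e) e) e)) e)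
  e)) (c (c (c (c (c (c (p (nat_lit 0xc77d24)) (c (m (nat_lit 0x3f8f4c)) e)) (c (c (p (nat_lit 0x3aec78)) e)
  e)) (c (c (c (m (nat_lit 0x3ceb68)) e) e) e)) e) e) e))) (c (c (c (c (c (c (c (m (nat_lit 0xe6fea88)) (c (p
  (nat_lit 0x43e49bc)) (c (m (nat_lit 0xa78d70)) e))) (c (c (p (nat_lit 0x42b5e12)) (c (m (nat_lit 0x7260d8))
  e)) (c (c (m (nat_lit 0xf8eddc)) e) e))) (c (c (c (p (nat_lit 0x4201074)) (c (p (nat_lit 0xce43cc)) e)) (c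
  (c (m (nat_lit 0x7260fc)) e) e)) (c (c (c (m (nat_lit 0xa78d40)) e) e) e))) (c (c (c (c (m (nat_lit
  0x324ac6e)) (c (p (nat_lit 0x8e135e)) e)) (c (c (p (nat_lit 0x4bec88)) e) e)) (c (c (c (p (nat_lit
  0xbfac18)) e) e) e)) (c (c (c (c (p (nat_lit 0x2178)) e) e) e) e))) (c (c (c (c (c (p (nat_lit 0x4acc8a4))
  (c (m (nat_lit 0x8ffaa2)) e)) (c (c (p (nat_lit 0x416556)) e) e)) (c (c (c (m (nat_lit 0x1019aea)) e) e)
  e)) (c (c (c (c (m (nat_lit 0x43b9ea)) e) e) e) e)) (c (c (c (c (c (m (nat_lit 0x25365fc)) e) e) e) e) e)))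
  (c (c (c (c (c (c (p (nat_lit 0x33c5928)) (c (m (nat_lit 0xc10f50)) e)) (c (c (m (nat_lit 0xa93d1c)) e) e))
  (c (c (c (m (nat_lit 0x1069560)) e) e) e)) (c (c (c (c (m (nat_lit 0xca455c)) e) e) e) e)) (c (c (c (c (c
  (m (nat_lit 0x43b9e4)) e) e) e) e) e)) (c (c (c (c (c (c (p (nat_lit 0x217e)) e) e) e) e) e) e))) (c (c (c
  (c (c (c (c (m (nat_lit 0xd9f5ba)) (c (m (nat_lit 0x5969ee)) e)) (c (c (m (nat_lit 0x16d40f0)) e) e)) (c (c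
  (c (m (nat_lit 0x8056a4)) e) e) e)) (c (c (c (c (m (nat_lit 0x3a9830)) e) e) e) e)) (c (c (c (c (c (m
  (nat_lit 0x3a8fcc0)) e) e) e) e) e)) (c (c (c (c (c (c (m (nat_lit 0x14de87a)) e) e) e) e) e) e)) (c (c (c
  (c (c (c (c (p (nat_lit 0x50c8bc6)) e) e) e) e) e) e) e)))) (c (c (c (c (c (c (c (c (m (nat_lit 0x1362498))
  (c (m (nat_lit 0x96e6a0)) (c (p (nat_lit 0x123e0d0)) e))) (c (c (m (nat_lit 0x1c17e22)) (c (p (nat_lit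
  0x2a9c3c)) e)) (c (c (p (nat_lit 0x6e709c)) e) e))) (c (c (c (p (nat_lit 0x181fa40)) (c (p (nat_lit
  0x2d6e64)) e)) (c (c (p (nat_lit 0x788bec)) e) e)) (c (c (c (m (nat_lit 0x997c68)) e) e) e))) (c (c (c (c
  (m (nat_lit 0x131435a)) (c (p (nat_lit 0xed0a44)) e)) (c (c (p (nat_lit 0x67cdf4)) e) e)) (c (c (c (m
  (nat_lit 0x14eec6c)) e) e) e)) (c (c (c (c (p (nat_lit 0x41e6c2)) e) e) e) e))) (c (c (c (c (c (p (nat_lit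
  0x537929a)) (c (m (nat_lit 0x1dfe9e)) e)) (c (c (p (nat_lit 0xd90050)) e) e)) (c (c (c (p (nat_lit
  0x3712ec)) e) e) e)) (c (c (c (c (m (nat_lit 0x109fd58)) e) e) e) e)) (c (c (c (c (c (m (nat_lit
  0x306ff5a)) e) e) e) e) e))) (c (c (c (c (c (c (m (nat_lit 0xc40734)) (c (p (nat_lit 0x147078)) e)) (c (c
  (m (nat_lit 0x360e28)) e) e)) (c (c (c (p (nat_lit 0x4f065c)) e) e) e)) (c (c (c (c (p (nat_lit 0x29790))
  e) e) e) e)) (c (c (c (c (c (m (nat_lit 0xe7abae)) e) e) e) e) e)) (c (c (c (c (c (c (p (nat_lit 0x24630))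
  e) e) e) e) e) e))) (c (c (c (c (c (c (c (p (nat_lit 0x9057c)) (c (m (nat_lit 0x36beda)) e)) (c (c (p
  (nat_lit 0x163b5fa)) e) e)) (c (c (c (m (nat_lit 0x7a34d2)) e) e) e)) (c (c (c (c (p (nat_lit 0xc675fc)) e)
  e) e) e)) (c (c (c (c (c (p (nat_lit 0x200ac0)) e) e) e) e) e)) (c (c (c (c (c (c (p (nat_lit 0x105ca62))
  e) e) e) e) e) e)) (c (c (c (c (c (c (c (p (nat_lit 0x181f908)) e) e) e) e) e) e) e))) (c (c (c (c (c (c (c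
  (c (m (nat_lit 0x14f3eec)) (c (p (nat_lit 0x996228)) e)) (c (c (m (nat_lit 0xdc718a)) e) e)) (c (c (c (m
  (nat_lit 0x4be65e)) e) e) e)) (c (c (c (c (p (nat_lit 0xdb07d4)) e) e) e) e)) (c (c (c (c (c (p (nat_lit
  0x27cba)) e) e) e) e) e)) (c (c (c (c (c (c (p (nat_lit 0x4bd62c)) e) e) e) e) e) e)) (c (c (c (c (c (c (c
  (m (nat_lit 0x1f73d3c)) e) e) e) e) e) e) e)) (c (c (c (c (c (c (c (c (p (nat_lit 0x548b08)) e) e) e) e) e)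
  e) e) e)))) (c (c (c (c (c (c (c (c (c (m (nat_lit 0xcd22ee)) (c (m (nat_lit 0x107e422)) (c (m (nat_lit
  0x8f4cc)) e))) (c (c (p (nat_lit 0x1955016)) (c (p (nat_lit 0x17fcbe)) e)) (c (c (m (nat_lit 0x655d3a)) e)
  e))) (c (c (c (p (nat_lit 0xb7c690)) (c (m (nat_lit 0x38ead6)) e)) (c (c (p (nat_lit 0xe9994)) e) e)) (c (c
  (c (p (nat_lit 0xce0568)) e) e) e))) (c (c (c (c (m (nat_lit 0x25c3a7c)) (c (m (nat_lit 0x1cbad4)) e)) (c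
  (c (m (nat_lit 0x2ba850)) e) e)) (c (c (c (p (nat_lit 0x69abfc)) e) e) e)) (c (c (c (c (m (nat_lit
  0x2a580e)) e) e) e) e))) (c (c (c (c (c (m (nat_lit 0x1a6cd18)) (c (p (nat_lit 0x5595c0)) e)) (c (c (m
  (nat_lit 0x8b3398)) e) e)) (c (c (c (m (nat_lit 0x2f4456)) e) e) e)) (c (c (c (c (p (nat_lit 0x423bfa)) e)
  e) e) e)) (c (c (c (c (c (p (nat_lit 0x58dc70)) e) e) e) e) e))) (c (c (c (c (c (c (m (nat_lit 0xf9a66e))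
  (c (p (nat_lit 0x8de4ea)) e)) (c (c (m (nat_lit 0x4095cc)) e) e)) (c (c (c (p (nat_lit 0x50c6e8)) e) e) e))
  (c (c (c (c (p (nat_lit 0x718218)) e) e) e) e)) (c (c (c (c (c (p (nat_lit 0x4567e0)) e) e) e) e) e)) (c (c
  (c (c (c (c (m (nat_lit 0x3a3020)) e) e) e) e) e) e))) (c (c (c (c (c (c (c (p (nat_lit 0x7d588dc)) (c (m
  (nat_lit 0xe5f944)) e)) (c (c (m (nat_lit 0x47293e)) e) e)) (c (c (c (m (nat_lit 0x3b6f3a)) e) e) e)) (c (c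
  (c (c (p (nat_lit 0x1dbcea2)) e) e) e) e)) (c (c (c (c (c (p (nat_lit 0x117788a)) e) e) e) e) e)) (c (c (c
  (c (c (c (p (nat_lit 0x190fd4)) e) e) e) e) e) e)) (c (c (c (c (c (c (c (m (nat_lit 0x370d7ea)) e) e) e) e)
  e) e) e))) (c (c (c (c (c (c (c (c (m (nat_lit 0x23148de)) (c (m (nat_lit 0x11bede)) e)) (c (c (p (nat_lit
  0xc55392)) e) e)) (c (c (c (p (nat_lit 0x77b074)) e) e) e)) (c (c (c (c (p (nat_lit 0x8eae80)) e) e) e) e))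
  (c (c (c (c (c (p (nat_lit 0x408e3a)) e) e) e) e) e)) (c (c (c (c (c (c (p (nat_lit 0x57bbf8)) e) e) e) e)
  e) e)) (c (c (c (c (c (c (c (m (nat_lit 0x23dfc06)) e) e) e) e) e) e) e)) (c (c (c (c (c (c (c (c (p
  (nat_lit 0x118d670)) e) e) e) e) e) e) e) e))) (c (c (c (c (c (c (c (c (c (p (nat_lit 0x1c11de)) (c (p
  (nat_lit 0x1907f4)) e)) (c (c (m (nat_lit 0x59ed4)) e) e)) (c (c (c (m (nat_lit 0x8261a)) e) e) e)) (c (c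
  (c (c (m (nat_lit 0x1478ac)) e) e) e) e)) (c (c (c (c (c (p (nat_lit 0x1977f0)) e) e) e) e) e)) (c (c (c (c
  (c (c (p (nat_lit 0x6918ea)) e) e) e) e) e) e)) (c (c (c (c (c (c (c (m (nat_lit 0x1eeb710)) e) e) e) e) e)
  e) e)) (c (c (c (c (c (c (c (c (p (nat_lit 0x33374a)) e) e) e) e) e) e) e) e)) (c (c (c (c (c (c (c (c (c
  (p (nat_lit 0xaa539e)) e) e) e) e) e) e) e) e) e)))))

noncomputable def gt_0_2_6 : Tr :=
  (c (c (c (c (c (c (c (c (c (m (nat_lit 0x2f14f74)) (c (p (nat_lit 0xad0094)) (c (p (nat_lit 0x9e8d88)) e)))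
  (c (c (p (nat_lit 0x1ef42a8)) (c (m (nat_lit 0x613980)) e)) (c (c (p (nat_lit 0x6d428c)) e) e))) (c (c (c
  (p (nat_lit 0x2ebd104)) (c (p (nat_lit 0x975192)) e)) (c (c (m (nat_lit 0x1d403fc)) e) e)) (c (c (c (p
  (nat_lit 0x448b54)) e) e) e))) (c (c (c (c (m (nat_lit 0xb912a0)) (c (m (nat_lit 0x1c762b0)) (c (m (nat_lit
  0x7c332)) e))) (c (c (m (nat_lit 0x3596cbe)) (c (p (nat_lit 0xabe646)) e)) (c (c (p (nat_lit 0x22e7bc)) e)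
  e))) (c (c (c (m (nat_lit 0x4a2962)) (c (m (nat_lit 0x10927e)) e)) (c (c (p (nat_lit 0xedab18)) e) e)) (c
  (c (c (p (nat_lit 0xb7a14c)) e) e) e))) (c (c (c (c (m (nat_lit 0xee2738)) (c (m (nat_lit 0x208590)) (c (p
  (nat_lit 0x4e35f4)) e))) (c (c (p (nat_lit 0x180a71c)) (c (m (nat_lit 0x125cb8)) e)) (c (c (m (nat_lit
  0x5e5774)) e) e))) (c (c (c (m (nat_lit 0xf302a0)) (c (m (nat_lit 0x7bd080)) e)) (c (c (p (nat_lit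
  0xad6f40)) e) e)) (c (c (c (p (nat_lit 0x6ced0)) e) e) e))) e))) (c (c (c (c (c (p (nat_lit 0x1d39a42)) (c
  (m (nat_lit 0x1fb8832)) (c (m (nat_lit 0x1060f02)) e))) (c (c (m (nat_lit 0x9262542)) (c (p (nat_lit
  0x127173c)) e)) (c (c (m (nat_lit 0x2a83a6c)) e) e))) (c (c (c (p (nat_lit 0xb058ae)) (c (m (nat_lit
  0x1da9774)) e)) (c (c (p (nat_lit 0x4265970)) e) e)) (c (c (c (m (nat_lit 0xe97c30)) e) e) e))) (c (c (c (c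
  (m (nat_lit 0xd2bfac)) (c (p (nat_lit 0x109f4a)) (c (p (nat_lit 0x5d0af8)) e))) (c (c (p (nat_lit
  0x164f760)) (c (m (nat_lit 0x3b34cc)) e)) (c (c (p (nat_lit 0x6359ac)) e) e))) (c (c (c (p (nat_lit
  0xbf7270)) (c (p (nat_lit 0x5dc678)) e)) (c (c (m (nat_lit 0x6b4420)) e) e)) (c (c (c (m (nat_lit
  0xd7157c)) e) e) e))) e)) (c (c (c (c (c (m (nat_lit 0x20c372a)) (c (m (nat_lit 0x1210a34)) (c (p (nat_lit
  0x15659be)) e))) (c (c (p (nat_lit 0x4e61434)) (c (m (nat_lit 0x75aaa6)) e)) (c (c (p (nat_lit 0x2b591e0))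
  e) e))) (c (c (c (m (nat_lit 0x16284)) (c (p (nat_lit 0x13c2984)) e)) (c (c (m (nat_lit 0x15164d0)) e) e))
  (c (c (c (p (nat_lit 0x591b58)) e) e) e))) e) e))) (c (c (c (c (c (c (m (nat_lit 0x99c49e)) (c (m (nat_lit
  0x22fd442)) (c (p (nat_lit 0x8e768e)) e))) (c (c (p (nat_lit 0xba7a52)) (c (m (nat_lit 0x1243f8)) e)) (c (c
  (m (nat_lit 0x4f87a4)) e) e))) (c (c (c (m (nat_lit 0x137cad8)) (c (m (nat_lit 0x4513da)) e)) (c (c (p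
  (nat_lit 0xc7aa18)) e) e)) (c (c (c (m (nat_lit 0xd92bac)) e) e) e))) (c (c (c (c (p (nat_lit 0x166ca4)) (c
  (p (nat_lit 0x151ddb4)) (c (m (nat_lit 0xe373a8)) e))) (c (c (p (nat_lit 0xbceae8)) (c (m (nat_lit
  0x12b52c)) e)) (c (c (p (nat_lit 0x6fad10)) e) e))) (c (c (c (p (nat_lit 0x5471b8)) (c (p (nat_lit 0x4ec))
  e)) (c (c (m (nat_lit 0x179bb0)) e) e)) (c (c (c (m (nat_lit 0x10d98c8)) e) e) e))) e)) (c (c (c (c (c (m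
  (nat_lit 0x19a220)) (c (p (nat_lit 0x3616e0)) (c (m (nat_lit 0x2d6f78)) e))) (c (c (p (nat_lit 0x16fc338))
  (c (m (nat_lit 0x18cdec)) e)) (c (c (m (nat_lit 0x4a7390)) e) e))) (c (c (c (p (nat_lit 0xbfaf84)) (c (p
  (nat_lit 0x38900a)) e)) (c (c (p (nat_lit 0x21ab0)) e) e)) (c (c (c (m (nat_lit 0x53b9f8)) e) e) e))) e)
  e)) (c (c (c (c (c (c (m (nat_lit 0x39020a)) (c (p (nat_lit 0x386070)) (c (m (nat_lit 0x75a33e)) e))) (c (c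
  (m (nat_lit 0x905340)) (c (p (nat_lit 0x282912)) e)) (c (c (p (nat_lit 0x18fc60)) e) e))) (c (c (c (p
  (nat_lit 0x10fbed0)) (c (p (nat_lit 0x231bca)) e)) (c (c (p (nat_lit 0x438d08)) e) e)) (c (c (c (m (nat_lit
  0x33b0d0)) e) e) e))) e) e) e))) (c (c (c (c (c (c (c (p (nat_lit 0x6404dea)) (c (m (nat_lit 0x1bf26a)) (c
  (m (nat_lit 0x5b2cf0)) e))) (c (c (m (nat_lit 0x735d44)) (c (m (nat_lit 0x66971a)) e)) (c (c (m (nat_lit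
  0xce3bc8)) e) e))) (c (c (c (p (nat_lit 0x155c75a)) (c (m (nat_lit 0xc399c)) e)) (c (c (m (nat_lit
  0x4ab8c)) e) e)) (c (c (c (m (nat_lit 0x317484)) e) e) e))) (c (c (c (c (p (nat_lit 0x1794426)) (c (p
  (nat_lit 0x1983d26)) (c (p (nat_lit 0x7fa6f4)) e))) (c (c (p (nat_lit 0x1565598)) (c (p (nat_lit 0x5c67c))
  e)) (c (c (p (nat_lit 0x103c4f4)) e) e))) (c (c (c (p (nat_lit 0x981c48)) (c (p (nat_lit 0x668106)) e)) (c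
  (c (m (nat_lit 0x3c060c)) e) e)) (c (c (c (m (nat_lit 0xd591e0)) e) e) e))) (c (c (c (c (p (nat_lit
  0x1d9a60)) (c (p (nat_lit 0x2c6cd0)) e)) (c (c (p (nat_lit 0x1064b8)) e) e)) (c (c (c (p (nat_lit
  0x1247a0)) e) e) e)) e))) (c (c (c (c (c (m (nat_lit 0x30e950e)) (c (p (nat_lit 0xed1f02)) (c (m (nat_lit
  0x255318)) e))) (c (c (p (nat_lit 0x3117f84)) (c (m (nat_lit 0x43ad7e)) e)) (c (c (m (nat_lit 0xd0794)) e)
  e))) (c (c (c (p (nat_lit 0x1d9d9ae)) (c (m (nat_lit 0x71688c)) e)) (c (c (m (nat_lit 0x689f58)) e) e)) (c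
  (c (c (m (nat_lit 0x7fa8e0)) e) e) e))) (c (c (c (c (m (nat_lit 0x2f21a)) (c (p (nat_lit 0x37a058)) e)) (c
  (c (p (nat_lit 0xa866a8)) e) e)) (c (c (c (m (nat_lit 0x23029e)) e) e) e)) e)) (c (c (c (c (c (p (nat_lit
  0xba9822)) (c (p (nat_lit 0x131ae0a)) e)) (c (c (m (nat_lit 0x2ad52fa)) e) e)) (c (c (c (m (nat_lit
  0x15c5b9e)) e) e) e)) e) e))) (c (c (c (c (c (c (p (nat_lit 0xd3096e)) (c (p (nat_lit 0x135f5a)) (c (p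
  (nat_lit 0x118737c)) e))) (c (c (m (nat_lit 0x1ee609a)) (c (p (nat_lit 0x33f30c)) e)) (c (c (p (nat_lit
  0x3b9490)) e) e))) (c (c (c (m (nat_lit 0x4e68c0a)) (c (p (nat_lit 0x537540)) e)) (c (c (m (nat_lit
  0xffeb80)) e) e)) (c (c (c (p (nat_lit 0xff5190)) e) e) e))) (c (c (c (c (m (nat_lit 0xafb918)) (c (p
  (nat_lit 0xfb970)) e)) (c (c (m (nat_lit 0x389ac0)) e) e)) (c (c (c (p (nat_lit 0xa43a3c)) e) e) e)) e)) (c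
  (c (c (c (c (m (nat_lit 0xd2ee74)) (c (p (nat_lit 0x4b184e)) e)) (c (c (p (nat_lit 0x2de4ba)) e) e)) (c (c
  (c (p (nat_lit 0x4f41f0)) e) e) e)) e) e)) (c (c (c (c (c (c (m (nat_lit 0x41e46a)) (c (m (nat_lit
  0x1bb814)) e)) (c (c (p (nat_lit 0x3a5018)) e) e)) (c (c (c (m (nat_lit 0x462408)) e) e) e)) e) e) e))) (c
  (c (c (c (c (c (c (m (nat_lit 0x3d82f94)) (c (m (nat_lit 0xcf090)) (c (m (nat_lit 0x6542a6)) e))) (c (c (p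
  (nat_lit 0xbeb792)) (c (m (nat_lit 0x2022a8)) e)) (c (c (m (nat_lit 0x657438)) e) e))) (c (c (c (m (nat_lit
  0x52af0b8)) (c (m (nat_lit 0xb8c92)) e)) (c (c (p (nat_lit 0xe4c9c)) e) e)) (c (c (c (m (nat_lit 0x3d8540))
  e) e) e))) (c (c (c (c (m (nat_lit 0x17c3bda)) (c (m (nat_lit 0xf51c5a)) e)) (c (c (m (nat_lit 0xdc70b2))
  e) e)) (c (c (c (p (nat_lit 0x5e7d42)) e) e) e)) (c (c (c (c (m (nat_lit 0x581208)) e) e) e) e))) (c (c (c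
  (c (c (m (nat_lit 0x1a30874)) (c (m (nat_lit 0x6797ac)) e)) (c (c (p (nat_lit 0x136f24e)) e) e)) (c (c (c
  (p (nat_lit 0x59cab4)) e) e) e)) (c (c (c (c (p (nat_lit 0x6439ce)) e) e) e) e)) (c (c (c (c (c (p (nat_lit
  0x50cc10)) e) e) e) e) e))) (c (c (c (c (c (c (p (nat_lit 0x3ba6d62)) (c (p (nat_lit 0x122934)) e)) (c (c
  (p (nat_lit 0x3aa6b8)) e) e)) (c (c (c (p (nat_lit 0x4952160)) e) e) e)) (c (c (c (c (p (nat_lit 0x9e4204))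
  e) e) e) e)) (c (c (c (c (c (p (nat_lit 0x70d49c)) e) e) e) e) e)) (c (c (c (c (c (c (m (nat_lit 0x7d35e))
  e) e) e) e) e) e))) (c (c (c (c (c (c (c (p (nat_lit 0x6169470)) (c (p (nat_lit 0x3ca482)) e)) (c (c (m
  (nat_lit 0x3488ee)) e) e)) (c (c (c (p (nat_lit 0x2d45ce4)) e) e) e)) (c (c (c (c (p (nat_lit 0x6fee98)) e)
  e) e) e)) (c (c (c (c (c (p (nat_lit 0x2f78b20)) e) e) e) e) e)) (c (c (c (c (c (c (m (nat_lit 0x30e4c96))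
  e) e) e) e) e) e)) (c (c (c (c (c (c (c (m (nat_lit 0x4b11958)) e) e) e) e) e) e) e))))) (c (c (c (c (c (c
  (c (c (p (nat_lit 0x1afb644)) (c (p (nat_lit 0x19366e0)) (c (m (nat_lit 0x1886b02)) e))) (c (c (p (nat_lit
  0x19840c2)) (c (m (nat_lit 0x4a598c)) e)) (c (c (p (nat_lit 0x997344)) e) e))) (c (c (c (m (nat_lit
  0x14ae0a6)) (c (m (nat_lit 0x409068)) e)) (c (c (m (nat_lit 0x5eb090)) e) e)) (c (c (c (m (nat_lit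
  0xfc96f0)) e) e) e))) (c (c (c (c (p (nat_lit 0x1218bfa)) (c (p (nat_lit 0x3ba780)) (c (p (nat_lit
  0x1565e74)) e))) (c (c (p (nat_lit 0xc31a94)) (c (m (nat_lit 0x2037f0)) e)) (c (c (m (nat_lit 0x67eeb8)) e)
  e))) (c (c (c (p (nat_lit 0x1502e8)) (c (p (nat_lit 0x7d2dac)) e)) (c (c (m (nat_lit 0x86eb48)) e) e)) (c
  (c (c (p (nat_lit 0x12dd400)) e) e) e))) (c (c (c (c (p (nat_lit 0xbe56)) (c (m (nat_lit 0x9a6f8)) e)) (c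
  (c (p (nat_lit 0x1672c2)) e) e)) (c (c (c (m (nat_lit 0x24cd2)) e) e) e)) e))) (c (c (c (c (c (p (nat_lit
  0x191c388)) (c (p (nat_lit 0x15d2dc8)) (c (p (nat_lit 0x2c118c)) e))) (c (c (m (nat_lit 0x1750d6a)) (c (p
  (nat_lit 0x849b2e)) e)) (c (c (m (nat_lit 0x2d0e88)) e) e))) (c (c (c (m (nat_lit 0x2c1797a)) (c (p
  (nat_lit 0x413970)) e)) (c (c (m (nat_lit 0x194d90)) e) e)) (c (c (c (m (nat_lit 0x30a6a4)) e) e) e))) (c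
  (c (c (c (p (nat_lit 0xdee64)) (c (m (nat_lit 0xef9ca)) e)) (c (c (p (nat_lit 0xc3a8fc)) e) e)) (c (c (c (p
  (nat_lit 0xf0276)) e) e) e)) e)) (c (c (c (c (c (m (nat_lit 0x24c2d9c)) (c (m (nat_lit 0x7320fc)) e)) (c (c
  (p (nat_lit 0x17fcdb4)) e) e)) (c (c (c (p (nat_lit 0x2693b6e)) e) e) e)) e) e))) (c (c (c (c (c (c (p
  (nat_lit 0x20e3470)) (c (p (nat_lit 0xee9dac)) (c (m (nat_lit 0x186594)) e))) (c (c (m (nat_lit 0x112acb2))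
  (c (m (nat_lit 0xa2954)) e)) (c (c (m (nat_lit 0xf053b8)) e) e))) (c (c (c (m (nat_lit 0x11cc76)) (c (m
  (nat_lit 0x240684)) e)) (c (c (p (nat_lit 0x38e4b8)) e) e)) (c (c (c (m (nat_lit 0x1b8538)) e) e) e))) (c
  (c (c (c (p (nat_lit 0x81b2a4)) (c (m (nat_lit 0x551124)) e)) (c (c (m (nat_lit 0x20b35c)) e) e)) (c (c (c
  (m (nat_lit 0xa37ef8)) e) e) e)) e)) (c (c (c (c (c (p (nat_lit 0x3128ac)) (c (m (nat_lit 0x38f7ae)) e)) (c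
  (c (p (nat_lit 0x74b3a4)) e) e)) (c (c (c (m (nat_lit 0xf4cec)) e) e) e)) e) e)) (c (c (c (c (c (c (m
  (nat_lit 0x6b99e8)) (c (p (nat_lit 0x5ae3b8)) e)) (c (c (m (nat_lit 0x351f6c)) e) e)) (c (c (c (p (nat_lit
  0x430074)) e) e) e)) e) e) e))) (c (c (c (c (c (c (c (m (nat_lit 0x3cef97c)) (c (p (nat_lit 0x170940)) (c
  (p (nat_lit 0xa0c44)) e))) (c (c (p (nat_lit 0x294660)) (c (p (nat_lit 0x8ff034)) e)) (c (c (p (nat_lit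
  0x2eecf0)) e) e))) (c (c (c (p (nat_lit 0x873a98)) (c (m (nat_lit 0x4181ac)) e)) (c (c (p (nat_lit
  0x2d8628)) e) e)) (c (c (c (p (nat_lit 0x6afd70)) e) e) e))) (c (c (c (c (p (nat_lit 0xb9756a)) (c (m
  (nat_lit 0xd789f8)) e)) (c (c (m (nat_lit 0x9ce484)) e) e)) (c (c (c (p (nat_lit 0x986d84)) e) e) e)) (c (c
  (c (c (m (nat_lit 0x13876e)) e) e) e) e))) (c (c (c (c (c (p (nat_lit 0x5409ec4)) (c (m (nat_lit 0x935b80))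
  e)) (c (c (m (nat_lit 0xe9556)) e) e)) (c (c (c (m (nat_lit 0xc603c0)) e) e) e)) (c (c (c (c (m (nat_lit
  0x46f1a0)) e) e) e) e)) (c (c (c (c (c (p (nat_lit 0x1050480)) e) e) e) e) e))) (c (c (c (c (c (c (p
  (nat_lit 0x318f06)) (c (p (nat_lit 0x3072)) e)) (c (c (p (nat_lit 0x60a5a2)) e) e)) (c (c (c (p (nat_lit
  0x1529454)) e) e) e)) (c (c (c (c (m (nat_lit 0x1fc0c8)) e) e) e) e)) (c (c (c (c (c (m (nat_lit 0x3c9cd2))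
  e) e) e) e) e)) (c (c (c (c (c (c (p (nat_lit 0x37be34)) e) e) e) e) e) e))) (c (c (c (c (c (c (c (m
  (nat_lit 0x1b268f8)) (c (p (nat_lit 0x178a6a)) e)) (c (c (m (nat_lit 0x5e51e)) e) e)) (c (c (c (m (nat_lit
  0x30e0ee)) e) e) e)) (c (c (c (c (m (nat_lit 0x20d0a1a)) e) e) e) e)) (c (c (c (c (c (m (nat_lit
  0x5c482b0)) e) e) e) e) e)) (c (c (c (c (c (c (m (nat_lit 0x18e15ee)) e) e) e) e) e) e)) (c (c (c (c (c (c
  (c (p (nat_lit 0x29f99ee)) e) e) e) e) e) e) e)))) (c (c (c (c (c (c (c (c (p (nat_lit 0xc35388)) (c (m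
  (nat_lit 0x1f2937e)) (c (p (nat_lit 0xaff0ce)) e))) (c (c (m (nat_lit 0x752472)) (c (m (nat_lit 0x713f4))
  e)) (c (c (p (nat_lit 0x3e4084)) e) e))) (c (c (c (m (nat_lit 0x1d32548)) (c (p (nat_lit 0x2b5aaa)) e)) (c
  (c (p (nat_lit 0xb49cc)) e) e)) (c (c (c (p (nat_lit 0xf252fc)) e) e) e))) (c (c (c (c (m (nat_lit
  0x8617da)) (c (p (nat_lit 0x805344)) e)) (c (c (p (nat_lit 0x1389024)) e) e)) (c (c (c (p (nat_lit
  0x399eb8)) e) e) e)) (c (c (c (c (p (nat_lit 0x5dcc)) e) e) e) e))) (c (c (c (c (c (p (nat_lit 0x2302ec))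
  (c (p (nat_lit 0x2307f0)) e)) (c (c (p (nat_lit 0x6451a4)) e) e)) (c (c (c (p (nat_lit 0xf622c8)) e) e) e))
  (c (c (c (c (m (nat_lit 0x796266)) e) e) e) e)) (c (c (c (c (c (m (nat_lit 0x134b902)) e) e) e) e) e))) (c
  (c (c (c (c (c (m (nat_lit 0x185991c)) (c (p (nat_lit 0xa3e3cc)) e)) (c (c (p (nat_lit 0x11846c4)) e) e))
  (c (c (c (p (nat_lit 0xb830c8)) e) e) e)) (c (c (c (c (m (nat_lit 0x534c90)) e) e) e) e)) (c (c (c (c (c (m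
  (nat_lit 0x4a4cd8)) e) e) e) e) e)) (c (c (c (c (c (c (m (nat_lit 0x345966)) e) e) e) e) e) e))) (c (c (c
  (c (c (c (c (m (nat_lit 0x368f10)) (c (m (nat_lit 0x7fc626)) e)) (c (c (m (nat_lit 0xecff2e)) e) e)) (c (c
  (c (p (nat_lit 0x26a198)) e) e) e)) (c (c (c (c (m (nat_lit 0x928404)) e) e) e) e)) (c (c (c (c (c (m
  (nat_lit 0x486918)) e) e) e) e) e)) (c (c (c (c (c (c (m (nat_lit 0x33e5b6)) e) e) e) e) e) e)) (c (c (c (c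
  (c (c (c (p (nat_lit 0x219596a)) e) e) e) e) e) e) e))) (c (c (c (c (c (c (c (c (p (nat_lit 0x460920)) (c
  (p (nat_lit 0x8cf892)) e)) (c (c (m (nat_lit 0x51d854)) e) e)) (c (c (c (p (nat_lit 0x769122)) e) e) e)) (c
  (c (c (c (p (nat_lit 0x7f4364)) e) e) e) e)) (c (c (c (c (c (p (nat_lit 0x8a82c2)) e) e) e) e) e)) (c (c (c
  (c (c (c (p (nat_lit 0xc37818)) e) e) e) e) e) e)) (c (c (c (c (c (c (c (m (nat_lit 0x1069176)) e) e) e) e)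
  e) e) e)) (c (c (c (c (c (c (c (c (m (nat_lit 0x2d031e)) e) e) e) e) e) e) e) e))))) (c (c (c (c (c (c (c
  (c (c (p (nat_lit 0x3b9679c)) (c (m (nat_lit 0x122e512)) (c (p (nat_lit 0x39c522)) e))) (c (c (m (nat_lit
  0xd170ea)) (c (m (nat_lit 0x166f44)) e)) (c (c (p (nat_lit 0x4e3360)) e) e))) (c (c (c (m (nat_lit
  0x339e526)) (c (m (nat_lit 0x7176c)) e)) (c (c (m (nat_lit 0x213c54)) e) e)) (c (c (c (p (nat_lit
  0x136476c)) e) e) e))) (c (c (c (c (p (nat_lit 0x396d4d0)) (c (p (nat_lit 0x413b842)) (c (m (nat_lit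
  0x258a7f4)) e))) (c (c (p (nat_lit 0x1dadffe)) (c (m (nat_lit 0x100c7d0)) e)) (c (c (m (nat_lit 0x9a2000))
  e) e))) (c (c (c (m (nat_lit 0xc21c36)) (c (m (nat_lit 0x7f785c)) e)) (c (c (m (nat_lit 0xcb9e08)) e) e))
  (c (c (c (m (nat_lit 0x96d188)) e) e) e))) (c (c (c (c (p (nat_lit 0x1841bc2)) (c (m (nat_lit 0xf8af00))
  e)) (c (c (p (nat_lit 0x9cd08)) e) e)) (c (c (c (m (nat_lit 0x55b024)) e) e) e)) e))) (c (c (c (c (c (m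
  (nat_lit 0x86a618)) (c (p (nat_lit 0x304aaba)) (c (m (nat_lit 0x5898e4)) e))) (c (c (p (nat_lit 0x6770e62))
  (c (m (nat_lit 0x36096c)) e)) (c (c (m (nat_lit 0x5bb6f0)) e) e))) (c (c (c (p (nat_lit 0x36edf66)) (c (m
  (nat_lit 0x247266)) e)) (c (c (m (nat_lit 0x22779c)) e) e)) (c (c (c (m (nat_lit 0x14d9c0)) e) e) e))) (c
  (c (c (c (p (nat_lit 0xb427ae)) (c (m (nat_lit 0xec5704)) e)) (c (c (m (nat_lit 0xd643a0)) e) e)) (c (c (c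
  (m (nat_lit 0x77538c)) e) e) e)) e)) (c (c (c (c (c (p (nat_lit 0x2a4e264)) (c (m (nat_lit 0x21b82ae)) e))
  (c (c (m (nat_lit 0x2fe950c)) e) e)) (c (c (c (m (nat_lit 0x18aba08)) e) e) e)) e) e))) (c (c (c (c (c (c
  (p (nat_lit 0x1074c2a)) (c (p (nat_lit 0x172e792)) (c (p (nat_lit 0x1351aa)) e))) (c (c (p (nat_lit
  0x17eb252)) (c (p (nat_lit 0x336ebe)) e)) (c (c (m (nat_lit 0x62eec)) e) e))) (c (c (c (m (nat_lit
  0x9ec0f4)) (c (p (nat_lit 0x721caa)) e)) (c (c (p (nat_lit 0x14b38c)) e) e)) (c (c (c (p (nat_lit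
  0x6ab930)) e) e) e))) (c (c (c (c (m (nat_lit 0x79b9f0)) (c (p (nat_lit 0x5de6d0)) e)) (c (c (p (nat_lit
  0x6168)) e) e)) (c (c (c (p (nat_lit 0xe63e8)) e) e) e)) e)) (c (c (c (c (c (m (nat_lit 0x87fc84)) (c (m
  (nat_lit 0x78385e)) e)) (c (c (p (nat_lit 0x32aef4)) e) e)) (c (c (c (p (nat_lit 0x349584)) e) e) e)) e)
  e)) (c (c (c (c (c (c (p (nat_lit 0x4b80dc)) (c (p (nat_lit 0x20f75a)) e)) (c (c (m (nat_lit 0x3aa10)) e)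
  e)) (c (c (c (p (nat_lit 0x217ecc)) e) e) e)) e) e) e))) (c (c (c (c (c (c (c (m (nat_lit 0x4254864)) (c (m
  (nat_lit 0x107a89a)) (c (p (nat_lit 0x3aaeb0)) e))) (c (c (m (nat_lit 0xd6bec4)) (c (p (nat_lit 0x145d64))
  e)) (c (c (p (nat_lit 0x1a8ad0)) e) e))) (c (c (c (p (nat_lit 0x2d3ae84)) (c (m (nat_lit 0x4c33e0)) e)) (c
  (c (m (nat_lit 0x794838)) e) e)) (c (c (c (p (nat_lit 0xb1ca08)) e) e) e))) (c (c (c (c (m (nat_lit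
  0x285d3da)) (c (m (nat_lit 0x23844f0)) e)) (c (c (m (nat_lit 0x1adf156)) e) e)) (c (c (c (p (nat_lit
  0x16302)) e) e) e)) (c (c (c (c (p (nat_lit 0x723ee2)) e) e) e) e))) (c (c (c (c (c (m (nat_lit 0x18c8dba))
  (c (m (nat_lit 0x93e36a)) e)) (c (c (m (nat_lit 0x15412b6)) e) e)) (c (c (c (m (nat_lit 0x1af1c36)) e) e)
  e)) (c (c (c (c (p (nat_lit 0x120fba)) e) e) e) e)) (c (c (c (c (c (p (nat_lit 0x1c729d4)) e) e) e) e) e)))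
  (c (c (c (c (c (c (m (nat_lit 0x17a9462)) (c (m (nat_lit 0xd4ca2a)) e)) (c (c (p (nat_lit 0x1b42a8)) e) e))
  (c (c (c (m (nat_lit 0x3056ee)) e) e) e)) (c (c (c (c (m (nat_lit 0x432054)) e) e) e) e)) (c (c (c (c (c (p
  (nat_lit 0x75c)) e) e) e) e) e)) (c (c (c (c (c (c (p (nat_lit 0x4abc6e)) e) e) e) e) e) e))) (c (c (c (c
  (c (c (c (m (nat_lit 0x2e753b6)) (c (p (nat_lit 0x18dfe84)) e)) (c (c (p (nat_lit 0x7c4ad2)) e) e)) (c (c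
  (c (m (nat_lit 0xd99e78)) e) e) e)) (c (c (c (c (p (nat_lit 0x1555fb6)) e) e) e) e)) (c (c (c (c (c (m
  (nat_lit 0x131ca30)) e) e) e) e) e)) (c (c (c (c (c (c (m (nat_lit 0xb8d5fe)) e) e) e) e) e) e)) (c (c (c
  (c (c (c (c (p (nat_lit 0x251b3fe)) e) e) e) e) e) e) e)))) (c (c (c (c (c (c (c (c (m (nat_lit 0x34e5d1e))
  (c (p (nat_lit 0x583e)) (c (p (nat_lit 0x68ee60)) e))) (c (c (m (nat_lit 0x253eb7c)) (c (m (nat_lit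
  0x34788)) e)) (c (c (m (nat_lit 0x1f38f0)) e) e))) (c (c (c (p (nat_lit 0x1e43428)) (c (m (nat_lit
  0x162fb4)) e)) (c (c (p (nat_lit 0x899070)) e) e)) (c (c (c (p (nat_lit 0x681f0)) e) e) e))) (c (c (c (c (p
  (nat_lit 0x18813c)) (c (m (nat_lit 0x1537c44)) e)) (c (c (p (nat_lit 0x19e594)) e) e)) (c (c (c (m (nat_lit
  0xa6b7f8)) e) e) e)) (c (c (c (c (p (nat_lit 0x64453e)) e) e) e) e))) (c (c (c (c (c (p (nat_lit 0x9aecde))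
  (c (m (nat_lit 0x7315b6)) e)) (c (c (p (nat_lit 0x59490c)) e) e)) (c (c (c (m (nat_lit 0x6be512)) e) e) e))
  (c (c (c (c (p (nat_lit 0x718188)) e) e) e) e)) (c (c (c (c (c (m (nat_lit 0x7fa63a)) e) e) e) e) e))) (c
  (c (c (c (c (c (m (nat_lit 0x1155d1a)) (c (m (nat_lit 0x591222)) e)) (c (c (p (nat_lit 0x86db2e)) e) e)) (c
  (c (c (p (nat_lit 0xef24a)) e) e) e)) (c (c (c (c (p (nat_lit 0x4f4064)) e) e) e) e)) (c (c (c (c (c (p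
  (nat_lit 0x2480b8)) e) e) e) e) e)) (c (c (c (c (c (c (m (nat_lit 0x710748)) e) e) e) e) e) e))) (c (c (c
  (c (c (c (c (p (nat_lit 0x33b9424)) (c (p (nat_lit 0x4ca2a4)) e)) (c (c (p (nat_lit 0x60826e)) e) e)) (c (c
  (c (p (nat_lit 0x82a736)) e) e) e)) (c (c (c (c (p (nat_lit 0x14f96ee)) e) e) e) e)) (c (c (c (c (c (p
  (nat_lit 0x7fbf24)) e) e) e) e) e)) (c (c (c (c (c (c (p (nat_lit 0x6c720c)) e) e) e) e) e) e)) (c (c (c (c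
  (c (c (c (p (nat_lit 0x2ed592)) e) e) e) e) e) e) e))) (c (c (c (c (c (c (c (c (p (nat_lit 0x6d9d6a)) (c (m
  (nat_lit 0x12bb14)) e)) (c (c (m (nat_lit 0x984798)) e) e)) (c (c (c (m (nat_lit 0x12f078)) e) e) e)) (c (c
  (c (c (p (nat_lit 0xab6fcc)) e) e) e) e)) (c (c (c (c (c (p (nat_lit 0x140fca)) e) e) e) e) e)) (c (c (c (c
  (c (c (p (nat_lit 0xa54bc)) e) e) e) e) e) e)) (c (c (c (c (c (c (c (m (nat_lit 0x13ac772)) e) e) e) e) e)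
  e) e)) (c (c (c (c (c (c (c (c (p (nat_lit 0x115cec)) e) e) e) e) e) e) e) e)))) (c (c (c (c (c (c (c (c (c
  (m (nat_lit 0x2a643b0)) (c (m (nat_lit 0x11e912e)) (c (p (nat_lit 0x84945c)) e))) (c (c (m (nat_lit
  0x183a1a)) (c (p (nat_lit 0x5012ee)) e)) (c (c (m (nat_lit 0x12e0f4)) e) e))) (c (c (c (p (nat_lit
  0x1016a4e)) (c (p (nat_lit 0x2e443c)) e)) (c (c (p (nat_lit 0x5d9ae0)) e) e)) (c (c (c (m (nat_lit
  0xcb310)) e) e) e))) (c (c (c (c (m (nat_lit 0x4586790)) (c (p (nat_lit 0x3347c4c)) e)) (c (c (p (nat_lit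
  0xcc8670)) e) e)) (c (c (c (p (nat_lit 0x10fa118)) e) e) e)) (c (c (c (c (m (nat_lit 0x8cce3e)) e) e) e)
  e))) (c (c (c (c (c (m (nat_lit 0x3249be2)) (c (p (nat_lit 0x145131c)) e)) (c (c (p (nat_lit 0x1597b84)) e)
  e)) (c (c (c (p (nat_lit 0xe28324)) e) e) e)) (c (c (c (c (p (nat_lit 0x225d62)) e) e) e) e)) (c (c (c (c
  (c (m (nat_lit 0x3dc026)) e) e) e) e) e))) (c (c (c (c (c (c (p (nat_lit 0x173976)) (c (m (nat_lit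
  0x123fca8)) e)) (c (c (m (nat_lit 0x62ec2c)) e) e)) (c (c (c (m (nat_lit 0x163818)) e) e) e)) (c (c (c (c
  (m (nat_lit 0x5235c)) e) e) e) e)) (c (c (c (c (c (m (nat_lit 0x17eb84)) e) e) e) e) e)) (c (c (c (c (c (c
  (m (nat_lit 0x45b66a)) e) e) e) e) e) e))) (c (c (c (c (c (c (c (p (nat_lit 0x289aa36)) (c (p (nat_lit
  0x6a96f2)) e)) (c (c (m (nat_lit 0x1139646)) e) e)) (c (c (c (m (nat_lit 0x7b6408)) e) e) e)) (c (c (c (c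
  (p (nat_lit 0x22a190)) e) e) e) e)) (c (c (c (c (c (p (nat_lit 0x11aa230)) e) e) e) e) e)) (c (c (c (c (c
  (c (p (nat_lit 0x136d2fe)) e) e) e) e) e) e)) (c (c (c (c (c (c (c (p (nat_lit 0xbfee2a)) e) e) e) e) e) e)
  e))) (c (c (c (c (c (c (c (c (p (nat_lit 0x2dee1a6)) (c (p (nat_lit 0x53e94a)) e)) (c (c (m (nat_lit
  0x1fdd54)) e) e)) (c (c (c (m (nat_lit 0xf45738)) e) e) e)) (c (c (c (c (m (nat_lit 0x1982544)) e) e) e)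
  e)) (c (c (c (c (c (m (nat_lit 0x3b377e)) e) e) e) e) e)) (c (c (c (c (c (c (p (nat_lit 0xa516aa)) e) e) e)
  e) e) e)) (c (c (c (c (c (c (c (m (nat_lit 0x29b54b0)) e) e) e) e) e) e) e)) (c (c (c (c (c (c (c (c (p
  (nat_lit 0x92ff2e)) e) e) e) e) e) e) e) e))) (c (c (c (c (c (c (c (c (c (p (nat_lit 0x2068704)) (c (m
  (nat_lit 0x1377f00)) e)) (c (c (m (nat_lit 0x605730)) e) e)) (c (c (c (m (nat_lit 0x45d8fc)) e) e) e)) (c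
  (c (c (c (p (nat_lit 0x16523f4)) e) e) e) e)) (c (c (c (c (c (m (nat_lit 0x22f542)) e) e) e) e) e)) (c (c
  (c (c (c (c (m (nat_lit 0x5d10fe)) e) e) e) e) e) e)) (c (c (c (c (c (c (c (m (nat_lit 0x59d6c6)) e) e) e)
  e) e) e) e)) (c (c (c (c (c (c (c (c (p (nat_lit 0x7665c)) e) e) e) e) e) e) e) e)) (c (c (c (c (c (c (c (c
  (c (m (nat_lit 0x703e66)) e) e) e) e) e) e) e) e) e)))))

noncomputable def gt_0_2_7 : Tr :=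
  (c (c (c (c (c (c (c (c (c (m (nat_lit 0x2677a70)) (c (p (nat_lit 0xe25f06)) (c (m (nat_lit 0x479928)) e)))
  (c (c (m (nat_lit 0xd3f386)) (c (m (nat_lit 0x606798)) e)) (c (c (p (nat_lit 0x144e70)) e) e))) (c (c (c (p
  (nat_lit 0x11ef884)) (c (m (nat_lit 0x4907d0)) e)) (c (c (m (nat_lit 0x6066f0)) e) e)) (c (c (c (m (nat_lit
  0x479928)) e) e) e))) (c (c (c (c (m (nat_lit 0x2bce750)) (c (m (nat_lit 0xb30730)) (c (m (nat_lit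
  0x9042d8)) e))) (c (c (m (nat_lit 0x241ba8c)) (c (p (nat_lit 0xf0ddb8)) e)) (c (c (m (nat_lit 0xc1b960)) e)
  e))) (c (c (c (p (nat_lit 0x35bf7b8)) (c (p (nat_lit 0x5f7510)) e)) (c (c (p (nat_lit 0x7b47e8)) e) e)) (c
  (c (c (m (nat_lit 0xc4b420)) e) e) e))) (c (c (c (c (m (nat_lit 0x87d260)) (c (p (nat_lit 0xa1c688)) (c (m
  (nat_lit 0x3135a8)) e))) (c (c (p (nat_lit 0x17a5640)) (c (m (nat_lit 0x645000)) e)) (c (c (m (nat_lit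
  0x887268)) e) e))) (c (c (c (p (nat_lit 0x80cfd0)) (c (m (nat_lit 0x37188)) e)) (c (c (m (nat_lit
  0x4a5f08)) e) e)) (c (c (c (m (nat_lit 0x1e4650)) e) e) e))) e))) (c (c (c (c (c (p (nat_lit 0x306f90)) (c
  (p (nat_lit 0xe74026)) (c (m (nat_lit 0x178b930)) e))) (c (c (m (nat_lit 0x786b74e)) (c (p (nat_lit
  0x24463b0)) e)) (c (c (p (nat_lit 0x264d260)) e) e))) (c (c (c (p (nat_lit 0x3bd54c)) (c (m (nat_lit
  0x30ff60)) e)) (c (c (p (nat_lit 0x2446440)) e) e)) (c (c (c (m (nat_lit 0x178b798)) e) e) e))) (c (c (c (c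
  (m (nat_lit 0xc5a570)) (c (m (nat_lit 0x743df0)) (c (p (nat_lit 0x3de2e8)) e))) (c (c (p (nat_lit
  0x1c841b8)) (c (p (nat_lit 0x186d98)) e)) (c (c (p (nat_lit 0xd7760)) e) e))) (c (c (c (p (nat_lit
  0x5c0fd0)) (c (m (nat_lit 0x520f68)) e)) (c (c (m (nat_lit 0x38c628)) e) e)) (c (c (c (m (nat_lit
  0xc07548)) e) e) e))) e)) (c (c (c (c (c (m (nat_lit 0x2efbcf0)) (c (p (nat_lit 0x2b1e1b8)) (c (m (nat_lit
  0x8d3c30)) e))) (c (c (p (nat_lit 0x5da1010)) (c (m (nat_lit 0x14a7a70)) e)) (c (c (m (nat_lit 0x3428c40))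
  e) e))) (c (c (c (p (nat_lit 0x2b1e398)) (c (m (nat_lit 0x9a1640)) e)) (c (c (m (nat_lit 0x14a7ad0)) e) e))
  (c (c (c (m (nat_lit 0x8d3d08)) e) e) e))) e) e))) (c (c (c (c (c (c (m (nat_lit 0x22e818a)) (c (p (nat_lit
  0x186b262)) (c (m (nat_lit 0xc4b480)) e))) (c (c (m (nat_lit 0xb445d2)) (c (p (nat_lit 0x7b4590)) e)) (c (c
  (m (nat_lit 0xc1bb70)) e) e))) (c (c (c (m (nat_lit 0xf20e2)) (c (p (nat_lit 0x5f76a8)) e)) (c (c (p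
  (nat_lit 0xf0da88)) e) e)) (c (c (c (m (nat_lit 0x904458)) e) e) e))) (c (c (c (c (m (nat_lit 0x539868)) (c
  (m (nat_lit 0xd9500)) (c (m (nat_lit 0x387c90)) e))) (c (c (m (nat_lit 0x9ff9f0)) (c (p (nat_lit 0x6e71b0))
  e)) (c (c (p (nat_lit 0xb165d0)) e) e))) (c (c (c (m (nat_lit 0xd9500)) (c (m (nat_lit 0x746f10)) e)) (c (c
  (p (nat_lit 0x6e71b0)) e) e)) (c (c (c (m (nat_lit 0x387c60)) e) e) e))) e)) (c (c (c (c (c (m (nat_lit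
  0xc5a558)) (c (p (nat_lit 0x5c0f88)) (c (m (nat_lit 0xc07518)) e))) (c (c (p (nat_lit 0x1c84188)) (c (m
  (nat_lit 0x38c610)) e)) (c (c (p (nat_lit 0xd7778)) e) e))) (c (c (c (m (nat_lit 0x743da8)) (c (m (nat_lit
  0x520f68)) e)) (c (c (p (nat_lit 0x186d98)) e) e)) (c (c (c (p (nat_lit 0x3de2d0)) e) e) e))) e) e)) (c (c
  (c (c (c (c (m (nat_lit 0x87d278)) (c (p (nat_lit 0x80cfd0)) (c (m (nat_lit 0x1e4650)) e))) (c (c (p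
  (nat_lit 0x17a5670)) (c (m (nat_lit 0x4a5f08)) e)) (c (c (m (nat_lit 0x887268)) e) e))) (c (c (c (p
  (nat_lit 0xa1c6a0)) (c (m (nat_lit 0x37188)) e)) (c (c (m (nat_lit 0x645018)) e) e)) (c (c (c (m (nat_lit
  0x3135c0)) e) e) e))) e) e) e))) (c (c (c (c (c (c (c (p (nat_lit 0x5b7de64)) (c (p (nat_lit 0x19922fa)) (c
  (p (nat_lit 0x977a00)) e))) (c (c (p (nat_lit 0x2387fb2)) (c (m (nat_lit 0x791790)) e)) (c (c (m (nat_lit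
  0x913578)) e) e))) (c (c (c (p (nat_lit 0x1612a58)) (c (m (nat_lit 0x6d3620)) e)) (c (c (m (nat_lit
  0x10635d8)) e) e)) (c (c (c (p (nat_lit 0x7e1428)) e) e) e))) (c (c (c (c (p (nat_lit 0x176bc2)) (c (m
  (nat_lit 0xa80294)) (c (p (nat_lit 0x4aa6a8)) e))) (c (c (p (nat_lit 0x57e48b2)) (c (m (nat_lit 0x27ea78))
  e)) (c (c (m (nat_lit 0x319158)) e) e))) (c (c (c (m (nat_lit 0x6ab47c4)) (c (p (nat_lit 0xa20a98)) e)) (c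
  (c (m (nat_lit 0x2ea7c0)) e) e)) (c (c (c (p (nat_lit 0x3b55d8)) e) e) e))) (c (c (c (c (p (nat_lit
  0x62ccd0)) (c (m (nat_lit 0x5e7790)) e)) (c (c (m (nat_lit 0x1651e0)) e) e)) (c (c (c (m (nat_lit
  0x113928)) e) e) e)) e))) (c (c (c (c (c (m (nat_lit 0x5bfb78c)) (c (m (nat_lit 0x2488776)) (c (p (nat_lit
  0x15d758)) e))) (c (c (p (nat_lit 0x58b315c)) (c (p (nat_lit 0x38f670)) e)) (c (c (p (nat_lit 0x9ea6f0)) e)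
  e))) (c (c (c (p (nat_lit 0x2931bf4)) (c (p (nat_lit 0xd07cb8)) e)) (c (c (p (nat_lit 0xc6c78)) e) e)) (c
  (c (c (m (nat_lit 0xde6b10)) e) e) e))) (c (c (c (c (p (nat_lit 0x13c2a08)) (c (p (nat_lit 0x3f7830)) e))
  (c (c (m (nat_lit 0x7b5e50)) e) e)) (c (c (c (p (nat_lit 0xedda70)) e) e) e)) e)) (c (c (c (c (c (p
  (nat_lit 0x7327164)) (c (m (nat_lit 0x1c00578)) e)) (c (c (m (nat_lit 0x339e988)) e) e)) (c (c (c (m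
  (nat_lit 0x23f3b98)) e) e) e)) e) e))) (c (c (c (c (c (c (p (nat_lit 0x917a3d8)) (c (m (nat_lit 0x1ec4a10))
  (c (p (nat_lit 0xa9a730)) e))) (c (c (m (nat_lit 0x2547c24)) (c (p (nat_lit 0x71ef80)) e)) (c (c (p
  (nat_lit 0xc98e20)) e) e))) (c (c (c (m (nat_lit 0x4ddcd98)) (c (p (nat_lit 0x3e100)) e)) (c (c (m (nat_lit
  0x4f1a60)) e) e)) (c (c (c (p (nat_lit 0xa29420)) e) e) e))) (c (c (c (c (p (nat_lit 0x5ad170)) (c (m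
  (nat_lit 0x23ce50)) e)) (c (c (m (nat_lit 0x2b8ea0)) e) e)) (c (c (c (p (nat_lit 0x50b590)) e) e) e)) e))
  (c (c (c (c (c (m (nat_lit 0x46e0)) (c (p (nat_lit 0x194a90)) e)) (c (c (m (nat_lit 0x7327e0)) e) e)) (c (c
  (c (p (nat_lit 0xc15b28)) e) e) e)) e) e)) (c (c (c (c (c (c (p (nat_lit 0x2bde8)) (c (m (nat_lit
  0x4101d8)) e)) (c (c (m (nat_lit 0x7e588)) e) e)) (c (c (c (m (nat_lit 0x25af58)) e) e) e)) e) e) e))) (c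
  (c (c (c (c (c (c (p (nat_lit 0x75c4b90)) (c (m (nat_lit 0x57ab42)) (c (p (nat_lit 0x2f1738)) e))) (c (c (m
  (nat_lit 0x484b1da)) (c (m (nat_lit 0x12ae60)) e)) (c (c (p (nat_lit 0x802aa0)) e) e))) (c (c (c (m
  (nat_lit 0x7b304c8)) (c (p (nat_lit 0xe0868)) e)) (c (c (p (nat_lit 0x9ffdc8)) e) e)) (c (c (c (m (nat_lit
  0x7a6b98)) e) e) e))) (c (c (c (c (p (nat_lit 0x260236e)) (c (p (nat_lit 0x640cec)) e)) (c (c (m (nat_lit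
  0x1f0873e)) e) e)) (c (c (c (p (nat_lit 0x401f43c)) e) e) e)) (c (c (c (c (m (nat_lit 0x100c20)) e) e) e)
  e))) (c (c (c (c (c (m (nat_lit 0x59d4c6e)) (c (p (nat_lit 0x24ec208)) e)) (c (c (m (nat_lit 0xa9e246)) e)
  e)) (c (c (c (m (nat_lit 0x2bd610)) e) e) e)) (c (c (c (c (m (nat_lit 0xc6e760)) e) e) e) e)) (c (c (c (c
  (c (m (nat_lit 0x8bc4dc)) e) e) e) e) e))) (c (c (c (c (c (c (m (nat_lit 0xb5c347c)) (c (p (nat_lit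
  0xdc1ece)) e)) (c (c (p (nat_lit 0x17d256e)) e) e)) (c (c (c (p (nat_lit 0x2afe6e2)) e) e) e)) (c (c (c (c
  (p (nat_lit 0x4e5940)) e) e) e) e)) (c (c (c (c (c (p (nat_lit 0x7c66a4)) e) e) e) e) e)) (c (c (c (c (c (c
  (m (nat_lit 0x13e954)) e) e) e) e) e) e))) (c (c (c (c (c (c (c (m (nat_lit 0x537abe4)) (c (m (nat_lit
  0xa52b6e)) e)) (c (c (p (nat_lit 0x19e07ce)) e) e)) (c (c (c (p (nat_lit 0x60f471c)) e) e) e)) (c (c (c (c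
  (m (nat_lit 0x1767600)) e) e) e) e)) (c (c (c (c (c (p (nat_lit 0x4877202)) e) e) e) e) e)) (c (c (c (c (c
  (c (p (nat_lit 0x4aed616)) e) e) e) e) e) e)) (c (c (c (c (c (c (c (m (nat_lit 0x2f58414)) e) e) e) e) e)
  e) e))))) (c (c (c (c (c (c (c (c (m (nat_lit 0x4cb1d4)) (c (p (nat_lit 0x3170be)) (c (p (nat_lit
  0x17d6198)) e))) (c (c (p (nat_lit 0x5c3aa98)) (c (m (nat_lit 0x1293ed0)) e)) (c (c (p (nat_lit 0x104de58))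
  e) e))) (c (c (c (m (nat_lit 0x19d1060)) (c (m (nat_lit 0x9bc958)) e)) (c (c (m (nat_lit 0x1293f00)) e) e))
  (c (c (c (p (nat_lit 0x17d6198)) e) e) e))) (c (c (c (c (p (nat_lit 0x4b1157a)) (c (m (nat_lit 0x1b5e350))
  (c (m (nat_lit 0x29bb0)) e))) (c (c (m (nat_lit 0x14f6ac)) (c (p (nat_lit 0x129120)) e)) (c (c (p (nat_lit
  0x626be0)) e) e))) (c (c (c (m (nat_lit 0x2cff7c0)) (c (p (nat_lit 0xdf6140)) e)) (c (c (p (nat_lit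
  0x40daf0)) e) e)) (c (c (c (p (nat_lit 0x884310)) e) e) e))) (c (c (c (c (m (nat_lit 0x9eb530)) (c (p
  (nat_lit 0x63f2a0)) e)) (c (c (m (nat_lit 0x21a020)) e) e)) (c (c (c (m (nat_lit 0x318450)) e) e) e)) e)))
  (c (c (c (c (c (p (nat_lit 0xe25429c)) (c (m (nat_lit 0x342fd26)) (c (m (nat_lit 0x110a0)) e))) (c (c (m
  (nat_lit 0x56b1982)) (c (m (nat_lit 0x6ab240)) e)) (c (c (m (nat_lit 0x483210)) e) e))) (c (c (c (m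
  (nat_lit 0x297954c)) (c (m (nat_lit 0x4770c0)) e)) (c (c (m (nat_lit 0x6ab240)) e) e)) (c (c (c (m (nat_lit
  0x110d0)) e) e) e))) (c (c (c (c (m (nat_lit 0x716c88)) (c (p (nat_lit 0x3138f0)) e)) (c (c (m (nat_lit
  0xb65770)) e) e)) (c (c (c (p (nat_lit 0x1b4998)) e) e) e)) e)) (c (c (c (c (c (m (nat_lit 0xd42ca58)) (c
  (p (nat_lit 0x38ec608)) e)) (c (c (p (nat_lit 0x5a00a68)) e) e)) (c (c (c (p (nat_lit 0x38ec668)) e) e) e))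
  e) e))) (c (c (c (c (c (c (p (nat_lit 0x5df3f54)) (c (m (nat_lit 0xfaafe2)) (c (p (nat_lit 0x884310)) e)))
  (c (c (m (nat_lit 0x1a26e06)) (c (p (nat_lit 0x40db20)) e)) (c (c (p (nat_lit 0x626be0)) e) e))) (c (c (c
  (m (nat_lit 0x259c8c6)) (c (p (nat_lit 0xdf6140)) e)) (c (c (p (nat_lit 0x129120)) e) e)) (c (c (c (m
  (nat_lit 0x29be0)) e) e) e))) (c (c (c (c (p (nat_lit 0xb07ab0)) (c (m (nat_lit 0x5e3b0)) e)) (c (c (p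
  (nat_lit 0x484a10)) e) e)) (c (c (c (m (nat_lit 0x5e3b0)) e) e) e)) e)) (c (c (c (c (c (m (nat_lit
  0x716c28)) (c (p (nat_lit 0x1b4998)) e)) (c (c (m (nat_lit 0xb65758)) e) e)) (c (c (c (p (nat_lit
  0x3138d8)) e) e) e)) e) e)) (c (c (c (c (c (c (m (nat_lit 0x9eb530)) (c (m (nat_lit 0x318468)) e)) (c (c (m
  (nat_lit 0x21a020)) e) e)) (c (c (c (p (nat_lit 0x63f2a0)) e) e) e)) e) e) e))) (c (c (c (c (c (c (c (m
  (nat_lit 0x9ca7082)) (c (m (nat_lit 0x2346546)) (c (m (nat_lit 0x5590b0)) e))) (c (c (m (nat_lit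
  0x180254a)) (c (p (nat_lit 0x38c250)) e)) (c (c (m (nat_lit 0x148e0)) e) e))) (c (c (c (p (nat_lit
  0x29ff4de)) (c (m (nat_lit 0x997ec0)) e)) (c (c (p (nat_lit 0x84c840)) e) e)) (c (c (c (m (nat_lit
  0x5b8f00)) e) e) e))) (c (c (c (c (p (nat_lit 0xc2616)) (c (p (nat_lit 0x1ed434c)) e)) (c (c (m (nat_lit
  0x126e8f8)) e) e)) (c (c (c (p (nat_lit 0x27ee9c8)) e) e) e)) (c (c (c (c (p (nat_lit 0x36f468)) e) e) e)
  e))) (c (c (c (c (c (p (nat_lit 0x86457ea)) (c (p (nat_lit 0x862aa)) e)) (c (c (m (nat_lit 0x1f09dd6)) e)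
  e)) (c (c (c (m (nat_lit 0x32ad20)) e) e) e)) (c (c (c (c (p (nat_lit 0x28c9b0)) e) e) e) e)) (c (c (c (c
  (c (p (nat_lit 0x12b4d68)) e) e) e) e) e))) (c (c (c (c (c (c (p (nat_lit 0xaedc4a)) (c (p (nat_lit
  0x876ae)) e)) (c (c (p (nat_lit 0x104d0d2)) e) e)) (c (c (c (p (nat_lit 0x146b5ea)) e) e) e)) (c (c (c (c
  (p (nat_lit 0x38caf0)) e) e) e) e)) (c (c (c (c (c (m (nat_lit 0x1f0278)) e) e) e) e) e)) (c (c (c (c (c (c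
  (m (nat_lit 0x3eea40)) e) e) e) e) e) e))) (c (c (c (c (c (c (c (p (nat_lit 0x1befa8a)) (c (p (nat_lit
  0x260a18)) e)) (c (c (m (nat_lit 0x1b5796)) e) e)) (c (c (c (m (nat_lit 0x169766a)) e) e) e)) (c (c (c (c
  (m (nat_lit 0x3f1fea8)) e) e) e) e)) (c (c (c (c (c (m (nat_lit 0x92682de)) e) e) e) e) e)) (c (c (c (c (c
  (c (m (nat_lit 0x298a112)) e) e) e) e) e) e)) (c (c (c (c (c (c (c (p (nat_lit 0x5cc80bc)) e) e) e) e) e)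
  e) e)))) (c (c (c (c (c (c (c (c (m (nat_lit 0x4482714)) (c (m (nat_lit 0x18dc32c)) (c (p (nat_lit
  0x92a18)) e))) (c (c (m (nat_lit 0x28e614a)) (c (p (nat_lit 0xa762f8)) e)) (c (c (m (nat_lit 0xaa2d28)) e)
  e))) (c (c (c (p (nat_lit 0x425c4)) (c (p (nat_lit 0xb0cef8)) e)) (c (c (p (nat_lit 0xa762f8)) e) e)) (c (c
  (c (p (nat_lit 0x92a30)) e) e) e))) (c (c (c (c (p (nat_lit 0xa44ba)) (c (p (nat_lit 0x113760)) e)) (c (c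
  (p (nat_lit 0xc06ab0)) e) e)) (c (c (c (m (nat_lit 0x857400)) e) e) e)) (c (c (c (c (p (nat_lit 0x524268))
  e) e) e) e))) (c (c (c (c (c (m (nat_lit 0x32fa57c)) (c (p (nat_lit 0x77d0a8)) e)) (c (c (p (nat_lit
  0xddd888)) e) e)) (c (c (c (p (nat_lit 0x77d0a8)) e) e) e)) (c (c (c (c (p (nat_lit 0x9e8e00)) e) e) e) e))
  (c (c (c (c (c (p (nat_lit 0x10b2ce8)) e) e) e) e) e))) (c (c (c (c (c (c (m (nat_lit 0x1b249a2)) (c (m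
  (nat_lit 0x857400)) e)) (c (c (p (nat_lit 0xc06ab0)) e) e)) (c (c (c (p (nat_lit 0x113760)) e) e) e)) (c (c
  (c (c (m (nat_lit 0xcebc50)) e) e) e) e)) (c (c (c (c (c (p (nat_lit 0x9e8dd0)) e) e) e) e) e)) (c (c (c (c
  (c (c (p (nat_lit 0x524268)) e) e) e) e) e) e))) (c (c (c (c (c (c (c (p (nat_lit 0x434aae6)) (c (p
  (nat_lit 0x1c62ec4)) e)) (c (c (m (nat_lit 0x76987e)) e) e)) (c (c (c (m (nat_lit 0xd53e58)) e) e) e)) (c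
  (c (c (c (m (nat_lit 0x1369f32)) e) e) e) e)) (c (c (c (c (c (p (nat_lit 0x118e45c)) e) e) e) e) e)) (c (c
  (c (c (c (c (p (nat_lit 0x11764e)) e) e) e) e) e) e)) (c (c (c (c (c (c (c (p (nat_lit 0x13c38ae)) e) e) e)
  e) e) e) e))) (c (c (c (c (c (c (c (c (p (nat_lit 0x68183a0)) (c (p (nat_lit 0x1d4678)) e)) (c (c (p
  (nat_lit 0x519d80)) e) e)) (c (c (c (p (nat_lit 0x1d4678)) e) e) e)) (c (c (c (c (p (nat_lit 0xc10aa0)) e)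
  e) e) e)) (c (c (c (c (c (p (nat_lit 0xc1a8e0)) e) e) e) e) e)) (c (c (c (c (c (c (p (nat_lit 0xc10ad0)) e)
  e) e) e) e) e)) (c (c (c (c (c (c (c (m (nat_lit 0x4810fc8)) e) e) e) e) e) e) e)) (c (c (c (c (c (c (c (c
  (m (nat_lit 0x25863d8)) e) e) e) e) e) e) e) e))))) (c (c (c (c (c (c (c (c (c (p (nat_lit 0xa88c2c2)) (c
  (m (nat_lit 0x220d160)) (c (p (nat_lit 0x7e1470)) e))) (c (c (p (nat_lit 0x7d443e)) (c (m (nat_lit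
  0x10635d8)) e)) (c (c (m (nat_lit 0x913578)) e) e))) (c (c (c (m (nat_lit 0x1c6a6e8)) (c (m (nat_lit
  0x6d3608)) e)) (c (c (m (nat_lit 0x791790)) e) e)) (c (c (c (p (nat_lit 0x977a00)) e) e) e))) (c (c (c (c
  (p (nat_lit 0x9a76082)) (c (m (nat_lit 0xb11e90)) (c (p (nat_lit 0xa293c0)) e))) (c (c (p (nat_lit
  0x5664c)) (c (m (nat_lit 0x4f1a90)) e)) (c (c (p (nat_lit 0xc98e50)) e) e))) (c (c (c (m (nat_lit
  0x307af88)) (c (p (nat_lit 0x3e0d0)) e)) (c (c (p (nat_lit 0x71ef50)) e) e)) (c (c (c (p (nat_lit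
  0xa9a6d0)) e) e) e))) (c (c (c (c (p (nat_lit 0x2bdd0)) (c (m (nat_lit 0x25af58)) e)) (c (c (m (nat_lit
  0x7e588)) e) e)) (c (c (c (m (nat_lit 0x4101c0)) e) e) e)) e))) (c (c (c (c (c (m (nat_lit 0x2dafaf4)) (c
  (m (nat_lit 0x4b130e)) (c (m (nat_lit 0xde6b28)) e))) (c (c (p (nat_lit 0x4839ff6)) (c (p (nat_lit
  0xc6c78)) e)) (c (c (p (nat_lit 0x9ea6f0)) e) e))) (c (c (c (p (nat_lit 0x10a5fec)) (c (p (nat_lit
  0xd07cb8)) e)) (c (c (p (nat_lit 0x38f670)) e) e)) (c (c (c (p (nat_lit 0x15d770)) e) e) e))) (c (c (c (c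
  (m (nat_lit 0x4668)) (c (p (nat_lit 0xc15b10)) e)) (c (c (m (nat_lit 0x7327f8)) e) e)) (c (c (c (p (nat_lit
  0x194a78)) e) e) e)) e)) (c (c (c (c (c (p (nat_lit 0x7326ff0)) (c (m (nat_lit 0x23f3ad8)) e)) (c (c (m
  (nat_lit 0x339e970)) e) e)) (c (c (c (m (nat_lit 0x1c00500)) e) e) e)) e) e))) (c (c (c (c (c (c (m
  (nat_lit 0x25dc5c8)) (c (m (nat_lit 0x2033e02)) (c (p (nat_lit 0x3b5608)) e))) (c (c (p (nat_lit
  0x2285aa2)) (c (m (nat_lit 0x2ea790)) e)) (c (c (m (nat_lit 0x319158)) e) e))) (c (c (c (m (nat_lit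
  0x466986)) (c (p (nat_lit 0xa20a98)) e)) (c (c (m (nat_lit 0x27ea90)) e) e)) (c (c (c (p (nat_lit
  0x4aa690)) e) e) e))) (c (c (c (c (p (nat_lit 0x5ad0b0)) (c (p (nat_lit 0x50b590)) e)) (c (c (m (nat_lit
  0x2b8ea0)) e) e)) (c (c (c (m (nat_lit 0x23ce80)) e) e) e)) e)) (c (c (c (c (c (p (nat_lit 0x13c2a20)) (c
  (p (nat_lit 0xedda40)) e)) (c (c (m (nat_lit 0x7b5e68)) e) e)) (c (c (c (p (nat_lit 0x3f7830)) e) e) e)) e)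
  e)) (c (c (c (c (c (c (p (nat_lit 0x62ccb8)) (c (m (nat_lit 0x113910)) e)) (c (c (m (nat_lit 0x1651e0)) e)
  e)) (c (c (c (m (nat_lit 0x5e7778)) e) e) e)) e) e) e))) (c (c (c (c (c (c (c (m (nat_lit 0x17796894)) (c
  (p (nat_lit 0x385fdac)) (c (p (nat_lit 0x92b4a0)) e))) (c (c (m (nat_lit 0x288dc38)) (c (p (nat_lit
  0x2c7600)) e)) (c (c (m (nat_lit 0x17b0200)) e) e))) (c (c (c (p (nat_lit 0x442edd4)) (c (p (nat_lit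
  0x26670)) e)) (c (c (p (nat_lit 0x2c75d0)) e) e)) (c (c (c (p (nat_lit 0x92b4a0)) e) e) e))) (c (c (c (c (m
  (nat_lit 0x90c79fe)) (c (m (nat_lit 0x5d92a0)) e)) (c (c (m (nat_lit 0x1409a0c)) e) e)) (c (c (c (p
  (nat_lit 0x2228c40)) e) e) e)) (c (c (c (c (p (nat_lit 0x966f00)) e) e) e) e))) (c (c (c (c (c (m (nat_lit
  0x36f875a)) (c (p (nat_lit 0xb47d46)) e)) (c (c (m (nat_lit 0xbf74e)) e) e)) (c (c (c (p (nat_lit 0x9165c))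
  e) e) e)) (c (c (c (c (m (nat_lit 0x882d20)) e) e) e) e)) (c (c (c (c (c (m (nat_lit 0xb0cf70)) e) e) e) e)
  e))) (c (c (c (c (c (c (m (nat_lit 0x8ef60e)) (c (p (nat_lit 0x4d468a)) e)) (c (c (p (nat_lit 0x4cdc2e)) e)
  e)) (c (c (c (p (nat_lit 0x46531e)) e) e) e)) (c (c (c (c (m (nat_lit 0x157d340)) e) e) e) e)) (c (c (c (c
  (c (m (nat_lit 0x882d20)) e) e) e) e) e)) (c (c (c (c (c (c (p (nat_lit 0x966f00)) e) e) e) e) e) e))) (c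
  (c (c (c (c (c (c (p (nat_lit 0xb9c8548)) (c (m (nat_lit 0x24b1924)) e)) (c (c (p (nat_lit 0x25b9132)) e)
  e)) (c (c (c (m (nat_lit 0x2b24d34)) e) e) e)) (c (c (c (c (p (nat_lit 0x215d9cc)) e) e) e) e)) (c (c (c (c
  (c (m (nat_lit 0x740892)) e) e) e) e) e)) (c (c (c (c (c (c (m (nat_lit 0xb5b0ae)) e) e) e) e) e) e)) (c (c
  (c (c (c (c (c (p (nat_lit 0x193bd7a)) e) e) e) e) e) e) e)))) (c (c (c (c (c (c (c (c (m (nat_lit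
  0x826a0a6)) (c (p (nat_lit 0x4108da6)) (c (m (nat_lit 0x5b8f30)) e))) (c (c (m (nat_lit 0x145d3fa)) (c (p
  (nat_lit 0x84c810)) e)) (c (c (m (nat_lit 0x148e0)) e) e))) (c (c (c (p (nat_lit 0x2e28b20)) (c (m (nat_lit
  0x997ec0)) e)) (c (c (p (nat_lit 0x38c280)) e) e)) (c (c (c (m (nat_lit 0x559080)) e) e) e))) (c (c (c (c
  (m (nat_lit 0x191d7d4)) (c (m (nat_lit 0x898050)) e)) (c (c (p (nat_lit 0x105c300)) e) e)) (c (c (c (m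
  (nat_lit 0x27a740)) e) e) e)) (c (c (c (c (m (nat_lit 0x3eea40)) e) e) e) e))) (c (c (c (c (c (p (nat_lit
  0x1621620)) (c (m (nat_lit 0xd413f0)) e)) (c (c (m (nat_lit 0x2bf7b8)) e) e)) (c (c (c (m (nat_lit
  0x134bff8)) e) e) e)) (c (c (c (c (m (nat_lit 0x1f0290)) e) e) e) e)) (c (c (c (c (c (p (nat_lit
  0x12b4bd0)) e) e) e) e) e))) (c (c (c (c (c (c (m (nat_lit 0x1ae21d4)) (c (p (nat_lit 0x7cf680)) e)) (c (c
  (p (nat_lit 0x6d2150)) e) e)) (c (c (c (p (nat_lit 0xc17118)) e) e) e)) (c (c (c (c (p (nat_lit 0x38cb20))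
  e) e) e) e)) (c (c (c (c (c (p (nat_lit 0x28c998)) e) e) e) e) e)) (c (c (c (c (c (c (p (nat_lit 0x36f450))
  e) e) e) e) e) e))) (c (c (c (c (c (c (c (p (nat_lit 0x1575d80)) (c (p (nat_lit 0x8c902e)) e)) (c (c (m
  (nat_lit 0xc55086)) e) e)) (c (c (c (m (nat_lit 0x1ac4cc0)) e) e) e)) (c (c (c (c (p (nat_lit 0x2af7dd0))
  e) e) e) e)) (c (c (c (c (c (p (nat_lit 0x8874e4)) e) e) e) e) e)) (c (c (c (c (c (c (p (nat_lit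
  0x125db40)) e) e) e) e) e) e)) (c (c (c (c (c (c (c (p (nat_lit 0x3186d4a)) e) e) e) e) e) e) e))) (c (c (c
  (c (c (c (c (c (p (nat_lit 0x1286844)) (c (m (nat_lit 0x214998)) e)) (c (c (p (nat_lit 0xb3dc00)) e) e)) (c
  (c (c (p (nat_lit 0xd04988)) e) e) e)) (c (c (c (c (m (nat_lit 0x757e0)) e) e) e) e)) (c (c (c (c (c (p
  (nat_lit 0x40ea50)) e) e) e) e) e)) (c (c (c (c (c (c (m (nat_lit 0x205f68)) e) e) e) e) e) e)) (c (c (c (c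
  (c (c (c (m (nat_lit 0xea522c)) e) e) e) e) e) e) e)) (c (c (c (c (c (c (c (c (m (nat_lit 0x184f9c8)) e) e)
  e) e) e) e) e) e)))) (c (c (c (c (c (c (c (c (c (m (nat_lit 0x6eaa686)) (c (p (nat_lit 0x1615962)) (c (m
  (nat_lit 0x7a6b80)) e))) (c (c (m (nat_lit 0x10c6938)) (c (p (nat_lit 0x9ffde0)) e)) (c (c (p (nat_lit
  0x802a88)) e) e))) (c (c (c (p (nat_lit 0x197efbc)) (c (p (nat_lit 0xe0898)) e)) (c (c (m (nat_lit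
  0x12ae60)) e) e)) (c (c (c (p (nat_lit 0x2f1768)) e) e) e))) (c (c (c (c (m (nat_lit 0x7213aa6)) (c (m
  (nat_lit 0xd8e160)) e)) (c (c (p (nat_lit 0xb0b8f0)) e) e)) (c (c (c (p (nat_lit 0x223fe0)) e) e) e)) (c (c
  (c (c (m (nat_lit 0x13e960)) e) e) e) e))) (c (c (c (c (c (m (nat_lit 0x2ec14e4)) (c (p (nat_lit
  0x206f2b0)) e)) (c (c (p (nat_lit 0x5dae60)) e) e)) (c (c (c (m (nat_lit 0x58bf48)) e) e) e)) (c (c (c (c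
  (p (nat_lit 0x7c6680)) e) e) e) e)) (c (c (c (c (c (m (nat_lit 0x8bc428)) e) e) e) e) e))) (c (c (c (c (c
  (c (p (nat_lit 0x3bb5ebe)) (c (p (nat_lit 0x12f2f88)) e)) (c (c (m (nat_lit 0x280f50)) e) e)) (c (c (c (m
  (nat_lit 0xa17228)) e) e) e)) (c (c (c (c (p (nat_lit 0x4e5910)) e) e) e) e)) (c (c (c (c (c (m (nat_lit
  0xc6e748)) e) e) e) e) e)) (c (c (c (c (c (c (m (nat_lit 0x100c20)) e) e) e) e) e) e))) (c (c (c (c (c (c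
  (c (p (nat_lit 0x16a38cec)) (c (m (nat_lit 0x21e15ca)) e)) (c (c (p (nat_lit 0xb9220)) e) e)) (c (c (c (m
  (nat_lit 0x23738ac)) e) e) e)) (c (c (c (c (p (nat_lit 0x456688e)) e) e) e) e)) (c (c (c (c (c (p (nat_lit
  0x48a73c4)) e) e) e) e) e)) (c (c (c (c (c (c (m (nat_lit 0xcd2c96)) e) e) e) e) e) e)) (c (c (c (c (c (c
  (c (m (nat_lit 0xc679f32)) e) e) e) e) e) e) e))) (c (c (c (c (c (c (c (c (p (nat_lit 0x1501d04)) (c (m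
  (nat_lit 0x1fbbef8)) e)) (c (c (m (nat_lit 0xcb91f0)) e) e)) (c (c (c (m (nat_lit 0xa07b8)) e) e) e)) (c (c
  (c (c (m (nat_lit 0x41c4f0)) e) e) e) e)) (c (c (c (c (c (m (nat_lit 0x15b9d30)) e) e) e) e) e)) (c (c (c
  (c (c (c (m (nat_lit 0x139bc60)) e) e) e) e) e) e)) (c (c (c (c (c (c (c (m (nat_lit 0xb67660)) e) e) e) e)
  e) e) e)) (c (c (c (c (c (c (c (c (p (nat_lit 0x144c0)) e) e) e) e) e) e) e) e))) (c (c (c (c (c (c (c (c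
  (c (p (nat_lit 0x10a8368)) (c (p (nat_lit 0xb97ba0)) e)) (c (c (m (nat_lit 0x1f0488)) e) e)) (c (c (c (p
  (nat_lit 0x8e6a70)) e) e) e)) (c (c (c (c (p (nat_lit 0x728910)) e) e) e) e)) (c (c (c (c (c (m (nat_lit
  0x10e88b0)) e) e) e) e) e)) (c (c (c (c (c (c (m (nat_lit 0xeae1a8)) e) e) e) e) e) e)) (c (c (c (c (c (c
  (c (m (nat_lit 0x3b39fb8)) e) e) e) e) e) e) e)) (c (c (c (c (c (c (c (c (p (nat_lit 0x29dfb88)) e) e) e)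
  e) e) e) e) e)) (c (c (c (c (c (c (c (c (c (p (nat_lit 0x3e5c68)) e) e) e) e) e) e) e) e) e)))))

noncomputable def gt_0_2 : Tr := (c gt_0_2_2 (c gt_0_2_3 (c gt_0_2_4 (c gt_0_2_5 (c gt_0_2_6 (c gt_0_2_7 e))))))

noncomputable def gt_0_3_3 : Tr :=
  (c (c (c (c (c (c (c (c (c (p (nat_lit 0x5f9a78)) (c (m (nat_lit 0x331a784)) (c (p (nat_lit 0x177ee08))
  e))) (c (c (m (nat_lit 0x331a8d4)) (c (m (nat_lit 0xe9fc88)) e)) (c (c (p (nat_lit 0x177efa0)) e) e))) (c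
  (c (c (p (nat_lit 0x1aae0fa)) (c (p (nat_lit 0x663a26)) e)) (c (c (p (nat_lit 0x6639fc)) e) e)) (c (c (c (m
  (nat_lit 0x1eb1c3c)) e) e) e))) (c (c (c (c (m (nat_lit 0x331a784)) (c (p (nat_lit 0x1352c652)) (c (m
  (nat_lit 0x708e280)) e))) (c (c (m (nat_lit 0x81a6d58)) (c (m (nat_lit 0x153ebe0)) e)) (c (c (p (nat_lit
  0x2049600)) e) e))) (c (c (c (m (nat_lit 0x1fed416)) (c (m (nat_lit 0x1d0ae28)) e)) (c (c (p (nat_lit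
  0x1845870)) e) e)) (c (c (c (m (nat_lit 0xd1bb0)) e) e) e))) (c (c (c (c (p (nat_lit 0x177ee08)) (c (m
  (nat_lit 0x708e280)) (c (p (nat_lit 0x8328de0)) e))) (c (c (p (nat_lit 0x20496c0)) (c (m (nat_lit
  0xc1c8c0)) e)) (c (c (m (nat_lit 0x2552f40)) e) e))) (c (c (c (m (nat_lit 0xc04938)) (c (p (nat_lit
  0x167a348)) e)) (c (c (p (nat_lit 0x923b8)) e) e)) (c (c (c (p (nat_lit 0xef7db0)) e) e) e))) e))) (c (c (c
  (c (c (m (nat_lit 0x331a8d4)) (c (m (nat_lit 0x81a6d58)) (c (p (nat_lit 0x20496c0)) e))) (c (c (p (nat_lit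
  0x1352c592)) (c (m (nat_lit 0x153eb80)) e)) (c (c (m (nat_lit 0x708e340)) e) e))) (c (c (c (m (nat_lit
  0x1fed4be)) (c (p (nat_lit 0x18458b8)) e)) (c (c (m (nat_lit 0x1d0ade0)) e) e)) (c (c (c (m (nat_lit
  0xd1b08)) e) e) e))) (c (c (c (c (m (nat_lit 0xe9fc88)) (c (m (nat_lit 0x153ebe0)) (c (m (nat_lit
  0xc1c8c0)) e))) (c (c (m (nat_lit 0x153eb80)) (c (p (nat_lit 0x4642f80)) e)) (c (c (m (nat_lit 0xc1c920))
  e) e))) (c (c (c (m (nat_lit 0x62b98)) (c (m (nat_lit 0x373308)) e)) (c (c (m (nat_lit 0x3732f0)) e) e)) (c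
  (c (c (p (nat_lit 0x3f4110)) e) e) e))) e)) (c (c (c (c (c (p (nat_lit 0x177efa0)) (c (p (nat_lit
  0x2049600)) (c (m (nat_lit 0x2552f40)) e))) (c (c (m (nat_lit 0x708e340)) (c (m (nat_lit 0xc1c920)) e)) (c
  (c (p (nat_lit 0x8328de0)) e) e))) (c (c (c (m (nat_lit 0xc048a8)) (c (p (nat_lit 0x923b8)) e)) (c (c (p
  (nat_lit 0x167a348)) e) e)) (c (c (c (p (nat_lit 0xef7d68)) e) e) e))) e) e))) (c (c (c (c (c (c (p
  (nat_lit 0x1aae0fa)) (c (m (nat_lit 0x1fed416)) (c (m (nat_lit 0xc04938)) e))) (c (c (m (nat_lit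
  0x1fed4be)) (c (m (nat_lit 0x62b98)) e)) (c (c (m (nat_lit 0xc048a8)) e) e))) (c (c (c (p (nat_lit
  0xd116e3a)) (c (m (nat_lit 0x1f11bc4)) e)) (c (c (m (nat_lit 0x1f11bc4)) e) e)) (c (c (c (m (nat_lit
  0x7168ede)) e) e) e))) (c (c (c (c (p (nat_lit 0x663a26)) (c (m (nat_lit 0x1d0ae28)) (c (p (nat_lit
  0x167a348)) e))) (c (c (p (nat_lit 0x18458b8)) (c (m (nat_lit 0x373308)) e)) (c (c (p (nat_lit 0x923b8)) e)
  e))) (c (c (c (m (nat_lit 0x1f11bc4)) (c (p (nat_lit 0x2704536)) e)) (c (c (p (nat_lit 0x4eb070)) e) e)) (c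
  (c (c (p (nat_lit 0x10a36d0)) e) e) e))) e)) (c (c (c (c (c (p (nat_lit 0x6639fc)) (c (p (nat_lit
  0x1845870)) (c (p (nat_lit 0x923b8)) e))) (c (c (m (nat_lit 0x1d0ade0)) (c (m (nat_lit 0x3732f0)) e)) (c (c
  (p (nat_lit 0x167a348)) e) e))) (c (c (c (m (nat_lit 0x1f11bc4)) (c (p (nat_lit 0x4eb070)) e)) (c (c (p
  (nat_lit 0x270452a)) e) e)) (c (c (c (p (nat_lit 0x10a36d6)) e) e) e))) e) e)) (c (c (c (c (c (c (m
  (nat_lit 0x1eb1c3c)) (c (m (nat_lit 0xd1bb0)) (c (p (nat_lit 0xef7db0)) e))) (c (c (m (nat_lit 0xd1b08)) (c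
  (p (nat_lit 0x3f4110)) e)) (c (c (p (nat_lit 0xef7d68)) e) e))) (c (c (c (m (nat_lit 0x7168ede)) (c (p
  (nat_lit 0x10a36d0)) e)) (c (c (p (nat_lit 0x10a36d6)) e) e)) (c (c (c (p (nat_lit 0x5a0587a)) e) e) e)))
  e) e) e))) (c (c (c (c (c (c (c (m (nat_lit 0xbe383a2)) (c (p (nat_lit 0x2c1f018)) (c (p (nat_lit
  0xdfd5f8)) e))) (c (c (p (nat_lit 0x2c1f288)) (c (p (nat_lit 0x3847b60)) e)) (c (c (p (nat_lit 0xdfd580))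
  e) e))) (c (c (c (p (nat_lit 0x99d1b44)) (c (m (nat_lit 0x9c336)) e)) (c (c (m (nat_lit 0x9c318)) e) e)) (c
  (c (c (p (nat_lit 0x3f4964a)) e) e) e))) (c (c (c (c (p (nat_lit 0x2c1f018)) (c (p (nat_lit 0x2a41eb6)) (c
  (m (nat_lit 0xe9f520)) e))) (c (c (p (nat_lit 0x2dc8730)) (c (p (nat_lit 0x99db60)) e)) (c (c (m (nat_lit
  0x11cffa0)) e) e))) (c (c (c (p (nat_lit 0x67c6d4)) (c (p (nat_lit 0x7d088)) e)) (c (c (m (nat_lit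
  0x9defc0)) e) e)) (c (c (c (m (nat_lit 0xd02d38)) e) e) e))) (c (c (c (c (p (nat_lit 0xdfd5f8)) (c (m
  (nat_lit 0xe9f520)) e)) (c (c (m (nat_lit 0x11cffa0)) e) e)) (c (c (c (m (nat_lit 0xbe40a0)) e) e) e)) e)))
  (c (c (c (c (c (p (nat_lit 0x2c1f288)) (c (p (nat_lit 0x2dc8730)) (c (m (nat_lit 0x11cffa0)) e))) (c (c (p
  (nat_lit 0x2a41d3c)) (c (p (nat_lit 0x99db60)) e)) (c (c (m (nat_lit 0xe9f4c0)) e) e))) (c (c (c (p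
  (nat_lit 0x67c5cc)) (c (m (nat_lit 0x9defc0)) e)) (c (c (p (nat_lit 0x7d088)) e) e)) (c (c (c (m (nat_lit
  0xd02d38)) e) e) e))) (c (c (c (c (p (nat_lit 0x3847b60)) (c (p (nat_lit 0x99db60)) e)) (c (c (p (nat_lit
  0x99db60)) e) e)) (c (c (c (m (nat_lit 0x26fed70)) e) e) e)) e)) (c (c (c (c (c (p (nat_lit 0xdfd580)) (c
  (m (nat_lit 0x11cffa0)) e)) (c (c (m (nat_lit 0xe9f4c0)) e) e)) (c (c (c (m (nat_lit 0xbe4040)) e) e) e))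
  e) e))) (c (c (c (c (c (c (p (nat_lit 0x99d1b44)) (c (p (nat_lit 0x67c6d4)) (c (m (nat_lit 0xbe40a0)) e)))
  (c (c (p (nat_lit 0x67c5cc)) (c (m (nat_lit 0x26fed70)) e)) (c (c (m (nat_lit 0xbe4040)) e) e))) (c (c (c
  (p (nat_lit 0x1a6d2148)) (c (m (nat_lit 0x13e3b64)) e)) (c (c (m (nat_lit 0x13e3b6a)) e) e)) (c (c (c (m
  (nat_lit 0x416bbf0)) e) e) e))) (c (c (c (c (m (nat_lit 0x9c336)) (c (p (nat_lit 0x7d088)) e)) (c (c (m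
  (nat_lit 0x9defc0)) e) e)) (c (c (c (m (nat_lit 0x13e3b64)) e) e) e)) e)) (c (c (c (c (c (m (nat_lit
  0x9c318)) (c (m (nat_lit 0x9defc0)) e)) (c (c (p (nat_lit 0x7d088)) e) e)) (c (c (c (m (nat_lit 0x13e3b6a))
  e) e) e)) e) e)) (c (c (c (c (c (c (p (nat_lit 0x3f4964a)) (c (m (nat_lit 0xd02d38)) e)) (c (c (m (nat_lit
  0xd02d38)) e) e)) (c (c (c (m (nat_lit 0x416bbf0)) e) e) e)) e) e) e))) (c (c (c (c (c (c (c (p (nat_lit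
  0x18b4ff36)) (c (m (nat_lit 0x5fa7440)) (c (m (nat_lit 0x9510c0)) e))) (c (c (m (nat_lit 0x5fa74a0)) (c (m
  (nat_lit 0x1ca1e40)) e)) (c (c (m (nat_lit 0x9510d8)) e) e))) (c (c (c (m (nat_lit 0x1367e770)) (c (m
  (nat_lit 0x2f42e2)) e)) (c (c (m (nat_lit 0x2f42ee)) e) e)) (c (c (c (m (nat_lit 0x119d6cc)) e) e) e))) (c
  (c (c (c (m (nat_lit 0x5fa7440)) (c (p (nat_lit 0x7fe138)) e)) (c (c (p (nat_lit 0x246108)) e) e)) (c (c (c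
  (p (nat_lit 0x28c0002)) e) e) e)) (c (c (c (c (m (nat_lit 0x9510c0)) e) e) e) e))) (c (c (c (c (c (m
  (nat_lit 0x5fa74a0)) (c (p (nat_lit 0x246108)) e)) (c (c (p (nat_lit 0x7fe0d2)) e) e)) (c (c (c (p (nat_lit
  0x28bffea)) e) e) e)) (c (c (c (c (m (nat_lit 0x1ca1e40)) e) e) e) e)) (c (c (c (c (c (m (nat_lit
  0x9510d8)) e) e) e) e) e))) (c (c (c (c (c (c (m (nat_lit 0x1367e770)) (c (p (nat_lit 0x28c0002)) e)) (c (c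
  (p (nat_lit 0x28bffea)) e) e)) (c (c (c (m (nat_lit 0xb29ce66)) e) e) e)) (c (c (c (c (m (nat_lit
  0x2f42e2)) e) e) e) e)) (c (c (c (c (c (m (nat_lit 0x2f42ee)) e) e) e) e) e)) (c (c (c (c (c (c (m (nat_lit
  0x119d6cc)) e) e) e) e) e) e))) (c (c (c (c (c (c (c (p (nat_lit 0x2c24b9e)) (c (p (nat_lit 0xee1904)) e))
  (c (c (p (nat_lit 0xee1904)) e) e)) (c (c (c (p (nat_lit 0x6252ac2)) e) e) e)) (c (c (c (c (p (nat_lit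
  0xee1904)) e) e) e) e)) (c (c (c (c (c (p (nat_lit 0xee1904)) e) e) e) e) e)) (c (c (c (c (c (c (p (nat_lit
  0x6252ac2)) e) e) e) e) e) e)) (c (c (c (c (c (c (c (m (nat_lit 0xbfd9af8)) e) e) e) e) e) e) e))))) (c (c
  (c (c (c (c (c (c (p (nat_lit 0x629f4b4)) (c (m (nat_lit 0x19d2b90)) (c (m (nat_lit 0x327a8)) e))) (c (c (p
  (nat_lit 0x2369280)) (c (m (nat_lit 0xa0ce48)) e)) (c (c (m (nat_lit 0x1bfe778)) e) e))) (c (c (c (m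
  (nat_lit 0x1a6ff22)) (c (m (nat_lit 0x3d4fd0)) e)) (c (c (m (nat_lit 0x9214e0)) e) e)) (c (c (c (p (nat_lit
  0xdb1848)) e) e) e))) (c (c (c (c (m (nat_lit 0x19d2b90)) (c (p (nat_lit 0x2aa91be)) (c (m (nat_lit
  0x7b23e8)) e))) (c (c (m (nat_lit 0x2de0a60)) (c (p (nat_lit 0x57a818)) e)) (c (c (p (nat_lit 0x438a8)) e)
  e))) (c (c (c (p (nat_lit 0x125fb3e)) (c (m (nat_lit 0x28c4b8)) e)) (c (c (m (nat_lit 0x1c7e08)) e) e)) (c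
  (c (c (p (nat_lit 0x4241a6)) e) e) e))) (c (c (c (c (m (nat_lit 0x327a8)) (c (m (nat_lit 0x7b23e8)) e)) (c
  (c (m (nat_lit 0x213d98)) e) e)) (c (c (c (m (nat_lit 0x318990)) e) e) e)) e))) (c (c (c (c (c (p (nat_lit
  0x2369280)) (c (m (nat_lit 0x2de0a60)) (c (m (nat_lit 0x213d98)) e))) (c (c (p (nat_lit 0x757087e)) (c (m
  (nat_lit 0x41a078)) e)) (c (c (m (nat_lit 0x10b9ba0)) e) e))) (c (c (c (p (nat_lit 0x1b4df46)) (c (m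
  (nat_lit 0xda286)) e)) (c (c (m (nat_lit 0x11aa6b0)) e) e)) (c (c (c (m (nat_lit 0x760632)) e) e) e))) (c
  (c (c (c (m (nat_lit 0xa0ce48)) (c (p (nat_lit 0x57a818)) e)) (c (c (m (nat_lit 0x41a078)) e) e)) (c (c (c
  (p (nat_lit 0x9f9360)) e) e) e)) e)) (c (c (c (c (c (m (nat_lit 0x1bfe778)) (c (p (nat_lit 0x438a8)) e)) (c
  (c (m (nat_lit 0x10b9ba0)) e) e)) (c (c (c (m (nat_lit 0x1354c8)) e) e) e)) e) e))) (c (c (c (c (c (c (m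
  (nat_lit 0x1a6ff22)) (c (p (nat_lit 0x125fb3e)) (c (m (nat_lit 0x318990)) e))) (c (c (p (nat_lit
  0x1b4df46)) (c (p (nat_lit 0x9f9360)) e)) (c (c (m (nat_lit 0x1354c8)) e) e))) (c (c (c (m (nat_lit
  0x2308fe6)) (c (p (nat_lit 0x111f54)) e)) (c (c (p (nat_lit 0x10695c)) e) e)) (c (c (c (p (nat_lit
  0xc1b2d6)) e) e) e))) (c (c (c (c (m (nat_lit 0x3d4fd0)) (c (m (nat_lit 0x28c4b8)) e)) (c (c (m (nat_lit
  0xda286)) e) e)) (c (c (c (p (nat_lit 0x111f54)) e) e) e)) e)) (c (c (c (c (c (m (nat_lit 0x9214e0)) (c (m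
  (nat_lit 0x1c7e08)) e)) (c (c (m (nat_lit 0x11aa6b0)) e) e)) (c (c (c (p (nat_lit 0x10695c)) e) e) e)) e)
  e)) (c (c (c (c (c (c (p (nat_lit 0xdb1848)) (c (p (nat_lit 0x4241a6)) e)) (c (c (m (nat_lit 0x760632)) e)
  e)) (c (c (c (p (nat_lit 0xc1b2d6)) e) e) e)) e) e) e))) (c (c (c (c (c (c (c (m (nat_lit 0x2871810)) (c (m
  (nat_lit 0x572190)) (c (p (nat_lit 0xd08dc8)) e))) (c (c (m (nat_lit 0x14b4820)) (c (p (nat_lit 0xef6508))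
  e)) (c (c (p (nat_lit 0xc8e530)) e) e))) (c (c (c (m (nat_lit 0x495af68)) (c (p (nat_lit 0x53fb32)) e)) (c
  (c (p (nat_lit 0x23dffc)) e) e)) (c (c (c (p (nat_lit 0xbee462)) e) e) e))) (c (c (c (c (m (nat_lit
  0x572190)) (c (m (nat_lit 0x24a6a64)) e)) (c (c (m (nat_lit 0xd6db02)) e) e)) (c (c (c (m (nat_lit
  0x1b309a8)) e) e) e)) (c (c (c (c (p (nat_lit 0xd08dc8)) e) e) e) e))) (c (c (c (c (c (m (nat_lit
  0x14b4820)) (c (m (nat_lit 0xd6db02)) e)) (c (c (m (nat_lit 0x2dd5234)) e) e)) (c (c (c (m (nat_lit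
  0x6b2410)) e) e) e)) (c (c (c (c (p (nat_lit 0xef6508)) e) e) e) e)) (c (c (c (c (c (p (nat_lit 0xc8e530))
  e) e) e) e) e))) (c (c (c (c (c (c (m (nat_lit 0x495af68)) (c (m (nat_lit 0x1b309a8)) e)) (c (c (m (nat_lit
  0x6b2410)) e) e)) (c (c (c (m (nat_lit 0x1bfbad8)) e) e) e)) (c (c (c (c (p (nat_lit 0x53fb32)) e) e) e)
  e)) (c (c (c (c (c (p (nat_lit 0x23dffc)) e) e) e) e) e)) (c (c (c (c (c (c (p (nat_lit 0xbee462)) e) e) e)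
  e) e) e))) (c (c (c (c (c (c (c (m (nat_lit 0x6e7d488)) (c (p (nat_lit 0x140a6f0)) e)) (c (c (p (nat_lit
  0x11dc102)) e) e)) (c (c (c (p (nat_lit 0x24de330)) e) e) e)) (c (c (c (c (p (nat_lit 0x140a6f0)) e) e) e)
  e)) (c (c (c (c (c (p (nat_lit 0x11dc102)) e) e) e) e) e)) (c (c (c (c (c (c (p (nat_lit 0x24de330)) e) e)
  e) e) e) e)) (c (c (c (c (c (c (c (p (nat_lit 0x432beb6)) e) e) e) e) e) e) e)))) (c (c (c (c (c (c (c (c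
  (p (nat_lit 0xb78d06)) (c (m (nat_lit 0x9c6fb4)) (c (m (nat_lit 0x3c6cd8)) e))) (c (c (m (nat_lit
  0x23da7fa)) (c (m (nat_lit 0x5ba388)) e)) (c (c (p (nat_lit 0x78c60)) e) e))) (c (c (c (m (nat_lit
  0xb23e36)) (c (m (nat_lit 0x208a16)) e)) (c (c (p (nat_lit 0x5a8cbe)) e) e)) (c (c (c (m (nat_lit
  0x673ca4)) e) e) e))) (c (c (c (c (m (nat_lit 0x9c6fb4)) (c (p (nat_lit 0x27c6936)) e)) (c (c (p (nat_lit
  0xb45694)) e) e)) (c (c (c (p (nat_lit 0xa0563c)) e) e) e)) (c (c (c (c (m (nat_lit 0x3c6cd8)) e) e) e)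
  e))) (c (c (c (c (c (m (nat_lit 0x23da7fa)) (c (p (nat_lit 0xb45694)) e)) (c (c (p (nat_lit 0x390e3be)) e)
  e)) (c (c (c (p (nat_lit 0x4635fc)) e) e) e)) (c (c (c (c (m (nat_lit 0x5ba388)) e) e) e) e)) (c (c (c (c
  (c (p (nat_lit 0x78c60)) e) e) e) e) e))) (c (c (c (c (c (c (m (nat_lit 0xb23e36)) (c (p (nat_lit
  0xa0563c)) e)) (c (c (p (nat_lit 0x4635fc)) e) e)) (c (c (c (p (nat_lit 0x20c10c0)) e) e) e)) (c (c (c (c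
  (m (nat_lit 0x208a16)) e) e) e) e)) (c (c (c (c (c (p (nat_lit 0x5a8cbe)) e) e) e) e) e)) (c (c (c (c (c (c
  (m (nat_lit 0x673ca4)) e) e) e) e) e) e))) (c (c (c (c (c (c (c (p (nat_lit 0x41484ea)) (c (m (nat_lit
  0xa20222)) e)) (c (c (m (nat_lit 0x4f73f4)) e) e)) (c (c (c (p (nat_lit 0xd88286)) e) e) e)) (c (c (c (c (m
  (nat_lit 0xa20222)) e) e) e) e)) (c (c (c (c (c (m (nat_lit 0x4f73f4)) e) e) e) e) e)) (c (c (c (c (c (c (p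
  (nat_lit 0xd88286)) e) e) e) e) e) e)) (c (c (c (c (c (c (c (p (nat_lit 0x145d8ec)) e) e) e) e) e) e) e)))
  (c (c (c (c (c (c (c (c (p (nat_lit 0x3699a2)) (c (p (nat_lit 0x169722)) e)) (c (c (p (nat_lit 0x115086))
  e) e)) (c (c (c (m (nat_lit 0xeddce)) e) e) e)) (c (c (c (c (p (nat_lit 0x169722)) e) e) e) e)) (c (c (c (c
  (c (p (nat_lit 0x115086)) e) e) e) e) e)) (c (c (c (c (c (c (m (nat_lit 0xeddce)) e) e) e) e) e) e)) (c (c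
  (c (c (c (c (c (m (nat_lit 0x213d5ba)) e) e) e) e) e) e) e)) (c (c (c (c (c (c (c (c (p (nat_lit
  0x1a56cc8)) e) e) e) e) e) e) e) e))))) (c (c (c (c (c (c (c (c (c (p (nat_lit 0x629f4a8)) (c (p (nat_lit
  0x2369292)) (c (m (nat_lit 0x1bfe790)) e))) (c (c (m (nat_lit 0x19d2c1a)) (c (m (nat_lit 0xa0ce78)) e)) (c
  (c (m (nat_lit 0x327d8)) e) e))) (c (c (c (m (nat_lit 0x1a6fe98)) (c (m (nat_lit 0x9214f8)) e)) (c (c (m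
  (nat_lit 0x3d4fb8)) e) e)) (c (c (c (p (nat_lit 0xdb182a)) e) e) e))) (c (c (c (c (p (nat_lit 0x2369292))
  (c (p (nat_lit 0x757084e)) (c (m (nat_lit 0x10b9bb8)) e))) (c (c (m (nat_lit 0x2de0a90)) (c (m (nat_lit
  0x41a060)) e)) (c (c (m (nat_lit 0x213d98)) e) e))) (c (c (c (p (nat_lit 0x1b4df2e)) (c (m (nat_lit
  0x11aa6aa)) e)) (c (c (m (nat_lit 0xda2aa)) e) e)) (c (c (c (m (nat_lit 0x76063e)) e) e) e))) (c (c (c (c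
  (m (nat_lit 0x1bfe790)) (c (m (nat_lit 0x10b9bb8)) e)) (c (c (p (nat_lit 0x438f0)) e) e)) (c (c (c (m
  (nat_lit 0x1354b0)) e) e) e)) e))) (c (c (c (c (c (m (nat_lit 0x19d2c1a)) (c (m (nat_lit 0x2de0a90)) (c (p
  (nat_lit 0x438f0)) e))) (c (c (p (nat_lit 0x2aa915e)) (c (p (nat_lit 0x57a818)) e)) (c (c (m (nat_lit
  0x7b23b8)) e) e))) (c (c (c (p (nat_lit 0x125fbbc)) (c (m (nat_lit 0x1c7df6)) e)) (c (c (m (nat_lit
  0x28c4b8)) e) e)) (c (c (c (p (nat_lit 0x4241b2)) e) e) e))) (c (c (c (c (m (nat_lit 0xa0ce78)) (c (m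
  (nat_lit 0x41a060)) e)) (c (c (p (nat_lit 0x57a818)) e) e)) (c (c (c (p (nat_lit 0x9f9330)) e) e) e)) e))
  (c (c (c (c (c (m (nat_lit 0x327d8)) (c (m (nat_lit 0x213d98)) e)) (c (c (m (nat_lit 0x7b23b8)) e) e)) (c
  (c (c (m (nat_lit 0x3189a8)) e) e) e)) e) e))) (c (c (c (c (c (c (m (nat_lit 0x1a6fe98)) (c (p (nat_lit
  0x1b4df2e)) (c (m (nat_lit 0x1354b0)) e))) (c (c (p (nat_lit 0x125fbbc)) (c (p (nat_lit 0x9f9330)) e)) (c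
  (c (m (nat_lit 0x3189a8)) e) e))) (c (c (c (m (nat_lit 0x2308fda)) (c (p (nat_lit 0x106962)) e)) (c (c (p
  (nat_lit 0x111f4e)) e) e)) (c (c (c (p (nat_lit 0xc1b2d0)) e) e) e))) (c (c (c (c (m (nat_lit 0x9214f8)) (c
  (m (nat_lit 0x11aa6aa)) e)) (c (c (m (nat_lit 0x1c7df6)) e) e)) (c (c (c (p (nat_lit 0x106962)) e) e) e))
  e)) (c (c (c (c (c (m (nat_lit 0x3d4fb8)) (c (m (nat_lit 0xda2aa)) e)) (c (c (m (nat_lit 0x28c4b8)) e) e))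
  (c (c (c (p (nat_lit 0x111f4e)) e) e) e)) e) e)) (c (c (c (c (c (c (p (nat_lit 0xdb182a)) (c (m (nat_lit
  0x76063e)) e)) (c (c (p (nat_lit 0x4241b2)) e) e)) (c (c (c (p (nat_lit 0xc1b2d0)) e) e) e)) e) e) e))) (c
  (c (c (c (c (c (c (m (nat_lit 0x28df904)) (c (m (nat_lit 0x14fa234)) (c (p (nat_lit 0xc8e518)) e))) (c (c
  (m (nat_lit 0x494178)) (c (p (nat_lit 0xef6508)) e)) (c (c (p (nat_lit 0xd08d80)) e) e))) (c (c (c (m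
  (nat_lit 0x4a703b4)) (c (p (nat_lit 0x23dfea)) e)) (c (c (p (nat_lit 0x53fb20)) e) e)) (c (c (c (p (nat_lit
  0xbee456)) e) e) e))) (c (c (c (c (m (nat_lit 0x14fa234)) (c (m (nat_lit 0x2eccc0e)) e)) (c (c (m (nat_lit
  0xbeac70)) e) e)) (c (c (c (m (nat_lit 0x8bfd4c)) e) e) e)) (c (c (c (c (p (nat_lit 0xc8e518)) e) e) e)
  e))) (c (c (c (c (c (m (nat_lit 0x494178)) (c (m (nat_lit 0xbeac70)) e)) (c (c (m (nat_lit 0x29229de)) e)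
  e)) (c (c (c (m (nat_lit 0x159c282)) e) e) e)) (c (c (c (c (p (nat_lit 0xef6508)) e) e) e) e)) (c (c (c (c
  (c (p (nat_lit 0xd08d80)) e) e) e) e) e))) (c (c (c (c (c (c (m (nat_lit 0x4a703b4)) (c (m (nat_lit
  0x8bfd4c)) e)) (c (c (m (nat_lit 0x159c282)) e) e)) (c (c (c (m (nat_lit 0x23af4c2)) e) e) e)) (c (c (c (c
  (p (nat_lit 0x23dfea)) e) e) e) e)) (c (c (c (c (c (p (nat_lit 0x53fb20)) e) e) e) e) e)) (c (c (c (c (c (c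
  (p (nat_lit 0xbee456)) e) e) e) e) e) e))) (c (c (c (c (c (c (c (m (nat_lit 0x6cd87ec)) (c (p (nat_lit
  0x1292874)) e)) (c (c (p (nat_lit 0x10013dc)) e) e)) (c (c (c (p (nat_lit 0x29cb1be)) e) e) e)) (c (c (c (c
  (p (nat_lit 0x1292874)) e) e) e) e)) (c (c (c (c (c (p (nat_lit 0x10013dc)) e) e) e) e) e)) (c (c (c (c (c
  (c (p (nat_lit 0x29cb1be)) e) e) e) e) e) e)) (c (c (c (c (c (c (c (p (nat_lit 0x3b74b18)) e) e) e) e) e)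
  e) e)))) (c (c (c (c (c (c (c (c (m (nat_lit 0xebb0ffc)) (c (p (nat_lit 0x2c61480)) (c (p (nat_lit
  0xde1e60)) e))) (c (c (p (nat_lit 0x2c61420)) (c (m (nat_lit 0x771f78)) e)) (c (c (p (nat_lit 0xde1e78)) e)
  e))) (c (c (c (p (nat_lit 0x1f32dec)) (c (p (nat_lit 0x33b130)) e)) (c (c (p (nat_lit 0x33b142)) e) e)) (c
  (c (c (m (nat_lit 0xafe498)) e) e) e))) (c (c (c (c (p (nat_lit 0x2c61480)) (c (p (nat_lit 0x539808)) e))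
  (c (c (m (nat_lit 0x6a03e0)) e) e)) (c (c (c (p (nat_lit 0x5fe4be)) e) e) e)) (c (c (c (c (p (nat_lit
  0xde1e60)) e) e) e) e))) (c (c (c (c (c (p (nat_lit 0x2c61420)) (c (m (nat_lit 0x6a03e0)) e)) (c (c (p
  (nat_lit 0x539808)) e) e)) (c (c (c (p (nat_lit 0x5fe4d0)) e) e) e)) (c (c (c (c (m (nat_lit 0x771f78)) e)
  e) e) e)) (c (c (c (c (c (p (nat_lit 0xde1e78)) e) e) e) e) e))) (c (c (c (c (c (c (p (nat_lit 0x1f32dec))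
  (c (p (nat_lit 0x5fe4be)) e)) (c (c (p (nat_lit 0x5fe4d0)) e) e)) (c (c (c (m (nat_lit 0x11cbf8)) e) e) e))
  (c (c (c (c (p (nat_lit 0x33b130)) e) e) e) e)) (c (c (c (c (c (p (nat_lit 0x33b142)) e) e) e) e) e)) (c (c
  (c (c (c (c (m (nat_lit 0xafe498)) e) e) e) e) e) e))) (c (c (c (c (c (c (c (p (nat_lit 0xa875b04)) (c (m
  (nat_lit 0x149be18)) e)) (c (c (m (nat_lit 0x1b47910)) e) e)) (c (c (c (m (nat_lit 0x30b094)) e) e) e)) (c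
  (c (c (c (m (nat_lit 0x149be18)) e) e) e) e)) (c (c (c (c (c (m (nat_lit 0x1b47910)) e) e) e) e) e)) (c (c
  (c (c (c (c (m (nat_lit 0x30b094)) e) e) e) e) e) e)) (c (c (c (c (c (c (c (p (nat_lit 0x12e880c)) e) e) e)
  e) e) e) e))) (c (c (c (c (c (c (c (c (p (nat_lit 0x5798f52)) (c (p (nat_lit 0x519522)) e)) (c (c (m
  (nat_lit 0x18a0e06)) e) e)) (c (c (c (m (nat_lit 0xb7c59a)) e) e) e)) (c (c (c (c (p (nat_lit 0x519522)) e)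
  e) e) e)) (c (c (c (c (c (m (nat_lit 0x18a0e06)) e) e) e) e) e)) (c (c (c (c (c (c (m (nat_lit 0xb7c59a))
  e) e) e) e) e) e)) (c (c (c (c (c (c (c (m (nat_lit 0x5f46fc6)) e) e) e) e) e) e) e)) (c (c (c (c (c (c (c
  (c (m (nat_lit 0x15c7b30)) e) e) e) e) e) e) e) e)))) (c (c (c (c (c (c (c (c (c (p (nat_lit 0xb78dc0)) (c
  (m (nat_lit 0x23da82a)) (c (p (nat_lit 0x78c60)) e))) (c (c (m (nat_lit 0x9c6fe4)) (c (m (nat_lit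
  0x5ba370)) e)) (c (c (m (nat_lit 0x3c6ca8)) e) e))) (c (c (c (m (nat_lit 0xb23e66)) (c (p (nat_lit
  0x5a8cd6)) e)) (c (c (m (nat_lit 0x208a1c)) e) e)) (c (c (c (m (nat_lit 0x673c98)) e) e) e))) (c (c (c (c
  (m (nat_lit 0x23da82a)) (c (p (nat_lit 0x390e3a0)) e)) (c (c (p (nat_lit 0xb45682)) e) e)) (c (c (c (p
  (nat_lit 0x46360e)) e) e) e)) (c (c (c (c (p (nat_lit 0x78c60)) e) e) e) e))) (c (c (c (c (c (m (nat_lit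
  0x9c6fe4)) (c (p (nat_lit 0xb45682)) e)) (c (c (p (nat_lit 0x27c6936)) e) e)) (c (c (c (p (nat_lit
  0xa05636)) e) e) e)) (c (c (c (c (m (nat_lit 0x5ba370)) e) e) e) e)) (c (c (c (c (c (m (nat_lit 0x3c6ca8))
  e) e) e) e) e))) (c (c (c (c (c (c (m (nat_lit 0xb23e66)) (c (p (nat_lit 0x46360e)) e)) (c (c (p (nat_lit
  0xa05636)) e) e)) (c (c (c (p (nat_lit 0x20c10c6)) e) e) e)) (c (c (c (c (p (nat_lit 0x5a8cd6)) e) e) e)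
  e)) (c (c (c (c (c (m (nat_lit 0x208a1c)) e) e) e) e) e)) (c (c (c (c (c (c (m (nat_lit 0x673c98)) e) e) e)
  e) e) e))) (c (c (c (c (c (c (c (p (nat_lit 0x3f978a8)) (c (m (nat_lit 0x679ae2)) e)) (c (c (m (nat_lit
  0x584634)) e) e)) (c (c (c (p (nat_lit 0x7a077e)) e) e) e)) (c (c (c (c (m (nat_lit 0x679ae2)) e) e) e) e))
  (c (c (c (c (c (m (nat_lit 0x584634)) e) e) e) e) e)) (c (c (c (c (c (c (p (nat_lit 0x7a077e)) e) e) e) e)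
  e) e)) (c (c (c (c (c (c (c (p (nat_lit 0x1d7f042)) e) e) e) e) e) e) e))) (c (c (c (c (c (c (c (c (p
  (nat_lit 0x5798f76)) (c (m (nat_lit 0x18a0df4)) e)) (c (c (p (nat_lit 0x51954c)) e) e)) (c (c (c (m
  (nat_lit 0xb7c594)) e) e) e)) (c (c (c (c (m (nat_lit 0x18a0df4)) e) e) e) e)) (c (c (c (c (c (p (nat_lit
  0x51954c)) e) e) e) e) e)) (c (c (c (c (c (c (m (nat_lit 0xb7c594)) e) e) e) e) e) e)) (c (c (c (c (c (c (c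
  (m (nat_lit 0x4d3ac06)) e) e) e) e) e) e) e)) (c (c (c (c (c (c (c (c (p (nat_lit 0x283cd4c)) e) e) e) e)
  e) e) e) e))) (c (c (c (c (c (c (c (c (c (p (nat_lit 0x369966)) (c (p (nat_lit 0x11508c)) e)) (c (c (p
  (nat_lit 0x169722)) e) e)) (c (c (c (m (nat_lit 0xeddbc)) e) e) e)) (c (c (c (c (p (nat_lit 0x11508c)) e)
  e) e) e)) (c (c (c (c (c (p (nat_lit 0x169722)) e) e) e) e) e)) (c (c (c (c (c (c (m (nat_lit 0xeddbc)) e)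
  e) e) e) e) e)) (c (c (c (c (c (c (c (m (nat_lit 0x2673d6e)) e) e) e) e) e) e) e)) (c (c (c (c (c (c (c (c
  (m (nat_lit 0x15c7b6c)) e) e) e) e) e) e) e) e)) (c (c (c (c (c (c (c (c (c (p (nat_lit 0x1a56cda)) e) e)
  e) e) e) e) e) e) e)))))

noncomputable def gt_0_3_4 : Tr :=
  (c (c (c (c (c (c (c (c (c (m (nat_lit 0x5911a34)) (c (p (nat_lit 0x1539f00)) (c (m (nat_lit 0x891cc6))
  e))) (c (c (p (nat_lit 0x1539b46)) (c (m (nat_lit 0x6f48e4)) e)) (c (c (m (nat_lit 0x891c7e)) e) e))) (c (c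
  (c (p (nat_lit 0x598574a)) (c (m (nat_lit 0x2c984a)) e)) (c (c (m (nat_lit 0x2c97f6)) e) e)) (c (c (c (m
  (nat_lit 0x4642d58)) e) e) e))) (c (c (c (c (p (nat_lit 0x5811eb8)) (c (m (nat_lit 0x1d872b0)) (c (p
  (nat_lit 0x4d8fc8)) e))) (c (c (m (nat_lit 0x2c42c04)) (c (p (nat_lit 0x55a340)) e)) (c (c (p (nat_lit
  0xbceb90)) e) e))) (c (c (c (m (nat_lit 0xbbaaaa4)) (c (p (nat_lit 0x730500)) e)) (c (c (p (nat_lit
  0x147c258)) e) e)) (c (c (c (p (nat_lit 0x83dff00)) e) e) e))) (c (c (c (c (m (nat_lit 0x3cd7580)) (c (p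
  (nat_lit 0xa5db00)) (c (p (nat_lit 0x526ba8)) e))) (c (c (p (nat_lit 0x3184158)) (c (m (nat_lit 0x73ce0))
  e)) (c (c (m (nat_lit 0x9165a8)) e) e))) (c (c (c (p (nat_lit 0xa86d440)) (c (m (nat_lit 0x8c3400)) e)) (c
  (c (m (nat_lit 0xdfb618)) e) e)) (c (c (c (m (nat_lit 0x8851f80)) e) e) e))) e))) (c (c (c (c (c (p
  (nat_lit 0x5812200)) (c (m (nat_lit 0x2c42724)) (c (p (nat_lit 0xbcebc0)) e))) (c (c (m (nat_lit
  0x1d872b0)) (c (p (nat_lit 0x559f50)) e)) (c (c (p (nat_lit 0x4d8fe0)) e) e))) (c (c (c (m (nat_lit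
  0xbbaabc4)) (c (p (nat_lit 0x147c210)) e)) (c (c (p (nat_lit 0x7304a0)) e) e)) (c (c (c (p (nat_lit
  0x83dfba0)) e) e) e))) (c (c (c (c (m (nat_lit 0x1500ba0)) (c (p (nat_lit 0x11187f0)) (c (p (nat_lit
  0x6ad778)) e))) (c (c (p (nat_lit 0x1118868)) (c (m (nat_lit 0xe39238)) e)) (c (c (p (nat_lit 0x6ad778)) e)
  e))) (c (c (c (p (nat_lit 0x24825c0)) (c (m (nat_lit 0xf76f80)) e)) (c (c (m (nat_lit 0xf76fc8)) e) e)) (c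
  (c (c (p (nat_lit 0xbd5ac0)) e) e) e))) e)) (c (c (c (c (c (m (nat_lit 0x3cd75f8)) (c (p (nat_lit
  0x3184290)) (c (m (nat_lit 0x9165a8)) e))) (c (c (p (nat_lit 0xa5da40)) (c (m (nat_lit 0x73d40)) e)) (c (c
  (p (nat_lit 0x526b90)) e) e))) (c (c (c (p (nat_lit 0xa86d380)) (c (m (nat_lit 0xdfb618)) e)) (c (c (m
  (nat_lit 0x8c33e8)) e) e)) (c (c (c (m (nat_lit 0x8851f80)) e) e) e))) e) e))) (c (c (c (c (c (c (p
  (nat_lit 0x44e7eb6)) (c (m (nat_lit 0x1b708ea)) (c (m (nat_lit 0x1157f40)) e))) (c (c (m (nat_lit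
  0x1b70b42)) (c (m (nat_lit 0x2a5b08c)) e)) (c (c (m (nat_lit 0x1157f34)) e) e))) (c (c (c (m (nat_lit
  0x58c6a28)) (c (p (nat_lit 0xf6f144)) e)) (c (c (p (nat_lit 0xf6f18c)) e) e)) (c (c (c (m (nat_lit
  0xad5908)) e) e) e))) (c (c (c (c (m (nat_lit 0x1198da6)) (c (p (nat_lit 0x42d65c)) (c (p (nat_lit
  0x4d537a)) e))) (c (c (m (nat_lit 0x5d1a58)) (c (p (nat_lit 0x46d6ee)) e)) (c (c (p (nat_lit 0x244050)) e)
  e))) (c (c (c (p (nat_lit 0x305efe0)) (c (m (nat_lit 0x69875a)) e)) (c (c (m (nat_lit 0x303ace)) e) e)) (c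
  (c (c (m (nat_lit 0x20d3de0)) e) e) e))) e)) (c (c (c (c (c (m (nat_lit 0x1198d88)) (c (m (nat_lit
  0x5d1a2e)) (c (p (nat_lit 0x24405c)) e))) (c (c (p (nat_lit 0x42d626)) (c (p (nat_lit 0x46d6c4)) e)) (c (c
  (p (nat_lit 0x4d5380)) e) e))) (c (c (c (p (nat_lit 0x305efb0)) (c (m (nat_lit 0x303ace)) e)) (c (c (m
  (nat_lit 0x698760)) e) e)) (c (c (c (m (nat_lit 0x20d3db0)) e) e) e))) e) e)) (c (c (c (c (c (c (m (nat_lit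
  0x3357ed6)) (c (p (nat_lit 0xa3121a)) (c (p (nat_lit 0x8eb444)) e))) (c (c (p (nat_lit 0xa31250)) (c (p
  (nat_lit 0x14e307a)) e)) (c (c (p (nat_lit 0x8eb43e)) e) e))) (c (c (c (p (nat_lit 0x65adaa0)) (c (m
  (nat_lit 0xbf0700)) e)) (c (c (m (nat_lit 0xbf071e)) e) e)) (c (c (c (m (nat_lit 0x20710b0)) e) e) e))) e)
  e) e))) (c (c (c (c (c (c (c (p (nat_lit 0xaec4c8)) (c (p (nat_lit 0xa0222e)) (c (p (nat_lit 0xe6d372))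
  e))) (c (c (p (nat_lit 0xa022c4)) (c (m (nat_lit 0x5f5ef6)) e)) (c (c (p (nat_lit 0xe6d35a)) e) e))) (c (c
  (c (p (nat_lit 0x6b457d2)) (c (m (nat_lit 0x13cadc6)) e)) (c (c (m (nat_lit 0x13cae14)) e) e)) (c (c (c (m
  (nat_lit 0x5853ee8)) e) e) e))) (c (c (c (c (m (nat_lit 0x384954)) (c (p (nat_lit 0x118beee)) (c (m
  (nat_lit 0x203d0)) e))) (c (c (m (nat_lit 0x1b20502)) (c (m (nat_lit 0x73bde0)) e)) (c (c (m (nat_lit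
  0x14f1a8)) e) e))) (c (c (c (m (nat_lit 0x4355ed4)) (c (p (nat_lit 0xd8a440)) e)) (c (c (p (nat_lit
  0x5f4e40)) e) e)) (c (c (c (p (nat_lit 0x516b100)) e) e) e))) (c (c (c (c (p (nat_lit 0xbf3010)) (c (m
  (nat_lit 0x7dfc40)) e)) (c (c (p (nat_lit 0x3f9f00)) e) e)) (c (c (c (m (nat_lit 0x1564b00)) e) e) e)) e)))
  (c (c (c (c (c (m (nat_lit 0x384a74)) (c (m (nat_lit 0x1b202da)) (c (m (nat_lit 0x14f1a8)) e))) (c (c (p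
  (nat_lit 0x118bed6)) (c (m (nat_lit 0x73be10)) e)) (c (c (m (nat_lit 0x203b8)) e) e))) (c (c (c (m (nat_lit
  0x4355e74)) (c (p (nat_lit 0x5f4e28)) e)) (c (c (p (nat_lit 0xd8a428)) e) e)) (c (c (c (p (nat_lit
  0x516b040)) e) e) e))) (c (c (c (c (m (nat_lit 0x17986c8)) (c (p (nat_lit 0x397a40)) e)) (c (c (p (nat_lit
  0x397a40)) e) e)) (c (c (c (p (nat_lit 0x9357c0)) e) e) e)) e)) (c (c (c (c (c (p (nat_lit 0xbf3070)) (c (p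
  (nat_lit 0x3f9ee8)) e)) (c (c (m (nat_lit 0x7dfbf8)) e) e)) (c (c (c (m (nat_lit 0x1564b00)) e) e) e)) e)
  e))) (c (c (c (c (c (c (p (nat_lit 0x78c1614)) (c (p (nat_lit 0x7394a4e)) (c (m (nat_lit 0xec7360)) e))) (c
  (c (p (nat_lit 0x7394a24)) (c (m (nat_lit 0x213204)) e)) (c (c (m (nat_lit 0xec735a)) e) e))) (c (c (c (m
  (nat_lit 0x136931d6)) (c (p (nat_lit 0x18a01ac)) e)) (c (c (p (nat_lit 0x18a01d6)) e) e)) (c (c (c (p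
  (nat_lit 0x428d978)) e) e) e))) (c (c (c (c (p (nat_lit 0x733b24)) (c (m (nat_lit 0x732960)) e)) (c (c (p
  (nat_lit 0x39cba0)) e) e)) (c (c (c (p (nat_lit 0x487698)) e) e) e)) e)) (c (c (c (c (c (p (nat_lit
  0x733b30)) (c (p (nat_lit 0x39cb88)) e)) (c (c (m (nat_lit 0x732960)) e) e)) (c (c (c (p (nat_lit
  0x487698)) e) e) e)) e) e)) (c (c (c (c (c (c (p (nat_lit 0xe3ef9e)) (c (m (nat_lit 0x1515b52)) e)) (c (c
  (m (nat_lit 0x1515b52)) e) e)) (c (c (c (p (nat_lit 0xd27c08)) e) e) e)) e) e) e))) (c (c (c (c (c (c (c (p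
  (nat_lit 0x2b91d42)) (c (m (nat_lit 0x2b48d88)) (c (m (nat_lit 0x9606a8)) e))) (c (c (m (nat_lit
  0x2b48d58)) (c (p (nat_lit 0x12dcb0c)) e)) (c (c (m (nat_lit 0x9606a2)) e) e))) (c (c (c (m (nat_lit
  0x26b4952)) (c (p (nat_lit 0x8369b2)) e)) (c (c (p (nat_lit 0x8369ca)) e) e)) (c (c (c (p (nat_lit
  0x216f810)) e) e) e))) (c (c (c (c (p (nat_lit 0x1ec3e4)) (c (p (nat_lit 0xda7eca)) e)) (c (c (p (nat_lit
  0x893b56)) e) e)) (c (c (c (m (nat_lit 0x302e08)) e) e) e)) (c (c (c (c (m (nat_lit 0x338d0)) e) e) e) e)))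
  (c (c (c (c (c (p (nat_lit 0x1ec3e4)) (c (p (nat_lit 0x893b56)) e)) (c (c (p (nat_lit 0xda7eb2)) e) e)) (c
  (c (c (m (nat_lit 0x302e08)) e) e) e)) (c (c (c (c (p (nat_lit 0x938568)) e) e) e) e)) (c (c (c (c (c (m
  (nat_lit 0x338d0)) e) e) e) e) e))) (c (c (c (c (c (c (m (nat_lit 0x7c07eda)) (c (m (nat_lit 0x46a02b0))
  e)) (c (c (m (nat_lit 0x46a02c2)) e) e)) (c (c (c (p (nat_lit 0x74e4a66)) e) e) e)) (c (c (c (c (m (nat_lit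
  0x92628c)) e) e) e) e)) (c (c (c (c (c (m (nat_lit 0x92629e)) e) e) e) e) e)) (c (c (c (c (c (c (m (nat_lit
  0xc4f24e)) e) e) e) e) e) e))) (c (c (c (c (c (c (c (p (nat_lit 0x32192ca)) (c (p (nat_lit 0x1c8b8c8)) e))
  (c (c (p (nat_lit 0x1c8b8c8)) e) e)) (c (c (c (p (nat_lit 0xecd366)) e) e) e)) (c (c (c (c (m (nat_lit
  0xa1bb78)) e) e) e) e)) (c (c (c (c (c (m (nat_lit 0xa1bb90)) e) e) e) e) e)) (c (c (c (c (c (c (p (nat_lit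
  0x466e63c)) e) e) e) e) e) e)) (c (c (c (c (c (c (c (m (nat_lit 0x45dff74)) e) e) e) e) e) e) e))))) (c (c
  (c (c (c (c (c (c (p (nat_lit 0x73a7bca)) (c (m (nat_lit 0x285d332)) (c (p (nat_lit 0xc77d24)) e))) (c (c
  (p (nat_lit 0x1cea99e)) (c (p (nat_lit 0xa0d3a0)) e)) (c (c (m (nat_lit 0xe79870)) e) e))) (c (c (c (m
  (nat_lit 0x8aea79e)) (c (m (nat_lit 0xbf6f4)) e)) (c (c (p (nat_lit 0x48d1e2)) e) e)) (c (c (c (p (nat_lit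
  0x43dd870)) e) e) e))) (c (c (c (c (m (nat_lit 0x2412cf6)) (c (p (nat_lit 0x795684)) (c (m (nat_lit
  0x3ceb62)) e))) (c (c (p (nat_lit 0x108548a)) (c (p (nat_lit 0xce1d2)) e)) (c (c (p (nat_lit 0x928c98)) e)
  e))) (c (c (c (p (nat_lit 0x516da4)) (c (p (nat_lit 0x669d14)) e)) (c (c (p (nat_lit 0x243b88)) e) e)) (c
  (c (c (m (nat_lit 0x2180d0)) e) e) e))) (c (c (c (c (p (nat_lit 0x142ec0)) (c (m (nat_lit 0x1a8d58)) e)) (c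
  (c (m (nat_lit 0x5d2838)) e) e)) (c (c (c (p (nat_lit 0xfd9980)) e) e) e)) e))) (c (c (c (c (c (p (nat_lit
  0xf4f968)) (c (p (nat_lit 0xbf5542)) (c (m (nat_lit 0x3f8f40)) e))) (c (c (m (nat_lit 0x2c68b5a)) (c (p
  (nat_lit 0x2441ca)) e)) (c (c (m (nat_lit 0x1d2a0a)) e) e))) (c (c (c (m (nat_lit 0x5b1814)) (c (p (nat_lit
  0xb9c6be)) e)) (c (c (p (nat_lit 0xa0f7b8)) e) e)) (c (c (c (p (nat_lit 0x10f59f0)) e) e) e))) (c (c (c (c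
  (p (nat_lit 0x32fb20)) (c (p (nat_lit 0x188670)) e)) (c (c (m (nat_lit 0xb52678)) e) e)) (c (c (c (m
  (nat_lit 0xb73870)) e) e) e)) e)) (c (c (c (c (c (m (nat_lit 0x1786608)) (c (m (nat_lit 0xf4f9f8)) e)) (c
  (c (p (nat_lit 0x9d5dc8)) e) e)) (c (c (c (p (nat_lit 0x724050)) e) e) e)) e) e))) (c (c (c (c (c (c (m
  (nat_lit 0x26f813a)) (c (p (nat_lit 0x13a946c)) (c (p (nat_lit 0x3aec7e)) e))) (c (c (p (nat_lit
  0x15444c0)) (c (p (nat_lit 0xfbb20)) e)) (c (c (p (nat_lit 0x51f342)) e) e))) (c (c (c (p (nat_lit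
  0x342eefe)) (c (p (nat_lit 0x33724e)) e)) (c (c (m (nat_lit 0x272bf2)) e) e)) (c (c (c (m (nat_lit
  0x616fc8)) e) e) e))) (c (c (c (c (m (nat_lit 0x4cc3aa)) (c (p (nat_lit 0x2c0ac)) e)) (c (c (p (nat_lit
  0x175a94)) e) e)) (c (c (c (p (nat_lit 0x1f89a8)) e) e) e)) e)) (c (c (c (c (c (p (nat_lit 0x4b66ea)) (c (p
  (nat_lit 0x47cca)) e)) (c (c (m (nat_lit 0x48f642)) e) e)) (c (c (c (m (nat_lit 0x3656f4)) e) e) e)) e) e))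
  (c (c (c (c (c (c (p (nat_lit 0x8fe146)) (c (m (nat_lit 0x1c876e)) e)) (c (c (m (nat_lit 0x7675e)) e) e))
  (c (c (c (m (nat_lit 0x72cc78)) e) e) e)) e) e) e))) (c (c (c (c (c (c (c (p (nat_lit 0x5b49ac)) (c (m
  (nat_lit 0xc8c5e)) (c (p (nat_lit 0x24630)) e))) (c (c (m (nat_lit 0x4f9a6a)) (c (p (nat_lit 0x2978a)) e))
  (c (c (p (nat_lit 0x41e6b6)) e) e))) (c (c (c (p (nat_lit 0x5d93b40)) (c (m (nat_lit 0xe7aba2)) e)) (c (c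
  (m (nat_lit 0x109fd64)) e) e)) (c (c (c (m (nat_lit 0x306ff00)) e) e) e))) (c (c (c (c (p (nat_lit
  0x20f2344)) (c (p (nat_lit 0xc0e4d2)) e)) (c (c (m (nat_lit 0x17fae2e)) e) e)) (c (c (c (m (nat_lit
  0x66a62)) e) e) e)) (c (c (c (c (m (nat_lit 0x997c38)) e) e) e) e))) (c (c (c (c (c (p (nat_lit 0xd371d8))
  (c (m (nat_lit 0x24c94e)) e)) (c (c (p (nat_lit 0x14b4e9e)) e) e)) (c (c (c (m (nat_lit 0x136497c)) e) e)
  e)) (c (c (c (c (p (nat_lit 0x2d6e40)) e) e) e) e)) (c (c (c (c (c (p (nat_lit 0x123e0d0)) e) e) e) e) e)))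
  (c (c (c (c (c (c (m (nat_lit 0x1bcd56c)) (c (m (nat_lit 0x1356120)) e)) (c (c (m (nat_lit 0x698c04)) e)
  e)) (c (c (c (m (nat_lit 0x535128)) e) e) e)) (c (c (c (c (p (nat_lit 0x788bf8)) e) e) e) e)) (c (c (c (c
  (c (p (nat_lit 0x2a9c42)) e) e) e) e) e)) (c (c (c (c (c (c (p (nat_lit 0x6e7084)) e) e) e) e) e) e))) (c
  (c (c (c (c (c (c (m (nat_lit 0x9753be8)) (c (p (nat_lit 0x29b104)) e)) (c (c (p (nat_lit 0x773f4)) e) e))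
  (c (c (c (p (nat_lit 0x3d9fc4a)) e) e) e)) (c (c (c (c (m (nat_lit 0xfe6d8a)) e) e) e) e)) (c (c (c (c (c
  (p (nat_lit 0x28a7d8)) e) e) e) e) e)) (c (c (c (c (c (c (p (nat_lit 0x1769f40)) e) e) e) e) e) e)) (c (c
  (c (c (c (c (c (p (nat_lit 0xed3ab6)) e) e) e) e) e) e) e)))) (c (c (c (c (c (c (c (c (p (nat_lit
  0xa4d7e6)) (c (m (nat_lit 0x11f58de)) (c (m (nat_lit 0x3a301a)) e))) (c (c (m (nat_lit 0x14d7ae2)) (c (p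
  (nat_lit 0x718212)) e)) (c (c (m (nat_lit 0x2a580e)) e) e))) (c (c (c (p (nat_lit 0x8aacaa)) (c (p (nat_lit
  0x4567d4)) e)) (c (c (p (nat_lit 0x423c06)) e) e)) (c (c (c (p (nat_lit 0x58dc58)) e) e) e))) (c (c (c (c
  (p (nat_lit 0x884c40)) (c (p (nat_lit 0x50c6e2)) e)) (c (c (p (nat_lit 0x69ac02)) e) e)) (c (c (c (m
  (nat_lit 0x2f446e)) e) e) e)) (c (c (c (c (p (nat_lit 0xce0580)) e) e) e) e))) (c (c (c (c (c (m (nat_lit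
  0x14ada52)) (c (p (nat_lit 0x8de4f0)) e)) (c (c (m (nat_lit 0x1cbada)) e) e)) (c (c (c (p (nat_lit
  0x5595de)) e) e) e)) (c (c (c (c (m (nat_lit 0x38eb00)) e) e) e) e)) (c (c (c (c (c (m (nat_lit 0x8f4d8))
  e) e) e) e) e))) (c (c (c (c (c (c (p (nat_lit 0x1029084)) (c (m (nat_lit 0x4095ba)) e)) (c (c (m (nat_lit
  0x2ba84a)) e) e)) (c (c (c (m (nat_lit 0x8b3380)) e) e) e)) (c (c (c (c (p (nat_lit 0xe99a6)) e) e) e) e))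
  (c (c (c (c (c (p (nat_lit 0x17fca6)) e) e) e) e) e)) (c (c (c (c (c (c (m (nat_lit 0x655d40)) e) e) e) e)
  e) e))) (c (c (c (c (c (c (c (m (nat_lit 0x26721cc)) (c (p (nat_lit 0xd4defa)) e)) (c (c (p (nat_lit
  0x139539c)) e) e)) (c (c (c (m (nat_lit 0x1d19d20)) e) e) e)) (c (c (c (c (m (nat_lit 0x47f12a)) e) e) e)
  e)) (c (c (c (c (c (m (nat_lit 0xb6c490)) e) e) e) e) e)) (c (c (c (c (c (c (p (nat_lit 0x5a39ea)) e) e) e)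
  e) e) e)) (c (c (c (c (c (c (c (p (nat_lit 0x401e3ec)) e) e) e) e) e) e) e))) (c (c (c (c (c (c (c (c (m
  (nat_lit 0xd2a962)) (c (p (nat_lit 0x6918d8)) e)) (c (c (m (nat_lit 0x1478a0)) e) e)) (c (c (c (p (nat_lit
  0x1977ea)) e) e) e)) (c (c (c (c (m (nat_lit 0x8261a)) e) e) e) e)) (c (c (c (c (c (p (nat_lit 0x190800))
  e) e) e) e) e)) (c (c (c (c (c (c (m (nat_lit 0x59eec)) e) e) e) e) e) e)) (c (c (c (c (c (c (c (m (nat_lit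
  0x5e2e2e)) e) e) e) e) e) e) e)) (c (c (c (c (c (c (c (c (p (nat_lit 0xaa5398)) e) e) e) e) e) e) e) e)))))
  (c (c (c (c (c (c (c (c (c (p (nat_lit 0x73a7c84)) (c (p (nat_lit 0x1cea8d2)) (c (m (nat_lit 0xe79888))
  e))) (c (c (m (nat_lit 0x285d374)) (c (p (nat_lit 0xa0d3d0)) e)) (c (c (p (nat_lit 0xc77d1e)) e) e))) (c (c
  (c (m (nat_lit 0x8aea8be)) (c (p (nat_lit 0x48d1e8)) e)) (c (c (m (nat_lit 0xbf6fa)) e) e)) (c (c (c (p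
  (nat_lit 0x43dd918)) e) e) e))) (c (c (c (c (p (nat_lit 0xf4fabe)) (c (m (nat_lit 0x2c68b9c)) (c (m
  (nat_lit 0x1d29f8)) e))) (c (c (p (nat_lit 0xbf5500)) (c (p (nat_lit 0x2441ac)) e)) (c (c (m (nat_lit
  0x3f8f46)) e) e))) (c (c (c (m (nat_lit 0x5b188c)) (c (p (nat_lit 0xa0f7b2)) e)) (c (c (p (nat_lit
  0xb9c6d6)) e) e)) (c (c (c (p (nat_lit 0x10f5a38)) e) e) e))) (c (c (c (c (m (nat_lit 0x1786608)) (c (p
  (nat_lit 0x9d5d98)) e)) (c (c (m (nat_lit 0xf4f9e0)) e) e)) (c (c (c (p (nat_lit 0x724038)) e) e) e)) e)))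
  (c (c (c (c (c (m (nat_lit 0x2412d38)) (c (p (nat_lit 0x10853f4)) (c (p (nat_lit 0x928c9e)) e))) (c (c (p
  (nat_lit 0x795642)) (c (p (nat_lit 0xce1d2)) e)) (c (c (m (nat_lit 0x3ceb62)) e) e))) (c (c (c (p (nat_lit
  0x516e94)) (c (p (nat_lit 0x243b76)) e)) (c (c (p (nat_lit 0x669d0e)) e) e)) (c (c (c (m (nat_lit
  0x218190)) e) e) e))) (c (c (c (c (p (nat_lit 0x32fac0)) (c (m (nat_lit 0xb52648)) e)) (c (c (p (nat_lit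
  0x188640)) e) e)) (c (c (c (m (nat_lit 0xb738d0)) e) e) e)) e)) (c (c (c (c (c (p (nat_lit 0x142e90)) (c (m
  (nat_lit 0x5d2808)) e)) (c (c (m (nat_lit 0x1a8cf8)) e) e)) (c (c (c (p (nat_lit 0xfd99b0)) e) e) e)) e)
  e))) (c (c (c (c (c (c (m (nat_lit 0x26f8122)) (c (p (nat_lit 0x1544520)) (c (p (nat_lit 0x51f342)) e))) (c
  (c (p (nat_lit 0x13a9460)) (c (p (nat_lit 0xfbb38)) e)) (c (c (p (nat_lit 0x3aec72)) e) e))) (c (c (c (p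
  (nat_lit 0x342ef7c)) (c (m (nat_lit 0x272bce)) e)) (c (c (p (nat_lit 0x337254)) e) e)) (c (c (c (m (nat_lit
  0x616ff8)) e) e) e))) (c (c (c (c (p (nat_lit 0x4b66cc)) (c (m (nat_lit 0x48f648)) e)) (c (c (p (nat_lit
  0x47cdc)) e) e)) (c (c (c (m (nat_lit 0x365700)) e) e) e)) e)) (c (c (c (c (c (m (nat_lit 0x4cc38c)) (c (p
  (nat_lit 0x175a88)) e)) (c (c (p (nat_lit 0x2c0b2)) e) e)) (c (c (c (p (nat_lit 0x1f89ae)) e) e) e)) e) e))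
  (c (c (c (c (c (c (p (nat_lit 0x8fe11c)) (c (m (nat_lit 0x76752)) e)) (c (c (m (nat_lit 0x1c877a)) e) e))
  (c (c (c (m (nat_lit 0x72cca8)) e) e) e)) e) e) e))) (c (c (c (c (c (c (c (p (nat_lit 0x4cfa2e)) (c (m
  (nat_lit 0x4ff644)) (c (p (nat_lit 0x41e6bc)) e))) (c (c (m (nat_lit 0x6e208)) (c (p (nat_lit 0x29784)) e))
  (c (c (p (nat_lit 0x24624)) e) e))) (c (c (c (p (nat_lit 0x5f8f344)) (c (m (nat_lit 0x109fd34)) e)) (c (c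
  (m (nat_lit 0xe7ab96)) e) e)) (c (c (c (m (nat_lit 0x306fe58)) e) e) e))) (c (c (c (c (p (nat_lit
  0xc17cca)) (c (p (nat_lit 0x146de04)) e)) (c (c (m (nat_lit 0x151c62)) e) e)) (c (c (c (m (nat_lit
  0xfc5c1c)) e) e) e)) (c (c (c (c (p (nat_lit 0x123e0e8)) e) e) e) e))) (c (c (c (c (c (p (nat_lit
  0x255b970)) (c (m (nat_lit 0x178792e)) e)) (c (c (p (nat_lit 0xa8d9bc)) e) e)) (c (c (c (m (nat_lit
  0xa74aa4)) e) e) e)) (c (c (c (c (p (nat_lit 0x2d6e58)) e) e) e) e)) (c (c (c (c (c (m (nat_lit 0x997c80))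
  e) e) e) e) e))) (c (c (c (c (c (c (m (nat_lit 0x216c38a)) (c (m (nat_lit 0x71a3f0)) e)) (c (c (m (nat_lit
  0x10f7fee)) e) e)) (c (c (c (p (nat_lit 0x814164)) e) e) e)) (c (c (c (c (p (nat_lit 0x2a9c3c)) e) e) e)
  e)) (c (c (c (c (c (p (nat_lit 0x788be6)) e) e) e) e) e)) (c (c (c (c (c (c (p (nat_lit 0x6e7096)) e) e) e)
  e) e) e))) (c (c (c (c (c (c (c (m (nat_lit 0x915149a)) (c (m (nat_lit 0x4de92)) e)) (c (c (p (nat_lit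
  0x2d6c06)) e) e)) (c (c (c (p (nat_lit 0x345d380)) e) e) e)) (c (c (c (c (p (nat_lit 0x12d43a)) e) e) e)
  e)) (c (c (c (c (c (m (nat_lit 0xd4a102)) e) e) e) e) e)) (c (c (c (c (c (c (p (nat_lit 0x139bb9a)) e) e)
  e) e) e) e)) (c (c (c (c (c (c (c (p (nat_lit 0xf9d0b0)) e) e) e) e) e) e) e)))) (c (c (c (c (c (c (c (c (m
  (nat_lit 0x909cb0a)) (c (p (nat_lit 0x64ae20)) (c (p (nat_lit 0x216c)) e))) (c (c (p (nat_lit 0x64ae08)) (c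
  (m (nat_lit 0xca4550)) e)) (c (c (p (nat_lit 0x2178)) e) e))) (c (c (c (p (nat_lit 0x4e96726)) (c (m
  (nat_lit 0x43ba02)) e)) (c (c (m (nat_lit 0x43b9fc)) e) e)) (c (c (c (m (nat_lit 0x2536680)) e) e) e))) (c
  (c (c (c (p (nat_lit 0x2f24262)) (c (m (nat_lit 0x83e95c)) e)) (c (c (m (nat_lit 0x2c721c)) e) e)) (c (c (c
  (m (nat_lit 0x12fc5d0)) e) e) e)) (c (c (c (c (m (nat_lit 0xa78d28)) e) e) e) e))) (c (c (c (c (c (p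
  (nat_lit 0x2f241f0)) (c (m (nat_lit 0x2c723a)) e)) (c (c (m (nat_lit 0x83e956)) e) e)) (c (c (c (m (nat_lit
  0x12fc5b2)) e) e) e)) (c (c (c (c (p (nat_lit 0xce43c0)) e) e) e) e)) (c (c (c (c (c (m (nat_lit 0xa78d10))
  e) e) e) e) e))) (c (c (c (c (c (c (p (nat_lit 0x1105dd6)) (c (m (nat_lit 0x78eefe)) e)) (c (c (m (nat_lit
  0x78eef2)) e) e)) (c (c (c (m (nat_lit 0x586bd2)) e) e) e)) (c (c (c (c (m (nat_lit 0x7260de)) e) e) e) e))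
  (c (c (c (c (c (m (nat_lit 0x7260e4)) e) e) e) e) e)) (c (c (c (c (c (c (m (nat_lit 0xf8ee00)) e) e) e) e)
  e) e))) (c (c (c (c (c (c (c (p (nat_lit 0x189be56)) (c (p (nat_lit 0x1a42088)) e)) (c (c (p (nat_lit
  0x1531d88)) e) e)) (c (c (c (m (nat_lit 0x2861478)) e) e) e)) (c (c (c (c (m (nat_lit 0x1092828)) e) e) e)
  e)) (c (c (c (c (c (m (nat_lit 0xbdb190)) e) e) e) e) e)) (c (c (c (c (c (c (p (nat_lit 0x2f6afc)) e) e) e)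
  e) e) e)) (c (c (c (c (c (c (c (p (nat_lit 0x43cb090)) e) e) e) e) e) e) e))) (c (c (c (c (c (c (c (c (p
  (nat_lit 0x116e1be)) (c (m (nat_lit 0x56930a)) e)) (c (c (p (nat_lit 0x2abd96)) e) e)) (c (c (c (p (nat_lit
  0x4abd40)) e) e) e)) (c (c (c (c (p (nat_lit 0xacfcce)) e) e) e) e)) (c (c (c (c (c (p (nat_lit 0xdd3fa))
  e) e) e) e) e)) (c (c (c (c (c (c (p (nat_lit 0xc67ea8)) e) e) e) e) e) e)) (c (c (c (c (c (c (c (m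
  (nat_lit 0x2c0442c)) e) e) e) e) e) e) e)) (c (c (c (c (c (c (c (c (m (nat_lit 0x690f0c)) e) e) e) e) e) e)
  e) e)))) (c (c (c (c (c (c (c (c (c (p (nat_lit 0xa4d7c2)) (c (m (nat_lit 0x14d7a76)) (c (m (nat_lit
  0x2a5808)) e))) (c (c (m (nat_lit 0x11f588a)) (c (p (nat_lit 0x718218)) e)) (c (c (m (nat_lit 0x3a301a)) e)
  e))) (c (c (c (p (nat_lit 0x8aad34)) (c (p (nat_lit 0x423bf4)) e)) (c (c (p (nat_lit 0x4567d4)) e) e)) (c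
  (c (c (p (nat_lit 0x58dbe0)) e) e) e))) (c (c (c (c (m (nat_lit 0x14adab8)) (c (m (nat_lit 0x1cbb0a)) e))
  (c (c (p (nat_lit 0x8de4f0)) e) e)) (c (c (c (p (nat_lit 0x5595e4)) e) e) e)) (c (c (c (c (m (nat_lit
  0x8f4c0)) e) e) e) e))) (c (c (c (c (c (p (nat_lit 0x884c70)) (c (p (nat_lit 0x69abe4)) e)) (c (c (p
  (nat_lit 0x50c6d0)) e) e)) (c (c (c (m (nat_lit 0x2f4456)) e) e) e)) (c (c (c (c (m (nat_lit 0x38eb00)) e)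
  e) e) e)) (c (c (c (c (c (p (nat_lit 0xce05b0)) e) e) e) e) e))) (c (c (c (c (c (c (p (nat_lit 0x102904e))
  (c (m (nat_lit 0x2ba844)) e)) (c (c (m (nat_lit 0x4095c6)) e) e)) (c (c (c (m (nat_lit 0x8b338c)) e) e) e))
  (c (c (c (c (p (nat_lit 0x17fcd0)) e) e) e) e)) (c (c (c (c (c (p (nat_lit 0xe99a0)) e) e) e) e) e)) (c (c
  (c (c (c (c (m (nat_lit 0x655d22)) e) e) e) e) e) e))) (c (c (c (c (c (c (c (m (nat_lit 0x2b65504)) (c (p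
  (nat_lit 0x1310004)) e)) (c (c (p (nat_lit 0xed10e6)) e) e)) (c (c (c (m (nat_lit 0x1243050)) e) e) e)) (c
  (c (c (c (m (nat_lit 0xc295e0)) e) e) e) e)) (c (c (c (c (c (m (nat_lit 0x4141aa)) e) e) e) e) e)) (c (c (c
  (c (c (c (p (nat_lit 0x4a6b32)) e) e) e) e) e) e)) (c (c (c (c (c (c (c (p (nat_lit 0x3b4b772)) e) e) e) e)
  e) e) e))) (c (c (c (c (c (c (c (c (p (nat_lit 0x116e1d0)) (c (p (nat_lit 0x2abdba)) e)) (c (c (m (nat_lit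
  0x5692e6)) e) e)) (c (c (c (p (nat_lit 0x4abd5e)) e) e) e)) (c (c (c (c (p (nat_lit 0xdd3f4)) e) e) e) e))
  (c (c (c (c (c (p (nat_lit 0xacfcda)) e) e) e) e) e)) (c (c (c (c (c (c (p (nat_lit 0xc67e96)) e) e) e) e)
  e) e)) (c (c (c (c (c (c (c (m (nat_lit 0x2fdd146)) e) e) e) e) e) e) e)) (c (c (c (c (c (c (c (c (p
  (nat_lit 0x84d4ac)) e) e) e) e) e) e) e) e))) (c (c (c (c (c (c (c (c (c (m (nat_lit 0xd2a998)) (c (m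
  (nat_lit 0x1478be)) e)) (c (c (p (nat_lit 0x6918e4)) e) e)) (c (c (c (p (nat_lit 0x197802)) e) e) e)) (c (c
  (c (c (p (nat_lit 0x1907fa)) e) e) e) e)) (c (c (c (c (c (m (nat_lit 0x8260e)) e) e) e) e) e)) (c (c (c (c
  (c (c (m (nat_lit 0x59ed4)) e) e) e) e) e) e)) (c (c (c (c (c (c (c (m (nat_lit 0x63b562)) e) e) e) e) e)
  e) e)) (c (c (c (c (c (c (c (c (m (nat_lit 0x690f3c)) e) e) e) e) e) e) e) e)) (c (c (c (c (c (c (c (c (c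
  (p (nat_lit 0xaa53b0)) e) e) e) e) e) e) e) e) e)))))

noncomputable def gt_0_3_5 : Tr :=
  (c (c (c (c (c (c (c (c (c (m (nat_lit 0x1121ea4)) (c (m (nat_lit 0x3361f56)) (c (p (nat_lit 0x19307a0))
  e))) (c (c (p (nat_lit 0x1410a86)) (c (m (nat_lit 0xf40e0)) e)) (c (c (m (nat_lit 0x1b7080)) e) e))) (c (c
  (c (m (nat_lit 0x1acb836)) (c (m (nat_lit 0x4b200a)) e)) (c (c (m (nat_lit 0x7cf218)) e) e)) (c (c (c (p
  (nat_lit 0x39fc5a)) e) e) e))) (c (c (c (c (m (nat_lit 0x38e6386)) (c (p (nat_lit 0xb260b0)) (c (m (nat_lit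
  0x1849ab8)) e))) (c (c (p (nat_lit 0x567b9f4)) (c (m (nat_lit 0x169e738)) e)) (c (c (m (nat_lit 0x292c938))
  e) e))) (c (c (c (p (nat_lit 0x3320f04)) (c (p (nat_lit 0x86f250)) e)) (c (c (m (nat_lit 0x11e6ff8)) e) e))
  (c (c (c (m (nat_lit 0x24f0828)) e) e) e))) (c (c (c (c (p (nat_lit 0x19307d0)) (c (m (nat_lit 0x1849a70))
  (c (p (nat_lit 0x1004cb8)) e))) (c (c (m (nat_lit 0x384918)) (c (p (nat_lit 0x10c6398)) e)) (c (c (m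
  (nat_lit 0x5e73a0)) e) e))) (c (c (c (p (nat_lit 0xa210e0)) (c (p (nat_lit 0x942e28)) e)) (c (c (p (nat_lit
  0x807090)) e) e)) (c (c (c (m (nat_lit 0xc66a68)) e) e) e))) e))) (c (c (c (c (c (m (nat_lit 0x42daf1c)) (c
  (p (nat_lit 0x42490a4)) (c (p (nat_lit 0xa21098)) e))) (c (c (m (nat_lit 0x32f3c04)) (c (p (nat_lit
  0x17e18f8)) e)) (c (c (p (nat_lit 0x1d70240)) e) e))) (c (c (c (p (nat_lit 0x9a9320c)) (c (m (nat_lit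
  0x2ec3d40)) e)) (c (c (m (nat_lit 0x118f908)) e) e)) (c (c (c (m (nat_lit 0x2aed708)) e) e) e))) (c (c (c
  (c (m (nat_lit 0x4b1fe0)) (c (p (nat_lit 0x86f268)) (c (p (nat_lit 0x942e40)) e))) (c (c (m (nat_lit
  0x3396ca8)) (c (p (nat_lit 0x154f8)) e)) (c (c (p (nat_lit 0x1540bf0)) e) e))) (c (c (c (m (nat_lit
  0x2ec3d40)) (c (p (nat_lit 0x12b7a98)) e)) (c (c (p (nat_lit 0xdcb7e0)) e) e)) (c (c (c (p (nat_lit
  0xf7d9b8)) e) e) e))) e)) (c (c (c (c (c (p (nat_lit 0x39fc60)) (c (m (nat_lit 0x24f0840)) (c (m (nat_lit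
  0xc66a50)) e))) (c (c (p (nat_lit 0x1ad6768)) (c (m (nat_lit 0x10f9488)) e)) (c (c (m (nat_lit 0x7a9cd0))
  e) e))) (c (c (c (m (nat_lit 0x2aed708)) (c (p (nat_lit 0xf7d988)) e)) (c (c (m (nat_lit 0x407988)) e) e))
  (c (c (c (m (nat_lit 0x79a28)) e) e) e))) e) e))) (c (c (c (c (c (c (p (nat_lit 0x18ed72c)) (c (p (nat_lit
  0x52551f0)) (c (m (nat_lit 0x3848f4)) e))) (c (c (m (nat_lit 0x16373ee)) (c (p (nat_lit 0x1ba056)) e)) (c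
  (c (p (nat_lit 0x165bd8a)) e) e))) (c (c (c (m (nat_lit 0x4ab1b74)) (c (m (nat_lit 0x3396c96)) e)) (c (c (p
  (nat_lit 0x14b851c)) e) e)) (c (c (c (p (nat_lit 0x1ad6726)) e) e) e))) (c (c (c (c (m (nat_lit 0xf40b6))
  (c (m (nat_lit 0x169e738)) (c (p (nat_lit 0x10c63aa)) e))) (c (c (p (nat_lit 0x1ba080)) (c (p (nat_lit
  0xdd8d70)) e)) (c (c (m (nat_lit 0x51851a)) e) e))) (c (c (c (p (nat_lit 0x17e18d4)) (c (p (nat_lit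
  0x154da)) e)) (c (c (m (nat_lit 0x570a86)) e) e)) (c (c (c (m (nat_lit 0x10f946a)) e) e) e))) e)) (c (c (c
  (c (c (m (nat_lit 0x7cf200)) (c (m (nat_lit 0x11e6ff8)) (c (p (nat_lit 0x8070a8)) e))) (c (c (p (nat_lit
  0x14b853a)) (c (m (nat_lit 0x570a8c)) e)) (c (c (m (nat_lit 0x776f4)) e) e))) (c (c (c (m (nat_lit
  0x118f944)) (c (p (nat_lit 0xdcb7c2)) e)) (c (c (p (nat_lit 0xb3b14)) e) e)) (c (c (c (m (nat_lit
  0x40795e)) e) e) e))) e) e)) (c (c (c (c (c (c (m (nat_lit 0x1b7020)) (c (m (nat_lit 0x292c93e)) (c (m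
  (nat_lit 0x5e73b2)) e))) (c (c (p (nat_lit 0x165bd60)) (c (m (nat_lit 0x518508)) e)) (c (c (m (nat_lit
  0x1674504)) e) e))) (c (c (c (p (nat_lit 0x1d7022e)) (c (p (nat_lit 0x1540bf0)) e)) (c (c (m (nat_lit
  0x776e8)) e) e)) (c (c (c (m (nat_lit 0x7a9cac)) e) e) e))) e) e) e))) (c (c (c (c (c (c (c (p (nat_lit
  0x3af5900)) (c (p (nat_lit 0x3fc85b0)) (c (m (nat_lit 0x1c9d166)) e))) (c (c (m (nat_lit 0x300dc5c)) (c (p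
  (nat_lit 0x153780)) e)) (c (c (m (nat_lit 0x14a8ee)) e) e))) (c (c (c (m (nat_lit 0x432791a)) (c (p
  (nat_lit 0x15b99c4)) e)) (c (c (p (nat_lit 0x1dff670)) e) e)) (c (c (c (p (nat_lit 0x102be14)) e) e) e)))
  (c (c (c (c (p (nat_lit 0x1838c76)) (c (p (nat_lit 0x6ce3a)) (c (p (nat_lit 0x9d0a58)) e))) (c (c (m
  (nat_lit 0x1c548b4)) (c (p (nat_lit 0x32dbd0)) e)) (c (c (p (nat_lit 0xca89c0)) e) e))) (c (c (c (p
  (nat_lit 0x26bf350)) (c (p (nat_lit 0x26ad50)) e)) (c (c (p (nat_lit 0x125328)) e) e)) (c (c (c (p (nat_lit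
  0x7bfcc0)) e) e) e))) (c (c (c (c (m (nat_lit 0x32db10)) (c (m (nat_lit 0x918120)) e)) (c (c (p (nat_lit
  0xe0fe20)) e) e)) (c (c (c (p (nat_lit 0x381b70)) e) e) e)) e))) (c (c (c (c (c (p (nat_lit 0x2abcbd4)) (c
  (m (nat_lit 0x1dbdbda)) (c (p (nat_lit 0x5e938)) e))) (c (c (m (nat_lit 0x1631028)) (c (m (nat_lit
  0x4336c8)) e)) (c (c (p (nat_lit 0xcd49a0)) e) e))) (c (c (c (p (nat_lit 0x1b007fe)) (c (p (nat_lit
  0x6a5f78)) e)) (c (c (m (nat_lit 0x329d30)) e) e)) (c (c (c (p (nat_lit 0x1307118)) e) e) e))) (c (c (c (c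
  (m (nat_lit 0x14e02d8)) (c (p (nat_lit 0xc8e1d0)) e)) (c (c (p (nat_lit 0xb318b8)) e) e)) (c (c (c (m
  (nat_lit 0x9e0340)) e) e) e)) e)) (c (c (c (c (c (p (nat_lit 0x1b27798)) (c (m (nat_lit 0xa12668)) e)) (c
  (c (m (nat_lit 0xdf9500)) e) e)) (c (c (c (m (nat_lit 0x9d1e50)) e) e) e)) e) e))) (c (c (c (c (c (c (m
  (nat_lit 0x24cf0)) (c (p (nat_lit 0x742c6e)) (c (m (nat_lit 0x7ca544)) e))) (c (c (m (nat_lit 0x35cf958))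
  (c (p (nat_lit 0x326b5c)) e)) (c (c (p (nat_lit 0x829a5e)) e) e))) (c (c (c (m (nat_lit 0x89581da)) (c (m
  (nat_lit 0xbb69d4)) e)) (c (c (m (nat_lit 0x16f5a02)) e) e)) (c (c (c (p (nat_lit 0x1089780)) e) e) e))) (c
  (c (c (c (p (nat_lit 0x873600)) (c (m (nat_lit 0x773b02)) e)) (c (c (m (nat_lit 0x307686)) e) e)) (c (c (c
  (p (nat_lit 0x5b17a2)) e) e) e)) e)) (c (c (c (c (c (p (nat_lit 0x5fd036)) (c (m (nat_lit 0x38d84c)) e)) (c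
  (c (m (nat_lit 0x15d494)) e) e)) (c (c (c (p (nat_lit 0x283350)) e) e) e)) e) e)) (c (c (c (c (c (c (m
  (nat_lit 0x29c406)) (c (m (nat_lit 0x42b274)) e)) (c (c (m (nat_lit 0x7dc3a)) e) e)) (c (c (c (p (nat_lit
  0x51003c)) e) e) e)) e) e) e))) (c (c (c (c (c (c (c (m (nat_lit 0x2b96f26)) (c (m (nat_lit 0x2b4d5a)) (c
  (p (nat_lit 0xde174)) e))) (c (c (p (nat_lit 0x14a628e)) (c (m (nat_lit 0x1e0a1a)) e)) (c (c (p (nat_lit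
  0x54bca)) e) e))) (c (c (c (p (nat_lit 0xe3f202)) (c (m (nat_lit 0x5dfb10)) e)) (c (c (m (nat_lit
  0x8066dc)) e) e)) (c (c (c (m (nat_lit 0x3dcdb2)) e) e) e))) (c (c (c (c (m (nat_lit 0x785e62)) (c (m
  (nat_lit 0x29b9da)) e)) (c (c (m (nat_lit 0xa74708)) e) e)) (c (c (c (m (nat_lit 0x2438c04)) e) e) e)) (c
  (c (c (c (m (nat_lit 0xd45620)) e) e) e) e))) (c (c (c (c (c (m (nat_lit 0x56ee414)) (c (p (nat_lit
  0x129ce8e)) e)) (c (c (p (nat_lit 0x143d5dc)) e) e)) (c (c (c (m (nat_lit 0xd83e82)) e) e) e)) (c (c (c (c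
  (p (nat_lit 0x82c218)) e) e) e) e)) (c (c (c (c (c (p (nat_lit 0xe25240)) e) e) e) e) e))) (c (c (c (c (c
  (c (p (nat_lit 0x68f8038)) (c (m (nat_lit 0x1e5550)) e)) (c (c (p (nat_lit 0x31d97d2)) e) e)) (c (c (c (p
  (nat_lit 0x7ba45e0)) e) e) e)) (c (c (c (c (m (nat_lit 0x2b3848)) e) e) e) e)) (c (c (c (c (c (p (nat_lit
  0x219378)) e) e) e) e) e)) (c (c (c (c (c (c (m (nat_lit 0x4ddbca)) e) e) e) e) e) e))) (c (c (c (c (c (c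
  (c (m (nat_lit 0x6cf1da)) (c (m (nat_lit 0xc69726)) e)) (c (c (p (nat_lit 0x63c5d0)) e) e)) (c (c (c (p
  (nat_lit 0xf53fd0)) e) e) e)) (c (c (c (c (p (nat_lit 0x2543b1a)) e) e) e) e)) (c (c (c (c (c (p (nat_lit
  0x2534b8c)) e) e) e) e) e)) (c (c (c (c (c (c (m (nat_lit 0x4ad8268)) e) e) e) e) e) e)) (c (c (c (c (c (c
  (c (p (nat_lit 0x12037b0)) e) e) e) e) e) e) e))))) (c (c (c (c (c (c (c (c (p (nat_lit 0x475d62e)) (c (p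
  (nat_lit 0xd86f30)) (c (m (nat_lit 0x32db76)) e))) (c (c (p (nat_lit 0xd047cc)) (c (p (nat_lit 0x8735d6))
  e)) (c (c (m (nat_lit 0x29c430)) e) e))) (c (c (c (m (nat_lit 0x1c5d806)) (c (m (nat_lit 0x14e029c)) e)) (c
  (c (p (nat_lit 0x5fd02a)) e) e)) (c (c (c (p (nat_lit 0x1b2770e)) e) e) e))) (c (c (c (c (p (nat_lit
  0x42004d4)) (c (m (nat_lit 0x94705e)) (c (m (nat_lit 0x9180de)) e))) (c (c (p (nat_lit 0x2955d8)) (c (m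
  (nat_lit 0x773ae4)) e)) (c (c (m (nat_lit 0x42b23e)) e) e))) (c (c (c (m (nat_lit 0xc01f5c)) (c (p (nat_lit
  0xc8e1dc)) e)) (c (c (m (nat_lit 0x38d846)) e) e)) (c (c (c (m (nat_lit 0xa12626)) e) e) e))) (c (c (c (c
  (m (nat_lit 0x1c9d178)) (c (p (nat_lit 0x9d0a88)) e)) (c (c (m (nat_lit 0x7ca508)) e) e)) (c (c (c (p
  (nat_lit 0x5e908)) e) e) e)) e))) (c (c (c (c (c (m (nat_lit 0x234cbfa)) (c (p (nat_lit 0x4b8f46)) (c (p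
  (nat_lit 0x381b94)) e))) (c (c (m (nat_lit 0x16322e2)) (c (p (nat_lit 0x5b17c0)) e)) (c (c (p (nat_lit
  0x510078)) e) e))) (c (c (c (p (nat_lit 0x121fb4e)) (c (m (nat_lit 0x9e030a)) e)) (c (c (p (nat_lit
  0x283356)) e) e)) (c (c (c (m (nat_lit 0x9d1e56)) e) e) e))) (c (c (c (c (p (nat_lit 0x15b9970)) (c (p
  (nat_lit 0x26ad50)) e)) (c (c (m (nat_lit 0xbb69e0)) e) e)) (c (c (c (p (nat_lit 0x6a5f78)) e) e) e)) e))
  (c (c (c (c (c (p (nat_lit 0x102bdf0)) (c (p (nat_lit 0x7bfcc0)) e)) (c (c (p (nat_lit 0x10897e0)) e) e))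
  (c (c (c (p (nat_lit 0x13070e8)) e) e) e)) e) e))) (c (c (c (c (c (c (m (nat_lit 0x2ffa726)) (c (m (nat_lit
  0x19c9d8e)) (c (p (nat_lit 0xe0fe26)) e))) (c (c (m (nat_lit 0x25a268)) (c (m (nat_lit 0x30767a)) e)) (c (c
  (m (nat_lit 0x7dc28)) e) e))) (c (c (c (p (nat_lit 0x1690a5e)) (c (p (nat_lit 0xb318e2)) e)) (c (c (m
  (nat_lit 0x15d482)) e) e)) (c (c (c (m (nat_lit 0xdf94dc)) e) e) e))) (c (c (c (c (p (nat_lit 0x153768)) (c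
  (p (nat_lit 0x32dbc4)) e)) (c (c (p (nat_lit 0x326b7a)) e) e)) (c (c (c (m (nat_lit 0x4336e6)) e) e) e))
  e)) (c (c (c (c (c (p (nat_lit 0x1dff664)) (c (p (nat_lit 0x125322)) e)) (c (c (m (nat_lit 0x16f59f6)) e)
  e)) (c (c (c (m (nat_lit 0x329d48)) e) e) e)) e) e)) (c (c (c (c (c (c (m (nat_lit 0x14a97e)) (c (p
  (nat_lit 0xca89f6)) e)) (c (c (p (nat_lit 0x829a82)) e) e)) (c (c (c (p (nat_lit 0xcd49d6)) e) e) e)) e) e)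
  e))) (c (c (c (c (c (c (c (p (nat_lit 0x2c29392)) (c (m (nat_lit 0x3c9db48)) (c (p (nat_lit 0x59af84)) e)))
  (c (c (m (nat_lit 0x232a742)) (c (p (nat_lit 0x1640e8)) e)) (c (c (m (nat_lit 0x4bc51c)) e) e))) (c (c (c
  (p (nat_lit 0x2250a26)) (c (p (nat_lit 0x76c1c4)) e)) (c (c (m (nat_lit 0xf94d4)) e) e)) (c (c (c (m
  (nat_lit 0x5f5faa)) e) e) e))) (c (c (c (c (m (nat_lit 0x2eb95d0)) (c (p (nat_lit 0xcf1512)) e)) (c (c (p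
  (nat_lit 0x6d4124)) e) e)) (c (c (c (m (nat_lit 0x5db12a)) e) e) e)) (c (c (c (c (p (nat_lit 0x59af60)) e)
  e) e) e))) (c (c (c (c (c (p (nat_lit 0x1cc7d66)) (c (p (nat_lit 0x94d02e)) e)) (c (c (m (nat_lit
  0x1c83e4)) e) e)) (c (c (c (m (nat_lit 0xa0ef7e)) e) e) e)) (c (c (c (c (p (nat_lit 0x76c1d0)) e) e) e) e))
  (c (c (c (c (c (m (nat_lit 0x5f5fc8)) e) e) e) e) e))) (c (c (c (c (c (c (m (nat_lit 0x1ad12c6)) (c (p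
  (nat_lit 0x2ad926)) e)) (c (c (p (nat_lit 0xb59c1a)) e) e)) (c (c (c (m (nat_lit 0x19863d2)) e) e) e)) (c
  (c (c (c (p (nat_lit 0x1640e8)) e) e) e) e)) (c (c (c (c (c (m (nat_lit 0xf94ce)) e) e) e) e) e)) (c (c (c
  (c (c (c (m (nat_lit 0x4bc516)) e) e) e) e) e) e))) (c (c (c (c (c (c (c (m (nat_lit 0x5e6522e)) (c (p
  (nat_lit 0x251dd44)) e)) (c (c (p (nat_lit 0xe55c30)) e) e)) (c (c (c (p (nat_lit 0xe5edc8)) e) e) e)) (c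
  (c (c (c (p (nat_lit 0x68d3ae)) e) e) e) e)) (c (c (c (c (c (m (nat_lit 0xfe1a56)) e) e) e) e) e)) (c (c (c
  (c (c (c (p (nat_lit 0x5317fe)) e) e) e) e) e) e)) (c (c (c (c (c (c (c (m (nat_lit 0x14e838a)) e) e) e) e)
  e) e) e)))) (c (c (c (c (c (c (c (c (m (nat_lit 0x4960200)) (c (p (nat_lit 0x234ccb4)) (c (m (nat_lit
  0xd455fc)) e))) (c (c (p (nat_lit 0x1e02076)) (c (m (nat_lit 0x2b383c)) e)) (c (c (m (nat_lit 0x4ddbbe)) e)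
  e))) (c (c (c (m (nat_lit 0xdd8470)) (c (p (nat_lit 0x82c21e)) e)) (c (c (p (nat_lit 0x219372)) e) e)) (c
  (c (c (p (nat_lit 0xe2523a)) e) e) e))) (c (c (c (c (m (nat_lit 0x29fe50)) (c (p (nat_lit 0x71841c)) e)) (c
  (c (m (nat_lit 0x15e74e)) e) e)) (c (c (c (p (nat_lit 0x1009380)) e) e) e)) (c (c (c (c (p (nat_lit
  0xde180)) e) e) e) e))) (c (c (c (c (c (p (nat_lit 0x2ed5704)) (c (m (nat_lit 0x115a9ac)) e)) (c (c (m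
  (nat_lit 0xf3f9ae)) e) e)) (c (c (c (m (nat_lit 0x4a3118)) e) e) e)) (c (c (c (c (m (nat_lit 0x5dfb28)) e)
  e) e) e)) (c (c (c (c (c (m (nat_lit 0x3dcd70)) e) e) e) e) e))) (c (c (c (c (c (c (p (nat_lit 0x17abf40))
  (c (m (nat_lit 0x8d8a9c)) e)) (c (c (m (nat_lit 0x19bfae)) e) e)) (c (c (c (m (nat_lit 0xc656a)) e) e) e))
  (c (c (c (c (m (nat_lit 0x1e0a20)) e) e) e) e)) (c (c (c (c (c (m (nat_lit 0x8066d0)) e) e) e) e) e)) (c (c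
  (c (c (c (c (p (nat_lit 0x54be8)) e) e) e) e) e) e))) (c (c (c (c (c (c (c (m (nat_lit 0x375c942)) (c (p
  (nat_lit 0x25e7e)) e)) (c (c (p (nat_lit 0x93e09a)) e) e)) (c (c (c (m (nat_lit 0x6de036)) e) e) e)) (c (c
  (c (c (p (nat_lit 0xb4dbfc)) e) e) e) e)) (c (c (c (c (c (m (nat_lit 0xb24214)) e) e) e) e) e)) (c (c (c (c
  (c (c (p (nat_lit 0xee5daa)) e) e) e) e) e) e)) (c (c (c (c (c (c (c (p (nat_lit 0x3e0a852)) e) e) e) e) e)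
  e) e))) (c (c (c (c (c (c (c (c (p (nat_lit 0x2641566)) (c (m (nat_lit 0x61896)) e)) (c (c (m (nat_lit
  0x82ea20)) e) e)) (c (c (c (m (nat_lit 0x4d67ae)) e) e) e)) (c (c (c (c (m (nat_lit 0x931f02)) e) e) e) e))
  (c (c (c (c (c (m (nat_lit 0x90dbea)) e) e) e) e) e)) (c (c (c (c (c (c (m (nat_lit 0x1b9822)) e) e) e) e)
  e) e)) (c (c (c (c (c (c (c (p (nat_lit 0xa4b86)) e) e) e) e) e) e) e)) (c (c (c (c (c (c (c (c (m (nat_lit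
  0x9ab9d2)) e) e) e) e) e) e) e) e))))) (c (c (c (c (c (c (c (c (c (p (nat_lit 0x26a1380)) (c (p (nat_lit
  0x22747e)) (c (m (nat_lit 0x9422d6)) e))) (c (c (p (nat_lit 0x232f626)) (c (m (nat_lit 0xcb1a20)) e)) (c (c
  (m (nat_lit 0x1445bf2)) e) e))) (c (c (c (p (nat_lit 0x2a0ec22)) (c (p (nat_lit 0x398a36)) e)) (c (c (m
  (nat_lit 0x9e656e)) e) e)) (c (c (c (m (nat_lit 0xe5e5e2)) e) e) e))) (c (c (c (c (m (nat_lit 0x5227f8)) (c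
  (p (nat_lit 0x3c7b3cc)) (c (m (nat_lit 0x113a28e)) e))) (c (c (p (nat_lit 0x19ee18a)) (c (m (nat_lit
  0x65db2e)) e)) (c (c (m (nat_lit 0x16e852)) e) e))) (c (c (c (m (nat_lit 0x39c3ae)) (c (m (nat_lit
  0x1e5748)) e)) (c (c (p (nat_lit 0x319284)) e) e)) (c (c (c (p (nat_lit 0x1081506)) e) e) e))) (c (c (c (c
  (m (nat_lit 0x942318)) (c (m (nat_lit 0x113a270)) e)) (c (c (m (nat_lit 0xc8baa0)) e) e)) (c (c (c (p
  (nat_lit 0x5e6c50)) e) e) e)) e))) (c (c (c (c (c (p (nat_lit 0x642be4a)) (c (m (nat_lit 0x12c454e)) (c (p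
  (nat_lit 0x5e6c56)) e))) (c (c (m (nat_lit 0x32022d8)) (c (p (nat_lit 0x2e5474)) e)) (c (c (p (nat_lit
  0x9a78a4)) e) e))) (c (c (c (m (nat_lit 0x55212fc)) (c (m (nat_lit 0x9fafe0)) e)) (c (c (p (nat_lit
  0x97e2d0)) e) e)) (c (c (c (p (nat_lit 0x1639848)) e) e) e))) (c (c (c (c (p (nat_lit 0x398a78)) (c (m
  (nat_lit 0x1e5790)) e)) (c (c (p (nat_lit 0x9d3c20)) e) e)) (c (c (c (m (nat_lit 0x9fb010)) e) e) e)) e))
  (c (c (c (c (c (m (nat_lit 0xe5e618)) (c (p (nat_lit 0x1081548)) e)) (c (c (p (nat_lit 0x6de2d0)) e) e)) (c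
  (c (c (p (nat_lit 0x1639878)) e) e) e)) e) e))) (c (c (c (c (c (c (p (nat_lit 0x1da3240)) (c (p (nat_lit
  0x1e149d0)) (c (m (nat_lit 0xc8baa0)) e))) (c (c (m (nat_lit 0x12e110e)) (c (m (nat_lit 0x3aaa84)) e)) (c
  (c (p (nat_lit 0xf5e2)) e) e))) (c (c (c (m (nat_lit 0x1a442c6)) (c (p (nat_lit 0x9d3c32)) e)) (c (c (m
  (nat_lit 0x114aa4)) e) e)) (c (c (c (p (nat_lit 0x6de2e8)) e) e) e))) (c (c (c (c (m (nat_lit 0xcb1a2c)) (c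
  (m (nat_lit 0x65db2e)) e)) (c (c (m (nat_lit 0x3aaa9c)) e) e)) (c (c (c (p (nat_lit 0x2e5474)) e) e) e))
  e)) (c (c (c (c (c (m (nat_lit 0x9e6580)) (c (p (nat_lit 0x31929c)) e)) (c (c (m (nat_lit 0x114ab0)) e) e))
  (c (c (c (p (nat_lit 0x97e2e2)) e) e) e)) e) e)) (c (c (c (c (c (c (m (nat_lit 0x1445be6)) (c (m (nat_lit
  0x16e87c)) e)) (c (c (p (nat_lit 0xf5d0)) e) e)) (c (c (c (p (nat_lit 0x9a78aa)) e) e) e)) e) e) e))) (c (c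
  (c (c (c (c (c (p (nat_lit 0x1fc414e)) (c (m (nat_lit 0x244fe9c)) (c (p (nat_lit 0x1e1cd4)) e))) (c (c (m
  (nat_lit 0x9c32ca)) (c (p (nat_lit 0x4ceaec)) e)) (c (c (p (nat_lit 0x2aae36)) e) e))) (c (c (c (p (nat_lit
  0xae3f90)) (c (p (nat_lit 0xcbab7c)) e)) (c (c (p (nat_lit 0x5cacae)) e) e)) (c (c (c (m (nat_lit
  0xcca566)) e) e) e))) (c (c (c (c (m (nat_lit 0x1674fa8)) (c (m (nat_lit 0x28280a)) e)) (c (c (p (nat_lit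
  0xc1d4c0)) e) e)) (c (c (c (m (nat_lit 0x175ffe)) e) e) e)) (c (c (c (c (p (nat_lit 0x85f1e8)) e) e) e)
  e))) (c (c (c (c (c (m (nat_lit 0x1928934)) (c (p (nat_lit 0xa0b132)) e)) (c (c (p (nat_lit 0x1585dfa)) e)
  e)) (c (c (c (p (nat_lit 0xf3ec4)) e) e) e)) (c (c (c (c (m (nat_lit 0xa476d8)) e) e) e) e)) (c (c (c (c (c
  (m (nat_lit 0xa44348)) e) e) e) e) e))) (c (c (c (c (c (c (p (nat_lit 0x37bd470)) (c (m (nat_lit 0xa98a86))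
  e)) (c (c (p (nat_lit 0xc73aa)) e) e)) (c (c (c (p (nat_lit 0x37aad8)) e) e) e)) (c (c (c (c (p (nat_lit
  0x9f366)) e) e) e) e)) (c (c (c (c (c (m (nat_lit 0x352734)) e) e) e) e) e)) (c (c (c (c (c (c (p (nat_lit
  0x37da6)) e) e) e) e) e) e))) (c (c (c (c (c (c (c (m (nat_lit 0x1265c64)) (c (p (nat_lit 0x145153e)) e))
  (c (c (m (nat_lit 0x47fbc8)) e) e)) (c (c (c (p (nat_lit 0x1406f64)) e) e) e)) (c (c (c (c (m (nat_lit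
  0x129ccb4)) e) e) e) e)) (c (c (c (c (c (m (nat_lit 0xabe730)) e) e) e) e) e)) (c (c (c (c (c (c (m
  (nat_lit 0x2d05ba4)) e) e) e) e) e) e)) (c (c (c (c (c (c (c (m (nat_lit 0x54807fc)) e) e) e) e) e) e)
  e)))) (c (c (c (c (c (c (c (c (m (nat_lit 0x19fa754)) (c (m (nat_lit 0x4390e4e)) (c (p (nat_lit 0x85f1ca))
  e))) (c (c (m (nat_lit 0x18a538a)) (c (p (nat_lit 0x9f34e)) e)) (c (c (p (nat_lit 0x37d7c)) e) e))) (c (c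
  (c (p (nat_lit 0x807390)) (c (m (nat_lit 0xa47732)) e)) (c (c (m (nat_lit 0x352734)) e) e)) (c (c (c (m
  (nat_lit 0xa4435a)) e) e) e))) (c (c (c (c (m (nat_lit 0x9e1bac)) (c (p (nat_lit 0x788ee0)) e)) (c (c (m
  (nat_lit 0x1fc542)) e) e)) (c (c (c (p (nat_lit 0x1f6ddc)) e) e) e)) (c (c (c (c (p (nat_lit 0x1e1ce0)) e)
  e) e) e))) (c (c (c (c (c (p (nat_lit 0x9c4ff2)) (c (p (nat_lit 0x59dde0)) e)) (c (c (p (nat_lit 0xb0ae88))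
  e) e)) (c (c (c (p (nat_lit 0x1291c2)) e) e) e)) (c (c (c (c (p (nat_lit 0xcbab88)) e) e) e) e)) (c (c (c
  (c (c (m (nat_lit 0xcca590)) e) e) e) e) e))) (c (c (c (c (c (c (m (nat_lit 0xa23cae)) (c (p (nat_lit
  0x1093230)) e)) (c (c (p (nat_lit 0x125cd0)) e) e)) (c (c (c (p (nat_lit 0x5581ec)) e) e) e)) (c (c (c (c
  (p (nat_lit 0x4ceae6)) e) e) e) e)) (c (c (c (c (c (p (nat_lit 0x5cacb4)) e) e) e) e) e)) (c (c (c (c (c (c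
  (p (nat_lit 0x2aae24)) e) e) e) e) e) e))) (c (c (c (c (c (c (c (p (nat_lit 0x493b6)) (c (p (nat_lit
  0xb6a204)) e)) (c (c (p (nat_lit 0x15bcd06)) e) e)) (c (c (c (m (nat_lit 0x41a97e)) e) e) e)) (c (c (c (c
  (m (nat_lit 0x3e63fa)) e) e) e) e)) (c (c (c (c (c (m (nat_lit 0x487236)) e) e) e) e) e)) (c (c (c (c (c (c
  (m (nat_lit 0x20029e)) e) e) e) e) e) e)) (c (c (c (c (c (c (c (p (nat_lit 0x50e4c7c)) e) e) e) e) e) e)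
  e))) (c (c (c (c (c (c (c (c (m (nat_lit 0xe5292a)) (c (p (nat_lit 0x109e5d6)) e)) (c (c (p (nat_lit
  0x1250ae4)) e) e)) (c (c (c (p (nat_lit 0x1020a2)) e) e) e)) (c (c (c (c (p (nat_lit 0x69c894)) e) e) e)
  e)) (c (c (c (c (c (p (nat_lit 0x865a16)) e) e) e) e) e)) (c (c (c (c (c (c (p (nat_lit 0x81df92)) e) e) e)
  e) e) e)) (c (c (c (c (c (c (c (m (nat_lit 0x386cd1e)) e) e) e) e) e) e) e)) (c (c (c (c (c (c (c (c (p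
  (nat_lit 0xa33b30)) e) e) e) e) e) e) e) e)))) (c (c (c (c (c (c (c (c (c (m (nat_lit 0xcf8dde)) (c (m
  (nat_lit 0xe797f2)) (c (p (nat_lit 0xac20)) e))) (c (c (m (nat_lit 0x810cea)) (c (p (nat_lit 0x3c2754)) e))
  (c (c (p (nat_lit 0xa68d6e)) e) e))) (c (c (c (m (nat_lit 0x1e2a54)) (c (m (nat_lit 0x2ad494)) e)) (c (c (p
  (nat_lit 0x2b315e)) e) e)) (c (c (c (m (nat_lit 0x113448)) e) e) e))) (c (c (c (c (m (nat_lit 0x1ab53c)) (c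
  (p (nat_lit 0x19ff0bc)) e)) (c (c (p (nat_lit 0xbd2f4)) e) e)) (c (c (c (p (nat_lit 0x812dea)) e) e) e)) (c
  (c (c (c (p (nat_lit 0xac38)) e) e) e) e))) (c (c (c (c (c (m (nat_lit 0x13f05fc)) (c (p (nat_lit
  0x812dcc)) e)) (c (c (p (nat_lit 0xc71e2)) e) e)) (c (c (c (p (nat_lit 0xc068e2)) e) e) e)) (c (c (c (c (m
  (nat_lit 0x2ad4b8)) e) e) e) e)) (c (c (c (c (c (m (nat_lit 0x113430)) e) e) e) e) e))) (c (c (c (c (c (c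
  (m (nat_lit 0x761646)) (c (p (nat_lit 0xbd2dc)) e)) (c (c (p (nat_lit 0x697c1a)) e) e)) (c (c (c (p
  (nat_lit 0xc71ee)) e) e) e)) (c (c (c (c (p (nat_lit 0x3c2754)) e) e) e) e)) (c (c (c (c (c (p (nat_lit
  0x2b3164)) e) e) e) e) e)) (c (c (c (c (c (c (p (nat_lit 0xa68d68)) e) e) e) e) e) e))) (c (c (c (c (c (c
  (c (m (nat_lit 0x2e4abac)) (c (m (nat_lit 0x163f7a)) e)) (c (c (p (nat_lit 0x2f08ce)) e) e)) (c (c (c (m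
  (nat_lit 0x60dd5e)) e) e) e)) (c (c (c (c (m (nat_lit 0x131a3c0)) e) e) e) e)) (c (c (c (c (c (p (nat_lit
  0xab9930)) e) e) e) e) e)) (c (c (c (c (c (c (m (nat_lit 0xd65f60)) e) e) e) e) e) e)) (c (c (c (c (c (c (c
  (p (nat_lit 0x4daf7ec)) e) e) e) e) e) e) e))) (c (c (c (c (c (c (c (c (p (nat_lit 0x19a9736)) (c (m
  (nat_lit 0xe64c4e)) e)) (c (c (m (nat_lit 0x10c20cc)) e) e)) (c (c (c (m (nat_lit 0x4f814a)) e) e) e)) (c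
  (c (c (c (m (nat_lit 0x97cab8)) e) e) e) e)) (c (c (c (c (c (m (nat_lit 0x3b1c0c)) e) e) e) e) e)) (c (c (c
  (c (c (c (m (nat_lit 0x11af1e)) e) e) e) e) e) e)) (c (c (c (c (c (c (c (p (nat_lit 0x1c8402)) e) e) e) e)
  e) e) e)) (c (c (c (c (c (c (c (c (m (nat_lit 0x2f1fcc)) e) e) e) e) e) e) e) e))) (c (c (c (c (c (c (c (c
  (c (m (nat_lit 0x5a49aa)) (c (p (nat_lit 0x3644b8)) e)) (c (c (p (nat_lit 0x3d5a26)) e) e)) (c (c (c (p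
  (nat_lit 0x72864c)) e) e) e)) (c (c (c (c (p (nat_lit 0x3644b2)) e) e) e) e)) (c (c (c (c (c (p (nat_lit
  0x728634)) e) e) e) e) e)) (c (c (c (c (c (c (p (nat_lit 0x3d5a26)) e) e) e) e) e) e)) (c (c (c (c (c (c (c
  (m (nat_lit 0x76b39c)) e) e) e) e) e) e) e)) (c (c (c (c (c (c (c (c (m (nat_lit 0x4f8d2c)) e) e) e) e) e)
  e) e) e)) (c (c (c (c (c (c (c (c (c (p (nat_lit 0x4b3306)) e) e) e) e) e) e) e) e) e)))))

noncomputable def gt_0_3_6 : Tr :=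
  (c (c (c (c (c (c (c (c (c (m (nat_lit 0x11220ba)) (c (p (nat_lit 0x1410cde)) (c (m (nat_lit 0x1b708c))
  e))) (c (c (m (nat_lit 0x3361f80)) (c (m (nat_lit 0xf40e0)) e)) (c (c (p (nat_lit 0x19307c4)) e) e))) (c (c
  (c (m (nat_lit 0x1acb848)) (c (m (nat_lit 0x7cf1a6)) e)) (c (c (m (nat_lit 0x4b2010)) e) e)) (c (c (c (p
  (nat_lit 0x39fc18)) e) e) e))) (c (c (c (c (m (nat_lit 0x42db1a4)) (c (m (nat_lit 0x32f367c)) (c (p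
  (nat_lit 0x1d70258)) e))) (c (c (p (nat_lit 0x4248ffc)) (c (p (nat_lit 0x17e1910)) e)) (c (c (p (nat_lit
  0xa21140)) e) e))) (c (c (c (p (nat_lit 0x9a9317c)) (c (m (nat_lit 0x118f938)) e)) (c (c (m (nat_lit
  0x2ec3dd0)) e) e)) (c (c (c (m (nat_lit 0x2aed660)) e) e) e))) (c (c (c (c (p (nat_lit 0x39fb88)) (c (p
  (nat_lit 0x1ad67b0)) (c (m (nat_lit 0x7a9cb8)) e))) (c (c (m (nat_lit 0x24f0870)) (c (m (nat_lit
  0x10f9488)) e)) (c (c (m (nat_lit 0xc66a50)) e) e))) (c (c (c (m (nat_lit 0x2aed660)) (c (m (nat_lit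
  0x407970)) e)) (c (c (p (nat_lit 0xf7da00)) e) e)) (c (c (c (m (nat_lit 0x79aa0)) e) e) e))) e))) (c (c (c
  (c (c (m (nat_lit 0x38e660e)) (c (p (nat_lit 0x567ba24)) (c (m (nat_lit 0x292c938)) e))) (c (c (p (nat_lit
  0xb26110)) (c (m (nat_lit 0x169e768)) e)) (c (c (m (nat_lit 0x1849ad0)) e) e))) (c (c (c (p (nat_lit
  0x3320ed4)) (c (m (nat_lit 0x11e6fe0)) e)) (c (c (p (nat_lit 0x86f2b0)) e) e)) (c (c (c (m (nat_lit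
  0x24f0840)) e) e) e))) (c (c (c (c (m (nat_lit 0x4b20a0)) (c (m (nat_lit 0x3396c30)) (c (p (nat_lit
  0x1540bf0)) e))) (c (c (p (nat_lit 0x86f2e0)) (c (p (nat_lit 0x154e0)) e)) (c (c (p (nat_lit 0x942db0)) e)
  e))) (c (c (c (m (nat_lit 0x2ec3d70)) (c (p (nat_lit 0xdcb7b0)) e)) (c (c (p (nat_lit 0x12b7a80)) e) e)) (c
  (c (c (p (nat_lit 0xf7d9d0)) e) e) e))) e)) (c (c (c (c (c (p (nat_lit 0x1930770)) (c (m (nat_lit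
  0x384798)) (c (m (nat_lit 0x5e73e8)) e))) (c (c (m (nat_lit 0x1849b00)) (c (p (nat_lit 0x10c63b0)) e)) (c
  (c (p (nat_lit 0x1004cd0)) e) e))) (c (c (c (p (nat_lit 0xa21140)) (c (p (nat_lit 0x807090)) e)) (c (c (p
  (nat_lit 0x942de0)) e) e)) (c (c (c (m (nat_lit 0xc66a80)) e) e) e))) e) e))) (c (c (c (c (c (c (p (nat_lit
  0x18ed59a)) (c (m (nat_lit 0x1637238)) (c (p (nat_lit 0x165bd72)) e))) (c (c (p (nat_lit 0x525520e)) (c (p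
  (nat_lit 0x1ba07a)) e)) (c (c (m (nat_lit 0x3848c4)) e) e))) (c (c (c (m (nat_lit 0x4ab1b5c)) (c (p
  (nat_lit 0x14b8540)) e)) (c (c (m (nat_lit 0x3396c6c)) e) e)) (c (c (c (p (nat_lit 0x1ad6720)) e) e) e)))
  (c (c (c (c (m (nat_lit 0x7cf22a)) (c (p (nat_lit 0x14b8570)) (c (m (nat_lit 0x776ee)) e))) (c (c (m
  (nat_lit 0x11e7004)) (c (m (nat_lit 0x570a8c)) e)) (c (c (p (nat_lit 0x8070a8)) e) e))) (c (c (c (m
  (nat_lit 0x118f914)) (c (p (nat_lit 0xb3b20)) e)) (c (c (p (nat_lit 0xdcb7bc)) e) e)) (c (c (c (m (nat_lit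
  0x40797c)) e) e) e))) e)) (c (c (c (c (c (m (nat_lit 0xf40c2)) (c (p (nat_lit 0x1ba074)) (c (m (nat_lit
  0x518508)) e))) (c (c (m (nat_lit 0x169e75c)) (c (p (nat_lit 0xdd8d76)) e)) (c (c (p (nat_lit 0x10c63bc))
  e) e))) (c (c (c (p (nat_lit 0x17e18e0)) (c (m (nat_lit 0x570a86)) e)) (c (c (p (nat_lit 0x154ec)) e) e))
  (c (c (c (m (nat_lit 0x10f947c)) e) e) e))) e) e)) (c (c (c (c (c (c (m (nat_lit 0x1b702c)) (c (p (nat_lit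
  0x165bd5a)) (c (m (nat_lit 0x16744fe)) e))) (c (c (m (nat_lit 0x292c95c)) (c (m (nat_lit 0x518514)) e)) (c
  (c (m (nat_lit 0x5e73d0)) e) e))) (c (c (c (p (nat_lit 0x1d70240)) (c (m (nat_lit 0x776fa)) e)) (c (c (p
  (nat_lit 0x1540bf0)) e) e)) (c (c (c (m (nat_lit 0x7a9cd0)) e) e) e))) e) e) e))) (c (c (c (c (c (c (c (p
  (nat_lit 0x3af5936)) (c (m (nat_lit 0x300dbb4)) (c (m (nat_lit 0x14a930)) e))) (c (c (p (nat_lit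
  0x3fc8574)) (c (p (nat_lit 0x153756)) e)) (c (c (m (nat_lit 0x1c9d1fc)) e) e))) (c (c (c (m (nat_lit
  0x4327926)) (c (p (nat_lit 0x1dff628)) e)) (c (c (p (nat_lit 0x15b99e8)) e) e)) (c (c (c (p (nat_lit
  0x102bd9c)) e) e) e))) (c (c (c (c (p (nat_lit 0x2abcacc)) (c (m (nat_lit 0x16310a0)) (c (p (nat_lit
  0xcd49e8)) e))) (c (c (m (nat_lit 0x1dbdb4a)) (c (m (nat_lit 0x4336c8)) e)) (c (c (p (nat_lit 0x5e8f0)) e)
  e))) (c (c (c (p (nat_lit 0x1b007e6)) (c (m (nat_lit 0x329d30)) e)) (c (c (p (nat_lit 0x6a5f60)) e) e)) (c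
  (c (c (p (nat_lit 0x1307160)) e) e) e))) (c (c (c (c (p (nat_lit 0x1b277b0)) (c (m (nat_lit 0xdf9500)) e))
  (c (c (m (nat_lit 0xa12680)) e) e)) (c (c (c (m (nat_lit 0x9d1e98)) e) e) e)) e))) (c (c (c (c (c (p
  (nat_lit 0x1838b9e)) (c (m (nat_lit 0x1c54674)) (c (p (nat_lit 0xca89c0)) e))) (c (c (p (nat_lit 0x6cdf2))
  (c (p (nat_lit 0x32dbd0)) e)) (c (c (p (nat_lit 0x9d0a70)) e) e))) (c (c (c (p (nat_lit 0x26bf2f0)) (c (p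
  (nat_lit 0x125328)) e)) (c (c (p (nat_lit 0x26ad20)) e) e)) (c (c (c (p (nat_lit 0x7bfcf0)) e) e) e))) (c
  (c (c (c (m (nat_lit 0x14e02f0)) (c (p (nat_lit 0xb318b8)) e)) (c (c (p (nat_lit 0xc8e200)) e) e)) (c (c (c
  (m (nat_lit 0x9e0310)) e) e) e)) e)) (c (c (c (c (c (m (nat_lit 0x32dae0)) (c (p (nat_lit 0xe0fdf0)) e)) (c
  (c (m (nat_lit 0x918120)) e) e)) (c (c (c (p (nat_lit 0x381b70)) e) e) e)) e) e))) (c (c (c (c (c (c (m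
  (nat_lit 0x24cea)) (c (m (nat_lit 0x35cf958)) (c (p (nat_lit 0x829a58)) e))) (c (c (p (nat_lit 0x742c74))
  (c (p (nat_lit 0x326b74)) e)) (c (c (m (nat_lit 0x7ca4f0)) e) e))) (c (c (c (m (nat_lit 0x8958234)) (c (m
  (nat_lit 0x16f59ea)) e)) (c (c (m (nat_lit 0xbb69f8)) e) e)) (c (c (c (p (nat_lit 0x10897e0)) e) e) e))) (c
  (c (c (c (p (nat_lit 0x5fd060)) (c (m (nat_lit 0x15d48e)) e)) (c (c (m (nat_lit 0x38d852)) e) e)) (c (c (c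
  (p (nat_lit 0x283350)) e) e) e)) e)) (c (c (c (c (c (p (nat_lit 0x873600)) (c (m (nat_lit 0x30769e)) e)) (c
  (c (m (nat_lit 0x773b08)) e) e)) (c (c (c (p (nat_lit 0x5b178a)) e) e) e)) e) e)) (c (c (c (c (c (c (m
  (nat_lit 0x29c3dc)) (c (m (nat_lit 0x7dc4c)) e)) (c (c (m (nat_lit 0x42b27a)) e) e)) (c (c (c (p (nat_lit
  0x510042)) e) e) e)) e) e) e))) (c (c (c (c (c (c (c (m (nat_lit 0x2b96f50)) (c (p (nat_lit 0x14a6216)) (c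
  (p (nat_lit 0x54be8)) e))) (c (c (m (nat_lit 0x2b4d54)) (c (m (nat_lit 0x1e0a1a)) e)) (c (c (p (nat_lit
  0xde18c)) e) e))) (c (c (c (p (nat_lit 0xe3f21a)) (c (m (nat_lit 0x8066ca)) e)) (c (c (m (nat_lit
  0x5dfb10)) e) e)) (c (c (c (m (nat_lit 0x3dcd7c)) e) e) e))) (c (c (c (c (m (nat_lit 0x56ee444)) (c (p
  (nat_lit 0x143d5f4)) e)) (c (c (p (nat_lit 0x129cea6)) e) e)) (c (c (c (m (nat_lit 0xd83e6a)) e) e) e)) (c
  (c (c (c (p (nat_lit 0xe25240)) e) e) e) e))) (c (c (c (c (c (m (nat_lit 0x785e7a)) (c (m (nat_lit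
  0xa74720)) e)) (c (c (m (nat_lit 0x29b9da)) e) e)) (c (c (c (m (nat_lit 0x2438bec)) e) e) e)) (c (c (c (c
  (p (nat_lit 0x82c230)) e) e) e) e)) (c (c (c (c (c (m (nat_lit 0xd455f0)) e) e) e) e) e))) (c (c (c (c (c
  (c (p (nat_lit 0x68f7fea)) (c (p (nat_lit 0x31d97ea)) e)) (c (c (m (nat_lit 0x1e555c)) e) e)) (c (c (c (p
  (nat_lit 0x7ba45ec)) e) e) e)) (c (c (c (c (p (nat_lit 0x219384)) e) e) e) e)) (c (c (c (c (c (m (nat_lit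
  0x2b3842)) e) e) e) e) e)) (c (c (c (c (c (c (m (nat_lit 0x4ddbb8)) e) e) e) e) e) e))) (c (c (c (c (c (c
  (c (m (nat_lit 0x6cf19e)) (c (p (nat_lit 0x63c5dc)) e)) (c (c (m (nat_lit 0xc6971a)) e) e)) (c (c (c (p
  (nat_lit 0xf53fbe)) e) e) e)) (c (c (c (c (p (nat_lit 0x2534b74)) e) e) e) e)) (c (c (c (c (c (p (nat_lit
  0x2543b02)) e) e) e) e) e)) (c (c (c (c (c (c (m (nat_lit 0x4ad8280)) e) e) e) e) e) e)) (c (c (c (c (c (c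
  (c (p (nat_lit 0x1203798)) e) e) e) e) e) e) e))))) (c (c (c (c (c (c (c (c (p (nat_lit 0x26a12f6)) (c (p
  (nat_lit 0x232f5ba)) (c (m (nat_lit 0x1445ba4)) e))) (c (c (p (nat_lit 0x22746c)) (c (m (nat_lit 0xcb1a08))
  e)) (c (c (m (nat_lit 0x94230c)) e) e))) (c (c (c (p (nat_lit 0x2a0ebaa)) (c (m (nat_lit 0x9e657a)) e)) (c
  (c (p (nat_lit 0x398a9c)) e) e)) (c (c (c (m (nat_lit 0xe5e5e8)) e) e) e))) (c (c (c (c (p (nat_lit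
  0x642be9e)) (c (m (nat_lit 0x3202308)) (c (p (nat_lit 0x9a78aa)) e))) (c (c (m (nat_lit 0x12c4578)) (c (p
  (nat_lit 0x2e546e)) e)) (c (c (p (nat_lit 0x5e6c44)) e) e))) (c (c (c (m (nat_lit 0x5521344)) (c (p
  (nat_lit 0x97e2d6)) e)) (c (c (m (nat_lit 0x9fafec)) e) e)) (c (c (c (p (nat_lit 0x1639878)) e) e) e))) (c
  (c (c (c (m (nat_lit 0xe5e648)) (c (p (nat_lit 0x6de318)) e)) (c (c (p (nat_lit 0x1081518)) e) e)) (c (c (c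
  (p (nat_lit 0x1639890)) e) e) e)) e))) (c (c (c (c (c (m (nat_lit 0x522804)) (c (p (nat_lit 0x19ee1f6)) (c
  (m (nat_lit 0x16e870)) e))) (c (c (p (nat_lit 0x3c7b474)) (c (m (nat_lit 0x65db40)) e)) (c (c (m (nat_lit
  0x113a264)) e) e))) (c (c (c (m (nat_lit 0x39c3b4)) (c (p (nat_lit 0x3192a2)) e)) (c (c (m (nat_lit
  0x1e5754)) e) e)) (c (c (c (p (nat_lit 0x108153c)) e) e) e))) (c (c (c (c (p (nat_lit 0x398af0)) (c (p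
  (nat_lit 0x9d3c20)) e)) (c (c (m (nat_lit 0x1e5790)) e) e)) (c (c (c (m (nat_lit 0x9fb010)) e) e) e)) e))
  (c (c (c (c (c (m (nat_lit 0x942378)) (c (m (nat_lit 0xc8ba88)) e)) (c (c (m (nat_lit 0x113a258)) e) e)) (c
  (c (c (p (nat_lit 0x5e6c68)) e) e) e)) e) e))) (c (c (c (c (c (c (p (nat_lit 0x1da31b6)) (c (m (nat_lit
  0x12e10ea)) (c (p (nat_lit 0xf5fa)) e))) (c (c (p (nat_lit 0x1e14982)) (c (m (nat_lit 0x3aaa84)) e)) (c (c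
  (m (nat_lit 0xc8ba7c)) e) e))) (c (c (c (m (nat_lit 0x1a44380)) (c (m (nat_lit 0x114aa4)) e)) (c (c (p
  (nat_lit 0x9d3c50)) e) e)) (c (c (c (p (nat_lit 0x6de324)) e) e) e))) (c (c (c (c (m (nat_lit 0x9e65c8)) (c
  (m (nat_lit 0x114a98)) e)) (c (c (p (nat_lit 0x3192cc)) e) e)) (c (c (c (p (nat_lit 0x97e2fa)) e) e) e))
  e)) (c (c (c (c (c (m (nat_lit 0xcb1a1a)) (c (m (nat_lit 0x3aaa8a)) e)) (c (c (m (nat_lit 0x65db5e)) e) e))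
  (c (c (c (p (nat_lit 0x2e5474)) e) e) e)) e) e)) (c (c (c (c (c (c (m (nat_lit 0x1445bf2)) (c (p (nat_lit
  0xf5ee)) e)) (c (c (m (nat_lit 0x16e86a)) e) e)) (c (c (c (p (nat_lit 0x9a78d4)) e) e) e)) e) e) e))) (c (c
  (c (c (c (c (c (p (nat_lit 0x1fc9d28)) (c (m (nat_lit 0x9c29c4)) (c (p (nat_lit 0x2aae2a)) e))) (c (c (m
  (nat_lit 0x23af780)) (c (p (nat_lit 0x4ceae0)) e)) (c (c (p (nat_lit 0x1e1cd4)) e) e))) (c (c (c (p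
  (nat_lit 0xa3c530)) (c (p (nat_lit 0x5caca8)) e)) (c (c (p (nat_lit 0xcbab94)) e) e)) (c (c (c (m (nat_lit
  0xcca5a8)) e) e) e))) (c (c (c (c (m (nat_lit 0x194e3f2)) (c (p (nat_lit 0x15887b2)) e)) (c (c (p (nat_lit
  0x67ea02)) e) e)) (c (c (c (p (nat_lit 0x4c08ea)) e) e) e)) (c (c (c (c (m (nat_lit 0xa44348)) e) e) e)
  e))) (c (c (c (c (c (m (nat_lit 0x168f6fc)) (c (p (nat_lit 0xc1f5d2)) e)) (c (c (m (nat_lit 0x11d01e)) e)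
  e)) (c (c (c (m (nat_lit 0x2ad968)) e) e) e)) (c (c (c (c (m (nat_lit 0xa47708)) e) e) e) e)) (c (c (c (c
  (c (p (nat_lit 0x85f1d0)) e) e) e) e) e))) (c (c (c (c (c (c (p (nat_lit 0x37d4cb4)) (c (p (nat_lit
  0xc6f6c)) e)) (c (c (m (nat_lit 0x602d72)) e) e)) (c (c (c (m (nat_lit 0x13e7b0)) e) e) e)) (c (c (c (c (m
  (nat_lit 0x352752)) e) e) e) e)) (c (c (c (c (c (p (nat_lit 0x9f384)) e) e) e) e) e)) (c (c (c (c (c (c (p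
  (nat_lit 0x37d9a)) e) e) e) e) e) e))) (c (c (c (c (c (c (c (m (nat_lit 0x13d06ca)) (c (m (nat_lit
  0x474f0c)) e)) (c (c (p (nat_lit 0x1250c3a)) e) e)) (c (c (c (p (nat_lit 0x176a312)) e) e) e)) (c (c (c (c
  (m (nat_lit 0x89b45e)) e) e) e) e)) (c (c (c (c (c (m (nat_lit 0x13da52e)) e) e) e) e) e)) (c (c (c (c (c
  (c (m (nat_lit 0x3072b8e)) e) e) e) e) e) e)) (c (c (c (c (c (c (c (m (nat_lit 0x5380566)) e) e) e) e) e)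
  e) e)))) (c (c (c (c (c (c (c (c (m (nat_lit 0xcf8d2a)) (c (m (nat_lit 0x810d50)) (c (p (nat_lit 0xa68d7a))
  e))) (c (c (m (nat_lit 0xe79804)) (c (p (nat_lit 0x3c274e)) e)) (c (c (p (nat_lit 0xac44)) e) e))) (c (c (c
  (m (nat_lit 0x1e2a42)) (c (p (nat_lit 0x2b316a)) e)) (c (c (m (nat_lit 0x2ad4a0)) e) e)) (c (c (c (m
  (nat_lit 0x11343c)) e) e) e))) (c (c (c (c (m (nat_lit 0x13f0614)) (c (p (nat_lit 0xc71e2)) e)) (c (c (p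
  (nat_lit 0x812dde)) e) e)) (c (c (c (p (nat_lit 0xc068ca)) e) e) e)) (c (c (c (c (m (nat_lit 0x113460)) e)
  e) e) e))) (c (c (c (c (c (m (nat_lit 0x1ab560)) (c (p (nat_lit 0xbd2e8)) e)) (c (c (p (nat_lit 0x19ff0ec))
  e) e)) (c (c (c (p (nat_lit 0x812de4)) e) e) e)) (c (c (c (c (m (nat_lit 0x2ad4b8)) e) e) e) e)) (c (c (c
  (c (c (p (nat_lit 0xac20)) e) e) e) e) e))) (c (c (c (c (c (c (m (nat_lit 0x76163a)) (c (p (nat_lit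
  0x697c1a)) e)) (c (c (p (nat_lit 0xbd2ca)) e) e)) (c (c (c (p (nat_lit 0xc71e8)) e) e) e)) (c (c (c (c (p
  (nat_lit 0x2b3170)) e) e) e) e)) (c (c (c (c (c (p (nat_lit 0x3c2736)) e) e) e) e) e)) (c (c (c (c (c (c (p
  (nat_lit 0xa68d5c)) e) e) e) e) e) e))) (c (c (c (c (c (c (c (m (nat_lit 0x2d76f80)) (c (p (nat_lit
  0x2ef1a0)) e)) (c (c (p (nat_lit 0x279f3c)) e) e)) (c (c (c (m (nat_lit 0xa3977c)) e) e) e)) (c (c (c (c (p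
  (nat_lit 0x82d0fa)) e) e) e) e)) (c (c (c (c (c (m (nat_lit 0x1226c34)) e) e) e) e) e)) (c (c (c (c (c (c
  (m (nat_lit 0x9b82e4)) e) e) e) e) e) e)) (c (c (c (c (c (c (c (p (nat_lit 0x483189c)) e) e) e) e) e) e)
  e))) (c (c (c (c (c (c (c (c (m (nat_lit 0x5a49bc)) (c (p (nat_lit 0x3d5a20)) e)) (c (c (p (nat_lit
  0x3644ac)) e) e)) (c (c (c (p (nat_lit 0x728646)) e) e) e)) (c (c (c (c (p (nat_lit 0x72863a)) e) e) e) e))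
  (c (c (c (c (c (p (nat_lit 0x3644be)) e) e) e) e) e)) (c (c (c (c (c (c (p (nat_lit 0x3d5a0e)) e) e) e) e)
  e) e)) (c (c (c (c (c (c (c (m (nat_lit 0x4bef10)) e) e) e) e) e) e) e)) (c (c (c (c (c (c (c (c (p
  (nat_lit 0x4b3300)) e) e) e) e) e) e) e) e))))) (c (c (c (c (c (c (c (c (c (p (nat_lit 0x475d62e)) (c (p
  (nat_lit 0xd047f0)) (c (m (nat_lit 0x29c478)) e))) (c (c (p (nat_lit 0xd86f6c)) (c (p (nat_lit 0x8735c4))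
  e)) (c (c (m (nat_lit 0x32db88)) e) e))) (c (c (c (m (nat_lit 0x1c5d7d0)) (c (p (nat_lit 0x5fd012)) e)) (c
  (c (m (nat_lit 0x14e0344)) e) e)) (c (c (c (p (nat_lit 0x1b27714)) e) e) e))) (c (c (c (c (m (nat_lit
  0x234cbee)) (c (m (nat_lit 0x1632348)) (c (p (nat_lit 0x5100a8)) e))) (c (c (p (nat_lit 0x4b8ee0)) (c (p
  (nat_lit 0x5b17cc)) e)) (c (c (p (nat_lit 0x381bd0)) e) e))) (c (c (c (p (nat_lit 0x121faac)) (c (p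
  (nat_lit 0x28335c)) e)) (c (c (m (nat_lit 0x9e02c8)) e) e)) (c (c (c (m (nat_lit 0x9d1e20)) e) e) e))) (c
  (c (c (c (p (nat_lit 0x102bdc0)) (c (p (nat_lit 0x10897c8)) e)) (c (c (p (nat_lit 0x7bfd20)) e) e)) (c (c
  (c (p (nat_lit 0x1307160)) e) e) e)) e))) (c (c (c (c (c (p (nat_lit 0x4200618)) (c (p (nat_lit 0x2954ee))
  (c (m (nat_lit 0x42b22c)) e))) (c (c (m (nat_lit 0x9470c4)) (c (m (nat_lit 0x773aea)) e)) (c (c (m (nat_lit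
  0x9180d8)) e) e))) (c (c (c (m (nat_lit 0xc01fb0)) (c (m (nat_lit 0x38d83a)) e)) (c (c (p (nat_lit
  0xc8e218)) e) e)) (c (c (c (m (nat_lit 0xa1262c)) e) e) e))) (c (c (c (c (p (nat_lit 0x15b99d0)) (c (m
  (nat_lit 0xbb69e0)) e)) (c (c (p (nat_lit 0x26ad20)) e) e)) (c (c (c (p (nat_lit 0x6a5f60)) e) e) e)) e))
  (c (c (c (c (c (m (nat_lit 0x1c9d1f0)) (c (m (nat_lit 0x7ca508)) e)) (c (c (p (nat_lit 0x9d0a70)) e) e)) (c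
  (c (c (p (nat_lit 0x5e8f0)) e) e) e)) e) e))) (c (c (c (c (c (c (m (nat_lit 0x2ffa876)) (c (m (nat_lit
  0x25a172)) (c (m (nat_lit 0x7dc3a)) e))) (c (c (m (nat_lit 0x19c9d0a)) (c (m (nat_lit 0x307692)) e)) (c (c
  (p (nat_lit 0xe0fe08)) e) e))) (c (c (c (p (nat_lit 0x1690ab8)) (c (m (nat_lit 0x15d48e)) e)) (c (c (p
  (nat_lit 0xb318d0)) e) e)) (c (c (c (m (nat_lit 0xdf94f4)) e) e) e))) (c (c (c (c (p (nat_lit 0x1dff670))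
  (c (m (nat_lit 0x16f5a20)) e)) (c (c (p (nat_lit 0x12531c)) e) e)) (c (c (c (m (nat_lit 0x329d60)) e) e)
  e)) e)) (c (c (c (c (c (p (nat_lit 0x15373e)) (c (p (nat_lit 0x326b7a)) e)) (c (c (p (nat_lit 0x32dbe8)) e)
  e)) (c (c (c (m (nat_lit 0x4336c8)) e) e) e)) e) e)) (c (c (c (c (c (c (m (nat_lit 0x14a95a)) (c (p
  (nat_lit 0x829a82)) e)) (c (c (p (nat_lit 0xca89f0)) e) e)) (c (c (c (p (nat_lit 0xcd49d0)) e) e) e)) e) e)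
  e))) (c (c (c (c (c (c (c (p (nat_lit 0x2c53af4)) (c (m (nat_lit 0x2212674)) (c (m (nat_lit 0x4bc4fe)) e)))
  (c (c (m (nat_lit 0x3d6756e)) (c (p (nat_lit 0x1640ee)) e)) (c (c (p (nat_lit 0x59af54)) e) e))) (c (c (c
  (p (nat_lit 0x22a758e)) (c (m (nat_lit 0xf94da)) e)) (c (c (p (nat_lit 0x76c1dc)) e) e)) (c (c (c (m
  (nat_lit 0x5f5fc8)) e) e) e))) (c (c (c (c (p (nat_lit 0x1d1e7f6)) (c (p (nat_lit 0x6f34e)) e)) (c (c (p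
  (nat_lit 0x79c512)) e) e)) (c (c (c (m (nat_lit 0x9819ea)) e) e) e)) (c (c (c (c (m (nat_lit 0x5f5fc8)) e)
  e) e) e))) (c (c (c (c (c (m (nat_lit 0x2f83008)) (c (p (nat_lit 0x176e74)) e)) (c (c (p (nat_lit
  0x10dc2da)) e) e)) (c (c (c (m (nat_lit 0x78bc46)) e) e) e)) (c (c (c (c (p (nat_lit 0x76c1d0)) e) e) e)
  e)) (c (c (c (c (c (p (nat_lit 0x59af60)) e) e) e) e) e))) (c (c (c (c (c (c (m (nat_lit 0x19b91b6)) (c (p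
  (nat_lit 0x12af056)) e)) (c (c (m (nat_lit 0x2af9e4)) e) e)) (c (c (c (m (nat_lit 0x174ec82)) e) e) e)) (c
  (c (c (c (m (nat_lit 0xf94c8)) e) e) e) e)) (c (c (c (c (c (p (nat_lit 0x1640dc)) e) e) e) e) e)) (c (c (c
  (c (c (c (m (nat_lit 0x4bc51c)) e) e) e) e) e) e))) (c (c (c (c (c (c (c (m (nat_lit 0x5e1c5a4)) (c (p
  (nat_lit 0xa75b18)) e)) (c (c (p (nat_lit 0x277885e)) e) e)) (c (c (c (p (nat_lit 0xc7aa12)) e) e) e)) (c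
  (c (c (c (m (nat_lit 0xe100ba)) e) e) e) e)) (c (c (c (c (c (p (nat_lit 0x25d8f2)) e) e) e) e) e)) (c (c (c
  (c (c (c (p (nat_lit 0xae83a6)) e) e) e) e) e) e)) (c (c (c (c (c (c (c (m (nat_lit 0x17418fc)) e) e) e) e)
  e) e) e)))) (c (c (c (c (c (c (c (c (m (nat_lit 0x19fa6b8)) (c (m (nat_lit 0x18a5402)) (c (p (nat_lit
  0x37d58)) e))) (c (c (m (nat_lit 0x4390e2a)) (c (p (nat_lit 0x9f354)) e)) (c (c (p (nat_lit 0x85f1c4)) e)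
  e))) (c (c (c (p (nat_lit 0x80741a)) (c (m (nat_lit 0x352740)) e)) (c (c (m (nat_lit 0xa47744)) e) e)) (c
  (c (c (m (nat_lit 0xa44390)) e) e) e))) (c (c (c (c (p (nat_lit 0x9c5004)) (c (p (nat_lit 0xb0ae88)) e)) (c
  (c (p (nat_lit 0x59dd9e)) e) e)) (c (c (c (p (nat_lit 0x1291aa)) e) e) e)) (c (c (c (c (m (nat_lit
  0xcca590)) e) e) e) e))) (c (c (c (c (c (m (nat_lit 0x9e1b88)) (c (m (nat_lit 0x1fc566)) e)) (c (c (p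
  (nat_lit 0x788e86)) e) e)) (c (c (c (p (nat_lit 0x1f6db8)) e) e) e)) (c (c (c (c (p (nat_lit 0xcbab70)) e)
  e) e) e)) (c (c (c (c (c (p (nat_lit 0x1e1d10)) e) e) e) e) e))) (c (c (c (c (c (c (m (nat_lit 0xa23c1e))
  (c (p (nat_lit 0x125ca0)) e)) (c (c (p (nat_lit 0x109322a)) e) e)) (c (c (c (p (nat_lit 0x5581f2)) e) e)
  e)) (c (c (c (c (p (nat_lit 0x5cacc6)) e) e) e) e)) (c (c (c (c (c (p (nat_lit 0x4ceae6)) e) e) e) e) e))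
  (c (c (c (c (c (c (p (nat_lit 0x2aae1e)) e) e) e) e) e) e))) (c (c (c (c (c (c (c (m (nat_lit 0x14f148)) (c
  (p (nat_lit 0xeaa10a)) e)) (c (c (p (nat_lit 0xc37110)) e) e)) (c (c (c (m (nat_lit 0x1dabca)) e) e) e)) (c
  (c (c (c (m (nat_lit 0x5872a4)) e) e) e) e)) (c (c (c (c (c (p (nat_lit 0x204060)) e) e) e) e) e)) (c (c (c
  (c (c (c (m (nat_lit 0x9531fc)) e) e) e) e) e) e)) (c (c (c (c (c (c (c (p (nat_lit 0x592a958)) e) e) e) e)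
  e) e) e))) (c (c (c (c (c (c (c (c (p (nat_lit 0x19a9748)) (c (m (nat_lit 0x10c20d8)) e)) (c (c (m (nat_lit
  0xe64c66)) e) e)) (c (c (c (m (nat_lit 0x4f8168)) e) e) e)) (c (c (c (c (m (nat_lit 0x3b1c30)) e) e) e) e))
  (c (c (c (c (c (m (nat_lit 0x97caac)) e) e) e) e) e)) (c (c (c (c (c (c (m (nat_lit 0x11af06)) e) e) e) e)
  e) e)) (c (c (c (c (c (c (c (p (nat_lit 0x21e33a)) e) e) e) e) e) e) e)) (c (c (c (c (c (c (c (c (m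
  (nat_lit 0x4f8d0e)) e) e) e) e) e) e) e) e)))) (c (c (c (c (c (c (c (c (c (m (nat_lit 0x496026c)) (c (p
  (nat_lit 0x1e02106)) (c (m (nat_lit 0x4ddba6)) e))) (c (c (p (nat_lit 0x234cca8)) (c (m (nat_lit 0x2b3836))
  e)) (c (c (m (nat_lit 0xd455e4)) e) e))) (c (c (c (m (nat_lit 0xdd84e8)) (c (p (nat_lit 0x21938a)) e)) (c
  (c (p (nat_lit 0x82c248)) e) e)) (c (c (c (p (nat_lit 0xe25270)) e) e) e))) (c (c (c (c (p (nat_lit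
  0x2ed57b2)) (c (m (nat_lit 0xf3f9f6)) e)) (c (c (m (nat_lit 0x115a9d0)) e) e)) (c (c (c (m (nat_lit
  0x4a3124)) e) e) e)) (c (c (c (c (m (nat_lit 0x3dcda0)) e) e) e) e))) (c (c (c (c (c (m (nat_lit 0x29fe7a))
  (c (m (nat_lit 0x15e76c)) e)) (c (c (p (nat_lit 0x718428)) e) e)) (c (c (c (p (nat_lit 0x1009398)) e) e)
  e)) (c (c (c (c (m (nat_lit 0x5dfaf8)) e) e) e) e)) (c (c (c (c (c (p (nat_lit 0xde198)) e) e) e) e) e)))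
  (c (c (c (c (c (c (p (nat_lit 0x17abf6a)) (c (m (nat_lit 0x19bfba)) e)) (c (c (m (nat_lit 0x8d8acc)) e) e))
  (c (c (c (m (nat_lit 0xc6588)) e) e) e)) (c (c (c (c (m (nat_lit 0x8066d6)) e) e) e) e)) (c (c (c (c (c (m
  (nat_lit 0x1e0a1a)) e) e) e) e) e)) (c (c (c (c (c (c (p (nat_lit 0x54bf4)) e) e) e) e) e) e))) (c (c (c (c
  (c (c (c (m (nat_lit 0x3713d2a)) (c (p (nat_lit 0xef4c06)) e)) (c (c (m (nat_lit 0x409c26)) e) e)) (c (c (c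
  (m (nat_lit 0x50c6a6)) e) e) e)) (c (c (c (c (m (nat_lit 0xd0858e)) e) e) e) e)) (c (c (c (c (c (p (nat_lit
  0xda8758)) e) e) e) e) e)) (c (c (c (c (c (c (p (nat_lit 0xb05c8c)) e) e) e) e) e) e)) (c (c (c (c (c (c (c
  (p (nat_lit 0x403d700)) e) e) e) e) e) e) e))) (c (c (c (c (c (c (c (c (m (nat_lit 0xe529f6)) (c (p
  (nat_lit 0x1250b26)) e)) (c (c (p (nat_lit 0x109e624)) e) e)) (c (c (c (p (nat_lit 0x1020d8)) e) e) e)) (c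
  (c (c (c (p (nat_lit 0x865a22)) e) e) e) e)) (c (c (c (c (c (p (nat_lit 0x69c864)) e) e) e) e) e)) (c (c (c
  (c (c (c (p (nat_lit 0x81df62)) e) e) e) e) e) e)) (c (c (c (c (c (c (c (m (nat_lit 0x38efa34)) e) e) e) e)
  e) e) e)) (c (c (c (c (c (c (c (c (m (nat_lit 0x2f1fea)) e) e) e) e) e) e) e) e))) (c (c (c (c (c (c (c (c
  (c (p (nat_lit 0x264160e)) (c (m (nat_lit 0x82ea6e)) e)) (c (c (m (nat_lit 0x618c0)) e) e)) (c (c (c (m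
  (nat_lit 0x4d67b4)) e) e) e)) (c (c (c (c (m (nat_lit 0x90dc20)) e) e) e) e)) (c (c (c (c (c (m (nat_lit
  0x931f32)) e) e) e) e) e)) (c (c (c (c (c (c (m (nat_lit 0x1b9822)) e) e) e) e) e) e)) (c (c (c (c (c (c (c
  (m (nat_lit 0x1b49bc)) e) e) e) e) e) e) e)) (c (c (c (c (c (c (c (c (p (nat_lit 0xa33b78)) e) e) e) e) e)
  e) e) e)) (c (c (c (c (c (c (c (c (c (m (nat_lit 0x9ab9fc)) e) e) e) e) e) e) e) e) e)))))

noncomputable def gt_0_3_7 : Tr :=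
  (c (c (c (c (c (c (c (c (c (p (nat_lit 0x10c86fc)) (c (m (nat_lit 0x3c43746)) (c (p (nat_lit 0x1eea510))
  e))) (c (c (m (nat_lit 0x3c4336e)) (c (p (nat_lit 0x1085d18)) e)) (c (c (p (nat_lit 0x1eea648)) e) e))) (c
  (c (c (m (nat_lit 0xc6eb20)) (c (p (nat_lit 0x4e7530)) e)) (c (c (p (nat_lit 0x4e76e0)) e) e)) (c (c (c (m
  (nat_lit 0xb1fba0)) e) e) e))) (c (c (c (c (m (nat_lit 0x4d3af24)) (c (p (nat_lit 0x2c742cc)) (c (m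
  (nat_lit 0x1168800)) e))) (c (c (p (nat_lit 0x1eaf69e)) (c (m (nat_lit 0xf7fb00)) e)) (c (c (p (nat_lit
  0x1bb100)) e) e))) (c (c (c (p (nat_lit 0x2bd9df6)) (c (m (nat_lit 0x13bf6c0)) e)) (c (c (m (nat_lit
  0xdb2ca0)) e) e)) (c (c (c (m (nat_lit 0xb881e0)) e) e) e))) (c (c (c (c (p (nat_lit 0x114fb70)) (c (m
  (nat_lit 0x691e00)) (c (p (nat_lit 0x836580)) e))) (c (c (m (nat_lit 0x1fac580)) (c (p (nat_lit 0x84e0a0))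
  e)) (c (c (m (nat_lit 0xd8fea0)) e) e))) (c (c (c (m (nat_lit 0x1941ae0)) (c (p (nat_lit 0xab9de0)) e)) (c
  (c (p (nat_lit 0x88ef00)) e) e)) (c (c (c (p (nat_lit 0x72cd80)) e) e) e))) e))) (c (c (c (c (c (m (nat_lit
  0x4d3b014)) (c (p (nat_lit 0x1eaf6fe)) (c (p (nat_lit 0x1bb160)) e))) (c (c (p (nat_lit 0x2c7408c)) (c (m
  (nat_lit 0xf7fb00)) e)) (c (c (m (nat_lit 0x11688c0)) e) e))) (c (c (c (p (nat_lit 0x2bd9d96)) (c (m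
  (nat_lit 0xdb2ca0)) e)) (c (c (m (nat_lit 0x13bf660)) e) e)) (c (c (c (m (nat_lit 0xb881e0)) e) e) e))) (c
  (c (c (c (m (nat_lit 0x129c630)) (c (p (nat_lit 0x100aa60)) (c (m (nat_lit 0x896100)) e))) (c (c (p
  (nat_lit 0x100aa60)) (c (p (nat_lit 0x72ca80)) e)) (c (c (m (nat_lit 0x896160)) e) e))) (c (c (c (p
  (nat_lit 0x60e8e0)) (c (p (nat_lit 0x608b80)) e)) (c (c (p (nat_lit 0x608b80)) e) e)) (c (c (c (m (nat_lit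
  0x1413300)) e) e) e))) e)) (c (c (c (c (c (p (nat_lit 0x114fbd0)) (c (m (nat_lit 0x1fac640)) (c (m (nat_lit
  0xd8fe40)) e))) (c (c (m (nat_lit 0x691ec0)) (c (p (nat_lit 0x84e100)) e)) (c (c (p (nat_lit 0x836640)) e)
  e))) (c (c (c (m (nat_lit 0x1941ae0)) (c (p (nat_lit 0x88ef00)) e)) (c (c (p (nat_lit 0xab9d80)) e) e)) (c
  (c (c (p (nat_lit 0x72cd80)) e) e) e))) e) e))) (c (c (c (c (c (c (p (nat_lit 0x2978538)) (c (m (nat_lit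
  0x1f93b2a)) (c (p (nat_lit 0xfdf428)) e))) (c (c (m (nat_lit 0x1f93b12)) (c (p (nat_lit 0xcafa88)) e)) (c
  (c (p (nat_lit 0xfdf488)) e) e))) (c (c (c (m (nat_lit 0x6f5a840)) (c (m (nat_lit 0xa5bbc8)) e)) (c (c (m
  (nat_lit 0xa5bbb0)) e) e)) (c (c (c (p (nat_lit 0x3c9f4b0)) e) e) e))) (c (c (c (c (m (nat_lit 0x39d344))
  (c (m (nat_lit 0x97d3d0)) (c (p (nat_lit 0x779e20)) e))) (c (c (p (nat_lit 0x4a06e8)) (c (p (nat_lit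
  0x8cb68)) e)) (c (c (m (nat_lit 0x886ba8)) e) e))) (c (c (c (p (nat_lit 0x6c0828)) (c (p (nat_lit
  0x4daca8)) e)) (c (c (m (nat_lit 0x70380)) e) e)) (c (c (c (m (nat_lit 0xa081f8)) e) e) e))) e)) (c (c (c
  (c (c (m (nat_lit 0x39d32c)) (c (p (nat_lit 0x4a06e8)) (c (m (nat_lit 0x886bd8)) e))) (c (c (m (nat_lit
  0x97d3a0)) (c (p (nat_lit 0x8cb50)) e)) (c (c (p (nat_lit 0x779e20)) e) e))) (c (c (c (p (nat_lit
  0x6c0840)) (c (m (nat_lit 0x70380)) e)) (c (c (p (nat_lit 0x4dac90)) e) e)) (c (c (c (m (nat_lit 0xa08210))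
  e) e) e))) e) e)) (c (c (c (c (c (c (m (nat_lit 0x11b5e1c)) (c (p (nat_lit 0x4c3bf0)) (c (m (nat_lit
  0xaf67d0)) e))) (c (c (p (nat_lit 0x4c3bc0)) (c (m (nat_lit 0xc7fce0)) e)) (c (c (m (nat_lit 0xaf67d0)) e)
  e))) (c (c (c (p (nat_lit 0x257e878)) (c (p (nat_lit 0x95cf10)) e)) (c (c (p (nat_lit 0x95cef8)) e) e)) (c
  (c (c (m (nat_lit 0xf135d8)) e) e) e))) e) e) e))) (c (c (c (c (c (c (c (m (nat_lit 0x1bf4170)) (c (p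
  (nat_lit 0x5561a5a)) (c (m (nat_lit 0x202c7e8)) e))) (c (c (p (nat_lit 0x5561982)) (c (m (nat_lit
  0xab5478)) e)) (c (c (m (nat_lit 0x202c7b8)) e) e))) (c (c (c (p (nat_lit 0xb7edfc)) (c (p (nat_lit
  0xe4c7e0)) e)) (c (c (p (nat_lit 0xe4c7c8)) e) e)) (c (c (c (p (nat_lit 0x2bb3990)) e) e) e))) (c (c (c (c
  (p (nat_lit 0x1ae099e)) (c (p (nat_lit 0x1ec9eac)) (c (p (nat_lit 0xeb5ae0)) e))) (c (c (m (nat_lit
  0xdf5ea0)) (c (p (nat_lit 0x90e0a0)) e)) (c (c (m (nat_lit 0x976f20)) e) e))) (c (c (c (p (nat_lit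
  0x74b15f2)) (c (m (nat_lit 0x2f50e0)) e)) (c (c (m (nat_lit 0x27ed00)) e) e)) (c (c (c (m (nat_lit
  0x2ab4960)) e) e) e))) (c (c (c (c (p (nat_lit 0x3ae6e70)) (c (m (nat_lit 0xc78cc0)) e)) (c (c (m (nat_lit
  0xb66ee0)) e) e)) (c (c (c (m (nat_lit 0xf03d80)) e) e) e)) e))) (c (c (c (c (c (p (nat_lit 0x1ae0c3e)) (c
  (m (nat_lit 0xdf5f00)) (c (m (nat_lit 0x976ec0)) e))) (c (c (p (nat_lit 0x1ec9e4c)) (c (p (nat_lit
  0x90e0a0)) e)) (c (c (p (nat_lit 0xeb5ae0)) e) e))) (c (c (c (p (nat_lit 0x74b1538)) (c (m (nat_lit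
  0x27ed00)) e)) (c (c (m (nat_lit 0x2f50e0)) e) e)) (c (c (c (m (nat_lit 0x2ab4900)) e) e) e))) (c (c (c (c
  (m (nat_lit 0x987660)) (c (p (nat_lit 0x7c8900)) e)) (c (c (p (nat_lit 0x7c8900)) e) e)) (c (c (c (m
  (nat_lit 0x225180)) e) e) e)) e)) (c (c (c (c (c (p (nat_lit 0x3ae6e40)) (c (m (nat_lit 0xb66ee0)) e)) (c
  (c (m (nat_lit 0xc78cc0)) e) e)) (c (c (c (m (nat_lit 0xf03d20)) e) e) e)) e) e))) (c (c (c (c (c (c (p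
  (nat_lit 0x328a958)) (c (m (nat_lit 0x2803d88)) (c (p (nat_lit 0x106fd58)) e))) (c (c (m (nat_lit
  0x2803d58)) (c (p (nat_lit 0xa3cfe0)) e)) (c (c (p (nat_lit 0x106fd10)) e) e))) (c (c (c (p (nat_lit
  0x392cd6)) (c (m (nat_lit 0x795990)) e)) (c (c (m (nat_lit 0x795990)) e) e)) (c (c (c (m (nat_lit
  0x116d3a8)) e) e) e))) (c (c (c (c (p (nat_lit 0x1290360)) (c (m (nat_lit 0x6c29e8)) e)) (c (c (p (nat_lit
  0x183360)) e) e)) (c (c (c (p (nat_lit 0x22e708)) e) e) e)) e)) (c (c (c (c (c (p (nat_lit 0x12902f4)) (c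
  (p (nat_lit 0x183360)) e)) (c (c (m (nat_lit 0x6c29d0)) e) e)) (c (c (c (p (nat_lit 0x22e6f0)) e) e) e)) e)
  e)) (c (c (c (c (c (c (p (nat_lit 0xb6034c)) (c (p (nat_lit 0x220080)) e)) (c (c (p (nat_lit 0x220080)) e)
  e)) (c (c (c (m (nat_lit 0x1196eb0)) e) e) e)) e) e) e))) (c (c (c (c (c (c (c (p (nat_lit 0x3b03ed4)) (c
  (m (nat_lit 0x78d0854)) (c (m (nat_lit 0x100dd0)) e))) (c (c (m (nat_lit 0x78d088a)) (c (m (nat_lit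
  0x479d00)) e)) (c (c (m (nat_lit 0x100de8)) e) e))) (c (c (c (m (nat_lit 0x35312b8)) (c (m (nat_lit
  0x50c3e8)) e)) (c (c (m (nat_lit 0x50c3e8)) e) e)) (c (c (c (p (nat_lit 0x898608)) e) e) e))) (c (c (c (c
  (m (nat_lit 0x344733c)) (c (m (nat_lit 0xf6ca38)) e)) (c (c (p (nat_lit 0x106bc42)) e) e)) (c (c (c (m
  (nat_lit 0x197c088)) e) e) e)) (c (c (c (c (m (nat_lit 0xe19300)) e) e) e) e))) (c (c (c (c (c (m (nat_lit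
  0x34473cc)) (c (p (nat_lit 0x106bbe2)) e)) (c (c (m (nat_lit 0xf6ca38)) e) e)) (c (c (c (m (nat_lit
  0x197c02e)) e) e) e)) (c (c (c (c (m (nat_lit 0x77bfe0)) e) e) e) e)) (c (c (c (c (c (m (nat_lit 0xe192d0))
  e) e) e) e) e))) (c (c (c (c (c (c (m (nat_lit 0x983074e)) (c (p (nat_lit 0x11eae02)) e)) (c (c (p (nat_lit
  0x11eae02)) e) e)) (c (c (c (p (nat_lit 0x2af9852)) e) e) e)) (c (c (c (c (m (nat_lit 0x707604)) e) e) e)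
  e)) (c (c (c (c (c (m (nat_lit 0x7075c8)) e) e) e) e) e)) (c (c (c (c (c (c (m (nat_lit 0xd6d9a0)) e) e) e)
  e) e) e))) (c (c (c (c (c (c (c (m (nat_lit 0x52bb4ae)) (c (p (nat_lit 0x505f548)) e)) (c (c (p (nat_lit
  0x505f536)) e) e)) (c (c (c (m (nat_lit 0x2576fac)) e) e) e)) (c (c (c (c (p (nat_lit 0x10a1a92)) e) e) e)
  e)) (c (c (c (c (c (p (nat_lit 0x10a1a92)) e) e) e) e) e)) (c (c (c (c (c (c (p (nat_lit 0x86b7a7e)) e) e)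
  e) e) e) e)) (c (c (c (c (c (c (c (p (nat_lit 0x4b48402)) e) e) e) e) e) e) e))))) (c (c (c (c (c (c (c (c
  (p (nat_lit 0x28ed944)) (c (p (nat_lit 0xdaecf2)) (c (p (nat_lit 0x4fb558)) e))) (c (c (p (nat_lit
  0xe0ca84)) (c (m (nat_lit 0x94ee70)) e)) (c (c (m (nat_lit 0x19c5510)) e) e))) (c (c (c (m (nat_lit
  0x10d3058)) (c (m (nat_lit 0x24ead8)) e)) (c (c (m (nat_lit 0x6bc6a0)) e) e)) (c (c (c (p (nat_lit
  0x6fb700)) e) e) e))) (c (c (c (c (p (nat_lit 0x61a53f8)) (c (p (nat_lit 0x2dbd3b4)) (c (m (nat_lit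
  0x283a28)) e))) (c (c (m (nat_lit 0x28de2ae)) (c (m (nat_lit 0xe8968)) e)) (c (c (m (nat_lit 0x59ca0)) e)
  e))) (c (c (c (m (nat_lit 0xa2418e)) (c (p (nat_lit 0x54c108)) e)) (c (c (m (nat_lit 0x232d88)) e) e)) (c
  (c (c (p (nat_lit 0x97d9a0)) e) e) e))) (c (c (c (c (m (nat_lit 0x51b6a0)) (c (p (nat_lit 0x52f080)) e)) (c
  (c (p (nat_lit 0x145ec60)) e) e)) (c (c (c (p (nat_lit 0x280da0)) e) e) e)) e))) (c (c (c (c (c (p (nat_lit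
  0x2a45cf0)) (c (m (nat_lit 0x22a42d6)) (c (m (nat_lit 0x589830)) e))) (c (c (p (nat_lit 0x27dcfd4)) (c (p
  (nat_lit 0x15ee80)) e)) (c (c (p (nat_lit 0x11f9448)) e) e))) (c (c (c (m (nat_lit 0xfb5596)) (c (p
  (nat_lit 0x444738)) e)) (c (c (p (nat_lit 0x9bdf48)) e) e)) (c (c (c (p (nat_lit 0x463638)) e) e) e))) (c
  (c (c (c (p (nat_lit 0x133d9a0)) (c (m (nat_lit 0x25080)) e)) (c (c (m (nat_lit 0xd18080)) e) e)) (c (c (c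
  (p (nat_lit 0x7faa0)) e) e) e)) e)) (c (c (c (c (c (m (nat_lit 0x3990300)) (c (p (nat_lit 0xb44ec0)) e)) (c
  (c (m (nat_lit 0xbebba0)) e) e)) (c (c (c (p (nat_lit 0x210bd00)) e) e) e)) e) e))) (c (c (c (c (c (c (m
  (nat_lit 0x1aa7eea)) (c (p (nat_lit 0x1bb5e2a)) (c (p (nat_lit 0x11bd10)) e))) (c (c (p (nat_lit
  0x25c49fa)) (c (p (nat_lit 0x813d8)) e)) (c (c (m (nat_lit 0x1408e0)) e) e))) (c (c (c (p (nat_lit
  0x1906d10)) (c (p (nat_lit 0xb67360)) e)) (c (c (m (nat_lit 0x157128)) e) e)) (c (c (c (m (nat_lit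
  0x985f38)) e) e) e))) (c (c (c (c (m (nat_lit 0x13bde30)) (c (m (nat_lit 0x10b768)) e)) (c (c (p (nat_lit
  0x150990)) e) e)) (c (c (c (p (nat_lit 0x1b85f8)) e) e) e)) e)) (c (c (c (c (c (p (nat_lit 0xba5fb8)) (c (p
  (nat_lit 0x51d1e8)) e)) (c (c (m (nat_lit 0x800958)) e) e)) (c (c (c (p (nat_lit 0x695358)) e) e) e)) e)
  e)) (c (c (c (c (c (c (p (nat_lit 0x46eba0)) (c (m (nat_lit 0x3a5d98)) e)) (c (c (m (nat_lit 0x1292a0)) e)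
  e)) (c (c (c (p (nat_lit 0x963018)) e) e) e)) e) e) e))) (c (c (c (c (c (c (c (m (nat_lit 0x605130)) (c (m
  (nat_lit 0x1d3cb3e)) (c (m (nat_lit 0x912918)) e))) (c (c (p (nat_lit 0x1669614)) (c (p (nat_lit 0x1a5b48))
  e)) (c (c (p (nat_lit 0x629d48)) e) e))) (c (c (c (m (nat_lit 0x63384b4)) (c (m (nat_lit 0x2f520)) e)) (c
  (c (p (nat_lit 0x9db150)) e) e)) (c (c (c (p (nat_lit 0xa6d8b0)) e) e) e))) (c (c (c (c (m (nat_lit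
  0x74e5894)) (c (m (nat_lit 0xbd55f8)) e)) (c (c (p (nat_lit 0x226b66)) e) e)) (c (c (c (m (nat_lit
  0x1343196)) e) e) e)) (c (c (c (c (m (nat_lit 0x47f640)) e) e) e) e))) (c (c (c (c (c (m (nat_lit
  0x70456e)) (c (p (nat_lit 0x43eafe)) e)) (c (c (m (nat_lit 0x29f73a8)) e) e)) (c (c (c (m (nat_lit
  0x168e0be)) e) e) e)) (c (c (c (c (p (nat_lit 0x69c9c0)) e) e) e) e)) (c (c (c (c (c (m (nat_lit 0x3f1320))
  e) e) e) e) e))) (c (c (c (c (c (c (p (nat_lit 0x3483b1c)) (c (m (nat_lit 0x11b187a)) e)) (c (c (m (nat_lit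
  0xaa9ffa)) e) e)) (c (c (c (m (nat_lit 0x1dc1240)) e) e) e)) (c (c (c (c (p (nat_lit 0x2caf90)) e) e) e)
  e)) (c (c (c (c (c (m (nat_lit 0x3e6b08)) e) e) e) e) e)) (c (c (c (c (c (c (p (nat_lit 0x8ccc10)) e) e) e)
  e) e) e))) (c (c (c (c (c (c (c (p (nat_lit 0x33c5f7c)) (c (p (nat_lit 0x217aac0)) e)) (c (c (p (nat_lit
  0xfd914)) e) e)) (c (c (c (p (nat_lit 0x7d80c50)) e) e) e)) (c (c (c (c (p (nat_lit 0x40e4788)) e) e) e)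
  e)) (c (c (c (c (c (m (nat_lit 0x6950a6)) e) e) e) e) e)) (c (c (c (c (c (c (m (nat_lit 0x5fb9686)) e) e)
  e) e) e) e)) (c (c (c (c (c (c (c (m (nat_lit 0x6e8c17c)) e) e) e) e) e) e) e)))) (c (c (c (c (c (c (c (c
  (p (nat_lit 0x5e2462)) (c (m (nat_lit 0x1ea46f4)) (c (p (nat_lit 0xd4a0a8)) e))) (c (c (p (nat_lit
  0x39f2fa)) (c (p (nat_lit 0x11e710)) e)) (c (c (m (nat_lit 0x3014e8)) e) e))) (c (c (c (p (nat_lit
  0x75b9e8)) (c (p (nat_lit 0x6b7d20)) e)) (c (c (m (nat_lit 0x278bf8)) e) e)) (c (c (c (p (nat_lit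
  0x5ad128)) e) e) e))) (c (c (c (c (m (nat_lit 0x33c0db0)) (c (p (nat_lit 0x6e4f90)) e)) (c (c (p (nat_lit
  0x12ffc90)) e) e)) (c (c (c (p (nat_lit 0x194ce8)) e) e) e)) (c (c (c (c (m (nat_lit 0xb37600)) e) e) e)
  e))) (c (c (c (c (c (m (nat_lit 0x92bb0)) (c (m (nat_lit 0x48bbf8)) e)) (c (c (p (nat_lit 0x1e7a2f8)) e)
  e)) (c (c (c (m (nat_lit 0x7e23d0)) e) e) e)) (c (c (c (c (m (nat_lit 0xbf2680)) e) e) e) e)) (c (c (c (c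
  (c (p (nat_lit 0x14395e0)) e) e) e) e) e))) (c (c (c (c (c (c (p (nat_lit 0xef9a8a)) (c (m (nat_lit
  0x3f8c88)) e)) (c (c (m (nat_lit 0x516b40)) e) e)) (c (c (c (m (nat_lit 0x31def8)) e) e) e)) (c (c (c (c (p
  (nat_lit 0xfcd9e0)) e) e) e) e)) (c (c (c (c (c (m (nat_lit 0xdb7cf8)) e) e) e) e) e)) (c (c (c (c (c (c (m
  (nat_lit 0x357d68)) e) e) e) e) e) e))) (c (c (c (c (c (c (c (p (nat_lit 0x69db360)) (c (p (nat_lit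
  0x1e2fdc)) e)) (c (c (m (nat_lit 0x1e7393e)) e) e)) (c (c (c (m (nat_lit 0xb66f10)) e) e) e)) (c (c (c (c
  (p (nat_lit 0x14bcc68)) e) e) e) e)) (c (c (c (c (c (m (nat_lit 0xe194b0)) e) e) e) e) e)) (c (c (c (c (c
  (c (p (nat_lit 0x1ddd002)) e) e) e) e) e) e)) (c (c (c (c (c (c (c (m (nat_lit 0x36125e2)) e) e) e) e) e)
  e) e))) (c (c (c (c (c (c (c (c (m (nat_lit 0x122ff82)) (c (p (nat_lit 0x1281c0)) e)) (c (c (p (nat_lit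
  0x6d6728)) e) e)) (c (c (c (m (nat_lit 0x225be8)) e) e) e)) (c (c (c (c (p (nat_lit 0x2b5258)) e) e) e) e))
  (c (c (c (c (c (p (nat_lit 0xb50608)) e) e) e) e) e)) (c (c (c (c (c (c (p (nat_lit 0x39f60)) e) e) e) e)
  e) e)) (c (c (c (c (c (c (c (m (nat_lit 0xcd4d5a)) e) e) e) e) e) e) e)) (c (c (c (c (c (c (c (c (p
  (nat_lit 0xc857b8)) e) e) e) e) e) e) e) e))))) (c (c (c (c (c (c (c (c (c (p (nat_lit 0x28edbb4)) (c (p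
  (nat_lit 0xe0cafc)) (c (m (nat_lit 0x19c5498)) e))) (c (c (p (nat_lit 0xdaecda)) (c (m (nat_lit 0x94ee70))
  e)) (c (c (p (nat_lit 0x4fb5b8)) e) e))) (c (c (c (m (nat_lit 0x10d2f68)) (c (m (nat_lit 0x6bc6d0)) e)) (c
  (c (m (nat_lit 0x24eaf0)) e) e)) (c (c (c (p (nat_lit 0x6fb718)) e) e) e))) (c (c (c (c (p (nat_lit
  0x2a45e10)) (c (p (nat_lit 0x27dcefc)) (c (p (nat_lit 0x11f9430)) e))) (c (c (m (nat_lit 0x22a4306)) (c (p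
  (nat_lit 0x15ee68)) e)) (c (c (m (nat_lit 0x589860)) e) e))) (c (c (c (m (nat_lit 0xfb5626)) (c (p (nat_lit
  0x9bdf18)) e)) (c (c (p (nat_lit 0x444738)) e) e)) (c (c (c (p (nat_lit 0x463620)) e) e) e))) (c (c (c (c
  (m (nat_lit 0x3990360)) (c (m (nat_lit 0xbebb40)) e)) (c (c (p (nat_lit 0xb44f20)) e) e)) (c (c (c (p
  (nat_lit 0x210bd60)) e) e) e)) e))) (c (c (c (c (c (p (nat_lit 0x61a5410)) (c (m (nat_lit 0x28de2de)) (c (m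
  (nat_lit 0x59cb8)) e))) (c (c (p (nat_lit 0x2dbd39c)) (c (m (nat_lit 0xe8980)) e)) (c (c (m (nat_lit
  0x283a28)) e) e))) (c (c (c (m (nat_lit 0xa241be)) (c (m (nat_lit 0x232d88)) e)) (c (c (p (nat_lit
  0x54c120)) e) e)) (c (c (c (p (nat_lit 0x97d9d0)) e) e) e))) (c (c (c (c (p (nat_lit 0x133d880)) (c (m
  (nat_lit 0xd180e0)) e)) (c (c (m (nat_lit 0x25020)) e) e)) (c (c (c (p (nat_lit 0x7faa0)) e) e) e)) e)) (c
  (c (c (c (c (m (nat_lit 0x51b700)) (c (p (nat_lit 0x145ed20)) e)) (c (c (p (nat_lit 0x52f080)) e) e)) (c (c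
  (c (p (nat_lit 0x280da0)) e) e) e)) e) e))) (c (c (c (c (c (c (m (nat_lit 0x1aa7e42)) (c (p (nat_lit
  0x25c4aba)) (c (m (nat_lit 0x1408b0)) e))) (c (c (p (nat_lit 0x1bb5e12)) (c (p (nat_lit 0x813c0)) e)) (c (c
  (p (nat_lit 0x11bcf8)) e) e))) (c (c (c (p (nat_lit 0x1906ce0)) (c (m (nat_lit 0x157128)) e)) (c (c (p
  (nat_lit 0xb67360)) e) e)) (c (c (c (m (nat_lit 0x985f38)) e) e) e))) (c (c (c (c (p (nat_lit 0xba5fb8)) (c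
  (m (nat_lit 0x800928)) e)) (c (c (p (nat_lit 0x51d200)) e) e)) (c (c (c (p (nat_lit 0x695370)) e) e) e))
  e)) (c (c (c (c (c (m (nat_lit 0x13bde18)) (c (p (nat_lit 0x1509a8)) e)) (c (c (m (nat_lit 0x10b750)) e)
  e)) (c (c (c (p (nat_lit 0x1b8610)) e) e) e)) e) e)) (c (c (c (c (c (c (p (nat_lit 0x46eb28)) (c (m
  (nat_lit 0x1292d0)) e)) (c (c (m (nat_lit 0x3a5d68)) e) e)) (c (c (c (p (nat_lit 0x963048)) e) e) e)) e) e)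
  e))) (c (c (c (c (c (c (c (m (nat_lit 0x60c12c)) (c (p (nat_lit 0x167b2fc)) (c (p (nat_lit 0x629d18)) e)))
  (c (c (m (nat_lit 0x1d2debc)) (c (p (nat_lit 0x1a5b60)) e)) (c (c (m (nat_lit 0x912918)) e) e))) (c (c (c
  (m (nat_lit 0x6358dee)) (c (p (nat_lit 0x9db150)) e)) (c (c (m (nat_lit 0x2f520)) e) e)) (c (c (c (p
  (nat_lit 0xa6d880)) e) e) e))) (c (c (c (c (m (nat_lit 0x6dfaa6)) (c (m (nat_lit 0x29a336c)) e)) (c (c (p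
  (nat_lit 0x3e8bae)) e) e)) (c (c (c (m (nat_lit 0x16b3d7a)) e) e) e)) (c (c (c (c (m (nat_lit 0x3f1320)) e)
  e) e) e))) (c (c (c (c (c (m (nat_lit 0x74b1dde)) (c (p (nat_lit 0x166d46)) e)) (c (c (m (nat_lit
  0xc4dd9c)) e) e)) (c (c (c (m (nat_lit 0x123ffba)) e) e) e)) (c (c (c (c (p (nat_lit 0x69c960)) e) e) e)
  e)) (c (c (c (c (c (m (nat_lit 0x47f640)) e) e) e) e) e))) (c (c (c (c (c (c (p (nat_lit 0x3465e0a)) (c (m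
  (nat_lit 0x9ced72)) e)) (c (c (m (nat_lit 0x116e3c2)) e) e)) (c (c (c (m (nat_lit 0x1ecb850)) e) e) e)) (c
  (c (c (c (m (nat_lit 0x3e6b08)) e) e) e) e)) (c (c (c (c (c (p (nat_lit 0x2cafa8)) e) e) e) e) e)) (c (c (c
  (c (c (c (p (nat_lit 0x8ccc10)) e) e) e) e) e) e))) (c (c (c (c (c (c (c (p (nat_lit 0x38a3768)) (c (p
  (nat_lit 0x143430)) e)) (c (c (p (nat_lit 0x1edc4e2)) e) e)) (c (c (c (p (nat_lit 0x7ecdc56)) e) e) e)) (c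
  (c (c (c (p (nat_lit 0x36b16)) e) e) e) e)) (c (c (c (c (c (p (nat_lit 0x2e8cf1e)) e) e) e) e) e)) (c (c (c
  (c (c (c (m (nat_lit 0x4721178)) e) e) e) e) e) e)) (c (c (c (c (c (c (c (m (nat_lit 0x7f81320)) e) e) e)
  e) e) e) e)))) (c (c (c (c (c (c (c (c (m (nat_lit 0xa035918)) (c (p (nat_lit 0x1b0ab6)) (c (m (nat_lit
  0x475c80)) e))) (c (c (p (nat_lit 0x1b0afe)) (c (p (nat_lit 0x4bd4b8)) e)) (c (c (m (nat_lit 0x475c68)) e)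
  e))) (c (c (c (p (nat_lit 0x1405d10)) (c (m (nat_lit 0xb1b808)) e)) (c (c (m (nat_lit 0xb1b808)) e) e)) (c
  (c (c (m (nat_lit 0x4b1c38)) e) e) e))) (c (c (c (c (p (nat_lit 0x23a35e8)) (c (m (nat_lit 0x5801b8)) e))
  (c (c (m (nat_lit 0x148fb0)) e) e)) (c (c (c (m (nat_lit 0x80f3a0)) e) e) e)) (c (c (c (c (p (nat_lit
  0x13e960)) e) e) e) e))) (c (c (c (c (c (p (nat_lit 0x23a3618)) (c (m (nat_lit 0x148fb0)) e)) (c (c (m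
  (nat_lit 0x5801d0)) e) e)) (c (c (c (m (nat_lit 0x80f3b8)) e) e) e)) (c (c (c (c (p (nat_lit 0x6d62c0)) e)
  e) e) e)) (c (c (c (c (c (p (nat_lit 0x13e900)) e) e) e) e) e))) (c (c (c (c (c (c (p (nat_lit 0xb9fc4c))
  (c (p (nat_lit 0x1262790)) e)) (c (c (p (nat_lit 0x12627c0)) e) e)) (c (c (c (p (nat_lit 0x138b88)) e) e)
  e)) (c (c (c (c (m (nat_lit 0xad280)) e) e) e) e)) (c (c (c (c (c (m (nat_lit 0xad238)) e) e) e) e) e)) (c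
  (c (c (c (c (c (m (nat_lit 0x150c90)) e) e) e) e) e) e))) (c (c (c (c (c (c (c (m (nat_lit 0x495a392)) (c
  (m (nat_lit 0xafc656)) e)) (c (c (m (nat_lit 0x77ca2a)) e) e)) (c (c (c (m (nat_lit 0x43b444)) e) e) e)) (c
  (c (c (c (p (nat_lit 0x20fc8f8)) e) e) e) e)) (c (c (c (c (c (p (nat_lit 0x2132100)) e) e) e) e) e)) (c (c
  (c (c (c (c (m (nat_lit 0x76e510)) e) e) e) e) e) e)) (c (c (c (c (c (c (c (p (nat_lit 0x77ce9b6)) e) e) e)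
  e) e) e) e))) (c (c (c (c (c (c (c (c (p (nat_lit 0x2ac6a1a)) (c (p (nat_lit 0xef988)) e)) (c (c (m
  (nat_lit 0x5d8988)) e) e)) (c (c (c (p (nat_lit 0x4bcff0)) e) e) e)) (c (c (c (c (m (nat_lit 0x13a2f20)) e)
  e) e) e)) (c (c (c (c (c (m (nat_lit 0xda8620)) e) e) e) e) e)) (c (c (c (c (c (c (m (nat_lit 0xede178)) e)
  e) e) e) e) e)) (c (c (c (c (c (c (c (m (nat_lit 0x15dff3e)) e) e) e) e) e) e) e)) (c (c (c (c (c (c (c (c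
  (p (nat_lit 0x347b68)) e) e) e) e) e) e) e) e)))) (c (c (c (c (c (c (c (c (c (p (nat_lit 0x5e24e6)) (c (p
  (nat_lit 0x39f2b2)) (c (m (nat_lit 0x3014e8)) e))) (c (c (m (nat_lit 0x1ea4724)) (c (p (nat_lit 0x11e728))
  e)) (c (c (p (nat_lit 0xd4a0a8)) e) e))) (c (c (c (p (nat_lit 0x75b9d0)) (c (m (nat_lit 0x278be0)) e)) (c
  (c (p (nat_lit 0x6b7d38)) e) e)) (c (c (c (p (nat_lit 0x5ad140)) e) e) e))) (c (c (c (c (m (nat_lit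
  0x92b38)) (c (p (nat_lit 0x1e7a2b0)) e)) (c (c (m (nat_lit 0x48bc28)) e) e)) (c (c (c (m (nat_lit
  0x7e2400)) e) e) e)) (c (c (c (c (p (nat_lit 0x1439580)) e) e) e) e))) (c (c (c (c (c (m (nat_lit
  0x33c0d98)) (c (p (nat_lit 0x12ffc78)) e)) (c (c (p (nat_lit 0x6e4f90)) e) e)) (c (c (c (p (nat_lit
  0x194ce8)) e) e) e)) (c (c (c (c (m (nat_lit 0xbf2620)) e) e) e) e)) (c (c (c (c (c (m (nat_lit 0xb37600))
  e) e) e) e) e))) (c (c (c (c (c (c (p (nat_lit 0xef99b2)) (c (m (nat_lit 0x516b58)) e)) (c (c (m (nat_lit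
  0x3f8c88)) e) e)) (c (c (c (m (nat_lit 0x31def8)) e) e) e)) (c (c (c (c (m (nat_lit 0xdb7cf8)) e) e) e) e))
  (c (c (c (c (c (p (nat_lit 0xfcd998)) e) e) e) e) e)) (c (c (c (c (c (c (m (nat_lit 0x357d20)) e) e) e) e)
  e) e))) (c (c (c (c (c (c (c (p (nat_lit 0x6600702)) (c (m (nat_lit 0x1da15a2)) e)) (c (c (p (nat_lit
  0x2767ec)) e) e)) (c (c (c (m (nat_lit 0xc993d8)) e) e) e)) (c (c (c (c (m (nat_lit 0x15862c8)) e) e) e)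
  e)) (c (c (c (c (c (p (nat_lit 0x2630418)) e) e) e) e) e)) (c (c (c (c (c (c (p (nat_lit 0x5cc56e)) e) e)
  e) e) e) e)) (c (c (c (c (c (c (c (m (nat_lit 0x1678854)) e) e) e) e) e) e) e))) (c (c (c (c (c (c (c (c (p
  (nat_lit 0x2ac6972)) (c (m (nat_lit 0x5d8910)) e)) (c (c (p (nat_lit 0xef9d0)) e) e)) (c (c (c (p (nat_lit
  0x4bd008)) e) e) e)) (c (c (c (c (m (nat_lit 0xda85d8)) e) e) e) e)) (c (c (c (c (c (m (nat_lit 0x13a2ec0))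
  e) e) e) e) e)) (c (c (c (c (c (c (m (nat_lit 0xede148)) e) e) e) e) e) e)) (c (c (c (c (c (c (c (p
  (nat_lit 0x4244ca)) e) e) e) e) e) e) e)) (c (c (c (c (c (c (c (c (m (nat_lit 0x17c5590)) e) e) e) e) e) e)
  e) e))) (c (c (c (c (c (c (c (c (c (m (nat_lit 0x122feaa)) (c (p (nat_lit 0x6d6728)) e)) (c (c (p (nat_lit
  0x1281a8)) e) e)) (c (c (c (m (nat_lit 0x225be8)) e) e) e)) (c (c (c (c (p (nat_lit 0xb505f0)) e) e) e) e))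
  (c (c (c (c (c (p (nat_lit 0x2b5270)) e) e) e) e) e)) (c (c (c (c (c (c (p (nat_lit 0x39fa8)) e) e) e) e)
  e) e)) (c (c (c (c (c (c (c (m (nat_lit 0x1f63bae)) e) e) e) e) e) e) e)) (c (c (c (c (c (c (c (c (p
  (nat_lit 0x347b08)) e) e) e) e) e) e) e) e)) (c (c (c (c (c (c (c (c (c (p (nat_lit 0xc85788)) e) e) e) e)
  e) e) e) e) e)))))

noncomputable def gt_0_3 : Tr := (c gt_0_3_3 (c gt_0_3_4 (c gt_0_3_5 (c gt_0_3_6 (c gt_0_3_7 e)))))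

noncomputable def gt_0_4_4 : Tr :=
  (c (c (c (c (c (c (c (c (c (p (nat_lit 0x4d5fea2)) (c (m (nat_lit 0x2d2b452)) (c (m (nat_lit 0x6a2288))
  e))) (c (c (m (nat_lit 0x2d2b06e)) (c (p (nat_lit 0x45864c)) e)) (c (c (m (nat_lit 0x6a22b8)) e) e))) (c (c
  (c (m (nat_lit 0x10bd5846)) (c (p (nat_lit 0x13df2a4)) e)) (c (c (p (nat_lit 0x13df286)) e) e)) (c (c (c (p
  (nat_lit 0xd316568)) e) e) e))) (c (c (c (c (m (nat_lit 0x2d2b452)) (c (p (nat_lit 0x34f5f7e)) (c (m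
  (nat_lit 0xfff798)) e))) (c (c (m (nat_lit 0x24d0c8)) (c (p (nat_lit 0x100038)) e)) (c (c (p (nat_lit
  0x4c24d4)) e) e))) (c (c (c (p (nat_lit 0x92ee0a2)) (c (m (nat_lit 0xbb093e)) e)) (c (c (m (nat_lit
  0xa24446)) e) e)) (c (c (c (m (nat_lit 0x5b6f2a8)) e) e) e))) (c (c (c (c (m (nat_lit 0x6a2288)) (c (m
  (nat_lit 0xfff798)) (c (p (nat_lit 0x1cc02d2)) e))) (c (c (p (nat_lit 0x4c24bc)) (c (m (nat_lit 0x932eec))
  e)) (c (c (p (nat_lit 0x1a2d76)) e) e))) (c (c (c (m (nat_lit 0x363738)) (c (m (nat_lit 0x260ec8)) e)) (c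
  (c (p (nat_lit 0x1697e2)) e) e)) (c (c (c (p (nat_lit 0xa7cc58)) e) e) e))) e))) (c (c (c (c (c (m (nat_lit
  0x2d2b06e)) (c (m (nat_lit 0x24d0c8)) (c (p (nat_lit 0x4c24bc)) e))) (c (c (p (nat_lit 0x34f3c4a)) (c (p
  (nat_lit 0x100ec0)) e)) (c (c (m (nat_lit 0xfff750)) e) e))) (c (c (c (p (nat_lit 0x92ee3ea)) (c (m
  (nat_lit 0xa24422)) e)) (c (c (m (nat_lit 0xbb0908)) e) e)) (c (c (c (m (nat_lit 0x5b6f290)) e) e) e))) (c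
  (c (c (c (p (nat_lit 0x45864c)) (c (p (nat_lit 0x100038)) (c (m (nat_lit 0x932eec)) e))) (c (c (p (nat_lit
  0x100ec0)) (c (p (nat_lit 0x2c73858)) e)) (c (c (m (nat_lit 0x932efe)) e) e))) (c (c (c (p (nat_lit
  0xe6ed28)) (c (m (nat_lit 0x20b674)) e)) (c (c (m (nat_lit 0x20b67a)) e) e)) (c (c (c (p (nat_lit
  0x1f1148)) e) e) e))) e)) (c (c (c (c (c (m (nat_lit 0x6a22b8)) (c (p (nat_lit 0x4c24d4)) (c (p (nat_lit
  0x1a2d76)) e))) (c (c (m (nat_lit 0xfff750)) (c (m (nat_lit 0x932efe)) e)) (c (c (p (nat_lit 0x1cc02d2)) e)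
  e))) (c (c (c (m (nat_lit 0x363780)) (c (p (nat_lit 0x1697ee)) e)) (c (c (m (nat_lit 0x260ee0)) e) e)) (c
  (c (c (p (nat_lit 0xa7cc88)) e) e) e))) e) e))) (c (c (c (c (c (c (m (nat_lit 0x10bd5846)) (c (p (nat_lit
  0x92ee0a2)) (c (m (nat_lit 0x363738)) e))) (c (c (p (nat_lit 0x92ee3ea)) (c (p (nat_lit 0xe6ed28)) e)) (c
  (c (m (nat_lit 0x363780)) e) e))) (c (c (c (p (nat_lit 0x393febe6)) (c (m (nat_lit 0x4dc22a8)) e)) (c (c (m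
  (nat_lit 0x4dc22d8)) e) e)) (c (c (c (m (nat_lit 0x2a82d940)) e) e) e))) (c (c (c (c (p (nat_lit
  0x13df2a4)) (c (m (nat_lit 0xbb093e)) (c (m (nat_lit 0x260ec8)) e))) (c (c (m (nat_lit 0xa24422)) (c (m
  (nat_lit 0x20b674)) e)) (c (c (p (nat_lit 0x1697ee)) e) e))) (c (c (c (m (nat_lit 0x4dc22a8)) (c (p
  (nat_lit 0x272e602)) e)) (c (c (p (nat_lit 0x165a038)) e) e)) (c (c (c (p (nat_lit 0x2fa34b0)) e) e) e)))
  e)) (c (c (c (c (c (p (nat_lit 0x13df286)) (c (m (nat_lit 0xa24446)) (c (p (nat_lit 0x1697e2)) e))) (c (c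
  (m (nat_lit 0xbb0908)) (c (m (nat_lit 0x20b67a)) e)) (c (c (m (nat_lit 0x260ee0)) e) e))) (c (c (c (m
  (nat_lit 0x4dc22d8)) (c (p (nat_lit 0x165a038)) e)) (c (c (p (nat_lit 0x272e626)) e) e)) (c (c (c (p
  (nat_lit 0x2fa3498)) e) e) e))) e) e)) (c (c (c (c (c (c (p (nat_lit 0xd316568)) (c (m (nat_lit 0x5b6f2a8))
  (c (p (nat_lit 0xa7cc58)) e))) (c (c (m (nat_lit 0x5b6f290)) (c (p (nat_lit 0x1f1148)) e)) (c (c (p
  (nat_lit 0xa7cc88)) e) e))) (c (c (c (m (nat_lit 0x2a82d940)) (c (p (nat_lit 0x2fa34b0)) e)) (c (c (p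
  (nat_lit 0x2fa3498)) e) e)) (c (c (c (p (nat_lit 0x2282b260)) e) e) e))) e) e) e))) (c (c (c (c (c (c (c (p
  (nat_lit 0x69d62d8)) (c (m (nat_lit 0x61bc54)) (c (p (nat_lit 0xdc61ca)) e))) (c (c (m (nat_lit 0x61bcae))
  (c (m (nat_lit 0x5086e6)) e)) (c (c (p (nat_lit 0xdc61dc)) e) e))) (c (c (c (m (nat_lit 0xa02cc1e)) (c (p
  (nat_lit 0xdfdfac)) e)) (c (c (p (nat_lit 0xdfdfca)) e) e)) (c (c (c (m (nat_lit 0x187a4d8)) e) e) e))) (c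
  (c (c (c (m (nat_lit 0x61bc54)) (c (p (nat_lit 0x51a101c)) (c (p (nat_lit 0x69d92)) e))) (c (c (p (nat_lit
  0x2d1ecf6)) (c (m (nat_lit 0x10d7486)) e)) (c (c (m (nat_lit 0x381ae0)) e) e))) (c (c (c (m (nat_lit
  0x62d7668)) (c (p (nat_lit 0x573c96)) e)) (c (c (p (nat_lit 0x3832bc)) e) e)) (c (c (c (m (nat_lit
  0x3e63e8)) e) e) e))) (c (c (c (c (p (nat_lit 0xdc61ca)) (c (p (nat_lit 0x69d92)) e)) (c (c (m (nat_lit
  0x381ad4)) e) e)) (c (c (c (p (nat_lit 0xa4b980)) e) e) e)) e))) (c (c (c (c (c (m (nat_lit 0x61bcae)) (c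
  (p (nat_lit 0x2d1ecf6)) (c (m (nat_lit 0x381ad4)) e))) (c (c (p (nat_lit 0x51a0fe6)) (c (m (nat_lit
  0x10d7480)) e)) (c (c (p (nat_lit 0x69d86)) e) e))) (c (c (c (m (nat_lit 0x62d75c0)) (c (p (nat_lit
  0x3832aa)) e)) (c (c (p (nat_lit 0x573c96)) e) e)) (c (c (c (m (nat_lit 0x3e6460)) e) e) e))) (c (c (c (c
  (m (nat_lit 0x5086e6)) (c (m (nat_lit 0x10d7486)) e)) (c (c (m (nat_lit 0x10d7480)) e) e)) (c (c (c (p
  (nat_lit 0x1b7740)) e) e) e)) e)) (c (c (c (c (c (p (nat_lit 0xdc61dc)) (c (m (nat_lit 0x381ae0)) e)) (c (c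
  (p (nat_lit 0x69d86)) e) e)) (c (c (c (p (nat_lit 0xa4b980)) e) e) e)) e) e))) (c (c (c (c (c (c (m
  (nat_lit 0xa02cc1e)) (c (m (nat_lit 0x62d7668)) (c (p (nat_lit 0xa4b980)) e))) (c (c (m (nat_lit
  0x62d75c0)) (c (p (nat_lit 0x1b7740)) e)) (c (c (p (nat_lit 0xa4b980)) e) e))) (c (c (c (p (nat_lit
  0xaa1fb82)) (c (m (nat_lit 0x80070)) e)) (c (c (m (nat_lit 0x80070)) e) e)) (c (c (c (p (nat_lit
  0x3ab6cc0)) e) e) e))) (c (c (c (c (p (nat_lit 0xdfdfac)) (c (p (nat_lit 0x573c96)) e)) (c (c (p (nat_lit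
  0x3832aa)) e) e)) (c (c (c (m (nat_lit 0x80070)) e) e) e)) e)) (c (c (c (c (c (p (nat_lit 0xdfdfca)) (c (p
  (nat_lit 0x3832bc)) e)) (c (c (p (nat_lit 0x573c96)) e) e)) (c (c (c (m (nat_lit 0x80070)) e) e) e)) e) e))
  (c (c (c (c (c (c (m (nat_lit 0x187a4d8)) (c (m (nat_lit 0x3e63e8)) e)) (c (c (m (nat_lit 0x3e6460)) e) e))
  (c (c (c (p (nat_lit 0x3ab6cc0)) e) e) e)) e) e) e))) (c (c (c (c (c (c (c (m (nat_lit 0x5b4a324)) (c (m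
  (nat_lit 0xd349d0)) (c (m (nat_lit 0xeaa5b4)) e))) (c (c (m (nat_lit 0xd34982)) (c (m (nat_lit 0x14cc40))
  e)) (c (c (m (nat_lit 0xeaa5b4)) e) e))) (c (c (c (p (nat_lit 0xac5a5de)) (c (m (nat_lit 0x3e6cbe)) e)) (c
  (c (m (nat_lit 0x3e6cb8)) e) e)) (c (c (c (p (nat_lit 0xb881f8)) e) e) e))) (c (c (c (c (m (nat_lit
  0xd349d0)) (c (m (nat_lit 0x270f1c8)) e)) (c (c (m (nat_lit 0x13a1ed6)) e) e)) (c (c (c (p (nat_lit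
  0x2b1feb6)) e) e) e)) (c (c (c (c (m (nat_lit 0xeaa5b4)) e) e) e) e))) (c (c (c (c (c (m (nat_lit
  0xd34982)) (c (m (nat_lit 0x13a1ed6)) e)) (c (c (m (nat_lit 0x270f1ce)) e) e)) (c (c (c (p (nat_lit
  0x2b1fe9e)) e) e) e)) (c (c (c (c (m (nat_lit 0x14cc40)) e) e) e) e)) (c (c (c (c (c (m (nat_lit 0xeaa5b4))
  e) e) e) e) e))) (c (c (c (c (c (c (p (nat_lit 0xac5a5de)) (c (p (nat_lit 0x2b1feb6)) e)) (c (c (p (nat_lit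
  0x2b1fe9e)) e) e)) (c (c (c (m (nat_lit 0xca4fc88)) e) e) e)) (c (c (c (c (m (nat_lit 0x3e6cbe)) e) e) e)
  e)) (c (c (c (c (c (m (nat_lit 0x3e6cb8)) e) e) e) e) e)) (c (c (c (c (c (c (p (nat_lit 0xb881f8)) e) e) e)
  e) e) e))) (c (c (c (c (c (c (c (p (nat_lit 0x6832464)) (c (p (nat_lit 0x144b5c2)) e)) (c (c (p (nat_lit
  0x144b5c8)) e) e)) (c (c (c (m (nat_lit 0x378629a)) e) e) e)) (c (c (c (c (p (nat_lit 0x144b5c2)) e) e) e)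
  e)) (c (c (c (c (c (p (nat_lit 0x144b5c8)) e) e) e) e) e)) (c (c (c (c (c (c (m (nat_lit 0x378629a)) e) e)
  e) e) e) e)) (c (c (c (c (c (c (c (m (nat_lit 0x483af74)) e) e) e) e) e) e) e))))) (c (c (c (c (c (c (c (c
  (p (nat_lit 0x5feda42)) (c (m (nat_lit 0x1a7c63c)) (c (p (nat_lit 0xbaf9de)) e))) (c (c (p (nat_lit
  0xa45566)) (c (m (nat_lit 0xed6936)) e)) (c (c (m (nat_lit 0x2ee96)) e) e))) (c (c (c (m (nat_lit
  0x665bc7a)) (c (p (nat_lit 0x8aba0)) e)) (c (c (m (nat_lit 0x2dc7e)) e) e)) (c (c (c (p (nat_lit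
  0x256f290)) e) e) e))) (c (c (c (c (m (nat_lit 0x1a7c63c)) (c (m (nat_lit 0x2f68c2)) (c (m (nat_lit
  0x558780)) e))) (c (c (p (nat_lit 0xea4596)) (c (p (nat_lit 0x359b2c)) e)) (c (c (p (nat_lit 0x217d8e)) e)
  e))) (c (c (c (m (nat_lit 0x41749e0)) (c (p (nat_lit 0x3b850)) e)) (c (c (m (nat_lit 0x2f2e60)) e) e)) (c
  (c (c (p (nat_lit 0x21453a8)) e) e) e))) (c (c (c (c (p (nat_lit 0xbaf9de)) (c (m (nat_lit 0x558780)) e))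
  (c (c (m (nat_lit 0x6a3638)) e) e)) (c (c (c (m (nat_lit 0x2cd2b2)) e) e) e)) e))) (c (c (c (c (c (p
  (nat_lit 0xa45566)) (c (p (nat_lit 0xea4596)) (c (m (nat_lit 0x6a3638)) e))) (c (c (p (nat_lit 0x3431be))
  (c (p (nat_lit 0x89e5ea)) e)) (c (c (m (nat_lit 0xb02536)) e) e))) (c (c (c (m (nat_lit 0x5a9c9c)) (c (m
  (nat_lit 0x8645ee)) e)) (c (c (m (nat_lit 0x56eb54)) e) e)) (c (c (c (m (nat_lit 0x9884b8)) e) e) e))) (c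
  (c (c (c (m (nat_lit 0xed6936)) (c (p (nat_lit 0x359b2c)) e)) (c (c (p (nat_lit 0x89e5ea)) e) e)) (c (c (c
  (m (nat_lit 0x502812)) e) e) e)) e)) (c (c (c (c (c (m (nat_lit 0x2ee96)) (c (p (nat_lit 0x217d8e)) e)) (c
  (c (m (nat_lit 0xb02536)) e) e)) (c (c (c (m (nat_lit 0xbe02c)) e) e) e)) e) e))) (c (c (c (c (c (c (m
  (nat_lit 0x665bc7a)) (c (m (nat_lit 0x41749e0)) (c (m (nat_lit 0x2cd2b2)) e))) (c (c (m (nat_lit 0x5a9c9c))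
  (c (m (nat_lit 0x502812)) e)) (c (c (m (nat_lit 0xbe02c)) e) e))) (c (c (c (p (nat_lit 0x6e810fa)) (c (m
  (nat_lit 0x32fc4c)) e)) (c (c (m (nat_lit 0xb57a90)) e) e)) (c (c (c (m (nat_lit 0x2fa0150)) e) e) e))) (c
  (c (c (c (p (nat_lit 0x8aba0)) (c (p (nat_lit 0x3b850)) e)) (c (c (m (nat_lit 0x8645ee)) e) e)) (c (c (c (m
  (nat_lit 0x32fc4c)) e) e) e)) e)) (c (c (c (c (c (m (nat_lit 0x2dc7e)) (c (m (nat_lit 0x2f2e60)) e)) (c (c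
  (m (nat_lit 0x56eb54)) e) e)) (c (c (c (m (nat_lit 0xb57a90)) e) e) e)) e) e)) (c (c (c (c (c (c (p
  (nat_lit 0x256f290)) (c (p (nat_lit 0x21453a8)) e)) (c (c (m (nat_lit 0x9884b8)) e) e)) (c (c (c (m
  (nat_lit 0x2fa0150)) e) e) e)) e) e) e))) (c (c (c (c (c (c (c (m (nat_lit 0x4917234)) (c (m (nat_lit
  0xaaf3a6)) (c (m (nat_lit 0x2b0926)) e))) (c (c (m (nat_lit 0x127aece)) (c (p (nat_lit 0x8c415c)) e)) (c (c
  (p (nat_lit 0x2f1642)) e) e))) (c (c (c (p (nat_lit 0x79bd170)) (c (m (nat_lit 0x8f8644)) e)) (c (c (m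
  (nat_lit 0x8c824e)) e) e)) (c (c (c (m (nat_lit 0x10fdc10)) e) e) e))) (c (c (c (c (m (nat_lit 0xaaf3a6))
  (c (m (nat_lit 0x6b3d60)) e)) (c (c (m (nat_lit 0x961566)) e) e)) (c (c (c (p (nat_lit 0x255c5b2)) e) e)
  e)) (c (c (c (c (m (nat_lit 0x2b0926)) e) e) e) e))) (c (c (c (c (c (m (nat_lit 0x127aece)) (c (m (nat_lit
  0x961566)) e)) (c (c (m (nat_lit 0x20353bc)) e) e)) (c (c (c (p (nat_lit 0x1396ce0)) e) e) e)) (c (c (c (c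
  (p (nat_lit 0x8c415c)) e) e) e) e)) (c (c (c (c (c (p (nat_lit 0x2f1642)) e) e) e) e) e))) (c (c (c (c (c
  (c (p (nat_lit 0x79bd170)) (c (p (nat_lit 0x255c5b2)) e)) (c (c (p (nat_lit 0x1396ce0)) e) e)) (c (c (c (m
  (nat_lit 0x2be81ae)) e) e) e)) (c (c (c (c (m (nat_lit 0x8f8644)) e) e) e) e)) (c (c (c (c (c (m (nat_lit
  0x8c824e)) e) e) e) e) e)) (c (c (c (c (c (c (m (nat_lit 0x10fdc10)) e) e) e) e) e) e))) (c (c (c (c (c (c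
  (c (p (nat_lit 0x11c6fd0)) (c (p (nat_lit 0x1148e26)) e)) (c (c (p (nat_lit 0x9251a0)) e) e)) (c (c (c (m
  (nat_lit 0x1e63d80)) e) e) e)) (c (c (c (c (p (nat_lit 0x1148e26)) e) e) e) e)) (c (c (c (c (c (p (nat_lit
  0x9251a0)) e) e) e) e) e)) (c (c (c (c (c (c (m (nat_lit 0x1e63d80)) e) e) e) e) e) e)) (c (c (c (c (c (c
  (c (m (nat_lit 0x21f6d80)) e) e) e) e) e) e) e)))) (c (c (c (c (c (c (c (c (m (nat_lit 0x35124)) (c (p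
  (nat_lit 0x1fbfc)) (c (m (nat_lit 0x532d3a)) e))) (c (c (p (nat_lit 0x20a120)) (c (p (nat_lit 0x6279ba))
  e)) (c (c (p (nat_lit 0x9c300)) e) e))) (c (c (c (p (nat_lit 0x3304c9e)) (c (p (nat_lit 0x79e060)) e)) (c
  (c (p (nat_lit 0xad2554)) e) e)) (c (c (c (m (nat_lit 0x219fae0)) e) e) e))) (c (c (c (c (p (nat_lit
  0x1fbfc)) (c (p (nat_lit 0x1aabd78)) e)) (c (c (p (nat_lit 0xc6690)) e) e)) (c (c (c (p (nat_lit 0x8c4534))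
  e) e) e)) (c (c (c (c (m (nat_lit 0x532d3a)) e) e) e) e))) (c (c (c (c (c (p (nat_lit 0x20a120)) (c (p
  (nat_lit 0xc6690)) e)) (c (c (p (nat_lit 0x3c50a3c)) e) e)) (c (c (c (p (nat_lit 0x1dc24a)) e) e) e)) (c (c
  (c (c (p (nat_lit 0x6279ba)) e) e) e) e)) (c (c (c (c (c (p (nat_lit 0x9c300)) e) e) e) e) e))) (c (c (c (c
  (c (c (p (nat_lit 0x3304c9e)) (c (p (nat_lit 0x8c4534)) e)) (c (c (p (nat_lit 0x1dc24a)) e) e)) (c (c (c (p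
  (nat_lit 0x2f94126)) e) e) e)) (c (c (c (c (p (nat_lit 0x79e060)) e) e) e) e)) (c (c (c (c (c (p (nat_lit
  0xad2554)) e) e) e) e) e)) (c (c (c (c (c (c (m (nat_lit 0x219fae0)) e) e) e) e) e) e))) (c (c (c (c (c (c
  (c (p (nat_lit 0x196ab38)) (c (m (nat_lit 0x4a5b36)) e)) (c (c (m (nat_lit 0x16cff8)) e) e)) (c (c (c (m
  (nat_lit 0x2699c82)) e) e) e)) (c (c (c (c (m (nat_lit 0x4a5b36)) e) e) e) e)) (c (c (c (c (c (m (nat_lit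
  0x16cff8)) e) e) e) e) e)) (c (c (c (c (c (c (m (nat_lit 0x2699c82)) e) e) e) e) e) e)) (c (c (c (c (c (c
  (c (p (nat_lit 0x169e63c)) e) e) e) e) e) e) e))) (c (c (c (c (c (c (c (c (m (nat_lit 0x2054e7a)) (c (m
  (nat_lit 0x1d2e72)) e)) (c (c (m (nat_lit 0x118a178)) e) e)) (c (c (c (m (nat_lit 0x301ff2)) e) e) e)) (c
  (c (c (c (m (nat_lit 0x1d2e72)) e) e) e) e)) (c (c (c (c (c (m (nat_lit 0x118a178)) e) e) e) e) e)) (c (c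
  (c (c (c (c (m (nat_lit 0x301ff2)) e) e) e) e) e) e)) (c (c (c (c (c (c (c (m (nat_lit 0x2bef78)) e) e) e)
  e) e) e) e)) (c (c (c (c (c (c (c (c (p (nat_lit 0x209b28a)) e) e) e) e) e) e) e) e))))) (c (c (c (c (c (c
  (c (c (c (p (nat_lit 0x5feda7e)) (c (p (nat_lit 0xa4548e)) (c (m (nat_lit 0x2eeba)) e))) (c (c (m (nat_lit
  0x1a7c642)) (c (m (nat_lit 0xed68dc)) e)) (c (c (p (nat_lit 0xbaf9d8)) e) e))) (c (c (c (m (nat_lit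
  0x665bd22)) (c (m (nat_lit 0x2dc60)) e)) (c (c (p (nat_lit 0x8aba6)) e) e)) (c (c (c (p (nat_lit
  0x256f2c0)) e) e) e))) (c (c (c (c (p (nat_lit 0xa4548e)) (c (p (nat_lit 0x34337a)) (c (m (nat_lit
  0xb02524)) e))) (c (c (p (nat_lit 0xea4548)) (c (p (nat_lit 0x89e5c0)) e)) (c (c (m (nat_lit 0x6a361a)) e)
  e))) (c (c (c (m (nat_lit 0x5a9c1e)) (c (m (nat_lit 0x56eb6c)) e)) (c (c (m (nat_lit 0x8645dc)) e) e)) (c
  (c (c (m (nat_lit 0x9884d0)) e) e) e))) (c (c (c (c (m (nat_lit 0x2eeba)) (c (m (nat_lit 0xb02524)) e)) (c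
  (c (p (nat_lit 0x217d82)) e) e)) (c (c (c (m (nat_lit 0xbe038)) e) e) e)) e))) (c (c (c (c (c (m (nat_lit
  0x1a7c642)) (c (p (nat_lit 0xea4548)) (c (p (nat_lit 0x217d82)) e))) (c (c (m (nat_lit 0x2f6886)) (c (p
  (nat_lit 0x359b32)) e)) (c (c (m (nat_lit 0x55878c)) e) e))) (c (c (c (m (nat_lit 0x41749da)) (c (m
  (nat_lit 0x2f2e60)) e)) (c (c (p (nat_lit 0x3b850)) e) e)) (c (c (c (p (nat_lit 0x21452e8)) e) e) e))) (c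
  (c (c (c (m (nat_lit 0xed68dc)) (c (p (nat_lit 0x89e5c0)) e)) (c (c (p (nat_lit 0x359b32)) e) e)) (c (c (c
  (m (nat_lit 0x50282a)) e) e) e)) e)) (c (c (c (c (c (p (nat_lit 0xbaf9d8)) (c (m (nat_lit 0x6a361a)) e)) (c
  (c (m (nat_lit 0x55878c)) e) e)) (c (c (c (m (nat_lit 0x2cd2ca)) e) e) e)) e) e))) (c (c (c (c (c (c (m
  (nat_lit 0x665bd22)) (c (m (nat_lit 0x5a9c1e)) (c (m (nat_lit 0xbe038)) e))) (c (c (m (nat_lit 0x41749da))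
  (c (m (nat_lit 0x50282a)) e)) (c (c (m (nat_lit 0x2cd2ca)) e) e))) (c (c (c (p (nat_lit 0x6e8106a)) (c (m
  (nat_lit 0xb57a8a)) e)) (c (c (m (nat_lit 0x32fc2e)) e) e)) (c (c (c (m (nat_lit 0x2fa0198)) e) e) e))) (c
  (c (c (c (m (nat_lit 0x2dc60)) (c (m (nat_lit 0x56eb6c)) e)) (c (c (m (nat_lit 0x2f2e60)) e) e)) (c (c (c
  (m (nat_lit 0xb57a8a)) e) e) e)) e)) (c (c (c (c (c (p (nat_lit 0x8aba6)) (c (m (nat_lit 0x8645dc)) e)) (c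
  (c (p (nat_lit 0x3b850)) e) e)) (c (c (c (m (nat_lit 0x32fc2e)) e) e) e)) e) e)) (c (c (c (c (c (c (p
  (nat_lit 0x256f2c0)) (c (m (nat_lit 0x9884d0)) e)) (c (c (p (nat_lit 0x21452e8)) e) e)) (c (c (c (m
  (nat_lit 0x2fa0198)) e) e) e)) e) e) e))) (c (c (c (c (c (c (c (m (nat_lit 0x4fa25d2)) (c (m (nat_lit
  0x11d837c)) (c (p (nat_lit 0x2f164e)) e))) (c (c (m (nat_lit 0x9fadd6)) (c (p (nat_lit 0x8c413e)) e)) (c (c
  (m (nat_lit 0x2b0926)) e) e))) (c (c (c (p (nat_lit 0x840c588)) (c (m (nat_lit 0x8c823c)) e)) (c (c (m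
  (nat_lit 0x8f8638)) e) e)) (c (c (c (m (nat_lit 0x10fdbb0)) e) e) e))) (c (c (c (c (m (nat_lit 0x11d837c))
  (c (m (nat_lit 0x217549e)) e)) (c (c (m (nat_lit 0x8ff90a)) e) e)) (c (c (c (p (nat_lit 0x14c0bf8)) e) e)
  e)) (c (c (c (c (p (nat_lit 0x2f164e)) e) e) e) e))) (c (c (c (c (c (m (nat_lit 0x9fadd6)) (c (m (nat_lit
  0x8ff90a)) e)) (c (c (m (nat_lit 0x89759a)) e) e)) (c (c (c (p (nat_lit 0x218ae94)) e) e) e)) (c (c (c (c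
  (p (nat_lit 0x8c413e)) e) e) e) e)) (c (c (c (c (c (m (nat_lit 0x2b0926)) e) e) e) e) e))) (c (c (c (c (c
  (c (p (nat_lit 0x840c588)) (c (p (nat_lit 0x14c0bf8)) e)) (c (c (p (nat_lit 0x218ae94)) e) e)) (c (c (c (m
  (nat_lit 0x4428f5a)) e) e) e)) (c (c (c (c (m (nat_lit 0x8c823c)) e) e) e) e)) (c (c (c (c (c (m (nat_lit
  0x8f8638)) e) e) e) e) e)) (c (c (c (c (c (c (m (nat_lit 0x10fdbb0)) e) e) e) e) e) e))) (c (c (c (c (c (c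
  (c (p (nat_lit 0xe58af8)) (c (p (nat_lit 0x89f85c)) e)) (c (c (p (nat_lit 0x1350210)) e) e)) (c (c (c (m
  (nat_lit 0x17d8e7a)) e) e) e)) (c (c (c (c (p (nat_lit 0x89f85c)) e) e) e) e)) (c (c (c (c (c (p (nat_lit
  0x1350210)) e) e) e) e) e)) (c (c (c (c (c (c (m (nat_lit 0x17d8e7a)) e) e) e) e) e) e)) (c (c (c (c (c (c
  (c (m (nat_lit 0x24e14e0)) e) e) e) e) e) e) e)))) (c (c (c (c (c (c (c (c (m (nat_lit 0x4ff37c4)) (c (m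
  (nat_lit 0x7ce744)) (c (p (nat_lit 0x432342)) e))) (c (c (m (nat_lit 0x7ce6f0)) (c (m (nat_lit 0x1206606))
  e)) (c (c (p (nat_lit 0x43234e)) e) e))) (c (c (c (m (nat_lit 0x4a3b86)) (c (p (nat_lit 0x6306a2)) e)) (c
  (c (p (nat_lit 0x63069c)) e) e)) (c (c (c (p (nat_lit 0x2e50fd8)) e) e) e))) (c (c (c (c (m (nat_lit
  0x7ce744)) (c (p (nat_lit 0xb13cc)) e)) (c (c (m (nat_lit 0xa6f2a8)) e) e)) (c (c (c (p (nat_lit 0xf71b8))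
  e) e) e)) (c (c (c (c (p (nat_lit 0x432342)) e) e) e) e))) (c (c (c (c (c (m (nat_lit 0x7ce6f0)) (c (m
  (nat_lit 0xa6f2a8)) e)) (c (c (p (nat_lit 0xb1408)) e) e)) (c (c (c (p (nat_lit 0xf71ee)) e) e) e)) (c (c
  (c (c (m (nat_lit 0x1206606)) e) e) e) e)) (c (c (c (c (c (p (nat_lit 0x43234e)) e) e) e) e) e))) (c (c (c
  (c (c (c (m (nat_lit 0x4a3b86)) (c (p (nat_lit 0xf71b8)) e)) (c (c (p (nat_lit 0xf71ee)) e) e)) (c (c (c (p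
  (nat_lit 0x23d3d2c)) e) e) e)) (c (c (c (c (p (nat_lit 0x6306a2)) e) e) e) e)) (c (c (c (c (c (p (nat_lit
  0x63069c)) e) e) e) e) e)) (c (c (c (c (c (c (p (nat_lit 0x2e50fd8)) e) e) e) e) e) e))) (c (c (c (c (c (c
  (c (p (nat_lit 0xb4840f0)) (c (p (nat_lit 0x95745c)) e)) (c (c (p (nat_lit 0xab0fcc)) e) e)) (c (c (c (m
  (nat_lit 0x49f53ae)) e) e) e)) (c (c (c (c (p (nat_lit 0x95745c)) e) e) e) e)) (c (c (c (c (c (p (nat_lit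
  0xab0fcc)) e) e) e) e) e)) (c (c (c (c (c (c (m (nat_lit 0x49f53ae)) e) e) e) e) e) e)) (c (c (c (c (c (c
  (c (m (nat_lit 0x141eb74)) e) e) e) e) e) e) e))) (c (c (c (c (c (c (c (c (p (nat_lit 0x144ac32)) (c (p
  (nat_lit 0x35ccb8)) e)) (c (c (m (nat_lit 0xa842e4)) e) e)) (c (c (c (m (nat_lit 0x15cc1d4)) e) e) e)) (c
  (c (c (c (p (nat_lit 0x35ccb8)) e) e) e) e)) (c (c (c (c (c (m (nat_lit 0xa842e4)) e) e) e) e) e)) (c (c (c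
  (c (c (c (m (nat_lit 0x15cc1d4)) e) e) e) e) e) e)) (c (c (c (c (c (c (c (m (nat_lit 0x3004b72)) e) e) e)
  e) e) e) e)) (c (c (c (c (c (c (c (c (m (nat_lit 0x240b64)) e) e) e) e) e) e) e) e)))) (c (c (c (c (c (c (c
  (c (c (m (nat_lit 0x351de)) (c (p (nat_lit 0x20a1da)) (c (p (nat_lit 0x9c306)) e))) (c (c (p (nat_lit
  0x1fbf0)) (c (p (nat_lit 0x627990)) e)) (c (c (m (nat_lit 0x532d46)) e) e))) (c (c (c (p (nat_lit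
  0x3304d4c)) (c (p (nat_lit 0xad2530)) e)) (c (c (p (nat_lit 0x79e05a)) e) e)) (c (c (c (m (nat_lit
  0x219fb70)) e) e) e))) (c (c (c (c (p (nat_lit 0x20a1da)) (c (p (nat_lit 0x3c509ee)) e)) (c (c (p (nat_lit
  0xc667e)) e) e)) (c (c (c (p (nat_lit 0x1dc262)) e) e) e)) (c (c (c (c (p (nat_lit 0x9c306)) e) e) e) e)))
  (c (c (c (c (c (p (nat_lit 0x1fbf0)) (c (p (nat_lit 0xc667e)) e)) (c (c (p (nat_lit 0x1aabd78)) e) e)) (c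
  (c (c (p (nat_lit 0x8c454c)) e) e) e)) (c (c (c (c (p (nat_lit 0x627990)) e) e) e) e)) (c (c (c (c (c (m
  (nat_lit 0x532d46)) e) e) e) e) e))) (c (c (c (c (c (c (p (nat_lit 0x3304d4c)) (c (p (nat_lit 0x1dc262))
  e)) (c (c (p (nat_lit 0x8c454c)) e) e)) (c (c (c (p (nat_lit 0x2f94156)) e) e) e)) (c (c (c (c (p (nat_lit
  0xad2530)) e) e) e) e)) (c (c (c (c (c (p (nat_lit 0x79e05a)) e) e) e) e) e)) (c (c (c (c (c (c (m (nat_lit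
  0x219fb70)) e) e) e) e) e) e))) (c (c (c (c (c (c (c (p (nat_lit 0x1ba82e8)) (c (m (nat_lit 0x20d870)) e))
  (c (c (m (nat_lit 0x318b10)) e) e)) (c (c (c (m (nat_lit 0x253392c)) e) e) e)) (c (c (c (c (m (nat_lit
  0x20d870)) e) e) e) e)) (c (c (c (c (c (m (nat_lit 0x318b10)) e) e) e) e) e)) (c (c (c (c (c (c (m (nat_lit
  0x253392c)) e) e) e) e) e) e)) (c (c (c (c (c (c (c (p (nat_lit 0x1373d42)) e) e) e) e) e) e) e))) (c (c (c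
  (c (c (c (c (c (p (nat_lit 0x144ac0e)) (c (m (nat_lit 0xa842fc)) e)) (c (c (p (nat_lit 0x35ccb8)) e) e)) (c
  (c (c (m (nat_lit 0x15cc1da)) e) e) e)) (c (c (c (c (m (nat_lit 0xa842fc)) e) e) e) e)) (c (c (c (c (c (p
  (nat_lit 0x35ccb8)) e) e) e) e) e)) (c (c (c (c (c (c (m (nat_lit 0x15cc1da)) e) e) e) e) e) e)) (c (c (c
  (c (c (c (c (m (nat_lit 0x2d3c97e)) e) e) e) e) e) e) e)) (c (c (c (c (c (c (c (c (p (nat_lit 0x3f52704))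
  e) e) e) e) e) e) e) e))) (c (c (c (c (c (c (c (c (c (m (nat_lit 0x2054e92)) (c (m (nat_lit 0x118a17e)) e))
  (c (c (m (nat_lit 0x1d2e4e)) e) e)) (c (c (c (m (nat_lit 0x301fda)) e) e) e)) (c (c (c (c (m (nat_lit
  0x118a17e)) e) e) e) e)) (c (c (c (c (c (m (nat_lit 0x1d2e4e)) e) e) e) e) e)) (c (c (c (c (c (c (m
  (nat_lit 0x301fda)) e) e) e) e) e) e)) (c (c (c (c (c (c (c (m (nat_lit 0x4e8e62)) e) e) e) e) e) e) e)) (c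
  (c (c (c (c (c (c (c (m (nat_lit 0x240b70)) e) e) e) e) e) e) e) e)) (c (c (c (c (c (c (c (c (c (p (nat_lit
  0x209b2a2)) e) e) e) e) e) e) e) e) e)))))

noncomputable def gt_0_4_5 : Tr :=
  (c (c (c (c (c (c (c (c (c (m (nat_lit 0x31adf60)) (c (p (nat_lit 0x279c372)) (c (p (nat_lit 0x448b96))
  e))) (c (c (m (nat_lit 0xd6e36)) (c (p (nat_lit 0x9751f8)) e)) (c (c (p (nat_lit 0x9e8dee)) e) e))) (c (c
  (c (p (nat_lit 0x30a7694)) (c (m (nat_lit 0x1d403ba)) e)) (c (c (m (nat_lit 0x61396e)) e) e)) (c (c (c (p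
  (nat_lit 0x6d4214)) e) e) e))) (c (c (c (c (p (nat_lit 0x4570fe)) (c (m (nat_lit 0x1970d90)) (c (m (nat_lit
  0xd92b9a)) e))) (c (c (m (nat_lit 0x19ea338)) (c (m (nat_lit 0x4513da)) e)) (c (c (p (nat_lit 0x8e75da)) e)
  e))) (c (c (c (p (nat_lit 0x607fda)) (c (p (nat_lit 0xc7aa18)) e)) (c (c (m (nat_lit 0x1243e0)) e) e)) (c
  (c (c (m (nat_lit 0x4f86f0)) e) e) e))) (c (c (c (c (m (nat_lit 0x3901c2)) (c (p (nat_lit 0x10fbeb2)) (c (m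
  (nat_lit 0x33b0b2)) e))) (c (c (p (nat_lit 0x38603a)) (c (p (nat_lit 0x231bdc)) e)) (c (c (m (nat_lit
  0x75a33e)) e) e))) (c (c (c (m (nat_lit 0x905352)) (c (p (nat_lit 0x438d0e)) e)) (c (c (p (nat_lit
  0x28291e)) e) e)) (c (c (c (p (nat_lit 0x18fc84)) e) e) e))) e))) (c (c (c (c (c (p (nat_lit 0x1f16cd6)) (c
  (m (nat_lit 0x1133cac)) (c (p (nat_lit 0xb7a0e6)) e))) (c (c (m (nat_lit 0x14a7776)) (c (m (nat_lit
  0x10933e)) e)) (c (c (m (nat_lit 0x7c28a)) e) e))) (c (c (c (m (nat_lit 0x2979756)) (c (p (nat_lit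
  0xedaa9a)) e)) (c (c (p (nat_lit 0xabe658)) e) e)) (c (c (c (p (nat_lit 0x22e8b2)) e) e) e))) (c (c (c (c
  (p (nat_lit 0x166704)) (c (p (nat_lit 0x54713a)) (c (m (nat_lit 0x10d98f8)) e))) (c (c (p (nat_lit
  0x151e1aa)) (c (p (nat_lit 0x4fe)) e)) (c (c (m (nat_lit 0xe373f6)) e) e))) (c (c (c (p (nat_lit 0xbceaee))
  (c (m (nat_lit 0x179b98)) e)) (c (c (m (nat_lit 0x12b550)) e) e)) (c (c (c (p (nat_lit 0x6facc8)) e) e)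
  e))) e)) (c (c (c (c (c (m (nat_lit 0xee2720)) (c (m (nat_lit 0xf302a6)) (c (p (nat_lit 0x6ceee)) e))) (c
  (c (m (nat_lit 0x2085b4)) (c (m (nat_lit 0x7bd074)) e)) (c (c (p (nat_lit 0x4e35f4)) e) e))) (c (c (c (p
  (nat_lit 0x180a710)) (c (p (nat_lit 0xad6f28)) e)) (c (c (m (nat_lit 0x125cb2)) e) e)) (c (c (c (m (nat_lit
  0x5e5744)) e) e) e))) e) e))) (c (c (c (c (c (c (p (nat_lit 0x29dcc96)) (c (p (nat_lit 0x11691ae)) (c (m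
  (nat_lit 0xe97d08)) e))) (c (c (m (nat_lit 0x1154952)) (c (m (nat_lit 0x1da97b0)) e)) (c (c (m (nat_lit
  0x1060fc8)) e) e))) (c (c (c (m (nat_lit 0x9a9173c)) (c (p (nat_lit 0x4265940)) e)) (c (c (p (nat_lit
  0x12716b8)) e) e)) (c (c (c (m (nat_lit 0x2a83a30)) e) e) e))) (c (c (c (c (m (nat_lit 0x19a23e)) (c (p
  (nat_lit 0xbfaf72)) (c (m (nat_lit 0x53ba22)) e))) (c (c (p (nat_lit 0x361626)) (c (p (nat_lit 0x38901c))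
  e)) (c (c (m (nat_lit 0x2d6f5a)) e) e))) (c (c (c (p (nat_lit 0x16fc380)) (c (p (nat_lit 0x21aec)) e)) (c
  (c (m (nat_lit 0x18cdf2)) e) e)) (c (c (c (m (nat_lit 0x4a73ba)) e) e) e))) e)) (c (c (c (c (c (m (nat_lit
  0xd2bfc4)) (c (p (nat_lit 0xbf7240)) (c (m (nat_lit 0xd715a0)) e))) (c (c (p (nat_lit 0x109f38)) (c (p
  (nat_lit 0x5dc684)) e)) (c (c (p (nat_lit 0x5d0b0a)) e) e))) (c (c (c (p (nat_lit 0x164f7cc)) (c (m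
  (nat_lit 0x6b4414)) e)) (c (c (m (nat_lit 0x3b34d2)) e) e)) (c (c (c (p (nat_lit 0x635952)) e) e) e))) e)
  e)) (c (c (c (c (c (c (m (nat_lit 0x20c3640)) (c (m (nat_lit 0x16470)) (c (p (nat_lit 0x591c60)) e))) (c (c
  (m (nat_lit 0x1210ad0)) (c (p (nat_lit 0x13c2a08)) e)) (c (c (p (nat_lit 0x1565a30)) e) e))) (c (c (c (p
  (nat_lit 0x4e61458)) (c (m (nat_lit 0x1516470)) e)) (c (c (m (nat_lit 0x75aa10)) e) e)) (c (c (c (p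
  (nat_lit 0x2b591f8)) e) e) e))) e) e) e))) (c (c (c (c (c (c (c (p (nat_lit 0x39de01e)) (c (m (nat_lit
  0x26b6b90)) (c (m (nat_lit 0xfc9708)) e))) (c (c (p (nat_lit 0xc9afd4)) (c (m (nat_lit 0x4090b6)) e)) (c (c
  (m (nat_lit 0x1886b20)) e) e))) (c (c (c (m (nat_lit 0x2d9e154)) (c (m (nat_lit 0x5eb0a2)) e)) (c (c (m
  (nat_lit 0x4a5998)) e) e)) (c (c (c (p (nat_lit 0x997326)) e) e) e))) (c (c (c (c (m (nat_lit 0xfe0964)) (c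
  (p (nat_lit 0xf2aebe)) (c (m (nat_lit 0x1b856e)) e))) (c (c (p (nat_lit 0xb2dd2a)) (c (m (nat_lit
  0x240666)) e)) (c (c (m (nat_lit 0x18657c)) e) e))) (c (c (c (m (nat_lit 0x267cb88)) (c (p (nat_lit
  0x38e4a6)) e)) (c (c (m (nat_lit 0xa2966)) e) e)) (c (c (c (m (nat_lit 0xf053f4)) e) e) e))) (c (c (c (c (m
  (nat_lit 0x6b9a06)) (c (p (nat_lit 0x430074)) e)) (c (c (p (nat_lit 0x5ae3b8)) e) e)) (c (c (c (m (nat_lit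
  0x351f72)) e) e) e)) e))) (c (c (c (c (c (m (nat_lit 0x274a244)) (c (p (nat_lit 0x201ba2a)) (c (p (nat_lit
  0x12dd3d0)) e))) (c (c (p (nat_lit 0x8ec6b6)) (c (p (nat_lit 0x7d2dbe)) e)) (c (c (p (nat_lit 0x1565e68))
  e) e))) (c (c (c (m (nat_lit 0x18e9df6)) (c (m (nat_lit 0x86eb60)) e)) (c (c (m (nat_lit 0x203808)) e) e))
  (c (c (c (m (nat_lit 0x67ef06)) e) e) e))) (c (c (c (c (p (nat_lit 0x81b2e0)) (c (m (nat_lit 0xa37f16)) e))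
  (c (c (m (nat_lit 0x55113c)) e) e)) (c (c (c (m (nat_lit 0x20b33e)) e) e) e)) e)) (c (c (c (c (c (p
  (nat_lit 0xbe4a)) (c (m (nat_lit 0x24ccc)) e)) (c (c (m (nat_lit 0x9a6fe)) e) e)) (c (c (c (p (nat_lit
  0x1672b6)) e) e) e)) e) e))) (c (c (c (c (c (c (p (nat_lit 0x1174404)) (c (m (nat_lit 0x22e2358)) (c (m
  (nat_lit 0x30a698)) e))) (c (c (p (nat_lit 0x2ed01ae)) (c (p (nat_lit 0x413988)) e)) (c (c (p (nat_lit
  0x2c1198)) e) e))) (c (c (c (p (nat_lit 0x376185c)) (c (m (nat_lit 0x194da8)) e)) (c (c (p (nat_lit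
  0x849b28)) e) e)) (c (c (c (m (nat_lit 0x2d0e88)) e) e) e))) (c (c (c (c (p (nat_lit 0x3128a0)) (c (m
  (nat_lit 0xf4cda)) e)) (c (c (m (nat_lit 0x38f790)) e) e)) (c (c (c (p (nat_lit 0x74b3b6)) e) e) e)) e)) (c
  (c (c (c (c (p (nat_lit 0xdee7c)) (c (p (nat_lit 0xf0288)) e)) (c (c (m (nat_lit 0xef9be)) e) e)) (c (c (c
  (p (nat_lit 0xc3a91a)) e) e) e)) e) e)) (c (c (c (c (c (c (m (nat_lit 0x24c2e50)) (c (p (nat_lit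
  0x2693bc8)) e)) (c (c (m (nat_lit 0x732108)) e) e)) (c (c (c (p (nat_lit 0x17fcd48)) e) e) e)) e) e) e)))
  (c (c (c (c (c (c (c (m (nat_lit 0x49ebfa)) (c (p (nat_lit 0x161a192)) (c (p (nat_lit 0xf25302)) e))) (c (c
  (p (nat_lit 0x6a0c80)) (c (p (nat_lit 0x2b5abc)) e)) (c (c (p (nat_lit 0xaff0d4)) e) e))) (c (c (c (p
  (nat_lit 0x3bc63fa)) (c (p (nat_lit 0xb49cc)) e)) (c (c (m (nat_lit 0x713f4)) e) e)) (c (c (c (p (nat_lit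
  0x3e4072)) e) e) e))) (c (c (c (c (p (nat_lit 0x5abae2e)) (c (p (nat_lit 0x12f9ea)) e)) (c (c (p (nat_lit
  0x4e7020)) e) e)) (c (c (c (p (nat_lit 0x2c761c2)) e) e) e)) (c (c (c (c (m (nat_lit 0x345966)) e) e) e)
  e))) (c (c (c (c (c (p (nat_lit 0x37d255a)) (c (m (nat_lit 0xea0462)) e)) (c (c (m (nat_lit 0x4fc1be)) e)
  e)) (c (c (c (p (nat_lit 0x2c87274)) e) e) e)) (c (c (c (c (m (nat_lit 0x534c84)) e) e) e) e)) (c (c (c (c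
  (c (p (nat_lit 0x5dcc)) e) e) e) e) e))) (c (c (c (c (c (c (m (nat_lit 0x191698e)) (c (m (nat_lit 0x36b16))
  e)) (c (c (m (nat_lit 0x253209c)) e) e)) (c (c (c (m (nat_lit 0x403e378)) e) e) e)) (c (c (c (c (m (nat_lit
  0x4a4cd2)) e) e) e) e)) (c (c (c (c (c (m (nat_lit 0x79625a)) e) e) e) e) e)) (c (c (c (c (c (c (m (nat_lit
  0x134b8a8)) e) e) e) e) e) e))) (c (c (c (c (c (c (c (m (nat_lit 0x1815678)) (c (m (nat_lit 0x12b9e5c)) e))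
  (c (c (m (nat_lit 0x4b6eb8)) e) e)) (c (c (c (m (nat_lit 0x12c7188)) e) e) e)) (c (c (c (c (m (nat_lit
  0x440b740)) e) e) e) e)) (c (c (c (c (c (m (nat_lit 0x2984b6e)) e) e) e) e) e)) (c (c (c (c (c (c (p
  (nat_lit 0x1ef4d4c)) e) e) e) e) e) e)) (c (c (c (c (c (c (c (p (nat_lit 0xe2f35c)) e) e) e) e) e) e)
  e))))) (c (c (c (c (c (c (c (c (p (nat_lit 0x2cc709c)) (c (m (nat_lit 0x25fe234)) (c (p (nat_lit
  0x13647a2)) e))) (c (c (m (nat_lit 0x979074)) (c (m (nat_lit 0x7175a)) e)) (c (c (p (nat_lit 0x39c570)) e)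
  e))) (c (c (c (m (nat_lit 0x2678b44)) (c (m (nat_lit 0x213be2)) e)) (c (c (m (nat_lit 0x166f14)) e) e)) (c
  (c (c (p (nat_lit 0x4e33c0)) e) e) e))) (c (c (c (c (m (nat_lit 0x115aa0)) (c (m (nat_lit 0x3f7ca4)) (c (p
  (nat_lit 0x6ab92a)) e))) (c (c (p (nat_lit 0xe1b28c)) (c (p (nat_lit 0x721cb6)) e)) (c (c (p (nat_lit
  0x1351c8)) e) e))) (c (c (c (p (nat_lit 0x1d8ad60)) (c (p (nat_lit 0x14b392)) e)) (c (c (p (nat_lit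
  0x336ebe)) e) e)) (c (c (c (m (nat_lit 0x62f10)) e) e) e))) (c (c (c (c (p (nat_lit 0x4b80c4)) (c (p
  (nat_lit 0x217ec0)) e)) (c (c (p (nat_lit 0x20f754)) e) e)) (c (c (c (m (nat_lit 0x3aa16)) e) e) e)) e)))
  (c (c (c (c (c (p (nat_lit 0x39aba2)) (c (p (nat_lit 0x6f7c8)) (c (m (nat_lit 0x96d1b2)) e))) (c (c (p
  (nat_lit 0x396c43e)) (c (m (nat_lit 0x7f787a)) e)) (c (c (m (nat_lit 0x258a812)) e) e))) (c (c (c (p
  (nat_lit 0x11908da)) (c (m (nat_lit 0xcb9e32)) e)) (c (c (m (nat_lit 0x100c7e2)) e) e)) (c (c (c (m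
  (nat_lit 0x9a2018)) e) e) e))) (c (c (c (c (m (nat_lit 0x79ba4a)) (c (p (nat_lit 0xe6400)) e)) (c (c (p
  (nat_lit 0x5de73c)) e) e)) (c (c (c (p (nat_lit 0x6180)) e) e) e)) e)) (c (c (c (c (c (p (nat_lit
  0x1841bb6)) (c (m (nat_lit 0x55b036)) e)) (c (c (m (nat_lit 0xf8aefa)) e) e)) (c (c (c (p (nat_lit
  0x9ccf6)) e) e) e)) e) e))) (c (c (c (c (c (c (m (nat_lit 0x2e052d0)) (c (p (nat_lit 0x308a8e8)) (c (m
  (nat_lit 0x14d9de)) e))) (c (c (p (nat_lit 0x21e56c8)) (c (m (nat_lit 0x247278)) e)) (c (c (m (nat_lit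
  0x5898a8)) e) e))) (c (c (c (p (nat_lit 0x6f9fe5e)) (c (m (nat_lit 0x227784)) e)) (c (c (m (nat_lit
  0x360966)) e) e)) (c (c (c (m (nat_lit 0x5bb6fc)) e) e) e))) (c (c (c (c (m (nat_lit 0x87fc7e)) (c (p
  (nat_lit 0x3495ba)) e)) (c (c (m (nat_lit 0x783870)) e) e)) (c (c (c (p (nat_lit 0x32af30)) e) e) e)) e))
  (c (c (c (c (c (p (nat_lit 0xb42772)) (c (m (nat_lit 0x775356)) e)) (c (c (m (nat_lit 0xec56ec)) e) e)) (c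
  (c (c (m (nat_lit 0xd6436a)) e) e) e)) e) e)) (c (c (c (c (c (c (p (nat_lit 0x2a4e1e0)) (c (m (nat_lit
  0x18ab9a8)) e)) (c (c (m (nat_lit 0x21b8320)) e) e)) (c (c (c (m (nat_lit 0x2fe93f8)) e) e) e)) e) e) e)))
  (c (c (c (c (c (c (c (m (nat_lit 0x31740cc)) (c (p (nat_lit 0x1ee7eca)) (c (p (nat_lit 0x68238)) e))) (c (c
  (m (nat_lit 0x8b2558)) (c (m (nat_lit 0x162fa8)) e)) (c (c (p (nat_lit 0x68ee36)) e) e))) (c (c (c (p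
  (nat_lit 0x7b4f44)) (c (p (nat_lit 0x899052)) e)) (c (c (m (nat_lit 0x34788)) e) e)) (c (c (c (m (nat_lit
  0x1f38ba)) e) e) e))) (c (c (c (c (p (nat_lit 0x26c00a)) (c (m (nat_lit 0x247188)) e)) (c (c (m (nat_lit
  0x77e470)) e) e)) (c (c (c (p (nat_lit 0xa16244)) e) e) e)) (c (c (c (c (m (nat_lit 0x71073c)) e) e) e)
  e))) (c (c (c (c (c (p (nat_lit 0x1f6cae8)) (c (m (nat_lit 0x15f2aa2)) e)) (c (c (m (nat_lit 0x216f6ae)) e)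
  e)) (c (c (c (m (nat_lit 0x2fe164)) e) e) e)) (c (c (c (c (p (nat_lit 0x4f406a)) e) e) e) e)) (c (c (c (c
  (c (p (nat_lit 0x644544)) e) e) e) e) e))) (c (c (c (c (c (c (p (nat_lit 0x2867484)) (c (m (nat_lit
  0x11badde)) e)) (c (c (p (nat_lit 0x69c966)) e) e)) (c (c (c (m (nat_lit 0xd59f5a)) e) e) e)) (c (c (c (c
  (p (nat_lit 0x2480ac)) e) e) e) e)) (c (c (c (c (c (p (nat_lit 0x718170)) e) e) e) e) e)) (c (c (c (c (c (c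
  (m (nat_lit 0x7fa610)) e) e) e) e) e) e))) (c (c (c (c (c (c (c (m (nat_lit 0x4348cbc)) (c (m (nat_lit
  0x9524a)) e)) (c (c (p (nat_lit 0xae2a)) e) e)) (c (c (c (m (nat_lit 0x1fffa10)) e) e) e)) (c (c (c (c (p
  (nat_lit 0xad0bc2)) e) e) e) e)) (c (c (c (c (c (p (nat_lit 0x1ce10e)) e) e) e) e) e)) (c (c (c (c (c (c (p
  (nat_lit 0xe98b60)) e) e) e) e) e) e)) (c (c (c (c (c (c (c (p (nat_lit 0x2172f60)) e) e) e) e) e) e) e))))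
  (c (c (c (c (c (c (c (c (m (nat_lit 0x1134d86)) (c (p (nat_lit 0x997386)) (c (m (nat_lit 0xcb346)) e))) (c
  (c (m (nat_lit 0xef676c)) (c (p (nat_lit 0x2e4436)) e)) (c (c (p (nat_lit 0x849450)) e) e))) (c (c (c (p
  (nat_lit 0x62add4)) (c (p (nat_lit 0x5d9ad4)) e)) (c (c (p (nat_lit 0x5012c4)) e) e)) (c (c (c (m (nat_lit
  0x12e13c)) e) e) e))) (c (c (c (c (p (nat_lit 0x50ba7c)) (c (m (nat_lit 0x1637ee)) e)) (c (c (m (nat_lit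
  0x123fc96)) e) e)) (c (c (c (m (nat_lit 0x62ec14)) e) e) e)) (c (c (c (c (m (nat_lit 0x45b670)) e) e) e)
  e))) (c (c (c (c (c (m (nat_lit 0x3a5bdf0)) (c (p (nat_lit 0x10fa124)) e)) (c (c (p (nat_lit 0x3347c58)) e)
  e)) (c (c (c (p (nat_lit 0xcc8640)) e) e) e)) (c (c (c (c (m (nat_lit 0x52368)) e) e) e) e)) (c (c (c (c (c
  (m (nat_lit 0x8cce3e)) e) e) e) e) e))) (c (c (c (c (c (c (m (nat_lit 0x1950fba)) (c (p (nat_lit 0xe282f4))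
  e)) (c (c (p (nat_lit 0x14512ce)) e) e)) (c (c (c (p (nat_lit 0x1597b5a)) e) e) e)) (c (c (c (c (m (nat_lit
  0x17eb84)) e) e) e) e)) (c (c (c (c (c (p (nat_lit 0x225d68)) e) e) e) e) e)) (c (c (c (c (c (c (m (nat_lit
  0x3dc0e0)) e) e) e) e) e) e))) (c (c (c (c (c (c (c (p (nat_lit 0x26c643c)) (c (m (nat_lit 0x11aa9a4)) e))
  (c (c (p (nat_lit 0x5a2e4a)) e) e)) (c (c (c (m (nat_lit 0xaad98a)) e) e) e)) (c (c (c (c (p (nat_lit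
  0x6c3864)) e) e) e) e)) (c (c (c (c (c (m (nat_lit 0xbf384a)) e) e) e) e) e)) (c (c (c (c (c (c (m (nat_lit
  0x14e236c)) e) e) e) e) e) e)) (c (c (c (c (c (c (c (p (nat_lit 0x55f302)) e) e) e) e) e) e) e))) (c (c (c
  (c (c (c (c (c (p (nat_lit 0x18a0944)) (c (m (nat_lit 0x45d8d2)) e)) (c (c (m (nat_lit 0x1377eb8)) e) e))
  (c (c (c (m (nat_lit 0x60570c)) e) e) e)) (c (c (c (c (m (nat_lit 0x5d10f8)) e) e) e) e)) (c (c (c (c (c (p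
  (nat_lit 0x1652400)) e) e) e) e) e)) (c (c (c (c (c (c (m (nat_lit 0x22f542)) e) e) e) e) e) e)) (c (c (c
  (c (c (c (c (p (nat_lit 0x8f17e)) e) e) e) e) e) e) e)) (c (c (c (c (c (c (c (c (m (nat_lit 0x703e36)) e)
  e) e) e) e) e) e) e))))) (c (c (c (c (c (c (c (c (c (p (nat_lit 0x3accee4)) (c (m (nat_lit 0x8d42b4)) (c (m
  (nat_lit 0x317442)) e))) (c (c (p (nat_lit 0x25c260)) (c (m (nat_lit 0xc39ae)) e)) (c (c (m (nat_lit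
  0x5b2cea)) e) e))) (c (c (c (m (nat_lit 0x23cb2fc)) (c (m (nat_lit 0x4abc8)) e)) (c (c (m (nat_lit
  0x6696ea)) e) e)) (c (c (c (m (nat_lit 0xce3bb6)) e) e) e))) (c (c (c (c (p (nat_lit 0xfd60d4)) (c (p
  (nat_lit 0x4ae740)) (c (p (nat_lit 0xff517e)) e))) (c (c (m (nat_lit 0x4b3d98)) (c (p (nat_lit 0x537522))
  e)) (c (c (p (nat_lit 0x118735e)) e) e))) (c (c (c (m (nat_lit 0xef79f0)) (c (m (nat_lit 0xffeb86)) e)) (c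
  (c (p (nat_lit 0x33f2fa)) e) e)) (c (c (c (p (nat_lit 0x3b946c)) e) e) e))) (c (c (c (c (m (nat_lit
  0x41e47c)) (c (m (nat_lit 0x462408)) e)) (c (c (m (nat_lit 0x1bb814)) e) e)) (c (c (c (p (nat_lit
  0x3a5012)) e) e) e)) e))) (c (c (c (c (c (m (nat_lit 0x2755188)) (c (p (nat_lit 0x1391994)) (c (m (nat_lit
  0xd591e0)) e))) (c (c (p (nat_lit 0x4985d0)) (c (p (nat_lit 0x668106)) e)) (c (c (p (nat_lit 0x7fa6d6)) e)
  e))) (c (c (c (m (nat_lit 0x5dfd86)) (c (m (nat_lit 0x3c060c)) e)) (c (c (p (nat_lit 0x5c670)) e) e)) (c (c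
  (c (p (nat_lit 0x103c4ca)) e) e) e))) (c (c (c (c (m (nat_lit 0xafb8d0)) (c (p (nat_lit 0xa43a30)) e)) (c
  (c (p (nat_lit 0xfb93a)) e) e)) (c (c (c (m (nat_lit 0x389a9c)) e) e) e)) e)) (c (c (c (c (c (p (nat_lit
  0x1d9a60)) (c (p (nat_lit 0x12479a)) e)) (c (c (p (nat_lit 0x2c6cca)) e) e)) (c (c (c (p (nat_lit
  0x1064a6)) e) e) e)) e) e))) (c (c (c (c (c (c (m (nat_lit 0x3c28716)) (c (p (nat_lit 0x1bb9d42)) (c (m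
  (nat_lit 0x7fa904)) e))) (c (c (p (nat_lit 0x7db56)) (c (m (nat_lit 0x7168b6)) e)) (c (c (m (nat_lit
  0x255312)) e) e))) (c (c (c (p (nat_lit 0x42f9df8)) (c (m (nat_lit 0x689f70)) e)) (c (c (m (nat_lit
  0x43ad8a)) e) e)) (c (c (c (m (nat_lit 0xd07d6)) e) e) e))) (c (c (c (c (m (nat_lit 0xd2ee74)) (c (p
  (nat_lit 0x4f41ea)) e)) (c (c (p (nat_lit 0x4b1872)) e) e)) (c (c (c (p (nat_lit 0x2de4c6)) e) e) e)) e))
  (c (c (c (c (c (m (nat_lit 0x2f22c)) (c (m (nat_lit 0x23028c)) e)) (c (c (p (nat_lit 0x37a076)) e) e)) (c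
  (c (c (p (nat_lit 0xa866c6)) e) e) e)) e) e)) (c (c (c (c (c (c (p (nat_lit 0xba9780)) (c (m (nat_lit
  0x15c5be0)) e)) (c (c (p (nat_lit 0x131ae58)) e) e)) (c (c (c (m (nat_lit 0x2ad52d0)) e) e) e)) e) e) e)))
  (c (c (c (c (c (c (c (p (nat_lit 0x2bb72a8)) (c (p (nat_lit 0x2154ae)) (c (p (nat_lit 0x6afd94)) e))) (c (c
  (m (nat_lit 0x12723d2)) (c (m (nat_lit 0x418182)) e)) (c (c (p (nat_lit 0xa0c62)) e) e))) (c (c (c (p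
  (nat_lit 0x2ccb044)) (c (p (nat_lit 0x2d864c)) e)) (c (c (p (nat_lit 0x8ff034)) e) e)) (c (c (c (p (nat_lit
  0x2eed32)) e) e) e))) (c (c (c (c (m (nat_lit 0x23a3ccc)) (c (p (nat_lit 0xdc7d8a)) e)) (c (c (p (nat_lit
  0x913440)) e) e)) (c (c (c (p (nat_lit 0x1877dc)) e) e) e)) (c (c (c (c (p (nat_lit 0x37be40)) e) e) e)
  e))) (c (c (c (c (c (p (nat_lit 0x4a2788)) (c (m (nat_lit 0x1845d2)) e)) (c (c (m (nat_lit 0x5a66c0)) e)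
  e)) (c (c (c (p (nat_lit 0x14843a)) e) e) e)) (c (c (c (c (m (nat_lit 0x1fc0bc)) e) e) e) e)) (c (c (c (c
  (c (m (nat_lit 0x13875c)) e) e) e) e) e))) (c (c (c (c (c (c (m (nat_lit 0x4f2fae0)) (c (p (nat_lit
  0x28732e)) e)) (c (c (p (nat_lit 0x52bb10)) e) e)) (c (c (c (m (nat_lit 0x120ad88)) e) e) e)) (c (c (c (c
  (m (nat_lit 0x3c9cf0)) e) e) e) e)) (c (c (c (c (c (m (nat_lit 0x46f1d6)) e) e) e) e) e)) (c (c (c (c (c (c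
  (p (nat_lit 0x10504e0)) e) e) e) e) e) e))) (c (c (c (c (c (c (c (m (nat_lit 0x6af47cc)) (c (m (nat_lit
  0xa7e80)) e)) (c (c (p (nat_lit 0x2b39f2)) e) e)) (c (c (c (m (nat_lit 0x20d9048)) e) e) e)) (c (c (c (c (p
  (nat_lit 0xbb1568)) e) e) e) e)) (c (c (c (c (c (p (nat_lit 0xe4052e)) e) e) e) e) e)) (c (c (c (c (c (c (p
  (nat_lit 0x59c5a2e)) e) e) e) e) e) e)) (c (c (c (c (c (c (c (p (nat_lit 0x1860c06)) e) e) e) e) e) e)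
  e)))) (c (c (c (c (c (c (c (c (m (nat_lit 0x122b39e)) (c (p (nat_lit 0x85b588)) (c (p (nat_lit 0xb1ca02))
  e))) (c (c (m (nat_lit 0xa5fe9a)) (c (m (nat_lit 0x4c33da)) e)) (c (c (p (nat_lit 0x3aae56)) e) e))) (c (c
  (c (p (nat_lit 0x985110)) (c (m (nat_lit 0x794862)) e)) (c (c (p (nat_lit 0x145d52)) e) e)) (c (c (c (p
  (nat_lit 0x1a8ad6)) e) e) e))) (c (c (c (c (m (nat_lit 0x233896e)) (c (m (nat_lit 0x7e2dea)) e)) (c (c (p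
  (nat_lit 0x722e2)) e) e)) (c (c (c (m (nat_lit 0x50907c)) e) e) e)) (c (c (c (c (p (nat_lit 0x4abc6e)) e)
  e) e) e))) (c (c (c (c (c (p (nat_lit 0xad4414)) (c (m (nat_lit 0x1cf08)) e)) (c (c (m (nat_lit 0x1036fe0))
  e) e)) (c (c (c (m (nat_lit 0xa253ee)) e) e) e)) (c (c (c (c (m (nat_lit 0x43207e)) e) e) e) e)) (c (c (c
  (c (c (p (nat_lit 0x723ee8)) e) e) e) e) e))) (c (c (c (c (c (c (p (nat_lit 0x81d41c)) (c (m (nat_lit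
  0x131688c)) e)) (c (c (p (nat_lit 0x453ea0)) e) e)) (c (c (c (m (nat_lit 0x6813f0)) e) e) e)) (c (c (c (c
  (p (nat_lit 0x750)) e) e) e) e)) (c (c (c (c (c (p (nat_lit 0x120fae)) e) e) e) e) e)) (c (c (c (c (c (c (p
  (nat_lit 0x1c729b0)) e) e) e) e) e) e))) (c (c (c (c (c (c (c (p (nat_lit 0x3f8c2a4)) (c (p (nat_lit
  0x1000d82)) e)) (c (c (p (nat_lit 0x4b0d2c)) e) e)) (c (c (c (m (nat_lit 0x83d456)) e) e) e)) (c (c (c (c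
  (m (nat_lit 0x2358c0)) e) e) e) e)) (c (c (c (c (c (p (nat_lit 0x1174218)) e) e) e) e) e)) (c (c (c (c (c
  (c (m (nat_lit 0x2526e40)) e) e) e) e) e) e)) (c (c (c (c (c (c (c (m (nat_lit 0xbbdd42)) e) e) e) e) e) e)
  e))) (c (c (c (c (c (c (c (c (p (nat_lit 0x16b4c44)) (c (p (nat_lit 0x29d1f8)) e)) (c (c (p (nat_lit
  0x1bec1c)) e) e)) (c (c (c (m (nat_lit 0x103ce30)) e) e) e)) (c (c (c (c (p (nat_lit 0x101635e)) e) e) e)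
  e)) (c (c (c (c (c (m (nat_lit 0x1529004)) e) e) e) e) e)) (c (c (c (c (c (c (p (nat_lit 0x39f5b2)) e) e)
  e) e) e) e)) (c (c (c (c (c (c (c (m (nat_lit 0x264d8cc)) e) e) e) e) e) e) e)) (c (c (c (c (c (c (c (c (p
  (nat_lit 0x5b0578)) e) e) e) e) e) e) e) e)))) (c (c (c (c (c (c (c (c (c (p (nat_lit 0x484e1e)) (c (m
  (nat_lit 0x78b58c)) (c (m (nat_lit 0x3d8570)) e))) (c (c (p (nat_lit 0x105e226)) (c (m (nat_lit 0xb8c8c))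
  e)) (c (c (m (nat_lit 0x6542be)) e) e))) (c (c (c (p (nat_lit 0xf569e8)) (c (p (nat_lit 0xe4c96)) e)) (c (c
  (m (nat_lit 0x2022c6)) e) e)) (c (c (c (m (nat_lit 0x65745c)) e) e) e))) (c (c (c (c (m (nat_lit 0x4b8f82))
  (c (m (nat_lit 0x3d0d28)) e)) (c (c (m (nat_lit 0x206e50)) e) e)) (c (c (c (m (nat_lit 0x6a447e)) e) e) e))
  (c (c (c (c (m (nat_lit 0x7d364)) e) e) e) e))) (c (c (c (c (c (p (nat_lit 0x1a2a2e)) (c (p (nat_lit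
  0x8693a6)) e)) (c (c (m (nat_lit 0x235a64)) e) e)) (c (c (c (p (nat_lit 0x160b42)) e) e) e)) (c (c (c (c (p
  (nat_lit 0x9e4216)) e) e) e) e)) (c (c (c (c (c (m (nat_lit 0x581214)) e) e) e) e) e))) (c (c (c (c (c (c
  (p (nat_lit 0x15cba48)) (c (p (nat_lit 0x11d0c6)) e)) (c (c (m (nat_lit 0x68a94e)) e) e)) (c (c (c (p
  (nat_lit 0x9bc44e)) e) e) e)) (c (c (c (c (p (nat_lit 0x70d4a2)) e) e) e) e)) (c (c (c (c (c (p (nat_lit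
  0x6439e6)) e) e) e) e) e)) (c (c (c (c (c (c (p (nat_lit 0x50cbb0)) e) e) e) e) e) e))) (c (c (c (c (c (c
  (c (p (nat_lit 0x4f9dd6)) (c (m (nat_lit 0x6eda4a)) e)) (c (c (m (nat_lit 0x10112a)) e) e)) (c (c (c (m
  (nat_lit 0xf586e)) e) e) e)) (c (c (c (c (p (nat_lit 0xd92be8)) e) e) e) e)) (c (c (c (c (c (m (nat_lit
  0x7ca8c2)) e) e) e) e) e)) (c (c (c (c (c (c (m (nat_lit 0x9bd270)) e) e) e) e) e) e)) (c (c (c (c (c (c (c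
  (p (nat_lit 0x7696e0)) e) e) e) e) e) e) e))) (c (c (c (c (c (c (c (c (p (nat_lit 0x3d9c2)) (c (p (nat_lit
  0x789288)) e)) (c (c (p (nat_lit 0x42d8d2)) e) e)) (c (c (c (p (nat_lit 0x71238)) e) e) e)) (c (c (c (c (m
  (nat_lit 0x2298de)) e) e) e) e)) (c (c (c (c (c (p (nat_lit 0x6301e0)) e) e) e) e) e)) (c (c (c (c (c (c (m
  (nat_lit 0xf14130)) e) e) e) e) e) e)) (c (c (c (c (c (c (c (m (nat_lit 0xd53d56)) e) e) e) e) e) e) e)) (c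
  (c (c (c (c (c (c (c (p (nat_lit 0xf4f49a)) e) e) e) e) e) e) e) e))) (c (c (c (c (c (c (c (c (c (m
  (nat_lit 0x827196)) (c (p (nat_lit 0x7737fc)) e)) (c (c (m (nat_lit 0x5d6156)) e) e)) (c (c (c (p (nat_lit
  0x42e82c)) e) e) e)) (c (c (c (c (m (nat_lit 0x11cc52)) e) e) e) e)) (c (c (c (c (c (p (nat_lit 0x1d9f5e))
  e) e) e) e) e)) (c (c (c (c (c (c (m (nat_lit 0x1e65ca)) e) e) e) e) e) e)) (c (c (c (c (c (c (c (m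
  (nat_lit 0x7d92c2)) e) e) e) e) e) e) e)) (c (c (c (c (c (c (c (c (m (nat_lit 0x6d4e86)) e) e) e) e) e) e)
  e) e)) (c (c (c (c (c (c (c (c (c (p (nat_lit 0x846e94)) e) e) e) e) e) e) e) e) e)))))

noncomputable def gt_0_4_6 : Tr :=
  (c (c (c (c (c (c (c (c (c (m (nat_lit 0x31adc84)) (c (m (nat_lit 0xd7244)) (c (p (nat_lit 0x9e8e54)) e)))
  (c (c (p (nat_lit 0x279c3f0)) (c (p (nat_lit 0x97522e)) e)) (c (c (p (nat_lit 0x448be4)) e) e))) (c (c (c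
  (p (nat_lit 0x30a7634)) (c (m (nat_lit 0x61398c)) e)) (c (c (m (nat_lit 0x1d403d8)) e) e)) (c (c (c (p
  (nat_lit 0x6d42bc)) e) e) e))) (c (c (c (c (p (nat_lit 0x1f16568)) (c (m (nat_lit 0x14a63c6)) (c (m
  (nat_lit 0x7c386)) e))) (c (c (m (nat_lit 0x1133c4c)) (c (m (nat_lit 0x109356)) e)) (c (c (p (nat_lit
  0xb7a098)) e) e))) (c (c (c (m (nat_lit 0x29796e4)) (c (p (nat_lit 0xabe6fa)) e)) (c (c (p (nat_lit
  0xedaac4)) e) e)) (c (c (c (p (nat_lit 0x22e894)) e) e) e))) (c (c (c (c (m (nat_lit 0xee2744)) (c (m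
  (nat_lit 0x2085b4)) (c (p (nat_lit 0x4e35e2)) e))) (c (c (m (nat_lit 0xf30294)) (c (m (nat_lit 0x7bd080))
  e)) (c (c (p (nat_lit 0x6ceb8)) e) e))) (c (c (c (p (nat_lit 0x180a728)) (c (m (nat_lit 0x125cca)) e)) (c
  (c (p (nat_lit 0xad6f34)) e) e)) (c (c (c (m (nat_lit 0x5e5768)) e) e) e))) e))) (c (c (c (c (c (p (nat_lit
  0x4557ba)) (c (m (nat_lit 0x19e946e)) (c (p (nat_lit 0x8e7664)) e))) (c (c (m (nat_lit 0x1970f34)) (c (m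
  (nat_lit 0x4513f8)) e)) (c (c (m (nat_lit 0xd92bc4)) e) e))) (c (c (c (p (nat_lit 0x607f5c)) (c (m (nat_lit
  0x124410)) e)) (c (c (p (nat_lit 0xc7aa00)) e) e)) (c (c (c (m (nat_lit 0x4f8774)) e) e) e))) (c (c (c (c
  (p (nat_lit 0x1674c0)) (c (p (nat_lit 0x151d424)) (c (m (nat_lit 0xe373a8)) e))) (c (c (p (nat_lit
  0x547188)) (c (p (nat_lit 0x4d4)) e)) (c (c (m (nat_lit 0x10d98b0)) e) e))) (c (c (c (p (nat_lit 0xbcead0))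
  (c (m (nat_lit 0x12b53e)) e)) (c (c (m (nat_lit 0x179b98)) e) e)) (c (c (c (p (nat_lit 0x6fad10)) e) e)
  e))) e)) (c (c (c (c (c (m (nat_lit 0x3901bc)) (c (p (nat_lit 0x386088)) (c (m (nat_lit 0x75a35c)) e))) (c
  (c (p (nat_lit 0x10fbeac)) (c (p (nat_lit 0x231bd0)) e)) (c (c (m (nat_lit 0x33b0d0)) e) e))) (c (c (c (m
  (nat_lit 0x905364)) (c (p (nat_lit 0x28290c)) e)) (c (c (p (nat_lit 0x438cf0)) e) e)) (c (c (c (p (nat_lit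
  0x18fc78)) e) e) e))) e) e))) (c (c (c (c (c (c (p (nat_lit 0x29dcf4e)) (c (m (nat_lit 0x1154b62)) (c (m
  (nat_lit 0x1061070)) e))) (c (c (p (nat_lit 0x116908e)) (c (m (nat_lit 0x1da97e0)) e)) (c (c (m (nat_lit
  0xe97d50)) e) e))) (c (c (c (m (nat_lit 0x9a91544)) (c (p (nat_lit 0x1271688)) e)) (c (c (p (nat_lit
  0x42659d0)) e) e)) (c (c (c (m (nat_lit 0x2a83be0)) e) e) e))) (c (c (c (c (m (nat_lit 0xd2bfa0)) (c (p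
  (nat_lit 0x109ed2)) (c (p (nat_lit 0x5d0b22)) e))) (c (c (p (nat_lit 0xbf724c)) (c (p (nat_lit 0x5dc684))
  e)) (c (c (m (nat_lit 0xd7157c)) e) e))) (c (c (c (p (nat_lit 0x164f784)) (c (m (nat_lit 0x3b34c0)) e)) (c
  (c (m (nat_lit 0x6b43e4)) e) e)) (c (c (c (p (nat_lit 0x635994)) e) e) e))) e)) (c (c (c (c (c (m (nat_lit
  0x19a1d8)) (c (p (nat_lit 0x361668)) (c (m (nat_lit 0x2d6f78)) e))) (c (c (p (nat_lit 0xbfaf60)) (c (p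
  (nat_lit 0x389016)) e)) (c (c (m (nat_lit 0x53b9f8)) e) e))) (c (c (c (p (nat_lit 0x16fc35c)) (c (m
  (nat_lit 0x18cdf2)) e)) (c (c (p (nat_lit 0x21abc)) e) e)) (c (c (c (m (nat_lit 0x4a7390)) e) e) e))) e)
  e)) (c (c (c (c (c (c (m (nat_lit 0x20c3718)) (c (m (nat_lit 0x1210ab8)) (c (p (nat_lit 0x1565ac0)) e))) (c
  (c (m (nat_lit 0x16320)) (c (p (nat_lit 0x13c29f0)) e)) (c (c (p (nat_lit 0x591bd0)) e) e))) (c (c (c (p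
  (nat_lit 0x4e61290)) (c (m (nat_lit 0x75aa40)) e)) (c (c (m (nat_lit 0x1516500)) e) e)) (c (c (c (p
  (nat_lit 0x2b59330)) e) e) e))) e) e) e))) (c (c (c (c (c (c (c (p (nat_lit 0x39ddffa)) (c (p (nat_lit
  0xc9afe6)) (c (m (nat_lit 0x1886b62)) e))) (c (c (m (nat_lit 0x26b6b6c)) (c (m (nat_lit 0x40909e)) e)) (c
  (c (m (nat_lit 0xfc96cc)) e) e))) (c (c (c (m (nat_lit 0x2d9e0be)) (c (m (nat_lit 0x4a5998)) e)) (c (c (m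
  (nat_lit 0x5eb0a8)) e) e)) (c (c (c (p (nat_lit 0x9972fc)) e) e) e))) (c (c (c (c (m (nat_lit 0x274a196))
  (c (p (nat_lit 0x8ec6bc)) (c (p (nat_lit 0x1565e80)) e))) (c (c (p (nat_lit 0x201b9ee)) (c (p (nat_lit
  0x7d2dca)) e)) (c (c (p (nat_lit 0x12dd3f4)) e) e))) (c (c (c (m (nat_lit 0x18e9df6)) (c (m (nat_lit
  0x2037fc)) e)) (c (c (m (nat_lit 0x86eb48)) e) e)) (c (c (c (m (nat_lit 0x67eedc)) e) e) e))) (c (c (c (c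
  (p (nat_lit 0xbe56)) (c (m (nat_lit 0x9a704)) e)) (c (c (m (nat_lit 0x24ccc)) e) e)) (c (c (c (p (nat_lit
  0x1672c8)) e) e) e)) e))) (c (c (c (c (c (m (nat_lit 0xfe0940)) (c (p (nat_lit 0xb2dd12)) (c (m (nat_lit
  0x186576)) e))) (c (c (p (nat_lit 0xf2ae4c)) (c (m (nat_lit 0x24066c)) e)) (c (c (m (nat_lit 0x1b8538)) e)
  e))) (c (c (c (m (nat_lit 0x267cbdc)) (c (m (nat_lit 0xa294e)) e)) (c (c (p (nat_lit 0x38e4c4)) e) e)) (c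
  (c (c (m (nat_lit 0xf053dc)) e) e) e))) (c (c (c (c (p (nat_lit 0x81b2a4)) (c (m (nat_lit 0x551136)) e)) (c
  (c (m (nat_lit 0xa37ef2)) e) e)) (c (c (c (m (nat_lit 0x20b35c)) e) e) e)) e)) (c (c (c (c (c (m (nat_lit
  0x6b99fa)) (c (p (nat_lit 0x5ae3ac)) e)) (c (c (p (nat_lit 0x430080)) e) e)) (c (c (c (m (nat_lit
  0x351f6c)) e) e) e)) e) e))) (c (c (c (c (c (c (p (nat_lit 0x1174524)) (c (p (nat_lit 0x2ed00ee)) (c (p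
  (nat_lit 0x2c11b0)) e))) (c (c (m (nat_lit 0x22e2388)) (c (p (nat_lit 0x413988)) e)) (c (c (m (nat_lit
  0x30a6b0)) e) e))) (c (c (c (p (nat_lit 0x37617b4)) (c (p (nat_lit 0x849b28)) e)) (c (c (m (nat_lit
  0x194d90)) e) e)) (c (c (c (m (nat_lit 0x2d0e70)) e) e) e))) (c (c (c (c (p (nat_lit 0xdee46)) (c (m
  (nat_lit 0xef9a6)) e)) (c (c (p (nat_lit 0xf0282)) e) e)) (c (c (c (p (nat_lit 0xc3a908)) e) e) e)) e)) (c
  (c (c (c (c (p (nat_lit 0x312888)) (c (m (nat_lit 0x38f790)) e)) (c (c (m (nat_lit 0xf4cd4)) e) e)) (c (c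
  (c (p (nat_lit 0x74b3c8)) e) e) e)) e) e)) (c (c (c (c (c (c (m (nat_lit 0x24c2ee0)) (c (m (nat_lit
  0x7320c0)) e)) (c (c (p (nat_lit 0x2693c40)) e) e)) (c (c (c (p (nat_lit 0x17fcdc0)) e) e) e)) e) e) e)))
  (c (c (c (c (c (c (c (m (nat_lit 0x49eb94)) (c (p (nat_lit 0x6a0c02)) (c (p (nat_lit 0xaff0ec)) e))) (c (c
  (p (nat_lit 0x161a186)) (c (p (nat_lit 0x2b5abc)) e)) (c (c (p (nat_lit 0xf252fc)) e) e))) (c (c (c (p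
  (nat_lit 0x3bc63b8)) (c (m (nat_lit 0x713e8)) e)) (c (c (p (nat_lit 0xb49cc)) e) e)) (c (c (c (p (nat_lit
  0x3e409c)) e) e) e))) (c (c (c (c (p (nat_lit 0x37d2506)) (c (m (nat_lit 0x4fc1b2)) e)) (c (c (m (nat_lit
  0xea0456)) e) e)) (c (c (c (p (nat_lit 0x2c87274)) e) e) e)) (c (c (c (c (p (nat_lit 0x5dd2)) e) e) e) e)))
  (c (c (c (c (c (p (nat_lit 0x5abadfe)) (c (p (nat_lit 0x4e702c)) e)) (c (c (p (nat_lit 0x12f9ea)) e) e)) (c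
  (c (c (p (nat_lit 0x2c761aa)) e) e) e)) (c (c (c (c (m (nat_lit 0x534cae)) e) e) e) e)) (c (c (c (c (c (m
  (nat_lit 0x34595a)) e) e) e) e) e))) (c (c (c (c (c (c (m (nat_lit 0x19168fe)) (c (m (nat_lit 0x2532084))
  e)) (c (c (m (nat_lit 0x36b16)) e) e)) (c (c (c (m (nat_lit 0x403e390)) e) e) e)) (c (c (c (c (m (nat_lit
  0x796260)) e) e) e) e)) (c (c (c (c (c (m (nat_lit 0x4a4cde)) e) e) e) e) e)) (c (c (c (c (c (c (m (nat_lit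
  0x134b8f0)) e) e) e) e) e) e))) (c (c (c (c (c (c (c (m (nat_lit 0x181568a)) (c (m (nat_lit 0x4b6eac)) e))
  (c (c (m (nat_lit 0x12b9e50)) e) e)) (c (c (c (m (nat_lit 0x12c717c)) e) e) e)) (c (c (c (c (m (nat_lit
  0x2984b74)) e) e) e) e)) (c (c (c (c (c (m (nat_lit 0x440b74c)) e) e) e) e) e)) (c (c (c (c (c (c (p
  (nat_lit 0x1ef4d4c)) e) e) e) e) e) e)) (c (c (c (c (c (c (c (p (nat_lit 0xe2f356)) e) e) e) e) e) e)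
  e))))) (c (c (c (c (c (c (c (c (p (nat_lit 0x3accf62)) (c (p (nat_lit 0x25c140)) (c (m (nat_lit 0x5b2cc0))
  e))) (c (c (m (nat_lit 0x8d426c)) (c (m (nat_lit 0xc398a)) e)) (c (c (m (nat_lit 0x317478)) e) e))) (c (c
  (c (m (nat_lit 0x23cb338)) (c (m (nat_lit 0x6696fc)) e)) (c (c (m (nat_lit 0x4ab68)) e) e)) (c (c (c (m
  (nat_lit 0xce3ba4)) e) e) e))) (c (c (c (c (m (nat_lit 0x2755194)) (c (p (nat_lit 0x498594)) (c (p (nat_lit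
  0x7fa700)) e))) (c (c (p (nat_lit 0x1391a1e)) (c (p (nat_lit 0x668106)) e)) (c (c (m (nat_lit 0xd591d4)) e)
  e))) (c (c (c (m (nat_lit 0x5dfd7a)) (c (p (nat_lit 0x5c67c)) e)) (c (c (m (nat_lit 0x3c0600)) e) e)) (c (c
  (c (p (nat_lit 0x103c500)) e) e) e))) (c (c (c (c (p (nat_lit 0x1d9a6c)) (c (p (nat_lit 0x2c6cd6)) e)) (c
  (c (p (nat_lit 0x1247ac)) e) e)) (c (c (c (p (nat_lit 0x1064b8)) e) e) e)) e))) (c (c (c (c (c (p (nat_lit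
  0xfd6098)) (c (m (nat_lit 0x4b3d02)) (c (p (nat_lit 0x118735e)) e))) (c (c (p (nat_lit 0x4ae6b0)) (c (p
  (nat_lit 0x53753a)) e)) (c (c (p (nat_lit 0xff51b4)) e) e))) (c (c (c (m (nat_lit 0xef7a68)) (c (p (nat_lit
  0x33f30c)) e)) (c (c (m (nat_lit 0xffeba4)) e) e)) (c (c (c (p (nat_lit 0x3b949c)) e) e) e))) (c (c (c (c
  (m (nat_lit 0xafb918)) (c (p (nat_lit 0xfb940)) e)) (c (c (p (nat_lit 0xa43a12)) e) e)) (c (c (c (m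
  (nat_lit 0x389a9c)) e) e) e)) e)) (c (c (c (c (c (m (nat_lit 0x41e464)) (c (m (nat_lit 0x1bb814)) e)) (c (c
  (m (nat_lit 0x462408)) e) e)) (c (c (c (p (nat_lit 0x3a500c)) e) e) e)) e) e))) (c (c (c (c (c (c (m
  (nat_lit 0x3c28860)) (c (p (nat_lit 0x7dc0a)) (c (m (nat_lit 0x25530c)) e))) (c (c (p (nat_lit 0x1bb9d66))
  (c (m (nat_lit 0x71689e)) e)) (c (c (m (nat_lit 0x7fa8ec)) e) e))) (c (c (c (p (nat_lit 0x42f9edc)) (c (m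
  (nat_lit 0x43ad72)) e)) (c (c (m (nat_lit 0x689f28)) e) e)) (c (c (c (m (nat_lit 0xd07e8)) e) e) e))) (c (c
  (c (c (m (nat_lit 0x2f21a)) (c (p (nat_lit 0x37a070)) e)) (c (c (m (nat_lit 0x2302aa)) e) e)) (c (c (c (p
  (nat_lit 0xa866a2)) e) e) e)) e)) (c (c (c (c (c (m (nat_lit 0xd2ee86)) (c (p (nat_lit 0x4b184e)) e)) (c (c
  (p (nat_lit 0x4f41fc)) e) e)) (c (c (c (p (nat_lit 0x2de4c6)) e) e) e)) e) e)) (c (c (c (c (c (c (p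
  (nat_lit 0xba98d0)) (c (p (nat_lit 0x131adc8)) e)) (c (c (m (nat_lit 0x15c5be0)) e) e)) (c (c (c (m
  (nat_lit 0x2ad5318)) e) e) e)) e) e) e))) (c (c (c (c (c (c (c (p (nat_lit 0x2c5212c)) (c (m (nat_lit
  0x127888e)) (c (p (nat_lit 0xa0c5c)) e))) (c (c (p (nat_lit 0x492756)) (c (m (nat_lit 0x418194)) e)) (c (c
  (p (nat_lit 0x6afd7c)) e) e))) (c (c (c (p (nat_lit 0x2955210)) (c (p (nat_lit 0x8ff03a)) e)) (c (c (p
  (nat_lit 0x2d861c)) e) e)) (c (c (c (p (nat_lit 0x2eed08)) e) e) e))) (c (c (c (c (p (nat_lit 0x4f2b40)) (c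
  (m (nat_lit 0x5a941a)) e)) (c (c (m (nat_lit 0x30a6aa)) e) e)) (c (c (c (p (nat_lit 0x24f28e)) e) e) e)) (c
  (c (c (c (m (nat_lit 0x13876e)) e) e) e) e))) (c (c (c (c (c (m (nat_lit 0x23d37e6)) (c (p (nat_lit
  0x916524)) e)) (c (c (p (nat_lit 0xf34fce)) e) e)) (c (c (c (p (nat_lit 0x6aa88)) e) e) e)) (c (c (c (c (m
  (nat_lit 0x1fc0f2)) e) e) e) e)) (c (c (c (c (c (p (nat_lit 0x37be40)) e) e) e) e) e))) (c (c (c (c (c (c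
  (m (nat_lit 0x4f72524)) (c (p (nat_lit 0x52f908)) e)) (c (c (m (nat_lit 0x5fcd48)) e) e)) (c (c (c (m
  (nat_lit 0x9185d6)) e) e) e)) (c (c (c (c (m (nat_lit 0x46f1be)) e) e) e) e)) (c (c (c (c (c (m (nat_lit
  0x3c9ce4)) e) e) e) e) e)) (c (c (c (c (c (c (p (nat_lit 0x1050498)) e) e) e) e) e) e))) (c (c (c (c (c (c
  (c (m (nat_lit 0x6d4d762)) (c (p (nat_lit 0x2b7aa2)) e)) (c (c (p (nat_lit 0x1eb36a)) e) e)) (c (c (c (m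
  (nat_lit 0x22f852e)) e) e) e)) (c (c (c (c (p (nat_lit 0x104c4a2)) e) e) e) e)) (c (c (c (c (c (p (nat_lit
  0xc26d9c)) e) e) e) e) e)) (c (c (c (c (c (c (p (nat_lit 0x5f32056)) e) e) e) e) e) e)) (c (c (c (c (c (c
  (c (p (nat_lit 0x15eb97a)) e) e) e) e) e) e) e)))) (c (c (c (c (c (c (c (c (p (nat_lit 0x484e9c)) (c (p
  (nat_lit 0x105e244)) (c (m (nat_lit 0x6542be)) e))) (c (c (m (nat_lit 0x78b5fe)) (c (m (nat_lit 0xb8c98))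
  e)) (c (c (m (nat_lit 0x3d8540)) e) e))) (c (c (c (p (nat_lit 0xf569ee)) (c (m (nat_lit 0x2022c0)) e)) (c
  (c (p (nat_lit 0xe4c9c)) e) e)) (c (c (c (m (nat_lit 0x657468)) e) e) e))) (c (c (c (c (p (nat_lit
  0x1a2a58)) (c (m (nat_lit 0x235a5e)) e)) (c (c (p (nat_lit 0x86938e)) e) e)) (c (c (c (p (nat_lit
  0x160b24)) e) e) e)) (c (c (c (c (m (nat_lit 0x581208)) e) e) e) e))) (c (c (c (c (c (m (nat_lit 0x4b8fc4))
  (c (m (nat_lit 0x206e56)) e)) (c (c (m (nat_lit 0x3d0cf2)) e) e)) (c (c (c (m (nat_lit 0x6a4478)) e) e) e))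
  (c (c (c (c (p (nat_lit 0x9e41fe)) e) e) e) e)) (c (c (c (c (c (m (nat_lit 0x7d364)) e) e) e) e) e))) (c (c
  (c (c (c (c (p (nat_lit 0x15cb99a)) (c (m (nat_lit 0x68a930)) e)) (c (c (p (nat_lit 0x11d0a8)) e) e)) (c (c
  (c (p (nat_lit 0x9bc436)) e) e) e)) (c (c (c (c (p (nat_lit 0x6439d4)) e) e) e) e)) (c (c (c (c (c (p
  (nat_lit 0x70d4b4)) e) e) e) e) e)) (c (c (c (c (c (c (p (nat_lit 0x50cc28)) e) e) e) e) e) e))) (c (c (c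
  (c (c (c (c (p (nat_lit 0x83c4a2)) (c (m (nat_lit 0xfa656)) e)) (c (c (m (nat_lit 0x5ceb6c)) e) e)) (c (c
  (c (m (nat_lit 0x143856)) e) e) e)) (c (c (c (c (m (nat_lit 0x8f8986)) e) e) e) e)) (c (c (c (c (c (p
  (nat_lit 0xc98352)) e) e) e) e) e)) (c (c (c (c (c (c (m (nat_lit 0xfe26aa)) e) e) e) e) e) e)) (c (c (c (c
  (c (c (c (p (nat_lit 0x7b2634)) e) e) e) e) e) e) e))) (c (c (c (c (c (c (c (c (m (nat_lit 0x8271c0)) (c (m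
  (nat_lit 0x5d6150)) e)) (c (c (p (nat_lit 0x7737e4)) e) e)) (c (c (c (p (nat_lit 0x42e82c)) e) e) e)) (c (c
  (c (c (p (nat_lit 0x1d9f52)) e) e) e) e)) (c (c (c (c (c (m (nat_lit 0x11cc46)) e) e) e) e) e)) (c (c (c (c
  (c (c (m (nat_lit 0x1e65e8)) e) e) e) e) e) e)) (c (c (c (c (c (c (c (m (nat_lit 0x7cff1a)) e) e) e) e) e)
  e) e)) (c (c (c (c (c (c (c (c (p (nat_lit 0x846e82)) e) e) e) e) e) e) e) e))))) (c (c (c (c (c (c (c (c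
  (c (p (nat_lit 0x2cc710e)) (c (m (nat_lit 0x979014)) (c (p (nat_lit 0x39c510)) e))) (c (c (m (nat_lit
  0x25fe246)) (c (m (nat_lit 0x71778)) e)) (c (c (p (nat_lit 0x1364754)) e) e))) (c (c (c (m (nat_lit
  0x2678afc)) (c (m (nat_lit 0x166f3e)) e)) (c (c (m (nat_lit 0x213c84)) e) e)) (c (c (c (p (nat_lit
  0x4e3384)) e) e) e))) (c (c (c (c (p (nat_lit 0x39ab06)) (c (p (nat_lit 0x396c42c)) (c (m (nat_lit
  0x258a7d0)) e))) (c (c (p (nat_lit 0x6f7c8)) (c (m (nat_lit 0x7f7868)) e)) (c (c (m (nat_lit 0x96d188)) e)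
  e))) (c (c (c (p (nat_lit 0x1190880)) (c (m (nat_lit 0x100c7c4)) e)) (c (c (m (nat_lit 0xcb9dfc)) e) e)) (c
  (c (c (m (nat_lit 0x9a200c)) e) e) e))) (c (c (c (c (p (nat_lit 0x1841bc2)) (c (m (nat_lit 0xf8aeee)) e))
  (c (c (m (nat_lit 0x55b024)) e) e)) (c (c (c (p (nat_lit 0x9cd08)) e) e) e)) e))) (c (c (c (c (c (m
  (nat_lit 0x115a22)) (c (p (nat_lit 0xe1b2bc)) (c (p (nat_lit 0x1351c2)) e))) (c (c (m (nat_lit 0x3f7ce0))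
  (c (p (nat_lit 0x721cb6)) e)) (c (c (p (nat_lit 0x6ab948)) e) e))) (c (c (c (p (nat_lit 0x1d8adb4)) (c (p
  (nat_lit 0x336ebe)) e)) (c (c (p (nat_lit 0x14b380)) e) e)) (c (c (c (m (nat_lit 0x62ef8)) e) e) e))) (c (c
  (c (c (m (nat_lit 0x79b9fc)) (c (p (nat_lit 0x5de6e2)) e)) (c (c (p (nat_lit 0xe63e8)) e) e)) (c (c (c (p
  (nat_lit 0x6150)) e) e) e)) e)) (c (c (c (c (c (p (nat_lit 0x4b80a0)) (c (p (nat_lit 0x20f78a)) e)) (c (c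
  (p (nat_lit 0x217ecc)) e) e)) (c (c (c (m (nat_lit 0x3aa10)) e) e) e)) e) e))) (c (c (c (c (c (c (m
  (nat_lit 0x2e0533c)) (c (p (nat_lit 0x21e5740)) (c (m (nat_lit 0x5898e4)) e))) (c (c (p (nat_lit
  0x308a936)) (c (m (nat_lit 0x247266)) e)) (c (c (m (nat_lit 0x14d9a8)) e) e))) (c (c (c (p (nat_lit
  0x6f9ff18)) (c (m (nat_lit 0x360972)) e)) (c (c (m (nat_lit 0x2277a8)) e) e)) (c (c (c (m (nat_lit
  0x5bb720)) e) e) e))) (c (c (c (c (p (nat_lit 0xb427c6)) (c (m (nat_lit 0xec5710)) e)) (c (c (m (nat_lit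
  0x775374)) e) e)) (c (c (c (m (nat_lit 0xd64364)) e) e) e)) e)) (c (c (c (c (c (m (nat_lit 0x87fc72)) (c (m
  (nat_lit 0x78385e)) e)) (c (c (p (nat_lit 0x349584)) e) e)) (c (c (c (p (nat_lit 0x32af18)) e) e) e)) e)
  e)) (c (c (c (c (c (c (p (nat_lit 0x2a4e2e8)) (c (m (nat_lit 0x21b82f0)) e)) (c (c (m (nat_lit 0x18aba50))
  e) e)) (c (c (c (m (nat_lit 0x2fe9470)) e) e) e)) e) e) e))) (c (c (c (c (c (c (c (m (nat_lit 0x30bb9c2))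
  (c (m (nat_lit 0x3cd152)) (c (p (nat_lit 0x68ee72)) e))) (c (c (p (nat_lit 0x1bb4d3e)) (c (m (nat_lit
  0x162fa2)) e)) (c (c (p (nat_lit 0x68208)) e) e))) (c (c (c (p (nat_lit 0x9af4be)) (c (m (nat_lit 0x34788))
  e)) (c (c (p (nat_lit 0x899088)) e) e)) (c (c (c (m (nat_lit 0x1f38d8)) e) e) e))) (c (c (c (c (p (nat_lit
  0x1f7ea70)) (c (m (nat_lit 0x20b5b58)) e)) (c (c (m (nat_lit 0x16c999e)) e) e)) (c (c (c (m (nat_lit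
  0x2fe09e)) e) e) e)) (c (c (c (c (p (nat_lit 0x64453e)) e) e) e) e))) (c (c (c (c (c (p (nat_lit 0x1f92b4))
  (c (m (nat_lit 0xa3ca4c)) e)) (c (c (m (nat_lit 0x27b3a)) e) e)) (c (c (c (p (nat_lit 0x98b356)) e) e) e))
  (c (c (c (c (p (nat_lit 0x4f407c)) e) e) e) e)) (c (c (c (c (c (m (nat_lit 0x71075a)) e) e) e) e) e))) (c
  (c (c (c (c (c (p (nat_lit 0x267d45e)) (c (m (nat_lit 0x65e32c)) e)) (c (c (m (nat_lit 0x836214)) e) e)) (c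
  (c (c (m (nat_lit 0x115a5f8)) e) e) e)) (c (c (c (c (p (nat_lit 0x71818e)) e) e) e) e)) (c (c (c (c (c (p
  (nat_lit 0x2480b8)) e) e) e) e) e)) (c (c (c (c (c (c (m (nat_lit 0x7fa610)) e) e) e) e) e) e))) (c (c (c
  (c (c (c (c (m (nat_lit 0x3f60606)) (c (p (nat_lit 0x42b6e8)) e)) (c (c (m (nat_lit 0x3c1bf0)) e) e)) (c (c
  (c (m (nat_lit 0x1f08b10)) e) e) e)) (c (c (c (c (p (nat_lit 0x2cdfae)) e) e) e) e)) (c (c (c (c (c (p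
  (nat_lit 0x8809fe)) e) e) e) e) e)) (c (c (c (c (c (c (p (nat_lit 0x46c836)) e) e) e) e) e) e)) (c (c (c (c
  (c (c (c (p (nat_lit 0x24e1a80)) e) e) e) e) e) e) e)))) (c (c (c (c (c (c (c (c (m (nat_lit 0x122b34a)) (c
  (m (nat_lit 0xa5ff5a)) (c (p (nat_lit 0x3aae80)) e))) (c (c (p (nat_lit 0x85b648)) (c (m (nat_lit
  0x4c33e0)) e)) (c (c (p (nat_lit 0xb1c9fc)) e) e))) (c (c (c (p (nat_lit 0x98513a)) (c (p (nat_lit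
  0x145d58)) e)) (c (c (m (nat_lit 0x794874)) e) e)) (c (c (c (p (nat_lit 0x1a8ae8)) e) e) e))) (c (c (c (c
  (p (nat_lit 0xad443e)) (c (m (nat_lit 0x103700a)) e)) (c (c (m (nat_lit 0x1cf62)) e) e)) (c (c (c (m
  (nat_lit 0xa25400)) e) e) e)) (c (c (c (c (p (nat_lit 0x723ed6)) e) e) e) e))) (c (c (c (c (c (m (nat_lit
  0x233898c)) (c (p (nat_lit 0x722b2)) e)) (c (c (m (nat_lit 0x7e2df0)) e) e)) (c (c (c (m (nat_lit
  0x5090a6)) e) e) e)) (c (c (c (c (m (nat_lit 0x43206c)) e) e) e) e)) (c (c (c (c (c (p (nat_lit 0x4abc62))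
  e) e) e) e) e))) (c (c (c (c (c (c (p (nat_lit 0x81d41c)) (c (p (nat_lit 0x453e82)) e)) (c (c (m (nat_lit
  0x131686e)) e) e)) (c (c (c (m (nat_lit 0x6813ba)) e) e) e)) (c (c (c (c (p (nat_lit 0x120fae)) e) e) e)
  e)) (c (c (c (c (c (p (nat_lit 0x744)) e) e) e) e) e)) (c (c (c (c (c (c (p (nat_lit 0x1c72950)) e) e) e)
  e) e) e))) (c (c (c (c (c (c (c (p (nat_lit 0x371e302)) (c (p (nat_lit 0x928026)) e)) (c (c (p (nat_lit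
  0xf67dd0)) e) e)) (c (c (c (m (nat_lit 0x99d8a8)) e) e) e)) (c (c (c (c (p (nat_lit 0x10b2bf2)) e) e) e)
  e)) (c (c (c (c (c (m (nat_lit 0xad502)) e) e) e) e) e)) (c (c (c (c (c (c (m (nat_lit 0x1751ec2)) e) e) e)
  e) e) e)) (c (c (c (c (c (c (c (m (nat_lit 0xc11b7a)) e) e) e) e) e) e) e))) (c (c (c (c (c (c (c (c (p
  (nat_lit 0x3d9fe)) (c (p (nat_lit 0x42d8c0)) e)) (c (c (p (nat_lit 0x789288)) e) e)) (c (c (c (p (nat_lit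
  0x71238)) e) e) e)) (c (c (c (c (p (nat_lit 0x6301ce)) e) e) e) e)) (c (c (c (c (c (m (nat_lit 0x2298b4))
  e) e) e) e) e)) (c (c (c (c (c (c (m (nat_lit 0xf1411e)) e) e) e) e) e) e)) (c (c (c (c (c (c (c (m
  (nat_lit 0xdeaadc)) e) e) e) e) e) e) e)) (c (c (c (c (c (c (c (c (m (nat_lit 0x6d4e7a)) e) e) e) e) e) e)
  e) e)))) (c (c (c (c (c (c (c (c (c (m (nat_lit 0x1134e1c)) (c (m (nat_lit 0xef6688)) (c (p (nat_lit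
  0x84943e)) e))) (c (c (p (nat_lit 0x997356)) (c (p (nat_lit 0x2e443c)) e)) (c (c (m (nat_lit 0xcb310)) e)
  e))) (c (c (c (p (nat_lit 0x62ad74)) (c (p (nat_lit 0x5012dc)) e)) (c (c (p (nat_lit 0x5d9af8)) e) e)) (c
  (c (c (m (nat_lit 0x12e118)) e) e) e))) (c (c (c (c (m (nat_lit 0x3a5bdc6)) (c (p (nat_lit 0x3347c34)) e))
  (c (c (p (nat_lit 0x10fa130)) e) e)) (c (c (c (p (nat_lit 0xcc8664)) e) e) e)) (c (c (c (c (m (nat_lit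
  0x8cce38)) e) e) e) e))) (c (c (c (c (c (p (nat_lit 0x50ba8e)) (c (m (nat_lit 0x123fcba)) e)) (c (c (m
  (nat_lit 0x163818)) e) e)) (c (c (c (m (nat_lit 0x62ec44)) e) e) e)) (c (c (c (c (m (nat_lit 0x5235c)) e)
  e) e) e)) (c (c (c (c (c (m (nat_lit 0x45b652)) e) e) e) e) e))) (c (c (c (c (c (c (m (nat_lit 0x195101a))
  (c (p (nat_lit 0x1451304)) e)) (c (c (p (nat_lit 0xe2830c)) e) e)) (c (c (c (p (nat_lit 0x1597b54)) e) e)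
  e)) (c (c (c (c (p (nat_lit 0x225d44)) e) e) e) e)) (c (c (c (c (c (m (nat_lit 0x17eb9c)) e) e) e) e) e))
  (c (c (c (c (c (c (m (nat_lit 0x3dc0c8)) e) e) e) e) e) e))) (c (c (c (c (c (c (c (p (nat_lit 0x2758abe))
  (c (p (nat_lit 0x73691a)) e)) (c (c (m (nat_lit 0x131967c)) e) e)) (c (c (c (m (nat_lit 0xaa8cc8)) e) e)
  e)) (c (c (c (c (m (nat_lit 0xd59d20)) e) e) e) e)) (c (c (c (c (c (p (nat_lit 0xa1057a)) e) e) e) e) e))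
  (c (c (c (c (c (c (m (nat_lit 0xea156c)) e) e) e) e) e) e)) (c (c (c (c (c (c (c (p (nat_lit 0x30f288)) e)
  e) e) e) e) e) e))) (c (c (c (c (c (c (c (c (p (nat_lit 0x16b4bf0)) (c (p (nat_lit 0x1bec0a)) e)) (c (c (p
  (nat_lit 0x29d1fe)) e) e)) (c (c (c (m (nat_lit 0x103ce30)) e) e) e)) (c (c (c (c (m (nat_lit 0x1529004))
  e) e) e) e)) (c (c (c (c (c (p (nat_lit 0x1016364)) e) e) e) e) e)) (c (c (c (c (c (c (p (nat_lit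
  0x39f5a0)) e) e) e) e) e) e)) (c (c (c (c (c (c (c (m (nat_lit 0x2798f5e)) e) e) e) e) e) e) e)) (c (c (c
  (c (c (c (c (c (p (nat_lit 0xf4f488)) e) e) e) e) e) e) e) e))) (c (c (c (c (c (c (c (c (c (p (nat_lit
  0x18a09e6)) (c (m (nat_lit 0x1377f00)) e)) (c (c (m (nat_lit 0x45d8fc)) e) e)) (c (c (c (m (nat_lit
  0x605724)) e) e) e)) (c (c (c (c (p (nat_lit 0x16523e8)) e) e) e) e)) (c (c (c (c (c (m (nat_lit 0x5d1110))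
  e) e) e) e) e)) (c (c (c (c (c (c (m (nat_lit 0x22f53c)) e) e) e) e) e) e)) (c (c (c (c (c (c (c (m
  (nat_lit 0x30f8d6)) e) e) e) e) e) e) e)) (c (c (c (c (c (c (c (c (p (nat_lit 0x5b05a8)) e) e) e) e) e) e)
  e) e)) (c (c (c (c (c (c (c (c (c (m (nat_lit 0x703e66)) e) e) e) e) e) e) e) e) e)))))

noncomputable def gt_0_4_7 : Tr :=
  (c (c (c (c (c (c (c (c (c (m (nat_lit 0x45984)) (c (p (nat_lit 0x1a6fec8)) (c (m (nat_lit 0x479a18)) e)))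
  (c (c (p (nat_lit 0x1a6fc28)) (c (m (nat_lit 0x490a58)) e)) (c (c (m (nat_lit 0x479b20)) e) e))) (c (c (c
  (m (nat_lit 0x16a7480)) (c (m (nat_lit 0x606540)) e)) (c (c (m (nat_lit 0x6066f0)) e) e)) (c (c (c (p
  (nat_lit 0x145020)) e) e) e))) (c (c (c (c (m (nat_lit 0x6796b0)) (c (m (nat_lit 0x17d1050)) (c (m (nat_lit
  0x9042f0)) e))) (c (c (p (nat_lit 0xf56dba)) (c (p (nat_lit 0x5f7978)) e)) (c (c (m (nat_lit 0xc4b240)) e)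
  e))) (c (c (c (m (nat_lit 0x5ccbf8)) (c (p (nat_lit 0xf0d830)) e)) (c (c (p (nat_lit 0x7b4710)) e) e)) (c
  (c (c (m (nat_lit 0xc1bb28)) e) e) e))) (c (c (c (c (m (nat_lit 0x87d26c)) (c (p (nat_lit 0xa1c688)) (c (m
  (nat_lit 0x3135a8)) e))) (c (c (p (nat_lit 0x80cfb8)) (c (m (nat_lit 0x37188)) e)) (c (c (m (nat_lit
  0x1e4650)) e) e))) (c (c (c (p (nat_lit 0x17a5658)) (c (m (nat_lit 0x645000)) e)) (c (c (m (nat_lit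
  0x4a5f08)) e) e)) (c (c (c (m (nat_lit 0x887268)) e) e) e))) e))) (c (c (c (c (c (m (nat_lit 0x679614)) (c
  (p (nat_lit 0xf56cca)) (c (m (nat_lit 0xc4b4c8)) e))) (c (c (m (nat_lit 0x17d0ed0)) (c (p (nat_lit
  0x5f75b8)) e)) (c (c (m (nat_lit 0x904470)) e) e))) (c (c (c (m (nat_lit 0x5ccc40)) (c (p (nat_lit
  0x7b45c0)) e)) (c (c (p (nat_lit 0xf0d9c8)) e) e)) (c (c (c (m (nat_lit 0xc1bb70)) e) e) e))) (c (c (c (c
  (m (nat_lit 0x539928)) (c (m (nat_lit 0xd9590)) (c (m (nat_lit 0x387c48)) e))) (c (c (m (nat_lit 0xd9590))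
  (c (m (nat_lit 0x746e20)) e)) (c (c (m (nat_lit 0x387c90)) e) e))) (c (c (c (m (nat_lit 0x9ff978)) (c (p
  (nat_lit 0x6e71e0)) e)) (c (c (p (nat_lit 0x6e71f8)) e) e)) (c (c (c (p (nat_lit 0xb16648)) e) e) e))) e))
  (c (c (c (c (c (m (nat_lit 0x87d248)) (c (p (nat_lit 0x80cfa0)) (c (m (nat_lit 0x1e4638)) e))) (c (c (p
  (nat_lit 0xa1c670)) (c (m (nat_lit 0x37170)) e)) (c (c (m (nat_lit 0x313590)) e) e))) (c (c (c (p (nat_lit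
  0x17a5658)) (c (m (nat_lit 0x4a5f20)) e)) (c (c (m (nat_lit 0x645018)) e) e)) (c (c (c (m (nat_lit
  0x887268)) e) e) e))) e) e))) (c (c (c (c (c (c (p (nat_lit 0x29322ba)) (c (m (nat_lit 0x180a152)) (c (m
  (nat_lit 0x178b840)) e))) (c (c (m (nat_lit 0x1809fd2)) (c (m (nat_lit 0x30ff00)) e)) (c (c (m (nat_lit
  0x178b720)) e) e))) (c (c (c (m (nat_lit 0x6913ba8)) (c (p (nat_lit 0x24464a0)) e)) (c (c (p (nat_lit
  0x24464a0)) e) e)) (c (c (c (p (nat_lit 0x264d0e0)) e) e) e))) (c (c (c (c (m (nat_lit 0xc5a5b8)) (c (m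
  (nat_lit 0x743d60)) (c (p (nat_lit 0x3de2a0)) e))) (c (c (p (nat_lit 0x5c1000)) (c (m (nat_lit 0x520f50))
  e)) (c (c (m (nat_lit 0xc07578)) e) e))) (c (c (c (p (nat_lit 0x1c841a0)) (c (p (nat_lit 0x186d98)) e)) (c
  (c (m (nat_lit 0x38c610)) e) e)) (c (c (c (p (nat_lit 0xd7760)) e) e) e))) e)) (c (c (c (c (c (m (nat_lit
  0xc5a588)) (c (p (nat_lit 0x5c0fd0)) (c (m (nat_lit 0xc07530)) e))) (c (c (m (nat_lit 0x743da8)) (c (m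
  (nat_lit 0x520f68)) e)) (c (c (p (nat_lit 0x3de2b8)) e) e))) (c (c (c (p (nat_lit 0x1c84170)) (c (m
  (nat_lit 0x38c628)) e)) (c (c (p (nat_lit 0x186db0)) e) e)) (c (c (c (p (nat_lit 0xd7790)) e) e) e))) e)
  e)) (c (c (c (c (c (c (m (nat_lit 0x2efbcc0)) (c (p (nat_lit 0x2b1e380)) (c (m (nat_lit 0x8d3c00)) e))) (c
  (c (p (nat_lit 0x2b1e2c0)) (c (m (nat_lit 0x9a1640)) e)) (c (c (m (nat_lit 0x8d3d20)) e) e))) (c (c (c (p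
  (nat_lit 0x5da0e60)) (c (m (nat_lit 0x14a7aa0)) e)) (c (c (m (nat_lit 0x14a7aa0)) e) e)) (c (c (c (m
  (nat_lit 0x3428b20)) e) e) e))) e) e) e))) (c (c (c (c (c (c (c (m (nat_lit 0x8abcf76)) (c (m (nat_lit
  0x1cda27c)) (c (p (nat_lit 0x17d61c8)) e))) (c (c (m (nat_lit 0x1cda204)) (c (m (nat_lit 0x9bc940)) e)) (c
  (c (p (nat_lit 0x17d6210)) e) e))) (c (c (c (p (nat_lit 0x507edde)) (c (m (nat_lit 0x1293ee8)) e)) (c (c (m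
  (nat_lit 0x1293ed0)) e) e)) (c (c (c (p (nat_lit 0x104dde0)) e) e) e))) (c (c (c (c (p (nat_lit 0x70b2958))
  (c (m (nat_lit 0x11bcd6a)) (c (m (nat_lit 0x29bc8)) e))) (c (c (m (nat_lit 0x91aac0)) (c (p (nat_lit
  0xdf6140)) e)) (c (c (p (nat_lit 0x8842f8)) e) e))) (c (c (c (m (nat_lit 0x457cb18)) (c (p (nat_lit
  0x129120)) e)) (c (c (p (nat_lit 0x40db08)) e) e)) (c (c (c (p (nat_lit 0x626bc8)) e) e) e))) (c (c (c (c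
  (m (nat_lit 0x9eb560)) (c (p (nat_lit 0x63f2a0)) e)) (c (c (m (nat_lit 0x318450)) e) e)) (c (c (c (m
  (nat_lit 0x21a020)) e) e) e)) e))) (c (c (c (c (c (p (nat_lit 0x70b2b14)) (c (m (nat_lit 0x91aaa8)) (c (p
  (nat_lit 0x884310)) e))) (c (c (m (nat_lit 0x11bcde2)) (c (p (nat_lit 0xdf6140)) e)) (c (c (m (nat_lit
  0x29bc8)) e) e))) (c (c (c (m (nat_lit 0x457cb7e)) (c (p (nat_lit 0x40db08)) e)) (c (c (p (nat_lit
  0x129120)) e) e)) (c (c (c (p (nat_lit 0x626be0)) e) e) e))) (c (c (c (c (p (nat_lit 0xb078b8)) (c (m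
  (nat_lit 0x5e410)) e)) (c (c (m (nat_lit 0x5e3f8)) e) e)) (c (c (c (p (nat_lit 0x484968)) e) e) e)) e)) (c
  (c (c (c (c (m (nat_lit 0x9eb584)) (c (m (nat_lit 0x318450)) e)) (c (c (p (nat_lit 0x63f2b8)) e) e)) (c (c
  (c (m (nat_lit 0x21a020)) e) e) e)) e) e))) (c (c (c (c (c (c (p (nat_lit 0xbb09008)) (c (p (nat_lit
  0x162d85a)) (c (m (nat_lit 0x110a0)) e))) (c (c (p (nat_lit 0x162d7fa)) (c (m (nat_lit 0x4770c0)) e)) (c (c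
  (m (nat_lit 0x110a0)) e) e))) (c (c (c (m (nat_lit 0x15993c0)) (c (m (nat_lit 0x6ab240)) e)) (c (c (m
  (nat_lit 0x6ab240)) e) e)) (c (c (c (m (nat_lit 0x483240)) e) e) e))) (c (c (c (c (m (nat_lit 0x716c10)) (c
  (p (nat_lit 0x3138d8)) e)) (c (c (p (nat_lit 0x1b4980)) e) e)) (c (c (c (m (nat_lit 0xb65770)) e) e) e))
  e)) (c (c (c (c (c (m (nat_lit 0x716bec)) (c (p (nat_lit 0x1b4980)) e)) (c (c (p (nat_lit 0x3138c0)) e) e))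
  (c (c (c (m (nat_lit 0xb65770)) e) e) e)) e) e)) (c (c (c (c (c (c (m (nat_lit 0xd42cbc0)) (c (p (nat_lit
  0x38ec620)) e)) (c (c (p (nat_lit 0x38ec620)) e) e)) (c (c (c (p (nat_lit 0x5a00a80)) e) e) e)) e) e) e)))
  (c (c (c (c (c (c (c (p (nat_lit 0x4c33614)) (c (m (nat_lit 0x5d25d4)) (c (p (nat_lit 0x92a30)) e))) (c (c
  (m (nat_lit 0x5d25a4)) (c (p (nat_lit 0xb0cee0)) e)) (c (c (p (nat_lit 0x92a00)) e) e))) (c (c (c (p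
  (nat_lit 0x3d20e46)) (c (p (nat_lit 0xa762f8)) e)) (c (c (p (nat_lit 0xa762f8)) e) e)) (c (c (c (m (nat_lit
  0xaa2ce0)) e) e) e))) (c (c (c (c (m (nat_lit 0x4dac72c)) (c (p (nat_lit 0x412b5a)) e)) (c (c (m (nat_lit
  0x5d3372)) e) e)) (c (c (c (p (nat_lit 0x31e4f08)) e) e) e)) (c (c (c (c (p (nat_lit 0x524280)) e) e) e)
  e))) (c (c (c (c (c (m (nat_lit 0x4dac64e)) (c (m (nat_lit 0x5d3372)) e)) (c (c (p (nat_lit 0x412b42)) e)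
  e)) (c (c (c (p (nat_lit 0x31e4f0e)) e) e) e)) (c (c (c (c (m (nat_lit 0xcebc38)) e) e) e) e)) (c (c (c (c
  (c (p (nat_lit 0x524280)) e) e) e) e) e))) (c (c (c (c (c (c (m (nat_lit 0x13e0e04)) (c (m (nat_lit
  0x1c62768)) e)) (c (c (m (nat_lit 0x1c62768)) e) e)) (c (c (c (m (nat_lit 0x42927d8)) e) e) e)) (c (c (c (c
  (p (nat_lit 0x9e8de8)) e) e) e) e)) (c (c (c (c (c (p (nat_lit 0x9e8ddc)) e) e) e) e) e)) (c (c (c (c (c (c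
  (p (nat_lit 0x10b2e50)) e) e) e) e) e) e))) (c (c (c (c (c (c (c (p (nat_lit 0x2c7d50)) (c (p (nat_lit
  0x271ea8)) e)) (c (c (p (nat_lit 0x271ea8)) e) e)) (c (c (c (m (nat_lit 0x4bc9384)) e) e) e)) (c (c (c (c
  (p (nat_lit 0xf6b3e8)) e) e) e) e)) (c (c (c (c (c (p (nat_lit 0xf6b3be)) e) e) e) e) e)) (c (c (c (c (c (c
  (m (nat_lit 0x11df2be)) e) e) e) e) e) e)) (c (c (c (c (c (c (c (p (nat_lit 0xed4332)) e) e) e) e) e) e)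
  e))))) (c (c (c (c (c (c (c (c (p (nat_lit 0x1ff8144)) (c (m (nat_lit 0x35a6f6)) (c (p (nat_lit 0x9779b8))
  e))) (c (c (m (nat_lit 0x1bc93c6)) (c (m (nat_lit 0x6d3608)) e)) (c (c (p (nat_lit 0x7e1410)) e) e))) (c (c
  (c (p (nat_lit 0x72dbde)) (c (m (nat_lit 0x791778)) e)) (c (c (m (nat_lit 0x10635a8)) e) e)) (c (c (c (m
  (nat_lit 0x913578)) e) e) e))) (c (c (c (c (m (nat_lit 0x5a7b9de)) (c (p (nat_lit 0x1278348)) (c (p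
  (nat_lit 0x4aa690)) e))) (c (c (m (nat_lit 0x171f71a)) (c (p (nat_lit 0xa20a98)) e)) (c (c (p (nat_lit
  0x3b55c0)) e) e))) (c (c (c (p (nat_lit 0x1d0dfc0)) (c (m (nat_lit 0x27ea90)) e)) (c (c (m (nat_lit
  0x2ea7a8)) e) e)) (c (c (c (m (nat_lit 0x319188)) e) e) e))) (c (c (c (c (p (nat_lit 0x62cd18)) (c (m
  (nat_lit 0x5e7790)) e)) (c (c (m (nat_lit 0x113910)) e) e)) (c (c (c (m (nat_lit 0x1651f8)) e) e) e)) e)))
  (c (c (c (c (c (p (nat_lit 0x440e644)) (c (m (nat_lit 0xa126aa)) (c (p (nat_lit 0xa9a730)) e))) (c (c (p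
  (nat_lit 0x18e8e0)) (c (p (nat_lit 0x3e100)) e)) (c (c (p (nat_lit 0xa29408)) e) e))) (c (c (c (m (nat_lit
  0x1df8950)) (c (p (nat_lit 0x71ef80)) e)) (c (c (m (nat_lit 0x4f1a78)) e) e)) (c (c (c (p (nat_lit
  0xc98e20)) e) e) e))) (c (c (c (c (p (nat_lit 0x5ad020)) (c (m (nat_lit 0x23ce08)) e)) (c (c (p (nat_lit
  0x50b620)) e) e)) (c (c (c (m (nat_lit 0x2b8e70)) e) e) e)) e)) (c (c (c (c (c (p (nat_lit 0x2be18)) (c (m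
  (nat_lit 0x4101d8)) e)) (c (c (m (nat_lit 0x25af58)) e) e)) (c (c (c (m (nat_lit 0x7e5a0)) e) e) e)) e)
  e))) (c (c (c (c (c (c (m (nat_lit 0x7f3a2e0)) (c (p (nat_lit 0x2c6d5fa)) (c (p (nat_lit 0x15d6f8)) e))) (c
  (c (p (nat_lit 0x21cc8fa)) (c (p (nat_lit 0xd07cb8)) e)) (c (c (m (nat_lit 0xde6b40)) e) e))) (c (c (c (p
  (nat_lit 0x38e2678)) (c (p (nat_lit 0x38f670)) e)) (c (c (p (nat_lit 0xc6c90)) e) e)) (c (c (c (p (nat_lit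
  0x9ea6a8)) e) e) e))) (c (c (c (c (p (nat_lit 0x13c2a08)) (c (p (nat_lit 0x3f7848)) e)) (c (c (p (nat_lit
  0xedda58)) e) e)) (c (c (c (m (nat_lit 0x7b5e38)) e) e) e)) e)) (c (c (c (c (c (m (nat_lit 0x46f8)) (c (p
  (nat_lit 0x194ac0)) e)) (c (c (p (nat_lit 0xc15b58)) e) e)) (c (c (c (m (nat_lit 0x7327b0)) e) e) e)) e)
  e)) (c (c (c (c (c (c (p (nat_lit 0x7327140)) (c (m (nat_lit 0x1c00500)) e)) (c (c (m (nat_lit 0x23f3ac0))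
  e) e)) (c (c (c (m (nat_lit 0x339e940)) e) e) e)) e) e) e))) (c (c (c (c (c (c (c (p (nat_lit 0x7393bb4))
  (c (p (nat_lit 0x8c430c)) (c (m (nat_lit 0x559068)) e))) (c (c (p (nat_lit 0x4f1d24c)) (c (m (nat_lit
  0x997ea8)) e)) (c (c (m (nat_lit 0x5b8ed0)) e) e))) (c (c (c (m (nat_lit 0x259feae)) (c (p (nat_lit
  0x38c250)) e)) (c (c (p (nat_lit 0x84c810)) e) e)) (c (c (c (m (nat_lit 0x148c8)) e) e) e))) (c (c (c (c (m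
  (nat_lit 0x3511e5a)) (c (p (nat_lit 0x1233b1c)) e)) (c (c (p (nat_lit 0x185e7a)) e) e)) (c (c (c (p
  (nat_lit 0xbe068c)) e) e) e)) (c (c (c (c (p (nat_lit 0x36f450)) e) e) e) e))) (c (c (c (c (c (m (nat_lit
  0x294be8c)) (c (m (nat_lit 0x88ceba)) e)) (c (c (m (nat_lit 0x27384c)) e) e)) (c (c (c (p (nat_lit
  0x15c4a4c)) e) e) e)) (c (c (c (c (p (nat_lit 0x38cad8)) e) e) e) e)) (c (c (c (c (c (m (nat_lit 0x3eea40))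
  e) e) e) e) e))) (c (c (c (c (c (c (m (nat_lit 0x1502b08)) (c (m (nat_lit 0x25f798e)) e)) (c (c (m (nat_lit
  0x1ef2256)) e) e)) (c (c (c (m (nat_lit 0xfb23b0)) e) e) e)) (c (c (c (c (p (nat_lit 0x28c998)) e) e) e)
  e)) (c (c (c (c (c (m (nat_lit 0x1f02a8)) e) e) e) e) e)) (c (c (c (c (c (c (p (nat_lit 0x12b4c00)) e) e)
  e) e) e) e))) (c (c (c (c (c (c (c (m (nat_lit 0x9b16a08)) (c (p (nat_lit 0x52f176)) e)) (c (c (m (nat_lit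
  0x14c1ea6)) e) e)) (c (c (c (p (nat_lit 0xa28fc4)) e) e) e)) (c (c (c (c (p (nat_lit 0x2f007fc)) e) e) e)
  e)) (c (c (c (c (c (p (nat_lit 0x1a2647c)) e) e) e) e) e)) (c (c (c (c (c (c (p (nat_lit 0x7830054)) e) e)
  e) e) e) e)) (c (c (c (c (c (c (c (m (nat_lit 0x13a3730)) e) e) e) e) e) e) e)))) (c (c (c (c (c (c (c (c
  (p (nat_lit 0x3111c6c)) (c (m (nat_lit 0x811212)) (c (p (nat_lit 0x2f1738)) e))) (c (c (p (nat_lit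
  0x3880b6)) (c (p (nat_lit 0xe0868)) e)) (c (c (m (nat_lit 0x7a6b98)) e) e))) (c (c (c (m (nat_lit
  0x6b7f1e)) (c (m (nat_lit 0x12ae78)) e)) (c (c (p (nat_lit 0x9ffde0)) e) e)) (c (c (c (p (nat_lit
  0x802a88)) e) e) e))) (c (c (c (c (p (nat_lit 0x53e67a6)) (c (m (nat_lit 0xa17210)) e)) (c (c (p (nat_lit
  0x12f2f70)) e) e)) (c (c (c (m (nat_lit 0x280f68)) e) e) e)) (c (c (c (c (m (nat_lit 0x100c38)) e) e) e)
  e))) (c (c (c (c (c (m (nat_lit 0x41013f0)) (c (p (nat_lit 0x223ff8)) e)) (c (c (m (nat_lit 0xd8e1a8)) e)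
  e)) (c (c (c (p (nat_lit 0xb0b938)) e) e) e)) (c (c (c (c (p (nat_lit 0x4e5928)) e) e) e) e)) (c (c (c (c
  (c (m (nat_lit 0x13e960)) e) e) e) e) e))) (c (c (c (c (c (c (m (nat_lit 0x36202e)) (c (m (nat_lit
  0x58bf48)) e)) (c (c (p (nat_lit 0x206f280)) e) e)) (c (c (c (p (nat_lit 0x5dae60)) e) e) e)) (c (c (c (c
  (m (nat_lit 0xc6e778)) e) e) e) e)) (c (c (c (c (c (p (nat_lit 0x7c6698)) e) e) e) e) e)) (c (c (c (c (c (c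
  (m (nat_lit 0x8bc560)) e) e) e) e) e) e))) (c (c (c (c (c (c (c (m (nat_lit 0x18bfa2a)) (c (m (nat_lit
  0x62c532)) e)) (c (c (m (nat_lit 0x2bc708e)) e) e)) (c (c (c (m (nat_lit 0xf1282e)) e) e) e)) (c (c (c (c
  (m (nat_lit 0x2661222)) e) e) e) e)) (c (c (c (c (c (p (nat_lit 0xe0f5c8)) e) e) e) e) e)) (c (c (c (c (c
  (c (m (nat_lit 0x37964be)) e) e) e) e) e) e)) (c (c (c (c (c (c (c (p (nat_lit 0x2e7e992)) e) e) e) e) e)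
  e) e))) (c (c (c (c (c (c (c (c (m (nat_lit 0x2cb1e74)) (c (p (nat_lit 0x8e6aa0)) e)) (c (c (p (nat_lit
  0xb97bb8)) e) e)) (c (c (c (m (nat_lit 0x1f0470)) e) e) e)) (c (c (c (c (m (nat_lit 0xeae1a8)) e) e) e) e))
  (c (c (c (c (c (p (nat_lit 0x7289a0)) e) e) e) e) e)) (c (c (c (c (c (c (m (nat_lit 0x10e88b0)) e) e) e) e)
  e) e)) (c (c (c (c (c (c (c (p (nat_lit 0x36a7538)) e) e) e) e) e) e) e)) (c (c (c (c (c (c (c (c (p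
  (nat_lit 0x3e5c80)) e) e) e) e) e) e) e) e))))) (c (c (c (c (c (c (c (c (c (p (nat_lit 0x1ff8108)) (c (m
  (nat_lit 0x1bc949e)) (c (p (nat_lit 0x7e1488)) e))) (c (c (m (nat_lit 0x35a88e)) (c (m (nat_lit 0x6d3608))
  e)) (c (c (p (nat_lit 0x977a18)) e) e))) (c (c (c (p (nat_lit 0x72da46)) (c (m (nat_lit 0x10635d8)) e)) (c
  (c (m (nat_lit 0x791790)) e) e)) (c (c (c (m (nat_lit 0x913548)) e) e) e))) (c (c (c (c (p (nat_lit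
  0x440e644)) (c (p (nat_lit 0x18eaa8)) (c (p (nat_lit 0xa293a8)) e))) (c (c (m (nat_lit 0xa125d2)) (c (p
  (nat_lit 0x3e0e8)) e)) (c (c (p (nat_lit 0xa9a718)) e) e))) (c (c (c (m (nat_lit 0x1df87e8)) (c (m (nat_lit
  0x4f1aa8)) e)) (c (c (p (nat_lit 0x71ef68)) e) e)) (c (c (c (p (nat_lit 0xc98e08)) e) e) e))) (c (c (c (c
  (p (nat_lit 0x2bdb8)) (c (m (nat_lit 0x25af70)) e)) (c (c (m (nat_lit 0x4101c0)) e) e)) (c (c (c (m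
  (nat_lit 0x7e588)) e) e) e)) e))) (c (c (c (c (c (m (nat_lit 0x5a7b8e2)) (c (m (nat_lit 0x171f83a)) (c (p
  (nat_lit 0x3b5608)) e))) (c (c (p (nat_lit 0x1278450)) (c (p (nat_lit 0xa20a98)) e)) (c (c (p (nat_lit
  0x4aa6c0)) e) e))) (c (c (c (p (nat_lit 0x1d0e128)) (c (m (nat_lit 0x2ea7a8)) e)) (c (c (m (nat_lit
  0x27ea90)) e) e)) (c (c (c (m (nat_lit 0x319158)) e) e) e))) (c (c (c (c (p (nat_lit 0x5ad188)) (c (p
  (nat_lit 0x50b560)) e)) (c (c (m (nat_lit 0x23ce38)) e) e)) (c (c (c (m (nat_lit 0x2b8e88)) e) e) e)) e))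
  (c (c (c (c (c (p (nat_lit 0x62ccb8)) (c (m (nat_lit 0x113928)) e)) (c (c (m (nat_lit 0x5e7778)) e) e)) (c
  (c (c (m (nat_lit 0x1651e0)) e) e) e)) e) e))) (c (c (c (c (c (c (m (nat_lit 0x7f3a4cc)) (c (p (nat_lit
  0x21cca1a)) (c (m (nat_lit 0xde6b28)) e))) (c (c (p (nat_lit 0x2c6d6d2)) (c (p (nat_lit 0xd07cb8)) e)) (c
  (c (p (nat_lit 0x15d758)) e) e))) (c (c (c (p (nat_lit 0x38e2690)) (c (p (nat_lit 0xc6c78)) e)) (c (c (p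
  (nat_lit 0x38f670)) e) e)) (c (c (c (p (nat_lit 0x9ea6d8)) e) e) e))) (c (c (c (c (m (nat_lit 0x4668)) (c
  (p (nat_lit 0xc15af8)) e)) (c (c (p (nat_lit 0x194a78)) e) e)) (c (c (c (m (nat_lit 0x7327e0)) e) e) e))
  e)) (c (c (c (c (c (p (nat_lit 0x13c2a50)) (c (p (nat_lit 0xedda28)) e)) (c (c (p (nat_lit 0x3f7818)) e)
  e)) (c (c (c (m (nat_lit 0x7b5e50)) e) e) e)) e) e)) (c (c (c (c (c (c (p (nat_lit 0x73270e0)) (c (m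
  (nat_lit 0x23f3c40)) e)) (c (c (m (nat_lit 0x1c00560)) e) e)) (c (c (c (m (nat_lit 0x339e940)) e) e) e)) e)
  e) e))) (c (c (c (c (c (c (c (p (nat_lit 0x72c69e4)) (c (p (nat_lit 0x4ef6150)) (c (m (nat_lit 0x5b8f30))
  e))) (c (c (p (nat_lit 0xa9c098)) (c (m (nat_lit 0x997ec0)) e)) (c (c (m (nat_lit 0x559098)) e) e))) (c (c
  (c (m (nat_lit 0x269e6c2)) (c (p (nat_lit 0x84c840)) e)) (c (c (p (nat_lit 0x38c268)) e) e)) (c (c (c (m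
  (nat_lit 0x148e0)) e) e) e))) (c (c (c (c (m (nat_lit 0x290aeca)) (c (m (nat_lit 0x18a5d8)) e)) (c (c (m
  (nat_lit 0x9240ae)) e) e)) (c (c (c (p (nat_lit 0x1531728)) e) e) e)) (c (c (c (c (m (nat_lit 0x3eea40)) e)
  e) e) e))) (c (c (c (c (c (m (nat_lit 0x357b5f2)) (c (p (nat_lit 0x125d12)) e)) (c (c (p (nat_lit
  0x1324b48)) e) e)) (c (c (c (p (nat_lit 0xba75a8)) e) e) e)) (c (c (c (c (p (nat_lit 0x38cb50)) e) e) e)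
  e)) (c (c (c (c (c (p (nat_lit 0x36f450)) e) e) e) e) e))) (c (c (c (c (c (c (m (nat_lit 0x14a8c52)) (c (m
  (nat_lit 0x20bd90a)) e)) (c (c (m (nat_lit 0x26c84e2)) e) e)) (c (c (c (m (nat_lit 0xd6da78)) e) e) e)) (c
  (c (c (c (m (nat_lit 0x1f02a8)) e) e) e) e)) (c (c (c (c (c (p (nat_lit 0x28c980)) e) e) e) e) e)) (c (c (c
  (c (c (c (p (nat_lit 0x12b4c00)) e) e) e) e) e) e))) (c (c (c (c (c (c (c (m (nat_lit 0x878b32c)) (c (m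
  (nat_lit 0x141d092)) e)) (c (c (p (nat_lit 0x454e96)) e) e)) (c (c (c (p (nat_lit 0xa02fcc)) e) e) e)) (c
  (c (c (c (p (nat_lit 0x1b6e6a6)) e) e) e) e)) (c (c (c (c (c (p (nat_lit 0x27709c8)) e) e) e) e) e)) (c (c
  (c (c (c (c (p (nat_lit 0x4c4360a)) e) e) e) e) e) e)) (c (c (c (c (c (c (c (m (nat_lit 0x75cbf4)) e) e) e)
  e) e) e) e)))) (c (c (c (c (c (c (c (c (m (nat_lit 0x3088e3c)) (c (p (nat_lit 0xf5fb14)) (c (p (nat_lit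
  0x92b518)) e))) (c (c (p (nat_lit 0xf5fb5c)) (c (p (nat_lit 0x26670)) e)) (c (c (p (nat_lit 0x92b500)) e)
  e))) (c (c (c (p (nat_lit 0x11e4a3c)) (c (p (nat_lit 0x2c75d0)) e)) (c (c (p (nat_lit 0x2c75d0)) e) e)) (c
  (c (c (m (nat_lit 0x17b01b8)) e) e) e))) (c (c (c (c (p (nat_lit 0x18292e6)) (c (m (nat_lit 0x1987530)) e))
  (c (c (p (nat_lit 0x269aa8)) e) e)) (c (c (c (p (nat_lit 0x570108)) e) e) e)) (c (c (c (c (p (nat_lit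
  0x966f00)) e) e) e) e))) (c (c (c (c (c (p (nat_lit 0x18291f6)) (c (p (nat_lit 0x269ad8)) e)) (c (c (m
  (nat_lit 0x1987548)) e) e)) (c (c (c (p (nat_lit 0x570108)) e) e) e)) (c (c (c (c (m (nat_lit 0x157d388))
  e) e) e) e)) (c (c (c (c (c (p (nat_lit 0x966f00)) e) e) e) e) e))) (c (c (c (c (c (c (m (nat_lit
  0x1a6ec74)) (c (m (nat_lit 0x7b99f0)) e)) (c (c (m (nat_lit 0x7b9a20)) e) e)) (c (c (c (p (nat_lit
  0x19465c8)) e) e) e)) (c (c (c (c (m (nat_lit 0x882cf0)) e) e) e) e)) (c (c (c (c (c (m (nat_lit 0x882d20))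
  e) e) e) e) e)) (c (c (c (c (c (c (m (nat_lit 0xb0ce80)) e) e) e) e) e) e))) (c (c (c (c (c (c (c (m
  (nat_lit 0x9b598c0)) (c (p (nat_lit 0x5bc200)) e)) (c (c (p (nat_lit 0x5e7ae4)) e) e)) (c (c (c (m (nat_lit
  0x59268c)) e) e) e)) (c (c (c (c (p (nat_lit 0x97bc1e)) e) e) e) e)) (c (c (c (c (c (p (nat_lit 0x71c3ee))
  e) e) e) e) e)) (c (c (c (c (c (c (p (nat_lit 0x4166a0)) e) e) e) e) e) e)) (c (c (c (c (c (c (c (p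
  (nat_lit 0x4c404d8)) e) e) e) e) e) e) e))) (c (c (c (c (c (c (c (c (p (nat_lit 0xe28aa4)) (c (p (nat_lit
  0x532d88)) e)) (c (c (m (nat_lit 0x3d5c00)) e) e)) (c (c (c (m (nat_lit 0x759828)) e) e) e)) (c (c (c (c (m
  (nat_lit 0x1ba5f30)) e) e) e) e)) (c (c (c (c (c (p (nat_lit 0x48fbd0)) e) e) e) e) e)) (c (c (c (c (c (c
  (p (nat_lit 0x14c6ac0)) e) e) e) e) e) e)) (c (c (c (c (c (c (c (p (nat_lit 0x26af114)) e) e) e) e) e) e)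
  e)) (c (c (c (c (c (c (c (c (m (nat_lit 0x4ee1a8)) e) e) e) e) e) e) e) e)))) (c (c (c (c (c (c (c (c (c (p
  (nat_lit 0x3111a20)) (c (p (nat_lit 0x388086)) (c (m (nat_lit 0x7a6b80)) e))) (c (c (m (nat_lit 0x81122a))
  (c (p (nat_lit 0xe0880)) e)) (c (c (p (nat_lit 0x2f1750)) e) e))) (c (c (c (m (nat_lit 0x6b7f36)) (c (p
  (nat_lit 0x9ffdf8)) e)) (c (c (m (nat_lit 0x12ae48)) e) e)) (c (c (c (p (nat_lit 0x802a88)) e) e) e))) (c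
  (c (c (c (m (nat_lit 0x4101090)) (c (m (nat_lit 0xd8e190)) e)) (c (c (p (nat_lit 0x223fe0)) e) e)) (c (c (c
  (p (nat_lit 0xb0b920)) e) e) e)) (c (c (c (c (m (nat_lit 0x13e948)) e) e) e) e))) (c (c (c (c (c (p
  (nat_lit 0x53e678e)) (c (p (nat_lit 0x12f2f70)) e)) (c (c (m (nat_lit 0xa17228)) e) e)) (c (c (c (m
  (nat_lit 0x280f68)) e) e) e)) (c (c (c (c (p (nat_lit 0x4e58e0)) e) e) e) e)) (c (c (c (c (c (m (nat_lit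
  0x100c20)) e) e) e) e) e))) (c (c (c (c (c (c (m (nat_lit 0x361fe6)) (c (p (nat_lit 0x206f2c8)) e)) (c (c
  (m (nat_lit 0x58bf48)) e) e)) (c (c (c (p (nat_lit 0x5dae48)) e) e) e)) (c (c (c (c (p (nat_lit 0x7c6680))
  e) e) e) e)) (c (c (c (c (c (m (nat_lit 0xc6e748)) e) e) e) e) e)) (c (c (c (c (c (c (m (nat_lit 0x8bc440))
  e) e) e) e) e) e))) (c (c (c (c (c (c (c (m (nat_lit 0x27ac290)) (c (m (nat_lit 0x2b3a02e)) e)) (c (c (m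
  (nat_lit 0x7b6c36)) e) e)) (c (c (c (m (nat_lit 0xeb51da)) e) e) e)) (c (c (c (c (p (nat_lit 0xba7d40)) e)
  e) e) e)) (c (c (c (c (c (m (nat_lit 0x1cf91d6)) e) e) e) e) e)) (c (c (c (c (c (c (m (nat_lit 0xd3883a))
  e) e) e) e) e) e)) (c (c (c (c (c (c (c (p (nat_lit 0x23593b0)) e) e) e) e) e) e) e))) (c (c (c (c (c (c (c
  (c (p (nat_lit 0xe289cc)) (c (m (nat_lit 0x3d5c00)) e)) (c (c (p (nat_lit 0x532d88)) e) e)) (c (c (c (m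
  (nat_lit 0x759810)) e) e) e)) (c (c (c (c (p (nat_lit 0x48fc18)) e) e) e) e)) (c (c (c (c (c (m (nat_lit
  0x1ba5f78)) e) e) e) e) e)) (c (c (c (c (c (c (p (nat_lit 0x14c6a48)) e) e) e) e) e) e)) (c (c (c (c (c (c
  (c (p (nat_lit 0x1b31bfc)) e) e) e) e) e) e) e)) (c (c (c (c (c (c (c (c (m (nat_lit 0x1755f60)) e) e) e)
  e) e) e) e) e))) (c (c (c (c (c (c (c (c (c (m (nat_lit 0x2cb1d3c)) (c (p (nat_lit 0xb97bd0)) e)) (c (c (p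
  (nat_lit 0x8e6a88)) e) e)) (c (c (c (m (nat_lit 0x1f0488)) e) e) e)) (c (c (c (c (p (nat_lit 0x728940)) e)
  e) e) e)) (c (c (c (c (c (m (nat_lit 0xeae190)) e) e) e) e) e)) (c (c (c (c (c (c (m (nat_lit 0x10e8898))
  e) e) e) e) e) e)) (c (c (c (c (c (c (c (p (nat_lit 0x30ede04)) e) e) e) e) e) e) e)) (c (c (c (c (c (c (c
  (c (m (nat_lit 0x4ee208)) e) e) e) e) e) e) e) e)) (c (c (c (c (c (c (c (c (c (p (nat_lit 0x3e5c50)) e) e)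
  e) e) e) e) e) e) e)))))

noncomputable def gt_0_4 : Tr := (c gt_0_4_4 (c gt_0_4_5 (c gt_0_4_6 (c gt_0_4_7 e))))

noncomputable def gt_0_5_5 : Tr :=
  (c (c (c (c (c (c (c (c (c (p (nat_lit 0x10254a2)) (c (m (nat_lit 0x28c3a6a)) (c (p (nat_lit 0x177ef1c))
  e))) (c (c (p (nat_lit 0x1bbb5f0)) (c (p (nat_lit 0x6639cc)) e)) (c (c (m (nat_lit 0x1eb1cd2)) e) e))) (c
  (c (c (m (nat_lit 0x23c7fae)) (c (m (nat_lit 0xe9fc64)) e)) (c (c (p (nat_lit 0x6639de)) e) e)) (c (c (c (p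
  (nat_lit 0x177ef28)) e) e) e))) (c (c (c (c (m (nat_lit 0x28c3a6a)) (c (p (nat_lit 0x13baa79c)) (c (m
  (nat_lit 0x708e3a0)) e))) (c (c (m (nat_lit 0x1c3aea4)) (c (m (nat_lit 0x1d0adc2)) e)) (c (c (m (nat_lit
  0xd1b08)) e) e))) (c (c (c (m (nat_lit 0x82570c8)) (c (m (nat_lit 0x153ebc2)) e)) (c (c (p (nat_lit
  0x18458ac)) e) e)) (c (c (c (p (nat_lit 0x2049624)) e) e) e))) (c (c (c (c (p (nat_lit 0x177ef1c)) (c (m
  (nat_lit 0x708e3a0)) (c (p (nat_lit 0x8328dfe)) e))) (c (c (m (nat_lit 0xc0486c)) (c (p (nat_lit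
  0x167a32a)) e)) (c (c (p (nat_lit 0xef7d74)) e) e))) (c (c (c (p (nat_lit 0x2049600)) (c (m (nat_lit
  0xc1c890)) e)) (c (c (p (nat_lit 0x923ac)) e) e)) (c (c (c (m (nat_lit 0x2552ef8)) e) e) e))) e))) (c (c (c
  (c (c (p (nat_lit 0x1bbb5f0)) (c (m (nat_lit 0x1c3aea4)) (c (m (nat_lit 0xc0486c)) e))) (c (c (p (nat_lit
  0xd3db3e0)) (c (m (nat_lit 0x1f11bc4)) e)) (c (c (m (nat_lit 0x7168eea)) e) e))) (c (c (c (m (nat_lit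
  0x137ecf8)) (c (m (nat_lit 0x62be0)) e)) (c (c (m (nat_lit 0x1f11bd6)) e) e)) (c (c (c (m (nat_lit
  0xc0485a)) e) e) e))) (c (c (c (c (p (nat_lit 0x6639cc)) (c (m (nat_lit 0x1d0adc2)) (c (p (nat_lit
  0x167a32a)) e))) (c (c (m (nat_lit 0x1f11bc4)) (c (p (nat_lit 0x270452a)) e)) (c (c (p (nat_lit 0x10a36dc))
  e) e))) (c (c (c (p (nat_lit 0x18458ac)) (c (m (nat_lit 0x3732d2)) e)) (c (c (p (nat_lit 0x4eb070)) e) e))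
  (c (c (c (p (nat_lit 0x923a0)) e) e) e))) e)) (c (c (c (c (c (m (nat_lit 0x1eb1cd2)) (c (m (nat_lit
  0xd1b08)) (c (p (nat_lit 0xef7d74)) e))) (c (c (m (nat_lit 0x7168eea)) (c (p (nat_lit 0x10a36dc)) e)) (c (c
  (p (nat_lit 0x5a05880)) e) e))) (c (c (c (m (nat_lit 0xd1ad8)) (c (p (nat_lit 0x3f413a)) e)) (c (c (p
  (nat_lit 0x10a36d6)) e) e)) (c (c (c (p (nat_lit 0xef7d50)) e) e) e))) e) e))) (c (c (c (c (c (c (m
  (nat_lit 0x23c7fae)) (c (m (nat_lit 0x82570c8)) (c (p (nat_lit 0x2049600)) e))) (c (c (m (nat_lit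
  0x137ecf8)) (c (p (nat_lit 0x18458ac)) e)) (c (c (m (nat_lit 0xd1ad8)) e) e))) (c (c (c (p (nat_lit
  0x140b46fa)) (c (m (nat_lit 0x153ebd4)) e)) (c (c (m (nat_lit 0x1d0add4)) e) e)) (c (c (c (m (nat_lit
  0x708e33a)) e) e) e))) (c (c (c (c (m (nat_lit 0xe9fc64)) (c (m (nat_lit 0x153ebc2)) (c (m (nat_lit
  0xc1c890)) e))) (c (c (m (nat_lit 0x62be0)) (c (m (nat_lit 0x3732d2)) e)) (c (c (p (nat_lit 0x3f413a)) e)
  e))) (c (c (c (m (nat_lit 0x153ebd4)) (c (p (nat_lit 0x4642f9e)) e)) (c (c (m (nat_lit 0x3732de)) e) e)) (c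
  (c (c (m (nat_lit 0xc1c8a2)) e) e) e))) e)) (c (c (c (c (c (p (nat_lit 0x6639de)) (c (p (nat_lit
  0x18458ac)) (c (p (nat_lit 0x923ac)) e))) (c (c (m (nat_lit 0x1f11bd6)) (c (p (nat_lit 0x4eb070)) e)) (c (c
  (p (nat_lit 0x10a36d6)) e) e))) (c (c (c (m (nat_lit 0x1d0add4)) (c (m (nat_lit 0x3732de)) e)) (c (c (p
  (nat_lit 0x2704524)) e) e)) (c (c (c (p (nat_lit 0x167a32a)) e) e) e))) e) e)) (c (c (c (c (c (c (p
  (nat_lit 0x177ef28)) (c (p (nat_lit 0x2049624)) (c (m (nat_lit 0x2552ef8)) e))) (c (c (m (nat_lit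
  0xc0485a)) (c (p (nat_lit 0x923a0)) e)) (c (c (p (nat_lit 0xef7d50)) e) e))) (c (c (c (m (nat_lit
  0x708e33a)) (c (m (nat_lit 0xc1c8a2)) e)) (c (c (p (nat_lit 0x167a32a)) e) e)) (c (c (c (p (nat_lit
  0x8328d5c)) e) e) e))) e) e) e))) (c (c (c (c (c (c (c (p (nat_lit 0x72692b2)) (c (m (nat_lit 0x3b36fa0))
  (c (m (nat_lit 0x32802)) e))) (c (c (m (nat_lit 0x3264744)) (c (m (nat_lit 0x3d4fe2)) e)) (c (c (p (nat_lit
  0xdb1824)) e) e))) (c (c (c (p (nat_lit 0xccaa40)) (c (m (nat_lit 0xa0ce7e)) e)) (c (c (m (nat_lit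
  0x9214e0)) e) e)) (c (c (c (m (nat_lit 0x1bfe790)) e) e) e))) (c (c (c (c (m (nat_lit 0x3b36fa0)) (c (p
  (nat_lit 0x5bef114)) (c (m (nat_lit 0x7b23c4)) e))) (c (c (p (nat_lit 0x1d8a8a4)) (c (m (nat_lit 0x28c4a0))
  e)) (c (c (p (nat_lit 0x4241ac)) e) e))) (c (c (c (m (nat_lit 0x2639e2c)) (c (p (nat_lit 0x57a812)) e)) (c
  (c (m (nat_lit 0x1c7e02)) e) e)) (c (c (c (p (nat_lit 0x438d2)) e) e) e))) (c (c (c (c (m (nat_lit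
  0x32802)) (c (m (nat_lit 0x7b23c4)) e)) (c (c (m (nat_lit 0x3189ae)) e) e)) (c (c (c (m (nat_lit 0x213d8c))
  e) e) e)) e))) (c (c (c (c (c (m (nat_lit 0x3264744)) (c (p (nat_lit 0x1d8a8a4)) (c (m (nat_lit 0x3189ae))
  e))) (c (c (p (nat_lit 0x8da5e4)) (c (p (nat_lit 0x111f60)) e)) (c (c (p (nat_lit 0xc1b2d6)) e) e))) (c (c
  (c (p (nat_lit 0x24f73f8)) (c (p (nat_lit 0x9f9366)) e)) (c (c (p (nat_lit 0x106950)) e) e)) (c (c (c (m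
  (nat_lit 0x1354f8)) e) e) e))) (c (c (c (c (m (nat_lit 0x3d4fe2)) (c (m (nat_lit 0x28c4a0)) e)) (c (c (p
  (nat_lit 0x111f60)) e) e)) (c (c (c (m (nat_lit 0xda28c)) e) e) e)) e)) (c (c (c (c (c (p (nat_lit
  0xdb1824)) (c (p (nat_lit 0x4241ac)) e)) (c (c (p (nat_lit 0xc1b2d6)) e) e)) (c (c (c (m (nat_lit
  0x76063e)) e) e) e)) e) e))) (c (c (c (c (c (c (p (nat_lit 0xccaa40)) (c (m (nat_lit 0x2639e2c)) (c (m
  (nat_lit 0x213d8c)) e))) (c (c (p (nat_lit 0x24f73f8)) (c (m (nat_lit 0xda28c)) e)) (c (c (m (nat_lit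
  0x76063e)) e) e))) (c (c (c (p (nat_lit 0xda0219a)) (c (m (nat_lit 0x41a096)) e)) (c (c (m (nat_lit
  0x11aa6bc)) e) e)) (c (c (c (m (nat_lit 0x10b9b8e)) e) e) e))) (c (c (c (c (m (nat_lit 0xa0ce7e)) (c (p
  (nat_lit 0x57a812)) e)) (c (c (p (nat_lit 0x9f9366)) e) e)) (c (c (c (m (nat_lit 0x41a096)) e) e) e)) e))
  (c (c (c (c (c (m (nat_lit 0x9214e0)) (c (m (nat_lit 0x1c7e02)) e)) (c (c (p (nat_lit 0x106950)) e) e)) (c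
  (c (c (m (nat_lit 0x11aa6bc)) e) e) e)) e) e)) (c (c (c (c (c (c (m (nat_lit 0x1bfe790)) (c (p (nat_lit
  0x438d2)) e)) (c (c (m (nat_lit 0x1354f8)) e) e)) (c (c (c (m (nat_lit 0x10b9b8e)) e) e) e)) e) e) e))) (c
  (c (c (c (c (c (c (p (nat_lit 0x193758)) (c (p (nat_lit 0x1aa8a90)) (c (m (nat_lit 0x3c6cea)) e))) (c (c (p
  (nat_lit 0x1fa47e6)) (c (m (nat_lit 0x208a1c)) e)) (c (c (m (nat_lit 0x673c98)) e) e))) (c (c (c (m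
  (nat_lit 0x5529a38)) (c (m (nat_lit 0x5ba388)) e)) (c (c (p (nat_lit 0x5a8cc4)) e) e)) (c (c (c (p (nat_lit
  0x78c7e)) e) e) e))) (c (c (c (c (p (nat_lit 0x1aa8a90)) (c (m (nat_lit 0xffd896)) e)) (c (c (m (nat_lit
  0x4d7d80)) e) e)) (c (c (c (p (nat_lit 0x44ee1e)) e) e) e)) (c (c (c (c (m (nat_lit 0x3c6cea)) e) e) e)
  e))) (c (c (c (c (c (p (nat_lit 0x1fa47e6)) (c (m (nat_lit 0x4d7d80)) e)) (c (c (m (nat_lit 0xde6a44)) e)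
  e)) (c (c (c (m (nat_lit 0x11b4670)) e) e) e)) (c (c (c (c (m (nat_lit 0x208a1c)) e) e) e) e)) (c (c (c (c
  (c (m (nat_lit 0x673c98)) e) e) e) e) e))) (c (c (c (c (c (c (m (nat_lit 0x5529a38)) (c (p (nat_lit
  0x44ee1e)) e)) (c (c (m (nat_lit 0x11b4670)) e) e)) (c (c (c (m (nat_lit 0x370b62a)) e) e) e)) (c (c (c (c
  (m (nat_lit 0x5ba388)) e) e) e) e)) (c (c (c (c (c (p (nat_lit 0x5a8cc4)) e) e) e) e) e)) (c (c (c (c (c (c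
  (p (nat_lit 0x78c7e)) e) e) e) e) e) e))) (c (c (c (c (c (c (c (p (nat_lit 0x7a86902)) (c (m (nat_lit
  0xbf8cb0)) e)) (c (c (m (nat_lit 0x14cf0ac)) e) e)) (c (c (c (p (nat_lit 0x39b01e4)) e) e) e)) (c (c (c (c
  (m (nat_lit 0xbf8cb0)) e) e) e) e)) (c (c (c (c (c (m (nat_lit 0x14cf0ac)) e) e) e) e) e)) (c (c (c (c (c
  (c (p (nat_lit 0x39b01e4)) e) e) e) e) e) e)) (c (c (c (c (c (c (c (m (nat_lit 0x6cd616a)) e) e) e) e) e)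
  e) e))))) (c (c (c (c (c (c (c (c (m (nat_lit 0xc5fb974)) (c (p (nat_lit 0x278afa2)) (c (p (nat_lit
  0xdfd6a0)) e))) (c (c (p (nat_lit 0x5a75c84)) (c (m (nat_lit 0x9c2d0)) e)) (c (c (p (nat_lit 0x3f49668)) e)
  e))) (c (c (c (p (nat_lit 0x146f076)) (c (p (nat_lit 0x3847b54)) e)) (c (c (m (nat_lit 0x9c300)) e) e)) (c
  (c (c (p (nat_lit 0xdfd62e)) e) e) e))) (c (c (c (c (p (nat_lit 0x278afa2)) (c (m (nat_lit 0x1eba510)) (c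
  (m (nat_lit 0xe9f556)) e))) (c (c (m (nat_lit 0xd30572)) (c (p (nat_lit 0x7d070)) e)) (c (c (m (nat_lit
  0xd02d3e)) e) e))) (c (c (c (p (nat_lit 0x2902e)) (c (p (nat_lit 0x99db60)) e)) (c (c (m (nat_lit
  0x9defc6)) e) e)) (c (c (c (m (nat_lit 0x11cffdc)) e) e) e))) (c (c (c (c (p (nat_lit 0xdfd6a0)) (c (m
  (nat_lit 0xe9f556)) e)) (c (c (m (nat_lit 0xbe40d0)) e) e)) (c (c (c (m (nat_lit 0x11cffee)) e) e) e)) e)))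
  (c (c (c (c (c (p (nat_lit 0x5a75c84)) (c (m (nat_lit 0xd30572)) (c (m (nat_lit 0xbe40d0)) e))) (c (c (p
  (nat_lit 0x5356f7a)) (c (m (nat_lit 0x13e3ba0)) e)) (c (c (m (nat_lit 0x416bc44)) e) e))) (c (c (c (m
  (nat_lit 0x15ec7c0)) (c (m (nat_lit 0x26fedac)) e)) (c (c (m (nat_lit 0x13e3b7c)) e) e)) (c (c (c (m
  (nat_lit 0xbe4094)) e) e) e))) (c (c (c (c (m (nat_lit 0x9c2d0)) (c (p (nat_lit 0x7d070)) e)) (c (c (m
  (nat_lit 0x13e3ba0)) e) e)) (c (c (c (m (nat_lit 0x9defc6)) e) e) e)) e)) (c (c (c (c (c (p (nat_lit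
  0x3f49668)) (c (m (nat_lit 0xd02d3e)) e)) (c (c (m (nat_lit 0x416bc44)) e) e)) (c (c (c (m (nat_lit
  0xd02d1a)) e) e) e)) e) e))) (c (c (c (c (c (c (p (nat_lit 0x146f076)) (c (p (nat_lit 0x2902e)) (c (m
  (nat_lit 0x11cffee)) e))) (c (c (m (nat_lit 0x15ec7c0)) (c (m (nat_lit 0x9defc6)) e)) (c (c (m (nat_lit
  0xd02d1a)) e) e))) (c (c (c (m (nat_lit 0x23c4528)) (c (p (nat_lit 0x99db60)) e)) (c (c (p (nat_lit
  0x7d08e)) e) e)) (c (c (c (m (nat_lit 0xe9f4f6)) e) e) e))) (c (c (c (c (p (nat_lit 0x3847b54)) (c (p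
  (nat_lit 0x99db60)) e)) (c (c (m (nat_lit 0x26fedac)) e) e)) (c (c (c (p (nat_lit 0x99db60)) e) e) e)) e))
  (c (c (c (c (c (m (nat_lit 0x9c300)) (c (m (nat_lit 0x9defc6)) e)) (c (c (m (nat_lit 0x13e3b7c)) e) e)) (c
  (c (c (p (nat_lit 0x7d08e)) e) e) e)) e) e)) (c (c (c (c (c (c (p (nat_lit 0xdfd62e)) (c (m (nat_lit
  0x11cffdc)) e)) (c (c (m (nat_lit 0xbe4094)) e) e)) (c (c (c (m (nat_lit 0xe9f4f6)) e) e) e)) e) e) e))) (c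
  (c (c (c (c (c (c (p (nat_lit 0x13da0a2)) (c (p (nat_lit 0xa13904)) (c (p (nat_lit 0xd08e04)) e))) (c (c (m
  (nat_lit 0x1a52828)) (c (p (nat_lit 0x53fb44)) e)) (c (c (p (nat_lit 0xbee492)) e) e))) (c (c (c (p
  (nat_lit 0x2fc02e)) (c (p (nat_lit 0xef6532)) e)) (c (c (p (nat_lit 0x23dffc)) e) e)) (c (c (c (p (nat_lit
  0xc8e536)) e) e) e))) (c (c (c (c (p (nat_lit 0xa13904)) (c (m (nat_lit 0x1e288ae)) e)) (c (c (m (nat_lit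
  0x177e328)) e) e)) (c (c (c (m (nat_lit 0xe1df1a)) e) e) e)) (c (c (c (c (p (nat_lit 0xd08e04)) e) e) e)
  e))) (c (c (c (c (c (m (nat_lit 0x1a52828)) (c (m (nat_lit 0x177e328)) e)) (c (c (m (nat_lit 0x19375ec)) e)
  e)) (c (c (c (p (nat_lit 0x5bc440)) e) e) e)) (c (c (c (c (p (nat_lit 0x53fb44)) e) e) e) e)) (c (c (c (c
  (c (p (nat_lit 0xbee492)) e) e) e) e) e))) (c (c (c (c (c (c (p (nat_lit 0x2fc02e)) (c (m (nat_lit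
  0xe1df1a)) e)) (c (c (p (nat_lit 0x5bc440)) e) e)) (c (c (c (m (nat_lit 0x224d14a)) e) e) e)) (c (c (c (c
  (p (nat_lit 0xef6532)) e) e) e) e)) (c (c (c (c (c (p (nat_lit 0x23dffc)) e) e) e) e) e)) (c (c (c (c (c (c
  (p (nat_lit 0xc8e536)) e) e) e) e) e) e))) (c (c (c (c (c (c (c (m (nat_lit 0xcf4d77e)) (c (p (nat_lit
  0x45af80)) e)) (c (c (p (nat_lit 0x1b3b4f6)) e) e)) (c (c (c (p (nat_lit 0x13f18b0)) e) e) e)) (c (c (c (c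
  (p (nat_lit 0x45af80)) e) e) e) e)) (c (c (c (c (c (p (nat_lit 0x1b3b4f6)) e) e) e) e) e)) (c (c (c (c (c
  (c (p (nat_lit 0x13f18b0)) e) e) e) e) e) e)) (c (c (c (c (c (c (c (p (nat_lit 0x4ff31e2)) e) e) e) e) e)
  e) e)))) (c (c (c (c (c (c (c (c (p (nat_lit 0x149362f8)) (c (m (nat_lit 0x64ab2a2)) (c (m (nat_lit
  0x951126)) e))) (c (c (m (nat_lit 0xc97d6ac)) (c (m (nat_lit 0x2f4300)) e)) (c (c (m (nat_lit 0x119d6e4))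
  e) e))) (c (c (c (m (nat_lit 0x568ae62)) (c (m (nat_lit 0x1ca1e5e)) e)) (c (c (m (nat_lit 0x2f42e8)) e) e))
  (c (c (c (m (nat_lit 0x951102)) e) e) e))) (c (c (c (c (m (nat_lit 0x64ab2a2)) (c (p (nat_lit 0x4a7c39c))
  e)) (c (c (p (nat_lit 0x38ba562)) e) e)) (c (c (c (p (nat_lit 0x3095cc4)) e) e) e)) (c (c (c (c (m (nat_lit
  0x951126)) e) e) e) e))) (c (c (c (c (c (m (nat_lit 0xc97d6ac)) (c (p (nat_lit 0x38ba562)) e)) (c (c (p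
  (nat_lit 0x9e19fba)) e) e)) (c (c (c (p (nat_lit 0x38ba54a)) e) e) e)) (c (c (c (c (m (nat_lit 0x2f4300))
  e) e) e) e)) (c (c (c (c (c (m (nat_lit 0x119d6e4)) e) e) e) e) e))) (c (c (c (c (c (c (m (nat_lit
  0x568ae62)) (c (p (nat_lit 0x3095cc4)) e)) (c (c (p (nat_lit 0x38ba54a)) e) e)) (c (c (c (p (nat_lit
  0x4a7c38a)) e) e) e)) (c (c (c (c (m (nat_lit 0x1ca1e5e)) e) e) e) e)) (c (c (c (c (c (m (nat_lit
  0x2f42e8)) e) e) e) e) e)) (c (c (c (c (c (c (m (nat_lit 0x951102)) e) e) e) e) e) e))) (c (c (c (c (c (c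
  (c (p (nat_lit 0x94a258a)) (c (p (nat_lit 0x60888)) e)) (c (c (m (nat_lit 0x16d01e4)) e) e)) (c (c (c (m
  (nat_lit 0xf6ab5a)) e) e) e)) (c (c (c (c (p (nat_lit 0x60888)) e) e) e) e)) (c (c (c (c (c (m (nat_lit
  0x16d01e4)) e) e) e) e) e)) (c (c (c (c (c (c (m (nat_lit 0xf6ab5a)) e) e) e) e) e) e)) (c (c (c (c (c (c
  (c (p (nat_lit 0xf02718)) e) e) e) e) e) e) e))) (c (c (c (c (c (c (c (c (m (nat_lit 0x8f7c228)) (c (p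
  (nat_lit 0xe22a08)) e)) (c (c (p (nat_lit 0x33a0398)) e) e)) (c (c (c (p (nat_lit 0xe22a08)) e) e) e)) (c
  (c (c (c (p (nat_lit 0xe22a08)) e) e) e) e)) (c (c (c (c (c (p (nat_lit 0x33a0398)) e) e) e) e) e)) (c (c
  (c (c (c (c (p (nat_lit 0xe22a08)) e) e) e) e) e) e)) (c (c (c (c (c (c (c (m (nat_lit 0x4d535a2)) e) e) e)
  e) e) e) e)) (c (c (c (c (c (c (c (c (p (nat_lit 0x3b78dfc)) e) e) e) e) e) e) e) e))))) (c (c (c (c (c (c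
  (c (c (c (p (nat_lit 0x502ed98)) (c (p (nat_lit 0x119690a)) (c (m (nat_lit 0x1bfe77e)) e))) (c (c (m
  (nat_lit 0x25d8542)) (c (m (nat_lit 0x9214e0)) e)) (c (c (p (nat_lit 0xdb1854)) e) e))) (c (c (c (m
  (nat_lit 0x3309eca)) (c (m (nat_lit 0xa0cea2)) e)) (c (c (m (nat_lit 0x3d4f94)) e) e)) (c (c (c (m (nat_lit
  0x327a2)) e) e) e))) (c (c (c (c (p (nat_lit 0x119690a)) (c (p (nat_lit 0x6ef2554)) (c (m (nat_lit
  0x10b9ba0)) e))) (c (c (p (nat_lit 0x179b896)) (c (m (nat_lit 0x11aa692)) e)) (c (c (m (nat_lit 0x760638))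
  e) e))) (c (c (c (m (nat_lit 0x2d3069c)) (c (m (nat_lit 0x41a072)) e)) (c (c (m (nat_lit 0xda2bc)) e) e))
  (c (c (c (m (nat_lit 0x213d92)) e) e) e))) (c (c (c (c (m (nat_lit 0x1bfe77e)) (c (m (nat_lit 0x10b9ba0))
  e)) (c (c (m (nat_lit 0x1354ce)) e) e)) (c (c (c (p (nat_lit 0x438ba)) e) e) e)) e))) (c (c (c (c (c (m
  (nat_lit 0x25d8542)) (c (p (nat_lit 0x179b896)) (c (m (nat_lit 0x1354ce)) e))) (c (c (m (nat_lit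
  0x25cd4de)) (c (p (nat_lit 0x106968)) e)) (c (c (p (nat_lit 0xc1b2d0)) e) e))) (c (c (c (p (nat_lit
  0x5f13a2)) (c (p (nat_lit 0x9f9354)) e)) (c (c (p (nat_lit 0x111f4e)) e) e)) (c (c (c (m (nat_lit
  0x3189a2)) e) e) e))) (c (c (c (c (m (nat_lit 0x9214e0)) (c (m (nat_lit 0x11aa692)) e)) (c (c (p (nat_lit
  0x106968)) e) e)) (c (c (c (m (nat_lit 0x1c7dfc)) e) e) e)) e)) (c (c (c (c (c (p (nat_lit 0xdb1854)) (c (m
  (nat_lit 0x760638)) e)) (c (c (p (nat_lit 0xc1b2d0)) e) e)) (c (c (c (p (nat_lit 0x4241ac)) e) e) e)) e)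
  e))) (c (c (c (c (c (c (m (nat_lit 0x3309eca)) (c (m (nat_lit 0x2d3069c)) (c (p (nat_lit 0x438ba)) e))) (c
  (c (p (nat_lit 0x5f13a2)) (c (m (nat_lit 0x1c7dfc)) e)) (c (c (p (nat_lit 0x4241ac)) e) e))) (c (c (c (p
  (nat_lit 0x1f2102c)) (c (p (nat_lit 0x57a824)) e)) (c (c (m (nat_lit 0x28c4ca)) e) e)) (c (c (c (m (nat_lit
  0x7b23c4)) e) e) e))) (c (c (c (c (m (nat_lit 0xa0cea2)) (c (m (nat_lit 0x41a072)) e)) (c (c (p (nat_lit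
  0x9f9354)) e) e)) (c (c (c (p (nat_lit 0x57a824)) e) e) e)) e)) (c (c (c (c (c (m (nat_lit 0x3d4f94)) (c (m
  (nat_lit 0xda2bc)) e)) (c (c (p (nat_lit 0x111f4e)) e) e)) (c (c (c (m (nat_lit 0x28c4ca)) e) e) e)) e) e))
  (c (c (c (c (c (c (m (nat_lit 0x327a2)) (c (m (nat_lit 0x213d92)) e)) (c (c (m (nat_lit 0x3189a2)) e) e))
  (c (c (c (m (nat_lit 0x7b23c4)) e) e) e)) e) e) e))) (c (c (c (c (c (c (c (m (nat_lit 0x11b2b640)) (c (p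
  (nat_lit 0x442bdb0)) (c (p (nat_lit 0xde1e60)) e))) (c (c (p (nat_lit 0x2cc138a)) (c (p (nat_lit 0x33b124))
  e)) (c (c (m (nat_lit 0xafe4a4)) e) e))) (c (c (c (p (nat_lit 0x4642bc6)) (c (m (nat_lit 0x771f54)) e)) (c
  (c (p (nat_lit 0x33b148)) e) e)) (c (c (c (p (nat_lit 0xde1e60)) e) e) e))) (c (c (c (c (p (nat_lit
  0x442bdb0)) (c (m (nat_lit 0x1276170)) e)) (c (c (m (nat_lit 0x5f1d4a)) e) e)) (c (c (c (m (nat_lit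
  0x1480a22)) e) e) e)) (c (c (c (c (p (nat_lit 0xde1e60)) e) e) e) e))) (c (c (c (c (c (p (nat_lit
  0x2cc138a)) (c (m (nat_lit 0x5f1d4a)) e)) (c (c (m (nat_lit 0x1ba8ada)) e) e)) (c (c (c (p (nat_lit
  0x2ca43e)) e) e) e)) (c (c (c (c (p (nat_lit 0x33b124)) e) e) e) e)) (c (c (c (c (c (m (nat_lit 0xafe4a4))
  e) e) e) e) e))) (c (c (c (c (c (c (p (nat_lit 0x4642bc6)) (c (m (nat_lit 0x1480a22)) e)) (c (c (p (nat_lit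
  0x2ca43e)) e) e)) (c (c (c (m (nat_lit 0xd6c230)) e) e) e)) (c (c (c (c (m (nat_lit 0x771f54)) e) e) e) e))
  (c (c (c (c (c (p (nat_lit 0x33b148)) e) e) e) e) e)) (c (c (c (c (c (c (p (nat_lit 0xde1e60)) e) e) e) e)
  e) e))) (c (c (c (c (c (c (c (m (nat_lit 0x1ebcd4e)) (c (p (nat_lit 0x95f40)) e)) (c (c (m (nat_lit
  0x43ac46)) e) e)) (c (c (c (m (nat_lit 0x1cac136)) e) e) e)) (c (c (c (c (p (nat_lit 0x95f40)) e) e) e) e))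
  (c (c (c (c (c (m (nat_lit 0x43ac46)) e) e) e) e) e)) (c (c (c (c (c (c (m (nat_lit 0x1cac136)) e) e) e) e)
  e) e)) (c (c (c (c (c (c (c (p (nat_lit 0x7aba226)) e) e) e) e) e) e) e)))) (c (c (c (c (c (c (c (c (p
  (nat_lit 0xccb6ac)) (c (m (nat_lit 0x1e6e70)) (c (p (nat_lit 0xc8e554)) e))) (c (c (m (nat_lit 0x10f195e))
  (c (p (nat_lit 0x23dffc)) e)) (c (c (p (nat_lit 0xbee45c)) e) e))) (c (c (c (p (nat_lit 0x1f8bb7a)) (c (p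
  (nat_lit 0xef650e)) e)) (c (c (p (nat_lit 0x53fb2c)) e) e)) (c (c (c (p (nat_lit 0xd08db6)) e) e) e))) (c
  (c (c (c (m (nat_lit 0x1e6e70)) (c (m (nat_lit 0x109f0bc)) e)) (c (c (p (nat_lit 0x6e2b72)) e) e)) (c (c (c
  (p (nat_lit 0x1455de)) e) e) e)) (c (c (c (c (p (nat_lit 0xc8e554)) e) e) e) e))) (c (c (c (c (c (m
  (nat_lit 0x10f195e)) (c (p (nat_lit 0x6e2b72)) e)) (c (c (m (nat_lit 0x65f118)) e) e)) (c (c (c (m (nat_lit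
  0x5f99ac)) e) e) e)) (c (c (c (c (p (nat_lit 0x23dffc)) e) e) e) e)) (c (c (c (c (c (p (nat_lit 0xbee45c))
  e) e) e) e) e))) (c (c (c (c (c (c (p (nat_lit 0x1f8bb7a)) (c (p (nat_lit 0x1455de)) e)) (c (c (m (nat_lit
  0x5f99ac)) e) e)) (c (c (c (m (nat_lit 0xaf4e8c)) e) e) e)) (c (c (c (c (p (nat_lit 0xef650e)) e) e) e) e))
  (c (c (c (c (c (p (nat_lit 0x53fb2c)) e) e) e) e) e)) (c (c (c (c (c (c (p (nat_lit 0xd08db6)) e) e) e) e)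
  e) e))) (c (c (c (c (c (c (c (m (nat_lit 0x7b1617c)) (c (m (nat_lit 0x2cef3e)) e)) (c (c (p (nat_lit
  0xec2b9c)) e) e)) (c (c (c (m (nat_lit 0x152e4ee)) e) e) e)) (c (c (c (c (m (nat_lit 0x2cef3e)) e) e) e)
  e)) (c (c (c (c (c (p (nat_lit 0xec2b9c)) e) e) e) e) e)) (c (c (c (c (c (c (m (nat_lit 0x152e4ee)) e) e)
  e) e) e) e)) (c (c (c (c (c (c (c (p (nat_lit 0x2cde6ac)) e) e) e) e) e) e) e))) (c (c (c (c (c (c (c (c (p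
  (nat_lit 0x78c84a8)) (c (m (nat_lit 0x13c2354)) e)) (c (c (m (nat_lit 0x2ae8ddc)) e) e)) (c (c (c (m
  (nat_lit 0x16d6e7a)) e) e) e)) (c (c (c (c (m (nat_lit 0x13c2354)) e) e) e) e)) (c (c (c (c (c (m (nat_lit
  0x2ae8ddc)) e) e) e) e) e)) (c (c (c (c (c (c (m (nat_lit 0x16d6e7a)) e) e) e) e) e) e)) (c (c (c (c (c (c
  (c (p (nat_lit 0x1ba2174)) e) e) e) e) e) e) e)) (c (c (c (c (c (c (c (c (m (nat_lit 0x296b80c)) e) e) e)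
  e) e) e) e) e)))) (c (c (c (c (c (c (c (c (c (p (nat_lit 0x1089b94)) (c (m (nat_lit 0x1c5ebb6)) (c (p
  (nat_lit 0x78c5a)) e))) (c (c (m (nat_lit 0xc8d3c)) (c (p (nat_lit 0x5a8cca)) e)) (c (c (m (nat_lit
  0x673caa)) e) e))) (c (c (c (p (nat_lit 0x1dae4)) (c (m (nat_lit 0x5ba376)) e)) (c (c (m (nat_lit
  0x208a34)) e) e)) (c (c (c (m (nat_lit 0x3c6cf6)) e) e) e))) (c (c (c (c (m (nat_lit 0x1c5ebb6)) (c (p
  (nat_lit 0x390e376)) e)) (c (c (p (nat_lit 0x4635fc)) e) e)) (c (c (c (p (nat_lit 0xb456a6)) e) e) e)) (c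
  (c (c (c (p (nat_lit 0x78c5a)) e) e) e) e))) (c (c (c (c (c (m (nat_lit 0xc8d3c)) (c (p (nat_lit 0x4635fc))
  e)) (c (c (p (nat_lit 0x20c10c6)) e) e)) (c (c (c (p (nat_lit 0xa05636)) e) e) e)) (c (c (c (c (p (nat_lit
  0x5a8cca)) e) e) e) e)) (c (c (c (c (c (m (nat_lit 0x673caa)) e) e) e) e) e))) (c (c (c (c (c (c (p
  (nat_lit 0x1dae4)) (c (p (nat_lit 0xb456a6)) e)) (c (c (p (nat_lit 0xa05636)) e) e)) (c (c (c (p (nat_lit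
  0x27c6960)) e) e) e)) (c (c (c (c (m (nat_lit 0x5ba376)) e) e) e) e)) (c (c (c (c (c (m (nat_lit 0x208a34))
  e) e) e) e) e)) (c (c (c (c (c (c (m (nat_lit 0x3c6cf6)) e) e) e) e) e) e))) (c (c (c (c (c (c (c (p
  (nat_lit 0x10b44778)) (c (m (nat_lit 0x2b0c96e)) e)) (c (c (m (nat_lit 0x18fa908)) e) e)) (c (c (c (m
  (nat_lit 0xae5c82)) e) e) e)) (c (c (c (c (m (nat_lit 0x2b0c96e)) e) e) e) e)) (c (c (c (c (c (m (nat_lit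
  0x18fa908)) e) e) e) e) e)) (c (c (c (c (c (c (m (nat_lit 0xae5c82)) e) e) e) e) e) e)) (c (c (c (c (c (c
  (c (m (nat_lit 0x77e7232)) e) e) e) e) e) e) e))) (c (c (c (c (c (c (c (c (m (nat_lit 0x4e3ff5a)) (c (p
  (nat_lit 0x476436)) e)) (c (c (p (nat_lit 0xac3a0a)) e) e)) (c (c (c (p (nat_lit 0x96102)) e) e) e)) (c (c
  (c (c (p (nat_lit 0x476436)) e) e) e) e)) (c (c (c (c (c (p (nat_lit 0xac3a0a)) e) e) e) e) e)) (c (c (c (c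
  (c (c (p (nat_lit 0x96102)) e) e) e) e) e) e)) (c (c (c (c (c (c (c (p (nat_lit 0x992b14)) e) e) e) e) e)
  e) e)) (c (c (c (c (c (c (c (c (p (nat_lit 0x3bf0a72)) e) e) e) e) e) e) e) e))) (c (c (c (c (c (c (c (c (c
  (p (nat_lit 0x69db7e)) (c (p (nat_lit 0x115086)) e)) (c (c (m (nat_lit 0xeddc8)) e) e)) (c (c (c (p
  (nat_lit 0x16972e)) e) e) e)) (c (c (c (c (p (nat_lit 0x115086)) e) e) e) e)) (c (c (c (c (c (m (nat_lit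
  0xeddc8)) e) e) e) e) e)) (c (c (c (c (c (c (p (nat_lit 0x16972e)) e) e) e) e) e) e)) (c (c (c (c (c (c (c
  (m (nat_lit 0x371b092)) e) e) e) e) e) e) e)) (c (c (c (c (c (c (c (c (m (nat_lit 0x854a3c)) e) e) e) e) e)
  e) e) e)) (c (c (c (c (c (c (c (c (c (p (nat_lit 0x1a56cd4)) e) e) e) e) e) e) e) e) e)))))

noncomputable def gt_0_5_6 : Tr :=
  (c (c (c (c (c (c (c (c (c (m (nat_lit 0x904b00)) (c (p (nat_lit 0x1664520)) (c (m (nat_lit 0x1b7038)) e)))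
  (c (c (m (nat_lit 0x3952656)) (c (m (nat_lit 0x7cf218)) e)) (c (c (p (nat_lit 0x39fbf4)) e) e))) (c (c (c
  (m (nat_lit 0x299bd76)) (c (m (nat_lit 0xf4074)) e)) (c (c (m (nat_lit 0x4b1fe0)) e) e)) (c (c (c (p
  (nat_lit 0x19307c4)) e) e) e))) (c (c (c (c (m (nat_lit 0x3952758)) (c (m (nat_lit 0x3e96310)) (c (p
  (nat_lit 0x1d7023a)) e))) (c (c (p (nat_lit 0xa5463ce)) (c (m (nat_lit 0x118f93e)) e)) (c (c (m (nat_lit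
  0x2aed6d8)) e) e))) (c (c (c (p (nat_lit 0x3e48364)) (c (p (nat_lit 0x17e18da)) e)) (c (c (m (nat_lit
  0x2ec3d58)) e) e)) (c (c (c (p (nat_lit 0xa210d4)) e) e) e))) (c (c (c (c (p (nat_lit 0x39fc06)) (c (p
  (nat_lit 0x1ad66de)) (c (m (nat_lit 0x7a9c88)) e))) (c (c (m (nat_lit 0x2aed6e4)) (c (m (nat_lit 0x407952))
  e)) (c (c (m (nat_lit 0x79a64)) e) e))) (c (c (c (m (nat_lit 0x24f08a0)) (c (m (nat_lit 0x10f9458)) e)) (c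
  (c (p (nat_lit 0xf7d9e8)) e) e)) (c (c (c (m (nat_lit 0xc66a2c)) e) e) e))) e))) (c (c (c (c (c (p (nat_lit
  0x1663cce)) (c (m (nat_lit 0xd89e64)) (c (p (nat_lit 0x165bd06)) e))) (c (c (m (nat_lit 0x3e96520)) (c (p
  (nat_lit 0x14b8528)) e)) (c (c (p (nat_lit 0x1ad67c8)) e) e))) (c (c (c (p (nat_lit 0x5a392c4)) (c (p
  (nat_lit 0x1ba056)) e)) (c (c (m (nat_lit 0x3396ca8)) e) e)) (c (c (c (m (nat_lit 0x3848f4)) e) e) e))) (c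
  (c (c (c (m (nat_lit 0x7cf260)) (c (p (nat_lit 0x14b852e)) (c (m (nat_lit 0x776be)) e))) (c (c (m (nat_lit
  0x118f8fc)) (c (p (nat_lit 0xb3b26)) e)) (c (c (m (nat_lit 0x40797c)) e) e))) (c (c (c (m (nat_lit
  0x11e6ff8)) (c (m (nat_lit 0x570a7a)) e)) (c (c (p (nat_lit 0xdcb7e0)) e) e)) (c (c (c (p (nat_lit
  0x8070b4)) e) e) e))) e)) (c (c (c (c (c (m (nat_lit 0x1b702c)) (c (p (nat_lit 0x165bc8e)) (c (m (nat_lit
  0x16744c8)) e))) (c (c (p (nat_lit 0x1d702b8)) (c (m (nat_lit 0x776dc)) e)) (c (c (m (nat_lit 0x7a9d00)) e)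
  e))) (c (c (c (m (nat_lit 0x292c974)) (c (m (nat_lit 0x518502)) e)) (c (c (p (nat_lit 0x1540bfc)) e) e)) (c
  (c (c (m (nat_lit 0x5e73a0)) e) e) e))) e) e))) (c (c (c (c (c (c (m (nat_lit 0x299bdbe)) (c (p (nat_lit
  0x5a3939c)) (c (m (nat_lit 0x292c96e)) e))) (c (c (p (nat_lit 0x3e48334)) (c (m (nat_lit 0x11e6ff2)) e)) (c
  (c (m (nat_lit 0x24f0828)) e) e))) (c (c (c (p (nat_lit 0xdd5cfe)) (c (m (nat_lit 0x169e744)) e)) (c (c (p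
  (nat_lit 0x86f274)) e) e)) (c (c (c (m (nat_lit 0x1849a94)) e) e) e))) (c (c (c (c (m (nat_lit 0x4b20dc))
  (c (m (nat_lit 0x3396bd6)) (c (p (nat_lit 0x1540c02)) e))) (c (c (m (nat_lit 0x2ec3d40)) (c (p (nat_lit
  0xdcb7c2)) e)) (c (c (p (nat_lit 0xf7d970)) e) e))) (c (c (c (p (nat_lit 0x86f298)) (c (p (nat_lit
  0x154ce)) e)) (c (c (p (nat_lit 0x12b7ab0)) e) e)) (c (c (c (p (nat_lit 0x942dec)) e) e) e))) e)) (c (c (c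
  (c (c (m (nat_lit 0xf40f8)) (c (p (nat_lit 0x1ba050)) (c (m (nat_lit 0x5184e4)) e))) (c (c (p (nat_lit
  0x17e18f8)) (c (m (nat_lit 0x570a7a)) e)) (c (c (m (nat_lit 0x10f947c)) e) e))) (c (c (c (m (nat_lit
  0x169e75c)) (c (p (nat_lit 0xdd8d7c)) e)) (c (c (p (nat_lit 0x154f8)) e) e)) (c (c (c (p (nat_lit
  0x10c63c8)) e) e) e))) e) e)) (c (c (c (c (c (c (p (nat_lit 0x193077c)) (c (m (nat_lit 0x3848a6)) (c (m
  (nat_lit 0x5e73a6)) e))) (c (c (p (nat_lit 0xa21128)) (c (p (nat_lit 0x8070ae)) e)) (c (c (m (nat_lit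
  0xc66a44)) e) e))) (c (c (c (m (nat_lit 0x1849b24)) (c (p (nat_lit 0x10c63c2)) e)) (c (c (p (nat_lit
  0x942e04)) e) e)) (c (c (c (p (nat_lit 0x1004ce8)) e) e) e))) e) e) e))) (c (c (c (c (c (c (c (p (nat_lit
  0x3bdef40)) (c (p (nat_lit 0x16107cc)) (c (m (nat_lit 0x1445c0a)) e))) (c (c (p (nat_lit 0x5745f7e)) (c (m
  (nat_lit 0x9e659e)) e)) (c (c (m (nat_lit 0xe5e5dc)) e) e))) (c (c (c (m (nat_lit 0x12b57e2)) (c (m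
  (nat_lit 0xcb1a02)) e)) (c (c (p (nat_lit 0x398a78)) e) e)) (c (c (c (m (nat_lit 0x942330)) e) e) e))) (c
  (c (c (c (p (nat_lit 0x5745fae)) (c (m (nat_lit 0x1f994ca)) (c (p (nat_lit 0x9a78c2)) e))) (c (c (m
  (nat_lit 0x674a7c8)) (c (p (nat_lit 0x97e2ee)) e)) (c (c (p (nat_lit 0x1639860)) e) e))) (c (c (c (m
  (nat_lit 0x573ce4)) (c (p (nat_lit 0x2e5468)) e)) (c (c (m (nat_lit 0x9fb004)) e) e)) (c (c (c (p (nat_lit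
  0x5e6c68)) e) e) e))) (c (c (c (c (m (nat_lit 0xe5e612)) (c (p (nat_lit 0x6de300)) e)) (c (c (p (nat_lit
  0x1639872)) e) e)) (c (c (c (p (nat_lit 0x10814f4)) e) e) e)) e))) (c (c (c (c (c (p (nat_lit 0x16107c6))
  (c (m (nat_lit 0x1325832)) (c (p (nat_lit 0xf5fa)) e))) (c (c (m (nat_lit 0x1f994fa)) (c (m (nat_lit
  0x114aa4)) e)) (c (c (p (nat_lit 0x6de300)) e) e))) (c (c (c (p (nat_lit 0x253ae62)) (c (m (nat_lit
  0x3aaa96)) e)) (c (c (p (nat_lit 0x9d3c50)) e) e)) (c (c (c (m (nat_lit 0xc8ba88)) e) e) e))) (c (c (c (c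
  (m (nat_lit 0x9e65b0)) (c (m (nat_lit 0x114a92)) e)) (c (c (p (nat_lit 0x97e2ee)) e) e)) (c (c (c (p
  (nat_lit 0x3192ae)) e) e) e)) e)) (c (c (c (c (c (m (nat_lit 0x1445c16)) (c (p (nat_lit 0xf606)) e)) (c (c
  (p (nat_lit 0x9a78c8)) e) e)) (c (c (c (m (nat_lit 0x16e87c)) e) e) e)) e) e))) (c (c (c (c (c (c (m
  (nat_lit 0x12b57d6)) (c (p (nat_lit 0x253aec2)) (c (m (nat_lit 0x16e87c)) e))) (c (c (m (nat_lit 0x573cf6))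
  (c (p (nat_lit 0x3192a8)) e)) (c (c (p (nat_lit 0x1081548)) e) e))) (c (c (c (p (nat_lit 0x8bf1730)) (c (m
  (nat_lit 0x65db58)) e)) (c (c (m (nat_lit 0x1e5784)) e) e)) (c (c (c (m (nat_lit 0x113a270)) e) e) e))) (c
  (c (c (c (p (nat_lit 0x398a78)) (c (p (nat_lit 0x9d3c32)) e)) (c (c (m (nat_lit 0x9faff2)) e) e)) (c (c (c
  (m (nat_lit 0x1e5766)) e) e) e)) e)) (c (c (c (c (c (m (nat_lit 0xcb1a1a)) (c (m (nat_lit 0x3aaa90)) e)) (c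
  (c (p (nat_lit 0x2e5468)) e) e)) (c (c (c (m (nat_lit 0x65db70)) e) e) e)) e) e)) (c (c (c (c (c (c (m
  (nat_lit 0x942360)) (c (m (nat_lit 0xc8ba8e)) e)) (c (c (p (nat_lit 0x5e6c5c)) e) e)) (c (c (c (m (nat_lit
  0x113a276)) e) e) e)) e) e) e))) (c (c (c (c (c (c (c (m (nat_lit 0x1c9f13a)) (c (p (nat_lit 0xe8aade)) (c
  (p (nat_lit 0xa68d6e)) e))) (c (c (m (nat_lit 0x1623a26)) (c (p (nat_lit 0x2b316a)) e)) (c (c (m (nat_lit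
  0x11343c)) e) e))) (c (c (c (m (nat_lit 0x3312732)) (c (p (nat_lit 0x3c2748)) e)) (c (c (m (nat_lit
  0x2ad4ac)) e) e)) (c (c (c (p (nat_lit 0xac44)) e) e) e))) (c (c (c (c (m (nat_lit 0x1623a26)) (c (m
  (nat_lit 0x5ff3d6)) e)) (c (c (p (nat_lit 0x137cb74)) e) e)) (c (c (c (m (nat_lit 0x13cd46)) e) e) e)) (c
  (c (c (c (m (nat_lit 0x113460)) e) e) e) e))) (c (c (c (c (c (p (nat_lit 0xe8aa90)) (c (m (nat_lit
  0x1d1000)) e)) (c (c (m (nat_lit 0x5ff3dc)) e) e)) (c (c (c (m (nat_lit 0xe4d23c)) e) e) e)) (c (c (c (c (p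
  (nat_lit 0x2b316a)) e) e) e) e)) (c (c (c (c (c (p (nat_lit 0xa68d68)) e) e) e) e) e))) (c (c (c (c (c (c
  (m (nat_lit 0x331272c)) (c (m (nat_lit 0xe4d230)) e)) (c (c (m (nat_lit 0x13cd4c)) e) e)) (c (c (c (m
  (nat_lit 0x3826d40)) e) e) e)) (c (c (c (c (m (nat_lit 0x2ad4a6)) e) e) e) e)) (c (c (c (c (c (p (nat_lit
  0x3c2742)) e) e) e) e) e)) (c (c (c (c (c (c (p (nat_lit 0xac3e)) e) e) e) e) e) e))) (c (c (c (c (c (c (c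
  (p (nat_lit 0x4bf2b02)) (c (m (nat_lit 0x7fa34c)) e)) (c (c (p (nat_lit 0xcb908e)) e) e)) (c (c (c (p
  (nat_lit 0x3313d5e)) e) e) e)) (c (c (c (c (p (nat_lit 0xcb9088)) e) e) e) e)) (c (c (c (c (c (m (nat_lit
  0x7fa352)) e) e) e) e) e)) (c (c (c (c (c (c (p (nat_lit 0x3313d5e)) e) e) e) e) e) e)) (c (c (c (c (c (c
  (c (m (nat_lit 0x5a990f6)) e) e) e) e) e) e) e))))) (c (c (c (c (c (c (c (c (p (nat_lit 0x3a94ef2)) (c (m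
  (nat_lit 0x2ee14d6)) (c (m (nat_lit 0x14a966)) e))) (c (c (m (nat_lit 0x29bb486)) (c (p (nat_lit
  0x1dff664)) e)) (c (c (p (nat_lit 0x102bdc0)) e) e))) (c (c (c (p (nat_lit 0x23a141c)) (c (p (nat_lit
  0x15373e)) e)) (c (c (p (nat_lit 0x15b99ac)) e) e)) (c (c (c (m (nat_lit 0x1c9d1c0)) e) e) e))) (c (c (c (c
  (p (nat_lit 0x168ce76)) (c (p (nat_lit 0xa75302)) (c (p (nat_lit 0xcd49e2)) e))) (c (c (p (nat_lit
  0x76c878)) (c (m (nat_lit 0x329d48)) e)) (c (c (p (nat_lit 0x1307118)) e) e))) (c (c (c (m (nat_lit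
  0x17293b6)) (c (m (nat_lit 0x4336c8)) e)) (c (c (p (nat_lit 0x6a5f78)) e) e)) (c (c (c (p (nat_lit
  0x5e8fc)) e) e) e))) (c (c (c (c (p (nat_lit 0x1b27756)) (c (m (nat_lit 0xdf94e2)) e)) (c (c (m (nat_lit
  0x9d1e8c)) e) e)) (c (c (c (m (nat_lit 0xa1265c)) e) e) e)) e))) (c (c (c (c (c (p (nat_lit 0xc291f0)) (c
  (m (nat_lit 0xb0755e)) (c (p (nat_lit 0x829a40)) e))) (c (c (m (nat_lit 0xa8fa56)) (c (m (nat_lit
  0x16f5a1a)) e)) (c (c (p (nat_lit 0x10897d4)) e) e))) (c (c (c (m (nat_lit 0x12827a)) (c (p (nat_lit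
  0x326b7a)) e)) (c (c (m (nat_lit 0xbb6a1c)) e) e)) (c (c (c (m (nat_lit 0x7ca52c)) e) e) e))) (c (c (c (c
  (p (nat_lit 0x5fd02a)) (c (m (nat_lit 0x15d470)) e)) (c (c (p (nat_lit 0x283368)) e) e)) (c (c (c (m
  (nat_lit 0x38d840)) e) e) e)) e)) (c (c (c (c (c (m (nat_lit 0x29c3d0)) (c (m (nat_lit 0x7dc3a)) e)) (c (c
  (p (nat_lit 0x510054)) e) e)) (c (c (c (m (nat_lit 0x42b250)) e) e) e)) e) e))) (c (c (c (c (c (c (m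
  (nat_lit 0x2fe134)) (c (m (nat_lit 0x21ade14)) (c (p (nat_lit 0xca89ea)) e))) (c (c (p (nat_lit 0x8b9cfe))
  (c (p (nat_lit 0x125322)) e)) (c (c (p (nat_lit 0x7bfcb4)) e) e))) (c (c (c (m (nat_lit 0xbf6be6)) (c (p
  (nat_lit 0x32dbbe)) e)) (c (c (p (nat_lit 0x26ad50)) e) e)) (c (c (c (p (nat_lit 0x9d0a58)) e) e) e))) (c
  (c (c (c (m (nat_lit 0x14e0296)) (c (p (nat_lit 0xb318dc)) e)) (c (c (m (nat_lit 0x9e0310)) e) e)) (c (c (c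
  (p (nat_lit 0xc8e1f4)) e) e) e)) e)) (c (c (c (c (c (p (nat_lit 0x87360c)) (c (m (nat_lit 0x30768c)) e)) (c
  (c (p (nat_lit 0x5b1778)) e) e)) (c (c (c (m (nat_lit 0x773b02)) e) e) e)) e) e)) (c (c (c (c (c (c (m
  (nat_lit 0x32db0a)) (c (p (nat_lit 0xe0fe08)) e)) (c (c (p (nat_lit 0x381b70)) e) e)) (c (c (c (m (nat_lit
  0x9180f6)) e) e) e)) e) e) e))) (c (c (c (c (c (c (c (m (nat_lit 0x2d3d512)) (c (p (nat_lit 0x1109e0e)) (c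
  (p (nat_lit 0x2aae30)) e))) (c (c (p (nat_lit 0x197398e)) (c (p (nat_lit 0x5cacc0)) e)) (c (c (m (nat_lit
  0xcca590)) e) e))) (c (c (c (p (nat_lit 0x14e3080)) (c (p (nat_lit 0x4ceada)) e)) (c (c (p (nat_lit
  0xcbabb8)) e) e)) (c (c (c (p (nat_lit 0x1e1cd4)) e) e) e))) (c (c (c (c (m (nat_lit 0x2f7dc02)) (c (p
  (nat_lit 0x9e5f6e)) e)) (c (c (p (nat_lit 0xf73af4)) e) e)) (c (c (c (p (nat_lit 0x27dcc8)) e) e) e)) (c (c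
  (c (c (m (nat_lit 0xa4433c)) e) e) e) e))) (c (c (c (c (c (m (nat_lit 0x43045f2)) (c (p (nat_lit 0x97425c))
  e)) (c (c (p (nat_lit 0xadcfca)) e) e)) (c (c (c (p (nat_lit 0x1e1314)) e) e) e)) (c (c (c (c (m (nat_lit
  0x352752)) e) e) e) e)) (c (c (c (c (c (p (nat_lit 0x37d9a)) e) e) e) e) e))) (c (c (c (c (c (c (m (nat_lit
  0x472a1e4)) (c (p (nat_lit 0xfdce6c)) e)) (c (c (p (nat_lit 0x879ac8)) e) e)) (c (c (c (p (nat_lit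
  0x192bb2)) e) e) e)) (c (c (c (c (m (nat_lit 0xa47738)) e) e) e) e)) (c (c (c (c (c (p (nat_lit 0x9f396))
  e) e) e) e) e)) (c (c (c (c (c (c (p (nat_lit 0x85f1ee)) e) e) e) e) e) e))) (c (c (c (c (c (c (c (m
  (nat_lit 0x36856bc)) (c (m (nat_lit 0x16c5e34)) e)) (c (c (m (nat_lit 0x16561da)) e) e)) (c (c (c (m
  (nat_lit 0x11d4e66)) e) e) e)) (c (c (c (c (p (nat_lit 0xe6104e)) e) e) e) e)) (c (c (c (c (c (p (nat_lit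
  0x20ad19a)) e) e) e) e) e)) (c (c (c (c (c (c (p (nat_lit 0xc7410c)) e) e) e) e) e) e)) (c (c (c (c (c (c
  (c (p (nat_lit 0x4e466bc)) e) e) e) e) e) e) e)))) (c (c (c (c (c (c (c (c (m (nat_lit 0x56a0ee8)) (c (p
  (nat_lit 0x191c63a)) (c (p (nat_lit 0x54bca)) e))) (c (c (p (nat_lit 0x2bbb718)) (c (m (nat_lit 0x8066e2))
  e)) (c (c (m (nat_lit 0x3dcd88)) e) e))) (c (c (c (p (nat_lit 0xc749a6)) (c (m (nat_lit 0x1e0a14)) e)) (c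
  (c (m (nat_lit 0x5dfb34)) e) e)) (c (c (c (p (nat_lit 0xde198)) e) e) e))) (c (c (c (c (m (nat_lit
  0x223bcc6)) (c (m (nat_lit 0xc655e)) e)) (c (c (m (nat_lit 0x4a30e8)) e) e)) (c (c (c (p (nat_lit
  0x10093a4)) e) e) e)) (c (c (c (c (p (nat_lit 0xe25252)) e) e) e) e))) (c (c (c (c (c (p (nat_lit
  0x1c8a1ee)) (c (m (nat_lit 0x19bfa8)) e)) (c (c (m (nat_lit 0xf3f960)) e) e)) (c (c (c (m (nat_lit
  0x15e748)) e) e) e)) (c (c (c (c (p (nat_lit 0x219384)) e) e) e) e)) (c (c (c (c (c (m (nat_lit 0x4ddbc4))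
  e) e) e) e) e))) (c (c (c (c (c (c (p (nat_lit 0x2a0ba36)) (c (m (nat_lit 0x8d8a96)) e)) (c (c (m (nat_lit
  0x115a9ac)) e) e)) (c (c (c (p (nat_lit 0x71840a)) e) e) e)) (c (c (c (c (p (nat_lit 0x82c21e)) e) e) e)
  e)) (c (c (c (c (c (m (nat_lit 0x2b3860)) e) e) e) e) e)) (c (c (c (c (c (c (m (nat_lit 0xd4560e)) e) e) e)
  e) e) e))) (c (c (c (c (c (c (c (p (nat_lit 0x15e643c)) (c (m (nat_lit 0x3392d0)) e)) (c (c (m (nat_lit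
  0xa37580)) e) e)) (c (c (c (m (nat_lit 0x82cb18)) e) e) e)) (c (c (c (c (p (nat_lit 0x10e8cbe)) e) e) e)
  e)) (c (c (c (c (c (p (nat_lit 0x1d779c2)) e) e) e) e) e)) (c (c (c (c (c (c (p (nat_lit 0xd7014e)) e) e)
  e) e) e) e)) (c (c (c (c (c (c (c (m (nat_lit 0x1a6c68e)) e) e) e) e) e) e) e))) (c (c (c (c (c (c (c (c (p
  (nat_lit 0x382d23e)) (c (m (nat_lit 0x1b9822)) e)) (c (c (m (nat_lit 0x90dbd8)) e) e)) (c (c (c (m (nat_lit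
  0x931f0e)) e) e) e)) (c (c (c (c (m (nat_lit 0x4d67ae)) e) e) e) e)) (c (c (c (c (c (m (nat_lit 0x82ea1a))
  e) e) e) e) e)) (c (c (c (c (c (c (m (nat_lit 0x618a8)) e) e) e) e) e) e)) (c (c (c (c (c (c (c (m (nat_lit
  0xf6b724)) e) e) e) e) e) e) e)) (c (c (c (c (c (c (c (c (m (nat_lit 0x9ab9d8)) e) e) e) e) e) e) e) e)))))
  (c (c (c (c (c (c (c (c (c (p (nat_lit 0x3a94e62)) (c (p (nat_lit 0xc292da)) (c (m (nat_lit 0x29c466)) e)))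
  (c (c (p (nat_lit 0x168cf5a)) (c (p (nat_lit 0x5fd006)) e)) (c (c (p (nat_lit 0x1b276d8)) e) e))) (c (c (c
  (m (nat_lit 0x2fe056)) (c (p (nat_lit 0x8735d0)) e)) (c (c (m (nat_lit 0x14e0314)) e) e)) (c (c (c (m
  (nat_lit 0x32db88)) e) e) e))) (c (c (c (c (m (nat_lit 0x29bb3ea)) (c (m (nat_lit 0xa8f9de)) (c (p (nat_lit
  0x51006c)) e))) (c (c (p (nat_lit 0x76c7b2)) (c (p (nat_lit 0x283368)) e)) (c (c (m (nat_lit 0x9d1e08)) e)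
  e))) (c (c (c (p (nat_lit 0x8b9c68)) (c (p (nat_lit 0x5b179c)) e)) (c (c (m (nat_lit 0x9e02f8)) e) e)) (c
  (c (c (p (nat_lit 0x381bac)) e) e) e))) (c (c (c (c (p (nat_lit 0x102bd9c)) (c (p (nat_lit 0x10897ce)) e))
  (c (c (p (nat_lit 0x1307190)) e) e)) (c (c (c (p (nat_lit 0x7bfd2c)) e) e) e)) e))) (c (c (c (c (c (m
  (nat_lit 0x2ee15d2)) (c (m (nat_lit 0xb07516)) (c (m (nat_lit 0x7dc16)) e))) (c (c (p (nat_lit 0xa75338))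
  (c (m (nat_lit 0x15d47c)) e)) (c (c (m (nat_lit 0xdf950c)) e) e))) (c (c (c (m (nat_lit 0x21addfc)) (c (m
  (nat_lit 0x307692)) e)) (c (c (p (nat_lit 0xb318c4)) e) e)) (c (c (c (p (nat_lit 0xe0fe2c)) e) e) e))) (c
  (c (c (c (p (nat_lit 0x1dff6a0)) (c (m (nat_lit 0x16f5a3e)) e)) (c (c (m (nat_lit 0x329d54)) e) e)) (c (c
  (c (p (nat_lit 0x12531c)) e) e) e)) e)) (c (c (c (c (c (m (nat_lit 0x14a918)) (c (p (nat_lit 0x829a3a)) e))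
  (c (c (p (nat_lit 0xcd49b8)) e) e)) (c (c (c (p (nat_lit 0xca89fc)) e) e) e)) e) e))) (c (c (c (c (c (c (p
  (nat_lit 0x23a1452)) (c (m (nat_lit 0x128232)) (c (m (nat_lit 0x42b244)) e))) (c (c (m (nat_lit 0x1729488))
  (c (m (nat_lit 0x38d82e)) e)) (c (c (m (nat_lit 0xa12620)) e) e))) (c (c (c (m (nat_lit 0xbf6c2e)) (c (m
  (nat_lit 0x773afc)) e)) (c (c (p (nat_lit 0xc8e200)) e) e)) (c (c (c (m (nat_lit 0x9180d8)) e) e) e))) (c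
  (c (c (c (p (nat_lit 0x15b9a00)) (c (m (nat_lit 0xbb6a10)) e)) (c (c (p (nat_lit 0x6a5f6c)) e) e)) (c (c (c
  (p (nat_lit 0x26ad44)) e) e) e)) e)) (c (c (c (c (c (p (nat_lit 0x153756)) (c (p (nat_lit 0x326b62)) e)) (c
  (c (m (nat_lit 0x4336bc)) e) e)) (c (c (c (p (nat_lit 0x32dbdc)) e) e) e)) e) e)) (c (c (c (c (c (c (m
  (nat_lit 0x1c9d19c)) (c (m (nat_lit 0x7ca520)) e)) (c (c (p (nat_lit 0x5e914)) e) e)) (c (c (c (p (nat_lit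
  0x9d0a70)) e) e) e)) e) e) e))) (c (c (c (c (c (c (c (m (nat_lit 0x2d42fc6)) (c (m (nat_lit 0x431bf50)) (c
  (p (nat_lit 0x37da0)) e))) (c (c (m (nat_lit 0x2f580d8)) (c (m (nat_lit 0x35273a)) e)) (c (c (m (nat_lit
  0xa44354)) e) e))) (c (c (c (m (nat_lit 0x470fa78)) (c (p (nat_lit 0x9f384)) e)) (c (c (m (nat_lit
  0xa47714)) e) e)) (c (c (c (p (nat_lit 0x85f1f4)) e) e) e))) (c (c (c (c (p (nat_lit 0x1a1b436)) (c (p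
  (nat_lit 0xf96210)) e)) (c (c (p (nat_lit 0xba70aa)) e) e)) (c (c (c (p (nat_lit 0x9b1408)) e) e) e)) (c (c
  (c (c (m (nat_lit 0xcca59c)) e) e) e) e))) (c (c (c (c (c (p (nat_lit 0x1109544)) (c (p (nat_lit 0x974652))
  e)) (c (c (p (nat_lit 0x9e35b6)) e) e)) (c (c (c (p (nat_lit 0xfdad3c)) e) e) e)) (c (c (c (c (p (nat_lit
  0x5cacd2)) e) e) e) e)) (c (c (c (c (c (p (nat_lit 0x2aae42)) e) e) e) e) e))) (c (c (c (c (c (c (p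
  (nat_lit 0x1442988)) (c (m (nat_lit 0x2b4a48)) e)) (c (c (p (nat_lit 0x60a3e0)) e) e)) (c (c (c (p (nat_lit
  0x2d366)) e) e) e)) (c (c (c (c (p (nat_lit 0xcbaba0)) e) e) e) e)) (c (c (c (c (c (p (nat_lit 0x4ceae0))
  e) e) e) e) e)) (c (c (c (c (c (c (p (nat_lit 0x1e1ce0)) e) e) e) e) e) e))) (c (c (c (c (c (c (c (m
  (nat_lit 0x37592e2)) (c (p (nat_lit 0x1cff524)) e)) (c (c (p (nat_lit 0x10ed890)) e) e)) (c (c (c (p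
  (nat_lit 0xb80956)) e) e) e)) (c (c (c (c (m (nat_lit 0x122a7b0)) e) e) e) e)) (c (c (c (c (c (m (nat_lit
  0x16c46e8)) e) e) e) e) e)) (c (c (c (c (c (c (m (nat_lit 0x15b2d04)) e) e) e) e) e) e)) (c (c (c (c (c (c
  (c (p (nat_lit 0x4b9a236)) e) e) e) e) e) e) e)))) (c (c (c (c (c (c (c (c (p (nat_lit 0x1b82866)) (c (m
  (nat_lit 0x210dcc2)) (c (m (nat_lit 0x4bc510)) e))) (c (c (p (nat_lit 0x10e00d2)) (c (m (nat_lit 0xf94d4))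
  e)) (c (c (m (nat_lit 0x5f5fd4)) e) e))) (c (c (c (m (nat_lit 0xb8cf1a)) (c (p (nat_lit 0x1640e2)) e)) (c
  (c (p (nat_lit 0x76c1d0)) e) e)) (c (c (c (p (nat_lit 0x59af6c)) e) e) e))) (c (c (c (c (p (nat_lit
  0x10e0072)) (c (m (nat_lit 0xfbe8de)) e)) (c (c (m (nat_lit 0x94c716)) e) e)) (c (c (c (m (nat_lit
  0x77e20)) e) e) e)) (c (c (c (c (m (nat_lit 0x5f5fd4)) e) e) e) e))) (c (c (c (c (c (m (nat_lit 0x210dc5c))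
  (c (p (nat_lit 0x130d9e8)) e)) (c (c (m (nat_lit 0xfbe8cc)) e) e)) (c (c (c (p (nat_lit 0x5ecbcc)) e) e)
  e)) (c (c (c (c (m (nat_lit 0xf94c8)) e) e) e) e)) (c (c (c (c (c (m (nat_lit 0x4bc53a)) e) e) e) e) e)))
  (c (c (c (c (c (c (m (nat_lit 0xb8cf08)) (c (p (nat_lit 0x5ecbfc)) e)) (c (c (m (nat_lit 0x77e32)) e) e))
  (c (c (c (p (nat_lit 0x1ae7a60)) e) e) e)) (c (c (c (c (p (nat_lit 0x76c1be)) e) e) e) e)) (c (c (c (c (c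
  (p (nat_lit 0x1640dc)) e) e) e) e) e)) (c (c (c (c (c (c (p (nat_lit 0x59af60)) e) e) e) e) e) e))) (c (c
  (c (c (c (c (c (p (nat_lit 0x73b6a86)) (c (p (nat_lit 0xb4828)) e)) (c (c (m (nat_lit 0x11b5ba)) e) e)) (c
  (c (c (m (nat_lit 0xf691f2)) e) e) e)) (c (c (c (c (m (nat_lit 0x45b3d6)) e) e) e) e)) (c (c (c (c (c (p
  (nat_lit 0x744a8)) e) e) e) e) e)) (c (c (c (c (c (c (m (nat_lit 0xa4bc86)) e) e) e) e) e) e)) (c (c (c (c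
  (c (c (c (m (nat_lit 0x204ce6a)) e) e) e) e) e) e) e))) (c (c (c (c (c (c (c (c (m (nat_lit 0x274103a)) (c
  (p (nat_lit 0x14f74fe)) e)) (c (c (p (nat_lit 0xc11d72)) e) e)) (c (c (c (p (nat_lit 0xb5ca04)) e) e) e))
  (c (c (c (c (p (nat_lit 0x1937dc)) e) e) e) e)) (c (c (c (c (c (p (nat_lit 0x1d8b5a)) e) e) e) e) e)) (c (c
  (c (c (c (c (m (nat_lit 0x8d7d4c)) e) e) e) e) e) e)) (c (c (c (c (c (c (c (m (nat_lit 0x1d3a02a)) e) e) e)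
  e) e) e) e)) (c (c (c (c (c (c (c (c (p (nat_lit 0x6fee1a)) e) e) e) e) e) e) e) e)))) (c (c (c (c (c (c (c
  (c (c (m (nat_lit 0x56a0f3c)) (c (p (nat_lit 0x1c8a266)) (c (m (nat_lit 0x4ddbb8)) e))) (c (c (m (nat_lit
  0x223bccc)) (c (p (nat_lit 0x219384)) e)) (c (c (p (nat_lit 0xe25270)) e) e))) (c (c (c (p (nat_lit
  0x2a0ba0c)) (c (m (nat_lit 0x2b3848)) e)) (c (c (p (nat_lit 0x82c230)) e) e)) (c (c (c (m (nat_lit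
  0xd455fc)) e) e) e))) (c (c (c (c (p (nat_lit 0x2bbb766)) (c (m (nat_lit 0xf3f9cc)) e)) (c (c (m (nat_lit
  0x4a3124)) e) e)) (c (c (c (m (nat_lit 0x115a9dc)) e) e) e)) (c (c (c (c (m (nat_lit 0x3dcda6)) e) e) e)
  e))) (c (c (c (c (c (p (nat_lit 0x191c66a)) (c (m (nat_lit 0x19bfc0)) e)) (c (c (m (nat_lit 0xc6594)) e)
  e)) (c (c (c (m (nat_lit 0x8d8ab4)) e) e) e)) (c (c (c (c (m (nat_lit 0x8066f4)) e) e) e) e)) (c (c (c (c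
  (c (p (nat_lit 0x54bd6)) e) e) e) e) e))) (c (c (c (c (c (c (p (nat_lit 0xc749a0)) (c (m (nat_lit
  0x15e766)) e)) (c (c (p (nat_lit 0x1009398)) e) e)) (c (c (c (p (nat_lit 0x718410)) e) e) e)) (c (c (c (c
  (m (nat_lit 0x5dfb22)) e) e) e) e)) (c (c (c (c (c (m (nat_lit 0x1e0a1a)) e) e) e) e) e)) (c (c (c (c (c (c
  (p (nat_lit 0xde16e)) e) e) e) e) e) e))) (c (c (c (c (c (c (c (p (nat_lit 0x1750e30)) (c (p (nat_lit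
  0x20e4a18)) e)) (c (c (p (nat_lit 0xec59fe)) e) e)) (c (c (c (p (nat_lit 0xeada04)) e) e) e)) (c (c (c (c
  (m (nat_lit 0xd9a922)) e) e) e) e)) (c (c (c (c (c (m (nat_lit 0x343fce)) e) e) e) e) e)) (c (c (c (c (c (c
  (m (nat_lit 0x62c244)) e) e) e) e) e) e)) (c (c (c (c (c (c (c (m (nat_lit 0x14ee744)) e) e) e) e) e) e)
  e))) (c (c (c (c (c (c (c (c (m (nat_lit 0x2741088)) (c (p (nat_lit 0x1d8b36)) e)) (c (c (p (nat_lit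
  0x1937f4)) e) e)) (c (c (c (m (nat_lit 0x8d7d28)) e) e) e)) (c (c (c (c (p (nat_lit 0xc11db4)) e) e) e) e))
  (c (c (c (c (c (p (nat_lit 0x14f7504)) e) e) e) e) e)) (c (c (c (c (c (c (p (nat_lit 0xb5ca34)) e) e) e) e)
  e) e)) (c (c (c (c (c (c (c (m (nat_lit 0x2602a3a)) e) e) e) e) e) e) e)) (c (c (c (c (c (c (c (c (p
  (nat_lit 0x1717782)) e) e) e) e) e) e) e) e))) (c (c (c (c (c (c (c (c (c (p (nat_lit 0x382d298)) (c (m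
  (nat_lit 0x82ea50)) e)) (c (c (m (nat_lit 0x4d67c0)) e) e)) (c (c (c (m (nat_lit 0x618b4)) e) e) e)) (c (c
  (c (c (m (nat_lit 0x90dbf6)) e) e) e) e)) (c (c (c (c (c (m (nat_lit 0x1b981c)) e) e) e) e) e)) (c (c (c (c
  (c (c (m (nat_lit 0x931f2c)) e) e) e) e) e) e)) (c (c (c (c (c (c (c (m (nat_lit 0x106b97e)) e) e) e) e) e)
  e) e)) (c (c (c (c (c (c (c (c (p (nat_lit 0x6fee26)) e) e) e) e) e) e) e) e)) (c (c (c (c (c (c (c (c (c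
  (m (nat_lit 0x9ab9f0)) e) e) e) e) e) e) e) e) e)))))

noncomputable def gt_0_5_7 : Tr :=
  (c (c (c (c (c (c (c (c (c (m (nat_lit 0x5bf84e)) (c (m (nat_lit 0x45c4908)) (c (p (nat_lit 0x1eea4c8))
  e))) (c (c (m (nat_lit 0x22e1e7e)) (c (p (nat_lit 0x4e77d0)) e)) (c (c (m (nat_lit 0xb1fa68)) e) e))) (c (c
  (c (m (nat_lit 0x2c0162a)) (c (p (nat_lit 0x1085b08)) e)) (c (c (p (nat_lit 0x4e7740)) e) e)) (c (c (c (p
  (nat_lit 0x1eea438)) e) e) e))) (c (c (c (c (m (nat_lit 0x27aa2b0)) (c (p (nat_lit 0x38fb19a)) (c (m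
  (nat_lit 0x1168830)) e))) (c (c (p (nat_lit 0x2b1b66e)) (c (m (nat_lit 0x13bf6a8)) e)) (c (c (m (nat_lit
  0xb882a0)) e) e))) (c (c (c (p (nat_lit 0x19ce94e)) (c (m (nat_lit 0xf7fb60)) e)) (c (c (m (nat_lit
  0xdb2ce8)) e) e)) (c (c (c (p (nat_lit 0x1bb118)) e) e) e))) (c (c (c (c (p (nat_lit 0x114fbac)) (c (m
  (nat_lit 0x691e00)) (c (p (nat_lit 0x836580)) e))) (c (c (m (nat_lit 0x1941b40)) (c (p (nat_lit 0xab9db0))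
  e)) (c (c (p (nat_lit 0x72cdc8)) e) e))) (c (c (c (m (nat_lit 0x1fac5b0)) (c (p (nat_lit 0x84e0b8)) e)) (c
  (c (p (nat_lit 0x88ef30)) e) e)) (c (c (c (m (nat_lit 0xd8fe70)) e) e) e))) e))) (c (c (c (c (c (p (nat_lit
  0x230d0d2)) (c (m (nat_lit 0x1267146)) (c (p (nat_lit 0xfdf4b8)) e))) (c (c (m (nat_lit 0x49edfbc)) (c (m
  (nat_lit 0xa5bb98)) e)) (c (c (p (nat_lit 0x3c9f570)) e) e))) (c (c (c (p (nat_lit 0x4f1a6c)) (c (p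
  (nat_lit 0xcafab8)) e)) (c (c (m (nat_lit 0xa5bb98)) e) e)) (c (c (c (p (nat_lit 0xfdf488)) e) e) e))) (c
  (c (c (c (m (nat_lit 0x39d380)) (c (m (nat_lit 0x97d358)) (c (p (nat_lit 0x779df0)) e))) (c (c (p (nat_lit
  0x6c0840)) (c (p (nat_lit 0x4dac90)) e)) (c (c (m (nat_lit 0xa08210)) e) e))) (c (c (c (p (nat_lit
  0x4a0700)) (c (p (nat_lit 0x8cb68)) e)) (c (c (m (nat_lit 0x70380)) e) e)) (c (c (c (m (nat_lit 0x886bd8))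
  e) e) e))) e)) (c (c (c (c (c (m (nat_lit 0x11b5e64)) (c (p (nat_lit 0x4c3c68)) (c (m (nat_lit 0xaf67e8))
  e))) (c (c (p (nat_lit 0x257e848)) (c (p (nat_lit 0x95cef8)) e)) (c (c (m (nat_lit 0xf135f0)) e) e))) (c (c
  (c (p (nat_lit 0x4c3c38)) (c (m (nat_lit 0xc7fcf8)) e)) (c (c (p (nat_lit 0x95cef8)) e) e)) (c (c (c (m
  (nat_lit 0xaf67d0)) e) e) e))) e) e))) (c (c (c (c (c (c (m (nat_lit 0x1e9bdae)) (c (p (nat_lit 0x1699584))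
  (c (p (nat_lit 0x1bb148)) e))) (c (c (p (nat_lit 0x24371be)) (c (m (nat_lit 0xdb2c58)) e)) (c (c (m
  (nat_lit 0xb88258)) e) e))) (c (c (c (p (nat_lit 0x3c1ec66)) (c (m (nat_lit 0xf7fb18)) e)) (c (c (m
  (nat_lit 0x13bf648)) e) e)) (c (c (c (m (nat_lit 0x1168830)) e) e) e))) (c (c (c (c (m (nat_lit 0x129c660))
  (c (p (nat_lit 0x100aa78)) (c (m (nat_lit 0x896130)) e))) (c (c (p (nat_lit 0x60e8f8)) (c (p (nat_lit
  0x608b80)) e)) (c (c (m (nat_lit 0x1413348)) e) e))) (c (c (c (p (nat_lit 0x100aa78)) (c (p (nat_lit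
  0x72ca98)) e)) (c (c (p (nat_lit 0x608b80)) e) e)) (c (c (c (m (nat_lit 0x896148)) e) e) e))) e)) (c (c (c
  (c (c (m (nat_lit 0x39d344)) (c (p (nat_lit 0x4a0730)) (c (m (nat_lit 0x886bf0)) e))) (c (c (p (nat_lit
  0x6c0840)) (c (m (nat_lit 0x70398)) e)) (c (c (m (nat_lit 0xa081f8)) e) e))) (c (c (c (m (nat_lit
  0x97d340)) (c (p (nat_lit 0x8cb38)) e)) (c (c (p (nat_lit 0x4dac78)) e) e)) (c (c (c (p (nat_lit 0x779dd8))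
  e) e) e))) e) e)) (c (c (c (c (c (c (p (nat_lit 0x114fbac)) (c (m (nat_lit 0x1fac568)) (c (m (nat_lit
  0xd8fe88)) e))) (c (c (m (nat_lit 0x1941b10)) (c (p (nat_lit 0x88ef00)) e)) (c (c (p (nat_lit 0x72cdb0)) e)
  e))) (c (c (c (m (nat_lit 0x691e90)) (c (p (nat_lit 0x84e0d0)) e)) (c (c (p (nat_lit 0xab9db0)) e) e)) (c
  (c (c (p (nat_lit 0x8365f8)) e) e) e))) e) e) e))) (c (c (c (c (c (c (c (p (nat_lit 0x37ca484)) (c (p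
  (nat_lit 0x2cfe6ec)) (c (p (nat_lit 0x4fb5b8)) e))) (c (c (p (nat_lit 0x2fb82a0)) (c (m (nat_lit 0x24ead8))
  e)) (c (c (p (nat_lit 0x6fb718)) e) e))) (c (c (c (m (nat_lit 0xeef3b6)) (c (m (nat_lit 0x94ee70)) e)) (c
  (c (m (nat_lit 0x6bc6b8)) e) e)) (c (c (c (m (nat_lit 0x19c54c8)) e) e) e))) (c (c (c (c (p (nat_lit
  0x131d27c)) (c (p (nat_lit 0x2972eaa)) (c (m (nat_lit 0x283a10)) e))) (c (c (m (nat_lit 0x89f9c4)) (c (p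
  (nat_lit 0x54c120)) e)) (c (c (p (nat_lit 0x97d9d0)) e) e))) (c (c (c (p (nat_lit 0x92c7ba)) (c (m (nat_lit
  0xe8968)) e)) (c (c (m (nat_lit 0x232d88)) e) e)) (c (c (c (m (nat_lit 0x59c88)) e) e) e))) (c (c (c (c (m
  (nat_lit 0x51b6dc)) (c (p (nat_lit 0x52f080)) e)) (c (c (p (nat_lit 0x280da0)) e) e)) (c (c (c (p (nat_lit
  0x145ec78)) e) e) e)) e))) (c (c (c (c (c (m (nat_lit 0x12b8b0c)) (c (p (nat_lit 0x243d368)) (c (p (nat_lit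
  0x11bd10)) e))) (c (c (m (nat_lit 0x137da92)) (c (p (nat_lit 0xb67348)) e)) (c (c (m (nat_lit 0x985f68)) e)
  e))) (c (c (c (p (nat_lit 0x27ab00)) (c (p (nat_lit 0x813c0)) e)) (c (c (m (nat_lit 0x157140)) e) e)) (c (c
  (c (m (nat_lit 0x1408c8)) e) e) e))) (c (c (c (c (m (nat_lit 0x13bdde8)) (c (m (nat_lit 0x10b750)) e)) (c
  (c (p (nat_lit 0x1b8610)) e) e)) (c (c (c (p (nat_lit 0x150990)) e) e) e)) e)) (c (c (c (c (c (p (nat_lit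
  0x46eb70)) (c (m (nat_lit 0x3a5d80)) e)) (c (c (p (nat_lit 0x963018)) e) e)) (c (c (c (m (nat_lit
  0x129330)) e) e) e)) e) e))) (c (c (c (c (c (c (m (nat_lit 0x10f1a72)) (c (p (nat_lit 0x4c4d00)) (c (m
  (nat_lit 0x589800)) e))) (c (c (p (nat_lit 0xc4353c)) (c (p (nat_lit 0x444750)) e)) (c (c (p (nat_lit
  0x463650)) e) e))) (c (c (c (p (nat_lit 0x4007b86)) (c (p (nat_lit 0x15ee68)) e)) (c (c (p (nat_lit
  0x9bdf30)) e) e)) (c (c (c (p (nat_lit 0x11f9478)) e) e) e))) (c (c (c (c (p (nat_lit 0x133d91c)) (c (m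
  (nat_lit 0x25038)) e)) (c (c (p (nat_lit 0x7fab8)) e) e)) (c (c (c (m (nat_lit 0xd180f8)) e) e) e)) e)) (c
  (c (c (c (c (p (nat_lit 0xba5f7c)) (c (p (nat_lit 0x51d200)) e)) (c (c (p (nat_lit 0x695370)) e) e)) (c (c
  (c (m (nat_lit 0x800970)) e) e) e)) e) e)) (c (c (c (c (c (c (m (nat_lit 0x3990324)) (c (p (nat_lit
  0xb44ed8)) e)) (c (c (p (nat_lit 0x210bd30)) e) e)) (c (c (c (m (nat_lit 0xbebb58)) e) e) e)) e) e) e))) (c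
  (c (c (c (c (c (c (p (nat_lit 0x8b0f5b4)) (c (m (nat_lit 0x3b5257c)) (c (p (nat_lit 0xd4a0a8)) e))) (c (c
  (m (nat_lit 0x2fcffee)) (c (p (nat_lit 0x6b7d20)) e)) (c (c (p (nat_lit 0x5ad140)) e) e))) (c (c (c (m
  (nat_lit 0x4fea3aa)) (c (p (nat_lit 0x11e710)) e)) (c (c (m (nat_lit 0x278bf8)) e) e)) (c (c (c (m (nat_lit
  0x301500)) e) e) e))) (c (c (c (c (m (nat_lit 0x2866656)) (c (m (nat_lit 0x157ca4)) e)) (c (c (p (nat_lit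
  0xceca6)) e) e)) (c (c (c (m (nat_lit 0x1a2a028)) e) e) e)) (c (c (c (c (m (nat_lit 0xb37624)) e) e) e)
  e))) (c (c (c (c (c (p (nat_lit 0x16c9c20)) (c (m (nat_lit 0x19accb2)) e)) (c (c (p (nat_lit 0x3f9fde)) e)
  e)) (c (c (c (m (nat_lit 0x65217c)) e) e) e)) (c (c (c (c (p (nat_lit 0xfcd9b0)) e) e) e) e)) (c (c (c (c
  (c (m (nat_lit 0x357cf0)) e) e) e) e) e))) (c (c (c (c (c (c (p (nat_lit 0x3b19a4a)) (c (m (nat_lit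
  0x23deb2c)) e)) (c (c (m (nat_lit 0x1c382fa)) e) e)) (c (c (c (m (nat_lit 0x95b56c)) e) e) e)) (c (c (c (c
  (m (nat_lit 0xbf2638)) e) e) e) e)) (c (c (c (c (c (m (nat_lit 0xdb7cec)) e) e) e) e) e)) (c (c (c (c (c (c
  (p (nat_lit 0x1439598)) e) e) e) e) e) e))) (c (c (c (c (c (c (c (m (nat_lit 0x6f4bdda)) (c (p (nat_lit
  0x807b58)) e)) (c (c (p (nat_lit 0xaedf5c)) e) e)) (c (c (c (p (nat_lit 0x6719e92)) e) e) e)) (c (c (c (c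
  (p (nat_lit 0x2051fa6)) e) e) e) e)) (c (c (c (c (c (m (nat_lit 0x91a112)) e) e) e) e) e)) (c (c (c (c (c
  (c (m (nat_lit 0x23c3a2a)) e) e) e) e) e) e)) (c (c (c (c (c (c (c (m (nat_lit 0x13e06a8)) e) e) e) e) e)
  e) e))))) (c (c (c (c (c (c (c (c (p (nat_lit 0x4035a4a)) (c (p (nat_lit 0x33494c4)) (c (m (nat_lit
  0x202c710)) e))) (c (c (m (nat_lit 0x14bffce)) (c (p (nat_lit 0xe4c7f8)) e)) (c (c (p (nat_lit 0x2bb3a98))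
  e) e))) (c (c (c (p (nat_lit 0x9d48c8)) (c (m (nat_lit 0xab5460)) e)) (c (c (p (nat_lit 0xe4c7e0)) e) e))
  (c (c (c (m (nat_lit 0x202c740)) e) e) e))) (c (c (c (c (m (nat_lit 0xb4df92)) (c (m (nat_lit 0x86c90a)) (c
  (p (nat_lit 0xeb5ab0)) e))) (c (c (p (nat_lit 0x4a23032)) (c (m (nat_lit 0x2f5110)) e)) (c (c (m (nat_lit
  0x2ab49c0)) e) e))) (c (c (c (m (nat_lit 0x93c40e)) (c (p (nat_lit 0x90e0a0)) e)) (c (c (m (nat_lit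
  0x27ed30)) e) e)) (c (c (c (m (nat_lit 0x976f20)) e) e) e))) (c (c (c (c (p (nat_lit 0x3ae6e40)) (c (m
  (nat_lit 0xc78cc0)) e)) (c (c (m (nat_lit 0xf03d68)) e) e)) (c (c (c (m (nat_lit 0xb66ef8)) e) e) e)) e)))
  (c (c (c (c (c (p (nat_lit 0x3b77ba8)) (c (m (nat_lit 0x2855aba)) (c (p (nat_lit 0x106fd40)) e))) (c (c (p
  (nat_lit 0x3ca6d4)) (c (m (nat_lit 0x7959a8)) e)) (c (c (m (nat_lit 0x116d408)) e) e))) (c (c (c (m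
  (nat_lit 0x3fae60c)) (c (p (nat_lit 0xa3cfe0)) e)) (c (c (m (nat_lit 0x7959c0)) e) e)) (c (c (c (p (nat_lit
  0x106fd28)) e) e) e))) (c (c (c (c (p (nat_lit 0x1290330)) (c (m (nat_lit 0x6c29d0)) e)) (c (c (p (nat_lit
  0x22e708)) e) e)) (c (c (c (p (nat_lit 0x183360)) e) e) e)) e)) (c (c (c (c (c (p (nat_lit 0xb60388)) (c (p
  (nat_lit 0x220068)) e)) (c (c (m (nat_lit 0x1196e20)) e) e)) (c (c (c (p (nat_lit 0x220068)) e) e) e)) e)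
  e))) (c (c (c (c (c (c (m (nat_lit 0x241a9ee)) (c (m (nat_lit 0x6070d4)) (c (m (nat_lit 0x976f50)) e))) (c
  (c (p (nat_lit 0x51074b2)) (c (m (nat_lit 0x27ed30)) e)) (c (c (m (nat_lit 0x2ab49d8)) e) e))) (c (c (c (m
  (nat_lit 0xb903d6)) (c (p (nat_lit 0x90e088)) e)) (c (c (m (nat_lit 0x2f5110)) e) e)) (c (c (c (p (nat_lit
  0xeb5a98)) e) e) e))) (c (c (c (c (m (nat_lit 0x987528)) (c (p (nat_lit 0x7c88e8)) e)) (c (c (m (nat_lit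
  0x225138)) e) e)) (c (c (c (p (nat_lit 0x7c88d0)) e) e) e)) e)) (c (c (c (c (c (p (nat_lit 0x1290318)) (c
  (p (nat_lit 0x183360)) e)) (c (c (p (nat_lit 0x22e708)) e) e)) (c (c (c (m (nat_lit 0x6c29e8)) e) e) e)) e)
  e)) (c (c (c (c (c (c (p (nat_lit 0x3ae6df8)) (c (m (nat_lit 0xb66ec8)) e)) (c (c (m (nat_lit 0xf03d50)) e)
  e)) (c (c (c (m (nat_lit 0xc78cc0)) e) e) e)) e) e) e))) (c (c (c (c (c (c (c (m (nat_lit 0x55304e2)) (c (m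
  (nat_lit 0x1083fd8)) (c (m (nat_lit 0x912930)) e))) (c (c (p (nat_lit 0x1688970)) (c (m (nat_lit 0x2f520))
  e)) (c (c (p (nat_lit 0xa6d8c8)) e) e))) (c (c (c (p (nat_lit 0x5b8cc96)) (c (p (nat_lit 0x1a5b60)) e)) (c
  (c (p (nat_lit 0x9db168)) e) e)) (c (c (c (p (nat_lit 0x629d30)) e) e) e))) (c (c (c (c (m (nat_lit
  0x6aa81a0)) (c (p (nat_lit 0xb1afe)) e)) (c (c (m (nat_lit 0x14019ae)) e) e)) (c (c (c (m (nat_lit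
  0x2ba2c2)) e) e) e)) (c (c (c (c (m (nat_lit 0x47f688)) e) e) e) e))) (c (c (c (c (c (m (nat_lit
  0x773ad5c)) (c (m (nat_lit 0x484da6)) e)) (c (c (p (nat_lit 0x7ab6bc)) e) e)) (c (c (c (p (nat_lit
  0x19db6a4)) e) e) e)) (c (c (c (c (p (nat_lit 0x2caf90)) e) e) e) e)) (c (c (c (c (c (p (nat_lit 0x8ccbe0))
  e) e) e) e) e))) (c (c (c (c (c (c (m (nat_lit 0x31f4226)) (c (m (nat_lit 0x3d7604)) e)) (c (c (m (nat_lit
  0x1e30cde)) e) e)) (c (c (c (m (nat_lit 0x1a4c786)) e) e) e)) (c (c (c (c (p (nat_lit 0x69c9a8)) e) e) e)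
  e)) (c (c (c (c (c (m (nat_lit 0x3e6b08)) e) e) e) e) e)) (c (c (c (c (c (c (m (nat_lit 0x3f1380)) e) e) e)
  e) e) e))) (c (c (c (c (c (c (c (m (nat_lit 0x2c15070)) (c (p (nat_lit 0xf231fc)) e)) (c (c (m (nat_lit
  0xa52d5a)) e) e)) (c (c (c (m (nat_lit 0x2eb8c3a)) e) e) e)) (c (c (c (c (p (nat_lit 0x2543cd6)) e) e) e)
  e)) (c (c (c (c (c (p (nat_lit 0x4d33eec)) e) e) e) e) e)) (c (c (c (c (c (c (p (nat_lit 0x2e82dcc)) e) e)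
  e) e) e) e)) (c (c (c (c (c (c (c (p (nat_lit 0x5a2487c)) e) e) e) e) e) e) e)))) (c (c (c (c (c (c (c (c
  (m (nat_lit 0x50cd8ee)) (c (m (nat_lit 0x2f4234)) (c (m (nat_lit 0x100dd0)) e))) (c (c (m (nat_lit
  0x2a5c2ec)) (c (m (nat_lit 0x50c400)) e)) (c (c (p (nat_lit 0x8985c0)) e) e))) (c (c (c (p (nat_lit
  0xcbd6ba)) (c (m (nat_lit 0x479d00)) e)) (c (c (m (nat_lit 0x50c3e8)) e) e)) (c (c (c (m (nat_lit
  0x100db8)) e) e) e))) (c (c (c (c (m (nat_lit 0x208416)) (c (p (nat_lit 0xb42c28)) e)) (c (c (p (nat_lit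
  0x11d0dc8)) e) e)) (c (c (c (p (nat_lit 0x1093008)) e) e) e)) (c (c (c (c (m (nat_lit 0xe19288)) e) e) e)
  e))) (c (c (c (c (c (m (nat_lit 0x22a3556)) (c (p (nat_lit 0x510000)) e)) (c (c (p (nat_lit 0x555480)) e)
  e)) (c (c (c (p (nat_lit 0x510018)) e) e) e)) (c (c (c (c (m (nat_lit 0x7075e0)) e) e) e) e)) (c (c (c (c
  (c (m (nat_lit 0xd6da18)) e) e) e) e) e))) (c (c (c (c (c (c (p (nat_lit 0xdb618c)) (c (p (nat_lit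
  0x1092ff0)) e)) (c (c (p (nat_lit 0x11d0db0)) e) e)) (c (c (c (p (nat_lit 0xb42c10)) e) e) e)) (c (c (c (c
  (m (nat_lit 0x77c088)) e) e) e) e)) (c (c (c (c (c (m (nat_lit 0x7075f8)) e) e) e) e) e)) (c (c (c (c (c (c
  (m (nat_lit 0xe192b8)) e) e) e) e) e) e))) (c (c (c (c (c (c (c (p (nat_lit 0x358eace)) (c (m (nat_lit
  0x1ff7b8)) e)) (c (c (m (nat_lit 0x13c7718)) e) e)) (c (c (c (m (nat_lit 0x239ece6)) e) e) e)) (c (c (c (c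
  (p (nat_lit 0x4bb0e92)) e) e) e) e)) (c (c (c (c (c (p (nat_lit 0x1642dd6)) e) e) e) e) e)) (c (c (c (c (c
  (c (p (nat_lit 0x165dc20)) e) e) e) e) e) e)) (c (c (c (c (c (c (c (m (nat_lit 0x47d1608)) e) e) e) e) e)
  e) e))) (c (c (c (c (c (c (c (c (p (nat_lit 0x5780e02)) (c (p (nat_lit 0x61c7b8)) e)) (c (c (p (nat_lit
  0x666180)) e) e)) (c (c (c (p (nat_lit 0x61c7b8)) e) e) e)) (c (c (c (c (m (nat_lit 0x20ff808)) e) e) e)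
  e)) (c (c (c (c (c (p (nat_lit 0xea8bb0)) e) e) e) e) e)) (c (c (c (c (c (c (m (nat_lit 0x20ff850)) e) e)
  e) e) e) e)) (c (c (c (c (c (c (c (p (nat_lit 0x904596)) e) e) e) e) e) e) e)) (c (c (c (c (c (c (c (c (m
  (nat_lit 0x18c4380)) e) e) e) e) e) e) e) e))))) (c (c (c (c (c (c (c (c (c (p (nat_lit 0x5a79c08)) (c (p
  (nat_lit 0x18a93c2)) (c (m (nat_lit 0x19c54e0)) e))) (c (c (p (nat_lit 0x169ba92)) (c (m (nat_lit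
  0x6bc6b8)) e)) (c (c (p (nat_lit 0x6fb6b8)) e) e))) (c (c (c (m (nat_lit 0x1ac16a8)) (c (m (nat_lit
  0x94ee70)) e)) (c (c (m (nat_lit 0x24eaf0)) e) e)) (c (c (c (p (nat_lit 0x4fb5a0)) e) e) e))) (c (c (c (c
  (m (nat_lit 0xaf866)) (c (p (nat_lit 0x1b55d76)) (c (p (nat_lit 0x11f9490)) e))) (c (c (m (nat_lit
  0xef6e56)) (c (p (nat_lit 0x9bdf30)) e)) (c (c (p (nat_lit 0x463668)) e) e))) (c (c (c (m (nat_lit
  0x1dc350e)) (c (p (nat_lit 0x15ee50)) e)) (c (c (p (nat_lit 0x444720)) e) e)) (c (c (c (m (nat_lit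
  0x589830)) e) e) e))) (c (c (c (c (m (nat_lit 0x3990318)) (c (m (nat_lit 0xbebb70)) e)) (c (c (p (nat_lit
  0x210bd60)) e) e)) (c (c (c (p (nat_lit 0xb44ed8)) e) e) e)) e))) (c (c (c (c (c (m (nat_lit 0x40602a8)) (c
  (p (nat_lit 0x1897fce)) (c (m (nat_lit 0x1408c8)) e))) (c (c (m (nat_lit 0xc65c1c)) (c (m (nat_lit
  0x157128)) e)) (c (c (m (nat_lit 0x985f38)) e) e))) (c (c (c (m (nat_lit 0x8cf85c)) (c (p (nat_lit
  0x813c0)) e)) (c (c (p (nat_lit 0xb67348)) e) e)) (c (c (c (p (nat_lit 0x11bd10)) e) e) e))) (c (c (c (c (p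
  (nat_lit 0xba6000)) (c (m (nat_lit 0x800958)) e)) (c (c (p (nat_lit 0x695370)) e) e)) (c (c (c (p (nat_lit
  0x51d1e8)) e) e) e)) e)) (c (c (c (c (c (p (nat_lit 0x46eb58)) (c (m (nat_lit 0x1292e8)) e)) (c (c (p
  (nat_lit 0x963030)) e) e)) (c (c (c (m (nat_lit 0x3a5d68)) e) e) e)) e) e))) (c (c (c (c (c (c (p (nat_lit
  0x56f9d6)) (c (m (nat_lit 0x20c81f4)) (c (m (nat_lit 0x59c88)) e))) (c (c (m (nat_lit 0x281616)) (c (m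
  (nat_lit 0x232d70)) e)) (c (c (p (nat_lit 0x97da00)) e) e))) (c (c (c (p (nat_lit 0x1e12762)) (c (m
  (nat_lit 0xe8980)) e)) (c (c (p (nat_lit 0x54c138)) e) e)) (c (c (c (m (nat_lit 0x283a28)) e) e) e))) (c (c
  (c (c (p (nat_lit 0x133d898)) (c (m (nat_lit 0xd180b0)) e)) (c (c (p (nat_lit 0x7fae8)) e) e)) (c (c (c (m
  (nat_lit 0x25020)) e) e) e)) e)) (c (c (c (c (c (m (nat_lit 0x13bdde8)) (c (p (nat_lit 0x150978)) e)) (c (c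
  (p (nat_lit 0x1b85f8)) e) e)) (c (c (c (m (nat_lit 0x10b768)) e) e) e)) e) e)) (c (c (c (c (c (c (m
  (nat_lit 0x51b688)) (c (p (nat_lit 0x145ec78)) e)) (c (c (p (nat_lit 0x280d88)) e) e)) (c (c (c (p (nat_lit
  0x52f068)) e) e) e)) e) e) e))) (c (c (c (c (c (c (c (m (nat_lit 0x12dc7e14)) (c (m (nat_lit 0x1b1da7e)) (c
  (m (nat_lit 0x475cb0)) e))) (c (c (m (nat_lit 0x3c0b2ce)) (c (m (nat_lit 0xb1b808)) e)) (c (c (m (nat_lit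
  0x4b1c50)) e) e))) (c (c (c (p (nat_lit 0x40e720c)) (c (p (nat_lit 0x4bd4d0)) e)) (c (c (m (nat_lit
  0xb1b7f0)) e) e)) (c (c (c (m (nat_lit 0x475c80)) e) e) e))) (c (c (c (c (p (nat_lit 0x73e5f22)) (c (m
  (nat_lit 0x15ff5d6)) e)) (c (c (m (nat_lit 0xa100e2)) e) e)) (c (c (c (m (nat_lit 0xa40052)) e) e) e)) (c
  (c (c (c (p (nat_lit 0x13e9c0)) e) e) e) e))) (c (c (c (c (c (p (nat_lit 0x322e858)) (c (p (nat_lit
  0x71d432)) e)) (c (c (p (nat_lit 0x10fb984)) e) e)) (c (c (c (p (nat_lit 0x1e75f9c)) e) e) e)) (c (c (c (c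
  (m (nat_lit 0xad250)) e) e) e) e)) (c (c (c (c (c (m (nat_lit 0x150c78)) e) e) e) e) e))) (c (c (c (c (c (c
  (p (nat_lit 0x1c3ea26)) (c (m (nat_lit 0xd7535c)) e)) (c (c (m (nat_lit 0x10f4532)) e) e)) (c (c (c (m
  (nat_lit 0x12dbada)) e) e) e)) (c (c (c (c (p (nat_lit 0x6d6278)) e) e) e) e)) (c (c (c (c (c (m (nat_lit
  0xad220)) e) e) e) e) e)) (c (c (c (c (c (c (p (nat_lit 0x13e960)) e) e) e) e) e) e))) (c (c (c (c (c (c (c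
  (m (nat_lit 0x1a898)) (c (p (nat_lit 0x19a1564)) e)) (c (c (p (nat_lit 0x2e7226c)) e) e)) (c (c (c (m
  (nat_lit 0x247a70c)) e) e) e)) (c (c (c (c (m (nat_lit 0x2ad5c90)) e) e) e) e)) (c (c (c (c (c (m (nat_lit
  0x18780c)) e) e) e) e) e)) (c (c (c (c (c (c (p (nat_lit 0x2fe869c)) e) e) e) e) e) e)) (c (c (c (c (c (c
  (c (p (nat_lit 0x7654368)) e) e) e) e) e) e) e)))) (c (c (c (c (c (c (c (c (m (nat_lit 0x29d9084)) (c (p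
  (nat_lit 0x281f72a)) (c (p (nat_lit 0x629d48)) e))) (c (c (p (nat_lit 0xdc3f68)) (c (p (nat_lit 0x9db150))
  e)) (c (c (p (nat_lit 0xa6d8e0)) e) e))) (c (c (c (p (nat_lit 0x2c00dcc)) (c (p (nat_lit 0x1a5b60)) e)) (c
  (c (m (nat_lit 0x2f508)) e) e)) (c (c (c (m (nat_lit 0x912900)) e) e) e))) (c (c (c (c (m (nat_lit
  0xeac3b4)) (c (m (nat_lit 0xc9ce58)) e)) (c (c (m (nat_lit 0x1571838)) e) e)) (c (c (c (p (nat_lit
  0x7feee8)) e) e) e)) (c (c (c (c (m (nat_lit 0x3f1350)) e) e) e) e))) (c (c (c (c (c (m (nat_lit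
  0x1850574)) (c (p (nat_lit 0xea3108)) e)) (c (c (m (nat_lit 0x921d20)) e) e)) (c (c (c (p (nat_lit
  0x703ad0)) e) e) e)) (c (c (c (c (m (nat_lit 0x3e6b20)) e) e) e) e)) (c (c (c (c (c (p (nat_lit 0x8ccc28))
  e) e) e) e) e))) (c (c (c (c (c (c (m (nat_lit 0x22a97cc)) (c (p (nat_lit 0x57d038)) e)) (c (c (m (nat_lit
  0x10fda48)) e) e)) (c (c (c (p (nat_lit 0x10b8778)) e) e) e)) (c (c (c (c (p (nat_lit 0x69c978)) e) e) e)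
  e)) (c (c (c (c (c (p (nat_lit 0x2cafd8)) e) e) e) e) e)) (c (c (c (c (c (c (m (nat_lit 0x47f610)) e) e) e)
  e) e) e))) (c (c (c (c (c (c (c (p (nat_lit 0x6a87572)) (c (m (nat_lit 0x146bd52)) e)) (c (c (p (nat_lit
  0x12a68c)) e) e)) (c (c (c (m (nat_lit 0x2b8bb20)) e) e) e)) (c (c (c (c (p (nat_lit 0x5606dc)) e) e) e)
  e)) (c (c (c (c (c (m (nat_lit 0x1db0440)) e) e) e) e) e)) (c (c (c (c (c (c (p (nat_lit 0x1c99ec)) e) e)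
  e) e) e) e)) (c (c (c (c (c (c (c (m (nat_lit 0x437e2ea)) e) e) e) e) e) e) e))) (c (c (c (c (c (c (c (c (m
  (nat_lit 0x327588c)) (c (m (nat_lit 0xd71768)) e)) (c (c (p (nat_lit 0x738750)) e) e)) (c (c (c (p (nat_lit
  0x1983c0)) e) e) e)) (c (c (c (c (p (nat_lit 0x1585068)) e) e) e) e)) (c (c (c (c (c (p (nat_lit 0xda9ef8))
  e) e) e) e) e)) (c (c (c (c (c (c (p (nat_lit 0x21f6a38)) e) e) e) e) e) e)) (c (c (c (c (c (c (c (p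
  (nat_lit 0x55dcb8)) e) e) e) e) e) e) e)) (c (c (c (c (c (c (c (c (p (nat_lit 0xf6d1b8)) e) e) e) e) e) e)
  e) e)))) (c (c (c (c (c (c (c (c (c (m (nat_lit 0x1678b18)) (c (p (nat_lit 0x283f86)) (c (m (nat_lit
  0x3014d0)) e))) (c (c (m (nat_lit 0x99fc54)) (c (m (nat_lit 0x278be0)) e)) (c (c (p (nat_lit 0x5ad140)) e)
  e))) (c (c (c (m (nat_lit 0x67603e)) (c (p (nat_lit 0x11e728)) e)) (c (c (p (nat_lit 0x6b7d38)) e) e)) (c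
  (c (c (p (nat_lit 0xd4a0a8)) e) e) e))) (c (c (c (c (p (nat_lit 0x4d1daa)) (c (p (nat_lit 0x1e7a2c8)) e))
  (c (c (m (nat_lit 0x7e23e8)) e) e)) (c (c (c (m (nat_lit 0x48bc28)) e) e) e)) (c (c (c (c (p (nat_lit
  0x1439538)) e) e) e) e))) (c (c (c (c (c (p (nat_lit 0x3b1d392)) (c (m (nat_lit 0x516b70)) e)) (c (c (m
  (nat_lit 0x31def8)) e) e)) (c (c (c (m (nat_lit 0x3f8c88)) e) e) e)) (c (c (c (c (m (nat_lit 0xdb7d10)) e)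
  e) e) e)) (c (c (c (c (c (m (nat_lit 0x357d20)) e) e) e) e) e))) (c (c (c (c (c (c (m (nat_lit 0x62a4e0))
  (c (p (nat_lit 0x12ffca8)) e)) (c (c (p (nat_lit 0x194ce8)) e) e)) (c (c (c (p (nat_lit 0x6e4f90)) e) e)
  e)) (c (c (c (c (m (nat_lit 0xbf2608)) e) e) e) e)) (c (c (c (c (c (p (nat_lit 0xfcd998)) e) e) e) e) e))
  (c (c (c (c (c (c (m (nat_lit 0xb37630)) e) e) e) e) e) e))) (c (c (c (c (c (c (c (p (nat_lit 0xf3fe0dc))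
  (c (m (nat_lit 0xec467e)) e)) (c (c (p (nat_lit 0x79b354)) e) e)) (c (c (c (m (nat_lit 0x12ea432)) e) e)
  e)) (c (c (c (c (m (nat_lit 0x1996962)) e) e) e) e)) (c (c (c (c (c (m (nat_lit 0x2fb220a)) e) e) e) e) e))
  (c (c (c (c (c (c (m (nat_lit 0x139f230)) e) e) e) e) e) e)) (c (c (c (c (c (c (c (m (nat_lit 0x9bf5c68))
  e) e) e) e) e) e) e))) (c (c (c (c (c (c (c (c (p (nat_lit 0x43cf14)) (c (m (nat_lit 0x139a538)) e)) (c (c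
  (p (nat_lit 0x183ee8)) e) e)) (c (c (c (m (nat_lit 0x1de0e0)) e) e) e)) (c (c (c (c (m (nat_lit 0xefc7d8))
  e) e) e) e)) (c (c (c (c (c (m (nat_lit 0x583368)) e) e) e) e) e)) (c (c (c (c (c (c (m (nat_lit 0x76a100))
  e) e) e) e) e) e)) (c (c (c (c (c (c (c (p (nat_lit 0x2f8e738)) e) e) e) e) e) e) e)) (c (c (c (c (c (c (c
  (c (m (nat_lit 0x8cb3c8)) e) e) e) e) e) e) e) e))) (c (c (c (c (c (c (c (c (c (m (nat_lit 0x10d914e)) (c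
  (p (nat_lit 0x6d6728)) e)) (c (c (m (nat_lit 0x225be8)) e) e)) (c (c (c (p (nat_lit 0x1281a8)) e) e) e)) (c
  (c (c (c (p (nat_lit 0xb505d8)) e) e) e) e)) (c (c (c (c (c (p (nat_lit 0x39f90)) e) e) e) e) e)) (c (c (c
  (c (c (c (p (nat_lit 0x2b5270)) e) e) e) e) e) e)) (c (c (c (c (c (c (c (m (nat_lit 0x16330c2)) e) e) e) e)
  e) e) e)) (c (c (c (c (c (c (c (c (m (nat_lit 0x73fd28)) e) e) e) e) e) e) e) e)) (c (c (c (c (c (c (c (c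
  (c (p (nat_lit 0xc85788)) e) e) e) e) e) e) e) e) e)))))

noncomputable def gt_0_5 : Tr := (c gt_0_5_5 (c gt_0_5_6 (c gt_0_5_7 e)))

noncomputable def gt_0_6_6 : Tr :=
  (c (c (c (c (c (c (c (c (c (p (nat_lit 0x10243b6)) (c (p (nat_lit 0x1bbbd28)) (c (m (nat_lit 0x1eb1c6c))
  e))) (c (c (m (nat_lit 0x28c3ba8)) (c (p (nat_lit 0x6639e4)) e)) (c (c (p (nat_lit 0x177ef1c)) e) e))) (c
  (c (c (m (nat_lit 0x23c7f8a)) (c (p (nat_lit 0x66398a)) e)) (c (c (m (nat_lit 0xe9fd3c)) e) e)) (c (c (c (p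
  (nat_lit 0x177ef04)) e) e) e))) (c (c (c (c (p (nat_lit 0x1bbbd28)) (c (p (nat_lit 0xd3db668)) (c (m
  (nat_lit 0x7168ee4)) e))) (c (c (m (nat_lit 0x1c3acee)) (c (m (nat_lit 0x1f11bac)) e)) (c (c (m (nat_lit
  0xc048a8)) e) e))) (c (c (c (m (nat_lit 0x137ec56)) (c (m (nat_lit 0x1f11af2)) e)) (c (c (m (nat_lit
  0x62acc)) e) e)) (c (c (c (m (nat_lit 0xc0486c)) e) e) e))) (c (c (c (c (m (nat_lit 0x1eb1c6c)) (c (m
  (nat_lit 0x7168ee4)) (c (p (nat_lit 0x5a0585c)) e))) (c (c (m (nat_lit 0xd1b20)) (c (p (nat_lit 0x10a36ca))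
  e)) (c (c (p (nat_lit 0xef7d44)) e) e))) (c (c (c (m (nat_lit 0xd1b14)) (c (p (nat_lit 0x10a36be)) e)) (c
  (c (p (nat_lit 0x3f411c)) e) e)) (c (c (c (p (nat_lit 0xef7d68)) e) e) e))) e))) (c (c (c (c (c (m (nat_lit
  0x28c3ba8)) (c (m (nat_lit 0x1c3acee)) (c (m (nat_lit 0xd1b20)) e))) (c (c (p (nat_lit 0x13baa76c)) (c (m
  (nat_lit 0x1d0adc8)) e)) (c (c (m (nat_lit 0x708e310)) e) e))) (c (c (c (m (nat_lit 0x825720c)) (c (p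
  (nat_lit 0x18458ac)) e)) (c (c (m (nat_lit 0x153eb98)) e) e)) (c (c (c (p (nat_lit 0x20496d8)) e) e) e)))
  (c (c (c (c (p (nat_lit 0x6639e4)) (c (m (nat_lit 0x1f11bac)) (c (p (nat_lit 0x10a36ca)) e))) (c (c (m
  (nat_lit 0x1d0adc8)) (c (p (nat_lit 0x270452a)) e)) (c (c (p (nat_lit 0x167a324)) e) e))) (c (c (c (p
  (nat_lit 0x18458a0)) (c (p (nat_lit 0x4eb064)) e)) (c (c (m (nat_lit 0x3732fc)) e) e)) (c (c (c (p (nat_lit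
  0x923a0)) e) e) e))) e)) (c (c (c (c (c (p (nat_lit 0x177ef1c)) (c (m (nat_lit 0xc048a8)) (c (p (nat_lit
  0xef7d44)) e))) (c (c (m (nat_lit 0x708e310)) (c (p (nat_lit 0x167a324)) e)) (c (c (p (nat_lit 0x8328d80))
  e) e))) (c (c (c (p (nat_lit 0x20496d8)) (c (p (nat_lit 0x92394)) e)) (c (c (m (nat_lit 0xc1c908)) e) e))
  (c (c (c (m (nat_lit 0x2552f70)) e) e) e))) e) e))) (c (c (c (c (c (c (m (nat_lit 0x23c7f8a)) (c (m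
  (nat_lit 0x137ec56)) (c (m (nat_lit 0xd1b14)) e))) (c (c (m (nat_lit 0x825720c)) (c (p (nat_lit 0x18458a0))
  e)) (c (c (p (nat_lit 0x20496d8)) e) e))) (c (c (c (p (nat_lit 0x140b46e8)) (c (m (nat_lit 0x1d0ade0)) e))
  (c (c (m (nat_lit 0x153ebb0)) e) e)) (c (c (c (m (nat_lit 0x708e370)) e) e) e))) (c (c (c (c (p (nat_lit
  0x66398a)) (c (m (nat_lit 0x1f11af2)) (c (p (nat_lit 0x10a36be)) e))) (c (c (p (nat_lit 0x18458ac)) (c (p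
  (nat_lit 0x4eb064)) e)) (c (c (p (nat_lit 0x92394)) e) e))) (c (c (c (m (nat_lit 0x1d0ade0)) (c (p (nat_lit
  0x2704524)) e)) (c (c (m (nat_lit 0x373308)) e) e)) (c (c (c (p (nat_lit 0x167a324)) e) e) e))) e)) (c (c
  (c (c (c (m (nat_lit 0xe9fd3c)) (c (m (nat_lit 0x62acc)) (c (p (nat_lit 0x3f411c)) e))) (c (c (m (nat_lit
  0x153eb98)) (c (m (nat_lit 0x3732fc)) e)) (c (c (m (nat_lit 0xc1c908)) e) e))) (c (c (c (m (nat_lit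
  0x153ebb0)) (c (m (nat_lit 0x373308)) e)) (c (c (p (nat_lit 0x4642f80)) e) e)) (c (c (c (m (nat_lit
  0xc1c8f0)) e) e) e))) e) e)) (c (c (c (c (c (c (p (nat_lit 0x177ef04)) (c (m (nat_lit 0xc0486c)) (c (p
  (nat_lit 0xef7d68)) e))) (c (c (p (nat_lit 0x20496d8)) (c (p (nat_lit 0x923a0)) e)) (c (c (m (nat_lit
  0x2552f70)) e) e))) (c (c (c (m (nat_lit 0x708e370)) (c (p (nat_lit 0x167a324)) e)) (c (c (m (nat_lit
  0xc1c8f0)) e) e)) (c (c (c (p (nat_lit 0x8328db0)) e) e) e))) e) e) e))) (c (c (c (c (c (c (c (p (nat_lit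
  0x72692fa)) (c (m (nat_lit 0x32646de)) (c (p (nat_lit 0xdb17f4)) e))) (c (c (m (nat_lit 0x3b37030)) (c (m
  (nat_lit 0x3d4ffa)) e)) (c (c (m (nat_lit 0x3279c)) e) e))) (c (c (c (p (nat_lit 0xccaaa0)) (c (m (nat_lit
  0x9214da)) e)) (c (c (m (nat_lit 0xa0ce90)) e) e)) (c (c (c (m (nat_lit 0x1bfe7e4)) e) e) e))) (c (c (c (c
  (m (nat_lit 0x32646de)) (c (p (nat_lit 0x8da6b0)) (c (p (nat_lit 0xc1b2ca)) e))) (c (c (p (nat_lit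
  0x1d8a850)) (c (p (nat_lit 0x111f4e)) e)) (c (c (m (nat_lit 0x3189a8)) e) e))) (c (c (c (p (nat_lit
  0x24f72f6)) (c (p (nat_lit 0x106950)) e)) (c (c (p (nat_lit 0x9f9360)) e) e)) (c (c (c (m (nat_lit
  0x1354bc)) e) e) e))) (c (c (c (c (p (nat_lit 0xdb17f4)) (c (p (nat_lit 0xc1b2ca)) e)) (c (c (p (nat_lit
  0x4241dc)) e) e)) (c (c (c (m (nat_lit 0x7605de)) e) e) e)) e))) (c (c (c (c (c (m (nat_lit 0x3b37030)) (c
  (p (nat_lit 0x1d8a850)) (c (p (nat_lit 0x4241dc)) e))) (c (c (p (nat_lit 0x5bef15c)) (c (m (nat_lit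
  0x28c49a)) e)) (c (c (m (nat_lit 0x7b23b8)) e) e))) (c (c (c (m (nat_lit 0x2639e9e)) (c (m (nat_lit
  0x1c7df0)) e)) (c (c (p (nat_lit 0x57a824)) e) e)) (c (c (c (p (nat_lit 0x43914)) e) e) e))) (c (c (c (c (m
  (nat_lit 0x3d4ffa)) (c (p (nat_lit 0x111f4e)) e)) (c (c (m (nat_lit 0x28c49a)) e) e)) (c (c (c (m (nat_lit
  0xda268)) e) e) e)) e)) (c (c (c (c (c (m (nat_lit 0x3279c)) (c (m (nat_lit 0x3189a8)) e)) (c (c (m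
  (nat_lit 0x7b23b8)) e) e)) (c (c (c (m (nat_lit 0x213d38)) e) e) e)) e) e))) (c (c (c (c (c (c (p (nat_lit
  0xccaaa0)) (c (p (nat_lit 0x24f72f6)) (c (m (nat_lit 0x7605de)) e))) (c (c (m (nat_lit 0x2639e9e)) (c (m
  (nat_lit 0xda268)) e)) (c (c (m (nat_lit 0x213d38)) e) e))) (c (c (c (p (nat_lit 0xda02122)) (c (m (nat_lit
  0x11aa692)) e)) (c (c (m (nat_lit 0x41a03c)) e) e)) (c (c (c (m (nat_lit 0x10b9b40)) e) e) e))) (c (c (c (c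
  (m (nat_lit 0x9214da)) (c (p (nat_lit 0x106950)) e)) (c (c (m (nat_lit 0x1c7df0)) e) e)) (c (c (c (m
  (nat_lit 0x11aa692)) e) e) e)) e)) (c (c (c (c (c (m (nat_lit 0xa0ce90)) (c (p (nat_lit 0x9f9360)) e)) (c
  (c (p (nat_lit 0x57a824)) e) e)) (c (c (c (m (nat_lit 0x41a03c)) e) e) e)) e) e)) (c (c (c (c (c (c (m
  (nat_lit 0x1bfe7e4)) (c (m (nat_lit 0x1354bc)) e)) (c (c (p (nat_lit 0x43914)) e) e)) (c (c (c (m (nat_lit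
  0x10b9b40)) e) e) e)) e) e) e))) (c (c (c (c (c (c (c (p (nat_lit 0x1937fa)) (c (p (nat_lit 0x1fa4750)) (c
  (m (nat_lit 0x673c86)) e))) (c (c (p (nat_lit 0x1aa8a60)) (c (m (nat_lit 0x208a10)) e)) (c (c (m (nat_lit
  0x3c6cc0)) e) e))) (c (c (c (m (nat_lit 0x5529a8c)) (c (p (nat_lit 0x5a8cd6)) e)) (c (c (m (nat_lit
  0x5ba358)) e) e)) (c (c (c (p (nat_lit 0x78c9c)) e) e) e))) (c (c (c (c (p (nat_lit 0x1fa4750)) (c (m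
  (nat_lit 0xde6a44)) e)) (c (c (m (nat_lit 0x4d7d68)) e) e)) (c (c (c (m (nat_lit 0x11b4658)) e) e) e)) (c
  (c (c (c (m (nat_lit 0x673c86)) e) e) e) e))) (c (c (c (c (c (p (nat_lit 0x1aa8a60)) (c (m (nat_lit
  0x4d7d68)) e)) (c (c (m (nat_lit 0xffd884)) e) e)) (c (c (c (p (nat_lit 0x44ee12)) e) e) e)) (c (c (c (c (m
  (nat_lit 0x208a10)) e) e) e) e)) (c (c (c (c (c (m (nat_lit 0x3c6cc0)) e) e) e) e) e))) (c (c (c (c (c (c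
  (m (nat_lit 0x5529a8c)) (c (m (nat_lit 0x11b4658)) e)) (c (c (p (nat_lit 0x44ee12)) e) e)) (c (c (c (m
  (nat_lit 0x370b66c)) e) e) e)) (c (c (c (c (p (nat_lit 0x5a8cd6)) e) e) e) e)) (c (c (c (c (c (m (nat_lit
  0x5ba358)) e) e) e) e) e)) (c (c (c (c (c (c (p (nat_lit 0x78c9c)) e) e) e) e) e) e))) (c (c (c (c (c (c (c
  (p (nat_lit 0x7a868d8)) (c (m (nat_lit 0x14cf0a6)) e)) (c (c (m (nat_lit 0xbf8cbc)) e) e)) (c (c (c (p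
  (nat_lit 0x39b01c6)) e) e) e)) (c (c (c (c (m (nat_lit 0x14cf0a6)) e) e) e) e)) (c (c (c (c (c (m (nat_lit
  0xbf8cbc)) e) e) e) e) e)) (c (c (c (c (c (c (p (nat_lit 0x39b01c6)) e) e) e) e) e) e)) (c (c (c (c (c (c
  (c (m (nat_lit 0x6cd617c)) e) e) e) e) e) e) e))))) (c (c (c (c (c (c (c (c (p (nat_lit 0x502ece4)) (c (m
  (nat_lit 0x25d85ba)) (c (p (nat_lit 0xdb187e)) e))) (c (c (p (nat_lit 0x11968f2)) (c (m (nat_lit 0x9214bc))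
  e)) (c (c (m (nat_lit 0x1bfe79c)) e) e))) (c (c (c (m (nat_lit 0x3309f48)) (c (m (nat_lit 0x3d4fb8)) e)) (c
  (c (m (nat_lit 0xa0ce60)) e) e)) (c (c (c (m (nat_lit 0x32778)) e) e) e))) (c (c (c (c (m (nat_lit
  0x25d85ba)) (c (m (nat_lit 0x25cd42a)) (c (p (nat_lit 0xc1b2dc)) e))) (c (c (p (nat_lit 0x179b86c)) (c (p
  (nat_lit 0x106962)) e)) (c (c (m (nat_lit 0x1354d4)) e) e))) (c (c (c (p (nat_lit 0x5f1348)) (c (p (nat_lit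
  0x111f4e)) e)) (c (c (p (nat_lit 0x9f936c)) e) e)) (c (c (c (m (nat_lit 0x318990)) e) e) e))) (c (c (c (c
  (p (nat_lit 0xdb187e)) (c (p (nat_lit 0xc1b2dc)) e)) (c (c (m (nat_lit 0x760620)) e) e)) (c (c (c (p
  (nat_lit 0x4241ac)) e) e) e)) e))) (c (c (c (c (c (p (nat_lit 0x11968f2)) (c (p (nat_lit 0x179b86c)) (c (m
  (nat_lit 0x760620)) e))) (c (c (p (nat_lit 0x6ef2554)) (c (m (nat_lit 0x11aa698)) e)) (c (c (m (nat_lit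
  0x10b9b34)) e) e))) (c (c (c (m (nat_lit 0x2d306fc)) (c (m (nat_lit 0xda286)) e)) (c (c (m (nat_lit
  0x41a03c)) e) e)) (c (c (c (m (nat_lit 0x213d50)) e) e) e))) (c (c (c (c (m (nat_lit 0x9214bc)) (c (p
  (nat_lit 0x106962)) e)) (c (c (m (nat_lit 0x11aa698)) e) e)) (c (c (c (m (nat_lit 0x1c7e08)) e) e) e)) e))
  (c (c (c (c (c (m (nat_lit 0x1bfe79c)) (c (m (nat_lit 0x1354d4)) e)) (c (c (m (nat_lit 0x10b9b34)) e) e))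
  (c (c (c (p (nat_lit 0x438d8)) e) e) e)) e) e))) (c (c (c (c (c (c (m (nat_lit 0x3309f48)) (c (p (nat_lit
  0x5f1348)) (c (p (nat_lit 0x4241ac)) e))) (c (c (m (nat_lit 0x2d306fc)) (c (m (nat_lit 0x1c7e08)) e)) (c (c
  (p (nat_lit 0x438d8)) e) e))) (c (c (c (p (nat_lit 0x1f210c8)) (c (m (nat_lit 0x28c4b2)) e)) (c (c (p
  (nat_lit 0x57a848)) e) e)) (c (c (c (m (nat_lit 0x7b23f4)) e) e) e))) (c (c (c (c (m (nat_lit 0x3d4fb8)) (c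
  (p (nat_lit 0x111f4e)) e)) (c (c (m (nat_lit 0xda286)) e) e)) (c (c (c (m (nat_lit 0x28c4b2)) e) e) e)) e))
  (c (c (c (c (c (m (nat_lit 0xa0ce60)) (c (p (nat_lit 0x9f936c)) e)) (c (c (m (nat_lit 0x41a03c)) e) e)) (c
  (c (c (p (nat_lit 0x57a848)) e) e) e)) e) e)) (c (c (c (c (c (c (m (nat_lit 0x32778)) (c (m (nat_lit
  0x318990)) e)) (c (c (m (nat_lit 0x213d50)) e) e)) (c (c (c (m (nat_lit 0x7b23f4)) e) e) e)) e) e) e))) (c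
  (c (c (c (c (c (c (m (nat_lit 0x11ac35f4)) (c (p (nat_lit 0x2cb56cc)) (c (m (nat_lit 0xafe4e0)) e))) (c (c
  (p (nat_lit 0x4402dee)) (c (p (nat_lit 0x33b112)) e)) (c (c (p (nat_lit 0xde1df4)) e) e))) (c (c (c (p
  (nat_lit 0x4619c58)) (c (p (nat_lit 0x33b124)) e)) (c (c (m (nat_lit 0x771fb4)) e) e)) (c (c (c (p (nat_lit
  0xde1e00)) e) e) e))) (c (c (c (c (p (nat_lit 0x2cb56cc)) (c (m (nat_lit 0x1b66372)) e)) (c (c (m (nat_lit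
  0x5fa82e)) e) e)) (c (c (c (p (nat_lit 0x2c1960)) e) e) e)) (c (c (c (c (m (nat_lit 0xafe4e0)) e) e) e)
  e))) (c (c (c (c (c (p (nat_lit 0x4402dee)) (c (m (nat_lit 0x5fa82e)) e)) (c (c (m (nat_lit 0xe0f0a0)) e)
  e)) (c (c (c (m (nat_lit 0x187d364)) e) e) e)) (c (c (c (c (p (nat_lit 0x33b112)) e) e) e) e)) (c (c (c (c
  (c (p (nat_lit 0xde1df4)) e) e) e) e) e))) (c (c (c (c (c (c (p (nat_lit 0x4619c58)) (c (p (nat_lit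
  0x2c1960)) e)) (c (c (m (nat_lit 0x187d364)) e) e)) (c (c (c (m (nat_lit 0x905160)) e) e) e)) (c (c (c (c
  (p (nat_lit 0x33b124)) e) e) e) e)) (c (c (c (c (c (m (nat_lit 0x771fb4)) e) e) e) e) e)) (c (c (c (c (c (c
  (p (nat_lit 0xde1e00)) e) e) e) e) e) e))) (c (c (c (c (c (c (c (m (nat_lit 0x1e67206)) (c (m (nat_lit
  0x447564)) e)) (c (c (m (nat_lit 0x93df8)) e) e)) (c (c (c (m (nat_lit 0x1bec5b6)) e) e) e)) (c (c (c (c (m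
  (nat_lit 0x447564)) e) e) e) e)) (c (c (c (c (c (m (nat_lit 0x93df8)) e) e) e) e) e)) (c (c (c (c (c (c (m
  (nat_lit 0x1bec5b6)) e) e) e) e) e) e)) (c (c (c (c (c (c (c (p (nat_lit 0x7e74c58)) e) e) e) e) e) e)
  e)))) (c (c (c (c (c (c (c (c (p (nat_lit 0x1089c7e)) (c (m (nat_lit 0xc8d60)) (c (m (nat_lit 0x673c86))
  e))) (c (c (m (nat_lit 0x1c5ec3a)) (c (p (nat_lit 0x5a8cd0)) e)) (c (c (p (nat_lit 0x78c9c)) e) e))) (c (c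
  (c (p (nat_lit 0x1da84)) (c (m (nat_lit 0x208a1c)) e)) (c (c (m (nat_lit 0x5ba364)) e) e)) (c (c (c (m
  (nat_lit 0x3c6cc0)) e) e) e))) (c (c (c (c (m (nat_lit 0xc8d60)) (c (p (nat_lit 0x20c10c6)) e)) (c (c (p
  (nat_lit 0x4635fc)) e) e)) (c (c (c (p (nat_lit 0xa05648)) e) e) e)) (c (c (c (c (m (nat_lit 0x673c86)) e)
  e) e) e))) (c (c (c (c (c (m (nat_lit 0x1c5ec3a)) (c (p (nat_lit 0x4635fc)) e)) (c (c (p (nat_lit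
  0x390e382)) e) e)) (c (c (c (p (nat_lit 0xb456ac)) e) e) e)) (c (c (c (c (p (nat_lit 0x5a8cd0)) e) e) e)
  e)) (c (c (c (c (c (p (nat_lit 0x78c9c)) e) e) e) e) e))) (c (c (c (c (c (c (p (nat_lit 0x1da84)) (c (p
  (nat_lit 0xa05648)) e)) (c (c (p (nat_lit 0xb456ac)) e) e)) (c (c (c (p (nat_lit 0x27c6966)) e) e) e)) (c
  (c (c (c (m (nat_lit 0x208a1c)) e) e) e) e)) (c (c (c (c (c (m (nat_lit 0x5ba364)) e) e) e) e) e)) (c (c (c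
  (c (c (c (m (nat_lit 0x3c6cc0)) e) e) e) e) e) e))) (c (c (c (c (c (c (c (p (nat_lit 0x10b9a296)) (c (m
  (nat_lit 0x190721a)) e)) (c (c (m (nat_lit 0x2a4cdf4)) e) e)) (c (c (c (m (nat_lit 0xc0f9d8)) e) e) e)) (c
  (c (c (c (m (nat_lit 0x190721a)) e) e) e) e)) (c (c (c (c (c (m (nat_lit 0x2a4cdf4)) e) e) e) e) e)) (c (c
  (c (c (c (c (m (nat_lit 0xc0f9d8)) e) e) e) e) e) e)) (c (c (c (c (c (c (c (m (nat_lit 0x7dc6004)) e) e) e)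
  e) e) e) e))) (c (c (c (c (c (c (c (c (p (nat_lit 0x69db4e)) (c (m (nat_lit 0xeddc8)) e)) (c (c (p (nat_lit
  0x115068)) e) e)) (c (c (c (p (nat_lit 0x16971c)) e) e) e)) (c (c (c (c (m (nat_lit 0xeddc8)) e) e) e) e))
  (c (c (c (c (c (p (nat_lit 0x115068)) e) e) e) e) e)) (c (c (c (c (c (c (p (nat_lit 0x16971c)) e) e) e) e)
  e) e)) (c (c (c (c (c (c (c (m (nat_lit 0x3360648)) e) e) e) e) e) e) e)) (c (c (c (c (c (c (c (c (p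
  (nat_lit 0x1a56cc2)) e) e) e) e) e) e) e) e))))) (c (c (c (c (c (c (c (c (c (m (nat_lit 0xc5fbab8)) (c (p
  (nat_lit 0x5a75cc6)) (c (p (nat_lit 0x3f496bc)) e))) (c (c (p (nat_lit 0x278b032)) (c (m (nat_lit 0x9c2ee))
  e)) (c (c (p (nat_lit 0xdfd61c)) e) e))) (c (c (c (p (nat_lit 0x146f0c4)) (c (m (nat_lit 0x9c30c)) e)) (c
  (c (p (nat_lit 0x3847ba8)) e) e)) (c (c (c (p (nat_lit 0xdfd610)) e) e) e))) (c (c (c (c (p (nat_lit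
  0x5a75cc6)) (c (p (nat_lit 0x5356de2)) (c (m (nat_lit 0x416bc20)) e))) (c (c (m (nat_lit 0xd3054e)) (c (m
  (nat_lit 0x13e3b82)) e)) (c (c (m (nat_lit 0xbe40ac)) e) e))) (c (c (c (m (nat_lit 0x15ec74e)) (c (m
  (nat_lit 0x13e3b70)) e)) (c (c (m (nat_lit 0x26feda0)) e) e)) (c (c (c (m (nat_lit 0xbe4094)) e) e) e))) (c
  (c (c (c (p (nat_lit 0x3f496bc)) (c (m (nat_lit 0x416bc20)) e)) (c (c (m (nat_lit 0xd02d5c)) e) e)) (c (c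
  (c (m (nat_lit 0xd02d44)) e) e) e)) e))) (c (c (c (c (c (p (nat_lit 0x278b032)) (c (m (nat_lit 0xd3054e))
  (c (m (nat_lit 0xd02d5c)) e))) (c (c (m (nat_lit 0x1eba624)) (c (p (nat_lit 0x7d070)) e)) (c (c (m (nat_lit
  0xe9f550)) e) e))) (c (c (c (p (nat_lit 0x28fec)) (c (m (nat_lit 0x9defd8)) e)) (c (c (p (nat_lit
  0x99db48)) e) e)) (c (c (c (m (nat_lit 0x11d0000)) e) e) e))) (c (c (c (c (m (nat_lit 0x9c2ee)) (c (m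
  (nat_lit 0x13e3b82)) e)) (c (c (p (nat_lit 0x7d070)) e) e)) (c (c (c (m (nat_lit 0x9defcc)) e) e) e)) e))
  (c (c (c (c (c (p (nat_lit 0xdfd61c)) (c (m (nat_lit 0xbe40ac)) e)) (c (c (m (nat_lit 0xe9f550)) e) e)) (c
  (c (c (m (nat_lit 0x11d0018)) e) e) e)) e) e))) (c (c (c (c (c (c (p (nat_lit 0x146f0c4)) (c (m (nat_lit
  0x15ec74e)) (c (m (nat_lit 0xd02d44)) e))) (c (c (p (nat_lit 0x28fec)) (c (m (nat_lit 0x9defcc)) e)) (c (c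
  (m (nat_lit 0x11d0018)) e) e))) (c (c (c (m (nat_lit 0x23c4510)) (c (p (nat_lit 0x7d064)) e)) (c (c (p
  (nat_lit 0x99db60)) e) e)) (c (c (c (m (nat_lit 0xe9f538)) e) e) e))) (c (c (c (c (m (nat_lit 0x9c30c)) (c
  (m (nat_lit 0x13e3b70)) e)) (c (c (m (nat_lit 0x9defd8)) e) e)) (c (c (c (p (nat_lit 0x7d064)) e) e) e))
  e)) (c (c (c (c (c (p (nat_lit 0x3847ba8)) (c (m (nat_lit 0x26feda0)) e)) (c (c (p (nat_lit 0x99db48)) e)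
  e)) (c (c (c (p (nat_lit 0x99db60)) e) e) e)) e) e)) (c (c (c (c (c (c (p (nat_lit 0xdfd610)) (c (m
  (nat_lit 0xbe4094)) e)) (c (c (m (nat_lit 0x11d0000)) e) e)) (c (c (c (m (nat_lit 0xe9f538)) e) e) e)) e)
  e) e))) (c (c (c (c (c (c (c (p (nat_lit 0x136bfd8)) (c (m (nat_lit 0x1b67bf6)) (c (p (nat_lit 0xbee47a))
  e))) (c (c (p (nat_lit 0xaf1886)) (c (p (nat_lit 0x53fb3e)) e)) (c (c (p (nat_lit 0xd08dd4)) e) e))) (c (c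
  (c (p (nat_lit 0x2b66f2)) (c (p (nat_lit 0x23dff0)) e)) (c (c (p (nat_lit 0xef652c)) e) e)) (c (c (c (p
  (nat_lit 0xc8e53c)) e) e) e))) (c (c (c (c (m (nat_lit 0x1b67bf6)) (c (m (nat_lit 0x20eb01e)) e)) (c (c (m
  (nat_lit 0x11e9c08)) e) e)) (c (c (c (p (nat_lit 0x3aea38)) e) e) e)) (c (c (c (c (p (nat_lit 0xbee47a)) e)
  e) e) e))) (c (c (c (c (c (p (nat_lit 0xaf1886)) (c (m (nat_lit 0x11e9c08)) e)) (c (c (m (nat_lit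
  0x22a4804)) e) e)) (c (c (c (m (nat_lit 0xc9b088)) e) e) e)) (c (c (c (c (p (nat_lit 0x53fb3e)) e) e) e)
  e)) (c (c (c (c (c (p (nat_lit 0xd08dd4)) e) e) e) e) e))) (c (c (c (c (c (c (p (nat_lit 0x2b66f2)) (c (p
  (nat_lit 0x3aea38)) e)) (c (c (m (nat_lit 0xc9b088)) e) e)) (c (c (c (m (nat_lit 0x2344ba8)) e) e) e)) (c
  (c (c (c (p (nat_lit 0x23dff0)) e) e) e) e)) (c (c (c (c (c (p (nat_lit 0xef652c)) e) e) e) e) e)) (c (c (c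
  (c (c (c (p (nat_lit 0xc8e53c)) e) e) e) e) e) e))) (c (c (c (c (c (c (c (m (nat_lit 0xd0fe402)) (c (p
  (nat_lit 0x15539dc)) e)) (c (c (p (nat_lit 0x8f6b6e)) e) e)) (c (c (c (p (nat_lit 0x126f1fe)) e) e) e)) (c
  (c (c (c (p (nat_lit 0x15539dc)) e) e) e) e)) (c (c (c (c (c (p (nat_lit 0x8f6b6e)) e) e) e) e) e)) (c (c
  (c (c (c (c (p (nat_lit 0x126f1fe)) e) e) e) e) e) e)) (c (c (c (c (c (c (c (p (nat_lit 0x4abca46)) e) e)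
  e) e) e) e) e)))) (c (c (c (c (c (c (c (c (p (nat_lit 0xccb73c)) (c (m (nat_lit 0x10f189e)) (c (p (nat_lit
  0xbee45c)) e))) (c (c (m (nat_lit 0x1e6db6)) (c (p (nat_lit 0x23dff6)) e)) (c (c (p (nat_lit 0xc8e548)) e)
  e))) (c (c (c (p (nat_lit 0x1f8bb98)) (c (p (nat_lit 0x53fb2c)) e)) (c (c (p (nat_lit 0xef64f0)) e) e)) (c
  (c (c (p (nat_lit 0xd08dc8)) e) e) e))) (c (c (c (c (m (nat_lit 0x10f189e)) (c (m (nat_lit 0x65f160)) e))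
  (c (c (p (nat_lit 0x6e2ad0)) e) e)) (c (c (c (m (nat_lit 0x5f99e2)) e) e) e)) (c (c (c (c (p (nat_lit
  0xbee45c)) e) e) e) e))) (c (c (c (c (c (m (nat_lit 0x1e6db6)) (c (p (nat_lit 0x6e2ad0)) e)) (c (c (m
  (nat_lit 0x109f140)) e) e)) (c (c (c (p (nat_lit 0x1455c0)) e) e) e)) (c (c (c (c (p (nat_lit 0x23dff6)) e)
  e) e) e)) (c (c (c (c (c (p (nat_lit 0xc8e548)) e) e) e) e) e))) (c (c (c (c (c (c (p (nat_lit 0x1f8bb98))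
  (c (m (nat_lit 0x5f99e2)) e)) (c (c (p (nat_lit 0x1455c0)) e) e)) (c (c (c (m (nat_lit 0xaf4e80)) e) e) e))
  (c (c (c (c (p (nat_lit 0x53fb2c)) e) e) e) e)) (c (c (c (c (c (p (nat_lit 0xef64f0)) e) e) e) e) e)) (c (c
  (c (c (c (c (p (nat_lit 0xd08dc8)) e) e) e) e) e) e))) (c (c (c (c (c (c (c (m (nat_lit 0x7a391c0)) (c (p
  (nat_lit 0x150d3ec)) e)) (c (c (m (nat_lit 0x6b18ca)) e) e)) (c (c (c (m (nat_lit 0x1265376)) e) e) e)) (c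
  (c (c (c (p (nat_lit 0x150d3ec)) e) e) e) e)) (c (c (c (c (c (m (nat_lit 0x6b18ca)) e) e) e) e) e)) (c (c
  (c (c (c (c (m (nat_lit 0x1265376)) e) e) e) e) e) e)) (c (c (c (c (c (c (c (p (nat_lit 0x34702b0)) e) e)
  e) e) e) e) e))) (c (c (c (c (c (c (c (c (m (nat_lit 0x4e3ff4e)) (c (p (nat_lit 0xac39e6)) e)) (c (c (p
  (nat_lit 0x476460)) e) e)) (c (c (c (p (nat_lit 0x96102)) e) e) e)) (c (c (c (c (p (nat_lit 0xac39e6)) e)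
  e) e) e)) (c (c (c (c (c (p (nat_lit 0x476460)) e) e) e) e) e)) (c (c (c (c (c (c (p (nat_lit 0x96102)) e)
  e) e) e) e) e)) (c (c (c (c (c (c (c (m (nat_lit 0xe7cae)) e) e) e) e) e) e) e)) (c (c (c (c (c (c (c (c (m
  (nat_lit 0x854a24)) e) e) e) e) e) e) e) e)))) (c (c (c (c (c (c (c (c (c (p (nat_lit 0x14936400)) (c (m
  (nat_lit 0xc97d77e)) (c (m (nat_lit 0x119d6e4)) e))) (c (c (m (nat_lit 0x64ab2ea)) (c (m (nat_lit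
  0x2f42fa)) e)) (c (c (m (nat_lit 0x9510e4)) e) e))) (c (c (c (m (nat_lit 0x568aec2)) (c (m (nat_lit
  0x2f42d6)) e)) (c (c (m (nat_lit 0x1ca1e64)) e) e)) (c (c (c (m (nat_lit 0x9510c0)) e) e) e))) (c (c (c (c
  (m (nat_lit 0xc97d77e)) (c (p (nat_lit 0x9e1a026)) e)) (c (c (p (nat_lit 0x38ba5c8)) e) e)) (c (c (c (p
  (nat_lit 0x38ba5bc)) e) e) e)) (c (c (c (c (m (nat_lit 0x119d6e4)) e) e) e) e))) (c (c (c (c (c (m (nat_lit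
  0x64ab2ea)) (c (p (nat_lit 0x38ba5c8)) e)) (c (c (p (nat_lit 0x4a7c3c0)) e) e)) (c (c (c (p (nat_lit
  0x3095ce8)) e) e) e)) (c (c (c (c (m (nat_lit 0x2f42fa)) e) e) e) e)) (c (c (c (c (c (m (nat_lit 0x9510e4))
  e) e) e) e) e))) (c (c (c (c (c (c (m (nat_lit 0x568aec2)) (c (p (nat_lit 0x38ba5bc)) e)) (c (c (p (nat_lit
  0x3095ce8)) e) e)) (c (c (c (p (nat_lit 0x4a7c3c0)) e) e) e)) (c (c (c (c (m (nat_lit 0x2f42d6)) e) e) e)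
  e)) (c (c (c (c (c (m (nat_lit 0x1ca1e64)) e) e) e) e) e)) (c (c (c (c (c (c (m (nat_lit 0x9510c0)) e) e)
  e) e) e) e))) (c (c (c (c (c (c (c (p (nat_lit 0x96472c2)) (c (m (nat_lit 0x11e33bc)) e)) (c (c (m (nat_lit
  0x3a8ace)) e) e)) (c (c (c (m (nat_lit 0xeb445a)) e) e) e)) (c (c (c (c (m (nat_lit 0x11e33bc)) e) e) e)
  e)) (c (c (c (c (c (m (nat_lit 0x3a8ace)) e) e) e) e) e)) (c (c (c (c (c (c (m (nat_lit 0xeb445a)) e) e) e)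
  e) e) e)) (c (c (c (c (c (c (c (p (nat_lit 0x1823eb6)) e) e) e) e) e) e) e))) (c (c (c (c (c (c (c (c (p
  (nat_lit 0x78c84f0)) (c (m (nat_lit 0x2ae8e42)) e)) (c (c (m (nat_lit 0x13c23b4)) e) e)) (c (c (c (m
  (nat_lit 0x16d6ec8)) e) e) e)) (c (c (c (c (m (nat_lit 0x2ae8e42)) e) e) e) e)) (c (c (c (c (c (m (nat_lit
  0x13c23b4)) e) e) e) e) e)) (c (c (c (c (c (c (m (nat_lit 0x16d6ec8)) e) e) e) e) e) e)) (c (c (c (c (c (c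
  (c (p (nat_lit 0x1cffe84)) e) e) e) e) e) e) e)) (c (c (c (c (c (c (c (c (p (nat_lit 0x3bf0a5a)) e) e) e)
  e) e) e) e) e))) (c (c (c (c (c (c (c (c (c (m (nat_lit 0x8f7c240)) (c (p (nat_lit 0x33a03b6)) e)) (c (c (p
  (nat_lit 0xe229fc)) e) e)) (c (c (c (p (nat_lit 0xe229fc)) e) e) e)) (c (c (c (c (p (nat_lit 0x33a03b6)) e)
  e) e) e)) (c (c (c (c (c (p (nat_lit 0xe229fc)) e) e) e) e) e)) (c (c (c (c (c (c (p (nat_lit 0xe229fc)) e)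
  e) e) e) e) e)) (c (c (c (c (c (c (c (m (nat_lit 0x550a964)) e) e) e) e) e) e) e)) (c (c (c (c (c (c (c (c
  (m (nat_lit 0x296b800)) e) e) e) e) e) e) e) e)) (c (c (c (c (c (c (c (c (c (p (nat_lit 0x3b78df6)) e) e)
  e) e) e) e) e) e) e)))))

noncomputable def gt_0_6_7 : Tr :=
  (c (c (c (c (c (c (c (c (c (m (nat_lit 0x5bf722)) (c (m (nat_lit 0x22e1f0e)) (c (m (nat_lit 0xb1fc00)) e)))
  (c (c (m (nat_lit 0x45c4a40)) (c (p (nat_lit 0x4e7470)) e)) (c (c (p (nat_lit 0x1eea3f0)) e) e))) (c (c (c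
  (m (nat_lit 0x2c0168a)) (c (p (nat_lit 0x4e7770)) e)) (c (c (p (nat_lit 0x1085b20)) e) e)) (c (c (c (p
  (nat_lit 0x1eea438)) e) e) e))) (c (c (c (c (p (nat_lit 0x230cf2e)) (c (m (nat_lit 0x49ee01c)) (c (p
  (nat_lit 0x3c9f5d0)) e))) (c (c (m (nat_lit 0x1266f96)) (c (m (nat_lit 0xa5b7c0)) e)) (c (c (p (nat_lit
  0xfdf6e0)) e) e))) (c (c (c (p (nat_lit 0x4f1c1c)) (c (m (nat_lit 0xa5bd60)) e)) (c (c (p (nat_lit
  0xcafc68)) e) e)) (c (c (c (p (nat_lit 0xfdf440)) e) e) e))) (c (c (c (c (m (nat_lit 0x11b5e64)) (c (p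
  (nat_lit 0x257e830)) (c (m (nat_lit 0xf13590)) e))) (c (c (p (nat_lit 0x4c3c50)) (c (p (nat_lit 0x95cef8))
  e)) (c (c (m (nat_lit 0xaf6830)) e) e))) (c (c (c (p (nat_lit 0x4c3bc0)) (c (p (nat_lit 0x95cf28)) e)) (c
  (c (m (nat_lit 0xc7fcc8)) e) e)) (c (c (c (m (nat_lit 0xaf67b8)) e) e) e))) e))) (c (c (c (c (c (m (nat_lit
  0x27aa2b0)) (c (p (nat_lit 0x2b1b686)) (c (m (nat_lit 0xb88240)) e))) (c (c (p (nat_lit 0x38fb182)) (c (m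
  (nat_lit 0x13bf690)) e)) (c (c (m (nat_lit 0x11688c0)) e) e))) (c (c (c (p (nat_lit 0x19ce94e)) (c (m
  (nat_lit 0xdb2d00)) e)) (c (c (m (nat_lit 0xf7fb30)) e) e)) (c (c (c (p (nat_lit 0x1bb100)) e) e) e))) (c
  (c (c (c (m (nat_lit 0x39d350)) (c (p (nat_lit 0x6c0828)) (c (m (nat_lit 0xa081e0)) e))) (c (c (m (nat_lit
  0x97d388)) (c (p (nat_lit 0x4dac90)) e)) (c (c (p (nat_lit 0x779e08)) e) e))) (c (c (c (p (nat_lit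
  0x4a06d0)) (c (m (nat_lit 0x70380)) e)) (c (c (p (nat_lit 0x8cb68)) e) e)) (c (c (c (m (nat_lit 0x886bc0))
  e) e) e))) e)) (c (c (c (c (c (p (nat_lit 0x114fba0)) (c (m (nat_lit 0x1941ba0)) (c (p (nat_lit 0x72ce10))
  e))) (c (c (m (nat_lit 0x691e90)) (c (p (nat_lit 0xab9db0)) e)) (c (c (p (nat_lit 0x836640)) e) e))) (c (c
  (c (m (nat_lit 0x1fac5e0)) (c (p (nat_lit 0x88ef30)) e)) (c (c (p (nat_lit 0x84e0a0)) e) e)) (c (c (c (m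
  (nat_lit 0xd8fe40)) e) e) e))) e) e))) (c (c (c (c (c (c (m (nat_lit 0x1e9bd12)) (c (p (nat_lit 0x24371a6))
  (c (m (nat_lit 0xb88210)) e))) (c (c (p (nat_lit 0x16995cc)) (c (m (nat_lit 0xdb2ca0)) e)) (c (c (p
  (nat_lit 0x1bb100)) e) e))) (c (c (c (p (nat_lit 0x3c1ebee)) (c (m (nat_lit 0x13bf690)) e)) (c (c (m
  (nat_lit 0xf7fb00)) e) e)) (c (c (c (m (nat_lit 0x11687d0)) e) e) e))) (c (c (c (c (m (nat_lit 0x39d338))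
  (c (p (nat_lit 0x6c07f8)) (c (m (nat_lit 0xa081c8)) e))) (c (c (p (nat_lit 0x4a0700)) (c (m (nat_lit
  0x70398)) e)) (c (c (m (nat_lit 0x886bc0)) e) e))) (c (c (c (m (nat_lit 0x97d3a0)) (c (p (nat_lit
  0x4dac90)) e)) (c (c (p (nat_lit 0x8cb50)) e) e)) (c (c (c (p (nat_lit 0x779e08)) e) e) e))) e)) (c (c (c
  (c (c (m (nat_lit 0x129c660)) (c (p (nat_lit 0x60e910)) (c (m (nat_lit 0x1413300)) e))) (c (c (p (nat_lit
  0x100aa30)) (c (p (nat_lit 0x608b80)) e)) (c (c (m (nat_lit 0x896160)) e) e))) (c (c (c (p (nat_lit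
  0x100aa30)) (c (p (nat_lit 0x608bb0)) e)) (c (c (p (nat_lit 0x72ca80)) e) e)) (c (c (c (m (nat_lit
  0x896100)) e) e) e))) e) e)) (c (c (c (c (c (c (p (nat_lit 0x114fb58)) (c (m (nat_lit 0x1941b40)) (c (p
  (nat_lit 0x72cde0)) e))) (c (c (m (nat_lit 0x1fac580)) (c (p (nat_lit 0x88ef30)) e)) (c (c (m (nat_lit
  0xd8fe70)) e) e))) (c (c (c (m (nat_lit 0x691e60)) (c (p (nat_lit 0xab9de0)) e)) (c (c (p (nat_lit
  0x84e0a0)) e) e)) (c (c (c (p (nat_lit 0x8365e0)) e) e) e))) e) e) e))) (c (c (c (c (c (c (c (p (nat_lit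
  0x37ca718)) (c (p (nat_lit 0x2fb8288)) (c (p (nat_lit 0x6fb718)) e))) (c (c (p (nat_lit 0x2cfe794)) (c (m
  (nat_lit 0x24eb08)) e)) (c (c (p (nat_lit 0x4fb5a0)) e) e))) (c (c (c (m (nat_lit 0xeef3e6)) (c (m (nat_lit
  0x6bc6b8)) e)) (c (c (m (nat_lit 0x94ee70)) e) e)) (c (c (c (m (nat_lit 0x19c54b0)) e) e) e))) (c (c (c (c
  (m (nat_lit 0x12b8d04)) (c (m (nat_lit 0x137da92)) (c (m (nat_lit 0x985f38)) e))) (c (c (p (nat_lit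
  0x243d368)) (c (p (nat_lit 0xb67360)) e)) (c (c (p (nat_lit 0x11bcf8)) e) e))) (c (c (c (p (nat_lit
  0x27aa40)) (c (m (nat_lit 0x157128)) e)) (c (c (p (nat_lit 0x813d8)) e) e)) (c (c (c (m (nat_lit 0x1408c8))
  e) e) e))) (c (c (c (c (p (nat_lit 0x46eb7c)) (c (p (nat_lit 0x963030)) e)) (c (c (m (nat_lit 0x3a5d68)) e)
  e)) (c (c (c (m (nat_lit 0x1292a0)) e) e) e)) e))) (c (c (c (c (c (p (nat_lit 0x131d150)) (c (m (nat_lit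
  0x89f916)) (c (p (nat_lit 0x97d9b8)) e))) (c (c (p (nat_lit 0x2972ef2)) (c (p (nat_lit 0x54c120)) e)) (c (c
  (m (nat_lit 0x283a28)) e) e))) (c (c (c (p (nat_lit 0x92c79c)) (c (m (nat_lit 0x232d88)) e)) (c (c (m
  (nat_lit 0xe8968)) e) e)) (c (c (c (m (nat_lit 0x59ca0)) e) e) e))) (c (c (c (c (m (nat_lit 0x13bde00)) (c
  (p (nat_lit 0x1b85f8)) e)) (c (c (m (nat_lit 0x10b750)) e) e)) (c (c (c (p (nat_lit 0x1509a8)) e) e) e))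
  e)) (c (c (c (c (c (m (nat_lit 0x51b5f8)) (c (p (nat_lit 0x280d40)) e)) (c (c (p (nat_lit 0x52f050)) e) e))
  (c (c (c (p (nat_lit 0x145ecc0)) e) e) e)) e) e))) (c (c (c (c (c (c (m (nat_lit 0x10f1a06)) (c (p (nat_lit
  0xc43554)) (c (p (nat_lit 0x463608)) e))) (c (c (p (nat_lit 0x4c4ca0)) (c (p (nat_lit 0x444750)) e)) (c (c
  (m (nat_lit 0x589830)) e) e))) (c (c (c (p (nat_lit 0x4007bd4)) (c (p (nat_lit 0x9bdf18)) e)) (c (c (p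
  (nat_lit 0x15ee68)) e) e)) (c (c (c (p (nat_lit 0x11f9448)) e) e) e))) (c (c (c (c (p (nat_lit 0xba5fdc))
  (c (p (nat_lit 0x695358)) e)) (c (c (p (nat_lit 0x51d200)) e) e)) (c (c (c (m (nat_lit 0x800928)) e) e) e))
  e)) (c (c (c (c (c (p (nat_lit 0x133d970)) (c (p (nat_lit 0x7faa0)) e)) (c (c (m (nat_lit 0x25050)) e) e))
  (c (c (c (m (nat_lit 0xd180e0)) e) e) e)) e) e)) (c (c (c (c (c (c (m (nat_lit 0x3990348)) (c (p (nat_lit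
  0x210bd30)) e)) (c (c (p (nat_lit 0xb44ef0)) e) e)) (c (c (c (m (nat_lit 0xbebb40)) e) e) e)) e) e) e))) (c
  (c (c (c (c (c (c (p (nat_lit 0x8b0f632)) (c (m (nat_lit 0x2fd0036)) (c (p (nat_lit 0x5ad128)) e))) (c (c
  (m (nat_lit 0x3b5257c)) (c (p (nat_lit 0x6b7d20)) e)) (c (c (p (nat_lit 0xd4a090)) e) e))) (c (c (c (m
  (nat_lit 0x4fea380)) (c (m (nat_lit 0x278bf8)) e)) (c (c (p (nat_lit 0x11e710)) e) e)) (c (c (c (m (nat_lit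
  0x301500)) e) e) e))) (c (c (c (c (p (nat_lit 0x16c9c38)) (c (p (nat_lit 0x3f9ff6)) e)) (c (c (m (nat_lit
  0x19accb2)) e) e)) (c (c (c (m (nat_lit 0x652164)) e) e) e)) (c (c (c (c (m (nat_lit 0x357d44)) e) e) e)
  e))) (c (c (c (c (c (m (nat_lit 0x286662c)) (c (p (nat_lit 0xcecd0)) e)) (c (c (m (nat_lit 0x157c8c)) e)
  e)) (c (c (c (m (nat_lit 0x1a2a022)) e) e) e)) (c (c (c (c (p (nat_lit 0xfcd9b0)) e) e) e) e)) (c (c (c (c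
  (c (m (nat_lit 0xb37648)) e) e) e) e) e))) (c (c (c (c (c (c (p (nat_lit 0x3b199ae)) (c (m (nat_lit
  0x1c382ca)) e)) (c (c (m (nat_lit 0x23deb2c)) e) e)) (c (c (c (m (nat_lit 0x95b5ba)) e) e) e)) (c (c (c (c
  (m (nat_lit 0xdb7d1c)) e) e) e) e)) (c (c (c (c (c (m (nat_lit 0xbf2638)) e) e) e) e) e)) (c (c (c (c (c (c
  (p (nat_lit 0x1439598)) e) e) e) e) e) e))) (c (c (c (c (c (c (c (m (nat_lit 0x6f4be34)) (c (p (nat_lit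
  0xaedf74)) e)) (c (c (p (nat_lit 0x807b40)) e) e)) (c (c (c (p (nat_lit 0x6719e68)) e) e) e)) (c (c (c (c
  (m (nat_lit 0x91a112)) e) e) e) e)) (c (c (c (c (c (p (nat_lit 0x2051fac)) e) e) e) e) e)) (c (c (c (c (c
  (c (m (nat_lit 0x23c3a06)) e) e) e) e) e) e)) (c (c (c (c (c (c (c (m (nat_lit 0x13e069c)) e) e) e) e) e)
  e) e))))) (c (c (c (c (c (c (c (c (p (nat_lit 0x5a79b60)) (c (p (nat_lit 0x169bb9a)) (c (p (nat_lit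
  0x6fb658)) e))) (c (c (p (nat_lit 0x18a9242)) (c (m (nat_lit 0x6bc6b8)) e)) (c (c (m (nat_lit 0x19c5528))
  e) e))) (c (c (c (m (nat_lit 0x1ac1618)) (c (m (nat_lit 0x24eb08)) e)) (c (c (m (nat_lit 0x94ee58)) e) e))
  (c (c (c (p (nat_lit 0x4fb558)) e) e) e))) (c (c (c (c (m (nat_lit 0x4060524)) (c (m (nat_lit 0xc65cf4)) (c
  (m (nat_lit 0x985f20)) e))) (c (c (p (nat_lit 0x189805e)) (c (m (nat_lit 0x157128)) e)) (c (c (m (nat_lit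
  0x1408f8)) e) e))) (c (c (c (m (nat_lit 0x8cf9dc)) (c (p (nat_lit 0xb67360)) e)) (c (c (p (nat_lit
  0x813d8)) e) e)) (c (c (c (p (nat_lit 0x11bd28)) e) e) e))) (c (c (c (c (p (nat_lit 0x46ec30)) (c (p
  (nat_lit 0x963018)) e)) (c (c (m (nat_lit 0x1292d0)) e) e)) (c (c (c (m (nat_lit 0x3a5d98)) e) e) e)) e)))
  (c (c (c (c (c (m (nat_lit 0xaf75e)) (c (m (nat_lit 0xef6e56)) (c (p (nat_lit 0x463650)) e))) (c (c (p
  (nat_lit 0x1b55e66)) (c (p (nat_lit 0x9bdf30)) e)) (c (c (p (nat_lit 0x11f9460)) e) e))) (c (c (c (m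
  (nat_lit 0x1dc34de)) (c (p (nat_lit 0x444720)) e)) (c (c (p (nat_lit 0x15ee50)) e) e)) (c (c (c (m (nat_lit
  0x589848)) e) e) e))) (c (c (c (c (p (nat_lit 0xba6018)) (c (p (nat_lit 0x695370)) e)) (c (c (m (nat_lit
  0x800940)) e) e)) (c (c (c (p (nat_lit 0x51d1d0)) e) e) e)) e)) (c (c (c (c (c (m (nat_lit 0x39902d0)) (c
  (p (nat_lit 0x210bd00)) e)) (c (c (m (nat_lit 0xbebb70)) e) e)) (c (c (c (p (nat_lit 0xb44ec0)) e) e) e))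
  e) e))) (c (c (c (c (c (c (p (nat_lit 0x56f766)) (c (m (nat_lit 0x281556)) (c (p (nat_lit 0x97d9d0)) e)))
  (c (c (m (nat_lit 0x20c8164)) (c (m (nat_lit 0x232d88)) e)) (c (c (m (nat_lit 0x59ca0)) e) e))) (c (c (c (p
  (nat_lit 0x1e127f2)) (c (p (nat_lit 0x54c120)) e)) (c (c (m (nat_lit 0xe8968)) e) e)) (c (c (c (m (nat_lit
  0x283a40)) e) e) e))) (c (c (c (c (m (nat_lit 0x13bddd0)) (c (p (nat_lit 0x1b85f8)) e)) (c (c (p (nat_lit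
  0x150990)) e) e)) (c (c (c (m (nat_lit 0x10b768)) e) e) e)) e)) (c (c (c (c (c (p (nat_lit 0x133d9d0)) (c
  (p (nat_lit 0x7faa0)) e)) (c (c (m (nat_lit 0xd18080)) e) e)) (c (c (c (m (nat_lit 0x25050)) e) e) e)) e)
  e)) (c (c (c (c (c (c (m (nat_lit 0x51b5b0)) (c (p (nat_lit 0x280d70)) e)) (c (c (p (nat_lit 0x145ec60)) e)
  e)) (c (c (c (p (nat_lit 0x52f050)) e) e) e)) e) e) e))) (c (c (c (c (c (c (c (m (nat_lit 0x12d95b5e)) (c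
  (m (nat_lit 0x3c7e6a8)) (c (m (nat_lit 0x4b1c38)) e))) (c (c (m (nat_lit 0x1af791e)) (c (m (nat_lit
  0xb1b808)) e)) (c (c (m (nat_lit 0x475c68)) e) e))) (c (c (c (p (nat_lit 0x410d3cc)) (c (m (nat_lit
  0xb1b808)) e)) (c (c (p (nat_lit 0x4bd4b8)) e) e)) (c (c (c (m (nat_lit 0x475c68)) e) e) e))) (c (c (c (c
  (p (nat_lit 0x322bfd8)) (c (p (nat_lit 0x1103508)) e)) (c (c (p (nat_lit 0x71e032)) e) e)) (c (c (c (p
  (nat_lit 0x1e76b6c)) e) e) e)) (c (c (c (c (m (nat_lit 0x150c60)) e) e) e) e))) (c (c (c (c (c (p (nat_lit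
  0x73bc6a2)) (c (m (nat_lit 0x9aee3a)) e)) (c (c (m (nat_lit 0x17894ca)) e) e)) (c (c (c (m (nat_lit
  0x8eb25e)) e) e) e)) (c (c (c (c (m (nat_lit 0xad238)) e) e) e) e)) (c (c (c (c (c (p (nat_lit 0x13e990))
  e) e) e) e) e))) (c (c (c (c (c (c (p (nat_lit 0x1c1515e)) (c (m (nat_lit 0x1093272)) e)) (c (c (m (nat_lit
  0xc20568)) e) e)) (c (c (c (m (nat_lit 0x14659b6)) e) e) e)) (c (c (c (c (m (nat_lit 0xad220)) e) e) e) e))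
  (c (c (c (c (c (p (nat_lit 0x6d62c0)) e) e) e) e) e)) (c (c (c (c (c (c (p (nat_lit 0x13e990)) e) e) e) e)
  e) e))) (c (c (c (c (c (c (c (m (nat_lit 0x46356)) (c (p (nat_lit 0x2dd22d6)) e)) (c (c (p (nat_lit
  0x1952f94)) e) e)) (c (c (c (m (nat_lit 0x23c460c)) e) e) e)) (c (c (c (c (m (nat_lit 0x182acc)) e) e) e)
  e)) (c (c (c (c (c (m (nat_lit 0x3992064)) e) e) e) e) e)) (c (c (c (c (c (c (p (nat_lit 0x3f5b920)) e) e)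
  e) e) e) e)) (c (c (c (c (c (c (c (p (nat_lit 0x81ad4fc)) e) e) e) e) e) e) e)))) (c (c (c (c (c (c (c (c
  (m (nat_lit 0x1678a88)) (c (m (nat_lit 0x99fc54)) (c (p (nat_lit 0x5ad128)) e))) (c (c (p (nat_lit
  0x283f56)) (c (m (nat_lit 0x278bf8)) e)) (c (c (m (nat_lit 0x3014d0)) e) e))) (c (c (c (m (nat_lit
  0x67606e)) (c (p (nat_lit 0x6b7d20)) e)) (c (c (p (nat_lit 0x11e710)) e) e)) (c (c (c (p (nat_lit
  0xd4a090)) e) e) e))) (c (c (c (c (p (nat_lit 0x3b1d482)) (c (m (nat_lit 0x31def8)) e)) (c (c (m (nat_lit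
  0x516b28)) e) e)) (c (c (c (m (nat_lit 0x3f8c88)) e) e) e)) (c (c (c (c (m (nat_lit 0x357d80)) e) e) e)
  e))) (c (c (c (c (c (p (nat_lit 0x4d1c12)) (c (m (nat_lit 0x7e23b8)) e)) (c (c (p (nat_lit 0x1e7a2f8)) e)
  e)) (c (c (c (m (nat_lit 0x48bbe0)) e) e) e)) (c (c (c (c (m (nat_lit 0xdb7d28)) e) e) e) e)) (c (c (c (c
  (c (p (nat_lit 0x14395b0)) e) e) e) e) e))) (c (c (c (c (c (c (m (nat_lit 0x62a4b0)) (c (p (nat_lit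
  0x194d00)) e)) (c (c (p (nat_lit 0x12ffc90)) e) e)) (c (c (c (p (nat_lit 0x6e4fa8)) e) e) e)) (c (c (c (c
  (p (nat_lit 0xfcd9b0)) e) e) e) e)) (c (c (c (c (c (m (nat_lit 0xbf26b0)) e) e) e) e) e)) (c (c (c (c (c (c
  (m (nat_lit 0xb37660)) e) e) e) e) e) e))) (c (c (c (c (c (c (c (p (nat_lit 0xf3d26cc)) (c (p (nat_lit
  0x6fb3c4)) e)) (c (c (m (nat_lit 0xe0e5ae)) e) e)) (c (c (c (m (nat_lit 0x1338a02)) e) e) e)) (c (c (c (c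
  (m (nat_lit 0x2fad4d6)) e) e) e) e)) (c (c (c (c (c (m (nat_lit 0xa23702)) e) e) e) e) e)) (c (c (c (c (c
  (c (m (nat_lit 0x225b628)) e) e) e) e) e) e)) (c (c (c (c (c (c (c (m (nat_lit 0xb51e44c)) e) e) e) e) e)
  e) e))) (c (c (c (c (c (c (c (c (m (nat_lit 0x10d92ce)) (c (m (nat_lit 0x225bd0)) e)) (c (c (p (nat_lit
  0x6d6740)) e) e)) (c (c (c (p (nat_lit 0x1281a8)) e) e) e)) (c (c (c (c (p (nat_lit 0x39f60)) e) e) e) e))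
  (c (c (c (c (c (p (nat_lit 0xb50650)) e) e) e) e) e)) (c (c (c (c (c (c (p (nat_lit 0x2b52a0)) e) e) e) e)
  e) e)) (c (c (c (c (c (c (c (m (nat_lit 0xad9ef2)) e) e) e) e) e) e) e)) (c (c (c (c (c (c (c (c (p
  (nat_lit 0xc857d0)) e) e) e) e) e) e) e) e))))) (c (c (c (c (c (c (c (c (c (p (nat_lit 0x40359c6)) (c (m
  (nat_lit 0x14bffe6)) (c (p (nat_lit 0x2bb3a80)) e))) (c (c (p (nat_lit 0x3349614)) (c (p (nat_lit
  0xe4c810)) e)) (c (c (m (nat_lit 0x202c7a0)) e) e))) (c (c (c (p (nat_lit 0x9d4988)) (c (p (nat_lit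
  0xe4c840)) e)) (c (c (m (nat_lit 0xab5460)) e) e)) (c (c (c (m (nat_lit 0x202c770)) e) e) e))) (c (c (c (c
  (p (nat_lit 0x3b77e9c)) (c (p (nat_lit 0x3ca884)) (c (m (nat_lit 0x116d480)) e))) (c (c (m (nat_lit
  0x2855ad2)) (c (m (nat_lit 0x7959d8)) e)) (c (c (p (nat_lit 0x106fd40)) e) e))) (c (c (c (m (nat_lit
  0x3fae4a4)) (c (m (nat_lit 0x795a08)) e)) (c (c (p (nat_lit 0xa3cfb0)) e) e)) (c (c (c (p (nat_lit
  0x106fd10)) e) e) e))) (c (c (c (c (p (nat_lit 0xb602f8)) (c (m (nat_lit 0x1196e80)) e)) (c (c (p (nat_lit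
  0x220098)) e) e)) (c (c (c (p (nat_lit 0x220068)) e) e) e)) e))) (c (c (c (c (c (m (nat_lit 0xb4deea)) (c
  (p (nat_lit 0x4a22f8a)) (c (m (nat_lit 0x2ab4990)) e))) (c (c (m (nat_lit 0x86c9e2)) (c (m (nat_lit
  0x2f5140)) e)) (c (c (p (nat_lit 0xeb5ae0)) e) e))) (c (c (c (m (nat_lit 0x93c4fe)) (c (m (nat_lit
  0x27ed60)) e)) (c (c (p (nat_lit 0x90e0a0)) e) e)) (c (c (c (m (nat_lit 0x976ef0)) e) e) e))) (c (c (c (c
  (p (nat_lit 0x12902e8)) (c (p (nat_lit 0x22e708)) e)) (c (c (m (nat_lit 0x6c29d0)) e) e)) (c (c (c (p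
  (nat_lit 0x183360)) e) e) e)) e)) (c (c (c (c (c (p (nat_lit 0x3ae6d80)) (c (m (nat_lit 0xf03cf0)) e)) (c
  (c (m (nat_lit 0xc78c90)) e) e)) (c (c (c (m (nat_lit 0xb66eb0)) e) e) e)) e) e))) (c (c (c (c (c (c (m
  (nat_lit 0x241a922)) (c (p (nat_lit 0x510746a)) (c (m (nat_lit 0x2ab49f0)) e))) (c (c (m (nat_lit
  0x60717c)) (c (m (nat_lit 0x27ed60)) e)) (c (c (m (nat_lit 0x976f20)) e) e))) (c (c (c (m (nat_lit
  0xb9047e)) (c (m (nat_lit 0x2f5140)) e)) (c (c (p (nat_lit 0x90e0a0)) e) e)) (c (c (c (p (nat_lit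
  0xeb5ab0)) e) e) e))) (c (c (c (c (p (nat_lit 0x12902d0)) (c (p (nat_lit 0x22e708)) e)) (c (c (p (nat_lit
  0x183378)) e) e)) (c (c (c (m (nat_lit 0x6c29d0)) e) e) e)) e)) (c (c (c (c (c (m (nat_lit 0x987690)) (c (m
  (nat_lit 0x225150)) e)) (c (c (p (nat_lit 0x7c8930)) e) e)) (c (c (c (p (nat_lit 0x7c8930)) e) e) e)) e)
  e)) (c (c (c (c (c (c (p (nat_lit 0x3ae6e10)) (c (m (nat_lit 0xf03d20)) e)) (c (c (m (nat_lit 0xb66eb0)) e)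
  e)) (c (c (c (m (nat_lit 0xc78cc0)) e) e) e)) e) e) e))) (c (c (c (c (c (c (c (m (nat_lit 0x5537316)) (c (p
  (nat_lit 0x1667eb0)) (c (p (nat_lit 0xa6d8e0)) e))) (c (c (m (nat_lit 0x10753e0)) (c (m (nat_lit 0x2f4f0))
  e)) (c (c (m (nat_lit 0x912918)) e) e))) (c (c (c (p (nat_lit 0x5b9e9a8)) (c (p (nat_lit 0x9db180)) e)) (c
  (c (p (nat_lit 0x1a5b60)) e) e)) (c (c (c (p (nat_lit 0x629d30)) e) e) e))) (c (c (c (c (m (nat_lit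
  0x7758b0a)) (c (p (nat_lit 0x6a10f4)) e)) (c (c (m (nat_lit 0x4418a6)) e) e)) (c (c (c (p (nat_lit
  0x1ab689c)) e) e) e)) (c (c (c (c (p (nat_lit 0x8ccb98)) e) e) e) e))) (c (c (c (c (c (m (nat_lit
  0x6a74726)) (c (m (nat_lit 0x12fe7ba)) e)) (c (c (p (nat_lit 0x3935a)) e) e)) (c (c (c (m (nat_lit
  0x37a09a)) e) e) e)) (c (c (c (c (p (nat_lit 0x2caf60)) e) e) e) e)) (c (c (c (c (c (m (nat_lit 0x47f6a0))
  e) e) e) e) e))) (c (c (c (c (c (c (m (nat_lit 0x31cf6c2)) (c (m (nat_lit 0x1e569b2)) e)) (c (c (m (nat_lit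
  0x42d53c)) e) e)) (c (c (c (m (nat_lit 0x19f87aa)) e) e) e)) (c (c (c (c (m (nat_lit 0x3e6b20)) e) e) e)
  e)) (c (c (c (c (c (p (nat_lit 0x69c930)) e) e) e) e) e)) (c (c (c (c (c (c (m (nat_lit 0x3f13b0)) e) e) e)
  e) e) e))) (c (c (c (c (c (c (c (m (nat_lit 0x2fefd88)) (c (m (nat_lit 0xb8520a)) e)) (c (c (p (nat_lit
  0xfb6a0c)) e) e)) (c (c (c (m (nat_lit 0x2de68b0)) e) e) e)) (c (c (c (c (p (nat_lit 0x3523506)) e) e) e)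
  e)) (c (c (c (c (c (p (nat_lit 0x36b7498)) e) e) e) e) e)) (c (c (c (c (c (c (p (nat_lit 0x2716044)) e) e)
  e) e) e) e)) (c (c (c (c (c (c (c (p (nat_lit 0x4795a4c)) e) e) e) e) e) e) e)))) (c (c (c (c (c (c (c (c
  (m (nat_lit 0x29d9180)) (c (p (nat_lit 0xdc3e60)) (c (p (nat_lit 0xa6d928)) e))) (c (c (p (nat_lit
  0x281f75a)) (c (p (nat_lit 0x9db168)) e)) (c (c (p (nat_lit 0x629d60)) e) e))) (c (c (c (p (nat_lit
  0x2c00d6c)) (c (m (nat_lit 0x2f4f0)) e)) (c (c (p (nat_lit 0x1a5b48)) e) e)) (c (c (c (m (nat_lit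
  0x9128e8)) e) e) e))) (c (c (c (c (m (nat_lit 0x185046c)) (c (m (nat_lit 0x921d50)) e)) (c (c (p (nat_lit
  0xea30d8)) e) e)) (c (c (c (p (nat_lit 0x703ad0)) e) e) e)) (c (c (c (c (p (nat_lit 0x8ccbf8)) e) e) e)
  e))) (c (c (c (c (c (m (nat_lit 0xeac24c)) (c (m (nat_lit 0x1571850)) e)) (c (c (m (nat_lit 0xc9cea0)) e)
  e)) (c (c (c (p (nat_lit 0x7fee88)) e) e) e)) (c (c (c (c (m (nat_lit 0x3e6b20)) e) e) e) e)) (c (c (c (c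
  (c (m (nat_lit 0x3f1410)) e) e) e) e) e))) (c (c (c (c (c (c (m (nat_lit 0x22a96ac)) (c (m (nat_lit
  0x10fda48)) e)) (c (c (p (nat_lit 0x57d068)) e) e)) (c (c (c (p (nat_lit 0x10b8760)) e) e) e)) (c (c (c (c
  (p (nat_lit 0x2caf78)) e) e) e) e)) (c (c (c (c (c (p (nat_lit 0x69c960)) e) e) e) e) e)) (c (c (c (c (c (c
  (m (nat_lit 0x47f670)) e) e) e) e) e) e))) (c (c (c (c (c (c (c (p (nat_lit 0x69a4e1a)) (c (p (nat_lit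
  0x2e7094)) e)) (c (c (m (nat_lit 0x12de972)) e) e)) (c (c (c (m (nat_lit 0x2d7e324)) e) e) e)) (c (c (c (c
  (m (nat_lit 0x1e248ac)) e) e) e) e)) (c (c (c (c (c (p (nat_lit 0x584844)) e) e) e) e) e)) (c (c (c (c (c
  (c (p (nat_lit 0x1b8364)) e) e) e) e) e) e)) (c (c (c (c (c (c (c (m (nat_lit 0x2a2e94a)) e) e) e) e) e) e)
  e))) (c (c (c (c (c (c (c (c (p (nat_lit 0x43cf74)) (c (p (nat_lit 0x183ed0)) e)) (c (c (m (nat_lit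
  0x139a568)) e) e)) (c (c (c (m (nat_lit 0x1de0f8)) e) e) e)) (c (c (c (c (m (nat_lit 0x583350)) e) e) e)
  e)) (c (c (c (c (c (m (nat_lit 0xefc808)) e) e) e) e) e)) (c (c (c (c (c (c (m (nat_lit 0x76a190)) e) e) e)
  e) e) e)) (c (c (c (c (c (c (c (p (nat_lit 0x2ed9cc4)) e) e) e) e) e) e) e)) (c (c (c (c (c (c (c (c (m
  (nat_lit 0x73fcc8)) e) e) e) e) e) e) e) e)))) (c (c (c (c (c (c (c (c (c (m (nat_lit 0x50cd996)) (c (m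
  (nat_lit 0x2a5c304)) (c (p (nat_lit 0x8985c0)) e))) (c (c (m (nat_lit 0x2f41d4)) (c (m (nat_lit 0x50c400))
  e)) (c (c (m (nat_lit 0x100de8)) e) e))) (c (c (c (p (nat_lit 0xcbd71a)) (c (m (nat_lit 0x50c418)) e)) (c
  (c (m (nat_lit 0x479d18)) e) e)) (c (c (c (m (nat_lit 0x100e00)) e) e) e))) (c (c (c (c (m (nat_lit
  0x22a347e)) (c (p (nat_lit 0x5554c8)) e)) (c (c (p (nat_lit 0x50ffe8)) e) e)) (c (c (c (p (nat_lit
  0x510018)) e) e) e)) (c (c (c (c (m (nat_lit 0xd6d958)) e) e) e) e))) (c (c (c (c (c (m (nat_lit 0x20851e))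
  (c (p (nat_lit 0x11d0db0)) e)) (c (c (p (nat_lit 0xb42c40)) e) e)) (c (c (c (p (nat_lit 0x1093020)) e) e)
  e)) (c (c (c (c (m (nat_lit 0x7075b0)) e) e) e) e)) (c (c (c (c (c (m (nat_lit 0xe19240)) e) e) e) e) e)))
  (c (c (c (c (c (c (p (nat_lit 0xdb6024)) (c (p (nat_lit 0x11d0db0)) e)) (c (c (p (nat_lit 0x1093020)) e)
  e)) (c (c (c (p (nat_lit 0xb42c40)) e) e) e)) (c (c (c (c (m (nat_lit 0x7075b0)) e) e) e) e)) (c (c (c (c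
  (c (m (nat_lit 0x77bfb0)) e) e) e) e) e)) (c (c (c (c (c (c (m (nat_lit 0xe192a0)) e) e) e) e) e) e))) (c
  (c (c (c (c (c (c (p (nat_lit 0x3a6c200)) (c (m (nat_lit 0x127a6dc)) e)) (c (c (m (nat_lit 0x49dd6c)) e)
  e)) (c (c (c (m (nat_lit 0x23591b2)) e) e) e)) (c (c (c (c (p (nat_lit 0x2edb3e6)) e) e) e) e)) (c (c (c (c
  (c (p (nat_lit 0x3959616)) e) e) e) e) e)) (c (c (c (c (c (c (p (nat_lit 0x1d29764)) e) e) e) e) e) e)) (c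
  (c (c (c (c (c (c (m (nat_lit 0x2837916)) e) e) e) e) e) e) e))) (c (c (c (c (c (c (c (c (m (nat_lit
  0x32758ec)) (c (p (nat_lit 0x738780)) e)) (c (c (m (nat_lit 0xd71750)) e) e)) (c (c (c (p (nat_lit
  0x1983f0)) e) e) e)) (c (c (c (c (p (nat_lit 0xdaa000)) e) e) e) e)) (c (c (c (c (c (p (nat_lit 0x1585008))
  e) e) e) e) e)) (c (c (c (c (c (c (p (nat_lit 0x21f6a50)) e) e) e) e) e) e)) (c (c (c (c (c (c (c (m
  (nat_lit 0xcce340)) e) e) e) e) e) e) e)) (c (c (c (c (c (c (c (c (m (nat_lit 0x8cb440)) e) e) e) e) e) e)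
  e) e))) (c (c (c (c (c (c (c (c (c (p (nat_lit 0x5780e4a)) (c (p (nat_lit 0x666168)) e)) (c (c (p (nat_lit
  0x61c770)) e) e)) (c (c (c (p (nat_lit 0x61c788)) e) e) e)) (c (c (c (c (p (nat_lit 0xea8b38)) e) e) e) e))
  (c (c (c (c (c (m (nat_lit 0x20ff790)) e) e) e) e) e)) (c (c (c (c (c (c (m (nat_lit 0x20ff790)) e) e) e)
  e) e) e)) (c (c (c (c (c (c (c (m (nat_lit 0x7f0bba)) e) e) e) e) e) e) e)) (c (c (c (c (c (c (c (c (p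
  (nat_lit 0xf6d1b8)) e) e) e) e) e) e) e) e)) (c (c (c (c (c (c (c (c (c (m (nat_lit 0x18c4398)) e) e) e) e)
  e) e) e) e) e)))))

noncomputable def gt_0_6 : Tr := (c gt_0_6_6 (c gt_0_6_7 e))

noncomputable def gt_0_7_7 : Tr :=
  (c (c (c (c (c (c (c (c (c (m (nat_lit 0x9bc2d34)) (c (m (nat_lit 0x1d7f07e)) (c (p (nat_lit 0x1c889a0))
  e))) (c (c (m (nat_lit 0x1d7f07e)) (c (m (nat_lit 0x4652a0)) e)) (c (c (p (nat_lit 0x1c88a30)) e) e))) (c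
  (c (c (p (nat_lit 0x4869342)) (c (m (nat_lit 0x4652a0)) e)) (c (c (m (nat_lit 0x4652a0)) e) e)) (c (c (c (p
  (nat_lit 0x1c889d0)) e) e) e))) (c (c (c (c (m (nat_lit 0x1d7f07e)) (c (p (nat_lit 0x90b3628)) (c (m
  (nat_lit 0x5ff25c0)) e))) (c (c (m (nat_lit 0x446dc6)) (c (m (nat_lit 0x193ed20)) e)) (c (c (p (nat_lit
  0x490980)) e) e))) (c (c (c (m (nat_lit 0x2312532)) (c (m (nat_lit 0x193ed20)) e)) (c (c (m (nat_lit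
  0xd9aa0)) e) e)) (c (c (c (p (nat_lit 0x490a40)) e) e) e))) (c (c (c (c (p (nat_lit 0x1c889a0)) (c (m
  (nat_lit 0x5ff25c0)) (c (p (nat_lit 0x74d23a0)) e))) (c (c (p (nat_lit 0x490a40)) (c (m (nat_lit 0x1f5a80))
  e)) (c (c (p (nat_lit 0x54e160)) e) e))) (c (c (c (p (nat_lit 0x490a40)) (c (m (nat_lit 0x1f5a80)) e)) (c
  (c (m (nat_lit 0x1574ac0)) e) e)) (c (c (c (p (nat_lit 0x54e0a0)) e) e) e))) e))) (c (c (c (c (c (m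
  (nat_lit 0x1d7f07e)) (c (m (nat_lit 0x446dc6)) (c (p (nat_lit 0x490a40)) e))) (c (c (p (nat_lit 0x90b3568))
  (c (m (nat_lit 0x193ecc0)) e)) (c (c (m (nat_lit 0x5ff25c0)) e) e))) (c (c (c (m (nat_lit 0x23124d2)) (c (m
  (nat_lit 0xd9b00)) e)) (c (c (m (nat_lit 0x193ed20)) e) e)) (c (c (c (p (nat_lit 0x4909e0)) e) e) e))) (c
  (c (c (c (m (nat_lit 0x4652a0)) (c (m (nat_lit 0x193ed20)) (c (m (nat_lit 0x1f5a80)) e))) (c (c (m (nat_lit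
  0x193ecc0)) (c (p (nat_lit 0x2e7c0a0)) e)) (c (c (m (nat_lit 0x1f5a80)) e) e))) (c (c (c (m (nat_lit
  0xd9b00)) (c (p (nat_lit 0x410d60)) e)) (c (c (p (nat_lit 0x410d60)) e) e)) (c (c (c (m (nat_lit
  0x1574a60)) e) e) e))) e)) (c (c (c (c (c (p (nat_lit 0x1c88a30)) (c (p (nat_lit 0x490980)) (c (p (nat_lit
  0x54e160)) e))) (c (c (m (nat_lit 0x5ff25c0)) (c (m (nat_lit 0x1f5a80)) e)) (c (c (p (nat_lit 0x74d2400))
  e) e))) (c (c (c (p (nat_lit 0x4909e0)) (c (m (nat_lit 0x1574ac0)) e)) (c (c (m (nat_lit 0x1f5a80)) e) e))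
  (c (c (c (p (nat_lit 0x54e160)) e) e) e))) e) e))) (c (c (c (c (c (c (p (nat_lit 0x4869342)) (c (m (nat_lit
  0x2312532)) (c (p (nat_lit 0x490a40)) e))) (c (c (m (nat_lit 0x23124d2)) (c (m (nat_lit 0xd9b00)) e)) (c (c
  (p (nat_lit 0x4909e0)) e) e))) (c (c (c (p (nat_lit 0x6ede6f4)) (c (m (nat_lit 0x193ed20)) e)) (c (c (m
  (nat_lit 0x193ecc0)) e) e)) (c (c (c (m (nat_lit 0x5ff2560)) e) e) e))) (c (c (c (c (m (nat_lit 0x4652a0))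
  (c (m (nat_lit 0x193ed20)) (c (m (nat_lit 0x1f5a80)) e))) (c (c (m (nat_lit 0xd9b00)) (c (p (nat_lit
  0x410d60)) e)) (c (c (m (nat_lit 0x1574ac0)) e) e))) (c (c (c (m (nat_lit 0x193ed20)) (c (p (nat_lit
  0x2e7c0a0)) e)) (c (c (p (nat_lit 0x410d60)) e) e)) (c (c (c (m (nat_lit 0x1f5ae0)) e) e) e))) e)) (c (c (c
  (c (c (m (nat_lit 0x4652a0)) (c (m (nat_lit 0xd9aa0)) (c (m (nat_lit 0x1574ac0)) e))) (c (c (m (nat_lit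
  0x193ed20)) (c (p (nat_lit 0x410d60)) e)) (c (c (m (nat_lit 0x1f5a80)) e) e))) (c (c (c (m (nat_lit
  0x193ecc0)) (c (p (nat_lit 0x410d60)) e)) (c (c (p (nat_lit 0x2e7c0a0)) e) e)) (c (c (c (m (nat_lit
  0x1f5a80)) e) e) e))) e) e)) (c (c (c (c (c (c (p (nat_lit 0x1c889d0)) (c (p (nat_lit 0x490a40)) (c (p
  (nat_lit 0x54e0a0)) e))) (c (c (p (nat_lit 0x4909e0)) (c (m (nat_lit 0x1574a60)) e)) (c (c (p (nat_lit
  0x54e160)) e) e))) (c (c (c (m (nat_lit 0x5ff2560)) (c (m (nat_lit 0x1f5ae0)) e)) (c (c (m (nat_lit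
  0x1f5a80)) e) e)) (c (c (c (p (nat_lit 0x74d2340)) e) e) e))) e) e) e))) (c (c (c (c (c (c (c (p (nat_lit
  0x1cd698b6)) (c (m (nat_lit 0x6f8952)) (c (m (nat_lit 0x10c46d0)) e))) (c (c (m (nat_lit 0x6f8892)) (c (p
  (nat_lit 0x9a3c20)) e)) (c (c (m (nat_lit 0x10c46d0)) e) e))) (c (c (c (m (nat_lit 0x14b85d24)) (c (p
  (nat_lit 0x123f600)) e)) (c (c (p (nat_lit 0x123f600)) e) e)) (c (c (c (m (nat_lit 0x913dd0)) e) e) e))) (c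
  (c (c (c (m (nat_lit 0x6f8952)) (c (p (nat_lit 0x899cdf6)) (c (m (nat_lit 0x3e26e0)) e))) (c (c (m (nat_lit
  0x174f468)) (c (p (nat_lit 0x2b2000)) e)) (c (c (p (nat_lit 0x54ca80)) e) e))) (c (c (c (p (nat_lit
  0x51fa06e)) (c (m (nat_lit 0x21ff00)) e)) (c (c (p (nat_lit 0xc480c0)) e) e)) (c (c (c (m (nat_lit
  0xd1bb60)) e) e) e))) (c (c (c (c (m (nat_lit 0x10c46d0)) (c (m (nat_lit 0x3e26e0)) e)) (c (c (p (nat_lit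
  0x54ca80)) e) e)) (c (c (c (m (nat_lit 0x583f20)) e) e) e)) e))) (c (c (c (c (c (m (nat_lit 0x6f8892)) (c
  (m (nat_lit 0x174f468)) (c (p (nat_lit 0x54ca80)) e))) (c (c (p (nat_lit 0x899cd36)) (c (p (nat_lit
  0x2b2000)) e)) (c (c (m (nat_lit 0x3e26e0)) e) e))) (c (c (c (p (nat_lit 0x51fa0ce)) (c (p (nat_lit
  0xc480c0)) e)) (c (c (m (nat_lit 0x21ff00)) e) e)) (c (c (c (m (nat_lit 0xd1bb60)) e) e) e))) (c (c (c (c
  (p (nat_lit 0x9a3c20)) (c (p (nat_lit 0x2b2000)) e)) (c (c (p (nat_lit 0x2b2000)) e) e)) (c (c (c (p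
  (nat_lit 0x501c00)) e) e) e)) e)) (c (c (c (c (c (m (nat_lit 0x10c46d0)) (c (p (nat_lit 0x54ca80)) e)) (c
  (c (m (nat_lit 0x3e26e0)) e) e)) (c (c (c (m (nat_lit 0x583f20)) e) e) e)) e) e))) (c (c (c (c (c (c (m
  (nat_lit 0x14b85d24)) (c (p (nat_lit 0x51fa06e)) (c (m (nat_lit 0x583f20)) e))) (c (c (p (nat_lit
  0x51fa0ce)) (c (p (nat_lit 0x501c00)) e)) (c (c (m (nat_lit 0x583f20)) e) e))) (c (c (c (p (nat_lit
  0xf0a8408)) (c (p (nat_lit 0x56be00)) e)) (c (c (p (nat_lit 0x56be00)) e) e)) (c (c (c (p (nat_lit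
  0x28ae20)) e) e) e))) (c (c (c (c (p (nat_lit 0x123f600)) (c (m (nat_lit 0x21ff00)) e)) (c (c (p (nat_lit
  0xc480c0)) e) e)) (c (c (c (p (nat_lit 0x56be00)) e) e) e)) e)) (c (c (c (c (c (p (nat_lit 0x123f600)) (c
  (p (nat_lit 0xc480c0)) e)) (c (c (m (nat_lit 0x21ff00)) e) e)) (c (c (c (p (nat_lit 0x56be00)) e) e) e)) e)
  e)) (c (c (c (c (c (c (m (nat_lit 0x913dd0)) (c (m (nat_lit 0xd1bb60)) e)) (c (c (m (nat_lit 0xd1bb60)) e)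
  e)) (c (c (c (p (nat_lit 0x28ae20)) e) e) e)) e) e) e))) (c (c (c (c (c (c (c (m (nat_lit 0x27565d4)) (c (m
  (nat_lit 0xcd00ce)) (c (p (nat_lit 0x9b23e0)) e))) (c (c (m (nat_lit 0xcd012e)) (c (p (nat_lit 0x4d7750))
  e)) (c (c (p (nat_lit 0x9b2410)) e) e))) (c (c (c (p (nat_lit 0x5193930)) (c (m (nat_lit 0x940230)) e)) (c
  (c (m (nat_lit 0x940230)) e) e)) (c (c (c (p (nat_lit 0x10e4470)) e) e) e))) (c (c (c (c (m (nat_lit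
  0xcd00ce)) (c (m (nat_lit 0x2d0b05e)) e)) (c (c (m (nat_lit 0xa26852)) e) e)) (c (c (c (m (nat_lit
  0x1005a5c)) e) e) e)) (c (c (c (c (p (nat_lit 0x9b23e0)) e) e) e) e))) (c (c (c (c (c (m (nat_lit
  0xcd012e)) (c (m (nat_lit 0xa26852)) e)) (c (c (m (nat_lit 0x2d0b05e)) e) e)) (c (c (c (m (nat_lit
  0x1005a5c)) e) e) e)) (c (c (c (c (p (nat_lit 0x4d7750)) e) e) e) e)) (c (c (c (c (c (p (nat_lit 0x9b2410))
  e) e) e) e) e))) (c (c (c (c (c (c (p (nat_lit 0x5193930)) (c (m (nat_lit 0x1005a5c)) e)) (c (c (m (nat_lit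
  0x1005a5c)) e) e)) (c (c (c (m (nat_lit 0x9efb35c)) e) e) e)) (c (c (c (c (m (nat_lit 0x940230)) e) e) e)
  e)) (c (c (c (c (c (m (nat_lit 0x940230)) e) e) e) e) e)) (c (c (c (c (c (c (p (nat_lit 0x10e4470)) e) e)
  e) e) e) e))) (c (c (c (c (c (c (c (m (nat_lit 0x38cdb0a)) (c (m (nat_lit 0x20f4792)) e)) (c (c (m (nat_lit
  0x20f4792)) e) e)) (c (c (c (p (nat_lit 0x5a7b8e2)) e) e) e)) (c (c (c (c (m (nat_lit 0x20f4792)) e) e) e)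
  e)) (c (c (c (c (c (m (nat_lit 0x20f4792)) e) e) e) e) e)) (c (c (c (c (c (c (p (nat_lit 0x5a7b8e2)) e) e)
  e) e) e) e)) (c (c (c (c (c (c (c (m (nat_lit 0x4087b84)) e) e) e) e) e) e) e))))) (c (c (c (c (c (c (c (c
  (p (nat_lit 0x12cf2034)) (c (p (nat_lit 0x4e9fe5e)) (c (m (nat_lit 0x10c47c0)) e))) (c (c (m (nat_lit
  0x6c8b740)) (c (p (nat_lit 0x123f600)) e)) (c (c (m (nat_lit 0x913e60)) e) e))) (c (c (c (m (nat_lit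
  0x6fbd34e)) (c (p (nat_lit 0x9a3c20)) e)) (c (c (p (nat_lit 0x123f660)) e) e)) (c (c (c (m (nat_lit
  0x10c4700)) e) e) e))) (c (c (c (c (p (nat_lit 0x4e9fe5e)) (c (p (nat_lit 0x34fc938)) (c (m (nat_lit
  0x3e26e0)) e))) (c (c (p (nat_lit 0x2819226)) (c (m (nat_lit 0x21ff00)) e)) (c (c (m (nat_lit 0xd1bb60)) e)
  e))) (c (c (c (m (nat_lit 0x80902e)) (c (p (nat_lit 0x2b2000)) e)) (c (c (p (nat_lit 0xc480c0)) e) e)) (c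
  (c (c (p (nat_lit 0x54ca80)) e) e) e))) (c (c (c (c (m (nat_lit 0x10c47c0)) (c (m (nat_lit 0x3e26e0)) e))
  (c (c (m (nat_lit 0x583fe0)) e) e)) (c (c (c (p (nat_lit 0x54ca80)) e) e) e)) e))) (c (c (c (c (c (m
  (nat_lit 0x6c8b740)) (c (p (nat_lit 0x2819226)) (c (m (nat_lit 0x583fe0)) e))) (c (c (m (nat_lit
  0x4def188)) (c (p (nat_lit 0x56be00)) e)) (c (c (p (nat_lit 0x28adc0)) e) e))) (c (c (c (p (nat_lit
  0x46e4992)) (c (p (nat_lit 0x501ba0)) e)) (c (c (p (nat_lit 0x56be60)) e) e)) (c (c (c (m (nat_lit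
  0x583fe0)) e) e) e))) (c (c (c (c (p (nat_lit 0x123f600)) (c (m (nat_lit 0x21ff00)) e)) (c (c (p (nat_lit
  0x56be00)) e) e)) (c (c (c (p (nat_lit 0xc480c0)) e) e) e)) e)) (c (c (c (c (c (m (nat_lit 0x913e60)) (c (m
  (nat_lit 0xd1bb60)) e)) (c (c (p (nat_lit 0x28adc0)) e) e)) (c (c (c (m (nat_lit 0xd1bb60)) e) e) e)) e)
  e))) (c (c (c (c (c (c (m (nat_lit 0x6fbd34e)) (c (m (nat_lit 0x80902e)) (c (p (nat_lit 0x54ca80)) e))) (c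
  (c (p (nat_lit 0x46e4992)) (c (p (nat_lit 0xc480c0)) e)) (c (c (m (nat_lit 0xd1bb60)) e) e))) (c (c (c (p
  (nat_lit 0x56d180c)) (c (p (nat_lit 0x2b2000)) e)) (c (c (m (nat_lit 0x21ff00)) e) e)) (c (c (c (m (nat_lit
  0x3e26e0)) e) e) e))) (c (c (c (c (p (nat_lit 0x9a3c20)) (c (p (nat_lit 0x2b2000)) e)) (c (c (p (nat_lit
  0x501ba0)) e) e)) (c (c (c (p (nat_lit 0x2b2000)) e) e) e)) e)) (c (c (c (c (c (p (nat_lit 0x123f660)) (c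
  (p (nat_lit 0xc480c0)) e)) (c (c (p (nat_lit 0x56be60)) e) e)) (c (c (c (m (nat_lit 0x21ff00)) e) e) e)) e)
  e)) (c (c (c (c (c (c (m (nat_lit 0x10c4700)) (c (p (nat_lit 0x54ca80)) e)) (c (c (m (nat_lit 0x583fe0)) e)
  e)) (c (c (c (m (nat_lit 0x3e26e0)) e) e) e)) e) e) e))) (c (c (c (c (c (c (c (m (nat_lit 0x32b45458)) (c
  (m (nat_lit 0x5b664be)) (c (p (nat_lit 0x10e3c00)) e))) (c (c (p (nat_lit 0x7d14584)) (c (m (nat_lit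
  0x606a80)) e)) (c (c (m (nat_lit 0x129eb80)) e) e))) (c (c (c (p (nat_lit 0x104ed040)) (c (m (nat_lit
  0x606a80)) e)) (c (c (m (nat_lit 0x12220e0)) e) e)) (c (c (c (m (nat_lit 0x129eb80)) e) e) e))) (c (c (c (c
  (m (nat_lit 0x5b664be)) (c (m (nat_lit 0x3963378)) e)) (c (c (m (nat_lit 0xa5577e)) e) e)) (c (c (c (m
  (nat_lit 0x2920f4a)) e) e) e)) (c (c (c (c (p (nat_lit 0x10e3c00)) e) e) e) e))) (c (c (c (c (c (p (nat_lit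
  0x7d14584)) (c (m (nat_lit 0xa5577e)) e)) (c (c (m (nat_lit 0x401cc88)) e) e)) (c (c (c (m (nat_lit
  0x5a530ca)) e) e) e)) (c (c (c (c (m (nat_lit 0x606a80)) e) e) e) e)) (c (c (c (c (c (m (nat_lit
  0x129eb80)) e) e) e) e) e))) (c (c (c (c (c (c (p (nat_lit 0x104ed040)) (c (m (nat_lit 0x2920f4a)) e)) (c
  (c (m (nat_lit 0x5a530ca)) e) e)) (c (c (c (m (nat_lit 0x61f1b5c)) e) e) e)) (c (c (c (c (m (nat_lit
  0x606a80)) e) e) e) e)) (c (c (c (c (c (m (nat_lit 0x12220e0)) e) e) e) e) e)) (c (c (c (c (c (c (m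
  (nat_lit 0x129eb80)) e) e) e) e) e) e))) (c (c (c (c (c (c (c (p (nat_lit 0xe640c4e)) (c (p (nat_lit
  0x4ad1788)) e)) (c (c (p (nat_lit 0xb1ca44)) e) e)) (c (c (c (m (nat_lit 0x4d1a632)) e) e) e)) (c (c (c (c
  (p (nat_lit 0x4ad1788)) e) e) e) e)) (c (c (c (c (c (p (nat_lit 0xb1ca44)) e) e) e) e) e)) (c (c (c (c (c
  (c (m (nat_lit 0x4d1a632)) e) e) e) e) e) e)) (c (c (c (c (c (c (c (p (nat_lit 0xcb3527e)) e) e) e) e) e)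
  e) e)))) (c (c (c (c (c (c (c (c (p (nat_lit 0x130bc06)) (c (m (nat_lit 0x85dc670)) (c (p (nat_lit
  0x9b2500)) e))) (c (c (p (nat_lit 0x589c4ee)) (c (m (nat_lit 0x940200)) e)) (c (c (p (nat_lit 0x10e4560))
  e) e))) (c (c (c (m (nat_lit 0x2d67974)) (c (p (nat_lit 0x4d7720)) e)) (c (c (m (nat_lit 0x940260)) e) e))
  (c (c (c (p (nat_lit 0x9b2440)) e) e) e))) (c (c (c (c (m (nat_lit 0x85dc670)) (c (p (nat_lit 0x27953a0))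
  e)) (c (c (m (nat_lit 0x4f0260)) e) e)) (c (c (c (p (nat_lit 0x55ea80)) e) e) e)) (c (c (c (c (p (nat_lit
  0x9b2500)) e) e) e) e))) (c (c (c (c (c (p (nat_lit 0x589c4ee)) (c (m (nat_lit 0x4f0260)) e)) (c (c (p
  (nat_lit 0x7dc74e0)) e) e)) (c (c (c (m (nat_lit 0x4f0260)) e) e) e)) (c (c (c (c (m (nat_lit 0x940200)) e)
  e) e) e)) (c (c (c (c (c (p (nat_lit 0x10e4560)) e) e) e) e) e))) (c (c (c (c (c (c (m (nat_lit 0x2d67974))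
  (c (p (nat_lit 0x55ea80)) e)) (c (c (m (nat_lit 0x4f0260)) e) e)) (c (c (c (p (nat_lit 0x27953a0)) e) e)
  e)) (c (c (c (c (p (nat_lit 0x4d7720)) e) e) e) e)) (c (c (c (c (c (m (nat_lit 0x940260)) e) e) e) e) e))
  (c (c (c (c (c (c (p (nat_lit 0x9b2440)) e) e) e) e) e) e))) (c (c (c (c (c (c (c (p (nat_lit 0x3081907e))
  (c (p (nat_lit 0x30141d8)) e)) (c (c (m (nat_lit 0x3048426)) e) e)) (c (c (c (p (nat_lit 0x5fe4c4)) e) e)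
  e)) (c (c (c (c (p (nat_lit 0x30141d8)) e) e) e) e)) (c (c (c (c (c (m (nat_lit 0x3048426)) e) e) e) e) e))
  (c (c (c (c (c (c (p (nat_lit 0x5fe4c4)) e) e) e) e) e) e)) (c (c (c (c (c (c (c (m (nat_lit 0x22fa5b84))
  e) e) e) e) e) e) e))) (c (c (c (c (c (c (c (c (m (nat_lit 0xaed70d6)) (c (p (nat_lit 0x27f6c0)) e)) (c (c
  (m (nat_lit 0x259f5c0)) e) e)) (c (c (c (p (nat_lit 0x27f6c0)) e) e) e)) (c (c (c (c (p (nat_lit 0x27f6c0))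
  e) e) e) e)) (c (c (c (c (c (m (nat_lit 0x259f5c0)) e) e) e) e) e)) (c (c (c (c (c (c (p (nat_lit
  0x27f6c0)) e) e) e) e) e) e)) (c (c (c (c (c (c (c (m (nat_lit 0x64e3822)) e) e) e) e) e) e) e)) (c (c (c
  (c (c (c (c (c (p (nat_lit 0x9b97120)) e) e) e) e) e) e) e) e))))) (c (c (c (c (c (c (c (c (c (p (nat_lit
  0x12cf2034)) (c (m (nat_lit 0x6c8b770)) (c (m (nat_lit 0x913ce0)) e))) (c (c (p (nat_lit 0x4e9fd0e)) (c (p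
  (nat_lit 0x123f660)) e)) (c (c (m (nat_lit 0x10c4700)) e) e))) (c (c (c (m (nat_lit 0x6fbd31e)) (c (p
  (nat_lit 0x123f600)) e)) (c (c (p (nat_lit 0x9a3bc0)) e) e)) (c (c (c (m (nat_lit 0x10c46a0)) e) e) e))) (c
  (c (c (c (m (nat_lit 0x6c8b770)) (c (m (nat_lit 0x4def308)) (c (p (nat_lit 0x28ae20)) e))) (c (c (p
  (nat_lit 0x28191c6)) (c (p (nat_lit 0x56be00)) e)) (c (c (m (nat_lit 0x583f80)) e) e))) (c (c (c (p
  (nat_lit 0x46e48d2)) (c (p (nat_lit 0x56be00)) e)) (c (c (p (nat_lit 0x501ba0)) e) e)) (c (c (c (m (nat_lit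
  0x583f80)) e) e) e))) (c (c (c (c (m (nat_lit 0x913ce0)) (c (p (nat_lit 0x28ae20)) e)) (c (c (m (nat_lit
  0xd1bb60)) e) e)) (c (c (c (m (nat_lit 0xd1bb60)) e) e) e)) e))) (c (c (c (c (c (p (nat_lit 0x4e9fd0e)) (c
  (p (nat_lit 0x28191c6)) (c (m (nat_lit 0xd1bb60)) e))) (c (c (p (nat_lit 0x34fc9f8)) (c (m (nat_lit
  0x21ff00)) e)) (c (c (m (nat_lit 0x3e26e0)) e) e))) (c (c (c (m (nat_lit 0x808fce)) (c (p (nat_lit
  0xc480c0)) e)) (c (c (p (nat_lit 0x2b2000)) e) e)) (c (c (c (p (nat_lit 0x54ca80)) e) e) e))) (c (c (c (c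
  (p (nat_lit 0x123f660)) (c (p (nat_lit 0x56be00)) e)) (c (c (m (nat_lit 0x21ff00)) e) e)) (c (c (c (p
  (nat_lit 0xc480c0)) e) e) e)) e)) (c (c (c (c (c (m (nat_lit 0x10c4700)) (c (m (nat_lit 0x583f80)) e)) (c
  (c (m (nat_lit 0x3e26e0)) e) e)) (c (c (c (p (nat_lit 0x54ca80)) e) e) e)) e) e))) (c (c (c (c (c (c (m
  (nat_lit 0x6fbd31e)) (c (p (nat_lit 0x46e48d2)) (c (m (nat_lit 0xd1bb60)) e))) (c (c (m (nat_lit 0x808fce))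
  (c (p (nat_lit 0xc480c0)) e)) (c (c (p (nat_lit 0x54ca80)) e) e))) (c (c (c (p (nat_lit 0x56d180c)) (c (m
  (nat_lit 0x21ff00)) e)) (c (c (p (nat_lit 0x2b2000)) e) e)) (c (c (c (m (nat_lit 0x3e26e0)) e) e) e))) (c
  (c (c (c (p (nat_lit 0x123f600)) (c (p (nat_lit 0x56be00)) e)) (c (c (p (nat_lit 0xc480c0)) e) e)) (c (c (c
  (m (nat_lit 0x21ff00)) e) e) e)) e)) (c (c (c (c (c (p (nat_lit 0x9a3bc0)) (c (p (nat_lit 0x501ba0)) e)) (c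
  (c (p (nat_lit 0x2b2000)) e) e)) (c (c (c (p (nat_lit 0x2b2000)) e) e) e)) e) e)) (c (c (c (c (c (c (m
  (nat_lit 0x10c46a0)) (c (m (nat_lit 0x583f80)) e)) (c (c (p (nat_lit 0x54ca80)) e) e)) (c (c (c (m (nat_lit
  0x3e26e0)) e) e) e)) e) e) e))) (c (c (c (c (c (c (c (m (nat_lit 0x32bc6224)) (c (p (nat_lit 0x7ceb4fc)) (c
  (m (nat_lit 0x129eb20)) e))) (c (c (m (nat_lit 0x5ac4044)) (c (m (nat_lit 0x606ae0)) e)) (c (c (p (nat_lit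
  0x10e3c00)) e) e))) (c (c (c (p (nat_lit 0x104c4054)) (c (m (nat_lit 0x1222140)) e)) (c (c (m (nat_lit
  0x606ae0)) e) e)) (c (c (c (m (nat_lit 0x129eb80)) e) e) e))) (c (c (c (c (p (nat_lit 0x7ceb4fc)) (c (m
  (nat_lit 0x4140138)) e)) (c (c (m (nat_lit 0x9dcaa6)) e) e)) (c (c (c (m (nat_lit 0x59a8592)) e) e) e)) (c
  (c (c (c (m (nat_lit 0x129eb20)) e) e) e) e))) (c (c (c (c (c (m (nat_lit 0x5ac4044)) (c (m (nat_lit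
  0x9dcaa6)) e)) (c (c (m (nat_lit 0x3b0adf8)) e) e)) (c (c (c (m (nat_lit 0x28a8212)) e) e) e)) (c (c (c (c
  (m (nat_lit 0x606ae0)) e) e) e) e)) (c (c (c (c (c (p (nat_lit 0x10e3c00)) e) e) e) e) e))) (c (c (c (c (c
  (c (p (nat_lit 0x104c4054)) (c (m (nat_lit 0x59a8592)) e)) (c (c (m (nat_lit 0x28a8212)) e) e)) (c (c (c (m
  (nat_lit 0x6314f4c)) e) e) e)) (c (c (c (c (m (nat_lit 0x1222140)) e) e) e) e)) (c (c (c (c (c (m (nat_lit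
  0x606ae0)) e) e) e) e) e)) (c (c (c (c (c (c (m (nat_lit 0x129eb80)) e) e) e) e) e) e))) (c (c (c (c (c (c
  (c (p (nat_lit 0xe78c256)) (c (p (nat_lit 0x89aa44)) e)) (c (c (p (nat_lit 0x497c6a6)) e) e)) (c (c (c (m
  (nat_lit 0x49b7626)) e) e) e)) (c (c (c (c (p (nat_lit 0x89aa44)) e) e) e) e)) (c (c (c (c (c (p (nat_lit
  0x497c6a6)) e) e) e) e) e)) (c (c (c (c (c (c (m (nat_lit 0x49b7626)) e) e) e) e) e) e)) (c (c (c (c (c (c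
  (c (p (nat_lit 0x797e5ba)) e) e) e) e) e) e) e)))) (c (c (c (c (c (c (c (c (m (nat_lit 0x155731bc)) (c (p
  (nat_lit 0x1501ede)) (c (m (nat_lit 0x129ebe0)) e))) (c (c (p (nat_lit 0x1501f9e)) (c (m (nat_lit
  0x12220e0)) e)) (c (c (m (nat_lit 0x129ebe0)) e) e))) (c (c (c (p (nat_lit 0x5c4ff78)) (c (m (nat_lit
  0x606ae0)) e)) (c (c (m (nat_lit 0x606a80)) e) e)) (c (c (c (p (nat_lit 0x10e3c00)) e) e) e))) (c (c (c (c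
  (p (nat_lit 0x1501ede)) (c (p (nat_lit 0x57f00)) e)) (c (c (m (nat_lit 0x3788400)) e) e)) (c (c (c (m
  (nat_lit 0x687fc0)) e) e) e)) (c (c (c (c (m (nat_lit 0x129ebe0)) e) e) e) e))) (c (c (c (c (c (p (nat_lit
  0x1501f9e)) (c (m (nat_lit 0x3788400)) e)) (c (c (p (nat_lit 0x57e40)) e) e)) (c (c (c (m (nat_lit
  0x688020)) e) e) e)) (c (c (c (c (m (nat_lit 0x12220e0)) e) e) e) e)) (c (c (c (c (c (m (nat_lit
  0x129ebe0)) e) e) e) e) e))) (c (c (c (c (c (c (p (nat_lit 0x5c4ff78)) (c (m (nat_lit 0x687fc0)) e)) (c (c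
  (m (nat_lit 0x688020)) e) e)) (c (c (c (p (nat_lit 0x68d180)) e) e) e)) (c (c (c (c (m (nat_lit 0x606ae0))
  e) e) e) e)) (c (c (c (c (c (m (nat_lit 0x606a80)) e) e) e) e) e)) (c (c (c (c (c (c (p (nat_lit
  0x10e3c00)) e) e) e) e) e) e))) (c (c (c (c (c (c (c (m (nat_lit 0xbc39cdc)) (c (p (nat_lit 0x1c267c2)) e))
  (c (c (p (nat_lit 0x1efbfe2)) e) e)) (c (c (c (m (nat_lit 0x25a32f8)) e) e) e)) (c (c (c (c (p (nat_lit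
  0x1c267c2)) e) e) e) e)) (c (c (c (c (c (p (nat_lit 0x1efbfe2)) e) e) e) e) e)) (c (c (c (c (c (c (m
  (nat_lit 0x25a32f8)) e) e) e) e) e) e)) (c (c (c (c (c (c (c (p (nat_lit 0x743bd58)) e) e) e) e) e) e) e)))
  (c (c (c (c (c (c (c (c (p (nat_lit 0x9c0d146)) (c (p (nat_lit 0x179b8c0)) e)) (c (c (m (nat_lit 0x4f0680))
  e) e)) (c (c (c (m (nat_lit 0x1596780)) e) e) e)) (c (c (c (c (p (nat_lit 0x179b8c0)) e) e) e) e)) (c (c (c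
  (c (c (m (nat_lit 0x4f0680)) e) e) e) e) e)) (c (c (c (c (c (c (m (nat_lit 0x1596780)) e) e) e) e) e) e))
  (c (c (c (c (c (c (c (p (nat_lit 0x4089ba)) e) e) e) e) e) e) e)) (c (c (c (c (c (c (c (c (m (nat_lit
  0x28dbb00)) e) e) e) e) e) e) e) e)))) (c (c (c (c (c (c (c (c (c (p (nat_lit 0x130b9c6)) (c (p (nat_lit
  0x589c5ae)) (c (p (nat_lit 0x10e4440)) e))) (c (c (m (nat_lit 0x85dc550)) (c (m (nat_lit 0x940200)) e)) (c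
  (c (p (nat_lit 0x9b2440)) e) e))) (c (c (c (m (nat_lit 0x2d67854)) (c (m (nat_lit 0x940200)) e)) (c (c (p
  (nat_lit 0x4d7780)) e) e)) (c (c (c (p (nat_lit 0x9b2440)) e) e) e))) (c (c (c (c (p (nat_lit 0x589c5ae))
  (c (p (nat_lit 0x7dc7480)) e)) (c (c (m (nat_lit 0x4f0260)) e) e)) (c (c (c (m (nat_lit 0x4f0260)) e) e)
  e)) (c (c (c (c (p (nat_lit 0x10e4440)) e) e) e) e))) (c (c (c (c (c (m (nat_lit 0x85dc550)) (c (m (nat_lit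
  0x4f0260)) e)) (c (c (p (nat_lit 0x27953a0)) e) e)) (c (c (c (p (nat_lit 0x55ea80)) e) e) e)) (c (c (c (c
  (m (nat_lit 0x940200)) e) e) e) e)) (c (c (c (c (c (p (nat_lit 0x9b2440)) e) e) e) e) e))) (c (c (c (c (c
  (c (m (nat_lit 0x2d67854)) (c (m (nat_lit 0x4f0260)) e)) (c (c (p (nat_lit 0x55ea80)) e) e)) (c (c (c (p
  (nat_lit 0x27953a0)) e) e) e)) (c (c (c (c (m (nat_lit 0x940200)) e) e) e) e)) (c (c (c (c (c (p (nat_lit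
  0x4d7780)) e) e) e) e) e)) (c (c (c (c (c (c (p (nat_lit 0x9b2440)) e) e) e) e) e) e))) (c (c (c (c (c (c
  (c (p (nat_lit 0x30964590)) (c (m (nat_lit 0x2ce540e)) e)) (c (c (p (nat_lit 0x2ebf150)) e) e)) (c (c (c (p
  (nat_lit 0x37c434)) e) e) e)) (c (c (c (c (m (nat_lit 0x2ce540e)) e) e) e) e)) (c (c (c (c (c (p (nat_lit
  0x2ebf150)) e) e) e) e) e)) (c (c (c (c (c (c (p (nat_lit 0x37c434)) e) e) e) e) e) e)) (c (c (c (c (c (c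
  (c (m (nat_lit 0x191d7d16)) e) e) e) e) e) e) e))) (c (c (c (c (c (c (c (c (p (nat_lit 0x9c0cd86)) (c (m
  (nat_lit 0x4f0680)) e)) (c (c (p (nat_lit 0x179b860)) e) e)) (c (c (c (m (nat_lit 0x1596720)) e) e) e)) (c
  (c (c (c (m (nat_lit 0x4f0680)) e) e) e) e)) (c (c (c (c (c (p (nat_lit 0x179b860)) e) e) e) e) e)) (c (c
  (c (c (c (c (m (nat_lit 0x1596720)) e) e) e) e) e) e)) (c (c (c (c (c (c (c (p (nat_lit 0xbf609a)) e) e) e)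
  e) e) e) e)) (c (c (c (c (c (c (c (c (m (nat_lit 0x30d3da0)) e) e) e) e) e) e) e) e))) (c (c (c (c (c (c (c
  (c (c (m (nat_lit 0xaed6d16)) (c (m (nat_lit 0x259f5c0)) e)) (c (c (p (nat_lit 0x27f6c0)) e) e)) (c (c (c
  (p (nat_lit 0x27f6c0)) e) e) e)) (c (c (c (c (m (nat_lit 0x259f5c0)) e) e) e) e)) (c (c (c (c (c (p
  (nat_lit 0x27f6c0)) e) e) e) e) e)) (c (c (c (c (c (c (p (nat_lit 0x27f6c0)) e) e) e) e) e) e)) (c (c (c (c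
  (c (c (c (m (nat_lit 0xb69a4aa)) e) e) e) e) e) e) e)) (c (c (c (c (c (c (c (c (m (nat_lit 0x28db8c0)) e)
  e) e) e) e) e) e) e)) (c (c (c (c (c (c (c (c (c (p (nat_lit 0x9b96f40)) e) e) e) e) e) e) e) e) e)))))

noncomputable def gt_0_7 : Tr := (c gt_0_7_7 e)

noncomputable def gt_0 : Tr := (c gt_0_0 (c gt_0_1 (c gt_0_2 (c gt_0_3 (c gt_0_4 (c gt_0_5 (c gt_0_6 (c gt_0_7 e))))))))

end Dat

end HR
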