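import Pool.Agent.Lib.MP_a1b8b7_co.B.Poly

/-!
# Table of the G part, type 1
-/

set_option autoImplicit false
set_option maxRecDepth 1000000

namespace HR

namespace Dat

open Fl Fl.Tr

noncomputable def gt_1_0_0 : Tr :=
  (c (c (c (c (c (c (c (c (c (p (nat_lit 0xe52de6c)) (c (m (nat_lit 0x64ba6c2)) (c (p (nat_lit 0x89e79a))
  e))) (c (c (m (nat_lit 0x64ba25a)) (c (p (nat_lit 0x11db58c)) e)) (c (c (p (nat_lit 0x89e842)) e) e))) (c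
  (c (c (m (nat_lit 0x241c2e4)) (c (p (nat_lit 0x1f4eaee)) e)) (c (c (p (nat_lit 0x1f4e5d2)) e) e)) (c (c (c
  (m (nat_lit 0xb023830)) e) e) e))) (c (c (c (c (m (nat_lit 0x64ba6c2)) (c (p (nat_lit 0x12b4e0ee)) (c (m
  (nat_lit 0x1c8bbbc)) e))) (c (c (m (nat_lit 0x543c336)) (c (m (nat_lit 0x15646b0)) e)) (c (c (m (nat_lit
  0x14fe69e)) e) e))) (c (c (c (p (nat_lit 0x713e7a)) (c (m (nat_lit 0x134cfd6)) e)) (c (c (m (nat_lit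
  0x43a340)) e) e)) (c (c (c (p (nat_lit 0x3678180)) e) e) e))) (c (c (c (c (p (nat_lit 0x89e79a)) (c (m
  (nat_lit 0x1c8bbbc)) (c (p (nat_lit 0x8c9d756)) e))) (c (c (m (nat_lit 0x14fe620)) (c (p (nat_lit
  0x559d4c)) e)) (c (c (m (nat_lit 0x252b16c)) e) e))) (c (c (c (m (nat_lit 0x1184f64)) (c (m (nat_lit
  0x2352b28)) e)) (c (c (p (nat_lit 0x921edc)) e) e)) (c (c (c (p (nat_lit 0x64e12)) e) e) e))) e))) (c (c (c
  (c (c (m (nat_lit 0x64ba25a)) (c (m (nat_lit 0x543c336)) (c (m (nat_lit 0x14fe620)) e))) (c (c (p (nat_lit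
  0x12b4e4f0)) (c (m (nat_lit 0x15646aa)) e)) (c (c (m (nat_lit 0x1c8bafc)) e) e))) (c (c (c (p (nat_lit
  0x713592)) (c (m (nat_lit 0x43a2e6)) e)) (c (c (m (nat_lit 0x134cf70)) e) e)) (c (c (c (p (nat_lit
  0x36780f0)) e) e) e))) (c (c (c (c (p (nat_lit 0x11db58c)) (c (m (nat_lit 0x15646b0)) (c (p (nat_lit
  0x559d4c)) e))) (c (c (m (nat_lit 0x15646aa)) (c (p (nat_lit 0x3e4d3a4)) e)) (c (c (p (nat_lit 0x559d40))
  e) e))) (c (c (c (m (nat_lit 0x2536bde)) (c (p (nat_lit 0x2073f0)) e)) (c (c (p (nat_lit 0x2073b4)) e) e))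
  (c (c (c (p (nat_lit 0x1be5b6)) e) e) e))) e)) (c (c (c (c (c (p (nat_lit 0x89e842)) (c (m (nat_lit
  0x14fe69e)) (c (m (nat_lit 0x252b16c)) e))) (c (c (m (nat_lit 0x1c8bafc)) (c (p (nat_lit 0x559d40)) e)) (c
  (c (p (nat_lit 0x8c9d762)) e) e))) (c (c (c (m (nat_lit 0x1184f88)) (c (p (nat_lit 0x921f12)) e)) (c (c (m
  (nat_lit 0x2352b3a)) e) e)) (c (c (c (p (nat_lit 0x64dca)) e) e) e))) e) e))) (c (c (c (c (c (c (m (nat_lit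
  0x241c2e4)) (c (p (nat_lit 0x713e7a)) (c (m (nat_lit 0x1184f64)) e))) (c (c (p (nat_lit 0x713592)) (c (m
  (nat_lit 0x2536bde)) e)) (c (c (m (nat_lit 0x1184f88)) e) e))) (c (c (c (p (nat_lit 0xb1968a6)) (c (m
  (nat_lit 0x15b529c)) e)) (c (c (m (nat_lit 0x15b4948)) e) e)) (c (c (c (m (nat_lit 0x124d796)) e) e) e)))
  (c (c (c (c (p (nat_lit 0x1f4eaee)) (c (m (nat_lit 0x134cfd6)) (c (m (nat_lit 0x2352b28)) e))) (c (c (m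
  (nat_lit 0x43a2e6)) (c (p (nat_lit 0x2073f0)) e)) (c (c (p (nat_lit 0x921f12)) e) e))) (c (c (c (m (nat_lit
  0x15b529c)) (c (p (nat_lit 0x7cb2b5c)) e)) (c (c (m (nat_lit 0x1274550)) e) e)) (c (c (c (m (nat_lit
  0x139b3ba)) e) e) e))) e)) (c (c (c (c (c (p (nat_lit 0x1f4e5d2)) (c (m (nat_lit 0x43a340)) (c (p (nat_lit
  0x921edc)) e))) (c (c (m (nat_lit 0x134cf70)) (c (p (nat_lit 0x2073b4)) e)) (c (c (m (nat_lit 0x2352b3a))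
  e) e))) (c (c (c (m (nat_lit 0x15b4948)) (c (m (nat_lit 0x1274550)) e)) (c (c (p (nat_lit 0x7cb2886)) e)
  e)) (c (c (c (m (nat_lit 0x139b40e)) e) e) e))) e) e)) (c (c (c (c (c (c (m (nat_lit 0xb023830)) (c (p
  (nat_lit 0x3678180)) (c (p (nat_lit 0x64e12)) e))) (c (c (p (nat_lit 0x36780f0)) (c (p (nat_lit 0x1be5b6))
  e)) (c (c (p (nat_lit 0x64dca)) e) e))) (c (c (c (m (nat_lit 0x124d796)) (c (m (nat_lit 0x139b3ba)) e)) (c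
  (c (m (nat_lit 0x139b40e)) e) e)) (c (c (c (p (nat_lit 0xd7484ea)) e) e) e))) e) e) e))) (c (c (c (c (c (c
  (c (p (nat_lit 0x55a016)) (c (p (nat_lit 0xa63f4d0)) (c (m (nat_lit 0xe3e8a2)) e))) (c (c (p (nat_lit
  0xa63f4e8)) (c (m (nat_lit 0x28b3f96)) e)) (c (c (m (nat_lit 0xe3e968)) e) e))) (c (c (c (p (nat_lit
  0x13249f8)) (c (m (nat_lit 0x111bc52)) e)) (c (c (m (nat_lit 0x111baea)) e) e)) (c (c (c (p (nat_lit
  0x2a6bfa6)) e) e) e))) (c (c (c (c (p (nat_lit 0xa63f4d0)) (c (p (nat_lit 0x1fffa88)) (c (m (nat_lit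
  0x2f71b9c)) e))) (c (c (p (nat_lit 0x3f95b7a)) (c (m (nat_lit 0x154426e)) e)) (c (c (m (nat_lit 0xf33d92))
  e) e))) (c (c (c (m (nat_lit 0x25b5346)) (c (p (nat_lit 0x5dcafe)) e)) (c (c (m (nat_lit 0x24ab18)) e) e))
  (c (c (c (m (nat_lit 0x1c19628)) e) e) e))) (c (c (c (c (m (nat_lit 0xe3e8a2)) (c (m (nat_lit 0x2f71b9c))
  e)) (c (c (m (nat_lit 0xf33d7a)) e) e)) (c (c (c (p (nat_lit 0x1ca17da)) e) e) e)) e))) (c (c (c (c (c (p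
  (nat_lit 0xa63f4e8)) (c (p (nat_lit 0x3f95b7a)) (c (m (nat_lit 0xf33d7a)) e))) (c (c (p (nat_lit
  0x1fffb3c)) (c (m (nat_lit 0x15442b0)) e)) (c (c (m (nat_lit 0x2f71bd2)) e) e))) (c (c (c (m (nat_lit
  0x25b528c)) (c (m (nat_lit 0x24abf0)) e)) (c (c (p (nat_lit 0x5dcb46)) e) e)) (c (c (c (m (nat_lit
  0x1c19610)) e) e) e))) (c (c (c (c (m (nat_lit 0x28b3f96)) (c (m (nat_lit 0x154426e)) e)) (c (c (m (nat_lit
  0x15442b0)) e) e)) (c (c (c (p (nat_lit 0x35f7c30)) e) e) e)) e)) (c (c (c (c (c (m (nat_lit 0xe3e968)) (c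
  (m (nat_lit 0xf33d92)) e)) (c (c (m (nat_lit 0x2f71bd2)) e) e)) (c (c (c (p (nat_lit 0x1ca173e)) e) e) e))
  e) e))) (c (c (c (c (c (c (p (nat_lit 0x13249f8)) (c (m (nat_lit 0x25b5346)) (c (p (nat_lit 0x1ca17da))
  e))) (c (c (m (nat_lit 0x25b528c)) (c (p (nat_lit 0x35f7c30)) e)) (c (c (p (nat_lit 0x1ca173e)) e) e))) (c
  (c (c (m (nat_lit 0x617148)) (c (m (nat_lit 0x186a53c)) e)) (c (c (m (nat_lit 0x186a554)) e) e)) (c (c (c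
  (m (nat_lit 0xf33be8)) e) e) e))) (c (c (c (c (m (nat_lit 0x111bc52)) (c (p (nat_lit 0x5dcafe)) e)) (c (c
  (m (nat_lit 0x24abf0)) e) e)) (c (c (c (m (nat_lit 0x186a53c)) e) e) e)) e)) (c (c (c (c (c (m (nat_lit
  0x111baea)) (c (m (nat_lit 0x24ab18)) e)) (c (c (p (nat_lit 0x5dcb46)) e) e)) (c (c (c (m (nat_lit
  0x186a554)) e) e) e)) e) e)) (c (c (c (c (c (c (p (nat_lit 0x2a6bfa6)) (c (m (nat_lit 0x1c19628)) e)) (c (c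
  (m (nat_lit 0x1c19610)) e) e)) (c (c (c (m (nat_lit 0xf33be8)) e) e) e)) e) e) e))) (c (c (c (c (c (c (c (p
  (nat_lit 0x2959572)) (c (m (nat_lit 0xc3f5a72)) (c (p (nat_lit 0x2c9cb8)) e))) (c (c (m (nat_lit
  0xc3f591c)) (c (m (nat_lit 0x36061e)) e)) (c (c (p (nat_lit 0x2c9cb2)) e) e))) (c (c (c (m (nat_lit
  0x2c36e02)) (c (p (nat_lit 0x2b82862)) e)) (c (c (p (nat_lit 0x2b82802)) e) e)) (c (c (c (p (nat_lit
  0x594aaa)) e) e) e))) (c (c (c (c (m (nat_lit 0xc3f5a72)) (c (p (nat_lit 0x29ddfaa)) e)) (c (c (m (nat_lit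
  0x23e022a)) e) e)) (c (c (c (m (nat_lit 0x22c1e8)) e) e) e)) (c (c (c (c (p (nat_lit 0x2c9cb8)) e) e) e)
  e))) (c (c (c (c (c (m (nat_lit 0xc3f591c)) (c (m (nat_lit 0x23e022a)) e)) (c (c (p (nat_lit 0x29ddf38)) e)
  e)) (c (c (c (m (nat_lit 0x22c28a)) e) e) e)) (c (c (c (c (m (nat_lit 0x36061e)) e) e) e) e)) (c (c (c (c
  (c (p (nat_lit 0x2c9cb2)) e) e) e) e) e))) (c (c (c (c (c (c (m (nat_lit 0x2c36e02)) (c (m (nat_lit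
  0x22c1e8)) e)) (c (c (m (nat_lit 0x22c28a)) e) e)) (c (c (c (p (nat_lit 0x7443198)) e) e) e)) (c (c (c (c
  (p (nat_lit 0x2b82862)) e) e) e) e)) (c (c (c (c (c (p (nat_lit 0x2b82802)) e) e) e) e) e)) (c (c (c (c (c
  (c (p (nat_lit 0x594aaa)) e) e) e) e) e) e))) (c (c (c (c (c (c (c (m (nat_lit 0x12e4396)) (c (p (nat_lit
  0x3c57318)) e)) (c (c (p (nat_lit 0x3c5720a)) e) e)) (c (c (c (p (nat_lit 0x60983a)) e) e) e)) (c (c (c (c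
  (p (nat_lit 0x3c57318)) e) e) e) e)) (c (c (c (c (c (p (nat_lit 0x3c5720a)) e) e) e) e) e)) (c (c (c (c (c
  (c (p (nat_lit 0x60983a)) e) e) e) e) e) e)) (c (c (c (c (c (c (c (p (nat_lit 0x98c8e)) e) e) e) e) e) e)
  e))))) (c (c (c (c (c (c (c (c (p (nat_lit 0xffffc6)) (c (m (nat_lit 0x4a2d6d6)) (c (p (nat_lit 0x130884))
  e))) (c (c (m (nat_lit 0x22902c)) (c (m (nat_lit 0x323aea)) e)) (c (c (p (nat_lit 0xa5542a)) e) e))) (c (c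
  (c (p (nat_lit 0x9f5b9b6)) (c (m (nat_lit 0x282f19e)) e)) (c (c (p (nat_lit 0x105f642)) e) e)) (c (c (c (p
  (nat_lit 0x6bfe626)) e) e) e))) (c (c (c (c (m (nat_lit 0x4a2d6d6)) (c (p (nat_lit 0xf26bede)) (c (m
  (nat_lit 0x29a4626)) e))) (c (c (p (nat_lit 0x86e5b04)) (c (m (nat_lit 0x3a3860)) e)) (c (c (m (nat_lit
  0x63b51a)) e) e))) (c (c (c (m (nat_lit 0x540b388)) (c (m (nat_lit 0xc3c9ae)) e)) (c (c (p (nat_lit
  0x313050)) e) e)) (c (c (c (m (nat_lit 0x3596d24)) e) e) e))) (c (c (c (c (p (nat_lit 0x130884)) (c (m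
  (nat_lit 0x29a4626)) e)) (c (c (m (nat_lit 0x9a6ab2)) e) e)) (c (c (c (p (nat_lit 0xa6fe0)) e) e) e)) e)))
  (c (c (c (c (c (m (nat_lit 0x22902c)) (c (p (nat_lit 0x86e5b04)) (c (m (nat_lit 0x9a6ab2)) e))) (c (c (p
  (nat_lit 0xe2da006)) (c (m (nat_lit 0x12c7cb0)) e)) (c (c (p (nat_lit 0xe7c8e8)) e) e))) (c (c (c (m
  (nat_lit 0x1835448)) (c (p (nat_lit 0x1bf63d8)) e)) (c (c (m (nat_lit 0x79b95a)) e) e)) (c (c (c (m
  (nat_lit 0x4caa60)) e) e) e))) (c (c (c (c (m (nat_lit 0x323aea)) (c (m (nat_lit 0x3a3860)) e)) (c (c (m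
  (nat_lit 0x12c7cb0)) e) e)) (c (c (c (p (nat_lit 0x4e481e)) e) e) e)) e)) (c (c (c (c (c (p (nat_lit
  0xa5542a)) (c (m (nat_lit 0x63b51a)) e)) (c (c (p (nat_lit 0xe7c8e8)) e) e)) (c (c (c (p (nat_lit
  0x75c384)) e) e) e)) e) e))) (c (c (c (c (c (c (p (nat_lit 0x9f5b9b6)) (c (m (nat_lit 0x540b388)) (c (p
  (nat_lit 0xa6fe0)) e))) (c (c (m (nat_lit 0x1835448)) (c (p (nat_lit 0x4e481e)) e)) (c (c (p (nat_lit
  0x75c384)) e) e))) (c (c (c (p (nat_lit 0x10022514)) (c (p (nat_lit 0xde02b8)) e)) (c (c (p (nat_lit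
  0x19389c0)) e) e)) (c (c (c (m (nat_lit 0x3f1a742)) e) e) e))) (c (c (c (c (m (nat_lit 0x282f19e)) (c (m
  (nat_lit 0xc3c9ae)) e)) (c (c (p (nat_lit 0x1bf63d8)) e) e)) (c (c (c (p (nat_lit 0xde02b8)) e) e) e)) e))
  (c (c (c (c (c (p (nat_lit 0x105f642)) (c (p (nat_lit 0x313050)) e)) (c (c (m (nat_lit 0x79b95a)) e) e)) (c
  (c (c (p (nat_lit 0x19389c0)) e) e) e)) e) e)) (c (c (c (c (c (c (p (nat_lit 0x6bfe626)) (c (m (nat_lit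
  0x3596d24)) e)) (c (c (m (nat_lit 0x4caa60)) e) e)) (c (c (c (m (nat_lit 0x3f1a742)) e) e) e)) e) e) e)))
  (c (c (c (c (c (c (c (m (nat_lit 0xd059b4c)) (c (p (nat_lit 0x4baa35e)) (c (p (nat_lit 0x1da2298)) e))) (c
  (c (p (nat_lit 0xab8298)) (c (p (nat_lit 0xc22f1a)) e)) (c (c (m (nat_lit 0xc2063a)) e) e))) (c (c (c (m
  (nat_lit 0x3a038c)) (c (m (nat_lit 0xf032b2)) e)) (c (c (m (nat_lit 0x1823e3e)) e) e)) (c (c (c (m (nat_lit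
  0x1dc575e)) e) e) e))) (c (c (c (c (p (nat_lit 0x4baa35e)) (c (m (nat_lit 0x16ef6ae)) e)) (c (c (m (nat_lit
  0xe75f7c)) e) e)) (c (c (c (p (nat_lit 0x32cd066)) e) e) e)) (c (c (c (c (p (nat_lit 0x1da2298)) e) e) e)
  e))) (c (c (c (c (c (p (nat_lit 0xab8298)) (c (m (nat_lit 0xe75f7c)) e)) (c (c (m (nat_lit 0x1740978)) e)
  e)) (c (c (c (m (nat_lit 0x847b24)) e) e) e)) (c (c (c (c (p (nat_lit 0xc22f1a)) e) e) e) e)) (c (c (c (c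
  (c (m (nat_lit 0xc2063a)) e) e) e) e) e))) (c (c (c (c (c (c (m (nat_lit 0x3a038c)) (c (p (nat_lit
  0x32cd066)) e)) (c (c (m (nat_lit 0x847b24)) e) e)) (c (c (c (m (nat_lit 0x50a291c)) e) e) e)) (c (c (c (c
  (m (nat_lit 0xf032b2)) e) e) e) e)) (c (c (c (c (c (m (nat_lit 0x1823e3e)) e) e) e) e) e)) (c (c (c (c (c
  (c (m (nat_lit 0x1dc575e)) e) e) e) e) e) e))) (c (c (c (c (c (c (c (p (nat_lit 0x10a22c90)) (c (m (nat_lit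
  0x2a1711e)) e)) (c (c (p (nat_lit 0xeb2c0)) e) e)) (c (c (c (p (nat_lit 0x1a14188)) e) e) e)) (c (c (c (c
  (m (nat_lit 0x2a1711e)) e) e) e) e)) (c (c (c (c (c (p (nat_lit 0xeb2c0)) e) e) e) e) e)) (c (c (c (c (c (c
  (p (nat_lit 0x1a14188)) e) e) e) e) e) e)) (c (c (c (c (c (c (c (m (nat_lit 0xaddeec2)) e) e) e) e) e) e)
  e)))) (c (c (c (c (c (c (c (c (p (nat_lit 0x35012be)) (c (m (nat_lit 0x1ce6b5e)) (c (m (nat_lit 0x6bba88))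
  e))) (c (c (m (nat_lit 0x568595a)) (c (p (nat_lit 0xc5e1fa)) e)) (c (c (p (nat_lit 0x33e5ce)) e) e))) (c (c
  (c (m (nat_lit 0xfc140d0)) (c (p (nat_lit 0xd1c166)) e)) (c (c (m (nat_lit 0x152a180)) e) e)) (c (c (c (m
  (nat_lit 0xe2d244)) e) e) e))) (c (c (c (c (m (nat_lit 0x1ce6b5e)) (c (m (nat_lit 0x7610b62)) e)) (c (c (m
  (nat_lit 0x8fa5184)) e) e)) (c (c (c (p (nat_lit 0xe7afc8)) e) e) e)) (c (c (c (c (m (nat_lit 0x6bba88)) e)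
  e) e) e))) (c (c (c (c (c (m (nat_lit 0x568595a)) (c (m (nat_lit 0x8fa5184)) e)) (c (c (m (nat_lit
  0x5c93f3a)) e) e)) (c (c (c (p (nat_lit 0x2aa8f9c)) e) e) e)) (c (c (c (c (p (nat_lit 0xc5e1fa)) e) e) e)
  e)) (c (c (c (c (c (p (nat_lit 0x33e5ce)) e) e) e) e) e))) (c (c (c (c (c (c (m (nat_lit 0xfc140d0)) (c (p
  (nat_lit 0xe7afc8)) e)) (c (c (p (nat_lit 0x2aa8f9c)) e) e)) (c (c (c (m (nat_lit 0x7e9a5cc)) e) e) e)) (c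
  (c (c (c (p (nat_lit 0xd1c166)) e) e) e) e)) (c (c (c (c (c (m (nat_lit 0x152a180)) e) e) e) e) e)) (c (c
  (c (c (c (c (m (nat_lit 0xe2d244)) e) e) e) e) e) e))) (c (c (c (c (c (c (c (m (nat_lit 0x207362a)) (c (p
  (nat_lit 0xb25e82)) e)) (c (c (m (nat_lit 0xa83ebe)) e) e)) (c (c (c (p (nat_lit 0x3373554)) e) e) e)) (c
  (c (c (c (p (nat_lit 0xb25e82)) e) e) e) e)) (c (c (c (c (c (m (nat_lit 0xa83ebe)) e) e) e) e) e)) (c (c (c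
  (c (c (c (p (nat_lit 0x3373554)) e) e) e) e) e) e)) (c (c (c (c (c (c (c (p (nat_lit 0x456deea)) e) e) e)
  e) e) e) e))) (c (c (c (c (c (c (c (c (p (nat_lit 0x57dd16c)) (c (p (nat_lit 0x4586c70)) e)) (c (c (p
  (nat_lit 0x70488fc)) e) e)) (c (c (c (p (nat_lit 0x3a8ffc0)) e) e) e)) (c (c (c (c (p (nat_lit 0x4586c70))
  e) e) e) e)) (c (c (c (c (c (p (nat_lit 0x70488fc)) e) e) e) e) e)) (c (c (c (c (c (c (p (nat_lit
  0x3a8ffc0)) e) e) e) e) e) e)) (c (c (c (c (c (c (c (m (nat_lit 0x4f73340)) e) e) e) e) e) e) e)) (c (c (c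
  (c (c (c (c (c (m (nat_lit 0x31d3178)) e) e) e) e) e) e) e) e))))) (c (c (c (c (c (c (c (c (c (m (nat_lit
  0xcfadb38)) (c (p (nat_lit 0x3cb64d8)) (c (p (nat_lit 0xa5532e)) e))) (c (c (p (nat_lit 0x274947c)) (c (m
  (nat_lit 0x323b50)) e)) (c (c (p (nat_lit 0x1307f4)) e) e))) (c (c (c (p (nat_lit 0x370657e)) (c (p
  (nat_lit 0x105f696)) e)) (c (c (m (nat_lit 0x282f1da)) e) e)) (c (c (c (p (nat_lit 0x6bfe6e6)) e) e) e)))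
  (c (c (c (c (p (nat_lit 0x3cb64d8)) (c (m (nat_lit 0x1f82d6c)) (c (p (nat_lit 0xe7c98a)) e))) (c (c (m
  (nat_lit 0x520f68)) (c (m (nat_lit 0x12c7c98)) e)) (c (c (m (nat_lit 0x9a6a64)) e) e))) (c (c (c (p
  (nat_lit 0x2d87582)) (c (m (nat_lit 0x79b9ae)) e)) (c (c (p (nat_lit 0x1bf6414)) e) e)) (c (c (c (m
  (nat_lit 0x4caae4)) e) e) e))) (c (c (c (c (p (nat_lit 0xa5532e)) (c (p (nat_lit 0xe7c98a)) e)) (c (c (m
  (nat_lit 0x63b4d8)) e) e)) (c (c (c (p (nat_lit 0x75c402)) e) e) e)) e))) (c (c (c (c (c (p (nat_lit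
  0x274947c)) (c (m (nat_lit 0x520f68)) (c (m (nat_lit 0x63b4d8)) e))) (c (c (m (nat_lit 0x2e16994)) (c (m
  (nat_lit 0x3a3842)) e)) (c (c (m (nat_lit 0x29a460e)) e) e))) (c (c (c (m (nat_lit 0x1b45f6c)) (c (p
  (nat_lit 0x312ff0)) e)) (c (c (m (nat_lit 0xc3c9d2)) e) e)) (c (c (c (m (nat_lit 0x3596c8e)) e) e) e))) (c
  (c (c (c (m (nat_lit 0x323b50)) (c (m (nat_lit 0x12c7c98)) e)) (c (c (m (nat_lit 0x3a3842)) e) e)) (c (c (c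
  (p (nat_lit 0x4e4818)) e) e) e)) e)) (c (c (c (c (c (p (nat_lit 0x1307f4)) (c (m (nat_lit 0x9a6a64)) e)) (c
  (c (m (nat_lit 0x29a460e)) e) e)) (c (c (c (p (nat_lit 0xa6f68)) e) e) e)) e) e))) (c (c (c (c (c (c (p
  (nat_lit 0x370657e)) (c (p (nat_lit 0x2d87582)) (c (p (nat_lit 0x75c402)) e))) (c (c (m (nat_lit
  0x1b45f6c)) (c (p (nat_lit 0x4e4818)) e)) (c (c (p (nat_lit 0xa6f68)) e) e))) (c (c (c (m (nat_lit
  0x6173730)) (c (p (nat_lit 0x1938948)) e)) (c (c (p (nat_lit 0xde033c)) e) e)) (c (c (c (m (nat_lit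
  0x3f1a664)) e) e) e))) (c (c (c (c (p (nat_lit 0x105f696)) (c (m (nat_lit 0x79b9ae)) e)) (c (c (p (nat_lit
  0x312ff0)) e) e)) (c (c (c (p (nat_lit 0x1938948)) e) e) e)) e)) (c (c (c (c (c (m (nat_lit 0x282f1da)) (c
  (p (nat_lit 0x1bf6414)) e)) (c (c (m (nat_lit 0xc3c9d2)) e) e)) (c (c (c (p (nat_lit 0xde033c)) e) e) e))
  e) e)) (c (c (c (c (c (c (p (nat_lit 0x6bfe6e6)) (c (m (nat_lit 0x4caae4)) e)) (c (c (m (nat_lit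
  0x3596c8e)) e) e)) (c (c (c (m (nat_lit 0x3f1a664)) e) e) e)) e) e) e))) (c (c (c (c (c (c (c (m (nat_lit
  0x1a7bac)) (c (m (nat_lit 0x18e0c82)) (c (m (nat_lit 0xc206be)) e))) (c (c (p (nat_lit 0x187d51a)) (c (p
  (nat_lit 0xc22ef0)) e)) (c (c (p (nat_lit 0x1da22c2)) e) e))) (c (c (c (p (nat_lit 0x22a2758)) (c (m
  (nat_lit 0x1823db4)) e)) (c (c (m (nat_lit 0xf03234)) e) e)) (c (c (c (m (nat_lit 0x1dc582a)) e) e) e))) (c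
  (c (c (c (m (nat_lit 0x18e0c82)) (c (p (nat_lit 0x3db0c)) e)) (c (c (p (nat_lit 0x6b0952)) e) e)) (c (c (c
  (m (nat_lit 0x22dd2a)) e) e) e)) (c (c (c (c (m (nat_lit 0xc206be)) e) e) e) e))) (c (c (c (c (c (p
  (nat_lit 0x187d51a)) (c (p (nat_lit 0x6b0952)) e)) (c (c (p (nat_lit 0x1871b50)) e) e)) (c (c (c (p
  (nat_lit 0x2545e96)) e) e) e)) (c (c (c (c (p (nat_lit 0xc22ef0)) e) e) e) e)) (c (c (c (c (c (p (nat_lit
  0x1da22c2)) e) e) e) e) e))) (c (c (c (c (c (c (p (nat_lit 0x22a2758)) (c (m (nat_lit 0x22dd2a)) e)) (c (c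
  (p (nat_lit 0x2545e96)) e) e)) (c (c (c (m (nat_lit 0x17b155c)) e) e) e)) (c (c (c (c (m (nat_lit
  0x1823db4)) e) e) e) e)) (c (c (c (c (c (m (nat_lit 0xf03234)) e) e) e) e) e)) (c (c (c (c (c (c (m
  (nat_lit 0x1dc582a)) e) e) e) e) e) e))) (c (c (c (c (c (c (c (p (nat_lit 0x1423c74)) (c (p (nat_lit
  0x23415f6)) e)) (c (c (p (nat_lit 0x17ad5de)) e) e)) (c (c (c (m (nat_lit 0x86316c)) e) e) e)) (c (c (c (c
  (p (nat_lit 0x23415f6)) e) e) e) e)) (c (c (c (c (c (p (nat_lit 0x17ad5de)) e) e) e) e) e)) (c (c (c (c (c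
  (c (m (nat_lit 0x86316c)) e) e) e) e) e) e)) (c (c (c (c (c (c (c (m (nat_lit 0x437da68)) e) e) e) e) e) e)
  e)))) (c (c (c (c (c (c (c (c (m (nat_lit 0xcb94df8)) (c (p (nat_lit 0x15bbb54)) (c (m (nat_lit 0x6f8328))
  e))) (c (c (p (nat_lit 0xa26cea)) (c (m (nat_lit 0xe1d4e2)) e)) (c (c (m (nat_lit 0x6f82d4)) e) e))) (c (c
  (c (m (nat_lit 0xbb0acd0)) (c (p (nat_lit 0x12e724)) e)) (c (c (p (nat_lit 0x12e6c4)) e) e)) (c (c (c (p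
  (nat_lit 0x257be0)) e) e) e))) (c (c (c (c (p (nat_lit 0x15bbb54)) (c (m (nat_lit 0x17f4768)) e)) (c (c (p
  (nat_lit 0x1e2b0f2)) e) e)) (c (c (c (p (nat_lit 0x801aec)) e) e) e)) (c (c (c (c (m (nat_lit 0x6f8328)) e)
  e) e) e))) (c (c (c (c (c (p (nat_lit 0xa26cea)) (c (p (nat_lit 0x1e2b0f2)) e)) (c (c (m (nat_lit
  0x17f47ec)) e) e)) (c (c (c (p (nat_lit 0x801a80)) e) e) e)) (c (c (c (c (m (nat_lit 0xe1d4e2)) e) e) e)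
  e)) (c (c (c (c (c (m (nat_lit 0x6f82d4)) e) e) e) e) e))) (c (c (c (c (c (c (m (nat_lit 0xbb0acd0)) (c (p
  (nat_lit 0x801aec)) e)) (c (c (p (nat_lit 0x801a80)) e) e)) (c (c (c (p (nat_lit 0xa0ea2c)) e) e) e)) (c (c
  (c (c (p (nat_lit 0x12e724)) e) e) e) e)) (c (c (c (c (c (p (nat_lit 0x12e6c4)) e) e) e) e) e)) (c (c (c (c
  (c (c (p (nat_lit 0x257be0)) e) e) e) e) e) e))) (c (c (c (c (c (c (c (m (nat_lit 0x2638af4)) (c (p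
  (nat_lit 0xa21c62)) e)) (c (c (m (nat_lit 0x6fd51e)) e) e)) (c (c (c (m (nat_lit 0x1151cdc)) e) e) e)) (c
  (c (c (c (p (nat_lit 0xa21c62)) e) e) e) e)) (c (c (c (c (c (m (nat_lit 0x6fd51e)) e) e) e) e) e)) (c (c (c
  (c (c (c (m (nat_lit 0x1151cdc)) e) e) e) e) e) e)) (c (c (c (c (c (c (c (p (nat_lit 0x7f2654)) e) e) e) e)
  e) e) e))) (c (c (c (c (c (c (c (c (p (nat_lit 0x67db938)) (c (m (nat_lit 0x46b006c)) e)) (c (c (p (nat_lit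
  0x197c7c)) e) e)) (c (c (c (p (nat_lit 0x8563e1e)) e) e) e)) (c (c (c (c (m (nat_lit 0x46b006c)) e) e) e)
  e)) (c (c (c (c (c (p (nat_lit 0x197c7c)) e) e) e) e) e)) (c (c (c (c (c (c (p (nat_lit 0x8563e1e)) e) e)
  e) e) e) e)) (c (c (c (c (c (c (c (p (nat_lit 0x111d0b0)) e) e) e) e) e) e) e)) (c (c (c (c (c (c (c (c (p
  (nat_lit 0x290d48)) e) e) e) e) e) e) e) e)))) (c (c (c (c (c (c (c (c (c (p (nat_lit 0xf65e95c)) (c (m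
  (nat_lit 0x2ce562a)) (c (p (nat_lit 0x33e640)) e))) (c (c (m (nat_lit 0x2e25b14)) (c (p (nat_lit 0xc5e200))
  e)) (c (c (m (nat_lit 0x6bbadc)) e) e))) (c (c (c (m (nat_lit 0x2574606)) (c (m (nat_lit 0x152a168)) e)) (c
  (c (p (nat_lit 0xd1c1c0)) e) e)) (c (c (c (m (nat_lit 0xe2d2fe)) e) e) e))) (c (c (c (c (m (nat_lit
  0x2ce562a)) (c (p (nat_lit 0x8e4a882)) e)) (c (c (m (nat_lit 0x18c5076)) e) e)) (c (c (c (m (nat_lit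
  0x212d762)) e) e) e)) (c (c (c (c (p (nat_lit 0x33e640)) e) e) e) e))) (c (c (c (c (c (m (nat_lit
  0x2e25b14)) (c (m (nat_lit 0x18c5076)) e)) (c (c (p (nat_lit 0x7b10a76)) e) e)) (c (c (c (m (nat_lit
  0x1cc33e0)) e) e) e)) (c (c (c (c (p (nat_lit 0xc5e200)) e) e) e) e)) (c (c (c (c (c (m (nat_lit 0x6bbadc))
  e) e) e) e) e))) (c (c (c (c (c (c (m (nat_lit 0x2574606)) (c (m (nat_lit 0x212d762)) e)) (c (c (m (nat_lit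
  0x1cc33e0)) e) e)) (c (c (c (p (nat_lit 0xaa0a1b0)) e) e) e)) (c (c (c (c (m (nat_lit 0x152a168)) e) e) e)
  e)) (c (c (c (c (c (p (nat_lit 0xd1c1c0)) e) e) e) e) e)) (c (c (c (c (c (c (m (nat_lit 0xe2d2fe)) e) e) e)
  e) e) e))) (c (c (c (c (c (c (c (m (nat_lit 0xa38ca86)) (c (m (nat_lit 0x14c012a)) e)) (c (c (m (nat_lit
  0x16182c0)) e) e)) (c (c (c (p (nat_lit 0xf9467a)) e) e) e)) (c (c (c (c (m (nat_lit 0x14c012a)) e) e) e)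
  e)) (c (c (c (c (c (m (nat_lit 0x16182c0)) e) e) e) e) e)) (c (c (c (c (c (c (p (nat_lit 0xf9467a)) e) e)
  e) e) e) e)) (c (c (c (c (c (c (c (p (nat_lit 0xa574976)) e) e) e) e) e) e) e))) (c (c (c (c (c (c (c (c (p
  (nat_lit 0x5f3b0bc)) (c (p (nat_lit 0x1726560)) e)) (c (c (m (nat_lit 0x146d744)) e) e)) (c (c (c (p
  (nat_lit 0x7fd196)) e) e) e)) (c (c (c (c (p (nat_lit 0x1726560)) e) e) e) e)) (c (c (c (c (c (m (nat_lit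
  0x146d744)) e) e) e) e) e)) (c (c (c (c (c (c (p (nat_lit 0x7fd196)) e) e) e) e) e) e)) (c (c (c (c (c (c
  (c (p (nat_lit 0xe9ecbc)) e) e) e) e) e) e) e)) (c (c (c (c (c (c (c (c (m (nat_lit 0x613e55e)) e) e) e) e)
  e) e) e) e))) (c (c (c (c (c (c (c (c (c (m (nat_lit 0x75e9fa0)) (c (p (nat_lit 0x1348134)) e)) (c (c (m
  (nat_lit 0x80a5a6)) e) e)) (c (c (c (m (nat_lit 0x13a6e9e)) e) e) e)) (c (c (c (c (p (nat_lit 0x1348134))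
  e) e) e) e)) (c (c (c (c (c (m (nat_lit 0x80a5a6)) e) e) e) e) e)) (c (c (c (c (c (c (m (nat_lit
  0x13a6e9e)) e) e) e) e) e) e)) (c (c (c (c (c (c (c (m (nat_lit 0x21a2c3c)) e) e) e) e) e) e) e)) (c (c (c
  (c (c (c (c (c (m (nat_lit 0x1561bb4)) e) e) e) e) e) e) e) e)) (c (c (c (c (c (c (c (c (c (p (nat_lit
  0x6c722f4)) e) e) e) e) e) e) e) e) e)))))

noncomputable def gt_1_0_1 : Tr :=
  (c (c (c (c (c (c (c (c (c (p (nat_lit 0x269e9f2)) (c (m (nat_lit 0x3f8dc36)) (c (m (nat_lit 0x371f2e))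
  e))) (c (c (m (nat_lit 0x514bec4)) (c (p (nat_lit 0x1164ea6)) e)) (c (c (p (nat_lit 0x4c801ec)) e) e))) (c
  (c (c (m (nat_lit 0x5d0919e)) (c (m (nat_lit 0x66eb0e)) e)) (c (c (p (nat_lit 0x40afb2)) e) e)) (c (c (c (m
  (nat_lit 0xac0122)) e) e) e))) (c (c (c (c (m (nat_lit 0x12b3754)) (c (p (nat_lit 0x3d22cc4)) (c (p
  (nat_lit 0x8ab130)) e))) (c (c (p (nat_lit 0x6651cc)) (c (m (nat_lit 0x48d7be)) e)) (c (c (m (nat_lit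
  0x5bb654)) e) e))) (c (c (c (m (nat_lit 0x3d706a0)) (c (p (nat_lit 0x206d270)) e)) (c (c (m (nat_lit
  0x31126ec)) e) e)) (c (c (c (p (nat_lit 0x174ba06)) e) e) e))) (c (c (c (c (m (nat_lit 0x5c1c1e)) (c (p
  (nat_lit 0x12972b4)) (c (p (nat_lit 0xd58c10)) e))) (c (c (m (nat_lit 0x800334)) (c (m (nat_lit 0x145b66))
  e)) (c (c (p (nat_lit 0x11391a8)) e) e))) (c (c (c (p (nat_lit 0x1ef3a80)) (c (m (nat_lit 0x1c9d250)) e))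
  (c (c (p (nat_lit 0x66a548)) e) e)) (c (c (c (m (nat_lit 0x10fee58)) e) e) e))) e))) (c (c (c (c (c (m
  (nat_lit 0x5f4ae0)) (c (p (nat_lit 0x8c76e58)) (c (m (nat_lit 0x25cae62)) e))) (c (c (p (nat_lit
  0x695b266)) (c (m (nat_lit 0x1baed44)) e)) (c (c (m (nat_lit 0x2f53bde)) e) e))) (c (c (c (p (nat_lit
  0x819adac)) (c (m (nat_lit 0x1867974)) e)) (c (c (p (nat_lit 0x2600df6)) e) e)) (c (c (c (m (nat_lit
  0x27a2c00)) e) e) e))) (c (c (c (c (p (nat_lit 0x51570c)) (c (m (nat_lit 0x303e3ee)) (c (m (nat_lit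
  0xec789a)) e))) (c (c (m (nat_lit 0x7383c0)) (c (p (nat_lit 0x4238ee)) e)) (c (c (p (nat_lit 0x800196)) e)
  e))) (c (c (c (m (nat_lit 0x6c6060)) (c (m (nat_lit 0x3f1fe6)) e)) (c (c (p (nat_lit 0xb826c6)) e) e)) (c
  (c (c (p (nat_lit 0x59e476)) e) e) e))) e)) (c (c (c (c (c (p (nat_lit 0x7f0e0)) (c (m (nat_lit 0x4de140))
  (c (m (nat_lit 0x23af7e)) e))) (c (c (p (nat_lit 0x148f3a4)) (c (m (nat_lit 0x146bb8a)) e)) (c (c (m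
  (nat_lit 0xf148e6)) e) e))) (c (c (c (m (nat_lit 0x14464b6)) (c (m (nat_lit 0x16e654)) e)) (c (c (m
  (nat_lit 0x1cd924a)) e) e)) (c (c (c (p (nat_lit 0x1c1e72e)) e) e) e))) e) e))) (c (c (c (c (c (c (p
  (nat_lit 0x1077096)) (c (p (nat_lit 0x4a75c34)) (c (m (nat_lit 0x3852cc0)) e))) (c (c (m (nat_lit
  0x1bceb20)) (c (p (nat_lit 0xfdd79c)) e)) (c (c (m (nat_lit 0x2e61fac)) e) e))) (c (c (c (p (nat_lit
  0x1e75d7a)) (c (p (nat_lit 0x1de86d2)) e)) (c (c (m (nat_lit 0xdfba7a)) e) e)) (c (c (c (p (nat_lit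
  0x1b81264)) e) e) e))) (c (c (c (c (m (nat_lit 0xfacb90)) (c (m (nat_lit 0xb481e4)) (c (m (nat_lit
  0xbc6fa0)) e))) (c (c (p (nat_lit 0xed8cdc)) (c (p (nat_lit 0x2c3250)) e)) (c (c (p (nat_lit 0x1168bd8)) e)
  e))) (c (c (c (m (nat_lit 0x408f6cc)) (c (p (nat_lit 0x22de2)) e)) (c (c (m (nat_lit 0xee680c)) e) e)) (c
  (c (c (p (nat_lit 0x195975c)) e) e) e))) e)) (c (c (c (c (c (p (nat_lit 0xae8154)) (c (m (nat_lit
  0x25f0e66)) (c (p (nat_lit 0x1d079ea)) e))) (c (c (p (nat_lit 0x9d901a)) (c (m (nat_lit 0xd7cb32)) e)) (c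
  (c (p (nat_lit 0xabcf2a)) e) e))) (c (c (c (p (nat_lit 0xadb818)) (c (p (nat_lit 0x4053d8)) e)) (c (c (p
  (nat_lit 0x2146e2a)) e) e)) (c (c (c (m (nat_lit 0x219f59a)) e) e) e))) e) e)) (c (c (c (c (c (c (m
  (nat_lit 0x25cb624)) (c (p (nat_lit 0x41a8be)) (c (p (nat_lit 0xaf5606)) e))) (c (c (p (nat_lit 0x23cd174))
  (c (m (nat_lit 0x241062)) e)) (c (c (m (nat_lit 0x33b5e90)) e) e))) (c (c (c (p (nat_lit 0x6bb5ff0)) (c (m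
  (nat_lit 0x5c3b38)) e)) (c (c (p (nat_lit 0x2f5cf8)) e) e)) (c (c (c (m (nat_lit 0xdab26)) e) e) e))) e) e)
  e))) (c (c (c (c (c (c (c (p (nat_lit 0x72a3776)) (c (p (nat_lit 0x2c3f93a)) (c (p (nat_lit 0x889cfda))
  e))) (c (c (p (nat_lit 0x8d31464)) (c (m (nat_lit 0x17c7e52)) e)) (c (c (m (nat_lit 0x2df9be8)) e) e))) (c
  (c (c (p (nat_lit 0x379bf48)) (c (m (nat_lit 0x32eb28e)) e)) (c (c (m (nat_lit 0x61fdbe0)) e) e)) (c (c (c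
  (p (nat_lit 0x5a8ad9e)) e) e) e))) (c (c (c (c (p (nat_lit 0x778000e)) (c (m (nat_lit 0x5a261f0)) (c (p
  (nat_lit 0x1419786)) e))) (c (c (p (nat_lit 0x268b4bc)) (c (m (nat_lit 0x184fec)) e)) (c (c (p (nat_lit
  0x16badc4)) e) e))) (c (c (c (m (nat_lit 0x64af07c)) (c (p (nat_lit 0xf9b358)) e)) (c (c (p (nat_lit
  0x8a47d0)) e) e)) (c (c (c (p (nat_lit 0x561852)) e) e) e))) (c (c (c (c (m (nat_lit 0x1d330d6)) (c (p
  (nat_lit 0x2a70d4)) e)) (c (c (m (nat_lit 0x1f3144e)) e) e)) (c (c (c (p (nat_lit 0x5b21ce)) e) e) e)) e)))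
  (c (c (c (c (c (m (nat_lit 0x29bebb8)) (c (m (nat_lit 0x2a22a40)) (c (p (nat_lit 0x210e3d0)) e))) (c (c (m
  (nat_lit 0x164450a)) (c (p (nat_lit 0x393eb2)) e)) (c (c (p (nat_lit 0x20e2c3c)) e) e))) (c (c (c (m
  (nat_lit 0xacafa0c)) (c (p (nat_lit 0x35bb3ea)) e)) (c (c (p (nat_lit 0x8e5786)) e) e)) (c (c (c (p
  (nat_lit 0x80b63e)) e) e) e))) (c (c (c (c (m (nat_lit 0x3078b28)) (c (p (nat_lit 0x2659a9a)) e)) (c (c (p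
  (nat_lit 0x191b092)) e) e)) (c (c (c (p (nat_lit 0xc52794)) e) e) e)) e)) (c (c (c (c (c (m (nat_lit
  0xbb0992)) (c (p (nat_lit 0x1695bbe)) e)) (c (c (m (nat_lit 0x15c306)) e) e)) (c (c (c (m (nat_lit
  0x2e7b98)) e) e) e)) e) e))) (c (c (c (c (c (c (p (nat_lit 0x2138c88)) (c (p (nat_lit 0x99b8f2)) (c (m
  (nat_lit 0x240b742)) e))) (c (c (p (nat_lit 0x429350a)) (c (m (nat_lit 0xa070ac)) e)) (c (c (m (nat_lit
  0x12c1356)) e) e))) (c (c (c (p (nat_lit 0x2b23ba0)) (c (m (nat_lit 0x2c26cda)) e)) (c (c (p (nat_lit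
  0xed551a)) e) e)) (c (c (c (p (nat_lit 0x21c2130)) e) e) e))) (c (c (c (c (p (nat_lit 0x1573ed8)) (c (p
  (nat_lit 0x1904454)) e)) (c (c (m (nat_lit 0x25db7b8)) e) e)) (c (c (c (p (nat_lit 0x6ff77a)) e) e) e)) e))
  (c (c (c (c (c (m (nat_lit 0x2b86c0)) (c (m (nat_lit 0x5a157e)) e)) (c (c (p (nat_lit 0x62955c)) e) e)) (c
  (c (c (p (nat_lit 0x16196a)) e) e) e)) e) e)) (c (c (c (c (c (c (m (nat_lit 0x7080480)) (c (p (nat_lit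
  0x218a4f8)) e)) (c (c (p (nat_lit 0x1a53b0)) e) e)) (c (c (c (p (nat_lit 0x1053264)) e) e) e)) e) e) e)))
  (c (c (c (c (c (c (c (m (nat_lit 0x59bcfa4)) (c (m (nat_lit 0x12e5e6)) (c (m (nat_lit 0x6748cbc)) e))) (c
  (c (m (nat_lit 0xa88db4c)) (c (p (nat_lit 0x1a4824a)) e)) (c (c (p (nat_lit 0xf5375a)) e) e))) (c (c (c (p
  (nat_lit 0x377dcc6)) (c (p (nat_lit 0x2c6082c)) e)) (c (c (p (nat_lit 0x4a55a6e)) e) e)) (c (c (c (m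
  (nat_lit 0x55ed87e)) e) e) e))) (c (c (c (c (m (nat_lit 0x1349376)) (c (m (nat_lit 0x15ed7ce)) e)) (c (c (m
  (nat_lit 0x1f2c384)) e) e)) (c (c (c (p (nat_lit 0x20ce596)) e) e) e)) (c (c (c (c (p (nat_lit 0x1162290))
  e) e) e) e))) (c (c (c (c (c (p (nat_lit 0x333cd50)) (c (m (nat_lit 0x11fe452)) e)) (c (c (m (nat_lit
  0x1576b8a)) e) e)) (c (c (c (p (nat_lit 0x68b703a)) e) e) e)) (c (c (c (c (m (nat_lit 0x805bc)) e) e) e)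
  e)) (c (c (c (c (c (p (nat_lit 0x5c8548)) e) e) e) e) e))) (c (c (c (c (c (c (m (nat_lit 0x809f556)) (c (m
  (nat_lit 0xae1a16)) e)) (c (c (m (nat_lit 0x182dccc)) e) e)) (c (c (c (p (nat_lit 0x2a5bb0)) e) e) e)) (c
  (c (c (c (p (nat_lit 0x8b11c6)) e) e) e) e)) (c (c (c (c (c (p (nat_lit 0x6aedb6)) e) e) e) e) e)) (c (c (c
  (c (c (c (p (nat_lit 0x2d58aa0)) e) e) e) e) e) e))) (c (c (c (c (c (c (c (p (nat_lit 0x24c7782)) (c (p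
  (nat_lit 0x172adf0)) e)) (c (c (p (nat_lit 0x48d85fa)) e) e)) (c (c (c (m (nat_lit 0x407290e)) e) e) e)) (c
  (c (c (c (p (nat_lit 0x7aaf7e)) e) e) e) e)) (c (c (c (c (c (m (nat_lit 0xa83252)) e) e) e) e) e)) (c (c (c
  (c (c (c (p (nat_lit 0x3d0dbb0)) e) e) e) e) e) e)) (c (c (c (c (c (c (c (m (nat_lit 0x4d4ec5e)) e) e) e)
  e) e) e) e))))) (c (c (c (c (c (c (c (c (m (nat_lit 0xc416b1a)) (c (m (nat_lit 0x15c3a92)) (c (p (nat_lit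
  0x92d5a6)) e))) (c (c (p (nat_lit 0x5ce7cb2)) (c (m (nat_lit 0x21021f0)) e)) (c (c (m (nat_lit 0x1fd8650))
  e) e))) (c (c (c (p (nat_lit 0x1a8220a)) (c (p (nat_lit 0x27c56e2)) e)) (c (c (p (nat_lit 0x167b39e)) e)
  e)) (c (c (c (m (nat_lit 0x8bfce6)) e) e) e))) (c (c (c (c (p (nat_lit 0x13c55c1c)) (c (m (nat_lit
  0x26abd8a)) (c (m (nat_lit 0xea78a8)) e))) (c (c (p (nat_lit 0x84e48e2)) (c (p (nat_lit 0x1cb0f8a)) e)) (c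
  (c (m (nat_lit 0x1008f78)) e) e))) (c (c (c (m (nat_lit 0x9add0)) (c (m (nat_lit 0x9c31a4)) e)) (c (c (p
  (nat_lit 0x3a1a18)) e) e)) (c (c (c (p (nat_lit 0x5b081e)) e) e) e))) (c (c (c (c (m (nat_lit 0x2d90066))
  (c (m (nat_lit 0x830cf4)) e)) (c (c (p (nat_lit 0x689946)) e) e)) (c (c (c (p (nat_lit 0x531f48)) e) e) e))
  e))) (c (c (c (c (c (m (nat_lit 0x30837d2)) (c (m (nat_lit 0x292c7ac)) (c (p (nat_lit 0x1863c12)) e))) (c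
  (c (p (nat_lit 0xb786100)) (c (m (nat_lit 0x33483fc)) e)) (c (c (m (nat_lit 0x2ccfa0)) e) e))) (c (c (c (p
  (nat_lit 0x2e06c26)) (c (p (nat_lit 0x1290558)) e)) (c (c (m (nat_lit 0x587d60)) e) e)) (c (c (c (p
  (nat_lit 0x1004c1c)) e) e) e))) (c (c (c (c (m (nat_lit 0x14ce7e2)) (c (p (nat_lit 0x1cc3a4)) e)) (c (c (m
  (nat_lit 0xb7c0f0)) e) e)) (c (c (c (p (nat_lit 0x6a33a4)) e) e) e)) e)) (c (c (c (c (c (p (nat_lit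
  0x3f751e)) (c (p (nat_lit 0x348eca)) e)) (c (c (m (nat_lit 0x12d6d10)) e) e)) (c (c (c (m (nat_lit
  0x18909c)) e) e) e)) e) e))) (c (c (c (c (c (c (m (nat_lit 0x113b6e6c)) (c (p (nat_lit 0x4215a1a)) (c (m
  (nat_lit 0x82cfe)) e))) (c (c (m (nat_lit 0x499404c)) (c (p (nat_lit 0x161d2f4)) e)) (c (c (p (nat_lit
  0x358bd4a)) e) e))) (c (c (c (p (nat_lit 0xc80136)) (c (m (nat_lit 0x708690)) e)) (c (c (p (nat_lit
  0x80a57c)) e) e)) (c (c (c (m (nat_lit 0x18fb8d4)) e) e) e))) (c (c (c (c (m (nat_lit 0xf7dc2e)) (c (m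
  (nat_lit 0x8860f8)) e)) (c (c (p (nat_lit 0x18ad976)) e) e)) (c (c (c (p (nat_lit 0xa37400)) e) e) e)) e))
  (c (c (c (c (c (m (nat_lit 0xde7848)) (c (m (nat_lit 0x14643c)) e)) (c (c (m (nat_lit 0xd38750)) e) e)) (c
  (c (c (p (nat_lit 0x495d2)) e) e) e)) e) e)) (c (c (c (c (c (c (p (nat_lit 0x4f17e52)) (c (p (nat_lit
  0x2342af0)) e)) (c (c (m (nat_lit 0x29e6ce6)) e) e)) (c (c (c (m (nat_lit 0x164acd8)) e) e) e)) e) e) e)))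
  (c (c (c (c (c (c (c (p (nat_lit 0xd503018)) (c (m (nat_lit 0x3f3cc4e)) (c (m (nat_lit 0x128d95a)) e))) (c
  (c (m (nat_lit 0x16ea18e)) (c (p (nat_lit 0xf6a38c)) e)) (c (c (m (nat_lit 0xf3ea54)) e) e))) (c (c (c (m
  (nat_lit 0x220aa06)) (c (p (nat_lit 0x4b5bbc)) e)) (c (c (p (nat_lit 0x12ef13c)) e) e)) (c (c (c (m
  (nat_lit 0x506eaa)) e) e) e))) (c (c (c (c (m (nat_lit 0x31b7320)) (c (m (nat_lit 0x3e7996)) e)) (c (c (m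
  (nat_lit 0xc9a4b8)) e) e)) (c (c (c (p (nat_lit 0xb37e94)) e) e) e)) (c (c (c (c (p (nat_lit 0x101ac12)) e)
  e) e) e))) (c (c (c (c (c (m (nat_lit 0x31e600c)) (c (m (nat_lit 0x27ed7e6)) e)) (c (c (m (nat_lit
  0x14d9c24)) e) e)) (c (c (c (p (nat_lit 0x242ae8e)) e) e) e)) (c (c (c (c (m (nat_lit 0x19222e)) e) e) e)
  e)) (c (c (c (c (c (m (nat_lit 0x10882bc)) e) e) e) e) e))) (c (c (c (c (c (c (p (nat_lit 0x72ee032)) (c (p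
  (nat_lit 0x71307c)) e)) (c (c (p (nat_lit 0x1575bf4)) e) e)) (c (c (c (m (nat_lit 0x37c3b6)) e) e) e)) (c
  (c (c (c (m (nat_lit 0x154874a)) e) e) e) e)) (c (c (c (c (c (p (nat_lit 0x859122)) e) e) e) e) e)) (c (c
  (c (c (c (c (m (nat_lit 0x153d7c4)) e) e) e) e) e) e))) (c (c (c (c (c (c (c (m (nat_lit 0x5a542be)) (c (p
  (nat_lit 0x5d7f6a4)) e)) (c (c (m (nat_lit 0x4124b50)) e) e)) (c (c (c (p (nat_lit 0x8355e4)) e) e) e)) (c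
  (c (c (c (m (nat_lit 0x5ddc092)) e) e) e) e)) (c (c (c (c (c (m (nat_lit 0xff6f06)) e) e) e) e) e)) (c (c
  (c (c (c (c (p (nat_lit 0x28bcdaa)) e) e) e) e) e) e)) (c (c (c (c (c (c (c (p (nat_lit 0x244bce4)) e) e)
  e) e) e) e) e)))) (c (c (c (c (c (c (c (c (p (nat_lit 0x131381c4)) (c (p (nat_lit 0x1061b08)) (c (p
  (nat_lit 0xfa270e)) e))) (c (c (m (nat_lit 0xa5eddda)) (c (m (nat_lit 0xe46cc)) e)) (c (c (m (nat_lit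
  0xa8241e)) e) e))) (c (c (c (p (nat_lit 0xae9aa4)) (c (m (nat_lit 0x1231266)) e)) (c (c (m (nat_lit
  0x876900)) e) e)) (c (c (c (m (nat_lit 0x3903ba)) e) e) e))) (c (c (c (c (m (nat_lit 0x8d2c6e8)) (c (p
  (nat_lit 0x128b2a2)) e)) (c (c (m (nat_lit 0x76e3a3e)) e) e)) (c (c (c (m (nat_lit 0x2698584)) e) e) e)) (c
  (c (c (c (p (nat_lit 0x1116624)) e) e) e) e))) (c (c (c (c (c (p (nat_lit 0x71b304a)) (c (p (nat_lit
  0x44c17c8)) e)) (c (c (m (nat_lit 0x482df36)) e) e)) (c (c (c (m (nat_lit 0x3c156cc)) e) e) e)) (c (c (c (c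
  (p (nat_lit 0x9d047c)) e) e) e) e)) (c (c (c (c (c (p (nat_lit 0xa76118)) e) e) e) e) e))) (c (c (c (c (c
  (c (p (nat_lit 0xea3c00c)) (c (m (nat_lit 0x4f54eae)) e)) (c (c (p (nat_lit 0xa1e1a6)) e) e)) (c (c (c (m
  (nat_lit 0x16b1d70)) e) e) e)) (c (c (c (c (p (nat_lit 0x16b4854)) e) e) e) e)) (c (c (c (c (c (m (nat_lit
  0x6c4ba2)) e) e) e) e) e)) (c (c (c (c (c (c (m (nat_lit 0x2d79e96)) e) e) e) e) e) e))) (c (c (c (c (c (c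
  (c (m (nat_lit 0xcaf7bf8)) (c (m (nat_lit 0xca69ec)) e)) (c (c (p (nat_lit 0x400d502)) e) e)) (c (c (c (p
  (nat_lit 0xbc5d52)) e) e) e)) (c (c (c (c (p (nat_lit 0x47312ee)) e) e) e) e)) (c (c (c (c (c (p (nat_lit
  0x2cca2d6)) e) e) e) e) e)) (c (c (c (c (c (c (m (nat_lit 0x1341cf6)) e) e) e) e) e) e)) (c (c (c (c (c (c
  (c (p (nat_lit 0x3876948)) e) e) e) e) e) e) e))) (c (c (c (c (c (c (c (c (m (nat_lit 0x912bbe6)) (c (m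
  (nat_lit 0x139c266)) e)) (c (c (p (nat_lit 0x7c22928)) e) e)) (c (c (c (p (nat_lit 0x11a5fa6)) e) e) e)) (c
  (c (c (c (m (nat_lit 0x1ddb70c)) e) e) e) e)) (c (c (c (c (c (m (nat_lit 0x61e00de)) e) e) e) e) e)) (c (c
  (c (c (c (c (m (nat_lit 0x1441f8c)) e) e) e) e) e) e)) (c (c (c (c (c (c (c (m (nat_lit 0x2fe62f6)) e) e)
  e) e) e) e) e)) (c (c (c (c (c (c (c (c (p (nat_lit 0x41e7868)) e) e) e) e) e) e) e) e))))) (c (c (c (c (c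
  (c (c (c (c (m (nat_lit 0xf4e528)) (c (p (nat_lit 0x5e2528)) (c (m (nat_lit 0x171a55a)) e))) (c (c (p
  (nat_lit 0x3ff208e)) (c (m (nat_lit 0x1949ea4)) e)) (c (c (p (nat_lit 0x1495020)) e) e))) (c (c (c (p
  (nat_lit 0x3d5bd3c)) (c (m (nat_lit 0xfac4e8)) e)) (c (c (m (nat_lit 0x4f9b66)) e) e)) (c (c (c (p (nat_lit
  0x1be43d2)) e) e) e))) (c (c (c (c (p (nat_lit 0x2d8dace)) (c (p (nat_lit 0x11de034)) (c (p (nat_lit
  0x21ee284)) e))) (c (c (m (nat_lit 0x30dae44)) (c (p (nat_lit 0x746406)) e)) (c (c (p (nat_lit 0x7906aa))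
  e) e))) (c (c (c (m (nat_lit 0x7d25f6)) (c (m (nat_lit 0x7015c8)) e)) (c (c (m (nat_lit 0xaceb34)) e) e))
  (c (c (c (m (nat_lit 0x318b58)) e) e) e))) (c (c (c (c (m (nat_lit 0x239eeba)) (c (p (nat_lit 0x218d1e0))
  e)) (c (c (m (nat_lit 0x50ae82)) e) e)) (c (c (c (m (nat_lit 0x1b9c3e4)) e) e) e)) e))) (c (c (c (c (c (m
  (nat_lit 0x5f7094e)) (c (m (nat_lit 0x83ea8e)) (c (m (nat_lit 0x780a56)) e))) (c (c (m (nat_lit 0x2b4eab8))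
  (c (p (nat_lit 0xf297b4)) e)) (c (c (m (nat_lit 0x2d02ac)) e) e))) (c (c (c (m (nat_lit 0x30f51c6)) (c (m
  (nat_lit 0x9de8ca)) e)) (c (c (p (nat_lit 0xeb5bfa)) e) e)) (c (c (c (p (nat_lit 0x1eeb26)) e) e) e))) (c
  (c (c (c (m (nat_lit 0xf5c850)) (c (p (nat_lit 0x5cf5e0)) e)) (c (c (p (nat_lit 0xd4ba5e)) e) e)) (c (c (c
  (m (nat_lit 0xbbb6c)) e) e) e)) e)) (c (c (c (c (c (p (nat_lit 0x18bd2a0)) (c (m (nat_lit 0x1a025d8)) e))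
  (c (c (p (nat_lit 0x9b6c9a)) e) e)) (c (c (c (p (nat_lit 0x1a9904)) e) e) e)) e) e))) (c (c (c (c (c (c (p
  (nat_lit 0xeeefc6)) (c (m (nat_lit 0x61280a6)) (c (p (nat_lit 0x43fde9e)) e))) (c (c (m (nat_lit
  0x12077d6)) (c (p (nat_lit 0x2cc8e)) e)) (c (c (p (nat_lit 0x199ee34)) e) e))) (c (c (c (m (nat_lit
  0x32a908a)) (c (p (nat_lit 0x135a788)) e)) (c (c (m (nat_lit 0x533550)) e) e)) (c (c (c (p (nat_lit
  0xc1ce3c)) e) e) e))) (c (c (c (c (p (nat_lit 0x3203e86)) (c (p (nat_lit 0x458c64)) e)) (c (c (p (nat_lit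
  0x16ea044)) e) e)) (c (c (c (p (nat_lit 0x274159e)) e) e) e)) e)) (c (c (c (c (c (m (nat_lit 0x10dacae)) (c
  (p (nat_lit 0x79ef60)) e)) (c (c (m (nat_lit 0x4f2ac2)) e) e)) (c (c (c (p (nat_lit 0x5ce8b4)) e) e) e)) e)
  e)) (c (c (c (c (c (c (p (nat_lit 0x2374a4)) (c (m (nat_lit 0x177e57a)) e)) (c (c (m (nat_lit 0x5f7e82)) e)
  e)) (c (c (c (m (nat_lit 0x2983fa4)) e) e) e)) e) e) e))) (c (c (c (c (c (c (c (m (nat_lit 0x3478adc)) (c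
  (p (nat_lit 0x3422c52)) (c (m (nat_lit 0xe65962)) e))) (c (c (m (nat_lit 0x663c2e2)) (c (m (nat_lit
  0x28c7dc)) e)) (c (c (p (nat_lit 0x132f618)) e) e))) (c (c (c (m (nat_lit 0x3da9e68)) (c (m (nat_lit
  0x791070)) e)) (c (c (m (nat_lit 0x1f672d4)) e) e)) (c (c (c (p (nat_lit 0xbb2312)) e) e) e))) (c (c (c (c
  (m (nat_lit 0x2fd5a6)) (c (p (nat_lit 0x2a4c43a)) e)) (c (c (m (nat_lit 0x11446c2)) e) e)) (c (c (c (p
  (nat_lit 0x17cf268)) e) e) e)) (c (c (c (c (m (nat_lit 0xee7958)) e) e) e) e))) (c (c (c (c (c (p (nat_lit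
  0x3e5dcb2)) (c (m (nat_lit 0xd17090)) e)) (c (c (p (nat_lit 0x119c766)) e) e)) (c (c (c (p (nat_lit
  0x453cba)) e) e) e)) (c (c (c (c (m (nat_lit 0x1ded70)) e) e) e) e)) (c (c (c (c (c (p (nat_lit 0x1340a36))
  e) e) e) e) e))) (c (c (c (c (c (c (p (nat_lit 0x5c711a)) (c (p (nat_lit 0x36fbd30)) e)) (c (c (p (nat_lit
  0x4f88832)) e) e)) (c (c (c (m (nat_lit 0x22eb6ca)) e) e) e)) (c (c (c (c (m (nat_lit 0xdf76ca)) e) e) e)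
  e)) (c (c (c (c (c (p (nat_lit 0x15b24b2)) e) e) e) e) e)) (c (c (c (c (c (c (m (nat_lit 0xa15998)) e) e)
  e) e) e) e))) (c (c (c (c (c (c (c (p (nat_lit 0x73753e6)) (c (m (nat_lit 0x302fd96)) e)) (c (c (p (nat_lit
  0x383ad32)) e) e)) (c (c (c (p (nat_lit 0x3665688)) e) e) e)) (c (c (c (c (m (nat_lit 0xf623ac)) e) e) e)
  e)) (c (c (c (c (c (m (nat_lit 0x43f9a40)) e) e) e) e) e)) (c (c (c (c (c (c (m (nat_lit 0x3d0cc32)) e) e)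
  e) e) e) e)) (c (c (c (c (c (c (c (m (nat_lit 0x6fb016)) e) e) e) e) e) e) e)))) (c (c (c (c (c (c (c (c (p
  (nat_lit 0x193e98a)) (c (p (nat_lit 0x145a40c)) (c (m (nat_lit 0x25c7106)) e))) (c (c (p (nat_lit
  0xf607a4)) (c (p (nat_lit 0x61f1a0)) e)) (c (c (p (nat_lit 0x1bbc6a)) e) e))) (c (c (c (m (nat_lit
  0x66ed288)) (c (m (nat_lit 0x3f0a32)) e)) (c (c (p (nat_lit 0x12ae78)) e) e)) (c (c (c (m (nat_lit
  0x13f913a)) e) e) e))) (c (c (c (c (m (nat_lit 0x258d1ac)) (c (p (nat_lit 0x13464ba)) e)) (c (c (p (nat_lit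
  0x183d72e)) e) e)) (c (c (c (p (nat_lit 0x1ff381e)) e) e) e)) (c (c (c (c (p (nat_lit 0x9388b0)) e) e) e)
  e))) (c (c (c (c (c (m (nat_lit 0x540262e)) (c (p (nat_lit 0x9505e0)) e)) (c (c (m (nat_lit 0x1c7916)) e)
  e)) (c (c (c (p (nat_lit 0x16304e2)) e) e) e)) (c (c (c (c (m (nat_lit 0xd2ecb2)) e) e) e) e)) (c (c (c (c
  (c (p (nat_lit 0x3f0762)) e) e) e) e) e))) (c (c (c (c (c (c (p (nat_lit 0x6131a8a)) (c (m (nat_lit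
  0x711a6e)) e)) (c (c (p (nat_lit 0x265e0d2)) e) e)) (c (c (c (p (nat_lit 0x5049f0)) e) e) e)) (c (c (c (c
  (m (nat_lit 0x6aa0c4)) e) e) e) e)) (c (c (c (c (c (m (nat_lit 0x41daec)) e) e) e) e) e)) (c (c (c (c (c (c
  (m (nat_lit 0x3046ec)) e) e) e) e) e) e))) (c (c (c (c (c (c (c (m (nat_lit 0x28b5c64)) (c (m (nat_lit
  0x1903788)) e)) (c (c (p (nat_lit 0x193ab86)) e) e)) (c (c (c (m (nat_lit 0xafae92)) e) e) e)) (c (c (c (c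
  (p (nat_lit 0x354f516)) e) e) e) e)) (c (c (c (c (c (p (nat_lit 0x1667a36)) e) e) e) e) e)) (c (c (c (c (c
  (c (m (nat_lit 0x254182e)) e) e) e) e) e) e)) (c (c (c (c (c (c (c (p (nat_lit 0x67b3f6)) e) e) e) e) e) e)
  e))) (c (c (c (c (c (c (c (c (m (nat_lit 0x32134b6)) (c (p (nat_lit 0x1d25d3e)) e)) (c (c (m (nat_lit
  0x2651a8a)) e) e)) (c (c (c (p (nat_lit 0x1f5a308)) e) e) e)) (c (c (c (c (p (nat_lit 0xbae8e)) e) e) e)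
  e)) (c (c (c (c (c (p (nat_lit 0x4f91718)) e) e) e) e) e)) (c (c (c (c (c (c (m (nat_lit 0x22312b6)) e) e)
  e) e) e) e)) (c (c (c (c (c (c (c (p (nat_lit 0x151615e)) e) e) e) e) e) e) e)) (c (c (c (c (c (c (c (c (m
  (nat_lit 0x2c33016)) e) e) e) e) e) e) e) e)))) (c (c (c (c (c (c (c (c (c (m (nat_lit 0x3f1356)) (c (m
  (nat_lit 0x2913450)) (c (p (nat_lit 0x147f1f2)) e))) (c (c (p (nat_lit 0x1194c00)) (c (p (nat_lit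
  0x1d684fa)) e)) (c (c (m (nat_lit 0x1a193e4)) e) e))) (c (c (c (m (nat_lit 0xac422)) (c (p (nat_lit
  0x7f0b42)) e)) (c (c (p (nat_lit 0x115f5cc)) e) e)) (c (c (c (m (nat_lit 0x12f8afc)) e) e) e))) (c (c (c (c
  (p (nat_lit 0x1a1c6f6)) (c (m (nat_lit 0x2019918)) e)) (c (c (m (nat_lit 0x24d4be)) e) e)) (c (c (c (p
  (nat_lit 0x1538f4)) e) e) e)) (c (c (c (c (p (nat_lit 0x14a43a4)) e) e) e) e))) (c (c (c (c (c (p (nat_lit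
  0x2ac0bfa)) (c (p (nat_lit 0x1232e62)) e)) (c (c (p (nat_lit 0x79efe4)) e) e)) (c (c (c (p (nat_lit
  0x191ec80)) e) e) e)) (c (c (c (c (p (nat_lit 0x190a532)) e) e) e) e)) (c (c (c (c (c (m (nat_lit
  0x13e7674)) e) e) e) e) e))) (c (c (c (c (c (c (m (nat_lit 0x32d9648)) (c (p (nat_lit 0x32af18)) e)) (c (c
  (p (nat_lit 0xe1d224)) e) e)) (c (c (c (p (nat_lit 0x4c3662)) e) e) e)) (c (c (c (c (m (nat_lit 0x28425de))
  e) e) e) e)) (c (c (c (c (c (p (nat_lit 0x16619e8)) e) e) e) e) e)) (c (c (c (c (c (c (p (nat_lit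
  0x812e92)) e) e) e) e) e) e))) (c (c (c (c (c (c (c (m (nat_lit 0x2a74a48)) (c (m (nat_lit 0x11a0c6)) e))
  (c (c (m (nat_lit 0x1568c8e)) e) e)) (c (c (c (p (nat_lit 0x2afac8)) e) e) e)) (c (c (c (c (p (nat_lit
  0x111dba8)) e) e) e) e)) (c (c (c (c (c (m (nat_lit 0x22ccf32)) e) e) e) e) e)) (c (c (c (c (c (c (p
  (nat_lit 0xa39fe0)) e) e) e) e) e) e)) (c (c (c (c (c (c (c (p (nat_lit 0x2b79ac0)) e) e) e) e) e) e) e)))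
  (c (c (c (c (c (c (c (c (p (nat_lit 0x221ffd0)) (c (p (nat_lit 0x181fdd0)) e)) (c (c (m (nat_lit
  0x390bb98)) e) e)) (c (c (c (p (nat_lit 0x1cc4f4c)) e) e) e)) (c (c (c (c (m (nat_lit 0x2027ade)) e) e) e)
  e)) (c (c (c (c (c (m (nat_lit 0x1202130)) e) e) e) e) e)) (c (c (c (c (c (c (p (nat_lit 0x8f274c)) e) e)
  e) e) e) e)) (c (c (c (c (c (c (c (p (nat_lit 0x11448c6)) e) e) e) e) e) e) e)) (c (c (c (c (c (c (c (c (p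
  (nat_lit 0x8f1192)) e) e) e) e) e) e) e) e))) (c (c (c (c (c (c (c (c (c (m (nat_lit 0x115d0e2)) (c (m
  (nat_lit 0x1a904c0)) e)) (c (c (m (nat_lit 0x14d336)) e) e)) (c (c (c (m (nat_lit 0x7d6a48)) e) e) e)) (c
  (c (c (c (m (nat_lit 0x9032ee)) e) e) e) e)) (c (c (c (c (c (m (nat_lit 0x6c441c)) e) e) e) e) e)) (c (c (c
  (c (c (c (p (nat_lit 0x8fd57c)) e) e) e) e) e) e)) (c (c (c (c (c (c (c (m (nat_lit 0xcf1ddc)) e) e) e) e)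
  e) e) e)) (c (c (c (c (c (c (c (c (m (nat_lit 0x12abcc0)) e) e) e) e) e) e) e) e)) (c (c (c (c (c (c (c (c
  (c (p (nat_lit 0x2845056)) e) e) e) e) e) e) e) e) e)))))

noncomputable def gt_1_0_2 : Tr :=
  (c (c (c (c (c (c (c (c (c (p (nat_lit 0x269e90e)) (c (m (nat_lit 0x514be7c)) (c (p (nat_lit 0x4c80240))
  e))) (c (c (m (nat_lit 0x3f8dc18)) (c (p (nat_lit 0x1164e22)) e)) (c (c (m (nat_lit 0x371e8c)) e) e))) (c
  (c (c (m (nat_lit 0x5d091c8)) (c (p (nat_lit 0x40b036)) e)) (c (c (m (nat_lit 0x66eb62)) e) e)) (c (c (c (m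
  (nat_lit 0xac00e0)) e) e) e))) (c (c (c (c (m (nat_lit 0x5f4e88)) (c (p (nat_lit 0x695b10a)) (c (m (nat_lit
  0x2f53cce)) e))) (c (c (p (nat_lit 0x8c769c6)) (c (m (nat_lit 0x1baec60)) e)) (c (c (m (nat_lit 0x25caf10))
  e) e))) (c (c (c (p (nat_lit 0x819b84a)) (c (p (nat_lit 0x2600eb6)) e)) (c (c (m (nat_lit 0x18679da)) e)
  e)) (c (c (c (m (nat_lit 0x27a2d74)) e) e) e))) (c (c (c (c (p (nat_lit 0x7efde)) (c (p (nat_lit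
  0x148f39e)) (c (m (nat_lit 0xf1480e)) e))) (c (c (m (nat_lit 0x4de24e)) (c (m (nat_lit 0x146bb18)) e)) (c
  (c (m (nat_lit 0x23ae76)) e) e))) (c (c (c (m (nat_lit 0x1446414)) (c (m (nat_lit 0x1cd92c8)) e)) (c (c (m
  (nat_lit 0x16e660)) e) e)) (c (c (c (p (nat_lit 0x1c1e7dc)) e) e) e))) e))) (c (c (c (c (c (m (nat_lit
  0x12b3418)) (c (p (nat_lit 0x6654de)) (c (m (nat_lit 0x5bb74a)) e))) (c (c (p (nat_lit 0x3d234c8)) (c (m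
  (nat_lit 0x48d908)) e)) (c (c (p (nat_lit 0x8ab100)) e) e))) (c (c (c (m (nat_lit 0x3d70f70)) (c (m
  (nat_lit 0x3112752)) e)) (c (c (p (nat_lit 0x206d28e)) e) e)) (c (c (c (p (nat_lit 0x174bb14)) e) e) e)))
  (c (c (c (c (p (nat_lit 0x515712)) (c (m (nat_lit 0x73842c)) (c (p (nat_lit 0x800238)) e))) (c (c (m
  (nat_lit 0x303e4de)) (c (p (nat_lit 0x423930)) e)) (c (c (m (nat_lit 0xec7864)) e) e))) (c (c (c (m
  (nat_lit 0x6c603c)) (c (p (nat_lit 0xb8268a)) e)) (c (c (m (nat_lit 0x3f2004)) e) e)) (c (c (c (p (nat_lit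
  0x59e476)) e) e) e))) e)) (c (c (c (c (c (m (nat_lit 0x5c1c30)) (c (m (nat_lit 0x80042a)) (c (p (nat_lit
  0x1139358)) e))) (c (c (p (nat_lit 0x1297302)) (c (m (nat_lit 0x145bae)) e)) (c (c (p (nat_lit 0xd58aa8))
  e) e))) (c (c (c (p (nat_lit 0x1ef39ba)) (c (p (nat_lit 0x66a4d0)) e)) (c (c (m (nat_lit 0x1c9d244)) e) e))
  (c (c (c (m (nat_lit 0x10fee5e)) e) e) e))) e) e))) (c (c (c (c (c (c (p (nat_lit 0x1077318)) (c (m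
  (nat_lit 0x1bceaf0)) (c (m (nat_lit 0x2e621ce)) e))) (c (c (p (nat_lit 0x4a75acc)) (c (p (nat_lit
  0xfdd796)) e)) (c (c (m (nat_lit 0x3852c4e)) e) e))) (c (c (c (p (nat_lit 0x1e75cb4)) (c (m (nat_lit
  0xdfbab0)) e)) (c (c (p (nat_lit 0x1de871a)) e) e)) (c (c (c (p (nat_lit 0x1b81210)) e) e) e))) (c (c (c (c
  (p (nat_lit 0xae8634)) (c (p (nat_lit 0x9d8fc6)) (c (p (nat_lit 0xabceb2)) e))) (c (c (m (nat_lit
  0x25f0ef0)) (c (m (nat_lit 0xd7cb38)) e)) (c (c (p (nat_lit 0x1d0793c)) e) e))) (c (c (c (p (nat_lit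
  0xadb0c2)) (c (p (nat_lit 0x2146e7e)) e)) (c (c (p (nat_lit 0x405414)) e) e)) (c (c (c (m (nat_lit
  0x219f612)) e) e) e))) e)) (c (c (c (c (c (m (nat_lit 0xfacfaa)) (c (p (nat_lit 0xed8d30)) (c (p (nat_lit
  0x1168b12)) e))) (c (c (m (nat_lit 0xb4824a)) (c (p (nat_lit 0x2c3256)) e)) (c (c (m (nat_lit 0xbc6e86)) e)
  e))) (c (c (c (m (nat_lit 0x408f16e)) (c (m (nat_lit 0xee67dc)) e)) (c (c (p (nat_lit 0x22e8a)) e) e)) (c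
  (c (c (p (nat_lit 0x195978c)) e) e) e))) e) e)) (c (c (c (c (c (c (m (nat_lit 0x25cb642)) (c (p (nat_lit
  0x23cd06c)) (c (m (nat_lit 0x33b5d9a)) e))) (c (c (p (nat_lit 0x41a8d0)) (c (m (nat_lit 0x240f78)) e)) (c
  (c (p (nat_lit 0xaf558e)) e) e))) (c (c (c (p (nat_lit 0x6bb608c)) (c (p (nat_lit 0x2f5c7a)) e)) (c (c (m
  (nat_lit 0x5c3b20)) e) e)) (c (c (c (m (nat_lit 0xdab8c)) e) e) e))) e) e) e))) (c (c (c (c (c (c (c (p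
  (nat_lit 0x72a37e8)) (c (p (nat_lit 0x8d31752)) (c (m (nat_lit 0x2df9e7c)) e))) (c (c (p (nat_lit
  0x2c3fbd4)) (c (m (nat_lit 0x17c8026)) e)) (c (c (p (nat_lit 0x889cfe0)) e) e))) (c (c (c (p (nat_lit
  0x379bee8)) (c (m (nat_lit 0x61fd9ac)) e)) (c (c (m (nat_lit 0x32eb1e0)) e) e)) (c (c (c (p (nat_lit
  0x5a8ae9a)) e) e) e))) (c (c (c (c (m (nat_lit 0x29beab6)) (c (m (nat_lit 0x164434e)) (c (p (nat_lit
  0x20e2b22)) e))) (c (c (m (nat_lit 0x2a22b9c)) (c (p (nat_lit 0x393e0a)) e)) (c (c (p (nat_lit 0x210e478))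
  e) e))) (c (c (c (m (nat_lit 0xacafc28)) (c (p (nat_lit 0x8e57ec)) e)) (c (c (p (nat_lit 0x35bb492)) e) e))
  (c (c (c (p (nat_lit 0x80b6c2)) e) e) e))) (c (c (c (c (m (nat_lit 0xbb09f2)) (c (m (nat_lit 0x15c372)) e))
  (c (c (p (nat_lit 0x1695b7c)) e) e)) (c (c (c (m (nat_lit 0x2e7a1e)) e) e) e)) e))) (c (c (c (c (c (p
  (nat_lit 0x777ffa2)) (c (p (nat_lit 0x268b414)) (c (p (nat_lit 0x16bac6e)) e))) (c (c (m (nat_lit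
  0x5a26112)) (c (m (nat_lit 0x185040)) e)) (c (c (p (nat_lit 0x141979e)) e) e))) (c (c (c (m (nat_lit
  0x64af142)) (c (p (nat_lit 0x8a47e2)) e)) (c (c (p (nat_lit 0xf9b39a)) e) e)) (c (c (c (p (nat_lit
  0x561840)) e) e) e))) (c (c (c (c (m (nat_lit 0x3078ae0)) (c (p (nat_lit 0x191b06e)) e)) (c (c (p (nat_lit
  0x2659a9a)) e) e)) (c (c (c (p (nat_lit 0xc5280c)) e) e) e)) e)) (c (c (c (c (c (m (nat_lit 0x1d32df4)) (c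
  (m (nat_lit 0x1f31538)) e)) (c (c (p (nat_lit 0x2a7020)) e) e)) (c (c (c (p (nat_lit 0x5b218c)) e) e) e))
  e) e))) (c (c (c (c (c (c (p (nat_lit 0x2138baa)) (c (p (nat_lit 0x4293636)) (c (m (nat_lit 0x12c13c2))
  e))) (c (c (p (nat_lit 0x99b8e6)) (c (m (nat_lit 0xa070e2)) e)) (c (c (m (nat_lit 0x240b72a)) e) e))) (c (c
  (c (p (nat_lit 0x2b23a32)) (c (p (nat_lit 0xed54ea)) e)) (c (c (m (nat_lit 0x2c26c38)) e) e)) (c (c (c (p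
  (nat_lit 0x21c213c)) e) e) e))) (c (c (c (c (m (nat_lit 0x2b86fc)) (c (p (nat_lit 0x629592)) e)) (c (c (m
  (nat_lit 0x5a1506)) e) e)) (c (c (c (p (nat_lit 0x16191c)) e) e) e)) e)) (c (c (c (c (c (p (nat_lit
  0x1573e18)) (c (m (nat_lit 0x25db728)) e)) (c (c (p (nat_lit 0x19044ae)) e) e)) (c (c (c (p (nat_lit
  0x6ff81c)) e) e) e)) e) e)) (c (c (c (c (c (c (m (nat_lit 0x70804a4)) (c (p (nat_lit 0x1a5356)) e)) (c (c
  (p (nat_lit 0x218a4f8)) e) e)) (c (c (c (p (nat_lit 0x1053252)) e) e) e)) e) e) e))) (c (c (c (c (c (c (c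
  (m (nat_lit 0x59bcfaa)) (c (m (nat_lit 0xa88dedc)) (c (p (nat_lit 0xf538c2)) e))) (c (c (m (nat_lit
  0x12e82c)) (c (p (nat_lit 0x1a48448)) e)) (c (c (m (nat_lit 0x6748db2)) e) e))) (c (c (c (p (nat_lit
  0x377da98)) (c (p (nat_lit 0x4a5585e)) e)) (c (c (p (nat_lit 0x2c60844)) e) e)) (c (c (c (m (nat_lit
  0x55ed9aa)) e) e) e))) (c (c (c (c (p (nat_lit 0x333cbb8)) (c (m (nat_lit 0x1576b06)) e)) (c (c (m (nat_lit
  0x11fe338)) e) e)) (c (c (c (p (nat_lit 0x68b704c)) e) e) e)) (c (c (c (c (p (nat_lit 0x5c864a)) e) e) e)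
  e))) (c (c (c (c (c (m (nat_lit 0x13493d6)) (c (m (nat_lit 0x1f2c29a)) e)) (c (c (m (nat_lit 0x15ed7c8)) e)
  e)) (c (c (c (p (nat_lit 0x20ce4dc)) e) e) e)) (c (c (c (c (m (nat_lit 0x805a4)) e) e) e) e)) (c (c (c (c
  (c (p (nat_lit 0x11621d6)) e) e) e) e) e))) (c (c (c (c (c (c (m (nat_lit 0x809f550)) (c (m (nat_lit
  0x182dc72)) e)) (c (c (m (nat_lit 0xae19ce)) e) e)) (c (c (c (p (nat_lit 0x2a5c5e)) e) e) e)) (c (c (c (c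
  (p (nat_lit 0x6aedda)) e) e) e) e)) (c (c (c (c (c (p (nat_lit 0x8b1202)) e) e) e) e) e)) (c (c (c (c (c (c
  (p (nat_lit 0x2d58aca)) e) e) e) e) e) e))) (c (c (c (c (c (c (c (p (nat_lit 0x24c771c)) (c (p (nat_lit
  0x48d86cc)) e)) (c (c (p (nat_lit 0x172af34)) e) e)) (c (c (c (m (nat_lit 0x407275e)) e) e) e)) (c (c (c (c
  (m (nat_lit 0xa83240)) e) e) e) e)) (c (c (c (c (c (p (nat_lit 0x7aaec4)) e) e) e) e) e)) (c (c (c (c (c (c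
  (p (nat_lit 0x3d0dbbc)) e) e) e) e) e) e)) (c (c (c (c (c (c (c (m (nat_lit 0x4d4ec2e)) e) e) e) e) e) e)
  e))))) (c (c (c (c (c (c (c (c (m (nat_lit 0x148c74)) (c (p (nat_lit 0x69e41b0)) (c (p (nat_lit 0x14950ce))
  e))) (c (c (m (nat_lit 0xa7799c)) (c (m (nat_lit 0x1949ee0)) e)) (c (c (m (nat_lit 0x171a52a)) e) e))) (c
  (c (c (m (nat_lit 0x19e692a)) (c (m (nat_lit 0x4f9bea)) e)) (c (c (m (nat_lit 0xfac494)) e) e)) (c (c (c (p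
  (nat_lit 0x1be438a)) e) e) e))) (c (c (c (c (m (nat_lit 0x4bf462c)) (c (p (nat_lit 0x16afb14)) (c (m
  (nat_lit 0x2d031e)) e))) (c (c (m (nat_lit 0x312e898)) (c (p (nat_lit 0xf2978a)) e)) (c (c (m (nat_lit
  0x780a20)) e) e))) (c (c (c (m (nat_lit 0xf38b02)) (c (p (nat_lit 0xeb5c72)) e)) (c (c (m (nat_lit
  0x9de882)) e) e)) (c (c (c (p (nat_lit 0x1eeb08)) e) e) e))) (c (c (c (c (p (nat_lit 0x18bd258)) (c (p
  (nat_lit 0x9b6d24)) e)) (c (c (m (nat_lit 0x1a02524)) e) e)) (c (c (c (p (nat_lit 0x1a98aa)) e) e) e)) e)))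
  (c (c (c (c (c (p (nat_lit 0x478d880)) (c (p (nat_lit 0x3429ae6)) (c (p (nat_lit 0x7905c6)) e))) (c (c (m
  (nat_lit 0x48db7b6)) (c (p (nat_lit 0x746472)) e)) (c (c (p (nat_lit 0x21ee224)) e) e))) (c (c (c (p
  (nat_lit 0x190933e)) (c (m (nat_lit 0xaceb16)) e)) (c (c (m (nat_lit 0x701574)) e) e)) (c (c (c (m (nat_lit
  0x318bd6)) e) e) e))) (c (c (c (c (m (nat_lit 0xf5c85c)) (c (p (nat_lit 0xd4ba6a)) e)) (c (c (p (nat_lit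
  0x5cf5bc)) e) e)) (c (c (c (m (nat_lit 0xbbb8a)) e) e) e)) e)) (c (c (c (c (c (m (nat_lit 0x239ee7e)) (c (m
  (nat_lit 0x50af60)) e)) (c (c (p (nat_lit 0x218d1d4)) e) e)) (c (c (c (m (nat_lit 0x1b9c342)) e) e) e)) e)
  e))) (c (c (c (c (c (c (p (nat_lit 0x51ef9e2)) (c (m (nat_lit 0x2728e36)) (c (p (nat_lit 0x199edc2)) e)))
  (c (c (m (nat_lit 0xe7fb1a8)) (c (p (nat_lit 0x2cba4)) e)) (c (c (p (nat_lit 0x43fdebc)) e) e))) (c (c (c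
  (m (nat_lit 0x23f89e6)) (c (m (nat_lit 0x53352c)) e)) (c (c (p (nat_lit 0x135a7ca)) e) e)) (c (c (c (p
  (nat_lit 0xc1cf26)) e) e) e))) (c (c (c (c (m (nat_lit 0x10dac5a)) (c (m (nat_lit 0x4f2af8)) e)) (c (c (p
  (nat_lit 0x79eed6)) e) e)) (c (c (c (p (nat_lit 0x5ce8f6)) e) e) e)) e)) (c (c (c (c (c (p (nat_lit
  0x3203e8c)) (c (p (nat_lit 0x16ea098)) e)) (c (c (p (nat_lit 0x458c88)) e) e)) (c (c (c (p (nat_lit
  0x27415b6)) e) e) e)) e) e)) (c (c (c (c (c (c (p (nat_lit 0x23755e)) (c (m (nat_lit 0x5f7e82)) e)) (c (c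
  (m (nat_lit 0x177e5da)) e) e)) (c (c (c (m (nat_lit 0x2983ffe)) e) e) e)) e) e) e))) (c (c (c (c (c (c (c
  (m (nat_lit 0x35683ce)) (c (m (nat_lit 0xa9b1d76)) (c (p (nat_lit 0x132f5f4)) e))) (c (c (p (nat_lit
  0x3568422)) (c (m (nat_lit 0x28c7a0)) e)) (c (c (m (nat_lit 0xe658f6)) e) e))) (c (c (c (m (nat_lit
  0x3eef410)) (c (m (nat_lit 0x1f6729e)) e)) (c (c (m (nat_lit 0x7910e2)) e) e)) (c (c (c (p (nat_lit
  0xbb2312)) e) e) e))) (c (c (c (c (p (nat_lit 0x35cad20)) (c (p (nat_lit 0xaf82a6)) e)) (c (c (p (nat_lit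
  0xdb1578)) e) e)) (c (c (c (p (nat_lit 0x189056a)) e) e) e)) (c (c (c (c (p (nat_lit 0x13409c4)) e) e) e)
  e))) (c (c (c (c (c (m (nat_lit 0x3013c8)) (c (m (nat_lit 0x123f762)) e)) (c (c (p (nat_lit 0x3e47ae8)) e)
  e)) (c (c (c (p (nat_lit 0x2e61730)) e) e) e)) (c (c (c (c (m (nat_lit 0x1ded82)) e) e) e) e)) (c (c (c (c
  (c (m (nat_lit 0xee78f2)) e) e) e) e) e))) (c (c (c (c (c (c (m (nat_lit 0x6a21d04)) (c (p (nat_lit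
  0x5b9311c)) e)) (c (c (p (nat_lit 0x55c25be)) e) e)) (c (c (c (m (nat_lit 0x2f9b57e)) e) e) e)) (c (c (c (c
  (p (nat_lit 0x15b2470)) e) e) e) e)) (c (c (c (c (c (m (nat_lit 0xdf779c)) e) e) e) e) e)) (c (c (c (c (c
  (c (m (nat_lit 0xa1589c)) e) e) e) e) e) e))) (c (c (c (c (c (c (c (p (nat_lit 0x54924cc)) (c (p (nat_lit
  0x321534c)) e)) (c (c (m (nat_lit 0x16f114e)) e) e)) (c (c (c (p (nat_lit 0x5e4d3f0)) e) e) e)) (c (c (c (c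
  (m (nat_lit 0x460f0b6)) e) e) e) e)) (c (c (c (c (c (m (nat_lit 0x118a9dc)) e) e) e) e) e)) (c (c (c (c (c
  (c (m (nat_lit 0x2c90562)) e) e) e) e) e) e)) (c (c (c (c (c (c (c (m (nat_lit 0xdb0564)) e) e) e) e) e) e)
  e)))) (c (c (c (c (c (c (c (c (p (nat_lit 0x2dc16e0)) (c (p (nat_lit 0x14e7808)) (c (m (nat_lit 0x1a19300))
  e))) (c (c (p (nat_lit 0x3cb5e9c)) (c (p (nat_lit 0x1d68596)) e)) (c (c (p (nat_lit 0x147f14a)) e) e))) (c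
  (c (c (m (nat_lit 0x2c8980)) (c (p (nat_lit 0x115f524)) e)) (c (c (p (nat_lit 0x7f0a8e)) e) e)) (c (c (c (m
  (nat_lit 0x12f8b02)) e) e) e))) (c (c (c (c (m (nat_lit 0x7c1d5a0)) (c (m (nat_lit 0x33bb080)) e)) (c (c (p
  (nat_lit 0x205a610)) e) e)) (c (c (c (m (nat_lit 0x1cda2ac)) e) e) e)) (c (c (c (c (m (nat_lit 0x13e7656))
  e) e) e) e))) (c (c (c (c (c (m (nat_lit 0x78132ae)) (c (m (nat_lit 0x6656d12)) e)) (c (c (p (nat_lit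
  0x26a4776)) e) e)) (c (c (c (m (nat_lit 0x361a676)) e) e) e)) (c (c (c (c (p (nat_lit 0x190a568)) e) e) e)
  e)) (c (c (c (c (c (p (nat_lit 0x14a4380)) e) e) e) e) e))) (c (c (c (c (c (c (m (nat_lit 0x437dc66)) (c (p
  (nat_lit 0x173421c)) e)) (c (c (p (nat_lit 0x6b37696)) e) e)) (c (c (c (p (nat_lit 0x2c2d04)) e) e) e)) (c
  (c (c (c (p (nat_lit 0x1661a06)) e) e) e) e)) (c (c (c (c (c (m (nat_lit 0x2842602)) e) e) e) e) e)) (c (c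
  (c (c (c (c (p (nat_lit 0x812e92)) e) e) e) e) e) e))) (c (c (c (c (c (c (c (p (nat_lit 0x295ad90)) (c (p
  (nat_lit 0x1417e90)) e)) (c (c (m (nat_lit 0x3baf8b2)) e) e)) (c (c (c (m (nat_lit 0x1619dae)) e) e) e)) (c
  (c (c (c (m (nat_lit 0x2101668)) e) e) e) e)) (c (c (c (c (c (p (nat_lit 0x896130)) e) e) e) e) e)) (c (c
  (c (c (c (c (p (nat_lit 0x6115c98)) e) e) e) e) e) e)) (c (c (c (c (c (c (c (p (nat_lit 0x22a40de)) e) e)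
  e) e) e) e) e))) (c (c (c (c (c (c (c (c (m (nat_lit 0xccb7c)) (c (m (nat_lit 0xe778e4)) e)) (c (c (m
  (nat_lit 0x4fee5f2)) e) e)) (c (c (c (p (nat_lit 0x43af310)) e) e) e)) (c (c (c (c (p (nat_lit 0x957a78e))
  e) e) e) e)) (c (c (c (c (c (p (nat_lit 0x79e0780)) e) e) e) e) e)) (c (c (c (c (c (c (m (nat_lit
  0x20ce386)) e) e) e) e) e) e)) (c (c (c (c (c (c (c (m (nat_lit 0x22d7daa)) e) e) e) e) e) e) e)) (c (c (c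
  (c (c (c (c (c (m (nat_lit 0x368f916)) e) e) e) e) e) e) e) e))))) (c (c (c (c (c (c (c (c (c (m (nat_lit
  0x7391958)) (c (p (nat_lit 0x544a40c)) (c (m (nat_lit 0x1fd8668)) e))) (c (c (m (nat_lit 0x202f56)) (c (m
  (nat_lit 0x210213c)) e)) (c (c (p (nat_lit 0x92d564)) e) e))) (c (c (c (p (nat_lit 0x4233df8)) (c (p
  (nat_lit 0x167b386)) e)) (c (c (p (nat_lit 0x27c576c)) e) e)) (c (c (c (m (nat_lit 0x8bfcf8)) e) e) e))) (c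
  (c (c (c (m (nat_lit 0x4421a54)) (c (p (nat_lit 0x1035a92)) (c (m (nat_lit 0x2cd09c)) e))) (c (c (p
  (nat_lit 0x26ae88c)) (c (m (nat_lit 0x3348498)) e)) (c (c (p (nat_lit 0x1863c6c)) e) e))) (c (c (c (p
  (nat_lit 0x500eb0)) (c (m (nat_lit 0x587d36)) e)) (c (c (p (nat_lit 0x1290600)) e) e)) (c (c (c (p (nat_lit
  0x1004c6a)) e) e) e))) (c (c (c (c (p (nat_lit 0x3f75f0)) (c (m (nat_lit 0x12d6cfe)) e)) (c (c (p (nat_lit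
  0x348e5e)) e) e)) (c (c (c (m (nat_lit 0x18905a)) e) e) e)) e))) (c (c (c (c (c (p (nat_lit 0xb81ea3a)) (c
  (m (nat_lit 0x95a7b0)) (c (m (nat_lit 0x100907a)) e))) (c (c (p (nat_lit 0x89eb90)) (c (p (nat_lit
  0x1cb0f9c)) e)) (c (c (m (nat_lit 0xea7896)) e) e))) (c (c (c (m (nat_lit 0x17bfa40)) (c (p (nat_lit
  0x3a1a36)) e)) (c (c (m (nat_lit 0x9c31da)) e) e)) (c (c (c (p (nat_lit 0x5b07b2)) e) e) e))) (c (c (c (c
  (m (nat_lit 0x14ce7ee)) (c (m (nat_lit 0xb7c0e4)) e)) (c (c (p (nat_lit 0x1cc36e)) e) e)) (c (c (c (p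
  (nat_lit 0x6a3374)) e) e) e)) e)) (c (c (c (c (c (m (nat_lit 0x2d90090)) (c (p (nat_lit 0x68998e)) e)) (c
  (c (m (nat_lit 0x830d42)) e) e)) (c (c (c (p (nat_lit 0x531ea6)) e) e) e)) e) e))) (c (c (c (c (c (c (p
  (nat_lit 0x18cb7a2)) (c (m (nat_lit 0x13c5c3c)) (c (p (nat_lit 0x358bc06)) e))) (c (c (m (nat_lit
  0x1f2c6ba)) (c (p (nat_lit 0x161d2b2)) e)) (c (c (m (nat_lit 0x82d04)) e) e))) (c (c (c (m (nat_lit
  0x4019904)) (c (p (nat_lit 0x80a5ee)) e)) (c (c (m (nat_lit 0x70867e)) e) e)) (c (c (c (m (nat_lit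
  0x18fb8b6)) e) e) e))) (c (c (c (c (m (nat_lit 0xde781e)) (c (m (nat_lit 0xd3877a)) e)) (c (c (m (nat_lit
  0x146430)) e) e)) (c (c (c (p (nat_lit 0x49596)) e) e) e)) e)) (c (c (c (c (c (m (nat_lit 0xf7dc16)) (c (p
  (nat_lit 0x18ad988)) e)) (c (c (m (nat_lit 0x886122)) e) e)) (c (c (c (p (nat_lit 0xa3742a)) e) e) e)) e)
  e)) (c (c (c (c (c (c (p (nat_lit 0x4f17e40)) (c (m (nat_lit 0x29e6d10)) e)) (c (c (p (nat_lit 0x2342acc))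
  e) e)) (c (c (c (m (nat_lit 0x164ac72)) e) e) e)) e) e) e))) (c (c (c (c (c (c (c (p (nat_lit 0x82d2e18))
  (c (m (nat_lit 0x530664)) (c (m (nat_lit 0xf3ea2a)) e))) (c (c (m (nat_lit 0x5fe9d40)) (c (p (nat_lit
  0xf6a2ae)) e)) (c (c (m (nat_lit 0x128d8d6)) e) e))) (c (c (c (m (nat_lit 0x396f67e)) (c (p (nat_lit
  0x12ef172)) e)) (c (c (p (nat_lit 0x4b5b26)) e) e)) (c (c (c (m (nat_lit 0x506e3e)) e) e) e))) (c (c (c (c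
  (p (nat_lit 0x1ba4a84)) (c (p (nat_lit 0x97c476)) e)) (c (c (m (nat_lit 0x2c9095e)) e) e)) (c (c (c (p
  (nat_lit 0x20d2f70)) e) e) e)) (c (c (c (c (m (nat_lit 0x1088358)) e) e) e) e))) (c (c (c (c (c (p (nat_lit
  0x2e964ac)) (c (p (nat_lit 0x7aee60)) e)) (c (c (m (nat_lit 0xd7efc8)) e) e)) (c (c (c (p (nat_lit
  0xc5ed6a)) e) e) e)) (c (c (c (c (m (nat_lit 0x19223a)) e) e) e) e)) (c (c (c (c (c (p (nat_lit 0x101ac72))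
  e) e) e) e) e))) (c (c (c (c (c (c (p (nat_lit 0xa1e35c)) (c (p (nat_lit 0x29178)) e)) (c (c (p (nat_lit
  0x129a230)) e) e)) (c (c (c (m (nat_lit 0x3785e2)) e) e) e)) (c (c (c (c (p (nat_lit 0x859188)) e) e) e)
  e)) (c (c (c (c (c (m (nat_lit 0x154874a)) e) e) e) e) e)) (c (c (c (c (c (c (m (nat_lit 0x153d7e8)) e) e)
  e) e) e) e))) (c (c (c (c (c (c (c (m (nat_lit 0x95412d8)) (c (m (nat_lit 0xc8fd18)) e)) (c (c (p (nat_lit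
  0x532b018)) e) e)) (c (c (c (p (nat_lit 0xa215a2)) e) e) e)) (c (c (c (c (m (nat_lit 0x6b20bc)) e) e) e)
  e)) (c (c (c (c (c (m (nat_lit 0x4003ffe)) e) e) e) e) e)) (c (c (c (c (c (c (p (nat_lit 0x16b448e)) e) e)
  e) e) e) e)) (c (c (c (c (c (c (c (p (nat_lit 0x5b0098c)) e) e) e) e) e) e) e)))) (c (c (c (c (c (c (c (c
  (m (nat_lit 0x57e75f4)) (c (m (nat_lit 0x4f932c0)) (c (p (nat_lit 0x1bbc7c)) e))) (c (c (p (nat_lit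
  0x609941a)) (c (p (nat_lit 0x61f18e)) e)) (c (c (m (nat_lit 0x25c710c)) e) e))) (c (c (c (p (nat_lit
  0xa82b2)) (c (p (nat_lit 0x12aeb4)) e)) (c (c (m (nat_lit 0x3f0ace)) e) e)) (c (c (c (m (nat_lit
  0x13f9176)) e) e) e))) (c (c (c (c (p (nat_lit 0x1d246a6)) (c (m (nat_lit 0x1c78c2)) e)) (c (c (p (nat_lit
  0x95069a)) e) e)) (c (c (c (p (nat_lit 0x16304c4)) e) e) e)) (c (c (c (c (p (nat_lit 0x3f06ae)) e) e) e)
  e))) (c (c (c (c (c (p (nat_lit 0xce3df0)) (c (p (nat_lit 0x183d77c)) e)) (c (c (p (nat_lit 0x1346454)) e)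
  e)) (c (c (c (p (nat_lit 0x1ff378e)) e) e) e)) (c (c (c (c (m (nat_lit 0xd2ec76)) e) e) e) e)) (c (c (c (c
  (c (p (nat_lit 0x9388b6)) e) e) e) e) e))) (c (c (c (c (c (c (m (nat_lit 0x2ce2048)) (c (p (nat_lit
  0x265e10e)) e)) (c (c (m (nat_lit 0x711af8)) e) e)) (c (c (c (p (nat_lit 0x504a32)) e) e) e)) (c (c (c (c
  (m (nat_lit 0x41da6e)) e) e) e) e)) (c (c (c (c (c (m (nat_lit 0x6aa070)) e) e) e) e) e)) (c (c (c (c (c (c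
  (m (nat_lit 0x30476a)) e) e) e) e) e) e))) (c (c (c (c (c (c (c (p (nat_lit 0x3b783ac)) (c (p (nat_lit
  0x129de06)) e)) (c (c (m (nat_lit 0xfad6b2)) e) e)) (c (c (c (m (nat_lit 0x1bdf2de)) e) e) e)) (c (c (c (c
  (m (nat_lit 0x2bf6c8)) e) e) e) e)) (c (c (c (c (c (p (nat_lit 0xbb680c)) e) e) e) e) e)) (c (c (c (c (c (c
  (m (nat_lit 0xc4f284)) e) e) e) e) e) e)) (c (c (c (c (c (c (c (m (nat_lit 0x3840222)) e) e) e) e) e) e)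
  e))) (c (c (c (c (c (c (c (c (p (nat_lit 0x3da69be)) (c (m (nat_lit 0x866088)) e)) (c (c (m (nat_lit
  0x278b896)) e) e)) (c (c (c (m (nat_lit 0x16d3cca)) e) e) e)) (c (c (c (c (m (nat_lit 0x3724d2e)) e) e) e)
  e)) (c (c (c (c (c (m (nat_lit 0xd07298)) e) e) e) e) e)) (c (c (c (c (c (c (p (nat_lit 0x65fe6da)) e) e)
  e) e) e) e)) (c (c (c (c (c (c (c (m (nat_lit 0x1398c6c)) e) e) e) e) e) e) e)) (c (c (c (c (c (c (c (c (p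
  (nat_lit 0x9a0656)) e) e) e) e) e) e) e) e)))) (c (c (c (c (c (c (c (c (c (p (nat_lit 0x3de8d72)) (c (m
  (nat_lit 0x4f5c7c2)) (c (m (nat_lit 0xa8228c)) e))) (c (c (p (nat_lit 0xc732fc)) (c (m (nat_lit 0xe4666))
  e)) (c (c (p (nat_lit 0xfa26e4)) e) e))) (c (c (c (m (nat_lit 0x378b10)) (c (m (nat_lit 0x876948)) e)) (c
  (c (m (nat_lit 0x1231242)) e) e)) (c (c (c (m (nat_lit 0x390390)) e) e) e))) (c (c (c (c (p (nat_lit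
  0xc1c8c6)) (c (p (nat_lit 0x40cc71c)) e)) (c (c (m (nat_lit 0x6764b8)) e) e)) (c (c (c (m (nat_lit
  0xfb7a0e)) e) e) e)) (c (c (c (c (p (nat_lit 0xa760d6)) e) e) e) e))) (c (c (c (c (c (m (nat_lit
  0x7bbefb6)) (c (p (nat_lit 0x31239c)) e)) (c (c (m (nat_lit 0x1327f6e)) e) e)) (c (c (c (m (nat_lit
  0x109a81a)) e) e) e)) (c (c (c (c (p (nat_lit 0x9d048e)) e) e) e) e)) (c (c (c (c (c (p (nat_lit
  0x1116624)) e) e) e) e) e))) (c (c (c (c (c (c (m (nat_lit 0x1dc23aa)) (c (m (nat_lit 0x1663788)) e)) (c (c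
  (p (nat_lit 0x66617a)) e) e)) (c (c (c (p (nat_lit 0x35e3f4a)) e) e) e)) (c (c (c (c (m (nat_lit 0x6c4b9c))
  e) e) e) e)) (c (c (c (c (c (p (nat_lit 0x16b484e)) e) e) e) e) e)) (c (c (c (c (c (c (m (nat_lit
  0x2d79eb4)) e) e) e) e) e) e))) (c (c (c (c (c (c (c (m (nat_lit 0x5994ace)) (c (p (nat_lit 0xe76420)) e))
  (c (c (p (nat_lit 0x3095d6)) e) e)) (c (c (c (p (nat_lit 0x125fc46)) e) e) e)) (c (c (c (c (m (nat_lit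
  0xe7db8a)) e) e) e) e)) (c (c (c (c (c (p (nat_lit 0xb4ed6)) e) e) e) e) e)) (c (c (c (c (c (c (p (nat_lit
  0x2cec5a8)) e) e) e) e) e) e)) (c (c (c (c (c (c (c (p (nat_lit 0x621c180)) e) e) e) e) e) e) e))) (c (c (c
  (c (c (c (c (c (p (nat_lit 0x1f38f42)) (c (p (nat_lit 0xe9921a)) e)) (c (c (p (nat_lit 0x73c428)) e) e)) (c
  (c (c (m (nat_lit 0x3be0d4)) e) e) e)) (c (c (c (c (p (nat_lit 0x1cb4680)) e) e) e) e)) (c (c (c (c (c (m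
  (nat_lit 0x1b3daa6)) e) e) e) e) e)) (c (c (c (c (c (c (m (nat_lit 0xa1bc0e)) e) e) e) e) e) e)) (c (c (c
  (c (c (c (c (m (nat_lit 0x158e7d0)) e) e) e) e) e) e) e)) (c (c (c (c (c (c (c (c (m (nat_lit 0x10fa988))
  e) e) e) e) e) e) e) e))) (c (c (c (c (c (c (c (c (c (p (nat_lit 0xb01ee8)) (c (p (nat_lit 0x19772e2)) e))
  (c (c (m (nat_lit 0x81cfae)) e) e)) (c (c (c (p (nat_lit 0x7357e0)) e) e) e)) (c (c (c (c (m (nat_lit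
  0x4331e8)) e) e) e) e)) (c (c (c (c (c (p (nat_lit 0x1d44ede)) e) e) e) e) e)) (c (c (c (c (c (c (p
  (nat_lit 0x1e404a)) e) e) e) e) e) e)) (c (c (c (c (c (c (c (m (nat_lit 0x2746f4a)) e) e) e) e) e) e) e))
  (c (c (c (c (c (c (c (c (m (nat_lit 0x3148e)) e) e) e) e) e) e) e) e)) (c (c (c (c (c (c (c (c (c (m
  (nat_lit 0x4bb556)) e) e) e) e) e) e) e) e) e)))))

noncomputable def gt_1_0_3 : Tr :=
  (c (c (c (c (c (c (c (c (c (p (nat_lit 0x5f903fa)) (c (m (nat_lit 0x2fe9efc)) (c (m (nat_lit 0xdd382c))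
  e))) (c (c (m (nat_lit 0x2fe9e30)) (c (p (nat_lit 0x1934964)) e)) (c (c (m (nat_lit 0xdd38b0)) e) e))) (c
  (c (c (m (nat_lit 0x63ca6fe)) (c (m (nat_lit 0xe831a0)) e)) (c (c (m (nat_lit 0xe83122)) e) e)) (c (c (c (p
  (nat_lit 0x2728d0a)) e) e) e))) (c (c (c (c (m (nat_lit 0x28f7424)) (c (p (nat_lit 0x6ebbcfc)) (c (m
  (nat_lit 0x11b2324)) e))) (c (c (p (nat_lit 0xd4f904)) (c (m (nat_lit 0x392652)) e)) (c (c (p (nat_lit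
  0x99df44)) e) e))) (c (c (c (p (nat_lit 0x241b906)) (c (p (nat_lit 0x34c99e0)) e)) (c (c (m (nat_lit
  0x842d06)) e) e)) (c (c (c (m (nat_lit 0x12764ac)) e) e) e))) (c (c (c (c (p (nat_lit 0x15a0e5a)) (c (m
  (nat_lit 0x474888)) (c (m (nat_lit 0xb32a64)) e))) (c (c (m (nat_lit 0x28f398c)) (c (p (nat_lit 0x240cf6c))
  e)) (c (c (p (nat_lit 0x16c9d88)) e) e))) (c (c (c (p (nat_lit 0x429cdec)) (c (m (nat_lit 0x387c68a)) e))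
  (c (c (m (nat_lit 0xcc5160)) e) e)) (c (c (c (m (nat_lit 0x1cb14d0)) e) e) e))) e))) (c (c (c (c (c (m
  (nat_lit 0x28f6f44)) (c (p (nat_lit 0xd4fa3c)) (c (p (nat_lit 0x99de84)) e))) (c (c (p (nat_lit 0x6ebbc48))
  (c (m (nat_lit 0x39213c)) e)) (c (c (m (nat_lit 0x11b215c)) e) e))) (c (c (c (p (nat_lit 0x241b2be)) (c (m
  (nat_lit 0x842e02)) e)) (c (c (p (nat_lit 0x34c98b4)) e) e)) (c (c (c (m (nat_lit 0x127659c)) e) e) e))) (c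
  (c (c (c (p (nat_lit 0x1d6d096)) (c (m (nat_lit 0x289923c)) (c (p (nat_lit 0x11096c4)) e))) (c (c (m
  (nat_lit 0x2899188)) (c (m (nat_lit 0x3c3b22)) e)) (c (c (p (nat_lit 0x11095d4)) e) e))) (c (c (c (p
  (nat_lit 0x3feeb0)) (c (m (nat_lit 0x1cb636c)) e)) (c (c (m (nat_lit 0x1cb6396)) e) e)) (c (c (c (p
  (nat_lit 0x6c541e)) e) e) e))) e)) (c (c (c (c (c (p (nat_lit 0x15a0ef6)) (c (m (nat_lit 0x28f3998)) (c (p
  (nat_lit 0x16c9da0)) e))) (c (c (m (nat_lit 0x4747b0)) (c (p (nat_lit 0x240cf00)) e)) (c (c (m (nat_lit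
  0xb32ba8)) e) e))) (c (c (c (p (nat_lit 0x429cb82)) (c (m (nat_lit 0xcc50be)) e)) (c (c (m (nat_lit
  0x387c642)) e) e)) (c (c (c (m (nat_lit 0x1cb1392)) e) e) e))) e) e))) (c (c (c (c (c (c (m (nat_lit
  0x2a487c2)) (c (p (nat_lit 0x18c126c)) (c (m (nat_lit 0x2832450)) e))) (c (c (p (nat_lit 0x18c11dc)) (c (p
  (nat_lit 0x145ed80)) e)) (c (c (m (nat_lit 0x2832450)) e) e))) (c (c (c (p (nat_lit 0x1763d1e)) (c (m
  (nat_lit 0x45996)) e)) (c (c (m (nat_lit 0x4593c)) e) e)) (c (c (c (p (nat_lit 0x163c566)) e) e) e))) (c (c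
  (c (c (p (nat_lit 0x16ae044)) (c (m (nat_lit 0x10e4f8)) (c (p (nat_lit 0x9de960)) e))) (c (c (p (nat_lit
  0x4bb25c)) (c (m (nat_lit 0x1b687fc)) e)) (c (c (m (nat_lit 0xad457c)) e) e))) (c (c (c (m (nat_lit
  0x2101dfa)) (c (p (nat_lit 0x197467e)) e)) (c (c (m (nat_lit 0xded09e)) e) e)) (c (c (c (m (nat_lit
  0x2f96d0)) e) e) e))) e)) (c (c (c (c (c (p (nat_lit 0x16adc6c)) (c (p (nat_lit 0x4bb0a0)) (c (m (nat_lit
  0xad4474)) e))) (c (c (m (nat_lit 0x10e564)) (c (m (nat_lit 0x1b6872a)) e)) (c (c (p (nat_lit 0x9de990)) e)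
  e))) (c (c (c (m (nat_lit 0x210173a)) (c (m (nat_lit 0xded110)) e)) (c (c (p (nat_lit 0x19746e4)) e) e)) (c
  (c (c (m (nat_lit 0x2f971e)) e) e) e))) e) e)) (c (c (c (c (c (c (m (nat_lit 0x47d8304)) (c (p (nat_lit
  0x135f510)) (c (m (nat_lit 0x13b57c)) e))) (c (c (p (nat_lit 0x135f54c)) (c (m (nat_lit 0x1174344)) e)) (c
  (c (m (nat_lit 0x13b588)) e) e))) (c (c (c (p (nat_lit 0x47245e0)) (c (p (nat_lit 0x285d86)) e)) (c (c (p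
  (nat_lit 0x285cae)) e) e)) (c (c (c (m (nat_lit 0x2b62ab0)) e) e) e))) e) e) e))) (c (c (c (c (c (c (c (m
  (nat_lit 0x93b44d4)) (c (p (nat_lit 0x68cfcf4)) (c (p (nat_lit 0x7159050)) e))) (c (c (p (nat_lit
  0x68cf814)) (c (p (nat_lit 0x37fe696)) e)) (c (c (p (nat_lit 0x71594e8)) e) e))) (c (c (c (m (nat_lit
  0xc0175d4)) (c (p (nat_lit 0x34838a6)) e)) (c (c (p (nat_lit 0x3483a02)) e) e)) (c (c (c (m (nat_lit
  0x28716)) e) e) e))) (c (c (c (c (p (nat_lit 0x85a8896)) (c (m (nat_lit 0x6959c9a)) (c (p (nat_lit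
  0x1e14f28)) e))) (c (c (p (nat_lit 0x2d8edd6)) (c (m (nat_lit 0x1704ffc)) e)) (c (c (p (nat_lit 0x1434d50))
  e) e))) (c (c (c (m (nat_lit 0x12c7db86)) (c (p (nat_lit 0x4735e4e)) e)) (c (c (p (nat_lit 0x435dbba)) e)
  e)) (c (c (c (p (nat_lit 0x5c97fd8)) e) e) e))) (c (c (c (c (m (nat_lit 0x4b8da20)) (c (p (nat_lit
  0x1137804)) e)) (c (c (p (nat_lit 0x126015c)) e) e)) (c (c (c (p (nat_lit 0x9d0662)) e) e) e)) e))) (c (c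
  (c (c (c (p (nat_lit 0x85a8080)) (c (p (nat_lit 0x2d8f0ee)) (c (p (nat_lit 0x1434ccc)) e))) (c (c (m
  (nat_lit 0x6959c6a)) (c (m (nat_lit 0x170501a)) e)) (c (c (p (nat_lit 0x1e14fc4)) e) e))) (c (c (c (m
  (nat_lit 0x12c7da5a)) (c (p (nat_lit 0x435db72)) e)) (c (c (p (nat_lit 0x4735f68)) e) e)) (c (c (c (p
  (nat_lit 0x5c98020)) e) e) e))) (c (c (c (c (m (nat_lit 0x2c59ab8)) (c (p (nat_lit 0x10ec702)) e)) (c (c (p
  (nat_lit 0x10ec79e)) e) e)) (c (c (c (p (nat_lit 0x1c50f5a)) e) e) e)) e)) (c (c (c (c (c (m (nat_lit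
  0x4b8d930)) (c (p (nat_lit 0x1260114)) e)) (c (c (p (nat_lit 0x11376a8)) e) e)) (c (c (c (p (nat_lit
  0x9d04b8)) e) e) e)) e) e))) (c (c (c (c (c (c (m (nat_lit 0x63e903a)) (c (p (nat_lit 0x3a457d6)) (c (m
  (nat_lit 0x12e3274)) e))) (c (c (p (nat_lit 0x3a4589c)) (c (m (nat_lit 0xfd050)) e)) (c (c (m (nat_lit
  0x12e3310)) e) e))) (c (c (c (p (nat_lit 0x132f5670)) (c (m (nat_lit 0x561e400)) e)) (c (c (m (nat_lit
  0x561e3a0)) e) e)) (c (c (c (m (nat_lit 0x39d6020)) e) e) e))) (c (c (c (c (m (nat_lit 0x145ea3e)) (c (p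
  (nat_lit 0x50edbe)) e)) (c (c (p (nat_lit 0xb8e3e4)) e) e)) (c (c (c (m (nat_lit 0x4e16b6)) e) e) e)) e))
  (c (c (c (c (c (m (nat_lit 0x145eac2)) (c (p (nat_lit 0xb8e3ea)) e)) (c (c (p (nat_lit 0x50eefc)) e) e)) (c
  (c (c (m (nat_lit 0x4e1638)) e) e) e)) e) e)) (c (c (c (c (c (c (p (nat_lit 0x199fe54)) (c (m (nat_lit
  0x790dd6)) e)) (c (c (m (nat_lit 0x790dee)) e) e)) (c (c (c (p (nat_lit 0x70d3352)) e) e) e)) e) e) e))) (c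
  (c (c (c (c (c (c (p (nat_lit 0xf331e72)) (c (m (nat_lit 0x3de6fa8)) (c (m (nat_lit 0x98123f4)) e))) (c (c
  (m (nat_lit 0x3de6e34)) (c (m (nat_lit 0x2edd88e)) e)) (c (c (m (nat_lit 0x9812730)) e) e))) (c (c (c (p
  (nat_lit 0x1def8fae)) (c (m (nat_lit 0x58abd2e)) e)) (c (c (m (nat_lit 0x58abdfa)) e) e)) (c (c (c (m
  (nat_lit 0x9516462)) e) e) e))) (c (c (c (c (m (nat_lit 0x76de9e6)) (c (m (nat_lit 0x32a4404)) e)) (c (c (m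
  (nat_lit 0x1eac3aa)) e) e)) (c (c (c (p (nat_lit 0xe157a2)) e) e) e)) (c (c (c (c (p (nat_lit 0x9df5de)) e)
  e) e) e))) (c (c (c (c (c (m (nat_lit 0x76de3d4)) (c (m (nat_lit 0x1eac4ca)) e)) (c (c (m (nat_lit
  0x32a4434)) e) e)) (c (c (c (p (nat_lit 0xe15652)) e) e) e)) (c (c (c (c (m (nat_lit 0x6926a0)) e) e) e)
  e)) (c (c (c (c (c (p (nat_lit 0x9df692)) e) e) e) e) e))) (c (c (c (c (c (c (p (nat_lit 0x1eb32a4)) (c (p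
  (nat_lit 0x1f08ba)) e)) (c (c (p (nat_lit 0x1f0956)) e) e)) (c (c (c (p (nat_lit 0x53040d2)) e) e) e)) (c
  (c (c (c (p (nat_lit 0x135ba36)) e) e) e) e)) (c (c (c (c (c (p (nat_lit 0x135ba00)) e) e) e) e) e)) (c (c
  (c (c (c (c (m (nat_lit 0x1e571b6)) e) e) e) e) e) e))) (c (c (c (c (c (c (c (m (nat_lit 0xfaa6478)) (c (p
  (nat_lit 0x7aedb1a)) e)) (c (c (p (nat_lit 0x7aedde4)) e) e)) (c (c (c (m (nat_lit 0x3762c6)) e) e) e)) (c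
  (c (c (c (p (nat_lit 0x77526e4)) e) e) e) e)) (c (c (c (c (c (p (nat_lit 0x7752564)) e) e) e) e) e)) (c (c
  (c (c (c (c (m (nat_lit 0x296d4ec)) e) e) e) e) e) e)) (c (c (c (c (c (c (c (m (nat_lit 0x13ff692)) e) e)
  e) e) e) e) e))))) (c (c (c (c (c (c (c (c (m (nat_lit 0x68870a0)) (c (m (nat_lit 0x9a1b038)) (c (p
  (nat_lit 0x186c858)) e))) (c (c (p (nat_lit 0xa008f72)) (c (m (nat_lit 0x122fe9e)) e)) (c (c (m (nat_lit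
  0x30013c8)) e) e))) (c (c (c (p (nat_lit 0x33c48a8)) (c (m (nat_lit 0x14e7370)) e)) (c (c (p (nat_lit
  0x22e6432)) e) e)) (c (c (c (m (nat_lit 0x6bdea0)) e) e) e))) (c (c (c (c (p (nat_lit 0x1aa9e04)) (c (m
  (nat_lit 0xf0d3770)) (c (m (nat_lit 0xab2dc0)) e))) (c (c (m (nat_lit 0xc066d50)) (c (m (nat_lit 0x5cb6a4))
  e)) (c (c (p (nat_lit 0x286320)) e) e))) (c (c (c (p (nat_lit 0x616cc44)) (c (m (nat_lit 0xcc6b88)) e)) (c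
  (c (p (nat_lit 0x18e2a4)) e) e)) (c (c (c (m (nat_lit 0x116a588)) e) e) e))) (c (c (c (c (p (nat_lit
  0x1476bc4)) (c (p (nat_lit 0x14d1752)) e)) (c (c (m (nat_lit 0xc8b3c2)) e) e)) (c (c (c (p (nat_lit
  0x552e64)) e) e) e)) e))) (c (c (c (c (c (p (nat_lit 0x6aeae06)) (c (m (nat_lit 0x9e9424)) (c (m (nat_lit
  0x2ab5c8c)) e))) (c (c (m (nat_lit 0x728c18a)) (c (p (nat_lit 0x1175fb8)) e)) (c (c (m (nat_lit 0x3a2dd4))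
  e) e))) (c (c (c (m (nat_lit 0x4a1425a)) (c (p (nat_lit 0x7af406)) e)) (c (c (m (nat_lit 0x17f1630)) e) e))
  (c (c (c (m (nat_lit 0xf64da)) e) e) e))) (c (c (c (c (m (nat_lit 0x139babc)) (c (p (nat_lit 0x1292d78))
  e)) (c (c (m (nat_lit 0x1c770c)) e) e)) (c (c (c (p (nat_lit 0x2c6c22)) e) e) e)) e)) (c (c (c (c (c (m
  (nat_lit 0x32a3f90)) (c (m (nat_lit 0xb5d90a)) e)) (c (c (p (nat_lit 0x27cbd5a)) e) e)) (c (c (c (m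
  (nat_lit 0x416034)) e) e) e)) e) e))) (c (c (c (c (c (c (m (nat_lit 0x9cae48)) (c (p (nat_lit 0x4f21a1c))
  (c (p (nat_lit 0x183378)) e))) (c (c (m (nat_lit 0x2d8aca2)) (c (m (nat_lit 0xf75294)) e)) (c (c (p
  (nat_lit 0x9e6574)) e) e))) (c (c (c (m (nat_lit 0x2ba0dba)) (c (m (nat_lit 0x5754fc)) e)) (c (c (p
  (nat_lit 0xf3f084)) e) e)) (c (c (c (p (nat_lit 0x6fe778)) e) e) e))) (c (c (c (c (m (nat_lit 0xf6c0f6)) (c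
  (m (nat_lit 0x5017f8)) e)) (c (c (m (nat_lit 0x14109c6)) e) e)) (c (c (c (m (nat_lit 0x2a9e34)) e) e) e))
  e)) (c (c (c (c (c (m (nat_lit 0x999714)) (c (p (nat_lit 0x420e9a)) e)) (c (c (p (nat_lit 0xa471c2)) e) e))
  (c (c (c (p (nat_lit 0x20011ec)) e) e) e)) e) e)) (c (c (c (c (c (c (p (nat_lit 0x10fe564)) (c (p (nat_lit
  0x48979c2)) e)) (c (c (m (nat_lit 0x41180e8)) e) e)) (c (c (c (p (nat_lit 0x862710)) e) e) e)) e) e) e)))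
  (c (c (c (c (c (c (c (m (nat_lit 0x5b107de)) (c (m (nat_lit 0x1d59fe0)) (c (m (nat_lit 0x203d2e8)) e))) (c
  (c (m (nat_lit 0x77f5104)) (c (p (nat_lit 0xcb80e6)) e)) (c (c (p (nat_lit 0x34efe34)) e) e))) (c (c (c (m
  (nat_lit 0x36b60be)) (c (p (nat_lit 0x206c6f4)) e)) (c (c (m (nat_lit 0x1042bc0)) e) e)) (c (c (c (p
  (nat_lit 0x3a85610)) e) e) e))) (c (c (c (c (p (nat_lit 0x10b770be)) (c (p (nat_lit 0x3416592)) e)) (c (c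
  (p (nat_lit 0x5c59704)) e) e)) (c (c (c (p (nat_lit 0x8fc7ba)) e) e) e)) (c (c (c (c (m (nat_lit 0xc2fa4e))
  e) e) e) e))) (c (c (c (c (c (p (nat_lit 0x1599096)) (c (p (nat_lit 0x12c4c14)) e)) (c (c (p (nat_lit
  0x1f0db5c)) e) e)) (c (c (c (p (nat_lit 0x2d2712c)) e) e) e)) (c (c (c (c (p (nat_lit 0xd62624)) e) e) e)
  e)) (c (c (c (c (c (p (nat_lit 0xe693ee)) e) e) e) e) e))) (c (c (c (c (c (c (m (nat_lit 0x16cf15ce)) (c (p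
  (nat_lit 0x9b10fc)) e)) (c (c (p (nat_lit 0x2465f04)) e) e)) (c (c (c (m (nat_lit 0x55d6610)) e) e) e)) (c
  (c (c (c (p (nat_lit 0x24f12e4)) e) e) e) e)) (c (c (c (c (c (p (nat_lit 0x109ba2)) e) e) e) e) e)) (c (c
  (c (c (c (c (m (nat_lit 0x394bb82)) e) e) e) e) e) e))) (c (c (c (c (c (c (c (p (nat_lit 0x9c26f7c)) (c (p
  (nat_lit 0xb9adddc)) e)) (c (c (m (nat_lit 0x7cd5da)) e) e)) (c (c (c (m (nat_lit 0x44ebb76)) e) e) e)) (c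
  (c (c (c (m (nat_lit 0x5f6b902)) e) e) e) e)) (c (c (c (c (c (m (nat_lit 0x8717b2)) e) e) e) e) e)) (c (c
  (c (c (c (c (p (nat_lit 0x2f2d27a)) e) e) e) e) e) e)) (c (c (c (c (c (c (c (m (nat_lit 0x83aa584)) e) e)
  e) e) e) e) e)))) (c (c (c (c (c (c (c (c (p (nat_lit 0x76416ba)) (c (p (nat_lit 0x3a99440)) (c (p (nat_lit
  0x2ea061c)) e))) (c (c (m (nat_lit 0x15767ee)) (c (p (nat_lit 0x9b7810)) e)) (c (c (p (nat_lit 0x17af54c))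
  e) e))) (c (c (c (p (nat_lit 0x2e1b4e8)) (c (p (nat_lit 0xfbafd8)) e)) (c (c (m (nat_lit 0xfefb32)) e) e))
  (c (c (c (p (nat_lit 0x3dc9fe)) e) e) e))) (c (c (c (c (p (nat_lit 0x1a148b4)) (c (p (nat_lit 0x6dc0a40))
  e)) (c (c (p (nat_lit 0x4ca61d2)) e) e)) (c (c (c (m (nat_lit 0x246676e)) e) e) e)) (c (c (c (c (m (nat_lit
  0x227d4e6)) e) e) e) e))) (c (c (c (c (c (p (nat_lit 0xb47d46)) (c (p (nat_lit 0x1a9c4e4)) e)) (c (c (p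
  (nat_lit 0x5ee262e)) e) e)) (c (c (c (p (nat_lit 0x1bb11f2)) e) e) e)) (c (c (c (c (p (nat_lit 0xfc305a))
  e) e) e) e)) (c (c (c (c (c (p (nat_lit 0x10bfbca)) e) e) e) e) e))) (c (c (c (c (c (c (p (nat_lit
  0x7130472)) (c (m (nat_lit 0x3735312)) e)) (c (c (p (nat_lit 0x554f796)) e) e)) (c (c (c (p (nat_lit
  0x407e1a)) e) e) e)) (c (c (c (c (p (nat_lit 0xdfcaa6)) e) e) e) e)) (c (c (c (c (c (p (nat_lit 0x1bafec))
  e) e) e) e) e)) (c (c (c (c (c (c (m (nat_lit 0x12cb2f2)) e) e) e) e) e) e))) (c (c (c (c (c (c (c (p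
  (nat_lit 0xa9f7b26)) (c (m (nat_lit 0x65acc84)) e)) (c (c (m (nat_lit 0x32bacdc)) e) e)) (c (c (c (p
  (nat_lit 0x31af4d8)) e) e) e)) (c (c (c (c (m (nat_lit 0x807187e)) e) e) e) e)) (c (c (c (c (c (m (nat_lit
  0x3b2cb72)) e) e) e) e) e)) (c (c (c (c (c (c (p (nat_lit 0xfd7f784)) e) e) e) e) e) e)) (c (c (c (c (c (c
  (c (p (nat_lit 0x2a61a64)) e) e) e) e) e) e) e))) (c (c (c (c (c (c (c (c (m (nat_lit 0x694327e)) (c (m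
  (nat_lit 0x23a2c52)) e)) (c (c (m (nat_lit 0x3ab48ba)) e) e)) (c (c (c (m (nat_lit 0x4ea159e)) e) e) e)) (c
  (c (c (c (m (nat_lit 0x118f284)) e) e) e) e)) (c (c (c (c (c (m (nat_lit 0x5b1dbe8)) e) e) e) e) e)) (c (c
  (c (c (c (c (m (nat_lit 0x3e61ab0)) e) e) e) e) e) e)) (c (c (c (c (c (c (c (m (nat_lit 0x293503e)) e) e)
  e) e) e) e) e)) (c (c (c (c (c (c (c (c (p (nat_lit 0x2eb5e68)) e) e) e) e) e) e) e) e))))) (c (c (c (c (c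
  (c (c (c (c (m (nat_lit 0x38c376c)) (c (p (nat_lit 0xb0340a8)) (c (m (nat_lit 0x30014d0)) e))) (c (c (m
  (nat_lit 0x27d0ba8)) (c (m (nat_lit 0x122ff8e)) e)) (c (c (p (nat_lit 0x186c6d8)) e) e))) (c (c (c (p
  (nat_lit 0x26de93a)) (c (p (nat_lit 0x22e646e)) e)) (c (c (m (nat_lit 0x14e73a0)) e) e)) (c (c (c (m
  (nat_lit 0x6bdeee)) e) e) e))) (c (c (c (c (p (nat_lit 0x1d53d28)) (c (m (nat_lit 0x105f3c)) (c (m (nat_lit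
  0x3a2cd8)) e))) (c (c (p (nat_lit 0x660ffde)) (c (p (nat_lit 0x1176030)) e)) (c (c (m (nat_lit 0x2ab5af4))
  e) e))) (c (c (c (m (nat_lit 0x18c9288)) (c (m (nat_lit 0x17f16e4)) e)) (c (c (p (nat_lit 0x7af46c)) e) e))
  (c (c (c (m (nat_lit 0xf64ce)) e) e) e))) (c (c (c (c (m (nat_lit 0x32a401a)) (c (p (nat_lit 0x27cbc58))
  e)) (c (c (m (nat_lit 0xb5d98e)) e) e)) (c (c (c (m (nat_lit 0x41605e)) e) e) e)) e))) (c (c (c (c (c (m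
  (nat_lit 0x141fa5c)) (c (m (nat_lit 0x6943cda)) (c (p (nat_lit 0x286320)) e))) (c (c (m (nat_lit
  0x2873e08)) (c (m (nat_lit 0x5cb66e)) e)) (c (c (m (nat_lit 0xab2d84)) e) e))) (c (c (c (p (nat_lit
  0x5cf9070)) (c (p (nat_lit 0x18e244)) e)) (c (c (m (nat_lit 0xcc6b70)) e) e)) (c (c (c (m (nat_lit
  0x116a5ca)) e) e) e))) (c (c (c (c (m (nat_lit 0x139baf2)) (c (m (nat_lit 0x1c771e)) e)) (c (c (p (nat_lit
  0x1292d3c)) e) e)) (c (c (c (p (nat_lit 0x2c6c16)) e) e) e)) e)) (c (c (c (c (c (p (nat_lit 0x1476d50)) (c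
  (m (nat_lit 0xc8b506)) e)) (c (c (p (nat_lit 0x14d1662)) e) e)) (c (c (c (p (nat_lit 0x552df8)) e) e) e))
  e) e))) (c (c (c (c (c (c (p (nat_lit 0x35a63f0)) (c (p (nat_lit 0x10af58)) (c (p (nat_lit 0x9e649c)) e)))
  (c (c (p (nat_lit 0xbebf06)) (c (m (nat_lit 0xf7525e)) e)) (c (c (p (nat_lit 0x1833cc)) e) e))) (c (c (c (m
  (nat_lit 0x4a87af6)) (c (p (nat_lit 0xf3ef7c)) e)) (c (c (m (nat_lit 0x57548a)) e) e)) (c (c (c (p (nat_lit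
  0x6fe628)) e) e) e))) (c (c (c (c (m (nat_lit 0x99969c)) (c (p (nat_lit 0xa47168)) e)) (c (c (p (nat_lit
  0x420ea6)) e) e)) (c (c (c (p (nat_lit 0x20011c8)) e) e) e)) e)) (c (c (c (c (c (m (nat_lit 0xf6c1aa)) (c
  (m (nat_lit 0x141096c)) e)) (c (c (m (nat_lit 0x5017fe)) e) e)) (c (c (c (m (nat_lit 0x2a9dec)) e) e) e))
  e) e)) (c (c (c (c (c (c (p (nat_lit 0x10fe5a0)) (c (m (nat_lit 0x4118118)) e)) (c (c (p (nat_lit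
  0x4897902)) e) e)) (c (c (c (p (nat_lit 0x862770)) e) e) e)) e) e) e))) (c (c (c (c (c (c (c (p (nat_lit
  0x251e044)) (c (m (nat_lit 0xcfc1518)) (c (p (nat_lit 0x34efe34)) e))) (c (c (m (nat_lit 0x3b2deec)) (c (p
  (nat_lit 0xcb80b6)) e)) (c (c (m (nat_lit 0x203d288)) e) e))) (c (c (c (m (nat_lit 0x1d3bc86)) (c (m
  (nat_lit 0x1042b48)) e)) (c (c (p (nat_lit 0x206c70c)) e) e)) (c (c (c (p (nat_lit 0x3a856be)) e) e) e)))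
  (c (c (c (c (m (nat_lit 0x6bf68b6)) (c (p (nat_lit 0x211bd9e)) e)) (c (c (m (nat_lit 0x2790d02)) e) e)) (c
  (c (c (p (nat_lit 0x255a6b0)) e) e) e)) (c (c (c (c (p (nat_lit 0xe694ba)) e) e) e) e))) (c (c (c (c (c (p
  (nat_lit 0x590f8f2)) (c (p (nat_lit 0x52affe2)) e)) (c (c (m (nat_lit 0x20fb296)) e) e)) (c (c (c (p
  (nat_lit 0xa43418)) e) e) e)) (c (c (c (c (p (nat_lit 0xd62636)) e) e) e) e)) (c (c (c (c (c (m (nat_lit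
  0xc2f94c)) e) e) e) e) e))) (c (c (c (c (c (c (m (nat_lit 0x82ea992)) (c (p (nat_lit 0x1ab3428)) e)) (c (c
  (p (nat_lit 0x38c9e2c)) e) e)) (c (c (c (m (nat_lit 0x4a1ec58)) e) e) e)) (c (c (c (c (p (nat_lit
  0x109bf0)) e) e) e) e)) (c (c (c (c (c (p (nat_lit 0x24f1308)) e) e) e) e) e)) (c (c (c (c (c (c (m
  (nat_lit 0x394bb40)) e) e) e) e) e) e))) (c (c (c (c (c (c (c (p (nat_lit 0x6523596)) (c (m (nat_lit
  0x611496)) e)) (c (c (p (nat_lit 0x3615d4a)) e) e)) (c (c (c (m (nat_lit 0x4ff8f96)) e) e) e)) (c (c (c (c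
  (p (nat_lit 0x90c774)) e) e) e) e)) (c (c (c (c (c (m (nat_lit 0x1fb2250)) e) e) e) e) e)) (c (c (c (c (c
  (c (p (nat_lit 0x1489b18)) e) e) e) e) e) e)) (c (c (c (c (c (c (c (m (nat_lit 0x32c2bc0)) e) e) e) e) e)
  e) e)))) (c (c (c (c (c (c (c (c (m (nat_lit 0x457bf0)) (c (p (nat_lit 0x4914228)) (c (m (nat_lit
  0xde71d0)) e))) (c (c (p (nat_lit 0x1456f50)) (c (m (nat_lit 0x19a9fb8)) e)) (c (c (m (nat_lit 0xde7158))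
  e) e))) (c (c (c (m (nat_lit 0x7d6a402)) (c (p (nat_lit 0xe167c2)) e)) (c (c (p (nat_lit 0xe16738)) e) e))
  (c (c (c (m (nat_lit 0x1066f1a)) e) e) e))) (c (c (c (c (p (nat_lit 0x46f9884)) (c (m (nat_lit 0x1040b1a))
  e)) (c (c (p (nat_lit 0x3fa17cc)) e) e)) (c (c (c (p (nat_lit 0x1568f4c)) e) e) e)) (c (c (c (c (m (nat_lit
  0x1de7ee)) e) e) e) e))) (c (c (c (c (c (m (nat_lit 0xa81c20)) (c (p (nat_lit 0x3fa170c)) e)) (c (c (m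
  (nat_lit 0x1040c4c)) e) e)) (c (c (c (p (nat_lit 0x1568f16)) e) e) e)) (c (c (c (c (m (nat_lit 0x17c2cc2))
  e) e) e) e)) (c (c (c (c (c (m (nat_lit 0x1de7ac)) e) e) e) e) e))) (c (c (c (c (c (c (m (nat_lit
  0x1ee217c)) (c (p (nat_lit 0x2080e0)) e)) (c (c (p (nat_lit 0x207ff6)) e) e)) (c (c (c (p (nat_lit
  0x22e0012)) e) e) e)) (c (c (c (c (p (nat_lit 0x2f250c)) e) e) e) e)) (c (c (c (c (c (p (nat_lit 0x2f24e8))
  e) e) e) e) e)) (c (c (c (c (c (c (m (nat_lit 0x1d2b546)) e) e) e) e) e) e))) (c (c (c (c (c (c (c (p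
  (nat_lit 0x1eb40c0)) (c (m (nat_lit 0x37df8b6)) e)) (c (c (p (nat_lit 0xf70e60)) e) e)) (c (c (c (m
  (nat_lit 0x1d45a54)) e) e) e)) (c (c (c (c (m (nat_lit 0x1e30f06)) e) e) e) e)) (c (c (c (c (c (m (nat_lit
  0x193b3ae)) e) e) e) e) e)) (c (c (c (c (c (c (p (nat_lit 0x41a22b6)) e) e) e) e) e) e)) (c (c (c (c (c (c
  (c (m (nat_lit 0x70e996)) e) e) e) e) e) e) e))) (c (c (c (c (c (c (c (c (m (nat_lit 0x7593f8a)) (c (m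
  (nat_lit 0x7341d8)) e)) (c (c (m (nat_lit 0x2b3cb60)) e) e)) (c (c (c (p (nat_lit 0x3852b34)) e) e) e)) (c
  (c (c (c (m (nat_lit 0x52d1dfe)) e) e) e) e)) (c (c (c (c (c (p (nat_lit 0x3403e54)) e) e) e) e) e)) (c (c
  (c (c (c (c (p (nat_lit 0x3bd00c)) e) e) e) e) e) e)) (c (c (c (c (c (c (c (m (nat_lit 0x3299442)) e) e) e)
  e) e) e) e)) (c (c (c (c (c (c (c (c (p (nat_lit 0x78a9dee)) e) e) e) e) e) e) e) e)))) (c (c (c (c (c (c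
  (c (c (c (p (nat_lit 0xa6d30a)) (c (m (nat_lit 0x47e9ecc)) (c (p (nat_lit 0x17af660)) e))) (c (c (m
  (nat_lit 0x1d5078e)) (c (p (nat_lit 0x9b77a4)) e)) (c (c (p (nat_lit 0x2ea0598)) e) e))) (c (c (c (p
  (nat_lit 0xadb320)) (c (m (nat_lit 0xfefade)) e)) (c (c (p (nat_lit 0xfbaf78)) e) e)) (c (c (c (p (nat_lit
  0x3dca1c)) e) e) e))) (c (c (c (c (m (nat_lit 0x38d000)) (c (m (nat_lit 0x14b1e98)) e)) (c (c (m (nat_lit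
  0x1b07530)) e) e)) (c (c (c (m (nat_lit 0xdcd22c)) e) e) e)) (c (c (c (c (p (nat_lit 0x10bfcde)) e) e) e)
  e))) (c (c (c (c (c (p (nat_lit 0x17218c8)) (c (m (nat_lit 0xd37b2)) e)) (c (c (m (nat_lit 0x58d60a)) e)
  e)) (c (c (c (m (nat_lit 0x2139744)) e) e) e)) (c (c (c (c (p (nat_lit 0xfc30b4)) e) e) e) e)) (c (c (c (c
  (c (m (nat_lit 0x227d534)) e) e) e) e) e))) (c (c (c (c (c (c (m (nat_lit 0x288f030)) (c (p (nat_lit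
  0x306c6f0)) e)) (c (c (m (nat_lit 0x23184d8)) e) e)) (c (c (c (p (nat_lit 0x17374b0)) e) e) e)) (c (c (c (c
  (p (nat_lit 0x1baf62)) e) e) e) e)) (c (c (c (c (c (p (nat_lit 0xdfcac4)) e) e) e) e) e)) (c (c (c (c (c (c
  (m (nat_lit 0x12cb2da)) e) e) e) e) e) e))) (c (c (c (c (c (c (c (p (nat_lit 0x361ffe)) (c (p (nat_lit
  0x227688c)) e)) (c (c (p (nat_lit 0xb0df9c)) e) e)) (c (c (c (p (nat_lit 0x17e811a)) e) e) e)) (c (c (c (c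
  (p (nat_lit 0x40dbf14)) e) e) e) e)) (c (c (c (c (c (p (nat_lit 0x2576a6)) e) e) e) e) e)) (c (c (c (c (c
  (c (p (nat_lit 0x30a7700)) e) e) e) e) e) e)) (c (c (c (c (c (c (c (p (nat_lit 0x2323df4)) e) e) e) e) e)
  e) e))) (c (c (c (c (c (c (c (c (p (nat_lit 0x7c24f0e)) (c (p (nat_lit 0x84ee92)) e)) (c (c (p (nat_lit
  0x19c438e)) e) e)) (c (c (c (m (nat_lit 0x261ae6)) e) e) e)) (c (c (c (c (p (nat_lit 0x22c53f6)) e) e) e)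
  e)) (c (c (c (c (c (m (nat_lit 0x178ad5a)) e) e) e) e) e)) (c (c (c (c (c (c (p (nat_lit 0x20ed934)) e) e)
  e) e) e) e)) (c (c (c (c (c (c (c (m (nat_lit 0x767ca6)) e) e) e) e) e) e) e)) (c (c (c (c (c (c (c (c (m
  (nat_lit 0x3e7c5f4)) e) e) e) e) e) e) e) e))) (c (c (c (c (c (c (c (c (c (m (nat_lit 0x95d4bc)) (c (m
  (nat_lit 0x178d45a)) e)) (c (c (m (nat_lit 0xd52016)) e) e)) (c (c (c (m (nat_lit 0x132104a)) e) e) e)) (c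
  (c (c (c (m (nat_lit 0xaa90b8)) e) e) e) e)) (c (c (c (c (c (p (nat_lit 0x101250c)) e) e) e) e) e)) (c (c
  (c (c (c (c (p (nat_lit 0x196111e)) e) e) e) e) e) e)) (c (c (c (c (c (c (c (m (nat_lit 0x1870080)) e) e)
  e) e) e) e) e)) (c (c (c (c (c (c (c (c (m (nat_lit 0x2b55d00)) e) e) e) e) e) e) e) e)) (c (c (c (c (c (c
  (c (c (c (p (nat_lit 0xddcbda)) e) e) e) e) e) e) e) e) e)))))

noncomputable def gt_1_0_4 : Tr :=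
  (c (c (c (c (c (c (c (c (c (m (nat_lit 0x63e1390)) (c (p (nat_lit 0x5e0fa4c)) (c (m (nat_lit 0x774e88))
  e))) (c (c (p (nat_lit 0x5e0fa58)) (c (m (nat_lit 0xa4d2e8)) e)) (c (c (m (nat_lit 0x774e1c)) e) e))) (c (c
  (c (p (nat_lit 0x10728804)) (c (m (nat_lit 0x1633dc4)) e)) (c (c (m (nat_lit 0x1633e18)) e) e)) (c (c (c (m
  (nat_lit 0x925911c)) e) e) e))) (c (c (c (c (m (nat_lit 0x8e51ce)) (c (p (nat_lit 0x1ef4c38)) (c (p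
  (nat_lit 0x1fb3150)) e))) (c (c (p (nat_lit 0x1242af8)) (c (p (nat_lit 0x429e94)) e)) (c (c (m (nat_lit
  0x2a94668)) e) e))) (c (c (c (m (nat_lit 0x1279f56)) (c (m (nat_lit 0xbc700)) e)) (c (c (m (nat_lit
  0x2f3f6b8)) e) e)) (c (c (c (m (nat_lit 0xbcf5a4)) e) e) e))) (c (c (c (c (p (nat_lit 0xbaa59c)) (c (p
  (nat_lit 0x24769c8)) (c (p (nat_lit 0x32a3300)) e))) (c (c (m (nat_lit 0x31c5e34)) (c (m (nat_lit
  0x1acf34c)) e)) (c (c (m (nat_lit 0x1ecf744)) e) e))) (c (c (c (m (nat_lit 0x3a08594)) (c (m (nat_lit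
  0x132174)) e)) (c (c (p (nat_lit 0x10f6644)) e) e)) (c (c (c (p (nat_lit 0x25dc640)) e) e) e))) e))) (c (c
  (c (c (c (m (nat_lit 0x8e58f4)) (c (p (nat_lit 0x1242c6c)) (c (m (nat_lit 0x2a945d8)) e))) (c (c (p
  (nat_lit 0x1ef4f20)) (c (p (nat_lit 0x429ef4)) e)) (c (c (p (nat_lit 0x1fb31b0)) e) e))) (c (c (c (m
  (nat_lit 0x1279ef0)) (c (m (nat_lit 0x2f3f7c0)) e)) (c (c (m (nat_lit 0xbc5ec)) e) e)) (c (c (c (m (nat_lit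
  0xbcf3f4)) e) e) e))) (c (c (c (c (p (nat_lit 0xe5fbd2)) (c (m (nat_lit 0x62598c)) (c (m (nat_lit
  0x57d0bc)) e))) (c (c (m (nat_lit 0x625968)) (c (p (nat_lit 0xdbc3e4)) e)) (c (c (m (nat_lit 0x57d098)) e)
  e))) (c (c (c (m (nat_lit 0x4061e08)) (c (p (nat_lit 0x1d88468)) e)) (c (c (p (nat_lit 0x1d88414)) e) e))
  (c (c (c (p (nat_lit 0x206519a)) e) e) e))) e)) (c (c (c (c (c (p (nat_lit 0xbaa404)) (c (m (nat_lit
  0x31c5c9c)) (c (m (nat_lit 0x1ecf804)) e))) (c (c (p (nat_lit 0x2476a10)) (c (m (nat_lit 0x1acf2bc)) e)) (c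
  (c (p (nat_lit 0x32a3414)) e) e))) (c (c (c (m (nat_lit 0x3a0813e)) (c (p (nat_lit 0x10f65a8)) e)) (c (c (m
  (nat_lit 0x1321e0)) e) e)) (c (c (c (p (nat_lit 0x25dc3be)) e) e) e))) e) e))) (c (c (c (c (c (c (m
  (nat_lit 0x1e1068)) (c (m (nat_lit 0x48e3100)) (c (p (nat_lit 0x32a8ab4)) e))) (c (c (m (nat_lit
  0x48e32e0)) (c (m (nat_lit 0x8393a0)) e)) (c (c (p (nat_lit 0x32a8acc)) e) e))) (c (c (c (p (nat_lit
  0xa503e76)) (c (m (nat_lit 0x1d7e478)) e)) (c (c (m (nat_lit 0x1d7e490)) e) e)) (c (c (c (m (nat_lit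
  0x27f5fe2)) e) e) e))) (c (c (c (c (m (nat_lit 0x1868262)) (c (p (nat_lit 0x1b13db8)) (c (m (nat_lit
  0x1785ee8)) e))) (c (c (p (nat_lit 0x24c52b0)) (c (m (nat_lit 0xab7c8)) e)) (c (c (p (nat_lit 0x864e40)) e)
  e))) (c (c (c (p (nat_lit 0xdba746)) (c (p (nat_lit 0xe35164)) e)) (c (c (m (nat_lit 0x942084)) e) e)) (c
  (c (c (p (nat_lit 0xabfb4)) e) e) e))) e)) (c (c (c (c (c (m (nat_lit 0x1867ed8)) (c (p (nat_lit
  0x24c5238)) (c (p (nat_lit 0x864e70)) e))) (c (c (p (nat_lit 0x1b13ce0)) (c (m (nat_lit 0xab840)) e)) (c (c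
  (m (nat_lit 0x1785f24)) e) e))) (c (c (c (p (nat_lit 0xdba704)) (c (m (nat_lit 0x942018)) e)) (c (c (p
  (nat_lit 0xe350d4)) e) e)) (c (c (c (p (nat_lit 0xac050)) e) e) e))) e) e)) (c (c (c (c (c (c (p (nat_lit
  0x60eaac8)) (c (m (nat_lit 0x606b214)) (c (m (nat_lit 0x151fbe4)) e))) (c (c (m (nat_lit 0x606b118)) (c (p
  (nat_lit 0x22d6dc0)) e)) (c (c (m (nat_lit 0x151fc98)) e) e))) (c (c (c (m (nat_lit 0xbc73f36)) (c (p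
  (nat_lit 0x2b2225c)) e)) (c (c (p (nat_lit 0x2b221d8)) e) e)) (c (c (c (p (nat_lit 0x7060992)) e) e) e)))
  e) e) e))) (c (c (c (c (c (c (c (m (nat_lit 0x19834ab2)) (c (p (nat_lit 0xddaad52)) (c (m (nat_lit
  0x5251068)) e))) (c (c (p (nat_lit 0xddaad46)) (c (m (nat_lit 0x3536094)) e)) (c (c (m (nat_lit 0x52510e0))
  e) e))) (c (c (c (p (nat_lit 0x3ee768b0)) (c (m (nat_lit 0x8c81ed4)) e)) (c (c (m (nat_lit 0x8c81fac)) e)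
  e)) (c (c (c (m (nat_lit 0x284277ae)) e) e) e))) (c (c (c (c (m (nat_lit 0x3028a88)) (c (p (nat_lit
  0x8045934)) (c (m (nat_lit 0x619764)) e))) (c (c (p (nat_lit 0x4c08732)) (c (p (nat_lit 0x1654698)) e)) (c
  (c (m (nat_lit 0x8835c)) e) e))) (c (c (c (p (nat_lit 0x543590a)) (c (m (nat_lit 0xa1e08)) e)) (c (c (m
  (nat_lit 0x18a72f8)) e) e)) (c (c (c (m (nat_lit 0x2c99376)) e) e) e))) (c (c (c (c (p (nat_lit 0x1e63f9c))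
  (c (m (nat_lit 0x1e1c1a0)) e)) (c (c (m (nat_lit 0xa2cf60)) e) e)) (c (c (c (m (nat_lit 0xe295f0)) e) e)
  e)) e))) (c (c (c (c (c (m (nat_lit 0x3028788)) (c (p (nat_lit 0x4c0865a)) (c (m (nat_lit 0x88290)) e))) (c
  (c (p (nat_lit 0x8045898)) (c (p (nat_lit 0x1654668)) e)) (c (c (m (nat_lit 0x619830)) e) e))) (c (c (c (p
  (nat_lit 0x5435a54)) (c (m (nat_lit 0x18a737c)) e)) (c (c (m (nat_lit 0xa1e8c)) e) e)) (c (c (c (m (nat_lit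
  0x2c99556)) e) e) e))) (c (c (c (c (p (nat_lit 0x2604894)) (c (m (nat_lit 0x1c26888)) e)) (c (c (m (nat_lit
  0x1c2687c)) e) e)) (c (c (c (m (nat_lit 0x182751c)) e) e) e)) e)) (c (c (c (c (c (p (nat_lit 0x1e63ea0)) (c
  (m (nat_lit 0xa2d014)) e)) (c (c (m (nat_lit 0x1e1c194)) e) e)) (c (c (c (m (nat_lit 0xe2977c)) e) e) e))
  e) e))) (c (c (c (c (c (c (m (nat_lit 0x5a942ae)) (c (m (nat_lit 0x182ee)) (c (p (nat_lit 0x26d954)) e)))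
  (c (c (m (nat_lit 0x1835a)) (c (p (nat_lit 0x3d65c0)) e)) (c (c (p (nat_lit 0x26d96c)) e) e))) (c (c (c (p
  (nat_lit 0x30effc4)) (c (p (nat_lit 0x49fe81c)) e)) (c (c (p (nat_lit 0x49fe7f8)) e) e)) (c (c (c (p
  (nat_lit 0x5059ef0)) e) e) e))) (c (c (c (c (p (nat_lit 0xa290c0)) (c (p (nat_lit 0x565c74)) e)) (c (c (m
  (nat_lit 0xff0678)) e) e)) (c (c (c (p (nat_lit 0x2d411c)) e) e) e)) e)) (c (c (c (c (c (p (nat_lit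
  0xa291bc)) (c (m (nat_lit 0xff060c)) e)) (c (c (p (nat_lit 0x565cc8)) e) e)) (c (c (c (p (nat_lit
  0x2d4164)) e) e) e)) e) e)) (c (c (c (c (c (c (p (nat_lit 0x1613d48)) (c (p (nat_lit 0x136ca4)) e)) (c (c
  (p (nat_lit 0x136c20)) e) e)) (c (c (c (p (nat_lit 0x28f0a4c)) e) e) e)) e) e) e))) (c (c (c (c (c (c (c (p
  (nat_lit 0x201cf408)) (c (m (nat_lit 0x144fcf60)) (c (p (nat_lit 0x48faf74)) e))) (c (c (m (nat_lit
  0x144fcf60)) (c (p (nat_lit 0xa18fa4)) e)) (c (c (p (nat_lit 0x48faf2c)) e) e))) (c (c (c (m (nat_lit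
  0x4af6b63e)) (c (p (nat_lit 0x779ee60)) e)) (c (c (p (nat_lit 0x779ef8c)) e) e)) (c (c (c (p (nat_lit
  0x2ce74eb2)) e) e) e))) (c (c (c (c (m (nat_lit 0x691bed0)) (c (m (nat_lit 0xf99114)) e)) (c (c (m (nat_lit
  0x1f8ecca)) e) e)) (c (c (c (p (nat_lit 0xff7476)) e) e) e)) (c (c (c (c (p (nat_lit 0xf2244)) e) e) e)
  e))) (c (c (c (c (c (m (nat_lit 0x691c16a)) (c (m (nat_lit 0x1f8ec6a)) e)) (c (c (m (nat_lit 0xf99120)) e)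
  e)) (c (c (c (p (nat_lit 0xff7476)) e) e) e)) (c (c (c (c (m (nat_lit 0x3f9cfc)) e) e) e) e)) (c (c (c (c
  (c (p (nat_lit 0xf2364)) e) e) e) e) e))) (c (c (c (c (c (c (p (nat_lit 0xacd9142)) (c (m (nat_lit
  0x35998ce)) e)) (c (c (m (nat_lit 0x35998c2)) e) e)) (c (c (c (m (nat_lit 0x8da8b8e)) e) e) e)) (c (c (c (c
  (m (nat_lit 0xb00b08)) e) e) e) e)) (c (c (c (c (c (m (nat_lit 0xb00b5c)) e) e) e) e) e)) (c (c (c (c (c (c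
  (m (nat_lit 0x1e3792c)) e) e) e) e) e) e))) (c (c (c (c (c (c (c (m (nat_lit 0x1297c7a)) (c (p (nat_lit
  0x3441eee)) e)) (c (c (p (nat_lit 0x3441f06)) e) e)) (c (c (c (p (nat_lit 0x59046a8)) e) e) e)) (c (c (c (c
  (p (nat_lit 0x3c5716e)) e) e) e) e)) (c (c (c (c (c (p (nat_lit 0x3c5722e)) e) e) e) e) e)) (c (c (c (c (c
  (c (p (nat_lit 0x6096de)) e) e) e) e) e) e)) (c (c (c (c (c (c (c (p (nat_lit 0x6)) e) e) e) e) e) e)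
  e))))) (c (c (c (c (c (c (c (c (m (nat_lit 0xcb81ec8)) (c (p (nat_lit 0x5da9d7c)) (c (m (nat_lit
  0x2c6bf38)) e))) (c (c (m (nat_lit 0x7ea0b6c)) (c (p (nat_lit 0x1852164)) e)) (c (c (p (nat_lit 0x2b76940))
  e) e))) (c (c (c (m (nat_lit 0x1937f28)) (c (p (nat_lit 0xab7890)) e)) (c (c (p (nat_lit 0x258b37c)) e) e))
  (c (c (c (p (nat_lit 0x5c2c734)) e) e) e))) (c (c (c (c (m (nat_lit 0x2255628)) (c (m (nat_lit 0xe80b7e))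
  (c (p (nat_lit 0x47820c)) e))) (c (c (p (nat_lit 0x594575a)) (c (m (nat_lit 0x1a5470)) e)) (c (c (m
  (nat_lit 0xa82cac)) e) e))) (c (c (c (p (nat_lit 0x12979e18)) (c (m (nat_lit 0x4c97d0)) e)) (c (c (p
  (nat_lit 0x398634)) e) e)) (c (c (c (m (nat_lit 0x2abf406)) e) e) e))) (c (c (c (c (m (nat_lit 0x3620f64))
  (c (p (nat_lit 0x48d11c)) e)) (c (c (m (nat_lit 0x1dd894)) e) e)) (c (c (c (m (nat_lit 0x2484ba0)) e) e)
  e)) e))) (c (c (c (c (c (m (nat_lit 0x975e304)) (c (m (nat_lit 0x35febe4)) (c (p (nat_lit 0x216ab18)) e)))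
  (c (c (p (nat_lit 0xc34d0be)) (c (p (nat_lit 0x8820a8)) e)) (c (c (m (nat_lit 0x1e6dc98)) e) e))) (c (c (c
  (p (nat_lit 0x122a4c2c)) (c (p (nat_lit 0x7b9b70)) e)) (c (c (m (nat_lit 0x667e24)) e) e)) (c (c (c (m
  (nat_lit 0x1360806)) e) e) e))) (c (c (c (c (p (nat_lit 0x3ed870)) (c (p (nat_lit 0x79b318)) e)) (c (c (m
  (nat_lit 0x12c96e4)) e) e)) (c (c (c (m (nat_lit 0x9e3a24)) e) e) e)) e)) (c (c (c (c (c (p (nat_lit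
  0x3b0943c)) (c (m (nat_lit 0x33deb4)) e)) (c (c (m (nat_lit 0x897c24)) e) e)) (c (c (c (m (nat_lit
  0x1455714)) e) e) e)) e) e))) (c (c (c (c (c (c (p (nat_lit 0x487230)) (c (p (nat_lit 0xccbe3ce)) (c (m
  (nat_lit 0x109a5d4)) e))) (c (c (p (nat_lit 0x7844940)) (c (m (nat_lit 0x122fd6c)) e)) (c (c (p (nat_lit
  0x1344378)) e) e))) (c (c (c (m (nat_lit 0x61dae0a)) (c (m (nat_lit 0x162aec0)) e)) (c (c (p (nat_lit
  0x6f4338)) e) e)) (c (c (c (p (nat_lit 0x1beae4)) e) e) e))) (c (c (c (c (m (nat_lit 0x15dd268)) (c (m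
  (nat_lit 0x4b2718)) e)) (c (c (p (nat_lit 0xc29b74)) e) e)) (c (c (c (p (nat_lit 0x2445990)) e) e) e)) e))
  (c (c (c (c (c (m (nat_lit 0x1f78d70)) (c (p (nat_lit 0x667d04)) e)) (c (c (m (nat_lit 0x9d7d84)) e) e)) (c
  (c (c (m (nat_lit 0x1dec044)) e) e) e)) e) e)) (c (c (c (c (c (c (p (nat_lit 0x859833c)) (c (m (nat_lit
  0xdbd740)) e)) (c (c (m (nat_lit 0xdc6f38)) e) e)) (c (c (c (m (nat_lit 0xb55a5c)) e) e) e)) e) e) e))) (c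
  (c (c (c (c (c (c (p (nat_lit 0x1002efb2)) (c (m (nat_lit 0xc50509e)) (c (p (nat_lit 0x226a328)) e))) (c (c
  (p (nat_lit 0xb2bfc)) (c (p (nat_lit 0x712b60)) e)) (c (c (m (nat_lit 0x2df2f4)) e) e))) (c (c (c (p
  (nat_lit 0x175256a)) (c (m (nat_lit 0x1a234dc)) e)) (c (c (m (nat_lit 0x677e50)) e) e)) (c (c (c (m
  (nat_lit 0x78c6ffc)) e) e) e))) (c (c (c (c (m (nat_lit 0x2a43938)) (c (m (nat_lit 0x11d5718)) e)) (c (c (m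
  (nat_lit 0x34bf42)) e) e)) (c (c (c (p (nat_lit 0xcde14a)) e) e) e)) (c (c (c (c (p (nat_lit 0x1d67258)) e)
  e) e) e))) (c (c (c (c (c (m (nat_lit 0x7efa2c)) (c (m (nat_lit 0x150210)) e)) (c (c (m (nat_lit 0xef5dc4))
  e) e)) (c (c (c (m (nat_lit 0x25e3b28)) e) e) e)) (c (c (c (c (p (nat_lit 0xc13c08)) e) e) e) e)) (c (c (c
  (c (c (p (nat_lit 0xd4b26c)) e) e) e) e) e))) (c (c (c (c (c (c (m (nat_lit 0xf0a35c6)) (c (m (nat_lit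
  0x5b785c)) e)) (c (c (m (nat_lit 0x3ac0860)) e) e)) (c (c (c (m (nat_lit 0x2693e20)) e) e) e)) (c (c (c (c
  (m (nat_lit 0x1842c24)) e) e) e) e)) (c (c (c (c (c (p (nat_lit 0x75c8f4)) e) e) e) e) e)) (c (c (c (c (c
  (c (m (nat_lit 0x1a68518)) e) e) e) e) e) e))) (c (c (c (c (c (c (c (m (nat_lit 0x8211ea0)) (c (p (nat_lit
  0x94e2a78)) e)) (c (c (p (nat_lit 0x26bf77c)) e) e)) (c (c (c (p (nat_lit 0x1a25e9a)) e) e) e)) (c (c (c (c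
  (p (nat_lit 0x34d8038)) e) e) e) e)) (c (c (c (c (c (m (nat_lit 0xa4be6)) e) e) e) e) e)) (c (c (c (c (c (c
  (p (nat_lit 0x35fbda0)) e) e) e) e) e) e)) (c (c (c (c (c (c (c (m (nat_lit 0x8491806)) e) e) e) e) e) e)
  e)))) (c (c (c (c (c (c (c (c (p (nat_lit 0xd6d6d90)) (c (m (nat_lit 0xb31e4b4)) (c (m (nat_lit 0x67c77c))
  e))) (c (c (m (nat_lit 0x96ae918)) (c (p (nat_lit 0x522438)) e)) (c (c (p (nat_lit 0x4fb21c)) e) e))) (c (c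
  (c (m (nat_lit 0x1137c720)) (c (p (nat_lit 0x2726670)) e)) (c (c (m (nat_lit 0x145f86c)) e) e)) (c (c (c (p
  (nat_lit 0x48dda60)) e) e) e))) (c (c (c (c (p (nat_lit 0x58b353a)) (c (m (nat_lit 0x76d4f6)) e)) (c (c (m
  (nat_lit 0x320ea40)) e) e)) (c (c (c (m (nat_lit 0x7bd3518)) e) e) e)) (c (c (c (c (m (nat_lit 0x6efbd4))
  e) e) e) e))) (c (c (c (c (c (p (nat_lit 0x990bc28)) (c (m (nat_lit 0x319878c)) e)) (c (c (m (nat_lit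
  0x2ff7036)) e) e)) (c (c (c (m (nat_lit 0x6f2bc80)) e) e) e)) (c (c (c (c (p (nat_lit 0xd31d78)) e) e) e)
  e)) (c (c (c (c (c (p (nat_lit 0xa5b514)) e) e) e) e) e))) (c (c (c (c (c (c (m (nat_lit 0x5d9870)) (c (m
  (nat_lit 0x6e82396)) e)) (c (c (m (nat_lit 0x251d0fc)) e) e)) (c (c (c (p (nat_lit 0x15a55b2)) e) e) e)) (c
  (c (c (c (p (nat_lit 0x1cf51f8)) e) e) e) e)) (c (c (c (c (c (p (nat_lit 0xd0b624)) e) e) e) e) e)) (c (c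
  (c (c (c (c (m (nat_lit 0x340ad18)) e) e) e) e) e) e))) (c (c (c (c (c (c (c (p (nat_lit 0x6931aa6)) (c (p
  (nat_lit 0x3548742)) e)) (c (c (p (nat_lit 0x2ce90f8)) e) e)) (c (c (c (p (nat_lit 0x2e82e08)) e) e) e)) (c
  (c (c (c (m (nat_lit 0x1ad6324)) e) e) e) e)) (c (c (c (c (c (p (nat_lit 0x5fae4)) e) e) e) e) e)) (c (c (c
  (c (c (c (p (nat_lit 0xcead164)) e) e) e) e) e) e)) (c (c (c (c (c (c (c (p (nat_lit 0x39b1234)) e) e) e)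
  e) e) e) e))) (c (c (c (c (c (c (c (c (m (nat_lit 0x1d67510)) (c (p (nat_lit 0x5b2aef0)) e)) (c (c (p
  (nat_lit 0x8c00c7c)) e) e)) (c (c (c (p (nat_lit 0x85f33e0)) e) e) e)) (c (c (c (c (m (nat_lit 0x39dd5c2))
  e) e) e) e)) (c (c (c (c (c (m (nat_lit 0x45bfcd0)) e) e) e) e) e)) (c (c (c (c (c (c (m (nat_lit
  0x1d882a6)) e) e) e) e) e) e)) (c (c (c (c (c (c (c (m (nat_lit 0xbd67bae)) e) e) e) e) e) e) e)) (c (c (c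
  (c (c (c (c (c (p (nat_lit 0x225aeb4)) e) e) e) e) e) e) e) e))))) (c (c (c (c (c (c (c (c (c (m (nat_lit
  0x78f661e)) (c (m (nat_lit 0x3fda3dc)) (c (p (nat_lit 0x2b76940)) e))) (c (c (p (nat_lit 0x15cea60)) (c (p
  (nat_lit 0x1852170)) e)) (c (c (m (nat_lit 0x2c6bf20)) e) e))) (c (c (c (m (nat_lit 0x81dcae2)) (c (p
  (nat_lit 0x258b448)) e)) (c (c (p (nat_lit 0xab78d8)) e) e)) (c (c (c (p (nat_lit 0x5c2c650)) e) e) e))) (c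
  (c (c (c (m (nat_lit 0x5f82a2)) (c (p (nat_lit 0x5069310)) (c (m (nat_lit 0x1e6dbb4)) e))) (c (c (m
  (nat_lit 0x58549c8)) (c (p (nat_lit 0x882090)) e)) (c (c (p (nat_lit 0x216aaf4)) e) e))) (c (c (c (p
  (nat_lit 0x4e892c2)) (c (m (nat_lit 0x667e00)) e)) (c (c (p (nat_lit 0x7b9b94)) e) e)) (c (c (c (m (nat_lit
  0x1360530)) e) e) e))) (c (c (c (c (p (nat_lit 0x3b093b8)) (c (m (nat_lit 0x897bdc)) e)) (c (c (m (nat_lit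
  0x33de6c)) e) e)) (c (c (c (m (nat_lit 0x1455624)) e) e) e)) e))) (c (c (c (c (c (p (nat_lit 0x46253a0)) (c
  (p (nat_lit 0x357d224)) (c (m (nat_lit 0xa82c94)) e))) (c (c (m (nat_lit 0x2bf8d20)) (c (m (nat_lit
  0x1a547c)) e)) (c (c (p (nat_lit 0x478170)) e) e))) (c (c (c (p (nat_lit 0xa07496c)) (c (p (nat_lit
  0x398634)) e)) (c (c (m (nat_lit 0x4c9800)) e) e)) (c (c (c (m (nat_lit 0x2abf3b8)) e) e) e))) (c (c (c (c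
  (p (nat_lit 0x3ed8b8)) (c (m (nat_lit 0x12c9744)) e)) (c (c (p (nat_lit 0x79b2d0)) e) e)) (c (c (c (m
  (nat_lit 0x9e3a84)) e) e) e)) e)) (c (c (c (c (c (m (nat_lit 0x3620ff4)) (c (m (nat_lit 0x1dd8a0)) e)) (c
  (c (p (nat_lit 0x48d020)) e) e)) (c (c (c (m (nat_lit 0x2484b58)) e) e) e)) e) e))) (c (c (c (c (c (c (m
  (nat_lit 0xf9b382)) (c (p (nat_lit 0x28e0c78)) (c (p (nat_lit 0x134439c)) e))) (c (c (p (nat_lit
  0x5666af0)) (c (m (nat_lit 0x122fda8)) e)) (c (c (m (nat_lit 0x109a640)) e) e))) (c (c (c (m (nat_lit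
  0x2548944)) (c (p (nat_lit 0x6f4350)) e)) (c (c (m (nat_lit 0x162adc4)) e) e)) (c (c (c (p (nat_lit
  0x1bee6e)) e) e) e))) (c (c (c (c (m (nat_lit 0x1f78bfc)) (c (m (nat_lit 0x9d7db4)) e)) (c (c (p (nat_lit
  0x667cd4)) e) e)) (c (c (c (m (nat_lit 0x1dec0bc)) e) e) e)) e)) (c (c (c (c (c (m (nat_lit 0x15dd118)) (c
  (p (nat_lit 0xc29b98)) e)) (c (c (m (nat_lit 0x4b26e8)) e) e)) (c (c (c (p (nat_lit 0x244599c)) e) e) e))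
  e) e)) (c (c (c (c (c (c (p (nat_lit 0x85982dc)) (c (m (nat_lit 0xdc6f5c)) e)) (c (c (m (nat_lit 0xdbd770))
  e) e)) (c (c (c (m (nat_lit 0xb55a80)) e) e) e)) e) e) e))) (c (c (c (c (c (c (c (p (nat_lit 0xa86026a)) (c
  (p (nat_lit 0x2af04b6)) (c (m (nat_lit 0x2df36c)) e))) (c (c (m (nat_lit 0x6581076)) (c (p (nat_lit
  0x712bc0)) e)) (c (c (p (nat_lit 0x226a3a0)) e) e))) (c (c (c (p (nat_lit 0x7b448bc)) (c (m (nat_lit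
  0x677f04)) e)) (c (c (m (nat_lit 0x1a23590)) e) e)) (c (c (c (m (nat_lit 0x78c72cc)) e) e) e))) (c (c (c (c
  (m (nat_lit 0x2c8d4ae)) (c (p (nat_lit 0x16e1bc)) e)) (c (c (m (nat_lit 0x410fd0)) e) e)) (c (c (c (m
  (nat_lit 0xb41e18)) e) e) e)) (c (c (c (c (p (nat_lit 0xd4b29c)) e) e) e) e))) (c (c (c (c (c (m (nat_lit
  0x5076858)) (c (m (nat_lit 0x1234d88)) e)) (c (c (m (nat_lit 0x165fd5c)) e) e)) (c (c (c (p (nat_lit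
  0x1451a30)) e) e) e)) (c (c (c (c (p (nat_lit 0xc13c14)) e) e) e) e)) (c (c (c (c (c (p (nat_lit
  0x1d67318)) e) e) e) e) e))) (c (c (c (c (c (c (m (nat_lit 0x2ef85b8)) (c (m (nat_lit 0x14c0acc)) e)) (c (c
  (p (nat_lit 0x33372c)) e) e)) (c (c (c (m (nat_lit 0x2eb5664)) e) e) e)) (c (c (c (c (p (nat_lit 0x75c900))
  e) e) e) e)) (c (c (c (c (c (m (nat_lit 0x1842cc0)) e) e) e) e) e)) (c (c (c (c (c (c (m (nat_lit
  0x1a68470)) e) e) e) e) e) e))) (c (c (c (c (c (c (c (m (nat_lit 0x85354b6)) (c (p (nat_lit 0x14a03f6)) e))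
  (c (c (p (nat_lit 0x839ee12)) e) e)) (c (c (c (p (nat_lit 0x2c917aa)) e) e) e)) (c (c (c (c (p (nat_lit
  0x1b4856a)) e) e) e) e)) (c (c (c (c (c (p (nat_lit 0x4656ec4)) e) e) e) e) e)) (c (c (c (c (c (c (p
  (nat_lit 0x269d2ac)) e) e) e) e) e) e)) (c (c (c (c (c (c (c (m (nat_lit 0x5ca0a4a)) e) e) e) e) e) e)
  e)))) (c (c (c (c (c (c (c (c (p (nat_lit 0x6b4f5b2)) (c (m (nat_lit 0x55ee5da)) (c (m (nat_lit 0x771ad4))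
  e))) (c (c (p (nat_lit 0x45c6cde)) (c (m (nat_lit 0x1e41010)) e)) (c (c (m (nat_lit 0x771aa4)) e) e))) (c
  (c (c (m (nat_lit 0x778a6ee)) (c (m (nat_lit 0x4df8c8)) e)) (c (c (m (nat_lit 0x4df880)) e) e)) (c (c (c (p
  (nat_lit 0x9d43ee)) e) e) e))) (c (c (c (c (m (nat_lit 0xcf37e48)) (c (m (nat_lit 0x180ce4)) e)) (c (c (p
  (nat_lit 0x702e10)) e) e)) (c (c (c (m (nat_lit 0x18e3328)) e) e) e)) (c (c (c (c (p (nat_lit 0xdc0cf8)) e)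
  e) e) e))) (c (c (c (c (c (m (nat_lit 0xd0e7dee)) (c (p (nat_lit 0x702e34)) e)) (c (c (m (nat_lit
  0x180cf0)) e) e)) (c (c (c (m (nat_lit 0x18e32a4)) e) e) e)) (c (c (c (c (m (nat_lit 0x182edac)) e) e) e)
  e)) (c (c (c (c (c (p (nat_lit 0xdc0ce0)) e) e) e) e) e))) (c (c (c (c (c (c (m (nat_lit 0xf1ef306)) (c (p
  (nat_lit 0x17635f8)) e)) (c (c (p (nat_lit 0x1763598)) e) e)) (c (c (c (p (nat_lit 0x2c846ac)) e) e) e)) (c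
  (c (c (c (p (nat_lit 0x11f90b8)) e) e) e) e)) (c (c (c (c (c (p (nat_lit 0x11f90a0)) e) e) e) e) e)) (c (c
  (c (c (c (c (m (nat_lit 0x1182840)) e) e) e) e) e) e))) (c (c (c (c (c (c (c (p (nat_lit 0x14900a6)) (c (p
  (nat_lit 0xe98530)) e)) (c (c (m (nat_lit 0xf17eda)) e) e)) (c (c (c (p (nat_lit 0x375ffcc)) e) e) e)) (c
  (c (c (c (p (nat_lit 0xf111de)) e) e) e) e)) (c (c (c (c (c (p (nat_lit 0x11db4)) e) e) e) e) e)) (c (c (c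
  (c (c (c (p (nat_lit 0x36e313c)) e) e) e) e) e) e)) (c (c (c (c (c (c (c (p (nat_lit 0x1bfa932)) e) e) e)
  e) e) e) e))) (c (c (c (c (c (c (c (c (p (nat_lit 0x9014628)) (c (p (nat_lit 0x1add4ee)) e)) (c (c (m
  (nat_lit 0x2c4795c)) e) e)) (c (c (c (p (nat_lit 0x296e56)) e) e) e)) (c (c (c (c (p (nat_lit 0x3cb159a))
  e) e) e) e)) (c (c (c (c (c (p (nat_lit 0x76dd342)) e) e) e) e) e)) (c (c (c (c (c (c (p (nat_lit
  0xadbb28e)) e) e) e) e) e) e)) (c (c (c (c (c (c (c (m (nat_lit 0x66f479a)) e) e) e) e) e) e) e)) (c (c (c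
  (c (c (c (c (c (m (nat_lit 0x5f936a6)) e) e) e) e) e) e) e) e)))) (c (c (c (c (c (c (c (c (c (p (nat_lit
  0xaa17884)) (c (m (nat_lit 0x45c471c)) (c (p (nat_lit 0x4fb27c)) e))) (c (c (m (nat_lit 0x460b0a8)) (c (p
  (nat_lit 0x522420)) e)) (c (c (m (nat_lit 0x67c74c)) e) e))) (c (c (c (m (nat_lit 0x8c7d0ec)) (c (m
  (nat_lit 0x145f830)) e)) (c (c (p (nat_lit 0x27266b8)) e) e)) (c (c (c (p (nat_lit 0x48ddcc4)) e) e) e)))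
  (c (c (c (c (m (nat_lit 0x281a3b4)) (c (p (nat_lit 0x3288dbc)) e)) (c (c (m (nat_lit 0xc81b04)) e) e)) (c
  (c (c (p (nat_lit 0x4a4dc74)) e) e) e)) (c (c (c (c (p (nat_lit 0xa5b514)) e) e) e) e))) (c (c (c (c (c (m
  (nat_lit 0x4d0c5d4)) (c (p (nat_lit 0xa2a2c)) e)) (c (c (p (nat_lit 0x1a95374)) e) e)) (c (c (c (p (nat_lit
  0x5be5d0)) e) e) e)) (c (c (c (c (p (nat_lit 0xd31d54)) e) e) e) e)) (c (c (c (c (c (m (nat_lit 0x6efbc8))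
  e) e) e) e) e))) (c (c (c (c (c (c (m (nat_lit 0x3d6704c)) (c (p (nat_lit 0x446e38)) e)) (c (c (m (nat_lit
  0x115a04)) e) e)) (c (c (c (m (nat_lit 0x1ecbacc)) e) e) e)) (c (c (c (c (p (nat_lit 0xd0b60c)) e) e) e)
  e)) (c (c (c (c (c (p (nat_lit 0x1cf51a4)) e) e) e) e) e)) (c (c (c (c (c (c (m (nat_lit 0x340aca0)) e) e)
  e) e) e) e))) (c (c (c (c (c (c (c (m (nat_lit 0x203b7a)) (c (p (nat_lit 0x735db0)) e)) (c (c (p (nat_lit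
  0x64b6c)) e) e)) (c (c (c (m (nat_lit 0xaf9560)) e) e) e)) (c (c (c (c (m (nat_lit 0x2caf9c)) e) e) e) e))
  (c (c (c (c (c (m (nat_lit 0x77ac84)) e) e) e) e) e)) (c (c (c (c (c (c (p (nat_lit 0x2917ba8)) e) e) e) e)
  e) e)) (c (c (c (c (c (c (c (p (nat_lit 0x2ca97b6)) e) e) e) e) e) e) e))) (c (c (c (c (c (c (c (c (p
  (nat_lit 0x64517e2)) (c (p (nat_lit 0x1e3a698)) e)) (c (c (m (nat_lit 0x18a5918)) e) e)) (c (c (c (m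
  (nat_lit 0x1f95270)) e) e) e)) (c (c (c (c (p (nat_lit 0x2052f48)) e) e) e) e)) (c (c (c (c (c (m (nat_lit
  0x929a3c)) e) e) e) e) e)) (c (c (c (c (c (c (p (nat_lit 0x31e3b64)) e) e) e) e) e) e)) (c (c (c (c (c (c
  (c (p (nat_lit 0x9f2808)) e) e) e) e) e) e) e)) (c (c (c (c (c (c (c (c (m (nat_lit 0x6994086)) e) e) e) e)
  e) e) e) e))) (c (c (c (c (c (c (c (c (c (p (nat_lit 0x1842708)) (c (p (nat_lit 0x9e5224)) e)) (c (c (p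
  (nat_lit 0x1c96644)) e) e)) (c (c (c (p (nat_lit 0x2ab7414)) e) e) e)) (c (c (c (c (m (nat_lit 0xa24848))
  e) e) e) e)) (c (c (c (c (c (p (nat_lit 0x4c059c)) e) e) e) e) e)) (c (c (c (c (c (c (p (nat_lit
  0x2170e18)) e) e) e) e) e) e)) (c (c (c (c (c (c (c (m (nat_lit 0x4a7a398)) e) e) e) e) e) e) e)) (c (c (c
  (c (c (c (c (c (m (nat_lit 0x2f06328)) e) e) e) e) e) e) e) e)) (c (c (c (c (c (c (c (c (c (m (nat_lit
  0xca44c)) e) e) e) e) e) e) e) e) e)))))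

noncomputable def gt_1_0_5 : Tr :=
  (c (c (c (c (c (c (c (c (c (m (nat_lit 0x2a4a0a0)) (c (p (nat_lit 0x536cb14)) (c (m (nat_lit 0x1ed584))
  e))) (c (c (p (nat_lit 0x51a2fa8)) (c (m (nat_lit 0x19ced8c)) e)) (c (c (m (nat_lit 0x135e25c)) e) e))) (c
  (c (c (p (nat_lit 0xdfbeb8)) (c (m (nat_lit 0xd4cb80)) e)) (c (c (m (nat_lit 0x231b3c4)) e) e)) (c (c (c (p
  (nat_lit 0xdc43b8)) e) e) e))) (c (c (c (c (p (nat_lit 0x157a388)) (c (p (nat_lit 0x471b1c)) (c (m (nat_lit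
  0x23aac08)) e))) (c (c (m (nat_lit 0x6291780)) (c (m (nat_lit 0x2641914)) e)) (c (c (p (nat_lit 0x5c86e24))
  e) e))) (c (c (c (p (nat_lit 0x2f3592c)) (c (m (nat_lit 0x200eb0)) e)) (c (c (m (nat_lit 0x248acc0)) e) e))
  (c (c (c (m (nat_lit 0x2f61108)) e) e) e))) (c (c (c (c (m (nat_lit 0xd1475c)) (c (m (nat_lit 0x47c898)) (c
  (p (nat_lit 0x2a8eff8)) e))) (c (c (p (nat_lit 0x364ce3c)) (c (m (nat_lit 0x484e24)) e)) (c (c (m (nat_lit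
  0x3a95aa4)) e) e))) (c (c (c (m (nat_lit 0x5b308)) (c (m (nat_lit 0x2c225d0)) e)) (c (c (m (nat_lit
  0x18471fc)) e) e)) (c (c (c (p (nat_lit 0x785c40)) e) e) e))) e))) (c (c (c (c (c (m (nat_lit 0x1054944))
  (c (m (nat_lit 0x1689684)) (c (p (nat_lit 0x27a80e4)) e))) (c (c (p (nat_lit 0x6e57610)) (c (p (nat_lit
  0xe06d0c)) e)) (c (c (m (nat_lit 0x2937a98)) e) e))) (c (c (c (m (nat_lit 0x1a4f300)) (c (p (nat_lit
  0x21505a4)) e)) (c (c (p (nat_lit 0x1a55cc)) e) e)) (c (c (c (m (nat_lit 0x18a7e74)) e) e) e))) (c (c (c (c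
  (p (nat_lit 0x2f1378)) (c (p (nat_lit 0x26f2080)) (c (m (nat_lit 0x5ca414)) e))) (c (c (p (nat_lit
  0xa13568)) (c (m (nat_lit 0x6c240c)) e)) (c (c (m (nat_lit 0xac2444)) e) e))) (c (c (c (m (nat_lit
  0x4d51658)) (c (m (nat_lit 0x3d6af4)) e)) (c (c (p (nat_lit 0x1398714)) e) e)) (c (c (c (p (nat_lit
  0x345090c)) e) e) e))) e)) (c (c (c (c (c (p (nat_lit 0xc253bc)) (c (p (nat_lit 0xc6bf4c)) (c (m (nat_lit
  0x1d00db4)) e))) (c (c (m (nat_lit 0x1d39a3c)) (c (m (nat_lit 0x16e65dc)) e)) (c (c (p (nat_lit 0xaf78b0))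
  e) e))) (c (c (c (m (nat_lit 0x1a25cf0)) (c (p (nat_lit 0xebb8e8)) e)) (c (c (p (nat_lit 0x16c9c80)) e) e))
  (c (c (c (p (nat_lit 0x24168)) e) e) e))) e) e))) (c (c (c (c (c (c (m (nat_lit 0x3dca34)) (c (m (nat_lit
  0x6180cfc)) (c (m (nat_lit 0x6882c)) e))) (c (c (m (nat_lit 0x3cc38b8)) (c (p (nat_lit 0x2cbd4d8)) e)) (c
  (c (m (nat_lit 0xbc1288)) e) e))) (c (c (c (p (nat_lit 0xcaf3a58)) (c (p (nat_lit 0x13af13c)) e)) (c (c (p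
  (nat_lit 0x9adb14)) e) e)) (c (c (c (m (nat_lit 0x5cb674c)) e) e) e))) (c (c (c (c (m (nat_lit 0x19c428c))
  (c (p (nat_lit 0x41f3790)) (c (m (nat_lit 0x2e290fc)) e))) (c (c (p (nat_lit 0x2d374a0)) (c (m (nat_lit
  0x249024c)) e)) (c (c (p (nat_lit 0x3f8d54)) e) e))) (c (c (c (m (nat_lit 0x163bd50)) (c (p (nat_lit
  0x28ccaf4)) e)) (c (c (m (nat_lit 0x80ce8)) e) e)) (c (c (c (p (nat_lit 0x14fae4c)) e) e) e))) e)) (c (c (c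
  (c (c (m (nat_lit 0xc4d2d4)) (c (p (nat_lit 0x2cfea7c)) (c (m (nat_lit 0xcff024)) e))) (c (c (p (nat_lit
  0x2bfe264)) (c (p (nat_lit 0x19be058)) e)) (c (c (m (nat_lit 0x142a094)) e) e))) (c (c (c (m (nat_lit
  0x21952bc)) (c (m (nat_lit 0x1282890)) e)) (c (c (p (nat_lit 0x661620)) e) e)) (c (c (c (p (nat_lit
  0x2ccf0d0)) e) e) e))) e) e)) (c (c (c (c (c (c (p (nat_lit 0x2b488cc)) (c (m (nat_lit 0x52737c0)) (c (m
  (nat_lit 0x5a1e60)) e))) (c (c (m (nat_lit 0x69ddbe0)) (c (p (nat_lit 0x1da6144)) e)) (c (c (p (nat_lit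
  0x1ca268c)) e) e))) (c (c (c (m (nat_lit 0x19eca80)) (c (p (nat_lit 0x22b97a4)) e)) (c (c (p (nat_lit
  0x1985aa8)) e) e)) (c (c (c (p (nat_lit 0x1b31e6c)) e) e) e))) e) e) e))) (c (c (c (c (c (c (c (m (nat_lit
  0x156f0b94)) (c (p (nat_lit 0x53cb7e8)) (c (m (nat_lit 0x16e8310)) e))) (c (c (p (nat_lit 0x44dbdde)) (c (m
  (nat_lit 0x31c5b64)) e)) (c (c (p (nat_lit 0x326064)) e) e))) (c (c (c (p (nat_lit 0x6558de0)) (c (m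
  (nat_lit 0x5cd564)) e)) (c (c (m (nat_lit 0x1d10864)) e) e)) (c (c (c (m (nat_lit 0x12610ec)) e) e) e))) (c
  (c (c (c (m (nat_lit 0x98e95de)) (c (m (nat_lit 0x55bddfa)) (c (p (nat_lit 0xe951d0)) e))) (c (c (p
  (nat_lit 0x24c199e)) (c (p (nat_lit 0x202f890)) e)) (c (c (p (nat_lit 0x10bdaf4)) e) e))) (c (c (c (p
  (nat_lit 0xb7e308e)) (c (p (nat_lit 0x251e50)) e)) (c (c (m (nat_lit 0x49a244)) e) e)) (c (c (c (m (nat_lit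
  0x32859f0)) e) e) e))) (c (c (c (c (p (nat_lit 0x546c894)) (c (m (nat_lit 0x102ce64)) e)) (c (c (m (nat_lit
  0xbaa3b0)) e) e)) (c (c (c (m (nat_lit 0x1ad29e8)) e) e) e)) e))) (c (c (c (c (c (m (nat_lit 0x2d9e502)) (c
  (m (nat_lit 0x3d66d5e)) (c (p (nat_lit 0xd63764)) e))) (c (c (m (nat_lit 0x207ff96)) (c (p (nat_lit
  0xa4d240)) e)) (c (c (p (nat_lit 0x47116ec)) e) e))) (c (c (c (p (nat_lit 0x99badc2)) (c (m (nat_lit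
  0x4bf438)) e)) (c (c (p (nat_lit 0xd7c640)) e) e)) (c (c (c (m (nat_lit 0x2f4c3d8)) e) e) e))) (c (c (c (c
  (p (nat_lit 0x1d71764)) (c (m (nat_lit 0x146d354)) e)) (c (c (m (nat_lit 0x1b73140)) e) e)) (c (c (c (m
  (nat_lit 0x231d170)) e) e) e)) e)) (c (c (c (c (c (p (nat_lit 0x10ca478)) (c (m (nat_lit 0x1423758)) e)) (c
  (c (m (nat_lit 0x824628)) e) e)) (c (c (c (p (nat_lit 0x6c2298)) e) e) e)) e) e))) (c (c (c (c (c (c (m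
  (nat_lit 0x4d0f2e6)) (c (p (nat_lit 0x7e45e4c)) (c (p (nat_lit 0xd6f26c)) e))) (c (c (p (nat_lit
  0x49c38f6)) (c (m (nat_lit 0x21a08d8)) e)) (c (c (p (nat_lit 0x153b310)) e) e))) (c (c (c (p (nat_lit
  0x3f64608)) (c (m (nat_lit 0x1941a98)) e)) (c (c (p (nat_lit 0x15a2d74)) e) e)) (c (c (c (p (nat_lit
  0x36ff4bc)) e) e) e))) (c (c (c (c (p (nat_lit 0x2dff3c0)) (c (p (nat_lit 0x52950)) e)) (c (c (m (nat_lit
  0x1460ef8)) e) e)) (c (c (c (p (nat_lit 0x12c5a24)) e) e) e)) e)) (c (c (c (c (c (m (nat_lit 0x957414)) (c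
  (p (nat_lit 0x825348)) e)) (c (c (p (nat_lit 0x1678a40)) e) e)) (c (c (c (p (nat_lit 0xd457dc)) e) e) e))
  e) e)) (c (c (c (c (c (c (p (nat_lit 0x5ea5c98)) (c (m (nat_lit 0x27e424)) e)) (c (c (p (nat_lit 0xe72e14))
  e) e)) (c (c (c (m (nat_lit 0x30f4e90)) e) e) e)) e) e) e))) (c (c (c (c (c (c (c (p (nat_lit 0x1735ab08))
  (c (m (nat_lit 0x1cd41a4)) (c (m (nat_lit 0x149904c)) e))) (c (c (m (nat_lit 0x684c720)) (c (p (nat_lit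
  0x1796304)) e)) (c (c (m (nat_lit 0x10939bc)) e) e))) (c (c (c (m (nat_lit 0x51c7872)) (c (p (nat_lit
  0x1365e7c)) e)) (c (c (p (nat_lit 0x121ab50)) e) e)) (c (c (c (p (nat_lit 0x216baf0)) e) e) e))) (c (c (c
  (c (p (nat_lit 0xaa52312)) (c (p (nat_lit 0x4996bd2)) e)) (c (c (m (nat_lit 0x7fb31e)) e) e)) (c (c (c (m
  (nat_lit 0x939f4e)) e) e) e)) (c (c (c (c (m (nat_lit 0x1179174)) e) e) e) e))) (c (c (c (c (c (p (nat_lit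
  0x1c3cfe0)) (c (p (nat_lit 0x326a83a)) e)) (c (c (p (nat_lit 0x6d6d5e)) e) e)) (c (c (c (m (nat_lit
  0x29285fa)) e) e) e)) (c (c (c (c (p (nat_lit 0x3d5ce94)) e) e) e) e)) (c (c (c (c (c (m (nat_lit
  0xded188)) e) e) e) e) e))) (c (c (c (c (c (c (p (nat_lit 0x63e67e4)) (c (m (nat_lit 0x424e39c)) e)) (c (c
  (m (nat_lit 0x5a0ccae)) e) e)) (c (c (c (m (nat_lit 0xafba8e4)) e) e) e)) (c (c (c (c (m (nat_lit
  0x44957a0)) e) e) e) e)) (c (c (c (c (c (m (nat_lit 0x22d2f68)) e) e) e) e) e)) (c (c (c (c (c (c (m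
  (nat_lit 0x7fe0c0)) e) e) e) e) e) e))) (c (c (c (c (c (c (c (m (nat_lit 0x13b61c5c)) (c (m (nat_lit
  0x1adb4c0)) e)) (c (c (p (nat_lit 0x2f508f6)) e) e)) (c (c (c (p (nat_lit 0xce5ce)) e) e) e)) (c (c (c (c
  (m (nat_lit 0x4380144)) e) e) e) e)) (c (c (c (c (c (m (nat_lit 0x171ee92)) e) e) e) e) e)) (c (c (c (c (c
  (c (p (nat_lit 0x213aba2)) e) e) e) e) e) e)) (c (c (c (c (c (c (c (p (nat_lit 0x7165818)) e) e) e) e) e)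
  e) e))))) (c (c (c (c (c (c (c (c (m (nat_lit 0x4886b5c)) (c (m (nat_lit 0x415b46e)) (c (m (nat_lit
  0x22dc550)) e))) (c (c (m (nat_lit 0x28a34c0)) (c (p (nat_lit 0x561e40)) e)) (c (c (p (nat_lit 0x197af24))
  e) e))) (c (c (c (p (nat_lit 0x3cfa896)) (c (m (nat_lit 0x194ec80)) e)) (c (c (p (nat_lit 0x2f44e90)) e)
  e)) (c (c (c (m (nat_lit 0x2d5f460)) e) e) e))) (c (c (c (c (p (nat_lit 0x309692a)) (c (p (nat_lit
  0xc0d35c0)) (c (m (nat_lit 0x7a48c4)) e))) (c (c (p (nat_lit 0x77aebfe)) (c (m (nat_lit 0x232ee4)) e)) (c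
  (c (m (nat_lit 0x7acd78)) e) e))) (c (c (c (p (nat_lit 0xe04fc90)) (c (m (nat_lit 0x18e2d4)) e)) (c (c (m
  (nat_lit 0x16f91dc)) e) e)) (c (c (c (m (nat_lit 0x74817c)) e) e) e))) (c (c (c (c (m (nat_lit 0x34d130))
  (c (m (nat_lit 0xb9a2b8)) e)) (c (c (p (nat_lit 0x8756a0)) e) e)) (c (c (c (m (nat_lit 0x24cbc64)) e) e)
  e)) e))) (c (c (c (c (c (p (nat_lit 0x8717e38)) (c (m (nat_lit 0x32edfb8)) (c (p (nat_lit 0xd95f60)) e)))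
  (c (c (p (nat_lit 0xd5721b0)) (c (m (nat_lit 0x17fd5c4)) e)) (c (c (m (nat_lit 0x17419d4)) e) e))) (c (c (c
  (m (nat_lit 0x2bb82e)) (c (p (nat_lit 0x5305ca4)) e)) (c (c (p (nat_lit 0x1bcddac)) e) e)) (c (c (c (p
  (nat_lit 0x3f1b384)) e) e) e))) (c (c (c (c (m (nat_lit 0x2072d84)) (c (m (nat_lit 0x18cacd4)) e)) (c (c (m
  (nat_lit 0x4ac1cc)) e) e)) (c (c (c (m (nat_lit 0x12641ac)) e) e) e)) e)) (c (c (c (c (c (p (nat_lit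
  0x6bc94c)) (c (m (nat_lit 0x102c7ec)) e)) (c (c (m (nat_lit 0x2b9ddfc)) e) e)) (c (c (c (m (nat_lit
  0xca737c)) e) e) e)) e) e))) (c (c (c (c (c (c (m (nat_lit 0x73e615c)) (c (p (nat_lit 0xabeb0b6)) (c (p
  (nat_lit 0x8ca378)) e))) (c (c (m (nat_lit 0x31c593c)) (c (m (nat_lit 0x70b2c4)) e)) (c (c (p (nat_lit
  0x6da1c0)) e) e))) (c (c (c (m (nat_lit 0x10bcdc2)) (c (m (nat_lit 0x27c4560)) e)) (c (c (m (nat_lit
  0x1f868b8)) e) e)) (c (c (c (m (nat_lit 0xb2d520)) e) e) e))) (c (c (c (c (m (nat_lit 0x160de2c)) (c (m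
  (nat_lit 0xa488a8)) e)) (c (c (p (nat_lit 0x1ec35ac)) e) e)) (c (c (c (m (nat_lit 0x3861f0)) e) e) e)) e))
  (c (c (c (c (c (p (nat_lit 0x15bd8f4)) (c (m (nat_lit 0x1a00e8c)) e)) (c (c (p (nat_lit 0x78318)) e) e)) (c
  (c (c (m (nat_lit 0x2c1966c)) e) e) e)) e) e)) (c (c (c (c (c (c (p (nat_lit 0x3f55d4)) (c (p (nat_lit
  0x281751c)) e)) (c (c (m (nat_lit 0x586e738)) e) e)) (c (c (c (p (nat_lit 0x73ee58)) e) e) e)) e) e) e)))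
  (c (c (c (c (c (c (c (p (nat_lit 0x66fc018)) (c (m (nat_lit 0x43128fc)) (c (p (nat_lit 0x2ddf188)) e))) (c
  (c (m (nat_lit 0x3ae98ac)) (c (p (nat_lit 0x8faf90)) e)) (c (c (m (nat_lit 0x184bfa8)) e) e))) (c (c (c (p
  (nat_lit 0x58c620)) (c (m (nat_lit 0x10f7f58)) e)) (c (c (m (nat_lit 0x3b5aac)) e) e)) (c (c (c (m (nat_lit
  0x2ac30)) e) e) e))) (c (c (c (c (p (nat_lit 0x2253cd8)) (c (m (nat_lit 0x174a24e)) e)) (c (c (p (nat_lit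
  0x2c918f4)) e) e)) (c (c (c (m (nat_lit 0x1e710ac)) e) e) e)) (c (c (c (c (p (nat_lit 0x15ec700)) e) e) e)
  e))) (c (c (c (c (c (m (nat_lit 0x3df7a12)) (c (m (nat_lit 0x11b64b2)) e)) (c (c (p (nat_lit 0x313a9a6)) e)
  e)) (c (c (c (m (nat_lit 0x46590ea)) e) e) e)) (c (c (c (c (m (nat_lit 0xb30700)) e) e) e) e)) (c (c (c (c
  (c (m (nat_lit 0x4baf2c)) e) e) e) e) e))) (c (c (c (c (c (c (p (nat_lit 0x20426ca)) (c (m (nat_lit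
  0x1c4273a)) e)) (c (c (m (nat_lit 0x11a835e)) e) e)) (c (c (c (p (nat_lit 0x1b33744)) e) e) e)) (c (c (c (c
  (p (nat_lit 0x191ed04)) e) e) e) e)) (c (c (c (c (c (p (nat_lit 0x7e0abc)) e) e) e) e) e)) (c (c (c (c (c
  (c (m (nat_lit 0x8c35d4)) e) e) e) e) e) e))) (c (c (c (c (c (c (c (m (nat_lit 0x9b837dc)) (c (p (nat_lit
  0x5014d94)) e)) (c (c (p (nat_lit 0x504c300)) e) e)) (c (c (c (p (nat_lit 0x26bde8)) e) e) e)) (c (c (c (c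
  (m (nat_lit 0x1ab4d2a)) e) e) e) e)) (c (c (c (c (c (m (nat_lit 0x123c2d0)) e) e) e) e) e)) (c (c (c (c (c
  (c (p (nat_lit 0xca7e14)) e) e) e) e) e) e)) (c (c (c (c (c (c (c (p (nat_lit 0x1e5b62c)) e) e) e) e) e) e)
  e)))) (c (c (c (c (c (c (c (c (p (nat_lit 0x1f8f5b4a)) (c (m (nat_lit 0x4b788a)) (c (p (nat_lit 0xd26948))
  e))) (c (c (m (nat_lit 0x10ec5bb0)) (c (p (nat_lit 0x6be080)) e)) (c (c (p (nat_lit 0x18bfa0c)) e) e))) (c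
  (c (c (m (nat_lit 0xc4b7236)) (c (p (nat_lit 0xa3c6b0)) e)) (c (c (p (nat_lit 0x1659fd8)) e) e)) (c (c (c
  (p (nat_lit 0x387e250)) e) e) e))) (c (c (c (c (m (nat_lit 0x251142e4)) (c (m (nat_lit 0x582518a)) e)) (c
  (c (m (nat_lit 0x4d6731e)) e) e)) (c (c (c (m (nat_lit 0x1edfadc)) e) e) e)) (c (c (c (c (p (nat_lit
  0x6c1f8c)) e) e) e) e))) (c (c (c (c (c (m (nat_lit 0x1972e7da)) (c (p (nat_lit 0x34aea6a)) e)) (c (c (m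
  (nat_lit 0xdfaa32a)) e) e)) (c (c (c (p (nat_lit 0x1d1a5f0)) e) e) e)) (c (c (c (c (p (nat_lit 0x1359a5c))
  e) e) e) e)) (c (c (c (c (c (p (nat_lit 0x259d8c8)) e) e) e) e) e))) (c (c (c (c (c (c (p (nat_lit
  0x15783282)) (c (m (nat_lit 0x523e960)) e)) (c (c (p (nat_lit 0x665e1a6)) e) e)) (c (c (c (m (nat_lit
  0x28a977e)) e) e) e)) (c (c (c (c (m (nat_lit 0x199edf8)) e) e) e) e)) (c (c (c (c (c (p (nat_lit
  0xabf828)) e) e) e) e) e)) (c (c (c (c (c (c (p (nat_lit 0x307b78)) e) e) e) e) e) e))) (c (c (c (c (c (c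
  (c (m (nat_lit 0x45f2760)) (c (p (nat_lit 0x208a7b4)) e)) (c (c (p (nat_lit 0x418452)) e) e)) (c (c (c (p
  (nat_lit 0x7a2326)) e) e) e)) (c (c (c (c (m (nat_lit 0x26482da)) e) e) e) e)) (c (c (c (c (c (p (nat_lit
  0x3a5c132)) e) e) e) e) e)) (c (c (c (c (c (c (m (nat_lit 0x39a3c6e)) e) e) e) e) e) e)) (c (c (c (c (c (c
  (c (p (nat_lit 0x414603c)) e) e) e) e) e) e) e))) (c (c (c (c (c (c (c (c (m (nat_lit 0xe63e4ac)) (c (p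
  (nat_lit 0xafab14)) e)) (c (c (p (nat_lit 0xd31ce56)) e) e)) (c (c (c (p (nat_lit 0x468203a)) e) e) e)) (c
  (c (c (c (p (nat_lit 0x19921836)) e) e) e) e)) (c (c (c (c (c (p (nat_lit 0xf214242)) e) e) e) e) e)) (c (c
  (c (c (c (c (m (nat_lit 0xb7cfb2e)) e) e) e) e) e) e)) (c (c (c (c (c (c (c (p (nat_lit 0x5687802)) e) e)
  e) e) e) e) e)) (c (c (c (c (c (c (c (c (m (nat_lit 0xbdaabb0)) e) e) e) e) e) e) e) e))))) (c (c (c (c (c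
  (c (c (c (c (m (nat_lit 0x8d8ab7c)) (c (p (nat_lit 0x3809c4)) (c (p (nat_lit 0x169224c)) e))) (c (c (p
  (nat_lit 0x5931f84)) (c (m (nat_lit 0x214eb4c)) e)) (c (c (p (nat_lit 0x1b45f00)) e) e))) (c (c (c (p
  (nat_lit 0x151836c)) (c (p (nat_lit 0x27868b0)) e)) (c (c (m (nat_lit 0x20ac30)) e) e)) (c (c (c (p
  (nat_lit 0xd6e060)) e) e) e))) (c (c (c (c (p (nat_lit 0x3f2ad44)) (c (m (nat_lit 0x49039b0)) (c (m
  (nat_lit 0x75b94)) e))) (c (c (m (nat_lit 0x1ac1c9c)) (c (p (nat_lit 0x2735244)) e)) (c (c (m (nat_lit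
  0x4044e4)) e) e))) (c (c (c (p (nat_lit 0x5260164)) (c (p (nat_lit 0x796d4)) e)) (c (c (p (nat_lit
  0x1b58f80)) e) e)) (c (c (c (m (nat_lit 0x373ca70)) e) e) e))) (c (c (c (c (m (nat_lit 0x192429c)) (c (p
  (nat_lit 0x1120d70)) e)) (c (c (p (nat_lit 0x21766a4)) e) e)) (c (c (c (p (nat_lit 0x3f0de0)) e) e) e))
  e))) (c (c (c (c (c (p (nat_lit 0x251fed4)) (c (m (nat_lit 0x16b52a4)) (c (m (nat_lit 0x238ca1c)) e))) (c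
  (c (m (nat_lit 0x3d5633c)) (c (m (nat_lit 0x19e201c)) e)) (c (c (m (nat_lit 0x471a8c)) e) e))) (c (c (c (p
  (nat_lit 0x292a6dc)) (c (m (nat_lit 0x15aa064)) e)) (c (c (m (nat_lit 0x1bdcd88)) e) e)) (c (c (c (p
  (nat_lit 0x6deabc)) e) e) e))) (c (c (c (c (p (nat_lit 0x1cd10f0)) (c (p (nat_lit 0xafd484)) e)) (c (c (m
  (nat_lit 0x713874)) e) e)) (c (c (c (m (nat_lit 0x95bd58)) e) e) e)) e)) (c (c (c (c (c (p (nat_lit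
  0x239c49c)) (c (p (nat_lit 0x15fc2ac)) e)) (c (c (p (nat_lit 0xe106c)) e) e)) (c (c (c (m (nat_lit
  0x1190610)) e) e) e)) e) e))) (c (c (c (c (c (c (m (nat_lit 0x312a02c)) (c (p (nat_lit 0x160abbc)) (c (p
  (nat_lit 0x152f7b4)) e))) (c (c (p (nat_lit 0x4d70564)) (c (m (nat_lit 0x171a434)) e)) (c (c (m (nat_lit
  0x646560)) e) e))) (c (c (c (m (nat_lit 0x57246cc)) (c (m (nat_lit 0x638874)) e)) (c (c (m (nat_lit
  0xf79f08)) e) e)) (c (c (c (p (nat_lit 0x1c88df0)) e) e) e))) (c (c (c (c (p (nat_lit 0x251b5c)) (c (p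
  (nat_lit 0x5f9a6c)) e)) (c (c (p (nat_lit 0x107dcf0)) e) e)) (c (c (c (m (nat_lit 0x14de1b4)) e) e) e)) e))
  (c (c (c (c (c (m (nat_lit 0x56f5d4)) (c (m (nat_lit 0x562758)) e)) (c (c (m (nat_lit 0x2d8cf58)) e) e)) (c
  (c (c (p (nat_lit 0x1351758)) e) e) e)) e) e)) (c (c (c (c (c (c (p (nat_lit 0x6158658)) (c (m (nat_lit
  0x1f59630)) e)) (c (c (m (nat_lit 0x6f7b3c)) e) e)) (c (c (c (p (nat_lit 0x6c3f60)) e) e) e)) e) e) e))) (c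
  (c (c (c (c (c (c (p (nat_lit 0x14a3d48e)) (c (m (nat_lit 0x32fe89c)) (c (p (nat_lit 0xbb8a44)) e))) (c (c
  (m (nat_lit 0x769fb3c)) (c (p (nat_lit 0x1d80194)) e)) (c (c (m (nat_lit 0x6fd20)) e) e))) (c (c (c (m
  (nat_lit 0x3c19686)) (c (p (nat_lit 0x11dbca0)) e)) (c (c (m (nat_lit 0xf0db30)) e) e)) (c (c (c (m
  (nat_lit 0x36e5b54)) e) e) e))) (c (c (c (c (m (nat_lit 0x1b710a0)) (c (p (nat_lit 0x414a3bc)) e)) (c (c (m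
  (nat_lit 0xd0b924)) e) e)) (c (c (c (m (nat_lit 0x234ea18)) e) e) e)) (c (c (c (c (m (nat_lit 0xbd39e4)) e)
  e) e) e))) (c (c (c (c (c (m (nat_lit 0x4d9dee8)) (c (p (nat_lit 0x11f1b40)) e)) (c (c (m (nat_lit
  0x238620)) e) e)) (c (c (c (p (nat_lit 0xfb4558)) e) e) e)) (c (c (c (c (m (nat_lit 0x10155c)) e) e) e) e))
  (c (c (c (c (c (p (nat_lit 0x16b4aa0)) e) e) e) e) e))) (c (c (c (c (c (c (m (nat_lit 0x2a582d2)) (c (p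
  (nat_lit 0xf0dc50)) e)) (c (c (m (nat_lit 0x1b90690)) e) e)) (c (c (c (p (nat_lit 0xad2e00)) e) e) e)) (c
  (c (c (c (p (nat_lit 0x1333db8)) e) e) e) e)) (c (c (c (c (c (p (nat_lit 0x157830)) e) e) e) e) e)) (c (c
  (c (c (c (c (m (nat_lit 0x350fca0)) e) e) e) e) e) e))) (c (c (c (c (c (c (c (m (nat_lit 0xc7057f8)) (c (m
  (nat_lit 0x273dee4)) e)) (c (c (p (nat_lit 0x3388fc8)) e) e)) (c (c (c (p (nat_lit 0x3ec3412)) e) e) e)) (c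
  (c (c (c (m (nat_lit 0x52c2948)) e) e) e) e)) (c (c (c (c (c (m (nat_lit 0x8a033c)) e) e) e) e) e)) (c (c
  (c (c (c (c (p (nat_lit 0x50e123e)) e) e) e) e) e) e)) (c (c (c (c (c (c (c (p (nat_lit 0x7ab60aa)) e) e)
  e) e) e) e) e)))) (c (c (c (c (c (c (c (c (p (nat_lit 0x3fe820c)) (c (m (nat_lit 0x26a5c40)) (c (m (nat_lit
  0x7067a0)) e))) (c (c (m (nat_lit 0xa5af2)) (c (p (nat_lit 0x2b8e88)) e)) (c (c (m (nat_lit 0x1bd668)) e)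
  e))) (c (c (c (p (nat_lit 0xf21534)) (c (m (nat_lit 0xa2ad7c)) e)) (c (c (m (nat_lit 0x21a5f54)) e) e)) (c
  (c (c (m (nat_lit 0x1df08a4)) e) e) e))) (c (c (c (c (p (nat_lit 0x19cf284)) (c (m (nat_lit 0x16cfb0)) e))
  (c (c (m (nat_lit 0x1003c74)) e) e)) (c (c (c (m (nat_lit 0x4657668)) e) e) e)) (c (c (c (c (p (nat_lit
  0x217b0c)) e) e) e) e))) (c (c (c (c (c (m (nat_lit 0x1d96088)) (c (p (nat_lit 0x7c47b4)) e)) (c (c (p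
  (nat_lit 0x317a6a8)) e) e)) (c (c (c (p (nat_lit 0x31cd34c)) e) e) e)) (c (c (c (c (m (nat_lit 0x2ec14)) e)
  e) e) e)) (c (c (c (c (c (p (nat_lit 0x9408c)) e) e) e) e) e))) (c (c (c (c (c (c (m (nat_lit 0x76968fc))
  (c (m (nat_lit 0x43bbac)) e)) (c (c (p (nat_lit 0x4684ec)) e) e)) (c (c (c (p (nat_lit 0x82e588)) e) e) e))
  (c (c (c (c (m (nat_lit 0x8ae220)) e) e) e) e)) (c (c (c (c (c (p (nat_lit 0x918c48)) e) e) e) e) e)) (c (c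
  (c (c (c (c (m (nat_lit 0x349284)) e) e) e) e) e) e))) (c (c (c (c (c (c (c (p (nat_lit 0x1630d9a)) (c (m
  (nat_lit 0x7be004)) e)) (c (c (p (nat_lit 0x1d498b8)) e) e)) (c (c (c (p (nat_lit 0x1aa6024)) e) e) e)) (c
  (c (c (c (p (nat_lit 0x5a3a56)) e) e) e) e)) (c (c (c (c (c (m (nat_lit 0x53265c)) e) e) e) e) e)) (c (c (c
  (c (c (c (p (nat_lit 0x3f28500)) e) e) e) e) e) e)) (c (c (c (c (c (c (c (m (nat_lit 0x1d9b0f8)) e) e) e)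
  e) e) e) e))) (c (c (c (c (c (c (c (c (m (nat_lit 0x970b954)) (c (p (nat_lit 0x44cd150)) e)) (c (c (m
  (nat_lit 0x282b952)) e) e)) (c (c (c (p (nat_lit 0x132aed8)) e) e) e)) (c (c (c (c (m (nat_lit 0x2dd61a))
  e) e) e) e)) (c (c (c (c (c (m (nat_lit 0x36ae57c)) e) e) e) e) e)) (c (c (c (c (c (c (p (nat_lit
  0x6e00acc)) e) e) e) e) e) e)) (c (c (c (c (c (c (c (m (nat_lit 0x701fa3c)) e) e) e) e) e) e) e)) (c (c (c
  (c (c (c (c (c (p (nat_lit 0x9d0483e)) e) e) e) e) e) e) e) e)))) (c (c (c (c (c (c (c (c (c (p (nat_lit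
  0x2aaf908)) (c (m (nat_lit 0x1b76e9c)) (c (p (nat_lit 0x124728)) e))) (c (c (m (nat_lit 0x3c5bec)) (c (p
  (nat_lit 0x2642580)) e)) (c (c (m (nat_lit 0x2450550)) e) e))) (c (c (c (m (nat_lit 0x577b12c)) (c (m
  (nat_lit 0x1e5988c)) e)) (c (c (p (nat_lit 0x1b73f50)) e) e)) (c (c (c (p (nat_lit 0x2564d48)) e) e) e)))
  (c (c (c (c (m (nat_lit 0xbf430)) (c (m (nat_lit 0x872490)) e)) (c (c (p (nat_lit 0x4f1cb8)) e) e)) (c (c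
  (c (p (nat_lit 0x8bbd98)) e) e) e)) (c (c (c (c (m (nat_lit 0x9b1960)) e) e) e) e))) (c (c (c (c (c (m
  (nat_lit 0x1c0cb30)) (c (p (nat_lit 0x121083c)) e)) (c (c (p (nat_lit 0x25aaf48)) e) e)) (c (c (c (p
  (nat_lit 0x195294)) e) e) e)) (c (c (c (c (p (nat_lit 0x506e8)) e) e) e) e)) (c (c (c (c (c (m (nat_lit
  0x1000200)) e) e) e) e) e))) (c (c (c (c (c (c (m (nat_lit 0x2136ca8)) (c (p (nat_lit 0x1ebf7cc)) e)) (c (c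
  (p (nat_lit 0x1b81114)) e) e)) (c (c (c (p (nat_lit 0xb7f81c)) e) e) e)) (c (c (c (c (p (nat_lit 0x3e41e0))
  e) e) e) e)) (c (c (c (c (c (p (nat_lit 0x16590fc)) e) e) e) e) e)) (c (c (c (c (c (c (m (nat_lit
  0x1c32dd4)) e) e) e) e) e) e))) (c (c (c (c (c (c (c (p (nat_lit 0x4f8118e)) (c (p (nat_lit 0x9e724)) e))
  (c (c (p (nat_lit 0x24ffcc)) e) e)) (c (c (c (p (nat_lit 0x2477f4)) e) e) e)) (c (c (c (c (p (nat_lit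
  0x2a43e90)) e) e) e) e)) (c (c (c (c (c (p (nat_lit 0x2146c08)) e) e) e) e) e)) (c (c (c (c (c (c (m
  (nat_lit 0xdcf8cc)) e) e) e) e) e) e)) (c (c (c (c (c (c (c (m (nat_lit 0x50a6492)) e) e) e) e) e) e) e)))
  (c (c (c (c (c (c (c (c (m (nat_lit 0x2f8053c)) (c (m (nat_lit 0x30645c)) e)) (c (c (m (nat_lit 0xd5b118))
  e) e)) (c (c (c (m (nat_lit 0x1db2864)) e) e) e)) (c (c (c (c (p (nat_lit 0x2f5d640)) e) e) e) e)) (c (c (c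
  (c (c (p (nat_lit 0x543a68)) e) e) e) e) e)) (c (c (c (c (c (c (m (nat_lit 0xd7811c)) e) e) e) e) e) e)) (c
  (c (c (c (c (c (c (p (nat_lit 0x20de37c)) e) e) e) e) e) e) e)) (c (c (c (c (c (c (c (c (p (nat_lit
  0x34d5ec0)) e) e) e) e) e) e) e) e))) (c (c (c (c (c (c (c (c (c (p (nat_lit 0x1fad204)) (c (m (nat_lit
  0x1c521cc)) e)) (c (c (m (nat_lit 0x10baa28)) e) e)) (c (c (c (p (nat_lit 0x1276284)) e) e) e)) (c (c (c (c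
  (m (nat_lit 0x1939ce0)) e) e) e) e)) (c (c (c (c (c (p (nat_lit 0x133338)) e) e) e) e) e)) (c (c (c (c (c
  (c (p (nat_lit 0x25216e0)) e) e) e) e) e) e)) (c (c (c (c (c (c (c (m (nat_lit 0x21ff870)) e) e) e) e) e)
  e) e)) (c (c (c (c (c (c (c (c (m (nat_lit 0x12fef1c)) e) e) e) e) e) e) e) e)) (c (c (c (c (c (c (c (c (c
  (p (nat_lit 0x2816e8)) e) e) e) e) e) e) e) e) e)))))

noncomputable def gt_1_0_6 : Tr :=
  (c (c (c (c (c (c (c (c (c (m (nat_lit 0x2a49ca4)) (c (p (nat_lit 0x51a314c)) (c (m (nat_lit 0x135e364))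
  e))) (c (c (p (nat_lit 0x536cb44)) (c (m (nat_lit 0x19cee70)) e)) (c (c (m (nat_lit 0x1ed560)) e) e))) (c
  (c (c (p (nat_lit 0xdfbb88)) (c (m (nat_lit 0x231b370)) e)) (c (c (m (nat_lit 0xd4cb5c)) e) e)) (c (c (c (p
  (nat_lit 0xdc44f0)) e) e) e))) (c (c (c (c (m (nat_lit 0x1054698)) (c (p (nat_lit 0x6e571d8)) (c (m
  (nat_lit 0x2937a14)) e))) (c (c (m (nat_lit 0x168996c)) (c (p (nat_lit 0xe06f94)) e)) (c (c (p (nat_lit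
  0x27a8204)) e) e))) (c (c (c (m (nat_lit 0x1a4f24c)) (c (p (nat_lit 0x1a55f0)) e)) (c (c (p (nat_lit
  0x2150454)) e) e)) (c (c (c (m (nat_lit 0x18a7f1c)) e) e) e))) (c (c (c (c (p (nat_lit 0xc25350)) (c (m
  (nat_lit 0x1d39820)) (c (p (nat_lit 0xaf785c)) e))) (c (c (p (nat_lit 0xc6bee0)) (c (m (nat_lit 0x16e65b8))
  e)) (c (c (m (nat_lit 0x1d00cf4)) e) e))) (c (c (c (m (nat_lit 0x1a25ee8)) (c (p (nat_lit 0x16c9c50)) e))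
  (c (c (p (nat_lit 0xebb9cc)) e) e)) (c (c (c (p (nat_lit 0x24300)) e) e) e))) e))) (c (c (c (c (c (p
  (nat_lit 0x1579ff8)) (c (m (nat_lit 0x62914c8)) (c (p (nat_lit 0x5c86df4)) e))) (c (c (p (nat_lit
  0x471c48)) (c (m (nat_lit 0x2641a1c)) e)) (c (c (m (nat_lit 0x23aace0)) e) e))) (c (c (c (p (nat_lit
  0x2f35ddc)) (c (m (nat_lit 0x248ad98)) e)) (c (c (m (nat_lit 0x200e80)) e) e)) (c (c (c (m (nat_lit
  0x2f6133c)) e) e) e))) (c (c (c (c (p (nat_lit 0x2f1324)) (c (p (nat_lit 0xa13688)) (c (m (nat_lit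
  0xac24b0)) e))) (c (c (p (nat_lit 0x26f20c8)) (c (m (nat_lit 0x6c2400)) e)) (c (c (m (nat_lit 0x5ca3e4)) e)
  e))) (c (c (c (m (nat_lit 0x4d51778)) (c (p (nat_lit 0x13986f0)) e)) (c (c (m (nat_lit 0x3d6a64)) e) e)) (c
  (c (c (p (nat_lit 0x34509cc)) e) e) e))) e)) (c (c (c (c (c (m (nat_lit 0xd148dc)) (c (p (nat_lit
  0x364d214)) (c (m (nat_lit 0x3a95c60)) e))) (c (c (m (nat_lit 0x47c7a8)) (c (m (nat_lit 0x484e78)) e)) (c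
  (c (p (nat_lit 0x2a8f01c)) e) e))) (c (c (c (m (nat_lit 0x5b2d8)) (c (m (nat_lit 0x1847340)) e)) (c (c (m
  (nat_lit 0x2c2251c)) e) e)) (c (c (c (p (nat_lit 0x785bf8)) e) e) e))) e) e))) (c (c (c (c (c (c (m
  (nat_lit 0x3dd01c)) (c (m (nat_lit 0x3cc3f6c)) (c (m (nat_lit 0xbc0f04)) e))) (c (c (m (nat_lit 0x6180cc0))
  (c (p (nat_lit 0x2cbd538)) e)) (c (c (m (nat_lit 0x6888c)) e) e))) (c (c (c (p (nat_lit 0xcaf3f44)) (c (p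
  (nat_lit 0x9adaf0)) e)) (c (c (p (nat_lit 0x13af028)) e) e)) (c (c (c (m (nat_lit 0x5cb6854)) e) e) e))) (c
  (c (c (c (m (nat_lit 0xc4d3dc)) (c (p (nat_lit 0x2bfdfa0)) (c (m (nat_lit 0x1429f74)) e))) (c (c (p
  (nat_lit 0x2cfea7c)) (c (p (nat_lit 0x19bdfb0)) e)) (c (c (m (nat_lit 0xcff030)) e) e))) (c (c (c (m
  (nat_lit 0x2195430)) (c (p (nat_lit 0x6616d4)) e)) (c (c (m (nat_lit 0x1282938)) e) e)) (c (c (c (p
  (nat_lit 0x2ccf0ac)) e) e) e))) e)) (c (c (c (c (c (m (nat_lit 0x19c3ed8)) (c (p (nat_lit 0x2d37230)) (c (p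
  (nat_lit 0x3f8e74)) e))) (c (c (p (nat_lit 0x41f37d8)) (c (m (nat_lit 0x24902dc)) e)) (c (c (m (nat_lit
  0x2e291b0)) e) e))) (c (c (c (m (nat_lit 0x163bd08)) (c (m (nat_lit 0x80c04)) e)) (c (c (p (nat_lit
  0x28ccab8)) e) e)) (c (c (c (p (nat_lit 0x14faeac)) e) e) e))) e) e)) (c (c (c (c (c (c (p (nat_lit
  0x2b488c0)) (c (m (nat_lit 0x69ddbb0)) (c (p (nat_lit 0x1ca2680)) e))) (c (c (m (nat_lit 0x5273814)) (c (p
  (nat_lit 0x1da6228)) e)) (c (c (m (nat_lit 0x5a1e84)) e) e))) (c (c (c (m (nat_lit 0x19ec96c)) (c (p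
  (nat_lit 0x1985a60)) e)) (c (c (p (nat_lit 0x22b9774)) e) e)) (c (c (c (p (nat_lit 0x1b31dac)) e) e) e)))
  e) e) e))) (c (c (c (c (c (c (c (m (nat_lit 0x156f0b34)) (c (p (nat_lit 0x44dbe7a)) (c (p (nat_lit
  0x32601c)) e))) (c (c (p (nat_lit 0x53cb56c)) (c (m (nat_lit 0x31c5b7c)) e)) (c (c (m (nat_lit 0x16e83dc))
  e) e))) (c (c (c (p (nat_lit 0x65590b0)) (c (m (nat_lit 0x1d106fc)) e)) (c (c (m (nat_lit 0x5cd708)) e) e))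
  (c (c (c (m (nat_lit 0x12612cc)) e) e) e))) (c (c (c (c (m (nat_lit 0x2d9e9fa)) (c (m (nat_lit 0x207ffd2))
  (c (p (nat_lit 0x4711824)) e))) (c (c (m (nat_lit 0x3d66b72)) (c (p (nat_lit 0xa4d144)) e)) (c (c (p
  (nat_lit 0xd63668)) e) e))) (c (c (c (p (nat_lit 0x99baf00)) (c (p (nat_lit 0xd7c778)) e)) (c (c (m
  (nat_lit 0x4bf420)) e) e)) (c (c (c (m (nat_lit 0x2f4c360)) e) e) e))) (c (c (c (c (p (nat_lit 0x10ca97c))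
  (c (m (nat_lit 0x824874)) e)) (c (c (m (nat_lit 0x14237f4)) e) e)) (c (c (c (p (nat_lit 0x6c2190)) e) e)
  e)) e))) (c (c (c (c (c (m (nat_lit 0x98e9086)) (c (p (nat_lit 0x24c151e)) (c (p (nat_lit 0x10bdbf0)) e)))
  (c (c (m (nat_lit 0x55bdda6)) (c (p (nat_lit 0x202f848)) e)) (c (c (p (nat_lit 0xe9514c)) e) e))) (c (c (c
  (p (nat_lit 0xb7e301c)) (c (m (nat_lit 0x49a16c)) e)) (c (c (p (nat_lit 0x251d90)) e) e)) (c (c (c (m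
  (nat_lit 0x3285a38)) e) e) e))) (c (c (c (c (p (nat_lit 0x1d71800)) (c (m (nat_lit 0x1b731ac)) e)) (c (c (m
  (nat_lit 0x146d3d8)) e) e)) (c (c (c (m (nat_lit 0x231d1e8)) e) e) e)) e)) (c (c (c (c (c (p (nat_lit
  0x546c864)) (c (m (nat_lit 0xbaa4a0)) e)) (c (c (m (nat_lit 0x102cf9c)) e) e)) (c (c (c (m (nat_lit
  0x1ad29e8)) e) e) e)) e) e))) (c (c (c (c (c (c (m (nat_lit 0x4d0f6fa)) (c (p (nat_lit 0x49c3908)) (c (p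
  (nat_lit 0x153b448)) e))) (c (c (p (nat_lit 0x7e46008)) (c (m (nat_lit 0x21a0974)) e)) (c (c (p (nat_lit
  0xd6f230)) e) e))) (c (c (c (p (nat_lit 0x3f64590)) (c (p (nat_lit 0x15a2e40)) e)) (c (c (m (nat_lit
  0x1941a68)) e) e)) (c (c (c (p (nat_lit 0x36ff57c)) e) e) e))) (c (c (c (c (m (nat_lit 0x957684)) (c (p
  (nat_lit 0x1678bc0)) e)) (c (c (p (nat_lit 0x82539c)) e) e)) (c (c (c (p (nat_lit 0xd457e8)) e) e) e)) e))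
  (c (c (c (c (c (p (nat_lit 0x2dff294)) (c (m (nat_lit 0x1460e50)) e)) (c (c (p (nat_lit 0x529ec)) e) e)) (c
  (c (c (p (nat_lit 0x12c5ab4)) e) e) e)) e) e)) (c (c (c (c (c (c (p (nat_lit 0x5ea5d34)) (c (p (nat_lit
  0xe72dfc)) e)) (c (c (m (nat_lit 0x27e3b8)) e) e)) (c (c (c (m (nat_lit 0x30f4ed8)) e) e) e)) e) e) e))) (c
  (c (c (c (c (c (c (p (nat_lit 0x1735acc4)) (c (m (nat_lit 0x684cf12)) (c (m (nat_lit 0x1093704)) e))) (c (c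
  (m (nat_lit 0x1cd3f0a)) (c (p (nat_lit 0x17962c8)) e)) (c (c (m (nat_lit 0x1499034)) e) e))) (c (c (c (m
  (nat_lit 0x51c76b0)) (c (p (nat_lit 0x121aae4)) e)) (c (c (p (nat_lit 0x1365f00)) e) e)) (c (c (c (p
  (nat_lit 0x216bb50)) e) e) e))) (c (c (c (c (p (nat_lit 0x1c3d36a)) (c (p (nat_lit 0x6d6dee)) e)) (c (c (p
  (nat_lit 0x326a89a)) e) e)) (c (c (c (m (nat_lit 0x2928618)) e) e) e)) (c (c (c (c (m (nat_lit 0xded3d4))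
  e) e) e) e))) (c (c (c (c (c (p (nat_lit 0xaa51b6e)) (c (m (nat_lit 0x7fb126)) e)) (c (c (p (nat_lit
  0x4996c4a)) e) e)) (c (c (c (m (nat_lit 0x939e1c)) e) e) e)) (c (c (c (c (p (nat_lit 0x3d5cec4)) e) e) e)
  e)) (c (c (c (c (c (m (nat_lit 0x1178f64)) e) e) e) e) e))) (c (c (c (c (c (c (p (nat_lit 0x63e6748)) (c (m
  (nat_lit 0x5a0cbe8)) e)) (c (c (m (nat_lit 0x424e414)) e) e)) (c (c (c (m (nat_lit 0xafba914)) e) e) e)) (c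
  (c (c (c (m (nat_lit 0x22d2e78)) e) e) e) e)) (c (c (c (c (c (m (nat_lit 0x4495848)) e) e) e) e) e)) (c (c
  (c (c (c (c (m (nat_lit 0x7fe114)) e) e) e) e) e) e))) (c (c (c (c (c (c (c (m (nat_lit 0x13b62112)) (c (p
  (nat_lit 0x2f50bfc)) e)) (c (c (m (nat_lit 0x1adb4ae)) e) e)) (c (c (c (p (nat_lit 0xce3c4)) e) e) e)) (c
  (c (c (c (m (nat_lit 0x171efdc)) e) e) e) e)) (c (c (c (c (c (m (nat_lit 0x437ff94)) e) e) e) e) e)) (c (c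
  (c (c (c (c (p (nat_lit 0x213ac0e)) e) e) e) e) e) e)) (c (c (c (c (c (c (c (p (nat_lit 0x716596e)) e) e)
  e) e) e) e) e))))) (c (c (c (c (c (c (c (c (m (nat_lit 0x13cc1dc0)) (c (p (nat_lit 0x6b383b0)) (c (p
  (nat_lit 0x1b45e70)) e))) (c (c (m (nat_lit 0x3c67734)) (c (m (nat_lit 0x214ebdc)) e)) (c (c (p (nat_lit
  0x16921e0)) e) e))) (c (c (c (p (nat_lit 0x8f54f5e)) (c (m (nat_lit 0x20ac60)) e)) (c (c (p (nat_lit
  0x27867d8)) e) e)) (c (c (c (p (nat_lit 0xd6e0c0)) e) e) e))) (c (c (c (c (m (nat_lit 0x33be9da)) (c (m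
  (nat_lit 0xa278732)) (c (m (nat_lit 0x471a14)) e))) (c (c (m (nat_lit 0x60bd4a4)) (c (m (nat_lit
  0x19e204c)) e)) (c (c (m (nat_lit 0x238ca88)) e) e))) (c (c (c (p (nat_lit 0x3ec2b42)) (c (m (nat_lit
  0x1bdcd10)) e)) (c (c (m (nat_lit 0x15aa094)) e) e)) (c (c (c (p (nat_lit 0x6dea74)) e) e) e))) (c (c (c (c
  (p (nat_lit 0x239c3c4)) (c (p (nat_lit 0xe109c)) e)) (c (c (p (nat_lit 0x15fc318)) e) e)) (c (c (c (m
  (nat_lit 0x11905f8)) e) e) e)) e))) (c (c (c (c (c (p (nat_lit 0x2579724)) (c (m (nat_lit 0x7bf56a6)) (c (m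
  (nat_lit 0x404280)) e))) (c (c (m (nat_lit 0x782b7f4)) (c (p (nat_lit 0x2735250)) e)) (c (c (m (nat_lit
  0x75bc4)) e) e))) (c (c (c (p (nat_lit 0x47aa014)) (c (p (nat_lit 0x1b59064)) e)) (c (c (p (nat_lit
  0x7965c)) e) e)) (c (c (c (m (nat_lit 0x373cad0)) e) e) e))) (c (c (c (c (p (nat_lit 0x1cd10f0)) (c (m
  (nat_lit 0x713898)) e)) (c (c (p (nat_lit 0xafd46c)) e) e)) (c (c (c (m (nat_lit 0x95bd10)) e) e) e)) e))
  (c (c (c (c (c (m (nat_lit 0x19243b0)) (c (p (nat_lit 0x21765e4)) e)) (c (c (p (nat_lit 0x1120d1c)) e) e))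
  (c (c (c (p (nat_lit 0x3f0da4)) e) e) e)) e) e))) (c (c (c (c (c (c (m (nat_lit 0x623cc34)) (c (p (nat_lit
  0xd06f212)) (c (m (nat_lit 0x646560)) e))) (c (c (m (nat_lit 0x3fa28e8)) (c (m (nat_lit 0x171a560)) e)) (c
  (c (p (nat_lit 0x152f790)) e) e))) (c (c (c (m (nat_lit 0x3d798d4)) (c (m (nat_lit 0xf79ed8)) e)) (c (c (m
  (nat_lit 0x63882c)) e) e)) (c (c (c (p (nat_lit 0x1c88d60)) e) e) e))) (c (c (c (c (m (nat_lit 0x56f544))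
  (c (m (nat_lit 0x2d8cef8)) e)) (c (c (m (nat_lit 0x562788)) e) e)) (c (c (c (p (nat_lit 0x1351764)) e) e)
  e)) e)) (c (c (c (c (c (p (nat_lit 0x251bec)) (c (p (nat_lit 0x107ddec)) e)) (c (c (p (nat_lit 0x5f9a84))
  e) e)) (c (c (c (m (nat_lit 0x14de1f0)) e) e) e)) e) e)) (c (c (c (c (c (c (p (nat_lit 0x615864c)) (c (m
  (nat_lit 0x6f7c20)) e)) (c (c (m (nat_lit 0x1f5966c)) e) e)) (c (c (c (p (nat_lit 0x6c3f00)) e) e) e)) e)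
  e) e))) (c (c (c (c (c (c (c (p (nat_lit 0x1708cb6c)) (c (m (nat_lit 0x77e8c36)) (c (m (nat_lit 0x6fd5c))
  e))) (c (c (p (nat_lit 0x313890)) (c (p (nat_lit 0x1d8029c)) e)) (c (c (p (nat_lit 0xbb8b10)) e) e))) (c (c
  (c (m (nat_lit 0x786ec34)) (c (m (nat_lit 0xf0db3c)) e)) (c (c (p (nat_lit 0x11dbcd0)) e) e)) (c (c (c (m
  (nat_lit 0x36e5b3c)) e) e) e))) (c (c (c (c (m (nat_lit 0x1945782)) (c (p (nat_lit 0x1bede8e)) e)) (c (c (p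
  (nat_lit 0xb98824)) e) e)) (c (c (c (p (nat_lit 0x9fd554)) e) e) e)) (c (c (c (c (p (nat_lit 0x16b4a4c)) e)
  e) e) e))) (c (c (c (c (c (p (nat_lit 0x4c3eb22)) (c (p (nat_lit 0x35ce50)) e)) (c (c (p (nat_lit
  0x45e9cfa)) e) e)) (c (c (c (m (nat_lit 0x456de60)) e) e) e)) (c (c (c (c (m (nat_lit 0x101544)) e) e) e)
  e)) (c (c (c (c (c (m (nat_lit 0xbd39e4)) e) e) e) e) e))) (c (c (c (c (c (c (m (nat_lit 0x11963208)) (c (m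
  (nat_lit 0x4450236)) e)) (c (c (p (nat_lit 0x16d647e)) e) e)) (c (c (c (p (nat_lit 0xd35816)) e) e) e)) (c
  (c (c (c (p (nat_lit 0x157848)) e) e) e) e)) (c (c (c (c (c (p (nat_lit 0x1333da0)) e) e) e) e) e)) (c (c
  (c (c (c (c (m (nat_lit 0x350fc7c)) e) e) e) e) e) e))) (c (c (c (c (c (c (c (m (nat_lit 0xb4e89da)) (c (p
  (nat_lit 0x61db080)) e)) (c (c (m (nat_lit 0x327c8d0)) e) e)) (c (c (c (p (nat_lit 0x288750c)) e) e) e)) (c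
  (c (c (c (m (nat_lit 0x15b2c62)) e) e) e) e)) (c (c (c (c (c (m (nat_lit 0x400b426)) e) e) e) e) e)) (c (c
  (c (c (c (c (p (nat_lit 0x88880a0)) e) e) e) e) e) e)) (c (c (c (c (c (c (c (p (nat_lit 0x686bb90)) e) e)
  e) e) e) e) e)))) (c (c (c (c (c (c (c (c (p (nat_lit 0xc25240e)) (c (m (nat_lit 0x5201838)) (c (m (nat_lit
  0x2450664)) e))) (c (c (p (nat_lit 0x279064e)) (c (p (nat_lit 0x26425a4)) e)) (c (c (p (nat_lit 0x124770))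
  e) e))) (c (c (c (m (nat_lit 0x8112e94)) (c (p (nat_lit 0x1b73ed8)) e)) (c (c (m (nat_lit 0x1e59790)) e)
  e)) (c (c (c (p (nat_lit 0x2564e14)) e) e) e))) (c (c (c (c (p (nat_lit 0x8a5d8d0)) (c (p (nat_lit
  0x6ca6f14)) e)) (c (c (p (nat_lit 0x6271e6c)) e) e)) (c (c (c (m (nat_lit 0xe4c072)) e) e) e)) (c (c (c (c
  (m (nat_lit 0x1000128)) e) e) e) e))) (c (c (c (c (c (p (nat_lit 0x304c5c6)) (c (p (nat_lit 0x55bccd2)) e))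
  (c (c (p (nat_lit 0x22160ca)) e) e)) (c (c (c (p (nat_lit 0x3591330)) e) e) e)) (c (c (c (c (p (nat_lit
  0x5070c)) e) e) e) e)) (c (c (c (c (c (m (nat_lit 0x9b1990)) e) e) e) e) e))) (c (c (c (c (c (c (p (nat_lit
  0x6adcc28)) (c (m (nat_lit 0x3ebddcc)) e)) (c (c (p (nat_lit 0x6ca45ce)) e) e)) (c (c (c (m (nat_lit
  0x108deba)) e) e) e)) (c (c (c (c (p (nat_lit 0x1659084)) e) e) e) e)) (c (c (c (c (c (p (nat_lit
  0x3e4210)) e) e) e) e) e)) (c (c (c (c (c (c (m (nat_lit 0x1c32e34)) e) e) e) e) e) e))) (c (c (c (c (c (c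
  (c (p (nat_lit 0xab750fc)) (c (p (nat_lit 0x102c27c)) e)) (c (c (m (nat_lit 0x144fe64)) e) e)) (c (c (c (p
  (nat_lit 0x2142168)) e) e) e)) (c (c (c (c (m (nat_lit 0xf45d68)) e) e) e) e)) (c (c (c (c (c (m (nat_lit
  0x3e89dca)) e) e) e) e) e)) (c (c (c (c (c (c (p (nat_lit 0x94e0f84)) e) e) e) e) e) e)) (c (c (c (c (c (c
  (c (m (nat_lit 0x7a0a53a)) e) e) e) e) e) e) e))) (c (c (c (c (c (c (c (c (m (nat_lit 0x3ed4f0e)) (c (m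
  (nat_lit 0xf6a27e)) e)) (c (c (m (nat_lit 0x3556926)) e) e)) (c (c (c (m (nat_lit 0xa9852e)) e) e) e)) (c
  (c (c (c (m (nat_lit 0x4311ebe)) e) e) e) e)) (c (c (c (c (c (m (nat_lit 0x422d750)) e) e) e) e) e)) (c (c
  (c (c (c (c (m (nat_lit 0x212bd88)) e) e) e) e) e) e)) (c (c (c (c (c (c (c (m (nat_lit 0x3199dbe)) e) e)
  e) e) e) e) e)) (c (c (c (c (c (c (c (c (p (nat_lit 0x2f808ea)) e) e) e) e) e) e) e) e))))) (c (c (c (c (c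
  (c (c (c (c (p (nat_lit 0x49a3a0)) (c (p (nat_lit 0x1e6ba84)) (c (p (nat_lit 0x197b074)) e))) (c (c (m
  (nat_lit 0x64827d8)) (c (p (nat_lit 0x561f60)) e)) (c (c (m (nat_lit 0x22dc514)) e) e))) (c (c (c (p
  (nat_lit 0x2afb538)) (c (p (nat_lit 0x2f44ec0)) e)) (c (c (m (nat_lit 0x194ec98)) e) e)) (c (c (c (m
  (nat_lit 0x2d5f538)) e) e) e))) (c (c (c (c (p (nat_lit 0x50bd478)) (c (m (nat_lit 0x9b22d8)) (c (m
  (nat_lit 0x17418fc)) e))) (c (c (m (nat_lit 0x12bedc4)) (c (m (nat_lit 0x17fd6d8)) e)) (c (c (p (nat_lit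
  0xd95e7c)) e) e))) (c (c (c (m (nat_lit 0x3b421c0)) (c (p (nat_lit 0x1bcdea8)) e)) (c (c (p (nat_lit
  0x5305bcc)) e) e)) (c (c (c (p (nat_lit 0x3f1b3c0)) e) e) e))) (c (c (c (c (p (nat_lit 0x6bc778)) (c (m
  (nat_lit 0x2b9de08)) e)) (c (c (m (nat_lit 0x102c7ec)) e) e)) (c (c (c (m (nat_lit 0xca7250)) e) e) e))
  e))) (c (c (c (c (c (m (nat_lit 0x6da916c)) (c (p (nat_lit 0x1b1b7c8)) (c (m (nat_lit 0x7acc94)) e))) (c (c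
  (p (nat_lit 0x8f8245c)) (c (m (nat_lit 0x232ee4)) e)) (c (c (m (nat_lit 0x7a48dc)) e) e))) (c (c (c (p
  (nat_lit 0x93a1fc4)) (c (m (nat_lit 0x16f9158)) e)) (c (c (m (nat_lit 0x18e364)) e) e)) (c (c (c (m
  (nat_lit 0x748140)) e) e) e))) (c (c (c (c (m (nat_lit 0x2072d60)) (c (m (nat_lit 0x4ac22c)) e)) (c (c (m
  (nat_lit 0x18cad64)) e) e)) (c (c (c (m (nat_lit 0x12641e8)) e) e) e)) e)) (c (c (c (c (c (m (nat_lit
  0x34d1a8)) (c (p (nat_lit 0x875760)) e)) (c (c (m (nat_lit 0xb9a288)) e) e)) (c (c (c (m (nat_lit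
  0x24cbc04)) e) e) e)) e) e))) (c (c (c (c (c (c (p (nat_lit 0x47da410)) (c (p (nat_lit 0x14775b4)) (c (p
  (nat_lit 0x6da280)) e))) (c (c (p (nat_lit 0x70cc638)) (c (m (nat_lit 0x70b324)) e)) (c (c (p (nat_lit
  0x8ca348)) e) e))) (c (c (c (m (nat_lit 0x129cc6c)) (c (m (nat_lit 0x1f86774)) e)) (c (c (m (nat_lit
  0x27c4500)) e) e)) (c (c (c (m (nat_lit 0xb2d3f4)) e) e) e))) (c (c (c (c (p (nat_lit 0x15bd93c)) (c (p
  (nat_lit 0x782b8)) e)) (c (c (m (nat_lit 0x1a00df0)) e) e)) (c (c (c (m (nat_lit 0x2c196e4)) e) e) e)) e))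
  (c (c (c (c (c (m (nat_lit 0x160ddb4)) (c (p (nat_lit 0x1ec35a0)) e)) (c (c (m (nat_lit 0xa48854)) e) e))
  (c (c (c (m (nat_lit 0x38622c)) e) e) e)) e) e)) (c (c (c (c (c (c (p (nat_lit 0x3f55c8)) (c (m (nat_lit
  0x586e6c0)) e)) (c (c (p (nat_lit 0x2817468)) e) e)) (c (c (c (p (nat_lit 0x73edbc)) e) e) e)) e) e) e)))
  (c (c (c (c (c (c (c (p (nat_lit 0x2210670)) (c (m (nat_lit 0x15f7faa)) (c (m (nat_lit 0x184c188)) e))) (c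
  (c (m (nat_lit 0x669018)) (c (p (nat_lit 0x8faf0c)) e)) (c (c (p (nat_lit 0x2ddf134)) e) e))) (c (c (c (m
  (nat_lit 0x138e580)) (c (m (nat_lit 0x3b5ba8)) e)) (c (c (m (nat_lit 0x10f7eec)) e) e)) (c (c (c (m
  (nat_lit 0x2ac30)) e) e) e))) (c (c (c (c (m (nat_lit 0xe53560)) (c (p (nat_lit 0x18f0420)) e)) (c (c (m
  (nat_lit 0x11c9358)) e) e)) (c (c (c (m (nat_lit 0x2866ab8)) e) e) e)) (c (c (c (c (m (nat_lit 0x4baf08))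
  e) e) e) e))) (c (c (c (c (c (p (nat_lit 0x25352c4)) (c (p (nat_lit 0x12137e8)) e)) (c (c (m (nat_lit
  0x177fc9c)) e) e)) (c (c (c (m (nat_lit 0x1a5c74)) e) e) e)) (c (c (c (c (m (nat_lit 0xb3070c)) e) e) e)
  e)) (c (c (c (c (c (p (nat_lit 0x15ec718)) e) e) e) e) e))) (c (c (c (c (c (c (m (nat_lit 0x35e39c2)) (c (m
  (nat_lit 0x4f98d8)) e)) (c (c (m (nat_lit 0x2185620)) e) e)) (c (c (c (p (nat_lit 0x1550100)) e) e) e)) (c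
  (c (c (c (p (nat_lit 0x7e0b40)) e) e) e) e)) (c (c (c (c (c (p (nat_lit 0x191ecb0)) e) e) e) e) e)) (c (c
  (c (c (c (c (m (nat_lit 0x8c35d4)) e) e) e) e) e) e))) (c (c (c (c (c (c (c (m (nat_lit 0x1af00d6)) (c (p
  (nat_lit 0x2661126)) e)) (c (c (p (nat_lit 0x4e040ec)) e) e)) (c (c (c (p (nat_lit 0x360bf1c)) e) e) e)) (c
  (c (c (c (m (nat_lit 0x10a43e4)) e) e) e) e)) (c (c (c (c (c (m (nat_lit 0x25381f8)) e) e) e) e) e)) (c (c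
  (c (c (c (c (p (nat_lit 0xc1f0e6)) e) e) e) e) e) e)) (c (c (c (c (c (c (c (p (nat_lit 0x1487682)) e) e) e)
  e) e) e) e)))) (c (c (c (c (c (c (c (c (p (nat_lit 0x65dfbd0)) (c (m (nat_lit 0x6f3ccf6)) (c (m (nat_lit
  0x1bd71c)) e))) (c (c (p (nat_lit 0x5489f6a)) (c (p (nat_lit 0x2b8f30)) e)) (c (c (m (nat_lit 0x706734)) e)
  e))) (c (c (c (m (nat_lit 0x25e4878)) (c (m (nat_lit 0x21a6008)) e)) (c (c (m (nat_lit 0xa2adb8)) e) e)) (c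
  (c (c (m (nat_lit 0x1df0958)) e) e) e))) (c (c (c (c (m (nat_lit 0xa177d4)) (c (p (nat_lit 0x317a768)) e))
  (c (c (p (nat_lit 0x7c48bc)) e) e)) (c (c (c (p (nat_lit 0x31cd22c)) e) e) e)) (c (c (c (c (p (nat_lit
  0x940b0)) e) e) e) e))) (c (c (c (c (c (p (nat_lit 0xef3d24)) (c (m (nat_lit 0x1003bcc)) e)) (c (c (m
  (nat_lit 0x16cec0)) e) e)) (c (c (c (m (nat_lit 0x46575fc)) e) e) e)) (c (c (c (c (m (nat_lit 0x2ebfc)) e)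
  e) e) e)) (c (c (c (c (c (p (nat_lit 0x217b18)) e) e) e) e) e))) (c (c (c (c (c (c (m (nat_lit 0x4b4c1c4))
  (c (p (nat_lit 0x468534)) e)) (c (c (m (nat_lit 0x43bbd0)) e) e)) (c (c (c (p (nat_lit 0x82e60c)) e) e) e))
  (c (c (c (c (p (nat_lit 0x918c60)) e) e) e) e)) (c (c (c (c (c (m (nat_lit 0x8ae268)) e) e) e) e) e)) (c (c
  (c (c (c (c (m (nat_lit 0x34917c)) e) e) e) e) e) e))) (c (c (c (c (c (c (c (p (nat_lit 0x1b24ac2)) (c (p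
  (nat_lit 0xa39830)) e)) (c (c (m (nat_lit 0x141e58c)) e) e)) (c (c (c (p (nat_lit 0x1aa0948)) e) e) e)) (c
  (c (c (c (p (nat_lit 0x92e2b4)) e) e) e) e)) (c (c (c (c (c (p (nat_lit 0x13f3e4e)) e) e) e) e) e)) (c (c
  (c (c (c (c (p (nat_lit 0x3c54168)) e) e) e) e) e) e)) (c (c (c (c (c (c (c (p (nat_lit 0x1b46890)) e) e)
  e) e) e) e) e))) (c (c (c (c (c (c (c (c (m (nat_lit 0x74eecc0)) (c (p (nat_lit 0x1078e12)) e)) (c (c (m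
  (nat_lit 0x5658afe)) e) e)) (c (c (c (p (nat_lit 0x1085640)) e) e) e)) (c (c (c (c (m (nat_lit 0x1ce4800))
  e) e) e) e)) (c (c (c (c (c (p (nat_lit 0xaebeda)) e) e) e) e) e)) (c (c (c (c (c (c (p (nat_lit 0x5471a0))
  e) e) e) e) e) e)) (c (c (c (c (c (c (c (m (nat_lit 0x6f1f962)) e) e) e) e) e) e) e)) (c (c (c (c (c (c (c
  (c (p (nat_lit 0x1ce49f8)) e) e) e) e) e) e) e) e)))) (c (c (c (c (c (c (c (c (c (p (nat_lit 0xa54287c)) (c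
  (m (nat_lit 0x8f1ea18)) (c (p (nat_lit 0x18bf8ec)) e))) (c (c (p (nat_lit 0x2b2df68)) (c (p (nat_lit
  0x6be05c)) e)) (c (c (p (nat_lit 0xd2699c)) e) e))) (c (c (c (m (nat_lit 0x8a21498)) (c (p (nat_lit
  0x1659f78)) e)) (c (c (p (nat_lit 0xa3c7d0)) e) e)) (c (c (c (p (nat_lit 0x387e2d4)) e) e) e))) (c (c (c (c
  (m (nat_lit 0x15f2820)) (c (p (nat_lit 0x17c45ac)) e)) (c (c (p (nat_lit 0x14928e4)) e) e)) (c (c (c (p
  (nat_lit 0x37aea34)) e) e) e)) (c (c (c (c (p (nat_lit 0x259d9c4)) e) e) e) e))) (c (c (c (c (c (m (nat_lit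
  0x241bd38)) (c (p (nat_lit 0x29aa02c)) e)) (c (c (m (nat_lit 0x269e4f4)) e) e)) (c (c (c (p (nat_lit
  0x1102cf8)) e) e) e)) (c (c (c (c (p (nat_lit 0x1359abc)) e) e) e) e)) (c (c (c (c (c (p (nat_lit
  0x6c1ed8)) e) e) e) e) e))) (c (c (c (c (c (c (m (nat_lit 0x5c97d50)) (c (p (nat_lit 0x1372728)) e)) (c (c
  (m (nat_lit 0x11dce58)) e) e)) (c (c (c (m (nat_lit 0x20e638c)) e) e) e)) (c (c (c (c (p (nat_lit
  0xabf7ec)) e) e) e) e)) (c (c (c (c (c (m (nat_lit 0x199ee64)) e) e) e) e) e)) (c (c (c (c (c (c (p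
  (nat_lit 0x307c68)) e) e) e) e) e) e))) (c (c (c (c (c (c (c (p (nat_lit 0x4dfc700)) (c (m (nat_lit
  0xb94474)) e)) (c (c (m (nat_lit 0x25a28c)) e) e)) (c (c (c (m (nat_lit 0x149b41c)) e) e) e)) (c (c (c (c
  (m (nat_lit 0x64ead4)) e) e) e) e)) (c (c (c (c (c (m (nat_lit 0x29478f0)) e) e) e) e) e)) (c (c (c (c (c
  (c (p (nat_lit 0x1907760)) e) e) e) e) e) e)) (c (c (c (c (c (c (c (m (nat_lit 0x3518340)) e) e) e) e) e)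
  e) e))) (c (c (c (c (c (c (c (c (p (nat_lit 0x172e02a)) (c (p (nat_lit 0x3ba7950)) e)) (c (c (p (nat_lit
  0x294fff0)) e) e)) (c (c (c (p (nat_lit 0x19fe5c4)) e) e) e)) (c (c (c (c (m (nat_lit 0x3665430)) e) e) e)
  e)) (c (c (c (c (c (p (nat_lit 0x1e1f1dc)) e) e) e) e) e)) (c (c (c (c (c (c (p (nat_lit 0x32cb3b0)) e) e)
  e) e) e) e)) (c (c (c (c (c (c (c (m (nat_lit 0x25d38c2)) e) e) e) e) e) e) e)) (c (c (c (c (c (c (c (c (p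
  (nat_lit 0x3ac22dc)) e) e) e) e) e) e) e) e))) (c (c (c (c (c (c (c (c (c (m (nat_lit 0x9588dec)) (c (p
  (nat_lit 0x210d320)) e)) (c (c (m (nat_lit 0x1977ae0)) e) e)) (c (c (c (p (nat_lit 0x1fa38ec)) e) e) e)) (c
  (c (c (c (m (nat_lit 0x495ecac)) e) e) e) e)) (c (c (c (c (c (p (nat_lit 0x150a2e4)) e) e) e) e) e)) (c (c
  (c (c (c (c (p (nat_lit 0x448ea20)) e) e) e) e) e) e)) (c (c (c (c (c (c (c (m (nat_lit 0x3770b8)) e) e) e)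
  e) e) e) e)) (c (c (c (c (c (c (c (c (m (nat_lit 0x1fb1b9c)) e) e) e) e) e) e) e) e)) (c (c (c (c (c (c (c
  (c (c (p (nat_lit 0x2cc088)) e) e) e) e) e) e) e) e) e)))))

noncomputable def gt_1_0_7 : Tr :=
  (c (c (c (c (c (c (c (c (c (p (nat_lit 0x7094244)) (c (m (nat_lit 0x7724580)) (c (p (nat_lit 0xe383f8))
  e))) (c (c (m (nat_lit 0x77245bc)) (c (p (nat_lit 0x4cc88ac)) e)) (c (c (p (nat_lit 0xe383ec)) e) e))) (c
  (c (c (m (nat_lit 0x2bfa424)) (c (p (nat_lit 0x146faa8)) e)) (c (c (p (nat_lit 0x146fad8)) e) e)) (c (c (c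
  (p (nat_lit 0xc7dc94)) e) e) e))) (c (c (c (c (m (nat_lit 0x2f3c58c)) (c (p (nat_lit 0x1fadfa8)) (c (p
  (nat_lit 0x2bf614c)) e))) (c (c (p (nat_lit 0x3a5b8e0)) (c (m (nat_lit 0x2524950)) e)) (c (c (m (nat_lit
  0x17436f0)) e) e))) (c (c (c (p (nat_lit 0x23710b0)) (c (m (nat_lit 0x2871f60)) e)) (c (c (p (nat_lit
  0x1080444)) e) e)) (c (c (c (m (nat_lit 0x61aa30)) e) e) e))) (c (c (c (c (m (nat_lit 0x60b7c0)) (c (p
  (nat_lit 0x30d9e0)) (c (m (nat_lit 0x285288)) e))) (c (c (p (nat_lit 0x22270f8)) (c (m (nat_lit 0xb977d4))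
  e)) (c (c (m (nat_lit 0x1d0598)) e) e))) (c (c (c (m (nat_lit 0xc63edc)) (c (m (nat_lit 0x11e27f8)) e)) (c
  (c (p (nat_lit 0xab2358)) e) e)) (c (c (c (p (nat_lit 0x96e5f8)) e) e) e))) e))) (c (c (c (c (c (m (nat_lit
  0x2f3c304)) (c (p (nat_lit 0x3a5bac0)) (c (m (nat_lit 0x1743948)) e))) (c (c (p (nat_lit 0x1fae200)) (c (m
  (nat_lit 0x2524800)) e)) (c (c (p (nat_lit 0x2bf5f9c)) e) e))) (c (c (c (p (nat_lit 0x2370fcc)) (c (p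
  (nat_lit 0x1080588)) e)) (c (c (m (nat_lit 0x2871f6c)) e) e)) (c (c (c (m (nat_lit 0x61a964)) e) e) e))) (c
  (c (c (c (p (nat_lit 0x1c7de28)) (c (m (nat_lit 0x1a65824)) (c (p (nat_lit 0xd9c8fc)) e))) (c (c (m
  (nat_lit 0x1a65848)) (c (p (nat_lit 0x2136e4)) e)) (c (c (p (nat_lit 0xd9c8f0)) e) e))) (c (c (c (m
  (nat_lit 0x186cf54)) (c (m (nat_lit 0x41cf28)) e)) (c (c (m (nat_lit 0x41ceec)) e) e)) (c (c (c (m (nat_lit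
  0x283cf8)) e) e) e))) e)) (c (c (c (c (c (m (nat_lit 0x60b760)) (c (p (nat_lit 0x22270d4)) (c (m (nat_lit
  0x1d05a4)) e))) (c (c (p (nat_lit 0x30d938)) (c (m (nat_lit 0xb97834)) e)) (c (c (m (nat_lit 0x285204)) e)
  e))) (c (c (c (m (nat_lit 0xc63f30)) (c (p (nat_lit 0xab23b8)) e)) (c (c (m (nat_lit 0x11e27d4)) e) e)) (c
  (c (c (p (nat_lit 0x96e64c)) e) e) e))) e) e))) (c (c (c (c (c (c (p (nat_lit 0x67902c)) (c (p (nat_lit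
  0x321dce0)) (c (m (nat_lit 0x50692c8)) e))) (c (c (p (nat_lit 0x321dc38)) (c (p (nat_lit 0x16b1e48)) e)) (c
  (c (m (nat_lit 0x50692f8)) e) e))) (c (c (c (p (nat_lit 0x703adc)) (c (p (nat_lit 0x1ea3af4)) e)) (c (c (p
  (nat_lit 0x1ea3b24)) e) e)) (c (c (c (p (nat_lit 0xf4f14c)) e) e) e))) (c (c (c (c (p (nat_lit 0x227e974))
  (c (m (nat_lit 0x16f62d8)) (c (m (nat_lit 0x5ff7c)) e))) (c (c (m (nat_lit 0x2d0a5c0)) (c (p (nat_lit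
  0xd05b10)) e)) (c (c (p (nat_lit 0x136c8e4)) e) e))) (c (c (c (m (nat_lit 0x11972c4)) (c (p (nat_lit
  0x20deb80)) e)) (c (c (m (nat_lit 0x29f124)) e) e)) (c (c (c (p (nat_lit 0x5104c8)) e) e) e))) e)) (c (c (c
  (c (c (p (nat_lit 0x227e980)) (c (m (nat_lit 0x2d0a524)) (c (p (nat_lit 0x136c848)) e))) (c (c (m (nat_lit
  0x16f62c0)) (c (p (nat_lit 0xd05be8)) e)) (c (c (m (nat_lit 0x60000)) e) e))) (c (c (c (m (nat_lit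
  0x1197354)) (c (m (nat_lit 0x29f154)) e)) (c (c (p (nat_lit 0x20debd4)) e) e)) (c (c (c (p (nat_lit
  0x5104bc)) e) e) e))) e) e)) (c (c (c (c (c (c (m (nat_lit 0x39e8710)) (c (p (nat_lit 0x51e6bb0)) (c (m
  (nat_lit 0x28b9228)) e))) (c (c (p (nat_lit 0x51e6bd4)) (c (m (nat_lit 0x389b2e4)) e)) (c (c (m (nat_lit
  0x28b9234)) e) e))) (c (c (c (m (nat_lit 0x14341b0)) (c (m (nat_lit 0x82b9cc)) e)) (c (c (m (nat_lit
  0x82b9cc)) e) e)) (c (c (c (p (nat_lit 0x16c7e98)) e) e) e))) e) e) e))) (c (c (c (c (c (c (c (p (nat_lit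
  0x863b7d0)) (c (p (nat_lit 0xa8d2bf4)) (c (m (nat_lit 0x2ef08e4)) e))) (c (c (p (nat_lit 0xa8d2cc0)) (c (p
  (nat_lit 0x293139c)) e)) (c (c (m (nat_lit 0x2ef07dc)) e) e))) (c (c (c (m (nat_lit 0x45823d4)) (c (m
  (nat_lit 0xfc0ce4)) e)) (c (c (m (nat_lit 0xfc0d8c)) e) e)) (c (c (c (p (nat_lit 0x369bdb4)) e) e) e))) (c
  (c (c (c (p (nat_lit 0x7dd5124)) (c (m (nat_lit 0x419ea58)) (c (m (nat_lit 0x1d4c438)) e))) (c (c (p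
  (nat_lit 0x5e854)) (c (p (nat_lit 0x226f260)) e)) (c (c (m (nat_lit 0xc8a378)) e) e))) (c (c (c (m (nat_lit
  0x147bde4)) (c (p (nat_lit 0x298614)) e)) (c (c (p (nat_lit 0xc381e4)) e) e)) (c (c (c (p (nat_lit
  0x921df8)) e) e) e))) (c (c (c (c (p (nat_lit 0x24ae00)) (c (p (nat_lit 0x62b938)) e)) (c (c (m (nat_lit
  0x8f4408)) e) e)) (c (c (c (m (nat_lit 0x1eca53c)) e) e) e)) e))) (c (c (c (c (c (p (nat_lit 0x7dd4c9e)) (c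
  (p (nat_lit 0x5e8ea)) (c (m (nat_lit 0xc8a2e8)) e))) (c (c (m (nat_lit 0x419e9b0)) (c (p (nat_lit
  0x226f1f4)) e)) (c (c (m (nat_lit 0x1d4c3e4)) e) e))) (c (c (c (m (nat_lit 0x147bd60)) (c (p (nat_lit
  0xc3816c)) e)) (c (c (p (nat_lit 0x29862c)) e) e)) (c (c (c (p (nat_lit 0x921dc8)) e) e) e))) (c (c (c (c
  (m (nat_lit 0x2b65fe4)) (c (p (nat_lit 0x5c5b84)) e)) (c (c (p (nat_lit 0x5c5b78)) e) e)) (c (c (c (m
  (nat_lit 0x12fbd00)) e) e) e)) e)) (c (c (c (c (c (p (nat_lit 0x24ae78)) (c (m (nat_lit 0x8f4414)) e)) (c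
  (c (p (nat_lit 0x62b878)) e) e)) (c (c (c (m (nat_lit 0x1eca500)) e) e) e)) e) e))) (c (c (c (c (c (c (m
  (nat_lit 0x31f6cf2)) (c (p (nat_lit 0x44009a6)) (c (p (nat_lit 0x422f58)) e))) (c (c (p (nat_lit
  0x4400a3c)) (c (p (nat_lit 0xc17c40)) e)) (c (c (p (nat_lit 0x422f94)) e) e))) (c (c (c (p (nat_lit
  0x44db208)) (c (m (nat_lit 0x1b32bec)) e)) (c (c (m (nat_lit 0x1b32bd4)) e) e)) (c (c (c (m (nat_lit
  0xde4f5c)) e) e) e))) (c (c (c (c (m (nat_lit 0x10af5e0)) (c (p (nat_lit 0x1a99b44)) e)) (c (c (p (nat_lit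
  0x95c4cc)) e) e)) (c (c (c (p (nat_lit 0x1b4d2c8)) e) e) e)) e)) (c (c (c (c (c (m (nat_lit 0x10af6e8)) (c
  (p (nat_lit 0x95c4c0)) e)) (c (c (p (nat_lit 0x1a99b98)) e) e)) (c (c (c (p (nat_lit 0x1b4d304)) e) e) e))
  e) e)) (c (c (c (c (c (c (m (nat_lit 0x12258fc)) (c (m (nat_lit 0x100e504)) e)) (c (c (m (nat_lit
  0x100e540)) e) e)) (c (c (c (m (nat_lit 0xd9ec0c)) e) e) e)) e) e) e))) (c (c (c (c (c (c (c (m (nat_lit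
  0x20404ec6)) (c (m (nat_lit 0x6b47152)) (c (p (nat_lit 0x3580bcc)) e))) (c (c (m (nat_lit 0x6b4729c)) (c (m
  (nat_lit 0x40e687c)) e)) (c (c (p (nat_lit 0x3580b30)) e) e))) (c (c (c (p (nat_lit 0x999260a)) (c (p
  (nat_lit 0x15c7518)) e)) (c (c (p (nat_lit 0x15c7560)) e) e)) (c (c (c (m (nat_lit 0x3b1ff00)) e) e) e)))
  (c (c (c (c (m (nat_lit 0x2944ffe)) (c (p (nat_lit 0x30fbbb0)) e)) (c (c (p (nat_lit 0xc9a23c)) e) e)) (c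
  (c (c (p (nat_lit 0x3b4f3e4)) e) e) e)) (c (c (c (c (p (nat_lit 0x25c200)) e) e) e) e))) (c (c (c (c (c (m
  (nat_lit 0x2944e9c)) (c (p (nat_lit 0xc9a19a)) e)) (c (c (p (nat_lit 0x30fbb80)) e) e)) (c (c (c (p
  (nat_lit 0x3b4f3b4)) e) e) e)) (c (c (c (c (p (nat_lit 0x223f9a4)) e) e) e) e)) (c (c (c (c (c (p (nat_lit
  0x25c1b8)) e) e) e) e) e))) (c (c (c (c (c (c (m (nat_lit 0x1ebe872)) (c (m (nat_lit 0x4eccc42)) e)) (c (c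
  (m (nat_lit 0x4ecccd8)) e) e)) (c (c (c (m (nat_lit 0x4e31dc4)) e) e) e)) (c (c (c (c (m (nat_lit
  0x13cbdbc)) e) e) e) e)) (c (c (c (c (c (m (nat_lit 0x13cbdc8)) e) e) e) e) e)) (c (c (c (c (c (c (p
  (nat_lit 0x530fa18)) e) e) e) e) e) e))) (c (c (c (c (c (c (c (p (nat_lit 0xa4d33c6)) (c (p (nat_lit
  0x171634e)) e)) (c (c (p (nat_lit 0x1716360)) e) e)) (c (c (c (m (nat_lit 0x33db846)) e) e) e)) (c (c (c (c
  (m (nat_lit 0x2bd11f2)) e) e) e) e)) (c (c (c (c (c (m (nat_lit 0x2bd1222)) e) e) e) e) e)) (c (c (c (c (c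
  (c (p (nat_lit 0x176481c)) e) e) e) e) e) e)) (c (c (c (c (c (c (c (p (nat_lit 0x250ce84)) e) e) e) e) e)
  e) e))))) (c (c (c (c (c (c (c (c (m (nat_lit 0x776c196)) (c (m (nat_lit 0x438e844)) (c (m (nat_lit
  0x2850684)) e))) (c (c (m (nat_lit 0x630972)) (c (m (nat_lit 0x2435d48)) e)) (c (c (p (nat_lit 0x8be348))
  e) e))) (c (c (c (m (nat_lit 0xd8ff5a)) (c (p (nat_lit 0x148398)) e)) (c (c (p (nat_lit 0x88a2d4)) e) e))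
  (c (c (c (p (nat_lit 0x1e6f8dc)) e) e) e))) (c (c (c (c (p (nat_lit 0x756646e)) (c (p (nat_lit 0x674c6e2))
  (c (m (nat_lit 0x122d750)) e))) (c (c (m (nat_lit 0x12efc496)) (c (p (nat_lit 0x2fbbf84)) e)) (c (c (m
  (nat_lit 0xb885b8)) e) e))) (c (c (c (p (nat_lit 0x2a4915e)) (c (m (nat_lit 0x2ed418)) e)) (c (c (p
  (nat_lit 0x9f1ecc)) e) e)) (c (c (c (p (nat_lit 0x1caae4)) e) e) e))) (c (c (c (c (m (nat_lit 0x7eb5f74))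
  (c (p (nat_lit 0x48bafc)) e)) (c (c (p (nat_lit 0x51d848)) e) e)) (c (c (c (p (nat_lit 0x3b14ec)) e) e) e))
  e))) (c (c (c (c (c (p (nat_lit 0xe1c1b5a)) (c (p (nat_lit 0x26c6b68)) (c (m (nat_lit 0x89a438)) e))) (c (c
  (m (nat_lit 0x3c98b80)) (c (m (nat_lit 0x25f110)) e)) (c (c (m (nat_lit 0x9bf76c)) e) e))) (c (c (c (m
  (nat_lit 0x2f278a4)) (c (p (nat_lit 0x1a423dc)) e)) (c (c (p (nat_lit 0x1c45d94)) e) e)) (c (c (c (p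
  (nat_lit 0x57e658)) e) e) e))) (c (c (c (c (m (nat_lit 0x128c52c)) (c (p (nat_lit 0x9257f4)) e)) (c (c (p
  (nat_lit 0x62e0d4)) e) e)) (c (c (c (p (nat_lit 0x21ab84)) e) e) e)) e)) (c (c (c (c (c (p (nat_lit
  0x3bc66e8)) (c (m (nat_lit 0x294ec40)) e)) (c (c (p (nat_lit 0x1c95294)) e) e)) (c (c (c (m (nat_lit
  0x128073c)) e) e) e)) e) e))) (c (c (c (c (c (c (p (nat_lit 0x7cda1da)) (c (m (nat_lit 0x67d117a)) (c (p
  (nat_lit 0x363be74)) e))) (c (c (m (nat_lit 0x10a5d0ca)) (c (m (nat_lit 0x5aae6c)) e)) (c (c (p (nat_lit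
  0x2e8e8a4)) e) e))) (c (c (c (m (nat_lit 0x3243c24)) (c (p (nat_lit 0x2bb7bc)) e)) (c (c (m (nat_lit
  0x2492a3c)) e) e)) (c (c (c (m (nat_lit 0x2029b3c)) e) e) e))) (c (c (c (c (m (nat_lit 0x193e618)) (c (p
  (nat_lit 0xd168e0)) e)) (c (c (m (nat_lit 0x17bf368)) e) e)) (c (c (c (m (nat_lit 0x3f7b84)) e) e) e)) e))
  (c (c (c (c (c (p (nat_lit 0x28eefac)) (c (m (nat_lit 0x435954)) e)) (c (c (p (nat_lit 0x12119b8)) e) e))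
  (c (c (c (m (nat_lit 0x495600)) e) e) e)) e) e)) (c (c (c (c (c (c (p (nat_lit 0x2099f58)) (c (p (nat_lit
  0x219eda8)) e)) (c (c (m (nat_lit 0x2076540)) e) e)) (c (c (c (m (nat_lit 0xf42e88)) e) e) e)) e) e) e)))
  (c (c (c (c (c (c (c (p (nat_lit 0x773aba0)) (c (m (nat_lit 0x4ebe6e)) (c (p (nat_lit 0xa4d2e8)) e))) (c (c
  (p (nat_lit 0x32bcc32)) (c (m (nat_lit 0x229b78)) e)) (c (c (m (nat_lit 0x8a4194)) e) e))) (c (c (c (m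
  (nat_lit 0xab364e)) (c (m (nat_lit 0x47ecf8)) e)) (c (c (m (nat_lit 0x44f0ac)) e) e)) (c (c (c (m (nat_lit
  0xd1c64c)) e) e) e))) (c (c (c (c (p (nat_lit 0x2665806)) (c (m (nat_lit 0x36ea720)) e)) (c (c (p (nat_lit
  0x30226d4)) e) e)) (c (c (c (m (nat_lit 0x86c02e)) e) e) e)) (c (c (c (c (p (nat_lit 0x23f7978)) e) e) e)
  e))) (c (c (c (c (c (m (nat_lit 0x1411c92)) (c (p (nat_lit 0x3073b6)) e)) (c (c (p (nat_lit 0x1e06d4a)) e)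
  e)) (c (c (c (m (nat_lit 0x118d178)) e) e) e)) (c (c (c (c (p (nat_lit 0x1a4a0f8)) e) e) e) e)) (c (c (c (c
  (c (p (nat_lit 0x14cc28c)) e) e) e) e) e))) (c (c (c (c (c (c (m (nat_lit 0x7340ea4)) (c (p (nat_lit
  0x3184854)) e)) (c (c (p (nat_lit 0x26dd10a)) e) e)) (c (c (c (p (nat_lit 0x2081b92)) e) e) e)) (c (c (c (c
  (m (nat_lit 0xcd10dc)) e) e) e) e)) (c (c (c (c (c (p (nat_lit 0x719b8c)) e) e) e) e) e)) (c (c (c (c (c (c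
  (m (nat_lit 0x23af84c)) e) e) e) e) e) e))) (c (c (c (c (c (c (c (p (nat_lit 0x5b8f930)) (c (p (nat_lit
  0x1d57e1a)) e)) (c (c (m (nat_lit 0x1d7694e)) e) e)) (c (c (c (p (nat_lit 0x3a8156)) e) e) e)) (c (c (c (c
  (m (nat_lit 0x409b768)) e) e) e) e)) (c (c (c (c (c (m (nat_lit 0x2e76a60)) e) e) e) e) e)) (c (c (c (c (c
  (c (p (nat_lit 0x57a42b6)) e) e) e) e) e) e)) (c (c (c (c (c (c (c (m (nat_lit 0x3db2766)) e) e) e) e) e)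
  e) e)))) (c (c (c (c (c (c (c (c (m (nat_lit 0x3782c64)) (c (p (nat_lit 0x418c020)) (c (p (nat_lit
  0xa06c68)) e))) (c (c (p (nat_lit 0xc820188)) (c (p (nat_lit 0x133c8c0)) e)) (c (c (m (nat_lit 0x99c354))
  e) e))) (c (c (c (p (nat_lit 0x20e43d0)) (c (m (nat_lit 0x7fbf00)) e)) (c (c (m (nat_lit 0xb20074)) e) e))
  (c (c (c (m (nat_lit 0x1873d04)) e) e) e))) (c (c (c (c (m (nat_lit 0x78edf0c)) (c (m (nat_lit 0x3af1a12))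
  e)) (c (c (p (nat_lit 0x7bc866a)) e) e)) (c (c (c (p (nat_lit 0x17e575c)) e) e) e)) (c (c (c (c (p (nat_lit
  0x1aa1158)) e) e) e) e))) (c (c (c (c (c (m (nat_lit 0x138649f2)) (c (m (nat_lit 0x1e65cd6)) e)) (c (c (p
  (nat_lit 0x45423ba)) e) e)) (c (c (c (p (nat_lit 0x22fe378)) e) e) e)) (c (c (c (c (p (nat_lit 0x466b0)) e)
  e) e) e)) (c (c (c (c (c (m (nat_lit 0x1581f3c)) e) e) e) e) e))) (c (c (c (c (c (c (m (nat_lit 0x3eb3e72))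
  (c (p (nat_lit 0x57b34ea)) e)) (c (c (p (nat_lit 0xd84c374)) e) e)) (c (c (c (p (nat_lit 0x4b8bc7a)) e) e)
  e)) (c (c (c (c (m (nat_lit 0x74bc80)) e) e) e) e)) (c (c (c (c (c (m (nat_lit 0xa90a34)) e) e) e) e) e))
  (c (c (c (c (c (c (p (nat_lit 0x7d6628)) e) e) e) e) e) e))) (c (c (c (c (c (c (c (m (nat_lit 0x218d222))
  (c (m (nat_lit 0x1d233d4)) e)) (c (c (m (nat_lit 0x2c8ee58)) e) e)) (c (c (c (m (nat_lit 0xb5842)) e) e)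
  e)) (c (c (c (c (m (nat_lit 0x1545a50)) e) e) e) e)) (c (c (c (c (c (p (nat_lit 0x19049b8)) e) e) e) e) e))
  (c (c (c (c (c (c (p (nat_lit 0x3a779ae)) e) e) e) e) e) e)) (c (c (c (c (c (c (c (p (nat_lit 0x54c80b2))
  e) e) e) e) e) e) e))) (c (c (c (c (c (c (c (c (p (nat_lit 0x4260516)) (c (m (nat_lit 0x1bb3dc)) e)) (c (c
  (m (nat_lit 0x842738a)) e) e)) (c (c (c (m (nat_lit 0x1ac4b10)) e) e) e)) (c (c (c (c (p (nat_lit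
  0xe1f618)) e) e) e) e)) (c (c (c (c (c (p (nat_lit 0x9962562)) e) e) e) e) e)) (c (c (c (c (c (c (m
  (nat_lit 0x58e2a0c)) e) e) e) e) e) e)) (c (c (c (c (c (c (c (m (nat_lit 0x7cbcd8)) e) e) e) e) e) e) e))
  (c (c (c (c (c (c (c (c (m (nat_lit 0x2872b06)) e) e) e) e) e) e) e) e))))) (c (c (c (c (c (c (c (c (c (m
  (nat_lit 0x44ced4c)) (c (p (nat_lit 0x53a2058)) (c (p (nat_lit 0x8be300)) e))) (c (c (p (nat_lit
  0x3c82e24)) (c (m (nat_lit 0x2435dc0)) e)) (c (c (m (nat_lit 0x2850624)) e) e))) (c (c (c (m (nat_lit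
  0x167cf4)) (c (p (nat_lit 0x88a358)) e)) (c (c (p (nat_lit 0x1483a4)) e) e)) (c (c (c (p (nat_lit
  0x1e6f8f4)) e) e) e))) (c (c (c (c (p (nat_lit 0x484bbb8)) (c (p (nat_lit 0x33c2f1c)) (c (m (nat_lit
  0x9bf820)) e))) (c (c (m (nat_lit 0x105ea9c)) (c (m (nat_lit 0x25f074)) e)) (c (c (m (nat_lit 0x89a4a4)) e)
  e))) (c (c (c (m (nat_lit 0x1cd82cc)) (c (p (nat_lit 0x1c45d28)) e)) (c (c (p (nat_lit 0x1a423a0)) e) e))
  (c (c (c (p (nat_lit 0x57e604)) e) e) e))) (c (c (c (c (p (nat_lit 0x3bc66e8)) (c (p (nat_lit 0x1c95258))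
  e)) (c (c (m (nat_lit 0x294ebec)) e) e)) (c (c (c (m (nat_lit 0x1280718)) e) e) e)) e))) (c (c (c (c (c (p
  (nat_lit 0x268fed8)) (c (m (nat_lit 0xbc3427c)) (c (m (nat_lit 0xb8857c)) e))) (c (c (p (nat_lit
  0x1944774)) (c (p (nat_lit 0x2fbbf48)) e)) (c (c (m (nat_lit 0x122d780)) e) e))) (c (c (c (p (nat_lit
  0x2e54cd4)) (c (p (nat_lit 0x9f1e84)) e)) (c (c (m (nat_lit 0x2ed454)) e) e)) (c (c (c (p (nat_lit
  0x1caaf0)) e) e) e))) (c (c (c (c (m (nat_lit 0x128c550)) (c (p (nat_lit 0x62e0b0)) e)) (c (c (p (nat_lit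
  0x925800)) e) e)) (c (c (c (p (nat_lit 0x21ab6c)) e) e) e)) e)) (c (c (c (c (c (m (nat_lit 0x7eb5eb4)) (c
  (p (nat_lit 0x51d65c)) e)) (c (c (p (nat_lit 0x48bb50)) e) e)) (c (c (c (p (nat_lit 0x3b1534)) e) e) e)) e)
  e))) (c (c (c (c (c (c (p (nat_lit 0xfec3ac)) (c (m (nat_lit 0x4e7266c)) (c (p (nat_lit 0x2e8e8e0)) e))) (c
  (c (m (nat_lit 0x674e80)) (c (m (nat_lit 0x5aaeb4)) e)) (c (c (p (nat_lit 0x363be98)) e) e))) (c (c (c (p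
  (nat_lit 0x2780d48)) (c (m (nat_lit 0x2492a78)) e)) (c (c (p (nat_lit 0x2bb7c8)) e) e)) (c (c (c (m
  (nat_lit 0x2029b84)) e) e) e))) (c (c (c (c (p (nat_lit 0x28eef58)) (c (p (nat_lit 0x121191c)) e)) (c (c (m
  (nat_lit 0x435954)) e) e)) (c (c (c (m (nat_lit 0x49557c)) e) e) e)) e)) (c (c (c (c (c (m (nat_lit
  0x193e2ac)) (c (m (nat_lit 0x17bf368)) e)) (c (c (p (nat_lit 0xd168e0)) e) e)) (c (c (c (m (nat_lit
  0x3f7b54)) e) e) e)) e) e)) (c (c (c (c (c (c (p (nat_lit 0x2099f58)) (c (m (nat_lit 0x2076540)) e)) (c (c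
  (p (nat_lit 0x219edc0)) e) e)) (c (c (c (m (nat_lit 0xf42ec4)) e) e) e)) e) e) e))) (c (c (c (c (c (c (c (m
  (nat_lit 0x4600c56)) (c (p (nat_lit 0x103c1c4)) (c (m (nat_lit 0x8a41d0)) e))) (c (c (m (nat_lit
  0x4d8ca22)) (c (m (nat_lit 0x229b0c)) e)) (c (c (p (nat_lit 0xa4d288)) e) e))) (c (c (c (m (nat_lit
  0x225a9ce)) (c (m (nat_lit 0x44f088)) e)) (c (c (m (nat_lit 0x47ecb0)) e) e)) (c (c (c (m (nat_lit
  0xd1c604)) e) e) e))) (c (c (c (c (m (nat_lit 0x2122fc2)) (c (p (nat_lit 0xee0f44)) e)) (c (c (p (nat_lit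
  0x1164e10)) e) e)) (c (c (c (m (nat_lit 0x454cc8)) e) e) e)) (c (c (c (c (p (nat_lit 0x14cc2d4)) e) e) e)
  e))) (c (c (c (c (c (p (nat_lit 0x83aee2)) (c (p (nat_lit 0x20cd6b4)) e)) (c (c (m (nat_lit 0x24a656c)) e)
  e)) (c (c (c (m (nat_lit 0x463b90)) e) e) e)) (c (c (c (c (p (nat_lit 0x1a4a0ec)) e) e) e) e)) (c (c (c (c
  (c (p (nat_lit 0x23f7a20)) e) e) e) e) e))) (c (c (c (c (c (c (m (nat_lit 0x6568cc2)) (c (p (nat_lit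
  0x206ce14)) e)) (c (c (p (nat_lit 0x44839d4)) e) e)) (c (c (c (p (nat_lit 0x205134c)) e) e) e)) (c (c (c (c
  (p (nat_lit 0x719b98)) e) e) e) e)) (c (c (c (c (c (m (nat_lit 0xcd1148)) e) e) e) e) e)) (c (c (c (c (c (c
  (m (nat_lit 0x23af798)) e) e) e) e) e) e))) (c (c (c (c (c (c (c (p (nat_lit 0xc796992)) (c (m (nat_lit
  0x33c4698)) e)) (c (c (p (nat_lit 0x3445d9a)) e) e)) (c (c (c (p (nat_lit 0x107b30e)) e) e) e)) (c (c (c (c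
  (m (nat_lit 0x346214a)) e) e) e) e)) (c (c (c (c (c (m (nat_lit 0x37c22be)) e) e) e) e) e)) (c (c (c (c (c
  (c (p (nat_lit 0x45af75e)) e) e) e) e) e) e)) (c (c (c (c (c (c (c (m (nat_lit 0x369d89c)) e) e) e) e) e)
  e) e)))) (c (c (c (c (c (c (c (c (m (nat_lit 0x393a5c6)) (c (p (nat_lit 0xa6b114)) (c (p (nat_lit
  0x1aa7290)) e))) (c (c (p (nat_lit 0x4f87da6)) (c (m (nat_lit 0x2011320)) e)) (c (c (p (nat_lit 0x1aa7260))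
  e) e))) (c (c (c (p (nat_lit 0x3415710)) (c (m (nat_lit 0x1002264)) e)) (c (c (m (nat_lit 0x1002294)) e)
  e)) (c (c (c (m (nat_lit 0x38ea64)) e) e) e))) (c (c (c (c (p (nat_lit 0x1d459fa)) (c (m (nat_lit
  0x237eacc)) e)) (c (c (p (nat_lit 0x3cb3ef8)) e) e)) (c (c (c (p (nat_lit 0x8625b4)) e) e) e)) (c (c (c (c
  (p (nat_lit 0x964350)) e) e) e) e))) (c (c (c (c (c (m (nat_lit 0x3e6556)) (c (p (nat_lit 0x3cb3e50)) e))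
  (c (c (m (nat_lit 0x237eb74)) e) e)) (c (c (c (p (nat_lit 0x862620)) e) e) e)) (c (c (c (c (m (nat_lit
  0x1a8e6fc)) e) e) e) e)) (c (c (c (c (c (p (nat_lit 0x964320)) e) e) e) e) e))) (c (c (c (c (c (c (m
  (nat_lit 0x11b9d04)) (c (p (nat_lit 0x162cfc0)) e)) (c (c (p (nat_lit 0x162cec4)) e) e)) (c (c (c (p
  (nat_lit 0x3c87e4)) e) e) e)) (c (c (c (c (p (nat_lit 0x4b9b40)) e) e) e) e)) (c (c (c (c (c (p (nat_lit
  0x4b9b7c)) e) e) e) e) e)) (c (c (c (c (c (c (p (nat_lit 0x29af18)) e) e) e) e) e) e))) (c (c (c (c (c (c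
  (c (m (nat_lit 0x1223859c)) (c (m (nat_lit 0xbf6c40)) e)) (c (c (m (nat_lit 0x102ed18)) e) e)) (c (c (c (m
  (nat_lit 0xc9a26c)) e) e) e)) (c (c (c (c (m (nat_lit 0xa211c4)) e) e) e) e)) (c (c (c (c (c (p (nat_lit
  0x513a9e)) e) e) e) e) e)) (c (c (c (c (c (c (m (nat_lit 0x27d5252)) e) e) e) e) e) e)) (c (c (c (c (c (c
  (c (p (nat_lit 0x26e4358)) e) e) e) e) e) e) e))) (c (c (c (c (c (c (c (c (p (nat_lit 0x2c5f3f2)) (c (m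
  (nat_lit 0x68d7e0)) e)) (c (c (m (nat_lit 0x95053fe)) e) e)) (c (c (c (m (nat_lit 0x1797f3c)) e) e) e)) (c
  (c (c (c (m (nat_lit 0x4267cda)) e) e) e) e)) (c (c (c (c (c (m (nat_lit 0x31fd58)) e) e) e) e) e)) (c (c
  (c (c (c (c (p (nat_lit 0x271fc32)) e) e) e) e) e) e)) (c (c (c (c (c (c (c (p (nat_lit 0x60b5d7c)) e) e)
  e) e) e) e) e)) (c (c (c (c (c (c (c (c (p (nat_lit 0x77bb408)) e) e) e) e) e) e) e) e)))) (c (c (c (c (c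
  (c (c (c (c (p (nat_lit 0xb53a10)) (c (p (nat_lit 0xb4e28c)) (c (m (nat_lit 0x99c2f4)) e))) (c (c (m
  (nat_lit 0x2702b44)) (c (p (nat_lit 0x133c914)) e)) (c (c (p (nat_lit 0xa06bf0)) e) e))) (c (c (c (m
  (nat_lit 0x1affc34)) (c (m (nat_lit 0xb200bc)) e)) (c (c (m (nat_lit 0x7fbec4)) e) e)) (c (c (c (m (nat_lit
  0x1873d4c)) e) e) e))) (c (c (c (c (p (nat_lit 0x57dcc8)) (c (m (nat_lit 0x1bf357c)) e)) (c (c (p (nat_lit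
  0xa61e74)) e) e)) (c (c (c (p (nat_lit 0x3768d8)) e) e) e)) (c (c (c (c (m (nat_lit 0x1581f78)) e) e) e)
  e))) (c (c (c (c (c (p (nat_lit 0x12f0ae0)) (c (p (nat_lit 0x18554dc)) e)) (c (c (p (nat_lit 0xd23fc)) e)
  e)) (c (c (c (p (nat_lit 0xfd16c4)) e) e) e)) (c (c (c (c (p (nat_lit 0x46704)) e) e) e) e)) (c (c (c (c (c
  (p (nat_lit 0x1aa1008)) e) e) e) e) e))) (c (c (c (c (c (c (m (nat_lit 0x2c01264)) (c (p (nat_lit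
  0x22d1ab0)) e)) (c (c (m (nat_lit 0x1ca7fc0)) e) e)) (c (c (c (m (nat_lit 0xe083f8)) e) e) e)) (c (c (c (c
  (m (nat_lit 0xa90a28)) e) e) e) e)) (c (c (c (c (c (m (nat_lit 0x74bbfc)) e) e) e) e) e)) (c (c (c (c (c (c
  (p (nat_lit 0x7d661c)) e) e) e) e) e) e))) (c (c (c (c (c (c (c (p (nat_lit 0x6b01144)) (c (p (nat_lit
  0xfe4db0)) e)) (c (c (m (nat_lit 0x152fa30)) e) e)) (c (c (c (p (nat_lit 0x1025fe8)) e) e) e)) (c (c (c (c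
  (p (nat_lit 0x11f0874)) e) e) e) e)) (c (c (c (c (c (m (nat_lit 0x15daee0)) e) e) e) e) e)) (c (c (c (c (c
  (c (p (nat_lit 0x3c9c1a4)) e) e) e) e) e) e)) (c (c (c (c (c (c (c (m (nat_lit 0x1cf46dc)) e) e) e) e) e)
  e) e))) (c (c (c (c (c (c (c (c (p (nat_lit 0xb32713c)) (c (m (nat_lit 0x18601ec)) e)) (c (c (p (nat_lit
  0x3532e0c)) e) e)) (c (c (c (p (nat_lit 0x593a9c)) e) e) e)) (c (c (c (c (p (nat_lit 0x2b04700)) e) e) e)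
  e)) (c (c (c (c (c (m (nat_lit 0x24c444)) e) e) e) e) e)) (c (c (c (c (c (c (p (nat_lit 0x911244)) e) e) e)
  e) e) e)) (c (c (c (c (c (c (c (p (nat_lit 0x22de51e)) e) e) e) e) e) e) e)) (c (c (c (c (c (c (c (c (m
  (nat_lit 0x72c64da)) e) e) e) e) e) e) e) e))) (c (c (c (c (c (c (c (c (c (m (nat_lit 0x29fe554)) (c (m
  (nat_lit 0x24cd320)) e)) (c (c (p (nat_lit 0x10814b8)) e) e)) (c (c (c (p (nat_lit 0xeefe0c)) e) e) e)) (c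
  (c (c (c (p (nat_lit 0xf06948)) e) e) e) e)) (c (c (c (c (c (m (nat_lit 0x19028f4)) e) e) e) e) e)) (c (c
  (c (c (c (c (p (nat_lit 0x3500b8)) e) e) e) e) e) e)) (c (c (c (c (c (c (c (m (nat_lit 0x14cf148)) e) e) e)
  e) e) e) e)) (c (c (c (c (c (c (c (c (m (nat_lit 0x3d2b7b4)) e) e) e) e) e) e) e) e)) (c (c (c (c (c (c (c
  (c (c (p (nat_lit 0xac9ab8)) e) e) e) e) e) e) e) e) e)))))

noncomputable def gt_1_0 : Tr := (c gt_1_0_0 (c gt_1_0_1 (c gt_1_0_2 (c gt_1_0_3 (c gt_1_0_4 (c gt_1_0_5 (c gt_1_0_6 (c gt_1_0_7 e))))))))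

noncomputable def gt_1_1_1 : Tr :=
  (c (c (c (c (c (c (c (c (c (p (nat_lit 0x4896e40)) (c (m (nat_lit 0x5f9334)) (c (m (nat_lit 0x19c872c))
  e))) (c (c (m (nat_lit 0x409a99a)) (c (p (nat_lit 0xb62872)) e)) (c (c (m (nat_lit 0xd2ed4e)) e) e))) (c (c
  (c (m (nat_lit 0x1cb75e4)) (c (p (nat_lit 0x1e57810)) e)) (c (c (p (nat_lit 0x260514c)) e) e)) (c (c (c (m
  (nat_lit 0x2310a26)) e) e) e))) (c (c (c (c (m (nat_lit 0x5f9334)) (c (p (nat_lit 0x1db65222)) (c (m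
  (nat_lit 0x967648e)) e))) (c (c (p (nat_lit 0x5d834a2)) (c (m (nat_lit 0x62a5568)) e)) (c (c (m (nat_lit
  0x402a872)) e) e))) (c (c (c (p (nat_lit 0x519621c)) (c (m (nat_lit 0x246423c)) e)) (c (c (p (nat_lit
  0xa1ec6e)) e) e)) (c (c (c (m (nat_lit 0x4505a0)) e) e) e))) (c (c (c (c (m (nat_lit 0x19c872c)) (c (m
  (nat_lit 0x967648e)) (c (p (nat_lit 0x114493a4)) e))) (c (c (p (nat_lit 0x4177788)) (c (m (nat_lit
  0x2465b26)) e)) (c (c (m (nat_lit 0x1491276)) e) e))) (c (c (c (p (nat_lit 0x1b9d50)) (c (m (nat_lit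
  0xd788)) e)) (c (c (m (nat_lit 0x1408b96)) e) e)) (c (c (c (m (nat_lit 0xb10a8)) e) e) e))) e))) (c (c (c
  (c (c (m (nat_lit 0x409a99a)) (c (p (nat_lit 0x5d834a2)) (c (p (nat_lit 0x4177788)) e))) (c (c (p (nat_lit
  0x1505cc34)) (c (m (nat_lit 0x6eaab00)) e)) (c (c (m (nat_lit 0xa1add1c)) e) e))) (c (c (c (p (nat_lit
  0x58a8e2a)) (c (m (nat_lit 0x3025e42)) e)) (c (c (p (nat_lit 0x116859c)) e) e)) (c (c (c (p (nat_lit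
  0x27ec5bc)) e) e) e))) (c (c (c (c (p (nat_lit 0xb62872)) (c (m (nat_lit 0x62a5568)) (c (m (nat_lit
  0x2465b26)) e))) (c (c (m (nat_lit 0x6eaab00)) (c (p (nat_lit 0x87ccf7e)) e)) (c (c (p (nat_lit 0x24f7674))
  e) e))) (c (c (c (p (nat_lit 0x14812e)) (c (m (nat_lit 0x1f5888)) e)) (c (c (m (nat_lit 0x1bb824e)) e) e))
  (c (c (c (m (nat_lit 0xac5cea)) e) e) e))) e)) (c (c (c (c (c (m (nat_lit 0xd2ed4e)) (c (m (nat_lit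
  0x402a872)) (c (m (nat_lit 0x1491276)) e))) (c (c (m (nat_lit 0xa1add1c)) (c (p (nat_lit 0x24f7674)) e)) (c
  (c (p (nat_lit 0xd37178c)) e) e))) (c (c (c (m (nat_lit 0x58ddea0)) (c (p (nat_lit 0xcf9b9a)) e)) (c (c (m
  (nat_lit 0x23e916a)) e) e)) (c (c (c (p (nat_lit 0x7055fa)) e) e) e))) e) e))) (c (c (c (c (c (c (m
  (nat_lit 0x1cb75e4)) (c (p (nat_lit 0x519621c)) (c (p (nat_lit 0x1b9d50)) e))) (c (c (p (nat_lit
  0x58a8e2a)) (c (p (nat_lit 0x14812e)) e)) (c (c (m (nat_lit 0x58ddea0)) e) e))) (c (c (c (p (nat_lit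
  0xf7d30dc)) (c (m (nat_lit 0x48f07ce)) e)) (c (c (p (nat_lit 0x1e5bee4)) e) e)) (c (c (c (m (nat_lit
  0x33d8c00)) e) e) e))) (c (c (c (c (p (nat_lit 0x1e57810)) (c (m (nat_lit 0x246423c)) (c (m (nat_lit
  0xd788)) e))) (c (c (m (nat_lit 0x3025e42)) (c (m (nat_lit 0x1f5888)) e)) (c (c (p (nat_lit 0xcf9b9a)) e)
  e))) (c (c (c (m (nat_lit 0x48f07ce)) (c (p (nat_lit 0x705395a)) e)) (c (c (p (nat_lit 0x5f9460)) e) e)) (c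
  (c (c (p (nat_lit 0x27ca38)) e) e) e))) e)) (c (c (c (c (c (p (nat_lit 0x260514c)) (c (p (nat_lit
  0xa1ec6e)) (c (m (nat_lit 0x1408b96)) e))) (c (c (p (nat_lit 0x116859c)) (c (m (nat_lit 0x1bb824e)) e)) (c
  (c (m (nat_lit 0x23e916a)) e) e))) (c (c (c (p (nat_lit 0x1e5bee4)) (c (p (nat_lit 0x5f9460)) e)) (c (c (p
  (nat_lit 0x95fe2d2)) e) e)) (c (c (c (m (nat_lit 0x4031e80)) e) e) e))) e) e)) (c (c (c (c (c (c (m
  (nat_lit 0x2310a26)) (c (m (nat_lit 0x4505a0)) (c (m (nat_lit 0xb10a8)) e))) (c (c (p (nat_lit 0x27ec5bc))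
  (c (m (nat_lit 0xac5cea)) e)) (c (c (p (nat_lit 0x7055fa)) e) e))) (c (c (c (m (nat_lit 0x33d8c00)) (c (p
  (nat_lit 0x27ca38)) e)) (c (c (m (nat_lit 0x4031e80)) e) e)) (c (c (c (p (nat_lit 0x71f13de)) e) e) e))) e)
  e) e))) (c (c (c (c (c (c (c (p (nat_lit 0x695d4c2)) (c (m (nat_lit 0x23c6940)) (c (m (nat_lit 0x1575162))
  e))) (c (c (p (nat_lit 0x3adb86c)) (c (m (nat_lit 0x25f590)) e)) (c (c (p (nat_lit 0x6fdf620)) e) e))) (c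
  (c (c (m (nat_lit 0x9eeb4e0)) (c (p (nat_lit 0x1c3530)) e)) (c (c (m (nat_lit 0x523b1ce)) e) e)) (c (c (c
  (p (nat_lit 0x534e9c4)) e) e) e))) (c (c (c (c (m (nat_lit 0x23c6940)) (c (m (nat_lit 0x2ead95a)) (c (m
  (nat_lit 0x4a2e99c)) e))) (c (c (m (nat_lit 0x7144ad6)) (c (p (nat_lit 0x114c48c)) e)) (c (c (p (nat_lit
  0x9f1f7a)) e) e))) (c (c (c (m (nat_lit 0x605f07c)) (c (p (nat_lit 0x121fa94)) e)) (c (c (p (nat_lit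
  0xd14a62)) e) e)) (c (c (c (m (nat_lit 0x12fad2e)) e) e) e))) (c (c (c (c (m (nat_lit 0x1575162)) (c (m
  (nat_lit 0x4a2e99c)) e)) (c (c (p (nat_lit 0x29939be)) e) e)) (c (c (c (p (nat_lit 0x1efc9f0)) e) e) e))
  e))) (c (c (c (c (c (p (nat_lit 0x3adb86c)) (c (m (nat_lit 0x7144ad6)) (c (p (nat_lit 0x29939be)) e))) (c
  (c (p (nat_lit 0x4f6c68)) (c (p (nat_lit 0x1342a70)) e)) (c (c (m (nat_lit 0x2ec9920)) e) e))) (c (c (c (m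
  (nat_lit 0x20e7742)) (c (p (nat_lit 0x2051fd0)) e)) (c (c (p (nat_lit 0xac3500)) e) e)) (c (c (c (m
  (nat_lit 0x1233a92)) e) e) e))) (c (c (c (c (m (nat_lit 0x25f590)) (c (p (nat_lit 0x114c48c)) e)) (c (c (p
  (nat_lit 0x1342a70)) e) e)) (c (c (c (p (nat_lit 0xd57062)) e) e) e)) e)) (c (c (c (c (c (p (nat_lit
  0x6fdf620)) (c (p (nat_lit 0x9f1f7a)) e)) (c (c (m (nat_lit 0x2ec9920)) e) e)) (c (c (c (p (nat_lit
  0xe20f50)) e) e) e)) e) e))) (c (c (c (c (c (c (m (nat_lit 0x9eeb4e0)) (c (m (nat_lit 0x605f07c)) (c (p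
  (nat_lit 0x1efc9f0)) e))) (c (c (m (nat_lit 0x20e7742)) (c (p (nat_lit 0xd57062)) e)) (c (c (p (nat_lit
  0xe20f50)) e) e))) (c (c (c (m (nat_lit 0xc9e2e6)) (c (p (nat_lit 0x13f529a)) e)) (c (c (m (nat_lit
  0xb6c8b0)) e) e)) (c (c (c (p (nat_lit 0x219199e)) e) e) e))) (c (c (c (c (p (nat_lit 0x1c3530)) (c (p
  (nat_lit 0x121fa94)) e)) (c (c (p (nat_lit 0x2051fd0)) e) e)) (c (c (c (p (nat_lit 0x13f529a)) e) e) e))
  e)) (c (c (c (c (c (m (nat_lit 0x523b1ce)) (c (p (nat_lit 0xd14a62)) e)) (c (c (p (nat_lit 0xac3500)) e)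
  e)) (c (c (c (m (nat_lit 0xb6c8b0)) e) e) e)) e) e)) (c (c (c (c (c (c (p (nat_lit 0x534e9c4)) (c (m
  (nat_lit 0x12fad2e)) e)) (c (c (m (nat_lit 0x1233a92)) e) e)) (c (c (c (p (nat_lit 0x219199e)) e) e) e)) e)
  e) e))) (c (c (c (c (c (c (c (m (nat_lit 0x2912f2e)) (c (m (nat_lit 0x47d7e48)) (c (m (nat_lit 0x43aa8a))
  e))) (c (c (m (nat_lit 0xd450ddc)) (c (m (nat_lit 0x76de2)) e)) (c (c (m (nat_lit 0x54b5a4)) e) e))) (c (c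
  (c (p (nat_lit 0x792d38)) (c (p (nat_lit 0x156bf94)) e)) (c (c (p (nat_lit 0x346fcc8)) e) e)) (c (c (c (m
  (nat_lit 0x2289282)) e) e) e))) (c (c (c (c (m (nat_lit 0x47d7e48)) (c (p (nat_lit 0x87b762a)) e)) (c (c (p
  (nat_lit 0x145dece)) e) e)) (c (c (c (m (nat_lit 0xe528a)) e) e) e)) (c (c (c (c (m (nat_lit 0x43aa8a)) e)
  e) e) e))) (c (c (c (c (c (m (nat_lit 0xd450ddc)) (c (p (nat_lit 0x145dece)) e)) (c (c (p (nat_lit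
  0x52e113a)) e) e)) (c (c (c (p (nat_lit 0x7ce08a)) e) e) e)) (c (c (c (c (m (nat_lit 0x76de2)) e) e) e) e))
  (c (c (c (c (c (m (nat_lit 0x54b5a4)) e) e) e) e) e))) (c (c (c (c (c (c (p (nat_lit 0x792d38)) (c (m
  (nat_lit 0xe528a)) e)) (c (c (p (nat_lit 0x7ce08a)) e) e)) (c (c (c (p (nat_lit 0x68c50a4)) e) e) e)) (c (c
  (c (c (p (nat_lit 0x156bf94)) e) e) e) e)) (c (c (c (c (c (p (nat_lit 0x346fcc8)) e) e) e) e) e)) (c (c (c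
  (c (c (c (m (nat_lit 0x2289282)) e) e) e) e) e) e))) (c (c (c (c (c (c (c (p (nat_lit 0xd39329c)) (c (m
  (nat_lit 0x1e18846)) e)) (c (c (p (nat_lit 0x178bd32)) e) e)) (c (c (c (p (nat_lit 0x408946e)) e) e) e)) (c
  (c (c (c (m (nat_lit 0x1e18846)) e) e) e) e)) (c (c (c (c (c (p (nat_lit 0x178bd32)) e) e) e) e) e)) (c (c
  (c (c (c (c (p (nat_lit 0x408946e)) e) e) e) e) e) e)) (c (c (c (c (c (c (c (m (nat_lit 0x1666842)) e) e)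
  e) e) e) e) e))))) (c (c (c (c (c (c (c (c (p (nat_lit 0x2668133a)) (c (m (nat_lit 0xbdfc924)) (c (p
  (nat_lit 0x227f46c)) e))) (c (c (m (nat_lit 0x328fdb8)) (c (p (nat_lit 0xd5697e)) e)) (c (c (p (nat_lit
  0x24048c)) e) e))) (c (c (c (m (nat_lit 0x857aa9e)) (c (p (nat_lit 0x1c9b120)) e)) (c (c (m (nat_lit
  0x382a3ac)) e) e)) (c (c (c (p (nat_lit 0x21ea2f4)) e) e) e))) (c (c (c (c (m (nat_lit 0xbdfc924)) (c (p
  (nat_lit 0x442e46e)) (c (m (nat_lit 0x83a40e)) e))) (c (c (p (nat_lit 0xdd4d62)) (c (m (nat_lit 0x10c944))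
  e)) (c (c (m (nat_lit 0x114c090)) e) e))) (c (c (c (p (nat_lit 0xa18c6e)) (c (p (nat_lit 0xd5245a)) e)) (c
  (c (m (nat_lit 0x1915ec)) e) e)) (c (c (c (p (nat_lit 0x2dcc60)) e) e) e))) (c (c (c (c (p (nat_lit
  0x227f46c)) (c (m (nat_lit 0x83a40e)) e)) (c (c (p (nat_lit 0xfea99c)) e) e)) (c (c (c (p (nat_lit
  0x3b18a6)) e) e) e)) e))) (c (c (c (c (c (m (nat_lit 0x328fdb8)) (c (p (nat_lit 0xdd4d62)) (c (p (nat_lit
  0xfea99c)) e))) (c (c (p (nat_lit 0x12017e68)) (c (m (nat_lit 0xa18cda)) e)) (c (c (p (nat_lit 0x4cb558))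
  e) e))) (c (c (c (m (nat_lit 0x190d8e0)) (c (m (nat_lit 0x15d3518)) e)) (c (c (m (nat_lit 0x1dec4a)) e) e))
  (c (c (c (m (nat_lit 0x10c41cc)) e) e) e))) (c (c (c (c (p (nat_lit 0xd5697e)) (c (m (nat_lit 0x10c944))
  e)) (c (c (m (nat_lit 0xa18cda)) e) e)) (c (c (c (p (nat_lit 0x185e752)) e) e) e)) e)) (c (c (c (c (c (p
  (nat_lit 0x24048c)) (c (m (nat_lit 0x114c090)) e)) (c (c (p (nat_lit 0x4cb558)) e) e)) (c (c (c (p (nat_lit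
  0x1efb7cc)) e) e) e)) e) e))) (c (c (c (c (c (c (m (nat_lit 0x857aa9e)) (c (p (nat_lit 0xa18c6e)) (c (p
  (nat_lit 0x3b18a6)) e))) (c (c (m (nat_lit 0x190d8e0)) (c (p (nat_lit 0x185e752)) e)) (c (c (p (nat_lit
  0x1efb7cc)) e) e))) (c (c (c (p (nat_lit 0x384b160)) (c (p (nat_lit 0xfe118c)) e)) (c (c (p (nat_lit
  0x97c056)) e) e)) (c (c (c (m (nat_lit 0x575bf8)) e) e) e))) (c (c (c (c (p (nat_lit 0x1c9b120)) (c (p
  (nat_lit 0xd5245a)) e)) (c (c (m (nat_lit 0x15d3518)) e) e)) (c (c (c (p (nat_lit 0xfe118c)) e) e) e)) e))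
  (c (c (c (c (c (m (nat_lit 0x382a3ac)) (c (m (nat_lit 0x1915ec)) e)) (c (c (m (nat_lit 0x1dec4a)) e) e)) (c
  (c (c (p (nat_lit 0x97c056)) e) e) e)) e) e)) (c (c (c (c (c (c (p (nat_lit 0x21ea2f4)) (c (p (nat_lit
  0x2dcc60)) e)) (c (c (m (nat_lit 0x10c41cc)) e) e)) (c (c (c (m (nat_lit 0x575bf8)) e) e) e)) e) e) e))) (c
  (c (c (c (c (c (c (m (nat_lit 0x18448f8)) (c (p (nat_lit 0x5b82da2)) (c (m (nat_lit 0x8f1bb8)) e))) (c (c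
  (m (nat_lit 0x2d87da4)) (c (m (nat_lit 0xcda766)) e)) (c (c (m (nat_lit 0x14a9a86)) e) e))) (c (c (c (p
  (nat_lit 0x2e86270)) (c (m (nat_lit 0x1aae3e8)) e)) (c (c (p (nat_lit 0x1a03e50)) e) e)) (c (c (c (m
  (nat_lit 0x421bd2)) e) e) e))) (c (c (c (c (p (nat_lit 0x5b82da2)) (c (p (nat_lit 0x11d006c)) e)) (c (c (m
  (nat_lit 0x952fec)) e) e)) (c (c (c (m (nat_lit 0x1891c1a)) e) e) e)) (c (c (c (c (m (nat_lit 0x8f1bb8)) e)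
  e) e) e))) (c (c (c (c (c (m (nat_lit 0x2d87da4)) (c (m (nat_lit 0x952fec)) e)) (c (c (m (nat_lit
  0x613a8a4)) e) e)) (c (c (c (p (nat_lit 0x275ee6)) e) e) e)) (c (c (c (c (m (nat_lit 0xcda766)) e) e) e)
  e)) (c (c (c (c (c (m (nat_lit 0x14a9a86)) e) e) e) e) e))) (c (c (c (c (c (c (p (nat_lit 0x2e86270)) (c (m
  (nat_lit 0x1891c1a)) e)) (c (c (p (nat_lit 0x275ee6)) e) e)) (c (c (c (p (nat_lit 0x15f33fc)) e) e) e)) (c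
  (c (c (c (m (nat_lit 0x1aae3e8)) e) e) e) e)) (c (c (c (c (c (p (nat_lit 0x1a03e50)) e) e) e) e) e)) (c (c
  (c (c (c (c (m (nat_lit 0x421bd2)) e) e) e) e) e) e))) (c (c (c (c (c (c (c (p (nat_lit 0x94d1b2e)) (c (m
  (nat_lit 0x29088c6)) e)) (c (c (m (nat_lit 0x3006a7a)) e) e)) (c (c (c (m (nat_lit 0x59b224)) e) e) e)) (c
  (c (c (c (m (nat_lit 0x29088c6)) e) e) e) e)) (c (c (c (c (c (m (nat_lit 0x3006a7a)) e) e) e) e) e)) (c (c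
  (c (c (c (c (m (nat_lit 0x59b224)) e) e) e) e) e) e)) (c (c (c (c (c (c (c (m (nat_lit 0x76158de)) e) e) e)
  e) e) e) e)))) (c (c (c (c (c (c (c (c (m (nat_lit 0xfedd686)) (c (p (nat_lit 0x4b96012)) (c (m (nat_lit
  0x2d9cf00)) e))) (c (c (p (nat_lit 0x2d4cdc4)) (c (p (nat_lit 0x70cc86)) e)) (c (c (p (nat_lit 0xa951da))
  e) e))) (c (c (c (p (nat_lit 0x3d552b0)) (c (p (nat_lit 0x15f3d8)) e)) (c (c (p (nat_lit 0xbd4d70)) e) e))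
  (c (c (c (p (nat_lit 0xd09a82)) e) e) e))) (c (c (c (c (p (nat_lit 0x4b96012)) (c (p (nat_lit 0x4e1ef6))
  e)) (c (c (p (nat_lit 0x1274808)) e) e)) (c (c (c (m (nat_lit 0x14ed1d8)) e) e) e)) (c (c (c (c (m (nat_lit
  0x2d9cf00)) e) e) e) e))) (c (c (c (c (c (p (nat_lit 0x2d4cdc4)) (c (p (nat_lit 0x1274808)) e)) (c (c (m
  (nat_lit 0x3914370)) e) e)) (c (c (c (m (nat_lit 0x880266)) e) e) e)) (c (c (c (c (p (nat_lit 0x70cc86)) e)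
  e) e) e)) (c (c (c (c (c (p (nat_lit 0xa951da)) e) e) e) e) e))) (c (c (c (c (c (c (p (nat_lit 0x3d552b0))
  (c (m (nat_lit 0x14ed1d8)) e)) (c (c (m (nat_lit 0x880266)) e) e)) (c (c (c (m (nat_lit 0x301a442)) e) e)
  e)) (c (c (c (c (p (nat_lit 0x15f3d8)) e) e) e) e)) (c (c (c (c (c (p (nat_lit 0xbd4d70)) e) e) e) e) e))
  (c (c (c (c (c (c (p (nat_lit 0xd09a82)) e) e) e) e) e) e))) (c (c (c (c (c (c (c (m (nat_lit 0x8ff8f1a))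
  (c (m (nat_lit 0x148001a)) e)) (c (c (p (nat_lit 0x4747cf8)) e) e)) (c (c (c (p (nat_lit 0x1783e0)) e) e)
  e)) (c (c (c (c (m (nat_lit 0x148001a)) e) e) e) e)) (c (c (c (c (c (p (nat_lit 0x4747cf8)) e) e) e) e) e))
  (c (c (c (c (c (c (p (nat_lit 0x1783e0)) e) e) e) e) e) e)) (c (c (c (c (c (c (c (p (nat_lit 0x24cf07e)) e)
  e) e) e) e) e) e))) (c (c (c (c (c (c (c (c (p (nat_lit 0xb0baa00)) (c (p (nat_lit 0x6423fc)) e)) (c (c (m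
  (nat_lit 0x58e6b70)) e) e)) (c (c (c (m (nat_lit 0x1da0588)) e) e) e)) (c (c (c (c (p (nat_lit 0x6423fc))
  e) e) e) e)) (c (c (c (c (c (m (nat_lit 0x58e6b70)) e) e) e) e) e)) (c (c (c (c (c (c (m (nat_lit
  0x1da0588)) e) e) e) e) e) e)) (c (c (c (c (c (c (c (m (nat_lit 0x9330d2)) e) e) e) e) e) e) e)) (c (c (c
  (c (c (c (c (c (m (nat_lit 0x59e38f0)) e) e) e) e) e) e) e) e))))) (c (c (c (c (c (c (c (c (c (m (nat_lit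
  0x5732b44)) (c (m (nat_lit 0x8c6f898)) (c (m (nat_lit 0x3fe22c)) e))) (c (c (m (nat_lit 0x68a39ba)) (c (p
  (nat_lit 0x4dcd900)) e)) (c (c (p (nat_lit 0x4875858)) e) e))) (c (c (c (m (nat_lit 0x51219f6)) (c (p
  (nat_lit 0x1867320)) e)) (c (c (m (nat_lit 0x660b8a4)) e) e)) (c (c (c (p (nat_lit 0x2939aae)) e) e) e)))
  (c (c (c (c (m (nat_lit 0x8c6f898)) (c (p (nat_lit 0xead6650)) (c (m (nat_lit 0x8c0ee0)) e))) (c (c (p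
  (nat_lit 0x641809e)) (c (m (nat_lit 0x469633e)) e)) (c (c (m (nat_lit 0x1552d58)) e) e))) (c (c (c (p
  (nat_lit 0x72e97c)) (c (m (nat_lit 0x3df00a4)) e)) (c (c (p (nat_lit 0x11c6c94)) e) e)) (c (c (c (m
  (nat_lit 0x14c6e2)) e) e) e))) (c (c (c (c (m (nat_lit 0x3fe22c)) (c (m (nat_lit 0x8c0ee0)) e)) (c (c (p
  (nat_lit 0x1e93fde)) e) e)) (c (c (c (m (nat_lit 0x3627834)) e) e) e)) e))) (c (c (c (c (c (m (nat_lit
  0x68a39ba)) (c (p (nat_lit 0x641809e)) (c (p (nat_lit 0x1e93fde)) e))) (c (c (m (nat_lit 0xcc72d8)) (c (p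
  (nat_lit 0x156c32a)) e)) (c (c (m (nat_lit 0x6578b2)) e) e))) (c (c (c (m (nat_lit 0x3171b9a)) (c (m
  (nat_lit 0x131e0fe)) e)) (c (c (m (nat_lit 0x1fe01c2)) e) e)) (c (c (c (p (nat_lit 0x4cebe2)) e) e) e))) (c
  (c (c (c (p (nat_lit 0x4dcd900)) (c (m (nat_lit 0x469633e)) e)) (c (c (p (nat_lit 0x156c32a)) e) e)) (c (c
  (c (p (nat_lit 0x43033e)) e) e) e)) e)) (c (c (c (c (c (p (nat_lit 0x4875858)) (c (m (nat_lit 0x1552d58))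
  e)) (c (c (m (nat_lit 0x6578b2)) e) e)) (c (c (c (p (nat_lit 0xee712a)) e) e) e)) e) e))) (c (c (c (c (c (c
  (m (nat_lit 0x51219f6)) (c (p (nat_lit 0x72e97c)) (c (m (nat_lit 0x3627834)) e))) (c (c (m (nat_lit
  0x3171b9a)) (c (p (nat_lit 0x43033e)) e)) (c (c (p (nat_lit 0xee712a)) e) e))) (c (c (c (m (nat_lit
  0x60b8df4)) (c (p (nat_lit 0x10fcd52)) e)) (c (c (m (nat_lit 0x3fae9c)) e) e)) (c (c (c (p (nat_lit
  0x3e3c34)) e) e) e))) (c (c (c (c (p (nat_lit 0x1867320)) (c (m (nat_lit 0x3df00a4)) e)) (c (c (m (nat_lit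
  0x131e0fe)) e) e)) (c (c (c (p (nat_lit 0x10fcd52)) e) e) e)) e)) (c (c (c (c (c (m (nat_lit 0x660b8a4)) (c
  (p (nat_lit 0x11c6c94)) e)) (c (c (m (nat_lit 0x1fe01c2)) e) e)) (c (c (c (m (nat_lit 0x3fae9c)) e) e) e))
  e) e)) (c (c (c (c (c (c (p (nat_lit 0x2939aae)) (c (m (nat_lit 0x14c6e2)) e)) (c (c (p (nat_lit 0x4cebe2))
  e) e)) (c (c (c (p (nat_lit 0x3e3c34)) e) e) e)) e) e) e))) (c (c (c (c (c (c (c (p (nat_lit 0x92a4884)) (c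
  (p (nat_lit 0x4426c50)) (c (m (nat_lit 0x539eaa)) e))) (c (c (m (nat_lit 0x5cafb10)) (c (p (nat_lit
  0x617910)) e)) (c (c (p (nat_lit 0x355728)) e) e))) (c (c (c (p (nat_lit 0x775f212)) (c (m (nat_lit
  0x2dff540)) e)) (c (c (m (nat_lit 0xd53300)) e) e)) (c (c (c (m (nat_lit 0xd886e8)) e) e) e))) (c (c (c (c
  (p (nat_lit 0x4426c50)) (c (m (nat_lit 0x1bcfeac)) e)) (c (c (m (nat_lit 0x2a23628)) e) e)) (c (c (c (m
  (nat_lit 0xa11e40)) e) e) e)) (c (c (c (c (m (nat_lit 0x539eaa)) e) e) e) e))) (c (c (c (c (c (m (nat_lit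
  0x5cafb10)) (c (m (nat_lit 0x2a23628)) e)) (c (c (p (nat_lit 0x13a8adc)) e) e)) (c (c (c (p (nat_lit
  0x1cdcad8)) e) e) e)) (c (c (c (c (p (nat_lit 0x617910)) e) e) e) e)) (c (c (c (c (c (p (nat_lit 0x355728))
  e) e) e) e) e))) (c (c (c (c (c (c (p (nat_lit 0x775f212)) (c (m (nat_lit 0xa11e40)) e)) (c (c (p (nat_lit
  0x1cdcad8)) e) e)) (c (c (c (m (nat_lit 0xc4188)) e) e) e)) (c (c (c (c (m (nat_lit 0x2dff540)) e) e) e)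
  e)) (c (c (c (c (c (m (nat_lit 0xd53300)) e) e) e) e) e)) (c (c (c (c (c (c (m (nat_lit 0xd886e8)) e) e) e)
  e) e) e))) (c (c (c (c (c (c (c (m (nat_lit 0x68a9a8)) (c (m (nat_lit 0x19d0cfa)) e)) (c (c (p (nat_lit
  0x13bf48c)) e) e)) (c (c (c (m (nat_lit 0x620ae1c)) e) e) e)) (c (c (c (c (m (nat_lit 0x19d0cfa)) e) e) e)
  e)) (c (c (c (c (c (p (nat_lit 0x13bf48c)) e) e) e) e) e)) (c (c (c (c (c (c (m (nat_lit 0x620ae1c)) e) e)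
  e) e) e) e)) (c (c (c (c (c (c (c (m (nat_lit 0x179b9bc)) e) e) e) e) e) e) e)))) (c (c (c (c (c (c (c (c
  (m (nat_lit 0x39d1d9c)) (c (p (nat_lit 0x42354de)) (c (m (nat_lit 0x9bc7ba)) e))) (c (c (m (nat_lit
  0x5593d58)) (c (m (nat_lit 0x18154f8)) e)) (c (c (m (nat_lit 0x184754a)) e) e))) (c (c (c (p (nat_lit
  0x501b784)) (c (m (nat_lit 0xff88e)) e)) (c (c (p (nat_lit 0x12002f4)) e) e)) (c (c (c (m (nat_lit
  0xec5faa)) e) e) e))) (c (c (c (c (p (nat_lit 0x42354de)) (c (m (nat_lit 0x28c67ac)) e)) (c (c (p (nat_lit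
  0x2d2388)) e) e)) (c (c (c (m (nat_lit 0x1f3d2b0)) e) e) e)) (c (c (c (c (m (nat_lit 0x9bc7ba)) e) e) e)
  e))) (c (c (c (c (c (m (nat_lit 0x5593d58)) (c (p (nat_lit 0x2d2388)) e)) (c (c (p (nat_lit 0xa62f0)) e)
  e)) (c (c (c (p (nat_lit 0x1b9a07a)) e) e) e)) (c (c (c (c (m (nat_lit 0x18154f8)) e) e) e) e)) (c (c (c (c
  (c (m (nat_lit 0x184754a)) e) e) e) e) e))) (c (c (c (c (c (c (p (nat_lit 0x501b784)) (c (m (nat_lit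
  0x1f3d2b0)) e)) (c (c (p (nat_lit 0x1b9a07a)) e) e)) (c (c (c (m (nat_lit 0x241cab8)) e) e) e)) (c (c (c (c
  (m (nat_lit 0xff88e)) e) e) e) e)) (c (c (c (c (c (p (nat_lit 0x12002f4)) e) e) e) e) e)) (c (c (c (c (c (c
  (m (nat_lit 0xec5faa)) e) e) e) e) e) e))) (c (c (c (c (c (c (c (p (nat_lit 0xa61130c)) (c (m (nat_lit
  0x1de6c26)) e)) (c (c (p (nat_lit 0x2f21c0a)) e) e)) (c (c (c (m (nat_lit 0x437d8e8)) e) e) e)) (c (c (c (c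
  (m (nat_lit 0x1de6c26)) e) e) e) e)) (c (c (c (c (c (p (nat_lit 0x2f21c0a)) e) e) e) e) e)) (c (c (c (c (c
  (c (m (nat_lit 0x437d8e8)) e) e) e) e) e) e)) (c (c (c (c (c (c (c (m (nat_lit 0xaa6808)) e) e) e) e) e) e)
  e))) (c (c (c (c (c (c (c (c (m (nat_lit 0x6ebe5f4)) (c (m (nat_lit 0x44c98e)) e)) (c (c (p (nat_lit
  0x34d87d0)) e) e)) (c (c (c (m (nat_lit 0x2d2f0dc)) e) e) e)) (c (c (c (c (m (nat_lit 0x44c98e)) e) e) e)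
  e)) (c (c (c (c (c (p (nat_lit 0x34d87d0)) e) e) e) e) e)) (c (c (c (c (c (c (m (nat_lit 0x2d2f0dc)) e) e)
  e) e) e) e)) (c (c (c (c (c (c (c (p (nat_lit 0x566880)) e) e) e) e) e) e) e)) (c (c (c (c (c (c (c (c (p
  (nat_lit 0x315c42c)) e) e) e) e) e) e) e) e)))) (c (c (c (c (c (c (c (c (c (p (nat_lit 0x1315bf0c)) (c (m
  (nat_lit 0xaa28072)) (c (p (nat_lit 0x26fe374)) e))) (c (c (p (nat_lit 0x2d367a4)) (c (m (nat_lit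
  0x590a84)) e)) (c (c (m (nat_lit 0x1890ad4)) e) e))) (c (c (c (p (nat_lit 0x33b1f06)) (c (p (nat_lit
  0x3a0ce6)) e)) (c (c (p (nat_lit 0x3b284a4)) e) e)) (c (c (c (m (nat_lit 0x229e3c0)) e) e) e))) (c (c (c (c
  (m (nat_lit 0xaa28072)) (c (p (nat_lit 0x1015f818)) e)) (c (c (p (nat_lit 0xdef018)) e) e)) (c (c (c (p
  (nat_lit 0x77e0b6)) e) e) e)) (c (c (c (c (p (nat_lit 0x26fe374)) e) e) e) e))) (c (c (c (c (c (p (nat_lit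
  0x2d367a4)) (c (p (nat_lit 0xdef018)) e)) (c (c (p (nat_lit 0x7540470)) e) e)) (c (c (c (m (nat_lit
  0x15b33fa)) e) e) e)) (c (c (c (c (m (nat_lit 0x590a84)) e) e) e) e)) (c (c (c (c (c (m (nat_lit
  0x1890ad4)) e) e) e) e) e))) (c (c (c (c (c (c (p (nat_lit 0x33b1f06)) (c (p (nat_lit 0x77e0b6)) e)) (c (c
  (m (nat_lit 0x15b33fa)) e) e)) (c (c (c (p (nat_lit 0x70913a6)) e) e) e)) (c (c (c (c (p (nat_lit
  0x3a0ce6)) e) e) e) e)) (c (c (c (c (c (p (nat_lit 0x3b284a4)) e) e) e) e) e)) (c (c (c (c (c (c (m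
  (nat_lit 0x229e3c0)) e) e) e) e) e) e))) (c (c (c (c (c (c (c (m (nat_lit 0xc14388)) (c (p (nat_lit
  0x71183a)) e)) (c (c (p (nat_lit 0x1307430)) e) e)) (c (c (c (m (nat_lit 0x93d6da)) e) e) e)) (c (c (c (c
  (p (nat_lit 0x71183a)) e) e) e) e)) (c (c (c (c (c (p (nat_lit 0x1307430)) e) e) e) e) e)) (c (c (c (c (c
  (c (m (nat_lit 0x93d6da)) e) e) e) e) e) e)) (c (c (c (c (c (c (c (p (nat_lit 0x2d10230)) e) e) e) e) e) e)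
  e))) (c (c (c (c (c (c (c (c (m (nat_lit 0x211b378)) (c (p (nat_lit 0x15d8a4a)) e)) (c (c (m (nat_lit
  0x1e620f4)) e) e)) (c (c (c (p (nat_lit 0x9b5296)) e) e) e)) (c (c (c (c (p (nat_lit 0x15d8a4a)) e) e) e)
  e)) (c (c (c (c (c (m (nat_lit 0x1e620f4)) e) e) e) e) e)) (c (c (c (c (c (c (p (nat_lit 0x9b5296)) e) e)
  e) e) e) e)) (c (c (c (c (c (c (c (m (nat_lit 0x33caa58)) e) e) e) e) e) e) e)) (c (c (c (c (c (c (c (c (p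
  (nat_lit 0xc8038e)) e) e) e) e) e) e) e) e))) (c (c (c (c (c (c (c (c (c (m (nat_lit 0xbd9ad94)) (c (m
  (nat_lit 0x14217f0)) e)) (c (c (m (nat_lit 0x1a30e38)) e) e)) (c (c (c (m (nat_lit 0x1bba162)) e) e) e)) (c
  (c (c (c (m (nat_lit 0x14217f0)) e) e) e) e)) (c (c (c (c (c (m (nat_lit 0x1a30e38)) e) e) e) e) e)) (c (c
  (c (c (c (c (m (nat_lit 0x1bba162)) e) e) e) e) e) e)) (c (c (c (c (c (c (c (m (nat_lit 0x575184)) e) e) e)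
  e) e) e) e)) (c (c (c (c (c (c (c (c (p (nat_lit 0x14a2f40)) e) e) e) e) e) e) e) e)) (c (c (c (c (c (c (c
  (c (c (p (nat_lit 0x610d550)) e) e) e) e) e) e) e) e) e)))))

noncomputable def gt_1_1_2 : Tr :=
  (c (c (c (c (c (c (c (c (c (m (nat_lit 0x11fd9de)) (c (m (nat_lit 0x2eb90a8)) (c (p (nat_lit 0x390e772))
  e))) (c (c (p (nat_lit 0x21cc228)) (c (p (nat_lit 0x9d8924)) e)) (c (c (m (nat_lit 0x216d314)) e) e))) (c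
  (c (c (m (nat_lit 0x13d7720)) (c (m (nat_lit 0x171a72e)) e)) (c (c (m (nat_lit 0xcef2c8)) e) e)) (c (c (c
  (p (nat_lit 0xeaa992)) e) e) e))) (c (c (c (c (p (nat_lit 0x21cc024)) (c (p (nat_lit 0x1582bba)) (c (m
  (nat_lit 0x139e72)) e))) (c (c (p (nat_lit 0x9395652)) (c (m (nat_lit 0xc12a3e)) e)) (c (c (m (nat_lit
  0x3639ccc)) e) e))) (c (c (c (p (nat_lit 0x520d94)) (c (m (nat_lit 0x345e376)) e)) (c (c (p (nat_lit
  0x8c4b9a)) e) e)) (c (c (c (p (nat_lit 0xec3838)) e) e) e))) (c (c (c (c (m (nat_lit 0x216d2de)) (c (p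
  (nat_lit 0x323eae8)) (c (m (nat_lit 0x6843d8)) e))) (c (c (m (nat_lit 0x3639ca2)) (c (m (nat_lit 0x5db2b6))
  e)) (c (c (p (nat_lit 0x64fae86)) e) e))) (c (c (c (m (nat_lit 0x956f1c)) (c (m (nat_lit 0x9261c)) e)) (c
  (c (m (nat_lit 0x652f08)) e) e)) (c (c (c (p (nat_lit 0x11c001c)) e) e) e))) e))) (c (c (c (c (c (m
  (nat_lit 0x2eb90de)) (c (p (nat_lit 0x6ae934e)) (c (m (nat_lit 0x10a26da)) e))) (c (c (p (nat_lit
  0x1582a04)) (c (m (nat_lit 0xfa1ade)) e)) (c (c (p (nat_lit 0x323ea8e)) e) e))) (c (c (c (m (nat_lit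
  0xa775e2)) (c (m (nat_lit 0x1cbf492)) e)) (c (c (m (nat_lit 0x15b92e0)) e) e)) (c (c (c (p (nat_lit
  0x205d32e)) e) e) e))) (c (c (c (c (p (nat_lit 0x9d8954)) (c (m (nat_lit 0xfa1af0)) (c (m (nat_lit
  0x183a33e)) e))) (c (c (m (nat_lit 0xc12954)) (c (m (nat_lit 0x9231ba)) e)) (c (c (m (nat_lit 0x5db2bc)) e)
  e))) (c (c (c (p (nat_lit 0x1f95cb4)) (c (p (nat_lit 0xf46b06)) e)) (c (c (p (nat_lit 0xe577e4)) e) e)) (c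
  (c (c (p (nat_lit 0x31a280)) e) e) e))) e)) (c (c (c (c (c (p (nat_lit 0x390e760)) (c (m (nat_lit
  0x10a25f6)) (c (m (nat_lit 0xc76164)) e))) (c (c (m (nat_lit 0x139c7a)) (c (m (nat_lit 0x183a3da)) e)) (c
  (c (m (nat_lit 0x684318)) e) e))) (c (c (c (m (nat_lit 0x354a194)) (c (p (nat_lit 0x28dd64e)) e)) (c (c (p
  (nat_lit 0x2a53cee)) e) e)) (c (c (c (m (nat_lit 0x2e12a94)) e) e) e))) e) e))) (c (c (c (c (c (c (m
  (nat_lit 0x13d7546)) (c (m (nat_lit 0xa774ec)) (c (m (nat_lit 0x354a158)) e))) (c (c (p (nat_lit 0x520aa0))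
  (c (p (nat_lit 0x1f95cc0)) e)) (c (c (m (nat_lit 0x956e0e)) e) e))) (c (c (c (p (nat_lit 0xfdc50)) (c (m
  (nat_lit 0x32d2004)) e)) (c (c (p (nat_lit 0x14103a2)) e) e)) (c (c (c (p (nat_lit 0x383581e)) e) e) e)))
  (c (c (c (c (m (nat_lit 0xcef298)) (c (m (nat_lit 0x15b9490)) (c (p (nat_lit 0x2a53d00)) e))) (c (c (p
  (nat_lit 0x8c4b7c)) (c (p (nat_lit 0xe57862)) e)) (c (c (m (nat_lit 0x652fc2)) e) e))) (c (c (c (p (nat_lit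
  0x1410324)) (c (p (nat_lit 0x621c0)) e)) (c (c (m (nat_lit 0xde8706)) e) e)) (c (c (c (m (nat_lit
  0x11e28e8)) e) e) e))) e)) (c (c (c (c (c (m (nat_lit 0x171a722)) (c (m (nat_lit 0x1cbf3e4)) (c (p (nat_lit
  0x28dd588)) e))) (c (c (m (nat_lit 0x345e3a6)) (c (p (nat_lit 0xf46b00)) e)) (c (c (m (nat_lit 0x92628)) e)
  e))) (c (c (c (m (nat_lit 0x32d1faa)) (c (m (nat_lit 0x2714fe8)) e)) (c (c (p (nat_lit 0x621fc)) e) e)) (c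
  (c (c (p (nat_lit 0xcbd6a2)) e) e) e))) e) e)) (c (c (c (c (c (c (p (nat_lit 0xeaaa10)) (c (p (nat_lit
  0x205d33a)) (c (m (nat_lit 0x2e12bde)) e))) (c (c (p (nat_lit 0xec3844)) (c (p (nat_lit 0x31a24a)) e)) (c
  (c (p (nat_lit 0x11bffda)) e) e))) (c (c (c (p (nat_lit 0x383571c)) (c (p (nat_lit 0xcbd6ea)) e)) (c (c (m
  (nat_lit 0x11e2810)) e) e)) (c (c (c (m (nat_lit 0x696c66)) e) e) e))) e) e) e))) (c (c (c (c (c (c (c (p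
  (nat_lit 0xdd835c6)) (c (p (nat_lit 0x4aa824a)) (c (m (nat_lit 0x10cfdb2)) e))) (c (c (p (nat_lit
  0x1de4316)) (c (m (nat_lit 0x1965f18)) e)) (c (c (p (nat_lit 0x2c8e90)) e) e))) (c (c (c (m (nat_lit
  0x93a12e)) (c (p (nat_lit 0x1649ec8)) e)) (c (c (m (nat_lit 0x15df58a)) e) e)) (c (c (c (m (nat_lit
  0x22ae1d0)) e) e) e))) (c (c (c (c (p (nat_lit 0x1de41cc)) (c (m (nat_lit 0x6d5b77e)) (c (p (nat_lit
  0x344087a)) e))) (c (c (p (nat_lit 0xc7b0d2)) (c (m (nat_lit 0x900cf6)) e)) (c (c (m (nat_lit 0xd75f44)) e)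
  e))) (c (c (c (m (nat_lit 0x178d0a6)) (c (p (nat_lit 0x15fa1ac)) e)) (c (c (p (nat_lit 0x668cc4)) e) e)) (c
  (c (c (m (nat_lit 0xad859c)) e) e) e))) (c (c (c (c (p (nat_lit 0x2c8d82)) (c (p (nat_lit 0x85771e)) e)) (c
  (c (m (nat_lit 0xd75e06)) e) e)) (c (c (c (p (nat_lit 0x24cb934)) e) e) e)) e))) (c (c (c (c (c (p (nat_lit
  0x4aa80d0)) (c (m (nat_lit 0x44e93e6)) (c (p (nat_lit 0x28b0774)) e))) (c (c (m (nat_lit 0x6d5b5e6)) (c (p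
  (nat_lit 0x32bfcec)) e)) (c (c (p (nat_lit 0x8577de)) e) e))) (c (c (c (m (nat_lit 0x57e5c2)) (c (m
  (nat_lit 0x274af58)) e)) (c (c (m (nat_lit 0x39450c)) e) e)) (c (c (c (p (nat_lit 0x20f598c)) e) e) e))) (c
  (c (c (c (m (nat_lit 0x1965dec)) (c (p (nat_lit 0x32bfd52)) e)) (c (c (m (nat_lit 0x900d6e)) e) e)) (c (c
  (c (p (nat_lit 0xa39c5c)) e) e) e)) e)) (c (c (c (c (c (m (nat_lit 0x10cfad0)) (c (p (nat_lit 0x28b08a6))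
  e)) (c (c (p (nat_lit 0x34406d6)) e) e)) (c (c (c (m (nat_lit 0x2696e8c)) e) e) e)) e) e))) (c (c (c (c (c
  (c (m (nat_lit 0x93a176)) (c (m (nat_lit 0x57e7c6)) (c (m (nat_lit 0x2696f58)) e))) (c (c (m (nat_lit
  0x178cf62)) (c (p (nat_lit 0xa39cd4)) e)) (c (c (p (nat_lit 0x24cb8c8)) e) e))) (c (c (c (p (nat_lit
  0x7688ff4)) (c (p (nat_lit 0xd2a97a)) e)) (c (c (m (nat_lit 0x18d3716)) e) e)) (c (c (c (p (nat_lit
  0xb82db0)) e) e) e))) (c (c (c (c (m (nat_lit 0x15df500)) (c (m (nat_lit 0x394440)) e)) (c (c (p (nat_lit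
  0x668ca6)) e) e)) (c (c (c (m (nat_lit 0x18d37b2)) e) e) e)) e)) (c (c (c (c (c (p (nat_lit 0x1649b74)) (c
  (m (nat_lit 0x274afa6)) e)) (c (c (p (nat_lit 0x15fa35c)) e) e)) (c (c (c (p (nat_lit 0xd2a974)) e) e) e))
  e) e)) (c (c (c (c (c (c (m (nat_lit 0x22ae1a0)) (c (p (nat_lit 0x20f59f2)) e)) (c (c (m (nat_lit
  0xad85a2)) e) e)) (c (c (c (p (nat_lit 0xb82da4)) e) e) e)) e) e) e))) (c (c (c (c (c (c (c (m (nat_lit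
  0x11b818cc)) (c (m (nat_lit 0x3987df2)) (c (m (nat_lit 0xd91e68)) e))) (c (c (m (nat_lit 0x46ba02c)) (c (p
  (nat_lit 0xce5074)) e)) (c (c (p (nat_lit 0x162aec)) e) e))) (c (c (c (m (nat_lit 0x70f221c)) (c (p
  (nat_lit 0x139c18e)) e)) (c (c (p (nat_lit 0x18fb550)) e) e)) (c (c (c (m (nat_lit 0x105107a)) e) e) e)))
  (c (c (c (c (m (nat_lit 0x46b9d14)) (c (p (nat_lit 0x1b25db8)) e)) (c (c (m (nat_lit 0x2d1f86)) e) e)) (c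
  (c (c (p (nat_lit 0xd8f3a8)) e) e) e)) (c (c (c (c (p (nat_lit 0x162c12)) e) e) e) e))) (c (c (c (c (c (m
  (nat_lit 0x3987d26)) (c (m (nat_lit 0xbe9164)) e)) (c (c (p (nat_lit 0x1b25e42)) e) e)) (c (c (c (p
  (nat_lit 0x31e92dc)) e) e) e)) (c (c (c (c (p (nat_lit 0xce4f0c)) e) e) e) e)) (c (c (c (c (c (m (nat_lit
  0xd921c2)) e) e) e) e) e))) (c (c (c (c (c (c (m (nat_lit 0x70f1f52)) (c (p (nat_lit 0x31e9492)) e)) (c (c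
  (p (nat_lit 0xd8f312)) e) e)) (c (c (c (m (nat_lit 0x16bc6f0)) e) e) e)) (c (c (c (c (p (nat_lit
  0x18fb4ea)) e) e) e) e)) (c (c (c (c (c (p (nat_lit 0x139c386)) e) e) e) e) e)) (c (c (c (c (c (c (m
  (nat_lit 0x10510a4)) e) e) e) e) e) e))) (c (c (c (c (c (c (c (p (nat_lit 0xc907d22)) (c (m (nat_lit
  0x1014de0)) e)) (c (c (p (nat_lit 0x95f7ae)) e) e)) (c (c (c (p (nat_lit 0x287d56a)) e) e) e)) (c (c (c (c
  (p (nat_lit 0x95f75a)) e) e) e) e)) (c (c (c (c (c (m (nat_lit 0x1014d32)) e) e) e) e) e)) (c (c (c (c (c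
  (c (p (nat_lit 0x287d32a)) e) e) e) e) e) e)) (c (c (c (c (c (c (c (m (nat_lit 0x22240a4)) e) e) e) e) e)
  e) e))))) (c (c (c (c (c (c (c (c (m (nat_lit 0x96ab258)) (c (p (nat_lit 0x78a9dfa)) (c (m (nat_lit
  0x51bfd0c)) e))) (c (c (p (nat_lit 0x101e6626)) (c (m (nat_lit 0xef2cce)) e)) (c (c (p (nat_lit 0x559a2e))
  e) e))) (c (c (c (m (nat_lit 0x17f0a36)) (c (p (nat_lit 0x455d90)) e)) (c (c (m (nat_lit 0x26b9cda)) e) e))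
  (c (c (c (m (nat_lit 0x16cf5b4)) e) e) e))) (c (c (c (c (m (nat_lit 0x17892a8)) (c (m (nat_lit 0x3e8fca4))
  (c (p (nat_lit 0xbec5c)) e))) (c (c (m (nat_lit 0x407dcf0)) (c (p (nat_lit 0xc966a2)) e)) (c (c (m (nat_lit
  0x139901a)) e) e))) (c (c (c (p (nat_lit 0x32ed388)) (c (p (nat_lit 0x1851408)) e)) (c (c (p (nat_lit
  0x1149684)) e) e)) (c (c (c (m (nat_lit 0x1138e1e)) e) e) e))) (c (c (c (c (p (nat_lit 0x8331d2)) (c (p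
  (nat_lit 0x1d6cbe)) e)) (c (c (p (nat_lit 0x121325a)) e) e)) (c (c (c (m (nat_lit 0x26a5112)) e) e) e))
  e))) (c (c (c (c (c (p (nat_lit 0x4c05e76)) (c (p (nat_lit 0x421a088)) (c (p (nat_lit 0x2512b6c)) e))) (c
  (c (m (nat_lit 0x23ac3c0)) (c (m (nat_lit 0x97be94)) e)) (c (c (p (nat_lit 0x9f3756)) e) e))) (c (c (c (m
  (nat_lit 0xa469c9a)) (c (p (nat_lit 0xe9ab46)) e)) (c (c (p (nat_lit 0x13b93cc)) e) e)) (c (c (c (p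
  (nat_lit 0x1070b7a)) e) e) e))) (c (c (c (c (m (nat_lit 0x1edddde)) (c (p (nat_lit 0xe9c3c4)) e)) (c (c (m
  (nat_lit 0x127a160)) e) e)) (c (c (c (p (nat_lit 0xf26448)) e) e) e)) e)) (c (c (c (c (c (m (nat_lit
  0x1c162e)) (c (m (nat_lit 0x19ef1e)) e)) (c (c (m (nat_lit 0xe48d2a)) e) e)) (c (c (c (p (nat_lit
  0xdb1b0c)) e) e) e)) e) e))) (c (c (c (c (c (c (p (nat_lit 0x6747d2c)) (c (p (nat_lit 0x4f4bbf6)) (c (p
  (nat_lit 0x1494252)) e))) (c (c (m (nat_lit 0xce54d06)) (c (m (nat_lit 0x91dc82)) e)) (c (c (p (nat_lit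
  0x35df32a)) e) e))) (c (c (c (m (nat_lit 0x25a6664)) (c (m (nat_lit 0x592044)) e)) (c (c (p (nat_lit
  0xb7f7ce)) e) e)) (c (c (c (m (nat_lit 0x20f50e)) e) e) e))) (c (c (c (c (p (nat_lit 0x854508)) (c (p
  (nat_lit 0xc79b5a)) e)) (c (c (p (nat_lit 0x1802202)) e) e)) (c (c (c (p (nat_lit 0x10b072)) e) e) e)) e))
  (c (c (c (c (c (p (nat_lit 0x3c8b752)) (c (p (nat_lit 0x1dba52c)) e)) (c (c (p (nat_lit 0x3f0b46)) e) e))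
  (c (c (c (p (nat_lit 0x1c338d2)) e) e) e)) e) e)) (c (c (c (c (c (c (m (nat_lit 0x20a3abc)) (c (m (nat_lit
  0x57c444)) e)) (c (c (p (nat_lit 0x287650e)) e) e)) (c (c (c (m (nat_lit 0x1ab22b2)) e) e) e)) e) e) e)))
  (c (c (c (c (c (c (c (p (nat_lit 0x6792132)) (c (m (nat_lit 0x3a9a6dc)) (c (p (nat_lit 0x3c467a)) e))) (c
  (c (m (nat_lit 0x20a7968)) (c (m (nat_lit 0x8c38b0)) e)) (c (c (m (nat_lit 0x169a826)) e) e))) (c (c (c (p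
  (nat_lit 0x2833e6c)) (c (m (nat_lit 0xa96d1c)) e)) (c (c (m (nat_lit 0xc2103c)) e) e)) (c (c (c (p (nat_lit
  0x170968e)) e) e) e))) (c (c (c (c (m (nat_lit 0x3b1b52)) (c (p (nat_lit 0x16ba5f6)) e)) (c (c (p (nat_lit
  0xb69460)) e) e)) (c (c (c (m (nat_lit 0x12ed384)) e) e) e)) (c (c (c (c (m (nat_lit 0xa018ec)) e) e) e)
  e))) (c (c (c (c (c (p (nat_lit 0x5d1d03a)) (c (m (nat_lit 0x16c9fe0)) e)) (c (c (m (nat_lit 0x1701096)) e)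
  e)) (c (c (c (p (nat_lit 0x5c40642)) e) e) e)) (c (c (c (c (m (nat_lit 0x1c6fd94)) e) e) e) e)) (c (c (c (c
  (c (p (nat_lit 0x20c44e)) e) e) e) e) e))) (c (c (c (c (c (c (m (nat_lit 0x5889534)) (c (p (nat_lit
  0x29a7e1e)) e)) (c (c (p (nat_lit 0x262643a)) e) e)) (c (c (c (m (nat_lit 0xa96d2e)) e) e) e)) (c (c (c (c
  (p (nat_lit 0x48ea00)) e) e) e) e)) (c (c (c (c (c (m (nat_lit 0x15325aa)) e) e) e) e) e)) (c (c (c (c (c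
  (c (p (nat_lit 0xbba2d4)) e) e) e) e) e) e))) (c (c (c (c (c (c (c (p (nat_lit 0x12a8a08)) (c (m (nat_lit
  0x21a7d2a)) e)) (c (c (p (nat_lit 0x11cbe60)) e) e)) (c (c (c (p (nat_lit 0x6f4104)) e) e) e)) (c (c (c (c
  (p (nat_lit 0x12207ba)) e) e) e) e)) (c (c (c (c (c (m (nat_lit 0x17799e4)) e) e) e) e) e)) (c (c (c (c (c
  (c (p (nat_lit 0x247f48e)) e) e) e) e) e) e)) (c (c (c (c (c (c (c (m (nat_lit 0x5fb8)) e) e) e) e) e) e)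
  e)))) (c (c (c (c (c (c (c (c (p (nat_lit 0x7328dfc)) (c (p (nat_lit 0x80e304a)) (c (p (nat_lit 0x347f3a))
  e))) (c (c (m (nat_lit 0xdde3e12)) (c (p (nat_lit 0x2d88da)) e)) (c (c (m (nat_lit 0x1bb5f56)) e) e))) (c
  (c (c (p (nat_lit 0x725c51a)) (c (p (nat_lit 0x928a6a)) e)) (c (c (p (nat_lit 0x16391a)) e) e)) (c (c (c (m
  (nat_lit 0x95b626)) e) e) e))) (c (c (c (c (m (nat_lit 0x6a5ab6)) (c (p (nat_lit 0x183a92)) e)) (c (c (p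
  (nat_lit 0x1019058)) e) e)) (c (c (c (m (nat_lit 0x119953e)) e) e) e)) (c (c (c (c (p (nat_lit 0x189a9d4))
  e) e) e) e))) (c (c (c (c (c (m (nat_lit 0x7725dec)) (c (m (nat_lit 0x7354e2a)) e)) (c (c (p (nat_lit
  0x1683f90)) e) e)) (c (c (c (p (nat_lit 0x50c1fc)) e) e) e)) (c (c (c (c (m (nat_lit 0x3ef898)) e) e) e)
  e)) (c (c (c (c (c (m (nat_lit 0x6d2f5a)) e) e) e) e) e))) (c (c (c (c (c (c (m (nat_lit 0x6814e90)) (c (m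
  (nat_lit 0x3d308f0)) e)) (c (c (p (nat_lit 0x5cbdd0c)) e) e)) (c (c (c (p (nat_lit 0x96d6f2)) e) e) e)) (c
  (c (c (c (m (nat_lit 0x12441e4)) e) e) e) e)) (c (c (c (c (c (m (nat_lit 0x150d692)) e) e) e) e) e)) (c (c
  (c (c (c (c (p (nat_lit 0x6ac854)) e) e) e) e) e) e))) (c (c (c (c (c (c (c (m (nat_lit 0x4adcc66)) (c (m
  (nat_lit 0x782478)) e)) (c (c (p (nat_lit 0x2b356c)) e) e)) (c (c (c (m (nat_lit 0x13ac89e)) e) e) e)) (c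
  (c (c (c (m (nat_lit 0x21a836)) e) e) e) e)) (c (c (c (c (c (m (nat_lit 0x2587284)) e) e) e) e) e)) (c (c
  (c (c (c (c (m (nat_lit 0x7da6a2)) e) e) e) e) e) e)) (c (c (c (c (c (c (c (m (nat_lit 0xf5a1a4)) e) e) e)
  e) e) e) e))) (c (c (c (c (c (c (c (c (m (nat_lit 0x74d1890)) (c (m (nat_lit 0x5f3053e)) e)) (c (c (p
  (nat_lit 0x611b566)) e) e)) (c (c (c (m (nat_lit 0x30abada)) e) e) e)) (c (c (c (c (m (nat_lit 0xa46f10))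
  e) e) e) e)) (c (c (c (c (c (p (nat_lit 0x900efee)) e) e) e) e) e)) (c (c (c (c (c (c (p (nat_lit
  0x2c5a9d0)) e) e) e) e) e) e)) (c (c (c (c (c (c (c (p (nat_lit 0x58c2ae)) e) e) e) e) e) e) e)) (c (c (c
  (c (c (c (c (c (p (nat_lit 0x471ba3c)) e) e) e) e) e) e) e) e))))) (c (c (c (c (c (c (c (c (c (m (nat_lit
  0x1485006)) (c (p (nat_lit 0x2e3092c)) (c (m (nat_lit 0x1c13fa)) e))) (c (c (m (nat_lit 0x341c118)) (c (m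
  (nat_lit 0x1eddd72)) e)) (c (c (p (nat_lit 0x833172)) e) e))) (c (c (c (p (nat_lit 0x3c89922)) (c (p
  (nat_lit 0x3c8b73a)) e)) (c (c (p (nat_lit 0x85444e)) e) e)) (c (c (c (m (nat_lit 0x20a3b64)) e) e) e))) (c
  (c (c (c (p (nat_lit 0x4e291d2)) (c (p (nat_lit 0x3ad9e26)) (c (m (nat_lit 0xe48e98)) e))) (c (c (m
  (nat_lit 0x18963ae)) (c (m (nat_lit 0x127a1ba)) e)) (c (c (p (nat_lit 0x12132ea)) e) e))) (c (c (c (m
  (nat_lit 0x8b664b8)) (c (p (nat_lit 0x3f0b2e)) e)) (c (c (p (nat_lit 0x1802310)) e) e)) (c (c (c (p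
  (nat_lit 0x28765d4)) e) e) e))) (c (c (c (c (p (nat_lit 0x559b12)) (c (p (nat_lit 0x9f36f0)) e)) (c (c (m
  (nat_lit 0x13990aa)) e) e)) (c (c (c (p (nat_lit 0x35df33c)) e) e) e)) e))) (c (c (c (c (c (p (nat_lit
  0x6903f42)) (c (m (nat_lit 0x431d08a)) (c (m (nat_lit 0x19ef78)) e))) (c (c (m (nat_lit 0x171a98c)) (c (p
  (nat_lit 0xe9c3c4)) e)) (c (c (p (nat_lit 0x1d6c94)) e) e))) (c (c (c (p (nat_lit 0x14bf2c6)) (c (p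
  (nat_lit 0x1dba4f0)) e)) (c (c (p (nat_lit 0xc79bb4)) e) e)) (c (c (c (m (nat_lit 0x57c444)) e) e) e))) (c
  (c (c (c (m (nat_lit 0xef2d7c)) (c (m (nat_lit 0x97be88)) e)) (c (c (p (nat_lit 0xc96696)) e) e)) (c (c (c
  (m (nat_lit 0x91dc16)) e) e) e)) e)) (c (c (c (c (c (m (nat_lit 0x51bfd2a)) (c (p (nat_lit 0x2512c08)) e))
  (c (c (p (nat_lit 0xbec62)) e) e)) (c (c (c (p (nat_lit 0x1494258)) e) e) e)) e) e))) (c (c (c (c (c (c (p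
  (nat_lit 0x9a947cc)) (c (m (nat_lit 0x7bc5a30)) (c (p (nat_lit 0xdb1a3a)) e))) (c (c (p (nat_lit 0xd89258))
  (c (p (nat_lit 0xf26472)) e)) (c (c (m (nat_lit 0x26a510c)) e) e))) (c (c (c (m (nat_lit 0x233ceec)) (c (p
  (nat_lit 0x1c33938)) e)) (c (c (p (nat_lit 0x10afee)) e) e)) (c (c (c (m (nat_lit 0x1ab2348)) e) e) e))) (c
  (c (c (c (m (nat_lit 0x26b9c56)) (c (p (nat_lit 0x13b93cc)) e)) (c (c (p (nat_lit 0x114969c)) e) e)) (c (c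
  (c (p (nat_lit 0xb7f7bc)) e) e) e)) e)) (c (c (c (c (c (p (nat_lit 0x455d06)) (c (p (nat_lit 0xe9aae0)) e))
  (c (c (p (nat_lit 0x185145c)) e) e)) (c (c (c (m (nat_lit 0x59203e)) e) e) e)) e) e)) (c (c (c (c (c (c (m
  (nat_lit 0x16cf530)) (c (p (nat_lit 0x1070b98)) e)) (c (c (m (nat_lit 0x1138df4)) e) e)) (c (c (c (m
  (nat_lit 0x20f57a)) e) e) e)) e) e) e))) (c (c (c (c (c (c (c (m (nat_lit 0x4930dd6)) (c (p (nat_lit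
  0x22825a4)) (c (p (nat_lit 0x20c4a2)) e))) (c (c (p (nat_lit 0x1a348be)) (c (m (nat_lit 0x1c6fe24)) e)) (c
  (c (m (nat_lit 0xa01802)) e) e))) (c (c (c (m (nat_lit 0x3773400)) (c (m (nat_lit 0x1532550)) e)) (c (c (p
  (nat_lit 0x48e9fa)) e) e)) (c (c (c (p (nat_lit 0xbba334)) e) e) e))) (c (c (c (c (m (nat_lit 0x5f052)) (c
  (m (nat_lit 0x2d9e646)) e)) (c (c (p (nat_lit 0x23ef20)) e) e)) (c (c (c (p (nat_lit 0x254ce8c)) e) e) e))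
  (c (c (c (c (m (nat_lit 0x169a886)) e) e) e) e))) (c (c (c (c (c (p (nat_lit 0x29771a)) (c (p (nat_lit
  0xa5918c)) e)) (c (c (p (nat_lit 0x3d703a)) e) e)) (c (c (c (p (nat_lit 0x211cf56)) e) e) e)) (c (c (c (c
  (m (nat_lit 0x8c3874)) e) e) e) e)) (c (c (c (c (c (p (nat_lit 0x3c479a)) e) e) e) e) e))) (c (c (c (c (c
  (c (m (nat_lit 0x21aa8da)) (c (p (nat_lit 0x1fa75b8)) e)) (c (c (m (nat_lit 0x206a30)) e) e)) (c (c (c (m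
  (nat_lit 0x21de90)) e) e) e)) (c (c (c (c (m (nat_lit 0xc21066)) e) e) e) e)) (c (c (c (c (c (m (nat_lit
  0xa96da0)) e) e) e) e) e)) (c (c (c (c (c (c (p (nat_lit 0x17096f4)) e) e) e) e) e) e))) (c (c (c (c (c (c
  (c (p (nat_lit 0x5cbf9bc)) (c (m (nat_lit 0x16de50)) e)) (c (c (p (nat_lit 0xc7c4dc)) e) e)) (c (c (c (p
  (nat_lit 0x1e6695a)) e) e) e)) (c (c (c (c (m (nat_lit 0x58db2c)) e) e) e) e)) (c (c (c (c (c (m (nat_lit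
  0x1dfba88)) e) e) e) e) e)) (c (c (c (c (c (c (m (nat_lit 0xb46f42)) e) e) e) e) e) e)) (c (c (c (c (c (c
  (c (m (nat_lit 0xf4854c)) e) e) e) e) e) e) e)))) (c (c (c (c (c (c (c (c (p (nat_lit 0x123b1c6)) (c (m
  (nat_lit 0x40c367a)) (c (p (nat_lit 0xdfd8d4)) e))) (c (c (p (nat_lit 0x77d2fdc)) (c (p (nat_lit 0x880ecc))
  e)) (c (c (m (nat_lit 0x32ac3b4)) e) e))) (c (c (c (p (nat_lit 0x3449a12)) (c (m (nat_lit 0xaaa34e)) e)) (c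
  (c (p (nat_lit 0x6dbd8)) e) e)) (c (c (c (p (nat_lit 0x50e57e)) e) e) e))) (c (c (c (c (p (nat_lit
  0x6ee3f7a)) (c (p (nat_lit 0x2e783e)) e)) (c (c (p (nat_lit 0x1437d74)) e) e)) (c (c (c (m (nat_lit
  0xcb381a)) e) e) e)) (c (c (c (c (m (nat_lit 0x32ac384)) e) e) e) e))) (c (c (c (c (c (m (nat_lit
  0x214d8c2)) (c (p (nat_lit 0x24486cc)) e)) (c (c (p (nat_lit 0x2e7766)) e) e)) (c (c (c (p (nat_lit
  0x5958d2)) e) e) e)) (c (c (c (c (p (nat_lit 0x880f14)) e) e) e) e)) (c (c (c (c (c (p (nat_lit 0xdfd934))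
  e) e) e) e) e))) (c (c (c (c (c (c (m (nat_lit 0x1e46f86)) (c (p (nat_lit 0x5958cc)) e)) (c (c (m (nat_lit
  0xcb38a4)) e) e)) (c (c (c (p (nat_lit 0x1c624aa)) e) e) e)) (c (c (c (c (p (nat_lit 0x6dbf6)) e) e) e) e))
  (c (c (c (c (c (m (nat_lit 0xaaa2d0)) e) e) e) e) e)) (c (c (c (c (c (c (p (nat_lit 0x50e5ba)) e) e) e) e)
  e) e))) (c (c (c (c (c (c (c (p (nat_lit 0x5aa08c6)) (c (m (nat_lit 0x51a0aa)) e)) (c (c (p (nat_lit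
  0x92b074)) e) e)) (c (c (c (m (nat_lit 0x23469cc)) e) e) e)) (c (c (c (c (p (nat_lit 0x4ad8a6)) e) e) e)
  e)) (c (c (c (c (c (m (nat_lit 0x2696322)) e) e) e) e) e)) (c (c (c (c (c (c (p (nat_lit 0x2e0b96)) e) e)
  e) e) e) e)) (c (c (c (c (c (c (c (m (nat_lit 0x2408d12)) e) e) e) e) e) e) e))) (c (c (c (c (c (c (c (c (m
  (nat_lit 0x9ae84de)) (c (m (nat_lit 0x1fd94)) e)) (c (c (m (nat_lit 0x2377a10)) e) e)) (c (c (c (m (nat_lit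
  0x1d726a)) e) e) e)) (c (c (c (c (p (nat_lit 0x1bdc44)) e) e) e) e)) (c (c (c (c (c (p (nat_lit 0x3c91044))
  e) e) e) e) e)) (c (c (c (c (c (c (p (nat_lit 0x289a79c)) e) e) e) e) e) e)) (c (c (c (c (c (c (c (p
  (nat_lit 0x29f8f50)) e) e) e) e) e) e) e)) (c (c (c (c (c (c (c (c (p (nat_lit 0x20b836)) e) e) e) e) e) e)
  e) e)))) (c (c (c (c (c (c (c (c (c (m (nat_lit 0x25e8526)) (c (p (nat_lit 0x1f166c4)) (c (m (nat_lit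
  0x6d2f4e)) e))) (c (c (m (nat_lit 0x6fd632)) (c (m (nat_lit 0x3ef87a)) e)) (c (c (p (nat_lit 0x189a9fe)) e)
  e))) (c (c (c (m (nat_lit 0x16d599e)) (c (m (nat_lit 0x150d69e)) e)) (c (c (m (nat_lit 0x12441f0)) e) e))
  (c (c (c (p (nat_lit 0x6ac89c)) e) e) e))) (c (c (c (c (m (nat_lit 0x19d712)) (c (m (nat_lit 0x3164ab4))
  e)) (c (c (m (nat_lit 0xea436e)) e) e)) (c (c (c (p (nat_lit 0x1aa8a7e)) e) e) e)) (c (c (c (c (m (nat_lit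
  0x1bb5f4a)) e) e) e) e))) (c (c (c (c (c (m (nat_lit 0x1bd0f98)) (c (m (nat_lit 0xf40eea)) e)) (c (c (m
  (nat_lit 0x130e288)) e) e)) (c (c (c (p (nat_lit 0x5e6d58)) e) e) e)) (c (c (c (c (p (nat_lit 0x2d8928)) e)
  e) e) e)) (c (c (c (c (c (p (nat_lit 0x347f58)) e) e) e) e) e))) (c (c (c (c (c (c (m (nat_lit 0x409cdc4))
  (c (p (nat_lit 0x1901160)) e)) (c (c (p (nat_lit 0x2e4292)) e) e)) (c (c (c (m (nat_lit 0x174e8e)) e) e)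
  e)) (c (c (c (c (p (nat_lit 0x1638f0)) e) e) e) e)) (c (c (c (c (c (p (nat_lit 0x928ad6)) e) e) e) e) e))
  (c (c (c (c (c (c (m (nat_lit 0x95b65c)) e) e) e) e) e) e))) (c (c (c (c (c (c (c (p (nat_lit 0x23b9eea))
  (c (p (nat_lit 0x10d8d6a)) e)) (c (c (m (nat_lit 0x126ef10)) e) e)) (c (c (c (m (nat_lit 0x21b3c70)) e) e)
  e)) (c (c (c (c (p (nat_lit 0x85e942)) e) e) e) e)) (c (c (c (c (c (m (nat_lit 0xffc30c)) e) e) e) e) e))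
  (c (c (c (c (c (c (p (nat_lit 0x72b06a)) e) e) e) e) e) e)) (c (c (c (c (c (c (c (m (nat_lit 0x1c11f66)) e)
  e) e) e) e) e) e))) (c (c (c (c (c (c (c (c (m (nat_lit 0x146ac90)) (c (p (nat_lit 0x176e71c)) e)) (c (c (p
  (nat_lit 0x96a608)) e) e)) (c (c (c (m (nat_lit 0x4f135e)) e) e) e)) (c (c (c (c (m (nat_lit 0xe5ebb8)) e)
  e) e) e)) (c (c (c (c (c (m (nat_lit 0x233c136)) e) e) e) e) e)) (c (c (c (c (c (c (m (nat_lit 0x2f97ea))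
  e) e) e) e) e) e)) (c (c (c (c (c (c (c (p (nat_lit 0x6c2e68)) e) e) e) e) e) e) e)) (c (c (c (c (c (c (c
  (c (p (nat_lit 0x2040e70)) e) e) e) e) e) e) e) e))) (c (c (c (c (c (c (c (c (c (p (nat_lit 0xd18d4)) (c (p
  (nat_lit 0x5d6e3a)) e)) (c (c (p (nat_lit 0xab5ed4)) e) e)) (c (c (c (p (nat_lit 0x4b5850)) e) e) e)) (c (c
  (c (c (p (nat_lit 0x29f7e9a)) e) e) e) e)) (c (c (c (c (c (p (nat_lit 0x14c576a)) e) e) e) e) e)) (c (c (c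
  (c (c (c (p (nat_lit 0x110a300)) e) e) e) e) e) e)) (c (c (c (c (c (c (c (p (nat_lit 0xc5099a)) e) e) e) e)
  e) e) e)) (c (c (c (c (c (c (c (c (m (nat_lit 0x579972)) e) e) e) e) e) e) e) e)) (c (c (c (c (c (c (c (c
  (c (m (nat_lit 0xa51374)) e) e) e) e) e) e) e) e) e)))))

noncomputable def gt_1_1_3 : Tr :=
  (c (c (c (c (c (c (c (c (c (m (nat_lit 0x11604)) (c (p (nat_lit 0x2932b3c)) (c (m (nat_lit 0x30c984c)) e)))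
  (c (c (m (nat_lit 0x4ba5c)) (c (m (nat_lit 0x8c7e4)) e)) (c (c (m (nat_lit 0x4d5848)) e) e))) (c (c (c (m
  (nat_lit 0x1792a7c)) (c (p (nat_lit 0xbfdbdc)) e)) (c (c (m (nat_lit 0x11f452e)) e) e)) (c (c (c (p
  (nat_lit 0x5a3744)) e) e) e))) (c (c (c (c (m (nat_lit 0x1bd9908)) (c (p (nat_lit 0x1ea8150)) (c (p
  (nat_lit 0x3346524)) e))) (c (c (p (nat_lit 0xe227860)) (c (p (nat_lit 0x3777a98)) e)) (c (c (m (nat_lit
  0xaeee65c)) e) e))) (c (c (c (p (nat_lit 0xe083e12)) (c (m (nat_lit 0x213b21a)) e)) (c (c (m (nat_lit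
  0x11de49c)) e) e)) (c (c (c (m (nat_lit 0x55d78be)) e) e) e))) (c (c (c (c (p (nat_lit 0x21e8f3e)) (c (m
  (nat_lit 0x50adb18)) (c (p (nat_lit 0x391200c)) e))) (c (c (m (nat_lit 0x7a428e0)) (c (p (nat_lit
  0x1562b8)) e)) (c (c (p (nat_lit 0x6b77788)) e) e))) (c (c (c (m (nat_lit 0x648db60)) (c (p (nat_lit
  0x23edf34)) e)) (c (c (p (nat_lit 0x2d762e4)) e) e)) (c (c (c (p (nat_lit 0xf8dd86)) e) e) e))) e))) (c (c
  (c (c (c (p (nat_lit 0x25791ae)) (c (m (nat_lit 0x615eb74)) (c (p (nat_lit 0x677355c)) e))) (c (c (p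
  (nat_lit 0x1593ffc)) (c (m (nat_lit 0x15a9b24)) e)) (c (c (p (nat_lit 0x33073d4)) e) e))) (c (c (c (p
  (nat_lit 0x92bcd76)) (c (p (nat_lit 0x1ab4b9e)) e)) (c (c (m (nat_lit 0xc59670)) e) e)) (c (c (c (m
  (nat_lit 0x3828774)) e) e) e))) (c (c (c (c (m (nat_lit 0x318fde6)) (c (p (nat_lit 0x4d3abb8)) (c (m
  (nat_lit 0x39ae2ac)) e))) (c (c (m (nat_lit 0xbce98)) (c (p (nat_lit 0x2c1c66)) e)) (c (c (m (nat_lit
  0xc03f9c)) e) e))) (c (c (c (p (nat_lit 0x163c686)) (c (m (nat_lit 0x1dae6e8)) e)) (c (c (m (nat_lit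
  0x3afdac)) e) e)) (c (c (c (m (nat_lit 0xdedadc)) e) e) e))) e)) (c (c (c (c (c (p (nat_lit 0x17a04aa)) (c
  (p (nat_lit 0x2adc164)) (c (m (nat_lit 0x2686608)) e))) (c (c (p (nat_lit 0xbe17c0)) (c (p (nat_lit
  0xd4d984)) e)) (c (c (p (nat_lit 0x1130b8)) e) e))) (c (c (c (m (nat_lit 0x76fb7ec)) (c (m (nat_lit
  0x227ed0a)) e)) (c (c (p (nat_lit 0x23fc7c6)) e) e)) (c (c (c (p (nat_lit 0x34625dc)) e) e) e))) e) e))) (c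
  (c (c (c (c (c (m (nat_lit 0x286808a)) (c (m (nat_lit 0x272640c)) (c (m (nat_lit 0x40a6f4)) e))) (c (c (p
  (nat_lit 0x12b76c0)) (c (p (nat_lit 0x255777c)) e)) (c (c (m (nat_lit 0x73bc90)) e) e))) (c (c (c (p
  (nat_lit 0xb753e20)) (c (m (nat_lit 0x3fde8d6)) e)) (c (c (p (nat_lit 0x89e6c8)) e) e)) (c (c (c (m
  (nat_lit 0x581c4f6)) e) e) e))) (c (c (c (c (m (nat_lit 0x56ac)) (c (p (nat_lit 0x16eb1b4)) (c (m (nat_lit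
  0xf3a530)) e))) (c (c (m (nat_lit 0x6ada18)) (c (m (nat_lit 0x5915d6)) e)) (c (c (p (nat_lit 0x1de62c)) e)
  e))) (c (c (c (m (nat_lit 0x49ff5b4)) (c (p (nat_lit 0x1f4235c)) e)) (c (c (p (nat_lit 0x3d5600)) e) e)) (c
  (c (c (p (nat_lit 0x21e708a)) e) e) e))) e)) (c (c (c (c (c (p (nat_lit 0x139fff2)) (c (m (nat_lit
  0x45559f8)) (c (p (nat_lit 0x26b9488)) e))) (c (c (p (nat_lit 0x1c67058)) (c (m (nat_lit 0x2ab863e)) e)) (c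
  (c (m (nat_lit 0x1c82acc)) e) e))) (c (c (c (m (nat_lit 0x1799df6)) (c (p (nat_lit 0x176abe8)) e)) (c (c (p
  (nat_lit 0xc92d42)) e) e)) (c (c (c (m (nat_lit 0x6db49e)) e) e) e))) e) e)) (c (c (c (c (c (c (m (nat_lit
  0x1c5d74c)) (c (p (nat_lit 0xc7746c)) (c (p (nat_lit 0x10db44c)) e))) (c (c (p (nat_lit 0x32f5770)) (c (p
  (nat_lit 0xea6468)) e)) (c (c (m (nat_lit 0xab6e94)) e) e))) (c (c (c (p (nat_lit 0x2a6e970)) (c (m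
  (nat_lit 0xc8a9ea)) e)) (c (c (m (nat_lit 0x22b82e6)) e) e)) (c (c (c (p (nat_lit 0x999a3e)) e) e) e))) e)
  e) e))) (c (c (c (c (c (c (c (m (nat_lit 0x3a7e1ee)) (c (p (nat_lit 0xefe097a)) (c (m (nat_lit 0x382e21c))
  e))) (c (c (p (nat_lit 0x77a2c9a)) (c (m (nat_lit 0x1fb427e)) e)) (c (c (m (nat_lit 0x26de178)) e) e))) (c
  (c (c (m (nat_lit 0xc530a90)) (c (p (nat_lit 0x35bd6a0)) e)) (c (c (p (nat_lit 0x1a0931c)) e) e)) (c (c (c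
  (p (nat_lit 0x49a09f4)) e) e) e))) (c (c (c (c (m (nat_lit 0x574a478)) (c (m (nat_lit 0x4fa5a58)) (c (m
  (nat_lit 0xf8fc4)) e))) (c (c (p (nat_lit 0x1265832)) (c (p (nat_lit 0x16dabc4)) e)) (c (c (p (nat_lit
  0x9923dc)) e) e))) (c (c (c (p (nat_lit 0x699aeb4)) (c (m (nat_lit 0x19e0afe)) e)) (c (c (m (nat_lit
  0x3444426)) e) e)) (c (c (c (m (nat_lit 0x33b46fc)) e) e) e))) (c (c (c (c (p (nat_lit 0x57f76c2)) (c (p
  (nat_lit 0x29a3666)) e)) (c (c (p (nat_lit 0x14acf96)) e) e)) (c (c (c (p (nat_lit 0x16d1b4)) e) e) e))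
  e))) (c (c (c (c (c (m (nat_lit 0x4c551f6)) (c (m (nat_lit 0x1b090de)) (c (m (nat_lit 0x8a75e4)) e))) (c (c
  (p (nat_lit 0x525a326)) (c (m (nat_lit 0x842c34)) e)) (c (c (m (nat_lit 0x58b1ec)) e) e))) (c (c (c (m
  (nat_lit 0x71bcab2)) (c (p (nat_lit 0xd16db4)) e)) (c (c (m (nat_lit 0x1bac3e)) e) e)) (c (c (c (p (nat_lit
  0x13a0ec8)) e) e) e))) (c (c (c (c (p (nat_lit 0x1fa5c50)) (c (p (nat_lit 0x87e814)) e)) (c (c (m (nat_lit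
  0x1aa1518)) e) e)) (c (c (c (p (nat_lit 0x26a4d2e)) e) e) e)) e)) (c (c (c (c (c (m (nat_lit 0x12f62a0)) (c
  (m (nat_lit 0x28a109c)) e)) (c (c (p (nat_lit 0x13b1e18)) e) e)) (c (c (c (m (nat_lit 0x2cfc100)) e) e) e))
  e) e))) (c (c (c (c (c (c (m (nat_lit 0x17f1582)) (c (m (nat_lit 0xf2c460)) (c (m (nat_lit 0x16a0f04)) e)))
  (c (c (m (nat_lit 0x7109dae)) (c (p (nat_lit 0x6a4c6a)) e)) (c (c (p (nat_lit 0x47be6c0)) e) e))) (c (c (c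
  (p (nat_lit 0x8c4a506)) (c (p (nat_lit 0x132c90)) e)) (c (c (m (nat_lit 0x456e2e)) e) e)) (c (c (c (m
  (nat_lit 0x13dab82)) e) e) e))) (c (c (c (c (m (nat_lit 0x26bd64c)) (c (p (nat_lit 0x11257a4)) e)) (c (c (m
  (nat_lit 0x13481a)) e) e)) (c (c (c (m (nat_lit 0x291ac2)) e) e) e)) e)) (c (c (c (c (c (m (nat_lit
  0x1b77be0)) (c (p (nat_lit 0x22186ce)) e)) (c (c (p (nat_lit 0x8d7512)) e) e)) (c (c (c (p (nat_lit
  0xaa1aec)) e) e) e)) e) e)) (c (c (c (c (c (c (m (nat_lit 0x5f029e)) (c (m (nat_lit 0x3334e00)) e)) (c (c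
  (p (nat_lit 0xee5378)) e) e)) (c (c (c (p (nat_lit 0x3364f2c)) e) e) e)) e) e) e))) (c (c (c (c (c (c (c (p
  (nat_lit 0x116249be)) (c (m (nat_lit 0xd07f076)) (c (p (nat_lit 0x114a3bc)) e))) (c (c (m (nat_lit
  0xfe1a038)) (c (p (nat_lit 0xff25ce)) e)) (c (c (p (nat_lit 0x555696c)) e) e))) (c (c (c (m (nat_lit
  0xb3367de)) (c (p (nat_lit 0x104baca)) e)) (c (c (p (nat_lit 0x20d6702)) e) e)) (c (c (c (p (nat_lit
  0x1c5d1a6)) e) e) e))) (c (c (c (c (m (nat_lit 0x5731086)) (c (p (nat_lit 0x5fe0ba2)) e)) (c (c (m (nat_lit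
  0xedc006)) e) e)) (c (c (c (p (nat_lit 0x17339fa)) e) e) e)) (c (c (c (c (m (nat_lit 0x60dfc44)) e) e) e)
  e))) (c (c (c (c (c (p (nat_lit 0x13b384c)) (c (p (nat_lit 0x5a382fe)) e)) (c (c (m (nat_lit 0x52745d6)) e)
  e)) (c (c (c (p (nat_lit 0x3956f64)) e) e) e)) (c (c (c (c (m (nat_lit 0x156a44)) e) e) e) e)) (c (c (c (c
  (c (p (nat_lit 0x2c3a2a6)) e) e) e) e) e))) (c (c (c (c (c (c (m (nat_lit 0x143cb32)) (c (p (nat_lit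
  0x457b1c8)) e)) (c (c (p (nat_lit 0xbb883a)) e) e)) (c (c (c (p (nat_lit 0x1a4a890)) e) e) e)) (c (c (c (c
  (p (nat_lit 0x37e6cf0)) e) e) e) e)) (c (c (c (c (c (p (nat_lit 0xe47494)) e) e) e) e) e)) (c (c (c (c (c
  (c (m (nat_lit 0x5e93aa)) e) e) e) e) e) e))) (c (c (c (c (c (c (c (m (nat_lit 0x975124e)) (c (m (nat_lit
  0x42d2582)) e)) (c (c (p (nat_lit 0x3057c90)) e) e)) (c (c (c (p (nat_lit 0x1ab8966)) e) e) e)) (c (c (c (c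
  (p (nat_lit 0x17a1e30)) e) e) e) e)) (c (c (c (c (c (m (nat_lit 0x2904af2)) e) e) e) e) e)) (c (c (c (c (c
  (c (m (nat_lit 0x18d8a9e)) e) e) e) e) e) e)) (c (c (c (c (c (c (c (p (nat_lit 0x7110d2c)) e) e) e) e) e)
  e) e))))) (c (c (c (c (c (c (c (c (m (nat_lit 0xa712d30)) (c (m (nat_lit 0xceb6032)) (c (m (nat_lit
  0x17f48b8)) e))) (c (c (p (nat_lit 0xd82d936)) (c (m (nat_lit 0x76132e)) e)) (c (c (p (nat_lit 0x1872b04))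
  e) e))) (c (c (c (m (nat_lit 0xcb8cc2)) (c (p (nat_lit 0x208643a)) e)) (c (c (p (nat_lit 0x3b7bac)) e) e))
  (c (c (c (p (nat_lit 0x1d634ae)) e) e) e))) (c (c (c (c (m (nat_lit 0x7bc879c)) (c (p (nat_lit 0xb2475a6))
  (c (m (nat_lit 0x99ee14)) e))) (c (c (p (nat_lit 0x24abd9e)) (c (m (nat_lit 0x257cd54)) e)) (c (c (m
  (nat_lit 0x25b2580)) e) e))) (c (c (c (p (nat_lit 0x1c9650c)) (c (m (nat_lit 0x1472f9a)) e)) (c (c (m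
  (nat_lit 0x25b7b0)) e) e)) (c (c (c (m (nat_lit 0x853bea)) e) e) e))) (c (c (c (c (m (nat_lit 0x1fb6c0)) (c
  (p (nat_lit 0x1a0dac2)) e)) (c (c (p (nat_lit 0x1518f9c)) e) e)) (c (c (c (p (nat_lit 0xae84fc)) e) e) e))
  e))) (c (c (c (c (c (p (nat_lit 0x1b35b2)) (c (m (nat_lit 0x9402750)) (c (m (nat_lit 0x174f738)) e))) (c (c
  (m (nat_lit 0x80d6d0e)) (c (p (nat_lit 0x217c746)) e)) (c (c (m (nat_lit 0x191e674)) e) e))) (c (c (c (m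
  (nat_lit 0xe45baca)) (c (p (nat_lit 0x9026d0)) e)) (c (c (p (nat_lit 0x84a80)) e) e)) (c (c (c (p (nat_lit
  0x1ef69ea)) e) e) e))) (c (c (c (c (p (nat_lit 0x69969c)) (c (m (nat_lit 0x264341a)) e)) (c (c (p (nat_lit
  0x365106)) e) e)) (c (c (c (p (nat_lit 0x1469ab4)) e) e) e)) e)) (c (c (c (c (c (m (nat_lit 0xb14458)) (c
  (m (nat_lit 0x4eba8f4)) e)) (c (c (p (nat_lit 0x1b96690)) e) e)) (c (c (c (p (nat_lit 0x576edc)) e) e) e))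
  e) e))) (c (c (c (c (c (c (p (nat_lit 0x2837c9a)) (c (p (nat_lit 0x77348be)) (c (p (nat_lit 0x21d73dc))
  e))) (c (c (m (nat_lit 0x5d9a3f2)) (c (m (nat_lit 0xf3a50)) e)) (c (c (m (nat_lit 0x68ca84)) e) e))) (c (c
  (c (m (nat_lit 0x376914c)) (c (m (nat_lit 0x57ca92)) e)) (c (c (p (nat_lit 0x64c83c)) e) e)) (c (c (c (p
  (nat_lit 0xfa5d9e)) e) e) e))) (c (c (c (c (p (nat_lit 0x49d1c0)) (c (m (nat_lit 0x1dd5c28)) e)) (c (c (m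
  (nat_lit 0xb45c82)) e) e)) (c (c (c (p (nat_lit 0x1182276)) e) e) e)) e)) (c (c (c (c (c (m (nat_lit
  0x51a50)) (c (p (nat_lit 0x2614554)) e)) (c (c (p (nat_lit 0xbb31be)) e) e)) (c (c (c (p (nat_lit
  0x7548ae)) e) e) e)) e) e)) (c (c (c (c (c (c (m (nat_lit 0x37f45a4)) (c (m (nat_lit 0xc78a9e)) e)) (c (c
  (m (nat_lit 0xbac66)) e) e)) (c (c (c (m (nat_lit 0x3d31ca)) e) e) e)) e) e) e))) (c (c (c (c (c (c (c (p
  (nat_lit 0x159ca6c8)) (c (p (nat_lit 0xa62c366)) (c (m (nat_lit 0x5a6b70)) e))) (c (c (p (nat_lit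
  0x648a2ae)) (c (m (nat_lit 0x10320cc)) e)) (c (c (m (nat_lit 0x14a0aec)) e) e))) (c (c (c (p (nat_lit
  0x1158ab0)) (c (m (nat_lit 0x2bc82a)) e)) (c (c (m (nat_lit 0x19e9348)) e) e)) (c (c (c (p (nat_lit
  0x8406f0)) e) e) e))) (c (c (c (c (m (nat_lit 0xa2d1d12)) (c (m (nat_lit 0x3589a40)) e)) (c (c (p (nat_lit
  0x22abaa)) e) e)) (c (c (c (p (nat_lit 0x3430692)) e) e) e)) (c (c (c (c (m (nat_lit 0x28dd0b4)) e) e) e)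
  e))) (c (c (c (c (c (p (nat_lit 0x7e10fb6)) (c (p (nat_lit 0x78d591e)) e)) (c (c (m (nat_lit 0x18e586)) e)
  e)) (c (c (c (p (nat_lit 0x1c4e608)) e) e) e)) (c (c (c (c (m (nat_lit 0x573300)) e) e) e) e)) (c (c (c (c
  (c (p (nat_lit 0x186a6e0)) e) e) e) e) e))) (c (c (c (c (c (c (m (nat_lit 0x64a9ab4)) (c (m (nat_lit
  0x117a79a)) e)) (c (c (p (nat_lit 0x101f346)) e) e)) (c (c (c (p (nat_lit 0xe0cf34)) e) e) e)) (c (c (c (c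
  (p (nat_lit 0x188800e)) e) e) e) e)) (c (c (c (c (c (m (nat_lit 0x12b4cc0)) e) e) e) e) e)) (c (c (c (c (c
  (c (p (nat_lit 0x11cfcac)) e) e) e) e) e) e))) (c (c (c (c (c (c (c (m (nat_lit 0x3a44b82)) (c (m (nat_lit
  0xd41f5a)) e)) (c (c (m (nat_lit 0xaf44ea)) e) e)) (c (c (c (p (nat_lit 0x2268582)) e) e) e)) (c (c (c (c
  (p (nat_lit 0x23a783c)) e) e) e) e)) (c (c (c (c (c (m (nat_lit 0x39e33ac)) e) e) e) e) e)) (c (c (c (c (c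
  (c (p (nat_lit 0x29bdd6)) e) e) e) e) e) e)) (c (c (c (c (c (c (c (m (nat_lit 0x1e86346)) e) e) e) e) e) e)
  e)))) (c (c (c (c (c (c (c (c (p (nat_lit 0xd68924)) (c (m (nat_lit 0x29f7432)) (c (m (nat_lit 0x8febfc))
  e))) (c (c (m (nat_lit 0x12c7348e)) (c (m (nat_lit 0x8eed44)) e)) (c (c (m (nat_lit 0x1699350)) e) e))) (c
  (c (c (p (nat_lit 0x61dfe9e)) (c (m (nat_lit 0x1e96a74)) e)) (c (c (m (nat_lit 0xeacada)) e) e)) (c (c (c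
  (m (nat_lit 0x2f7ed36)) e) e) e))) (c (c (c (c (p (nat_lit 0x286bf78)) (c (m (nat_lit 0xd45c4a)) e)) (c (c
  (p (nat_lit 0xd2ff5a)) e) e)) (c (c (c (m (nat_lit 0x14eaaea)) e) e) e)) (c (c (c (c (m (nat_lit 0x1cebf4))
  e) e) e) e))) (c (c (c (c (c (p (nat_lit 0x9207c8a)) (c (p (nat_lit 0x5ad8c78)) e)) (c (c (p (nat_lit
  0x5c061cc)) e) e)) (c (c (c (p (nat_lit 0x4f1a966)) e) e) e)) (c (c (c (c (p (nat_lit 0x1236624)) e) e) e)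
  e)) (c (c (c (c (c (p (nat_lit 0x1e61a28)) e) e) e) e) e))) (c (c (c (c (c (c (p (nat_lit 0x204c024)) (c (m
  (nat_lit 0x384a704)) e)) (c (c (p (nat_lit 0x591b69a)) e) e)) (c (c (c (m (nat_lit 0x77d24c)) e) e) e)) (c
  (c (c (c (p (nat_lit 0x1ac97c)) e) e) e) e)) (c (c (c (c (c (m (nat_lit 0x7af892)) e) e) e) e) e)) (c (c (c
  (c (c (c (p (nat_lit 0x26c3268)) e) e) e) e) e) e))) (c (c (c (c (c (c (c (m (nat_lit 0x20a6426)) (c (m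
  (nat_lit 0x3f82a40)) e)) (c (c (m (nat_lit 0x392abca)) e) e)) (c (c (c (m (nat_lit 0x32346)) e) e) e)) (c
  (c (c (c (p (nat_lit 0x243d64a)) e) e) e) e)) (c (c (c (c (c (m (nat_lit 0x59b6f86)) e) e) e) e) e)) (c (c
  (c (c (c (c (p (nat_lit 0xa3d04)) e) e) e) e) e) e)) (c (c (c (c (c (c (c (p (nat_lit 0x3062a6c)) e) e) e)
  e) e) e) e))) (c (c (c (c (c (c (c (c (p (nat_lit 0x37c6da0)) (c (p (nat_lit 0x4647db6)) e)) (c (c (p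
  (nat_lit 0x78e3f34)) e) e)) (c (c (c (m (nat_lit 0xd0c506)) e) e) e)) (c (c (c (c (p (nat_lit 0x39b5fe)) e)
  e) e) e)) (c (c (c (c (c (m (nat_lit 0x6914640)) e) e) e) e) e)) (c (c (c (c (c (c (m (nat_lit 0x18cac4a))
  e) e) e) e) e) e)) (c (c (c (c (c (c (c (m (nat_lit 0x4714080)) e) e) e) e) e) e) e)) (c (c (c (c (c (c (c
  (c (m (nat_lit 0x1329d74)) e) e) e) e) e) e) e) e))))) (c (c (c (c (c (c (c (c (c (m (nat_lit 0x1eb13c)) (c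
  (p (nat_lit 0x57684ba)) (c (m (nat_lit 0xf4d3f4)) e))) (c (c (m (nat_lit 0x309d272)) (c (p (nat_lit
  0xa30dd6)) e)) (c (c (m (nat_lit 0x144186c)) e) e))) (c (c (c (m (nat_lit 0x674b9e0)) (c (m (nat_lit
  0x1de710)) e)) (c (c (p (nat_lit 0x636fc6)) e) e)) (c (c (c (p (nat_lit 0x3acf6b0)) e) e) e))) (c (c (c (c
  (m (nat_lit 0x1d282e8)) (c (m (nat_lit 0x2b2b71e)) (c (p (nat_lit 0x2c4b934)) e))) (c (c (m (nat_lit
  0x1887468)) (c (m (nat_lit 0x240e610)) e)) (c (c (p (nat_lit 0x24cdbcc)) e) e))) (c (c (c (p (nat_lit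
  0x192f1d4)) (c (p (nat_lit 0x10f07a6)) e)) (c (c (p (nat_lit 0x1041f5a)) e) e)) (c (c (c (m (nat_lit
  0x32edc4)) e) e) e))) (c (c (c (c (m (nat_lit 0x2b51f2)) (c (m (nat_lit 0x4bf264)) e)) (c (c (m (nat_lit
  0x2271552)) e) e)) (c (c (c (p (nat_lit 0xa08576)) e) e) e)) e))) (c (c (c (c (c (m (nat_lit 0x93e238c)) (c
  (m (nat_lit 0x2049d6e)) (c (m (nat_lit 0x22d1768)) e))) (c (c (p (nat_lit 0x1628a0c)) (c (p (nat_lit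
  0x103a37c)) e)) (c (c (m (nat_lit 0x10d0c40)) e) e))) (c (c (c (p (nat_lit 0x60ae7c8)) (c (m (nat_lit
  0x1997cbe)) e)) (c (c (m (nat_lit 0x1c87bf6)) e) e)) (c (c (c (m (nat_lit 0x3a2dbae)) e) e) e))) (c (c (c
  (c (p (nat_lit 0x225d6ce)) (c (m (nat_lit 0xa0f0a4)) e)) (c (c (p (nat_lit 0xe7003c)) e) e)) (c (c (c (m
  (nat_lit 0x143b3ce)) e) e) e)) e)) (c (c (c (c (c (p (nat_lit 0x18e62c8)) (c (p (nat_lit 0x4ad24ae)) e)) (c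
  (c (m (nat_lit 0x1729d6a)) e) e)) (c (c (c (p (nat_lit 0xdf996e)) e) e) e)) e) e))) (c (c (c (c (c (c (m
  (nat_lit 0x293c9ac)) (c (m (nat_lit 0x4c26a92)) (c (m (nat_lit 0x23533bc)) e))) (c (c (p (nat_lit
  0x227c316)) (c (m (nat_lit 0x1be4090)) e)) (c (c (m (nat_lit 0x2cb00f8)) e) e))) (c (c (c (m (nat_lit
  0x2184f24)) (c (p (nat_lit 0xb275a4)) e)) (c (c (m (nat_lit 0x13374d2)) e) e)) (c (c (c (p (nat_lit
  0xab687c)) e) e) e))) (c (c (c (c (p (nat_lit 0x18e8ec0)) (c (p (nat_lit 0x2006e98)) e)) (c (c (m (nat_lit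
  0x4b38e8)) e) e)) (c (c (c (m (nat_lit 0x4efcd8)) e) e) e)) e)) (c (c (c (c (c (p (nat_lit 0x60a044)) (c (m
  (nat_lit 0xc32d6c)) e)) (c (c (m (nat_lit 0x2bd09a)) e) e)) (c (c (c (m (nat_lit 0x1105674)) e) e) e)) e)
  e)) (c (c (c (c (c (c (m (nat_lit 0x2163a0e)) (c (p (nat_lit 0xd7331c)) e)) (c (c (p (nat_lit 0x496c4a)) e)
  e)) (c (c (c (p (nat_lit 0xfa7d96)) e) e) e)) e) e) e))) (c (c (c (c (c (c (c (m (nat_lit 0xbbc2de)) (c (p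
  (nat_lit 0xc54b0a)) (c (p (nat_lit 0x1198d64)) e))) (c (c (m (nat_lit 0x12c279c)) (c (m (nat_lit 0x7b5fac))
  e)) (c (c (m (nat_lit 0x31ad7bc)) e) e))) (c (c (c (p (nat_lit 0x25488e4)) (c (m (nat_lit 0x2500d88)) e))
  (c (c (p (nat_lit 0x5dd5ba)) e) e)) (c (c (c (p (nat_lit 0x11a73b0)) e) e) e))) (c (c (c (c (m (nat_lit
  0xb0ff70)) (c (m (nat_lit 0x1b644c4)) e)) (c (c (p (nat_lit 0x3074874)) e) e)) (c (c (c (m (nat_lit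
  0x2d89a60)) e) e) e)) (c (c (c (c (m (nat_lit 0x15e898)) e) e) e) e))) (c (c (c (c (c (p (nat_lit
  0x2b28d48)) (c (p (nat_lit 0x6c2964)) e)) (c (c (p (nat_lit 0x1c7a43e)) e) e)) (c (c (c (p (nat_lit
  0x4a84eb0)) e) e) e)) (c (c (c (c (m (nat_lit 0x18c5c52)) e) e) e) e)) (c (c (c (c (c (m (nat_lit
  0x13a8440)) e) e) e) e) e))) (c (c (c (c (c (c (p (nat_lit 0x2cdec58)) (c (p (nat_lit 0x2b1c20e)) e)) (c (c
  (p (nat_lit 0x15d83d2)) e) e)) (c (c (c (p (nat_lit 0x87e520)) e) e) e)) (c (c (c (c (m (nat_lit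
  0x3cd285e)) e) e) e) e)) (c (c (c (c (c (m (nat_lit 0x54e472)) e) e) e) e) e)) (c (c (c (c (c (c (p
  (nat_lit 0xc35448)) e) e) e) e) e) e))) (c (c (c (c (c (c (c (p (nat_lit 0x6ce2638)) (c (m (nat_lit
  0x22be2e6)) e)) (c (c (p (nat_lit 0x16cc86c)) e) e)) (c (c (c (m (nat_lit 0x2695c20)) e) e) e)) (c (c (c (c
  (p (nat_lit 0x9a3cec)) e) e) e) e)) (c (c (c (c (c (p (nat_lit 0x1a3b28a)) e) e) e) e) e)) (c (c (c (c (c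
  (c (m (nat_lit 0x1ba8bf4)) e) e) e) e) e) e)) (c (c (c (c (c (c (c (m (nat_lit 0x351eb6e)) e) e) e) e) e)
  e) e)))) (c (c (c (c (c (c (c (c (p (nat_lit 0x114b5d28)) (c (p (nat_lit 0x5d91d28)) (c (m (nat_lit
  0x142c0c8)) e))) (c (c (p (nat_lit 0x46b381c)) (c (p (nat_lit 0x74f33a)) e)) (c (c (p (nat_lit 0x229f944))
  e) e))) (c (c (c (p (nat_lit 0x1ce96ea)) (c (p (nat_lit 0x150163e)) e)) (c (c (p (nat_lit 0x43488c)) e) e))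
  (c (c (c (p (nat_lit 0x867300)) e) e) e))) (c (c (c (c (p (nat_lit 0x414258c)) (c (m (nat_lit 0xdf8b8e))
  e)) (c (c (m (nat_lit 0x19eb424)) e) e)) (c (c (c (m (nat_lit 0x1f72a94)) e) e) e)) (c (c (c (c (m (nat_lit
  0xb98824)) e) e) e) e))) (c (c (c (c (c (m (nat_lit 0x1ee370)) (c (p (nat_lit 0x2fe59ea)) e)) (c (c (m
  (nat_lit 0x1d98128)) e) e)) (c (c (c (p (nat_lit 0x1b3611a)) e) e) e)) (c (c (c (c (m (nat_lit 0x1742898))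
  e) e) e) e)) (c (c (c (c (c (p (nat_lit 0x104342a)) e) e) e) e) e))) (c (c (c (c (c (c (p (nat_lit
  0x1362fb4)) (c (p (nat_lit 0x64fd76)) e)) (c (c (m (nat_lit 0x6ede9a)) e) e)) (c (c (c (p (nat_lit
  0xe58954)) e) e) e)) (c (c (c (c (p (nat_lit 0x9f5b50)) e) e) e) e)) (c (c (c (c (c (p (nat_lit 0x7cfc74))
  e) e) e) e) e)) (c (c (c (c (c (c (m (nat_lit 0x3820f8)) e) e) e) e) e) e))) (c (c (c (c (c (c (c (m
  (nat_lit 0x6dceca2)) (c (m (nat_lit 0x3afc70a)) e)) (c (c (p (nat_lit 0xa6ef6)) e) e)) (c (c (c (m (nat_lit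
  0x3b051d6)) e) e) e)) (c (c (c (c (p (nat_lit 0x2d0052e)) e) e) e) e)) (c (c (c (c (c (m (nat_lit
  0x1721f6a)) e) e) e) e) e)) (c (c (c (c (c (c (m (nat_lit 0x151805a)) e) e) e) e) e) e)) (c (c (c (c (c (c
  (c (p (nat_lit 0x1c3fe78)) e) e) e) e) e) e) e))) (c (c (c (c (c (c (c (c (m (nat_lit 0xe8d1bdc)) (c (m
  (nat_lit 0x316d526)) e)) (c (c (m (nat_lit 0x3776dc6)) e) e)) (c (c (c (m (nat_lit 0x16fcaa0)) e) e) e)) (c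
  (c (c (c (m (nat_lit 0xc5015a)) e) e) e) e)) (c (c (c (c (c (p (nat_lit 0x19ea3b6)) e) e) e) e) e)) (c (c
  (c (c (c (c (m (nat_lit 0x1b0a3fe)) e) e) e) e) e) e)) (c (c (c (c (c (c (c (p (nat_lit 0x23aa8ae)) e) e)
  e) e) e) e) e)) (c (c (c (c (c (c (c (c (p (nat_lit 0x2f427d2)) e) e) e) e) e) e) e) e)))) (c (c (c (c (c
  (c (c (c (c (p (nat_lit 0x926757c)) (c (m (nat_lit 0x5100be8)) (c (p (nat_lit 0x10e036c)) e))) (c (c (m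
  (nat_lit 0x47bcaca)) (c (m (nat_lit 0xc97cc8)) e)) (c (c (p (nat_lit 0x462408c)) e) e))) (c (c (c (m
  (nat_lit 0x169b1c2)) (c (p (nat_lit 0x7a439c)) e)) (c (c (p (nat_lit 0xfa80b4)) e) e)) (c (c (c (m (nat_lit
  0x426294)) e) e) e))) (c (c (c (c (m (nat_lit 0x6dc8c1e)) (c (p (nat_lit 0x403c5ae)) e)) (c (c (p (nat_lit
  0x1cdca06)) e) e)) (c (c (c (p (nat_lit 0x2401c8)) e) e) e)) (c (c (c (c (p (nat_lit 0x189221a)) e) e) e)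
  e))) (c (c (c (c (c (m (nat_lit 0x1843e66)) (c (m (nat_lit 0x89bffe)) e)) (c (c (m (nat_lit 0xbb96a4)) e)
  e)) (c (c (c (p (nat_lit 0x59643c)) e) e) e)) (c (c (c (c (p (nat_lit 0xf3ac0e)) e) e) e) e)) (c (c (c (c
  (c (m (nat_lit 0x28e7068)) e) e) e) e) e))) (c (c (c (c (c (c (p (nat_lit 0x410d984)) (c (p (nat_lit
  0x20e3f8c)) e)) (c (c (p (nat_lit 0x9d9b24)) e) e)) (c (c (c (p (nat_lit 0xfe9a5a)) e) e) e)) (c (c (c (c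
  (m (nat_lit 0xa368c)) e) e) e) e)) (c (c (c (c (c (p (nat_lit 0x12fe7d8)) e) e) e) e) e)) (c (c (c (c (c (c
  (m (nat_lit 0x5a6de6)) e) e) e) e) e) e))) (c (c (c (c (c (c (c (p (nat_lit 0x13fb072)) (c (p (nat_lit
  0x1820808)) e)) (c (c (p (nat_lit 0xb25a32)) e) e)) (c (c (c (m (nat_lit 0x12f85ec)) e) e) e)) (c (c (c (c
  (m (nat_lit 0x92b284)) e) e) e) e)) (c (c (c (c (c (p (nat_lit 0x1a4d224)) e) e) e) e) e)) (c (c (c (c (c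
  (c (m (nat_lit 0xd43e56)) e) e) e) e) e) e)) (c (c (c (c (c (c (c (m (nat_lit 0x19b9a8c)) e) e) e) e) e) e)
  e))) (c (c (c (c (c (c (c (c (m (nat_lit 0x512898c)) (c (p (nat_lit 0x229321e)) e)) (c (c (m (nat_lit
  0x107a04e)) e) e)) (c (c (c (m (nat_lit 0x5b0a40)) e) e) e)) (c (c (c (c (p (nat_lit 0x1accda2)) e) e) e)
  e)) (c (c (c (c (c (p (nat_lit 0x118524)) e) e) e) e) e)) (c (c (c (c (c (c (m (nat_lit 0xe09be)) e) e) e)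
  e) e) e)) (c (c (c (c (c (c (c (p (nat_lit 0x2ac94e0)) e) e) e) e) e) e) e)) (c (c (c (c (c (c (c (c (p
  (nat_lit 0x28511d0)) e) e) e) e) e) e) e) e))) (c (c (c (c (c (c (c (c (c (m (nat_lit 0x3e2d280)) (c (m
  (nat_lit 0x182e15e)) e)) (c (c (p (nat_lit 0xbe0c50)) e) e)) (c (c (c (m (nat_lit 0x12a7c7c)) e) e) e)) (c
  (c (c (c (p (nat_lit 0x15d3e18)) e) e) e) e)) (c (c (c (c (c (p (nat_lit 0x465d8fc)) e) e) e) e) e)) (c (c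
  (c (c (c (c (m (nat_lit 0x19fcbcc)) e) e) e) e) e) e)) (c (c (c (c (c (c (c (m (nat_lit 0x1971e70)) e) e)
  e) e) e) e) e)) (c (c (c (c (c (c (c (c (m (nat_lit 0x76fa70)) e) e) e) e) e) e) e) e)) (c (c (c (c (c (c
  (c (c (c (p (nat_lit 0x1220580)) e) e) e) e) e) e) e) e) e)))))

noncomputable def gt_1_1_4 : Tr :=
  (c (c (c (c (c (c (c (c (c (m (nat_lit 0xc77d72)) (c (p (nat_lit 0x2492640)) (c (m (nat_lit 0x107ab1c))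
  e))) (c (c (m (nat_lit 0x1cca61c)) (c (m (nat_lit 0xbb14d8)) e)) (c (c (p (nat_lit 0x322785c)) e) e))) (c
  (c (c (p (nat_lit 0x3e2f0b0)) (c (m (nat_lit 0x23d2ac0)) e)) (c (c (p (nat_lit 0x1cb8a0c)) e) e)) (c (c (c
  (m (nat_lit 0x206ceda)) e) e) e))) (c (c (c (c (m (nat_lit 0x594fc2a)) (c (p (nat_lit 0xa1ff1c)) (c (p
  (nat_lit 0x1e191c4)) e))) (c (c (p (nat_lit 0x68b3584)) (c (m (nat_lit 0x1b82038)) e)) (c (c (p (nat_lit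
  0x1a89e60)) e) e))) (c (c (c (p (nat_lit 0xb82051c)) (c (m (nat_lit 0x1402b0c)) e)) (c (c (m (nat_lit
  0x58bc804)) e) e)) (c (c (c (m (nat_lit 0x4fce036)) e) e) e))) (c (c (c (c (m (nat_lit 0x589f74)) (c (p
  (nat_lit 0xdc6710)) (c (m (nat_lit 0x134ecf8)) e))) (c (c (p (nat_lit 0x25f6ee4)) (c (p (nat_lit
  0x167d420)) e)) (c (c (m (nat_lit 0x4cc3e54)) e) e))) (c (c (c (m (nat_lit 0x2e53c0)) (c (m (nat_lit
  0x8c9c7c)) e)) (c (c (m (nat_lit 0xbcf58)) e) e)) (c (c (c (m (nat_lit 0x28602b4)) e) e) e))) e))) (c (c (c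
  (c (c (m (nat_lit 0x22cba68)) (c (m (nat_lit 0x5da45bc)) (c (p (nat_lit 0xaa29bc)) e))) (c (c (p (nat_lit
  0xa0718ac)) (c (p (nat_lit 0x1b4020c)) e)) (c (c (m (nat_lit 0x29cbd64)) e) e))) (c (c (c (m (nat_lit
  0x6b0945a)) (c (p (nat_lit 0x1f1a480)) e)) (c (c (m (nat_lit 0x1265268)) e) e)) (c (c (c (p (nat_lit
  0x4487652)) e) e) e))) (c (c (c (c (p (nat_lit 0x2e007ca)) (c (p (nat_lit 0x29fdbd0)) (c (m (nat_lit
  0x2095104)) e))) (c (c (m (nat_lit 0x757c080)) (c (m (nat_lit 0x13f3944)) e)) (c (c (p (nat_lit 0x1e88c80))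
  e) e))) (c (c (c (m (nat_lit 0x1a5868a)) (c (p (nat_lit 0x48e550)) e)) (c (c (p (nat_lit 0x101cfdc)) e) e))
  (c (c (c (p (nat_lit 0xb594a0)) e) e) e))) e)) (c (c (c (c (c (m (nat_lit 0x241c518)) (c (p (nat_lit
  0x7a271b4)) (c (p (nat_lit 0xb00de4)) e))) (c (c (p (nat_lit 0x4ea7b8)) (c (m (nat_lit 0xd361c4)) e)) (c (c
  (m (nat_lit 0x1d66ba4)) e) e))) (c (c (c (p (nat_lit 0x18a321e)) (c (m (nat_lit 0xe49594)) e)) (c (c (m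
  (nat_lit 0x11d6708)) e) e)) (c (c (c (m (nat_lit 0xa1e956)) e) e) e))) e) e))) (c (c (c (c (c (c (p
  (nat_lit 0x33880ec)) (c (m (nat_lit 0x6758b08)) (c (m (nat_lit 0x49428)) e))) (c (c (m (nat_lit 0x1a24838))
  (c (p (nat_lit 0xe55e4)) e)) (c (c (m (nat_lit 0x28ad7a4)) e) e))) (c (c (c (m (nat_lit 0x90964e)) (c (m
  (nat_lit 0x2780e8)) e)) (c (c (p (nat_lit 0xce3430)) e) e)) (c (c (c (p (nat_lit 0x2a412e)) e) e) e))) (c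
  (c (c (c (p (nat_lit 0xf9963c)) (c (m (nat_lit 0x74e6a4)) (c (m (nat_lit 0x50dad4)) e))) (c (c (m (nat_lit
  0x1a2d610)) (c (p (nat_lit 0x38c808)) e)) (c (c (p (nat_lit 0x1c8edd8)) e) e))) (c (c (c (m (nat_lit
  0x4e35376)) (c (m (nat_lit 0x16d0364)) e)) (c (c (p (nat_lit 0x1a68740)) e) e)) (c (c (c (p (nat_lit
  0x5051dc6)) e) e) e))) e)) (c (c (c (c (c (p (nat_lit 0x19a5422)) (c (m (nat_lit 0x1d27d6c)) (c (p (nat_lit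
  0x10318f8)) e))) (c (c (m (nat_lit 0x1beaf54)) (c (p (nat_lit 0x12ce880)) e)) (c (c (p (nat_lit 0x9e7720))
  e) e))) (c (c (c (m (nat_lit 0x6c6be26)) (c (p (nat_lit 0xb8a1cc)) e)) (c (c (p (nat_lit 0x356bc50)) e) e))
  (c (c (c (p (nat_lit 0x4bcbc34)) e) e) e))) e) e)) (c (c (c (c (c (c (m (nat_lit 0x22e7980)) (c (m (nat_lit
  0xdc3e30)) (c (p (nat_lit 0x9cfe88)) e))) (c (c (p (nat_lit 0x2378334)) (c (m (nat_lit 0x48b118)) e)) (c (c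
  (m (nat_lit 0x9274f8)) e) e))) (c (c (c (p (nat_lit 0x6994aa0)) (c (p (nat_lit 0x114d284)) e)) (c (c (m
  (nat_lit 0x13fbb10)) e) e)) (c (c (c (m (nat_lit 0x36c6b04)) e) e) e))) e) e) e))) (c (c (c (c (c (c (c (m
  (nat_lit 0x12ec85ea)) (c (p (nat_lit 0xa34142c)) (c (p (nat_lit 0x214b3f0)) e))) (c (c (p (nat_lit
  0xd05375c)) (c (m (nat_lit 0x893958)) e)) (c (c (m (nat_lit 0x25d4b40)) e) e))) (c (c (c (p (nat_lit
  0x29c8133a)) (c (m (nat_lit 0x3a6c86c)) e)) (c (c (m (nat_lit 0x7a0c724)) e) e)) (c (c (c (m (nat_lit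
  0x225bdf18)) e) e) e))) (c (c (c (c (p (nat_lit 0x1d823b4)) (c (m (nat_lit 0x1dc2bf0)) (c (m (nat_lit
  0x29d378c)) e))) (c (c (m (nat_lit 0x6c5a05a)) (c (m (nat_lit 0x3f62ac)) e)) (c (c (p (nat_lit 0x3e0a180))
  e) e))) (c (c (c (m (nat_lit 0xa20fcf6)) (c (p (nat_lit 0x102ba18)) e)) (c (c (p (nat_lit 0x33e54c4)) e)
  e)) (c (c (c (p (nat_lit 0x102dfcfe)) e) e) e))) (c (c (c (c (p (nat_lit 0x2329adc)) (c (p (nat_lit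
  0x125a768)) e)) (c (c (p (nat_lit 0x167fe8c)) e) e)) (c (c (c (p (nat_lit 0xfece98)) e) e) e)) e))) (c (c
  (c (c (c (p (nat_lit 0x97d3acc)) (c (m (nat_lit 0x173c5ec)) (c (m (nat_lit 0x1a1c18c)) e))) (c (c (m
  (nat_lit 0x11af8b8)) (c (m (nat_lit 0x1b38c4)) e)) (c (c (p (nat_lit 0x12a5a50)) e) e))) (c (c (c (p
  (nat_lit 0x5076b22)) (c (m (nat_lit 0xfe54c4)) e)) (c (c (p (nat_lit 0x507d38)) e) e)) (c (c (c (m (nat_lit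
  0xb879c88)) e) e) e))) (c (c (c (c (m (nat_lit 0x3271218)) (c (m (nat_lit 0xacf80)) e)) (c (c (p (nat_lit
  0x1198e90)) e) e)) (c (c (c (p (nat_lit 0x10a20d4)) e) e) e)) e)) (c (c (c (c (c (m (nat_lit 0x3ae3e4)) (c
  (p (nat_lit 0x11b7100)) e)) (c (c (m (nat_lit 0x11b3d64)) e) e)) (c (c (c (m (nat_lit 0x2b7643c)) e) e) e))
  e) e))) (c (c (c (c (c (c (m (nat_lit 0xe09436)) (c (m (nat_lit 0x818380e)) (c (p (nat_lit 0xdf9a64)) e)))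
  (c (c (m (nat_lit 0x4804c86)) (c (p (nat_lit 0x43c824)) e)) (c (c (m (nat_lit 0x11bab5c)) e) e))) (c (c (c
  (p (nat_lit 0x8447fee)) (c (p (nat_lit 0x8d96c)) e)) (c (c (p (nat_lit 0x198b9d0)) e) e)) (c (c (c (m
  (nat_lit 0x174e22c)) e) e) e))) (c (c (c (c (p (nat_lit 0x96cf0c)) (c (p (nat_lit 0x1daceac)) e)) (c (c (p
  (nat_lit 0x27a9cec)) e) e)) (c (c (c (m (nat_lit 0x13d5d7c)) e) e) e)) e)) (c (c (c (c (c (p (nat_lit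
  0xf04014)) (c (m (nat_lit 0xc60e28)) e)) (c (c (p (nat_lit 0x24d7400)) e) e)) (c (c (c (p (nat_lit
  0x30060)) e) e) e)) e) e)) (c (c (c (c (c (c (p (nat_lit 0x240cb94)) (c (p (nat_lit 0xf8df0)) e)) (c (c (m
  (nat_lit 0x2b48d94)) e) e)) (c (c (c (m (nat_lit 0x163cf8)) e) e) e)) e) e) e))) (c (c (c (c (c (c (c (p
  (nat_lit 0xdc9fc8c)) (c (m (nat_lit 0x4283928)) (c (p (nat_lit 0x1f4f124)) e))) (c (c (m (nat_lit
  0x5531dae)) (c (m (nat_lit 0x372cc0)) e)) (c (c (m (nat_lit 0x161604c)) e) e))) (c (c (c (m (nat_lit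
  0x210d0bde)) (c (p (nat_lit 0x1e56b44)) e)) (c (c (p (nat_lit 0x4aef824)) e) e)) (c (c (c (p (nat_lit
  0x1e171de6)) e) e) e))) (c (c (c (c (p (nat_lit 0x74d5610)) (c (m (nat_lit 0x28105b0)) e)) (c (c (m
  (nat_lit 0xb379a2)) e) e)) (c (c (c (m (nat_lit 0xa7ac03c)) e) e) e)) (c (c (c (c (m (nat_lit 0x35cdd98))
  e) e) e) e))) (c (c (c (c (c (m (nat_lit 0x9ff60de)) (c (m (nat_lit 0x342924)) e)) (c (c (p (nat_lit
  0x9886c8)) e) e)) (c (c (c (p (nat_lit 0x80d3c66)) e) e) e)) (c (c (c (c (p (nat_lit 0x1a48490)) e) e) e)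
  e)) (c (c (c (c (c (m (nat_lit 0x242fc4)) e) e) e) e) e))) (c (c (c (c (c (c (p (nat_lit 0x670e942)) (c (p
  (nat_lit 0x4148412)) e)) (c (c (p (nat_lit 0x24ee31a)) e) e)) (c (c (c (m (nat_lit 0x18ef31c)) e) e) e)) (c
  (c (c (c (m (nat_lit 0x28488cc)) e) e) e) e)) (c (c (c (c (c (m (nat_lit 0x1806ccc)) e) e) e) e) e)) (c (c
  (c (c (c (c (p (nat_lit 0x3b67b4)) e) e) e) e) e) e))) (c (c (c (c (c (c (c (p (nat_lit 0x186a1d0)) (c (m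
  (nat_lit 0x550c2c)) e)) (c (c (m (nat_lit 0x1214f6a)) e) e)) (c (c (c (m (nat_lit 0x3551e68)) e) e) e)) (c
  (c (c (c (p (nat_lit 0x1704b88)) e) e) e) e)) (c (c (c (c (c (p (nat_lit 0x48d8612)) e) e) e) e) e)) (c (c
  (c (c (c (c (m (nat_lit 0x404c2fe)) e) e) e) e) e) e)) (c (c (c (c (c (c (c (m (nat_lit 0x4d7543c)) e) e)
  e) e) e) e) e))))) (c (c (c (c (c (c (c (c (p (nat_lit 0x277f998)) (c (m (nat_lit 0x8245adc)) (c (p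
  (nat_lit 0x606cc)) e))) (c (c (m (nat_lit 0x18bd869a)) (c (p (nat_lit 0x1084380)) e)) (c (c (p (nat_lit
  0x39045c)) e) e))) (c (c (c (m (nat_lit 0x19c6c86)) (c (m (nat_lit 0x78d80c)) e)) (c (c (m (nat_lit
  0xd7b14c)) e) e)) (c (c (c (p (nat_lit 0x68e8b4)) e) e) e))) (c (c (c (c (p (nat_lit 0x465dabe)) (c (m
  (nat_lit 0x1502004)) (c (p (nat_lit 0x10cb0fc)) e))) (c (c (p (nat_lit 0x2a7ebf4)) (c (p (nat_lit
  0x123cc78)) e)) (c (c (p (nat_lit 0x109c1c4)) e) e))) (c (c (c (m (nat_lit 0xc61755c)) (c (p (nat_lit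
  0x27e01c0)) e)) (c (c (p (nat_lit 0x1544c7c)) e) e)) (c (c (c (p (nat_lit 0x5eeeb26)) e) e) e))) (c (c (c
  (c (p (nat_lit 0x1d933d0)) (c (p (nat_lit 0x963fc0)) e)) (c (c (p (nat_lit 0x1f3a2c8)) e) e)) (c (c (c (p
  (nat_lit 0x20df858)) e) e) e)) e))) (c (c (c (c (c (m (nat_lit 0xaed7580)) (c (p (nat_lit 0x3a4c0f4)) (c (m
  (nat_lit 0x11a318)) e))) (c (c (p (nat_lit 0x1184612a)) (c (p (nat_lit 0x4a9424)) e)) (c (c (m (nat_lit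
  0x1ccc944)) e) e))) (c (c (c (p (nat_lit 0x19cf10e2)) (c (m (nat_lit 0x7c611c)) e)) (c (c (m (nat_lit
  0x1b78e7c)) e) e)) (c (c (c (m (nat_lit 0x5f8f8cc)) e) e) e))) (c (c (c (c (m (nat_lit 0xce8aac)) (c (p
  (nat_lit 0x3c0d50)) e)) (c (c (m (nat_lit 0x17a693c)) e) e)) (c (c (c (m (nat_lit 0x2aaa3a0)) e) e) e)) e))
  (c (c (c (c (c (m (nat_lit 0x89dd134)) (c (m (nat_lit 0x2197de8)) e)) (c (c (m (nat_lit 0xc95c64)) e) e))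
  (c (c (c (p (nat_lit 0x680454)) e) e) e)) e) e))) (c (c (c (c (c (c (p (nat_lit 0x11ef96e)) (c (p (nat_lit
  0x7bb0940)) (c (m (nat_lit 0x1f14480)) e))) (c (c (p (nat_lit 0x9d664a)) (c (m (nat_lit 0x3c5a3c)) e)) (c
  (c (p (nat_lit 0x1297dc4)) e) e))) (c (c (c (m (nat_lit 0x76ce4a4)) (c (p (nat_lit 0xe0e758)) e)) (c (c (m
  (nat_lit 0x794184)) e) e)) (c (c (c (p (nat_lit 0x232e4c2)) e) e) e))) (c (c (c (c (p (nat_lit 0x2651298))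
  (c (m (nat_lit 0xb9c16c)) e)) (c (c (p (nat_lit 0x8e66e0)) e) e)) (c (c (c (p (nat_lit 0xda052c)) e) e) e))
  e)) (c (c (c (c (c (m (nat_lit 0x6d2b4)) (c (p (nat_lit 0x3ff7c8)) e)) (c (c (m (nat_lit 0x2110cec)) e) e))
  (c (c (c (m (nat_lit 0x105f0d8)) e) e) e)) e) e)) (c (c (c (c (c (c (m (nat_lit 0x14ae8d4)) (c (m (nat_lit
  0x11cf850)) e)) (c (c (m (nat_lit 0xf276d8)) e) e)) (c (c (c (p (nat_lit 0x1305f0c)) e) e) e)) e) e) e)))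
  (c (c (c (c (c (c (c (p (nat_lit 0xf7f0d10)) (c (p (nat_lit 0x189369c)) (c (p (nat_lit 0x646e78)) e))) (c
  (c (m (nat_lit 0x1ad1c3e)) (c (p (nat_lit 0x126dc98)) e)) (c (c (m (nat_lit 0x289d28)) e) e))) (c (c (c (p
  (nat_lit 0x3ae5a12)) (c (m (nat_lit 0xdfcb0c)) e)) (c (c (m (nat_lit 0x7978d4)) e) e)) (c (c (c (m (nat_lit
  0x753cedc)) e) e) e))) (c (c (c (c (m (nat_lit 0x8820690)) (c (p (nat_lit 0x23cae10)) e)) (c (c (m (nat_lit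
  0x293d090)) e) e)) (c (c (c (p (nat_lit 0x3b2932)) e) e) e)) (c (c (c (c (m (nat_lit 0xaf7f64)) e) e) e)
  e))) (c (c (c (c (c (p (nat_lit 0x6f8a6e4)) (c (m (nat_lit 0x62c3f4)) e)) (c (c (p (nat_lit 0x102325e)) e)
  e)) (c (c (c (m (nat_lit 0x410d60c)) e) e) e)) (c (c (c (c (p (nat_lit 0x8e1070)) e) e) e) e)) (c (c (c (c
  (c (p (nat_lit 0x1d5ab14)) e) e) e) e) e))) (c (c (c (c (c (c (m (nat_lit 0x1c72b1e)) (c (p (nat_lit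
  0x2e2cc0)) e)) (c (c (p (nat_lit 0x12014e2)) e) e)) (c (c (c (m (nat_lit 0x10f5d32)) e) e) e)) (c (c (c (c
  (p (nat_lit 0x698f4c)) e) e) e) e)) (c (c (c (c (c (m (nat_lit 0x39e19c)) e) e) e) e) e)) (c (c (c (c (c (c
  (p (nat_lit 0xb6c3b8)) e) e) e) e) e) e))) (c (c (c (c (c (c (c (m (nat_lit 0x5034006)) (c (m (nat_lit
  0x1ca02e6)) e)) (c (c (m (nat_lit 0xa49cbe)) e) e)) (c (c (c (p (nat_lit 0x1f5372)) e) e) e)) (c (c (c (c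
  (p (nat_lit 0x1650990)) e) e) e) e)) (c (c (c (c (c (m (nat_lit 0x594d6c2)) e) e) e) e) e)) (c (c (c (c (c
  (c (p (nat_lit 0x4780c2)) e) e) e) e) e) e)) (c (c (c (c (c (c (c (p (nat_lit 0x490c290)) e) e) e) e) e) e)
  e)))) (c (c (c (c (c (c (c (c (m (nat_lit 0x7570f32)) (c (p (nat_lit 0x95e4a96)) (c (p (nat_lit 0x14a2c4c))
  e))) (c (c (p (nat_lit 0xe5842a2)) (c (m (nat_lit 0x1b840e4)) e)) (c (c (p (nat_lit 0x22856c4)) e) e))) (c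
  (c (c (m (nat_lit 0x99ea1e)) (c (p (nat_lit 0x1a15910)) e)) (c (c (p (nat_lit 0x12d44c0)) e) e)) (c (c (c
  (p (nat_lit 0x4a7e052)) e) e) e))) (c (c (c (c (m (nat_lit 0xba6a2c)) (c (m (nat_lit 0x79f5cc)) e)) (c (c
  (m (nat_lit 0x1b3a4b8)) e) e)) (c (c (c (p (nat_lit 0x5d87c42)) e) e) e)) (c (c (c (c (m (nat_lit
  0x19ec5f4)) e) e) e) e))) (c (c (c (c (c (p (nat_lit 0x8176464)) (c (m (nat_lit 0xfbfa0c)) e)) (c (c (m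
  (nat_lit 0x704841c)) e) e)) (c (c (c (m (nat_lit 0x5976d68)) e) e) e)) (c (c (c (c (p (nat_lit 0xd234ec))
  e) e) e) e)) (c (c (c (c (c (p (nat_lit 0x333486c)) e) e) e) e) e))) (c (c (c (c (c (c (p (nat_lit
  0x1c4ed82)) (c (m (nat_lit 0x3026880)) e)) (c (c (m (nat_lit 0x2c04cc)) e) e)) (c (c (c (p (nat_lit
  0xdaaa5c)) e) e) e)) (c (c (c (c (m (nat_lit 0x51ea30)) e) e) e) e)) (c (c (c (c (c (m (nat_lit 0x6d11e4))
  e) e) e) e) e)) (c (c (c (c (c (c (p (nat_lit 0x1714a88)) e) e) e) e) e) e))) (c (c (c (c (c (c (c (m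
  (nat_lit 0xe8fe678)) (c (m (nat_lit 0x1dcf784)) e)) (c (c (p (nat_lit 0x3a0cdb8)) e) e)) (c (c (c (p
  (nat_lit 0x359f238)) e) e) e)) (c (c (c (c (p (nat_lit 0x3621f1e)) e) e) e) e)) (c (c (c (c (c (p (nat_lit
  0x1ae5426)) e) e) e) e) e)) (c (c (c (c (c (c (p (nat_lit 0x2ff8812)) e) e) e) e) e) e)) (c (c (c (c (c (c
  (c (p (nat_lit 0x284088c)) e) e) e) e) e) e) e))) (c (c (c (c (c (c (c (c (p (nat_lit 0xa391988)) (c (m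
  (nat_lit 0x28e7830)) e)) (c (c (m (nat_lit 0x35a8094)) e) e)) (c (c (c (m (nat_lit 0x3e203fe)) e) e) e)) (c
  (c (c (c (m (nat_lit 0x2da8cde)) e) e) e) e)) (c (c (c (c (c (m (nat_lit 0x5482476)) e) e) e) e) e)) (c (c
  (c (c (c (c (m (nat_lit 0x3317c5e)) e) e) e) e) e) e)) (c (c (c (c (c (c (c (p (nat_lit 0x90b844)) e) e) e)
  e) e) e) e)) (c (c (c (c (c (c (c (c (m (nat_lit 0x301e060)) e) e) e) e) e) e) e) e))))) (c (c (c (c (c (c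
  (c (c (c (m (nat_lit 0x323a678)) (c (p (nat_lit 0x3e31918)) (c (m (nat_lit 0x29e05a8)) e))) (c (c (m
  (nat_lit 0x48131ac)) (c (p (nat_lit 0x3bf010)) e)) (c (c (p (nat_lit 0x164d5c4)) e) e))) (c (c (c (m
  (nat_lit 0x1aa51a2)) (c (p (nat_lit 0xa2c594)) e)) (c (c (m (nat_lit 0x17852e8)) e) e)) (c (c (c (p
  (nat_lit 0x2982276)) e) e) e))) (c (c (c (c (p (nat_lit 0x71c382)) (c (m (nat_lit 0x314493c)) (c (p
  (nat_lit 0x2ad5f9c)) e))) (c (c (p (nat_lit 0xa035a8)) (c (p (nat_lit 0x69abe4)) e)) (c (c (m (nat_lit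
  0x1c4b824)) e) e))) (c (c (c (m (nat_lit 0x76d147a)) (c (p (nat_lit 0x2c0abac)) e)) (c (c (p (nat_lit
  0x10c2bac)) e) e)) (c (c (c (p (nat_lit 0x43c6e60)) e) e) e))) (c (c (c (c (p (nat_lit 0x265a664)) (c (p
  (nat_lit 0x155bf68)) e)) (c (c (m (nat_lit 0x2e2c24)) e) e)) (c (c (c (p (nat_lit 0x1ee9f70)) e) e) e))
  e))) (c (c (c (c (c (p (nat_lit 0x4f6f1be)) (c (m (nat_lit 0x337a9f4)) (c (m (nat_lit 0x48c27c)) e))) (c (c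
  (m (nat_lit 0x382de68)) (c (m (nat_lit 0x4f9920)) e)) (c (c (m (nat_lit 0x59fc58)) e) e))) (c (c (c (m
  (nat_lit 0x57b1cea)) (c (p (nat_lit 0x290f838)) e)) (c (c (p (nat_lit 0x1ae7760)) e) e)) (c (c (c (p
  (nat_lit 0x4cb813c)) e) e) e))) (c (c (c (c (m (nat_lit 0x1b6276c)) (c (p (nat_lit 0x1b8b104)) e)) (c (c (p
  (nat_lit 0x2612be0)) e) e)) (c (c (c (p (nat_lit 0x1fd985c)) e) e) e)) e)) (c (c (c (c (c (p (nat_lit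
  0x1bc4638)) (c (p (nat_lit 0x2366400)) e)) (c (c (p (nat_lit 0x180bf34)) e) e)) (c (c (c (m (nat_lit
  0xd3f188)) e) e) e)) e) e))) (c (c (c (c (c (c (p (nat_lit 0x70fb03c)) (c (m (nat_lit 0x36cc4bc)) (c (p
  (nat_lit 0x9363f0)) e))) (c (c (p (nat_lit 0x933dc8)) (c (m (nat_lit 0xcaec78)) e)) (c (c (p (nat_lit
  0x1f75aac)) e) e))) (c (c (c (p (nat_lit 0x6e33136)) (c (p (nat_lit 0x1dea3a0)) e)) (c (c (m (nat_lit
  0xadf6d0)) e) e)) (c (c (c (m (nat_lit 0x2c78112)) e) e) e))) (c (c (c (c (m (nat_lit 0x2219010)) (c (p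
  (nat_lit 0x1bb8320)) e)) (c (c (p (nat_lit 0x667578)) e) e)) (c (c (c (m (nat_lit 0x785be0)) e) e) e)) e))
  (c (c (c (c (c (p (nat_lit 0x9fc00c)) (c (p (nat_lit 0x884e8c)) e)) (c (c (p (nat_lit 0x54a6b0)) e) e)) (c
  (c (c (p (nat_lit 0x1e1d1fc)) e) e) e)) e) e)) (c (c (c (c (c (c (p (nat_lit 0xbe74f0)) (c (p (nat_lit
  0xb712fc)) e)) (c (c (m (nat_lit 0x1c0884)) e) e)) (c (c (c (m (nat_lit 0x1be27c4)) e) e) e)) e) e) e))) (c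
  (c (c (c (c (c (c (m (nat_lit 0x66778d4)) (c (p (nat_lit 0x244abb0)) (c (m (nat_lit 0x519fa8)) e))) (c (c
  (m (nat_lit 0x11ac73e)) (c (p (nat_lit 0x5d528c)) e)) (c (c (p (nat_lit 0xda8224)) e) e))) (c (c (c (p
  (nat_lit 0x2f34288)) (c (m (nat_lit 0x5e7d0c)) e)) (c (c (m (nat_lit 0x1f52478)) e) e)) (c (c (c (m
  (nat_lit 0x3bfe2ba)) e) e) e))) (c (c (c (c (p (nat_lit 0x45b8230)) (c (p (nat_lit 0x121dcf4)) e)) (c (c (p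
  (nat_lit 0x5ef110)) e) e)) (c (c (c (p (nat_lit 0xe9157c)) e) e) e)) (c (c (c (c (m (nat_lit 0x7d2a28)) e)
  e) e) e))) (c (c (c (c (c (m (nat_lit 0x611028)) (c (m (nat_lit 0x9e0fac)) e)) (c (c (m (nat_lit
  0x1b19680)) e) e)) (c (c (c (p (nat_lit 0x15b0250)) e) e) e)) (c (c (c (c (m (nat_lit 0x16428fc)) e) e) e)
  e)) (c (c (c (c (c (p (nat_lit 0x1338bac)) e) e) e) e) e))) (c (c (c (c (c (c (m (nat_lit 0x7adf38a)) (c (p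
  (nat_lit 0x13a0094)) e)) (c (c (p (nat_lit 0x17bfba8)) e) e)) (c (c (c (m (nat_lit 0x1ed71e4)) e) e) e)) (c
  (c (c (c (m (nat_lit 0x176e464)) e) e) e) e)) (c (c (c (c (c (m (nat_lit 0x1e009cc)) e) e) e) e) e)) (c (c
  (c (c (c (c (p (nat_lit 0x1d0697c)) e) e) e) e) e) e))) (c (c (c (c (c (c (c (m (nat_lit 0xfc7212)) (c (m
  (nat_lit 0x806cf4)) e)) (c (c (p (nat_lit 0x2779cda)) e) e)) (c (c (c (p (nat_lit 0x3037a04)) e) e) e)) (c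
  (c (c (c (m (nat_lit 0x42adfa0)) e) e) e) e)) (c (c (c (c (c (m (nat_lit 0x1378ab8)) e) e) e) e) e)) (c (c
  (c (c (c (c (p (nat_lit 0x2f70162)) e) e) e) e) e) e)) (c (c (c (c (c (c (c (p (nat_lit 0x1821c0c)) e) e)
  e) e) e) e) e)))) (c (c (c (c (c (c (c (c (p (nat_lit 0x1314d9a4)) (c (m (nat_lit 0x19496a)) (c (m (nat_lit
  0xf3264)) e))) (c (c (p (nat_lit 0x1940e5c)) (c (m (nat_lit 0xb3fcdc)) e)) (c (c (p (nat_lit 0xa3d568)) e)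
  e))) (c (c (c (m (nat_lit 0x5265f42)) (c (m (nat_lit 0x2b7d2f4)) e)) (c (c (p (nat_lit 0xd10370)) e) e)) (c
  (c (c (m (nat_lit 0xff0498)) e) e) e))) (c (c (c (c (p (nat_lit 0x59c241c)) (c (m (nat_lit 0xd6f38)) e)) (c
  (c (p (nat_lit 0x7ff26c)) e) e)) (c (c (c (p (nat_lit 0x7bada0)) e) e) e)) (c (c (c (c (m (nat_lit
  0x2a9bbf8)) e) e) e) e))) (c (c (c (c (c (m (nat_lit 0x5d71e9e)) (c (p (nat_lit 0x6c6dec)) e)) (c (c (m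
  (nat_lit 0x26c21a0)) e) e)) (c (c (c (m (nat_lit 0x1399260)) e) e) e)) (c (c (c (c (p (nat_lit 0x7e0e10))
  e) e) e) e)) (c (c (c (c (c (p (nat_lit 0x9feed4)) e) e) e) e) e))) (c (c (c (c (c (c (m (nat_lit
  0x616f860)) (c (p (nat_lit 0x1abd0e8)) e)) (c (c (p (nat_lit 0x1600368)) e) e)) (c (c (c (p (nat_lit
  0x2376300)) e) e) e)) (c (c (c (c (m (nat_lit 0x9fb7fc)) e) e) e) e)) (c (c (c (c (c (m (nat_lit
  0x18dbf30)) e) e) e) e) e)) (c (c (c (c (c (c (p (nat_lit 0x15cab24)) e) e) e) e) e) e))) (c (c (c (c (c (c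
  (c (m (nat_lit 0x71f1096)) (c (p (nat_lit 0x106d6b2)) e)) (c (c (m (nat_lit 0x3a311c)) e) e)) (c (c (c (p
  (nat_lit 0x1450a0a)) e) e) e)) (c (c (c (c (m (nat_lit 0x4f8eee)) e) e) e) e)) (c (c (c (c (c (p (nat_lit
  0x42b502)) e) e) e) e) e)) (c (c (c (c (c (c (p (nat_lit 0xc0f870)) e) e) e) e) e) e)) (c (c (c (c (c (c (c
  (p (nat_lit 0x20759b2)) e) e) e) e) e) e) e))) (c (c (c (c (c (c (c (c (m (nat_lit 0xc3cec1c)) (c (m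
  (nat_lit 0xc3f744)) e)) (c (c (p (nat_lit 0x27e4e58)) e) e)) (c (c (c (p (nat_lit 0x3da80f2)) e) e) e)) (c
  (c (c (c (m (nat_lit 0x30d928a)) e) e) e) e)) (c (c (c (c (c (p (nat_lit 0x2d2e344)) e) e) e) e) e)) (c (c
  (c (c (c (c (p (nat_lit 0xe64e7c)) e) e) e) e) e) e)) (c (c (c (c (c (c (c (m (nat_lit 0x31c14fc)) e) e) e)
  e) e) e) e)) (c (c (c (c (c (c (c (c (p (nat_lit 0x3ee15b6)) e) e) e) e) e) e) e) e)))) (c (c (c (c (c (c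
  (c (c (c (m (nat_lit 0x24bcc88)) (c (p (nat_lit 0x20b7058)) (c (m (nat_lit 0x8092f8)) e))) (c (c (m
  (nat_lit 0x67743c)) (c (p (nat_lit 0xc7d034)) e)) (c (c (m (nat_lit 0x12832b0)) e) e))) (c (c (c (m
  (nat_lit 0x1963068)) (c (m (nat_lit 0x178de5c)) e)) (c (c (p (nat_lit 0x21c9f00)) e) e)) (c (c (c (m
  (nat_lit 0xcef61c)) e) e) e))) (c (c (c (c (p (nat_lit 0x138c528)) (c (m (nat_lit 0x3ee5cd8)) e)) (c (c (m
  (nat_lit 0x216b400)) e) e)) (c (c (c (m (nat_lit 0x44a6630)) e) e) e)) (c (c (c (c (m (nat_lit 0x1439610))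
  e) e) e) e))) (c (c (c (c (c (m (nat_lit 0x3fa3710)) (c (m (nat_lit 0x2515d04)) e)) (c (c (p (nat_lit
  0x16b8940)) e) e)) (c (c (c (m (nat_lit 0xa3b444)) e) e) e)) (c (c (c (c (p (nat_lit 0xa8a4c4)) e) e) e)
  e)) (c (c (c (c (c (m (nat_lit 0x5d1818)) e) e) e) e) e))) (c (c (c (c (c (c (m (nat_lit 0x39b33b8)) (c (m
  (nat_lit 0xbeedec)) e)) (c (c (p (nat_lit 0x7b3ed0)) e) e)) (c (c (c (m (nat_lit 0x26d33f0)) e) e) e)) (c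
  (c (c (c (m (nat_lit 0x117b4f0)) e) e) e) e)) (c (c (c (c (c (p (nat_lit 0xde13ec)) e) e) e) e) e)) (c (c
  (c (c (c (c (m (nat_lit 0x14b3668)) e) e) e) e) e) e))) (c (c (c (c (c (c (c (p (nat_lit 0x4f8da7c)) (c (m
  (nat_lit 0x6c44f4)) e)) (c (c (m (nat_lit 0x9716b8)) e) e)) (c (c (c (m (nat_lit 0x2b0f8c)) e) e) e)) (c (c
  (c (c (p (nat_lit 0x399a920)) e) e) e) e)) (c (c (c (c (c (p (nat_lit 0x947acc)) e) e) e) e) e)) (c (c (c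
  (c (c (c (p (nat_lit 0x14f3190)) e) e) e) e) e) e)) (c (c (c (c (c (c (c (m (nat_lit 0x711b64)) e) e) e) e)
  e) e) e))) (c (c (c (c (c (c (c (c (p (nat_lit 0x20af46e)) (c (p (nat_lit 0x8066b8)) e)) (c (c (m (nat_lit
  0x1cae758)) e) e)) (c (c (c (m (nat_lit 0xca7544)) e) e) e)) (c (c (c (c (m (nat_lit 0x116f94)) e) e) e)
  e)) (c (c (c (c (c (p (nat_lit 0x17bd4a8)) e) e) e) e) e)) (c (c (c (c (c (c (p (nat_lit 0x1f23114)) e) e)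
  e) e) e) e)) (c (c (c (c (c (c (c (p (nat_lit 0x4babe16)) e) e) e) e) e) e) e)) (c (c (c (c (c (c (c (c (m
  (nat_lit 0x3337014)) e) e) e) e) e) e) e) e))) (c (c (c (c (c (c (c (c (c (p (nat_lit 0x25e43f8)) (c (p
  (nat_lit 0x174f204)) e)) (c (c (p (nat_lit 0xde1cec)) e) e)) (c (c (c (p (nat_lit 0x34a5b60)) e) e) e)) (c
  (c (c (c (p (nat_lit 0x1a20464)) e) e) e) e)) (c (c (c (c (c (p (nat_lit 0x2a10764)) e) e) e) e) e)) (c (c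
  (c (c (c (c (m (nat_lit 0x269dcc)) e) e) e) e) e) e)) (c (c (c (c (c (c (c (m (nat_lit 0x3877578)) e) e) e)
  e) e) e) e)) (c (c (c (c (c (c (c (c (m (nat_lit 0x3504c18)) e) e) e) e) e) e) e) e)) (c (c (c (c (c (c (c
  (c (c (m (nat_lit 0x4eafd4)) e) e) e) e) e) e) e) e) e)))))

noncomputable def gt_1_1_5 : Tr :=
  (c (c (c (c (c (c (c (c (c (p (nat_lit 0x2cd8e68)) (c (m (nat_lit 0x1cf6e84)) (c (p (nat_lit 0xff5250))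
  e))) (c (c (m (nat_lit 0x7d19108)) (c (p (nat_lit 0x133188c)) e)) (c (c (p (nat_lit 0x27d9e6c)) e) e))) (c
  (c (c (p (nat_lit 0x12e1fd8)) (c (m (nat_lit 0x1d9a930)) e)) (c (c (p (nat_lit 0x24092d0)) e) e)) (c (c (c
  (m (nat_lit 0x69ac8)) e) e) e))) (c (c (c (c (m (nat_lit 0x2c21ad8)) (c (m (nat_lit 0x48022d4)) (c (p
  (nat_lit 0x2a1a64c)) e))) (c (c (p (nat_lit 0x1854fb4)) (c (m (nat_lit 0xa4c5c8)) e)) (c (c (p (nat_lit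
  0x3f607f8)) e) e))) (c (c (c (p (nat_lit 0x12ac9908)) (c (p (nat_lit 0x1130fdc)) e)) (c (c (m (nat_lit
  0x24ef5bc)) e) e)) (c (c (c (m (nat_lit 0xae926e8)) e) e) e))) (c (c (c (c (p (nat_lit 0x11dabe4)) (c (p
  (nat_lit 0x601485c)) (c (m (nat_lit 0x289f554)) e))) (c (c (p (nat_lit 0xa7d2f4)) (c (m (nat_lit 0x790db8))
  e)) (c (c (m (nat_lit 0x16f64a0)) e) e))) (c (c (c (m (nat_lit 0xc91bb7c)) (c (m (nat_lit 0x1bcc54)) e)) (c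
  (c (p (nat_lit 0x1e4a61c)) e) e)) (c (c (c (p (nat_lit 0x7aa7e78)) e) e) e))) e))) (c (c (c (c (c (m
  (nat_lit 0x2ca921c)) (c (p (nat_lit 0x93234cc)) (c (m (nat_lit 0x2837b80)) e))) (c (c (p (nat_lit
  0xbc4b028)) (c (m (nat_lit 0x44fc1c0)) e)) (c (c (m (nat_lit 0x49344e4)) e) e))) (c (c (c (m (nat_lit
  0x9d430d0)) (c (p (nat_lit 0x89f898)) e)) (c (c (p (nat_lit 0x1691754)) e) e)) (c (c (c (p (nat_lit
  0x56b6b3c)) e) e) e))) (c (c (c (c (p (nat_lit 0x245c8e0)) (c (m (nat_lit 0x590a8f4)) (c (p (nat_lit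
  0x6f0870)) e))) (c (c (m (nat_lit 0x7d2d7c0)) (c (p (nat_lit 0x2025978)) e)) (c (c (p (nat_lit 0x375e730))
  e) e))) (c (c (c (p (nat_lit 0x50ddef0)) (c (m (nat_lit 0xa54d40)) e)) (c (c (m (nat_lit 0x19cdd54)) e) e))
  (c (c (c (m (nat_lit 0x30b6970)) e) e) e))) e)) (c (c (c (c (c (m (nat_lit 0x605d018)) (c (p (nat_lit
  0x12771e4)) (c (p (nat_lit 0x4fa040)) e))) (c (c (p (nat_lit 0xf4646c4)) (c (m (nat_lit 0x1b05f28)) e)) (c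
  (c (m (nat_lit 0x36f26c4)) e) e))) (c (c (c (p (nat_lit 0x2e51ed8)) (c (p (nat_lit 0x247047c)) e)) (c (c (m
  (nat_lit 0x53add04)) e) e)) (c (c (c (m (nat_lit 0x23776d4)) e) e) e))) e) e))) (c (c (c (c (c (c (p
  (nat_lit 0x1ceb2f8)) (c (m (nat_lit 0x4545738)) (c (p (nat_lit 0x30757c8)) e))) (c (c (m (nat_lit
  0x21fce40)) (c (p (nat_lit 0x450a404)) e)) (c (c (m (nat_lit 0x1d390d0)) e) e))) (c (c (c (m (nat_lit
  0x2d42000)) (c (p (nat_lit 0x609c0)) e)) (c (c (p (nat_lit 0xaa2644)) e) e)) (c (c (c (p (nat_lit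
  0x458e62c)) e) e) e))) (c (c (c (c (p (nat_lit 0x9c7a64)) (c (m (nat_lit 0x1a334a8)) (c (m (nat_lit
  0x1f855ec)) e))) (c (c (m (nat_lit 0x3ce5e3c)) (c (m (nat_lit 0x85200)) e)) (c (c (p (nat_lit 0x227de64))
  e) e))) (c (c (c (p (nat_lit 0x417de0c)) (c (p (nat_lit 0x468264)) e)) (c (c (p (nat_lit 0x1af03b8)) e) e))
  (c (c (c (m (nat_lit 0x279171c)) e) e) e))) e)) (c (c (c (c (c (p (nat_lit 0x195c588)) (c (p (nat_lit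
  0x8d666c)) (c (p (nat_lit 0x31b024c)) e))) (c (c (m (nat_lit 0x1b71634)) (c (m (nat_lit 0x9347d0)) e)) (c
  (c (m (nat_lit 0xbc70c0)) e) e))) (c (c (c (m (nat_lit 0x4e78dc8)) (c (m (nat_lit 0x2bc4514)) e)) (c (c (p
  (nat_lit 0x277c65c)) e) e)) (c (c (c (p (nat_lit 0x46bd71c)) e) e) e))) e) e)) (c (c (c (c (c (c (m
  (nat_lit 0x39c83f4)) (c (p (nat_lit 0xe27e8c)) (c (m (nat_lit 0x22765ec)) e))) (c (c (p (nat_lit
  0x80ab328)) (c (m (nat_lit 0x244cdb8)) e)) (c (c (m (nat_lit 0x21e3760)) e) e))) (c (c (c (p (nat_lit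
  0x3f49008)) (c (p (nat_lit 0x3409c20)) e)) (c (c (m (nat_lit 0x1690908)) e) e)) (c (c (c (m (nat_lit
  0x2a35028)) e) e) e))) e) e) e))) (c (c (c (c (c (c (c (m (nat_lit 0x1ac15268)) (c (p (nat_lit 0x6f95bec))
  (c (m (nat_lit 0xbddd04)) e))) (c (c (p (nat_lit 0x17c1c480)) (c (m (nat_lit 0x429de90)) e)) (c (c (m
  (nat_lit 0x5b5cb64)) e) e))) (c (c (c (p (nat_lit 0x9bb38ba)) (c (p (nat_lit 0xf21480)) e)) (c (c (m
  (nat_lit 0x6a11348)) e) e)) (c (c (c (m (nat_lit 0x893361c)) e) e) e))) (c (c (c (c (m (nat_lit 0x45eca6))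
  (c (p (nat_lit 0x249b13c)) (c (m (nat_lit 0xb39418)) e))) (c (c (m (nat_lit 0x534b640)) (c (m (nat_lit
  0x1019964)) e)) (c (c (p (nat_lit 0x1020d20)) e) e))) (c (c (c (p (nat_lit 0x5458c86)) (c (m (nat_lit
  0x193abe0)) e)) (c (c (p (nat_lit 0x357a5c0)) e) e)) (c (c (c (p (nat_lit 0x1e6f4ec)) e) e) e))) (c (c (c
  (c (m (nat_lit 0x1873980)) (c (p (nat_lit 0xda4e88)) e)) (c (c (p (nat_lit 0x178dfc4)) e) e)) (c (c (c (m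
  (nat_lit 0x1154724)) e) e) e)) e))) (c (c (c (c (c (p (nat_lit 0xc6323a6)) (c (m (nat_lit 0x5498cb2)) (c (p
  (nat_lit 0xb099b8)) e))) (c (c (m (nat_lit 0xe64be4a)) (c (p (nat_lit 0x2f464b0)) e)) (c (c (p (nat_lit
  0x63b4d74)) e) e))) (c (c (c (p (nat_lit 0x165b3c4)) (c (m (nat_lit 0x10a3f7c)) e)) (c (c (p (nat_lit
  0x192cc60)) e) e)) (c (c (c (m (nat_lit 0x42f654)) e) e) e))) (c (c (c (c (m (nat_lit 0x22d2428)) (c (p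
  (nat_lit 0x1e3c8dc)) e)) (c (c (p (nat_lit 0x102c990)) e) e)) (c (c (c (m (nat_lit 0x1bace24)) e) e) e))
  e)) (c (c (c (c (c (p (nat_lit 0xae8c388)) (c (m (nat_lit 0x17bb774)) e)) (c (c (m (nat_lit 0x85a05e0)) e)
  e)) (c (c (c (m (nat_lit 0x13c3650)) e) e) e)) e) e))) (c (c (c (c (c (c (p (nat_lit 0x11b30ec)) (c (p
  (nat_lit 0x28a7354)) (c (m (nat_lit 0x17b7d0)) e))) (c (c (p (nat_lit 0x49d7156)) (c (m (nat_lit 0x242c10))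
  e)) (c (c (m (nat_lit 0x8f05ec)) e) e))) (c (c (c (m (nat_lit 0x91a0f8e)) (c (p (nat_lit 0x2738de4)) e)) (c
  (c (p (nat_lit 0x136df40)) e) e)) (c (c (c (p (nat_lit 0x3a24da0)) e) e) e))) (c (c (c (c (p (nat_lit
  0x14ca24c)) (c (p (nat_lit 0x1404d5c)) e)) (c (c (p (nat_lit 0x108c348)) e) e)) (c (c (c (p (nat_lit
  0x2b0fc08)) e) e) e)) e)) (c (c (c (c (c (m (nat_lit 0x7ce468)) (c (p (nat_lit 0x28695c)) e)) (c (c (p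
  (nat_lit 0x369dbd8)) e) e)) (c (c (c (p (nat_lit 0x1d8cb3c)) e) e) e)) e) e)) (c (c (c (c (c (c (p (nat_lit
  0x5facde0)) (c (m (nat_lit 0x1aa94bc)) e)) (c (c (m (nat_lit 0x5773a58)) e) e)) (c (c (c (p (nat_lit
  0x5a5f7c)) e) e) e)) e) e) e))) (c (c (c (c (c (c (c (p (nat_lit 0x168bd2b2)) (c (m (nat_lit 0x8284ad0)) (c
  (p (nat_lit 0x1135a4c)) e))) (c (c (m (nat_lit 0xdca1360)) (c (p (nat_lit 0x1e0f678)) e)) (c (c (p (nat_lit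
  0xffd704)) e) e))) (c (c (c (p (nat_lit 0x224ca12)) (c (p (nat_lit 0x219378)) e)) (c (c (p (nat_lit
  0x1ef6ec4)) e) e)) (c (c (c (p (nat_lit 0x4fad6f0)) e) e) e))) (c (c (c (c (m (nat_lit 0x25e3bb8)) (c (m
  (nat_lit 0x2a450c0)) e)) (c (c (p (nat_lit 0x8187e4)) e) e)) (c (c (c (m (nat_lit 0x7a81d06)) e) e) e)) (c
  (c (c (c (m (nat_lit 0x1729eb4)) e) e) e) e))) (c (c (c (c (c (m (nat_lit 0x113da6bc)) (c (p (nat_lit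
  0x2d7f2a2)) e)) (c (c (p (nat_lit 0x622cdfa)) e) e)) (c (c (c (p (nat_lit 0x2d3a08c)) e) e) e)) (c (c (c (c
  (p (nat_lit 0x19d2620)) e) e) e) e)) (c (c (c (c (c (m (nat_lit 0x14ea070)) e) e) e) e) e))) (c (c (c (c (c
  (c (m (nat_lit 0x2053dd6)) (c (m (nat_lit 0x81d2d8)) e)) (c (c (m (nat_lit 0x5232006)) e) e)) (c (c (c (m
  (nat_lit 0x3fdbd4a)) e) e) e)) (c (c (c (c (m (nat_lit 0x2a51288)) e) e) e) e)) (c (c (c (c (c (m (nat_lit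
  0x1549404)) e) e) e) e) e)) (c (c (c (c (c (c (m (nat_lit 0x1600d4)) e) e) e) e) e) e))) (c (c (c (c (c (c
  (c (m (nat_lit 0x420dad0)) (c (p (nat_lit 0x2052bd0)) e)) (c (c (p (nat_lit 0x14cc9d0)) e) e)) (c (c (c (m
  (nat_lit 0x39a6b48)) e) e) e)) (c (c (c (c (p (nat_lit 0x2c109ea)) e) e) e) e)) (c (c (c (c (c (p (nat_lit
  0x4b1bc42)) e) e) e) e) e)) (c (c (c (c (c (c (p (nat_lit 0x40634ee)) e) e) e) e) e) e)) (c (c (c (c (c (c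
  (c (m (nat_lit 0xf7663e)) e) e) e) e) e) e) e))))) (c (c (c (c (c (c (c (c (p (nat_lit 0x25f6d26e)) (c (m
  (nat_lit 0x980df96)) (c (m (nat_lit 0x70d370)) e))) (c (c (m (nat_lit 0x1c8e9dde)) (c (p (nat_lit
  0x336e0ac)) e)) (c (c (p (nat_lit 0x40c7004)) e) e))) (c (c (c (p (nat_lit 0x28a7bf4)) (c (p (nat_lit
  0x354438)) e)) (c (c (p (nat_lit 0x1a583b4)) e) e)) (c (c (c (m (nat_lit 0xad8f08)) e) e) e))) (c (c (c (c
  (m (nat_lit 0x47b42bc)) (c (p (nat_lit 0x55d5cb6)) (c (m (nat_lit 0x129b61c)) e))) (c (c (p (nat_lit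
  0xae8fe2)) (c (p (nat_lit 0xa4a324)) e)) (c (c (m (nat_lit 0x20688f0)) e) e))) (c (c (c (p (nat_lit
  0x3749fb8)) (c (m (nat_lit 0xd64508)) e)) (c (c (m (nat_lit 0x85656c)) e) e)) (c (c (c (m (nat_lit
  0x240db6c)) e) e) e))) (c (c (c (c (m (nat_lit 0x12a6170)) (c (m (nat_lit 0x2d8f0a0)) e)) (c (c (p (nat_lit
  0x9a8aec)) e) e)) (c (c (c (p (nat_lit 0x12575e8)) e) e) e)) e))) (c (c (c (c (c (p (nat_lit 0x75d8e40)) (c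
  (m (nat_lit 0x68b27e)) (c (p (nat_lit 0x30b62f8)) e))) (c (c (p (nat_lit 0x81c883e)) (c (p (nat_lit
  0x7b690c)) e)) (c (c (p (nat_lit 0x2535990)) e) e))) (c (c (c (p (nat_lit 0xc10ccf2)) (c (p (nat_lit
  0x1e54e28)) e)) (c (c (p (nat_lit 0x70af04)) e) e)) (c (c (c (p (nat_lit 0x463428)) e) e) e))) (c (c (c (c
  (m (nat_lit 0x21c66d8)) (c (m (nat_lit 0xf1a88)) e)) (c (c (m (nat_lit 0x4de650)) e) e)) (c (c (c (m
  (nat_lit 0x199cc44)) e) e) e)) e)) (c (c (c (c (c (m (nat_lit 0xd24b54)) (c (m (nat_lit 0x1d81ff4)) e)) (c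
  (c (p (nat_lit 0x20ec0d4)) e) e)) (c (c (c (m (nat_lit 0x1d4f7bc)) e) e) e)) e) e))) (c (c (c (c (c (c (m
  (nat_lit 0x48705c0)) (c (m (nat_lit 0x41f6292)) (c (p (nat_lit 0xac88b8)) e))) (c (c (m (nat_lit
  0x384b4f6)) (c (m (nat_lit 0x458c7c)) e)) (c (c (p (nat_lit 0x96e8b0)) e) e))) (c (c (c (m (nat_lit
  0x6b23ec)) (c (m (nat_lit 0x5ec254)) e)) (c (c (m (nat_lit 0x6cc18c)) e) e)) (c (c (c (m (nat_lit
  0x1fd77c8)) e) e) e))) (c (c (c (c (p (nat_lit 0x3852c90)) (c (p (nat_lit 0x238cecc)) e)) (c (c (m (nat_lit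
  0xcb8164)) e) e)) (c (c (c (p (nat_lit 0x45f9c0)) e) e) e)) e)) (c (c (c (c (c (p (nat_lit 0x11b4a18)) (c
  (m (nat_lit 0x2ab2704)) e)) (c (c (m (nat_lit 0x401afc)) e) e)) (c (c (c (m (nat_lit 0x170a9c0)) e) e) e))
  e) e)) (c (c (c (c (c (c (p (nat_lit 0x165c5b8)) (c (p (nat_lit 0x1d8167c)) e)) (c (c (m (nat_lit
  0x22e20e8)) e) e)) (c (c (c (p (nat_lit 0x153b400)) e) e) e)) e) e) e))) (c (c (c (c (c (c (c (m (nat_lit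
  0x16cab4e8)) (c (p (nat_lit 0xa529e26)) (c (p (nat_lit 0x7cedec)) e))) (c (c (p (nat_lit 0x82a761e)) (c (m
  (nat_lit 0x2472dbc)) e)) (c (c (m (nat_lit 0x1bf43a4)) e) e))) (c (c (c (m (nat_lit 0x95eb36)) (c (m
  (nat_lit 0x1a8e510)) e)) (c (c (m (nat_lit 0xe7444)) e) e)) (c (c (c (p (nat_lit 0x126e694)) e) e) e))) (c
  (c (c (c (p (nat_lit 0xe4010c8)) (c (m (nat_lit 0xe04126)) e)) (c (c (m (nat_lit 0x265ed56)) e) e)) (c (c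
  (c (m (nat_lit 0x1812804)) e) e) e)) (c (c (c (c (m (nat_lit 0xd583b8)) e) e) e) e))) (c (c (c (c (c (m
  (nat_lit 0x9b2486e)) (c (m (nat_lit 0x2999d36)) e)) (c (c (p (nat_lit 0x3322242)) e) e)) (c (c (c (m
  (nat_lit 0x4c6f32c)) e) e) e)) (c (c (c (c (m (nat_lit 0x2f3538)) e) e) e) e)) (c (c (c (c (c (m (nat_lit
  0x9b0784)) e) e) e) e) e))) (c (c (c (c (c (c (p (nat_lit 0x3ba7200)) (c (m (nat_lit 0x333dce)) e)) (c (c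
  (m (nat_lit 0x1e02082)) e) e)) (c (c (c (m (nat_lit 0x3ca23c)) e) e) e)) (c (c (c (c (m (nat_lit
  0x1a5af40)) e) e) e) e)) (c (c (c (c (c (m (nat_lit 0x13945bc)) e) e) e) e) e)) (c (c (c (c (c (c (p
  (nat_lit 0xcf825c)) e) e) e) e) e) e))) (c (c (c (c (c (c (c (p (nat_lit 0x940edf8)) (c (m (nat_lit
  0x4780ec)) e)) (c (c (m (nat_lit 0x76adba)) e) e)) (c (c (c (p (nat_lit 0xa554)) e) e) e)) (c (c (c (c (m
  (nat_lit 0x5c7d9c8)) e) e) e) e)) (c (c (c (c (c (m (nat_lit 0x8dba42)) e) e) e) e) e)) (c (c (c (c (c (c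
  (m (nat_lit 0x7a5b6c)) e) e) e) e) e) e)) (c (c (c (c (c (c (c (m (nat_lit 0xb30a6c)) e) e) e) e) e) e)
  e)))) (c (c (c (c (c (c (c (c (m (nat_lit 0x36fa47a2)) (c (p (nat_lit 0xe9107d4)) (c (m (nat_lit
  0x17b2630)) e))) (c (c (p (nat_lit 0x146e0e8a)) (c (m (nat_lit 0x2a841e0)) e)) (c (c (m (nat_lit
  0x2d7a034)) e) e))) (c (c (c (p (nat_lit 0x100339e)) (c (p (nat_lit 0x144b3dc)) e)) (c (c (m (nat_lit
  0x77a5e8)) e) e)) (c (c (c (m (nat_lit 0x5410bc)) e) e) e))) (c (c (c (c (p (nat_lit 0xaab490a)) (c (p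
  (nat_lit 0x9683d0)) e)) (c (c (p (nat_lit 0x2705268)) e) e)) (c (c (c (p (nat_lit 0x16fb84c)) e) e) e)) (c
  (c (c (c (p (nat_lit 0x17461a4)) e) e) e) e))) (c (c (c (c (c (m (nat_lit 0x1afbfd1c)) (c (m (nat_lit
  0xfce0a0)) e)) (c (c (m (nat_lit 0x95c6bc8)) e) e)) (c (c (c (m (nat_lit 0x1b76356)) e) e) e)) (c (c (c (c
  (p (nat_lit 0x415ae80)) e) e) e) e)) (c (c (c (c (c (p (nat_lit 0x731058)) e) e) e) e) e))) (c (c (c (c (c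
  (c (p (nat_lit 0x8d9d560)) (c (p (nat_lit 0xe78124)) e)) (c (c (p (nat_lit 0x4b57f78)) e) e)) (c (c (c (p
  (nat_lit 0xa425b4)) e) e) e)) (c (c (c (c (m (nat_lit 0x2bf335c)) e) e) e) e)) (c (c (c (c (c (m (nat_lit
  0x248b5c)) e) e) e) e) e)) (c (c (c (c (c (c (m (nat_lit 0x1c9659c)) e) e) e) e) e) e))) (c (c (c (c (c (c
  (c (p (nat_lit 0x1b49a298)) (c (m (nat_lit 0x3d0fc74)) e)) (c (c (p (nat_lit 0x76c344)) e) e)) (c (c (c (p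
  (nat_lit 0x9db690)) e) e) e)) (c (c (c (c (m (nat_lit 0x4db1cca)) e) e) e) e)) (c (c (c (c (c (p (nat_lit
  0x45b7480)) e) e) e) e) e)) (c (c (c (c (c (c (m (nat_lit 0x1c899b4)) e) e) e) e) e) e)) (c (c (c (c (c (c
  (c (m (nat_lit 0x58584fc)) e) e) e) e) e) e) e))) (c (c (c (c (c (c (c (c (p (nat_lit 0xff36fa2)) (c (m
  (nat_lit 0x35ddc8c)) e)) (c (c (m (nat_lit 0x61c6ee4)) e) e)) (c (c (c (m (nat_lit 0xf29c7c)) e) e) e)) (c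
  (c (c (c (m (nat_lit 0x8565c60)) e) e) e) e)) (c (c (c (c (c (p (nat_lit 0xdbc41e8)) e) e) e) e) e)) (c (c
  (c (c (c (c (m (nat_lit 0x13390d4)) e) e) e) e) e) e)) (c (c (c (c (c (c (c (m (nat_lit 0x2188710)) e) e)
  e) e) e) e) e)) (c (c (c (c (c (c (c (c (p (nat_lit 0x24f2bce)) e) e) e) e) e) e) e) e))))) (c (c (c (c (c
  (c (c (c (c (m (nat_lit 0xfa254c)) (c (m (nat_lit 0x29c2170)) (c (m (nat_lit 0x5427b10)) e))) (c (c (m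
  (nat_lit 0x8016ccc)) (c (m (nat_lit 0x3bd924)) e)) (c (c (p (nat_lit 0x4d4423c)) e) e))) (c (c (c (p
  (nat_lit 0x8d6ab18)) (c (p (nat_lit 0xcbcef8)) e)) (c (c (m (nat_lit 0x20a7b78)) e) e)) (c (c (c (m
  (nat_lit 0x6ef7234)) e) e) e))) (c (c (c (c (m (nat_lit 0x99a64f4)) (c (p (nat_lit 0x1dec788)) (c (p
  (nat_lit 0x24cb97c)) e))) (c (c (p (nat_lit 0x718d0a0)) (c (m (nat_lit 0x14ff478)) e)) (c (c (m (nat_lit
  0x13fa49c)) e) e))) (c (c (c (m (nat_lit 0x7a25960)) (c (m (nat_lit 0x103e6e4)) e)) (c (c (m (nat_lit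
  0x59f718)) e) e)) (c (c (c (p (nat_lit 0x3204e70)) e) e) e))) (c (c (c (c (p (nat_lit 0x4792e30)) (c (p
  (nat_lit 0x1a9d444)) e)) (c (c (p (nat_lit 0x1166250)) e) e)) (c (c (c (p (nat_lit 0x3594924)) e) e) e))
  e))) (c (c (c (c (c (p (nat_lit 0x861d398)) (c (m (nat_lit 0x2d3ffd8)) (c (m (nat_lit 0x1181b74)) e))) (c
  (c (m (nat_lit 0x68cb170)) (c (p (nat_lit 0x1532808)) e)) (c (c (p (nat_lit 0x622d55c)) e) e))) (c (c (c (p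
  (nat_lit 0x2d9fa74)) (c (p (nat_lit 0xcd05f0)) e)) (c (c (p (nat_lit 0x2dbac0)) e) e)) (c (c (c (m (nat_lit
  0x6ce19c)) e) e) e))) (c (c (c (c (m (nat_lit 0xb0abac)) (c (p (nat_lit 0x6d158)) e)) (c (c (p (nat_lit
  0x237cc90)) e) e)) (c (c (c (m (nat_lit 0x79fff8)) e) e) e)) e)) (c (c (c (c (c (m (nat_lit 0x2d73944)) (c
  (p (nat_lit 0x1aff6d0)) e)) (c (c (m (nat_lit 0x1863e04)) e) e)) (c (c (c (m (nat_lit 0x6f4b0)) e) e) e))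
  e) e))) (c (c (c (c (c (c (m (nat_lit 0x557ab4)) (c (m (nat_lit 0x4407870)) (c (m (nat_lit 0xd889d0)) e)))
  (c (c (p (nat_lit 0x5710d4)) (c (p (nat_lit 0x1a1fc3c)) e)) (c (c (m (nat_lit 0x2d3d794)) e) e))) (c (c (c
  (p (nat_lit 0x389550c)) (c (p (nat_lit 0x1111cd4)) e)) (c (c (p (nat_lit 0x64e834)) e) e)) (c (c (c (m
  (nat_lit 0x9d07e8)) e) e) e))) (c (c (c (c (p (nat_lit 0x36e3f4)) (c (m (nat_lit 0x861660)) e)) (c (c (m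
  (nat_lit 0x887958)) e) e)) (c (c (c (m (nat_lit 0x61f6a4)) e) e) e)) e)) (c (c (c (c (c (m (nat_lit
  0x25a88cc)) (c (m (nat_lit 0x93af68)) e)) (c (c (m (nat_lit 0x7789f8)) e) e)) (c (c (c (p (nat_lit
  0x140a93c)) e) e) e)) e) e)) (c (c (c (c (c (c (p (nat_lit 0x3624954)) (c (p (nat_lit 0xe6b038)) e)) (c (c
  (m (nat_lit 0x29910c)) e) e)) (c (c (c (m (nat_lit 0xbae4d8)) e) e) e)) e) e) e))) (c (c (c (c (c (c (c (p
  (nat_lit 0x22efb3a)) (c (p (nat_lit 0x41f3d3c)) (c (m (nat_lit 0x4f5d74)) e))) (c (c (m (nat_lit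
  0x127f392)) (c (p (nat_lit 0x1a25b28)) e)) (c (c (m (nat_lit 0xf00a8c)) e) e))) (c (c (c (m (nat_lit
  0x96ac98)) (c (m (nat_lit 0x19f0b0)) e)) (c (c (m (nat_lit 0x1268b98)) e) e)) (c (c (c (m (nat_lit
  0x22dbbf0)) e) e) e))) (c (c (c (c (p (nat_lit 0xd45a4fc)) (c (m (nat_lit 0x161f400)) e)) (c (c (m (nat_lit
  0x2a863e8)) e) e)) (c (c (c (m (nat_lit 0x147ac80)) e) e) e)) (c (c (c (c (m (nat_lit 0x2daaea4)) e) e) e)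
  e))) (c (c (c (c (c (p (nat_lit 0x474c12)) (c (m (nat_lit 0x202d76c)) e)) (c (c (m (nat_lit 0x236673c)) e)
  e)) (c (c (c (m (nat_lit 0x2efdf7c)) e) e) e)) (c (c (c (c (p (nat_lit 0x2b368c)) e) e) e) e)) (c (c (c (c
  (c (p (nat_lit 0x1836ac8)) e) e) e) e) e))) (c (c (c (c (c (c (m (nat_lit 0x71c9226)) (c (p (nat_lit
  0x1a406b4)) e)) (c (c (p (nat_lit 0x2c0a2d0)) e) e)) (c (c (c (p (nat_lit 0xfe9898)) e) e) e)) (c (c (c (c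
  (m (nat_lit 0x77580)) e) e) e) e)) (c (c (c (c (c (m (nat_lit 0x4a16c)) e) e) e) e) e)) (c (c (c (c (c (c
  (m (nat_lit 0x74c9e8)) e) e) e) e) e) e))) (c (c (c (c (c (c (c (m (nat_lit 0xc60a4fa)) (c (m (nat_lit
  0xa68ca8)) e)) (c (c (p (nat_lit 0x22d02e)) e) e)) (c (c (c (p (nat_lit 0x2ee147c)) e) e) e)) (c (c (c (c
  (p (nat_lit 0x11e0b60)) e) e) e) e)) (c (c (c (c (c (m (nat_lit 0x8d10b6)) e) e) e) e) e)) (c (c (c (c (c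
  (c (p (nat_lit 0x3e252a6)) e) e) e) e) e) e)) (c (c (c (c (c (c (c (p (nat_lit 0x1d49e28)) e) e) e) e) e)
  e) e)))) (c (c (c (c (c (c (c (c (p (nat_lit 0xde08b20)) (c (p (nat_lit 0x1aa174c)) (c (p (nat_lit
  0x148df4)) e))) (c (c (m (nat_lit 0x392f9ca)) (c (m (nat_lit 0x5e9e0c)) e)) (c (c (p (nat_lit 0xec838)) e)
  e))) (c (c (c (m (nat_lit 0x78715ec)) (c (m (nat_lit 0x71cbd4)) e)) (c (c (p (nat_lit 0x1cadc)) e) e)) (c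
  (c (c (p (nat_lit 0x11e3848)) e) e) e))) (c (c (c (c (p (nat_lit 0x660ac1a)) (c (m (nat_lit 0x33feed4)) e))
  (c (c (p (nat_lit 0xc76554)) e) e)) (c (c (c (p (nat_lit 0xa5b904)) e) e) e)) (c (c (c (c (m (nat_lit
  0x2f67f3c)) e) e) e) e))) (c (c (c (c (c (m (nat_lit 0xc7d8d64)) (c (m (nat_lit 0x11f6f4)) e)) (c (c (p
  (nat_lit 0x42b2f08)) e) e)) (c (c (c (m (nat_lit 0x54b5a4)) e) e) e)) (c (c (c (c (p (nat_lit 0x1864710))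
  e) e) e) e)) (c (c (c (c (c (p (nat_lit 0x1993890)) e) e) e) e) e))) (c (c (c (c (c (c (p (nat_lit
  0x749a5a)) (c (p (nat_lit 0x1cd60ac)) e)) (c (c (p (nat_lit 0x867960)) e) e)) (c (c (c (m (nat_lit
  0x5463fc)) e) e) e)) (c (c (c (c (p (nat_lit 0x457b24)) e) e) e) e)) (c (c (c (c (c (p (nat_lit 0x18cbbbc))
  e) e) e) e) e)) (c (c (c (c (c (c (m (nat_lit 0x165867c)) e) e) e) e) e) e))) (c (c (c (c (c (c (c (m
  (nat_lit 0x3e09742)) (c (p (nat_lit 0x65a1da)) e)) (c (c (p (nat_lit 0x1b1a0d0)) e) e)) (c (c (c (p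
  (nat_lit 0x2b6c0c2)) e) e) e)) (c (c (c (c (p (nat_lit 0x145b38a)) e) e) e) e)) (c (c (c (c (c (p (nat_lit
  0x78511e)) e) e) e) e) e)) (c (c (c (c (c (c (m (nat_lit 0x604416)) e) e) e) e) e) e)) (c (c (c (c (c (c (c
  (m (nat_lit 0x116131e)) e) e) e) e) e) e) e))) (c (c (c (c (c (c (c (c (p (nat_lit 0x2c47f8)) (c (p
  (nat_lit 0xc9f25e)) e)) (c (c (p (nat_lit 0x46c819e)) e) e)) (c (c (c (p (nat_lit 0x15e0fca)) e) e) e)) (c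
  (c (c (c (m (nat_lit 0x43f8900)) e) e) e) e)) (c (c (c (c (c (p (nat_lit 0x3237bd6)) e) e) e) e) e)) (c (c
  (c (c (c (c (m (nat_lit 0x102fa68)) e) e) e) e) e) e)) (c (c (c (c (c (c (c (m (nat_lit 0x2bbf86a)) e) e)
  e) e) e) e) e)) (c (c (c (c (c (c (c (c (m (nat_lit 0x33395d6)) e) e) e) e) e) e) e) e)))) (c (c (c (c (c
  (c (c (c (c (p (nat_lit 0x343f020)) (c (p (nat_lit 0x524607c)) (c (p (nat_lit 0x2229e7c)) e))) (c (c (p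
  (nat_lit 0x3f54f9c)) (c (m (nat_lit 0x47ba7c)) e)) (c (c (m (nat_lit 0x36924f0)) e) e))) (c (c (c (m
  (nat_lit 0xab06738)) (c (m (nat_lit 0x1b72c00)) e)) (c (c (p (nat_lit 0x1a436fc)) e) e)) (c (c (c (p
  (nat_lit 0x6012714)) e) e) e))) (c (c (c (c (m (nat_lit 0x2f94d14)) (c (p (nat_lit 0x38abac0)) e)) (c (c (m
  (nat_lit 0x5c60d0)) e) e)) (c (c (c (m (nat_lit 0x203d00c)) e) e) e)) (c (c (c (c (p (nat_lit 0xfc5d24)) e)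
  e) e) e))) (c (c (c (c (c (m (nat_lit 0x1cbab18)) (c (m (nat_lit 0x1fd28c)) e)) (c (c (p (nat_lit
  0x1cf6d88)) e) e)) (c (c (c (p (nat_lit 0x31d10)) e) e) e)) (c (c (c (c (p (nat_lit 0xc7761c)) e) e) e) e))
  (c (c (c (c (c (m (nat_lit 0x1dd354)) e) e) e) e) e))) (c (c (c (c (c (c (m (nat_lit 0x284eb78)) (c (p
  (nat_lit 0x1513128)) e)) (c (c (p (nat_lit 0xb91ec4)) e) e)) (c (c (c (m (nat_lit 0xd59618)) e) e) e)) (c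
  (c (c (c (m (nat_lit 0xc28704)) e) e) e) e)) (c (c (c (c (c (p (nat_lit 0x14beaec)) e) e) e) e) e)) (c (c
  (c (c (c (c (m (nat_lit 0xd35594)) e) e) e) e) e) e))) (c (c (c (c (c (c (c (p (nat_lit 0x2eaccf4)) (c (m
  (nat_lit 0x1c69ce0)) e)) (c (c (m (nat_lit 0x535be4)) e) e)) (c (c (c (m (nat_lit 0x2121f0)) e) e) e)) (c
  (c (c (c (m (nat_lit 0x115aec8)) e) e) e) e)) (c (c (c (c (c (p (nat_lit 0x29fc10c)) e) e) e) e) e)) (c (c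
  (c (c (c (c (p (nat_lit 0x1abc8d8)) e) e) e) e) e) e)) (c (c (c (c (c (c (c (p (nat_lit 0x1cb6dd4)) e) e)
  e) e) e) e) e))) (c (c (c (c (c (c (c (c (m (nat_lit 0x36ae48c)) (c (m (nat_lit 0x2434464)) e)) (c (c (m
  (nat_lit 0xe32bb4)) e) e)) (c (c (c (p (nat_lit 0x1a9400)) e) e) e)) (c (c (c (c (m (nat_lit 0x2693c70)) e)
  e) e) e)) (c (c (c (c (c (m (nat_lit 0x36759c)) e) e) e) e) e)) (c (c (c (c (c (c (p (nat_lit 0x7db368)) e)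
  e) e) e) e) e)) (c (c (c (c (c (c (c (p (nat_lit 0x119ee2a)) e) e) e) e) e) e) e)) (c (c (c (c (c (c (c (c
  (p (nat_lit 0x2d57366)) e) e) e) e) e) e) e) e))) (c (c (c (c (c (c (c (c (c (p (nat_lit 0x15c5bf8)) (c (m
  (nat_lit 0x223a37c)) e)) (c (c (m (nat_lit 0x1294da0)) e) e)) (c (c (c (p (nat_lit 0x1698fd8)) e) e) e)) (c
  (c (c (c (p (nat_lit 0x1a5d3f4)) e) e) e) e)) (c (c (c (c (c (p (nat_lit 0x26096b8)) e) e) e) e) e)) (c (c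
  (c (c (c (c (m (nat_lit 0x40e348)) e) e) e) e) e) e)) (c (c (c (c (c (c (c (m (nat_lit 0x2e71b64)) e) e) e)
  e) e) e) e)) (c (c (c (c (c (c (c (c (p (nat_lit 0x5925c0)) e) e) e) e) e) e) e) e)) (c (c (c (c (c (c (c
  (c (c (m (nat_lit 0x77c454)) e) e) e) e) e) e) e) e) e)))))

noncomputable def gt_1_1_6 : Tr :=
  (c (c (c (c (c (c (c (c (c (m (nat_lit 0x3148710)) (c (p (nat_lit 0x6b7a7a0)) (c (m (nat_lit 0x13bd704))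
  e))) (c (c (m (nat_lit 0x1509a68)) (c (p (nat_lit 0xb8080)) e)) (c (c (p (nat_lit 0xcbfa3c)) e) e))) (c (c
  (c (p (nat_lit 0x51eb5b4)) (c (m (nat_lit 0x3015a98)) e)) (c (c (p (nat_lit 0x18c3174)) e) e)) (c (c (c (m
  (nat_lit 0x3e73bd0)) e) e) e))) (c (c (c (c (m (nat_lit 0x305544c)) (c (p (nat_lit 0x4b99690)) (c (p
  (nat_lit 0x1a9ac00)) e))) (c (c (p (nat_lit 0x754338)) (c (m (nat_lit 0x32de148)) e)) (c (c (m (nat_lit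
  0x1f4f760)) e) e))) (c (c (c (p (nat_lit 0x7e692a0)) (c (m (nat_lit 0x19f398c)) e)) (c (c (p (nat_lit
  0x2c44590)) e) e)) (c (c (c (m (nat_lit 0x44f3df0)) e) e) e))) (c (c (c (c (p (nat_lit 0x1897ec)) (c (p
  (nat_lit 0x1dc6a00)) (c (m (nat_lit 0x2e95c)) e))) (c (c (p (nat_lit 0x249bdf0)) (c (m (nat_lit 0x2225844))
  e)) (c (c (p (nat_lit 0x1f38ff0)) e) e))) (c (c (c (m (nat_lit 0x771ca74)) (c (p (nat_lit 0x56a618)) e)) (c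
  (c (p (nat_lit 0x20d22ec)) e) e)) (c (c (c (p (nat_lit 0x30cf75c)) e) e) e))) e))) (c (c (c (c (c (m
  (nat_lit 0x23ab688)) (c (p (nat_lit 0x3f4ae98)) (c (p (nat_lit 0x37839c)) e))) (c (c (p (nat_lit
  0xb5d80bc)) (c (m (nat_lit 0x4e5d648)) e)) (c (c (m (nat_lit 0x3f2cdb4)) e) e))) (c (c (c (m (nat_lit
  0x5a0d1c4)) (c (m (nat_lit 0x1194660)) e)) (c (c (m (nat_lit 0x14cbc2c)) e) e)) (c (c (c (p (nat_lit
  0x42e8698)) e) e) e))) (c (c (c (c (p (nat_lit 0x18f6234)) (c (m (nat_lit 0x2d8f76c)) (c (p (nat_lit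
  0x8f64c)) e))) (c (c (m (nat_lit 0x42db09c)) (c (p (nat_lit 0x31ec2a0)) e)) (c (c (p (nat_lit 0x11cabf4))
  e) e))) (c (c (c (m (nat_lit 0x81f834)) (c (m (nat_lit 0xaaf70)) e)) (c (c (m (nat_lit 0x2ba2b0)) e) e)) (c
  (c (c (p (nat_lit 0x12a7634)) e) e) e))) e)) (c (c (c (c (c (p (nat_lit 0x3569f40)) (c (m (nat_lit
  0x9859764)) (c (p (nat_lit 0x4ecfc48)) e))) (c (c (m (nat_lit 0x1329dbc)) (c (m (nat_lit 0x930780)) e)) (c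
  (c (p (nat_lit 0x2da3a4)) e) e))) (c (c (c (p (nat_lit 0x2ed6b80)) (c (p (nat_lit 0x255b214)) e)) (c (c (m
  (nat_lit 0x30b91fc)) e) e)) (c (c (c (m (nat_lit 0x2cebe7c)) e) e) e))) e) e))) (c (c (c (c (c (c (p
  (nat_lit 0x2677320)) (c (m (nat_lit 0x9d45b90)) (c (p (nat_lit 0x4246cb0)) e))) (c (c (m (nat_lit
  0x13f77c0)) (c (m (nat_lit 0x2a98a90)) e)) (c (c (m (nat_lit 0x3548cdc)) e) e))) (c (c (c (p (nat_lit
  0x14695e0)) (c (p (nat_lit 0x1aa9990)) e)) (c (c (p (nat_lit 0x1d7ea24)) e) e)) (c (c (c (p (nat_lit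
  0x9fb064)) e) e) e))) (c (c (c (c (m (nat_lit 0x1e54630)) (c (p (nat_lit 0x40203b4)) (c (m (nat_lit
  0x721158)) e))) (c (c (m (nat_lit 0x37f4e14)) (c (p (nat_lit 0x1d236c8)) e)) (c (c (p (nat_lit 0x127b15c))
  e) e))) (c (c (c (p (nat_lit 0x52c2aa4)) (c (m (nat_lit 0x1dc17e0)) e)) (c (c (p (nat_lit 0x21d926c)) e)
  e)) (c (c (c (m (nat_lit 0x3223230)) e) e) e))) e)) (c (c (c (c (c (m (nat_lit 0x1ae97b8)) (c (p (nat_lit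
  0x32d7140)) (c (m (nat_lit 0x80b11c)) e))) (c (c (p (nat_lit 0x3045990)) (c (m (nat_lit 0x109ac58)) e)) (c
  (c (m (nat_lit 0x2382a80)) e) e))) (c (c (c (m (nat_lit 0x192c120)) (c (m (nat_lit 0x10fe3a8)) e)) (c (c (p
  (nat_lit 0x18ac4d0)) e) e)) (c (c (c (p (nat_lit 0x18e67c)) e) e) e))) e) e)) (c (c (c (c (c (c (p (nat_lit
  0x1d0badc)) (c (m (nat_lit 0x61c5fcc)) (c (p (nat_lit 0x13e5d6c)) e))) (c (c (p (nat_lit 0x7be70)) (c (p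
  (nat_lit 0x1a7d44c)) e)) (c (c (p (nat_lit 0x79c35c)) e) e))) (c (c (c (p (nat_lit 0x1eeae34)) (c (p
  (nat_lit 0x132e538)) e)) (c (c (m (nat_lit 0x2769840)) e) e)) (c (c (c (p (nat_lit 0xa836cc)) e) e) e))) e)
  e) e))) (c (c (c (c (c (c (c (m (nat_lit 0x5a58e0)) (c (m (nat_lit 0x8b39ae2)) (c (p (nat_lit 0xf97674))
  e))) (c (c (p (nat_lit 0x26976c0)) (c (m (nat_lit 0x150f84)) e)) (c (c (p (nat_lit 0x104c7f0)) e) e))) (c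
  (c (c (p (nat_lit 0x54ae21c)) (c (m (nat_lit 0x1353d50)) e)) (c (c (m (nat_lit 0x37a1600)) e) e)) (c (c (c
  (m (nat_lit 0x41b19ac)) e) e) e))) (c (c (c (c (m (nat_lit 0x49f0a64)) (c (p (nat_lit 0x58ea146)) (c (m
  (nat_lit 0x28e8ebc)) e))) (c (c (p (nat_lit 0x19fb15c)) (c (m (nat_lit 0x127764c)) e)) (c (c (m (nat_lit
  0x1ca7870)) e) e))) (c (c (c (p (nat_lit 0x29ff94c)) (c (m (nat_lit 0x1248b94)) e)) (c (c (p (nat_lit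
  0x11ae85c)) e) e)) (c (c (c (p (nat_lit 0x318ee8c)) e) e) e))) (c (c (c (c (p (nat_lit 0x10c8180)) (c (p
  (nat_lit 0xf35b98)) e)) (c (c (m (nat_lit 0x1c14330)) e) e)) (c (c (c (p (nat_lit 0x3446c94)) e) e) e))
  e))) (c (c (c (c (c (p (nat_lit 0x3c33bca)) (c (p (nat_lit 0x737507a)) (c (m (nat_lit 0x3eb9da0)) e))) (c
  (c (m (nat_lit 0x64c9e2a)) (c (p (nat_lit 0x22db524)) e)) (c (c (p (nat_lit 0x155f5b0)) e) e))) (c (c (c (m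
  (nat_lit 0x1cc1502)) (c (m (nat_lit 0x10a91c0)) e)) (c (c (p (nat_lit 0x1f53d38)) e) e)) (c (c (c (m
  (nat_lit 0x1e83478)) e) e) e))) (c (c (c (c (m (nat_lit 0x109e39c)) (c (m (nat_lit 0x384180)) e)) (c (c (m
  (nat_lit 0x6aaac)) e) e)) (c (c (c (m (nat_lit 0x627e88)) e) e) e)) e)) (c (c (c (c (c (m (nat_lit
  0xd4118c0)) (c (p (nat_lit 0x5928e40)) e)) (c (c (p (nat_lit 0x2b5582c)) e) e)) (c (c (c (p (nat_lit
  0x2a6d920)) e) e) e)) e) e))) (c (c (c (c (c (c (p (nat_lit 0x37e61fe)) (c (m (nat_lit 0x4247010)) (c (p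
  (nat_lit 0x41967c)) e))) (c (c (m (nat_lit 0x1060c3e)) (c (p (nat_lit 0x19c1cb8)) e)) (c (c (m (nat_lit
  0xd46b38)) e) e))) (c (c (c (m (nat_lit 0x3a6c86c)) (c (p (nat_lit 0x22c93f8)) e)) (c (c (m (nat_lit
  0x272bbc)) e) e)) (c (c (c (p (nat_lit 0x1e4ca1c)) e) e) e))) (c (c (c (c (p (nat_lit 0x6cf8184)) (c (m
  (nat_lit 0x26a9180)) e)) (c (c (p (nat_lit 0x80e698)) e) e)) (c (c (c (m (nat_lit 0xde2484)) e) e) e)) e))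
  (c (c (c (c (c (p (nat_lit 0x88d67c0)) (c (m (nat_lit 0x349d6e8)) e)) (c (c (m (nat_lit 0x23293f8)) e) e))
  (c (c (c (m (nat_lit 0x163a460)) e) e) e)) e) e)) (c (c (c (c (c (c (m (nat_lit 0x86077b0)) (c (p (nat_lit
  0x359aa14)) e)) (c (c (p (nat_lit 0x279bad8)) e) e)) (c (c (c (p (nat_lit 0x2af810)) e) e) e)) e) e) e)))
  (c (c (c (c (c (c (c (m (nat_lit 0xa9327ce)) (c (p (nat_lit 0x2881818)) (c (p (nat_lit 0x2e7790c)) e))) (c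
  (c (p (nat_lit 0x28aa)) (c (p (nat_lit 0x26f0490)) e)) (c (c (p (nat_lit 0xf258cc)) e) e))) (c (c (c (p
  (nat_lit 0x94ba320)) (c (p (nat_lit 0x31cfb48)) e)) (c (c (m (nat_lit 0x1b0b280)) e) e)) (c (c (c (p
  (nat_lit 0x7889f4)) e) e) e))) (c (c (c (c (p (nat_lit 0x8e5fe88)) (c (m (nat_lit 0x66e0f5e)) e)) (c (c (m
  (nat_lit 0x1310da8)) e) e)) (c (c (c (m (nat_lit 0x8a2d600)) e) e) e)) (c (c (c (c (m (nat_lit 0x1ab91f4))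
  e) e) e) e))) (c (c (c (c (c (p (nat_lit 0x82f1352)) (c (m (nat_lit 0x535bbfa)) e)) (c (c (p (nat_lit
  0x12c222)) e) e)) (c (c (c (p (nat_lit 0x37009da)) e) e) e)) (c (c (c (c (p (nat_lit 0x8a5268)) e) e) e)
  e)) (c (c (c (c (c (p (nat_lit 0x16cd4fc)) e) e) e) e) e))) (c (c (c (c (c (c (m (nat_lit 0x58e2ea4)) (c (p
  (nat_lit 0x189b298)) e)) (c (c (p (nat_lit 0x2d14466)) e) e)) (c (c (c (m (nat_lit 0x1e1368c)) e) e) e)) (c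
  (c (c (c (m (nat_lit 0x2a27660)) e) e) e) e)) (c (c (c (c (c (m (nat_lit 0x214fde8)) e) e) e) e) e)) (c (c
  (c (c (c (c (p (nat_lit 0x381a98c)) e) e) e) e) e) e))) (c (c (c (c (c (c (c (p (nat_lit 0x5e9ac16)) (c (m
  (nat_lit 0x23665e)) e)) (c (c (m (nat_lit 0x1305252)) e) e)) (c (c (c (m (nat_lit 0x6a6a7a8)) e) e) e)) (c
  (c (c (c (p (nat_lit 0xb4159c)) e) e) e) e)) (c (c (c (c (c (m (nat_lit 0x230a720)) e) e) e) e) e)) (c (c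
  (c (c (c (c (p (nat_lit 0x28315f2)) e) e) e) e) e) e)) (c (c (c (c (c (c (c (m (nat_lit 0x21ad0a0)) e) e)
  e) e) e) e) e))))) (c (c (c (c (c (c (c (c (m (nat_lit 0x16eefb3e)) (c (m (nat_lit 0x13042668)) (c (p
  (nat_lit 0x4e0cf0)) e))) (c (c (m (nat_lit 0x23a79e6)) (c (p (nat_lit 0x476568c)) e)) (c (c (p (nat_lit
  0x4831518)) e) e))) (c (c (c (p (nat_lit 0x727ee88)) (c (p (nat_lit 0x3a1c9e8)) e)) (c (c (p (nat_lit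
  0x1fc2900)) e) e)) (c (c (c (m (nat_lit 0x55401c)) e) e) e))) (c (c (c (c (p (nat_lit 0xf338a00)) (c (p
  (nat_lit 0x2cbc6f8)) (c (m (nat_lit 0x12b1144)) e))) (c (c (m (nat_lit 0x5eb4416)) (c (p (nat_lit
  0x7f43c4)) e)) (c (c (p (nat_lit 0x1386f3c)) e) e))) (c (c (c (m (nat_lit 0x8f7f096)) (c (p (nat_lit
  0x10c6050)) e)) (c (c (p (nat_lit 0x1aa450)) e) e)) (c (c (c (p (nat_lit 0x1bfd398)) e) e) e))) (c (c (c (c
  (p (nat_lit 0x2f9178)) (c (p (nat_lit 0x1aaa518)) e)) (c (c (m (nat_lit 0x6b24f4)) e) e)) (c (c (c (p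
  (nat_lit 0x1e9ed3c)) e) e) e)) e))) (c (c (c (c (c (p (nat_lit 0xbcfe56)) (c (m (nat_lit 0x4dd9dc8)) (c (m
  (nat_lit 0x12015f0)) e))) (c (c (m (nat_lit 0x300dd2e)) (c (p (nat_lit 0x5ac744)) e)) (c (c (p (nat_lit
  0x2d5c04)) e) e))) (c (c (c (p (nat_lit 0x5bd86c2)) (c (m (nat_lit 0x718d64)) e)) (c (c (p (nat_lit
  0x1530480)) e) e)) (c (c (c (m (nat_lit 0x1c40064)) e) e) e))) (c (c (c (c (m (nat_lit 0x4c53f30)) (c (p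
  (nat_lit 0x1ce0fb4)) e)) (c (c (p (nat_lit 0x2ff49c)) e) e)) (c (c (c (p (nat_lit 0x1f744ec)) e) e) e)) e))
  (c (c (c (c (c (m (nat_lit 0x509d6cc)) (c (p (nat_lit 0x60ba30)) e)) (c (c (p (nat_lit 0x64ce48)) e) e)) (c
  (c (c (p (nat_lit 0x80c9b8)) e) e) e)) e) e))) (c (c (c (c (c (c (p (nat_lit 0x918d42e)) (c (p (nat_lit
  0x60f0f7e)) (c (m (nat_lit 0x9458dc)) e))) (c (c (m (nat_lit 0x21b9664)) (c (m (nat_lit 0x679e78)) e)) (c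
  (c (p (nat_lit 0x9b15c4)) e) e))) (c (c (c (m (nat_lit 0x88109ac)) (c (p (nat_lit 0x7cbdbc)) e)) (c (c (p
  (nat_lit 0x166c08)) e) e)) (c (c (c (p (nat_lit 0x3b7468c)) e) e) e))) (c (c (c (c (m (nat_lit 0x29c7918))
  (c (m (nat_lit 0x51c8f4)) e)) (c (c (p (nat_lit 0x67d10c)) e) e)) (c (c (c (m (nat_lit 0xfb448)) e) e) e))
  e)) (c (c (c (c (c (p (nat_lit 0x2711574)) (c (p (nat_lit 0x7f9cbc)) e)) (c (c (p (nat_lit 0x502548)) e)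
  e)) (c (c (c (m (nat_lit 0xb7d140)) e) e) e)) e) e)) (c (c (c (c (c (c (m (nat_lit 0x8f8884)) (c (m
  (nat_lit 0x11c8794)) e)) (c (c (p (nat_lit 0x23d16a4)) e) e)) (c (c (c (m (nat_lit 0xb03760)) e) e) e)) e)
  e) e))) (c (c (c (c (c (c (c (p (nat_lit 0xd59ebb6)) (c (p (nat_lit 0x1348544a)) (c (m (nat_lit 0x256b414))
  e))) (c (c (p (nat_lit 0x6db9c3c)) (c (m (nat_lit 0x1faa570)) e)) (c (c (m (nat_lit 0xa4a48)) e) e))) (c (c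
  (c (m (nat_lit 0x8502ba0)) (c (m (nat_lit 0x24b7ac8)) e)) (c (c (m (nat_lit 0x723eac)) e) e)) (c (c (c (m
  (nat_lit 0x8472c)) e) e) e))) (c (c (c (c (m (nat_lit 0x15f286e)) (c (m (nat_lit 0x407a0fc)) e)) (c (c (p
  (nat_lit 0x132c1b6)) e) e)) (c (c (c (p (nat_lit 0x2371560)) e) e) e)) (c (c (c (c (m (nat_lit 0xa2582c))
  e) e) e) e))) (c (c (c (c (c (p (nat_lit 0x2faa554)) (c (p (nat_lit 0x3397dca)) e)) (c (c (p (nat_lit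
  0x2f43a68)) e) e)) (c (c (c (m (nat_lit 0x42351cc)) e) e) e)) (c (c (c (c (m (nat_lit 0xe17bd8)) e) e) e)
  e)) (c (c (c (c (c (p (nat_lit 0x3932ad8)) e) e) e) e) e))) (c (c (c (c (c (c (m (nat_lit 0x33b6556)) (c (m
  (nat_lit 0x894f7e)) e)) (c (c (m (nat_lit 0xeadaa)) e) e)) (c (c (c (p (nat_lit 0x23529cc)) e) e) e)) (c (c
  (c (c (p (nat_lit 0x1056468)) e) e) e) e)) (c (c (c (c (c (m (nat_lit 0xd700ac)) e) e) e) e) e)) (c (c (c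
  (c (c (c (p (nat_lit 0x1ba3194)) e) e) e) e) e) e))) (c (c (c (c (c (c (c (m (nat_lit 0x612fc1e)) (c (m
  (nat_lit 0xae383a)) e)) (c (c (m (nat_lit 0x3112236)) e) e)) (c (c (c (p (nat_lit 0x29f60e2)) e) e) e)) (c
  (c (c (c (m (nat_lit 0x12ab21c)) e) e) e) e)) (c (c (c (c (c (m (nat_lit 0x15c0774)) e) e) e) e) e)) (c (c
  (c (c (c (c (m (nat_lit 0x3fb880)) e) e) e) e) e) e)) (c (c (c (c (c (c (c (m (nat_lit 0x118bab0)) e) e) e)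
  e) e) e) e)))) (c (c (c (c (c (c (c (c (p (nat_lit 0x70efd98)) (c (m (nat_lit 0x133d40)) (c (p (nat_lit
  0x12be488)) e))) (c (c (m (nat_lit 0xcd21c56)) (c (m (nat_lit 0x1dbe54)) e)) (c (c (m (nat_lit 0x1756a64))
  e) e))) (c (c (c (m (nat_lit 0x2677842)) (c (m (nat_lit 0x320c1c)) e)) (c (c (m (nat_lit 0x2e80894)) e) e))
  (c (c (c (m (nat_lit 0x4168a4)) e) e) e))) (c (c (c (c (m (nat_lit 0x9b3a8d6)) (c (m (nat_lit 0x24a1df0))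
  e)) (c (c (p (nat_lit 0x1f56810)) e) e)) (c (c (c (p (nat_lit 0x17499ea)) e) e) e)) (c (c (c (c (p (nat_lit
  0x74adbc)) e) e) e) e))) (c (c (c (c (c (p (nat_lit 0xab722d0)) (c (p (nat_lit 0x193e522)) e)) (c (c (p
  (nat_lit 0x16ff8f6)) e) e)) (c (c (c (p (nat_lit 0x2a5801a)) e) e) e)) (c (c (c (c (p (nat_lit 0x264318c))
  e) e) e) e)) (c (c (c (c (c (p (nat_lit 0x3f486c)) e) e) e) e) e))) (c (c (c (c (c (c (m (nat_lit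
  0xed52fe)) (c (p (nat_lit 0x14965f8)) e)) (c (c (p (nat_lit 0x425cad2)) e) e)) (c (c (c (p (nat_lit
  0x1594b84)) e) e) e)) (c (c (c (c (p (nat_lit 0x12ccb4c)) e) e) e) e)) (c (c (c (c (c (m (nat_lit
  0x2341884)) e) e) e) e) e)) (c (c (c (c (c (c (p (nat_lit 0x142d688)) e) e) e) e) e) e))) (c (c (c (c (c (c
  (c (p (nat_lit 0x3025e0)) (c (m (nat_lit 0x4164f60)) e)) (c (c (p (nat_lit 0xaa2200)) e) e)) (c (c (c (p
  (nat_lit 0xe2798e)) e) e) e)) (c (c (c (c (p (nat_lit 0x317112c)) e) e) e) e)) (c (c (c (c (c (m (nat_lit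
  0x667c4d6)) e) e) e) e) e)) (c (c (c (c (c (c (p (nat_lit 0x23d0864)) e) e) e) e) e) e)) (c (c (c (c (c (c
  (c (m (nat_lit 0x2650ec)) e) e) e) e) e) e) e))) (c (c (c (c (c (c (c (c (p (nat_lit 0x7072e8a)) (c (p
  (nat_lit 0x242346c)) e)) (c (c (p (nat_lit 0x6eacfae)) e) e)) (c (c (c (p (nat_lit 0xd1548e)) e) e) e)) (c
  (c (c (c (m (nat_lit 0x6390f0)) e) e) e) e)) (c (c (c (c (c (m (nat_lit 0x5c1f24c)) e) e) e) e) e)) (c (c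
  (c (c (c (c (m (nat_lit 0x21ae7c2)) e) e) e) e) e) e)) (c (c (c (c (c (c (c (m (nat_lit 0x2bb1f62)) e) e)
  e) e) e) e) e)) (c (c (c (c (c (c (c (c (m (nat_lit 0x2fdd392)) e) e) e) e) e) e) e) e))))) (c (c (c (c (c
  (c (c (c (c (m (nat_lit 0x2f17254)) (c (p (nat_lit 0x8569740)) (c (m (nat_lit 0x6a17e7c)) e))) (c (c (m
  (nat_lit 0x20bb0cc)) (c (p (nat_lit 0x3bd62e8)) e)) (c (c (p (nat_lit 0x4017018)) e) e))) (c (c (c (m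
  (nat_lit 0x30ca104)) (c (p (nat_lit 0x1935678)) e)) (c (c (p (nat_lit 0x114a14)) e) e)) (c (c (c (p
  (nat_lit 0x5493570)) e) e) e))) (c (c (c (c (p (nat_lit 0x5e4a2ac)) (c (p (nat_lit 0x620fd0)) (c (p
  (nat_lit 0x3425c1c)) e))) (c (c (p (nat_lit 0xc5a852c)) (c (m (nat_lit 0x363dddc)) e)) (c (c (m (nat_lit
  0x4258e54)) e) e))) (c (c (c (p (nat_lit 0x23ada1c)) (c (p (nat_lit 0xb982a8)) e)) (c (c (m (nat_lit
  0xd29aa4)) e) e)) (c (c (c (m (nat_lit 0x30b83e0)) e) e) e))) (c (c (c (c (m (nat_lit 0x1ff3e3c)) (c (p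
  (nat_lit 0x7c4934)) e)) (c (c (m (nat_lit 0x4b3eb14)) e) e)) (c (c (c (p (nat_lit 0x11b6be4)) e) e) e))
  e))) (c (c (c (c (c (m (nat_lit 0x21b4b04)) (c (m (nat_lit 0x5e632c)) (c (p (nat_lit 0x3c501fc)) e))) (c (c
  (m (nat_lit 0x3e4c288)) (c (p (nat_lit 0xa33b84)) e)) (c (c (p (nat_lit 0x1c96e90)) e) e))) (c (c (c (m
  (nat_lit 0x31b444c)) (c (p (nat_lit 0xed9060)) e)) (c (c (p (nat_lit 0xacb30c)) e) e)) (c (c (c (p (nat_lit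
  0x2c2c2f0)) e) e) e))) (c (c (c (c (m (nat_lit 0x23f649c)) (c (m (nat_lit 0x9041ac)) e)) (c (c (p (nat_lit
  0xe6ab94)) e) e)) (c (c (c (p (nat_lit 0x2b174b0)) e) e) e)) e)) (c (c (c (c (c (p (nat_lit 0x4650e04)) (c
  (p (nat_lit 0x1a5a244)) e)) (c (c (m (nat_lit 0x16ad270)) e) e)) (c (c (c (p (nat_lit 0x3f1830)) e) e) e))
  e) e))) (c (c (c (c (c (c (m (nat_lit 0x390c534)) (c (m (nat_lit 0x6a1e6c8)) (c (m (nat_lit 0x623928)) e)))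
  (c (c (p (nat_lit 0x36c01f8)) (c (p (nat_lit 0x2cc943c)) e)) (c (c (p (nat_lit 0xcb6d0)) e) e))) (c (c (c
  (p (nat_lit 0x6bccea4)) (c (m (nat_lit 0x89f82c)) e)) (c (c (m (nat_lit 0x6fd590)) e) e)) (c (c (c (m
  (nat_lit 0x27f3a2c)) e) e) e))) (c (c (c (c (p (nat_lit 0x1a30124)) (c (p (nat_lit 0xf67ce0)) e)) (c (c (m
  (nat_lit 0x1af6e44)) e) e)) (c (c (c (m (nat_lit 0x38c5e0)) e) e) e)) e)) (c (c (c (c (c (m (nat_lit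
  0x43c2828)) (c (p (nat_lit 0x302a804)) e)) (c (c (p (nat_lit 0x148c8b4)) e) e)) (c (c (c (p (nat_lit
  0x1a53b9c)) e) e) e)) e) e)) (c (c (c (c (c (c (p (nat_lit 0x4a93208)) (c (m (nat_lit 0xe988a8)) e)) (c (c
  (m (nat_lit 0x22f953c)) e) e)) (c (c (c (m (nat_lit 0x3034038)) e) e) e)) e) e) e))) (c (c (c (c (c (c (c
  (p (nat_lit 0x94e022e)) (c (p (nat_lit 0x757fc4a)) (c (m (nat_lit 0x26a6c78)) e))) (c (c (p (nat_lit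
  0x10884ba)) (c (m (nat_lit 0x25cbda4)) e)) (c (c (m (nat_lit 0xd97868)) e) e))) (c (c (c (m (nat_lit
  0x6998e3e)) (c (p (nat_lit 0x5460)) e)) (c (c (p (nat_lit 0x123a23c)) e) e)) (c (c (c (p (nat_lit
  0x22b264c)) e) e) e))) (c (c (c (c (m (nat_lit 0x1986a6e)) (c (m (nat_lit 0x3bf1ba0)) e)) (c (c (p (nat_lit
  0x7ce750)) e) e)) (c (c (c (p (nat_lit 0x65fbbc)) e) e) e)) (c (c (c (c (m (nat_lit 0x12f1b48)) e) e) e)
  e))) (c (c (c (c (c (p (nat_lit 0x1c220a0)) (c (m (nat_lit 0x30cd3b0)) e)) (c (c (m (nat_lit 0xda6cdc)) e)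
  e)) (c (c (c (m (nat_lit 0x16faa0c)) e) e) e)) (c (c (c (c (p (nat_lit 0x68b47c)) e) e) e) e)) (c (c (c (c
  (c (p (nat_lit 0x41d654)) e) e) e) e) e))) (c (c (c (c (c (c (m (nat_lit 0x206bc6e)) (c (p (nat_lit
  0x18c3744)) e)) (c (c (p (nat_lit 0xaa1288)) e) e)) (c (c (c (m (nat_lit 0x1107dbc)) e) e) e)) (c (c (c (c
  (m (nat_lit 0x1d21448)) e) e) e) e)) (c (c (c (c (c (m (nat_lit 0x84b598)) e) e) e) e) e)) (c (c (c (c (c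
  (c (p (nat_lit 0x1f6938)) e) e) e) e) e) e))) (c (c (c (c (c (c (c (m (nat_lit 0xafd2848)) (c (m (nat_lit
  0x8743e)) e)) (c (c (m (nat_lit 0x24a1cb2)) e) e)) (c (c (c (p (nat_lit 0x17d6432)) e) e) e)) (c (c (c (c
  (p (nat_lit 0x7af796)) e) e) e) e)) (c (c (c (c (c (m (nat_lit 0x1358124)) e) e) e) e) e)) (c (c (c (c (c
  (c (p (nat_lit 0x20b9ab2)) e) e) e) e) e) e)) (c (c (c (c (c (c (c (p (nat_lit 0x22e15f6)) e) e) e) e) e)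
  e) e)))) (c (c (c (c (c (c (c (c (p (nat_lit 0x361cb5a)) (c (p (nat_lit 0x5fcabac)) (c (p (nat_lit
  0x44ddc8)) e))) (c (c (p (nat_lit 0x211bd98)) (c (m (nat_lit 0x7df928)) e)) (c (c (p (nat_lit 0x6f91c8)) e)
  e))) (c (c (c (p (nat_lit 0xd10b110)) (c (m (nat_lit 0x34d8890)) e)) (c (c (m (nat_lit 0xd8e070)) e) e)) (c
  (c (c (m (nat_lit 0x6389f40)) e) e) e))) (c (c (c (c (p (nat_lit 0x97a33be)) (c (m (nat_lit 0x4a6a174)) e))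
  (c (c (m (nat_lit 0x1f20f30)) e) e)) (c (c (c (m (nat_lit 0x2f2ac88)) e) e) e)) (c (c (c (c (m (nat_lit
  0x259d640)) e) e) e) e))) (c (c (c (c (c (p (nat_lit 0x329892)) (c (p (nat_lit 0xd4ebc)) e)) (c (c (p
  (nat_lit 0xeb0524)) e) e)) (c (c (c (m (nat_lit 0x1ac49fc)) e) e) e)) (c (c (c (c (m (nat_lit 0x925374)) e)
  e) e) e)) (c (c (c (c (c (p (nat_lit 0xb0073c)) e) e) e) e) e))) (c (c (c (c (c (c (m (nat_lit 0x5ead15c))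
  (c (m (nat_lit 0x23c73c)) e)) (c (c (m (nat_lit 0x16ddbac)) e) e)) (c (c (c (p (nat_lit 0x1d29908)) e) e)
  e)) (c (c (c (c (m (nat_lit 0x2849b8)) e) e) e) e)) (c (c (c (c (c (p (nat_lit 0x1192758)) e) e) e) e) e))
  (c (c (c (c (c (c (p (nat_lit 0x144fdf8)) e) e) e) e) e) e))) (c (c (c (c (c (c (c (m (nat_lit 0x261d2c0))
  (c (m (nat_lit 0x3173538)) e)) (c (c (m (nat_lit 0x2ea700)) e) e)) (c (c (c (p (nat_lit 0x500e17c)) e) e)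
  e)) (c (c (c (c (p (nat_lit 0x3a43d6)) e) e) e) e)) (c (c (c (c (c (m (nat_lit 0x62b80)) e) e) e) e) e)) (c
  (c (c (c (c (c (p (nat_lit 0x50a390)) e) e) e) e) e) e)) (c (c (c (c (c (c (c (p (nat_lit 0x38c7d2)) e) e)
  e) e) e) e) e))) (c (c (c (c (c (c (c (c (m (nat_lit 0x97cdb2)) (c (m (nat_lit 0x52f6ec)) e)) (c (c (m
  (nat_lit 0x292053c)) e) e)) (c (c (c (m (nat_lit 0x41de9dc)) e) e) e)) (c (c (c (c (m (nat_lit 0x1fc185c))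
  e) e) e) e)) (c (c (c (c (c (p (nat_lit 0x18b63ca)) e) e) e) e) e)) (c (c (c (c (c (c (m (nat_lit
  0x1da66d8)) e) e) e) e) e) e)) (c (c (c (c (c (c (c (p (nat_lit 0x6272d6)) e) e) e) e) e) e) e)) (c (c (c
  (c (c (c (c (c (m (nat_lit 0x15fc8dc)) e) e) e) e) e) e) e) e)))) (c (c (c (c (c (c (c (c (c (p (nat_lit
  0x52c5384)) (c (m (nat_lit 0x4bdc008)) (c (p (nat_lit 0x109adf0)) e))) (c (c (p (nat_lit 0xffd938)) (c (m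
  (nat_lit 0x24e955c)) e)) (c (c (m (nat_lit 0x1813dc4)) e) e))) (c (c (c (m (nat_lit 0x6709404)) (c (p
  (nat_lit 0x2d3a74)) e)) (c (c (p (nat_lit 0x5a28b0)) e) e)) (c (c (c (p (nat_lit 0x1e5109c)) e) e) e))) (c
  (c (c (c (p (nat_lit 0x6824e8)) (c (m (nat_lit 0x2c0ebc)) e)) (c (c (m (nat_lit 0x3dea74)) e) e)) (c (c (c
  (m (nat_lit 0x30a074c)) e) e) e)) (c (c (c (c (p (nat_lit 0x4290dd4)) e) e) e) e))) (c (c (c (c (c (p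
  (nat_lit 0x1963140)) (c (m (nat_lit 0x117bb08)) e)) (c (c (m (nat_lit 0x79eda4)) e) e)) (c (c (c (m
  (nat_lit 0x15252f0)) e) e) e)) (c (c (c (c (m (nat_lit 0xea1c08)) e) e) e) e)) (c (c (c (c (c (m (nat_lit
  0x1fd4a5c)) e) e) e) e) e))) (c (c (c (c (c (c (p (nat_lit 0x1b335a0)) (c (p (nat_lit 0x1f48dc4)) e)) (c (c
  (m (nat_lit 0x212e680)) e) e)) (c (c (c (m (nat_lit 0x27b91b4)) e) e) e)) (c (c (c (c (m (nat_lit
  0x18b7678)) e) e) e) e)) (c (c (c (c (c (p (nat_lit 0x4c74)) e) e) e) e) e)) (c (c (c (c (c (c (m (nat_lit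
  0x13104e4)) e) e) e) e) e) e))) (c (c (c (c (c (c (c (p (nat_lit 0xa4c13c)) (c (m (nat_lit 0x1d77320)) e))
  (c (c (p (nat_lit 0xd4b500)) e) e)) (c (c (c (p (nat_lit 0x74934c)) e) e) e)) (c (c (c (c (p (nat_lit
  0x257cf4)) e) e) e) e)) (c (c (c (c (c (p (nat_lit 0x12442b0)) e) e) e) e) e)) (c (c (c (c (c (c (p
  (nat_lit 0x20d2ac)) e) e) e) e) e) e)) (c (c (c (c (c (c (c (p (nat_lit 0x3da7024)) e) e) e) e) e) e) e)))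
  (c (c (c (c (c (c (c (c (m (nat_lit 0x177006c)) (c (p (nat_lit 0x30eeaa0)) e)) (c (c (p (nat_lit
  0x382d3c4)) e) e)) (c (c (c (m (nat_lit 0x751a10)) e) e) e)) (c (c (c (c (p (nat_lit 0x329e188)) e) e) e)
  e)) (c (c (c (c (c (m (nat_lit 0x1aadea8)) e) e) e) e) e)) (c (c (c (c (c (c (p (nat_lit 0x24d68f0)) e) e)
  e) e) e) e)) (c (c (c (c (c (c (c (m (nat_lit 0x2a39a1a)) e) e) e) e) e) e) e)) (c (c (c (c (c (c (c (c (p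
  (nat_lit 0x6a57aa)) e) e) e) e) e) e) e) e))) (c (c (c (c (c (c (c (c (c (m (nat_lit 0xa810368)) (c (p
  (nat_lit 0x2840688)) e)) (c (c (p (nat_lit 0x2cc988)) e) e)) (c (c (c (p (nat_lit 0x2dceb08)) e) e) e)) (c
  (c (c (c (p (nat_lit 0x226aac0)) e) e) e) e)) (c (c (c (c (c (p (nat_lit 0x2126604)) e) e) e) e) e)) (c (c
  (c (c (c (c (p (nat_lit 0xbcf7b4)) e) e) e) e) e) e)) (c (c (c (c (c (c (c (m (nat_lit 0x3366ec4)) e) e) e)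
  e) e) e) e)) (c (c (c (c (c (c (c (c (m (nat_lit 0xc44f4c)) e) e) e) e) e) e) e) e)) (c (c (c (c (c (c (c
  (c (c (p (nat_lit 0x1473168)) e) e) e) e) e) e) e) e) e)))))

noncomputable def gt_1_1_7 : Tr :=
  (c (c (c (c (c (c (c (c (c (p (nat_lit 0x606e10)) (c (m (nat_lit 0x1e2ad50)) (c (p (nat_lit 0x71ffac)) e)))
  (c (c (m (nat_lit 0x115c758)) (c (p (nat_lit 0x18ca50)) e)) (c (c (p (nat_lit 0xad8848)) e) e))) (c (c (c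
  (p (nat_lit 0x6066fc)) (c (p (nat_lit 0xfc2d24)) e)) (c (c (p (nat_lit 0xf6a44c)) e) e)) (c (c (c (p
  (nat_lit 0x2a177c)) e) e) e))) (c (c (c (c (m (nat_lit 0x1694d54)) (c (p (nat_lit 0x6b46ac8)) (c (m
  (nat_lit 0x28a3e74)) e))) (c (c (p (nat_lit 0x5949150)) (c (m (nat_lit 0xbf8eb4)) e)) (c (c (m (nat_lit
  0x39568e0)) e) e))) (c (c (c (p (nat_lit 0x1f31304)) (c (m (nat_lit 0x34aa18)) e)) (c (c (p (nat_lit
  0x2cf64a8)) e) e)) (c (c (c (p (nat_lit 0x1dece00)) e) e) e))) (c (c (c (c (p (nat_lit 0x1a0964c)) (c (m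
  (nat_lit 0x127b4e0)) (c (m (nat_lit 0x924ccc)) e))) (c (c (m (nat_lit 0x165c48)) (c (p (nat_lit 0x2017770))
  e)) (c (c (p (nat_lit 0xdc2a98)) e) e))) (c (c (c (m (nat_lit 0x1c69620)) (c (p (nat_lit 0xc829ec)) e)) (c
  (c (m (nat_lit 0x739380)) e) e)) (c (c (c (p (nat_lit 0x57c78)) e) e) e))) e))) (c (c (c (c (c (p (nat_lit
  0x136a304)) (c (p (nat_lit 0x5d14598)) (c (m (nat_lit 0x21977d0)) e))) (c (c (p (nat_lit 0x437dc54)) (c (p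
  (nat_lit 0x10651f8)) e)) (c (c (m (nat_lit 0x1017054)) e) e))) (c (c (c (p (nat_lit 0x119e158)) (c (m
  (nat_lit 0x2ac1758)) e)) (c (c (m (nat_lit 0x2031090)) e) e)) (c (c (c (m (nat_lit 0x1c06fec)) e) e) e)))
  (c (c (c (c (m (nat_lit 0x1653828)) (c (m (nat_lit 0xcd3a04)) (c (m (nat_lit 0x9643d4)) e))) (c (c (m
  (nat_lit 0x2be8040)) (c (p (nat_lit 0x659fd0)) e)) (c (c (p (nat_lit 0x11a5dcc)) e) e))) (c (c (c (m
  (nat_lit 0x1d6f40)) (c (m (nat_lit 0x822ef4)) e)) (c (c (m (nat_lit 0x3e6c1c)) e) e)) (c (c (c (m (nat_lit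
  0x324e1c)) e) e) e))) e)) (c (c (c (c (c (p (nat_lit 0x1218ca8)) (c (m (nat_lit 0x2b61bd4)) (c (p (nat_lit
  0x2a89b2c)) e))) (c (c (m (nat_lit 0x30f6744)) (c (m (nat_lit 0x50b5c0)) e)) (c (c (p (nat_lit 0x28bbc70))
  e) e))) (c (c (c (m (nat_lit 0x14fb044)) (c (p (nat_lit 0x13063c8)) e)) (c (c (m (nat_lit 0x20c3dc)) e) e))
  (c (c (c (p (nat_lit 0x1941660)) e) e) e))) e) e))) (c (c (c (c (c (c (m (nat_lit 0x1484c4)) (c (p (nat_lit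
  0x1c88880)) (c (m (nat_lit 0x4bfb9c4)) e))) (c (c (p (nat_lit 0x32a38d0)) (c (m (nat_lit 0x9675c)) e)) (c
  (c (m (nat_lit 0x392f730)) e) e))) (c (c (c (m (nat_lit 0x2cc4e88)) (c (m (nat_lit 0x976a94)) e)) (c (c (p
  (nat_lit 0x260280)) e) e)) (c (c (c (p (nat_lit 0x288552c)) e) e) e))) (c (c (c (c (p (nat_lit 0x319740))
  (c (p (nat_lit 0x7148a0)) (c (p (nat_lit 0xa87350)) e))) (c (c (p (nat_lit 0x53cf64)) (c (m (nat_lit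
  0x3496d4)) e)) (c (c (m (nat_lit 0x54753c)) e) e))) (c (c (c (p (nat_lit 0x1609a4)) (c (p (nat_lit
  0x192348)) e)) (c (c (p (nat_lit 0x13ee928)) e) e)) (c (c (c (p (nat_lit 0x93702c)) e) e) e))) e)) (c (c (c
  (c (c (p (nat_lit 0x179b8e4)) (c (m (nat_lit 0x216459c)) (c (p (nat_lit 0x14e7ef8)) e))) (c (c (m (nat_lit
  0x1c2fb58)) (c (m (nat_lit 0xd0baec)) e)) (c (c (p (nat_lit 0xb56e9c)) e) e))) (c (c (c (p (nat_lit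
  0xc0a3bc)) (c (m (nat_lit 0x7376e8)) e)) (c (c (p (nat_lit 0x108bbd4)) e) e)) (c (c (c (m (nat_lit
  0x1a0a0c)) e) e) e))) e) e)) (c (c (c (c (c (c (m (nat_lit 0x411c30)) (c (p (nat_lit 0x43e8598)) (c (m
  (nat_lit 0x21dd46c)) e))) (c (c (p (nat_lit 0x1ba755c)) (c (p (nat_lit 0x1b3cc3c)) e)) (c (c (m (nat_lit
  0x2790bac)) e) e))) (c (c (c (m (nat_lit 0x149c40)) (c (p (nat_lit 0x7f5abc)) e)) (c (c (m (nat_lit
  0x94ddcc)) e) e)) (c (c (c (m (nat_lit 0x28e0cc)) e) e) e))) e) e) e))) (c (c (c (c (c (c (c (p (nat_lit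
  0x1268b38)) (c (m (nat_lit 0x32aa02)) (c (p (nat_lit 0x3453abc)) e))) (c (c (p (nat_lit 0x942066)) (c (m
  (nat_lit 0x22be70)) e)) (c (c (p (nat_lit 0x944dd8)) e) e))) (c (c (c (p (nat_lit 0x386a3c)) (c (p (nat_lit
  0x11a6e40)) e)) (c (c (p (nat_lit 0xb6e188)) e) e)) (c (c (c (p (nat_lit 0x195ed3c)) e) e) e))) (c (c (c (c
  (p (nat_lit 0xb8a2f2)) (c (m (nat_lit 0x23604d8)) (c (m (nat_lit 0x159c00)) e))) (c (c (p (nat_lit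
  0x6ec670)) (c (m (nat_lit 0xb6a42c)) e)) (c (c (p (nat_lit 0x4bf978)) e) e))) (c (c (c (m (nat_lit
  0x3eb3f98)) (c (p (nat_lit 0x862bd8)) e)) (c (c (m (nat_lit 0xdde5a8)) e) e)) (c (c (c (m (nat_lit
  0x29b0d4)) e) e) e))) (c (c (c (c (m (nat_lit 0xa32534)) (c (p (nat_lit 0xe7456c)) e)) (c (c (p (nat_lit
  0x1e978a8)) e) e)) (c (c (c (p (nat_lit 0x127d160)) e) e) e)) e))) (c (c (c (c (c (m (nat_lit 0x7910a6)) (c
  (p (nat_lit 0x354cae)) (c (p (nat_lit 0x9996e4)) e))) (c (c (m (nat_lit 0x3dc8942)) (c (m (nat_lit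
  0x43290)) e)) (c (c (m (nat_lit 0xbd636c)) e) e))) (c (c (c (m (nat_lit 0x1ac806e)) (c (p (nat_lit
  0x61c230)) e)) (c (c (p (nat_lit 0x2335b78)) e) e)) (c (c (c (p (nat_lit 0x118bb7c)) e) e) e))) (c (c (c (c
  (p (nat_lit 0xef2d34)) (c (p (nat_lit 0xd5f0fc)) e)) (c (c (m (nat_lit 0x793bc)) e) e)) (c (c (c (p
  (nat_lit 0xfc6f9c)) e) e) e)) e)) (c (c (c (c (c (m (nat_lit 0x277764)) (c (p (nat_lit 0x696c60)) e)) (c (c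
  (p (nat_lit 0x1714b9c)) e) e)) (c (c (c (p (nat_lit 0x45ac74)) e) e) e)) e) e))) (c (c (c (c (c (c (m
  (nat_lit 0x5a4ddc)) (c (p (nat_lit 0x23eae1a)) (c (m (nat_lit 0x18fb5e0)) e))) (c (c (p (nat_lit
  0x1d4be68)) (c (p (nat_lit 0x23013f0)) e)) (c (c (m (nat_lit 0x35a339c)) e) e))) (c (c (c (m (nat_lit
  0x2cbb936)) (c (p (nat_lit 0xff8c04)) e)) (c (c (m (nat_lit 0x385560)) e) e)) (c (c (c (p (nat_lit
  0x178a94)) e) e) e))) (c (c (c (c (m (nat_lit 0x2eb32f4)) (c (m (nat_lit 0x7e5d6c)) e)) (c (c (p (nat_lit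
  0x801900)) e) e)) (c (c (c (p (nat_lit 0x1a22c3c)) e) e) e)) e)) (c (c (c (c (c (m (nat_lit 0x2d326c4)) (c
  (p (nat_lit 0x12a19ac)) e)) (c (c (p (nat_lit 0x64f938)) e) e)) (c (c (c (m (nat_lit 0xa17354)) e) e) e))
  e) e)) (c (c (c (c (c (c (m (nat_lit 0x1199154)) (c (m (nat_lit 0xe39d90)) e)) (c (c (m (nat_lit 0x860a3c))
  e) e)) (c (c (c (p (nat_lit 0x44c904)) e) e) e)) e) e) e))) (c (c (c (c (c (c (c (p (nat_lit 0x35326fe)) (c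
  (m (nat_lit 0x6626d96)) (c (m (nat_lit 0x88d100)) e))) (c (c (m (nat_lit 0x150df92)) (c (p (nat_lit
  0x1073c4)) e)) (c (c (m (nat_lit 0x2d1de8)) e) e))) (c (c (c (p (nat_lit 0x4f058a0)) (c (m (nat_lit
  0x133a9a0)) e)) (c (c (m (nat_lit 0x29c1018)) e) e)) (c (c (c (m (nat_lit 0x24e9f70)) e) e) e))) (c (c (c
  (c (m (nat_lit 0x4d02cb0)) (c (p (nat_lit 0x168e52c)) e)) (c (c (m (nat_lit 0x25eac8)) e) e)) (c (c (c (m
  (nat_lit 0x1975a88)) e) e) e)) (c (c (c (c (m (nat_lit 0xf634a4)) e) e) e) e))) (c (c (c (c (c (m (nat_lit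
  0x5e72e3c)) (c (m (nat_lit 0x674f3a)) e)) (c (c (p (nat_lit 0x176d34e)) e) e)) (c (c (c (p (nat_lit
  0xa6eeee)) e) e) e)) (c (c (c (c (p (nat_lit 0x925500)) e) e) e) e)) (c (c (c (c (c (m (nat_lit 0xa05c84))
  e) e) e) e) e))) (c (c (c (c (c (c (m (nat_lit 0x14851c8)) (c (m (nat_lit 0xcb525a)) e)) (c (c (p (nat_lit
  0x1216368)) e) e)) (c (c (c (p (nat_lit 0x67090e)) e) e) e)) (c (c (c (c (p (nat_lit 0x2c4e3ac)) e) e) e)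
  e)) (c (c (c (c (c (p (nat_lit 0x2663994)) e) e) e) e) e)) (c (c (c (c (c (c (m (nat_lit 0x4f08fc)) e) e)
  e) e) e) e))) (c (c (c (c (c (c (c (m (nat_lit 0x5c8b456)) (c (p (nat_lit 0x390309c)) e)) (c (c (p (nat_lit
  0xce9748)) e) e)) (c (c (c (m (nat_lit 0xd44c60)) e) e) e)) (c (c (c (c (p (nat_lit 0xc0c366)) e) e) e) e))
  (c (c (c (c (c (p (nat_lit 0x3b2ab92)) e) e) e) e) e)) (c (c (c (c (c (c (p (nat_lit 0x1c5de0)) e) e) e) e)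
  e) e)) (c (c (c (c (c (c (c (p (nat_lit 0x2ac41dc)) e) e) e) e) e) e) e))))) (c (c (c (c (c (c (c (c (m
  (nat_lit 0x16822d82)) (c (p (nat_lit 0x730d490)) (c (p (nat_lit 0x2a893b8)) e))) (c (c (p (nat_lit
  0x12dfa3ac)) (c (m (nat_lit 0x2a81030)) e)) (c (c (m (nat_lit 0x7f24b0)) e) e))) (c (c (c (p (nat_lit
  0x1040caf0)) (c (m (nat_lit 0xe4fd20)) e)) (c (c (m (nat_lit 0xcbb404)) e) e)) (c (c (c (m (nat_lit
  0x353b95c)) e) e) e))) (c (c (c (c (p (nat_lit 0x111be62)) (c (p (nat_lit 0x6aa7216)) (c (p (nat_lit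
  0x2a639c)) e))) (c (c (m (nat_lit 0x77fc3a0)) (c (m (nat_lit 0x2a1c3a4)) e)) (c (c (p (nat_lit 0x1b0bdfc))
  e) e))) (c (c (c (m (nat_lit 0x1048e90)) (c (m (nat_lit 0x10d4dec)) e)) (c (c (m (nat_lit 0x8d060c)) e) e))
  (c (c (c (m (nat_lit 0x1019304)) e) e) e))) (c (c (c (c (m (nat_lit 0x4ad0e64)) (c (m (nat_lit 0x2d5d93c))
  e)) (c (c (p (nat_lit 0x1cf37b8)) e) e)) (c (c (c (m (nat_lit 0x236574)) e) e) e)) e))) (c (c (c (c (c (p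
  (nat_lit 0xe1dd844)) (c (m (nat_lit 0x8b948e)) (c (m (nat_lit 0x992ab4)) e))) (c (c (m (nat_lit 0x874b85e))
  (c (p (nat_lit 0x13c63a4)) e)) (c (c (m (nat_lit 0x98c0dc)) e) e))) (c (c (c (m (nat_lit 0x1bc5bf2)) (c (p
  (nat_lit 0xe4c9e4)) e)) (c (c (p (nat_lit 0x36dc41c)) e) e)) (c (c (c (p (nat_lit 0x166b714)) e) e) e))) (c
  (c (c (c (m (nat_lit 0x1e2d384)) (c (m (nat_lit 0x412968)) e)) (c (c (p (nat_lit 0x120ed6c)) e) e)) (c (c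
  (c (p (nat_lit 0xbf1eb8)) e) e) e)) e)) (c (c (c (c (c (m (nat_lit 0x3d79250)) (c (m (nat_lit 0x1a2fb0c))
  e)) (c (c (m (nat_lit 0x684c30)) e) e)) (c (c (c (m (nat_lit 0x1ecdae8)) e) e) e)) e) e))) (c (c (c (c (c
  (c (p (nat_lit 0x87d8cc)) (c (m (nat_lit 0x7fef96)) (c (p (nat_lit 0x1670c7c)) e))) (c (c (m (nat_lit
  0x3bf938e)) (c (m (nat_lit 0x1721a0)) e)) (c (c (p (nat_lit 0x17eecd8)) e) e))) (c (c (c (m (nat_lit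
  0x3644346)) (c (m (nat_lit 0x5a3a08)) e)) (c (c (m (nat_lit 0x10e2d9c)) e) e)) (c (c (c (m (nat_lit
  0x553ae8)) e) e) e))) (c (c (c (c (p (nat_lit 0x3c68f04)) (c (m (nat_lit 0xe579c4)) e)) (c (c (m (nat_lit
  0xfad49c)) e) e)) (c (c (c (m (nat_lit 0xf3744)) e) e) e)) e)) (c (c (c (c (c (p (nat_lit 0x518e458)) (c (m
  (nat_lit 0x6e4aa4)) e)) (c (c (p (nat_lit 0x16ca9e8)) e) e)) (c (c (c (m (nat_lit 0x4418a0)) e) e) e)) e)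
  e)) (c (c (c (c (c (c (m (nat_lit 0x617148)) (c (p (nat_lit 0x12fc090)) e)) (c (c (m (nat_lit 0x25044)) e)
  e)) (c (c (c (m (nat_lit 0x119ce5c)) e) e) e)) e) e) e))) (c (c (c (c (c (c (c (p (nat_lit 0xfd6050c)) (c
  (m (nat_lit 0x8726d06)) (c (m (nat_lit 0xbf81d0)) e))) (c (c (m (nat_lit 0x8d2c28)) (c (p (nat_lit
  0x3bf658)) e)) (c (c (m (nat_lit 0x12f0f30)) e) e))) (c (c (c (m (nat_lit 0x3dd1dc2)) (c (m (nat_lit
  0x81738c)) e)) (c (c (m (nat_lit 0x2e2abc)) e) e)) (c (c (c (p (nat_lit 0xf8bec0)) e) e) e))) (c (c (c (c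
  (m (nat_lit 0x4cb3336)) (c (m (nat_lit 0x66cbe2)) e)) (c (c (m (nat_lit 0x48169e)) e) e)) (c (c (c (p
  (nat_lit 0x6f165c)) e) e) e)) (c (c (c (c (m (nat_lit 0x1f1df60)) e) e) e) e))) (c (c (c (c (c (p (nat_lit
  0x2172b46)) (c (p (nat_lit 0x24541e)) e)) (c (c (p (nat_lit 0x5b15026)) e) e)) (c (c (c (m (nat_lit
  0x2525f28)) e) e) e)) (c (c (c (c (m (nat_lit 0x4f728)) e) e) e) e)) (c (c (c (c (c (m (nat_lit 0x4b95ac))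
  e) e) e) e) e))) (c (c (c (c (c (c (m (nat_lit 0x1866be2)) (c (p (nat_lit 0x21e32fe)) e)) (c (c (m (nat_lit
  0x284574)) e) e)) (c (c (c (p (nat_lit 0x129a548)) e) e) e)) (c (c (c (c (m (nat_lit 0x3ebda0)) e) e) e)
  e)) (c (c (c (c (c (m (nat_lit 0x784320)) e) e) e) e) e)) (c (c (c (c (c (c (m (nat_lit 0x6e1918)) e) e) e)
  e) e) e))) (c (c (c (c (c (c (c (m (nat_lit 0xc2d418e)) (c (p (nat_lit 0x1f2e61c)) e)) (c (c (p (nat_lit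
  0x54673e)) e) e)) (c (c (c (p (nat_lit 0x9b34cc)) e) e) e)) (c (c (c (c (p (nat_lit 0x534e958)) e) e) e)
  e)) (c (c (c (c (c (m (nat_lit 0x2482fce)) e) e) e) e) e)) (c (c (c (c (c (c (p (nat_lit 0x22dead0)) e) e)
  e) e) e) e)) (c (c (c (c (c (c (c (m (nat_lit 0xe1325e)) e) e) e) e) e) e) e)))) (c (c (c (c (c (c (c (c (p
  (nat_lit 0xeb89498)) (c (m (nat_lit 0x781e4ce)) (c (m (nat_lit 0x1748304)) e))) (c (c (m (nat_lit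
  0x1c45911c)) (c (p (nat_lit 0xfc4668)) e)) (c (c (p (nat_lit 0x1c6d100)) e) e))) (c (c (c (m (nat_lit
  0xecf7b4c)) (c (p (nat_lit 0x831738)) e)) (c (c (m (nat_lit 0x1cdf04)) e) e)) (c (c (c (m (nat_lit
  0x327894)) e) e) e))) (c (c (c (c (p (nat_lit 0x7a1cc)) (c (p (nat_lit 0x3142d4)) e)) (c (c (p (nat_lit
  0x3149ac6)) e) e)) (c (c (c (p (nat_lit 0x1e95a30)) e) e) e)) (c (c (c (c (p (nat_lit 0x568a04c)) e) e) e)
  e))) (c (c (c (c (c (m (nat_lit 0x15967f44)) (c (p (nat_lit 0x1a37f0)) e)) (c (c (p (nat_lit 0x45bf280)) e)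
  e)) (c (c (c (p (nat_lit 0x51f4b06)) e) e) e)) (c (c (c (c (p (nat_lit 0x124bc78)) e) e) e) e)) (c (c (c (c
  (c (m (nat_lit 0x23ab04)) e) e) e) e) e))) (c (c (c (c (c (c (p (nat_lit 0x496337a)) (c (p (nat_lit
  0xd19508)) e)) (c (c (p (nat_lit 0x602149e)) e) e)) (c (c (c (p (nat_lit 0x37befd6)) e) e) e)) (c (c (c (c
  (m (nat_lit 0x14aa6f8)) e) e) e) e)) (c (c (c (c (c (m (nat_lit 0xa9bb28)) e) e) e) e) e)) (c (c (c (c (c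
  (c (m (nat_lit 0x805b0c)) e) e) e) e) e) e))) (c (c (c (c (c (c (c (p (nat_lit 0xb9a8922)) (c (p (nat_lit
  0x501b850)) e)) (c (c (m (nat_lit 0x326698e)) e) e)) (c (c (c (p (nat_lit 0x17630be)) e) e) e)) (c (c (c (c
  (m (nat_lit 0x120e29e)) e) e) e) e)) (c (c (c (c (c (p (nat_lit 0x1099ec6)) e) e) e) e) e)) (c (c (c (c (c
  (c (p (nat_lit 0x5c466)) e) e) e) e) e) e)) (c (c (c (c (c (c (c (p (nat_lit 0xecba28)) e) e) e) e) e) e)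
  e))) (c (c (c (c (c (c (c (c (m (nat_lit 0xc36b682)) (c (p (nat_lit 0x1a6d7c8)) e)) (c (c (p (nat_lit
  0x8cc0370)) e) e)) (c (c (c (p (nat_lit 0x4c0ca34)) e) e) e)) (c (c (c (c (m (nat_lit 0x307247a)) e) e) e)
  e)) (c (c (c (c (c (p (nat_lit 0xa1b2096)) e) e) e) e) e)) (c (c (c (c (c (c (p (nat_lit 0x757ede)) e) e)
  e) e) e) e)) (c (c (c (c (c (c (c (m (nat_lit 0x1cd8e30)) e) e) e) e) e) e) e)) (c (c (c (c (c (c (c (c (p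
  (nat_lit 0x2593092)) e) e) e) e) e) e) e) e))))) (c (c (c (c (c (c (c (c (c (m (nat_lit 0x2af4560)) (c (m
  (nat_lit 0x1ddb748)) (c (p (nat_lit 0xf896ac)) e))) (c (c (m (nat_lit 0x19a0fe8)) (c (m (nat_lit 0x1deb54))
  e)) (c (c (p (nat_lit 0x4a4ccc)) e) e))) (c (c (c (m (nat_lit 0x666a20)) (c (p (nat_lit 0x9d2138)) e)) (c
  (c (m (nat_lit 0x1290f3c)) e) e)) (c (c (c (m (nat_lit 0xabcb4c)) e) e) e))) (c (c (c (c (m (nat_lit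
  0x19207ec)) (c (m (nat_lit 0x4434618)) (c (p (nat_lit 0xc34e78)) e))) (c (c (p (nat_lit 0x5cf03ac)) (c (p
  (nat_lit 0xbda428)) e)) (c (c (p (nat_lit 0x10633c8)) e) e))) (c (c (c (p (nat_lit 0x5a09714)) (c (m
  (nat_lit 0x28bdd7c)) e)) (c (c (m (nat_lit 0x934e00)) e) e)) (c (c (c (m (nat_lit 0x25ff674)) e) e) e))) (c
  (c (c (c (p (nat_lit 0x45826c8)) (c (p (nat_lit 0x24f14f4)) e)) (c (c (m (nat_lit 0x1c8c7a4)) e) e)) (c (c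
  (c (m (nat_lit 0x429d80)) e) e) e)) e))) (c (c (c (c (c (m (nat_lit 0x8ff8cf8)) (c (m (nat_lit 0x9194238))
  (c (m (nat_lit 0x14ba0d0)) e))) (c (c (p (nat_lit 0x4bf1fbc)) (c (p (nat_lit 0x259db44)) e)) (c (c (m
  (nat_lit 0x7ce63c)) e) e))) (c (c (c (p (nat_lit 0x1734a38)) (c (p (nat_lit 0x20860bc)) e)) (c (c (m
  (nat_lit 0x248b98)) e) e)) (c (c (c (p (nat_lit 0x54b070)) e) e) e))) (c (c (c (c (p (nat_lit 0x3368c34))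
  (c (p (nat_lit 0x1c9233c)) e)) (c (c (m (nat_lit 0x1c462a4)) e) e)) (c (c (c (m (nat_lit 0x161c520)) e) e)
  e)) e)) (c (c (c (c (c (p (nat_lit 0x6c5c898)) (c (p (nat_lit 0x5d72468)) e)) (c (c (m (nat_lit 0x3f94e18))
  e) e)) (c (c (c (m (nat_lit 0xec2110)) e) e) e)) e) e))) (c (c (c (c (c (c (m (nat_lit 0x2971e24)) (c (m
  (nat_lit 0x8d7b540)) (c (p (nat_lit 0x8977ec)) e))) (c (c (p (nat_lit 0x18c648)) (c (m (nat_lit 0xa56360))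
  e)) (c (c (p (nat_lit 0xd9ed98)) e) e))) (c (c (c (p (nat_lit 0x1ff3ea8)) (c (p (nat_lit 0x1a44ba8)) e)) (c
  (c (p (nat_lit 0x1f8e1c0)) e) e)) (c (c (c (m (nat_lit 0x13257c)) e) e) e))) (c (c (c (c (p (nat_lit
  0x1366e3c)) (c (p (nat_lit 0x4db644)) e)) (c (c (m (nat_lit 0x21c2dc)) e) e)) (c (c (c (m (nat_lit
  0xb8f56c)) e) e) e)) e)) (c (c (c (c (c (m (nat_lit 0x452c580)) (c (m (nat_lit 0x2b9c6f8)) e)) (c (c (p
  (nat_lit 0x1e7c7f4)) e) e)) (c (c (c (p (nat_lit 0x1fe2220)) e) e) e)) e) e)) (c (c (c (c (c (c (m (nat_lit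
  0x2a3b088)) (c (p (nat_lit 0x855d08)) e)) (c (c (p (nat_lit 0xe86e78)) e) e)) (c (c (c (p (nat_lit
  0x368514)) e) e) e)) e) e) e))) (c (c (c (c (c (c (c (m (nat_lit 0x70b06ea)) (c (p (nat_lit 0x3a20df8)) (c
  (p (nat_lit 0x1992150)) e))) (c (c (m (nat_lit 0x5097048)) (c (m (nat_lit 0x112f134)) e)) (c (c (p (nat_lit
  0x1cc2750)) e) e))) (c (c (c (p (nat_lit 0xe05c20)) (c (m (nat_lit 0x260328)) e)) (c (c (p (nat_lit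
  0x929868)) e) e)) (c (c (c (m (nat_lit 0x17c92d4)) e) e) e))) (c (c (c (c (p (nat_lit 0x213816)) (c (m
  (nat_lit 0x3644eec)) e)) (c (c (m (nat_lit 0x4e18fc)) e) e)) (c (c (c (m (nat_lit 0x104e9a4)) e) e) e)) (c
  (c (c (c (p (nat_lit 0x61cbe4)) e) e) e) e))) (c (c (c (c (c (p (nat_lit 0x2737fa4)) (c (p (nat_lit
  0x11546f4)) e)) (c (c (p (nat_lit 0x6d0b84)) e) e)) (c (c (c (m (nat_lit 0x11599c8)) e) e) e)) (c (c (c (c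
  (m (nat_lit 0xa4dba0)) e) e) e) e)) (c (c (c (c (c (m (nat_lit 0x186ecb8)) e) e) e) e) e))) (c (c (c (c (c
  (c (p (nat_lit 0x598e78)) (c (p (nat_lit 0x4d605d4)) e)) (c (c (m (nat_lit 0xc3efe8)) e) e)) (c (c (c (m
  (nat_lit 0x121b7e0)) e) e) e)) (c (c (c (c (m (nat_lit 0x336d038)) e) e) e) e)) (c (c (c (c (c (m (nat_lit
  0x1e4ce0)) e) e) e) e) e)) (c (c (c (c (c (c (p (nat_lit 0x1ce90c0)) e) e) e) e) e) e))) (c (c (c (c (c (c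
  (c (p (nat_lit 0x9046c0e)) (c (m (nat_lit 0x190221c)) e)) (c (c (p (nat_lit 0x3acb54)) e) e)) (c (c (c (p
  (nat_lit 0x96aecc)) e) e) e)) (c (c (c (c (m (nat_lit 0xb7df6e)) e) e) e) e)) (c (c (c (c (c (m (nat_lit
  0xf1acd0)) e) e) e) e) e)) (c (c (c (c (c (c (m (nat_lit 0x1380d80)) e) e) e) e) e) e)) (c (c (c (c (c (c
  (c (m (nat_lit 0x331c500)) e) e) e) e) e) e) e)))) (c (c (c (c (c (c (c (c (p (nat_lit 0x1ebfdde)) (c (p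
  (nat_lit 0x2935b2a)) (c (m (nat_lit 0x18a63a4)) e))) (c (c (p (nat_lit 0x875f61c)) (c (m (nat_lit 0x5568))
  e)) (c (c (m (nat_lit 0xe86728)) e) e))) (c (c (c (m (nat_lit 0x2fdda70)) (c (p (nat_lit 0x15dfefc)) e)) (c
  (c (m (nat_lit 0x179f544)) e) e)) (c (c (c (p (nat_lit 0x16b41e8)) e) e) e))) (c (c (c (c (p (nat_lit
  0x35ddac4)) (c (p (nat_lit 0x19396bc)) e)) (c (c (m (nat_lit 0xdbf93c)) e) e)) (c (c (c (p (nat_lit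
  0xdca400)) e) e) e)) (c (c (c (c (m (nat_lit 0x2c71d1c)) e) e) e) e))) (c (c (c (c (c (p (nat_lit
  0x87b9ade)) (c (p (nat_lit 0x2168664)) e)) (c (c (m (nat_lit 0x2d4dd30)) e) e)) (c (c (c (m (nat_lit
  0x6220c8)) e) e) e)) (c (c (c (c (m (nat_lit 0x1454acc)) e) e) e) e)) (c (c (c (c (c (m (nat_lit 0x7d9bbc))
  e) e) e) e) e))) (c (c (c (c (c (c (p (nat_lit 0x6fb6b44)) (c (p (nat_lit 0x888a8)) e)) (c (c (m (nat_lit
  0x1434f60)) e) e)) (c (c (c (m (nat_lit 0x92a030)) e) e) e)) (c (c (c (c (m (nat_lit 0xa3368)) e) e) e) e))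
  (c (c (c (c (c (m (nat_lit 0xe4168c)) e) e) e) e) e)) (c (c (c (c (c (c (p (nat_lit 0x210f714)) e) e) e) e)
  e) e))) (c (c (c (c (c (c (c (m (nat_lit 0x9b4643e)) (c (m (nat_lit 0x258d93e)) e)) (c (c (p (nat_lit
  0x20c380e)) e) e)) (c (c (c (p (nat_lit 0x16e45e4)) e) e) e)) (c (c (c (c (p (nat_lit 0x84d4be)) e) e) e)
  e)) (c (c (c (c (c (m (nat_lit 0x1352dde)) e) e) e) e) e)) (c (c (c (c (c (c (m (nat_lit 0x1d01b70)) e) e)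
  e) e) e) e)) (c (c (c (c (c (c (c (p (nat_lit 0x1864158)) e) e) e) e) e) e) e))) (c (c (c (c (c (c (c (c (p
  (nat_lit 0xac83648)) (c (p (nat_lit 0xd796ac)) e)) (c (c (m (nat_lit 0x5ea8f7a)) e) e)) (c (c (c (m
  (nat_lit 0x6f73bc)) e) e) e)) (c (c (c (c (m (nat_lit 0x16a6b1a)) e) e) e) e)) (c (c (c (c (c (m (nat_lit
  0x60bb59c)) e) e) e) e) e)) (c (c (c (c (c (c (m (nat_lit 0x981b7c0)) e) e) e) e) e) e)) (c (c (c (c (c (c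
  (c (m (nat_lit 0xeb9fc2)) e) e) e) e) e) e) e)) (c (c (c (c (c (c (c (c (m (nat_lit 0xe2ea0e)) e) e) e) e)
  e) e) e) e)))) (c (c (c (c (c (c (c (c (c (p (nat_lit 0x8e0a4c0)) (c (p (nat_lit 0x3af020c)) (c (p (nat_lit
  0x1000e90)) e))) (c (c (m (nat_lit 0x44d5640)) (c (m (nat_lit 0x555030)) e)) (c (c (p (nat_lit 0xc3783c))
  e) e))) (c (c (c (m (nat_lit 0x37f9b0c)) (c (m (nat_lit 0xeaed90)) e)) (c (c (m (nat_lit 0x5ad254)) e) e))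
  (c (c (c (p (nat_lit 0x54c2f4)) e) e) e))) (c (c (c (c (m (nat_lit 0xa7748)) (c (p (nat_lit 0x2db5b54)) e))
  (c (c (p (nat_lit 0xba2940)) e) e)) (c (c (c (p (nat_lit 0x8d24f0)) e) e) e)) (c (c (c (c (m (nat_lit
  0xe34894)) e) e) e) e))) (c (c (c (c (c (p (nat_lit 0x44cbbcc)) (c (p (nat_lit 0x1281690)) e)) (c (c (m
  (nat_lit 0x8c2b48)) e) e)) (c (c (c (m (nat_lit 0x2f2998)) e) e) e)) (c (c (c (c (m (nat_lit 0x7a2608)) e)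
  e) e) e)) (c (c (c (c (c (m (nat_lit 0xd47ee8)) e) e) e) e) e))) (c (c (c (c (c (c (m (nat_lit 0xb21fb8))
  (c (p (nat_lit 0x15d6a7c)) e)) (c (c (p (nat_lit 0x55e6cc)) e) e)) (c (c (c (m (nat_lit 0x163b060)) e) e)
  e)) (c (c (c (c (m (nat_lit 0xadcde4)) e) e) e) e)) (c (c (c (c (c (p (nat_lit 0x8d930)) e) e) e) e) e)) (c
  (c (c (c (c (c (p (nat_lit 0x194a6cc)) e) e) e) e) e) e))) (c (c (c (c (c (c (c (m (nat_lit 0xd85dc)) (c (m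
  (nat_lit 0xd8f84)) e)) (c (c (p (nat_lit 0xa24aa0)) e) e)) (c (c (c (m (nat_lit 0x5eba68)) e) e) e)) (c (c
  (c (c (m (nat_lit 0x57906c)) e) e) e) e)) (c (c (c (c (c (p (nat_lit 0x1d47ec)) e) e) e) e) e)) (c (c (c (c
  (c (c (p (nat_lit 0x149d630)) e) e) e) e) e) e)) (c (c (c (c (c (c (c (m (nat_lit 0x10af8c8)) e) e) e) e)
  e) e) e))) (c (c (c (c (c (c (c (c (p (nat_lit 0x89b1a24)) (c (m (nat_lit 0x3e1a620)) e)) (c (c (p (nat_lit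
  0x2ba190c)) e) e)) (c (c (c (p (nat_lit 0x3159b70)) e) e) e)) (c (c (c (c (p (nat_lit 0x29057ac)) e) e) e)
  e)) (c (c (c (c (c (m (nat_lit 0x5dd89c)) e) e) e) e) e)) (c (c (c (c (c (c (p (nat_lit 0x16447b0)) e) e)
  e) e) e) e)) (c (c (c (c (c (c (c (p (nat_lit 0x47fffe2)) e) e) e) e) e) e) e)) (c (c (c (c (c (c (c (c (m
  (nat_lit 0x358eb0a)) e) e) e) e) e) e) e) e))) (c (c (c (c (c (c (c (c (c (m (nat_lit 0x626a018)) (c (m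
  (nat_lit 0x38e7b5c)) e)) (c (c (p (nat_lit 0x155b014)) e) e)) (c (c (c (p (nat_lit 0x1c714c8)) e) e) e)) (c
  (c (c (c (p (nat_lit 0x24ad97c)) e) e) e) e)) (c (c (c (c (c (m (nat_lit 0x11cb71c)) e) e) e) e) e)) (c (c
  (c (c (c (c (p (nat_lit 0xfd53f0)) e) e) e) e) e) e)) (c (c (c (c (c (c (c (m (nat_lit 0x194ed4)) e) e) e)
  e) e) e) e)) (c (c (c (c (c (c (c (c (m (nat_lit 0x71c08bc)) e) e) e) e) e) e) e) e)) (c (c (c (c (c (c (c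
  (c (c (p (nat_lit 0x6584b8)) e) e) e) e) e) e) e) e) e)))))

noncomputable def gt_1_1 : Tr := (c gt_1_1_1 (c gt_1_1_2 (c gt_1_1_3 (c gt_1_1_4 (c gt_1_1_5 (c gt_1_1_6 (c gt_1_1_7 e)))))))

noncomputable def gt_1_2_2 : Tr :=
  (c (c (c (c (c (c (c (c (c (p (nat_lit 0x4896b58)) (c (m (nat_lit 0x409a90a)) (c (m (nat_lit 0xd2ed66))
  e))) (c (c (m (nat_lit 0x5f91c0)) (c (p (nat_lit 0xb62830)) e)) (c (c (m (nat_lit 0x19c8648)) e) e))) (c (c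
  (c (m (nat_lit 0x1cb7470)) (c (p (nat_lit 0x26051fa)) e)) (c (c (p (nat_lit 0x1e577fe)) e) e)) (c (c (c (m
  (nat_lit 0x23109f6)) e) e) e))) (c (c (c (c (m (nat_lit 0x409a90a)) (c (p (nat_lit 0x1505cc5e)) (c (m
  (nat_lit 0xa1ade18)) e))) (c (c (p (nat_lit 0x5d83592)) (c (m (nat_lit 0x6eaab30)) e)) (c (c (p (nat_lit
  0x41776fe)) e) e))) (c (c (c (p (nat_lit 0x58a8bcc)) (c (p (nat_lit 0x1168512)) e)) (c (c (m (nat_lit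
  0x3025cfe)) e) e)) (c (c (c (p (nat_lit 0x27ec61c)) e) e) e))) (c (c (c (c (m (nat_lit 0xd2ed66)) (c (m
  (nat_lit 0xa1ade18)) (c (p (nat_lit 0xd371882)) e))) (c (c (m (nat_lit 0x402aab8)) (c (p (nat_lit
  0x24f7668)) e)) (c (c (m (nat_lit 0x14912ac)) e) e))) (c (c (c (m (nat_lit 0x58dde82)) (c (m (nat_lit
  0x23e91a6)) e)) (c (c (p (nat_lit 0xcf9b16)) e) e)) (c (c (c (p (nat_lit 0x70553a)) e) e) e))) e))) (c (c
  (c (c (c (m (nat_lit 0x5f91c0)) (c (p (nat_lit 0x5d83592)) (c (m (nat_lit 0x402aab8)) e))) (c (c (p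
  (nat_lit 0x1db657f2)) (c (m (nat_lit 0x62a55f2)) e)) (c (c (m (nat_lit 0x967654e)) e) e))) (c (c (c (p
  (nat_lit 0x5196210)) (c (p (nat_lit 0xa1ec14)) e)) (c (c (m (nat_lit 0x2464212)) e) e)) (c (c (c (m
  (nat_lit 0x4505e2)) e) e) e))) (c (c (c (c (p (nat_lit 0xb62830)) (c (m (nat_lit 0x6eaab30)) (c (p (nat_lit
  0x24f7668)) e))) (c (c (m (nat_lit 0x62a55f2)) (c (p (nat_lit 0x87ccffc)) e)) (c (c (m (nat_lit 0x2465b50))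
  e) e))) (c (c (c (p (nat_lit 0x14826c)) (c (m (nat_lit 0x1bb8224)) e)) (c (c (m (nat_lit 0x1f5906)) e) e))
  (c (c (c (m (nat_lit 0xac5d50)) e) e) e))) e)) (c (c (c (c (c (m (nat_lit 0x19c8648)) (c (p (nat_lit
  0x41776fe)) (c (m (nat_lit 0x14912ac)) e))) (c (c (m (nat_lit 0x967654e)) (c (m (nat_lit 0x2465b50)) e)) (c
  (c (p (nat_lit 0x114492a8)) e) e))) (c (c (c (p (nat_lit 0x1b9b3a)) (c (m (nat_lit 0x1408b4e)) e)) (c (c (m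
  (nat_lit 0xd6aa)) e) e)) (c (c (c (m (nat_lit 0xb0fd6)) e) e) e))) e) e))) (c (c (c (c (c (c (m (nat_lit
  0x1cb7470)) (c (p (nat_lit 0x58a8bcc)) (c (m (nat_lit 0x58dde82)) e))) (c (c (p (nat_lit 0x5196210)) (c (p
  (nat_lit 0x14826c)) e)) (c (c (p (nat_lit 0x1b9b3a)) e) e))) (c (c (c (p (nat_lit 0xf7d2f92)) (c (p
  (nat_lit 0x1e5bf0e)) e)) (c (c (m (nat_lit 0x48f0834)) e) e)) (c (c (c (m (nat_lit 0x33d8d6e)) e) e) e)))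
  (c (c (c (c (p (nat_lit 0x26051fa)) (c (p (nat_lit 0x1168512)) (c (m (nat_lit 0x23e91a6)) e))) (c (c (p
  (nat_lit 0xa1ec14)) (c (m (nat_lit 0x1bb8224)) e)) (c (c (m (nat_lit 0x1408b4e)) e) e))) (c (c (c (p
  (nat_lit 0x1e5bf0e)) (c (p (nat_lit 0x95fe326)) e)) (c (c (p (nat_lit 0x5f940c)) e) e)) (c (c (c (m
  (nat_lit 0x4031f04)) e) e) e))) e)) (c (c (c (c (c (p (nat_lit 0x1e577fe)) (c (m (nat_lit 0x3025cfe)) (c (p
  (nat_lit 0xcf9b16)) e))) (c (c (m (nat_lit 0x2464212)) (c (m (nat_lit 0x1f5906)) e)) (c (c (m (nat_lit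
  0xd6aa)) e) e))) (c (c (c (m (nat_lit 0x48f0834)) (c (p (nat_lit 0x5f940c)) e)) (c (c (p (nat_lit
  0x70539b4)) e) e)) (c (c (c (p (nat_lit 0x27cb28)) e) e) e))) e) e)) (c (c (c (c (c (c (m (nat_lit
  0x23109f6)) (c (p (nat_lit 0x27ec61c)) (c (p (nat_lit 0x70553a)) e))) (c (c (m (nat_lit 0x4505e2)) (c (m
  (nat_lit 0xac5d50)) e)) (c (c (m (nat_lit 0xb0fd6)) e) e))) (c (c (c (m (nat_lit 0x33d8d6e)) (c (m (nat_lit
  0x4031f04)) e)) (c (c (p (nat_lit 0x27cb28)) e) e)) (c (c (c (p (nat_lit 0x71f1456)) e) e) e))) e) e) e)))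
  (c (c (c (c (c (c (c (p (nat_lit 0x695d402)) (c (p (nat_lit 0x3adbd58)) (c (p (nat_lit 0x6fdf3ce)) e))) (c
  (c (m (nat_lit 0x23c67d8)) (c (m (nat_lit 0x25f800)) e)) (c (c (m (nat_lit 0x1574f3a)) e) e))) (c (c (c (m
  (nat_lit 0x9eeb3ae)) (c (m (nat_lit 0x523b01e)) e)) (c (c (p (nat_lit 0x1c3464)) e) e)) (c (c (c (p
  (nat_lit 0x534e9d6)) e) e) e))) (c (c (c (c (p (nat_lit 0x3adbd58)) (c (p (nat_lit 0x4f6e90)) (c (m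
  (nat_lit 0x2ec9a94)) e))) (c (c (m (nat_lit 0x7144b18)) (c (p (nat_lit 0x1342a22)) e)) (c (c (p (nat_lit
  0x2993a18)) e) e))) (c (c (c (m (nat_lit 0x20e7616)) (c (p (nat_lit 0xac3650)) e)) (c (c (p (nat_lit
  0x2051fc4)) e) e)) (c (c (c (m (nat_lit 0x1233a26)) e) e) e))) (c (c (c (c (p (nat_lit 0x6fdf3ce)) (c (m
  (nat_lit 0x2ec9a94)) e)) (c (c (p (nat_lit 0x9f20e8)) e) e)) (c (c (c (p (nat_lit 0xe20eba)) e) e) e)) e)))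
  (c (c (c (c (c (m (nat_lit 0x23c67d8)) (c (m (nat_lit 0x7144b18)) (c (p (nat_lit 0x9f20e8)) e))) (c (c (m
  (nat_lit 0x2eadd7a)) (c (p (nat_lit 0x114c570)) e)) (c (c (m (nat_lit 0x4a2e966)) e) e))) (c (c (c (m
  (nat_lit 0x605f232)) (c (p (nat_lit 0xd149c0)) e)) (c (c (p (nat_lit 0x121fb1e)) e) e)) (c (c (c (m
  (nat_lit 0x12fad04)) e) e) e))) (c (c (c (c (m (nat_lit 0x25f800)) (c (p (nat_lit 0x1342a22)) e)) (c (c (p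
  (nat_lit 0x114c570)) e) e)) (c (c (c (p (nat_lit 0xd56fe4)) e) e) e)) e)) (c (c (c (c (c (m (nat_lit
  0x1574f3a)) (c (p (nat_lit 0x2993a18)) e)) (c (c (m (nat_lit 0x4a2e966)) e) e)) (c (c (c (p (nat_lit
  0x1efca44)) e) e) e)) e) e))) (c (c (c (c (c (c (m (nat_lit 0x9eeb3ae)) (c (m (nat_lit 0x20e7616)) (c (p
  (nat_lit 0xe20eba)) e))) (c (c (m (nat_lit 0x605f232)) (c (p (nat_lit 0xd56fe4)) e)) (c (c (p (nat_lit
  0x1efca44)) e) e))) (c (c (c (m (nat_lit 0xc9e562)) (c (m (nat_lit 0xb6c8c8)) e)) (c (c (p (nat_lit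
  0x13f5354)) e) e)) (c (c (c (p (nat_lit 0x21919da)) e) e) e))) (c (c (c (c (m (nat_lit 0x523b01e)) (c (p
  (nat_lit 0xac3650)) e)) (c (c (p (nat_lit 0xd149c0)) e) e)) (c (c (c (m (nat_lit 0xb6c8c8)) e) e) e)) e))
  (c (c (c (c (c (p (nat_lit 0x1c3464)) (c (p (nat_lit 0x2051fc4)) e)) (c (c (p (nat_lit 0x121fb1e)) e) e))
  (c (c (c (p (nat_lit 0x13f5354)) e) e) e)) e) e)) (c (c (c (c (c (c (p (nat_lit 0x534e9d6)) (c (m (nat_lit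
  0x1233a26)) e)) (c (c (m (nat_lit 0x12fad04)) e) e)) (c (c (c (p (nat_lit 0x21919da)) e) e) e)) e) e) e)))
  (c (c (c (c (c (c (c (m (nat_lit 0x2913408)) (c (m (nat_lit 0xd45112a)) (c (m (nat_lit 0x54b2aa)) e))) (c
  (c (m (nat_lit 0x47d8010)) (c (m (nat_lit 0x76ca4)) e)) (c (c (m (nat_lit 0x43ac16)) e) e))) (c (c (c (p
  (nat_lit 0x792ac2)) (c (p (nat_lit 0x346fab2)) e)) (c (c (p (nat_lit 0x156bfa0)) e) e)) (c (c (c (m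
  (nat_lit 0x228925e)) e) e) e))) (c (c (c (c (m (nat_lit 0xd45112a)) (c (p (nat_lit 0x52e1272)) e)) (c (c (p
  (nat_lit 0x145de92)) e) e)) (c (c (c (p (nat_lit 0x7cdf88)) e) e) e)) (c (c (c (c (m (nat_lit 0x54b2aa)) e)
  e) e) e))) (c (c (c (c (c (m (nat_lit 0x47d8010)) (c (p (nat_lit 0x145de92)) e)) (c (c (p (nat_lit
  0x87b7666)) e) e)) (c (c (c (m (nat_lit 0xe5080)) e) e) e)) (c (c (c (c (m (nat_lit 0x76ca4)) e) e) e) e))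
  (c (c (c (c (c (m (nat_lit 0x43ac16)) e) e) e) e) e))) (c (c (c (c (c (c (p (nat_lit 0x792ac2)) (c (p
  (nat_lit 0x7cdf88)) e)) (c (c (m (nat_lit 0xe5080)) e) e)) (c (c (c (p (nat_lit 0x68c50d4)) e) e) e)) (c (c
  (c (c (p (nat_lit 0x346fab2)) e) e) e) e)) (c (c (c (c (c (p (nat_lit 0x156bfa0)) e) e) e) e) e)) (c (c (c
  (c (c (c (m (nat_lit 0x228925e)) e) e) e) e) e) e))) (c (c (c (c (c (c (c (p (nat_lit 0xd393644)) (c (p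
  (nat_lit 0x178bbf4)) e)) (c (c (m (nat_lit 0x1e1878c)) e) e)) (c (c (c (p (nat_lit 0x4089690)) e) e) e)) (c
  (c (c (c (p (nat_lit 0x178bbf4)) e) e) e) e)) (c (c (c (c (c (m (nat_lit 0x1e1878c)) e) e) e) e) e)) (c (c
  (c (c (c (c (p (nat_lit 0x4089690)) e) e) e) e) e) e)) (c (c (c (c (c (c (c (m (nat_lit 0x16667ca)) e) e)
  e) e) e) e) e))))) (c (c (c (c (c (c (c (c (m (nat_lit 0x9a93f2)) (c (m (nat_lit 0x15406ce)) (c (p (nat_lit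
  0x4875948)) e))) (c (c (m (nat_lit 0xe477c28)) (c (p (nat_lit 0x4dcd9a2)) e)) (c (c (m (nat_lit 0x3fe1ea))
  e) e))) (c (c (c (m (nat_lit 0x3fef9be)) (c (m (nat_lit 0x660b922)) e)) (c (c (p (nat_lit 0x1867350)) e)
  e)) (c (c (c (p (nat_lit 0x2939b5c)) e) e) e))) (c (c (c (c (m (nat_lit 0x15406ce)) (c (p (nat_lit
  0x1539937e)) (c (m (nat_lit 0x657960)) e))) (c (c (m (nat_lit 0x3692a48)) (c (p (nat_lit 0x156c35a)) e)) (c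
  (c (p (nat_lit 0x1e93f6c)) e) e))) (c (c (c (m (nat_lit 0x6b0189a)) (c (m (nat_lit 0x1fe01e0)) e)) (c (c (m
  (nat_lit 0x131e056)) e) e)) (c (c (c (p (nat_lit 0x4cec30)) e) e) e))) (c (c (c (c (p (nat_lit 0x4875948))
  (c (m (nat_lit 0x657960)) e)) (c (c (m (nat_lit 0x1552e4e)) e) e)) (c (c (c (p (nat_lit 0xee7088)) e) e)
  e)) e))) (c (c (c (c (c (m (nat_lit 0xe477c28)) (c (m (nat_lit 0x3692a48)) (c (m (nat_lit 0x1552e4e)) e)))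
  (c (c (p (nat_lit 0x1e7ba7be)) (c (m (nat_lit 0x4696410)) e)) (c (c (m (nat_lit 0x8c0f40)) e) e))) (c (c (c
  (m (nat_lit 0x224c088)) (c (p (nat_lit 0x11c6c5e)) e)) (c (c (m (nat_lit 0x3deffde)) e) e)) (c (c (c (m
  (nat_lit 0x14c706)) e) e) e))) (c (c (c (c (p (nat_lit 0x4dcd9a2)) (c (p (nat_lit 0x156c35a)) e)) (c (c (m
  (nat_lit 0x4696410)) e) e)) (c (c (c (p (nat_lit 0x4302f6)) e) e) e)) e)) (c (c (c (c (c (m (nat_lit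
  0x3fe1ea)) (c (p (nat_lit 0x1e93f6c)) e)) (c (c (m (nat_lit 0x8c0f40)) e) e)) (c (c (c (m (nat_lit
  0x362771a)) e) e) e)) e) e))) (c (c (c (c (c (c (m (nat_lit 0x3fef9be)) (c (m (nat_lit 0x6b0189a)) (c (p
  (nat_lit 0xee7088)) e))) (c (c (m (nat_lit 0x224c088)) (c (p (nat_lit 0x4302f6)) e)) (c (c (m (nat_lit
  0x362771a)) e) e))) (c (c (c (p (nat_lit 0xa967c1c)) (c (m (nat_lit 0x3fae2a)) e)) (c (c (p (nat_lit
  0x10fcd0a)) e) e)) (c (c (c (p (nat_lit 0x3e3bda)) e) e) e))) (c (c (c (c (m (nat_lit 0x660b922)) (c (m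
  (nat_lit 0x1fe01e0)) e)) (c (c (p (nat_lit 0x11c6c5e)) e) e)) (c (c (c (m (nat_lit 0x3fae2a)) e) e) e)) e))
  (c (c (c (c (c (p (nat_lit 0x1867350)) (c (m (nat_lit 0x131e056)) e)) (c (c (m (nat_lit 0x3deffde)) e) e))
  (c (c (c (p (nat_lit 0x10fcd0a)) e) e) e)) e) e)) (c (c (c (c (c (c (p (nat_lit 0x2939b5c)) (c (p (nat_lit
  0x4cec30)) e)) (c (c (m (nat_lit 0x14c706)) e) e)) (c (c (c (p (nat_lit 0x3e3bda)) e) e) e)) e) e) e))) (c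
  (c (c (c (c (c (c (p (nat_lit 0x5d1d838)) (c (m (nat_lit 0x34e07aa)) (c (p (nat_lit 0x3556e6)) e))) (c (c
  (p (nat_lit 0x68d4848)) (c (p (nat_lit 0x6179be)) e)) (c (c (m (nat_lit 0x539f04)) e) e))) (c (c (c (p
  (nat_lit 0x5bb3e3a)) (c (m (nat_lit 0xd532fa)) e)) (c (c (m (nat_lit 0x2dff5d0)) e) e)) (c (c (c (m
  (nat_lit 0xd8877e)) e) e) e))) (c (c (c (c (m (nat_lit 0x34e07aa)) (c (m (nat_lit 0x21fc756)) e)) (c (c (m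
  (nat_lit 0x1c1b42e)) e) e)) (c (c (c (p (nat_lit 0x40e3408)) e) e) e)) (c (c (c (c (p (nat_lit 0x3556e6))
  e) e) e) e))) (c (c (c (c (c (p (nat_lit 0x68d4848)) (c (m (nat_lit 0x1c1b42e)) e)) (c (c (m (nat_lit
  0x5bb76b0)) e) e)) (c (c (c (m (nat_lit 0x179d6a2)) e) e) e)) (c (c (c (c (p (nat_lit 0x6179be)) e) e) e)
  e)) (c (c (c (c (c (m (nat_lit 0x539f04)) e) e) e) e) e))) (c (c (c (c (c (c (p (nat_lit 0x5bb3e3a)) (c (p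
  (nat_lit 0x40e3408)) e)) (c (c (m (nat_lit 0x179d6a2)) e) e)) (c (c (c (m (nat_lit 0x365490c)) e) e) e)) (c
  (c (c (c (m (nat_lit 0xd532fa)) e) e) e) e)) (c (c (c (c (c (m (nat_lit 0x2dff5d0)) e) e) e) e) e)) (c (c
  (c (c (c (c (m (nat_lit 0xd8877e)) e) e) e) e) e) e))) (c (c (c (c (c (c (c (p (nat_lit 0xbe11f00)) (c (p
  (nat_lit 0xfa37b8)) e)) (c (c (m (nat_lit 0x1b5c4c6)) e) e)) (c (c (c (m (nat_lit 0x60a1796)) e) e) e)) (c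
  (c (c (c (p (nat_lit 0xfa37b8)) e) e) e) e)) (c (c (c (c (c (m (nat_lit 0x1b5c4c6)) e) e) e) e) e)) (c (c
  (c (c (c (c (m (nat_lit 0x60a1796)) e) e) e) e) e) e)) (c (c (c (c (c (c (c (m (nat_lit 0x36662a6)) e) e)
  e) e) e) e) e)))) (c (c (c (c (c (c (c (c (p (nat_lit 0x9a967b8)) (c (m (nat_lit 0x90be728)) (c (m (nat_lit
  0x1890a4a)) e))) (c (c (m (nat_lit 0x2376cb4)) (c (m (nat_lit 0x590a6c)) e)) (c (c (p (nat_lit 0x26fe30e))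
  e) e))) (c (c (c (m (nat_lit 0x4a89134)) (c (p (nat_lit 0x3b284e0)) e)) (c (c (p (nat_lit 0x3a0c56)) e) e))
  (c (c (c (m (nat_lit 0x229e42c)) e) e) e))) (c (c (c (c (m (nat_lit 0x90be728)) (c (m (nat_lit 0xb57aee8))
  e)) (c (c (p (nat_lit 0x9a919a6)) e) e)) (c (c (c (m (nat_lit 0x29ec2)) e) e) e)) (c (c (c (c (m (nat_lit
  0x1890a4a)) e) e) e) e))) (c (c (c (c (c (m (nat_lit 0x2376cb4)) (c (p (nat_lit 0x9a919a6)) e)) (c (c (p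
  (nat_lit 0x4462e48)) e) e)) (c (c (c (p (nat_lit 0x3e8423e)) e) e) e)) (c (c (c (c (m (nat_lit 0x590a6c))
  e) e) e) e)) (c (c (c (c (c (p (nat_lit 0x26fe30e)) e) e) e) e) e))) (c (c (c (c (c (c (m (nat_lit
  0x4a89134)) (c (m (nat_lit 0x29ec2)) e)) (c (c (p (nat_lit 0x3e8423e)) e) e)) (c (c (c (m (nat_lit
  0x63fefd0)) e) e) e)) (c (c (c (c (p (nat_lit 0x3b284e0)) e) e) e) e)) (c (c (c (c (c (p (nat_lit
  0x3a0c56)) e) e) e) e) e)) (c (c (c (c (c (c (m (nat_lit 0x229e42c)) e) e) e) e) e) e))) (c (c (c (c (c (c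
  (c (p (nat_lit 0x47da50)) (c (m (nat_lit 0xe95446)) e)) (c (c (m (nat_lit 0x87df6e)) e) e)) (c (c (c (p
  (nat_lit 0x17e224c)) e) e) e)) (c (c (c (c (m (nat_lit 0xe95446)) e) e) e) e)) (c (c (c (c (c (m (nat_lit
  0x87df6e)) e) e) e) e) e)) (c (c (c (c (c (c (p (nat_lit 0x17e224c)) e) e) e) e) e) e)) (c (c (c (c (c (c
  (c (m (nat_lit 0x7b1e66c)) e) e) e) e) e) e) e))) (c (c (c (c (c (c (c (c (p (nat_lit 0x790f3d4)) (c (p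
  (nat_lit 0x4e49d70)) e)) (c (c (m (nat_lit 0x565d49c)) e) e)) (c (c (c (p (nat_lit 0x4a714b2)) e) e) e)) (c
  (c (c (c (p (nat_lit 0x4e49d70)) e) e) e) e)) (c (c (c (c (c (m (nat_lit 0x565d49c)) e) e) e) e) e)) (c (c
  (c (c (c (c (p (nat_lit 0x4a714b2)) e) e) e) e) e) e)) (c (c (c (c (c (c (c (p (nat_lit 0x1790436)) e) e)
  e) e) e) e) e)) (c (c (c (c (c (c (c (c (m (nat_lit 0x82147f8)) e) e) e) e) e) e) e) e))))) (c (c (c (c (c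
  (c (c (c (c (m (nat_lit 0x119da20)) (c (m (nat_lit 0x3bc375a)) (c (p (nat_lit 0x24050a)) e))) (c (c (m
  (nat_lit 0x3790662)) (c (p (nat_lit 0xd56954)) e)) (c (c (p (nat_lit 0x227f478)) e) e))) (c (c (c (m
  (nat_lit 0x2d98cfa)) (c (m (nat_lit 0x382a412)) e)) (c (c (p (nat_lit 0x1c9b10e)) e) e)) (c (c (c (p
  (nat_lit 0x21ea38a)) e) e) e))) (c (c (c (c (m (nat_lit 0x3bc375a)) (c (m (nat_lit 0x1fd99a0)) (c (p
  (nat_lit 0x4cb468)) e))) (c (c (p (nat_lit 0x42b1504)) (c (m (nat_lit 0xa18d5e)) e)) (c (c (p (nat_lit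
  0xfea984)) e) e))) (c (c (c (m (nat_lit 0xecda0e)) (c (m (nat_lit 0x1deba8)) e)) (c (c (m (nat_lit
  0x15d3506)) e) e)) (c (c (c (m (nat_lit 0x10c41ea)) e) e) e))) (c (c (c (c (p (nat_lit 0x24050a)) (c (p
  (nat_lit 0x4cb468)) e)) (c (c (m (nat_lit 0x114c0a8)) e) e)) (c (c (c (p (nat_lit 0x1efb76c)) e) e) e))
  e))) (c (c (c (c (c (m (nat_lit 0x3790662)) (c (p (nat_lit 0x42b1504)) (c (m (nat_lit 0x114c0a8)) e))) (c
  (c (m (nat_lit 0x1f699e0)) (c (m (nat_lit 0x10c8d2)) e)) (c (c (m (nat_lit 0x83a474)) e) e))) (c (c (c (m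
  (nat_lit 0x13be1c6)) (c (m (nat_lit 0x19160a)) e)) (c (c (p (nat_lit 0xd5245a)) e) e)) (c (c (c (p (nat_lit
  0x2dcc12)) e) e) e))) (c (c (c (c (p (nat_lit 0xd56954)) (c (m (nat_lit 0xa18d5e)) e)) (c (c (m (nat_lit
  0x10c8d2)) e) e)) (c (c (c (p (nat_lit 0x185e764)) e) e) e)) e)) (c (c (c (c (c (p (nat_lit 0x227f478)) (c
  (p (nat_lit 0xfea984)) e)) (c (c (m (nat_lit 0x83a474)) e) e)) (c (c (c (p (nat_lit 0x3b1882)) e) e) e)) e)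
  e))) (c (c (c (c (c (c (m (nat_lit 0x2d98cfa)) (c (m (nat_lit 0xecda0e)) (c (p (nat_lit 0x1efb76c)) e))) (c
  (c (m (nat_lit 0x13be1c6)) (c (p (nat_lit 0x185e764)) e)) (c (c (p (nat_lit 0x3b1882)) e) e))) (c (c (c (m
  (nat_lit 0x3f2e29c)) (c (p (nat_lit 0x97c05c)) e)) (c (c (p (nat_lit 0xfe11d4)) e) e)) (c (c (c (m (nat_lit
  0x575bda)) e) e) e))) (c (c (c (c (m (nat_lit 0x382a412)) (c (m (nat_lit 0x1deba8)) e)) (c (c (m (nat_lit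
  0x19160a)) e) e)) (c (c (c (p (nat_lit 0x97c05c)) e) e) e)) e)) (c (c (c (c (c (p (nat_lit 0x1c9b10e)) (c
  (m (nat_lit 0x15d3506)) e)) (c (c (p (nat_lit 0xd5245a)) e) e)) (c (c (c (p (nat_lit 0xfe11d4)) e) e) e))
  e) e)) (c (c (c (c (c (c (p (nat_lit 0x21ea38a)) (c (m (nat_lit 0x10c41ea)) e)) (c (c (p (nat_lit
  0x2dcc12)) e) e)) (c (c (c (m (nat_lit 0x575bda)) e) e) e)) e) e) e))) (c (c (c (c (c (c (c (p (nat_lit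
  0xd737180)) (c (p (nat_lit 0x383f388)) (c (m (nat_lit 0x14a9b82)) e))) (c (c (m (nat_lit 0x28d4b88)) (c (m
  (nat_lit 0xcda7d8)) e)) (c (c (m (nat_lit 0x8f1af2)) e) e))) (c (c (c (p (nat_lit 0xf9588)) (c (p (nat_lit
  0x1a03eb6)) e)) (c (c (m (nat_lit 0x1aae3ee)) e) e)) (c (c (c (m (nat_lit 0x421be4)) e) e) e))) (c (c (c (c
  (p (nat_lit 0x383f388)) (c (p (nat_lit 0x4829dc)) e)) (c (c (m (nat_lit 0xc4f164)) e) e)) (c (c (c (m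
  (nat_lit 0x6396a2)) e) e) e)) (c (c (c (c (m (nat_lit 0x14a9b82)) e) e) e) e))) (c (c (c (c (c (m (nat_lit
  0x28d4b88)) (c (m (nat_lit 0xc4f164)) e)) (c (c (p (nat_lit 0x2dd146c)) e) e)) (c (c (c (m (nat_lit
  0xf63810)) e) e) e)) (c (c (c (c (m (nat_lit 0xcda7d8)) e) e) e) e)) (c (c (c (c (c (m (nat_lit 0x8f1af2))
  e) e) e) e) e))) (c (c (c (c (c (c (p (nat_lit 0xf9588)) (c (m (nat_lit 0x6396a2)) e)) (c (c (m (nat_lit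
  0xf63810)) e) e)) (c (c (c (p (nat_lit 0x1b8fd90)) e) e) e)) (c (c (c (c (p (nat_lit 0x1a03eb6)) e) e) e)
  e)) (c (c (c (c (c (m (nat_lit 0x1aae3ee)) e) e) e) e) e)) (c (c (c (c (c (c (m (nat_lit 0x421be4)) e) e)
  e) e) e) e))) (c (c (c (c (c (c (c (m (nat_lit 0x23e29b4)) (c (m (nat_lit 0xf8f7f6)) e)) (c (c (m (nat_lit
  0x125ea4c)) e) e)) (c (c (c (p (nat_lit 0x7db38c)) e) e) e)) (c (c (c (c (m (nat_lit 0xf8f7f6)) e) e) e)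
  e)) (c (c (c (c (c (m (nat_lit 0x125ea4c)) e) e) e) e) e)) (c (c (c (c (c (c (p (nat_lit 0x7db38c)) e) e)
  e) e) e) e)) (c (c (c (c (c (c (c (m (nat_lit 0x27eafa8)) e) e) e) e) e) e) e)))) (c (c (c (c (c (c (c (c
  (p (nat_lit 0x7c8d380)) (c (m (nat_lit 0x47187ba)) (c (m (nat_lit 0x1847532)) e))) (c (c (p (nat_lit
  0x41511a8)) (c (m (nat_lit 0x1815510)) e)) (c (c (m (nat_lit 0x9bc754)) e) e))) (c (c (c (p (nat_lit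
  0x19a9244)) (c (p (nat_lit 0x1200342)) e)) (c (c (m (nat_lit 0xff882)) e) e)) (c (c (c (m (nat_lit
  0xec5f68)) e) e) e))) (c (c (c (c (m (nat_lit 0x47187ba)) (c (p (nat_lit 0xa62d8)) e)) (c (c (p (nat_lit
  0x2d23b8)) e) e)) (c (c (c (p (nat_lit 0x1b9a0a4)) e) e) e)) (c (c (c (c (m (nat_lit 0x1847532)) e) e) e)
  e))) (c (c (c (c (c (p (nat_lit 0x41511a8)) (c (p (nat_lit 0x2d23b8)) e)) (c (c (m (nat_lit 0x28c6794)) e)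
  e)) (c (c (c (m (nat_lit 0x1f3d2aa)) e) e) e)) (c (c (c (c (m (nat_lit 0x1815510)) e) e) e) e)) (c (c (c (c
  (c (m (nat_lit 0x9bc754)) e) e) e) e) e))) (c (c (c (c (c (c (p (nat_lit 0x19a9244)) (c (p (nat_lit
  0x1b9a0a4)) e)) (c (c (m (nat_lit 0x1f3d2aa)) e) e)) (c (c (c (m (nat_lit 0x241ca4c)) e) e) e)) (c (c (c (c
  (p (nat_lit 0x1200342)) e) e) e) e)) (c (c (c (c (c (m (nat_lit 0xff882)) e) e) e) e) e)) (c (c (c (c (c (c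
  (m (nat_lit 0xec5f68)) e) e) e) e) e) e))) (c (c (c (c (c (c (c (m (nat_lit 0x55e7200)) (c (p (nat_lit
  0x18d7568)) e)) (c (c (p (nat_lit 0x85618e)) e) e)) (c (c (c (m (nat_lit 0x3d0ddba)) e) e) e)) (c (c (c (c
  (p (nat_lit 0x18d7568)) e) e) e) e)) (c (c (c (c (c (p (nat_lit 0x85618e)) e) e) e) e) e)) (c (c (c (c (c
  (c (m (nat_lit 0x3d0ddba)) e) e) e) e) e) e)) (c (c (c (c (c (c (c (m (nat_lit 0x735768)) e) e) e) e) e) e)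
  e))) (c (c (c (c (c (c (c (c (m (nat_lit 0xac62cc)) (c (p (nat_lit 0x131dba0)) e)) (c (c (m (nat_lit
  0x229e966)) e) e)) (c (c (c (p (nat_lit 0x176a6d8)) e) e) e)) (c (c (c (c (p (nat_lit 0x131dba0)) e) e) e)
  e)) (c (c (c (c (c (m (nat_lit 0x229e966)) e) e) e) e) e)) (c (c (c (c (c (c (p (nat_lit 0x176a6d8)) e) e)
  e) e) e) e)) (c (c (c (c (c (c (c (p (nat_lit 0x13df7e4)) e) e) e) e) e) e) e)) (c (c (c (c (c (c (c (c (m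
  (nat_lit 0x13e8fb8)) e) e) e) e) e) e) e) e)))) (c (c (c (c (c (c (c (c (c (p (nat_lit 0x135923ee)) (c (m
  (nat_lit 0x40bcd38)) (c (p (nat_lit 0xa951f2)) e))) (c (c (p (nat_lit 0x1a81fdc)) (c (p (nat_lit 0x70ccb6))
  e)) (c (c (m (nat_lit 0x2d9ceb8)) e) e))) (c (c (c (m (nat_lit 0x22088dc)) (c (p (nat_lit 0xbd4d58)) e)) (c
  (c (p (nat_lit 0x15f3fc)) e) e)) (c (c (c (p (nat_lit 0xd09a2e)) e) e) e))) (c (c (c (c (m (nat_lit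
  0x40bcd38)) (c (p (nat_lit 0xa12037a)) e)) (c (c (m (nat_lit 0x1f6bcb4)) e) e)) (c (c (c (m (nat_lit
  0xa10ca0)) e) e) e)) (c (c (c (c (p (nat_lit 0xa951f2)) e) e) e) e))) (c (c (c (c (c (p (nat_lit
  0x1a81fdc)) (c (m (nat_lit 0x1f6bcb4)) e)) (c (c (p (nat_lit 0x4c7891a)) e) e)) (c (c (c (m (nat_lit
  0x44796)) e) e) e)) (c (c (c (c (p (nat_lit 0x70ccb6)) e) e) e) e)) (c (c (c (c (c (m (nat_lit 0x2d9ceb8))
  e) e) e) e) e))) (c (c (c (c (c (c (m (nat_lit 0x22088dc)) (c (m (nat_lit 0xa10ca0)) e)) (c (c (m (nat_lit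
  0x44796)) e) e)) (c (c (c (p (nat_lit 0x41c2698)) e) e) e)) (c (c (c (c (p (nat_lit 0xbd4d58)) e) e) e) e))
  (c (c (c (c (c (p (nat_lit 0x15f3fc)) e) e) e) e) e)) (c (c (c (c (c (c (p (nat_lit 0xd09a2e)) e) e) e) e)
  e) e))) (c (c (c (c (c (c (c (m (nat_lit 0x4a13342)) (c (m (nat_lit 0xf7bb9a)) e)) (c (c (p (nat_lit
  0xbd6e3a)) e) e)) (c (c (c (p (nat_lit 0x898f14)) e) e) e)) (c (c (c (c (m (nat_lit 0xf7bb9a)) e) e) e) e))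
  (c (c (c (c (c (p (nat_lit 0xbd6e3a)) e) e) e) e) e)) (c (c (c (c (c (c (p (nat_lit 0x898f14)) e) e) e) e)
  e) e)) (c (c (c (c (c (c (c (p (nat_lit 0x4ab6a1c)) e) e) e) e) e) e) e))) (c (c (c (c (c (c (c (c (p
  (nat_lit 0x29a55ce)) (c (p (nat_lit 0xb27cd0)) e)) (c (c (p (nat_lit 0xed1e60)) e) e)) (c (c (c (m (nat_lit
  0xae1afa)) e) e) e)) (c (c (c (c (p (nat_lit 0xb27cd0)) e) e) e) e)) (c (c (c (c (c (p (nat_lit 0xed1e60))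
  e) e) e) e) e)) (c (c (c (c (c (c (m (nat_lit 0xae1afa)) e) e) e) e) e) e)) (c (c (c (c (c (c (c (m
  (nat_lit 0xb8085a)) e) e) e) e) e) e) e)) (c (c (c (c (c (c (c (c (m (nat_lit 0x425f3ac)) e) e) e) e) e) e)
  e) e))) (c (c (c (c (c (c (c (c (c (m (nat_lit 0xbbdf7fc)) (c (m (nat_lit 0x11240b2)) e)) (c (c (m (nat_lit
  0x1bf1b6)) e) e)) (c (c (c (p (nat_lit 0x2d1422)) e) e) e)) (c (c (c (c (m (nat_lit 0x11240b2)) e) e) e)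
  e)) (c (c (c (c (c (m (nat_lit 0x1bf1b6)) e) e) e) e) e)) (c (c (c (c (c (c (p (nat_lit 0x2d1422)) e) e) e)
  e) e) e)) (c (c (c (c (c (c (c (p (nat_lit 0xc5b74)) e) e) e) e) e) e) e)) (c (c (c (c (c (c (c (c (p
  (nat_lit 0x57405c)) e) e) e) e) e) e) e) e)) (c (c (c (c (c (c (c (c (c (p (nat_lit 0x5bad9a8)) e) e) e) e)
  e) e) e) e) e)))))

noncomputable def gt_1_2_3 : Tr :=
  (c (c (c (c (c (c (c (c (c (m (nat_lit 0x117cc)) (c (m (nat_lit 0x4ba14)) (c (m (nat_lit 0x4d5938)) e))) (c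
  (c (p (nat_lit 0x2932c2c)) (c (m (nat_lit 0x8c862)) e)) (c (c (m (nat_lit 0x30c97bc)) e) e))) (c (c (c (m
  (nat_lit 0x1792890)) (c (m (nat_lit 0x11f44fe)) e)) (c (c (p (nat_lit 0xbfdb9a)) e) e)) (c (c (c (p
  (nat_lit 0x5a3774)) e) e) e))) (c (c (c (c (p (nat_lit 0x25790dc)) (c (p (nat_lit 0x1593f30)) (c (p
  (nat_lit 0x3307530)) e))) (c (c (m (nat_lit 0x615e7cc)) (c (m (nat_lit 0x15a9bde)) e)) (c (c (p (nat_lit
  0x67733a0)) e) e))) (c (c (c (p (nat_lit 0x92bcc98)) (c (m (nat_lit 0xc59712)) e)) (c (c (p (nat_lit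
  0x1ab4d54)) e) e)) (c (c (c (m (nat_lit 0x3828786)) e) e) e))) (c (c (c (c (p (nat_lit 0x17a066c)) (c (p
  (nat_lit 0xbe1520)) (c (p (nat_lit 0x113178)) e))) (c (c (p (nat_lit 0x2adbd80)) (c (p (nat_lit 0xd4da8c))
  e)) (c (c (m (nat_lit 0x26864b8)) e) e))) (c (c (c (m (nat_lit 0x76fb9f6)) (c (p (nat_lit 0x23fc7e4)) e))
  (c (c (m (nat_lit 0x227ecf2)) e) e)) (c (c (c (p (nat_lit 0x34626de)) e) e) e))) e))) (c (c (c (c (c (m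
  (nat_lit 0x1bd9962)) (c (p (nat_lit 0xe227bc0)) (c (m (nat_lit 0xaeee944)) e))) (c (c (p (nat_lit
  0x1ea8384)) (c (p (nat_lit 0x3777bac)) e)) (c (c (p (nat_lit 0x3346590)) e) e))) (c (c (c (p (nat_lit
  0xe083e1e)) (c (m (nat_lit 0x11de4fc)) e)) (c (c (m (nat_lit 0x213b178)) e) e)) (c (c (c (m (nat_lit
  0x55d7ac8)) e) e) e))) (c (c (c (c (m (nat_lit 0x318fdb0)) (c (m (nat_lit 0xbce80)) (c (m (nat_lit
  0xc04068)) e))) (c (c (p (nat_lit 0x4d3aa14)) (c (p (nat_lit 0x2c1c8a)) e)) (c (c (m (nat_lit 0x39ae1f8))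
  e) e))) (c (c (c (p (nat_lit 0x163c6d4)) (c (m (nat_lit 0x3afd64)) e)) (c (c (m (nat_lit 0x1dae7a2)) e) e))
  (c (c (c (m (nat_lit 0xdedaca)) e) e) e))) e)) (c (c (c (c (c (p (nat_lit 0x21e8f32)) (c (m (nat_lit
  0x7a427f0)) (c (p (nat_lit 0x6b776c8)) e))) (c (c (m (nat_lit 0x50adaf4)) (c (p (nat_lit 0x156186)) e)) (c
  (c (p (nat_lit 0x3912024)) e) e))) (c (c (c (m (nat_lit 0x648dd1c)) (c (p (nat_lit 0x2d761d0)) e)) (c (c (p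
  (nat_lit 0x23ee060)) e) e)) (c (c (c (p (nat_lit 0xf8dee8)) e) e) e))) e) e))) (c (c (c (c (c (c (m
  (nat_lit 0x2868216)) (c (p (nat_lit 0x12b78a0)) (c (m (nat_lit 0x73bdb0)) e))) (c (c (m (nat_lit
  0x27264f0)) (c (p (nat_lit 0x2557872)) e)) (c (c (m (nat_lit 0x40a790)) e) e))) (c (c (c (p (nat_lit
  0xb753b4a)) (c (p (nat_lit 0x89e7ee)) e)) (c (c (m (nat_lit 0x3fde8be)) e) e)) (c (c (c (m (nat_lit
  0x581c460)) e) e) e))) (c (c (c (c (p (nat_lit 0x139ff1a)) (c (p (nat_lit 0x1c67148)) (c (m (nat_lit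
  0x1c82afc)) e))) (c (c (m (nat_lit 0x4555830)) (c (m (nat_lit 0x2ab8716)) e)) (c (c (p (nat_lit 0x26b93a4))
  e) e))) (c (c (c (m (nat_lit 0x1799eaa)) (c (p (nat_lit 0xc92da2)) e)) (c (c (p (nat_lit 0x176ac60)) e) e))
  (c (c (c (m (nat_lit 0x6db4bc)) e) e) e))) e)) (c (c (c (c (c (m (nat_lit 0x563a)) (c (m (nat_lit
  0x6ada48)) (c (p (nat_lit 0x1de698)) e))) (c (c (p (nat_lit 0x16eb250)) (c (m (nat_lit 0x5915fa)) e)) (c (c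
  (m (nat_lit 0xf3a4d0)) e) e))) (c (c (c (m (nat_lit 0x49ff3ce)) (c (p (nat_lit 0x3d555e)) e)) (c (c (p
  (nat_lit 0x1f4231a)) e) e)) (c (c (c (p (nat_lit 0x21e6fee)) e) e) e))) e) e)) (c (c (c (c (c (c (m
  (nat_lit 0x1c5d6ec)) (c (p (nat_lit 0x32f5614)) (c (m (nat_lit 0xab6dc8)) e))) (c (c (p (nat_lit 0xc7743c))
  (c (p (nat_lit 0xea6510)) e)) (c (c (p (nat_lit 0x10db4dc)) e) e))) (c (c (c (p (nat_lit 0x2a6e910)) (c (m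
  (nat_lit 0x22b839a)) e)) (c (c (m (nat_lit 0xc8a912)) e) e)) (c (c (c (p (nat_lit 0x999a6e)) e) e) e))) e)
  e) e))) (c (c (c (c (c (c (c (m (nat_lit 0x3a7dfae)) (c (p (nat_lit 0x77a2d6c)) (c (m (nat_lit 0x26de274))
  e))) (c (c (p (nat_lit 0xefe02ea)) (c (m (nat_lit 0x1fb4020)) e)) (c (c (m (nat_lit 0x382dd9c)) e) e))) (c
  (c (c (m (nat_lit 0xc53090a)) (c (p (nat_lit 0x1a09286)) e)) (c (c (p (nat_lit 0x35bd6e2)) e) e)) (c (c (c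
  (p (nat_lit 0x49a0a00)) e) e) e))) (c (c (c (c (m (nat_lit 0x4c54e5a)) (c (p (nat_lit 0x525a6f2)) (c (m
  (nat_lit 0x58b4bc)) e))) (c (c (m (nat_lit 0x1b091ce)) (c (m (nat_lit 0x842d30)) e)) (c (c (m (nat_lit
  0x8a74f4)) e) e))) (c (c (c (m (nat_lit 0x71bcb24)) (c (m (nat_lit 0x1bac92)) e)) (c (c (p (nat_lit
  0xd16d8a)) e) e)) (c (c (c (p (nat_lit 0x13a0e8c)) e) e) e))) (c (c (c (c (m (nat_lit 0x12f6396)) (c (p
  (nat_lit 0x13b1ddc)) e)) (c (c (m (nat_lit 0x28a10f6)) e) e)) (c (c (c (m (nat_lit 0x2cfc304)) e) e) e))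
  e))) (c (c (c (c (c (m (nat_lit 0x574a2ec)) (c (p (nat_lit 0x12658c8)) (c (p (nat_lit 0x9925a4)) e))) (c (c
  (m (nat_lit 0x4fa5b60)) (c (p (nat_lit 0x16daaf8)) e)) (c (c (m (nat_lit 0xf91a4)) e) e))) (c (c (c (p
  (nat_lit 0x699af20)) (c (m (nat_lit 0x3444414)) e)) (c (c (m (nat_lit 0x19e0b28)) e) e)) (c (c (c (m
  (nat_lit 0x33b4750)) e) e) e))) (c (c (c (c (p (nat_lit 0x1fa5aa6)) (c (m (nat_lit 0x1aa153c)) e)) (c (c (p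
  (nat_lit 0x87e8aa)) e) e)) (c (c (c (p (nat_lit 0x26a4e00)) e) e) e)) e)) (c (c (c (c (c (p (nat_lit
  0x57f782a)) (c (p (nat_lit 0x14aceb8)) e)) (c (c (p (nat_lit 0x29a3642)) e) e)) (c (c (c (p (nat_lit
  0x16d18a)) e) e) e)) e) e))) (c (c (c (c (c (c (m (nat_lit 0x17f0e14)) (c (m (nat_lit 0x710a126)) (c (p
  (nat_lit 0x47be7c8)) e))) (c (c (m (nat_lit 0xf2c814)) (c (p (nat_lit 0x6a4cf4)) e)) (c (c (m (nat_lit
  0x16a0df0)) e) e))) (c (c (c (p (nat_lit 0x8c4a320)) (c (m (nat_lit 0x456f30)) e)) (c (c (p (nat_lit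
  0x132cf0)) e) e)) (c (c (c (m (nat_lit 0x13dab64)) e) e) e))) (c (c (c (c (m (nat_lit 0x1b77772)) (c (p
  (nat_lit 0x8d7326)) e)) (c (c (p (nat_lit 0x2218710)) e) e)) (c (c (c (p (nat_lit 0xaa1a20)) e) e) e)) e))
  (c (c (c (c (c (m (nat_lit 0x26bd9a0)) (c (m (nat_lit 0x134772)) e)) (c (c (p (nat_lit 0x11258a6)) e) e))
  (c (c (c (m (nat_lit 0x2918d6)) e) e) e)) e) e)) (c (c (c (c (c (c (m (nat_lit 0x5f02c8)) (c (p (nat_lit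
  0xee53e4)) e)) (c (c (m (nat_lit 0x3334e12)) e) e)) (c (c (c (p (nat_lit 0x3364e90)) e) e) e)) e) e) e)))
  (c (c (c (c (c (c (c (p (nat_lit 0x1162462e)) (c (m (nat_lit 0xfe1a188)) (c (p (nat_lit 0x5556c84)) e))) (c
  (c (m (nat_lit 0xd07eee4)) (c (p (nat_lit 0xff2562)) e)) (c (c (p (nat_lit 0x114a104)) e) e))) (c (c (c (m
  (nat_lit 0xb3368c2)) (c (p (nat_lit 0x20d679e)) e)) (c (c (p (nat_lit 0x104b9f8)) e) e)) (c (c (c (p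
  (nat_lit 0x1c5d1a0)) e) e) e))) (c (c (c (c (p (nat_lit 0x13b3474)) (c (m (nat_lit 0x5274582)) e)) (c (c (p
  (nat_lit 0x5a38316)) e) e)) (c (c (c (p (nat_lit 0x395711a)) e) e) e)) (c (c (c (c (p (nat_lit 0x2c3a3d8))
  e) e) e) e))) (c (c (c (c (c (m (nat_lit 0x5731290)) (c (m (nat_lit 0xedc02a)) e)) (c (c (p (nat_lit
  0x5fe0cbc)) e) e)) (c (c (c (p (nat_lit 0x1733b6e)) e) e) e)) (c (c (c (c (m (nat_lit 0x156912)) e) e) e)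
  e)) (c (c (c (c (c (m (nat_lit 0x60dfc6e)) e) e) e) e) e))) (c (c (c (c (c (c (m (nat_lit 0x143d204)) (c (p
  (nat_lit 0xbb8870)) e)) (c (c (p (nat_lit 0x457b372)) e) e)) (c (c (c (p (nat_lit 0x1a4a8d2)) e) e) e)) (c
  (c (c (c (p (nat_lit 0xe47224)) e) e) e) e)) (c (c (c (c (c (p (nat_lit 0x37e6e0a)) e) e) e) e) e)) (c (c
  (c (c (c (c (m (nat_lit 0x5e93ec)) e) e) e) e) e) e))) (c (c (c (c (c (c (c (m (nat_lit 0x9751134)) (c (p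
  (nat_lit 0x3057b10)) e)) (c (c (m (nat_lit 0x42d23d8)) e) e)) (c (c (c (p (nat_lit 0x1ab895a)) e) e) e)) (c
  (c (c (c (m (nat_lit 0x2904a44)) e) e) e) e)) (c (c (c (c (c (p (nat_lit 0x17a1e60)) e) e) e) e) e)) (c (c
  (c (c (c (c (m (nat_lit 0x18d8852)) e) e) e) e) e) e)) (c (c (c (c (c (c (c (p (nat_lit 0x7110d44)) e) e)
  e) e) e) e) e))))) (c (c (c (c (c (c (c (c (m (nat_lit 0x1e8d9d2)) (c (m (nat_lit 0x47df8d0)) (c (m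
  (nat_lit 0x14417e8)) e))) (c (c (m (nat_lit 0xc55d64)) (c (p (nat_lit 0xa30eb4)) e)) (c (c (m (nat_lit
  0xf4d550)) e) e))) (c (c (c (m (nat_lit 0x56eea14)) (c (p (nat_lit 0x636f48)) e)) (c (c (m (nat_lit
  0x1de8a2)) e) e)) (c (c (c (p (nat_lit 0x3acf542)) e) e) e))) (c (c (c (c (m (nat_lit 0x1040db94)) (c (m
  (nat_lit 0xd0dd7e6)) (c (m (nat_lit 0x10d0cdc)) e))) (c (c (m (nat_lit 0xd236216)) (c (p (nat_lit
  0x103a34c)) e)) (c (c (m (nat_lit 0x22d1714)) e) e))) (c (c (c (p (nat_lit 0x90ad076)) (c (m (nat_lit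
  0x1c87c86)) e)) (c (c (m (nat_lit 0x1997c76)) e) e)) (c (c (c (m (nat_lit 0x3a2db96)) e) e) e))) (c (c (c
  (c (p (nat_lit 0x18e6580)) (c (m (nat_lit 0x1729dfa)) e)) (c (c (p (nat_lit 0x4ad23dc)) e) e)) (c (c (c (p
  (nat_lit 0xdf98fc)) e) e) e)) e))) (c (c (c (c (c (p (nat_lit 0x164a72c)) (c (p (nat_lit 0x3f042d8)) (c (p
  (nat_lit 0x24cdc8c)) e))) (c (c (p (nat_lit 0x813dd8e)) (c (m (nat_lit 0x240e61c)) e)) (c (c (p (nat_lit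
  0x2c4b91c)) e) e))) (c (c (c (m (nat_lit 0xd2a44)) (c (p (nat_lit 0x1041eca)) e)) (c (c (p (nat_lit
  0x10f08e4)) e) e)) (c (c (c (m (nat_lit 0x32edb8)) e) e) e))) (c (c (c (c (p (nat_lit 0x225d830)) (c (p
  (nat_lit 0xe70036)) e)) (c (c (m (nat_lit 0xa0f25a)) e) e)) (c (c (c (m (nat_lit 0x143b428)) e) e) e)) e))
  (c (c (c (c (c (m (nat_lit 0x2b5102)) (c (m (nat_lit 0x2271480)) e)) (c (c (m (nat_lit 0x4bf144)) e) e)) (c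
  (c (c (p (nat_lit 0xa08576)) e) e) e)) e) e))) (c (c (c (c (c (c (p (nat_lit 0x50f9982)) (c (p (nat_lit
  0xf0ad016)) (c (m (nat_lit 0x2cb005c)) e))) (c (c (m (nat_lit 0x9c1e0a8)) (c (m (nat_lit 0x1be40c0)) e)) (c
  (c (m (nat_lit 0x2353320)) e) e))) (c (c (c (m (nat_lit 0x28f462e)) (c (m (nat_lit 0x13374a2)) e)) (c (c (p
  (nat_lit 0xb27586)) e) e)) (c (c (c (p (nat_lit 0xab684c)) e) e) e))) (c (c (c (c (p (nat_lit 0x60a0f2)) (c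
  (m (nat_lit 0x2bd112)) e)) (c (c (m (nat_lit 0xc32dae)) e) e)) (c (c (c (m (nat_lit 0x1105674)) e) e) e))
  e)) (c (c (c (c (c (p (nat_lit 0x18e8d16)) (c (m (nat_lit 0x4b38b8)) e)) (c (c (p (nat_lit 0x2006eda)) e)
  e)) (c (c (c (m (nat_lit 0x4efc9c)) e) e) e)) e) e)) (c (c (c (c (c (c (m (nat_lit 0x2163aaa)) (c (p
  (nat_lit 0x496c3e)) e)) (c (c (p (nat_lit 0xd7342a)) e) e)) (c (c (c (p (nat_lit 0xfa7dd8)) e) e) e)) e) e)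
  e))) (c (c (c (c (c (c (c (p (nat_lit 0x10a4a92)) (c (m (nat_lit 0x5398b96)) (c (m (nat_lit 0x31ad870))
  e))) (c (c (p (nat_lit 0x33970da)) (c (m (nat_lit 0x7b5f82)) e)) (c (c (p (nat_lit 0x1198c80)) e) e))) (c
  (c (c (m (nat_lit 0x6e82c0)) (c (p (nat_lit 0x5dd5e4)) e)) (c (c (m (nat_lit 0x2500dd6)) e) e)) (c (c (c (p
  (nat_lit 0x11a734a)) e) e) e))) (c (c (c (c (p (nat_lit 0x140d7d46)) (c (p (nat_lit 0x75f8be0)) e)) (c (c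
  (p (nat_lit 0x1110762)) e) e)) (c (c (c (p (nat_lit 0x4d46366)) e) e) e)) (c (c (c (c (m (nat_lit
  0x13a8392)) e) e) e) e))) (c (c (c (c (c (m (nat_lit 0x5e85ee0)) (c (m (nat_lit 0x3843fc)) e)) (c (c (m
  (nat_lit 0x346b720)) e) e)) (c (c (c (m (nat_lit 0x1f832b8)) e) e) e)) (c (c (c (c (m (nat_lit 0x18c5b7a))
  e) e) e) e)) (c (c (c (c (c (m (nat_lit 0x15ea48)) e) e) e) e) e))) (c (c (c (c (c (c (m (nat_lit
  0x5910708)) (c (m (nat_lit 0x5ddca64)) e)) (c (c (p (nat_lit 0x33aed74)) e) e)) (c (c (c (m (nat_lit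
  0xa4fe56)) e) e) e)) (c (c (c (c (m (nat_lit 0x54e40c)) e) e) e) e)) (c (c (c (c (c (m (nat_lit 0x3cd2840))
  e) e) e) e) e)) (c (c (c (c (c (c (p (nat_lit 0xc3537c)) e) e) e) e) e) e))) (c (c (c (c (c (c (c (p
  (nat_lit 0xca89f1e)) (c (p (nat_lit 0x36fddac)) e)) (c (c (m (nat_lit 0x1b5cdb4)) e) e)) (c (c (c (m
  (nat_lit 0x240386a)) e) e) e)) (c (c (c (c (m (nat_lit 0x23023aa)) e) e) e) e)) (c (c (c (c (c (p (nat_lit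
  0x45cf924)) e) e) e) e) e)) (c (c (c (c (c (c (p (nat_lit 0x130c48e)) e) e) e) e) e) e)) (c (c (c (c (c (c
  (c (m (nat_lit 0x3a978da)) e) e) e) e) e) e) e)))) (c (c (c (c (c (c (c (c (p (nat_lit 0xe673b16)) (c (m
  (nat_lit 0x26a99c6)) (c (p (nat_lit 0x46240c8)) e))) (c (c (p (nat_lit 0x4623fd8)) (c (m (nat_lit
  0xc97d52)) e)) (c (c (p (nat_lit 0x10e0360)) e) e))) (c (c (c (p (nat_lit 0xbdcc3c)) (c (p (nat_lit
  0xfa813e)) e)) (c (c (p (nat_lit 0x7a43e4)) e) e)) (c (c (c (m (nat_lit 0x42618c)) e) e) e))) (c (c (c (c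
  (p (nat_lit 0x1291583a)) (c (p (nat_lit 0x81ce4ae)) e)) (c (c (p (nat_lit 0x9f02868)) e) e)) (c (c (c (m
  (nat_lit 0x2d29796)) e) e) e)) (c (c (c (c (m (nat_lit 0x28e726c)) e) e) e) e))) (c (c (c (c (c (m (nat_lit
  0x143416c2)) (c (m (nat_lit 0x6b61de)) e)) (c (c (m (nat_lit 0x5325a2c)) e) e)) (c (c (c (p (nat_lit
  0xe3b3f8)) e) e) e)) (c (c (c (c (p (nat_lit 0xf3ab60)) e) e) e) e)) (c (c (c (c (c (p (nat_lit 0x18921a2))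
  e) e) e) e) e))) (c (c (c (c (c (c (m (nat_lit 0x8090ab4)) (c (m (nat_lit 0x50a23ee)) e)) (c (c (p (nat_lit
  0x68489ac)) e) e)) (c (c (c (p (nat_lit 0x2a2740e)) e) e) e)) (c (c (c (c (p (nat_lit 0x12fe7ea)) e) e) e)
  e)) (c (c (c (c (c (m (nat_lit 0xa35c0)) e) e) e) e) e)) (c (c (c (c (c (c (m (nat_lit 0x5a6d7a)) e) e) e)
  e) e) e))) (c (c (c (c (c (c (c (m (nat_lit 0x4b274ec)) (c (p (nat_lit 0x3bab5f2)) e)) (c (c (m (nat_lit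
  0x148ee64)) e) e)) (c (c (c (p (nat_lit 0x16c0104)) e) e) e)) (c (c (c (c (m (nat_lit 0xd49b218)) e) e) e)
  e)) (c (c (c (c (c (p (nat_lit 0x2b6daa8)) e) e) e) e) e)) (c (c (c (c (c (c (p (nat_lit 0x6119892)) e) e)
  e) e) e) e)) (c (c (c (c (c (c (c (m (nat_lit 0x804fed6)) e) e) e) e) e) e) e))) (c (c (c (c (c (c (c (c (m
  (nat_lit 0x80a71a0)) (c (m (nat_lit 0xdd0c8e)) e)) (c (c (m (nat_lit 0x4d88ff0)) e) e)) (c (c (c (m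
  (nat_lit 0x45964c8)) e) e) e)) (c (c (c (c (m (nat_lit 0x7459cc2)) e) e) e) e)) (c (c (c (c (c (p (nat_lit
  0x9a8b358)) e) e) e) e) e)) (c (c (c (c (c (c (p (nat_lit 0x164822a)) e) e) e) e) e) e)) (c (c (c (c (c (c
  (c (p (nat_lit 0x2e4698e)) e) e) e) e) e) e) e)) (c (c (c (c (c (c (c (c (p (nat_lit 0x26a0ff6)) e) e) e)
  e) e) e) e) e))))) (c (c (c (c (c (c (c (c (c (m (nat_lit 0x5587de8)) (c (p (nat_lit 0x11eeb04)) (c (p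
  (nat_lit 0x1872a2c)) e))) (c (c (p (nat_lit 0x3745bd2)) (c (m (nat_lit 0x7611f6)) e)) (c (c (m (nat_lit
  0x17f4768)) e) e))) (c (c (c (m (nat_lit 0xdaff22)) (c (p (nat_lit 0x3b7bd0)) e)) (c (c (p (nat_lit
  0x2086320)) e) e)) (c (c (c (p (nat_lit 0x1d634b4)) e) e) e))) (c (c (c (c (m (nat_lit 0x1c0879e)) (c (m
  (nat_lit 0x30cfc3c)) (c (m (nat_lit 0x191e6d4)) e))) (c (c (p (nat_lit 0x7c1e2d8)) (c (p (nat_lit
  0x217c758)) e)) (c (c (m (nat_lit 0x174f63c)) e) e))) (c (c (c (m (nat_lit 0x77a5016)) (c (p (nat_lit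
  0x84a26)) e)) (c (c (p (nat_lit 0x902718)) e) e)) (c (c (c (p (nat_lit 0x1ef69b4)) e) e) e))) (c (c (c (c
  (m (nat_lit 0xb14290)) (c (p (nat_lit 0x1b9661e)) e)) (c (c (m (nat_lit 0x4eba8ee)) e) e)) (c (c (c (p
  (nat_lit 0x576e7c)) e) e) e)) e))) (c (c (c (c (c (m (nat_lit 0x43121a6)) (c (p (nat_lit 0x18bb34a)) (c (m
  (nat_lit 0x25b25a4)) e))) (c (c (p (nat_lit 0x3503d84)) (c (m (nat_lit 0x257ce14)) e)) (c (c (m (nat_lit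
  0x99ef1c)) e) e))) (c (c (c (p (nat_lit 0x8bbbd6)) (c (m (nat_lit 0x25b744)) e)) (c (c (m (nat_lit
  0x1472f9a)) e) e)) (c (c (c (m (nat_lit 0x853bd2)) e) e) e))) (c (c (c (c (p (nat_lit 0x699672)) (c (p
  (nat_lit 0x36519c)) e)) (c (c (m (nat_lit 0x2643354)) e) e)) (c (c (c (p (nat_lit 0x1469acc)) e) e) e)) e))
  (c (c (c (c (c (m (nat_lit 0x1fb762)) (c (p (nat_lit 0x1518f60)) e)) (c (c (p (nat_lit 0x1a0da2c)) e) e))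
  (c (c (c (p (nat_lit 0xae854a)) e) e) e)) e) e))) (c (c (c (c (c (c (p (nat_lit 0x43967fa)) (c (m (nat_lit
  0x27a65d8)) (c (m (nat_lit 0x68cb14)) e))) (c (c (p (nat_lit 0x36c29d0)) (c (m (nat_lit 0xf3a14)) e)) (c (c
  (p (nat_lit 0x21d73a0)) e) e))) (c (c (c (m (nat_lit 0x51248b2)) (c (p (nat_lit 0x64c7d6)) e)) (c (c (m
  (nat_lit 0x57ca38)) e) e)) (c (c (c (p (nat_lit 0xfa5d32)) e) e) e))) (c (c (c (c (m (nat_lit 0x51a62)) (c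
  (p (nat_lit 0xbb3266)) e)) (c (c (p (nat_lit 0x261456c)) e) e)) (c (c (c (p (nat_lit 0x7548c0)) e) e) e))
  e)) (c (c (c (c (c (p (nat_lit 0x49cfc2)) (c (m (nat_lit 0xb45c58)) e)) (c (c (m (nat_lit 0x1dd5c28)) e)
  e)) (c (c (c (p (nat_lit 0x11822ac)) e) e) e)) e) e)) (c (c (c (c (c (c (m (nat_lit 0x37f45d4)) (c (m
  (nat_lit 0xbacc0)) e)) (c (c (m (nat_lit 0xc78b5e)) e) e)) (c (c (c (m (nat_lit 0x3d319a)) e) e) e)) e) e)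
  e))) (c (c (c (c (c (c (c (p (nat_lit 0xeef712a)) (c (p (nat_lit 0x17cccee)) (c (m (nat_lit 0x14a0af8))
  e))) (c (c (m (nat_lit 0x8976fcc)) (c (m (nat_lit 0x10320ea)) e)) (c (c (m (nat_lit 0x5a6bb8)) e) e))) (c
  (c (c (m (nat_lit 0x7925f4)) (c (m (nat_lit 0x19e9390)) e)) (c (c (m (nat_lit 0x2bc7d6)) e) e)) (c (c (c (p
  (nat_lit 0x8406d8)) e) e) e))) (c (c (c (c (m (nat_lit 0x1cf2fa2)) (c (p (nat_lit 0x9f6102)) e)) (c (c (m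
  (nat_lit 0xbe2342)) e) e)) (c (c (c (p (nat_lit 0x2a7ec6)) e) e) e)) (c (c (c (c (p (nat_lit 0x186a6ce)) e)
  e) e) e))) (c (c (c (c (c (m (nat_lit 0x4310e1a)) (c (p (nat_lit 0x4b2d9c)) e)) (c (c (p (nat_lit
  0x521dd8)) e) e)) (c (c (c (p (nat_lit 0x39d2f9c)) e) e) e)) (c (c (c (c (m (nat_lit 0x573426)) e) e) e)
  e)) (c (c (c (c (c (m (nat_lit 0x28dcf52)) e) e) e) e) e))) (c (c (c (c (c (c (m (nat_lit 0x6ba47ac)) (c (p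
  (nat_lit 0x1115244)) e)) (c (c (p (nat_lit 0x650682)) e) e)) (c (c (c (p (nat_lit 0x11b1244)) e) e) e)) (c
  (c (c (c (m (nat_lit 0x12b4d44)) e) e) e) e)) (c (c (c (c (c (p (nat_lit 0x1888026)) e) e) e) e) e)) (c (c
  (c (c (c (c (p (nat_lit 0x11cfdd2)) e) e) e) e) e) e))) (c (c (c (c (c (c (c (p (nat_lit 0xc4de7a)) (c (m
  (nat_lit 0x40f608)) e)) (c (c (m (nat_lit 0x2aa184a)) e) e)) (c (c (c (p (nat_lit 0x20e2afe)) e) e) e)) (c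
  (c (c (c (m (nat_lit 0x8e92d8)) e) e) e) e)) (c (c (c (c (c (p (nat_lit 0x146c4cc)) e) e) e) e) e)) (c (c
  (c (c (c (c (p (nat_lit 0x22a5fe)) e) e) e) e) e) e)) (c (c (c (c (c (c (c (p (nat_lit 0x1bb2470)) e) e) e)
  e) e) e) e)))) (c (c (c (c (c (c (c (c (p (nat_lit 0x743ac2a)) (c (p (nat_lit 0x41a83a6)) (c (p (nat_lit
  0x229f95c)) e))) (c (c (m (nat_lit 0x2b237f2)) (c (p (nat_lit 0x74f20e)) e)) (c (c (m (nat_lit 0x142c0c8))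
  e) e))) (c (c (c (p (nat_lit 0x22a3b20)) (c (p (nat_lit 0x4348aa)) e)) (c (c (p (nat_lit 0x1501656)) e) e))
  (c (c (c (p (nat_lit 0x8673fc)) e) e) e))) (c (c (c (c (p (nat_lit 0x1a0cade)) (c (m (nat_lit 0x1d98134))
  e)) (c (c (p (nat_lit 0x2fe595a)) e) e)) (c (c (c (p (nat_lit 0x1b36108)) e) e) e)) (c (c (c (c (p (nat_lit
  0x1043322)) e) e) e) e))) (c (c (c (c (c (p (nat_lit 0x21ded44)) (c (m (nat_lit 0x19eb4de)) e)) (c (c (m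
  (nat_lit 0xdf8c0c)) e) e)) (c (c (c (m (nat_lit 0x1f72b06)) e) e) e)) (c (c (c (c (m (nat_lit 0x1742904))
  e) e) e) e)) (c (c (c (c (c (m (nat_lit 0xb98818)) e) e) e) e) e))) (c (c (c (c (c (c (m (nat_lit
  0x12f4092)) (c (m (nat_lit 0x6edd5c)) e)) (c (c (p (nat_lit 0x64fdfa)) e) e)) (c (c (c (p (nat_lit
  0xe58972)) e) e) e)) (c (c (c (c (p (nat_lit 0x7cfc86)) e) e) e) e)) (c (c (c (c (c (p (nat_lit 0x9f5bb6))
  e) e) e) e) e)) (c (c (c (c (c (c (m (nat_lit 0x382104)) e) e) e) e) e) e))) (c (c (c (c (c (c (c (p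
  (nat_lit 0x21d6b60)) (c (m (nat_lit 0x79cb0c)) e)) (c (c (p (nat_lit 0x442e59a)) e) e)) (c (c (c (m
  (nat_lit 0x2dfe5ce)) e) e) e)) (c (c (c (c (m (nat_lit 0x828ec4)) e) e) e) e)) (c (c (c (c (c (p (nat_lit
  0x1cb1044)) e) e) e) e) e)) (c (c (c (c (c (c (m (nat_lit 0x8ff2b6)) e) e) e) e) e) e)) (c (c (c (c (c (c
  (c (m (nat_lit 0x4fa39a)) e) e) e) e) e) e) e))) (c (c (c (c (c (c (c (c (m (nat_lit 0xcf1fd70)) (c (m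
  (nat_lit 0x1167114)) e)) (c (c (m (nat_lit 0x1172502)) e) e)) (c (c (c (m (nat_lit 0x1eb8b36)) e) e) e)) (c
  (c (c (c (m (nat_lit 0x402ef22)) e) e) e) e)) (c (c (c (c (c (p (nat_lit 0x30dfa5e)) e) e) e) e) e)) (c (c
  (c (c (c (c (p (nat_lit 0x39d87e)) e) e) e) e) e) e)) (c (c (c (c (c (c (c (m (nat_lit 0x3d99254)) e) e) e)
  e) e) e) e)) (c (c (c (c (c (c (c (c (p (nat_lit 0x8de8944)) e) e) e) e) e) e) e) e)))) (c (c (c (c (c (c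
  (c (c (c (p (nat_lit 0xff834)) (c (m (nat_lit 0x183ca2)) (c (m (nat_lit 0x1699278)) e))) (c (c (m (nat_lit
  0x1c031dc)) (c (m (nat_lit 0x8eedfe)) e)) (c (c (m (nat_lit 0x8fec80)) e) e))) (c (c (c (p (nat_lit
  0x8438076)) (c (m (nat_lit 0xeacab0)) e)) (c (c (m (nat_lit 0x1e96a02)) e) e)) (c (c (c (m (nat_lit
  0x2f7ece8)) e) e) e))) (c (c (c (c (p (nat_lit 0x2874594)) (c (p (nat_lit 0x7ab86)) e)) (c (c (m (nat_lit
  0x3090168)) e) e)) (c (c (c (m (nat_lit 0x3f598e)) e) e) e)) (c (c (c (c (p (nat_lit 0x1e618d2)) e) e) e)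
  e))) (c (c (c (c (c (m (nat_lit 0xd3700a)) (c (p (nat_lit 0x169862a)) e)) (c (c (p (nat_lit 0x3552414)) e)
  e)) (c (c (c (m (nat_lit 0x6b2bba)) e) e) e)) (c (c (c (c (p (nat_lit 0x1236636)) e) e) e) e)) (c (c (c (c
  (c (m (nat_lit 0x1cebac)) e) e) e) e) e))) (c (c (c (c (c (c (m (nat_lit 0x1015140)) (c (p (nat_lit
  0x223184a)) e)) (c (c (m (nat_lit 0xfa367a)) e) e)) (c (c (c (p (nat_lit 0xe9a34e)) e) e) e)) (c (c (c (c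
  (m (nat_lit 0x7af856)) e) e) e) e)) (c (c (c (c (c (p (nat_lit 0x1aca4e)) e) e) e) e) e)) (c (c (c (c (c (c
  (p (nat_lit 0x26c321a)) e) e) e) e) e) e))) (c (c (c (c (c (c (c (m (nat_lit 0x38ea8e6)) (c (p (nat_lit
  0x56eede)) e)) (c (c (p (nat_lit 0x279c07e)) e) e)) (c (c (c (p (nat_lit 0x3e7c48)) e) e) e)) (c (c (c (c
  (p (nat_lit 0x3069780)) e) e) e) e)) (c (c (c (c (c (m (nat_lit 0x2cf1756)) e) e) e) e) e)) (c (c (c (c (c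
  (c (p (nat_lit 0x5ff754)) e) e) e) e) e) e)) (c (c (c (c (c (c (c (p (nat_lit 0x1596c6c)) e) e) e) e) e) e)
  e))) (c (c (c (c (c (c (c (c (m (nat_lit 0x305e78e)) (c (m (nat_lit 0x293af3c)) e)) (c (c (p (nat_lit
  0xc22b30)) e) e)) (c (c (c (m (nat_lit 0x10b5a4e)) e) e) e)) (c (c (c (c (p (nat_lit 0x303da76)) e) e) e)
  e)) (c (c (c (c (c (p (nat_lit 0xd50168)) e) e) e) e) e)) (c (c (c (c (c (c (m (nat_lit 0x54a5a2)) e) e) e)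
  e) e) e)) (c (c (c (c (c (c (c (p (nat_lit 0x16c27da)) e) e) e) e) e) e) e)) (c (c (c (c (c (c (c (c (p
  (nat_lit 0x1dd1542)) e) e) e) e) e) e) e) e))) (c (c (c (c (c (c (c (c (c (m (nat_lit 0x4206ff0)) (c (p
  (nat_lit 0x1b7238a)) e)) (c (c (p (nat_lit 0x183c1d4)) e) e)) (c (c (c (m (nat_lit 0x18168f0)) e) e) e)) (c
  (c (c (c (m (nat_lit 0x1dbba8)) e) e) e) e)) (c (c (c (c (c (p (nat_lit 0x1313ca)) e) e) e) e) e)) (c (c (c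
  (c (c (c (m (nat_lit 0x1b7a46)) e) e) e) e) e) e)) (c (c (c (c (c (c (c (m (nat_lit 0x1ba3998)) e) e) e) e)
  e) e) e)) (c (c (c (c (c (c (c (c (p (nat_lit 0x11483d0)) e) e) e) e) e) e) e) e)) (c (c (c (c (c (c (c (c
  (c (p (nat_lit 0x1329f12)) e) e) e) e) e) e) e) e) e)))))

noncomputable def gt_1_2_4 : Tr :=
  (c (c (c (c (c (c (c (c (c (m (nat_lit 0xc77cfa)) (c (m (nat_lit 0x1cca7a8)) (c (p (nat_lit 0x3227898))
  e))) (c (c (p (nat_lit 0x24927fc)) (c (m (nat_lit 0xbb1484)) e)) (c (c (m (nat_lit 0x107ab58)) e) e))) (c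
  (c (c (p (nat_lit 0x3e2f2f6)) (c (p (nat_lit 0x1cb8a48)) e)) (c (c (m (nat_lit 0x23d29f4)) e) e)) (c (c (c
  (m (nat_lit 0x206d018)) e) e) e))) (c (c (c (c (m (nat_lit 0x22cbcae)) (c (p (nat_lit 0xa071c60)) (c (m
  (nat_lit 0x29cbe0c)) e))) (c (c (m (nat_lit 0x5da45d4)) (c (p (nat_lit 0x1b401a0)) e)) (c (c (p (nat_lit
  0xaa2ac4)) e) e))) (c (c (c (m (nat_lit 0x6b08cf2)) (c (m (nat_lit 0x1265334)) e)) (c (c (p (nat_lit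
  0x1f1a408)) e) e)) (c (c (c (p (nat_lit 0x44870a0)) e) e) e))) (c (c (c (c (m (nat_lit 0x241c25a)) (c (p
  (nat_lit 0x4ea5f0)) (c (m (nat_lit 0x1d66c40)) e))) (c (c (p (nat_lit 0x7a27070)) (c (m (nat_lit 0xd361ac))
  e)) (c (c (p (nat_lit 0xb00dd8)) e) e))) (c (c (c (p (nat_lit 0x18a29e4)) (c (m (nat_lit 0x11d6750)) e)) (c
  (c (m (nat_lit 0xe495a0)) e) e)) (c (c (c (m (nat_lit 0xa1e4b2)) e) e) e))) e))) (c (c (c (c (c (m (nat_lit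
  0x594fe76)) (c (p (nat_lit 0x68b3704)) (c (p (nat_lit 0x1a89d10)) e))) (c (c (p (nat_lit 0xa1ffd0)) (c (m
  (nat_lit 0x1b8214c)) e)) (c (c (p (nat_lit 0x1e1929c)) e) e))) (c (c (c (p (nat_lit 0xb820954)) (c (m
  (nat_lit 0x58bcab0)) e)) (c (c (m (nat_lit 0x1402a34)) e) e)) (c (c (c (m (nat_lit 0x4fce35a)) e) e) e)))
  (c (c (c (c (p (nat_lit 0x2e00944)) (c (m (nat_lit 0x757c29c)) (c (p (nat_lit 0x1e88d40)) e))) (c (c (p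
  (nat_lit 0x29fdb40)) (c (m (nat_lit 0x13f38cc)) e)) (c (c (m (nat_lit 0x20951f4)) e) e))) (c (c (c (m
  (nat_lit 0x1a58a80)) (c (p (nat_lit 0x101d060)) e)) (c (c (p (nat_lit 0x48e5bc)) e) e)) (c (c (c (p
  (nat_lit 0xb5977c)) e) e) e))) e)) (c (c (c (c (c (m (nat_lit 0x58a0b8)) (c (p (nat_lit 0x25f6f74)) (c (m
  (nat_lit 0x4cc3cd4)) e))) (c (c (p (nat_lit 0xdc67b8)) (c (p (nat_lit 0x167d498)) e)) (c (c (m (nat_lit
  0x134ede8)) e) e))) (c (c (c (m (nat_lit 0x2e4f0a)) (c (m (nat_lit 0xbcf10)) e)) (c (c (m (nat_lit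
  0x8c9c94)) e) e)) (c (c (c (m (nat_lit 0x286058a)) e) e) e))) e) e))) (c (c (c (c (c (c (p (nat_lit
  0x3388182)) (c (m (nat_lit 0x1a24598)) (c (m (nat_lit 0x28ad7ec)) e))) (c (c (m (nat_lit 0x6758e20)) (c (p
  (nat_lit 0xe55cc)) e)) (c (c (m (nat_lit 0x49404)) e) e))) (c (c (c (m (nat_lit 0x909444)) (c (p (nat_lit
  0xce3514)) e)) (c (c (m (nat_lit 0x278208)) e) e)) (c (c (c (p (nat_lit 0x2a3e3a)) e) e) e))) (c (c (c (c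
  (p (nat_lit 0x19a5290)) (c (m (nat_lit 0x1beadec)) (c (p (nat_lit 0x9e772c)) e))) (c (c (m (nat_lit
  0x1d27bc8)) (c (p (nat_lit 0x12ce844)) e)) (c (c (p (nat_lit 0x103182c)) e) e))) (c (c (c (m (nat_lit
  0x6c6b76c)) (c (p (nat_lit 0x356bbfc)) e)) (c (c (p (nat_lit 0xb8a154)) e) e)) (c (c (c (p (nat_lit
  0x4bcb6dc)) e) e) e))) e)) (c (c (c (c (c (p (nat_lit 0xf995a6)) (c (m (nat_lit 0x1a2d61c)) (c (p (nat_lit
  0x1c8ee14)) e))) (c (c (m (nat_lit 0x74e68c)) (c (p (nat_lit 0x38c814)) e)) (c (c (m (nat_lit 0x50daf8)) e)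
  e))) (c (c (c (m (nat_lit 0x4e354a2)) (c (p (nat_lit 0x1a68740)) e)) (c (c (m (nat_lit 0x16d02d4)) e) e))
  (c (c (c (p (nat_lit 0x5051f94)) e) e) e))) e) e)) (c (c (c (c (c (c (m (nat_lit 0x22e797a)) (c (p (nat_lit
  0x23783e8)) (c (m (nat_lit 0x9274e0)) e))) (c (c (m (nat_lit 0xdc3e3c)) (c (m (nat_lit 0x48b154)) e)) (c (c
  (p (nat_lit 0x9cfe64)) e) e))) (c (c (c (p (nat_lit 0x69949bc)) (c (m (nat_lit 0x13fbb34)) e)) (c (c (p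
  (nat_lit 0x114d1f4)) e) e)) (c (c (c (m (nat_lit 0x36c6a9e)) e) e) e))) e) e) e))) (c (c (c (c (c (c (c (m
  (nat_lit 0x12ec8512)) (c (p (nat_lit 0xd05373e)) (c (m (nat_lit 0x25d4c18)) e))) (c (c (p (nat_lit
  0xa341474)) (c (m (nat_lit 0x89397c)) e)) (c (c (p (nat_lit 0x214b438)) e) e))) (c (c (c (p (nat_lit
  0x29c80d3a)) (c (m (nat_lit 0x7a0c76c)) e)) (c (c (m (nat_lit 0x3a6c9bc)) e) e)) (c (c (c (m (nat_lit
  0x225bdb2e)) e) e) e))) (c (c (c (c (p (nat_lit 0x97d3844)) (c (m (nat_lit 0x11af9e4)) (c (p (nat_lit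
  0x12a5bf4)) e))) (c (c (m (nat_lit 0x173c49c)) (c (m (nat_lit 0x1b38ac)) e)) (c (c (m (nat_lit 0x1a1c24c))
  e) e))) (c (c (c (p (nat_lit 0x5076bd0)) (c (p (nat_lit 0x507e40)) e)) (c (c (m (nat_lit 0xfe547c)) e) e))
  (c (c (c (m (nat_lit 0xb879ca6)) e) e) e))) (c (c (c (c (m (nat_lit 0x3ae318)) (c (m (nat_lit 0x11b3d88))
  e)) (c (c (p (nat_lit 0x11b7130)) e) e)) (c (c (c (m (nat_lit 0x2b763b8)) e) e) e)) e))) (c (c (c (c (c (p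
  (nat_lit 0x1d82288)) (c (m (nat_lit 0x6c5a0cc)) (c (p (nat_lit 0x3e0a114)) e))) (c (c (m (nat_lit
  0x1dc2cb0)) (c (m (nat_lit 0x3f6294)) e)) (c (c (m (nat_lit 0x29d36fc)) e) e))) (c (c (c (m (nat_lit
  0xa20fec4)) (c (p (nat_lit 0x33e556c)) e)) (c (c (p (nat_lit 0x102bb2c)) e) e)) (c (c (c (p (nat_lit
  0x102dfec0)) e) e) e))) (c (c (c (c (m (nat_lit 0x32711a0)) (c (p (nat_lit 0x1198ecc)) e)) (c (c (m
  (nat_lit 0xacfd4)) e) e)) (c (c (c (p (nat_lit 0x10a2170)) e) e) e)) e)) (c (c (c (c (c (p (nat_lit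
  0x2329a40)) (c (p (nat_lit 0x167fe5c)) e)) (c (c (p (nat_lit 0x125a720)) e) e)) (c (c (c (p (nat_lit
  0xfecd24)) e) e) e)) e) e))) (c (c (c (c (c (c (m (nat_lit 0xe0968e)) (c (m (nat_lit 0x4804db2)) (c (m
  (nat_lit 0x11baa6c)) e))) (c (c (m (nat_lit 0x81837c6)) (c (p (nat_lit 0x43c884)) e)) (c (c (p (nat_lit
  0xdf9938)) e) e))) (c (c (c (p (nat_lit 0x844793a)) (c (p (nat_lit 0x198ba6c)) e)) (c (c (p (nat_lit
  0x8d960)) e) e)) (c (c (c (m (nat_lit 0x174dd3a)) e) e) e))) (c (c (c (c (p (nat_lit 0xf03dec)) (c (p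
  (nat_lit 0x24d740c)) e)) (c (c (m (nat_lit 0xc60ea0)) e) e)) (c (c (c (p (nat_lit 0x2ffdc)) e) e) e)) e))
  (c (c (c (c (c (p (nat_lit 0x96d134)) (c (p (nat_lit 0x27a9cb0)) e)) (c (c (p (nat_lit 0x1dace94)) e) e))
  (c (c (c (m (nat_lit 0x13d5d1c)) e) e) e)) e) e)) (c (c (c (c (c (c (p (nat_lit 0x240cc30)) (c (m (nat_lit
  0x2b48d70)) e)) (c (c (p (nat_lit 0xf8e44)) e) e)) (c (c (c (m (nat_lit 0x163d04)) e) e) e)) e) e) e))) (c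
  (c (c (c (c (c (c (p (nat_lit 0xdc9ffc2)) (c (m (nat_lit 0x5531d30)) (c (m (nat_lit 0x1616070)) e))) (c (c
  (m (nat_lit 0x4283a3c)) (c (m (nat_lit 0x372ca8)) e)) (c (c (p (nat_lit 0x1f4f130)) e) e))) (c (c (c (m
  (nat_lit 0x210d0b60)) (c (p (nat_lit 0x4aef77c)) e)) (c (c (p (nat_lit 0x1e56bbc)) e) e)) (c (c (c (p
  (nat_lit 0x1e171dc2)) e) e) e))) (c (c (c (c (m (nat_lit 0x9ff5e14)) (c (p (nat_lit 0x988734)) e)) (c (c (m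
  (nat_lit 0x342960)) e) e)) (c (c (c (p (nat_lit 0x80d3c1e)) e) e) e)) (c (c (c (c (m (nat_lit 0x2432ac)) e)
  e) e) e))) (c (c (c (c (c (p (nat_lit 0x74d590a)) (c (m (nat_lit 0xb37990)) e)) (c (c (m (nat_lit
  0x2810508)) e) e)) (c (c (c (m (nat_lit 0xa7abf70)) e) e) e)) (c (c (c (c (p (nat_lit 0x1a48370)) e) e) e)
  e)) (c (c (c (c (c (m (nat_lit 0x35cdc60)) e) e) e) e) e))) (c (c (c (c (c (c (p (nat_lit 0x670ee28)) (c (p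
  (nat_lit 0x24ee326)) e)) (c (c (p (nat_lit 0x414838e)) e) e)) (c (c (c (m (nat_lit 0x18ef298)) e) e) e)) (c
  (c (c (c (m (nat_lit 0x1806a2c)) e) e) e) e)) (c (c (c (c (c (m (nat_lit 0x28489ec)) e) e) e) e) e)) (c (c
  (c (c (c (c (p (nat_lit 0x3b6700)) e) e) e) e) e) e))) (c (c (c (c (c (c (c (p (nat_lit 0x1869ef4)) (c (m
  (nat_lit 0x1214fe2)) e)) (c (c (m (nat_lit 0x550c20)) e) e)) (c (c (c (m (nat_lit 0x3551e62)) e) e) e)) (c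
  (c (c (c (p (nat_lit 0x48d86e4)) e) e) e) e)) (c (c (c (c (c (p (nat_lit 0x1704ace)) e) e) e) e) e)) (c (c
  (c (c (c (c (m (nat_lit 0x404c5fe)) e) e) e) e) e) e)) (c (c (c (c (c (c (c (m (nat_lit 0x4d75448)) e) e)
  e) e) e) e) e))))) (c (c (c (c (c (c (c (c (m (nat_lit 0x5dde450)) (c (m (nat_lit 0xaab93e)) (c (p (nat_lit
  0x164d5f4)) e))) (c (c (p (nat_lit 0x4a4c924)) (c (p (nat_lit 0x3bf010)) e)) (c (c (m (nat_lit 0x29e0560))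
  e) e))) (c (c (c (m (nat_lit 0x32326a4)) (c (m (nat_lit 0x17851ec)) e)) (c (c (p (nat_lit 0xa2c5f4)) e) e))
  (c (c (c (p (nat_lit 0x29827aa)) e) e) e))) (c (c (c (c (m (nat_lit 0x6b82dec)) (c (p (nat_lit 0x352122c))
  (c (m (nat_lit 0x59fb74)) e))) (c (c (m (nat_lit 0x6be83ae)) (c (m (nat_lit 0x4f98fc)) e)) (c (c (m
  (nat_lit 0x48c30c)) e) e))) (c (c (c (m (nat_lit 0x7d756a)) (c (p (nat_lit 0x1ae7778)) e)) (c (c (p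
  (nat_lit 0x290f880)) e) e)) (c (c (c (p (nat_lit 0x4cb81d2)) e) e) e))) (c (c (c (c (p (nat_lit 0x1bc4878))
  (c (p (nat_lit 0x180bf94)) e)) (c (c (p (nat_lit 0x23663b8)) e) e)) (c (c (c (m (nat_lit 0xd3f260)) e) e)
  e)) e))) (c (c (c (c (c (p (nat_lit 0x6592ab2)) (c (m (nat_lit 0x76b45cc)) (c (m (nat_lit 0x1c4b860)) e)))
  (c (c (m (nat_lit 0xd7bf530)) (c (p (nat_lit 0x69aba8)) e)) (c (c (p (nat_lit 0x2ad5fd8)) e) e))) (c (c (c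
  (m (nat_lit 0xaebf8fe)) (c (p (nat_lit 0x10c2ab0)) e)) (c (c (p (nat_lit 0x2c0ab64)) e) e)) (c (c (c (p
  (nat_lit 0x43c6cf8)) e) e) e))) (c (c (c (c (m (nat_lit 0x1b62634)) (c (p (nat_lit 0x2612c1c)) e)) (c (c (p
  (nat_lit 0x1b8b194)) e) e)) (c (c (c (p (nat_lit 0x1fd9898)) e) e) e)) e)) (c (c (c (c (c (p (nat_lit
  0x265a460)) (c (m (nat_lit 0x2e2c24)) e)) (c (c (p (nat_lit 0x155bfec)) e) e)) (c (c (c (p (nat_lit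
  0x1ee9eec)) e) e) e)) e) e))) (c (c (c (c (c (c (p (nat_lit 0xb0abd12)) (c (p (nat_lit 0x15bee48)) (c (p
  (nat_lit 0x1f75b18)) e))) (c (c (p (nat_lit 0x546f4fe)) (c (m (nat_lit 0xcaeca8)) e)) (c (c (p (nat_lit
  0x9363c0)) e) e))) (c (c (c (p (nat_lit 0x433268a)) (c (m (nat_lit 0xadf6a0)) e)) (c (c (p (nat_lit
  0x1dea370)) e) e)) (c (c (c (m (nat_lit 0x2c77f56)) e) e) e))) (c (c (c (c (p (nat_lit 0x9fbebc)) (c (p
  (nat_lit 0x54a638)) e)) (c (c (p (nat_lit 0x884e8c)) e) e)) (c (c (c (p (nat_lit 0x1e1d2e0)) e) e) e)) e))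
  (c (c (c (c (c (m (nat_lit 0x22190b8)) (c (p (nat_lit 0x667578)) e)) (c (c (p (nat_lit 0x1bb8314)) e) e))
  (c (c (c (m (nat_lit 0x785bf8)) e) e) e)) e) e)) (c (c (c (c (c (c (p (nat_lit 0xbe7364)) (c (m (nat_lit
  0x1c089c)) e)) (c (c (p (nat_lit 0xb7129c)) e) e)) (c (c (c (m (nat_lit 0x1be2848)) e) e) e)) e) e) e))) (c
  (c (c (c (c (c (c (m (nat_lit 0xf0db7e0)) (c (m (nat_lit 0x5011a46)) (c (p (nat_lit 0xda8194)) e))) (c (c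
  (m (nat_lit 0x1935f96)) (c (p (nat_lit 0x5d5244)) e)) (c (c (m (nat_lit 0x519f84)) e) e))) (c (c (c (p
  (nat_lit 0x7da90e4)) (c (m (nat_lit 0x1f52484)) e)) (c (c (m (nat_lit 0x5e7d30)) e) e)) (c (c (c (m
  (nat_lit 0x3bfe416)) e) e) e))) (c (c (c (c (p (nat_lit 0x786ebc2)) (c (m (nat_lit 0x473ccac)) e)) (c (c (p
  (nat_lit 0x954810)) e) e)) (c (c (c (p (nat_lit 0x1c7d90)) e) e) e)) (c (c (c (c (p (nat_lit 0x1338c9c)) e)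
  e) e) e))) (c (c (c (c (c (p (nat_lit 0x7fb236a)) (c (p (nat_lit 0x1fa0cdc)) e)) (c (c (p (nat_lit
  0x1f9e834)) e) e)) (c (c (c (p (nat_lit 0x144fad4)) e) e) e)) (c (c (c (c (m (nat_lit 0x16428d8)) e) e) e)
  e)) (c (c (c (c (c (m (nat_lit 0x7d29ec)) e) e) e) e) e))) (c (c (c (c (c (c (m (nat_lit 0x1547ab94)) (c (p
  (nat_lit 0x2acfa02)) e)) (c (c (p (nat_lit 0x1584dfe)) e) e)) (c (c (c (p (nat_lit 0x4a100c)) e) e) e)) (c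
  (c (c (c (m (nat_lit 0x1e00990)) e) e) e) e)) (c (c (c (c (c (m (nat_lit 0x176e404)) e) e) e) e) e)) (c (c
  (c (c (c (c (p (nat_lit 0x1d069e8)) e) e) e) e) e) e))) (c (c (c (c (c (c (c (p (nat_lit 0x8f8bc00)) (c (p
  (nat_lit 0x20f1f2a)) e)) (c (c (m (nat_lit 0x86624a)) e) e)) (c (c (c (p (nat_lit 0x13d262)) e) e) e)) (c
  (c (c (c (m (nat_lit 0x43fe2d0)) e) e) e) e)) (c (c (c (c (c (m (nat_lit 0x3c40e3c)) e) e) e) e) e)) (c (c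
  (c (c (c (c (p (nat_lit 0x768593a)) e) e) e) e) e) e)) (c (c (c (c (c (c (c (p (nat_lit 0x159a35c)) e) e)
  e) e) e) e) e)))) (c (c (c (c (c (c (c (c (p (nat_lit 0x91733e8)) (c (m (nat_lit 0x5e197cc)) (c (m (nat_lit
  0x12832c8)) e))) (c (c (m (nat_lit 0x46f9428)) (c (p (nat_lit 0xc7d094)) e)) (c (c (m (nat_lit 0x80931c))
  e) e))) (c (c (c (m (nat_lit 0x17c3d36)) (c (p (nat_lit 0x21c9f18)) e)) (c (c (m (nat_lit 0x178de98)) e)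
  e)) (c (c (c (m (nat_lit 0xcef7ea)) e) e) e))) (c (c (c (c (p (nat_lit 0xdd36e6e)) (c (m (nat_lit
  0x2a7326c)) e)) (c (c (p (nat_lit 0x2245e)) e) e)) (c (c (c (m (nat_lit 0x462d686)) e) e) e)) (c (c (c (c
  (m (nat_lit 0x5d186c)) e) e) e) e))) (c (c (c (c (c (m (nat_lit 0xb9a0378)) (c (p (nat_lit 0x459acd4)) e))
  (c (c (p (nat_lit 0x5a13fe0)) e) e)) (c (c (c (m (nat_lit 0x1276686)) e) e) e)) (c (c (c (c (p (nat_lit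
  0xa8a428)) e) e) e) e)) (c (c (c (c (c (m (nat_lit 0x14395d4)) e) e) e) e) e))) (c (c (c (c (c (c (m
  (nat_lit 0x2dc308a)) (c (m (nat_lit 0x17e714e)) e)) (c (c (m (nat_lit 0x990f480)) e) e)) (c (c (c (m
  (nat_lit 0x1f4ad02)) e) e) e)) (c (c (c (c (p (nat_lit 0xde144c)) e) e) e) e)) (c (c (c (c (c (m (nat_lit
  0x117b4e4)) e) e) e) e) e)) (c (c (c (c (c (c (m (nat_lit 0x14b3608)) e) e) e) e) e) e))) (c (c (c (c (c (c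
  (c (p (nat_lit 0x10e221d6)) (c (p (nat_lit 0x3a67c1c)) e)) (c (c (p (nat_lit 0x2bb60a8)) e) e)) (c (c (c (m
  (nat_lit 0x27f2dea)) e) e) e)) (c (c (c (c (m (nat_lit 0x13431f6)) e) e) e) e)) (c (c (c (c (c (m (nat_lit
  0x144decc)) e) e) e) e) e)) (c (c (c (c (c (c (p (nat_lit 0x7bed6ea)) e) e) e) e) e) e)) (c (c (c (c (c (c
  (c (m (nat_lit 0x8aedccc)) e) e) e) e) e) e) e))) (c (c (c (c (c (c (c (c (m (nat_lit 0xd36752c)) (c (p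
  (nat_lit 0x2930496)) e)) (c (c (p (nat_lit 0x7e4a280)) e) e)) (c (c (c (p (nat_lit 0x505b2ac)) e) e) e)) (c
  (c (c (c (m (nat_lit 0x694797c)) e) e) e) e)) (c (c (c (c (c (p (nat_lit 0x96577d4)) e) e) e) e) e)) (c (c
  (c (c (c (c (m (nat_lit 0x227f352)) e) e) e) e) e) e)) (c (c (c (c (c (c (c (m (nat_lit 0x8250b6a)) e) e)
  e) e) e) e) e)) (c (c (c (c (c (c (c (c (p (nat_lit 0x668e5a8)) e) e) e) e) e) e) e) e))))) (c (c (c (c (c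
  (c (c (c (c (p (nat_lit 0x55a7744)) (c (m (nat_lit 0x88659e4)) (c (p (nat_lit 0x39051c)) e))) (c (c (p
  (nat_lit 0x9b5098)) (c (p (nat_lit 0x10843a4)) e)) (c (c (p (nat_lit 0x605dc)) e) e))) (c (c (c (m (nat_lit
  0x7a81604)) (c (m (nat_lit 0xd7b1b8)) e)) (c (c (m (nat_lit 0x78d86c)) e) e)) (c (c (c (p (nat_lit
  0x68ea88)) e) e) e))) (c (c (c (c (p (nat_lit 0x1789710)) (c (p (nat_lit 0x64b8760)) (c (m (nat_lit
  0x1ccc8a8)) e))) (c (c (p (nat_lit 0x7052c4)) (c (p (nat_lit 0x4a940c)) e)) (c (c (m (nat_lit 0x11a330)) e)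
  e))) (c (c (c (p (nat_lit 0xc441d92)) (c (m (nat_lit 0x1b78e64)) e)) (c (c (m (nat_lit 0x7c611c)) e) e)) (c
  (c (c (m (nat_lit 0x5f8f8ba)) e) e) e))) (c (c (c (c (m (nat_lit 0x89dd0d4)) (c (m (nat_lit 0xc95d90)) e))
  (c (c (m (nat_lit 0x2197dd0)) e) e)) (c (c (c (p (nat_lit 0x680328)) e) e) e)) e))) (c (c (c (c (c (m
  (nat_lit 0x31780e)) (c (p (nat_lit 0x63ef70)) (c (p (nat_lit 0x109c23c)) e))) (c (c (m (nat_lit 0x1ca8680))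
  (c (p (nat_lit 0x123cc60)) e)) (c (c (p (nat_lit 0x10cb138)) e) e))) (c (c (c (m (nat_lit 0x45bc526)) (c (p
  (nat_lit 0x1544c7c)) e)) (c (c (p (nat_lit 0x27e01e4)) e) e)) (c (c (c (p (nat_lit 0x5eeea3c)) e) e) e)))
  (c (c (c (c (m (nat_lit 0xce8ac4)) (c (m (nat_lit 0x17a69f0)) e)) (c (c (p (nat_lit 0x3c0db0)) e) e)) (c (c
  (c (m (nat_lit 0x2aaa478)) e) e) e)) e)) (c (c (c (c (c (p (nat_lit 0x1d9355c)) (c (p (nat_lit 0x1f3a208))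
  e)) (c (c (p (nat_lit 0x963ec4)) e) e)) (c (c (c (p (nat_lit 0x20df81c)) e) e) e)) e) e))) (c (c (c (c (c
  (c (p (nat_lit 0x10f3284)) (c (p (nat_lit 0xe169fc)) (c (p (nat_lit 0x1297e0c)) e))) (c (c (p (nat_lit
  0x4ef4764)) (c (m (nat_lit 0x3c5a48)) e)) (c (c (m (nat_lit 0x1f144e0)) e) e))) (c (c (c (m (nat_lit
  0x4250bf2)) (c (m (nat_lit 0x794190)) e)) (c (c (p (nat_lit 0xe0e7b8)) e) e)) (c (c (c (p (nat_lit
  0x232e64e)) e) e) e))) (c (c (c (c (m (nat_lit 0x6d2a8)) (c (m (nat_lit 0x2110ce0)) e)) (c (c (p (nat_lit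
  0x3ff78c)) e) e)) (c (c (c (m (nat_lit 0x105f090)) e) e) e)) e)) (c (c (c (c (c (p (nat_lit 0x26512e0)) (c
  (p (nat_lit 0x8e6794)) e)) (c (c (m (nat_lit 0xb9c124)) e) e)) (c (c (c (p (nat_lit 0xda058c)) e) e) e)) e)
  e)) (c (c (c (c (c (c (m (nat_lit 0x14ae724)) (c (m (nat_lit 0xf27678)) e)) (c (c (m (nat_lit 0x11cf82c))
  e) e)) (c (c (c (p (nat_lit 0x1305f54)) e) e) e)) e) e) e))) (c (c (c (c (c (c (c (m (nat_lit 0xd2bce02))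
  (c (p (nat_lit 0x1e1b972)) (c (m (nat_lit 0x289dd0)) e))) (c (c (p (nat_lit 0x3181ef0)) (c (p (nat_lit
  0x126dca4)) e)) (c (c (p (nat_lit 0x646ea8)) e) e))) (c (c (c (p (nat_lit 0x12760950)) (c (m (nat_lit
  0x7978ec)) e)) (c (c (m (nat_lit 0xdfcb9c)) e) e)) (c (c (c (m (nat_lit 0x753d17c)) e) e) e))) (c (c (c (c
  (m (nat_lit 0x1562e68)) (c (p (nat_lit 0x1eeb098)) e)) (c (c (p (nat_lit 0xdad3a8)) e) e)) (c (c (c (m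
  (nat_lit 0x17fd84)) e) e) e)) (c (c (c (c (p (nat_lit 0x1d5aba4)) e) e) e) e))) (c (c (c (c (c (m (nat_lit
  0xabc33c)) (c (m (nat_lit 0x1f83fc0)) e)) (c (c (p (nat_lit 0x1af2608)) e) e)) (c (c (c (m (nat_lit
  0x19f434c)) e) e) e)) (c (c (c (c (p (nat_lit 0x8e101c)) e) e) e) e)) (c (c (c (c (c (m (nat_lit 0xaf7f28))
  e) e) e) e) e))) (c (c (c (c (c (c (p (nat_lit 0x2dde990)) (c (p (nat_lit 0xdbfe10)) e)) (c (c (m (nat_lit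
  0x4c5abc)) e) e)) (c (c (c (m (nat_lit 0x26f2b0c)) e) e) e)) (c (c (c (c (m (nat_lit 0x39e220)) e) e) e)
  e)) (c (c (c (c (c (p (nat_lit 0x698ed4)) e) e) e) e) e)) (c (c (c (c (c (c (p (nat_lit 0xb6c3d0)) e) e) e)
  e) e) e))) (c (c (c (c (c (c (c (p (nat_lit 0x58cf97a)) (c (m (nat_lit 0x1dcab16)) e)) (c (c (m (nat_lit
  0x24edd14)) e) e)) (c (c (c (m (nat_lit 0x2ddef66)) e) e) e)) (c (c (c (c (m (nat_lit 0xd206f0)) e) e) e)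
  e)) (c (c (c (c (c (m (nat_lit 0x6e1c78)) e) e) e) e) e)) (c (c (c (c (c (c (m (nat_lit 0xa55e5c)) e) e) e)
  e) e) e)) (c (c (c (c (c (c (c (p (nat_lit 0x50379c6)) e) e) e) e) e) e) e)))) (c (c (c (c (c (c (c (c (p
  (nat_lit 0x34763a0)) (c (m (nat_lit 0x231a380)) (c (p (nat_lit 0xa3d4e4)) e))) (c (c (p (nat_lit
  0x255cd08)) (c (m (nat_lit 0xb3fc94)) e)) (c (c (m (nat_lit 0xf31a4)) e) e))) (c (c (c (p (nat_lit
  0x23b0116)) (c (p (nat_lit 0xd103a0)) e)) (c (c (m (nat_lit 0x2b7d24c)) e) e)) (c (c (c (m (nat_lit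
  0xff06ea)) e) e) e))) (c (c (c (c (m (nat_lit 0x42fbb08)) (c (m (nat_lit 0x26c21b8)) e)) (c (c (p (nat_lit
  0x6c6e34)) e) e)) (c (c (c (m (nat_lit 0x139926c)) e) e) e)) (c (c (c (c (p (nat_lit 0x9fedb4)) e) e) e)
  e))) (c (c (c (c (c (p (nat_lit 0x73473d8)) (c (p (nat_lit 0x7ff2b4)) e)) (c (c (m (nat_lit 0xd6f98)) e)
  e)) (c (c (c (p (nat_lit 0x7bae78)) e) e) e)) (c (c (c (c (p (nat_lit 0x7e0d74)) e) e) e) e)) (c (c (c (c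
  (c (m (nat_lit 0x2a9bb8c)) e) e) e) e) e))) (c (c (c (c (c (c (m (nat_lit 0x3ae7c7a)) (c (p (nat_lit
  0x16003b0)) e)) (c (c (p (nat_lit 0x1abd1a8)) e) e)) (c (c (c (p (nat_lit 0x23762b8)) e) e) e)) (c (c (c (c
  (m (nat_lit 0x18dbeac)) e) e) e) e)) (c (c (c (c (c (m (nat_lit 0x9fb7d8)) e) e) e) e) e)) (c (c (c (c (c
  (c (p (nat_lit 0x15cab30)) e) e) e) e) e) e))) (c (c (c (c (c (c (c (p (nat_lit 0xc3a9878)) (c (p (nat_lit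
  0x1e96d6e)) e)) (c (c (m (nat_lit 0x5e5954)) e) e)) (c (c (c (m (nat_lit 0x16591e0)) e) e) e)) (c (c (c (c
  (p (nat_lit 0x17107da)) e) e) e) e)) (c (c (c (c (c (m (nat_lit 0x2b19e92)) e) e) e) e) e)) (c (c (c (c (c
  (c (p (nat_lit 0x12bca00)) e) e) e) e) e) e)) (c (c (c (c (c (c (c (m (nat_lit 0x2e73a5a)) e) e) e) e) e)
  e) e))) (c (c (c (c (c (c (c (c (m (nat_lit 0x4e3cec4)) (c (p (nat_lit 0x119c766)) e)) (c (c (m (nat_lit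
  0x3fa728)) e) e)) (c (c (c (m (nat_lit 0x5eee82)) e) e) e)) (c (c (c (c (p (nat_lit 0xfacd5e)) e) e) e) e))
  (c (c (c (c (c (m (nat_lit 0x1ee7f66)) e) e) e) e) e)) (c (c (c (c (c (c (p (nat_lit 0x47832)) e) e) e) e)
  e) e)) (c (c (c (c (c (c (c (m (nat_lit 0x9f25b54)) e) e) e) e) e) e) e)) (c (c (c (c (c (c (c (c (p
  (nat_lit 0x1ad1b24)) e) e) e) e) e) e) e) e)))) (c (c (c (c (c (c (c (c (c (p (nat_lit 0x4261d04)) (c (m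
  (nat_lit 0x1543ef0)) (c (p (nat_lit 0x2285664)) e))) (c (c (m (nat_lit 0x3833e80)) (c (m (nat_lit
  0x1b840cc)) e)) (c (c (p (nat_lit 0x14a2cac)) e) e))) (c (c (c (m (nat_lit 0x3c9a656)) (c (p (nat_lit
  0x12d44e4)) e)) (c (c (p (nat_lit 0x1a15970)) e) e)) (c (c (c (p (nat_lit 0x4a7e0ee)) e) e) e))) (c (c (c
  (c (m (nat_lit 0x43e207c)) (c (p (nat_lit 0x347d804)) e)) (c (c (p (nat_lit 0xfadcd0)) e) e)) (c (c (c (p
  (nat_lit 0x3faad84)) e) e) e)) (c (c (c (c (p (nat_lit 0x3334854)) e) e) e) e))) (c (c (c (c (c (m (nat_lit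
  0xc6cb40)) (c (m (nat_lit 0xb352c)) e)) (c (c (p (nat_lit 0x8df9cc)) e) e)) (c (c (c (m (nat_lit 0x52c410))
  e) e) e)) (c (c (c (c (p (nat_lit 0xd23540)) e) e) e) e)) (c (c (c (c (c (m (nat_lit 0x19ec618)) e) e) e)
  e) e))) (c (c (c (c (c (c (m (nat_lit 0x3a86ec4)) (c (m (nat_lit 0x2bf32c)) e)) (c (c (p (nat_lit
  0x43e108)) e) e)) (c (c (c (m (nat_lit 0x10d6268)) e) e) e)) (c (c (c (c (m (nat_lit 0x6d11e4)) e) e) e)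
  e)) (c (c (c (c (c (m (nat_lit 0x51ea18)) e) e) e) e) e)) (c (c (c (c (c (c (p (nat_lit 0x1714a34)) e) e)
  e) e) e) e))) (c (c (c (c (c (c (c (p (nat_lit 0x2f0381a)) (c (m (nat_lit 0x10465e0)) e)) (c (c (m (nat_lit
  0x1b92880)) e) e)) (c (c (c (m (nat_lit 0x1ec2838)) e) e) e)) (c (c (c (c (p (nat_lit 0x13a3598)) e) e) e)
  e)) (c (c (c (c (c (m (nat_lit 0x14434a4)) e) e) e) e) e)) (c (c (c (c (c (c (p (nat_lit 0x50ef14)) e) e)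
  e) e) e) e)) (c (c (c (c (c (c (c (m (nat_lit 0x14a508e)) e) e) e) e) e) e) e))) (c (c (c (c (c (c (c (c (p
  (nat_lit 0x3e6f3e2)) (c (p (nat_lit 0x13bb238)) e)) (c (c (m (nat_lit 0x10dd0a8)) e) e)) (c (c (c (m
  (nat_lit 0x147c87c)) e) e) e)) (c (c (c (c (p (nat_lit 0x7e369c)) e) e) e) e)) (c (c (c (c (c (m (nat_lit
  0x66c0c0)) e) e) e) e) e)) (c (c (c (c (c (c (p (nat_lit 0xb79c)) e) e) e) e) e) e)) (c (c (c (c (c (c (c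
  (p (nat_lit 0x8183ac)) e) e) e) e) e) e) e)) (c (c (c (c (c (c (c (c (m (nat_lit 0x11b85fa)) e) e) e) e) e)
  e) e) e))) (c (c (c (c (c (c (c (c (c (m (nat_lit 0x5759694)) (c (m (nat_lit 0x196be88)) e)) (c (c (p
  (nat_lit 0x6588cc)) e) e)) (c (c (c (m (nat_lit 0x12aef54)) e) e) e)) (c (c (c (c (m (nat_lit 0x1588818))
  e) e) e) e)) (c (c (c (c (c (p (nat_lit 0x6c5b38)) e) e) e) e) e)) (c (c (c (c (c (c (p (nat_lit
  0x1420e0c)) e) e) e) e) e) e)) (c (c (c (c (c (c (c (m (nat_lit 0x2a2cdc)) e) e) e) e) e) e) e)) (c (c (c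
  (c (c (c (c (c (p (nat_lit 0x158718)) e) e) e) e) e) e) e) e)) (c (c (c (c (c (c (c (c (c (p (nat_lit
  0x2fe2e34)) e) e) e) e) e) e) e) e) e)))))

noncomputable def gt_1_2_5 : Tr :=
  (c (c (c (c (c (c (c (c (c (m (nat_lit 0x3148c44)) (c (m (nat_lit 0x150990c)) (c (p (nat_lit 0xcbfaa8))
  e))) (c (c (p (nat_lit 0x6b7a830)) (c (p (nat_lit 0xb8068)) e)) (c (c (m (nat_lit 0x13bd6c8)) e) e))) (c (c
  (c (p (nat_lit 0x51eb7dc)) (c (p (nat_lit 0x18c324c)) e)) (c (c (m (nat_lit 0x3015ae0)) e) e)) (c (c (c (m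
  (nat_lit 0x3e73ad4)) e) e) e))) (c (c (c (c (m (nat_lit 0x23ab7b4)) (c (p (nat_lit 0xb5d80ec)) (c (m
  (nat_lit 0x3f2ccdc)) e))) (c (c (p (nat_lit 0x3f4b348)) (c (m (nat_lit 0x4e5d570)) e)) (c (c (p (nat_lit
  0x3781d4)) e) e))) (c (c (c (m (nat_lit 0x5a0d0ec)) (c (m (nat_lit 0x14cbc38)) e)) (c (c (m (nat_lit
  0x11947a4)) e) e)) (c (c (c (p (nat_lit 0x42e8578)) e) e) e))) (c (c (c (c (p (nat_lit 0x356a0e4)) (c (m
  (nat_lit 0x1329f0c)) (c (p (nat_lit 0x2da38c)) e))) (c (c (m (nat_lit 0x9859b24)) (c (m (nat_lit 0x9306cc))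
  e)) (c (c (p (nat_lit 0x4ecfcd8)) e) e))) (c (c (c (p (nat_lit 0x2ed69a0)) (c (m (nat_lit 0x30b9340)) e))
  (c (c (p (nat_lit 0x255b274)) e) e)) (c (c (c (m (nat_lit 0x2cebe94)) e) e) e))) e))) (c (c (c (c (c (m
  (nat_lit 0x3055338)) (c (p (nat_lit 0x75429c)) (c (m (nat_lit 0x1f4f70c)) e))) (c (c (p (nat_lit
  0x4b999f0)) (c (m (nat_lit 0x32de208)) e)) (c (c (p (nat_lit 0x1a9ab4c)) e) e))) (c (c (c (p (nat_lit
  0x7e68ef8)) (c (p (nat_lit 0x2c4477c)) e)) (c (c (m (nat_lit 0x19f38fc)) e) e)) (c (c (c (m (nat_lit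
  0x44f3ce8)) e) e) e))) (c (c (c (c (p (nat_lit 0x18f6300)) (c (m (nat_lit 0x42db0fc)) (c (p (nat_lit
  0x11cabd0)) e))) (c (c (m (nat_lit 0x2d8f91c)) (c (p (nat_lit 0x31ec2ac)) e)) (c (c (p (nat_lit 0x8f67c))
  e) e))) (c (c (c (m (nat_lit 0x81f954)) (c (m (nat_lit 0x2ba2c8)) e)) (c (c (m (nat_lit 0xaaef8)) e) e)) (c
  (c (c (p (nat_lit 0x12a7760)) e) e) e))) e)) (c (c (c (c (c (p (nat_lit 0x189708)) (c (p (nat_lit
  0x249bdf0)) (c (p (nat_lit 0x1f39050)) e))) (c (c (p (nat_lit 0x1dc6c28)) (c (m (nat_lit 0x222570c)) e)) (c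
  (c (m (nat_lit 0x2eab8)) e) e))) (c (c (c (m (nat_lit 0x771c888)) (c (p (nat_lit 0x20d2298)) e)) (c (c (p
  (nat_lit 0x56a450)) e) e)) (c (c (c (p (nat_lit 0x30cf60c)) e) e) e))) e) e))) (c (c (c (c (c (c (p
  (nat_lit 0x2677b84)) (c (m (nat_lit 0x13f788c)) (c (m (nat_lit 0x3548cb8)) e))) (c (c (m (nat_lit
  0x9d45cb0)) (c (m (nat_lit 0x2a98a78)) e)) (c (c (p (nat_lit 0x4246adc)) e) e))) (c (c (c (p (nat_lit
  0x146901c)) (c (p (nat_lit 0x1d7e994)) e)) (c (c (p (nat_lit 0x1aa99f0)) e) e)) (c (c (c (p (nat_lit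
  0x9fb154)) e) e) e))) (c (c (c (c (m (nat_lit 0x1ae9824)) (c (p (nat_lit 0x30459c0)) (c (m (nat_lit
  0x2382a38)) e))) (c (c (p (nat_lit 0x32d72cc)) (c (m (nat_lit 0x109ac7c)) e)) (c (c (m (nat_lit 0x80b170))
  e) e))) (c (c (c (m (nat_lit 0x192c0d8)) (c (p (nat_lit 0x18ac4dc)) e)) (c (c (m (nat_lit 0x10fe450)) e)
  e)) (c (c (c (p (nat_lit 0x18e610)) e) e) e))) e)) (c (c (c (c (c (m (nat_lit 0x1e547bc)) (c (m (nat_lit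
  0x37f4d6c)) (c (p (nat_lit 0x127b108)) e))) (c (c (p (nat_lit 0x40206d8)) (c (p (nat_lit 0x1d23650)) e)) (c
  (c (m (nat_lit 0x72120c)) e) e))) (c (c (c (p (nat_lit 0x52c2b7c)) (c (p (nat_lit 0x21d9314)) e)) (c (c (m
  (nat_lit 0x1dc17e0)) e) e)) (c (c (c (m (nat_lit 0x32231c4)) e) e) e))) e) e)) (c (c (c (c (c (c (p
  (nat_lit 0x1d0b9e0)) (c (p (nat_lit 0x7be10)) (c (p (nat_lit 0x79c470)) e))) (c (c (m (nat_lit 0x61c5c00))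
  (c (p (nat_lit 0x1a7d4e8)) e)) (c (c (p (nat_lit 0x13e5c1c)) e) e))) (c (c (c (p (nat_lit 0x1eeae04)) (c (m
  (nat_lit 0x27697f8)) e)) (c (c (p (nat_lit 0x132e43c)) e) e)) (c (c (c (p (nat_lit 0xa8366c)) e) e) e))) e)
  e) e))) (c (c (c (c (c (c (c (m (nat_lit 0x5a5a78)) (c (p (nat_lit 0x26978b8)) (c (p (nat_lit 0x104c784))
  e))) (c (c (m (nat_lit 0x8b39a6a)) (c (m (nat_lit 0x1510ec)) e)) (c (c (p (nat_lit 0xf9774c)) e) e))) (c (c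
  (c (p (nat_lit 0x54adf1c)) (c (m (nat_lit 0x37a1480)) e)) (c (c (m (nat_lit 0x1353e04)) e) e)) (c (c (c (m
  (nat_lit 0x41b18d4)) e) e) e))) (c (c (c (c (p (nat_lit 0x3c3372c)) (c (m (nat_lit 0x64c9d28)) (c (p
  (nat_lit 0x155f61c)) e))) (c (c (p (nat_lit 0x7375236)) (c (p (nat_lit 0x22db4ac)) e)) (c (c (m (nat_lit
  0x3eb9e0c)) e) e))) (c (c (c (m (nat_lit 0x1cc1394)) (c (p (nat_lit 0x1f53e7c)) e)) (c (c (m (nat_lit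
  0x10a9238)) e) e)) (c (c (c (m (nat_lit 0x1e833d0)) e) e) e))) (c (c (c (c (m (nat_lit 0xd411650)) (c (p
  (nat_lit 0x2b557b4)) e)) (c (c (p (nat_lit 0x5928ea0)) e) e)) (c (c (c (p (nat_lit 0x2a6d8b4)) e) e) e))
  e))) (c (c (c (c (c (m (nat_lit 0x49f0a10)) (c (p (nat_lit 0x19fafee)) (c (m (nat_lit 0x1ca78a0)) e))) (c
  (c (p (nat_lit 0x58e9fb4)) (c (m (nat_lit 0x127758c)) e)) (c (c (m (nat_lit 0x28e8ea4)) e) e))) (c (c (c (p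
  (nat_lit 0x29ff92e)) (c (p (nat_lit 0x11ae7b4)) e)) (c (c (m (nat_lit 0x1248a98)) e) e)) (c (c (c (p
  (nat_lit 0x318ee68)) e) e) e))) (c (c (c (c (m (nat_lit 0x109e174)) (c (m (nat_lit 0x6aadc)) e)) (c (c (m
  (nat_lit 0x384174)) e) e)) (c (c (c (m (nat_lit 0x627f30)) e) e) e)) e)) (c (c (c (c (c (p (nat_lit
  0x10c7fd0)) (c (m (nat_lit 0x1c142b8)) e)) (c (c (p (nat_lit 0xf35be0)) e) e)) (c (c (c (p (nat_lit
  0x3446ca0)) e) e) e)) e) e))) (c (c (c (c (c (c (p (nat_lit 0x37e5baa)) (c (m (nat_lit 0x1060c02)) (c (m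
  (nat_lit 0xd46ac0)) e))) (c (c (m (nat_lit 0x42469a4)) (c (p (nat_lit 0x19c1cdc)) e)) (c (c (p (nat_lit
  0x419490)) e) e))) (c (c (c (m (nat_lit 0x3a6c890)) (c (m (nat_lit 0x272bec)) e)) (c (c (p (nat_lit
  0x22c92e4)) e) e)) (c (c (c (p (nat_lit 0x1e4ca88)) e) e) e))) (c (c (c (c (p (nat_lit 0x88d63c4)) (c (m
  (nat_lit 0x23293a4)) e)) (c (c (m (nat_lit 0x349d73c)) e) e)) (c (c (c (m (nat_lit 0x163a3d0)) e) e) e))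
  e)) (c (c (c (c (c (p (nat_lit 0x6cf85a4)) (c (p (nat_lit 0x80e680)) e)) (c (c (m (nat_lit 0x26a92e8)) e)
  e)) (c (c (c (m (nat_lit 0xde249c)) e) e) e)) e) e)) (c (c (c (c (c (c (m (nat_lit 0x86074d4)) (c (p
  (nat_lit 0x279ba30)) e)) (c (c (p (nat_lit 0x359a8ac)) e) e)) (c (c (c (p (nat_lit 0x2af7e0)) e) e) e)) e)
  e) e))) (c (c (c (c (c (c (c (m (nat_lit 0xa932018)) (c (p (nat_lit 0x2520)) (c (p (nat_lit 0xf257f4)) e)))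
  (c (c (p (nat_lit 0x288135c)) (c (p (nat_lit 0x26f04d8)) e)) (c (c (p (nat_lit 0x2e779f0)) e) e))) (c (c (c
  (p (nat_lit 0x94ba3ce)) (c (m (nat_lit 0x1b0b508)) e)) (c (c (p (nat_lit 0x31cfc50)) e) e)) (c (c (c (p
  (nat_lit 0x7888d4)) e) e) e))) (c (c (c (c (p (nat_lit 0x82f1844)) (c (p (nat_lit 0x12c1bc)) e)) (c (c (m
  (nat_lit 0x535bcba)) e) e)) (c (c (c (p (nat_lit 0x37008f0)) e) e) e)) (c (c (c (c (p (nat_lit 0x16cd2ec))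
  e) e) e) e))) (c (c (c (c (c (p (nat_lit 0x8e5ff78)) (c (m (nat_lit 0x1310c52)) e)) (c (c (m (nat_lit
  0x66e0f10)) e) e)) (c (c (c (m (nat_lit 0x8a2d56a)) e) e) e)) (c (c (c (c (p (nat_lit 0x8a50d0)) e) e) e)
  e)) (c (c (c (c (c (m (nat_lit 0x1ab8f24)) e) e) e) e) e))) (c (c (c (c (c (c (m (nat_lit 0x58e22e0)) (c (p
  (nat_lit 0x2d143b2)) e)) (c (c (p (nat_lit 0x189b010)) e) e)) (c (c (c (m (nat_lit 0x1e13740)) e) e) e)) (c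
  (c (c (c (m (nat_lit 0x214fac4)) e) e) e) e)) (c (c (c (c (c (m (nat_lit 0x2a27924)) e) e) e) e) e)) (c (c
  (c (c (c (c (p (nat_lit 0x381a920)) e) e) e) e) e) e))) (c (c (c (c (c (c (c (p (nat_lit 0x5e9a658)) (c (m
  (nat_lit 0x1305084)) e)) (c (c (m (nat_lit 0x2364ea)) e) e)) (c (c (c (m (nat_lit 0x6a6a5c2)) e) e) e)) (c
  (c (c (c (m (nat_lit 0x230a6e4)) e) e) e) e)) (c (c (c (c (c (p (nat_lit 0xb413b0)) e) e) e) e) e)) (c (c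
  (c (c (c (c (p (nat_lit 0x28311d2)) e) e) e) e) e) e)) (c (c (c (c (c (c (c (m (nat_lit 0x21ad0dc)) e) e)
  e) e) e) e) e))))) (c (c (c (c (c (c (c (c (m (nat_lit 0xcfb12c4)) (c (p (nat_lit 0x1be92e)) (c (p (nat_lit
  0x4016f40)) e))) (c (c (p (nat_lit 0xda11902)) (c (p (nat_lit 0x3bd62f4)) e)) (c (c (m (nat_lit 0x6a17be8))
  e) e))) (c (c (c (m (nat_lit 0x4badfa0)) (c (p (nat_lit 0x114a38)) e)) (c (c (p (nat_lit 0x1935768)) e) e))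
  (c (c (c (p (nat_lit 0x5493498)) e) e) e))) (c (c (c (c (m (nat_lit 0x7e9998a)) (c (m (nat_lit 0xc48a7a))
  (c (p (nat_lit 0x1c96efc)) e))) (c (c (m (nat_lit 0x29d29f4)) (c (p (nat_lit 0xa33c38)) e)) (c (c (p
  (nat_lit 0x3c50040)) e) e))) (c (c (c (m (nat_lit 0x4638fd8)) (c (p (nat_lit 0xacb36c)) e)) (c (c (p
  (nat_lit 0xed8fb8)) e) e)) (c (c (c (p (nat_lit 0x2c2c338)) e) e) e))) (c (c (c (c (p (nat_lit 0x4650c60))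
  (c (m (nat_lit 0x16ad2a0)) e)) (c (c (p (nat_lit 0x1a5a244)) e) e)) (c (c (c (p (nat_lit 0x3f1848)) e) e)
  e)) e))) (c (c (c (c (c (p (nat_lit 0xf9df2c0)) (c (p (nat_lit 0x8dc03c0)) (c (m (nat_lit 0x4258dd0)) e)))
  (c (c (m (nat_lit 0x236474a)) (c (m (nat_lit 0x363dd28)) e)) (c (c (p (nat_lit 0x3425a0c)) e) e))) (c (c (c
  (p (nat_lit 0xc83112)) (c (m (nat_lit 0xd29aec)) e)) (c (c (p (nat_lit 0xb9817c)) e) e)) (c (c (c (m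
  (nat_lit 0x30b8458)) e) e) e))) (c (c (c (c (m (nat_lit 0x23f65f8)) (c (p (nat_lit 0xe6ac9c)) e)) (c (c (m
  (nat_lit 0x904164)) e) e)) (c (c (c (p (nat_lit 0x2b1754c)) e) e) e)) e)) (c (c (c (c (c (m (nat_lit
  0x1ff3ddc)) (c (m (nat_lit 0x4b3eb5c)) e)) (c (c (p (nat_lit 0x7c4ac0)) e) e)) (c (c (c (p (nat_lit
  0x11b6b90)) e) e) e)) e) e))) (c (c (c (c (c (c (m (nat_lit 0xa9d34c0)) (c (p (nat_lit 0x78f55bc)) (c (p
  (nat_lit 0xcb700)) e))) (c (c (p (nat_lit 0x6ad97c0)) (c (p (nat_lit 0x2cc93b8)) e)) (c (c (m (nat_lit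
  0x6239a0)) e) e))) (c (c (c (p (nat_lit 0x2de3358)) (c (m (nat_lit 0x6fd50c)) e)) (c (c (m (nat_lit
  0x89f850)) e) e)) (c (c (c (m (nat_lit 0x27f3a08)) e) e) e))) (c (c (c (c (m (nat_lit 0x43c2954)) (c (p
  (nat_lit 0x148c8d8)) e)) (c (c (p (nat_lit 0x302a894)) e) e)) (c (c (c (p (nat_lit 0x1a53c50)) e) e) e))
  e)) (c (c (c (c (c (p (nat_lit 0x1a302e0)) (c (m (nat_lit 0x1af6ec8)) e)) (c (c (p (nat_lit 0xf67c2c)) e)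
  e)) (c (c (c (m (nat_lit 0x38c670)) e) e) e)) e) e)) (c (c (c (c (c (c (p (nat_lit 0x4a932a4)) (c (m
  (nat_lit 0x22f965c)) e)) (c (c (m (nat_lit 0xe98908)) e) e)) (c (c (c (m (nat_lit 0x30340bc)) e) e) e)) e)
  e) e))) (c (c (c (c (c (c (c (p (nat_lit 0x12dda426)) (c (p (nat_lit 0x12abc18)) (c (m (nat_lit 0xd977fc))
  e))) (c (c (p (nat_lit 0x44b674)) (c (m (nat_lit 0x25cbd20)) e)) (c (c (m (nat_lit 0x26a6b40)) e) e))) (c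
  (c (c (m (nat_lit 0x78c19fe)) (c (p (nat_lit 0x123a248)) e)) (c (c (p (nat_lit 0x54cc)) e) e)) (c (c (c (p
  (nat_lit 0x22b2634)) e) e) e))) (c (c (c (c (p (nat_lit 0x3fc2cf4)) (c (m (nat_lit 0x1f51ab8)) e)) (c (c (m
  (nat_lit 0x2791b00)) e) e)) (c (c (c (m (nat_lit 0x1f0cb4e)) e) e) e)) (c (c (c (c (p (nat_lit 0x41d6f0))
  e) e) e) e))) (c (c (c (c (c (m (nat_lit 0x85ee994)) (c (p (nat_lit 0x11bc63e)) e)) (c (c (m (nat_lit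
  0x38e12e0)) e) e)) (c (c (c (p (nat_lit 0x1a7913e)) e) e) e)) (c (c (c (c (p (nat_lit 0x68b524)) e) e) e)
  e)) (c (c (c (c (c (m (nat_lit 0x12f1bfc)) e) e) e) e) e))) (c (c (c (c (c (c (p (nat_lit 0xaa5506)) (c (p
  (nat_lit 0x11b57e0)) e)) (c (c (m (nat_lit 0x6622ce)) e) e)) (c (c (c (p (nat_lit 0x1376850)) e) e) e)) (c
  (c (c (c (m (nat_lit 0x84b55c)) e) e) e) e)) (c (c (c (c (c (m (nat_lit 0x1d21460)) e) e) e) e) e)) (c (c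
  (c (c (c (c (p (nat_lit 0x1f68a8)) e) e) e) e) e) e))) (c (c (c (c (c (c (c (m (nat_lit 0x45dee16)) (c (m
  (nat_lit 0x3674d78)) e)) (c (c (p (nat_lit 0xb6e8a2)) e) e)) (c (c (c (p (nat_lit 0xd6ad66)) e) e) e)) (c
  (c (c (c (m (nat_lit 0x263dd2)) e) e) e) e)) (c (c (c (c (c (m (nat_lit 0xc00fc)) e) e) e) e) e)) (c (c (c
  (c (c (c (p (nat_lit 0x1591d7c)) e) e) e) e) e) e)) (c (c (c (c (c (c (c (p (nat_lit 0xd1586c)) e) e) e) e)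
  e) e) e)))) (c (c (c (c (c (c (c (c (p (nat_lit 0x10f34832)) (c (m (nat_lit 0x35147dc)) (c (m (nat_lit
  0x1813e18)) e))) (c (c (m (nat_lit 0x143d9e8e)) (c (m (nat_lit 0x24e958c)) e)) (c (c (p (nat_lit
  0x109ae08)) e) e))) (c (c (c (m (nat_lit 0x40ed67a)) (c (p (nat_lit 0x5a27f0)) e)) (c (c (p (nat_lit
  0x2d3a80)) e) e)) (c (c (c (p (nat_lit 0x1e51090)) e) e) e))) (c (c (c (c (p (nat_lit 0x9225342)) (c (m
  (nat_lit 0x27f78d2)) e)) (c (c (p (nat_lit 0x9355e0)) e) e)) (c (c (c (p (nat_lit 0x771972)) e) e) e)) (c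
  (c (c (c (m (nat_lit 0x1fd493c)) e) e) e) e))) (c (c (c (c (c (m (nat_lit 0xa3646ee)) (c (p (nat_lit
  0x2a1b4ce)) e)) (c (c (p (nat_lit 0x23b3ec6)) e) e)) (c (c (c (m (nat_lit 0x2d8f658)) e) e) e)) (c (c (c (c
  (m (nat_lit 0xea1c68)) e) e) e) e)) (c (c (c (c (c (p (nat_lit 0x4290d44)) e) e) e) e) e))) (c (c (c (c (c
  (c (m (nat_lit 0x240cdbc)) (c (m (nat_lit 0x6a78074)) e)) (c (c (m (nat_lit 0x968965e)) e) e)) (c (c (c (m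
  (nat_lit 0xe4db60)) e) e) e)) (c (c (c (c (p (nat_lit 0x4cf8)) e) e) e) e)) (c (c (c (c (c (m (nat_lit
  0x18b76f0)) e) e) e) e) e)) (c (c (c (c (c (c (m (nat_lit 0x1310454)) e) e) e) e) e) e))) (c (c (c (c (c (c
  (c (m (nat_lit 0x1352d648)) (c (p (nat_lit 0x1b403da)) e)) (c (c (p (nat_lit 0x4773900)) e) e)) (c (c (c (p
  (nat_lit 0x13e13c8)) e) e) e)) (c (c (c (c (m (nat_lit 0x1abb018)) e) e) e) e)) (c (c (c (c (c (p (nat_lit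
  0x63046c8)) e) e) e) e) e)) (c (c (c (c (c (c (m (nat_lit 0x2cba5fe)) e) e) e) e) e) e)) (c (c (c (c (c (c
  (c (m (nat_lit 0x64246e)) e) e) e) e) e) e) e))) (c (c (c (c (c (c (c (c (p (nat_lit 0x7051dca)) (c (p
  (nat_lit 0x271fc2c)) e)) (c (c (p (nat_lit 0xcbe9a76)) e) e)) (c (c (c (p (nat_lit 0x2f930b2)) e) e) e)) (c
  (c (c (c (m (nat_lit 0x24ca7a)) e) e) e) e)) (c (c (c (c (c (p (nat_lit 0x44e77d2)) e) e) e) e) e)) (c (c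
  (c (c (c (c (p (nat_lit 0xcab4d04)) e) e) e) e) e) e)) (c (c (c (c (c (c (c (p (nat_lit 0x6bd60d2)) e) e)
  e) e) e) e) e)) (c (c (c (c (c (c (c (c (m (nat_lit 0x128c04cc)) e) e) e) e) e) e) e) e))))) (c (c (c (c (c
  (c (c (c (c (m (nat_lit 0xf38e98)) (c (m (nat_lit 0x68381f4)) (c (p (nat_lit 0x4831488)) e))) (c (c (m
  (nat_lit 0x3f5a45c)) (c (p (nat_lit 0x4765548)) e)) (c (c (p (nat_lit 0x4e0dc8)) e) e))) (c (c (c (m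
  (nat_lit 0x485b788)) (c (p (nat_lit 0x1fc2948)) e)) (c (c (p (nat_lit 0x3a1c9d0)) e) e)) (c (c (c (m
  (nat_lit 0x553f5c)) e) e) e))) (c (c (c (c (p (nat_lit 0xaed680c)) (c (p (nat_lit 0x13b7b0)) (c (p (nat_lit
  0x2d5bf8)) e))) (c (c (p (nat_lit 0x3cc678)) (c (p (nat_lit 0x5ac720)) e)) (c (c (m (nat_lit 0x120171c)) e)
  e))) (c (c (c (p (nat_lit 0x163b66c)) (c (p (nat_lit 0x1530504)) e)) (c (c (m (nat_lit 0x718e00)) e) e)) (c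
  (c (c (m (nat_lit 0x1c40040)) e) e) e))) (c (c (c (c (m (nat_lit 0x509d690)) (c (p (nat_lit 0x64ce0c)) e))
  (c (c (p (nat_lit 0x60ba48)) e) e)) (c (c (c (p (nat_lit 0x80c9ac)) e) e) e)) e))) (c (c (c (c (c (p
  (nat_lit 0x70d0ba4)) (c (m (nat_lit 0x59dd140)) (c (p (nat_lit 0x1386f84)) e))) (c (c (m (nat_lit
  0x389e320)) (c (p (nat_lit 0x7f440c)) e)) (c (c (m (nat_lit 0x12b1150)) e) e))) (c (c (c (m (nat_lit
  0x4d4e4f0)) (c (p (nat_lit 0x1aa444)) e)) (c (c (p (nat_lit 0x10c6038)) e) e)) (c (c (c (p (nat_lit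
  0x1bfd2e4)) e) e) e))) (c (c (c (c (m (nat_lit 0x4c53fb4)) (c (p (nat_lit 0x2ff4a8)) e)) (c (c (p (nat_lit
  0x1ce1044)) e) e)) (c (c (c (p (nat_lit 0x1f744e0)) e) e) e)) e)) (c (c (c (c (c (p (nat_lit 0x2f913c)) (c
  (m (nat_lit 0x6b2524)) e)) (c (c (p (nat_lit 0x1aaa3c8)) e) e)) (c (c (c (p (nat_lit 0x1e9ed78)) e) e) e))
  e) e))) (c (c (c (c (c (c (p (nat_lit 0x6bbeeb8)) (c (m (nat_lit 0x648d8)) (c (p (nat_lit 0x9b160c)) e)))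
  (c (c (p (nat_lit 0x58aa2f4)) (c (m (nat_lit 0x679da0)) e)) (c (c (m (nat_lit 0x945888)) e) e))) (c (c (c
  (m (nat_lit 0x674c550)) (c (p (nat_lit 0x166bd8)) e)) (c (c (p (nat_lit 0x7cbd5c)) e) e)) (c (c (c (p
  (nat_lit 0x3b74614)) e) e) e))) (c (c (c (c (p (nat_lit 0x2711448)) (c (p (nat_lit 0x5024dc)) e)) (c (c (p
  (nat_lit 0x7f9ca4)) e) e)) (c (c (c (m (nat_lit 0xb7d104)) e) e) e)) e)) (c (c (c (c (c (m (nat_lit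
  0x29c7864)) (c (p (nat_lit 0x67d160)) e)) (c (c (m (nat_lit 0x51c948)) e) e)) (c (c (c (m (nat_lit
  0xfb484)) e) e) e)) e) e)) (c (c (c (c (c (c (m (nat_lit 0x8f883c)) (c (p (nat_lit 0x23d16b0)) e)) (c (c (m
  (nat_lit 0x11c8824)) e) e)) (c (c (c (m (nat_lit 0xb03724)) e) e) e)) e) e) e))) (c (c (c (c (c (c (c (m
  (nat_lit 0xb7ebd1c)) (c (p (nat_lit 0x49e0ccc)) (c (m (nat_lit 0xa4a60)) e))) (c (c (p (nat_lit 0x64d75b8))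
  (c (m (nat_lit 0x1faa5d0)) e)) (c (c (m (nat_lit 0x256b4b0)) e) e))) (c (c (c (p (nat_lit 0x2a3a3a4)) (c (m
  (nat_lit 0x723dc8)) e)) (c (c (m (nat_lit 0x24b7b34)) e) e)) (c (c (c (m (nat_lit 0x84744)) e) e) e))) (c
  (c (c (c (m (nat_lit 0x75beda0)) (c (p (nat_lit 0x210bf40)) e)) (c (c (p (nat_lit 0x15fbd30)) e) e)) (c (c
  (c (p (nat_lit 0x74cde4)) e) e) e)) (c (c (c (c (p (nat_lit 0x3932acc)) e) e) e) e))) (c (c (c (c (c (p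
  (nat_lit 0x5a39990)) (c (p (nat_lit 0x1a1c7a4)) e)) (c (c (m (nat_lit 0xf219c0)) e) e)) (c (c (c (p
  (nat_lit 0x6448b0)) e) e) e)) (c (c (c (c (m (nat_lit 0xe17c74)) e) e) e) e)) (c (c (c (c (c (m (nat_lit
  0xa25880)) e) e) e) e) e))) (c (c (c (c (c (c (m (nat_lit 0x5fbfc8)) (c (p (nat_lit 0x6f6ac8)) e)) (c (c (p
  (nat_lit 0x8d7770)) e) e)) (c (c (c (p (nat_lit 0xcfbff4)) e) e) e)) (c (c (c (c (m (nat_lit 0xd700a0)) e)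
  e) e) e)) (c (c (c (c (c (p (nat_lit 0x10564b0)) e) e) e) e) e)) (c (c (c (c (c (c (p (nat_lit 0x1ba3170))
  e) e) e) e) e) e))) (c (c (c (c (c (c (c (p (nat_lit 0x6345d08)) (c (m (nat_lit 0x188d240)) e)) (c (c (p
  (nat_lit 0x16df2c8)) e) e)) (c (c (c (m (nat_lit 0xb664c)) e) e) e)) (c (c (c (c (m (nat_lit 0x24e9130)) e)
  e) e) e)) (c (c (c (c (c (m (nat_lit 0x25a2e84)) e) e) e) e) e)) (c (c (c (c (c (c (m (nat_lit 0x4dd120))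
  e) e) e) e) e) e)) (c (c (c (c (c (c (c (m (nat_lit 0x18e72a0)) e) e) e) e) e) e) e)))) (c (c (c (c (c (c
  (c (c (m (nat_lit 0x4165302)) (c (p (nat_lit 0x3cef82)) (c (p (nat_lit 0x6f9198)) e))) (c (c (m (nat_lit
  0xb15034)) (c (m (nat_lit 0x7df91c)) e)) (c (c (p (nat_lit 0x44dd50)) e) e))) (c (c (c (p (nat_lit
  0x1244cb38)) (c (m (nat_lit 0xd8e010)) e)) (c (c (m (nat_lit 0x34d87f4)) e) e)) (c (c (c (m (nat_lit
  0x6389e8c)) e) e) e))) (c (c (c (c (m (nat_lit 0x2adacfa)) (c (p (nat_lit 0xeb04dc)) e)) (c (c (p (nat_lit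
  0xd4ee0)) e) e)) (c (c (c (m (nat_lit 0x1ac496c)) e) e) e)) (c (c (c (c (p (nat_lit 0xb00688)) e) e) e)
  e))) (c (c (c (c (c (p (nat_lit 0x9cf6c48)) (c (m (nat_lit 0x1f20f54)) e)) (c (c (m (nat_lit 0x4a6a288)) e)
  e)) (c (c (c (m (nat_lit 0x2f2ac04)) e) e) e)) (c (c (c (c (m (nat_lit 0x925428)) e) e) e) e)) (c (c (c (c
  (c (m (nat_lit 0x259d610)) e) e) e) e) e))) (c (c (c (c (c (c (m (nat_lit 0xac868fa)) (c (m (nat_lit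
  0x16ddabc)) e)) (c (c (m (nat_lit 0x23c724)) e) e)) (c (c (c (p (nat_lit 0x1d298cc)) e) e) e)) (c (c (c (c
  (p (nat_lit 0x11927c4)) e) e) e) e)) (c (c (c (c (c (m (nat_lit 0x2849ac)) e) e) e) e) e)) (c (c (c (c (c
  (c (p (nat_lit 0x144fdd4)) e) e) e) e) e) e))) (c (c (c (c (c (c (c (p (nat_lit 0x6458dc0)) (c (p (nat_lit
  0xa34db4)) e)) (c (c (p (nat_lit 0x17c4ed0)) e) e)) (c (c (c (p (nat_lit 0x19db5ba)) e) e) e)) (c (c (c (c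
  (p (nat_lit 0x3d0a52)) e) e) e) e)) (c (c (c (c (c (m (nat_lit 0x1273332)) e) e) e) e) e)) (c (c (c (c (c
  (c (p (nat_lit 0x27c1896)) e) e) e) e) e) e)) (c (c (c (c (c (c (c (m (nat_lit 0x176b398)) e) e) e) e) e)
  e) e))) (c (c (c (c (c (c (c (c (m (nat_lit 0xde5d2a6)) (c (p (nat_lit 0x3117e5e)) e)) (c (c (p (nat_lit
  0x3cf2eb0)) e) e)) (c (c (c (m (nat_lit 0x291721e)) e) e) e)) (c (c (c (c (m (nat_lit 0xa4bf74)) e) e) e)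
  e)) (c (c (c (c (c (p (nat_lit 0x36e8692)) e) e) e) e) e)) (c (c (c (c (c (c (p (nat_lit 0x359b23c)) e) e)
  e) e) e) e)) (c (c (c (c (c (c (c (m (nat_lit 0x3d3c9ce)) e) e) e) e) e) e) e)) (c (c (c (c (c (c (c (c (p
  (nat_lit 0x9cee6aa)) e) e) e) e) e) e) e) e)))) (c (c (c (c (c (c (c (c (c (m (nat_lit 0x30fd5fc)) (c (m
  (nat_lit 0x2d6c870)) (c (m (nat_lit 0x17569f8)) e))) (c (c (m (nat_lit 0x3294d80)) (c (m (nat_lit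
  0x1dbda0)) e)) (c (c (p (nat_lit 0x12be41c)) e) e))) (c (c (c (p (nat_lit 0x57f2bec)) (c (m (nat_lit
  0x2e808dc)) e)) (c (c (m (nat_lit 0x320bec)) e) e)) (c (c (c (m (nat_lit 0x4168c8)) e) e) e))) (c (c (c (c
  (m (nat_lit 0x19948c8)) (c (m (nat_lit 0xc120f0)) e)) (c (c (m (nat_lit 0x1acbe6c)) e) e)) (c (c (c (p
  (nat_lit 0x2672fdc)) e) e) e)) (c (c (c (c (p (nat_lit 0x3f47a0)) e) e) e) e))) (c (c (c (c (c (m (nat_lit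
  0x525900c)) (c (p (nat_lit 0x138ece8)) e)) (c (c (p (nat_lit 0xf605dc)) e) e)) (c (c (c (m (nat_lit
  0xdba218)) e) e) e)) (c (c (c (c (p (nat_lit 0x26431a4)) e) e) e) e)) (c (c (c (c (c (p (nat_lit 0x74adb0))
  e) e) e) e) e))) (c (c (c (c (c (c (m (nat_lit 0x37bf87c)) (c (p (nat_lit 0x1926318)) e)) (c (c (p (nat_lit
  0xb70a80)) e) e)) (c (c (c (p (nat_lit 0xb2728c)) e) e) e)) (c (c (c (c (m (nat_lit 0x2341824)) e) e) e)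
  e)) (c (c (c (c (c (p (nat_lit 0x12ccb94)) e) e) e) e) e)) (c (c (c (c (c (c (p (nat_lit 0x142d694)) e) e)
  e) e) e) e))) (c (c (c (c (c (c (c (p (nat_lit 0x54d6488)) (c (p (nat_lit 0x362acc)) e)) (c (c (m (nat_lit
  0x34b6564)) e) e)) (c (c (c (m (nat_lit 0x1229934)) e) e) e)) (c (c (c (c (p (nat_lit 0x222e9d0)) e) e) e)
  e)) (c (c (c (c (c (m (nat_lit 0x1c1d90)) e) e) e) e) e)) (c (c (c (c (c (c (p (nat_lit 0xe538b4)) e) e) e)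
  e) e) e)) (c (c (c (c (c (c (c (m (nat_lit 0x37d1588)) e) e) e) e) e) e) e))) (c (c (c (c (c (c (c (c (p
  (nat_lit 0x901361a)) (c (m (nat_lit 0x11dd6d4)) e)) (c (c (p (nat_lit 0x1073e38)) e) e)) (c (c (c (m
  (nat_lit 0x3d2825c)) e) e) e)) (c (c (c (c (p (nat_lit 0x3225564)) e) e) e) e)) (c (c (c (c (c (m (nat_lit
  0x1347cfc)) e) e) e) e) e)) (c (c (c (c (c (c (m (nat_lit 0x348f90)) e) e) e) e) e) e)) (c (c (c (c (c (c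
  (c (m (nat_lit 0x1e32c1c)) e) e) e) e) e) e) e)) (c (c (c (c (c (c (c (c (m (nat_lit 0x47a2c82)) e) e) e)
  e) e) e) e) e))) (c (c (c (c (c (c (c (c (c (m (nat_lit 0x1361484)) (c (p (nat_lit 0x261bce8)) e)) (c (c (p
  (nat_lit 0x5d8d18)) e) e)) (c (c (c (m (nat_lit 0x1aba04c)) e) e) e)) (c (c (c (c (m (nat_lit 0xe381e8)) e)
  e) e) e)) (c (c (c (c (c (p (nat_lit 0x94c0a4)) e) e) e) e) e)) (c (c (c (c (c (c (p (nat_lit 0x15ae438))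
  e) e) e) e) e) e)) (c (c (c (c (c (c (c (p (nat_lit 0xdc230c)) e) e) e) e) e) e) e)) (c (c (c (c (c (c (c
  (c (m (nat_lit 0x42a494)) e) e) e) e) e) e) e) e)) (c (c (c (c (c (c (c (c (c (p (nat_lit 0x10c2264)) e) e)
  e) e) e) e) e) e) e)))))

noncomputable def gt_1_2_6 : Tr :=
  (c (c (c (c (c (c (c (c (c (p (nat_lit 0x2cd94d4)) (c (m (nat_lit 0x7d19108)) (c (p (nat_lit 0x27d9de8))
  e))) (c (c (m (nat_lit 0x1cf6e84)) (c (p (nat_lit 0x1331874)) e)) (c (c (p (nat_lit 0xff5148)) e) e))) (c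
  (c (c (p (nat_lit 0x12e1db0)) (c (p (nat_lit 0x2409390)) e)) (c (c (m (nat_lit 0x1d9a924)) e) e)) (c (c (c
  (m (nat_lit 0x69a98)) e) e) e))) (c (c (c (c (m (nat_lit 0x2ca9138)) (c (p (nat_lit 0xbc4acc8)) (c (m
  (nat_lit 0x4934304)) e))) (c (c (p (nat_lit 0x9323640)) (c (m (nat_lit 0x44fc328)) e)) (c (c (m (nat_lit
  0x2837b5c)) e) e))) (c (c (c (m (nat_lit 0x9d43178)) (c (p (nat_lit 0x16917a8)) e)) (c (c (p (nat_lit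
  0x89f838)) e) e)) (c (c (c (p (nat_lit 0x56b6adc)) e) e) e))) (c (c (c (c (m (nat_lit 0x605cff4)) (c (p
  (nat_lit 0xf46479c)) (c (m (nat_lit 0x36f2814)) e))) (c (c (p (nat_lit 0x12770c4)) (c (m (nat_lit
  0x1b05e8c)) e)) (c (c (p (nat_lit 0x4fa0e8)) e) e))) (c (c (c (p (nat_lit 0x2e51c08)) (c (m (nat_lit
  0x53add1c)) e)) (c (c (p (nat_lit 0x24703c8)) e) e)) (c (c (c (m (nat_lit 0x23775f0)) e) e) e))) e))) (c (c
  (c (c (c (m (nat_lit 0x2c21d18)) (c (p (nat_lit 0x1854a68)) (c (p (nat_lit 0x3f60b94)) e))) (c (c (m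
  (nat_lit 0x4802538)) (c (m (nat_lit 0xa4c538)) e)) (c (c (p (nat_lit 0x2a1a754)) e) e))) (c (c (c (p
  (nat_lit 0x12aca118)) (c (m (nat_lit 0x24ef724)) e)) (c (c (p (nat_lit 0x1130e68)) e) e)) (c (c (c (m
  (nat_lit 0xae92aa8)) e) e) e))) (c (c (c (c (p (nat_lit 0x245c8ec)) (c (m (nat_lit 0x7d2d7f0)) (c (p
  (nat_lit 0x375e6d0)) e))) (c (c (m (nat_lit 0x590a9cc)) (c (p (nat_lit 0x2025a5c)) e)) (c (c (p (nat_lit
  0x6f0810)) e) e))) (c (c (c (p (nat_lit 0x50ddefc)) (c (m (nat_lit 0x19cdd18)) e)) (c (c (m (nat_lit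
  0xa54cf8)) e) e)) (c (c (c (m (nat_lit 0x30b6940)) e) e) e))) e)) (c (c (c (c (c (p (nat_lit 0x11dabd8)) (c
  (p (nat_lit 0xa7d21c)) (c (m (nat_lit 0x16f6464)) e))) (c (c (p (nat_lit 0x6014994)) (c (m (nat_lit
  0x790ecc)) e)) (c (c (m (nat_lit 0x289f620)) e) e))) (c (c (c (m (nat_lit 0xc91bbd0)) (c (p (nat_lit
  0x1e4a76c)) e)) (c (c (m (nat_lit 0x1bcbd0)) e) e)) (c (c (c (p (nat_lit 0x7aa7eb4)) e) e) e))) e) e))) (c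
  (c (c (c (c (c (p (nat_lit 0x1ceaec0)) (c (m (nat_lit 0x21fd1ac)) (c (m (nat_lit 0x1d38f68)) e))) (c (c (m
  (nat_lit 0x45458d0)) (c (p (nat_lit 0x450a590)) e)) (c (c (p (nat_lit 0x3075930)) e) e))) (c (c (c (m
  (nat_lit 0x2d41d3c)) (c (p (nat_lit 0xaa25a8)) e)) (c (c (p (nat_lit 0x60870)) e) e)) (c (c (c (p (nat_lit
  0x458e4b8)) e) e) e))) (c (c (c (c (p (nat_lit 0x195c630)) (c (m (nat_lit 0x1b71814)) (c (m (nat_lit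
  0xbc7030)) e))) (c (c (p (nat_lit 0x8d6738)) (c (m (nat_lit 0x9347f4)) e)) (c (c (p (nat_lit 0x31b02a0)) e)
  e))) (c (c (c (m (nat_lit 0x4e78f18)) (c (p (nat_lit 0x277c6bc)) e)) (c (c (m (nat_lit 0x2bc452c)) e) e))
  (c (c (c (p (nat_lit 0x46bd7ac)) e) e) e))) e)) (c (c (c (c (c (p (nat_lit 0x9c79c8)) (c (m (nat_lit
  0x3ce5e9c)) (c (p (nat_lit 0x227df54)) e))) (c (c (m (nat_lit 0x1a33394)) (c (m (nat_lit 0x852cc)) e)) (c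
  (c (m (nat_lit 0x1f856c4)) e) e))) (c (c (c (p (nat_lit 0x417df44)) (c (p (nat_lit 0x1af03e8)) e)) (c (c (p
  (nat_lit 0x4682d0)) e) e)) (c (c (c (m (nat_lit 0x279171c)) e) e) e))) e) e)) (c (c (c (c (c (c (m (nat_lit
  0x39c8310)) (c (p (nat_lit 0x80ab028)) (c (m (nat_lit 0x21e3598)) e))) (c (c (p (nat_lit 0xe27ee0)) (c (m
  (nat_lit 0x244ce78)) e)) (c (c (m (nat_lit 0x2276688)) e) e))) (c (c (c (p (nat_lit 0x3f48ff0)) (c (m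
  (nat_lit 0x1690860)) e)) (c (c (p (nat_lit 0x3409b90)) e) e)) (c (c (c (m (nat_lit 0x2a3507c)) e) e) e)))
  e) e) e))) (c (c (c (c (c (c (c (m (nat_lit 0x1ac152f8)) (c (p (nat_lit 0x17c1c7bc)) (c (m (nat_lit
  0x5b5ccfc)) e))) (c (c (p (nat_lit 0x6f95ca6)) (c (m (nat_lit 0x429def0)) e)) (c (c (m (nat_lit 0xbddd28))
  e) e))) (c (c (c (p (nat_lit 0x9bb395c)) (c (m (nat_lit 0x6a11324)) e)) (c (c (p (nat_lit 0xf21204)) e) e))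
  (c (c (c (m (nat_lit 0x8933694)) e) e) e))) (c (c (c (c (p (nat_lit 0xc631b48)) (c (m (nat_lit 0xe64bd66))
  (c (p (nat_lit 0x63b4e58)) e))) (c (c (m (nat_lit 0x5498d72)) (c (p (nat_lit 0x2f46504)) e)) (c (c (p
  (nat_lit 0xb098ec)) e) e))) (c (c (c (p (nat_lit 0x165b93a)) (c (p (nat_lit 0x192ccfc)) e)) (c (c (m
  (nat_lit 0x10a3fb8)) e) e)) (c (c (c (m (nat_lit 0x42f7bc)) e) e) e))) (c (c (c (c (p (nat_lit 0xae8c904))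
  (c (m (nat_lit 0x85a073c)) e)) (c (c (m (nat_lit 0x17bb8e8)) e) e)) (c (c (c (m (nat_lit 0x13c3728)) e) e)
  e)) e))) (c (c (c (c (c (m (nat_lit 0x45f41a)) (c (m (nat_lit 0x534b4b4)) (c (p (nat_lit 0x1020d74)) e)))
  (c (c (p (nat_lit 0x249b406)) (c (m (nat_lit 0x1019988)) e)) (c (c (m (nat_lit 0xb393dc)) e) e))) (c (c (c
  (p (nat_lit 0x5458b84)) (c (p (nat_lit 0x357a5e4)) e)) (c (c (m (nat_lit 0x193aa78)) e) e)) (c (c (c (p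
  (nat_lit 0x1e6f6cc)) e) e) e))) (c (c (c (c (m (nat_lit 0x22d20e0)) (c (p (nat_lit 0x102c978)) e)) (c (c (p
  (nat_lit 0x1e3c8dc)) e) e)) (c (c (c (m (nat_lit 0x1bacf20)) e) e) e)) e)) (c (c (c (c (c (m (nat_lit
  0x1873d7c)) (c (p (nat_lit 0x178e09c)) e)) (c (c (p (nat_lit 0xda4dec)) e) e)) (c (c (c (m (nat_lit
  0x1154634)) e) e) e)) e) e))) (c (c (c (c (c (c (p (nat_lit 0x11b2c90)) (c (p (nat_lit 0x49d70a2)) (c (m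
  (nat_lit 0x8f04d8)) e))) (c (c (p (nat_lit 0x28a74ec)) (c (m (nat_lit 0x242d9c)) e)) (c (c (m (nat_lit
  0x17b938)) e) e))) (c (c (c (m (nat_lit 0x91a10f6)) (c (p (nat_lit 0x136e0c0)) e)) (c (c (p (nat_lit
  0x2738dc0)) e) e)) (c (c (c (p (nat_lit 0x3a24f08)) e) e) e))) (c (c (c (c (m (nat_lit 0x7cebb8)) (c (p
  (nat_lit 0x369de24)) e)) (c (c (p (nat_lit 0x2869f8)) e) e)) (c (c (c (p (nat_lit 0x1d8cb78)) e) e) e)) e))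
  (c (c (c (c (c (p (nat_lit 0x14ca450)) (c (p (nat_lit 0x108c30c)) e)) (c (c (p (nat_lit 0x1404da4)) e) e))
  (c (c (c (p (nat_lit 0x2b0fbfc)) e) e) e)) e) e)) (c (c (c (c (c (c (p (nat_lit 0x5facc0c)) (c (m (nat_lit
  0x57739f8)) e)) (c (c (m (nat_lit 0x1aa9498)) e) e)) (c (c (c (p (nat_lit 0x5a6084)) e) e) e)) e) e) e)))
  (c (c (c (c (c (c (c (p (nat_lit 0x168bd576)) (c (m (nat_lit 0xdca1144)) (c (p (nat_lit 0xffd554)) e))) (c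
  (c (m (nat_lit 0x828486c)) (c (p (nat_lit 0x1e0f60c)) e)) (c (c (p (nat_lit 0x1135aac)) e) e))) (c (c (c (p
  (nat_lit 0x224c8b0)) (c (p (nat_lit 0x1ef6dd4)) e)) (c (c (p (nat_lit 0x2195dc)) e) e)) (c (c (c (p
  (nat_lit 0x4fad8ac)) e) e) e))) (c (c (c (c (m (nat_lit 0x113da3aa)) (c (p (nat_lit 0x622ce96)) e)) (c (c
  (p (nat_lit 0x2d7f3f2)) e) e)) (c (c (c (p (nat_lit 0x2d3a13a)) e) e) e)) (c (c (c (c (m (nat_lit
  0x14ea274)) e) e) e) e))) (c (c (c (c (c (m (nat_lit 0x25e369c)) (c (p (nat_lit 0x818730)) e)) (c (c (m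
  (nat_lit 0x2a45156)) e) e)) (c (c (c (m (nat_lit 0x7a81e74)) e) e) e)) (c (c (c (c (p (nat_lit 0x19d2410))
  e) e) e) e)) (c (c (c (c (c (m (nat_lit 0x1729bc0)) e) e) e) e) e))) (c (c (c (c (c (c (m (nat_lit
  0x2053662)) (c (m (nat_lit 0x5232006)) e)) (c (c (m (nat_lit 0x81d380)) e) e)) (c (c (c (m (nat_lit
  0x3fdbd7a)) e) e) e)) (c (c (c (c (m (nat_lit 0x1549050)) e) e) e) e)) (c (c (c (c (c (m (nat_lit
  0x2a51498)) e) e) e) e) e)) (c (c (c (c (c (c (m (nat_lit 0x1600b0)) e) e) e) e) e) e))) (c (c (c (c (c (c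
  (c (m (nat_lit 0x420db78)) (c (p (nat_lit 0x14cc8a4)) e)) (c (c (p (nat_lit 0x20529de)) e) e)) (c (c (c (m
  (nat_lit 0x39a6d4c)) e) e) e)) (c (c (c (c (p (nat_lit 0x4b1bc4e)) e) e) e) e)) (c (c (c (c (c (p (nat_lit
  0x2c108ca)) e) e) e) e) e)) (c (c (c (c (c (c (p (nat_lit 0x406312e)) e) e) e) e) e) e)) (c (c (c (c (c (c
  (c (m (nat_lit 0xf7664a)) e) e) e) e) e) e) e))))) (c (c (c (c (c (c (c (c (p (nat_lit 0x57b9ca0)) (c (m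
  (nat_lit 0x6395e32)) (c (p (nat_lit 0x4d44158)) e))) (c (c (m (nat_lit 0x59a4f80)) (c (m (nat_lit
  0x3bd8e8)) e)) (c (c (m (nat_lit 0x5427b4c)) e) e))) (c (c (c (p (nat_lit 0x35e01e2)) (c (m (nat_lit
  0x20a7b9c)) e)) (c (c (p (nat_lit 0xcbd0b4)) e) e)) (c (c (c (m (nat_lit 0x6ef7168)) e) e) e))) (c (c (c (c
  (p (nat_lit 0x3f518dc)) (c (m (nat_lit 0xd512918)) (c (p (nat_lit 0x622d724)) e))) (c (c (m (nat_lit
  0xb9626fe)) (c (p (nat_lit 0x15327b4)) e)) (c (c (m (nat_lit 0x1181c28)) e) e))) (c (c (c (p (nat_lit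
  0x25af7de)) (c (p (nat_lit 0x2dbba4)) e)) (c (c (p (nat_lit 0xcd0608)) e) e)) (c (c (c (m (nat_lit
  0x6ce214)) e) e) e))) (c (c (c (c (m (nat_lit 0x2d738b4)) (c (m (nat_lit 0x1863da4)) e)) (c (c (p (nat_lit
  0x1aff6d0)) e) e)) (c (c (c (m (nat_lit 0x6f3d8)) e) e) e)) e))) (c (c (c (c (c (m (nat_lit 0xc435cc0)) (c
  (p (nat_lit 0x60c1440)) (c (m (nat_lit 0x13fa3e8)) e))) (c (c (p (nat_lit 0x76e0870)) (c (m (nat_lit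
  0x14ff5d4)) e)) (c (c (p (nat_lit 0x24cb904)) e) e))) (c (c (c (m (nat_lit 0x4ebd276)) (c (m (nat_lit
  0x59f67c)) e)) (c (c (m (nat_lit 0x103e768)) e) e)) (c (c (c (p (nat_lit 0x3204e88)) e) e) e))) (c (c (c (c
  (m (nat_lit 0xb0aa68)) (c (p (nat_lit 0x237cc3c)) e)) (c (c (p (nat_lit 0x6d110)) e) e)) (c (c (c (m
  (nat_lit 0x79ff98)) e) e) e)) e)) (c (c (c (c (c (p (nat_lit 0x4792df4)) (c (p (nat_lit 0x11662ec)) e)) (c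
  (c (p (nat_lit 0x1a9d4ec)) e) e)) (c (c (c (p (nat_lit 0x3594870)) e) e) e)) e) e))) (c (c (c (c (c (c (p
  (nat_lit 0xea6b940)) (c (p (nat_lit 0x3bd024c)) (c (m (nat_lit 0x2d3d770)) e))) (c (c (m (nat_lit
  0x4cc5b0a)) (c (p (nat_lit 0x1a1fc30)) e)) (c (c (m (nat_lit 0xd88a0c)) e) e))) (c (c (c (m (nat_lit
  0x72a9ea2)) (c (p (nat_lit 0x64e858)) e)) (c (c (p (nat_lit 0x1111c38)) e) e)) (c (c (c (m (nat_lit
  0x9d07b8)) e) e) e))) (c (c (c (c (m (nat_lit 0x25a895c)) (c (m (nat_lit 0x7789ec)) e)) (c (c (m (nat_lit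
  0x93afd4)) e) e)) (c (c (c (p (nat_lit 0x140a9b4)) e) e) e)) e)) (c (c (c (c (c (p (nat_lit 0x36e4e4)) (c
  (m (nat_lit 0x887958)) e)) (c (c (m (nat_lit 0x861588)) e) e)) (c (c (c (m (nat_lit 0x61f710)) e) e) e)) e)
  e)) (c (c (c (c (c (c (p (nat_lit 0x3624960)) (c (m (nat_lit 0x299058)) e)) (c (c (p (nat_lit 0xe6b0c8)) e)
  e)) (c (c (c (m (nat_lit 0xbae544)) e) e) e)) e) e) e))) (c (c (c (c (c (c (c (m (nat_lit 0x6572d60)) (c (m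
  (nat_lit 0x6540534)) (c (m (nat_lit 0xf00a5c)) e))) (c (c (p (nat_lit 0x359d450)) (c (p (nat_lit
  0x1a25c48)) e)) (c (c (m (nat_lit 0x4f5cb4)) e) e))) (c (c (c (p (nat_lit 0x3a6deec)) (c (m (nat_lit
  0x1268bf8)) e)) (c (c (m (nat_lit 0x19f128)) e) e)) (c (c (c (m (nat_lit 0x22dbc98)) e) e) e))) (c (c (c (c
  (p (nat_lit 0x9e85930)) (c (m (nat_lit 0x8487ae)) e)) (c (c (m (nat_lit 0x180fc00)) e) e)) (c (c (c (m
  (nat_lit 0x40062b4)) e) e) e)) (c (c (c (c (p (nat_lit 0x1836a08)) e) e) e) e))) (c (c (c (c (c (p (nat_lit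
  0xeb4db1c)) (c (m (nat_lit 0x1889dae)) e)) (c (c (m (nat_lit 0x1cc0056)) e) e)) (c (c (c (m (nat_lit
  0x11e836c)) e) e) e)) (c (c (c (c (p (nat_lit 0x2b3650)) e) e) e) e)) (c (c (c (c (c (m (nat_lit
  0x2daae38)) e) e) e) e) e))) (c (c (c (c (c (c (m (nat_lit 0x9e250d8)) (c (p (nat_lit 0x968b44)) e)) (c (c
  (p (nat_lit 0x14f1b9a)) e) e)) (c (c (c (p (nat_lit 0x3ecff76)) e) e) e)) (c (c (c (c (m (nat_lit 0x4a100))
  e) e) e) e)) (c (c (c (c (c (m (nat_lit 0x77544)) e) e) e) e) e)) (c (c (c (c (c (c (m (nat_lit 0x74c9a0))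
  e) e) e) e) e) e))) (c (c (c (c (c (c (c (m (nat_lit 0x1c55ad8)) (c (p (nat_lit 0x20940ae)) e)) (c (c (p
  (nat_lit 0x589152)) e) e)) (c (c (c (p (nat_lit 0x9d8e9a)) e) e) e)) (c (c (c (c (m (nat_lit 0x124e0f6)) e)
  e) e) e)) (c (c (c (c (c (m (nat_lit 0xdcd9fa)) e) e) e) e) e)) (c (c (c (c (c (c (p (nat_lit 0x31a902e))
  e) e) e) e) e) e)) (c (c (c (c (c (c (c (p (nat_lit 0x378486)) e) e) e) e) e) e) e)))) (c (c (c (c (c (c (c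
  (c (p (nat_lit 0x7c1838)) (c (p (nat_lit 0x7437306)) (c (m (nat_lit 0x36925f8)) e))) (c (c (p (nat_lit
  0x8fa0bee)) (c (m (nat_lit 0x47ba34)) e)) (c (c (p (nat_lit 0x2229ef4)) e) e))) (c (c (c (p (nat_lit
  0x10f9d9a)) (c (p (nat_lit 0x1a436c0)) e)) (c (c (m (nat_lit 0x1b72c18)) e) e)) (c (c (c (p (nat_lit
  0x60127a4)) e) e) e))) (c (c (c (c (p (nat_lit 0xb21e9bc)) (c (p (nat_lit 0x6e203f2)) e)) (c (c (p (nat_lit
  0x82079e2)) e) e)) (c (c (c (p (nat_lit 0x192a27e)) e) e) e)) (c (c (c (c (m (nat_lit 0x1dd3b4)) e) e) e)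
  e))) (c (c (c (c (c (m (nat_lit 0xa799e92)) (c (m (nat_lit 0x6f6af2)) e)) (c (c (m (nat_lit 0x19a78b2)) e)
  e)) (c (c (c (m (nat_lit 0x4e381ba)) e) e) e)) (c (c (c (c (p (nat_lit 0xc775e0)) e) e) e) e)) (c (c (c (c
  (c (p (nat_lit 0xfc5d24)) e) e) e) e) e))) (c (c (c (c (c (c (m (nat_lit 0xd379646)) (c (m (nat_lit
  0x82bb04)) e)) (c (c (p (nat_lit 0x231ffd8)) e) e)) (c (c (c (p (nat_lit 0x6eff67c)) e) e) e)) (c (c (c (c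
  (p (nat_lit 0x14beaec)) e) e) e) e)) (c (c (c (c (c (m (nat_lit 0xc2871c)) e) e) e) e) e)) (c (c (c (c (c
  (c (m (nat_lit 0xd3557c)) e) e) e) e) e) e))) (c (c (c (c (c (c (c (p (nat_lit 0x20559b4)) (c (p (nat_lit
  0x2587bba)) e)) (c (c (m (nat_lit 0x1e317ca)) e) e)) (c (c (c (m (nat_lit 0x28de9b6)) e) e) e)) (c (c (c (c
  (m (nat_lit 0x5965c32)) e) e) e) e)) (c (c (c (c (c (p (nat_lit 0x1e36e9a)) e) e) e) e) e)) (c (c (c (c (c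
  (c (p (nat_lit 0x2ff1624)) e) e) e) e) e) e)) (c (c (c (c (c (c (c (m (nat_lit 0x41e82f4)) e) e) e) e) e)
  e) e))) (c (c (c (c (c (c (c (c (m (nat_lit 0x7c4cc70)) (c (m (nat_lit 0x5a5b4dc)) e)) (c (c (m (nat_lit
  0x3185ece)) e) e)) (c (c (c (m (nat_lit 0x45e0ad8)) e) e) e)) (c (c (c (c (m (nat_lit 0x6f36324)) e) e) e)
  e)) (c (c (c (c (c (p (nat_lit 0x961a8ce)) e) e) e) e) e)) (c (c (c (c (c (c (m (nat_lit 0x25037ac)) e) e)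
  e) e) e) e)) (c (c (c (c (c (c (c (p (nat_lit 0x2e0d68e)) e) e) e) e) e) e) e)) (c (c (c (c (c (c (c (c (p
  (nat_lit 0x58ae8e4)) e) e) e) e) e) e) e) e))))) (c (c (c (c (c (c (c (c (c (p (nat_lit 0x721ff74)) (c (m
  (nat_lit 0x9ee6ed8)) (c (p (nat_lit 0x40c6ef0)) e))) (c (c (m (nat_lit 0x7151c1c)) (c (p (nat_lit
  0x336e094)) e)) (c (c (m (nat_lit 0x70d430)) e) e))) (c (c (c (m (nat_lit 0x1e680f4)) (c (p (nat_lit
  0x1a58330)) e)) (c (c (p (nat_lit 0x3544a4)) e) e)) (c (c (c (m (nat_lit 0xad9070)) e) e) e))) (c (c (c (c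
  (p (nat_lit 0x1efa7a0)) (c (m (nat_lit 0x47d25ec)) (c (p (nat_lit 0x25359e4)) e))) (c (c (m (nat_lit
  0x1407264)) (c (p (nat_lit 0x7b68a0)) e)) (c (c (p (nat_lit 0x30b6298)) e) e))) (c (c (c (p (nat_lit
  0x47b1070)) (c (p (nat_lit 0x70afa0)) e)) (c (c (p (nat_lit 0x1e54d98)) e) e)) (c (c (c (p (nat_lit
  0x46341c)) e) e) e))) (c (c (c (c (m (nat_lit 0xd24c8c)) (c (p (nat_lit 0x20ebf60)) e)) (c (c (m (nat_lit
  0x1d820a8)) e) e)) (c (c (c (m (nat_lit 0x1d4f864)) e) e) e)) e))) (c (c (c (c (c (p (nat_lit 0x2d547a4))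
  (c (p (nat_lit 0x2610a8c)) (c (m (nat_lit 0x206886c)) e))) (c (c (p (nat_lit 0x3ae0c84)) (c (p (nat_lit
  0xa4a3b4)) e)) (c (c (m (nat_lit 0x129b5ec)) e) e))) (c (c (c (p (nat_lit 0x55de92c)) (c (m (nat_lit
  0x856590)) e)) (c (c (m (nat_lit 0xd64520)) e) e)) (c (c (c (m (nat_lit 0x240dc20)) e) e) e))) (c (c (c (c
  (m (nat_lit 0x21c666c)) (c (m (nat_lit 0x4de728)) e)) (c (c (m (nat_lit 0xf1b48)) e) e)) (c (c (c (m
  (nat_lit 0x199cd7c)) e) e) e)) e)) (c (c (c (c (c (m (nat_lit 0x12a6014)) (c (p (nat_lit 0x9a89c0)) e)) (c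
  (c (m (nat_lit 0x2d8f0e8)) e) e)) (c (c (c (p (nat_lit 0x125754c)) e) e) e)) e) e))) (c (c (c (c (c (c (m
  (nat_lit 0x664eb4)) (c (m (nat_lit 0xf76908)) (c (p (nat_lit 0x96e9a0)) e))) (c (c (m (nat_lit 0x1d9fc4c))
  (c (m (nat_lit 0x458ca0)) e)) (c (c (p (nat_lit 0xac88c4)) e) e))) (c (c (c (p (nat_lit 0x1bf3c6c)) (c (m
  (nat_lit 0x6cc0f0)) e)) (c (c (m (nat_lit 0x5ec1d0)) e) e)) (c (c (c (m (nat_lit 0x1fd778c)) e) e) e))) (c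
  (c (c (c (p (nat_lit 0x11b4a30)) (c (m (nat_lit 0x401a78)) e)) (c (c (m (nat_lit 0x2ab2764)) e) e)) (c (c
  (c (m (nat_lit 0x170a978)) e) e) e)) e)) (c (c (c (c (c (p (nat_lit 0x3852d98)) (c (m (nat_lit 0xcb8110))
  e)) (c (c (p (nat_lit 0x238cf14)) e) e)) (c (c (c (p (nat_lit 0x45f990)) e) e) e)) e) e)) (c (c (c (c (c (c
  (p (nat_lit 0x165c594)) (c (m (nat_lit 0x22e20e8)) e)) (c (c (p (nat_lit 0x1d8170c)) e) e)) (c (c (c (p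
  (nat_lit 0x153b4b4)) e) e) e)) e) e) e))) (c (c (c (c (c (c (c (m (nat_lit 0xa64641e)) (c (p (nat_lit
  0x47a3264)) (c (m (nat_lit 0x1bf4314)) e))) (c (c (p (nat_lit 0xaf15d70)) (c (m (nat_lit 0x2472e04)) e)) (c
  (c (p (nat_lit 0x7cedc8)) e) e))) (c (c (c (p (nat_lit 0x50ef70a)) (c (m (nat_lit 0xe7408)) e)) (c (c (m
  (nat_lit 0x1a8e57c)) e) e)) (c (c (c (p (nat_lit 0x126e6dc)) e) e) e))) (c (c (c (c (m (nat_lit 0xa15244a))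
  (c (p (nat_lit 0x1881b58)) e)) (c (c (m (nat_lit 0x166baf8)) e) e)) (c (c (c (m (nat_lit 0x17476e0)) e) e)
  e)) (c (c (c (c (m (nat_lit 0x9b0718)) e) e) e) e))) (c (c (c (c (c (p (nat_lit 0xa6d575e)) (c (m (nat_lit
  0x67af10)) e)) (c (c (m (nat_lit 0x123d248)) e) e)) (c (c (c (m (nat_lit 0x210e058)) e) e) e)) (c (c (c (c
  (m (nat_lit 0x2f3544)) e) e) e) e)) (c (c (c (c (c (m (nat_lit 0xd583b8)) e) e) e) e) e))) (c (c (c (c (c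
  (c (p (nat_lit 0x19c436a)) (c (m (nat_lit 0x121e0c0)) e)) (c (c (m (nat_lit 0x85f38c)) e) e)) (c (c (c (m
  (nat_lit 0x9b4c90)) e) e) e)) (c (c (c (c (m (nat_lit 0x13945d4)) e) e) e) e)) (c (c (c (c (c (m (nat_lit
  0x1a5af4c)) e) e) e) e) e)) (c (c (c (c (c (c (p (nat_lit 0xcf8268)) e) e) e) e) e) e))) (c (c (c (c (c (c
  (c (p (nat_lit 0x89a243c)) (c (p (nat_lit 0xbd09f0)) e)) (c (c (m (nat_lit 0xc6b49c)) e) e)) (c (c (c (p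
  (nat_lit 0xef1be2)) e) e) e)) (c (c (c (c (m (nat_lit 0x17cf82)) e) e) e) e)) (c (c (c (c (c (m (nat_lit
  0x5923146)) e) e) e) e) e)) (c (c (c (c (c (c (m (nat_lit 0xb35776)) e) e) e) e) e) e)) (c (c (c (c (c (c
  (c (m (nat_lit 0x21407e2)) e) e) e) e) e) e) e)))) (c (c (c (c (c (c (c (c (p (nat_lit 0x7f026f0)) (c (m
  (nat_lit 0x27d6a2e)) (c (p (nat_lit 0xec7c0)) e))) (c (c (p (nat_lit 0x61e336c)) (c (m (nat_lit 0x5e9da0))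
  e)) (c (c (p (nat_lit 0x148e18)) e) e))) (c (c (c (m (nat_lit 0x30bfbe6)) (c (p (nat_lit 0x1caa0)) e)) (c
  (c (m (nat_lit 0x71cbc8)) e) e)) (c (c (c (p (nat_lit 0x11e3860)) e) e) e))) (c (c (c (c (m (nat_lit
  0xee15dee)) (c (p (nat_lit 0x42b2fa4)) e)) (c (c (m (nat_lit 0x11f64c)) e) e)) (c (c (c (m (nat_lit
  0x54b5ec)) e) e) e)) (c (c (c (c (p (nat_lit 0x1993704)) e) e) e) e))) (c (c (c (c (c (p (nat_lit
  0x868d63a)) (c (p (nat_lit 0xc765d8)) e)) (c (c (m (nat_lit 0x33feda8)) e) e)) (c (c (c (p (nat_lit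
  0xa5ba78)) e) e) e)) (c (c (c (c (p (nat_lit 0x1864710)) e) e) e) e)) (c (c (c (c (c (m (nat_lit
  0x2f67ec4)) e) e) e) e) e))) (c (c (c (c (c (c (p (nat_lit 0x201c504)) (c (p (nat_lit 0x86799c)) e)) (c (c
  (p (nat_lit 0x1cd601c)) e) e)) (c (c (c (m (nat_lit 0x546450)) e) e) e)) (c (c (c (c (p (nat_lit
  0x18cbc4c)) e) e) e) e)) (c (c (c (c (c (p (nat_lit 0x457adc)) e) e) e) e) e)) (c (c (c (c (c (c (m
  (nat_lit 0x165870c)) e) e) e) e) e) e))) (c (c (c (c (c (c (c (m (nat_lit 0x194d23a)) (c (p (nat_lit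
  0x41ed340)) e)) (c (c (m (nat_lit 0x7c2048)) e) e)) (c (c (c (p (nat_lit 0xbd63fc)) e) e) e)) (c (c (c (c
  (p (nat_lit 0x3382956)) e) e) e) e)) (c (c (c (c (c (m (nat_lit 0xdec8fa)) e) e) e) e) e)) (c (c (c (c (c
  (c (m (nat_lit 0x4819f8)) e) e) e) e) e) e)) (c (c (c (c (c (c (c (p (nat_lit 0x91fdb2)) e) e) e) e) e) e)
  e))) (c (c (c (c (c (c (c (c (m (nat_lit 0x99ced78)) (c (p (nat_lit 0x286f86)) e)) (c (c (m (nat_lit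
  0x41c6358)) e) e)) (c (c (c (m (nat_lit 0x9e3a5a)) e) e) e)) (c (c (c (c (m (nat_lit 0x1cf68)) e) e) e) e))
  (c (c (c (c (c (m (nat_lit 0x2f03010)) e) e) e) e) e)) (c (c (c (c (c (c (m (nat_lit 0x1520e14)) e) e) e)
  e) e) e)) (c (c (c (c (c (c (c (m (nat_lit 0x4d6739c)) e) e) e) e) e) e) e)) (c (c (c (c (c (c (c (c (p
  (nat_lit 0x68953e0)) e) e) e) e) e) e) e) e)))) (c (c (c (c (c (c (c (c (c (m (nat_lit 0x6693cb4)) (c (p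
  (nat_lit 0x2359cf8)) (c (m (nat_lit 0x2d79fa4)) e))) (c (c (p (nat_lit 0x8b9fb3c)) (c (m (nat_lit
  0x2a841bc)) e)) (c (c (m (nat_lit 0x17b25dc)) e) e))) (c (c (c (p (nat_lit 0x272f1cc)) (c (m (nat_lit
  0x77a5c4)) e)) (c (c (p (nat_lit 0x144b3ac)) e) e)) (c (c (c (m (nat_lit 0x541008)) e) e) e))) (c (c (c (c
  (m (nat_lit 0x33b50f8)) (c (p (nat_lit 0x4e74928)) e)) (c (c (m (nat_lit 0x1580100)) e) e)) (c (c (c (p
  (nat_lit 0x28bde30)) e) e) e)) (c (c (c (c (p (nat_lit 0x731130)) e) e) e) e))) (c (c (c (c (c (m (nat_lit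
  0x494a618)) (c (m (nat_lit 0x140625c)) e)) (c (c (p (nat_lit 0x2896890)) e) e)) (c (c (c (p (nat_lit
  0x162c3c)) e) e) e)) (c (c (c (c (p (nat_lit 0x415af04)) e) e) e) e)) (c (c (c (c (c (p (nat_lit
  0x17460d8)) e) e) e) e) e))) (c (c (c (c (c (c (p (nat_lit 0x133dbbc)) (c (p (nat_lit 0x169f23c)) e)) (c (c
  (m (nat_lit 0x10b2f64)) e) e)) (c (c (c (m (nat_lit 0x127917c)) e) e) e)) (c (c (c (c (m (nat_lit
  0x248b38)) e) e) e) e)) (c (c (c (c (c (m (nat_lit 0x2bf3440)) e) e) e) e) e)) (c (c (c (c (c (c (m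
  (nat_lit 0x1c96590)) e) e) e) e) e) e))) (c (c (c (c (c (c (c (p (nat_lit 0x900be98)) (c (m (nat_lit
  0x39269e8)) e)) (c (c (m (nat_lit 0x2c003a0)) e) e)) (c (c (c (m (nat_lit 0x2b85f4c)) e) e) e)) (c (c (c (c
  (p (nat_lit 0x24d95f0)) e) e) e) e)) (c (c (c (c (c (m (nat_lit 0xf6237c)) e) e) e) e) e)) (c (c (c (c (c
  (c (p (nat_lit 0xf657e4)) e) e) e) e) e) e)) (c (c (c (c (c (c (c (m (nat_lit 0x359df30)) e) e) e) e) e) e)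
  e))) (c (c (c (c (c (c (c (c (p (nat_lit 0x2357916)) (c (m (nat_lit 0x21dc68)) e)) (c (c (m (nat_lit
  0xef481c)) e) e)) (c (c (c (m (nat_lit 0x6adf28)) e) e) e)) (c (c (c (c (p (nat_lit 0x292cfd4)) e) e) e)
  e)) (c (c (c (c (c (m (nat_lit 0x39c4434)) e) e) e) e) e)) (c (c (c (c (c (c (m (nat_lit 0xd88ca0)) e) e)
  e) e) e) e)) (c (c (c (c (c (c (c (p (nat_lit 0x194225a)) e) e) e) e) e) e) e)) (c (c (c (c (c (c (c (c (p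
  (nat_lit 0x1f3b6c0)) e) e) e) e) e) e) e) e))) (c (c (c (c (c (c (c (c (c (p (nat_lit 0x3f44424)) (c (p
  (nat_lit 0x18cc0)) e)) (c (c (m (nat_lit 0x1231854)) e) e)) (c (c (c (m (nat_lit 0x131a054)) e) e) e)) (c
  (c (c (c (m (nat_lit 0x29bb414)) e) e) e) e)) (c (c (c (c (c (m (nat_lit 0xaee370)) e) e) e) e) e)) (c (c
  (c (c (c (c (p (nat_lit 0x1e9ec34)) e) e) e) e) e) e)) (c (c (c (c (c (c (c (p (nat_lit 0x1ff113c)) e) e)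
  e) e) e) e) e)) (c (c (c (c (c (c (c (c (m (nat_lit 0xbc5c08)) e) e) e) e) e) e) e) e)) (c (c (c (c (c (c
  (c (c (c (m (nat_lit 0x1c6c680)) e) e) e) e) e) e) e) e) e)))))

noncomputable def gt_1_2_7 : Tr :=
  (c (c (c (c (c (c (c (c (c (p (nat_lit 0x606f24)) (c (m (nat_lit 0x115c7f4)) (c (p (nat_lit 0xad8770)) e)))
  (c (c (m (nat_lit 0x1e2ad38)) (c (p (nat_lit 0x18cab0)) e)) (c (c (p (nat_lit 0x71ffdc)) e) e))) (c (c (c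
  (p (nat_lit 0x6066cc)) (c (p (nat_lit 0xf6a4d0)) e)) (c (c (p (nat_lit 0xfc2d6c)) e) e)) (c (c (c (p
  (nat_lit 0x2a17d0)) e) e) e))) (c (c (c (c (p (nat_lit 0x136a244)) (c (p (nat_lit 0x437dd68)) (c (m
  (nat_lit 0x10170a8)) e))) (c (c (p (nat_lit 0x5d144b4)) (c (p (nat_lit 0x10651bc)) e)) (c (c (m (nat_lit
  0x21976c8)) e) e))) (c (c (c (p (nat_lit 0x119e290)) (c (m (nat_lit 0x2031018)) e)) (c (c (m (nat_lit
  0x2ac17e8)) e) e)) (c (c (c (m (nat_lit 0x1c07004)) e) e) e))) (c (c (c (c (p (nat_lit 0x1218bf4)) (c (m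
  (nat_lit 0x30f67e0)) (c (p (nat_lit 0x28bbd78)) e))) (c (c (m (nat_lit 0x2b61c4c)) (c (m (nat_lit
  0x50b65c)) e)) (c (c (p (nat_lit 0x2a89c40)) e) e))) (c (c (c (m (nat_lit 0x14fb0ec)) (c (m (nat_lit
  0x20c49c)) e)) (c (c (p (nat_lit 0x1306314)) e) e)) (c (c (c (p (nat_lit 0x19415ac)) e) e) e))) e))) (c (c
  (c (c (c (m (nat_lit 0x1694ee0)) (c (p (nat_lit 0x594927c)) (c (m (nat_lit 0x3956a0c)) e))) (c (c (p
  (nat_lit 0x6b46a50)) (c (m (nat_lit 0xbf8f08)) e)) (c (c (m (nat_lit 0x28a3db4)) e) e))) (c (c (c (p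
  (nat_lit 0x1f31358)) (c (p (nat_lit 0x2cf6628)) e)) (c (c (m (nat_lit 0x34ab08)) e) e)) (c (c (c (p
  (nat_lit 0x1dececc)) e) e) e))) (c (c (c (c (m (nat_lit 0x16537e0)) (c (m (nat_lit 0x2be8124)) (c (p
  (nat_lit 0x11a5e20)) e))) (c (c (m (nat_lit 0xcd39b0)) (c (p (nat_lit 0x659fac)) e)) (c (c (m (nat_lit
  0x964458)) e) e))) (c (c (c (m (nat_lit 0x1d6fdc)) (c (m (nat_lit 0x3e6c64)) e)) (c (c (m (nat_lit
  0x822eac)) e) e)) (c (c (c (m (nat_lit 0x324e34)) e) e) e))) e)) (c (c (c (c (c (p (nat_lit 0x1a09694)) (c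
  (m (nat_lit 0x165cb4)) (c (p (nat_lit 0xdc2a98)) e))) (c (c (m (nat_lit 0x127b4bc)) (c (p (nat_lit
  0x2017770)) e)) (c (c (m (nat_lit 0x924cd8)) e) e))) (c (c (c (m (nat_lit 0x1c695fc)) (c (m (nat_lit
  0x739380)) e)) (c (c (p (nat_lit 0xc82a70)) e) e)) (c (c (c (p (nat_lit 0x57ca8)) e) e) e))) e) e))) (c (c
  (c (c (c (c (m (nat_lit 0x1486b0)) (c (p (nat_lit 0x32a37b0)) (c (m (nat_lit 0x392f598)) e))) (c (c (p
  (nat_lit 0x1c886dc)) (c (m (nat_lit 0x96900)) e)) (c (c (m (nat_lit 0x4bfb844)) e) e))) (c (c (c (m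
  (nat_lit 0x2cc4df8)) (c (p (nat_lit 0x2601d8)) e)) (c (c (m (nat_lit 0x976aa0)) e) e)) (c (c (c (p (nat_lit
  0x288552c)) e) e) e))) (c (c (c (c (p (nat_lit 0x179b884)) (c (m (nat_lit 0x1c2fc3c)) (c (p (nat_lit
  0xb56f80)) e))) (c (c (m (nat_lit 0x2164680)) (c (m (nat_lit 0xd0bb34)) e)) (c (c (p (nat_lit 0x14e7f34))
  e) e))) (c (c (c (p (nat_lit 0xc0a3ec)) (c (p (nat_lit 0x108bbec)) e)) (c (c (m (nat_lit 0x73767c)) e) e))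
  (c (c (c (m (nat_lit 0x1a0994)) e) e) e))) e)) (c (c (c (c (c (p (nat_lit 0x319830)) (c (p (nat_lit
  0x53d0c0)) (c (m (nat_lit 0x547668)) e))) (c (c (p (nat_lit 0x7149b4)) (c (m (nat_lit 0x3495fc)) e)) (c (c
  (p (nat_lit 0xa87230)) e) e))) (c (c (c (p (nat_lit 0x16095c)) (c (p (nat_lit 0x13ee940)) e)) (c (c (p
  (nat_lit 0x192384)) e) e)) (c (c (c (p (nat_lit 0x937068)) e) e) e))) e) e)) (c (c (c (c (c (c (m (nat_lit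
  0x411c6c)) (c (p (nat_lit 0x1ba764c)) (c (m (nat_lit 0x2790c0c)) e))) (c (c (p (nat_lit 0x43e85bc)) (c (p
  (nat_lit 0x1b3cc90)) e)) (c (c (m (nat_lit 0x21dd400)) e) e))) (c (c (c (m (nat_lit 0x149bf8)) (c (m
  (nat_lit 0x94de14)) e)) (c (c (p (nat_lit 0x7f5a8c)) e) e)) (c (c (c (m (nat_lit 0x28e12c)) e) e) e))) e)
  e) e))) (c (c (c (c (c (c (c (p (nat_lit 0x1268af0)) (c (p (nat_lit 0x9421a4)) (c (p (nat_lit 0x944d90))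
  e))) (c (c (m (nat_lit 0x32a852)) (c (m (nat_lit 0x22bdd4)) e)) (c (c (p (nat_lit 0x3453ab0)) e) e))) (c (c
  (c (p (nat_lit 0x3869e8)) (c (p (nat_lit 0xb6e14c)) e)) (c (c (p (nat_lit 0x11a6d20)) e) e)) (c (c (c (p
  (nat_lit 0x195ecb8)) e) e) e))) (c (c (c (c (m (nat_lit 0x790f44)) (c (m (nat_lit 0x3dc8918)) (c (m
  (nat_lit 0xbd63a8)) e))) (c (c (p (nat_lit 0x354d56)) (c (m (nat_lit 0x43278)) e)) (c (c (p (nat_lit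
  0x999654)) e) e))) (c (c (c (m (nat_lit 0x1ac808c)) (c (p (nat_lit 0x2335b9c)) e)) (c (c (p (nat_lit
  0x61c2e4)) e) e)) (c (c (c (p (nat_lit 0x118bbb8)) e) e) e))) (c (c (c (c (m (nat_lit 0x277590)) (c (p
  (nat_lit 0x1714a64)) e)) (c (c (p (nat_lit 0x696b34)) e) e)) (c (c (c (p (nat_lit 0x45ac2c)) e) e) e)) e)))
  (c (c (c (c (c (p (nat_lit 0xb8a496)) (c (p (nat_lit 0x6ec75a)) (c (p (nat_lit 0x4bf960)) e))) (c (c (m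
  (nat_lit 0x2360574)) (c (m (nat_lit 0xb6a3fc)) e)) (c (c (m (nat_lit 0x159bdc)) e) e))) (c (c (c (m
  (nat_lit 0x3eb3fc8)) (c (m (nat_lit 0xdde59c)) e)) (c (c (p (nat_lit 0x862c20)) e) e)) (c (c (c (m (nat_lit
  0x29b110)) e) e) e))) (c (c (c (c (p (nat_lit 0xef2cec)) (c (m (nat_lit 0x793f8)) e)) (c (c (p (nat_lit
  0xd5f0f0)) e) e)) (c (c (c (p (nat_lit 0xfc6ffc)) e) e) e)) e)) (c (c (c (c (c (m (nat_lit 0xa325a0)) (c (p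
  (nat_lit 0x1e978fc)) e)) (c (c (p (nat_lit 0xe744ac)) e) e)) (c (c (c (p (nat_lit 0x127d184)) e) e) e)) e)
  e))) (c (c (c (c (c (c (m (nat_lit 0x5a4956)) (c (p (nat_lit 0x1d4bda8)) (c (m (nat_lit 0x35a33b4)) e))) (c
  (c (p (nat_lit 0x23eadc6)) (c (p (nat_lit 0x2301474)) e)) (c (c (m (nat_lit 0x18fb61c)) e) e))) (c (c (c (m
  (nat_lit 0x2cbba7a)) (c (m (nat_lit 0x385638)) e)) (c (c (p (nat_lit 0xff8c1c)) e) e)) (c (c (c (p (nat_lit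
  0x178a28)) e) e) e))) (c (c (c (c (m (nat_lit 0x2d32538)) (c (p (nat_lit 0x64f968)) e)) (c (c (p (nat_lit
  0x12a1a60)) e) e)) (c (c (c (m (nat_lit 0xa173b4)) e) e) e)) e)) (c (c (c (c (c (m (nat_lit 0x2eb351c)) (c
  (p (nat_lit 0x801948)) e)) (c (c (m (nat_lit 0x7e5d00)) e) e)) (c (c (c (p (nat_lit 0x1a22c84)) e) e) e))
  e) e)) (c (c (c (c (c (c (m (nat_lit 0x1199154)) (c (m (nat_lit 0x860a18)) e)) (c (c (m (nat_lit 0xe39dfc))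
  e) e)) (c (c (c (p (nat_lit 0x44c8e0)) e) e) e)) e) e) e))) (c (c (c (c (c (c (c (p (nat_lit 0x35326bc)) (c
  (m (nat_lit 0x150e0c4)) (c (m (nat_lit 0x2d1da0)) e))) (c (c (m (nat_lit 0x6626d66)) (c (p (nat_lit
  0x1073d0)) e)) (c (c (m (nat_lit 0x88d1b4)) e) e))) (c (c (c (p (nat_lit 0x4f05822)) (c (m (nat_lit
  0x29c1090)) e)) (c (c (m (nat_lit 0x133a94c)) e) e)) (c (c (c (m (nat_lit 0x24e9f58)) e) e) e))) (c (c (c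
  (c (m (nat_lit 0x5e7305e)) (c (p (nat_lit 0x176d378)) e)) (c (c (m (nat_lit 0x674e92)) e) e)) (c (c (c (p
  (nat_lit 0xa6ef48)) e) e) e)) (c (c (c (c (m (nat_lit 0xa05bd0)) e) e) e) e))) (c (c (c (c (c (m (nat_lit
  0x4d02f14)) (c (m (nat_lit 0x25e9f6)) e)) (c (c (p (nat_lit 0x168e52c)) e) e)) (c (c (c (m (nat_lit
  0x1975a40)) e) e) e)) (c (c (c (c (p (nat_lit 0x92556c)) e) e) e) e)) (c (c (c (c (c (m (nat_lit 0xf63438))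
  e) e) e) e) e))) (c (c (c (c (c (c (m (nat_lit 0x1485336)) (c (p (nat_lit 0x1216398)) e)) (c (c (m (nat_lit
  0xcb52c6)) e) e)) (c (c (c (p (nat_lit 0x67094a)) e) e) e)) (c (c (c (c (p (nat_lit 0x2663850)) e) e) e)
  e)) (c (c (c (c (c (p (nat_lit 0x2c4e3d0)) e) e) e) e) e)) (c (c (c (c (c (c (m (nat_lit 0x4f08cc)) e) e)
  e) e) e) e))) (c (c (c (c (c (c (c (m (nat_lit 0x5c8b450)) (c (p (nat_lit 0xce97a8)) e)) (c (c (p (nat_lit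
  0x3903030)) e) e)) (c (c (c (m (nat_lit 0xd44c5a)) e) e) e)) (c (c (c (c (p (nat_lit 0x3b2ac0a)) e) e) e)
  e)) (c (c (c (c (c (p (nat_lit 0xc0c3d2)) e) e) e) e) e)) (c (c (c (c (c (c (p (nat_lit 0x1c5e4c)) e) e) e)
  e) e) e)) (c (c (c (c (c (c (c (p (nat_lit 0x2ac41ac)) e) e) e) e) e) e) e))))) (c (c (c (c (c (c (c (c (p
  (nat_lit 0x2916f6)) (c (m (nat_lit 0x200f6ca)) (c (p (nat_lit 0x4a4bb8)) e))) (c (c (m (nat_lit 0x831df5c))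
  (c (m (nat_lit 0x1dea88)) e)) (c (c (p (nat_lit 0xf894a8)) e) e))) (c (c (c (m (nat_lit 0x5898f30)) (c (m
  (nat_lit 0x1290f24)) e)) (c (c (p (nat_lit 0x9d21d4)) e) e)) (c (c (c (m (nat_lit 0xabcb1c)) e) e) e))) (c
  (c (c (c (m (nat_lit 0xcfde5ac)) (c (p (nat_lit 0x3950586)) (c (m (nat_lit 0x7ce6c0)) e))) (c (c (m
  (nat_lit 0x13a8d40c)) (c (p (nat_lit 0x259db74)) e)) (c (c (m (nat_lit 0x14ba0e8)) e) e))) (c (c (c (m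
  (nat_lit 0x4164084)) (c (m (nat_lit 0x248ba4)) e)) (c (c (p (nat_lit 0x20860f8)) e) e)) (c (c (c (p
  (nat_lit 0x54b070)) e) e) e))) (c (c (c (c (p (nat_lit 0x6c5c8e0)) (c (m (nat_lit 0x3f94f2c)) e)) (c (c (p
  (nat_lit 0x5d72480)) e) e)) (c (c (c (m (nat_lit 0xec2128)) e) e) e)) e))) (c (c (c (c (c (m (nat_lit
  0x872e72e)) (c (p (nat_lit 0x64216c8)) (c (p (nat_lit 0x10633f8)) e))) (c (c (p (nat_lit 0x963b73c)) (c (p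
  (nat_lit 0xbda3d4)) e)) (c (c (p (nat_lit 0xc34f14)) e) e))) (c (c (c (p (nat_lit 0xbe5b0e2)) (c (m
  (nat_lit 0x934e00)) e)) (c (c (m (nat_lit 0x28bddb8)) e) e)) (c (c (c (m (nat_lit 0x25ff65c)) e) e) e))) (c
  (c (c (c (p (nat_lit 0x3368c7c)) (c (m (nat_lit 0x1c46238)) e)) (c (c (p (nat_lit 0x1c921c8)) e) e)) (c (c
  (c (m (nat_lit 0x161c448)) e) e) e)) e)) (c (c (c (c (c (p (nat_lit 0x458256c)) (c (m (nat_lit 0x1c8c738))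
  e)) (c (c (p (nat_lit 0x24f1560)) e) e)) (c (c (c (m (nat_lit 0x429d5c)) e) e) e)) e) e))) (c (c (c (c (c
  (c (p (nat_lit 0x2da99bc)) (c (m (nat_lit 0x14b19dc)) (c (p (nat_lit 0xd9ee04)) e))) (c (c (m (nat_lit
  0xad9436c)) (c (m (nat_lit 0xa56324)) e)) (c (c (p (nat_lit 0x89778c)) e) e))) (c (c (c (m (nat_lit
  0x2941764)) (c (p (nat_lit 0x1f8e154)) e)) (c (c (p (nat_lit 0x1a44bb4)) e) e)) (c (c (c (m (nat_lit
  0x1325dc)) e) e) e))) (c (c (c (c (m (nat_lit 0x452c508)) (c (p (nat_lit 0x1e7c7ac)) e)) (c (c (m (nat_lit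
  0x2b9c6e0)) e) e)) (c (c (c (p (nat_lit 0x1fe21fc)) e) e) e)) e)) (c (c (c (c (c (p (nat_lit 0x1366ed8)) (c
  (m (nat_lit 0x21c258)) e)) (c (c (p (nat_lit 0x4db68c)) e) e)) (c (c (c (m (nat_lit 0xb8f5a8)) e) e) e)) e)
  e)) (c (c (c (c (c (c (m (nat_lit 0x2a3b064)) (c (p (nat_lit 0xe86e24)) e)) (c (c (p (nat_lit 0x855e1c)) e)
  e)) (c (c (c (p (nat_lit 0x368490)) e) e) e)) e) e) e))) (c (c (c (c (c (c (c (m (nat_lit 0x1a7f9ca8)) (c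
  (m (nat_lit 0x7f98282)) (c (p (nat_lit 0x1cc27d4)) e))) (c (c (p (nat_lit 0xce4c22e)) (c (m (nat_lit
  0x112f200)) e)) (c (c (p (nat_lit 0x19921a4)) e) e))) (c (c (c (p (nat_lit 0x1199ac6)) (c (p (nat_lit
  0x929880)) e)) (c (c (m (nat_lit 0x260358)) e) e)) (c (c (c (m (nat_lit 0x17c9298)) e) e) e))) (c (c (c (c
  (p (nat_lit 0x8e1055c)) (c (p (nat_lit 0x99796e)) e)) (c (c (p (nat_lit 0x2690bb6)) e) e)) (c (c (c (m
  (nat_lit 0x1763cbe)) e) e) e)) (c (c (c (c (m (nat_lit 0x186eb14)) e) e) e) e))) (c (c (c (c (c (m (nat_lit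
  0xe7fbfa)) (c (p (nat_lit 0xccfff0)) e)) (c (c (m (nat_lit 0x5ab2e66)) e) e)) (c (c (c (m (nat_lit
  0x12bb800)) e) e) e)) (c (c (c (c (m (nat_lit 0xa4dae0)) e) e) e) e)) (c (c (c (c (c (p (nat_lit 0x61cbcc))
  e) e) e) e) e))) (c (c (c (c (c (c (m (nat_lit 0x3f2aea)) (c (p (nat_lit 0x13b564)) e)) (c (c (p (nat_lit
  0x353d38a)) e) e)) (c (c (c (p (nat_lit 0x4115fa)) e) e) e)) (c (c (c (c (m (nat_lit 0x1e4d7c)) e) e) e)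
  e)) (c (c (c (c (c (m (nat_lit 0x336d050)) e) e) e) e) e)) (c (c (c (c (c (c (p (nat_lit 0x1ce909c)) e) e)
  e) e) e) e))) (c (c (c (c (c (c (c (p (nat_lit 0x98b9158)) (c (p (nat_lit 0x20ddde2)) e)) (c (c (m (nat_lit
  0x1161a98)) e) e)) (c (c (c (p (nat_lit 0x9f963c)) e) e) e)) (c (c (c (c (m (nat_lit 0x1f1b8f0)) e) e) e)
  e)) (c (c (c (c (c (m (nat_lit 0x142694a)) e) e) e) e) e)) (c (c (c (c (c (c (m (nat_lit 0x10621ce)) e) e)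
  e) e) e) e)) (c (c (c (c (c (c (c (m (nat_lit 0x37ae79a)) e) e) e) e) e) e) e)))) (c (c (c (c (c (c (c (c
  (p (nat_lit 0x6f89d18)) (c (m (nat_lit 0x54879fc)) (c (p (nat_lit 0xc37914)) e))) (c (c (p (nat_lit
  0xb1ecdea)) (c (m (nat_lit 0x5550a8)) e)) (c (c (p (nat_lit 0x1000f38)) e) e))) (c (c (c (p (nat_lit
  0x4fd0eaa)) (c (m (nat_lit 0x5ad278)) e)) (c (c (m (nat_lit 0xeaedb4)) e) e)) (c (c (c (p (nat_lit
  0x54c2d0)) e) e) e))) (c (c (c (c (p (nat_lit 0x2433834)) (c (p (nat_lit 0x7182d8)) e)) (c (c (p (nat_lit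
  0xa63e372)) e) e)) (c (c (c (p (nat_lit 0x5bb0456)) e) e) e)) (c (c (c (c (m (nat_lit 0xd47f84)) e) e) e)
  e))) (c (c (c (c (c (p (nat_lit 0x94f2654)) (c (m (nat_lit 0xd4043c)) e)) (c (c (m (nat_lit 0x884bfda)) e)
  e)) (c (c (c (m (nat_lit 0x591295e)) e) e) e)) (c (c (c (c (m (nat_lit 0x7a26d4)) e) e) e) e)) (c (c (c (c
  (c (m (nat_lit 0xe3481c)) e) e) e) e) e))) (c (c (c (c (c (c (m (nat_lit 0x4f4310c)) (c (p (nat_lit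
  0xe220fc)) e)) (c (c (p (nat_lit 0x4e12c2a)) e) e)) (c (c (c (p (nat_lit 0x1ccd8b6)) e) e) e)) (c (c (c (c
  (p (nat_lit 0x8d930)) e) e) e) e)) (c (c (c (c (c (m (nat_lit 0xadce20)) e) e) e) e) e)) (c (c (c (c (c (c
  (p (nat_lit 0x194a66c)) e) e) e) e) e) e))) (c (c (c (c (c (c (c (p (nat_lit 0x11c987f4)) (c (p (nat_lit
  0x1623ac2)) e)) (c (c (m (nat_lit 0x8f03472)) e) e)) (c (c (c (m (nat_lit 0xc1437c)) e) e) e)) (c (c (c (c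
  (m (nat_lit 0x1f50c24)) e) e) e) e)) (c (c (c (c (c (p (nat_lit 0x9b863e)) e) e) e) e) e)) (c (c (c (c (c
  (c (m (nat_lit 0x1ae19d6)) e) e) e) e) e) e)) (c (c (c (c (c (c (c (p (nat_lit 0x5d92e2)) e) e) e) e) e) e)
  e))) (c (c (c (c (c (c (c (c (m (nat_lit 0xb7effa)) (c (p (nat_lit 0x314ca3c)) e)) (c (c (m (nat_lit
  0x58437c6)) e) e)) (c (c (c (m (nat_lit 0x1720c74)) e) e) e)) (c (c (c (c (p (nat_lit 0x18ffce4)) e) e) e)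
  e)) (c (c (c (c (c (p (nat_lit 0x72c690)) e) e) e) e) e)) (c (c (c (c (c (c (p (nat_lit 0x32c705a)) e) e)
  e) e) e) e)) (c (c (c (c (c (c (c (m (nat_lit 0x91d8e0)) e) e) e) e) e) e) e)) (c (c (c (c (c (c (c (c (m
  (nat_lit 0x58a004c)) e) e) e) e) e) e) e) e))))) (c (c (c (c (c (c (c (c (c (m (nat_lit 0x47d03cc)) (c (p
  (nat_lit 0x435f210)) (c (m (nat_lit 0x7f2528)) e))) (c (c (p (nat_lit 0x677784)) (c (m (nat_lit 0x2a80f64))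
  e)) (c (c (p (nat_lit 0x2a8925c)) e) e))) (c (c (c (p (nat_lit 0x37f1d84)) (c (m (nat_lit 0xcbb3e0)) e)) (c
  (c (m (nat_lit 0xe4fcd8)) e) e)) (c (c (c (m (nat_lit 0x353b914)) e) e) e))) (c (c (c (c (p (nat_lit
  0x6e65c2c)) (c (p (nat_lit 0x2c4498)) (c (m (nat_lit 0x98c154)) e))) (c (c (m (nat_lit 0x1132584)) (c (p
  (nat_lit 0x13c63bc)) e)) (c (c (m (nat_lit 0x992af0)) e) e))) (c (c (c (p (nat_lit 0x5d12fc)) (c (p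
  (nat_lit 0x36dc410)) e)) (c (c (p (nat_lit 0xe4c9fc)) e) e)) (c (c (c (p (nat_lit 0x166b750)) e) e) e))) (c
  (c (c (c (m (nat_lit 0x3d79280)) (c (m (nat_lit 0x684bc4)) e)) (c (c (m (nat_lit 0x1a2fc50)) e) e)) (c (c
  (c (m (nat_lit 0x1ecdbc0)) e) e) e)) e))) (c (c (c (c (c (m (nat_lit 0x196cc74)) (c (m (nat_lit 0x54d047c))
  (c (p (nat_lit 0x1b0be98)) e))) (c (c (p (nat_lit 0x6c1f1b8)) (c (m (nat_lit 0x2a1c410)) e)) (c (c (p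
  (nat_lit 0x2a63cc)) e) e))) (c (c (c (p (nat_lit 0x19b615c)) (c (m (nat_lit 0x8d0618)) e)) (c (c (m
  (nat_lit 0x10d4dd4)) e) e)) (c (c (c (m (nat_lit 0x1019370)) e) e) e))) (c (c (c (c (m (nat_lit 0x1e2d360))
  (c (p (nat_lit 0x120ee20)) e)) (c (c (m (nat_lit 0x412974)) e) e)) (c (c (c (p (nat_lit 0xbf1e34)) e) e)
  e)) e)) (c (c (c (c (c (m (nat_lit 0x4ad0cf0)) (c (p (nat_lit 0x1cf3740)) e)) (c (c (m (nat_lit 0x2d5d984))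
  e) e)) (c (c (c (m (nat_lit 0x2365c8)) e) e) e)) e) e))) (c (c (c (c (c (c (p (nat_lit 0x1503e4c)) (c (m
  (nat_lit 0x10c0050)) (c (p (nat_lit 0x17eece4)) e))) (c (c (p (nat_lit 0xfc2db4)) (c (m (nat_lit 0x1721b8))
  e)) (c (c (p (nat_lit 0x1670c70)) e) e))) (c (c (c (p (nat_lit 0x5bad00)) (c (m (nat_lit 0x10e2dc0)) e)) (c
  (c (m (nat_lit 0x5a39d8)) e) e)) (c (c (c (m (nat_lit 0x553b00)) e) e) e))) (c (c (c (c (p (nat_lit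
  0x518e404)) (c (p (nat_lit 0x16caa6c)) e)) (c (c (m (nat_lit 0x6e4b1c)) e) e)) (c (c (c (m (nat_lit
  0x4418a0)) e) e) e)) e)) (c (c (c (c (c (p (nat_lit 0x3c68db4)) (c (m (nat_lit 0xfad520)) e)) (c (c (m
  (nat_lit 0xe578e0)) e) e)) (c (c (c (m (nat_lit 0xf36fc)) e) e) e)) e) e)) (c (c (c (c (c (c (m (nat_lit
  0x6171d8)) (c (m (nat_lit 0x2502c)) e)) (c (c (p (nat_lit 0x12fc024)) e) e)) (c (c (c (m (nat_lit
  0x119ce8c)) e) e) e)) e) e) e))) (c (c (c (c (c (c (c (p (nat_lit 0xd2ab240)) (c (m (nat_lit 0x1512b5e)) (c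
  (m (nat_lit 0x12f0fb4)) e))) (c (c (m (nat_lit 0x70abb84)) (c (p (nat_lit 0x3bf6a0)) e)) (c (c (m (nat_lit
  0xbf81e8)) e) e))) (c (c (c (m (nat_lit 0xe6588a)) (c (m (nat_lit 0x2e2a50)) e)) (c (c (m (nat_lit
  0x817374)) e) e)) (c (c (c (p (nat_lit 0xf8bf50)) e) e) e))) (c (c (c (c (m (nat_lit 0x387b28)) (c (p
  (nat_lit 0x313ea74)) e)) (c (c (m (nat_lit 0x27e3a0)) e) e)) (c (c (c (m (nat_lit 0xddd438)) e) e) e)) (c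
  (c (c (c (m (nat_lit 0x4b9540)) e) e) e) e))) (c (c (c (c (c (p (nat_lit 0x93df62)) (c (m (nat_lit
  0x86e2e4)) e)) (c (c (m (nat_lit 0x64fe84)) e) e)) (c (c (c (m (nat_lit 0x3136f8)) e) e) e)) (c (c (c (c (m
  (nat_lit 0x4f758)) e) e) e) e)) (c (c (c (c (c (m (nat_lit 0x1f1df48)) e) e) e) e) e))) (c (c (c (c (c (c
  (m (nat_lit 0x6843e4)) (c (m (nat_lit 0xbe44)) e)) (c (c (p (nat_lit 0x2604a5c)) e) e)) (c (c (c (p
  (nat_lit 0xd13724)) e) e) e)) (c (c (c (c (m (nat_lit 0x784398)) e) e) e) e)) (c (c (c (c (c (m (nat_lit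
  0x3ebd70)) e) e) e) e) e)) (c (c (c (c (c (c (m (nat_lit 0x6e18d0)) e) e) e) e) e) e))) (c (c (c (c (c (c
  (c (m (nat_lit 0x1bbfaae)) (c (m (nat_lit 0xedc70e)) e)) (c (c (p (nat_lit 0x3619680)) e) e)) (c (c (c (p
  (nat_lit 0x5d565e)) e) e) e)) (c (c (c (c (m (nat_lit 0x2df54b4)) e) e) e) e)) (c (c (c (c (c (p (nat_lit
  0x41ad42e)) e) e) e) e) e)) (c (c (c (c (c (c (p (nat_lit 0x1fa52d8)) e) e) e) e) e) e)) (c (c (c (c (c (c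
  (c (m (nat_lit 0x16fffc2)) e) e) e) e) e) e) e)))) (c (c (c (c (c (c (c (c (p (nat_lit 0x73ab7e8)) (c (p
  (nat_lit 0xbbb08b2)) (c (m (nat_lit 0xe8677c)) e))) (c (c (p (nat_lit 0x5a8131e)) (c (m (nat_lit 0x552c))
  e)) (c (c (m (nat_lit 0x18a6368)) e) e))) (c (c (c (p (nat_lit 0x396e0ca)) (c (m (nat_lit 0x179f4b4)) e))
  (c (c (p (nat_lit 0x15dfefc)) e) e)) (c (c (c (p (nat_lit 0x16b420c)) e) e) e))) (c (c (c (c (p (nat_lit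
  0x6c71268)) (c (m (nat_lit 0x2d4dd24)) e)) (c (c (p (nat_lit 0x21685e0)) e) e)) (c (c (c (m (nat_lit
  0x622038)) e) e) e)) (c (c (c (c (m (nat_lit 0x7d9de4)) e) e) e) e))) (c (c (c (c (c (p (nat_lit
  0x28446f0)) (c (m (nat_lit 0xdbfa98)) e)) (c (c (p (nat_lit 0x193968c)) e) e)) (c (c (c (p (nat_lit
  0xdca478)) e) e) e)) (c (c (c (c (m (nat_lit 0x1454b98)) e) e) e) e)) (c (c (c (c (c (m (nat_lit
  0x2c71d04)) e) e) e) e) e))) (c (c (c (c (c (c (p (nat_lit 0x390ca98)) (c (m (nat_lit 0x1434dd4)) e)) (c (c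
  (p (nat_lit 0x88854)) e) e)) (c (c (c (m (nat_lit 0x92a078)) e) e) e)) (c (c (c (c (m (nat_lit 0xe4165c))
  e) e) e) e)) (c (c (c (c (c (m (nat_lit 0xa3278)) e) e) e) e) e)) (c (c (c (c (c (c (p (nat_lit 0x210f720))
  e) e) e) e) e) e))) (c (c (c (c (c (c (c (p (nat_lit 0xf737c1c)) (c (p (nat_lit 0x254af18)) e)) (c (c (m
  (nat_lit 0x28171c8)) e) e)) (c (c (c (p (nat_lit 0x598248)) e) e) e)) (c (c (c (c (m (nat_lit 0x1b7b084))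
  e) e) e) e)) (c (c (c (c (c (m (nat_lit 0x20c082)) e) e) e) e) e)) (c (c (c (c (c (c (m (nat_lit
  0x28744c8)) e) e) e) e) e) e)) (c (c (c (c (c (c (c (m (nat_lit 0x3d79052)) e) e) e) e) e) e) e))) (c (c (c
  (c (c (c (c (c (m (nat_lit 0xe8d0f64)) (c (m (nat_lit 0x4ff3422)) e)) (c (c (m (nat_lit 0x4776c2a)) e) e))
  (c (c (c (m (nat_lit 0x1c8eb3e)) e) e) e)) (c (c (c (c (m (nat_lit 0x4d1eae4)) e) e) e) e)) (c (c (c (c (c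
  (p (nat_lit 0x57db31e)) e) e) e) e) e)) (c (c (c (c (c (c (m (nat_lit 0x1afdf0)) e) e) e) e) e) e)) (c (c
  (c (c (c (c (c (m (nat_lit 0xbc3f8c8)) e) e) e) e) e) e) e)) (c (c (c (c (c (c (c (c (p (nat_lit
  0x5461eba)) e) e) e) e) e) e) e) e)))) (c (c (c (c (c (c (c (c (c (p (nat_lit 0x16c31ac)) (c (m (nat_lit
  0x61a0e20)) (c (p (nat_lit 0x1c6d190)) e))) (c (c (p (nat_lit 0x6f5310)) (c (p (nat_lit 0xfc4620)) e)) (c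
  (c (m (nat_lit 0x1748244)) e) e))) (c (c (c (p (nat_lit 0x8c1ce4)) (c (m (nat_lit 0x1cdf34)) e)) (c (c (p
  (nat_lit 0x8316f0)) e) e)) (c (c (c (m (nat_lit 0x327930)) e) e) e))) (c (c (c (c (m (nat_lit 0x3396a14))
  (c (m (nat_lit 0x1a7a3c8)) e)) (c (c (p (nat_lit 0xee0134)) e) e)) (c (c (c (p (nat_lit 0x1915158)) e) e)
  e)) (c (c (c (c (m (nat_lit 0x23ab28)) e) e) e) e))) (c (c (c (c (c (m (nat_lit 0x4c97700)) (c (p (nat_lit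
  0x120a530)) e)) (c (c (p (nat_lit 0x17f6dc)) e) e)) (c (c (c (m (nat_lit 0x164568)) e) e) e)) (c (c (c (c
  (p (nat_lit 0x124bce4)) e) e) e) e)) (c (c (c (c (c (p (nat_lit 0x5689f80)) e) e) e) e) e))) (c (c (c (c (c
  (c (p (nat_lit 0x2443860)) (c (p (nat_lit 0x326f88c)) e)) (c (c (m (nat_lit 0xeca00c)) e) e)) (c (c (c (p
  (nat_lit 0x146e5c)) e) e) e)) (c (c (c (c (m (nat_lit 0xa9ba50)) e) e) e) e)) (c (c (c (c (c (m (nat_lit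
  0x14aa68c)) e) e) e) e) e)) (c (c (c (c (c (c (m (nat_lit 0x805a7c)) e) e) e) e) e) e))) (c (c (c (c (c (c
  (c (m (nat_lit 0x6dbe8d4)) (c (m (nat_lit 0x1707aa4)) e)) (c (c (p (nat_lit 0x1dc5650)) e) e)) (c (c (c (p
  (nat_lit 0xb026bc)) e) e) e)) (c (c (c (c (p (nat_lit 0x1f39680)) e) e) e) e)) (c (c (c (c (c (m (nat_lit
  0x175a7b4)) e) e) e) e) e)) (c (c (c (c (c (c (p (nat_lit 0xd168e0)) e) e) e) e) e) e)) (c (c (c (c (c (c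
  (c (m (nat_lit 0x1e91350)) e) e) e) e) e) e) e))) (c (c (c (c (c (c (c (c (m (nat_lit 0xa2f49aa)) (c (m
  (nat_lit 0x1becbbc)) e)) (c (c (m (nat_lit 0x17ec2d8)) e) e)) (c (c (c (m (nat_lit 0x110e4d0)) e) e) e)) (c
  (c (c (c (p (nat_lit 0x9f6a80)) e) e) e) e)) (c (c (c (c (c (m (nat_lit 0x2d89b8c)) e) e) e) e) e)) (c (c
  (c (c (c (c (m (nat_lit 0x3e0aa98)) e) e) e) e) e) e)) (c (c (c (c (c (c (c (p (nat_lit 0x2aadc5e)) e) e)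
  e) e) e) e) e)) (c (c (c (c (c (c (c (c (p (nat_lit 0xb29f950)) e) e) e) e) e) e) e) e))) (c (c (c (c (c (c
  (c (c (c (m (nat_lit 0x2d00d50)) (c (p (nat_lit 0x19a72e8)) e)) (c (c (p (nat_lit 0xcdfddc)) e) e)) (c (c
  (c (p (nat_lit 0x3401a0)) e) e) e)) (c (c (c (c (p (nat_lit 0xf25b18)) e) e) e) e)) (c (c (c (c (c (p
  (nat_lit 0x82419c)) e) e) e) e) e)) (c (c (c (c (c (c (p (nat_lit 0x48dc14)) e) e) e) e) e) e)) (c (c (c (c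
  (c (c (c (p (nat_lit 0x16a8764)) e) e) e) e) e) e) e)) (c (c (c (c (c (c (c (c (p (nat_lit 0x3ec6694)) e)
  e) e) e) e) e) e) e)) (c (c (c (c (c (c (c (c (c (m (nat_lit 0xe93724)) e) e) e) e) e) e) e) e) e)))))

noncomputable def gt_1_2 : Tr := (c gt_1_2_2 (c gt_1_2_3 (c gt_1_2_4 (c gt_1_2_5 (c gt_1_2_6 (c gt_1_2_7 e))))))

noncomputable def gt_1_3_3 : Tr :=
  (c (c (c (c (c (c (c (c (c (p (nat_lit 0xf585678)) (c (m (nat_lit 0x1457eb6c)) (c (p (nat_lit 0x8d01470))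
  e))) (c (c (m (nat_lit 0x1457e7d0)) (c (p (nat_lit 0x22a5e6c)) e)) (c (c (p (nat_lit 0x8d011ac)) e) e))) (c
  (c (c (m (nat_lit 0xb57a58e)) (c (p (nat_lit 0x2c86aa0)) e)) (c (c (p (nat_lit 0x2c86b30)) e) e)) (c (c (c
  (p (nat_lit 0x36b6a30)) e) e) e))) (c (c (c (c (m (nat_lit 0x1457eb6c)) (c (p (nat_lit 0x32bd8bc0)) (c (m
  (nat_lit 0x1c530618)) e))) (c (c (p (nat_lit 0x1ad2eda0)) (c (m (nat_lit 0x3081378)) e)) (c (c (m (nat_lit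
  0x7500108)) e) e))) (c (c (c (p (nat_lit 0x15fbb098)) (c (m (nat_lit 0x6633b4c)) e)) (c (c (m (nat_lit
  0x65605f8)) e) e)) (c (c (c (m (nat_lit 0x7154b20)) e) e) e))) (c (c (c (c (p (nat_lit 0x8d01470)) (c (m
  (nat_lit 0x1c530618)) (c (p (nat_lit 0x16773f18)) e))) (c (c (m (nat_lit 0x75003f0)) (c (p (nat_lit
  0x4f2b58)) e)) (c (c (m (nat_lit 0x7dd978)) e) e))) (c (c (c (m (nat_lit 0xa6120f8)) (c (p (nat_lit
  0x3f5bc80)) e)) (c (c (p (nat_lit 0x3d0d6c4)) e) e)) (c (c (c (p (nat_lit 0x3c7b7bc)) e) e) e))) e))) (c (c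
  (c (c (c (m (nat_lit 0x1457e7d0)) (c (p (nat_lit 0x1ad2eda0)) (c (m (nat_lit 0x75003f0)) e))) (c (c (p
  (nat_lit 0x32bd86b0)) (c (m (nat_lit 0x3081384)) e)) (c (c (m (nat_lit 0x1c530180)) e) e))) (c (c (c (p
  (nat_lit 0x15fbb0d4)) (c (m (nat_lit 0x65606c4)) e)) (c (c (m (nat_lit 0x6633c9c)) e) e)) (c (c (c (m
  (nat_lit 0x7154a78)) e) e) e))) (c (c (c (c (p (nat_lit 0x22a5e6c)) (c (m (nat_lit 0x3081378)) (c (p
  (nat_lit 0x4f2b58)) e))) (c (c (m (nat_lit 0x3081384)) (c (p (nat_lit 0x9349eba)) e)) (c (c (p (nat_lit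
  0x4f2b94)) e) e))) (c (c (c (p (nat_lit 0x52bb80e)) (c (m (nat_lit 0x25ec29a)) e)) (c (c (m (nat_lit
  0x25ec258)) e) e)) (c (c (c (m (nat_lit 0x2115ec4)) e) e) e))) e)) (c (c (c (c (c (p (nat_lit 0x8d011ac))
  (c (m (nat_lit 0x7500108)) (c (m (nat_lit 0x7dd978)) e))) (c (c (m (nat_lit 0x1c530180)) (c (p (nat_lit
  0x4f2b94)) e)) (c (c (p (nat_lit 0x16773c18)) e) e))) (c (c (c (m (nat_lit 0xa612038)) (c (p (nat_lit
  0x3d0d694)) e)) (c (c (p (nat_lit 0x3f5bd94)) e) e)) (c (c (c (p (nat_lit 0x3c7b5f4)) e) e) e))) e) e))) (c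
  (c (c (c (c (c (m (nat_lit 0xb57a58e)) (c (p (nat_lit 0x15fbb098)) (c (m (nat_lit 0xa6120f8)) e))) (c (c (p
  (nat_lit 0x15fbb0d4)) (c (p (nat_lit 0x52bb80e)) e)) (c (c (m (nat_lit 0xa612038)) e) e))) (c (c (c (p
  (nat_lit 0x46277d06)) (c (m (nat_lit 0x10a61b1c)) e)) (c (c (m (nat_lit 0x10a61a50)) e) e)) (c (c (c (m
  (nat_lit 0x1f5f6a44)) e) e) e))) (c (c (c (c (p (nat_lit 0x2c86aa0)) (c (m (nat_lit 0x6633b4c)) (c (p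
  (nat_lit 0x3f5bc80)) e))) (c (c (m (nat_lit 0x65606c4)) (c (m (nat_lit 0x25ec29a)) e)) (c (c (p (nat_lit
  0x3d0d694)) e) e))) (c (c (c (m (nat_lit 0x10a61b1c)) (c (p (nat_lit 0xb125cb6)) e)) (c (c (p (nat_lit
  0x42a8a02)) e) e)) (c (c (c (p (nat_lit 0x4f97796)) e) e) e))) e)) (c (c (c (c (c (p (nat_lit 0x2c86b30))
  (c (m (nat_lit 0x65605f8)) (c (p (nat_lit 0x3d0d6c4)) e))) (c (c (m (nat_lit 0x6633c9c)) (c (m (nat_lit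
  0x25ec258)) e)) (c (c (p (nat_lit 0x3f5bd94)) e) e))) (c (c (c (m (nat_lit 0x10a61a50)) (c (p (nat_lit
  0x42a8a02)) e)) (c (c (p (nat_lit 0xb125c62)) e) e)) (c (c (c (p (nat_lit 0x4f97712)) e) e) e))) e) e)) (c
  (c (c (c (c (c (p (nat_lit 0x36b6a30)) (c (m (nat_lit 0x7154b20)) (c (p (nat_lit 0x3c7b7bc)) e))) (c (c (m
  (nat_lit 0x7154a78)) (c (m (nat_lit 0x2115ec4)) e)) (c (c (p (nat_lit 0x3c7b5f4)) e) e))) (c (c (c (m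
  (nat_lit 0x1f5f6a44)) (c (p (nat_lit 0x4f97796)) e)) (c (c (p (nat_lit 0x4f97712)) e) e)) (c (c (c (p
  (nat_lit 0x13f2dae8)) e) e) e))) e) e) e))) (c (c (c (c (c (c (c (m (nat_lit 0xf6b48f4)) (c (p (nat_lit
  0x4a634ea)) (c (p (nat_lit 0x477cdbc)) e))) (c (c (p (nat_lit 0x4a62b12)) (c (m (nat_lit 0x84125ee)) e)) (c
  (c (p (nat_lit 0x477d3d4)) e) e))) (c (c (c (m (nat_lit 0x288996cc)) (c (p (nat_lit 0xa71f33c)) e)) (c (c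
  (p (nat_lit 0xa71f14a)) e) e)) (c (c (c (p (nat_lit 0xb788be4)) e) e) e))) (c (c (c (c (p (nat_lit
  0x4a634ea)) (c (m (nat_lit 0x257fee)) (c (p (nat_lit 0x905bc8)) e))) (c (c (m (nat_lit 0x1b02f682)) (c (p
  (nat_lit 0xecbc9e)) e)) (c (c (p (nat_lit 0x73ad5d0)) e) e))) (c (c (c (p (nat_lit 0xef1274e)) (c (m
  (nat_lit 0xe59050)) e)) (c (c (m (nat_lit 0x12f4b7e)) e) e)) (c (c (c (m (nat_lit 0x4fd8df4)) e) e) e))) (c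
  (c (c (c (p (nat_lit 0x477cdbc)) (c (p (nat_lit 0x905bc8)) e)) (c (c (p (nat_lit 0x73ad738)) e) e)) (c (c
  (c (m (nat_lit 0x64b42fc)) e) e) e)) e))) (c (c (c (c (c (p (nat_lit 0x4a62b12)) (c (m (nat_lit
  0x1b02f682)) (c (p (nat_lit 0x73ad738)) e))) (c (c (m (nat_lit 0x257de4)) (c (p (nat_lit 0xecbaa0)) e)) (c
  (c (p (nat_lit 0x905ad8)) e) e))) (c (c (c (p (nat_lit 0xef128b6)) (c (m (nat_lit 0x12f4c80)) e)) (c (c (m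
  (nat_lit 0xe58f42)) e) e)) (c (c (c (m (nat_lit 0x4fd8cfe)) e) e) e))) (c (c (c (c (m (nat_lit 0x84125ee))
  (c (p (nat_lit 0xecbc9e)) e)) (c (c (p (nat_lit 0xecbaa0)) e) e)) (c (c (c (m (nat_lit 0x304ad6)) e) e) e))
  e)) (c (c (c (c (c (p (nat_lit 0x477d3d4)) (c (p (nat_lit 0x73ad5d0)) e)) (c (c (p (nat_lit 0x905ad8)) e)
  e)) (c (c (c (m (nat_lit 0x64b4368)) e) e) e)) e) e))) (c (c (c (c (c (c (m (nat_lit 0x288996cc)) (c (p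
  (nat_lit 0xef1274e)) (c (m (nat_lit 0x64b42fc)) e))) (c (c (p (nat_lit 0xef128b6)) (c (m (nat_lit
  0x304ad6)) e)) (c (c (m (nat_lit 0x64b4368)) e) e))) (c (c (c (p (nat_lit 0x3738df4a)) (c (m (nat_lit
  0x84b312a)) e)) (c (c (m (nat_lit 0x84b301c)) e) e)) (c (c (c (m (nat_lit 0x8dbf706)) e) e) e))) (c (c (c
  (c (p (nat_lit 0xa71f33c)) (c (m (nat_lit 0xe59050)) e)) (c (c (m (nat_lit 0x12f4c80)) e) e)) (c (c (c (m
  (nat_lit 0x84b312a)) e) e) e)) e)) (c (c (c (c (c (p (nat_lit 0xa71f14a)) (c (m (nat_lit 0x12f4b7e)) e)) (c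
  (c (m (nat_lit 0xe58f42)) e) e)) (c (c (c (m (nat_lit 0x84b301c)) e) e) e)) e) e)) (c (c (c (c (c (c (p
  (nat_lit 0xb788be4)) (c (m (nat_lit 0x4fd8df4)) e)) (c (c (m (nat_lit 0x4fd8cfe)) e) e)) (c (c (c (m
  (nat_lit 0x8dbf706)) e) e) e)) e) e) e))) (c (c (c (c (c (c (c (p (nat_lit 0x3f992e26)) (c (m (nat_lit
  0xbe33f62)) (c (m (nat_lit 0x6940698)) e))) (c (c (m (nat_lit 0xbe33a9a)) (c (p (nat_lit 0x39254ac)) e)) (c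
  (c (m (nat_lit 0x6940a1c)) e) e))) (c (c (c (m (nat_lit 0xa16aa56)) (c (m (nat_lit 0x1ac9ab4)) e)) (c (c (m
  (nat_lit 0x1ac9aa8)) e) e)) (c (c (c (p (nat_lit 0x2fcae88)) e) e) e))) (c (c (c (c (m (nat_lit 0xbe33f62))
  (c (p (nat_lit 0x343c614)) e)) (c (c (p (nat_lit 0x17e6bea)) e) e)) (c (c (c (p (nat_lit 0x49fec42)) e) e)
  e)) (c (c (c (c (m (nat_lit 0x6940698)) e) e) e) e))) (c (c (c (c (c (m (nat_lit 0xbe33a9a)) (c (p (nat_lit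
  0x17e6bea)) e)) (c (c (p (nat_lit 0x343c710)) e) e)) (c (c (c (p (nat_lit 0x49fed8c)) e) e) e)) (c (c (c (c
  (p (nat_lit 0x39254ac)) e) e) e) e)) (c (c (c (c (c (m (nat_lit 0x6940a1c)) e) e) e) e) e))) (c (c (c (c (c
  (c (m (nat_lit 0xa16aa56)) (c (p (nat_lit 0x49fec42)) e)) (c (c (p (nat_lit 0x49fed8c)) e) e)) (c (c (c (p
  (nat_lit 0x101b89f0)) e) e) e)) (c (c (c (c (m (nat_lit 0x1ac9ab4)) e) e) e) e)) (c (c (c (c (c (m (nat_lit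
  0x1ac9aa8)) e) e) e) e) e)) (c (c (c (c (c (c (p (nat_lit 0x2fcae88)) e) e) e) e) e) e))) (c (c (c (c (c (c
  (c (m (nat_lit 0x29936d5a)) (c (p (nat_lit 0x693e53e)) e)) (c (c (p (nat_lit 0x693e604)) e) e)) (c (c (c (m
  (nat_lit 0x10133b2)) e) e) e)) (c (c (c (c (p (nat_lit 0x693e53e)) e) e) e) e)) (c (c (c (c (c (p (nat_lit
  0x693e604)) e) e) e) e) e)) (c (c (c (c (c (c (m (nat_lit 0x10133b2)) e) e) e) e) e) e)) (c (c (c (c (c (c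
  (c (p (nat_lit 0x8fd9c00)) e) e) e) e) e) e) e))))) (c (c (c (c (c (c (c (c (p (nat_lit 0x1335fc4e)) (c (m
  (nat_lit 0x22ff65c)) (c (m (nat_lit 0x1ad40ec)) e))) (c (c (m (nat_lit 0xb3dbaba)) (c (m (nat_lit
  0x848154)) e)) (c (c (p (nat_lit 0x3de7944)) e) e))) (c (c (c (m (nat_lit 0xf6b76e4)) (c (p (nat_lit
  0x3aeadc4)) e)) (c (c (p (nat_lit 0x35a7638)) e) e)) (c (c (c (p (nat_lit 0x5700ea6)) e) e) e))) (c (c (c
  (c (m (nat_lit 0x22ff65c)) (c (p (nat_lit 0x1d4c5c0a)) (c (p (nat_lit 0x359f6c4)) e))) (c (c (p (nat_lit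
  0x3f292da)) (c (m (nat_lit 0x3c3ce64)) e)) (c (c (p (nat_lit 0x57a5e4)) e) e))) (c (c (c (p (nat_lit
  0x2459688)) (c (m (nat_lit 0x25e2916)) e)) (c (c (p (nat_lit 0xe22e52)) e) e)) (c (c (c (m (nat_lit
  0x25c20f0)) e) e) e))) (c (c (c (c (m (nat_lit 0x1ad40ec)) (c (p (nat_lit 0x359f6c4)) e)) (c (c (p (nat_lit
  0x28f69b0)) e) e)) (c (c (c (p (nat_lit 0x274aaa8)) e) e) e)) e))) (c (c (c (c (c (m (nat_lit 0xb3dbaba))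
  (c (p (nat_lit 0x3f292da)) (c (p (nat_lit 0x28f69b0)) e))) (c (c (p (nat_lit 0x135c7fec)) (c (p (nat_lit
  0x6829c8)) e)) (c (c (m (nat_lit 0x2947368)) e) e))) (c (c (c (m (nat_lit 0xc06207c)) (c (m (nat_lit
  0x13d66d0)) e)) (c (c (p (nat_lit 0x1808c16)) e) e)) (c (c (c (p (nat_lit 0x384c4f8)) e) e) e))) (c (c (c
  (c (m (nat_lit 0x848154)) (c (m (nat_lit 0x3c3ce64)) e)) (c (c (p (nat_lit 0x6829c8)) e) e)) (c (c (c (p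
  (nat_lit 0xa61a24)) e) e) e)) e)) (c (c (c (c (c (p (nat_lit 0x3de7944)) (c (p (nat_lit 0x57a5e4)) e)) (c
  (c (m (nat_lit 0x2947368)) e) e)) (c (c (c (m (nat_lit 0x16e6a20)) e) e) e)) e) e))) (c (c (c (c (c (c (m
  (nat_lit 0xf6b76e4)) (c (p (nat_lit 0x2459688)) (c (p (nat_lit 0x274aaa8)) e))) (c (c (m (nat_lit
  0xc06207c)) (c (p (nat_lit 0xa61a24)) e)) (c (c (m (nat_lit 0x16e6a20)) e) e))) (c (c (c (m (nat_lit
  0x4a3e29c)) (c (p (nat_lit 0xba3a62)) e)) (c (c (p (nat_lit 0xe8ba0e)) e) e)) (c (c (c (p (nat_lit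
  0x18b56b6)) e) e) e))) (c (c (c (c (p (nat_lit 0x3aeadc4)) (c (m (nat_lit 0x25e2916)) e)) (c (c (m (nat_lit
  0x13d66d0)) e) e)) (c (c (c (p (nat_lit 0xba3a62)) e) e) e)) e)) (c (c (c (c (c (p (nat_lit 0x35a7638)) (c
  (p (nat_lit 0xe22e52)) e)) (c (c (p (nat_lit 0x1808c16)) e) e)) (c (c (c (p (nat_lit 0xe8ba0e)) e) e) e))
  e) e)) (c (c (c (c (c (c (p (nat_lit 0x5700ea6)) (c (m (nat_lit 0x25c20f0)) e)) (c (c (p (nat_lit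
  0x384c4f8)) e) e)) (c (c (c (p (nat_lit 0x18b56b6)) e) e) e)) e) e) e))) (c (c (c (c (c (c (c (p (nat_lit
  0x13256d00)) (c (m (nat_lit 0x1579ce00)) (c (m (nat_lit 0x297e58c)) e))) (c (c (m (nat_lit 0xea0039c)) (c
  (p (nat_lit 0x1fe8940)) e)) (c (c (p (nat_lit 0x35bba50)) e) e))) (c (c (c (p (nat_lit 0xcb445c)) (c (p
  (nat_lit 0xc29604)) e)) (c (c (m (nat_lit 0x3b2e79e)) e) e)) (c (c (c (p (nat_lit 0x8f4e5e)) e) e) e))) (c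
  (c (c (c (m (nat_lit 0x1579ce00)) (c (m (nat_lit 0xf678c12)) e)) (c (c (p (nat_lit 0x2476cda)) e) e)) (c (c
  (c (p (nat_lit 0x273f94e)) e) e) e)) (c (c (c (c (m (nat_lit 0x297e58c)) e) e) e) e))) (c (c (c (c (c (m
  (nat_lit 0xea0039c)) (c (p (nat_lit 0x2476cda)) e)) (c (c (m (nat_lit 0x3a45686)) e) e)) (c (c (c (m
  (nat_lit 0x123ffd2)) e) e) e)) (c (c (c (c (p (nat_lit 0x1fe8940)) e) e) e) e)) (c (c (c (c (c (p (nat_lit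
  0x35bba50)) e) e) e) e) e))) (c (c (c (c (c (c (p (nat_lit 0xcb445c)) (c (p (nat_lit 0x273f94e)) e)) (c (c
  (m (nat_lit 0x123ffd2)) e) e)) (c (c (c (m (nat_lit 0x31014f0)) e) e) e)) (c (c (c (c (p (nat_lit
  0xc29604)) e) e) e) e)) (c (c (c (c (c (m (nat_lit 0x3b2e79e)) e) e) e) e) e)) (c (c (c (c (c (c (p
  (nat_lit 0x8f4e5e)) e) e) e) e) e) e))) (c (c (c (c (c (c (c (p (nat_lit 0x1adcc6c6)) (c (p (nat_lit
  0x3d71f1e)) e)) (c (c (p (nat_lit 0x4a9e344)) e) e)) (c (c (c (m (nat_lit 0x2a2b380)) e) e) e)) (c (c (c (c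
  (p (nat_lit 0x3d71f1e)) e) e) e) e)) (c (c (c (c (c (p (nat_lit 0x4a9e344)) e) e) e) e) e)) (c (c (c (c (c
  (c (m (nat_lit 0x2a2b380)) e) e) e) e) e) e)) (c (c (c (c (c (c (c (m (nat_lit 0x5a70770)) e) e) e) e) e)
  e) e)))) (c (c (c (c (c (c (c (c (m (nat_lit 0x121536ea)) (c (m (nat_lit 0xcd95a38)) (c (m (nat_lit
  0x82de68)) e))) (c (c (m (nat_lit 0x3864cd2)) (c (p (nat_lit 0x74efc8)) e)) (c (c (m (nat_lit 0x2f063f4))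
  e) e))) (c (c (c (p (nat_lit 0xa00d784)) (c (m (nat_lit 0x1ebce4a)) e)) (c (c (m (nat_lit 0xf7b56a)) e) e))
  (c (c (c (m (nat_lit 0x3bc6466)) e) e) e))) (c (c (c (c (m (nat_lit 0xcd95a38)) (c (m (nat_lit 0x794b63e))
  e)) (c (c (m (nat_lit 0x61c104c)) e) e)) (c (c (c (m (nat_lit 0x3fe526)) e) e) e)) (c (c (c (c (m (nat_lit
  0x82de68)) e) e) e) e))) (c (c (c (c (c (m (nat_lit 0x3864cd2)) (c (m (nat_lit 0x61c104c)) e)) (c (c (m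
  (nat_lit 0x2c18166)) e) e)) (c (c (c (p (nat_lit 0x4b9b574)) e) e) e)) (c (c (c (c (p (nat_lit 0x74efc8))
  e) e) e) e)) (c (c (c (c (c (m (nat_lit 0x2f063f4)) e) e) e) e) e))) (c (c (c (c (c (c (p (nat_lit
  0xa00d784)) (c (m (nat_lit 0x3fe526)) e)) (c (c (p (nat_lit 0x4b9b574)) e) e)) (c (c (c (m (nat_lit
  0x851382)) e) e) e)) (c (c (c (c (m (nat_lit 0x1ebce4a)) e) e) e) e)) (c (c (c (c (c (m (nat_lit 0xf7b56a))
  e) e) e) e) e)) (c (c (c (c (c (c (m (nat_lit 0x3bc6466)) e) e) e) e) e) e))) (c (c (c (c (c (c (c (p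
  (nat_lit 0xe4dca4c)) (c (p (nat_lit 0xca67328)) e)) (c (c (p (nat_lit 0x1121628)) e) e)) (c (c (c (p
  (nat_lit 0x100e3ae)) e) e) e)) (c (c (c (c (p (nat_lit 0xca67328)) e) e) e) e)) (c (c (c (c (c (p (nat_lit
  0x1121628)) e) e) e) e) e)) (c (c (c (c (c (c (p (nat_lit 0x100e3ae)) e) e) e) e) e) e)) (c (c (c (c (c (c
  (c (m (nat_lit 0x120c43f8)) e) e) e) e) e) e) e))) (c (c (c (c (c (c (c (c (p (nat_lit 0x11adc6ce)) (c (p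
  (nat_lit 0x7b75b8e)) e)) (c (c (p (nat_lit 0x92db1a8)) e) e)) (c (c (c (m (nat_lit 0x1cd5cb6)) e) e) e)) (c
  (c (c (c (p (nat_lit 0x7b75b8e)) e) e) e) e)) (c (c (c (c (c (p (nat_lit 0x92db1a8)) e) e) e) e) e)) (c (c
  (c (c (c (c (m (nat_lit 0x1cd5cb6)) e) e) e) e) e) e)) (c (c (c (c (c (c (c (m (nat_lit 0xbc8c0ec)) e) e)
  e) e) e) e) e)) (c (c (c (c (c (c (c (c (m (nat_lit 0x9153af8)) e) e) e) e) e) e) e) e))))) (c (c (c (c (c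
  (c (c (c (c (p (nat_lit 0x1f4943c)) (c (m (nat_lit 0x5de6652)) (c (p (nat_lit 0x3de79ec)) e))) (c (c (m
  (nat_lit 0x518a48c)) (c (m (nat_lit 0x84809a)) e)) (c (c (m (nat_lit 0x1ad4074)) e) e))) (c (c (c (m
  (nat_lit 0xc4c91fa)) (c (p (nat_lit 0x35a77e8)) e)) (c (c (p (nat_lit 0x3aeac14)) e) e)) (c (c (c (p
  (nat_lit 0x5700ed6)) e) e) e))) (c (c (c (c (m (nat_lit 0x5de6652)) (c (p (nat_lit 0xcf3f48)) (c (m
  (nat_lit 0x294756c)) e))) (c (c (m (nat_lit 0x4536564)) (c (p (nat_lit 0x68283c)) e)) (c (c (p (nat_lit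
  0x28f6830)) e) e))) (c (c (c (m (nat_lit 0x888eaa2)) (c (p (nat_lit 0x1808c10)) e)) (c (c (m (nat_lit
  0x13d6598)) e) e)) (c (c (c (p (nat_lit 0x384c570)) e) e) e))) (c (c (c (c (p (nat_lit 0x3de79ec)) (c (m
  (nat_lit 0x294756c)) e)) (c (c (p (nat_lit 0x57a5b4)) e) e)) (c (c (c (m (nat_lit 0x16e6ac8)) e) e) e))
  e))) (c (c (c (c (c (m (nat_lit 0x518a48c)) (c (m (nat_lit 0x4536564)) (c (p (nat_lit 0x57a5b4)) e))) (c (c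
  (m (nat_lit 0xa7f5ab8)) (c (m (nat_lit 0x3c3cffc)) e)) (c (c (p (nat_lit 0x359f4e4)) e) e))) (c (c (c (p
  (nat_lit 0x1be297a)) (c (p (nat_lit 0xe22f2a)) e)) (c (c (m (nat_lit 0x25e287a)) e) e)) (c (c (c (m
  (nat_lit 0x25c200c)) e) e) e))) (c (c (c (c (m (nat_lit 0x84809a)) (c (p (nat_lit 0x68283c)) e)) (c (c (m
  (nat_lit 0x3c3cffc)) e) e)) (c (c (c (p (nat_lit 0xa61a18)) e) e) e)) e)) (c (c (c (c (c (m (nat_lit
  0x1ad4074)) (c (p (nat_lit 0x28f6830)) e)) (c (c (p (nat_lit 0x359f4e4)) e) e)) (c (c (c (p (nat_lit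
  0x274aa24)) e) e) e)) e) e))) (c (c (c (c (c (c (m (nat_lit 0xc4c91fa)) (c (m (nat_lit 0x888eaa2)) (c (m
  (nat_lit 0x16e6ac8)) e))) (c (c (p (nat_lit 0x1be297a)) (c (p (nat_lit 0xa61a18)) e)) (c (c (p (nat_lit
  0x274aa24)) e) e))) (c (c (c (m (nat_lit 0xc41b89c)) (c (p (nat_lit 0xe8b9a8)) e)) (c (c (p (nat_lit
  0xba3ab6)) e) e)) (c (c (c (p (nat_lit 0x18b5680)) e) e) e))) (c (c (c (c (p (nat_lit 0x35a77e8)) (c (p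
  (nat_lit 0x1808c10)) e)) (c (c (p (nat_lit 0xe22f2a)) e) e)) (c (c (c (p (nat_lit 0xe8b9a8)) e) e) e)) e))
  (c (c (c (c (c (p (nat_lit 0x3aeac14)) (c (m (nat_lit 0x13d6598)) e)) (c (c (m (nat_lit 0x25e287a)) e) e))
  (c (c (c (p (nat_lit 0xba3ab6)) e) e) e)) e) e)) (c (c (c (c (c (c (p (nat_lit 0x5700ed6)) (c (p (nat_lit
  0x384c570)) e)) (c (c (m (nat_lit 0x25c200c)) e) e)) (c (c (c (p (nat_lit 0x18b5680)) e) e) e)) e) e) e)))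
  (c (c (c (c (c (c (c (p (nat_lit 0x1edb6420)) (c (m (nat_lit 0x57246d2)) (c (p (nat_lit 0x35bbcf0)) e))) (c
  (c (p (nat_lit 0x2cc4fe4)) (c (p (nat_lit 0x1fe8aea)) e)) (c (c (m (nat_lit 0x297e3e8)) e) e))) (c (c (c (m
  (nat_lit 0x3806ca6)) (c (m (nat_lit 0x3b2e864)) e)) (c (c (p (nat_lit 0xc29574)) e) e)) (c (c (c (p
  (nat_lit 0x8f4dbc)) e) e) e))) (c (c (c (c (m (nat_lit 0x57246d2)) (c (m (nat_lit 0x212e2cc)) e)) (c (c (p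
  (nat_lit 0x319694a)) e) e)) (c (c (c (m (nat_lit 0x229a17e)) e) e) e)) (c (c (c (c (p (nat_lit 0x35bbcf0))
  e) e) e) e))) (c (c (c (c (c (p (nat_lit 0x2cc4fe4)) (c (p (nat_lit 0x319694a)) e)) (c (c (p (nat_lit
  0x581079c)) e) e)) (c (c (c (p (nat_lit 0x42f04b6)) e) e) e)) (c (c (c (c (p (nat_lit 0x1fe8aea)) e) e) e)
  e)) (c (c (c (c (c (m (nat_lit 0x297e3e8)) e) e) e) e) e))) (c (c (c (c (c (c (m (nat_lit 0x3806ca6)) (c (m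
  (nat_lit 0x229a17e)) e)) (c (c (p (nat_lit 0x42f04b6)) e) e)) (c (c (c (m (nat_lit 0x20bcdb8)) e) e) e)) (c
  (c (c (c (m (nat_lit 0x3b2e864)) e) e) e) e)) (c (c (c (c (c (p (nat_lit 0xc29574)) e) e) e) e) e)) (c (c
  (c (c (c (c (p (nat_lit 0x8f4dbc)) e) e) e) e) e) e))) (c (c (c (c (c (c (c (m (nat_lit 0xeabed10)) (c (p
  (nat_lit 0x29bcb36)) e)) (c (c (m (nat_lit 0x68008e6)) e) e)) (c (c (c (m (nat_lit 0x1f0023c)) e) e) e)) (c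
  (c (c (c (p (nat_lit 0x29bcb36)) e) e) e) e)) (c (c (c (c (c (m (nat_lit 0x68008e6)) e) e) e) e) e)) (c (c
  (c (c (c (c (m (nat_lit 0x1f0023c)) e) e) e) e) e) e)) (c (c (c (c (c (c (c (p (nat_lit 0x429e910)) e) e)
  e) e) e) e) e)))) (c (c (c (c (c (c (c (c (m (nat_lit 0xdead868)) (c (p (nat_lit 0x8ebbe44)) (c (m (nat_lit
  0x2443efc)) e))) (c (c (p (nat_lit 0x107413da)) (c (m (nat_lit 0x1799754)) e)) (c (c (m (nat_lit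
  0x2443e9c)) e) e))) (c (c (c (p (nat_lit 0x872cdc6)) (c (p (nat_lit 0x3bad2c)) e)) (c (c (p (nat_lit
  0x3bad8c)) e) e)) (c (c (c (m (nat_lit 0x6575ee)) e) e) e))) (c (c (c (c (p (nat_lit 0x8ebbe44)) (c (m
  (nat_lit 0xa9e1cec)) e)) (c (c (m (nat_lit 0x17f72ee)) e) e)) (c (c (c (p (nat_lit 0x630534)) e) e) e)) (c
  (c (c (c (m (nat_lit 0x2443efc)) e) e) e) e))) (c (c (c (c (c (p (nat_lit 0x107413da)) (c (m (nat_lit
  0x17f72ee)) e)) (c (c (m (nat_lit 0xa9e1c80)) e) e)) (c (c (c (p (nat_lit 0x63053a)) e) e) e)) (c (c (c (c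
  (m (nat_lit 0x1799754)) e) e) e) e)) (c (c (c (c (c (m (nat_lit 0x2443e9c)) e) e) e) e) e))) (c (c (c (c (c
  (c (p (nat_lit 0x872cdc6)) (c (p (nat_lit 0x630534)) e)) (c (c (p (nat_lit 0x63053a)) e) e)) (c (c (c (p
  (nat_lit 0x98ce8)) e) e) e)) (c (c (c (c (p (nat_lit 0x3bad2c)) e) e) e) e)) (c (c (c (c (c (p (nat_lit
  0x3bad8c)) e) e) e) e) e)) (c (c (c (c (c (c (m (nat_lit 0x6575ee)) e) e) e) e) e) e))) (c (c (c (c (c (c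
  (c (m (nat_lit 0x151f5204)) (c (p (nat_lit 0x7be4780)) e)) (c (c (p (nat_lit 0x58b545a)) e) e)) (c (c (c (m
  (nat_lit 0x1ebcfa6)) e) e) e)) (c (c (c (c (p (nat_lit 0x7be4780)) e) e) e) e)) (c (c (c (c (c (p (nat_lit
  0x58b545a)) e) e) e) e) e)) (c (c (c (c (c (c (m (nat_lit 0x1ebcfa6)) e) e) e) e) e) e)) (c (c (c (c (c (c
  (c (m (nat_lit 0x2d758d0)) e) e) e) e) e) e) e))) (c (c (c (c (c (c (c (c (p (nat_lit 0x56101c8)) (c (m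
  (nat_lit 0x1c9e0b4)) e)) (c (c (m (nat_lit 0x4b3ab24)) e) e)) (c (c (c (m (nat_lit 0x2a1f70a)) e) e) e)) (c
  (c (c (c (m (nat_lit 0x1c9e0b4)) e) e) e) e)) (c (c (c (c (c (m (nat_lit 0x4b3ab24)) e) e) e) e) e)) (c (c
  (c (c (c (c (m (nat_lit 0x2a1f70a)) e) e) e) e) e) e)) (c (c (c (c (c (c (c (p (nat_lit 0x38333dc)) e) e)
  e) e) e) e) e)) (c (c (c (c (c (c (c (c (p (nat_lit 0x2c9b41c)) e) e) e) e) e) e) e) e)))) (c (c (c (c (c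
  (c (c (c (c (p (nat_lit 0xf8f9370)) (c (p (nat_lit 0xc1e390)) (c (m (nat_lit 0x2f0646c)) e))) (c (c (p
  (nat_lit 0x3611ec2)) (c (p (nat_lit 0x74f004)) e)) (c (c (m (nat_lit 0x82dd30)) e) e))) (c (c (c (p
  (nat_lit 0x59ea8ce)) (c (m (nat_lit 0xf7b672)) e)) (c (c (m (nat_lit 0x1ebcd8a)) e) e)) (c (c (c (m
  (nat_lit 0x3bc649c)) e) e) e))) (c (c (c (c (p (nat_lit 0xc1e390)) (c (p (nat_lit 0xe3a4df4)) e)) (c (c (p
  (nat_lit 0x157ec54)) e) e)) (c (c (c (p (nat_lit 0x2421f48)) e) e) e)) (c (c (c (c (m (nat_lit 0x2f0646c))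
  e) e) e) e))) (c (c (c (c (c (p (nat_lit 0x3611ec2)) (c (p (nat_lit 0x157ec54)) e)) (c (c (p (nat_lit
  0xb4e719e)) e) e)) (c (c (c (m (nat_lit 0x17386bc)) e) e) e)) (c (c (c (c (p (nat_lit 0x74f004)) e) e) e)
  e)) (c (c (c (c (c (m (nat_lit 0x82dd30)) e) e) e) e) e))) (c (c (c (c (c (c (p (nat_lit 0x59ea8ce)) (c (p
  (nat_lit 0x2421f48)) e)) (c (c (m (nat_lit 0x17386bc)) e) e)) (c (c (c (p (nat_lit 0x6147d6e)) e) e) e)) (c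
  (c (c (c (m (nat_lit 0xf7b672)) e) e) e) e)) (c (c (c (c (c (m (nat_lit 0x1ebcd8a)) e) e) e) e) e)) (c (c
  (c (c (c (c (m (nat_lit 0x3bc649c)) e) e) e) e) e) e))) (c (c (c (c (c (c (c (m (nat_lit 0xda78160)) (c (m
  (nat_lit 0x69a4b26)) e)) (c (c (m (nat_lit 0x513d6bc)) e) e)) (c (c (c (p (nat_lit 0x49e3480)) e) e) e)) (c
  (c (c (c (m (nat_lit 0x69a4b26)) e) e) e) e)) (c (c (c (c (c (m (nat_lit 0x513d6bc)) e) e) e) e) e)) (c (c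
  (c (c (c (c (p (nat_lit 0x49e3480)) e) e) e) e) e) e)) (c (c (c (c (c (c (c (p (nat_lit 0x137a0f96)) e) e)
  e) e) e) e) e))) (c (c (c (c (c (c (c (c (p (nat_lit 0x3a4b866)) (c (p (nat_lit 0x4e938a)) e)) (c (c (m
  (nat_lit 0x21d051e)) e) e)) (c (c (c (m (nat_lit 0x2d6f534)) e) e) e)) (c (c (c (c (p (nat_lit 0x4e938a))
  e) e) e) e)) (c (c (c (c (c (m (nat_lit 0x21d051e)) e) e) e) e) e)) (c (c (c (c (c (c (m (nat_lit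
  0x2d6f534)) e) e) e) e) e) e)) (c (c (c (c (c (c (c (p (nat_lit 0x42c0420)) e) e) e) e) e) e) e)) (c (c (c
  (c (c (c (c (c (m (nat_lit 0x4f7bbf0)) e) e) e) e) e) e) e) e))) (c (c (c (c (c (c (c (c (c (m (nat_lit
  0x12437070)) (c (p (nat_lit 0x12e94c)) e)) (c (c (m (nat_lit 0x1cf1ca0)) e) e)) (c (c (c (m (nat_lit
  0x8e6128)) e) e) e)) (c (c (c (c (p (nat_lit 0x12e94c)) e) e) e) e)) (c (c (c (c (c (m (nat_lit 0x1cf1ca0))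
  e) e) e) e) e)) (c (c (c (c (c (c (m (nat_lit 0x8e6128)) e) e) e) e) e) e)) (c (c (c (c (c (c (c (p
  (nat_lit 0x1d010)) e) e) e) e) e) e) e)) (c (c (c (c (c (c (c (c (p (nat_lit 0x200e134)) e) e) e) e) e) e)
  e) e)) (c (c (c (c (c (c (c (c (c (p (nat_lit 0x91ec7b0)) e) e) e) e) e) e) e) e) e)))))

noncomputable def gt_1_3_4 : Tr :=
  (c (c (c (c (c (c (c (c (c (m (nat_lit 0x3cc1dfa)) (c (p (nat_lit 0x32cfa78)) (c (m (nat_lit 0x9233c4))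
  e))) (c (c (p (nat_lit 0x32cfa78)) (c (p (nat_lit 0x15d3f80)) e)) (c (c (m (nat_lit 0x923214)) e) e))) (c
  (c (c (p (nat_lit 0x2b6d850)) (c (m (nat_lit 0x310e72c)) e)) (c (c (m (nat_lit 0x310e6e4)) e) e)) (c (c (c
  (m (nat_lit 0x13c122)) e) e) e))) (c (c (c (c (m (nat_lit 0x51acf8)) (c (p (nat_lit 0x4399368)) (c (p
  (nat_lit 0x2f5c350)) e))) (c (c (m (nat_lit 0x67f140)) (c (m (nat_lit 0x1d11fc8)) e)) (c (c (m (nat_lit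
  0x58f620)) e) e))) (c (c (c (m (nat_lit 0x397e6d8)) (c (p (nat_lit 0x1541e38)) e)) (c (c (p (nat_lit
  0x7519fb0)) e) e)) (c (c (c (p (nat_lit 0x3acfc50)) e) e) e))) (c (c (c (c (m (nat_lit 0x1183110)) (c (p
  (nat_lit 0x1228cc8)) (c (m (nat_lit 0x3b44140)) e))) (c (c (p (nat_lit 0x14c4960)) (c (p (nat_lit
  0x996bb8)) e)) (c (c (p (nat_lit 0x13db578)) e) e))) (c (c (c (m (nat_lit 0x626190)) (c (p (nat_lit
  0x14498b8)) e)) (c (c (m (nat_lit 0x570d458)) e) e)) (c (c (c (m (nat_lit 0x1f97f58)) e) e) e))) e))) (c (c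
  (c (c (c (m (nat_lit 0x51ac8c)) (c (m (nat_lit 0x67f440)) (c (m (nat_lit 0x58f3f8)) e))) (c (c (p (nat_lit
  0x43992a8)) (c (m (nat_lit 0x1d11e78)) e)) (c (c (p (nat_lit 0x2f5c2a8)) e) e))) (c (c (c (m (nat_lit
  0x397ef0c)) (c (p (nat_lit 0x751a058)) e)) (c (c (p (nat_lit 0x1541fd0)) e) e)) (c (c (c (p (nat_lit
  0x3ad0490)) e) e) e))) (c (c (c (c (m (nat_lit 0xc89934)) (c (p (nat_lit 0x1260fa8)) (c (m (nat_lit
  0x13b59a0)) e))) (c (c (p (nat_lit 0x1260ffc)) (c (m (nat_lit 0x2690370)) e)) (c (c (m (nat_lit 0x13b5910))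
  e) e))) (c (c (c (p (nat_lit 0x41b6440)) (c (m (nat_lit 0x359cd60)) e)) (c (c (m (nat_lit 0x359cc28)) e)
  e)) (c (c (c (m (nat_lit 0x190d76c)) e) e) e))) e)) (c (c (c (c (c (m (nat_lit 0x118326c)) (c (p (nat_lit
  0x14c4c00)) (c (p (nat_lit 0x13db440)) e))) (c (c (p (nat_lit 0x1228d28)) (c (p (nat_lit 0x996a68)) e)) (c
  (c (m (nat_lit 0x3b44140)) e) e))) (c (c (c (m (nat_lit 0x625ad0)) (c (m (nat_lit 0x570d500)) e)) (c (c (p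
  (nat_lit 0x14497b0)) e) e)) (c (c (c (m (nat_lit 0x1f9854c)) e) e) e))) e) e))) (c (c (c (c (c (c (p
  (nat_lit 0x76d23b0)) (c (m (nat_lit 0x6940188)) (c (p (nat_lit 0x2b6d784)) e))) (c (c (m (nat_lit
  0x6940704)) (c (m (nat_lit 0x8532bb8)) e)) (c (c (p (nat_lit 0x2b6d7b4)) e) e))) (c (c (c (m (nat_lit
  0x1e8d7e2a)) (c (p (nat_lit 0x68b4508)) e)) (c (c (p (nat_lit 0x68b4574)) e) e)) (c (c (c (p (nat_lit
  0x16cc367a)) e) e) e))) (c (c (c (c (m (nat_lit 0x1e31266)) (c (m (nat_lit 0x403d70)) (c (m (nat_lit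
  0x17cb4f4)) e))) (c (c (p (nat_lit 0x366f15c)) (c (p (nat_lit 0x2659e18)) e)) (c (c (m (nat_lit 0x721170))
  e) e))) (c (c (c (p (nat_lit 0x6bc559c)) (c (m (nat_lit 0x1fb0f60)) e)) (c (c (m (nat_lit 0x357ed00)) e)
  e)) (c (c (c (m (nat_lit 0x59d70e6)) e) e) e))) e)) (c (c (c (c (c (m (nat_lit 0x1e313d4)) (c (p (nat_lit
  0x366f1ec)) (c (m (nat_lit 0x721164)) e))) (c (c (m (nat_lit 0x403c2c)) (c (p (nat_lit 0x2659df4)) e)) (c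
  (c (m (nat_lit 0x17cb4e8)) e) e))) (c (c (c (p (nat_lit 0x6bc57a0)) (c (m (nat_lit 0x357ed24)) e)) (c (c (m
  (nat_lit 0x1fb0f84)) e) e)) (c (c (c (m (nat_lit 0x59d717c)) e) e) e))) e) e)) (c (c (c (c (c (c (m
  (nat_lit 0x3464a96)) (c (p (nat_lit 0x1f4211c)) (c (m (nat_lit 0x5488bc)) e))) (c (c (p (nat_lit
  0x1f42230)) (c (p (nat_lit 0x56727cc)) e)) (c (c (m (nat_lit 0x548814)) e) e))) (c (c (c (p (nat_lit
  0xbee10da)) (c (m (nat_lit 0x1add17c)) e)) (c (c (m (nat_lit 0x1add230)) e) e)) (c (c (c (m (nat_lit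
  0x7879e84)) e) e) e))) e) e) e))) (c (c (c (c (c (c (c (m (nat_lit 0x4aabe9e)) (c (p (nat_lit 0xbb5cd50))
  (c (m (nat_lit 0x3287580)) e))) (c (c (p (nat_lit 0xbb5d0e0)) (c (p (nat_lit 0x1da8d0)) e)) (c (c (m
  (nat_lit 0x3287760)) e) e))) (c (c (c (p (nat_lit 0x2d1502d0)) (c (m (nat_lit 0x5f6e860)) e)) (c (c (m
  (nat_lit 0x5f6ea1c)) e) e)) (c (c (c (m (nat_lit 0x344701c2)) e) e) e))) (c (c (c (c (m (nat_lit
  0x3ffd974)) (c (m (nat_lit 0x29ea796)) (c (m (nat_lit 0x2515368)) e))) (c (c (m (nat_lit 0x8ef7286)) (c (m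
  (nat_lit 0xee257c)) e)) (c (c (p (nat_lit 0x3ad8938)) e) e))) (c (c (c (p (nat_lit 0x205981e)) (c (m
  (nat_lit 0x187d508)) e)) (c (c (p (nat_lit 0x287a084)) e) e)) (c (c (c (p (nat_lit 0x87317c4)) e) e) e)))
  (c (c (c (c (p (nat_lit 0x4c398c0)) (c (p (nat_lit 0xcd7730)) e)) (c (c (p (nat_lit 0x413fb20)) e) e)) (c
  (c (c (m (nat_lit 0x1611420)) e) e) e)) e))) (c (c (c (c (c (m (nat_lit 0x3ffd2d2)) (c (m (nat_lit
  0x8ef72f2)) (c (p (nat_lit 0x3ad898c)) e))) (c (c (m (nat_lit 0x29eabaa)) (c (m (nat_lit 0xee24b0)) e)) (c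
  (c (m (nat_lit 0x2515314)) e) e))) (c (c (c (p (nat_lit 0x20592fc)) (c (p (nat_lit 0x287a1d4)) e)) (c (c (m
  (nat_lit 0x187d2f8)) e) e)) (c (c (c (p (nat_lit 0x8731b36)) e) e) e))) (c (c (c (c (m (nat_lit 0x30a2fc))
  (c (m (nat_lit 0x7b10e0)) e)) (c (c (m (nat_lit 0x7b1044)) e) e)) (c (c (c (p (nat_lit 0x45e964)) e) e) e))
  e)) (c (c (c (c (c (p (nat_lit 0x4c39518)) (c (p (nat_lit 0x413fb50)) e)) (c (c (p (nat_lit 0xcd77f0)) e)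
  e)) (c (c (c (m (nat_lit 0x1611390)) e) e) e)) e) e))) (c (c (c (c (c (c (p (nat_lit 0x121a2260)) (c (m
  (nat_lit 0x18167112)) (c (p (nat_lit 0x645474)) e))) (c (c (m (nat_lit 0x18166f7a)) (c (p (nat_lit
  0xa80dd4)) e)) (c (c (p (nat_lit 0x645228)) e) e))) (c (c (c (m (nat_lit 0x2c5782c)) (c (p (nat_lit
  0x65bce48)) e)) (c (c (p (nat_lit 0x65bcddc)) e) e)) (c (c (c (p (nat_lit 0xf454b7e)) e) e) e))) (c (c (c
  (c (m (nat_lit 0x2537cd0)) (c (p (nat_lit 0x4c88238)) e)) (c (c (p (nat_lit 0x4d9a228)) e) e)) (c (c (c (m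
  (nat_lit 0x1831e60)) e) e) e)) e)) (c (c (c (c (c (m (nat_lit 0x2537b80)) (c (p (nat_lit 0x4d9a258)) e)) (c
  (c (p (nat_lit 0x4c881fc)) e) e)) (c (c (c (m (nat_lit 0x1831e9c)) e) e) e)) e) e)) (c (c (c (c (c (c (m
  (nat_lit 0x11ea1b4)) (c (p (nat_lit 0x439a418)) e)) (c (c (p (nat_lit 0x439a43c)) e) e)) (c (c (c (m
  (nat_lit 0x576a284)) e) e) e)) e) e) e))) (c (c (c (c (c (c (c (m (nat_lit 0xbfc8ff2)) (c (m (nat_lit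
  0x680007c)) (c (p (nat_lit 0x23416b0)) e))) (c (c (m (nat_lit 0x6800280)) (c (p (nat_lit 0x2b4d1f8)) e)) (c
  (c (p (nat_lit 0x23417c4)) e) e))) (c (c (c (m (nat_lit 0x1f691fbe)) (c (p (nat_lit 0x27757f8)) e)) (c (c
  (p (nat_lit 0x27758dc)) e) e)) (c (c (c (p (nat_lit 0x1cd27a36)) e) e) e))) (c (c (c (c (p (nat_lit
  0xeae3664)) (c (m (nat_lit 0x452ca96)) e)) (c (c (p (nat_lit 0xbc30e2)) e) e)) (c (c (c (m (nat_lit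
  0x8261f9a)) e) e) e)) (c (c (c (c (m (nat_lit 0x6fc4ab8)) e) e) e) e))) (c (c (c (c (c (p (nat_lit
  0xeae331c)) (c (p (nat_lit 0xbc30ee)) e)) (c (c (m (nat_lit 0x452c9d6)) e) e)) (c (c (c (m (nat_lit
  0x8261ece)) e) e) e)) (c (c (c (c (p (nat_lit 0x6cf750)) e) e) e) e)) (c (c (c (c (c (m (nat_lit
  0x6fc46e0)) e) e) e) e) e))) (c (c (c (c (c (c (p (nat_lit 0xb22b502)) (c (m (nat_lit 0x22fa646)) e)) (c (c
  (m (nat_lit 0x22fa6be)) e) e)) (c (c (c (p (nat_lit 0x3fa0d70)) e) e) e)) (c (c (c (c (m (nat_lit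
  0x3cdcd58)) e) e) e) e)) (c (c (c (c (c (m (nat_lit 0x3cdcd7c)) e) e) e) e) e)) (c (c (c (c (c (c (m
  (nat_lit 0x65c0760)) e) e) e) e) e) e))) (c (c (c (c (c (c (c (p (nat_lit 0x8295bf4)) (c (p (nat_lit
  0x50c8ef0)) e)) (c (c (p (nat_lit 0x50c8fd4)) e) e)) (c (c (c (p (nat_lit 0x7cedbfc)) e) e) e)) (c (c (c (c
  (p (nat_lit 0xa6cde8)) e) e) e) e)) (c (c (c (c (c (p (nat_lit 0xa6cc1a)) e) e) e) e) e)) (c (c (c (c (c (c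
  (p (nat_lit 0x36cc984)) e) e) e) e) e) e)) (c (c (c (c (c (c (c (m (nat_lit 0x7b06c36)) e) e) e) e) e) e)
  e))))) (c (c (c (c (c (c (c (c (p (nat_lit 0x4ce0078)) (c (m (nat_lit 0x6ad750a)) (c (p (nat_lit
  0x380abdc)) e))) (c (c (p (nat_lit 0x10740eb8)) (c (p (nat_lit 0x14711e8)) e)) (c (c (m (nat_lit
  0x39ad8a4)) e) e))) (c (c (c (p (nat_lit 0xd1f84ac)) (c (m (nat_lit 0x263d690)) e)) (c (c (m (nat_lit
  0x2d362a0)) e) e)) (c (c (c (m (nat_lit 0x7839c06)) e) e) e))) (c (c (c (c (p (nat_lit 0x10c87ec0)) (c (m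
  (nat_lit 0xc820d1c)) (c (p (nat_lit 0x164a150)) e))) (c (c (m (nat_lit 0xae49e6)) (c (p (nat_lit 0xca9ca4))
  e)) (c (c (m (nat_lit 0x69c2e8)) e) e))) (c (c (c (m (nat_lit 0x1aa24f42)) (c (p (nat_lit 0x3958e90)) e))
  (c (c (p (nat_lit 0x2382ffc)) e) e)) (c (c (c (p (nat_lit 0x3ac896c)) e) e) e))) (c (c (c (c (p (nat_lit
  0x20997c0)) (c (p (nat_lit 0x10fe4b0)) e)) (c (c (p (nat_lit 0x72108)) e) e)) (c (c (c (p (nat_lit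
  0x26096e8)) e) e) e)) e))) (c (c (c (c (c (m (nat_lit 0xa901f82)) (c (m (nat_lit 0x5c99aea)) (c (m (nat_lit
  0x1482b4c)) e))) (c (c (m (nat_lit 0xc0eb2c6)) (c (m (nat_lit 0x687300)) e)) (c (c (p (nat_lit 0x34ac5a4))
  e) e))) (c (c (c (p (nat_lit 0x251d3f6)) (c (p (nat_lit 0x326a3c)) e)) (c (c (m (nat_lit 0x12252f0)) e) e))
  (c (c (c (m (nat_lit 0x3a4da02)) e) e) e))) (c (c (c (c (m (nat_lit 0x16ab590)) (c (p (nat_lit 0x14c8c68))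
  e)) (c (c (p (nat_lit 0x1aae328)) e) e)) (c (c (c (p (nat_lit 0x11cbd1c)) e) e) e)) e)) (c (c (c (c (c (p
  (nat_lit 0xa485960)) (c (m (nat_lit 0x15f19e0)) e)) (c (c (p (nat_lit 0x1cdd138)) e) e)) (c (c (c (m
  (nat_lit 0x4f5498)) e) e) e)) e) e))) (c (c (c (c (c (c (m (nat_lit 0x7d09b3e)) (c (p (nat_lit 0xcd4f38e))
  (c (m (nat_lit 0x1e392f4)) e))) (c (c (m (nat_lit 0xcbc1144)) (c (p (nat_lit 0x799740)) e)) (c (c (p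
  (nat_lit 0x25d6964)) e) e))) (c (c (c (p (nat_lit 0x34c3f98)) (c (m (nat_lit 0x1b1d1e4)) e)) (c (c (m
  (nat_lit 0x5a9af8)) e) e)) (c (c (c (m (nat_lit 0x340b474)) e) e) e))) (c (c (c (c (p (nat_lit 0x7d1e4a8))
  (c (m (nat_lit 0x267996c)) e)) (c (c (p (nat_lit 0x145b12c)) e) e)) (c (c (c (p (nat_lit 0x16da4f8)) e) e)
  e)) e)) (c (c (c (c (c (p (nat_lit 0x892650)) (c (m (nat_lit 0x17a06c0)) e)) (c (c (p (nat_lit 0xa6302c))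
  e) e)) (c (c (c (p (nat_lit 0xc0bec8)) e) e) e)) e) e)) (c (c (c (c (c (c (p (nat_lit 0x3b4f2c4)) (c (m
  (nat_lit 0x3d28c34)) e)) (c (c (p (nat_lit 0x178dc28)) e) e)) (c (c (c (m (nat_lit 0x110afcc)) e) e) e)) e)
  e) e))) (c (c (c (c (c (c (c (m (nat_lit 0x14892d0e)) (c (p (nat_lit 0x4a4e580)) (c (m (nat_lit 0xda8ddc))
  e))) (c (c (m (nat_lit 0x7a8b528)) (c (m (nat_lit 0x1279b18)) e)) (c (c (m (nat_lit 0x12e658)) e) e))) (c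
  (c (c (p (nat_lit 0xa7f6616)) (c (m (nat_lit 0x1b1e18c)) e)) (c (c (p (nat_lit 0x1331b8c)) e) e)) (c (c (c
  (p (nat_lit 0x96b430)) e) e) e))) (c (c (c (c (m (nat_lit 0xf32d654)) (c (p (nat_lit 0x4be9352)) e)) (c (c
  (m (nat_lit 0x357b6e2)) e) e)) (c (c (c (p (nat_lit 0x5872e48)) e) e) e)) (c (c (c (c (m (nat_lit
  0x24153a8)) e) e) e) e))) (c (c (c (c (c (m (nat_lit 0x1f4b60e)) (c (p (nat_lit 0x469c1b2)) e)) (c (c (p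
  (nat_lit 0x4718256)) e) e)) (c (c (c (m (nat_lit 0x9bd720)) e) e) e)) (c (c (c (c (p (nat_lit 0x2178f18))
  e) e) e) e)) (c (c (c (c (c (m (nat_lit 0xe5d040)) e) e) e) e) e))) (c (c (c (c (c (c (m (nat_lit
  0x8485ed2)) (c (p (nat_lit 0x3044184)) e)) (c (c (p (nat_lit 0x220c76a)) e) e)) (c (c (c (m (nat_lit
  0x1ba4826)) e) e) e)) (c (c (c (c (m (nat_lit 0x6e08e0)) e) e) e) e)) (c (c (c (c (c (m (nat_lit
  0x181df94)) e) e) e) e) e)) (c (c (c (c (c (c (p (nat_lit 0x2cceef0)) e) e) e) e) e) e))) (c (c (c (c (c (c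
  (c (p (nat_lit 0x191bbb28)) (c (m (nat_lit 0x2f32a2e)) e)) (c (c (p (nat_lit 0x17ee1c2)) e) e)) (c (c (c (m
  (nat_lit 0x428d7ce)) e) e) e)) (c (c (c (c (p (nat_lit 0x74c3c22)) e) e) e) e)) (c (c (c (c (c (m (nat_lit
  0x152dde0)) e) e) e) e) e)) (c (c (c (c (c (c (p (nat_lit 0x12ec9a6)) e) e) e) e) e) e)) (c (c (c (c (c (c
  (c (m (nat_lit 0x4a99670)) e) e) e) e) e) e) e)))) (c (c (c (c (c (c (c (c (m (nat_lit 0xfb5e29a)) (c (p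
  (nat_lit 0x7e5a07e)) (c (m (nat_lit 0x1eca8fc)) e))) (c (c (m (nat_lit 0x5c42b26)) (c (m (nat_lit
  0x6fc420)) e)) (c (c (m (nat_lit 0x2f17f8)) e) e))) (c (c (c (p (nat_lit 0x5893314)) (c (p (nat_lit
  0x1a88684)) e)) (c (c (p (nat_lit 0x147b6ac)) e) e)) (c (c (c (p (nat_lit 0x1cf990e)) e) e) e))) (c (c (c
  (c (m (nat_lit 0x916fe96)) (c (p (nat_lit 0x3c85356)) e)) (c (c (m (nat_lit 0xe335ec)) e) e)) (c (c (c (p
  (nat_lit 0x8fdc012)) e) e) e)) (c (c (c (c (p (nat_lit 0x1efe88)) e) e) e) e))) (c (c (c (c (c (m (nat_lit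
  0x8c748de)) (c (p (nat_lit 0x718fc44)) e)) (c (c (p (nat_lit 0x62580d8)) e) e)) (c (c (c (m (nat_lit
  0x40718a)) e) e) e)) (c (c (c (c (m (nat_lit 0x584364)) e) e) e) e)) (c (c (c (c (c (m (nat_lit 0x4a284b0))
  e) e) e) e) e))) (c (c (c (c (c (c (p (nat_lit 0x6449826)) (c (m (nat_lit 0x2c308f2)) e)) (c (c (p (nat_lit
  0x3ca05f6)) e) e)) (c (c (c (m (nat_lit 0x18b931c)) e) e) e)) (c (c (c (c (m (nat_lit 0x2f56f20)) e) e) e)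
  e)) (c (c (c (c (c (m (nat_lit 0xbcdab0)) e) e) e) e) e)) (c (c (c (c (c (c (m (nat_lit 0x2c8b498)) e) e)
  e) e) e) e))) (c (c (c (c (c (c (c (p (nat_lit 0xcb2acf4)) (c (m (nat_lit 0x42ab16e)) e)) (c (c (p (nat_lit
  0x5abbec6)) e) e)) (c (c (c (m (nat_lit 0x2b9969e)) e) e) e)) (c (c (c (c (p (nat_lit 0x290f424)) e) e) e)
  e)) (c (c (c (c (c (p (nat_lit 0x228588)) e) e) e) e) e)) (c (c (c (c (c (c (p (nat_lit 0x27019e0)) e) e)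
  e) e) e) e)) (c (c (c (c (c (c (c (m (nat_lit 0x9b7851a)) e) e) e) e) e) e) e))) (c (c (c (c (c (c (c (c (p
  (nat_lit 0xcd7aeee)) (c (m (nat_lit 0x335d684)) e)) (c (c (m (nat_lit 0x2c23d8e)) e) e)) (c (c (c (m
  (nat_lit 0x6e6e314)) e) e) e)) (c (c (c (c (p (nat_lit 0x5c8a40)) e) e) e) e)) (c (c (c (c (c (p (nat_lit
  0x728b464)) e) e) e) e) e)) (c (c (c (c (c (c (m (nat_lit 0xd98a7a)) e) e) e) e) e) e)) (c (c (c (c (c (c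
  (c (m (nat_lit 0x5b0bb4)) e) e) e) e) e) e) e)) (c (c (c (c (c (c (c (c (m (nat_lit 0x338d186)) e) e) e) e)
  e) e) e) e))))) (c (c (c (c (c (c (c (c (c (p (nat_lit 0x4090b6c)) (c (p (nat_lit 0x4f3686c)) (c (m
  (nat_lit 0x39ad8bc)) e))) (c (c (m (nat_lit 0x6a27890)) (c (p (nat_lit 0x147120c)) e)) (c (c (p (nat_lit
  0x380ac60)) e) e))) (c (c (c (p (nat_lit 0x75c0c12)) (c (m (nat_lit 0x2d36300)) e)) (c (c (m (nat_lit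
  0x263d7bc)) e) e)) (c (c (c (m (nat_lit 0x7839cae)) e) e) e))) (c (c (c (c (m (nat_lit 0x12132780)) (c (m
  (nat_lit 0x520f5b4)) (c (p (nat_lit 0x34ac5e0)) e))) (c (c (p (nat_lit 0x262e18c)) (c (m (nat_lit
  0x687300)) e)) (c (c (m (nat_lit 0x1482b88)) e) e))) (c (c (c (p (nat_lit 0x8fb6284)) (c (m (nat_lit
  0x12252a8)) e)) (c (c (p (nat_lit 0x326a9c)) e) e)) (c (c (c (m (nat_lit 0x3a4ddb0)) e) e) e))) (c (c (c (c
  (p (nat_lit 0xa485a98)) (c (p (nat_lit 0x1cdd0c0)) e)) (c (c (m (nat_lit 0x15f1aa0)) e) e)) (c (c (c (m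
  (nat_lit 0x4f54c8)) e) e) e)) e))) (c (c (c (c (c (m (nat_lit 0x103c296)) (c (m (nat_lit 0x29e7cf4)) (c (m
  (nat_lit 0x69c270)) e))) (c (c (m (nat_lit 0x6bcd33c)) (c (p (nat_lit 0xca9ca4)) e)) (c (c (p (nat_lit
  0x164a138)) e) e))) (c (c (c (m (nat_lit 0x83246a6)) (c (p (nat_lit 0x238302c)) e)) (c (c (p (nat_lit
  0x3958e00)) e) e)) (c (c (c (p (nat_lit 0x3ac8444)) e) e) e))) (c (c (c (c (m (nat_lit 0x16ab608)) (c (p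
  (nat_lit 0x1aae3d0)) e)) (c (c (p (nat_lit 0x14c8c08)) e) e)) (c (c (c (p (nat_lit 0x11cbdac)) e) e) e))
  e)) (c (c (c (c (c (p (nat_lit 0x2099760)) (c (p (nat_lit 0x72120)) e)) (c (c (p (nat_lit 0x10fe3a8)) e)
  e)) (c (c (c (p (nat_lit 0x2609940)) e) e) e)) e) e))) (c (c (c (c (c (c (m (nat_lit 0x97874b2)) (c (m
  (nat_lit 0x6fd119c)) (c (p (nat_lit 0x25d6958)) e))) (c (c (p (nat_lit 0xa19b9e0)) (c (p (nat_lit
  0x799758)) e)) (c (c (m (nat_lit 0x1e39384)) e) e))) (c (c (c (p (nat_lit 0x58f437c)) (c (m (nat_lit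
  0x5a9ad4)) e)) (c (c (m (nat_lit 0x1b1d1d8)) e) e)) (c (c (c (m (nat_lit 0x340b576)) e) e) e))) (c (c (c (c
  (p (nat_lit 0x892578)) (c (p (nat_lit 0xa62f3c)) e)) (c (c (m (nat_lit 0x17a0708)) e) e)) (c (c (c (p
  (nat_lit 0xc0be50)) e) e) e)) e)) (c (c (c (c (c (p (nat_lit 0x7d1e274)) (c (p (nat_lit 0x145b144)) e)) (c
  (c (m (nat_lit 0x2679960)) e) e)) (c (c (c (p (nat_lit 0x16da558)) e) e) e)) e) e)) (c (c (c (c (c (c (p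
  (nat_lit 0x3b4f0b4)) (c (p (nat_lit 0x178db14)) e)) (c (c (m (nat_lit 0x3d28cb8)) e) e)) (c (c (c (m
  (nat_lit 0x110b02c)) e) e) e)) e) e) e))) (c (c (c (c (c (c (c (m (nat_lit 0x5ad0b5a)) (c (p (nat_lit
  0x4bc1782)) (c (m (nat_lit 0x12e760)) e))) (c (c (p (nat_lit 0x211adb4)) (c (m (nat_lit 0x1279b18)) e)) (c
  (c (m (nat_lit 0xda8d58)) e) e))) (c (c (c (p (nat_lit 0x31dd3ea)) (c (p (nat_lit 0x1331b38)) e)) (c (c (m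
  (nat_lit 0x1b1e1a4)) e) e)) (c (c (c (p (nat_lit 0x96b892)) e) e) e))) (c (c (c (c (m (nat_lit 0x54547b0))
  (c (p (nat_lit 0x4f00494)) e)) (c (c (p (nat_lit 0x32f8998)) e) e)) (c (c (c (m (nat_lit 0xdfc80c)) e) e)
  e)) (c (c (c (c (m (nat_lit 0xe5cf20)) e) e) e) e))) (c (c (c (c (c (p (nat_lit 0x810d3b6)) (c (m (nat_lit
  0x2103804)) e)) (c (c (p (nat_lit 0x188a15c)) e) e)) (c (c (c (m (nat_lit 0x1daf534)) e) e) e)) (c (c (c (c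
  (p (nat_lit 0x2179014)) e) e) e) e)) (c (c (c (c (c (m (nat_lit 0x2415330)) e) e) e) e) e))) (c (c (c (c (c
  (c (m (nat_lit 0x71840a0)) (c (p (nat_lit 0x1af9c94)) e)) (c (c (p (nat_lit 0x36f5694)) e) e)) (c (c (c (m
  (nat_lit 0x2ee9414)) e) e) e)) (c (c (c (c (m (nat_lit 0x181df34)) e) e) e) e)) (c (c (c (c (c (m (nat_lit
  0x6e08d4)) e) e) e) e) e)) (c (c (c (c (c (c (p (nat_lit 0x2ccef44)) e) e) e) e) e) e))) (c (c (c (c (c (c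
  (c (p (nat_lit 0x4735a8e)) (c (m (nat_lit 0x1838742)) e)) (c (c (m (nat_lit 0x1c0230)) e) e)) (c (c (c (m
  (nat_lit 0x4060ea2)) e) e) e)) (c (c (c (c (m (nat_lit 0x5b1ff4)) e) e) e) e)) (c (c (c (c (c (m (nat_lit
  0x1ff6d2e)) e) e) e) e) e)) (c (c (c (c (c (c (m (nat_lit 0x9e4168)) e) e) e) e) e) e)) (c (c (c (c (c (c
  (c (m (nat_lit 0x1ec0d4a)) e) e) e) e) e) e) e)))) (c (c (c (c (c (c (c (c (m (nat_lit 0x5a6b04c)) (c (m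
  (nat_lit 0x1442f6a)) (c (p (nat_lit 0x13579c8)) e))) (c (c (m (nat_lit 0x4682994)) (c (m (nat_lit
  0x89edb8)) e)) (c (c (p (nat_lit 0x1357a10)) e) e))) (c (c (c (m (nat_lit 0xc16af3a)) (c (p (nat_lit
  0xbef980)) e)) (c (c (p (nat_lit 0xbefa10)) e) e)) (c (c (c (p (nat_lit 0x598fc7a)) e) e) e))) (c (c (c (c
  (p (nat_lit 0x1788854a)) (c (m (nat_lit 0x1e224f4)) e)) (c (c (p (nat_lit 0xf3ae30)) e) e)) (c (c (c (p
  (nat_lit 0x7888e0)) e) e) e)) (c (c (c (c (m (nat_lit 0x4808028)) e) e) e) e))) (c (c (c (c (c (p (nat_lit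
  0x18ace906)) (c (p (nat_lit 0xf3ad94)) e)) (c (c (m (nat_lit 0x1e224e8)) e) e)) (c (c (c (p (nat_lit
  0x7888f8)) e) e) e)) (c (c (c (c (m (nat_lit 0x29ac750)) e) e) e) e)) (c (c (c (c (c (m (nat_lit
  0x4807f08)) e) e) e) e) e))) (c (c (c (c (c (c (p (nat_lit 0x3f3982e)) (c (p (nat_lit 0x27a54b0)) e)) (c (c
  (p (nat_lit 0x27a54ec)) e) e)) (c (c (c (p (nat_lit 0x216ee8c)) e) e) e)) (c (c (c (c (m (nat_lit
  0x32df714)) e) e) e) e)) (c (c (c (c (c (m (nat_lit 0x32df6e4)) e) e) e) e) e)) (c (c (c (c (c (c (m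
  (nat_lit 0x41e9590)) e) e) e) e) e) e))) (c (c (c (c (c (c (c (m (nat_lit 0xaac0298)) (c (p (nat_lit
  0x1fc4be0)) e)) (c (c (p (nat_lit 0x13c936e)) e) e)) (c (c (c (m (nat_lit 0xc5d7c2)) e) e) e)) (c (c (c (c
  (p (nat_lit 0x25ba758)) e) e) e) e)) (c (c (c (c (c (p (nat_lit 0x2a136e)) e) e) e) e) e)) (c (c (c (c (c
  (c (p (nat_lit 0x3c1c8c6)) e) e) e) e) e) e)) (c (c (c (c (c (c (c (m (nat_lit 0x5337024)) e) e) e) e) e)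
  e) e))) (c (c (c (c (c (c (c (c (m (nat_lit 0x3e1f3a2)) (c (m (nat_lit 0xb52ada)) e)) (c (c (p (nat_lit
  0x4ecbf22)) e) e)) (c (c (c (p (nat_lit 0x39fa656)) e) e) e)) (c (c (c (c (m (nat_lit 0x6d9225e)) e) e) e)
  e)) (c (c (c (c (c (m (nat_lit 0x7a62200)) e) e) e) e) e)) (c (c (c (c (c (c (p (nat_lit 0x2d38550)) e) e)
  e) e) e) e)) (c (c (c (c (c (c (c (p (nat_lit 0x2a2dd2)) e) e) e) e) e) e) e)) (c (c (c (c (c (c (c (c (p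
  (nat_lit 0x265c41c)) e) e) e) e) e) e) e) e)))) (c (c (c (c (c (c (c (c (c (p (nat_lit 0xfbd972)) (c (p
  (nat_lit 0x52c3e48)) (c (m (nat_lit 0x2f172c)) e))) (c (c (p (nat_lit 0x24577f8)) (c (m (nat_lit 0x6fc474))
  e)) (c (c (m (nat_lit 0x1eca9d4)) e) e))) (c (c (c (p (nat_lit 0x1c3e972)) (c (p (nat_lit 0x147b718)) e))
  (c (c (p (nat_lit 0x1a8872c)) e) e)) (c (c (c (p (nat_lit 0x1cf9c14)) e) e) e))) (c (c (c (c (p (nat_lit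
  0x34de44c)) (c (m (nat_lit 0x146bc8c)) e)) (c (c (p (nat_lit 0x26b920)) e) e)) (c (c (c (m (nat_lit
  0x6a60a34)) e) e) e)) (c (c (c (c (m (nat_lit 0x4a284e0)) e) e) e) e))) (c (c (c (c (c (p (nat_lit
  0x2a37908)) (c (m (nat_lit 0x3a7eb0)) e)) (c (c (p (nat_lit 0x1390e18)) e) e)) (c (c (c (m (nat_lit
  0x2102178)) e) e) e)) (c (c (c (c (m (nat_lit 0x584418)) e) e) e) e)) (c (c (c (c (c (p (nat_lit 0x1efe40))
  e) e) e) e) e))) (c (c (c (c (c (c (p (nat_lit 0x66ae504)) (c (m (nat_lit 0x183cba0)) e)) (c (c (m (nat_lit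
  0x72e220)) e) e)) (c (c (c (m (nat_lit 0x29a486c)) e) e) e)) (c (c (c (c (m (nat_lit 0xbcda98)) e) e) e)
  e)) (c (c (c (c (c (m (nat_lit 0x2f56ea8)) e) e) e) e) e)) (c (c (c (c (c (c (m (nat_lit 0x2c8b468)) e) e)
  e) e) e) e))) (c (c (c (c (c (c (c (m (nat_lit 0x1bd60c2)) (c (m (nat_lit 0x3b4e784)) e)) (c (c (m (nat_lit
  0x31c3320)) e) e)) (c (c (c (p (nat_lit 0x54d18d4)) e) e) e)) (c (c (c (c (p (nat_lit 0x2fa00b4)) e) e) e)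
  e)) (c (c (c (c (c (m (nat_lit 0x4359d8c)) e) e) e) e) e)) (c (c (c (c (c (c (p (nat_lit 0x3d88bc8)) e) e)
  e) e) e) e)) (c (c (c (c (c (c (c (p (nat_lit 0x735062a)) e) e) e) e) e) e) e))) (c (c (c (c (c (c (c (c (p
  (nat_lit 0x7e3d26)) (c (p (nat_lit 0x118fcbc)) e)) (c (c (m (nat_lit 0xa53b70)) e) e)) (c (c (c (p (nat_lit
  0xa37d9c)) e) e) e)) (c (c (c (c (m (nat_lit 0x9185c4)) e) e) e) e)) (c (c (c (c (c (p (nat_lit 0x148a868))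
  e) e) e) e) e)) (c (c (c (c (c (c (m (nat_lit 0x96e154)) e) e) e) e) e) e)) (c (c (c (c (c (c (c (p
  (nat_lit 0x354c44a)) e) e) e) e) e) e) e)) (c (c (c (c (c (c (c (c (m (nat_lit 0x50fb9f8)) e) e) e) e) e)
  e) e) e))) (c (c (c (c (c (c (c (c (c (m (nat_lit 0x8010a80)) (c (m (nat_lit 0x233c280)) e)) (c (c (p
  (nat_lit 0x10ce5c4)) e) e)) (c (c (c (p (nat_lit 0x1d9ef5c)) e) e) e)) (c (c (c (c (p (nat_lit 0x217e6a8))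
  e) e) e) e)) (c (c (c (c (c (m (nat_lit 0xc31b18)) e) e) e) e) e)) (c (c (c (c (c (c (m (nat_lit 0x237ab0))
  e) e) e) e) e) e)) (c (c (c (c (c (c (c (m (nat_lit 0x14ad1f4)) e) e) e) e) e) e) e)) (c (c (c (c (c (c (c
  (c (p (nat_lit 0xa1dc6c)) e) e) e) e) e) e) e) e)) (c (c (c (c (c (c (c (c (c (p (nat_lit 0x3351d80)) e) e)
  e) e) e) e) e) e) e)))))

noncomputable def gt_1_3_5 : Tr :=
  (c (c (c (c (c (c (c (c (c (m (nat_lit 0x33bfed4)) (c (p (nat_lit 0xc90ed6c)) (c (m (nat_lit 0x23452b0))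
  e))) (c (c (p (nat_lit 0x963ff24)) (c (m (nat_lit 0x4246c2c)) e)) (c (c (m (nat_lit 0x4cde644)) e) e))) (c
  (c (c (m (nat_lit 0xa69a4d8)) (c (p (nat_lit 0x1e06b4)) e)) (c (c (p (nat_lit 0xbd5fa0)) e) e)) (c (c (c (p
  (nat_lit 0x6631ab8)) e) e) e))) (c (c (c (c (p (nat_lit 0x211fc20)) (c (m (nat_lit 0xab0ecd0)) (c (p
  (nat_lit 0x8b07a0)) e))) (c (c (m (nat_lit 0xcd4cb68)) (c (p (nat_lit 0x1db638)) e)) (c (c (p (nat_lit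
  0xae5c928)) e) e))) (c (c (c (p (nat_lit 0x11ae4330)) (c (p (nat_lit 0x180df8)) e)) (c (c (m (nat_lit
  0x4f90260)) e) e)) (c (c (c (m (nat_lit 0x87554a0)) e) e) e))) (c (c (c (c (m (nat_lit 0xcea060)) (c (p
  (nat_lit 0x6fa4838)) (c (m (nat_lit 0x14fe398)) e))) (c (c (p (nat_lit 0x4978c98)) (c (m (nat_lit
  0x166a5e0)) e)) (c (c (m (nat_lit 0x22f3b00)) e) e))) (c (c (c (m (nat_lit 0x4d94dc8)) (c (m (nat_lit
  0x30231d8)) e)) (c (c (p (nat_lit 0x276b2b0)) e) e)) (c (c (c (m (nat_lit 0x753a08)) e) e) e))) e))) (c (c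
  (c (c (c (m (nat_lit 0x31304b8)) (c (m (nat_lit 0xf6a1808)) (c (p (nat_lit 0x23e6878)) e))) (c (c (p
  (nat_lit 0x56e2858)) (c (p (nat_lit 0x1d23098)) e)) (c (c (p (nat_lit 0x3aea188)) e) e))) (c (c (c (p
  (nat_lit 0x1b416010)) (c (m (nat_lit 0xa25cd0)) e)) (c (c (m (nat_lit 0x3427b18)) e) e)) (c (c (c (m
  (nat_lit 0xf576978)) e) e) e))) (c (c (c (c (m (nat_lit 0x526e24)) (c (m (nat_lit 0x2fb1010)) (c (p
  (nat_lit 0x10d1714)) e))) (c (c (m (nat_lit 0x162d458)) (c (m (nat_lit 0x9a92c0)) e)) (c (c (p (nat_lit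
  0x225c564)) e) e))) (c (c (c (p (nat_lit 0x4ebe338)) (c (p (nat_lit 0xdc1cb8)) e)) (c (c (m (nat_lit
  0x554dc0)) e) e)) (c (c (c (m (nat_lit 0x1e00408)) e) e) e))) e)) (c (c (c (c (c (p (nat_lit 0x4c2fc0)) (c
  (p (nat_lit 0xb6362c8)) (c (m (nat_lit 0x13e9eb8)) e))) (c (c (p (nat_lit 0x4673e68)) (c (m (nat_lit
  0x27accc8)) e)) (c (c (m (nat_lit 0x4658880)) e) e))) (c (c (c (m (nat_lit 0x1698ad58)) (c (p (nat_lit
  0x17baa00)) e)) (c (c (p (nat_lit 0xf3e898)) e) e)) (c (c (c (p (nat_lit 0xc21a860)) e) e) e))) e) e))) (c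
  (c (c (c (c (c (m (nat_lit 0x18d704)) (c (m (nat_lit 0x32125a4)) (c (m (nat_lit 0x36fea9c)) e))) (c (c (m
  (nat_lit 0x1d30f1c)) (c (m (nat_lit 0x4488750)) e)) (c (c (p (nat_lit 0x5abc94)) e) e))) (c (c (c (p
  (nat_lit 0x681ede4)) (c (m (nat_lit 0x99c48)) e)) (c (c (p (nat_lit 0x4f4d9c)) e) e)) (c (c (c (p (nat_lit
  0x377abb8)) e) e) e))) (c (c (c (c (p (nat_lit 0x1a44374)) (c (p (nat_lit 0x217deec)) (c (m (nat_lit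
  0x7ac40)) e))) (c (c (m (nat_lit 0x3b763d8)) (c (m (nat_lit 0x14143c8)) e)) (c (c (p (nat_lit 0x2cee570))
  e) e))) (c (c (c (m (nat_lit 0x4463d9c)) (c (m (nat_lit 0x50aca8)) e)) (c (c (p (nat_lit 0x1e6e9d0)) e) e))
  (c (c (c (p (nat_lit 0x3f4a64)) e) e) e))) e)) (c (c (c (c (c (m (nat_lit 0x17e3c20)) (c (p (nat_lit
  0x17b41f0)) (c (p (nat_lit 0x1285248)) e))) (c (c (p (nat_lit 0x4fa58b4)) (c (p (nat_lit 0x161fe50)) e)) (c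
  (c (m (nat_lit 0x1291d34)) e) e))) (c (c (c (m (nat_lit 0x1656de0)) (c (m (nat_lit 0x170190)) e)) (c (c (m
  (nat_lit 0x239049c)) e) e)) (c (c (c (m (nat_lit 0x1be0d18)) e) e) e))) e) e)) (c (c (c (c (c (c (m
  (nat_lit 0xade974)) (c (m (nat_lit 0x55ec18)) (c (p (nat_lit 0x1652c58)) e))) (c (c (p (nat_lit 0x155ee18))
  (c (p (nat_lit 0x2cafffc)) e)) (c (c (m (nat_lit 0x6f3d08)) e) e))) (c (c (c (p (nat_lit 0x21efbec)) (c (m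
  (nat_lit 0x4e630c)) e)) (c (c (m (nat_lit 0x379bfc)) e) e)) (c (c (c (m (nat_lit 0x49a52b4)) e) e) e))) e)
  e) e))) (c (c (c (c (c (c (c (p (nat_lit 0xad7c8fa)) (c (m (nat_lit 0x63e93a6)) (c (p (nat_lit 0x5055e7c))
  e))) (c (c (m (nat_lit 0xae9795c)) (c (p (nat_lit 0x674e950)) e)) (c (c (m (nat_lit 0x105d8d8)) e) e))) (c
  (c (c (m (nat_lit 0x16886e1a)) (c (m (nat_lit 0x22f0b78)) e)) (c (c (m (nat_lit 0x2feb0c)) e) e)) (c (c (c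
  (m (nat_lit 0x1bbab70)) e) e) e))) (c (c (c (c (m (nat_lit 0xaa4282c)) (c (p (nat_lit 0x971be72)) (c (m
  (nat_lit 0x1cd2da0)) e))) (c (c (m (nat_lit 0x253511a)) (c (m (nat_lit 0x1b71964)) e)) (c (c (m (nat_lit
  0x1d124cc)) e) e))) (c (c (c (m (nat_lit 0x2bc1940)) (c (p (nat_lit 0x236e44)) e)) (c (c (p (nat_lit
  0x3b8a094)) e) e)) (c (c (c (p (nat_lit 0x8019900)) e) e) e))) (c (c (c (c (p (nat_lit 0x325ccb0)) (c (m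
  (nat_lit 0x2b20a80)) e)) (c (c (m (nat_lit 0x1cdb110)) e) e)) (c (c (c (p (nat_lit 0x29c4240)) e) e) e))
  e))) (c (c (c (c (c (m (nat_lit 0x2db7bac)) (c (p (nat_lit 0x746da1a)) (c (m (nat_lit 0x1c60980)) e))) (c
  (c (p (nat_lit 0x6b4a3ec)) (c (m (nat_lit 0x2936d3c)) e)) (c (c (m (nat_lit 0x3ad5f50)) e) e))) (c (c (c (p
  (nat_lit 0xeda5474)) (c (p (nat_lit 0xaaf370)) e)) (c (c (m (nat_lit 0x19f4f34)) e) e)) (c (c (c (p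
  (nat_lit 0x28079d0)) e) e) e))) (c (c (c (c (p (nat_lit 0x3a0c80)) (c (p (nat_lit 0x105bc58)) e)) (c (c (m
  (nat_lit 0x20b3a34)) e) e)) (c (c (c (m (nat_lit 0x3564c18)) e) e) e)) e)) (c (c (c (c (c (m (nat_lit
  0x1352ca0)) (c (m (nat_lit 0x2068ba8)) e)) (c (c (p (nat_lit 0x1a8e600)) e) e)) (c (c (c (p (nat_lit
  0x17b2ea0)) e) e) e)) e) e))) (c (c (c (c (c (c (p (nat_lit 0x22379a9c)) (c (m (nat_lit 0x54928f8)) (c (m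
  (nat_lit 0x1a7c4c8)) e))) (c (c (m (nat_lit 0xb932e1e)) (c (p (nat_lit 0xabb3c4)) e)) (c (c (p (nat_lit
  0xfb3124)) e) e))) (c (c (c (m (nat_lit 0x21b896e)) (c (p (nat_lit 0x1b4ef24)) e)) (c (c (p (nat_lit
  0x1e7fb54)) e) e)) (c (c (c (p (nat_lit 0x3427a64)) e) e) e))) (c (c (c (c (m (nat_lit 0xae84378)) (c (p
  (nat_lit 0xeeec0)) e)) (c (c (p (nat_lit 0x2a02928)) e) e)) (c (c (c (p (nat_lit 0x3722934)) e) e) e)) e))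
  (c (c (c (c (c (m (nat_lit 0x2876718)) (c (m (nat_lit 0x562968)) e)) (c (c (m (nat_lit 0x46de08)) e) e)) (c
  (c (c (p (nat_lit 0x1ad99b4)) e) e) e)) e) e)) (c (c (c (c (c (c (m (nat_lit 0x8bb1d94)) (c (m (nat_lit
  0x5dbd84)) e)) (c (c (p (nat_lit 0x2217534)) e) e)) (c (c (c (p (nat_lit 0x466e8d0)) e) e) e)) e) e) e)))
  (c (c (c (c (c (c (c (m (nat_lit 0x2af09ed0)) (c (p (nat_lit 0x1699c38)) (c (m (nat_lit 0xe12628)) e))) (c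
  (c (p (nat_lit 0xc61d4a2)) (c (p (nat_lit 0x4788e4)) e)) (c (c (p (nat_lit 0x42bfa24)) e) e))) (c (c (c (p
  (nat_lit 0x1d16ecb8)) (c (p (nat_lit 0x23663d0)) e)) (c (c (m (nat_lit 0xe0283c)) e) e)) (c (c (c (m
  (nat_lit 0x63a4724)) e) e) e))) (c (c (c (c (p (nat_lit 0xbffcdde)) (c (p (nat_lit 0x163f1ca)) e)) (c (c (p
  (nat_lit 0x59dc19e)) e) e)) (c (c (c (m (nat_lit 0x8c0ff88)) e) e) e)) (c (c (c (c (p (nat_lit 0x196cec0))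
  e) e) e) e))) (c (c (c (c (c (p (nat_lit 0x17bf9b5a)) (c (m (nat_lit 0x3ad9e02)) e)) (c (c (m (nat_lit
  0x7db8c84)) e) e)) (c (c (c (m (nat_lit 0xcf1faac)) e) e) e)) (c (c (c (c (m (nat_lit 0x267b5bc)) e) e) e)
  e)) (c (c (c (c (c (p (nat_lit 0x356ae28)) e) e) e) e) e))) (c (c (c (c (c (c (m (nat_lit 0x1af2170c)) (c
  (p (nat_lit 0x2613804)) e)) (c (c (m (nat_lit 0x15a50a2)) e) e)) (c (c (c (m (nat_lit 0x5cf521e)) e) e) e))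
  (c (c (c (c (p (nat_lit 0x5cd5784)) e) e) e) e)) (c (c (c (c (c (p (nat_lit 0x3d5e574)) e) e) e) e) e)) (c
  (c (c (c (c (c (p (nat_lit 0x9fadb50)) e) e) e) e) e) e))) (c (c (c (c (c (c (c (p (nat_lit 0x14650c2c)) (c
  (m (nat_lit 0x3f88692)) e)) (c (c (m (nat_lit 0x5008026)) e) e)) (c (c (c (p (nat_lit 0x1bd0f32)) e) e) e))
  (c (c (c (c (m (nat_lit 0xb5421d6)) e) e) e) e)) (c (c (c (c (c (m (nat_lit 0xfd35dc2)) e) e) e) e) e)) (c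
  (c (c (c (c (c (p (nat_lit 0x1b98d54)) e) e) e) e) e) e)) (c (c (c (c (c (c (c (p (nat_lit 0x8522346)) e)
  e) e) e) e) e) e))))) (c (c (c (c (c (c (c (c (p (nat_lit 0x278aff6)) (c (m (nat_lit 0x8482e6c)) (c (p
  (nat_lit 0x2fd2694)) e))) (c (c (p (nat_lit 0x158102b8)) (c (p (nat_lit 0x4be8314)) e)) (c (c (m (nat_lit
  0x6e6d228)) e) e))) (c (c (c (m (nat_lit 0x4b71c94)) (c (p (nat_lit 0xec985c)) e)) (c (c (m (nat_lit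
  0x7f5ac8)) e) e)) (c (c (c (p (nat_lit 0xa7c100)) e) e) e))) (c (c (c (c (m (nat_lit 0x831bbe6)) (c (p
  (nat_lit 0x244c3e0)) (c (m (nat_lit 0x1a1f834)) e))) (c (c (p (nat_lit 0x6b41f7a)) (c (p (nat_lit
  0x1217508)) e)) (c (c (m (nat_lit 0x5e165ec)) e) e))) (c (c (c (m (nat_lit 0x12b1ce76)) (c (m (nat_lit
  0xb479f8)) e)) (c (c (p (nat_lit 0x1984e3c)) e) e)) (c (c (c (p (nat_lit 0x3e913c0)) e) e) e))) (c (c (c (c
  (m (nat_lit 0x1fa1e40)) (c (m (nat_lit 0x3678708)) e)) (c (c (p (nat_lit 0x2638f8)) e) e)) (c (c (c (p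
  (nat_lit 0xa6c560)) e) e) e)) e))) (c (c (c (c (c (p (nat_lit 0x136421b2)) (c (m (nat_lit 0x1ab3cb0)) (c (m
  (nat_lit 0x95400)) e))) (c (c (m (nat_lit 0x121040dc)) (c (p (nat_lit 0x17c3c58)) e)) (c (c (p (nat_lit
  0x8d0af8)) e) e))) (c (c (c (p (nat_lit 0x5fa7ce6)) (c (m (nat_lit 0x10bfc6c)) e)) (c (c (m (nat_lit
  0x147228)) e) e)) (c (c (c (m (nat_lit 0x5c184d8)) e) e) e))) (c (c (c (c (p (nat_lit 0xd7b80c)) (c (p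
  (nat_lit 0xffbd6c)) e)) (c (c (p (nat_lit 0xa4118)) e) e)) (c (c (c (p (nat_lit 0x5ad4c4)) e) e) e)) e)) (c
  (c (c (c (c (m (nat_lit 0x10df868)) (c (m (nat_lit 0x4c51ab8)) e)) (c (c (p (nat_lit 0x183b460)) e) e)) (c
  (c (c (p (nat_lit 0x2cd4470)) e) e) e)) e) e))) (c (c (c (c (c (c (m (nat_lit 0x7367844)) (c (p (nat_lit
  0x4d604f0)) (c (p (nat_lit 0x42a6f8)) e))) (c (c (m (nat_lit 0x13c5e55c)) (c (p (nat_lit 0x2304dc8)) e)) (c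
  (c (p (nat_lit 0x15ae774)) e) e))) (c (c (c (m (nat_lit 0x172b4e)) (c (m (nat_lit 0xb6aff0)) e)) (c (c (p
  (nat_lit 0xc4dfdc)) e) e)) (c (c (c (m (nat_lit 0x23dc030)) e) e) e))) (c (c (c (c (p (nat_lit 0x53f190))
  (c (p (nat_lit 0x6619c8)) e)) (c (c (p (nat_lit 0xa34f94)) e) e)) (c (c (c (p (nat_lit 0x3ac6d58)) e) e)
  e)) e)) (c (c (c (c (c (p (nat_lit 0xc0daac)) (c (m (nat_lit 0x1df39dc)) e)) (c (c (p (nat_lit 0x2e5fde0))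
  e) e)) (c (c (c (p (nat_lit 0x70f770)) e) e) e)) e) e)) (c (c (c (c (c (c (p (nat_lit 0x5cacc60)) (c (m
  (nat_lit 0x1cbf5c4)) e)) (c (c (p (nat_lit 0x1808988)) e) e)) (c (c (c (m (nat_lit 0xb83860)) e) e) e)) e)
  e) e))) (c (c (c (c (c (c (c (m (nat_lit 0x103b658e)) (c (p (nat_lit 0x28a153a)) (c (m (nat_lit 0x54e094))
  e))) (c (c (m (nat_lit 0x1c06fb6)) (c (m (nat_lit 0x349a394)) e)) (c (c (p (nat_lit 0x192c834)) e) e))) (c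
  (c (c (p (nat_lit 0x2a14304)) (c (m (nat_lit 0x214230)) e)) (c (c (p (nat_lit 0x1b8dba0)) e) e)) (c (c (c
  (p (nat_lit 0x43e9a68)) e) e) e))) (c (c (c (c (p (nat_lit 0xfda0712)) (c (m (nat_lit 0x236563e)) e)) (c (c
  (m (nat_lit 0x4fcacac)) e) e)) (c (c (c (p (nat_lit 0x282bc04)) e) e) e)) (c (c (c (c (m (nat_lit
  0x1069e78)) e) e) e) e))) (c (c (c (c (c (m (nat_lit 0xb717094)) (c (p (nat_lit 0x3c6b1de)) e)) (c (c (p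
  (nat_lit 0x35ed880)) e) e)) (c (c (c (m (nat_lit 0x8841c6)) e) e) e)) (c (c (c (c (p (nat_lit 0x10cd280))
  e) e) e) e)) (c (c (c (c (c (m (nat_lit 0x38a1b78)) e) e) e) e) e))) (c (c (c (c (c (c (p (nat_lit
  0x466a256)) (c (p (nat_lit 0x3b6c628)) e)) (c (c (m (nat_lit 0x317c73c)) e) e)) (c (c (c (m (nat_lit
  0x2659710)) e) e) e)) (c (c (c (c (m (nat_lit 0x93291c)) e) e) e) e)) (c (c (c (c (c (m (nat_lit
  0x251ccdc)) e) e) e) e) e)) (c (c (c (c (c (c (m (nat_lit 0x2940c6c)) e) e) e) e) e) e))) (c (c (c (c (c (c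
  (c (p (nat_lit 0xce0f26e)) (c (p (nat_lit 0xcb1a62)) e)) (c (c (m (nat_lit 0x9b8620)) e) e)) (c (c (c (m
  (nat_lit 0x308c57a)) e) e) e)) (c (c (c (c (m (nat_lit 0x3503400)) e) e) e) e)) (c (c (c (c (c (p (nat_lit
  0x4674066)) e) e) e) e) e)) (c (c (c (c (c (c (p (nat_lit 0x14987f4)) e) e) e) e) e) e)) (c (c (c (c (c (c
  (c (m (nat_lit 0x2410b60)) e) e) e) e) e) e) e)))) (c (c (c (c (c (c (c (c (m (nat_lit 0x1f5ca980)) (c (p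
  (nat_lit 0x5db6766)) (c (m (nat_lit 0x257bc8)) e))) (c (c (m (nat_lit 0x4ea2e52)) (c (m (nat_lit
  0x209e974)) e)) (c (c (p (nat_lit 0x48be8a8)) e) e))) (c (c (c (p (nat_lit 0x972c5f4)) (c (p (nat_lit
  0x1471c2c)) e)) (c (c (m (nat_lit 0x179b3a4)) e) e)) (c (c (c (p (nat_lit 0xcf6d98)) e) e) e))) (c (c (c (c
  (p (nat_lit 0x12f4a760)) (c (p (nat_lit 0x4a9975a)) e)) (c (c (p (nat_lit 0x4f0cfe)) e) e)) (c (c (c (p
  (nat_lit 0x2cbb492)) e) e) e)) (c (c (c (c (p (nat_lit 0x5f54d0)) e) e) e) e))) (c (c (c (c (c (m (nat_lit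
  0x7689858)) (c (p (nat_lit 0x3142d6a)) e)) (c (c (p (nat_lit 0x9fdb288)) e) e)) (c (c (c (m (nat_lit
  0x5e01394)) e) e) e)) (c (c (c (c (p (nat_lit 0x6fad4)) e) e) e) e)) (c (c (c (c (c (p (nat_lit 0x13bf4c8))
  e) e) e) e) e))) (c (c (c (c (c (c (p (nat_lit 0x12a95198)) (c (m (nat_lit 0x1b28794)) e)) (c (c (p
  (nat_lit 0x7d5554c)) e) e)) (c (c (c (m (nat_lit 0xa9631a)) e) e) e)) (c (c (c (c (m (nat_lit 0x1d802f0))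
  e) e) e) e)) (c (c (c (c (c (m (nat_lit 0x91b5d0)) e) e) e) e) e)) (c (c (c (c (c (c (m (nat_lit
  0x5b529ac)) e) e) e) e) e) e))) (c (c (c (c (c (c (c (m (nat_lit 0x1192500)) (c (m (nat_lit 0x54d1dc)) e))
  (c (c (p (nat_lit 0x1f2f9ea)) e) e)) (c (c (c (p (nat_lit 0x2e17e4)) e) e) e)) (c (c (c (c (m (nat_lit
  0x70636b0)) e) e) e) e)) (c (c (c (c (c (p (nat_lit 0x2922c24)) e) e) e) e) e)) (c (c (c (c (c (c (p
  (nat_lit 0x33129c)) e) e) e) e) e) e)) (c (c (c (c (c (c (c (m (nat_lit 0x3dfaa2a)) e) e) e) e) e) e) e)))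
  (c (c (c (c (c (c (c (c (p (nat_lit 0x16f705e0)) (c (m (nat_lit 0x3c21c42)) e)) (c (c (m (nat_lit
  0x60ce622)) e) e)) (c (c (c (m (nat_lit 0x2014a5e)) e) e) e)) (c (c (c (c (m (nat_lit 0x49bee50)) e) e) e)
  e)) (c (c (c (c (c (m (nat_lit 0x7fd2f8)) e) e) e) e) e)) (c (c (c (c (c (c (m (nat_lit 0x58ee4f6)) e) e)
  e) e) e) e)) (c (c (c (c (c (c (c (p (nat_lit 0x94dfac)) e) e) e) e) e) e) e)) (c (c (c (c (c (c (c (c (m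
  (nat_lit 0x10efab0)) e) e) e) e) e) e) e) e))))) (c (c (c (c (c (c (c (c (c (p (nat_lit 0x8e0af10)) (c (m
  (nat_lit 0x24c2bd4)) (c (m (nat_lit 0x777ba0)) e))) (c (c (m (nat_lit 0xaf4ad20)) (c (p (nat_lit
  0x24ad934)) e)) (c (c (m (nat_lit 0x31104)) e) e))) (c (c (c (m (nat_lit 0x1878a98)) (c (p (nat_lit
  0x3074ac)) e)) (c (c (p (nat_lit 0x811b60)) e) e)) (c (c (c (m (nat_lit 0x227e734)) e) e) e))) (c (c (c (c
  (m (nat_lit 0x9b3ac54)) (c (p (nat_lit 0xce5a1c)) (c (p (nat_lit 0x2ffd2a0)) e))) (c (c (p (nat_lit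
  0x34e2928)) (c (m (nat_lit 0x1418580)) e)) (c (c (m (nat_lit 0x1b67560)) e) e))) (c (c (c (m (nat_lit
  0x45d4550)) (c (p (nat_lit 0x132024c)) e)) (c (c (p (nat_lit 0x128d33c)) e) e)) (c (c (c (p (nat_lit
  0x30ef250)) e) e) e))) (c (c (c (c (p (nat_lit 0x6a45758)) (c (p (nat_lit 0x1d116c8)) e)) (c (c (m (nat_lit
  0x1ce2da8)) e) e)) (c (c (c (p (nat_lit 0x31f8)) e) e) e)) e))) (c (c (c (c (c (m (nat_lit 0x709aca0)) (c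
  (p (nat_lit 0x359481c)) (c (m (nat_lit 0x1421bc8)) e))) (c (c (m (nat_lit 0x67ffda0)) (c (m (nat_lit
  0x8a5c34)) e)) (c (c (p (nat_lit 0xa32768)) e) e))) (c (c (c (m (nat_lit 0x72daf10)) (c (m (nat_lit
  0x1b0954)) e)) (c (c (p (nat_lit 0x197ff64)) e) e)) (c (c (c (p (nat_lit 0x42f0948)) e) e) e))) (c (c (c (c
  (m (nat_lit 0x1788c84)) (c (m (nat_lit 0xcc7554)) e)) (c (c (p (nat_lit 0x1c2f900)) e) e)) (c (c (c (p
  (nat_lit 0x1395c0c)) e) e) e)) e)) (c (c (c (c (c (p (nat_lit 0x7aca660)) (c (m (nat_lit 0x107e1b8)) e)) (c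
  (c (m (nat_lit 0x108e058)) e) e)) (c (c (c (p (nat_lit 0x451458)) e) e) e)) e) e))) (c (c (c (c (c (c (p
  (nat_lit 0x68c6f4)) (c (p (nat_lit 0xf20238)) (c (p (nat_lit 0xb2611c)) e))) (c (c (p (nat_lit 0x8e38d80))
  (c (p (nat_lit 0xab6b7c)) e)) (c (c (m (nat_lit 0x230130c)) e) e))) (c (c (c (m (nat_lit 0x7bdc644)) (c (p
  (nat_lit 0x3fee65c)) e)) (c (c (m (nat_lit 0xc1f848)) e) e)) (c (c (c (p (nat_lit 0x2380ed8)) e) e) e))) (c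
  (c (c (c (p (nat_lit 0x11cdc54)) (c (m (nat_lit 0x1a13294)) e)) (c (c (p (nat_lit 0xe0fd18)) e) e)) (c (c
  (c (p (nat_lit 0xc19fe0)) e) e) e)) e)) (c (c (c (c (c (p (nat_lit 0x1eb1618)) (c (m (nat_lit 0x1ef591c))
  e)) (c (c (m (nat_lit 0x3462864)) e) e)) (c (c (c (p (nat_lit 0x249ad28)) e) e) e)) e) e)) (c (c (c (c (c
  (c (m (nat_lit 0xa028f4)) (c (p (nat_lit 0xd487f4)) e)) (c (c (m (nat_lit 0x41ae79c)) e) e)) (c (c (c (p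
  (nat_lit 0x101a570)) e) e) e)) e) e) e))) (c (c (c (c (c (c (c (m (nat_lit 0xfcb30fa)) (c (m (nat_lit
  0x6bf580)) (c (p (nat_lit 0x4f3914)) e))) (c (c (p (nat_lit 0xa1bdc82)) (c (p (nat_lit 0x110ba64)) e)) (c
  (c (p (nat_lit 0x648e4c)) e) e))) (c (c (c (p (nat_lit 0x981a140)) (c (m (nat_lit 0x86fd6c)) e)) (c (c (m
  (nat_lit 0x13feb40)) e) e)) (c (c (c (m (nat_lit 0x2e7b0e0)) e) e) e))) (c (c (c (c (p (nat_lit 0x990fb76))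
  (c (m (nat_lit 0x9fc0fc)) e)) (c (c (m (nat_lit 0x71f4b4)) e) e)) (c (c (c (m (nat_lit 0x2bbb814)) e) e)
  e)) (c (c (c (c (m (nat_lit 0x29ee570)) e) e) e) e))) (c (c (c (c (c (p (nat_lit 0x4a4993c)) (c (p (nat_lit
  0x1a23278)) e)) (c (c (p (nat_lit 0x2efbb4c)) e) e)) (c (c (c (m (nat_lit 0x2da779c)) e) e) e)) (c (c (c (c
  (p (nat_lit 0x1c18b24)) e) e) e) e)) (c (c (c (c (c (m (nat_lit 0x36b05b0)) e) e) e) e) e))) (c (c (c (c (c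
  (c (p (nat_lit 0x3f60942)) (c (p (nat_lit 0x21f9438)) e)) (c (c (p (nat_lit 0x1981080)) e) e)) (c (c (c (m
  (nat_lit 0x1f8d44c)) e) e) e)) (c (c (c (c (m (nat_lit 0x182da80)) e) e) e) e)) (c (c (c (c (c (m (nat_lit
  0x143a378)) e) e) e) e) e)) (c (c (c (c (c (c (m (nat_lit 0x1ff8444)) e) e) e) e) e) e))) (c (c (c (c (c (c
  (c (m (nat_lit 0xcb724c)) (c (m (nat_lit 0x1058d9c)) e)) (c (c (m (nat_lit 0x9bbe06)) e) e)) (c (c (c (m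
  (nat_lit 0x58cba8)) e) e) e)) (c (c (c (c (p (nat_lit 0x3968bfe)) e) e) e) e)) (c (c (c (c (c (p (nat_lit
  0x28c88a0)) e) e) e) e) e)) (c (c (c (c (c (c (p (nat_lit 0x1d09e86)) e) e) e) e) e) e)) (c (c (c (c (c (c
  (c (m (nat_lit 0x1066cf2)) e) e) e) e) e) e) e)))) (c (c (c (c (c (c (c (c (m (nat_lit 0x5a6f708)) (c (m
  (nat_lit 0x479448)) (c (m (nat_lit 0x6d5d08)) e))) (c (c (m (nat_lit 0x6b97462)) (c (m (nat_lit 0x298eac8))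
  e)) (c (c (p (nat_lit 0x1cb29e8)) e) e))) (c (c (c (p (nat_lit 0x5eccd64)) (c (m (nat_lit 0xb062ec)) e)) (c
  (c (m (nat_lit 0xd9babc)) e) e)) (c (c (c (m (nat_lit 0x315c45c)) e) e) e))) (c (c (c (c (p (nat_lit
  0x82316e8)) (c (m (nat_lit 0x19b9798)) e)) (c (c (p (nat_lit 0x2141a84)) e) e)) (c (c (c (p (nat_lit
  0x2666598)) e) e) e)) (c (c (c (c (m (nat_lit 0x27c3930)) e) e) e) e))) (c (c (c (c (c (p (nat_lit
  0x8dd1d3c)) (c (m (nat_lit 0x73ad30)) e)) (c (c (m (nat_lit 0x346dc04)) e) e)) (c (c (c (p (nat_lit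
  0x127b1c8)) e) e) e)) (c (c (c (c (m (nat_lit 0x28b759c)) e) e) e) e)) (c (c (c (c (c (m (nat_lit
  0x28b5bb0)) e) e) e) e) e))) (c (c (c (c (c (c (p (nat_lit 0xdb92a0)) (c (p (nat_lit 0xe50a28)) e)) (c (c
  (p (nat_lit 0x193578c)) e) e)) (c (c (c (p (nat_lit 0x1c90f8c)) e) e) e)) (c (c (c (c (m (nat_lit
  0x2bdf1e4)) e) e) e) e)) (c (c (c (c (c (m (nat_lit 0x698d90)) e) e) e) e) e)) (c (c (c (c (c (c (m
  (nat_lit 0x117d8c0)) e) e) e) e) e) e))) (c (c (c (c (c (c (c (p (nat_lit 0x4709b80)) (c (p (nat_lit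
  0x772986)) e)) (c (c (p (nat_lit 0x9d21fe)) e) e)) (c (c (c (m (nat_lit 0x949d2e)) e) e) e)) (c (c (c (c (p
  (nat_lit 0x30cf666)) e) e) e) e)) (c (c (c (c (c (m (nat_lit 0x190518c)) e) e) e) e) e)) (c (c (c (c (c (c
  (p (nat_lit 0x33d1772)) e) e) e) e) e) e)) (c (c (c (c (c (c (c (m (nat_lit 0x17273ee)) e) e) e) e) e) e)
  e))) (c (c (c (c (c (c (c (c (m (nat_lit 0x9514c56)) (c (m (nat_lit 0x420882)) e)) (c (c (p (nat_lit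
  0x9e361b4)) e) e)) (c (c (c (p (nat_lit 0x90e0a6)) e) e) e)) (c (c (c (c (m (nat_lit 0x309c3d2)) e) e) e)
  e)) (c (c (c (c (c (p (nat_lit 0x3d4f1c)) e) e) e) e) e)) (c (c (c (c (c (c (m (nat_lit 0xeb6f26)) e) e) e)
  e) e) e)) (c (c (c (c (c (c (c (m (nat_lit 0x1a5fb60)) e) e) e) e) e) e) e)) (c (c (c (c (c (c (c (c (p
  (nat_lit 0x44a699c)) e) e) e) e) e) e) e) e)))) (c (c (c (c (c (c (c (c (c (p (nat_lit 0xa9aef8)) (c (m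
  (nat_lit 0x16553b8)) (c (m (nat_lit 0x5747e8)) e))) (c (c (p (nat_lit 0xd1a078)) (c (m (nat_lit 0x56b44c))
  e)) (c (c (p (nat_lit 0x328eedc)) e) e))) (c (c (c (p (nat_lit 0x616c9d4)) (c (m (nat_lit 0x176940c)) e))
  (c (c (m (nat_lit 0x320c40)) e) e)) (c (c (c (m (nat_lit 0xf4e0)) e) e) e))) (c (c (c (c (m (nat_lit
  0x8dadcac)) (c (p (nat_lit 0x367a67c)) e)) (c (c (p (nat_lit 0x2f45a84)) e) e)) (c (c (c (m (nat_lit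
  0x14c5854)) e) e) e)) (c (c (c (c (m (nat_lit 0x1361298)) e) e) e) e))) (c (c (c (c (c (p (nat_lit
  0x617bab8)) (c (p (nat_lit 0x160d760)) e)) (c (c (p (nat_lit 0xa82c94)) e) e)) (c (c (c (m (nat_lit
  0x3055db8)) e) e) e)) (c (c (c (c (p (nat_lit 0xeaba0)) e) e) e) e)) (c (c (c (c (c (m (nat_lit 0x152ee18))
  e) e) e) e) e))) (c (c (c (c (c (c (m (nat_lit 0x15e7120)) (c (m (nat_lit 0x8cab94)) e)) (c (c (p (nat_lit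
  0xaa66f4)) e) e)) (c (c (c (p (nat_lit 0xad6e2c)) e) e) e)) (c (c (c (c (m (nat_lit 0x54c7b0)) e) e) e) e))
  (c (c (c (c (c (m (nat_lit 0xa3a034)) e) e) e) e) e)) (c (c (c (c (c (c (m (nat_lit 0x91e534)) e) e) e) e)
  e) e))) (c (c (c (c (c (c (c (p (nat_lit 0x264fcd2)) (c (m (nat_lit 0x167d048)) e)) (c (c (m (nat_lit
  0x60f750c)) e) e)) (c (c (c (p (nat_lit 0xa213f8)) e) e) e)) (c (c (c (c (p (nat_lit 0x1d9244)) e) e) e)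
  e)) (c (c (c (c (c (m (nat_lit 0x14ce338)) e) e) e) e) e)) (c (c (c (c (c (c (p (nat_lit 0x134e488)) e) e)
  e) e) e) e)) (c (c (c (c (c (c (c (m (nat_lit 0x3ce5f2)) e) e) e) e) e) e) e))) (c (c (c (c (c (c (c (c (p
  (nat_lit 0x414504c)) (c (p (nat_lit 0x51cb4)) e)) (c (c (m (nat_lit 0x5625f0)) e) e)) (c (c (c (m (nat_lit
  0x206fae4)) e) e) e)) (c (c (c (c (p (nat_lit 0x984edc)) e) e) e) e)) (c (c (c (c (c (m (nat_lit 0x9869e8))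
  e) e) e) e) e)) (c (c (c (c (c (c (m (nat_lit 0x15efc7c)) e) e) e) e) e) e)) (c (c (c (c (c (c (c (p
  (nat_lit 0xf45fcc)) e) e) e) e) e) e) e)) (c (c (c (c (c (c (c (c (m (nat_lit 0xe91804)) e) e) e) e) e) e)
  e) e))) (c (c (c (c (c (c (c (c (c (m (nat_lit 0x38aa518)) (c (m (nat_lit 0x103ea8)) e)) (c (c (p (nat_lit
  0xf2f7c0)) e) e)) (c (c (c (m (nat_lit 0x4968b4)) e) e) e)) (c (c (c (c (p (nat_lit 0x17c87ac)) e) e) e)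
  e)) (c (c (c (c (c (m (nat_lit 0xb66fd0)) e) e) e) e) e)) (c (c (c (c (c (c (p (nat_lit 0xda2e3c)) e) e) e)
  e) e) e)) (c (c (c (c (c (c (c (m (nat_lit 0xa4c268)) e) e) e) e) e) e) e)) (c (c (c (c (c (c (c (c (m
  (nat_lit 0x4315c8)) e) e) e) e) e) e) e) e)) (c (c (c (c (c (c (c (c (c (p (nat_lit 0x23c7414)) e) e) e) e)
  e) e) e) e) e)))))

noncomputable def gt_1_3_6 : Tr :=
  (c (c (c (c (c (c (c (c (c (m (nat_lit 0x33bfa30)) (c (p (nat_lit 0x96401c4)) (c (m (nat_lit 0x4cde7a0))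
  e))) (c (c (p (nat_lit 0xc90ee20)) (c (m (nat_lit 0x4246d70)) e)) (c (c (m (nat_lit 0x23452a4)) e) e))) (c
  (c (c (m (nat_lit 0xa69aac0)) (c (p (nat_lit 0xbd5f94)) e)) (c (c (p (nat_lit 0x1e081c)) e) e)) (c (c (c (p
  (nat_lit 0x6631d04)) e) e) e))) (c (c (c (c (m (nat_lit 0x3130008)) (c (p (nat_lit 0x56e1d48)) (c (p
  (nat_lit 0x3aea6b0)) e))) (c (c (m (nat_lit 0xf6a1bc8)) (c (p (nat_lit 0x1d23248)) e)) (c (c (p (nat_lit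
  0x23e6950)) e) e))) (c (c (c (p (nat_lit 0x1b4164d8)) (c (m (nat_lit 0x3427a58)) e)) (c (c (m (nat_lit
  0xa26090)) e) e)) (c (c (c (m (nat_lit 0xf576e70)) e) e) e))) (c (c (c (c (p (nat_lit 0x4c2de0)) (c (p
  (nat_lit 0x4674450)) (c (m (nat_lit 0x4658c40)) e))) (c (c (p (nat_lit 0xb636628)) (c (m (nat_lit
  0x27ace18)) e)) (c (c (m (nat_lit 0x13e9fd8)) e) e))) (c (c (c (m (nat_lit 0x1698b1d8)) (c (p (nat_lit
  0xf3e8e0)) e)) (c (c (p (nat_lit 0x17bab50)) e) e)) (c (c (c (p (nat_lit 0xc21abc0)) e) e) e))) e))) (c (c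
  (c (c (c (p (nat_lit 0x211fc80)) (c (m (nat_lit 0xcd4d0f0)) (c (p (nat_lit 0xae5cad8)) e))) (c (c (m
  (nat_lit 0xab0ec28)) (c (p (nat_lit 0x1db668)) e)) (c (c (p (nat_lit 0x8b04d0)) e) e))) (c (c (c (p
  (nat_lit 0x11ae4930)) (c (m (nat_lit 0x4f900c8)) e)) (c (c (p (nat_lit 0x180b28)) e) e)) (c (c (c (m
  (nat_lit 0x87556f8)) e) e) e))) (c (c (c (c (m (nat_lit 0x527244)) (c (m (nat_lit 0x162d1f4)) (c (p
  (nat_lit 0x225c504)) e))) (c (c (m (nat_lit 0x2fb0fc8)) (c (m (nat_lit 0x9a92b4)) e)) (c (c (p (nat_lit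
  0x10d17f8)) e) e))) (c (c (c (p (nat_lit 0x4ebe5f0)) (c (m (nat_lit 0x554f1c)) e)) (c (c (p (nat_lit
  0xdc1dc0)) e) e)) (c (c (c (m (nat_lit 0x1e00414)) e) e) e))) e)) (c (c (c (c (c (m (nat_lit 0xcea0a8)) (c
  (p (nat_lit 0x4978e00)) (c (m (nat_lit 0x22f3a58)) e))) (c (c (p (nat_lit 0x6fa46a0)) (c (m (nat_lit
  0x166a640)) e)) (c (c (m (nat_lit 0x14fe200)) e) e))) (c (c (c (m (nat_lit 0x4d94f00)) (c (p (nat_lit
  0x276b250)) e)) (c (c (m (nat_lit 0x3022ff8)) e) e)) (c (c (c (m (nat_lit 0x7539c0)) e) e) e))) e) e))) (c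
  (c (c (c (c (c (m (nat_lit 0x18da1c)) (c (m (nat_lit 0x1d31c78)) (c (p (nat_lit 0x5ac42c)) e))) (c (c (m
  (nat_lit 0x321255c)) (c (m (nat_lit 0x448881c)) e)) (c (c (m (nat_lit 0x36feb38)) e) e))) (c (c (c (p
  (nat_lit 0x681f384)) (c (p (nat_lit 0x4f4f04)) e)) (c (c (m (nat_lit 0x99dec)) e) e)) (c (c (c (p (nat_lit
  0x377a93c)) e) e) e))) (c (c (c (c (m (nat_lit 0x17e3c08)) (c (p (nat_lit 0x4fa59c8)) (c (m (nat_lit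
  0x1291e84)) e))) (c (c (p (nat_lit 0x17b3fec)) (c (p (nat_lit 0x161ff7c)) e)) (c (c (p (nat_lit 0x128532c))
  e) e))) (c (c (c (m (nat_lit 0x1656e34)) (c (m (nat_lit 0x23904e4)) e)) (c (c (m (nat_lit 0x1701f0)) e) e))
  (c (c (c (m (nat_lit 0x1be0d90)) e) e) e))) e)) (c (c (c (c (c (p (nat_lit 0x1a441ac)) (c (m (nat_lit
  0x3b75ee0)) (c (p (nat_lit 0x2cee3a8)) e))) (c (c (p (nat_lit 0x217e048)) (c (m (nat_lit 0x1414464)) e)) (c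
  (c (m (nat_lit 0x7ac4c)) e) e))) (c (c (c (m (nat_lit 0x4463d3c)) (c (p (nat_lit 0x1e6e970)) e)) (c (c (m
  (nat_lit 0x50ac0c)) e) e)) (c (c (c (p (nat_lit 0x3f4aac)) e) e) e))) e) e)) (c (c (c (c (c (c (m (nat_lit
  0xadeac4)) (c (p (nat_lit 0x155f37c)) (c (m (nat_lit 0x6f3ff0)) e))) (c (c (m (nat_lit 0x55ebe8)) (c (p
  (nat_lit 0x2cb005c)) e)) (c (c (p (nat_lit 0x1652cb8)) e) e))) (c (c (c (p (nat_lit 0x21efa00)) (c (m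
  (nat_lit 0x379cf8)) e)) (c (c (m (nat_lit 0x4e6240)) e) e)) (c (c (c (m (nat_lit 0x49a5158)) e) e) e))) e)
  e) e))) (c (c (c (c (c (c (c (p (nat_lit 0xad7c828)) (c (m (nat_lit 0xae96b7c)) (c (m (nat_lit 0x105e118))
  e))) (c (c (m (nat_lit 0x63e97f0)) (c (p (nat_lit 0x674ec5c)) e)) (c (c (p (nat_lit 0x5055fb4)) e) e))) (c
  (c (c (m (nat_lit 0x16886cdc)) (c (m (nat_lit 0x2feb90)) e)) (c (c (m (nat_lit 0x22f0c38)) e) e)) (c (c (c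
  (m (nat_lit 0x1bbacc0)) e) e) e))) (c (c (c (c (m (nat_lit 0x2db8ae2)) (c (p (nat_lit 0x6b4a4fa)) (c (m
  (nat_lit 0x3ad5c80)) e))) (c (c (p (nat_lit 0x746de88)) (c (m (nat_lit 0x2936f1c)) e)) (c (c (m (nat_lit
  0x1c609e0)) e) e))) (c (c (c (p (nat_lit 0xeda57d4)) (c (m (nat_lit 0x19f4f4c)) e)) (c (c (p (nat_lit
  0xaaf3d0)) e) e)) (c (c (c (p (nat_lit 0x28078f8)) e) e) e))) (c (c (c (c (m (nat_lit 0x13522e0)) (c (p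
  (nat_lit 0x1a8e3a8)) e)) (c (c (m (nat_lit 0x2068e78)) e) e)) (c (c (c (p (nat_lit 0x17b2e28)) e) e) e))
  e))) (c (c (c (c (c (m (nat_lit 0xaa42232)) (c (m (nat_lit 0x25353a8)) (c (m (nat_lit 0x1d12334)) e))) (c
  (c (p (nat_lit 0x971c1a2)) (c (m (nat_lit 0x1b719e8)) e)) (c (c (m (nat_lit 0x1cd2e3c)) e) e))) (c (c (c (m
  (nat_lit 0x2bc1c34)) (c (p (nat_lit 0x3b8a238)) e)) (c (c (p (nat_lit 0x236ed4)) e) e)) (c (c (c (p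
  (nat_lit 0x8019b94)) e) e) e))) (c (c (c (c (p (nat_lit 0x3a0e24)) (c (m (nat_lit 0x20b3c08)) e)) (c (c (p
  (nat_lit 0x105bb38)) e) e)) (c (c (c (m (nat_lit 0x3564c60)) e) e) e)) e)) (c (c (c (c (c (p (nat_lit
  0x325c7d0)) (c (m (nat_lit 0x1cdb200)) e)) (c (c (m (nat_lit 0x2b20ac8)) e) e)) (c (c (c (p (nat_lit
  0x29c41f8)) e) e) e)) e) e))) (c (c (c (c (c (c (p (nat_lit 0x22379760)) (c (m (nat_lit 0xb9338da)) (c (p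
  (nat_lit 0xfb376c)) e))) (c (c (m (nat_lit 0x5492784)) (c (p (nat_lit 0xabb2b0)) e)) (c (c (m (nat_lit
  0x1a7c720)) e) e))) (c (c (c (m (nat_lit 0x21b87e2)) (c (p (nat_lit 0x1e7fe00)) e)) (c (c (p (nat_lit
  0x1b4edc8)) e) e)) (c (c (c (p (nat_lit 0x3427a04)) e) e) e))) (c (c (c (c (m (nat_lit 0x28765ec)) (c (m
  (nat_lit 0x46de50)) e)) (c (c (m (nat_lit 0x5629b0)) e) e)) (c (c (c (p (nat_lit 0x1ad996c)) e) e) e)) e))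
  (c (c (c (c (c (m (nat_lit 0xae840fc)) (c (p (nat_lit 0x2a027f0)) e)) (c (c (p (nat_lit 0xeeeb4)) e) e)) (c
  (c (c (p (nat_lit 0x37229ac)) e) e) e)) e) e)) (c (c (c (c (c (c (m (nat_lit 0x8bb1aa0)) (c (p (nat_lit
  0x22173f0)) e)) (c (c (m (nat_lit 0x5dbdb4)) e) e)) (c (c (c (p (nat_lit 0x466e84c)) e) e) e)) e) e) e)))
  (c (c (c (c (c (c (c (m (nat_lit 0x2af09576)) (c (p (nat_lit 0xc61cb36)) (c (p (nat_lit 0x42bfd6c)) e))) (c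
  (c (p (nat_lit 0x1699e48)) (c (p (nat_lit 0x478824)) e)) (c (c (m (nat_lit 0xe12688)) e) e))) (c (c (c (p
  (nat_lit 0x1d16edea)) (c (m (nat_lit 0xe02908)) e)) (c (c (p (nat_lit 0x23663f4)) e) e)) (c (c (c (m
  (nat_lit 0x63a470c)) e) e) e))) (c (c (c (c (p (nat_lit 0x17bf9c2c)) (c (m (nat_lit 0x7db8b76)) e)) (c (c
  (m (nat_lit 0x3ad9e68)) e) e)) (c (c (c (m (nat_lit 0xcf1fa7c)) e) e) e)) (c (c (c (c (p (nat_lit
  0x356aa08)) e) e) e) e))) (c (c (c (c (c (p (nat_lit 0xbffc808)) (c (p (nat_lit 0x59dc2b8)) e)) (c (c (p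
  (nat_lit 0x163f146)) e) e)) (c (c (c (m (nat_lit 0x8c1000c)) e) e) e)) (c (c (c (c (m (nat_lit 0x267b4cc))
  e) e) e) e)) (c (c (c (c (c (p (nat_lit 0x196d280)) e) e) e) e) e))) (c (c (c (c (c (c (m (nat_lit
  0x1af21ef8)) (c (m (nat_lit 0x15a4bc2)) e)) (c (c (p (nat_lit 0x26139cc)) e) e)) (c (c (c (m (nat_lit
  0x5cf518e)) e) e) e)) (c (c (c (c (p (nat_lit 0x3d5e5ec)) e) e) e) e)) (c (c (c (c (c (p (nat_lit
  0x5cd5634)) e) e) e) e) e)) (c (c (c (c (c (c (p (nat_lit 0x9fadb20)) e) e) e) e) e) e))) (c (c (c (c (c (c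
  (c (p (nat_lit 0x14650584)) (c (m (nat_lit 0x5007ed6)) e)) (c (c (m (nat_lit 0x3f88650)) e) e)) (c (c (c (p
  (nat_lit 0x1bd0e06)) e) e) e)) (c (c (c (c (m (nat_lit 0xfd35b3a)) e) e) e) e)) (c (c (c (c (c (m (nat_lit
  0xb5422ae)) e) e) e) e) e)) (c (c (c (c (c (c (p (nat_lit 0x1b98ebc)) e) e) e) e) e) e)) (c (c (c (c (c (c
  (c (p (nat_lit 0x852251a)) e) e) e) e) e) e) e))))) (c (c (c (c (c (c (c (c (p (nat_lit 0xdc09ea8)) (c (m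
  (nat_lit 0xcb34408)) (c (m (nat_lit 0x3147c)) e))) (c (c (p (nat_lit 0x17f91ba)) (c (p (nat_lit 0x24adb80))
  e)) (c (c (m (nat_lit 0x7779cc)) e) e))) (c (c (c (m (nat_lit 0x422e896)) (c (p (nat_lit 0x8119d4)) e)) (c
  (c (p (nat_lit 0x3075a8)) e) e)) (c (c (c (m (nat_lit 0x227e65c)) e) e) e))) (c (c (c (c (p (nat_lit
  0x10768f6e)) (c (p (nat_lit 0x69a4e56)) (c (p (nat_lit 0xa327b0)) e))) (c (c (p (nat_lit 0x97f5c90)) (c (m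
  (nat_lit 0x8a5cc4)) e)) (c (c (m (nat_lit 0x1421cb8)) e) e))) (c (c (c (m (nat_lit 0x14586b94)) (c (p
  (nat_lit 0x1980000)) e)) (c (c (m (nat_lit 0x1b0924)) e) e)) (c (c (c (p (nat_lit 0x42f0a8c)) e) e) e))) (c
  (c (c (c (p (nat_lit 0x7aca7e0)) (c (m (nat_lit 0x108e070)) e)) (c (c (m (nat_lit 0x107e0c8)) e) e)) (c (c
  (c (p (nat_lit 0x4513b0)) e) e) e)) e))) (c (c (c (c (c (m (nat_lit 0x13076d1e)) (c (p (nat_lit 0x5141052))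
  (c (m (nat_lit 0x1b675e4)) e))) (c (c (p (nat_lit 0x893bd46)) (c (m (nat_lit 0x1418790)) e)) (c (c (p
  (nat_lit 0x2ffd120)) e) e))) (c (c (c (p (nat_lit 0xfdc4b8)) (c (p (nat_lit 0x128d3fc)) e)) (c (c (p
  (nat_lit 0x1320294)) e) e)) (c (c (c (p (nat_lit 0x30ef3a0)) e) e) e))) (c (c (c (c (m (nat_lit 0x1788f78))
  (c (p (nat_lit 0x1c2f8e8)) e)) (c (c (m (nat_lit 0xcc74ac)) e) e)) (c (c (c (p (nat_lit 0x1395b40)) e) e)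
  e)) e)) (c (c (c (c (c (p (nat_lit 0x6a454a0)) (c (m (nat_lit 0x1ce2cd0)) e)) (c (c (p (nat_lit 0x1d115c0))
  e) e)) (c (c (c (p (nat_lit 0x3270)) e) e) e)) e) e))) (c (c (c (c (c (c (p (nat_lit 0x3015294)) (c (p
  (nat_lit 0x9a7d8e8)) (c (m (nat_lit 0x2301324)) e))) (c (c (m (nat_lit 0x2d91410)) (c (p (nat_lit
  0xab6af8)) e)) (c (c (p (nat_lit 0xb260a4)) e) e))) (c (c (c (m (nat_lit 0x7316ce8)) (c (m (nat_lit
  0xc1f7f4)) e)) (c (c (p (nat_lit 0x3fee620)) e) e)) (c (c (c (p (nat_lit 0x2380efc)) e) e) e))) (c (c (c (c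
  (p (nat_lit 0x1eb1660)) (c (m (nat_lit 0x346284c)) e)) (c (c (m (nat_lit 0x1ef5a0c)) e) e)) (c (c (c (p
  (nat_lit 0x249ade8)) e) e) e)) e)) (c (c (c (c (c (p (nat_lit 0x11cdd80)) (c (p (nat_lit 0xe0fd18)) e)) (c
  (c (m (nat_lit 0x1a13258)) e) e)) (c (c (c (p (nat_lit 0xc1a01c)) e) e) e)) e) e)) (c (c (c (c (c (c (m
  (nat_lit 0xa026f0)) (c (m (nat_lit 0x41ae784)) e)) (c (c (p (nat_lit 0xd48740)) e) e)) (c (c (c (p (nat_lit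
  0x101a6a8)) e) e) e)) e) e) e))) (c (c (c (c (c (c (c (m (nat_lit 0xb4591de)) (c (p (nat_lit 0x1c8513c)) (c
  (p (nat_lit 0x648eb8)) e))) (c (c (m (nat_lit 0x539074e)) (c (p (nat_lit 0x110bb90)) e)) (c (c (p (nat_lit
  0x4f3ac4)) e) e))) (c (c (c (p (nat_lit 0xaee6f70)) (c (m (nat_lit 0x13febd0)) e)) (c (c (m (nat_lit
  0x86fd6c)) e) e)) (c (c (c (m (nat_lit 0x2e7b1e8)) e) e) e))) (c (c (c (c (m (nat_lit 0xbfb75b6)) (c (m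
  (nat_lit 0x58a4af8)) e)) (c (c (p (nat_lit 0x3bf50e)) e) e)) (c (c (c (p (nat_lit 0x4c8b10c)) e) e) e)) (c
  (c (c (c (m (nat_lit 0x36b0658)) e) e) e) e))) (c (c (c (c (c (p (nat_lit 0x5c0127c)) (c (m (nat_lit
  0xa341b4)) e)) (c (c (m (nat_lit 0x10c4178)) e) e)) (c (c (c (m (nat_lit 0x343d340)) e) e) e)) (c (c (c (c
  (p (nat_lit 0x1c18b54)) e) e) e) e)) (c (c (c (c (c (m (nat_lit 0x29ee510)) e) e) e) e) e))) (c (c (c (c (c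
  (c (m (nat_lit 0xa7ffa0)) (c (p (nat_lit 0x95f3c4)) e)) (c (c (p (nat_lit 0x20662b0)) e) e)) (c (c (c (m
  (nat_lit 0x3380c4)) e) e) e)) (c (c (c (c (m (nat_lit 0x143a444)) e) e) e) e)) (c (c (c (c (c (m (nat_lit
  0x182da98)) e) e) e) e) e)) (c (c (c (c (c (c (m (nat_lit 0x1ff8564)) e) e) e) e) e) e))) (c (c (c (c (c (c
  (c (p (nat_lit 0x95e3e84)) (c (p (nat_lit 0x19431ea)) e)) (c (c (m (nat_lit 0x156317a)) e) e)) (c (c (c (p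
  (nat_lit 0x5660d6)) e) e) e)) (c (c (c (c (p (nat_lit 0x4177c3e)) e) e) e) e)) (c (c (c (c (c (p (nat_lit
  0x43d9a0c)) e) e) e) e) e)) (c (c (c (c (c (c (p (nat_lit 0x189de2a)) e) e) e) e) e) e)) (c (c (c (c (c (c
  (c (m (nat_lit 0x2e3c9c8)) e) e) e) e) e) e) e)))) (c (c (c (c (c (c (c (c (m (nat_lit 0xa39ccec)) (c (p
  (nat_lit 0x1a30436)) (c (p (nat_lit 0x328f188)) e))) (c (c (m (nat_lit 0xee364ac)) (c (m (nat_lit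
  0x56b560)) e)) (c (c (m (nat_lit 0x574938)) e) e))) (c (c (c (p (nat_lit 0x9bb66bc)) (c (m (nat_lit
  0x320b44)) e)) (c (c (m (nat_lit 0x1769484)) e) e)) (c (c (c (m (nat_lit 0xf624)) e) e) e))) (c (c (c (c (m
  (nat_lit 0xf765c48)) (c (m (nat_lit 0x3f8192a)) e)) (c (c (m (nat_lit 0x35effaa)) e) e)) (c (c (c (p
  (nat_lit 0x28233a8)) e) e) e)) (c (c (c (c (m (nat_lit 0x152eec0)) e) e) e) e))) (c (c (c (c (c (m (nat_lit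
  0x704a84c)) (c (p (nat_lit 0x15fc1ce)) e)) (c (c (m (nat_lit 0x3f136ce)) e) e)) (c (c (c (m (nat_lit
  0x61f49ac)) e) e) e)) (c (c (c (c (p (nat_lit 0xeac18)) e) e) e) e)) (c (c (c (c (c (m (nat_lit 0x1361190))
  e) e) e) e) e))) (c (c (c (c (c (c (m (nat_lit 0x77df66)) (c (p (nat_lit 0xe838f0)) e)) (c (c (p (nat_lit
  0x3579f54)) e) e)) (c (c (c (m (nat_lit 0x1a442c0)) e) e) e)) (c (c (c (c (m (nat_lit 0xa3a088)) e) e) e)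
  e)) (c (c (c (c (c (m (nat_lit 0x54c798)) e) e) e) e) e)) (c (c (c (c (c (c (m (nat_lit 0x91e558)) e) e) e)
  e) e) e))) (c (c (c (c (c (c (c (p (nat_lit 0x20095ce)) (c (p (nat_lit 0x478ab8)) e)) (c (c (p (nat_lit
  0x3fb2aee)) e) e)) (c (c (c (m (nat_lit 0x2406a14)) e) e) e)) (c (c (c (c (p (nat_lit 0x82b9ef4)) e) e) e)
  e)) (c (c (c (c (c (p (nat_lit 0x47d7068)) e) e) e) e) e)) (c (c (c (c (c (c (p (nat_lit 0x40e3402)) e) e)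
  e) e) e) e)) (c (c (c (c (c (c (c (m (nat_lit 0xa85a324)) e) e) e) e) e) e) e))) (c (c (c (c (c (c (c (c (p
  (nat_lit 0x9655284)) (c (p (nat_lit 0x1acc76c)) e)) (c (c (p (nat_lit 0x95cca18)) e) e)) (c (c (c (m
  (nat_lit 0x8c1fe4)) e) e) e)) (c (c (c (c (p (nat_lit 0x2f4058e)) e) e) e) e)) (c (c (c (c (c (p (nat_lit
  0x7c4144a)) e) e) e) e) e)) (c (c (c (c (c (c (m (nat_lit 0x997596)) e) e) e) e) e) e)) (c (c (c (c (c (c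
  (c (m (nat_lit 0x346a094)) e) e) e) e) e) e) e)) (c (c (c (c (c (c (c (c (m (nat_lit 0x432e970)) e) e) e)
  e) e) e) e) e))))) (c (c (c (c (c (c (c (c (c (p (nat_lit 0x17d7254)) (c (p (nat_lit 0x49fdd48)) (c (m
  (nat_lit 0x6e6d738)) e))) (c (c (m (nat_lit 0x8e3eb64)) (c (p (nat_lit 0x4be8410)) e)) (c (c (p (nat_lit
  0x2fd2748)) e) e))) (c (c (c (m (nat_lit 0x6051450)) (c (m (nat_lit 0x7f5d38)) e)) (c (c (p (nat_lit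
  0xec9904)) e) e)) (c (c (c (p (nat_lit 0xa7c0ac)) e) e) e))) (c (c (c (c (p (nat_lit 0x59eca10)) (c (m
  (nat_lit 0x71badfc)) (c (p (nat_lit 0x8d0c90)) e))) (c (c (p (nat_lit 0x3d9221c)) (c (p (nat_lit
  0x17c3cdc)) e)) (c (c (m (nat_lit 0x95364)) e) e))) (c (c (c (p (nat_lit 0x525d95c)) (c (m (nat_lit
  0x147168)) e)) (c (c (m (nat_lit 0x10bfc78)) e) e)) (c (c (c (m (nat_lit 0x5c184a8)) e) e) e))) (c (c (c (c
  (m (nat_lit 0x10df808)) (c (p (nat_lit 0x183b3b8)) e)) (c (c (m (nat_lit 0x4c51b78)) e) e)) (c (c (c (p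
  (nat_lit 0x2cd4410)) e) e) e)) e))) (c (c (c (c (c (p (nat_lit 0x2aee614)) (c (p (nat_lit 0x34e2e14)) (c (m
  (nat_lit 0x5e16550)) e))) (c (c (p (nat_lit 0x927075c)) (c (p (nat_lit 0x12175bc)) e)) (c (c (m (nat_lit
  0x1a1f7b0)) e) e))) (c (c (c (m (nat_lit 0x7d9fe44)) (c (p (nat_lit 0x1984e3c)) e)) (c (c (m (nat_lit
  0xb47a40)) e) e)) (c (c (c (p (nat_lit 0x3e9133c)) e) e) e))) (c (c (c (c (p (nat_lit 0xd7b5b4)) (c (p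
  (nat_lit 0xa41f0)) e)) (c (c (p (nat_lit 0xffbd6c)) e) e)) (c (c (c (p (nat_lit 0x5ad5f0)) e) e) e)) e)) (c
  (c (c (c (c (m (nat_lit 0x1fa1f60)) (c (p (nat_lit 0x263880)) e)) (c (c (m (nat_lit 0x3678600)) e) e)) (c
  (c (c (p (nat_lit 0xa6c830)) e) e) e)) e) e))) (c (c (c (c (c (c (m (nat_lit 0x3bdcfb4)) (c (m (nat_lit
  0xa9575f0)) (c (p (nat_lit 0x15ae858)) e))) (c (c (p (nat_lit 0x326c9c4)) (c (p (nat_lit 0x2304d8c)) e)) (c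
  (c (p (nat_lit 0x42a6a4)) e) e))) (c (c (c (p (nat_lit 0x271f9c8)) (c (p (nat_lit 0xc4e048)) e)) (c (c (m
  (nat_lit 0xb6afa8)) e) e)) (c (c (c (m (nat_lit 0x23dc018)) e) e) e))) (c (c (c (c (p (nat_lit 0xc0dab8))
  (c (p (nat_lit 0x2e5fca8)) e)) (c (c (m (nat_lit 0x1df39d0)) e) e)) (c (c (c (p (nat_lit 0x70f71c)) e) e)
  e)) e)) (c (c (c (c (c (p (nat_lit 0x53f3b8)) (c (p (nat_lit 0xa34f28)) e)) (c (c (p (nat_lit 0x6618f0)) e)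
  e)) (c (c (c (p (nat_lit 0x3ac6cbc)) e) e) e)) e) e)) (c (c (c (c (c (c (p (nat_lit 0x5cace1c)) (c (p
  (nat_lit 0x1808844)) e)) (c (c (m (nat_lit 0x1cbf6c0)) e) e)) (c (c (c (m (nat_lit 0xb83908)) e) e) e)) e)
  e) e))) (c (c (c (c (c (c (c (m (nat_lit 0x122f718c)) (c (p (nat_lit 0x3ddf66a)) (c (p (nat_lit 0x192c69c))
  e))) (c (c (p (nat_lit 0x39cee86)) (c (m (nat_lit 0x349a508)) e)) (c (c (m (nat_lit 0x54e16c)) e) e))) (c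
  (c (c (p (nat_lit 0x1d164da)) (c (p (nat_lit 0x1b8dba0)) e)) (c (c (m (nat_lit 0x214188)) e) e)) (c (c (c
  (p (nat_lit 0x43e9c0c)) e) e) e))) (c (c (c (c (m (nat_lit 0xa558d1c)) (c (p (nat_lit 0x31b68a0)) e)) (c (c
  (p (nat_lit 0x313e4e0)) e) e)) (c (c (c (m (nat_lit 0x360e94)) e) e) e)) (c (c (c (c (m (nat_lit
  0x38a1b30)) e) e) e) e))) (c (c (c (c (c (p (nat_lit 0xadcb500)) (c (p (nat_lit 0x1315d40)) e)) (c (c (m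
  (nat_lit 0x44d4308)) e) e)) (c (c (c (m (nat_lit 0x3724b78)) e) e) e)) (c (c (c (c (p (nat_lit 0x10cd37c))
  e) e) e) e)) (c (c (c (c (c (m (nat_lit 0x1069ea8)) e) e) e) e) e))) (c (c (c (c (c (c (p (nat_lit
  0x4556c3a)) (c (m (nat_lit 0x21f4698)) e)) (c (c (p (nat_lit 0x3d161c0)) e) e)) (c (c (c (m (nat_lit
  0x352d364)) e) e) e)) (c (c (c (c (m (nat_lit 0x251ccf4)) e) e) e) e)) (c (c (c (c (c (m (nat_lit
  0x9329d0)) e) e) e) e) e)) (c (c (c (c (c (c (m (nat_lit 0x2940d80)) e) e) e) e) e) e))) (c (c (c (c (c (c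
  (c (p (nat_lit 0x107382ae)) (c (m (nat_lit 0x187d3ca)) e)) (c (c (p (nat_lit 0x218270a)) e) e)) (c (c (c (m
  (nat_lit 0x1282b8a)) e) e) e)) (c (c (c (c (p (nat_lit 0x47db6b8)) e) e) e) e)) (c (c (c (c (c (m (nat_lit
  0x244b480)) e) e) e) e) e)) (c (c (c (c (c (c (p (nat_lit 0x10e071a)) e) e) e) e) e) e)) (c (c (c (c (c (c
  (c (m (nat_lit 0x45fd22a)) e) e) e) e) e) e) e)))) (c (c (c (c (c (c (c (c (m (nat_lit 0x177f7a6a)) (c (p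
  (nat_lit 0x2da38)) (c (p (nat_lit 0x1cb2b20)) e))) (c (c (m (nat_lit 0x2e25484)) (c (m (nat_lit 0x298eb04))
  e)) (c (c (m (nat_lit 0x6d5d08)) e) e))) (c (c (c (p (nat_lit 0x6b12cd6)) (c (m (nat_lit 0xd9ba74)) e)) (c
  (c (m (nat_lit 0xb063ac)) e) e)) (c (c (c (m (nat_lit 0x315c504)) e) e) e))) (c (c (c (c (p (nat_lit
  0x5e6b3ea)) (c (m (nat_lit 0x346db5c)) e)) (c (c (m (nat_lit 0x73adfc)) e) e)) (c (c (c (p (nat_lit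
  0x127b204)) e) e) e)) (c (c (c (c (m (nat_lit 0x28b5c88)) e) e) e) e))) (c (c (c (c (c (p (nat_lit
  0xe59b8d0)) (c (p (nat_lit 0x2141934)) e)) (c (c (m (nat_lit 0x19b98d0)) e) e)) (c (c (c (p (nat_lit
  0x26664e4)) e) e) e)) (c (c (c (c (m (nat_lit 0x28b756c)) e) e) e) e)) (c (c (c (c (c (m (nat_lit
  0x27c3858)) e) e) e) e) e))) (c (c (c (c (c (c (p (nat_lit 0xf2a9ea)) (c (p (nat_lit 0x1935798)) e)) (c (c
  (p (nat_lit 0xe509f8)) e) e)) (c (c (c (p (nat_lit 0x1c90f98)) e) e) e)) (c (c (c (c (m (nat_lit 0x698dc0))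
  e) e) e) e)) (c (c (c (c (c (m (nat_lit 0x2bdf214)) e) e) e) e) e)) (c (c (c (c (c (c (m (nat_lit
  0x117d944)) e) e) e) e) e) e))) (c (c (c (c (c (c (c (p (nat_lit 0xdb4434)) (c (p (nat_lit 0x9cb910)) e))
  (c (c (m (nat_lit 0x8dd95c)) e) e)) (c (c (c (m (nat_lit 0x2a9d20)) e) e) e)) (c (c (c (c (p (nat_lit
  0xa5fbb2)) e) e) e) e)) (c (c (c (c (c (m (nat_lit 0x20f419e)) e) e) e) e) e)) (c (c (c (c (c (c (p
  (nat_lit 0x24e2b72)) e) e) e) e) e) e)) (c (c (c (c (c (c (c (m (nat_lit 0x1bd3bf0)) e) e) e) e) e) e) e)))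
  (c (c (c (c (c (c (c (c (p (nat_lit 0x964f53c)) (c (p (nat_lit 0x1783c98)) e)) (c (c (p (nat_lit
  0x1996908)) e) e)) (c (c (c (m (nat_lit 0x21a67d6)) e) e) e)) (c (c (c (c (m (nat_lit 0x4bdc71c)) e) e) e)
  e)) (c (c (c (c (c (m (nat_lit 0x1834ede)) e) e) e) e) e)) (c (c (c (c (c (c (p (nat_lit 0x7b4d70)) e) e)
  e) e) e) e)) (c (c (c (c (c (c (c (p (nat_lit 0x2cd230a)) e) e) e) e) e) e) e)) (c (c (c (c (c (c (c (c (m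
  (nat_lit 0x25b4fc8)) e) e) e) e) e) e) e) e)))) (c (c (c (c (c (c (c (c (c (m (nat_lit 0x64b0cfc)) (c (p
  (nat_lit 0x644037c)) (c (p (nat_lit 0x48bebd8)) e))) (c (c (p (nat_lit 0x2d8f244)) (c (m (nat_lit
  0x209e9a4)) e)) (c (c (m (nat_lit 0x257c1c)) e) e))) (c (c (c (p (nat_lit 0x7cb4de8)) (c (m (nat_lit
  0x179b1f4)) e)) (c (c (p (nat_lit 0x1471b0c)) e) e)) (c (c (c (p (nat_lit 0xcf6d74)) e) e) e))) (c (c (c (c
  (p (nat_lit 0x426864c)) (c (m (nat_lit 0xb3712c)) e)) (c (c (m (nat_lit 0x1bd6158)) e) e)) (c (c (c (m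
  (nat_lit 0x55da0d8)) e) e) e)) (c (c (c (c (p (nat_lit 0x13bf330)) e) e) e) e))) (c (c (c (c (c (p (nat_lit
  0x74d81c)) (c (m (nat_lit 0x27908f4)) e)) (c (c (m (nat_lit 0x21be2c)) e) e)) (c (c (c (m (nat_lit
  0x2171598)) e) e) e)) (c (c (c (c (p (nat_lit 0x6fbb8)) e) e) e) e)) (c (c (c (c (c (p (nat_lit 0x5f5518))
  e) e) e) e) e))) (c (c (c (c (c (c (p (nat_lit 0x82b891c)) (c (m (nat_lit 0x2539614)) e)) (c (c (m (nat_lit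
  0x1de2fc)) e) e)) (c (c (c (m (nat_lit 0x245499c)) e) e) e)) (c (c (c (c (m (nat_lit 0x91b5dc)) e) e) e)
  e)) (c (c (c (c (c (m (nat_lit 0x1d803e0)) e) e) e) e) e)) (c (c (c (c (c (c (m (nat_lit 0x5b52a6c)) e) e)
  e) e) e) e))) (c (c (c (c (c (c (c (p (nat_lit 0x6f5008e)) (c (m (nat_lit 0x30186f0)) e)) (c (c (m (nat_lit
  0x219cc30)) e) e)) (c (c (c (p (nat_lit 0x346f14)) e) e) e)) (c (c (c (c (p (nat_lit 0x1d9f988)) e) e) e)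
  e)) (c (c (c (c (c (p (nat_lit 0x3ae024)) e) e) e) e) e)) (c (c (c (c (c (c (p (nat_lit 0xb3478c)) e) e) e)
  e) e) e)) (c (c (c (c (c (c (c (m (nat_lit 0x6d1c29e)) e) e) e) e) e) e) e))) (c (c (c (c (c (c (c (c (p
  (nat_lit 0x9180c96)) (c (p (nat_lit 0x1591830)) e)) (c (c (p (nat_lit 0x1c970a0)) e) e)) (c (c (c (m
  (nat_lit 0x8a102c)) e) e) e)) (c (c (c (c (p (nat_lit 0x522c7e0)) e) e) e) e)) (c (c (c (c (c (m (nat_lit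
  0x2089164)) e) e) e) e) e)) (c (c (c (c (c (c (m (nat_lit 0x1ede234)) e) e) e) e) e) e)) (c (c (c (c (c (c
  (c (p (nat_lit 0x25e60fc)) e) e) e) e) e) e) e)) (c (c (c (c (c (c (c (c (p (nat_lit 0xd2e6ee)) e) e) e) e)
  e) e) e) e))) (c (c (c (c (c (c (c (c (c (m (nat_lit 0x2f76a14)) (c (m (nat_lit 0x178aa0)) e)) (c (c (m
  (nat_lit 0xbeda48)) e) e)) (c (c (c (m (nat_lit 0x22f2a8)) e) e) e)) (c (c (c (c (p (nat_lit 0x13c3d88)) e)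
  e) e) e)) (c (c (c (c (c (m (nat_lit 0x4c07b8)) e) e) e) e) e)) (c (c (c (c (c (c (p (nat_lit 0x142bcc0))
  e) e) e) e) e) e)) (c (c (c (c (c (c (c (m (nat_lit 0x4d06754)) e) e) e) e) e) e) e)) (c (c (c (c (c (c (c
  (c (m (nat_lit 0x337d6dc)) e) e) e) e) e) e) e) e)) (c (c (c (c (c (c (c (c (c (p (nat_lit 0x1929744)) e)
  e) e) e) e) e) e) e) e)))))

noncomputable def gt_1_3_7 : Tr :=
  (c (c (c (c (c (c (c (c (c (p (nat_lit 0xb79b3ac)) (c (m (nat_lit 0x2ff39ac)) (c (m (nat_lit 0x221ce50))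
  e))) (c (c (m (nat_lit 0x2ff3a90)) (c (p (nat_lit 0x3f0e928)) e)) (c (c (m (nat_lit 0x221cd54)) e) e))) (c
  (c (c (m (nat_lit 0x41d7b18)) (c (m (nat_lit 0x536cc4)) e)) (c (c (m (nat_lit 0x536ce8)) e) e)) (c (c (c (p
  (nat_lit 0x165b868)) e) e) e))) (c (c (c (c (m (nat_lit 0xce38bc0)) (c (m (nat_lit 0x1480b18)) (c (p
  (nat_lit 0x5d42bb8)) e))) (c (c (p (nat_lit 0x6586050)) (c (m (nat_lit 0x5e05ff0)) e)) (c (c (p (nat_lit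
  0x4bd2e70)) e) e))) (c (c (c (p (nat_lit 0x472f200)) (c (p (nat_lit 0x2b34700)) e)) (c (c (p (nat_lit
  0x21ef88)) e) e)) (c (c (c (m (nat_lit 0x12792f0)) e) e) e))) (c (c (c (c (p (nat_lit 0x4227570)) (c (p
  (nat_lit 0x459f258)) (c (m (nat_lit 0x17a8928)) e))) (c (c (m (nat_lit 0x220aa90)) (c (p (nat_lit
  0x2bddcd8)) e)) (c (c (m (nat_lit 0x19a3bc8)) e) e))) (c (c (c (m (nat_lit 0x2ade78)) (c (m (nat_lit
  0x38d0a20)) e)) (c (c (m (nat_lit 0x4e0a08)) e) e)) (c (c (c (m (nat_lit 0x406800)) e) e) e))) e))) (c (c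
  (c (c (c (m (nat_lit 0xce38920)) (c (p (nat_lit 0x65860b0)) (c (p (nat_lit 0x4bd2c90)) e))) (c (c (m
  (nat_lit 0x14809b0)) (c (m (nat_lit 0x5e05f00)) e)) (c (c (p (nat_lit 0x5d42a50)) e) e))) (c (c (c (p
  (nat_lit 0x472f0e0)) (c (p (nat_lit 0x21f030)) e)) (c (c (p (nat_lit 0x2b34670)) e) e)) (c (c (c (m
  (nat_lit 0x1279320)) e) e) e))) (c (c (c (c (p (nat_lit 0x28090a4)) (c (p (nat_lit 0x13f2588)) (c (m
  (nat_lit 0x3b11548)) e))) (c (c (p (nat_lit 0x13f2540)) (c (p (nat_lit 0x2c5f950)) e)) (c (c (m (nat_lit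
  0x3b114b8)) e) e))) (c (c (c (m (nat_lit 0x462dadc)) (c (p (nat_lit 0x1281c6c)) e)) (c (c (p (nat_lit
  0x1281c18)) e) e)) (c (c (c (p (nat_lit 0x31fc1e8)) e) e) e))) e)) (c (c (c (c (c (p (nat_lit 0x4227330))
  (c (m (nat_lit 0x220aa90)) (c (m (nat_lit 0x19a3b38)) e))) (c (c (p (nat_lit 0x459f1f8)) (c (p (nat_lit
  0x2bddc60)) e)) (c (c (m (nat_lit 0x17a8898)) e) e))) (c (c (c (m (nat_lit 0x2addb8)) (c (m (nat_lit
  0x4e09d8)) e)) (c (c (m (nat_lit 0x38d09a8)) e) e)) (c (c (c (m (nat_lit 0x406758)) e) e) e))) e) e))) (c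
  (c (c (c (c (c (m (nat_lit 0x5e71174)) (c (p (nat_lit 0x5c0fa84)) (c (m (nat_lit 0x2e66c5c)) e))) (c (c (p
  (nat_lit 0x5c0f910)) (c (m (nat_lit 0x18c450c)) e)) (c (c (m (nat_lit 0x2e66b48)) e) e))) (c (c (c (m
  (nat_lit 0x158b20c)) (c (m (nat_lit 0x283944)) e)) (c (c (m (nat_lit 0x2839b0)) e) e)) (c (c (c (p (nat_lit
  0x5e1e5c)) e) e) e))) (c (c (c (c (p (nat_lit 0xd1379c)) (c (m (nat_lit 0xf12c9c)) (c (p (nat_lit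
  0x160b810)) e))) (c (c (p (nat_lit 0xee2e4)) (c (p (nat_lit 0x878478)) e)) (c (c (m (nat_lit 0x36b0c4)) e)
  e))) (c (c (c (p (nat_lit 0x178755c)) (c (m (nat_lit 0x1805a0)) e)) (c (c (m (nat_lit 0x4bb7a8)) e) e)) (c
  (c (c (m (nat_lit 0xd55d24)) e) e) e))) e)) (c (c (c (c (c (p (nat_lit 0xd138e0)) (c (p (nat_lit 0xee314))
  (c (m (nat_lit 0x36b160)) e))) (c (c (m (nat_lit 0xf12b94)) (c (p (nat_lit 0x878580)) e)) (c (c (p (nat_lit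
  0x160b6d8)) e) e))) (c (c (c (p (nat_lit 0x178752c)) (c (m (nat_lit 0x4bb760)) e)) (c (c (m (nat_lit
  0x180570)) e) e)) (c (c (c (m (nat_lit 0xd55cdc)) e) e) e))) e) e)) (c (c (c (c (c (c (p (nat_lit
  0x1948b78)) (c (m (nat_lit 0x7c4bb0)) (c (p (nat_lit 0xc31ec0)) e))) (c (c (m (nat_lit 0x7c4b98)) (c (p
  (nat_lit 0xf0d404)) e)) (c (c (p (nat_lit 0xc31e24)) e) e))) (c (c (c (p (nat_lit 0x21367d4)) (c (m
  (nat_lit 0x970d04)) e)) (c (c (m (nat_lit 0x970c8c)) e) e)) (c (c (c (m (nat_lit 0xa46b68)) e) e) e))) e)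
  e) e))) (c (c (c (c (c (c (c (m (nat_lit 0x12955c3e)) (c (m (nat_lit 0x26ec7c4)) (c (p (nat_lit 0x80c50ec))
  e))) (c (c (m (nat_lit 0x26ec4ca)) (c (m (nat_lit 0x569faf0)) e)) (c (c (p (nat_lit 0x80c4eac)) e) e))) (c
  (c (c (p (nat_lit 0x4849818)) (c (m (nat_lit 0x1b88d34)) e)) (c (c (m (nat_lit 0x1b88d04)) e) e)) (c (c (c
  (m (nat_lit 0x2bae038)) e) e) e))) (c (c (c (c (p (nat_lit 0x10ecdbf0)) (c (m (nat_lit 0x554f538)) (c (m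
  (nat_lit 0x488c2e0)) e))) (c (c (m (nat_lit 0x20ade8a)) (c (p (nat_lit 0x1d83a34)) e)) (c (c (m (nat_lit
  0x722e2c)) e) e))) (c (c (c (p (nat_lit 0x3129a8)) (c (p (nat_lit 0x1317048)) e)) (c (c (m (nat_lit
  0xfca884)) e) e)) (c (c (c (p (nat_lit 0x1306b60)) e) e) e))) (c (c (c (c (m (nat_lit 0x38aa020)) (c (m
  (nat_lit 0x17a6108)) e)) (c (c (p (nat_lit 0x238c9b0)) e) e)) (c (c (c (m (nat_lit 0x1ed56f0)) e) e) e))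
  e))) (c (c (c (c (c (p (nat_lit 0x10ecd770)) (c (m (nat_lit 0x20adf9e)) (c (m (nat_lit 0x722dd8)) e))) (c
  (c (m (nat_lit 0x554f718)) (c (p (nat_lit 0x1d83a10)) e)) (c (c (m (nat_lit 0x488c1cc)) e) e))) (c (c (c (p
  (nat_lit 0x312b58)) (c (m (nat_lit 0xfca8a8)) e)) (c (c (p (nat_lit 0x1317054)) e) e)) (c (c (c (p (nat_lit
  0x1306a88)) e) e) e))) (c (c (c (c (p (nat_lit 0xca8e28)) (c (p (nat_lit 0x25f356c)) e)) (c (c (p (nat_lit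
  0x25f344c)) e) e)) (c (c (c (m (nat_lit 0x1fa8bb4)) e) e) e)) e)) (c (c (c (c (c (m (nat_lit 0x38a9d38)) (c
  (p (nat_lit 0x238ca88)) e)) (c (c (m (nat_lit 0x17a6090)) e) e)) (c (c (c (m (nat_lit 0x1ed5798)) e) e) e))
  e) e))) (c (c (c (c (c (c (m (nat_lit 0x819be6e)) (c (p (nat_lit 0x4139a42)) (c (m (nat_lit 0x51995ac))
  e))) (c (c (p (nat_lit 0x413985c)) (c (p (nat_lit 0x975cf0)) e)) (c (c (m (nat_lit 0x5199540)) e) e))) (c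
  (c (c (m (nat_lit 0x83d5cca)) (c (p (nat_lit 0x1681080)) e)) (c (c (p (nat_lit 0x1681104)) e) e)) (c (c (c
  (p (nat_lit 0x22f26b4)) e) e) e))) (c (c (c (c (p (nat_lit 0xf8a0f0)) (c (m (nat_lit 0x37b66c)) e)) (c (c
  (m (nat_lit 0xbb17d8)) e) e)) (c (c (c (p (nat_lit 0x21bfba4)) e) e) e)) e)) (c (c (c (c (c (p (nat_lit
  0xf89ef8)) (c (m (nat_lit 0xbb1790)) e)) (c (c (m (nat_lit 0x37b51c)) e) e)) (c (c (c (p (nat_lit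
  0x21bfbd4)) e) e) e)) e) e)) (c (c (c (c (c (c (m (nat_lit 0xc9b1b4)) (c (m (nat_lit 0x33a7bf8)) e)) (c (c
  (m (nat_lit 0x33a7b08)) e) e)) (c (c (c (p (nat_lit 0x2134e60)) e) e) e)) e) e) e))) (c (c (c (c (c (c (c
  (p (nat_lit 0xd6b074a)) (c (p (nat_lit 0x1972e66)) (c (m (nat_lit 0x42c57f0)) e))) (c (c (p (nat_lit
  0x1972ea2)) (c (p (nat_lit 0x2f07798)) e)) (c (c (m (nat_lit 0x42c5724)) e) e))) (c (c (c (p (nat_lit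
  0x4ce24f6)) (c (p (nat_lit 0x2156fd0)) e)) (c (c (p (nat_lit 0x2156fe8)) e) e)) (c (c (c (p (nat_lit
  0x8a9828)) e) e) e))) (c (c (c (c (m (nat_lit 0xdcbc1aa)) (c (p (nat_lit 0x6c93300)) e)) (c (c (m (nat_lit
  0xe74d82)) e) e)) (c (c (c (m (nat_lit 0x115e6c0)) e) e) e)) (c (c (c (c (p (nat_lit 0x1ee74b0)) e) e) e)
  e))) (c (c (c (c (c (m (nat_lit 0xdcbc11a)) (c (m (nat_lit 0xe74cfe)) e)) (c (c (p (nat_lit 0x6c93270)) e)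
  e)) (c (c (c (m (nat_lit 0x115e654)) e) e) e)) (c (c (c (c (m (nat_lit 0x5966b80)) e) e) e) e)) (c (c (c (c
  (c (p (nat_lit 0x1ee7300)) e) e) e) e) e))) (c (c (c (c (c (c (m (nat_lit 0x2b2e1c6)) (c (p (nat_lit
  0x1724412)) e)) (c (c (p (nat_lit 0x1724328)) e) e)) (c (c (c (p (nat_lit 0x4a99a)) e) e) e)) (c (c (c (c
  (p (nat_lit 0xede250)) e) e) e) e)) (c (c (c (c (c (p (nat_lit 0xede1f0)) e) e) e) e) e)) (c (c (c (c (c (c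
  (p (nat_lit 0x4ad9624)) e) e) e) e) e) e))) (c (c (c (c (c (c (c (m (nat_lit 0x12beb36)) (c (m (nat_lit
  0x2370e0a)) e)) (c (c (m (nat_lit 0x2370e70)) e) e)) (c (c (c (m (nat_lit 0x153fd7a)) e) e) e)) (c (c (c (c
  (p (nat_lit 0x21ee8ba)) e) e) e) e)) (c (c (c (c (c (p (nat_lit 0x21eea3a)) e) e) e) e) e)) (c (c (c (c (c
  (c (m (nat_lit 0xfc6cb4)) e) e) e) e) e) e)) (c (c (c (c (c (c (c (p (nat_lit 0x366409e)) e) e) e) e) e) e)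
  e))))) (c (c (c (c (c (c (c (c (p (nat_lit 0x44da6ec)) (c (m (nat_lit 0x295d436)) (c (p (nat_lit
  0x1ce531c)) e))) (c (c (m (nat_lit 0x10ab926)) (c (m (nat_lit 0x2110680)) e)) (c (c (p (nat_lit 0x5df75c))
  e) e))) (c (c (c (p (nat_lit 0xf1ecea)) (c (p (nat_lit 0xda4f84)) e)) (c (c (p (nat_lit 0x300f78)) e) e))
  (c (c (c (m (nat_lit 0x2624ac)) e) e) e))) (c (c (c (c (m (nat_lit 0x69d383c)) (c (p (nat_lit 0x2301ebe))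
  (c (m (nat_lit 0x1fede30)) e))) (c (c (p (nat_lit 0x81d508a)) (c (m (nat_lit 0x2aa4790)) e)) (c (c (p
  (nat_lit 0x247ca64)) e) e))) (c (c (c (p (nat_lit 0x15a753e)) (c (m (nat_lit 0x144ebec)) e)) (c (c (m
  (nat_lit 0x1694f4c)) e) e)) (c (c (c (m (nat_lit 0x836784)) e) e) e))) (c (c (c (c (p (nat_lit 0x2150d48))
  (c (m (nat_lit 0x52e828)) e)) (c (c (p (nat_lit 0x299a3a8)) e) e)) (c (c (c (m (nat_lit 0x2038380)) e) e)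
  e)) e))) (c (c (c (c (c (p (nat_lit 0x2666f58)) (c (m (nat_lit 0x14d7980)) (c (m (nat_lit 0x152c124)) e)))
  (c (c (p (nat_lit 0x103e58fe)) (c (p (nat_lit 0xe58c30)) e)) (c (c (p (nat_lit 0x1a2b060)) e) e))) (c (c (c
  (p (nat_lit 0x555c540)) (c (p (nat_lit 0xb9f940)) e)) (c (c (m (nat_lit 0x2058d8)) e) e)) (c (c (c (m
  (nat_lit 0x16cef0)) e) e) e))) (c (c (c (c (m (nat_lit 0x1214094)) (c (m (nat_lit 0xc56eb0)) e)) (c (c (m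
  (nat_lit 0xaf6770)) e) e)) (c (c (c (m (nat_lit 0x2d2868)) e) e) e)) e)) (c (c (c (c (c (m (nat_lit
  0x3d0af40)) (c (p (nat_lit 0x860fb8)) e)) (c (c (m (nat_lit 0x1a0fa48)) e) e)) (c (c (c (p (nat_lit
  0x16c8378)) e) e) e)) e) e))) (c (c (c (c (c (c (m (nat_lit 0x98caeb8)) (c (p (nat_lit 0x53c2bea)) (c (m
  (nat_lit 0xaeb214)) e))) (c (c (m (nat_lit 0x554b83c)) (c (p (nat_lit 0x42fca8)) e)) (c (c (m (nat_lit
  0xf15558)) e) e))) (c (c (c (p (nat_lit 0xf7e480)) (c (p (nat_lit 0x25a964)) e)) (c (c (p (nat_lit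
  0x19c353c)) e) e)) (c (c (c (m (nat_lit 0xa9fb60)) e) e) e))) (c (c (c (c (p (nat_lit 0x6ab0e70)) (c (m
  (nat_lit 0x7a3124)) e)) (c (c (m (nat_lit 0x2837e50)) e) e)) (c (c (c (p (nat_lit 0x488484)) e) e) e)) e))
  (c (c (c (c (c (m (nat_lit 0x839af0)) (c (m (nat_lit 0x2d2a24)) e)) (c (c (m (nat_lit 0xb0a954)) e) e)) (c
  (c (c (m (nat_lit 0x23658c)) e) e) e)) e) e)) (c (c (c (c (c (c (p (nat_lit 0x3718ecc)) (c (m (nat_lit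
  0xc7077c)) e)) (c (c (p (nat_lit 0x61ef48)) e) e)) (c (c (c (p (nat_lit 0xd7e68)) e) e) e)) e) e) e))) (c
  (c (c (c (c (c (c (p (nat_lit 0x5c66a9c)) (c (m (nat_lit 0x62f26c8)) (c (p (nat_lit 0x246d2c0)) e))) (c (c
  (p (nat_lit 0x4e5f3dc)) (c (p (nat_lit 0x190fea8)) e)) (c (c (m (nat_lit 0x34b750)) e) e))) (c (c (c (m
  (nat_lit 0x322295a)) (c (m (nat_lit 0x999804)) e)) (c (c (p (nat_lit 0xaf9b0)) e) e)) (c (c (c (m (nat_lit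
  0xdb4248)) e) e) e))) (c (c (c (c (m (nat_lit 0xf118d16)) (c (p (nat_lit 0x7d1c4e)) e)) (c (c (m (nat_lit
  0x5042f04)) e) e)) (c (c (c (p (nat_lit 0x2907702)) e) e) e)) (c (c (c (c (m (nat_lit 0xbeed80)) e) e) e)
  e))) (c (c (c (c (c (m (nat_lit 0x134bc8f6)) (c (p (nat_lit 0x34fdca6)) e)) (c (c (m (nat_lit 0x33a4f34))
  e) e)) (c (c (c (m (nat_lit 0x6784e6)) e) e) e)) (c (c (c (c (p (nat_lit 0x23bc3c8)) e) e) e) e)) (c (c (c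
  (c (c (p (nat_lit 0x3b58e58)) e) e) e) e) e))) (c (c (c (c (c (c (p (nat_lit 0x4715448)) (c (p (nat_lit
  0x390622e)) e)) (c (c (p (nat_lit 0x1da1b7e)) e) e)) (c (c (c (p (nat_lit 0x1b56af6)) e) e) e)) (c (c (c (c
  (m (nat_lit 0x2cd5c4c)) e) e) e) e)) (c (c (c (c (c (m (nat_lit 0x1f78248)) e) e) e) e) e)) (c (c (c (c (c
  (c (m (nat_lit 0x509028)) e) e) e) e) e) e))) (c (c (c (c (c (c (c (p (nat_lit 0x381bb86)) (c (p (nat_lit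
  0x1f37010)) e)) (c (c (m (nat_lit 0xf10ea8)) e) e)) (c (c (c (p (nat_lit 0x20d08d0)) e) e) e)) (c (c (c (c
  (p (nat_lit 0x6c622e6)) e) e) e) e)) (c (c (c (c (c (p (nat_lit 0x2293e90)) e) e) e) e) e)) (c (c (c (c (c
  (c (m (nat_lit 0x3d4a30)) e) e) e) e) e) e)) (c (c (c (c (c (c (c (m (nat_lit 0x5b2de8a)) e) e) e) e) e) e)
  e)))) (c (c (c (c (c (c (c (c (p (nat_lit 0x69bc9d6)) (c (m (nat_lit 0x3844a64)) (c (m (nat_lit 0xfe838c))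
  e))) (c (c (m (nat_lit 0x12ccd3fe)) (c (p (nat_lit 0x287d3c0)) e)) (c (c (m (nat_lit 0x163e648)) e) e))) (c
  (c (c (m (nat_lit 0x660a4ee)) (c (p (nat_lit 0x476e5c)) e)) (c (c (p (nat_lit 0xe820fc)) e) e)) (c (c (c (p
  (nat_lit 0x17052d8)) e) e) e))) (c (c (c (c (p (nat_lit 0xbf8e612)) (c (p (nat_lit 0x205e660)) e)) (c (c (m
  (nat_lit 0x4ce8f2e)) e) e)) (c (c (c (m (nat_lit 0xb6fafc)) e) e) e)) (c (c (c (c (m (nat_lit 0xb12370)) e)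
  e) e) e))) (c (c (c (c (c (p (nat_lit 0xadb5ff0)) (c (m (nat_lit 0x2c3b6ce)) e)) (c (c (m (nat_lit
  0x5a8c6d6)) e) e)) (c (c (c (m (nat_lit 0x86e439a)) e) e) e)) (c (c (c (c (m (nat_lit 0x1c96ec)) e) e) e)
  e)) (c (c (c (c (c (p (nat_lit 0x1323300)) e) e) e) e) e))) (c (c (c (c (c (c (p (nat_lit 0xc9fc8c4)) (c (m
  (nat_lit 0xfdf350)) e)) (c (c (p (nat_lit 0x5584b66)) e) e)) (c (c (c (m (nat_lit 0x268ee9a)) e) e) e)) (c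
  (c (c (c (m (nat_lit 0x23ac51c)) e) e) e) e)) (c (c (c (c (c (p (nat_lit 0xd83750)) e) e) e) e) e)) (c (c
  (c (c (c (c (m (nat_lit 0x2594dc0)) e) e) e) e) e) e))) (c (c (c (c (c (c (c (p (nat_lit 0x552b2b6)) (c (m
  (nat_lit 0x1530e3a)) e)) (c (c (m (nat_lit 0x4605576)) e) e)) (c (c (c (p (nat_lit 0x221db64)) e) e) e)) (c
  (c (c (c (p (nat_lit 0x523644)) e) e) e) e)) (c (c (c (c (c (p (nat_lit 0x2aade8c)) e) e) e) e) e)) (c (c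
  (c (c (c (c (m (nat_lit 0x1a69a00)) e) e) e) e) e) e)) (c (c (c (c (c (c (c (m (nat_lit 0x5d25da)) e) e) e)
  e) e) e) e))) (c (c (c (c (c (c (c (c (m (nat_lit 0xc1d4a26)) (c (p (nat_lit 0x1d4ea9c)) e)) (c (c (p
  (nat_lit 0xd2e2de2)) e) e)) (c (c (c (p (nat_lit 0x50f8a22)) e) e) e)) (c (c (c (c (p (nat_lit 0x528bfa))
  e) e) e) e)) (c (c (c (c (c (m (nat_lit 0x10a599e)) e) e) e) e) e)) (c (c (c (c (c (c (m (nat_lit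
  0x4e37d34)) e) e) e) e) e) e)) (c (c (c (c (c (c (c (m (nat_lit 0x26c2026)) e) e) e) e) e) e) e)) (c (c (c
  (c (c (c (c (c (p (nat_lit 0x11e01ee)) e) e) e) e) e) e) e) e))))) (c (c (c (c (c (c (c (c (c (m (nat_lit
  0x2a9930c)) (c (m (nat_lit 0x305ef98)) (c (p (nat_lit 0x5df75c)) e))) (c (c (m (nat_lit 0x4314570)) (c (m
  (nat_lit 0x2110644)) e)) (c (c (p (nat_lit 0x1ce5124)) e) e))) (c (c (c (p (nat_lit 0xfe89ec)) (c (p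
  (nat_lit 0x300f30)) e)) (c (c (p (nat_lit 0xda4f90)) e) e)) (c (c (c (m (nat_lit 0x262440)) e) e) e))) (c
  (c (c (c (p (nat_lit 0x9f6825c)) (c (p (nat_lit 0x1e4050c)) (c (p (nat_lit 0x1a2b228)) e))) (c (c (m
  (nat_lit 0x16b92dc)) (c (p (nat_lit 0xe58af8)) e)) (c (c (m (nat_lit 0x152bf68)) e) e))) (c (c (c (m
  (nat_lit 0x2b11e04)) (c (m (nat_lit 0x205920)) e)) (c (c (p (nat_lit 0xb9f9a0)) e) e)) (c (c (c (m (nat_lit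
  0x16cf80)) e) e) e))) (c (c (c (c (m (nat_lit 0x3d0ae68)) (c (m (nat_lit 0x1a0fc70)) e)) (c (c (p (nat_lit
  0x8610d8)) e) e)) (c (c (c (p (nat_lit 0x16c8420)) e) e) e)) e))) (c (c (c (c (c (m (nat_lit 0x6fe5530)) (c
  (m (nat_lit 0x42c8b74)) (c (p (nat_lit 0x247cbfc)) e))) (c (c (p (nat_lit 0x443cb20)) (c (m (nat_lit
  0x2aa4874)) e)) (c (c (m (nat_lit 0x1fedd40)) e) e))) (c (c (c (p (nat_lit 0x32091e4)) (c (m (nat_lit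
  0x1694f58)) e)) (c (c (m (nat_lit 0x144ebbc)) e) e)) (c (c (c (m (nat_lit 0x8367e4)) e) e) e))) (c (c (c (c
  (m (nat_lit 0x12143f4)) (c (m (nat_lit 0xaf68a8)) e)) (c (c (m (nat_lit 0xc56e50)) e) e)) (c (c (c (m
  (nat_lit 0x2d2898)) e) e) e)) e)) (c (c (c (c (c (p (nat_lit 0x2150f28)) (c (p (nat_lit 0x299a2d0)) e)) (c
  (c (m (nat_lit 0x52e8d0)) e) e)) (c (c (c (m (nat_lit 0x2038380)) e) e) e)) e) e))) (c (c (c (c (c (c (m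
  (nat_lit 0x7fb2d9c)) (c (m (nat_lit 0x17e69c8)) (c (m (nat_lit 0xf1554c)) e))) (c (c (p (nat_lit
  0x47e3b00)) (c (p (nat_lit 0x42fc90)) e)) (c (c (m (nat_lit 0xaeb1fc)) e) e))) (c (c (c (p (nat_lit
  0xe1a3b0)) (c (p (nat_lit 0x19c3554)) e)) (c (c (p (nat_lit 0x25a9e8)) e) e)) (c (c (c (m (nat_lit
  0xa9fb00)) e) e) e))) (c (c (c (c (m (nat_lit 0x839a24)) (c (m (nat_lit 0xb0a894)) e)) (c (c (m (nat_lit
  0x2d2acc)) e) e)) (c (c (c (m (nat_lit 0x2365f8)) e) e) e)) e)) (c (c (c (c (c (p (nat_lit 0x6ab0e64)) (c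
  (m (nat_lit 0x2837d18)) e)) (c (c (m (nat_lit 0x7a30dc)) e) e)) (c (c (c (p (nat_lit 0x488424)) e) e) e))
  e) e)) (c (c (c (c (c (c (p (nat_lit 0x3718d34)) (c (p (nat_lit 0x61f080)) e)) (c (c (m (nat_lit 0xc707ac))
  e) e)) (c (c (c (p (nat_lit 0xd7dc0)) e) e) e)) e) e) e))) (c (c (c (c (c (c (c (p (nat_lit 0xe5c453e)) (c
  (p (nat_lit 0x67e20e2)) (c (m (nat_lit 0x34b96c)) e))) (c (c (m (nat_lit 0xa713c60)) (c (p (nat_lit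
  0x1910058)) e)) (c (c (p (nat_lit 0x246d104)) e) e))) (c (c (c (m (nat_lit 0x30bcb08)) (c (p (nat_lit
  0xaf9d4)) e)) (c (c (m (nat_lit 0x99984c)) e) e)) (c (c (c (m (nat_lit 0xdb41dc)) e) e) e))) (c (c (c (c (m
  (nat_lit 0xa925a9c)) (c (m (nat_lit 0x297e9ac)) e)) (c (c (p (nat_lit 0x3a94d54)) e) e)) (c (c (c (p
  (nat_lit 0x436fec)) e) e) e)) (c (c (c (c (p (nat_lit 0x3b59068)) e) e) e) e))) (c (c (c (c (c (m (nat_lit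
  0x2e1f412)) (c (m (nat_lit 0x112f080)) e)) (c (c (m (nat_lit 0x6ab84c)) e) e)) (c (c (c (p (nat_lit
  0x8214)) e) e) e)) (c (c (c (c (p (nat_lit 0x23bc50c)) e) e) e) e)) (c (c (c (c (c (m (nat_lit 0xbeee88))
  e) e) e) e) e))) (c (c (c (c (c (c (p (nat_lit 0x262b4a4)) (c (p (nat_lit 0x1d9caa8)) e)) (c (c (p (nat_lit
  0x38712b4)) e) e)) (c (c (c (p (nat_lit 0xe3a18c)) e) e) e)) (c (c (c (c (m (nat_lit 0x1f782fc)) e) e) e)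
  e)) (c (c (c (c (c (m (nat_lit 0x2cd5d24)) e) e) e) e) e)) (c (c (c (c (c (c (m (nat_lit 0x509178)) e) e)
  e) e) e) e))) (c (c (c (c (c (c (c (m (nat_lit 0x9de20a)) (c (m (nat_lit 0x3d17732)) e)) (c (c (p (nat_lit
  0x2e30a7c)) e) e)) (c (c (c (p (nat_lit 0x1d30c4c)) e) e) e)) (c (c (c (c (p (nat_lit 0x1abb6fc)) e) e) e)
  e)) (c (c (c (c (c (p (nat_lit 0x4d54cee)) e) e) e) e) e)) (c (c (c (c (c (c (m (nat_lit 0x118e54)) e) e)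
  e) e) e) e)) (c (c (c (c (c (c (c (m (nat_lit 0x428e284)) e) e) e) e) e) e) e)))) (c (c (c (c (c (c (c (c
  (m (nat_lit 0xd081ed2)) (c (m (nat_lit 0x1dcab4c)) (c (p (nat_lit 0x23d15d8)) e))) (c (c (p (nat_lit
  0xc6b89e)) (c (m (nat_lit 0x142a3c4)) e)) (c (c (p (nat_lit 0x23d162c)) e) e))) (c (c (c (p (nat_lit
  0x1ebb14)) (c (m (nat_lit 0x6b90dc)) e)) (c (c (m (nat_lit 0x6b9148)) e) e)) (c (c (c (m (nat_lit
  0xa77d2c)) e) e) e))) (c (c (c (c (p (nat_lit 0x2954b26)) (c (m (nat_lit 0x3d418a0)) e)) (c (c (p (nat_lit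
  0x19e8970)) e) e)) (c (c (c (m (nat_lit 0x641220)) e) e) e)) (c (c (c (c (m (nat_lit 0x34d64d8)) e) e) e)
  e))) (c (c (c (c (c (p (nat_lit 0x68a9f36)) (c (p (nat_lit 0x19e8898)) e)) (c (c (m (nat_lit 0x3d417e0)) e)
  e)) (c (c (c (m (nat_lit 0x6412ec)) e) e) e)) (c (c (c (c (p (nat_lit 0x1dfd78)) e) e) e) e)) (c (c (c (c
  (c (m (nat_lit 0x34d63a0)) e) e) e) e) e))) (c (c (c (c (c (c (p (nat_lit 0x2e614a2)) (c (p (nat_lit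
  0xbe8654)) e)) (c (c (p (nat_lit 0xbe85dc)) e) e)) (c (c (c (m (nat_lit 0x23dc1f8)) e) e) e)) (c (c (c (c
  (m (nat_lit 0x1f18614)) e) e) e) e)) (c (c (c (c (c (m (nat_lit 0x1f18530)) e) e) e) e) e)) (c (c (c (c (c
  (c (m (nat_lit 0x54a7478)) e) e) e) e) e) e))) (c (c (c (c (c (c (c (m (nat_lit 0x8013288)) (c (p (nat_lit
  0x35a1764)) e)) (c (c (p (nat_lit 0x3a18b36)) e) e)) (c (c (c (m (nat_lit 0xb90c2e)) e) e) e)) (c (c (c (c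
  (p (nat_lit 0x713c9d0)) e) e) e) e)) (c (c (c (c (c (p (nat_lit 0x540ba00)) e) e) e) e) e)) (c (c (c (c (c
  (c (p (nat_lit 0x1be47bc)) e) e) e) e) e) e)) (c (c (c (c (c (c (c (m (nat_lit 0x2ba1efa)) e) e) e) e) e)
  e) e))) (c (c (c (c (c (c (c (c (m (nat_lit 0x24ff25e)) (c (p (nat_lit 0x1031850)) e)) (c (c (m (nat_lit
  0x2f3b5e4)) e) e)) (c (c (c (p (nat_lit 0x4133916)) e) e) e)) (c (c (c (c (m (nat_lit 0xe83a52)) e) e) e)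
  e)) (c (c (c (c (c (m (nat_lit 0x1da673e)) e) e) e) e) e)) (c (c (c (c (c (c (p (nat_lit 0x68efc9e)) e) e)
  e) e) e) e)) (c (c (c (c (c (c (c (m (nat_lit 0x204bce8)) e) e) e) e) e) e) e)) (c (c (c (c (c (c (c (c (p
  (nat_lit 0x8956176)) e) e) e) e) e) e) e) e)))) (c (c (c (c (c (c (c (c (c (p (nat_lit 0x634b294)) (c (p
  (nat_lit 0xa7007c)) (c (m (nat_lit 0x163e5f4)) e))) (c (c (m (nat_lit 0x11757e4)) (c (p (nat_lit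
  0x287d378)) e)) (c (c (m (nat_lit 0xfe823c)) e) e))) (c (c (c (m (nat_lit 0x17e0230)) (c (p (nat_lit
  0xe8209c)) e)) (c (c (p (nat_lit 0x476e08)) e) e)) (c (c (c (p (nat_lit 0x170523c)) e) e) e))) (c (c (c (c
  (m (nat_lit 0x66378c)) (c (p (nat_lit 0x80f2728)) e)) (c (c (m (nat_lit 0x2ff1300)) e) e)) (c (c (c (m
  (nat_lit 0x1125414)) e) e) e)) (c (c (c (c (p (nat_lit 0x13230f0)) e) e) e) e))) (c (c (c (c (c (p (nat_lit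
  0xddbfb0)) (c (p (nat_lit 0x38a0d44)) e)) (c (c (p (nat_lit 0xda0e98)) e) e)) (c (c (c (p (nat_lit
  0x12e034)) e) e) e)) (c (c (c (c (m (nat_lit 0x1c9890)) e) e) e) e)) (c (c (c (c (c (m (nat_lit 0xb12400))
  e) e) e) e) e))) (c (c (c (c (c (c (p (nat_lit 0x58de0bc)) (c (p (nat_lit 0x1824780)) e)) (c (c (m (nat_lit
  0x36b238)) e) e)) (c (c (c (m (nat_lit 0x180e184)) e) e) e)) (c (c (c (c (p (nat_lit 0xd83720)) e) e) e)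
  e)) (c (c (c (c (c (m (nat_lit 0x23ac4e0)) e) e) e) e) e)) (c (c (c (c (c (c (m (nat_lit 0x2594c28)) e) e)
  e) e) e) e))) (c (c (c (c (c (c (c (m (nat_lit 0x1e63cfc)) (c (m (nat_lit 0x49f9bd8)) e)) (c (c (p (nat_lit
  0x262ee7c)) e) e)) (c (c (c (p (nat_lit 0x2806b48)) e) e) e)) (c (c (c (c (m (nat_lit 0x4b0a38c)) e) e) e)
  e)) (c (c (c (c (c (p (nat_lit 0x894a44)) e) e) e) e) e)) (c (c (c (c (c (c (p (nat_lit 0x10dd414)) e) e)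
  e) e) e) e)) (c (c (c (c (c (c (c (m (nat_lit 0x72bca0)) e) e) e) e) e) e) e))) (c (c (c (c (c (c (c (c (p
  (nat_lit 0xa096b48)) (c (m (nat_lit 0x802f68)) e)) (c (c (p (nat_lit 0x8bc560)) e) e)) (c (c (c (p (nat_lit
  0x37ed6bc)) e) e) e)) (c (c (c (c (p (nat_lit 0x2ee9e4)) e) e) e) e)) (c (c (c (c (c (m (nat_lit
  0x1012f38)) e) e) e) e) e)) (c (c (c (c (c (c (m (nat_lit 0x709e6c)) e) e) e) e) e) e)) (c (c (c (c (c (c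
  (c (p (nat_lit 0x39085aa)) e) e) e) e) e) e) e)) (c (c (c (c (c (c (c (c (m (nat_lit 0xc05dc2a)) e) e) e)
  e) e) e) e) e))) (c (c (c (c (c (c (c (c (c (m (nat_lit 0x2dfdb3c)) (c (m (nat_lit 0x2c2e8ac)) e)) (c (c (p
  (nat_lit 0x9feaa8)) e) e)) (c (c (c (m (nat_lit 0x1aab88)) e) e) e)) (c (c (c (c (p (nat_lit 0x1c6c68c)) e)
  e) e) e)) (c (c (c (c (c (p (nat_lit 0x158f964)) e) e) e) e) e)) (c (c (c (c (c (c (m (nat_lit 0x34a388))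
  e) e) e) e) e) e)) (c (c (c (c (c (c (c (m (nat_lit 0x22c173c)) e) e) e) e) e) e) e)) (c (c (c (c (c (c (c
  (c (p (nat_lit 0x4f5c0c)) e) e) e) e) e) e) e) e)) (c (c (c (c (c (c (c (c (c (p (nat_lit 0x4d2c98)) e) e)
  e) e) e) e) e) e) e)))))

noncomputable def gt_1_3 : Tr := (c gt_1_3_3 (c gt_1_3_4 (c gt_1_3_5 (c gt_1_3_6 (c gt_1_3_7 e)))))

noncomputable def gt_1_4_4 : Tr :=
  (c (c (c (c (c (c (c (c (c (p (nat_lit 0x11622378)) (c (m (nat_lit 0xd9b75a8)) (c (p (nat_lit 0x1ae2dd4))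
  e))) (c (c (m (nat_lit 0xd9b777c)) (c (m (nat_lit 0x9abda4)) e)) (c (c (p (nat_lit 0x1ae2ce4)) e) e))) (c
  (c (c (m (nat_lit 0x30d93032)) (c (p (nat_lit 0x640e4bc)) e)) (c (c (p (nat_lit 0x640e4d4)) e) e)) (c (c (c
  (p (nat_lit 0x1f29938a)) e) e) e))) (c (c (c (c (m (nat_lit 0xd9b75a8)) (c (p (nat_lit 0x1fae3d88)) (c (m
  (nat_lit 0x97697d0)) e))) (c (c (m (nat_lit 0x22300e0)) (c (m (nat_lit 0x101bff8)) e)) (c (c (p (nat_lit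
  0x208e108)) e) e))) (c (c (c (p (nat_lit 0x1fcf3818)) (c (m (nat_lit 0x96cbe98)) e)) (c (c (m (nat_lit
  0x15bb548)) e) e)) (c (c (c (m (nat_lit 0x16e7ab38)) e) e) e))) (c (c (c (c (p (nat_lit 0x1ae2dd4)) (c (m
  (nat_lit 0x97697d0)) (c (p (nat_lit 0xc54a080)) e))) (c (c (p (nat_lit 0x208df70)) (c (m (nat_lit
  0xcf33f0)) e)) (c (c (m (nat_lit 0x36b3220)) e) e))) (c (c (c (m (nat_lit 0x560c238)) (c (p (nat_lit
  0x1f9c338)) e)) (c (c (m (nat_lit 0x90bd0)) e) e)) (c (c (c (p (nat_lit 0x513d4ac)) e) e) e))) e))) (c (c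
  (c (c (c (m (nat_lit 0xd9b777c)) (c (m (nat_lit 0x22300e0)) (c (p (nat_lit 0x208df70)) e))) (c (c (p
  (nat_lit 0x1fae3ce0)) (c (m (nat_lit 0x101bf38)) e)) (c (c (m (nat_lit 0x9769728)) e) e))) (c (c (c (p
  (nat_lit 0x1fcf3b78)) (c (m (nat_lit 0x15bb4d0)) e)) (c (c (m (nat_lit 0x96cbd90)) e) e)) (c (c (c (m
  (nat_lit 0x16e7ad9c)) e) e) e))) (c (c (c (c (m (nat_lit 0x9abda4)) (c (m (nat_lit 0x101bff8)) (c (m
  (nat_lit 0xcf33f0)) e))) (c (c (m (nat_lit 0x101bf38)) (c (p (nat_lit 0x7453038)) e)) (c (c (m (nat_lit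
  0xcf33d8)) e) e))) (c (c (c (p (nat_lit 0x1c16478)) (c (p (nat_lit 0x955de8)) e)) (c (c (p (nat_lit
  0x955d70)) e) e)) (c (c (c (m (nat_lit 0x219f9c)) e) e) e))) e)) (c (c (c (c (c (p (nat_lit 0x1ae2ce4)) (c
  (p (nat_lit 0x208e108)) (c (m (nat_lit 0x36b3220)) e))) (c (c (m (nat_lit 0x9769728)) (c (m (nat_lit
  0xcf33d8)) e)) (c (c (p (nat_lit 0xc54a110)) e) e))) (c (c (c (m (nat_lit 0x560c154)) (c (m (nat_lit
  0x90d08)) e)) (c (c (p (nat_lit 0x1f9c290)) e) e)) (c (c (c (p (nat_lit 0x513d488)) e) e) e))) e) e))) (c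
  (c (c (c (c (c (m (nat_lit 0x30d93032)) (c (p (nat_lit 0x1fcf3818)) (c (m (nat_lit 0x560c238)) e))) (c (c
  (p (nat_lit 0x1fcf3b78)) (c (p (nat_lit 0x1c16478)) e)) (c (c (m (nat_lit 0x560c154)) e) e))) (c (c (c (p
  (nat_lit 0xbec686f0)) (c (m (nat_lit 0x1542c870)) e)) (c (c (m (nat_lit 0x1542cc00)) e) e)) (c (c (c (m
  (nat_lit 0x7ef1cf7a)) e) e) e))) (c (c (c (c (p (nat_lit 0x640e4bc)) (c (m (nat_lit 0x96cbe98)) (c (p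
  (nat_lit 0x1f9c338)) e))) (c (c (m (nat_lit 0x15bb4d0)) (c (p (nat_lit 0x955de8)) e)) (c (c (m (nat_lit
  0x90d08)) e) e))) (c (c (c (m (nat_lit 0x1542c870)) (c (p (nat_lit 0xc944928)) e)) (c (c (p (nat_lit
  0x1b8bc50)) e) e)) (c (c (c (p (nat_lit 0xe78e3d4)) e) e) e))) e)) (c (c (c (c (c (p (nat_lit 0x640e4d4))
  (c (m (nat_lit 0x15bb548)) (c (m (nat_lit 0x90bd0)) e))) (c (c (m (nat_lit 0x96cbd90)) (c (p (nat_lit
  0x955d70)) e)) (c (c (p (nat_lit 0x1f9c290)) e) e))) (c (c (c (m (nat_lit 0x1542cc00)) (c (p (nat_lit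
  0x1b8bc50)) e)) (c (c (p (nat_lit 0xc9448b0)) e) e)) (c (c (c (p (nat_lit 0xe78e65c)) e) e) e))) e) e)) (c
  (c (c (c (c (c (p (nat_lit 0x1f29938a)) (c (m (nat_lit 0x16e7ab38)) (c (p (nat_lit 0x513d4ac)) e))) (c (c
  (m (nat_lit 0x16e7ad9c)) (c (m (nat_lit 0x219f9c)) e)) (c (c (p (nat_lit 0x513d488)) e) e))) (c (c (c (m
  (nat_lit 0x7ef1cf7a)) (c (p (nat_lit 0xe78e3d4)) e)) (c (c (p (nat_lit 0xe78e65c)) e) e)) (c (c (c (p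
  (nat_lit 0x5b295484)) e) e) e))) e) e) e))) (c (c (c (c (c (c (c (p (nat_lit 0x11c50c38)) (c (p (nat_lit
  0xd5211e)) (c (p (nat_lit 0x180888)) e))) (c (c (p (nat_lit 0xd51f26)) (c (p (nat_lit 0x1025da8)) e)) (c (c
  (p (nat_lit 0x180978)) e) e))) (c (c (c (m (nat_lit 0x325b3d5c)) (c (p (nat_lit 0x471ce58)) e)) (c (c (p
  (nat_lit 0x471ced0)) e) e)) (c (c (c (p (nat_lit 0x1b29a3e4)) e) e) e))) (c (c (c (c (p (nat_lit 0xd5211e))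
  (c (m (nat_lit 0x4fe92fa)) (c (p (nat_lit 0x33e57e8)) e))) (c (c (p (nat_lit 0x1abb468)) (c (p (nat_lit
  0x412fb0)) e)) (c (c (m (nat_lit 0x438a98)) e) e))) (c (c (c (m (nat_lit 0x9e582dc)) (c (p (nat_lit
  0x249210)) e)) (c (c (m (nat_lit 0x2171058)) e) e)) (c (c (c (p (nat_lit 0x3c2dfb4)) e) e) e))) (c (c (c (c
  (p (nat_lit 0x180888)) (c (p (nat_lit 0x33e57e8)) e)) (c (c (m (nat_lit 0x4389d8)) e) e)) (c (c (c (m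
  (nat_lit 0x77c9a0)) e) e) e)) e))) (c (c (c (c (c (p (nat_lit 0xd51f26)) (c (p (nat_lit 0x1abb468)) (c (m
  (nat_lit 0x4389d8)) e))) (c (c (m (nat_lit 0x4fe923a)) (c (p (nat_lit 0x412fb0)) e)) (c (c (p (nat_lit
  0x33e5758)) e) e))) (c (c (c (m (nat_lit 0x9e58360)) (c (m (nat_lit 0x2171130)) e)) (c (c (p (nat_lit
  0x249210)) e) e)) (c (c (c (p (nat_lit 0x3c2e068)) e) e) e))) (c (c (c (c (p (nat_lit 0x1025da8)) (c (p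
  (nat_lit 0x412fb0)) e)) (c (c (p (nat_lit 0x412fb0)) e) e)) (c (c (c (m (nat_lit 0x11e8510)) e) e) e)) e))
  (c (c (c (c (c (p (nat_lit 0x180978)) (c (m (nat_lit 0x438a98)) e)) (c (c (p (nat_lit 0x33e5758)) e) e)) (c
  (c (c (m (nat_lit 0x77caf0)) e) e) e)) e) e))) (c (c (c (c (c (c (m (nat_lit 0x325b3d5c)) (c (m (nat_lit
  0x9e582dc)) (c (m (nat_lit 0x77c9a0)) e))) (c (c (m (nat_lit 0x9e58360)) (c (m (nat_lit 0x11e8510)) e)) (c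
  (c (m (nat_lit 0x77caf0)) e) e))) (c (c (c (p (nat_lit 0x18950aae)) (c (p (nat_lit 0x1f65bd0)) e)) (c (c (p
  (nat_lit 0x1f65c60)) e) e)) (c (c (c (p (nat_lit 0x10f3aeec)) e) e) e))) (c (c (c (c (p (nat_lit
  0x471ce58)) (c (p (nat_lit 0x249210)) e)) (c (c (m (nat_lit 0x2171130)) e) e)) (c (c (c (p (nat_lit
  0x1f65bd0)) e) e) e)) e)) (c (c (c (c (c (p (nat_lit 0x471ced0)) (c (m (nat_lit 0x2171058)) e)) (c (c (p
  (nat_lit 0x249210)) e) e)) (c (c (c (p (nat_lit 0x1f65c60)) e) e) e)) e) e)) (c (c (c (c (c (c (p (nat_lit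
  0x1b29a3e4)) (c (p (nat_lit 0x3c2dfb4)) e)) (c (c (p (nat_lit 0x3c2e068)) e) e)) (c (c (c (p (nat_lit
  0x10f3aeec)) e) e) e)) e) e) e))) (c (c (c (c (c (c (c (m (nat_lit 0x10a1e364)) (c (m (nat_lit 0x368cb3e))
  (c (m (nat_lit 0xec688)) e))) (c (c (m (nat_lit 0x368c976)) (c (m (nat_lit 0x25843c8)) e)) (c (c (m
  (nat_lit 0xec6d0)) e) e))) (c (c (c (p (nat_lit 0x3ea07524)) (c (m (nat_lit 0x3167280)) e)) (c (c (m
  (nat_lit 0x3167358)) e) e)) (c (c (c (m (nat_lit 0x2272dcdc)) e) e) e))) (c (c (c (c (m (nat_lit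
  0x368cb3e)) (c (p (nat_lit 0x4dfcfb2)) e)) (c (c (m (nat_lit 0x28737d8)) e) e)) (c (c (c (m (nat_lit
  0x1042050)) e) e) e)) (c (c (c (c (m (nat_lit 0xec688)) e) e) e) e))) (c (c (c (c (c (m (nat_lit
  0x368c976)) (c (m (nat_lit 0x28737d8)) e)) (c (c (p (nat_lit 0x4dfcf6a)) e) e)) (c (c (c (m (nat_lit
  0x10420b0)) e) e) e)) (c (c (c (c (m (nat_lit 0x25843c8)) e) e) e) e)) (c (c (c (c (c (m (nat_lit 0xec6d0))
  e) e) e) e) e))) (c (c (c (c (c (c (p (nat_lit 0x3ea07524)) (c (m (nat_lit 0x1042050)) e)) (c (c (m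
  (nat_lit 0x10420b0)) e) e)) (c (c (c (m (nat_lit 0x4514f9a6)) e) e) e)) (c (c (c (c (m (nat_lit 0x3167280))
  e) e) e) e)) (c (c (c (c (c (m (nat_lit 0x3167358)) e) e) e) e) e)) (c (c (c (c (c (c (m (nat_lit
  0x2272dcdc)) e) e) e) e) e) e))) (c (c (c (c (c (c (c (m (nat_lit 0x1415da2)) (c (p (nat_lit 0x341bb60))
  e)) (c (c (p (nat_lit 0x341bae8)) e) e)) (c (c (c (p (nat_lit 0x58b7fe0)) e) e) e)) (c (c (c (c (p (nat_lit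
  0x341bb60)) e) e) e) e)) (c (c (c (c (c (p (nat_lit 0x341bae8)) e) e) e) e) e)) (c (c (c (c (c (c (p
  (nat_lit 0x58b7fe0)) e) e) e) e) e) e)) (c (c (c (c (c (c (c (p (nat_lit 0x98c8e)) e) e) e) e) e) e) e)))))
  (c (c (c (c (c (c (c (c (p (nat_lit 0x1487d870)) (c (m (nat_lit 0x86d7b7e)) (c (m (nat_lit 0x31a7ae0)) e)))
  (c (c (m (nat_lit 0x431d060)) (c (p (nat_lit 0x261c9d8)) e)) (c (c (p (nat_lit 0x1514fd0)) e) e))) (c (c (c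
  (m (nat_lit 0x15a5fd74)) (c (m (nat_lit 0x1fa7630)) e)) (c (c (p (nat_lit 0x1a011b0)) e) e)) (c (c (c (p
  (nat_lit 0x1456b9c)) e) e) e))) (c (c (c (c (m (nat_lit 0x86d7b7e)) (c (p (nat_lit 0xec25c0)) (c (p
  (nat_lit 0x3433f8)) e))) (c (c (p (nat_lit 0x2b57b3c)) (c (m (nat_lit 0xe673a8)) e)) (c (c (m (nat_lit
  0x6e4d98)) e) e))) (c (c (c (m (nat_lit 0x64ed9aa)) (c (p (nat_lit 0x14f75d0)) e)) (c (c (m (nat_lit
  0x342b10)) e) e)) (c (c (c (p (nat_lit 0x5ee060c)) e) e) e))) (c (c (c (c (m (nat_lit 0x31a7ae0)) (c (p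
  (nat_lit 0x3433f8)) e)) (c (c (p (nat_lit 0x1260d98)) e) e)) (c (c (c (p (nat_lit 0x16c320)) e) e) e)) e)))
  (c (c (c (c (c (m (nat_lit 0x431d060)) (c (p (nat_lit 0x2b57b3c)) (c (p (nat_lit 0x1260d98)) e))) (c (c (p
  (nat_lit 0x30101dae)) (c (m (nat_lit 0x96dc8)) e)) (c (c (m (nat_lit 0x35ae670)) e) e))) (c (c (c (p
  (nat_lit 0x13432c5c)) (c (m (nat_lit 0x84b1d8)) e)) (c (c (m (nat_lit 0x4711b90)) e) e)) (c (c (c (m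
  (nat_lit 0x3730f2c)) e) e) e))) (c (c (c (c (p (nat_lit 0x261c9d8)) (c (m (nat_lit 0xe673a8)) e)) (c (c (m
  (nat_lit 0x96dc8)) e) e)) (c (c (c (m (nat_lit 0xa86888)) e) e) e)) e)) (c (c (c (c (c (p (nat_lit
  0x1514fd0)) (c (m (nat_lit 0x6e4d98)) e)) (c (c (m (nat_lit 0x35ae670)) e) e)) (c (c (c (m (nat_lit
  0x34c90b0)) e) e) e)) e) e))) (c (c (c (c (c (c (m (nat_lit 0x15a5fd74)) (c (m (nat_lit 0x64ed9aa)) (c (p
  (nat_lit 0x16c320)) e))) (c (c (p (nat_lit 0x13432c5c)) (c (m (nat_lit 0xa86888)) e)) (c (c (m (nat_lit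
  0x34c90b0)) e) e))) (c (c (c (p (nat_lit 0x21c35f88)) (c (p (nat_lit 0x32c010)) e)) (c (c (m (nat_lit
  0x325c9b0)) e) e)) (c (c (c (m (nat_lit 0x31d0124)) e) e) e))) (c (c (c (c (m (nat_lit 0x1fa7630)) (c (p
  (nat_lit 0x14f75d0)) e)) (c (c (m (nat_lit 0x84b1d8)) e) e)) (c (c (c (p (nat_lit 0x32c010)) e) e) e)) e))
  (c (c (c (c (c (p (nat_lit 0x1a011b0)) (c (m (nat_lit 0x342b10)) e)) (c (c (m (nat_lit 0x4711b90)) e) e))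
  (c (c (c (m (nat_lit 0x325c9b0)) e) e) e)) e) e)) (c (c (c (c (c (c (p (nat_lit 0x1456b9c)) (c (p (nat_lit
  0x5ee060c)) e)) (c (c (m (nat_lit 0x3730f2c)) e) e)) (c (c (c (m (nat_lit 0x31d0124)) e) e) e)) e) e) e)))
  (c (c (c (c (c (c (c (m (nat_lit 0x7dfce56)) (c (p (nat_lit 0x338acf0)) (c (m (nat_lit 0x9fa578)) e))) (c
  (c (m (nat_lit 0x7d9ef62)) (c (p (nat_lit 0x6235f8)) e)) (c (c (m (nat_lit 0x9a1dc0)) e) e))) (c (c (c (p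
  (nat_lit 0x7a3f952)) (c (m (nat_lit 0x8c7498)) e)) (c (c (p (nat_lit 0xccbb68)) e) e)) (c (c (c (m (nat_lit
  0x2051538)) e) e) e))) (c (c (c (c (p (nat_lit 0x338acf0)) (c (m (nat_lit 0x39de1fe)) e)) (c (c (p (nat_lit
  0x1b57dce)) e) e)) (c (c (c (p (nat_lit 0x157e3b4)) e) e) e)) (c (c (c (c (m (nat_lit 0x9fa578)) e) e) e)
  e))) (c (c (c (c (c (m (nat_lit 0x7d9ef62)) (c (p (nat_lit 0x1b57dce)) e)) (c (c (m (nat_lit 0x3f75558)) e)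
  e)) (c (c (c (m (nat_lit 0x2efd79c)) e) e) e)) (c (c (c (c (p (nat_lit 0x6235f8)) e) e) e) e)) (c (c (c (c
  (c (m (nat_lit 0x9a1dc0)) e) e) e) e) e))) (c (c (c (c (c (c (p (nat_lit 0x7a3f952)) (c (p (nat_lit
  0x157e3b4)) e)) (c (c (m (nat_lit 0x2efd79c)) e) e)) (c (c (c (m (nat_lit 0x4719804)) e) e) e)) (c (c (c (c
  (m (nat_lit 0x8c7498)) e) e) e) e)) (c (c (c (c (c (p (nat_lit 0xccbb68)) e) e) e) e) e)) (c (c (c (c (c (c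
  (m (nat_lit 0x2051538)) e) e) e) e) e) e))) (c (c (c (c (c (c (c (p (nat_lit 0xbbcadcc)) (c (m (nat_lit
  0x2c55b82)) e)) (c (c (p (nat_lit 0x10e9480)) e) e)) (c (c (c (p (nat_lit 0x2aaa30a)) e) e) e)) (c (c (c (c
  (m (nat_lit 0x2c55b82)) e) e) e) e)) (c (c (c (c (c (p (nat_lit 0x10e9480)) e) e) e) e) e)) (c (c (c (c (c
  (c (p (nat_lit 0x2aaa30a)) e) e) e) e) e) e)) (c (c (c (c (c (c (c (m (nat_lit 0x9a38c42)) e) e) e) e) e)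
  e) e)))) (c (c (c (c (c (c (c (c (p (nat_lit 0x28fcbc6)) (c (p (nat_lit 0x6ebced2)) (c (m (nat_lit
  0xd75b78)) e))) (c (c (p (nat_lit 0x6b546d0)) (c (m (nat_lit 0xb61ab0)) e)) (c (c (p (nat_lit 0x1bc4cc8))
  e) e))) (c (c (c (p (nat_lit 0x61e0270)) (c (p (nat_lit 0x1385910)) e)) (c (c (m (nat_lit 0x67cbc0)) e) e))
  (c (c (c (p (nat_lit 0xd361a0)) e) e) e))) (c (c (c (c (p (nat_lit 0x6ebced2)) (c (m (nat_lit 0x1df3d8a))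
  e)) (c (c (m (nat_lit 0x520fde2)) e) e)) (c (c (c (m (nat_lit 0x192f08a)) e) e) e)) (c (c (c (c (m (nat_lit
  0xd75b78)) e) e) e) e))) (c (c (c (c (c (p (nat_lit 0x6b546d0)) (c (m (nat_lit 0x520fde2)) e)) (c (c (m
  (nat_lit 0x148e2fd6)) e) e)) (c (c (c (m (nat_lit 0x10a205c)) e) e) e)) (c (c (c (c (m (nat_lit 0xb61ab0))
  e) e) e) e)) (c (c (c (c (c (p (nat_lit 0x1bc4cc8)) e) e) e) e) e))) (c (c (c (c (c (c (p (nat_lit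
  0x61e0270)) (c (m (nat_lit 0x192f08a)) e)) (c (c (m (nat_lit 0x10a205c)) e) e)) (c (c (c (m (nat_lit
  0x74812a4)) e) e) e)) (c (c (c (c (p (nat_lit 0x1385910)) e) e) e) e)) (c (c (c (c (c (m (nat_lit
  0x67cbc0)) e) e) e) e) e)) (c (c (c (c (c (c (p (nat_lit 0xd361a0)) e) e) e) e) e) e))) (c (c (c (c (c (c
  (c (m (nat_lit 0x74a8958)) (c (p (nat_lit 0xf20460)) e)) (c (c (p (nat_lit 0x6474e28)) e) e)) (c (c (c (m
  (nat_lit 0x51a808a)) e) e) e)) (c (c (c (c (p (nat_lit 0xf20460)) e) e) e) e)) (c (c (c (c (c (p (nat_lit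
  0x6474e28)) e) e) e) e) e)) (c (c (c (c (c (c (m (nat_lit 0x51a808a)) e) e) e) e) e) e)) (c (c (c (c (c (c
  (c (m (nat_lit 0x1c4e962)) e) e) e) e) e) e) e))) (c (c (c (c (c (c (c (c (p (nat_lit 0x72adeec)) (c (m
  (nat_lit 0x2e3c476)) e)) (c (c (m (nat_lit 0x5d3cd56)) e) e)) (c (c (c (p (nat_lit 0x1274aae)) e) e) e)) (c
  (c (c (c (m (nat_lit 0x2e3c476)) e) e) e) e)) (c (c (c (c (c (m (nat_lit 0x5d3cd56)) e) e) e) e) e)) (c (c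
  (c (c (c (c (p (nat_lit 0x1274aae)) e) e) e) e) e) e)) (c (c (c (c (c (c (c (p (nat_lit 0x8c8d466)) e) e)
  e) e) e) e) e)) (c (c (c (c (c (c (c (c (m (nat_lit 0x6e33ce2)) e) e) e) e) e) e) e) e))))) (c (c (c (c (c
  (c (c (c (c (p (nat_lit 0x5ea3748)) (c (m (nat_lit 0x2cb752c)) (c (p (nat_lit 0x1514fd0)) e))) (c (c (m
  (nat_lit 0x338eac4)) (c (p (nat_lit 0x261ca38)) e)) (c (c (m (nat_lit 0x31a7a68)) e) e))) (c (c (c (m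
  (nat_lit 0x5ea256c)) (c (p (nat_lit 0x1a01390)) e)) (c (c (m (nat_lit 0x1fa7510)) e) e)) (c (c (c (p
  (nat_lit 0x14570e8)) e) e) e))) (c (c (c (c (m (nat_lit 0x2cb752c)) (c (p (nat_lit 0xe31ce10)) (c (m
  (nat_lit 0x35ae5c8)) e))) (c (c (m (nat_lit 0x34ebd18)) (c (m (nat_lit 0x96df8)) e)) (c (c (p (nat_lit
  0x1260df8)) e) e))) (c (c (c (p (nat_lit 0xd071bc4)) (c (m (nat_lit 0x4711bf0)) e)) (c (c (m (nat_lit
  0x84b1a8)) e) e)) (c (c (c (m (nat_lit 0x3730c98)) e) e) e))) (c (c (c (c (p (nat_lit 0x1514fd0)) (c (m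
  (nat_lit 0x35ae5c8)) e)) (c (c (m (nat_lit 0x6e4cf0)) e) e)) (c (c (c (m (nat_lit 0x34c8f90)) e) e) e))
  e))) (c (c (c (c (c (m (nat_lit 0x338eac4)) (c (m (nat_lit 0x34ebd18)) (c (m (nat_lit 0x6e4cf0)) e))) (c (c
  (m (nat_lit 0x8e67040)) (c (m (nat_lit 0xe673d8)) e)) (c (c (p (nat_lit 0x3433c8)) e) e))) (c (c (c (m
  (nat_lit 0x9fc8c94)) (c (m (nat_lit 0x342b40)) e)) (c (c (p (nat_lit 0x14f7600)) e) e)) (c (c (c (p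
  (nat_lit 0x5ee0468)) e) e) e))) (c (c (c (c (p (nat_lit 0x261ca38)) (c (m (nat_lit 0x96df8)) e)) (c (c (m
  (nat_lit 0xe673d8)) e) e)) (c (c (c (m (nat_lit 0xa86918)) e) e) e)) e)) (c (c (c (c (c (m (nat_lit
  0x31a7a68)) (c (p (nat_lit 0x1260df8)) e)) (c (c (p (nat_lit 0x3433c8)) e) e)) (c (c (c (p (nat_lit
  0x16c2f0)) e) e) e)) e) e))) (c (c (c (c (c (c (m (nat_lit 0x5ea256c)) (c (p (nat_lit 0xd071bc4)) (c (m
  (nat_lit 0x34c8f90)) e))) (c (c (m (nat_lit 0x9fc8c94)) (c (m (nat_lit 0xa86918)) e)) (c (c (p (nat_lit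
  0x16c2f0)) e) e))) (c (c (c (p (nat_lit 0x53cd378)) (c (m (nat_lit 0x325c9f8)) e)) (c (c (p (nat_lit
  0x32c010)) e) e)) (c (c (c (m (nat_lit 0x31cfe54)) e) e) e))) (c (c (c (c (p (nat_lit 0x1a01390)) (c (m
  (nat_lit 0x4711bf0)) e)) (c (c (m (nat_lit 0x342b40)) e) e)) (c (c (c (m (nat_lit 0x325c9f8)) e) e) e)) e))
  (c (c (c (c (c (m (nat_lit 0x1fa7510)) (c (m (nat_lit 0x84b1a8)) e)) (c (c (p (nat_lit 0x14f7600)) e) e))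
  (c (c (c (p (nat_lit 0x32c010)) e) e) e)) e) e)) (c (c (c (c (c (c (p (nat_lit 0x14570e8)) (c (m (nat_lit
  0x3730c98)) e)) (c (c (p (nat_lit 0x5ee0468)) e) e)) (c (c (c (m (nat_lit 0x31cfe54)) e) e) e)) e) e) e)))
  (c (c (c (c (c (c (c (p (nat_lit 0x72a8d50)) (c (p (nat_lit 0x170e72e)) (c (m (nat_lit 0x9a1e98)) e))) (c
  (c (p (nat_lit 0x3e7dcb0)) (c (p (nat_lit 0x623610)) e)) (c (c (m (nat_lit 0x9fa548)) e) e))) (c (c (c (m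
  (nat_lit 0x40077f0)) (c (p (nat_lit 0xccbaf0)) e)) (c (c (m (nat_lit 0x8c7558)) e) e)) (c (c (c (m (nat_lit
  0x20515c8)) e) e) e))) (c (c (c (c (p (nat_lit 0x170e72e)) (c (m (nat_lit 0xbfffa0)) e)) (c (c (p (nat_lit
  0x1602978)) e) e)) (c (c (c (m (nat_lit 0x10bf5d0)) e) e) e)) (c (c (c (c (m (nat_lit 0x9a1e98)) e) e) e)
  e))) (c (c (c (c (c (p (nat_lit 0x3e7dcb0)) (c (p (nat_lit 0x1602978)) e)) (c (c (m (nat_lit 0x866880)) e)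
  e)) (c (c (c (p (nat_lit 0x28e5640)) e) e) e)) (c (c (c (c (p (nat_lit 0x623610)) e) e) e) e)) (c (c (c (c
  (c (m (nat_lit 0x9fa548)) e) e) e) e) e))) (c (c (c (c (c (c (m (nat_lit 0x40077f0)) (c (m (nat_lit
  0x10bf5d0)) e)) (c (c (p (nat_lit 0x28e5640)) e) e)) (c (c (c (p (nat_lit 0x34202a0)) e) e) e)) (c (c (c (c
  (p (nat_lit 0xccbaf0)) e) e) e) e)) (c (c (c (c (c (m (nat_lit 0x8c7558)) e) e) e) e) e)) (c (c (c (c (c (c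
  (m (nat_lit 0x20515c8)) e) e) e) e) e) e))) (c (c (c (c (c (c (c (m (nat_lit 0xdfe89c4)) (c (p (nat_lit
  0x1825482)) e)) (c (c (m (nat_lit 0x12d4040)) e) e)) (c (c (c (p (nat_lit 0x63b7114)) e) e) e)) (c (c (c (c
  (p (nat_lit 0x1825482)) e) e) e) e)) (c (c (c (c (c (m (nat_lit 0x12d4040)) e) e) e) e) e)) (c (c (c (c (c
  (c (p (nat_lit 0x63b7114)) e) e) e) e) e) e)) (c (c (c (c (c (c (c (m (nat_lit 0x359d324)) e) e) e) e) e)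
  e) e)))) (c (c (c (c (c (c (c (c (p (nat_lit 0x28fc254)) (c (m (nat_lit 0x882a1b2)) (c (p (nat_lit
  0x259cbd8)) e))) (c (c (m (nat_lit 0x51b344e)) (c (m (nat_lit 0x43cf1b8)) e)) (c (c (p (nat_lit 0x259cb78))
  e) e))) (c (c (c (m (nat_lit 0x57135cc)) (c (p (nat_lit 0x1762da0)) e)) (c (c (p (nat_lit 0x1762db8)) e)
  e)) (c (c (c (m (nat_lit 0x12dcc20)) e) e) e))) (c (c (c (c (m (nat_lit 0x882a1b2)) (c (m (nat_lit
  0x31e3240)) e)) (c (c (m (nat_lit 0x1a83c20)) e) e)) (c (c (c (m (nat_lit 0x1b9e2e0)) e) e) e)) (c (c (c (c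
  (p (nat_lit 0x259cbd8)) e) e) e) e))) (c (c (c (c (c (m (nat_lit 0x51b344e)) (c (m (nat_lit 0x1a83c20)) e))
  (c (c (m (nat_lit 0x31e3240)) e) e)) (c (c (c (m (nat_lit 0x1b9e2c8)) e) e) e)) (c (c (c (c (m (nat_lit
  0x43cf1b8)) e) e) e) e)) (c (c (c (c (c (p (nat_lit 0x259cb78)) e) e) e) e) e))) (c (c (c (c (c (c (m
  (nat_lit 0x57135cc)) (c (m (nat_lit 0x1b9e2e0)) e)) (c (c (m (nat_lit 0x1b9e2c8)) e) e)) (c (c (c (m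
  (nat_lit 0x5a6d290)) e) e) e)) (c (c (c (c (p (nat_lit 0x1762da0)) e) e) e) e)) (c (c (c (c (c (p (nat_lit
  0x1762db8)) e) e) e) e) e)) (c (c (c (c (c (c (m (nat_lit 0x12dcc20)) e) e) e) e) e) e))) (c (c (c (c (c (c
  (c (p (nat_lit 0xa911660)) (c (m (nat_lit 0xba9372)) e)) (c (c (m (nat_lit 0x14f885a)) e) e)) (c (c (c (m
  (nat_lit 0x337a4fc)) e) e) e)) (c (c (c (c (m (nat_lit 0xba9372)) e) e) e) e)) (c (c (c (c (c (m (nat_lit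
  0x14f885a)) e) e) e) e) e)) (c (c (c (c (c (c (m (nat_lit 0x337a4fc)) e) e) e) e) e) e)) (c (c (c (c (c (c
  (c (p (nat_lit 0x4ba1478)) e) e) e) e) e) e) e))) (c (c (c (c (c (c (c (c (m (nat_lit 0x10ca96dc)) (c (p
  (nat_lit 0x5b3debc)) e)) (c (c (p (nat_lit 0x37e6a38)) e) e)) (c (c (c (p (nat_lit 0x7e7f0e0)) e) e) e)) (c
  (c (c (c (p (nat_lit 0x5b3debc)) e) e) e) e)) (c (c (c (c (c (p (nat_lit 0x37e6a38)) e) e) e) e) e)) (c (c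
  (c (c (c (c (p (nat_lit 0x7e7f0e0)) e) e) e) e) e) e)) (c (c (c (c (c (c (c (m (nat_lit 0x722fd00)) e) e)
  e) e) e) e) e)) (c (c (c (c (c (c (c (c (m (nat_lit 0x2cf280)) e) e) e) e) e) e) e) e)))) (c (c (c (c (c (c
  (c (c (c (p (nat_lit 0x17f7e4a8)) (c (p (nat_lit 0x2530cf8)) (c (p (nat_lit 0x1bc4cb0)) e))) (c (c (p
  (nat_lit 0xc6cba0)) (c (m (nat_lit 0xb61af8)) e)) (c (c (m (nat_lit 0xd75b78)) e) e))) (c (c (c (m (nat_lit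
  0x4931c34)) (c (m (nat_lit 0x67cbd8)) e)) (c (c (p (nat_lit 0x1385928)) e) e)) (c (c (c (p (nat_lit
  0xd36218)) e) e) e))) (c (c (c (c (p (nat_lit 0x2530cf8)) (c (p (nat_lit 0xa18ca88)) e)) (c (c (p (nat_lit
  0x1388f40)) e) e)) (c (c (c (p (nat_lit 0x34e0cf0)) e) e) e)) (c (c (c (c (p (nat_lit 0x1bc4cb0)) e) e) e)
  e))) (c (c (c (c (c (p (nat_lit 0xc6cba0)) (c (p (nat_lit 0x1388f40)) e)) (c (c (p (nat_lit 0x4dbdf10)) e)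
  e)) (c (c (c (p (nat_lit 0xe45268)) e) e) e)) (c (c (c (c (m (nat_lit 0xb61af8)) e) e) e) e)) (c (c (c (c
  (c (m (nat_lit 0xd75b78)) e) e) e) e) e))) (c (c (c (c (c (c (m (nat_lit 0x4931c34)) (c (p (nat_lit
  0x34e0cf0)) e)) (c (c (p (nat_lit 0xe45268)) e) e)) (c (c (c (p (nat_lit 0xd8ad7f0)) e) e) e)) (c (c (c (c
  (m (nat_lit 0x67cbd8)) e) e) e) e)) (c (c (c (c (c (p (nat_lit 0x1385928)) e) e) e) e) e)) (c (c (c (c (c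
  (c (p (nat_lit 0xd36218)) e) e) e) e) e) e))) (c (c (c (c (c (c (c (m (nat_lit 0x2189214)) (c (m (nat_lit
  0x3c49500)) e)) (c (c (m (nat_lit 0x4268928)) e) e)) (c (c (c (m (nat_lit 0x1d439f0)) e) e) e)) (c (c (c (c
  (m (nat_lit 0x3c49500)) e) e) e) e)) (c (c (c (c (c (m (nat_lit 0x4268928)) e) e) e) e) e)) (c (c (c (c (c
  (c (m (nat_lit 0x1d439f0)) e) e) e) e) e) e)) (c (c (c (c (c (c (c (p (nat_lit 0x9da63dc)) e) e) e) e) e)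
  e) e))) (c (c (c (c (c (c (c (c (p (nat_lit 0x119f9c3a)) (c (m (nat_lit 0x81c240)) e)) (c (c (m (nat_lit
  0x11ec6b0)) e) e)) (c (c (c (m (nat_lit 0x5381ce8)) e) e) e)) (c (c (c (c (m (nat_lit 0x81c240)) e) e) e)
  e)) (c (c (c (c (c (m (nat_lit 0x11ec6b0)) e) e) e) e) e)) (c (c (c (c (c (c (m (nat_lit 0x5381ce8)) e) e)
  e) e) e) e)) (c (c (c (c (c (c (c (p (nat_lit 0x93fc0c)) e) e) e) e) e) e) e)) (c (c (c (c (c (c (c (c (m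
  (nat_lit 0xe2b379e)) e) e) e) e) e) e) e) e))) (c (c (c (c (c (c (c (c (c (m (nat_lit 0x1272f240)) (c (m
  (nat_lit 0x28aa348)) e)) (c (c (p (nat_lit 0xddefe0)) e) e)) (c (c (c (p (nat_lit 0xe9ea88)) e) e) e)) (c
  (c (c (c (m (nat_lit 0x28aa348)) e) e) e) e)) (c (c (c (c (c (p (nat_lit 0xddefe0)) e) e) e) e) e)) (c (c
  (c (c (c (c (p (nat_lit 0xe9ea88)) e) e) e) e) e) e)) (c (c (c (c (c (c (c (p (nat_lit 0x15aa070)) e) e) e)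
  e) e) e) e)) (c (c (c (c (c (c (c (c (p (nat_lit 0x48861c0)) e) e) e) e) e) e) e) e)) (c (c (c (c (c (c (c
  (c (c (p (nat_lit 0x6f43200)) e) e) e) e) e) e) e) e) e)))))

noncomputable def gt_1_4_5 : Tr :=
  (c (c (c (c (c (c (c (c (c (p (nat_lit 0x55cbb7c)) (c (m (nat_lit 0xc104850)) (c (p (nat_lit 0x2c1a5e4))
  e))) (c (c (m (nat_lit 0xafe78e4)) (c (p (nat_lit 0x5bde9f8)) e)) (c (c (p (nat_lit 0x285f768)) e) e))) (c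
  (c (c (m (nat_lit 0x37333d4)) (c (m (nat_lit 0xa7c724)) e)) (c (c (p (nat_lit 0x38e7b20)) e) e)) (c (c (c
  (p (nat_lit 0x2216100)) e) e) e))) (c (c (c (c (m (nat_lit 0x2bde6f8)) (c (p (nat_lit 0xadc0fd0)) (c (m
  (nat_lit 0x36dea38)) e))) (c (c (p (nat_lit 0x46ce270)) (c (m (nat_lit 0x527bb60)) e)) (c (c (p (nat_lit
  0x1e61dd0)) e) e))) (c (c (c (p (nat_lit 0x52431f0)) (c (m (nat_lit 0x525ce88)) e)) (c (c (m (nat_lit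
  0x4420fe0)) e) e)) (c (c (c (m (nat_lit 0x472e810)) e) e) e))) (c (c (c (c (m (nat_lit 0x2ad4c40)) (c (m
  (nat_lit 0x15afec0)) (c (p (nat_lit 0x250d508)) e))) (c (c (p (nat_lit 0x7e59220)) (c (p (nat_lit
  0x591990)) e)) (c (c (m (nat_lit 0x50a1a10)) e) e))) (c (c (c (p (nat_lit 0x890670)) (c (p (nat_lit
  0xc02b38)) e)) (c (c (m (nat_lit 0x21ade80)) e) e)) (c (c (c (p (nat_lit 0xe86b0)) e) e) e))) e))) (c (c (c
  (c (c (m (nat_lit 0x5289ca8)) (c (p (nat_lit 0xae789d8)) (c (m (nat_lit 0x261720)) e))) (c (c (p (nat_lit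
  0x1027f7d0)) (c (m (nat_lit 0x62dc840)) e)) (c (c (m (nat_lit 0x2baa120)) e) e))) (c (c (c (m (nat_lit
  0x824b140)) (c (p (nat_lit 0x41eb9f0)) e)) (c (c (m (nat_lit 0x3595608)) e) e)) (c (c (c (p (nat_lit
  0x2d98e98)) e) e) e))) (c (c (c (c (m (nat_lit 0xa80f18)) (c (p (nat_lit 0x177c810)) (c (p (nat_lit
  0x526c68)) e))) (c (c (p (nat_lit 0x1263ed0)) (c (m (nat_lit 0x407da8)) e)) (c (c (m (nat_lit 0xbc9fd0)) e)
  e))) (c (c (c (m (nat_lit 0x156b190)) (c (p (nat_lit 0x1233d38)) e)) (c (c (p (nat_lit 0x5292a8)) e) e)) (c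
  (c (c (p (nat_lit 0x141c678)) e) e) e))) e)) (c (c (c (c (c (p (nat_lit 0x24a3008)) (c (m (nat_lit
  0x24db048)) (c (m (nat_lit 0x1f61400)) e))) (c (c (m (nat_lit 0x78e2e18)) (c (p (nat_lit 0x1b9f408)) e)) (c
  (c (p (nat_lit 0x1552890)) e) e))) (c (c (c (p (nat_lit 0x63a4340)) (c (m (nat_lit 0x18249d8)) e)) (c (c (p
  (nat_lit 0x39dc8c0)) e) e)) (c (c (c (m (nat_lit 0x4d031c0)) e) e) e))) e) e))) (c (c (c (c (c (c (m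
  (nat_lit 0x63a545c)) (c (p (nat_lit 0x1399b5dc)) (c (m (nat_lit 0x34d8fa4)) e))) (c (c (p (nat_lit
  0x8514084)) (c (m (nat_lit 0x5509af4)) e)) (c (c (m (nat_lit 0x829b63c)) e) e))) (c (c (c (p (nat_lit
  0xc0146c4)) (c (p (nat_lit 0x4e20e20)) e)) (c (c (m (nat_lit 0x7584de0)) e) e)) (c (c (c (m (nat_lit
  0x66581a0)) e) e) e))) (c (c (c (c (m (nat_lit 0x343e30)) (c (m (nat_lit 0x39e68f8)) (c (p (nat_lit
  0x3e1ff0)) e))) (c (c (p (nat_lit 0x1b7380)) (c (p (nat_lit 0x12da4a8)) e)) (c (c (p (nat_lit 0x1020480))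
  e) e))) (c (c (c (p (nat_lit 0x1995018)) (c (p (nat_lit 0x18985c8)) e)) (c (c (p (nat_lit 0x92e878)) e) e))
  (c (c (c (m (nat_lit 0x7dd2b8)) e) e) e))) e)) (c (c (c (c (c (p (nat_lit 0x2658918)) (c (m (nat_lit
  0x29f0178)) (c (p (nat_lit 0xb69028)) e))) (c (c (m (nat_lit 0x5713050)) (c (p (nat_lit 0x26d4de8)) e)) (c
  (c (p (nat_lit 0x1c22028)) e) e))) (c (c (c (m (nat_lit 0x3ba6ea0)) (c (m (nat_lit 0x147d9e0)) e)) (c (c (p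
  (nat_lit 0x30011d0)) e) e)) (c (c (c (p (nat_lit 0x43262a0)) e) e) e))) e) e)) (c (c (c (c (c (c (p
  (nat_lit 0xafb6d8)) (c (m (nat_lit 0xd91e734)) (c (p (nat_lit 0xc6db0)) e))) (c (c (m (nat_lit 0x2a2ac90))
  (c (p (nat_lit 0x29bf98c)) e)) (c (c (p (nat_lit 0x57bf07c)) e) e))) (c (c (c (p (nat_lit 0x3621ba0)) (c (m
  (nat_lit 0x1a8899c)) e)) (c (c (p (nat_lit 0x3cb54b8)) e) e)) (c (c (c (p (nat_lit 0x1081b78)) e) e) e)))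
  e) e) e))) (c (c (c (c (c (c (c (p (nat_lit 0x1fa3f6a6)) (c (p (nat_lit 0x610ef24)) (c (m (nat_lit
  0x3a4fc28)) e))) (c (c (p (nat_lit 0x3b20dc4)) (c (m (nat_lit 0x5121420)) e)) (c (c (m (nat_lit 0xa78650))
  e) e))) (c (c (c (m (nat_lit 0x12c89076)) (c (m (nat_lit 0x12edd38)) e)) (c (c (p (nat_lit 0xfab0f0)) e)
  e)) (c (c (c (p (nat_lit 0x38cd2b8)) e) e) e))) (c (c (c (c (m (nat_lit 0x16663ed2)) (c (m (nat_lit
  0x4a87862)) (c (p (nat_lit 0x271e2b8)) e))) (c (c (p (nat_lit 0xa1b3b6)) (c (p (nat_lit 0x2a3b7f0)) e)) (c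
  (c (p (nat_lit 0x1a50620)) e) e))) (c (c (c (p (nat_lit 0xa1e1c64)) (c (p (nat_lit 0x27b3118)) e)) (c (c (m
  (nat_lit 0xadb128)) e) e)) (c (c (c (m (nat_lit 0x19145d0)) e) e) e))) (c (c (c (c (p (nat_lit 0x9b959e0))
  (c (m (nat_lit 0x29c25d8)) e)) (c (c (m (nat_lit 0x41d9180)) e) e)) (c (c (c (p (nat_lit 0x2d7050)) e) e)
  e)) e))) (c (c (c (c (c (m (nat_lit 0x118feba0)) (c (m (nat_lit 0x8f86bd2)) (c (p (nat_lit 0x1947210)) e)))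
  (c (c (m (nat_lit 0x7c206ae)) (c (p (nat_lit 0x3a99ce0)) e)) (c (c (p (nat_lit 0x219e4f0)) e) e))) (c (c (c
  (p (nat_lit 0x66db2ca)) (c (m (nat_lit 0x1be1cf0)) e)) (c (c (p (nat_lit 0x30c86e8)) e) e)) (c (c (c (m
  (nat_lit 0x38b0128)) e) e) e))) (c (c (c (c (p (nat_lit 0x51a860)) (c (m (nat_lit 0x8dc4f8)) e)) (c (c (p
  (nat_lit 0x120b910)) e) e)) (c (c (c (m (nat_lit 0xbe9338)) e) e) e)) e)) (c (c (c (c (c (m (nat_lit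
  0x2013f48)) (c (p (nat_lit 0x10dd378)) e)) (c (c (p (nat_lit 0x32b2990)) e) e)) (c (c (c (p (nat_lit
  0x416dd98)) e) e) e)) e) e))) (c (c (c (c (c (c (m (nat_lit 0x81f4c668)) (c (p (nat_lit 0x4053372)) (c (p
  (nat_lit 0x13e61b0)) e))) (c (c (p (nat_lit 0x1198028a)) (c (p (nat_lit 0x1c2c1c8)) e)) (c (c (p (nat_lit
  0x330f600)) e) e))) (c (c (c (p (nat_lit 0x2857c97a)) (c (m (nat_lit 0x511f80)) e)) (c (c (p (nat_lit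
  0x2558598)) e) e)) (c (c (c (p (nat_lit 0x2b1c190)) e) e) e))) (c (c (c (c (p (nat_lit 0xf908ee0)) (c (m
  (nat_lit 0x2f52408)) e)) (c (c (m (nat_lit 0x3f9b3b8)) e) e)) (c (c (c (m (nat_lit 0x3513420)) e) e) e))
  e)) (c (c (c (c (c (p (nat_lit 0x9aa8d40)) (c (m (nat_lit 0xe98638)) e)) (c (c (p (nat_lit 0xb55960)) e)
  e)) (c (c (c (p (nat_lit 0x76e8b8)) e) e) e)) e) e)) (c (c (c (c (c (c (p (nat_lit 0x578f4f9c)) (c (m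
  (nat_lit 0x524eaa0)) e)) (c (c (m (nat_lit 0xec9c340)) e) e)) (c (c (c (m (nat_lit 0x31e9828)) e) e) e)) e)
  e) e))) (c (c (c (c (c (c (c (m (nat_lit 0x2d86292)) (c (p (nat_lit 0x2034d44)) (c (p (nat_lit 0x857988))
  e))) (c (c (m (nat_lit 0x26df156)) (c (m (nat_lit 0x6daee0)) e)) (c (c (m (nat_lit 0x20c95f8)) e) e))) (c
  (c (c (p (nat_lit 0x60e5608)) (c (p (nat_lit 0xc56b38)) e)) (c (c (m (nat_lit 0x2a56628)) e) e)) (c (c (c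
  (m (nat_lit 0x1ddf588)) e) e) e))) (c (c (c (c (p (nat_lit 0x12101ee6)) (c (p (nat_lit 0x18a8762)) e)) (c
  (c (m (nat_lit 0x85492e)) e) e)) (c (c (c (m (nat_lit 0xc66ffc)) e) e) e)) (c (c (c (c (m (nat_lit
  0x2cfafc0)) e) e) e) e))) (c (c (c (c (c (p (nat_lit 0xb3e720e)) (c (p (nat_lit 0x390ad6a)) e)) (c (c (p
  (nat_lit 0x358ca2e)) e) e)) (c (c (c (m (nat_lit 0x2026752)) e) e) e)) (c (c (c (c (p (nat_lit 0x1f105e0))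
  e) e) e) e)) (c (c (c (c (c (m (nat_lit 0xb974b0)) e) e) e) e) e))) (c (c (c (c (c (c (p (nat_lit
  0x60428226)) (c (p (nat_lit 0x12887a)) e)) (c (c (m (nat_lit 0x6692ece)) e) e)) (c (c (c (m (nat_lit
  0x2b3fdd36)) e) e) e)) (c (c (c (c (m (nat_lit 0x3f33af8)) e) e) e) e)) (c (c (c (c (c (m (nat_lit
  0x4abc470)) e) e) e) e) e)) (c (c (c (c (c (c (m (nat_lit 0x3c19c500)) e) e) e) e) e) e))) (c (c (c (c (c
  (c (c (m (nat_lit 0x1c38d57e)) (c (m (nat_lit 0x1adb5a4)) e)) (c (c (p (nat_lit 0x2f76d26)) e) e)) (c (c (c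
  (p (nat_lit 0x9f23022)) e) e) e)) (c (c (c (c (m (nat_lit 0x1459cec)) e) e) e) e)) (c (c (c (c (c (m
  (nat_lit 0x1eb0ca6)) e) e) e) e) e)) (c (c (c (c (c (c (m (nat_lit 0x359e63e)) e) e) e) e) e) e)) (c (c (c
  (c (c (c (c (p (nat_lit 0x71658f6)) e) e) e) e) e) e) e))))) (c (c (c (c (c (c (c (c (p (nat_lit 0x19d13c))
  (c (p (nat_lit 0x154f992)) (c (m (nat_lit 0x1b0a578)) e))) (c (c (m (nat_lit 0x2043cca8)) (c (m (nat_lit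
  0x3f7b18)) e)) (c (c (p (nat_lit 0x9201828)) e) e))) (c (c (c (m (nat_lit 0xca8011a)) (c (m (nat_lit
  0x1055538)) e)) (c (c (p (nat_lit 0x63481b0)) e) e)) (c (c (c (p (nat_lit 0x2bf3c68)) e) e) e))) (c (c (c
  (c (p (nat_lit 0x1c553ac)) (c (m (nat_lit 0x2a3f3fc)) (c (p (nat_lit 0x4e0c30)) e))) (c (c (m (nat_lit
  0x3344226)) (c (p (nat_lit 0x1715d90)) e)) (c (c (p (nat_lit 0x19b4e78)) e) e))) (c (c (c (m (nat_lit
  0x903cffc)) (c (m (nat_lit 0xa57bd8)) e)) (c (c (p (nat_lit 0x36a890)) e) e)) (c (c (c (p (nat_lit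
  0x15e6b08)) e) e) e))) (c (c (c (c (m (nat_lit 0x3987258)) (c (p (nat_lit 0x3b58c90)) e)) (c (c (p (nat_lit
  0x2f32050)) e) e)) (c (c (c (p (nat_lit 0x407b7e8)) e) e) e)) e))) (c (c (c (c (c (m (nat_lit 0x66747f6))
  (c (p (nat_lit 0xf386f4)) (c (m (nat_lit 0x9c7e60)) e))) (c (c (p (nat_lit 0x1990f6e6)) (c (m (nat_lit
  0x213d50)) e)) (c (c (p (nat_lit 0x18f030)) e) e))) (c (c (c (p (nat_lit 0x11064e04)) (c (p (nat_lit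
  0xffaa40)) e)) (c (c (m (nat_lit 0x15431d0)) e) e)) (c (c (c (p (nat_lit 0x95e788)) e) e) e))) (c (c (c (c
  (p (nat_lit 0x1675458)) (c (m (nat_lit 0x5c46f0)) e)) (c (c (p (nat_lit 0x791910)) e) e)) (c (c (c (m
  (nat_lit 0x84ae48)) e) e) e)) e)) (c (c (c (c (c (p (nat_lit 0x6b1ea60)) (c (m (nat_lit 0xd29420)) e)) (c
  (c (m (nat_lit 0x4dda3f8)) e) e)) (c (c (c (m (nat_lit 0x4e285f0)) e) e) e)) e) e))) (c (c (c (c (c (c (p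
  (nat_lit 0x166be562)) (c (p (nat_lit 0x7e4ce)) (c (m (nat_lit 0x4cd460)) e))) (c (c (p (nat_lit
  0x15ae34c2)) (c (m (nat_lit 0x2d34548)) e)) (c (c (m (nat_lit 0x11eccc8)) e) e))) (c (c (c (p (nat_lit
  0x4c3f8e4)) (c (p (nat_lit 0x2a49578)) e)) (c (c (m (nat_lit 0xc239d0)) e) e)) (c (c (c (p (nat_lit
  0x2ca9378)) e) e) e))) (c (c (c (c (m (nat_lit 0x4fcf500)) (c (p (nat_lit 0x2268810)) e)) (c (c (p (nat_lit
  0x84c570)) e) e)) (c (c (c (p (nat_lit 0x676578)) e) e) e)) e)) (c (c (c (c (c (p (nat_lit 0x243b898)) (c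
  (m (nat_lit 0x41a2928)) e)) (c (c (m (nat_lit 0x42dc200)) e) e)) (c (c (c (m (nat_lit 0x509d060)) e) e) e))
  e) e)) (c (c (c (c (c (c (m (nat_lit 0x1977abc)) (c (p (nat_lit 0x40bd920)) e)) (c (c (m (nat_lit
  0x5f3b938)) e) e)) (c (c (c (m (nat_lit 0x333a350)) e) e) e)) e) e) e))) (c (c (c (c (c (c (c (p (nat_lit
  0x8b2b36a)) (c (m (nat_lit 0x5db9df0)) (c (p (nat_lit 0x1c65ee8)) e))) (c (c (m (nat_lit 0x38503d4)) (c (p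
  (nat_lit 0x1861fe0)) e)) (c (c (m (nat_lit 0x1a65980)) e) e))) (c (c (c (p (nat_lit 0x2048d9c)) (c (m
  (nat_lit 0x9bbbc0)) e)) (c (c (p (nat_lit 0x12a8d8)) e) e)) (c (c (c (m (nat_lit 0x1753fe0)) e) e) e))) (c
  (c (c (c (m (nat_lit 0x185516a)) (c (p (nat_lit 0xf4db9e)) e)) (c (c (p (nat_lit 0x14e1904)) e) e)) (c (c
  (c (p (nat_lit 0x951a2c)) e) e) e)) (c (c (c (c (p (nat_lit 0x1cff380)) e) e) e) e))) (c (c (c (c (c (p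
  (nat_lit 0x17d6b04)) (c (p (nat_lit 0x45d4bda)) e)) (c (c (p (nat_lit 0x1cd344e)) e) e)) (c (c (c (m
  (nat_lit 0x12c3510)) e) e) e)) (c (c (c (c (m (nat_lit 0x15b72d0)) e) e) e) e)) (c (c (c (c (c (m (nat_lit
  0x16a2068)) e) e) e) e) e))) (c (c (c (c (c (c (m (nat_lit 0x10ea0e2a)) (c (m (nat_lit 0xbe4058)) e)) (c (c
  (p (nat_lit 0x992526)) e) e)) (c (c (c (p (nat_lit 0x19454fa)) e) e) e)) (c (c (c (c (m (nat_lit 0x3f618))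
  e) e) e) e)) (c (c (c (c (c (m (nat_lit 0x17a5340)) e) e) e) e) e)) (c (c (c (c (c (c (p (nat_lit
  0xbf94f0)) e) e) e) e) e) e))) (c (c (c (c (c (c (c (m (nat_lit 0x35f735a)) (c (p (nat_lit 0xa8b052)) e))
  (c (c (p (nat_lit 0x17e9c56)) e) e)) (c (c (c (m (nat_lit 0xf636d8)) e) e) e)) (c (c (c (c (m (nat_lit
  0x44e2f6c)) e) e) e) e)) (c (c (c (c (c (m (nat_lit 0x261d8f0)) e) e) e) e) e)) (c (c (c (c (c (c (p
  (nat_lit 0x794da6e)) e) e) e) e) e) e)) (c (c (c (c (c (c (c (p (nat_lit 0x2c3bd7c)) e) e) e) e) e) e)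
  e)))) (c (c (c (c (c (c (c (c (p (nat_lit 0x909591c)) (c (p (nat_lit 0x46ab0aa)) (c (m (nat_lit 0x197e938))
  e))) (c (c (p (nat_lit 0xab2d894)) (c (m (nat_lit 0x13a7450)) e)) (c (c (m (nat_lit 0x1b1e768)) e) e))) (c
  (c (c (p (nat_lit 0x500651a)) (c (p (nat_lit 0x5bf968)) e)) (c (c (m (nat_lit 0x1b5e050)) e) e)) (c (c (c
  (m (nat_lit 0xa948e0)) e) e) e))) (c (c (c (c (p (nat_lit 0x5f60cb8)) (c (m (nat_lit 0x2d6ab42)) e)) (c (c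
  (p (nat_lit 0x103dc52)) e) e)) (c (c (c (p (nat_lit 0x1165728)) e) e) e)) (c (c (c (c (m (nat_lit
  0x2b10358)) e) e) e) e))) (c (c (c (c (c (m (nat_lit 0x120d6e54)) (c (p (nat_lit 0x987b6a)) e)) (c (c (m
  (nat_lit 0xde87924)) e) e)) (c (c (c (m (nat_lit 0x2da302c)) e) e) e)) (c (c (c (c (m (nat_lit 0x1440a50))
  e) e) e) e)) (c (c (c (c (c (m (nat_lit 0x8ce4e8)) e) e) e) e) e))) (c (c (c (c (c (c (m (nat_lit
  0x2e5c08ac)) (c (p (nat_lit 0x45fc0c6)) e)) (c (c (m (nat_lit 0x5998a58)) e) e)) (c (c (c (p (nat_lit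
  0x409e5be)) e) e) e)) (c (c (c (c (m (nat_lit 0x8f7be8)) e) e) e) e)) (c (c (c (c (c (p (nat_lit
  0x25e5820)) e) e) e) e) e)) (c (c (c (c (c (c (m (nat_lit 0x4bbf88)) e) e) e) e) e) e))) (c (c (c (c (c (c
  (c (m (nat_lit 0x6634c8c)) (c (p (nat_lit 0x2f6e476)) e)) (c (c (p (nat_lit 0x4816a0a)) e) e)) (c (c (c (m
  (nat_lit 0x21011c4)) e) e) e)) (c (c (c (c (m (nat_lit 0x2106822)) e) e) e) e)) (c (c (c (c (c (p (nat_lit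
  0x6cc0ba)) e) e) e) e) e)) (c (c (c (c (c (c (p (nat_lit 0x9bcc3d0)) e) e) e) e) e) e)) (c (c (c (c (c (c
  (c (p (nat_lit 0x3617dc0)) e) e) e) e) e) e) e))) (c (c (c (c (c (c (c (c (m (nat_lit 0x3726b64)) (c (m
  (nat_lit 0x1ca4738)) e)) (c (c (m (nat_lit 0x6abe10)) e) e)) (c (c (c (p (nat_lit 0xb4ed9c)) e) e) e)) (c
  (c (c (c (p (nat_lit 0x7f54d4)) e) e) e) e)) (c (c (c (c (c (p (nat_lit 0xccd0374)) e) e) e) e) e)) (c (c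
  (c (c (c (c (p (nat_lit 0xc6597ae)) e) e) e) e) e) e)) (c (c (c (c (c (c (c (m (nat_lit 0x2fd5f40)) e) e)
  e) e) e) e) e)) (c (c (c (c (c (c (c (c (p (nat_lit 0x20f01d8)) e) e) e) e) e) e) e) e))))) (c (c (c (c (c
  (c (c (c (c (m (nat_lit 0x5b902d8)) (c (p (nat_lit 0x1ea188)) (c (p (nat_lit 0x13a1c30)) e))) (c (c (p
  (nat_lit 0x14228034)) (c (p (nat_lit 0x2939610)) e)) (c (c (m (nat_lit 0x9d16f40)) e) e))) (c (c (c (m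
  (nat_lit 0x1ee5d10)) (c (p (nat_lit 0x7610e8)) e)) (c (c (m (nat_lit 0x3357e58)) e) e)) (c (c (c (m
  (nat_lit 0x595878)) e) e) e))) (c (c (c (c (p (nat_lit 0x6df5138)) (c (p (nat_lit 0x1349598)) (c (m
  (nat_lit 0xd5df20)) e))) (c (c (p (nat_lit 0x3c9c8b8)) (c (m (nat_lit 0x1cd7858)) e)) (c (c (m (nat_lit
  0x30d8738)) e) e))) (c (c (c (p (nat_lit 0x9b62b0)) (c (p (nat_lit 0x8998e0)) e)) (c (c (m (nat_lit
  0x6b7558)) e) e)) (c (c (c (m (nat_lit 0x1e20ca0)) e) e) e))) (c (c (c (c (m (nat_lit 0x5c19b28)) (c (p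
  (nat_lit 0x834528)) e)) (c (c (m (nat_lit 0xc493f8)) e) e)) (c (c (c (m (nat_lit 0x305790)) e) e) e)) e)))
  (c (c (c (c (c (m (nat_lit 0x80833f8)) (c (m (nat_lit 0x1537638)) (c (m (nat_lit 0x580ec0)) e))) (c (c (m
  (nat_lit 0x1701870)) (c (m (nat_lit 0xb82e10)) e)) (c (c (m (nat_lit 0x186d230)) e) e))) (c (c (c (m
  (nat_lit 0x1f566c0)) (c (p (nat_lit 0x9e00e8)) e)) (c (c (m (nat_lit 0x226e0)) e) e)) (c (c (c (p (nat_lit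
  0x31ee928)) e) e) e))) (c (c (c (c (p (nat_lit 0x28d3d30)) (c (m (nat_lit 0x958e30)) e)) (c (c (m (nat_lit
  0xa2cd38)) e) e)) (c (c (c (p (nat_lit 0xb380f8)) e) e) e)) e)) (c (c (c (c (c (p (nat_lit 0x3506e50)) (c
  (p (nat_lit 0x881250)) e)) (c (c (p (nat_lit 0xa5e0d0)) e) e)) (c (c (c (m (nat_lit 0x21b5fc8)) e) e) e))
  e) e))) (c (c (c (c (c (c (m (nat_lit 0x32836bc)) (c (m (nat_lit 0x723e94c)) (c (p (nat_lit 0x604a58)) e)))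
  (c (c (m (nat_lit 0x2f04e7c)) (c (m (nat_lit 0x3c5d0)) e)) (c (c (p (nat_lit 0x2f27b80)) e) e))) (c (c (c
  (p (nat_lit 0x263db88)) (c (m (nat_lit 0x124c200)) e)) (c (c (p (nat_lit 0x442998)) e) e)) (c (c (c (m
  (nat_lit 0xfdb3f0)) e) e) e))) (c (c (c (c (m (nat_lit 0xd85700)) (c (p (nat_lit 0x273ed00)) e)) (c (c (p
  (nat_lit 0xa3890)) e) e)) (c (c (c (m (nat_lit 0xb517a8)) e) e) e)) e)) (c (c (c (c (c (p (nat_lit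
  0x261990)) (c (p (nat_lit 0x882af8)) e)) (c (c (p (nat_lit 0xc1d568)) e) e)) (c (c (c (p (nat_lit
  0xb9e350)) e) e) e)) e) e)) (c (c (c (c (c (c (p (nat_lit 0x274a2bc)) (c (p (nat_lit 0x5355e34)) e)) (c (c
  (p (nat_lit 0x3000f0)) e) e)) (c (c (c (m (nat_lit 0x29b71f0)) e) e) e)) e) e) e))) (c (c (c (c (c (c (c (p
  (nat_lit 0x1a876028)) (c (p (nat_lit 0x1a49504)) (c (p (nat_lit 0x108e6d0)) e))) (c (c (m (nat_lit
  0xca9894e)) (c (m (nat_lit 0x93e010)) e)) (c (c (p (nat_lit 0x3b1ec28)) e) e))) (c (c (c (m (nat_lit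
  0x2fca2fa)) (c (p (nat_lit 0x14c3028)) e)) (c (c (m (nat_lit 0x5fda50)) e) e)) (c (c (c (m (nat_lit
  0x15b63d0)) e) e) e))) (c (c (c (c (p (nat_lit 0x13a6c0a)) (c (p (nat_lit 0x124f698)) e)) (c (c (p (nat_lit
  0x110dc48)) e) e)) (c (c (c (p (nat_lit 0xf8fa90)) e) e) e)) (c (c (c (c (m (nat_lit 0x1790700)) e) e) e)
  e))) (c (c (c (c (c (p (nat_lit 0xd64434e)) (c (m (nat_lit 0x25f35f0)) e)) (c (c (m (nat_lit 0x27a7100)) e)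
  e)) (c (c (c (p (nat_lit 0x849048)) e) e) e)) (c (c (c (c (m (nat_lit 0x1225260)) e) e) e) e)) (c (c (c (c
  (c (p (nat_lit 0x112d268)) e) e) e) e) e))) (c (c (c (c (c (c (m (nat_lit 0x5ec19be)) (c (p (nat_lit
  0xef4360)) e)) (c (c (p (nat_lit 0x2745c78)) e) e)) (c (c (c (p (nat_lit 0x37144b0)) e) e) e)) (c (c (c (c
  (m (nat_lit 0xe79f90)) e) e) e) e)) (c (c (c (c (c (p (nat_lit 0x4fd928)) e) e) e) e) e)) (c (c (c (c (c (c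
  (m (nat_lit 0xe2ab74)) e) e) e) e) e) e))) (c (c (c (c (c (c (c (m (nat_lit 0xb984658)) (c (m (nat_lit
  0x393903c)) e)) (c (c (p (nat_lit 0x1cfe3ae)) e) e)) (c (c (c (m (nat_lit 0x5ebd26)) e) e) e)) (c (c (c (c
  (m (nat_lit 0x5adbb82)) e) e) e) e)) (c (c (c (c (c (m (nat_lit 0x910c8c6)) e) e) e) e) e)) (c (c (c (c (c
  (c (p (nat_lit 0x1ead1a2)) e) e) e) e) e) e)) (c (c (c (c (c (c (c (p (nat_lit 0x708ff18)) e) e) e) e) e)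
  e) e)))) (c (c (c (c (c (c (c (c (p (nat_lit 0x1094e1a0)) (c (m (nat_lit 0x3c68fdc)) (c (m (nat_lit
  0x938748)) e))) (c (c (m (nat_lit 0xae405ae)) (c (p (nat_lit 0x2056cf8)) e)) (c (c (m (nat_lit 0x287a0)) e)
  e))) (c (c (c (m (nat_lit 0x1430f0a)) (c (m (nat_lit 0xf330d8)) e)) (c (c (m (nat_lit 0x573990)) e) e)) (c
  (c (c (m (nat_lit 0x34e62d0)) e) e) e))) (c (c (c (c (p (nat_lit 0x127230)) (c (m (nat_lit 0x1038ca8)) e))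
  (c (c (m (nat_lit 0x12f2130)) e) e)) (c (c (c (m (nat_lit 0x241e480)) e) e) e)) (c (c (c (c (m (nat_lit
  0x7c9aa0)) e) e) e) e))) (c (c (c (c (c (m (nat_lit 0x5b619d6)) (c (p (nat_lit 0x187cff8)) e)) (c (c (m
  (nat_lit 0x116c430)) e) e)) (c (c (c (m (nat_lit 0xdcfa40)) e) e) e)) (c (c (c (c (m (nat_lit 0x2bcfd40))
  e) e) e) e)) (c (c (c (c (c (p (nat_lit 0x37f57b0)) e) e) e) e) e))) (c (c (c (c (c (c (m (nat_lit
  0x5df2ae4)) (c (m (nat_lit 0x1c6ea98)) e)) (c (c (m (nat_lit 0x15a3a28)) e) e)) (c (c (c (m (nat_lit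
  0x1a794b0)) e) e) e)) (c (c (c (c (p (nat_lit 0x1168a10)) e) e) e) e)) (c (c (c (c (c (p (nat_lit
  0x2d504f0)) e) e) e) e) e)) (c (c (c (c (c (c (p (nat_lit 0x22eefe8)) e) e) e) e) e) e))) (c (c (c (c (c (c
  (c (m (nat_lit 0x144a926)) (c (p (nat_lit 0xefd4b0)) e)) (c (c (p (nat_lit 0x2bb8fb2)) e) e)) (c (c (c (m
  (nat_lit 0x48636c)) e) e) e)) (c (c (c (c (m (nat_lit 0x11df1c8)) e) e) e) e)) (c (c (c (c (c (p (nat_lit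
  0x2ce806)) e) e) e) e) e)) (c (c (c (c (c (c (m (nat_lit 0x1e0723c)) e) e) e) e) e) e)) (c (c (c (c (c (c
  (c (p (nat_lit 0x3f3792)) e) e) e) e) e) e) e))) (c (c (c (c (c (c (c (c (m (nat_lit 0x7cae76a)) (c (p
  (nat_lit 0xbf5014)) e)) (c (c (p (nat_lit 0x37269e4)) e) e)) (c (c (c (p (nat_lit 0x302ce6e)) e) e) e)) (c
  (c (c (c (p (nat_lit 0x24800e8)) e) e) e) e)) (c (c (c (c (c (m (nat_lit 0x1f53b58)) e) e) e) e) e)) (c (c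
  (c (c (c (c (p (nat_lit 0x83fb1f4)) e) e) e) e) e) e)) (c (c (c (c (c (c (c (m (nat_lit 0x2c4f54c)) e) e)
  e) e) e) e) e)) (c (c (c (c (c (c (c (c (m (nat_lit 0x25d609a)) e) e) e) e) e) e) e) e)))) (c (c (c (c (c
  (c (c (c (c (p (nat_lit 0xcb6e4b8)) (c (m (nat_lit 0x79ecd8)) (c (p (nat_lit 0x1383600)) e))) (c (c (m
  (nat_lit 0x6d00c08)) (c (m (nat_lit 0x121a1f0)) e)) (c (c (p (nat_lit 0x2b0d5b0)) e) e))) (c (c (c (m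
  (nat_lit 0x1d4e658)) (c (m (nat_lit 0x1d39640)) e)) (c (c (p (nat_lit 0x11710e0)) e) e)) (c (c (c (p
  (nat_lit 0x3400110)) e) e) e))) (c (c (c (c (p (nat_lit 0x3d47780)) (c (m (nat_lit 0x122ca30)) e)) (c (c (p
  (nat_lit 0x12db5d0)) e) e)) (c (c (c (p (nat_lit 0xd62558)) e) e) e)) (c (c (c (c (p (nat_lit 0x1fc7880))
  e) e) e) e))) (c (c (c (c (c (p (nat_lit 0x27d0d58)) (c (p (nat_lit 0x8884c8)) e)) (c (c (p (nat_lit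
  0x1dc4cc0)) e) e)) (c (c (c (m (nat_lit 0x9cb70)) e) e) e)) (c (c (c (c (m (nat_lit 0xbd04f8)) e) e) e) e))
  (c (c (c (c (c (m (nat_lit 0x29d95e8)) e) e) e) e) e))) (c (c (c (c (c (c (p (nat_lit 0x22880a0)) (c (m
  (nat_lit 0x3246c00)) e)) (c (c (m (nat_lit 0x1b23c58)) e) e)) (c (c (c (p (nat_lit 0x25f8e70)) e) e) e)) (c
  (c (c (c (p (nat_lit 0x5239c8)) e) e) e) e)) (c (c (c (c (c (p (nat_lit 0x6e0d90)) e) e) e) e) e)) (c (c (c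
  (c (c (c (m (nat_lit 0x710b50)) e) e) e) e) e) e))) (c (c (c (c (c (c (c (m (nat_lit 0x12e4d3aa)) (c (p
  (nat_lit 0x16f39c8)) e)) (c (c (p (nat_lit 0x7b8f10)) e) e)) (c (c (c (p (nat_lit 0x46350)) e) e) e)) (c (c
  (c (c (p (nat_lit 0x19afa30)) e) e) e) e)) (c (c (c (c (c (m (nat_lit 0x1b42ab0)) e) e) e) e) e)) (c (c (c
  (c (c (c (p (nat_lit 0x1bab510)) e) e) e) e) e) e)) (c (c (c (c (c (c (c (p (nat_lit 0x54c326a)) e) e) e)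
  e) e) e) e))) (c (c (c (c (c (c (c (c (p (nat_lit 0x1d6f490)) (c (p (nat_lit 0xe68e48)) e)) (c (c (p
  (nat_lit 0x9f61e0)) e) e)) (c (c (c (m (nat_lit 0x3dbe9a0)) e) e) e)) (c (c (c (c (p (nat_lit 0x17bc920))
  e) e) e) e)) (c (c (c (c (c (m (nat_lit 0x7d5d88)) e) e) e) e) e)) (c (c (c (c (c (c (p (nat_lit 0x830b50))
  e) e) e) e) e) e)) (c (c (c (c (c (c (c (p (nat_lit 0x1cd41b6)) e) e) e) e) e) e) e)) (c (c (c (c (c (c (c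
  (c (m (nat_lit 0x3710796)) e) e) e) e) e) e) e) e))) (c (c (c (c (c (c (c (c (c (m (nat_lit 0x9166878)) (c
  (p (nat_lit 0x1c61ee0)) e)) (c (c (p (nat_lit 0x16c8960)) e) e)) (c (c (c (m (nat_lit 0x4afd78)) e) e) e))
  (c (c (c (c (m (nat_lit 0x1665858)) e) e) e) e)) (c (c (c (c (c (p (nat_lit 0xdf8060)) e) e) e) e) e)) (c
  (c (c (c (c (c (p (nat_lit 0x4d3d78)) e) e) e) e) e) e)) (c (c (c (c (c (c (c (p (nat_lit 0x3772d10)) e) e)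
  e) e) e) e) e)) (c (c (c (c (c (c (c (c (p (nat_lit 0x18e2de8)) e) e) e) e) e) e) e) e)) (c (c (c (c (c (c
  (c (c (c (p (nat_lit 0x367d760)) e) e) e) e) e) e) e) e) e)))))

noncomputable def gt_1_4_6 : Tr :=
  (c (c (c (c (c (c (c (c (c (p (nat_lit 0x55cb6a8)) (c (m (nat_lit 0xafe75a8)) (c (p (nat_lit 0x285f690))
  e))) (c (c (m (nat_lit 0xc104730)) (c (p (nat_lit 0x5bdea70)) e)) (c (c (p (nat_lit 0x2c1a6bc)) e) e))) (c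
  (c (c (m (nat_lit 0x3733374)) (c (p (nat_lit 0x38e79e8)) e)) (c (c (m (nat_lit 0xa7c514)) e) e)) (c (c (c
  (p (nat_lit 0x2216130)) e) e) e))) (c (c (c (c (m (nat_lit 0x5289d20)) (c (p (nat_lit 0x1027fb18)) (c (m
  (nat_lit 0x2baa1c8)) e))) (c (c (p (nat_lit 0xae78a50)) (c (m (nat_lit 0x62dc9a8)) e)) (c (c (m (nat_lit
  0x261660)) e) e))) (c (c (c (m (nat_lit 0x824b050)) (c (m (nat_lit 0x3595620)) e)) (c (c (p (nat_lit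
  0x41eb840)) e) e)) (c (c (c (p (nat_lit 0x2d98e08)) e) e) e))) (c (c (c (c (p (nat_lit 0x24a3128)) (c (m
  (nat_lit 0x78e3178)) (c (p (nat_lit 0x1552a10)) e))) (c (c (m (nat_lit 0x24db198)) (c (p (nat_lit
  0x1b9f4e0)) e)) (c (c (m (nat_lit 0x1f613e8)) e) e))) (c (c (c (p (nat_lit 0x63a4298)) (c (p (nat_lit
  0x39dc968)) e)) (c (c (m (nat_lit 0x1824930)) e) e)) (c (c (c (m (nat_lit 0x4d030d0)) e) e) e))) e))) (c (c
  (c (c (c (m (nat_lit 0x2bde698)) (c (p (nat_lit 0x46ce138)) (c (p (nat_lit 0x1e61db8)) e))) (c (c (p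
  (nat_lit 0xadc0d78)) (c (m (nat_lit 0x527ba58)) e)) (c (c (m (nat_lit 0x36de9f0)) e) e))) (c (c (c (p
  (nat_lit 0x5243310)) (c (m (nat_lit 0x4420f20)) e)) (c (c (m (nat_lit 0x525cf30)) e) e)) (c (c (c (m
  (nat_lit 0x472e7f8)) e) e) e))) (c (c (c (c (m (nat_lit 0xa80f00)) (c (p (nat_lit 0x1263e58)) (c (m
  (nat_lit 0xbc9fe8)) e))) (c (c (p (nat_lit 0x177c828)) (c (m (nat_lit 0x407d90)) e)) (c (c (p (nat_lit
  0x526c68)) e) e))) (c (c (c (m (nat_lit 0x156b220)) (c (p (nat_lit 0x5292a8)) e)) (c (c (p (nat_lit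
  0x1233d38)) e) e)) (c (c (c (p (nat_lit 0x141c6f0)) e) e) e))) e)) (c (c (c (c (c (m (nat_lit 0x2ad4cb8))
  (c (p (nat_lit 0x7e59328)) (c (m (nat_lit 0x50a1ad0)) e))) (c (c (m (nat_lit 0x15afcb0)) (c (p (nat_lit
  0x591870)) e)) (c (c (p (nat_lit 0x250d460)) e) e))) (c (c (c (p (nat_lit 0x890658)) (c (m (nat_lit
  0x21adf70)) e)) (c (c (p (nat_lit 0xc02aa8)) e) e)) (c (c (c (p (nat_lit 0xe8608)) e) e) e))) e) e))) (c (c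
  (c (c (c (c (m (nat_lit 0x63a5144)) (c (p (nat_lit 0x8513c40)) (c (m (nat_lit 0x829b558)) e))) (c (c (p
  (nat_lit 0x1399b0c0)) (c (m (nat_lit 0x550992c)) e)) (c (c (m (nat_lit 0x34d90c4)) e) e))) (c (c (c (p
  (nat_lit 0xc014d6c)) (c (m (nat_lit 0x7584bd0)) e)) (c (c (p (nat_lit 0x4e206f4)) e) e)) (c (c (c (m
  (nat_lit 0x66583e0)) e) e) e))) (c (c (c (c (p (nat_lit 0x2658a20)) (c (m (nat_lit 0x5713398)) (c (p
  (nat_lit 0x1c220d0)) e))) (c (c (m (nat_lit 0x29efff8)) (c (p (nat_lit 0x26d4de8)) e)) (c (c (p (nat_lit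
  0xb68f68)) e) e))) (c (c (c (m (nat_lit 0x3ba70b0)) (c (p (nat_lit 0x30012d8)) e)) (c (c (m (nat_lit
  0x147d998)) e) e)) (c (c (c (p (nat_lit 0x43263f0)) e) e) e))) e)) (c (c (c (c (c (m (nat_lit 0x343d58)) (c
  (p (nat_lit 0x1b70e0)) (c (p (nat_lit 0x1020600)) e))) (c (c (m (nat_lit 0x39e68c8)) (c (p (nat_lit
  0x12da448)) e)) (c (c (p (nat_lit 0x3e1fd8)) e) e))) (c (c (c (p (nat_lit 0x1994fe8)) (c (p (nat_lit
  0x92e908)) e)) (c (c (p (nat_lit 0x18985e0)) e) e)) (c (c (c (m (nat_lit 0x7dd300)) e) e) e))) e) e)) (c (c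
  (c (c (c (c (p (nat_lit 0xafb69c)) (c (m (nat_lit 0x2a2b068)) (c (p (nat_lit 0x57bf2e0)) e))) (c (c (m
  (nat_lit 0xd91e320)) (c (p (nat_lit 0x29bf7ac)) e)) (c (c (p (nat_lit 0xc6d98)) e) e))) (c (c (c (p
  (nat_lit 0x3621768)) (c (p (nat_lit 0x3cb53c8)) e)) (c (c (m (nat_lit 0x1a885a0)) e) e)) (c (c (c (p
  (nat_lit 0x1081cf8)) e) e) e))) e) e) e))) (c (c (c (c (c (c (c (p (nat_lit 0x1fa3fa96)) (c (p (nat_lit
  0x3b20878)) (c (m (nat_lit 0xa783f8)) e))) (c (c (p (nat_lit 0x610ef90)) (c (m (nat_lit 0x5121630)) e)) (c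
  (c (m (nat_lit 0x3a4fcb8)) e) e))) (c (c (c (m (nat_lit 0x12c895fe)) (c (p (nat_lit 0xfab1b0)) e)) (c (c (m
  (nat_lit 0x12edbe8)) e) e)) (c (c (c (p (nat_lit 0x38cd4b0)) e) e) e))) (c (c (c (c (m (nat_lit
  0x118fe858)) (c (m (nat_lit 0x7c208ee)) (c (p (nat_lit 0x219e4d8)) e))) (c (c (m (nat_lit 0x8f86ca4)) (c (p
  (nat_lit 0x3a99d40)) e)) (c (c (p (nat_lit 0x19471f8)) e) e))) (c (c (c (p (nat_lit 0x66db4aa)) (c (p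
  (nat_lit 0x30c8718)) e)) (c (c (m (nat_lit 0x1be1c60)) e) e)) (c (c (c (m (nat_lit 0x38b0128)) e) e) e)))
  (c (c (c (c (m (nat_lit 0x20140b0)) (c (p (nat_lit 0x32b2a98)) e)) (c (c (p (nat_lit 0x10dd4b0)) e) e)) (c
  (c (c (p (nat_lit 0x416dca8)) e) e) e)) e))) (c (c (c (c (c (m (nat_lit 0x16664292)) (c (p (nat_lit
  0xa1b566)) (c (p (nat_lit 0x1a50590)) e))) (c (c (m (nat_lit 0x4a876ac)) (c (p (nat_lit 0x2a3b760)) e)) (c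
  (c (p (nat_lit 0x271e270)) e) e))) (c (c (c (p (nat_lit 0xa1e1cf4)) (c (m (nat_lit 0xadb170)) e)) (c (c (p
  (nat_lit 0x27b3178)) e) e)) (c (c (c (m (nat_lit 0x1914660)) e) e) e))) (c (c (c (c (p (nat_lit 0x51a7d0))
  (c (p (nat_lit 0x120b988)) e)) (c (c (m (nat_lit 0x8dc4b0)) e) e)) (c (c (c (m (nat_lit 0xbe9368)) e) e)
  e)) e)) (c (c (c (c (c (p (nat_lit 0x9b95998)) (c (m (nat_lit 0x41d90d8)) e)) (c (c (m (nat_lit 0x29c26b0))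
  e) e)) (c (c (c (p (nat_lit 0x2d7110)) e) e) e)) e) e))) (c (c (c (c (c (c (m (nat_lit 0x81f4cd7c)) (c (p
  (nat_lit 0x11980308)) (c (p (nat_lit 0x330f6a8)) e))) (c (c (p (nat_lit 0x40539de)) (c (p (nat_lit
  0x1c2c180)) e)) (c (c (p (nat_lit 0x13e6168)) e) e))) (c (c (c (p (nat_lit 0x2857cfbc)) (c (p (nat_lit
  0x2558628)) e)) (c (c (m (nat_lit 0x511ef0)) e) e)) (c (c (c (p (nat_lit 0x2b1c0e8)) e) e) e))) (c (c (c (c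
  (p (nat_lit 0x9aa88c0)) (c (p (nat_lit 0xb55bd0)) e)) (c (c (m (nat_lit 0xe98638)) e) e)) (c (c (c (p
  (nat_lit 0x76e7e0)) e) e) e)) e)) (c (c (c (c (c (p (nat_lit 0xf908ef8)) (c (m (nat_lit 0x3f9b280)) e)) (c
  (c (m (nat_lit 0x2f52408)) e) e)) (c (c (c (m (nat_lit 0x3513468)) e) e) e)) e) e)) (c (c (c (c (c (c (p
  (nat_lit 0x578f5008)) (c (m (nat_lit 0xec9c28c)) e)) (c (c (m (nat_lit 0x524edac)) e) e)) (c (c (c (m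
  (nat_lit 0x31e9bd0)) e) e) e)) e) e) e))) (c (c (c (c (c (c (c (m (nat_lit 0x2d863e2)) (c (m (nat_lit
  0x26df276)) (c (m (nat_lit 0x20c9550)) e))) (c (c (p (nat_lit 0x2034966)) (c (m (nat_lit 0x6dad78)) e)) (c
  (c (p (nat_lit 0x857970)) e) e))) (c (c (c (p (nat_lit 0x60e5932)) (c (m (nat_lit 0x2a565b0)) e)) (c (c (p
  (nat_lit 0xc56868)) e) e)) (c (c (c (m (nat_lit 0x1ddf798)) e) e) e))) (c (c (c (c (p (nat_lit 0xb3e6f26))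
  (c (p (nat_lit 0x358ca8e)) e)) (c (c (p (nat_lit 0x390ad94)) e) e)) (c (c (c (m (nat_lit 0x202679a)) e) e)
  e)) (c (c (c (c (m (nat_lit 0xb974b0)) e) e) e) e))) (c (c (c (c (c (p (nat_lit 0x121022ee)) (c (m (nat_lit
  0x85498e)) e)) (c (c (p (nat_lit 0x18a86e4)) e) e)) (c (c (c (m (nat_lit 0xc66fe4)) e) e) e)) (c (c (c (c
  (p (nat_lit 0x1f10628)) e) e) e) e)) (c (c (c (c (c (m (nat_lit 0x2cfaf78)) e) e) e) e) e))) (c (c (c (c (c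
  (c (p (nat_lit 0x60428160)) (c (m (nat_lit 0x6692e44)) e)) (c (c (p (nat_lit 0x12880e)) e) e)) (c (c (c (m
  (nat_lit 0x2b3fdda8)) e) e) e)) (c (c (c (c (m (nat_lit 0x4abc1d0)) e) e) e) e)) (c (c (c (c (c (m (nat_lit
  0x3f33cf0)) e) e) e) e) e)) (c (c (c (c (c (c (m (nat_lit 0x3c19c374)) e) e) e) e) e) e))) (c (c (c (c (c
  (c (c (m (nat_lit 0x1c38d6b6)) (c (p (nat_lit 0x2f76e46)) e)) (c (c (m (nat_lit 0x1adb346)) e) e)) (c (c (c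
  (p (nat_lit 0x9f231f0)) e) e) e)) (c (c (c (c (m (nat_lit 0x1eb0c16)) e) e) e) e)) (c (c (c (c (c (m
  (nat_lit 0x1459ddc)) e) e) e) e) e)) (c (c (c (c (c (c (m (nat_lit 0x359e6a4)) e) e) e) e) e) e)) (c (c (c
  (c (c (c (c (p (nat_lit 0x7165896)) e) e) e) e) e) e) e))))) (c (c (c (c (c (c (c (c (p (nat_lit
  0x71cb404)) (c (p (nat_lit 0x1b4e2e98)) (c (m (nat_lit 0x9d170c0)) e))) (c (c (p (nat_lit 0x7b06708)) (c (p
  (nat_lit 0x2939820)) e)) (c (c (p (nat_lit 0x13a1de0)) e) e))) (c (c (c (m (nat_lit 0x7cd2a4c)) (c (m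
  (nat_lit 0x3358008)) e)) (c (c (p (nat_lit 0x761010)) e) e)) (c (c (c (m (nat_lit 0x595aa0)) e) e) e))) (c
  (c (c (c (m (nat_lit 0xb1dc590)) (c (m (nat_lit 0x15093de)) (c (m (nat_lit 0x186d200)) e))) (c (c (m
  (nat_lit 0x66c57d2)) (c (m (nat_lit 0xb82e70)) e)) (c (c (m (nat_lit 0x580f20)) e) e))) (c (c (c (m
  (nat_lit 0x19b87cc)) (c (m (nat_lit 0x22668)) e)) (c (c (p (nat_lit 0x9e0118)) e) e)) (c (c (c (p (nat_lit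
  0x31eea18)) e) e) e))) (c (c (c (c (p (nat_lit 0x3506d90)) (c (p (nat_lit 0xa5e130)) e)) (c (c (p (nat_lit
  0x881238)) e) e)) (c (c (c (m (nat_lit 0x21b5f38)) e) e) e)) e))) (c (c (c (c (c (p (nat_lit 0xbc8c2de)) (c
  (p (nat_lit 0x692a0f6)) (c (m (nat_lit 0x30d85b8)) e))) (c (c (p (nat_lit 0x360e4f6)) (c (m (nat_lit
  0x1cd77e0)) e)) (c (c (m (nat_lit 0xd5def0)) e) e))) (c (c (c (m (nat_lit 0x22b3558)) (c (m (nat_lit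
  0x6b7498)) e)) (c (c (p (nat_lit 0x899838)) e) e)) (c (c (c (m (nat_lit 0x1e20c28)) e) e) e))) (c (c (c (c
  (p (nat_lit 0x28d3da8)) (c (m (nat_lit 0xa2cd08)) e)) (c (c (m (nat_lit 0x958e48)) e) e)) (c (c (c (p
  (nat_lit 0xb38128)) e) e) e)) e)) (c (c (c (c (c (m (nat_lit 0x5c199a8)) (c (m (nat_lit 0xc49458)) e)) (c
  (c (p (nat_lit 0x834528)) e) e)) (c (c (c (m (nat_lit 0x305838)) e) e) e)) e) e))) (c (c (c (c (c (c (m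
  (nat_lit 0x1733e974)) (c (m (nat_lit 0xb7a969e)) (c (p (nat_lit 0x2f27ca0)) e))) (c (c (m (nat_lit
  0x1042f7be)) (c (m (nat_lit 0x3c570)) e)) (c (c (p (nat_lit 0x604a88)) e) e))) (c (c (c (p (nat_lit
  0x10c7abd0)) (c (p (nat_lit 0x442a58)) e)) (c (c (m (nat_lit 0x124c260)) e) e)) (c (c (c (m (nat_lit
  0xfdb3f0)) e) e) e))) (c (c (c (c (p (nat_lit 0x261a68)) (c (p (nat_lit 0xc1d520)) e)) (c (c (p (nat_lit
  0x882af8)) e) e)) (c (c (c (p (nat_lit 0xb9e368)) e) e) e)) e)) (c (c (c (c (c (m (nat_lit 0xd856d0)) (c (p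
  (nat_lit 0xa38a8)) e)) (c (c (p (nat_lit 0x273ed18)) e) e)) (c (c (c (m (nat_lit 0xb51808)) e) e) e)) e)
  e)) (c (c (c (c (c (c (p (nat_lit 0x274a0ac)) (c (p (nat_lit 0x2ffed4)) e)) (c (c (p (nat_lit 0x5355f6c))
  e) e)) (c (c (c (m (nat_lit 0x29b7460)) e) e) e)) e) e) e))) (c (c (c (c (c (c (c (m (nat_lit 0x859968)) (c
  (m (nat_lit 0x184f22ee)) (c (p (nat_lit 0x3b1ebe0)) e))) (c (c (p (nat_lit 0x126f2b2)) (c (m (nat_lit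
  0x93dfe0)) e)) (c (c (p (nat_lit 0x108e748)) e) e))) (c (c (c (p (nat_lit 0xb8fd77e)) (c (m (nat_lit
  0x5fda98)) e)) (c (c (p (nat_lit 0x14c3100)) e) e)) (c (c (c (m (nat_lit 0x15b63a0)) e) e) e))) (c (c (c (c
  (p (nat_lit 0xd69500c)) (c (m (nat_lit 0x21fb3e2)) e)) (c (c (m (nat_lit 0x173cda8)) e) e)) (c (c (c (m
  (nat_lit 0x3fd7c4)) e) e) e)) (c (c (c (c (p (nat_lit 0x112d220)) e) e) e) e))) (c (c (c (c (c (p (nat_lit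
  0x51ccc6c)) (c (m (nat_lit 0x13c9b6)) e)) (c (c (p (nat_lit 0x2125e06)) e) e)) (c (c (c (m (nat_lit
  0x1ab872c)) e) e) e)) (c (c (c (c (m (nat_lit 0x12252a8)) e) e) e) e)) (c (c (c (c (c (m (nat_lit
  0x17906e8)) e) e) e) e) e))) (c (c (c (c (c (c (p (nat_lit 0x6ed92ee)) (c (p (nat_lit 0x787c7d6)) e)) (c (c
  (p (nat_lit 0x373b09c)) e) e)) (c (c (c (m (nat_lit 0x42503f4)) e) e) e)) (c (c (c (c (p (nat_lit
  0x4fd970)) e) e) e) e)) (c (c (c (c (c (m (nat_lit 0xe79ed0)) e) e) e) e) e)) (c (c (c (c (c (c (m (nat_lit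
  0xe2aab4)) e) e) e) e) e) e))) (c (c (c (c (c (c (c (p (nat_lit 0x12ccb1c)) (c (p (nat_lit 0x5410110)) e))
  (c (c (m (nat_lit 0x2e0e930)) e) e)) (c (c (c (m (nat_lit 0x5047fc2)) e) e) e)) (c (c (c (c (m (nat_lit
  0x8dc771c)) e) e) e) e)) (c (c (c (c (c (m (nat_lit 0x2683818)) e) e) e) e) e)) (c (c (c (c (c (c (p
  (nat_lit 0x1621716)) e) e) e) e) e) e)) (c (c (c (c (c (c (c (p (nat_lit 0x81b5776)) e) e) e) e) e) e)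
  e)))) (c (c (c (c (c (c (c (c (p (nat_lit 0x29eef72)) (c (m (nat_lit 0xba5c9ee)) (c (p (nat_lit 0x2b0d568))
  e))) (c (c (m (nat_lit 0xbf60082)) (c (m (nat_lit 0x121a310)) e)) (c (c (p (nat_lit 0x1383570)) e) e))) (c
  (c (c (m (nat_lit 0x57b2f92)) (c (p (nat_lit 0x1171128)) e)) (c (c (m (nat_lit 0x1d395f8)) e) e)) (c (c (c
  (p (nat_lit 0x34001e8)) e) e) e))) (c (c (c (c (p (nat_lit 0xa8899fa)) (c (p (nat_lit 0x1620af8)) e)) (c (c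
  (p (nat_lit 0x4b5ff3a)) e) e)) (c (c (c (p (nat_lit 0x60bb50)) e) e) e)) (c (c (c (c (m (nat_lit
  0x29d9558)) e) e) e) e))) (c (c (c (c (c (p (nat_lit 0x2f722ce)) (c (m (nat_lit 0x767df0)) e)) (c (c (m
  (nat_lit 0x43c818c)) e) e)) (c (c (c (p (nat_lit 0x6413f4c)) e) e) e)) (c (c (c (c (m (nat_lit 0xbd0528))
  e) e) e) e)) (c (c (c (c (c (p (nat_lit 0x1fc7748)) e) e) e) e) e))) (c (c (c (c (c (c (p (nat_lit
  0x10880e56)) (c (p (nat_lit 0x1c4a2c4)) e)) (c (c (p (nat_lit 0x376343a)) e) e)) (c (c (c (m (nat_lit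
  0x46df70c)) e) e) e)) (c (c (c (c (p (nat_lit 0x6e0d00)) e) e) e) e)) (c (c (c (c (c (p (nat_lit 0x523938))
  e) e) e) e) e)) (c (c (c (c (c (c (m (nat_lit 0x710d78)) e) e) e) e) e) e))) (c (c (c (c (c (c (c (p
  (nat_lit 0xa1c27a)) (c (p (nat_lit 0x592fc26)) e)) (c (c (m (nat_lit 0x83edfa)) e) e)) (c (c (c (m (nat_lit
  0x5452f86)) e) e) e)) (c (c (c (c (m (nat_lit 0x1ef3ffc)) e) e) e) e)) (c (c (c (c (c (m (nat_lit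
  0x3fdbad4)) e) e) e) e) e)) (c (c (c (c (c (c (m (nat_lit 0x3bcaafe)) e) e) e) e) e) e)) (c (c (c (c (c (c
  (c (m (nat_lit 0x3d9c9ce)) e) e) e) e) e) e) e))) (c (c (c (c (c (c (c (c (m (nat_lit 0x327642c)) (c (p
  (nat_lit 0x233a966)) e)) (c (c (p (nat_lit 0x76e8cd6)) e) e)) (c (c (c (p (nat_lit 0x49cf398)) e) e) e)) (c
  (c (c (c (m (nat_lit 0x414c28e)) e) e) e) e)) (c (c (c (c (c (m (nat_lit 0x701a594)) e) e) e) e) e)) (c (c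
  (c (c (c (c (m (nat_lit 0xe02d70)) e) e) e) e) e) e)) (c (c (c (c (c (c (c (p (nat_lit 0x274dfe2)) e) e) e)
  e) e) e) e)) (c (c (c (c (c (c (c (c (m (nat_lit 0x16dac8a)) e) e) e) e) e) e) e) e))))) (c (c (c (c (c (c
  (c (c (c (p (nat_lit 0x31188cc)) (c (m (nat_lit 0x1bf46338)) (c (p (nat_lit 0x9201690)) e))) (c (c (p
  (nat_lit 0x3c2685c)) (c (m (nat_lit 0x3f7bd8)) e)) (c (c (m (nat_lit 0x1b0a680)) e) e))) (c (c (c (m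
  (nat_lit 0x8971224)) (c (p (nat_lit 0x6348198)) e)) (c (c (m (nat_lit 0x10552f8)) e) e)) (c (c (c (p
  (nat_lit 0x2bf3e90)) e) e) e))) (c (c (c (c (m (nat_lit 0x35ce4d0)) (c (p (nat_lit 0x62dbca0)) (c (p
  (nat_lit 0x18f150)) e))) (c (c (p (nat_lit 0x66dd88)) (c (m (nat_lit 0x213e88)) e)) (c (c (m (nat_lit
  0x9c7f38)) e) e))) (c (c (c (p (nat_lit 0x9fd21b0)) (c (m (nat_lit 0x15431b8)) e)) (c (c (p (nat_lit
  0xffaa28)) e) e)) (c (c (c (p (nat_lit 0x95e680)) e) e) e))) (c (c (c (c (p (nat_lit 0x6b1e970)) (c (m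
  (nat_lit 0x4dda368)) e)) (c (c (m (nat_lit 0xd29348)) e) e)) (c (c (c (m (nat_lit 0x4e284a0)) e) e) e))
  e))) (c (c (c (c (c (p (nat_lit 0x8391558)) (c (m (nat_lit 0x4b2e848)) (c (p (nat_lit 0x19b4f98)) e))) (c
  (c (m (nat_lit 0x67764c0)) (c (p (nat_lit 0x1715d30)) e)) (c (c (p (nat_lit 0x4e0c30)) e) e))) (c (c (c (m
  (nat_lit 0x994b348)) (c (p (nat_lit 0x36a8a8)) e)) (c (c (m (nat_lit 0xa57b18)) e) e)) (c (c (c (p (nat_lit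
  0x15e6a78)) e) e) e))) (c (c (c (c (p (nat_lit 0x16754b8)) (c (p (nat_lit 0x791910)) e)) (c (c (m (nat_lit
  0x5c4720)) e) e)) (c (c (c (m (nat_lit 0x84ae90)) e) e) e)) e)) (c (c (c (c (c (m (nat_lit 0x39871f8)) (c
  (p (nat_lit 0x2f32158)) e)) (c (c (p (nat_lit 0x3b58d20)) e) e)) (c (c (c (p (nat_lit 0x407b830)) e) e) e))
  e) e))) (c (c (c (c (c (c (p (nat_lit 0x9ee3704)) (c (p (nat_lit 0xee4e9a4)) (c (m (nat_lit 0x11ecc50))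
  e))) (c (c (m (nat_lit 0x614844)) (c (m (nat_lit 0x2d34590)) e)) (c (c (m (nat_lit 0x4cd4a8)) e) e))) (c (c
  (c (m (nat_lit 0x3dae470)) (c (m (nat_lit 0xc23958)) e)) (c (c (p (nat_lit 0x2a494a0)) e) e)) (c (c (c (p
  (nat_lit 0x2ca9210)) e) e) e))) (c (c (c (c (p (nat_lit 0x243b8f8)) (c (m (nat_lit 0x42dc1d0)) e)) (c (c (m
  (nat_lit 0x41a2a00)) e) e)) (c (c (c (m (nat_lit 0x509d0d8)) e) e) e)) e)) (c (c (c (c (c (m (nat_lit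
  0x4fcf488)) (c (p (nat_lit 0x84c5d0)) e)) (c (c (p (nat_lit 0x2268858)) e) e)) (c (c (c (p (nat_lit
  0x6765d8)) e) e) e)) e) e)) (c (c (c (c (c (c (m (nat_lit 0x19780f8)) (c (m (nat_lit 0x5f3b2fc)) e)) (c (c
  (p (nat_lit 0x40bdc38)) e) e)) (c (c (c (m (nat_lit 0x3339ef4)) e) e) e)) e) e) e))) (c (c (c (c (c (c (c
  (m (nat_lit 0x6e85d62)) (c (p (nat_lit 0xa9c0026)) (c (m (nat_lit 0x1a65ab8)) e))) (c (c (m (nat_lit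
  0x5263878)) (c (p (nat_lit 0x1861f98)) e)) (c (c (p (nat_lit 0x1c65ed0)) e) e))) (c (c (c (m (nat_lit
  0x282bd96)) (c (p (nat_lit 0x12a848)) e)) (c (c (m (nat_lit 0x9bbba8)) e) e)) (c (c (c (m (nat_lit
  0x1753f20)) e) e) e))) (c (c (c (c (p (nat_lit 0x429fc0)) (c (p (nat_lit 0x1703bb0)) e)) (c (c (p (nat_lit
  0x43b6948)) e) e)) (c (c (c (m (nat_lit 0x3866a0)) e) e) e)) (c (c (c (c (m (nat_lit 0x16a20b0)) e) e) e)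
  e))) (c (c (c (c (c (m (nat_lit 0x2e466c4)) (c (p (nat_lit 0x1a1e670)) e)) (c (c (p (nat_lit 0x246a878)) e)
  e)) (c (c (c (p (nat_lit 0x808578)) e) e) e)) (c (c (c (c (m (nat_lit 0x15b72e8)) e) e) e) e)) (c (c (c (c
  (c (p (nat_lit 0x1cff338)) e) e) e) e) e))) (c (c (c (c (c (c (m (nat_lit 0xc36dc7a)) (c (m (nat_lit
  0x30519f0)) e)) (c (c (p (nat_lit 0x10f6248)) e) e)) (c (c (c (p (nat_lit 0x4690dd0)) e) e) e)) (c (c (c (c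
  (m (nat_lit 0x17a5358)) e) e) e) e)) (c (c (c (c (c (m (nat_lit 0x3f660)) e) e) e) e) e)) (c (c (c (c (c (c
  (p (nat_lit 0xbf95b0)) e) e) e) e) e) e))) (c (c (c (c (c (c (c (p (nat_lit 0x4a0208)) (c (m (nat_lit
  0x17d40ce)) e)) (c (c (p (nat_lit 0x137fe50)) e) e)) (c (c (c (p (nat_lit 0x1e83076)) e) e) e)) (c (c (c (c
  (m (nat_lit 0x14029c8)) e) e) e) e)) (c (c (c (c (c (m (nat_lit 0x4dbd8ec)) e) e) e) e) e)) (c (c (c (c (c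
  (c (p (nat_lit 0x9d5d9da)) e) e) e) e) e) e)) (c (c (c (c (c (c (c (p (nat_lit 0x209f082)) e) e) e) e) e)
  e) e)))) (c (c (c (c (c (c (c (c (p (nat_lit 0x8cd301e)) (c (m (nat_lit 0x5141454)) (c (m (nat_lit
  0x28728)) e))) (c (c (p (nat_lit 0x2365992)) (c (p (nat_lit 0x2056cc8)) e)) (c (c (m (nat_lit 0x9387f0)) e)
  e))) (c (c (c (m (nat_lit 0xea7494)) (c (m (nat_lit 0x5738e8)) e)) (c (c (m (nat_lit 0xf33180)) e) e)) (c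
  (c (c (m (nat_lit 0x34e6318)) e) e) e))) (c (c (c (c (m (nat_lit 0xa4d1446)) (c (m (nat_lit 0x116c3b8)) e))
  (c (c (p (nat_lit 0x187cff8)) e) e)) (c (c (c (m (nat_lit 0xdcfb48)) e) e) e)) (c (c (c (c (p (nat_lit
  0x37f5810)) e) e) e) e))) (c (c (c (c (c (p (nat_lit 0x393c0fc)) (c (m (nat_lit 0x12f2100)) e)) (c (c (m
  (nat_lit 0x1038cf0)) e) e)) (c (c (c (m (nat_lit 0x241e4b0)) e) e) e)) (c (c (c (c (m (nat_lit 0x2bcfd58))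
  e) e) e) e)) (c (c (c (c (c (m (nat_lit 0x7c9b90)) e) e) e) e) e))) (c (c (c (c (c (c (m (nat_lit
  0x523a84a)) (c (m (nat_lit 0x15a39c8)) e)) (c (c (m (nat_lit 0x1c6e990)) e) e)) (c (c (c (m (nat_lit
  0x1a79570)) e) e) e)) (c (c (c (c (p (nat_lit 0x2d50568)) e) e) e) e)) (c (c (c (c (c (p (nat_lit
  0x1168aa0)) e) e) e) e) e)) (c (c (c (c (c (c (p (nat_lit 0x22ef1ec)) e) e) e) e) e) e))) (c (c (c (c (c (c
  (c (m (nat_lit 0xce67a8)) (c (p (nat_lit 0x3654960)) e)) (c (c (p (nat_lit 0x1cd0622)) e) e)) (c (c (c (m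
  (nat_lit 0x24f1488)) e) e) e)) (c (c (c (c (p (nat_lit 0x1758bbe)) e) e) e) e)) (c (c (c (c (c (m (nat_lit
  0x1ac8722)) e) e) e) e) e)) (c (c (c (c (c (c (p (nat_lit 0xd4226)) e) e) e) e) e) e)) (c (c (c (c (c (c (c
  (p (nat_lit 0x307ffaa)) e) e) e) e) e) e) e))) (c (c (c (c (c (c (c (c (m (nat_lit 0x81f9f12)) (c (p
  (nat_lit 0x1793acc)) e)) (c (c (m (nat_lit 0x593b23c)) e) e)) (c (c (c (p (nat_lit 0x3fcfdbc)) e) e) e)) (c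
  (c (c (c (p (nat_lit 0x5d10f8)) e) e) e) e)) (c (c (c (c (c (p (nat_lit 0xdf4e86)) e) e) e) e) e)) (c (c (c
  (c (c (c (p (nat_lit 0x1a51e14)) e) e) e) e) e) e)) (c (c (c (c (c (c (c (m (nat_lit 0x4abd63a)) e) e) e)
  e) e) e) e)) (c (c (c (c (c (c (c (c (m (nat_lit 0x20031c0)) e) e) e) e) e) e) e) e)))) (c (c (c (c (c (c
  (c (c (c (p (nat_lit 0x4f31a0)) (c (p (nat_lit 0x3ee0878)) (c (m (nat_lit 0x1b1e690)) e))) (c (c (p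
  (nat_lit 0x169e390)) (c (m (nat_lit 0x13a73d8)) e)) (c (c (m (nat_lit 0x197e8a8)) e) e))) (c (c (c (p
  (nat_lit 0x44895a8)) (c (m (nat_lit 0x1b5e008)) e)) (c (c (p (nat_lit 0x5bf908)) e) e)) (c (c (c (m
  (nat_lit 0xa94940)) e) e) e))) (c (c (c (c (m (nat_lit 0x5a90750)) (c (p (nat_lit 0x5d7b768)) e)) (c (c (p
  (nat_lit 0x14709c0)) e) e)) (c (c (c (p (nat_lit 0x33b3130)) e) e) e)) (c (c (c (c (m (nat_lit 0x8ce530))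
  e) e) e) e))) (c (c (c (c (c (m (nat_lit 0x137b200)) (c (p (nat_lit 0x22eb370)) e)) (c (c (m (nat_lit
  0x550668)) e) e)) (c (c (c (p (nat_lit 0x1bbd018)) e) e) e)) (c (c (c (c (m (nat_lit 0x1440a38)) e) e) e)
  e)) (c (c (c (c (c (m (nat_lit 0x2b10478)) e) e) e) e) e))) (c (c (c (c (c (c (m (nat_lit 0xbd14ba4)) (c (p
  (nat_lit 0x4cdf8b0)) e)) (c (c (p (nat_lit 0x2fb48e0)) e) e)) (c (c (c (p (nat_lit 0x9d40838)) e) e) e)) (c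
  (c (c (c (p (nat_lit 0x25e57f0)) e) e) e) e)) (c (c (c (c (c (m (nat_lit 0x8f7bd0)) e) e) e) e) e)) (c (c
  (c (c (c (c (m (nat_lit 0x4bbfac)) e) e) e) e) e) e))) (c (c (c (c (c (c (c (p (nat_lit 0x9c3c102)) (c (m
  (nat_lit 0x4f7dba0)) e)) (c (c (m (nat_lit 0x35ab70)) e) e)) (c (c (c (m (nat_lit 0x2192010)) e) e) e)) (c
  (c (c (c (m (nat_lit 0x6f79c8)) e) e) e) e)) (c (c (c (c (c (m (nat_lit 0xd6ede0)) e) e) e) e) e)) (c (c (c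
  (c (c (c (m (nat_lit 0x63a80)) e) e) e) e) e) e)) (c (c (c (c (c (c (c (m (nat_lit 0x1518f2a)) e) e) e) e)
  e) e) e))) (c (c (c (c (c (c (c (c (p (nat_lit 0x1afe8ae)) (c (m (nat_lit 0x3e11b00)) e)) (c (c (p (nat_lit
  0x5f7708)) e) e)) (c (c (c (m (nat_lit 0x3280098)) e) e) e)) (c (c (c (c (p (nat_lit 0x7eac20)) e) e) e)
  e)) (c (c (c (c (c (m (nat_lit 0xe3f58)) e) e) e) e) e)) (c (c (c (c (c (c (p (nat_lit 0x4746690)) e) e) e)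
  e) e) e)) (c (c (c (c (c (c (c (p (nat_lit 0x31deba2)) e) e) e) e) e) e) e)) (c (c (c (c (c (c (c (c (p
  (nat_lit 0x13ff6c8)) e) e) e) e) e) e) e) e))) (c (c (c (c (c (c (c (c (c (p (nat_lit 0x28ce360)) (c (p
  (nat_lit 0x5ecb30)) e)) (c (c (p (nat_lit 0xb0f418)) e) e)) (c (c (c (m (nat_lit 0xf24258)) e) e) e)) (c (c
  (c (c (m (nat_lit 0x1ac70c0)) e) e) e) e)) (c (c (c (c (c (p (nat_lit 0x1ec9588)) e) e) e) e) e)) (c (c (c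
  (c (c (c (m (nat_lit 0x6d8a2d8)) e) e) e) e) e) e)) (c (c (c (c (c (c (c (p (nat_lit 0x115230)) e) e) e) e)
  e) e) e)) (c (c (c (c (c (c (c (c (p (nat_lit 0x21aa4a8)) e) e) e) e) e) e) e) e)) (c (c (c (c (c (c (c (c
  (c (m (nat_lit 0x523f8)) e) e) e) e) e) e) e) e) e)))))

noncomputable def gt_1_4_7 : Tr :=
  (c (c (c (c (c (c (c (c (c (m (nat_lit 0x69ae7c8)) (c (p (nat_lit 0x4e62dc)) (c (p (nat_lit 0x2d32058))
  e))) (c (c (p (nat_lit 0x4e636c)) (c (m (nat_lit 0x3e855ac)) e)) (c (c (p (nat_lit 0x2d31ec0)) e) e))) (c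
  (c (c (p (nat_lit 0x38ee690)) (c (m (nat_lit 0x17bc524)) e)) (c (c (m (nat_lit 0x17bc470)) e) e)) (c (c (c
  (m (nat_lit 0x4bc72a8)) e) e) e))) (c (c (c (c (p (nat_lit 0x3afee28)) (c (m (nat_lit 0x1bf0978)) (c (p
  (nat_lit 0x120ab48)) e))) (c (c (m (nat_lit 0x2c7ac50)) (c (p (nat_lit 0x1ce0d20)) e)) (c (c (p (nat_lit
  0x2551b90)) e) e))) (c (c (c (m (nat_lit 0x2cfa948)) (c (p (nat_lit 0x4a87a0)) e)) (c (c (m (nat_lit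
  0x215ef8)) e) e)) (c (c (c (p (nat_lit 0x39df1b8)) e) e) e))) (c (c (c (c (m (nat_lit 0x1f6f3c8)) (c (m
  (nat_lit 0x905da8)) (c (p (nat_lit 0x1080558)) e))) (c (c (p (nat_lit 0x37d9f10)) (c (m (nat_lit
  0x12bd7c8)) e)) (c (c (m (nat_lit 0xc10b78)) e) e))) (c (c (c (p (nat_lit 0x38b7da8)) (c (m (nat_lit
  0x187b48)) e)) (c (c (p (nat_lit 0xdc4658)) e) e)) (c (c (c (m (nat_lit 0x29d20d0)) e) e) e))) e))) (c (c
  (c (c (c (p (nat_lit 0x3afee28)) (c (m (nat_lit 0x2c7ad88)) (c (p (nat_lit 0x2551ae8)) e))) (c (c (m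
  (nat_lit 0x1bf0b40)) (c (p (nat_lit 0x1ce0cf0)) e)) (c (c (p (nat_lit 0x120ac68)) e) e))) (c (c (c (m
  (nat_lit 0x2cfaa98)) (c (m (nat_lit 0x215d90)) e)) (c (c (p (nat_lit 0x4a87d0)) e) e)) (c (c (c (p (nat_lit
  0x39df260)) e) e) e))) (c (c (c (c (p (nat_lit 0x25efc90)) (c (m (nat_lit 0x5bc5c0)) (c (m (nat_lit
  0x7f0500)) e))) (c (c (m (nat_lit 0x5bc5f0)) (c (p (nat_lit 0x9dafe8)) e)) (c (c (m (nat_lit 0x7f0530)) e)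
  e))) (c (c (c (m (nat_lit 0xbbb258)) (c (m (nat_lit 0xd8c0)) e)) (c (c (m (nat_lit 0xd890)) e) e)) (c (c (c
  (m (nat_lit 0x183d1a0)) e) e) e))) e)) (c (c (c (c (c (m (nat_lit 0x1f6f320)) (c (p (nat_lit 0x37d9fe8)) (c
  (m (nat_lit 0xc10b60)) e))) (c (c (m (nat_lit 0x905d18)) (c (m (nat_lit 0x12bd7c8)) e)) (c (c (p (nat_lit
  0x1080528)) e) e))) (c (c (c (p (nat_lit 0x38b7d60)) (c (p (nat_lit 0xdc45e0)) e)) (c (c (m (nat_lit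
  0x187ba8)) e) e)) (c (c (c (m (nat_lit 0x29d20e8)) e) e) e))) e) e))) (c (c (c (c (c (c (p (nat_lit
  0xf859ae8)) (c (m (nat_lit 0x4683714)) (c (m (nat_lit 0xea798c0)) e))) (c (c (m (nat_lit 0x468375c)) (c (p
  (nat_lit 0xb8e9a74)) e)) (c (c (m (nat_lit 0xea796ec)) e) e))) (c (c (c (m (nat_lit 0xdaae25c)) (c (p
  (nat_lit 0x7ae2b70)) e)) (c (c (p (nat_lit 0x7ae2ab0)) e) e)) (c (c (c (p (nat_lit 0x11515dd0)) e) e) e)))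
  (c (c (c (c (m (nat_lit 0x2a36618)) (c (p (nat_lit 0x18e1978)) (c (p (nat_lit 0x14cf9d0)) e))) (c (c (m
  (nat_lit 0x19328b8)) (c (m (nat_lit 0x1f85a18)) e)) (c (c (p (nat_lit 0x2386848)) e) e))) (c (c (c (p
  (nat_lit 0x24d3878)) (c (m (nat_lit 0xf97ec0)) e)) (c (c (p (nat_lit 0x639450)) e) e)) (c (c (c (m (nat_lit
  0x11e8c18)) e) e) e))) e)) (c (c (c (c (c (m (nat_lit 0x2a36678)) (c (m (nat_lit 0x1932858)) (c (p (nat_lit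
  0x2386920)) e))) (c (c (p (nat_lit 0x18e19d8)) (c (m (nat_lit 0x1f85a48)) e)) (c (c (p (nat_lit 0x14cf9a0))
  e) e))) (c (c (c (p (nat_lit 0x24d3920)) (c (p (nat_lit 0x6393a8)) e)) (c (c (m (nat_lit 0xf97ea8)) e) e))
  (c (c (c (m (nat_lit 0x11e8ca8)) e) e) e))) e) e)) (c (c (c (c (c (c (m (nat_lit 0x51867c0)) (c (p (nat_lit
  0x4e7d748)) (c (p (nat_lit 0x525d770)) e))) (c (c (p (nat_lit 0x4e7d640)) (c (m (nat_lit 0x4f850b8)) e)) (c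
  (c (p (nat_lit 0x525d6ec)) e) e))) (c (c (c (p (nat_lit 0x68950d4)) (c (m (nat_lit 0x383ea7c)) e)) (c (c (m
  (nat_lit 0x383ea10)) e) e)) (c (c (c (m (nat_lit 0x96b9eb0)) e) e) e))) e) e) e))) (c (c (c (c (c (c (c (m
  (nat_lit 0x5589f30)) (c (p (nat_lit 0x1820490)) (c (m (nat_lit 0xd82070)) e))) (c (c (p (nat_lit
  0x1820340)) (c (p (nat_lit 0x1dd96d8)) e)) (c (c (m (nat_lit 0xd81fb0)) e) e))) (c (c (c (p (nat_lit
  0x42930b4)) (c (m (nat_lit 0x26e5b28)) e)) (c (c (m (nat_lit 0x26e5b28)) e) e)) (c (c (c (m (nat_lit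
  0x1651db8)) e) e) e))) (c (c (c (c (p (nat_lit 0x64d324a)) (c (p (nat_lit 0x18d7370)) (c (p (nat_lit
  0x706500)) e))) (c (c (m (nat_lit 0x75145e)) (c (p (nat_lit 0x4230)) e)) (c (c (m (nat_lit 0xd284f0)) e)
  e))) (c (c (c (p (nat_lit 0x1cbc5f4)) (c (p (nat_lit 0x3e6b38)) e)) (c (c (p (nat_lit 0x31c2a8)) e) e)) (c
  (c (c (m (nat_lit 0x1b81a38)) e) e) e))) (c (c (c (c (m (nat_lit 0xf75240)) (c (m (nat_lit 0x1a96370)) e))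
  (c (c (m (nat_lit 0x8c9898)) e) e)) (c (c (c (m (nat_lit 0xb05e78)) e) e) e)) e))) (c (c (c (c (c (p
  (nat_lit 0x64d33e2)) (c (m (nat_lit 0x75148e)) (c (m (nat_lit 0xd284c0)) e))) (c (c (p (nat_lit 0x18d7430))
  (c (p (nat_lit 0x4278)) e)) (c (c (p (nat_lit 0x706470)) e) e))) (c (c (c (p (nat_lit 0x1cbc66c)) (c (p
  (nat_lit 0x31c248)) e)) (c (c (p (nat_lit 0x3e6b50)) e) e)) (c (c (c (m (nat_lit 0x1b81a50)) e) e) e))) (c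
  (c (c (c (m (nat_lit 0x2056db8)) (c (m (nat_lit 0x10357e0)) e)) (c (c (m (nat_lit 0x1035798)) e) e)) (c (c
  (c (p (nat_lit 0x2cb3698)) e) e) e)) e)) (c (c (c (c (c (m (nat_lit 0xf75240)) (c (m (nat_lit 0x8c9988))
  e)) (c (c (m (nat_lit 0x1a963b8)) e) e)) (c (c (c (m (nat_lit 0xb05ec0)) e) e) e)) e) e))) (c (c (c (c (c
  (c (p (nat_lit 0x142199b8)) (c (p (nat_lit 0xf71ebde)) (c (p (nat_lit 0x21bb4a0)) e))) (c (c (p (nat_lit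
  0xf71ee00)) (c (m (nat_lit 0x114b3b8)) e)) (c (c (p (nat_lit 0x21bb428)) e) e))) (c (c (c (m (nat_lit
  0x2ebabde)) (c (m (nat_lit 0x1c07988)) e)) (c (c (m (nat_lit 0x1c07970)) e) e)) (c (c (c (m (nat_lit
  0x4681d58)) e) e) e))) (c (c (c (c (m (nat_lit 0x2ea7e88)) (c (m (nat_lit 0x2344cf8)) e)) (c (c (m (nat_lit
  0xb41920)) e) e)) (c (c (c (m (nat_lit 0x16e4c80)) e) e) e)) e)) (c (c (c (c (c (m (nat_lit 0x2ea7ea0)) (c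
  (m (nat_lit 0xb41938)) e)) (c (c (m (nat_lit 0x2344d10)) e) e)) (c (c (c (m (nat_lit 0x16e4c68)) e) e) e))
  e) e)) (c (c (c (c (c (c (m (nat_lit 0xfbd7a58)) (c (m (nat_lit 0x53983f8)) e)) (c (c (m (nat_lit
  0x5398518)) e) e)) (c (c (c (p (nat_lit 0x2dd3290)) e) e) e)) e) e) e))) (c (c (c (c (c (c (c (p (nat_lit
  0x551ce8c)) (c (m (nat_lit 0x2a6f5c4)) (c (m (nat_lit 0x9861f0)) e))) (c (c (m (nat_lit 0x2a6f618)) (c (m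
  (nat_lit 0x182bbc0)) e)) (c (c (m (nat_lit 0x986190)) e) e))) (c (c (c (m (nat_lit 0x89f33a0)) (c (p
  (nat_lit 0x2dc10f8)) e)) (c (c (p (nat_lit 0x2dc1098)) e) e)) (c (c (c (p (nat_lit 0x4a6aa68)) e) e) e)))
  (c (c (c (c (m (nat_lit 0x9459a86)) (c (p (nat_lit 0x11236e0)) e)) (c (c (p (nat_lit 0x25333e6)) e) e)) (c
  (c (c (p (nat_lit 0x1fe6084)) e) e) e)) (c (c (c (c (p (nat_lit 0x30a23d8)) e) e) e) e))) (c (c (c (c (c (m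
  (nat_lit 0x9459b46)) (c (p (nat_lit 0x253339e)) e)) (c (c (p (nat_lit 0x1123740)) e) e)) (c (c (c (p
  (nat_lit 0x1fe609c)) e) e) e)) (c (c (c (c (p (nat_lit 0x15bba10)) e) e) e) e)) (c (c (c (c (c (p (nat_lit
  0x30a2390)) e) e) e) e) e))) (c (c (c (c (c (c (m (nat_lit 0x2352ed3c)) (c (m (nat_lit 0x7897faa)) e)) (c
  (c (m (nat_lit 0x7898034)) e) e)) (c (c (c (p (nat_lit 0x695d942)) e) e) e)) (c (c (c (c (p (nat_lit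
  0x62a59b8)) e) e) e) e)) (c (c (c (c (c (p (nat_lit 0x62a59d0)) e) e) e) e) e)) (c (c (c (c (c (c (p
  (nat_lit 0x143e3290)) e) e) e) e) e) e))) (c (c (c (c (c (c (c (p (nat_lit 0x1ebc48a)) (c (p (nat_lit
  0x2127f48)) e)) (c (c (p (nat_lit 0x2127fcc)) e) e)) (c (c (c (m (nat_lit 0x17d6ae0)) e) e) e)) (c (c (c (c
  (m (nat_lit 0x246804)) e) e) e) e)) (c (c (c (c (c (m (nat_lit 0x24681c)) e) e) e) e) e)) (c (c (c (c (c (c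
  (m (nat_lit 0x4587cd8)) e) e) e) e) e) e)) (c (c (c (c (c (c (c (p (nat_lit 0x25f2366)) e) e) e) e) e) e)
  e))))) (c (c (c (c (c (c (c (c (p (nat_lit 0x14149f2)) (c (p (nat_lit 0x3f697fe)) (c (m (nat_lit 0xd54848))
  e))) (c (c (p (nat_lit 0x1397df12)) (c (m (nat_lit 0x20990d0)) e)) (c (c (m (nat_lit 0x3782838)) e) e))) (c
  (c (c (p (nat_lit 0x274ab0e)) (c (m (nat_lit 0xe46768)) e)) (c (c (m (nat_lit 0x2e09650)) e) e)) (c (c (c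
  (p (nat_lit 0xbbf530)) e) e) e))) (c (c (c (c (m (nat_lit 0x655aa48)) (c (m (nat_lit 0x4663bf6)) (c (m
  (nat_lit 0x46d670)) e))) (c (c (m (nat_lit 0xe2fac16)) (c (p (nat_lit 0x15c0f48)) e)) (c (c (m (nat_lit
  0xc59400)) e) e))) (c (c (c (m (nat_lit 0x665691c)) (c (m (nat_lit 0x235278)) e)) (c (c (p (nat_lit
  0xb49db0)) e) e)) (c (c (c (m (nat_lit 0x471d98)) e) e) e))) (c (c (c (c (m (nat_lit 0x150fd38)) (c (p
  (nat_lit 0x1a74d10)) e)) (c (c (m (nat_lit 0x3345f90)) e) e)) (c (c (c (p (nat_lit 0x1531b60)) e) e) e))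
  e))) (c (c (c (c (c (p (nat_lit 0x26c6a8d0)) (c (p (nat_lit 0x1da041a)) (c (m (nat_lit 0x88fb0)) e))) (c (c
  (m (nat_lit 0x89abcfa)) (c (p (nat_lit 0x1986f0)) e)) (c (c (m (nat_lit 0x1fadf18)) e) e))) (c (c (c (m
  (nat_lit 0x42b2722)) (c (m (nat_lit 0x60bda8)) e)) (c (c (p (nat_lit 0x256290)) e) e)) (c (c (c (p (nat_lit
  0x20d3198)) e) e) e))) (c (c (c (c (p (nat_lit 0x11643d8)) (c (p (nat_lit 0x1d88408)) e)) (c (c (m (nat_lit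
  0x19031e8)) e) e)) (c (c (c (p (nat_lit 0x11881c8)) e) e) e)) e)) (c (c (c (c (c (p (nat_lit 0x6ee140)) (c
  (m (nat_lit 0xaa3c88)) e)) (c (c (p (nat_lit 0x35b0080)) e) e)) (c (c (c (m (nat_lit 0x14acb70)) e) e) e))
  e) e))) (c (c (c (c (c (c (p (nat_lit 0x2eba3b0)) (c (m (nat_lit 0x2d7d41e)) (c (m (nat_lit 0x3caf20)) e)))
  (c (c (m (nat_lit 0x11b597f8)) (c (p (nat_lit 0x144e7d8)) e)) (c (c (p (nat_lit 0x72a680)) e) e))) (c (c (c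
  (p (nat_lit 0x55773c)) (c (p (nat_lit 0x47ce80)) e)) (c (c (p (nat_lit 0x1d9b9b0)) e) e)) (c (c (c (p
  (nat_lit 0x14a1398)) e) e) e))) (c (c (c (c (p (nat_lit 0x12ef1f0)) (c (p (nat_lit 0x157a550)) e)) (c (c (p
  (nat_lit 0xe33268)) e) e)) (c (c (c (p (nat_lit 0x24a0b78)) e) e) e)) e)) (c (c (c (c (c (m (nat_lit
  0x1c17978)) (c (m (nat_lit 0x709d28)) e)) (c (c (p (nat_lit 0x231d230)) e) e)) (c (c (c (m (nat_lit
  0x188b770)) e) e) e)) e) e)) (c (c (c (c (c (c (p (nat_lit 0x2dcd53c)) (c (p (nat_lit 0x29d9a44)) e)) (c (c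
  (p (nat_lit 0xbc7c0)) e) e)) (c (c (c (p (nat_lit 0x1eb14e0)) e) e) e)) e) e) e))) (c (c (c (c (c (c (c (m
  (nat_lit 0x1e594e16)) (c (p (nat_lit 0x80beb4)) (c (m (nat_lit 0x669798)) e))) (c (c (p (nat_lit
  0x6ecc028)) (c (p (nat_lit 0xf0de60)) e)) (c (c (m (nat_lit 0x80f070)) e) e))) (c (c (c (p (nat_lit
  0x929382c)) (c (m (nat_lit 0xb04090)) e)) (c (c (p (nat_lit 0x1380738)) e) e)) (c (c (c (m (nat_lit
  0x2be078)) e) e) e))) (c (c (c (c (p (nat_lit 0x78fe4de)) (c (p (nat_lit 0x131d186)) e)) (c (c (p (nat_lit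
  0x26cc47e)) e) e)) (c (c (c (p (nat_lit 0x11f4e82)) e) e) e)) (c (c (c (c (p (nat_lit 0x21c960)) e) e) e)
  e))) (c (c (c (c (c (p (nat_lit 0x3b2bfc)) (c (p (nat_lit 0x2bb1c8)) e)) (c (c (p (nat_lit 0x23fc39a)) e)
  e)) (c (c (c (m (nat_lit 0x6e8d4)) e) e) e)) (c (c (c (c (p (nat_lit 0xc58b0)) e) e) e) e)) (c (c (c (c (c
  (m (nat_lit 0xa19f70)) e) e) e) e) e))) (c (c (c (c (c (c (p (nat_lit 0xd02999c)) (c (p (nat_lit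
  0x3e3eff8)) e)) (c (c (p (nat_lit 0x4cab3b6)) e) e)) (c (c (c (m (nat_lit 0x20a023a)) e) e) e)) (c (c (c (c
  (m (nat_lit 0x127d2e0)) e) e) e) e)) (c (c (c (c (c (p (nat_lit 0x491940)) e) e) e) e) e)) (c (c (c (c (c
  (c (m (nat_lit 0xdaafe4)) e) e) e) e) e) e))) (c (c (c (c (c (c (c (p (nat_lit 0xb289630)) (c (m (nat_lit
  0x350284e)) e)) (c (c (m (nat_lit 0x81a20c)) e) e)) (c (c (c (m (nat_lit 0x4dd725a)) e) e) e)) (c (c (c (c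
  (m (nat_lit 0x3030714)) e) e) e) e)) (c (c (c (c (c (m (nat_lit 0x250beb8)) e) e) e) e) e)) (c (c (c (c (c
  (c (m (nat_lit 0x3056760)) e) e) e) e) e) e)) (c (c (c (c (c (c (c (m (nat_lit 0x10c0c32)) e) e) e) e) e)
  e) e)))) (c (c (c (c (c (c (c (c (p (nat_lit 0x11ab493c)) (c (p (nat_lit 0x3060834)) (c (p (nat_lit
  0x932e98)) e))) (c (c (m (nat_lit 0x19e5a6a2)) (c (p (nat_lit 0x120c990)) e)) (c (c (p (nat_lit 0x21fe2f8))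
  e) e))) (c (c (c (m (nat_lit 0x7b8ca7e)) (c (p (nat_lit 0x456090)) e)) (c (c (p (nat_lit 0x87e88)) e) e))
  (c (c (c (m (nat_lit 0x111d260)) e) e) e))) (c (c (c (c (m (nat_lit 0x378b26e)) (c (p (nat_lit 0x9b3d30))
  e)) (c (c (p (nat_lit 0xca29660)) e) e)) (c (c (c (p (nat_lit 0x38d31c2)) e) e) e)) (c (c (c (c (m (nat_lit
  0x29ddbc0)) e) e) e) e))) (c (c (c (c (c (m (nat_lit 0x2a8545f8)) (c (m (nat_lit 0x53e46fa)) e)) (c (c (p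
  (nat_lit 0x8f6aa68)) e) e)) (c (c (c (p (nat_lit 0x5d5e836)) e) e) e)) (c (c (c (c (p (nat_lit 0x29acd8))
  e) e) e) e)) (c (c (c (c (c (p (nat_lit 0x5a53b8)) e) e) e) e) e))) (c (c (c (c (c (c (m (nat_lit
  0x10ad49c2)) (c (p (nat_lit 0x9e5176)) e)) (c (c (p (nat_lit 0x439118a)) e) e)) (c (c (c (p (nat_lit
  0x1e32ee)) e) e) e)) (c (c (c (c (m (nat_lit 0x29b8210)) e) e) e) e)) (c (c (c (c (c (p (nat_lit
  0x352f068)) e) e) e) e) e)) (c (c (c (c (c (c (m (nat_lit 0x3c1053c)) e) e) e) e) e) e))) (c (c (c (c (c (c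
  (c (p (nat_lit 0xe0c3acc)) (c (m (nat_lit 0x70320)) e)) (c (c (m (nat_lit 0x83bd14e)) e) e)) (c (c (c (m
  (nat_lit 0x411bf76)) e) e) e)) (c (c (c (c (m (nat_lit 0x5148756)) e) e) e) e)) (c (c (c (c (c (p (nat_lit
  0x1488366)) e) e) e) e) e)) (c (c (c (c (c (c (m (nat_lit 0x2c615e8)) e) e) e) e) e) e)) (c (c (c (c (c (c
  (c (p (nat_lit 0x6552786)) e) e) e) e) e) e) e))) (c (c (c (c (c (c (c (c (m (nat_lit 0xa0b4698)) (c (m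
  (nat_lit 0x2667024)) e)) (c (c (p (nat_lit 0xaf9f542)) e) e)) (c (c (c (p (nat_lit 0x4dc7444)) e) e) e)) (c
  (c (c (c (p (nat_lit 0x197b43a)) e) e) e) e)) (c (c (c (c (c (p (nat_lit 0xb456c2e)) e) e) e) e) e)) (c (c
  (c (c (c (c (p (nat_lit 0x47301de)) e) e) e) e) e) e)) (c (c (c (c (c (c (c (p (nat_lit 0x48ff54)) e) e) e)
  e) e) e) e)) (c (c (c (c (c (c (c (c (p (nat_lit 0x15b0f28)) e) e) e) e) e) e) e) e))))) (c (c (c (c (c (c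
  (c (c (c (p (nat_lit 0x5de868)) (c (p (nat_lit 0x99b4168)) (c (m (nat_lit 0x3782aa8)) e))) (c (c (p
  (nat_lit 0x27bfda8)) (c (m (nat_lit 0x2098ed8)) e)) (c (c (m (nat_lit 0xd54ad0)) e) e))) (c (c (c (m
  (nat_lit 0x164ac0)) (c (m (nat_lit 0x2e095c0)) e)) (c (c (m (nat_lit 0xe466d8)) e) e)) (c (c (c (p (nat_lit
  0xbbf5c0)) e) e) e))) (c (c (c (c (p (nat_lit 0xd4220d8)) (c (p (nat_lit 0x2fcb848)) (c (m (nat_lit
  0x1fae098)) e))) (c (c (m (nat_lit 0x45c1a70)) (c (p (nat_lit 0x198750)) e)) (c (c (m (nat_lit 0x890a0)) e)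
  e))) (c (c (c (m (nat_lit 0x19d4978)) (c (p (nat_lit 0x2562a8)) e)) (c (c (m (nat_lit 0x60bd90)) e) e)) (c
  (c (c (p (nat_lit 0x20d31e0)) e) e) e))) (c (c (c (c (p (nat_lit 0x6ee098)) (c (p (nat_lit 0x35b00f8)) e))
  (c (c (m (nat_lit 0xaa3c70)) e) e)) (c (c (c (m (nat_lit 0x14acb10)) e) e) e)) e))) (c (c (c (c (c (m
  (nat_lit 0xb21b968)) (c (m (nat_lit 0x284c310)) (c (m (nat_lit 0xc59418)) e))) (c (c (m (nat_lit
  0x2fb96e0)) (c (p (nat_lit 0x15c0f30)) e)) (c (c (m (nat_lit 0x46d6b8)) e) e))) (c (c (c (m (nat_lit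
  0x2b7b770)) (c (p (nat_lit 0xb49de0)) e)) (c (c (m (nat_lit 0x235218)) e) e)) (c (c (c (m (nat_lit
  0x471d38)) e) e) e))) (c (c (c (c (p (nat_lit 0x11642d0)) (c (m (nat_lit 0x19031e8)) e)) (c (c (p (nat_lit
  0x1d88438)) e) e)) (c (c (c (p (nat_lit 0x1188210)) e) e) e)) e)) (c (c (c (c (c (m (nat_lit 0x150feb8)) (c
  (m (nat_lit 0x33460b0)) e)) (c (c (p (nat_lit 0x1a74d58)) e) e)) (c (c (c (p (nat_lit 0x1531bc0)) e) e) e))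
  e) e))) (c (c (c (c (c (c (m (nat_lit 0x26f58fc)) (c (m (nat_lit 0x64593a8)) (c (p (nat_lit 0x72a5c0)) e)))
  (c (c (m (nat_lit 0x178ab68)) (c (p (nat_lit 0x144e838)) e)) (c (c (m (nat_lit 0x3caf98)) e) e))) (c (c (c
  (m (nat_lit 0x1e9d488)) (c (p (nat_lit 0x1d9b998)) e)) (c (c (p (nat_lit 0x47cdf0)) e) e)) (c (c (c (p
  (nat_lit 0x14a1338)) e) e) e))) (c (c (c (c (m (nat_lit 0x1c17a80)) (c (p (nat_lit 0x231d1d0)) e)) (c (c (m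
  (nat_lit 0x709d10)) e) e)) (c (c (c (m (nat_lit 0x188b770)) e) e) e)) e)) (c (c (c (c (c (p (nat_lit
  0x12ef130)) (c (p (nat_lit 0xe33220)) e)) (c (c (p (nat_lit 0x157a550)) e) e)) (c (c (c (p (nat_lit
  0x24a0bc0)) e) e) e)) e) e)) (c (c (c (c (c (c (p (nat_lit 0x2dcd404)) (c (p (nat_lit 0xbbe30)) e)) (c (c
  (p (nat_lit 0x29d9d68)) e) e)) (c (c (c (p (nat_lit 0x1eb19d8)) e) e) e)) e) e) e))) (c (c (c (c (c (c (c
  (m (nat_lit 0x7c98420)) (c (m (nat_lit 0x1d7b1c)) (c (m (nat_lit 0x80f0a0)) e))) (c (c (m (nat_lit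
  0x37c2de)) (c (p (nat_lit 0xf0de60)) e)) (c (c (m (nat_lit 0x669768)) e) e))) (c (c (c (p (nat_lit
  0x1a6605e)) (c (p (nat_lit 0x13806d8)) e)) (c (c (m (nat_lit 0xb040c0)) e) e)) (c (c (c (m (nat_lit
  0x2be060)) e) e) e))) (c (c (c (c (p (nat_lit 0x1dec85a)) (c (p (nat_lit 0x1c30d58)) e)) (c (c (p (nat_lit
  0x8ef770)) e) e)) (c (c (c (p (nat_lit 0xc13920)) e) e) e)) (c (c (c (c (m (nat_lit 0xa1a048)) e) e) e)
  e))) (c (c (c (c (c (p (nat_lit 0x20d26dc)) (c (p (nat_lit 0xf44c70)) e)) (c (c (p (nat_lit 0xa64490)) e)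
  e)) (c (c (c (p (nat_lit 0x10c0920)) e) e) e)) (c (c (c (c (p (nat_lit 0xc58b0)) e) e) e) e)) (c (c (c (c
  (c (p (nat_lit 0x21cab0)) e) e) e) e) e))) (c (c (c (c (c (c (p (nat_lit 0x1e4122c)) (c (p (nat_lit
  0x3748e60)) e)) (c (c (p (nat_lit 0x1fc7568)) e) e)) (c (c (c (m (nat_lit 0x889f80)) e) e) e)) (c (c (c (c
  (p (nat_lit 0x491a18)) e) e) e) e)) (c (c (c (c (c (m (nat_lit 0x127d268)) e) e) e) e) e)) (c (c (c (c (c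
  (c (m (nat_lit 0xdaa8e8)) e) e) e) e) e) e))) (c (c (c (c (c (c (c (p (nat_lit 0x9f723f6)) (c (m (nat_lit
  0x216420c)) e)) (c (c (m (nat_lit 0x262a802)) e) e)) (c (c (c (m (nat_lit 0x2c37456)) e) e) e)) (c (c (c (c
  (m (nat_lit 0x3d7f442)) e) e) e) e)) (c (c (c (c (c (m (nat_lit 0x27e27f4)) e) e) e) e) e)) (c (c (c (c (c
  (c (m (nat_lit 0x2bf2d2c)) e) e) e) e) e) e)) (c (c (c (c (c (c (c (m (nat_lit 0xad2e7e)) e) e) e) e) e) e)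
  e)))) (c (c (c (c (c (c (c (c (m (nat_lit 0x3194083e)) (c (p (nat_lit 0x287d3fc)) (c (p (nat_lit
  0x28c0110)) e))) (c (c (p (nat_lit 0x16723152)) (c (m (nat_lit 0x2edf8f8)) e)) (c (c (p (nat_lit
  0x28c00e0)) e) e))) (c (c (c (p (nat_lit 0x887778)) (c (m (nat_lit 0x17aa50)) e)) (c (c (m (nat_lit
  0x17aa50)) e) e)) (c (c (c (m (nat_lit 0x21dea98)) e) e) e))) (c (c (c (c (p (nat_lit 0x443a9a8)) (c (m
  (nat_lit 0x1dcebf0)) e)) (c (c (p (nat_lit 0x17e0038)) e) e)) (c (c (c (m (nat_lit 0x168a698)) e) e) e)) (c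
  (c (c (c (p (nat_lit 0x2ab3a30)) e) e) e) e))) (c (c (c (c (c (m (nat_lit 0x1efbe68)) (c (p (nat_lit
  0x17e0128)) e)) (c (c (m (nat_lit 0x1dcec68)) e) e)) (c (c (c (m (nat_lit 0x168a6e0)) e) e) e)) (c (c (c (c
  (m (nat_lit 0x3ebab68)) e) e) e) e)) (c (c (c (c (c (p (nat_lit 0x2ab3a00)) e) e) e) e) e))) (c (c (c (c (c
  (c (p (nat_lit 0xa7c9202)) (c (p (nat_lit 0x135eb68)) e)) (c (c (p (nat_lit 0x135eaf0)) e) e)) (c (c (c (p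
  (nat_lit 0x1a79cc0)) e) e) e)) (c (c (c (c (m (nat_lit 0x2a1b18)) e) e) e) e)) (c (c (c (c (c (m (nat_lit
  0x2a1aa0)) e) e) e) e) e)) (c (c (c (c (c (c (p (nat_lit 0xb8d2c8)) e) e) e) e) e) e))) (c (c (c (c (c (c
  (c (m (nat_lit 0x6b30ef8)) (c (m (nat_lit 0xc29766)) e)) (c (c (m (nat_lit 0x220b11a)) e) e)) (c (c (c (m
  (nat_lit 0x27bac0c)) e) e) e)) (c (c (c (c (m (nat_lit 0x30f15f6)) e) e) e) e)) (c (c (c (c (c (p (nat_lit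
  0xd920b4)) e) e) e) e) e)) (c (c (c (c (c (c (m (nat_lit 0x759234c)) e) e) e) e) e) e)) (c (c (c (c (c (c
  (c (p (nat_lit 0x51566e8)) e) e) e) e) e) e) e))) (c (c (c (c (c (c (c (c (p (nat_lit 0x1fb5618a)) (c (m
  (nat_lit 0x26e0656)) e)) (c (c (m (nat_lit 0xf424d28)) e) e)) (c (c (c (m (nat_lit 0x147030c)) e) e) e)) (c
  (c (c (c (p (nat_lit 0xa02bbe)) e) e) e) e)) (c (c (c (c (c (p (nat_lit 0x1f4a1ec)) e) e) e) e) e)) (c (c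
  (c (c (c (c (p (nat_lit 0x5f20fda)) e) e) e) e) e) e)) (c (c (c (c (c (c (c (p (nat_lit 0x2a1615e)) e) e)
  e) e) e) e) e)) (c (c (c (c (c (c (c (c (m (nat_lit 0x62a4e72)) e) e) e) e) e) e) e) e)))) (c (c (c (c (c
  (c (c (c (c (p (nat_lit 0x8a5fa30)) (c (m (nat_lit 0x94210e0)) (c (p (nat_lit 0x21fe3a0)) e))) (c (c (p
  (nat_lit 0x1030908)) (c (p (nat_lit 0x120c900)) e)) (c (c (p (nat_lit 0x932f40)) e) e))) (c (c (c (p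
  (nat_lit 0x1bb9880)) (c (p (nat_lit 0x87e40)) e)) (c (c (p (nat_lit 0x456060)) e) e)) (c (c (c (m (nat_lit
  0x111d2d8)) e) e) e))) (c (c (c (c (m (nat_lit 0x523b240)) (c (m (nat_lit 0x22411e0)) e)) (c (c (p (nat_lit
  0x949410)) e) e)) (c (c (c (p (nat_lit 0x27fe8e0)) e) e) e)) (c (c (c (c (p (nat_lit 0x5a5490)) e) e) e)
  e))) (c (c (c (c (c (p (nat_lit 0x4682d90)) (c (p (nat_lit 0x2702688)) e)) (c (c (m (nat_lit 0x43db38)) e)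
  e)) (c (c (c (m (nat_lit 0xd3a88)) e) e) e)) (c (c (c (c (p (nat_lit 0x29ad50)) e) e) e) e)) (c (c (c (c (c
  (m (nat_lit 0x29ddbf0)) e) e) e) e) e))) (c (c (c (c (c (c (p (nat_lit 0xa4430c)) (c (m (nat_lit
  0x5e0c1a0)) e)) (c (c (p (nat_lit 0x126a0c8)) e) e)) (c (c (c (p (nat_lit 0xdc16d0)) e) e) e)) (c (c (c (c
  (p (nat_lit 0x352f110)) e) e) e) e)) (c (c (c (c (c (m (nat_lit 0x29b8198)) e) e) e) e) e)) (c (c (c (c (c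
  (c (m (nat_lit 0x3c10b24)) e) e) e) e) e) e))) (c (c (c (c (c (c (c (p (nat_lit 0x40bced0)) (c (p (nat_lit
  0x24332a0)) e)) (c (c (p (nat_lit 0x13b8d30)) e) e)) (c (c (c (p (nat_lit 0x6617e8)) e) e) e)) (c (c (c (c
  (p (nat_lit 0xbe3e60)) e) e) e) e)) (c (c (c (c (c (m (nat_lit 0x2a43698)) e) e) e) e) e)) (c (c (c (c (c
  (c (p (nat_lit 0x1ca0e80)) e) e) e) e) e) e)) (c (c (c (c (c (c (c (p (nat_lit 0x11e9560)) e) e) e) e) e)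
  e) e))) (c (c (c (c (c (c (c (c (p (nat_lit 0x15950e5c)) (c (p (nat_lit 0x3e6f1a8)) e)) (c (c (m (nat_lit
  0x1d10cd8)) e) e)) (c (c (c (m (nat_lit 0x1b5c3d0)) e) e) e)) (c (c (c (c (m (nat_lit 0x16036b0)) e) e) e)
  e)) (c (c (c (c (c (m (nat_lit 0x697ce0)) e) e) e) e) e)) (c (c (c (c (c (c (p (nat_lit 0xff27f0)) e) e) e)
  e) e) e)) (c (c (c (c (c (c (c (p (nat_lit 0x1075a1c)) e) e) e) e) e) e) e)) (c (c (c (c (c (c (c (c (m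
  (nat_lit 0x138380b8)) e) e) e) e) e) e) e) e))) (c (c (c (c (c (c (c (c (c (m (nat_lit 0x460e150)) (c (p
  (nat_lit 0x272d408)) e)) (c (c (m (nat_lit 0x6061e0)) e) e)) (c (c (c (m (nat_lit 0x11bf5c0)) e) e) e)) (c
  (c (c (c (m (nat_lit 0x29c388)) e) e) e) e)) (c (c (c (c (c (p (nat_lit 0x1107120)) e) e) e) e) e)) (c (c
  (c (c (c (c (m (nat_lit 0x13b6570)) e) e) e) e) e) e)) (c (c (c (c (c (c (c (m (nat_lit 0x1795d88)) e) e)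
  e) e) e) e) e)) (c (c (c (c (c (c (c (c (p (nat_lit 0x25b01e0)) e) e) e) e) e) e) e) e)) (c (c (c (c (c (c
  (c (c (c (p (nat_lit 0xd57b78)) e) e) e) e) e) e) e) e) e)))))

noncomputable def gt_1_4 : Tr := (c gt_1_4_4 (c gt_1_4_5 (c gt_1_4_6 (c gt_1_4_7 e))))

noncomputable def gt_1_5_5 : Tr :=
  (c (c (c (c (c (c (c (c (c (p (nat_lit 0xa89e700)) (c (m (nat_lit 0x5f92d28)) (c (p (nat_lit 0x1947150))
  e))) (c (c (m (nat_lit 0x1b40b4b0)) (c (p (nat_lit 0x4221ab0)) e)) (c (c (p (nat_lit 0x8a29220)) e) e))) (c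
  (c (c (m (nat_lit 0x3ef52f0)) (c (m (nat_lit 0x4174e00)) e)) (c (c (p (nat_lit 0x53a7b60)) e) e)) (c (c (c
  (p (nat_lit 0x1ac3220)) e) e) e))) (c (c (c (c (m (nat_lit 0x5f92d28)) (c (p (nat_lit 0x1e637ae8)) (c (m
  (nat_lit 0x89e5750)) e))) (c (c (p (nat_lit 0x128d7290)) (c (m (nat_lit 0xc813798)) e)) (c (c (m (nat_lit
  0xa04af78)) e) e))) (c (c (c (m (nat_lit 0x17d875a0)) (c (m (nat_lit 0x1464c00)) e)) (c (c (p (nat_lit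
  0x4b02a0)) e) e)) (c (c (c (p (nat_lit 0xea668a0)) e) e) e))) (c (c (c (c (p (nat_lit 0x1947150)) (c (m
  (nat_lit 0x89e5750)) (c (p (nat_lit 0xb784150)) e))) (c (c (m (nat_lit 0x1b92658)) (c (p (nat_lit
  0x3472c08)) e)) (c (c (p (nat_lit 0x1857510)) e) e))) (c (c (c (m (nat_lit 0xb13318)) (c (m (nat_lit
  0xdfa550)) e)) (c (c (m (nat_lit 0x188c58)) e) e)) (c (c (c (m (nat_lit 0x91beb8)) e) e) e))) e))) (c (c (c
  (c (c (m (nat_lit 0x1b40b4b0)) (c (p (nat_lit 0x128d7290)) (c (m (nat_lit 0x1b92658)) e))) (c (c (p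
  (nat_lit 0x54a33950)) (c (m (nat_lit 0x9de6438)) e)) (c (c (m (nat_lit 0x22b57bd0)) e) e))) (c (c (c (m
  (nat_lit 0xab71ec8)) (c (p (nat_lit 0xa866d68)) e)) (c (c (m (nat_lit 0xbe45e78)) e) e)) (c (c (c (p
  (nat_lit 0x54ff3a8)) e) e) e))) (c (c (c (c (p (nat_lit 0x4221ab0)) (c (m (nat_lit 0xc813798)) (c (p
  (nat_lit 0x3472c08)) e))) (c (c (m (nat_lit 0x9de6438)) (c (p (nat_lit 0xc846648)) e)) (c (c (p (nat_lit
  0x2899e18)) e) e))) (c (c (c (p (nat_lit 0x63677e8)) (c (m (nat_lit 0x134fa90)) e)) (c (c (p (nat_lit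
  0x1310d78)) e) e)) (c (c (c (m (nat_lit 0x3f6c7c8)) e) e) e))) e)) (c (c (c (c (c (p (nat_lit 0x8a29220))
  (c (m (nat_lit 0xa04af78)) (c (p (nat_lit 0x1857510)) e))) (c (c (m (nat_lit 0x22b57bd0)) (c (p (nat_lit
  0x2899e18)) e)) (c (c (p (nat_lit 0x1a5a3c70)) e) e))) (c (c (c (p (nat_lit 0xe877a50)) (c (m (nat_lit
  0x30663a8)) e)) (c (c (p (nat_lit 0x2850708)) e) e)) (c (c (c (m (nat_lit 0x84c1ff8)) e) e) e))) e) e))) (c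
  (c (c (c (c (c (m (nat_lit 0x3ef52f0)) (c (m (nat_lit 0x17d875a0)) (c (m (nat_lit 0xb13318)) e))) (c (c (m
  (nat_lit 0xab71ec8)) (c (p (nat_lit 0x63677e8)) e)) (c (c (p (nat_lit 0xe877a50)) e) e))) (c (c (c (p
  (nat_lit 0x3fe58138)) (c (m (nat_lit 0x2b4e758)) e)) (c (c (m (nat_lit 0x944dea0)) e) e)) (c (c (c (m
  (nat_lit 0x25836900)) e) e) e))) (c (c (c (c (m (nat_lit 0x4174e00)) (c (m (nat_lit 0x1464c00)) (c (m
  (nat_lit 0xdfa550)) e))) (c (c (p (nat_lit 0xa866d68)) (c (m (nat_lit 0x134fa90)) e)) (c (c (m (nat_lit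
  0x30663a8)) e) e))) (c (c (c (m (nat_lit 0x2b4e758)) (c (p (nat_lit 0xcb84be0)) e)) (c (c (m (nat_lit
  0x1235808)) e) e)) (c (c (c (p (nat_lit 0x33c7de8)) e) e) e))) e)) (c (c (c (c (c (p (nat_lit 0x53a7b60))
  (c (p (nat_lit 0x4b02a0)) (c (m (nat_lit 0x188c58)) e))) (c (c (m (nat_lit 0xbe45e78)) (c (p (nat_lit
  0x1310d78)) e)) (c (c (p (nat_lit 0x2850708)) e) e))) (c (c (c (m (nat_lit 0x944dea0)) (c (m (nat_lit
  0x1235808)) e)) (c (c (p (nat_lit 0xb743968)) e) e)) (c (c (c (p (nat_lit 0x746bc50)) e) e) e))) e) e)) (c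
  (c (c (c (c (c (p (nat_lit 0x1ac3220)) (c (p (nat_lit 0xea668a0)) (c (m (nat_lit 0x91beb8)) e))) (c (c (p
  (nat_lit 0x54ff3a8)) (c (m (nat_lit 0x3f6c7c8)) e)) (c (c (m (nat_lit 0x84c1ff8)) e) e))) (c (c (c (m
  (nat_lit 0x25836900)) (c (p (nat_lit 0x33c7de8)) e)) (c (c (p (nat_lit 0x746bc50)) e) e)) (c (c (c (p
  (nat_lit 0x1c416ee8)) e) e) e))) e) e) e))) (c (c (c (c (c (c (c (m (nat_lit 0x14132f7c)) (c (p (nat_lit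
  0x2761e0c)) (c (m (nat_lit 0x2f574c0)) e))) (c (c (p (nat_lit 0x3bccf4d2)) (c (m (nat_lit 0x40df298)) e))
  (c (c (m (nat_lit 0x10f43b08)) e) e))) (c (c (c (m (nat_lit 0x9d06a7c)) (c (p (nat_lit 0x776ae40)) e)) (c
  (c (m (nat_lit 0x5e02000)) e) e)) (c (c (c (p (nat_lit 0x1e1fc08)) e) e) e))) (c (c (c (c (p (nat_lit
  0x2761e0c)) (c (m (nat_lit 0x7738170)) (c (m (nat_lit 0x1d9aca8)) e))) (c (c (m (nat_lit 0xd6cd142)) (c (p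
  (nat_lit 0x32ad380)) e)) (c (c (p (nat_lit 0x4427ca0)) e) e))) (c (c (c (p (nat_lit 0xb76de18)) (c (m
  (nat_lit 0x251b2a8)) e)) (c (c (p (nat_lit 0x197e3e0)) e) e)) (c (c (c (m (nat_lit 0x29348e8)) e) e) e)))
  (c (c (c (c (m (nat_lit 0x2f574c0)) (c (m (nat_lit 0x1d9aca8)) e)) (c (c (p (nat_lit 0x2b0290)) e) e)) (c
  (c (c (m (nat_lit 0x2f6670)) e) e) e)) e))) (c (c (c (c (c (p (nat_lit 0x3bccf4d2)) (c (m (nat_lit
  0xd6cd142)) (c (p (nat_lit 0x2b0290)) e))) (c (c (m (nat_lit 0x3354a164)) (c (p (nat_lit 0x29bb180)) e)) (c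
  (c (p (nat_lit 0x4e90ee8)) e) e))) (c (c (c (m (nat_lit 0x259e2ac)) (c (m (nat_lit 0x4319e80)) e)) (c (c (p
  (nat_lit 0x43882e0)) e) e)) (c (c (c (p (nat_lit 0x3044cd0)) e) e) e))) (c (c (c (c (m (nat_lit 0x40df298))
  (c (p (nat_lit 0x32ad380)) e)) (c (c (p (nat_lit 0x29bb180)) e) e)) (c (c (c (m (nat_lit 0xf47e38)) e) e)
  e)) e)) (c (c (c (c (c (m (nat_lit 0x10f43b08)) (c (p (nat_lit 0x4427ca0)) e)) (c (c (p (nat_lit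
  0x4e90ee8)) e) e)) (c (c (c (m (nat_lit 0x1331d0)) e) e) e)) e) e))) (c (c (c (c (c (c (m (nat_lit
  0x9d06a7c)) (c (p (nat_lit 0xb76de18)) (c (m (nat_lit 0x2f6670)) e))) (c (c (m (nat_lit 0x259e2ac)) (c (m
  (nat_lit 0xf47e38)) e)) (c (c (m (nat_lit 0x1331d0)) e) e))) (c (c (c (p (nat_lit 0x220c8438)) (c (m
  (nat_lit 0x4b7f290)) e)) (c (c (m (nat_lit 0x2da74d8)) e) e)) (c (c (c (m (nat_lit 0x60dfb00)) e) e) e)))
  (c (c (c (c (p (nat_lit 0x776ae40)) (c (m (nat_lit 0x251b2a8)) e)) (c (c (m (nat_lit 0x4319e80)) e) e)) (c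
  (c (c (m (nat_lit 0x4b7f290)) e) e) e)) e)) (c (c (c (c (c (m (nat_lit 0x5e02000)) (c (p (nat_lit
  0x197e3e0)) e)) (c (c (p (nat_lit 0x43882e0)) e) e)) (c (c (c (m (nat_lit 0x2da74d8)) e) e) e)) e) e)) (c
  (c (c (c (c (c (p (nat_lit 0x1e1fc08)) (c (m (nat_lit 0x29348e8)) e)) (c (c (p (nat_lit 0x3044cd0)) e) e))
  (c (c (c (m (nat_lit 0x60dfb00)) e) e) e)) e) e) e))) (c (c (c (c (c (c (c (p (nat_lit 0x44f2e708)) (c (m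
  (nat_lit 0xe69f028)) (c (p (nat_lit 0x4855bd8)) e))) (c (c (m (nat_lit 0x2b0ec540)) (c (p (nat_lit
  0x35583c0)) e)) (c (c (p (nat_lit 0x55ad8a0)) e) e))) (c (c (c (p (nat_lit 0x6eaf432)) (c (m (nat_lit
  0x107c070)) e)) (c (c (m (nat_lit 0x46d730)) e) e)) (c (c (c (m (nat_lit 0x2547c60)) e) e) e))) (c (c (c (c
  (m (nat_lit 0xe69f028)) (c (p (nat_lit 0xa0a5170)) e)) (c (c (p (nat_lit 0x5a4f1e2)) e) e)) (c (c (c (m
  (nat_lit 0x3508830)) e) e) e)) (c (c (c (c (p (nat_lit 0x4855bd8)) e) e) e) e))) (c (c (c (c (c (m (nat_lit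
  0x2b0ec540)) (c (p (nat_lit 0x5a4f1e2)) e)) (c (c (p (nat_lit 0x14a97fd4)) e) e)) (c (c (c (p (nat_lit
  0x293fd84)) e) e) e)) (c (c (c (c (p (nat_lit 0x35583c0)) e) e) e) e)) (c (c (c (c (c (p (nat_lit
  0x55ad8a0)) e) e) e) e) e))) (c (c (c (c (c (c (p (nat_lit 0x6eaf432)) (c (m (nat_lit 0x3508830)) e)) (c (c
  (p (nat_lit 0x293fd84)) e) e)) (c (c (c (m (nat_lit 0xb0279e8)) e) e) e)) (c (c (c (c (m (nat_lit
  0x107c070)) e) e) e) e)) (c (c (c (c (c (m (nat_lit 0x46d730)) e) e) e) e) e)) (c (c (c (c (c (c (m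
  (nat_lit 0x2547c60)) e) e) e) e) e) e))) (c (c (c (c (c (c (c (m (nat_lit 0x15cd1b74)) (c (p (nat_lit
  0x19f2dd4)) e)) (c (c (p (nat_lit 0x494233e)) e) e)) (c (c (c (m (nat_lit 0x39a6866)) e) e) e)) (c (c (c (c
  (p (nat_lit 0x19f2dd4)) e) e) e) e)) (c (c (c (c (c (p (nat_lit 0x494233e)) e) e) e) e) e)) (c (c (c (c (c
  (c (m (nat_lit 0x39a6866)) e) e) e) e) e) e)) (c (c (c (c (c (c (c (m (nat_lit 0x7ed4d0)) e) e) e) e) e) e)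
  e))))) (c (c (c (c (c (c (c (c (p (nat_lit 0x1eb5d700)) (c (m (nat_lit 0x6a70fbe)) (c (m (nat_lit
  0x2edd5a0)) e))) (c (c (m (nat_lit 0xa8d69c2)) (c (p (nat_lit 0xe8d4a8)) e)) (c (c (m (nat_lit 0x3468eb8))
  e) e))) (c (c (c (p (nat_lit 0x1637be30)) (c (p (nat_lit 0x1411848)) e)) (c (c (p (nat_lit 0x1531f98)) e)
  e)) (c (c (c (m (nat_lit 0x73b1788)) e) e) e))) (c (c (c (c (m (nat_lit 0x6a70fbe)) (c (p (nat_lit
  0x16aadf2)) (c (m (nat_lit 0x1e42030)) e))) (c (c (p (nat_lit 0x55e05ca)) (c (m (nat_lit 0x3095a0)) e)) (c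
  (c (p (nat_lit 0x1b8d660)) e) e))) (c (c (c (p (nat_lit 0xa6b12e4)) (c (p (nat_lit 0x58e0c0)) e)) (c (c (m
  (nat_lit 0x174f318)) e) e)) (c (c (c (m (nat_lit 0x69a5f18)) e) e) e))) (c (c (c (c (m (nat_lit 0x2edd5a0))
  (c (m (nat_lit 0x1e42030)) e)) (c (c (p (nat_lit 0x6e4420)) e) e)) (c (c (c (p (nat_lit 0x1929750)) e) e)
  e)) e))) (c (c (c (c (c (m (nat_lit 0xa8d69c2)) (c (p (nat_lit 0x55e05ca)) (c (p (nat_lit 0x6e4420)) e)))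
  (c (c (p (nat_lit 0x2c0f4156)) (c (m (nat_lit 0x260f778)) e)) (c (c (p (nat_lit 0x27300c0)) e) e))) (c (c
  (c (p (nat_lit 0x3266f4c)) (c (m (nat_lit 0x133c380)) e)) (c (c (m (nat_lit 0x3287a30)) e) e)) (c (c (c (m
  (nat_lit 0x7eaed8)) e) e) e))) (c (c (c (c (p (nat_lit 0xe8d4a8)) (c (m (nat_lit 0x3095a0)) e)) (c (c (m
  (nat_lit 0x260f778)) e) e)) (c (c (c (m (nat_lit 0x293bb48)) e) e) e)) e)) (c (c (c (c (c (m (nat_lit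
  0x3468eb8)) (c (p (nat_lit 0x1b8d660)) e)) (c (c (p (nat_lit 0x27300c0)) e) e)) (c (c (c (m (nat_lit
  0x461940)) e) e) e)) e) e))) (c (c (c (c (c (c (p (nat_lit 0x1637be30)) (c (p (nat_lit 0xa6b12e4)) (c (p
  (nat_lit 0x1929750)) e))) (c (c (p (nat_lit 0x3266f4c)) (c (m (nat_lit 0x293bb48)) e)) (c (c (m (nat_lit
  0x461940)) e) e))) (c (c (c (m (nat_lit 0x56247de)) (c (p (nat_lit 0x414a3b0)) e)) (c (c (m (nat_lit
  0x1dc9b20)) e) e)) (c (c (c (p (nat_lit 0x1aa9ed0)) e) e) e))) (c (c (c (c (p (nat_lit 0x1411848)) (c (p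
  (nat_lit 0x58e0c0)) e)) (c (c (m (nat_lit 0x133c380)) e) e)) (c (c (c (p (nat_lit 0x414a3b0)) e) e) e)) e))
  (c (c (c (c (c (p (nat_lit 0x1531f98)) (c (m (nat_lit 0x174f318)) e)) (c (c (m (nat_lit 0x3287a30)) e) e))
  (c (c (c (m (nat_lit 0x1dc9b20)) e) e) e)) e) e)) (c (c (c (c (c (c (m (nat_lit 0x73b1788)) (c (m (nat_lit
  0x69a5f18)) e)) (c (c (m (nat_lit 0x7eaed8)) e) e)) (c (c (c (p (nat_lit 0x1aa9ed0)) e) e) e)) e) e) e)))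
  (c (c (c (c (c (c (c (p (nat_lit 0xbeb1fb6)) (c (p (nat_lit 0xb833fda)) (c (m (nat_lit 0x151cd58)) e))) (c
  (c (m (nat_lit 0x6df7766)) (c (m (nat_lit 0x16b6918)) e)) (c (c (p (nat_lit 0x165cd8)) e) e))) (c (c (c (m
  (nat_lit 0x8d36f84)) (c (m (nat_lit 0x1a33508)) e)) (c (c (p (nat_lit 0x20b5b28)) e) e)) (c (c (c (p
  (nat_lit 0xe9efe0)) e) e) e))) (c (c (c (c (p (nat_lit 0xb833fda)) (c (m (nat_lit 0x18e85a8)) e)) (c (c (m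
  (nat_lit 0x5c193c)) e) e)) (c (c (c (m (nat_lit 0x2c6958c)) e) e) e)) (c (c (c (c (m (nat_lit 0x151cd58))
  e) e) e) e))) (c (c (c (c (c (m (nat_lit 0x6df7766)) (c (m (nat_lit 0x5c193c)) e)) (c (c (p (nat_lit
  0x41c8e0)) e) e)) (c (c (c (p (nat_lit 0xaabfbc)) e) e) e)) (c (c (c (c (m (nat_lit 0x16b6918)) e) e) e)
  e)) (c (c (c (c (c (p (nat_lit 0x165cd8)) e) e) e) e) e))) (c (c (c (c (c (c (m (nat_lit 0x8d36f84)) (c (m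
  (nat_lit 0x2c6958c)) e)) (c (c (p (nat_lit 0xaabfbc)) e) e)) (c (c (c (m (nat_lit 0x1fa0e50)) e) e) e)) (c
  (c (c (c (m (nat_lit 0x1a33508)) e) e) e) e)) (c (c (c (c (c (p (nat_lit 0x20b5b28)) e) e) e) e) e)) (c (c
  (c (c (c (c (p (nat_lit 0xe9efe0)) e) e) e) e) e) e))) (c (c (c (c (c (c (c (m (nat_lit 0xfc1fd82)) (c (m
  (nat_lit 0x3829284)) e)) (c (c (p (nat_lit 0x76d25c)) e) e)) (c (c (c (p (nat_lit 0x30a0f80)) e) e) e)) (c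
  (c (c (c (m (nat_lit 0x3829284)) e) e) e) e)) (c (c (c (c (c (p (nat_lit 0x76d25c)) e) e) e) e) e)) (c (c
  (c (c (c (c (p (nat_lit 0x30a0f80)) e) e) e) e) e) e)) (c (c (c (c (c (c (c (p (nat_lit 0x155837a)) e) e)
  e) e) e) e) e)))) (c (c (c (c (c (c (c (c (m (nat_lit 0x40d6f81a)) (c (p (nat_lit 0x100d58c)) (c (p
  (nat_lit 0x2ce5108)) e))) (c (c (m (nat_lit 0x1b1ca97c)) (c (p (nat_lit 0x1ad8040)) e)) (c (c (p (nat_lit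
  0x4044d98)) e) e))) (c (c (c (m (nat_lit 0x1e1a7702)) (c (m (nat_lit 0x3923e20)) e)) (c (c (m (nat_lit
  0x37b6c0)) e) e)) (c (c (c (p (nat_lit 0x2a69ed0)) e) e) e))) (c (c (c (c (p (nat_lit 0x100d58c)) (c (p
  (nat_lit 0x507df0e)) e)) (c (c (m (nat_lit 0x2ee5a36)) e) e)) (c (c (c (p (nat_lit 0x5fbec30)) e) e) e)) (c
  (c (c (c (p (nat_lit 0x2ce5108)) e) e) e) e))) (c (c (c (c (c (m (nat_lit 0x1b1ca97c)) (c (m (nat_lit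
  0x2ee5a36)) e)) (c (c (m (nat_lit 0x1cf33ad6)) e) e)) (c (c (c (p (nat_lit 0x13c98f0)) e) e) e)) (c (c (c
  (c (p (nat_lit 0x1ad8040)) e) e) e) e)) (c (c (c (c (c (p (nat_lit 0x4044d98)) e) e) e) e) e))) (c (c (c (c
  (c (c (m (nat_lit 0x1e1a7702)) (c (p (nat_lit 0x5fbec30)) e)) (c (c (p (nat_lit 0x13c98f0)) e) e)) (c (c (c
  (p (nat_lit 0xae961e6)) e) e) e)) (c (c (c (c (m (nat_lit 0x3923e20)) e) e) e) e)) (c (c (c (c (c (m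
  (nat_lit 0x37b6c0)) e) e) e) e) e)) (c (c (c (c (c (c (p (nat_lit 0x2a69ed0)) e) e) e) e) e) e))) (c (c (c
  (c (c (c (c (p (nat_lit 0x197b7be)) (c (p (nat_lit 0x3c56fa)) e)) (c (c (m (nat_lit 0xa9258e)) e) e)) (c (c
  (c (p (nat_lit 0x2d1da8a)) e) e) e)) (c (c (c (c (p (nat_lit 0x3c56fa)) e) e) e) e)) (c (c (c (c (c (m
  (nat_lit 0xa9258e)) e) e) e) e) e)) (c (c (c (c (c (c (p (nat_lit 0x2d1da8a)) e) e) e) e) e) e)) (c (c (c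
  (c (c (c (c (p (nat_lit 0x45817ce)) e) e) e) e) e) e) e))) (c (c (c (c (c (c (c (c (p (nat_lit 0x66e24694))
  (c (m (nat_lit 0x5edd91e)) e)) (c (c (p (nat_lit 0x1b61acee)) e) e)) (c (c (c (p (nat_lit 0x22de14c)) e) e)
  e)) (c (c (c (c (m (nat_lit 0x5edd91e)) e) e) e) e)) (c (c (c (c (c (p (nat_lit 0x1b61acee)) e) e) e) e)
  e)) (c (c (c (c (c (c (p (nat_lit 0x22de14c)) e) e) e) e) e) e)) (c (c (c (c (c (c (c (m (nat_lit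
  0xea24ed6)) e) e) e) e) e) e) e)) (c (c (c (c (c (c (c (c (m (nat_lit 0x2d307356)) e) e) e) e) e) e) e)
  e))))) (c (c (c (c (c (c (c (c (c (m (nat_lit 0x44efaa0)) (c (p (nat_lit 0xcceecf8)) (c (m (nat_lit
  0xab7c350)) e))) (c (c (p (nat_lit 0xb72fd78)) (c (m (nat_lit 0x4a91c18)) e)) (c (c (m (nat_lit 0x6935ce8))
  e) e))) (c (c (c (m (nat_lit 0x6612300)) (c (m (nat_lit 0x2661a98)) e)) (c (c (m (nat_lit 0x73c890)) e) e))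
  (c (c (c (p (nat_lit 0x1170000)) e) e) e))) (c (c (c (c (p (nat_lit 0xcceecf8)) (c (p (nat_lit 0x4712be0))
  (c (m (nat_lit 0x419220)) e))) (c (c (m (nat_lit 0x4260750)) (c (m (nat_lit 0x124c800)) e)) (c (c (m
  (nat_lit 0x452f10)) e) e))) (c (c (c (m (nat_lit 0x1a560f8)) (c (m (nat_lit 0x2d08f58)) e)) (c (c (m
  (nat_lit 0x95880)) e) e)) (c (c (c (p (nat_lit 0xbe1fe8)) e) e) e))) (c (c (c (c (m (nat_lit 0xab7c350)) (c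
  (m (nat_lit 0x419220)) e)) (c (c (p (nat_lit 0xe99478)) e) e)) (c (c (c (p (nat_lit 0x2653f38)) e) e) e))
  e))) (c (c (c (c (c (p (nat_lit 0xb72fd78)) (c (m (nat_lit 0x4260750)) (c (p (nat_lit 0xe99478)) e))) (c (c
  (m (nat_lit 0xf352290)) (c (m (nat_lit 0x1481508)) e)) (c (c (p (nat_lit 0x13deaa0)) e) e))) (c (c (c (p
  (nat_lit 0x6936c0)) (c (p (nat_lit 0xbbcd58)) e)) (c (c (p (nat_lit 0x9be068)) e) e)) (c (c (c (p (nat_lit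
  0x1da5568)) e) e) e))) (c (c (c (c (m (nat_lit 0x4a91c18)) (c (m (nat_lit 0x124c800)) e)) (c (c (m (nat_lit
  0x1481508)) e) e)) (c (c (c (p (nat_lit 0x193ac88)) e) e) e)) e)) (c (c (c (c (c (m (nat_lit 0x6935ce8)) (c
  (m (nat_lit 0x452f10)) e)) (c (c (p (nat_lit 0x13deaa0)) e) e)) (c (c (c (m (nat_lit 0x10ae470)) e) e) e))
  e) e))) (c (c (c (c (c (c (m (nat_lit 0x6612300)) (c (m (nat_lit 0x1a560f8)) (c (p (nat_lit 0x2653f38))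
  e))) (c (c (p (nat_lit 0x6936c0)) (c (p (nat_lit 0x193ac88)) e)) (c (c (m (nat_lit 0x10ae470)) e) e))) (c
  (c (c (m (nat_lit 0x74a8490)) (c (p (nat_lit 0x16301a0)) e)) (c (c (p (nat_lit 0x37dbb0)) e) e)) (c (c (c
  (p (nat_lit 0x1c5dd28)) e) e) e))) (c (c (c (c (m (nat_lit 0x2661a98)) (c (m (nat_lit 0x2d08f58)) e)) (c (c
  (p (nat_lit 0xbbcd58)) e) e)) (c (c (c (p (nat_lit 0x16301a0)) e) e) e)) e)) (c (c (c (c (c (m (nat_lit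
  0x73c890)) (c (m (nat_lit 0x95880)) e)) (c (c (p (nat_lit 0x9be068)) e) e)) (c (c (c (p (nat_lit 0x37dbb0))
  e) e) e)) e) e)) (c (c (c (c (c (c (p (nat_lit 0x1170000)) (c (p (nat_lit 0xbe1fe8)) e)) (c (c (p (nat_lit
  0x1da5568)) e) e)) (c (c (c (p (nat_lit 0x1c5dd28)) e) e) e)) e) e) e))) (c (c (c (c (c (c (c (p (nat_lit
  0x184c42b0)) (c (p (nat_lit 0x1ad73da)) (c (p (nat_lit 0x66c540)) e))) (c (c (m (nat_lit 0x92ac600)) (c (m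
  (nat_lit 0x1a2d730)) e)) (c (c (p (nat_lit 0x4524870)) e) e))) (c (c (c (p (nat_lit 0x5cfee7e)) (c (p
  (nat_lit 0x5f97f0)) e)) (c (c (p (nat_lit 0x145248)) e) e)) (c (c (c (m (nat_lit 0x2502c60)) e) e) e))) (c
  (c (c (c (p (nat_lit 0x1ad73da)) (c (p (nat_lit 0x39e700)) e)) (c (c (m (nat_lit 0x1747770)) e) e)) (c (c
  (c (m (nat_lit 0x16fdb80)) e) e) e)) (c (c (c (c (p (nat_lit 0x66c540)) e) e) e) e))) (c (c (c (c (c (m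
  (nat_lit 0x92ac600)) (c (m (nat_lit 0x1747770)) e)) (c (c (p (nat_lit 0x4261ec0)) e) e)) (c (c (c (m
  (nat_lit 0x2f4cb10)) e) e) e)) (c (c (c (c (m (nat_lit 0x1a2d730)) e) e) e) e)) (c (c (c (c (c (p (nat_lit
  0x4524870)) e) e) e) e) e))) (c (c (c (c (c (c (p (nat_lit 0x5cfee7e)) (c (m (nat_lit 0x16fdb80)) e)) (c (c
  (m (nat_lit 0x2f4cb10)) e) e)) (c (c (c (m (nat_lit 0x1616520)) e) e) e)) (c (c (c (c (p (nat_lit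
  0x5f97f0)) e) e) e) e)) (c (c (c (c (c (p (nat_lit 0x145248)) e) e) e) e) e)) (c (c (c (c (c (c (m (nat_lit
  0x2502c60)) e) e) e) e) e) e))) (c (c (c (c (c (c (c (m (nat_lit 0x1c81d478)) (c (p (nat_lit 0x3f42f6)) e))
  (c (c (p (nat_lit 0x1985ee0)) e) e)) (c (c (c (p (nat_lit 0x1d2b9d2)) e) e) e)) (c (c (c (c (p (nat_lit
  0x3f42f6)) e) e) e) e)) (c (c (c (c (c (p (nat_lit 0x1985ee0)) e) e) e) e) e)) (c (c (c (c (c (c (p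
  (nat_lit 0x1d2b9d2)) e) e) e) e) e) e)) (c (c (c (c (c (c (c (p (nat_lit 0x72ee338)) e) e) e) e) e) e)
  e)))) (c (c (c (c (c (c (c (c (p (nat_lit 0x296d42a8)) (c (p (nat_lit 0xc6056a)) (c (p (nat_lit 0x5b1e20))
  e))) (c (c (m (nat_lit 0xf31cbe4)) (c (p (nat_lit 0x1055478)) e)) (c (c (m (nat_lit 0x1845528)) e) e))) (c
  (c (c (p (nat_lit 0x158ff7c)) (c (m (nat_lit 0x11daa10)) e)) (c (c (p (nat_lit 0x17a66f0)) e) e)) (c (c (c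
  (m (nat_lit 0x1475448)) e) e) e))) (c (c (c (c (p (nat_lit 0xc6056a)) (c (m (nat_lit 0x3f148b0)) e)) (c (c
  (m (nat_lit 0x12265f8)) e) e)) (c (c (c (m (nat_lit 0x4de9020)) e) e) e)) (c (c (c (c (p (nat_lit
  0x5b1e20)) e) e) e) e))) (c (c (c (c (c (m (nat_lit 0xf31cbe4)) (c (m (nat_lit 0x12265f8)) e)) (c (c (p
  (nat_lit 0x57750)) e) e)) (c (c (c (p (nat_lit 0x546c90)) e) e) e)) (c (c (c (c (p (nat_lit 0x1055478)) e)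
  e) e) e)) (c (c (c (c (c (m (nat_lit 0x1845528)) e) e) e) e) e))) (c (c (c (c (c (c (p (nat_lit 0x158ff7c))
  (c (m (nat_lit 0x4de9020)) e)) (c (c (p (nat_lit 0x546c90)) e) e)) (c (c (c (p (nat_lit 0x1b61e0)) e) e)
  e)) (c (c (c (c (m (nat_lit 0x11daa10)) e) e) e) e)) (c (c (c (c (c (p (nat_lit 0x17a66f0)) e) e) e) e) e))
  (c (c (c (c (c (c (m (nat_lit 0x1475448)) e) e) e) e) e) e))) (c (c (c (c (c (c (c (p (nat_lit 0x392dcd8))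
  (c (m (nat_lit 0x141e412)) e)) (c (c (p (nat_lit 0x4cd512e)) e) e)) (c (c (c (m (nat_lit 0x3cd002c)) e) e)
  e)) (c (c (c (c (m (nat_lit 0x141e412)) e) e) e) e)) (c (c (c (c (c (p (nat_lit 0x4cd512e)) e) e) e) e) e))
  (c (c (c (c (c (c (m (nat_lit 0x3cd002c)) e) e) e) e) e) e)) (c (c (c (c (c (c (c (m (nat_lit 0x1c6a1e4))
  e) e) e) e) e) e) e))) (c (c (c (c (c (c (c (c (m (nat_lit 0x2491d5f8)) (c (m (nat_lit 0xf8e548)) e)) (c (c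
  (p (nat_lit 0x4b186de)) e) e)) (c (c (c (m (nat_lit 0x1837788)) e) e) e)) (c (c (c (c (m (nat_lit
  0xf8e548)) e) e) e) e)) (c (c (c (c (c (p (nat_lit 0x4b186de)) e) e) e) e) e)) (c (c (c (c (c (c (m
  (nat_lit 0x1837788)) e) e) e) e) e) e)) (c (c (c (c (c (c (c (m (nat_lit 0x4a4f6fc)) e) e) e) e) e) e) e))
  (c (c (c (c (c (c (c (c (p (nat_lit 0x92a6138)) e) e) e) e) e) e) e) e)))) (c (c (c (c (c (c (c (c (c (p
  (nat_lit 0x21a65168)) (c (m (nat_lit 0x60d6a28)) (c (p (nat_lit 0x2f4d7b8)) e))) (c (c (m (nat_lit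
  0x75b4b10)) (c (p (nat_lit 0x241dce8)) e)) (c (c (p (nat_lit 0x46f4a18)) e) e))) (c (c (c (m (nat_lit
  0x1e78768)) (c (p (nat_lit 0x1a76a8)) e)) (c (c (m (nat_lit 0x67a4c0)) e) e)) (c (c (c (p (nat_lit
  0x1babe40)) e) e) e))) (c (c (c (c (m (nat_lit 0x60d6a28)) (c (p (nat_lit 0x8dc1ce0)) e)) (c (c (p (nat_lit
  0x1130cd0)) e) e)) (c (c (c (m (nat_lit 0x1cced08)) e) e) e)) (c (c (c (c (p (nat_lit 0x2f4d7b8)) e) e) e)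
  e))) (c (c (c (c (c (m (nat_lit 0x75b4b10)) (c (p (nat_lit 0x1130cd0)) e)) (c (c (p (nat_lit 0xa0beda8)) e)
  e)) (c (c (c (m (nat_lit 0x201b40)) e) e) e)) (c (c (c (c (p (nat_lit 0x241dce8)) e) e) e) e)) (c (c (c (c
  (c (p (nat_lit 0x46f4a18)) e) e) e) e) e))) (c (c (c (c (c (c (m (nat_lit 0x1e78768)) (c (m (nat_lit
  0x1cced08)) e)) (c (c (m (nat_lit 0x201b40)) e) e)) (c (c (c (p (nat_lit 0x5efe7e0)) e) e) e)) (c (c (c (c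
  (p (nat_lit 0x1a76a8)) e) e) e) e)) (c (c (c (c (c (m (nat_lit 0x67a4c0)) e) e) e) e) e)) (c (c (c (c (c (c
  (p (nat_lit 0x1babe40)) e) e) e) e) e) e))) (c (c (c (c (c (c (c (m (nat_lit 0x1072a004)) (c (p (nat_lit
  0x1a06a48)) e)) (c (c (m (nat_lit 0x5b0248)) e) e)) (c (c (c (m (nat_lit 0x8386f8)) e) e) e)) (c (c (c (c
  (p (nat_lit 0x1a06a48)) e) e) e) e)) (c (c (c (c (c (m (nat_lit 0x5b0248)) e) e) e) e) e)) (c (c (c (c (c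
  (c (m (nat_lit 0x8386f8)) e) e) e) e) e) e)) (c (c (c (c (c (c (c (p (nat_lit 0x92800bc)) e) e) e) e) e) e)
  e))) (c (c (c (c (c (c (c (c (p (nat_lit 0x2e75c4a)) (c (m (nat_lit 0x1712ad8)) e)) (c (c (m (nat_lit
  0x1596498)) e) e)) (c (c (c (m (nat_lit 0x26bd400)) e) e) e)) (c (c (c (c (m (nat_lit 0x1712ad8)) e) e) e)
  e)) (c (c (c (c (c (m (nat_lit 0x1596498)) e) e) e) e) e)) (c (c (c (c (c (c (m (nat_lit 0x26bd400)) e) e)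
  e) e) e) e)) (c (c (c (c (c (c (c (p (nat_lit 0xc539e2)) e) e) e) e) e) e) e)) (c (c (c (c (c (c (c (c (p
  (nat_lit 0x2624de4)) e) e) e) e) e) e) e) e))) (c (c (c (c (c (c (c (c (c (m (nat_lit 0x10a88030)) (c (p
  (nat_lit 0x1d48898)) e)) (c (c (p (nat_lit 0x606768)) e) e)) (c (c (c (p (nat_lit 0xe32fb0)) e) e) e)) (c
  (c (c (c (p (nat_lit 0x1d48898)) e) e) e) e)) (c (c (c (c (c (p (nat_lit 0x606768)) e) e) e) e) e)) (c (c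
  (c (c (c (c (p (nat_lit 0xe32fb0)) e) e) e) e) e) e)) (c (c (c (c (c (c (c (p (nat_lit 0x2fe62c0)) e) e) e)
  e) e) e) e)) (c (c (c (c (c (c (c (c (m (nat_lit 0x345a140)) e) e) e) e) e) e) e) e)) (c (c (c (c (c (c (c
  (c (c (p (nat_lit 0x6f91020)) e) e) e) e) e) e) e) e) e)))))

noncomputable def gt_1_5_6 : Tr :=
  (c (c (c (c (c (c (c (c (c (m (nat_lit 0x2608e18)) (c (p (nat_lit 0xc3076e0)) (c (m (nat_lit 0x6dea068))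
  e))) (c (c (m (nat_lit 0x562daf0)) (c (p (nat_lit 0x30f02b8)) e)) (c (c (p (nat_lit 0x318c3f0)) e) e))) (c
  (c (c (m (nat_lit 0x4ab3b00)) (c (m (nat_lit 0x1e5dbd0)) e)) (c (c (p (nat_lit 0x35a5940)) e) e)) (c (c (c
  (p (nat_lit 0xe9ecc8)) e) e) e))) (c (c (c (c (m (nat_lit 0x562da30)) (c (p (nat_lit 0x12084510)) (c (m
  (nat_lit 0x8b5a290)) e))) (c (c (p (nat_lit 0x1613a498)) (c (m (nat_lit 0x8978dc0)) e)) (c (c (m (nat_lit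
  0x42d5030)) e) e))) (c (c (c (m (nat_lit 0xd5b7078)) (c (m (nat_lit 0x18e8a40)) e)) (c (c (m (nat_lit
  0x392bd88)) e) e)) (c (c (c (p (nat_lit 0x790d5f8)) e) e) e))) (c (c (c (c (p (nat_lit 0x318c258)) (c (m
  (nat_lit 0x856a8e0)) (c (p (nat_lit 0x4185810)) e))) (c (c (m (nat_lit 0x42d5108)) (c (p (nat_lit
  0x1b6a338)) e)) (c (c (m (nat_lit 0x11ce0f8)) e) e))) (c (c (c (p (nat_lit 0x1d48a00)) (c (p (nat_lit
  0x16f6c38)) e)) (c (c (m (nat_lit 0xb00bf8)) e) e)) (c (c (c (m (nat_lit 0x354d278)) e) e) e))) e))) (c (c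
  (c (c (c (p (nat_lit 0xc307368)) (c (m (nat_lit 0x2de036e8)) (c (p (nat_lit 0x1598b0e0)) e))) (c (c (p
  (nat_lit 0x12084798)) (c (m (nat_lit 0x95aca08)) e)) (c (c (m (nat_lit 0x856ab98)) e) e))) (c (c (c (p
  (nat_lit 0x2bbd710)) (c (p (nat_lit 0x62e7cb8)) e)) (c (c (m (nat_lit 0xcc8f670)) e) e)) (c (c (c (m
  (nat_lit 0x14c8788)) e) e) e))) (c (c (c (c (p (nat_lit 0x30f00f0)) (c (m (nat_lit 0x95ac678)) (c (p
  (nat_lit 0x44b3068)) e))) (c (c (m (nat_lit 0x8978ca0)) (c (p (nat_lit 0x2a54c18)) e)) (c (c (p (nat_lit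
  0x1b6a290)) e) e))) (c (c (c (p (nat_lit 0x14d4e60)) (c (p (nat_lit 0x207e7a8)) e)) (c (c (p (nat_lit
  0x40f41f0)) e) e)) (c (c (c (m (nat_lit 0x1686ee8)) e) e) e))) e)) (c (c (c (c (c (m (nat_lit 0x6de9e70))
  (c (p (nat_lit 0x1598adb0)) (c (m (nat_lit 0x2b26750)) e))) (c (c (m (nat_lit 0x8b5a398)) (c (p (nat_lit
  0x44b31a0)) e)) (c (c (p (nat_lit 0x41858d0)) e) e))) (c (c (c (p (nat_lit 0x37be190)) (c (m (nat_lit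
  0x29ab298)) e)) (c (c (p (nat_lit 0x4cdf100)) e) e)) (c (c (c (m (nat_lit 0x1129e78)) e) e) e))) e) e))) (c
  (c (c (c (c (c (m (nat_lit 0x4ab3a10)) (c (p (nat_lit 0x2bbceb8)) (c (p (nat_lit 0x37be3d0)) e))) (c (c (m
  (nat_lit 0xd5b6e20)) (c (p (nat_lit 0x14d4e18)) e)) (c (c (p (nat_lit 0x1d487f0)) e) e))) (c (c (c (p
  (nat_lit 0x15d220a0)) (c (m (nat_lit 0x2164b18)) e)) (c (c (p (nat_lit 0x88426e0)) e) e)) (c (c (c (m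
  (nat_lit 0x618b688)) e) e) e))) (c (c (c (c (p (nat_lit 0x35a59e8)) (c (m (nat_lit 0xcc8fac0)) (c (p
  (nat_lit 0x4cdf3a0)) e))) (c (c (m (nat_lit 0x392bd58)) (c (p (nat_lit 0x40f4148)) e)) (c (c (m (nat_lit
  0xb00d48)) e) e))) (c (c (c (p (nat_lit 0x8842aa0)) (c (p (nat_lit 0x2795898)) e)) (c (c (m (nat_lit
  0x1c4c658)) e) e)) (c (c (c (m (nat_lit 0x2a6be50)) e) e) e))) e)) (c (c (c (c (c (m (nat_lit 0x1e5da68))
  (c (p (nat_lit 0x62e7ad8)) (c (m (nat_lit 0x29ab268)) e))) (c (c (m (nat_lit 0x18e8ab8)) (c (p (nat_lit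
  0x207e7d8)) e)) (c (c (p (nat_lit 0x16f6c38)) e) e))) (c (c (c (m (nat_lit 0x2164bd8)) (c (m (nat_lit
  0xaa2068)) e)) (c (c (p (nat_lit 0x2795808)) e) e)) (c (c (c (p (nat_lit 0x1479960)) e) e) e))) e) e)) (c
  (c (c (c (c (c (p (nat_lit 0xe9ed58)) (c (m (nat_lit 0x14c89c8)) (c (m (nat_lit 0x1129c50)) e))) (c (c (p
  (nat_lit 0x790d460)) (c (m (nat_lit 0x1686f18)) e)) (c (c (m (nat_lit 0x354d1d0)) e) e))) (c (c (c (m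
  (nat_lit 0x618b5f8)) (c (p (nat_lit 0x1479a20)) e)) (c (c (m (nat_lit 0x2a6bd00)) e) e)) (c (c (c (p
  (nat_lit 0x25f4358)) e) e) e))) e) e) e))) (c (c (c (c (c (c (c (p (nat_lit 0x2af4edf2)) (c (m (nat_lit
  0x36da334c)) (c (p (nat_lit 0x1508ab88)) e))) (c (c (m (nat_lit 0x85b13bc)) (c (m (nat_lit 0x716298)) e))
  (c (c (m (nat_lit 0x4154a60)) e) e))) (c (c (c (m (nat_lit 0x10fc7736)) (c (p (nat_lit 0xc7bf0f0)) e)) (c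
  (c (m (nat_lit 0x98c2140)) e) e)) (c (c (c (p (nat_lit 0x6eaa728)) e) e) e))) (c (c (c (c (m (nat_lit
  0x85b18e4)) (c (p (nat_lit 0x9fda99a)) (c (m (nat_lit 0x3c6cac8)) e))) (c (c (m (nat_lit 0x38b3caa)) (c (m
  (nat_lit 0x14aa38)) e)) (c (c (p (nat_lit 0x1abbb70)) e) e))) (c (c (c (p (nat_lit 0x5e1013c)) (c (m
  (nat_lit 0x13ba08)) e)) (c (c (p (nat_lit 0x35d87f0)) e) e)) (c (c (c (m (nat_lit 0xc70770)) e) e) e))) (c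
  (c (c (c (m (nat_lit 0x41547f0)) (c (p (nat_lit 0x3b6418)) e)) (c (c (p (nat_lit 0x1abbba0)) e) e)) (c (c
  (c (p (nat_lit 0x2ba808)) e) e) e)) e))) (c (c (c (c (c (m (nat_lit 0x36da2dc4)) (c (p (nat_lit
  0x2ff036d6)) (c (m (nat_lit 0xbb36c80)) e))) (c (c (p (nat_lit 0x9fdab1a)) (c (p (nat_lit 0xc5c3b8)) e)) (c
  (c (p (nat_lit 0x3b6538)) e) e))) (c (c (c (p (nat_lit 0xb7c1692)) (c (m (nat_lit 0x6b7aa28)) e)) (c (c (p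
  (nat_lit 0x5ae27d0)) e) e)) (c (c (c (m (nat_lit 0x1b15ca8)) e) e) e))) (c (c (c (c (m (nat_lit 0x715e30))
  (c (p (nat_lit 0xc5c2c8)) e)) (c (c (m (nat_lit 0x14a9f0)) e) e)) (c (c (c (m (nat_lit 0xb952c0)) e) e) e))
  e)) (c (c (c (c (c (p (nat_lit 0x1508a6d8)) (c (m (nat_lit 0xbb36b18)) e)) (c (c (m (nat_lit 0x3c6cbb8)) e)
  e)) (c (c (c (m (nat_lit 0x4b209b8)) e) e) e)) e) e))) (c (c (c (c (c (c (m (nat_lit 0x10fc7844)) (c (p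
  (nat_lit 0xb7c1b30)) (c (m (nat_lit 0x4b20bc8)) e))) (c (c (p (nat_lit 0x5e1021a)) (c (m (nat_lit
  0xb95278)) e)) (c (c (p (nat_lit 0x2ba880)) e) e))) (c (c (c (p (nat_lit 0x1399078e)) (c (m (nat_lit
  0x2f4b730)) e)) (c (c (m (nat_lit 0x141d050)) e) e)) (c (c (c (m (nat_lit 0x2dffab0)) e) e) e))) (c (c (c
  (c (m (nat_lit 0x98c2800)) (c (p (nat_lit 0x5ae29e0)) e)) (c (c (p (nat_lit 0x35d89a0)) e) e)) (c (c (c (m
  (nat_lit 0x141d020)) e) e) e)) e)) (c (c (c (c (c (p (nat_lit 0xc7bf030)) (c (m (nat_lit 0x6b7a968)) e)) (c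
  (c (m (nat_lit 0x13baf8)) e) e)) (c (c (c (m (nat_lit 0x2f4b748)) e) e) e)) e) e)) (c (c (c (c (c (c (p
  (nat_lit 0x6eaa3b0)) (c (m (nat_lit 0x1b15be8)) e)) (c (c (m (nat_lit 0xc70788)) e) e)) (c (c (c (m
  (nat_lit 0x2dffba0)) e) e) e)) e) e) e))) (c (c (c (c (c (c (c (m (nat_lit 0x12034dee)) (c (p (nat_lit
  0x182c2446)) (c (m (nat_lit 0x5e806c0)) e))) (c (c (p (nat_lit 0x6623aea)) (c (p (nat_lit 0x2264fd0)) e))
  (c (c (p (nat_lit 0x189f2d0)) e) e))) (c (c (c (p (nat_lit 0x125fe5d2)) (c (m (nat_lit 0x21a6770)) e)) (c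
  (c (p (nat_lit 0x13ad420)) e) e)) (c (c (c (m (nat_lit 0x3d4bcb0)) e) e) e))) (c (c (c (c (p (nat_lit
  0x6623f88)) (c (m (nat_lit 0x468c80a)) e)) (c (c (m (nat_lit 0x234f9ae)) e) e)) (c (c (c (m (nat_lit
  0x324b154)) e) e) e)) (c (c (c (c (p (nat_lit 0x189f1e0)) e) e) e) e))) (c (c (c (c (c (p (nat_lit
  0x182c1c4e)) (c (m (nat_lit 0x9b1c126)) e)) (c (c (m (nat_lit 0x468c86a)) e) e)) (c (c (c (m (nat_lit
  0x194aefa)) e) e) e)) (c (c (c (c (p (nat_lit 0x2264cb8)) e) e) e) e)) (c (c (c (c (c (m (nat_lit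
  0x5e80300)) e) e) e) e) e))) (c (c (c (c (c (c (p (nat_lit 0x125fe95c)) (c (m (nat_lit 0x194afd8)) e)) (c
  (c (m (nat_lit 0x324b21a)) e) e)) (c (c (c (m (nat_lit 0x11ca8676)) e) e) e)) (c (c (c (c (p (nat_lit
  0x13ad678)) e) e) e) e)) (c (c (c (c (c (m (nat_lit 0x21a66b0)) e) e) e) e) e)) (c (c (c (c (c (c (m
  (nat_lit 0x3d4bb78)) e) e) e) e) e) e))) (c (c (c (c (c (c (c (m (nat_lit 0xd9a604)) (c (m (nat_lit
  0x14e0ea2)) e)) (c (c (m (nat_lit 0x1123296)) e) e)) (c (c (c (m (nat_lit 0x6a1d93c)) e) e) e)) (c (c (c (c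
  (m (nat_lit 0x112341c)) e) e) e) e)) (c (c (c (c (c (m (nat_lit 0x14e0d3a)) e) e) e) e) e)) (c (c (c (c (c
  (c (m (nat_lit 0x6a1dba0)) e) e) e) e) e) e)) (c (c (c (c (c (c (c (m (nat_lit 0x2051670)) e) e) e) e) e)
  e) e))))) (c (c (c (c (c (c (c (c (m (nat_lit 0x2488f824)) (c (m (nat_lit 0x909b2e6)) (c (p (nat_lit
  0x3d17810)) e))) (c (c (m (nat_lit 0x1451d4e)) (c (m (nat_lit 0x1fd5c08)) e)) (c (c (m (nat_lit 0x9994c8))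
  e) e))) (c (c (c (p (nat_lit 0x26fc2dc4)) (c (m (nat_lit 0x4c60dd0)) e)) (c (c (p (nat_lit 0x4470090)) e)
  e)) (c (c (c (m (nat_lit 0x93a0d28)) e) e) e))) (c (c (c (c (p (nat_lit 0xb0b3f14)) (c (m (nat_lit
  0x9055aca)) (c (p (nat_lit 0x33362b8)) e))) (c (c (m (nat_lit 0xbcd53e2)) (c (p (nat_lit 0x3855bd0)) e)) (c
  (c (p (nat_lit 0x4efbf10)) e) e))) (c (c (c (m (nat_lit 0x6dd2bc)) (c (p (nat_lit 0x15534c0)) e)) (c (c (p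
  (nat_lit 0x2414208)) e) e)) (c (c (c (m (nat_lit 0xd8b400)) e) e) e))) (c (c (c (c (p (nat_lit 0x2bb23e8))
  (c (p (nat_lit 0xe0f820)) e)) (c (c (m (nat_lit 0x857e20)) e) e)) (c (c (c (p (nat_lit 0x3b8bd8)) e) e) e))
  e))) (c (c (c (c (c (p (nat_lit 0x177f9eac)) (c (p (nat_lit 0xeae0ec8)) (c (m (nat_lit 0x4094700)) e))) (c
  (c (p (nat_lit 0xfa29b04)) (c (m (nat_lit 0x3089688)) e)) (c (c (m (nat_lit 0x1c52370)) e) e))) (c (c (c (m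
  (nat_lit 0x1ca351d6)) (c (p (nat_lit 0xc7ef90)) e)) (c (c (p (nat_lit 0x44b8)) e) e)) (c (c (c (p (nat_lit
  0x2d96b88)) e) e) e))) (c (c (c (c (m (nat_lit 0x447b958)) (c (p (nat_lit 0x2b5c5b8)) e)) (c (c (m (nat_lit
  0x2b41f0)) e) e)) (c (c (c (p (nat_lit 0x3bc088)) e) e) e)) e)) (c (c (c (c (c (m (nat_lit 0x1ae16e8)) (c
  (m (nat_lit 0x2a83c88)) e)) (c (c (m (nat_lit 0x4dd09a8)) e) e)) (c (c (c (p (nat_lit 0x2c94990)) e) e) e))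
  e) e))) (c (c (c (c (c (c (m (nat_lit 0x1650c6ba)) (c (m (nat_lit 0x4f7b25a)) (c (p (nat_lit 0x1347468))
  e))) (c (c (m (nat_lit 0x2a06bc4)) (c (p (nat_lit 0x1eb3550)) e)) (c (c (p (nat_lit 0x11b5bb8)) e) e))) (c
  (c (c (p (nat_lit 0x85d26c8)) (c (p (nat_lit 0x9e60b8)) e)) (c (c (m (nat_lit 0x3306618)) e) e)) (c (c (c
  (m (nat_lit 0x246a488)) e) e) e))) (c (c (c (c (m (nat_lit 0xc72408)) (c (p (nat_lit 0x6154c8)) e)) (c (c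
  (p (nat_lit 0x31d268)) e) e)) (c (c (c (p (nat_lit 0x34a9b8)) e) e) e)) e)) (c (c (c (c (c (p (nat_lit
  0x16249f8)) (c (m (nat_lit 0x32d93a8)) e)) (c (c (m (nat_lit 0x1b2a528)) e) e)) (c (c (c (p (nat_lit
  0x12c62a0)) e) e) e)) e) e)) (c (c (c (c (c (c (p (nat_lit 0x99f3510)) (c (m (nat_lit 0x51c408)) e)) (c (c
  (m (nat_lit 0xc7be88)) e) e)) (c (c (c (p (nat_lit 0x9fccc0)) e) e) e)) e) e) e))) (c (c (c (c (c (c (c (p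
  (nat_lit 0xe5c41f6)) (c (m (nat_lit 0x22bf48)) (c (m (nat_lit 0x1a4ade8)) e))) (c (c (p (nat_lit
  0xb181ef4)) (c (m (nat_lit 0x114a5d8)) e)) (c (c (m (nat_lit 0x10fe288)) e) e))) (c (c (c (m (nat_lit
  0x152dee32)) (c (p (nat_lit 0xa61550)) e)) (c (c (m (nat_lit 0x1339e60)) e) e)) (c (c (c (p (nat_lit
  0x2a94ae8)) e) e) e))) (c (c (c (c (m (nat_lit 0x5b5f6c6)) (c (p (nat_lit 0x27ed1da)) e)) (c (c (p (nat_lit
  0x22cbbdc)) e) e)) (c (c (c (m (nat_lit 0x198196e)) e) e) e)) (c (c (c (c (m (nat_lit 0x7f8ba0)) e) e) e)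
  e))) (c (c (c (c (c (p (nat_lit 0x3c0bb80)) (c (m (nat_lit 0x533ad74)) e)) (c (c (m (nat_lit 0x2f9be6c)) e)
  e)) (c (c (c (p (nat_lit 0x8549d90)) e) e) e)) (c (c (c (c (m (nat_lit 0x1088490)) e) e) e) e)) (c (c (c (c
  (c (m (nat_lit 0x2f7bd18)) e) e) e) e) e))) (c (c (c (c (c (c (p (nat_lit 0x425136)) (c (p (nat_lit
  0x94888e)) e)) (c (c (p (nat_lit 0x3104e1a)) e) e)) (c (c (c (m (nat_lit 0x5504b8)) e) e) e)) (c (c (c (c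
  (p (nat_lit 0x1594e48)) e) e) e) e)) (c (c (c (c (c (m (nat_lit 0x1504230)) e) e) e) e) e)) (c (c (c (c (c
  (c (m (nat_lit 0x19e0ab0)) e) e) e) e) e) e))) (c (c (c (c (c (c (c (m (nat_lit 0x61b0900)) (c (p (nat_lit
  0x1e73eae)) e)) (c (c (m (nat_lit 0x188631c)) e) e)) (c (c (c (p (nat_lit 0x43b3c60)) e) e) e)) (c (c (c (c
  (p (nat_lit 0xa32d2)) e) e) e) e)) (c (c (c (c (c (m (nat_lit 0x14694f6)) e) e) e) e) e)) (c (c (c (c (c (c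
  (p (nat_lit 0x24089be)) e) e) e) e) e) e)) (c (c (c (c (c (c (c (p (nat_lit 0x7f3f62)) e) e) e) e) e) e)
  e)))) (c (c (c (c (c (c (c (c (p (nat_lit 0x21b75220)) (c (p (nat_lit 0x140d11be)) (c (m (nat_lit
  0x4079160)) e))) (c (c (p (nat_lit 0x6fdf9a4)) (c (m (nat_lit 0xc10bc0)) e)) (c (c (p (nat_lit 0x1150110))
  e) e))) (c (c (c (m (nat_lit 0x24834876)) (c (p (nat_lit 0xed5718)) e)) (c (c (m (nat_lit 0x21e4660)) e)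
  e)) (c (c (c (p (nat_lit 0x795a8d8)) e) e) e))) (c (c (c (c (m (nat_lit 0x6795c2a)) (c (p (nat_lit
  0x2021d0)) e)) (c (c (p (nat_lit 0x60fcae)) e) e)) (c (c (c (p (nat_lit 0x4f946ca)) e) e) e)) (c (c (c (c
  (m (nat_lit 0x1ae4598)) e) e) e) e))) (c (c (c (c (c (m (nat_lit 0x121c0abe)) (c (p (nat_lit 0x240fbdc))
  e)) (c (c (m (nat_lit 0x44f4750)) e) e)) (c (c (c (p (nat_lit 0xfe1dda6)) e) e) e)) (c (c (c (c (p (nat_lit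
  0x25e3210)) e) e) e) e)) (c (c (c (c (c (p (nat_lit 0x233ec38)) e) e) e) e) e))) (c (c (c (c (c (c (p
  (nat_lit 0x1005106e)) (c (m (nat_lit 0x12747c)) e)) (c (c (m (nat_lit 0x12b125e)) e) e)) (c (c (c (m
  (nat_lit 0x2f55300)) e) e) e)) (c (c (c (c (p (nat_lit 0x5bf758)) e) e) e) e)) (c (c (c (c (c (p (nat_lit
  0x442bd8)) e) e) e) e) e)) (c (c (c (c (c (c (m (nat_lit 0x29994c0)) e) e) e) e) e) e))) (c (c (c (c (c (c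
  (c (m (nat_lit 0x913fd2e)) (c (m (nat_lit 0x63db732)) e)) (c (c (m (nat_lit 0x4cf2be8)) e) e)) (c (c (c (p
  (nat_lit 0xa41dd04)) e) e) e)) (c (c (c (c (p (nat_lit 0x33c4bd8)) e) e) e) e)) (c (c (c (c (c (m (nat_lit
  0x30ca494)) e) e) e) e) e)) (c (c (c (c (c (c (m (nat_lit 0x1c9aa84)) e) e) e) e) e) e)) (c (c (c (c (c (c
  (c (m (nat_lit 0x21db80a)) e) e) e) e) e) e) e))) (c (c (c (c (c (c (c (c (m (nat_lit 0x4c063f8)) (c (m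
  (nat_lit 0x3bc4a8c)) e)) (c (c (m (nat_lit 0x25d98e)) e) e)) (c (c (c (m (nat_lit 0x221dd68)) e) e) e)) (c
  (c (c (c (m (nat_lit 0x10e13fe)) e) e) e) e)) (c (c (c (c (c (p (nat_lit 0x6be3bc)) e) e) e) e) e)) (c (c
  (c (c (c (c (m (nat_lit 0x167ac84)) e) e) e) e) e) e)) (c (c (c (c (c (c (c (p (nat_lit 0x7aad950)) e) e)
  e) e) e) e) e)) (c (c (c (c (c (c (c (c (p (nat_lit 0x1ba7d0c)) e) e) e) e) e) e) e) e))))) (c (c (c (c (c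
  (c (c (c (c (m (nat_lit 0x5db25a8)) (c (p (nat_lit 0x9eef68)) (c (m (nat_lit 0x1ae16d0)) e))) (c (c (p
  (nat_lit 0xaea9ba8)) (c (m (nat_lit 0x447bb68)) e)) (c (c (p (nat_lit 0x2bb23a0)) e) e))) (c (c (c (m
  (nat_lit 0xc096378)) (c (p (nat_lit 0x1624980)) e)) (c (c (m (nat_lit 0xc72378)) e) e)) (c (c (c (p
  (nat_lit 0x99f3630)) e) e) e))) (c (c (c (c (m (nat_lit 0x3e763a8)) (c (p (nat_lit 0xc982ea8)) (c (m
  (nat_lit 0x4dd0948)) e))) (c (c (m (nat_lit 0x89491c8)) (c (m (nat_lit 0x2b4280)) e)) (c (c (m (nat_lit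
  0x857e50)) e) e))) (c (c (c (m (nat_lit 0x27f7a28)) (c (m (nat_lit 0x1b2a498)) e)) (c (c (p (nat_lit
  0x31d298)) e) e)) (c (c (c (m (nat_lit 0xc7bd80)) e) e) e))) (c (c (c (c (m (nat_lit 0x999300)) (c (m
  (nat_lit 0x1c52460)) e)) (c (c (p (nat_lit 0x4efbe80)) e) e)) (c (c (c (p (nat_lit 0x11b5b10)) e) e) e))
  e))) (c (c (c (c (c (p (nat_lit 0x2ed70d8)) (c (p (nat_lit 0xb87d348)) (c (m (nat_lit 0x2a83be0)) e))) (c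
  (c (m (nat_lit 0x86b0e90)) (c (p (nat_lit 0x2b5c630)) e)) (c (c (p (nat_lit 0xe0f898)) e) e))) (c (c (c (m
  (nat_lit 0x24d76d0)) (c (m (nat_lit 0x32d9378)) e)) (c (c (p (nat_lit 0x615480)) e) e)) (c (c (c (m
  (nat_lit 0x51c450)) e) e) e))) (c (c (c (c (m (nat_lit 0x1fd59e0)) (c (m (nat_lit 0x30896d0)) e)) (c (c (p
  (nat_lit 0x3855a20)) e) e)) (c (c (c (p (nat_lit 0x1eb33e8)) e) e) e)) e)) (c (c (c (c (c (p (nat_lit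
  0x3d17570)) (c (m (nat_lit 0x4094748)) e)) (c (c (p (nat_lit 0x3336198)) e) e)) (c (c (c (p (nat_lit
  0x1347438)) e) e) e)) e) e))) (c (c (c (c (c (c (p (nat_lit 0x14ad0ad0)) (c (m (nat_lit 0xab76f98)) (c (p
  (nat_lit 0x2c948d0)) e))) (c (c (p (nat_lit 0x2a06ac8)) (c (p (nat_lit 0x3bc070)) e)) (c (c (p (nat_lit
  0x3b8b90)) e) e))) (c (c (c (p (nat_lit 0x6d6650)) (c (p (nat_lit 0x12c6300)) e)) (c (c (p (nat_lit
  0x34aa60)) e) e)) (c (c (c (p (nat_lit 0x9fcd20)) e) e) e))) (c (c (c (c (p (nat_lit 0x4470198)) (c (p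
  (nat_lit 0x4578)) e)) (c (c (p (nat_lit 0x2414340)) e) e)) (c (c (c (m (nat_lit 0x3306630)) e) e) e)) e))
  (c (c (c (c (c (m (nat_lit 0x4c60e00)) (c (p (nat_lit 0xc7ef18)) e)) (c (c (p (nat_lit 0x15534c0)) e) e))
  (c (c (c (p (nat_lit 0x9e6088)) e) e) e)) e) e)) (c (c (c (c (c (c (m (nat_lit 0x93a0c38)) (c (p (nat_lit
  0x2d96a20)) e)) (c (c (m (nat_lit 0xd8b328)) e) e)) (c (c (c (m (nat_lit 0x246a410)) e) e) e)) e) e) e)))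
  (c (c (c (c (c (c (c (p (nat_lit 0xc1760b2)) (c (p (nat_lit 0x41eedce)) (c (m (nat_lit 0x2f7bca0)) e))) (c
  (c (m (nat_lit 0x7176e3a)) (c (m (nat_lit 0x10884f0)) e)) (c (c (m (nat_lit 0x7f8ba0)) e) e))) (c (c (c (m
  (nat_lit 0x2444322)) (c (m (nat_lit 0x1504248)) e)) (c (c (p (nat_lit 0x1594d88)) e) e)) (c (c (c (m
  (nat_lit 0x19e0b70)) e) e) e))) (c (c (c (c (p (nat_lit 0x9a4e080)) (c (m (nat_lit 0x24e0478)) e)) (c (c (p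
  (nat_lit 0x15fc990)) e) e)) (c (c (c (p (nat_lit 0x295a9e8)) e) e) e)) (c (c (c (c (m (nat_lit 0x10fe318))
  e) e) e) e))) (c (c (c (c (c (m (nat_lit 0x4bf719a)) (c (m (nat_lit 0xd7b938)) e)) (c (c (p (nat_lit
  0x194b7e8)) e) e)) (c (c (c (m (nat_lit 0x17c9658)) e) e) e)) (c (c (c (c (m (nat_lit 0x114a6c8)) e) e) e)
  e)) (c (c (c (c (c (m (nat_lit 0x1a4ad70)) e) e) e) e) e))) (c (c (c (c (c (c (m (nat_lit 0xf1a8752)) (c (p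
  (nat_lit 0x453fbe8)) e)) (c (c (m (nat_lit 0x499da0)) e) e)) (c (c (c (p (nat_lit 0x3079b00)) e) e) e)) (c
  (c (c (c (m (nat_lit 0x1339de8)) e) e) e) e)) (c (c (c (c (c (p (nat_lit 0xa61568)) e) e) e) e) e)) (c (c
  (c (c (c (c (p (nat_lit 0x2a94b30)) e) e) e) e) e) e))) (c (c (c (c (c (c (c (m (nat_lit 0x9458a6c)) (c (m
  (nat_lit 0x1e67ad6)) e)) (c (c (p (nat_lit 0xc3c38a)) e) e)) (c (c (c (p (nat_lit 0x17447e2)) e) e) e)) (c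
  (c (c (c (m (nat_lit 0x263c3b8)) e) e) e) e)) (c (c (c (c (c (p (nat_lit 0x1517ad2)) e) e) e) e) e)) (c (c
  (c (c (c (c (p (nat_lit 0x6428fe2)) e) e) e) e) e) e)) (c (c (c (c (c (c (c (p (nat_lit 0xd2be62)) e) e) e)
  e) e) e) e)))) (c (c (c (c (c (c (c (c (m (nat_lit 0x6724272)) (c (m (nat_lit 0x104a576)) (c (p (nat_lit
  0x3fe658)) e))) (c (c (p (nat_lit 0x9fbdc96)) (c (m (nat_lit 0x140f2e0)) e)) (c (c (p (nat_lit 0xcce6e8))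
  e) e))) (c (c (c (p (nat_lit 0x433ac52)) (c (m (nat_lit 0xd91e50)) e)) (c (c (m (nat_lit 0xa97e8)) e) e))
  (c (c (c (m (nat_lit 0x130e198)) e) e) e))) (c (c (c (c (p (nat_lit 0x1a4606c)) (c (m (nat_lit 0x35872f8))
  e)) (c (c (m (nat_lit 0x3280b00)) e) e)) (c (c (c (m (nat_lit 0x192a950)) e) e) e)) (c (c (c (c (p (nat_lit
  0xcce760)) e) e) e) e))) (c (c (c (c (c (p (nat_lit 0x6964cda)) (c (m (nat_lit 0x5113530)) e)) (c (c (m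
  (nat_lit 0x3587478)) e) e)) (c (c (c (m (nat_lit 0xe92de8)) e) e) e)) (c (c (c (c (m (nat_lit 0x140f298))
  e) e) e) e)) (c (c (c (c (c (p (nat_lit 0x3fe5c8)) e) e) e) e) e))) (c (c (c (c (c (c (p (nat_lit
  0x2135160)) (c (m (nat_lit 0xe92e18)) e)) (c (c (m (nat_lit 0x192a968)) e) e)) (c (c (c (m (nat_lit
  0x40ec1c8)) e) e) e)) (c (c (c (c (m (nat_lit 0xa9728)) e) e) e) e)) (c (c (c (c (c (m (nat_lit 0xd91e68))
  e) e) e) e) e)) (c (c (c (c (c (c (m (nat_lit 0x130e078)) e) e) e) e) e) e))) (c (c (c (c (c (c (c (p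
  (nat_lit 0xbb65942)) (c (p (nat_lit 0x4c9bea)) e)) (c (c (m (nat_lit 0x1c7652)) e) e)) (c (c (c (m (nat_lit
  0x2ee71dc)) e) e) e)) (c (c (c (c (p (nat_lit 0x5b8a32)) e) e) e) e)) (c (c (c (c (c (m (nat_lit
  0x1836b40)) e) e) e) e) e)) (c (c (c (c (c (c (m (nat_lit 0x7dd7e0)) e) e) e) e) e) e)) (c (c (c (c (c (c
  (c (m (nat_lit 0xb3276a)) e) e) e) e) e) e) e))) (c (c (c (c (c (c (c (c (m (nat_lit 0xcf53b26)) (c (p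
  (nat_lit 0x2a9d5b4)) e)) (c (c (m (nat_lit 0x3674a9c)) e) e)) (c (c (c (p (nat_lit 0x4ef2622)) e) e) e)) (c
  (c (c (c (p (nat_lit 0x381824a)) e) e) e) e)) (c (c (c (c (c (m (nat_lit 0x1d5d69a)) e) e) e) e) e)) (c (c
  (c (c (c (c (p (nat_lit 0x3b32800)) e) e) e) e) e) e)) (c (c (c (c (c (c (c (m (nat_lit 0x3e04e28)) e) e)
  e) e) e) e) e)) (c (c (c (c (c (c (c (c (p (nat_lit 0x3ef6c10)) e) e) e) e) e) e) e) e)))) (c (c (c (c (c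
  (c (c (c (c (m (nat_lit 0x5bcf0c8)) (c (p (nat_lit 0x16d6790)) (c (p (nat_lit 0x233ed28)) e))) (c (c (m
  (nat_lit 0x82afbe0)) (c (p (nat_lit 0x25e3270)) e)) (c (c (m (nat_lit 0x1ae4610)) e) e))) (c (c (c (p
  (nat_lit 0x6e4a8f0)) (c (p (nat_lit 0x442c98)) e)) (c (c (p (nat_lit 0x5bf758)) e) e)) (c (c (c (m (nat_lit
  0x2999550)) e) e) e))) (c (c (c (c (p (nat_lit 0x7a2cb90)) (c (m (nat_lit 0x1f09650)) e)) (c (c (m (nat_lit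
  0x20ad128)) e) e)) (c (c (c (m (nat_lit 0xd15fc8)) e) e) e)) (c (c (c (c (p (nat_lit 0x1150098)) e) e) e)
  e))) (c (c (c (c (c (m (nat_lit 0x1551990)) (c (p (nat_lit 0x10b4158)) e)) (c (c (p (nat_lit 0x6ff0d8)) e)
  e)) (c (c (c (m (nat_lit 0xab9180)) e) e) e)) (c (c (c (c (m (nat_lit 0xc10bc0)) e) e) e) e)) (c (c (c (c
  (c (m (nat_lit 0x4078ed8)) e) e) e) e) e))) (c (c (c (c (c (c (m (nat_lit 0x120fc768)) (c (p (nat_lit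
  0x1f69ff8)) e)) (c (c (p (nat_lit 0x9c8d00)) e) e)) (c (c (c (p (nat_lit 0x19dccd0)) e) e) e)) (c (c (c (c
  (m (nat_lit 0x21e4768)) e) e) e) e)) (c (c (c (c (c (p (nat_lit 0xed5760)) e) e) e) e) e)) (c (c (c (c (c
  (c (p (nat_lit 0x795a920)) e) e) e) e) e) e))) (c (c (c (c (c (c (c (p (nat_lit 0x7596060)) (c (p (nat_lit
  0x174d6f8)) e)) (c (c (p (nat_lit 0x314b080)) e) e)) (c (c (c (m (nat_lit 0x9a50a8)) e) e) e)) (c (c (c (c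
  (m (nat_lit 0x1867170)) e) e) e) e)) (c (c (c (c (c (p (nat_lit 0x3e7390)) e) e) e) e) e)) (c (c (c (c (c
  (c (m (nat_lit 0x8b53c0)) e) e) e) e) e) e)) (c (c (c (c (c (c (c (m (nat_lit 0xd9c1b8)) e) e) e) e) e) e)
  e))) (c (c (c (c (c (c (c (c (m (nat_lit 0x6834006)) (c (p (nat_lit 0xdb2aa8)) e)) (c (c (p (nat_lit
  0x128b4b8)) e) e)) (c (c (c (p (nat_lit 0x2537208)) e) e) e)) (c (c (c (c (p (nat_lit 0x21f60f0)) e) e) e)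
  e)) (c (c (c (c (c (m (nat_lit 0x701550)) e) e) e) e) e)) (c (c (c (c (c (c (p (nat_lit 0x33f3060)) e) e)
  e) e) e) e)) (c (c (c (c (c (c (c (m (nat_lit 0x2423640)) e) e) e) e) e) e) e)) (c (c (c (c (c (c (c (c (p
  (nat_lit 0x2a0bf46)) e) e) e) e) e) e) e) e))) (c (c (c (c (c (c (c (c (c (p (nat_lit 0x3dae2c0)) (c (m
  (nat_lit 0x7ca7c0)) e)) (c (c (p (nat_lit 0x193b2b8)) e) e)) (c (c (c (m (nat_lit 0x6b2980)) e) e) e)) (c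
  (c (c (c (p (nat_lit 0xdd7dc8)) e) e) e) e)) (c (c (c (c (c (p (nat_lit 0x46509a8)) e) e) e) e) e)) (c (c
  (c (c (c (c (p (nat_lit 0x6c38b8)) e) e) e) e) e) e)) (c (c (c (c (c (c (c (m (nat_lit 0x35450e8)) e) e) e)
  e) e) e) e)) (c (c (c (c (c (c (c (c (m (nat_lit 0x26efd88)) e) e) e) e) e) e) e) e)) (c (c (c (c (c (c (c
  (c (c (p (nat_lit 0x4f5ff0)) e) e) e) e) e) e) e) e) e)))))

noncomputable def gt_1_5_7 : Tr :=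
  (c (c (c (c (c (c (c (c (c (m (nat_lit 0x4a1c390)) (c (m (nat_lit 0x265e030)) (c (p (nat_lit 0x2339160))
  e))) (c (c (p (nat_lit 0x4cb3c0)) (c (m (nat_lit 0x22560c0)) e)) (c (c (p (nat_lit 0x14218f8)) e) e))) (c
  (c (c (p (nat_lit 0x19ebdf0)) (c (m (nat_lit 0xf0fbb8)) e)) (c (c (m (nat_lit 0x10ca58)) e) e)) (c (c (c (m
  (nat_lit 0x1926480)) e) e) e))) (c (c (c (c (p (nat_lit 0xbbf85b8)) (c (m (nat_lit 0x3b63010)) (c (m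
  (nat_lit 0x140ddf8)) e))) (c (c (m (nat_lit 0x237aea8)) (c (p (nat_lit 0x363d410)) e)) (c (c (p (nat_lit
  0x474dc8)) e) e))) (c (c (c (m (nat_lit 0x49e9918)) (c (m (nat_lit 0x7bfe70)) e)) (c (c (m (nat_lit
  0x2cfb410)) e) e)) (c (c (c (p (nat_lit 0x1db81b0)) e) e) e))) (c (c (c (c (m (nat_lit 0x3a7ec68)) (c (m
  (nat_lit 0x1a3caa8)) (c (p (nat_lit 0x2bb8e08)) e))) (c (c (p (nat_lit 0x986838)) (c (m (nat_lit
  0x1717dd0)) e)) (c (c (p (nat_lit 0xc69f90)) e) e))) (c (c (c (p (nat_lit 0x31a8c80)) (c (m (nat_lit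
  0x1c1e440)) e)) (c (c (p (nat_lit 0x118ae50)) e) e)) (c (c (c (m (nat_lit 0x17911c8)) e) e) e))) e))) (c (c
  (c (c (c (p (nat_lit 0x81c0d08)) (c (p (nat_lit 0x4d5c920)) (c (m (nat_lit 0x1dfa6a8)) e))) (c (c (m
  (nat_lit 0x43bb478)) (c (p (nat_lit 0x232af70)) e)) (c (c (p (nat_lit 0x30c7c20)) e) e))) (c (c (c (m
  (nat_lit 0x1a96400)) (c (p (nat_lit 0xa21e48)) e)) (c (c (m (nat_lit 0x25d0838)) e) e)) (c (c (c (p
  (nat_lit 0x8f88c0)) e) e) e))) (c (c (c (c (m (nat_lit 0x5260278)) (c (m (nat_lit 0x649d70)) (c (p (nat_lit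
  0xaf13d0)) e))) (c (c (p (nat_lit 0xdb2280)) (c (m (nat_lit 0xe4a0e0)) e)) (c (c (m (nat_lit 0x4eed30)) e)
  e))) (c (c (c (p (nat_lit 0x2d43d58)) (c (p (nat_lit 0xd579b0)) e)) (c (c (p (nat_lit 0x12918a8)) e) e)) (c
  (c (c (m (nat_lit 0x1c72770)) e) e) e))) e)) (c (c (c (c (c (m (nat_lit 0x30110b8)) (c (m (nat_lit
  0xc80358)) (c (p (nat_lit 0x260e650)) e))) (c (c (p (nat_lit 0x3a093f8)) (c (p (nat_lit 0x116af18)) e)) (c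
  (c (m (nat_lit 0x25c7670)) e) e))) (c (c (c (p (nat_lit 0x17a87a8)) (c (m (nat_lit 0x17c118)) e)) (c (c (p
  (nat_lit 0x16db5c0)) e) e)) (c (c (c (p (nat_lit 0x14dad88)) e) e) e))) e) e))) (c (c (c (c (c (c (m
  (nat_lit 0x2aa3a70)) (c (p (nat_lit 0xa492140)) (c (m (nat_lit 0x5242e30)) e))) (c (c (p (nat_lit
  0x57e96e8)) (c (p (nat_lit 0x2119c50)) e)) (c (c (m (nat_lit 0x7eea720)) e) e))) (c (c (c (p (nat_lit
  0x112d28)) (c (p (nat_lit 0x2470fc8)) e)) (c (c (p (nat_lit 0x60a30e0)) e) e)) (c (c (c (p (nat_lit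
  0x4368180)) e) e) e))) (c (c (c (c (p (nat_lit 0x1e88f08)) (c (p (nat_lit 0x10feea0)) (c (m (nat_lit
  0x3489618)) e))) (c (c (m (nat_lit 0x1780890)) (c (p (nat_lit 0x1563858)) e)) (c (c (m (nat_lit 0x11ea220))
  e) e))) (c (c (c (m (nat_lit 0x11a87a8)) (c (p (nat_lit 0x370f9b0)) e)) (c (c (p (nat_lit 0xefa4b0)) e) e))
  (c (c (c (p (nat_lit 0x1506690)) e) e) e))) e)) (c (c (c (c (c (m (nat_lit 0x2ac8a0)) (c (m (nat_lit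
  0xdf31d0)) (c (m (nat_lit 0x8025c0)) e))) (c (c (m (nat_lit 0x991e60)) (c (m (nat_lit 0xaa2f68)) e)) (c (c
  (p (nat_lit 0x8c51a0)) e) e))) (c (c (c (p (nat_lit 0x719fd0)) (c (p (nat_lit 0x8e1b08)) e)) (c (c (p
  (nat_lit 0x95fe20)) e) e)) (c (c (c (m (nat_lit 0x811f68)) e) e) e))) e) e)) (c (c (c (c (c (c (p (nat_lit
  0x62afaf8)) (c (m (nat_lit 0x7e9fc48)) (c (m (nat_lit 0x29b380)) e))) (c (c (m (nat_lit 0x305a3c0)) (c (p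
  (nat_lit 0x10d9a78)) e)) (c (c (p (nat_lit 0xeab7f0)) e) e))) (c (c (c (m (nat_lit 0x3c44f70)) (c (p
  (nat_lit 0xbc7d8)) e)) (c (c (m (nat_lit 0x1ee29c8)) e) e)) (c (c (c (m (nat_lit 0x3412c8)) e) e) e))) e)
  e) e))) (c (c (c (c (c (c (c (m (nat_lit 0x8cf1090)) (c (p (nat_lit 0x8b26180)) (c (m (nat_lit 0x214a58))
  e))) (c (c (p (nat_lit 0x6c738)) (c (m (nat_lit 0x1629cf0)) e)) (c (c (p (nat_lit 0x2cebca8)) e) e))) (c (c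
  (c (p (nat_lit 0x67747e0)) (c (m (nat_lit 0x233cec8)) e)) (c (c (m (nat_lit 0x4f6c248)) e) e)) (c (c (c (m
  (nat_lit 0x70f67a0)) e) e) e))) (c (c (c (c (m (nat_lit 0xb66e368)) (c (p (nat_lit 0x5600fbe)) (c (p
  (nat_lit 0x10f068)) e))) (c (c (p (nat_lit 0x4a73bca)) (c (m (nat_lit 0xf78e40)) e)) (c (c (m (nat_lit
  0x81bb68)) e) e))) (c (c (c (m (nat_lit 0x14744ac)) (c (p (nat_lit 0xfda160)) e)) (c (c (p (nat_lit
  0x487710)) e) e)) (c (c (c (p (nat_lit 0x12d2be8)) e) e) e))) (c (c (c (c (p (nat_lit 0x3f895e0)) (c (m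
  (nat_lit 0x1f890)) e)) (c (c (m (nat_lit 0x780d20)) e) e)) (c (c (c (m (nat_lit 0x1f39f20)) e) e) e)) e)))
  (c (c (c (c (c (m (nat_lit 0x5c5dbec)) (c (p (nat_lit 0x12879ea)) (c (m (nat_lit 0xd2f648)) e))) (c (c (p
  (nat_lit 0xd3c27e)) (c (m (nat_lit 0x194cfd0)) e)) (c (c (p (nat_lit 0x116cf58)) e) e))) (c (c (c (m
  (nat_lit 0xf5b4ee)) (c (m (nat_lit 0x2e2b10)) e)) (c (c (p (nat_lit 0x18295b0)) e) e)) (c (c (c (p (nat_lit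
  0x1695240)) e) e) e))) (c (c (c (c (p (nat_lit 0x3a793d0)) (c (m (nat_lit 0x1a8db68)) e)) (c (c (m (nat_lit
  0x1bbe200)) e) e)) (c (c (c (p (nat_lit 0x8a49b0)) e) e) e)) e)) (c (c (c (c (c (p (nat_lit 0x519840)) (c
  (m (nat_lit 0x13bae90)) e)) (c (c (p (nat_lit 0x3c1848)) e) e)) (c (c (c (m (nat_lit 0xb16ea0)) e) e) e))
  e) e))) (c (c (c (c (c (c (p (nat_lit 0x1c25820)) (c (p (nat_lit 0x552fbac)) (c (p (nat_lit 0x43b2b98))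
  e))) (c (c (p (nat_lit 0x290e2f6)) (c (m (nat_lit 0x148a070)) e)) (c (c (p (nat_lit 0x19461a8)) e) e))) (c
  (c (c (p (nat_lit 0x8813c3a)) (c (m (nat_lit 0x1e936d8)) e)) (c (c (m (nat_lit 0x448620)) e) e)) (c (c (c
  (m (nat_lit 0x2c295f0)) e) e) e))) (c (c (c (c (m (nat_lit 0x11dedc0)) (c (p (nat_lit 0x14bbaf8)) e)) (c (c
  (p (nat_lit 0x16904b8)) e) e)) (c (c (c (m (nat_lit 0x1e6d08)) e) e) e)) e)) (c (c (c (c (c (p (nat_lit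
  0xac3a58)) (c (m (nat_lit 0x6fd878)) e)) (c (c (p (nat_lit 0x18374b8)) e) e)) (c (c (c (m (nat_lit
  0x1edfef0)) e) e) e)) e) e)) (c (c (c (c (c (c (m (nat_lit 0x1db40b8)) (c (p (nat_lit 0x3ab0150)) e)) (c (c
  (p (nat_lit 0x426b838)) e) e)) (c (c (c (m (nat_lit 0x1e7b708)) e) e) e)) e) e) e))) (c (c (c (c (c (c (c
  (p (nat_lit 0x14199138)) (c (m (nat_lit 0x6138354)) (c (m (nat_lit 0xe7eb08)) e))) (c (c (m (nat_lit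
  0x44856)) (c (p (nat_lit 0xf48018)) e)) (c (c (m (nat_lit 0x3daef98)) e) e))) (c (c (c (m (nat_lit
  0x7e5d792)) (c (p (nat_lit 0xc30480)) e)) (c (c (p (nat_lit 0x32cb518)) e) e)) (c (c (c (p (nat_lit
  0x5a427e0)) e) e) e))) (c (c (c (c (m (nat_lit 0xe56b7e)) (c (m (nat_lit 0x19a593e)) e)) (c (c (m (nat_lit
  0x1e33f72)) e) e)) (c (c (c (p (nat_lit 0x1a7051c)) e) e) e)) (c (c (c (c (p (nat_lit 0xd93740)) e) e) e)
  e))) (c (c (c (c (c (m (nat_lit 0x2f2a538)) (c (p (nat_lit 0x516156)) e)) (c (c (m (nat_lit 0x3086bce)) e)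
  e)) (c (c (c (p (nat_lit 0x1b2a01e)) e) e) e)) (c (c (c (c (p (nat_lit 0x39a9980)) e) e) e) e)) (c (c (c (c
  (c (p (nat_lit 0x1313370)) e) e) e) e) e))) (c (c (c (c (c (c (m (nat_lit 0x79149d8)) (c (m (nat_lit
  0x6a4a594)) e)) (c (c (m (nat_lit 0x5d84a56)) e) e)) (c (c (c (p (nat_lit 0x253003e)) e) e) e)) (c (c (c (c
  (m (nat_lit 0x174f9d8)) e) e) e) e)) (c (c (c (c (c (p (nat_lit 0xa0bbe8)) e) e) e) e) e)) (c (c (c (c (c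
  (c (m (nat_lit 0x2a0a158)) e) e) e) e) e) e))) (c (c (c (c (c (c (c (m (nat_lit 0xb04b6b2)) (c (m (nat_lit
  0x7820c4)) e)) (c (c (p (nat_lit 0x57576)) e) e)) (c (c (c (m (nat_lit 0xf9496e)) e) e) e)) (c (c (c (c (m
  (nat_lit 0xa4db22)) e) e) e) e)) (c (c (c (c (c (p (nat_lit 0x2e2384)) e) e) e) e) e)) (c (c (c (c (c (c (p
  (nat_lit 0x2392ed8)) e) e) e) e) e) e)) (c (c (c (c (c (c (c (p (nat_lit 0x8ba093a)) e) e) e) e) e) e)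
  e))))) (c (c (c (c (c (c (c (c (m (nat_lit 0xc29739c)) (c (p (nat_lit 0x96ee842)) (c (m (nat_lit
  0x6e5e438)) e))) (c (c (p (nat_lit 0x11589b88)) (c (p (nat_lit 0x1b5be90)) e)) (c (c (m (nat_lit
  0x1a46510)) e) e))) (c (c (c (p (nat_lit 0xc82100a)) (c (p (nat_lit 0x28c03f8)) e)) (c (c (p (nat_lit
  0xdef930)) e) e)) (c (c (c (p (nat_lit 0x2377f20)) e) e) e))) (c (c (c (c (m (nat_lit 0xce892f0)) (c (p
  (nat_lit 0x4e603c0)) (c (m (nat_lit 0x10e8b50)) e))) (c (c (m (nat_lit 0xba4d730)) (c (m (nat_lit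
  0x1b6dc68)) e)) (c (c (m (nat_lit 0xac54b0)) e) e))) (c (c (c (p (nat_lit 0x1bf3cb4)) (c (m (nat_lit
  0x48daa0)) e)) (c (c (p (nat_lit 0xf7ad90)) e) e)) (c (c (c (m (nat_lit 0x1367c28)) e) e) e))) (c (c (c (c
  (p (nat_lit 0x4504830)) (c (m (nat_lit 0x11f9b38)) e)) (c (c (p (nat_lit 0x1a103d8)) e) e)) (c (c (c (p
  (nat_lit 0x47e7b8)) e) e) e)) e))) (c (c (c (c (c (p (nat_lit 0x280f25be)) (c (p (nat_lit 0x27041a)) (c (p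
  (nat_lit 0xf7d640)) e))) (c (c (m (nat_lit 0x78c0216)) (c (p (nat_lit 0x26830f8)) e)) (c (c (m (nat_lit
  0xbd2e38)) e) e))) (c (c (c (m (nat_lit 0xabca854)) (c (p (nat_lit 0x15e730)) e)) (c (c (p (nat_lit
  0xc18fd8)) e) e)) (c (c (c (p (nat_lit 0x195e7f0)) e) e) e))) (c (c (c (c (p (nat_lit 0x3ea3798)) (c (m
  (nat_lit 0x1d487a8)) e)) (c (c (p (nat_lit 0x3dda150)) e) e)) (c (c (c (m (nat_lit 0x2376180)) e) e) e))
  e)) (c (c (c (c (c (m (nat_lit 0xef16d8)) (c (p (nat_lit 0x867768)) e)) (c (c (m (nat_lit 0x42d9d88)) e)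
  e)) (c (c (c (p (nat_lit 0x1aa26a0)) e) e) e)) e) e))) (c (c (c (c (c (c (p (nat_lit 0xbf7ed4e)) (c (p
  (nat_lit 0x4fc3302)) (c (p (nat_lit 0x8af198)) e))) (c (c (m (nat_lit 0x92b45fe)) (c (p (nat_lit 0x6a2708))
  e)) (c (c (p (nat_lit 0x4767c0)) e) e))) (c (c (c (p (nat_lit 0x5deb590)) (c (m (nat_lit 0x17c0820)) e)) (c
  (c (p (nat_lit 0x642f90)) e) e)) (c (c (c (m (nat_lit 0x11201a0)) e) e) e))) (c (c (c (c (p (nat_lit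
  0x2efcc98)) (c (p (nat_lit 0x1b06ed0)) e)) (c (c (p (nat_lit 0x94260)) e) e)) (c (c (c (m (nat_lit
  0xc116d0)) e) e) e)) e)) (c (c (c (c (c (p (nat_lit 0x2194bf0)) (c (m (nat_lit 0x123dff8)) e)) (c (c (p
  (nat_lit 0xa6e8d0)) e) e)) (c (c (c (m (nat_lit 0x3a5b40)) e) e) e)) e) e)) (c (c (c (c (c (c (m (nat_lit
  0x456dc38)) (c (p (nat_lit 0x2287c8)) e)) (c (c (m (nat_lit 0xfc9240)) e) e)) (c (c (c (p (nat_lit
  0x4dd8a0)) e) e) e)) e) e) e))) (c (c (c (c (c (c (c (m (nat_lit 0x1cbbaae0)) (c (m (nat_lit 0xce7702)) (c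
  (p (nat_lit 0x1191e40)) e))) (c (c (m (nat_lit 0x4af3cfa)) (c (m (nat_lit 0xf8cf70)) e)) (c (c (p (nat_lit
  0xe35a58)) e) e))) (c (c (c (m (nat_lit 0x1978ce6)) (c (m (nat_lit 0xaac6d0)) e)) (c (c (m (nat_lit
  0x80b6b0)) e) e)) (c (c (c (m (nat_lit 0x127ebb8)) e) e) e))) (c (c (c (c (p (nat_lit 0xb32ca5e)) (c (m
  (nat_lit 0x63321c)) e)) (c (c (p (nat_lit 0x35b8384)) e) e)) (c (c (c (m (nat_lit 0x1234938)) e) e) e)) (c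
  (c (c (c (m (nat_lit 0x801d68)) e) e) e) e))) (c (c (c (c (c (m (nat_lit 0x1568994)) (c (p (nat_lit
  0xad706)) e)) (c (c (p (nat_lit 0x4011aa4)) e) e)) (c (c (c (p (nat_lit 0x1ea4c46)) e) e) e)) (c (c (c (c
  (m (nat_lit 0x228dda0)) e) e) e) e)) (c (c (c (c (c (m (nat_lit 0xb44fe0)) e) e) e) e) e))) (c (c (c (c (c
  (c (p (nat_lit 0x23e494c)) (c (m (nat_lit 0x345f762)) e)) (c (c (p (nat_lit 0x34d3244)) e) e)) (c (c (c (m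
  (nat_lit 0x402c9e4)) e) e) e)) (c (c (c (c (m (nat_lit 0x1dc78d0)) e) e) e) e)) (c (c (c (c (c (p (nat_lit
  0x1cfa40)) e) e) e) e) e)) (c (c (c (c (c (c (p (nat_lit 0x3f33be8)) e) e) e) e) e) e))) (c (c (c (c (c (c
  (c (p (nat_lit 0xbe958fa)) (c (p (nat_lit 0x677e80)) e)) (c (c (p (nat_lit 0x195b490)) e) e)) (c (c (c (m
  (nat_lit 0xce7918)) e) e) e)) (c (c (c (c (m (nat_lit 0x3909966)) e) e) e) e)) (c (c (c (c (c (m (nat_lit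
  0x1504f9e)) e) e) e) e) e)) (c (c (c (c (c (c (m (nat_lit 0x956a7e)) e) e) e) e) e) e)) (c (c (c (c (c (c
  (c (m (nat_lit 0x46a919c)) e) e) e) e) e) e) e)))) (c (c (c (c (c (c (c (c (m (nat_lit 0x1247544)) (c (m
  (nat_lit 0x11fc032e)) (c (p (nat_lit 0x5a63228)) e))) (c (c (m (nat_lit 0x498e0b8)) (c (m (nat_lit
  0x1f99da0)) e)) (c (c (p (nat_lit 0x110cb98)) e) e))) (c (c (c (m (nat_lit 0x14cc472c)) (c (m (nat_lit
  0x17eb1e0)) e)) (c (c (m (nat_lit 0x272c940)) e) e)) (c (c (c (m (nat_lit 0x1e6c240)) e) e) e))) (c (c (c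
  (c (p (nat_lit 0x7b2bc0e)) (c (p (nat_lit 0x28b5fac)) e)) (c (c (m (nat_lit 0x29838c)) e) e)) (c (c (c (p
  (nat_lit 0x692a3cc)) e) e) e)) (c (c (c (c (m (nat_lit 0x24c1098)) e) e) e) e))) (c (c (c (c (c (m (nat_lit
  0x3273993c)) (c (m (nat_lit 0x4532538)) e)) (c (c (p (nat_lit 0x3b3faa2)) e) e)) (c (c (c (p (nat_lit
  0x950da6e)) e) e) e)) (c (c (c (c (m (nat_lit 0x3e2b0)) e) e) e) e)) (c (c (c (c (c (p (nat_lit 0x20d29b8))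
  e) e) e) e) e))) (c (c (c (c (c (c (m (nat_lit 0xfa48da0)) (c (m (nat_lit 0x4f1e98)) e)) (c (c (p (nat_lit
  0x1209fa2)) e) e)) (c (c (c (m (nat_lit 0x3d6b0c)) e) e) e)) (c (c (c (c (m (nat_lit 0x167a048)) e) e) e)
  e)) (c (c (c (c (c (p (nat_lit 0x954150)) e) e) e) e) e)) (c (c (c (c (c (c (p (nat_lit 0x33c2ca0)) e) e)
  e) e) e) e))) (c (c (c (c (c (c (c (p (nat_lit 0x15f51d2c)) (c (p (nat_lit 0x444a554)) e)) (c (c (m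
  (nat_lit 0x45f3c96)) e) e)) (c (c (c (p (nat_lit 0x662dd38)) e) e) e)) (c (c (c (c (p (nat_lit 0x112d98e))
  e) e) e) e)) (c (c (c (c (c (m (nat_lit 0x207a92)) e) e) e) e) e)) (c (c (c (c (c (c (m (nat_lit
  0x123c3ae)) e) e) e) e) e) e)) (c (c (c (c (c (c (c (m (nat_lit 0x351846c)) e) e) e) e) e) e) e))) (c (c (c
  (c (c (c (c (c (p (nat_lit 0x2331a3e0)) (c (p (nat_lit 0x75f2112)) e)) (c (c (p (nat_lit 0x3ad0640)) e) e))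
  (c (c (c (p (nat_lit 0x228d068)) e) e) e)) (c (c (c (c (m (nat_lit 0x914cc04)) e) e) e) e)) (c (c (c (c (c
  (p (nat_lit 0xdb0eb32)) e) e) e) e) e)) (c (c (c (c (c (c (m (nat_lit 0xa5fa26)) e) e) e) e) e) e)) (c (c
  (c (c (c (c (c (m (nat_lit 0xc539aea)) e) e) e) e) e) e) e)) (c (c (c (c (c (c (c (c (m (nat_lit
  0x8f14e54)) e) e) e) e) e) e) e) e))))) (c (c (c (c (c (c (c (c (c (p (nat_lit 0x3a5fe28)) (c (p (nat_lit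
  0xb6a0a08)) (c (m (nat_lit 0x59a4b60)) e))) (c (c (p (nat_lit 0xd02750)) (c (m (nat_lit 0x5f50f8)) e)) (c
  (c (p (nat_lit 0x5b9950)) e) e))) (c (c (c (m (nat_lit 0x3b27268)) (c (m (nat_lit 0x18dbaf8)) e)) (c (c (m
  (nat_lit 0x48abb70)) e) e)) (c (c (c (m (nat_lit 0x77628)) e) e) e))) (c (c (c (c (p (nat_lit 0xaf5fd8)) (c
  (p (nat_lit 0xaa3340)) (c (p (nat_lit 0x180bf88)) e))) (c (c (p (nat_lit 0x3ba4de8)) (c (p (nat_lit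
  0x96090)) e)) (c (c (p (nat_lit 0x41f118)) e) e))) (c (c (c (p (nat_lit 0x2a56790)) (c (m (nat_lit
  0xc0fba0)) e)) (c (c (m (nat_lit 0xf30b88)) e) e)) (c (c (c (m (nat_lit 0x1818b58)) e) e) e))) (c (c (c (c
  (m (nat_lit 0x45961e0)) (c (p (nat_lit 0x1b523b0)) e)) (c (c (m (nat_lit 0x1bae360)) e) e)) (c (c (c (m
  (nat_lit 0x590388)) e) e) e)) e))) (c (c (c (c (c (m (nat_lit 0x8c625d8)) (c (m (nat_lit 0x8fbb348)) (c (m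
  (nat_lit 0xf739b0)) e))) (c (c (p (nat_lit 0xb93610)) (c (p (nat_lit 0xbaf6c0)) e)) (c (c (m (nat_lit
  0xb06898)) e) e))) (c (c (c (p (nat_lit 0x361ff08)) (c (m (nat_lit 0x331fb0)) e)) (c (c (p (nat_lit
  0xebdca0)) e) e)) (c (c (c (m (nat_lit 0x273c30)) e) e) e))) (c (c (c (c (p (nat_lit 0x8acc0)) (c (m
  (nat_lit 0x8a8430)) e)) (c (c (p (nat_lit 0x42180)) e) e)) (c (c (c (m (nat_lit 0x12ae930)) e) e) e)) e))
  (c (c (c (c (c (p (nat_lit 0x56ddf38)) (c (p (nat_lit 0x1901238)) e)) (c (c (m (nat_lit 0x1140f18)) e) e))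
  (c (c (c (m (nat_lit 0x1b6c930)) e) e) e)) e) e))) (c (c (c (c (c (c (p (nat_lit 0x60e3da8)) (c (m (nat_lit
  0x83a40b0)) (c (p (nat_lit 0x5cb380)) e))) (c (c (m (nat_lit 0x28bb1f0)) (c (p (nat_lit 0x818c88)) e)) (c
  (c (p (nat_lit 0x42d6b0)) e) e))) (c (c (c (m (nat_lit 0x2a91308)) (c (p (nat_lit 0x14be9a8)) e)) (c (c (p
  (nat_lit 0x8c6688)) e) e)) (c (c (c (p (nat_lit 0x62b1d0)) e) e) e))) (c (c (c (c (m (nat_lit 0x6c9de0)) (c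
  (m (nat_lit 0x1934fa0)) e)) (c (c (m (nat_lit 0xb4810)) e) e)) (c (c (c (p (nat_lit 0x602ce8)) e) e) e))
  e)) (c (c (c (c (c (m (nat_lit 0x3d67280)) (c (m (nat_lit 0x757b48)) e)) (c (c (p (nat_lit 0x272ebc0)) e)
  e)) (c (c (c (p (nat_lit 0x12f0d20)) e) e) e)) e) e)) (c (c (c (c (c (c (m (nat_lit 0x36c50d0)) (c (p
  (nat_lit 0x28f7670)) e)) (c (c (p (nat_lit 0x29b8618)) e) e)) (c (c (c (p (nat_lit 0x28dde58)) e) e) e)) e)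
  e) e))) (c (c (c (c (c (c (c (m (nat_lit 0x3b9ce3e)) (c (m (nat_lit 0x3ef05ec)) (c (p (nat_lit 0x12010f8))
  e))) (c (c (m (nat_lit 0x43ce768)) (c (p (nat_lit 0xf53358)) e)) (c (c (p (nat_lit 0x375e10)) e) e))) (c (c
  (c (p (nat_lit 0x2eaecec)) (c (p (nat_lit 0x1676550)) e)) (c (c (p (nat_lit 0x1303380)) e) e)) (c (c (c (p
  (nat_lit 0xbdf840)) e) e) e))) (c (c (c (c (p (nat_lit 0x66dbbdc)) (c (m (nat_lit 0x2894e68)) e)) (c (c (p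
  (nat_lit 0xcb6ef8)) e) e)) (c (c (c (p (nat_lit 0x4febe8)) e) e) e)) (c (c (c (c (m (nat_lit 0x1476cc0)) e)
  e) e) e))) (c (c (c (c (c (p (nat_lit 0x700b67e)) (c (p (nat_lit 0x23d168)) e)) (c (c (p (nat_lit
  0x2200a88)) e) e)) (c (c (c (m (nat_lit 0x293e38)) e) e) e)) (c (c (c (c (m (nat_lit 0x1b1c7b8)) e) e) e)
  e)) (c (c (c (c (c (m (nat_lit 0x213af98)) e) e) e) e) e))) (c (c (c (c (c (c (p (nat_lit 0x148f524)) (c (p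
  (nat_lit 0x919dd0)) e)) (c (c (p (nat_lit 0x6335e8)) e) e)) (c (c (c (m (nat_lit 0x1127238)) e) e) e)) (c
  (c (c (c (p (nat_lit 0x57c960)) e) e) e) e)) (c (c (c (c (c (m (nat_lit 0x88f500)) e) e) e) e) e)) (c (c (c
  (c (c (c (p (nat_lit 0x1f7a870)) e) e) e) e) e) e))) (c (c (c (c (c (c (c (p (nat_lit 0x46dc256)) (c (p
  (nat_lit 0x42b3f7c)) e)) (c (c (p (nat_lit 0x1017c90)) e) e)) (c (c (c (m (nat_lit 0x251de94)) e) e) e)) (c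
  (c (c (c (m (nat_lit 0x1657fec)) e) e) e) e)) (c (c (c (c (c (m (nat_lit 0x3ca44de)) e) e) e) e) e)) (c (c
  (c (c (c (c (m (nat_lit 0x4e9e664)) e) e) e) e) e) e)) (c (c (c (c (c (c (c (m (nat_lit 0x16e0390)) e) e)
  e) e) e) e) e)))) (c (c (c (c (c (c (c (c (m (nat_lit 0x1bd9cda)) (c (p (nat_lit 0x27d4e2)) (c (p (nat_lit
  0xebe378)) e))) (c (c (p (nat_lit 0x7ecc24c)) (c (m (nat_lit 0x260bb00)) e)) (c (c (p (nat_lit 0x2684da8))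
  e) e))) (c (c (c (p (nat_lit 0x91c7a96)) (c (p (nat_lit 0x53dc30)) e)) (c (c (m (nat_lit 0x93cd20)) e) e))
  (c (c (c (p (nat_lit 0x3856f8)) e) e) e))) (c (c (c (c (m (nat_lit 0x2a02442)) (c (m (nat_lit 0x12c5328))
  e)) (c (c (p (nat_lit 0x11694f0)) e) e)) (c (c (c (m (nat_lit 0x2211b40)) e) e) e)) (c (c (c (c (m (nat_lit
  0x10fdbc8)) e) e) e) e))) (c (c (c (c (c (m (nat_lit 0x4173132)) (c (p (nat_lit 0x309a7e8)) e)) (c (c (m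
  (nat_lit 0x24a0a28)) e) e)) (c (c (c (m (nat_lit 0x2dcd08)) e) e) e)) (c (c (c (c (m (nat_lit 0x121ba08))
  e) e) e) e)) (c (c (c (c (c (p (nat_lit 0x12e4768)) e) e) e) e) e))) (c (c (c (c (c (c (p (nat_lit
  0x38ceb48)) (c (m (nat_lit 0xe9aa8)) e)) (c (c (p (nat_lit 0x15941e8)) e) e)) (c (c (c (m (nat_lit
  0x1769868)) e) e) e)) (c (c (c (c (m (nat_lit 0x6cfca8)) e) e) e) e)) (c (c (c (c (c (m (nat_lit 0x439668))
  e) e) e) e) e)) (c (c (c (c (c (c (m (nat_lit 0x4bdc560)) e) e) e) e) e) e))) (c (c (c (c (c (c (c (p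
  (nat_lit 0x117c4fda)) (c (p (nat_lit 0x5d4abe)) e)) (c (c (p (nat_lit 0x1b4074)) e) e)) (c (c (c (m
  (nat_lit 0x42b6d72)) e) e) e)) (c (c (c (c (m (nat_lit 0x39b23ec)) e) e) e) e)) (c (c (c (c (c (m (nat_lit
  0x4038492)) e) e) e) e) e)) (c (c (c (c (c (c (m (nat_lit 0x217c7a6)) e) e) e) e) e) e)) (c (c (c (c (c (c
  (c (m (nat_lit 0x41c5ec)) e) e) e) e) e) e) e))) (c (c (c (c (c (c (c (c (m (nat_lit 0xfeb002c)) (c (m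
  (nat_lit 0x3b4d7a0)) e)) (c (c (m (nat_lit 0x598a208)) e) e)) (c (c (c (m (nat_lit 0x3c55044)) e) e) e)) (c
  (c (c (c (p (nat_lit 0x3bbede6)) e) e) e) e)) (c (c (c (c (c (p (nat_lit 0x606ffb4)) e) e) e) e) e)) (c (c
  (c (c (c (c (p (nat_lit 0x869abee)) e) e) e) e) e) e)) (c (c (c (c (c (c (c (m (nat_lit 0x8a92d84)) e) e)
  e) e) e) e) e)) (c (c (c (c (c (c (c (c (p (nat_lit 0x310f92c)) e) e) e) e) e) e) e) e)))) (c (c (c (c (c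
  (c (c (c (c (p (nat_lit 0xfd6338)) (c (m (nat_lit 0x93fa050)) (c (p (nat_lit 0x1b050b8)) e))) (c (c (p
  (nat_lit 0x5de8548)) (c (p (nat_lit 0x16989c0)) e)) (c (c (m (nat_lit 0xa7a780)) e) e))) (c (c (c (p
  (nat_lit 0x27ee2a8)) (c (p (nat_lit 0x614df0)) e)) (c (c (p (nat_lit 0x122aab0)) e) e)) (c (c (c (m
  (nat_lit 0x6d4e38)) e) e) e))) (c (c (c (c (p (nat_lit 0x19b5298)) (c (p (nat_lit 0x72ea9a8)) e)) (c (c (m
  (nat_lit 0x11978d0)) e) e)) (c (c (c (m (nat_lit 0x1bfd158)) e) e) e)) (c (c (c (c (p (nat_lit 0x3b860e0))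
  e) e) e) e))) (c (c (c (c (c (p (nat_lit 0x71e29c0)) (c (p (nat_lit 0x45839e8)) e)) (c (c (m (nat_lit
  0x26a8c10)) e) e)) (c (c (c (m (nat_lit 0x98a570)) e) e) e)) (c (c (c (c (m (nat_lit 0xbdbd78)) e) e) e)
  e)) (c (c (c (c (c (m (nat_lit 0x3c0c750)) e) e) e) e) e))) (c (c (c (c (c (c (m (nat_lit 0x3fd1400)) (c (m
  (nat_lit 0x17b4f28)) e)) (c (c (m (nat_lit 0xf0e3b8)) e) e)) (c (c (c (p (nat_lit 0x13ccd40)) e) e) e)) (c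
  (c (c (c (p (nat_lit 0xfa8480)) e) e) e) e)) (c (c (c (c (c (p (nat_lit 0xa70700)) e) e) e) e) e)) (c (c (c
  (c (c (c (p (nat_lit 0x20f2b00)) e) e) e) e) e) e))) (c (c (c (c (c (c (c (p (nat_lit 0x3a93788)) (c (p
  (nat_lit 0x657e88)) e)) (c (c (p (nat_lit 0x1008d20)) e) e)) (c (c (c (m (nat_lit 0xe1930)) e) e) e)) (c (c
  (c (c (m (nat_lit 0xeed868)) e) e) e) e)) (c (c (c (c (c (p (nat_lit 0x32f370)) e) e) e) e) e)) (c (c (c (c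
  (c (c (m (nat_lit 0x132030)) e) e) e) e) e) e)) (c (c (c (c (c (c (c (m (nat_lit 0x14e5558)) e) e) e) e) e)
  e) e))) (c (c (c (c (c (c (c (c (p (nat_lit 0x394c4d0)) (c (m (nat_lit 0x1c57068)) e)) (c (c (p (nat_lit
  0xc24378)) e) e)) (c (c (c (p (nat_lit 0x2adc98)) e) e) e)) (c (c (c (c (p (nat_lit 0x15c6d08)) e) e) e)
  e)) (c (c (c (c (c (m (nat_lit 0x272f3b8)) e) e) e) e) e)) (c (c (c (c (c (c (p (nat_lit 0x123c378)) e) e)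
  e) e) e) e)) (c (c (c (c (c (c (c (p (nat_lit 0x22ad0b4)) e) e) e) e) e) e) e)) (c (c (c (c (c (c (c (c (m
  (nat_lit 0x2befd2c)) e) e) e) e) e) e) e) e))) (c (c (c (c (c (c (c (c (c (m (nat_lit 0x39d6518)) (c (p
  (nat_lit 0x229fa10)) e)) (c (c (m (nat_lit 0x146b5a8)) e) e)) (c (c (c (m (nat_lit 0xeb8498)) e) e) e)) (c
  (c (c (c (p (nat_lit 0x5fd3c0)) e) e) e) e)) (c (c (c (c (c (p (nat_lit 0x1cc0320)) e) e) e) e) e)) (c (c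
  (c (c (c (c (m (nat_lit 0x1323828)) e) e) e) e) e) e)) (c (c (c (c (c (c (c (m (nat_lit 0xa8d4b8)) e) e) e)
  e) e) e) e)) (c (c (c (c (c (c (c (c (m (nat_lit 0x1283e20)) e) e) e) e) e) e) e) e)) (c (c (c (c (c (c (c
  (c (c (p (nat_lit 0x382200)) e) e) e) e) e) e) e) e) e)))))

noncomputable def gt_1_5 : Tr := (c gt_1_5_5 (c gt_1_5_6 (c gt_1_5_7 e)))

noncomputable def gt_1_6_6 : Tr :=
  (c (c (c (c (c (c (c (c (c (p (nat_lit 0xa89dcc8)) (c (m (nat_lit 0x1b40af40)) (c (p (nat_lit 0x8a290a0))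
  e))) (c (c (m (nat_lit 0x5f92c98)) (c (p (nat_lit 0x4221ae0)) e)) (c (c (p (nat_lit 0x1947180)) e) e))) (c
  (c (c (m (nat_lit 0x3ef4e10)) (c (p (nat_lit 0x53a7ab8)) e)) (c (c (m (nat_lit 0x4174ba8)) e) e)) (c (c (c
  (p (nat_lit 0x1ac3250)) e) e) e))) (c (c (c (c (m (nat_lit 0x1b40af40)) (c (p (nat_lit 0x54a331d0)) (c (m
  (nat_lit 0x22b57bb8)) e))) (c (c (p (nat_lit 0x128d7218)) (c (m (nat_lit 0x9de6420)) e)) (c (c (m (nat_lit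
  0x1b92370)) e) e))) (c (c (c (m (nat_lit 0xab72b58)) (c (m (nat_lit 0xbe45ed8)) e)) (c (c (p (nat_lit
  0xa866858)) e) e)) (c (c (c (p (nat_lit 0x54ff4c8)) e) e) e))) (c (c (c (c (p (nat_lit 0x8a290a0)) (c (m
  (nat_lit 0x22b57bb8)) (c (p (nat_lit 0x1a5a3eb0)) e))) (c (c (m (nat_lit 0xa04afd8)) (c (p (nat_lit
  0x2899d70)) e)) (c (c (p (nat_lit 0x18573a8)) e) e))) (c (c (c (p (nat_lit 0xe8781e8)) (c (p (nat_lit
  0x28507b0)) e)) (c (c (m (nat_lit 0x3066210)) e) e)) (c (c (c (m (nat_lit 0x84c21f0)) e) e) e))) e))) (c (c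
  (c (c (c (m (nat_lit 0x5f92c98)) (c (p (nat_lit 0x128d7218)) (c (m (nat_lit 0xa04afd8)) e))) (c (c (p
  (nat_lit 0x1e637c80)) (c (m (nat_lit 0xc813900)) e)) (c (c (m (nat_lit 0x89e5768)) e) e))) (c (c (c (m
  (nat_lit 0x17d879a8)) (c (p (nat_lit 0x4b0420)) e)) (c (c (m (nat_lit 0x1464c00)) e) e)) (c (c (c (p
  (nat_lit 0xea66c18)) e) e) e))) (c (c (c (c (p (nat_lit 0x4221ae0)) (c (m (nat_lit 0x9de6420)) (c (p
  (nat_lit 0x2899d70)) e))) (c (c (m (nat_lit 0xc813900)) (c (p (nat_lit 0xc846780)) e)) (c (c (p (nat_lit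
  0x3472c20)) e) e))) (c (c (c (p (nat_lit 0x6367878)) (c (p (nat_lit 0x1310ce8)) e)) (c (c (m (nat_lit
  0x134fa78)) e) e)) (c (c (c (m (nat_lit 0x3f6c8e8)) e) e) e))) e)) (c (c (c (c (c (p (nat_lit 0x1947180))
  (c (m (nat_lit 0x1b92370)) (c (p (nat_lit 0x18573a8)) e))) (c (c (m (nat_lit 0x89e5768)) (c (p (nat_lit
  0x3472c20)) e)) (c (c (p (nat_lit 0xb7841f8)) e) e))) (c (c (c (m (nat_lit 0xb13450)) (c (m (nat_lit
  0x188cd0)) e)) (c (c (m (nat_lit 0xdfa598)) e) e)) (c (c (c (m (nat_lit 0x91bf18)) e) e) e))) e) e))) (c (c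
  (c (c (c (c (m (nat_lit 0x3ef4e10)) (c (m (nat_lit 0xab72b58)) (c (p (nat_lit 0xe8781e8)) e))) (c (c (m
  (nat_lit 0x17d879a8)) (c (p (nat_lit 0x6367878)) e)) (c (c (m (nat_lit 0xb13450)) e) e))) (c (c (c (p
  (nat_lit 0x3fe58be8)) (c (m (nat_lit 0x944df60)) e)) (c (c (m (nat_lit 0x2b4e950)) e) e)) (c (c (c (m
  (nat_lit 0x25836fa8)) e) e) e))) (c (c (c (c (p (nat_lit 0x53a7ab8)) (c (m (nat_lit 0xbe45ed8)) (c (p
  (nat_lit 0x28507b0)) e))) (c (c (p (nat_lit 0x4b0420)) (c (p (nat_lit 0x1310ce8)) e)) (c (c (m (nat_lit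
  0x188cd0)) e) e))) (c (c (c (m (nat_lit 0x944df60)) (c (p (nat_lit 0xb743a70)) e)) (c (c (m (nat_lit
  0x12356e8)) e) e)) (c (c (c (p (nat_lit 0x746bde8)) e) e) e))) e)) (c (c (c (c (c (m (nat_lit 0x4174ba8))
  (c (p (nat_lit 0xa866858)) (c (m (nat_lit 0x3066210)) e))) (c (c (m (nat_lit 0x1464c00)) (c (m (nat_lit
  0x134fa78)) e)) (c (c (m (nat_lit 0xdfa598)) e) e))) (c (c (c (m (nat_lit 0x2b4e950)) (c (m (nat_lit
  0x12356e8)) e)) (c (c (p (nat_lit 0xcb84a18)) e) e)) (c (c (c (p (nat_lit 0x33c7e48)) e) e) e))) e) e)) (c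
  (c (c (c (c (c (p (nat_lit 0x1ac3250)) (c (p (nat_lit 0x54ff4c8)) (c (m (nat_lit 0x84c21f0)) e))) (c (c (p
  (nat_lit 0xea66c18)) (c (m (nat_lit 0x3f6c8e8)) e)) (c (c (m (nat_lit 0x91bf18)) e) e))) (c (c (c (m
  (nat_lit 0x25836fa8)) (c (p (nat_lit 0x746bde8)) e)) (c (c (p (nat_lit 0x33c7e48)) e) e)) (c (c (c (p
  (nat_lit 0x1c4172d8)) e) e) e))) e) e) e))) (c (c (c (c (c (c (c (m (nat_lit 0x1413285c)) (c (p (nat_lit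
  0x3bcce8ba)) (c (m (nat_lit 0x10f43730)) e))) (c (c (p (nat_lit 0x27620c4)) (c (m (nat_lit 0x40df448)) e))
  (c (c (m (nat_lit 0x2f57370)) e) e))) (c (c (c (m (nat_lit 0x9d07724)) (c (m (nat_lit 0x5e020c0)) e)) (c (c
  (p (nat_lit 0x776aeb8)) e) e)) (c (c (c (p (nat_lit 0x1e1fda0)) e) e) e))) (c (c (c (c (p (nat_lit
  0x3bcce8ba)) (c (m (nat_lit 0x33549c24)) (c (p (nat_lit 0x4e90db0)) e))) (c (c (m (nat_lit 0xd6cd54a)) (c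
  (p (nat_lit 0x29bb258)) e)) (c (c (p (nat_lit 0x2b01e8)) e) e))) (c (c (c (m (nat_lit 0x259dbd4)) (c (p
  (nat_lit 0x4388358)) e)) (c (c (m (nat_lit 0x4319d90)) e) e)) (c (c (c (p (nat_lit 0x3044d60)) e) e) e)))
  (c (c (c (c (m (nat_lit 0x10f43730)) (c (p (nat_lit 0x4e90db0)) e)) (c (c (p (nat_lit 0x4427e50)) e) e)) (c
  (c (c (m (nat_lit 0x133338)) e) e) e)) e))) (c (c (c (c (c (p (nat_lit 0x27620c4)) (c (m (nat_lit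
  0xd6cd54a)) (c (p (nat_lit 0x4427e50)) e))) (c (c (m (nat_lit 0x77382ea)) (c (p (nat_lit 0x32ad3c8)) e)) (c
  (c (m (nat_lit 0x1d9adc8)) e) e))) (c (c (c (p (nat_lit 0xb76e2fe)) (c (p (nat_lit 0x197e470)) e)) (c (c (m
  (nat_lit 0x251b2c0)) e) e)) (c (c (c (m (nat_lit 0x2934ab0)) e) e) e))) (c (c (c (c (m (nat_lit 0x40df448))
  (c (p (nat_lit 0x29bb258)) e)) (c (c (p (nat_lit 0x32ad3c8)) e) e)) (c (c (c (m (nat_lit 0xf47ec8)) e) e)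
  e)) e)) (c (c (c (c (c (m (nat_lit 0x2f57370)) (c (p (nat_lit 0x2b01e8)) e)) (c (c (m (nat_lit 0x1d9adc8))
  e) e)) (c (c (c (m (nat_lit 0x2f6658)) e) e) e)) e) e))) (c (c (c (c (c (c (m (nat_lit 0x9d07724)) (c (m
  (nat_lit 0x259dbd4)) (c (m (nat_lit 0x133338)) e))) (c (c (p (nat_lit 0xb76e2fe)) (c (m (nat_lit 0xf47ec8))
  e)) (c (c (m (nat_lit 0x2f6658)) e) e))) (c (c (c (p (nat_lit 0x220c85d6)) (c (m (nat_lit 0x2da7550)) e))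
  (c (c (m (nat_lit 0x4b7f200)) e) e)) (c (c (c (m (nat_lit 0x60dfb18)) e) e) e))) (c (c (c (c (m (nat_lit
  0x5e020c0)) (c (p (nat_lit 0x4388358)) e)) (c (c (p (nat_lit 0x197e470)) e) e)) (c (c (c (m (nat_lit
  0x2da7550)) e) e) e)) e)) (c (c (c (c (c (p (nat_lit 0x776aeb8)) (c (m (nat_lit 0x4319d90)) e)) (c (c (m
  (nat_lit 0x251b2c0)) e) e)) (c (c (c (m (nat_lit 0x4b7f200)) e) e) e)) e) e)) (c (c (c (c (c (c (p (nat_lit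
  0x1e1fda0)) (c (p (nat_lit 0x3044d60)) e)) (c (c (m (nat_lit 0x2934ab0)) e) e)) (c (c (c (m (nat_lit
  0x60dfb18)) e) e) e)) e) e) e))) (c (c (c (c (c (c (c (p (nat_lit 0x44f2df40)) (c (m (nat_lit 0x2b0eba36))
  (c (p (nat_lit 0x55ad4b0)) e))) (c (c (m (nat_lit 0xe69f796)) (c (p (nat_lit 0x35585a0)) e)) (c (c (p
  (nat_lit 0x4855bd8)) e) e))) (c (c (c (p (nat_lit 0x6eaf60c)) (c (m (nat_lit 0x46d7d8)) e)) (c (c (m
  (nat_lit 0x107c1d8)) e) e)) (c (c (c (m (nat_lit 0x2547d38)) e) e) e))) (c (c (c (c (m (nat_lit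
  0x2b0eba36)) (c (p (nat_lit 0x14a9804c)) e)) (c (c (p (nat_lit 0x5a4f40a)) e) e)) (c (c (c (p (nat_lit
  0x293fd3c)) e) e) e)) (c (c (c (c (p (nat_lit 0x55ad4b0)) e) e) e) e))) (c (c (c (c (c (m (nat_lit
  0xe69f796)) (c (p (nat_lit 0x5a4f40a)) e)) (c (c (p (nat_lit 0xa0a534a)) e) e)) (c (c (c (m (nat_lit
  0x35087be)) e) e) e)) (c (c (c (c (p (nat_lit 0x35585a0)) e) e) e) e)) (c (c (c (c (c (p (nat_lit
  0x4855bd8)) e) e) e) e) e))) (c (c (c (c (c (c (p (nat_lit 0x6eaf60c)) (c (p (nat_lit 0x293fd3c)) e)) (c (c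
  (m (nat_lit 0x35087be)) e) e)) (c (c (c (m (nat_lit 0xb027916)) e) e) e)) (c (c (c (c (m (nat_lit
  0x46d7d8)) e) e) e) e)) (c (c (c (c (c (m (nat_lit 0x107c1d8)) e) e) e) e) e)) (c (c (c (c (c (c (m
  (nat_lit 0x2547d38)) e) e) e) e) e) e))) (c (c (c (c (c (c (c (m (nat_lit 0x15cd10c4)) (c (p (nat_lit
  0x49420bc)) e)) (c (c (p (nat_lit 0x19f2f72)) e) e)) (c (c (c (m (nat_lit 0x39a6740)) e) e) e)) (c (c (c (c
  (p (nat_lit 0x49420bc)) e) e) e) e)) (c (c (c (c (c (p (nat_lit 0x19f2f72)) e) e) e) e) e)) (c (c (c (c (c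
  (c (m (nat_lit 0x39a6740)) e) e) e) e) e) e)) (c (c (c (c (c (c (c (m (nat_lit 0x7ed7a0)) e) e) e) e) e) e)
  e))))) (c (c (c (c (c (c (c (c (p (nat_lit 0x2e671be8)) (c (p (nat_lit 0x17ec287c)) (c (m (nat_lit
  0x6935ca0)) e))) (c (c (p (nat_lit 0x1232eae8)) (c (m (nat_lit 0x4a91ac8)) e)) (c (c (m (nat_lit
  0xab7c2f0)) e) e))) (c (c (c (m (nat_lit 0x22d8dee0)) (c (m (nat_lit 0x73c890)) e)) (c (c (m (nat_lit
  0x2661a38)) e) e)) (c (c (c (p (nat_lit 0x1170060)) e) e) e))) (c (c (c (c (p (nat_lit 0x17ec287c)) (c (m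
  (nat_lit 0x36e2ab2)) (c (p (nat_lit 0x13dea70)) e))) (c (c (m (nat_lit 0x33c243c)) (c (m (nat_lit
  0x14815c8)) e)) (c (c (p (nat_lit 0xe993d0)) e) e))) (c (c (c (m (nat_lit 0x4b7bb8e)) (c (p (nat_lit
  0x9be068)) e)) (c (c (p (nat_lit 0xbbce48)) e) e)) (c (c (c (p (nat_lit 0x1da55b0)) e) e) e))) (c (c (c (c
  (m (nat_lit 0x6935ca0)) (c (p (nat_lit 0x13dea70)) e)) (c (c (m (nat_lit 0x452e68)) e) e)) (c (c (c (m
  (nat_lit 0x10ae548)) e) e) e)) e))) (c (c (c (c (c (p (nat_lit 0x1232eae8)) (c (m (nat_lit 0x33c243c)) (c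
  (m (nat_lit 0x452e68)) e))) (c (c (p (nat_lit 0x10f8aaf4)) (c (m (nat_lit 0x124c950)) e)) (c (c (m (nat_lit
  0x4192c8)) e) e))) (c (c (c (m (nat_lit 0x6b290b0)) (c (m (nat_lit 0x957d8)) e)) (c (c (m (nat_lit
  0x2d08e68)) e) e)) (c (c (c (p (nat_lit 0xbe2120)) e) e) e))) (c (c (c (c (m (nat_lit 0x4a91ac8)) (c (m
  (nat_lit 0x14815c8)) e)) (c (c (m (nat_lit 0x124c950)) e) e)) (c (c (c (p (nat_lit 0x193ad00)) e) e) e))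
  e)) (c (c (c (c (c (m (nat_lit 0xab7c2f0)) (c (p (nat_lit 0xe993d0)) e)) (c (c (m (nat_lit 0x4192c8)) e)
  e)) (c (c (c (p (nat_lit 0x2653fe0)) e) e) e)) e) e))) (c (c (c (c (c (c (m (nat_lit 0x22d8dee0)) (c (m
  (nat_lit 0x4b7bb8e)) (c (m (nat_lit 0x10ae548)) e))) (c (c (m (nat_lit 0x6b290b0)) (c (p (nat_lit
  0x193ad00)) e)) (c (c (p (nat_lit 0x2653fe0)) e) e))) (c (c (c (p (nat_lit 0xfadd6a8)) (c (p (nat_lit
  0x37db98)) e)) (c (c (p (nat_lit 0x1630170)) e) e)) (c (c (c (p (nat_lit 0x1c5dcf8)) e) e) e))) (c (c (c (c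
  (m (nat_lit 0x73c890)) (c (p (nat_lit 0x9be068)) e)) (c (c (m (nat_lit 0x957d8)) e) e)) (c (c (c (p
  (nat_lit 0x37db98)) e) e) e)) e)) (c (c (c (c (c (m (nat_lit 0x2661a38)) (c (p (nat_lit 0xbbce48)) e)) (c
  (c (m (nat_lit 0x2d08e68)) e) e)) (c (c (c (p (nat_lit 0x1630170)) e) e) e)) e) e)) (c (c (c (c (c (c (p
  (nat_lit 0x1170060)) (c (p (nat_lit 0x1da55b0)) e)) (c (c (p (nat_lit 0xbe2120)) e) e)) (c (c (c (p
  (nat_lit 0x1c5dcf8)) e) e) e)) e) e) e))) (c (c (c (c (c (c (c (p (nat_lit 0x11e5fb2e)) (c (m (nat_lit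
  0x196913ee)) (c (p (nat_lit 0x4524990)) e))) (c (c (p (nat_lit 0x8b0176)) (c (m (nat_lit 0x1a2d790)) e)) (c
  (c (p (nat_lit 0x66c528)) e) e))) (c (c (c (p (nat_lit 0xbc28522)) (c (p (nat_lit 0x145308)) e)) (c (c (p
  (nat_lit 0x5f97d8)) e) e)) (c (c (c (m (nat_lit 0x2502bb8)) e) e) e))) (c (c (c (c (m (nat_lit 0x196913ee))
  (c (m (nat_lit 0x2bd2398)) e)) (c (c (m (nat_lit 0x283e93c)) e) e)) (c (c (c (p (nat_lit 0x1d409ea)) e) e)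
  e)) (c (c (c (c (p (nat_lit 0x4524990)) e) e) e) e))) (c (c (c (c (c (p (nat_lit 0x8b0176)) (c (m (nat_lit
  0x283e93c)) e)) (c (c (m (nat_lit 0xe3c364)) e) e)) (c (c (c (p (nat_lit 0xe6463c)) e) e) e)) (c (c (c (c
  (m (nat_lit 0x1a2d790)) e) e) e) e)) (c (c (c (c (c (p (nat_lit 0x66c528)) e) e) e) e) e))) (c (c (c (c (c
  (c (p (nat_lit 0xbc28522)) (c (p (nat_lit 0x1d409ea)) e)) (c (c (p (nat_lit 0xe6463c)) e) e)) (c (c (c (m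
  (nat_lit 0x9913e72)) e) e) e)) (c (c (c (c (p (nat_lit 0x145308)) e) e) e) e)) (c (c (c (c (c (p (nat_lit
  0x5f97d8)) e) e) e) e) e)) (c (c (c (c (c (c (m (nat_lit 0x2502bb8)) e) e) e) e) e) e))) (c (c (c (c (c (c
  (c (m (nat_lit 0xa65d524)) (c (p (nat_lit 0x4e81a44)) e)) (c (c (p (nat_lit 0xe887e)) e) e)) (c (c (c (p
  (nat_lit 0x299d456)) e) e) e)) (c (c (c (c (p (nat_lit 0x4e81a44)) e) e) e) e)) (c (c (c (c (c (p (nat_lit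
  0xe887e)) e) e) e) e) e)) (c (c (c (c (c (c (p (nat_lit 0x299d456)) e) e) e) e) e) e)) (c (c (c (c (c (c (c
  (p (nat_lit 0x1dc9688)) e) e) e) e) e) e) e)))) (c (c (c (c (c (c (c (c (m (nat_lit 0x12241c7a)) (c (m
  (nat_lit 0xf9def60)) (c (p (nat_lit 0x46f4a90)) e))) (c (c (m (nat_lit 0xf06de54)) (c (p (nat_lit
  0x241dc28)) e)) (c (c (p (nat_lit 0x2f4d740)) e) e))) (c (c (c (p (nat_lit 0x13375542)) (c (m (nat_lit
  0x67a460)) e)) (c (c (p (nat_lit 0x1a7660)) e) e)) (c (c (c (p (nat_lit 0x1babe10)) e) e) e))) (c (c (c (c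
  (m (nat_lit 0xf9def60)) (c (p (nat_lit 0x5283af2)) e)) (c (c (p (nat_lit 0x1389cf0)) e) e)) (c (c (c (p
  (nat_lit 0x3803f4)) e) e) e)) (c (c (c (c (p (nat_lit 0x46f4a90)) e) e) e) e))) (c (c (c (c (c (m (nat_lit
  0xf06de54)) (c (p (nat_lit 0x1389cf0)) e)) (c (c (m (nat_lit 0x28db530)) e) e)) (c (c (c (p (nat_lit
  0xea1e54)) e) e) e)) (c (c (c (c (p (nat_lit 0x241dc28)) e) e) e) e)) (c (c (c (c (c (p (nat_lit
  0x2f4d740)) e) e) e) e) e))) (c (c (c (c (c (c (p (nat_lit 0x13375542)) (c (p (nat_lit 0x3803f4)) e)) (c (c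
  (p (nat_lit 0xea1e54)) e) e)) (c (c (c (m (nat_lit 0x8d89aae)) e) e) e)) (c (c (c (c (m (nat_lit 0x67a460))
  e) e) e) e)) (c (c (c (c (c (p (nat_lit 0x1a7660)) e) e) e) e) e)) (c (c (c (c (c (c (p (nat_lit
  0x1babe10)) e) e) e) e) e) e))) (c (c (c (c (c (c (c (m (nat_lit 0x104b6080)) (c (p (nat_lit 0x6b699dc))
  e)) (c (c (p (nat_lit 0x1023a44)) e) e)) (c (c (c (p (nat_lit 0x2f7258)) e) e) e)) (c (c (c (c (p (nat_lit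
  0x6b699dc)) e) e) e) e)) (c (c (c (c (c (p (nat_lit 0x1023a44)) e) e) e) e) e)) (c (c (c (c (c (c (p
  (nat_lit 0x2f7258)) e) e) e) e) e) e)) (c (c (c (c (c (c (c (m (nat_lit 0x1db9cb0)) e) e) e) e) e) e) e)))
  (c (c (c (c (c (c (c (c (p (nat_lit 0x3289680)) (c (p (nat_lit 0x206d32a)) e)) (c (c (p (nat_lit
  0x75b5be4)) e) e)) (c (c (c (p (nat_lit 0xcf643e)) e) e) e)) (c (c (c (c (p (nat_lit 0x206d32a)) e) e) e)
  e)) (c (c (c (c (c (p (nat_lit 0x75b5be4)) e) e) e) e) e)) (c (c (c (c (c (c (p (nat_lit 0xcf643e)) e) e)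
  e) e) e) e)) (c (c (c (c (c (c (c (m (nat_lit 0x149c5bc)) e) e) e) e) e) e) e)) (c (c (c (c (c (c (c (c (m
  (nat_lit 0x3029814)) e) e) e) e) e) e) e) e))))) (c (c (c (c (c (c (c (c (c (m (nat_lit 0x63df860)) (c (p
  (nat_lit 0x4e7fa28)) (c (m (nat_lit 0x3468c30)) e))) (c (c (m (nat_lit 0x2683f68)) (c (p (nat_lit
  0xe8d538)) e)) (c (c (m (nat_lit 0x2edd630)) e) e))) (c (c (c (p (nat_lit 0xe4864c0)) (c (p (nat_lit
  0x15320b8)) e)) (c (c (p (nat_lit 0x14116c8)) e) e)) (c (c (c (m (nat_lit 0x73b16f8)) e) e) e))) (c (c (c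
  (c (p (nat_lit 0x4e7fa28)) (c (m (nat_lit 0x3a5d8f0)) (c (p (nat_lit 0x2730138)) e))) (c (c (p (nat_lit
  0x27bc7f0)) (c (m (nat_lit 0x260f808)) e)) (c (c (p (nat_lit 0x6e43c0)) e) e))) (c (c (c (p (nat_lit
  0x183e3a0)) (c (m (nat_lit 0x3287a18)) e)) (c (c (m (nat_lit 0x133c368)) e) e)) (c (c (c (m (nat_lit
  0x7eafb0)) e) e) e))) (c (c (c (c (m (nat_lit 0x3468c30)) (c (p (nat_lit 0x2730138)) e)) (c (c (p (nat_lit
  0x1b8d738)) e) e)) (c (c (c (m (nat_lit 0x461aa8)) e) e) e)) e))) (c (c (c (c (c (m (nat_lit 0x2683f68)) (c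
  (p (nat_lit 0x27bc7f0)) (c (p (nat_lit 0x1b8d738)) e))) (c (c (m (nat_lit 0x9de0f00)) (c (m (nat_lit
  0x309600)) e)) (c (c (m (nat_lit 0x1e42108)) e) e))) (c (c (c (p (nat_lit 0xa5bd1c8)) (c (m (nat_lit
  0x174f3f0)) e)) (c (c (p (nat_lit 0x58e060)) e) e)) (c (c (c (m (nat_lit 0x69a61e8)) e) e) e))) (c (c (c (c
  (p (nat_lit 0xe8d538)) (c (m (nat_lit 0x260f808)) e)) (c (c (m (nat_lit 0x309600)) e) e)) (c (c (c (m
  (nat_lit 0x293bbd8)) e) e) e)) e)) (c (c (c (c (c (m (nat_lit 0x2edd630)) (c (p (nat_lit 0x6e43c0)) e)) (c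
  (c (m (nat_lit 0x1e42108)) e) e)) (c (c (c (p (nat_lit 0x1929708)) e) e) e)) e) e))) (c (c (c (c (c (c (p
  (nat_lit 0xe4864c0)) (c (p (nat_lit 0x183e3a0)) (c (m (nat_lit 0x461aa8)) e))) (c (c (p (nat_lit
  0xa5bd1c8)) (c (m (nat_lit 0x293bbd8)) e)) (c (c (p (nat_lit 0x1929708)) e) e))) (c (c (c (m (nat_lit
  0xd6f5660)) (c (m (nat_lit 0x1dc9b80)) e)) (c (c (p (nat_lit 0x414a380)) e) e)) (c (c (c (p (nat_lit
  0x1aa9d68)) e) e) e))) (c (c (c (c (p (nat_lit 0x15320b8)) (c (m (nat_lit 0x3287a18)) e)) (c (c (m (nat_lit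
  0x174f3f0)) e) e)) (c (c (c (m (nat_lit 0x1dc9b80)) e) e) e)) e)) (c (c (c (c (c (p (nat_lit 0x14116c8)) (c
  (m (nat_lit 0x133c368)) e)) (c (c (p (nat_lit 0x58e060)) e) e)) (c (c (c (p (nat_lit 0x414a380)) e) e) e))
  e) e)) (c (c (c (c (c (c (m (nat_lit 0x73b16f8)) (c (m (nat_lit 0x7eafb0)) e)) (c (c (m (nat_lit
  0x69a61e8)) e) e)) (c (c (c (p (nat_lit 0x1aa9d68)) e) e) e)) e) e) e))) (c (c (c (c (c (c (c (p (nat_lit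
  0xbc45850)) (c (m (nat_lit 0x701d96c)) (c (p (nat_lit 0x165cd8)) e))) (c (c (p (nat_lit 0x738a632)) (c (m
  (nat_lit 0x16b69c0)) e)) (c (c (m (nat_lit 0x151cd88)) e) e))) (c (c (c (m (nat_lit 0x5f1252c)) (c (p
  (nat_lit 0x20b5af8)) e)) (c (c (m (nat_lit 0x1a334a8)) e) e)) (c (c (c (p (nat_lit 0xe9eff8)) e) e) e))) (c
  (c (c (c (m (nat_lit 0x701d96c)) (c (p (nat_lit 0x3d856a0)) e)) (c (c (m (nat_lit 0x7c2648)) e) e)) (c (c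
  (c (m (nat_lit 0x18d9ae8)) e) e) e)) (c (c (c (c (p (nat_lit 0x165cd8)) e) e) e) e))) (c (c (c (c (c (p
  (nat_lit 0x738a632)) (c (m (nat_lit 0x7c2648)) e)) (c (c (m (nat_lit 0x7c0710)) e) e)) (c (c (c (m (nat_lit
  0x27c3498)) e) e) e)) (c (c (c (c (m (nat_lit 0x16b69c0)) e) e) e) e)) (c (c (c (c (c (m (nat_lit
  0x151cd88)) e) e) e) e) e))) (c (c (c (c (c (c (m (nat_lit 0x5f1252c)) (c (m (nat_lit 0x18d9ae8)) e)) (c (c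
  (m (nat_lit 0x27c3498)) e) e)) (c (c (c (p (nat_lit 0xbf57d0)) e) e) e)) (c (c (c (c (p (nat_lit
  0x20b5af8)) e) e) e) e)) (c (c (c (c (c (m (nat_lit 0x1a334a8)) e) e) e) e) e)) (c (c (c (c (c (c (p
  (nat_lit 0xe9eff8)) e) e) e) e) e) e))) (c (c (c (c (c (c (c (m (nat_lit 0x1e6a0e24)) (c (p (nat_lit
  0x22b9cc)) e)) (c (c (m (nat_lit 0x3070b72)) e) e)) (c (c (c (p (nat_lit 0x355f8b4)) e) e) e)) (c (c (c (c
  (p (nat_lit 0x22b9cc)) e) e) e) e)) (c (c (c (c (c (m (nat_lit 0x3070b72)) e) e) e) e) e)) (c (c (c (c (c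
  (c (p (nat_lit 0x355f8b4)) e) e) e) e) e) e)) (c (c (c (c (c (c (c (p (nat_lit 0x30611f4)) e) e) e) e) e)
  e) e)))) (c (c (c (c (c (c (c (c (p (nat_lit 0x10d0dedc)) (c (m (nat_lit 0xa923756)) (c (m (nat_lit
  0x18453f0)) e))) (c (c (p (nat_lit 0x275022)) (c (p (nat_lit 0x1055550)) e)) (c (c (p (nat_lit 0x5b1df0))
  e) e))) (c (c (c (m (nat_lit 0x46b1206)) (c (p (nat_lit 0x17a6810)) e)) (c (c (m (nat_lit 0x11daad0)) e)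
  e)) (c (c (c (m (nat_lit 0x14753e8)) e) e) e))) (c (c (c (c (m (nat_lit 0xa923756)) (c (p (nat_lit
  0x57810)) e)) (c (c (m (nat_lit 0x12266b8)) e) e)) (c (c (c (p (nat_lit 0x546b58)) e) e) e)) (c (c (c (c (m
  (nat_lit 0x18453f0)) e) e) e) e))) (c (c (c (c (c (p (nat_lit 0x275022)) (c (m (nat_lit 0x12266b8)) e)) (c
  (c (m (nat_lit 0x3f14760)) e) e)) (c (c (c (m (nat_lit 0x4de9098)) e) e) e)) (c (c (c (c (p (nat_lit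
  0x1055550)) e) e) e) e)) (c (c (c (c (c (p (nat_lit 0x5b1df0)) e) e) e) e) e))) (c (c (c (c (c (c (m
  (nat_lit 0x46b1206)) (c (p (nat_lit 0x546b58)) e)) (c (c (m (nat_lit 0x4de9098)) e) e)) (c (c (c (p
  (nat_lit 0x1b6060)) e) e) e)) (c (c (c (c (p (nat_lit 0x17a6810)) e) e) e) e)) (c (c (c (c (c (m (nat_lit
  0x11daad0)) e) e) e) e) e)) (c (c (c (c (c (c (m (nat_lit 0x14753e8)) e) e) e) e) e) e))) (c (c (c (c (c (c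
  (c (p (nat_lit 0x5777958)) (c (p (nat_lit 0x36d3158)) e)) (c (c (m (nat_lit 0x211dffa)) e) e)) (c (c (c (m
  (nat_lit 0x203afe4)) e) e) e)) (c (c (c (c (p (nat_lit 0x36d3158)) e) e) e) e)) (c (c (c (c (c (m (nat_lit
  0x211dffa)) e) e) e) e) e)) (c (c (c (c (c (c (m (nat_lit 0x203afe4)) e) e) e) e) e) e)) (c (c (c (c (c (c
  (c (m (nat_lit 0x3429e04)) e) e) e) e) e) e) e))) (c (c (c (c (c (c (c (c (m (nat_lit 0x114085c8)) (c (m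
  (nat_lit 0x1568aea)) e)) (c (c (m (nat_lit 0x14c2bc0)) e) e)) (c (c (c (p (nat_lit 0x46cab2)) e) e) e)) (c
  (c (c (c (m (nat_lit 0x1568aea)) e) e) e) e)) (c (c (c (c (c (m (nat_lit 0x14c2bc0)) e) e) e) e) e)) (c (c
  (c (c (c (c (p (nat_lit 0x46cab2)) e) e) e) e) e) e)) (c (c (c (c (c (c (c (p (nat_lit 0x161460)) e) e) e)
  e) e) e) e)) (c (c (c (c (c (c (c (c (m (nat_lit 0x1f04fe8)) e) e) e) e) e) e) e) e)))) (c (c (c (c (c (c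
  (c (c (c (p (nat_lit 0x1ec07608)) (c (m (nat_lit 0xf15e3d0)) (c (p (nat_lit 0x4044ca8)) e))) (c (c (m
  (nat_lit 0x2fcc850)) (c (p (nat_lit 0x1ad8070)) e)) (c (c (p (nat_lit 0x2ce51e0)) e) e))) (c (c (c (m
  (nat_lit 0xe2a2ab8)) (c (m (nat_lit 0x37b6d8)) e)) (c (c (m (nat_lit 0x3923cd0)) e) e)) (c (c (c (p
  (nat_lit 0x2a69fa8)) e) e) e))) (c (c (c (c (m (nat_lit 0xf15e3d0)) (c (p (nat_lit 0xf2b5018)) e)) (c (c (p
  (nat_lit 0x13f140)) e) e)) (c (c (c (p (nat_lit 0x5178390)) e) e) e)) (c (c (c (c (p (nat_lit 0x4044ca8))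
  e) e) e) e))) (c (c (c (c (c (m (nat_lit 0x2fcc850)) (c (p (nat_lit 0x13f140)) e)) (c (c (p (nat_lit
  0xf3e2068)) e) e)) (c (c (c (p (nat_lit 0x5c0d1e0)) e) e) e)) (c (c (c (c (p (nat_lit 0x1ad8070)) e) e) e)
  e)) (c (c (c (c (c (p (nat_lit 0x2ce51e0)) e) e) e) e) e))) (c (c (c (c (c (c (m (nat_lit 0xe2a2ab8)) (c (p
  (nat_lit 0x5178390)) e)) (c (c (p (nat_lit 0x5c0d1e0)) e) e)) (c (c (c (p (nat_lit 0x103d0fd0)) e) e) e))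
  (c (c (c (c (m (nat_lit 0x37b6d8)) e) e) e) e)) (c (c (c (c (c (m (nat_lit 0x3923cd0)) e) e) e) e) e)) (c
  (c (c (c (c (c (p (nat_lit 0x2a69fa8)) e) e) e) e) e) e))) (c (c (c (c (c (c (c (m (nat_lit 0xcb108ee)) (c
  (p (nat_lit 0xe43ca8)) e)) (c (c (p (nat_lit 0x337fc50)) e) e)) (c (c (c (m (nat_lit 0x1c8a548)) e) e) e))
  (c (c (c (c (p (nat_lit 0xe43ca8)) e) e) e) e)) (c (c (c (c (c (p (nat_lit 0x337fc50)) e) e) e) e) e)) (c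
  (c (c (c (c (c (m (nat_lit 0x1c8a548)) e) e) e) e) e) e)) (c (c (c (c (c (c (c (p (nat_lit 0xfb55546)) e)
  e) e) e) e) e) e))) (c (c (c (c (c (c (c (c (p (nat_lit 0x7e9c23a)) (c (p (nat_lit 0x16f36c8)) e)) (c (c (p
  (nat_lit 0x50cc88)) e) e)) (c (c (c (m (nat_lit 0x3b53e0)) e) e) e)) (c (c (c (c (p (nat_lit 0x16f36c8)) e)
  e) e) e)) (c (c (c (c (c (p (nat_lit 0x50cc88)) e) e) e) e) e)) (c (c (c (c (c (c (m (nat_lit 0x3b53e0)) e)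
  e) e) e) e) e)) (c (c (c (c (c (c (c (m (nat_lit 0x12d7010)) e) e) e) e) e) e) e)) (c (c (c (c (c (c (c (c
  (p (nat_lit 0x9b908ce)) e) e) e) e) e) e) e) e))) (c (c (c (c (c (c (c (c (c (m (nat_lit 0x1342a2e0)) (c (m
  (nat_lit 0x1316580)) e)) (c (c (m (nat_lit 0x55b9e58)) e) e)) (c (c (c (m (nat_lit 0x466c638)) e) e) e)) (c
  (c (c (c (m (nat_lit 0x1316580)) e) e) e) e)) (c (c (c (c (c (m (nat_lit 0x55b9e58)) e) e) e) e) e)) (c (c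
  (c (c (c (c (m (nat_lit 0x466c638)) e) e) e) e) e) e)) (c (c (c (c (c (c (c (p (nat_lit 0x2d7b5d0)) e) e)
  e) e) e) e) e)) (c (c (c (c (c (c (c (c (m (nat_lit 0x269ff70)) e) e) e) e) e) e) e) e)) (c (c (c (c (c (c
  (c (c (c (p (nat_lit 0x10e09d08)) e) e) e) e) e) e) e) e) e)))))

noncomputable def gt_1_6_7 : Tr :=
  (c (c (c (c (c (c (c (c (c (m (nat_lit 0x4a1c2e8)) (c (p (nat_lit 0x4cb318)) (c (p (nat_lit 0x1421850))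
  e))) (c (c (m (nat_lit 0x265def8)) (c (m (nat_lit 0x2255fe8)) e)) (c (c (p (nat_lit 0x2338e90)) e) e))) (c
  (c (c (p (nat_lit 0x19ebc88)) (c (m (nat_lit 0x10c9c8)) e)) (c (c (m (nat_lit 0xf0fa50)) e) e)) (c (c (c (m
  (nat_lit 0x1926360)) e) e) e))) (c (c (c (c (p (nat_lit 0x81c0768)) (c (m (nat_lit 0x43bb580)) (c (p
  (nat_lit 0x30c8100)) e))) (c (c (p (nat_lit 0x4d5c488)) (c (p (nat_lit 0x232ac58)) e)) (c (c (m (nat_lit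
  0x1df9f70)) e) e))) (c (c (c (m (nat_lit 0x1a96280)) (c (m (nat_lit 0x25d0a90)) e)) (c (c (p (nat_lit
  0xa21aa0)) e) e)) (c (c (c (p (nat_lit 0x8f85a8)) e) e) e))) (c (c (c (c (m (nat_lit 0x3010e18)) (c (p
  (nat_lit 0x3a094e8)) (c (m (nat_lit 0x25c7988)) e))) (c (c (m (nat_lit 0xc80130)) (c (p (nat_lit
  0x116b0b0)) e)) (c (c (p (nat_lit 0x260e3b0)) e) e))) (c (c (c (p (nat_lit 0x17a86a0)) (c (p (nat_lit
  0x16db710)) e)) (c (c (m (nat_lit 0x17bfe0)) e) e)) (c (c (c (p (nat_lit 0x14daf20)) e) e) e))) e))) (c (c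
  (c (c (c (p (nat_lit 0xbbf8678)) (c (m (nat_lit 0x237acf8)) (c (p (nat_lit 0x474cf0)) e))) (c (c (m
  (nat_lit 0x3b63148)) (c (p (nat_lit 0x363d4a0)) e)) (c (c (m (nat_lit 0x140dd80)) e) e))) (c (c (c (m
  (nat_lit 0x49e9900)) (c (m (nat_lit 0x2cfb3e0)) e)) (c (c (m (nat_lit 0x7bfee8)) e) e)) (c (c (c (p
  (nat_lit 0x1db8108)) e) e) e))) (c (c (c (c (m (nat_lit 0x5260368)) (c (p (nat_lit 0xdb2118)) (c (m
  (nat_lit 0x4eebc8)) e))) (c (c (m (nat_lit 0x649d40)) (c (m (nat_lit 0xe4a1d0)) e)) (c (c (p (nat_lit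
  0xaf13a0)) e) e))) (c (c (c (p (nat_lit 0x2d43d58)) (c (p (nat_lit 0x1291830)) e)) (c (c (p (nat_lit
  0xd57a28)) e) e)) (c (c (c (m (nat_lit 0x1c72710)) e) e) e))) e)) (c (c (c (c (c (m (nat_lit 0x3a7ecb0)) (c
  (p (nat_lit 0x9866a0)) (c (p (nat_lit 0xc6a0f8)) e))) (c (c (m (nat_lit 0x1a3caa8)) (c (m (nat_lit
  0x1717e78)) e)) (c (c (p (nat_lit 0x2bb8ee0)) e) e))) (c (c (c (p (nat_lit 0x31a8c80)) (c (p (nat_lit
  0x118adc0)) e)) (c (c (m (nat_lit 0x1c1e488)) e) e)) (c (c (c (m (nat_lit 0x17911e0)) e) e) e))) e) e))) (c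
  (c (c (c (c (c (m (nat_lit 0x2aa3ae8)) (c (p (nat_lit 0x57e98c8)) (c (m (nat_lit 0x7eea930)) e))) (c (c (p
  (nat_lit 0xa492140)) (c (p (nat_lit 0x2119bd8)) e)) (c (c (m (nat_lit 0x5242d70)) e) e))) (c (c (c (p
  (nat_lit 0x112e18)) (c (p (nat_lit 0x60a3230)) e)) (c (c (p (nat_lit 0x2470ff8)) e) e)) (c (c (c (p
  (nat_lit 0x43682b8)) e) e) e))) (c (c (c (c (m (nat_lit 0x2ac7e0)) (c (m (nat_lit 0x991e60)) (c (p (nat_lit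
  0x8c5110)) e))) (c (c (m (nat_lit 0xdf31a0)) (c (m (nat_lit 0xaa2ea8)) e)) (c (c (m (nat_lit 0x8026c8)) e)
  e))) (c (c (c (p (nat_lit 0x719fe8)) (c (p (nat_lit 0x95fe50)) e)) (c (c (p (nat_lit 0x8e1bc8)) e) e)) (c
  (c (c (m (nat_lit 0x811ef0)) e) e) e))) e)) (c (c (c (c (c (p (nat_lit 0x1e88ea8)) (c (m (nat_lit
  0x1780890)) (c (m (nat_lit 0x11ea190)) e))) (c (c (p (nat_lit 0x10fee28)) (c (p (nat_lit 0x1563840)) e)) (c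
  (c (m (nat_lit 0x3489510)) e) e))) (c (c (c (m (nat_lit 0x11a8730)) (c (p (nat_lit 0xefa3c0)) e)) (c (c (p
  (nat_lit 0x370f8f0)) e) e)) (c (c (c (p (nat_lit 0x1506558)) e) e) e))) e) e)) (c (c (c (c (c (c (p
  (nat_lit 0x62afc30)) (c (m (nat_lit 0x305a468)) (c (p (nat_lit 0xeab898)) e))) (c (c (m (nat_lit
  0x7e9fd20)) (c (p (nat_lit 0x10d9ad8)) e)) (c (c (m (nat_lit 0x29b3b0)) e) e))) (c (c (c (m (nat_lit
  0x3c44fb8)) (c (m (nat_lit 0x1ee2a88)) e)) (c (c (p (nat_lit 0xbc808)) e) e)) (c (c (c (m (nat_lit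
  0x341340)) e) e) e))) e) e) e))) (c (c (c (c (c (c (c (m (nat_lit 0x8cf1828)) (c (p (nat_lit 0x6c900)) (c
  (p (nat_lit 0x2cec038)) e))) (c (c (p (nat_lit 0x8b25fa6)) (c (m (nat_lit 0x1629f00)) e)) (c (c (m (nat_lit
  0x214620)) e) e))) (c (c (c (p (nat_lit 0x67748e8)) (c (m (nat_lit 0x4f6c4b8)) e)) (c (c (m (nat_lit
  0x233d0a8)) e) e)) (c (c (c (m (nat_lit 0x70f69e0)) e) e) e))) (c (c (c (c (m (nat_lit 0x5c5ce8a)) (c (p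
  (nat_lit 0xd3be16)) (c (p (nat_lit 0x116ce68)) e))) (c (c (p (nat_lit 0x128765a)) (c (m (nat_lit
  0x194cf58)) e)) (c (c (m (nat_lit 0xd2f828)) e) e))) (c (c (c (m (nat_lit 0xf5b6fe)) (c (p (nat_lit
  0x18296b8)) e)) (c (c (m (nat_lit 0x2e29f0)) e) e)) (c (c (c (p (nat_lit 0x16952d0)) e) e) e))) (c (c (c (c
  (p (nat_lit 0x5192a0)) (c (p (nat_lit 0x3c1ab8)) e)) (c (c (m (nat_lit 0x13bacc8)) e) e)) (c (c (c (m
  (nat_lit 0xb16db0)) e) e) e)) e))) (c (c (c (c (c (m (nat_lit 0xb66e4be)) (c (p (nat_lit 0x4a73bb8)) (c (m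
  (nat_lit 0x81bc58)) e))) (c (c (p (nat_lit 0x5601054)) (c (m (nat_lit 0xf78e28)) e)) (c (c (p (nat_lit
  0x10ef48)) e) e))) (c (c (c (m (nat_lit 0x14744be)) (c (p (nat_lit 0x4877b8)) e)) (c (c (p (nat_lit
  0xfda250)) e) e)) (c (c (c (p (nat_lit 0x12d2cf0)) e) e) e))) (c (c (c (c (p (nat_lit 0x3a79598)) (c (m
  (nat_lit 0x1bbe2d8)) e)) (c (c (m (nat_lit 0x1a8db80)) e) e)) (c (c (c (p (nat_lit 0x8a4968)) e) e) e)) e))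
  (c (c (c (c (c (p (nat_lit 0x3f89778)) (c (m (nat_lit 0x780d80)) e)) (c (c (m (nat_lit 0x1f8f0)) e) e)) (c
  (c (c (m (nat_lit 0x1f39f98)) e) e) e)) e) e))) (c (c (c (c (c (c (p (nat_lit 0x1c259b2)) (c (p (nat_lit
  0x290e392)) (c (p (nat_lit 0x1946118)) e))) (c (c (p (nat_lit 0x552fcde)) (c (m (nat_lit 0x148a010)) e)) (c
  (c (p (nat_lit 0x43b2ac0)) e) e))) (c (c (c (p (nat_lit 0x8813c9a)) (c (m (nat_lit 0x448578)) e)) (c (c (m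
  (nat_lit 0x1e936c0)) e) e)) (c (c (c (m (nat_lit 0x2c29560)) e) e) e))) (c (c (c (c (p (nat_lit 0xac3890))
  (c (p (nat_lit 0x18375f0)) e)) (c (c (m (nat_lit 0x6fd770)) e) e)) (c (c (c (m (nat_lit 0x1edfed8)) e) e)
  e)) e)) (c (c (c (c (c (m (nat_lit 0x11ded30)) (c (p (nat_lit 0x1690458)) e)) (c (c (p (nat_lit 0x14bba38))
  e) e)) (c (c (c (m (nat_lit 0x1e6d68)) e) e) e)) e) e)) (c (c (c (c (c (c (m (nat_lit 0x1db41a8)) (c (p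
  (nat_lit 0x426b880)) e)) (c (c (p (nat_lit 0x3ab00f0)) e) e)) (c (c (c (m (nat_lit 0x1e7b750)) e) e) e)) e)
  e) e))) (c (c (c (c (c (c (c (p (nat_lit 0x14199ae0)) (c (m (nat_lit 0x44aea)) (c (m (nat_lit 0x3daf028))
  e))) (c (c (m (nat_lit 0x61386de)) (c (p (nat_lit 0xf480a8)) e)) (c (c (m (nat_lit 0xe7ebf8)) e) e))) (c (c
  (c (m (nat_lit 0x7e5d9ba)) (c (p (nat_lit 0x32cb548)) e)) (c (c (p (nat_lit 0xc304e0)) e) e)) (c (c (c (p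
  (nat_lit 0x5a42870)) e) e) e))) (c (c (c (c (m (nat_lit 0x2f2a862)) (c (m (nat_lit 0x3086b26)) e)) (c (c (p
  (nat_lit 0x51634e)) e) e)) (c (c (c (p (nat_lit 0x1b2a126)) e) e) e)) (c (c (c (c (p (nat_lit 0x1313310))
  e) e) e) e))) (c (c (c (c (c (m (nat_lit 0xe56b78)) (c (m (nat_lit 0x1e33f00)) e)) (c (c (m (nat_lit
  0x19a58cc)) e) e)) (c (c (c (p (nat_lit 0x1a705be)) e) e) e)) (c (c (c (c (p (nat_lit 0x39a9980)) e) e) e)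
  e)) (c (c (c (c (c (p (nat_lit 0xd936e0)) e) e) e) e) e))) (c (c (c (c (c (c (m (nat_lit 0x7914be2)) (c (m
  (nat_lit 0x5d84a7a)) e)) (c (c (m (nat_lit 0x6a4a46e)) e) e)) (c (c (c (p (nat_lit 0x253006e)) e) e) e)) (c
  (c (c (c (p (nat_lit 0xa0bb88)) e) e) e) e)) (c (c (c (c (c (m (nat_lit 0x174f8b8)) e) e) e) e) e)) (c (c
  (c (c (c (c (m (nat_lit 0x2a0a098)) e) e) e) e) e) e))) (c (c (c (c (c (c (c (m (nat_lit 0xb04b892)) (c (p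
  (nat_lit 0x574aa)) e)) (c (c (m (nat_lit 0x781ec0)) e) e)) (c (c (c (m (nat_lit 0xf9490e)) e) e) e)) (c (c
  (c (c (p (nat_lit 0x2e23fc)) e) e) e) e)) (c (c (c (c (c (m (nat_lit 0xa4db82)) e) e) e) e) e)) (c (c (c (c
  (c (c (p (nat_lit 0x2392e00)) e) e) e) e) e) e)) (c (c (c (c (c (c (c (p (nat_lit 0x8ba096a)) e) e) e) e)
  e) e) e))))) (c (c (c (c (c (c (c (c (p (nat_lit 0x14672b7a)) (c (p (nat_lit 0x7e3d3c8)) (c (p (nat_lit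
  0x5b99f8)) e))) (c (c (p (nat_lit 0xbac6a26)) (c (m (nat_lit 0x5f5188)) e)) (c (c (m (nat_lit 0x59a49b0))
  e) e))) (c (c (c (m (nat_lit 0xc19ebee)) (c (m (nat_lit 0x48abb10)) e)) (c (c (m (nat_lit 0x18dbb40)) e)
  e)) (c (c (c (m (nat_lit 0x77760)) e) e) e))) (c (c (c (c (m (nat_lit 0x1b082bc)) (c (m (nat_lit 0xb0609a))
  (c (m (nat_lit 0xb06940)) e))) (c (c (m (nat_lit 0xa5669b4)) (c (p (nat_lit 0xbaf7b0)) e)) (c (c (m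
  (nat_lit 0xf73aa0)) e) e))) (c (c (c (p (nat_lit 0xfca6da)) (c (p (nat_lit 0xebdd00)) e)) (c (c (m (nat_lit
  0x331f08)) e) e)) (c (c (c (m (nat_lit 0x273ba0)) e) e) e))) (c (c (c (c (p (nat_lit 0x56dde30)) (c (m
  (nat_lit 0x1140ca8)) e)) (c (c (p (nat_lit 0x1901028)) e) e)) (c (c (c (m (nat_lit 0x1b6c7c8)) e) e) e))
  e))) (c (c (c (c (c (m (nat_lit 0x562b5a)) (c (p (nat_lit 0x759d500)) (c (p (nat_lit 0x41f0a0)) e))) (c (c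
  (p (nat_lit 0xd4f1db0)) (c (p (nat_lit 0x96108)) e)) (c (c (p (nat_lit 0x180bee0)) e) e))) (c (c (c (p
  (nat_lit 0x692549a)) (c (m (nat_lit 0xf30b88)) e)) (c (c (m (nat_lit 0xc0fb28)) e) e)) (c (c (c (m (nat_lit
  0x1818af8)) e) e) e))) (c (c (c (c (p (nat_lit 0x8ae40)) (c (p (nat_lit 0x42180)) e)) (c (c (m (nat_lit
  0x8a8658)) e) e)) (c (c (c (m (nat_lit 0x12ae810)) e) e) e)) e)) (c (c (c (c (c (m (nat_lit 0x45962d0)) (c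
  (m (nat_lit 0x1bae390)) e)) (c (c (p (nat_lit 0x1b52218)) e) e)) (c (c (c (m (nat_lit 0x5902b0)) e) e) e))
  e) e))) (c (c (c (c (c (c (p (nat_lit 0x12ab9a8)) (c (m (nat_lit 0x7393998)) (c (p (nat_lit 0x42d800)) e)))
  (c (c (m (nat_lit 0xa5cc29a)) (c (p (nat_lit 0x818c10)) e)) (c (c (p (nat_lit 0x5cb410)) e) e))) (c (c (c
  (p (nat_lit 0x4226d5a)) (c (p (nat_lit 0x8c6628)) e)) (c (c (p (nat_lit 0x14be9a8)) e) e)) (c (c (c (p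
  (nat_lit 0x62b1a0)) e) e) e))) (c (c (c (c (m (nat_lit 0x3d67298)) (c (p (nat_lit 0x272ec50)) e)) (c (c (m
  (nat_lit 0x757a58)) e) e)) (c (c (c (p (nat_lit 0x12f0d50)) e) e) e)) e)) (c (c (c (c (c (m (nat_lit
  0x6c9d38)) (c (m (nat_lit 0xb48d0)) e)) (c (c (m (nat_lit 0x1934e50)) e) e)) (c (c (c (p (nat_lit
  0x602c58)) e) e) e)) e) e)) (c (c (c (c (c (c (m (nat_lit 0x36c52c8)) (c (p (nat_lit 0x29b85d0)) e)) (c (c
  (p (nat_lit 0x28f7868)) e) e)) (c (c (c (p (nat_lit 0x28ddde0)) e) e) e)) e) e) e))) (c (c (c (c (c (c (c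
  (m (nat_lit 0x14d355da)) (c (m (nat_lit 0x26a1926)) (c (p (nat_lit 0x375d38)) e))) (c (c (m (nat_lit
  0x714c66)) (c (p (nat_lit 0xf533a0)) e)) (c (c (p (nat_lit 0x12010e0)) e) e))) (c (c (c (p (nat_lit
  0x437f3ac)) (c (p (nat_lit 0x13033e0)) e)) (c (c (p (nat_lit 0x1676568)) e) e)) (c (c (c (p (nat_lit
  0xbdf888)) e) e) e))) (c (c (c (c (m (nat_lit 0x686850)) (c (p (nat_lit 0x137b860)) e)) (c (c (p (nat_lit
  0x37a26e)) e) e)) (c (c (c (p (nat_lit 0x1117fce)) e) e) e)) (c (c (c (c (m (nat_lit 0x213afe0)) e) e) e)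
  e))) (c (c (c (c (c (p (nat_lit 0x19500ea)) (c (m (nat_lit 0x15b3e2)) e)) (c (c (m (nat_lit 0x311120a)) e)
  e)) (c (c (c (p (nat_lit 0x97799a)) e) e) e)) (c (c (c (c (m (nat_lit 0x1b1c758)) e) e) e) e)) (c (c (c (c
  (c (m (nat_lit 0x1476b88)) e) e) e) e) e))) (c (c (c (c (c (c (p (nat_lit 0x6a76868)) (c (p (nat_lit
  0x174a650)) e)) (c (c (p (nat_lit 0x1e0b5e0)) e) e)) (c (c (c (m (nat_lit 0x3316152)) e) e) e)) (c (c (c (c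
  (m (nat_lit 0x88f620)) e) e) e) e)) (c (c (c (c (c (p (nat_lit 0x57c9d8)) e) e) e) e) e)) (c (c (c (c (c (c
  (p (nat_lit 0x1f7a888)) e) e) e) e) e) e))) (c (c (c (c (c (c (c (p (nat_lit 0xa4359b6)) (c (p (nat_lit
  0x31a0ac0)) e)) (c (c (p (nat_lit 0x325bafe)) e) e)) (c (c (c (m (nat_lit 0x17854ce)) e) e) e)) (c (c (c (c
  (m (nat_lit 0x1d46486)) e) e) e) e)) (c (c (c (c (c (m (nat_lit 0x16c2c0c)) e) e) e) e) e)) (c (c (c (c (c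
  (c (m (nat_lit 0x4bc291c)) e) e) e) e) e) e)) (c (c (c (c (c (c (c (m (nat_lit 0x36a780e)) e) e) e) e) e)
  e) e)))) (c (c (c (c (c (c (c (c (m (nat_lit 0x3848e62)) (c (m (nat_lit 0x11313ea)) (c (m (nat_lit
  0xa7a780)) e))) (c (c (m (nat_lit 0x1315e348)) (c (p (nat_lit 0x16989f0)) e)) (c (c (p (nat_lit 0x1b05058))
  e) e))) (c (c (c (p (nat_lit 0x4d21c40)) (c (p (nat_lit 0x122aa80)) e)) (c (c (p (nat_lit 0x614e38)) e) e))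
  (c (c (c (m (nat_lit 0x6d4d90)) e) e) e))) (c (c (c (c (p (nat_lit 0x99aeb58)) (c (m (nat_lit 0x18a57e))
  e)) (c (c (p (nat_lit 0x59f230e)) e) e)) (c (c (c (p (nat_lit 0x91f260)) e) e) e)) (c (c (c (c (m (nat_lit
  0x3c0c750)) e) e) e) e))) (c (c (c (c (c (p (nat_lit 0x23d2eec)) (c (m (nat_lit 0x3d7dae6)) e)) (c (c (m
  (nat_lit 0x4ee7ace)) e) e)) (c (c (c (m (nat_lit 0x5f44d64)) e) e) e)) (c (c (c (c (m (nat_lit 0xbdbee0))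
  e) e) e) e)) (c (c (c (c (c (p (nat_lit 0x3b860b0)) e) e) e) e) e))) (c (c (c (c (c (c (m (nat_lit
  0x3da7372)) (c (p (nat_lit 0x2ab3298)) e)) (c (c (m (nat_lit 0xa7e90e)) e) e)) (c (c (c (m (nat_lit
  0x36fc390)) e) e) e)) (c (c (c (c (p (nat_lit 0xa70790)) e) e) e) e)) (c (c (c (c (c (p (nat_lit 0xfa83d8))
  e) e) e) e) e)) (c (c (c (c (c (c (p (nat_lit 0x20f2c08)) e) e) e) e) e) e))) (c (c (c (c (c (c (c (p
  (nat_lit 0x54dc344)) (c (m (nat_lit 0x46dab82)) e)) (c (c (m (nat_lit 0x1a133de)) e) e)) (c (c (c (m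
  (nat_lit 0x1dc9e8)) e) e) e)) (c (c (c (c (m (nat_lit 0x139289a)) e) e) e) e)) (c (c (c (c (c (p (nat_lit
  0x1ebcfdc)) e) e) e) e) e)) (c (c (c (c (c (c (p (nat_lit 0xd1ad50)) e) e) e) e) e) e)) (c (c (c (c (c (c
  (c (m (nat_lit 0x3f79caa)) e) e) e) e) e) e) e))) (c (c (c (c (c (c (c (c (m (nat_lit 0xac56ab0)) (c (p
  (nat_lit 0x1a10d2)) e)) (c (c (p (nat_lit 0xb4c5c58)) e) e)) (c (c (c (p (nat_lit 0x311dab0)) e) e) e)) (c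
  (c (c (c (m (nat_lit 0xe70654)) e) e) e) e)) (c (c (c (c (c (p (nat_lit 0x2c84034)) e) e) e) e) e)) (c (c
  (c (c (c (c (m (nat_lit 0x2e2509a)) e) e) e) e) e) e)) (c (c (c (c (c (c (c (p (nat_lit 0x6c98d54)) e) e)
  e) e) e) e) e)) (c (c (c (c (c (c (c (c (p (nat_lit 0x1f3adcc)) e) e) e) e) e) e) e) e))))) (c (c (c (c (c
  (c (c (c (c (p (nat_lit 0x14be048)) (c (p (nat_lit 0x532d658)) (c (m (nat_lit 0x1a46468)) e))) (c (c (p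
  (nat_lit 0x64a38c8)) (c (p (nat_lit 0x1b5bdd0)) e)) (c (c (m (nat_lit 0x6e5e1c8)) e) e))) (c (c (c (m
  (nat_lit 0xc0cd8)) (c (p (nat_lit 0xdef978)) e)) (c (c (p (nat_lit 0x28c03f8)) e) e)) (c (c (c (p (nat_lit
  0x2377ea8)) e) e) e))) (c (c (c (c (p (nat_lit 0xacfd2e0)) (c (p (nat_lit 0x19e23e8)) (c (m (nat_lit
  0xbd2fa0)) e))) (c (c (m (nat_lit 0x58711c8)) (c (p (nat_lit 0x2683110)) e)) (c (c (p (nat_lit 0xf7d508))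
  e) e))) (c (c (c (m (nat_lit 0x456a3b0)) (c (p (nat_lit 0xc18ff0)) e)) (c (c (p (nat_lit 0x15e730)) e) e))
  (c (c (c (p (nat_lit 0x195e808)) e) e) e))) (c (c (c (c (m (nat_lit 0xef1648)) (c (m (nat_lit 0x42d9dd0))
  e)) (c (c (p (nat_lit 0x867978)) e) e)) (c (c (c (p (nat_lit 0x1aa2730)) e) e) e)) e))) (c (c (c (c (c (m
  (nat_lit 0xc43c848)) (c (m (nat_lit 0x4e88f08)) (c (m (nat_lit 0xac55e8)) e))) (c (c (p (nat_lit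
  0x5b70fd0)) (c (m (nat_lit 0x1b6dba8)) e)) (c (c (m (nat_lit 0x10e8c28)) e) e))) (c (c (c (p (nat_lit
  0x4589f70)) (c (p (nat_lit 0xf7adf0)) e)) (c (c (m (nat_lit 0x48dae8)) e) e)) (c (c (c (m (nat_lit
  0x1367ca0)) e) e) e))) (c (c (c (c (p (nat_lit 0x3ea3750)) (c (p (nat_lit 0x3dda1f8)) e)) (c (c (m (nat_lit
  0x1d48838)) e) e)) (c (c (c (m (nat_lit 0x2376258)) e) e) e)) e)) (c (c (c (c (c (p (nat_lit 0x4504950)) (c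
  (p (nat_lit 0x1a10510)) e)) (c (c (m (nat_lit 0x11f9c28)) e) e)) (c (c (c (p (nat_lit 0x47e710)) e) e) e))
  e) e))) (c (c (c (c (c (c (p (nat_lit 0x1fbf510)) (c (m (nat_lit 0x34e4728)) (c (p (nat_lit 0x4766e8)) e)))
  (c (c (p (nat_lit 0x2863740)) (c (p (nat_lit 0x6a2798)) e)) (c (c (p (nat_lit 0x8af078)) e) e))) (c (c (c
  (p (nat_lit 0x2b2f7f8)) (c (p (nat_lit 0x642f48)) e)) (c (c (m (nat_lit 0x17c08c8)) e) e)) (c (c (c (m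
  (nat_lit 0x1120230)) e) e) e))) (c (c (c (c (p (nat_lit 0x2194b60)) (c (p (nat_lit 0xa6e960)) e)) (c (c (m
  (nat_lit 0x123df68)) e) e)) (c (c (c (m (nat_lit 0x3a5b58)) e) e) e)) e)) (c (c (c (c (c (p (nat_lit
  0x2efcb30)) (c (p (nat_lit 0x94320)) e)) (c (c (p (nat_lit 0x1b06e10)) e) e)) (c (c (c (m (nat_lit
  0xc11700)) e) e) e)) e) e)) (c (c (c (c (c (c (m (nat_lit 0x456dbd8)) (c (m (nat_lit 0xfc9210)) e)) (c (c
  (p (nat_lit 0x228768)) e) e)) (c (c (c (p (nat_lit 0x4dd858)) e) e) e)) e) e) e))) (c (c (c (c (c (c (c (m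
  (nat_lit 0xc72515a)) (c (m (nat_lit 0x7b6e8c8)) (c (p (nat_lit 0xe359b0)) e))) (c (c (p (nat_lit
  0x2c4df56)) (c (m (nat_lit 0xf8cee0)) e)) (c (c (p (nat_lit 0x1191d68)) e) e))) (c (c (c (p (nat_lit
  0x34050a2)) (c (m (nat_lit 0x80b680)) e)) (c (c (m (nat_lit 0xaac6b8)) e) e)) (c (c (c (m (nat_lit
  0x127eb40)) e) e) e))) (c (c (c (c (m (nat_lit 0x226f1ca)) (c (p (nat_lit 0x4244bc8)) e)) (c (c (m (nat_lit
  0x6aafd0)) e) e)) (c (c (c (p (nat_lit 0x880c80)) e) e) e)) (c (c (c (c (m (nat_lit 0xb450a0)) e) e) e)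
  e))) (c (c (c (c (c (p (nat_lit 0x6cf4878)) (c (p (nat_lit 0x284d9f0)) e)) (c (c (m (nat_lit 0x184f458)) e)
  e)) (c (c (c (m (nat_lit 0x13d3460)) e) e) e)) (c (c (c (c (m (nat_lit 0x228de30)) e) e) e) e)) (c (c (c (c
  (c (m (nat_lit 0x801dc8)) e) e) e) e) e))) (c (c (c (c (c (c (p (nat_lit 0xf72822)) (c (p (nat_lit
  0x1ed2138)) e)) (c (c (m (nat_lit 0x29cd348)) e) e)) (c (c (c (m (nat_lit 0x2d52800)) e) e) e)) (c (c (c (c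
  (p (nat_lit 0x1cf9f8)) e) e) e) e)) (c (c (c (c (c (m (nat_lit 0x1dc77e0)) e) e) e) e) e)) (c (c (c (c (c
  (c (p (nat_lit 0x3f33d98)) e) e) e) e) e) e))) (c (c (c (c (c (c (c (p (nat_lit 0xa2face0)) (c (p (nat_lit
  0x1b59dc0)) e)) (c (c (m (nat_lit 0x1066926)) e) e)) (c (c (c (m (nat_lit 0xc55a6a)) e) e) e)) (c (c (c (c
  (m (nat_lit 0x210997e)) e) e) e) e)) (c (c (c (c (c (m (nat_lit 0x34844e8)) e) e) e) e) e)) (c (c (c (c (c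
  (c (m (nat_lit 0xdda7da)) e) e) e) e) e) e)) (c (c (c (c (c (c (c (m (nat_lit 0x4d7bbfe)) e) e) e) e) e) e)
  e)))) (c (c (c (c (c (c (c (c (m (nat_lit 0x189b99fa)) (c (p (nat_lit 0x335cc5e)) (c (p (nat_lit
  0x2684df0)) e))) (c (c (m (nat_lit 0x3d0eb52)) (c (m (nat_lit 0x260bb30)) e)) (c (c (p (nat_lit 0xebe348))
  e) e))) (c (c (c (p (nat_lit 0x354521a)) (c (m (nat_lit 0x93cd50)) e)) (c (c (p (nat_lit 0x53dc30)) e) e))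
  (c (c (c (p (nat_lit 0x3856f8)) e) e) e))) (c (c (c (c (m (nat_lit 0x4bda85c)) (c (m (nat_lit 0x24a08a8))
  e)) (c (c (p (nat_lit 0x309a668)) e) e)) (c (c (c (m (nat_lit 0x2dccd8)) e) e) e)) (c (c (c (c (p (nat_lit
  0x12e4a38)) e) e) e) e))) (c (c (c (c (c (m (nat_lit 0x1e5d234)) (c (p (nat_lit 0x1169490)) e)) (c (c (m
  (nat_lit 0x12c53e8)) e) e)) (c (c (c (m (nat_lit 0x2211af8)) e) e) e)) (c (c (c (c (m (nat_lit 0x121ba80))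
  e) e) e) e)) (c (c (c (c (c (m (nat_lit 0x10fdcd0)) e) e) e) e) e))) (c (c (c (c (c (c (p (nat_lit
  0x66888f0)) (c (p (nat_lit 0x15943c8)) e)) (c (c (m (nat_lit 0xe9ca0)) e) e)) (c (c (c (m (nat_lit
  0x17698b0)) e) e) e)) (c (c (c (c (m (nat_lit 0x439578)) e) e) e) e)) (c (c (c (c (c (m (nat_lit 0x6cfe28))
  e) e) e) e) e)) (c (c (c (c (c (c (m (nat_lit 0x4bdc698)) e) e) e) e) e) e))) (c (c (c (c (c (c (c (p
  (nat_lit 0xaf35fde)) (c (p (nat_lit 0x92f22)) e)) (c (c (p (nat_lit 0x78019e)) e) e)) (c (c (c (m (nat_lit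
  0x3160296)) e) e) e)) (c (c (c (c (m (nat_lit 0x134aace)) e) e) e) e)) (c (c (c (c (c (p (nat_lit
  0x4b5a54)) e) e) e) e) e)) (c (c (c (c (c (c (m (nat_lit 0x41331d2)) e) e) e) e) e) e)) (c (c (c (c (c (c
  (c (m (nat_lit 0x32dd4d6)) e) e) e) e) e) e) e))) (c (c (c (c (c (c (c (c (p (nat_lit 0xa047126)) (c (m
  (nat_lit 0x6e6c70)) e)) (c (c (m (nat_lit 0x3842cac)) e) e)) (c (c (c (p (nat_lit 0x1455b34)) e) e) e)) (c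
  (c (c (c (p (nat_lit 0x2a4de32)) e) e) e) e)) (c (c (c (c (c (m (nat_lit 0x3b18508)) e) e) e) e) e)) (c (c
  (c (c (c (c (p (nat_lit 0x653feda)) e) e) e) e) e) e)) (c (c (c (c (c (c (c (m (nat_lit 0x51084e4)) e) e)
  e) e) e) e) e)) (c (c (c (c (c (c (c (c (m (nat_lit 0xe3e2a8)) e) e) e) e) e) e) e) e)))) (c (c (c (c (c (c
  (c (c (c (p (nat_lit 0x44a4ad0)) (c (p (nat_lit 0x4390c80)) (c (p (nat_lit 0x110cbe0)) e))) (c (c (m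
  (nat_lit 0x4c31718)) (c (m (nat_lit 0x1f99dd0)) e)) (c (c (p (nat_lit 0x5a63180)) e) e))) (c (c (c (m
  (nat_lit 0x3fe07d8)) (c (m (nat_lit 0x272c940)) e)) (c (c (m (nat_lit 0x17eb198)) e) e)) (c (c (c (m
  (nat_lit 0x1e6c180)) e) e) e))) (c (c (c (c (m (nat_lit 0xc0276d8)) (c (m (nat_lit 0x5995ab8)) e)) (c (c (p
  (nat_lit 0x1d076f0)) e) e)) (c (c (c (p (nat_lit 0x44d1620)) e) e) e)) (c (c (c (c (p (nat_lit 0x20d29e8))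
  e) e) e) e))) (c (c (c (c (c (p (nat_lit 0x2f65bc0)) (c (m (nat_lit 0x60f2178)) e)) (c (c (p (nat_lit
  0x2dc19c8)) e) e)) (c (c (c (p (nat_lit 0x4132ea8)) e) e) e)) (c (c (c (c (m (nat_lit 0x3e1d8)) e) e) e)
  e)) (c (c (c (c (c (m (nat_lit 0x24c10b0)) e) e) e) e) e))) (c (c (c (c (c (c (m (nat_lit 0x7ab5a8)) (c (m
  (nat_lit 0x35c4de0)) e)) (c (c (p (nat_lit 0x17dbcb8)) e) e)) (c (c (c (p (nat_lit 0x1c0b1c8)) e) e) e)) (c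
  (c (c (c (p (nat_lit 0x954228)) e) e) e) e)) (c (c (c (c (c (m (nat_lit 0x1679f70)) e) e) e) e) e)) (c (c
  (c (c (c (c (p (nat_lit 0x33c2c28)) e) e) e) e) e) e))) (c (c (c (c (c (c (c (m (nat_lit 0x38e96e6)) (c (m
  (nat_lit 0x4bf780)) e)) (c (c (p (nat_lit 0x29aa560)) e) e)) (c (c (c (p (nat_lit 0x1135ad0)) e) e) e)) (c
  (c (c (c (p (nat_lit 0x676f380)) e) e) e) e)) (c (c (c (c (c (p (nat_lit 0x3f8ee78)) e) e) e) e) e)) (c (c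
  (c (c (c (c (m (nat_lit 0x1ef7ae8)) e) e) e) e) e) e)) (c (c (c (c (c (c (c (m (nat_lit 0xd9bdda)) e) e) e)
  e) e) e) e))) (c (c (c (c (c (c (c (c (p (nat_lit 0x568828e)) (c (p (nat_lit 0x6114a8)) e)) (c (c (p
  (nat_lit 0x1e7ede0)) e) e)) (c (c (c (m (nat_lit 0x2d10f8)) e) e) e)) (c (c (c (c (m (nat_lit 0x1393758))
  e) e) e) e)) (c (c (c (c (c (p (nat_lit 0x4291230)) e) e) e) e) e)) (c (c (c (c (c (c (p (nat_lit
  0x2594010)) e) e) e) e) e) e)) (c (c (c (c (c (c (c (p (nat_lit 0x584f412)) e) e) e) e) e) e) e)) (c (c (c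
  (c (c (c (c (c (p (nat_lit 0x3bf970)) e) e) e) e) e) e) e) e))) (c (c (c (c (c (c (c (c (c (p (nat_lit
  0x1064a90)) (c (p (nat_lit 0x5d558f0)) e)) (c (c (m (nat_lit 0x3308ce8)) e) e)) (c (c (c (m (nat_lit
  0x1a8ccc8)) e) e) e)) (c (c (c (c (m (nat_lit 0x87a1d0)) e) e) e) e)) (c (c (c (c (c (m (nat_lit
  0x3c81ff0)) e) e) e) e) e)) (c (c (c (c (c (c (m (nat_lit 0x378c798)) e) e) e) e) e) e)) (c (c (c (c (c (c
  (c (m (nat_lit 0x18c4800)) e) e) e) e) e) e) e)) (c (c (c (c (c (c (c (c (m (nat_lit 0x2915a00)) e) e) e)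
  e) e) e) e) e)) (c (c (c (c (c (c (c (c (c (p (nat_lit 0x4780c38)) e) e) e) e) e) e) e) e) e)))))

noncomputable def gt_1_6 : Tr := (c gt_1_6_6 (c gt_1_6_7 e))

noncomputable def gt_1_7_7 : Tr :=
  (c (c (c (c (c (c (c (c (c (p (nat_lit 0xff05c70)) (c (m (nat_lit 0x4248720)) (c (m (nat_lit 0x5fc9d30))
  e))) (c (c (m (nat_lit 0x42488a0)) (c (p (nat_lit 0x6b600b8)) e)) (c (c (m (nat_lit 0x5fc9c40)) e) e))) (c
  (c (c (m (nat_lit 0x8a587a0)) (c (p (nat_lit 0x1d7cc78)) e)) (c (c (p (nat_lit 0x1d7cc90)) e) e)) (c (c (c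
  (p (nat_lit 0x56ed970)) e) e) e))) (c (c (c (c (m (nat_lit 0x4248720)) (c (p (nat_lit 0xe44dc88)) (c (m
  (nat_lit 0x67dcdc0)) e))) (c (c (p (nat_lit 0x65abd00)) (c (m (nat_lit 0x934638)) e)) (c (c (m (nat_lit
  0x1d6e1a0)) e) e))) (c (c (c (p (nat_lit 0x264cff0)) (c (m (nat_lit 0x1de32f0)) e)) (c (c (m (nat_lit
  0xd18d10)) e) e)) (c (c (c (m (nat_lit 0x6395a0)) e) e) e))) (c (c (c (c (m (nat_lit 0x5fc9d30)) (c (m
  (nat_lit 0x67dcdc0)) (c (p (nat_lit 0xbf30dc0)) e))) (c (c (m (nat_lit 0x1d6e170)) (c (m (nat_lit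
  0x4b940b0)) e)) (c (c (p (nat_lit 0x5ea2c08)) e) e))) (c (c (c (p (nat_lit 0x46169a0)) (c (m (nat_lit
  0x1a99d90)) e)) (c (c (m (nat_lit 0x146a600)) e) e)) (c (c (c (m (nat_lit 0x4065738)) e) e) e))) e))) (c (c
  (c (c (c (m (nat_lit 0x42488a0)) (c (p (nat_lit 0x65abd00)) (c (m (nat_lit 0x1d6e170)) e))) (c (c (p
  (nat_lit 0xe44db50)) (c (m (nat_lit 0x9346c8)) e)) (c (c (m (nat_lit 0x67dcbf8)) e) e))) (c (c (c (p
  (nat_lit 0x264d0c8)) (c (m (nat_lit 0xd18ce0)) e)) (c (c (m (nat_lit 0x1de3380)) e) e)) (c (c (c (m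
  (nat_lit 0x639630)) e) e) e))) (c (c (c (c (p (nat_lit 0x6b600b8)) (c (m (nat_lit 0x934638)) (c (m (nat_lit
  0x4b940b0)) e))) (c (c (m (nat_lit 0x9346c8)) (c (p (nat_lit 0x71c1e10)) e)) (c (c (m (nat_lit 0x4b94038))
  e) e))) (c (c (c (m (nat_lit 0x2f62a58)) (c (p (nat_lit 0x1665d38)) e)) (c (c (p (nat_lit 0x1665d50)) e)
  e)) (c (c (c (p (nat_lit 0x1880a60)) e) e) e))) e)) (c (c (c (c (c (m (nat_lit 0x5fc9c40)) (c (m (nat_lit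
  0x1d6e1a0)) (c (p (nat_lit 0x5ea2c08)) e))) (c (c (m (nat_lit 0x67dcbf8)) (c (m (nat_lit 0x4b94038)) e)) (c
  (c (p (nat_lit 0xbf30bf8)) e) e))) (c (c (c (p (nat_lit 0x46168e0)) (c (m (nat_lit 0x146a5d0)) e)) (c (c (m
  (nat_lit 0x1a99d60)) e) e)) (c (c (c (m (nat_lit 0x4065678)) e) e) e))) e) e))) (c (c (c (c (c (c (m
  (nat_lit 0x8a587a0)) (c (p (nat_lit 0x264cff0)) (c (p (nat_lit 0x46169a0)) e))) (c (c (p (nat_lit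
  0x264d0c8)) (c (m (nat_lit 0x2f62a58)) e)) (c (c (p (nat_lit 0x46168e0)) e) e))) (c (c (c (p (nat_lit
  0xb082f48)) (c (m (nat_lit 0x27fbee0)) e)) (c (c (m (nat_lit 0x27fbec8)) e) e)) (c (c (c (m (nat_lit
  0x6a9c5f0)) e) e) e))) (c (c (c (c (p (nat_lit 0x1d7cc78)) (c (m (nat_lit 0x1de32f0)) (c (m (nat_lit
  0x1a99d90)) e))) (c (c (m (nat_lit 0xd18ce0)) (c (p (nat_lit 0x1665d38)) e)) (c (c (m (nat_lit 0x146a5d0))
  e) e))) (c (c (c (m (nat_lit 0x27fbee0)) (c (p (nat_lit 0x6bb9770)) e)) (c (c (p (nat_lit 0x11f0d00)) e)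
  e)) (c (c (c (p (nat_lit 0x23f2b30)) e) e) e))) e)) (c (c (c (c (c (p (nat_lit 0x1d7cc90)) (c (m (nat_lit
  0xd18d10)) (c (m (nat_lit 0x146a600)) e))) (c (c (m (nat_lit 0x1de3380)) (c (p (nat_lit 0x1665d50)) e)) (c
  (c (m (nat_lit 0x1a99d60)) e) e))) (c (c (c (m (nat_lit 0x27fbec8)) (c (p (nat_lit 0x11f0d00)) e)) (c (c (p
  (nat_lit 0x6bb9788)) e) e)) (c (c (c (p (nat_lit 0x23f2b00)) e) e) e))) e) e)) (c (c (c (c (c (c (p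
  (nat_lit 0x56ed970)) (c (m (nat_lit 0x6395a0)) (c (m (nat_lit 0x4065738)) e))) (c (c (m (nat_lit 0x639630))
  (c (p (nat_lit 0x1880a60)) e)) (c (c (m (nat_lit 0x4065678)) e) e))) (c (c (c (m (nat_lit 0x6a9c5f0)) (c (p
  (nat_lit 0x23f2b30)) e)) (c (c (p (nat_lit 0x23f2b00)) e) e)) (c (c (c (p (nat_lit 0x90c15d8)) e) e) e)))
  e) e) e))) (c (c (c (c (c (c (c (m (nat_lit 0x63e1624)) (c (p (nat_lit 0x2450292)) (c (p (nat_lit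
  0x6eaefb8)) e))) (c (c (p (nat_lit 0x245040c)) (c (m (nat_lit 0x4e53bb0)) e)) (c (c (p (nat_lit 0x6eaee98))
  e) e))) (c (c (c (m (nat_lit 0x268a4)) (c (m (nat_lit 0x10d1300)) e)) (c (c (m (nat_lit 0x10d1330)) e) e))
  (c (c (c (m (nat_lit 0x44cacd8)) e) e) e))) (c (c (c (c (p (nat_lit 0x2450292)) (c (m (nat_lit 0x15a7622))
  (c (m (nat_lit 0x2709c90)) e))) (c (c (m (nat_lit 0x3e30646)) (c (p (nat_lit 0x1d4af80)) e)) (c (c (m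
  (nat_lit 0x2249568)) e) e))) (c (c (c (m (nat_lit 0x35b9f7a)) (c (p (nat_lit 0x226f068)) e)) (c (c (p
  (nat_lit 0xe7c7e0)) e) e)) (c (c (c (p (nat_lit 0x36bd708)) e) e) e))) (c (c (c (c (p (nat_lit 0x6eaefb8))
  (c (m (nat_lit 0x2709c90)) e)) (c (c (m (nat_lit 0x2249550)) e) e)) (c (c (c (m (nat_lit 0x2bcfc8)) e) e)
  e)) e))) (c (c (c (c (c (p (nat_lit 0x245040c)) (c (m (nat_lit 0x3e30646)) (c (m (nat_lit 0x2249550)) e)))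
  (c (c (m (nat_lit 0x15a776c)) (c (p (nat_lit 0x1d4af20)) e)) (c (c (m (nat_lit 0x2709ba0)) e) e))) (c (c (c
  (m (nat_lit 0x35b9efc)) (c (p (nat_lit 0xe7c7b0)) e)) (c (c (p (nat_lit 0x226f080)) e) e)) (c (c (c (p
  (nat_lit 0x36bd6a8)) e) e) e))) (c (c (c (c (m (nat_lit 0x4e53bb0)) (c (p (nat_lit 0x1d4af80)) e)) (c (c (p
  (nat_lit 0x1d4af20)) e) e)) (c (c (c (p (nat_lit 0xf64320)) e) e) e)) e)) (c (c (c (c (c (p (nat_lit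
  0x6eaee98)) (c (m (nat_lit 0x2249568)) e)) (c (c (m (nat_lit 0x2709ba0)) e) e)) (c (c (c (m (nat_lit
  0x2bcfe0)) e) e) e)) e) e))) (c (c (c (c (c (c (m (nat_lit 0x268a4)) (c (m (nat_lit 0x35b9f7a)) (c (m
  (nat_lit 0x2bcfc8)) e))) (c (c (m (nat_lit 0x35b9efc)) (c (p (nat_lit 0xf64320)) e)) (c (c (m (nat_lit
  0x2bcfe0)) e) e))) (c (c (c (m (nat_lit 0x574bc6)) (c (p (nat_lit 0x477d20)) e)) (c (c (p (nat_lit
  0x477d38)) e) e)) (c (c (c (m (nat_lit 0x1e49bc0)) e) e) e))) (c (c (c (c (m (nat_lit 0x10d1300)) (c (p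
  (nat_lit 0x226f068)) e)) (c (c (p (nat_lit 0xe7c7b0)) e) e)) (c (c (c (p (nat_lit 0x477d20)) e) e) e)) e))
  (c (c (c (c (c (m (nat_lit 0x10d1330)) (c (p (nat_lit 0xe7c7e0)) e)) (c (c (p (nat_lit 0x226f080)) e) e))
  (c (c (c (p (nat_lit 0x477d38)) e) e) e)) e) e)) (c (c (c (c (c (c (m (nat_lit 0x44cacd8)) (c (p (nat_lit
  0x36bd708)) e)) (c (c (p (nat_lit 0x36bd6a8)) e) e)) (c (c (c (m (nat_lit 0x1e49bc0)) e) e) e)) e) e) e)))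
  (c (c (c (c (c (c (c (m (nat_lit 0x3fdd7c0)) (c (m (nat_lit 0x1bd2d38)) (c (p (nat_lit 0x1659af8)) e))) (c
  (c (m (nat_lit 0x1bd2ca2)) (c (m (nat_lit 0x3579960)) e)) (c (c (p (nat_lit 0x1659a68)) e) e))) (c (c (c (p
  (nat_lit 0x7bb3aa8)) (c (m (nat_lit 0x1825530)) e)) (c (c (m (nat_lit 0x18254b8)) e) e)) (c (c (c (m
  (nat_lit 0x2c58588)) e) e) e))) (c (c (c (c (m (nat_lit 0x1bd2d38)) (c (p (nat_lit 0x37c706a)) e)) (c (c (m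
  (nat_lit 0x3aed7a)) e) e)) (c (c (c (m (nat_lit 0x23007de)) e) e) e)) (c (c (c (c (p (nat_lit 0x1659af8))
  e) e) e) e))) (c (c (c (c (c (m (nat_lit 0x1bd2ca2)) (c (m (nat_lit 0x3aed7a)) e)) (c (c (p (nat_lit
  0x37c6fa4)) e) e)) (c (c (c (m (nat_lit 0x2300784)) e) e) e)) (c (c (c (c (m (nat_lit 0x3579960)) e) e) e)
  e)) (c (c (c (c (c (p (nat_lit 0x1659a68)) e) e) e) e) e))) (c (c (c (c (c (c (p (nat_lit 0x7bb3aa8)) (c (m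
  (nat_lit 0x23007de)) e)) (c (c (m (nat_lit 0x2300784)) e) e)) (c (c (c (p (nat_lit 0x41e3e36)) e) e) e)) (c
  (c (c (c (m (nat_lit 0x1825530)) e) e) e) e)) (c (c (c (c (c (m (nat_lit 0x18254b8)) e) e) e) e) e)) (c (c
  (c (c (c (c (m (nat_lit 0x2c58588)) e) e) e) e) e) e))) (c (c (c (c (c (c (c (m (nat_lit 0x6f2aa74)) (c (m
  (nat_lit 0x166962)) e)) (c (c (m (nat_lit 0x1668d2)) e) e)) (c (c (c (p (nat_lit 0x1fed32c)) e) e) e)) (c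
  (c (c (c (m (nat_lit 0x166962)) e) e) e) e)) (c (c (c (c (c (m (nat_lit 0x1668d2)) e) e) e) e) e)) (c (c (c
  (c (c (c (p (nat_lit 0x1fed32c)) e) e) e) e) e) e)) (c (c (c (c (c (c (c (p (nat_lit 0x5fa24a8)) e) e) e)
  e) e) e) e))))) (c (c (c (c (c (c (c (c (p (nat_lit 0x39053d18)) (c (p (nat_lit 0x11f78b02)) (c (p (nat_lit
  0x27fddb8)) e))) (c (c (m (nat_lit 0x22893bbe)) (c (m (nat_lit 0x1063968)) e)) (c (c (m (nat_lit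
  0x103e720)) e) e))) (c (c (c (p (nat_lit 0x335ec56)) (c (m (nat_lit 0xa560c0)) e)) (c (c (p (nat_lit
  0x2de58d8)) e) e)) (c (c (c (p (nat_lit 0xbad230)) e) e) e))) (c (c (c (c (p (nat_lit 0x11f78b02)) (c (p
  (nat_lit 0x122aab9c)) (c (m (nat_lit 0x39980d0)) e))) (c (c (p (nat_lit 0x297b08e)) (c (p (nat_lit
  0x1082d60)) e)) (c (c (m (nat_lit 0x325ea08)) e) e))) (c (c (c (p (nat_lit 0x1d0a22e)) (c (m (nat_lit
  0xe9c220)) e)) (c (c (p (nat_lit 0x41cda8)) e) e)) (c (c (c (m (nat_lit 0x3f2448)) e) e) e))) (c (c (c (c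
  (p (nat_lit 0x27fddb8)) (c (m (nat_lit 0x39980d0)) e)) (c (c (p (nat_lit 0x2bf5d38)) e) e)) (c (c (c (m
  (nat_lit 0x9e8e48)) e) e) e)) e))) (c (c (c (c (c (m (nat_lit 0x22893bbe)) (c (p (nat_lit 0x297b08e)) (c (p
  (nat_lit 0x2bf5d38)) e))) (c (c (p (nat_lit 0x14bb05b2)) (c (m (nat_lit 0x1485168)) e)) (c (c (p (nat_lit
  0x4c44d20)) e) e))) (c (c (c (p (nat_lit 0x7db2df8)) (c (m (nat_lit 0x866af0)) e)) (c (c (m (nat_lit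
  0x22680d8)) e) e)) (c (c (c (m (nat_lit 0x2a6fdf8)) e) e) e))) (c (c (c (c (m (nat_lit 0x1063968)) (c (p
  (nat_lit 0x1082d60)) e)) (c (c (m (nat_lit 0x1485168)) e) e)) (c (c (c (p (nat_lit 0x5349c0)) e) e) e)) e))
  (c (c (c (c (c (m (nat_lit 0x103e720)) (c (m (nat_lit 0x325ea08)) e)) (c (c (p (nat_lit 0x4c44d20)) e) e))
  (c (c (c (m (nat_lit 0x2b1328)) e) e) e)) e) e))) (c (c (c (c (c (c (p (nat_lit 0x335ec56)) (c (p (nat_lit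
  0x1d0a22e)) (c (m (nat_lit 0x9e8e48)) e))) (c (c (p (nat_lit 0x7db2df8)) (c (p (nat_lit 0x5349c0)) e)) (c
  (c (m (nat_lit 0x2b1328)) e) e))) (c (c (c (p (nat_lit 0x7f8487e)) (c (m (nat_lit 0x2352348)) e)) (c (c (p
  (nat_lit 0xb500c8)) e) e)) (c (c (c (p (nat_lit 0x311ac0)) e) e) e))) (c (c (c (c (m (nat_lit 0xa560c0)) (c
  (m (nat_lit 0xe9c220)) e)) (c (c (m (nat_lit 0x866af0)) e) e)) (c (c (c (m (nat_lit 0x2352348)) e) e) e))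
  e)) (c (c (c (c (c (p (nat_lit 0x2de58d8)) (c (p (nat_lit 0x41cda8)) e)) (c (c (m (nat_lit 0x22680d8)) e)
  e)) (c (c (c (p (nat_lit 0xb500c8)) e) e) e)) e) e)) (c (c (c (c (c (c (p (nat_lit 0xbad230)) (c (m
  (nat_lit 0x3f2448)) e)) (c (c (m (nat_lit 0x2a6fdf8)) e) e)) (c (c (c (p (nat_lit 0x311ac0)) e) e) e)) e)
  e) e))) (c (c (c (c (c (c (c (m (nat_lit 0x3ad18a)) (c (m (nat_lit 0xf694a7c)) (c (m (nat_lit 0x177ad28))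
  e))) (c (c (p (nat_lit 0xbfa978)) (c (p (nat_lit 0x2921cb8)) e)) (c (c (m (nat_lit 0x2570a18)) e) e))) (c
  (c (c (m (nat_lit 0x2d52e54)) (c (m (nat_lit 0xbdba18)) e)) (c (c (m (nat_lit 0x64ffc8)) e) e)) (c (c (c (p
  (nat_lit 0xfdbf90)) e) e) e))) (c (c (c (c (m (nat_lit 0xf694a7c)) (c (m (nat_lit 0x2c97d68)) e)) (c (c (p
  (nat_lit 0x1b9fad4)) e) e)) (c (c (c (p (nat_lit 0x6f23fa)) e) e) e)) (c (c (c (c (m (nat_lit 0x177ad28))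
  e) e) e) e))) (c (c (c (c (c (p (nat_lit 0xbfa978)) (c (p (nat_lit 0x1b9fad4)) e)) (c (c (m (nat_lit
  0x79d0586)) e) e)) (c (c (c (p (nat_lit 0x87f5b8)) e) e) e)) (c (c (c (c (p (nat_lit 0x2921cb8)) e) e) e)
  e)) (c (c (c (c (c (m (nat_lit 0x2570a18)) e) e) e) e) e))) (c (c (c (c (c (c (m (nat_lit 0x2d52e54)) (c (p
  (nat_lit 0x6f23fa)) e)) (c (c (p (nat_lit 0x87f5b8)) e) e)) (c (c (c (m (nat_lit 0x168ed72)) e) e) e)) (c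
  (c (c (c (m (nat_lit 0xbdba18)) e) e) e) e)) (c (c (c (c (c (m (nat_lit 0x64ffc8)) e) e) e) e) e)) (c (c (c
  (c (c (c (p (nat_lit 0xfdbf90)) e) e) e) e) e) e))) (c (c (c (c (c (c (c (p (nat_lit 0x11fc9376)) (c (p
  (nat_lit 0x28931a6)) e)) (c (c (m (nat_lit 0xd10d12)) e) e)) (c (c (c (m (nat_lit 0x3d36c6e)) e) e) e)) (c
  (c (c (c (p (nat_lit 0x28931a6)) e) e) e) e)) (c (c (c (c (c (m (nat_lit 0xd10d12)) e) e) e) e) e)) (c (c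
  (c (c (c (c (m (nat_lit 0x3d36c6e)) e) e) e) e) e) e)) (c (c (c (c (c (c (c (m (nat_lit 0x333dea8)) e) e)
  e) e) e) e) e)))) (c (c (c (c (c (c (c (c (m (nat_lit 0x2ea1a2c6)) (c (m (nat_lit 0x160a51e8)) (c (p
  (nat_lit 0x10e7f98)) e))) (c (c (p (nat_lit 0x252a9020)) (c (m (nat_lit 0x729030)) e)) (c (c (p (nat_lit
  0x630270)) e) e))) (c (c (c (m (nat_lit 0x1beead0)) (c (p (nat_lit 0x1a71950)) e)) (c (c (m (nat_lit
  0x37d32b0)) e) e)) (c (c (c (m (nat_lit 0x8f1888)) e) e) e))) (c (c (c (c (m (nat_lit 0x160a51e8)) (c (m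
  (nat_lit 0x3d98f54)) e)) (c (c (m (nat_lit 0x5ec7802)) e) e)) (c (c (c (p (nat_lit 0x1d97f0)) e) e) e)) (c
  (c (c (c (p (nat_lit 0x10e7f98)) e) e) e) e))) (c (c (c (c (c (p (nat_lit 0x252a9020)) (c (m (nat_lit
  0x5ec7802)) e)) (c (c (m (nat_lit 0x6ac635c)) e) e)) (c (c (c (m (nat_lit 0xc6f4ef0)) e) e) e)) (c (c (c (c
  (m (nat_lit 0x729030)) e) e) e) e)) (c (c (c (c (c (p (nat_lit 0x630270)) e) e) e) e) e))) (c (c (c (c (c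
  (c (m (nat_lit 0x1beead0)) (c (p (nat_lit 0x1d97f0)) e)) (c (c (m (nat_lit 0xc6f4ef0)) e) e)) (c (c (c (p
  (nat_lit 0x89f544)) e) e) e)) (c (c (c (c (p (nat_lit 0x1a71950)) e) e) e) e)) (c (c (c (c (c (m (nat_lit
  0x37d32b0)) e) e) e) e) e)) (c (c (c (c (c (c (m (nat_lit 0x8f1888)) e) e) e) e) e) e))) (c (c (c (c (c (c
  (c (m (nat_lit 0x3db480c)) (c (p (nat_lit 0x980392e)) e)) (c (c (p (nat_lit 0x16e809a)) e) e)) (c (c (c (p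
  (nat_lit 0x660dc62)) e) e) e)) (c (c (c (c (p (nat_lit 0x980392e)) e) e) e) e)) (c (c (c (c (c (p (nat_lit
  0x16e809a)) e) e) e) e) e)) (c (c (c (c (c (c (p (nat_lit 0x660dc62)) e) e) e) e) e) e)) (c (c (c (c (c (c
  (c (m (nat_lit 0x5cbc8ae)) e) e) e) e) e) e) e))) (c (c (c (c (c (c (c (c (p (nat_lit 0x116b8858)) (c (p
  (nat_lit 0xf37146)) e)) (c (c (p (nat_lit 0x3befa46)) e) e)) (c (c (c (m (nat_lit 0x4de8516)) e) e) e)) (c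
  (c (c (c (p (nat_lit 0xf37146)) e) e) e) e)) (c (c (c (c (c (p (nat_lit 0x3befa46)) e) e) e) e) e)) (c (c
  (c (c (c (c (m (nat_lit 0x4de8516)) e) e) e) e) e) e)) (c (c (c (c (c (c (c (m (nat_lit 0xde99378)) e) e)
  e) e) e) e) e)) (c (c (c (c (c (c (c (c (p (nat_lit 0x37cdd0c)) e) e) e) e) e) e) e) e))))) (c (c (c (c (c
  (c (c (c (c (m (nat_lit 0x2657670)) (c (m (nat_lit 0x74f3568)) (c (m (nat_lit 0x103e588)) e))) (c (c (p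
  (nat_lit 0x5630e98)) (c (m (nat_lit 0x10639e0)) e)) (c (c (p (nat_lit 0x27fdec0)) e) e))) (c (c (c (p
  (nat_lit 0x32fa510)) (c (p (nat_lit 0x2de57b8)) e)) (c (c (m (nat_lit 0xa561f8)) e) e)) (c (c (c (p
  (nat_lit 0xbad188)) e) e) e))) (c (c (c (c (m (nat_lit 0x74f3568)) (c (m (nat_lit 0x91ad780)) (c (p
  (nat_lit 0x4c44f30)) e))) (c (c (p (nat_lit 0x37ebd78)) (c (m (nat_lit 0x1485288)) e)) (c (c (p (nat_lit
  0x2bf5dc8)) e) e))) (c (c (c (p (nat_lit 0x1f23af8)) (c (m (nat_lit 0x2268108)) e)) (c (c (m (nat_lit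
  0x866a30)) e) e)) (c (c (c (m (nat_lit 0x2a6fdc8)) e) e) e))) (c (c (c (c (m (nat_lit 0x103e588)) (c (p
  (nat_lit 0x4c44f30)) e)) (c (c (m (nat_lit 0x325eac8)) e) e)) (c (c (c (m (nat_lit 0x2b13d0)) e) e) e))
  e))) (c (c (c (c (c (p (nat_lit 0x5630e98)) (c (p (nat_lit 0x37ebd78)) (c (m (nat_lit 0x325eac8)) e))) (c
  (c (p (nat_lit 0x4514460)) (c (p (nat_lit 0x1082d90)) e)) (c (c (m (nat_lit 0x39980d0)) e) e))) (c (c (c (m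
  (nat_lit 0x207a518)) (c (p (nat_lit 0x41cda8)) e)) (c (c (m (nat_lit 0xe9c238)) e) e)) (c (c (c (m (nat_lit
  0x3f2460)) e) e) e))) (c (c (c (c (m (nat_lit 0x10639e0)) (c (m (nat_lit 0x1485288)) e)) (c (c (p (nat_lit
  0x1082d90)) e) e)) (c (c (c (p (nat_lit 0x534a20)) e) e) e)) e)) (c (c (c (c (c (p (nat_lit 0x27fdec0)) (c
  (p (nat_lit 0x2bf5dc8)) e)) (c (c (m (nat_lit 0x39980d0)) e) e)) (c (c (c (m (nat_lit 0x9e8ec0)) e) e) e))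
  e) e))) (c (c (c (c (c (c (p (nat_lit 0x32fa510)) (c (p (nat_lit 0x1f23af8)) (c (m (nat_lit 0x2b13d0)) e)))
  (c (c (m (nat_lit 0x207a518)) (c (p (nat_lit 0x534a20)) e)) (c (c (m (nat_lit 0x9e8ec0)) e) e))) (c (c (c
  (m (nat_lit 0x2cca30)) (c (p (nat_lit 0xb500b0)) e)) (c (c (m (nat_lit 0x2352390)) e) e)) (c (c (c (p
  (nat_lit 0x311a60)) e) e) e))) (c (c (c (c (p (nat_lit 0x2de57b8)) (c (m (nat_lit 0x2268108)) e)) (c (c (p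
  (nat_lit 0x41cda8)) e) e)) (c (c (c (p (nat_lit 0xb500b0)) e) e) e)) e)) (c (c (c (c (c (m (nat_lit
  0xa561f8)) (c (m (nat_lit 0x866a30)) e)) (c (c (m (nat_lit 0xe9c238)) e) e)) (c (c (c (m (nat_lit
  0x2352390)) e) e) e)) e) e)) (c (c (c (c (c (c (p (nat_lit 0xbad188)) (c (m (nat_lit 0x2a6fdc8)) e)) (c (c
  (m (nat_lit 0x3f2460)) e) e)) (c (c (c (p (nat_lit 0x311a60)) e) e) e)) e) e) e))) (c (c (c (c (c (c (c (p
  (nat_lit 0x10ab860)) (c (p (nat_lit 0x778ff26)) (c (m (nat_lit 0x2570b50)) e))) (c (c (m (nat_lit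
  0x8f0b8a2)) (c (p (nat_lit 0x2921d18)) e)) (c (c (m (nat_lit 0x177adb8)) e) e))) (c (c (c (m (nat_lit
  0xb59dd6)) (c (m (nat_lit 0x64ffe0)) e)) (c (c (m (nat_lit 0xbdba48)) e) e)) (c (c (c (p (nat_lit
  0xfdbf60)) e) e) e))) (c (c (c (c (p (nat_lit 0x778ff26)) (c (m (nat_lit 0x5a89d90)) e)) (c (c (p (nat_lit
  0x1910790)) e) e)) (c (c (c (p (nat_lit 0x49ca40)) e) e) e)) (c (c (c (c (m (nat_lit 0x2570b50)) e) e) e)
  e))) (c (c (c (c (c (m (nat_lit 0x8f0b8a2)) (c (p (nat_lit 0x1910790)) e)) (c (c (m (nat_lit 0x367500)) e)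
  e)) (c (c (c (p (nat_lit 0xf5bda0)) e) e) e)) (c (c (c (c (p (nat_lit 0x2921d18)) e) e) e) e)) (c (c (c (c
  (c (m (nat_lit 0x177adb8)) e) e) e) e) e))) (c (c (c (c (c (c (m (nat_lit 0xb59dd6)) (c (p (nat_lit
  0x49ca40)) e)) (c (c (p (nat_lit 0xf5bda0)) e) e)) (c (c (c (m (nat_lit 0x6dd940)) e) e) e)) (c (c (c (c (m
  (nat_lit 0x64ffe0)) e) e) e) e)) (c (c (c (c (c (m (nat_lit 0xbdba48)) e) e) e) e) e)) (c (c (c (c (c (c (p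
  (nat_lit 0xfdbf60)) e) e) e) e) e) e))) (c (c (c (c (c (c (c (p (nat_lit 0x52f9398)) (c (m (nat_lit
  0x765d56)) e)) (c (c (p (nat_lit 0x232625a)) e) e)) (c (c (c (m (nat_lit 0x3f50c22)) e) e) e)) (c (c (c (c
  (m (nat_lit 0x765d56)) e) e) e) e)) (c (c (c (c (c (p (nat_lit 0x232625a)) e) e) e) e) e)) (c (c (c (c (c
  (c (m (nat_lit 0x3f50c22)) e) e) e) e) e) e)) (c (c (c (c (c (c (c (m (nat_lit 0x1fdaca8)) e) e) e) e) e)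
  e) e)))) (c (c (c (c (c (c (c (c (m (nat_lit 0xa7b85448)) (c (m (nat_lit 0xac962c6)) (c (m (nat_lit
  0x158a0f0)) e))) (c (c (p (nat_lit 0x14eb954c)) (c (m (nat_lit 0xd62fa8)) e)) (c (c (m (nat_lit 0x158a030))
  e) e))) (c (c (c (m (nat_lit 0x52d6844)) (c (p (nat_lit 0x12866b8)) e)) (c (c (p (nat_lit 0x1286658)) e)
  e)) (c (c (c (p (nat_lit 0x4b5b8)) e) e) e))) (c (c (c (c (m (nat_lit 0xac962c6)) (c (m (nat_lit
  0x2e75da0)) e)) (c (c (m (nat_lit 0x2411c58)) e) e)) (c (c (c (p (nat_lit 0x887280)) e) e) e)) (c (c (c (c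
  (m (nat_lit 0x158a0f0)) e) e) e) e))) (c (c (c (c (c (p (nat_lit 0x14eb954c)) (c (m (nat_lit 0x2411c58))
  e)) (c (c (m (nat_lit 0x2e75d10)) e) e)) (c (c (c (p (nat_lit 0x887100)) e) e) e)) (c (c (c (c (m (nat_lit
  0xd62fa8)) e) e) e) e)) (c (c (c (c (c (m (nat_lit 0x158a030)) e) e) e) e) e))) (c (c (c (c (c (c (m
  (nat_lit 0x52d6844)) (c (p (nat_lit 0x887280)) e)) (c (c (p (nat_lit 0x887100)) e) e)) (c (c (c (m (nat_lit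
  0x22746f0)) e) e) e)) (c (c (c (c (p (nat_lit 0x12866b8)) e) e) e) e)) (c (c (c (c (c (p (nat_lit
  0x1286658)) e) e) e) e) e)) (c (c (c (c (c (c (p (nat_lit 0x4b5b8)) e) e) e) e) e) e))) (c (c (c (c (c (c
  (c (m (nat_lit 0x2f11194)) (c (p (nat_lit 0x50c10cc)) e)) (c (c (p (nat_lit 0x27eb31a)) e) e)) (c (c (c (p
  (nat_lit 0x3e3af6)) e) e) e)) (c (c (c (c (p (nat_lit 0x50c10cc)) e) e) e) e)) (c (c (c (c (c (p (nat_lit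
  0x27eb31a)) e) e) e) e) e)) (c (c (c (c (c (c (p (nat_lit 0x3e3af6)) e) e) e) e) e) e)) (c (c (c (c (c (c
  (c (m (nat_lit 0x2935aa0)) e) e) e) e) e) e) e))) (c (c (c (c (c (c (c (c (p (nat_lit 0x797ce740)) (c (p
  (nat_lit 0x8224122)) e)) (c (c (m (nat_lit 0x17fbad36)) e) e)) (c (c (c (p (nat_lit 0x79140ae)) e) e) e))
  (c (c (c (c (p (nat_lit 0x8224122)) e) e) e) e)) (c (c (c (c (c (m (nat_lit 0x17fbad36)) e) e) e) e) e)) (c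
  (c (c (c (c (c (p (nat_lit 0x79140ae)) e) e) e) e) e) e)) (c (c (c (c (c (c (c (p (nat_lit 0xfb6718)) e) e)
  e) e) e) e) e)) (c (c (c (c (c (c (c (c (m (nat_lit 0x3deeeec)) e) e) e) e) e) e) e) e)))) (c (c (c (c (c
  (c (c (c (c (p (nat_lit 0x23a9af98)) (c (p (nat_lit 0x71c4078)) (c (p (nat_lit 0x6301e0)) e))) (c (c (m
  (nat_lit 0x6b9c8f8)) (c (m (nat_lit 0x729018)) e)) (c (c (p (nat_lit 0x10e7ec0)) e) e))) (c (c (c (m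
  (nat_lit 0x9bb548)) (c (m (nat_lit 0x37d31c0)) e)) (c (c (p (nat_lit 0x1a71a70)) e) e)) (c (c (c (m
  (nat_lit 0x8f1780)) e) e) e))) (c (c (c (c (p (nat_lit 0x71c4078)) (c (p (nat_lit 0x15350e38)) e)) (c (c (m
  (nat_lit 0x6aa92e0)) e) e)) (c (c (c (m (nat_lit 0x6482fd0)) e) e) e)) (c (c (c (c (p (nat_lit 0x6301e0))
  e) e) e) e))) (c (c (c (c (c (m (nat_lit 0x6b9c8f8)) (c (m (nat_lit 0x6aa92e0)) e)) (c (c (p (nat_lit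
  0x76ccf08)) e) e)) (c (c (c (p (nat_lit 0x36f4710)) e) e) e)) (c (c (c (c (m (nat_lit 0x729018)) e) e) e)
  e)) (c (c (c (c (c (p (nat_lit 0x10e7ec0)) e) e) e) e) e))) (c (c (c (c (c (c (m (nat_lit 0x9bb548)) (c (m
  (nat_lit 0x6482fd0)) e)) (c (c (p (nat_lit 0x36f4710)) e) e)) (c (c (c (p (nat_lit 0x7b3f5b8)) e) e) e)) (c
  (c (c (c (m (nat_lit 0x37d31c0)) e) e) e) e)) (c (c (c (c (c (p (nat_lit 0x1a71a70)) e) e) e) e) e)) (c (c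
  (c (c (c (c (m (nat_lit 0x8f1780)) e) e) e) e) e) e))) (c (c (c (c (c (c (c (m (nat_lit 0x3157bc)) (c (m
  (nat_lit 0x4d5a400)) e)) (c (c (p (nat_lit 0x31da4c8)) e) e)) (c (c (c (p (nat_lit 0x26e4da8)) e) e) e)) (c
  (c (c (c (m (nat_lit 0x4d5a400)) e) e) e) e)) (c (c (c (c (c (p (nat_lit 0x31da4c8)) e) e) e) e) e)) (c (c
  (c (c (c (c (p (nat_lit 0x26e4da8)) e) e) e) e) e) e)) (c (c (c (c (c (c (c (p (nat_lit 0x2145a14)) e) e)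
  e) e) e) e) e))) (c (c (c (c (c (c (c (c (p (nat_lit 0x5dad030a)) (c (m (nat_lit 0x1b92418)) e)) (c (c (p
  (nat_lit 0x13d2fb0)) e) e)) (c (c (c (p (nat_lit 0x1d11e60)) e) e) e)) (c (c (c (c (m (nat_lit 0x1b92418))
  e) e) e) e)) (c (c (c (c (c (p (nat_lit 0x13d2fb0)) e) e) e) e) e)) (c (c (c (c (c (c (p (nat_lit
  0x1d11e60)) e) e) e) e) e) e)) (c (c (c (c (c (c (c (m (nat_lit 0x770c8a4)) e) e) e) e) e) e) e)) (c (c (c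
  (c (c (c (c (c (m (nat_lit 0x4dac53a6)) e) e) e) e) e) e) e) e))) (c (c (c (c (c (c (c (c (c (m (nat_lit
  0x1cd4c510)) (c (p (nat_lit 0x5c364d8)) e)) (c (c (m (nat_lit 0x187c848)) e) e)) (c (c (c (m (nat_lit
  0x406d6d0)) e) e) e)) (c (c (c (c (p (nat_lit 0x5c364d8)) e) e) e) e)) (c (c (c (c (c (m (nat_lit
  0x187c848)) e) e) e) e) e)) (c (c (c (c (c (c (m (nat_lit 0x406d6d0)) e) e) e) e) e) e)) (c (c (c (c (c (c
  (c (m (nat_lit 0x42fdd40)) e) e) e) e) e) e) e)) (c (c (c (c (c (c (c (c (m (nat_lit 0x1e23e20)) e) e) e)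
  e) e) e) e) e)) (c (c (c (c (c (c (c (c (c (p (nat_lit 0xfea00d8)) e) e) e) e) e) e) e) e) e)))))

noncomputable def gt_1_7 : Tr := (c gt_1_7_7 e)

noncomputable def gt_1 : Tr := (c gt_1_0 (c gt_1_1 (c gt_1_2 (c gt_1_3 (c gt_1_4 (c gt_1_5 (c gt_1_6 (c gt_1_7 e))))))))

end Dat

end HR
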