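import Pool.Agent.Lib.MP_a1b8b7_co.B.OwnOK

set_option autoImplicit false

namespace HR

namespace Own

namespace H0

open Chk

def col : Fin 10 → Bool := ![false, false, false, false, false, false, false, false, false, false]

def trs : List ℕ := [nat_lit 528, nat_lit 1072, nat_lit 1888, nat_lit 1329, nat_lit 2145, nat_lit 2403, nat_lit 1346, nat_lit 2162, nat_lit 2420, nat_lit 2437]

def kt : ℕ := nat_lit 0x29000000cd0000035d000008cf0000188100003dd20000896a0000eecb0001bbf40002d9ac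

open Ex in
noncomputable def E : Ex := (a (a (a (a (u (nat_lit 9) (a (v (nat_lit 9) (v (nat_lit 9) (v (nat_lit 9) (k (nat_lit 0x7299c0))))) (u (nat_lit 9) (v (nat_lit 9) (v (nat_lit 9) (k (nat_lit 0x729a08))))))) (a (v (nat_lit 8) (a (u (nat_lit 9) (v (nat_lit 9) (v (nat_lit 9) (k (nat_lit 0x131910))))) (v (nat_lit 8) (u (nat_lit 9) (v (nat_lit 9) (k (nat_lit 0x131934))))))) (u (nat_lit 8) (a (v (nat_lit 8) (a (v (nat_lit 9) (v (nat_lit 9) (k (nat_lit 0x131934)))) (v (nat_lit 8) (a (v (nat_lit 9) (k (nat_lit 0x131910))) (v (nat_lit 8) (k (nat_lit 0x7299c0))))))) (u (nat_lit 8) (v (nat_lit 8) (v (nat_lit 8) (k (nat_lit 0x729a08))))))))) (a (a (v (nat_lit 7) (a (a (u (nat_lit 9) (v (nat_lit 9) (v (nat_lit 9) (k (nat_lit 0x131910))))) (v (nat_lit 8) (u (nat_lit 9) (v (nat_lit 9) (k (nat_lit 0x134df0)))))) (a (u (nat_lit 8) (v (nat_lit 8) (a (v (nat_lit 9) (k (nat_lit 0x134df0))) (v (nat_lit 8) (k (nat_lit 0x131910)))))) (v (nat_lit 7) (a (u (nat_lit 9) (v (nat_lit 9) (k (nat_lit 0x131934)))) (u (nat_lit 8) (v (nat_lit 8) (k (nat_lit 0x131934))))))))) (u (nat_lit 7) (a (v (nat_lit 7) (a (v (nat_lit 9) (v (nat_lit 9) (k (nat_lit 0x131934)))) (a (v (nat_lit 8) (a (v (nat_lit 9) (k (nat_lit 0x134df0))) (v (nat_lit 8) (k (nat_lit 0x131934))))) (v (nat_lit 7) (a (v (nat_lit 9) (k (nat_lit 0x131910))) (a (v (nat_lit 8) (k (nat_lit 0x131910))) (v (nat_lit 7) (k (nat_lit 0x7299c0))))))))) (u (nat_lit 7) (v (nat_lit 7) (v (nat_lit 7) (k (nat_lit 0x729a08)))))))) (a (v (nat_lit 6) (a (a (u (nat_lit 9) (v (nat_lit 9) (v (nat_lit 9) (k (nat_lit 0x131910))))) (a (v (nat_lit 8) (u (nat_lit 9) (v (nat_lit 9) (k (nat_lit 0x134df0))))) (u (nat_lit 8) (v (nat_lit 8) (a (v (nat_lit 9) (k (nat_lit 0x134df0))) (v (nat_lit 8) (k (nat_lit 0x131910)))))))) (a (v (nat_lit 7) (a (u (nat_lit 9) (v (nat_lit 9) (k (nat_lit 0x134df0)))) (u (nat_lit 8) (v (nat_lit 8) (k (nat_lit 0x134df0)))))) (a (u (nat_lit 7) (v (nat_lit 7) (a (v (nat_lit 9) (k (nat_lit 0x134df0))) (a (v (nat_lit 8) (k (nat_lit 0x134df0))) (v (nat_lit 7) (k (nat_lit 0x131910))))))) (v (nat_lit 6) (a (u (nat_lit 9) (v (nat_lit 9) (k (nat_lit 0x131934)))) (a (u (nat_lit 8) (v (nat_lit 8) (k (nat_lit 0x131934)))) (u (nat_lit 7) (v (nat_lit 7) (k (nat_lit 0x131934))))))))))) (u (nat_lit 6) (a (v (nat_lit 6) (a (a (v (nat_lit 9) (v (nat_lit 9) (k (nat_lit 0x131934)))) (v (nat_lit 8) (a (v (nat_lit 9) (k (nat_lit 0x134df0))) (v (nat_lit 8) (k (nat_lit 0x131934)))))) (a (v (nat_lit 7) (a (v (nat_lit 9) (k (nat_lit 0x134df0))) (a (v (nat_lit 8) (k (nat_lit 0x134df0))) (v (nat_lit 7) (k (nat_lit 0x131934)))))) (v (nat_lit 6) (a (a (v (nat_lit 9) (k (nat_lit 0x131910))) (v (nat_lit 8) (k (nat_lit 0x131910)))) (a (v (nat_lit 7) (k (nat_lit 0x131910))) (v (nat_lit 6) (k (nat_lit 0x7299c0))))))))) (u (nat_lit 6) (v (nat_lit 6) (v (nat_lit 6) (k (nat_lit 0x729a08)))))))))) (a (a (v (nat_lit 5) (a (a (a (u (nat_lit 9) (v (nat_lit 9) (v (nat_lit 9) (k (nat_lit 0x131910))))) (v (nat_lit 8) (a (u (nat_lit 9) (v (nat_lit 9) (k (nat_lit 0x261120)))) (v (nat_lit 8) (u (nat_lit 9) (k (nat_lit 0x1319e8))))))) (a (u (nat_lit 8) (a (v (nat_lit 9) (v (nat_lit 9) (k (nat_lit 0x1319e8)))) (v (nat_lit 8) (a (v (nat_lit 9) (k (nat_lit 0x261120))) (v (nat_lit 8) (k (nat_lit 0x131910))))))) (v (nat_lit 7) (a (u (nat_lit 9) (v (nat_lit 9) (k (nat_lit 0x1329e4)))) (a (v (nat_lit 8) (u (nat_lit 9) (k (nat_lit 0x953f4)))) (u (nat_lit 8) (a (v (nat_lit 9) (k (nat_lit 0x953f4))) (v (nat_lit 8) (k (nat_lit 0x1329e4)))))))))) (a (a (u (nat_lit 7) (v (nat_lit 7) (a (v (nat_lit 9) (k (nat_lit 0x98ca6))) (a (v (nat_lit 8) (k (nat_lit 0x98ca6))) (v (nat_lit 7) (k (nat_lit 0x262920))))))) (v (nat_lit 6) (a (a (u (nat_lit 9) (v (nat_lit 9) (k (nat_lit 0x1329e4)))) (v (nat_lit 8) (u (nat_lit 9) (k (nat_lit 0x953f4))))) (a (u (nat_lit 8) (a (v (nat_lit 9) (k (nat_lit 0x953f4))) (v (nat_lit 8) (k (nat_lit 0x1329e4))))) (u (nat_lit 7) (v (nat_lit 7) (k (nat_lit 0x131bf8)))))))) (a (u (nat_lit 6) (a (u (nat_lit 7) (v (nat_lit 7) (k (nat_lit 0x132168)))) (v (nat_lit 6) (a (a (v (nat_lit 9) (k (nat_lit 0x98ca6))) (v (nat_lit 8) (k (nat_lit 0x98ca6)))) (a (v (nat_lit 7) (k (nat_lit 0x131bf8))) (a (u (nat_lit 7) (k (nat_lit 0x132168))) (v (nat_lit 6) (k (nat_lit 0x262920))))))))) (v (nat_lit 5) (a (a (u (nat_lit 9) (v (nat_lit 9) (k (nat_lit 0x131934)))) (v (nat_lit 8) (u (nat_lit 9) (k (nat_lit 0x1319e8))))) (a (u (nat_lit 8) (a (v (nat_lit 9) (k (nat_lit 0x1319e8))) (v (nat_lit 8) (k (nat_lit 0x131934))))) (a (u (nat_lit 7) (v (nat_lit 7) (k (nat_lit 0x263220)))) (u (nat_lit 6) (v (nat_lit 6) (k (nat_lit 0x263220)))))))))))) (a (u (nat_lit 5) (a (a (a (v (nat_lit 8) (a (v (nat_lit 9) (v (nat_lit 9) (k (nat_lit 0x1319e8)))) (v (nat_lit 8) (v (nat_lit 9) (k (nat_lit 0x1319e8)))))) (u (nat_lit 8) (a (u (nat_lit 9) (u (nat_lit 9) (k (nat_lit 0x261198)))) (u (nat_lit 8) (u (nat_lit 9) (k (nat_lit 0x261198))))))) (a (v (nat_lit 7) (u (nat_lit 8) (u (nat_lit 9) (k (nat_lit 0x136680))))) (u (nat_lit 7) (a (u (nat_lit 9) (v (nat_lit 9) (k (nat_lit 0x130830)))) (a (v (nat_lit 8) (v (nat_lit 9) (k (nat_lit 0x132954)))) (u (nat_lit 8) (v (nat_lit 8) (k (nat_lit 0x130830))))))))) (a (a (v (nat_lit 6) (u (nat_lit 8) (u (nat_lit 9) (k (nat_lit 0x136680))))) (u (nat_lit 6) (a (u (nat_lit 9) (v (nat_lit 9) (k (nat_lit 0x130830)))) (a (v (nat_lit 8) (v (nat_lit 9) (k (nat_lit 0x132954)))) (u (nat_lit 8) (v (nat_lit 8) (k (nat_lit 0x130830)))))))) (a (v (nat_lit 5) (a (a (v (nat_lit 9) (v (nat_lit 9) (k (nat_lit 0x131934)))) (v (nat_lit 8) (a (v (nat_lit 9) (k (nat_lit 0x261120))) (v (nat_lit 8) (k (nat_lit 0x131934)))))) (a (v (nat_lit 7) (a (v (nat_lit 9) (k (nat_lit 0x98ca6))) (a (v (nat_lit 8) (k (nat_lit 0x98ca6))) (v (nat_lit 7) (k (nat_lit 0x263220)))))) (a (v (nat_lit 6) (a (a (v (nat_lit 9) (k (nat_lit 0x98ca6))) (v (nat_lit 8) (k (nat_lit 0x98ca6)))) (a (v (nat_lit 7) (k (nat_lit 0x262968))) (v (nat_lit 6) (k (nat_lit 0x263220)))))) (v (nat_lit 5) (a (a (v (nat_lit 9) (k (nat_lit 0x131910))) (v (nat_lit 8) (k (nat_lit 0x131910)))) (a (v (nat_lit 7) (k (nat_lit 0x262920))) (a (v (nat_lit 6) (k (nat_lit 0x262920))) (v (nat_lit 5) (k (nat_lit 0x7299c0))))))))))) (u (nat_lit 5) (a (u (nat_lit 8) (u (nat_lit 9) (k (nat_lit 0x261198)))) (v (nat_lit 5) (v (nat_lit 5) (k (nat_lit 0x729a08)))))))))) (t (nat_lit 5) (nat_lit 8) (nat_lit 9) (a (v (nat_lit 6) (v (nat_lit 7) (a (u (nat_lit 9) (k (nat_lit 0x12e538))) (u (nat_lit 8) (k (nat_lit 0x12e538)))))) (u (nat_lit 5) (a (u (nat_lit 8) (u (nat_lit 9) (k (nat_lit 0x8b2f00)))) (a (u (nat_lit 7) (a (u (nat_lit 9) (k (nat_lit 0x784c52a))) (u (nat_lit 8) (k (nat_lit 0x784c52a))))) (u (nat_lit 6) (a (u (nat_lit 9) (k (nat_lit 0x784c52a))) (u (nat_lit 8) (k (nat_lit 0x784c52a)))))))))))) (a (a (v (nat_lit 4) (a (a (a (u (nat_lit 9) (v (nat_lit 9) (v (nat_lit 9) (k (nat_lit 0x131910))))) (v (nat_lit 8) (u (nat_lit 9) (v (nat_lit 9) (k (nat_lit 0x1329e4)))))) (a (u (nat_lit 8) (v (nat_lit 8) (a (v (nat_lit 9) (k (nat_lit 0x98ca6))) (v (nat_lit 8) (k (nat_lit 0x262920)))))) (a (v (nat_lit 7) (a (a (u (nat_lit 9) (v (nat_lit 9) (k (nat_lit 0x261120)))) (v (nat_lit 8) (u (nat_lit 9) (k (nat_lit 0x953f4))))) (a (u (nat_lit 8) (v (nat_lit 8) (k (nat_lit 0x98ca6)))) (v (nat_lit 7) (u (nat_lit 9) (k (nat_lit 0x1319e8))))))) (u (nat_lit 7) (a (v (nat_lit 9) (v (nat_lit 9) (k (nat_lit 0x1319e8)))) (a (v (nat_lit 8) (v (nat_lit 9) (k (nat_lit 0x953f4)))) (v (nat_lit 7) (a (v (nat_lit 9) (k (nat_lit 0x261120))) (a (v (nat_lit 8) (k (nat_lit 0x1329e4))) (v (nat_lit 7) (k (nat_lit 0x131910)))))))))))) (a (a (v (nat_lit 6) (a (a (u (nat_lit 9) (v (nat_lit 9) (k (nat_lit 0x1329e4)))) (u (nat_lit 8) (v (nat_lit 8) (k (nat_lit 0x131bf8))))) (a (v (nat_lit 7) (u (nat_lit 9) (k (nat_lit 0x953f4)))) (u (nat_lit 7) (a (v (nat_lit 9) (k (nat_lit 0x953f4))) (v (nat_lit 7) (k (nat_lit 0x1329e4)))))))) (a (u (nat_lit 6) (a (u (nat_lit 8) (v (nat_lit 8) (k (nat_lit 0x132168)))) (v (nat_lit 6) (a (a (v (nat_lit 9) (k (nat_lit 0x98ca6))) (v (nat_lit 8) (k (nat_lit 0x131bf8)))) (a (u (nat_lit 8) (k (nat_lit 0x132168))) (a (v (nat_lit 7) (k (nat_lit 0x98ca6))) (v (nat_lit 6) (k (nat_lit 0x262920))))))))) (v (nat_lit 5) (a (a (u (nat_lit 9) (v (nat_lit 9) (k (nat_lit 0x134df0)))) (a (v (nat_lit 8) (u (nat_lit 9) (k (nat_lit 0x953f4)))) (u (nat_lit 8) (v (nat_lit 8) (k (nat_lit 0x98ca6)))))) (a (v (nat_lit 7) (a (u (nat_lit 9) (k (nat_lit 0x953f4))) (u (nat_lit 8) (k (nat_lit 0x132e94))))) (a (u (nat_lit 7) (a (v (nat_lit 8) (k (nat_lit 0x132e94))) (v (nat_lit 7) (k (nat_lit 0x98ca6))))) (u (nat_lit 6) (v (nat_lit 6) (k (nat_lit 0x262968)))))))))) (a (u (nat_lit 5) (a (a (v (nat_lit 8) (v (nat_lit 9) (k (nat_lit 0x953f4)))) (u (nat_lit 8) (u (nat_lit 9) (k (nat_lit 0x136680))))) (a (v (nat_lit 7) (v (nat_lit 8) (k (nat_lit 0x132e94)))) (a (u (nat_lit 7) (v (nat_lit 9) (k (nat_lit 0x132954)))) (v (nat_lit 5) (a (a (v (nat_lit 9) (k (nat_lit 0x134df0))) (v (nat_lit 8) (k (nat_lit 0x1329e4)))) (a (v (nat_lit 7) (k (nat_lit 0x98ca6))) (a (v (nat_lit 6) (k (nat_lit 0x131bf8))) (v (nat_lit 5) (k (nat_lit 0x131910))))))))))) (a (t (nat_lit 5) (nat_lit 8) (nat_lit 9) (v (nat_lit 6) (u (nat_lit 7) (k (nat_lit 0x9a6ec))))) (v (nat_lit 4) (a (a (u (nat_lit 9) (v (nat_lit 9) (k (nat_lit 0x131934)))) (a (u (nat_lit 8) (v (nat_lit 8) (k (nat_lit 0x263220)))) (v (nat_lit 7) (u (nat_lit 9) (k (nat_lit 0x1319e8)))))) (a (u (nat_lit 7) (a (v (nat_lit 9) (k (nat_lit 0x1319e8))) (v (nat_lit 7) (k (nat_lit 0x131934))))) (a (u (nat_lit 6) (v (nat_lit 6) (k (nat_lit 0x263220)))) (u (nat_lit 5) (v (nat_lit 5) (k (nat_lit 0x131934))))))))))))) (u (nat_lit 4) (a (a (a (u (nat_lit 8) (u (nat_lit 9) (v (nat_lit 9) (k (nat_lit 0x130830))))) (v (nat_lit 7) (a (v (nat_lit 9) (v (nat_lit 9) (k (nat_lit 0x1319e8)))) (a (u (nat_lit 8) (v (nat_lit 9) (k (nat_lit 0x132954)))) (v (nat_lit 7) (v (nat_lit 9) (k (nat_lit 0x1319e8)))))))) (a (u (nat_lit 7) (a (a (u (nat_lit 9) (u (nat_lit 9) (k (nat_lit 0x261198)))) (v (nat_lit 8) (u (nat_lit 9) (k (nat_lit 0x136680))))) (a (v (nat_lit 7) (u (nat_lit 8) (k (nat_lit 0x130830)))) (u (nat_lit 7) (u (nat_lit 9) (k (nat_lit 0x261198))))))) (a (v (nat_lit 6) (u (nat_lit 7) (u (nat_lit 9) (k (nat_lit 0x136680))))) (u (nat_lit 6) (a (u (nat_lit 9) (v (nat_lit 9) (k (nat_lit 0x130830)))) (a (v (nat_lit 7) (v (nat_lit 9) (k (nat_lit 0x132954)))) (u (nat_lit 7) (v (nat_lit 7) (k (nat_lit 0x130830)))))))))) (a (a (v (nat_lit 5) (a (u (nat_lit 8) (v (nat_lit 9) (k (nat_lit 0x132954)))) (a (v (nat_lit 7) (a (v (nat_lit 9) (k (nat_lit 0x953f4))) (v (nat_lit 8) (k (nat_lit 0x132e94))))) (u (nat_lit 7) (u (nat_lit 9) (k (nat_lit 0x136680))))))) (u (nat_lit 5) (v (nat_lit 5) (a (u (nat_lit 8) (k (nat_lit 0x130830))) (v (nat_lit 6) (k (nat_lit 0x132168))))))) (a (t (nat_lit 5) (nat_lit 8) (nat_lit 9) (a (u (nat_lit 8) (u (nat_lit 9) (k (nat_lit 0x784c52a)))) (u (nat_lit 5) (u (nat_lit 8) (k (nat_lit 0x784c52a)))))) (a (v (nat_lit 4) (a (a (v (nat_lit 9) (v (nat_lit 9) (k (nat_lit 0x131934)))) (a (v (nat_lit 8) (a (v (nat_lit 9) (k (nat_lit 0x98ca6))) (v (nat_lit 8) (k (nat_lit 0x263220))))) (v (nat_lit 7) (a (v (nat_lit 9) (k (nat_lit 0x261120))) (a (v (nat_lit 8) (k (nat_lit 0x98ca6))) (v (nat_lit 7) (k (nat_lit 0x131934)))))))) (a (a (v (nat_lit 6) (a (a (v (nat_lit 9) (k (nat_lit 0x98ca6))) (v (nat_lit 8) (k (nat_lit 0x262968)))) (a (v (nat_lit 7) (k (nat_lit 0x98ca6))) (v (nat_lit 6) (k (nat_lit 0x263220)))))) (v (nat_lit 5) (a (a (v (nat_lit 9) (k (nat_lit 0x134df0))) (v (nat_lit 8) (k (nat_lit 0x98ca6)))) (a (v (nat_lit 7) (k (nat_lit 0x1329e4))) (a (v (nat_lit 6) (k (nat_lit 0x131bf8))) (v (nat_lit 5) (k (nat_lit 0x131934)))))))) (a (u (nat_lit 5) (a (u (nat_lit 7) (k (nat_lit 0x130830))) (v (nat_lit 6) (k (nat_lit 0x132168))))) (v (nat_lit 4) (a (a (v (nat_lit 9) (k (nat_lit 0x131910))) (a (v (nat_lit 8) (k (nat_lit 0x262920))) (v (nat_lit 7) (k (nat_lit 0x131910))))) (a (v (nat_lit 6) (k (nat_lit 0x262920))) (a (v (nat_lit 5) (k (nat_lit 0x131910))) (v (nat_lit 4) (k (nat_lit 0x7299c0))))))))))) (u (nat_lit 4) (a (u (nat_lit 7) (u (nat_lit 9) (k (nat_lit 0x261198)))) (v (nat_lit 4) (v (nat_lit 4) (k (nat_lit 0x729a08)))))))))))) (a (t (nat_lit 4) (nat_lit 7) (nat_lit 9) (a (a (v (nat_lit 6) (a (v (nat_lit 8) (u (nat_lit 9) (k (nat_lit 0x12e538)))) (u (nat_lit 7) (v (nat_lit 8) (k (nat_lit 0x12e538)))))) (v (nat_lit 5) (v (nat_lit 6) (u (nat_lit 8) (k (nat_lit 0x9a6ec)))))) (a (u (nat_lit 5) (u (nat_lit 7) (u (nat_lit 9) (k (nat_lit 0x784c52a))))) (u (nat_lit 4) (a (a (u (nat_lit 8) (u (nat_lit 9) (k (nat_lit 0x784c52a)))) (u (nat_lit 7) (a (u (nat_lit 9) (k (nat_lit 0x8b2f00))) (u (nat_lit 8) (k (nat_lit 0x784c52a)))))) (a (u (nat_lit 6) (a (u (nat_lit 9) (k (nat_lit 0x784c52a))) (u (nat_lit 7) (k (nat_lit 0x784c52a))))) (u (nat_lit 5) (u (nat_lit 7) (k (nat_lit 0x784c52a)))))))))) (v (nat_lit 3) (a (a (a (u (nat_lit 9) (v (nat_lit 9) (v (nat_lit 9) (k (nat_lit 0x131910))))) (a (v (nat_lit 8) (u (nat_lit 9) (v (nat_lit 9) (k (nat_lit 0x1329e4))))) (u (nat_lit 8) (v (nat_lit 8) (a (v (nat_lit 9) (k (nat_lit 0x98ca6))) (v (nat_lit 8) (k (nat_lit 0x262920)))))))) (a (a (v (nat_lit 7) (a (u (nat_lit 9) (v (nat_lit 9) (k (nat_lit 0x1329e4)))) (u (nat_lit 8) (v (nat_lit 8) (k (nat_lit 0x131bf8)))))) (u (nat_lit 7) (a (u (nat_lit 8) (v (nat_lit 8) (k (nat_lit 0x132168)))) (v (nat_lit 7) (a (a (v (nat_lit 9) (k (nat_lit 0x98ca6))) (v (nat_lit 8) (k (nat_lit 0x131bf8)))) (a (u (nat_lit 8) (k (nat_lit 0x132168))) (v (nat_lit 7) (k (nat_lit 0x262920))))))))) (a (v (nat_lit 6) (a (a (u (nat_lit 9) (v (nat_lit 9) (k (nat_lit 0x261120)))) (a (v (nat_lit 8) (u (nat_lit 9) (k (nat_lit 0x953f4)))) (u (nat_lit 8) (v (nat_lit 8) (k (nat_lit 0x98ca6)))))) (a (v (nat_lit 7) (u (nat_lit 9) (k (nat_lit 0x953f4)))) (a (u (nat_lit 7) (v (nat_lit 7) (k (nat_lit 0x98ca6)))) (v (nat_lit 6) (u (nat_lit 9) (k (nat_lit 0x1319e8)))))))) (u (nat_lit 6) (a (a (v (nat_lit 9) (v (nat_lit 9) (k (nat_lit 0x1319e8)))) (v (nat_lit 8) (v (nat_lit 9) (k (nat_lit 0x953f4))))) (a (v (nat_lit 7) (v (nat_lit 9) (k (nat_lit 0x953f4)))) (v (nat_lit 6) (a (a (v (nat_lit 9) (k (nat_lit 0x261120))) (v (nat_lit 8) (k (nat_lit 0x1329e4)))) (a (v (nat_lit 7) (k (nat_lit 0x1329e4))) (v (nat_lit 6) (k (nat_lit 0x131910)))))))))))) (a (a (v (nat_lit 5) (a (a (u (nat_lit 9) (v (nat_lit 9) (k (nat_lit 0x134df0)))) (a (v (nat_lit 8) (u (nat_lit 9) (k (nat_lit 0x953f4)))) (u (nat_lit 8) (v (nat_lit 8) (k (nat_lit 0x98ca6)))))) (a (u (nat_lit 7) (v (nat_lit 7) (k (nat_lit 0x262968)))) (a (v (nat_lit 6) (a (u (nat_lit 9) (k (nat_lit 0x953f4))) (u (nat_lit 8) (k (nat_lit 0x132e94))))) (u (nat_lit 6) (a (v (nat_lit 8) (k (nat_lit 0x132e94))) (v (nat_lit 6) (k (nat_lit 0x98ca6))))))))) (a (u (nat_lit 5) (a (a (v (nat_lit 8) (v (nat_lit 9) (k (nat_lit 0x953f4)))) (u (nat_lit 8) (u (nat_lit 9) (k (nat_lit 0x136680))))) (a (v (nat_lit 6) (v (nat_lit 8) (k (nat_lit 0x132e94)))) (a (u (nat_lit 6) (v (nat_lit 9) (k (nat_lit 0x132954)))) (v (nat_lit 5) (a (a (v (nat_lit 9) (k (nat_lit 0x134df0))) (v (nat_lit 8) (k (nat_lit 0x1329e4)))) (a (v (nat_lit 7) (k (nat_lit 0x131bf8))) (a (v (nat_lit 6) (k (nat_lit 0x98ca6))) (v (nat_lit 5) (k (nat_lit 0x131910))))))))))) (t (nat_lit 5) (nat_lit 8) (nat_lit 9) (u (nat_lit 6) (v (nat_lit 7) (k (nat_lit 0x9a6ec))))))) (a (a (v (nat_lit 4) (a (a (a (u (nat_lit 9) (v (nat_lit 9) (k (nat_lit 0x134df0)))) (u (nat_lit 8) (v (nat_lit 8) (k (nat_lit 0x262968))))) (a (v (nat_lit 7) (u (nat_lit 9) (k (nat_lit 0x953f4)))) (u (nat_lit 7) (v (nat_lit 7) (k (nat_lit 0x98ca6)))))) (a (a (v (nat_lit 6) (a (u (nat_lit 9) (k (nat_lit 0x953f4))) (u (nat_lit 7) (k (nat_lit 0x132e94))))) (u (nat_lit 6) (a (v (nat_lit 7) (k (nat_lit 0x132e94))) (v (nat_lit 6) (k (nat_lit 0x98ca6)))))) (a (u (nat_lit 5) (v (nat_lit 5) (k (nat_lit 0x134df0)))) (t (nat_lit 5) (nat_lit 8) (nat_lit 9) (a (u (nat_lit 9) (k (nat_lit 0x12e538))) (u (nat_lit 5) (k (nat_lit 0x12e538))))))))) (u (nat_lit 4) (a (a (v (nat_lit 7) (v (nat_lit 9) (k (nat_lit 0x953f4)))) (a (u (nat_lit 7) (u (nat_lit 9) (k (nat_lit 0x136680)))) (v (nat_lit 6) (v (nat_lit 7) (k (nat_lit 0x132e94)))))) (a (u (nat_lit 6) (v (nat_lit 9) (k (nat_lit 0x132954)))) (a (t (nat_lit 5) (nat_lit 8) (nat_lit 9) (v (nat_lit 7) (k (nat_lit 0x9a6ec)))) (v (nat_lit 4) (a (a (v (nat_lit 9) (k (nat_lit 0x134df0))) (a (v (nat_lit 8) (k (nat_lit 0x131bf8))) (v (nat_lit 7) (k (nat_lit 0x1329e4))))) (a (v (nat_lit 6) (k (nat_lit 0x98ca6))) (a (v (nat_lit 5) (k (nat_lit 0x134df0))) (v (nat_lit 4) (k (nat_lit 0x131910)))))))))))) (a (t (nat_lit 4) (nat_lit 7) (nat_lit 9) (a (a (u (nat_lit 6) (v (nat_lit 8) (k (nat_lit 0x9a6ec)))) (v (nat_lit 5) (u (nat_lit 9) (k (nat_lit 0x12e538))))) (a (u (nat_lit 5) (v (nat_lit 8) (k (nat_lit 0x9a6ec)))) (u (nat_lit 4) (v (nat_lit 5) (k (nat_lit 0x12e538))))))) (v (nat_lit 3) (a (a (u (nat_lit 9) (v (nat_lit 9) (k (nat_lit 0x131934)))) (a (u (nat_lit 8) (v (nat_lit 8) (k (nat_lit 0x263220)))) (u (nat_lit 7) (v (nat_lit 7) (k (nat_lit 0x263220)))))) (a (a (v (nat_lit 6) (u (nat_lit 9) (k (nat_lit 0x1319e8)))) (u (nat_lit 6) (a (v (nat_lit 9) (k (nat_lit 0x1319e8))) (v (nat_lit 6) (k (nat_lit 0x131934)))))) (a (u (nat_lit 5) (v (nat_lit 5) (k (nat_lit 0x131934)))) (u (nat_lit 4) (v (nat_lit 4) (k (nat_lit 0x131934))))))))))))))))) (a (a (a (u (nat_lit 3) (a (a (a (u (nat_lit 8) (u (nat_lit 9) (v (nat_lit 9) (k (nat_lit 0x130830))))) (a (u (nat_lit 7) (u (nat_lit 9) (v (nat_lit 9) (k (nat_lit 0x130830))))) (v (nat_lit 6) (a (a (v (nat_lit 9) (v (nat_lit 9) (k (nat_lit 0x1319e8)))) (u (nat_lit 8) (v (nat_lit 9) (k (nat_lit 0x132954))))) (a (u (nat_lit 7) (v (nat_lit 9) (k (nat_lit 0x132954)))) (v (nat_lit 6) (v (nat_lit 9) (k (nat_lit 0x1319e8))))))))) (a (u (nat_lit 6) (a (a (u (nat_lit 9) (u (nat_lit 9) (k (nat_lit 0x261198)))) (v (nat_lit 8) (u (nat_lit 9) (k (nat_lit 0x136680))))) (a (v (nat_lit 7) (u (nat_lit 9) (k (nat_lit 0x136680)))) (a (v (nat_lit 6) (a (u (nat_lit 8) (k (nat_lit 0x130830))) (u (nat_lit 7) (k (nat_lit 0x130830))))) (u (nat_lit 6) (u (nat_lit 9) (k (nat_lit 0x261198)))))))) (a (v (nat_lit 5) (a (u (nat_lit 8) (v (nat_lit 9) (k (nat_lit 0x132954)))) (a (v (nat_lit 6) (a (v (nat_lit 9) (k (nat_lit 0x953f4))) (v (nat_lit 8) (k (nat_lit 0x132e94))))) (u (nat_lit 6) (u (nat_lit 9) (k (nat_lit 0x136680))))))) (u (nat_lit 5) (v (nat_lit 5) (a (u (nat_lit 8) (k (nat_lit 0x130830))) (v (nat_lit 7) (k (nat_lit 0x132168))))))))) (a (a (t (nat_lit 5) (nat_lit 8) (nat_lit 9) (a (u (nat_lit 8) (u (nat_lit 9) (k (nat_lit 0x784c52a)))) (u (nat_lit 5) (u (nat_lit 8) (k (nat_lit 0x784c52a)))))) (a (v (nat_lit 4) (a (a (u (nat_lit 7) (v (nat_lit 9) (k (nat_lit 0x132954)))) (v (nat_lit 6) (a (v (nat_lit 9) (k (nat_lit 0x953f4))) (v (nat_lit 7) (k (nat_lit 0x132e94)))))) (a (u (nat_lit 6) (u (nat_lit 9) (k (nat_lit 0x136680)))) (t (nat_lit 5) (nat_lit 8) (nat_lit 9) (v (nat_lit 6) (k (nat_lit 0x9a6ec))))))) (u (nat_lit 4) (v (nat_lit 4) (a (v (nat_lit 8) (k (nat_lit 0x132168))) (u (nat_lit 7) (k (nat_lit 0x130830)))))))) (a (t (nat_lit 4) (nat_lit 7) (nat_lit 9) (a (u (nat_lit 7) (u (nat_lit 9) (k (nat_lit 0x784c52a)))) (a (v (nat_lit 5) (v (nat_lit 6) (k (nat_lit 0x9a6ec)))) (u (nat_lit 4) (u (nat_lit 7) (k (nat_lit 0x784c52a))))))) (a (v (nat_lit 3) (a (a (a (v (nat_lit 9) (v (nat_lit 9) (k (nat_lit 0x131934)))) (v (nat_lit 8) (a (v (nat_lit 9) (k (nat_lit 0x98ca6))) (v (nat_lit 8) (k (nat_lit 0x263220)))))) (a (v (nat_lit 7) (a (v (nat_lit 9) (k (nat_lit 0x98ca6))) (a (v (nat_lit 8) (k (nat_lit 0x262968))) (v (nat_lit 7) (k (nat_lit 0x263220)))))) (v (nat_lit 6) (a (a (v (nat_lit 9) (k (nat_lit 0x261120))) (v (nat_lit 8) (k (nat_lit 0x98ca6)))) (a (v (nat_lit 7) (k (nat_lit 0x98ca6))) (v (nat_lit 6) (k (nat_lit 0x131934)))))))) (a (a (v (nat_lit 5) (a (a (v (nat_lit 9) (k (nat_lit 0x134df0))) (v (nat_lit 8) (k (nat_lit 0x98ca6)))) (a (v (nat_lit 7) (k (nat_lit 0x131bf8))) (a (v (nat_lit 6) (k (nat_lit 0x1329e4))) (v (nat_lit 5) (k (nat_lit 0x131934))))))) (u (nat_lit 5) (a (v (nat_lit 7) (k (nat_lit 0x132168))) (u (nat_lit 6) (k (nat_lit 0x130830)))))) (a (v (nat_lit 4) (a (a (v (nat_lit 9) (k (nat_lit 0x134df0))) (a (v (nat_lit 8) (k (nat_lit 0x131bf8))) (v (nat_lit 7) (k (nat_lit 0x98ca6))))) (a (v (nat_lit 6) (k (nat_lit 0x1329e4))) (a (v (nat_lit 5) (k (nat_lit 0x134df0))) (v (nat_lit 4) (k (nat_lit 0x131934))))))) (a (u (nat_lit 4) (a (v (nat_lit 8) (k (nat_lit 0x132168))) (u (nat_lit 6) (k (nat_lit 0x130830))))) (v (nat_lit 3) (a (a (v (nat_lit 9) (k (nat_lit 0x131910))) (a (v (nat_lit 8) (k (nat_lit 0x262920))) (v (nat_lit 7) (k (nat_lit 0x262920))))) (a (a (v (nat_lit 6) (k (nat_lit 0x131910))) (v (nat_lit 5) (k (nat_lit 0x131910)))) (a (v (nat_lit 4) (k (nat_lit 0x131910))) (v (nat_lit 3) (k (nat_lit 0x7299c0)))))))))))) (u (nat_lit 3) (a (u (nat_lit 6) (u (nat_lit 9) (k (nat_lit 0x261198)))) (v (nat_lit 3) (v (nat_lit 3) (k (nat_lit 0x729a08))))))))))) (a (t (nat_lit 3) (nat_lit 6) (nat_lit 9) (a (a (v (nat_lit 7) (v (nat_lit 8) (u (nat_lit 9) (k (nat_lit 0x12e538))))) (a (u (nat_lit 6) (v (nat_lit 7) (v (nat_lit 8) (k (nat_lit 0x12e538))))) (v (nat_lit 5) (v (nat_lit 7) (u (nat_lit 8) (k (nat_lit 0x9a6ec))))))) (a (a (u (nat_lit 5) (u (nat_lit 6) (u (nat_lit 9) (k (nat_lit 0x784c52a))))) (v (nat_lit 4) (a (u (nat_lit 7) (v (nat_lit 8) (k (nat_lit 0x9a6ec)))) (a (v (nat_lit 5) (u (nat_lit 9) (k (nat_lit 0x12e538)))) (u (nat_lit 5) (v (nat_lit 8) (k (nat_lit 0x9a6ec)))))))) (a (u (nat_lit 4) (a (u (nat_lit 6) (u (nat_lit 9) (k (nat_lit 0x784c52a)))) (v (nat_lit 5) (v (nat_lit 7) (k (nat_lit 0x9a6ec)))))) (u (nat_lit 3) (a (a (u (nat_lit 8) (u (nat_lit 9) (k (nat_lit 0x784c52a)))) (a (u (nat_lit 7) (u (nat_lit 9) (k (nat_lit 0x784c52a)))) (u (nat_lit 6) (a (u (nat_lit 9) (k (nat_lit 0x8b2f00))) (a (u (nat_lit 8) (k (nat_lit 0x784c52a))) (u (nat_lit 7) (k (nat_lit 0x784c52a)))))))) (a (u (nat_lit 5) (u (nat_lit 6) (k (nat_lit 0x784c52a)))) (a (v (nat_lit 4) (v (nat_lit 5) (k (nat_lit 0x12e538)))) (u (nat_lit 4) (u (nat_lit 6) (k (nat_lit 0x784c52a)))))))))))) (v (nat_lit 2) (a (a (a (a (u (nat_lit 9) (v (nat_lit 9) (v (nat_lit 9) (k (nat_lit 0x262920))))) (v (nat_lit 8) (u (nat_lit 9) (v (nat_lit 9) (k (nat_lit 0x98ca6)))))) (a (u (nat_lit 8) (v (nat_lit 8) (a (v (nat_lit 9) (k (nat_lit 0x1329e4))) (v (nat_lit 8) (k (nat_lit 0x131910)))))) (v (nat_lit 7) (a (u (nat_lit 9) (v (nat_lit 9) (k (nat_lit 0x98ca6)))) (a (u (nat_lit 8) (a (v (nat_lit 9) (k (nat_lit 0x953f4))) (v (nat_lit 8) (k (nat_lit 0x261120))))) (v (nat_lit 7) (u (nat_lit 8) (k (nat_lit 0x1319e8))))))))) (a (a (u (nat_lit 7) (a (v (nat_lit 8) (a (v (nat_lit 9) (k (nat_lit 0x953f4))) (v (nat_lit 8) (k (nat_lit 0x1319e8))))) (v (nat_lit 7) (a (v (nat_lit 9) (k (nat_lit 0x1329e4))) (a (v (nat_lit 8) (k (nat_lit 0x261120))) (v (nat_lit 7) (k (nat_lit 0x131910)))))))) (v (nat_lit 6) (a (a (u (nat_lit 9) (v (nat_lit 9) (k (nat_lit 0x131bf8)))) (u (nat_lit 8) (v (nat_lit 8) (k (nat_lit 0x1329e4))))) (a (v (nat_lit 7) (u (nat_lit 8) (k (nat_lit 0x953f4)))) (u (nat_lit 7) (a (v (nat_lit 8) (k (nat_lit 0x953f4))) (v (nat_lit 7) (k (nat_lit 0x1329e4))))))))) (a (u (nat_lit 6) (a (u (nat_lit 9) (v (nat_lit 9) (k (nat_lit 0x132168)))) (v (nat_lit 6) (a (a (v (nat_lit 9) (k (nat_lit 0x131bf8))) (u (nat_lit 9) (k (nat_lit 0x132168)))) (a (v (nat_lit 8) (k (nat_lit 0x98ca6))) (a (v (nat_lit 7) (k (nat_lit 0x98ca6))) (v (nat_lit 6) (k (nat_lit 0x262920))))))))) (v (nat_lit 5) (a (a (u (nat_lit 9) (v (nat_lit 9) (k (nat_lit 0x98ca6)))) (u (nat_lit 8) (a (v (nat_lit 9) (k (nat_lit 0x953f4))) (v (nat_lit 8) (k (nat_lit 0x134df0)))))) (a (v (nat_lit 7) (a (u (nat_lit 9) (k (nat_lit 0x132e94))) (u (nat_lit 8) (k (nat_lit 0x953f4))))) (a (u (nat_lit 7) (a (v (nat_lit 9) (k (nat_lit 0x132e94))) (v (nat_lit 7) (k (nat_lit 0x98ca6))))) (u (nat_lit 6) (v (nat_lit 6) (k (nat_lit 0x262968))))))))))) (a (a (a (u (nat_lit 5) (a (a (v (nat_lit 8) (v (nat_lit 9) (k (nat_lit 0x953f4)))) (u (nat_lit 8) (u (nat_lit 9) (k (nat_lit 0x136680))))) (a (v (nat_lit 7) (v (nat_lit 9) (k (nat_lit 0x132e94)))) (a (u (nat_lit 7) (v (nat_lit 8) (k (nat_lit 0x132954)))) (v (nat_lit 5) (a (a (v (nat_lit 9) (k (nat_lit 0x1329e4))) (v (nat_lit 8) (k (nat_lit 0x134df0)))) (a (v (nat_lit 7) (k (nat_lit 0x98ca6))) (a (v (nat_lit 6) (k (nat_lit 0x131bf8))) (v (nat_lit 5) (k (nat_lit 0x131910))))))))))) (t (nat_lit 5) (nat_lit 8) (nat_lit 9) (v (nat_lit 6) (u (nat_lit 7) (k (nat_lit 0x9a6ec)))))) (a (v (nat_lit 4) (a (a (u (nat_lit 9) (v (nat_lit 9) (k (nat_lit 0x98ca6)))) (a (v (nat_lit 8) (u (nat_lit 9) (k (nat_lit 0x132e94)))) (u (nat_lit 8) (a (v (nat_lit 9) (k (nat_lit 0x132e94))) (v (nat_lit 8) (k (nat_lit 0x98ca6))))))) (a (a (u (nat_lit 7) (a (v (nat_lit 9) (k (nat_lit 0x953f4))) (a (v (nat_lit 8) (k (nat_lit 0x953f4))) (v (nat_lit 7) (k (nat_lit 0x134df0)))))) (u (nat_lit 6) (v (nat_lit 6) (k (nat_lit 0x262968))))) (a (u (nat_lit 5) (a (a (v (nat_lit 9) (k (nat_lit 0x953f4))) (v (nat_lit 8) (k (nat_lit 0x953f4)))) (a (u (nat_lit 7) (k (nat_lit 0x132954))) (a (v (nat_lit 6) (k (nat_lit 0x26b248))) (v (nat_lit 5) (k (nat_lit 0x261120))))))) (v (nat_lit 4) (u (nat_lit 5) (k (nat_lit 0x1319e8)))))))) (u (nat_lit 4) (a (a (v (nat_lit 8) (v (nat_lit 9) (k (nat_lit 0x132e94)))) (v (nat_lit 7) (a (v (nat_lit 9) (k (nat_lit 0x953f4))) (u (nat_lit 8) (k (nat_lit 0x132954)))))) (a (u (nat_lit 7) (u (nat_lit 9) (k (nat_lit 0x136680)))) (a (v (nat_lit 5) (a (a (v (nat_lit 9) (k (nat_lit 0x953f4))) (u (nat_lit 8) (k (nat_lit 0x132954)))) (a (v (nat_lit 7) (k (nat_lit 0x953f4))) (a (v (nat_lit 6) (k (nat_lit 0x26b248))) (v (nat_lit 5) (k (nat_lit 0x1319e8))))))) (v (nat_lit 4) (a (a (v (nat_lit 9) (k (nat_lit 0x1329e4))) (a (v (nat_lit 8) (k (nat_lit 0x98ca6))) (v (nat_lit 7) (k (nat_lit 0x134df0))))) (a (v (nat_lit 6) (k (nat_lit 0x131bf8))) (a (v (nat_lit 5) (k (nat_lit 0x261120))) (v (nat_lit 4) (k (nat_lit 0x131910))))))))))))) (a (a (t (nat_lit 4) (nat_lit 7) (nat_lit 9) (v (nat_lit 6) (u (nat_lit 8) (k (nat_lit 0x9a6ec))))) (v (nat_lit 3) (a (a (a (u (nat_lit 9) (v (nat_lit 9) (k (nat_lit 0x131bf8)))) (u (nat_lit 8) (v (nat_lit 8) (k (nat_lit 0x131bf8))))) (a (v (nat_lit 7) (u (nat_lit 8) (k (nat_lit 0x26b248)))) (a (u (nat_lit 7) (a (v (nat_lit 8) (k (nat_lit 0x26b248))) (v (nat_lit 7) (k (nat_lit 0x131bf8))))) (v (nat_lit 6) (u (nat_lit 9) (k (nat_lit 0x26b248))))))) (a (a (u (nat_lit 6) (a (v (nat_lit 9) (k (nat_lit 0x26b248))) (v (nat_lit 6) (k (nat_lit 0x131bf8))))) (u (nat_lit 5) (v (nat_lit 5) (k (nat_lit 0x1329e4))))) (a (v (nat_lit 4) (u (nat_lit 5) (k (nat_lit 0x953f4)))) (a (u (nat_lit 4) (a (v (nat_lit 5) (k (nat_lit 0x953f4))) (a (t (nat_lit 5) (nat_lit 8) (nat_lit 9) (k (nat_lit 0x9a6ec))) (v (nat_lit 4) (k (nat_lit 0x1329e4)))))) (t (nat_lit 4) (nat_lit 7) (nat_lit 9) (u (nat_lit 5) (k (nat_lit 0x9a6ec)))))))))) (a (u (nat_lit 3) (a (a (u (nat_lit 9) (v (nat_lit 9) (k (nat_lit 0x132168)))) (v (nat_lit 6) (v (nat_lit 9) (k (nat_lit 0x26b248))))) (a (u (nat_lit 6) (a (u (nat_lit 9) (k (nat_lit 0x7147b0))) (v (nat_lit 6) (k (nat_lit 0x132168))))) (v (nat_lit 3) (a (a (a (v (nat_lit 9) (k (nat_lit 0x131bf8))) (u (nat_lit 9) (k (nat_lit 0x132168)))) (a (v (nat_lit 8) (k (nat_lit 0x262968))) (v (nat_lit 7) (k (nat_lit 0x262968))))) (a (a (v (nat_lit 6) (k (nat_lit 0x131bf8))) (u (nat_lit 6) (k (nat_lit 0x132168)))) (a (v (nat_lit 5) (k (nat_lit 0x98ca6))) (a (v (nat_lit 4) (k (nat_lit 0x98ca6))) (v (nat_lit 3) (k (nat_lit 0x262920))))))))))) (a (t (nat_lit 3) (nat_lit 6) (nat_lit 9) (a (a (v (nat_lit 5) (u (nat_lit 7) (k (nat_lit 0x93d56)))) (u (nat_lit 5) (v (nat_lit 7) (k (nat_lit 0x93d56))))) (a (v (nat_lit 4) (u (nat_lit 8) (k (nat_lit 0x93d56)))) (u (nat_lit 4) (v (nat_lit 8) (k (nat_lit 0x93d56))))))) (v (nat_lit 2) (a (a (a (u (nat_lit 9) (v (nat_lit 9) (k (nat_lit 0x263220)))) (u (nat_lit 8) (v (nat_lit 8) (k (nat_lit 0x131934))))) (a (v (nat_lit 7) (u (nat_lit 8) (k (nat_lit 0x1319e8)))) (u (nat_lit 7) (a (v (nat_lit 8) (k (nat_lit 0x1319e8))) (v (nat_lit 7) (k (nat_lit 0x131934))))))) (a (a (u (nat_lit 6) (v (nat_lit 6) (k (nat_lit 0x263220)))) (u (nat_lit 5) (v (nat_lit 5) (k (nat_lit 0x131934))))) (a (v (nat_lit 4) (u (nat_lit 5) (k (nat_lit 0x1319e8)))) (a (u (nat_lit 4) (a (v (nat_lit 5) (k (nat_lit 0x1319e8))) (v (nat_lit 4) (k (nat_lit 0x131934))))) (u (nat_lit 3) (v (nat_lit 3) (k (nat_lit 0x263220))))))))))))))))) (a (a (u (nat_lit 2) (a (a (a (a (u (nat_lit 8) (v (nat_lit 8) (u (nat_lit 9) (k (nat_lit 0x130830))))) (v (nat_lit 7) (a (v (nat_lit 8) (a (u (nat_lit 9) (k (nat_lit 0x132954))) (v (nat_lit 8) (k (nat_lit 0x1319e8))))) (v (nat_lit 7) (v (nat_lit 8) (k (nat_lit 0x1319e8))))))) (a (u (nat_lit 7) (a (u (nat_lit 8) (a (v (nat_lit 9) (k (nat_lit 0x136680))) (u (nat_lit 8) (k (nat_lit 0x261198))))) (a (v (nat_lit 7) (u (nat_lit 9) (k (nat_lit 0x130830)))) (u (nat_lit 7) (u (nat_lit 8) (k (nat_lit 0x261198))))))) (v (nat_lit 6) (u (nat_lit 7) (u (nat_lit 8) (k (nat_lit 0x136680))))))) (a (a (u (nat_lit 6) (a (u (nat_lit 8) (v (nat_lit 8) (k (nat_lit 0x130830)))) (a (v (nat_lit 7) (v (nat_lit 8) (k (nat_lit 0x132954)))) (u (nat_lit 7) (v (nat_lit 7) (k (nat_lit 0x130830))))))) (v (nat_lit 5) (a (v (nat_lit 8) (u (nat_lit 9) (k (nat_lit 0x132954)))) (a (v (nat_lit 7) (a (v (nat_lit 9) (k (nat_lit 0x132e94))) (v (nat_lit 8) (k (nat_lit 0x953f4))))) (u (nat_lit 7) (u (nat_lit 8) (k (nat_lit 0x136680)))))))) (a (u (nat_lit 5) (v (nat_lit 5) (a (u (nat_lit 9) (k (nat_lit 0x130830))) (v (nat_lit 6) (k (nat_lit 0x132168)))))) (t (nat_lit 5) (nat_lit 8) (nat_lit 9) (a (u (nat_lit 8) (u (nat_lit 9) (k (nat_lit 0x784c52a)))) (u (nat_lit 5) (u (nat_lit 9) (k (nat_lit 0x784c52a))))))))) (a (a (a (v (nat_lit 4) (a (a (v (nat_lit 8) (v (nat_lit 9) (k (nat_lit 0x132e94)))) (v (nat_lit 7) (a (u (nat_lit 9) (k (nat_lit 0x132954))) (v (nat_lit 8) (k (nat_lit 0x953f4)))))) (a (u (nat_lit 7) (u (nat_lit 8) (k (nat_lit 0x136680)))) (a (v (nat_lit 5) (a (a (u (nat_lit 9) (k (nat_lit 0x132954))) (v (nat_lit 8) (k (nat_lit 0x953f4)))) (a (v (nat_lit 7) (k (nat_lit 0x953f4))) (a (v (nat_lit 6) (k (nat_lit 0x26b248))) (v (nat_lit 5) (k (nat_lit 0x1319e8))))))) (v (nat_lit 4) (v (nat_lit 5) (k (nat_lit 0x1319e8)))))))) (u (nat_lit 4) (a (u (nat_lit 5) (a (a (v (nat_lit 9) (k (nat_lit 0x136680))) (v (nat_lit 8) (k (nat_lit 0x136680)))) (a (v (nat_lit 7) (k (nat_lit 0x136680))) (a (v (nat_lit 6) (k (nat_lit 0x7147b0))) (u (nat_lit 5) (k (nat_lit 0x261198))))))) (a (v (nat_lit 4) (a (u (nat_lit 9) (k (nat_lit 0x130830))) (v (nat_lit 6) (k (nat_lit 0x132168))))) (u (nat_lit 4) (u (nat_lit 5) (k (nat_lit 0x261198)))))))) (a (t (nat_lit 4) (nat_lit 7) (nat_lit 9) (a (u (nat_lit 7) (u (nat_lit 9) (k (nat_lit 0x784c52a)))) (u (nat_lit 4) (u (nat_lit 9) (k (nat_lit 0x784c52a)))))) (v (nat_lit 3) (a (a (u (nat_lit 8) (v (nat_lit 8) (k (nat_lit 0x132168)))) (v (nat_lit 7) (v (nat_lit 8) (k (nat_lit 0x26b248))))) (a (u (nat_lit 7) (a (u (nat_lit 8) (k (nat_lit 0x7147b0))) (v (nat_lit 7) (k (nat_lit 0x132168))))) (u (nat_lit 4) (u (nat_lit 5) (k (nat_lit 0x136680))))))))) (a (a (u (nat_lit 3) (a (u (nat_lit 5) (v (nat_lit 5) (k (nat_lit 0x130830)))) (a (v (nat_lit 4) (v (nat_lit 5) (k (nat_lit 0x132954)))) (u (nat_lit 4) (v (nat_lit 4) (k (nat_lit 0x130830))))))) (t (nat_lit 3) (nat_lit 6) (nat_lit 9) (a (v (nat_lit 5) (v (nat_lit 7) (k (nat_lit 0x139c2c)))) (v (nat_lit 4) (v (nat_lit 8) (k (nat_lit 0x139c2c))))))) (a (v (nat_lit 2) (a (a (a (v (nat_lit 9) (v (nat_lit 9) (k (nat_lit 0x263220)))) (v (nat_lit 8) (a (v (nat_lit 9) (k (nat_lit 0x98ca6))) (v (nat_lit 8) (k (nat_lit 0x131934)))))) (a (v (nat_lit 7) (a (v (nat_lit 9) (k (nat_lit 0x98ca6))) (a (v (nat_lit 8) (k (nat_lit 0x261120))) (v (nat_lit 7) (k (nat_lit 0x131934)))))) (a (v (nat_lit 6) (a (a (v (nat_lit 9) (k (nat_lit 0x262968))) (v (nat_lit 8) (k (nat_lit 0x98ca6)))) (a (v (nat_lit 7) (k (nat_lit 0x98ca6))) (v (nat_lit 6) (k (nat_lit 0x263220)))))) (v (nat_lit 5) (a (a (v (nat_lit 9) (k (nat_lit 0x98ca6))) (v (nat_lit 8) (k (nat_lit 0x134df0)))) (a (v (nat_lit 7) (k (nat_lit 0x1329e4))) (a (v (nat_lit 6) (k (nat_lit 0x131bf8))) (v (nat_lit 5) (k (nat_lit 0x131934)))))))))) (a (a (u (nat_lit 5) (a (u (nat_lit 7) (k (nat_lit 0x130830))) (v (nat_lit 6) (k (nat_lit 0x132168))))) (v (nat_lit 4) (a (a (v (nat_lit 9) (k (nat_lit 0x98ca6))) (a (v (nat_lit 8) (k (nat_lit 0x1329e4))) (v (nat_lit 7) (k (nat_lit 0x134df0))))) (a (v (nat_lit 6) (k (nat_lit 0x131bf8))) (a (v (nat_lit 5) (k (nat_lit 0x261120))) (v (nat_lit 4) (k (nat_lit 0x131934)))))))) (a (u (nat_lit 4) (a (u (nat_lit 8) (k (nat_lit 0x130830))) (v (nat_lit 6) (k (nat_lit 0x132168))))) (a (v (nat_lit 3) (a (a (a (v (nat_lit 9) (k (nat_lit 0x262968))) (v (nat_lit 8) (k (nat_lit 0x131bf8)))) (a (u (nat_lit 8) (k (nat_lit 0x132168))) (v (nat_lit 7) (k (nat_lit 0x131bf8))))) (a (a (u (nat_lit 7) (k (nat_lit 0x132168))) (v (nat_lit 6) (k (nat_lit 0x262968)))) (a (v (nat_lit 5) (k (nat_lit 0x98ca6))) (a (v (nat_lit 4) (k (nat_lit 0x98ca6))) (v (nat_lit 3) (k (nat_lit 0x263220)))))))) (v (nat_lit 2) (a (a (a (v (nat_lit 9) (k (nat_lit 0x262920))) (v (nat_lit 8) (k (nat_lit 0x131910)))) (a (v (nat_lit 7) (k (nat_lit 0x131910))) (v (nat_lit 6) (k (nat_lit 0x262920))))) (a (a (v (nat_lit 5) (k (nat_lit 0x131910))) (v (nat_lit 4) (k (nat_lit 0x131910)))) (a (v (nat_lit 3) (k (nat_lit 0x262920))) (v (nat_lit 2) (k (nat_lit 0x7299c0)))))))))))) (u (nat_lit 2) (a (u (nat_lit 7) (u (nat_lit 8) (k (nat_lit 0x261198)))) (a (u (nat_lit 4) (u (nat_lit 5) (k (nat_lit 0x261198)))) (v (nat_lit 2) (v (nat_lit 2) (k (nat_lit 0x729a08)))))))))))) (t (nat_lit 2) (nat_lit 4) (nat_lit 5) (a (a (u (nat_lit 4) (u (nat_lit 5) (a (u (nat_lit 8) (k (nat_lit 0x784c52a))) (u (nat_lit 7) (k (nat_lit 0x784c52a)))))) (a (v (nat_lit 3) (a (a (v (nat_lit 8) (u (nat_lit 9) (k (nat_lit 0x9a6ec)))) (a (v (nat_lit 7) (u (nat_lit 9) (k (nat_lit 0x9a6ec)))) (v (nat_lit 6) (a (u (nat_lit 8) (k (nat_lit 0x93d56))) (u (nat_lit 7) (k (nat_lit 0x93d56))))))) (a (u (nat_lit 6) (a (v (nat_lit 8) (k (nat_lit 0x139c2c))) (v (nat_lit 7) (k (nat_lit 0x139c2c))))) (a (u (nat_lit 5) (v (nat_lit 9) (k (nat_lit 0x12e538)))) (u (nat_lit 4) (v (nat_lit 9) (k (nat_lit 0x12e538)))))))) (u (nat_lit 3) (v (nat_lit 6) (a (v (nat_lit 8) (k (nat_lit 0x93d56))) (v (nat_lit 7) (k (nat_lit 0x93d56)))))))) (a (a (t (nat_lit 3) (nat_lit 6) (nat_lit 9) (a (a (u (nat_lit 8) (u (nat_lit 9) (k (nat_lit 0x31e819c)))) (a (u (nat_lit 7) (u (nat_lit 9) (k (nat_lit 0x31e819c)))) (v (nat_lit 6) (u (nat_lit 9) (k (nat_lit 0x3d860fc)))))) (a (a (u (nat_lit 5) (u (nat_lit 8) (k (nat_lit 0x31e819c)))) (u (nat_lit 4) (u (nat_lit 7) (k (nat_lit 0x31e819c))))) (a (u (nat_lit 3) (v (nat_lit 6) (k (nat_lit 0x3d860fc)))) (t (nat_lit 3) (nat_lit 6) (nat_lit 9) (a (u (nat_lit 5) (k (nat_lit 0x131988))) (u (nat_lit 4) (k (nat_lit 0x131988))))))))) (v (nat_lit 2) (t (nat_lit 3) (nat_lit 6) (nat_lit 9) (a (u (nat_lit 5) (k (nat_lit 0x3d860fc))) (u (nat_lit 4) (k (nat_lit 0x3d860fc))))))) (a (u (nat_lit 2) (a (u (nat_lit 5) (a (u (nat_lit 9) (k (nat_lit 0x784c52a))) (u (nat_lit 7) (k (nat_lit 0x784c52a))))) (a (u (nat_lit 4) (a (u (nat_lit 9) (k (nat_lit 0x784c52a))) (a (u (nat_lit 8) (k (nat_lit 0x784c52a))) (u (nat_lit 5) (k (nat_lit 0x8b2f00)))))) (u (nat_lit 3) (a (u (nat_lit 5) (k (nat_lit 0x784c52a))) (u (nat_lit 4) (k (nat_lit 0x784c52a)))))))) (t (nat_lit 2) (nat_lit 4) (nat_lit 5) (t (nat_lit 3) (nat_lit 6) (nat_lit 9) (a (u (nat_lit 9) (k (nat_lit 0x131988))) (u (nat_lit 3) (k (nat_lit 0x131988))))))))))) (a (t (nat_lit 2) (nat_lit 7) (nat_lit 8) (a (a (a (v (nat_lit 6) (a (u (nat_lit 8) (v (nat_lit 9) (k (nat_lit 0x12e538)))) (u (nat_lit 7) (v (nat_lit 9) (k (nat_lit 0x12e538)))))) (a (v (nat_lit 5) (v (nat_lit 6) (u (nat_lit 9) (k (nat_lit 0x9a6ec))))) (u (nat_lit 5) (u (nat_lit 7) (u (nat_lit 8) (k (nat_lit 0x784c52a))))))) (a (v (nat_lit 4) (v (nat_lit 6) (u (nat_lit 9) (k (nat_lit 0x9a6ec))))) (a (u (nat_lit 4) (u (nat_lit 7) (u (nat_lit 8) (k (nat_lit 0x784c52a))))) (v (nat_lit 3) (a (a (v (nat_lit 5) (u (nat_lit 6) (k (nat_lit 0x93d56)))) (u (nat_lit 5) (v (nat_lit 6) (k (nat_lit 0x93d56))))) (a (v (nat_lit 4) (u (nat_lit 6) (k (nat_lit 0x93d56)))) (u (nat_lit 4) (v (nat_lit 6) (k (nat_lit 0x93d56)))))))))) (a (a (u (nat_lit 3) (a (v (nat_lit 5) (v (nat_lit 6) (k (nat_lit 0x139c2c)))) (v (nat_lit 4) (v (nat_lit 6) (k (nat_lit 0x139c2c)))))) (a (t (nat_lit 3) (nat_lit 6) (nat_lit 9) (a (a (u (nat_lit 5) (a (u (nat_lit 9) (k (nat_lit 0x31e819c))) (u (nat_lit 8) (k (nat_lit 0x31e819c))))) (u (nat_lit 4) (a (u (nat_lit 9) (k (nat_lit 0x31e819c))) (u (nat_lit 7) (k (nat_lit 0x31e819c)))))) (a (v (nat_lit 3) (a (u (nat_lit 9) (k (nat_lit 0x3d860fc))) (u (nat_lit 6) (k (nat_lit 0x3d860fc))))) (t (nat_lit 3) (nat_lit 6) (nat_lit 9) (a (u (nat_lit 8) (k (nat_lit 0x131988))) (u (nat_lit 7) (k (nat_lit 0x131988)))))))) (v (nat_lit 2) (t (nat_lit 3) (nat_lit 6) (nat_lit 9) (a (u (nat_lit 8) (k (nat_lit 0x3d860fc))) (u (nat_lit 7) (k (nat_lit 0x3d860fc)))))))) (a (u (nat_lit 2) (a (a (u (nat_lit 8) (u (nat_lit 9) (k (nat_lit 0x784c52a)))) (u (nat_lit 7) (a (u (nat_lit 9) (k (nat_lit 0x784c52a))) (u (nat_lit 8) (k (nat_lit 0x8b2f00)))))) (a (u (nat_lit 6) (a (u (nat_lit 8) (k (nat_lit 0x784c52a))) (u (nat_lit 7) (k (nat_lit 0x784c52a))))) (a (u (nat_lit 5) (u (nat_lit 7) (k (nat_lit 0x784c52a)))) (u (nat_lit 4) (u (nat_lit 8) (k (nat_lit 0x784c52a)))))))) (a (t (nat_lit 2) (nat_lit 4) (nat_lit 5) (u (nat_lit 2) (t (nat_lit 3) (nat_lit 6) (nat_lit 9) (k (nat_lit 0x263400))))) (t (nat_lit 2) (nat_lit 7) (nat_lit 8) (t (nat_lit 3) (nat_lit 6) (nat_lit 9) (a (u (nat_lit 9) (k (nat_lit 0x131988))) (u (nat_lit 6) (k (nat_lit 0x131988))))))))))) (v (nat_lit 1) (a (a (a (a (u (nat_lit 9) (v (nat_lit 9) (v (nat_lit 9) (k (nat_lit 0x262920))))) (v (nat_lit 8) (u (nat_lit 9) (v (nat_lit 9) (k (nat_lit 0x98ca6)))))) (a (u (nat_lit 8) (v (nat_lit 8) (a (v (nat_lit 9) (k (nat_lit 0x1329e4))) (v (nat_lit 8) (k (nat_lit 0x131910)))))) (a (v (nat_lit 7) (a (u (nat_lit 9) (v (nat_lit 9) (k (nat_lit 0x131bf8)))) (u (nat_lit 8) (v (nat_lit 8) (k (nat_lit 0x1329e4)))))) (u (nat_lit 7) (a (u (nat_lit 9) (v (nat_lit 9) (k (nat_lit 0x132168)))) (v (nat_lit 7) (a (a (v (nat_lit 9) (k (nat_lit 0x131bf8))) (u (nat_lit 9) (k (nat_lit 0x132168)))) (a (v (nat_lit 8) (k (nat_lit 0x98ca6))) (v (nat_lit 7) (k (nat_lit 0x262920))))))))))) (a (a (v (nat_lit 6) (a (a (u (nat_lit 9) (v (nat_lit 9) (k (nat_lit 0x98ca6)))) (u (nat_lit 8) (a (v (nat_lit 9) (k (nat_lit 0x953f4))) (v (nat_lit 8) (k (nat_lit 0x261120)))))) (a (v (nat_lit 7) (u (nat_lit 8) (k (nat_lit 0x953f4)))) (a (u (nat_lit 7) (v (nat_lit 7) (k (nat_lit 0x98ca6)))) (v (nat_lit 6) (u (nat_lit 8) (k (nat_lit 0x1319e8)))))))) (u (nat_lit 6) (a (v (nat_lit 8) (a (v (nat_lit 9) (k (nat_lit 0x953f4))) (v (nat_lit 8) (k (nat_lit 0x1319e8))))) (a (v (nat_lit 7) (v (nat_lit 8) (k (nat_lit 0x953f4)))) (v (nat_lit 6) (a (a (v (nat_lit 9) (k (nat_lit 0x1329e4))) (v (nat_lit 8) (k (nat_lit 0x261120)))) (a (v (nat_lit 7) (k (nat_lit 0x1329e4))) (v (nat_lit 6) (k (nat_lit 0x131910)))))))))) (a (v (nat_lit 5) (a (a (u (nat_lit 9) (v (nat_lit 9) (k (nat_lit 0x98ca6)))) (u (nat_lit 8) (a (v (nat_lit 9) (k (nat_lit 0x953f4))) (v (nat_lit 8) (k (nat_lit 0x134df0)))))) (a (u (nat_lit 7) (v (nat_lit 7) (k (nat_lit 0x262968)))) (a (v (nat_lit 6) (a (u (nat_lit 9) (k (nat_lit 0x132e94))) (u (nat_lit 8) (k (nat_lit 0x953f4))))) (u (nat_lit 6) (a (v (nat_lit 9) (k (nat_lit 0x132e94))) (v (nat_lit 6) (k (nat_lit 0x98ca6))))))))) (a (u (nat_lit 5) (a (a (v (nat_lit 8) (v (nat_lit 9) (k (nat_lit 0x953f4)))) (u (nat_lit 8) (u (nat_lit 9) (k (nat_lit 0x136680))))) (a (v (nat_lit 6) (v (nat_lit 9) (k (nat_lit 0x132e94)))) (a (u (nat_lit 6) (v (nat_lit 8) (k (nat_lit 0x132954)))) (v (nat_lit 5) (a (a (v (nat_lit 9) (k (nat_lit 0x1329e4))) (v (nat_lit 8) (k (nat_lit 0x134df0)))) (a (v (nat_lit 7) (k (nat_lit 0x131bf8))) (a (v (nat_lit 6) (k (nat_lit 0x98ca6))) (v (nat_lit 5) (k (nat_lit 0x131910))))))))))) (t (nat_lit 5) (nat_lit 8) (nat_lit 9) (u (nat_lit 6) (v (nat_lit 7) (k (nat_lit 0x9a6ec))))))))) (a (a (a (v (nat_lit 4) (a (a (u (nat_lit 9) (v (nat_lit 9) (k (nat_lit 0x131bf8)))) (a (u (nat_lit 8) (v (nat_lit 8) (k (nat_lit 0x131bf8)))) (v (nat_lit 7) (u (nat_lit 9) (k (nat_lit 0x26b248)))))) (a (a (u (nat_lit 7) (a (v (nat_lit 9) (k (nat_lit 0x26b248))) (v (nat_lit 7) (k (nat_lit 0x131bf8))))) (v (nat_lit 6) (u (nat_lit 8) (k (nat_lit 0x26b248))))) (a (u (nat_lit 6) (a (v (nat_lit 8) (k (nat_lit 0x26b248))) (v (nat_lit 6) (k (nat_lit 0x131bf8))))) (u (nat_lit 5) (v (nat_lit 5) (k (nat_lit 0x1329e4)))))))) (u (nat_lit 4) (a (a (u (nat_lit 9) (v (nat_lit 9) (k (nat_lit 0x132168)))) (v (nat_lit 7) (v (nat_lit 9) (k (nat_lit 0x26b248))))) (a (u (nat_lit 7) (a (u (nat_lit 9) (k (nat_lit 0x7147b0))) (v (nat_lit 7) (k (nat_lit 0x132168))))) (v (nat_lit 4) (a (a (a (v (nat_lit 9) (k (nat_lit 0x131bf8))) (u (nat_lit 9) (k (nat_lit 0x132168)))) (a (v (nat_lit 8) (k (nat_lit 0x262968))) (v (nat_lit 7) (k (nat_lit 0x131bf8))))) (a (a (u (nat_lit 7) (k (nat_lit 0x132168))) (v (nat_lit 6) (k (nat_lit 0x262968)))) (a (v (nat_lit 5) (k (nat_lit 0x98ca6))) (v (nat_lit 4) (k (nat_lit 0x262920))))))))))) (a (t (nat_lit 4) (nat_lit 7) (nat_lit 9) (a (v (nat_lit 5) (u (nat_lit 6) (k (nat_lit 0x93d56)))) (u (nat_lit 5) (v (nat_lit 6) (k (nat_lit 0x93d56)))))) (a (v (nat_lit 3) (a (a (a (u (nat_lit 9) (v (nat_lit 9) (k (nat_lit 0x98ca6)))) (v (nat_lit 8) (u (nat_lit 9) (k (nat_lit 0x132e94))))) (a (u (nat_lit 8) (a (v (nat_lit 9) (k (nat_lit 0x132e94))) (v (nat_lit 8) (k (nat_lit 0x98ca6))))) (a (u (nat_lit 7) (v (nat_lit 7) (k (nat_lit 0x262968)))) (u (nat_lit 6) (a (v (nat_lit 9) (k (nat_lit 0x953f4))) (a (v (nat_lit 8) (k (nat_lit 0x953f4))) (v (nat_lit 6) (k (nat_lit 0x134df0))))))))) (a (a (u (nat_lit 5) (a (a (v (nat_lit 9) (k (nat_lit 0x953f4))) (v (nat_lit 8) (k (nat_lit 0x953f4)))) (a (v (nat_lit 7) (k (nat_lit 0x26b248))) (a (u (nat_lit 6) (k (nat_lit 0x132954))) (v (nat_lit 5) (k (nat_lit 0x261120))))))) (v (nat_lit 4) (u (nat_lit 5) (k (nat_lit 0x953f4))))) (a (u (nat_lit 4) (v (nat_lit 4) (k (nat_lit 0x98ca6)))) (a (t (nat_lit 4) (nat_lit 7) (nat_lit 9) (u (nat_lit 8) (k (nat_lit 0x93d56)))) (v (nat_lit 3) (u (nat_lit 5) (k (nat_lit 0x1319e8))))))))) (u (nat_lit 3) (a (a (v (nat_lit 8) (v (nat_lit 9) (k (nat_lit 0x132e94)))) (a (v (nat_lit 6) (a (v (nat_lit 9) (k (nat_lit 0x953f4))) (u (nat_lit 8) (k (nat_lit 0x132954))))) (u (nat_lit 6) (u (nat_lit 9) (k (nat_lit 0x136680)))))) (a (a (v (nat_lit 5) (a (a (v (nat_lit 9) (k (nat_lit 0x953f4))) (u (nat_lit 8) (k (nat_lit 0x132954)))) (a (v (nat_lit 7) (k (nat_lit 0x26b248))) (a (v (nat_lit 6) (k (nat_lit 0x953f4))) (v (nat_lit 5) (k (nat_lit 0x1319e8))))))) (v (nat_lit 4) (a (v (nat_lit 5) (k (nat_lit 0x953f4))) (t (nat_lit 5) (nat_lit 8) (nat_lit 9) (k (nat_lit 0x9a6ec)))))) (a (t (nat_lit 4) (nat_lit 7) (nat_lit 9) (v (nat_lit 8) (k (nat_lit 0x93d56)))) (v (nat_lit 3) (a (a (v (nat_lit 9) (k (nat_lit 0x1329e4))) (a (v (nat_lit 8) (k (nat_lit 0x98ca6))) (v (nat_lit 7) (k (nat_lit 0x131bf8))))) (a (a (v (nat_lit 6) (k (nat_lit 0x134df0))) (v (nat_lit 5) (k (nat_lit 0x261120)))) (a (v (nat_lit 4) (k (nat_lit 0x1329e4))) (v (nat_lit 3) (k (nat_lit 0x131910)))))))))))))) (a (a (t (nat_lit 3) (nat_lit 6) (nat_lit 9) (a (v (nat_lit 7) (u (nat_lit 8) (k (nat_lit 0x9a6ec)))) (v (nat_lit 4) (u (nat_lit 5) (k (nat_lit 0x9a6ec)))))) (a (v (nat_lit 2) (a (a (a (u (nat_lit 9) (v (nat_lit 9) (k (nat_lit 0x262968)))) (a (u (nat_lit 8) (v (nat_lit 8) (k (nat_lit 0x134df0)))) (v (nat_lit 7) (u (nat_lit 8) (k (nat_lit 0x953f4)))))) (a (a (u (nat_lit 7) (v (nat_lit 7) (k (nat_lit 0x98ca6)))) (v (nat_lit 6) (a (u (nat_lit 8) (k (nat_lit 0x953f4))) (u (nat_lit 7) (k (nat_lit 0x132e94)))))) (a (u (nat_lit 6) (a (v (nat_lit 7) (k (nat_lit 0x132e94))) (v (nat_lit 6) (k (nat_lit 0x98ca6))))) (u (nat_lit 5) (v (nat_lit 5) (k (nat_lit 0x134df0))))))) (a (a (t (nat_lit 5) (nat_lit 8) (nat_lit 9) (a (u (nat_lit 8) (k (nat_lit 0x12e538))) (u (nat_lit 5) (k (nat_lit 0x12e538))))) (a (v (nat_lit 4) (u (nat_lit 5) (k (nat_lit 0x953f4)))) (u (nat_lit 4) (v (nat_lit 4) (k (nat_lit 0x98ca6)))))) (a (a (t (nat_lit 4) (nat_lit 7) (nat_lit 9) (u (nat_lit 6) (k (nat_lit 0x93d56)))) (v (nat_lit 3) (a (u (nat_lit 5) (k (nat_lit 0x953f4))) (u (nat_lit 4) (k (nat_lit 0x132e94)))))) (a (u (nat_lit 3) (a (v (nat_lit 4) (k (nat_lit 0x132e94))) (a (t (nat_lit 4) (nat_lit 7) (nat_lit 9) (k (nat_lit 0x93d56))) (v (nat_lit 3) (k (nat_lit 0x98ca6)))))) (t (nat_lit 3) (nat_lit 6) (nat_lit 9) (a (u (nat_lit 7) (k (nat_lit 0x93d56))) (u (nat_lit 4) (k (nat_lit 0x93d56)))))))))) (u (nat_lit 2) (a (a (a (v (nat_lit 7) (v (nat_lit 8) (k (nat_lit 0x953f4)))) (a (u (nat_lit 7) (u (nat_lit 8) (k (nat_lit 0x136680)))) (v (nat_lit 6) (v (nat_lit 7) (k (nat_lit 0x132e94)))))) (a (u (nat_lit 6) (v (nat_lit 8) (k (nat_lit 0x132954)))) (a (t (nat_lit 5) (nat_lit 8) (nat_lit 9) (v (nat_lit 7) (k (nat_lit 0x9a6ec)))) (v (nat_lit 4) (a (v (nat_lit 5) (k (nat_lit 0x953f4))) (t (nat_lit 5) (nat_lit 8) (nat_lit 9) (k (nat_lit 0x9a6ec)))))))) (a (a (u (nat_lit 4) (u (nat_lit 5) (k (nat_lit 0x136680)))) (a (t (nat_lit 4) (nat_lit 7) (nat_lit 9) (v (nat_lit 6) (k (nat_lit 0x93d56)))) (v (nat_lit 3) (a (v (nat_lit 4) (k (nat_lit 0x132e94))) (t (nat_lit 4) (nat_lit 7) (nat_lit 9) (k (nat_lit 0x93d56))))))) (a (u (nat_lit 3) (v (nat_lit 5) (k (nat_lit 0x132954)))) (a (t (nat_lit 3) (nat_lit 6) (nat_lit 9) (a (v (nat_lit 7) (k (nat_lit 0x139c2c))) (v (nat_lit 4) (k (nat_lit 0x139c2c))))) (v (nat_lit 2) (a (a (a (v (nat_lit 9) (k (nat_lit 0x131bf8))) (v (nat_lit 8) (k (nat_lit 0x134df0)))) (a (v (nat_lit 7) (k (nat_lit 0x1329e4))) (v (nat_lit 6) (k (nat_lit 0x98ca6))))) (a (a (v (nat_lit 5) (k (nat_lit 0x134df0))) (v (nat_lit 4) (k (nat_lit 0x1329e4)))) (a (v (nat_lit 3) (k (nat_lit 0x98ca6))) (v (nat_lit 2) (k (nat_lit 0x131910)))))))))))))) (a (t (nat_lit 2) (nat_lit 4) (nat_lit 5) (a (a (u (nat_lit 8) (v (nat_lit 9) (k (nat_lit 0x9a6ec)))) (a (v (nat_lit 7) (u (nat_lit 8) (k (nat_lit 0x9a6ec)))) (v (nat_lit 6) (a (u (nat_lit 9) (k (nat_lit 0x93d56))) (u (nat_lit 7) (k (nat_lit 0x93d56))))))) (a (a (u (nat_lit 6) (a (v (nat_lit 9) (k (nat_lit 0x139c2c))) (v (nat_lit 7) (k (nat_lit 0x139c2c))))) (u (nat_lit 5) (v (nat_lit 8) (k (nat_lit 0x12e538))))) (a (u (nat_lit 3) (v (nat_lit 9) (k (nat_lit 0x9a6ec)))) (u (nat_lit 2) (v (nat_lit 8) (k (nat_lit 0x12e538)))))))) (a (t (nat_lit 2) (nat_lit 7) (nat_lit 8) (a (a (u (nat_lit 6) (v (nat_lit 9) (k (nat_lit 0x9a6ec)))) (a (v (nat_lit 5) (u (nat_lit 8) (k (nat_lit 0x12e538)))) (u (nat_lit 5) (v (nat_lit 9) (k (nat_lit 0x9a6ec)))))) (a (a (v (nat_lit 4) (u (nat_lit 5) (k (nat_lit 0x9a6ec)))) (v (nat_lit 3) (a (u (nat_lit 9) (k (nat_lit 0x93d56))) (u (nat_lit 4) (k (nat_lit 0x93d56)))))) (a (u (nat_lit 3) (a (v (nat_lit 9) (k (nat_lit 0x139c2c))) (v (nat_lit 4) (k (nat_lit 0x139c2c))))) (u (nat_lit 2) (v (nat_lit 5) (k (nat_lit 0x12e538)))))))) (v (nat_lit 1) (a (a (a (u (nat_lit 9) (v (nat_lit 9) (k (nat_lit 0x263220)))) (u (nat_lit 8) (v (nat_lit 8) (k (nat_lit 0x131934))))) (a (u (nat_lit 7) (v (nat_lit 7) (k (nat_lit 0x263220)))) (a (v (nat_lit 6) (u (nat_lit 8) (k (nat_lit 0x1319e8)))) (u (nat_lit 6) (a (v (nat_lit 8) (k (nat_lit 0x1319e8))) (v (nat_lit 6) (k (nat_lit 0x131934)))))))) (a (a (u (nat_lit 5) (v (nat_lit 5) (k (nat_lit 0x131934)))) (u (nat_lit 4) (v (nat_lit 4) (k (nat_lit 0x263220))))) (a (v (nat_lit 3) (u (nat_lit 5) (k (nat_lit 0x1319e8)))) (a (u (nat_lit 3) (a (v (nat_lit 5) (k (nat_lit 0x1319e8))) (v (nat_lit 3) (k (nat_lit 0x131934))))) (u (nat_lit 2) (v (nat_lit 2) (k (nat_lit 0x131934)))))))))))))))))) (a (a (a (u (nat_lit 1) (a (a (a (a (u (nat_lit 8) (v (nat_lit 8) (u (nat_lit 9) (k (nat_lit 0x130830))))) (u (nat_lit 7) (u (nat_lit 8) (v (nat_lit 8) (k (nat_lit 0x130830)))))) (a (v (nat_lit 6) (a (v (nat_lit 8) (a (u (nat_lit 9) (k (nat_lit 0x132954))) (v (nat_lit 8) (k (nat_lit 0x1319e8))))) (a (u (nat_lit 7) (v (nat_lit 8) (k (nat_lit 0x132954)))) (v (nat_lit 6) (v (nat_lit 8) (k (nat_lit 0x1319e8))))))) (u (nat_lit 6) (a (a (u (nat_lit 8) (a (v (nat_lit 9) (k (nat_lit 0x136680))) (u (nat_lit 8) (k (nat_lit 0x261198))))) (v (nat_lit 7) (u (nat_lit 8) (k (nat_lit 0x136680))))) (a (v (nat_lit 6) (a (u (nat_lit 9) (k (nat_lit 0x130830))) (u (nat_lit 7) (k (nat_lit 0x130830))))) (u (nat_lit 6) (u (nat_lit 8) (k (nat_lit 0x261198))))))))) (a (a (v (nat_lit 5) (a (v (nat_lit 8) (u (nat_lit 9) (k (nat_lit 0x132954)))) (a (v (nat_lit 6) (a (v (nat_lit 9) (k (nat_lit 0x132e94))) (v (nat_lit 8) (k (nat_lit 0x953f4))))) (u (nat_lit 6) (u (nat_lit 8) (k (nat_lit 0x136680))))))) (u (nat_lit 5) (v (nat_lit 5) (a (u (nat_lit 9) (k (nat_lit 0x130830))) (v (nat_lit 7) (k (nat_lit 0x132168))))))) (a (t (nat_lit 5) (nat_lit 8) (nat_lit 9) (a (u (nat_lit 8) (u (nat_lit 9) (k (nat_lit 0x784c52a)))) (u (nat_lit 5) (u (nat_lit 9) (k (nat_lit 0x784c52a)))))) (a (v (nat_lit 4) (a (u (nat_lit 8) (v (nat_lit 8) (k (nat_lit 0x132168)))) (a (v (nat_lit 6) (v (nat_lit 8) (k (nat_lit 0x26b248)))) (u (nat_lit 6) (a (u (nat_lit 8) (k (nat_lit 0x7147b0))) (v (nat_lit 6) (k (nat_lit 0x132168)))))))) (u (nat_lit 4) (u (nat_lit 5) (v (nat_lit 5) (k (nat_lit 0x130830))))))))) (a (a (a (t (nat_lit 4) (nat_lit 7) (nat_lit 9) (v (nat_lit 5) (v (nat_lit 6) (k (nat_lit 0x139c2c))))) (v (nat_lit 3) (a (a (v (nat_lit 8) (v (nat_lit 9) (k (nat_lit 0x132e94)))) (a (v (nat_lit 6) (a (u (nat_lit 9) (k (nat_lit 0x132954))) (v (nat_lit 8) (k (nat_lit 0x953f4))))) (u (nat_lit 6) (u (nat_lit 8) (k (nat_lit 0x136680)))))) (a (a (v (nat_lit 5) (a (a (u (nat_lit 9) (k (nat_lit 0x132954))) (v (nat_lit 8) (k (nat_lit 0x953f4)))) (a (v (nat_lit 7) (k (nat_lit 0x26b248))) (a (v (nat_lit 6) (k (nat_lit 0x953f4))) (v (nat_lit 5) (k (nat_lit 0x1319e8))))))) (u (nat_lit 4) (v (nat_lit 5) (k (nat_lit 0x132954))))) (a (t (nat_lit 4) (nat_lit 7) (nat_lit 9) (v (nat_lit 8) (k (nat_lit 0x139c2c)))) (v (nat_lit 3) (v (nat_lit 5) (k (nat_lit 0x1319e8))))))))) (a (u (nat_lit 3) (a (a (u (nat_lit 5) (a (a (v (nat_lit 9) (k (nat_lit 0x136680))) (v (nat_lit 8) (k (nat_lit 0x136680)))) (a (v (nat_lit 7) (k (nat_lit 0x7147b0))) (a (v (nat_lit 6) (k (nat_lit 0x136680))) (u (nat_lit 5) (k (nat_lit 0x261198))))))) (v (nat_lit 4) (u (nat_lit 5) (k (nat_lit 0x136680))))) (a (v (nat_lit 3) (a (u (nat_lit 9) (k (nat_lit 0x130830))) (a (v (nat_lit 7) (k (nat_lit 0x132168))) (u (nat_lit 4) (k (nat_lit 0x130830)))))) (u (nat_lit 3) (u (nat_lit 5) (k (nat_lit 0x261198))))))) (a (t (nat_lit 3) (nat_lit 6) (nat_lit 9) (a (u (nat_lit 6) (u (nat_lit 9) (k (nat_lit 0x784c52a)))) (u (nat_lit 3) (u (nat_lit 9) (k (nat_lit 0x784c52a)))))) (v (nat_lit 2) (a (a (a (u (nat_lit 7) (v (nat_lit 8) (k (nat_lit 0x132954)))) (v (nat_lit 6) (a (v (nat_lit 8) (k (nat_lit 0x953f4))) (v (nat_lit 7) (k (nat_lit 0x132e94)))))) (a (u (nat_lit 6) (u (nat_lit 8) (k (nat_lit 0x136680)))) (t (nat_lit 5) (nat_lit 8) (nat_lit 9) (v (nat_lit 6) (k (nat_lit 0x9a6ec)))))) (a (a (u (nat_lit 4) (v (nat_lit 5) (k (nat_lit 0x132954)))) (t (nat_lit 4) (nat_lit 7) (nat_lit 9) (v (nat_lit 6) (k (nat_lit 0x139c2c))))) (a (v (nat_lit 3) (a (a (v (nat_lit 5) (k (nat_lit 0x953f4))) (t (nat_lit 5) (nat_lit 8) (nat_lit 9) (k (nat_lit 0x9a6ec)))) (a (v (nat_lit 4) (k (nat_lit 0x132e94))) (t (nat_lit 4) (nat_lit 7) (nat_lit 9) (k (nat_lit 0x139c2c)))))) (a (u (nat_lit 3) (u (nat_lit 5) (k (nat_lit 0x136680)))) (t (nat_lit 3) (nat_lit 6) (nat_lit 9) (a (v (nat_lit 7) (k (nat_lit 0x93d56))) (v (nat_lit 4) (k (nat_lit 0x93d56))))))))))))) (a (a (u (nat_lit 2) (v (nat_lit 2) (a (v (nat_lit 9) (k (nat_lit 0x132168))) (a (u (nat_lit 7) (k (nat_lit 0x130830))) (u (nat_lit 4) (k (nat_lit 0x130830))))))) (t (nat_lit 2) (nat_lit 4) (nat_lit 5) (a (a (v (nat_lit 6) (a (v (nat_lit 9) (k (nat_lit 0x93d56))) (v (nat_lit 7) (k (nat_lit 0x93d56))))) (u (nat_lit 4) (u (nat_lit 5) (k (nat_lit 0x784c52a))))) (a (v (nat_lit 3) (v (nat_lit 8) (k (nat_lit 0x9a6ec)))) (a (t (nat_lit 3) (nat_lit 6) (nat_lit 9) (a (u (nat_lit 7) (k (nat_lit 0x2df37f8))) (a (u (nat_lit 5) (k (nat_lit 0x31e819c))) (u (nat_lit 3) (k (nat_lit 0x31e819c)))))) (u (nat_lit 2) (u (nat_lit 4) (k (nat_lit 0x784c52a))))))))) (a (t (nat_lit 2) (nat_lit 7) (nat_lit 8) (a (a (u (nat_lit 7) (u (nat_lit 8) (k (nat_lit 0x784c52a)))) (v (nat_lit 5) (v (nat_lit 6) (k (nat_lit 0x9a6ec))))) (a (v (nat_lit 3) (a (v (nat_lit 9) (k (nat_lit 0x93d56))) (v (nat_lit 4) (k (nat_lit 0x93d56))))) (a (t (nat_lit 3) (nat_lit 6) (nat_lit 9) (a (u (nat_lit 8) (k (nat_lit 0x31e819c))) (a (u (nat_lit 6) (k (nat_lit 0x31e819c))) (u (nat_lit 4) (k (nat_lit 0x2df37f8)))))) (u (nat_lit 2) (u (nat_lit 7) (k (nat_lit 0x784c52a)))))))) (a (v (nat_lit 1) (a (a (a (v (nat_lit 9) (v (nat_lit 9) (k (nat_lit 0x263220)))) (a (v (nat_lit 8) (a (v (nat_lit 9) (k (nat_lit 0x98ca6))) (v (nat_lit 8) (k (nat_lit 0x131934))))) (v (nat_lit 7) (a (v (nat_lit 9) (k (nat_lit 0x262968))) (a (v (nat_lit 8) (k (nat_lit 0x98ca6))) (v (nat_lit 7) (k (nat_lit 0x263220)))))))) (a (v (nat_lit 6) (a (a (v (nat_lit 9) (k (nat_lit 0x98ca6))) (v (nat_lit 8) (k (nat_lit 0x261120)))) (a (v (nat_lit 7) (k (nat_lit 0x98ca6))) (v (nat_lit 6) (k (nat_lit 0x131934)))))) (a (v (nat_lit 5) (a (a (v (nat_lit 9) (k (nat_lit 0x98ca6))) (v (nat_lit 8) (k (nat_lit 0x134df0)))) (a (v (nat_lit 7) (k (nat_lit 0x131bf8))) (a (v (nat_lit 6) (k (nat_lit 0x1329e4))) (v (nat_lit 5) (k (nat_lit 0x131934))))))) (u (nat_lit 5) (a (v (nat_lit 7) (k (nat_lit 0x132168))) (u (nat_lit 6) (k (nat_lit 0x130830)))))))) (a (a (v (nat_lit 4) (a (a (a (v (nat_lit 9) (k (nat_lit 0x262968))) (v (nat_lit 8) (k (nat_lit 0x131bf8)))) (a (u (nat_lit 8) (k (nat_lit 0x132168))) (v (nat_lit 7) (k (nat_lit 0x262968))))) (a (a (v (nat_lit 6) (k (nat_lit 0x131bf8))) (u (nat_lit 6) (k (nat_lit 0x132168)))) (a (v (nat_lit 5) (k (nat_lit 0x98ca6))) (v (nat_lit 4) (k (nat_lit 0x263220))))))) (a (v (nat_lit 3) (a (a (v (nat_lit 9) (k (nat_lit 0x98ca6))) (a (v (nat_lit 8) (k (nat_lit 0x1329e4))) (v (nat_lit 7) (k (nat_lit 0x131bf8))))) (a (a (v (nat_lit 6) (k (nat_lit 0x134df0))) (v (nat_lit 5) (k (nat_lit 0x261120)))) (a (v (nat_lit 4) (k (nat_lit 0x98ca6))) (v (nat_lit 3) (k (nat_lit 0x131934))))))) (u (nat_lit 3) (a (u (nat_lit 8) (k (nat_lit 0x130830))) (v (nat_lit 7) (k (nat_lit 0x132168))))))) (a (v (nat_lit 2) (a (a (a (v (nat_lit 9) (k (nat_lit 0x131bf8))) (v (nat_lit 8) (k (nat_lit 0x134df0)))) (a (v (nat_lit 7) (k (nat_lit 0x98ca6))) (v (nat_lit 6) (k (nat_lit 0x1329e4))))) (a (a (v (nat_lit 5) (k (nat_lit 0x134df0))) (v (nat_lit 4) (k (nat_lit 0x98ca6)))) (a (v (nat_lit 3) (k (nat_lit 0x1329e4))) (v (nat_lit 2) (k (nat_lit 0x131934))))))) (a (u (nat_lit 2) (a (v (nat_lit 9) (k (nat_lit 0x132168))) (a (u (nat_lit 6) (k (nat_lit 0x130830))) (u (nat_lit 3) (k (nat_lit 0x130830)))))) (v (nat_lit 1) (a (a (a (v (nat_lit 9) (k (nat_lit 0x262920))) (v (nat_lit 8) (k (nat_lit 0x131910)))) (a (v (nat_lit 7) (k (nat_lit 0x262920))) (v (nat_lit 6) (k (nat_lit 0x131910))))) (a (a (v (nat_lit 5) (k (nat_lit 0x131910))) (v (nat_lit 4) (k (nat_lit 0x262920)))) (a (v (nat_lit 3) (k (nat_lit 0x131910))) (a (v (nat_lit 2) (k (nat_lit 0x131910))) (v (nat_lit 1) (k (nat_lit 0x7299c0))))))))))))) (u (nat_lit 1) (a (u (nat_lit 6) (u (nat_lit 8) (k (nat_lit 0x261198)))) (a (u (nat_lit 3) (u (nat_lit 5) (k (nat_lit 0x261198)))) (v (nat_lit 1) (v (nat_lit 1) (k (nat_lit 0x729a08))))))))))))) (t (nat_lit 1) (nat_lit 3) (nat_lit 5) (a (a (a (v (nat_lit 4) (a (a (v (nat_lit 8) (u (nat_lit 9) (k (nat_lit 0x9a6ec)))) (a (v (nat_lit 7) (u (nat_lit 8) (k (nat_lit 0x93d56)))) (u (nat_lit 7) (v (nat_lit 8) (k (nat_lit 0x139c2c)))))) (a (v (nat_lit 6) (a (u (nat_lit 9) (k (nat_lit 0x9a6ec))) (u (nat_lit 7) (k (nat_lit 0x139c2c))))) (a (u (nat_lit 6) (v (nat_lit 7) (k (nat_lit 0x93d56)))) (u (nat_lit 5) (v (nat_lit 9) (k (nat_lit 0x12e538)))))))) (u (nat_lit 4) (a (v (nat_lit 7) (v (nat_lit 8) (k (nat_lit 0x93d56)))) (v (nat_lit 6) (v (nat_lit 7) (k (nat_lit 0x93d56))))))) (a (t (nat_lit 4) (nat_lit 7) (nat_lit 9) (a (a (u (nat_lit 8) (u (nat_lit 9) (k (nat_lit 0x31e819c)))) (a (v (nat_lit 7) (u (nat_lit 9) (k (nat_lit 0x3d860fc)))) (u (nat_lit 6) (u (nat_lit 9) (k (nat_lit 0x31e819c)))))) (a (u (nat_lit 5) (u (nat_lit 8) (k (nat_lit 0x31e819c)))) (a (u (nat_lit 4) (v (nat_lit 7) (k (nat_lit 0x3d860fc)))) (t (nat_lit 4) (nat_lit 7) (nat_lit 9) (u (nat_lit 5) (k (nat_lit 0x131988)))))))) (a (u (nat_lit 3) (a (u (nat_lit 5) (a (u (nat_lit 8) (k (nat_lit 0x784c52a))) (u (nat_lit 6) (k (nat_lit 0x784c52a))))) (a (v (nat_lit 4) (v (nat_lit 9) (k (nat_lit 0x12e538)))) (t (nat_lit 4) (nat_lit 7) (nat_lit 9) (a (u (nat_lit 6) (k (nat_lit 0x31e819c))) (t (nat_lit 4) (nat_lit 7) (nat_lit 9) (k (nat_lit 0x131988)))))))) (v (nat_lit 2) (a (a (u (nat_lit 8) (v (nat_lit 9) (k (nat_lit 0x9a6ec)))) (a (v (nat_lit 7) (u (nat_lit 9) (k (nat_lit 0x93d56)))) (u (nat_lit 7) (v (nat_lit 9) (k (nat_lit 0x139c2c)))))) (a (a (v (nat_lit 6) (a (u (nat_lit 8) (k (nat_lit 0x9a6ec))) (u (nat_lit 7) (k (nat_lit 0x139c2c))))) (u (nat_lit 6) (v (nat_lit 7) (k (nat_lit 0x93d56))))) (a (u (nat_lit 5) (v (nat_lit 8) (k (nat_lit 0x12e538)))) (u (nat_lit 4) (v (nat_lit 9) (k (nat_lit 0x9a6ec))))))))))) (a (a (u (nat_lit 2) (a (a (v (nat_lit 7) (v (nat_lit 9) (k (nat_lit 0x93d56)))) (v (nat_lit 6) (v (nat_lit 7) (k (nat_lit 0x93d56))))) (a (v (nat_lit 4) (v (nat_lit 8) (k (nat_lit 0x9a6ec)))) (a (t (nat_lit 4) (nat_lit 7) (nat_lit 9) (a (u (nat_lit 6) (k (nat_lit 0x2df37f8))) (a (u (nat_lit 5) (k (nat_lit 0x31e819c))) (u (nat_lit 4) (k (nat_lit 0x31e819c)))))) (u (nat_lit 3) (u (nat_lit 5) (k (nat_lit 0x784c52a)))))))) (t (nat_lit 2) (nat_lit 7) (nat_lit 8) (a (a (a (u (nat_lit 8) (u (nat_lit 9) (k (nat_lit 0x31e819c)))) (v (nat_lit 7) (u (nat_lit 8) (k (nat_lit 0x3d860fc))))) (a (u (nat_lit 6) (u (nat_lit 8) (k (nat_lit 0x31e819c)))) (a (u (nat_lit 5) (u (nat_lit 9) (k (nat_lit 0x31e819c)))) (u (nat_lit 4) (a (u (nat_lit 6) (k (nat_lit 0x2df37f8))) (u (nat_lit 5) (k (nat_lit 0x31e819c)))))))) (a (a (t (nat_lit 4) (nat_lit 7) (nat_lit 9) (u (nat_lit 7) (k (nat_lit 0x263400)))) (v (nat_lit 3) (u (nat_lit 5) (k (nat_lit 0x3d860fc))))) (a (t (nat_lit 3) (nat_lit 6) (nat_lit 9) (u (nat_lit 3) (k (nat_lit 0x263400)))) (a (u (nat_lit 2) (a (v (nat_lit 7) (k (nat_lit 0x3d860fc))) (u (nat_lit 4) (k (nat_lit 0x31e819c))))) (t (nat_lit 2) (nat_lit 7) (nat_lit 8) (u (nat_lit 5) (k (nat_lit 0x131988)))))))))) (a (v (nat_lit 1) (a (t (nat_lit 4) (nat_lit 7) (nat_lit 9) (u (nat_lit 5) (k (nat_lit 0x3d860fc)))) (u (nat_lit 3) (t (nat_lit 4) (nat_lit 7) (nat_lit 9) (k (nat_lit 0x3d860fc)))))) (a (u (nat_lit 1) (a (a (u (nat_lit 5) (a (u (nat_lit 9) (k (nat_lit 0x784c52a))) (u (nat_lit 6) (k (nat_lit 0x784c52a))))) (a (u (nat_lit 4) (u (nat_lit 5) (k (nat_lit 0x784c52a)))) (u (nat_lit 3) (a (a (u (nat_lit 9) (k (nat_lit 0x784c52a))) (u (nat_lit 8) (k (nat_lit 0x784c52a)))) (a (u (nat_lit 5) (k (nat_lit 0x8b2f00))) (u (nat_lit 4) (k (nat_lit 0x784c52a)))))))) (a (v (nat_lit 2) (v (nat_lit 8) (k (nat_lit 0x12e538)))) (a (u (nat_lit 2) (u (nat_lit 3) (k (nat_lit 0x784c52a)))) (t (nat_lit 2) (nat_lit 7) (nat_lit 8) (a (u (nat_lit 6) (k (nat_lit 0x31e819c))) (a (v (nat_lit 3) (k (nat_lit 0x3d860fc))) (t (nat_lit 2) (nat_lit 7) (nat_lit 8) (k (nat_lit 0x131988)))))))))) (t (nat_lit 1) (nat_lit 3) (nat_lit 5) (a (t (nat_lit 4) (nat_lit 7) (nat_lit 9) (a (u (nat_lit 9) (k (nat_lit 0x131988))) (u (nat_lit 4) (k (nat_lit 0x131988))))) (t (nat_lit 2) (nat_lit 7) (nat_lit 8) (a (u (nat_lit 8) (k (nat_lit 0x131988))) (u (nat_lit 2) (k (nat_lit 0x131988))))))))))))) (a (t (nat_lit 1) (nat_lit 6) (nat_lit 8) (a (a (a (a (v (nat_lit 7) (u (nat_lit 8) (v (nat_lit 9) (k (nat_lit 0x12e538))))) (u (nat_lit 6) (v (nat_lit 7) (v (nat_lit 9) (k (nat_lit 0x12e538)))))) (a (v (nat_lit 5) (v (nat_lit 7) (u (nat_lit 9) (k (nat_lit 0x9a6ec))))) (u (nat_lit 5) (u (nat_lit 6) (u (nat_lit 8) (k (nat_lit 0x784c52a))))))) (a (a (v (nat_lit 4) (a (v (nat_lit 5) (u (nat_lit 7) (k (nat_lit 0x93d56)))) (u (nat_lit 5) (v (nat_lit 7) (k (nat_lit 0x93d56)))))) (u (nat_lit 4) (v (nat_lit 5) (v (nat_lit 7) (k (nat_lit 0x139c2c)))))) (a (t (nat_lit 4) (nat_lit 7) (nat_lit 9) (a (u (nat_lit 5) (a (u (nat_lit 9) (k (nat_lit 0x31e819c))) (u (nat_lit 8) (k (nat_lit 0x31e819c))))) (a (v (nat_lit 4) (a (u (nat_lit 9) (k (nat_lit 0x3d860fc))) (u (nat_lit 7) (k (nat_lit 0x3d860fc))))) (t (nat_lit 4) (nat_lit 7) (nat_lit 9) (a (u (nat_lit 8) (k (nat_lit 0x131988))) (u (nat_lit 6) (k (nat_lit 0x131988)))))))) (v (nat_lit 3) (a (v (nat_lit 7) (u (nat_lit 9) (k (nat_lit 0x9a6ec)))) (a (v (nat_lit 4) (u (nat_lit 7) (k (nat_lit 0x93d56)))) (u (nat_lit 4) (v (nat_lit 7) (k (nat_lit 0x139c2c)))))))))) (a (a (a (u (nat_lit 3) (a (u (nat_lit 6) (u (nat_lit 8) (k (nat_lit 0x784c52a)))) (a (v (nat_lit 4) (v (nat_lit 7) (k (nat_lit 0x93d56)))) (t (nat_lit 4) (nat_lit 7) (nat_lit 9) (a (u (nat_lit 9) (k (nat_lit 0x31e819c))) (u (nat_lit 6) (k (nat_lit 0x31e819c)))))))) (v (nat_lit 2) (a (a (u (nat_lit 7) (v (nat_lit 9) (k (nat_lit 0x9a6ec)))) (a (v (nat_lit 5) (u (nat_lit 8) (k (nat_lit 0x12e538)))) (u (nat_lit 5) (v (nat_lit 9) (k (nat_lit 0x9a6ec)))))) (a (a (v (nat_lit 4) (u (nat_lit 9) (k (nat_lit 0x93d56)))) (u (nat_lit 4) (v (nat_lit 9) (k (nat_lit 0x139c2c))))) (a (v (nat_lit 3) (a (u (nat_lit 5) (k (nat_lit 0x9a6ec))) (u (nat_lit 4) (k (nat_lit 0x139c2c))))) (u (nat_lit 3) (v (nat_lit 4) (k (nat_lit 0x93d56))))))))) (a (u (nat_lit 2) (a (a (u (nat_lit 6) (u (nat_lit 8) (k (nat_lit 0x784c52a)))) (a (v (nat_lit 5) (v (nat_lit 7) (k (nat_lit 0x9a6ec)))) (v (nat_lit 4) (v (nat_lit 9) (k (nat_lit 0x93d56)))))) (a (t (nat_lit 4) (nat_lit 7) (nat_lit 9) (a (u (nat_lit 8) (k (nat_lit 0x31e819c))) (u (nat_lit 7) (k (nat_lit 0x31e819c))))) (a (v (nat_lit 3) (v (nat_lit 4) (k (nat_lit 0x93d56)))) (u (nat_lit 3) (t (nat_lit 4) (nat_lit 7) (nat_lit 9) (k (nat_lit 0x2df37f8)))))))) (t (nat_lit 2) (nat_lit 4) (nat_lit 5) (a (a (a (u (nat_lit 8) (u (nat_lit 9) (k (nat_lit 0x31e819c)))) (u (nat_lit 7) (u (nat_lit 8) (k (nat_lit 0x31e819c))))) (a (v (nat_lit 6) (u (nat_lit 8) (k (nat_lit 0x3d860fc)))) (a (u (nat_lit 5) (u (nat_lit 9) (k (nat_lit 0x31e819c)))) (v (nat_lit 4) (u (nat_lit 5) (k (nat_lit 0x3d860fc))))))) (a (a (t (nat_lit 4) (nat_lit 7) (nat_lit 9) (u (nat_lit 4) (k (nat_lit 0x263400)))) (u (nat_lit 3) (a (u (nat_lit 7) (k (nat_lit 0x2df37f8))) (u (nat_lit 5) (k (nat_lit 0x31e819c)))))) (a (t (nat_lit 3) (nat_lit 6) (nat_lit 9) (u (nat_lit 6) (k (nat_lit 0x263400)))) (a (u (nat_lit 2) (a (u (nat_lit 7) (k (nat_lit 0x31e819c))) (v (nat_lit 4) (k (nat_lit 0x3d860fc))))) (t (nat_lit 2) (nat_lit 4) (nat_lit 5) (u (nat_lit 8) (k (nat_lit 0x131988))))))))))) (a (a (v (nat_lit 1) (t (nat_lit 4) (nat_lit 7) (nat_lit 9) (a (u (nat_lit 8) (k (nat_lit 0x3d860fc))) (u (nat_lit 6) (k (nat_lit 0x3d860fc)))))) (u (nat_lit 1) (a (a (a (u (nat_lit 8) (u (nat_lit 9) (k (nat_lit 0x784c52a)))) (u (nat_lit 7) (u (nat_lit 8) (k (nat_lit 0x784c52a))))) (a (u (nat_lit 6) (a (u (nat_lit 9) (k (nat_lit 0x784c52a))) (a (u (nat_lit 8) (k (nat_lit 0x8b2f00))) (u (nat_lit 7) (k (nat_lit 0x784c52a)))))) (u (nat_lit 5) (u (nat_lit 6) (k (nat_lit 0x784c52a)))))) (a (a (u (nat_lit 3) (u (nat_lit 8) (k (nat_lit 0x784c52a)))) (v (nat_lit 2) (v (nat_lit 5) (k (nat_lit 0x12e538))))) (a (u (nat_lit 2) (u (nat_lit 6) (k (nat_lit 0x784c52a)))) (t (nat_lit 2) (nat_lit 4) (nat_lit 5) (a (v (nat_lit 6) (k (nat_lit 0x3d860fc))) (a (u (nat_lit 3) (k (nat_lit 0x31e819c))) (t (nat_lit 2) (nat_lit 4) (nat_lit 5) (k (nat_lit 0x131988))))))))))) (a (t (nat_lit 1) (nat_lit 3) (nat_lit 5) (u (nat_lit 1) (t (nat_lit 4) (nat_lit 7) (nat_lit 9) (k (nat_lit 0x263400))))) (t (nat_lit 1) (nat_lit 6) (nat_lit 8) (a (t (nat_lit 4) (nat_lit 7) (nat_lit 9) (a (u (nat_lit 9) (k (nat_lit 0x131988))) (u (nat_lit 7) (k (nat_lit 0x131988))))) (t (nat_lit 2) (nat_lit 4) (nat_lit 5) (a (u (nat_lit 5) (k (nat_lit 0x131988))) (u (nat_lit 2) (k (nat_lit 0x131988)))))))))))) (v (nat_lit 0) (a (a (a (a (u (nat_lit 9) (v (nat_lit 9) (v (nat_lit 9) (k (nat_lit 0x262920))))) (a (v (nat_lit 8) (u (nat_lit 9) (v (nat_lit 9) (k (nat_lit 0x131bf8))))) (u (nat_lit 8) (a (u (nat_lit 9) (v (nat_lit 9) (k (nat_lit 0x132168)))) (v (nat_lit 8) (a (v (nat_lit 9) (k (nat_lit 0x131bf8))) (a (u (nat_lit 9) (k (nat_lit 0x132168))) (v (nat_lit 8) (k (nat_lit 0x262920)))))))))) (a (v (nat_lit 7) (a (u (nat_lit 9) (v (nat_lit 9) (k (nat_lit 0x98ca6)))) (u (nat_lit 8) (v (nat_lit 8) (k (nat_lit 0x98ca6)))))) (a (u (nat_lit 7) (v (nat_lit 7) (a (v (nat_lit 9) (k (nat_lit 0x1329e4))) (a (v (nat_lit 8) (k (nat_lit 0x1329e4))) (v (nat_lit 7) (k (nat_lit 0x131910))))))) (v (nat_lit 6) (a (a (u (nat_lit 9) (v (nat_lit 9) (k (nat_lit 0x98ca6)))) (u (nat_lit 8) (v (nat_lit 8) (k (nat_lit 0x98ca6))))) (a (u (nat_lit 7) (a (v (nat_lit 9) (k (nat_lit 0x953f4))) (a (v (nat_lit 8) (k (nat_lit 0x953f4))) (v (nat_lit 7) (k (nat_lit 0x261120)))))) (v (nat_lit 6) (u (nat_lit 7) (k (nat_lit 0x1319e8)))))))))) (a (a (u (nat_lit 6) (a (v (nat_lit 7) (a (v (nat_lit 9) (k (nat_lit 0x953f4))) (a (v (nat_lit 8) (k (nat_lit 0x953f4))) (v (nat_lit 7) (k (nat_lit 0x1319e8)))))) (v (nat_lit 6) (a (a (v (nat_lit 9) (k (nat_lit 0x1329e4))) (v (nat_lit 8) (k (nat_lit 0x1329e4)))) (a (v (nat_lit 7) (k (nat_lit 0x261120))) (v (nat_lit 6) (k (nat_lit 0x131910)))))))) (a (v (nat_lit 5) (a (a (u (nat_lit 9) (v (nat_lit 9) (k (nat_lit 0x131bf8)))) (a (v (nat_lit 8) (u (nat_lit 9) (k (nat_lit 0x26b248)))) (u (nat_lit 8) (a (v (nat_lit 9) (k (nat_lit 0x26b248))) (v (nat_lit 8) (k (nat_lit 0x131bf8))))))) (a (u (nat_lit 7) (v (nat_lit 7) (k (nat_lit 0x131bf8)))) (a (v (nat_lit 6) (u (nat_lit 7) (k (nat_lit 0x26b248)))) (u (nat_lit 6) (a (v (nat_lit 7) (k (nat_lit 0x26b248))) (v (nat_lit 6) (k (nat_lit 0x131bf8))))))))) (u (nat_lit 5) (a (a (u (nat_lit 9) (v (nat_lit 9) (k (nat_lit 0x132168)))) (v (nat_lit 8) (v (nat_lit 9) (k (nat_lit 0x26b248))))) (a (u (nat_lit 8) (a (u (nat_lit 9) (k (nat_lit 0x7147b0))) (v (nat_lit 8) (k (nat_lit 0x132168))))) (v (nat_lit 5) (a (a (v (nat_lit 9) (k (nat_lit 0x131bf8))) (a (u (nat_lit 9) (k (nat_lit 0x132168))) (v (nat_lit 8) (k (nat_lit 0x131bf8))))) (a (a (u (nat_lit 8) (k (nat_lit 0x132168))) (v (nat_lit 7) (k (nat_lit 0x262968)))) (a (v (nat_lit 6) (k (nat_lit 0x262968))) (v (nat_lit 5) (k (nat_lit 0x262920)))))))))))) (a (v (nat_lit 4) (a (a (u (nat_lit 9) (v (nat_lit 9) (k (nat_lit 0x98ca6)))) (a (u (nat_lit 8) (v (nat_lit 8) (k (nat_lit 0x262968)))) (u (nat_lit 7) (a (v (nat_lit 9) (k (nat_lit 0x953f4))) (v (nat_lit 7) (k (nat_lit 0x134df0))))))) (a (a (v (nat_lit 6) (a (u (nat_lit 9) (k (nat_lit 0x132e94))) (u (nat_lit 7) (k (nat_lit 0x953f4))))) (u (nat_lit 6) (a (v (nat_lit 9) (k (nat_lit 0x132e94))) (v (nat_lit 6) (k (nat_lit 0x98ca6)))))) (a (u (nat_lit 5) (v (nat_lit 5) (k (nat_lit 0x98ca6)))) (t (nat_lit 5) (nat_lit 8) (nat_lit 9) (u (nat_lit 6) (k (nat_lit 0x93d56)))))))) (a (u (nat_lit 4) (a (a (v (nat_lit 7) (v (nat_lit 9) (k (nat_lit 0x953f4)))) (a (u (nat_lit 7) (u (nat_lit 9) (k (nat_lit 0x136680)))) (v (nat_lit 6) (v (nat_lit 9) (k (nat_lit 0x132e94)))))) (a (u (nat_lit 6) (v (nat_lit 7) (k (nat_lit 0x132954)))) (a (t (nat_lit 5) (nat_lit 8) (nat_lit 9) (v (nat_lit 6) (k (nat_lit 0x93d56)))) (v (nat_lit 4) (a (a (v (nat_lit 9) (k (nat_lit 0x1329e4))) (a (v (nat_lit 8) (k (nat_lit 0x131bf8))) (v (nat_lit 7) (k (nat_lit 0x134df0))))) (a (v (nat_lit 6) (k (nat_lit 0x98ca6))) (a (v (nat_lit 5) (k (nat_lit 0x1329e4))) (v (nat_lit 4) (k (nat_lit 0x131910))))))))))) (t (nat_lit 4) (nat_lit 7) (nat_lit 9) (u (nat_lit 6) (v (nat_lit 8) (k (nat_lit 0x9a6ec))))))))) (a (a (a (v (nat_lit 3) (a (a (a (u (nat_lit 9) (v (nat_lit 9) (k (nat_lit 0x98ca6)))) (u (nat_lit 8) (v (nat_lit 8) (k (nat_lit 0x262968))))) (a (v (nat_lit 7) (u (nat_lit 9) (k (nat_lit 0x132e94)))) (u (nat_lit 7) (a (v (nat_lit 9) (k (nat_lit 0x132e94))) (v (nat_lit 7) (k (nat_lit 0x98ca6))))))) (a (a (u (nat_lit 6) (a (v (nat_lit 9) (k (nat_lit 0x953f4))) (a (v (nat_lit 7) (k (nat_lit 0x953f4))) (v (nat_lit 6) (k (nat_lit 0x134df0)))))) (u (nat_lit 5) (v (nat_lit 5) (k (nat_lit 0x98ca6))))) (a (t (nat_lit 5) (nat_lit 8) (nat_lit 9) (u (nat_lit 7) (k (nat_lit 0x93d56)))) (a (u (nat_lit 4) (a (a (v (nat_lit 9) (k (nat_lit 0x953f4))) (a (v (nat_lit 8) (k (nat_lit 0x26b248))) (v (nat_lit 7) (k (nat_lit 0x953f4))))) (a (u (nat_lit 6) (k (nat_lit 0x132954))) (a (v (nat_lit 5) (k (nat_lit 0x953f4))) (v (nat_lit 4) (k (nat_lit 0x261120))))))) (v (nat_lit 3) (u (nat_lit 4) (k (nat_lit 0x1319e8))))))))) (a (u (nat_lit 3) (a (a (v (nat_lit 7) (v (nat_lit 9) (k (nat_lit 0x132e94)))) (a (v (nat_lit 6) (a (v (nat_lit 9) (k (nat_lit 0x953f4))) (u (nat_lit 7) (k (nat_lit 0x132954))))) (u (nat_lit 6) (u (nat_lit 9) (k (nat_lit 0x136680)))))) (a (a (t (nat_lit 5) (nat_lit 8) (nat_lit 9) (v (nat_lit 7) (k (nat_lit 0x93d56)))) (v (nat_lit 4) (a (a (v (nat_lit 9) (k (nat_lit 0x953f4))) (a (v (nat_lit 8) (k (nat_lit 0x26b248))) (u (nat_lit 7) (k (nat_lit 0x132954))))) (a (v (nat_lit 6) (k (nat_lit 0x953f4))) (a (v (nat_lit 5) (k (nat_lit 0x953f4))) (v (nat_lit 4) (k (nat_lit 0x1319e8)))))))) (a (t (nat_lit 4) (nat_lit 7) (nat_lit 9) (v (nat_lit 5) (k (nat_lit 0x9a6ec)))) (v (nat_lit 3) (a (a (v (nat_lit 9) (k (nat_lit 0x1329e4))) (a (v (nat_lit 8) (k (nat_lit 0x131bf8))) (v (nat_lit 7) (k (nat_lit 0x98ca6))))) (a (a (v (nat_lit 6) (k (nat_lit 0x134df0))) (v (nat_lit 5) (k (nat_lit 0x1329e4)))) (a (v (nat_lit 4) (k (nat_lit 0x261120))) (v (nat_lit 3) (k (nat_lit 0x131910))))))))))) (t (nat_lit 3) (nat_lit 6) (nat_lit 9) (a (u (nat_lit 7) (v (nat_lit 8) (k (nat_lit 0x9a6ec)))) (u (nat_lit 4) (v (nat_lit 5) (k (nat_lit 0x9a6ec)))))))) (a (v (nat_lit 2) (a (a (a (u (nat_lit 9) (v (nat_lit 9) (k (nat_lit 0x262968)))) (a (u (nat_lit 8) (v (nat_lit 8) (k (nat_lit 0x98ca6)))) (u (nat_lit 7) (a (v (nat_lit 8) (k (nat_lit 0x953f4))) (v (nat_lit 7) (k (nat_lit 0x134df0))))))) (a (v (nat_lit 6) (a (u (nat_lit 8) (k (nat_lit 0x132e94))) (u (nat_lit 7) (k (nat_lit 0x953f4))))) (a (u (nat_lit 6) (a (v (nat_lit 8) (k (nat_lit 0x132e94))) (v (nat_lit 6) (k (nat_lit 0x98ca6))))) (u (nat_lit 5) (v (nat_lit 5) (k (nat_lit 0x98ca6))))))) (a (a (t (nat_lit 5) (nat_lit 8) (nat_lit 9) (u (nat_lit 6) (k (nat_lit 0x93d56)))) (a (u (nat_lit 4) (a (v (nat_lit 5) (k (nat_lit 0x953f4))) (v (nat_lit 4) (k (nat_lit 0x134df0))))) (t (nat_lit 4) (nat_lit 7) (nat_lit 9) (a (u (nat_lit 7) (k (nat_lit 0x12e538))) (u (nat_lit 4) (k (nat_lit 0x12e538))))))) (a (v (nat_lit 3) (a (u (nat_lit 5) (k (nat_lit 0x132e94))) (u (nat_lit 4) (k (nat_lit 0x953f4))))) (a (u (nat_lit 3) (a (v (nat_lit 5) (k (nat_lit 0x132e94))) (a (t (nat_lit 5) (nat_lit 8) (nat_lit 9) (k (nat_lit 0x93d56))) (v (nat_lit 3) (k (nat_lit 0x98ca6)))))) (t (nat_lit 3) (nat_lit 6) (nat_lit 9) (a (u (nat_lit 8) (k (nat_lit 0x93d56))) (u (nat_lit 5) (k (nat_lit 0x93d56)))))))))) (a (u (nat_lit 2) (a (a (a (v (nat_lit 7) (v (nat_lit 8) (k (nat_lit 0x953f4)))) (a (u (nat_lit 7) (u (nat_lit 8) (k (nat_lit 0x136680)))) (v (nat_lit 6) (v (nat_lit 8) (k (nat_lit 0x132e94)))))) (a (u (nat_lit 6) (v (nat_lit 7) (k (nat_lit 0x132954)))) (a (t (nat_lit 5) (nat_lit 8) (nat_lit 9) (v (nat_lit 6) (k (nat_lit 0x93d56)))) (v (nat_lit 4) (v (nat_lit 5) (k (nat_lit 0x953f4))))))) (a (a (u (nat_lit 4) (u (nat_lit 5) (k (nat_lit 0x136680)))) (a (t (nat_lit 4) (nat_lit 7) (nat_lit 9) (a (v (nat_lit 8) (k (nat_lit 0x9a6ec))) (v (nat_lit 5) (k (nat_lit 0x9a6ec))))) (v (nat_lit 3) (a (v (nat_lit 5) (k (nat_lit 0x132e94))) (t (nat_lit 5) (nat_lit 8) (nat_lit 9) (k (nat_lit 0x93d56))))))) (a (u (nat_lit 3) (v (nat_lit 4) (k (nat_lit 0x132954)))) (a (t (nat_lit 3) (nat_lit 6) (nat_lit 9) (a (v (nat_lit 8) (k (nat_lit 0x139c2c))) (v (nat_lit 5) (k (nat_lit 0x139c2c))))) (v (nat_lit 2) (a (a (a (v (nat_lit 9) (k (nat_lit 0x131bf8))) (v (nat_lit 8) (k (nat_lit 0x1329e4)))) (a (v (nat_lit 7) (k (nat_lit 0x134df0))) (v (nat_lit 6) (k (nat_lit 0x98ca6))))) (a (a (v (nat_lit 5) (k (nat_lit 0x1329e4))) (v (nat_lit 4) (k (nat_lit 0x134df0)))) (a (v (nat_lit 3) (k (nat_lit 0x98ca6))) (v (nat_lit 2) (k (nat_lit 0x131910)))))))))))) (t (nat_lit 2) (nat_lit 4) (nat_lit 5) (a (a (u (nat_lit 7) (a (v (nat_lit 9) (k (nat_lit 0x9a6ec))) (v (nat_lit 8) (k (nat_lit 0x9a6ec))))) (a (v (nat_lit 6) (a (u (nat_lit 9) (k (nat_lit 0x93d56))) (u (nat_lit 8) (k (nat_lit 0x93d56))))) (u (nat_lit 6) (a (v (nat_lit 9) (k (nat_lit 0x139c2c))) (v (nat_lit 8) (k (nat_lit 0x139c2c))))))) (a (u (nat_lit 4) (v (nat_lit 7) (k (nat_lit 0x12e538)))) (a (u (nat_lit 3) (v (nat_lit 9) (k (nat_lit 0x9a6ec)))) (u (nat_lit 2) (v (nat_lit 7) (k (nat_lit 0x12e538))))))))))) (a (a (t (nat_lit 2) (nat_lit 7) (nat_lit 8) (a (a (u (nat_lit 6) (v (nat_lit 9) (k (nat_lit 0x9a6ec)))) (a (v (nat_lit 4) (u (nat_lit 7) (k (nat_lit 0x12e538)))) (u (nat_lit 4) (a (v (nat_lit 9) (k (nat_lit 0x9a6ec))) (v (nat_lit 5) (k (nat_lit 0x9a6ec))))))) (a (v (nat_lit 3) (a (u (nat_lit 9) (k (nat_lit 0x93d56))) (u (nat_lit 5) (k (nat_lit 0x93d56))))) (a (u (nat_lit 3) (a (v (nat_lit 9) (k (nat_lit 0x139c2c))) (v (nat_lit 5) (k (nat_lit 0x139c2c))))) (u (nat_lit 2) (v (nat_lit 4) (k (nat_lit 0x12e538)))))))) (a (v (nat_lit 1) (a (a (a (u (nat_lit 9) (v (nat_lit 9) (k (nat_lit 0x262968)))) (a (u (nat_lit 8) (v (nat_lit 8) (k (nat_lit 0x98ca6)))) (v (nat_lit 7) (u (nat_lit 8) (k (nat_lit 0x132e94)))))) (a (a (u (nat_lit 7) (a (v (nat_lit 8) (k (nat_lit 0x132e94))) (v (nat_lit 7) (k (nat_lit 0x98ca6))))) (u (nat_lit 6) (a (v (nat_lit 8) (k (nat_lit 0x953f4))) (a (v (nat_lit 7) (k (nat_lit 0x953f4))) (v (nat_lit 6) (k (nat_lit 0x134df0))))))) (a (u (nat_lit 5) (v (nat_lit 5) (k (nat_lit 0x98ca6)))) (t (nat_lit 5) (nat_lit 8) (nat_lit 9) (u (nat_lit 7) (k (nat_lit 0x93d56))))))) (a (a (v (nat_lit 4) (u (nat_lit 5) (k (nat_lit 0x132e94)))) (a (u (nat_lit 4) (a (v (nat_lit 5) (k (nat_lit 0x132e94))) (a (t (nat_lit 5) (nat_lit 8) (nat_lit 9) (k (nat_lit 0x93d56))) (v (nat_lit 4) (k (nat_lit 0x98ca6)))))) (t (nat_lit 4) (nat_lit 7) (nat_lit 9) (a (u (nat_lit 8) (k (nat_lit 0x93d56))) (u (nat_lit 5) (k (nat_lit 0x93d56))))))) (a (a (u (nat_lit 3) (a (v (nat_lit 5) (k (nat_lit 0x953f4))) (a (v (nat_lit 4) (k (nat_lit 0x953f4))) (v (nat_lit 3) (k (nat_lit 0x134df0)))))) (t (nat_lit 3) (nat_lit 6) (nat_lit 9) (a (u (nat_lit 6) (k (nat_lit 0x12e538))) (u (nat_lit 3) (k (nat_lit 0x12e538)))))) (a (u (nat_lit 2) (a (a (a (v (nat_lit 9) (k (nat_lit 0x26b248))) (v (nat_lit 8) (k (nat_lit 0x953f4)))) (a (v (nat_lit 7) (k (nat_lit 0x953f4))) (u (nat_lit 6) (k (nat_lit 0x132954))))) (a (a (v (nat_lit 5) (k (nat_lit 0x953f4))) (v (nat_lit 4) (k (nat_lit 0x953f4)))) (a (u (nat_lit 3) (k (nat_lit 0x132954))) (v (nat_lit 2) (k (nat_lit 0x261120))))))) (v (nat_lit 1) (u (nat_lit 2) (k (nat_lit 0x1319e8))))))))) (u (nat_lit 1) (a (a (a (v (nat_lit 7) (v (nat_lit 8) (k (nat_lit 0x132e94)))) (a (v (nat_lit 6) (a (v (nat_lit 8) (k (nat_lit 0x953f4))) (u (nat_lit 7) (k (nat_lit 0x132954))))) (u (nat_lit 6) (u (nat_lit 8) (k (nat_lit 0x136680)))))) (a (t (nat_lit 5) (nat_lit 8) (nat_lit 9) (v (nat_lit 7) (k (nat_lit 0x93d56)))) (a (v (nat_lit 4) (a (v (nat_lit 5) (k (nat_lit 0x132e94))) (t (nat_lit 5) (nat_lit 8) (nat_lit 9) (k (nat_lit 0x93d56))))) (t (nat_lit 4) (nat_lit 7) (nat_lit 9) (a (v (nat_lit 8) (k (nat_lit 0x139c2c))) (v (nat_lit 5) (k (nat_lit 0x139c2c)))))))) (a (a (v (nat_lit 3) (a (v (nat_lit 5) (k (nat_lit 0x953f4))) (u (nat_lit 4) (k (nat_lit 0x132954))))) (a (u (nat_lit 3) (u (nat_lit 5) (k (nat_lit 0x136680)))) (t (nat_lit 3) (nat_lit 6) (nat_lit 9) (a (v (nat_lit 8) (k (nat_lit 0x9a6ec))) (v (nat_lit 5) (k (nat_lit 0x9a6ec))))))) (a (a (v (nat_lit 2) (a (a (a (v (nat_lit 9) (k (nat_lit 0x26b248))) (v (nat_lit 8) (k (nat_lit 0x953f4)))) (a (u (nat_lit 7) (k (nat_lit 0x132954))) (v (nat_lit 6) (k (nat_lit 0x953f4))))) (a (a (v (nat_lit 5) (k (nat_lit 0x953f4))) (u (nat_lit 4) (k (nat_lit 0x132954)))) (a (v (nat_lit 3) (k (nat_lit 0x953f4))) (v (nat_lit 2) (k (nat_lit 0x1319e8))))))) (t (nat_lit 2) (nat_lit 4) (nat_lit 5) (v (nat_lit 8) (k (nat_lit 0x9a6ec))))) (a (t (nat_lit 2) (nat_lit 7) (nat_lit 8) (v (nat_lit 5) (k (nat_lit 0x9a6ec)))) (v (nat_lit 1) (a (a (a (v (nat_lit 9) (k (nat_lit 0x131bf8))) (v (nat_lit 8) (k (nat_lit 0x1329e4)))) (a (v (nat_lit 7) (k (nat_lit 0x98ca6))) (v (nat_lit 6) (k (nat_lit 0x134df0))))) (a (a (v (nat_lit 5) (k (nat_lit 0x1329e4))) (v (nat_lit 4) (k (nat_lit 0x98ca6)))) (a (v (nat_lit 3) (k (nat_lit 0x134df0))) (a (v (nat_lit 2) (k (nat_lit 0x261120))) (v (nat_lit 1) (k (nat_lit 0x131910))))))))))))))) (a (t (nat_lit 1) (nat_lit 3) (nat_lit 5) (a (a (v (nat_lit 7) (a (u (nat_lit 9) (k (nat_lit 0x93d56))) (u (nat_lit 8) (k (nat_lit 0x93d56))))) (a (u (nat_lit 7) (a (v (nat_lit 9) (k (nat_lit 0x139c2c))) (v (nat_lit 8) (k (nat_lit 0x139c2c))))) (u (nat_lit 6) (a (v (nat_lit 9) (k (nat_lit 0x9a6ec))) (v (nat_lit 8) (k (nat_lit 0x9a6ec))))))) (a (a (u (nat_lit 4) (v (nat_lit 9) (k (nat_lit 0x9a6ec)))) (u (nat_lit 3) (v (nat_lit 6) (k (nat_lit 0x12e538))))) (a (u (nat_lit 2) (v (nat_lit 8) (k (nat_lit 0x9a6ec)))) (u (nat_lit 1) (v (nat_lit 6) (k (nat_lit 0x12e538)))))))) (a (t (nat_lit 1) (nat_lit 6) (nat_lit 8) (a (a (u (nat_lit 7) (v (nat_lit 9) (k (nat_lit 0x9a6ec)))) (a (v (nat_lit 4) (a (u (nat_lit 9) (k (nat_lit 0x93d56))) (u (nat_lit 5) (k (nat_lit 0x93d56))))) (u (nat_lit 4) (a (v (nat_lit 9) (k (nat_lit 0x139c2c))) (v (nat_lit 5) (k (nat_lit 0x139c2c))))))) (a (a (v (nat_lit 3) (u (nat_lit 6) (k (nat_lit 0x12e538)))) (u (nat_lit 3) (a (v (nat_lit 9) (k (nat_lit 0x9a6ec))) (v (nat_lit 5) (k (nat_lit 0x9a6ec)))))) (a (u (nat_lit 2) (v (nat_lit 5) (k (nat_lit 0x9a6ec)))) (u (nat_lit 1) (v (nat_lit 3) (k (nat_lit 0x12e538)))))))) (v (nat_lit 0) (a (a (a (u (nat_lit 9) (v (nat_lit 9) (k (nat_lit 0x263220)))) (a (u (nat_lit 8) (v (nat_lit 8) (k (nat_lit 0x263220)))) (u (nat_lit 7) (v (nat_lit 7) (k (nat_lit 0x131934)))))) (a (v (nat_lit 6) (u (nat_lit 7) (k (nat_lit 0x1319e8)))) (a (u (nat_lit 6) (a (v (nat_lit 7) (k (nat_lit 0x1319e8))) (v (nat_lit 6) (k (nat_lit 0x131934))))) (u (nat_lit 5) (v (nat_lit 5) (k (nat_lit 0x263220))))))) (a (a (u (nat_lit 4) (v (nat_lit 4) (k (nat_lit 0x131934)))) (a (v (nat_lit 3) (u (nat_lit 4) (k (nat_lit 0x1319e8)))) (u (nat_lit 3) (a (v (nat_lit 4) (k (nat_lit 0x1319e8))) (v (nat_lit 3) (k (nat_lit 0x131934))))))) (a (u (nat_lit 2) (v (nat_lit 2) (k (nat_lit 0x131934)))) (a (v (nat_lit 1) (u (nat_lit 2) (k (nat_lit 0x1319e8)))) (u (nat_lit 1) (a (v (nat_lit 2) (k (nat_lit 0x1319e8))) (v (nat_lit 1) (k (nat_lit 0x131934)))))))))))))))))) (a (a (u (nat_lit 0) (a (a (a (a (u (nat_lit 7) (v (nat_lit 7) (a (u (nat_lit 9) (k (nat_lit 0x130830))) (u (nat_lit 8) (k (nat_lit 0x130830)))))) (v (nat_lit 6) (a (v (nat_lit 7) (a (u (nat_lit 9) (k (nat_lit 0x132954))) (a (u (nat_lit 8) (k (nat_lit 0x132954))) (v (nat_lit 7) (k (nat_lit 0x1319e8)))))) (v (nat_lit 6) (v (nat_lit 7) (k (nat_lit 0x1319e8))))))) (a (u (nat_lit 6) (a (u (nat_lit 7) (a (v (nat_lit 9) (k (nat_lit 0x136680))) (a (v (nat_lit 8) (k (nat_lit 0x136680))) (u (nat_lit 7) (k (nat_lit 0x261198)))))) (a (v (nat_lit 6) (a (u (nat_lit 9) (k (nat_lit 0x130830))) (u (nat_lit 8) (k (nat_lit 0x130830))))) (u (nat_lit 6) (u (nat_lit 7) (k (nat_lit 0x261198))))))) (a (v (nat_lit 5) (a (u (nat_lit 7) (v (nat_lit 7) (k (nat_lit 0x132168)))) (a (v (nat_lit 6) (v (nat_lit 7) (k (nat_lit 0x26b248)))) (u (nat_lit 6) (a (u (nat_lit 7) (k (nat_lit 0x7147b0))) (v (nat_lit 6) (k (nat_lit 0x132168)))))))) (v (nat_lit 4) (a (a (v (nat_lit 7) (u (nat_lit 9) (k (nat_lit 0x132954)))) (v (nat_lit 6) (a (v (nat_lit 9) (k (nat_lit 0x132e94))) (v (nat_lit 7) (k (nat_lit 0x953f4)))))) (a (u (nat_lit 6) (u (nat_lit 7) (k (nat_lit 0x136680)))) (t (nat_lit 5) (nat_lit 8) (nat_lit 9) (v (nat_lit 6) (k (nat_lit 0x139c2c)))))))))) (a (a (u (nat_lit 4) (v (nat_lit 4) (a (u (nat_lit 9) (k (nat_lit 0x130830))) (a (v (nat_lit 8) (k (nat_lit 0x132168))) (u (nat_lit 5) (k (nat_lit 0x130830))))))) (t (nat_lit 4) (nat_lit 7) (nat_lit 9) (a (u (nat_lit 7) (u (nat_lit 9) (k (nat_lit 0x784c52a)))) (u (nat_lit 4) (u (nat_lit 9) (k (nat_lit 0x784c52a))))))) (a (v (nat_lit 3) (a (a (v (nat_lit 7) (v (nat_lit 9) (k (nat_lit 0x132e94)))) (a (v (nat_lit 6) (a (u (nat_lit 9) (k (nat_lit 0x132954))) (v (nat_lit 7) (k (nat_lit 0x953f4))))) (u (nat_lit 6) (u (nat_lit 7) (k (nat_lit 0x136680)))))) (a (t (nat_lit 5) (nat_lit 8) (nat_lit 9) (v (nat_lit 7) (k (nat_lit 0x139c2c)))) (a (v (nat_lit 4) (a (a (u (nat_lit 9) (k (nat_lit 0x132954))) (a (v (nat_lit 8) (k (nat_lit 0x26b248))) (v (nat_lit 7) (k (nat_lit 0x953f4))))) (a (v (nat_lit 6) (k (nat_lit 0x953f4))) (a (u (nat_lit 5) (k (nat_lit 0x132954))) (v (nat_lit 4) (k (nat_lit 0x1319e8))))))) (v (nat_lit 3) (v (nat_lit 4) (k (nat_lit 0x1319e8)))))))) (a (u (nat_lit 3) (a (u (nat_lit 4) (a (a (v (nat_lit 9) (k (nat_lit 0x136680))) (a (v (nat_lit 8) (k (nat_lit 0x7147b0))) (v (nat_lit 7) (k (nat_lit 0x136680))))) (a (v (nat_lit 6) (k (nat_lit 0x136680))) (a (v (nat_lit 5) (k (nat_lit 0x136680))) (u (nat_lit 4) (k (nat_lit 0x261198))))))) (a (v (nat_lit 3) (a (u (nat_lit 9) (k (nat_lit 0x130830))) (a (v (nat_lit 8) (k (nat_lit 0x132168))) (u (nat_lit 5) (k (nat_lit 0x130830)))))) (u (nat_lit 3) (u (nat_lit 4) (k (nat_lit 0x261198))))))) (t (nat_lit 3) (nat_lit 6) (nat_lit 9) (a (u (nat_lit 6) (u (nat_lit 9) (k (nat_lit 0x784c52a)))) (u (nat_lit 3) (u (nat_lit 9) (k (nat_lit 0x784c52a)))))))))) (a (a (a (v (nat_lit 2) (a (a (a (v (nat_lit 7) (u (nat_lit 8) (k (nat_lit 0x132954)))) (v (nat_lit 6) (a (v (nat_lit 8) (k (nat_lit 0x132e94))) (v (nat_lit 7) (k (nat_lit 0x953f4)))))) (a (u (nat_lit 6) (u (nat_lit 7) (k (nat_lit 0x136680)))) (t (nat_lit 5) (nat_lit 8) (nat_lit 9) (v (nat_lit 6) (k (nat_lit 0x139c2c)))))) (a (a (v (nat_lit 4) (u (nat_lit 5) (k (nat_lit 0x132954)))) (t (nat_lit 4) (nat_lit 7) (nat_lit 9) (v (nat_lit 6) (k (nat_lit 0x9a6ec))))) (a (v (nat_lit 3) (a (a (v (nat_lit 5) (k (nat_lit 0x132e94))) (t (nat_lit 5) (nat_lit 8) (nat_lit 9) (k (nat_lit 0x139c2c)))) (a (v (nat_lit 4) (k (nat_lit 0x953f4))) (t (nat_lit 4) (nat_lit 7) (nat_lit 9) (k (nat_lit 0x9a6ec)))))) (a (u (nat_lit 3) (u (nat_lit 4) (k (nat_lit 0x136680)))) (t (nat_lit 3) (nat_lit 6) (nat_lit 9) (a (v (nat_lit 8) (k (nat_lit 0x93d56))) (v (nat_lit 5) (k (nat_lit 0x93d56)))))))))) (u (nat_lit 2) (v (nat_lit 2) (a (v (nat_lit 9) (k (nat_lit 0x132168))) (a (u (nat_lit 8) (k (nat_lit 0x130830))) (u (nat_lit 5) (k (nat_lit 0x130830)))))))) (a (t (nat_lit 2) (nat_lit 4) (nat_lit 5) (a (a (v (nat_lit 6) (a (v (nat_lit 9) (k (nat_lit 0x93d56))) (v (nat_lit 8) (k (nat_lit 0x93d56))))) (u (nat_lit 4) (u (nat_lit 5) (k (nat_lit 0x784c52a))))) (a (v (nat_lit 3) (v (nat_lit 7) (k (nat_lit 0x9a6ec)))) (a (t (nat_lit 3) (nat_lit 6) (nat_lit 9) (a (u (nat_lit 8) (k (nat_lit 0x2df37f8))) (a (u (nat_lit 4) (k (nat_lit 0x31e819c))) (u (nat_lit 3) (k (nat_lit 0x31e819c)))))) (u (nat_lit 2) (u (nat_lit 5) (k (nat_lit 0x784c52a)))))))) (a (t (nat_lit 2) (nat_lit 7) (nat_lit 8) (a (a (u (nat_lit 7) (u (nat_lit 8) (k (nat_lit 0x784c52a)))) (v (nat_lit 4) (v (nat_lit 6) (k (nat_lit 0x9a6ec))))) (a (v (nat_lit 3) (a (v (nat_lit 9) (k (nat_lit 0x93d56))) (v (nat_lit 5) (k (nat_lit 0x93d56))))) (a (t (nat_lit 3) (nat_lit 6) (nat_lit 9) (a (u (nat_lit 7) (k (nat_lit 0x31e819c))) (a (u (nat_lit 6) (k (nat_lit 0x31e819c))) (u (nat_lit 5) (k (nat_lit 0x2df37f8)))))) (u (nat_lit 2) (u (nat_lit 8) (k (nat_lit 0x784c52a)))))))) (v (nat_lit 1) (a (a (a (v (nat_lit 7) (v (nat_lit 8) (k (nat_lit 0x132e94)))) (a (v (nat_lit 6) (a (u (nat_lit 8) (k (nat_lit 0x132954))) (v (nat_lit 7) (k (nat_lit 0x953f4))))) (u (nat_lit 6) (u (nat_lit 7) (k (nat_lit 0x136680)))))) (a (t (nat_lit 5) (nat_lit 8) (nat_lit 9) (v (nat_lit 7) (k (nat_lit 0x139c2c)))) (a (v (nat_lit 4) (a (v (nat_lit 5) (k (nat_lit 0x132e94))) (t (nat_lit 5) (nat_lit 8) (nat_lit 9) (k (nat_lit 0x139c2c))))) (t (nat_lit 4) (nat_lit 7) (nat_lit 9) (a (v (nat_lit 8) (k (nat_lit 0x93d56))) (v (nat_lit 5) (k (nat_lit 0x93d56)))))))) (a (a (v (nat_lit 3) (a (u (nat_lit 5) (k (nat_lit 0x132954))) (v (nat_lit 4) (k (nat_lit 0x953f4))))) (a (u (nat_lit 3) (u (nat_lit 4) (k (nat_lit 0x136680)))) (t (nat_lit 3) (nat_lit 6) (nat_lit 9) (a (v (nat_lit 7) (k (nat_lit 0x9a6ec))) (v (nat_lit 4) (k (nat_lit 0x9a6ec))))))) (a (a (v (nat_lit 2) (a (a (a (v (nat_lit 9) (k (nat_lit 0x26b248))) (u (nat_lit 8) (k (nat_lit 0x132954)))) (a (v (nat_lit 7) (k (nat_lit 0x953f4))) (v (nat_lit 6) (k (nat_lit 0x953f4))))) (a (a (u (nat_lit 5) (k (nat_lit 0x132954))) (v (nat_lit 4) (k (nat_lit 0x953f4)))) (a (v (nat_lit 3) (k (nat_lit 0x953f4))) (v (nat_lit 2) (k (nat_lit 0x1319e8))))))) (t (nat_lit 2) (nat_lit 4) (nat_lit 5) (v (nat_lit 7) (k (nat_lit 0x9a6ec))))) (a (t (nat_lit 2) (nat_lit 7) (nat_lit 8) (v (nat_lit 4) (k (nat_lit 0x9a6ec)))) (v (nat_lit 1) (v (nat_lit 2) (k (nat_lit 0x1319e8)))))))))))) (a (a (u (nat_lit 1) (a (u (nat_lit 2) (a (a (a (v (nat_lit 9) (k (nat_lit 0x7147b0))) (v (nat_lit 8) (k (nat_lit 0x136680)))) (a (v (nat_lit 7) (k (nat_lit 0x136680))) (v (nat_lit 6) (k (nat_lit 0x136680))))) (a (a (v (nat_lit 5) (k (nat_lit 0x136680))) (v (nat_lit 4) (k (nat_lit 0x136680)))) (a (v (nat_lit 3) (k (nat_lit 0x136680))) (u (nat_lit 2) (k (nat_lit 0x261198))))))) (a (v (nat_lit 1) (a (v (nat_lit 9) (k (nat_lit 0x132168))) (a (u (nat_lit 8) (k (nat_lit 0x130830))) (u (nat_lit 5) (k (nat_lit 0x130830)))))) (u (nat_lit 1) (u (nat_lit 2) (k (nat_lit 0x261198))))))) (t (nat_lit 1) (nat_lit 3) (nat_lit 5) (a (a (v (nat_lit 7) (a (v (nat_lit 9) (k (nat_lit 0x93d56))) (v (nat_lit 8) (k (nat_lit 0x93d56))))) (a (v (nat_lit 4) (v (nat_lit 6) (k (nat_lit 0x9a6ec)))) (t (nat_lit 4) (nat_lit 7) (nat_lit 9) (a (u (nat_lit 8) (k (nat_lit 0x2df37f8))) (u (nat_lit 4) (k (nat_lit 0x31e819c))))))) (a (a (u (nat_lit 3) (a (u (nat_lit 5) (k (nat_lit 0x784c52a))) (t (nat_lit 4) (nat_lit 7) (nat_lit 9) (k (nat_lit 0x31e819c))))) (v (nat_lit 2) (v (nat_lit 6) (k (nat_lit 0x9a6ec))))) (a (t (nat_lit 2) (nat_lit 7) (nat_lit 8) (a (u (nat_lit 9) (k (nat_lit 0x2df37f8))) (u (nat_lit 2) (k (nat_lit 0x31e819c))))) (u (nat_lit 1) (a (u (nat_lit 5) (k (nat_lit 0x784c52a))) (t (nat_lit 2) (nat_lit 7) (nat_lit 8) (k (nat_lit 0x31e819c)))))))))) (a (t (nat_lit 1) (nat_lit 6) (nat_lit 8) (a (a (u (nat_lit 6) (u (nat_lit 8) (k (nat_lit 0x784c52a)))) (a (v (nat_lit 4) (a (v (nat_lit 9) (k (nat_lit 0x93d56))) (v (nat_lit 5) (k (nat_lit 0x93d56))))) (t (nat_lit 4) (nat_lit 7) (nat_lit 9) (a (u (nat_lit 7) (k (nat_lit 0x31e819c))) (a (u (nat_lit 6) (k (nat_lit 0x31e819c))) (u (nat_lit 5) (k (nat_lit 0x2df37f8)))))))) (a (a (v (nat_lit 3) (v (nat_lit 7) (k (nat_lit 0x9a6ec)))) (v (nat_lit 2) (v (nat_lit 3) (k (nat_lit 0x9a6ec))))) (a (t (nat_lit 2) (nat_lit 4) (nat_lit 5) (a (u (nat_lit 9) (k (nat_lit 0x2df37f8))) (u (nat_lit 2) (k (nat_lit 0x31e819c))))) (u (nat_lit 1) (a (u (nat_lit 8) (k (nat_lit 0x784c52a))) (t (nat_lit 2) (nat_lit 4) (nat_lit 5) (k (nat_lit 0x31e819c))))))))) (a (v (nat_lit 0) (a (a (a (v (nat_lit 9) (v (nat_lit 9) (k (nat_lit 0x263220)))) (a (v (nat_lit 8) (a (v (nat_lit 9) (k (nat_lit 0x262968))) (v (nat_lit 8) (k (nat_lit 0x263220))))) (v (nat_lit 7) (a (v (nat_lit 9) (k (nat_lit 0x98ca6))) (a (v (nat_lit 8) (k (nat_lit 0x98ca6))) (v (nat_lit 7) (k (nat_lit 0x131934)))))))) (a (a (v (nat_lit 6) (a (a (v (nat_lit 9) (k (nat_lit 0x98ca6))) (v (nat_lit 8) (k (nat_lit 0x98ca6)))) (a (v (nat_lit 7) (k (nat_lit 0x261120))) (v (nat_lit 6) (k (nat_lit 0x131934)))))) (v (nat_lit 5) (a (a (v (nat_lit 9) (k (nat_lit 0x262968))) (a (v (nat_lit 8) (k (nat_lit 0x262968))) (v (nat_lit 7) (k (nat_lit 0x131bf8))))) (a (a (u (nat_lit 7) (k (nat_lit 0x132168))) (v (nat_lit 6) (k (nat_lit 0x131bf8)))) (a (u (nat_lit 6) (k (nat_lit 0x132168))) (v (nat_lit 5) (k (nat_lit 0x263220)))))))) (a (v (nat_lit 4) (a (a (v (nat_lit 9) (k (nat_lit 0x98ca6))) (a (v (nat_lit 8) (k (nat_lit 0x131bf8))) (v (nat_lit 7) (k (nat_lit 0x134df0))))) (a (v (nat_lit 6) (k (nat_lit 0x1329e4))) (a (v (nat_lit 5) (k (nat_lit 0x98ca6))) (v (nat_lit 4) (k (nat_lit 0x131934))))))) (u (nat_lit 4) (a (v (nat_lit 8) (k (nat_lit 0x132168))) (u (nat_lit 6) (k (nat_lit 0x130830)))))))) (a (a (v (nat_lit 3) (a (a (v (nat_lit 9) (k (nat_lit 0x98ca6))) (a (v (nat_lit 8) (k (nat_lit 0x131bf8))) (v (nat_lit 7) (k (nat_lit 0x1329e4))))) (a (a (v (nat_lit 6) (k (nat_lit 0x134df0))) (v (nat_lit 5) (k (nat_lit 0x98ca6)))) (a (v (nat_lit 4) (k (nat_lit 0x261120))) (v (nat_lit 3) (k (nat_lit 0x131934))))))) (a (u (nat_lit 3) (a (v (nat_lit 8) (k (nat_lit 0x132168))) (u (nat_lit 7) (k (nat_lit 0x130830))))) (v (nat_lit 2) (a (a (a (v (nat_lit 9) (k (nat_lit 0x131bf8))) (v (nat_lit 8) (k (nat_lit 0x98ca6)))) (a (v (nat_lit 7) (k (nat_lit 0x134df0))) (v (nat_lit 6) (k (nat_lit 0x1329e4))))) (a (a (v (nat_lit 5) (k (nat_lit 0x98ca6))) (v (nat_lit 4) (k (nat_lit 0x134df0)))) (a (v (nat_lit 3) (k (nat_lit 0x1329e4))) (v (nat_lit 2) (k (nat_lit 0x131934))))))))) (a (a (u (nat_lit 2) (a (v (nat_lit 9) (k (nat_lit 0x132168))) (a (u (nat_lit 6) (k (nat_lit 0x130830))) (u (nat_lit 3) (k (nat_lit 0x130830)))))) (v (nat_lit 1) (a (a (a (v (nat_lit 9) (k (nat_lit 0x131bf8))) (v (nat_lit 8) (k (nat_lit 0x98ca6)))) (a (v (nat_lit 7) (k (nat_lit 0x1329e4))) (v (nat_lit 6) (k (nat_lit 0x134df0))))) (a (a (v (nat_lit 5) (k (nat_lit 0x98ca6))) (v (nat_lit 4) (k (nat_lit 0x1329e4)))) (a (v (nat_lit 3) (k (nat_lit 0x134df0))) (a (v (nat_lit 2) (k (nat_lit 0x261120))) (v (nat_lit 1) (k (nat_lit 0x131934))))))))) (a (u (nat_lit 1) (a (v (nat_lit 9) (k (nat_lit 0x132168))) (a (u (nat_lit 7) (k (nat_lit 0x130830))) (u (nat_lit 4) (k (nat_lit 0x130830)))))) (v (nat_lit 0) (a (a (a (v (nat_lit 9) (k (nat_lit 0x262920))) (v (nat_lit 8) (k (nat_lit 0x262920)))) (a (v (nat_lit 7) (k (nat_lit 0x131910))) (a (v (nat_lit 6) (k (nat_lit 0x131910))) (v (nat_lit 5) (k (nat_lit 0x262920)))))) (a (a (v (nat_lit 4) (k (nat_lit 0x131910))) (v (nat_lit 3) (k (nat_lit 0x131910)))) (a (v (nat_lit 2) (k (nat_lit 0x131910))) (a (v (nat_lit 1) (k (nat_lit 0x131910))) (v (nat_lit 0) (k (nat_lit 0x7299c0))))))))))))) (u (nat_lit 0) (a (a (u (nat_lit 6) (u (nat_lit 7) (k (nat_lit 0x261198)))) (u (nat_lit 3) (u (nat_lit 4) (k (nat_lit 0x261198))))) (a (u (nat_lit 1) (u (nat_lit 2) (k (nat_lit 0x261198)))) (v (nat_lit 0) (v (nat_lit 0) (k (nat_lit 0x729a08))))))))))))) (t (nat_lit 0) (nat_lit 1) (nat_lit 2) (a (a (a (a (v (nat_lit 5) (a (a (v (nat_lit 7) (a (u (nat_lit 9) (k (nat_lit 0x139c2c))) (u (nat_lit 8) (k (nat_lit 0x9a6ec))))) (u (nat_lit 7) (v (nat_lit 9) (k (nat_lit 0x93d56))))) (a (v (nat_lit 6) (a (u (nat_lit 9) (k (nat_lit 0x139c2c))) (u (nat_lit 8) (k (nat_lit 0x9a6ec))))) (u (nat_lit 6) (v (nat_lit 9) (k (nat_lit 0x93d56))))))) (u (nat_lit 5) (a (v (nat_lit 7) (v (nat_lit 9) (k (nat_lit 0x93d56)))) (v (nat_lit 6) (v (nat_lit 9) (k (nat_lit 0x93d56))))))) (a (t (nat_lit 5) (nat_lit 8) (nat_lit 9) (a (a (u (nat_lit 8) (v (nat_lit 9) (k (nat_lit 0x3d860fc)))) (u (nat_lit 7) (u (nat_lit 8) (k (nat_lit 0x31e819c))))) (a (u (nat_lit 6) (u (nat_lit 8) (k (nat_lit 0x31e819c)))) (u (nat_lit 5) (v (nat_lit 9) (k (nat_lit 0x3d860fc))))))) (v (nat_lit 4) (a (a (v (nat_lit 8) (u (nat_lit 9) (k (nat_lit 0x139c2c)))) (a (u (nat_lit 8) (v (nat_lit 9) (k (nat_lit 0x93d56)))) (u (nat_lit 7) (v (nat_lit 8) (k (nat_lit 0x9a6ec)))))) (a (v (nat_lit 6) (a (u (nat_lit 9) (k (nat_lit 0x139c2c))) (u (nat_lit 7) (k (nat_lit 0x9a6ec))))) (a (u (nat_lit 6) (v (nat_lit 9) (k (nat_lit 0x93d56)))) (u (nat_lit 5) (v (nat_lit 8) (k (nat_lit 0x9a6ec)))))))))) (a (a (u (nat_lit 4) (a (a (v (nat_lit 8) (v (nat_lit 9) (k (nat_lit 0x93d56)))) (v (nat_lit 6) (v (nat_lit 9) (k (nat_lit 0x93d56))))) (a (v (nat_lit 5) (v (nat_lit 7) (k (nat_lit 0x9a6ec)))) (t (nat_lit 5) (nat_lit 8) (nat_lit 9) (a (u (nat_lit 6) (k (nat_lit 0x2df37f8))) (u (nat_lit 5) (k (nat_lit 0x31e819c)))))))) (t (nat_lit 4) (nat_lit 7) (nat_lit 9) (a (a (u (nat_lit 7) (a (v (nat_lit 9) (k (nat_lit 0x3d860fc))) (u (nat_lit 8) (k (nat_lit 0x31e819c))))) (u (nat_lit 6) (u (nat_lit 7) (k (nat_lit 0x31e819c))))) (a (u (nat_lit 5) (u (nat_lit 6) (k (nat_lit 0x2df37f8)))) (a (t (nat_lit 5) (nat_lit 8) (nat_lit 9) (u (nat_lit 9) (k (nat_lit 0x263400)))) (u (nat_lit 4) (a (v (nat_lit 9) (k (nat_lit 0x3d860fc))) (u (nat_lit 5) (k (nat_lit 0x31e819c)))))))))) (a (v (nat_lit 3) (a (a (v (nat_lit 8) (u (nat_lit 9) (k (nat_lit 0x139c2c)))) (a (u (nat_lit 8) (v (nat_lit 9) (k (nat_lit 0x93d56)))) (v (nat_lit 7) (u (nat_lit 9) (k (nat_lit 0x139c2c)))))) (a (a (u (nat_lit 7) (v (nat_lit 9) (k (nat_lit 0x93d56)))) (u (nat_lit 6) (a (v (nat_lit 8) (k (nat_lit 0x9a6ec))) (v (nat_lit 7) (k (nat_lit 0x9a6ec)))))) (a (u (nat_lit 5) (v (nat_lit 8) (k (nat_lit 0x9a6ec)))) (u (nat_lit 4) (v (nat_lit 7) (k (nat_lit 0x9a6ec)))))))) (a (u (nat_lit 3) (a (a (v (nat_lit 8) (v (nat_lit 9) (k (nat_lit 0x93d56)))) (a (v (nat_lit 7) (v (nat_lit 9) (k (nat_lit 0x93d56)))) (v (nat_lit 5) (v (nat_lit 6) (k (nat_lit 0x9a6ec)))))) (a (t (nat_lit 5) (nat_lit 8) (nat_lit 9) (a (u (nat_lit 7) (k (nat_lit 0x2df37f8))) (u (nat_lit 5) (k (nat_lit 0x31e819c))))) (a (v (nat_lit 4) (v (nat_lit 6) (k (nat_lit 0x9a6ec)))) (t (nat_lit 4) (nat_lit 7) (nat_lit 9) (a (u (nat_lit 8) (k (nat_lit 0x2df37f8))) (u (nat_lit 4) (k (nat_lit 0x31e819c))))))))) (t (nat_lit 3) (nat_lit 6) (nat_lit 9) (a (a (u (nat_lit 6) (a (v (nat_lit 9) (k (nat_lit 0x3d860fc))) (a (u (nat_lit 8) (k (nat_lit 0x31e819c))) (u (nat_lit 7) (k (nat_lit 0x31e819c)))))) (a (u (nat_lit 5) (u (nat_lit 7) (k (nat_lit 0x2df37f8)))) (t (nat_lit 5) (nat_lit 8) (nat_lit 9) (u (nat_lit 9) (k (nat_lit 0x263400)))))) (a (u (nat_lit 4) (u (nat_lit 8) (k (nat_lit 0x2df37f8)))) (a (t (nat_lit 4) (nat_lit 7) (nat_lit 9) (u (nat_lit 9) (k (nat_lit 0x263400)))) (u (nat_lit 3) (a (v (nat_lit 9) (k (nat_lit 0x3d860fc))) (a (u (nat_lit 5) (k (nat_lit 0x31e819c))) (u (nat_lit 4) (k (nat_lit 0x31e819c)))))))))))))) (a (a (a (u (nat_lit 2) (a (a (v (nat_lit 5) (v (nat_lit 8) (k (nat_lit 0x12e538)))) (t (nat_lit 5) (nat_lit 8) (nat_lit 9) (a (u (nat_lit 7) (k (nat_lit 0x31e819c))) (t (nat_lit 5) (nat_lit 8) (nat_lit 9) (k (nat_lit 0x131988)))))) (a (v (nat_lit 4) (v (nat_lit 7) (k (nat_lit 0x12e538)))) (a (u (nat_lit 4) (t (nat_lit 5) (nat_lit 8) (nat_lit 9) (k (nat_lit 0x31e819c)))) (t (nat_lit 4) (nat_lit 7) (nat_lit 9) (a (u (nat_lit 8) (k (nat_lit 0x31e819c))) (a (u (nat_lit 5) (k (nat_lit 0x31e819c))) (t (nat_lit 4) (nat_lit 7) (nat_lit 9) (k (nat_lit 0x131988)))))))))) (t (nat_lit 2) (nat_lit 4) (nat_lit 5) (u (nat_lit 2) (t (nat_lit 3) (nat_lit 6) (nat_lit 9) (k (nat_lit 0x263400)))))) (a (t (nat_lit 2) (nat_lit 7) (nat_lit 8) (u (nat_lit 2) (t (nat_lit 3) (nat_lit 6) (nat_lit 9) (k (nat_lit 0x263400))))) (a (v (nat_lit 1) (u (nat_lit 2) (t (nat_lit 4) (nat_lit 7) (nat_lit 9) (k (nat_lit 0x3d860fc))))) (u (nat_lit 1) (a (a (v (nat_lit 5) (v (nat_lit 8) (k (nat_lit 0x12e538)))) (a (t (nat_lit 5) (nat_lit 8) (nat_lit 9) (a (u (nat_lit 6) (k (nat_lit 0x31e819c))) (t (nat_lit 5) (nat_lit 8) (nat_lit 9) (k (nat_lit 0x131988))))) (v (nat_lit 3) (v (nat_lit 6) (k (nat_lit 0x12e538)))))) (a (a (u (nat_lit 3) (t (nat_lit 5) (nat_lit 8) (nat_lit 9) (k (nat_lit 0x31e819c)))) (t (nat_lit 3) (nat_lit 6) (nat_lit 9) (a (u (nat_lit 8) (k (nat_lit 0x31e819c))) (a (u (nat_lit 5) (k (nat_lit 0x31e819c))) (t (nat_lit 3) (nat_lit 6) (nat_lit 9) (k (nat_lit 0x131988))))))) (a (v (nat_lit 2) (t (nat_lit 3) (nat_lit 6) (nat_lit 9) (k (nat_lit 0x3d860fc)))) (u (nat_lit 2) (a (a (u (nat_lit 7) (k (nat_lit 0x784c52a))) (u (nat_lit 6) (k (nat_lit 0x784c52a)))) (a (u (nat_lit 4) (k (nat_lit 0x784c52a))) (u (nat_lit 3) (k (nat_lit 0x784c52a))))))))))))) (a (a (t (nat_lit 1) (nat_lit 3) (nat_lit 5) (u (nat_lit 1) (t (nat_lit 4) (nat_lit 7) (nat_lit 9) (k (nat_lit 0x263400))))) (t (nat_lit 1) (nat_lit 6) (nat_lit 8) (u (nat_lit 1) (t (nat_lit 4) (nat_lit 7) (nat_lit 9) (k (nat_lit 0x263400)))))) (a (v (nat_lit 0) (a (u (nat_lit 2) (t (nat_lit 5) (nat_lit 8) (nat_lit 9) (k (nat_lit 0x3d860fc)))) (u (nat_lit 1) (t (nat_lit 5) (nat_lit 8) (nat_lit 9) (k (nat_lit 0x3d860fc)))))) (a (u (nat_lit 0) (a (a (a (v (nat_lit 4) (v (nat_lit 7) (k (nat_lit 0x12e538)))) (t (nat_lit 4) (nat_lit 7) (nat_lit 9) (a (u (nat_lit 6) (k (nat_lit 0x31e819c))) (t (nat_lit 4) (nat_lit 7) (nat_lit 9) (k (nat_lit 0x131988)))))) (a (v (nat_lit 3) (v (nat_lit 6) (k (nat_lit 0x12e538)))) (u (nat_lit 3) (t (nat_lit 4) (nat_lit 7) (nat_lit 9) (k (nat_lit 0x31e819c)))))) (a (a (t (nat_lit 3) (nat_lit 6) (nat_lit 9) (a (u (nat_lit 7) (k (nat_lit 0x31e819c))) (a (u (nat_lit 4) (k (nat_lit 0x31e819c))) (t (nat_lit 3) (nat_lit 6) (nat_lit 9) (k (nat_lit 0x131988)))))) (v (nat_lit 2) (t (nat_lit 3) (nat_lit 6) (nat_lit 9) (k (nat_lit 0x3d860fc))))) (a (u (nat_lit 2) (a (a (u (nat_lit 8) (k (nat_lit 0x784c52a))) (u (nat_lit 6) (k (nat_lit 0x784c52a)))) (a (u (nat_lit 5) (k (nat_lit 0x784c52a))) (u (nat_lit 3) (k (nat_lit 0x784c52a)))))) (a (v (nat_lit 1) (t (nat_lit 4) (nat_lit 7) (nat_lit 9) (k (nat_lit 0x3d860fc)))) (u (nat_lit 1) (a (a (u (nat_lit 8) (k (nat_lit 0x784c52a))) (u (nat_lit 7) (k (nat_lit 0x784c52a)))) (a (u (nat_lit 5) (k (nat_lit 0x784c52a))) (a (u (nat_lit 4) (k (nat_lit 0x784c52a))) (u (nat_lit 2) (k (nat_lit 0x8b2f00)))))))))))) (t (nat_lit 0) (nat_lit 1) (nat_lit 2) (a (t (nat_lit 5) (nat_lit 8) (nat_lit 9) (a (u (nat_lit 8) (k (nat_lit 0x131988))) (u (nat_lit 5) (k (nat_lit 0x131988))))) (a (t (nat_lit 4) (nat_lit 7) (nat_lit 9) (a (u (nat_lit 7) (k (nat_lit 0x131988))) (u (nat_lit 4) (k (nat_lit 0x131988))))) (t (nat_lit 3) (nat_lit 6) (nat_lit 9) (a (u (nat_lit 6) (k (nat_lit 0x131988))) (u (nat_lit 3) (k (nat_lit 0x131988))))))))))))))) (a (t (nat_lit 0) (nat_lit 3) (nat_lit 4) (a (a (a (a (v (nat_lit 5) (a (a (v (nat_lit 7) (a (u (nat_lit 9) (k (nat_lit 0x9a6ec))) (u (nat_lit 8) (k (nat_lit 0x139c2c))))) (u (nat_lit 7) (v (nat_lit 8) (k (nat_lit 0x93d56))))) (a (v (nat_lit 6) (a (u (nat_lit 9) (k (nat_lit 0x9a6ec))) (u (nat_lit 8) (k (nat_lit 0x139c2c))))) (u (nat_lit 6) (v (nat_lit 8) (k (nat_lit 0x93d56))))))) (u (nat_lit 5) (a (v (nat_lit 7) (v (nat_lit 8) (k (nat_lit 0x93d56)))) (v (nat_lit 6) (v (nat_lit 8) (k (nat_lit 0x93d56))))))) (a (t (nat_lit 5) (nat_lit 8) (nat_lit 9) (a (a (v (nat_lit 8) (u (nat_lit 9) (k (nat_lit 0x3d860fc)))) (u (nat_lit 7) (u (nat_lit 9) (k (nat_lit 0x31e819c))))) (a (u (nat_lit 6) (u (nat_lit 9) (k (nat_lit 0x31e819c)))) (u (nat_lit 5) (v (nat_lit 8) (k (nat_lit 0x3d860fc))))))) (u (nat_lit 4) (a (v (nat_lit 5) (v (nat_lit 9) (k (nat_lit 0x12e538)))) (t (nat_lit 5) (nat_lit 8) (nat_lit 9) (a (u (nat_lit 7) (k (nat_lit 0x31e819c))) (t (nat_lit 5) (nat_lit 8) (nat_lit 9) (k (nat_lit 0x131988))))))))) (a (a (u (nat_lit 3) (a (v (nat_lit 5) (v (nat_lit 9) (k (nat_lit 0x12e538)))) (a (t (nat_lit 5) (nat_lit 8) (nat_lit 9) (a (u (nat_lit 6) (k (nat_lit 0x31e819c))) (t (nat_lit 5) (nat_lit 8) (nat_lit 9) (k (nat_lit 0x131988))))) (u (nat_lit 4) (a (u (nat_lit 7) (k (nat_lit 0x784c52a))) (u (nat_lit 6) (k (nat_lit 0x784c52a)))))))) (v (nat_lit 2) (a (a (v (nat_lit 8) (u (nat_lit 9) (k (nat_lit 0x93d56)))) (a (u (nat_lit 8) (v (nat_lit 9) (k (nat_lit 0x139c2c)))) (u (nat_lit 7) (v (nat_lit 9) (k (nat_lit 0x9a6ec)))))) (a (a (v (nat_lit 6) (a (u (nat_lit 8) (k (nat_lit 0x139c2c))) (u (nat_lit 7) (k (nat_lit 0x9a6ec))))) (u (nat_lit 6) (v (nat_lit 8) (k (nat_lit 0x93d56))))) (a (u (nat_lit 5) (v (nat_lit 9) (k (nat_lit 0x9a6ec)))) (u (nat_lit 4) (v (nat_lit 7) (k (nat_lit 0x12e538))))))))) (a (u (nat_lit 2) (a (a (v (nat_lit 8) (v (nat_lit 9) (k (nat_lit 0x93d56)))) (a (v (nat_lit 6) (v (nat_lit 8) (k (nat_lit 0x93d56)))) (v (nat_lit 5) (v (nat_lit 7) (k (nat_lit 0x9a6ec)))))) (a (t (nat_lit 5) (nat_lit 8) (nat_lit 9) (a (u (nat_lit 6) (k (nat_lit 0x2df37f8))) (u (nat_lit 5) (k (nat_lit 0x31e819c))))) (a (u (nat_lit 4) (t (nat_lit 5) (nat_lit 8) (nat_lit 9) (k (nat_lit 0x31e819c)))) (u (nat_lit 3) (u (nat_lit 4) (k (nat_lit 0x784c52a)))))))) (t (nat_lit 2) (nat_lit 7) (nat_lit 8) (a (a (a (u (nat_lit 7) (a (u (nat_lit 9) (k (nat_lit 0x31e819c))) (v (nat_lit 8) (k (nat_lit 0x3d860fc))))) (u (nat_lit 6) (u (nat_lit 7) (k (nat_lit 0x31e819c))))) (a (u (nat_lit 5) (u (nat_lit 6) (k (nat_lit 0x2df37f8)))) (t (nat_lit 5) (nat_lit 8) (nat_lit 9) (u (nat_lit 8) (k (nat_lit 0x263400)))))) (a (a (u (nat_lit 4) (a (u (nat_lit 9) (k (nat_lit 0x31e819c))) (u (nat_lit 5) (k (nat_lit 0x31e819c))))) (v (nat_lit 3) (u (nat_lit 4) (k (nat_lit 0x3d860fc))))) (a (t (nat_lit 3) (nat_lit 6) (nat_lit 9) (u (nat_lit 3) (k (nat_lit 0x263400)))) (a (u (nat_lit 2) (a (v (nat_lit 8) (k (nat_lit 0x3d860fc))) (u (nat_lit 5) (k (nat_lit 0x31e819c))))) (t (nat_lit 2) (nat_lit 7) (nat_lit 8) (u (nat_lit 4) (k (nat_lit 0x131988)))))))))))) (a (a (a (v (nat_lit 1) (a (a (a (v (nat_lit 8) (u (nat_lit 9) (k (nat_lit 0x93d56)))) (u (nat_lit 8) (v (nat_lit 9) (k (nat_lit 0x139c2c))))) (a (v (nat_lit 7) (u (nat_lit 8) (k (nat_lit 0x139c2c)))) (u (nat_lit 7) (v (nat_lit 8) (k (nat_lit 0x93d56)))))) (a (a (u (nat_lit 6) (a (v (nat_lit 9) (k (nat_lit 0x9a6ec))) (v (nat_lit 7) (k (nat_lit 0x9a6ec))))) (u (nat_lit 5) (v (nat_lit 9) (k (nat_lit 0x9a6ec))))) (a (u (nat_lit 3) (v (nat_lit 6) (k (nat_lit 0x12e538)))) (u (nat_lit 2) (v (nat_lit 7) (k (nat_lit 0x9a6ec)))))))) (u (nat_lit 1) (a (a (v (nat_lit 8) (v (nat_lit 9) (k (nat_lit 0x93d56)))) (a (v (nat_lit 7) (v (nat_lit 8) (k (nat_lit 0x93d56)))) (v (nat_lit 5) (v (nat_lit 6) (k (nat_lit 0x9a6ec)))))) (a (a (t (nat_lit 5) (nat_lit 8) (nat_lit 9) (a (u (nat_lit 7) (k (nat_lit 0x2df37f8))) (u (nat_lit 5) (k (nat_lit 0x31e819c))))) (u (nat_lit 3) (a (t (nat_lit 5) (nat_lit 8) (nat_lit 9) (k (nat_lit 0x31e819c))) (u (nat_lit 4) (k (nat_lit 0x784c52a)))))) (a (v (nat_lit 2) (v (nat_lit 6) (k (nat_lit 0x9a6ec)))) (t (nat_lit 2) (nat_lit 7) (nat_lit 8) (a (u (nat_lit 9) (k (nat_lit 0x2df37f8))) (u (nat_lit 2) (k (nat_lit 0x31e819c)))))))))) (a (t (nat_lit 1) (nat_lit 3) (nat_lit 5) (t (nat_lit 2) (nat_lit 7) (nat_lit 8) (u (nat_lit 3) (k (nat_lit 0x263400))))) (t (nat_lit 1) (nat_lit 6) (nat_lit 8) (a (a (a (u (nat_lit 6) (a (u (nat_lit 9) (k (nat_lit 0x31e819c))) (a (v (nat_lit 8) (k (nat_lit 0x3d860fc))) (u (nat_lit 7) (k (nat_lit 0x31e819c)))))) (u (nat_lit 5) (u (nat_lit 7) (k (nat_lit 0x2df37f8))))) (a (t (nat_lit 5) (nat_lit 8) (nat_lit 9) (u (nat_lit 8) (k (nat_lit 0x263400)))) (a (t (nat_lit 4) (nat_lit 7) (nat_lit 9) (u (nat_lit 4) (k (nat_lit 0x263400)))) (u (nat_lit 3) (a (u (nat_lit 9) (k (nat_lit 0x31e819c))) (a (u (nat_lit 5) (k (nat_lit 0x31e819c))) (v (nat_lit 4) (k (nat_lit 0x3d860fc))))))))) (a (a (u (nat_lit 2) (u (nat_lit 9) (k (nat_lit 0x2df37f8)))) (t (nat_lit 2) (nat_lit 4) (nat_lit 5) (u (nat_lit 4) (k (nat_lit 0x263400))))) (a (t (nat_lit 2) (nat_lit 7) (nat_lit 8) (u (nat_lit 8) (k (nat_lit 0x263400)))) (a (u (nat_lit 1) (a (v (nat_lit 8) (k (nat_lit 0x3d860fc))) (a (u (nat_lit 5) (k (nat_lit 0x31e819c))) (u (nat_lit 2) (k (nat_lit 0x31e819c)))))) (t (nat_lit 1) (nat_lit 6) (nat_lit 8) (u (nat_lit 3) (k (nat_lit 0x131988))))))))))) (a (a (v (nat_lit 0) (a (u (nat_lit 4) (t (nat_lit 5) (nat_lit 8) (nat_lit 9) (k (nat_lit 0x3d860fc)))) (u (nat_lit 3) (t (nat_lit 5) (nat_lit 8) (nat_lit 9) (k (nat_lit 0x3d860fc)))))) (u (nat_lit 0) (a (a (a (u (nat_lit 4) (a (u (nat_lit 9) (k (nat_lit 0x784c52a))) (a (u (nat_lit 6) (k (nat_lit 0x784c52a))) (u (nat_lit 5) (k (nat_lit 0x784c52a)))))) (u (nat_lit 3) (a (a (u (nat_lit 9) (k (nat_lit 0x784c52a))) (u (nat_lit 7) (k (nat_lit 0x784c52a)))) (a (u (nat_lit 5) (k (nat_lit 0x784c52a))) (u (nat_lit 4) (k (nat_lit 0x8b2f00))))))) (a (v (nat_lit 2) (v (nat_lit 7) (k (nat_lit 0x12e538)))) (u (nat_lit 2) (u (nat_lit 3) (k (nat_lit 0x784c52a)))))) (a (a (t (nat_lit 2) (nat_lit 7) (nat_lit 8) (a (u (nat_lit 6) (k (nat_lit 0x31e819c))) (a (v (nat_lit 3) (k (nat_lit 0x3d860fc))) (t (nat_lit 2) (nat_lit 7) (nat_lit 8) (k (nat_lit 0x131988)))))) (v (nat_lit 1) (v (nat_lit 6) (k (nat_lit 0x12e538))))) (a (u (nat_lit 1) (a (u (nat_lit 4) (k (nat_lit 0x784c52a))) (t (nat_lit 2) (nat_lit 7) (nat_lit 8) (k (nat_lit 0x31e819c))))) (t (nat_lit 1) (nat_lit 6) (nat_lit 8) (a (a (u (nat_lit 7) (k (nat_lit 0x31e819c))) (v (nat_lit 4) (k (nat_lit 0x3d860fc)))) (a (u (nat_lit 2) (k (nat_lit 0x31e819c))) (t (nat_lit 1) (nat_lit 6) (nat_lit 8) (k (nat_lit 0x131988))))))))))) (a (t (nat_lit 0) (nat_lit 1) (nat_lit 2) (u (nat_lit 0) (t (nat_lit 5) (nat_lit 8) (nat_lit 9) (k (nat_lit 0x263400))))) (t (nat_lit 0) (nat_lit 3) (nat_lit 4) (a (t (nat_lit 5) (nat_lit 8) (nat_lit 9) (a (u (nat_lit 9) (k (nat_lit 0x131988))) (u (nat_lit 5) (k (nat_lit 0x131988))))) (a (t (nat_lit 2) (nat_lit 7) (nat_lit 8) (a (u (nat_lit 7) (k (nat_lit 0x131988))) (u (nat_lit 2) (k (nat_lit 0x131988))))) (t (nat_lit 1) (nat_lit 6) (nat_lit 8) (a (u (nat_lit 6) (k (nat_lit 0x131988))) (u (nat_lit 1) (k (nat_lit 0x131988))))))))))))) (t (nat_lit 0) (nat_lit 6) (nat_lit 7) (a (a (a (a (u (nat_lit 7) (v (nat_lit 8) (v (nat_lit 9) (k (nat_lit 0x12e538))))) (u (nat_lit 6) (v (nat_lit 8) (v (nat_lit 9) (k (nat_lit 0x12e538)))))) (a (t (nat_lit 5) (nat_lit 8) (nat_lit 9) (a (v (nat_lit 5) (a (u (nat_lit 9) (k (nat_lit 0x3d860fc))) (u (nat_lit 8) (k (nat_lit 0x3d860fc))))) (t (nat_lit 5) (nat_lit 8) (nat_lit 9) (a (u (nat_lit 7) (k (nat_lit 0x131988))) (u (nat_lit 6) (k (nat_lit 0x131988))))))) (v (nat_lit 4) (a (v (nat_lit 8) (u (nat_lit 9) (k (nat_lit 0x9a6ec)))) (a (v (nat_lit 5) (u (nat_lit 8) (k (nat_lit 0x93d56)))) (u (nat_lit 5) (v (nat_lit 8) (k (nat_lit 0x139c2c))))))))) (a (a (u (nat_lit 4) (a (u (nat_lit 6) (u (nat_lit 7) (k (nat_lit 0x784c52a)))) (a (v (nat_lit 5) (v (nat_lit 8) (k (nat_lit 0x93d56)))) (t (nat_lit 5) (nat_lit 8) (nat_lit 9) (a (u (nat_lit 9) (k (nat_lit 0x31e819c))) (u (nat_lit 7) (k (nat_lit 0x31e819c)))))))) (v (nat_lit 3) (a (v (nat_lit 8) (u (nat_lit 9) (k (nat_lit 0x9a6ec)))) (a (v (nat_lit 5) (u (nat_lit 8) (k (nat_lit 0x93d56)))) (u (nat_lit 5) (v (nat_lit 8) (k (nat_lit 0x139c2c)))))))) (a (u (nat_lit 3) (a (u (nat_lit 6) (u (nat_lit 7) (k (nat_lit 0x784c52a)))) (a (v (nat_lit 5) (v (nat_lit 8) (k (nat_lit 0x93d56)))) (t (nat_lit 5) (nat_lit 8) (nat_lit 9) (a (u (nat_lit 9) (k (nat_lit 0x31e819c))) (u (nat_lit 6) (k (nat_lit 0x31e819c)))))))) (a (v (nat_lit 2) (a (a (u (nat_lit 8) (v (nat_lit 9) (k (nat_lit 0x9a6ec)))) (a (v (nat_lit 5) (u (nat_lit 9) (k (nat_lit 0x93d56)))) (u (nat_lit 5) (v (nat_lit 9) (k (nat_lit 0x139c2c)))))) (a (a (v (nat_lit 4) (u (nat_lit 7) (k (nat_lit 0x12e538)))) (u (nat_lit 4) (v (nat_lit 9) (k (nat_lit 0x9a6ec))))) (a (v (nat_lit 3) (a (u (nat_lit 5) (k (nat_lit 0x139c2c))) (u (nat_lit 4) (k (nat_lit 0x9a6ec))))) (u (nat_lit 3) (v (nat_lit 5) (k (nat_lit 0x93d56)))))))) (u (nat_lit 2) (a (a (u (nat_lit 6) (u (nat_lit 7) (k (nat_lit 0x784c52a)))) (a (v (nat_lit 5) (v (nat_lit 9) (k (nat_lit 0x93d56)))) (t (nat_lit 5) (nat_lit 8) (nat_lit 9) (a (u (nat_lit 8) (k (nat_lit 0x31e819c))) (u (nat_lit 7) (k (nat_lit 0x31e819c))))))) (a (v (nat_lit 4) (v (nat_lit 8) (k (nat_lit 0x9a6ec)))) (a (v (nat_lit 3) (v (nat_lit 5) (k (nat_lit 0x93d56)))) (u (nat_lit 3) (t (nat_lit 5) (nat_lit 8) (nat_lit 9) (k (nat_lit 0x2df37f8)))))))))))) (a (a (a (t (nat_lit 2) (nat_lit 4) (nat_lit 5) (a (a (a (u (nat_lit 7) (a (u (nat_lit 9) (k (nat_lit 0x31e819c))) (u (nat_lit 8) (k (nat_lit 0x31e819c))))) (v (nat_lit 6) (u (nat_lit 7) (k (nat_lit 0x3d860fc))))) (a (t (nat_lit 5) (nat_lit 8) (nat_lit 9) (u (nat_lit 5) (k (nat_lit 0x263400)))) (u (nat_lit 4) (a (u (nat_lit 9) (k (nat_lit 0x31e819c))) (v (nat_lit 5) (k (nat_lit 0x3d860fc))))))) (a (a (u (nat_lit 3) (a (u (nat_lit 8) (k (nat_lit 0x2df37f8))) (u (nat_lit 4) (k (nat_lit 0x31e819c))))) (t (nat_lit 3) (nat_lit 6) (nat_lit 9) (u (nat_lit 6) (k (nat_lit 0x263400))))) (a (u (nat_lit 2) (a (u (nat_lit 8) (k (nat_lit 0x31e819c))) (v (nat_lit 5) (k (nat_lit 0x3d860fc))))) (t (nat_lit 2) (nat_lit 4) (nat_lit 5) (u (nat_lit 7) (k (nat_lit 0x131988)))))))) (v (nat_lit 1) (a (a (a (u (nat_lit 8) (v (nat_lit 9) (k (nat_lit 0x9a6ec)))) (v (nat_lit 5) (u (nat_lit 9) (k (nat_lit 0x93d56))))) (a (u (nat_lit 5) (v (nat_lit 9) (k (nat_lit 0x139c2c)))) (v (nat_lit 4) (u (nat_lit 5) (k (nat_lit 0x139c2c)))))) (a (a (u (nat_lit 4) (v (nat_lit 5) (k (nat_lit 0x93d56)))) (v (nat_lit 3) (u (nat_lit 6) (k (nat_lit 0x12e538))))) (a (u (nat_lit 3) (a (v (nat_lit 9) (k (nat_lit 0x9a6ec))) (v (nat_lit 4) (k (nat_lit 0x9a6ec))))) (u (nat_lit 2) (v (nat_lit 4) (k (nat_lit 0x9a6ec))))))))) (a (u (nat_lit 1) (a (a (a (u (nat_lit 6) (u (nat_lit 7) (k (nat_lit 0x784c52a)))) (v (nat_lit 5) (v (nat_lit 9) (k (nat_lit 0x93d56))))) (a (t (nat_lit 5) (nat_lit 8) (nat_lit 9) (a (u (nat_lit 8) (k (nat_lit 0x31e819c))) (u (nat_lit 6) (k (nat_lit 0x31e819c))))) (v (nat_lit 4) (v (nat_lit 5) (k (nat_lit 0x93d56)))))) (a (a (u (nat_lit 4) (t (nat_lit 5) (nat_lit 8) (nat_lit 9) (k (nat_lit 0x2df37f8)))) (v (nat_lit 3) (v (nat_lit 8) (k (nat_lit 0x9a6ec))))) (a (v (nat_lit 2) (v (nat_lit 3) (k (nat_lit 0x9a6ec)))) (t (nat_lit 2) (nat_lit 4) (nat_lit 5) (a (u (nat_lit 9) (k (nat_lit 0x2df37f8))) (u (nat_lit 2) (k (nat_lit 0x31e819c))))))))) (a (t (nat_lit 1) (nat_lit 3) (nat_lit 5) (a (a (a (u (nat_lit 6) (a (u (nat_lit 9) (k (nat_lit 0x31e819c))) (a (u (nat_lit 8) (k (nat_lit 0x31e819c))) (v (nat_lit 7) (k (nat_lit 0x3d860fc)))))) (t (nat_lit 5) (nat_lit 8) (nat_lit 9) (u (nat_lit 5) (k (nat_lit 0x263400))))) (a (u (nat_lit 4) (u (nat_lit 8) (k (nat_lit 0x2df37f8)))) (a (t (nat_lit 4) (nat_lit 7) (nat_lit 9) (u (nat_lit 7) (k (nat_lit 0x263400)))) (u (nat_lit 3) (a (u (nat_lit 9) (k (nat_lit 0x31e819c))) (a (v (nat_lit 5) (k (nat_lit 0x3d860fc))) (u (nat_lit 4) (k (nat_lit 0x31e819c))))))))) (a (a (u (nat_lit 2) (u (nat_lit 9) (k (nat_lit 0x2df37f8)))) (t (nat_lit 2) (nat_lit 4) (nat_lit 5) (u (nat_lit 5) (k (nat_lit 0x263400))))) (a (t (nat_lit 2) (nat_lit 7) (nat_lit 8) (u (nat_lit 7) (k (nat_lit 0x263400)))) (a (u (nat_lit 1) (a (u (nat_lit 8) (k (nat_lit 0x31e819c))) (a (v (nat_lit 5) (k (nat_lit 0x3d860fc))) (u (nat_lit 2) (k (nat_lit 0x31e819c)))))) (t (nat_lit 1) (nat_lit 3) (nat_lit 5) (u (nat_lit 6) (k (nat_lit 0x131988))))))))) (t (nat_lit 1) (nat_lit 6) (nat_lit 8) (t (nat_lit 2) (nat_lit 4) (nat_lit 5) (u (nat_lit 6) (k (nat_lit 0x263400)))))))) (a (a (v (nat_lit 0) (t (nat_lit 5) (nat_lit 8) (nat_lit 9) (a (u (nat_lit 7) (k (nat_lit 0x3d860fc))) (u (nat_lit 6) (k (nat_lit 0x3d860fc)))))) (u (nat_lit 0) (a (a (a (u (nat_lit 7) (a (u (nat_lit 9) (k (nat_lit 0x784c52a))) (u (nat_lit 8) (k (nat_lit 0x784c52a))))) (u (nat_lit 6) (a (u (nat_lit 9) (k (nat_lit 0x784c52a))) (a (u (nat_lit 8) (k (nat_lit 0x784c52a))) (u (nat_lit 7) (k (nat_lit 0x8b2f00))))))) (a (u (nat_lit 4) (u (nat_lit 6) (k (nat_lit 0x784c52a)))) (a (u (nat_lit 3) (u (nat_lit 7) (k (nat_lit 0x784c52a)))) (v (nat_lit 2) (v (nat_lit 4) (k (nat_lit 0x12e538))))))) (a (a (u (nat_lit 2) (u (nat_lit 6) (k (nat_lit 0x784c52a)))) (t (nat_lit 2) (nat_lit 4) (nat_lit 5) (a (v (nat_lit 6) (k (nat_lit 0x3d860fc))) (a (u (nat_lit 3) (k (nat_lit 0x31e819c))) (t (nat_lit 2) (nat_lit 4) (nat_lit 5) (k (nat_lit 0x131988))))))) (a (v (nat_lit 1) (v (nat_lit 3) (k (nat_lit 0x12e538)))) (a (u (nat_lit 1) (a (u (nat_lit 7) (k (nat_lit 0x784c52a))) (t (nat_lit 2) (nat_lit 4) (nat_lit 5) (k (nat_lit 0x31e819c))))) (t (nat_lit 1) (nat_lit 3) (nat_lit 5) (a (a (v (nat_lit 7) (k (nat_lit 0x3d860fc))) (u (nat_lit 4) (k (nat_lit 0x31e819c)))) (a (u (nat_lit 2) (k (nat_lit 0x31e819c))) (t (nat_lit 1) (nat_lit 3) (nat_lit 5) (k (nat_lit 0x131988)))))))))))) (a (t (nat_lit 0) (nat_lit 1) (nat_lit 2) (u (nat_lit 0) (t (nat_lit 5) (nat_lit 8) (nat_lit 9) (k (nat_lit 0x263400))))) (a (t (nat_lit 0) (nat_lit 3) (nat_lit 4) (u (nat_lit 0) (t (nat_lit 5) (nat_lit 8) (nat_lit 9) (k (nat_lit 0x263400))))) (t (nat_lit 0) (nat_lit 6) (nat_lit 7) (a (t (nat_lit 5) (nat_lit 8) (nat_lit 9) (a (u (nat_lit 9) (k (nat_lit 0x131988))) (u (nat_lit 8) (k (nat_lit 0x131988))))) (a (t (nat_lit 2) (nat_lit 4) (nat_lit 5) (a (u (nat_lit 4) (k (nat_lit 0x131988))) (u (nat_lit 2) (k (nat_lit 0x131988))))) (t (nat_lit 1) (nat_lit 3) (nat_lit 5) (a (u (nat_lit 3) (k (nat_lit 0x131988))) (u (nat_lit 1) (k (nat_lit 0x131988)))))))))))))))))))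

open Fl.Tr in
/-- the table -/
noncomputable def T : Fl.Tr := (c (c (c (c (c (c (c (c (c (c (m (nat_lit 0x1c3b4f590)) (c (p (nat_lit 0xcfd21a88)) (c (m (nat_lit 0xaa67d698)) (c (p (nat_lit 0x1b0)) (c (p (nat_lit 0x48)) e))))) (c (c (p (nat_lit 0xcfd21a88)) (c (m (nat_lit 0x4a4efa00)) (c (p (nat_lit 0x23e63890)) (c (m (nat_lit 0x131910)) e)))) (c (c (m (nat_lit 0xaa67d698)) (c (p (nat_lit 0x23e63890)) (c (m (nat_lit 0x729888)) e))) (c (c (p (nat_lit 0x1b0)) (c (m (nat_lit 0x131910)) e)) (c (c (p (nat_lit 0x48)) e) e))))) (c (c (c (p (nat_lit 0xcfd21a88)) (c (m (nat_lit 0x4a4efa00)) (c (p (nat_lit 0x23e63890)) (c (m (nat_lit 0x131910)) e)))) (c (c (m (nat_lit 0x4a4efa00)) (c (m (nat_lit 0x77433c0)) (c (m (nat_lit 0x729948)) e))) (c (c (p (nat_lit 0x23e63890)) (c (m (nat_lit 0x729948)) e)) (c (c (m (nat_lit 0x131910)) e) e)))) (c (c (c (m (nat_lit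 0xaa67d698)) (c (p (nat_lit 0x23e63890)) (c (m (nat_lit 0x729888)) e))) (c (c (p (nat_lit 0x23e63890)) (c (m (nat_lit 0x729948)) e)) (c (c (m (nat_lit 0x729888)) e) e))) (c (c (c (p (nat_lit 0x1b0)) (c (m (nat_lit 0x131910)) e)) (c (c (m (nat_lit 0x131910)) e) e)) (c (c (c (p (nat_lit 0x48)) e) e) e))))) (c (c (c (c (p (nat_lit 0xcfd21a88)) (c (m (nat_lit 0x4a4efa00)) (c (p (nat_lit 0x23e63890)) (c (m (nat_lit 0x131910)) e)))) (c (c (m (nat_lit 0x4a4efa00)) (c (m (nat_lit 0x77433c0)) (c (m (nat_lit 0x729948)) e))) (c (c (p (nat_lit 0x23e63890)) (c (m (nat_lit 0x729948)) e)) (c (c (m (nat_lit 0x131910)) e) e)))) (c (c (c (m (nat_lit 0x4a4efa00)) (c (m (nat_lit 0x77433c0)) (c (m (nat_lit 0x729948)) e))) (c (c (m (nat_lit 0x77433c0)) (c (m (nat_lit 0x2ad2360)) e)) (c (c (m (nat_lit 0x729948)) e) e))) (c (c (c (p (nat_lit 0x23e63890)) (c (m (nat_lit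 0x729948)) e)) (c (c (m (nat_lit 0x729948)) e) e)) (c (c (c (m (nat_lit 0x131910)) e) e) e)))) (c (c (c (c (m (nat_lit 0xaa67d698)) (c (p (nat_lit 0x23e63890)) (c (m (nat_lit 0x729888)) e))) (c (c (p (nat_lit 0x23e63890)) (c (m (nat_lit 0x729948)) e)) (c (c (m (nat_lit 0x729888)) e) e))) (c (c (c (p (nat_lit 0x23e63890)) (c (m (nat_lit 0x729948)) e)) (c (c (m (nat_lit 0x729948)) e) e)) (c (c (c (m (nat_lit 0x729888)) e) e) e))) (c (c (c (c (p (nat_lit 0x1b0)) (c (m (nat_lit 0x131910)) e)) (c (c (m (nat_lit 0x131910)) e) e)) (c (c (c (m (nat_lit 0x131910)) e) e) e)) (c (c (c (c (p (nat_lit 0x48)) e) e) e) e))))) (c (c (c (c (c (p (nat_lit 0xcfd21a88)) (c (m (nat_lit 0x4a4efa00)) (c (p (nat_lit 0x23e63890)) (c (m (nat_lit 0x131910)) e)))) (c (c (m (nat_lit 0x4a4efa00)) (c (p (nat_lit 0x1760d348)) (c (p (nat_lit 0xbc8a418)) e))) (c (c (p (nat_lit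 0x23e63890)) (c (p (nat_lit 0xbc8a418)) e)) (c (c (m (nat_lit 0x131910)) e) e)))) (c (c (c (p (nat_lit 0x5111baa0)) (c (p (nat_lit 0x7a23aa0)) (c (m (nat_lit 0x10a37b28)) e))) (c (c (p (nat_lit 0x7a23aa0)) (c (m (nat_lit 0xa8cacc8)) e)) (c (c (m (nat_lit 0x10a37b28)) e) e))) (c (c (c (p (nat_lit 0x2b5ad910)) (c (m (nat_lit 0x8cde5c8)) e)) (c (c (m (nat_lit 0x8cde5c8)) e) e)) (c (c (c (m (nat_lit 0x98c520)) e) e) e)))) (c (c (c (c (p (nat_lit 0x5111baa0)) (c (p (nat_lit 0x7a23aa0)) (c (m (nat_lit 0x10a37b28)) e))) (c (c (p (nat_lit 0x7a23aa0)) (c (m (nat_lit 0xa8cacc8)) e)) (c (c (m (nat_lit 0x10a37b28)) e) e))) (c (c (c (m (nat_lit 0x3f1b1b00)) (c (p (nat_lit 0x11d1d568)) e)) (c (c (p (nat_lit 0x11d1d568)) e) e)) (c (c (c (m (nat_lit 0x7fd2488)) e) e) e))) (c (c (c (c (p (nat_lit 0x2b5ad910)) (c (m (nat_lit 0x8cde5c8)) e)) (c (c (m (nat_lit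 0x8cde5c8)) e) e)) (c (c (c (m (nat_lit 0x7fd2488)) e) e) e)) (c (c (c (c (m (nat_lit 0x98c520)) e) e) e) e)))) (c (c (c (c (c (m (nat_lit 0xaa67d698)) (c (p (nat_lit 0x23e63890)) (c (m (nat_lit 0x729888)) e))) (c (c (p (nat_lit 0x23e63890)) (c (p (nat_lit 0xbc8a418)) e)) (c (c (m (nat_lit 0x729888)) e) e))) (c (c (c (p (nat_lit 0x2b5ad910)) (c (m (nat_lit 0x8cde5c8)) e)) (c (c (m (nat_lit 0x8cde5c8)) e) e)) (c (c (c (m (nat_lit 0x98ca60)) e) e) e))) (c (c (c (c (p (nat_lit 0x2b5ad910)) (c (m (nat_lit 0x8cde5c8)) e)) (c (c (m (nat_lit 0x8cde5c8)) e) e)) (c (c (c (m (nat_lit 0x728f88)) e) e) e)) (c (c (c (c (m (nat_lit 0x98ca60)) e) e) e) e))) (c (c (c (c (c (p (nat_lit 0x1b0)) (c (m (nat_lit 0x131910)) e)) (c (c (m (nat_lit 0x131910)) e) e)) (c (c (c (m (nat_lit 0x98c520)) e) e) e)) (c (c (c (c (m (nat_lit 0x98c520)) e) e) e) e)) (c (c (c (c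 (c (p (nat_lit 0x48)) e) e) e) e) e))))) (c (c (c (c (c (c (p (nat_lit 0xcfd21a88)) (c (m (nat_lit 0x4a4efa00)) (c (p (nat_lit 0x23e63890)) (c (m (nat_lit 0x131910)) e)))) (c (c (p (nat_lit 0x5111baa0)) (c (p (nat_lit 0x7a23aa0)) (c (m (nat_lit 0x10a37b28)) e))) (c (c (p (nat_lit 0x2b5ad910)) (c (m (nat_lit 0x8cde5c8)) e)) (c (c (m (nat_lit 0x98c520)) e) e)))) (c (c (c (m (nat_lit 0x4a4efa00)) (c (p (nat_lit 0x1760d348)) (c (p (nat_lit 0xbc8a418)) e))) (c (c (p (nat_lit 0x7a23aa0)) (c (m (nat_lit 0xa8cacc8)) e)) (c (c (m (nat_lit 0x8cde5c8)) e) e))) (c (c (c (p (nat_lit 0x23e63890)) (c (p (nat_lit 0xbc8a418)) e)) (c (c (m (nat_lit 0x10a37b28)) e) e)) (c (c (c (m (nat_lit 0x131910)) e) e) e)))) (c (c (c (c (p (nat_lit 0x5111baa0)) (c (p (nat_lit 0x7a23aa0)) (c (m (nat_lit 0x10a37b28)) e))) (c (c (m (nat_lit 0x3f1b1b00)) (c (p (nat_lit 0x11d1d568))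 e)) (c (c (m (nat_lit 0x7fd2488)) e) e))) (c (c (c (p (nat_lit 0x7a23aa0)) (c (m (nat_lit 0xa8cacc8)) e)) (c (c (p (nat_lit 0x11d1d568)) e) e)) (c (c (c (m (nat_lit 0x10a37b28)) e) e) e))) (c (c (c (c (p (nat_lit 0x2b5ad910)) (c (m (nat_lit 0x8cde5c8)) e)) (c (c (m (nat_lit 0x7fd2488)) e) e)) (c (c (c (m (nat_lit 0x8cde5c8)) e) e) e)) (c (c (c (c (m (nat_lit 0x98c520)) e) e) e) e)))) (c (c (c (c (c (m (nat_lit 0x4a4efa00)) (c (m (nat_lit 0x77433c0)) (c (m (nat_lit 0x729948)) e))) (c (c (p (nat_lit 0x7a23aa0)) (c (m (nat_lit 0xa8cacc8)) e)) (c (c (m (nat_lit 0x8cde5c8)) e) e))) (c (c (c (p (nat_lit 0x7a23aa0)) (c (m (nat_lit 0xa8cacc8)) e)) (c (c (p (nat_lit 0x4408a40)) e) e)) (c (c (c (m (nat_lit 0x8cde5c8)) e) e) e))) (c (c (c (c (m (nat_lit 0x3f1b1b00)) (c (p (nat_lit 0x11d1d568)) e)) (c (c (p (nat_lit 0xde26178)) e) e)) (c (c (c (p (nat_lit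 0xde26178)) e) e) e)) (c (c (c (c (m (nat_lit 0x728f88)) e) e) e) e))) (c (c (c (c (c (p (nat_lit 0x23e63890)) (c (m (nat_lit 0x729948)) e)) (c (c (m (nat_lit 0x10a37b28)) e) e)) (c (c (c (m (nat_lit 0x8cde5c8)) e) e) e)) (c (c (c (c (m (nat_lit 0x7fd2488)) e) e) e) e)) (c (c (c (c (c (m (nat_lit 0x131910)) e) e) e) e) e)))) (c (c (c (c (c (c (m (nat_lit 0xaa67d698)) (c (p (nat_lit 0x23e63890)) (c (m (nat_lit 0x729888)) e))) (c (c (p (nat_lit 0x2b5ad910)) (c (m (nat_lit 0x8cde5c8)) e)) (c (c (m (nat_lit 0x98ca60)) e) e))) (c (c (c (p (nat_lit 0x23e63890)) (c (p (nat_lit 0xbc8a418)) e)) (c (c (m (nat_lit 0x8cde5c8)) e) e)) (c (c (c (m (nat_lit 0x729888)) e) e) e))) (c (c (c (c (p (nat_lit 0x2b5ad910)) (c (m (nat_lit 0x8cde5c8)) e)) (c (c (m (nat_lit 0x728f88)) e) e)) (c (c (c (m (nat_lit 0x8cde5c8)) e) e) e)) (c (c (c (c (m (nat_lit 0x98ca60))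 e) e) e) e))) (c (c (c (c (c (p (nat_lit 0x23e63890)) (c (m (nat_lit 0x729948)) e)) (c (c (m (nat_lit 0x8cde5c8)) e) e)) (c (c (c (m (nat_lit 0x10a37b28)) e) e) e)) (c (c (c (c (m (nat_lit 0x7fd2488)) e) e) e) e)) (c (c (c (c (c (m (nat_lit 0x729888)) e) e) e) e) e))) (c (c (c (c (c (c (p (nat_lit 0x1b0)) (c (m (nat_lit 0x131910)) e)) (c (c (m (nat_lit 0x98c520)) e) e)) (c (c (c (m (nat_lit 0x131910)) e) e) e)) (c (c (c (c (m (nat_lit 0x98c520)) e) e) e) e)) (c (c (c (c (c (m (nat_lit 0x131910)) e) e) e) e) e)) (c (c (c (c (c (c (p (nat_lit 0x48)) e) e) e) e) e) e))))) (c (c (c (c (c (c (c (p (nat_lit 0xcfd21a88)) (c (m (nat_lit 0x4a4efa00)) (c (p (nat_lit 0x23e63890)) (c (m (nat_lit 0x131910)) e)))) (c (c (p (nat_lit 0x5111baa0)) (c (p (nat_lit 0x7a23aa0)) (c (m (nat_lit 0x10a37b28)) e))) (c (c (p (nat_lit 0x2b5ad910)) (c (m (nat_lit 0x8cde5c8))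 e)) (c (c (m (nat_lit 0x98c520)) e) e)))) (c (c (c (p (nat_lit 0x5111baa0)) (c (p (nat_lit 0x7a23aa0)) (c (m (nat_lit 0x10a37b28)) e))) (c (c (m (nat_lit 0x3f1b1b00)) (c (p (nat_lit 0x11d1d568)) e)) (c (c (m (nat_lit 0x7fd2488)) e) e))) (c (c (c (p (nat_lit 0x2b5ad910)) (c (m (nat_lit 0x8cde5c8)) e)) (c (c (m (nat_lit 0x7fd2488)) e) e)) (c (c (c (m (nat_lit 0x98c520)) e) e) e)))) (c (c (c (c (m (nat_lit 0x4a4efa00)) (c (p (nat_lit 0x1760d348)) (c (p (nat_lit 0xbc8a418)) e))) (c (c (p (nat_lit 0x7a23aa0)) (c (m (nat_lit 0xa8cacc8)) e)) (c (c (m (nat_lit 0x8cde5c8)) e) e))) (c (c (c (p (nat_lit 0x7a23aa0)) (c (m (nat_lit 0xa8cacc8)) e)) (c (c (p (nat_lit 0x11d1d568)) e) e)) (c (c (c (m (nat_lit 0x8cde5c8)) e) e) e))) (c (c (c (c (p (nat_lit 0x23e63890)) (c (p (nat_lit 0xbc8a418)) e)) (c (c (m (nat_lit 0x10a37b28)) e) e)) (c (c (c (m (nat_lit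 0x10a37b28)) e) e) e)) (c (c (c (c (m (nat_lit 0x131910)) e) e) e) e)))) (c (c (c (c (c (m (nat_lit 0x4a4efa00)) (c (m (nat_lit 0x77433c0)) (c (m (nat_lit 0x729948)) e))) (c (c (p (nat_lit 0x7a23aa0)) (c (m (nat_lit 0xa8cacc8)) e)) (c (c (m (nat_lit 0x8cde5c8)) e) e))) (c (c (c (m (nat_lit 0x3f1b1b00)) (c (p (nat_lit 0x11d1d568)) e)) (c (c (p (nat_lit 0xde26178)) e) e)) (c (c (c (m (nat_lit 0x728f88)) e) e) e))) (c (c (c (c (p (nat_lit 0x7a23aa0)) (c (m (nat_lit 0xa8cacc8)) e)) (c (c (p (nat_lit 0x4408a40)) e) e)) (c (c (c (p (nat_lit 0xde26178)) e) e) e)) (c (c (c (c (m (nat_lit 0x8cde5c8)) e) e) e) e))) (c (c (c (c (c (p (nat_lit 0x23e63890)) (c (m (nat_lit 0x729948)) e)) (c (c (m (nat_lit 0x10a37b28)) e) e)) (c (c (c (m (nat_lit 0x7fd2488)) e) e) e)) (c (c (c (c (m (nat_lit 0x8cde5c8)) e) e) e) e)) (c (c (c (c (c (m (nat_lit 0x131910)) e)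 e) e) e) e)))) (c (c (c (c (c (c (m (nat_lit 0x4a4efa00)) (c (m (nat_lit 0x77433c0)) (c (m (nat_lit 0x729948)) e))) (c (c (m (nat_lit 0x3f1b1b00)) (c (p (nat_lit 0x11d1d568)) e)) (c (c (m (nat_lit 0x728f88)) e) e))) (c (c (c (p (nat_lit 0x7a23aa0)) (c (m (nat_lit 0xa8cacc8)) e)) (c (c (p (nat_lit 0xde26178)) e) e)) (c (c (c (m (nat_lit 0x8cde5c8)) e) e) e))) (c (c (c (c (p (nat_lit 0x7a23aa0)) (c (m (nat_lit 0xa8cacc8)) e)) (c (c (p (nat_lit 0xde26178)) e) e)) (c (c (c (p (nat_lit 0x4408a40)) e) e) e)) (c (c (c (c (m (nat_lit 0x8cde5c8)) e) e) e) e))) (c (c (c (c (c (m (nat_lit 0x77433c0)) (c (m (nat_lit 0x2ad2360)) e)) (c (c (p (nat_lit 0x11d1d568)) e) e)) (c (c (c (p (nat_lit 0x11d1d568)) e) e) e)) (c (c (c (c (p (nat_lit 0x11d1d568)) e) e) e) e)) (c (c (c (c (c (m (nat_lit 0x729948)) e) e) e) e) e))) (c (c (c (c (c (c (p (nat_lit 0x23e63890))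 (c (m (nat_lit 0x729948)) e)) (c (c (m (nat_lit 0x7fd2488)) e) e)) (c (c (c (m (nat_lit 0x10a37b28)) e) e) e)) (c (c (c (c (m (nat_lit 0x8cde5c8)) e) e) e) e)) (c (c (c (c (c (m (nat_lit 0x729948)) e) e) e) e) e)) (c (c (c (c (c (c (m (nat_lit 0x131910)) e) e) e) e) e) e)))) (c (c (c (c (c (c (c (m (nat_lit 0xaa67d698)) (c (p (nat_lit 0x23e63890)) (c (m (nat_lit 0x729888)) e))) (c (c (p (nat_lit 0x2b5ad910)) (c (m (nat_lit 0x8cde5c8)) e)) (c (c (m (nat_lit 0x98ca60)) e) e))) (c (c (c (p (nat_lit 0x2b5ad910)) (c (m (nat_lit 0x8cde5c8)) e)) (c (c (m (nat_lit 0x728f88)) e) e)) (c (c (c (m (nat_lit 0x98ca60)) e) e) e))) (c (c (c (c (p (nat_lit 0x23e63890)) (c (p (nat_lit 0xbc8a418)) e)) (c (c (m (nat_lit 0x8cde5c8)) e) e)) (c (c (c (m (nat_lit 0x8cde5c8)) e) e) e)) (c (c (c (c (m (nat_lit 0x729888)) e) e) e) e))) (c (c (c (c (c (p (nat_lit 0x23e63890))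 (c (m (nat_lit 0x729948)) e)) (c (c (m (nat_lit 0x8cde5c8)) e) e)) (c (c (c (m (nat_lit 0x7fd2488)) e) e) e)) (c (c (c (c (m (nat_lit 0x10a37b28)) e) e) e) e)) (c (c (c (c (c (m (nat_lit 0x729888)) e) e) e) e) e))) (c (c (c (c (c (c (p (nat_lit 0x23e63890)) (c (m (nat_lit 0x729948)) e)) (c (c (m (nat_lit 0x7fd2488)) e) e)) (c (c (c (m (nat_lit 0x8cde5c8)) e) e) e)) (c (c (c (c (m (nat_lit 0x10a37b28)) e) e) e) e)) (c (c (c (c (c (m (nat_lit 0x729948)) e) e) e) e) e)) (c (c (c (c (c (c (m (nat_lit 0x729888)) e) e) e) e) e) e))) (c (c (c (c (c (c (c (p (nat_lit 0x1b0)) (c (m (nat_lit 0x131910)) e)) (c (c (m (nat_lit 0x98c520)) e) e)) (c (c (c (m (nat_lit 0x98c520)) e) e) e)) (c (c (c (c (m (nat_lit 0x131910)) e) e) e) e)) (c (c (c (c (c (m (nat_lit 0x131910)) e) e) e) e) e)) (c (c (c (c (c (c (m (nat_lit 0x131910)) e) e) e) e) e) e)) (c (c (c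 (c (c (c (c (p (nat_lit 0x48)) e) e) e) e) e) e) e))))) (c (c (c (c (c (c (c (c (p (nat_lit 0xcfd21a88)) (c (p (nat_lit 0x5111baa0)) (c (p (nat_lit 0x2b5ad910)) (c (m (nat_lit 0x98c520)) e)))) (c (c (m (nat_lit 0x4a4efa00)) (c (p (nat_lit 0x7a23aa0)) (c (m (nat_lit 0x8cde5c8)) e))) (c (c (p (nat_lit 0x23e63890)) (c (m (nat_lit 0x10a37b28)) e)) (c (c (m (nat_lit 0x131910)) e) e)))) (c (c (c (m (nat_lit 0x4a4efa00)) (c (p (nat_lit 0x7a23aa0)) (c (m (nat_lit 0x8cde5c8)) e))) (c (c (p (nat_lit 0x1760d348)) (c (m (nat_lit 0xa8cacc8)) e)) (c (c (p (nat_lit 0xbc8a418)) e) e))) (c (c (c (p (nat_lit 0x23e63890)) (c (m (nat_lit 0x10a37b28)) e)) (c (c (p (nat_lit 0xbc8a418)) e) e)) (c (c (c (m (nat_lit 0x131910)) e) e) e)))) (c (c (c (c (p (nat_lit 0x5111baa0)) (c (m (nat_lit 0x3f1b1b00)) (c (m (nat_lit 0x7fd2488)) e))) (c (c (p (nat_lit 0x7a23aa0)) (c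 (p (nat_lit 0x11d1d568)) e)) (c (c (m (nat_lit 0x10a37b28)) e) e))) (c (c (c (p (nat_lit 0x7a23aa0)) (c (p (nat_lit 0x11d1d568)) e)) (c (c (m (nat_lit 0xa8cacc8)) e) e)) (c (c (c (m (nat_lit 0x10a37b28)) e) e) e))) (c (c (c (c (p (nat_lit 0x2b5ad910)) (c (m (nat_lit 0x7fd2488)) e)) (c (c (m (nat_lit 0x8cde5c8)) e) e)) (c (c (c (m (nat_lit 0x8cde5c8)) e) e) e)) (c (c (c (c (m (nat_lit 0x98c520)) e) e) e) e)))) (c (c (c (c (c (m (nat_lit 0x4a4efa00)) (c (p (nat_lit 0x7a23aa0)) (c (m (nat_lit 0x8cde5c8)) e))) (c (c (m (nat_lit 0x77433c0)) (c (m (nat_lit 0xa8cacc8)) e)) (c (c (m (nat_lit 0x729948)) e) e))) (c (c (c (p (nat_lit 0x7a23aa0)) (c (p (nat_lit 0x4408a40)) e)) (c (c (m (nat_lit 0xa8cacc8)) e) e)) (c (c (c (m (nat_lit 0x8cde5c8)) e) e) e))) (c (c (c (c (m (nat_lit 0x3f1b1b00)) (c (p (nat_lit 0xde26178)) e)) (c (c (p (nat_lit 0x11d1d568))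 e) e)) (c (c (c (p (nat_lit 0xde26178)) e) e) e)) (c (c (c (c (m (nat_lit 0x728f88)) e) e) e) e))) (c (c (c (c (c (p (nat_lit 0x23e63890)) (c (m (nat_lit 0x10a37b28)) e)) (c (c (m (nat_lit 0x729948)) e) e)) (c (c (c (m (nat_lit 0x8cde5c8)) e) e) e)) (c (c (c (c (m (nat_lit 0x7fd2488)) e) e) e) e)) (c (c (c (c (c (m (nat_lit 0x131910)) e) e) e) e) e)))) (c (c (c (c (c (c (m (nat_lit 0x4a4efa00)) (c (p (nat_lit 0x7a23aa0)) (c (m (nat_lit 0x8cde5c8)) e))) (c (c (p (nat_lit 0x7a23aa0)) (c (p (nat_lit 0x4408a40)) e)) (c (c (m (nat_lit 0x8cde5c8)) e) e))) (c (c (c (m (nat_lit 0x77433c0)) (c (m (nat_lit 0xa8cacc8)) e)) (c (c (m (nat_lit 0xa8cacc8)) e) e)) (c (c (c (m (nat_lit 0x729948)) e) e) e))) (c (c (c (c (m (nat_lit 0x3f1b1b00)) (c (p (nat_lit 0xde26178)) e)) (c (c (p (nat_lit 0xde26178)) e) e)) (c (c (c (p (nat_lit 0x11d1d568)) e) e) e)) (c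 (c (c (c (m (nat_lit 0x728f88)) e) e) e) e))) (c (c (c (c (c (p (nat_lit 0x1760d348)) (c (m (nat_lit 0xa8cacc8)) e)) (c (c (m (nat_lit 0xa8cacc8)) e) e)) (c (c (c (m (nat_lit 0xa8cacc8)) e) e) e)) (c (c (c (c (m (nat_lit 0x6bc54a0)) e) e) e) e)) (c (c (c (c (c (p (nat_lit 0xbc8a418)) e) e) e) e) e))) (c (c (c (c (c (c (p (nat_lit 0x23e63890)) (c (m (nat_lit 0x10a37b28)) e)) (c (c (m (nat_lit 0x8cde5c8)) e) e)) (c (c (c (m (nat_lit 0x729948)) e) e) e)) (c (c (c (c (m (nat_lit 0x7fd2488)) e) e) e) e)) (c (c (c (c (c (p (nat_lit 0xbc8a418)) e) e) e) e) e)) (c (c (c (c (c (c (m (nat_lit 0x131910)) e) e) e) e) e) e)))) (c (c (c (c (c (c (c (p (nat_lit 0x5111baa0)) (c (m (nat_lit 0x3f1b1b00)) (c (m (nat_lit 0x7fd2488)) e))) (c (c (m (nat_lit 0x3f1b1b00)) (c (p (nat_lit 0xde26178)) e)) (c (c (m (nat_lit 0x7fd2488)) e) e))) (c (c (c (m (nat_lit 0x3f1b1b00))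 (c (p (nat_lit 0xde26178)) e)) (c (c (m (nat_lit 0x6bc54a0)) e) e)) (c (c (c (m (nat_lit 0x7fd2488)) e) e) e))) (c (c (c (c (m (nat_lit 0x3f1b1b00)) (c (m (nat_lit 0x6bc54a0)) e)) (c (c (p (nat_lit 0xde26178)) e) e)) (c (c (c (p (nat_lit 0xde26178)) e) e) e)) (c (c (c (c (m (nat_lit 0x7fd2488)) e) e) e) e))) (c (c (c (c (c (p (nat_lit 0x7a23aa0)) (c (p (nat_lit 0x11d1d568)) e)) (c (c (p (nat_lit 0x11d1d568)) e) e)) (c (c (c (p (nat_lit 0xde26178)) e) e) e)) (c (c (c (c (p (nat_lit 0xde26178)) e) e) e) e)) (c (c (c (c (c (m (nat_lit 0x10a37b28)) e) e) e) e) e))) (c (c (c (c (c (c (p (nat_lit 0x7a23aa0)) (c (p (nat_lit 0x11d1d568)) e)) (c (c (p (nat_lit 0xde26178)) e) e)) (c (c (c (p (nat_lit 0x11d1d568)) e) e) e)) (c (c (c (c (p (nat_lit 0xde26178)) e) e) e) e)) (c (c (c (c (c (m (nat_lit 0xa8cacc8)) e) e) e) e) e)) (c (c (c (c (c (c (m (nat_lit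 0x10a37b28)) e) e) e) e) e) e))) (c (c (c (c (c (c (c (p (nat_lit 0x2b5ad910)) (c (m (nat_lit 0x7fd2488)) e)) (c (c (m (nat_lit 0x728f88)) e) e)) (c (c (c (m (nat_lit 0x728f88)) e) e) e)) (c (c (c (c (m (nat_lit 0x7fd2488)) e) e) e) e)) (c (c (c (c (c (m (nat_lit 0x8cde5c8)) e) e) e) e) e)) (c (c (c (c (c (c (m (nat_lit 0x8cde5c8)) e) e) e) e) e) e)) (c (c (c (c (c (c (c (m (nat_lit 0x98c520)) e) e) e) e) e) e) e)))) (c (c (c (c (c (c (c (c (m (nat_lit 0xaa67d698)) (c (p (nat_lit 0x2b5ad910)) (c (m (nat_lit 0x98ca60)) e))) (c (c (p (nat_lit 0x23e63890)) (c (m (nat_lit 0x8cde5c8)) e)) (c (c (m (nat_lit 0x729888)) e) e))) (c (c (c (p (nat_lit 0x23e63890)) (c (m (nat_lit 0x8cde5c8)) e)) (c (c (p (nat_lit 0xbc8a418)) e) e)) (c (c (c (m (nat_lit 0x729888)) e) e) e))) (c (c (c (c (p (nat_lit 0x2b5ad910)) (c (m (nat_lit 0x728f88)) e)) (c (c (m (nat_lit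 0x8cde5c8)) e) e)) (c (c (c (m (nat_lit 0x8cde5c8)) e) e) e)) (c (c (c (c (m (nat_lit 0x98ca60)) e) e) e) e))) (c (c (c (c (c (p (nat_lit 0x23e63890)) (c (m (nat_lit 0x8cde5c8)) e)) (c (c (m (nat_lit 0x729948)) e) e)) (c (c (c (m (nat_lit 0x10a37b28)) e) e) e)) (c (c (c (c (m (nat_lit 0x7fd2488)) e) e) e) e)) (c (c (c (c (c (m (nat_lit 0x729888)) e) e) e) e) e))) (c (c (c (c (c (c (p (nat_lit 0x23e63890)) (c (m (nat_lit 0x8cde5c8)) e)) (c (c (m (nat_lit 0x10a37b28)) e) e)) (c (c (c (m (nat_lit 0x729948)) e) e) e)) (c (c (c (c (m (nat_lit 0x7fd2488)) e) e) e) e)) (c (c (c (c (c (p (nat_lit 0xbc8a418)) e) e) e) e) e)) (c (c (c (c (c (c (m (nat_lit 0x729888)) e) e) e) e) e) e))) (c (c (c (c (c (c (c (p (nat_lit 0x2b5ad910)) (c (m (nat_lit 0x728f88)) e)) (c (c (m (nat_lit 0x7fd2488)) e) e)) (c (c (c (m (nat_lit 0x7fd2488)) e) e) e)) (c (c (c (c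 (m (nat_lit 0x728f88)) e) e) e) e)) (c (c (c (c (c (m (nat_lit 0x8cde5c8)) e) e) e) e) e)) (c (c (c (c (c (c (m (nat_lit 0x8cde5c8)) e) e) e) e) e) e)) (c (c (c (c (c (c (c (m (nat_lit 0x98ca60)) e) e) e) e) e) e) e))) (c (c (c (c (c (c (c (c (p (nat_lit 0x1b0)) (c (m (nat_lit 0x98c520)) e)) (c (c (m (nat_lit 0x131910)) e) e)) (c (c (c (m (nat_lit 0x131910)) e) e) e)) (c (c (c (c (m (nat_lit 0x98c520)) e) e) e) e)) (c (c (c (c (c (m (nat_lit 0x131910)) e) e) e) e) e)) (c (c (c (c (c (c (m (nat_lit 0x131910)) e) e) e) e) e) e)) (c (c (c (c (c (c (c (m (nat_lit 0x98c520)) e) e) e) e) e) e) e)) (c (c (c (c (c (c (c (c (p (nat_lit 0x48)) e) e) e) e) e) e) e) e))))) (c (c (c (c (c (c (c (c (c (p (nat_lit 0xcfd21a88)) (c (p (nat_lit 0x5111baa0)) (c (p (nat_lit 0x2b5ad910)) (c (m (nat_lit 0x98c520)) e)))) (c (c (m (nat_lit 0x4a4efa00)) (c (p (nat_lit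 0x7a23aa0)) (c (m (nat_lit 0x8cde5c8)) e))) (c (c (p (nat_lit 0x23e63890)) (c (m (nat_lit 0x10a37b28)) e)) (c (c (m (nat_lit 0x131910)) e) e)))) (c (c (c (p (nat_lit 0x5111baa0)) (c (m (nat_lit 0x3f1b1b00)) (c (m (nat_lit 0x7fd2488)) e))) (c (c (p (nat_lit 0x7a23aa0)) (c (p (nat_lit 0x11d1d568)) e)) (c (c (m (nat_lit 0x10a37b28)) e) e))) (c (c (c (p (nat_lit 0x2b5ad910)) (c (m (nat_lit 0x7fd2488)) e)) (c (c (m (nat_lit 0x8cde5c8)) e) e)) (c (c (c (m (nat_lit 0x98c520)) e) e) e)))) (c (c (c (c (m (nat_lit 0x4a4efa00)) (c (p (nat_lit 0x7a23aa0)) (c (m (nat_lit 0x8cde5c8)) e))) (c (c (p (nat_lit 0x1760d348)) (c (m (nat_lit 0xa8cacc8)) e)) (c (c (p (nat_lit 0xbc8a418)) e) e))) (c (c (c (p (nat_lit 0x7a23aa0)) (c (p (nat_lit 0x11d1d568)) e)) (c (c (m (nat_lit 0xa8cacc8)) e) e)) (c (c (c (m (nat_lit 0x8cde5c8)) e) e) e))) (c (c (c (c (p (nat_lit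 0x23e63890)) (c (m (nat_lit 0x10a37b28)) e)) (c (c (p (nat_lit 0xbc8a418)) e) e)) (c (c (c (m (nat_lit 0x10a37b28)) e) e) e)) (c (c (c (c (m (nat_lit 0x131910)) e) e) e) e)))) (c (c (c (c (c (m (nat_lit 0x4a4efa00)) (c (p (nat_lit 0x7a23aa0)) (c (m (nat_lit 0x8cde5c8)) e))) (c (c (m (nat_lit 0x77433c0)) (c (m (nat_lit 0xa8cacc8)) e)) (c (c (m (nat_lit 0x729948)) e) e))) (c (c (c (m (nat_lit 0x3f1b1b00)) (c (p (nat_lit 0xde26178)) e)) (c (c (p (nat_lit 0x11d1d568)) e) e)) (c (c (c (m (nat_lit 0x728f88)) e) e) e))) (c (c (c (c (p (nat_lit 0x7a23aa0)) (c (p (nat_lit 0x4408a40)) e)) (c (c (m (nat_lit 0xa8cacc8)) e) e)) (c (c (c (p (nat_lit 0xde26178)) e) e) e)) (c (c (c (c (m (nat_lit 0x8cde5c8)) e) e) e) e))) (c (c (c (c (c (p (nat_lit 0x23e63890)) (c (m (nat_lit 0x10a37b28)) e)) (c (c (m (nat_lit 0x729948)) e) e)) (c (c (c (m (nat_lit 0x7fd2488))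 e) e) e)) (c (c (c (c (m (nat_lit 0x8cde5c8)) e) e) e) e)) (c (c (c (c (c (m (nat_lit 0x131910)) e) e) e) e) e)))) (c (c (c (c (c (c (p (nat_lit 0x5111baa0)) (c (m (nat_lit 0x3f1b1b00)) (c (m (nat_lit 0x7fd2488)) e))) (c (c (m (nat_lit 0x3f1b1b00)) (c (p (nat_lit 0xde26178)) e)) (c (c (m (nat_lit 0x7fd2488)) e) e))) (c (c (c (m (nat_lit 0x3f1b1b00)) (c (m (nat_lit 0x6bc54a0)) e)) (c (c (p (nat_lit 0xde26178)) e) e)) (c (c (c (m (nat_lit 0x7fd2488)) e) e) e))) (c (c (c (c (m (nat_lit 0x3f1b1b00)) (c (p (nat_lit 0xde26178)) e)) (c (c (m (nat_lit 0x6bc54a0)) e) e)) (c (c (c (p (nat_lit 0xde26178)) e) e) e)) (c (c (c (c (m (nat_lit 0x7fd2488)) e) e) e) e))) (c (c (c (c (c (p (nat_lit 0x7a23aa0)) (c (p (nat_lit 0x11d1d568)) e)) (c (c (p (nat_lit 0x11d1d568)) e) e)) (c (c (c (p (nat_lit 0xde26178)) e) e) e)) (c (c (c (c (p (nat_lit 0xde26178)) e)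 e) e) e)) (c (c (c (c (c (m (nat_lit 0x10a37b28)) e) e) e) e) e))) (c (c (c (c (c (c (p (nat_lit 0x2b5ad910)) (c (m (nat_lit 0x7fd2488)) e)) (c (c (m (nat_lit 0x728f88)) e) e)) (c (c (c (m (nat_lit 0x7fd2488)) e) e) e)) (c (c (c (c (m (nat_lit 0x728f88)) e) e) e) e)) (c (c (c (c (c (m (nat_lit 0x8cde5c8)) e) e) e) e) e)) (c (c (c (c (c (c (m (nat_lit 0x98c520)) e) e) e) e) e) e)))) (c (c (c (c (c (c (c (m (nat_lit 0x4a4efa00)) (c (p (nat_lit 0x7a23aa0)) (c (m (nat_lit 0x8cde5c8)) e))) (c (c (p (nat_lit 0x7a23aa0)) (c (p (nat_lit 0x4408a40)) e)) (c (c (m (nat_lit 0x8cde5c8)) e) e))) (c (c (c (m (nat_lit 0x3f1b1b00)) (c (p (nat_lit 0xde26178)) e)) (c (c (p (nat_lit 0xde26178)) e) e)) (c (c (c (m (nat_lit 0x728f88)) e) e) e))) (c (c (c (c (m (nat_lit 0x77433c0)) (c (m (nat_lit 0xa8cacc8)) e)) (c (c (m (nat_lit 0xa8cacc8)) e) e)) (c (c (c (p (nat_lit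 0x11d1d568)) e) e) e)) (c (c (c (c (m (nat_lit 0x729948)) e) e) e) e))) (c (c (c (c (c (p (nat_lit 0x1760d348)) (c (m (nat_lit 0xa8cacc8)) e)) (c (c (m (nat_lit 0xa8cacc8)) e) e)) (c (c (c (m (nat_lit 0x6bc54a0)) e) e) e)) (c (c (c (c (m (nat_lit 0xa8cacc8)) e) e) e) e)) (c (c (c (c (c (p (nat_lit 0xbc8a418)) e) e) e) e) e))) (c (c (c (c (c (c (p (nat_lit 0x7a23aa0)) (c (p (nat_lit 0x11d1d568)) e)) (c (c (p (nat_lit 0xde26178)) e) e)) (c (c (c (p (nat_lit 0xde26178)) e) e) e)) (c (c (c (c (p (nat_lit 0x11d1d568)) e) e) e) e)) (c (c (c (c (c (m (nat_lit 0xa8cacc8)) e) e) e) e) e)) (c (c (c (c (c (c (m (nat_lit 0x8cde5c8)) e) e) e) e) e) e))) (c (c (c (c (c (c (c (p (nat_lit 0x23e63890)) (c (m (nat_lit 0x10a37b28)) e)) (c (c (m (nat_lit 0x8cde5c8)) e) e)) (c (c (c (m (nat_lit 0x7fd2488)) e) e) e)) (c (c (c (c (m (nat_lit 0x729948)) e) e) e) e))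 (c (c (c (c (c (p (nat_lit 0xbc8a418)) e) e) e) e) e)) (c (c (c (c (c (c (m (nat_lit 0x10a37b28)) e) e) e) e) e) e)) (c (c (c (c (c (c (c (m (nat_lit 0x131910)) e) e) e) e) e) e) e)))) (c (c (c (c (c (c (c (c (m (nat_lit 0x4a4efa00)) (c (m (nat_lit 0x3f1b1b00)) (c (m (nat_lit 0x728f88)) e))) (c (c (m (nat_lit 0x77433c0)) (c (p (nat_lit 0x11d1d568)) e)) (c (c (m (nat_lit 0x729948)) e) e))) (c (c (c (p (nat_lit 0x7a23aa0)) (c (p (nat_lit 0xde26178)) e)) (c (c (m (nat_lit 0xa8cacc8)) e) e)) (c (c (c (m (nat_lit 0x8cde5c8)) e) e) e))) (c (c (c (c (p (nat_lit 0x7a23aa0)) (c (p (nat_lit 0xde26178)) e)) (c (c (m (nat_lit 0xa8cacc8)) e) e)) (c (c (c (p (nat_lit 0x4408a40)) e) e) e)) (c (c (c (c (m (nat_lit 0x8cde5c8)) e) e) e) e))) (c (c (c (c (c (m (nat_lit 0x77433c0)) (c (p (nat_lit 0x11d1d568)) e)) (c (c (m (nat_lit 0x2ad2360)) e) e)) (c (c (c (p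 (nat_lit 0x11d1d568)) e) e) e)) (c (c (c (c (p (nat_lit 0x11d1d568)) e) e) e) e)) (c (c (c (c (c (m (nat_lit 0x729948)) e) e) e) e) e))) (c (c (c (c (c (c (p (nat_lit 0x7a23aa0)) (c (p (nat_lit 0xde26178)) e)) (c (c (p (nat_lit 0x11d1d568)) e) e)) (c (c (c (p (nat_lit 0x11d1d568)) e) e) e)) (c (c (c (c (p (nat_lit 0xde26178)) e) e) e) e)) (c (c (c (c (c (m (nat_lit 0xa8cacc8)) e) e) e) e) e)) (c (c (c (c (c (c (m (nat_lit 0x8cde5c8)) e) e) e) e) e) e))) (c (c (c (c (c (c (c (p (nat_lit 0x7a23aa0)) (c (p (nat_lit 0xde26178)) e)) (c (c (p (nat_lit 0x11d1d568)) e) e)) (c (c (c (p (nat_lit 0xde26178)) e) e) e)) (c (c (c (c (p (nat_lit 0x11d1d568)) e) e) e) e)) (c (c (c (c (c (m (nat_lit 0xa8cacc8)) e) e) e) e) e)) (c (c (c (c (c (c (p (nat_lit 0x4408a40)) e) e) e) e) e) e)) (c (c (c (c (c (c (c (m (nat_lit 0x8cde5c8)) e) e) e) e) e) e) e))) (c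 (c (c (c (c (c (c (c (p (nat_lit 0x23e63890)) (c (m (nat_lit 0x7fd2488)) e)) (c (c (m (nat_lit 0x729948)) e) e)) (c (c (c (m (nat_lit 0x10a37b28)) e) e) e)) (c (c (c (c (m (nat_lit 0x8cde5c8)) e) e) e) e)) (c (c (c (c (c (m (nat_lit 0x729948)) e) e) e) e) e)) (c (c (c (c (c (c (m (nat_lit 0x10a37b28)) e) e) e) e) e) e)) (c (c (c (c (c (c (c (m (nat_lit 0x8cde5c8)) e) e) e) e) e) e) e)) (c (c (c (c (c (c (c (c (m (nat_lit 0x131910)) e) e) e) e) e) e) e) e)))) (c (c (c (c (c (c (c (c (c (m (nat_lit 0xaa67d698)) (c (p (nat_lit 0x2b5ad910)) (c (m (nat_lit 0x98ca60)) e))) (c (c (p (nat_lit 0x23e63890)) (c (m (nat_lit 0x8cde5c8)) e)) (c (c (m (nat_lit 0x729888)) e) e))) (c (c (c (p (nat_lit 0x2b5ad910)) (c (m (nat_lit 0x728f88)) e)) (c (c (m (nat_lit 0x8cde5c8)) e) e)) (c (c (c (m (nat_lit 0x98ca60)) e) e) e))) (c (c (c (c (p (nat_lit 0x23e63890))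 (c (m (nat_lit 0x8cde5c8)) e)) (c (c (p (nat_lit 0xbc8a418)) e) e)) (c (c (c (m (nat_lit 0x8cde5c8)) e) e) e)) (c (c (c (c (m (nat_lit 0x729888)) e) e) e) e))) (c (c (c (c (c (p (nat_lit 0x23e63890)) (c (m (nat_lit 0x8cde5c8)) e)) (c (c (m (nat_lit 0x729948)) e) e)) (c (c (c (m (nat_lit 0x7fd2488)) e) e) e)) (c (c (c (c (m (nat_lit 0x10a37b28)) e) e) e) e)) (c (c (c (c (c (m (nat_lit 0x729888)) e) e) e) e) e))) (c (c (c (c (c (c (p (nat_lit 0x2b5ad910)) (c (m (nat_lit 0x728f88)) e)) (c (c (m (nat_lit 0x7fd2488)) e) e)) (c (c (c (m (nat_lit 0x728f88)) e) e) e)) (c (c (c (c (m (nat_lit 0x7fd2488)) e) e) e) e)) (c (c (c (c (c (m (nat_lit 0x8cde5c8)) e) e) e) e) e)) (c (c (c (c (c (c (m (nat_lit 0x98ca60)) e) e) e) e) e) e))) (c (c (c (c (c (c (c (p (nat_lit 0x23e63890)) (c (m (nat_lit 0x8cde5c8)) e)) (c (c (m (nat_lit 0x10a37b28)) e) e)) (c (c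 (c (m (nat_lit 0x7fd2488)) e) e) e)) (c (c (c (c (m (nat_lit 0x729948)) e) e) e) e)) (c (c (c (c (c (p (nat_lit 0xbc8a418)) e) e) e) e) e)) (c (c (c (c (c (c (m (nat_lit 0x8cde5c8)) e) e) e) e) e) e)) (c (c (c (c (c (c (c (m (nat_lit 0x729888)) e) e) e) e) e) e) e))) (c (c (c (c (c (c (c (c (p (nat_lit 0x23e63890)) (c (m (nat_lit 0x7fd2488)) e)) (c (c (m (nat_lit 0x729948)) e) e)) (c (c (c (m (nat_lit 0x8cde5c8)) e) e) e)) (c (c (c (c (m (nat_lit 0x10a37b28)) e) e) e) e)) (c (c (c (c (c (m (nat_lit 0x729948)) e) e) e) e) e)) (c (c (c (c (c (c (m (nat_lit 0x8cde5c8)) e) e) e) e) e) e)) (c (c (c (c (c (c (c (m (nat_lit 0x10a37b28)) e) e) e) e) e) e) e)) (c (c (c (c (c (c (c (c (m (nat_lit 0x729888)) e) e) e) e) e) e) e) e))) (c (c (c (c (c (c (c (c (c (p (nat_lit 0x1b0)) (c (m (nat_lit 0x98c520)) e)) (c (c (m (nat_lit 0x131910)) e) e)) (c (c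 (c (m (nat_lit 0x98c520)) e) e) e)) (c (c (c (c (m (nat_lit 0x131910)) e) e) e) e)) (c (c (c (c (c (m (nat_lit 0x131910)) e) e) e) e) e)) (c (c (c (c (c (c (m (nat_lit 0x98c520)) e) e) e) e) e) e)) (c (c (c (c (c (c (c (m (nat_lit 0x131910)) e) e) e) e) e) e) e)) (c (c (c (c (c (c (c (c (m (nat_lit 0x131910)) e) e) e) e) e) e) e) e)) (c (c (c (c (c (c (c (c (c (p (nat_lit 0x48)) e) e) e) e) e) e) e) e) e))))) (c (c (c (c (c (c (c (c (c (c (p (nat_lit 0xcfd21a88)) (c (p (nat_lit 0x5111baa0)) (c (p (nat_lit 0x2b5ad910)) (c (m (nat_lit 0x98c520)) e)))) (c (c (p (nat_lit 0x5111baa0)) (c (m (nat_lit 0x3f1b1b00)) (c (m (nat_lit 0x7fd2488)) e))) (c (c (p (nat_lit 0x2b5ad910)) (c (m (nat_lit 0x7fd2488)) e)) (c (c (m (nat_lit 0x98c520)) e) e)))) (c (c (c (m (nat_lit 0x4a4efa00)) (c (p (nat_lit 0x7a23aa0)) (c (m (nat_lit 0x8cde5c8)) e))) (c (c (p (nat_lit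 0x7a23aa0)) (c (p (nat_lit 0x11d1d568)) e)) (c (c (m (nat_lit 0x8cde5c8)) e) e))) (c (c (c (p (nat_lit 0x23e63890)) (c (m (nat_lit 0x10a37b28)) e)) (c (c (m (nat_lit 0x10a37b28)) e) e)) (c (c (c (m (nat_lit 0x131910)) e) e) e)))) (c (c (c (c (m (nat_lit 0x4a4efa00)) (c (p (nat_lit 0x7a23aa0)) (c (m (nat_lit 0x8cde5c8)) e))) (c (c (p (nat_lit 0x7a23aa0)) (c (p (nat_lit 0x11d1d568)) e)) (c (c (m (nat_lit 0x8cde5c8)) e) e))) (c (c (c (p (nat_lit 0x1760d348)) (c (m (nat_lit 0xa8cacc8)) e)) (c (c (m (nat_lit 0xa8cacc8)) e) e)) (c (c (c (p (nat_lit 0xbc8a418)) e) e) e))) (c (c (c (c (p (nat_lit 0x23e63890)) (c (m (nat_lit 0x10a37b28)) e)) (c (c (m (nat_lit 0x10a37b28)) e) e)) (c (c (c (p (nat_lit 0xbc8a418)) e) e) e)) (c (c (c (c (m (nat_lit 0x131910)) e) e) e) e)))) (c (c (c (c (c (p (nat_lit 0x5111baa0)) (c (m (nat_lit 0x3f1b1b00)) (c (m (nat_lit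 0x7fd2488)) e))) (c (c (m (nat_lit 0x3f1b1b00)) (c (m (nat_lit 0x6bc54a0)) e)) (c (c (m (nat_lit 0x7fd2488)) e) e))) (c (c (c (m (nat_lit 0x3f1b1b00)) (c (p (nat_lit 0xde26178)) e)) (c (c (p (nat_lit 0xde26178)) e) e)) (c (c (c (m (nat_lit 0x7fd2488)) e) e) e))) (c (c (c (c (m (nat_lit 0x3f1b1b00)) (c (p (nat_lit 0xde26178)) e)) (c (c (p (nat_lit 0xde26178)) e) e)) (c (c (c (m (nat_lit 0x6bc54a0)) e) e) e)) (c (c (c (c (m (nat_lit 0x7fd2488)) e) e) e) e))) (c (c (c (c (c (p (nat_lit 0x2b5ad910)) (c (m (nat_lit 0x7fd2488)) e)) (c (c (m (nat_lit 0x7fd2488)) e) e)) (c (c (c (m (nat_lit 0x728f88)) e) e) e)) (c (c (c (c (m (nat_lit 0x728f88)) e) e) e) e)) (c (c (c (c (c (m (nat_lit 0x98c520)) e) e) e) e) e)))) (c (c (c (c (c (c (m (nat_lit 0x4a4efa00)) (c (p (nat_lit 0x7a23aa0)) (c (m (nat_lit 0x8cde5c8)) e))) (c (c (m (nat_lit 0x3f1b1b00)) (c (p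 (nat_lit 0xde26178)) e)) (c (c (m (nat_lit 0x728f88)) e) e))) (c (c (c (m (nat_lit 0x77433c0)) (c (m (nat_lit 0xa8cacc8)) e)) (c (c (p (nat_lit 0x11d1d568)) e) e)) (c (c (c (m (nat_lit 0x729948)) e) e) e))) (c (c (c (c (p (nat_lit 0x7a23aa0)) (c (p (nat_lit 0x4408a40)) e)) (c (c (p (nat_lit 0xde26178)) e) e)) (c (c (c (m (nat_lit 0xa8cacc8)) e) e) e)) (c (c (c (c (m (nat_lit 0x8cde5c8)) e) e) e) e))) (c (c (c (c (c (p (nat_lit 0x7a23aa0)) (c (p (nat_lit 0x11d1d568)) e)) (c (c (p (nat_lit 0xde26178)) e) e)) (c (c (c (p (nat_lit 0x11d1d568)) e) e) e)) (c (c (c (c (p (nat_lit 0xde26178)) e) e) e) e)) (c (c (c (c (c (m (nat_lit 0x8cde5c8)) e) e) e) e) e))) (c (c (c (c (c (c (p (nat_lit 0x23e63890)) (c (m (nat_lit 0x10a37b28)) e)) (c (c (m (nat_lit 0x7fd2488)) e) e)) (c (c (c (m (nat_lit 0x729948)) e) e) e)) (c (c (c (c (m (nat_lit 0x8cde5c8)) e)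 e) e) e)) (c (c (c (c (c (m (nat_lit 0x10a37b28)) e) e) e) e) e)) (c (c (c (c (c (c (m (nat_lit 0x131910)) e) e) e) e) e) e)))) (c (c (c (c (c (c (c (m (nat_lit 0x4a4efa00)) (c (p (nat_lit 0x7a23aa0)) (c (m (nat_lit 0x8cde5c8)) e))) (c (c (m (nat_lit 0x3f1b1b00)) (c (p (nat_lit 0xde26178)) e)) (c (c (m (nat_lit 0x728f88)) e) e))) (c (c (c (p (nat_lit 0x7a23aa0)) (c (p (nat_lit 0x4408a40)) e)) (c (c (p (nat_lit 0xde26178)) e) e)) (c (c (c (m (nat_lit 0x8cde5c8)) e) e) e))) (c (c (c (c (m (nat_lit 0x77433c0)) (c (m (nat_lit 0xa8cacc8)) e)) (c (c (p (nat_lit 0x11d1d568)) e) e)) (c (c (c (m (nat_lit 0xa8cacc8)) e) e) e)) (c (c (c (c (m (nat_lit 0x729948)) e) e) e) e))) (c (c (c (c (c (p (nat_lit 0x7a23aa0)) (c (p (nat_lit 0x11d1d568)) e)) (c (c (p (nat_lit 0xde26178)) e) e)) (c (c (c (p (nat_lit 0xde26178)) e) e) e)) (c (c (c (c (p (nat_lit 0x11d1d568))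 e) e) e) e)) (c (c (c (c (c (m (nat_lit 0x8cde5c8)) e) e) e) e) e))) (c (c (c (c (c (c (p (nat_lit 0x1760d348)) (c (m (nat_lit 0xa8cacc8)) e)) (c (c (m (nat_lit 0x6bc54a0)) e) e)) (c (c (c (m (nat_lit 0xa8cacc8)) e) e) e)) (c (c (c (c (m (nat_lit 0xa8cacc8)) e) e) e) e)) (c (c (c (c (c (m (nat_lit 0xa8cacc8)) e) e) e) e) e)) (c (c (c (c (c (c (p (nat_lit 0xbc8a418)) e) e) e) e) e) e))) (c (c (c (c (c (c (c (p (nat_lit 0x23e63890)) (c (m (nat_lit 0x10a37b28)) e)) (c (c (m (nat_lit 0x7fd2488)) e) e)) (c (c (c (m (nat_lit 0x8cde5c8)) e) e) e)) (c (c (c (c (m (nat_lit 0x729948)) e) e) e) e)) (c (c (c (c (c (m (nat_lit 0x10a37b28)) e) e) e) e) e)) (c (c (c (c (c (c (p (nat_lit 0xbc8a418)) e) e) e) e) e) e)) (c (c (c (c (c (c (c (m (nat_lit 0x131910)) e) e) e) e) e) e) e)))) (c (c (c (c (c (c (c (c (m (nat_lit 0x4a4efa00)) (c (m (nat_lit 0x3f1b1b00))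 (c (m (nat_lit 0x728f88)) e))) (c (c (p (nat_lit 0x7a23aa0)) (c (p (nat_lit 0xde26178)) e)) (c (c (m (nat_lit 0x8cde5c8)) e) e))) (c (c (c (m (nat_lit 0x77433c0)) (c (p (nat_lit 0x11d1d568)) e)) (c (c (m (nat_lit 0xa8cacc8)) e) e)) (c (c (c (m (nat_lit 0x729948)) e) e) e))) (c (c (c (c (p (nat_lit 0x7a23aa0)) (c (p (nat_lit 0xde26178)) e)) (c (c (p (nat_lit 0x4408a40)) e) e)) (c (c (c (m (nat_lit 0xa8cacc8)) e) e) e)) (c (c (c (c (m (nat_lit 0x8cde5c8)) e) e) e) e))) (c (c (c (c (c (p (nat_lit 0x7a23aa0)) (c (p (nat_lit 0xde26178)) e)) (c (c (p (nat_lit 0x11d1d568)) e) e)) (c (c (c (p (nat_lit 0x11d1d568)) e) e) e)) (c (c (c (c (p (nat_lit 0xde26178)) e) e) e) e)) (c (c (c (c (c (m (nat_lit 0x8cde5c8)) e) e) e) e) e))) (c (c (c (c (c (c (m (nat_lit 0x77433c0)) (c (p (nat_lit 0x11d1d568)) e)) (c (c (p (nat_lit 0x11d1d568)) e) e)) (c (c (c (m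 (nat_lit 0x2ad2360)) e) e) e)) (c (c (c (c (p (nat_lit 0x11d1d568)) e) e) e) e)) (c (c (c (c (c (m (nat_lit 0xa8cacc8)) e) e) e) e) e)) (c (c (c (c (c (c (m (nat_lit 0x729948)) e) e) e) e) e) e))) (c (c (c (c (c (c (c (p (nat_lit 0x7a23aa0)) (c (p (nat_lit 0xde26178)) e)) (c (c (p (nat_lit 0xde26178)) e) e)) (c (c (c (p (nat_lit 0x11d1d568)) e) e) e)) (c (c (c (c (p (nat_lit 0x11d1d568)) e) e) e) e)) (c (c (c (c (c (p (nat_lit 0x4408a40)) e) e) e) e) e)) (c (c (c (c (c (c (m (nat_lit 0xa8cacc8)) e) e) e) e) e) e)) (c (c (c (c (c (c (c (m (nat_lit 0x8cde5c8)) e) e) e) e) e) e) e))) (c (c (c (c (c (c (c (c (p (nat_lit 0x23e63890)) (c (m (nat_lit 0x7fd2488)) e)) (c (c (m (nat_lit 0x10a37b28)) e) e)) (c (c (c (m (nat_lit 0x729948)) e) e) e)) (c (c (c (c (m (nat_lit 0x8cde5c8)) e) e) e) e)) (c (c (c (c (c (m (nat_lit 0x10a37b28)) e) e) e) e) e))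 (c (c (c (c (c (c (m (nat_lit 0x729948)) e) e) e) e) e) e)) (c (c (c (c (c (c (c (m (nat_lit 0x8cde5c8)) e) e) e) e) e) e) e)) (c (c (c (c (c (c (c (c (m (nat_lit 0x131910)) e) e) e) e) e) e) e) e)))) (c (c (c (c (c (c (c (c (c (m (nat_lit 0x4a4efa00)) (c (m (nat_lit 0x3f1b1b00)) (c (m (nat_lit 0x728f88)) e))) (c (c (p (nat_lit 0x7a23aa0)) (c (p (nat_lit 0xde26178)) e)) (c (c (m (nat_lit 0x8cde5c8)) e) e))) (c (c (c (p (nat_lit 0x7a23aa0)) (c (p (nat_lit 0xde26178)) e)) (c (c (p (nat_lit 0x4408a40)) e) e)) (c (c (c (m (nat_lit 0x8cde5c8)) e) e) e))) (c (c (c (c (m (nat_lit 0x77433c0)) (c (p (nat_lit 0x11d1d568)) e)) (c (c (m (nat_lit 0xa8cacc8)) e) e)) (c (c (c (m (nat_lit 0xa8cacc8)) e) e) e)) (c (c (c (c (m (nat_lit 0x729948)) e) e) e) e))) (c (c (c (c (c (p (nat_lit 0x7a23aa0)) (c (p (nat_lit 0xde26178)) e)) (c (c (p (nat_lit 0x11d1d568))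 e) e)) (c (c (c (p (nat_lit 0xde26178)) e) e) e)) (c (c (c (c (p (nat_lit 0x11d1d568)) e) e) e) e)) (c (c (c (c (c (m (nat_lit 0x8cde5c8)) e) e) e) e) e))) (c (c (c (c (c (c (p (nat_lit 0x7a23aa0)) (c (p (nat_lit 0xde26178)) e)) (c (c (p (nat_lit 0xde26178)) e) e)) (c (c (c (p (nat_lit 0x11d1d568)) e) e) e)) (c (c (c (c (p (nat_lit 0x11d1d568)) e) e) e) e)) (c (c (c (c (c (p (nat_lit 0x4408a40)) e) e) e) e) e)) (c (c (c (c (c (c (m (nat_lit 0x8cde5c8)) e) e) e) e) e) e))) (c (c (c (c (c (c (c (m (nat_lit 0x77433c0)) (c (p (nat_lit 0x11d1d568)) e)) (c (c (p (nat_lit 0x11d1d568)) e) e)) (c (c (c (p (nat_lit 0x11d1d568)) e) e) e)) (c (c (c (c (m (nat_lit 0x2ad2360)) e) e) e) e)) (c (c (c (c (c (m (nat_lit 0xa8cacc8)) e) e) e) e) e)) (c (c (c (c (c (c (m (nat_lit 0xa8cacc8)) e) e) e) e) e) e)) (c (c (c (c (c (c (c (m (nat_lit 0x729948)) e) e) e)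 e) e) e) e))) (c (c (c (c (c (c (c (c (p (nat_lit 0x1760d348)) (c (m (nat_lit 0x6bc54a0)) e)) (c (c (m (nat_lit 0xa8cacc8)) e) e)) (c (c (c (m (nat_lit 0xa8cacc8)) e) e) e)) (c (c (c (c (m (nat_lit 0xa8cacc8)) e) e) e) e)) (c (c (c (c (c (m (nat_lit 0xa8cacc8)) e) e) e) e) e)) (c (c (c (c (c (c (m (nat_lit 0xa8cacc8)) e) e) e) e) e) e)) (c (c (c (c (c (c (c (m (nat_lit 0xa8cacc8)) e) e) e) e) e) e) e)) (c (c (c (c (c (c (c (c (p (nat_lit 0xbc8a418)) e) e) e) e) e) e) e) e))) (c (c (c (c (c (c (c (c (c (p (nat_lit 0x23e63890)) (c (m (nat_lit 0x7fd2488)) e)) (c (c (m (nat_lit 0x10a37b28)) e) e)) (c (c (c (m (nat_lit 0x8cde5c8)) e) e) e)) (c (c (c (c (m (nat_lit 0x729948)) e) e) e) e)) (c (c (c (c (c (m (nat_lit 0x10a37b28)) e) e) e) e) e)) (c (c (c (c (c (c (m (nat_lit 0x8cde5c8)) e) e) e) e) e) e)) (c (c (c (c (c (c (c (m (nat_lit 0x729948))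 e) e) e) e) e) e) e)) (c (c (c (c (c (c (c (c (p (nat_lit 0xbc8a418)) e) e) e) e) e) e) e) e)) (c (c (c (c (c (c (c (c (c (m (nat_lit 0x131910)) e) e) e) e) e) e) e) e) e)))) (c (c (c (c (c (c (c (c (c (c (m (nat_lit 0xaa67d698)) (c (p (nat_lit 0x2b5ad910)) (c (m (nat_lit 0x98ca60)) e))) (c (c (p (nat_lit 0x2b5ad910)) (c (m (nat_lit 0x728f88)) e)) (c (c (m (nat_lit 0x98ca60)) e) e))) (c (c (c (p (nat_lit 0x23e63890)) (c (m (nat_lit 0x8cde5c8)) e)) (c (c (m (nat_lit 0x8cde5c8)) e) e)) (c (c (c (m (nat_lit 0x729888)) e) e) e))) (c (c (c (c (p (nat_lit 0x23e63890)) (c (m (nat_lit 0x8cde5c8)) e)) (c (c (m (nat_lit 0x8cde5c8)) e) e)) (c (c (c (p (nat_lit 0xbc8a418)) e) e) e)) (c (c (c (c (m (nat_lit 0x729888)) e) e) e) e))) (c (c (c (c (c (p (nat_lit 0x2b5ad910)) (c (m (nat_lit 0x728f88)) e)) (c (c (m (nat_lit 0x728f88)) e) e)) (c (c (c (m (nat_lit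 0x7fd2488)) e) e) e)) (c (c (c (c (m (nat_lit 0x7fd2488)) e) e) e) e)) (c (c (c (c (c (m (nat_lit 0x98ca60)) e) e) e) e) e))) (c (c (c (c (c (c (p (nat_lit 0x23e63890)) (c (m (nat_lit 0x8cde5c8)) e)) (c (c (m (nat_lit 0x7fd2488)) e) e)) (c (c (c (m (nat_lit 0x729948)) e) e) e)) (c (c (c (c (m (nat_lit 0x10a37b28)) e) e) e) e)) (c (c (c (c (c (m (nat_lit 0x8cde5c8)) e) e) e) e) e)) (c (c (c (c (c (c (m (nat_lit 0x729888)) e) e) e) e) e) e))) (c (c (c (c (c (c (c (p (nat_lit 0x23e63890)) (c (m (nat_lit 0x8cde5c8)) e)) (c (c (m (nat_lit 0x7fd2488)) e) e)) (c (c (c (m (nat_lit 0x10a37b28)) e) e) e)) (c (c (c (c (m (nat_lit 0x729948)) e) e) e) e)) (c (c (c (c (c (m (nat_lit 0x8cde5c8)) e) e) e) e) e)) (c (c (c (c (c (c (p (nat_lit 0xbc8a418)) e) e) e) e) e) e)) (c (c (c (c (c (c (c (m (nat_lit 0x729888)) e) e) e) e) e) e) e))) (c (c (c (c (c (c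 (c (c (p (nat_lit 0x23e63890)) (c (m (nat_lit 0x7fd2488)) e)) (c (c (m (nat_lit 0x8cde5c8)) e) e)) (c (c (c (m (nat_lit 0x729948)) e) e) e)) (c (c (c (c (m (nat_lit 0x10a37b28)) e) e) e) e)) (c (c (c (c (c (m (nat_lit 0x8cde5c8)) e) e) e) e) e)) (c (c (c (c (c (c (m (nat_lit 0x729948)) e) e) e) e) e) e)) (c (c (c (c (c (c (c (m (nat_lit 0x10a37b28)) e) e) e) e) e) e) e)) (c (c (c (c (c (c (c (c (m (nat_lit 0x729888)) e) e) e) e) e) e) e) e))) (c (c (c (c (c (c (c (c (c (p (nat_lit 0x23e63890)) (c (m (nat_lit 0x7fd2488)) e)) (c (c (m (nat_lit 0x8cde5c8)) e) e)) (c (c (c (m (nat_lit 0x10a37b28)) e) e) e)) (c (c (c (c (m (nat_lit 0x729948)) e) e) e) e)) (c (c (c (c (c (m (nat_lit 0x8cde5c8)) e) e) e) e) e)) (c (c (c (c (c (c (m (nat_lit 0x10a37b28)) e) e) e) e) e) e)) (c (c (c (c (c (c (c (m (nat_lit 0x729948)) e) e) e) e) e) e) e)) (c (c (c (c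 (c (c (c (c (p (nat_lit 0xbc8a418)) e) e) e) e) e) e) e) e)) (c (c (c (c (c (c (c (c (c (m (nat_lit 0x729888)) e) e) e) e) e) e) e) e) e))) (c (c (c (c (c (c (c (c (c (c (p (nat_lit 0x1b0)) (c (m (nat_lit 0x98c520)) e)) (c (c (m (nat_lit 0x98c520)) e) e)) (c (c (c (m (nat_lit 0x131910)) e) e) e)) (c (c (c (c (m (nat_lit 0x131910)) e) e) e) e)) (c (c (c (c (c (m (nat_lit 0x98c520)) e) e) e) e) e)) (c (c (c (c (c (c (m (nat_lit 0x131910)) e) e) e) e) e) e)) (c (c (c (c (c (c (c (m (nat_lit 0x131910)) e) e) e) e) e) e) e)) (c (c (c (c (c (c (c (c (m (nat_lit 0x131910)) e) e) e) e) e) e) e) e)) (c (c (c (c (c (c (c (c (c (m (nat_lit 0x131910)) e) e) e) e) e) e) e) e) e)) (c (c (c (c (c (c (c (c (c (c (p (nat_lit 0x48)) e) e) e) e) e) e) e) e) e) e)))))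

theorem c1 : trsOK col trs = true := by decide +kernel
theorem c2 : Nat.ble (Nat.mul (nat_lit 41) (nat_lit 4556)) (nat_lit 4294967295) = true := by decide +kernel
theorem c3 : Nat.beq (tabK (nat_lit 41) (List.ofFn s10)) kt = true := by decide +kernel
theorem c4 : okE trs E = true := by decide +kernel
theorem c5 : dE E (nat_lit 4) = true := by decide +kernel
theorem c6 : cmpK (nat_lit 10) (nat_lit 4) kt E T = true := by decide +kernel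
theorem c7 : bndK (nat_lit 10) (nat_lit 4) (Nat.pow (nat_lit 2) (nat_lit 41)) E T = true := by decide +kernel

theorem c0 : Fl.codeB col = 0 := by decide +kernel

theorem own : Fl.OwnOK 4 T 0 :=
  own_ok c0 c1 c2 c3 c4 c5 c6 c7

end H0

end Own

end HR
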