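import Pool.Agent.Lib.MP_a1b8b7_co.B.OwnOK

set_option autoImplicit false

namespace HR

namespace Own

namespace H76

open Chk

def col : Fin 10 → Bool := ![false, false, true, true, false, false, true, false, false, false]

def trs : List ℕ := [nat_lit 2420, nat_lit 2437]

def kt : ℕ := nat_lit 0x27000000c300000333000008610000174f00003ace000082b60000e3250001a64c0002b614

open Ex in
noncomputable def E : Ex := (a (a (a (a (u (nat_lit 9) (v (nat_lit 9) (v (nat_lit 9) (v (nat_lit 9) (k (nat_lit 0x263340)))))) (v (nat_lit 8) (a (u (nat_lit 9) (v (nat_lit 9) (v (nat_lit 9) (k (nat_lit 0x98d06))))) (v (nat_lit 8) (u (nat_lit 9) (v (nat_lit 9) (k (nat_lit 0x98d2a)))))))) (a (u (nat_lit 8) (v (nat_lit 8) (v (nat_lit 8) (a (v (nat_lit 9) (k (nat_lit 0x98ce8))) (v (nat_lit 8) (k (nat_lit 0x98d24))))))) (a (v (nat_lit 7) (a (a (u (nat_lit 9) (v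 (nat_lit 9) (v (nat_lit 9) (k (nat_lit 0x98d06))))) (v (nat_lit 8) (a (u (nat_lit 9) (v (nat_lit 9) (k (nat_lit 0x1319e8)))) (v (nat_lit 8) (u (nat_lit 9) (k (nat_lit 0x98c9a))))))) (a (u (nat_lit 8) (v (nat_lit 8) (v (nat_lit 8) (k (nat_lit 0x98d24))))) (v (nat_lit 7) (a (u (nat_lit 9) (v (nat_lit 9) (k (nat_lit 0x98d2a)))) (a (v (nat_lit 8) (u (nat_lit 9) (k (nat_lit 0x98c9a)))) (u (nat_lit 8) (v (nat_lit 8) (k (nat_lit 0x98d48)))))))))) (u (nat_lit 7) (v (nat_lit 7) (a (v (nat_lit 8) (v (nat_lit 8) (k (nat_lit 0x98d48)))) (v (nat_lit 7) (a (v (nat_lit 9) (k (nat_lit 0x98ce8))) (a (v (nat_lit 8) (k (nat_lit 0x98d24))) (v (nat_lit 7) (k (nat_lit 0x98d24)))))))))))) (a (a (v (nat_lit 6) (a (a (u (nat_lit 9) (v (nat_lit 9) (v (nat_lit 9) (k (nat_lit 0x132180))))) (a (v (nat_lit 8) (u (nat_lit 9) (v (nat_lit 9) (k (nat_lit 0x9917a))))) (u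 (nat_lit 8) (v (nat_lit 8) (a (v (nat_lit 9) (k (nat_lit 0x9931e))) (v (nat_lit 8) (k (nat_lit 0x9895e)))))))) (a (v (nat_lit 7) (a (u (nat_lit 9) (v (nat_lit 9) (k (nat_lit 0x9917a)))) (a (v (nat_lit 8) (u (nat_lit 9) (k (nat_lit 0x131c58)))) (u (nat_lit 8) (v (nat_lit 8) (k (nat_lit 0x990d8))))))) (a (u (nat_lit 7) (v (nat_lit 7) (a (v (nat_lit 9) (k (nat_lit 0x9931e))) (a (v (nat_lit 8) (k (nat_lit 0x990d8))) (v (nat_lit 7) (k (nat_lit 0x9895e))))))) (v (nat_lit 6) (a (a (u (nat_lit 9) (v (nat_lit 9) (k (nat_lit 0xf2bc440)))) (a (v (nat_lit 8) (u (nat_lit 9) (k (nat_lit 0x98e50)))) (u (nat_lit 8) (v (nat_lit 8) (k (nat_lit 0xc3146f4)))))) (a (v (nat_lit 7) (a (u (nat_lit 9) (k (nat_lit 0x98e50))) (u (nat_lit 8) (k (nat_lit 0xa955418))))) (a (u (nat_lit 7) (a (v (nat_lit 8) (k (nat_lit 0xa955418))) (v (nat_lit 7) (k (nat_lit 0xc3146f4)))))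 (v (nat_lit 6) (u (nat_lit 9) (k (nat_lit 0x1319dc)))))))))))) (u (nat_lit 6) (a (v (nat_lit 8) (a (v (nat_lit 9) (v (nat_lit 9) (k (nat_lit 0x98c82)))) (v (nat_lit 8) (a (v (nat_lit 9) (k (nat_lit 0x98c8e))) (v (nat_lit 8) (k (nat_lit 0x9943e))))))) (a (v (nat_lit 7) (a (v (nat_lit 9) (v (nat_lit 9) (k (nat_lit 0x98c82)))) (v (nat_lit 7) (a (v (nat_lit 9) (k (nat_lit 0x98c8e))) (v (nat_lit 7) (k (nat_lit 0x9943e))))))) (v (nat_lit 6) (a (v (nat_lit 9) (v (nat_lit 9) (k (nat_lit 0x132ad4)))) (a (v (nat_lit 7) (v (nat_lit 8) (k (nat_lit 0x131f88)))) (v (nat_lit 6) (a (a (v (nat_lit 9) (k (nat_lit 0x131bc8))) (a (v (nat_lit 8) (k (nat_lit 0x990f0))) (u (nat_lit 8) (k (nat_lit 0x98d1e))))) (a (v (nat_lit 7) (k (nat_lit 0x990f0))) (a (u (nat_lit 7) (k (nat_lit 0x98d1e))) (v (nat_lit 6) (k (nat_lit 0x1319b8)))))))))))))) (a (v (nat_lit 5) (a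 (a (u (nat_lit 9) (v (nat_lit 9) (v (nat_lit 9) (k (nat_lit 0x98d06))))) (a (v (nat_lit 8) (u (nat_lit 9) (v (nat_lit 9) (k (nat_lit 0x131ac0))))) (u (nat_lit 8) (v (nat_lit 8) (a (v (nat_lit 9) (k (nat_lit 0x98d48))) (v (nat_lit 8) (k (nat_lit 0x98d30)))))))) (a (a (v (nat_lit 7) (a (u (nat_lit 9) (v (nat_lit 9) (k (nat_lit 0x131ad8)))) (a (u (nat_lit 8) (v (nat_lit 8) (k (nat_lit 0x98d48)))) (v (nat_lit 7) (a (u (nat_lit 9) (k (nat_lit 0x98da2))) (u (nat_lit 8) (k (nat_lit 0x98d84)))))))) (v (nat_lit 6) (a (a (u (nat_lit 8) (v (nat_lit 9) (k (nat_lit 0x96c96)))) (v (nat_lit 7) (a (u (nat_lit 9) (k (nat_lit 0x9239a))) (u (nat_lit 8) (k (nat_lit 0x97fda)))))) (a (u (nat_lit 7) (v (nat_lit 8) (k (nat_lit 0x9a3fe)))) (v (nat_lit 6) (a (u (nat_lit 9) (k (nat_lit 0x98d24))) (a (u (nat_lit 8) (k (nat_lit 0x98b14))) (u (nat_lit 7) (k (nat_lit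 0x90e3a)))))))))) (a (u (nat_lit 6) (a (v (nat_lit 9) (v (nat_lit 9) (k (nat_lit 0x98ce2)))) (a (v (nat_lit 8) (a (v (nat_lit 9) (k (nat_lit 0x9b2bc))) (v (nat_lit 8) (k (nat_lit 0x98c52))))) (v (nat_lit 6) (a (v (nat_lit 7) (k (nat_lit 0xa0ec6))) (v (nat_lit 6) (k (nat_lit 0x988c2)))))))) (v (nat_lit 5) (a (a (u (nat_lit 9) (v (nat_lit 9) (k (nat_lit 0x98d2a)))) (a (u (nat_lit 8) (v (nat_lit 8) (k (nat_lit 0x98d30)))) (v (nat_lit 7) (u (nat_lit 9) (k (nat_lit 0x98da2)))))) (a (u (nat_lit 7) (a (v (nat_lit 8) (k (nat_lit 0x98d3c))) (v (nat_lit 7) (k (nat_lit 0x98d42))))) (a (u (nat_lit 6) (a (v (nat_lit 9) (k (nat_lit 0x98ce2))) (a (v (nat_lit 8) (k (nat_lit 0x98cf4))) (v (nat_lit 6) (k (nat_lit 0x99b88)))))) (v (nat_lit 5) (u (nat_lit 7) (k (nat_lit 0x98694)))))))))))) (a (u (nat_lit 5) (a (a (v (nat_lit 7) (a (v (nat_lit 8) (v (nat_lit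 9) (k (nat_lit 0x992d6)))) (v (nat_lit 7) (v (nat_lit 7) (k (nat_lit 0x98694)))))) (u (nat_lit 7) (u (nat_lit 8) (u (nat_lit 9) (k (nat_lit 0x9926a)))))) (a (v (nat_lit 6) (a (v (nat_lit 8) (v (nat_lit 8) (k (nat_lit 0x98efe)))) (a (v (nat_lit 7) (a (v (nat_lit 9) (k (nat_lit 0x9fab6))) (v (nat_lit 7) (k (nat_lit 0x98ad8))))) (v (nat_lit 6) (v (nat_lit 8) (k (nat_lit 0x99900))))))) (v (nat_lit 5) (a (a (v (nat_lit 8) (a (v (nat_lit 9) (k (nat_lit 0x98d48))) (v (nat_lit 8) (k (nat_lit 0x98d30))))) (v (nat_lit 7) (v (nat_lit 7) (k (nat_lit 0x98d42))))) (a (v (nat_lit 6) (a (v (nat_lit 7) (k (nat_lit 0x991f8))) (v (nat_lit 6) (k (nat_lit 0xbae598))))) (v (nat_lit 5) (a (a (v (nat_lit 9) (k (nat_lit 0x98ce8))) (v (nat_lit 8) (k (nat_lit 0x98d30)))) (a (v (nat_lit 6) (k (nat_lit 0x99180))) (v (nat_lit 5) (k (nat_lit 0x98d24)))))))))))) (t (nat_lit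 5) (nat_lit 8) (nat_lit 9) (a (a (u (nat_lit 8) (u (nat_lit 8) (u (nat_lit 8) (k (nat_lit 0x99084))))) (u (nat_lit 6) (v (nat_lit 6) (v (nat_lit 6) (k (nat_lit 0x98e62)))))) (a (u (nat_lit 5) (a (u (nat_lit 8) (a (v (nat_lit 9) (k (nat_lit 0x88f6284))) (u (nat_lit 8) (k (nat_lit 0x226e51c))))) (a (u (nat_lit 6) (u (nat_lit 9) (k (nat_lit 0x9941a)))) (u (nat_lit 5) (a (u (nat_lit 8) (k (nat_lit 0x226e51c))) (u (nat_lit 5) (k (nat_lit 0x99084)))))))) (t (nat_lit 5) (nat_lit 8) (nat_lit 9) (t (nat_lit 5) (nat_lit 8) (nat_lit 9) (u (nat_lit 7) (k (nat_lit 0x333dbc)))))))))))) (a (a (a (v (nat_lit 4) (a (a (a (u (nat_lit 9) (v (nat_lit 9) (v (nat_lit 9) (k (nat_lit 0x98d06))))) (v (nat_lit 8) (a (u (nat_lit 9) (v (nat_lit 9) (k (nat_lit 0x131ad8)))) (v (nat_lit 8) (u (nat_lit 9) (k (nat_lit 0x98da2))))))) (a (v (nat_lit 7) (u (nat_lit 9) (v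 (nat_lit 9) (k (nat_lit 0x131ac0))))) (a (u (nat_lit 7) (a (v (nat_lit 8) (v (nat_lit 8) (k (nat_lit 0x98d84)))) (v (nat_lit 7) (a (v (nat_lit 9) (k (nat_lit 0x98d48))) (a (v (nat_lit 8) (k (nat_lit 0x98d48))) (v (nat_lit 7) (k (nat_lit 0x98d30)))))))) (v (nat_lit 6) (a (a (v (nat_lit 8) (u (nat_lit 9) (k (nat_lit 0x9239a)))) (v (nat_lit 7) (u (nat_lit 8) (k (nat_lit 0x9a3fe))))) (a (u (nat_lit 7) (a (v (nat_lit 9) (k (nat_lit 0x96c96))) (v (nat_lit 8) (k (nat_lit 0x97fda))))) (v (nat_lit 6) (a (u (nat_lit 9) (k (nat_lit 0x98d24))) (a (u (nat_lit 8) (k (nat_lit 0x90e3a))) (u (nat_lit 7) (k (nat_lit 0x98b14)))))))))))) (a (a (u (nat_lit 6) (a (v (nat_lit 9) (v (nat_lit 9) (k (nat_lit 0x98ce2)))) (a (v (nat_lit 7) (a (v (nat_lit 9) (k (nat_lit 0x9b2bc))) (v (nat_lit 7) (k (nat_lit 0x98c52))))) (v (nat_lit 6) (a (v (nat_lit 8) (k (nat_lit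 0xa0ec6))) (v (nat_lit 6) (k (nat_lit 0x988c2)))))))) (v (nat_lit 5) (a (a (u (nat_lit 9) (v (nat_lit 9) (k (nat_lit 0x1319e8)))) (a (u (nat_lit 8) (v (nat_lit 9) (k (nat_lit 0x992d6)))) (v (nat_lit 7) (u (nat_lit 8) (k (nat_lit 0x98d36)))))) (a (a (u (nat_lit 7) (a (v (nat_lit 9) (k (nat_lit 0x992d6))) (v (nat_lit 8) (k (nat_lit 0x98d36))))) (v (nat_lit 6) (a (u (nat_lit 8) (k (nat_lit 0x98d3c))) (u (nat_lit 7) (k (nat_lit 0x98d3c)))))) (a (u (nat_lit 6) (v (nat_lit 6) (k (nat_lit 0x125ebc)))) (v (nat_lit 5) (u (nat_lit 9) (k (nat_lit 0x98c9a))))))))) (a (u (nat_lit 5) (a (v (nat_lit 7) (a (v (nat_lit 8) (k (nat_lit 0x98d36))) (v (nat_lit 7) (k (nat_lit 0x98d3c))))) (a (v (nat_lit 6) (a (v (nat_lit 9) (k (nat_lit 0x99246))) (v (nat_lit 6) (k (nat_lit 0x416ba82))))) (v (nat_lit 5) (a (v (nat_lit 8) (k (nat_lit 0x98d48))) (a (v (nat_lit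 6) (k (nat_lit 0x99060))) (v (nat_lit 5) (k (nat_lit 0x98d24))))))))) (a (t (nat_lit 5) (nat_lit 8) (nat_lit 9) (u (nat_lit 5) (u (nat_lit 6) (k (nat_lit 0x9ae54))))) (v (nat_lit 4) (a (a (a (u (nat_lit 9) (v (nat_lit 9) (k (nat_lit 0x98d2a)))) (v (nat_lit 8) (u (nat_lit 9) (k (nat_lit 0x98da2))))) (a (u (nat_lit 8) (v (nat_lit 8) (k (nat_lit 0x98d42)))) (v (nat_lit 7) (u (nat_lit 8) (k (nat_lit 0x98d3c)))))) (a (a (u (nat_lit 7) (v (nat_lit 7) (k (nat_lit 0x98d30)))) (u (nat_lit 6) (a (v (nat_lit 9) (k (nat_lit 0x98ce2))) (a (v (nat_lit 7) (k (nat_lit 0x98cf4))) (v (nat_lit 6) (k (nat_lit 0x99b88))))))) (a (v (nat_lit 5) (u (nat_lit 9) (k (nat_lit 0x98c9a)))) (a (u (nat_lit 5) (a (v (nat_lit 8) (k (nat_lit 0x98d84))) (v (nat_lit 5) (k (nat_lit 0x98d48))))) (v (nat_lit 4) (u (nat_lit 8) (k (nat_lit 0x98694)))))))))))))) (u (nat_lit 4)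 (a (a (a (v (nat_lit 8) (v (nat_lit 8) (v (nat_lit 8) (k (nat_lit 0x98694))))) (v (nat_lit 7) (v (nat_lit 8) (v (nat_lit 9) (k (nat_lit 0x992d6)))))) (a (u (nat_lit 7) (u (nat_lit 8) (u (nat_lit 9) (k (nat_lit 0x9926a))))) (v (nat_lit 6) (a (v (nat_lit 8) (a (v (nat_lit 9) (k (nat_lit 0x9fab6))) (v (nat_lit 8) (k (nat_lit 0x98ad8))))) (a (v (nat_lit 7) (v (nat_lit 7) (k (nat_lit 0x98efe)))) (v (nat_lit 6) (v (nat_lit 7) (k (nat_lit 0x99900))))))))) (a (a (v (nat_lit 5) (a (a (v (nat_lit 8) (v (nat_lit 8) (k (nat_lit 0x98d3c)))) (v (nat_lit 7) (v (nat_lit 8) (k (nat_lit 0x98d36))))) (a (v (nat_lit 6) (a (v (nat_lit 9) (k (nat_lit 0x99246))) (v (nat_lit 6) (k (nat_lit 0x416ba82))))) (v (nat_lit 5) (v (nat_lit 7) (k (nat_lit 0x98d84))))))) (u (nat_lit 5) (a (u (nat_lit 8) (u (nat_lit 9) (k (nat_lit 0x9926a)))) (u (nat_lit 7) (u (nat_lit 9)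 (k (nat_lit 0x9926a))))))) (a (t (nat_lit 5) (nat_lit 8) (nat_lit 9) (t (nat_lit 5) (nat_lit 8) (nat_lit 9) (t (nat_lit 5) (nat_lit 8) (nat_lit 9) (k (nat_lit 0x333dbc))))) (v (nat_lit 4) (a (a (v (nat_lit 8) (v (nat_lit 8) (k (nat_lit 0x98d42)))) (v (nat_lit 7) (a (v (nat_lit 9) (k (nat_lit 0x98d48))) (v (nat_lit 7) (k (nat_lit 0x98d30)))))) (a (v (nat_lit 6) (a (v (nat_lit 8) (k (nat_lit 0x991f8))) (v (nat_lit 6) (k (nat_lit 0xbae598))))) (a (v (nat_lit 5) (a (v (nat_lit 7) (k (nat_lit 0x98d48))) (a (v (nat_lit 6) (k (nat_lit 0x99060))) (v (nat_lit 5) (k (nat_lit 0x98d48)))))) (v (nat_lit 4) (a (a (v (nat_lit 9) (k (nat_lit 0x98ce8))) (v (nat_lit 7) (k (nat_lit 0x98d30)))) (a (v (nat_lit 6) (k (nat_lit 0x99180))) (a (v (nat_lit 5) (k (nat_lit 0x98d24))) (v (nat_lit 4) (k (nat_lit 0x98d24)))))))))))))))) (a (t (nat_lit 4) (nat_lit 7)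 (nat_lit 9) (a (a (u (nat_lit 7) (u (nat_lit 7) (u (nat_lit 7) (k (nat_lit 0x99084))))) (a (u (nat_lit 6) (v (nat_lit 6) (v (nat_lit 6) (k (nat_lit 0x98e62))))) (t (nat_lit 5) (nat_lit 8) (nat_lit 9) (a (a (v (nat_lit 7) (u (nat_lit 8) (k (nat_lit 0x9b886)))) (u (nat_lit 7) (v (nat_lit 8) (k (nat_lit 0x9b886))))) (a (u (nat_lit 6) (v (nat_lit 6) (k (nat_lit 0x3fb7cc0)))) (t (nat_lit 5) (nat_lit 8) (nat_lit 9) (a (u (nat_lit 8) (k (nat_lit 0x13d211c))) (a (u (nat_lit 7) (k (nat_lit 0x34546aa))) (u (nat_lit 5) (k (nat_lit 0x13d211c))))))))))) (a (v (nat_lit 4) (t (nat_lit 5) (nat_lit 8) (nat_lit 9) (u (nat_lit 5) (k (nat_lit 0x9b886))))) (a (u (nat_lit 4) (a (a (u (nat_lit 7) (a (v (nat_lit 9) (k (nat_lit 0x88f6284))) (u (nat_lit 7) (k (nat_lit 0x226e51c))))) (u (nat_lit 6) (u (nat_lit 9) (k (nat_lit 0x9941a))))) (a (v (nat_lit 5) (u (nat_lit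 6) (k (nat_lit 0x9ae54)))) (a (t (nat_lit 5) (nat_lit 8) (nat_lit 9) (a (v (nat_lit 5) (k (nat_lit 0x9b886))) (t (nat_lit 5) (nat_lit 8) (nat_lit 9) (k (nat_lit 0x34546aa))))) (u (nat_lit 4) (a (u (nat_lit 7) (k (nat_lit 0x226e51c))) (u (nat_lit 4) (k (nat_lit 0x99084))))))))) (t (nat_lit 4) (nat_lit 7) (nat_lit 9) (a (t (nat_lit 5) (nat_lit 8) (nat_lit 9) (a (u (nat_lit 8) (k (nat_lit 0x34546aa))) (a (u (nat_lit 7) (k (nat_lit 0x13d211c))) (u (nat_lit 5) (k (nat_lit 0x34546aa)))))) (a (u (nat_lit 4) (t (nat_lit 5) (nat_lit 8) (nat_lit 9) (k (nat_lit 0x13d211c)))) (t (nat_lit 4) (nat_lit 7) (nat_lit 9) (a (u (nat_lit 8) (k (nat_lit 0x333dbc))) (u (nat_lit 5) (k (nat_lit 0x333dbc)))))))))))) (a (v (nat_lit 3) (a (a (a (u (nat_lit 9) (v (nat_lit 9) (v (nat_lit 9) (k (nat_lit 0x132180))))) (a (u (nat_lit 8) (v (nat_lit 8) (v (nat_lit 8) (k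 (nat_lit 0x99180))))) (v (nat_lit 7) (u (nat_lit 8) (a (v (nat_lit 9) (k (nat_lit 0x99246))) (v (nat_lit 8) (k (nat_lit 0x99060)))))))) (a (u (nat_lit 7) (a (v (nat_lit 8) (v (nat_lit 9) (k (nat_lit 0x99246)))) (v (nat_lit 7) (a (v (nat_lit 8) (k (nat_lit 0x99060))) (v (nat_lit 7) (k (nat_lit 0x99180))))))) (a (v (nat_lit 6) (a (u (nat_lit 9) (v (nat_lit 9) (k (nat_lit 0x263cb8)))) (v (nat_lit 6) (u (nat_lit 9) (k (nat_lit 0x131478)))))) (u (nat_lit 6) (a (a (v (nat_lit 9) (v (nat_lit 9) (k (nat_lit 0x131988)))) (v (nat_lit 8) (a (v (nat_lit 9) (k (nat_lit 0x9b19c))) (v (nat_lit 8) (k (nat_lit 0x98382)))))) (a (v (nat_lit 7) (a (v (nat_lit 9) (k (nat_lit 0x9b19c))) (a (v (nat_lit 8) (k (nat_lit 0x131aa8))) (v (nat_lit 7) (k (nat_lit 0x98382)))))) (a (v (nat_lit 6) (v (nat_lit 6) (k (nat_lit 0x130e00)))) (u (nat_lit 6) (v (nat_lit 6) (k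 (nat_lit 0x130ec0))))))))))) (a (a (v (nat_lit 5) (a (a (u (nat_lit 9) (v (nat_lit 9) (k (nat_lit 0x9917a)))) (a (v (nat_lit 7) (u (nat_lit 9) (k (nat_lit 0x9239a)))) (u (nat_lit 7) (a (v (nat_lit 9) (k (nat_lit 0x9fab6))) (v (nat_lit 7) (k (nat_lit 0x991f8))))))) (a (v (nat_lit 6) (u (nat_lit 8) (k (nat_lit 0x9a1a0)))) (a (u (nat_lit 6) (a (v (nat_lit 9) (k (nat_lit 0x96e28))) (a (v (nat_lit 8) (k (nat_lit 0x9978c))) (v (nat_lit 7) (k (nat_lit 0x5be678)))))) (v (nat_lit 5) (a (u (nat_lit 8) (k (nat_lit 0x98efe))) (a (u (nat_lit 7) (k (nat_lit 0x98ad8))) (u (nat_lit 6) (k (nat_lit 0x99876)))))))))) (a (u (nat_lit 5) (a (a (v (nat_lit 8) (v (nat_lit 9) (k (nat_lit 0x96c96)))) (v (nat_lit 7) (v (nat_lit 8) (k (nat_lit 0x98d3c))))) (a (v (nat_lit 6) (v (nat_lit 8) (k (nat_lit 0x9a1a0)))) (v (nat_lit 5) (a (v (nat_lit 9) (k (nat_lit 0x9931e)))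 (v (nat_lit 5) (k (nat_lit 0x9895e)))))))) (t (nat_lit 5) (nat_lit 8) (nat_lit 9) (a (v (nat_lit 6) (u (nat_lit 8) (k (nat_lit 0xf703e18)))) (a (u (nat_lit 5) (v (nat_lit 6) (k (nat_lit 0xf703e18)))) (t (nat_lit 5) (nat_lit 8) (nat_lit 9) (u (nat_lit 6) (k (nat_lit 0xceaa32))))))))) (a (a (v (nat_lit 4) (a (a (a (u (nat_lit 9) (v (nat_lit 9) (k (nat_lit 0x9917a)))) (v (nat_lit 8) (u (nat_lit 9) (k (nat_lit 0x9239a))))) (a (u (nat_lit 8) (a (v (nat_lit 9) (k (nat_lit 0x9fab6))) (v (nat_lit 8) (k (nat_lit 0x991f8))))) (v (nat_lit 6) (u (nat_lit 7) (k (nat_lit 0x9a1a0)))))) (a (a (u (nat_lit 6) (a (v (nat_lit 9) (k (nat_lit 0x96e28))) (a (v (nat_lit 8) (k (nat_lit 0x5be678))) (v (nat_lit 7) (k (nat_lit 0x9978c)))))) (v (nat_lit 5) (u (nat_lit 9) (k (nat_lit 0x131c58))))) (a (u (nat_lit 5) (a (v (nat_lit 8) (k (nat_lit 0x97fda))) (a (v (nat_lit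 7) (k (nat_lit 0x9a3fe))) (v (nat_lit 5) (k (nat_lit 0x990d8)))))) (v (nat_lit 4) (a (u (nat_lit 8) (k (nat_lit 0x98ad8))) (a (u (nat_lit 7) (k (nat_lit 0x98efe))) (u (nat_lit 6) (k (nat_lit 0x99876)))))))))) (u (nat_lit 4) (a (a (v (nat_lit 7) (a (v (nat_lit 9) (k (nat_lit 0x96c96))) (v (nat_lit 8) (k (nat_lit 0x98d3c))))) (v (nat_lit 6) (v (nat_lit 7) (k (nat_lit 0x9a1a0))))) (a (v (nat_lit 5) (a (v (nat_lit 8) (k (nat_lit 0x9a3fe))) (v (nat_lit 7) (k (nat_lit 0x97fda))))) (v (nat_lit 4) (a (v (nat_lit 9) (k (nat_lit 0x9931e))) (a (v (nat_lit 5) (k (nat_lit 0x990d8))) (v (nat_lit 4) (k (nat_lit 0x9895e)))))))))) (a (t (nat_lit 4) (nat_lit 7) (nat_lit 9) (a (v (nat_lit 6) (u (nat_lit 7) (k (nat_lit 0xf703e18)))) (a (u (nat_lit 4) (v (nat_lit 6) (k (nat_lit 0xf703e18)))) (t (nat_lit 4) (nat_lit 7) (nat_lit 9) (u (nat_lit 6) (k (nat_lit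 0xceaa32))))))) (v (nat_lit 3) (a (a (a (u (nat_lit 9) (v (nat_lit 9) (k (nat_lit 0xf2bc440)))) (a (v (nat_lit 8) (u (nat_lit 9) (k (nat_lit 0x98d24)))) (u (nat_lit 8) (v (nat_lit 8) (k (nat_lit 0xbae598)))))) (a (a (v (nat_lit 7) (a (u (nat_lit 9) (k (nat_lit 0x98d24))) (u (nat_lit 8) (k (nat_lit 0x416ba82))))) (u (nat_lit 7) (a (v (nat_lit 8) (k (nat_lit 0x416ba82))) (v (nat_lit 7) (k (nat_lit 0xbae598)))))) (a (v (nat_lit 6) (u (nat_lit 9) (k (nat_lit 0x131478)))) (u (nat_lit 6) (a (a (v (nat_lit 9) (k (nat_lit 0x132840))) (v (nat_lit 8) (k (nat_lit 0x98de4)))) (a (v (nat_lit 7) (k (nat_lit 0x98de4))) (v (nat_lit 6) (k (nat_lit 0x1319dc))))))))) (a (a (v (nat_lit 5) (a (u (nat_lit 9) (k (nat_lit 0x98e50))) (a (u (nat_lit 8) (k (nat_lit 0x99900))) (u (nat_lit 6) (k (nat_lit 0x98f70)))))) (a (u (nat_lit 5) (a (v (nat_lit 8) (k (nat_lit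 0x98b14))) (a (v (nat_lit 7) (k (nat_lit 0x90e3a))) (v (nat_lit 5) (k (nat_lit 0xc3146f4)))))) (t (nat_lit 5) (nat_lit 8) (nat_lit 9) (u (nat_lit 6) (k (nat_lit 0x99018)))))) (a (a (v (nat_lit 4) (a (a (u (nat_lit 9) (k (nat_lit 0x98e50))) (u (nat_lit 7) (k (nat_lit 0x99900)))) (a (u (nat_lit 6) (k (nat_lit 0x98f70))) (u (nat_lit 5) (k (nat_lit 0xa955418)))))) (u (nat_lit 4) (a (a (v (nat_lit 8) (k (nat_lit 0x90e3a))) (v (nat_lit 7) (k (nat_lit 0x98b14)))) (a (v (nat_lit 5) (k (nat_lit 0xa955418))) (v (nat_lit 4) (k (nat_lit 0xc3146f4))))))) (a (t (nat_lit 4) (nat_lit 7) (nat_lit 9) (u (nat_lit 6) (k (nat_lit 0x99018)))) (v (nat_lit 3) (u (nat_lit 9) (k (nat_lit 0x1319dc)))))))))))))) (u (nat_lit 3) (a (a (a (v (nat_lit 8) (a (v (nat_lit 9) (v (nat_lit 9) (k (nat_lit 0x98ce2)))) (v (nat_lit 8) (v (nat_lit 9) (k (nat_lit 0x98ce2)))))) (v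 (nat_lit 7) (a (v (nat_lit 9) (v (nat_lit 9) (k (nat_lit 0x98ce2)))) (v (nat_lit 7) (v (nat_lit 9) (k (nat_lit 0x98ce2))))))) (a (v (nat_lit 6) (a (a (v (nat_lit 9) (v (nat_lit 9) (k (nat_lit 0x131988)))) (v (nat_lit 8) (a (v (nat_lit 9) (k (nat_lit 0x96e28))) (v (nat_lit 8) (k (nat_lit 0x99876)))))) (a (v (nat_lit 7) (a (v (nat_lit 9) (k (nat_lit 0x96e28))) (v (nat_lit 7) (k (nat_lit 0x99876))))) (v (nat_lit 6) (a (v (nat_lit 9) (k (nat_lit 0x132840))) (a (v (nat_lit 8) (k (nat_lit 0x98f70))) (v (nat_lit 7) (k (nat_lit 0x98f70))))))))) (v (nat_lit 5) (a (a (v (nat_lit 9) (v (nat_lit 9) (k (nat_lit 0x98c82)))) (v (nat_lit 8) (a (v (nat_lit 9) (k (nat_lit 0x9b2bc))) (v (nat_lit 8) (k (nat_lit 0x98cf4)))))) (a (v (nat_lit 6) (a (a (v (nat_lit 9) (k (nat_lit 0x9b19c))) (v (nat_lit 8) (k (nat_lit 0x9978c)))) (a (v (nat_lit 7) (k (nat_lit 0x5be678)))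 (v (nat_lit 6) (k (nat_lit 0x98de4)))))) (v (nat_lit 5) (a (a (v (nat_lit 9) (k (nat_lit 0x98c8e))) (v (nat_lit 8) (k (nat_lit 0x98c52)))) (a (v (nat_lit 6) (k (nat_lit 0x98382))) (v (nat_lit 5) (k (nat_lit 0x9943e))))))))))) (a (a (t (nat_lit 5) (nat_lit 8) (nat_lit 9) (a (a (u (nat_lit 8) (u (nat_lit 9) (k (nat_lit 0x9941a)))) (v (nat_lit 7) (u (nat_lit 8) (k (nat_lit 0x9ae54))))) (a (v (nat_lit 6) (v (nat_lit 6) (k (nat_lit 0x99018)))) (t (nat_lit 5) (nat_lit 8) (nat_lit 9) (v (nat_lit 6) (k (nat_lit 0xceaa32))))))) (v (nat_lit 4) (a (a (v (nat_lit 9) (v (nat_lit 9) (k (nat_lit 0x98c82)))) (v (nat_lit 7) (a (v (nat_lit 9) (k (nat_lit 0x9b2bc))) (v (nat_lit 7) (k (nat_lit 0x98cf4)))))) (a (v (nat_lit 6) (a (a (v (nat_lit 9) (k (nat_lit 0x9b19c))) (v (nat_lit 8) (k (nat_lit 0x5be678)))) (a (v (nat_lit 7) (k (nat_lit 0x9978c))) (v (nat_lit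 6) (k (nat_lit 0x98de4)))))) (a (v (nat_lit 5) (v (nat_lit 6) (k (nat_lit 0x131aa8)))) (v (nat_lit 4) (a (a (v (nat_lit 9) (k (nat_lit 0x98c8e))) (v (nat_lit 7) (k (nat_lit 0x98c52)))) (a (v (nat_lit 6) (k (nat_lit 0x98382))) (v (nat_lit 4) (k (nat_lit 0x9943e))))))))))) (a (t (nat_lit 4) (nat_lit 7) (nat_lit 9) (a (u (nat_lit 7) (a (u (nat_lit 9) (k (nat_lit 0x9941a))) (v (nat_lit 8) (k (nat_lit 0x9ae54))))) (a (v (nat_lit 6) (v (nat_lit 6) (k (nat_lit 0x99018)))) (t (nat_lit 4) (nat_lit 7) (nat_lit 9) (v (nat_lit 6) (k (nat_lit 0xceaa32))))))) (a (v (nat_lit 3) (a (a (a (v (nat_lit 9) (v (nat_lit 9) (k (nat_lit 0x132ad4)))) (v (nat_lit 8) (v (nat_lit 8) (k (nat_lit 0x99b88))))) (a (v (nat_lit 7) (a (v (nat_lit 8) (k (nat_lit 0x125ebc))) (v (nat_lit 7) (k (nat_lit 0x99b88))))) (v (nat_lit 6) (v (nat_lit 6) (k (nat_lit 0x1319dc)))))) (a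 (a (v (nat_lit 5) (v (nat_lit 7) (k (nat_lit 0xa0ec6)))) (v (nat_lit 4) (a (v (nat_lit 8) (k (nat_lit 0xa0ec6))) (v (nat_lit 5) (k (nat_lit 0x131f88)))))) (a (t (nat_lit 4) (nat_lit 7) (nat_lit 9) (t (nat_lit 5) (nat_lit 8) (nat_lit 9) (k (nat_lit 0x3fb7cc0)))) (v (nat_lit 3) (a (a (a (v (nat_lit 9) (k (nat_lit 0x131bc8))) (v (nat_lit 8) (k (nat_lit 0x988c2)))) (a (v (nat_lit 7) (k (nat_lit 0x988c2))) (a (v (nat_lit 6) (k (nat_lit 0x130e00))) (v (nat_lit 5) (k (nat_lit 0x990f0)))))) (a (a (u (nat_lit 5) (k (nat_lit 0x98d1e))) (a (t (nat_lit 5) (nat_lit 8) (nat_lit 9) (k (nat_lit 0x98e62))) (v (nat_lit 4) (k (nat_lit 0x990f0))))) (a (u (nat_lit 4) (k (nat_lit 0x98d1e))) (a (t (nat_lit 4) (nat_lit 7) (nat_lit 9) (k (nat_lit 0x98e62))) (v (nat_lit 3) (k (nat_lit 0x1319b8)))))))))))) (u (nat_lit 3) (v (nat_lit 3) (v (nat_lit 6) (k (nat_lit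 0x130ec0))))))))))))) (a (a (v (nat_lit 2) (a (a (a (a (u (nat_lit 9) (v (nat_lit 9) (v (nat_lit 9) (k (nat_lit 0x262d70))))) (v (nat_lit 8) (a (u (nat_lit 9) (v (nat_lit 9) (k (nat_lit 0x98d0c)))) (v (nat_lit 8) (u (nat_lit 9) (k (nat_lit 0x98c16))))))) (a (u (nat_lit 8) (v (nat_lit 8) (a (v (nat_lit 9) (k (nat_lit 0x98d90))) (v (nat_lit 8) (k (nat_lit 0x98ce8)))))) (v (nat_lit 7) (a (u (nat_lit 9) (v (nat_lit 9) (k (nat_lit 0x98d0c)))) (a (u (nat_lit 8) (a (v (nat_lit 9) (k (nat_lit 0x98ca6))) (v (nat_lit 8) (k (nat_lit 0x98c82))))) (v (nat_lit 7) (u (nat_lit 9) (k (nat_lit 0x98c16))))))))) (a (a (u (nat_lit 7) (a (v (nat_lit 8) (v (nat_lit 9) (k (nat_lit 0x98ca6)))) (v (nat_lit 7) (a (v (nat_lit 9) (k (nat_lit 0x98d90))) (a (v (nat_lit 8) (k (nat_lit 0x98c82))) (v (nat_lit 7) (k (nat_lit 0x98ce8)))))))) (v (nat_lit 6) (a (u (nat_lit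 9) (v (nat_lit 9) (k (nat_lit 0x13209c)))) (v (nat_lit 6) (u (nat_lit 9) (k (nat_lit 0x131958))))))) (a (u (nat_lit 6) (a (v (nat_lit 8) (a (v (nat_lit 9) (k (nat_lit 0x9e370))) (v (nat_lit 8) (k (nat_lit 0x98cd0))))) (a (v (nat_lit 7) (a (v (nat_lit 9) (k (nat_lit 0x9e370))) (a (v (nat_lit 8) (k (nat_lit 0x13197c))) (v (nat_lit 7) (k (nat_lit 0x98cd0)))))) (v (nat_lit 6) (a (a (v (nat_lit 9) (k (nat_lit 0x13185c))) (v (nat_lit 8) (k (nat_lit 0x9950a)))) (a (v (nat_lit 7) (k (nat_lit 0x9950a))) (v (nat_lit 6) (k (nat_lit 0x131418))))))))) (v (nat_lit 5) (a (a (u (nat_lit 9) (v (nat_lit 9) (k (nat_lit 0x98d0c)))) (a (u (nat_lit 8) (v (nat_lit 9) (k (nat_lit 0x98d36)))) (v (nat_lit 7) (a (u (nat_lit 9) (k (nat_lit 0x130f74))) (u (nat_lit 8) (k (nat_lit 0x980f4))))))) (a (u (nat_lit 7) (v (nat_lit 7) (k (nat_lit 0x99630)))) (a (u (nat_lit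 6) (a (a (v (nat_lit 9) (k (nat_lit 0x98ca6))) (v (nat_lit 8) (k (nat_lit 0x98cdc)))) (a (v (nat_lit 7) (k (nat_lit 0x99396))) (v (nat_lit 6) (k (nat_lit 0x92472)))))) (v (nat_lit 5) (a (u (nat_lit 9) (k (nat_lit 0x98c16))) (a (u (nat_lit 8) (k (nat_lit 0x98cb8))) (u (nat_lit 6) (k (nat_lit 0x98d1e))))))))))))) (a (a (a (u (nat_lit 5) (a (v (nat_lit 8) (a (v (nat_lit 9) (k (nat_lit 0x98d36))) (v (nat_lit 8) (k (nat_lit 0x98cb8))))) (a (v (nat_lit 7) (v (nat_lit 8) (k (nat_lit 0x99228)))) (v (nat_lit 5) (a (v (nat_lit 9) (k (nat_lit 0x98d90))) (a (v (nat_lit 7) (k (nat_lit 0x99630))) (v (nat_lit 5) (k (nat_lit 0x98ce8))))))))) (t (nat_lit 5) (nat_lit 8) (nat_lit 9) (a (u (nat_lit 8) (v (nat_lit 9) (k (nat_lit 0xd44b22)))) (a (u (nat_lit 7) (v (nat_lit 9) (k (nat_lit 0x2a719be)))) (u (nat_lit 5) (a (v (nat_lit 9) (k (nat_lit 0xd44b22)))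 (a (u (nat_lit 8) (k (nat_lit 0x9594720))) (u (nat_lit 6) (k (nat_lit 0xb332380)))))))))) (a (v (nat_lit 4) (a (a (a (u (nat_lit 9) (v (nat_lit 9) (k (nat_lit 0x98d0c)))) (v (nat_lit 8) (u (nat_lit 9) (k (nat_lit 0x130f74))))) (a (u (nat_lit 8) (v (nat_lit 8) (k (nat_lit 0x99630)))) (u (nat_lit 7) (a (v (nat_lit 9) (k (nat_lit 0x98d36))) (v (nat_lit 8) (k (nat_lit 0x980f4))))))) (a (a (u (nat_lit 6) (a (a (v (nat_lit 9) (k (nat_lit 0x98ca6))) (v (nat_lit 8) (k (nat_lit 0x99396)))) (a (v (nat_lit 7) (k (nat_lit 0x98cdc))) (v (nat_lit 6) (k (nat_lit 0x92472)))))) (v (nat_lit 5) (a (u (nat_lit 8) (k (nat_lit 0x99228))) (a (u (nat_lit 7) (k (nat_lit 0x99228))) (u (nat_lit 6) (k (nat_lit 0x126510))))))) (a (u (nat_lit 5) (a (v (nat_lit 9) (k (nat_lit 0x98ca6))) (a (v (nat_lit 8) (k (nat_lit 0x980f4))) (v (nat_lit 5) (k (nat_lit 0x98c82))))))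 (v (nat_lit 4) (a (u (nat_lit 9) (k (nat_lit 0x98c16))) (a (u (nat_lit 7) (k (nat_lit 0x98cb8))) (u (nat_lit 6) (k (nat_lit 0x98d1e)))))))))) (u (nat_lit 4) (a (a (v (nat_lit 7) (a (v (nat_lit 9) (k (nat_lit 0x98d36))) (a (v (nat_lit 8) (k (nat_lit 0x99228))) (v (nat_lit 7) (k (nat_lit 0x98cb8)))))) (v (nat_lit 5) (a (v (nat_lit 9) (k (nat_lit 0x98ca6))) (v (nat_lit 7) (k (nat_lit 0x980f4)))))) (a (t (nat_lit 5) (nat_lit 8) (nat_lit 9) (v (nat_lit 9) (k (nat_lit 0x2a719be)))) (v (nat_lit 4) (a (a (v (nat_lit 9) (k (nat_lit 0x98d90))) (v (nat_lit 8) (k (nat_lit 0x99630)))) (a (v (nat_lit 5) (k (nat_lit 0x98c82))) (v (nat_lit 4) (k (nat_lit 0x98ce8))))))))))) (a (a (t (nat_lit 4) (nat_lit 7) (nat_lit 9) (a (a (u (nat_lit 8) (v (nat_lit 9) (k (nat_lit 0x2a719be)))) (u (nat_lit 7) (v (nat_lit 9) (k (nat_lit 0xd44b22))))) (a (u (nat_lit 5)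 (v (nat_lit 9) (k (nat_lit 0x2a719be)))) (u (nat_lit 4) (a (v (nat_lit 9) (k (nat_lit 0xd44b22))) (a (u (nat_lit 7) (k (nat_lit 0x9594720))) (u (nat_lit 6) (k (nat_lit 0xb332380))))))))) (v (nat_lit 3) (a (u (nat_lit 9) (v (nat_lit 9) (k (nat_lit 0x13209c)))) (a (u (nat_lit 6) (a (v (nat_lit 9) (k (nat_lit 0x131844))) (a (v (nat_lit 8) (k (nat_lit 0x98d24))) (v (nat_lit 7) (k (nat_lit 0x98d24)))))) (v (nat_lit 3) (a (u (nat_lit 9) (k (nat_lit 0x131958))) (u (nat_lit 6) (k (nat_lit 0x131a6c))))))))) (a (u (nat_lit 3) (a (a (a (v (nat_lit 8) (a (v (nat_lit 9) (k (nat_lit 0x98ca6))) (v (nat_lit 8) (k (nat_lit 0x98d1e))))) (v (nat_lit 7) (a (v (nat_lit 9) (k (nat_lit 0x98ca6))) (a (v (nat_lit 8) (k (nat_lit 0x126510))) (v (nat_lit 7) (k (nat_lit 0x98d1e))))))) (a (v (nat_lit 6) (a (v (nat_lit 9) (k (nat_lit 0x131844))) (v (nat_lit 6) (k (nat_lit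 0x131a6c))))) (v (nat_lit 5) (a (a (v (nat_lit 9) (k (nat_lit 0x9e370))) (v (nat_lit 8) (k (nat_lit 0x98cdc)))) (a (v (nat_lit 7) (k (nat_lit 0x99396))) (a (v (nat_lit 6) (k (nat_lit 0x98d24))) (v (nat_lit 5) (k (nat_lit 0x98cd0))))))))) (a (a (t (nat_lit 5) (nat_lit 8) (nat_lit 9) (u (nat_lit 8) (k (nat_lit 0xb332380)))) (v (nat_lit 4) (a (a (v (nat_lit 9) (k (nat_lit 0x9e370))) (a (v (nat_lit 8) (k (nat_lit 0x99396))) (v (nat_lit 7) (k (nat_lit 0x98cdc))))) (a (v (nat_lit 6) (k (nat_lit 0x98d24))) (a (v (nat_lit 5) (k (nat_lit 0x13197c))) (v (nat_lit 4) (k (nat_lit 0x98cd0)))))))) (a (t (nat_lit 4) (nat_lit 7) (nat_lit 9) (u (nat_lit 7) (k (nat_lit 0xb332380)))) (v (nat_lit 3) (a (a (v (nat_lit 9) (k (nat_lit 0x13185c))) (a (v (nat_lit 8) (k (nat_lit 0x92472))) (v (nat_lit 7) (k (nat_lit 0x92472))))) (a (v (nat_lit 5) (k (nat_lit 0x9950a)))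 (a (v (nat_lit 4) (k (nat_lit 0x9950a))) (v (nat_lit 3) (k (nat_lit 0x131418))))))))))) (v (nat_lit 2) (a (a (a (u (nat_lit 9) (v (nat_lit 9) (k (nat_lit 0x2647b0)))) (a (v (nat_lit 8) (u (nat_lit 9) (k (nat_lit 0x9e12a)))) (u (nat_lit 8) (v (nat_lit 8) (k (nat_lit 0x98cd0)))))) (a (a (v (nat_lit 7) (a (u (nat_lit 9) (k (nat_lit 0x9e12a))) (u (nat_lit 8) (k (nat_lit 0x93768))))) (u (nat_lit 7) (a (v (nat_lit 8) (k (nat_lit 0x93768))) (v (nat_lit 7) (k (nat_lit 0x98cd0)))))) (a (v (nat_lit 6) (u (nat_lit 9) (k (nat_lit 0x131a3c)))) (u (nat_lit 6) (a (v (nat_lit 8) (k (nat_lit 0x98c6a))) (a (v (nat_lit 7) (k (nat_lit 0x98c6a))) (v (nat_lit 6) (k (nat_lit 0x131b8c))))))))) (a (a (v (nat_lit 5) (a (a (u (nat_lit 9) (k (nat_lit 0x9e12a))) (u (nat_lit 8) (k (nat_lit 0x98cf4)))) (a (u (nat_lit 7) (k (nat_lit 0x98cc4))) (u (nat_lit 6) (k (nat_lit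 0x98d90)))))) (a (u (nat_lit 5) (a (v (nat_lit 8) (k (nat_lit 0x98cf4))) (a (v (nat_lit 7) (k (nat_lit 0x98cc4))) (v (nat_lit 5) (k (nat_lit 0x98cd0)))))) (v (nat_lit 4) (a (a (u (nat_lit 9) (k (nat_lit 0x9e12a))) (u (nat_lit 8) (k (nat_lit 0x98cc4)))) (a (u (nat_lit 7) (k (nat_lit 0x98cf4))) (a (u (nat_lit 6) (k (nat_lit 0x98d90))) (u (nat_lit 5) (k (nat_lit 0x93768))))))))) (a (a (u (nat_lit 4) (a (a (v (nat_lit 8) (k (nat_lit 0x98cc4))) (v (nat_lit 7) (k (nat_lit 0x98cf4)))) (a (v (nat_lit 5) (k (nat_lit 0x93768))) (v (nat_lit 4) (k (nat_lit 0x98cd0)))))) (v (nat_lit 3) (a (u (nat_lit 9) (k (nat_lit 0x131a3c))) (u (nat_lit 6) (k (nat_lit 0x131dc0)))))) (a (u (nat_lit 3) (a (a (v (nat_lit 8) (k (nat_lit 0x98d90))) (a (v (nat_lit 7) (k (nat_lit 0x98d90))) (v (nat_lit 6) (k (nat_lit 0x131dc0))))) (a (v (nat_lit 5) (k (nat_lit 0x98c6a)))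 (a (v (nat_lit 4) (k (nat_lit 0x98c6a))) (v (nat_lit 3) (k (nat_lit 0x131b8c))))))) (v (nat_lit 2) (u (nat_lit 9) (k (nat_lit 0x263640)))))))))))))) (a (u (nat_lit 2) (a (a (a (v (nat_lit 7) (a (v (nat_lit 8) (a (v (nat_lit 9) (k (nat_lit 0x131b38))) (v (nat_lit 8) (k (nat_lit 0x98dde))))) (v (nat_lit 7) (v (nat_lit 8) (k (nat_lit 0x98dde)))))) (a (v (nat_lit 6) (a (a (u (nat_lit 9) (v (nat_lit 9) (k (nat_lit 0x133c98)))) (v (nat_lit 8) (v (nat_lit 9) (k (nat_lit 0x93d68))))) (a (v (nat_lit 7) (v (nat_lit 9) (k (nat_lit 0x93d68)))) (v (nat_lit 6) (a (v (nat_lit 8) (k (nat_lit 0x98904))) (v (nat_lit 7) (k (nat_lit 0x98904)))))))) (u (nat_lit 6) (a (v (nat_lit 9) (v (nat_lit 9) (k (nat_lit 0x130c68)))) (v (nat_lit 6) (a (u (nat_lit 9) (k (nat_lit 0x2fa1146c))) (a (v (nat_lit 8) (k (nat_lit 0x9a6c2))) (v (nat_lit 7) (k (nat_lit 0x9a6c2))))))))))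 (a (v (nat_lit 5) (a (v (nat_lit 7) (a (v (nat_lit 9) (k (nat_lit 0x1325d0))) (a (v (nat_lit 8) (k (nat_lit 0x993cc))) (v (nat_lit 7) (k (nat_lit 0x98448)))))) (a (v (nat_lit 6) (v (nat_lit 6) (k (nat_lit 0x9f9d2)))) (v (nat_lit 5) (v (nat_lit 7) (k (nat_lit 0x98448))))))) (a (u (nat_lit 5) (a (v (nat_lit 6) (a (u (nat_lit 9) (k (nat_lit 0xf94ff6e))) (v (nat_lit 7) (k (nat_lit 0x99a3e))))) (v (nat_lit 5) (v (nat_lit 6) (k (nat_lit 0x997e6)))))) (v (nat_lit 4) (a (a (v (nat_lit 8) (a (v (nat_lit 9) (k (nat_lit 0x1325d0))) (v (nat_lit 8) (k (nat_lit 0x98448))))) (a (v (nat_lit 7) (v (nat_lit 8) (k (nat_lit 0x993cc)))) (v (nat_lit 6) (v (nat_lit 6) (k (nat_lit 0x9f9d2)))))) (a (a (v (nat_lit 5) (a (a (v (nat_lit 9) (k (nat_lit 0x131b38))) (v (nat_lit 8) (k (nat_lit 0x993cc)))) (a (v (nat_lit 7) (k (nat_lit 0x993cc))) (v (nat_lit 5) (k (nat_lit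 0x98dde)))))) (u (nat_lit 5) (v (nat_lit 6) (k (nat_lit 0x93ba6))))) (a (t (nat_lit 5) (nat_lit 8) (nat_lit 9) (u (nat_lit 7) (k (nat_lit 0x994e0)))) (v (nat_lit 4) (a (v (nat_lit 8) (k (nat_lit 0x98448))) (v (nat_lit 5) (k (nat_lit 0x98dde)))))))))))) (a (a (u (nat_lit 4) (a (a (v (nat_lit 6) (a (u (nat_lit 9) (k (nat_lit 0xf94ff6e))) (v (nat_lit 8) (k (nat_lit 0x99a3e))))) (v (nat_lit 5) (v (nat_lit 6) (k (nat_lit 0x93ba6))))) (a (t (nat_lit 5) (nat_lit 8) (nat_lit 9) (v (nat_lit 7) (k (nat_lit 0x994e0)))) (v (nat_lit 4) (v (nat_lit 6) (k (nat_lit 0x997e6))))))) (a (t (nat_lit 4) (nat_lit 7) (nat_lit 9) (a (v (nat_lit 5) (u (nat_lit 8) (k (nat_lit 0x994e0)))) (a (u (nat_lit 5) (v (nat_lit 8) (k (nat_lit 0x994e0)))) (t (nat_lit 5) (nat_lit 8) (nat_lit 9) (v (nat_lit 6) (k (nat_lit 0x7ba7a84))))))) (v (nat_lit 3) (a (a (a (u (nat_lit 9)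 (v (nat_lit 9) (k (nat_lit 0x133c98)))) (u (nat_lit 8) (a (u (nat_lit 9) (k (nat_lit 0xf94ff6e))) (v (nat_lit 8) (k (nat_lit 0x997e6)))))) (a (v (nat_lit 7) (u (nat_lit 8) (k (nat_lit 0x93ba6)))) (u (nat_lit 7) (a (u (nat_lit 9) (k (nat_lit 0xf94ff6e))) (a (v (nat_lit 8) (k (nat_lit 0x93ba6))) (v (nat_lit 7) (k (nat_lit 0x997e6)))))))) (a (a (u (nat_lit 6) (u (nat_lit 9) (k (nat_lit 0xe244b7c)))) (v (nat_lit 5) (a (v (nat_lit 9) (k (nat_lit 0x93d68))) (u (nat_lit 7) (k (nat_lit 0x99a3e)))))) (a (v (nat_lit 4) (a (v (nat_lit 9) (k (nat_lit 0x93d68))) (u (nat_lit 8) (k (nat_lit 0x99a3e))))) (a (t (nat_lit 4) (nat_lit 7) (nat_lit 9) (t (nat_lit 5) (nat_lit 8) (nat_lit 9) (k (nat_lit 0x7ba7a84)))) (v (nat_lit 3) (a (a (v (nat_lit 8) (k (nat_lit 0x9f9d2))) (v (nat_lit 7) (k (nat_lit 0x9f9d2)))) (a (v (nat_lit 5) (k (nat_lit 0x98904))) (v (nat_lit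 4) (k (nat_lit 0x98904))))))))))))) (a (u (nat_lit 3) (a (a (v (nat_lit 9) (v (nat_lit 9) (k (nat_lit 0x130c68)))) (v (nat_lit 6) (u (nat_lit 9) (k (nat_lit 0xe244b7c))))) (a (u (nat_lit 6) (v (nat_lit 6) (k (nat_lit 0x132aa4)))) (v (nat_lit 3) (a (a (u (nat_lit 9) (k (nat_lit 0x2fa1146c))) (u (nat_lit 6) (k (nat_lit 0x132aa4)))) (a (v (nat_lit 5) (k (nat_lit 0x9a6c2))) (v (nat_lit 4) (k (nat_lit 0x9a6c2))))))))) (a (v (nat_lit 2) (a (a (a (v (nat_lit 9) (v (nat_lit 9) (k (nat_lit 0x261cf0)))) (v (nat_lit 8) (v (nat_lit 9) (k (nat_lit 0x938e2))))) (a (v (nat_lit 7) (a (v (nat_lit 9) (k (nat_lit 0x938e2))) (v (nat_lit 8) (k (nat_lit 0x13c5c0))))) (v (nat_lit 6) (a (u (nat_lit 8) (k (nat_lit 0x9902a))) (a (u (nat_lit 7) (k (nat_lit 0x9902a))) (v (nat_lit 6) (k (nat_lit 0x39cc8cc4)))))))) (a (a (v (nat_lit 5) (a (v (nat_lit 9) (k (nat_lit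 0x938e2))) (v (nat_lit 8) (k (nat_lit 0x131ac0))))) (v (nat_lit 4) (a (v (nat_lit 9) (k (nat_lit 0x938e2))) (a (v (nat_lit 7) (k (nat_lit 0x131ac0))) (v (nat_lit 5) (k (nat_lit 0x13c5c0))))))) (a (v (nat_lit 3) (a (a (v (nat_lit 6) (k (nat_lit 0x263bf8))) (u (nat_lit 5) (k (nat_lit 0x9902a)))) (a (u (nat_lit 4) (k (nat_lit 0x9902a))) (v (nat_lit 3) (k (nat_lit 0x39cc8cc4)))))) (v (nat_lit 2) (a (a (a (v (nat_lit 9) (k (nat_lit 0x2628d8))) (v (nat_lit 8) (k (nat_lit 0x98dcc)))) (a (v (nat_lit 7) (k (nat_lit 0x98dcc))) (v (nat_lit 6) (k (nat_lit 0x1312b0))))) (a (a (v (nat_lit 5) (k (nat_lit 0x98dcc))) (v (nat_lit 4) (k (nat_lit 0x98dcc)))) (a (v (nat_lit 3) (k (nat_lit 0x1312b0))) (v (nat_lit 2) (k (nat_lit 0x263268))))))))))) (u (nat_lit 2) (a (a (v (nat_lit 6) (u (nat_lit 9) (k (nat_lit 0x1323cc)))) (a (t (nat_lit 5) (nat_lit 8) (nat_lit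 9) (a (u (nat_lit 9) (k (nat_lit 0xd3d6c88))) (v (nat_lit 7) (k (nat_lit 0xd675a4))))) (v (nat_lit 4) (t (nat_lit 5) (nat_lit 8) (nat_lit 9) (k (nat_lit 0xd675a4)))))) (a (t (nat_lit 4) (nat_lit 7) (nat_lit 9) (a (a (u (nat_lit 9) (k (nat_lit 0xd3d6c88))) (v (nat_lit 8) (k (nat_lit 0xd675a4)))) (a (v (nat_lit 5) (k (nat_lit 0xd675a4))) (t (nat_lit 5) (nat_lit 8) (nat_lit 9) (k (nat_lit 0x1da2790)))))) (a (v (nat_lit 3) (u (nat_lit 9) (k (nat_lit 0x1323cc)))) (v (nat_lit 2) (a (t (nat_lit 5) (nat_lit 8) (nat_lit 9) (k (nat_lit 0x131ea4))) (t (nat_lit 4) (nat_lit 7) (nat_lit 9) (k (nat_lit 0x131ea4)))))))))))))) (v (nat_lit 1) (a (a (a (a (u (nat_lit 9) (a (v (nat_lit 9) (v (nat_lit 9) (k (nat_lit 0x131844)))) (u (nat_lit 9) (v (nat_lit 9) (k (nat_lit 0xea81b4)))))) (u (nat_lit 8) (a (v (nat_lit 9) (v (nat_lit 9) (k (nat_lit 0x98cd0))))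 (v (nat_lit 8) (a (v (nat_lit 9) (k (nat_lit 0x999ea))) (v (nat_lit 8) (k (nat_lit 0x9919e)))))))) (a (v (nat_lit 7) (a (a (u (nat_lit 9) (v (nat_lit 9) (k (nat_lit 0x9ada6)))) (v (nat_lit 8) (u (nat_lit 9) (k (nat_lit 0x9767a))))) (a (u (nat_lit 8) (a (v (nat_lit 9) (k (nat_lit 0x9afaa))) (v (nat_lit 8) (k (nat_lit 0x992a0))))) (v (nat_lit 7) (a (u (nat_lit 9) (k (nat_lit 0x98856))) (u (nat_lit 8) (k (nat_lit 0x99084)))))))) (u (nat_lit 7) (v (nat_lit 7) (v (nat_lit 7) (k (nat_lit 0x130f68))))))) (a (a (u (nat_lit 6) (a (a (v (nat_lit 9) (v (nat_lit 9) (k (nat_lit 0x993c0)))) (v (nat_lit 8) (a (v (nat_lit 9) (k (nat_lit 0x9991e))) (v (nat_lit 8) (k (nat_lit 0x9933c)))))) (a (v (nat_lit 7) (a (v (nat_lit 9) (k (nat_lit 0x4e4c6ce))) (a (v (nat_lit 8) (k (nat_lit 0x98f22))) (v (nat_lit 7) (k (nat_lit 0x99030)))))) (v (nat_lit 6) (a (a (v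 (nat_lit 9) (k (nat_lit 0x991fe))) (v (nat_lit 8) (k (nat_lit 0x991b6)))) (a (v (nat_lit 7) (k (nat_lit 0x98fdc))) (v (nat_lit 6) (k (nat_lit 0x99048))))))))) (v (nat_lit 5) (a (a (u (nat_lit 8) (v (nat_lit 9) (k (nat_lit 0x9909c)))) (v (nat_lit 7) (a (u (nat_lit 9) (k (nat_lit 0x98f1c))) (u (nat_lit 8) (k (nat_lit 0x9c318)))))) (a (u (nat_lit 6) (a (a (v (nat_lit 9) (k (nat_lit 0x9a878))) (v (nat_lit 8) (k (nat_lit 0x99234)))) (a (v (nat_lit 7) (k (nat_lit 0x9918c))) (v (nat_lit 6) (k (nat_lit 0x99192)))))) (v (nat_lit 5) (a (u (nat_lit 8) (k (nat_lit 0x98efe))) (u (nat_lit 6) (k (nat_lit 0x98f1c))))))))) (a (u (nat_lit 5) (a (a (v (nat_lit 9) (v (nat_lit 9) (k (nat_lit 0x98cd0)))) (v (nat_lit 8) (a (v (nat_lit 9) (k (nat_lit 0x9909c))) (v (nat_lit 8) (k (nat_lit 0x98efe)))))) (a (v (nat_lit 7) (a (v (nat_lit 8) (k (nat_lit 0x95c64)))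 (v (nat_lit 7) (k (nat_lit 0x98e14))))) (v (nat_lit 5) (a (v (nat_lit 9) (k (nat_lit 0x999ea))) (a (v (nat_lit 7) (k (nat_lit 0x99924))) (v (nat_lit 5) (k (nat_lit 0x9919e))))))))) (t (nat_lit 5) (nat_lit 8) (nat_lit 9) (a (u (nat_lit 9) (u (nat_lit 9) (k (nat_lit 0x131df0)))) (a (u (nat_lit 8) (u (nat_lit 9) (k (nat_lit 0x98f64)))) (u (nat_lit 5) (u (nat_lit 9) (k (nat_lit 0x98f64)))))))))) (a (a (a (v (nat_lit 4) (a (a (a (u (nat_lit 9) (v (nat_lit 9) (k (nat_lit 0x9ada6)))) (v (nat_lit 8) (u (nat_lit 9) (k (nat_lit 0x98f1c))))) (a (u (nat_lit 8) (v (nat_lit 8) (k (nat_lit 0x99924)))) (u (nat_lit 7) (a (v (nat_lit 9) (k (nat_lit 0x9b19c))) (a (v (nat_lit 8) (k (nat_lit 0x96714))) (u (nat_lit 8) (k (nat_lit 0x96150)))))))) (a (a (u (nat_lit 6) (a (a (v (nat_lit 9) (k (nat_lit 0x9992a))) (v (nat_lit 8) (k (nat_lit 0x9565e)))) (a (v (nat_lit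 7) (k (nat_lit 0x9ac98))) (v (nat_lit 6) (k (nat_lit 0x9c4d4)))))) (v (nat_lit 5) (a (u (nat_lit 9) (k (nat_lit 0x9767a))) (a (u (nat_lit 8) (k (nat_lit 0x95c64))) (u (nat_lit 6) (k (nat_lit 0x989be))))))) (a (u (nat_lit 5) (a (v (nat_lit 9) (k (nat_lit 0x9afaa))) (a (v (nat_lit 8) (k (nat_lit 0x9c318))) (v (nat_lit 5) (k (nat_lit 0x992a0)))))) (a (t (nat_lit 5) (nat_lit 8) (nat_lit 9) (u (nat_lit 7) (k (nat_lit 0x993de)))) (v (nat_lit 4) (a (a (u (nat_lit 9) (k (nat_lit 0x98856))) (u (nat_lit 8) (k (nat_lit 0x98e14)))) (a (u (nat_lit 7) (k (nat_lit 0x988f8))) (a (u (nat_lit 6) (k (nat_lit 0x98e80))) (u (nat_lit 5) (k (nat_lit 0x99084)))))))))))) (u (nat_lit 4) (a (a (v (nat_lit 7) (a (v (nat_lit 9) (k (nat_lit 0x9b19c))) (v (nat_lit 7) (k (nat_lit 0x988f8))))) (a (v (nat_lit 6) (v (nat_lit 8) (k (nat_lit 0x9cc18)))) (v (nat_lit 5) (v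 (nat_lit 7) (k (nat_lit 0x96714)))))) (a (u (nat_lit 5) (v (nat_lit 7) (k (nat_lit 0x96150)))) (a (t (nat_lit 5) (nat_lit 8) (nat_lit 9) (v (nat_lit 7) (k (nat_lit 0x993de)))) (v (nat_lit 4) (v (nat_lit 4) (k (nat_lit 0x130f68))))))))) (a (t (nat_lit 4) (nat_lit 7) (nat_lit 9) (a (u (nat_lit 7) (v (nat_lit 9) (k (nat_lit 0x5adb41a)))) (a (u (nat_lit 5) (u (nat_lit 6) (k (nat_lit 0x9955e)))) (u (nat_lit 4) (a (v (nat_lit 9) (k (nat_lit 0x5adb41a))) (a (u (nat_lit 7) (k (nat_lit 0x4753e00))) (u (nat_lit 6) (k (nat_lit 0x2c7a14))))))))) (v (nat_lit 3) (a (a (v (nat_lit 6) (a (u (nat_lit 9) (k (nat_lit 0x132fe4))) (a (u (nat_lit 8) (k (nat_lit 0x9d46a))) (u (nat_lit 7) (k (nat_lit 0x94ce0)))))) (a (u (nat_lit 6) (a (a (v (nat_lit 9) (k (nat_lit 0x57e9cd0))) (v (nat_lit 8) (k (nat_lit 0x997a4)))) (a (v (nat_lit 7) (k (nat_lit 0x9c41a))) (a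 (u (nat_lit 7) (k (nat_lit 0x994fe))) (v (nat_lit 6) (k (nat_lit 0x98f8e))))))) (v (nat_lit 5) (a (u (nat_lit 7) (k (nat_lit 0x9cc18))) (u (nat_lit 6) (k (nat_lit 0x945fc))))))) (a (a (u (nat_lit 5) (a (v (nat_lit 6) (k (nat_lit 0x9d46a))) (u (nat_lit 6) (k (nat_lit 0x9c0ea))))) (v (nat_lit 4) (u (nat_lit 6) (k (nat_lit 0x99ffc))))) (a (u (nat_lit 4) (a (v (nat_lit 6) (k (nat_lit 0x94ce0))) (u (nat_lit 6) (k (nat_lit 0x9f1ec))))) (v (nat_lit 3) (u (nat_lit 6) (k (nat_lit 0x99456)))))))))) (a (a (u (nat_lit 3) (a (a (a (v (nat_lit 9) (v (nat_lit 9) (k (nat_lit 0x993c0)))) (v (nat_lit 8) (a (v (nat_lit 9) (k (nat_lit 0x9a878))) (v (nat_lit 8) (k (nat_lit 0x98f1c)))))) (a (v (nat_lit 7) (a (v (nat_lit 9) (k (nat_lit 0x9992a))) (a (v (nat_lit 8) (k (nat_lit 0x989be))) (v (nat_lit 7) (k (nat_lit 0x98e80)))))) (v (nat_lit 6) (a (a (v (nat_lit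 9) (k (nat_lit 0x57e9cd0))) (a (v (nat_lit 8) (k (nat_lit 0x945fc))) (u (nat_lit 8) (k (nat_lit 0x9c0ea))))) (a (v (nat_lit 7) (k (nat_lit 0x99ffc))) (a (u (nat_lit 7) (k (nat_lit 0x9f1ec))) (v (nat_lit 6) (k (nat_lit 0x99456))))))))) (a (a (v (nat_lit 5) (a (a (v (nat_lit 9) (k (nat_lit 0x9991e))) (v (nat_lit 8) (k (nat_lit 0x99234)))) (a (v (nat_lit 7) (k (nat_lit 0x9565e))) (a (v (nat_lit 6) (k (nat_lit 0x997a4))) (v (nat_lit 5) (k (nat_lit 0x9933c))))))) (v (nat_lit 4) (a (a (v (nat_lit 9) (k (nat_lit 0x4e4c6ce))) (a (v (nat_lit 8) (k (nat_lit 0x9918c))) (v (nat_lit 7) (k (nat_lit 0x9ac98))))) (a (v (nat_lit 6) (k (nat_lit 0x9c41a))) (a (v (nat_lit 5) (k (nat_lit 0x98f22))) (v (nat_lit 4) (k (nat_lit 0x99030)))))))) (a (u (nat_lit 4) (v (nat_lit 6) (k (nat_lit 0x994fe)))) (a (t (nat_lit 4) (nat_lit 7) (nat_lit 9) (a (u (nat_lit 8)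 (k (nat_lit 0x9955e))) (a (u (nat_lit 7) (k (nat_lit 0x2c7a14))) (u (nat_lit 6) (k (nat_lit 0x5fd78cc)))))) (v (nat_lit 3) (a (a (v (nat_lit 9) (k (nat_lit 0x991fe))) (a (v (nat_lit 8) (k (nat_lit 0x99192))) (v (nat_lit 7) (k (nat_lit 0x9c4d4))))) (a (a (v (nat_lit 6) (k (nat_lit 0x98f8e))) (v (nat_lit 5) (k (nat_lit 0x991b6)))) (a (v (nat_lit 4) (k (nat_lit 0x98fdc))) (v (nat_lit 3) (k (nat_lit 0x99048)))))))))))) (v (nat_lit 2) (a (a (a (u (nat_lit 9) (v (nat_lit 9) (k (nat_lit 0x132438)))) (v (nat_lit 7) (u (nat_lit 8) (k (nat_lit 0x94710))))) (a (u (nat_lit 7) (a (v (nat_lit 9) (k (nat_lit 0x9b034))) (v (nat_lit 7) (k (nat_lit 0x991c2))))) (a (v (nat_lit 6) (a (u (nat_lit 9) (k (nat_lit 0x98f2e))) (a (u (nat_lit 8) (k (nat_lit 0x98f4c))) (u (nat_lit 7) (k (nat_lit 0x98fd0)))))) (v (nat_lit 5) (u (nat_lit 7) (k (nat_lit 0x9b00a)))))))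 (a (a (u (nat_lit 5) (a (v (nat_lit 7) (k (nat_lit 0x96dc2))) (v (nat_lit 6) (k (nat_lit 0x98f04))))) (a (v (nat_lit 4) (a (u (nat_lit 8) (k (nat_lit 0x96dc2))) (a (u (nat_lit 7) (k (nat_lit 0x9b80e))) (u (nat_lit 5) (k (nat_lit 0x94710)))))) (u (nat_lit 4) (a (a (v (nat_lit 9) (k (nat_lit 0x9b034))) (v (nat_lit 8) (k (nat_lit 0x9b00a)))) (a (v (nat_lit 7) (k (nat_lit 0x9b80e))) (a (v (nat_lit 6) (k (nat_lit 0x98394))) (v (nat_lit 4) (k (nat_lit 0x991c2))))))))) (a (v (nat_lit 3) (a (a (u (nat_lit 9) (k (nat_lit 0x98f2e))) (a (u (nat_lit 8) (k (nat_lit 0x98f04))) (u (nat_lit 7) (k (nat_lit 0x98394))))) (a (u (nat_lit 6) (k (nat_lit 0x99fcc))) (a (u (nat_lit 5) (k (nat_lit 0x98f4c))) (u (nat_lit 4) (k (nat_lit 0x98fd0))))))) (a (u (nat_lit 3) (v (nat_lit 6) (k (nat_lit 0x99fcc)))) (v (nat_lit 2) (a (a (u (nat_lit 9) (k (nat_lit 0x1340f4)))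 (a (u (nat_lit 8) (k (nat_lit 0x178cb954))) (u (nat_lit 7) (k (nat_lit 0x74dc648))))) (a (a (u (nat_lit 6) (k (nat_lit 0x1177db44))) (u (nat_lit 5) (k (nat_lit 0x178cb954)))) (a (u (nat_lit 4) (k (nat_lit 0x74dc648))) (u (nat_lit 3) (k (nat_lit 0x1177db44))))))))))))) (a (u (nat_lit 2) (a (a (a (v (nat_lit 8) (a (v (nat_lit 9) (k (nat_lit 0x99c9c))) (v (nat_lit 8) (k (nat_lit 0x99240))))) (a (v (nat_lit 7) (a (v (nat_lit 9) (k (nat_lit 0x96fa2))) (v (nat_lit 8) (k (nat_lit 0x9c76e))))) (u (nat_lit 7) (a (u (nat_lit 9) (k (nat_lit 0x9a872))) (a (u (nat_lit 8) (k (nat_lit 0x99df2))) (v (nat_lit 7) (k (nat_lit 0x99d02)))))))) (a (a (v (nat_lit 6) (v (nat_lit 6) (k (nat_lit 0x98ee0)))) (u (nat_lit 6) (a (u (nat_lit 9) (k (nat_lit 0x9ad8e))) (a (v (nat_lit 8) (k (nat_lit 0x422be3c))) (v (nat_lit 7) (k (nat_lit 0xc7ada50))))))) (a (v (nat_lit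 5) (a (v (nat_lit 9) (k (nat_lit 0x99c9c))) (a (v (nat_lit 8) (k (nat_lit 0x13215c))) (v (nat_lit 5) (k (nat_lit 0x99240)))))) (t (nat_lit 5) (nat_lit 8) (nat_lit 9) (u (nat_lit 9) (k (nat_lit 0x132114))))))) (a (a (v (nat_lit 4) (a (v (nat_lit 9) (k (nat_lit 0x96fa2))) (a (v (nat_lit 7) (k (nat_lit 0x12cf0c))) (v (nat_lit 5) (k (nat_lit 0x9c76e)))))) (a (u (nat_lit 4) (a (u (nat_lit 9) (k (nat_lit 0x9a872))) (a (u (nat_lit 5) (k (nat_lit 0x99df2))) (v (nat_lit 4) (k (nat_lit 0x99d02)))))) (t (nat_lit 4) (nat_lit 7) (nat_lit 9) (v (nat_lit 9) (k (nat_lit 0xaada794)))))) (a (a (v (nat_lit 3) (a (v (nat_lit 6) (k (nat_lit 0x130248))) (v (nat_lit 3) (k (nat_lit 0x98ee0))))) (u (nat_lit 3) (a (u (nat_lit 9) (k (nat_lit 0x9ad8e))) (a (v (nat_lit 5) (k (nat_lit 0x422be3c))) (v (nat_lit 4) (k (nat_lit 0xc7ada50))))))) (a (v (nat_lit 2) (a (a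 (v (nat_lit 7) (k (nat_lit 0x9b5f8))) (v (nat_lit 6) (k (nat_lit 0x98fd0)))) (a (v (nat_lit 4) (k (nat_lit 0x9b5f8))) (a (v (nat_lit 3) (k (nat_lit 0x98fd0))) (v (nat_lit 2) (k (nat_lit 0x263904))))))) (u (nat_lit 2) (a (a (v (nat_lit 9) (k (nat_lit 0x133620))) (v (nat_lit 8) (k (nat_lit 0x9c270)))) (a (v (nat_lit 5) (k (nat_lit 0x9c270))) (t (nat_lit 4) (nat_lit 7) (nat_lit 9) (k (nat_lit 0x2ad65c0))))))))))) (v (nat_lit 1) (a (a (a (u (nat_lit 9) (v (nat_lit 9) (k (nat_lit 0x1339b0)))) (a (v (nat_lit 8) (u (nat_lit 9) (k (nat_lit 0x98b86)))) (u (nat_lit 8) (v (nat_lit 8) (k (nat_lit 0x9928e)))))) (a (u (nat_lit 7) (a (v (nat_lit 9) (k (nat_lit 0x97f14))) (v (nat_lit 7) (k (nat_lit 0x999c0))))) (a (v (nat_lit 6) (u (nat_lit 7) (k (nat_lit 0x9a74c)))) (v (nat_lit 5) (a (u (nat_lit 9) (k (nat_lit 0x98b86))) (a (u (nat_lit 8) (k (nat_lit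 0x98f28))) (u (nat_lit 7) (k (nat_lit 0x99468))))))))) (a (a (u (nat_lit 5) (a (a (v (nat_lit 8) (k (nat_lit 0x98f28))) (v (nat_lit 7) (k (nat_lit 0x980fa)))) (a (u (nat_lit 6) (k (nat_lit 0x98f34))) (v (nat_lit 5) (k (nat_lit 0x9928e)))))) (a (v (nat_lit 4) (u (nat_lit 8) (k (nat_lit 0x980fa)))) (u (nat_lit 4) (a (v (nat_lit 9) (k (nat_lit 0x97f14))) (a (v (nat_lit 8) (k (nat_lit 0x99468))) (v (nat_lit 4) (k (nat_lit 0x999c0)))))))) (a (a (v (nat_lit 3) (a (u (nat_lit 6) (k (nat_lit 0x99aa4))) (u (nat_lit 4) (k (nat_lit 0x9a74c))))) (u (nat_lit 3) (a (u (nat_lit 8) (k (nat_lit 0x98f34))) (v (nat_lit 6) (k (nat_lit 0x99aa4)))))) (a (u (nat_lit 2) (v (nat_lit 2) (k (nat_lit 0x1319f4)))) (v (nat_lit 1) (a (u (nat_lit 6) (k (nat_lit 0x98c6a))) (a (u (nat_lit 3) (k (nat_lit 0x98c6a))) (u (nat_lit 2) (k (nat_lit 0x131c64)))))))))))))))))) (a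 (u (nat_lit 1) (a (a (a (u (nat_lit 9) (v (nat_lit 9) (v (nat_lit 9) (k (nat_lit 0x131ad8))))) (a (u (nat_lit 7) (v (nat_lit 7) (v (nat_lit 7) (k (nat_lit 0x99000))))) (v (nat_lit 6) (u (nat_lit 8) (u (nat_lit 9) (k (nat_lit 0x99abc))))))) (a (a (u (nat_lit 6) (u (nat_lit 9) (v (nat_lit 9) (k (nat_lit 0x985e6))))) (u (nat_lit 5) (v (nat_lit 5) (v (nat_lit 7) (k (nat_lit 0x99180)))))) (a (t (nat_lit 5) (nat_lit 8) (nat_lit 9) (a (u (nat_lit 8) (a (v (nat_lit 9) (k (nat_lit 0x60be5cc))) (u (nat_lit 8) (k (nat_lit 0x1fafc76))))) (a (v (nat_lit 6) (v (nat_lit 6) (k (nat_lit 0x3f661aa)))) (u (nat_lit 5) (a (v (nat_lit 9) (k (nat_lit 0x60be5cc))) (a (u (nat_lit 8) (k (nat_lit 0x7fdd090))) (u (nat_lit 5) (k (nat_lit 0x1fafc76))))))))) (v (nat_lit 4) (a (a (u (nat_lit 8) (v (nat_lit 8) (k (nat_lit 0x99180)))) (u (nat_lit 7) (v (nat_lit 9) (k (nat_lit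 0x9abe4))))) (a (u (nat_lit 6) (a (v (nat_lit 7) (k (nat_lit 0x9a56c))) (u (nat_lit 6) (k (nat_lit 0x9579c))))) (v (nat_lit 5) (u (nat_lit 6) (k (nat_lit 0x9875a)))))))))) (a (a (a (u (nat_lit 4) (a (v (nat_lit 7) (v (nat_lit 9) (k (nat_lit 0x9abe4)))) (v (nat_lit 4) (v (nat_lit 4) (k (nat_lit 0x99000)))))) (t (nat_lit 4) (nat_lit 7) (nat_lit 9) (t (nat_lit 5) (nat_lit 8) (nat_lit 9) (v (nat_lit 6) (k (nat_lit 0xc5052)))))) (a (v (nat_lit 3) (a (a (v (nat_lit 6) (v (nat_lit 7) (k (nat_lit 0x992a0)))) (u (nat_lit 5) (u (nat_lit 9) (k (nat_lit 0x99abc))))) (a (v (nat_lit 4) (v (nat_lit 6) (k (nat_lit 0x992a0)))) (a (t (nat_lit 4) (nat_lit 7) (nat_lit 9) (t (nat_lit 5) (nat_lit 8) (nat_lit 9) (k (nat_lit 0xc5052)))) (v (nat_lit 3) (t (nat_lit 5) (nat_lit 8) (nat_lit 9) (k (nat_lit 0x3f661aa)))))))) (u (nat_lit 3) (a (a (u (nat_lit 9) (v (nat_lit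 9) (k (nat_lit 0x985e6)))) (v (nat_lit 7) (v (nat_lit 8) (k (nat_lit 0x9875a))))) (a (v (nat_lit 4) (v (nat_lit 7) (k (nat_lit 0x9a56c)))) (u (nat_lit 3) (v (nat_lit 7) (k (nat_lit 0x9579c))))))))) (a (a (v (nat_lit 2) (a (a (v (nat_lit 8) (u (nat_lit 9) (k (nat_lit 0x994ec)))) (a (u (nat_lit 7) (u (nat_lit 9) (k (nat_lit 0x99498)))) (v (nat_lit 5) (u (nat_lit 9) (k (nat_lit 0x994ec)))))) (a (a (v (nat_lit 4) (v (nat_lit 6) (k (nat_lit 0x998e8)))) (u (nat_lit 4) (u (nat_lit 9) (k (nat_lit 0x99498))))) (a (v (nat_lit 3) (v (nat_lit 7) (k (nat_lit 0x998e8)))) (v (nat_lit 2) (u (nat_lit 9) (k (nat_lit 0x131a60)))))))) (u (nat_lit 2) (v (nat_lit 2) (v (nat_lit 9) (k (nat_lit 0x132144)))))) (a (v (nat_lit 1) (a (a (a (v (nat_lit 9) (v (nat_lit 9) (k (nat_lit 0x13062c)))) (a (v (nat_lit 8) (a (v (nat_lit 9) (k (nat_lit 0x9931e))) (v (nat_lit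 8) (k (nat_lit 0x98f0a))))) (v (nat_lit 7) (a (v (nat_lit 9) (k (nat_lit 0x99fb4))) (a (v (nat_lit 8) (k (nat_lit 0x98f7c))) (v (nat_lit 7) (k (nat_lit 0x985b0)))))))) (a (v (nat_lit 6) (a (a (v (nat_lit 9) (k (nat_lit 0x98df6))) (v (nat_lit 8) (k (nat_lit 0x98f22)))) (a (v (nat_lit 7) (k (nat_lit 0x97df4))) (v (nat_lit 6) (k (nat_lit 0x98e2c)))))) (a (v (nat_lit 5) (a (a (v (nat_lit 9) (k (nat_lit 0x9931e))) (v (nat_lit 8) (k (nat_lit 0x1322dc)))) (a (v (nat_lit 7) (k (nat_lit 0x9998a))) (a (v (nat_lit 6) (k (nat_lit 0x9908a))) (v (nat_lit 5) (k (nat_lit 0x98f0a))))))) (v (nat_lit 4) (a (a (v (nat_lit 9) (k (nat_lit 0x99fb4))) (a (v (nat_lit 8) (k (nat_lit 0x9998a))) (v (nat_lit 7) (k (nat_lit 0x132264))))) (a (v (nat_lit 6) (k (nat_lit 0x99c4e))) (a (v (nat_lit 5) (k (nat_lit 0x98f7c))) (v (nat_lit 4) (k (nat_lit 0x985b0)))))))))) (a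 (a (u (nat_lit 4) (v (nat_lit 6) (k (nat_lit 0x99ebe)))) (a (t (nat_lit 4) (nat_lit 7) (nat_lit 9) (t (nat_lit 4) (nat_lit 7) (nat_lit 9) (k (nat_lit 0x131e5c)))) (v (nat_lit 3) (a (a (a (v (nat_lit 9) (k (nat_lit 0x98df6))) (v (nat_lit 8) (k (nat_lit 0x9908a)))) (a (v (nat_lit 7) (k (nat_lit 0x99c4e))) (u (nat_lit 7) (k (nat_lit 0x99ebe))))) (a (a (v (nat_lit 6) (k (nat_lit 0x131bf8))) (v (nat_lit 5) (k (nat_lit 0x98f22)))) (a (v (nat_lit 4) (k (nat_lit 0x97df4))) (v (nat_lit 3) (k (nat_lit 0x98e2c))))))))) (a (v (nat_lit 2) (a (a (a (v (nat_lit 9) (k (nat_lit 0x1319d0))) (u (nat_lit 9) (k (nat_lit 0x131e20)))) (a (v (nat_lit 8) (k (nat_lit 0x98ec8))) (v (nat_lit 7) (k (nat_lit 0x98e74))))) (a (a (v (nat_lit 6) (k (nat_lit 0x98f70))) (v (nat_lit 5) (k (nat_lit 0x98ec8)))) (a (v (nat_lit 4) (k (nat_lit 0x98e74))) (a (v (nat_lit 3) (k (nat_lit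 0x98f70))) (v (nat_lit 2) (k (nat_lit 0x417f97e0)))))))) (a (u (nat_lit 2) (a (a (u (nat_lit 9) (k (nat_lit 0x1327bc))) (v (nat_lit 7) (k (nat_lit 0x999b4)))) (a (v (nat_lit 4) (k (nat_lit 0x999b4))) (t (nat_lit 4) (nat_lit 7) (nat_lit 9) (k (nat_lit 0x139bfc)))))) (v (nat_lit 1) (a (a (a (v (nat_lit 9) (k (nat_lit 0x1314c0))) (v (nat_lit 8) (k (nat_lit 0x9918c)))) (a (v (nat_lit 7) (k (nat_lit 0x989c4))) (a (v (nat_lit 6) (k (nat_lit 0x99186))) (v (nat_lit 5) (k (nat_lit 0x9918c)))))) (a (a (t (nat_lit 5) (nat_lit 8) (nat_lit 9) (k (nat_lit 0x132240))) (v (nat_lit 4) (k (nat_lit 0x989c4)))) (a (t (nat_lit 4) (nat_lit 7) (nat_lit 9) (k (nat_lit 0x131e08))) (a (v (nat_lit 3) (k (nat_lit 0x99186))) (v (nat_lit 1) (k (nat_lit 0x13218c))))))))))))) (u (nat_lit 1) (a (t (nat_lit 5) (nat_lit 8) (nat_lit 9) (v (nat_lit 6) (k (nat_lit 0x1a4f5e2))))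 (v (nat_lit 3) (t (nat_lit 5) (nat_lit 8) (nat_lit 9) (k (nat_lit 0x1a4f5e2))))))))))) (a (v (nat_lit 0) (a (a (a (a (u (nat_lit 9) (a (v (nat_lit 9) (v (nat_lit 9) (k (nat_lit 0x131844)))) (u (nat_lit 9) (v (nat_lit 9) (k (nat_lit 0xea81b4)))))) (v (nat_lit 8) (a (u (nat_lit 9) (v (nat_lit 9) (k (nat_lit 0x9ada6)))) (v (nat_lit 8) (u (nat_lit 9) (k (nat_lit 0x98856))))))) (a (u (nat_lit 8) (v (nat_lit 8) (v (nat_lit 8) (k (nat_lit 0x130f68))))) (v (nat_lit 7) (v (nat_lit 8) (u (nat_lit 9) (k (nat_lit 0x9767a))))))) (a (a (u (nat_lit 7) (a (v (nat_lit 9) (v (nat_lit 9) (k (nat_lit 0x98cd0)))) (a (v (nat_lit 8) (a (v (nat_lit 9) (k (nat_lit 0x9afaa))) (v (nat_lit 8) (k (nat_lit 0x99084))))) (v (nat_lit 7) (a (v (nat_lit 9) (k (nat_lit 0x999ea))) (a (v (nat_lit 8) (k (nat_lit 0x992a0))) (v (nat_lit 7) (k (nat_lit 0x9919e))))))))) (u (nat_lit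 6) (a (a (v (nat_lit 9) (v (nat_lit 9) (k (nat_lit 0x993c0)))) (v (nat_lit 8) (a (v (nat_lit 9) (k (nat_lit 0x4e4c6ce))) (v (nat_lit 8) (k (nat_lit 0x99030)))))) (a (v (nat_lit 7) (a (v (nat_lit 9) (k (nat_lit 0x9991e))) (a (v (nat_lit 8) (k (nat_lit 0x98f22))) (v (nat_lit 7) (k (nat_lit 0x9933c)))))) (v (nat_lit 6) (a (a (v (nat_lit 9) (k (nat_lit 0x991fe))) (v (nat_lit 8) (k (nat_lit 0x98fdc)))) (a (v (nat_lit 7) (k (nat_lit 0x991b6))) (v (nat_lit 6) (k (nat_lit 0x99048)))))))))) (a (v (nat_lit 5) (a (a (u (nat_lit 9) (v (nat_lit 9) (k (nat_lit 0x9ada6)))) (a (u (nat_lit 8) (v (nat_lit 9) (k (nat_lit 0x9b19c)))) (v (nat_lit 7) (a (u (nat_lit 9) (k (nat_lit 0x98f1c))) (u (nat_lit 8) (k (nat_lit 0x96714))))))) (a (u (nat_lit 7) (a (u (nat_lit 8) (k (nat_lit 0x96150))) (v (nat_lit 7) (k (nat_lit 0x99924))))) (a (u (nat_lit 6) (a (a (v (nat_lit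 9) (k (nat_lit 0x9992a))) (v (nat_lit 8) (k (nat_lit 0x9ac98)))) (a (v (nat_lit 7) (k (nat_lit 0x9565e))) (v (nat_lit 6) (k (nat_lit 0x9c4d4)))))) (v (nat_lit 5) (a (a (u (nat_lit 9) (k (nat_lit 0x98856))) (u (nat_lit 8) (k (nat_lit 0x988f8)))) (a (u (nat_lit 7) (k (nat_lit 0x98e14))) (u (nat_lit 6) (k (nat_lit 0x98e80)))))))))) (a (u (nat_lit 5) (a (v (nat_lit 8) (a (v (nat_lit 9) (k (nat_lit 0x9b19c))) (v (nat_lit 8) (k (nat_lit 0x988f8))))) (a (v (nat_lit 6) (v (nat_lit 7) (k (nat_lit 0x9cc18)))) (v (nat_lit 5) (v (nat_lit 5) (k (nat_lit 0x130f68))))))) (t (nat_lit 5) (nat_lit 8) (nat_lit 9) (a (u (nat_lit 8) (v (nat_lit 9) (k (nat_lit 0x5adb41a)))) (u (nat_lit 5) (a (v (nat_lit 9) (k (nat_lit 0x5adb41a))) (a (u (nat_lit 8) (k (nat_lit 0x4753e00))) (u (nat_lit 6) (k (nat_lit 0x2c7a14)))))))))))) (a (a (a (v (nat_lit 4) (a (a (v (nat_lit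 8) (u (nat_lit 9) (k (nat_lit 0x98f1c)))) (a (u (nat_lit 7) (a (v (nat_lit 9) (k (nat_lit 0x9909c))) (v (nat_lit 8) (k (nat_lit 0x9c318))))) (u (nat_lit 6) (a (a (v (nat_lit 9) (k (nat_lit 0x9a878))) (v (nat_lit 8) (k (nat_lit 0x9918c)))) (a (v (nat_lit 7) (k (nat_lit 0x99234))) (v (nat_lit 6) (k (nat_lit 0x99192)))))))) (a (v (nat_lit 5) (a (u (nat_lit 9) (k (nat_lit 0x9767a))) (a (u (nat_lit 7) (k (nat_lit 0x95c64))) (u (nat_lit 6) (k (nat_lit 0x989be)))))) (a (u (nat_lit 5) (v (nat_lit 8) (k (nat_lit 0x96714)))) (v (nat_lit 4) (a (u (nat_lit 7) (k (nat_lit 0x98efe))) (u (nat_lit 6) (k (nat_lit 0x98f1c))))))))) (u (nat_lit 4) (a (a (v (nat_lit 9) (v (nat_lit 9) (k (nat_lit 0x98cd0)))) (a (v (nat_lit 8) (v (nat_lit 8) (k (nat_lit 0x98e14)))) (v (nat_lit 7) (a (v (nat_lit 9) (k (nat_lit 0x9909c))) (a (v (nat_lit 8) (k (nat_lit 0x95c64)))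 (v (nat_lit 7) (k (nat_lit 0x98efe)))))))) (a (a (v (nat_lit 5) (a (v (nat_lit 9) (k (nat_lit 0x9afaa))) (a (v (nat_lit 7) (k (nat_lit 0x9c318))) (v (nat_lit 5) (k (nat_lit 0x99084)))))) (u (nat_lit 5) (v (nat_lit 8) (k (nat_lit 0x96150))))) (a (t (nat_lit 5) (nat_lit 8) (nat_lit 9) (u (nat_lit 6) (k (nat_lit 0x9955e)))) (v (nat_lit 4) (a (a (v (nat_lit 9) (k (nat_lit 0x999ea))) (v (nat_lit 8) (k (nat_lit 0x99924)))) (a (v (nat_lit 5) (k (nat_lit 0x992a0))) (v (nat_lit 4) (k (nat_lit 0x9919e))))))))))) (a (t (nat_lit 4) (nat_lit 7) (nat_lit 9) (a (a (u (nat_lit 9) (u (nat_lit 9) (k (nat_lit 0x131df0)))) (u (nat_lit 7) (u (nat_lit 9) (k (nat_lit 0x98f64))))) (a (v (nat_lit 5) (u (nat_lit 8) (k (nat_lit 0x993de)))) (a (u (nat_lit 5) (v (nat_lit 8) (k (nat_lit 0x993de)))) (u (nat_lit 4) (u (nat_lit 9) (k (nat_lit 0x98f64)))))))) (a (v (nat_lit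 3) (a (a (v (nat_lit 6) (a (u (nat_lit 9) (k (nat_lit 0x132fe4))) (a (u (nat_lit 8) (k (nat_lit 0x94ce0))) (u (nat_lit 7) (k (nat_lit 0x9d46a)))))) (a (u (nat_lit 6) (a (a (v (nat_lit 9) (k (nat_lit 0x57e9cd0))) (v (nat_lit 8) (k (nat_lit 0x9c41a)))) (a (u (nat_lit 8) (k (nat_lit 0x994fe))) (a (v (nat_lit 7) (k (nat_lit 0x997a4))) (v (nat_lit 6) (k (nat_lit 0x98f8e))))))) (v (nat_lit 5) (u (nat_lit 6) (k (nat_lit 0x99ffc)))))) (a (a (u (nat_lit 5) (a (v (nat_lit 6) (k (nat_lit 0x94ce0))) (u (nat_lit 6) (k (nat_lit 0x9f1ec))))) (v (nat_lit 4) (a (u (nat_lit 8) (k (nat_lit 0x9cc18))) (u (nat_lit 6) (k (nat_lit 0x945fc)))))) (a (u (nat_lit 4) (a (v (nat_lit 6) (k (nat_lit 0x9d46a))) (u (nat_lit 6) (k (nat_lit 0x9c0ea))))) (v (nat_lit 3) (u (nat_lit 6) (k (nat_lit 0x99456)))))))) (u (nat_lit 3) (a (a (a (v (nat_lit 9) (v (nat_lit 9) (k (nat_lit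 0x993c0)))) (v (nat_lit 8) (a (v (nat_lit 9) (k (nat_lit 0x9992a))) (v (nat_lit 8) (k (nat_lit 0x98e80)))))) (a (v (nat_lit 7) (a (v (nat_lit 9) (k (nat_lit 0x9a878))) (a (v (nat_lit 8) (k (nat_lit 0x989be))) (v (nat_lit 7) (k (nat_lit 0x98f1c)))))) (v (nat_lit 6) (a (a (v (nat_lit 9) (k (nat_lit 0x57e9cd0))) (a (v (nat_lit 8) (k (nat_lit 0x99ffc))) (u (nat_lit 8) (k (nat_lit 0x9f1ec))))) (a (v (nat_lit 7) (k (nat_lit 0x945fc))) (a (u (nat_lit 7) (k (nat_lit 0x9c0ea))) (v (nat_lit 6) (k (nat_lit 0x99456))))))))) (a (a (v (nat_lit 5) (a (a (v (nat_lit 9) (k (nat_lit 0x4e4c6ce))) (v (nat_lit 8) (k (nat_lit 0x9ac98)))) (a (v (nat_lit 7) (k (nat_lit 0x9918c))) (a (v (nat_lit 6) (k (nat_lit 0x9c41a))) (v (nat_lit 5) (k (nat_lit 0x99030))))))) (u (nat_lit 5) (v (nat_lit 6) (k (nat_lit 0x994fe))))) (a (t (nat_lit 5) (nat_lit 8) (nat_lit 9) (a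 (u (nat_lit 8) (k (nat_lit 0x2c7a14))) (a (u (nat_lit 7) (k (nat_lit 0x9955e))) (u (nat_lit 6) (k (nat_lit 0x5fd78cc)))))) (a (v (nat_lit 4) (a (a (v (nat_lit 9) (k (nat_lit 0x9991e))) (a (v (nat_lit 8) (k (nat_lit 0x9565e))) (v (nat_lit 7) (k (nat_lit 0x99234))))) (a (v (nat_lit 6) (k (nat_lit 0x997a4))) (a (v (nat_lit 5) (k (nat_lit 0x98f22))) (v (nat_lit 4) (k (nat_lit 0x9933c))))))) (v (nat_lit 3) (a (a (v (nat_lit 9) (k (nat_lit 0x991fe))) (a (v (nat_lit 8) (k (nat_lit 0x9c4d4))) (v (nat_lit 7) (k (nat_lit 0x99192))))) (a (a (v (nat_lit 6) (k (nat_lit 0x98f8e))) (v (nat_lit 5) (k (nat_lit 0x98fdc)))) (a (v (nat_lit 4) (k (nat_lit 0x991b6))) (v (nat_lit 3) (k (nat_lit 0x99048))))))))))))))) (a (a (v (nat_lit 2) (a (a (a (u (nat_lit 9) (v (nat_lit 9) (k (nat_lit 0x132438)))) (u (nat_lit 8) (a (v (nat_lit 9) (k (nat_lit 0x9b034))) (v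 (nat_lit 8) (k (nat_lit 0x991c2)))))) (a (u (nat_lit 7) (v (nat_lit 8) (k (nat_lit 0x94710)))) (a (v (nat_lit 6) (a (u (nat_lit 9) (k (nat_lit 0x98f2e))) (a (u (nat_lit 8) (k (nat_lit 0x98fd0))) (u (nat_lit 7) (k (nat_lit 0x98f4c)))))) (v (nat_lit 5) (a (u (nat_lit 8) (k (nat_lit 0x9b80e))) (u (nat_lit 7) (k (nat_lit 0x96dc2)))))))) (a (a (u (nat_lit 5) (a (a (v (nat_lit 9) (k (nat_lit 0x9b034))) (v (nat_lit 8) (k (nat_lit 0x9b80e)))) (a (v (nat_lit 7) (k (nat_lit 0x9b00a))) (a (v (nat_lit 6) (k (nat_lit 0x98394))) (v (nat_lit 5) (k (nat_lit 0x991c2))))))) (a (v (nat_lit 4) (u (nat_lit 8) (k (nat_lit 0x9b00a)))) (u (nat_lit 4) (a (v (nat_lit 8) (k (nat_lit 0x96dc2))) (a (v (nat_lit 6) (k (nat_lit 0x98f04))) (v (nat_lit 5) (k (nat_lit 0x94710)))))))) (a (v (nat_lit 3) (a (a (u (nat_lit 9) (k (nat_lit 0x98f2e))) (a (u (nat_lit 8) (k (nat_lit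 0x98394))) (u (nat_lit 7) (k (nat_lit 0x98f04))))) (a (u (nat_lit 6) (k (nat_lit 0x99fcc))) (a (u (nat_lit 5) (k (nat_lit 0x98fd0))) (u (nat_lit 4) (k (nat_lit 0x98f4c))))))) (a (u (nat_lit 3) (v (nat_lit 6) (k (nat_lit 0x99fcc)))) (v (nat_lit 2) (a (a (u (nat_lit 9) (k (nat_lit 0x1340f4))) (a (u (nat_lit 8) (k (nat_lit 0x74dc648))) (u (nat_lit 7) (k (nat_lit 0x178cb954))))) (a (a (u (nat_lit 6) (k (nat_lit 0x1177db44))) (u (nat_lit 5) (k (nat_lit 0x74dc648)))) (a (u (nat_lit 4) (k (nat_lit 0x178cb954))) (u (nat_lit 3) (k (nat_lit 0x1177db44)))))))))))) (u (nat_lit 2) (a (a (a (a (v (nat_lit 8) (v (nat_lit 9) (k (nat_lit 0x96fa2)))) (u (nat_lit 8) (a (u (nat_lit 9) (k (nat_lit 0x9a872))) (v (nat_lit 8) (k (nat_lit 0x99d02)))))) (a (v (nat_lit 7) (a (v (nat_lit 9) (k (nat_lit 0x99c9c))) (a (v (nat_lit 8) (k (nat_lit 0x9c76e))) (v (nat_lit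 7) (k (nat_lit 0x99240)))))) (u (nat_lit 7) (u (nat_lit 8) (k (nat_lit 0x99df2)))))) (a (a (v (nat_lit 6) (v (nat_lit 6) (k (nat_lit 0x98ee0)))) (u (nat_lit 6) (a (u (nat_lit 9) (k (nat_lit 0x9ad8e))) (a (v (nat_lit 8) (k (nat_lit 0xc7ada50))) (v (nat_lit 7) (k (nat_lit 0x422be3c))))))) (a (v (nat_lit 5) (a (v (nat_lit 9) (k (nat_lit 0x96fa2))) (v (nat_lit 8) (k (nat_lit 0x12cf0c))))) (u (nat_lit 5) (a (u (nat_lit 9) (k (nat_lit 0x9a872))) (v (nat_lit 5) (k (nat_lit 0x99d02)))))))) (a (a (a (t (nat_lit 5) (nat_lit 8) (nat_lit 9) (v (nat_lit 9) (k (nat_lit 0xaada794)))) (v (nat_lit 4) (a (a (v (nat_lit 9) (k (nat_lit 0x99c9c))) (v (nat_lit 7) (k (nat_lit 0x13215c)))) (a (v (nat_lit 5) (k (nat_lit 0x9c76e))) (v (nat_lit 4) (k (nat_lit 0x99240))))))) (a (u (nat_lit 4) (u (nat_lit 5) (k (nat_lit 0x99df2)))) (t (nat_lit 4) (nat_lit 7) (nat_lit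 9) (u (nat_lit 9) (k (nat_lit 0x132114)))))) (a (a (v (nat_lit 3) (a (v (nat_lit 6) (k (nat_lit 0x130248))) (v (nat_lit 3) (k (nat_lit 0x98ee0))))) (u (nat_lit 3) (a (u (nat_lit 9) (k (nat_lit 0x9ad8e))) (a (v (nat_lit 5) (k (nat_lit 0xc7ada50))) (v (nat_lit 4) (k (nat_lit 0x422be3c))))))) (a (v (nat_lit 2) (a (a (v (nat_lit 8) (k (nat_lit 0x9b5f8))) (v (nat_lit 6) (k (nat_lit 0x98fd0)))) (a (v (nat_lit 5) (k (nat_lit 0x9b5f8))) (a (v (nat_lit 3) (k (nat_lit 0x98fd0))) (v (nat_lit 2) (k (nat_lit 0x263904))))))) (u (nat_lit 2) (a (a (v (nat_lit 9) (k (nat_lit 0x133620))) (v (nat_lit 7) (k (nat_lit 0x9c270)))) (a (t (nat_lit 5) (nat_lit 8) (nat_lit 9) (k (nat_lit 0x2ad65c0))) (v (nat_lit 4) (k (nat_lit 0x9c270)))))))))))) (a (v (nat_lit 1) (a (a (a (v (nat_lit 8) (u (nat_lit 9) (k (nat_lit 0x98f34)))) (u (nat_lit 8) (a (v (nat_lit 9) (k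 (nat_lit 0x98d30))) (v (nat_lit 8) (k (nat_lit 0x99168)))))) (a (v (nat_lit 7) (a (u (nat_lit 9) (k (nat_lit 0x98f34))) (u (nat_lit 8) (k (nat_lit 0x9957c))))) (a (u (nat_lit 7) (a (v (nat_lit 9) (k (nat_lit 0x98d30))) (a (v (nat_lit 8) (k (nat_lit 0x9957c))) (v (nat_lit 7) (k (nat_lit 0x99168)))))) (v (nat_lit 5) (a (u (nat_lit 9) (k (nat_lit 0x98f34))) (u (nat_lit 8) (k (nat_lit 0x98ec8)))))))) (a (a (u (nat_lit 5) (a (v (nat_lit 9) (k (nat_lit 0x98d30))) (a (v (nat_lit 8) (k (nat_lit 0x98ec8))) (v (nat_lit 5) (k (nat_lit 0x99168)))))) (v (nat_lit 4) (a (u (nat_lit 9) (k (nat_lit 0x98f34))) (a (u (nat_lit 7) (k (nat_lit 0x98ec8))) (u (nat_lit 5) (k (nat_lit 0x9957c))))))) (a (u (nat_lit 4) (a (a (v (nat_lit 9) (k (nat_lit 0x98d30))) (v (nat_lit 7) (k (nat_lit 0x98ec8)))) (a (v (nat_lit 5) (k (nat_lit 0x9957c))) (v (nat_lit 4) (k (nat_lit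 0x99168)))))) (a (u (nat_lit 2) (u (nat_lit 2) (k (nat_lit 0x264078)))) (v (nat_lit 1) (a (u (nat_lit 7) (k (nat_lit 0x98d72))) (u (nat_lit 4) (k (nat_lit 0x98d72)))))))))) (a (u (nat_lit 1) (a (a (a (v (nat_lit 9) (v (nat_lit 9) (k (nat_lit 0x1319b8)))) (v (nat_lit 7) (v (nat_lit 9) (k (nat_lit 0x993b4))))) (a (v (nat_lit 6) (a (v (nat_lit 9) (k (nat_lit 0x98eb6))) (a (v (nat_lit 7) (k (nat_lit 0x99114))) (v (nat_lit 6) (k (nat_lit 0x98fd0)))))) (a (v (nat_lit 5) (a (v (nat_lit 7) (k (nat_lit 0x99054))) (v (nat_lit 6) (k (nat_lit 0x98fb8))))) (v (nat_lit 4) (a (v (nat_lit 9) (k (nat_lit 0x993b4))) (v (nat_lit 8) (k (nat_lit 0x99054)))))))) (a (a (t (nat_lit 4) (nat_lit 7) (nat_lit 9) (t (nat_lit 5) (nat_lit 8) (nat_lit 9) (k (nat_lit 0x132ad4)))) (a (v (nat_lit 3) (a (a (v (nat_lit 9) (k (nat_lit 0x98eb6))) (v (nat_lit 8) (k (nat_lit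 0x98fb8)))) (a (v (nat_lit 6) (k (nat_lit 0x131d60))) (a (v (nat_lit 4) (k (nat_lit 0x99114))) (v (nat_lit 3) (k (nat_lit 0x98fd0))))))) (v (nat_lit 2) (a (a (v (nat_lit 9) (k (nat_lit 0x1321a4))) (a (v (nat_lit 7) (k (nat_lit 0x98f04))) (v (nat_lit 6) (k (nat_lit 0x99000))))) (a (v (nat_lit 4) (k (nat_lit 0x98f04))) (a (v (nat_lit 3) (k (nat_lit 0x99000))) (v (nat_lit 2) (k (nat_lit 0xc0d87bc))))))))) (a (u (nat_lit 2) (a (a (u (nat_lit 9) (k (nat_lit 0x13704c))) (v (nat_lit 8) (k (nat_lit 0x9e394)))) (a (v (nat_lit 5) (k (nat_lit 0x9e394))) (t (nat_lit 5) (nat_lit 8) (nat_lit 9) (k (nat_lit 0x415c728)))))) (a (v (nat_lit 1) (a (v (nat_lit 6) (k (nat_lit 0x98f3a))) (a (v (nat_lit 3) (k (nat_lit 0x98f3a))) (v (nat_lit 2) (k (nat_lit 0x131cc4)))))) (u (nat_lit 1) (v (nat_lit 2) (k (nat_lit 0x3971c4))))))))) (v (nat_lit 0) (a (a (a (u (nat_lit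 9) (v (nat_lit 9) (k (nat_lit 0x1339b0)))) (a (u (nat_lit 8) (a (v (nat_lit 9) (k (nat_lit 0x97f14))) (v (nat_lit 8) (k (nat_lit 0x999c0))))) (v (nat_lit 7) (u (nat_lit 9) (k (nat_lit 0x98b86)))))) (a (a (u (nat_lit 7) (v (nat_lit 7) (k (nat_lit 0x9928e)))) (v (nat_lit 6) (u (nat_lit 8) (k (nat_lit 0x9a74c))))) (a (v (nat_lit 5) (u (nat_lit 7) (k (nat_lit 0x980fa)))) (u (nat_lit 5) (a (v (nat_lit 9) (k (nat_lit 0x97f14))) (a (v (nat_lit 7) (k (nat_lit 0x99468))) (v (nat_lit 5) (k (nat_lit 0x999c0))))))))) (a (a (a (v (nat_lit 4) (a (u (nat_lit 9) (k (nat_lit 0x98b86))) (a (u (nat_lit 8) (k (nat_lit 0x99468))) (u (nat_lit 7) (k (nat_lit 0x98f28)))))) (u (nat_lit 4) (a (a (v (nat_lit 8) (k (nat_lit 0x980fa))) (v (nat_lit 7) (k (nat_lit 0x98f28)))) (a (u (nat_lit 6) (k (nat_lit 0x98f34))) (v (nat_lit 4) (k (nat_lit 0x9928e))))))) (a (v (nat_lit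 3) (a (u (nat_lit 6) (k (nat_lit 0x99aa4))) (u (nat_lit 5) (k (nat_lit 0x9a74c))))) (u (nat_lit 3) (a (u (nat_lit 7) (k (nat_lit 0x98f34))) (v (nat_lit 6) (k (nat_lit 0x99aa4))))))) (a (a (u (nat_lit 2) (v (nat_lit 2) (k (nat_lit 0x1319f4)))) (v (nat_lit 1) (a (u (nat_lit 8) (k (nat_lit 0x98d72))) (u (nat_lit 5) (k (nat_lit 0x98d72)))))) (a (u (nat_lit 1) (a (a (a (v (nat_lit 9) (k (nat_lit 0x131c10))) (v (nat_lit 8) (k (nat_lit 0x990ae)))) (a (v (nat_lit 7) (k (nat_lit 0x99150))) (v (nat_lit 6) (k (nat_lit 0x4dac996))))) (a (a (v (nat_lit 5) (k (nat_lit 0x990ae))) (v (nat_lit 4) (k (nat_lit 0x99150)))) (a (v (nat_lit 3) (k (nat_lit 0x4dac996))) (a (v (nat_lit 2) (k (nat_lit 0x131d18))) (v (nat_lit 1) (k (nat_lit 0x132054)))))))) (v (nat_lit 0) (a (a (u (nat_lit 6) (k (nat_lit 0x98c6a))) (u (nat_lit 3) (k (nat_lit 0x98c6a)))) (a (u (nat_lit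 2) (k (nat_lit 0x131c64))) (u (nat_lit 1) (k (nat_lit 0x1320f0))))))))))))))))) (u (nat_lit 0) (a (a (a (a (u (nat_lit 9) (v (nat_lit 9) (v (nat_lit 9) (k (nat_lit 0x131ad8))))) (u (nat_lit 8) (v (nat_lit 8) (v (nat_lit 8) (k (nat_lit 0x99000)))))) (a (v (nat_lit 6) (u (nat_lit 7) (u (nat_lit 9) (k (nat_lit 0x99abc))))) (u (nat_lit 6) (u (nat_lit 9) (v (nat_lit 9) (k (nat_lit 0x985e6))))))) (a (a (v (nat_lit 5) (a (u (nat_lit 8) (v (nat_lit 9) (k (nat_lit 0x9abe4)))) (a (u (nat_lit 7) (v (nat_lit 7) (k (nat_lit 0x99180)))) (u (nat_lit 6) (a (v (nat_lit 8) (k (nat_lit 0x9a56c))) (u (nat_lit 6) (k (nat_lit 0x9579c)))))))) (u (nat_lit 5) (a (v (nat_lit 8) (v (nat_lit 9) (k (nat_lit 0x9abe4)))) (v (nat_lit 5) (v (nat_lit 5) (k (nat_lit 0x99000))))))) (a (v (nat_lit 4) (v (nat_lit 5) (u (nat_lit 6) (k (nat_lit 0x9875a))))) (u (nat_lit 4) (v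 (nat_lit 4) (v (nat_lit 8) (k (nat_lit 0x99180)))))))) (a (a (a (t (nat_lit 4) (nat_lit 7) (nat_lit 9) (a (a (u (nat_lit 7) (a (v (nat_lit 9) (k (nat_lit 0x60be5cc))) (u (nat_lit 7) (k (nat_lit 0x1fafc76))))) (v (nat_lit 6) (v (nat_lit 6) (k (nat_lit 0x3f661aa))))) (a (t (nat_lit 5) (nat_lit 8) (nat_lit 9) (v (nat_lit 6) (k (nat_lit 0xc5052)))) (u (nat_lit 4) (a (v (nat_lit 9) (k (nat_lit 0x60be5cc))) (a (u (nat_lit 7) (k (nat_lit 0x7fdd090))) (u (nat_lit 4) (k (nat_lit 0x1fafc76))))))))) (v (nat_lit 3) (a (a (v (nat_lit 6) (v (nat_lit 8) (k (nat_lit 0x992a0)))) (v (nat_lit 5) (v (nat_lit 6) (k (nat_lit 0x992a0))))) (a (u (nat_lit 4) (u (nat_lit 9) (k (nat_lit 0x99abc)))) (a (t (nat_lit 4) (nat_lit 7) (nat_lit 9) (t (nat_lit 5) (nat_lit 8) (nat_lit 9) (k (nat_lit 0xc5052)))) (v (nat_lit 3) (t (nat_lit 4) (nat_lit 7) (nat_lit 9) (k (nat_lit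 0x3f661aa))))))))) (a (u (nat_lit 3) (a (a (u (nat_lit 9) (v (nat_lit 9) (k (nat_lit 0x985e6)))) (v (nat_lit 7) (v (nat_lit 8) (k (nat_lit 0x9875a))))) (a (v (nat_lit 5) (v (nat_lit 8) (k (nat_lit 0x9a56c)))) (u (nat_lit 3) (v (nat_lit 8) (k (nat_lit 0x9579c))))))) (v (nat_lit 2) (a (a (u (nat_lit 8) (u (nat_lit 9) (k (nat_lit 0x99498)))) (a (v (nat_lit 7) (u (nat_lit 9) (k (nat_lit 0x994ec)))) (v (nat_lit 5) (v (nat_lit 6) (k (nat_lit 0x998e8)))))) (a (a (u (nat_lit 5) (u (nat_lit 9) (k (nat_lit 0x99498)))) (v (nat_lit 4) (u (nat_lit 9) (k (nat_lit 0x994ec))))) (a (v (nat_lit 3) (v (nat_lit 8) (k (nat_lit 0x998e8)))) (v (nat_lit 2) (u (nat_lit 9) (k (nat_lit 0x131a60)))))))))) (a (a (u (nat_lit 2) (v (nat_lit 2) (v (nat_lit 9) (k (nat_lit 0x132144))))) (v (nat_lit 1) (a (a (a (v (nat_lit 9) (v (nat_lit 9) (k (nat_lit 0x1319b8)))) (v (nat_lit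 8) (v (nat_lit 9) (k (nat_lit 0x993b4))))) (a (v (nat_lit 6) (a (v (nat_lit 9) (k (nat_lit 0x98eb6))) (a (v (nat_lit 8) (k (nat_lit 0x99114))) (v (nat_lit 6) (k (nat_lit 0x98fd0)))))) (a (v (nat_lit 5) (a (v (nat_lit 9) (k (nat_lit 0x993b4))) (v (nat_lit 7) (k (nat_lit 0x99054))))) (v (nat_lit 4) (a (v (nat_lit 8) (k (nat_lit 0x99054))) (v (nat_lit 6) (k (nat_lit 0x98fb8)))))))) (a (a (t (nat_lit 4) (nat_lit 7) (nat_lit 9) (t (nat_lit 5) (nat_lit 8) (nat_lit 9) (k (nat_lit 0x132ad4)))) (v (nat_lit 3) (a (a (v (nat_lit 9) (k (nat_lit 0x98eb6))) (v (nat_lit 7) (k (nat_lit 0x98fb8)))) (a (v (nat_lit 6) (k (nat_lit 0x131d60))) (a (v (nat_lit 5) (k (nat_lit 0x99114))) (v (nat_lit 3) (k (nat_lit 0x98fd0)))))))) (a (v (nat_lit 2) (a (a (v (nat_lit 9) (k (nat_lit 0x1321a4))) (a (v (nat_lit 8) (k (nat_lit 0x98f04))) (v (nat_lit 6) (k (nat_lit 0x99000)))))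 (a (v (nat_lit 5) (k (nat_lit 0x98f04))) (a (v (nat_lit 3) (k (nat_lit 0x99000))) (v (nat_lit 2) (k (nat_lit 0xc0d87bc))))))) (a (u (nat_lit 2) (a (a (u (nat_lit 9) (k (nat_lit 0x13704c))) (v (nat_lit 7) (k (nat_lit 0x9e394)))) (a (v (nat_lit 4) (k (nat_lit 0x9e394))) (t (nat_lit 4) (nat_lit 7) (nat_lit 9) (k (nat_lit 0x415c728)))))) (v (nat_lit 1) (a (a (a (v (nat_lit 9) (k (nat_lit 0x131c10))) (v (nat_lit 8) (k (nat_lit 0x99150)))) (a (v (nat_lit 7) (k (nat_lit 0x990ae))) (v (nat_lit 6) (k (nat_lit 0x4dac996))))) (a (a (v (nat_lit 5) (k (nat_lit 0x99150))) (v (nat_lit 4) (k (nat_lit 0x990ae)))) (a (v (nat_lit 3) (k (nat_lit 0x4dac996))) (a (v (nat_lit 2) (k (nat_lit 0x131d18))) (v (nat_lit 1) (k (nat_lit 0x1320f0)))))))))))))) (a (v (nat_lit 0) (a (a (a (v (nat_lit 9) (v (nat_lit 9) (k (nat_lit 0x13062c)))) (a (v (nat_lit 8) (a (v (nat_lit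 9) (k (nat_lit 0x99fb4))) (v (nat_lit 8) (k (nat_lit 0x985b0))))) (v (nat_lit 7) (a (v (nat_lit 9) (k (nat_lit 0x9931e))) (a (v (nat_lit 8) (k (nat_lit 0x98f7c))) (v (nat_lit 7) (k (nat_lit 0x98f0a)))))))) (a (v (nat_lit 6) (a (a (v (nat_lit 9) (k (nat_lit 0x98df6))) (v (nat_lit 8) (k (nat_lit 0x97df4)))) (a (v (nat_lit 7) (k (nat_lit 0x98f22))) (v (nat_lit 6) (k (nat_lit 0x98e2c)))))) (a (v (nat_lit 5) (a (a (v (nat_lit 9) (k (nat_lit 0x99fb4))) (v (nat_lit 8) (k (nat_lit 0x132264)))) (a (v (nat_lit 7) (k (nat_lit 0x9998a))) (a (v (nat_lit 6) (k (nat_lit 0x99c4e))) (v (nat_lit 5) (k (nat_lit 0x985b0))))))) (u (nat_lit 5) (v (nat_lit 6) (k (nat_lit 0x99ebe))))))) (a (a (t (nat_lit 5) (nat_lit 8) (nat_lit 9) (t (nat_lit 5) (nat_lit 8) (nat_lit 9) (k (nat_lit 0x131e5c)))) (a (v (nat_lit 4) (a (a (v (nat_lit 9) (k (nat_lit 0x9931e))) (a (v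 (nat_lit 8) (k (nat_lit 0x9998a))) (v (nat_lit 7) (k (nat_lit 0x1322dc))))) (a (v (nat_lit 6) (k (nat_lit 0x9908a))) (a (v (nat_lit 5) (k (nat_lit 0x98f7c))) (v (nat_lit 4) (k (nat_lit 0x98f0a))))))) (v (nat_lit 3) (a (a (a (v (nat_lit 9) (k (nat_lit 0x98df6))) (v (nat_lit 8) (k (nat_lit 0x99c4e)))) (a (u (nat_lit 8) (k (nat_lit 0x99ebe))) (v (nat_lit 7) (k (nat_lit 0x9908a))))) (a (a (v (nat_lit 6) (k (nat_lit 0x131bf8))) (v (nat_lit 5) (k (nat_lit 0x97df4)))) (a (v (nat_lit 4) (k (nat_lit 0x98f22))) (v (nat_lit 3) (k (nat_lit 0x98e2c))))))))) (a (a (v (nat_lit 2) (a (a (a (v (nat_lit 9) (k (nat_lit 0x1319d0))) (u (nat_lit 9) (k (nat_lit 0x131e20)))) (a (v (nat_lit 8) (k (nat_lit 0x98e74))) (v (nat_lit 7) (k (nat_lit 0x98ec8))))) (a (a (v (nat_lit 6) (k (nat_lit 0x98f70))) (v (nat_lit 5) (k (nat_lit 0x98e74)))) (a (v (nat_lit 4) (k (nat_lit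 0x98ec8))) (a (v (nat_lit 3) (k (nat_lit 0x98f70))) (v (nat_lit 2) (k (nat_lit 0x417f97e0)))))))) (u (nat_lit 2) (a (a (u (nat_lit 9) (k (nat_lit 0x1327bc))) (v (nat_lit 8) (k (nat_lit 0x999b4)))) (a (v (nat_lit 5) (k (nat_lit 0x999b4))) (t (nat_lit 5) (nat_lit 8) (nat_lit 9) (k (nat_lit 0x139bfc))))))) (a (v (nat_lit 1) (a (a (v (nat_lit 6) (k (nat_lit 0x98f3a))) (v (nat_lit 3) (k (nat_lit 0x98f3a)))) (a (v (nat_lit 2) (k (nat_lit 0x131cc4))) (v (nat_lit 1) (k (nat_lit 0x132054)))))) (v (nat_lit 0) (a (a (a (v (nat_lit 9) (k (nat_lit 0x1314c0))) (v (nat_lit 8) (k (nat_lit 0x989c4)))) (a (v (nat_lit 7) (k (nat_lit 0x9918c))) (a (v (nat_lit 6) (k (nat_lit 0x99186))) (v (nat_lit 5) (k (nat_lit 0x989c4)))))) (a (a (t (nat_lit 5) (nat_lit 8) (nat_lit 9) (k (nat_lit 0x131e08))) (v (nat_lit 4) (k (nat_lit 0x9918c)))) (a (t (nat_lit 4) (nat_lit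 7) (nat_lit 9) (k (nat_lit 0x132240))) (a (v (nat_lit 3) (k (nat_lit 0x99186))) (v (nat_lit 0) (k (nat_lit 0x13218c))))))))))))) (u (nat_lit 0) (a (t (nat_lit 4) (nat_lit 7) (nat_lit 9) (v (nat_lit 6) (k (nat_lit 0x1a4f5e2)))) (a (v (nat_lit 3) (t (nat_lit 4) (nat_lit 7) (nat_lit 9) (k (nat_lit 0x1a4f5e2)))) (v (nat_lit 1) (v (nat_lit 2) (k (nat_lit 0x3971c4)))))))))))))))))

open Fl.Tr in
/-- the table -/
noncomputable def T : Fl.Tr := (c (c (c (c (c (c (c (c (c (c (m (nat_lit 0x4c20b7c0)) (c (p (nat_lit 0x616ca118)) (c (m (nat_lit 0x27d630e0)) (c (p (nat_lit 0x12d69398)) (c (m (nat_lit 0x263340)) e))))) (c (c (p (nat_lit 0x4e5e06f8)) (c (m (nat_lit 0x40745100)) (c (p (nat_lit 0x1bf77c4c)) (c (m (nat_lit 0x4bf3288)) e)))) (c (c (m (nat_lit 0x26c544f0)) (c (p (nat_lit 0xb941ea8)) (c (m (nat_lit 0x5c9160c)) e))) (c (c (p (nat_lit 0x5fed82c))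 (c (m (nat_lit 0x1503e88)) e)) (c (c (m (nat_lit 0x131da8)) e) e))))) (c (c (c (p (nat_lit 0x4e5e06f8)) (c (m (nat_lit 0x40745100)) (c (p (nat_lit 0x1bf77c4c)) (c (m (nat_lit 0x4bf3288)) e)))) (c (c (m (nat_lit 0x3115c620)) (c (p (nat_lit 0x45e60934)) (c (m (nat_lit 0x10e95a3c)) e))) (c (c (p (nat_lit 0x16224f18)) (c (m (nat_lit 0xd00cd10)) e)) (c (c (m (nat_lit 0x179ebfc)) e) e)))) (c (c (c (m (nat_lit 0x26c544f0)) (c (p (nat_lit 0xb941ea8)) (c (m (nat_lit 0x5c9160c)) e))) (c (c (p (nat_lit 0x16224f18)) (c (m (nat_lit 0xd00cd10)) e)) (c (c (m (nat_lit 0x6b118f0)) e) e))) (c (c (c (p (nat_lit 0x5fed82c)) (c (m (nat_lit 0x1503e88)) e)) (c (c (m (nat_lit 0x179ebfc)) e) e)) (c (c (c (m (nat_lit 0x131da8)) e) e) e))))) (c (c (c (c (p (nat_lit 0x675e0b68)) (c (m (nat_lit 0x74c9c478)) (c (p (nat_lit 0xda53d28)) (c (m (nat_lit 0x132180)) e))))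 (c (c (m (nat_lit 0xbc6e440)) (c (p (nat_lit 0xdaee600)) (c (m (nat_lit 0x131dfc)) e))) (c (c (p (nat_lit 0xf4e5dc)) (c (m (nat_lit 0x131fac)) e)) (c (c (m (nat_lit 0x131d9c)) e) e)))) (c (c (c (m (nat_lit 0xbc6e440)) (c (p (nat_lit 0xdaee600)) (c (m (nat_lit 0x131dfc)) e))) (c (c (p (nat_lit 0xc07f578)) (c (m (nat_lit 0x131c58)) e)) (c (c (m (nat_lit 0x990d8)) e) e))) (c (c (c (p (nat_lit 0xf4e5dc)) (c (m (nat_lit 0x131fac)) e)) (c (c (m (nat_lit 0x990d8)) e) e)) (c (c (c (m (nat_lit 0x131d9c)) e) e) e)))) (c (c (c (c (m (nat_lit 0x3bafa1dc)) (c (p (nat_lit 0x4efd167c)) (c (m (nat_lit 0x133a6bd4)) e))) (c (c (p (nat_lit 0x1ee834c4)) (c (m (nat_lit 0x4050b10)) e)) (c (c (m (nat_lit 0xc3146f4)) e) e))) (c (c (c (p (nat_lit 0x1ee834c4)) (c (m (nat_lit 0x4050b10)) e)) (c (c (m (nat_lit 0x19394478)) e) e)) (c (c (c (m (nat_lit 0xc3146f4))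 e) e) e))) (c (c (c (c (p (nat_lit 0x26361c)) (c (m (nat_lit 0x395268)) e)) (c (c (m (nat_lit 0x99234)) e) e)) (c (c (c (m (nat_lit 0x99234)) e) e) e)) (c (c (c (c (m (nat_lit 0x1319b8)) e) e) e) e))))) (c (c (c (c (c (p (nat_lit 0x4e5e06f8)) (c (m (nat_lit 0x40745100)) (c (p (nat_lit 0x1bf77c4c)) (c (m (nat_lit 0x4bf3288)) e)))) (c (c (m (nat_lit 0x55804f38)) (c (p (nat_lit 0x1668a6f8)) (c (m (nat_lit 0x302ca00)) e))) (c (c (p (nat_lit 0x1c1973d8)) (c (p (nat_lit 0x2a78ccc)) e)) (c (c (m (nat_lit 0x23a02d0)) e) e)))) (c (c (c (m (nat_lit 0x31159d70)) (c (p (nat_lit 0x45bf69a0)) (c (m (nat_lit 0x10d5ea20)) e))) (c (c (p (nat_lit 0x2bee63d0)) (c (m (nat_lit 0x19db104c)) e)) (c (c (m (nat_lit 0x45aa9d0)) e) e))) (c (c (c (p (nat_lit 0x160ef2ac)) (c (m (nat_lit 0xced5d0c)) e)) (c (c (m (nat_lit 0xd321938)) e) e)) (c (c (c (m (nat_lit 0x179e56c))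 e) e) e)))) (c (c (c (c (m (nat_lit 0x1b654b64)) (c (p (nat_lit 0x1d30aa2c)) (c (m (nat_lit 0x1320fc)) e))) (c (c (p (nat_lit 0x1b07e9c)) (c (m (nat_lit 0x1cb36c)) e)) (c (c (m (nat_lit 0x131b50)) e) e))) (c (c (c (p (nat_lit 0xc3d7a00)) (c (m (nat_lit 0x131e50)) e)) (c (c (m (nat_lit 0x1323d8)) e) e)) (c (c (c (m (nat_lit 0x98ad8)) e) e) e))) (c (c (c (c (p (nat_lit 0xd192b84)) (c (m (nat_lit 0x40509e4)) e)) (c (c (m (nat_lit 0x132414)) e) e)) (c (c (c (m (nat_lit 0x40e99c0)) e) e) e)) (c (c (c (c (m (nat_lit 0x131724)) e) e) e) e)))) (c (c (c (c (c (m (nat_lit 0x26c544f0)) (c (p (nat_lit 0xb941ea8)) (c (m (nat_lit 0x5c9160c)) e))) (c (c (p (nat_lit 0x1c1973d8)) (c (p (nat_lit 0x2a78ccc)) e)) (c (c (m (nat_lit 0x460e498)) e) e))) (c (c (c (p (nat_lit 0x160ef2ac)) (c (m (nat_lit 0xced5d0c)) e)) (c (c (m (nat_lit 0x45aa9c4)) e) e)) (c (c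 (c (m (nat_lit 0x69da7d8)) e) e) e))) (c (c (c (c (p (nat_lit 0xeb56f0)) (c (m (nat_lit 0x1320fc)) e)) (c (c (m (nat_lit 0x98cf4)) e) e)) (c (c (c (m (nat_lit 0x991f8)) e) e) e)) (c (c (c (c (m (nat_lit 0xc48120)) e) e) e) e))) (c (c (c (c (c (p (nat_lit 0x5fed82c)) (c (m (nat_lit 0x1503e88)) e)) (c (c (m (nat_lit 0x23a02d0)) e) e)) (c (c (c (m (nat_lit 0x179e56c)) e) e) e)) (c (c (c (c (m (nat_lit 0x99180)) e) e) e) e)) (c (c (c (c (c (m (nat_lit 0x131da8)) e) e) e) e) e))))) (c (c (c (c (c (c (p (nat_lit 0x4e5e06f8)) (c (m (nat_lit 0x40745100)) (c (p (nat_lit 0x1bf77c4c)) (c (m (nat_lit 0x4bf3288)) e)))) (c (c (m (nat_lit 0x31159d70)) (c (p (nat_lit 0x45bf69a0)) (c (m (nat_lit 0x10d5ea20)) e))) (c (c (p (nat_lit 0x160ef2ac)) (c (m (nat_lit 0xced5d0c)) e)) (c (c (m (nat_lit 0x179e56c)) e) e)))) (c (c (c (m (nat_lit 0x55804f38)) (c (p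 (nat_lit 0x1668a6f8)) (c (m (nat_lit 0x302ca00)) e))) (c (c (p (nat_lit 0x2bee63d0)) (c (m (nat_lit 0x19db104c)) e)) (c (c (m (nat_lit 0xd321938)) e) e))) (c (c (c (p (nat_lit 0x1c1973d8)) (c (p (nat_lit 0x2a78ccc)) e)) (c (c (m (nat_lit 0x45aa9d0)) e) e)) (c (c (c (m (nat_lit 0x23a02d0)) e) e) e)))) (c (c (c (c (m (nat_lit 0x1b654b64)) (c (p (nat_lit 0x1d30aa2c)) (c (m (nat_lit 0x1320fc)) e))) (c (c (p (nat_lit 0xc3d7a00)) (c (m (nat_lit 0x131e50)) e)) (c (c (m (nat_lit 0x98ad8)) e) e))) (c (c (c (p (nat_lit 0x1b07e9c)) (c (m (nat_lit 0x1cb36c)) e)) (c (c (m (nat_lit 0x1323d8)) e) e)) (c (c (c (m (nat_lit 0x131b50)) e) e) e))) (c (c (c (c (p (nat_lit 0xd192b84)) (c (m (nat_lit 0x40509e4)) e)) (c (c (m (nat_lit 0x40e99c0)) e) e)) (c (c (c (m (nat_lit 0x132414)) e) e) e)) (c (c (c (c (m (nat_lit 0x131724)) e) e) e) e)))) (c (c (c (c (c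 (m (nat_lit 0x3115c620)) (c (p (nat_lit 0x45e60934)) (c (m (nat_lit 0x10e95a3c)) e))) (c (c (p (nat_lit 0x2bee63d0)) (c (m (nat_lit 0x19db104c)) e)) (c (c (m (nat_lit 0x45aa9c4)) e) e))) (c (c (c (p (nat_lit 0x2bee63d0)) (c (m (nat_lit 0x19db104c)) e)) (c (c (m (nat_lit 0x1a774c40)) e) e)) (c (c (c (m (nat_lit 0x45aa9c4)) e) e) e))) (c (c (c (c (p (nat_lit 0xbce0d34)) (c (p (nat_lit 0x381c)) e)) (c (c (p (nat_lit 0x2118)) e) e)) (c (c (c (p (nat_lit 0x2118)) e) e) e)) (c (c (c (c (m (nat_lit 0xc3b5080)) e) e) e) e))) (c (c (c (c (c (p (nat_lit 0x16224f18)) (c (m (nat_lit 0xd00cd10)) e)) (c (c (m (nat_lit 0x45aa9d0)) e) e)) (c (c (c (m (nat_lit 0xd321938)) e) e) e)) (c (c (c (c (p (nat_lit 0x1df4)) e) e) e) e)) (c (c (c (c (c (m (nat_lit 0x179ebfc)) e) e) e) e) e)))) (c (c (c (c (c (c (m (nat_lit 0x26c544f0)) (c (p (nat_lit 0xb941ea8))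 (c (m (nat_lit 0x5c9160c)) e))) (c (c (p (nat_lit 0x160ef2ac)) (c (m (nat_lit 0xced5d0c)) e)) (c (c (m (nat_lit 0x69da7d8)) e) e))) (c (c (c (p (nat_lit 0x1c1973d8)) (c (p (nat_lit 0x2a78ccc)) e)) (c (c (m (nat_lit 0x45aa9c4)) e) e)) (c (c (c (m (nat_lit 0x460e498)) e) e) e))) (c (c (c (c (p (nat_lit 0xeb56f0)) (c (m (nat_lit 0x1320fc)) e)) (c (c (m (nat_lit 0x991f8)) e) e)) (c (c (c (m (nat_lit 0x98cf4)) e) e) e)) (c (c (c (c (m (nat_lit 0xc48120)) e) e) e) e))) (c (c (c (c (c (p (nat_lit 0x16224f18)) (c (m (nat_lit 0xd00cd10)) e)) (c (c (m (nat_lit 0xd321938)) e) e)) (c (c (c (m (nat_lit 0x45aa9d0)) e) e) e)) (c (c (c (c (p (nat_lit 0x1df4)) e) e) e) e)) (c (c (c (c (c (m (nat_lit 0x6b118f0)) e) e) e) e) e))) (c (c (c (c (c (c (p (nat_lit 0x5fed82c)) (c (m (nat_lit 0x1503e88)) e)) (c (c (m (nat_lit 0x179e56c)) e) e)) (c (c (c (m (nat_lit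 0x23a02d0)) e) e) e)) (c (c (c (c (m (nat_lit 0x99180)) e) e) e) e)) (c (c (c (c (c (m (nat_lit 0x179ebfc)) e) e) e) e) e)) (c (c (c (c (c (c (m (nat_lit 0x131da8)) e) e) e) e) e) e))))) (c (c (c (c (c (c (c (p (nat_lit 0x675e0b68)) (c (m (nat_lit 0x74c9c478)) (c (p (nat_lit 0xda53d28)) (c (m (nat_lit 0x132180)) e)))) (c (c (m (nat_lit 0x1b654b64)) (c (p (nat_lit 0x1d30aa2c)) (c (m (nat_lit 0x1320fc)) e))) (c (c (p (nat_lit 0xeb56f0)) (c (m (nat_lit 0x1320fc)) e)) (c (c (m (nat_lit 0x99180)) e) e)))) (c (c (c (m (nat_lit 0x1b654b64)) (c (p (nat_lit 0x1d30aa2c)) (c (m (nat_lit 0x1320fc)) e))) (c (c (p (nat_lit 0xbce0d34)) (c (p (nat_lit 0x381c)) e)) (c (c (p (nat_lit 0x1df4)) e) e))) (c (c (c (p (nat_lit 0xeb56f0)) (c (m (nat_lit 0x1320fc)) e)) (c (c (p (nat_lit 0x1df4)) e) e)) (c (c (c (m (nat_lit 0x99180)) e) e) e)))) (c (c (c (c (m (nat_lit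 0x5d446fe8)) (c (p (nat_lit 0x60a51da0)) (c (m (nat_lit 0x3871890)) e))) (c (c (p (nat_lit 0x319e9750)) (c (m (nat_lit 0x12be06a4)) e)) (c (c (m (nat_lit 0x1120ae74)) e) e))) (c (c (c (p (nat_lit 0x319e9750)) (c (m (nat_lit 0x12be06a4)) e)) (c (c (m (nat_lit 0x131aa8)) e) e)) (c (c (c (m (nat_lit 0x1120ae74)) e) e) e))) (c (c (c (c (p (nat_lit 0x3969a8)) (c (m (nat_lit 0x395ce8)) e)) (c (c (m (nat_lit 0x131f88)) e) e)) (c (c (c (m (nat_lit 0x131f88)) e) e) e)) (c (c (c (c (p (nat_lit 0xc0)) e) e) e) e)))) (c (c (c (c (c (m (nat_lit 0xbc6e440)) (c (p (nat_lit 0xdaee600)) (c (m (nat_lit 0x131dfc)) e))) (c (c (p (nat_lit 0x1b07e9c)) (c (m (nat_lit 0x1cb36c)) e)) (c (c (m (nat_lit 0x98cf4)) e) e))) (c (c (c (p (nat_lit 0xc3d7a00)) (c (m (nat_lit 0x131e50)) e)) (c (c (p (nat_lit 0x2118)) e) e)) (c (c (c (m (nat_lit 0x991f8)) e) e) e))) (c (c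 (c (c (p (nat_lit 0x319e9750)) (c (m (nat_lit 0x12be06a4)) e)) (c (c (m (nat_lit 0x22419750)) e) e)) (c (c (c (m (nat_lit 0xb7ccf0)) e) e) e)) (c (c (c (c (m (nat_lit 0x131dfc)) e) e) e) e))) (c (c (c (c (c (p (nat_lit 0xf4e5dc)) (c (m (nat_lit 0x131fac)) e)) (c (c (m (nat_lit 0x131b50)) e) e)) (c (c (c (m (nat_lit 0x98ad8)) e) e) e)) (c (c (c (c (m (nat_lit 0x1120ae74)) e) e) e) e)) (c (c (c (c (c (m (nat_lit 0x131d9c)) e) e) e) e) e)))) (c (c (c (c (c (c (m (nat_lit 0xbc6e440)) (c (p (nat_lit 0xdaee600)) (c (m (nat_lit 0x131dfc)) e))) (c (c (p (nat_lit 0xc3d7a00)) (c (m (nat_lit 0x131e50)) e)) (c (c (m (nat_lit 0x991f8)) e) e))) (c (c (c (p (nat_lit 0x1b07e9c)) (c (m (nat_lit 0x1cb36c)) e)) (c (c (p (nat_lit 0x2118)) e) e)) (c (c (c (m (nat_lit 0x98cf4)) e) e) e))) (c (c (c (c (p (nat_lit 0x319e9750)) (c (m (nat_lit 0x12be06a4)) e))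 (c (c (m (nat_lit 0xb7ccf0)) e) e)) (c (c (c (m (nat_lit 0x22419750)) e) e) e)) (c (c (c (c (m (nat_lit 0x131dfc)) e) e) e) e))) (c (c (c (c (c (p (nat_lit 0xc07f578)) (c (m (nat_lit 0x131c58)) e)) (c (c (m (nat_lit 0x1323d8)) e) e)) (c (c (c (m (nat_lit 0x1323d8)) e) e) e)) (c (c (c (c (m (nat_lit 0x131aa8)) e) e) e) e)) (c (c (c (c (c (m (nat_lit 0x990d8)) e) e) e) e) e))) (c (c (c (c (c (c (p (nat_lit 0xf4e5dc)) (c (m (nat_lit 0x131fac)) e)) (c (c (m (nat_lit 0x98ad8)) e) e)) (c (c (c (m (nat_lit 0x131b50)) e) e) e)) (c (c (c (c (m (nat_lit 0x1120ae74)) e) e) e) e)) (c (c (c (c (c (m (nat_lit 0x990d8)) e) e) e) e) e)) (c (c (c (c (c (c (m (nat_lit 0x131d9c)) e) e) e) e) e) e)))) (c (c (c (c (c (c (c (m (nat_lit 0x3bafa1dc)) (c (p (nat_lit 0x4efd167c)) (c (m (nat_lit 0x133a6bd4)) e))) (c (c (p (nat_lit 0xd192b84)) (c (m (nat_lit 0x40509e4))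 e)) (c (c (m (nat_lit 0xc48120)) e) e))) (c (c (c (p (nat_lit 0xd192b84)) (c (m (nat_lit 0x40509e4)) e)) (c (c (m (nat_lit 0xc3b5080)) e) e)) (c (c (c (m (nat_lit 0xc48120)) e) e) e))) (c (c (c (c (p (nat_lit 0x3969a8)) (c (m (nat_lit 0x395ce8)) e)) (c (c (m (nat_lit 0x131dfc)) e) e)) (c (c (c (m (nat_lit 0x131dfc)) e) e) e)) (c (c (c (c (m (nat_lit 0x2633b8)) e) e) e) e))) (c (c (c (c (c (p (nat_lit 0x1ee834c4)) (c (m (nat_lit 0x4050b10)) e)) (c (c (m (nat_lit 0x132414)) e) e)) (c (c (c (m (nat_lit 0x40e99c0)) e) e) e)) (c (c (c (c (m (nat_lit 0x131f88)) e) e) e) e)) (c (c (c (c (c (m (nat_lit 0xc3146f4)) e) e) e) e) e))) (c (c (c (c (c (c (p (nat_lit 0x1ee834c4)) (c (m (nat_lit 0x4050b10)) e)) (c (c (m (nat_lit 0x40e99c0)) e) e)) (c (c (c (m (nat_lit 0x132414)) e) e) e)) (c (c (c (c (m (nat_lit 0x131f88)) e) e) e) e)) (c (c (c (c (c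 (m (nat_lit 0x19394478)) e) e) e) e) e)) (c (c (c (c (c (c (m (nat_lit 0xc3146f4)) e) e) e) e) e) e))) (c (c (c (c (c (c (c (p (nat_lit 0x26361c)) (c (m (nat_lit 0x395268)) e)) (c (c (m (nat_lit 0x131724)) e) e)) (c (c (c (m (nat_lit 0x131724)) e) e) e)) (c (c (c (c (p (nat_lit 0xc0)) e) e) e) e)) (c (c (c (c (c (m (nat_lit 0x99234)) e) e) e) e) e)) (c (c (c (c (c (c (m (nat_lit 0x99234)) e) e) e) e) e) e)) (c (c (c (c (c (c (c (m (nat_lit 0x1319b8)) e) e) e) e) e) e) e))))) (c (c (c (c (c (c (c (c (m (nat_lit 0xe3da428)) (c (m (nat_lit 0x30cb0fd0)) (c (p (nat_lit 0x3f552810)) (c (m (nat_lit 0x262d70)) e)))) (c (c (p (nat_lit 0x1f4f0df0)) (c (p (nat_lit 0xb38aae4)) (c (m (nat_lit 0x384f1ec)) e))) (c (c (m (nat_lit 0x145caafc)) (c (m (nat_lit 0xe764c8)) e)) (c (c (m (nat_lit 0x98ce8)) e) e)))) (c (c (c (p (nat_lit 0x1f4f0df0)) (c (p (nat_lit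 0xb38aae4)) (c (m (nat_lit 0x384f1ec)) e))) (c (c (m (nat_lit 0x6c1cdd0)) (c (m (nat_lit 0x5746800)) e)) (c (c (m (nat_lit 0x131a60)) e) e))) (c (c (c (m (nat_lit 0x145caafc)) (c (m (nat_lit 0xe764c8)) e)) (c (c (m (nat_lit 0x131a60)) e) e)) (c (c (c (m (nat_lit 0x98ce8)) e) e) e)))) (c (c (c (c (m (nat_lit 0x4e69e430)) (c (p (nat_lit 0x564a6908)) (c (m (nat_lit 0x7a75220)) e))) (c (c (m (nat_lit 0x38be51c)) (c (m (nat_lit 0x7cd9b5c)) e)) (c (c (m (nat_lit 0x98cd0)) e) e))) (c (c (c (m (nat_lit 0x38be51c)) (c (m (nat_lit 0x7cd9b5c)) e)) (c (c (m (nat_lit 0x7cd9400)) e) e)) (c (c (c (m (nat_lit 0x98cd0)) e) e) e))) (c (c (c (c (p (nat_lit 0x69ba13b0)) (c (m (nat_lit 0x2fc74620)) e)) (c (c (m (nat_lit 0x9774c)) e) e)) (c (c (c (m (nat_lit 0x9774c)) e) e) e)) (c (c (c (c (m (nat_lit 0x131418)) e) e) e) e)))) (c (c (c (c (c (p (nat_lit 0x1f4f0df0))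 (c (p (nat_lit 0xb38aae4)) (c (m (nat_lit 0x384f1ec)) e))) (c (c (m (nat_lit 0x325f11a8)) (c (p (nat_lit 0x7b0c030)) e)) (c (c (p (nat_lit 0x94fba68)) e) e))) (c (c (c (m (nat_lit 0x6d4ea88)) (c (m (nat_lit 0x57468c0)) e)) (c (c (m (nat_lit 0x97d28)) e) e)) (c (c (c (m (nat_lit 0x131a78)) e) e) e))) (c (c (c (c (p (nat_lit 0xf2a9e4)) (c (m (nat_lit 0xc25e318)) e)) (c (c (p (nat_lit 0xb2996a4)) e) e)) (c (c (c (m (nat_lit 0x7ba73dc)) e) e) e)) (c (c (c (c (m (nat_lit 0x131e44)) e) e) e) e))) (c (c (c (c (c (m (nat_lit 0x145caafc)) (c (m (nat_lit 0xe764c8)) e)) (c (c (p (nat_lit 0x94fba68)) e) e)) (c (c (c (m (nat_lit 0x131a78)) e) e) e)) (c (c (c (c (p (nat_lit 0xb332e48)) e) e) e) e)) (c (c (c (c (c (m (nat_lit 0x98ce8)) e) e) e) e) e)))) (c (c (c (c (c (c (p (nat_lit 0x1f4f0df0)) (c (p (nat_lit 0xb38aae4)) (c (m (nat_lit 0x384f1ec)) e)))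 (c (c (m (nat_lit 0x6d4ea88)) (c (m (nat_lit 0x57468c0)) e)) (c (c (m (nat_lit 0x131a78)) e) e))) (c (c (c (m (nat_lit 0x325f11a8)) (c (p (nat_lit 0x7b0c030)) e)) (c (c (m (nat_lit 0x97d28)) e) e)) (c (c (c (p (nat_lit 0x94fba68)) e) e) e))) (c (c (c (c (p (nat_lit 0xf2a9e4)) (c (m (nat_lit 0xc25e318)) e)) (c (c (m (nat_lit 0x7ba73dc)) e) e)) (c (c (c (p (nat_lit 0xb2996a4)) e) e) e)) (c (c (c (c (m (nat_lit 0x131e44)) e) e) e) e))) (c (c (c (c (c (m (nat_lit 0x6c1cdd0)) (c (m (nat_lit 0x5746800)) e)) (c (c (m (nat_lit 0x97d28)) e) e)) (c (c (c (m (nat_lit 0x97d28)) e) e) e)) (c (c (c (c (m (nat_lit 0x7ba6848)) e) e) e) e)) (c (c (c (c (c (m (nat_lit 0x131a60)) e) e) e) e) e))) (c (c (c (c (c (c (m (nat_lit 0x145caafc)) (c (m (nat_lit 0xe764c8)) e)) (c (c (m (nat_lit 0x131a78)) e) e)) (c (c (c (p (nat_lit 0x94fba68)) e) e) e)) (c (c (c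 (c (p (nat_lit 0xb332e48)) e) e) e) e)) (c (c (c (c (c (m (nat_lit 0x131a60)) e) e) e) e) e)) (c (c (c (c (c (c (m (nat_lit 0x98ce8)) e) e) e) e) e) e)))) (c (c (c (c (c (c (c (m (nat_lit 0x4e69e430)) (c (p (nat_lit 0x564a6908)) (c (m (nat_lit 0x7a75220)) e))) (c (c (p (nat_lit 0xf2a9e4)) (c (m (nat_lit 0xc25e318)) e)) (c (c (p (nat_lit 0xb332e48)) e) e))) (c (c (c (p (nat_lit 0xf2a9e4)) (c (m (nat_lit 0xc25e318)) e)) (c (c (m (nat_lit 0x7ba6848)) e) e)) (c (c (c (p (nat_lit 0xb332e48)) e) e) e))) (c (c (c (c (p (nat_lit 0x1c952838)) (c (m (nat_lit 0x1c6ec780)) e)) (c (c (m (nat_lit 0x98d24)) e) e)) (c (c (c (m (nat_lit 0x98d24)) e) e) e)) (c (c (c (c (m (nat_lit 0x264510)) e) e) e) e))) (c (c (c (c (c (m (nat_lit 0x38be51c)) (c (m (nat_lit 0x7cd9b5c)) e)) (c (c (p (nat_lit 0xb2996a4)) e) e)) (c (c (c (m (nat_lit 0x7ba73dc)) e) e) e))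 (c (c (c (c (m (nat_lit 0x98d24)) e) e) e) e)) (c (c (c (c (c (m (nat_lit 0x98cd0)) e) e) e) e) e))) (c (c (c (c (c (c (m (nat_lit 0x38be51c)) (c (m (nat_lit 0x7cd9b5c)) e)) (c (c (m (nat_lit 0x7ba73dc)) e) e)) (c (c (c (p (nat_lit 0xb2996a4)) e) e) e)) (c (c (c (c (m (nat_lit 0x98d24)) e) e) e) e)) (c (c (c (c (c (m (nat_lit 0x7cd9400)) e) e) e) e) e)) (c (c (c (c (c (c (m (nat_lit 0x98cd0)) e) e) e) e) e) e))) (c (c (c (c (c (c (c (p (nat_lit 0x69ba13b0)) (c (m (nat_lit 0x2fc74620)) e)) (c (c (m (nat_lit 0x131e44)) e) e)) (c (c (c (m (nat_lit 0x131e44)) e) e) e)) (c (c (c (c (m (nat_lit 0x264510)) e) e) e) e)) (c (c (c (c (c (m (nat_lit 0x9774c)) e) e) e) e) e)) (c (c (c (c (c (c (m (nat_lit 0x9774c)) e) e) e) e) e) e)) (c (c (c (c (c (c (c (m (nat_lit 0x131418)) e) e) e) e) e) e) e)))) (c (c (c (c (c (c (c (c (m (nat_lit 0x182e0230))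 (c (p (nat_lit 0x30f4e1b0)) (c (m (nat_lit 0x18ed1620)) e))) (c (c (p (nat_lit 0xab2f8ec)) (c (m (nat_lit 0xa9fe960)) e)) (c (c (m (nat_lit 0x98cd0)) e) e))) (c (c (c (p (nat_lit 0xab2f8ec)) (c (m (nat_lit 0xa9fe960)) e)) (c (c (p (nat_lit 0x360de48)) e) e)) (c (c (c (m (nat_lit 0x98cd0)) e) e) e))) (c (c (c (c (p (nat_lit 0x4c69b0)) (c (m (nat_lit 0x263e08)) e)) (c (c (p (nat_lit 0x3c0)) e) e)) (c (c (c (p (nat_lit 0x3c0)) e) e) e)) (c (c (c (c (m (nat_lit 0x39dfa850)) e) e) e) e))) (c (c (c (c (c (p (nat_lit 0xab2f8ec)) (c (m (nat_lit 0xa9fe960)) e)) (c (c (m (nat_lit 0x2634a8)) e) e)) (c (c (c (p (nat_lit 0x373f950)) e) e) e)) (c (c (c (c (m (nat_lit 0x98d90)) e) e) e) e)) (c (c (c (c (c (m (nat_lit 0x98cd0)) e) e) e) e) e))) (c (c (c (c (c (c (p (nat_lit 0xab2f8ec)) (c (m (nat_lit 0xa9fe960)) e)) (c (c (p (nat_lit 0x373f950)) e) e))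 (c (c (c (m (nat_lit 0x2634a8)) e) e) e)) (c (c (c (c (m (nat_lit 0x98d90)) e) e) e) e)) (c (c (c (c (c (p (nat_lit 0x360de48)) e) e) e) e) e)) (c (c (c (c (c (c (m (nat_lit 0x98cd0)) e) e) e) e) e) e))) (c (c (c (c (c (c (c (p (nat_lit 0x4c69b0)) (c (m (nat_lit 0x263e08)) e)) (c (c (m (nat_lit 0x98d90)) e) e)) (c (c (c (m (nat_lit 0x98d90)) e) e) e)) (c (c (c (c (m (nat_lit 0x4c7778)) e) e) e) e)) (c (c (c (c (c (p (nat_lit 0x3c0)) e) e) e) e) e)) (c (c (c (c (c (c (p (nat_lit 0x3c0)) e) e) e) e) e) e)) (c (c (c (c (c (c (c (m (nat_lit 0x39dfa850)) e) e) e) e) e) e) e))) (c (c (c (c (c (c (c (c (p (nat_lit 0x262b60)) (c (m (nat_lit 0x2621d0)) e)) (c (c (p (nat_lit 0x990d8)) e) e)) (c (c (c (p (nat_lit 0x990d8)) e) e) e)) (c (c (c (c (m (nat_lit 0x1312b0)) e) e) e) e)) (c (c (c (c (c (p (nat_lit 0x990d8)) e) e) e) e) e)) (c (c (c (c (c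 (c (p (nat_lit 0x990d8)) e) e) e) e) e) e)) (c (c (c (c (c (c (c (m (nat_lit 0x1312b0)) e) e) e) e) e) e) e)) (c (c (c (c (c (c (c (c (m (nat_lit 0x263268)) e) e) e) e) e) e) e) e))))) (c (c (c (c (c (c (c (c (c (m (nat_lit 0x57469c8)) (c (m (nat_lit 0x358bff0)) (c (p (nat_lit 0x8425a88)) (c (p (nat_lit 0xfda238)) e)))) (c (c (m (nat_lit 0x138b5884)) (c (m (nat_lit 0x642bd6c)) (c (p (nat_lit 0x61f0650)) e))) (c (c (p (nat_lit 0xe1e9acc)) (c (p (nat_lit 0x410ded0)) e)) (c (c (m (nat_lit 0x2048e14)) e) e)))) (c (c (c (p (nat_lit 0x22991328)) (c (p (nat_lit 0x1c768200)) (c (m (nat_lit 0x5b761c0)) e))) (c (c (p (nat_lit 0x561534)) (c (m (nat_lit 0x132624)) e)) (c (c (m (nat_lit 0x992a0)) e) e))) (c (c (c (m (nat_lit 0x44be30c)) (c (m (nat_lit 0x5b73c70)) e)) (c (c (m (nat_lit 0x99084)) e) e)) (c (c (c (m (nat_lit 0x97f68)) e) e) e)))) (c (c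 (c (c (p (nat_lit 0x984c1f8)) (c (m (nat_lit 0x3acb9b4)) (c (m (nat_lit 0x1f69f8)) e))) (c (c (m (nat_lit 0x730bbdc)) (c (m (nat_lit 0x1f842c)) e)) (c (c (m (nat_lit 0x9933c)) e) e))) (c (c (c (m (nat_lit 0x128f565c)) (c (m (nat_lit 0x4f11720)) e)) (c (c (m (nat_lit 0x15df74)) e) e)) (c (c (c (m (nat_lit 0x99030)) e) e) e))) (c (c (c (c (p (nat_lit 0x4263324)) (c (m (nat_lit 0x3fff3a8)) e)) (c (c (m (nat_lit 0x3fff360)) e) e)) (c (c (c (m (nat_lit 0x98fdc)) e) e) e)) (c (c (c (c (m (nat_lit 0x99048)) e) e) e) e)))) (c (c (c (c (c (m (nat_lit 0x138b5884)) (c (m (nat_lit 0x642bd6c)) (c (p (nat_lit 0x61f0650)) e))) (c (c (p (nat_lit 0x200bad60)) (c (p (nat_lit 0x419f898)) e)) (c (c (m (nat_lit 0xa025c04)) e) e))) (c (c (c (p (nat_lit 0x4c9ab8)) (c (m (nat_lit 0x98f1c)) e)) (c (c (m (nat_lit 0x131f7c)) e) e)) (c (c (c (m (nat_lit 0x98e14))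 e) e) e))) (c (c (c (c (m (nat_lit 0x32a7710)) (c (m (nat_lit 0xc636c)) e)) (c (c (m (nat_lit 0x99234)) e) e)) (c (c (c (m (nat_lit 0xc4c80)) e) e) e)) (c (c (c (c (m (nat_lit 0x3fff33c)) e) e) e) e))) (c (c (c (c (c (p (nat_lit 0xe1e9acc)) (c (p (nat_lit 0x410ded0)) e)) (c (c (m (nat_lit 0xa025c04)) e) e)) (c (c (c (m (nat_lit 0x7a4)) e) e) e)) (c (c (c (c (m (nat_lit 0x98f1c)) e) e) e) e)) (c (c (c (c (c (m (nat_lit 0x2048e14)) e) e) e) e) e)))) (c (c (c (c (c (c (p (nat_lit 0x22991328)) (c (p (nat_lit 0x1c768200)) (c (m (nat_lit 0x5b761c0)) e))) (c (c (p (nat_lit 0x4c9ab8)) (c (m (nat_lit 0x98f1c)) e)) (c (c (m (nat_lit 0x7a4)) e) e))) (c (c (c (m (nat_lit 0xd6c0c8c)) (c (m (nat_lit 0x6f95d60)) e)) (c (c (m (nat_lit 0x132d80)) e) e)) (c (c (c (p (nat_lit 0x46bb508)) e) e) e))) (c (c (c (c (m (nat_lit 0x62d8190)) (c (p (nat_lit 0x169098))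 e)) (c (c (m (nat_lit 0x1f72c8)) e) e)) (c (c (c (p (nat_lit 0x2c72e8)) e) e) e)) (c (c (c (c (m (nat_lit 0x131c70)) e) e) e) e))) (c (c (c (c (c (p (nat_lit 0x561534)) (c (m (nat_lit 0x132624)) e)) (c (c (m (nat_lit 0x131f7c)) e) e)) (c (c (c (m (nat_lit 0x132d80)) e) e) e)) (c (c (c (c (m (nat_lit 0x2bd58)) e) e) e) e)) (c (c (c (c (c (m (nat_lit 0x992a0)) e) e) e) e) e))) (c (c (c (c (c (c (m (nat_lit 0x44be30c)) (c (m (nat_lit 0x5b73c70)) e)) (c (c (m (nat_lit 0x98e14)) e) e)) (c (c (c (p (nat_lit 0x46bb508)) e) e) e)) (c (c (c (c (p (nat_lit 0x22eb94)) e) e) e) e)) (c (c (c (c (c (m (nat_lit 0x99084)) e) e) e) e) e)) (c (c (c (c (c (c (m (nat_lit 0x97f68)) e) e) e) e) e) e)))) (c (c (c (c (c (c (c (p (nat_lit 0x984c1f8)) (c (m (nat_lit 0x3acb9b4)) (c (m (nat_lit 0x1f69f8)) e))) (c (c (m (nat_lit 0x32a7710)) (c (m (nat_lit 0xc636c))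 e)) (c (c (m (nat_lit 0x98f1c)) e) e))) (c (c (c (m (nat_lit 0x62d8190)) (c (p (nat_lit 0x169098)) e)) (c (c (m (nat_lit 0x2bd58)) e) e)) (c (c (c (p (nat_lit 0x22eb94)) e) e) e))) (c (c (c (c (m (nat_lit 0x5b23b40)) (c (m (nat_lit 0x512f0b8)) e)) (c (c (m (nat_lit 0x12f120)) e) e)) (c (c (c (p (nat_lit 0x5eabc20)) e) e) e)) (c (c (c (c (m (nat_lit 0x1323e4)) e) e) e) e))) (c (c (c (c (c (m (nat_lit 0x730bbdc)) (c (m (nat_lit 0x1f842c)) e)) (c (c (m (nat_lit 0x99234)) e) e)) (c (c (c (m (nat_lit 0x1f72c8)) e) e) e)) (c (c (c (c (m (nat_lit 0x12f120)) e) e) e) e)) (c (c (c (c (c (m (nat_lit 0x9933c)) e) e) e) e) e))) (c (c (c (c (c (c (m (nat_lit 0x128f565c)) (c (m (nat_lit 0x4f11720)) e)) (c (c (m (nat_lit 0xc4c80)) e) e)) (c (c (c (p (nat_lit 0x2c72e8)) e) e) e)) (c (c (c (c (p (nat_lit 0x5eabc20)) e) e) e) e)) (c (c (c (c (c (m (nat_lit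 0x15df74)) e) e) e) e) e)) (c (c (c (c (c (c (m (nat_lit 0x99030)) e) e) e) e) e) e))) (c (c (c (c (c (c (c (p (nat_lit 0x4263324)) (c (m (nat_lit 0x3fff3a8)) e)) (c (c (m (nat_lit 0x3fff33c)) e) e)) (c (c (c (m (nat_lit 0x131c70)) e) e) e)) (c (c (c (c (m (nat_lit 0x1323e4)) e) e) e) e)) (c (c (c (c (c (m (nat_lit 0x3fff360)) e) e) e) e) e)) (c (c (c (c (c (c (m (nat_lit 0x98fdc)) e) e) e) e) e) e)) (c (c (c (c (c (c (c (m (nat_lit 0x99048)) e) e) e) e) e) e) e)))) (c (c (c (c (c (c (c (c (p (nat_lit 0x9703680)) (c (p (nat_lit 0x163b870)) (c (m (nat_lit 0xaadaab8)) e))) (c (c (m (nat_lit 0x42c8d54)) (c (p (nat_lit 0x131964)) e)) (c (c (m (nat_lit 0x99240)) e) e))) (c (c (c (m (nat_lit 0x15c60534)) (c (m (nat_lit 0xad40474)) e)) (c (c (m (nat_lit 0x1cac70)) e) e)) (c (c (c (p (nat_lit 0xb40)) e) e) e))) (c (c (c (c (p (nat_lit 0x5fbd7c))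 (c (m (nat_lit 0x133cbc)) e)) (c (c (p (nat_lit 0x4192ef0)) e) e)) (c (c (c (p (nat_lit 0xc714a80)) e) e) e)) (c (c (c (c (m (nat_lit 0x98ee0)) e) e) e) e))) (c (c (c (c (c (m (nat_lit 0x42c8d54)) (c (p (nat_lit 0x131964)) e)) (c (c (m (nat_lit 0x13215c)) e) e)) (c (c (c (m (nat_lit 0x131dcc)) e) e) e)) (c (c (c (c (m (nat_lit 0x98f04)) e) e) e) e)) (c (c (c (c (c (m (nat_lit 0x99240)) e) e) e) e) e))) (c (c (c (c (c (c (m (nat_lit 0x15c60534)) (c (m (nat_lit 0xad40474)) e)) (c (c (m (nat_lit 0x131dcc)) e) e)) (c (c (c (m (nat_lit 0x263f28)) e) e) e)) (c (c (c (c (m (nat_lit 0x131c7c)) e) e) e) e)) (c (c (c (c (c (m (nat_lit 0x1cac70)) e) e) e) e) e)) (c (c (c (c (c (c (p (nat_lit 0xb40)) e) e) e) e) e) e))) (c (c (c (c (c (c (c (p (nat_lit 0x5fbd7c)) (c (m (nat_lit 0x133cbc)) e)) (c (c (m (nat_lit 0x98f04)) e) e)) (c (c (c (m (nat_lit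 0x131c7c)) e) e) e)) (c (c (c (c (m (nat_lit 0x2641e0)) e) e) e) e)) (c (c (c (c (c (p (nat_lit 0x4192ef0)) e) e) e) e) e)) (c (c (c (c (c (c (p (nat_lit 0xc714a80)) e) e) e) e) e) e)) (c (c (c (c (c (c (c (m (nat_lit 0x98ee0)) e) e) e) e) e) e) e))) (c (c (c (c (c (c (c (c (p (nat_lit 0xabaacf34)) (c (p (nat_lit 0x2d39690)) e)) (c (c (m (nat_lit 0x1782f6e4)) e) e)) (c (c (c (m (nat_lit 0x4aa1680)) e) e) e)) (c (c (c (c (m (nat_lit 0x11816b14)) e) e) e) e)) (c (c (c (c (c (m (nat_lit 0x1782f6e4)) e) e) e) e) e)) (c (c (c (c (c (c (m (nat_lit 0x4aa1680)) e) e) e) e) e) e)) (c (c (c (c (c (c (c (m (nat_lit 0x11816b14)) e) e) e) e) e) e) e)) (c (c (c (c (c (c (c (c (m (nat_lit 0x263904)) e) e) e) e) e) e) e) e)))) (c (c (c (c (c (c (c (c (c (m (nat_lit 0x25cbfc)) (c (p (nat_lit 0x987168)) (c (m (nat_lit 0x395e38)) e))) (c (c (p (nat_lit 0x42f78c))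 (c (m (nat_lit 0x131ea4)) e)) (c (c (m (nat_lit 0x132198)) e) e))) (c (c (c (p (nat_lit 0x425a3c)) (c (m (nat_lit 0x395b80)) e)) (c (c (m (nat_lit 0x98f7c)) e) e)) (c (c (c (m (nat_lit 0x263dcc)) e) e) e))) (c (c (c (c (p (nat_lit 0x33f7938)) (c (p (nat_lit 0x19b67ec)) e)) (c (c (p (nat_lit 0x19b66c0)) e) e)) (c (c (c (m (nat_lit 0x132540)) e) e) e)) (c (c (c (c (m (nat_lit 0x98e2c)) e) e) e) e))) (c (c (c (c (c (p (nat_lit 0x42f78c)) (c (m (nat_lit 0x131ea4)) e)) (c (c (m (nat_lit 0x26412c)) e) e)) (c (c (c (m (nat_lit 0x1caeec)) e) e) e)) (c (c (c (c (p (nat_lit 0x1a4f48c)) e) e) e) e)) (c (c (c (c (c (m (nat_lit 0x132198)) e) e) e) e) e))) (c (c (c (c (c (c (p (nat_lit 0x425a3c)) (c (m (nat_lit 0x395b80)) e)) (c (c (m (nat_lit 0x1caeec)) e) e)) (c (c (c (m (nat_lit 0x395f1c)) e) e) e)) (c (c (c (c (p (nat_lit 0x270)) e) e) e) e)) (c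 (c (c (c (c (m (nat_lit 0x98f7c)) e) e) e) e) e)) (c (c (c (c (c (c (m (nat_lit 0x263dcc)) e) e) e) e) e) e))) (c (c (c (c (c (c (c (p (nat_lit 0x33f7938)) (c (p (nat_lit 0x19b67ec)) e)) (c (c (p (nat_lit 0x1a4f48c)) e) e)) (c (c (c (p (nat_lit 0x270)) e) e) e)) (c (c (c (c (m (nat_lit 0x265140)) e) e) e) e)) (c (c (c (c (c (p (nat_lit 0x19b66c0)) e) e) e) e) e)) (c (c (c (c (c (c (m (nat_lit 0x132540)) e) e) e) e) e) e)) (c (c (c (c (c (c (c (m (nat_lit 0x98e2c)) e) e) e) e) e) e) e))) (c (c (c (c (c (c (c (c (p (nat_lit 0x12a4ac)) (c (p (nat_lit 0x7890)) e)) (c (c (m (nat_lit 0x98ec8)) e) e)) (c (c (c (p (nat_lit 0x13a73c)) e) e) e)) (c (c (c (c (m (nat_lit 0x98f70)) e) e) e) e)) (c (c (c (c (c (m (nat_lit 0x98ec8)) e) e) e) e) e)) (c (c (c (c (c (c (p (nat_lit 0x13a73c)) e) e) e) e) e) e)) (c (c (c (c (c (c (c (m (nat_lit 0x98f70))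 e) e) e) e) e) e) e)) (c (c (c (c (c (c (c (c (m (nat_lit 0x4192b1d4)) e) e) e) e) e) e) e) e))) (c (c (c (c (c (c (c (c (c (p (nat_lit 0x72b7fc)) (c (m (nat_lit 0x395508)) e)) (c (c (m (nat_lit 0x1cb3cc)) e) e)) (c (c (c (m (nat_lit 0x1ca7cc)) e) e) e)) (c (c (c (c (m (nat_lit 0x131df0)) e) e) e) e)) (c (c (c (c (c (m (nat_lit 0x1cb3cc)) e) e) e) e) e)) (c (c (c (c (c (c (m (nat_lit 0x1ca7cc)) e) e) e) e) e) e)) (c (c (c (c (c (c (c (m (nat_lit 0x131df0)) e) e) e) e) e) e) e)) (c (c (c (c (c (c (c (c (m (nat_lit 0x131c64)) e) e) e) e) e) e) e) e)) (c (c (c (c (c (c (c (c (c (m (nat_lit 0x13218c)) e) e) e) e) e) e) e) e) e))))) (c (c (c (c (c (c (c (c (c (c (m (nat_lit 0x57469c8)) (c (m (nat_lit 0x358bff0)) (c (p (nat_lit 0x8425a88)) (c (p (nat_lit 0xfda238)) e)))) (c (c (p (nat_lit 0x22991328)) (c (p (nat_lit 0x1c768200)) (c (m (nat_lit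 0x5b761c0)) e))) (c (c (m (nat_lit 0x44be30c)) (c (m (nat_lit 0x5b73c70)) e)) (c (c (m (nat_lit 0x97f68)) e) e)))) (c (c (c (m (nat_lit 0x138b5884)) (c (m (nat_lit 0x642bd6c)) (c (p (nat_lit 0x61f0650)) e))) (c (c (p (nat_lit 0x561534)) (c (m (nat_lit 0x132624)) e)) (c (c (m (nat_lit 0x99084)) e) e))) (c (c (c (p (nat_lit 0xe1e9acc)) (c (p (nat_lit 0x410ded0)) e)) (c (c (m (nat_lit 0x992a0)) e) e)) (c (c (c (m (nat_lit 0x2048e14)) e) e) e)))) (c (c (c (c (p (nat_lit 0x984c1f8)) (c (m (nat_lit 0x3acb9b4)) (c (m (nat_lit 0x1f69f8)) e))) (c (c (m (nat_lit 0x128f565c)) (c (m (nat_lit 0x4f11720)) e)) (c (c (m (nat_lit 0x99030)) e) e))) (c (c (c (m (nat_lit 0x730bbdc)) (c (m (nat_lit 0x1f842c)) e)) (c (c (m (nat_lit 0x15df74)) e) e)) (c (c (c (m (nat_lit 0x9933c)) e) e) e))) (c (c (c (c (p (nat_lit 0x4263324)) (c (m (nat_lit 0x3fff3a8)) e))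 (c (c (m (nat_lit 0x98fdc)) e) e)) (c (c (c (m (nat_lit 0x3fff360)) e) e) e)) (c (c (c (c (m (nat_lit 0x99048)) e) e) e) e)))) (c (c (c (c (c (p (nat_lit 0x22991328)) (c (p (nat_lit 0x1c768200)) (c (m (nat_lit 0x5b761c0)) e))) (c (c (m (nat_lit 0xd6c0c8c)) (c (m (nat_lit 0x6f95d60)) e)) (c (c (p (nat_lit 0x46bb508)) e) e))) (c (c (c (p (nat_lit 0x4c9ab8)) (c (m (nat_lit 0x98f1c)) e)) (c (c (m (nat_lit 0x132d80)) e) e)) (c (c (c (m (nat_lit 0x7a4)) e) e) e))) (c (c (c (c (m (nat_lit 0x62d8190)) (c (p (nat_lit 0x169098)) e)) (c (c (p (nat_lit 0x2c72e8)) e) e)) (c (c (c (m (nat_lit 0x1f72c8)) e) e) e)) (c (c (c (c (m (nat_lit 0x131c70)) e) e) e) e))) (c (c (c (c (c (m (nat_lit 0x44be30c)) (c (m (nat_lit 0x5b73c70)) e)) (c (c (p (nat_lit 0x46bb508)) e) e)) (c (c (c (m (nat_lit 0x98e14)) e) e) e)) (c (c (c (c (p (nat_lit 0x22eb94)) e) e) e)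 e)) (c (c (c (c (c (m (nat_lit 0x97f68)) e) e) e) e) e)))) (c (c (c (c (c (c (m (nat_lit 0x138b5884)) (c (m (nat_lit 0x642bd6c)) (c (p (nat_lit 0x61f0650)) e))) (c (c (p (nat_lit 0x4c9ab8)) (c (m (nat_lit 0x98f1c)) e)) (c (c (m (nat_lit 0x98e14)) e) e))) (c (c (c (p (nat_lit 0x200bad60)) (c (p (nat_lit 0x419f898)) e)) (c (c (m (nat_lit 0x131f7c)) e) e)) (c (c (c (m (nat_lit 0xa025c04)) e) e) e))) (c (c (c (c (m (nat_lit 0x32a7710)) (c (m (nat_lit 0xc636c)) e)) (c (c (m (nat_lit 0xc4c80)) e) e)) (c (c (c (m (nat_lit 0x99234)) e) e) e)) (c (c (c (c (m (nat_lit 0x3fff33c)) e) e) e) e))) (c (c (c (c (c (p (nat_lit 0x561534)) (c (m (nat_lit 0x132624)) e)) (c (c (m (nat_lit 0x132d80)) e) e)) (c (c (c (m (nat_lit 0x131f7c)) e) e) e)) (c (c (c (c (m (nat_lit 0x2bd58)) e) e) e) e)) (c (c (c (c (c (m (nat_lit 0x99084)) e) e) e) e) e))) (c (c (c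 (c (c (c (p (nat_lit 0xe1e9acc)) (c (p (nat_lit 0x410ded0)) e)) (c (c (m (nat_lit 0x7a4)) e) e)) (c (c (c (m (nat_lit 0xa025c04)) e) e) e)) (c (c (c (c (m (nat_lit 0x98f1c)) e) e) e) e)) (c (c (c (c (c (m (nat_lit 0x992a0)) e) e) e) e) e)) (c (c (c (c (c (c (m (nat_lit 0x2048e14)) e) e) e) e) e) e)))) (c (c (c (c (c (c (c (p (nat_lit 0x984c1f8)) (c (m (nat_lit 0x3acb9b4)) (c (m (nat_lit 0x1f69f8)) e))) (c (c (m (nat_lit 0x62d8190)) (c (p (nat_lit 0x169098)) e)) (c (c (p (nat_lit 0x22eb94)) e) e))) (c (c (c (m (nat_lit 0x32a7710)) (c (m (nat_lit 0xc636c)) e)) (c (c (m (nat_lit 0x2bd58)) e) e)) (c (c (c (m (nat_lit 0x98f1c)) e) e) e))) (c (c (c (c (m (nat_lit 0x5b23b40)) (c (m (nat_lit 0x512f0b8)) e)) (c (c (p (nat_lit 0x5eabc20)) e) e)) (c (c (c (m (nat_lit 0x12f120)) e) e) e)) (c (c (c (c (m (nat_lit 0x1323e4)) e) e) e) e))) (c (c (c (c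 (c (m (nat_lit 0x128f565c)) (c (m (nat_lit 0x4f11720)) e)) (c (c (p (nat_lit 0x2c72e8)) e) e)) (c (c (c (m (nat_lit 0xc4c80)) e) e) e)) (c (c (c (c (p (nat_lit 0x5eabc20)) e) e) e) e)) (c (c (c (c (c (m (nat_lit 0x99030)) e) e) e) e) e))) (c (c (c (c (c (c (m (nat_lit 0x730bbdc)) (c (m (nat_lit 0x1f842c)) e)) (c (c (m (nat_lit 0x1f72c8)) e) e)) (c (c (c (m (nat_lit 0x99234)) e) e) e)) (c (c (c (c (m (nat_lit 0x12f120)) e) e) e) e)) (c (c (c (c (c (m (nat_lit 0x15df74)) e) e) e) e) e)) (c (c (c (c (c (c (m (nat_lit 0x9933c)) e) e) e) e) e) e))) (c (c (c (c (c (c (c (p (nat_lit 0x4263324)) (c (m (nat_lit 0x3fff3a8)) e)) (c (c (m (nat_lit 0x131c70)) e) e)) (c (c (c (m (nat_lit 0x3fff33c)) e) e) e)) (c (c (c (c (m (nat_lit 0x1323e4)) e) e) e) e)) (c (c (c (c (c (m (nat_lit 0x98fdc)) e) e) e) e) e)) (c (c (c (c (c (c (m (nat_lit 0x3fff360))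 e) e) e) e) e) e)) (c (c (c (c (c (c (c (m (nat_lit 0x99048)) e) e) e) e) e) e) e)))) (c (c (c (c (c (c (c (c (p (nat_lit 0x9703680)) (c (p (nat_lit 0x163b870)) (c (m (nat_lit 0xaadaab8)) e))) (c (c (m (nat_lit 0x15c60534)) (c (m (nat_lit 0xad40474)) e)) (c (c (p (nat_lit 0xb40)) e) e))) (c (c (c (m (nat_lit 0x42c8d54)) (c (p (nat_lit 0x131964)) e)) (c (c (m (nat_lit 0x1cac70)) e) e)) (c (c (c (m (nat_lit 0x99240)) e) e) e))) (c (c (c (c (p (nat_lit 0x5fbd7c)) (c (m (nat_lit 0x133cbc)) e)) (c (c (p (nat_lit 0xc714a80)) e) e)) (c (c (c (p (nat_lit 0x4192ef0)) e) e) e)) (c (c (c (c (m (nat_lit 0x98ee0)) e) e) e) e))) (c (c (c (c (c (m (nat_lit 0x15c60534)) (c (m (nat_lit 0xad40474)) e)) (c (c (m (nat_lit 0x263f28)) e) e)) (c (c (c (m (nat_lit 0x131dcc)) e) e) e)) (c (c (c (c (m (nat_lit 0x131c7c)) e) e) e) e)) (c (c (c (c (c (p (nat_lit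 0xb40)) e) e) e) e) e))) (c (c (c (c (c (c (m (nat_lit 0x42c8d54)) (c (p (nat_lit 0x131964)) e)) (c (c (m (nat_lit 0x131dcc)) e) e)) (c (c (c (m (nat_lit 0x13215c)) e) e) e)) (c (c (c (c (m (nat_lit 0x98f04)) e) e) e) e)) (c (c (c (c (c (m (nat_lit 0x1cac70)) e) e) e) e) e)) (c (c (c (c (c (c (m (nat_lit 0x99240)) e) e) e) e) e) e))) (c (c (c (c (c (c (c (p (nat_lit 0x5fbd7c)) (c (m (nat_lit 0x133cbc)) e)) (c (c (m (nat_lit 0x131c7c)) e) e)) (c (c (c (m (nat_lit 0x98f04)) e) e) e)) (c (c (c (c (m (nat_lit 0x2641e0)) e) e) e) e)) (c (c (c (c (c (p (nat_lit 0xc714a80)) e) e) e) e) e)) (c (c (c (c (c (c (p (nat_lit 0x4192ef0)) e) e) e) e) e) e)) (c (c (c (c (c (c (c (m (nat_lit 0x98ee0)) e) e) e) e) e) e) e))) (c (c (c (c (c (c (c (c (p (nat_lit 0xabaacf34)) (c (p (nat_lit 0x2d39690)) e)) (c (c (m (nat_lit 0x4aa1680)) e) e)) (c (c (c (m (nat_lit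 0x1782f6e4)) e) e) e)) (c (c (c (c (m (nat_lit 0x11816b14)) e) e) e) e)) (c (c (c (c (c (m (nat_lit 0x4aa1680)) e) e) e) e) e)) (c (c (c (c (c (c (m (nat_lit 0x1782f6e4)) e) e) e) e) e) e)) (c (c (c (c (c (c (c (m (nat_lit 0x11816b14)) e) e) e) e) e) e) e)) (c (c (c (c (c (c (c (c (m (nat_lit 0x263904)) e) e) e) e) e) e) e) e)))) (c (c (c (c (c (c (c (c (c (p (nat_lit 0x8049888)) (c (m (nat_lit 0x791cda8)) (c (m (nat_lit 0x4c8918)) e))) (c (c (m (nat_lit 0x3d31034)) (c (m (nat_lit 0x4305c0)) e)) (c (c (m (nat_lit 0x99168)) e) e))) (c (c (c (m (nat_lit 0x3d31034)) (c (m (nat_lit 0x4305c0)) e)) (c (c (m (nat_lit 0x3980a0)) e) e)) (c (c (c (m (nat_lit 0x99168)) e) e) e))) (c (c (c (c (p (nat_lit 0x131e74)) (c (m (nat_lit 0x131d6c)) e)) (c (c (m (nat_lit 0x99114)) e) e)) (c (c (c (m (nat_lit 0x99114)) e) e) e)) (c (c (c (c (m (nat_lit 0x131fa0))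 e) e) e) e))) (c (c (c (c (c (m (nat_lit 0x3d31034)) (c (m (nat_lit 0x4305c0)) e)) (c (c (m (nat_lit 0x131d90)) e) e)) (c (c (c (m (nat_lit 0x397650)) e) e) e)) (c (c (c (c (m (nat_lit 0x98fb8)) e) e) e) e)) (c (c (c (c (c (m (nat_lit 0x99168)) e) e) e) e) e))) (c (c (c (c (c (c (m (nat_lit 0x3d31034)) (c (m (nat_lit 0x4305c0)) e)) (c (c (m (nat_lit 0x397650)) e) e)) (c (c (c (m (nat_lit 0x131d90)) e) e) e)) (c (c (c (c (m (nat_lit 0x98fb8)) e) e) e) e)) (c (c (c (c (c (m (nat_lit 0x3980a0)) e) e) e) e) e)) (c (c (c (c (c (c (m (nat_lit 0x99168)) e) e) e) e) e) e))) (c (c (c (c (c (c (c (p (nat_lit 0x131e74)) (c (m (nat_lit 0x131d6c)) e)) (c (c (m (nat_lit 0x98fb8)) e) e)) (c (c (c (m (nat_lit 0x98fb8)) e) e) e)) (c (c (c (c (m (nat_lit 0x263ac0)) e) e) e) e)) (c (c (c (c (c (m (nat_lit 0x99114)) e) e) e) e) e)) (c (c (c (c (c (c (m (nat_lit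 0x99114)) e) e) e) e) e) e)) (c (c (c (c (c (c (c (m (nat_lit 0x131fa0)) e) e) e) e) e) e) e))) (c (c (c (c (c (c (c (c (m (nat_lit 0x910bc30)) (c (p (nat_lit 0x7de6a70)) e)) (c (c (p (nat_lit 0x4161bb8)) e) e)) (c (c (c (p (nat_lit 0x4161bb8)) e) e) e)) (c (c (c (c (m (nat_lit 0x132000)) e) e) e) e)) (c (c (c (c (c (p (nat_lit 0x4161bb8)) e) e) e) e) e)) (c (c (c (c (c (c (p (nat_lit 0x4161bb8)) e) e) e) e) e) e)) (c (c (c (c (c (c (c (m (nat_lit 0x132000)) e) e) e) e) e) e) e)) (c (c (c (c (c (c (c (c (m (nat_lit 0x17f4cf00)) e) e) e) e) e) e) e) e))) (c (c (c (c (c (c (c (c (c (p (nat_lit 0x263b38)) (c (m (nat_lit 0x131c10)) e)) (c (c (m (nat_lit 0x99150)) e) e)) (c (c (c (m (nat_lit 0x131e20)) e) e) e)) (c (c (c (c (m (nat_lit 0x4e458d0)) e) e) e) e)) (c (c (c (c (c (m (nat_lit 0x99150)) e) e) e) e) e)) (c (c (c (c (c (c (m (nat_lit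 0x131e20)) e) e) e) e) e) e)) (c (c (c (c (c (c (c (m (nat_lit 0x4e458d0)) e) e) e) e) e) e) e)) (c (c (c (c (c (c (c (c (p (nat_lit 0x1337e8)) e) e) e) e) e) e) e) e)) (c (c (c (c (c (c (c (c (c (m (nat_lit 0x1320f0)) e) e) e) e) e) e) e) e) e)))) (c (c (c (c (c (c (c (c (c (c (m (nat_lit 0x25cbfc)) (c (p (nat_lit 0x987168)) (c (m (nat_lit 0x395e38)) e))) (c (c (p (nat_lit 0x425a3c)) (c (m (nat_lit 0x395b80)) e)) (c (c (m (nat_lit 0x263dcc)) e) e))) (c (c (c (p (nat_lit 0x42f78c)) (c (m (nat_lit 0x131ea4)) e)) (c (c (m (nat_lit 0x98f7c)) e) e)) (c (c (c (m (nat_lit 0x132198)) e) e) e))) (c (c (c (c (p (nat_lit 0x33f7938)) (c (p (nat_lit 0x19b67ec)) e)) (c (c (m (nat_lit 0x132540)) e) e)) (c (c (c (p (nat_lit 0x19b66c0)) e) e) e)) (c (c (c (c (m (nat_lit 0x98e2c)) e) e) e) e))) (c (c (c (c (c (p (nat_lit 0x425a3c)) (c (m (nat_lit 0x395b80))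 e)) (c (c (m (nat_lit 0x395f1c)) e) e)) (c (c (c (m (nat_lit 0x1caeec)) e) e) e)) (c (c (c (c (p (nat_lit 0x270)) e) e) e) e)) (c (c (c (c (c (m (nat_lit 0x263dcc)) e) e) e) e) e))) (c (c (c (c (c (c (p (nat_lit 0x42f78c)) (c (m (nat_lit 0x131ea4)) e)) (c (c (m (nat_lit 0x1caeec)) e) e)) (c (c (c (m (nat_lit 0x26412c)) e) e) e)) (c (c (c (c (p (nat_lit 0x1a4f48c)) e) e) e) e)) (c (c (c (c (c (m (nat_lit 0x98f7c)) e) e) e) e) e)) (c (c (c (c (c (c (m (nat_lit 0x132198)) e) e) e) e) e) e))) (c (c (c (c (c (c (c (p (nat_lit 0x33f7938)) (c (p (nat_lit 0x19b67ec)) e)) (c (c (p (nat_lit 0x270)) e) e)) (c (c (c (p (nat_lit 0x1a4f48c)) e) e) e)) (c (c (c (c (m (nat_lit 0x265140)) e) e) e) e)) (c (c (c (c (c (m (nat_lit 0x132540)) e) e) e) e) e)) (c (c (c (c (c (c (p (nat_lit 0x19b66c0)) e) e) e) e) e) e)) (c (c (c (c (c (c (c (m (nat_lit 0x98e2c))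 e) e) e) e) e) e) e))) (c (c (c (c (c (c (c (c (p (nat_lit 0x12a4ac)) (c (p (nat_lit 0x7890)) e)) (c (c (p (nat_lit 0x13a73c)) e) e)) (c (c (c (m (nat_lit 0x98ec8)) e) e) e)) (c (c (c (c (m (nat_lit 0x98f70)) e) e) e) e)) (c (c (c (c (c (p (nat_lit 0x13a73c)) e) e) e) e) e)) (c (c (c (c (c (c (m (nat_lit 0x98ec8)) e) e) e) e) e) e)) (c (c (c (c (c (c (c (m (nat_lit 0x98f70)) e) e) e) e) e) e) e)) (c (c (c (c (c (c (c (c (m (nat_lit 0x4192b1d4)) e) e) e) e) e) e) e) e))) (c (c (c (c (c (c (c (c (c (p (nat_lit 0x263b38)) (c (m (nat_lit 0x131c10)) e)) (c (c (m (nat_lit 0x131e20)) e) e)) (c (c (c (m (nat_lit 0x99150)) e) e) e)) (c (c (c (c (m (nat_lit 0x4e458d0)) e) e) e) e)) (c (c (c (c (c (m (nat_lit 0x131e20)) e) e) e) e) e)) (c (c (c (c (c (c (m (nat_lit 0x99150)) e) e) e) e) e) e)) (c (c (c (c (c (c (c (m (nat_lit 0x4e458d0)) e) e) e)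 e) e) e) e)) (c (c (c (c (c (c (c (c (p (nat_lit 0x1337e8)) e) e) e) e) e) e) e) e)) (c (c (c (c (c (c (c (c (c (m (nat_lit 0x2640a8)) e) e) e) e) e) e) e) e) e))) (c (c (c (c (c (c (c (c (c (c (p (nat_lit 0x72b7fc)) (c (m (nat_lit 0x395508)) e)) (c (c (m (nat_lit 0x1ca7cc)) e) e)) (c (c (c (m (nat_lit 0x1cb3cc)) e) e) e)) (c (c (c (c (m (nat_lit 0x131df0)) e) e) e) e)) (c (c (c (c (c (m (nat_lit 0x1ca7cc)) e) e) e) e) e)) (c (c (c (c (c (c (m (nat_lit 0x1cb3cc)) e) e) e) e) e) e)) (c (c (c (c (c (c (c (m (nat_lit 0x131df0)) e) e) e) e) e) e) e)) (c (c (c (c (c (c (c (c (m (nat_lit 0x131c64)) e) e) e) e) e) e) e) e)) (c (c (c (c (c (c (c (c (c (m (nat_lit 0x1320f0)) e) e) e) e) e) e) e) e) e)) (c (c (c (c (c (c (c (c (c (c (m (nat_lit 0x13218c)) e) e) e) e) e) e) e) e) e) e)))))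

theorem c1 : trsOK col trs = true := by decide +kernel
theorem c2 : Nat.ble (Nat.mul (nat_lit 39) (nat_lit 4556)) (nat_lit 4294967295) = true := by decide +kernel
theorem c3 : Nat.beq (tabK (nat_lit 39) (List.ofFn s10)) kt = true := by decide +kernel
theorem c4 : okE trs E = true := by decide +kernel
theorem c5 : dE E (nat_lit 4) = true := by decide +kernel
theorem c6 : cmpK (nat_lit 10) (nat_lit 4) kt E T = true := by decide +kernel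
theorem c7 : bndK (nat_lit 10) (nat_lit 4) (Nat.pow (nat_lit 2) (nat_lit 39)) E T = true := by decide +kernel

theorem c0 : Fl.codeB col = 76 := by decide +kernel

theorem own : Fl.OwnOK 4 T 76 :=
  own_ok c0 c1 c2 c3 c4 c5 c6 c7

end H76

end Own

end HR
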