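import Pool.Agent.Lib.MP_a1b8b7_co.D.G0
import Pool.Agent.Lib.MP_a1b8b7_co.D.G1

/-!
# Tables of the G part and the T part
-/

set_option autoImplicit false
set_option maxRecDepth 1000000

namespace HR

namespace Dat

open Fl Fl.Tr

/-- table of the G part -/
noncomputable def GD : Tr := (c gt_0 (c gt_1 e))

noncomputable def tt_0_0 : Tr :=
  (c (c (c (c (p (nat_lit 0x166500c)) (c (m (nat_lit 0xdff2078)) e)) (c (c (m (nat_lit 0x9ca492)) (c (p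
  (nat_lit 0x61e6db4)) e)) (c (c (m (nat_lit 0x594436)) (c (p (nat_lit 0x37caa1c)) e)) (c (c (p (nat_lit
  0x4fc964)) (c (m (nat_lit 0x31ddde8)) e)) e)))) (c (c (c (m (nat_lit 0x81e590)) (c (p (nat_lit 0x512f7a0))
  e)) (c (c (p (nat_lit 0xe6444a)) (c (m (nat_lit 0x8feaae4)) e)) (c (c (m (nat_lit 0x4744cc)) (c (p (nat_lit
  0x2c8aff8)) e)) e))) (c (c (c (m (nat_lit 0x594436)) (c (p (nat_lit 0x37caa1c)) e)) (c (c (m (nat_lit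
  0x4744cc)) (c (p (nat_lit 0x2c8aff8)) e)) e)) (c (c (c (p (nat_lit 0x4fc964)) (c (m (nat_lit 0x31ddde8))
  e)) e) e)))) (c (c (c (c (m (nat_lit 0x81e590)) (c (p (nat_lit 0x512f7a0)) e)) (c (c (p (nat_lit 0xe6444a))
  (c (m (nat_lit 0x8feaae4)) e)) (c (c (m (nat_lit 0x4744cc)) (c (p (nat_lit 0x2c8aff8)) e)) e))) (c (c (c (p
  (nat_lit 0xf72bb8)) (c (m (nat_lit 0x9a7b530)) e)) (c (c (p (nat_lit 0xc1278)) (c (m (nat_lit 0x78b8b0))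
  e)) e)) (c (c (c (m (nat_lit 0x4744cc)) (c (p (nat_lit 0x2c8aff8)) e)) e) e))) (c (c (c (c (m (nat_lit
  0x594436)) (c (p (nat_lit 0x37caa1c)) e)) (c (c (m (nat_lit 0x4744cc)) (c (p (nat_lit 0x2c8aff8)) e)) e))
  (c (c (c (m (nat_lit 0x4744cc)) (c (p (nat_lit 0x2c8aff8)) e)) e) e)) (c (c (c (c (p (nat_lit 0x4fc964)) (c
  (m (nat_lit 0x31ddde8)) e)) e) e) e))))

noncomputable def tt_0_1 : Tr :=
  (c (c (c (c (p (nat_lit 0x166500c)) e) (c (c (m (nat_lit 0x9ca492)) e) (c (c (m (nat_lit 0x594436)) e) (c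
  (c (p (nat_lit 0x4fc964)) e) e)))) (c (c (c (m (nat_lit 0x81e590)) e) (c (c (p (nat_lit 0xe6444a)) e) (c (c
  (m (nat_lit 0x4744cc)) e) e))) (c (c (c (m (nat_lit 0x594436)) e) (c (c (m (nat_lit 0x4744cc)) e) e)) (c (c
  (c (p (nat_lit 0x4fc964)) e) e) e)))) (c (c (c (c (m (nat_lit 0x81e590)) e) (c (c (p (nat_lit 0xe6444a)) e)
  (c (c (m (nat_lit 0x4744cc)) e) e))) (c (c (c (p (nat_lit 0xf72bb8)) e) (c (c (p (nat_lit 0xc1278)) e) e))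
  (c (c (c (m (nat_lit 0x4744cc)) e) e) e))) (c (c (c (c (m (nat_lit 0x594436)) e) (c (c (m (nat_lit
  0x4744cc)) e) e)) (c (c (c (m (nat_lit 0x4744cc)) e) e) e)) (c (c (c (c (p (nat_lit 0x4fc964)) e) e) e)
  e))))

noncomputable def tt_0 : Tr := (c tt_0_0 (c tt_0_1 e))

noncomputable def tt_1_0 : Tr :=
  (c (c (c (c (p (nat_lit 0x4c4c94)) (c (m (nat_lit 0x2fafdc8)) e)) (c (c (m (nat_lit 0xdd72e)) (c (p
  (nat_lit 0x8a67cc)) e)) (c (c (p (nat_lit 0x985adc)) (c (m (nat_lit 0x5f38c98)) e)) (c (c (p (nat_lit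
  0x61f1c)) (c (m (nat_lit 0x3d3718)) e)) e)))) (c (c (c (m (nat_lit 0x10e2a3)) (c (p (nat_lit 0xa8da5e)) e))
  (c (c (m (nat_lit 0xa)) (c (p (nat_lit 0x64)) e)) (c (c (m (nat_lit 0x2e96e2)) (c (p (nat_lit 0x1d1e4d4))
  e)) e))) (c (c (c (p (nat_lit 0x5598ed)) (c (m (nat_lit 0x357f942)) e)) (c (c (p (nat_lit 0x9e252)) (c (m
  (nat_lit 0x62d734)) e)) e)) (c (c (c (m (nat_lit 0x390898)) (c (p (nat_lit 0x23a55f0)) e)) e) e)))) (c (c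
  (c (c (m (nat_lit 0x10e2a3)) (c (p (nat_lit 0xa8da5e)) e)) (c (c (m (nat_lit 0xa)) (c (p (nat_lit 0x64))
  e)) (c (c (m (nat_lit 0x2e96e2)) (c (p (nat_lit 0x1d1e4d4)) e)) e))) (c (c (c (p (nat_lit 0x351c74)) (c (m
  (nat_lit 0x2131c88)) e)) (c (c (p (nat_lit 0x44bca)) (c (m (nat_lit 0x2af5e4)) e)) e)) (c (c (c (m (nat_lit
  0x11869c)) (c (p (nat_lit 0xaf4218)) e)) e) e))) (c (c (c (c (p (nat_lit 0x5598ed)) (c (m (nat_lit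
  0x357f942)) e)) (c (c (p (nat_lit 0x9e252)) (c (m (nat_lit 0x62d734)) e)) e)) (c (c (c (m (nat_lit
  0x11869c)) (c (p (nat_lit 0xaf4218)) e)) e) e)) (c (c (c (c (m (nat_lit 0x390898)) (c (p (nat_lit
  0x23a55f0)) e)) e) e) e))))

noncomputable def tt_1_1 : Tr :=
  (c (c (c (c (p (nat_lit 0x4c4c94)) e) (c (c (m (nat_lit 0xdd72e)) e) (c (c (p (nat_lit 0x985adc)) e) (c (c
  (p (nat_lit 0x61f1c)) e) e)))) (c (c (c (m (nat_lit 0x10e2a3)) e) (c (c (m (nat_lit 0xa)) e) (c (c (m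
  (nat_lit 0x2e96e2)) e) e))) (c (c (c (p (nat_lit 0x5598ed)) e) (c (c (p (nat_lit 0x9e252)) e) e)) (c (c (c
  (m (nat_lit 0x390898)) e) e) e)))) (c (c (c (c (m (nat_lit 0x10e2a3)) e) (c (c (m (nat_lit 0xa)) e) (c (c
  (m (nat_lit 0x2e96e2)) e) e))) (c (c (c (p (nat_lit 0x351c74)) e) (c (c (p (nat_lit 0x44bca)) e) e)) (c (c
  (c (m (nat_lit 0x11869c)) e) e) e))) (c (c (c (c (p (nat_lit 0x5598ed)) e) (c (c (p (nat_lit 0x9e252)) e)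
  e)) (c (c (c (m (nat_lit 0x11869c)) e) e) e)) (c (c (c (c (m (nat_lit 0x390898)) e) e) e) e))))

noncomputable def tt_1 : Tr := (c tt_1_0 (c tt_1_1 e))

noncomputable def tt_2_0 : Tr :=
  (c (c (c (c (p (nat_lit 0x59e674)) (c (m (nat_lit 0x3830088)) e)) (c (c (m (nat_lit 0x2ba1a5)) (c (p
  (nat_lit 0x1b45072)) e)) (c (c (p (nat_lit 0x5598ed)) (c (m (nat_lit 0x357f942)) e)) (c (c (m (nat_lit
  0x390898)) (c (p (nat_lit 0x23a55f0)) e)) e)))) (c (c (c (p (nat_lit 0xaad98)) (c (m (nat_lit 0x6ac7f0))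
  e)) (c (c (m (nat_lit 0xa)) (c (p (nat_lit 0x64)) e)) (c (c (p (nat_lit 0x9e252)) (c (m (nat_lit 0x62d734))
  e)) e))) (c (c (c (p (nat_lit 0x985adc)) (c (m (nat_lit 0x5f38c98)) e)) (c (c (m (nat_lit 0x2e96e2)) (c (p
  (nat_lit 0x1d1e4d4)) e)) e)) (c (c (c (p (nat_lit 0x61f1c)) (c (m (nat_lit 0x3d3718)) e)) e) e)))) (c (c (c
  (c (m (nat_lit 0x84975)) (c (p (nat_lit 0x52de92)) e)) (c (c (p (nat_lit 0x243506)) (c (m (nat_lit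
  0x16a123c)) e)) (c (c (m (nat_lit 0x11869c)) (c (p (nat_lit 0xaf4218)) e)) e))) (c (c (c (p (nat_lit
  0xf7a84)) (c (m (nat_lit 0x9ac928)) e)) (c (c (p (nat_lit 0x44bca)) (c (m (nat_lit 0x2af5e4)) e)) e)) (c (c
  (c (m (nat_lit 0x2e96e2)) (c (p (nat_lit 0x1d1e4d4)) e)) e) e))) (c (c (c (c (p (nat_lit 0x5598ed)) (c (m
  (nat_lit 0x357f942)) e)) (c (c (m (nat_lit 0x11869c)) (c (p (nat_lit 0xaf4218)) e)) e)) (c (c (c (p
  (nat_lit 0x9e252)) (c (m (nat_lit 0x62d734)) e)) e) e)) (c (c (c (c (m (nat_lit 0x390898)) (c (p (nat_lit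
  0x23a55f0)) e)) e) e) e))))

noncomputable def tt_2_1 : Tr :=
  (c (c (c (c (p (nat_lit 0x59e674)) e) (c (c (m (nat_lit 0x2ba1a5)) e) (c (c (p (nat_lit 0x5598ed)) e) (c (c
  (m (nat_lit 0x390898)) e) e)))) (c (c (c (p (nat_lit 0xaad98)) e) (c (c (m (nat_lit 0xa)) e) (c (c (p
  (nat_lit 0x9e252)) e) e))) (c (c (c (p (nat_lit 0x985adc)) e) (c (c (m (nat_lit 0x2e96e2)) e) e)) (c (c (c
  (p (nat_lit 0x61f1c)) e) e) e)))) (c (c (c (c (m (nat_lit 0x84975)) e) (c (c (p (nat_lit 0x243506)) e) (c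
  (c (m (nat_lit 0x11869c)) e) e))) (c (c (c (p (nat_lit 0xf7a84)) e) (c (c (p (nat_lit 0x44bca)) e) e)) (c
  (c (c (m (nat_lit 0x2e96e2)) e) e) e))) (c (c (c (c (p (nat_lit 0x5598ed)) e) (c (c (m (nat_lit 0x11869c))
  e) e)) (c (c (c (p (nat_lit 0x9e252)) e) e) e)) (c (c (c (c (m (nat_lit 0x390898)) e) e) e) e))))

noncomputable def tt_2 : Tr := (c tt_2_0 (c tt_2_1 e))

noncomputable def tt_3_0 : Tr :=
  (c (c (c (c (p (nat_lit 0x6f7aa4)) (c (m (nat_lit 0x45aca68)) e)) (c (c (p (nat_lit 0x40f809)) (c (m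
  (nat_lit 0x289b05a)) e)) (c (c (m (nat_lit 0xa6b193)) (c (p (nat_lit 0x682efbe)) e)) (c (c (p (nat_lit
  0x4ecb57)) (c (m (nat_lit 0x313f166)) e)) e)))) (c (c (c (p (nat_lit 0x597ccf)) (c (m (nat_lit 0x37ee016))
  e)) (c (c (p (nat_lit 0x124cdc)) (c (m (nat_lit 0xb70098)) e)) (c (c (p (nat_lit 0x2bba83)) (c (m (nat_lit
  0x1b5491e)) e)) e))) (c (c (c (m (nat_lit 0xa6b193)) (c (p (nat_lit 0x682efbe)) e)) (c (c (p (nat_lit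
  0x2bba83)) (c (m (nat_lit 0x1b5491e)) e)) e)) (c (c (c (p (nat_lit 0x4ecb57)) (c (m (nat_lit 0x313f166))
  e)) e) e)))) (c (c (c (c (p (nat_lit 0x146d2dc)) (c (m (nat_lit 0xcc43c98)) e)) (c (c (m (nat_lit
  0x719e77)) (c (p (nat_lit 0x47030a6)) e)) (c (c (p (nat_lit 0xecb21)) (c (m (nat_lit 0x93ef4a)) e)) e))) (c
  (c (c (m (nat_lit 0x6223e9)) (c (p (nat_lit 0x3d5671a)) e)) (c (c (p (nat_lit 0x101d22)) (c (m (nat_lit
  0xa12354)) e)) e)) (c (c (c (p (nat_lit 0xecb21)) (c (m (nat_lit 0x93ef4a)) e)) e) e))) (c (c (c (c (m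
  (nat_lit 0x1622838)) (c (p (nat_lit 0xdd59230)) e)) (c (c (p (nat_lit 0x329e37)) (c (m (nat_lit 0x1fa2e26))
  e)) e)) (c (c (c (p (nat_lit 0x329e37)) (c (m (nat_lit 0x1fa2e26)) e)) e) e)) (c (c (c (c (p (nat_lit
  0x5ea232)) (c (m (nat_lit 0x3b255f4)) e)) e) e) e))))

noncomputable def tt_3_1 : Tr :=
  (c (c (c (c (p (nat_lit 0x6f7aa4)) e) (c (c (p (nat_lit 0x40f809)) e) (c (c (m (nat_lit 0xa6b193)) e) (c (c
  (p (nat_lit 0x4ecb57)) e) e)))) (c (c (c (p (nat_lit 0x597ccf)) e) (c (c (p (nat_lit 0x124cdc)) e) (c (c (p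
  (nat_lit 0x2bba83)) e) e))) (c (c (c (m (nat_lit 0xa6b193)) e) (c (c (p (nat_lit 0x2bba83)) e) e)) (c (c (c
  (p (nat_lit 0x4ecb57)) e) e) e)))) (c (c (c (c (p (nat_lit 0x146d2dc)) e) (c (c (m (nat_lit 0x719e77)) e)
  (c (c (p (nat_lit 0xecb21)) e) e))) (c (c (c (m (nat_lit 0x6223e9)) e) (c (c (p (nat_lit 0x101d22)) e) e))
  (c (c (c (p (nat_lit 0xecb21)) e) e) e))) (c (c (c (c (m (nat_lit 0x1622838)) e) (c (c (p (nat_lit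
  0x329e37)) e) e)) (c (c (c (p (nat_lit 0x329e37)) e) e) e)) (c (c (c (c (p (nat_lit 0x5ea232)) e) e) e)
  e))))

noncomputable def tt_3 : Tr := (c tt_3_0 (c tt_3_1 e))

noncomputable def tt_4_0 : Tr :=
  (c (c (c (c (p (nat_lit 0x59e674)) (c (m (nat_lit 0x3830088)) e)) (c (c (m (nat_lit 0x2ba1a5)) (c (p
  (nat_lit 0x1b45072)) e)) (c (c (p (nat_lit 0x5598ed)) (c (m (nat_lit 0x357f942)) e)) (c (c (m (nat_lit
  0x390898)) (c (p (nat_lit 0x23a55f0)) e)) e)))) (c (c (c (m (nat_lit 0x84975)) (c (p (nat_lit 0x52de92))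
  e)) (c (c (p (nat_lit 0x243506)) (c (m (nat_lit 0x16a123c)) e)) (c (c (m (nat_lit 0x11869c)) (c (p (nat_lit
  0xaf4218)) e)) e))) (c (c (c (p (nat_lit 0x5598ed)) (c (m (nat_lit 0x357f942)) e)) (c (c (m (nat_lit
  0x11869c)) (c (p (nat_lit 0xaf4218)) e)) e)) (c (c (c (m (nat_lit 0x390898)) (c (p (nat_lit 0x23a55f0)) e))
  e) e)))) (c (c (c (c (p (nat_lit 0xaad98)) (c (m (nat_lit 0x6ac7f0)) e)) (c (c (m (nat_lit 0xa)) (c (p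
  (nat_lit 0x64)) e)) (c (c (p (nat_lit 0x9e252)) (c (m (nat_lit 0x62d734)) e)) e))) (c (c (c (p (nat_lit
  0xf7a84)) (c (m (nat_lit 0x9ac928)) e)) (c (c (p (nat_lit 0x44bca)) (c (m (nat_lit 0x2af5e4)) e)) e)) (c (c
  (c (p (nat_lit 0x9e252)) (c (m (nat_lit 0x62d734)) e)) e) e))) (c (c (c (c (p (nat_lit 0x985adc)) (c (m
  (nat_lit 0x5f38c98)) e)) (c (c (m (nat_lit 0x2e96e2)) (c (p (nat_lit 0x1d1e4d4)) e)) e)) (c (c (c (m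
  (nat_lit 0x2e96e2)) (c (p (nat_lit 0x1d1e4d4)) e)) e) e)) (c (c (c (c (p (nat_lit 0x61f1c)) (c (m (nat_lit
  0x3d3718)) e)) e) e) e))))

noncomputable def tt_4_1 : Tr :=
  (c (c (c (c (p (nat_lit 0x59e674)) e) (c (c (m (nat_lit 0x2ba1a5)) e) (c (c (p (nat_lit 0x5598ed)) e) (c (c
  (m (nat_lit 0x390898)) e) e)))) (c (c (c (m (nat_lit 0x84975)) e) (c (c (p (nat_lit 0x243506)) e) (c (c (m
  (nat_lit 0x11869c)) e) e))) (c (c (c (p (nat_lit 0x5598ed)) e) (c (c (m (nat_lit 0x11869c)) e) e)) (c (c (c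
  (m (nat_lit 0x390898)) e) e) e)))) (c (c (c (c (p (nat_lit 0xaad98)) e) (c (c (m (nat_lit 0xa)) e) (c (c (p
  (nat_lit 0x9e252)) e) e))) (c (c (c (p (nat_lit 0xf7a84)) e) (c (c (p (nat_lit 0x44bca)) e) e)) (c (c (c (p
  (nat_lit 0x9e252)) e) e) e))) (c (c (c (c (p (nat_lit 0x985adc)) e) (c (c (m (nat_lit 0x2e96e2)) e) e)) (c
  (c (c (m (nat_lit 0x2e96e2)) e) e) e)) (c (c (c (c (p (nat_lit 0x61f1c)) e) e) e) e))))

noncomputable def tt_4 : Tr := (c tt_4_0 (c tt_4_1 e))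

noncomputable def tt_5_0 : Tr :=
  (c (c (c (c (p (nat_lit 0x6f7aa4)) (c (m (nat_lit 0x45aca68)) e)) (c (c (p (nat_lit 0x40f809)) (c (m
  (nat_lit 0x289b05a)) e)) (c (c (m (nat_lit 0xa6b193)) (c (p (nat_lit 0x682efbe)) e)) (c (c (p (nat_lit
  0x4ecb57)) (c (m (nat_lit 0x313f166)) e)) e)))) (c (c (c (p (nat_lit 0x146d2dc)) (c (m (nat_lit 0xcc43c98))
  e)) (c (c (m (nat_lit 0x719e77)) (c (p (nat_lit 0x47030a6)) e)) (c (c (p (nat_lit 0xecb21)) (c (m (nat_lit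
  0x93ef4a)) e)) e))) (c (c (c (m (nat_lit 0x1622838)) (c (p (nat_lit 0xdd59230)) e)) (c (c (p (nat_lit
  0x329e37)) (c (m (nat_lit 0x1fa2e26)) e)) e)) (c (c (c (p (nat_lit 0x5ea232)) (c (m (nat_lit 0x3b255f4))
  e)) e) e)))) (c (c (c (c (p (nat_lit 0x597ccf)) (c (m (nat_lit 0x37ee016)) e)) (c (c (p (nat_lit 0x124cdc))
  (c (m (nat_lit 0xb70098)) e)) (c (c (p (nat_lit 0x2bba83)) (c (m (nat_lit 0x1b5491e)) e)) e))) (c (c (c (m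
  (nat_lit 0x6223e9)) (c (p (nat_lit 0x3d5671a)) e)) (c (c (p (nat_lit 0x101d22)) (c (m (nat_lit 0xa12354))
  e)) e)) (c (c (c (p (nat_lit 0x329e37)) (c (m (nat_lit 0x1fa2e26)) e)) e) e))) (c (c (c (c (m (nat_lit
  0xa6b193)) (c (p (nat_lit 0x682efbe)) e)) (c (c (p (nat_lit 0x2bba83)) (c (m (nat_lit 0x1b5491e)) e)) e))
  (c (c (c (p (nat_lit 0xecb21)) (c (m (nat_lit 0x93ef4a)) e)) e) e)) (c (c (c (c (p (nat_lit 0x4ecb57)) (c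
  (m (nat_lit 0x313f166)) e)) e) e) e))))

noncomputable def tt_5_1 : Tr :=
  (c (c (c (c (p (nat_lit 0x6f7aa4)) e) (c (c (p (nat_lit 0x40f809)) e) (c (c (m (nat_lit 0xa6b193)) e) (c (c
  (p (nat_lit 0x4ecb57)) e) e)))) (c (c (c (p (nat_lit 0x146d2dc)) e) (c (c (m (nat_lit 0x719e77)) e) (c (c
  (p (nat_lit 0xecb21)) e) e))) (c (c (c (m (nat_lit 0x1622838)) e) (c (c (p (nat_lit 0x329e37)) e) e)) (c (c
  (c (p (nat_lit 0x5ea232)) e) e) e)))) (c (c (c (c (p (nat_lit 0x597ccf)) e) (c (c (p (nat_lit 0x124cdc)) e)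
  (c (c (p (nat_lit 0x2bba83)) e) e))) (c (c (c (m (nat_lit 0x6223e9)) e) (c (c (p (nat_lit 0x101d22)) e) e))
  (c (c (c (p (nat_lit 0x329e37)) e) e) e))) (c (c (c (c (m (nat_lit 0xa6b193)) e) (c (c (p (nat_lit
  0x2bba83)) e) e)) (c (c (c (p (nat_lit 0xecb21)) e) e) e)) (c (c (c (c (p (nat_lit 0x4ecb57)) e) e) e)
  e))))

noncomputable def tt_5 : Tr := (c tt_5_0 (c tt_5_1 e))

noncomputable def tt_6_0 : Tr :=
  (c (c (c (c (p (nat_lit 0x817f54)) (c (m (nat_lit 0x50ef948)) e)) (c (c (p (nat_lit 0x1237aac)) (c (m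
  (nat_lit 0xb62cab8)) e)) (c (c (m (nat_lit 0x1622838)) (c (p (nat_lit 0xdd59230)) e)) (c (c (p (nat_lit
  0x5ea232)) (c (m (nat_lit 0x3b255f4)) e)) e)))) (c (c (c (p (nat_lit 0x615ebb)) (c (m (nat_lit 0x3cdb34e))
  e)) (c (c (m (nat_lit 0x719e77)) (c (p (nat_lit 0x47030a6)) e)) (c (c (p (nat_lit 0x329e37)) (c (m (nat_lit
  0x1fa2e26)) e)) e))) (c (c (c (m (nat_lit 0xa6b193)) (c (p (nat_lit 0x682efbe)) e)) (c (c (p (nat_lit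
  0xecb21)) (c (m (nat_lit 0x93ef4a)) e)) e)) (c (c (c (p (nat_lit 0x4ecb57)) (c (m (nat_lit 0x313f166)) e))
  e) e)))) (c (c (c (c (p (nat_lit 0x615ebb)) (c (m (nat_lit 0x3cdb34e)) e)) (c (c (m (nat_lit 0x719e77)) (c
  (p (nat_lit 0x47030a6)) e)) (c (c (p (nat_lit 0x329e37)) (c (m (nat_lit 0x1fa2e26)) e)) e))) (c (c (c (p
  (nat_lit 0x208262)) (c (m (nat_lit 0x14517d4)) e)) (c (c (p (nat_lit 0x101d22)) (c (m (nat_lit 0xa12354))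
  e)) e)) (c (c (c (p (nat_lit 0x2bba83)) (c (m (nat_lit 0x1b5491e)) e)) e) e))) (c (c (c (c (m (nat_lit
  0xa6b193)) (c (p (nat_lit 0x682efbe)) e)) (c (c (p (nat_lit 0xecb21)) (c (m (nat_lit 0x93ef4a)) e)) e)) (c
  (c (c (p (nat_lit 0x2bba83)) (c (m (nat_lit 0x1b5491e)) e)) e) e)) (c (c (c (c (p (nat_lit 0x4ecb57)) (c (m
  (nat_lit 0x313f166)) e)) e) e) e))))

noncomputable def tt_6_1 : Tr :=
  (c (c (c (c (p (nat_lit 0x817f54)) e) (c (c (p (nat_lit 0x1237aac)) e) (c (c (m (nat_lit 0x1622838)) e) (c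
  (c (p (nat_lit 0x5ea232)) e) e)))) (c (c (c (p (nat_lit 0x615ebb)) e) (c (c (m (nat_lit 0x719e77)) e) (c (c
  (p (nat_lit 0x329e37)) e) e))) (c (c (c (m (nat_lit 0xa6b193)) e) (c (c (p (nat_lit 0xecb21)) e) e)) (c (c
  (c (p (nat_lit 0x4ecb57)) e) e) e)))) (c (c (c (c (p (nat_lit 0x615ebb)) e) (c (c (m (nat_lit 0x719e77)) e)
  (c (c (p (nat_lit 0x329e37)) e) e))) (c (c (c (p (nat_lit 0x208262)) e) (c (c (p (nat_lit 0x101d22)) e) e))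
  (c (c (c (p (nat_lit 0x2bba83)) e) e) e))) (c (c (c (c (m (nat_lit 0xa6b193)) e) (c (c (p (nat_lit
  0xecb21)) e) e)) (c (c (c (p (nat_lit 0x2bba83)) e) e) e)) (c (c (c (c (p (nat_lit 0x4ecb57)) e) e) e)
  e))))

noncomputable def tt_6 : Tr := (c tt_6_0 (c tt_6_1 e))

noncomputable def tt_7_0 : Tr :=
  (c (c (c (c (p (nat_lit 0xaeb97c)) (c (m (nat_lit 0x6d33ed8)) e)) (c (c (p (nat_lit 0x21cea)) (c (m
  (nat_lit 0x152124)) e)) (c (c (m (nat_lit 0x1192b4)) (c (p (nat_lit 0xafbb08)) e)) (c (c (m (nat_lit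
  0x2c3052)) (c (p (nat_lit 0x1b9e334)) e)) e)))) (c (c (c (p (nat_lit 0x22839c)) (c (m (nat_lit 0x1592418))
  e)) (c (c (m (nat_lit 0x511dd4)) (c (p (nat_lit 0x32b2a48)) e)) (c (c (p (nat_lit 0x3f349c)) (c (m (nat_lit
  0x2780e18)) e)) e))) (c (c (c (m (nat_lit 0x1192b4)) (c (p (nat_lit 0xafbb08)) e)) (c (c (p (nat_lit
  0x3f349c)) (c (m (nat_lit 0x2780e18)) e)) e)) (c (c (c (m (nat_lit 0x2c3052)) (c (p (nat_lit 0x1b9e334))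
  e)) e) e)))) (c (c (c (c (p (nat_lit 0x22839c)) (c (m (nat_lit 0x1592418)) e)) (c (c (m (nat_lit 0x511dd4))
  (c (p (nat_lit 0x32b2a48)) e)) (c (c (p (nat_lit 0x3f349c)) (c (m (nat_lit 0x2780e18)) e)) e))) (c (c (c (m
  (nat_lit 0x42e84e)) (c (p (nat_lit 0x29d130c)) e)) (c (c (m (nat_lit 0x5125e)) (c (p (nat_lit 0x32b7ac))
  e)) e)) (c (c (c (p (nat_lit 0x3f349c)) (c (m (nat_lit 0x2780e18)) e)) e) e))) (c (c (c (c (m (nat_lit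
  0x1192b4)) (c (p (nat_lit 0xafbb08)) e)) (c (c (p (nat_lit 0x3f349c)) (c (m (nat_lit 0x2780e18)) e)) e)) (c
  (c (c (p (nat_lit 0x3f349c)) (c (m (nat_lit 0x2780e18)) e)) e) e)) (c (c (c (c (m (nat_lit 0x2c3052)) (c (p
  (nat_lit 0x1b9e334)) e)) e) e) e))))

noncomputable def tt_7_1 : Tr :=
  (c (c (c (c (p (nat_lit 0xaeb97c)) e) (c (c (p (nat_lit 0x21cea)) e) (c (c (m (nat_lit 0x1192b4)) e) (c (c
  (m (nat_lit 0x2c3052)) e) e)))) (c (c (c (p (nat_lit 0x22839c)) e) (c (c (m (nat_lit 0x511dd4)) e) (c (c (p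
  (nat_lit 0x3f349c)) e) e))) (c (c (c (m (nat_lit 0x1192b4)) e) (c (c (p (nat_lit 0x3f349c)) e) e)) (c (c (c
  (m (nat_lit 0x2c3052)) e) e) e)))) (c (c (c (c (p (nat_lit 0x22839c)) e) (c (c (m (nat_lit 0x511dd4)) e) (c
  (c (p (nat_lit 0x3f349c)) e) e))) (c (c (c (m (nat_lit 0x42e84e)) e) (c (c (m (nat_lit 0x5125e)) e) e)) (c
  (c (c (p (nat_lit 0x3f349c)) e) e) e))) (c (c (c (c (m (nat_lit 0x1192b4)) e) (c (c (p (nat_lit 0x3f349c))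
  e) e)) (c (c (c (p (nat_lit 0x3f349c)) e) e) e)) (c (c (c (c (m (nat_lit 0x2c3052)) e) e) e) e))))

noncomputable def tt_7 : Tr := (c tt_7_0 (c tt_7_1 e))

/-- table of the T part -/
noncomputable def TD : Tr := (c tt_0 (c tt_1 (c tt_2 (c tt_3 (c tt_4 (c tt_5 (c tt_6 (c tt_7 e))))))))

end Dat

end HR
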