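import Pool.Agent.Lib.MP_a1b8b7_co.D.P0
import Pool.Agent.Lib.MP_a1b8b7_co.D.P1
import Pool.Agent.Lib.MP_a1b8b7_co.D.P2
import Pool.Agent.Lib.MP_a1b8b7_co.D.P3
import Pool.Agent.Lib.MP_a1b8b7_co.D.P4
import Pool.Agent.Lib.MP_a1b8b7_co.D.P5
import Pool.Agent.Lib.MP_a1b8b7_co.D.P6
import Pool.Agent.Lib.MP_a1b8b7_co.D.P7
import Pool.Agent.Lib.MP_a1b8b7_co.D.Tab
import Pool.Agent.Lib.MP_a1b8b7_co.B.Cert

/-!
# The list of the blocks and the T part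
-/

set_option autoImplicit false
set_option maxRecDepth 1000000

namespace HR

namespace Dat

open Fl Fl.Tr Fl.GP Chk

/-- block m0_2 -/
def gb0 : GB := ⟨pd0, [], [(nat_lit 0, nat_lit 0), (nat_lit 25, nat_lit 0), (nat_lit 50, nat_lit 0), (nat_lit 5, nat_lit 0), (nat_lit 30, nat_lit 0), (nat_lit 10, nat_lit 0), (nat_lit 1, nat_lit 0), (nat_lit 26, nat_lit 0), (nat_lit 6, nat_lit 0), (nat_lit 2, nat_lit 0), (nat_lit 0, nat_lit 25), (nat_lit 25, nat_lit 25), (nat_lit 5, nat_lit 25), (nat_lit 1, nat_lit 25), (nat_lit 0, nat_lit 50), (nat_lit 0, nat_lit 5), (nat_lit 25, nat_lit 5), (nat_lit 5, nat_lit 5), (nat_lit 1, nat_lit 5), (nat_lit 0, nat_lit 30), (nat_lit 0, nat_lit 10), (nat_lit 0, nat_lit 1), (nat_lit 25, nat_lit 1), (nat_lit 5, nat_lit 1), (nat_lit 1, nat_lit 1), (nat_lit 0, nat_lit 26), (nat_lit 0, nat_lit 6), (nat_lit 0, nat_lit 2)]⟩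

/-- block m0_1_5_6 -/
def gb1 : GB := ⟨pd1, [nat_lit 5, nat_lit 6], [(nat_lit 0, nat_lit 0), (nat_lit 25, nat_lit 0), (nat_lit 5, nat_lit 0), (nat_lit 1, nat_lit 0), (nat_lit 0, nat_lit 25), (nat_lit 0, nat_lit 5), (nat_lit 0, nat_lit 1)]⟩

/-- block m0_1_4_5 -/
def gb2 : GB := ⟨pd2, [nat_lit 2, nat_lit 5], [(nat_lit 0, nat_lit 0), (nat_lit 25, nat_lit 0), (nat_lit 5, nat_lit 0), (nat_lit 1, nat_lit 0), (nat_lit 0, nat_lit 25), (nat_lit 0, nat_lit 5), (nat_lit 0, nat_lit 1)]⟩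

/-- block m0_1_2_4 -/
def gb3 : GB := ⟨pd3, [nat_lit 1, nat_lit 2], [(nat_lit 0, nat_lit 0), (nat_lit 25, nat_lit 0), (nat_lit 5, nat_lit 0), (nat_lit 1, nat_lit 0), (nat_lit 0, nat_lit 25), (nat_lit 0, nat_lit 5), (nat_lit 0, nat_lit 1)]⟩

/-- block m1_2 -/
def gb4 : GB := ⟨pd4, [], [(nat_lit 0, nat_lit 0), (nat_lit 1, nat_lit 0), (nat_lit 2, nat_lit 0), (nat_lit 25, nat_lit 0), (nat_lit 26, nat_lit 0), (nat_lit 50, nat_lit 0), (nat_lit 5, nat_lit 0), (nat_lit 6, nat_lit 0), (nat_lit 30, nat_lit 0), (nat_lit 10, nat_lit 0), (nat_lit 0, nat_lit 5), (nat_lit 1, nat_lit 5), (nat_lit 25, nat_lit 5), (nat_lit 5, nat_lit 5), (nat_lit 0, nat_lit 10), (nat_lit 0, nat_lit 1), (nat_lit 1, nat_lit 1), (nat_lit 25, nat_lit 1), (nat_lit 5, nat_lit 1), (nat_lit 0, nat_lit 6), (nat_lit 0, nat_lit 2), (nat_lit 0, nat_lit 25), (nat_lit 1, nat_lit 25), (nat_lit 25, nat_lit 25), (nat_lit 5, nat_lit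 25), (nat_lit 0, nat_lit 30), (nat_lit 0, nat_lit 26), (nat_lit 0, nat_lit 50)]⟩

/-- block m1_1_4_5 -/
def gb5 : GB := ⟨pd5, [nat_lit 1, nat_lit 4], [(nat_lit 0, nat_lit 0), (nat_lit 1, nat_lit 0), (nat_lit 25, nat_lit 0), (nat_lit 5, nat_lit 0), (nat_lit 0, nat_lit 5), (nat_lit 0, nat_lit 1), (nat_lit 0, nat_lit 25)]⟩

/-- block m1_1_1_4 -/
def gb6 : GB := ⟨pd6, [nat_lit 5, nat_lit 1], [(nat_lit 0, nat_lit 0), (nat_lit 1, nat_lit 0), (nat_lit 25, nat_lit 0), (nat_lit 5, nat_lit 0), (nat_lit 0, nat_lit 5), (nat_lit 0, nat_lit 1), (nat_lit 0, nat_lit 25)]⟩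

/-- block m1_1_0_1 -/
def gb7 : GB := ⟨pd7, [nat_lit 2, nat_lit 5], [(nat_lit 0, nat_lit 0), (nat_lit 1, nat_lit 0), (nat_lit 25, nat_lit 0), (nat_lit 5, nat_lit 0), (nat_lit 0, nat_lit 5), (nat_lit 0, nat_lit 1), (nat_lit 0, nat_lit 25)]⟩

/-- blocks of a type -/
def bl (t : ℕ) : List GB :=
  if t = 0 then [gb0, gb1, gb2, gb3] else if t = 1 then [gb4, gb5, gb6, gb7] else []

theorem gb0_ok : gb0.OK 4 0 := ⟨by decide, by decide, by decide, by decide, by decide, by decide, by decide⟩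

theorem gb1_ok : gb1.OK 4 0 := ⟨by decide, by decide, by decide, by decide, by decide, by decide, by decide⟩

theorem gb2_ok : gb2.OK 4 0 := ⟨by decide, by decide, by decide, by decide, by decide, by decide, by decide⟩

theorem gb3_ok : gb3.OK 4 0 := ⟨by decide, by decide, by decide, by decide, by decide, by decide, by decide⟩

theorem gb4_ok : gb4.OK 4 1 := ⟨by decide, by decide, by decide, by decide, by decide, by decide, by decide⟩

theorem gb5_ok : gb5.OK 4 1 := ⟨by decide, by decide, by decide, by decide, by decide, by decide, by decide⟩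

theorem gb6_ok : gb6.OK 4 1 := ⟨by decide, by decide, by decide, by decide, by decide, by decide, by decide⟩

theorem gb7_ok : gb7.OK 4 1 := ⟨by decide, by decide, by decide, by decide, by decide, by decide, by decide⟩

theorem bl0 : bl 0 = [gb0, gb1, gb2, gb3] := rfl

theorem bl1 : bl 1 = [gb4, gb5, gb6, gb7] := rfl

theorem bl2 : bl 2 = [] := rfl

theorem bl3 : bl 3 = [] := rfl

theorem bl_ok : ∀ t < 4, ∀ B ∈ bl t, B.OK 4 t := by
  intro t ht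
  interval_cases t
  · rw [bl0]
    intro B hB
    simp only [List.mem_cons, List.not_mem_nil, or_false] at hB
    rcases hB with rfl | rfl | rfl | rfl
    · exact gb0_ok
    · exact gb1_ok
    · exact gb2_ok
    · exact gb3_ok
  · rw [bl1]
    intro B hB
    simp only [List.mem_cons, List.not_mem_nil, or_false] at hB
    rcases hB with rfl | rfl | rfl | rfl
    · exact gb4_ok
    · exact gb5_ok
    · exact gb6_ok
    · exact gb7_ok
  · rw [bl2]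
    intro B hB
    simp at hB
  · rw [bl3]
    intro B hB
    simp at hB

theorem bl_psd : ∀ t < 4, ∀ B ∈ bl t, B.P.check = true := by
  intro t ht
  interval_cases t
  · rw [bl0]
    intro B hB
    simp only [List.mem_cons, List.not_mem_nil, or_false] at hB
    rcases hB with rfl | rfl | rfl | rfl
    · exact pd0_check
    · exact pd1_check
    · exact pd2_check
    · exact pd3_check
  · rw [bl1]
    intro B hB
    simp only [List.mem_cons, List.not_mem_nil, or_false] at hB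
    rcases hB with rfl | rfl | rfl | rfl
    · exact pd4_check
    · exact pd5_check
    · exact pd6_check
    · exact pd7_check
  · rw [bl2]
    intro B hB
    simp at hB
  · rw [bl3]
    intro B hB
    simp at hB

def pdT : Data where
  n := 4
  w := 58
  wq := 24
  oq := 8388608
  wl := 27
  t := 67108864
  wv := 2
  tv := 2
  s := 536870912
  mu := 1
  e := 28
  Q := [nat_lit 0x262131800000000b7fc980000000026afc0800000000aa62b8,
    nat_lit 0x23dea3800000000a35830000000002439db8000000009abf02,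
    nat_lit 0x2819ac800000000ca01480000000028d60c000000000b7fc98,
    nat_lit 0x238d61800000000a066b20000000023dea38000000009884c6]
  L := [nat_lit 0x155375bc000000070a57ab000000015cf53f8000000064d418c,
    nat_lit 0x100f7e800000000408c1070000000103b1d4400000004000000,
    nat_lit 0x101265100000000412d7e300000001000000000000004000000,
    nat_lit 0x1034f7d40000000400000000000001000000000000004000000]
  V := []

theorem pdT_check : pdT.check = true := by decide +kernel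

/-- the T part -/
def tb : TB where
  rows := [
    [(nat_lit 0x2db0e, [nat_lit 0, nat_lit 0, nat_lit 0]),
      (nat_lit 0x1b187, [nat_lit 0, nat_lit 0, nat_lit 1]),
      (nat_lit 0x1b187, [nat_lit 0, nat_lit 0, nat_lit 2]),
      (nat_lit 0xe19c2, [nat_lit 0, nat_lit 0, nat_lit 3]),
      (nat_lit 0x3ec7d, [nat_lit 0, nat_lit 0, nat_lit 4]),
      (nat_lit 0x3ec7d, [nat_lit 0, nat_lit 0, nat_lit 5]),
      (nat_lit 0x1f2ce, [nat_lit 0, nat_lit 0, nat_lit 6]),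
      (nat_lit 0x1b187, [nat_lit 0, nat_lit 1, nat_lit 1]),
      (nat_lit 0x1134b2, [nat_lit 0, nat_lit 1, nat_lit 2]),
      (nat_lit 0x12193a, [nat_lit 0, nat_lit 1, nat_lit 3]),
      (nat_lit 0x12193a, [nat_lit 0, nat_lit 1, nat_lit 4]),
      (nat_lit 0x695c8, [nat_lit 0, nat_lit 1, nat_lit 5]),
      (nat_lit 0x24a3a, [nat_lit 0, nat_lit 1, nat_lit 6]),
      (nat_lit 0x1b187, [nat_lit 0, nat_lit 2, nat_lit 2]),
      (nat_lit 0x12193a, [nat_lit 0, nat_lit 2, nat_lit 3]),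
      (nat_lit 0x695c8, [nat_lit 0, nat_lit 2, nat_lit 4]),
      (nat_lit 0x12193a, [nat_lit 0, nat_lit 2, nat_lit 5]),
      (nat_lit 0x24a3a, [nat_lit 0, nat_lit 2, nat_lit 6]),
      (nat_lit 0x745e1c, [nat_lit 0, nat_lit 3, nat_lit 3]),
      (nat_lit 0x99f33, [nat_lit 0, nat_lit 3, nat_lit 4]),
      (nat_lit 0x99f33, [nat_lit 0, nat_lit 3, nat_lit 5]),
      (nat_lit 0x157264, [nat_lit 0, nat_lit 3, nat_lit 6]),
      (nat_lit 0x34d42, [nat_lit 0, nat_lit 4, nat_lit 4]),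
      (nat_lit 0x23c032, [nat_lit 0, nat_lit 4, nat_lit 5]),
      (nat_lit 0x3eed7, [nat_lit 0, nat_lit 4, nat_lit 6]),
      (nat_lit 0x34d42, [nat_lit 0, nat_lit 5, nat_lit 5]),
      (nat_lit 0x3eed7, [nat_lit 0, nat_lit 5, nat_lit 6]),
      (nat_lit 0x13cf4, [nat_lit 0, nat_lit 6, nat_lit 6]),
      (nat_lit 0x2db0e, [nat_lit 1, nat_lit 1, nat_lit 1]),
      (nat_lit 0x1b187, [nat_lit 1, nat_lit 1, nat_lit 2]),
      (nat_lit 0x3ec7d, [nat_lit 1, nat_lit 1, nat_lit 3]),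
      (nat_lit 0xe19c2, [nat_lit 1, nat_lit 1, nat_lit 4]),
      (nat_lit 0x3ec7d, [nat_lit 1, nat_lit 1, nat_lit 5]),
      (nat_lit 0x1f2ce, [nat_lit 1, nat_lit 1, nat_lit 6]),
      (nat_lit 0x1b187, [nat_lit 1, nat_lit 2, nat_lit 2]),
      (nat_lit 0x695c8, [nat_lit 1, nat_lit 2, nat_lit 3]),
      (nat_lit 0x12193a, [nat_lit 1, nat_lit 2, nat_lit 4]),
      (nat_lit 0x12193a, [nat_lit 1, nat_lit 2, nat_lit 5]),
      (nat_lit 0x24a3a, [nat_lit 1, nat_lit 2, nat_lit 6]),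
      (nat_lit 0x34d42, [nat_lit 1, nat_lit 3, nat_lit 3]),
      (nat_lit 0x99f33, [nat_lit 1, nat_lit 3, nat_lit 4]),
      (nat_lit 0x23c032, [nat_lit 1, nat_lit 3, nat_lit 5]),
      (nat_lit 0x3eed7, [nat_lit 1, nat_lit 3, nat_lit 6]),
      (nat_lit 0x745e1c, [nat_lit 1, nat_lit 4, nat_lit 4]),
      (nat_lit 0x99f33, [nat_lit 1, nat_lit 4, nat_lit 5]),
      (nat_lit 0x157264, [nat_lit 1, nat_lit 4, nat_lit 6]),
      (nat_lit 0x34d42, [nat_lit 1, nat_lit 5, nat_lit 5]),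
      (nat_lit 0x3eed7, [nat_lit 1, nat_lit 5, nat_lit 6]),
      (nat_lit 0x13cf4, [nat_lit 1, nat_lit 6, nat_lit 6]),
      (nat_lit 0x2db0e, [nat_lit 2, nat_lit 2, nat_lit 2]),
      (nat_lit 0x3ec7d, [nat_lit 2, nat_lit 2, nat_lit 3]),
      (nat_lit 0x3ec7d, [nat_lit 2, nat_lit 2, nat_lit 4]),
      (nat_lit 0xe19c2, [nat_lit 2, nat_lit 2, nat_lit 5]),
      (nat_lit 0x1f2ce, [nat_lit 2, nat_lit 2, nat_lit 6]),
      (nat_lit 0x34d42, [nat_lit 2, nat_lit 3, nat_lit 3]),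
      (nat_lit 0x23c032, [nat_lit 2, nat_lit 3, nat_lit 4]),
      (nat_lit 0x99f33, [nat_lit 2, nat_lit 3, nat_lit 5]),
      (nat_lit 0x3eed7, [nat_lit 2, nat_lit 3, nat_lit 6]),
      (nat_lit 0x34d42, [nat_lit 2, nat_lit 4, nat_lit 4]),
      (nat_lit 0x99f33, [nat_lit 2, nat_lit 4, nat_lit 5]),
      (nat_lit 0x3eed7, [nat_lit 2, nat_lit 4, nat_lit 6]),
      (nat_lit 0x745e1c, [nat_lit 2, nat_lit 5, nat_lit 5]),
      (nat_lit 0x157264, [nat_lit 2, nat_lit 5, nat_lit 6]),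
      (nat_lit 0x13cf4, [nat_lit 2, nat_lit 6, nat_lit 6]),
      (nat_lit 0x676c0, [nat_lit 3, nat_lit 3, nat_lit 3]),
      (nat_lit 0x29e4d9, [nat_lit 3, nat_lit 3, nat_lit 4]),
      (nat_lit 0x29e4d9, [nat_lit 3, nat_lit 3, nat_lit 5]),
      (nat_lit 0x6bfde, [nat_lit 3, nat_lit 3, nat_lit 6]),
      (nat_lit 0x29e4d9, [nat_lit 3, nat_lit 4, nat_lit 4]),
      (nat_lit 0x53569c, [nat_lit 3, nat_lit 4, nat_lit 5]),
      (nat_lit 0xeb998, [nat_lit 3, nat_lit 4, nat_lit 6]),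
      (nat_lit 0x29e4d9, [nat_lit 3, nat_lit 5, nat_lit 5]),
      (nat_lit 0xeb998, [nat_lit 3, nat_lit 5, nat_lit 6]),
      (nat_lit 0x96ea2, [nat_lit 3, nat_lit 6, nat_lit 6]),
      (nat_lit 0x676c0, [nat_lit 4, nat_lit 4, nat_lit 4]),
      (nat_lit 0x29e4d9, [nat_lit 4, nat_lit 4, nat_lit 5]),
      (nat_lit 0x6bfde, [nat_lit 4, nat_lit 4, nat_lit 6]),
      (nat_lit 0x29e4d9, [nat_lit 4, nat_lit 5, nat_lit 5]),
      (nat_lit 0xeb998, [nat_lit 4, nat_lit 5, nat_lit 6]),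
      (nat_lit 0x96ea2, [nat_lit 4, nat_lit 6, nat_lit 6]),
      (nat_lit 0x676c0, [nat_lit 5, nat_lit 5, nat_lit 5]),
      (nat_lit 0x6bfde, [nat_lit 5, nat_lit 5, nat_lit 6]),
      (nat_lit 0x96ea2, [nat_lit 5, nat_lit 6, nat_lit 6]),
      (nat_lit 0x21222, [nat_lit 6, nat_lit 6, nat_lit 6])],
    [(nat_lit 0x83a, [nat_lit 0, nat_lit 0, nat_lit 0]),
      (nat_lit 0x833, [nat_lit 0, nat_lit 0, nat_lit 1]),
      (nat_lit 0x9ea80, [nat_lit 0, nat_lit 0, nat_lit 2]),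
      (nat_lit 0x302026, [nat_lit 0, nat_lit 0, nat_lit 3]),
      (nat_lit 0x50977, [nat_lit 0, nat_lit 0, nat_lit 4]),
      (nat_lit 0x833, [nat_lit 0, nat_lit 0, nat_lit 5]),
      (nat_lit 0x833, [nat_lit 0, nat_lit 1, nat_lit 1]),
      (nat_lit 0x45432, [nat_lit 0, nat_lit 1, nat_lit 2]),
      (nat_lit 0x70087, [nat_lit 0, nat_lit 1, nat_lit 3]),
      (nat_lit 0x70087, [nat_lit 0, nat_lit 1, nat_lit 4]),
      (nat_lit 0x866, [nat_lit 0, nat_lit 1, nat_lit 5]),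
      (nat_lit 0x93207, [nat_lit 0, nat_lit 2, nat_lit 2]),
      (nat_lit 0x82a, [nat_lit 0, nat_lit 2, nat_lit 3]),
      (nat_lit 0x2a, [nat_lit 0, nat_lit 2, nat_lit 4]),
      (nat_lit 0x82a, [nat_lit 0, nat_lit 2, nat_lit 5]),
      (nat_lit 0x827, [nat_lit 0, nat_lit 3, nat_lit 3]),
      (nat_lit 0x827, [nat_lit 0, nat_lit 3, nat_lit 4]),
      (nat_lit 0x828, [nat_lit 0, nat_lit 3, nat_lit 5]),
      (nat_lit 0x827, [nat_lit 0, nat_lit 4, nat_lit 4]),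
      (nat_lit 0x28, [nat_lit 0, nat_lit 4, nat_lit 5]),
      (nat_lit 0x828, [nat_lit 0, nat_lit 5, nat_lit 5]),
      (nat_lit 0x83a, [nat_lit 1, nat_lit 1, nat_lit 1]),
      (nat_lit 0x9ea80, [nat_lit 1, nat_lit 1, nat_lit 2]),
      (nat_lit 0x50977, [nat_lit 1, nat_lit 1, nat_lit 3]),
      (nat_lit 0x302026, [nat_lit 1, nat_lit 1, nat_lit 4]),
      (nat_lit 0x833, [nat_lit 1, nat_lit 1, nat_lit 5]),
      (nat_lit 0x93207, [nat_lit 1, nat_lit 2, nat_lit 2]),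
      (nat_lit 0x2a, [nat_lit 1, nat_lit 2, nat_lit 3]),
      (nat_lit 0x82a, [nat_lit 1, nat_lit 2, nat_lit 4]),
      (nat_lit 0x82a, [nat_lit 1, nat_lit 2, nat_lit 5]),
      (nat_lit 0x827, [nat_lit 1, nat_lit 3, nat_lit 3]),
      (nat_lit 0x827, [nat_lit 1, nat_lit 3, nat_lit 4]),
      (nat_lit 0x28, [nat_lit 1, nat_lit 3, nat_lit 5]),
      (nat_lit 0x827, [nat_lit 1, nat_lit 4, nat_lit 4]),
      (nat_lit 0x828, [nat_lit 1, nat_lit 4, nat_lit 5]),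
      (nat_lit 0x828, [nat_lit 1, nat_lit 5, nat_lit 5]),
      (nat_lit 0x25be50, [nat_lit 2, nat_lit 2, nat_lit 2]),
      (nat_lit 0x37c8e7, [nat_lit 2, nat_lit 2, nat_lit 3]),
      (nat_lit 0x37c8e7, [nat_lit 2, nat_lit 2, nat_lit 4]),
      (nat_lit 0x1b126e, [nat_lit 2, nat_lit 2, nat_lit 5]),
      (nat_lit 0x829, [nat_lit 2, nat_lit 3, nat_lit 3]),
      (nat_lit 0x852, [nat_lit 2, nat_lit 3, nat_lit 4]),
      (nat_lit 0x828, [nat_lit 2, nat_lit 3, nat_lit 5]),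
      (nat_lit 0x829, [nat_lit 2, nat_lit 4, nat_lit 4]),
      (nat_lit 0x828, [nat_lit 2, nat_lit 4, nat_lit 5]),
      (nat_lit 0x104e, [nat_lit 2, nat_lit 5, nat_lit 5]),
      (nat_lit 0x8f8d3, [nat_lit 3, nat_lit 3, nat_lit 3]),
      (nat_lit 0x5951f, [nat_lit 3, nat_lit 3, nat_lit 4]),
      (nat_lit 0x822, [nat_lit 3, nat_lit 3, nat_lit 5]),
      (nat_lit 0x5951f, [nat_lit 3, nat_lit 4, nat_lit 4]),
      (nat_lit 0x850, [nat_lit 3, nat_lit 4, nat_lit 5]),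
      (nat_lit 0x828, [nat_lit 3, nat_lit 5, nat_lit 5]),
      (nat_lit 0x8f8d3, [nat_lit 4, nat_lit 4, nat_lit 4]),
      (nat_lit 0x822, [nat_lit 4, nat_lit 4, nat_lit 5]),
      (nat_lit 0x828, [nat_lit 4, nat_lit 5, nat_lit 5]),
      (nat_lit 0x49d14, [nat_lit 5, nat_lit 5, nat_lit 5])],
    [(nat_lit 0x83a, [nat_lit 0, nat_lit 0, nat_lit 0]),
      (nat_lit 0x9ea80, [nat_lit 0, nat_lit 0, nat_lit 1]),
      (nat_lit 0x833, [nat_lit 0, nat_lit 0, nat_lit 2]),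
      (nat_lit 0x302026, [nat_lit 0, nat_lit 0, nat_lit 3]),
      (nat_lit 0x833, [nat_lit 0, nat_lit 0, nat_lit 4]),
      (nat_lit 0x50977, [nat_lit 0, nat_lit 0, nat_lit 5]),
      (nat_lit 0x93207, [nat_lit 0, nat_lit 1, nat_lit 1]),
      (nat_lit 0x45432, [nat_lit 0, nat_lit 1, nat_lit 2]),
      (nat_lit 0x82a, [nat_lit 0, nat_lit 1, nat_lit 3]),
      (nat_lit 0x82a, [nat_lit 0, nat_lit 1, nat_lit 4]),
      (nat_lit 0x2a, [nat_lit 0, nat_lit 1, nat_lit 5]),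
      (nat_lit 0x833, [nat_lit 0, nat_lit 2, nat_lit 2]),
      (nat_lit 0x70087, [nat_lit 0, nat_lit 2, nat_lit 3]),
      (nat_lit 0x866, [nat_lit 0, nat_lit 2, nat_lit 4]),
      (nat_lit 0x70087, [nat_lit 0, nat_lit 2, nat_lit 5]),
      (nat_lit 0x827, [nat_lit 0, nat_lit 3, nat_lit 3]),
      (nat_lit 0x828, [nat_lit 0, nat_lit 3, nat_lit 4]),
      (nat_lit 0x827, [nat_lit 0, nat_lit 3, nat_lit 5]),
      (nat_lit 0x828, [nat_lit 0, nat_lit 4, nat_lit 4]),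
      (nat_lit 0x28, [nat_lit 0, nat_lit 4, nat_lit 5]),
      (nat_lit 0x827, [nat_lit 0, nat_lit 5, nat_lit 5]),
      (nat_lit 0x25be50, [nat_lit 1, nat_lit 1, nat_lit 1]),
      (nat_lit 0x93207, [nat_lit 1, nat_lit 1, nat_lit 2]),
      (nat_lit 0x37c8e7, [nat_lit 1, nat_lit 1, nat_lit 3]),
      (nat_lit 0x1b126e, [nat_lit 1, nat_lit 1, nat_lit 4]),
      (nat_lit 0x37c8e7, [nat_lit 1, nat_lit 1, nat_lit 5]),
      (nat_lit 0x9ea80, [nat_lit 1, nat_lit 2, nat_lit 2]),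
      (nat_lit 0x2a, [nat_lit 1, nat_lit 2, nat_lit 3]),
      (nat_lit 0x82a, [nat_lit 1, nat_lit 2, nat_lit 4]),
      (nat_lit 0x82a, [nat_lit 1, nat_lit 2, nat_lit 5]),
      (nat_lit 0x829, [nat_lit 1, nat_lit 3, nat_lit 3]),
      (nat_lit 0x828, [nat_lit 1, nat_lit 3, nat_lit 4]),
      (nat_lit 0x852, [nat_lit 1, nat_lit 3, nat_lit 5]),
      (nat_lit 0x104e, [nat_lit 1, nat_lit 4, nat_lit 4]),
      (nat_lit 0x828, [nat_lit 1, nat_lit 4, nat_lit 5]),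
      (nat_lit 0x829, [nat_lit 1, nat_lit 5, nat_lit 5]),
      (nat_lit 0x83a, [nat_lit 2, nat_lit 2, nat_lit 2]),
      (nat_lit 0x50977, [nat_lit 2, nat_lit 2, nat_lit 3]),
      (nat_lit 0x833, [nat_lit 2, nat_lit 2, nat_lit 4]),
      (nat_lit 0x302026, [nat_lit 2, nat_lit 2, nat_lit 5]),
      (nat_lit 0x827, [nat_lit 2, nat_lit 3, nat_lit 3]),
      (nat_lit 0x28, [nat_lit 2, nat_lit 3, nat_lit 4]),
      (nat_lit 0x827, [nat_lit 2, nat_lit 3, nat_lit 5]),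
      (nat_lit 0x828, [nat_lit 2, nat_lit 4, nat_lit 4]),
      (nat_lit 0x828, [nat_lit 2, nat_lit 4, nat_lit 5]),
      (nat_lit 0x827, [nat_lit 2, nat_lit 5, nat_lit 5]),
      (nat_lit 0x8f8d3, [nat_lit 3, nat_lit 3, nat_lit 3]),
      (nat_lit 0x822, [nat_lit 3, nat_lit 3, nat_lit 4]),
      (nat_lit 0x5951f, [nat_lit 3, nat_lit 3, nat_lit 5]),
      (nat_lit 0x828, [nat_lit 3, nat_lit 4, nat_lit 4]),
      (nat_lit 0x850, [nat_lit 3, nat_lit 4, nat_lit 5]),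
      (nat_lit 0x5951f, [nat_lit 3, nat_lit 5, nat_lit 5]),
      (nat_lit 0x49d14, [nat_lit 4, nat_lit 4, nat_lit 4]),
      (nat_lit 0x828, [nat_lit 4, nat_lit 4, nat_lit 5]),
      (nat_lit 0x822, [nat_lit 4, nat_lit 5, nat_lit 5]),
      (nat_lit 0x8f8d3, [nat_lit 5, nat_lit 5, nat_lit 5])],
    [(nat_lit 0x105c, [nat_lit 0, nat_lit 0, nat_lit 0]),
      (nat_lit 0x82a, [nat_lit 0, nat_lit 0, nat_lit 1]),
      (nat_lit 0x82a, [nat_lit 0, nat_lit 0, nat_lit 2]),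
      (nat_lit 0x25eb08, [nat_lit 0, nat_lit 0, nat_lit 3]),
      (nat_lit 0x82d, [nat_lit 0, nat_lit 0, nat_lit 4]),
      (nat_lit 0x82d, [nat_lit 0, nat_lit 0, nat_lit 5]),
      (nat_lit 0x829, [nat_lit 0, nat_lit 1, nat_lit 1]),
      (nat_lit 0x852, [nat_lit 0, nat_lit 1, nat_lit 2]),
      (nat_lit 0x12eef5, [nat_lit 0, nat_lit 1, nat_lit 3]),
      (nat_lit 0x829, [nat_lit 0, nat_lit 1, nat_lit 4]),
      (nat_lit 0x29, [nat_lit 0, nat_lit 1, nat_lit 5]),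
      (nat_lit 0x829, [nat_lit 0, nat_lit 2, nat_lit 2]),
      (nat_lit 0x12eef5, [nat_lit 0, nat_lit 2, nat_lit 3]),
      (nat_lit 0x29, [nat_lit 0, nat_lit 2, nat_lit 4]),
      (nat_lit 0x829, [nat_lit 0, nat_lit 2, nat_lit 5]),
      (nat_lit 0x881d1e, [nat_lit 0, nat_lit 3, nat_lit 3]),
      (nat_lit 0x446cdb, [nat_lit 0, nat_lit 3, nat_lit 4]),
      (nat_lit 0x446cdb, [nat_lit 0, nat_lit 3, nat_lit 5]),
      (nat_lit 0x6bec3, [nat_lit 0, nat_lit 4, nat_lit 4]),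
      (nat_lit 0x3339b8, [nat_lit 0, nat_lit 4, nat_lit 5]),
      (nat_lit 0x6bec3, [nat_lit 0, nat_lit 5, nat_lit 5]),
      (nat_lit 0x3c7fc, [nat_lit 1, nat_lit 1, nat_lit 1]),
      (nat_lit 0x1d9ce3, [nat_lit 1, nat_lit 1, nat_lit 2]),
      (nat_lit 0x455aa, [nat_lit 1, nat_lit 1, nat_lit 3]),
      (nat_lit 0x829, [nat_lit 1, nat_lit 1, nat_lit 4]),
      (nat_lit 0x829, [nat_lit 1, nat_lit 1, nat_lit 5]),
      (nat_lit 0x1d9ce3, [nat_lit 1, nat_lit 2, nat_lit 2]),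
      (nat_lit 0x1bf5f6, [nat_lit 1, nat_lit 2, nat_lit 3]),
      (nat_lit 0x829, [nat_lit 1, nat_lit 2, nat_lit 4]),
      (nat_lit 0x829, [nat_lit 1, nat_lit 2, nat_lit 5]),
      (nat_lit 0x42820, [nat_lit 1, nat_lit 3, nat_lit 3]),
      (nat_lit 0xfec0f, [nat_lit 1, nat_lit 3, nat_lit 4]),
      (nat_lit 0x47864, [nat_lit 1, nat_lit 3, nat_lit 5]),
      (nat_lit 0x4d742b, [nat_lit 1, nat_lit 4, nat_lit 4]),
      (nat_lit 0x13e7de, [nat_lit 1, nat_lit 4, nat_lit 5]),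
      (nat_lit 0x326cc, [nat_lit 1, nat_lit 5, nat_lit 5]),
      (nat_lit 0x3c7fc, [nat_lit 2, nat_lit 2, nat_lit 2]),
      (nat_lit 0x455aa, [nat_lit 2, nat_lit 2, nat_lit 3]),
      (nat_lit 0x829, [nat_lit 2, nat_lit 2, nat_lit 4]),
      (nat_lit 0x829, [nat_lit 2, nat_lit 2, nat_lit 5]),
      (nat_lit 0x42820, [nat_lit 2, nat_lit 3, nat_lit 3]),
      (nat_lit 0x47864, [nat_lit 2, nat_lit 3, nat_lit 4]),
      (nat_lit 0xfec0f, [nat_lit 2, nat_lit 3, nat_lit 5]),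
      (nat_lit 0x326cc, [nat_lit 2, nat_lit 4, nat_lit 4]),
      (nat_lit 0x13e7de, [nat_lit 2, nat_lit 4, nat_lit 5]),
      (nat_lit 0x4d742b, [nat_lit 2, nat_lit 5, nat_lit 5]),
      (nat_lit 0x3a040, [nat_lit 3, nat_lit 3, nat_lit 3]),
      (nat_lit 0x307cc, [nat_lit 3, nat_lit 3, nat_lit 4]),
      (nat_lit 0x307cc, [nat_lit 3, nat_lit 3, nat_lit 5]),
      (nat_lit 0x38a07, [nat_lit 3, nat_lit 4, nat_lit 4]),
      (nat_lit 0x101f68, [nat_lit 3, nat_lit 4, nat_lit 5]),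
      (nat_lit 0x38a07, [nat_lit 3, nat_lit 5, nat_lit 5]),
      (nat_lit 0x268a7, [nat_lit 4, nat_lit 4, nat_lit 4]),
      (nat_lit 0x8e0b8, [nat_lit 4, nat_lit 4, nat_lit 5]),
      (nat_lit 0x8e0b8, [nat_lit 4, nat_lit 5, nat_lit 5]),
      (nat_lit 0x268a7, [nat_lit 5, nat_lit 5, nat_lit 5])],
    [(nat_lit 0x5000, [nat_lit 0]),
      (nat_lit 0x25be50, [nat_lit 0, nat_lit 0, nat_lit 0]),
      (nat_lit 0x93207, [nat_lit 0, nat_lit 0, nat_lit 1]),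
      (nat_lit 0x93207, [nat_lit 0, nat_lit 0, nat_lit 2]),
      (nat_lit 0x1b126e, [nat_lit 0, nat_lit 0, nat_lit 3]),
      (nat_lit 0x37c8e7, [nat_lit 0, nat_lit 0, nat_lit 4]),
      (nat_lit 0x37c8e7, [nat_lit 0, nat_lit 0, nat_lit 5]),
      (nat_lit 0x9ea80, [nat_lit 0, nat_lit 1, nat_lit 1]),
      (nat_lit 0x45432, [nat_lit 0, nat_lit 1, nat_lit 2]),
      (nat_lit 0x82a, [nat_lit 0, nat_lit 1, nat_lit 3]),
      (nat_lit 0x82a, [nat_lit 0, nat_lit 1, nat_lit 4]),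
      (nat_lit 0x2a, [nat_lit 0, nat_lit 1, nat_lit 5]),
      (nat_lit 0x9ea80, [nat_lit 0, nat_lit 2, nat_lit 2]),
      (nat_lit 0x82a, [nat_lit 0, nat_lit 2, nat_lit 3]),
      (nat_lit 0x2a, [nat_lit 0, nat_lit 2, nat_lit 4]),
      (nat_lit 0x82a, [nat_lit 0, nat_lit 2, nat_lit 5]),
      (nat_lit 0x104e, [nat_lit 0, nat_lit 3, nat_lit 3]),
      (nat_lit 0x828, [nat_lit 0, nat_lit 3, nat_lit 4]),
      (nat_lit 0x828, [nat_lit 0, nat_lit 3, nat_lit 5]),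
      (nat_lit 0x829, [nat_lit 0, nat_lit 4, nat_lit 4]),
      (nat_lit 0x852, [nat_lit 0, nat_lit 4, nat_lit 5]),
      (nat_lit 0x829, [nat_lit 0, nat_lit 5, nat_lit 5]),
      (nat_lit 0x83a, [nat_lit 1, nat_lit 1, nat_lit 1]),
      (nat_lit 0x833, [nat_lit 1, nat_lit 1, nat_lit 2]),
      (nat_lit 0x833, [nat_lit 1, nat_lit 1, nat_lit 3]),
      (nat_lit 0x302026, [nat_lit 1, nat_lit 1, nat_lit 4]),
      (nat_lit 0x50977, [nat_lit 1, nat_lit 1, nat_lit 5]),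
      (nat_lit 0x833, [nat_lit 1, nat_lit 2, nat_lit 2]),
      (nat_lit 0x866, [nat_lit 1, nat_lit 2, nat_lit 3]),
      (nat_lit 0x70087, [nat_lit 1, nat_lit 2, nat_lit 4]),
      (nat_lit 0x70087, [nat_lit 1, nat_lit 2, nat_lit 5]),
      (nat_lit 0x828, [nat_lit 1, nat_lit 3, nat_lit 3]),
      (nat_lit 0x828, [nat_lit 1, nat_lit 3, nat_lit 4]),
      (nat_lit 0x28, [nat_lit 1, nat_lit 3, nat_lit 5]),
      (nat_lit 0x827, [nat_lit 1, nat_lit 4, nat_lit 4]),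
      (nat_lit 0x827, [nat_lit 1, nat_lit 4, nat_lit 5]),
      (nat_lit 0x827, [nat_lit 1, nat_lit 5, nat_lit 5]),
      (nat_lit 0x83a, [nat_lit 2, nat_lit 2, nat_lit 2]),
      (nat_lit 0x833, [nat_lit 2, nat_lit 2, nat_lit 3]),
      (nat_lit 0x50977, [nat_lit 2, nat_lit 2, nat_lit 4]),
      (nat_lit 0x302026, [nat_lit 2, nat_lit 2, nat_lit 5]),
      (nat_lit 0x828, [nat_lit 2, nat_lit 3, nat_lit 3]),
      (nat_lit 0x28, [nat_lit 2, nat_lit 3, nat_lit 4]),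
      (nat_lit 0x828, [nat_lit 2, nat_lit 3, nat_lit 5]),
      (nat_lit 0x827, [nat_lit 2, nat_lit 4, nat_lit 4]),
      (nat_lit 0x827, [nat_lit 2, nat_lit 4, nat_lit 5]),
      (nat_lit 0x827, [nat_lit 2, nat_lit 5, nat_lit 5]),
      (nat_lit 0x49d14, [nat_lit 3, nat_lit 3, nat_lit 3]),
      (nat_lit 0x828, [nat_lit 3, nat_lit 3, nat_lit 4]),
      (nat_lit 0x828, [nat_lit 3, nat_lit 3, nat_lit 5]),
      (nat_lit 0x822, [nat_lit 3, nat_lit 4, nat_lit 4]),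
      (nat_lit 0x850, [nat_lit 3, nat_lit 4, nat_lit 5]),
      (nat_lit 0x822, [nat_lit 3, nat_lit 5, nat_lit 5]),
      (nat_lit 0x8f8d3, [nat_lit 4, nat_lit 4, nat_lit 4]),
      (nat_lit 0x5951f, [nat_lit 4, nat_lit 4, nat_lit 5]),
      (nat_lit 0x5951f, [nat_lit 4, nat_lit 5, nat_lit 5]),
      (nat_lit 0x8f8d3, [nat_lit 5, nat_lit 5, nat_lit 5])],
    [(nat_lit 0x5000, [nat_lit 0]),
      (nat_lit 0x3c7fc, [nat_lit 0, nat_lit 0, nat_lit 0]),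
      (nat_lit 0x829, [nat_lit 0, nat_lit 0, nat_lit 1]),
      (nat_lit 0x1d9ce3, [nat_lit 0, nat_lit 0, nat_lit 2]),
      (nat_lit 0x829, [nat_lit 0, nat_lit 0, nat_lit 3]),
      (nat_lit 0x455aa, [nat_lit 0, nat_lit 0, nat_lit 4]),
      (nat_lit 0x829, [nat_lit 0, nat_lit 0, nat_lit 5]),
      (nat_lit 0x82a, [nat_lit 0, nat_lit 1, nat_lit 1]),
      (nat_lit 0x852, [nat_lit 0, nat_lit 1, nat_lit 2]),
      (nat_lit 0x829, [nat_lit 0, nat_lit 1, nat_lit 3]),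
      (nat_lit 0x12eef5, [nat_lit 0, nat_lit 1, nat_lit 4]),
      (nat_lit 0x29, [nat_lit 0, nat_lit 1, nat_lit 5]),
      (nat_lit 0x1d9ce3, [nat_lit 0, nat_lit 2, nat_lit 2]),
      (nat_lit 0x829, [nat_lit 0, nat_lit 2, nat_lit 3]),
      (nat_lit 0x1bf5f6, [nat_lit 0, nat_lit 2, nat_lit 4]),
      (nat_lit 0x829, [nat_lit 0, nat_lit 2, nat_lit 5]),
      (nat_lit 0x4d742b, [nat_lit 0, nat_lit 3, nat_lit 3]),
      (nat_lit 0xfec0f, [nat_lit 0, nat_lit 3, nat_lit 4]),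
      (nat_lit 0x13e7de, [nat_lit 0, nat_lit 3, nat_lit 5]),
      (nat_lit 0x42820, [nat_lit 0, nat_lit 4, nat_lit 4]),
      (nat_lit 0x47864, [nat_lit 0, nat_lit 4, nat_lit 5]),
      (nat_lit 0x326cc, [nat_lit 0, nat_lit 5, nat_lit 5]),
      (nat_lit 0x105c, [nat_lit 1, nat_lit 1, nat_lit 1]),
      (nat_lit 0x82a, [nat_lit 1, nat_lit 1, nat_lit 2]),
      (nat_lit 0x82d, [nat_lit 1, nat_lit 1, nat_lit 3]),
      (nat_lit 0x25eb08, [nat_lit 1, nat_lit 1, nat_lit 4]),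
      (nat_lit 0x82d, [nat_lit 1, nat_lit 1, nat_lit 5]),
      (nat_lit 0x829, [nat_lit 1, nat_lit 2, nat_lit 2]),
      (nat_lit 0x29, [nat_lit 1, nat_lit 2, nat_lit 3]),
      (nat_lit 0x12eef5, [nat_lit 1, nat_lit 2, nat_lit 4]),
      (nat_lit 0x829, [nat_lit 1, nat_lit 2, nat_lit 5]),
      (nat_lit 0x6bec3, [nat_lit 1, nat_lit 3, nat_lit 3]),
      (nat_lit 0x446cdb, [nat_lit 1, nat_lit 3, nat_lit 4]),
      (nat_lit 0x3339b8, [nat_lit 1, nat_lit 3, nat_lit 5]),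
      (nat_lit 0x881d1e, [nat_lit 1, nat_lit 4, nat_lit 4]),
      (nat_lit 0x446cdb, [nat_lit 1, nat_lit 4, nat_lit 5]),
      (nat_lit 0x6bec3, [nat_lit 1, nat_lit 5, nat_lit 5]),
      (nat_lit 0x3c7fc, [nat_lit 2, nat_lit 2, nat_lit 2]),
      (nat_lit 0x829, [nat_lit 2, nat_lit 2, nat_lit 3]),
      (nat_lit 0x455aa, [nat_lit 2, nat_lit 2, nat_lit 4]),
      (nat_lit 0x829, [nat_lit 2, nat_lit 2, nat_lit 5]),
      (nat_lit 0x326cc, [nat_lit 2, nat_lit 3, nat_lit 3]),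
      (nat_lit 0x47864, [nat_lit 2, nat_lit 3, nat_lit 4]),
      (nat_lit 0x13e7de, [nat_lit 2, nat_lit 3, nat_lit 5]),
      (nat_lit 0x42820, [nat_lit 2, nat_lit 4, nat_lit 4]),
      (nat_lit 0xfec0f, [nat_lit 2, nat_lit 4, nat_lit 5]),
      (nat_lit 0x4d742b, [nat_lit 2, nat_lit 5, nat_lit 5]),
      (nat_lit 0x268a7, [nat_lit 3, nat_lit 3, nat_lit 3]),
      (nat_lit 0x38a07, [nat_lit 3, nat_lit 3, nat_lit 4]),
      (nat_lit 0x8e0b8, [nat_lit 3, nat_lit 3, nat_lit 5]),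
      (nat_lit 0x307cc, [nat_lit 3, nat_lit 4, nat_lit 4]),
      (nat_lit 0x101f68, [nat_lit 3, nat_lit 4, nat_lit 5]),
      (nat_lit 0x8e0b8, [nat_lit 3, nat_lit 5, nat_lit 5]),
      (nat_lit 0x3a040, [nat_lit 4, nat_lit 4, nat_lit 4]),
      (nat_lit 0x307cc, [nat_lit 4, nat_lit 4, nat_lit 5]),
      (nat_lit 0x38a07, [nat_lit 4, nat_lit 5, nat_lit 5]),
      (nat_lit 0x268a7, [nat_lit 5, nat_lit 5, nat_lit 5])],
    [(nat_lit 0x5000, [nat_lit 0]),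
      (nat_lit 0x3c7fc, [nat_lit 0, nat_lit 0, nat_lit 0]),
      (nat_lit 0x1d9ce3, [nat_lit 0, nat_lit 0, nat_lit 1]),
      (nat_lit 0x829, [nat_lit 0, nat_lit 0, nat_lit 2]),
      (nat_lit 0x829, [nat_lit 0, nat_lit 0, nat_lit 3]),
      (nat_lit 0x829, [nat_lit 0, nat_lit 0, nat_lit 4]),
      (nat_lit 0x455aa, [nat_lit 0, nat_lit 0, nat_lit 5]),
      (nat_lit 0x1d9ce3, [nat_lit 0, nat_lit 1, nat_lit 1]),
      (nat_lit 0x852, [nat_lit 0, nat_lit 1, nat_lit 2]),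
      (nat_lit 0x829, [nat_lit 0, nat_lit 1, nat_lit 3]),
      (nat_lit 0x829, [nat_lit 0, nat_lit 1, nat_lit 4]),
      (nat_lit 0x1bf5f6, [nat_lit 0, nat_lit 1, nat_lit 5]),
      (nat_lit 0x82a, [nat_lit 0, nat_lit 2, nat_lit 2]),
      (nat_lit 0x829, [nat_lit 0, nat_lit 2, nat_lit 3]),
      (nat_lit 0x29, [nat_lit 0, nat_lit 2, nat_lit 4]),
      (nat_lit 0x12eef5, [nat_lit 0, nat_lit 2, nat_lit 5]),
      (nat_lit 0x4d742b, [nat_lit 0, nat_lit 3, nat_lit 3]),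
      (nat_lit 0x13e7de, [nat_lit 0, nat_lit 3, nat_lit 4]),
      (nat_lit 0xfec0f, [nat_lit 0, nat_lit 3, nat_lit 5]),
      (nat_lit 0x326cc, [nat_lit 0, nat_lit 4, nat_lit 4]),
      (nat_lit 0x47864, [nat_lit 0, nat_lit 4, nat_lit 5]),
      (nat_lit 0x42820, [nat_lit 0, nat_lit 5, nat_lit 5]),
      (nat_lit 0x3c7fc, [nat_lit 1, nat_lit 1, nat_lit 1]),
      (nat_lit 0x829, [nat_lit 1, nat_lit 1, nat_lit 2]),
      (nat_lit 0x829, [nat_lit 1, nat_lit 1, nat_lit 3]),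
      (nat_lit 0x829, [nat_lit 1, nat_lit 1, nat_lit 4]),
      (nat_lit 0x455aa, [nat_lit 1, nat_lit 1, nat_lit 5]),
      (nat_lit 0x82a, [nat_lit 1, nat_lit 2, nat_lit 2]),
      (nat_lit 0x29, [nat_lit 1, nat_lit 2, nat_lit 3]),
      (nat_lit 0x829, [nat_lit 1, nat_lit 2, nat_lit 4]),
      (nat_lit 0x12eef5, [nat_lit 1, nat_lit 2, nat_lit 5]),
      (nat_lit 0x326cc, [nat_lit 1, nat_lit 3, nat_lit 3]),
      (nat_lit 0x13e7de, [nat_lit 1, nat_lit 3, nat_lit 4]),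
      (nat_lit 0x47864, [nat_lit 1, nat_lit 3, nat_lit 5]),
      (nat_lit 0x4d742b, [nat_lit 1, nat_lit 4, nat_lit 4]),
      (nat_lit 0xfec0f, [nat_lit 1, nat_lit 4, nat_lit 5]),
      (nat_lit 0x42820, [nat_lit 1, nat_lit 5, nat_lit 5]),
      (nat_lit 0x105c, [nat_lit 2, nat_lit 2, nat_lit 2]),
      (nat_lit 0x82d, [nat_lit 2, nat_lit 2, nat_lit 3]),
      (nat_lit 0x82d, [nat_lit 2, nat_lit 2, nat_lit 4]),
      (nat_lit 0x25eb08, [nat_lit 2, nat_lit 2, nat_lit 5]),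
      (nat_lit 0x6bec3, [nat_lit 2, nat_lit 3, nat_lit 3]),
      (nat_lit 0x3339b8, [nat_lit 2, nat_lit 3, nat_lit 4]),
      (nat_lit 0x446cdb, [nat_lit 2, nat_lit 3, nat_lit 5]),
      (nat_lit 0x6bec3, [nat_lit 2, nat_lit 4, nat_lit 4]),
      (nat_lit 0x446cdb, [nat_lit 2, nat_lit 4, nat_lit 5]),
      (nat_lit 0x881d1e, [nat_lit 2, nat_lit 5, nat_lit 5]),
      (nat_lit 0x268a7, [nat_lit 3, nat_lit 3, nat_lit 3]),
      (nat_lit 0x8e0b8, [nat_lit 3, nat_lit 3, nat_lit 4]),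
      (nat_lit 0x38a07, [nat_lit 3, nat_lit 3, nat_lit 5]),
      (nat_lit 0x8e0b8, [nat_lit 3, nat_lit 4, nat_lit 4]),
      (nat_lit 0x101f68, [nat_lit 3, nat_lit 4, nat_lit 5]),
      (nat_lit 0x307cc, [nat_lit 3, nat_lit 5, nat_lit 5]),
      (nat_lit 0x268a7, [nat_lit 4, nat_lit 4, nat_lit 4]),
      (nat_lit 0x38a07, [nat_lit 4, nat_lit 4, nat_lit 5]),
      (nat_lit 0x307cc, [nat_lit 4, nat_lit 5, nat_lit 5]),
      (nat_lit 0x3a040, [nat_lit 5, nat_lit 5, nat_lit 5])],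
    [(nat_lit 0x5000, [nat_lit 0]),
      (nat_lit 0x1050, [nat_lit 0, nat_lit 0, nat_lit 0]),
      (nat_lit 0x82c, [nat_lit 0, nat_lit 0, nat_lit 1]),
      (nat_lit 0x82c, [nat_lit 0, nat_lit 0, nat_lit 2]),
      (nat_lit 0x1f2d2a, [nat_lit 0, nat_lit 0, nat_lit 3]),
      (nat_lit 0x82a, [nat_lit 0, nat_lit 0, nat_lit 4]),
      (nat_lit 0x82a, [nat_lit 0, nat_lit 0, nat_lit 5]),
      (nat_lit 0x1050, [nat_lit 0, nat_lit 0, nat_lit 6]),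
      (nat_lit 0x82c, [nat_lit 0, nat_lit 1, nat_lit 1]),
      (nat_lit 0x2926, [nat_lit 0, nat_lit 1, nat_lit 2]),
      (nat_lit 0x82f, [nat_lit 0, nat_lit 1, nat_lit 3]),
      (nat_lit 0x82f, [nat_lit 0, nat_lit 1, nat_lit 4]),
      (nat_lit 0x854, [nat_lit 0, nat_lit 1, nat_lit 5]),
      (nat_lit 0x1058, [nat_lit 0, nat_lit 1, nat_lit 6]),
      (nat_lit 0x82c, [nat_lit 0, nat_lit 2, nat_lit 2]),
      (nat_lit 0x82f, [nat_lit 0, nat_lit 2, nat_lit 3]),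
      (nat_lit 0x854, [nat_lit 0, nat_lit 2, nat_lit 4]),
      (nat_lit 0x82f, [nat_lit 0, nat_lit 2, nat_lit 5]),
      (nat_lit 0x1058, [nat_lit 0, nat_lit 2, nat_lit 6]),
      (nat_lit 0x105e, [nat_lit 0, nat_lit 3, nat_lit 3]),
      (nat_lit 0x10e13a, [nat_lit 0, nat_lit 3, nat_lit 4]),
      (nat_lit 0x10e13a, [nat_lit 0, nat_lit 3, nat_lit 5]),
      (nat_lit 0x105e, [nat_lit 0, nat_lit 3, nat_lit 6]),
      (nat_lit 0x82f, [nat_lit 0, nat_lit 4, nat_lit 4]),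
      (nat_lit 0xe47e, [nat_lit 0, nat_lit 4, nat_lit 5]),
      (nat_lit 0x829, [nat_lit 0, nat_lit 4, nat_lit 6]),
      (nat_lit 0x82f, [nat_lit 0, nat_lit 5, nat_lit 5]),
      (nat_lit 0x829, [nat_lit 0, nat_lit 5, nat_lit 6]),
      (nat_lit 0x1054, [nat_lit 0, nat_lit 6, nat_lit 6]),
      (nat_lit 0x1050, [nat_lit 1, nat_lit 1, nat_lit 1]),
      (nat_lit 0x82c, [nat_lit 1, nat_lit 1, nat_lit 2]),
      (nat_lit 0x82a, [nat_lit 1, nat_lit 1, nat_lit 3]),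
      (nat_lit 0x1f2d2a, [nat_lit 1, nat_lit 1, nat_lit 4]),
      (nat_lit 0x82a, [nat_lit 1, nat_lit 1, nat_lit 5]),
      (nat_lit 0x1050, [nat_lit 1, nat_lit 1, nat_lit 6]),
      (nat_lit 0x82c, [nat_lit 1, nat_lit 2, nat_lit 2]),
      (nat_lit 0x854, [nat_lit 1, nat_lit 2, nat_lit 3]),
      (nat_lit 0x82f, [nat_lit 1, nat_lit 2, nat_lit 4]),
      (nat_lit 0x82f, [nat_lit 1, nat_lit 2, nat_lit 5]),
      (nat_lit 0x1058, [nat_lit 1, nat_lit 2, nat_lit 6]),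
      (nat_lit 0x82f, [nat_lit 1, nat_lit 3, nat_lit 3]),
      (nat_lit 0x10e13a, [nat_lit 1, nat_lit 3, nat_lit 4]),
      (nat_lit 0xe47e, [nat_lit 1, nat_lit 3, nat_lit 5]),
      (nat_lit 0x829, [nat_lit 1, nat_lit 3, nat_lit 6]),
      (nat_lit 0x105e, [nat_lit 1, nat_lit 4, nat_lit 4]),
      (nat_lit 0x10e13a, [nat_lit 1, nat_lit 4, nat_lit 5]),
      (nat_lit 0x105e, [nat_lit 1, nat_lit 4, nat_lit 6]),
      (nat_lit 0x82f, [nat_lit 1, nat_lit 5, nat_lit 5]),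
      (nat_lit 0x829, [nat_lit 1, nat_lit 5, nat_lit 6]),
      (nat_lit 0x1054, [nat_lit 1, nat_lit 6, nat_lit 6]),
      (nat_lit 0x1050, [nat_lit 2, nat_lit 2, nat_lit 2]),
      (nat_lit 0x82a, [nat_lit 2, nat_lit 2, nat_lit 3]),
      (nat_lit 0x82a, [nat_lit 2, nat_lit 2, nat_lit 4]),
      (nat_lit 0x1f2d2a, [nat_lit 2, nat_lit 2, nat_lit 5]),
      (nat_lit 0x1050, [nat_lit 2, nat_lit 2, nat_lit 6]),
      (nat_lit 0x82f, [nat_lit 2, nat_lit 3, nat_lit 3]),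
      (nat_lit 0xe47e, [nat_lit 2, nat_lit 3, nat_lit 4]),
      (nat_lit 0x10e13a, [nat_lit 2, nat_lit 3, nat_lit 5]),
      (nat_lit 0x829, [nat_lit 2, nat_lit 3, nat_lit 6]),
      (nat_lit 0x82f, [nat_lit 2, nat_lit 4, nat_lit 4]),
      (nat_lit 0x10e13a, [nat_lit 2, nat_lit 4, nat_lit 5]),
      (nat_lit 0x829, [nat_lit 2, nat_lit 4, nat_lit 6]),
      (nat_lit 0x105e, [nat_lit 2, nat_lit 5, nat_lit 5]),
      (nat_lit 0x105e, [nat_lit 2, nat_lit 5, nat_lit 6]),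
      (nat_lit 0x1054, [nat_lit 2, nat_lit 6, nat_lit 6]),
      (nat_lit 0x138376, [nat_lit 3, nat_lit 3, nat_lit 3]),
      (nat_lit 0x76d6, [nat_lit 3, nat_lit 3, nat_lit 4]),
      (nat_lit 0x76d6, [nat_lit 3, nat_lit 3, nat_lit 5]),
      (nat_lit 0x1054, [nat_lit 3, nat_lit 3, nat_lit 6]),
      (nat_lit 0x76d6, [nat_lit 3, nat_lit 4, nat_lit 4]),
      (nat_lit 0x810fc4, [nat_lit 3, nat_lit 4, nat_lit 5]),
      (nat_lit 0x1bcbdc, [nat_lit 3, nat_lit 4, nat_lit 6]),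
      (nat_lit 0x76d6, [nat_lit 3, nat_lit 5, nat_lit 5]),
      (nat_lit 0x1bcbdc, [nat_lit 3, nat_lit 5, nat_lit 6]),
      (nat_lit 0x1050, [nat_lit 3, nat_lit 6, nat_lit 6]),
      (nat_lit 0x138376, [nat_lit 4, nat_lit 4, nat_lit 4]),
      (nat_lit 0x76d6, [nat_lit 4, nat_lit 4, nat_lit 5]),
      (nat_lit 0x1054, [nat_lit 4, nat_lit 4, nat_lit 6]),
      (nat_lit 0x76d6, [nat_lit 4, nat_lit 5, nat_lit 5]),
      (nat_lit 0x1bcbdc, [nat_lit 4, nat_lit 5, nat_lit 6]),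
      (nat_lit 0x1050, [nat_lit 4, nat_lit 6, nat_lit 6]),
      (nat_lit 0x138376, [nat_lit 5, nat_lit 5, nat_lit 5]),
      (nat_lit 0x1054, [nat_lit 5, nat_lit 5, nat_lit 6]),
      (nat_lit 0x1050, [nat_lit 5, nat_lit 6, nat_lit 6]),
      (nat_lit 0x64f56, [nat_lit 6, nat_lit 6, nat_lit 6])]]
  P := pdT
  de := nat_lit 2048

theorem tb_f7 : ∀ b < 8, ∀ r ∈ tb.rw b, ∀ f ∈ r.2, f < 7 := by decide +kernel

theorem tb_ll : ∀ b < 8, ∀ r ∈ tb.rw b, r.2.length ≤ 4 := by decide +kernel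

theorem tb_ty : ∀ b < 8, b = 0 ∨ b = 7 ∨ ∀ r ∈ tb.rw b, 6 ∉ r.2 := by decide +kernel

theorem tb_ok : tb.OK := ⟨by decide, pdT_check, tb_f7, tb_ll, tb_ty, by decide⟩

theorem ct0 : chkT 4 72 TD tb 0 = true := by decide +kernel

theorem ct1 : chkT 4 72 TD tb 1 = true := by decide +kernel

theorem ct2 : chkT 4 72 TD tb 2 = true := by decide +kernel

theorem ct3 : chkT 4 72 TD tb 3 = true := by decide +kernel

theorem ct4 : chkT 4 72 TD tb 4 = true := by decide +kernel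

theorem ct5 : chkT 4 72 TD tb 5 = true := by decide +kernel

theorem ct6 : chkT 4 72 TD tb 6 = true := by decide +kernel

theorem ct7 : chkT 4 72 TD tb 7 = true := by decide +kernel

theorem hT : ∀ b < 8, chkT 4 72 TD tb b = true := by
  intro b hb
  interval_cases b
  · exact ct0
  · exact ct1
  · exact ct2
  · exact ct3
  · exact ct4
  · exact ct5
  · exact ct6
  · exact ct7

end Dat

end HR
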